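import Pool.Agent.P.MP_8598be_al.Ck.Defs

/-!
Codes of multidegrees and indices.
-/

namespace Pool.Agent.P.MP_8598be_al.Ck

open Z K MvPolynomial

theorem epi_eq (L i : ℕ) : epi L i = ep L i := by
  change i / 2 % L * (i % 2) = _
  rw [ep]
  split_ifs with h
  · rw [h, mul_one]
  · rw [show i % 2 = 0 by omega, mul_zero]

theorem pit_W1 (L t i : ℕ) :
    pit L t i = if i % 2 = 1 then i else (i / 2 / L * L + (i / 2 % L + t) % L) * 2 := by
  rw [pit, ifb_eq]
  exact if_congr Nat.beq_eq.to_iff rfl rfl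

theorem pit_eq {L : ℕ} (hL : 0 < L) (t i : ℕ) : pit L t i = (K.pi L)^[t] i := by
  induction t with
  | zero =>
    rw [pit_W1, Function.iterate_zero_apply]
    split_ifs with h
    · rfl
    · rw [add_zero, Nat.mod_mod, Nat.div_add_mod']
      omega
  | succ t ih =>
    rw [Function.iterate_succ_apply', ← ih, pit_W1, pit_W1]
    split_ifs with h
    · rw [K.pi, if_pos h]
    · have h1 := Nat.mod_lt (i / 2 % L + t) hL
      rw [K.pi, if_neg (by omega), Nat.mul_div_cancel _ two_pos, add_comm (i / 2 / L * L) ((i / 2 % L + t) % L),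
        Nat.add_mul_div_right _ _ hL, Nat.add_mul_mod_self_right, Nat.div_eq_of_lt h1, zero_add,
        Nat.mod_mod, Nat.mod_add_mod (i / 2 % L + t), mul_comm 2, add_assoc]

theorem pi_inj {L : ℕ} (hL : 0 < L) : Function.Injective (K.pi L) := by
  obtain ⟨n, rfl⟩ : ∃ n, L = n + 1 := ⟨L - 1, by omega⟩
  refine Function.LeftInverse.injective (g := (K.pi (n + 1))^[n]) fun i => ?_
  rw [← Function.iterate_succ_apply, ← pit_eq hL, pit_W1]
  split_ifs with h
  · rfl
  · rw [Nat.succ_eq_add_one, Nat.add_mod_right, Nat.mod_mod, Nat.div_add_mod']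
    omega

theorem dig_add_W1 {B x n : ℕ} (hB : 0 < B) (h : x < n) (a k : ℕ) :
    (a + k * B ^ n) / B ^ x % B = a / B ^ x % B := by
  obtain ⟨m, rfl⟩ := Nat.exists_eq_add_of_lt h
  rw [show k * B ^ (x + m + 1) = k * B ^ m * B * B ^ x by ring,
    Nat.add_mul_div_right _ _ (pow_pos hB x), Nat.add_mul_mod_self_right]

theorem dig_mod_W1 {B x n : ℕ} (hB : 0 < B) (h : x < n) (w : ℕ) :
    w % B ^ n / B ^ x % B = w / B ^ x % B := by
  rw [← dig_add_W1 hB h _ (w / B ^ n), Nat.mod_add_div']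

theorem lt_W1 {a k q n : ℕ} (ha : a < q) (hk : k < n) : a + k * q < n * q :=
  calc a + k * q < (k + 1) * q := by rw [add_mul, one_mul]; omega
    _ ≤ n * q := Nat.mul_le_mul_right _ hk

theorem exp_W1 (B w d : ℕ) : ∑ x ∈ Finset.range d, w / B ^ x % B * B ^ x = w % B ^ d := by
  induction d with
  | zero => rw [Finset.sum_range_zero, pow_zero, Nat.mod_one]
  | succ d ih => rw [Finset.sum_range_succ, ih, Nat.mod_pow_succ, mul_comm]

theorem cod_W1 {B : ℕ} (hB : 0 < B) (f : ℕ → ℕ) (d : ℕ) (hf : ∀ x < d, f x < B) :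
    ∑ x ∈ Finset.range d, f x * B ^ x < B ^ d ∧
      ∀ y < d, (∑ x ∈ Finset.range d, f x * B ^ x) / B ^ y % B = f y := by
  induction d with
  | zero => exact ⟨by simp, fun y hy => absurd hy (Nat.not_lt_zero y)⟩
  | succ d ih =>
    obtain ⟨h1, h2⟩ := ih fun x hx => hf x (by omega)
    have h3 := hf d (Nat.lt_succ_self d)
    rw [Finset.sum_range_succ]
    refine ⟨by rw [pow_succ']; exact lt_W1 h1 h3, fun y hy => ?_⟩
    rcases Nat.lt_succ_iff_lt_or_eq.1 hy with h | rfl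
    · rw [dig_add_W1 hB h, h2 y h]
    · rw [Nat.add_mul_div_right _ _ (pow_pos hB y), Nat.div_eq_of_lt h1, zero_add,
        Nat.mod_eq_of_lt h3]

/-- The code of a multidegree. -/
def cd_W1 (P : Par) (f : Fin P.d → ℕ) : ℕ := ∑ x, f x * P.B ^ (x : ℕ)

theorem cd_dw_W1 {P : Par} {w : ℕ} (h : w < P.B ^ P.d) : cd_W1 P (dw P w) = w := by
  exact ((Fin.sum_univ_eq_sum_range (fun x => w / P.B ^ x % P.B * P.B ^ x) P.d).trans
    (exp_W1 _ _ _)).trans (Nat.mod_eq_of_lt h)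

theorem cd_spec_W1 {P : Par} (hB : 0 < P.B) {f : Fin P.d → ℕ} (hf : ∀ x, f x < P.B) :
    cd_W1 P f < P.B ^ P.d ∧ dw P (cd_W1 P f) = f := by
  obtain ⟨h1, h2⟩ := cod_W1 hB (fun x => if h : x < P.d then f ⟨x, h⟩ else 0) P.d fun x hx => by
    rw [dif_pos hx]
    exact hf _
  have e : ∑ x ∈ Finset.range P.d, (if h : x < P.d then f ⟨x, h⟩ else 0) * P.B ^ x = cd_W1 P f := by
    rw [← Fin.sum_univ_eq_sum_range fun x => (if h : x < P.d then f ⟨x, h⟩ else 0) * P.B ^ x]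
    exact Finset.sum_congr rfl fun x _ => by rw [dif_pos x.2]
  rw [e] at h1 h2
  exact ⟨h1, funext fun x => (h2 x x.2).trans (dif_pos x.2)⟩

theorem dead_W1 (a B w : ℕ) (c : Bool) (n : ℕ)
    (h : Nat.rec (motive := fun _ => Bool) c
      (fun y ih => ifb ((a.add (B.pow y)).beq w) false ih) n = true) :
    c = true ∧ ∀ y < n, a + B ^ y ≠ w := by
  induction n with
  | zero => exact ⟨h, fun y hy => absurd hy (Nat.not_lt_zero y)⟩
  | succ n ih =>
    change ifb ((a + B ^ n).beq w) false _ = true at h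
    rw [ifb_eq] at h
    split_ifs at h with h1
    obtain ⟨h2, h3⟩ := ih h
    refine ⟨h2, fun y hy => ?_⟩
    rcases Nat.lt_succ_iff_lt_or_eq.1 hy with h4 | rfl
    · exact h3 y h4
    · exact fun e => h1 (Nat.beq_eq.mpr e)

variable {P : Par} [Cx P] {w w' D D' : ℕ}

theorem L_pos (P : Par) [Cx P] : 0 < P.L := by
  rcases (Cx.ok (P := P)).L with h | h
  · omega
  · exact h.pos

theorem B_pos_W1 (P : Par) [Cx P] : 0 < P.B := lt_of_lt_of_le two_pos (Cx.ok (P := P)).B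

theorem dw_inj (h : w < P.B ^ P.d) (h' : w' < P.B ^ P.d) (e : dw P w = dw P w') : w = w' := by
  rw [← cd_dw_W1 h, e, cd_dw_W1 h']

/-- No carries. -/
theorem WD.add (h : WD P D w) (h' : WD P D' w') (hB : D + D' < P.B) :
    WD P (D + D') (w + w') ∧ dw P (w + w') = dw P w + dw P w' := by
  have e : w + w' = cd_W1 P (dw P w + dw P w') := by
    conv_lhs => rw [← cd_dw_W1 h.1, ← cd_dw_W1 h'.1, cd_W1, cd_W1, ← Finset.sum_add_distrib]
    exact Finset.sum_congr rfl fun x _ => (add_mul _ _ _).symm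
  obtain ⟨h1, h2⟩ := cd_spec_W1 (B_pos_W1 P) (f := dw P w + dw P w') fun x => by
    have a1 : dw P w x ≤ D := h.2 ▸ Finset.single_le_sum (fun _ _ => Nat.zero_le _) (Finset.mem_univ x)
    have a2 : dw P w' x ≤ D' :=
      h'.2 ▸ Finset.single_le_sum (fun _ _ => Nat.zero_le _) (Finset.mem_univ x)
    exact lt_of_le_of_lt (add_le_add a1 a2) hB
  rw [← e] at h1 h2
  refine ⟨⟨h1, ?_⟩, h2⟩
  rw [h2, ← h.2, ← h'.2]
  exact Finset.sum_add_distrib

theorem WD.mod_inj (h : WD P D w) (h' : WD P D w') (e : w % P.Bd = w' % P.Bd) : w = w' := by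
  rw [(Cx.ok (P := P)).Bd] at e
  have a1 : ∀ x : Fin P.d, (x : ℕ) < P.d - 1 → dw P w x = dw P w' x := fun x hx => by
    rw [dw, dw, ← dig_mod_W1 (B_pos_W1 P) hx, e, dig_mod_W1 (B_pos_W1 P) hx]
  refine dw_inj h.1 h'.1 (funext fun x => ?_)
  by_cases hx : (x : ℕ) < P.d - 1
  · exact a1 x hx
  · have a2 := h.2.trans h'.2.symm
    rw [tot, tot, ← Finset.add_sum_erase _ _ (Finset.mem_univ x),
      ← Finset.add_sum_erase _ (dw P w') (Finset.mem_univ x),
      Finset.sum_congr rfl fun z hz => a1 z (by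
        have := Fin.val_ne_of_ne (Finset.ne_of_mem_erase hz)
        have := z.2
        have := x.2
        omega)] at a2
    exact Nat.add_right_cancel a2

theorem wd_pow (x : Fin P.d) : WD P 1 (P.B ^ (x : ℕ)) ∧ dw P (P.B ^ (x : ℕ)) = one x := by
  have e : cd_W1 P (one x) = P.B ^ (x : ℕ) := by
    rw [cd_W1, Finset.sum_eq_single x (fun z _ hz => by rw [one, Pi.single_eq_of_ne hz, zero_mul])
      (fun hx => absurd (Finset.mem_univ x) hx), one, Pi.single_eq_same, one_mul]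
  obtain ⟨h1, h2⟩ := cd_spec_W1 (B_pos_W1 P) (f := one x) fun z => by
    have := (Cx.ok (P := P)).B
    rw [one, Pi.single_apply]
    split_ifs <;> omega
  rw [e] at h1 h2
  refine ⟨⟨h1, ?_⟩, h2⟩
  rw [h2, tot]
  simp

theorem rot_spec (h : w < P.B ^ P.d) :
    rot P w < P.B ^ P.d ∧ dw P (rot P w) = dw P w ∘ (Cx.σ : Equiv.Perm (Fin P.d)) := by
  have hB := B_pos_W1 P
  obtain ⟨n, hn⟩ : ∃ n, P.L = n + 1 := ⟨P.L - 1, by have := L_pos P; omega⟩
  obtain ⟨m, hm⟩ := Nat.exists_eq_add_of_le (Cx.ok (P := P)).Ld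
  have e : rot P w = w % P.B ^ (n + 1) / P.B + w % P.B * P.B ^ n + w / P.B ^ (n + 1) * P.B ^ (n + 1) := by
    rw [rot, (Cx.ok (P := P)).BL, (Cx.ok (P := P)).BL1, hn]
    rfl
  have a1 : w % P.B ^ (n + 1) / P.B < P.B ^ n :=
    Nat.div_lt_of_lt_mul (pow_succ' P.B n ▸ Nat.mod_lt _ (pow_pos hB _))
  have a2 : w % P.B ^ (n + 1) / P.B + w % P.B * P.B ^ n < P.B ^ (n + 1) :=
    (lt_W1 a1 (Nat.mod_lt _ hB)).trans_eq (pow_succ' _ _).symm
  refine ⟨?_, funext fun x => ?_⟩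
  · rw [hm, hn, pow_add] at h
    rw [e, hm, hn, pow_add P.B (n + 1) m, mul_comm _ (P.B ^ m)]
    exact lt_W1 a2 (Nat.div_lt_of_lt_mul h)
  · rw [Function.comp_apply, dw, dw, Cx.hσ, e, hn]
    split_ifs with hx
    · rw [dig_add_W1 hB hx]
      rcases Nat.lt_succ_iff_lt_or_eq.1 hx with h1 | h1
      · rw [dig_add_W1 hB h1, Nat.div_div_eq_div_mul, ← pow_succ',
          dig_mod_W1 hB (Nat.succ_lt_succ h1), Nat.mod_eq_of_lt (Nat.succ_lt_succ h1)]
      · rw [h1, Nat.add_mul_div_right _ _ (pow_pos hB n), Nat.div_eq_of_lt a1, zero_add,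
          Nat.mod_self, pow_zero, Nat.div_one, Nat.mod_mod]
    · obtain ⟨k, hk⟩ := Nat.exists_eq_add_of_le (not_lt.1 hx)
      rw [hk, pow_add P.B (n + 1) k, ← Nat.div_div_eq_div_mul, ← Nat.div_div_eq_div_mul w,
        Nat.add_mul_div_right _ _ (pow_pos hB _), Nat.div_eq_of_lt a2, zero_add]

theorem wd_rot (h : WD P D w) : WD P D (rot P w) := by
  refine ⟨(rot_spec h.1).1, ?_⟩
  rw [(rot_spec h.1).2, ← h.2]
  exact Equiv.sum_comp _ _

theorem rot_iter (h : WD P D w) (t : ℕ) : WD P D ((rot P)^[t] w) ∧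
    dw P ((rot P)^[t] w) = dw P w ∘ ((Cx.σ : Equiv.Perm (Fin P.d)) ^ t :) := by
  induction t with
  | zero => exact ⟨h, rfl⟩
  | succ t ih =>
    rw [Function.iterate_succ_apply']
    refine ⟨wd_rot ih.1, ?_⟩
    rw [(rot_spec ih.1.1).2, ih.2, pow_succ]
    rfl

theorem beq_W1 (h : w < P.B ^ P.d) :
    (rot P w).beq w = true ↔ dw P w ∘ (Cx.σ : Equiv.Perm (Fin P.d)) = dw P w := by
  rw [Nat.beq_eq, ← (rot_spec h).2]
  exact ⟨congrArg _, dw_inj (rot_spec h).1 h⟩

theorem fxb_iff (h : w < P.B ^ P.d) (y : Pt P.L) : fxb P w = true ↔ Fx (sy P y) (dw P w) := by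
  rw [fxb, ifb_eq]
  change _ ↔ P.L ≠ 1 ∧ _
  split_ifs with h1
  · exact iff_of_false not_false fun h2 => h2.1 (Nat.beq_eq.mp h1)
  · rw [and_iff_right fun h2 => h1 (Nat.beq_eq.mpr h2)]
    exact beq_W1 h

theorem orN_eq (h : w < P.B ^ P.d) (y : Pt P.L) : orN P w = orb (sy P y) (dw P w) := by
  rw [orN, ifb_eq, orb]
  split_ifs with h1 h2 h2
  · rfl
  · exact absurd ((beq_W1 h).1 h1) h2
  · exact absurd ((beq_W1 h).2 h2) h1
  · rfl

theorem orbW_eq (h : WD P D w) (n : ℕ) : (orbW P n w).map (dw P) =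
    (List.range n).map fun t => dw P w ∘ ⇑((Cx.σ : Equiv.Perm (Fin P.d)) ^ t) := by
  induction n generalizing w with
  | zero => rfl
  | succ n ih =>
    change dw P w :: (orbW P n (rot P w)).map (dw P) = _
    rw [ih (wd_rot h), List.range_succ_eq_map, List.map_cons, List.map_map, (rot_spec h.1).2]
    refine congrArg₂ _ rfl (List.map_congr_left fun t _ => ?_)
    rw [Function.comp_apply, Nat.succ_eq_add_one, pow_succ']
    rfl

/-- If the permutation is a full cycle, then a fixed multidegree is constant. -/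
theorem fx_dvd (hd : P.d = P.L) (y : Pt P.L) {β : Fin P.d → ℕ} (h : Fx (sy P y) β) :
    P.L ∣ tot β := by
  have h0 : 0 < P.d := hd ▸ L_pos P
  have a1 : ∀ i (hi : i < P.d), β ⟨i, hi⟩ = β ⟨0, h0⟩ := by
    intro i
    induction i with
    | zero => exact fun _ => rfl
    | succ i ih =>
      intro hi
      rw [← ih (by omega), ← congrFun h.2 ⟨i, by omega⟩]
      refine congrArg β (Fin.ext (Eq.trans ?_ (Cx.hσ _).symm))
      change i + 1 = if i < P.L then (i + 1) % P.L else i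
      rw [if_pos (by omega), Nat.mod_eq_of_lt (by omega)]
  rw [tot, Finset.sum_congr rfl fun (x : Fin P.d) _ => a1 x x.2, Finset.sum_const, Finset.card_univ,
    Fintype.card_fin, smul_eq_mul]
  exact hd ▸ dvd_mul_right _ _

theorem deadX_spec {l : List En} (x : Fin P.d) (hl : Lay P D l) (hw : WD P (D + 1) w)
    (hB : D + 1 < P.B) (h : deadX P w (P.B ^ (x : ℕ)) l = true) :
    ∀ a ∈ l, ∀ z, dw P a.w + one z = dw P w → dw P a.w x = 0 := by
  induction l with
  | nil => exact fun a ha => absurd ha List.not_mem_nil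
  | cons b l ih =>
    have hl' : Lay P D l := fun e he => hl e (List.mem_cons_of_mem _ he)
    change ifb ((dw P b.w x).beq 0) (deadX P w (P.B ^ (x : ℕ)) l) (Nat.rec (deadX P w (P.B ^ (x : ℕ)) l)
      (fun y ih => ifb ((b.w.add (P.B.pow y)).beq w) false ih) P.d) = true at h
    rw [ifb_eq] at h
    split_ifs at h with h1
    · exact List.forall_mem_cons.2 ⟨fun _ _ => Nat.beq_eq.mp h1, ih hl' h⟩
    · obtain ⟨h2, h3⟩ := dead_W1 _ _ _ _ _ h
      refine List.forall_mem_cons.2 ⟨fun z hz => ?_, ih hl' h2⟩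
      obtain ⟨h4, h5⟩ := (hl b List.mem_cons_self).add (wd_pow z).1 hB
      rw [(wd_pow z).2, hz] at h5
      exact absurd (dw_inj h4.1 hw.1 h5) (h3 z z.2)

end Pool.Agent.P.MP_8598be_al.Ck
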