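import Pool.Agent.P.MP_8598be_al.Ck.S0
import Pool.Agent.P.MP_8598be_al.Ck.W1

/-!
The pairs of a degree.
-/

namespace Pool.Agent.P.MP_8598be_al.Ck

open Z K MvPolynomial

variable {P : Par} {r : Res}

private theorem prs1_cons (a b : En) (l : List En) (r : List Pr) :
    prs1 a (b :: l) r = ⟨a.w + b.w, a, b⟩ :: prs1 a l r := rfl

private theorem prs2_cons (a : En) (l l' : List En) (r : List Pr) :
    prs2 (a :: l) l' r = prs1 a l' (prs2 l l' r) := rfl

private theorem prs3_cons (a : En) (l : List En) : prs3 (a :: l) = prs1 a l (prs3 l) := rfl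

private theorem mem1 {a : En} {l : List En} {r : List Pr} {x : Pr} :
    x ∈ prs1 a l r ↔ (∃ b ∈ l, x = ⟨a.w + b.w, a, b⟩) ∨ x ∈ r := by
  induction l with
  | nil => exact ⟨.inr, fun h => h.elim (fun ⟨_, h, _⟩ => by cases h) id⟩
  | cons b l ih => simp only [prs1_cons, List.mem_cons, ih, exists_eq_or_imp, or_assoc]

private theorem mem2 {l l' : List En} {r : List Pr} {x : Pr} :
    x ∈ prs2 l l' r ↔ (∃ a ∈ l, ∃ b ∈ l', x = ⟨a.w + b.w, a, b⟩) ∨ x ∈ r := by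
  induction l with
  | nil => exact ⟨.inr, fun h => h.elim (fun ⟨_, h, _⟩ => by cases h) id⟩
  | cons b l ih => simp only [prs2_cons, mem1, List.mem_cons, ih, exists_eq_or_imp, or_assoc]

private theorem nd_cons {a : En} {l : List En} (h : ((a :: l).map En.i).Nodup) :
    (∀ b ∈ l, a.i ≠ b.i) ∧ (l.map En.i).Nodup := by
  rw [List.map_cons, List.nodup_cons] at h
  exact ⟨fun b hb e => h.1 (e ▸ List.mem_map_of_mem hb), h.2⟩

private theorem mem3 {l : List En} (h : (l.map En.i).Nodup) {x : Pr} (hx : x ∈ prs3 l) :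
    x.a ∈ l ∧ x.b ∈ l ∧ x.w = x.a.w + x.b.w ∧ x.a.i ≠ x.b.i := by
  induction l with
  | nil => cases hx
  | cons a l ih =>
    rcases mem1.1 (prs3_cons a l ▸ hx) with ⟨b, hb, rfl⟩ | hx
    · exact ⟨List.mem_cons_self, List.mem_cons_of_mem _ hb, rfl, (nd_cons h).1 b hb⟩
    · obtain ⟨h1, h2, h3⟩ := ih (nd_cons h).2 hx
      exact ⟨List.mem_cons_of_mem _ h1, List.mem_cons_of_mem _ h2, h3⟩

private theorem all3 {l : List En} {a b : En} (ha : a ∈ l) (hb : b ∈ l) (h : a.i ≠ b.i) :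
    (⟨a.w + b.w, a, b⟩ : Pr) ∈ prs3 l ∨ (⟨b.w + a.w, b, a⟩ : Pr) ∈ prs3 l := by
  induction l with
  | nil => cases ha
  | cons c l ih =>
    rw [prs3_cons, mem1, mem1]
    rcases List.mem_cons.1 ha with rfl | ha' <;> rcases List.mem_cons.1 hb with rfl | hb'
    · exact (h rfl).elim
    · exact .inl (.inl ⟨b, hb', rfl⟩)
    · exact .inr (.inl ⟨a, ha', rfl⟩)
    · exact (ih ha' hb').imp .inr .inr

private theorem pw1 {a : En} {l : List En} {r : List Pr} (hl : (l.map En.i).Nodup)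
    (ha : ∀ b ∈ l, a.i ≠ b.i) (hr : r.Pairwise Dif) (h : ∀ y ∈ r, a.i ≠ y.a.i ∧ a.i ≠ y.b.i) :
    (prs1 a l r).Pairwise Dif := by
  induction l with
  | nil => exact hr
  | cons b l ih =>
    rw [prs1_cons, List.pairwise_cons]
    refine ⟨fun y hy => ?_, ih (nd_cons hl).2 fun c hc => ha c (List.mem_cons_of_mem _ hc)⟩
    rcases mem1.1 hy with ⟨c, hc, rfl⟩ | hy
    · exact ⟨fun e => (nd_cons hl).1 c hc e.2, fun e => ha c (List.mem_cons_of_mem _ hc) e.1⟩
    · exact ⟨fun e => (h y hy).1 e.1, fun e => (h y hy).2 e.1⟩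

private theorem pw2 {l l' : List En} {r : List Pr} (hl : (l.map En.i).Nodup)
    (hl' : (l'.map En.i).Nodup) (ha : ∀ a ∈ l, ∀ b ∈ l', a.i ≠ b.i) (hr : r.Pairwise Dif)
    (h : ∀ a ∈ l, ∀ y ∈ r, a.i ≠ y.a.i ∧ a.i ≠ y.b.i) : (prs2 l l' r).Pairwise Dif := by
  induction l with
  | nil => exact hr
  | cons a l ih =>
    refine pw1 hl' (ha a List.mem_cons_self) (ih (nd_cons hl).2
      (fun c hc => ha c (List.mem_cons_of_mem _ hc)) fun c hc => h c (List.mem_cons_of_mem _ hc))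
      fun y hy => ?_
    rcases mem2.1 hy with ⟨c, hc, b, hb, rfl⟩ | hy
    · exact ⟨(nd_cons hl).1 c hc, ha a List.mem_cons_self b hb⟩
    · exact h a List.mem_cons_self y hy

private theorem pw3 {l : List En} (hl : (l.map En.i).Nodup) : (prs3 l).Pairwise Dif := by
  induction l with
  | nil => exact List.Pairwise.nil
  | cons a l ih =>
    refine pw1 (nd_cons hl).2 (nd_cons hl).1 (ih (nd_cons hl).2) fun y hy => ?_
    obtain ⟨h1, h2, -⟩ := mem3 (nd_cons hl).2 hy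
    exact ⟨(nd_cons hl).1 _ h1, (nd_cons hl).1 _ h2⟩

/-- The list `l` is the layer of degree `c` of `E`. -/
private def IL (dg : En → ℕ) (E : List En) (c : ℕ) (l : List En) : Prop :=
  (l.map En.i).Nodup ∧ ∀ e, e ∈ l ↔ e ∈ E ∧ dg e = c

/-- The pairs of total degree `D` with both degrees at least `a`. -/
private structure AP (dg : En → ℕ) (E : List En) (a D : ℕ) (prs : List Pr) : Prop where
  mem : ∀ x ∈ prs, (x.a ∈ E ∧ x.b ∈ E ∧ x.w = x.a.w + x.b.w ∧ dg x.a + dg x.b = D ∧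
    x.a.i ≠ x.b.i) ∧ a ≤ dg x.a ∧ a ≤ dg x.b
  all : ∀ p ∈ E, ∀ q ∈ E, p.i ≠ q.i → dg p + dg q = D → a ≤ dg p → a ≤ dg q →
    (⟨p.w + q.w, p, q⟩ : Pr) ∈ prs ∨ (⟨q.w + p.w, q, p⟩ : Pr) ∈ prs
  pw : prs.Pairwise Dif

private theorem AP.step {dg : En → ℕ} {E l l' : List En} (hE : (E.map En.i).Nodup) {a b : ℕ}
    {r : List Pr} (hab : a < b) (hl : IL dg E a l) (hl' : IL dg E b l')
    (h : AP dg E (a + 1) (a + b) r) : AP dg E a (a + b) (prs2 l l' r) := by
  have ne : ∀ p ∈ l, ∀ q ∈ E, a < dg q → p.i ≠ q.i := fun p hp q hq h1 e => by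
    obtain ⟨h2, h3⟩ := (hl.2 p).1 hp
    rw [← List.inj_on_of_nodup_map hE h2 hq e, h3] at h1
    exact lt_irrefl _ h1
  have ne' : ∀ p ∈ l, ∀ q ∈ l', p.i ≠ q.i := fun p hp q hq =>
    ne p hp q ((hl'.2 q).1 hq).1 (((hl'.2 q).1 hq).2 ▸ hab)
  refine ⟨fun x hx => ?_, fun p hp q hq h1 h2 h3 h4 => ?_, pw2 hl.1 hl'.1 ne' h.pw
    fun p hp y hy => ?_⟩
  · rcases mem2.1 hx with ⟨p, hp, q, hq, rfl⟩ | hx
    · obtain ⟨h1, h2⟩ := (hl.2 p).1 hp
      obtain ⟨h3, h4⟩ := (hl'.2 q).1 hq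
      exact ⟨⟨h1, h3, rfl, by rw [← h2, ← h4], ne' p hp q hq⟩, h2.ge, hab.le.trans h4.ge⟩
    · obtain ⟨h1, h2, h3⟩ := h.mem x hx
      exact ⟨h1, by omega, by omega⟩
  · rw [mem2, mem2]
    rcases h3.eq_or_lt with h3 | h3
    · exact .inl (.inl ⟨p, (hl.2 p).2 ⟨hp, h3.symm⟩, q, (hl'.2 q).2 ⟨hq, by omega⟩, rfl⟩)
    rcases h4.eq_or_lt with h4 | h4
    · exact .inr (.inl ⟨q, (hl.2 q).2 ⟨hq, h4.symm⟩, p, (hl'.2 p).2 ⟨hp, by omega⟩, rfl⟩)
    · exact (h.all p hp q hq h1 h2 h3 h4).imp .inr .inr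
  · obtain ⟨⟨h1, h2, -⟩, h3, h4⟩ := h.mem y hy
    exact ⟨ne p hp _ h1 h3, ne p hp _ h2 h4⟩

private theorem prsA_ap {dg : En → ℕ} {E : List En} (hE : (E.map En.i).Nodup)
    (up : List (List En)) : ∀ (dn : List (List En)) (a n : ℕ),
      (∀ i ≤ n, ∃ l, up[i]? = some l ∧ IL dg E (a + i) l) →
      (∀ i ≤ n, ∃ l, dn[i]? = some l ∧ IL dg E (a + n - i) l) →
      AP dg E a (a + (a + n)) (prsA up dn n) := by
  induction up with
  | nil =>
    intro dn a n h1 _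
    obtain ⟨l, h, -⟩ := h1 0 n.zero_le
    cases h
  | cons l up ih =>
    intro dn a n h1 h2
    obtain ⟨l₀, e, hl⟩ := h1 0 n.zero_le
    obtain rfl : l = l₀ := Option.some.inj e
    obtain ⟨l', e', hl'⟩ := h2 0 n.zero_le
    obtain _ | ⟨l₁, dn⟩ := dn
    · cases e'
    obtain rfl : l₁ = l' := Option.some.inj e'
    obtain _ | _ | n := n
    · change AP dg E a (a + a) (prs3 l)
      refine ⟨fun x hx => ?_, fun p hp q hq h3 h4 h5 h6 => all3 ((hl.2 p).2 ⟨hp, by omega⟩)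
        ((hl.2 q).2 ⟨hq, by omega⟩) h3, pw3 hl.1⟩
      obtain ⟨h3, h4, h5, h6⟩ := mem3 hl.1 hx
      obtain ⟨h7, h8⟩ := (hl.2 _).1 h3
      obtain ⟨h9, h10⟩ := (hl.2 _).1 h4
      exact ⟨⟨h7, h9, h5, by omega, h6⟩, by omega, by omega⟩
    · exact AP.step (r := []) hE (by omega) hl hl'
        ⟨fun x hx => (by cases hx), fun p _ q _ _ h4 h5 h6 => by omega, List.Pairwise.nil⟩
    · refine AP.step (r := prsA up dn n) hE (by omega) hl hl' ?_
      have h := ih dn (a + 1) n (fun i hi => ?_) fun i hi => ?_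
      · rwa [show a + 1 + (a + 1 + n) = a + (a + (n + 1 + 1) - 0) by omega] at h
      · obtain ⟨l, h3, h4⟩ := h1 (i + 1) (by omega)
        exact ⟨l, h3, by rwa [show a + 1 + i = a + (i + 1) by omega]⟩
      · obtain ⟨l, h3, h4⟩ := h2 (i + 1) (by omega)
        exact ⟨l, h3, by rwa [show a + 1 + n - i = a + (n + 1 + 1) - (i + 1) by omega]⟩

private theorem lo_idx {lo : List (List En)} : ∀ {D : ℕ}, LoOk P D lo → lo.length + 1 = D ∧
    ∀ i l, lo[i]? = some l → ∀ e, e ∈ l ↔ e ∈ lo.flatten ∧ tot (dw P e.w) + i + 1 = D := by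
  induction lo with
  | nil => exact fun h => ⟨h.symm, fun i l e => by cases e⟩
  | cons l₀ lo ih =>
    rintro _ ⟨D, rfl, h1, h2⟩
    obtain ⟨h3, h4⟩ := ih h2
    refine ⟨by rw [List.length_cons, h3], fun i l e x => ?_⟩
    rw [List.flatten_cons, List.mem_append]
    obtain _ | i := i
    · obtain rfl : l₀ = l := Option.some.inj e
      refine ⟨fun hx => ⟨.inl hx, by rw [(h1 x hx).2]⟩, fun ⟨hx, h5⟩ => hx.elim id fun hx => ?_⟩
      obtain ⟨D', -, h6, -, h7⟩ := h2.mem hx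
      omega
    · rw [h4 i l e x]
      refine ⟨fun ⟨hx, h5⟩ => ⟨.inr hx, by omega⟩, fun ⟨hx, h5⟩ => ⟨hx.elim (fun hx => ?_) id,
        by omega⟩⟩
      have := (h1 x hx).2
      omega

theorem allP_spec {s : St} {lim : ℕ} (hs : SOk P lim s) (hD : 2 ≤ s.D) :
    APs P s.D s.lo.flatten (allP s) := by
  have hE : (s.lo.flatten.map En.i).Nodup :=
    hs.nd.sublist ((List.sublist_append_left _ _).map _)
  obtain ⟨h1, h2⟩ := lo_idx hs.lo
  have h3 : ∀ i c, i + c + 1 = s.D → 1 ≤ c →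
      ∃ l, s.lo[i]? = some l ∧ IL (fun e => tot (dw P e.w)) s.lo.flatten c l := by
    intro i c h4 h5
    have h6 : i < s.lo.length := by omega
    refine ⟨_, List.getElem?_eq_getElem h6,
      hE.sublist ((List.sublist_flatten_of_mem (List.getElem_mem h6)).map _), fun e => ?_⟩
    rw [h2 i _ (List.getElem?_eq_getElem h6) e]
    refine and_congr_right fun _ => ?_
    dsimp only
    omega
  have h := prsA_ap (dg := fun e => tot (dw P e.w)) hE s.lo.reverse s.lo 1 (s.D - 2)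
    (fun i hi => by
      rw [List.getElem?_reverse (by omega)]
      exact h3 _ _ (by omega) (by omega)) fun i hi => h3 _ _ (by omega) (by omega)
  rw [show 1 + (1 + (s.D - 2)) = s.D by omega] at h
  have e : allP s = prsA s.lo.reverse s.lo (s.D - 2) := by
    rw [allP, rva_eq, List.append_nil]
    rfl
  have h4 : ∀ a ∈ s.lo.flatten, 1 ≤ tot (dw P a.w) := fun a ha => by
    obtain ⟨D', h5, -, -, h6⟩ := hs.lo.mem ha
    omega
  rw [e]
  exact ⟨fun x hx => (h.mem x hx).1,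
    fun a ha b hb h5 h6 => h.all a ha b hb h5 h6 (h4 a ha) (h4 b hb), h.pw⟩

theorem flt_spec {m : ℕ} {l prs : List Pr} {k : List Pr → Res} (h : Is (flt P m l k prs) r) :
    Is (k ((l.filter fun x => m.testBit (x.w % P.Bd)).reverse ++ prs)) r := by
  induction l generalizing prs with
  | nil => exact h
  | cons x l ih =>
    obtain ⟨w, a, b⟩ := x
    change Is (ifb (tb m (w % P.Bd)) (flt P m l k (⟨w, a, b⟩ :: prs)) (flt P m l k prs)) r at h
    rw [tb_eq] at h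
    rcases ifb_is h with ⟨h1, h⟩ | ⟨h1, h⟩
    · rw [List.filter_cons_of_pos (by exact h1), List.reverse_cons, List.append_assoc]
      exact ih h
    · rw [List.filter_cons_of_neg (by simp [h1])]
      exact ih h

theorem msk_spec {td : List Nd} {x : Nd} (h : x ∈ td) :
    (msk P td).testBit (x.w % P.Bd) = true := by
  induction td with
  | nil => cases h
  | cons y td ih =>
    change (p2 (y.w % P.Bd) ||| msk P td).testBit _ = true
    rw [Nat.testBit_or, Bool.or_eq_true]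
    rcases List.mem_cons.1 h with rfl | h
    · exact .inl (by rw [p2_eq, Nat.testBit_two_pow_self])
    · exact .inr (ih h)

variable [Cx P]

theorem prsOk_of {D w : ℕ} {lo : List (List En)} {l prs : List Pr} {f : Pr → Bool}
    (hl : LoOk P D lo) (h : APs P D lo.flatten l) (hB : D < P.B) (hw : WD P D w)
    (p : prs.Perm (l.filter f)) (hf : ∀ x ∈ l, x.w = w → f x = true) :
    PrsOk P lo.flatten prs w := by
  have key : ∀ a ∈ lo.flatten, ∀ b ∈ lo.flatten, tot (dw P a.w) + tot (dw P b.w) = D →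
      a.w + b.w < P.B ^ P.d ∧ dw P (a.w + b.w) = dw P a.w + dw P b.w := by
    intro a ha b hb e
    obtain ⟨D₁, -, -, h1⟩ := hl.mem ha
    obtain ⟨D₂, -, -, h2⟩ := hl.mem hb
    have h3 := h1.add h2 (by rw [← h1.2, ← h2.2, e]; exact hB)
    exact ⟨h3.1.1, h3.2⟩
  refine ⟨fun x hx e => ?_, fun a ha b hb h1 e => ?_, ?_⟩
  · obtain ⟨h1, h2, h3, h4, h5⟩ := h.mem x (List.mem_filter.1 (p.subset hx)).1
    exact ⟨h1, h2, by rw [← e, h3, (key _ h1 _ h2 h4).2], h5⟩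
  · have h2 : tot (dw P a.w) + tot (dw P b.w) = D := by
      rw [← hw.2, ← e]
      exact Finset.sum_add_distrib.symm
    obtain ⟨h3, h4⟩ := key a ha b hb h2
    have h5 : a.w + b.w = w := dw_inj h3 hw.1 (h4.trans e)
    have h6 := h.all a ha b hb h1 h2
    rw [Nat.add_comm b.w, h5] at h6
    exact h6.imp (fun h7 => p.symm.subset (List.mem_filter.2 ⟨h7, hf _ h7 rfl⟩))
      fun h7 => p.symm.subset (List.mem_filter.2 ⟨h7, hf _ h7 rfl⟩)
  · refine (p.pairwise_iff fun e => ?_).2 (h.pw.filter f)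
    exact ⟨fun g => e.1 ⟨g.1.symm, g.2.symm⟩, fun g => e.2 ⟨g.2.symm, g.1.symm⟩⟩

theorem nod_prs {s : St} {lim : ℕ} {td : List Nd} {k : List Pr → Res} (hs : SOk P lim s)
    (hD : 2 ≤ s.D) (ht : TdOk P s.D td) (h : Is (flt P (msk P td) (allP s) k []) r) :
    ∃ prs, NOk P lim s prs td ∧ Is (k prs) r := by
  refine ⟨_, ⟨hs, ht, fun x hx => ?_⟩, flt_spec h⟩
  refine prsOk_of hs.lo (allP_spec hs hD) ht.1 (ht.2.1 x hx).1
    (by rw [List.append_nil]; exact List.reverse_perm _) fun y _ e => ?_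
  rw [e]
  exact msk_spec hx

end Pool.Agent.P.MP_8598be_al.Ck
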