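import Pool.Agent.P.MP_8598be_al.Ck.A1
import Pool.Agent.P.MP_8598be_al.K.S0

/-!
The nodes of a degree.
-/

namespace Pool.Agent.P.MP_8598be_al.Ck

open Z K MvPolynomial

variable {P : Par} [Cx P] {r : Res}

/-- The multidegrees lie in the same orbit. -/
def Orb_A2 (P : Par) [Cx P] (u w : ℕ) : Prop :=
  ∃ t : ℕ, dw P u ∘ ((Cx.σ : Equiv.Perm (Fin P.d)) ^ t :) = dw P w

theorem orb_refl_A2 (u : ℕ) : Orb_A2 P u u := ⟨0, rfl⟩

theorem orb_trans_A2 {u v w : ℕ} (h : Orb_A2 P u v) (h' : Orb_A2 P v w) : Orb_A2 P u w := by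
  obtain ⟨t, h⟩ := h
  obtain ⟨t', h'⟩ := h'
  exact ⟨t + t', by rw [← comp_pow_add, h, h']⟩

theorem orb_symm_A2 {u v : ℕ} (h : Orb_A2 P u v) : Orb_A2 P v u := by
  obtain ⟨t, h⟩ := h
  refine ⟨t * (P.L - 1), ?_⟩
  have e : t + t * (P.L - 1) = P.L * t := by
    obtain ⟨k, hk⟩ := Nat.exists_eq_succ_of_ne_zero (L_pos P).ne'
    rw [hk, Nat.succ_sub_one, Nat.succ_mul, mul_comm, add_comm]
  rw [← h, comp_pow_add, e, pow_mul, Cx.hL, one_pow]
  rfl

omit [Cx P] in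
theorem orbB_A2 (n w i : ℕ) :
    (orbB P n w).testBit i = true ↔ ∃ t, t < n ∧ (rot P)^[t] w % P.Bd = i := by
  induction n generalizing w with
  | zero =>
    change (0 : ℕ).testBit i = true ↔ _
    simp
  | succ n ih =>
    change (p2 (w % P.Bd) ||| orbB P n (rot P w)).testBit i = true ↔ _
    rw [Nat.testBit_or, Bool.or_eq_true, ih, p2_eq, Nat.testBit_two_pow, decide_eq_true_eq]
    constructor
    · rintro (h | ⟨t, ht, h⟩)
      · exact ⟨0, Nat.succ_pos _, h⟩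
      · exact ⟨t + 1, Nat.succ_lt_succ ht, h⟩
    · rintro ⟨_ | t, ht, h⟩
      · exact .inl h
      · exact .inr ⟨t, Nat.lt_of_succ_lt_succ ht, h⟩

theorem orbL_A2 {D v u : ℕ} (hv : WD P D v) (hu : WD P D u) :
    (orbB P P.L v).testBit (u % P.Bd) = true ↔ Orb_A2 P v u := by
  rw [orbB_A2]
  constructor
  · rintro ⟨t, -, h⟩
    obtain ⟨h1, h2⟩ := rot_iter hv t
    exact ⟨t, by rw [← h2, h1.mod_inj hu h]⟩
  · rintro ⟨t, h⟩
    obtain ⟨h1, h2⟩ := rot_iter hv (t % P.L)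
    refine ⟨t % P.L, Nat.mod_lt _ (L_pos P), ?_⟩
    rw [dw_inj h1.1 hu.1 (by rw [h2, ← pow_eq_pow_mod _ Cx.hL, h])]

omit [Cx P] in
theorem mnW_A2 (n w : ℕ) : ∃ t, mnW P n w = (rot P)^[t] w := by
  induction n generalizing w with
  | zero => exact ⟨0, rfl⟩
  | succ n ih =>
    obtain ⟨t, h⟩ := ih (rot P w)
    change ∃ t, ifb (w.ble (mnW P n (rot P w))) w (mnW P n (rot P w)) = _
    cases w.ble (mnW P n (rot P w))
    · exact ⟨t + 1, h⟩
    · exact ⟨0, rfl⟩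

theorem eigN_mem_A2 {v n : ℕ} {td : List Nd} {x : Nd} :
    x ∈ eigN v n td ↔ (x.w = v ∧ x.e < n) ∨ x ∈ td := by
  induction n with
  | zero =>
    change x ∈ td ↔ _
    simp
  | succ n ih =>
    change x ∈ ⟨v, n⟩ :: eigN v n td ↔ _
    rw [List.mem_cons, ih]
    obtain ⟨w, e⟩ := x
    simp only [Nd.mk.injEq, Nat.lt_succ_iff_lt_or_eq]
    tauto

theorem eigN_pw_A2 {R : Nd → Nd → Prop} {v : ℕ} {td : List Nd} (h : td.Pairwise R)
    (h1 : ∀ e, ∀ x ∈ td, R ⟨v, e⟩ x) (h2 : ∀ e e', e' < e → R ⟨v, e⟩ ⟨v, e'⟩) (n : ℕ) :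
    (eigN v n td).Pairwise R := by
  induction n with
  | zero => exact h
  | succ n ih =>
    change (⟨v, n⟩ :: eigN v n td).Pairwise R
    refine List.Pairwise.cons (fun x hx => ?_) ih
    rcases eigN_mem_A2.1 hx with ⟨h3, h4⟩ | h3
    · obtain ⟨w, e⟩ := x
      obtain rfl : w = v := h3
      exact h2 _ _ h4
    · exact h1 _ _ h3

/-- The invariant of the nodes. -/
structure Iv_A2 (P : Par) [Cx P] (D seen : ℕ) (td : List Nd) : Prop where
  wd : ∀ x ∈ td, WD P D x.w ∧ x.e < P.L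
  pw : ∀ y : Pt P.L, td.Pairwise fun x x' => ¬ Rel (sy P y) (nd P x) (nd P x').1 (nd P x').2
  sn : ∀ w, WD P D w → (seen.testBit (w % P.Bd) = true ↔ ∃ x ∈ td, Orb_A2 P x.w w)
  fl : ∀ x ∈ td, fxb P x.w = true → ∀ e, e < P.L → (⟨x.w, e⟩ : Nd) ∈ td

theorem iv_nil_A2 (D : ℕ) : Iv_A2 P D 0 [] :=
  ⟨fun _ h => by simp at h, fun _ => .nil, fun _ _ => by simp, fun _ h => by simp at h⟩

theorem iv_td_A2 {D seen : ℕ} {td : List Nd} (h : Iv_A2 P D seen td) (hB : D < P.B) :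
    TdOk P D td := by
  refine ⟨hB, h.wd, fun y => ⟨fun ν hν => ?_, List.pairwise_map.2 (h.pw y)⟩⟩
  obtain ⟨x, hx, rfl⟩ := List.mem_map.1 hν
  exact ⟨(h.wd x hx).1.2, (h.wd x hx).2⟩

theorem iv_cov_A2 {D seen w e : ℕ} {td : List Nd} (h : Iv_A2 P D seen td) (hw : WD P D w)
    (hs : seen.testBit (w % P.Bd) = true) (y : Pt P.L) (he : e < P.L) :
    ∃ ν ∈ td.map (nd P), Rel (sy P y) ν (dw P w) e := by
  obtain ⟨x, hx, t, ht⟩ := (h.sn w hw).1 hs
  by_cases hf : Fx (sy P y) (dw P w)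
  · have h1 : Fx (sy P y) (dw P x.w) := fx_pow.1 (show Fx (sy P y) (dw P x.w ∘ ((sy P y).σ ^ t :))
      from (show dw P x.w ∘ ((sy P y).σ ^ t :) = dw P w from ht) ▸ hf)
    refine ⟨_, List.mem_map.2 ⟨_, h.fl x hx ((fxb_iff (h.wd x hx).1.1 y).2 h1) e he, rfl⟩,
      .inl ⟨hf, ?_, rfl⟩⟩
    exact (h1.pow t).symm.trans ht
  · exact ⟨_, List.mem_map.2 ⟨x, hx, rfl⟩, .inr ⟨hf, t, ht⟩⟩

theorem new_mem_A2 {v : ℕ} {td : List Nd} {x : Nd} :
    x ∈ ifb (fxb P v) (eigN v P.L td) (⟨v, 0⟩ :: td) ↔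
      (x.w = v ∧ x.e < P.L ∧ (fxb P v = false → x.e = 0)) ∨ x ∈ td := by
  have := L_pos P
  cases fxb P v
  · rw [ifb_false, List.mem_cons]
    obtain ⟨w, e⟩ := x
    simp only [Nd.mk.injEq, forall_const]
    refine or_congr_left ⟨fun h => ⟨h.1, by omega, h.2⟩, fun h => ⟨h.1, h.2.2⟩⟩
  · rw [ifb_true, eigN_mem_A2]
    simp

theorem iv_new_A2 {D seen v : ℕ} {td : List Nd} (h : Iv_A2 P D seen td) (hv : WD P D v)
    (hs : seen.testBit (v % P.Bd) = false) :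
    Iv_A2 P D (seen ||| orbB P P.L v) (ifb (fxb P v) (eigN v P.L td) (⟨v, 0⟩ :: td)) := by
  have hn : ∀ x ∈ td, ¬ Orb_A2 P x.w v := fun x hx ho => by
    rw [(h.sn v hv).2 ⟨x, hx, ho⟩] at hs
    cases hs
  refine ⟨fun x hx => ?_, fun y => ?_, fun w hw => ?_, fun x hx hf e he => ?_⟩
  · rcases new_mem_A2.1 hx with ⟨h1, h2, -⟩ | h1
    · exact ⟨h1 ▸ hv, h2⟩
    · exact h.wd x h1
  · have h1 : ∀ e, ∀ x ∈ td, ¬ Rel (sy P y) (nd P ⟨v, e⟩) (nd P x).1 (nd P x).2 :=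
      fun e x hx hr => hn x hx (orb_symm_A2 hr.exists)
    cases hf : fxb P v
    · exact .cons (h1 0) (h.pw y)
    · refine eigN_pw_A2 (h.pw y) h1 (fun e e' he hr => ?_) _
      rcases hr with ⟨-, -, h2⟩ | ⟨h2, -⟩
      · exact he.ne' h2
      · exact h2 ((fxb_iff hv.1 y).1 hf)
  · rw [Nat.testBit_or, Bool.or_eq_true, h.sn w hw, orbL_A2 hv hw]
    constructor
    · rintro (⟨x, hx, ho⟩ | ho)
      · exact ⟨x, new_mem_A2.2 (.inr hx), ho⟩
      · exact ⟨⟨v, 0⟩, new_mem_A2.2 (.inl ⟨rfl, L_pos P, fun _ => rfl⟩), ho⟩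
    · rintro ⟨x, hx, ho⟩
      rcases new_mem_A2.1 hx with ⟨h1, -⟩ | h1
      · exact .inr (h1 ▸ ho)
      · exact .inl ⟨x, h1, ho⟩
  · rcases new_mem_A2.1 hx with ⟨h1, -⟩ | h1
    · refine new_mem_A2.2 (.inl ⟨h1, he, fun h2 => ?_⟩)
      rw [← h1, hf] at h2
      cases h2
    · exact new_mem_A2.2 (.inr (h.fl x h1 hf e he))

theorem mkTd_A2 {D : ℕ} {k : ℕ → ℕ → List Nd → List Pr → Res} {l : List Pr}
    (hl : ∀ x ∈ l, WD P D x.w) {seen reps : ℕ} {td : List Nd} {dn : List Pr}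
    (hi : Iv_A2 P D seen td)
    (hr : ∀ w, WD P D w → (reps.testBit (w % P.Bd) = true ↔ ∃ x ∈ td, x.w = w))
    (hd : ∀ x ∈ dn, seen.testBit (x.w % P.Bd) = true)
    (h : Is (mkTd P l k seen reps td (dn.filter fun x => reps.testBit (x.w % P.Bd))) r) :
    ∃ seen reps td, Iv_A2 P D seen td ∧
      (∀ w, WD P D w → (reps.testBit (w % P.Bd) = true ↔ ∃ x ∈ td, x.w = w)) ∧
      (∀ x ∈ l.reverse ++ dn, seen.testBit (x.w % P.Bd) = true) ∧
      Is (k seen reps td ((l.reverse ++ dn).filter fun x => reps.testBit (x.w % P.Bd))) r := by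
  induction l generalizing seen reps td dn with
  | nil => exact ⟨seen, reps, td, hi, hr, hd, h⟩
  | cons x l ih =>
    obtain ⟨w, a, b⟩ := x
    have hw : WD P D w := hl _ List.mem_cons_self
    have hl' : ∀ x ∈ l, WD P D x.w := fun x hx => hl x (List.mem_cons_of_mem _ hx)
    rw [List.reverse_cons, List.append_assoc, List.singleton_append]
    rcases ifb_is h with ⟨h1, h⟩ | ⟨h1, h⟩
    · rw [tb_eq, nmod] at h1
      refine ih hl' hi hr (fun x hx => ?_) (by rwa [List.filter_cons_of_pos (by exact h1)])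
      rcases List.mem_cons.1 hx with rfl | hx
      · obtain ⟨z, hz, e⟩ := (hr w hw).1 h1
        exact (hi.sn w hw).2 ⟨z, hz, e ▸ orb_refl_A2 _⟩
      · exact hd x hx
    rw [tb_eq, nmod] at h1
    rcases ifb_is h with ⟨h2, h⟩ | ⟨h2, h⟩
    · rw [tb_eq, nmod] at h2
      refine ih hl' hi hr (fun x hx => ?_)
        (by rwa [List.filter_cons_of_neg (by simpa using h1)])
      rcases List.mem_cons.1 hx with rfl | hx
      · exact h2
      · exact hd x hx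
    rw [tb_eq, nmod] at h2
    obtain ⟨t, ht⟩ := mnW_A2 (P := P) (P.L.sub 1) w
    obtain ⟨v, hv⟩ : ∃ v, mnW P (P.L.sub 1) w = v := ⟨_, rfl⟩
    change Is (ifb ((mnW P (P.L.sub 1) w).beq w)
      (mkTd P l k (seen ||| orbB P P.L (mnW P (P.L.sub 1) w))
        (reps ||| p2 (mnW P (P.L.sub 1) w % P.Bd))
        (ifb (fxb P (mnW P (P.L.sub 1) w)) (eigN (mnW P (P.L.sub 1) w) P.L td)
          (⟨mnW P (P.L.sub 1) w, 0⟩ :: td)) (⟨w, a, b⟩ :: _))
      (mkTd P l k (seen ||| orbB P P.L (mnW P (P.L.sub 1) w))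
        (reps ||| p2 (mnW P (P.L.sub 1) w % P.Bd))
        (ifb (fxb P (mnW P (P.L.sub 1) w)) (eigN (mnW P (P.L.sub 1) w) P.L td)
          (⟨mnW P (P.L.sub 1) w, 0⟩ :: td)) _)) r at h
    rw [hv] at h ht
    obtain ⟨h3, h4⟩ := rot_iter hw t
    rw [← ht] at h3 h4
    have h5 : Orb_A2 P v w := orb_symm_A2 ⟨t, h4.symm⟩
    have h6 : seen.testBit (v % P.Bd) = false := by
      rw [← Bool.not_eq_true, hi.sn v h3]
      rintro ⟨z, hz, ho⟩
      rw [(hi.sn w hw).2 ⟨z, hz, orb_trans_A2 ho h5⟩] at h2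
      cases h2
    have h7 : ∀ i, (reps ||| p2 (v % P.Bd)).testBit i = (reps.testBit i || decide (v % P.Bd = i)) :=
      fun i => by rw [Nat.testBit_or, p2_eq, Nat.testBit_two_pow]
    have h8 : (dn.filter fun x => (reps ||| p2 (v % P.Bd)).testBit (x.w % P.Bd)) =
        dn.filter fun x => reps.testBit (x.w % P.Bd) := by
      refine List.filter_congr fun x hx => ?_
      rw [h7, decide_eq_false fun e => ?_, Bool.or_false]
      rw [e, hd x hx] at h6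
      cases h6
    refine ih hl' (iv_new_A2 hi h3 h6) (reps := reps ||| p2 (v % P.Bd)) (fun u hu => ?_)
      (fun x hx => ?_) ?_
    · rw [h7, Bool.or_eq_true, hr u hu, decide_eq_true_eq]
      constructor
      · rintro (⟨z, hz, e⟩ | e)
        · exact ⟨z, new_mem_A2.2 (.inr hz), e⟩
        · exact ⟨⟨v, 0⟩, new_mem_A2.2 (.inl ⟨rfl, L_pos P, fun _ => rfl⟩), h3.mod_inj hu e⟩
      · rintro ⟨z, hz, e⟩
        rcases new_mem_A2.1 hz with ⟨h9, -⟩ | h9
        · exact .inr (by rw [← h9, e])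
        · exact .inl ⟨z, h9, e⟩
    · rw [Nat.testBit_or, Bool.or_eq_true]
      rcases List.mem_cons.1 hx with rfl | hx
      · exact .inr ((orbL_A2 h3 hw).2 h5)
      · exact .inl (hd x hx)
    · rcases ifb_is h with ⟨h9, h⟩ | ⟨h9, h⟩
      · rwa [List.filter_cons_of_pos, h8]
        rw [h7, Nat.eq_of_beq_eq_true h9, decide_eq_true rfl, Bool.or_true]
      · rwa [List.filter_cons_of_neg, h8]
        rw [h7, h1, Bool.false_or, decide_eq_true_eq]
        exact fun e => Nat.ne_of_beq_eq_false h9 (h3.mod_inj hw e)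

theorem mkT1_A2 {k : ℕ → List Nd → Res} {n : ℕ} (hn : n ≤ P.d) {seen : ℕ} {td : List Nd}
    (hi : Iv_A2 P 1 seen td)
    (hd : ∀ x : Fin P.d, n ≤ x → seen.testBit (P.B ^ (x : ℕ) % P.Bd) = true)
    (h : Is (mkT1 P n k seen td) r) : ∃ seen td, Iv_A2 P 1 seen td ∧
      (∀ x : Fin P.d, seen.testBit (P.B ^ (x : ℕ) % P.Bd) = true) ∧ Is (k seen td) r := by
  induction n generalizing seen td with
  | zero => exact ⟨seen, td, hi, fun x => hd x (Nat.zero_le _), h⟩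
  | succ n ih =>
    have hw : WD P 1 (P.B ^ n) := (wd_pow (⟨n, hn⟩ : Fin P.d)).1
    rcases ifb_is h with ⟨h1, h⟩ | ⟨h1, h⟩
    · rw [tb_eq, nmod] at h1
      refine ih (Nat.le_of_succ_le hn) hi (fun x hx => ?_) h
      rcases hx.eq_or_lt with e | e
      · exact e ▸ h1
      · exact hd x e
    · rw [tb_eq, nmod] at h1
      refine ih (Nat.le_of_succ_le hn) (iv_new_A2 hi hw h1) (fun x hx => ?_) h
      rw [Nat.testBit_or, Bool.or_eq_true]
      rcases hx.eq_or_lt with e | e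
      · exact .inr (e ▸ (orbL_A2 hw hw).2 (orb_refl_A2 _))
      · exact .inl (hd x e)

/-- Invariant: `seen` holds the bits of the orbits of the representatives, `reps` holds the bits of
the representatives, which lie in different orbits, all multidegrees seen so far have their bit in
`seen`, and `prs` is the list of the pairs seen so far whose multidegree is a representative. -/
theorem mkTd_spec {s : St} {lim : ℕ} {k : ℕ → ℕ → List Nd → List Pr → Res} (hs : SOk P lim s)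
    (hD : 2 ≤ s.D) (hB : s.D < P.B) (h : Is (mkTd P (allP s) k 0 0 [] []) r) :
    ∃ seen reps td prs, NOk P lim s prs td ∧
      (∀ (y : Pt P.L), ∀ a ∈ ents s, ∀ b ∈ ents s, a.i ≠ b.i → tot (dw P a.w + dw P b.w) = s.D →
        ∀ e, e < P.L → ∃ ν ∈ td.map (nd P), Rel (sy P y) ν (dw P a.w + dw P b.w) e) ∧
      Is (k seen reps td prs) r := by
  have hA := allP_spec hs hD
  have hl : ∀ x ∈ allP s, WD P s.D x.w := fun x hx => by
    obtain ⟨h1, h2, h3, h4, -⟩ := hA.mem x hx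
    obtain ⟨_, -, -, h5⟩ := hs.lo.mem h1
    obtain ⟨_, -, -, h6⟩ := hs.lo.mem h2
    rw [← h4, h5.2, h6.2] at hB ⊢
    exact h3 ▸ (h5.add h6 hB).1
  obtain ⟨seen, reps, td, hi, hr, hd, h⟩ :=
    mkTd_A2 (dn := []) hl (iv_nil_A2 _) (fun _ _ => by simp) (fun _ h => by simp at h) h
  rw [List.append_nil] at hd h
  refine ⟨seen, reps, td, _, ⟨hs, iv_td_A2 hi hB, fun x hx => ?_⟩, fun y a ha b hb hab ht e he => ?_,
    h⟩
  · refine prsOk_of hs.lo hA hB (hi.wd x hx).1 ((List.reverse_perm _).filter _) fun z _ e => ?_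
    rw [e]
    exact (hr _ (hi.wd x hx).1).2 ⟨x, hx, rfl⟩
  · have h1 : tot (dw P a.w) + tot (dw P b.w) = s.D :=
      (Finset.sum_add_distrib (s := Finset.univ) (f := dw P a.w) (g := dw P b.w)).symm.trans ht
    have h2 := hs.lt ha
    have h3 := hs.lt hb
    obtain ⟨h4, h5⟩ := WD.add (P := P) ⟨h2.1, rfl⟩ ⟨h3.1, rfl⟩ (h1 ▸ hB)
    rw [h1] at h4
    rw [← h5]
    refine iv_cov_A2 hi h4 ?_ y he
    rcases hA.all a (hs.mem_lo ha (by omega)) b (hs.mem_lo hb (by omega)) hab h1 with h6 | h6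
    · exact hd _ (List.mem_reverse.2 h6)
    · rw [add_comm]
      exact hd _ (List.mem_reverse.2 h6)

theorem mkT1_spec {s : St} {lim : ℕ} {k : ℕ → List Nd → Res} (hs : SOk P lim s) (hD : s.D = 1)
    (h : Is (mkT1 P P.d k 0 []) r) : ∃ seen td, NOk P lim s [] td ∧
      (∀ (y : Pt P.L) (x : Fin P.d) (e : ℕ), e < P.L →
        ∃ ν ∈ td.map (nd P), Rel (sy P y) ν (one x) e) ∧ Is (k seen td) r := by
  obtain ⟨seen, td, hi, hd, h⟩ :=
    mkT1_A2 le_rfl (iv_nil_A2 _) (fun x hx => absurd x.2 (not_lt.2 hx)) h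
  refine ⟨seen, td, ⟨hs, hD ▸ iv_td_A2 hi (Cx.ok (P := P)).B, fun x _ => ?_⟩, fun y x e he => ?_, h⟩
  · refine ⟨fun _ h => by simp at h, fun a ha => ?_, .nil⟩
    obtain ⟨_, h1, h2, -⟩ := hs.lo.mem ha
    omega
  · rw [← (wd_pow x).2]
    exact iv_cov_A2 hi (wd_pow x).1 (hd x) y he

end Pool.Agent.P.MP_8598be_al.Ck
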