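import Pool.Agent.P.MP_8598be_al.Ck.P2
import Pool.Agent.P.MP_8598be_al.Ck.W1

/-!
The columns of a node.
-/

namespace Pool.Agent.P.MP_8598be_al.Ck

open Z K MvPolynomial

variable {P : Par} [Cx P] {r : Res} {b : Bn} {lim w e : ℕ}

/-- The invariant of the accumulator. -/
def Inv_C1 (P : Par) (b : Bn) (acc bd dv : ℕ) (T : ∀ y : Pt P.L, y.V → List (ℕ × ZMod y.p)) :
    Prop :=
  (∃ a, Acu P b acc bd dv a ∧ ∀ y ρ, Zc y ρ → ∀ i, ev ρ (a.coeff i) = rv b (T y ρ) i) ∧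
    ∀ y ρ, KyOk b (T y ρ)

/-- The sign that belongs to the two shifts. -/
def Sg_C1 (b : Bn) (h₁ h₂ : ℕ) (s : ℤ) : Prop :=
  (h₁ = 0 ∧ h₂ = b.H ∧ s = 1) ∨ (h₁ = b.H ∧ h₂ = 0 ∧ s = -1)

section

variable {acc bd dv key h₁ h₂ : ℕ} {s : ℤ} {T : ∀ y : Pt P.L, y.V → List (ℕ × ZMod y.p)}
  {f : ∀ y : Pt P.L, y.V → ZMod y.p} {k : ℕ → Res}

theorem swap_C1 (h : Sg_C1 b h₁ h₂ s) : Sg_C1 b h₂ h₁ (-s) := by
  rcases h with ⟨h, h', rfl⟩ | ⟨h, h', rfl⟩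
  · exact .inr ⟨h', h, rfl⟩
  · exact .inl ⟨h', h, rfl⟩

theorem rv_C1 {F : Type} [Field F] (l : List (ℕ × F)) (key : ℕ) (v : F) (i : ℕ) :
    rv b (l ++ [(key, v)]) i = rv b l i + if row b key = i then v else 0 := by
  simp only [rv, List.map_append, List.sum_append, List.map_cons, List.map_nil, List.sum_cons,
    List.sum_nil, add_zero]

theorem ky_C1 {F : Type} [Field F] {l : List (ℕ × F)} {v : F} (h : KyOk b l)
    (h' : b.z = 1 → v ≠ 0 → (b.T2 >>> (b.kw * row b key)) % 2 ^ b.kw = key) :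
    KyOk b (l ++ [(key, v)]) := fun hz x hx h0 => by
  rcases List.mem_append.1 hx with hx | hx
  · exact h hz x hx h0
  · obtain rfl := List.mem_singleton.1 hx
    exact h' hz h0

omit [Cx P] in
theorem mono_C1 {bd' : ℕ} (h : Inv_C1 P b acc bd dv T) (hb : bd ≤ bd') :
    Inv_C1 P b acc bd' dv T := by
  obtain ⟨⟨a, h1, h2⟩, h3⟩ := h
  exact ⟨⟨a, h1.mono hb dvd_rfl, h2⟩, h3⟩

omit [Cx P] in
theorem skip_C1 {bd' : ℕ} (h : Inv_C1 P b acc bd dv T) (hb : bd ≤ bd') (hf : ∀ y ρ, f y ρ = 0) :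
    Inv_C1 P b acc bd' dv fun y ρ => T y ρ ++ [(key, f y ρ)] := by
  obtain ⟨⟨a, h1, h2⟩, h3⟩ := h
  refine ⟨⟨a, h1.mono hb dvd_rfl, fun y ρ hz i => ?_⟩,
    fun y ρ => ky_C1 (h3 y ρ) fun _ h0 => (h0 (hf y ρ)).elim⟩
  rw [rv_C1, h2 y ρ hz, hf, ite_self, add_zero]

omit [Cx P] in
theorem put_C1 {p q c : ℕ} {α : Rz} (hb : 0 < b.nr) (hs : Sg_C1 b h₁ h₂ s)
    (h : Inv_C1 P b acc bd dv T) (hx : Den P ⟨p, q, c, dv⟩ α)
    (hf : ∀ y ρ, Zc y ρ → f y ρ = s * ev ρ α) (hr : Is (put b key h₁ h₂ p q acc k) r) :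
    ∃ acc', Inv_C1 P b acc' (bd + c) dv (fun y ρ => T y ρ ++ [(key, f y ρ)]) ∧ Is (k acc') r := by
  obtain ⟨⟨a, h1, h2⟩, h3⟩ := h
  obtain ⟨c1, hr⟩ := chk_is hr
  have hi : row b key < b.nr := Nat.mod_lt _ hb
  have c2 : (b.T2 >>> (b.kw * row b key)) % p2 b.kw * b.z = key * b.z := Nat.eq_of_beq_eq_true c1
  refine ⟨_, ⟨?_, fun y ρ => ky_C1 (h3 y ρ) fun hz _ => ?_⟩, hr⟩
  · rcases hs with ⟨rfl, rfl, rfl⟩ | ⟨rfl, rfl, rfl⟩
    · refine ⟨_, h1.put_pos hx hi, fun y ρ hz i => ?_⟩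
      rw [rv_C1, Polynomial.coeff_add, map_add, h2 y ρ hz, Polynomial.coeff_monomial, hf y ρ hz]
      split_ifs <;> simp
    · refine ⟨_, h1.put_neg hx hi, fun y ρ hz i => ?_⟩
      rw [rv_C1, Polynomial.coeff_sub, map_sub, h2 y ρ hz, Polynomial.coeff_monomial, hf y ρ hz,
        sub_eq_add_neg]
      split_ifs <;> simp
  · rwa [hz, mul_one, mul_one, p2_eq] at c2

theorem bT_C1 (i q j l p n : ℕ) (t : List Tm) : bT b i q h₁ h₂ (⟨j, l, p, n⟩ :: t) k acc =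
    ifb (i.ble j)
      (ifb (i.beq j) (bT b i q h₁ h₂ t k acc)
        (put b (p2 j + p2 l + q) h₁ h₂ p n acc (bT b i q h₁ h₂ t k)))
      (ifb (l.ble i) (ifb (l.beq i) (bT b i q h₁ h₂ t k acc)
        (put b (p2 j + p2 l + q) h₁ h₂ p n acc (bT b i q h₁ h₂ t k)))
        (put b (p2 j + p2 l + q) h₂ h₁ p n acc (bT b i q h₁ h₂ t k))) := rfl

theorem nble_C1 {x y : ℕ} (h : x.ble y = false) : y < x :=
  Nat.lt_of_not_le fun h' => by
    rw [Nat.ble_eq_true_of_le h'] at h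
    cases h

omit [Cx P] in
theorem terms_C1 {i c : ℕ} {t : List Tm} {l : Tms Rz} (hb : 0 < b.nr) (hs : Sg_C1 b h₁ h₂ s)
    (ht : TD P dv c t l) (ho : Ori t) (h : Inv_C1 P b acc bd dv T)
    (hr : Is (bT b i (p2 i) h₁ h₂ t k acc) r) :
    ∃ acc', Inv_C1 P b acc' (bd + c) dv (fun y ρ => T y ρ ++ (tev ρ l).map fun x =>
      (k3 x.1 x.2.1 i, s * (sg3 (ZMod y.p) x.1 x.2.1 i * x.2.2))) ∧ Is (k acc') r := by
  induction ht generalizing acc bd T with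
  | nil c =>
    refine ⟨acc, ?_, hr⟩
    simpa only [tev, List.map_nil, List.append_nil] using mono_C1 h (Nat.le_add_right _ _)
  | @cons c c₁ c₂ x a t l hx _ hc ih =>
    obtain ⟨j, m, p, n⟩ := x
    have hj : j < m := ho _ List.mem_cons_self
    have key : ∃ acc', Inv_C1 P b acc' (bd + c₁) dv (fun y ρ => T y ρ ++
        [(k3 j m i, s * (sg3 (ZMod y.p) j m i * ev ρ a))]) ∧
          Is (bT b i (p2 i) h₁ h₂ t k acc') r := by
      have ek : p2 j + p2 m + p2 i = k3 j m i := by rw [p2_eq, p2_eq, p2_eq, k3]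
      rw [bT_C1, ek] at hr
      rcases ifb_is hr with ⟨c1, hr⟩ | ⟨c1, hr⟩ <;> rcases ifb_is hr with ⟨c2, hr⟩ | ⟨c2, hr⟩
      · have h1 := Nat.eq_of_beq_eq_true c2
        exact ⟨acc, skip_C1 h (Nat.le_add_right _ _) fun y ρ => by simp [sg3, sg2, h1], hr⟩
      · have h1 : i < j := lt_of_le_of_ne (Nat.le_of_ble_eq_true c1) (Nat.ne_of_beq_eq_false c2)
        have h2 := h1.trans hj
        exact put_C1 hb hs h hx (fun y ρ _ => by
          simp [sg3, sg2, hj, hj.ne, h1.ne', h1.not_gt, h2.ne', h2.not_gt]) hr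
      · rcases ifb_is hr with ⟨c3, hr⟩ | ⟨c3, hr⟩
        · have h1 := Nat.eq_of_beq_eq_true c3
          exact ⟨acc, skip_C1 h (Nat.le_add_right _ _) fun y ρ => by simp [sg3, sg2, h1], hr⟩
        · have h1 : m < i := lt_of_le_of_ne (Nat.le_of_ble_eq_true c2) (Nat.ne_of_beq_eq_false c3)
          have h2 := hj.trans h1
          exact put_C1 hb hs h hx (fun y ρ _ => by
            simp [sg3, sg2, hj, hj.ne, h1.ne, h1, h2.ne, h2]) hr
      · have h1 := nble_C1 c1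
        have h2 := nble_C1 c2
        exact put_C1 hb (swap_C1 hs) h hx (fun y ρ _ => by
          simp [sg3, sg2, hj, hj.ne, h1.ne, h1, h2.ne', h2.not_gt]) hr
    obtain ⟨acc', h', hr'⟩ := key
    obtain ⟨acc'', h'', hr''⟩ := ih (fun z hz => ho z (List.mem_cons_of_mem _ hz)) h' hr'
    refine ⟨acc'', ?_, hr''⟩
    simpa only [tev, List.map_cons, List.append_assoc, List.singleton_append] using
      mono_C1 h'' (bd' := bd + c) (by omega)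

theorem put2_C1 {i j n : ℕ} (hb : 0 < b.nr) (hs : Sg_C1 b h₁ h₂ s) (hL : P.L ≠ 1)
    (h : Inv_C1 P b acc bd dv T) (hd : p2 n ∣ dv) (n' : ℕ) (hn : n % P.L = n' % P.L)
    (hr : Is (put2 P b i j n h₁ h₂ acc k) r) :
    ∃ acc', Inv_C1 P b acc' (bd + 1) dv (fun y ρ => T y ρ ++
      [(k2 i j, s * (sg2 (ZMod y.p) i j * y.ζ ^ n'))]) ∧ Is (k acc') r := by
  have hx : Den P ⟨p2 (P.be * n), 0, 1, dv⟩ (X 0 ^ n * 1) :=
    ((den_one P).shz n).mono rfl (Nat.zero_shiftLeft _).symm le_rfl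
      (by rwa [p2_eq, ← one_mul (2 ^ n)] at hd)
  have ez : ∀ (y : Pt P.L) (ρ : y.V), Zc y ρ → ev ρ (X 0 ^ n * 1) = y.ζ ^ n' := fun y ρ hz => by
    rw [mul_one, map_pow, ev, eval₂Hom_X', hz hL, pow_eq_pow_mod n y.hζ.pow_eq_one, hn,
      ← pow_eq_pow_mod n' y.hζ.pow_eq_one]
  have ek : (p2 i).add (p2 j) = k2 i j := by
    rw [p2_eq, p2_eq]
    rfl
  unfold put2 at hr
  rw [ek] at hr
  rcases ifb_is hr with ⟨c1, hr⟩ | ⟨c1, hr⟩
  · have h1 := Nat.eq_of_beq_eq_true c1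
    exact ⟨acc, skip_C1 h (Nat.le_add_right _ _) fun y ρ => by simp [sg2, h1], hr⟩
  rcases ifb_is hr with ⟨c2, hr⟩ | ⟨c2, hr⟩
  · have h1 : i < j := lt_of_le_of_ne (Nat.le_of_ble_eq_true c2) (Nat.ne_of_beq_eq_false c1)
    exact put_C1 hb hs h hx (fun y ρ hz => by
      rw [ez y ρ hz]
      simp [sg2, h1, h1.ne]) hr
  · have h1 := nble_C1 c2
    exact put_C1 hb (swap_C1 hs) h hx (fun y ρ hz => by
      rw [ez y ρ hz]
      simp [sg2, h1.ne', h1.not_gt]) hr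

theorem fin_C1 {x : Pr} {k : Cl → Res} (hb : BOk P b) (h : Inv_C1 P b acc bd dv T)
    (hT : ∀ y ρ, colT (sy P y) (nd P ⟨w, e⟩) (pe P ρ x) = T y ρ)
    (hr : Is (fin P b x.a.i x.b.i bd dv acc k) r) : ∃ c, ColOk P b ⟨w, e⟩ c x ∧ Is (k c) r := by
  obtain ⟨⟨a, h1, h2⟩, h3⟩ := h
  obtain ⟨z, z1, z2, z3, hr⟩ := fin_spec hb h1 hr
  exact ⟨_, ⟨rfl, rfl, z2, z3, ⟨a, z1, fun y ρ hz i => by simp only [hT, h2 y ρ hz]⟩,
    fun y ρ => hT y ρ ▸ h3 y ρ⟩, hr⟩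

omit [Cx P] in
theorem two_C1 {x y : En} (hb : 0 < b.nr) (hx : EOk P lim x) (hy : EOk P lim y) (dx : x.dv ∣ dv)
    (dy : y.dv ∣ dv)
    (hr : Is (bT b y.i (p2 y.i) 0 b.H x.t (bT b x.i (p2 x.i) b.H 0 y.t k) 0) r) :
    ∃ acc, Inv_C1 P b acc (x.b + y.b) dv (fun z ρ =>
      ((tev ρ (tz P x.t)).map fun v => (k3 v.1 v.2.1 y.i, sg3 (ZMod z.p) v.1 v.2.1 y.i * v.2.2)) ++
        (tev ρ (tz P y.t)).map fun v =>
          (k3 v.1 v.2.1 x.i, -(sg3 (ZMod z.p) v.1 v.2.1 x.i * v.2.2))) ∧ Is (k acc) r := by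
  have h0 : Inv_C1 P b 0 0 dv fun _ _ => [] :=
    ⟨⟨0, acu_zero P b dv, fun y ρ _ i => by simp [rv]⟩, fun y ρ _ _ h => by cases h⟩
  obtain ⟨a1, h1, hr⟩ := terms_C1 hb (.inl ⟨rfl, rfl, rfl⟩) (hx.1.mono le_rfl dx) hx.2.2 h0 hr
  obtain ⟨a2, h2, hr⟩ := terms_C1 hb (.inr ⟨rfl, rfl, rfl⟩) (hy.1.mono le_rfl dy) hy.2.2 h1 hr
  refine ⟨a2, ?_, hr⟩
  simpa only [zero_add, List.nil_append, Int.cast_one, one_mul, Int.cast_neg, neg_mul] using h2

end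

/-- One column. Keep the invariant `Acu` with the sum `rv` over the terms seen so far. -/
theorem col_spec {x : Pr} {k : Cl → Res} (hb : BOk P b) (hw : w < P.B ^ P.d)
    (hx : EOk P lim x.a) (hy : EOk P lim x.b) (h : Is (col P b (fxb P w) e x.a x.b k) r) :
    ∃ c, ColOk P b ⟨w, e⟩ c x ∧ Is (k c) r := by
  have hn := hb.2.1
  cases hf : fxb P w
  · rw [hf] at h
    obtain ⟨acc, h1, h⟩ := two_C1 (dv := lc x.a.dv x.b.dv) hn hx hy (Nat.dvd_lcm_left _ _)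
      (Nat.dvd_lcm_right _ _) h
    refine fin_C1 hb h1 (fun y ρ => ?_) h
    have : ¬ Fx (sy P y) (nd P ⟨w, e⟩).1 := fun h' => by
      rw [(fxb_iff hw y).2 h'] at hf
      cases hf
    simp only [colT, if_neg this, List.append_nil]
    rfl
  · rw [hf] at h
    have hL : P.L ≠ 1 := fun h' => by
      simp only [fxb, h'] at hf
      cases hf
    obtain ⟨acc, h1, h⟩ := two_C1 (dv := lc (lc (lc x.a.dv x.b.dv)
      (p2 ((epi P.L x.a.i + epi P.L x.b.i) % P.L))) (p2 e)) hn hx hy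
      (((Nat.dvd_lcm_left _ _).trans (Nat.dvd_lcm_left _ _)).trans (Nat.dvd_lcm_left _ _))
      (((Nat.dvd_lcm_right _ _).trans (Nat.dvd_lcm_left _ _)).trans (Nat.dvd_lcm_left _ _)) h
    obtain ⟨acc, h2, h⟩ := put2_C1 hn (.inl ⟨rfl, rfl, rfl⟩) hL h1
      ((Nat.dvd_lcm_right _ _).trans (Nat.dvd_lcm_left _ _)) (epi P.L x.a.i + epi P.L x.b.i)
      (Nat.mod_mod _ _) h
    obtain ⟨acc, h3, h⟩ := put2_C1 hn (.inr ⟨rfl, rfl, rfl⟩) hL h2 (Nat.dvd_lcm_right _ _) e rfl h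
    refine fin_C1 hb h3 (fun y ρ => ?_) h
    have : Fx (sy P y) (nd P ⟨w, e⟩).1 := (fxb_iff hw y).1 hf
    simp only [colT, if_pos this, Int.cast_one, one_mul, Int.cast_neg, neg_mul, List.append_assoc,
      List.singleton_append, pit_eq (L_pos P), epi_eq]
    rfl

omit [Cx P] in
theorem cols_C1 (fx : Bool) (x : Pr) (prs : List Pr)
    (k : List Cl → List Cl → List Pr → ℕ → Res) (pv fr : List Cl) (ol : List Pr) (c : ℕ) :
    cols P b fx w e (x :: prs) k pv fr ol c = ifb (x.w.beq w)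
      (sw (c % 4) (col P b fx e x.a x.b fun y => cols P b fx w e prs k (y :: pv) fr ol (c >>> 2))
        fun h => sw h
          (col P b fx e x.a x.b fun y => cols P b fx w e prs k pv (y :: fr) ol (c >>> 2))
          fun _ => cols P b fx w e prs k pv fr (x :: ol) (c >>> 2))
      (cols P b fx w e prs k pv fr ol c) := rfl

theorem gen_C1 {prs : List Pr} {k : List Cl → List Cl → List Pr → ℕ → Res} {c : ℕ}
    {pv₀ fr₀ : List Cl} {ol₀ ppv₀ pfr₀ : List Pr} (hb : BOk P b) (hw : w < P.B ^ P.d)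
    (hp : ∀ x ∈ prs, x.w = w → EOk P lim x.a ∧ EOk P lim x.b)
    (h1 : List.Forall₂ (ColOk P b ⟨w, e⟩) pv₀ ppv₀) (h2 : List.Forall₂ (ColOk P b ⟨w, e⟩) fr₀ pfr₀)
    (h : Is (cols P b (fxb P w) w e prs k pv₀ fr₀ ol₀ c) r) :
    ∃ pv fr ol ppv pfr c', ((prs.filter fun x => decide (x.w = w)) ++ (ppv₀ ++ pfr₀ ++ ol₀)).Perm
      (ppv ++ pfr ++ ol) ∧ List.Forall₂ (ColOk P b ⟨w, e⟩) pv ppv ∧
      List.Forall₂ (ColOk P b ⟨w, e⟩) fr pfr ∧ Is (k pv fr ol c') r := by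
  induction prs generalizing pv₀ fr₀ ol₀ ppv₀ pfr₀ c with
  | nil => exact ⟨_, _, _, _, _, _, .refl _, h1, h2, h⟩
  | cons x prs ih =>
    have hp' := fun z hz => hp z (List.mem_cons_of_mem _ hz)
    rw [cols_C1] at h
    rcases ifb_is h with ⟨c1, h⟩ | ⟨c1, h⟩
    · have e1 : x.w = w := Nat.eq_of_beq_eq_true c1
      obtain ⟨hx, hy⟩ := hp x List.mem_cons_self e1
      rw [List.filter_cons_of_pos (by simpa using e1), List.cons_append]
      rcases sw_is h with h | ⟨m, h⟩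
      · obtain ⟨y, hc, h⟩ := col_spec hb hw hx hy h
        obtain ⟨pv, fr, ol, ppv, pfr, c', p, h'⟩ := ih hp' (.cons hc h1) h2 h
        exact ⟨pv, fr, ol, ppv, pfr, c', List.perm_middle.symm.trans p, h'⟩
      rcases sw_is h with h | ⟨m, h⟩
      · obtain ⟨y, hc, h⟩ := col_spec hb hw hx hy h
        obtain ⟨pv, fr, ol, ppv, pfr, c', p, h'⟩ := ih hp' h1 (.cons hc h2) h
        exact ⟨pv, fr, ol, ppv, pfr, c', (List.perm_middle.symm.trans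
          ((List.perm_middle.append_right ol₀).symm.append_left _)).trans p, h'⟩
      · obtain ⟨pv, fr, ol, ppv, pfr, c', p, h'⟩ := ih hp' h1 h2 h
        exact ⟨pv, fr, ol, ppv, pfr, c', (List.perm_middle.symm.trans
          (List.perm_middle.symm.append_left _)).trans p, h'⟩
    · rw [List.filter_cons_of_neg (by simpa using Nat.ne_of_beq_eq_false c1)]
      exact ih hp' h1 h2 h

theorem cols_spec {prs : List Pr} {k : List Cl → List Cl → List Pr → ℕ → Res} {c : ℕ}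
    (hb : BOk P b) (hw : w < P.B ^ P.d)
    (hp : ∀ x ∈ prs, x.w = w → EOk P lim x.a ∧ EOk P lim x.b)
    (h : Is (cols P b (fxb P w) w e prs k [] [] [] c) r) :
    ∃ pv fr ol ppv pfr c', (prs.filter fun x => decide (x.w = w)).Perm (ppv ++ pfr ++ ol) ∧
      List.Forall₂ (ColOk P b ⟨w, e⟩) pv ppv ∧ List.Forall₂ (ColOk P b ⟨w, e⟩) fr pfr ∧
      Is (k pv fr ol c') r := by
  simpa only [List.append_nil] using gen_C1 hb hw hp .nil .nil h

end Pool.Agent.P.MP_8598be_al.Ck
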