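import Pool.Agent.P.MP_8598be_al.Ck.P5

/-!
The pivot phase.
-/

namespace Pool.Agent.P.MP_8598be_al.Ck

open Z K MvPolynomial

section

variable {F : Type} [Field F]

theorem tri_map_C2 (Φ : (ℕ → F) →ₗ[F] ℕ → F) {vs prev : List (ℕ → F)}
    (h : Tri (prev.map Φ) (vs.map Φ)) : Tri prev vs := by
  induction vs generalizing prev with
  | nil => trivial
  | cons v vs ih =>
    refine ⟨fun hv => h.1 ?_, ih h.2⟩
    refine Submodule.span_mono ?_ (Submodule.apply_mem_span_image_of_mem_span Φ hv)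
    rintro _ ⟨x, hx, rfl⟩
    exact List.mem_map_of_mem hx

theorem tri_snoc_C2 {v : ℕ → F} {vs prev : List (ℕ → F)} (h : Tri prev vs)
    (hv : v ∉ Submodule.span F {x | x ∈ prev ∨ x ∈ vs}) : Tri prev (vs ++ [v]) := by
  induction vs generalizing prev with
  | nil => exact ⟨by simpa using hv, trivial⟩
  | cons w vs ih =>
    refine ⟨h.1, ih h.2 ?_⟩
    simpa only [List.mem_cons, or_assoc, or_left_comm] using hv

/-- The values of a vector. -/
noncomputable def xv_C2 (ρ : Fin 6 → F) (A : Polynomial Rz) (i : ℕ) : F := ev ρ (A.coeff i)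

/-- The span of the finished pivots. -/
noncomputable def sp_C2 (ρ : Fin 6 → F) (ds : List (Dn × ℕ × Polynomial Rz)) :
    Submodule F (ℕ → F) := Submodule.span F {x | x ∈ ds.map fun d => xv_C2 ρ d.2.2}

/-- The finished pivots are in echelon form. -/
def Ec_C2 (ρ : Fin 6 → F) (ds : List (Dn × ℕ × Polynomial Rz)) : Prop :=
  ds.Pairwise (fun d e => xv_C2 ρ e.2.2 d.2.1 = 0) ∧ ∀ d ∈ ds, xv_C2 ρ d.2.2 d.2.1 ≠ 0

variable {ρ : Fin 6 → F} {d : Dn × ℕ × Polynomial Rz} {ds : List (Dn × ℕ × Polynomial Rz)}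

theorem sp_cons_C2 {v : ℕ → F} : v ∈ sp_C2 ρ (d :: ds) ↔
    ∃ c : F, ∃ z ∈ sp_C2 ρ ds, v = c • xv_C2 ρ d.2.2 + z := by
  rw [sp_C2, sp_C2, ← Submodule.mem_span_insert]
  simp only [List.map_cons, List.mem_cons]
  rfl

theorem sp_van_C2 {v : ℕ → F} {i : ℕ} (h : ∀ e ∈ ds, xv_C2 ρ e.2.2 i = 0) (hv : v ∈ sp_C2 ρ ds) :
    v i = 0 := by
  refine Submodule.span_le (p := LinearMap.ker (LinearMap.proj (R := F) i)).2 ?_ hv
  intro x hx
  obtain ⟨e, he, rfl⟩ := List.mem_map.1 hx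
  exact h e he

theorem Ec_C2.tail (h : Ec_C2 ρ (d :: ds)) : Ec_C2 ρ ds :=
  ⟨h.1.of_cons, fun e he => h.2 e (List.mem_cons_of_mem _ he)⟩

theorem Ec_C2.zero {v : ℕ → F} (h : Ec_C2 ρ ds) (hv : v ∈ sp_C2 ρ ds)
    (h0 : ∀ d ∈ ds, v d.2.1 = 0) : v = 0 := by
  induction ds with
  | nil => simpa [sp_C2] using hv
  | cons d ds ih =>
    obtain ⟨c, z, hz, rfl⟩ := sp_cons_C2.1 hv
    have h1 := h0 d List.mem_cons_self
    rw [Pi.add_apply, sp_van_C2 (List.pairwise_cons.1 h.1).1 hz, add_zero, Pi.smul_apply,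
      smul_eq_mul, mul_eq_zero] at h1
    obtain rfl := h1.resolve_right (h.2 d List.mem_cons_self)
    rw [zero_smul, zero_add] at h0 ih ⊢
    exact ih h.tail hz fun e he => h0 e (List.mem_cons_of_mem _ he)

theorem xv_op_C2 (α β : Rz) (A B : Polynomial Rz) :
    xv_C2 ρ (Polynomial.C α * A - Polynomial.C β * B) =
      ev ρ α • xv_C2 ρ A - ev ρ β • xv_C2 ρ B := by
  funext i
  simp [xv_C2, Polynomial.coeff_C_mul]

/-- A new pivot. -/
theorem new_C2 {vs : List (ℕ → F)} {v : ℕ → F} {a : F} (h : Ec_C2 ρ ds)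
    (h1 : ∀ w ∈ vs, w ∈ sp_C2 ρ ds) (h2 : Tri [] vs) (ha : a ≠ 0)
    (h3 : xv_C2 ρ d.2.2 - a • v ∈ sp_C2 ρ ds) (h4 : ∀ e ∈ ds, xv_C2 ρ d.2.2 e.2.1 = 0)
    (h5 : xv_C2 ρ d.2.2 d.2.1 ≠ 0) : Ec_C2 ρ (ds ++ [d]) ∧
      (∀ w ∈ vs ++ [v], w ∈ sp_C2 ρ (ds ++ [d])) ∧ Tri [] (vs ++ [v]) := by
  have h6 : sp_C2 ρ ds ≤ sp_C2 ρ (ds ++ [d]) := Submodule.span_mono fun x hx => by
    rw [List.map_append]
    exact List.mem_append_left _ hx
  refine ⟨⟨List.pairwise_append.2 ⟨h.1, List.pairwise_singleton _ _, fun e he e' he' => ?_⟩,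
    fun e he => ?_⟩, fun w hw => ?_, tri_snoc_C2 h2 fun hv => h5 ?_⟩
  · rw [List.mem_singleton.1 he']
    exact h4 e he
  · rcases List.mem_append.1 he with he | he
    · exact h.2 e he
    · rwa [List.mem_singleton.1 he]
  · rcases List.mem_append.1 hw with hw | hw
    · exact h6 (h1 w hw)
    · have h7 : xv_C2 ρ d.2.2 ∈ sp_C2 ρ (ds ++ [d]) := Submodule.subset_span (by simp)
      rw [List.mem_singleton.1 hw, ← Submodule.smul_mem_iff _ ha]
      simpa using Submodule.sub_mem _ h7 (h6 h3)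
  · have h7 : v ∈ sp_C2 ρ ds := Submodule.span_le.2 (fun w hw => h1 w (by simpa using hw)) hv
    have h8 := Submodule.add_mem _ h3 (Submodule.smul_mem _ a h7)
    rw [sub_add_cancel] at h8
    rw [h.zero h8 h4]
    rfl

end

/-- The rows are sums of coefficients, so independence of the rows gives independence. -/
theorem tri_of_rv {F : Type} [Field F] (b : Bn) {l : List (List (ℕ × F))}
    (h : Tri [] (l.map (rv b))) : Tri [] (l.map cv) := by
  let S : Finset ℕ := (l.flatten.map Prod.fst).toFinset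
  let Φ : (ℕ → F) →ₗ[F] ℕ → F := LinearMap.pi fun r =>
    ∑ k ∈ S, if row b k = r then LinearMap.proj k else 0
  have h1 : ∀ (t : List (ℕ × F)), (∀ x ∈ t, x.1 ∈ S) → Φ (cv t) = rv b t := by
    intro t ht
    induction t with
    | nil => exact map_zero Φ
    | cons x t ih =>
      have h2 : cv (x :: t) = Pi.single x.1 x.2 + cv t := funext fun k => by
        simp [cv, Pi.single_apply, eq_comm]
      rw [h2, map_add, ih fun y hy => ht y (List.mem_cons_of_mem _ hy)]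
      funext r
      simp only [Φ, rv, List.map_cons, List.sum_cons, Pi.add_apply, LinearMap.pi_apply,
        LinearMap.sum_apply]
      rw [Finset.sum_eq_single_of_mem x.1 (ht x List.mem_cons_self)]
      · split_ifs <;> simp
      · intro k _ hk
        split_ifs <;> simp [hk]
  refine tri_map_C2 Φ ?_
  rw [List.map_map, List.map_congr_left (f := Φ ∘ cv) (g := rv b) fun t ht => h1 t fun x hx =>
    List.mem_toFinset.2 (List.mem_map_of_mem (List.mem_flatten.2 ⟨t, ht, hx⟩))]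
  exact h

variable {P : Par} [Cx P] {r : Res}

/-- The data of a finished pivot. -/
def Dk_C2 (P : Par) (W : ℕ) (d : Dn × ℕ × Polynomial Rz) : Prop :=
  d.1.s = W * d.2.1 ∧ Dev P W d.1.x d.2.2 ∧ Den P d.1.u (d.2.2.coeff d.2.1)

omit [Cx P] in
theorem red_cons_C2 (g : Rg) (W dvm c : ℕ) (d : Dn) (dn : List Dn) (k : Po → ℕ → Res) (x : Po) :
    red P g W dvm (d :: dn) k x c = ifb ((ent W d.s x).p.beq (ent W d.s x).n)
      (red P g W dvm dn k x c) (sw (c % 4)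
        (nrm P (ent W d.s x) fun y => cop2 P dvm d.u x y d.x fun x' =>
          red P g W dvm dn k x' (c >>> 2))
        fun h => sw h
          (rdP P (c >>> 2) fun a c₁ => uc P g.lim g.G g.E a c₁ fun c₂ =>
            rdP P c₂ fun b c₃ => cop2 P dvm a x b d.x fun x' =>
              zc P g.lim g.G g.E (ent W d.s x') c₃ (red P g W dvm dn k x'))
          fun _ => zc P g.lim g.G g.E (ent W d.s x) (c >>> 2) (red P g W dvm dn k x)) := rfl

theorem step_C2 {g : Rg} {W dvm c : ℕ} {k : Po → ℕ → Res} {d : Dn × ℕ × Polynomial Rz}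
    {dn : List Dn} {x : Po} {A : Polynomial Rz} (hg : ROk P g) (hW : WOk P W dvm)
    (hd : Dk_C2 P W d) (hx : Dev P W x A) (hb : x.b < P.M) (hv : x.dv ∣ dvm)
    (h : Is (red P g W dvm (d.1 :: dn) k x c) r) :
    ∃ z Z c', Dev P W z Z ∧ z.b < P.M ∧ z.dv ∣ dvm ∧ (Al P g.G g.E fun y ρ =>
      xv_C2 ρ d.2.2 d.2.1 ≠ 0 → xv_C2 ρ Z d.2.1 = 0 ∧
        ∃ a b : ZMod y.p, a ≠ 0 ∧ xv_C2 ρ Z = a • xv_C2 ρ A - b • xv_C2 ρ d.2.2) ∧
      Is (red P g W dvm dn k z c') r := by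
  have hG : ∀ x ∈ g.G, Cn P x := fun x hx => (hg.G x hx).1
  have hE : ∀ x ∈ g.E, Cn P x := fun x hx => (hg.E x hx).1
  have he := dev_ent hW hx hb hv d.2.1
  rw [red_cons_C2, hd.1] at h
  rcases ifb_is h with ⟨h1, h⟩ | ⟨-, h⟩
  · refine ⟨x, A, c, hx, hb, hv, Al.of_forall fun y ρ _ _ => ⟨?_, 1, 0, one_ne_zero, by simp⟩, h⟩
    rw [xv_C2, he.vp_eq hb (hv.trans hW.1), vp, Nat.eq_of_beq_eq_true h1, vz_self, map_zero]
  rcases sw_is h with h | ⟨m, h⟩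
  · obtain ⟨y, h1, -, -, h⟩ := nrm_spec he hb h
    obtain ⟨z, h2, h3, h4, h⟩ := cop2_spec hW hd.2.2 hx h1 hd.2.1 h
    refine ⟨z, _, _, h2, h3, h4, Al.of_forall fun y ρ _ h5 => ⟨?_, _, _, h5, xv_op_C2 _ _ _ _⟩, h⟩
    rw [xv_op_C2]
    exact sub_eq_zero.2 (mul_comm _ _)
  rcases sw_is h with h | ⟨m, h⟩
  · obtain ⟨a, α, c₁, h1, h⟩ := rdP_spec h
    obtain ⟨c₂, h2, h⟩ := uc_spec hg.lim hG hE h1 h
    obtain ⟨b, β, c₃, h3, h⟩ := rdP_spec h
    obtain ⟨z, h4, h5, h6, h⟩ := cop2_spec hW h1 hx h3 hd.2.1 h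
    obtain ⟨c₄, h7, h⟩ := zc_spec hg.lim hG hE (dev_ent hW h4 h5 h6 d.2.1) h
    exact ⟨z, _, _, h4, h5, h6, (h2.and h7).mono fun y ρ _ h8 _ =>
      ⟨h8.2, _, _, h8.1, xv_op_C2 _ _ _ _⟩, h⟩
  · obtain ⟨c₁, h1, h⟩ := zc_spec hg.lim hG hE he h
    exact ⟨x, A, _, hx, hb, hv, h1.mono fun y ρ _ h2 _ => ⟨h2, 1, 0, one_ne_zero, by simp⟩, h⟩

theorem red_C2 {g : Rg} {W dvm c : ℕ} {k : Po → ℕ → Res} {ds : List (Dn × ℕ × Polynomial Rz)}
    {x : Po} {A : Polynomial Rz} (hg : ROk P g) (hW : WOk P W dvm)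
    (hd : ∀ d ∈ ds, Dk_C2 P W d) (hx : Dev P W x A) (hb : x.b < P.M) (hv : x.dv ∣ dvm)
    (h : Is (red P g W dvm (ds.map Prod.fst) k x c) r) :
    ∃ z Z c', Dev P W z Z ∧ z.b < P.M ∧ z.dv ∣ dvm ∧ (Al P g.G g.E fun y ρ => Ec_C2 ρ ds →
      (∀ d ∈ ds, xv_C2 ρ Z d.2.1 = 0) ∧
        ∃ a : ZMod y.p, a ≠ 0 ∧ xv_C2 ρ Z - a • xv_C2 ρ A ∈ sp_C2 ρ ds) ∧
      Is (k z c') r := by
  induction ds generalizing x A c with
  | nil =>
    exact ⟨x, A, c, hx, hb, hv, Al.of_forall fun y ρ _ _ => ⟨by simp, 1, one_ne_zero, by simp⟩, h⟩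
  | cons d ds ih =>
    obtain ⟨x', A', c₁, h1, h2, h3, h4, h⟩ := step_C2 hg hW (hd d List.mem_cons_self) hx hb hv h
    obtain ⟨z, Z, c₂, h5, h6, h7, h8, h⟩ :=
      ih (fun e he => hd e (List.mem_cons_of_mem _ he)) h1 h2 h3 h
    refine ⟨z, Z, c₂, h5, h6, h7, (h4.and h8).mono fun y ρ _ h9 hE => ?_, h⟩
    obtain ⟨e1, a, b, ha, e2⟩ := h9.1 (hE.2 d List.mem_cons_self)
    obtain ⟨e3, a', ha', e4⟩ := h9.2 hE.tail
    refine ⟨List.forall_mem_cons.2 ⟨?_, e3⟩, a' * a, mul_ne_zero ha' ha,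
      sp_cons_C2.2 ⟨-(a' * b), _, e4, ?_⟩⟩
    · simpa [e1] using sp_van_C2 (List.pairwise_cons.1 hE.1).1 e4
    · rw [e2]
      module

omit [Cx P] in
theorem pivs_succ_C2 (g : Rg) (W dvm n c : ℕ) (k : List Dn → ℕ → Res) (l : List Cl)
    (dn : List Dn) : pivs P g W dvm (n + 1) k l dn c = pick l (c % 64) fun y l' =>
      red P g W dvm dn (fun x c' => nrm P (ent W (W * (c' % 256)) x) fun u =>
        uc P g.lim g.G g.E u (c' >>> 8) fun c'' =>
          pivs P g W dvm n k l' (snoc dn ⟨W * (c' % 256), x, u, y⟩) c'') y.x (c >>> 6) := rfl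

theorem pivs_C2 {ι : Type} {R : Cl → ι → Prop} {V : ι → ∀ y : Pt P.L, y.V → ℕ → ZMod y.p}
    {g : Rg} {W dvm n c : ℕ} {k : List Dn → ℕ → Res} {l : List Cl} {ps qs : List ι}
    {ds : List (Dn × ℕ × Polynomial Rz)} (hg : ROk P g)
    (hW : WOk P W dvm) (hR : ∀ c i, R c i → c.x.b < P.M ∧ c.x.dv ∣ dvm ∧ DvF P W c.x (V i))
    (hl : List.Forall₂ R l ps) (hd : ∀ d ∈ ds, Dk_C2 P W d)
    (hq : List.Forall₂ R ((ds.map Prod.fst).map Dn.o) qs)
    (hI : Al P g.G g.E fun y ρ => Ec_C2 ρ ds ∧ (∀ w ∈ qs.map fun i => V i y ρ, w ∈ sp_C2 ρ ds) ∧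
      Tri [] (qs.map fun i => V i y ρ))
    (h : Is (pivs P g W dvm n k l (ds.map Prod.fst) c) r) :
    ∃ dn ps' c', (qs ++ ps).Perm ps' ∧ List.Forall₂ R (dn.map Dn.o) ps' ∧
      (Al P g.G g.E fun y ρ => Tri [] (ps'.map fun i => V i y ρ)) ∧ Is (k dn c') r := by
  induction n generalizing l ps qs ds c with
  | zero =>
    obtain ⟨h1, h⟩ := chk_is (c := nil l) h
    obtain rfl := nil_iff.1 h1
    cases hl
    exact ⟨_, qs, c, by simp, hq, hI.mono fun y ρ _ h2 => h2.2.2, h⟩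
  | succ n ih =>
    rw [pivs_succ_C2] at h
    obtain ⟨y, l', h1, h⟩ := pick_spec h
    obtain ⟨w, h2, h3⟩ := List.perm_comp_forall₂ h1.symm hl
    obtain ⟨i, ps', h4, h5, rfl⟩ := List.forall₂_cons_left_iff.1 h2
    obtain ⟨b1, b2, A, b3, b4⟩ := hR y i h4
    obtain ⟨z, Z, c₁, h6, h7, h8, h9, h⟩ := red_C2 hg hW hd b3 b1 b2 h
    obtain ⟨u, h10, -, -, h⟩ := nrm_spec (dev_ent hW h6 h7 h8 _) h7 h
    obtain ⟨c₂, h11, h⟩ := uc_spec hg.lim (fun x hx => (hg.G x hx).1)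
      (fun x hx => (hg.E x hx).1) h10 h
    rw [snoc_eq] at h
    obtain ⟨dn, ps'', c', h12, h13⟩ := ih (qs := qs ++ [i])
      (ds := ds ++ [(⟨W * (c₁ % 256), z, u, y⟩, c₁ % 256, Z)]) (c := c₂) h5
      (List.forall_mem_append.2 ⟨hd, List.forall_mem_singleton.2 ⟨rfl, h6, h10⟩⟩)
      (by
        rw [List.map_append, List.map_append]
        exact List.rel_append hq (List.Forall₂.cons h4 List.Forall₂.nil))
      (((hI.and h9).and h11).mono fun y ρ hρ ⟨⟨e1, e2⟩, e3⟩ => by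
        obtain ⟨e4, a, ha, e5⟩ := e2 e1.1
        rw [show xv_C2 ρ A = V i y ρ from funext (b4 y ρ hρ.1)] at e5
        rw [List.map_append]
        exact new_C2 e1.1 e1.2.1 e1.2.2 ha e5 e4 e3)
      (by rwa [List.map_append])
    refine ⟨dn, ps'', c', List.Perm.trans ?_ h12, h13⟩
    rw [List.append_assoc]
    exact h3.symm.append_left _

/-- Invariant for a finished pivot `d`: its vector is a unit times the vector of its column plus a
combination of the earlier vectors, it vanishes in the rows of the earlier pivots, and its entry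
`d.u` in the row of `d` is a unit. -/
theorem pivs_spec {ι : Type} {R : Cl → ι → Prop} {V : ι → ∀ y : Pt P.L, y.V → ℕ → ZMod y.p}
    {g : Rg} {W dvm n c : ℕ} {k : List Dn → ℕ → Res} {l : List Cl} {ps : List ι} (hg : ROk P g)
    (hW : WOk P W dvm) (hR : ∀ c i, R c i → c.x.b < P.M ∧ c.x.dv ∣ dvm ∧ DvF P W c.x (V i))
    (hl : List.Forall₂ R l ps) (h : Is (pivs P g W dvm n k l [] c) r) :
    ∃ dn ps' c', ps.Perm ps' ∧ List.Forall₂ R (dn.map Dn.o) ps' ∧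
      (Al P g.G g.E fun y ρ => Tri [] (ps'.map fun i => V i y ρ)) ∧ Is (k dn c') r :=
  pivs_C2 (qs := []) (ds := []) hg hW hR hl (by simp) List.Forall₂.nil
    (Al.of_forall fun _ _ _ => ⟨⟨List.Pairwise.nil, by simp⟩, by simp, trivial⟩) h

end Pool.Agent.P.MP_8598be_al.Ck
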