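import Pool.Agent.P.MP_8598be_al.Ck.Defs

/-!
Lists.
-/

namespace Pool.Agent.P.MP_8598be_al.Ck

open Z K MvPolynomial

variable {α : Type} {r : Res}

theorem nth_eq (x : α) (l : List α) (n : ℕ) : nth x l n = l.getD n x := by
  induction l generalizing n with
  | nil => rfl
  | cons a t ih =>
    cases n with
    | zero => rfl
    | succ n => exact ih n

theorem pick_spec {l : List α} {n : ℕ} {k : α → List α → Res} (h : Is (pick l n k) r) :
    ∃ x t, l.Perm (x :: t) ∧ Is (k x t) r := by
  induction l generalizing n k with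
  | nil => exact (not_is_no h).elim
  | cons a t ih =>
    cases n with
    | zero => exact ⟨a, t, .refl _, h⟩
    | succ n =>
      obtain ⟨x, t', h1, h2⟩ := ih (n := n) (k := fun x r => k x (a :: r)) h
      exact ⟨x, a :: t', (h1.cons a).trans (.swap x a t'), h2⟩

theorem snoc_eq (l : List α) (x : α) : snoc l x = l ++ [x] := by
  induction l with
  | nil => rfl
  | cons a t ih => exact congrArg (a :: ·) ih

theorem nil_iff {l : List α} : nil l = true ↔ l = [] := by
  cases l with
  | nil => exact ⟨fun _ => rfl, fun _ => rfl⟩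
  | cons a t => exact ⟨fun h => absurd h Bool.false_ne_true, fun h => absurd h (List.cons_ne_nil a t)⟩

theorem len_eq (l : List α) : len l = l.length := by
  induction l with
  | nil => rfl
  | cons a t ih => exact congrArg (· + 1) ih

theorem rva_eq (l t : List α) : rva l t = l.reverse ++ t := by
  induction l generalizing t with
  | nil => rfl
  | cons a l ih => exact (ih (a :: t)).trans (by simp)

theorem insK_spec_L0 {f : α → ℕ} {x : α} {l : List α} {k : List α → Res}
    (h : Is (insK f x l k) r) : ∃ t, t.Perm (x :: l) ∧ Is (k t) r := by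
  induction l generalizing k with
  | nil => exact ⟨[x], .refl _, h⟩
  | cons a l ih =>
    rcases ifb_is h with ⟨-, h⟩ | ⟨-, h⟩
    · exact ⟨_, .refl _, h⟩
    · obtain ⟨t, h1, h2⟩ := ih (k := fun r => k (a :: r)) h
      exact ⟨a :: t, (h1.cons a).trans (.swap x a l), h2⟩

theorem ins_perm_L0 (f : α → ℕ) (x : α) (l : List α) : (ins f x l).Perm (x :: l) := by
  induction l with
  | nil => exact .refl _
  | cons a l ih =>
    change (ifb ((f x).ble (f a)) (x :: a :: l) (a :: ins f x l)).Perm _
    cases (f x).ble (f a)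
    · exact (ih.cons a).trans (.swap x a l)
    · exact .refl _

theorem and_L0 {c x : Bool} (h : ifb c x false = true) : c = true ∧ x = true := by
  cases c
  · exact absurd h Bool.false_ne_true
  · exact ⟨rfl, h⟩

theorem srtK_spec {f : α → ℕ} {l t : List α} {k : List α → Res} (h : Is (srtK f l k t) r) :
    ∃ t', t'.Perm (l ++ t) ∧ Is (k t') r := by
  induction l generalizing t with
  | nil => exact ⟨t, .refl _, h⟩
  | cons a l ih =>
    obtain ⟨t₁, h1, h2⟩ := insK_spec_L0 (f := f) (x := a) (l := t) (k := srtK f l k) h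
    obtain ⟨t₂, h3, h4⟩ := ih h2
    exact ⟨t₂, h3.trans ((h1.append_left l).trans List.perm_middle), h4⟩

theorem srt_perm (f : α → ℕ) (l : List α) : (srt f l).Perm l := by
  induction l with
  | nil => exact .refl _
  | cons a l ih => exact (ins_perm_L0 f a _).trans (ih.cons a)

theorem eqL_spec {e : α → α → Bool} {l l' : List α} (h : eqL e l l' = true) :
    List.Forall₂ (fun x y => e x y = true) l l' := by
  induction l generalizing l' with
  | nil =>
    obtain rfl := nil_iff.1 h
    exact .nil
  | cons a l ih =>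
    cases l' with
    | nil => exact absurd h Bool.false_ne_true
    | cons b t => exact .cons (and_L0 h).1 (ih (and_L0 h).2)

theorem eqL_eq {e : α → α → Bool} (he : ∀ x y, e x y = true → x = y) {l l' : List α}
    (h : eqL e l l' = true) : l = l' := by
  have := (eqL_spec h).imp he
  rwa [List.forall₂_eq_eq_eq] at this

theorem eqT_eq {x y : Tm} (h : eqT x y = true) : x = y := by
  cases x
  cases y
  obtain ⟨h1, h⟩ := and_L0 h
  obtain ⟨h2, h⟩ := and_L0 h
  obtain ⟨h3, h4⟩ := and_L0 h
  rw [Tm.mk.injEq]
  exact ⟨Nat.eq_of_beq_eq_true h1, Nat.eq_of_beq_eq_true h2, Nat.eq_of_beq_eq_true h3,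
    Nat.eq_of_beq_eq_true h4⟩

theorem eqO_eq {x y : Out} (h : eqO x y = true) : x = y := by
  cases x
  cases y
  obtain ⟨h1, h⟩ := and_L0 h
  obtain ⟨h2, h⟩ := and_L0 h
  obtain ⟨h3, h4⟩ := and_L0 h
  rw [Out.mk.injEq]
  exact ⟨eqL_eq (fun _ _ => Nat.eq_of_beq_eq_true) h1, eqL_eq (fun _ _ => Nat.eq_of_beq_eq_true) h2,
    Nat.eq_of_beq_eq_true h3, Nat.eq_of_beq_eq_true h4⟩

theorem eqN_eq {x y : Nd} (h : eqN x y = true) : x = y := by
  cases x
  cases y
  obtain ⟨h1, h2⟩ := and_L0 h
  rw [Nd.mk.injEq]
  exact ⟨Nat.eq_of_beq_eq_true h1, Nat.eq_of_beq_eq_true h2⟩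

theorem fls_eq (l : List Po) (k : List Po → Res) : fls l k = k l := by
  induction l generalizing k with
  | nil => rfl
  | cons x l ih => exact ih fun r => k (x :: r)

theorem wts_eq_L0 (l : List En) (t : List ℕ) : wts l t = l.map En.w ++ t := by
  induction l with
  | nil => rfl
  | cons x l ih => exact congrArg (x.w :: ·) ih

theorem wtsL_eq_L0 (l : List (List En)) (t : List ℕ) : wtsL l t = l.flatten.map En.w ++ t := by
  induction l with
  | nil => rfl
  | cons x l ih =>
    change wts x (wtsL l t) = _
    rw [wts_eq_L0, ih, List.flatten_cons, List.map_append, List.append_assoc]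

theorem wtsS_eq (s : St) (t : List ℕ) : wtsS s t = (ents s).map En.w ++ t := by
  rw [wtsS, wtsL_eq_L0, wts_eq_L0, wtsL_eq_L0, ents]
  simp only [List.map_append, List.append_assoc]

theorem dropN_spec (l : List (List En)) :
    ∃ n, l = List.replicate n [] ++ dropN l := by
  induction l with
  | nil => exact ⟨0, rfl⟩
  | cons x l ih =>
    cases x with
    | nil =>
      obtain ⟨n, h⟩ := ih
      exact ⟨n + 1, congrArg ([] :: ·) h⟩
    | cons a x => exact ⟨0, rfl⟩

/-- Dropping elements. -/
noncomputable def drp_L0 (n : ℕ) : List Fc → List Fc :=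
  Nat.rec (motive := fun _ => List Fc → List Fc) (fun l => l)
    (fun _ ih l => ih (List.rec [] (fun _ t _ => t) l)) n

theorem drp_eq_L0 (n : ℕ) (l : List Fc) : drp_L0 n l = l.drop n := by
  induction n generalizing l with
  | zero => rfl
  | succ n ih =>
    cases l with
    | nil => exact (ih []).trans (by simp)
    | cons a l => exact ih l

theorem look_spec {FT : List (List Fc)} {rk c : ℕ} {k : Fc → ℕ → Res} (h : Is (look FT rk c k) r) :
    ∃ f c', c % 16384 < rk ∧ fct FT (c % 16384) = some f ∧ Is (k f c') r := by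
  obtain ⟨h1, h⟩ := chk_is h
  change Is (List.rec (motive := fun _ => Res) Res.no (fun f _ _ => k f (c >>> 14))
    (drp_L0 (c % 128) (nth [] FT (c % 16384 / 128)))) r at h
  rw [drp_eq_L0, nth_eq] at h
  have e : fct FT (c % 16384) = ((FT.getD (c % 16384 / 128) []).drop (c % 128)).head? := by
    rw [fct, List.head?_drop, Nat.mod_mod_of_dvd c (by norm_num)]
  generalize (FT.getD (c % 16384 / 128) []).drop (c % 128) = l at h e
  cases l with
  | nil => exact (not_is_no h).elim
  | cons f l => exact ⟨f, _, Nat.le_of_ble_eq_true h1, e, h⟩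

theorem fout_eq (n : ℕ) (l t : List Out) :
    fout n l t = (l.filter fun o => decide (o.ty.length ≤ n)) ++ t := by
  induction l with
  | nil => rfl
  | cons o l ih =>
    change ifb ((len o.ty).ble n) (o :: fout n l t) (fout n l t) = _
    rw [ifb_eq, ih, len_eq, List.filter_cons]
    by_cases h : o.ty.length ≤ n <;> simp [h]

theorem allD_spec {lim : ℕ} {l : List Po} (h : allD lim l = true) : ∀ x ∈ l, x.dv ∣ lim := by
  induction l with
  | nil => exact fun x hx => absurd hx List.not_mem_nil
  | cons a l ih =>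
    obtain ⟨h1, h2⟩ := and_L0 h
    exact List.forall_mem_cons.2 ⟨Nat.dvd_of_mod_eq_zero (Nat.eq_of_beq_eq_true h1), ih h2⟩

theorem hasW_iff {w : ℕ} {l : List En} : hasW w l = true ↔ ∃ x ∈ l, x.w = w := by
  induction l with
  | nil => simp [hasW]
  | cons a l ih =>
    change ifb (a.w.beq w) true (hasW w l) = true ↔ _
    rw [ifb_eq]
    by_cases h : a.w = w <;> simp [h, ih]

theorem allF_spec {P : Par} {l : List Nd} (h : allF P l = true) : ∀ x ∈ l, fxb P x.w = false := by
  induction l with
  | nil => exact fun x hx => absurd hx List.not_mem_nil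
  | cons a l ih =>
    change ifb (fxb P a.w) false (allF P l) = true at h
    refine List.forall_mem_cons.2 ?_
    cases e : fxb P a.w <;> rw [e] at h
    · exact ⟨rfl, ih h⟩
    · exact absurd h Bool.false_ne_true

theorem nz_spec {P : Par} {i : ℕ} (h : nz P i = true) : P.L ≠ 1 → i ≠ 0 := by
  intro h1 h2
  change ifb (P.L.beq 1) true (Nat.ble 1 i) = true at h
  rw [ifb_eq, if_neg fun e => h1 (Nat.eq_of_beq_eq_true e), h2] at h
  exact absurd h Bool.false_ne_true

end Pool.Agent.P.MP_8598be_al.Ck
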