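import Pool.Agent.P.MP_8598be_al.Ck.P1
import Pool.Agent.P.MP_8598be_al.Ck.L0
import Pool.Agent.P.MP_8598be_al.K.Sem

/-!
Relations between coproducts and between frames.
-/

namespace Pool.Agent.P.MP_8598be_al.Ck

open Z K MvPolynomial

section

variable {F X : Type} [Field F] {c c' : F} {t t' t'' : Tms F} {fr fr' fr'' : List (EnF F X)}

theorem trel_refl (t : Tms F) : TRel 1 t t := by
  exact ⟨fun a b => (one_mul _).symm, fun x hx => ⟨x, hx, .inl ⟨rfl, rfl⟩⟩⟩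

theorem trel_trans (h : TRel c t t') (h' : TRel c' t' t'') : TRel (c' * c) t t'' := by
  refine ⟨fun a b => by rw [h'.1, h.1, mul_assoc], fun x hx => ?_⟩
  obtain ⟨y, hy, e⟩ := h'.2 x hx
  obtain ⟨z, hz, e'⟩ := h.2 y hy
  refine ⟨z, hz, ?_⟩
  rcases e with ⟨e1, e2⟩ | ⟨e1, e2⟩ <;> rcases e' with ⟨e3, e4⟩ | ⟨e3, e4⟩
  · exact .inl ⟨e1.trans e3, e2.trans e4⟩
  · exact .inr ⟨e1.trans e3, e2.trans e4⟩
  · exact .inr ⟨e1.trans e4, e2.trans e3⟩
  · exact .inl ⟨e1.trans e4, e2.trans e3⟩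

theorem trel_perm (p : t.Perm t') : TRel 1 t t' := by
  refine ⟨fun a b => ?_, fun x hx => ⟨x, p.symm.subset hx, .inl ⟨rfl, rfl⟩⟩⟩
  rw [one_mul]
  exact ((p.map _).sum_eq).symm

theorem trel_cons (h : TRel c t t') (a b : ℕ) {v v' : F} (e : v' = c * v) :
    TRel c ((a, b, v) :: t) ((a, b, v') :: t') := by
  refine ⟨fun i j => ?_, fun x hx => ?_⟩
  · rw [co_cons, co_cons, h.1, e]
    dsimp only
    split_ifs <;> ring
  · rcases List.mem_cons.1 hx with rfl | hx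
    · exact ⟨_, List.mem_cons_self, .inl ⟨rfl, rfl⟩⟩
    · obtain ⟨y, hy, e⟩ := h.2 x hx
      exact ⟨y, List.mem_cons_of_mem _ hy, e⟩

theorem trel_drop (h : TRel c t t') {a b : ℕ} {v : F} (e : a = b ∨ c * v = 0) :
    TRel c ((a, b, v) :: t) t' := by
  refine ⟨fun i j => ?_, fun x hx => ?_⟩
  · rw [co_cons, h.1, mul_add, eq_comm, add_eq_right]
    dsimp only
    rcases e with rfl | e
    · simp only [and_comm (a := a = j), sub_self, mul_zero]
    · split_ifs <;> simp [e]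
  · obtain ⟨y, hy, e⟩ := h.2 x hx
    exact ⟨y, List.mem_cons_of_mem _ hy, e⟩

theorem co_append_T1 (t u : Tms F) (a b : ℕ) : co (t ++ u) a b = co t a b + co u a b := by
  rw [co, List.map_append, List.sum_append]
  rfl

theorem trel_append {u u' : Tms F} (h : TRel c t t') (h' : TRel c u u') :
    TRel c (t ++ u) (t' ++ u') := by
  refine ⟨fun a b => by rw [co_append_T1, co_append_T1, h.1, h'.1, mul_add], fun x hx => ?_⟩
  rcases List.mem_append.1 hx with hx | hx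
  · obtain ⟨y, hy, e⟩ := h.2 x hx
    exact ⟨y, List.mem_append_left _ hy, e⟩
  · obtain ⟨y, hy, e⟩ := h'.2 x hx
    exact ⟨y, List.mem_append_right _ hy, e⟩

theorem co_map_T1 {f : ℕ → ℕ} (hf : Function.Injective f) {g : ℕ → ℕ → F}
    (hg : ∀ a b, g a b = g b a) (t : Tms F) (a b : ℕ) :
    co (t.map fun x => (f x.1, f x.2.1, g x.1 x.2.1 * x.2.2)) (f a) (f b) = g a b * co t a b := by
  induction t with
  | nil => exact (mul_zero _).symm
  | cons x t ih =>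
    rw [List.map_cons, co_cons, co_cons, ih, mul_add, mul_sub]
    simp only [hf.eq_iff]
    congr 2
    · split_ifs with e
      · rw [e.1, e.2]
      · exact (mul_zero _).symm
    · split_ifs with e
      · rw [e.1, e.2, hg]
      · exact (mul_zero _).symm

theorem co_off_T1 {f : ℕ → ℕ} {g : ℕ → ℕ → F} {a b : ℕ}
    (h : ¬ ((∃ a', f a' = a) ∧ ∃ b', f b' = b)) :
    co (t.map fun x => (f x.1, f x.2.1, g x.1 x.2.1 * x.2.2)) a b = 0 :=
  co_eq_zero fun x hx => by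
    obtain ⟨y, -, rfl⟩ := List.mem_map.1 hx
    exact ⟨fun e => h ⟨⟨_, e.1⟩, _, e.2⟩, fun e => h ⟨⟨_, e.2⟩, _, e.1⟩⟩

/-- Transport along an injective map of indices with a symmetric factor. -/
theorem trel_map (h : TRel c t t') {f : ℕ → ℕ} (hf : Function.Injective f) {g : ℕ → ℕ → F}
    (hg : ∀ a b, g a b = g b a) :
    TRel c (t.map fun x => (f x.1, f x.2.1, g x.1 x.2.1 * x.2.2))
      (t'.map fun x => (f x.1, f x.2.1, g x.1 x.2.1 * x.2.2)) := by
  refine ⟨fun a b => ?_, fun x hx => ?_⟩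
  · by_cases hab : (∃ a', f a' = a) ∧ ∃ b', f b' = b
    · obtain ⟨⟨a, rfl⟩, b, rfl⟩ := hab
      rw [co_map_T1 hf hg, co_map_T1 hf hg, h.1, mul_left_comm]
    · rw [co_off_T1 hab, co_off_T1 hab, mul_zero]
  · obtain ⟨z, hz, rfl⟩ := List.mem_map.1 hx
    obtain ⟨y, hy, e⟩ := h.2 z hz
    refine ⟨_, List.mem_map_of_mem hy, ?_⟩
    rcases e with ⟨e1, e2⟩ | ⟨e1, e2⟩
    · exact .inl ⟨congrArg f e1, congrArg f e2⟩
    · exact .inr ⟨congrArg f e1, congrArg f e2⟩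

theorem trel_swap_T1 (t : Tms F) (a b : ℕ) (v : F) : TRel 1 ((a, b, v) :: t) ((b, a, -v) :: t) := by
  refine ⟨fun i j => ?_, fun x hx => ?_⟩
  · rw [co_cons, co_cons, one_mul]
    dsimp only
    simp only [and_comm (a := b = i), and_comm (a := b = j)]
    split_ifs <;> ring
  · rcases List.mem_cons.1 hx with rfl | hx
    · exact ⟨_, List.mem_cons_self, .inr ⟨rfl, rfl⟩⟩
    · exact ⟨x, List.mem_cons_of_mem _ hx, .inl ⟨rfl, rfl⟩⟩

theorem frel_perm (p : fr.Perm fr') : FRel 1 fr fr' := by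
  exact ⟨fr, List.forall₂_same.2 fun a _ => ⟨rfl, rfl, trel_refl _⟩, p⟩

theorem frel_trans (h : FRel c fr fr') (h' : FRel c' fr' fr'') : FRel (c' * c) fr fr'' := by
  obtain ⟨g, h1, p1⟩ := h
  obtain ⟨g', h2, p2⟩ := h'
  obtain ⟨g'', h3, p3⟩ := List.perm_comp_forall₂ p1 h2
  refine ⟨g'', ?_, p3.trans p2⟩
  clear p1 p2 p3 h2
  induction h1 generalizing g'' with
  | nil =>
    cases h3
    exact .nil
  | cons e _ ih =>
    cases h3 with
    | cons e' h3 =>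
      exact .cons ⟨e'.1.trans e.1, e'.2.1.trans e.2.1, trel_trans e.2.2 e'.2.2⟩ (ih _ h3)

theorem frel_append {g g' : List (EnF F X)} (h : FRel c fr fr') (h' : FRel c g g') :
    FRel c (fr ++ g) (fr' ++ g') := by
  obtain ⟨u, h1, p1⟩ := h
  obtain ⟨u', h2, p2⟩ := h'
  exact ⟨u ++ u', List.rel_append h1 h2, p1.append p2⟩

theorem frel_cons (h : FRel c fr fr') {a b : EnF F X} (hi : b.i = a.i) (hw : b.w = a.w)
    (ht : TRel c a.t b.t) : FRel c (a :: fr) (b :: fr') := by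
  obtain ⟨u, h1, p1⟩ := h
  exact ⟨b :: u, .cons ⟨hi, hw, ht⟩ h1, p1.cons b⟩

end

variable {P : Par} {r : Res}

/-- An oriented term is added. -/
theorem mkT_spec {i j p n b b₁ dv : ℕ} {a : Rz} {t : List Tm} {l : Tms Rz} {k : List Tm → Res}
    (hx : Den P ⟨p, n, b₁, dv⟩ a) (ht : TD P dv b t l) (ho : Ori t) (h : Is (mkT i j p n t k) r) :
    ∃ t' l', TD P dv (b + b₁) t' l' ∧ Ori t' ∧
      (∀ (F : Type) [Field F] (ρ : Fin 6 → F), TRel 1 ((i, j, ev ρ a) :: tev ρ l) (tev ρ l')) ∧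
      Is (k t') r := by
  change Is (ifb (i.beq j) (k t) (ifb (i.ble j) (k (⟨i, j, p, n⟩ :: t))
    (k (⟨j, i, n, p⟩ :: t)))) r at h
  rcases ifb_is h with ⟨e, h⟩ | ⟨e, h⟩
  · exact ⟨t, l, ht.mono (Nat.le_add_right _ _) dvd_rfl, ho,
      fun F _ ρ => trel_drop (trel_refl _) (.inl (Nat.eq_of_beq_eq_true e)), h⟩
  have hne : i ≠ j := Nat.ne_of_beq_eq_false e
  rcases ifb_is h with ⟨e', h⟩ | ⟨e', h⟩
  · refine ⟨⟨i, j, p, n⟩ :: t, (i, j, a) :: l,
      TD.cons (x := ⟨i, j, p, n⟩) hx ht (Nat.add_comm _ _).le, fun x hx => ?_,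
      fun F _ ρ => trel_refl _, h⟩
    rcases List.mem_cons.1 hx with rfl | hx
    · exact lt_of_le_of_ne (Nat.le_of_ble_eq_true e') hne
    · exact ho x hx
  · refine ⟨⟨j, i, n, p⟩ :: t, (j, i, -a) :: l,
      TD.cons (x := ⟨j, i, n, p⟩) hx.neg ht (Nat.add_comm _ _).le, fun x hx => ?_,
      fun F _ ρ => ?_, h⟩
    · rcases List.mem_cons.1 hx with rfl | hx
      · exact Nat.lt_of_not_le fun h' => by
          rw [Nat.ble_eq_true_of_le h'] at e'
          cases e'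
      · exact ho x hx
    · change TRel 1 _ ((j, i, ev ρ (-a)) :: tev ρ l)
      rw [map_neg]
      exact trel_swap_T1 _ _ _ _

theorem srtT_spec {t : List Tm} {k : List Tm → Res} (h : Is (srtT t k) r) :
    ∃ t', t.Perm t' ∧ Is (k t') r := by
  obtain ⟨t', h1, h2⟩ := srtK_spec h
  rw [List.append_nil] at h1
  exact ⟨t', h1.symm, h2⟩

theorem and_T1 (a b c d : ℕ) : ifb (a.beq b) (c.beq d) false = true ↔ a = b ∧ c = d := by
  rw [ifb_eq]
  by_cases e : a = b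
  · rw [if_pos (Nat.beq_eq.mpr e), Nat.beq_eq]
    exact ⟨fun h => ⟨e, h⟩, fun h => h.2⟩
  · rw [if_neg fun h => e (Nat.beq_eq.mp h)]
    exact ⟨fun h => absurd h Bool.false_ne_true, fun h => absurd h.1 e⟩

theorem cof_aux_T1 {i j b dv : ℕ} {t : List Tm} {l : Tms Rz} {k : ℕ → ℕ → Res}
    (ht : TD P dv b t l) (ho : Ori t) {p₀ n₀ b₀ : ℕ} {a₀ : Rz} (h0 : Den P ⟨p₀, n₀, b₀, dv⟩ a₀)
    (h : Is (cof i j t k p₀ n₀) r) : ∃ p n a, Den P ⟨p, n, b₀ + b, dv⟩ a ∧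
      (∀ (F : Type) [Field F] (ρ : Fin 6 → F), ev ρ a = ev ρ a₀ + co (tev ρ l) i j) ∧
      Is (k p n) r := by
  induction ht generalizing p₀ n₀ b₀ a₀ with
  | nil b =>
    exact ⟨p₀, n₀, a₀, h0.mono rfl rfl (Nat.le_add_right _ _) dvd_rfl,
      fun F _ ρ => (add_zero _).symm, h⟩
  | @cons b b₁ b₂ x a t l hx ht hb ih =>
    have ho' : Ori t := fun y hy => ho y (List.mem_cons_of_mem _ hy)
    have hlt : x.j < x.l := ho x List.mem_cons_self
    have hc : ∀ (F : Type) [Field F] (ρ : Fin 6 → F), co (tev ρ ((x.j, x.l, a) :: l)) i j =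
        ((if x.j = i ∧ x.l = j then ev ρ a else 0) - if x.j = j ∧ x.l = i then ev ρ a else 0) +
          co (tev ρ l) i j := fun F _ ρ => rfl
    have hd : lc dv dv ∣ dv := by rw [lc_eq, Nat.lcm_self]
    change Is (ifb (ifb (x.j.beq i) (x.l.beq j) false) (cof i j t k (p₀ + x.p) (n₀ + x.n))
      (ifb (ifb (x.j.beq j) (x.l.beq i) false) (cof i j t k (p₀ + x.n) (n₀ + x.p))
        (cof i j t k p₀ n₀))) r at h
    rcases ifb_is h with ⟨e, h⟩ | ⟨e, h⟩
    · rw [and_T1] at e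
      obtain ⟨p, n, a', h1, h2, h3⟩ := ih ho' (b₀ := b₀ + b₁)
        ((h0.add hx).mono rfl rfl le_rfl hd) h
      refine ⟨p, n, a', h1.mono rfl rfl (by dsimp only; omega) dvd_rfl, fun F _ ρ => ?_, h3⟩
      rw [h2, hc, if_pos e, if_neg (by omega), map_add]
      ring
    have e1 : ¬ (x.j = i ∧ x.l = j) := fun e' => by
      rw [(and_T1 _ _ _ _).2 e'] at e
      cases e
    rcases ifb_is h with ⟨e', h⟩ | ⟨e', h⟩
    · rw [and_T1] at e'
      obtain ⟨p, n, a', h1, h2, h3⟩ := ih ho' (b₀ := b₀ + b₁)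
        ((h0.sub hx).mono rfl rfl le_rfl hd) h
      refine ⟨p, n, a', h1.mono rfl rfl (by dsimp only; omega) dvd_rfl, fun F _ ρ => ?_, h3⟩
      rw [h2, hc, if_neg e1, if_pos e', map_sub]
      ring
    · have e2 : ¬ (x.j = j ∧ x.l = i) := fun e'' => by
        rw [(and_T1 _ _ _ _).2 e''] at e'
        cases e'
      obtain ⟨p, n, a', h1, h2, h3⟩ := ih ho' h0 h
      refine ⟨p, n, a', h1.mono rfl rfl (by dsimp only; omega) dvd_rfl, fun F _ ρ => ?_, h3⟩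
      rw [h2, hc, if_neg e1, if_neg e2]
      ring

/-- The coefficient of a coproduct. -/
theorem cof_spec {i j b dv : ℕ} {t : List Tm} {l : Tms Rz} {k : ℕ → ℕ → Res} (ht : TD P dv b t l)
    (ho : Ori t) (h : Is (cof i j t k 0 0) r) : ∃ p n a, Den P ⟨p, n, b, dv⟩ a ∧
      (∀ (F : Type) [Field F] (ρ : Fin 6 → F), ev ρ a = co (tev ρ l) i j) ∧ Is (k p n) r := by
  obtain ⟨p, n, a, h1, h2, h3⟩ := cof_aux_T1 (b₀ := 0) ht ho
    ((den_zero P).mono rfl rfl le_rfl (one_dvd _)) h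
  rw [Nat.zero_add] at h1
  exact ⟨p, n, a, h1, fun F _ ρ => by rw [h2, map_zero, zero_add], h3⟩

end Pool.Agent.P.MP_8598be_al.Ck
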