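import Pool.Agent.P.MP_8598be_al.Ck.P5
import Pool.Agent.P.MP_8598be_al.Ck.T1

/-!
New coproducts and old entries.
-/

namespace Pool.Agent.P.MP_8598be_al.Ck

open Z K MvPolynomial

/-- The value in the row of a key, if the row belongs to this key. -/
def sel {F : Type} [Field F] (b : Bn) (κ : ℕ) (f : ℕ → F) : F :=
  if (b.T2 >>> (b.kw * row b κ)) % 2 ^ b.kw = κ then f (row b κ) else 0

theorem cv_sel {F : Type} [Field F] {b : Bn} {l : List (ℕ × F)} (hz : b.z = 1) (h : KyOk b l)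
    (κ : ℕ) : cv l κ = sel b κ (rv b l) := by
  have h1 := h hz
  clear h
  induction l with
  | nil => simp [cv, sel, rv]
  | cons x l ih =>
    have h2 := ih fun z hz' => h1 z (List.mem_cons_of_mem _ hz')
    have h3 := h1 x List.mem_cons_self
    simp only [cv, sel, rv, List.map_cons, List.sum_cons] at h2 ⊢
    rw [h2]
    by_cases e : x.2 = 0
    · simp [e]
    · by_cases e' : x.1 = κ
      · subst e'
        rw [if_pos rfl, if_pos (h3 e), if_pos (h3 e), if_pos rfl]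
      · rw [if_neg e', zero_add]
        split_ifs with h4 h5
        · exact (e' (by rw [← h3 e, h5, h4])).elim
        · rw [zero_add]
        · rfl

theorem trel_one {F : Type} [Field F] {t t' t'' : Tms F} (h : TRel 1 t t') (h' : TRel 1 t' t'') :
    TRel 1 t t'' := by
  simpa only [mul_one] using trel_trans h h'

variable {P : Par} [Cx P] {r : Res} {g : Rg}

omit [Cx P] in
theorem kap1_cons (d : Dn) (dn : List Dn) (k : Po → ℕ → ℕ → List Tm → ℕ → Res) (y : Po)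
    (b dv : ℕ) (t : List Tm) (c : ℕ) : kap1 P (d :: dn) k y b dv t c =
      ifb ((c % 4).beq 0) (kap1 P dn k y b dv t (c >>> 2))
        (rdP P c fun q c' => mkT d.o.a d.o.b q.p q.n t fun t' =>
          kap1 P dn k (padd y (pmul q d.o.x)) (b + q.b) (lc dv q.dv) t' c') := rfl

theorem kap1_C3 {b : Bn} {ν : Nd} {dn : List Dn} {ppv : List Pr}
    {k : Po → ℕ → ℕ → List Tm → ℕ → Res} (hz : b.z = 1)
    (hd : List.Forall₂ (ColOk P b ν) (dn.map Dn.o) ppv) {x : Po} {A : Polynomial Rz}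
    {bd dv c : ℕ} {t : List Tm} {l : Tms Rz} (hx : Dev P b.W x A) (ht : TD P dv bd t l)
    (ho : Ori t) (h : Is (kap1 P dn k x bd dv t c) r) :
    ∃ x' A' bd' dv' t' l' c', ∃ qs : List Rz, Dev P b.W x' A' ∧ TD P dv' bd' t' l' ∧ Ori t' ∧
      (∀ (y : Pt P.L) (ρ : y.V), Zc y ρ → ∀ κ, (sel b κ fun i => ev ρ (A'.coeff i)) =
        (sel b κ fun i => ev ρ (A.coeff i)) + (List.zipWith
          (fun y' c => y' * cv (colT (sy P y) (nd P ν) c) κ) (qs.map (ev ρ))
            (ppv.map (pe P ρ))).sum) ∧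
      (∀ (y : Pt P.L) (ρ : y.V), TRel 1 (List.zipWith (fun y' c => (c.1.i, c.2.i, y'))
        (qs.map (ev ρ)) (ppv.map (pe P ρ)) ++ tev ρ l) (tev ρ l')) ∧
      Is (k x' bd' dv' t' c') r := by
  induction dn generalizing ppv x A bd dv c t l with
  | nil =>
    cases hd
    exact ⟨x, A, bd, dv, t, l, c, [], hx, ht, ho, fun _ _ _ _ => by simp, fun _ _ => trel_refl _, h⟩
  | cons d dn ih =>
    rcases hd with _ | ⟨h1, h2⟩
    rename_i z ppv
    rw [kap1_cons] at h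
    rcases ifb_is h with ⟨_, h⟩ | ⟨_, h⟩
    · obtain ⟨x', A', bd', dv', t', l', c', qs, i1, i2, i3, i4, i5, i6⟩ := ih h2 hx ht ho h
      refine ⟨x', A', bd', dv', t', l', c', 0 :: qs, i1, i2, i3, fun y ρ hρ κ => ?_,
        fun y ρ => ?_, i6⟩
      · rw [i4 y ρ hρ κ]
        simp only [List.map_cons, List.zipWith_cons_cons, List.sum_cons, map_zero, zero_mul,
          zero_add]
      · simp only [List.map_cons, List.zipWith_cons_cons, List.cons_append]
        exact trel_drop (i5 y ρ) (.inr (by rw [map_zero, mul_zero]))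
    · obtain ⟨q, α, c₁, hq, h⟩ := rdP_spec h
      obtain ⟨t₁, l₁, j1, j2, j3, h⟩ := mkT_spec (dv := lc dv q.dv) (b₁ := q.b)
        (hq.mono rfl rfl le_rfl (Nat.dvd_lcm_right _ _))
        (ht.mono le_rfl (Nat.dvd_lcm_left _ _)) ho h
      obtain ⟨a, k1, k2⟩ := h1.val
      obtain ⟨x', A', bd', dv', t', l', c', qs, i1, i2, i3, i4, i5, i6⟩ :=
        ih h2 (hx.add (Dev.smul hq k1)) j1 j2 h
      refine ⟨x', A', bd', dv', t', l', c', α :: qs, i1, i2, i3, fun y ρ hρ κ => ?_,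
        fun y ρ => ?_, i6⟩
      · rw [i4 y ρ hρ κ]
        simp only [List.map_cons, List.zipWith_cons_cons, List.sum_cons]
        rw [cv_sel hz (h1.key y ρ), ← add_assoc]
        congr 1
        simp only [sel, Polynomial.coeff_add, Polynomial.coeff_C_mul, map_add, map_mul,
          k2 y ρ hρ]
        split_ifs
        · rfl
        · rw [mul_zero, add_zero]
      · simp only [List.map_cons, List.zipWith_cons_cons, List.cons_append]
        refine trel_one (trel_perm List.perm_middle.symm)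
          (trel_one (trel_append (trel_refl _) ?_) (i5 y ρ))
        have := j3 _ ρ
        rw [h1.ha, h1.hb] at this
        exact this

omit [Cx P] in
theorem kaps_cons (W nr dvm : ℕ) (dn : List Dn) (f : Cl) (fr : List Cl)
    (k : List Kp → ℕ → Res) (l : List Kp) (c : ℕ) : kaps P g W nr dvm dn (f :: fr) k l c =
      rdP P c fun s c₁ => uc P g.lim g.G g.E s c₁ fun c₂ => mkT f.a f.b s.p s.n [] fun t₀ =>
        kap1 P dn (fun y b dv t c₃ => sml P g.lim b dv
          (zv P W nr dvm g.G g.E y c₃ fun c₄ => kaps P g W nr dvm dn fr k (⟨b, dv, t⟩ :: l) c₄))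
          (pmul s f.x) s.b s.dv t₀ c₂ := rfl

/-- The relation between a free column and its coproduct. -/
def KR (P : Par) [Cx P] (ν : Nd) (ppv : List Pr) (y : Pt P.L) (ρ : y.V)
    (f : EnF (ZMod y.p) (Fin P.d) × EnF (ZMod y.p) (Fin P.d)) (t : Tms (ZMod y.p)) : Prop :=
  ∃ (a : ZMod y.p) (ys : List (ZMod y.p)), a ≠ 0 ∧
    (∀ k, a * cv (colT (sy P y) (nd P ν) f) k + (List.zipWith
      (fun y' c => y' * cv (colT (sy P y) (nd P ν) c) k) ys (ppv.map (pe P ρ))).sum = 0) ∧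
    TRel 1 (kap f a ys (ppv.map (pe P ρ))) t

theorem kaps_C3 {b : Bn} {ν : Nd} {dn : List Dn} {fr : List Cl} {ppv pfr : List Pr} {c : ℕ}
    {k : List Kp → ℕ → Res} (hg : ROk P g) (hb : BOk P b)
    (hd : List.Forall₂ (ColOk P b ν) (dn.map Dn.o) ppv) (hf : List.Forall₂ (ColOk P b ν) fr pfr)
    (hz : fr = [] ∨ b.z = 1) {l₀ : List Kp} {p₀ : List Pr} (h0 : ∀ a ∈ l₀, KOk P g.lim a)
    (h1 : Al P g.G g.E fun y ρ =>
      List.Forall₂ (KR P ν ppv y ρ) (p₀.map (pe P ρ)) (l₀.map (kz P ρ)))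
    (h : Is (kaps P g b.W b.nr b.dvm dn fr k l₀ c) r) :
    ∃ l c', (∀ a ∈ l, KOk P g.lim a) ∧ (Al P g.G g.E fun y ρ =>
      List.Forall₂ (KR P ν ppv y ρ) ((pfr.reverse ++ p₀).map (pe P ρ)) (l.map (kz P ρ))) ∧
      Is (k l c') r := by
  induction hf generalizing l₀ p₀ c with
  | nil => exact ⟨l₀, c, h0, h1, h⟩
  | @cons f z fr pfr e _ ih =>
    have hz' : b.z = 1 := hz.resolve_left (List.cons_ne_nil _ _)
    have hG : ∀ x ∈ g.G, Cn P x := fun x hx => (hg.G x hx).1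
    have hE : ∀ x ∈ g.E, Cn P x := fun x hx => (hg.E x hx).1
    rw [kaps_cons] at h
    obtain ⟨s, α, c₁, hs, h⟩ := rdP_spec h
    obtain ⟨c₂, u1, h⟩ := uc_spec hg.lim hG hE hs h
    obtain ⟨t₀, l₁, j1, j2, j3, h⟩ := mkT_spec (dv := s.dv) (b₁ := s.b) (b := 0) hs (TD.nil 0)
      (fun _ hx => by cases hx) h
    obtain ⟨a, k1, k2⟩ := e.val
    rw [Nat.zero_add] at j1
    obtain ⟨x', A', bd', dv', t', l', c₃, qs, i1, i2, i3, i4, i5, h⟩ :=
      kap1_C3 hz' hd (Dev.smul hs k1) j1 j2 h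
    obtain ⟨m1, m2, h⟩ := sml_is h
    obtain ⟨c₄, u2, h⟩ := zv_spec hb.1 hG hE i1 h
    have e₁ := i2.tz_eq m1 (m2.trans hg.lim)
    subst e₁
    rw [List.reverse_cons, List.append_assoc]
    refine ih (.inr hz') (p₀ := z :: p₀) (fun a ha => ?_)
      (((h1.and u1).and u2).mono fun y ρ hρ ⟨⟨n1, n2⟩, n3⟩ => ?_) h
    · rcases List.mem_cons.1 ha with rfl | ha
      · exact ⟨i2, m2, i3⟩
      · exact h0 a ha
    · refine List.Forall₂.cons ⟨ev ρ α, qs.map (ev ρ), n2, fun κ => ?_, ?_⟩ n1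
      · have := i4 y ρ hρ.1 κ
        simp only [n3] at this
        rw [cv_sel hz' (e.key y ρ)]
        refine Eq.trans ?_ (this.symm.trans (ite_self _))
        congr 1
        simp only [sel, Polynomial.coeff_C_mul, map_mul, k2 y ρ hρ.1]
        split_ifs
        · rfl
        · rw [mul_zero]
      · refine trel_one (trel_perm (List.perm_append_singleton _ _).symm)
          (trel_one (trel_append (trel_refl _) ?_) (i5 y ρ))
        have := j3 _ ρ
        rw [e.ha, e.hb] at this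
        exact this

theorem kaps_spec {b : Bn} {ν : Nd} {dn : List Dn} {fr : List Cl} {ppv pfr : List Pr} {c : ℕ}
    {k : List Kp → ℕ → Res} (hg : ROk P g) (hb : BOk P b)
    (hd : List.Forall₂ (ColOk P b ν) (dn.map Dn.o) ppv) (hf : List.Forall₂ (ColOk P b ν) fr pfr)
    (hz : fr = [] ∨ b.z = 1) (h : Is (kaps P g b.W b.nr b.dvm dn fr k [] c) r) :
    ∃ l c', (∀ a ∈ l, KOk P g.lim a) ∧ (Al P g.G g.E fun y ρ =>
      List.Forall₂ (fun f t => ∃ (a : ZMod y.p) (ys : List (ZMod y.p)), a ≠ 0 ∧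
        (∀ k, a * cv (colT (sy P y) (nd P ν) f) k + (List.zipWith
          (fun y' c => y' * cv (colT (sy P y) (nd P ν) c) k) ys (ppv.map (pe P ρ))).sum = 0) ∧
        TRel 1 (kap f a ys (ppv.map (pe P ρ))) t) (pfr.reverse.map (pe P ρ)) (l.map (kz P ρ))) ∧
      Is (k l c') r := by
  have := kaps_C3 hg hb hd hf hz (l₀ := []) (p₀ := []) (fun _ hx => by cases hx)
    (Al.of_forall fun _ _ _ => .nil) h
  rwa [List.append_nil] at this

omit [Cx P] in
theorem oldz_cons (o : En) (x : Pr) (l : List Pr) (k : ℕ → Res) (c : ℕ) :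
    oldz P g o (x :: l) k c = cof x.a.i x.b.i o.t
      (fun p n => zc P g.lim g.G g.E ⟨p, n, o.b, o.dv⟩ c (oldz P g o l k)) 0 0 := rfl

theorem oldz_C3 {c : ℕ} {k : ℕ → Res} {o : En} {l : List Pr} (hg : ROk P g)
    (ho : EOk P g.lim o) (h : Is (oldz P g o l k c) r) :
    ∃ c', (Al P g.G g.E fun _ ρ => ∀ x ∈ l, co (fe P ρ o).t x.a.i x.b.i = 0) ∧ Is (k c') r := by
  induction l generalizing c with
  | nil => exact ⟨c, Al.of_forall fun _ _ _ _ hx => (by cases hx), h⟩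
  | cons x l ih =>
    rw [oldz_cons] at h
    obtain ⟨p, n, a, h1, h2, h⟩ := cof_spec ho.1 ho.2.2 h
    obtain ⟨c₁, u, h⟩ := zc_spec hg.lim (fun x hx => (hg.G x hx).1) (fun x hx => (hg.E x hx).1) h1 h
    obtain ⟨c₂, u', h⟩ := ih h
    refine ⟨c₂, (u.and u').mono fun y ρ _ ⟨n1, n2⟩ z hz => ?_, h⟩
    rcases List.mem_cons.1 hz with rfl | hz
    · exact (h2 _ ρ).symm.trans n1
    · exact n2 z hz

omit [Cx P] in
theorem olds_succ (n : ℕ) (k : ℕ → Res) (os : List En) (l : List Pr) (c : ℕ) :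
    olds P g (n + 1) k os l c = pick os (c % 16) fun o os' =>
      pick l ((c >>> 4) % 16) fun x l' => cof x.a.i x.b.i o.t
        (fun p m => uc P g.lim g.G g.E ⟨p, m, o.b, o.dv⟩ (c >>> 8)
          (oldz P g o l' (olds P g n k os' l'))) 0 0 := rfl

theorem olds_spec {n c : ℕ} {k : ℕ → Res} {os : List En} {ol : List Pr} (hg : ROk P g)
    (ho : ∀ o ∈ os, EOk P g.lim o) (h : Is (olds P g n k os ol c) r) :
    ∃ os' ol' c', os.Perm os' ∧ ol.Perm ol' ∧
      (Al P g.G g.E fun _ ρ => Ech (os'.map (fe P ρ)) (ol'.map (pe P ρ))) ∧ Is (k c') r := by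
  induction n generalizing os ol c with
  | zero =>
    obtain ⟨h1, h⟩ := chk_is h
    obtain ⟨h2, h⟩ := chk_is h
    rw [nil_iff.1 h1, nil_iff.1 h2]
    exact ⟨[], [], c, .nil, .nil, Al.of_forall fun _ _ _ => rfl, h⟩
  | succ n ih =>
    rw [olds_succ] at h
    obtain ⟨o, os₁, p1, h⟩ := pick_spec h
    obtain ⟨x, l₁, p2, h⟩ := pick_spec h
    have h0 := ho o (p1.symm.subset List.mem_cons_self)
    obtain ⟨p, m, a, h1, h2, h⟩ := cof_spec h0.1 h0.2.2 h
    obtain ⟨c₁, u, h⟩ := uc_spec hg.lim (fun x hx => (hg.G x hx).1) (fun x hx => (hg.E x hx).1) h1 h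
    obtain ⟨c₂, u', h⟩ := oldz_C3 hg h0 h
    obtain ⟨os', ol', c', q1, q2, u'', h⟩ :=
      ih (fun z hz => ho z (p1.symm.subset (List.mem_cons_of_mem _ hz))) h
    refine ⟨o :: os', x :: ol', c', p1.trans (q1.cons _), p2.trans (q2.cons _),
      ((u.and u').and u'').mono fun y ρ _ ⟨⟨n1, n2⟩, n3⟩ => ⟨?_, fun z hz => ?_, n3⟩, h⟩
    · exact fun e => n1 ((h2 _ ρ).trans e)
    · obtain ⟨w, hw, rfl⟩ := List.mem_map.1 hz
      exact n2 w (q2.symm.subset hw)

omit [Cx P] in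
theorem mem_fold {fx : Bool} {w e : ℕ} {l : List En} {x : En} :
    x ∈ fold P fx w e l ↔ x ∈ l ∧ x.w = w ∧ (fx = true → epi P.L x.i = e) := by
  induction l with
  | nil => simp [fold]
  | cons a l ih =>
    have h : fold P fx w e (a :: l) = ifb (a.w.beq w) (ifb fx (ifb ((epi P.L a.i).beq e)
      (a :: fold P fx w e l) (fold P fx w e l)) (a :: fold P fx w e l)) (fold P fx w e l) := rfl
    rw [h]
    simp only [ifb_eq, Nat.beq_eq, List.mem_cons]
    split_ifs with h1 h2 h3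
    · rw [List.mem_cons, ih]
      exact ⟨fun h => h.elim (fun h => ⟨.inl h, h ▸ h1, fun _ => h ▸ h3⟩) fun h => ⟨.inr h.1, h.2⟩,
        fun h => h.1.imp_right fun h' => ⟨h', h.2⟩⟩
    · rw [ih]
      exact ⟨fun h => ⟨.inr h.1, h.2⟩,
        fun h => ⟨h.1.resolve_left fun h' => h3 (h' ▸ h.2.2 h2), h.2⟩⟩
    · rw [List.mem_cons, ih]
      exact ⟨fun h => h.elim (fun h => ⟨.inl h, h ▸ h1, fun h' => (h2 h').elim⟩)
        fun h => ⟨.inr h.1, h.2⟩, fun h => h.1.imp_right fun h' => ⟨h', h.2⟩⟩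
    · rw [ih]
      exact ⟨fun h => ⟨.inr h.1, h.2⟩, fun h => ⟨h.1.resolve_left fun h' => h1 (h' ▸ h.2.1), h.2⟩⟩

end Pool.Agent.P.MP_8598be_al.Ck
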