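import Pool.Agent.P.MP_8598be_al.Ck.L0

/-!
Lists and outputs.
-/

namespace Pool.Agent.P.MP_8598be_al.Ck

open Z K MvPolynomial

variable {P : Par} {γ : Ty (Fin P.d)} {j : ℕ}

theorem ov_nil (y : Pt P.L) : ov P γ j [] y = 0 :=
  rfl

theorem ov_append (o o' : List Out) (y : Pt P.L) :
    ov P γ j (o ++ o') y = ov P γ j o y + ov P γ j o' y := by
  simp only [ov, List.map_append, List.sum_append]

open Classical in
theorem cons_L1 (x : Out) (o : List Out) (y : Pt P.L) : ov P γ j (x :: o) y =
    (if Mt P γ j x.ty then ((x.p : ℤ) - x.n) * nA P x.a y else 0) + ov P γ j o y := rfl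

theorem addO_L1 (x : Out) (o : List Out) (y : Pt P.L) :
    ov P γ j (addO x o) y = ov P γ j (x :: o) y := by
  induction o with
  | nil => rfl
  | cons z t ih =>
    change ov P γ j (ifb (ifb (eqL Nat.beq z.ty x.ty) (eqL Nat.beq z.a x.a) false)
      (⟨z.ty, z.a, z.p + x.p, z.n + x.n⟩ :: t) (z :: addO x t)) y = _
    simp only [ifb_eq]
    split_ifs with h1 h2 h3
    · have e1 : x.ty = z.ty := (eqL_eq (fun _ _ => Nat.eq_of_beq_eq_true) h1).symm
      have e2 : x.a = z.a := (eqL_eq (fun _ _ => Nat.eq_of_beq_eq_true) h2).symm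
      rw [cons_L1, cons_L1, cons_L1, e1, e2]
      dsimp only
      split_ifs
      · push_cast
        ring
      · simp
    · simp only [cons_L1, ih, add_left_comm]
    · exact absurd h3 (by simp)
    · simp only [cons_L1, ih, add_left_comm]

theorem ov_cancel (o : List Out) (y : Pt P.L) : ov P γ j (cancel o) y = ov P γ j o y := by
  have h1 : ∀ l : List Out, ov P γ j (List.rec (motive := fun _ => List Out) []
      (fun o _ ih => addO o ih) l) y = ov P γ j l y := fun l => by
    induction l with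
    | nil => rfl
    | cons x t ih => exact (addO_L1 _ _ _).trans (by rw [cons_L1, cons_L1, ih])
  rw [← h1 o, cancel]
  generalize (List.rec (motive := fun _ => List Out) [] (fun o _ ih => addO o ih) o) = l
  induction l with
  | nil => rfl
  | cons x t ih =>
    change ov P γ j (ifb (x.p.beq x.n) _ (⟨x.ty, x.a, x.p - x.n, x.n - x.p⟩ :: _)) y = _
    rw [ifb_eq]
    split_ifs with h
    · rw [ih, cons_L1, Nat.eq_of_beq_eq_true h]
      simp
    · rw [cons_L1, cons_L1, ih,
        show (((x.p - x.n : ℕ) : ℤ) - (x.n - x.p : ℕ)) = (x.p : ℤ) - x.n by omega]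

theorem ov_filter {n : ℕ} (h : ∀ ty, Mt P γ j ty → ty.length ≤ n) (o : List Out) (y : Pt P.L) :
    ov P γ j (o.filter fun o => decide (o.ty.length ≤ n)) y = ov P γ j o y := by
  induction o with
  | nil => rfl
  | cons x t ih =>
    rw [List.filter_cons]
    split_ifs with c
    · rw [cons_L1, cons_L1, ih]
    · rw [cons_L1, ih, if_neg fun m => c (decide_eq_true (h _ m)), zero_add]

theorem ov_succ (h : γ (j + 1) = 0) (o : List Out) (y : Pt P.L) :
    ov P γ (j + 1) o y = ov P γ j o y := by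
  have e : Mt P γ (j + 1) = Mt P γ j := funext fun ty => propext (and_congr_right fun _ =>
    ⟨fun a i b c => a i b (by omega), fun a i b c => by
      rcases c.eq_or_lt with rfl | c
      · exact h
      · exact a i b (by omega)⟩)
  rw [ov, ov, e]

theorem ov_succ_ne (h : γ (j + 1) ≠ 0) (o : List Out) (y : Pt P.L) : ov P γ (j + 1) o y = 0 := by
  induction o with
  | nil => rfl
  | cons x t ih => rw [cons_L1, ih, if_neg fun m => h (m.2 _ (by omega) le_rfl), zero_add]

theorem mt_perm {ty ty' : List ℕ} (p : ty.Perm ty') : Mt P γ j ty ↔ Mt P γ j ty' := by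
  have e : tyL (ty.map (dw P)) = tyL (ty'.map (dw P)) := funext fun α => (p.map _).count_eq α
  rw [Mt, Mt, e]

theorem mt_zero : Mt P (0 : Ty (Fin P.d)) 0 [] :=
  ⟨rfl, fun _ _ _ => rfl⟩

theorem enc_L1 {F : Type} [CommRing F] (ρ : Fin 6 → F) (k : ℕ) (l : List Po) (t : List ℕ) :
    InA P ρ (encL k l t) ↔
      (∀ x ∈ l, if k = 0 then ev ρ (vp P x) ≠ 0 else ev ρ (vp P x) = 0) ∧ InA P ρ t := by
  induction l with
  | nil => exact ⟨fun h => ⟨by simp, h⟩, fun h => h.2⟩
  | cons x l ih =>
    rw [List.forall_mem_cons, and_assoc, ← ih]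
    rfl

theorem inA_enc (G E : List Po) (y : Pt P.L) (ρ : y.V) :
    (Zc y ρ ∧ InA P ρ (encL 0 (srt kyP G) (encL 1 (srt kyP E) []))) ↔ InR P G E y ρ := by
  simp only [enc_L1, (srt_perm _ _).mem_iff, InR, if_true, one_ne_zero, if_false, InA, and_true]

end Pool.Agent.P.MP_8598be_al.Ck
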