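import Pool.Agent.P.MP_8598be_al.Ck.R0

/-!
Sums over regions.
-/

namespace Pool.Agent.P.MP_8598be_al.Ck

open Z K MvPolynomial

variable {L : ℕ} {R R' : ∀ y : Pt L, y.V → Prop} {v v' : ∀ y : Pt L, y.V → ℤ}

theorem upd_R1 {F : Type} [Fintype F] (i : Fin 6) (g : (Fin 6 → F) → ℤ) :
    ∑ ρ : Fin 6 → F, ∑ t : F, g (Function.update ρ i t) =
      (Fintype.card F : ℤ) * ∑ ρ : Fin 6 → F, g ρ := by
  have inv : Function.Involutive fun x : (Fin 6 → F) × F => (Function.update x.1 i x.2, x.1 i) :=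
    fun x => by simp
  have e := Equiv.sum_comp inv.toPerm fun x : (Fin 6 → F) × F => g x.1
  rw [Fintype.sum_prod_type, Fintype.sum_prod_type] at e
  refine Eq.trans e ?_
  simp only [Finset.sum_const, Finset.card_univ, nsmul_eq_mul, Finset.mul_sum]

theorem fresh_R1 {F : Type} [Fintype F] (is : List (Fin 6)) (hi : is.Nodup) :
    ∀ w : (Fin 6 → F) → List F → ℤ,
      (∀ ρ, ∀ i ∈ is, ∀ t ts, w (Function.update ρ i t) ts = w ρ ts) →
      ∑ ρ : Fin 6 → F, ∑ t : Fin is.length → F, w ρ (List.ofFn t) =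
        (Fintype.card F : ℤ) ^ is.length * ∑ ρ : Fin 6 → F, w ρ (is.map ρ) := by
  induction is with
  | nil =>
    intro w _
    simp
  | cons i is ih =>
    intro w e
    rw [List.nodup_cons] at hi
    have h1 := ih hi.2 (fun ρ ts => w ρ (ρ i :: ts)) fun ρ j hj t ts => by
      have : i ≠ j := fun h => hi.1 (h ▸ hj)
      simp only [Function.update_of_ne this, e ρ j (List.mem_cons_of_mem _ hj)]
    have h2 := upd_R1 i fun ρ : Fin 6 → F => ∑ t : Fin is.length → F, w ρ (ρ i :: List.ofFn t)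
    simp only [Function.update_self, e _ i List.mem_cons_self] at h2
    rw [List.length_cons, pow_succ', mul_assoc]
    simp only [List.map_cons]
    rw [← h1, ← h2]
    refine Finset.sum_congr rfl fun ρ _ => ?_
    rw [← Fintype.sum_prod_type', ← Equiv.sum_comp (Fin.consEquiv fun _ : Fin (is.length + 1) => F)]
    refine Finset.sum_congr rfl fun x _ => ?_
    rw [List.ofFn_succ]
    rfl

theorem ite_cond_congr_R1 {c : Prop} (d d' : Decidable c) :
    @ite ℤ c d 1 0 = @ite ℤ c d' 1 0 := by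
  rw [Subsingleton.elim d d']

theorem dvd_R1 (p S : ℤ) (k : ℕ) : p - 1 ∣ p ^ k * S - S := by
  have : p ^ k * S - S = (p ^ k - 1) * S := by ring
  rw [this]
  exact (sub_one_dvd_pow_sub_one p k).mul_right S

theorem dvd1_R1 {p S T : ℤ} (h : p * S = T) : p - 1 ∣ S - T := by
  refine ⟨-S, ?_⟩
  rw [← h]
  ring

theorem sS_add (R : ∀ y : Pt L, y.V → Prop) (v v' : ∀ y : Pt L, y.V → ℤ) (y : Pt L) :
    sS R (fun y ρ => v y ρ + v' y ρ) y = sS R v y + sS R v' y := by
  unfold sS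
  rw [← Finset.sum_add_distrib]
  refine Finset.sum_congr rfl fun ρ _ => ?_
  split_ifs <;> simp

theorem sS_const (R : ∀ y : Pt L, y.V → Prop) (c : Pt L → ℤ) (y : Pt L) :
    sS R (fun y _ => c y) y = c y * sS R (fun _ _ => 1) y := by
  unfold sS
  rw [Finset.mul_sum]
  refine Finset.sum_congr rfl fun ρ _ => ?_
  split_ifs <;> simp

theorem sS_split (Q : ∀ y : Pt L, y.V → Prop) (v : ∀ y : Pt L, y.V → ℤ) (y : Pt L) :
    sS R v y = sS (fun y ρ => R y ρ ∧ ¬ Q y ρ) v y + sS (fun y ρ => R y ρ ∧ Q y ρ) v y := by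
  unfold sS
  rw [← Finset.sum_add_distrib]
  refine Finset.sum_congr rfl fun ρ _ => ?_
  by_cases h1 : R y ρ <;> by_cases h2 : Q y ρ <;> simp [h1, h2]

/-- Equal regions and congruent summands. -/
theorem sS_cg (e : ∀ᶠ y in big L, ∀ ρ, (R y ρ ↔ R' y ρ) ∧
    (R y ρ → ((y.p : ℤ) - 1) ∣ v y ρ - v' y ρ)) : Cg (sS R v) (sS R' v') := by
  refine e.mono fun y hy => ?_
  unfold sS
  rw [← Finset.sum_sub_distrib]
  refine Finset.dvd_sum fun ρ _ => ?_
  by_cases h1 : R y ρ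
  · rw [if_pos h1, if_pos ((hy ρ).1.1 h1)]
    exact (hy ρ).2 h1
  · rw [if_neg h1, if_neg fun h => h1 ((hy ρ).1.2 h), sub_self]
    exact dvd_zero _

theorem sS_eq (e : ∀ᶠ y in big L, ∀ ρ, (R y ρ ↔ R' y ρ) ∧ (R y ρ → v y ρ = v' y ρ)) :
    Cg (sS R v) (sS R' v') := by
  refine sS_cg (e.mono fun y hy ρ => ⟨(hy ρ).1, fun h => ?_⟩)
  rw [(hy ρ).2 h, sub_self]
  exact dvd_zero _

theorem sS_zero (e : ∀ᶠ y in big L, ∀ ρ, R y ρ → v y ρ = 0) : Cg (sS R v) fun _ => 0 := by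
  refine Cg.of_eq (e.mono fun y hy => ?_)
  unfold sS
  refine Finset.sum_eq_zero fun ρ _ => ?_
  split_ifs with h
  · exact hy ρ h
  · rfl

theorem sS_one : Cg (sS (fun (y : Pt L) ρ => Zc y ρ) fun _ _ => 1) fun _ => 1 := by
  classical
  refine Filter.Eventually.of_forall fun y => ?_
  have c6 : ∑ _ρ : y.V, (1 : ℤ) = (y.p : ℤ) ^ 6 * 1 := by simp [ZMod.card]
  by_cases hL : L = 1
  · have : sS (fun (y : Pt L) ρ => Zc y ρ) (fun _ _ => 1) y = (y.p : ℤ) ^ 6 * 1 := by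
      rw [← c6]
      exact Finset.sum_congr rfl fun ρ _ => if_pos fun h => absurd hL h
    rw [this]
    exact dvd_R1 _ _ _
  · have h1 := upd_R1 0 fun ρ : y.V => if ρ 0 = y.ζ then (1 : ℤ) else 0
    simp only [Function.update_self, Finset.sum_ite_eq', Finset.mem_univ, if_true] at h1
    rw [c6, ZMod.card] at h1
    have : sS (fun (y : Pt L) ρ => Zc y ρ) (fun _ _ => 1) y =
        ∑ ρ : y.V, if ρ 0 = y.ζ then (1 : ℤ) else 0 :=
      Finset.sum_congr rfl fun ρ _ => if_congr ⟨fun h => h hL, fun h _ => h⟩ rfl rfl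
    have h2 := (dvd1_R1 h1.symm).add (dvd_R1 (y.p : ℤ) 1 6)
    rw [sub_add_sub_cancel] at h2
    rwa [this]

/-- Elimination of a variable: the second sum is `p` times the first one. -/
theorem sS_elim (i : Fin 6) (τ : ∀ y : Pt L, y.V → ZMod y.p)
    (e : ∀ᶠ y in big L, ∀ ρ : y.V, (∀ t, τ y (Function.update ρ i t) = τ y ρ) ∧
      (R' y ρ ↔ R y (Function.update ρ i (τ y ρ))) ∧
      (R y ρ → Function.update ρ i (τ y ρ) = ρ) ∧
      (R' y ρ → v' y ρ = v y (Function.update ρ i (τ y ρ)))) : Cg (sS R v) (sS R' v') := by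
  classical
  refine e.mono fun y hy => dvd1_R1 ?_
  have h1 := upd_R1 i fun ρ : y.V => if R y ρ then v y ρ else 0
  rw [ZMod.card] at h1
  refine Eq.trans h1.symm (Finset.sum_congr rfl fun ρ _ => ?_)
  rw [Finset.sum_eq_single (τ y ρ) (fun t _ ht => if_neg fun h => ht ?_)
    fun h => absurd (Finset.mem_univ _) h]
  · by_cases h : R' y ρ
    · rw [if_pos h, if_pos ((hy ρ).2.1.1 h), (hy ρ).2.2.2 h]
    · rw [if_neg h, if_neg fun h' => h ((hy ρ).2.1.2 h')]
  · have h2 := congrFun ((hy _).2.2.1 h) i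
    rw [Function.update_self, Function.update_self, (hy ρ).1] at h2
    exact h2.symm

/-- Fresh variables: the first sum is a power of `p` times the second one. -/
theorem sS_fresh (is : List (Fin 6)) (hi : is.Nodup) {n : ∀ y : Pt L, y.V → ℕ}
    (hn : ∀ y ρ, n y ρ = is.length) (w : ∀ y : Pt L, y.V → List (ZMod y.p) → ℕ)
    (e : ∀ (y : Pt L) (ρ : y.V), ∀ i ∈ is, ∀ t, (R y (Function.update ρ i t) ↔ R y ρ) ∧
      ∀ ts, w y (Function.update ρ i t) ts = w y ρ ts) :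
    Cg (sS R fun y ρ => ((∑ᶠ t : Fin (n y ρ) → ZMod y.p, w y ρ (List.ofFn t) : ℕ) : ℤ))
      (sS R fun y ρ => (w y ρ (is.map ρ) : ℤ)) := by
  classical
  obtain rfl : n = fun _ _ => is.length := funext fun y => funext fun ρ => hn y ρ
  refine Filter.Eventually.of_forall fun y => ?_
  have h1 := fresh_R1 is hi (fun (ρ : y.V) ts => if R y ρ then (w y ρ ts : ℤ) else 0)
    fun ρ i h t ts => if_congr (e y ρ i h t).1 (by rw [(e y ρ i h t).2]) rfl
  rw [ZMod.card] at h1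
  have h2 : sS R (fun y ρ => ((∑ᶠ t : Fin is.length → ZMod y.p, w y ρ (List.ofFn t) : ℕ) : ℤ)) y =
      (y.p : ℤ) ^ is.length * sS R (fun y ρ => (w y ρ (is.map ρ) : ℤ)) y := by
    refine Eq.trans (Finset.sum_congr rfl fun ρ _ => ?_) h1
    by_cases h : R y ρ
    · simp only [if_pos h, finsum_eq_sum_of_fintype, Nat.cast_sum]
    · simp only [if_neg h, Finset.sum_const_zero]
  rw [h2]
  exact dvd_R1 _ _ _

/-- The number of points of a hypersurface given by a polynomial in one variable. -/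
theorem sS_roots (i : Fin 6) (hi : L ≠ 1 → i ≠ 0) (cs : List ℤ) :
    Cg (sS (fun (y : Pt L) ρ => Zc y ρ ∧
      cs.foldr (fun c s => (c : ZMod y.p) + ρ i * s) 0 = 0) fun _ _ => 1)
      fun y => roots cs y.p := by
  classical
  have h0 : Cg (fun y : Pt L => (roots cs y.p : ℤ) *
      sS (fun (y : Pt L) ρ => Zc y ρ) (fun _ _ => 1) y) fun y => (roots cs y.p : ℤ) * 1 :=
    (Cg.refl _).mul sS_one
  simp only [mul_one] at h0
  refine Cg.trans (Filter.Eventually.of_forall fun y => dvd1_R1 ?_) h0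
  have h1 := upd_R1 i fun ρ : y.V => if Zc y ρ ∧
    cs.foldr (fun c s => (c : ZMod y.p) + ρ i * s) 0 = 0 then (1 : ℤ) else 0
  rw [ZMod.card] at h1
  rw [← sS_const (fun (y : Pt L) ρ => Zc y ρ) (fun y => (roots cs y.p : ℤ)) y]
  have h3 : sS (fun (y : Pt L) ρ => Zc y ρ ∧
      cs.foldr (fun c s => (c : ZMod y.p) + ρ i * s) 0 = 0) (fun _ _ => 1) y =
      ∑ ρ : y.V, if Zc y ρ ∧ cs.foldr (fun c s => (c : ZMod y.p) + ρ i * s) 0 = 0 then (1 : ℤ)
        else 0 := Finset.sum_congr rfl fun ρ _ => ite_cond_congr_R1 _ _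
  rw [h3, ← h1]
  refine Finset.sum_congr rfl fun ρ _ => ?_
  have hz : ∀ t, Zc y (Function.update ρ i t) ↔ Zc y ρ := fun t =>
    forall_congr' fun h => by rw [Function.update_of_ne (hi h).symm]
  simp only [Function.update_self, hz]
  by_cases h : Zc y ρ
  · simp only [h, true_and, if_true, Finset.sum_boole]
    unfold roots
    rw [Nat.card_eq_fintype_card, Fintype.card_subtype]
  · simp only [h, false_and, if_false, Finset.sum_const_zero]

variable {P : Par}

theorem sm_split (g : Rg) (x : Po) (v : ∀ y : Pt P.L, y.V → ℤ) (l l' : ℕ) (e e' : Bool)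
    (y : Pt P.L) :
    sm P g v y = sm P ⟨l, x :: g.G, g.E, e⟩ v y + sm P ⟨l', g.G, x :: g.E, e'⟩ v y := by
  have e1 : InR P (x :: g.G) g.E = fun y ρ => InR P g.G g.E y ρ ∧ ¬ ev ρ (vp P x) = 0 :=
    funext fun _ => funext fun _ => propext inR_G
  have e2 : InR P g.G (x :: g.E) = fun y ρ => InR P g.G g.E y ρ ∧ ev ρ (vp P x) = 0 :=
    funext fun _ => funext fun _ => propext inR_E
  unfold sm
  rw [e1, e2]
  exact sS_split (fun _ ρ => ev ρ (vp P x) = 0) v y

theorem re_nil (l : ℕ) (e : Bool) : RE P ⟨l, [], [], e⟩ := by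
  refine ⟨1, Cg.trans (sS_eq (Filter.Eventually.of_forall fun y ρ => ⟨?_, fun _ => rfl⟩)) sS_one⟩
  simp [InR]

end Pool.Agent.P.MP_8598be_al.Ck
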