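import Pool.Agent.P.MP_8598be_al.Ck.S0
import Pool.Agent.P.MP_8598be_al.Ck.W1
import Pool.Agent.P.MP_8598be_al.Ck.L1
import Pool.Agent.P.MP_8598be_al.Ck.R1
import Pool.Agent.P.MP_8598be_al.Ck.T1

/-!
Well formed states.
-/

namespace Pool.Agent.P.MP_8598be_al.Ck

open Z K MvPolynomial

variable {P : Par} {lim lim' D : ℕ} {s : St} {e : En} {g : Rg} {m : Md}

theorem TOk.ind {b dv : ℕ} {t : List Tm} (h : TOk P lim b dv t) {i : Fin 6} (hi : ¬ pr i ∣ lim)
    {F : Type} [CommRing F] (ρ : Fin 6 → F) (v : F) :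
    tev (Function.update ρ i v) (tz P t) = tev ρ (tz P t) := by
  unfold tev tz
  rw [List.map_map, List.map_map]
  refine List.map_congr_left fun x hx => ?_
  have e := (h.1.den hx).ind (i := i) (fun e => hi (e.trans h.2.1)) F ρ v
  simp only [Function.comp_apply, e]

theorem SOk.ind (h : SOk P lim s) {i : Fin 6} (hi : ¬ pr i ∣ lim) {F : Type} [CommRing F]
    (ρ : Fin 6 → F) (v : F) : frm P (Function.update ρ i v) s = frm P ρ s := by
  unfold frm
  refine List.map_congr_left fun e he => ?_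
  unfold fe
  rw [TOk.ind (h.en e he) hi]

theorem ROk.ind (h : ROk P g) {i : Fin 6} (hi : ¬ pr i ∣ g.lim) (y : Pt P.L) (ρ : y.V)
    (v : ZMod y.p) : InR P g.G g.E y (Function.update ρ i v) ↔ InR P g.G g.E y ρ := by
  have hp : ∀ x, POk P g.lim x → ev (Function.update ρ i v) (vp P x) = ev ρ (vp P x) :=
    fun x hx => Den.ind hx.1 (i := i) (fun e => hi (e.trans hx.2)) _ ρ v
  refine and_congr (forall_congr' fun hL => ?_) (and_congr ?_ ?_)
  · have h0 : (0 : Fin 6) ≠ i := by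
      rintro rfl
      exact hi (h.z hL)
    rw [Function.update_of_ne h0]
  · exact forall₂_congr fun x hx => by rw [hp x (h.G x hx)]
  · exact forall₂_congr fun x hx => by rw [hp x (h.E x hx)]

theorem ROk.mono (h : ROk P g) (hl : g.lim ∣ lim') (hl' : lim' ∣ P.LIM) (e : Bool) :
    ROk P ⟨lim', g.G, g.E, e⟩ := by
  exact ⟨hl', fun hL => (h.z hL).trans hl, fun x hx => ⟨(h.G x hx).1, (h.G x hx).2.trans hl⟩,
    fun x hx => ⟨(h.E x hx).1, (h.E x hx).2.trans hl⟩⟩

/-- The pairs with multidegree `w` are the columns of the node. -/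
theorem colsOk_of (h : SOk P lim s) {prs : List Pr} {w : ℕ} (hw : WD P s.D w)
    (hp : PrsOk P s.lo.flatten prs w) {F : Type} [Field F] (ρ : Fin 6 → F) {l : List Pr}
    (p : (prs.filter fun x => decide (x.w = w)).Perm l) :
    ColsOk (frm P ρ s) (dw P w) (l.map (pe P ρ)) := by
  have hm : ∀ x, x ∈ l ↔ x ∈ prs ∧ x.w = w := fun x => by
    rw [← p.mem_iff, List.mem_filter, decide_eq_true_eq]
  have hs : ∀ a ∈ s.lo.flatten, fe P ρ a ∈ frm P ρ s := fun a ha =>
    List.mem_map_of_mem (List.mem_append_left _ ha)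
  refine ⟨fun c hc => ?_, fun a ha b hb hab e => ?_, ?_⟩
  · obtain ⟨x, hx, rfl⟩ := List.mem_map.1 hc
    obtain ⟨h1, h2, h3, h4⟩ := hp.mem x ((hm x).1 hx).1 ((hm x).1 hx).2
    exact ⟨hs _ h1, hs _ h2, h3, h4⟩
  · obtain ⟨a, ha', rfl⟩ := List.mem_map.1 ha
    obtain ⟨b, hb', rfl⟩ := List.mem_map.1 hb
    have e' : dw P a.w + dw P b.w = dw P w := e
    have e1 : tot (dw P a.w) + tot (dw P b.w) = s.D := by
      rw [← hw.2, ← e']
      exact Finset.sum_add_distrib.symm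
    have h1 := (h.lt ha').2
    have h2 := (h.lt hb').2
    rcases hp.all a (h.mem_lo ha' (by omega)) b (h.mem_lo hb' (by omega)) hab e' with q | q
    · exact .inl (List.mem_map_of_mem (f := pe P ρ) ((hm _).2 ⟨q, rfl⟩))
    · exact .inr (List.mem_map_of_mem (f := pe P ρ) ((hm _).2 ⟨q, rfl⟩))
  · rw [List.pairwise_map]
    refine (p.pairwise_iff (R := Dif) fun {x y} e => ?_).1 (hp.pw.sublist List.filter_sublist)
    exact ⟨fun q => e.1 ⟨q.1.symm, q.2.symm⟩, fun q => e.2 ⟨q.2.symm, q.1.symm⟩⟩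

variable [Cx P]

theorem MOk.mono (h : MOk P lim s m) (hl : lim ∣ lim') : MOk P lim' s m := by
  cases m with
  | deg => exact SOk.mono h hl
  | todo prs td => exact ⟨h.1.mono hl, h.2⟩
  | node prs w e rest => exact ⟨h.1.mono hl, h.2⟩
  | pend prs w e rest A pd =>
    exact ⟨⟨h.1.1.mono hl, h.1.2⟩, fun a ha =>
      ⟨(h.2 a ha).1, (h.2 a ha).2.1.trans hl, (h.2 a ha).2.2⟩⟩
  | cnt ty p n => trivial

theorem MOk.val_ind (h : MOk P lim s m) {i : Fin 6} (hi : ¬ pr i ∣ lim) (γ : Ty (Fin P.d))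
    (y : Pt P.L) (ρ : y.V) (v : ZMod y.p) :
    val P γ s m y (Function.update ρ i v) = val P γ s m y ρ := by
  cases m with
  | deg => simp only [val, SOk.ind h hi]
  | todo prs td => simp only [val, SOk.ind h.1 hi]
  | node prs w e rest => simp only [val, SOk.ind h.1 hi]
  | pend prs w e rest A pd =>
    have e : A.map (kz P (Function.update ρ i v)) = A.map (kz P ρ) :=
      List.map_congr_left fun a ha => TOk.ind (h.2 a (List.mem_append_left _ ha)) hi ρ v
    simp only [val, SOk.ind h.1.1 hi, e]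
  | cnt ty p n => rfl

theorem TdOk.perm {td td' : List Nd} (h : TdOk P D td) (p : td.Perm td') : TdOk P D td' := by
  exact ⟨h.1, fun x hx => h.2.1 x (p.mem_iff.2 hx), fun y => (h.2.2 y).perm (p.map _)⟩

theorem TdOk.tail {x : Nd} {td : List Nd} (h : TdOk P D (x :: td)) : TdOk P D td := by
  exact ⟨h.1, fun z hz => h.2.1 z (List.mem_cons_of_mem _ hz), fun y =>
    ⟨fun ν hν => (h.2.2 y).1 ν (List.mem_cons_of_mem _ hν), (h.2.2 y).2.of_cons⟩⟩

theorem NOk.perm {prs : List Pr} {td td' : List Nd} (h : NOk P lim s prs td) (p : td.Perm td') :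
    NOk P lim s prs td' := by
  exact ⟨h.1, h.2.1.perm p, fun x hx => h.2.2 x (p.mem_iff.2 hx)⟩

theorem NOk.tail {prs : List Pr} {x : Nd} {td : List Nd} (h : NOk P lim s prs (x :: td)) :
    NOk P lim s prs td := by
  exact ⟨h.1, h.2.1.tail, fun z hz => h.2.2 z (List.mem_cons_of_mem _ hz)⟩

/-- Frames that differ by a factor have the same values. -/
theorem kk_of_frel {y : Pt P.L} {fr fr' : List (EnF (ZMod y.p) (Fin P.d))} {c : ZMod y.p}
    (hc : c ≠ 0) (h : FRel c fr fr') (hg : GoodF (sy P y) fr) (γ : Ty (Fin P.d)) (j D : ℕ) :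
    GoodF (sy P y) fr' ∧ vDeg (sy P y) γ fr' j D = vDeg (sy P y) γ fr j D ∧
      (∀ td, vTodo (sy P y) γ fr' j D td = vTodo (sy P y) γ fr j D td) ∧
      ∀ ν td, vPend (sy P y) γ fr' j D ν td [] = vPend (sy P y) γ fr j D ν td [] := by
  obtain ⟨h1, h2⟩ := h.good hc hg
  refine ⟨h1, ?_, fun td => ?_, fun ν td => ?_⟩
  · unfold vDeg
    rw [h2]
  · unfold vTodo
    rw [h2]
  · unfold vPend
    rw [h2, List.map_nil, List.map_nil]

end Pool.Agent.P.MP_8598be_al.Ck
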