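import Pool.Agent.P.MP_8598be_al.Ck.C1
import Pool.Agent.P.MP_8598be_al.Ck.C2
import Pool.Agent.P.MP_8598be_al.Ck.C3
import Pool.Agent.P.MP_8598be_al.Ck.S1
import Pool.Agent.P.MP_8598be_al.K.Mod

/-!
The certificate of a node.
-/

namespace Pool.Agent.P.MP_8598be_al.Ck

open Z K MvPolynomial

theorem frc_C4 {n : ℕ} {k : ℕ → Res} {r : Res} (h : Is (frc n k) r) : Is (k n) r := h

variable {P : Par} [Cx P] {r : Res}

theorem cert2_C4 {g : Rg} {s : St} {prs : List Pr} {w e c : ℕ} {k : List Kp → ℕ → Res} {b : Bn}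
    (hg : ROk P g) (hs : SOk P g.lim s) (hD : 2 ≤ s.D) (hw : WD P s.D w) (he : e < P.L)
    (hp : PrsOk P s.lo.flatten prs w) (hb : BOk P b)
    (h : Is (cert2 P g s.cur prs w e (fxb P w) b c k) r) :
    ∃ l c', (∀ a ∈ l, KOk P g.lim a) ∧ (Al P g.G g.E fun y ρ => Gd P s y ρ →
      PendOk (sy P y) (frm P ρ s) (nd P ⟨w, e⟩) (l.map (kz P ρ))) ∧ Is (k l c') r := by
  have hlo : ∀ a ∈ s.lo.flatten, a ∈ ents s := fun a ha => List.mem_append_left _ ha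
  have hcu : ∀ a ∈ s.cur, a ∈ ents s := fun a ha =>
    List.mem_append_right _ (List.mem_append_left _ ha)
  obtain ⟨pv, fr, ol, ppv, pfr, c₁, p1, f1, f2, h⟩ := cols_spec (lim := g.lim) hb hw.1
    (fun x hx e' => ⟨hs.en _ (hlo _ (hp.mem x hx e').1), hs.en _ (hlo _ (hp.mem x hx e').2.1)⟩) h
  obtain ⟨z1, h⟩ := chk_is h
  have hz : fr = [] ∨ b.z = 1 := by
    rw [ifb_eq] at z1
    split_ifs at z1 with h1
    · exact .inl (nil_iff.1 h1)
    · exact .inr (Nat.eq_of_beq_eq_true z1)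
  obtain ⟨dn, ps, c₂, p2, f3, u1, h⟩ := pivs_spec (R := ColOk P b ⟨w, e⟩)
    (V := fun x y ρ => rv b (colT (sy P y) (nd P ⟨w, e⟩) (pe P ρ x))) hg hb.1
    (fun _ _ h' => ⟨h'.bd, h'.dv, h'.val⟩) f1 h
  obtain ⟨l, c₃, k1, u2, h⟩ := kaps_spec hg hb f3 f2 hz h
  obtain ⟨os, ol', c₄, p3, p4, u3, h⟩ :=
    olds_spec hg (fun o ho => hs.en _ (hcu _ (mem_fold.1 ho).1)) h
  refine ⟨l, c₄, k1, ((u1.and u2).and u3).mono fun y ρ _ ⟨⟨n1, n2⟩, n3⟩ hgd => ?_, h⟩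
  have hc := colsOk_of hs hw hp ρ
    (p1.trans ((p2.append (List.reverse_perm pfr).symm).append p4))
  rw [List.map_append, List.map_append] at hc
  refine node_cert hgd (hw.2.symm ▸ hD) he hc ?_ n2 (fun a => ?_) n3
  · have := tri_of_rv b (l := ps.map fun x => colT (sy P y) (nd P ⟨w, e⟩) (pe P ρ x))
      (by rw [List.map_map]; exact n1)
    rw [List.map_map] at this ⊢
    exact this
  · constructor
    · intro ha
      obtain ⟨o, ho, rfl⟩ := List.mem_map.1 ha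
      obtain ⟨m1, m2, m3⟩ := mem_fold.1 (p3.symm.subset ho)
      exact ⟨List.mem_map_of_mem (hcu _ m1), congrArg (dw P) m2,
        fun hx => (epi_eq _ _).symm.trans (m3 ((fxb_iff hw.1 y).2 hx))⟩
    · rintro ⟨ha, m2, m3⟩
      obtain ⟨o, ho, rfl⟩ := List.mem_map.1 ha
      have m1 : o ∈ s.cur := hs.mem_cur ho ((congrArg tot m2).trans hw.2)
      exact List.mem_map_of_mem (p3.subset (mem_fold.2 ⟨m1, dw_inj (hs.cur o m1).1 hw.1 m2,
        fun hx => (epi_eq _ _).trans (m3 ((fxb_iff hw.1 y).1 hx))⟩))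

theorem cert_spec {g : Rg} {s : St} {prs : List Pr} {w e c : ℕ} {k : List Kp → ℕ → Res}
    (hg : ROk P g) (hs : SOk P g.lim s) (hD : 2 ≤ s.D) (hw : WD P s.D w) (he : e < P.L)
    (hp : PrsOk P s.lo.flatten prs w) (h : Is (cert P g s.cur prs w e c k) r) :
    ∃ l c', (∀ a ∈ l, KOk P g.lim a) ∧ (Al P g.G g.E fun y ρ => Gd P s y ρ →
      PendOk (sy P y) (frm P ρ s) (nd P ⟨w, e⟩) (l.map (kz P ρ))) ∧ Is (k l c') r := by
  obtain ⟨m, c₁, h⟩ := rdM_spec h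
  replace h := frc_C4 h
  obtain ⟨h1, h⟩ := chk_is h
  have hW : WOk P (P.be * (∑ i : Fin 6, m i * ww P i + 1)) (∏ i : Fin 6, pr i ^ m i) :=
    ⟨(Nat.dvd_of_mod_eq_zero (Nat.eq_of_beq_eq_true h1)).trans hg.lim, m, rfl, rfl⟩
  replace h := frc_C4 h
  replace h := frc_C4 h
  replace h := frc_C4 h
  replace h := frc_C4 h
  obtain ⟨T, c₂, h⟩ := rdL_spec h
  rcases ifb_is h with ⟨_, h⟩ | ⟨_, h⟩
  · replace h := frc_C4 h
    obtain ⟨T2, c₃, h⟩ := rdL_spec h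
    exact cert2_C4 hg hs hD hw he hp (by exact ⟨hW, Nat.succ_pos _, rfl⟩) h
  · exact cert2_C4 hg hs hD hw he hp (by exact ⟨hW, Nat.succ_pos _, rfl⟩) h

end Pool.Agent.P.MP_8598be_al.Ck
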