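import Mathlib.Logic.Basic

/-!
The checker: data and programs. Numbers are packed polynomials with natural coefficients.
-/

namespace Pool.Agent.P.MP_8598be_al.Ck

/-- A term of a coproduct. -/
structure Tm where
  (j l p n : Nat)

/-- An entry of a frame. -/
structure En where
  (i w b dv : Nat)
  t : List Tm

/-- A pending coproduct. -/
structure Kp where
  (b dv : Nat)
  t : List Tm

/-- A packed polynomial or vector with bounds. -/
structure Po where
  (p n b dv : Nat)

/-- A pair of entries. -/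
structure Pr where
  w : Nat
  (a b : En)

/-- A node. -/
structure Nd where
  (w e : Nat)

/-- An output. -/
structure Out where
  (ty a : List Nat)
  (p n : Nat)

/-- The parameters. -/
structure Par where
  (d L B be M S W LIM Bd BL BL1 lo m : Nat)
  phi : Po

/-- A region of parameters. -/
structure Rg where
  lim : Nat
  (G E : List Po)
  ec : Bool

/-- A state. -/
structure St where
  lo : List (List En)
  cur : List En
  hi : List (List En)
  (N U j r D : Nat)

/-- The modes. -/
inductive Md where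
  | deg
  | todo (prs : List Pr) (td : List Nd)
  | node (prs : List Pr) (w e : Nat) (rest : List Nd)
  | pend (prs : List Pr) (w e : Nat) (rest : List Nd) (A pd : List Kp)
  | cnt (ty : List Nat) (p n : Nat)

/-- A fact. -/
structure Fc where
  k : Bool
  st : St
  td : List Nd
  rg : Rg
  o : List Out

/-- The results. -/
inductive Res where
  | no
  | ok (c : Nat) (t : List Nat) (a : List Out)

/-- The data for building columns. -/
structure Bn where
  (m T nr W H z kw T2 dvm : Nat)

/-- A column. -/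
structure Cl where
  (a b : Nat)
  x : Po

/-- A finished pivot. -/
structure Dn where
  s : Nat
  (x u : Po)
  o : Cl

noncomputable section

/-- Conditional. -/
def ifb {α : Type} (c : Bool) (x y : α) : α := Bool.rec y x c

/-- Check. -/
def chk (c : Bool) (k : Res) : Res := Bool.rec Res.no k c

/-- Negative check. -/
def chn (c : Bool) (k : Res) : Res := Bool.rec k Res.no c

/-- Evaluate a number. -/
def frc (n : Nat) (k : Nat → Res) : Res := Nat.rec Res.no (fun m _ => k m) (n.add (nat_lit 1))

/-- Case distinction on a small number. -/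
def sw (n : Nat) (x : Res) (y : Nat → Res) : Res := Nat.rec x (fun m _ => y m) n

/-- Sequencing. -/
def bnd (x : Res) (k : Nat → List Nat → List Out → Res) : Res := Res.rec Res.no k x

/-- Least common multiple. -/
def lc (a b : Nat) : Nat := (a.mul b).div (a.gcd b)

/-- The prime of a variable. -/
def pr (i : Nat) : Nat := (Nat.shiftRight (nat_lit 14341013570306) (i.mul (nat_lit 8))).mod (nat_lit 256)

/-- The position of a variable. -/
def ww (P : Par) (i : Nat) : Nat := (P.W.shiftRight (i.mul (nat_lit 32))).mod (nat_lit 4294967296)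

/-- The largest power of the prime of a variable. -/
def pw (P : Par) (i : Nat) : Nat :=
  (pr i).pow (((P.S.shiftRight (i.mul (nat_lit 8))).mod (nat_lit 256)).sub (nat_lit 1))

/-- Test of a bit. -/
def tb (x i : Nat) : Bool := ((x.shiftRight i).mod (nat_lit 2)).beq (nat_lit 1)

/-- Power of two. -/
def p2 (i : Nat) : Nat := Nat.shiftLeft (nat_lit 1) i

/-- Product. -/
def pmul (x y : Po) : Po :=
  ⟨(x.p.mul y.p).add (x.n.mul y.n), (x.p.mul y.n).add (x.n.mul y.p), x.b.mul y.b, x.dv.mul y.dv⟩

/-- Sum. -/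
def padd (x y : Po) : Po := ⟨x.p.add y.p, x.n.add y.n, x.b.add y.b, lc x.dv y.dv⟩

/-- Difference. -/
def psub (x y : Po) : Po := ⟨x.p.add y.n, x.n.add y.p, x.b.add y.b, lc x.dv y.dv⟩

/-- Evaluate the fields. -/
def fpo (p n b dv : Nat) (k : Po → Res) : Res :=
  frc p fun p => frc n fun n => frc b fun b => frc dv fun dv => k ⟨p, n, b, dv⟩

/-- The bounds are small. -/
def sml (P : Par) (lim b dv : Nat) (k : Res) : Res :=
  chk ((b.add (nat_lit 1)).ble P.M) (chk ((lim.mod dv).beq (nat_lit 0)) k)

/-- Zero test. -/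
def isz (P : Par) (lim : Nat) (x : Po) (k : Res) : Res :=
  chk (x.p.beq x.n) (sml P lim x.b x.dv k)

/-- Cancel constants, tighten the bound. -/
def nrm (P : Par) (x : Po) (k : Po → Res) : Res :=
  ifb ((x.p.add x.n).ble P.M)
    (fpo (x.p.sub x.n) (x.n.sub x.p) ((x.p.sub x.n).add (x.n.sub x.p)) (nat_lit 1) k)
    (fpo x.p x.n ((x.p.mod P.M).add (x.n.mod P.M)) x.dv k)

/-- An element of a list. -/
def nth {α : Type} (x : α) (l : List α) : Nat → α :=
  List.rec (fun _ => x) (fun a _ ih n => Nat.rec a (fun m _ => ih m) n) l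

/-- Remove an element from a list. -/
def pick {α : Type} (l : List α) : Nat → (α → List α → Res) → Res :=
  List.rec (fun _ _ => Res.no)
    (fun a t ih n k => Nat.rec (k a t) (fun m _ => ih m fun x r => k x (a :: r)) n) l

/-- Read a coefficient. -/
def rdC (c : Nat) (k : Nat → Nat → Res) : Res :=
  frc (((c.mod (nat_lit 16)).add (nat_lit 1)).mul (nat_lit 4)) fun h =>
    k ((c.shiftRight (nat_lit 4)).mod (p2 h)) (c.shiftRight (h.add (nat_lit 4)))

/-- Read a monomial. -/
def rdM (P : Par) (c : Nat) (k : Nat → Nat → Nat → Res) : Res :=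
  Nat.rec (motive := fun _ => Nat → Nat → Nat → Res) k
    (fun _ ih pos dv c => frc ((c.mod (nat_lit 8)).mod (nat_lit 6)) fun i =>
      ih (pos.add (ww P i)) (dv.mul (pr i)) (c.shiftRight (nat_lit 3)))
    (c.mod (nat_lit 32)) (nat_lit 0) (nat_lit 1) (c.shiftRight (nat_lit 5))

/-- Read the terms of a polynomial. -/
def rdT (P : Par) (n : Nat) (k : Po → Nat → Res) : Nat → Nat → Nat → Nat → Nat → Res :=
  Nat.rec (fun p n b dv c => fpo p n b dv fun x => k x c)
    (fun _ ih p n b dv c => rdM P (c.shiftRight (nat_lit 1)) fun pos d c' => rdC c' fun v c'' =>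
      ifb (tb c (nat_lit 0)) (ih p (n.add (v.shiftLeft (P.be.mul pos))) (b.add v) (lc dv d) c'')
        (ih (p.add (v.shiftLeft (P.be.mul pos))) n (b.add v) (lc dv d) c'')) n

/-- Read a polynomial. -/
def rdP (P : Par) (c : Nat) (k : Po → Nat → Res) : Res :=
  sw (c.mod (nat_lit 4)) (k ⟨(nat_lit 0), (nat_lit 0), (nat_lit 0), (nat_lit 1)⟩ (c.shiftRight (nat_lit 2))) fun h =>
  sw h (rdC (c.shiftRight (nat_lit 2)) fun v c' => frc v fun v => k ⟨v, (nat_lit 0), v, (nat_lit 1)⟩ c') fun h =>
  sw h (rdC (c.shiftRight (nat_lit 2)) fun v c' => frc v fun v => k ⟨(nat_lit 0), v, v, (nat_lit 1)⟩ c') fun _ =>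
  rdT P ((c.shiftRight (nat_lit 2)).mod (nat_lit 256)) k (nat_lit 0) (nat_lit 0) (nat_lit 0) (nat_lit 1) (c.shiftRight (nat_lit 10))

/-- Read a vector of polynomials. -/
def rdV (P : Par) (W c : Nat) (k : Po → Nat → Res) : Res :=
  Nat.rec (motive := fun _ => Nat → Nat → Nat → Nat → Nat → Res)
    (fun p n b dv c => fpo p n b dv fun x => k x c)
    (fun _ ih p n b dv c => rdM P (c.shiftRight (nat_lit 9)) fun pos d c' => rdC c' fun v c'' =>
      frc ((W.mul ((c.shiftRight (nat_lit 1)).mod (nat_lit 256))).add (P.be.mul pos)) fun s =>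
      ifb (tb c (nat_lit 0)) (ih p (n.add (v.shiftLeft s)) (b.add v) (lc dv d) c'')
        (ih (p.add (v.shiftLeft s)) n (b.add v) (lc dv d) c''))
    (c.mod (nat_lit 1024)) (nat_lit 0) (nat_lit 0) (nat_lit 0) (nat_lit 1) (c.shiftRight (nat_lit 10))

/-- Read a unit of the region. -/
def rdU (G : List Po) (c : Nat) (k : Po → Nat → Res) : Res :=
  rdC c fun v c' => chn (v.beq (nat_lit 0))
    (Nat.rec (motive := fun _ => Po → Nat → Res) k
      (fun _ ih x c => ih (pmul x (nth ⟨(nat_lit 1), (nat_lit 0), (nat_lit 1), (nat_lit 1)⟩ G (c.mod (nat_lit 16)))) (c.shiftRight (nat_lit 4)))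
      (c'.mod (nat_lit 16)) ⟨v, (nat_lit 0), v, (nat_lit 1)⟩ (c'.shiftRight (nat_lit 4)))

/-- Subtract multiples of the equations. -/
def subE (P : Par) (E : List Po) (k : Po → Nat → Res) : Po → Nat → Res :=
  List.rec k (fun e _ ih y c => ifb (tb c (nat_lit 0))
    (rdP P (c.shiftRight (nat_lit 1)) fun q c' => ih (psub y (pmul q e)) c') (ih y (c.shiftRight (nat_lit 1)))) E

/-- Subtract multiples of the equations from a vector. -/
def subV (P : Par) (W : Nat) (E : List Po) (k : Po → Nat → Res) : Po → Nat → Res :=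
  List.rec k (fun e _ ih y c => ifb (tb c (nat_lit 0))
    (rdV P W (c.shiftRight (nat_lit 1)) fun q c' => ih (psub y (pmul e q)) c') (ih y (c.shiftRight (nat_lit 1)))) E

/-- A geometric sum. -/
def geo (k n m : Nat) : Nat := m.mul (((p2 (k.mul n)).sub (nat_lit 1)).div ((p2 k).sub (nat_lit 1)))

/-- Read a mask. -/
def rdK (P : Par) (n : Nat) (k : Nat → Nat → Nat → Nat → Res) :
    Nat → Nat → Nat → Nat → Nat → Res :=
  Nat.rec (fun _ => k) (fun _ ih i m dv b c => frc (c.mod (nat_lit 32)) fun e =>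
    chk ((m.shiftRight (P.be.mul (ww P i))).beq (nat_lit 0))
      (frc (geo (P.be.mul (ww P i)) (e.add (nat_lit 1)) m) fun m => frc (i.add (nat_lit 1)) fun i' =>
        ih i' m (dv.mul ((pr i).pow e)) (b.mul (e.add (nat_lit 1))) (c.shiftRight (nat_lit 5)))) n

/-- Subtract the multiple of the cyclotomic polynomial with the quotient found by division. -/
def dph1 (P : Par) (y : Po) (w m dv b c : Nat) (k : Po → Nat → Res) : Res :=
  frc ((m.div ((p2 w).sub (nat_lit 1))).shiftLeft (w.sub (nat_lit 1))) fun o =>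
    frc (((y.p.add (P.phi.p.mul o)).sub y.n).div P.phi.p) fun q =>
      chk ((q.land m).beq q) (chk ((o.land m).beq o) (k (psub y (pmul P.phi ⟨q, o, b, dv⟩)) c))

/-- The reduction of a polynomial by the cyclotomic polynomial. -/
def dphS (P : Par) (y : Po) (c : Nat) (k : Po → Nat → Res) : Res :=
  ifb (tb c (nat_lit 0)) (frc ((c.shiftRight (nat_lit 1)).mod (nat_lit 64)) fun w =>
    rdK P (((c.shiftRight (nat_lit 7)).mod (nat_lit 8)).mod (nat_lit 7)) (fun m dv b c => dph1 P y w m dv b c k)
      (nat_lit 0) ((p2 w).sub (nat_lit 1)) (nat_lit 1) (p2 (w.add (nat_lit 1))) (c.shiftRight (nat_lit 10))) (k y (c.shiftRight (nat_lit 1)))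

/-- The reduction of a vector by the cyclotomic polynomial. -/
def dphV (P : Par) (W nr : Nat) (y : Po) (c : Nat) (k : Po → Nat → Res) : Res :=
  ifb (tb c (nat_lit 0)) (frc ((c.shiftRight (nat_lit 1)).mod (nat_lit 64)) fun w =>
    rdK P (((c.shiftRight (nat_lit 7)).mod (nat_lit 8)).mod (nat_lit 7)) (fun m dv b c => chk ((m.shiftRight W).beq (nat_lit 0))
      (frc (geo W nr m) fun m => dph1 P y w m dv (b.mul nr) c k))
      (nat_lit 0) ((p2 w).sub (nat_lit 1)) (nat_lit 1) (p2 (w.add (nat_lit 1))) (c.shiftRight (nat_lit 10))) (k y (c.shiftRight (nat_lit 1)))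

/-- Certificate that a polynomial vanishes on the region. -/
def zc (P : Par) (lim : Nat) (G E : List Po) (x : Po) (c : Nat) (k : Nat → Res) : Res :=
  ifb (tb c (nat_lit 0))
    (rdU G (c.shiftRight (nat_lit 1)) fun u c' =>
      subE P E (fun y c₂ => dphS P y c₂ fun y c₃ => isz P lim y (k c₃)) (pmul u x) c')
    (isz P lim x (k (c.shiftRight (nat_lit 1))))

/-- Certificate that a vector vanishes on the region. -/
def zv (P : Par) (W nr dvm : Nat) (G E : List Po) (x : Po) (c : Nat) (k : Nat → Res) : Res :=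
  ifb (tb c (nat_lit 0))
    (rdU G (c.shiftRight (nat_lit 1)) fun u c' =>
      subV P W E (fun y c₂ => dphV P W nr y c₂ fun y c₃ => isz P dvm y (k c₃)) (pmul u x) c')
    (isz P dvm x (k (c.shiftRight (nat_lit 1))))

/-- Certificate that a polynomial has no zero on the region. -/
def uc (P : Par) (lim : Nat) (G E : List Po) (x : Po) (c : Nat) (k : Nat → Res) : Res :=
  ifb (tb c (nat_lit 0))
    (rdP P (c.shiftRight (nat_lit 1)) fun a c' => rdU G c' fun u c'' =>
      subE P E (fun y c₂ => dphS P y c₂ fun y c₃ => isz P lim y (k c₃)) (psub (pmul a x) u) c'')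
    (chk ((x.p.add x.n).ble P.M) (chn (x.p.beq x.n) (k (c.shiftRight (nat_lit 1)))))

/-- Replace a polynomial by a normal form. -/
def rnm (P : Par) (lim lim' : Nat) (G E : List Po) (x : Po) (c : Nat) (k : Po → Nat → Res) : Res :=
  ifb (tb c (nat_lit 0))
    (rdP P (c.shiftRight (nat_lit 1)) fun y c' =>
      sml P lim' y.b y.dv (zc P lim G E (psub x y) c' (k y)))
    (sml P lim' x.b x.dv (nrm P x fun y => k y (c.shiftRight (nat_lit 1))))

/-- Replace a polynomial by a normal form up to units. -/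
def rns (P : Par) (lim : Nat) (G : List Po) (x : Po) (c : Nat) (k : Po → Nat → Res) : Res :=
  ifb (tb c (nat_lit 0))
    (rdP P (c.shiftRight (nat_lit 1)) fun y c₁ => rdP P c₁ fun a c₂ => rdP P c₂ fun b c₃ =>
      sml P lim y.b y.dv (uc P lim G [] a c₃ fun c₄ => uc P lim G [] b c₄ fun c₅ =>
        zc P lim G [] (psub (pmul a x) (pmul b y)) c₅ (k y)))
    (sml P lim x.b x.dv (nrm P x fun y => k y (c.shiftRight (nat_lit 1))))

/-- The action on indices, iterated. -/
def pit (L t i : Nat) : Nat :=
  ifb ((i.mod (nat_lit 2)).beq (nat_lit 1)) i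
    (((((i.div (nat_lit 2)).div L).mul L).add ((((i.div (nat_lit 2)).mod L).add t).mod L)).mul (nat_lit 2))

/-- The exponent of an index. -/
def epi (L i : Nat) : Nat := ((i.div (nat_lit 2)).mod L).mul (i.mod (nat_lit 2))

/-- The rotation of a multidegree. -/
def rot (P : Par) (w : Nat) : Nat :=
  (((w.mod P.BL).div P.B).add ((w.mod P.B).mul P.BL1)).add ((w.div P.BL).mul P.BL)

/-- The multidegree is fixed by a nontrivial rotation. -/
def fxb (P : Par) (w : Nat) : Bool := ifb (P.L.beq (nat_lit 1)) false ((rot P w).beq w)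

/-- The length of the orbit. -/
def orN (P : Par) (w : Nat) : Nat := ifb ((rot P w).beq w) (nat_lit 1) P.L

/-- The row of a key. -/
def row (b : Bn) (key : Nat) : Nat :=
  ((b.T.shiftRight ((key.mod b.m).mul (nat_lit 8))).mod (nat_lit 256)).mod b.nr

/-- Add a term to a column. -/
def put (b : Bn) (key h₁ h₂ p n acc : Nat) (k : Nat → Res) : Res :=
  frc (row b key) fun r =>
    chk ((((b.T2.shiftRight (b.kw.mul r)).mod (p2 b.kw)).mul b.z).beq (key.mul b.z))
      (k ((acc.add (p.shiftLeft ((b.W.mul r).add h₁))).add (n.shiftLeft ((b.W.mul r).add h₂))))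

/-- Add the Jacobi terms of a coproduct. -/
def bT (b : Bn) (i q h₁ h₂ : Nat) (t : List Tm) (k : Nat → Res) : Nat → Res :=
  List.rec k (fun x _ ih acc => Tm.rec (motive := fun _ => Res) (fun j l p n =>
    Bool.rec
      (Bool.rec (put b (((p2 j).add (p2 l)).add q) h₂ h₁ p n acc ih)
        (Bool.rec (put b (((p2 j).add (p2 l)).add q) h₁ h₂ p n acc ih) (ih acc) (l.beq i))
        (l.ble i))
      (Bool.rec (put b (((p2 j).add (p2 l)).add q) h₁ h₂ p n acc ih) (ih acc) (i.beq j))
      (i.ble j)) x) t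

/-- Add an eigenvalue term. -/
def put2 (P : Par) (b : Bn) (x y e h₁ h₂ acc : Nat) (k : Nat → Res) : Res :=
  ifb (x.beq y) (k acc) (ifb (x.ble y)
    (put b ((p2 x).add (p2 y)) h₁ h₂ (p2 (P.be.mul e)) (nat_lit 0) acc k)
    (put b ((p2 x).add (p2 y)) h₂ h₁ (p2 (P.be.mul e)) (nat_lit 0) acc k))

/-- Finish a column. -/
def fin (P : Par) (b : Bn) (i j bd dv acc : Nat) (k : Cl → Res) : Res :=
  frc acc fun acc => sml P b.dvm bd dv
    (fpo (acc.mod (p2 b.H)) (acc.shiftRight b.H) bd dv fun x => k ⟨i, j, x⟩)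

/-- Build a column. -/
def col (P : Par) (b : Bn) (fx : Bool) (e : Nat) (x y : En) (k : Cl → Res) : Res :=
  bT b y.i (p2 y.i) (nat_lit 0) b.H x.t (bT b x.i (p2 x.i) b.H (nat_lit 0) y.t fun acc =>
    ifb fx
      (put2 P b (pit P.L (nat_lit 1) x.i) (pit P.L (nat_lit 1) y.i) (((epi P.L x.i).add (epi P.L y.i)).mod P.L)
        (nat_lit 0) b.H acc fun acc => put2 P b x.i y.i e b.H (nat_lit 0) acc fun acc =>
          fin P b x.i y.i ((x.b.add y.b).add (nat_lit 2))
            (lc (lc (lc x.dv y.dv) (p2 (((epi P.L x.i).add (epi P.L y.i)).mod P.L))) (p2 e)) acc k)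
      (fin P b x.i y.i (x.b.add y.b) (lc x.dv y.dv) acc k)) (nat_lit 0)

/-- Build all columns of a node. -/
def cols (P : Par) (b : Bn) (fx : Bool) (w e : Nat) (prs : List Pr)
    (k : List Cl → List Cl → List Pr → Nat → Res) : List Cl → List Cl → List Pr → Nat → Res :=
  List.rec k (fun x _ ih pv fr ol c => ifb (x.w.beq w)
    (sw (c.mod (nat_lit 4)) (col P b fx e x.a x.b fun y => ih (y :: pv) fr ol (c.shiftRight (nat_lit 2))) fun h =>
      sw h (col P b fx e x.a x.b fun y => ih pv (y :: fr) ol (c.shiftRight (nat_lit 2))) fun _ =>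
        ih pv fr (x :: ol) (c.shiftRight (nat_lit 2)))
    (ih pv fr ol c)) prs

/-- An entry of a vector. -/
def ent (W s : Nat) (x : Po) : Po :=
  ⟨(x.p.shiftRight s).mod (p2 W), (x.n.shiftRight s).mod (p2 W), x.b, x.dv⟩

/-- A column operation. -/
def cop2 (P : Par) (dvm : Nat) (a x b y : Po) (k : Po → Res) : Res :=
  Po.rec (motive := fun _ => Res) (fun p n bd dv => frc p fun p => frc n fun n =>
    sml P dvm bd dv (fpo p n ((p.mod P.M).add (n.mod P.M)) dv k)) (psub (pmul a x) (pmul b y))

/-- Reduce a column by the finished pivots. -/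
def red (P : Par) (g : Rg) (W dvm : Nat) (dn : List Dn) (k : Po → Nat → Res) : Po → Nat → Res :=
  List.rec k (fun d _ ih x c => ifb ((ent W d.s x).p.beq (ent W d.s x).n) (ih x c)
    (sw (c.mod (nat_lit 4))
      (nrm P (ent W d.s x) fun y => cop2 P dvm d.u x y d.x fun x' => ih x' (c.shiftRight (nat_lit 2)))
      fun h => sw h
        (rdP P (c.shiftRight (nat_lit 2)) fun a c₁ => uc P g.lim g.G g.E a c₁ fun c₂ =>
          rdP P c₂ fun b c₃ => cop2 P dvm a x b d.x fun x' =>
            zc P g.lim g.G g.E (ent W d.s x') c₃ (ih x'))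
        fun _ => zc P g.lim g.G g.E (ent W d.s x) (c.shiftRight (nat_lit 2)) (ih x))) dn

/-- Append an element. -/
def snoc {α : Type} (l : List α) (x : α) : List α := List.rec [x] (fun a _ ih => a :: ih) l

/-- The empty list test. -/
def nil {α : Type} (l : List α) : Bool := List.rec true (fun _ _ _ => false) l

/-- The pivot phase. -/
def pivs (P : Par) (g : Rg) (W dvm n : Nat) (k : List Dn → Nat → Res) :
    List Cl → List Dn → Nat → Res :=
  Nat.rec (fun l dn c => chk (nil l) (k dn c))
    (fun _ ih l dn c => pick l (c.mod (nat_lit 64)) fun y l' =>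
      red P g W dvm dn (fun x c' => frc (W.mul (c'.mod (nat_lit 256))) fun s =>
        nrm P (ent W s x) fun u => uc P g.lim g.G g.E u (c'.shiftRight (nat_lit 8)) fun c'' =>
          ih l' (snoc dn ⟨s, x, u, y⟩) c'') y.x (c.shiftRight (nat_lit 6))) n

/-- An oriented term. -/
def mkT (a b p n : Nat) (t : List Tm) (k : List Tm → Res) : Res :=
  frc a fun a => frc b fun b => frc p fun p => frc n fun n =>
    ifb (a.beq b) (k t) (ifb (a.ble b) (k (⟨a, b, p, n⟩ :: t)) (k (⟨b, a, n, p⟩ :: t)))

/-- The coefficients of a new coproduct on the pivot columns. -/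
def kap1 (P : Par) (dn : List Dn) (k : Po → Nat → Nat → List Tm → Nat → Res) :
    Po → Nat → Nat → List Tm → Nat → Res :=
  List.rec k (fun d _ ih y b dv t c => ifb ((c.mod (nat_lit 4)).beq (nat_lit 0)) (ih y b dv t (c.shiftRight (nat_lit 2)))
    (rdP P c fun q c' => mkT d.o.a d.o.b q.p q.n t fun t' =>
      ih (padd y (pmul q d.o.x)) (b.add q.b) (lc dv q.dv) t' c')) dn

/-- The new coproducts. -/
def kaps (P : Par) (g : Rg) (W nr dvm : Nat) (dn : List Dn) (fr : List Cl)
    (k : List Kp → Nat → Res) : List Kp → Nat → Res :=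
  List.rec k (fun f _ ih l c => rdP P c fun s c₁ => uc P g.lim g.G g.E s c₁ fun c₂ =>
    mkT f.a f.b s.p s.n [] fun t₀ =>
      kap1 P dn (fun y b dv t c₃ => frc b fun b => frc dv fun dv => sml P g.lim b dv
        (zv P W nr dvm g.G g.E y c₃ fun c₄ => ih (⟨b, dv, t⟩ :: l) c₄))
        (pmul s f.x) s.b s.dv t₀ c₂) fr

/-- The coefficient of a coproduct at a pair, positive part. -/
def cof (a b : Nat) (t : List Tm) (k : Nat → Nat → Res) : Nat → Nat → Res :=
  List.rec k (fun x _ ih p n =>
    ifb (ifb (x.j.beq a) (x.l.beq b) false) (ih (p.add x.p) (n.add x.n))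
      (ifb (ifb (x.j.beq b) (x.l.beq a) false) (ih (p.add x.n) (n.add x.p)) (ih p n))) t

/-- An old entry vanishes on the remaining columns. -/
def oldz (P : Par) (g : Rg) (o : En) (l : List Pr) (k : Nat → Res) : Nat → Res :=
  List.rec k (fun x _ ih c => cof x.a.i x.b.i o.t
    (fun p n => zc P g.lim g.G g.E ⟨p, n, o.b, o.dv⟩ c ih) (nat_lit 0) (nat_lit 0)) l

/-- The old entries are in echelon form. -/
def olds (P : Par) (g : Rg) (n : Nat) (k : Nat → Res) : List En → List Pr → Nat → Res :=
  Nat.rec (fun os l c => chk (nil os) (chk (nil l) (k c)))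
    (fun _ ih os l c => pick os (c.mod (nat_lit 16)) fun o os' =>
      pick l ((c.shiftRight (nat_lit 4)).mod (nat_lit 16)) fun x l' => cof x.a.i x.b.i o.t
        (fun p n => uc P g.lim g.G g.E ⟨p, n, o.b, o.dv⟩ (c.shiftRight (nat_lit 8))
          (oldz P g o l' (ih os' l'))) (nat_lit 0) (nat_lit 0)) n

/-- The old entries of a node. -/
def fold (P : Par) (fx : Bool) (w e : Nat) (l : List En) : List En :=
  List.rec [] (fun x _ ih => ifb (x.w.beq w)
    (ifb fx (ifb ((epi P.L x.i).beq e) (x :: ih) ih) (x :: ih)) ih) l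

/-- Read a long number. -/
def rdL (c : Nat) (k : Nat → Nat → Res) : Res :=
  frc ((c.mod (nat_lit 4096)).mul (nat_lit 8)) fun h => frc ((c.shiftRight (nat_lit 12)).mod (p2 h)) fun v =>
    frc (c.shiftRight (h.add (nat_lit 12))) (k v)

/-- The certificate of a node, second part. -/
def cert2 (P : Par) (g : Rg) (cur : List En) (prs : List Pr) (w e : Nat) (fx : Bool) (b : Bn)
    (c : Nat) (k : List Kp → Nat → Res) : Res :=
  cols P b fx w e prs (fun pv fr ol c => chk (ifb (nil fr) true (b.z.beq (nat_lit 1)))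
    (pivs P g b.W b.dvm (c.mod (nat_lit 64)) (fun dn c => kaps P g b.W b.nr b.dvm dn fr (fun l c =>
      olds P g (c.mod (nat_lit 16)) (k l) (fold P fx w e cur) ol (c.shiftRight (nat_lit 4))) [] c)
      pv [] (c.shiftRight (nat_lit 6)))) [] [] [] c

/-- The certificate of a node. -/
def cert (P : Par) (g : Rg) (cur : List En) (prs : List Pr) (w e c : Nat)
    (k : List Kp → Nat → Res) : Res :=
  rdM P c fun pos dvm c => frc dvm fun dvm => chk ((g.lim.mod dvm).beq (nat_lit 0))
    (frc (P.be.mul (pos.add (nat_lit 1))) fun W => frc ((c.mod (nat_lit 256)).add (nat_lit 1)) fun nr =>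
      frc (W.mul nr) fun H => frc ((c.shiftRight (nat_lit 8)).mod (nat_lit 1024)) fun m =>
      rdL (c.shiftRight (nat_lit 18)) fun T c => ifb (tb c (nat_lit 0))
        (frc ((c.shiftRight (nat_lit 1)).mod (nat_lit 1024)) fun kw => rdL (c.shiftRight (nat_lit 11)) fun T2 c =>
          cert2 P g cur prs w e (fxb P w) ⟨m, T, nr, W, H, (nat_lit 1), kw, T2, dvm⟩ c k)
        (cert2 P g cur prs w e (fxb P w) ⟨m, T, nr, W, H, (nat_lit 0), (nat_lit 0), (nat_lit 0), dvm⟩ (c.shiftRight (nat_lit 1)) k))

/-- Add a term to a coproduct. -/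
def addT (j l p n : Nat) (t : List Tm) (k : List Tm → Res) : Res :=
  List.rec (motive := fun _ => (List Tm → Res) → Res) (fun k => k [⟨j, l, p, n⟩])
    (fun x r ih k => ifb (ifb (x.j.beq j) (x.l.beq l) false)
      (frc (x.p.add p) fun p => frc (x.n.add n) fun n => k (⟨j, l, p, n⟩ :: r))
      (ih fun r' => k (x :: r'))) t k

/-- Add a shifted coproduct. -/
def addK (s : Nat) (a : List Tm) (k : List Tm → Res) : List Tm → Res :=
  List.rec k (fun x _ ih t => frc (x.p.shiftLeft s) fun p => frc (x.n.shiftLeft s) fun n =>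
    addT x.j x.l p n t ih) a

/-- The combination with fresh variables. -/
def cmb (P : Par) (A : List Kp) (k : Nat → Nat → Nat → List Tm → Nat → Res) :
    Nat → Nat → Nat → List Tm → Nat → Res :=
  List.rec k (fun a _ ih lim b dv t c => frc ((c.mod (nat_lit 8)).mod (nat_lit 6)) fun i =>
    chn ((lim.mod (pr i)).beq (nat_lit 0)) (addK (P.be.mul (ww P i)) a.t (fun t' =>
      ih (lim.mul (pw P i)) (b.add a.b) (lc dv (a.dv.mul (pr i))) t' (c.shiftRight (nat_lit 3))) t)) A

/-- The exponent of the root of unity in a transported term. -/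
def exT (L t : Nat) (x : Tm) : Nat := (t.mul ((epi L x.j).add (epi L x.l))).mod L

/-- Transport of a coproduct. -/
def trn (P : Par) (t : Nat) (l : List Tm) (k : Nat → List Tm → Res) : Nat → List Tm → Res :=
  List.rec k (fun x _ ih mx r => frc (exT P.L t x) fun e =>
    mkT (pit P.L t x.j) (pit P.L t x.l) (x.p.shiftLeft (P.be.mul e)) (x.n.shiftLeft (P.be.mul e)) r
      (ih (mx.add (e.sub mx)))) l

/-- Insert into a sorted list. -/
def insK {α : Type} (f : α → Nat) (x : α) (l : List α) : (List α → Res) → Res :=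
  List.rec (fun k => k [x])
    (fun a t ih k => ifb ((f x).ble (f a)) (k (x :: a :: t)) (ih fun r => k (a :: r))) l

/-- Sort a list. -/
def srtK {α : Type} (f : α → Nat) (l : List α) (k : List α → Res) : List α → Res :=
  List.rec k (fun a _ ih r => insK f a r ih) l

/-- Sort a coproduct. -/
def srtT (t : List Tm) (k : List Tm → Res) : Res :=
  srtK (fun x => (x.j.mul (nat_lit 4096)).add x.l) t k []

/-- Install the rest of an orbit. -/
def orbit (P : Par) (lim b dv i₀ : Nat) (T : List Tm) (n : Nat) (k : List En → Res) :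
    Nat → Nat → List En → Res :=
  Nat.rec (fun _ _ cur => k cur)
    (fun _ ih t w cur => frc (rot P w) fun w => frc (i₀.add (t.mul (nat_lit 2))) fun i =>
      trn P t T (fun mx T' => frc (dv.mul (p2 mx)) fun dv' => chk ((lim.mod dv').beq (nat_lit 0))
        (frc (t.add (nat_lit 1)) fun t' => srtT T' fun T' => ih t' w (⟨i, w, b, dv', T'⟩ :: cur)))
        (nat_lit 0) []) n

/-- Install an orbit. -/
def inst (P : Par) (s : St) (lim w e b dv : Nat) (T : List Tm) (c : Nat) (k : St → Nat → Res) :
    Res :=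
  frc (((c.mod (nat_lit 256)).mul P.L).mul (nat_lit 2)) fun i₀ => frc (orN P w) fun o =>
    chk (((s.U.shiftRight i₀).mod (p2 (P.L.mul (nat_lit 2)))).beq (nat_lit 0))
      (chk (((s.j.add (nat_lit 1)).mul o).ble s.r) (sml P lim b dv
        (frc (ifb (fxb P w) ((i₀.add (e.mul (nat_lit 2))).add (nat_lit 1)) i₀) fun i =>
          srtT T fun T => orbit P lim b dv i₀ T (o.sub (nat_lit 1)) (fun cur => frc (s.N.add o) fun N =>
            frc (s.U.lor (((p2 (P.L.mul (nat_lit 2))).sub (nat_lit 1)).shiftLeft i₀)) fun U =>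
            frc (s.r.sub ((s.j.add (nat_lit 1)).mul o)) fun r =>
              St.rec (motive := fun _ => Res) (fun lo _ hi _ _ j _ D =>
                k ⟨lo, cur, hi, N, U, j, r, D⟩ (c.shiftRight (nat_lit 8))) s)
            (nat_lit 1) w (⟨i, w, b, dv, T⟩ :: s.cur))))

/-- The pairs of an entry with the entries of a list. -/
def prs1 (a : En) (l : List En) (r : List Pr) : List Pr :=
  List.rec r (fun b _ ih => ⟨a.w.add b.w, a, b⟩ :: ih) l

/-- The pairs from two layers. -/
def prs2 (l l' : List En) (r : List Pr) : List Pr := List.rec r (fun a _ ih => prs1 a l' ih) l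

/-- The pairs inside one layer. -/
def prs3 (l : List En) : List Pr := List.rec [] (fun a t ih => prs1 a t ih) l

/-- Reverse onto a list. -/
def rva {α : Type} (l : List α) : List α → List α :=
  List.rec (fun r => r) (fun a _ ih r => ih (a :: r)) l

/-- The pairs of total degree `D`; `n` is the difference of the degrees of the two heads. -/
def prsA (up : List (List En)) : List (List En) → Nat → List Pr :=
  List.rec (fun _ _ => [])
    (fun l _ ih dn n => List.rec [] (fun l' t _ => Nat.rec (prs3 l)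
      (fun m _ => prs2 l l' (Nat.rec [] (fun m' _ => ih t m') m)) n) dn) up

/-- All pairs of the current degree. -/
def allP (s : St) : List Pr := prsA (rva s.lo []) s.lo (s.D.sub (nat_lit 2))

/-- The bits of an orbit. -/
def orbB (P : Par) (n : Nat) : Nat → Nat :=
  Nat.rec (fun _ => (nat_lit 0)) (fun _ ih w => (p2 (w.mod P.Bd)).lor (ih (rot P w))) n

/-- The nodes of a fixed multidegree. -/
def eigN (w n : Nat) (td : List Nd) : List Nd := Nat.rec td (fun e ih => ⟨w, e⟩ :: ih) n

/-- A new multidegree. -/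
def newW (P : Par) (w seen reps : Nat) (td : List Nd) (k : Nat → Nat → List Nd → Res) : Res :=
  frc (seen.lor (orbB P P.L w)) fun seen => frc (reps.lor (p2 (w.mod P.Bd))) fun reps =>
    k seen reps (ifb (fxb P w) (eigN w P.L td) (⟨w, (nat_lit 0)⟩ :: td))

/-- The smallest multidegree of an orbit. -/
def mnW (P : Par) (n : Nat) : Nat → Nat :=
  Nat.rec (fun w => w) (fun _ ih w => ifb (w.ble (ih (rot P w))) w (ih (rot P w))) n

/-- The nodes and the pairs of a degree. -/
def mkTd (P : Par) (l : List Pr) (k : Nat → Nat → List Nd → List Pr → Res) :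
    Nat → Nat → List Nd → List Pr → Res :=
  List.rec k (fun x _ ih seen reps td prs => Pr.rec (motive := fun _ => Res) (fun w a b =>
    frc w fun w => ifb (tb reps (w.mod P.Bd)) (ih seen reps td (⟨w, a, b⟩ :: prs))
      (ifb (tb seen (w.mod P.Bd)) (ih seen reps td prs)
        (frc (mnW P (P.L.sub (nat_lit 1)) w) fun v => newW P v seen reps td fun seen reps td =>
          ifb (v.beq w) (ih seen reps td (⟨w, a, b⟩ :: prs)) (ih seen reps td prs)))) x) l

/-- The nodes of degree one. -/
def mkT1 (P : Par) (n : Nat) (k : Nat → List Nd → Res) : Nat → List Nd → Res :=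
  Nat.rec k (fun y ih seen td => frc (P.B.pow y) fun w =>
    ifb (tb seen (w.mod P.Bd)) (ih seen td) (newW P w seen (nat_lit 0) td fun seen _ td => ih seen td)) n

/-- The bits of the listed nodes. -/
def msk (P : Par) (td : List Nd) : Nat :=
  List.rec (nat_lit 0) (fun x _ ih => (p2 (x.w.mod P.Bd)).lor ih) td

/-- The pairs that belong to the listed nodes. -/
def flt (P : Par) (m : Nat) (l : List Pr) (k : List Pr → Res) : List Pr → Res :=
  List.rec k (fun x _ ih prs => Pr.rec (motive := fun _ => Res) (fun w a b => frc w fun w =>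
    ifb (tb m (w.mod P.Bd)) (ih (⟨w, a, b⟩ :: prs)) (ih prs)) x) l

/-- The table of powers for a substitution. -/
def pwT (u v : Po) (n : Nat) : List Po :=
  Nat.rec [⟨(nat_lit 1), (nat_lit 0), (nat_lit 1), (nat_lit 1)⟩]
    (fun _ ih => List.rec [] (fun a _ _ => pmul u a ::
      List.rec [] (fun b _ ih' => pmul v b :: ih') ih) ih) n

/-- Evaluate a list of polynomials. -/
def fls (l : List Po) (k : List Po → Res) : Res :=
  List.rec (motive := fun _ => (List Po → Res) → Res) (fun k => k [])
    (fun x _ ih k => fpo x.p x.n x.b x.dv fun y => ih fun r => k (y :: r)) l k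

/-- Decompose and substitute. -/
def sub1 (P : Par) (lim' : Nat) (t : Po) (T : List Po) (k : Po → Po → Nat → Res) :
    Po → Po → Po → Nat → Res :=
  List.rec (fun _ o y c => k o y c) (fun w _ ih q o y c => ifb ((c.mod (nat_lit 4)).beq (nat_lit 0))
    (ih (pmul q t) o y (c.shiftRight (nat_lit 2)))
    (rdP P c fun f c' => chk ((lim'.mod f.dv).beq (nat_lit 0))
      (ih (pmul q t) (padd o (pmul f q)) (padd y (pmul f w)) c'))) T

/-- Substitute in a polynomial. -/
def sub2 (P : Par) (lim lim' i : Nat) (t : Po) (T : List Po) (x : Po) (c : Nat)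
    (k : Po → Nat → Res) : Res :=
  ifb ((x.dv.mod (pr i)).beq (nat_lit 0))
    (sub1 P lim' t T (fun o y c => isz P lim (psub x o) (k y c))
      ⟨(nat_lit 1), (nat_lit 0), (nat_lit 1), (nat_lit 1)⟩ ⟨(nat_lit 0), (nat_lit 0), (nat_lit 0), (nat_lit 1)⟩ ⟨(nat_lit 0), (nat_lit 0), (nat_lit 0), (nat_lit 1)⟩ c)
    (k (pmul (nth ⟨(nat_lit 1), (nat_lit 0), (nat_lit 1), (nat_lit 1)⟩ T (nat_lit 0)) x) c)

/-- Substitute in the inequations. -/
def subG (P : Par) (lim lim' i : Nat) (t u : Po) (T l : List Po) (k : List Po → Nat → Res) :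
    List Po → Nat → Res :=
  List.rec k (fun x _ ih r c => sub2 P lim lim' i t T x c fun y c => ifb (tb c (nat_lit 0))
    (uc P lim' [u] [] y (c.shiftRight (nat_lit 1)) (ih r))
    (rns P lim' [u] y (c.shiftRight (nat_lit 1)) fun z c => ih (z :: r) c)) l

/-- Substitute in the equations. -/
def subQ (P : Par) (lim lim' i : Nat) (t u : Po) (T l : List Po) (k : List Po → Nat → Res) :
    List Po → Nat → Res :=
  List.rec k (fun x _ ih r c => sub2 P lim lim' i t T x c fun y c => ifb (tb c (nat_lit 0))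
    (zc P lim' [u] [] y (c.shiftRight (nat_lit 1)) (ih r))
    (rns P lim' [u] y (c.shiftRight (nat_lit 1)) fun z c => ih (z :: r) c)) l

/-- Substitute in a coproduct. -/
def subT (P : Par) (lim i : Nat) (t : Po) (T : List Po) (g : Rg) (b₀ dv₀ : Nat) (l : List Tm) :
    (Nat → Nat → List Tm → Nat → Res) → Nat → Nat → Nat → Res :=
  List.rec (fun k b dv c => k b dv [] c) (fun x _ ih k b dv c =>
    sub2 P lim g.lim i t T ⟨x.p, x.n, b₀, dv₀⟩ c fun y c =>
      rnm P g.lim g.lim g.G g.E y c fun z c => ifb (z.p.beq z.n) (ih k b dv c)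
        (ih (fun b dv r c => k b dv (⟨x.j, x.l, z.p, z.n⟩ :: r) c) (b.add z.b) (lc dv z.dv) c)) l

/-- Substitute in a layer. -/
def subL (P : Par) (lim i : Nat) (t : Po) (T : List Po) (g : Rg) (one : Bool) (l : List En) :
    (List En → Nat → Res) → Nat → Res :=
  List.rec (fun k c => k [] c) (fun x _ ih k c =>
    ifb (ifb one ((x.dv.mod (pr i)).beq (nat_lit 0)) true)
      (subT P lim i t T g x.b x.dv x.t (fun b dv r c => frc b fun b => frc dv fun dv =>
        sml P g.lim b dv (ih (fun l' c => k (⟨x.i, x.w, b, dv, r⟩ :: l') c) c)) (nat_lit 0) (nat_lit 1) c)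
      (ih (fun l' c => k (x :: l') c) c)) l

/-- Substitute in a list of layers. -/
def subLL (P : Par) (lim i : Nat) (t : Po) (T : List Po) (g : Rg) (one : Bool)
    (l : List (List En)) : (List (List En) → Nat → Res) → Nat → Res :=
  List.rec (fun k c => k [] c) (fun x _ ih k c => subL P lim i t T g one x
    (fun x' c => ih (fun l' c => k (x' :: l') c) c) c) l

/-- Substitute in a state. -/
def subS (P : Par) (lim i : Nat) (t : Po) (T : List Po) (g : Rg) (s : St) (c : Nat)
    (k : St → Nat → Res) : Res :=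
  Bool.rec (motive := fun _ => (Bool → Res) → Res) (fun f => f false) (fun f => f true)
    (ifb ((nth ⟨(nat_lit 0), (nat_lit 0), (nat_lit 0), (nat_lit 1)⟩ T (nat_lit 0)).p.beq (nat_lit 1)) ((nth ⟨(nat_lit 0), (nat_lit 0), (nat_lit 0), (nat_lit 1)⟩ T (nat_lit 0)).n.beq (nat_lit 0)) false)
    fun one => St.rec (motive := fun _ => Res) (fun lo cur hi N U j r D =>
      subLL P lim i t T g one lo (fun lo c => subL P lim i t T g one cur
        (fun cur c => subLL P lim i t T g one hi
          (fun hi c => k ⟨lo, cur, hi, N, U, j, r, D⟩ c) c) c) c) s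

/-- A variable as a polynomial. -/
def var (P : Par) (i : Nat) : Po := ⟨p2 (P.be.mul (ww P i)), (nat_lit 0), (nat_lit 1), pr i⟩

/-- The variable is not the root of unity. -/
def nz (P : Par) (i : Nat) : Bool := ifb (P.L.beq (nat_lit 1)) true (Nat.ble (nat_lit 1) i)

/-- Solve an equation: the new region. -/
def solve (P : Par) (g : Rg) (c : Nat) (k : Nat → List Po → Rg → Nat → Res) : Res :=
  pick g.E (c.mod (nat_lit 16)) fun q E => frc (((c.shiftRight (nat_lit 4)).mod (nat_lit 8)).mod (nat_lit 6)) fun i =>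
    chk (nz P i) (frc (g.lim.div (pw P i)) fun lim' => chk ((lim'.mul (pw P i)).beq g.lim)
      (chn ((lim'.mod (pr i)).beq (nat_lit 0)) (rdP P (c.shiftRight (nat_lit 12)) fun u c₁ => rdP P c₁ fun v c₂ =>
        sml P lim' u.b u.dv (sml P lim' v.b v.dv
          (isz P g.lim (ifb (tb c (nat_lit 11)) (padd q (psub (pmul u (var P i)) v))
              (psub q (psub (pmul u (var P i)) v)))
            (uc P g.lim g.G g.E u c₂ fun c₃ => fls (pwT u v ((c.shiftRight (nat_lit 7)).mod (nat_lit 16))) fun T =>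
              subG P g.lim lim' i (var P i) u T g.G (fun G c₄ =>
                subQ P g.lim lim' i (var P i) u T E (fun E c₅ => ifb (tb c₅ (nat_lit 0))
                  (k i T ⟨lim', u :: G, E, g.ec⟩ (c₅.shiftRight (nat_lit 1)))
                  (uc P lim' G E u (c₅.shiftRight (nat_lit 1)) (k i T ⟨lim', G, E, g.ec⟩))) [] c₄)
                [] c₃))))))

/-- Insert into a sorted list. -/
def ins {α : Type} (f : α → Nat) (x : α) (l : List α) : List α :=
  List.rec [x] (fun a t ih => ifb ((f x).ble (f a)) (x :: a :: t) (a :: ih)) l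

/-- Sort a list. -/
def srt {α : Type} (f : α → Nat) (l : List α) : List α := List.rec [] (fun a _ ih => ins f a ih) l

/-- Equality of lists. -/
def eqL {α : Type} (e : α → α → Bool) (l : List α) : List α → Bool :=
  List.rec (fun l' => nil l')
    (fun a _ ih l' => List.rec false (fun b t _ => ifb (e a b) (ih t) false) l') l

/-- Equality of terms. -/
def eqT (x y : Tm) : Bool :=
  ifb (x.j.beq y.j) (ifb (x.l.beq y.l) (ifb (x.p.beq y.p) (x.n.beq y.n) false) false) false

/-- Comparison of entries. -/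
def eqE (lim : Nat) (x y : En) : Bool :=
  ifb (x.i.beq y.i) (ifb (x.w.beq y.w) (ifb (x.b.ble y.b) (ifb ((y.dv.mod x.dv).beq (nat_lit 0))
    (ifb ((lim.mod y.dv).beq (nat_lit 0)) (eqL eqT x.t y.t) false) false) false) false) false

/-- Comparison of layers. -/
def eqY (lim : Nat) (x y : List En) : Bool := eqL (eqE lim) x y

/-- Comparison of polynomials. -/
def eqP (lim : Nat) (x y : Po) : Bool :=
  ifb (x.p.beq y.p) (ifb (x.n.beq y.n) (ifb (x.b.ble y.b) (ifb ((y.dv.mod x.dv).beq (nat_lit 0))
    ((lim.mod y.dv).beq (nat_lit 0)) false) false) false) false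

/-- The key for sorting polynomials. -/
def kyP (x : Po) : Nat := (x.p.mul (nat_lit 3)).add (x.n.mul (nat_lit 5))

/-- Comparison of regions. -/
def eqR (P : Par) (G E : List Po) (g' : Rg) : Bool :=
  ifb ((P.LIM.mod g'.lim).beq (nat_lit 0)) (ifb (ifb (P.L.beq (nat_lit 1)) true ((g'.lim.mod (nat_lit 2)).beq (nat_lit 0)))
    (ifb (eqL (eqP g'.lim) G g'.G) (eqL (eqP g'.lim) E g'.E) false) false) false

/-- Length. -/
def len {α : Type} (l : List α) : Nat := List.rec (nat_lit 0) (fun _ _ ih => ih.add (nat_lit 1)) l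

/-- The outputs that fit into the budget. -/
def fout (n : Nat) (l r : List Out) : List Out :=
  List.rec r (fun o _ ih => ifb ((len o.ty).ble n) (o :: ih) ih) l

/-- Add an output. -/
def addO (o : Out) (l : List Out) : List Out :=
  List.rec [o] (fun x t ih => ifb (ifb (eqL Nat.beq x.ty o.ty) (eqL Nat.beq x.a o.a) false)
    (⟨x.ty, x.a, x.p.add o.p, x.n.add o.n⟩ :: t) (x :: ih)) l

/-- Cancel outputs. -/
def cancel (l : List Out) : List Out :=
  List.rec [] (fun x _ ih => ifb (x.p.beq x.n) ih (⟨x.ty, x.a, x.p.sub x.n, x.n.sub x.p⟩ :: ih))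
    (List.rec (motive := fun _ => List Out) [] (fun o _ ih => addO o ih) l)

/-- Equality of outputs. -/
def eqO (x y : Out) : Bool :=
  ifb (eqL Nat.beq x.ty y.ty) (ifb (eqL Nat.beq x.a y.a) (ifb (x.p.beq y.p) (x.n.beq y.n) false)
    false) false

/-- Equality of nodes. -/
def eqN (x y : Nd) : Bool := ifb (x.w.beq y.w) (x.e.beq y.e) false

/-- The multidegrees of a layer. -/
def wts (l : List En) (r : List Nat) : List Nat := List.rec r (fun x _ ih => x.w :: ih) l

/-- The multidegrees of a list of layers. -/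
def wtsL (l : List (List En)) (r : List Nat) : List Nat := List.rec r (fun x _ ih => wts x ih) l

/-- The multidegrees of a state. -/
def wtsS (s : St) (r : List Nat) : List Nat := wtsL s.lo (wts s.cur (wtsL s.hi r))

/-- The multidegrees of an orbit. -/
def orbW (P : Par) (n : Nat) : Nat → List Nat :=
  Nat.rec (fun _ => []) (fun _ ih w => w :: ih (rot P w)) n

/-- The empty state. -/
def st0 : St := ⟨[], [], [], (nat_lit 0), (nat_lit 0), (nat_lit 0), (nat_lit 0), (nat_lit 1)⟩

/-- The type of the recursive call. -/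
abbrev Go : Type := Md → St → Rg → Nat → List Nat → List Out → Res

/-- Look up a fact. -/
def look (FT : List (List Fc)) (rk c : Nat) (k : Fc → Nat → Res) : Res :=
  chk (((c.mod (nat_lit 16384)).add (nat_lit 1)).ble rk)
    (List.rec (motive := fun _ => Res) Res.no (fun f _ _ => k f (c.shiftRight (nat_lit 14)))
      (Nat.rec (motive := fun _ => List Fc → List Fc) (fun l => l)
        (fun _ ih l => ih (List.rec [] (fun _ t _ => t) l)) (c.mod (nat_lit 128))
        (nth [] FT ((c.mod (nat_lit 16384)).div (nat_lit 128)))))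

/-- Drop leading empty layers. -/
def dropN (l : List (List En)) : List (List En) :=
  List.rec [] (fun x t ih => ifb (nil x) ih (x :: t)) l

/-- The next level. -/
def lvl1 (go : Go) (cur : List En) (hi : List (List En)) (N U j r : Nat) (g : Rg) (c : Nat)
    (t : List Nat) (a : List Out) : Res :=
  ifb (N.beq (nat_lit 0)) (go Md.deg ⟨[], cur, hi, N, U, j, r, (nat_lit 1)⟩ g c t a)
    (bnd (go Md.deg ⟨[], cur, hi, N, U, j, r, (nat_lit 1)⟩ g c t []) fun c t o =>
      chk (nil (cancel o)) (Res.ok c t a))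

/-- The end of a level. -/
def lvl (P : Par) (go : Go) (s : St) (g : Rg) (c : Nat) (t : List Nat) (a : List Out) : Res :=
  sw s.j
    (ifb (ifb (s.r.beq (nat_lit 0)) true (P.lo.ble s.r))
      (ifb g.ec (Res.ok c t a) (go (Md.cnt (wtsS s []) (nat_lit 1) (nat_lit 0)) st0 g c t a)) (Res.ok c t a))
    fun j => St.rec (motive := fun _ => Res) (fun lo cur hi N U _ r _ => srtK En.i cur (fun cur =>
      List.rec (motive := fun _ => Res) (lvl1 go [] [] N U j r g c t a)
        (fun cur hi _ => lvl1 go cur hi N U j r g c t a)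
        (rva (ifb (nil hi) (dropN (cur :: lo)) (cur :: lo)) hi)) []) s

/-- Use a fact about a state. -/
def memo (P : Par) (FT : List (List Fc)) (rk : Nat) (s : St) (td : List Nd) (g : Rg) (c : Nat)
    (t : List Nat) (a : List Out) : Res :=
  look FT rk c fun f c => chk (ifb f.k (eqL eqN td f.td) false)
    (chk (s.j.beq f.st.j) (chk (s.D.beq f.st.D)
    (chk (s.N.beq f.st.N) (chk ((s.U.lor f.st.U).beq f.st.U) (chk (s.r.ble f.st.r)
      (chk (ifb (s.r.beq f.st.r) true (P.lo.ble (f.st.r.sub s.r))) (chk (ifb f.rg.ec g.ec true)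
        (chk (eqR P g.G g.E f.rg) (chk (eqL (eqY f.rg.lim) s.lo f.st.lo)
          (chk (eqY f.rg.lim s.cur f.st.cur)
          (chk (eqL (eqY f.rg.lim) s.hi f.st.hi)
            (Res.ok c t (fout ((((s.j.add (nat_lit 1)).mul s.N)).add s.r) f.o a)))))))))))))

/-- The steps at the start of a degree. -/
def sDeg (P : Par) (FT : List (List Fc)) (rk : Nat) (go : Go) (s : St) (g : Rg) (op c : Nat)
    (t : List Nat) (a : List Out) : Res :=
  sw op (chk ((s.D.add (nat_lit 1)).ble P.B) (ifb (s.D.beq (nat_lit 1))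
      (mkT1 P P.d (fun _ td => go (Md.todo [] td) s g c t a) (nat_lit 0) [])
      (mkTd P (allP s) (fun _ _ td prs => go (Md.todo prs td) s g c t a) (nat_lit 0) (nat_lit 0) [] []))) fun op =>
  sw op (chk (s.r.ble s.j) (lvl P go s g c t a)) fun op =>
  sw op (memo P FT rk s [] g c t a) fun op =>
  sw op (List.rec (motive := fun _ => Res) Res.no
      (fun l _ _ => chk (nil l) (lvl P go s g c t a)) s.lo) fun _ =>
  chk (nil s.hi) (chk (nil s.cur) (chk ((s.r.add s.D).ble P.m) (Res.ok c t a)))

/-- No living predecessor contains the letter. -/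
def deadX (P : Par) (w q : Nat) (l : List En) : Bool :=
  List.rec true (fun x _ ih => ifb (((x.w.div q).mod P.B).beq (nat_lit 0)) ih
    (Nat.rec ih (fun y ih' => ifb ((x.w.add (P.B.pow y)).beq w) false ih') P.d)) l

/-- No node is fixed. -/
def allF (P : Par) (l : List Nd) : Bool :=
  List.rec true (fun x _ ih => ifb (fxb P x.w) false ih) l

/-- The steps inside a degree. -/
def sTodo (P : Par) (go : Go) (prs : List Pr) (td : List Nd) (s : St) (g : Rg) (op c : Nat)
    (t : List Nat) (a : List Out) : Res :=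
  sw op (chk (Nat.ble (nat_lit 2) s.D) (pick td (c.mod (nat_lit 64)) fun x r =>
      cert P g s.cur prs x.w x.e (c.shiftRight (nat_lit 6)) fun l c =>
        chk (nil l) (go (Md.todo prs r) s g c t a))) fun op =>
  sw op (pick td (c.mod (nat_lit 64)) fun x r => Nd.rec (motive := fun _ => Res) (fun w e =>
      bnd (go (Md.node prs w e r) s g (c.shiftRight (nat_lit 6)) t a) (go (Md.todo prs r) s g)) x) fun op =>
  sw op (chk (nil td) (St.rec (motive := fun _ => Res) (fun lo cur hi N U j r D =>
      frc (D.add (nat_lit 1)) fun D => srtK En.i cur (fun cur => List.rec (motive := fun _ => Res)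
        (go Md.deg ⟨cur :: lo, [], [], N, U, j, r, D⟩ g c t a)
        (fun cur' hi _ => go Md.deg ⟨cur :: lo, cur', hi, N, U, j, r, D⟩ g c t a) hi) []) s))
    fun op =>
  sw op (chk (s.r.ble s.j) (lvl P go s g c t a)) fun op =>
  sw op (pick td (c.mod (nat_lit 64)) fun x r => chn (((s.j.add (nat_lit 1)).mul (orN P x.w)).ble s.r)
      (go (Md.todo prs r) s g (c.shiftRight (nat_lit 6)) t a)) fun op =>
  sw op (pick td (c.mod (nat_lit 64)) fun x r => List.rec (motive := fun _ => Res) Res.no
      (fun l _ _ => frc (P.B.pow ((c.shiftRight (nat_lit 6)).mod (nat_lit 8))) fun q =>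
        chk ((((c.shiftRight (nat_lit 6)).mod (nat_lit 8)).add (nat_lit 1)).ble P.d) (chn (((x.w.div q).mod P.B).beq (nat_lit 0))
          (chk (deadX P x.w q l) (go (Md.todo prs r) s g (c.shiftRight (nat_lit 9)) t a)))) s.lo) fun op =>
  sw op (chk (nil s.hi) (chk (((s.r.add s.D).add (nat_lit 1)).ble P.m) (Res.ok c t a))) fun _ =>
  chk (P.d.beq P.L) (chk (s.j.beq (nat_lit 0)) (chk (nil s.hi) (chn ((s.r.mod P.L).beq (nat_lit 0))
    (chk (P.lo.ble P.L) (chk (allF P td)
      (chk (s.r.ble ((((((s.D.add P.L).div P.L).mul P.L).sub s.D).sub (nat_lit 1)).mul P.L))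
        (ifb (P.lo.ble s.r) (St.rec (motive := fun _ => Res) (fun lo cur hi N U j r D =>
          frc (((r.sub P.lo).div P.L).mul P.L) fun r =>
            bnd (go (Md.todo prs td) ⟨lo, cur, hi, N, U, j, r, D⟩ g c t []) fun c t o =>
              chk (nil (cancel o)) (Res.ok c t a)) s) (Res.ok c t a))))))))

/-- Some entry has the multidegree. -/
def hasW (w : Nat) (l : List En) : Bool := List.rec false (fun x _ ih => ifb (x.w.beq w) true ih) l

/-- The steps at a node. -/
def sNode (P : Par) (FT : List (List Fc)) (rk : Nat) (go : Go) (prs : List Pr) (w e : Nat)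
    (rest : List Nd) (s : St) (g : Rg) (op c : Nat) (t : List Nat) (a : List Out) : Res :=
  sw op (chk (Nat.ble (nat_lit 2) s.D) (cert P g s.cur prs w e c fun l c => ifb (nil l) (Res.ok c t a)
      (ifb (ifb (s.j.beq (nat_lit 0)) (s.r.beq (orN P w)) false)
        (ifb g.ec (Res.ok c t a)
          (go (Md.cnt (wtsS s (orbW P (orN P w) w)) (len l) (nat_lit 0)) st0 g c t a))
        (go (Md.pend prs w e rest [] l) s g c t a)))) fun op =>
  sw op (chk (s.D.beq (nat_lit 1)) (chk (ifb (hasW w s.cur) true (ifb (fxb P w) (Nat.ble (nat_lit 1) e) false))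
      (Res.ok c t a))) fun op =>
  sw op (chk (s.D.beq (nat_lit 1)) (chn (hasW w s.cur) (chk (e.beq (nat_lit 0))
      (inst P s g.lim w e (nat_lit 0) (nat_lit 1) [] c fun s' c => go (Md.todo prs rest) s' g c t a)))) fun _ =>
  memo P FT rk s (⟨w, e⟩ :: rest) g c t a

/-- The continuation inside a node, if anything is left. -/
def more (P : Par) (go : Go) (prs : List Pr) (w e : Nat) (rest : List Nd) (A pd : List Kp)
    (s : St) (g : Rg) (c : Nat) (t : List Nat) (a : List Out) : Res :=
  ifb (nil pd) (Res.ok c t a) (ifb (((s.j.add (nat_lit 1)).mul (orN P w)).ble s.r)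
    (go (Md.pend prs w e rest A pd) s g c t a) (Res.ok c t a))

/-- The step inside a node. -/
def sPend (P : Par) (go : Go) (prs : List Pr) (w e : Nat) (rest : List Nd) (A pd : List Kp)
    (s : St) (g : Rg) (c : Nat) (t : List Nat) (a : List Out) : Res :=
  List.rec (motive := fun _ => Res) Res.no (fun x pd _ =>
    cmb P A (fun lim b dv T c => frc lim fun lim => frc b fun b => frc dv fun dv =>
      inst P s lim w e b dv T c fun s' c => Rg.rec (motive := fun _ => Res) (fun _ G E ec =>
        bnd (bnd (go (Md.todo prs rest) s' ⟨lim, G, E, ec⟩ c t a)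
          (more P go prs w e rest A pd s' ⟨lim, G, E, ec⟩))
          (more P go prs w e rest (x :: A) pd s g)) g) g.lim x.b x.dv x.t c) pd

/-- The code of a list of conditions. -/
def encL (k : Nat) (l : List Po) (r : List Nat) : List Nat :=
  List.rec r (fun x _ ih => k :: x.p :: x.n :: ih) l

/-- All polynomials use the allowed variables only. -/
def allD (lim : Nat) (l : List Po) : Bool :=
  List.rec true (fun x _ ih => ifb ((lim.mod x.dv).beq (nat_lit 0)) ih false) l

/-- The steps of the count of a region. -/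
def sCnt (P : Par) (FT : List (List Fc)) (rk : Nat) (go : Go) (ty : List Nat) (p n : Nat)
    (s : St) (g : Rg) (op c : Nat) (t : List Nat) (a : List Out) : Res :=
  sw op (chk (ifb g.ec true (ifb (nil g.G) (nil g.E) false)) (Res.ok c t a)) fun op =>
  sw op (pick g.G (c.mod (nat_lit 16)) fun x G =>
      bnd (go (Md.cnt ty p n) s ⟨g.lim, G, g.E, false⟩ (c.shiftRight (nat_lit 4)) t a)
        (go (Md.cnt ty n p) s ⟨g.lim, G, x :: g.E, false⟩)) fun op =>
  sw op (look FT rk c fun f c => chn f.k
      (chk (eqR P (srt kyP g.G) (srt kyP g.E) f.rg) (Res.ok c t a))) fun op =>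
  sw op (Res.ok c t
      (⟨srt (fun x => x) ty, encL (nat_lit 0) (srt kyP g.G) (encL (nat_lit 1) (srt kyP g.E) []), p, n⟩ :: a)) fun _ =>
  frc ((c.mod (nat_lit 8)).mod (nat_lit 6)) fun i => chk (nz P i) (frc (g.lim.div (pw P i)) fun lim =>
    chk ((lim.mul (pw P i)).beq g.lim) (chk (allD lim g.G) (chk (allD lim g.E)
      (go (Md.cnt ty p n) s ⟨lim, g.G, g.E, g.ec⟩ (c.shiftRight (nat_lit 3)) t a))))

/-- Enter a node with new pairs. -/
def nod (P : Par) (go : Go) (w e : Nat) (rest : List Nd) (s : St) (g : Rg) (c : Nat)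
    (t : List Nat) (a : List Out) : Res :=
  chk (Nat.ble (nat_lit 2) s.D) (frc (msk P (⟨w, e⟩ :: rest)) fun k => flt P k (allP s)
    (fun prs => go (Md.node prs w e rest) s g c t a) [])

/-- The continuation after a substitution. -/
def aft (P : Par) (go : Go) (m : Md) (s : St) (lim i : Nat) (T : List Po) (g : Rg) (c : Nat)
    (t : List Nat) (a : List Out) : Res :=
  Md.rec (motive := fun _ => Res) Res.no (fun _ _ => Res.no)
    (fun _ w e rest => subS P lim i (var P i) T g s c fun s' c => nod P go w e rest s' g c t a)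
    (fun _ _ _ _ _ _ => Res.no) (fun ty p n => go (Md.cnt ty p n) st0 g c t a) m

/-- The steps that change the region. -/
def sReg (P : Par) (go : Go) (m : Md) (s : St) (g : Rg) (op c : Nat) (t : List Nat)
    (a : List Out) : Res :=
  sw op (rdP P c fun x c => sml P g.lim x.b x.dv (ifb (tb c (nat_lit 0))
      (bnd (go (Md.cnt [] (nat_lit 1) (nat_lit 0)) st0 ⟨g.lim, g.G, x :: g.E, false⟩ (c.shiftRight (nat_lit 1)) t [])
        fun c t o => chk (nil (cancel o)) (bnd (go m s ⟨g.lim, x :: g.G, g.E, g.ec⟩ c t a)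
          (go m s ⟨g.lim, g.G, x :: g.E, true⟩)))
      (bnd (go m s ⟨g.lim, x :: g.G, g.E, false⟩ (c.shiftRight (nat_lit 1)) t a)
        (go m s ⟨g.lim, g.G, x :: g.E, false⟩)))) fun op =>
  sw op (solve P g c fun i T g' c => aft P go m s g.lim i T g' c t a) fun op =>
  sw op (uc P g.lim g.G g.E ⟨(nat_lit 0), (nat_lit 0), (nat_lit 0), (nat_lit 1)⟩ c fun c => Res.ok c t a) fun op =>
  sw op (pick g.G (c.mod (nat_lit 16)) fun x G => uc P g.lim G g.E x (c.shiftRight (nat_lit 4)) fun c =>
      go m s ⟨g.lim, G, g.E, g.ec⟩ c t a) fun op =>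
  sw op (pick g.E (c.mod (nat_lit 16)) fun x E => zc P g.lim g.G E x (c.shiftRight (nat_lit 4)) fun c =>
      go m s ⟨g.lim, g.G, E, g.ec⟩ c t a) fun op =>
  sw op (rdP P c fun x c => sml P g.lim x.b x.dv (zc P g.lim g.G g.E x c fun c =>
      go m s ⟨g.lim, g.G, x :: g.E, g.ec⟩ c t a)) fun op =>
  sw op (rdP P c fun x c => sml P g.lim x.b x.dv (uc P g.lim g.G g.E x c fun c =>
      go m s ⟨g.lim, x :: g.G, g.E, g.ec⟩ c t a)) fun op =>
  sw op (frc ((c.mod (nat_lit 8)).mod (nat_lit 6)) fun i => chn ((g.lim.mod (pr i)).beq (nat_lit 0))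
      (rdP P (c.shiftRight (nat_lit 3)) fun u c => rdP P c fun x c => sml P g.lim u.b u.dv
        (sml P g.lim x.b x.dv (uc P g.lim g.G g.E u c fun c =>
          frc (g.lim.mul (pw P i)) fun lim => Po.rec (motive := fun _ => Res)
            (fun p n b dv => fpo p n b dv fun y => sml P lim y.b y.dv
              (go m s ⟨lim, g.G, y :: g.E, g.ec⟩ c t a)) (psub (pmul u (var P i)) x))))) fun _ =>
  bnd (go (Md.cnt [] (nat_lit 1) (nat_lit 0)) st0 ⟨g.lim, g.G, g.E, false⟩ c t []) fun c t o =>
    chk (nil (cancel o)) (go m s ⟨g.lim, g.G, g.E, true⟩ c t a)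

/-- One step with the operation code read. -/
def step1 (P : Par) (FT : List (List Fc)) (rk : Nat) (go : Go) (m : Md) (s : St) (g : Rg)
    (op c : Nat) (t : List Nat) (a : List Out) : Res :=
  ifb (op.ble (nat_lit 9))
    (Md.rec (motive := fun _ => Res) (sDeg P FT rk go s g (op.sub (nat_lit 1)) c t a)
      (fun prs td => sTodo P go prs td s g (op.sub (nat_lit 1)) c t a)
      (fun prs w e rest => sNode P FT rk go prs w e rest s g (op.sub (nat_lit 1)) c t a)
      (fun prs w e rest A pd => sPend P go prs w e rest A pd s g c t a)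
      (fun ty p n => sCnt P FT rk go ty p n s g (op.sub (nat_lit 1)) c t a) m)
    (sReg P go m s g (op.sub (nat_lit 10)) c t a)

/-- One step. -/
def step (P : Par) (FT : List (List Fc)) (rk : Nat) (go : Go) : Go :=
  fun m s g c t a => Nat.rec (motive := fun _ => Res)
    (List.rec (motive := fun _ => Res) Res.no
      (fun c t _ => step1 P FT rk go m s g (c.mod (nat_lit 32)) (c.shiftRight (nat_lit 5)) t a) t)
    (fun c _ => step1 P FT rk go m s g ((c.add (nat_lit 1)).mod (nat_lit 32)) ((c.add (nat_lit 1)).shiftRight (nat_lit 5)) t a) c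

/-- The recursion. -/
def run (P : Par) (FT : List (List Fc)) (rk n : Nat) : Go :=
  Nat.rec (fun _ _ _ _ _ _ => Res.no) (fun _ ih => step P FT rk ih) n

/-- The start of the check of a fact. -/
def strt (P : Par) (go : Go) (f : Fc) (c : Nat) (t : List Nat) : Res :=
  ifb f.k
    (List.rec (motive := fun _ => Res) (go Md.deg f.st f.rg c t [])
      (fun x rest _ => nod P go x.w x.e rest f.st f.rg c t []) f.td)
    (go (Md.cnt [] (nat_lit 1) (nat_lit 0)) st0 ⟨f.rg.lim, f.rg.G, f.rg.E, false⟩ c t [])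

/-- Check the facts with the listed numbers. -/
def chkL (P : Par) (FT : List (List Fc)) (l : List Nat) : Nat → List Nat → Res :=
  List.rec (fun c t => Res.ok c t []) (fun i _ ih c t => look FT (i.add (nat_lit 1)) i fun f _ =>
    bnd (strt P (run P FT i (nat_lit 1000)) f c t) fun c t o =>
      chk (ifb f.k (eqL eqO (cancel o) f.o) (nil (cancel o))) (ih c t)) l

/-- A sparse number. -/
def nb (c s r : Nat) : Nat := (c.shiftLeft s).add r

/-- The result as a Boolean. -/
def chkA (P : Par) (FT : List (List Fc)) (l t : List Nat) : Bool :=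
  Res.rec false (fun _ _ _ => true) (chkL P FT l (nat_lit 0) t)

end

end Pool.Agent.P.MP_8598be_al.Ck
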