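import Pool.Agent.P.MP_8598be_al.Ck.Chk

/-!
Parameters and facts.
-/

namespace Pool.Agent.P.MP_8598be_al.Ck.D2

noncomputable section

/-- The parameters. -/
def par : Par := ⟨(nat_lit 2), (nat_lit 1), (nat_lit 32), (nat_lit 64), (nat_lit 0xffffffffffffffff), (nat_lit 0x20202040608), (nat_lit 0x30000000180000000c0000000300000000800000001), (nat_lit 0xe7f97f80), (nat_lit 32), (nat_lit 32), (nat_lit 1), (nat_lit 1), (nat_lit 8), ⟨(nat_lit 0), (nat_lit 0), (nat_lit 0), (nat_lit 1)⟩⟩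

def e0 : En := ⟨(nat_lit 20), (nat_lit 161), (nat_lit 1), (nat_lit 1), [⟨(nat_lit 0), (nat_lit 18), (nat_lit 1), (nat_lit 0)⟩]⟩
def e1 : En := ⟨(nat_lit 18), (nat_lit 129), (nat_lit 1), (nat_lit 1), [⟨(nat_lit 0), (nat_lit 8), (nat_lit 1), (nat_lit 0)⟩]⟩
def e2 : En := ⟨(nat_lit 8), (nat_lit 97), (nat_lit 1), (nat_lit 1), [⟨(nat_lit 0), (nat_lit 6), (nat_lit 1), (nat_lit 0)⟩]⟩
def e3 : En := ⟨(nat_lit 6), (nat_lit 65), (nat_lit 1), (nat_lit 1), [⟨(nat_lit 0), (nat_lit 4), (nat_lit 1), (nat_lit 0)⟩]⟩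
def e4 : En := ⟨(nat_lit 4), (nat_lit 33), (nat_lit 1), (nat_lit 1), [⟨(nat_lit 0), (nat_lit 2), (nat_lit 1), (nat_lit 0)⟩]⟩
def e5 : En := ⟨(nat_lit 0), (nat_lit 32), (nat_lit 0), (nat_lit 1), []⟩
def e6 : En := ⟨(nat_lit 2), (nat_lit 1), (nat_lit 0), (nat_lit 1), []⟩
def e7 : En := ⟨(nat_lit 18), (nat_lit 98), (nat_lit 2), (nat_lit 1), [⟨(nat_lit 2), (nat_lit 8), (nat_lit 1), (nat_lit 0)⟩, ⟨(nat_lit 4), (nat_lit 6), (nat_lit 0), (nat_lit 1)⟩]⟩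
def e8 : En := ⟨(nat_lit 22), (nat_lit 130), (nat_lit 4), (nat_lit 1), [⟨(nat_lit 0), (nat_lit 18), (nat_lit 1), (nat_lit 0)⟩, ⟨(nat_lit 2), (nat_lit 20), (nat_lit 2), (nat_lit 0)⟩, ⟨(nat_lit 4), (nat_lit 8), (nat_lit 0), (nat_lit 1)⟩]⟩
def e9 : En := ⟨(nat_lit 24), (nat_lit 161), (nat_lit 1), (nat_lit 1), [⟨(nat_lit 0), (nat_lit 20), (nat_lit 1), (nat_lit 0)⟩]⟩
def e10 : En := ⟨(nat_lit 20), (nat_lit 129), (nat_lit 1), (nat_lit 1), [⟨(nat_lit 0), (nat_lit 8), (nat_lit 1), (nat_lit 0)⟩]⟩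
def e11 : En := ⟨(nat_lit 28), (nat_lit 162), (nat_lit 6), (nat_lit 1), [⟨(nat_lit 0), (nat_lit 22), (nat_lit 1), (nat_lit 0)⟩, ⟨(nat_lit 4), (nat_lit 20), (nat_lit 2), (nat_lit 0)⟩, ⟨(nat_lit 6), (nat_lit 8), (nat_lit 0), (nat_lit 3)⟩]⟩
def e12 : En := ⟨(nat_lit 26), (nat_lit 162), (nat_lit 3), (nat_lit 1), [⟨(nat_lit 2), (nat_lit 24), (nat_lit 1), (nat_lit 0)⟩, ⟨(nat_lit 4), (nat_lit 20), (nat_lit 0), (nat_lit 1)⟩, ⟨(nat_lit 6), (nat_lit 8), (nat_lit 1), (nat_lit 0)⟩]⟩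
def e13 : En := ⟨(nat_lit 26), (nat_lit 162), (nat_lit 9), (nat_lit 2), [⟨(nat_lit 0), (nat_lit 22), (nat_lit 1), (nat_lit 0)⟩, ⟨(nat_lit 2), (nat_lit 24), (nat_lit 0x10000000000000000), (nat_lit 0)⟩, ⟨(nat_lit 4), (nat_lit 20), (nat_lit 2), (nat_lit 0x10000000000000000)⟩, ⟨(nat_lit 6), (nat_lit 8), (nat_lit 0x10000000000000000), (nat_lit 3)⟩]⟩
def e14 : En := ⟨(nat_lit 30), (nat_lit 162), (nat_lit 6), (nat_lit 1), [⟨(nat_lit 0), (nat_lit 22), (nat_lit 1), (nat_lit 0)⟩, ⟨(nat_lit 4), (nat_lit 20), (nat_lit 2), (nat_lit 0)⟩, ⟨(nat_lit 6), (nat_lit 8), (nat_lit 0), (nat_lit 3)⟩]⟩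
def e15 : En := ⟨(nat_lit 28), (nat_lit 162), (nat_lit 3), (nat_lit 1), [⟨(nat_lit 2), (nat_lit 24), (nat_lit 1), (nat_lit 0)⟩, ⟨(nat_lit 4), (nat_lit 20), (nat_lit 0), (nat_lit 1)⟩, ⟨(nat_lit 6), (nat_lit 8), (nat_lit 1), (nat_lit 0)⟩]⟩
def e16 : En := ⟨(nat_lit 26), (nat_lit 131), (nat_lit 2), (nat_lit 1), [⟨(nat_lit 2), (nat_lit 22), (nat_lit 1), (nat_lit 0)⟩, ⟨(nat_lit 4), (nat_lit 18), (nat_lit 0), (nat_lit 1)⟩]⟩
def e17 : En := ⟨(nat_lit 28), (nat_lit 162), (nat_lit 9), (nat_lit 2), [⟨(nat_lit 0), (nat_lit 22), (nat_lit 1), (nat_lit 0)⟩, ⟨(nat_lit 2), (nat_lit 24), (nat_lit 0x10000000000000000), (nat_lit 0)⟩, ⟨(nat_lit 4), (nat_lit 20), (nat_lit 2), (nat_lit 0x10000000000000000)⟩, ⟨(nat_lit 6), (nat_lit 8), (nat_lit 0x10000000000000000), (nat_lit 3)⟩]⟩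
def e18 : En := ⟨(nat_lit 18), (nat_lit 67), (nat_lit 2), (nat_lit 1), [⟨(nat_lit 0), (nat_lit 12), (nat_lit 1), (nat_lit 0)⟩, ⟨(nat_lit 4), (nat_lit 10), (nat_lit 1), (nat_lit 0)⟩]⟩
def e19 : En := ⟨(nat_lit 12), (nat_lit 35), (nat_lit 1), (nat_lit 1), [⟨(nat_lit 2), (nat_lit 10), (nat_lit 1), (nat_lit 0)⟩]⟩
def e20 : En := ⟨(nat_lit 10), (nat_lit 34), (nat_lit 1), (nat_lit 1), [⟨(nat_lit 2), (nat_lit 4), (nat_lit 1), (nat_lit 0)⟩]⟩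
def e21 : En := ⟨(nat_lit 22), (nat_lit 38), (nat_lit 1), (nat_lit 1), [⟨(nat_lit 2), (nat_lit 20), (nat_lit 1), (nat_lit 0)⟩]⟩
def e22 : En := ⟨(nat_lit 24), (nat_lit 69), (nat_lit 3), (nat_lit 1), [⟨(nat_lit 0), (nat_lit 20), (nat_lit 1), (nat_lit 0)⟩, ⟨(nat_lit 4), (nat_lit 18), (nat_lit 1), (nat_lit 0)⟩, ⟨(nat_lit 10), (nat_lit 12), (nat_lit 0), (nat_lit 1)⟩]⟩
def e23 : En := ⟨(nat_lit 20), (nat_lit 37), (nat_lit 1), (nat_lit 1), [⟨(nat_lit 2), (nat_lit 18), (nat_lit 1), (nat_lit 0)⟩]⟩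
def e24 : En := ⟨(nat_lit 18), (nat_lit 36), (nat_lit 1), (nat_lit 1), [⟨(nat_lit 2), (nat_lit 12), (nat_lit 1), (nat_lit 0)⟩]⟩
def e25 : En := ⟨(nat_lit 26), (nat_lit 39), (nat_lit 1), (nat_lit 1), [⟨(nat_lit 2), (nat_lit 22), (nat_lit 1), (nat_lit 0)⟩]⟩
def e26 : En := ⟨(nat_lit 22), (nat_lit 37), (nat_lit 1), (nat_lit 1), [⟨(nat_lit 2), (nat_lit 18), (nat_lit 1), (nat_lit 0)⟩]⟩
def e27 : En := ⟨(nat_lit 24), (nat_lit 68), (nat_lit 4), (nat_lit 1), [⟨(nat_lit 0), (nat_lit 18), (nat_lit 2), (nat_lit 0)⟩, ⟨(nat_lit 2), (nat_lit 20), (nat_lit 1), (nat_lit 0)⟩, ⟨(nat_lit 4), (nat_lit 12), (nat_lit 1), (nat_lit 0)⟩]⟩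
def e28 : En := ⟨(nat_lit 20), (nat_lit 67), (nat_lit 2), (nat_lit 1), [⟨(nat_lit 0), (nat_lit 12), (nat_lit 1), (nat_lit 0)⟩, ⟨(nat_lit 4), (nat_lit 10), (nat_lit 1), (nat_lit 0)⟩]⟩
def e29 : En := ⟨(nat_lit 26), (nat_lit 38), (nat_lit 1), (nat_lit 1), [⟨(nat_lit 2), (nat_lit 22), (nat_lit 1), (nat_lit 0)⟩]⟩
def e30 : En := ⟨(nat_lit 28), (nat_lit 69), (nat_lit 6), (nat_lit 1), [⟨(nat_lit 2), (nat_lit 24), (nat_lit 1), (nat_lit 0)⟩, ⟨(nat_lit 4), (nat_lit 18), (nat_lit 0), (nat_lit 2)⟩, ⟨(nat_lit 10), (nat_lit 12), (nat_lit 3), (nat_lit 0)⟩]⟩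
def e31 : En := ⟨(nat_lit 30), (nat_lit 69), (nat_lit 3), (nat_lit 1), [⟨(nat_lit 0), (nat_lit 22), (nat_lit 1), (nat_lit 0)⟩, ⟨(nat_lit 4), (nat_lit 18), (nat_lit 1), (nat_lit 0)⟩, ⟨(nat_lit 10), (nat_lit 12), (nat_lit 0), (nat_lit 1)⟩]⟩
def e32 : En := ⟨(nat_lit 28), (nat_lit 69), (nat_lit 9), (nat_lit 2), [⟨(nat_lit 0), (nat_lit 22), (nat_lit 1), (nat_lit 0)⟩, ⟨(nat_lit 2), (nat_lit 24), (nat_lit 0x10000000000000000), (nat_lit 0)⟩, ⟨(nat_lit 4), (nat_lit 18), (nat_lit 1), (nat_lit 0x20000000000000000)⟩, ⟨(nat_lit 10), (nat_lit 12), (nat_lit 0x30000000000000000), (nat_lit 1)⟩]⟩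
def e33 : En := ⟨(nat_lit 14), (nat_lit 66), (nat_lit 2), (nat_lit 1), [⟨(nat_lit 0), (nat_lit 10), (nat_lit 1), (nat_lit 0)⟩, ⟨(nat_lit 2), (nat_lit 6), (nat_lit 1), (nat_lit 0)⟩]⟩
def e34 : En := ⟨(nat_lit 20), (nat_lit 98), (nat_lit 2), (nat_lit 1), [⟨(nat_lit 0), (nat_lit 14), (nat_lit 1), (nat_lit 0)⟩, ⟨(nat_lit 4), (nat_lit 6), (nat_lit 1), (nat_lit 0)⟩]⟩
def e35 : En := ⟨(nat_lit 22), (nat_lit 129), (nat_lit 1), (nat_lit 1), [⟨(nat_lit 0), (nat_lit 8), (nat_lit 1), (nat_lit 0)⟩]⟩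
def e36 : En := ⟨(nat_lit 24), (nat_lit 130), (nat_lit 3), (nat_lit 1), [⟨(nat_lit 0), (nat_lit 20), (nat_lit 1), (nat_lit 0)⟩, ⟨(nat_lit 2), (nat_lit 22), (nat_lit 0), (nat_lit 1)⟩, ⟨(nat_lit 4), (nat_lit 8), (nat_lit 1), (nat_lit 0)⟩]⟩
def e37 : En := ⟨(nat_lit 26), (nat_lit 130), (nat_lit 4), (nat_lit 1), [⟨(nat_lit 0), (nat_lit 18), (nat_lit 1), (nat_lit 0)⟩, ⟨(nat_lit 2), (nat_lit 22), (nat_lit 2), (nat_lit 0)⟩, ⟨(nat_lit 4), (nat_lit 8), (nat_lit 0), (nat_lit 1)⟩]⟩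
def e38 : En := ⟨(nat_lit 24), (nat_lit 130), (nat_lit 7), (nat_lit 2), [⟨(nat_lit 0), (nat_lit 18), (nat_lit 1), (nat_lit 0)⟩, ⟨(nat_lit 0), (nat_lit 20), (nat_lit 0x10000000000000000), (nat_lit 0)⟩, ⟨(nat_lit 2), (nat_lit 22), (nat_lit 2), (nat_lit 0x10000000000000000)⟩, ⟨(nat_lit 4), (nat_lit 8), (nat_lit 0x10000000000000000), (nat_lit 1)⟩]⟩
def e39 : En := ⟨(nat_lit 26), (nat_lit 161), (nat_lit 1), (nat_lit 1), [⟨(nat_lit 0), (nat_lit 22), (nat_lit 1), (nat_lit 0)⟩]⟩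
def e40 : En := ⟨(nat_lit 26), (nat_lit 130), (nat_lit 3), (nat_lit 1), [⟨(nat_lit 0), (nat_lit 20), (nat_lit 1), (nat_lit 0)⟩, ⟨(nat_lit 2), (nat_lit 22), (nat_lit 0), (nat_lit 1)⟩, ⟨(nat_lit 4), (nat_lit 8), (nat_lit 1), (nat_lit 0)⟩]⟩
def e41 : En := ⟨(nat_lit 24), (nat_lit 99), (nat_lit 6), (nat_lit 1), [⟨(nat_lit 2), (nat_lit 18), (nat_lit 3), (nat_lit 0)⟩, ⟨(nat_lit 2), (nat_lit 20), (nat_lit 1), (nat_lit 0)⟩, ⟨(nat_lit 4), (nat_lit 14), (nat_lit 0), (nat_lit 1)⟩, ⟨(nat_lit 6), (nat_lit 10), (nat_lit 1), (nat_lit 0)⟩]⟩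
def e42 : En := ⟨(nat_lit 28), (nat_lit 130), (nat_lit 4), (nat_lit 1), [⟨(nat_lit 0), (nat_lit 18), (nat_lit 1), (nat_lit 0)⟩, ⟨(nat_lit 2), (nat_lit 22), (nat_lit 2), (nat_lit 0)⟩, ⟨(nat_lit 4), (nat_lit 8), (nat_lit 0), (nat_lit 1)⟩]⟩
def e43 : En := ⟨(nat_lit 26), (nat_lit 130), (nat_lit 7), (nat_lit 2), [⟨(nat_lit 0), (nat_lit 18), (nat_lit 1), (nat_lit 0)⟩, ⟨(nat_lit 0), (nat_lit 20), (nat_lit 0x10000000000000000), (nat_lit 0)⟩, ⟨(nat_lit 2), (nat_lit 22), (nat_lit 2), (nat_lit 0x10000000000000000)⟩, ⟨(nat_lit 4), (nat_lit 8), (nat_lit 0x10000000000000000), (nat_lit 1)⟩]⟩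
def e44 : En := ⟨(nat_lit 28), (nat_lit 131), (nat_lit 15), (nat_lit 6), [⟨(nat_lit 0), (nat_lit 24), (nat_lit 1), (nat_lit 0)⟩, ⟨(nat_lit 2), (nat_lit 26), (nb (nat_lit 1) (nat_lit 512) (nat_lit 0)), (nat_lit 0)⟩, ⟨(nat_lit 4), (nat_lit 18), (nat_lit 3), (nb (nat_lit 1) (nat_lit 512) (nat_lit 0))⟩, ⟨(nat_lit 4), (nat_lit 20), (nat_lit 1), (nb (nat_lit 1) (nat_lit 576) (nat_lit 0))⟩, ⟨(nat_lit 6), (nat_lit 14), (nb (nat_lit 1) (nat_lit 576) (nat_lit 0)), (nat_lit 2)⟩, ⟨(nat_lit 8), (nat_lit 10), (nat_lit 3), (nb (nat_lit 1) (nat_lit 576) (nat_lit 0))⟩]⟩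
def e45 : En := ⟨(nat_lit 28), (nat_lit 161), (nat_lit 1), (nat_lit 1), [⟨(nat_lit 0), (nat_lit 22), (nat_lit 1), (nat_lit 0)⟩]⟩
def e46 : En := ⟨(nat_lit 22), (nat_lit 130), (nat_lit 6), (nat_lit 2), [⟨(nat_lit 0), (nat_lit 18), (nat_lit 1), (nat_lit 0)⟩, ⟨(nat_lit 2), (nat_lit 20), (nat_lit 0x20000000000000000), (nat_lit 1)⟩, ⟨(nat_lit 4), (nat_lit 8), (nat_lit 1), (nat_lit 0x10000000000000000)⟩]⟩
def e47 : En := ⟨(nat_lit 18), (nat_lit 98), (nat_lit 4), (nat_lit 2), [⟨(nat_lit 0), (nat_lit 14), (nat_lit 1), (nat_lit 0)⟩, ⟨(nat_lit 2), (nat_lit 8), (nat_lit 0x10000000000000000), (nat_lit 0)⟩, ⟨(nat_lit 4), (nat_lit 6), (nat_lit 1), (nat_lit 0x10000000000000000)⟩]⟩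
def e48 : En := ⟨(nat_lit 26), (nat_lit 162), (nat_lit 12), (nat_lit 6), [⟨(nat_lit 0), (nat_lit 22), (nat_lit 1), (nat_lit 0)⟩, ⟨(nat_lit 2), (nat_lit 24), (nb (nat_lit 1) (nat_lit 512) (nat_lit 0)), (nat_lit 0)⟩, ⟨(nat_lit 4), (nat_lit 20), (nat_lit 0x20000000000000000), (nb (nat_lit 1) (nat_lit 512) (nat_lit 1))⟩, ⟨(nat_lit 6), (nat_lit 8), (nb (nat_lit 1) (nat_lit 512) (nat_lit 2)), (nat_lit 0x30000000000000000)⟩]⟩
def e49 : En := ⟨(nat_lit 26), (nat_lit 131), (nat_lit 4), (nat_lit 1), [⟨(nat_lit 2), (nat_lit 22), (nat_lit 1), (nat_lit 0)⟩, ⟨(nat_lit 4), (nat_lit 18), (nat_lit 0), (nat_lit 1)⟩, ⟨(nat_lit 6), (nat_lit 14), (nat_lit 1), (nat_lit 0)⟩, ⟨(nat_lit 8), (nat_lit 10), (nat_lit 0), (nat_lit 1)⟩]⟩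
def e50 : En := ⟨(nat_lit 28), (nat_lit 162), (nat_lit 12), (nat_lit 6), [⟨(nat_lit 0), (nat_lit 22), (nat_lit 1), (nat_lit 0)⟩, ⟨(nat_lit 2), (nat_lit 24), (nb (nat_lit 1) (nat_lit 512) (nat_lit 0)), (nat_lit 0)⟩, ⟨(nat_lit 4), (nat_lit 20), (nat_lit 0x20000000000000000), (nb (nat_lit 1) (nat_lit 512) (nat_lit 1))⟩, ⟨(nat_lit 6), (nat_lit 8), (nb (nat_lit 1) (nat_lit 512) (nat_lit 2)), (nat_lit 0x30000000000000000)⟩]⟩
def e51 : En := ⟨(nat_lit 22), (nat_lit 99), (nat_lit 3), (nat_lit 1), [⟨(nat_lit 2), (nat_lit 18), (nat_lit 1), (nat_lit 0)⟩, ⟨(nat_lit 4), (nat_lit 14), (nat_lit 0), (nat_lit 1)⟩, ⟨(nat_lit 6), (nat_lit 10), (nat_lit 1), (nat_lit 0)⟩]⟩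
def e52 : En := ⟨(nat_lit 24), (nat_lit 130), (nat_lit 8), (nat_lit 1), [⟨(nat_lit 0), (nat_lit 18), (nat_lit 1), (nat_lit 0)⟩, ⟨(nat_lit 2), (nat_lit 20), (nat_lit 5), (nat_lit 0)⟩, ⟨(nat_lit 4), (nat_lit 8), (nat_lit 0), (nat_lit 2)⟩]⟩
def e53 : En := ⟨(nat_lit 26), (nat_lit 161), (nat_lit 1), (nat_lit 1), [⟨(nat_lit 0), (nat_lit 20), (nat_lit 1), (nat_lit 0)⟩]⟩
def e54 : En := ⟨(nat_lit 18), (nat_lit 98), (nat_lit 6), (nat_lit 1), [⟨(nat_lit 0), (nat_lit 14), (nat_lit 1), (nat_lit 0)⟩, ⟨(nat_lit 2), (nat_lit 8), (nat_lit 3), (nat_lit 0)⟩, ⟨(nat_lit 4), (nat_lit 6), (nat_lit 0), (nat_lit 2)⟩]⟩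
def e55 : En := ⟨(nat_lit 18), (nat_lit 67), (nat_lit 2), (nat_lit 1), [⟨(nat_lit 2), (nat_lit 14), (nat_lit 1), (nat_lit 0)⟩, ⟨(nat_lit 4), (nat_lit 10), (nat_lit 0), (nat_lit 1)⟩]⟩
def e56 : En := ⟨(nat_lit 20), (nat_lit 98), (nat_lit 2), (nat_lit 1), [⟨(nat_lit 2), (nat_lit 8), (nat_lit 1), (nat_lit 0)⟩, ⟨(nat_lit 4), (nat_lit 6), (nat_lit 0), (nat_lit 1)⟩]⟩
def e57 : En := ⟨(nat_lit 26), (nat_lit 130), (nat_lit 4), (nat_lit 1), [⟨(nat_lit 0), (nat_lit 20), (nat_lit 1), (nat_lit 0)⟩, ⟨(nat_lit 2), (nat_lit 22), (nat_lit 2), (nat_lit 0)⟩, ⟨(nat_lit 4), (nat_lit 8), (nat_lit 0), (nat_lit 1)⟩]⟩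
def e58 : En := ⟨(nat_lit 24), (nat_lit 99), (nat_lit 7), (nat_lit 1), [⟨(nat_lit 0), (nat_lit 18), (nat_lit 1), (nat_lit 0)⟩, ⟨(nat_lit 2), (nat_lit 20), (nat_lit 0), (nat_lit 3)⟩, ⟨(nat_lit 4), (nat_lit 14), (nat_lit 1), (nat_lit 0)⟩, ⟨(nat_lit 6), (nat_lit 10), (nat_lit 0), (nat_lit 2)⟩]⟩
def e59 : En := ⟨(nat_lit 24), (nat_lit 99), (nat_lit 6), (nat_lit 1), [⟨(nat_lit 2), (nat_lit 20), (nat_lit 3), (nat_lit 0)⟩, ⟨(nat_lit 2), (nat_lit 22), (nat_lit 1), (nat_lit 0)⟩, ⟨(nat_lit 4), (nat_lit 14), (nat_lit 0), (nat_lit 1)⟩, ⟨(nat_lit 6), (nat_lit 10), (nat_lit 1), (nat_lit 0)⟩]⟩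
def e60 : En := ⟨(nat_lit 26), (nat_lit 99), (nat_lit 7), (nat_lit 1), [⟨(nat_lit 0), (nat_lit 18), (nat_lit 1), (nat_lit 0)⟩, ⟨(nat_lit 2), (nat_lit 20), (nat_lit 0), (nat_lit 3)⟩, ⟨(nat_lit 4), (nat_lit 14), (nat_lit 1), (nat_lit 0)⟩, ⟨(nat_lit 6), (nat_lit 10), (nat_lit 0), (nat_lit 2)⟩]⟩
def e61 : En := ⟨(nat_lit 22), (nat_lit 98), (nat_lit 2), (nat_lit 1), [⟨(nat_lit 0), (nat_lit 14), (nat_lit 1), (nat_lit 0)⟩, ⟨(nat_lit 4), (nat_lit 6), (nat_lit 1), (nat_lit 0)⟩]⟩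
def e62 : En := ⟨(nat_lit 28), (nat_lit 130), (nat_lit 4), (nat_lit 1), [⟨(nat_lit 0), (nat_lit 20), (nat_lit 1), (nat_lit 0)⟩, ⟨(nat_lit 0), (nat_lit 22), (nat_lit 2), (nat_lit 0)⟩, ⟨(nat_lit 4), (nat_lit 8), (nat_lit 1), (nat_lit 0)⟩]⟩
def e63 : En := ⟨(nat_lit 24), (nat_lit 99), (nat_lit 13), (nat_lit 2), [⟨(nat_lit 0), (nat_lit 18), (nat_lit 1), (nat_lit 0)⟩, ⟨(nat_lit 2), (nat_lit 20), (nat_lit 0x30000000000000000), (nat_lit 3)⟩, ⟨(nat_lit 2), (nat_lit 22), (nat_lit 0x10000000000000000), (nat_lit 0)⟩, ⟨(nat_lit 4), (nat_lit 14), (nat_lit 1), (nat_lit 0x10000000000000000)⟩, ⟨(nat_lit 6), (nat_lit 10), (nat_lit 0x10000000000000000), (nat_lit 2)⟩]⟩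
def e64 : En := ⟨(nat_lit 26), (nat_lit 130), (nat_lit 4), (nat_lit 1), [⟨(nat_lit 0), (nat_lit 20), (nat_lit 1), (nat_lit 0)⟩, ⟨(nat_lit 0), (nat_lit 22), (nat_lit 2), (nat_lit 0)⟩, ⟨(nat_lit 4), (nat_lit 8), (nat_lit 1), (nat_lit 0)⟩]⟩
def e65 : En := ⟨(nat_lit 26), (nat_lit 130), (nat_lit 3), (nat_lit 1), [⟨(nat_lit 0), (nat_lit 22), (nat_lit 1), (nat_lit 0)⟩, ⟨(nat_lit 2), (nat_lit 24), (nat_lit 0), (nat_lit 1)⟩, ⟨(nat_lit 4), (nat_lit 8), (nat_lit 1), (nat_lit 0)⟩]⟩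
def e66 : En := ⟨(nat_lit 28), (nat_lit 130), (nat_lit 4), (nat_lit 1), [⟨(nat_lit 0), (nat_lit 20), (nat_lit 1), (nat_lit 0)⟩, ⟨(nat_lit 2), (nat_lit 24), (nat_lit 2), (nat_lit 0)⟩, ⟨(nat_lit 4), (nat_lit 8), (nat_lit 0), (nat_lit 1)⟩]⟩
def e67 : En := ⟨(nat_lit 24), (nat_lit 129), (nat_lit 1), (nat_lit 1), [⟨(nat_lit 0), (nat_lit 8), (nat_lit 1), (nat_lit 0)⟩]⟩
def e68 : En := ⟨(nat_lit 26), (nat_lit 130), (nat_lit 7), (nat_lit 2), [⟨(nat_lit 0), (nat_lit 20), (nat_lit 1), (nat_lit 0)⟩, ⟨(nat_lit 0), (nat_lit 22), (nat_lit 0x10000000000000000), (nat_lit 0)⟩, ⟨(nat_lit 2), (nat_lit 24), (nat_lit 2), (nat_lit 0x10000000000000000)⟩, ⟨(nat_lit 4), (nat_lit 8), (nat_lit 0x10000000000000000), (nat_lit 1)⟩]⟩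
def e69 : En := ⟨(nat_lit 26), (nat_lit 99), (nat_lit 6), (nat_lit 1), [⟨(nat_lit 2), (nat_lit 20), (nat_lit 3), (nat_lit 0)⟩, ⟨(nat_lit 2), (nat_lit 22), (nat_lit 1), (nat_lit 0)⟩, ⟨(nat_lit 4), (nat_lit 14), (nat_lit 0), (nat_lit 1)⟩, ⟨(nat_lit 6), (nat_lit 10), (nat_lit 1), (nat_lit 0)⟩]⟩
def e70 : En := ⟨(nat_lit 28), (nat_lit 130), (nat_lit 7), (nat_lit 2), [⟨(nat_lit 0), (nat_lit 20), (nat_lit 1), (nat_lit 0)⟩, ⟨(nat_lit 0), (nat_lit 22), (nat_lit 0x10000000000000000), (nat_lit 0)⟩, ⟨(nat_lit 2), (nat_lit 24), (nat_lit 2), (nat_lit 0x10000000000000000)⟩, ⟨(nat_lit 4), (nat_lit 8), (nat_lit 0x10000000000000000), (nat_lit 1)⟩]⟩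
def e71 : En := ⟨(nat_lit 28), (nat_lit 99), (nat_lit 7), (nat_lit 1), [⟨(nat_lit 0), (nat_lit 18), (nat_lit 1), (nat_lit 0)⟩, ⟨(nat_lit 2), (nat_lit 20), (nat_lit 0), (nat_lit 3)⟩, ⟨(nat_lit 4), (nat_lit 14), (nat_lit 1), (nat_lit 0)⟩, ⟨(nat_lit 6), (nat_lit 10), (nat_lit 0), (nat_lit 2)⟩]⟩
def e72 : En := ⟨(nat_lit 26), (nat_lit 99), (nat_lit 13), (nat_lit 2), [⟨(nat_lit 0), (nat_lit 18), (nat_lit 1), (nat_lit 0)⟩, ⟨(nat_lit 2), (nat_lit 20), (nat_lit 0x30000000000000000), (nat_lit 3)⟩, ⟨(nat_lit 2), (nat_lit 22), (nat_lit 0x10000000000000000), (nat_lit 0)⟩, ⟨(nat_lit 4), (nat_lit 14), (nat_lit 1), (nat_lit 0x10000000000000000)⟩, ⟨(nat_lit 6), (nat_lit 10), (nat_lit 0x10000000000000000), (nat_lit 2)⟩]⟩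
def e73 : En := ⟨(nat_lit 28), (nat_lit 130), (nat_lit 3), (nat_lit 1), [⟨(nat_lit 0), (nat_lit 22), (nat_lit 1), (nat_lit 0)⟩, ⟨(nat_lit 2), (nat_lit 24), (nat_lit 0), (nat_lit 1)⟩, ⟨(nat_lit 4), (nat_lit 8), (nat_lit 1), (nat_lit 0)⟩]⟩
def e74 : En := ⟨(nat_lit 28), (nat_lit 130), (nat_lit 7), (nat_lit 3), [⟨(nat_lit 0), (nat_lit 20), (nat_lit 1), (nat_lit 0)⟩, ⟨(nat_lit 0), (nat_lit 22), (nb (nat_lit 1) (nat_lit 512) (nat_lit 0)), (nat_lit 0)⟩, ⟨(nat_lit 2), (nat_lit 24), (nat_lit 2), (nb (nat_lit 1) (nat_lit 512) (nat_lit 0))⟩, ⟨(nat_lit 4), (nat_lit 8), (nb (nat_lit 1) (nat_lit 512) (nat_lit 0)), (nat_lit 1)⟩]⟩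
def e75 : En := ⟨(nat_lit 20), (nat_lit 98), (nat_lit 4), (nat_lit 2), [⟨(nat_lit 0), (nat_lit 14), (nat_lit 1), (nat_lit 0)⟩, ⟨(nat_lit 2), (nat_lit 8), (nat_lit 0x10000000000000000), (nat_lit 0)⟩, ⟨(nat_lit 4), (nat_lit 6), (nat_lit 1), (nat_lit 0x10000000000000000)⟩]⟩
def e76 : En := ⟨(nat_lit 22), (nat_lit 99), (nat_lit 13), (nat_lit 2), [⟨(nat_lit 0), (nat_lit 18), (nat_lit 0x10000000000000000), (nat_lit 3)⟩, ⟨(nat_lit 2), (nat_lit 20), (nat_lit 0), (nat_lit 3)⟩, ⟨(nat_lit 4), (nat_lit 14), (nat_lit 0x10000000000000000), (nat_lit 0)⟩, ⟨(nat_lit 6), (nat_lit 10), (nat_lit 3), (nat_lit 0x20000000000000000)⟩]⟩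
def e77 : En := ⟨(nat_lit 24), (nat_lit 130), (nat_lit 6), (nat_lit 2), [⟨(nat_lit 0), (nat_lit 20), (nat_lit 1), (nat_lit 0)⟩, ⟨(nat_lit 2), (nat_lit 22), (nat_lit 0x20000000000000000), (nat_lit 1)⟩, ⟨(nat_lit 4), (nat_lit 8), (nat_lit 1), (nat_lit 0x10000000000000000)⟩]⟩
def e78 : En := ⟨(nat_lit 24), (nat_lit 99), (nat_lit 13), (nat_lit 2), [⟨(nat_lit 0), (nat_lit 18), (nat_lit 0x10000000000000000), (nat_lit 3)⟩, ⟨(nat_lit 2), (nat_lit 20), (nat_lit 0), (nat_lit 3)⟩, ⟨(nat_lit 4), (nat_lit 14), (nat_lit 0x10000000000000000), (nat_lit 0)⟩, ⟨(nat_lit 6), (nat_lit 10), (nat_lit 3), (nat_lit 0x20000000000000000)⟩]⟩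
def e79 : En := ⟨(nat_lit 26), (nat_lit 130), (nat_lit 6), (nat_lit 2), [⟨(nat_lit 0), (nat_lit 20), (nat_lit 1), (nat_lit 0)⟩, ⟨(nat_lit 2), (nat_lit 22), (nat_lit 0x20000000000000000), (nat_lit 1)⟩, ⟨(nat_lit 4), (nat_lit 8), (nat_lit 1), (nat_lit 0x10000000000000000)⟩]⟩
def e80 : En := ⟨(nat_lit 28), (nat_lit 131), (nat_lit 15), (nat_lit 6), [⟨(nat_lit 0), (nat_lit 24), (nat_lit 1), (nat_lit 0)⟩, ⟨(nat_lit 2), (nat_lit 26), (nb (nat_lit 1) (nat_lit 512) (nat_lit 0)), (nat_lit 0)⟩, ⟨(nat_lit 4), (nat_lit 20), (nat_lit 0), (nb (nat_lit 1) (nat_lit 512) (nat_lit 3))⟩, ⟨(nat_lit 6), (nat_lit 14), (nb (nat_lit 1) (nat_lit 512) (nat_lit 0x10000000000000003)), (nat_lit 0)⟩, ⟨(nat_lit 8), (nat_lit 10), (nat_lit 0), (nb (nat_lit 1) (nat_lit 512) (nb (nat_lit 3) (nat_lit 64) (nat_lit 0)))⟩]⟩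
def e81 : En := ⟨(nat_lit 28), (nat_lit 100), (nat_lit 10), (nat_lit 2), [⟨(nat_lit 2), (nat_lit 24), (nat_lit 1), (nat_lit 0)⟩, ⟨(nat_lit 4), (nat_lit 18), (nat_lit 3), (nat_lit 0x10000000000000000)⟩, ⟨(nat_lit 10), (nat_lit 14), (nat_lit 0x20000000000000000), (nat_lit 3)⟩]⟩
def e82 : En := ⟨(nat_lit 30), (nat_lit 131), (nat_lit 15), (nat_lit 6), [⟨(nat_lit 0), (nat_lit 24), (nat_lit 1), (nat_lit 0)⟩, ⟨(nat_lit 2), (nat_lit 26), (nb (nat_lit 1) (nat_lit 512) (nat_lit 0)), (nat_lit 0)⟩, ⟨(nat_lit 4), (nat_lit 20), (nat_lit 0), (nb (nat_lit 1) (nat_lit 512) (nat_lit 3))⟩, ⟨(nat_lit 6), (nat_lit 14), (nb (nat_lit 1) (nat_lit 512) (nat_lit 0x10000000000000003)), (nat_lit 0)⟩, ⟨(nat_lit 8), (nat_lit 10), (nat_lit 0), (nb (nat_lit 1) (nat_lit 512) (nb (nat_lit 3) (nat_lit 64) (nat_lit 0)))⟩]⟩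
def e83 : En := ⟨(nat_lit 24), (nat_lit 99), (nat_lit 3), (nat_lit 1), [⟨(nat_lit 0), (nat_lit 18), (nat_lit 1), (nat_lit 0)⟩, ⟨(nat_lit 2), (nat_lit 20), (nat_lit 1), (nat_lit 0)⟩, ⟨(nat_lit 6), (nat_lit 10), (nat_lit 1), (nat_lit 0)⟩]⟩
def e84 : En := ⟨(nat_lit 24), (nat_lit 37), (nat_lit 1), (nat_lit 1), [⟨(nat_lit 2), (nat_lit 18), (nat_lit 1), (nat_lit 0)⟩]⟩
def e85 : En := ⟨(nat_lit 26), (nat_lit 68), (nat_lit 4), (nat_lit 1), [⟨(nat_lit 0), (nat_lit 18), (nat_lit 2), (nat_lit 0)⟩, ⟨(nat_lit 2), (nat_lit 20), (nat_lit 1), (nat_lit 0)⟩, ⟨(nat_lit 4), (nat_lit 12), (nat_lit 1), (nat_lit 0)⟩]⟩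
def e86 : En := ⟨(nat_lit 22), (nat_lit 98), (nat_lit 2), (nat_lit 1), [⟨(nat_lit 2), (nat_lit 8), (nat_lit 1), (nat_lit 0)⟩, ⟨(nat_lit 4), (nat_lit 6), (nat_lit 0), (nat_lit 1)⟩]⟩
def e87 : En := ⟨(nat_lit 26), (nat_lit 37), (nat_lit 1), (nat_lit 1), [⟨(nat_lit 2), (nat_lit 18), (nat_lit 1), (nat_lit 0)⟩]⟩
def e88 : En := ⟨(nat_lit 24), (nat_lit 99), (nat_lit 7), (nat_lit 1), [⟨(nat_lit 0), (nat_lit 20), (nat_lit 3), (nat_lit 0)⟩, ⟨(nat_lit 2), (nat_lit 22), (nat_lit 0), (nat_lit 1)⟩, ⟨(nat_lit 4), (nat_lit 14), (nat_lit 1), (nat_lit 0)⟩, ⟨(nat_lit 6), (nat_lit 10), (nat_lit 2), (nat_lit 0)⟩]⟩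
def e89 : En := ⟨(nat_lit 26), (nat_lit 99), (nat_lit 6), (nat_lit 1), [⟨(nat_lit 0), (nat_lit 18), (nat_lit 1), (nat_lit 0)⟩, ⟨(nat_lit 0), (nat_lit 20), (nat_lit 3), (nat_lit 0)⟩, ⟨(nat_lit 4), (nat_lit 14), (nat_lit 1), (nat_lit 0)⟩, ⟨(nat_lit 6), (nat_lit 10), (nat_lit 1), (nat_lit 0)⟩]⟩
def e90 : En := ⟨(nat_lit 24), (nat_lit 68), (nat_lit 4), (nat_lit 1), [⟨(nat_lit 2), (nat_lit 18), (nat_lit 2), (nat_lit 0)⟩, ⟨(nat_lit 2), (nat_lit 20), (nat_lit 1), (nat_lit 0)⟩, ⟨(nat_lit 4), (nat_lit 12), (nat_lit 0), (nat_lit 1)⟩]⟩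
def e91 : En := ⟨(nat_lit 26), (nat_lit 99), (nat_lit 7), (nat_lit 1), [⟨(nat_lit 0), (nat_lit 20), (nat_lit 3), (nat_lit 0)⟩, ⟨(nat_lit 2), (nat_lit 22), (nat_lit 0), (nat_lit 1)⟩, ⟨(nat_lit 4), (nat_lit 14), (nat_lit 1), (nat_lit 0)⟩, ⟨(nat_lit 6), (nat_lit 10), (nat_lit 2), (nat_lit 0)⟩]⟩
def e92 : En := ⟨(nat_lit 28), (nat_lit 99), (nat_lit 6), (nat_lit 1), [⟨(nat_lit 0), (nat_lit 18), (nat_lit 1), (nat_lit 0)⟩, ⟨(nat_lit 0), (nat_lit 20), (nat_lit 3), (nat_lit 0)⟩, ⟨(nat_lit 4), (nat_lit 14), (nat_lit 1), (nat_lit 0)⟩, ⟨(nat_lit 6), (nat_lit 10), (nat_lit 1), (nat_lit 0)⟩]⟩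
def e93 : En := ⟨(nat_lit 26), (nat_lit 99), (nat_lit 13), (nat_lit 2), [⟨(nat_lit 0), (nat_lit 18), (nat_lit 1), (nat_lit 0)⟩, ⟨(nat_lit 0), (nat_lit 20), (nat_lit 0x30000000000000003), (nat_lit 0)⟩, ⟨(nat_lit 2), (nat_lit 22), (nat_lit 0), (nat_lit 0x10000000000000000)⟩, ⟨(nat_lit 4), (nat_lit 14), (nat_lit 0x10000000000000001), (nat_lit 0)⟩, ⟨(nat_lit 6), (nat_lit 10), (nat_lit 0x20000000000000001), (nat_lit 0)⟩]⟩
def e94 : En := ⟨(nat_lit 28), (nat_lit 100), (nat_lit 25), (nat_lit 6), [⟨(nat_lit 0), (nat_lit 24), (nat_lit 1), (nat_lit 0)⟩, ⟨(nat_lit 2), (nat_lit 26), (nb (nat_lit 1) (nat_lit 512) (nat_lit 0)), (nat_lit 0)⟩, ⟨(nat_lit 4), (nat_lit 18), (nat_lit 2), (nb (nat_lit 1) (nat_lit 512) (nat_lit 0))⟩, ⟨(nat_lit 4), (nat_lit 20), (nat_lit 1), (nb (nat_lit 0x30000000000000003) (nat_lit 512) (nat_lit 0))⟩, ⟨(nat_lit 6), (nat_lit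 12), (nb (nat_lit 0x30000000000000003) (nat_lit 512) (nat_lit 0)), (nat_lit 2)⟩, ⟨(nat_lit 10), (nat_lit 14), (nb (nat_lit 0x10000000000000002) (nat_lit 512) (nat_lit 0)), (nat_lit 2)⟩]⟩
def e95 : En := ⟨(nat_lit 18), (nat_lit 67), (nat_lit 4), (nat_lit 2), [⟨(nat_lit 0), (nat_lit 12), (nat_lit 1), (nat_lit 0)⟩, ⟨(nat_lit 2), (nat_lit 14), (nat_lit 0x10000000000000000), (nat_lit 0)⟩, ⟨(nat_lit 4), (nat_lit 10), (nat_lit 1), (nat_lit 0x10000000000000000)⟩]⟩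
def e96 : En := ⟨(nat_lit 24), (nat_lit 68), (nat_lit 3), (nat_lit 1), [⟨(nat_lit 0), (nat_lit 18), (nat_lit 1), (nat_lit 0)⟩, ⟨(nat_lit 2), (nat_lit 20), (nat_lit 0), (nat_lit 1)⟩, ⟨(nat_lit 4), (nat_lit 12), (nat_lit 1), (nat_lit 0)⟩]⟩
def e97 : En := ⟨(nat_lit 20), (nat_lit 67), (nat_lit 2), (nat_lit 1), [⟨(nat_lit 2), (nat_lit 14), (nat_lit 1), (nat_lit 0)⟩, ⟨(nat_lit 4), (nat_lit 10), (nat_lit 0), (nat_lit 1)⟩]⟩
def e98 : En := ⟨(nat_lit 26), (nat_lit 68), (nat_lit 3), (nat_lit 1), [⟨(nat_lit 0), (nat_lit 18), (nat_lit 1), (nat_lit 0)⟩, ⟨(nat_lit 2), (nat_lit 20), (nat_lit 0), (nat_lit 1)⟩, ⟨(nat_lit 4), (nat_lit 12), (nat_lit 1), (nat_lit 0)⟩]⟩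
def e99 : En := ⟨(nat_lit 22), (nat_lit 67), (nat_lit 2), (nat_lit 1), [⟨(nat_lit 0), (nat_lit 12), (nat_lit 1), (nat_lit 0)⟩, ⟨(nat_lit 4), (nat_lit 10), (nat_lit 1), (nat_lit 0)⟩]⟩
def e100 : En := ⟨(nat_lit 24), (nat_lit 68), (nat_lit 4), (nat_lit 1), [⟨(nat_lit 2), (nat_lit 20), (nat_lit 2), (nat_lit 0)⟩, ⟨(nat_lit 2), (nat_lit 22), (nat_lit 1), (nat_lit 0)⟩, ⟨(nat_lit 4), (nat_lit 12), (nat_lit 0), (nat_lit 1)⟩]⟩
def e101 : En := ⟨(nat_lit 28), (nat_lit 99), (nat_lit 6), (nat_lit 1), [⟨(nat_lit 0), (nat_lit 20), (nat_lit 1), (nat_lit 0)⟩, ⟨(nat_lit 0), (nat_lit 22), (nat_lit 3), (nat_lit 0)⟩, ⟨(nat_lit 4), (nat_lit 14), (nat_lit 1), (nat_lit 0)⟩, ⟨(nat_lit 6), (nat_lit 10), (nat_lit 1), (nat_lit 0)⟩]⟩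
def e102 : En := ⟨(nat_lit 24), (nat_lit 68), (nat_lit 7), (nat_lit 2), [⟨(nat_lit 0), (nat_lit 18), (nat_lit 1), (nat_lit 0)⟩, ⟨(nat_lit 2), (nat_lit 20), (nat_lit 0x20000000000000000), (nat_lit 1)⟩, ⟨(nat_lit 2), (nat_lit 22), (nat_lit 0x10000000000000000), (nat_lit 0)⟩, ⟨(nat_lit 4), (nat_lit 12), (nat_lit 1), (nat_lit 0x10000000000000000)⟩]⟩
def e103 : En := ⟨(nat_lit 26), (nat_lit 99), (nat_lit 6), (nat_lit 1), [⟨(nat_lit 0), (nat_lit 20), (nat_lit 1), (nat_lit 0)⟩, ⟨(nat_lit 0), (nat_lit 22), (nat_lit 3), (nat_lit 0)⟩, ⟨(nat_lit 4), (nat_lit 14), (nat_lit 1), (nat_lit 0)⟩, ⟨(nat_lit 6), (nat_lit 10), (nat_lit 1), (nat_lit 0)⟩]⟩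
def e104 : En := ⟨(nat_lit 26), (nat_lit 68), (nat_lit 4), (nat_lit 1), [⟨(nat_lit 2), (nat_lit 20), (nat_lit 2), (nat_lit 0)⟩, ⟨(nat_lit 2), (nat_lit 22), (nat_lit 1), (nat_lit 0)⟩, ⟨(nat_lit 4), (nat_lit 12), (nat_lit 0), (nat_lit 1)⟩]⟩
def e105 : En := ⟨(nat_lit 28), (nat_lit 68), (nat_lit 3), (nat_lit 1), [⟨(nat_lit 0), (nat_lit 18), (nat_lit 1), (nat_lit 0)⟩, ⟨(nat_lit 2), (nat_lit 20), (nat_lit 0), (nat_lit 1)⟩, ⟨(nat_lit 4), (nat_lit 12), (nat_lit 1), (nat_lit 0)⟩]⟩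
def e106 : En := ⟨(nat_lit 26), (nat_lit 68), (nat_lit 7), (nat_lit 2), [⟨(nat_lit 0), (nat_lit 18), (nat_lit 1), (nat_lit 0)⟩, ⟨(nat_lit 2), (nat_lit 20), (nat_lit 0x20000000000000000), (nat_lit 1)⟩, ⟨(nat_lit 2), (nat_lit 22), (nat_lit 0x10000000000000000), (nat_lit 0)⟩, ⟨(nat_lit 4), (nat_lit 12), (nat_lit 1), (nat_lit 0x10000000000000000)⟩]⟩
def e107 : En := ⟨(nat_lit 28), (nat_lit 69), (nat_lit 8), (nat_lit 6), [⟨(nat_lit 0), (nat_lit 24), (nat_lit 1), (nat_lit 0)⟩, ⟨(nat_lit 2), (nat_lit 26), (nb (nat_lit 1) (nat_lit 512) (nat_lit 0)), (nat_lit 0)⟩, ⟨(nat_lit 4), (nat_lit 18), (nat_lit 1), (nb (nat_lit 1) (nat_lit 512) (nat_lit 0))⟩, ⟨(nat_lit 10), (nat_lit 12), (nb (nat_lit 2) (nat_lit 512) (nat_lit 0)), (nb (nat_lit 1) (nat_lit 576) (nat_lit 1))⟩]⟩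
def e108 : En := ⟨(nat_lit 24), (nat_lit 98), (nat_lit 2), (nat_lit 1), [⟨(nat_lit 0), (nat_lit 14), (nat_lit 1), (nat_lit 0)⟩, ⟨(nat_lit 4), (nat_lit 6), (nat_lit 1), (nat_lit 0)⟩]⟩
def e109 : En := ⟨(nat_lit 28), (nat_lit 99), (nat_lit 13), (nat_lit 2), [⟨(nat_lit 0), (nat_lit 20), (nat_lit 1), (nat_lit 0)⟩, ⟨(nat_lit 0), (nat_lit 22), (nat_lit 0x30000000000000003), (nat_lit 0)⟩, ⟨(nat_lit 2), (nat_lit 24), (nat_lit 0), (nat_lit 0x10000000000000000)⟩, ⟨(nat_lit 4), (nat_lit 14), (nat_lit 0x10000000000000001), (nat_lit 0)⟩, ⟨(nat_lit 6), (nat_lit 10), (nat_lit 0x20000000000000001), (nat_lit 0)⟩]⟩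
def e110 : En := ⟨(nat_lit 28), (nat_lit 99), (nat_lit 13), (nat_lit 3), [⟨(nat_lit 0), (nat_lit 20), (nat_lit 1), (nat_lit 0)⟩, ⟨(nat_lit 0), (nat_lit 22), (nb (nat_lit 3) (nat_lit 512) (nat_lit 3)), (nat_lit 0)⟩, ⟨(nat_lit 2), (nat_lit 24), (nat_lit 0), (nb (nat_lit 1) (nat_lit 512) (nat_lit 0))⟩, ⟨(nat_lit 4), (nat_lit 14), (nb (nat_lit 1) (nat_lit 512) (nat_lit 1)), (nat_lit 0)⟩, ⟨(nat_lit 6), (nat_lit 10), (nb (nat_lit 2) (nat_lit 512) (nat_lit 1)), (nat_lit 0)⟩]⟩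
def e111 : En := ⟨(nat_lit 28), (nat_lit 68), (nat_lit 4), (nat_lit 1), [⟨(nat_lit 2), (nat_lit 20), (nat_lit 2), (nat_lit 0)⟩, ⟨(nat_lit 2), (nat_lit 22), (nat_lit 1), (nat_lit 0)⟩, ⟨(nat_lit 4), (nat_lit 12), (nat_lit 0), (nat_lit 1)⟩]⟩
def e112 : En := ⟨(nat_lit 28), (nat_lit 68), (nat_lit 7), (nat_lit 2), [⟨(nat_lit 0), (nat_lit 18), (nat_lit 1), (nat_lit 0)⟩, ⟨(nat_lit 2), (nat_lit 20), (nat_lit 0x20000000000000000), (nat_lit 1)⟩, ⟨(nat_lit 2), (nat_lit 22), (nat_lit 0x10000000000000000), (nat_lit 0)⟩, ⟨(nat_lit 4), (nat_lit 12), (nat_lit 1), (nat_lit 0x10000000000000000)⟩]⟩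
def e113 : En := ⟨(nat_lit 20), (nat_lit 67), (nat_lit 4), (nat_lit 2), [⟨(nat_lit 0), (nat_lit 12), (nat_lit 1), (nat_lit 0)⟩, ⟨(nat_lit 2), (nat_lit 14), (nat_lit 0x10000000000000000), (nat_lit 0)⟩, ⟨(nat_lit 4), (nat_lit 10), (nat_lit 1), (nat_lit 0x10000000000000000)⟩]⟩
def e114 : En := ⟨(nat_lit 22), (nat_lit 68), (nat_lit 6), (nat_lit 2), [⟨(nat_lit 0), (nat_lit 18), (nat_lit 0x10000000000000000), (nat_lit 2)⟩, ⟨(nat_lit 2), (nat_lit 20), (nat_lit 0), (nat_lit 1)⟩, ⟨(nat_lit 4), (nat_lit 12), (nat_lit 0x10000000000000000), (nat_lit 1)⟩]⟩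
def e115 : En := ⟨(nat_lit 26), (nat_lit 69), (nat_lit 12), (nat_lit 6), [⟨(nat_lit 0), (nat_lit 22), (nat_lit 1), (nat_lit 0)⟩, ⟨(nat_lit 2), (nat_lit 24), (nb (nat_lit 1) (nat_lit 512) (nat_lit 0)), (nat_lit 0)⟩, ⟨(nat_lit 4), (nat_lit 18), (nb (nat_lit 2) (nat_lit 512) (nat_lit 1)), (nb (nat_lit 1) (nat_lit 576) (nat_lit 0))⟩, ⟨(nat_lit 10), (nat_lit 12), (nb (nat_lit 2) (nat_lit 576) (nat_lit 0)), (nb (nat_lit 3) (nat_lit 512) (nat_lit 1))⟩]⟩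
def e116 : En := ⟨(nat_lit 24), (nat_lit 68), (nat_lit 6), (nat_lit 2), [⟨(nat_lit 0), (nat_lit 18), (nat_lit 0x10000000000000000), (nat_lit 2)⟩, ⟨(nat_lit 2), (nat_lit 20), (nat_lit 0), (nat_lit 1)⟩, ⟨(nat_lit 4), (nat_lit 12), (nat_lit 0x10000000000000000), (nat_lit 1)⟩]⟩
def e117 : En := ⟨(nat_lit 28), (nat_lit 69), (nat_lit 12), (nat_lit 6), [⟨(nat_lit 0), (nat_lit 22), (nat_lit 1), (nat_lit 0)⟩, ⟨(nat_lit 2), (nat_lit 24), (nb (nat_lit 1) (nat_lit 512) (nat_lit 0)), (nat_lit 0)⟩, ⟨(nat_lit 4), (nat_lit 18), (nb (nat_lit 2) (nat_lit 512) (nat_lit 1)), (nb (nat_lit 1) (nat_lit 576) (nat_lit 0))⟩, ⟨(nat_lit 10), (nat_lit 12), (nb (nat_lit 2) (nat_lit 576) (nat_lit 0)), (nb (nat_lit 3) (nat_lit 512) (nat_lit 1))⟩]⟩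
def e118 : En := ⟨(nat_lit 22), (nat_lit 37), (nat_lit 3), (nat_lit 1), [⟨(nat_lit 2), (nat_lit 18), (nat_lit 3), (nat_lit 0)⟩]⟩
def e119 : En := ⟨(nat_lit 24), (nat_lit 68), (nat_lit 10), (nat_lit 1), [⟨(nat_lit 0), (nat_lit 18), (nat_lit 0), (nat_lit 5)⟩, ⟨(nat_lit 2), (nat_lit 20), (nat_lit 0), (nat_lit 3)⟩, ⟨(nat_lit 4), (nat_lit 12), (nat_lit 0), (nat_lit 2)⟩]⟩
def e120 : En := ⟨(nat_lit 26), (nat_lit 99), (nat_lit 5), (nat_lit 1), [⟨(nat_lit 0), (nat_lit 20), (nat_lit 3), (nat_lit 0)⟩, ⟨(nat_lit 4), (nat_lit 14), (nat_lit 1), (nat_lit 0)⟩, ⟨(nat_lit 6), (nat_lit 10), (nat_lit 1), (nat_lit 0)⟩]⟩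
def e121 : En := ⟨(nat_lit 18), (nat_lit 36), (nat_lit 3), (nat_lit 1), [⟨(nat_lit 2), (nat_lit 12), (nat_lit 3), (nat_lit 0)⟩]⟩
def e122 : En := ⟨(nat_lit 20), (nat_lit 67), (nat_lit 6), (nat_lit 1), [⟨(nat_lit 0), (nat_lit 12), (nat_lit 3), (nat_lit 0)⟩, ⟨(nat_lit 2), (nat_lit 14), (nat_lit 1), (nat_lit 0)⟩, ⟨(nat_lit 4), (nat_lit 10), (nat_lit 2), (nat_lit 0)⟩]⟩
def e123 : En := ⟨(nat_lit 12), (nat_lit 35), (nat_lit 3), (nat_lit 1), [⟨(nat_lit 2), (nat_lit 10), (nat_lit 3), (nat_lit 0)⟩]⟩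
def e124 : En := ⟨(nat_lit 14), (nat_lit 66), (nat_lit 6), (nat_lit 1), [⟨(nat_lit 0), (nat_lit 10), (nat_lit 3), (nat_lit 0)⟩, ⟨(nat_lit 2), (nat_lit 6), (nat_lit 3), (nat_lit 0)⟩]⟩
def e125 : En := ⟨(nat_lit 6), (nat_lit 65), (nat_lit 3), (nat_lit 1), [⟨(nat_lit 0), (nat_lit 4), (nat_lit 3), (nat_lit 0)⟩]⟩
def e126 : En := ⟨(nat_lit 10), (nat_lit 34), (nat_lit 3), (nat_lit 1), [⟨(nat_lit 2), (nat_lit 4), (nat_lit 3), (nat_lit 0)⟩]⟩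
def e127 : En := ⟨(nat_lit 4), (nat_lit 33), (nat_lit 3), (nat_lit 1), [⟨(nat_lit 0), (nat_lit 2), (nat_lit 3), (nat_lit 0)⟩]⟩
def e128 : En := ⟨(nat_lit 28), (nat_lit 69), (nat_lit 22), (nat_lit 2), [⟨(nat_lit 0), (nat_lit 22), (nat_lit 0x50000000000000007), (nat_lit 0)⟩, ⟨(nat_lit 2), (nat_lit 24), (nat_lit 0), (nat_lit 0x30000000000000003)⟩, ⟨(nat_lit 4), (nat_lit 18), (nat_lit 2), (nat_lit 0)⟩, ⟨(nat_lit 10), (nat_lit 12), (nat_lit 0x20000000000000000), (nat_lit 0)⟩]⟩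
def e129 : En := ⟨(nat_lit 26), (nat_lit 99), (nat_lit 13), (nat_lit 2), [⟨(nat_lit 0), (nat_lit 20), (nat_lit 3), (nat_lit 0)⟩, ⟨(nat_lit 2), (nat_lit 22), (nat_lit 0x30000000000000000), (nat_lit 1)⟩, ⟨(nat_lit 4), (nat_lit 14), (nat_lit 1), (nat_lit 0)⟩, ⟨(nat_lit 6), (nat_lit 10), (nat_lit 2), (nat_lit 0x30000000000000000)⟩]⟩
def e130 : En := ⟨(nat_lit 28), (nat_lit 100), (nat_lit 15), (nat_lit 6), [⟨(nat_lit 0), (nat_lit 24), (nat_lit 1), (nat_lit 0)⟩, ⟨(nat_lit 2), (nat_lit 26), (nb (nat_lit 1) (nat_lit 512) (nat_lit 0)), (nat_lit 0)⟩, ⟨(nat_lit 4), (nat_lit 20), (nat_lit 0), (nb (nat_lit 3) (nat_lit 512) (nat_lit 1))⟩, ⟨(nat_lit 6), (nat_lit 12), (nb (nat_lit 3) (nat_lit 512) (nb (nat_lit 1) (nat_lit 64) (nat_lit 0))), (nat_lit 0)⟩, ⟨(nat_lit 10), (nat_lit 14), (nb (nat_lit 0x30000000000000001) (nat_lit 512) (nb (nat_lit 1) (nat_lit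 64) (nat_lit 0))), (nat_lit 0)⟩]⟩
def e131 : En := ⟨(nat_lit 28), (nat_lit 69), (nat_lit 9), (nat_lit 2), [⟨(nat_lit 2), (nat_lit 24), (nat_lit 1), (nat_lit 0)⟩, ⟨(nat_lit 4), (nat_lit 18), (nat_lit 2), (nat_lit 0x10000000000000000)⟩, ⟨(nat_lit 10), (nat_lit 12), (nat_lit 0x20000000000000000), (nat_lit 3)⟩]⟩
def e132 : En := ⟨(nat_lit 30), (nat_lit 100), (nat_lit 15), (nat_lit 6), [⟨(nat_lit 0), (nat_lit 24), (nat_lit 1), (nat_lit 0)⟩, ⟨(nat_lit 2), (nat_lit 26), (nb (nat_lit 1) (nat_lit 512) (nat_lit 0)), (nat_lit 0)⟩, ⟨(nat_lit 4), (nat_lit 20), (nat_lit 0), (nb (nat_lit 3) (nat_lit 512) (nat_lit 1))⟩, ⟨(nat_lit 6), (nat_lit 12), (nb (nat_lit 3) (nat_lit 512) (nb (nat_lit 1) (nat_lit 64) (nat_lit 0))), (nat_lit 0)⟩, ⟨(nat_lit 10), (nat_lit 14), (nb (nat_lit 0x30000000000000001) (nat_lit 512) (nb (nat_lit 1) (nat_lit 64) (nat_lit 0))),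 (nat_lit 0)⟩]⟩
def e133 : En := ⟨(nat_lit 26), (nat_lit 68), (nat_lit 6), (nat_lit 2), [⟨(nat_lit 0), (nat_lit 18), (nat_lit 0x10000000000000000), (nat_lit 2)⟩, ⟨(nat_lit 2), (nat_lit 20), (nat_lit 0), (nat_lit 1)⟩, ⟨(nat_lit 4), (nat_lit 12), (nat_lit 0x10000000000000000), (nat_lit 1)⟩]⟩
def e134 : En := ⟨(nat_lit 28), (nat_lit 69), (nat_lit 12), (nat_lit 6), [⟨(nat_lit 0), (nat_lit 24), (nat_lit 1), (nat_lit 0)⟩, ⟨(nat_lit 2), (nat_lit 26), (nb (nat_lit 1) (nat_lit 512) (nat_lit 0)), (nat_lit 0)⟩, ⟨(nat_lit 4), (nat_lit 18), (nb (nat_lit 2) (nat_lit 512) (nat_lit 1)), (nb (nat_lit 1) (nat_lit 576) (nat_lit 0))⟩, ⟨(nat_lit 10), (nat_lit 12), (nb (nat_lit 2) (nat_lit 576) (nat_lit 0)), (nb (nat_lit 3) (nat_lit 512) (nat_lit 1))⟩]⟩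
def e135 : En := ⟨(nat_lit 28), (nat_lit 99), (nat_lit 13), (nat_lit 2), [⟨(nat_lit 0), (nat_lit 20), (nat_lit 3), (nat_lit 0)⟩, ⟨(nat_lit 2), (nat_lit 22), (nat_lit 0x30000000000000000), (nat_lit 1)⟩, ⟨(nat_lit 4), (nat_lit 14), (nat_lit 1), (nat_lit 0)⟩, ⟨(nat_lit 6), (nat_lit 10), (nat_lit 2), (nat_lit 0x30000000000000000)⟩]⟩
def e136 : En := ⟨(nat_lit 26), (nat_lit 99), (nat_lit 10), (nat_lit 2), [⟨(nat_lit 0), (nat_lit 18), (nat_lit 0x10000000000000000), (nat_lit 0)⟩, ⟨(nat_lit 0), (nat_lit 20), (nat_lit 1), (nat_lit 0)⟩, ⟨(nat_lit 2), (nat_lit 22), (nat_lit 1), (nat_lit 0x30000000000000000)⟩, ⟨(nat_lit 4), (nat_lit 14), (nat_lit 0x10000000000000000), (nat_lit 0)⟩, ⟨(nat_lit 6), (nat_lit 10), (nat_lit 1), (nat_lit 0x20000000000000000)⟩]⟩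
def e137 : En := ⟨(nat_lit 26), (nat_lit 99), (nat_lit 9), (nat_lit 2), [⟨(nat_lit 0), (nat_lit 20), (nat_lit 1), (nat_lit 0)⟩, ⟨(nat_lit 2), (nat_lit 22), (nat_lit 0x30000000000000001), (nat_lit 0)⟩, ⟨(nat_lit 2), (nat_lit 24), (nat_lit 0x10000000000000000), (nat_lit 0)⟩, ⟨(nat_lit 4), (nat_lit 14), (nat_lit 0), (nat_lit 0x10000000000000000)⟩, ⟨(nat_lit 6), (nat_lit 10), (nat_lit 0x10000000000000001), (nat_lit 0)⟩]⟩
def e138 : En := ⟨(nat_lit 28), (nat_lit 99), (nat_lit 9), (nat_lit 3), [⟨(nat_lit 0), (nat_lit 18), (nat_lit 1), (nat_lit 0)⟩, ⟨(nat_lit 2), (nat_lit 22), (nb (nat_lit 3) (nat_lit 512) (nat_lit 0)), (nat_lit 0)⟩, ⟨(nat_lit 2), (nat_lit 24), (nb (nat_lit 1) (nat_lit 512) (nat_lit 1)), (nat_lit 0)⟩, ⟨(nat_lit 4), (nat_lit 14), (nat_lit 0), (nb (nat_lit 1) (nat_lit 512) (nat_lit 0))⟩, ⟨(nat_lit 6), (nat_lit 10), (nb (nat_lit 1)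 (nat_lit 512) (nat_lit 0)), (nat_lit 1)⟩]⟩
def e139 : En := ⟨(nat_lit 26), (nat_lit 99), (nat_lit 12), (nat_lit 6), [⟨(nat_lit 0), (nat_lit 18), (nat_lit 1), (nat_lit 0)⟩, ⟨(nat_lit 0), (nat_lit 20), (nat_lit 0x10000000000000000), (nat_lit 0)⟩, ⟨(nat_lit 2), (nat_lit 22), (nb (nat_lit 3) (nat_lit 512) (nb (nat_lit 1) (nat_lit 64) (nat_lit 0))), (nat_lit 0)⟩, ⟨(nat_lit 2), (nat_lit 24), (nb (nat_lit 1) (nat_lit 512) (nat_lit 1)), (nat_lit 0)⟩, ⟨(nat_lit 4), (nat_lit 14), (nat_lit 0), (nb (nat_lit 1) (nat_lit 512) (nat_lit 0))⟩, ⟨(nat_lit 6), (nat_lit 10), (nb (nat_lit 1) (nat_lit 512) (nb (nat_lit 1) (nat_lit 64) (nat_lit 0))), (nat_lit 1)⟩]⟩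
def e140 : En := ⟨(nat_lit 24), (nat_lit 99), (nat_lit 9), (nat_lit 2), [⟨(nat_lit 0), (nat_lit 20), (nat_lit 0x10000000000000000), (nat_lit 3)⟩, ⟨(nat_lit 2), (nat_lit 22), (nat_lit 1), (nat_lit 0)⟩, ⟨(nat_lit 4), (nat_lit 14), (nat_lit 0), (nat_lit 1)⟩, ⟨(nat_lit 6), (nat_lit 10), (nat_lit 0x10000000000000000), (nat_lit 2)⟩]⟩
def e141 : En := ⟨(nat_lit 22), (nat_lit 98), (nat_lit 4), (nat_lit 2), [⟨(nat_lit 0), (nat_lit 14), (nat_lit 1), (nat_lit 0)⟩, ⟨(nat_lit 2), (nat_lit 8), (nat_lit 0x10000000000000000), (nat_lit 0)⟩, ⟨(nat_lit 4), (nat_lit 6), (nat_lit 1), (nat_lit 0x10000000000000000)⟩]⟩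
def e142 : En := ⟨(nat_lit 24), (nat_lit 99), (nat_lit 15), (nat_lit 6), [⟨(nat_lit 0), (nat_lit 18), (nat_lit 1), (nat_lit 0)⟩, ⟨(nat_lit 0), (nat_lit 20), (nb (nat_lit 1) (nat_lit 576) (nat_lit 3)), (nb (nat_lit 3) (nat_lit 512) (nat_lit 0))⟩, ⟨(nat_lit 2), (nat_lit 22), (nb (nat_lit 1) (nat_lit 512) (nat_lit 0)), (nat_lit 0)⟩, ⟨(nat_lit 4), (nat_lit 14), (nat_lit 1), (nb (nat_lit 1) (nat_lit 512) (nat_lit 0))⟩, ⟨(nat_lit 6), (nat_lit 10), (nb (nat_lit 1) (nat_lit 576) (nat_lit 1)), (nb (nat_lit 2) (nat_lit 512) (nat_lit 0))⟩]⟩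
def e143 : En := ⟨(nat_lit 26), (nat_lit 99), (nat_lit 9), (nat_lit 2), [⟨(nat_lit 0), (nat_lit 20), (nat_lit 0x10000000000000000), (nat_lit 3)⟩, ⟨(nat_lit 2), (nat_lit 22), (nat_lit 1), (nat_lit 0)⟩, ⟨(nat_lit 4), (nat_lit 14), (nat_lit 0), (nat_lit 1)⟩, ⟨(nat_lit 6), (nat_lit 10), (nat_lit 0x10000000000000000), (nat_lit 2)⟩]⟩
def e144 : En := ⟨(nat_lit 26), (nat_lit 99), (nat_lit 15), (nat_lit 6), [⟨(nat_lit 0), (nat_lit 18), (nat_lit 1), (nat_lit 0)⟩, ⟨(nat_lit 0), (nat_lit 20), (nb (nat_lit 1) (nat_lit 576) (nat_lit 3)), (nb (nat_lit 3) (nat_lit 512) (nat_lit 0))⟩, ⟨(nat_lit 2), (nat_lit 22), (nb (nat_lit 1) (nat_lit 512) (nat_lit 0)), (nat_lit 0)⟩, ⟨(nat_lit 4), (nat_lit 14), (nat_lit 1), (nb (nat_lit 1) (nat_lit 512) (nat_lit 0))⟩, ⟨(nat_lit 6), (nat_lit 10), (nb (nat_lit 1) (nat_lit 576) (nat_lit 1)), (nb (nat_lit 2) (nat_lit 512)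 (nat_lit 0))⟩]⟩
def e145 : En := ⟨(nat_lit 24), (nat_lit 99), (nat_lit 9), (nat_lit 2), [⟨(nat_lit 0), (nat_lit 18), (nat_lit 1), (nat_lit 0)⟩, ⟨(nat_lit 2), (nat_lit 20), (nat_lit 1), (nat_lit 0x30000000000000000)⟩, ⟨(nat_lit 4), (nat_lit 14), (nat_lit 0x10000000000000000), (nat_lit 0)⟩, ⟨(nat_lit 6), (nat_lit 10), (nat_lit 1), (nat_lit 0x20000000000000000)⟩]⟩
def e146 : En := ⟨(nat_lit 18), (nat_lit 67), (nat_lit 4), (nat_lit 1), [⟨(nat_lit 0), (nat_lit 12), (nat_lit 1), (nat_lit 0)⟩, ⟨(nat_lit 2), (nat_lit 14), (nat_lit 2), (nat_lit 0)⟩, ⟨(nat_lit 4), (nat_lit 10), (nat_lit 0), (nat_lit 1)⟩]⟩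
def e147 : En := ⟨(nat_lit 24), (nat_lit 68), (nat_lit 2), (nat_lit 1), [⟨(nat_lit 2), (nat_lit 18), (nat_lit 1), (nat_lit 0)⟩, ⟨(nat_lit 4), (nat_lit 12), (nat_lit 0), (nat_lit 1)⟩]⟩
def e148 : En := ⟨(nat_lit 26), (nat_lit 99), (nat_lit 9), (nat_lit 2), [⟨(nat_lit 0), (nat_lit 18), (nat_lit 1), (nat_lit 0)⟩, ⟨(nat_lit 2), (nat_lit 20), (nat_lit 1), (nat_lit 0x30000000000000000)⟩, ⟨(nat_lit 4), (nat_lit 14), (nat_lit 0x10000000000000000), (nat_lit 0)⟩, ⟨(nat_lit 6), (nat_lit 10), (nat_lit 1), (nat_lit 0x20000000000000000)⟩]⟩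
def e149 : En := ⟨(nat_lit 24), (nat_lit 99), (nat_lit 15), (nat_lit 6), [⟨(nat_lit 0), (nat_lit 18), (nat_lit 1), (nat_lit 0)⟩, ⟨(nat_lit 2), (nat_lit 20), (nb (nat_lit 3) (nat_lit 512) (nat_lit 1)), (nat_lit 0x30000000000000000)⟩, ⟨(nat_lit 2), (nat_lit 22), (nb (nat_lit 1) (nat_lit 512) (nat_lit 0)), (nat_lit 0)⟩, ⟨(nat_lit 4), (nat_lit 14), (nat_lit 0x10000000000000000), (nb (nat_lit 1) (nat_lit 512) (nat_lit 0))⟩, ⟨(nat_lit 6), (nat_lit 10), (nb (nat_lit 1) (nat_lit 512) (nat_lit 1)), (nat_lit 0x20000000000000000)⟩]⟩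
def e150 : En := ⟨(nat_lit 26), (nat_lit 99), (nat_lit 17), (nat_lit 2), [⟨(nat_lit 0), (nat_lit 18), (nat_lit 1), (nat_lit 0)⟩, ⟨(nat_lit 2), (nat_lit 20), (nat_lit 0x30000000000000000), (nat_lit 5)⟩, ⟨(nat_lit 2), (nat_lit 22), (nat_lit 0x10000000000000000), (nat_lit 0)⟩, ⟨(nat_lit 4), (nat_lit 14), (nat_lit 2), (nat_lit 0x10000000000000000)⟩, ⟨(nat_lit 6), (nat_lit 10), (nat_lit 0x10000000000000000), (nat_lit 3)⟩]⟩
def e151 : En := ⟨(nat_lit 26), (nat_lit 99), (nat_lit 15), (nat_lit 6), [⟨(nat_lit 0), (nat_lit 18), (nat_lit 1), (nat_lit 0)⟩, ⟨(nat_lit 2), (nat_lit 20), (nb (nat_lit 3) (nat_lit 512) (nat_lit 1)), (nat_lit 0x30000000000000000)⟩, ⟨(nat_lit 2), (nat_lit 22), (nb (nat_lit 1) (nat_lit 512) (nat_lit 0)), (nat_lit 0)⟩, ⟨(nat_lit 4), (nat_lit 14), (nat_lit 0x10000000000000000), (nb (nat_lit 1) (nat_lit 512) (nat_lit 0))⟩, ⟨(nat_lit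 6), (nat_lit 10), (nb (nat_lit 1) (nat_lit 512) (nat_lit 1)), (nat_lit 0x20000000000000000)⟩]⟩
def e152 : En := ⟨(nat_lit 22), (nat_lit 99), (nat_lit 18), (nat_lit 6), [⟨(nat_lit 0), (nat_lit 18), (nb (nat_lit 1) (nat_lit 512) (nat_lit 0)), (nat_lit 3)⟩, ⟨(nat_lit 2), (nat_lit 20), (nat_lit 1), (nat_lit 0x30000000000000000)⟩, ⟨(nat_lit 4), (nat_lit 14), (nb (nat_lit 1) (nat_lit 576) (nat_lit 0)), (nat_lit 1)⟩, ⟨(nat_lit 6), (nat_lit 10), (nb (nat_lit 1) (nat_lit 512) (nb (nat_lit 3) (nat_lit 64) (nat_lit 0))), (nb (nat_lit 2) (nat_lit 576) (nat_lit 2))⟩]⟩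
def e153 : En := ⟨(nat_lit 20), (nat_lit 98), (nat_lit 4), (nat_lit 3), [⟨(nat_lit 0), (nat_lit 14), (nat_lit 1), (nat_lit 0)⟩, ⟨(nat_lit 2), (nat_lit 8), (nb (nat_lit 1) (nat_lit 512) (nat_lit 0)), (nat_lit 0)⟩, ⟨(nat_lit 4), (nat_lit 6), (nat_lit 1), (nb (nat_lit 1) (nat_lit 512) (nat_lit 0))⟩]⟩
def e154 : En := ⟨(nat_lit 22), (nat_lit 99), (nat_lit 23), (nat_lit 2), [⟨(nat_lit 0), (nat_lit 18), (nat_lit 0), (nat_lit 5)⟩, ⟨(nat_lit 2), (nat_lit 20), (nat_lit 2), (nat_lit 0x60000000000000000)⟩, ⟨(nat_lit 4), (nat_lit 14), (nat_lit 0x10000000000000000), (nat_lit 2)⟩, ⟨(nat_lit 6), (nat_lit 10), (nat_lit 0x40000000000000000), (nat_lit 3)⟩]⟩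
def e155 : En := ⟨(nat_lit 24), (nat_lit 130), (nat_lit 3), (nat_lit 1), [⟨(nat_lit 0), (nat_lit 20), (nat_lit 2), (nat_lit 0)⟩, ⟨(nat_lit 4), (nat_lit 8), (nat_lit 1), (nat_lit 0)⟩]⟩
def e156 : En := ⟨(nat_lit 18), (nat_lit 67), (nat_lit 8), (nat_lit 2), [⟨(nat_lit 0), (nat_lit 12), (nat_lit 2), (nat_lit 0)⟩, ⟨(nat_lit 2), (nat_lit 14), (nat_lit 0x20000000000000000), (nat_lit 0)⟩, ⟨(nat_lit 4), (nat_lit 10), (nat_lit 2), (nat_lit 0x20000000000000000)⟩]⟩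
def e157 : En := ⟨(nat_lit 20), (nat_lit 98), (nat_lit 4), (nat_lit 1), [⟨(nat_lit 0), (nat_lit 14), (nat_lit 2), (nat_lit 0)⟩, ⟨(nat_lit 2), (nat_lit 8), (nat_lit 1), (nat_lit 0)⟩, ⟨(nat_lit 4), (nat_lit 6), (nat_lit 1), (nat_lit 0)⟩]⟩
def e158 : En := ⟨(nat_lit 8), (nat_lit 97), (nat_lit 2), (nat_lit 1), [⟨(nat_lit 0), (nat_lit 6), (nat_lit 2), (nat_lit 0)⟩]⟩
def e159 : En := ⟨(nat_lit 12), (nat_lit 35), (nat_lit 2), (nat_lit 1), [⟨(nat_lit 2), (nat_lit 10), (nat_lit 2), (nat_lit 0)⟩]⟩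
def e160 : En := ⟨(nat_lit 14), (nat_lit 66), (nat_lit 4), (nat_lit 1), [⟨(nat_lit 0), (nat_lit 10), (nat_lit 2), (nat_lit 0)⟩, ⟨(nat_lit 2), (nat_lit 6), (nat_lit 2), (nat_lit 0)⟩]⟩
def e161 : En := ⟨(nat_lit 6), (nat_lit 65), (nat_lit 2), (nat_lit 1), [⟨(nat_lit 0), (nat_lit 4), (nat_lit 2), (nat_lit 0)⟩]⟩
def e162 : En := ⟨(nat_lit 10), (nat_lit 34), (nat_lit 2), (nat_lit 1), [⟨(nat_lit 2), (nat_lit 4), (nat_lit 2), (nat_lit 0)⟩]⟩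
def e163 : En := ⟨(nat_lit 4), (nat_lit 33), (nat_lit 2), (nat_lit 1), [⟨(nat_lit 0), (nat_lit 2), (nat_lit 2), (nat_lit 0)⟩]⟩
def e164 : En := ⟨(nat_lit 22), (nat_lit 99), (nat_lit 5), (nat_lit 1), [⟨(nat_lit 0), (nat_lit 18), (nat_lit 3), (nat_lit 0)⟩, ⟨(nat_lit 4), (nat_lit 14), (nat_lit 1), (nat_lit 0)⟩, ⟨(nat_lit 6), (nat_lit 10), (nat_lit 1), (nat_lit 0)⟩]⟩
def e165 : En := ⟨(nat_lit 24), (nat_lit 99), (nat_lit 6), (nat_lit 1), [⟨(nat_lit 0), (nat_lit 18), (nat_lit 3), (nat_lit 0)⟩, ⟨(nat_lit 2), (nat_lit 20), (nat_lit 1), (nat_lit 0)⟩, ⟨(nat_lit 6), (nat_lit 10), (nat_lit 2), (nat_lit 0)⟩]⟩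
def e166 : En := ⟨(nat_lit 18), (nat_lit 67), (nat_lit 6), (nat_lit 1), [⟨(nat_lit 0), (nat_lit 12), (nat_lit 3), (nat_lit 0)⟩, ⟨(nat_lit 2), (nat_lit 14), (nat_lit 1), (nat_lit 0)⟩, ⟨(nat_lit 4), (nat_lit 10), (nat_lit 2), (nat_lit 0)⟩]⟩
def e167 : En := ⟨(nat_lit 20), (nat_lit 98), (nat_lit 18), (nat_lit 1), [⟨(nat_lit 0), (nat_lit 14), (nat_lit 3), (nat_lit 0)⟩, ⟨(nat_lit 2), (nat_lit 8), (nat_lit 9), (nat_lit 0)⟩, ⟨(nat_lit 4), (nat_lit 6), (nat_lit 0), (nat_lit 6)⟩]⟩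
def e168 : En := ⟨(nat_lit 8), (nat_lit 97), (nat_lit 3), (nat_lit 1), [⟨(nat_lit 0), (nat_lit 6), (nat_lit 3), (nat_lit 0)⟩]⟩
def e169 : En := ⟨(nat_lit 22), (nat_lit 68), (nat_lit 2), (nat_lit 1), [⟨(nat_lit 2), (nat_lit 18), (nat_lit 1), (nat_lit 0)⟩, ⟨(nat_lit 4), (nat_lit 12), (nat_lit 0), (nat_lit 1)⟩]⟩
def e170 : En := ⟨(nat_lit 24), (nat_lit 99), (nat_lit 19), (nat_lit 3), [⟨(nat_lit 0), (nat_lit 18), (nb (nat_lit 1) (nat_lit 512) (nat_lit 0)), (nat_lit 3)⟩, ⟨(nat_lit 2), (nat_lit 20), (nat_lit 0), (nat_lit 5)⟩, ⟨(nat_lit 4), (nat_lit 14), (nb (nat_lit 2) (nat_lit 512) (nat_lit 0)), (nat_lit 1)⟩, ⟨(nat_lit 6), (nat_lit 10), (nat_lit 4), (nb (nat_lit 3) (nat_lit 512) (nat_lit 0))⟩]⟩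
def e171 : En := ⟨(nat_lit 26), (nat_lit 100), (nat_lit 26), (nat_lit 6), [⟨(nat_lit 0), (nat_lit 22), (nat_lit 1), (nat_lit 0)⟩, ⟨(nat_lit 2), (nat_lit 24), (nat_lit 0x10000000000000000), (nat_lit 0)⟩, ⟨(nat_lit 4), (nat_lit 18), (nat_lit 0x30000000000000001), (nb (nat_lit 1) (nat_lit 576) (nat_lit 0))⟩, ⟨(nat_lit 6), (nat_lit 12), (nb (nat_lit 1) (nat_lit 576) (nat_lit 0)), (nat_lit 0x30000000000000002)⟩, ⟨(nat_lit 10), (nat_lit 14), (nb (nat_lit 4) (nat_lit 576) (nat_lit 0)), (nat_lit 0x70000000000000002)⟩]⟩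
def e172 : En := ⟨(nat_lit 24), (nat_lit 99), (nat_lit 18), (nat_lit 6), [⟨(nat_lit 0), (nat_lit 18), (nb (nat_lit 1) (nat_lit 512) (nat_lit 0)), (nat_lit 3)⟩, ⟨(nat_lit 2), (nat_lit 20), (nat_lit 1), (nat_lit 0x30000000000000000)⟩, ⟨(nat_lit 4), (nat_lit 14), (nb (nat_lit 1) (nat_lit 576) (nat_lit 0)), (nat_lit 1)⟩, ⟨(nat_lit 6), (nat_lit 10), (nb (nat_lit 1) (nat_lit 512) (nb (nat_lit 3) (nat_lit 64) (nat_lit 0))), (nb (nat_lit 2) (nat_lit 576) (nat_lit 2))⟩]⟩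
def e173 : En := ⟨(nat_lit 26), (nat_lit 130), (nat_lit 6), (nat_lit 3), [⟨(nat_lit 0), (nat_lit 20), (nat_lit 1), (nat_lit 0)⟩, ⟨(nat_lit 2), (nat_lit 22), (nb (nat_lit 2) (nat_lit 512) (nat_lit 0)), (nat_lit 1)⟩, ⟨(nat_lit 4), (nat_lit 8), (nat_lit 1), (nb (nat_lit 1) (nat_lit 512) (nat_lit 0))⟩]⟩
def e174 : En := ⟨(nat_lit 22), (nat_lit 129), (nat_lit 3), (nat_lit 1), [⟨(nat_lit 0), (nat_lit 8), (nat_lit 3), (nat_lit 0)⟩]⟩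
def e175 : En := ⟨(nat_lit 24), (nat_lit 99), (nat_lit 5), (nat_lit 1), [⟨(nat_lit 0), (nat_lit 18), (nat_lit 3), (nat_lit 0)⟩, ⟨(nat_lit 4), (nat_lit 14), (nat_lit 1), (nat_lit 0)⟩, ⟨(nat_lit 6), (nat_lit 10), (nat_lit 1), (nat_lit 0)⟩]⟩
def e176 : En := ⟨(nat_lit 26), (nat_lit 99), (nat_lit 6), (nat_lit 1), [⟨(nat_lit 0), (nat_lit 18), (nat_lit 3), (nat_lit 0)⟩, ⟨(nat_lit 2), (nat_lit 20), (nat_lit 1), (nat_lit 0)⟩, ⟨(nat_lit 6), (nat_lit 10), (nat_lit 2), (nat_lit 0)⟩]⟩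
def e177 : En := ⟨(nat_lit 24), (nat_lit 99), (nat_lit 11), (nat_lit 2), [⟨(nat_lit 0), (nat_lit 18), (nat_lit 0x30000000000000003), (nat_lit 0)⟩, ⟨(nat_lit 2), (nat_lit 20), (nat_lit 1), (nat_lit 0)⟩, ⟨(nat_lit 4), (nat_lit 14), (nat_lit 0x10000000000000000), (nat_lit 0)⟩, ⟨(nat_lit 6), (nat_lit 10), (nat_lit 0x10000000000000002), (nat_lit 0)⟩]⟩
def e178 : En := ⟨(nat_lit 20), (nat_lit 98), (nat_lit 6), (nat_lit 1), [⟨(nat_lit 0), (nat_lit 14), (nat_lit 1), (nat_lit 0)⟩, ⟨(nat_lit 2), (nat_lit 8), (nat_lit 3), (nat_lit 0)⟩, ⟨(nat_lit 4), (nat_lit 6), (nat_lit 0), (nat_lit 2)⟩]⟩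
def e179 : En := ⟨(nat_lit 26), (nat_lit 99), (nat_lit 19), (nat_lit 3), [⟨(nat_lit 0), (nat_lit 18), (nb (nat_lit 1) (nat_lit 512) (nat_lit 0)), (nat_lit 3)⟩, ⟨(nat_lit 2), (nat_lit 20), (nat_lit 0), (nat_lit 5)⟩, ⟨(nat_lit 4), (nat_lit 14), (nb (nat_lit 2) (nat_lit 512) (nat_lit 0)), (nat_lit 1)⟩, ⟨(nat_lit 6), (nat_lit 10), (nat_lit 4), (nb (nat_lit 3) (nat_lit 512) (nat_lit 0))⟩]⟩
def e180 : En := ⟨(nat_lit 24), (nat_lit 98), (nat_lit 2), (nat_lit 1), [⟨(nat_lit 2), (nat_lit 8), (nat_lit 1), (nat_lit 0)⟩, ⟨(nat_lit 4), (nat_lit 6), (nat_lit 0), (nat_lit 1)⟩]⟩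
def e181 : En := ⟨(nat_lit 26), (nat_lit 98), (nat_lit 2), (nat_lit 1), [⟨(nat_lit 0), (nat_lit 14), (nat_lit 1), (nat_lit 0)⟩, ⟨(nat_lit 4), (nat_lit 6), (nat_lit 1), (nat_lit 0)⟩]⟩
def e182 : En := ⟨(nat_lit 26), (nat_lit 99), (nat_lit 15), (nat_lit 6), [⟨(nat_lit 0), (nat_lit 20), (nat_lit 1), (nat_lit 0)⟩, ⟨(nat_lit 0), (nat_lit 22), (nb (nat_lit 1) (nat_lit 576) (nat_lit 3)), (nb (nat_lit 3) (nat_lit 512) (nat_lit 0))⟩, ⟨(nat_lit 2), (nat_lit 24), (nb (nat_lit 1) (nat_lit 512) (nat_lit 0)), (nat_lit 0)⟩, ⟨(nat_lit 4), (nat_lit 14), (nat_lit 1), (nb (nat_lit 1) (nat_lit 512) (nat_lit 0))⟩, ⟨(nat_lit 6), (nat_lit 10), (nb (nat_lit 1) (nat_lit 576) (nat_lit 1)), (nb (nat_lit 2) (nat_lit 512) (nat_lit 0))⟩]⟩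
def e183 : En := ⟨(nat_lit 24), (nat_lit 98), (nat_lit 4), (nat_lit 2), [⟨(nat_lit 0), (nat_lit 14), (nat_lit 1), (nat_lit 0)⟩, ⟨(nat_lit 2), (nat_lit 8), (nat_lit 0x10000000000000000), (nat_lit 0)⟩, ⟨(nat_lit 4), (nat_lit 6), (nat_lit 1), (nat_lit 0x10000000000000000)⟩]⟩
def e184 : En := ⟨(nat_lit 26), (nat_lit 68), (nat_lit 7), (nat_lit 3), [⟨(nat_lit 0), (nat_lit 18), (nat_lit 1), (nat_lit 0)⟩, ⟨(nat_lit 2), (nat_lit 20), (nb (nat_lit 2) (nat_lit 512) (nat_lit 0)), (nat_lit 1)⟩, ⟨(nat_lit 2), (nat_lit 22), (nb (nat_lit 1) (nat_lit 512) (nat_lit 0)), (nat_lit 0)⟩, ⟨(nat_lit 4), (nat_lit 12), (nat_lit 1), (nb (nat_lit 1) (nat_lit 512) (nat_lit 0))⟩]⟩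
def e185 : En := ⟨(nat_lit 26), (nat_lit 99), (nat_lit 9), (nat_lit 2), [⟨(nat_lit 0), (nat_lit 20), (nat_lit 1), (nat_lit 0)⟩, ⟨(nat_lit 2), (nat_lit 22), (nat_lit 1), (nat_lit 0x30000000000000000)⟩, ⟨(nat_lit 4), (nat_lit 14), (nat_lit 0x10000000000000000), (nat_lit 0)⟩, ⟨(nat_lit 6), (nat_lit 10), (nat_lit 1), (nat_lit 0x20000000000000000)⟩]⟩
def e186 : En := ⟨(nat_lit 26), (nat_lit 99), (nat_lit 15), (nat_lit 6), [⟨(nat_lit 0), (nat_lit 20), (nat_lit 1), (nat_lit 0)⟩, ⟨(nat_lit 2), (nat_lit 22), (nb (nat_lit 3) (nat_lit 512) (nat_lit 1)), (nat_lit 0x30000000000000000)⟩, ⟨(nat_lit 2), (nat_lit 24), (nb (nat_lit 1) (nat_lit 512) (nat_lit 0)), (nat_lit 0)⟩, ⟨(nat_lit 4), (nat_lit 14), (nat_lit 0x10000000000000000), (nb (nat_lit 1) (nat_lit 512) (nat_lit 0))⟩, ⟨(nat_lit 6), (nat_lit 10), (nb (nat_lit 1) (nat_lit 512) (nat_lit 1)), (nat_lit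 0x20000000000000000)⟩]⟩
def e187 : En := ⟨(nat_lit 24), (nat_lit 99), (nat_lit 18), (nat_lit 6), [⟨(nat_lit 0), (nat_lit 20), (nb (nat_lit 1) (nat_lit 512) (nat_lit 0)), (nat_lit 3)⟩, ⟨(nat_lit 2), (nat_lit 22), (nat_lit 1), (nat_lit 0x30000000000000000)⟩, ⟨(nat_lit 4), (nat_lit 14), (nb (nat_lit 1) (nat_lit 576) (nat_lit 0)), (nat_lit 1)⟩, ⟨(nat_lit 6), (nat_lit 10), (nb (nat_lit 1) (nat_lit 512) (nb (nat_lit 3) (nat_lit 64) (nat_lit 0))), (nb (nat_lit 2) (nat_lit 576) (nat_lit 2))⟩]⟩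
def e188 : En := ⟨(nat_lit 22), (nat_lit 98), (nat_lit 4), (nat_lit 3), [⟨(nat_lit 0), (nat_lit 14), (nat_lit 1), (nat_lit 0)⟩, ⟨(nat_lit 2), (nat_lit 8), (nb (nat_lit 1) (nat_lit 512) (nat_lit 0)), (nat_lit 0)⟩, ⟨(nat_lit 4), (nat_lit 6), (nat_lit 1), (nb (nat_lit 1) (nat_lit 512) (nat_lit 0))⟩]⟩
def e189 : En := ⟨(nat_lit 28), (nat_lit 100), (nat_lit 19), (nat_lit 30), [⟨(nat_lit 0), (nat_lit 24), (nat_lit 1), (nat_lit 0)⟩, ⟨(nat_lit 2), (nat_lit 26), (nb (nat_lit 1) (nat_lit 3072) (nat_lit 0)), (nat_lit 0)⟩, ⟨(nat_lit 4), (nat_lit 20), (nb (nat_lit 3) (nat_lit 3072) (nat_lit 0)), (nb (nat_lit 1) (nat_lit 3584) (nat_lit 1))⟩, ⟨(nat_lit 6), (nat_lit 12), (nb (nat_lit 1) (nat_lit 3584) (nb (nat_lit 1) (nat_lit 64) (nat_lit 0))), (nb (nat_lit 3) (nat_lit 3072) (nat_lit 0))⟩, ⟨(nat_lit 10), (nat_lit 14), (nb (nat_lit 2) (nat_lit 3648) (nb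 (nat_lit 1) (nat_lit 64) (nat_lit 0))), (nb (nat_lit 0x30000000000000001) (nat_lit 3072) (nat_lit 0))⟩]⟩
def e190 : En := ⟨(nat_lit 26), (nat_lit 99), (nat_lit 18), (nat_lit 6), [⟨(nat_lit 0), (nat_lit 20), (nb (nat_lit 1) (nat_lit 512) (nat_lit 0)), (nat_lit 3)⟩, ⟨(nat_lit 2), (nat_lit 22), (nat_lit 1), (nat_lit 0x30000000000000000)⟩, ⟨(nat_lit 4), (nat_lit 14), (nb (nat_lit 1) (nat_lit 576) (nat_lit 0)), (nat_lit 1)⟩, ⟨(nat_lit 6), (nat_lit 10), (nb (nat_lit 1) (nat_lit 512) (nb (nat_lit 3) (nat_lit 64) (nat_lit 0))), (nb (nat_lit 2) (nat_lit 576) (nat_lit 2))⟩]⟩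
def e191 : En := ⟨(nat_lit 22), (nat_lit 98), (nat_lit 6), (nat_lit 1), [⟨(nat_lit 0), (nat_lit 14), (nat_lit 1), (nat_lit 0)⟩, ⟨(nat_lit 2), (nat_lit 8), (nat_lit 3), (nat_lit 0)⟩, ⟨(nat_lit 4), (nat_lit 6), (nat_lit 0), (nat_lit 2)⟩]⟩
def e192 : En := ⟨(nat_lit 26), (nat_lit 99), (nat_lit 11), (nat_lit 2), [⟨(nat_lit 0), (nat_lit 20), (nat_lit 0x30000000000000003), (nat_lit 0)⟩, ⟨(nat_lit 2), (nat_lit 22), (nat_lit 1), (nat_lit 0)⟩, ⟨(nat_lit 4), (nat_lit 14), (nat_lit 0x10000000000000000), (nat_lit 0)⟩, ⟨(nat_lit 6), (nat_lit 10), (nat_lit 0x10000000000000002), (nat_lit 0)⟩]⟩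
def e193 : En := ⟨(nat_lit 22), (nat_lit 98), (nat_lit 18), (nat_lit 1), [⟨(nat_lit 0), (nat_lit 14), (nat_lit 3), (nat_lit 0)⟩, ⟨(nat_lit 2), (nat_lit 8), (nat_lit 9), (nat_lit 0)⟩, ⟨(nat_lit 4), (nat_lit 6), (nat_lit 0), (nat_lit 6)⟩]⟩
def f0 : Fc := ⟨false, st0, [], ⟨(nat_lit 128), [], [⟨(nat_lit 0x10000000000000000), (nat_lit 6), (nat_lit 7), (nat_lit 2)⟩], false⟩, []⟩
def f1 : Fc := ⟨false, st0, [], ⟨(nat_lit 128), [], [⟨(nat_lit 0x70000000000000000), (nat_lit 1), (nat_lit 8), (nat_lit 2)⟩], false⟩, []⟩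
def f2 : Fc := ⟨false, st0, [], ⟨(nat_lit 128), [], [⟨(nat_lit 0x20000000000000000), (nat_lit 7), (nat_lit 9), (nat_lit 2)⟩], false⟩, []⟩
def f3 : Fc := ⟨false, st0, [], ⟨(nat_lit 128), [], [⟨(nat_lit 0x50000000000000000), (nat_lit 21), (nat_lit 26), (nat_lit 2)⟩], false⟩, []⟩
def f4 : Fc := ⟨false, st0, [], ⟨(nat_lit 128), [], [⟨(nat_lit 0x10000000000000000), (nat_lit 7), (nat_lit 8), (nat_lit 2)⟩], false⟩, []⟩
def f5 : Fc := ⟨false, st0, [], ⟨(nat_lit 128), [], [⟨(nat_lit 0x10000000000000007), (nat_lit 0), (nat_lit 8), (nat_lit 2)⟩], false⟩, []⟩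
def f6 : Fc := ⟨false, st0, [], ⟨(nat_lit 128), [], [⟨(nat_lit 0x1000000000000000a), (nat_lit 0), (nat_lit 11), (nat_lit 2)⟩], false⟩, []⟩
def f7 : Fc := ⟨false, st0, [], ⟨(nat_lit 128), [], [⟨(nat_lit 0x10000000000000000), (nat_lit 2), (nat_lit 3), (nat_lit 2)⟩], false⟩, []⟩
def f8 : Fc := ⟨false, st0, [], ⟨(nat_lit 128), [], [⟨(nat_lit 0x30000000000000000), (nat_lit 5), (nat_lit 8), (nat_lit 2)⟩], false⟩, []⟩
def f9 : Fc := ⟨false, st0, [], ⟨(nat_lit 128), [], [⟨(nat_lit 0x20000000000000000), (nat_lit 1), (nat_lit 3), (nat_lit 2)⟩], false⟩, []⟩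
def f10 : Fc := ⟨false, st0, [], ⟨(nat_lit 128), [], [⟨(nat_lit 0x50000000000000000), (nat_lit 3), (nat_lit 8), (nat_lit 2)⟩], false⟩, []⟩
def f11 : Fc := ⟨false, st0, [], ⟨(nat_lit 128), [], [⟨(nat_lit 0x50000000000000000), (nat_lit 1), (nat_lit 6), (nat_lit 2)⟩], false⟩, []⟩
def f12 : Fc := ⟨false, st0, [], ⟨(nat_lit 31104), [], [⟨(nb (nat_lit 2) (nat_lit 512) (nb (nat_lit 14) (nat_lit 64) (nat_lit 0))), (nat_lit 7), (nat_lit 23), (nat_lit 6)⟩], false⟩, []⟩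
def f13 : Fc := ⟨false, st0, [], ⟨(nat_lit 31104), [], [⟨(nb (nat_lit 1) (nat_lit 512) (nb (nat_lit 10) (nat_lit 64) (nat_lit 0))), (nat_lit 6), (nat_lit 17), (nat_lit 6)⟩], false⟩, []⟩
def f14 : Fc := ⟨false, st0, [], ⟨(nat_lit 128), [], [⟨(nat_lit 0x10000000000000000), (nat_lit 4), (nat_lit 5), (nat_lit 2)⟩], false⟩, []⟩
def f15 : Fc := ⟨false, st0, [], ⟨(nat_lit 128), [], [⟨(nat_lit 0x10000000000000000), (nat_lit 5), (nat_lit 6), (nat_lit 2)⟩], false⟩, []⟩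
def f16 : Fc := ⟨false, st0, [], ⟨(nat_lit 31104), [], [⟨(nat_lit 0x70000000000000000), (nb (nat_lit 2) (nat_lit 512) (nat_lit 14)), (nat_lit 23), (nat_lit 6)⟩], false⟩, []⟩
def f17 : Fc := ⟨false, st0, [], ⟨(nat_lit 31104), [], [⟨(nat_lit 0x60000000000000000), (nb (nat_lit 1) (nat_lit 512) (nat_lit 10)), (nat_lit 17), (nat_lit 6)⟩], false⟩, []⟩
def f18 : Fc := ⟨false, st0, [], ⟨(nat_lit 128), [], [⟨(nat_lit 0x50000000000000000), (nat_lit 6), (nat_lit 11), (nat_lit 2)⟩], false⟩, []⟩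
def f19 : Fc := ⟨false, st0, [], ⟨(nat_lit 128), [], [⟨(nat_lit 0x20000000000000000), (nat_lit 21), (nat_lit 23), (nat_lit 2)⟩], false⟩, []⟩
def f20 : Fc := ⟨false, st0, [], ⟨(nat_lit 128), [], [⟨(nat_lit 0x10000000000000000), (nat_lit 14), (nat_lit 15), (nat_lit 2)⟩], false⟩, []⟩
def f21 : Fc := ⟨false, st0, [], ⟨(nat_lit 243), [], [⟨(nb (nat_lit 5) (nat_lit 512) (nat_lit 0)), (nat_lit 1), (nat_lit 6), (nat_lit 3)⟩], false⟩, []⟩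
def f22 : Fc := ⟨false, st0, [], ⟨(nat_lit 128), [], [⟨(nat_lit 0x10000000000000000), (nat_lit 0), (nat_lit 1), (nat_lit 2)⟩], false⟩, []⟩
def f23 : Fc := ⟨false, st0, [], ⟨(nat_lit 128), [], [⟨(nat_lit 0x10000000000000000), (nat_lit 3), (nat_lit 4), (nat_lit 2)⟩], false⟩, []⟩
def f24 : Fc := ⟨false, st0, [], ⟨(nat_lit 128), [⟨(nat_lit 0x10000000000000000), (nat_lit 0), (nat_lit 1), (nat_lit 2)⟩], [⟨(nat_lit 0x30000000000000000), (nat_lit 5), (nat_lit 8), (nat_lit 2)⟩], false⟩, []⟩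
def f25 : Fc := ⟨false, st0, [], ⟨(nat_lit 128), [⟨(nat_lit 0x10000000000000000), (nat_lit 0), (nat_lit 1), (nat_lit 2)⟩], [⟨(nat_lit 0x30000000000000000), (nat_lit 10), (nat_lit 13), (nat_lit 2)⟩], false⟩, []⟩
def f26 : Fc := ⟨false, st0, [], ⟨(nat_lit 128), [], [⟨(nat_lit 0x60000000000000000), (nat_lit 1), (nat_lit 7), (nat_lit 2)⟩], false⟩, []⟩
def f27 : Fc := ⟨false, st0, [], ⟨(nat_lit 128), [], [⟨(nat_lit 0x70000000000000000), (nat_lit 2), (nat_lit 9), (nat_lit 2)⟩], false⟩, []⟩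
def f28 : Fc := ⟨false, st0, [], ⟨(nat_lit 128), [], [⟨(nat_lit 0x150000000000000000), (nat_lit 5), (nat_lit 26), (nat_lit 2)⟩], false⟩, []⟩
def f29 : Fc := ⟨false, st0, [], ⟨(nat_lit 128), [], [⟨(nat_lit 0x10000000000000001), (nat_lit 0), (nat_lit 2), (nat_lit 2)⟩], false⟩, []⟩
def f30 : Fc := ⟨false, st0, [], ⟨(nat_lit 128), [], [⟨(nat_lit 0x40000000000000000), (nat_lit 1), (nat_lit 5), (nat_lit 2)⟩], false⟩, []⟩
def f31 : Fc := ⟨false, st0, [], ⟨(nat_lit 128), [], [⟨(nat_lit 0x30000000000000000), (nat_lit 1), (nat_lit 4), (nat_lit 2)⟩], false⟩, []⟩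
def f32 : Fc := ⟨false, st0, [], ⟨(nat_lit 128), [], [⟨(nat_lit 0xa0000000000000000), (nat_lit 1), (nat_lit 11), (nat_lit 2)⟩], false⟩, []⟩
def f33 : Fc := ⟨false, st0, [], ⟨(nat_lit 128), [], [⟨(nat_lit 0x50000000000000003), (nat_lit 0), (nat_lit 8), (nat_lit 2)⟩], false⟩, []⟩
def f34 : Fc := ⟨false, st0, [], ⟨(nat_lit 128), [], [⟨(nat_lit 0x20000000000000001), (nat_lit 0), (nat_lit 3), (nat_lit 2)⟩], false⟩, []⟩
def f35 : Fc := ⟨false, st0, [], ⟨(nat_lit 128), [], [⟨(nat_lit 0x10000000000000005), (nat_lit 0), (nat_lit 6), (nat_lit 2)⟩], false⟩, []⟩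
def f36 : Fc := ⟨false, st0, [], ⟨(nat_lit 128), [], [⟨(nat_lit 0x30000000000000005), (nat_lit 0), (nat_lit 8), (nat_lit 2)⟩], false⟩, []⟩
def f37 : Fc := ⟨false, st0, [], ⟨(nat_lit 128), [], [⟨(nat_lit 0x10000000000000002), (nat_lit 0), (nat_lit 3), (nat_lit 2)⟩], false⟩, []⟩
def f38 : Fc := ⟨false, st0, [], ⟨(nat_lit 128), [⟨(nat_lit 0x6000000000000000a), (nat_lit 0), (nat_lit 16), (nat_lit 2)⟩], [], false⟩, []⟩
def f39 : Fc := ⟨false, st0, [], ⟨(nat_lit 31104), [], [⟨(nb (nat_lit 0x6000000000000000a) (nat_lit 512) (nat_lit 0)), (nat_lit 1), (nat_lit 17), (nat_lit 6)⟩], false⟩, []⟩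
def f40 : Fc := ⟨false, st0, [], ⟨(nat_lit 128), [⟨(nat_lit 0x7000000000000000e), (nat_lit 0), (nat_lit 21), (nat_lit 2)⟩], [], false⟩, []⟩
def f41 : Fc := ⟨false, st0, [], ⟨(nat_lit 31104), [], [⟨(nb (nat_lit 0x7000000000000000e) (nat_lit 512) (nat_lit 0)), (nat_lit 2), (nat_lit 23), (nat_lit 6)⟩], false⟩, []⟩
def f42 : Fc := ⟨false, st0, [], ⟨(nat_lit 243), [], [⟨(nb (nat_lit 2) (nat_lit 512) (nat_lit 0)), (nat_lit 1), (nat_lit 3), (nat_lit 3)⟩], false⟩, []⟩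
def f43 : Fc := ⟨false, st0, [], ⟨(nat_lit 243), [], [⟨(nb (nat_lit 1) (nat_lit 512) (nat_lit 1)), (nat_lit 0), (nat_lit 2), (nat_lit 3)⟩], false⟩, []⟩
def f44 : Fc := ⟨false, st0, [], ⟨(nat_lit 128), [⟨(nat_lit 0x30000000000000000), (nat_lit 1), (nat_lit 4), (nat_lit 2)⟩], [], false⟩, []⟩
def f45 : Fc := ⟨false, st0, [], ⟨(nat_lit 128), [⟨(nat_lit 0x30000000000000000), (nat_lit 1), (nat_lit 4), (nat_lit 2)⟩], [⟨(nat_lit 0x50000000000000000), (nat_lit 3), (nat_lit 8), (nat_lit 2)⟩], false⟩, []⟩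
def f46 : Fc := ⟨false, st0, [], ⟨(nat_lit 128), [⟨(nat_lit 0x30000000000000000), (nat_lit 1), (nat_lit 4), (nat_lit 2)⟩, ⟨(nat_lit 0xa0000000000000000), (nat_lit 6), (nat_lit 16), (nat_lit 2)⟩], [], false⟩, []⟩
def f47 : Fc := ⟨false, st0, [], ⟨(nat_lit 31104), [⟨(nat_lit 0x30000000000000000), (nat_lit 1), (nat_lit 4), (nat_lit 2)⟩], [⟨(nb (nat_lit 10) (nat_lit 576) (nat_lit 0)), (nb (nat_lit 6) (nat_lit 512) (nat_lit 1)), (nat_lit 17), (nat_lit 6)⟩], false⟩, []⟩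
def f48 : Fc := ⟨false, st0, [], ⟨(nat_lit 243), [], [⟨(nb (nat_lit 8) (nat_lit 512) (nat_lit 3)), (nat_lit 0), (nat_lit 11), (nat_lit 3)⟩], false⟩, []⟩
def f49 : Fc := ⟨false, st0, [], ⟨(nat_lit 128), [⟨(nat_lit 0xe0000000000000000), (nat_lit 7), (nat_lit 21), (nat_lit 2)⟩], [], false⟩, []⟩
def f50 : Fc := ⟨false, st0, [], ⟨(nat_lit 31104), [], [⟨(nb (nat_lit 14) (nat_lit 576) (nat_lit 0)), (nb (nat_lit 7) (nat_lit 512) (nat_lit 2)), (nat_lit 23), (nat_lit 6)⟩], false⟩, []⟩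
def f51 : Fc := ⟨false, st0, [], ⟨(nat_lit 128), [⟨(nat_lit 0x20000000000000000), (nat_lit 1), (nat_lit 3), (nat_lit 2)⟩], [⟨(nat_lit 0x60000000000000000), (nat_lit 5), (nat_lit 11), (nat_lit 2)⟩], false⟩, []⟩
def f52 : Fc := ⟨false, st0, [], ⟨(nat_lit 243), [], [⟨(nb (nat_lit 21) (nat_lit 512) (nat_lit 10)), (nat_lit 0), (nat_lit 31), (nat_lit 3)⟩], false⟩, []⟩
def f53 : Fc := ⟨false, st0, [], ⟨(nat_lit 128), [], [⟨(nat_lit 0x40000000000000003), (nat_lit 0), (nat_lit 7), (nat_lit 2)⟩], false⟩, []⟩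
def f54 : Fc := ⟨false, st0, [], ⟨(nat_lit 128), [], [⟨(nat_lit 0x30000000000000004), (nat_lit 0), (nat_lit 7), (nat_lit 2)⟩], false⟩, []⟩
def f55 : Fc := ⟨false, st0, [], ⟨(nat_lit 128), [], [⟨(nat_lit 0xa0000000000000000), (nat_lit 3), (nat_lit 13), (nat_lit 2)⟩], false⟩, []⟩
def f56 : Fc := ⟨false, st0, [], ⟨(nat_lit 128), [], [⟨(nat_lit 0x10000000000000000), (nat_lit 1), (nat_lit 2), (nat_lit 2)⟩], false⟩, []⟩
def f57 : Fc := ⟨false, st0, [], ⟨(nat_lit 128), [], [⟨(nat_lit 0x40000000000000000), (nat_lit 3), (nat_lit 7), (nat_lit 2)⟩], false⟩, []⟩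
def f58 : Fc := ⟨false, st0, [], ⟨(nat_lit 128), [], [⟨(nat_lit 0x10000000000000004), (nat_lit 0), (nat_lit 5), (nat_lit 2)⟩], false⟩, []⟩
def f59 : Fc := ⟨false, st0, [], ⟨(nat_lit 128), [], [⟨(nat_lit 0x70000000000000019), (nat_lit 0), (nat_lit 32), (nat_lit 2)⟩], false⟩, []⟩
def f60 : Fc := ⟨false, st0, [], ⟨(nat_lit 128), [], [⟨(nat_lit 0x20000000000000003), (nat_lit 0), (nat_lit 5), (nat_lit 2)⟩], false⟩, []⟩
def f61 : Fc := ⟨false, st0, [], ⟨(nat_lit 128), [], [⟨(nat_lit 0x20000000000000000), (nat_lit 5), (nat_lit 7), (nat_lit 2)⟩], false⟩, []⟩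
def f62 : Fc := ⟨false, st0, [], ⟨(nat_lit 243), [], [⟨(nb (nat_lit 5) (nat_lit 512) (nat_lit 0)), (nat_lit 3), (nat_lit 8), (nat_lit 3)⟩], false⟩, []⟩
def f63 : Fc := ⟨false, st0, [], ⟨(nat_lit 128), [⟨(nat_lit 0x20000000000000003), (nat_lit 0), (nat_lit 5), (nat_lit 2)⟩], [], false⟩, []⟩
def f64 : Fc := ⟨false, st0, [], ⟨(nat_lit 31104), [⟨(nat_lit 0x20000000000000003), (nat_lit 0), (nat_lit 5), (nat_lit 2)⟩], [⟨(nat_lit 0x20000000000000005), (nb (nat_lit 8) (nat_lit 512) (nat_lit 0)), (nat_lit 15), (nat_lit 6)⟩], false⟩, []⟩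
def f65 : Fc := ⟨false, st0, [], ⟨(nat_lit 128), [⟨(nat_lit 0x20000000000000003), (nat_lit 0), (nat_lit 5), (nat_lit 2)⟩], [⟨(nat_lit 0x20000000000000000), (nat_lit 5), (nat_lit 7), (nat_lit 2)⟩], false⟩, []⟩
def f66 : Fc := ⟨false, st0, [], ⟨(nat_lit 128), [⟨(nat_lit 0x20000000000000003), (nat_lit 0), (nat_lit 5), (nat_lit 2)⟩, ⟨(nat_lit 0x20000000000000000), (nat_lit 5), (nat_lit 7), (nat_lit 2)⟩], [], false⟩, []⟩
def f67 : Fc := ⟨false, st0, [], ⟨(nat_lit 31104), [⟨(nat_lit 0x20000000000000003), (nat_lit 0), (nat_lit 5), (nat_lit 2)⟩], [⟨(nb (nat_lit 2) (nat_lit 576) (nat_lit 2)), (nb (nat_lit 5) (nat_lit 512) (nat_lit 0)), (nat_lit 9), (nat_lit 6)⟩], false⟩, []⟩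
def f68 : Fc := ⟨false, st0, [], ⟨(nat_lit 31104), [⟨(nat_lit 0x20000000000000003), (nat_lit 0), (nat_lit 5), (nat_lit 2)⟩], [⟨(nb (nat_lit 5) (nat_lit 512) (nat_lit 0)), (nat_lit 3), (nat_lit 8), (nat_lit 3)⟩], false⟩, []⟩
def f69 : Fc := ⟨false, st0, [], ⟨(nat_lit 243), [], [⟨(nb (nat_lit 4) (nat_lit 512) (nat_lit 0)), (nat_lit 1), (nat_lit 5), (nat_lit 3)⟩], false⟩, []⟩
def f70 : Fc := ⟨false, st0, [], ⟨(nat_lit 243), [⟨(nb (nat_lit 4) (nat_lit 512) (nat_lit 0)), (nat_lit 1), (nat_lit 5), (nat_lit 3)⟩], [⟨(nb (nat_lit 5) (nat_lit 512) (nat_lit 0)), (nat_lit 3), (nat_lit 8), (nat_lit 3)⟩], false⟩, []⟩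
def f71 : Fc := ⟨false, st0, [], ⟨(nat_lit 31104), [], [⟨(nat_lit 0x50000000000000000), (nb (nat_lit 3) (nat_lit 512) (nat_lit 3)), (nat_lit 11), (nat_lit 6)⟩], false⟩, []⟩
def f72 : Fc := ⟨false, st0, [], ⟨(nat_lit 128), [], [⟨(nat_lit 0xa0000000000000000), (nat_lit 9), (nat_lit 19), (nat_lit 2)⟩], false⟩, []⟩
def f73 : Fc := ⟨false, st0, [], ⟨(nat_lit 31104), [], [⟨(nat_lit 0x40000000000000000), (nb (nat_lit 1) (nat_lit 512) (nat_lit 1)), (nat_lit 6), (nat_lit 6)⟩], false⟩, []⟩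
def f74 : Fc := ⟨false, st0, [], ⟨(nat_lit 128), [], [⟨(nat_lit 0x20000000000000000), (nat_lit 3), (nat_lit 5), (nat_lit 2)⟩], false⟩, []⟩
def f75 : Fc := ⟨false, st0, [], ⟨(nat_lit 243), [], [⟨(nb (nat_lit 3) (nat_lit 512) (nat_lit 0)), (nat_lit 5), (nat_lit 8), (nat_lit 3)⟩], false⟩, []⟩
def f76 : Fc := ⟨false, st0, [], ⟨(nat_lit 243), [], [⟨(nb (nat_lit 1) (nat_lit 512) (nat_lit 0)), (nat_lit 4), (nat_lit 5), (nat_lit 3)⟩], false⟩, []⟩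
def f77 : Fc := ⟨false, st0, [], ⟨(nat_lit 30375), [], [⟨(nb (nat_lit 5) (nat_lit 512) (nat_lit 0)), (nb (nat_lit 3) (nat_lit 3072) (nat_lit 3)), (nat_lit 11), (nat_lit 15)⟩], false⟩, []⟩
def f78 : Fc := ⟨false, st0, [], ⟨(nat_lit 31104), [], [⟨(nat_lit 0x10000000000000001), (nb (nat_lit 4) (nat_lit 512) (nat_lit 0)), (nat_lit 6), (nat_lit 6)⟩], false⟩, []⟩
def f79 : Fc := ⟨false, st0, [], ⟨(nat_lit 128), [], [⟨(nat_lit 0x30000000000000002), (nat_lit 0), (nat_lit 5), (nat_lit 2)⟩], false⟩, []⟩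
def f80 : Fc := ⟨false, st0, [], ⟨(nat_lit 128), [⟨(nat_lit 0x10000000000000000), (nat_lit 0), (nat_lit 1), (nat_lit 2)⟩, ⟨(nat_lit 0x30000000000000002), (nat_lit 0), (nat_lit 5), (nat_lit 2)⟩], [⟨(nat_lit 0x50000000000000000), (nat_lit 6), (nat_lit 11), (nat_lit 2)⟩], false⟩, []⟩
def f81 : Fc := ⟨false, st0, [], ⟨(nat_lit 128), [⟨(nat_lit 0x30000000000000002), (nat_lit 0), (nat_lit 5), (nat_lit 2)⟩], [⟨(nat_lit 0x10000000000000000), (nat_lit 0), (nat_lit 1), (nat_lit 2)⟩], false⟩, []⟩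
def f82 : Fc := ⟨false, st0, [], ⟨(nat_lit 128), [⟨(nat_lit 0x10000000000000000), (nat_lit 2), (nat_lit 3), (nat_lit 2)⟩, ⟨(nat_lit 0x30000000000000002), (nat_lit 0), (nat_lit 5), (nat_lit 2)⟩], [⟨(nat_lit 0x20000000000000000), (nat_lit 1), (nat_lit 3), (nat_lit 2)⟩], false⟩, []⟩
def f83 : Fc := ⟨false, st0, [], ⟨(nat_lit 128), [⟨(nat_lit 0x30000000000000002), (nat_lit 0), (nat_lit 5), (nat_lit 2)⟩], [⟨(nat_lit 0x10000000000000000), (nat_lit 2), (nat_lit 3), (nat_lit 2)⟩], false⟩, []⟩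
def f84 : Fc := ⟨false, st0, [], ⟨(nat_lit 128), [⟨(nat_lit 0x30000000000000002), (nat_lit 0), (nat_lit 5), (nat_lit 2)⟩], [⟨(nat_lit 0x30000000000000000), (nat_lit 5), (nat_lit 8), (nat_lit 2)⟩], false⟩, []⟩
def f85 : Fc := ⟨false, st0, [], ⟨(nat_lit 128), [], [⟨(nat_lit 0x90000000000000000), (nat_lit 10), (nat_lit 19), (nat_lit 2)⟩], false⟩, []⟩
def f86 : Fc := ⟨false, st0, [], ⟨(nat_lit 128), [], [⟨(nat_lit 0x30000000000000000), (nat_lit 2), (nat_lit 5), (nat_lit 2)⟩], false⟩, []⟩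
def f87 : Fc := ⟨false, st0, [], ⟨(nat_lit 31104), [], [⟨(nb (nat_lit 3) (nat_lit 512) (nb (nat_lit 3) (nat_lit 64) (nat_lit 0))), (nat_lit 5), (nat_lit 11), (nat_lit 6)⟩], false⟩, []⟩
def f88 : Fc := ⟨false, st0, [], ⟨(nat_lit 128), [], [⟨(nat_lit 0x90000000000000000), (nat_lit 14), (nat_lit 23), (nat_lit 2)⟩], false⟩, []⟩
def f89 : Fc := ⟨false, st0, [], ⟨(nat_lit 31104), [], [⟨(nb (nat_lit 1) (nat_lit 512) (nb (nat_lit 1) (nat_lit 64) (nat_lit 0))), (nat_lit 4), (nat_lit 6), (nat_lit 6)⟩], false⟩, []⟩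
def f90 : Fc := ⟨false, st0, [], ⟨(nat_lit 31104), [], [⟨(nb (nat_lit 1) (nat_lit 512) (nb (nat_lit 4) (nat_lit 64) (nat_lit 0))), (nat_lit 5), (nat_lit 10), (nat_lit 6)⟩], false⟩, []⟩
def f91 : Fc := ⟨false, st0, [], ⟨(nat_lit 128), [⟨(nat_lit 0x30000000000000002), (nat_lit 0), (nat_lit 5), (nat_lit 2)⟩], [], false⟩, []⟩
def f92 : Fc := ⟨false, st0, [], ⟨(nat_lit 128), [⟨(nat_lit 0x30000000000000002), (nat_lit 0), (nat_lit 5), (nat_lit 2)⟩], [⟨(nat_lit 0x70000000000000000), (nat_lit 2), (nat_lit 9), (nat_lit 2)⟩], false⟩, []⟩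
def f93 : Fc := ⟨false, st0, [], ⟨(nat_lit 128), [⟨(nat_lit 0x30000000000000002), (nat_lit 0), (nat_lit 5), (nat_lit 2)⟩, ⟨(nat_lit 0x70000000000000000), (nat_lit 2), (nat_lit 9), (nat_lit 2)⟩], [], false⟩, []⟩
def f94 : Fc := ⟨false, st0, [], ⟨(nat_lit 31104), [⟨(nat_lit 0x30000000000000002), (nat_lit 0), (nat_lit 5), (nat_lit 2)⟩], [⟨(nb (nat_lit 7) (nat_lit 576) (nb (nat_lit 25) (nat_lit 128) (nat_lit 0))), (nb (nat_lit 2) (nat_lit 512) (nb (nat_lit 30) (nat_lit 64) (nat_lit 0))), (nat_lit 64), (nat_lit 12)⟩], false⟩, []⟩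
def f95 : Fc := ⟨false, st0, [], ⟨(nat_lit 128), [⟨(nat_lit 0x30000000000000000), (nat_lit 2), (nat_lit 5), (nat_lit 2)⟩], [], false⟩, []⟩
def f96 : Fc := ⟨false, st0, [], ⟨(nat_lit 128), [⟨(nat_lit 0x30000000000000000), (nat_lit 2), (nat_lit 5), (nat_lit 2)⟩], [⟨(nat_lit 0x30000000000000002), (nat_lit 0), (nat_lit 5), (nat_lit 2)⟩], false⟩, []⟩
def f97 : Fc := ⟨false, st0, [], ⟨(nat_lit 128), [⟨(nat_lit 0x30000000000000002), (nat_lit 0), (nat_lit 5), (nat_lit 2)⟩, ⟨(nat_lit 0x30000000000000000), (nat_lit 2), (nat_lit 5), (nat_lit 2)⟩], [], false⟩, []⟩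
def f98 : Fc := ⟨false, st0, [], ⟨(nat_lit 31104), [⟨(nat_lit 0x30000000000000002), (nat_lit 0), (nat_lit 5), (nat_lit 2)⟩], [⟨(nb (nat_lit 3) (nat_lit 576) (nat_lit 0x600000000000000000000000000000006)), (nb (nat_lit 2) (nat_lit 512) (nb (nat_lit 15) (nat_lit 64) (nat_lit 0))), (nat_lit 32), (nat_lit 12)⟩], false⟩, []⟩
def f99 : Fc := ⟨false, st0, [], ⟨(nat_lit 31104), [⟨(nat_lit 0x30000000000000002), (nat_lit 0), (nat_lit 5), (nat_lit 2)⟩], [⟨(nb (nat_lit 3) (nat_lit 512) (nb (nat_lit 3) (nat_lit 64) (nat_lit 0))), (nat_lit 5), (nat_lit 11), (nat_lit 6)⟩], false⟩, []⟩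
def f100 : Fc := ⟨false, st0, [], ⟨(nat_lit 243), [], [⟨(nb (nat_lit 3) (nat_lit 512) (nat_lit 0)), (nat_lit 14), (nat_lit 17), (nat_lit 3)⟩], false⟩, []⟩
def f101 : Fc := ⟨false, st0, [], ⟨(nat_lit 243), [⟨(nb (nat_lit 3) (nat_lit 512) (nat_lit 0)), (nat_lit 14), (nat_lit 17), (nat_lit 3)⟩], [⟨(nb (nat_lit 3) (nat_lit 512) (nat_lit 0)), (nat_lit 7), (nat_lit 10), (nat_lit 3)⟩], false⟩, []⟩
def f102 : Fc := ⟨false, st0, [], ⟨(nat_lit 128), [], [⟨(nat_lit 0x7000000000000000d), (nat_lit 0), (nat_lit 20), (nat_lit 2)⟩], false⟩, []⟩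
def f103 : Fc := ⟨false, st0, [], ⟨(nat_lit 128), [], [⟨(nat_lit 0x50000000000000000), (nat_lit 8), (nat_lit 13), (nat_lit 2)⟩], false⟩, []⟩
def f104 : Fc := ⟨false, st0, [], ⟨(nat_lit 243), [], [⟨(nb (nat_lit 1) (nat_lit 512) (nat_lit 0)), (nat_lit 3), (nat_lit 4), (nat_lit 3)⟩], false⟩, []⟩
def f105 : Fc := ⟨false, st0, [], ⟨(nat_lit 31104), [], [⟨(nb (nat_lit 1) (nat_lit 512) (nb (nat_lit 2) (nat_lit 64) (nat_lit 0))), (nat_lit 7), (nat_lit 10), (nat_lit 6)⟩], false⟩, []⟩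
def f106 : Fc := ⟨false, st0, [], ⟨(nat_lit 31104), [], [⟨(nb (nat_lit 2) (nat_lit 512) (nb (nat_lit 3) (nat_lit 64) (nat_lit 0))), (nat_lit 6), (nat_lit 11), (nat_lit 6)⟩], false⟩, []⟩
def f107 : Fc := ⟨false, st0, [], ⟨(nat_lit 243), [], [⟨(nb (nat_lit 1) (nat_lit 512) (nat_lit 0)), (nat_lit 7), (nat_lit 8), (nat_lit 3)⟩], false⟩, []⟩
def f108 : Fc := ⟨false, st0, [], ⟨(nat_lit 125), [], [⟨(nb (nat_lit 5) (nat_lit 3072) (nat_lit 0)), (nat_lit 3), (nat_lit 8), (nat_lit 5)⟩], false⟩, []⟩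
def f109 : Fc := ⟨false, st0, [], ⟨(nat_lit 125), [], [⟨(nb (nat_lit 4) (nat_lit 3072) (nat_lit 0)), (nat_lit 1), (nat_lit 5), (nat_lit 5)⟩], false⟩, []⟩
def f110 : Fc := ⟨false, st0, [], ⟨(nat_lit 31104), [], [⟨(nb (nat_lit 0x30000000000000002) (nat_lit 512) (nat_lit 0)), (nat_lit 6), (nat_lit 11), (nat_lit 6)⟩], false⟩, []⟩
def f111 : Fc := ⟨false, st0, [], ⟨(nat_lit 128), [⟨(nat_lit 0x30000000000000002), (nat_lit 0), (nat_lit 5), (nat_lit 2)⟩], [⟨(nat_lit 0x30000000000000000), (nat_lit 2), (nat_lit 5), (nat_lit 2)⟩], false⟩, []⟩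
def f112 : Fc := ⟨false, st0, [], ⟨(nat_lit 128), [⟨(nat_lit 0x10000000000000000), (nat_lit 0), (nat_lit 1), (nat_lit 2)⟩], [⟨(nat_lit 0x70000000000000000), (nat_lit 2), (nat_lit 9), (nat_lit 2)⟩], false⟩, []⟩
def f113 : Fc := ⟨false, st0, [], ⟨(nat_lit 128), [⟨(nat_lit 0x10000000000000000), (nat_lit 0), (nat_lit 1), (nat_lit 2)⟩], [], false⟩, []⟩
def f114 : Fc := ⟨false, st0, [], ⟨(nat_lit 128), [⟨(nat_lit 0x10000000000000000), (nat_lit 0), (nat_lit 1), (nat_lit 2)⟩], [⟨(nat_lit 0x10000000000000000), (nat_lit 4), (nat_lit 5), (nat_lit 2)⟩], false⟩, []⟩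
def f115 : Fc := ⟨false, st0, [], ⟨(nat_lit 128), [⟨(nat_lit 0x10000000000000000), (nat_lit 0), (nat_lit 1), (nat_lit 2)⟩, ⟨(nat_lit 0x10000000000000000), (nat_lit 4), (nat_lit 5), (nat_lit 2)⟩], [], false⟩, []⟩
def f116 : Fc := ⟨false, st0, [], ⟨(nat_lit 128), [⟨(nat_lit 0x10000000000000000), (nat_lit 0), (nat_lit 1), (nat_lit 2)⟩, ⟨(nat_lit 0x10000000000000000), (nat_lit 4), (nat_lit 5), (nat_lit 2)⟩], [⟨(nat_lit 0x50000000000000000), (nat_lit 6), (nat_lit 11), (nat_lit 2)⟩], false⟩, []⟩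
def f117 : Fc := ⟨false, st0, [], ⟨(nat_lit 128), [⟨(nat_lit 0x10000000000000000), (nat_lit 4), (nat_lit 5), (nat_lit 2)⟩, ⟨(nat_lit 0x500000000000000000000000000000000), (nat_lit 0x60000000000000000), (nat_lit 11), (nat_lit 4)⟩], [], false⟩, []⟩
def f118 : Fc := ⟨false, st0, [], ⟨(nat_lit 31104), [⟨(nat_lit 0x10000000000000000), (nat_lit 4), (nat_lit 5), (nat_lit 2)⟩], [⟨(nb (nat_lit 5) (nat_lit 640) (nat_lit 8)), (nb (nat_lit 6) (nat_lit 576) (nb (nat_lit 8) (nat_lit 64) (nat_lit 0))), (nat_lit 27), (nat_lit 12)⟩], false⟩, []⟩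
def f119 : Fc := ⟨false, st0, [], ⟨(nat_lit 128), [⟨(nat_lit 0x20000000000000000), (nat_lit 1), (nat_lit 3), (nat_lit 2)⟩], [], false⟩, []⟩
def f120 : Fc := ⟨false, st0, [], ⟨(nat_lit 128), [⟨(nat_lit 0x20000000000000000), (nat_lit 1), (nat_lit 3), (nat_lit 2)⟩], [⟨(nat_lit 0x10000000000000000), (nat_lit 2), (nat_lit 3), (nat_lit 2)⟩], false⟩, []⟩
def f121 : Fc := ⟨false, st0, [], ⟨(nat_lit 128), [⟨(nat_lit 0x10000000000000000), (nat_lit 2), (nat_lit 3), (nat_lit 2)⟩, ⟨(nat_lit 0x20000000000000000), (nat_lit 1), (nat_lit 3), (nat_lit 2)⟩], [], false⟩, []⟩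
def f122 : Fc := ⟨false, st0, [], ⟨(nat_lit 128), [⟨(nat_lit 0x10000000000000000), (nat_lit 2), (nat_lit 3), (nat_lit 2)⟩, ⟨(nat_lit 0x20000000000000000), (nat_lit 1), (nat_lit 3), (nat_lit 2)⟩], [⟨(nat_lit 0x10000000000000000), (nat_lit 4), (nat_lit 5), (nat_lit 2)⟩], false⟩, []⟩
def f123 : Fc := ⟨false, st0, [], ⟨(nat_lit 128), [⟨(nat_lit 0x10000000000000000), (nat_lit 2), (nat_lit 3), (nat_lit 2)⟩, ⟨(nat_lit 0x10000000000000000), (nat_lit 4), (nat_lit 5), (nat_lit 2)⟩, ⟨(nat_lit 0x20000000000000000), (nat_lit 1), (nat_lit 3), (nat_lit 2)⟩], [], false⟩, []⟩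
def f124 : Fc := ⟨false, st0, [], ⟨(nat_lit 31104), [⟨(nat_lit 0x10000000000000000), (nat_lit 2), (nat_lit 3), (nat_lit 2)⟩, ⟨(nat_lit 0x10000000000000000), (nat_lit 4), (nat_lit 5), (nat_lit 2)⟩], [⟨(nb (nat_lit 2) (nat_lit 576) (nat_lit 0)), (nb (nat_lit 1) (nat_lit 512) (nat_lit 3)), (nat_lit 6), (nat_lit 6)⟩], false⟩, []⟩
def f125 : Fc := ⟨false, st0, [], ⟨(nat_lit 128), [⟨(nat_lit 0x10000000000000000), (nat_lit 4), (nat_lit 5), (nat_lit 2)⟩], [⟨(nat_lit 0x10000000000000000), (nat_lit 2), (nat_lit 3), (nat_lit 2)⟩], false⟩, []⟩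
def f126 : Fc := ⟨false, st0, [], ⟨(nat_lit 128), [⟨(nat_lit 0x10000000000000000), (nat_lit 4), (nat_lit 5), (nat_lit 2)⟩], [⟨(nat_lit 0x30000000000000000), (nat_lit 5), (nat_lit 8), (nat_lit 2)⟩], false⟩, []⟩
def f127 : Fc := ⟨false, st0, [], ⟨(nat_lit 243), [], [⟨(nb (nat_lit 7) (nat_lit 512) (nat_lit 0)), (nat_lit 3), (nat_lit 10), (nat_lit 3)⟩], false⟩, []⟩
def f128 : Fc := ⟨false, st0, [], ⟨(nat_lit 31104), [], [⟨(nb (nat_lit 1) (nat_lit 576) (nat_lit 0)), (nat_lit 2), (nat_lit 3), (nat_lit 6)⟩], false⟩, []⟩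
def f129 : Fc := ⟨false, st0, [], ⟨(nat_lit 128), [⟨(nat_lit 0x10000000000000000), (nat_lit 0), (nat_lit 1), (nat_lit 2)⟩], [⟨(nat_lit 0x10000000000000000), (nat_lit 2), (nat_lit 3), (nat_lit 2)⟩], false⟩, []⟩
def f130 : Fc := ⟨false, st0, [], ⟨(nat_lit 128), [⟨(nat_lit 0x10000000000000000), (nat_lit 0), (nat_lit 1), (nat_lit 2)⟩], [⟨(nat_lit 0x30000000000000000), (nat_lit 1), (nat_lit 4), (nat_lit 2)⟩], false⟩, []⟩
def f131 : Fc := ⟨false, st0, [], ⟨(nat_lit 16000), [], [⟨(nb (nat_lit 3) (nat_lit 3072) (nb (nat_lit 3) (nat_lit 64) (nat_lit 0))), (nat_lit 5), (nat_lit 11), (nat_lit 10)⟩], false⟩, []⟩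
def f132 : Fc := ⟨false, st0, [], ⟨(nat_lit 16000), [], [⟨(nb (nat_lit 1) (nat_lit 3072) (nb (nat_lit 1) (nat_lit 64) (nat_lit 0))), (nat_lit 4), (nat_lit 6), (nat_lit 10)⟩], false⟩, []⟩
def f133 : Fc := ⟨false, st0, [], ⟨(nat_lit 243), [], [⟨(nb (nat_lit 2) (nat_lit 512) (nat_lit 0)), (nat_lit 7), (nat_lit 9), (nat_lit 3)⟩], false⟩, []⟩
def f134 : Fc := ⟨false, st0, [], ⟨(nat_lit 243), [], [⟨(nb (nat_lit 1) (nat_lit 512) (nat_lit 0)), (nat_lit 6), (nat_lit 7), (nat_lit 3)⟩], false⟩, []⟩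
def f135 : Fc := ⟨false, st0, [], ⟨(nat_lit 128), [⟨(nat_lit 0x20000000000000003), (nat_lit 0), (nat_lit 5), (nat_lit 2)⟩], [⟨(nat_lit 0x60000000000000000), (nat_lit 5), (nat_lit 11), (nat_lit 2)⟩], false⟩, []⟩
def f136 : Fc := ⟨false, st0, [], ⟨(nat_lit 128), [⟨(nat_lit 0x10000000000000000), (nat_lit 2), (nat_lit 3), (nat_lit 2)⟩, ⟨(nat_lit 0x20000000000000003), (nat_lit 0), (nat_lit 5), (nat_lit 2)⟩], [⟨(nat_lit 0x20000000000000000), (nat_lit 1), (nat_lit 3), (nat_lit 2)⟩], false⟩, []⟩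
def f137 : Fc := ⟨false, st0, [], ⟨(nat_lit 128), [⟨(nat_lit 0x20000000000000003), (nat_lit 0), (nat_lit 5), (nat_lit 2)⟩], [⟨(nat_lit 0x10000000000000000), (nat_lit 2), (nat_lit 3), (nat_lit 2)⟩], false⟩, []⟩
def f138 : Fc := ⟨false, st0, [], ⟨(nat_lit 128), [⟨(nat_lit 0x20000000000000003), (nat_lit 0), (nat_lit 5), (nat_lit 2)⟩], [⟨(nat_lit 0x50000000000000000), (nat_lit 3), (nat_lit 8), (nat_lit 2)⟩], false⟩, []⟩
def f139 : Fc := ⟨false, st0, [], ⟨(nat_lit 128), [], [⟨(nat_lit 0xe0000000000000000), (nat_lit 9), (nat_lit 23), (nat_lit 2)⟩], false⟩, []⟩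
def f140 : Fc := ⟨false, st0, [], ⟨(nat_lit 128), [], [⟨(nat_lit 0x50000000000000000), (nat_lit 4), (nat_lit 9), (nat_lit 2)⟩], false⟩, []⟩
def f141 : Fc := ⟨false, st0, [], ⟨(nat_lit 128), [⟨(nat_lit 0x50000000000000000), (nat_lit 4), (nat_lit 9), (nat_lit 2)⟩], [], false⟩, []⟩
def f142 : Fc := ⟨false, st0, [], ⟨(nat_lit 31104), [], [⟨(nb (nat_lit 5) (nat_lit 576) (nat_lit 0)), (nb (nat_lit 4) (nat_lit 512) (nat_lit 1)), (nat_lit 10), (nat_lit 6)⟩], false⟩, []⟩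
def f143 : Fc := ⟨false, st0, [], ⟨(nat_lit 31104), [], [⟨(nat_lit 0x1c0000000000000000), (nb (nat_lit 14) (nat_lit 512) (nat_lit 17)), (nat_lit 59), (nat_lit 6)⟩], false⟩, []⟩
def f144 : Fc := ⟨false, st0, [], ⟨(nat_lit 31104), [], [⟨(nat_lit 0xa0000000000000000), (nb (nat_lit 6) (nat_lit 512) (nat_lit 7)), (nat_lit 23), (nat_lit 6)⟩], false⟩, []⟩
def f145 : Fc := ⟨false, st0, [], ⟨(nat_lit 31104), [], [⟨(nat_lit 0x50000000000000000), (nb (nat_lit 1) (nat_lit 512) (nat_lit 4)), (nat_lit 10), (nat_lit 6)⟩], false⟩, []⟩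
def f146 : Fc := ⟨false, st0, [], ⟨(nat_lit 128), [⟨(nat_lit 0x40000000000000000), (nat_lit 6), (nat_lit 10), (nat_lit 2)⟩], [], false⟩, []⟩
def f147 : Fc := ⟨false, st0, [], ⟨(nat_lit 31104), [], [⟨(nb (nat_lit 4) (nat_lit 576) (nat_lit 7)), (nb (nat_lit 6) (nat_lit 512) (nb (nat_lit 2) (nat_lit 64) (nat_lit 0))), (nat_lit 19), (nat_lit 6)⟩], false⟩, []⟩
def f148 : Fc := ⟨false, st0, [], ⟨(nat_lit 128), [⟨(nat_lit 0x10000000000000000), (nat_lit 1), (nat_lit 2), (nat_lit 2)⟩], [], false⟩, []⟩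
def f149 : Fc := ⟨false, st0, [], ⟨(nat_lit 31104), [], [⟨(nb (nat_lit 1) (nat_lit 576) (nat_lit 3)), (nb (nat_lit 1) (nat_lit 512) (nb (nat_lit 2) (nat_lit 64) (nat_lit 0))), (nat_lit 7), (nat_lit 6)⟩], false⟩, []⟩
def f150 : Fc := ⟨false, st0, [], ⟨(nat_lit 128), [⟨(nat_lit 0x20000000000000003), (nat_lit 0), (nat_lit 5), (nat_lit 2)⟩], [⟨(nat_lit 0x20000000000000000), (nat_lit 7), (nat_lit 9), (nat_lit 2)⟩], false⟩, []⟩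
def f151 : Fc := ⟨false, st0, [], ⟨(nat_lit 128), [⟨(nat_lit 0x20000000000000003), (nat_lit 0), (nat_lit 5), (nat_lit 2)⟩, ⟨(nat_lit 0x20000000000000000), (nat_lit 7), (nat_lit 9), (nat_lit 2)⟩], [], false⟩, []⟩
def f152 : Fc := ⟨false, st0, [], ⟨(nat_lit 31104), [⟨(nat_lit 0x20000000000000003), (nat_lit 0), (nat_lit 5), (nat_lit 2)⟩], [⟨(nb (nat_lit 2) (nat_lit 576) (nb (nat_lit 30) (nat_lit 64) (nat_lit 0))), (nb (nat_lit 7) (nat_lit 512) (nat_lit 25)), (nat_lit 64), (nat_lit 6)⟩], false⟩, []⟩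
def f153 : Fc := ⟨false, st0, [], ⟨(nat_lit 128), [⟨(nat_lit 0x20000000000000003), (nat_lit 0), (nat_lit 5), (nat_lit 2)⟩, ⟨(nat_lit 0x20000000000000000), (nat_lit 7), (nat_lit 9), (nat_lit 2)⟩], [⟨(nat_lit 0xa0000000000000000), (nat_lit 3), (nat_lit 13), (nat_lit 2)⟩], false⟩, []⟩
def f154 : Fc := ⟨false, st0, [], ⟨(nat_lit 128), [⟨(nat_lit 0x20000000000000000), (nat_lit 3), (nat_lit 5), (nat_lit 2)⟩], [], false⟩, []⟩
def f155 : Fc := ⟨false, st0, [], ⟨(nat_lit 128), [⟨(nat_lit 0x20000000000000000), (nat_lit 3), (nat_lit 5), (nat_lit 2)⟩], [⟨(nat_lit 0x20000000000000003), (nat_lit 0), (nat_lit 5), (nat_lit 2)⟩], false⟩, []⟩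
def f156 : Fc := ⟨false, st0, [], ⟨(nat_lit 128), [⟨(nat_lit 0x20000000000000003), (nat_lit 0), (nat_lit 5), (nat_lit 2)⟩, ⟨(nat_lit 0x20000000000000000), (nat_lit 3), (nat_lit 5), (nat_lit 2)⟩], [], false⟩, []⟩
def f157 : Fc := ⟨false, st0, [], ⟨(nat_lit 31104), [⟨(nat_lit 0x20000000000000003), (nat_lit 0), (nat_lit 5), (nat_lit 2)⟩], [⟨(nb (nat_lit 3) (nat_lit 512) (nat_lit 0x600000000000000000000000000000006)), (nb (nat_lit 2) (nat_lit 576) (nb (nat_lit 15) (nat_lit 64) (nat_lit 0))), (nat_lit 32), (nat_lit 12)⟩], false⟩, []⟩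
def f158 : Fc := ⟨false, st0, [], ⟨(nat_lit 128), [⟨(nat_lit 0x20000000000000003), (nat_lit 0), (nat_lit 5), (nat_lit 2)⟩, ⟨(nat_lit 0x20000000000000000), (nat_lit 3), (nat_lit 5), (nat_lit 2)⟩], [⟨(nat_lit 0x20000000000000000), (nat_lit 1), (nat_lit 3), (nat_lit 2)⟩], false⟩, []⟩
def f159 : Fc := ⟨false, st0, [], ⟨(nat_lit 31104), [⟨(nat_lit 0x20000000000000003), (nat_lit 0), (nat_lit 5), (nat_lit 2)⟩], [⟨(nat_lit 0x50000000000000000), (nb (nat_lit 3) (nat_lit 512) (nat_lit 3)), (nat_lit 11), (nat_lit 6)⟩], false⟩, []⟩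
def f160 : Fc := ⟨false, st0, [], ⟨(nat_lit 128), [⟨(nat_lit 0x20000000000000003), (nat_lit 0), (nat_lit 5), (nat_lit 2)⟩], [⟨(nat_lit 0xa0000000000000000), (nat_lit 9), (nat_lit 19), (nat_lit 2)⟩], false⟩, []⟩
def f161 : Fc := ⟨false, st0, [], ⟨(nat_lit 243), [], [⟨(nb (nat_lit 1) (nat_lit 512) (nat_lit 7)), (nat_lit 0), (nat_lit 8), (nat_lit 3)⟩], false⟩, []⟩
def f162 : Fc := ⟨false, st0, [], ⟨(nat_lit 243), [⟨(nb (nat_lit 1) (nat_lit 512) (nat_lit 7)), (nat_lit 0), (nat_lit 8), (nat_lit 3)⟩], [⟨(nb (nat_lit 2) (nat_lit 512) (nat_lit 7)), (nat_lit 0), (nat_lit 9), (nat_lit 3)⟩], false⟩, []⟩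
def f163 : Fc := ⟨false, st0, [], ⟨(nat_lit 128), [], [⟨(nat_lit 0x60000000000000001), (nat_lit 0), (nat_lit 7), (nat_lit 2)⟩], false⟩, []⟩
def f164 : Fc := ⟨false, st0, [], ⟨(nat_lit 128), [], [⟨(nat_lit 0x50000000000000000), (nat_lit 7), (nat_lit 12), (nat_lit 2)⟩], false⟩, []⟩
def f165 : Fc := ⟨false, st0, [], ⟨(nat_lit 128), [], [⟨(nat_lit 0x80000000000000001), (nat_lit 0), (nat_lit 9), (nat_lit 2)⟩], false⟩, []⟩
def f166 : Fc := ⟨false, st0, [], ⟨(nat_lit 128), [], [⟨(nat_lit 0x30000000000000001), (nat_lit 0), (nat_lit 4), (nat_lit 2)⟩], false⟩, []⟩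
def f167 : Fc := ⟨false, st0, [], ⟨(nat_lit 128), [], [⟨(nat_lit 0xd0000000000000000), (nat_lit 16), (nat_lit 29), (nat_lit 2)⟩], false⟩, []⟩
def f168 : Fc := ⟨false, st0, [], ⟨(nat_lit 128), [], [⟨(nat_lit 0x10000000000000003), (nat_lit 0), (nat_lit 4), (nat_lit 2)⟩], false⟩, []⟩
def f169 : Fc := ⟨false, st0, [], ⟨(nat_lit 128), [], [⟨(nat_lit 0x10000000000000000), (nat_lit 11), (nat_lit 12), (nat_lit 2)⟩], false⟩, []⟩
def f170 : Fc := ⟨false, st0, [], ⟨(nat_lit 128), [], [⟨(nat_lit 0x10000000000000000), (nat_lit 65), (nat_lit 66), (nat_lit 2)⟩], false⟩, []⟩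
def f171 : Fc := ⟨false, st0, [], ⟨(nat_lit 128), [⟨(nat_lit 0x30000000000000000), (nat_lit 2), (nat_lit 5), (nat_lit 2)⟩], [⟨(nat_lit 0x10000000000000000), (nat_lit 4), (nat_lit 5), (nat_lit 2)⟩], false⟩, []⟩
def f172 : Fc := ⟨false, st0, [], ⟨(nat_lit 128), [⟨(nat_lit 0x10000000000000000), (nat_lit 4), (nat_lit 5), (nat_lit 2)⟩, ⟨(nat_lit 0x30000000000000000), (nat_lit 2), (nat_lit 5), (nat_lit 2)⟩], [], false⟩, []⟩
def f173 : Fc := ⟨false, st0, [], ⟨(nat_lit 31104), [⟨(nat_lit 0x30000000000000000), (nat_lit 2), (nat_lit 5), (nat_lit 2)⟩], [⟨(nb (nat_lit 1) (nat_lit 576) (nat_lit 80)), (nb (nat_lit 4) (nat_lit 512) (nb (nat_lit 65) (nat_lit 64) (nat_lit 0))), (nat_lit 150), (nat_lit 6)⟩], false⟩, []⟩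
def f174 : Fc := ⟨false, st0, [], ⟨(nat_lit 128), [⟨(nat_lit 0x10000000000000001), (nat_lit 0), (nat_lit 2), (nat_lit 2)⟩], [], false⟩, []⟩
def f175 : Fc := ⟨false, st0, [], ⟨(nat_lit 128), [⟨(nat_lit 0x10000000000000001), (nat_lit 0), (nat_lit 2), (nat_lit 2)⟩], [⟨(nat_lit 0x30000000000000000), (nat_lit 2), (nat_lit 5), (nat_lit 2)⟩], false⟩, []⟩
def f176 : Fc := ⟨false, st0, [], ⟨(nat_lit 128), [⟨(nat_lit 0x10000000000000001), (nat_lit 0), (nat_lit 2), (nat_lit 2)⟩, ⟨(nat_lit 0x30000000000000000), (nat_lit 2), (nat_lit 5), (nat_lit 2)⟩], [], false⟩, []⟩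
def f177 : Fc := ⟨false, st0, [], ⟨(nat_lit 31104), [⟨(nat_lit 0x30000000000000000), (nat_lit 2), (nat_lit 5), (nat_lit 2)⟩], [⟨(nb (nat_lit 0x10000000000000001) (nat_lit 512) (nat_lit 0)), (nat_lit 0x5000000000000000f), (nat_lit 22), (nat_lit 6)⟩], false⟩, []⟩
def f178 : Fc := ⟨false, st0, [], ⟨(nat_lit 31104), [⟨(nat_lit 0x30000000000000000), (nat_lit 2), (nat_lit 5), (nat_lit 2)⟩], [⟨(nb (nat_lit 1) (nat_lit 512) (nat_lit 0)), (nat_lit 4), (nat_lit 5), (nat_lit 3)⟩], false⟩, []⟩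
def f179 : Fc := ⟨false, st0, [], ⟨(nat_lit 243), [], [⟨(nb (nat_lit 1) (nat_lit 512) (nat_lit 0)), (nat_lit 11), (nat_lit 12), (nat_lit 3)⟩], false⟩, []⟩
def f180 : Fc := ⟨false, st0, [], ⟨(nat_lit 243), [⟨(nb (nat_lit 1) (nat_lit 512) (nat_lit 0)), (nat_lit 11), (nat_lit 12), (nat_lit 3)⟩], [⟨(nb (nat_lit 1) (nat_lit 512) (nat_lit 0)), (nat_lit 4), (nat_lit 5), (nat_lit 3)⟩], false⟩, []⟩
def f181 : Fc := ⟨false, st0, [], ⟨(nat_lit 128), [], [⟨(nat_lit 0x50000000000000002), (nat_lit 0), (nat_lit 7), (nat_lit 2)⟩], false⟩, []⟩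
def f182 : Fc := ⟨false, st0, [], ⟨(nat_lit 128), [], [⟨(nat_lit 0xf000000000000000d), (nat_lit 0), (nat_lit 28), (nat_lit 2)⟩], false⟩, []⟩
def f183 : Fc := ⟨false, st0, [], ⟨(nat_lit 128), [], [⟨(nat_lit 0x10000000000000009), (nat_lit 0), (nat_lit 10), (nat_lit 2)⟩], false⟩, []⟩
def f184 : Fc := ⟨false, st0, [], ⟨(nat_lit 128), [], [⟨(nat_lit 0x30000000000000000), (nat_lit 4), (nat_lit 7), (nat_lit 2)⟩], false⟩, []⟩
def f185 : Fc := ⟨false, st0, [], ⟨(nat_lit 243), [], [⟨(nb (nat_lit 2) (nat_lit 512) (nat_lit 0)), (nat_lit 3), (nat_lit 5), (nat_lit 3)⟩], false⟩, []⟩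
def f186 : Fc := ⟨false, st0, [], ⟨(nat_lit 128), [⟨(nat_lit 0x30000000000000000), (nat_lit 0), (nat_lit 3), (nat_lit 2)⟩], [], false⟩, []⟩
def f187 : Fc := ⟨false, st0, [], ⟨(nat_lit 31104), [], [⟨(nb (nat_lit 3) (nat_lit 576) (nat_lit 1)), (nat_lit 0x40000000000000000), (nat_lit 8), (nat_lit 6)⟩], false⟩, []⟩
def f188 : Fc := ⟨false, st0, [], ⟨(nat_lit 128), [⟨(nat_lit 0x10000000000000000), (nat_lit 0), (nat_lit 1), (nat_lit 2)⟩], [⟨(nat_lit 0x10000000000000000), (nat_lit 1), (nat_lit 2), (nat_lit 2)⟩], false⟩, []⟩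
def f189 : Fc := ⟨false, st0, [], ⟨(nat_lit 128), [⟨(nat_lit 0x10000000000000000), (nat_lit 0), (nat_lit 1), (nat_lit 2)⟩], [⟨(nat_lit 0x10000000000000002), (nat_lit 0), (nat_lit 3), (nat_lit 2)⟩], false⟩, []⟩
def f190 : Fc := ⟨false, st0, [], ⟨(nat_lit 243), [], [⟨(nb (nat_lit 3) (nat_lit 512) (nat_lit 0)), (nat_lit 1), (nat_lit 4), (nat_lit 3)⟩], false⟩, []⟩
def f191 : Fc := ⟨false, st0, [], ⟨(nat_lit 243), [], [⟨(nb (nat_lit 4) (nat_lit 512) (nat_lit 0)), (nat_lit 3), (nat_lit 7), (nat_lit 3)⟩], false⟩, []⟩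
def f192 : Fc := ⟨false, st0, [], ⟨(nat_lit 31104), [⟨(nat_lit 0x10000000000000000), (nat_lit 0), (nat_lit 1), (nat_lit 2)⟩], [⟨(nb (nat_lit 3) (nat_lit 512) (nb (nat_lit 2) (nat_lit 64) (nat_lit 0))), (nat_lit 3), (nat_lit 8), (nat_lit 6)⟩], false⟩, []⟩
def f193 : Fc := ⟨false, st0, [], ⟨(nat_lit 243), [], [⟨(nb (nat_lit 1) (nat_lit 512) (nat_lit 0)), (nat_lit 1), (nat_lit 2), (nat_lit 3)⟩], false⟩, []⟩
def f194 : Fc := ⟨false, st0, [], ⟨(nat_lit 31104), [], [⟨(nb (nat_lit 4) (nat_lit 512) (nb (nat_lit 2) (nat_lit 64) (nat_lit 0))), (nat_lit 3), (nat_lit 9), (nat_lit 6)⟩], false⟩, []⟩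
def f195 : Fc := ⟨false, st0, [], ⟨(nat_lit 31104), [], [⟨(nb (nat_lit 2) (nat_lit 512) (nb (nat_lit 3) (nat_lit 64) (nat_lit 0))), (nat_lit 4), (nat_lit 9), (nat_lit 6)⟩], false⟩, []⟩
def f196 : Fc := ⟨false, st0, [], ⟨(nat_lit 243), [], [⟨(nb (nat_lit 2) (nat_lit 512) (nat_lit 1)), (nat_lit 0), (nat_lit 3), (nat_lit 3)⟩], false⟩, []⟩
def f197 : Fc := ⟨false, st0, [], ⟨(nat_lit 128), [⟨(nat_lit 0x10000000000000000), (nat_lit 0), (nat_lit 1), (nat_lit 2)⟩], [⟨(nat_lit 0x20000000000000000), (nat_lit 1), (nat_lit 3), (nat_lit 2)⟩], false⟩, []⟩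
def f198 : Fc := ⟨false, st0, [], ⟨(nat_lit 128), [⟨(nat_lit 0x10000000000000000), (nat_lit 0), (nat_lit 1), (nat_lit 2)⟩, ⟨(nat_lit 0x20000000000000000), (nat_lit 1), (nat_lit 3), (nat_lit 2)⟩], [], false⟩, []⟩
def f199 : Fc := ⟨false, st0, [], ⟨(nat_lit 31104), [⟨(nb (nat_lit 1) (nat_lit 512) (nat_lit 0)), (nat_lit 0), (nat_lit 1), (nat_lit 3)⟩], [⟨(nb (nat_lit 2) (nat_lit 576) (nb (nat_lit 3) (nat_lit 64) (nat_lit 0))), (nb (nat_lit 1) (nat_lit 512) (nat_lit 0)), (nat_lit 6), (nat_lit 6)⟩], false⟩, []⟩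
def f200 : Fc := ⟨false, st0, [], ⟨(nat_lit 30375), [], [⟨(nb (nat_lit 4) (nat_lit 3072) (nb (nat_lit 2) (nat_lit 512) (nat_lit 0))), (nat_lit 3), (nat_lit 9), (nat_lit 15)⟩], false⟩, []⟩
def f201 : Fc := ⟨false, st0, [], ⟨(nat_lit 0x3b5380), [⟨(nat_lit 0x10000000000000000), (nat_lit 0), (nat_lit 1), (nat_lit 2)⟩], [⟨(nb (nat_lit 2) (nat_lit 3136) (nb (nat_lit 3) (nat_lit 576) (nat_lit 1))), (nb (nat_lit 1) (nat_lit 3072) (nb (nat_lit 4) (nat_lit 64) (nat_lit 0))), (nat_lit 11), (nat_lit 30)⟩], false⟩, []⟩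
def f202 : Fc := ⟨false, st0, [], ⟨(nat_lit 128), [⟨(nat_lit 0x10000000000000000), (nat_lit 1), (nat_lit 2), (nat_lit 2)⟩], [⟨(nat_lit 0x10000000000000000), (nat_lit 3), (nat_lit 4), (nat_lit 2)⟩], false⟩, []⟩
def f203 : Fc := ⟨false, st0, [], ⟨(nat_lit 31104), [], [⟨(nat_lit 0x30000000000000000), (nb (nat_lit 4) (nat_lit 512) (nat_lit 2)), (nat_lit 9), (nat_lit 6)⟩], false⟩, []⟩
def f204 : Fc := ⟨false, st0, [], ⟨(nat_lit 31104), [], [⟨(nat_lit 0x40000000000000000), (nb (nat_lit 4) (nat_lit 512) (nat_lit 3)), (nat_lit 11), (nat_lit 6)⟩], false⟩, []⟩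
def f205 : Fc := ⟨false, st0, [], ⟨(nat_lit 128), [⟨(nat_lit 0x10000000000000000), (nat_lit 2), (nat_lit 3), (nat_lit 2)⟩], [], false⟩, []⟩
def f206 : Fc := ⟨false, st0, [], ⟨(nat_lit 31104), [], [⟨(nb (nat_lit 2) (nat_lit 512) (nat_lit 0x100000000000000000000000000000003)), (nb (nat_lit 1) (nat_lit 576) (nb (nat_lit 4) (nat_lit 64) (nat_lit 0))), (nat_lit 11), (nat_lit 12)⟩], false⟩, []⟩
def f207 : Fc := ⟨false, st0, [], ⟨(nat_lit 128), [⟨(nat_lit 0x10000000000000000), (nat_lit 1), (nat_lit 2), (nat_lit 2)⟩, ⟨(nat_lit 0x10000000000000000), (nat_lit 2), (nat_lit 3), (nat_lit 2)⟩], [⟨(nat_lit 0x50000000000000000), (nat_lit 6), (nat_lit 11), (nat_lit 2)⟩], false⟩, []⟩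
def f208 : Fc := ⟨false, st0, [], ⟨(nat_lit 128), [⟨(nat_lit 0x10000000000000000), (nat_lit 2), (nat_lit 3), (nat_lit 2)⟩], [⟨(nat_lit 0x10000000000000000), (nat_lit 1), (nat_lit 2), (nat_lit 2)⟩], false⟩, []⟩
def f209 : Fc := ⟨false, st0, [], ⟨(nat_lit 243), [], [⟨(nb (nat_lit 4) (nat_lit 512) (nat_lit 0)), (nat_lit 7), (nat_lit 11), (nat_lit 3)⟩], false⟩, []⟩
def f210 : Fc := ⟨false, st0, [], ⟨(nat_lit 243), [], [⟨(nb (nat_lit 1) (nat_lit 512) (nat_lit 0)), (nat_lit 0), (nat_lit 1), (nat_lit 3)⟩], false⟩, []⟩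
def f211 : Fc := ⟨false, st0, [], ⟨(nat_lit 31104), [], [⟨(nb (nat_lit 3) (nat_lit 512) (nb (nat_lit 4) (nat_lit 64) (nat_lit 0))), (nat_lit 6), (nat_lit 13), (nat_lit 6)⟩], false⟩, []⟩
def f212 : Fc := ⟨false, st0, [], ⟨(nat_lit 128), [], [⟨(nat_lit 0x90000000000000000), (nat_lit 7), (nat_lit 16), (nat_lit 2)⟩], false⟩, []⟩
def f213 : Fc := ⟨false, st0, [], ⟨(nat_lit 31104), [], [⟨(nb (nat_lit 0x30000000000000002) (nat_lit 512) (nat_lit 4)), (nat_lit 0), (nat_lit 9), (nat_lit 6)⟩], false⟩, []⟩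
def f214 : Fc := ⟨false, st0, [], ⟨(nat_lit 243), [], [⟨(nb (nat_lit 1) (nat_lit 512) (nat_lit 9)), (nat_lit 0), (nat_lit 10), (nat_lit 3)⟩], false⟩, []⟩
def f215 : Fc := ⟨false, st0, [], ⟨(nat_lit 0x3b5380), [], [⟨(nb (nat_lit 0x30000000000000002) (nat_lit 3072) (nb (nat_lit 4) (nat_lit 512) (nat_lit 0))), (nat_lit 6), (nat_lit 15), (nat_lit 30)⟩], false⟩, []⟩
def f216 : Fc := ⟨false, st0, [], ⟨(nat_lit 128), [], [⟨(nat_lit 0x70000000000000000), (nat_lit 9), (nat_lit 16), (nat_lit 2)⟩], false⟩, []⟩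
def f217 : Fc := ⟨false, st0, [], ⟨(nat_lit 31104), [], [⟨(nat_lit 0x60000000000000000), (nb (nat_lit 3) (nat_lit 512) (nat_lit 4)), (nat_lit 13), (nat_lit 6)⟩], false⟩, []⟩
def f218 : Fc := ⟨false, st0, [], ⟨(nat_lit 128), [], [⟨(nat_lit 0x60000000000000000), (nat_lit 5), (nat_lit 11), (nat_lit 2)⟩], false⟩, []⟩
def f219 : Fc := ⟨false, st0, [], ⟨(nat_lit 128), [⟨(nat_lit 0x30000000000000000), (nat_lit 5), (nat_lit 8), (nat_lit 2)⟩], [], false⟩, []⟩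
def f220 : Fc := ⟨false, st0, [], ⟨(nat_lit 31104), [], [⟨(nb (nat_lit 5) (nat_lit 512) (nat_lit 0x600000000000000000000000000000012)), (nb (nat_lit 3) (nat_lit 576) (nb (nat_lit 24) (nat_lit 64) (nat_lit 0))), (nat_lit 56), (nat_lit 12)⟩], false⟩, []⟩
def f221 : Fc := ⟨false, st0, [], ⟨(nat_lit 243), [], [⟨(nb (nat_lit 2) (nat_lit 512) (nat_lit 3)), (nat_lit 0), (nat_lit 5), (nat_lit 3)⟩], false⟩, []⟩
def f222 : Fc := ⟨false, st0, [], ⟨(nat_lit 0x3b5380), [], [⟨(nat_lit 0x60000000000000000), (nb (nat_lit 2) (nat_lit 3072) (nb (nat_lit 3) (nat_lit 512) (nat_lit 4))), (nat_lit 15), (nat_lit 30)⟩], false⟩, []⟩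
def f223 : Fc := ⟨false, st0, [], ⟨(nat_lit 31104), [], [⟨(nat_lit 0x70000000000000000), (nb (nat_lit 1) (nat_lit 512) (nat_lit 9)), (nat_lit 17), (nat_lit 6)⟩], false⟩, []⟩
def f224 : Fc := ⟨false, st0, [], ⟨(nat_lit 243), [], [⟨(nb (nat_lit 3) (nat_lit 512) (nat_lit 2)), (nat_lit 0), (nat_lit 5), (nat_lit 3)⟩], false⟩, []⟩
def f225 : Fc := ⟨false, st0, [], ⟨(nat_lit 128), [⟨(nat_lit 0x70000000000000000), (nat_lit 9), (nat_lit 16), (nat_lit 2)⟩], [], false⟩, []⟩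
def f226 : Fc := ⟨false, st0, [], ⟨(nat_lit 31104), [], [⟨(nb (nat_lit 7) (nat_lit 576) (nat_lit 0)), (nb (nat_lit 9) (nat_lit 512) (nb (nat_lit 2) (nat_lit 64) (nat_lit 0))), (nat_lit 18), (nat_lit 6)⟩], false⟩, []⟩
def f227 : Fc := ⟨false, st0, [], ⟨(nat_lit 0x3b5380), [], [⟨(nat_lit 0x60000000000000000), (nb (nat_lit 3) (nat_lit 3584) (nb (nat_lit 2) (nat_lit 3072) (nat_lit 4))), (nat_lit 15), (nat_lit 30)⟩], false⟩, []⟩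
def f228 : Fc := ⟨false, st0, [], ⟨(nat_lit 31104), [], [⟨(nb (nat_lit 3) (nat_lit 576) (nat_lit 0)), (nat_lit 0x20000000000000001), (nat_lit 6), (nat_lit 6)⟩], false⟩, []⟩
def f229 : Fc := ⟨false, st0, [], ⟨(nat_lit 31104), [⟨(nat_lit 0x10000000000000000), (nat_lit 0), (nat_lit 1), (nat_lit 2)⟩], [⟨(nb (nat_lit 1) (nat_lit 512) (nat_lit 0)), (nat_lit 2), (nat_lit 3), (nat_lit 3)⟩], false⟩, []⟩
def f230 : Fc := ⟨false, st0, [], ⟨(nat_lit 128), [⟨(nat_lit 0x70000000000000000), (nat_lit 0), (nat_lit 7), (nat_lit 2)⟩], [], false⟩, []⟩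
def f231 : Fc := ⟨false, st0, [], ⟨(nat_lit 31104), [], [⟨(nb (nat_lit 7) (nat_lit 576) (nat_lit 0)), (nat_lit 0x20000000000000012), (nat_lit 27), (nat_lit 6)⟩], false⟩, []⟩
def f232 : Fc := ⟨false, st0, [], ⟨(nat_lit 128), [⟨(nat_lit 0x10000000000000000), (nat_lit 0), (nat_lit 1), (nat_lit 2)⟩], [⟨(nat_lit 0x20000000000000000), (nat_lit 3), (nat_lit 5), (nat_lit 2)⟩], false⟩, []⟩
def f233 : Fc := ⟨false, st0, [], ⟨(nat_lit 128), [⟨(nat_lit 0x10000000000000000), (nat_lit 0), (nat_lit 1), (nat_lit 2)⟩], [⟨(nat_lit 0x10000000000000009), (nat_lit 0), (nat_lit 10), (nat_lit 2)⟩], false⟩, []⟩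
def f234 : Fc := ⟨false, st0, [], ⟨(nat_lit 31104), [], [⟨(nat_lit 0x30000000000000000), (nb (nat_lit 7) (nat_lit 512) (nat_lit 2)), (nat_lit 12), (nat_lit 6)⟩], false⟩, []⟩
def f235 : Fc := ⟨false, st0, [], ⟨(nat_lit 31104), [], [⟨(nb (nat_lit 3) (nat_lit 576) (nat_lit 0)), (nb (nat_lit 5) (nat_lit 512) (nat_lit 2)), (nat_lit 10), (nat_lit 6)⟩], false⟩, []⟩
def f236 : Fc := ⟨false, st0, [], ⟨(nat_lit 125), [⟨(nb (nat_lit 1) (nat_lit 3072) (nat_lit 0)), (nat_lit 0), (nat_lit 1), (nat_lit 5)⟩], [⟨(nb (nat_lit 3) (nat_lit 3072) (nat_lit 0)), (nat_lit 8), (nat_lit 11), (nat_lit 5)⟩], false⟩, []⟩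
def f237 : Fc := ⟨false, st0, [], ⟨(nat_lit 0x3b5380), [⟨(nb (nat_lit 1) (nat_lit 3072) (nat_lit 0)), (nat_lit 0), (nat_lit 1), (nat_lit 5)⟩], [⟨(nat_lit 0x30000000000000000), (nat_lit 5), (nat_lit 8), (nat_lit 2)⟩, ⟨(nb (nat_lit 5) (nat_lit 3584) (nb (nat_lit 2) (nat_lit 3072) (nat_lit 0x600000000000000000000000000000012))), (nb (nat_lit 3) (nat_lit 3648) (nb (nat_lit 24) (nat_lit 64) (nat_lit 0))), (nat_lit 58), (nat_lit 60)⟩], false⟩, []⟩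
def f238 : Fc := ⟨false, st0, [], ⟨(nat_lit 128), [⟨(nat_lit 0x10000000000000000), (nat_lit 1), (nat_lit 2), (nat_lit 2)⟩], [⟨(nat_lit 0x100000000000000000000000000000003), (nat_lit 0x40000000000000000), (nat_lit 8), (nat_lit 4)⟩], false⟩, []⟩
def f239 : Fc := ⟨false, st0, [], ⟨(nat_lit 128), [], [⟨(nat_lit 0x10000000000000000), (nat_lit 1), (nat_lit 2), (nat_lit 2)⟩, ⟨(nat_lit 0x100000000000000000000000000000003), (nat_lit 0x40000000000000000), (nat_lit 8), (nat_lit 4)⟩], false⟩, []⟩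
def f240 : Fc := ⟨false, st0, [], ⟨(nat_lit 128), [], [⟨(nat_lit 0x100000000000000000000000000000003), (nat_lit 0x40000000000000000), (nat_lit 8), (nat_lit 4)⟩], false⟩, []⟩
def f241 : Fc := ⟨false, st0, [], ⟨(nat_lit 0x3b5380), [], [⟨(nb (nat_lit 1) (nat_lit 3072) (nat_lit 0)), (nat_lit 0), (nat_lit 1), (nat_lit 5)⟩, ⟨(nb (nat_lit 5) (nat_lit 3584) (nb (nat_lit 2) (nat_lit 3072) (nat_lit 0x600000000000000000000000000000012))), (nb (nat_lit 3) (nat_lit 3648) (nb (nat_lit 24) (nat_lit 64) (nat_lit 0))), (nat_lit 58), (nat_lit 60)⟩], false⟩, []⟩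
def f242 : Fc := ⟨false, st0, [], ⟨(nat_lit 16000), [⟨(nat_lit 0x30000000000000000), (nat_lit 5), (nat_lit 8), (nat_lit 2)⟩], [⟨(nb (nat_lit 1) (nat_lit 3072) (nat_lit 0)), (nat_lit 0), (nat_lit 1), (nat_lit 5)⟩], false⟩, []⟩
def f243 : Fc := ⟨false, st0, [], ⟨(nat_lit 16000), [⟨(nat_lit 0x30000000000000000), (nat_lit 5), (nat_lit 8), (nat_lit 2)⟩, ⟨(nb (nat_lit 1) (nat_lit 3072) (nat_lit 0)), (nat_lit 0), (nat_lit 1), (nat_lit 5)⟩], [], false⟩, []⟩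
def f244 : Fc := ⟨false, st0, [], ⟨(nat_lit 0x3b5380), [⟨(nat_lit 0x30000000000000000), (nat_lit 5), (nat_lit 8), (nat_lit 2)⟩, ⟨(nb (nat_lit 1) (nat_lit 3072) (nat_lit 0)), (nat_lit 0), (nat_lit 1), (nat_lit 5)⟩], [⟨(nb (nat_lit 5) (nat_lit 3584) (nb (nat_lit 2) (nat_lit 3072) (nat_lit 0x600000000000000000000000000000012))), (nb (nat_lit 3) (nat_lit 3648) (nb (nat_lit 24) (nat_lit 64) (nat_lit 0))), (nat_lit 58), (nat_lit 60)⟩], false⟩, []⟩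
def f245 : Fc := ⟨false, st0, [], ⟨(nat_lit 0x3b5380), [⟨(nb (nat_lit 1) (nat_lit 3072) (nat_lit 0)), (nat_lit 0), (nat_lit 1), (nat_lit 5)⟩], [⟨(nb (nat_lit 5) (nat_lit 3584) (nb (nat_lit 2) (nat_lit 3072) (nat_lit 0x600000000000000000000000000000012))), (nb (nat_lit 3) (nat_lit 3648) (nb (nat_lit 24) (nat_lit 64) (nat_lit 0))), (nat_lit 58), (nat_lit 60)⟩], false⟩, []⟩
def f246 : Fc := ⟨false, st0, [], ⟨(nat_lit 0x3b5380), [], [⟨(nb (nat_lit 5) (nat_lit 3584) (nb (nat_lit 2) (nat_lit 3072) (nat_lit 0x600000000000000000000000000000012))), (nb (nat_lit 3) (nat_lit 3648) (nb (nat_lit 24) (nat_lit 64) (nat_lit 0))), (nat_lit 58), (nat_lit 60)⟩], false⟩, []⟩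
def f247 : Fc := ⟨false, st0, [], ⟨(nat_lit 30375), [], [⟨(nb (nat_lit 3) (nat_lit 3072) (nb (nat_lit 3) (nat_lit 512) (nat_lit 0))), (nat_lit 5), (nat_lit 11), (nat_lit 15)⟩], false⟩, []⟩
def f248 : Fc := ⟨false, st0, [], ⟨(nat_lit 30375), [], [⟨(nb (nat_lit 1) (nat_lit 3072) (nb (nat_lit 1) (nat_lit 512) (nat_lit 0))), (nat_lit 4), (nat_lit 6), (nat_lit 15)⟩], false⟩, []⟩
def f249 : Fc := ⟨false, st0, [], ⟨(nat_lit 128), [], [⟨(nat_lit 0x50000000000000001), (nat_lit 0), (nat_lit 6), (nat_lit 2)⟩], false⟩, []⟩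
def f250 : Fc := ⟨false, st0, [], ⟨(nat_lit 128), [⟨(nat_lit 0x20000000000000003), (nat_lit 0), (nat_lit 5), (nat_lit 2)⟩], [⟨(nat_lit 0x10000000000000000), (nat_lit 1), (nat_lit 2), (nat_lit 2)⟩], false⟩, []⟩
def f251 : Fc := ⟨false, st0, [], ⟨(nat_lit 128), [⟨(nat_lit 0x20000000000000003), (nat_lit 0), (nat_lit 5), (nat_lit 2)⟩], [⟨(nat_lit 0x20000000000000000), (nat_lit 1), (nat_lit 3), (nat_lit 2)⟩], false⟩, []⟩
def f252 : Fc := ⟨false, st0, [], ⟨(nat_lit 243), [], [⟨(nb (nat_lit 1) (nat_lit 512) (nat_lit 2)), (nat_lit 0), (nat_lit 3), (nat_lit 3)⟩], false⟩, []⟩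
def f253 : Fc := ⟨false, st0, [], ⟨(nat_lit 243), [⟨(nb (nat_lit 1) (nat_lit 512) (nat_lit 2)), (nat_lit 0), (nat_lit 3), (nat_lit 3)⟩], [], false⟩, []⟩
def f254 : Fc := ⟨false, st0, [], ⟨(nat_lit 31104), [⟨(nb (nat_lit 1) (nat_lit 512) (nat_lit 2)), (nat_lit 0), (nat_lit 3), (nat_lit 3)⟩], [⟨(nat_lit 0x20000000000000003), (nat_lit 0), (nat_lit 5), (nat_lit 2)⟩], false⟩, []⟩
def f255 : Fc := ⟨false, st0, [], ⟨(nat_lit 243), [⟨(nb (nat_lit 1) (nat_lit 512) (nat_lit 2)), (nat_lit 0), (nat_lit 3), (nat_lit 3)⟩], [⟨(nb (nat_lit 4) (nat_lit 512) (nat_lit 3)), (nat_lit 0), (nat_lit 7), (nat_lit 3)⟩], false⟩, []⟩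
def f256 : Fc := ⟨false, st0, [], ⟨(nat_lit 243), [⟨(nb (nat_lit 1) (nat_lit 512) (nat_lit 2)), (nat_lit 0), (nat_lit 3), (nat_lit 3)⟩], [⟨(nb (nat_lit 1) (nat_lit 512) (nat_lit 0)), (nat_lit 0), (nat_lit 1), (nat_lit 3)⟩], false⟩, []⟩
def f257 : Fc := ⟨false, st0, [], ⟨(nat_lit 243), [], [⟨(nb (nat_lit 1) (nat_lit 512) (nat_lit 6)), (nat_lit 0), (nat_lit 7), (nat_lit 3)⟩], false⟩, []⟩
def f258 : Fc := ⟨false, st0, [], ⟨(nat_lit 128), [⟨(nat_lit 0x10000000000000000), (nat_lit 0), (nat_lit 1), (nat_lit 2)⟩], [⟨(nat_lit 0x40000000000000000), (nat_lit 1), (nat_lit 5), (nat_lit 2)⟩], false⟩, []⟩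
def f259 : Fc := ⟨false, st0, [], ⟨(nat_lit 128), [⟨(nat_lit 0x10000000000000000), (nat_lit 0), (nat_lit 1), (nat_lit 2)⟩, ⟨(nat_lit 0x40000000000000000), (nat_lit 1), (nat_lit 5), (nat_lit 2)⟩], [], false⟩, []⟩
def f260 : Fc := ⟨false, st0, [], ⟨(nat_lit 128), [⟨(nat_lit 0x10000000000000000), (nat_lit 0), (nat_lit 1), (nat_lit 2)⟩, ⟨(nat_lit 0x40000000000000000), (nat_lit 1), (nat_lit 5), (nat_lit 2)⟩], [⟨(nat_lit 0x60000000000000000), (nat_lit 5), (nat_lit 11), (nat_lit 2)⟩], false⟩, []⟩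
def f261 : Fc := ⟨false, st0, [], ⟨(nat_lit 128), [⟨(nat_lit 0x10000000000000000), (nat_lit 0), (nat_lit 1), (nat_lit 2)⟩, ⟨(nat_lit 0x40000000000000000), (nat_lit 1), (nat_lit 5), (nat_lit 2)⟩, ⟨(nat_lit 0x60000000000000000), (nat_lit 5), (nat_lit 11), (nat_lit 2)⟩], [], false⟩, []⟩
def f262 : Fc := ⟨false, st0, [], ⟨(nat_lit 31104), [⟨(nat_lit 0x10000000000000000), (nat_lit 0), (nat_lit 1), (nat_lit 2)⟩, ⟨(nat_lit 0x40000000000000000), (nat_lit 1), (nat_lit 5), (nat_lit 2)⟩], [⟨(nb (nat_lit 6) (nat_lit 576) (nb (nat_lit 0x40000000000000007) (nat_lit 64) (nat_lit 0))), (nb (nat_lit 5) (nat_lit 512) (nat_lit 9)), (nat_lit 31), (nat_lit 12)⟩], false⟩, []⟩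
def f263 : Fc := ⟨false, st0, [], ⟨(nat_lit 243), [], [⟨(nb (nat_lit 5) (nat_lit 512) (nat_lit 9)), (nat_lit 0), (nat_lit 14), (nat_lit 3)⟩], false⟩, []⟩
def f264 : Fc := ⟨false, st0, [], ⟨(nat_lit 128), [⟨(nat_lit 0x10000000000000000), (nat_lit 2), (nat_lit 3), (nat_lit 2)⟩, ⟨(nat_lit 0x20000000000000000), (nat_lit 1), (nat_lit 3), (nat_lit 2)⟩], [⟨(nat_lit 0x40000000000000000), (nat_lit 1), (nat_lit 5), (nat_lit 2)⟩], false⟩, []⟩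
def f265 : Fc := ⟨false, st0, [], ⟨(nat_lit 128), [⟨(nat_lit 0x10000000000000000), (nat_lit 2), (nat_lit 3), (nat_lit 2)⟩, ⟨(nat_lit 0x20000000000000000), (nat_lit 1), (nat_lit 3), (nat_lit 2)⟩, ⟨(nat_lit 0x40000000000000000), (nat_lit 1), (nat_lit 5), (nat_lit 2)⟩], [], false⟩, []⟩
def f266 : Fc := ⟨false, st0, [], ⟨(nat_lit 31104), [⟨(nat_lit 0x20000000000000000), (nat_lit 1), (nat_lit 3), (nat_lit 2)⟩, ⟨(nat_lit 0x40000000000000000), (nat_lit 1), (nat_lit 5), (nat_lit 2)⟩], [⟨(nb (nat_lit 1) (nat_lit 576) (nat_lit 0)), (nb (nat_lit 2) (nat_lit 512) (nat_lit 0x20000000000000003)), (nat_lit 8), (nat_lit 6)⟩], false⟩, []⟩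
def f267 : Fc := ⟨false, st0, [], ⟨(nat_lit 128), [⟨(nat_lit 0x40000000000000000), (nat_lit 1), (nat_lit 5), (nat_lit 2)⟩], [⟨(nat_lit 0x20000000000000000), (nat_lit 1), (nat_lit 3), (nat_lit 2)⟩], false⟩, []⟩
def f268 : Fc := ⟨false, st0, [], ⟨(nat_lit 128), [⟨(nat_lit 0x40000000000000000), (nat_lit 1), (nat_lit 5), (nat_lit 2)⟩], [⟨(nat_lit 0x50000000000000000), (nat_lit 3), (nat_lit 8), (nat_lit 2)⟩], false⟩, []⟩
def f269 : Fc := ⟨false, st0, [], ⟨(nat_lit 128), [], [⟨(nat_lit 0x10000000000000008), (nat_lit 0), (nat_lit 9), (nat_lit 2)⟩], false⟩, []⟩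
def f270 : Fc := ⟨false, st0, [], ⟨(nat_lit 128), [⟨(nat_lit 0x10000000000000000), (nat_lit 2), (nat_lit 3), (nat_lit 2)⟩], [⟨(nat_lit 0x20000000000000003), (nat_lit 0), (nat_lit 5), (nat_lit 2)⟩], false⟩, []⟩
def f271 : Fc := ⟨false, st0, [], ⟨(nat_lit 128), [⟨(nat_lit 0x10000000000000000), (nat_lit 0), (nat_lit 1), (nat_lit 2)⟩, ⟨(nat_lit 0x10000000000000000), (nat_lit 2), (nat_lit 3), (nat_lit 2)⟩], [], false⟩, []⟩
def f272 : Fc := ⟨false, st0, [], ⟨(nat_lit 128), [⟨(nat_lit 0x10000000000000000), (nat_lit 0), (nat_lit 1), (nat_lit 2)⟩, ⟨(nat_lit 0x10000000000000000), (nat_lit 2), (nat_lit 3), (nat_lit 2)⟩], [⟨(nat_lit 0x20000000000000003), (nat_lit 0), (nat_lit 5), (nat_lit 2)⟩], false⟩, []⟩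
def f273 : Fc := ⟨false, st0, [], ⟨(nat_lit 128), [⟨(nat_lit 0x10000000000000000), (nat_lit 0), (nat_lit 1), (nat_lit 2)⟩, ⟨(nat_lit 0x10000000000000000), (nat_lit 2), (nat_lit 3), (nat_lit 2)⟩, ⟨(nat_lit 0x20000000000000003), (nat_lit 0), (nat_lit 5), (nat_lit 2)⟩], [], false⟩, []⟩
def f274 : Fc := ⟨false, st0, [], ⟨(nat_lit 128), [⟨(nat_lit 0x10000000000000000), (nat_lit 0), (nat_lit 1), (nat_lit 2)⟩, ⟨(nat_lit 0x10000000000000000), (nat_lit 2), (nat_lit 3), (nat_lit 2)⟩, ⟨(nat_lit 0x20000000000000003), (nat_lit 0), (nat_lit 5), (nat_lit 2)⟩], [⟨(nat_lit 0x20000000000000000), (nat_lit 3), (nat_lit 5), (nat_lit 2)⟩], false⟩, []⟩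
def f275 : Fc := ⟨false, st0, [], ⟨(nat_lit 128), [⟨(nat_lit 0x10000000000000000), (nat_lit 2), (nat_lit 3), (nat_lit 2)⟩, ⟨(nat_lit 0x20000000000000003), (nat_lit 0), (nat_lit 5), (nat_lit 2)⟩, ⟨(nat_lit 0x200000000000000000000000000000000), (nat_lit 0x30000000000000000), (nat_lit 5), (nat_lit 4)⟩], [], false⟩, []⟩
def f276 : Fc := ⟨false, st0, [], ⟨(nat_lit 31104), [⟨(nat_lit 0x10000000000000000), (nat_lit 2), (nat_lit 3), (nat_lit 2)⟩, ⟨(nb (nat_lit 1) (nat_lit 512) (nb (nat_lit 3) (nat_lit 64) (nat_lit 0))), (nat_lit 0), (nat_lit 4), (nat_lit 6)⟩], [⟨(nb (nat_lit 0x20000000000000003) (nat_lit 512) (nb (nat_lit 18) (nat_lit 64) (nat_lit 0))), (nat_lit 0), (nat_lit 23), (nat_lit 6)⟩], false⟩, []⟩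
def f277 : Fc := ⟨false, st0, [], ⟨(nat_lit 128), [⟨(nat_lit 0x10000000000000000), (nat_lit 0), (nat_lit 1), (nat_lit 2)⟩, ⟨(nat_lit 0x10000000000000000), (nat_lit 2), (nat_lit 3), (nat_lit 2)⟩, ⟨(nat_lit 0x20000000000000003), (nat_lit 0), (nat_lit 5), (nat_lit 2)⟩, ⟨(nat_lit 0x20000000000000000), (nat_lit 3), (nat_lit 5), (nat_lit 2)⟩], [⟨(nat_lit 0x20000000000000000), (nat_lit 1), (nat_lit 3), (nat_lit 2)⟩], false⟩, []⟩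
def f278 : Fc := ⟨false, st0, [], ⟨(nat_lit 128), [⟨(nat_lit 0x10000000000000000), (nat_lit 0), (nat_lit 1), (nat_lit 2)⟩, ⟨(nat_lit 0x10000000000000000), (nat_lit 2), (nat_lit 3), (nat_lit 2)⟩, ⟨(nat_lit 0x20000000000000003), (nat_lit 0), (nat_lit 5), (nat_lit 2)⟩, ⟨(nat_lit 0x20000000000000000), (nat_lit 3), (nat_lit 5), (nat_lit 2)⟩], [⟨(nat_lit 0x70000000000000000), (nat_lit 3), (nat_lit 10), (nat_lit 2)⟩], false⟩, []⟩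
def f279 : Fc := ⟨false, st0, [], ⟨(nat_lit 243), [⟨(nb (nat_lit 1) (nat_lit 512) (nat_lit 6)), (nat_lit 0), (nat_lit 7), (nat_lit 3)⟩], [], false⟩, []⟩
def f280 : Fc := ⟨false, st0, [], ⟨(nat_lit 31104), [⟨(nb (nat_lit 1) (nat_lit 512) (nb (nat_lit 3) (nat_lit 64) (nat_lit 0))), (nat_lit 0), (nat_lit 4), (nat_lit 6)⟩], [⟨(nat_lit 0x10000000000000000), (nat_lit 2), (nat_lit 3), (nat_lit 2)⟩], false⟩, []⟩
def f281 : Fc := ⟨false, st0, [], ⟨(nat_lit 243), [⟨(nb (nat_lit 1) (nat_lit 512) (nat_lit 6)), (nat_lit 0), (nat_lit 7), (nat_lit 3)⟩], [⟨(nb (nat_lit 1) (nat_lit 512) (nat_lit 0)), (nat_lit 0), (nat_lit 1), (nat_lit 3)⟩], false⟩, []⟩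
def f282 : Fc := ⟨false, st0, [], ⟨(nat_lit 243), [⟨(nb (nat_lit 1) (nat_lit 512) (nat_lit 6)), (nat_lit 0), (nat_lit 7), (nat_lit 3)⟩], [⟨(nb (nat_lit 7) (nat_lit 512) (nat_lit 36)), (nat_lit 0), (nat_lit 43), (nat_lit 3)⟩], false⟩, []⟩
def f283 : Fc := ⟨false, st0, [], ⟨(nat_lit 243), [⟨(nb (nat_lit 1) (nat_lit 512) (nat_lit 6)), (nat_lit 0), (nat_lit 7), (nat_lit 3)⟩], [⟨(nb (nat_lit 1) (nat_lit 512) (nat_lit 2)), (nat_lit 0), (nat_lit 3), (nat_lit 3)⟩], false⟩, []⟩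
def f284 : Fc := ⟨false, st0, [], ⟨(nat_lit 128), [⟨(nat_lit 0x10000000000000000), (nat_lit 0), (nat_lit 1), (nat_lit 2)⟩, ⟨(nat_lit 0x10000000000000000), (nat_lit 2), (nat_lit 3), (nat_lit 2)⟩], [⟨(nat_lit 0x20000000000000000), (nat_lit 3), (nat_lit 5), (nat_lit 2)⟩], false⟩, []⟩
def f285 : Fc := ⟨false, st0, [], ⟨(nat_lit 128), [⟨(nat_lit 0x10000000000000000), (nat_lit 2), (nat_lit 3), (nat_lit 2)⟩], [⟨(nat_lit 0x10000000000000000), (nat_lit 0), (nat_lit 1), (nat_lit 2)⟩], false⟩, []⟩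
def f286 : Fc := ⟨false, st0, [], ⟨(nat_lit 16000), [], [⟨(nat_lit 0x50000000000000000), (nb (nat_lit 3) (nat_lit 3072) (nat_lit 3)), (nat_lit 11), (nat_lit 10)⟩], false⟩, []⟩
def f287 : Fc := ⟨false, st0, [], ⟨(nat_lit 16000), [], [⟨(nat_lit 0x40000000000000000), (nb (nat_lit 1) (nat_lit 3072) (nat_lit 1)), (nat_lit 6), (nat_lit 10)⟩], false⟩, []⟩
def f288 : Fc := ⟨false, st0, [], ⟨(nat_lit 128), [], [⟨(nat_lit 0x40000000000000001), (nat_lit 0), (nat_lit 5), (nat_lit 2)⟩], false⟩, []⟩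
def f289 : Fc := ⟨false, st0, [], ⟨(nat_lit 128), [], [⟨(nat_lit 0x10000000000000006), (nat_lit 0), (nat_lit 7), (nat_lit 2)⟩], false⟩, []⟩
def f290 : Fc := ⟨false, st0, [], ⟨(nat_lit 243), [], [⟨(nb (nat_lit 1) (nat_lit 512) (nat_lit 0)), (nat_lit 2), (nat_lit 3), (nat_lit 3)⟩], false⟩, []⟩
def f291 : Fc := ⟨false, st0, [], ⟨(nat_lit 243), [], [⟨(nb (nat_lit 1) (nat_lit 512) (nat_lit 3)), (nat_lit 0), (nat_lit 4), (nat_lit 3)⟩], false⟩, []⟩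
def f292 : Fc := ⟨false, st0, [], ⟨(nat_lit 31104), [], [⟨(nb (nat_lit 1) (nat_lit 576) (nat_lit 0x40000000000000003)), (nat_lit 0), (nat_lit 8), (nat_lit 6)⟩], false⟩, []⟩
def f293 : Fc := ⟨false, st0, [], ⟨(nat_lit 128), [⟨(nat_lit 0x10000000000000000), (nat_lit 0), (nat_lit 1), (nat_lit 2)⟩], [⟨(nat_lit 0x10000000000000001), (nat_lit 0), (nat_lit 2), (nat_lit 2)⟩], false⟩, []⟩
def f294 : Fc := ⟨false, st0, [], ⟨(nat_lit 128), [⟨(nat_lit 0x10000000000000000), (nat_lit 0), (nat_lit 1), (nat_lit 2)⟩], [⟨(nat_lit 0x10000000000000003), (nat_lit 0), (nat_lit 4), (nat_lit 2)⟩], false⟩, []⟩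
def f295 : Fc := ⟨false, st0, [], ⟨(nat_lit 128), [⟨(nat_lit 0x10000000000000000), (nat_lit 0), (nat_lit 1), (nat_lit 2)⟩, ⟨(nat_lit 0x10000000000000001), (nat_lit 0), (nat_lit 2), (nat_lit 2)⟩], [⟨(nat_lit 0x30000000000000001), (nat_lit 0), (nat_lit 4), (nat_lit 2)⟩], false⟩, []⟩
def f296 : Fc := ⟨false, st0, [], ⟨(nat_lit 31104), [⟨(nat_lit 0x10000000000000000), (nat_lit 0), (nat_lit 1), (nat_lit 2)⟩], [⟨(nat_lit 0x20000000000000003), (nb (nat_lit 3) (nat_lit 512) (nat_lit 0)), (nat_lit 8), (nat_lit 6)⟩], false⟩, []⟩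
def f297 : Fc := ⟨false, st0, [], ⟨(nat_lit 243), [], [⟨(nb (nat_lit 3) (nat_lit 512) (nat_lit 0)), (nat_lit 4), (nat_lit 7), (nat_lit 3)⟩], false⟩, []⟩
def f298 : Fc := ⟨false, st0, [], ⟨(nat_lit 31104), [], [⟨(nb (nat_lit 3) (nat_lit 512) (nb (nat_lit 2) (nat_lit 64) (nat_lit 0))), (nat_lit 4), (nat_lit 9), (nat_lit 6)⟩], false⟩, []⟩
def f299 : Fc := ⟨false, st0, [], ⟨(nat_lit 125), [], [⟨(nb (nat_lit 1) (nat_lit 3072) (nat_lit 3)), (nat_lit 0), (nat_lit 4), (nat_lit 5)⟩], false⟩, []⟩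
def f300 : Fc := ⟨false, st0, [], ⟨(nat_lit 0x3b5380), [], [⟨(nb (nat_lit 1) (nat_lit 3584) (nb (nat_lit 4) (nat_lit 512) (nb (nat_lit 3) (nat_lit 64) (nat_lit 0)))), (nb (nat_lit 1) (nat_lit 3072) (nat_lit 2)), (nat_lit 11), (nat_lit 30)⟩], false⟩, []⟩
def f301 : Fc := ⟨false, st0, [], ⟨(nat_lit 128), [⟨(nat_lit 0x20000000000000003), (nat_lit 0), (nat_lit 5), (nat_lit 2)⟩], [⟨(nat_lit 0x10000000000000001), (nat_lit 0), (nat_lit 2), (nat_lit 2)⟩], false⟩, []⟩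
def f302 : Fc := ⟨false, st0, [], ⟨(nat_lit 31104), [], [⟨(nb (nat_lit 0x20000000000000003) (nat_lit 512) (nat_lit 0)), (nat_lit 4), (nat_lit 9), (nat_lit 6)⟩], false⟩, []⟩
def f303 : Fc := ⟨false, st0, [], ⟨(nat_lit 128), [⟨(nat_lit 0x10000000000000000), (nat_lit 0), (nat_lit 1), (nat_lit 2)⟩, ⟨(nat_lit 0x10000000000000001), (nat_lit 0), (nat_lit 2), (nat_lit 2)⟩], [], false⟩, []⟩
def f304 : Fc := ⟨false, st0, [], ⟨(nat_lit 128), [⟨(nat_lit 0x10000000000000000), (nat_lit 0), (nat_lit 1), (nat_lit 2)⟩, ⟨(nat_lit 0x300000000000000040000000000000001), (nat_lit 0), (nat_lit 8), (nat_lit 4)⟩], [], false⟩, []⟩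
def f305 : Fc := ⟨false, st0, [], ⟨(nat_lit 31104), [⟨(nat_lit 0x10000000000000000), (nat_lit 0), (nat_lit 1), (nat_lit 2)⟩], [⟨(nb (nat_lit 0x300000000000000040000000000000001) (nat_lit 512) (nat_lit 0)), (nat_lit 0x20000000000000001), (nat_lit 11), (nat_lit 12)⟩], false⟩, []⟩
def f306 : Fc := ⟨false, st0, [], ⟨(nat_lit 128), [⟨(nat_lit 0x10000000000000000), (nat_lit 0), (nat_lit 1), (nat_lit 2)⟩, ⟨(nat_lit 0x10000000000000001), (nat_lit 0), (nat_lit 2), (nat_lit 2)⟩, ⟨(nat_lit 0x30000000000000001), (nat_lit 0), (nat_lit 4), (nat_lit 2)⟩], [⟨(nat_lit 0x60000000000000005), (nat_lit 0), (nat_lit 11), (nat_lit 2)⟩], false⟩, []⟩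
def f307 : Fc := ⟨false, st0, [], ⟨(nat_lit 128), [⟨(nat_lit 0x10000000000000001), (nat_lit 0), (nat_lit 2), (nat_lit 2)⟩, ⟨(nat_lit 0x20000000000000003), (nat_lit 0), (nat_lit 5), (nat_lit 2)⟩], [⟨(nat_lit 0x30000000000000001), (nat_lit 0), (nat_lit 4), (nat_lit 2)⟩], false⟩, []⟩
def f308 : Fc := ⟨false, st0, [], ⟨(nat_lit 128), [⟨(nat_lit 0x30000000000000004), (nat_lit 0), (nat_lit 7), (nat_lit 2)⟩], [], false⟩, []⟩
def f309 : Fc := ⟨false, st0, [], ⟨(nat_lit 31104), [], [⟨(nb (nat_lit 0x30000000000000004) (nat_lit 512) (nat_lit 0)), (nat_lit 4), (nat_lit 11), (nat_lit 6)⟩], false⟩, []⟩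
def f310 : Fc := ⟨false, st0, [], ⟨(nat_lit 128), [], [⟨(nat_lit 0x90000000000000000), (nat_lit 4), (nat_lit 13), (nat_lit 2)⟩], false⟩, []⟩
def f311 : Fc := ⟨false, st0, [], ⟨(nat_lit 128), [], [⟨(nat_lit 0x40000000000000009), (nat_lit 0), (nat_lit 13), (nat_lit 2)⟩], false⟩, []⟩
def f312 : Fc := ⟨false, st0, [], ⟨(nat_lit 128), [], [⟨(nat_lit 0x70000000000000000), (nat_lit 6), (nat_lit 13), (nat_lit 2)⟩], false⟩, []⟩
def f313 : Fc := ⟨false, st0, [], ⟨(nat_lit 128), [], [⟨(nat_lit 0x190000000000000000), (nat_lit 7), (nat_lit 32), (nat_lit 2)⟩], false⟩, []⟩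
def f314 : Fc := ⟨false, st0, [], ⟨(nat_lit 128), [], [⟨(nat_lit 0x110000000000000000), (nat_lit 14), (nat_lit 31), (nat_lit 2)⟩], false⟩, []⟩
def f315 : Fc := ⟨false, st0, [], ⟨(nat_lit 128), [], [⟨(nat_lit 0x30000000000000000), (nat_lit 8), (nat_lit 11), (nat_lit 2)⟩], false⟩, []⟩
def f316 : Fc := ⟨false, st0, [], ⟨(nat_lit 128), [], [⟨(nat_lit 0x50000000000000000), (nat_lit 12), (nat_lit 17), (nat_lit 2)⟩], false⟩, []⟩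
def f317 : Fc := ⟨false, st0, [], ⟨(nat_lit 128), [], [⟨(nat_lit 0x50000000000000000), (nat_lit 2), (nat_lit 7), (nat_lit 2)⟩], false⟩, []⟩
def f318 : Fc := ⟨false, st0, [], ⟨(nat_lit 128), [⟨(nat_lit 0x20000000000000001), (nat_lit 0), (nat_lit 3), (nat_lit 2)⟩], [], false⟩, []⟩
def f319 : Fc := ⟨false, st0, [], ⟨(nat_lit 128), [⟨(nat_lit 0x20000000000000001), (nat_lit 0), (nat_lit 3), (nat_lit 2)⟩], [⟨(nat_lit 0x10000000000000002), (nat_lit 0), (nat_lit 3), (nat_lit 2)⟩], false⟩, []⟩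
def f320 : Fc := ⟨false, st0, [], ⟨(nat_lit 128), [⟨(nat_lit 0x10000000000000002), (nat_lit 0), (nat_lit 3), (nat_lit 2)⟩, ⟨(nat_lit 0x20000000000000001), (nat_lit 0), (nat_lit 3), (nat_lit 2)⟩], [], false⟩, []⟩
def f321 : Fc := ⟨false, st0, [], ⟨(nat_lit 31104), [⟨(nat_lit 0x10000000000000002), (nat_lit 0), (nat_lit 3), (nat_lit 2)⟩], [⟨(nb (nat_lit 0x20000000000000001) (nat_lit 512) (nat_lit 0)), (nat_lit 0x40000000000000000), (nat_lit 7), (nat_lit 6)⟩], false⟩, []⟩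
def f322 : Fc := ⟨false, st0, [], ⟨(nat_lit 128), [⟨(nat_lit 0x10000000000000002), (nat_lit 0), (nat_lit 3), (nat_lit 2)⟩], [], false⟩, []⟩
def f323 : Fc := ⟨false, st0, [], ⟨(nat_lit 128), [⟨(nat_lit 0x10000000000000002), (nat_lit 0), (nat_lit 3), (nat_lit 2)⟩], [⟨(nat_lit 0x50000000000000000), (nat_lit 2), (nat_lit 7), (nat_lit 2)⟩], false⟩, []⟩
def f324 : Fc := ⟨false, st0, [], ⟨(nat_lit 128), [⟨(nat_lit 0x10000000000000002), (nat_lit 0), (nat_lit 3), (nat_lit 2)⟩, ⟨(nat_lit 0x50000000000000000), (nat_lit 2), (nat_lit 7), (nat_lit 2)⟩], [], false⟩, []⟩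
def f325 : Fc := ⟨false, st0, [], ⟨(nat_lit 31104), [⟨(nat_lit 0x10000000000000002), (nat_lit 0), (nat_lit 3), (nat_lit 2)⟩], [⟨(nb (nat_lit 5) (nat_lit 576) (nat_lit 8)), (nb (nat_lit 2) (nat_lit 512) (nb (nat_lit 12) (nat_lit 64) (nat_lit 0))), (nat_lit 27), (nat_lit 6)⟩], false⟩, []⟩
def f326 : Fc := ⟨false, st0, [], ⟨(nat_lit 243), [], [⟨(nb (nat_lit 3) (nat_lit 512) (nat_lit 0)), (nat_lit 8), (nat_lit 11), (nat_lit 3)⟩], false⟩, []⟩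
def f327 : Fc := ⟨false, st0, [], ⟨(nat_lit 128), [], [⟨(nat_lit 0x20000000000000005), (nat_lit 0), (nat_lit 7), (nat_lit 2)⟩], false⟩, []⟩
def f328 : Fc := ⟨false, st0, [], ⟨(nat_lit 128), [], [⟨(nat_lit 0x70000000000000000), (nat_lit 12), (nat_lit 19), (nat_lit 2)⟩], false⟩, []⟩
def f329 : Fc := ⟨false, st0, [], ⟨(nat_lit 31104), [⟨(nb (nat_lit 1) (nat_lit 512) (nat_lit 0)), (nat_lit 1), (nat_lit 2), (nat_lit 3)⟩], [⟨(nb (nat_lit 7) (nat_lit 512) (nb (nat_lit 12) (nat_lit 64) (nat_lit 0))), (nat_lit 1), (nat_lit 20), (nat_lit 6)⟩], false⟩, []⟩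
def f330 : Fc := ⟨false, st0, [], ⟨(nat_lit 243), [], [⟨(nb (nat_lit 7) (nat_lit 512) (nat_lit 0)), (nat_lit 1), (nat_lit 8), (nat_lit 3)⟩], false⟩, []⟩
def f331 : Fc := ⟨false, st0, [], ⟨(nat_lit 31104), [], [⟨(nb (nat_lit 6) (nat_lit 512) (nb (nat_lit 3) (nat_lit 64) (nat_lit 0))), (nat_lit 8), (nat_lit 17), (nat_lit 6)⟩], false⟩, []⟩
def f332 : Fc := ⟨false, st0, [], ⟨(nat_lit 31104), [], [⟨(nb (nat_lit 2) (nat_lit 512) (nb (nat_lit 1) (nat_lit 64) (nat_lit 0))), (nat_lit 2), (nat_lit 5), (nat_lit 6)⟩], false⟩, []⟩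
def f333 : Fc := ⟨false, st0, [], ⟨(nat_lit 31104), [], [⟨(nb (nat_lit 3) (nat_lit 512) (nb (nat_lit 6) (nat_lit 64) (nat_lit 0))), (nat_lit 8), (nat_lit 17), (nat_lit 6)⟩], false⟩, []⟩
def f334 : Fc := ⟨false, st0, [], ⟨(nat_lit 128), [], [⟨(nat_lit 0x80000000000000000), (nat_lit 3), (nat_lit 11), (nat_lit 2)⟩], false⟩, []⟩
def f335 : Fc := ⟨false, st0, [], ⟨(nat_lit 128), [⟨(nat_lit 0x20000000000000001), (nat_lit 0), (nat_lit 3), (nat_lit 2)⟩], [⟨(nat_lit 0x30000000000000000), (nat_lit 2), (nat_lit 5), (nat_lit 2)⟩], false⟩, []⟩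
def f336 : Fc := ⟨false, st0, [], ⟨(nat_lit 128), [⟨(nat_lit 0x20000000000000001), (nat_lit 0), (nat_lit 3), (nat_lit 2)⟩, ⟨(nat_lit 0x20000000000000000), (nat_lit 1), (nat_lit 3), (nat_lit 2)⟩], [⟨(nat_lit 0x40000000000000000), (nat_lit 5), (nat_lit 9), (nat_lit 2)⟩], false⟩, []⟩
def f337 : Fc := ⟨false, st0, [], ⟨(nat_lit 128), [⟨(nat_lit 0x20000000000000001), (nat_lit 0), (nat_lit 3), (nat_lit 2)⟩], [⟨(nat_lit 0x20000000000000000), (nat_lit 1), (nat_lit 3), (nat_lit 2)⟩], false⟩, []⟩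
def f338 : Fc := ⟨false, st0, [], ⟨(nat_lit 128), [], [⟨(nat_lit 0xc0000000000000000), (nat_lit 7), (nat_lit 19), (nat_lit 2)⟩], false⟩, []⟩
def f339 : Fc := ⟨false, st0, [], ⟨(nat_lit 31104), [], [⟨(nat_lit 0x80000000000000000), (nb (nat_lit 6) (nat_lit 512) (nat_lit 3)), (nat_lit 17), (nat_lit 6)⟩], false⟩, []⟩
def f340 : Fc := ⟨false, st0, [], ⟨(nat_lit 31104), [], [⟨(nat_lit 0x20000000000000000), (nb (nat_lit 2) (nat_lit 512) (nat_lit 1)), (nat_lit 5), (nat_lit 6)⟩], false⟩, []⟩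
def f341 : Fc := ⟨false, st0, [], ⟨(nat_lit 31104), [⟨(nat_lit 0x20000000000000001), (nat_lit 0), (nat_lit 3), (nat_lit 2)⟩], [⟨(nat_lit 0x30000000000000000), (nb (nat_lit 3) (nat_lit 512) (nat_lit 2)), (nat_lit 8), (nat_lit 6)⟩], false⟩, []⟩
def f342 : Fc := ⟨false, st0, [], ⟨(nat_lit 128), [⟨(nat_lit 0x10000000000000000), (nat_lit 1), (nat_lit 2), (nat_lit 2)⟩], [⟨(nat_lit 0x20000000000000001), (nat_lit 0), (nat_lit 3), (nat_lit 2)⟩], false⟩, []⟩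
def f343 : Fc := ⟨false, st0, [], ⟨(nat_lit 128), [⟨(nat_lit 0x20000000000000001), (nat_lit 0), (nat_lit 3), (nat_lit 2)⟩, ⟨(nat_lit 0x80000000000000000), (nat_lit 8), (nat_lit 16), (nat_lit 2)⟩], [], false⟩, []⟩
def f344 : Fc := ⟨false, st0, [], ⟨(nat_lit 31104), [⟨(nat_lit 0x20000000000000001), (nat_lit 0), (nat_lit 3), (nat_lit 2)⟩], [⟨(nb (nat_lit 8) (nat_lit 512) (nat_lit 0x800000000000000000000000000000005)), (nb (nat_lit 8) (nat_lit 576) (nb (nat_lit 14) (nat_lit 64) (nat_lit 0))), (nat_lit 43), (nat_lit 12)⟩], false⟩, []⟩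
def f345 : Fc := ⟨false, st0, [], ⟨(nat_lit 128), [⟨(nat_lit 0x20000000000000001), (nat_lit 0), (nat_lit 3), (nat_lit 2)⟩], [⟨(nat_lit 0xc0000000000000000), (nat_lit 7), (nat_lit 19), (nat_lit 2)⟩], false⟩, []⟩
def f346 : Fc := ⟨false, st0, [], ⟨(nat_lit 243), [], [⟨(nb (nat_lit 6) (nat_lit 512) (nat_lit 7)), (nat_lit 0), (nat_lit 13), (nat_lit 3)⟩], false⟩, []⟩
def f347 : Fc := ⟨false, st0, [], ⟨(nat_lit 128), [], [⟨(nat_lit 0x3000000000000000a), (nat_lit 0), (nat_lit 13), (nat_lit 2)⟩], false⟩, []⟩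
def f348 : Fc := ⟨false, st0, [], ⟨(nat_lit 243), [], [⟨(nb (nat_lit 3) (nat_lit 512) (nat_lit 1)), (nat_lit 0), (nat_lit 4), (nat_lit 3)⟩], false⟩, []⟩
def f349 : Fc := ⟨false, st0, [], ⟨(nat_lit 128), [], [⟨(nat_lit 0x90000000000000000), (nat_lit 8), (nat_lit 17), (nat_lit 2)⟩], false⟩, []⟩
def f350 : Fc := ⟨false, st0, [], ⟨(nat_lit 128), [], [⟨(nat_lit 0x80000000000000000), (nat_lit 9), (nat_lit 17), (nat_lit 2)⟩], false⟩, []⟩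
def f351 : Fc := ⟨false, st0, [], ⟨(nat_lit 31104), [], [⟨(nb (nat_lit 0x20000000000000001) (nat_lit 512) (nat_lit 0)), (nat_lit 1), (nat_lit 4), (nat_lit 6)⟩], false⟩, []⟩
def f352 : Fc := ⟨false, st0, [], ⟨(nat_lit 128), [⟨(nat_lit 0x20000000000000001), (nat_lit 0), (nat_lit 3), (nat_lit 2)⟩], [⟨(nat_lit 0x10000000000000000), (nat_lit 1), (nat_lit 2), (nat_lit 2)⟩], false⟩, []⟩
def f353 : Fc := ⟨false, st0, [], ⟨(nat_lit 128), [⟨(nat_lit 0x20000000000000001), (nat_lit 0), (nat_lit 3), (nat_lit 2)⟩], [⟨(nat_lit 0x40000000000000000), (nat_lit 3), (nat_lit 7), (nat_lit 2)⟩], false⟩, []⟩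
def f354 : Fc := ⟨false, st0, [], ⟨(nat_lit 128), [⟨(nat_lit 0x10000000000000000), (nat_lit 3), (nat_lit 4), (nat_lit 2)⟩], [], false⟩, []⟩
def f355 : Fc := ⟨false, st0, [], ⟨(nat_lit 31104), [], [⟨(nb (nat_lit 1) (nat_lit 576) (nat_lit 3)), (nb (nat_lit 3) (nat_lit 512) (nat_lit 0)), (nat_lit 7), (nat_lit 6)⟩], false⟩, []⟩
def f356 : Fc := ⟨false, st0, [], ⟨(nat_lit 128), [⟨(nat_lit 0x10000000000000000), (nat_lit 3), (nat_lit 4), (nat_lit 2)⟩], [⟨(nat_lit 0x80000000000000000), (nat_lit 9), (nat_lit 17), (nat_lit 2)⟩], false⟩, []⟩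
def f357 : Fc := ⟨false, st0, [], ⟨(nat_lit 128), [⟨(nat_lit 0x10000000000000000), (nat_lit 3), (nat_lit 4), (nat_lit 2)⟩], [⟨(nat_lit 0x20000000000000000), (nat_lit 1), (nat_lit 3), (nat_lit 2)⟩], false⟩, []⟩
def f358 : Fc := ⟨false, st0, [], ⟨(nat_lit 128), [⟨(nat_lit 0x10000000000000000), (nat_lit 3), (nat_lit 4), (nat_lit 2)⟩], [⟨(nat_lit 0x40000000000000000), (nat_lit 9), (nat_lit 13), (nat_lit 2)⟩], false⟩, []⟩
def f359 : Fc := ⟨false, st0, [], ⟨(nat_lit 128), [⟨(nat_lit 0x10000000000000000), (nat_lit 3), (nat_lit 4), (nat_lit 2)⟩], [⟨(nat_lit 0x10000000000000000), (nat_lit 0), (nat_lit 1), (nat_lit 2)⟩], false⟩, []⟩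
def f360 : Fc := ⟨false, st0, [], ⟨(nat_lit 128), [⟨(nat_lit 0x30000000000000000), (nat_lit 2), (nat_lit 5), (nat_lit 2)⟩], [⟨(nat_lit 0x80000000000000000), (nat_lit 3), (nat_lit 11), (nat_lit 2)⟩], false⟩, []⟩
def f361 : Fc := ⟨false, st0, [], ⟨(nat_lit 128), [⟨(nat_lit 0x80000000000000000), (nat_lit 3), (nat_lit 11), (nat_lit 2)⟩, ⟨(nat_lit 0x90000000000000000), (nat_lit 6), (nat_lit 15), (nat_lit 2)⟩], [], false⟩, []⟩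
def f362 : Fc := ⟨false, st0, [], ⟨(nat_lit 31104), [⟨(nat_lit 0x80000000000000000), (nat_lit 3), (nat_lit 11), (nat_lit 2)⟩], [⟨(nb (nat_lit 9) (nat_lit 576) (nat_lit 3)), (nb (nat_lit 6) (nat_lit 512) (nb (nat_lit 4) (nat_lit 64) (nat_lit 0))), (nat_lit 22), (nat_lit 6)⟩], false⟩, []⟩
def f363 : Fc := ⟨false, st0, [], ⟨(nat_lit 128), [⟨(nat_lit 0x20000000000000000), (nat_lit 1), (nat_lit 3), (nat_lit 2)⟩], [⟨(nat_lit 0x40000000000000000), (nat_lit 5), (nat_lit 9), (nat_lit 2)⟩], false⟩, []⟩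
def f364 : Fc := ⟨false, st0, [], ⟨(nat_lit 128), [⟨(nat_lit 0x20000000000000000), (nat_lit 1), (nat_lit 3), (nat_lit 2)⟩, ⟨(nat_lit 0x40000000000000000), (nat_lit 5), (nat_lit 9), (nat_lit 2)⟩], [], false⟩, []⟩
def f365 : Fc := ⟨false, st0, [], ⟨(nat_lit 128), [⟨(nat_lit 0x20000000000000000), (nat_lit 1), (nat_lit 3), (nat_lit 2)⟩, ⟨(nat_lit 0x40000000000000000), (nat_lit 5), (nat_lit 9), (nat_lit 2)⟩], [⟨(nat_lit 0x80000000000000000), (nat_lit 3), (nat_lit 11), (nat_lit 2)⟩], false⟩, []⟩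
def f366 : Fc := ⟨false, st0, [], ⟨(nat_lit 128), [⟨(nat_lit 0x80000000000000000), (nat_lit 3), (nat_lit 11), (nat_lit 2)⟩, ⟨(nat_lit 0x2800000000000000000000000000000019), (nat_lit 0x460000000000000000), (nat_lit 135), (nat_lit 4)⟩], [], false⟩, []⟩
def f367 : Fc := ⟨false, st0, [], ⟨(nat_lit 31104), [⟨(nat_lit 0x80000000000000000), (nat_lit 3), (nat_lit 11), (nat_lit 2)⟩], [⟨(nb (nat_lit 0x2800000000000000000000000000000019) (nat_lit 512) (nb (nat_lit 12) (nat_lit 64) (nat_lit 0))), (nb (nat_lit 70) (nat_lit 576) (nat_lit 7)), (nat_lit 154), (nat_lit 12)⟩], false⟩, []⟩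
def f368 : Fc := ⟨false, st0, [], ⟨(nat_lit 243), [], [⟨(nb (nat_lit 7) (nat_lit 512) (nat_lit 0)), (nat_lit 4), (nat_lit 11), (nat_lit 3)⟩], false⟩, []⟩
def f369 : Fc := ⟨false, st0, [], ⟨(nat_lit 128), [], [⟨(nat_lit 0x7000000000000001a), (nat_lit 0), (nat_lit 33), (nat_lit 2)⟩], false⟩, []⟩
def f370 : Fc := ⟨false, st0, [], ⟨(nat_lit 128), [⟨(nat_lit 0x30000000000000000), (nat_lit 4), (nat_lit 7), (nat_lit 2)⟩], [], false⟩, []⟩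
def f371 : Fc := ⟨false, st0, [], ⟨(nat_lit 31104), [], [⟨(nb (nat_lit 3) (nat_lit 576) (nat_lit 1)), (nb (nat_lit 4) (nat_lit 512) (nat_lit 0)), (nat_lit 8), (nat_lit 6)⟩], false⟩, []⟩
def f372 : Fc := ⟨false, st0, [], ⟨(nat_lit 16000), [], [⟨(nat_lit 0x80000000000000000), (nb (nat_lit 6) (nat_lit 3072) (nat_lit 3)), (nat_lit 17), (nat_lit 10)⟩], false⟩, []⟩
def f373 : Fc := ⟨false, st0, [], ⟨(nat_lit 243), [], [⟨(nb (nat_lit 9) (nat_lit 512) (nat_lit 0)), (nat_lit 1), (nat_lit 10), (nat_lit 3)⟩], false⟩, []⟩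
def f374 : Fc := ⟨false, st0, [], ⟨(nat_lit 31104), [], [⟨(nb (nat_lit 4) (nat_lit 512) (nb (nat_lit 3) (nat_lit 64) (nat_lit 0))), (nat_lit 8), (nat_lit 15), (nat_lit 6)⟩], false⟩, []⟩
def f375 : Fc := ⟨false, st0, [], ⟨(nat_lit 128), [], [⟨(nat_lit 0x90000000000000007), (nat_lit 0), (nat_lit 16), (nat_lit 2)⟩], false⟩, []⟩
def f376 : Fc := ⟨false, st0, [], ⟨(nat_lit 128), [⟨(nat_lit 0x40000000000000006), (nat_lit 0), (nat_lit 10), (nat_lit 2)⟩], [], false⟩, []⟩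
def f377 : Fc := ⟨false, st0, [], ⟨(nat_lit 31104), [], [⟨(nb (nat_lit 0x40000000000000006) (nat_lit 512) (nat_lit 3)), (nat_lit 0), (nat_lit 13), (nat_lit 6)⟩], false⟩, []⟩
def f378 : Fc := ⟨false, st0, [], ⟨(nat_lit 128), [⟨(nat_lit 0x90000000000000007), (nat_lit 0), (nat_lit 16), (nat_lit 2)⟩], [], false⟩, []⟩
def f379 : Fc := ⟨false, st0, [], ⟨(nat_lit 31104), [], [⟨(nb (nat_lit 0x90000000000000007) (nat_lit 512) (nat_lit 0)), (nat_lit 1), (nat_lit 17), (nat_lit 6)⟩], false⟩, []⟩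
def f380 : Fc := ⟨false, st0, [], ⟨(nat_lit 0x3b5380), [], [⟨(nb (nat_lit 0x40000000000000006) (nat_lit 3072) (nb (nat_lit 3) (nat_lit 512) (nat_lit 0))), (nat_lit 8), (nat_lit 21), (nat_lit 30)⟩], false⟩, []⟩
def f381 : Fc := ⟨false, st0, [], ⟨(nat_lit 243), [], [⟨(nb (nat_lit 18) (nat_lit 512) (nat_lit 0)), (nat_lit 1), (nat_lit 19), (nat_lit 3)⟩], false⟩, []⟩
def f382 : Fc := ⟨false, st0, [], ⟨(nat_lit 31104), [], [⟨(nat_lit 0x80000000000000000), (nb (nat_lit 4) (nat_lit 512) (nat_lit 3)), (nat_lit 15), (nat_lit 6)⟩], false⟩, []⟩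
def f383 : Fc := ⟨false, st0, [], ⟨(nat_lit 128), [], [⟨(nat_lit 0x80000000000000000), (nat_lit 5), (nat_lit 13), (nat_lit 2)⟩], false⟩, []⟩
def f384 : Fc := ⟨false, st0, [], ⟨(nat_lit 31104), [], [⟨(nat_lit 0xc0000000000000000), (nb (nat_lit 18) (nat_lit 512) (nat_lit 5)), (nat_lit 35), (nat_lit 6)⟩], false⟩, []⟩
def f385 : Fc := ⟨false, st0, [], ⟨(nat_lit 243), [], [⟨(nb (nat_lit 4) (nat_lit 512) (nat_lit 7)), (nat_lit 0), (nat_lit 11), (nat_lit 3)⟩], false⟩, []⟩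
def f386 : Fc := ⟨false, st0, [], ⟨(nat_lit 31104), [], [⟨(nb (nat_lit 18) (nat_lit 512) (nb (nat_lit 12) (nat_lit 64) (nat_lit 0))), (nat_lit 7), (nat_lit 37), (nat_lit 6)⟩], false⟩, []⟩
def f387 : Fc := ⟨false, st0, [], ⟨(nat_lit 0x3b5380), [], [⟨(nat_lit 0x80000000000000000), (nb (nat_lit 6) (nat_lit 3072) (nb (nat_lit 4) (nat_lit 512) (nat_lit 3))), (nat_lit 21), (nat_lit 30)⟩], false⟩, []⟩
def f388 : Fc := ⟨false, st0, [], ⟨(nat_lit 243), [⟨(nb (nat_lit 1) (nat_lit 512) (nat_lit 0)), (nat_lit 0), (nat_lit 1), (nat_lit 3)⟩, ⟨(nb (nat_lit 1) (nat_lit 512) (nat_lit 1)), (nat_lit 0), (nat_lit 2), (nat_lit 3)⟩], [⟨(nb (nat_lit 3) (nat_lit 512) (nat_lit 1)), (nat_lit 0), (nat_lit 4), (nat_lit 3)⟩], false⟩, []⟩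
def f389 : Fc := ⟨false, st0, [], ⟨(nat_lit 243), [⟨(nb (nat_lit 1) (nat_lit 512) (nat_lit 0)), (nat_lit 0), (nat_lit 1), (nat_lit 3)⟩], [⟨(nb (nat_lit 1) (nat_lit 512) (nat_lit 1)), (nat_lit 0), (nat_lit 2), (nat_lit 3)⟩], false⟩, []⟩
def f390 : Fc := ⟨false, st0, [], ⟨(nat_lit 128), [⟨(nat_lit 0x120000000000000000), (nat_lit 9), (nat_lit 27), (nat_lit 2)⟩], [], false⟩, []⟩
def f391 : Fc := ⟨false, st0, [], ⟨(nat_lit 31104), [], [⟨(nb (nat_lit 18) (nat_lit 576) (nb (nat_lit 12) (nat_lit 64) (nat_lit 0))), (nb (nat_lit 9) (nat_lit 512) (nat_lit 7)), (nat_lit 46), (nat_lit 6)⟩], false⟩, []⟩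
def f392 : Fc := ⟨false, st0, [], ⟨(nat_lit 0x3b5380), [], [⟨(nat_lit 0x80000000000000000), (nb (nat_lit 4) (nat_lit 3584) (nb (nat_lit 6) (nat_lit 3072) (nat_lit 3))), (nat_lit 21), (nat_lit 30)⟩], false⟩, []⟩
def f393 : Fc := ⟨false, st0, [], ⟨(nat_lit 128), [⟨(nat_lit 0x20000000000000000), (nat_lit 0), (nat_lit 2), (nat_lit 2)⟩], [], false⟩, []⟩
def f394 : Fc := ⟨false, st0, [], ⟨(nat_lit 31104), [], [⟨(nb (nat_lit 2) (nat_lit 576) (nb (nat_lit 2) (nat_lit 64) (nat_lit 0))), (nat_lit 1), (nat_lit 5), (nat_lit 6)⟩], false⟩, []⟩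
def f395 : Fc := ⟨false, st0, [], ⟨(nat_lit 125), [], [⟨(nb (nat_lit 3) (nat_lit 3072) (nat_lit 0)), (nat_lit 1), (nat_lit 4), (nat_lit 5)⟩], false⟩, []⟩
def f396 : Fc := ⟨false, st0, [], ⟨(nat_lit 0x3b5380), [⟨(nb (nat_lit 1) (nat_lit 512) (nat_lit 0)), (nat_lit 0), (nat_lit 1), (nat_lit 3)⟩], [⟨(nb (nat_lit 2) (nat_lit 512) (nat_lit 1)), (nat_lit 0), (nat_lit 3), (nat_lit 3)⟩, ⟨(nb (nat_lit 12) (nat_lit 576) (nb (nat_lit 6) (nat_lit 64) (nat_lit 0))), (nb (nat_lit 18) (nat_lit 4096) (nb (nat_lit 24) (nat_lit 3584) (nb (nat_lit 6) (nat_lit 3072) (nb (nat_lit 5) (nat_lit 512) (nat_lit 3))))), (nat_lit 74), (nat_lit 90)⟩], false⟩, []⟩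
def f397 : Fc := ⟨false, st0, [], ⟨(nat_lit 243), [⟨(nb (nat_lit 1) (nat_lit 512) (nat_lit 0)), (nat_lit 0), (nat_lit 1), (nat_lit 3)⟩], [], false⟩, []⟩
def f398 : Fc := ⟨false, st0, [], ⟨(nat_lit 243), [⟨(nb (nat_lit 1) (nat_lit 512) (nat_lit 0)), (nat_lit 0), (nat_lit 1), (nat_lit 3)⟩], [⟨(nb (nat_lit 2) (nat_lit 512) (nat_lit 1)), (nat_lit 0), (nat_lit 3), (nat_lit 3)⟩], false⟩, []⟩
def f399 : Fc := ⟨false, st0, [], ⟨(nat_lit 243), [⟨(nb (nat_lit 1) (nat_lit 512) (nat_lit 0)), (nat_lit 0), (nat_lit 1), (nat_lit 3)⟩, ⟨(nb (nat_lit 12) (nat_lit 512) (nat_lit 6)), (nat_lit 0), (nat_lit 18), (nat_lit 3)⟩], [], false⟩, []⟩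
def f400 : Fc := ⟨false, st0, [], ⟨(nat_lit 0x3b5380), [⟨(nb (nat_lit 1) (nat_lit 512) (nat_lit 0)), (nat_lit 0), (nat_lit 1), (nat_lit 3)⟩, ⟨(nb (nat_lit 2) (nat_lit 512) (nat_lit 1)), (nat_lit 0), (nat_lit 3), (nat_lit 3)⟩], [⟨(nb (nat_lit 12) (nat_lit 576) (nb (nat_lit 6) (nat_lit 64) (nat_lit 0))), (nb (nat_lit 18) (nat_lit 4096) (nb (nat_lit 24) (nat_lit 3584) (nb (nat_lit 6) (nat_lit 3072) (nb (nat_lit 5) (nat_lit 512) (nat_lit 3))))), (nat_lit 74), (nat_lit 90)⟩], false⟩, []⟩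
def f401 : Fc := ⟨false, st0, [], ⟨(nat_lit 0x3b5380), [⟨(nb (nat_lit 1) (nat_lit 512) (nat_lit 0)), (nat_lit 0), (nat_lit 1), (nat_lit 3)⟩], [⟨(nb (nat_lit 12) (nat_lit 576) (nb (nat_lit 6) (nat_lit 64) (nat_lit 0))), (nb (nat_lit 18) (nat_lit 4096) (nb (nat_lit 24) (nat_lit 3584) (nb (nat_lit 6) (nat_lit 3072) (nb (nat_lit 5) (nat_lit 512) (nat_lit 3))))), (nat_lit 74), (nat_lit 90)⟩], false⟩, []⟩
def f402 : Fc := ⟨false, st0, [], ⟨(nat_lit 128), [⟨(nat_lit 0x40000000000000000), (nat_lit 0), (nat_lit 4), (nat_lit 2)⟩], [], false⟩, []⟩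
def f403 : Fc := ⟨false, st0, [], ⟨(nat_lit 31104), [], [⟨(nb (nat_lit 4) (nat_lit 576) (nat_lit 0x60000000000000007)), (nat_lit 0), (nat_lit 17), (nat_lit 6)⟩], false⟩, []⟩
def f404 : Fc := ⟨false, st0, [], ⟨(nat_lit 16000), [], [⟨(nb (nat_lit 0x20000000000000001) (nat_lit 3072) (nat_lit 0)), (nat_lit 1), (nat_lit 4), (nat_lit 10)⟩], false⟩, []⟩
def f405 : Fc := ⟨false, st0, [], ⟨(nat_lit 16000), [], [⟨(nb (nat_lit 1) (nat_lit 3136) (nat_lit 3)), (nb (nat_lit 3) (nat_lit 3072) (nat_lit 0)), (nat_lit 7), (nat_lit 10)⟩], false⟩, []⟩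
def f406 : Fc := ⟨false, st0, [], ⟨(nat_lit 128), [], [⟨(nat_lit 0x70000000000000004), (nat_lit 0), (nat_lit 11), (nat_lit 2)⟩], false⟩, []⟩
def f407 : Fc := ⟨false, st0, [], ⟨(nat_lit 128), [], [⟨(nat_lit 0x60000000000000005), (nat_lit 0), (nat_lit 11), (nat_lit 2)⟩], false⟩, []⟩
def f408 : Fc := ⟨false, st0, [], ⟨(nat_lit 128), [], [⟨(nat_lit 0x90000000000000002), (nat_lit 0), (nat_lit 11), (nat_lit 2)⟩], false⟩, []⟩
def f409 : Fc := ⟨false, st0, [], ⟨(nat_lit 128), [⟨(nat_lit 0x90000000000000002), (nat_lit 0), (nat_lit 11), (nat_lit 2)⟩], [⟨(nat_lit 0x60000000000000005), (nat_lit 0), (nat_lit 11), (nat_lit 2)⟩], false⟩, []⟩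
def f410 : Fc := ⟨false, st0, [], ⟨(nat_lit 128), [⟨(nat_lit 0x90000000000000002), (nat_lit 0), (nat_lit 11), (nat_lit 2)⟩], [⟨(nat_lit 0x17000000000000000a), (nat_lit 0), (nat_lit 33), (nat_lit 2)⟩], false⟩, []⟩
def f411 : Fc := ⟨false, st0, [], ⟨(nat_lit 128), [⟨(nat_lit 0x90000000000000002), (nat_lit 0), (nat_lit 11), (nat_lit 2)⟩], [⟨(nat_lit 0x10000000000000000), (nat_lit 0), (nat_lit 1), (nat_lit 2)⟩], false⟩, []⟩
def f412 : Fc := ⟨false, st0, [], ⟨(nat_lit 243), [], [⟨(nb (nat_lit 6) (nat_lit 512) (nat_lit 0)), (nat_lit 1), (nat_lit 7), (nat_lit 3)⟩], false⟩, []⟩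
def f413 : Fc := ⟨false, st0, [], ⟨(nat_lit 243), [], [⟨(nb (nat_lit 7) (nat_lit 512) (nat_lit 0)), (nat_lit 2), (nat_lit 9), (nat_lit 3)⟩], false⟩, []⟩
def f414 : Fc := ⟨false, st0, [], ⟨(nat_lit 31104), [], [⟨(nb (nat_lit 3) (nat_lit 576) (nat_lit 1)), (nb (nat_lit 2) (nat_lit 512) (nb (nat_lit 1) (nat_lit 64) (nat_lit 0))), (nat_lit 7), (nat_lit 6)⟩], false⟩, []⟩
def f415 : Fc := ⟨false, st0, [], ⟨(nat_lit 128), [⟨(nat_lit 0x70000000000000000), (nat_lit 2), (nat_lit 9), (nat_lit 2)⟩], [], false⟩, []⟩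
def f416 : Fc := ⟨false, st0, [], ⟨(nat_lit 31104), [], [⟨(nb (nat_lit 7) (nat_lit 576) (nat_lit 4)), (nb (nat_lit 2) (nat_lit 512) (nb (nat_lit 6) (nat_lit 64) (nat_lit 0))), (nat_lit 19), (nat_lit 6)⟩], false⟩, []⟩
def f417 : Fc := ⟨false, st0, [], ⟨(nat_lit 128), [⟨(nat_lit 0x10000000000000000), (nat_lit 4), (nat_lit 5), (nat_lit 2)⟩], [], false⟩, []⟩
def f418 : Fc := ⟨false, st0, [], ⟨(nat_lit 31104), [], [⟨(nb (nat_lit 1) (nat_lit 576) (nat_lit 0)), (nb (nat_lit 4) (nat_lit 512) (nat_lit 1)), (nat_lit 6), (nat_lit 6)⟩], false⟩, []⟩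
def f419 : Fc := ⟨false, st0, [], ⟨(nat_lit 128), [⟨(nat_lit 0x10000000000000000), (nat_lit 4), (nat_lit 5), (nat_lit 2)⟩], [⟨(nat_lit 0x10000000000000000), (nat_lit 1), (nat_lit 2), (nat_lit 2)⟩], false⟩, []⟩
def f420 : Fc := ⟨false, st0, [], ⟨(nat_lit 128), [⟨(nat_lit 0x10000000000000000), (nat_lit 4), (nat_lit 5), (nat_lit 2)⟩], [⟨(nat_lit 0x30000000000000000), (nat_lit 2), (nat_lit 5), (nat_lit 2)⟩], false⟩, []⟩
def f421 : Fc := ⟨false, st0, [], ⟨(nat_lit 31104), [], [⟨(nb (nat_lit 3) (nat_lit 576) (nat_lit 0)), (nb (nat_lit 5) (nat_lit 512) (nat_lit 3)), (nat_lit 11), (nat_lit 6)⟩], false⟩, []⟩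
def f422 : Fc := ⟨false, st0, [], ⟨(nat_lit 128), [⟨(nat_lit 0x30000000000000000), (nat_lit 5), (nat_lit 8), (nat_lit 2)⟩], [⟨(nat_lit 0x90000000000000000), (nat_lit 10), (nat_lit 19), (nat_lit 2)⟩], false⟩, []⟩
def f423 : Fc := ⟨false, st0, [], ⟨(nat_lit 128), [⟨(nat_lit 0x30000000000000000), (nat_lit 5), (nat_lit 8), (nat_lit 2)⟩], [⟨(nat_lit 0x10000000000000000), (nat_lit 0), (nat_lit 1), (nat_lit 2)⟩], false⟩, []⟩
def f424 : Fc := ⟨false, st0, [], ⟨(nat_lit 128), [⟨(nat_lit 0x30000000000000000), (nat_lit 5), (nat_lit 8), (nat_lit 2)⟩], [⟨(nat_lit 0x90000000000000000), (nat_lit 14), (nat_lit 23), (nat_lit 2)⟩], false⟩, []⟩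
def f425 : Fc := ⟨false, st0, [], ⟨(nat_lit 128), [⟨(nat_lit 0x10000000000000000), (nat_lit 2), (nat_lit 3), (nat_lit 2)⟩, ⟨(nat_lit 0x20000000000000000), (nat_lit 1), (nat_lit 3), (nat_lit 2)⟩], [⟨(nat_lit 0x30000000000000002), (nat_lit 0), (nat_lit 5), (nat_lit 2)⟩], false⟩, []⟩
def f426 : Fc := ⟨false, st0, [], ⟨(nat_lit 128), [⟨(nat_lit 0x30000000000000002), (nat_lit 0), (nat_lit 5), (nat_lit 2)⟩, ⟨(nat_lit 0x600000000000000000000000000000006), (nat_lit 0xf0000000000000000), (nat_lit 27), (nat_lit 4)⟩], [], false⟩, []⟩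
def f427 : Fc := ⟨false, st0, [], ⟨(nat_lit 31104), [⟨(nat_lit 0x30000000000000002), (nat_lit 0), (nat_lit 5), (nat_lit 2)⟩], [⟨(nb (nat_lit 0x600000000000000000000000000000006) (nat_lit 512) (nat_lit 2)), (nb (nat_lit 15) (nat_lit 576) (nb (nat_lit 3) (nat_lit 64) (nat_lit 0))), (nat_lit 32), (nat_lit 12)⟩], false⟩, []⟩
def f428 : Fc := ⟨false, st0, [], ⟨(nat_lit 128), [⟨(nat_lit 0x10000000000000000), (nat_lit 0), (nat_lit 1), (nat_lit 2)⟩], [⟨(nat_lit 0x30000000000000002), (nat_lit 0), (nat_lit 5), (nat_lit 2)⟩], false⟩, []⟩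
def f429 : Fc := ⟨false, st0, [], ⟨(nat_lit 128), [⟨(nat_lit 0x10000000000000000), (nat_lit 0), (nat_lit 1), (nat_lit 2)⟩, ⟨(nat_lit 0x30000000000000002), (nat_lit 0), (nat_lit 5), (nat_lit 2)⟩], [], false⟩, []⟩
def f430 : Fc := ⟨false, st0, [], ⟨(nat_lit 128), [⟨(nat_lit 0x30000000000000002), (nat_lit 0), (nat_lit 5), (nat_lit 2)⟩, ⟨(nat_lit 0x1900000000000000000000000000000000), (nat_lit 0x1e0000000000000000), (nat_lit 55), (nat_lit 4)⟩], [], false⟩, []⟩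
def f431 : Fc := ⟨false, st0, [], ⟨(nat_lit 31104), [⟨(nat_lit 0x30000000000000002), (nat_lit 0), (nat_lit 5), (nat_lit 2)⟩], [⟨(nb (nat_lit 25) (nat_lit 640) (nat_lit 2)), (nb (nat_lit 30) (nat_lit 576) (nb (nat_lit 7) (nat_lit 64) (nat_lit 0))), (nat_lit 64), (nat_lit 12)⟩], false⟩, []⟩
def f432 : Fc := ⟨false, st0, [], ⟨(nat_lit 128), [⟨(nat_lit 0x10000000000000000), (nat_lit 0), (nat_lit 1), (nat_lit 2)⟩, ⟨(nat_lit 0x30000000000000002), (nat_lit 0), (nat_lit 5), (nat_lit 2)⟩, ⟨(nat_lit 0x50000000000000000), (nat_lit 6), (nat_lit 11), (nat_lit 2)⟩], [⟨(nat_lit 0x30000000000000000), (nat_lit 10), (nat_lit 13), (nat_lit 2)⟩], false⟩, []⟩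
def f433 : Fc := ⟨false, st0, [], ⟨(nat_lit 243), [], [⟨(nb (nat_lit 14) (nat_lit 512) (nat_lit 3)), (nat_lit 0), (nat_lit 17), (nat_lit 3)⟩], false⟩, []⟩
def f434 : Fc := ⟨false, st0, [], ⟨(nat_lit 128), [], [⟨(nat_lit 0x80000000000000003), (nat_lit 0), (nat_lit 11), (nat_lit 2)⟩], false⟩, []⟩
def f435 : Fc := ⟨false, st0, [], ⟨(nat_lit 128), [], [⟨(nat_lit 0x13000000000000000d), (nat_lit 0), (nat_lit 32), (nat_lit 2)⟩], false⟩, []⟩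
def f436 : Fc := ⟨false, st0, [], ⟨(nat_lit 128), [], [⟨(nat_lit 0x40000000000000000), (nat_lit 5), (nat_lit 9), (nat_lit 2)⟩], false⟩, []⟩
def f437 : Fc := ⟨false, st0, [], ⟨(nat_lit 128), [], [⟨(nat_lit 0x70000000000000000), (nat_lit 10), (nat_lit 17), (nat_lit 2)⟩], false⟩, []⟩
def f438 : Fc := ⟨false, st0, [], ⟨(nat_lit 128), [], [⟨(nat_lit 0x110000000000000000), (nat_lit 28), (nat_lit 45), (nat_lit 2)⟩], false⟩, []⟩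
def f439 : Fc := ⟨false, st0, [], ⟨(nat_lit 128), [⟨(nat_lit 0x40000000000000000), (nat_lit 5), (nat_lit 9), (nat_lit 2)⟩], [], false⟩, []⟩
def f440 : Fc := ⟨false, st0, [], ⟨(nat_lit 31104), [], [⟨(nb (nat_lit 4) (nat_lit 576) (nat_lit 0)), (nb (nat_lit 5) (nat_lit 512) (nat_lit 1)), (nat_lit 10), (nat_lit 6)⟩], false⟩, []⟩
def f441 : Fc := ⟨false, st0, [], ⟨(nat_lit 128), [⟨(nat_lit 0x40000000000000000), (nat_lit 5), (nat_lit 9), (nat_lit 2)⟩], [⟨(nat_lit 0x30000000000000000), (nat_lit 10), (nat_lit 13), (nat_lit 2)⟩], false⟩, []⟩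
def f442 : Fc := ⟨false, st0, [], ⟨(nat_lit 128), [⟨(nat_lit 0x70000000000000000), (nat_lit 10), (nat_lit 17), (nat_lit 2)⟩], [], false⟩, []⟩
def f443 : Fc := ⟨false, st0, [], ⟨(nat_lit 31104), [], [⟨(nb (nat_lit 7) (nat_lit 576) (nat_lit 0)), (nb (nat_lit 10) (nat_lit 512) (nat_lit 6)), (nat_lit 23), (nat_lit 6)⟩], false⟩, []⟩
def f444 : Fc := ⟨false, st0, [], ⟨(nat_lit 128), [⟨(nat_lit 0x110000000000000000), (nat_lit 28), (nat_lit 45), (nat_lit 2)⟩], [], false⟩, []⟩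
def f445 : Fc := ⟨false, st0, [], ⟨(nat_lit 31104), [], [⟨(nb (nat_lit 17) (nat_lit 576) (nat_lit 0)), (nb (nat_lit 28) (nat_lit 512) (nat_lit 14)), (nat_lit 59), (nat_lit 6)⟩], false⟩, []⟩
def f446 : Fc := ⟨false, st0, [], ⟨(nat_lit 128), [⟨(nat_lit 0x10000000000000000), (nat_lit 0), (nat_lit 1), (nat_lit 2)⟩], [⟨(nat_lit 0x20000000000000001), (nat_lit 0), (nat_lit 3), (nat_lit 2)⟩], false⟩, []⟩
def f447 : Fc := ⟨false, st0, [], ⟨(nat_lit 128), [⟨(nat_lit 0x10000000000000003), (nat_lit 0), (nat_lit 4), (nat_lit 2)⟩], [⟨(nat_lit 0x50000000000000001), (nat_lit 0), (nat_lit 6), (nat_lit 2)⟩], false⟩, []⟩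
def f448 : Fc := ⟨false, st0, [], ⟨(nat_lit 128), [⟨(nat_lit 0x10000000000000003), (nat_lit 0), (nat_lit 4), (nat_lit 2)⟩], [⟨(nat_lit 0x3c000000000000003d), (nat_lit 0), (nat_lit 121), (nat_lit 2)⟩], false⟩, []⟩
def f449 : Fc := ⟨false, st0, [], ⟨(nat_lit 128), [⟨(nat_lit 0x50000000000000001), (nat_lit 0), (nat_lit 6), (nat_lit 2)⟩], [], false⟩, []⟩
def f450 : Fc := ⟨false, st0, [], ⟨(nat_lit 31104), [], [⟨(nb (nat_lit 0x50000000000000001) (nat_lit 512) (nb (nat_lit 2) (nat_lit 64) (nat_lit 0))), (nat_lit 0), (nat_lit 8), (nat_lit 6)⟩], false⟩, []⟩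
def f451 : Fc := ⟨false, st0, [], ⟨(nat_lit 128), [⟨(nat_lit 0x20000000000000001), (nat_lit 0), (nat_lit 3), (nat_lit 2)⟩], [⟨(nat_lit 0x30000000000000002), (nat_lit 0), (nat_lit 5), (nat_lit 2)⟩], false⟩, []⟩
def f452 : Fc := ⟨false, st0, [], ⟨(nat_lit 128), [⟨(nat_lit 0x20000000000000001), (nat_lit 0), (nat_lit 3), (nat_lit 2)⟩, ⟨(nat_lit 0x30000000000000002), (nat_lit 0), (nat_lit 5), (nat_lit 2)⟩], [], false⟩, []⟩
def f453 : Fc := ⟨false, st0, [], ⟨(nat_lit 128), [⟨(nat_lit 0x20000000000000001), (nat_lit 0), (nat_lit 3), (nat_lit 2)⟩, ⟨(nat_lit 0x30000000000000002), (nat_lit 0), (nat_lit 5), (nat_lit 2)⟩], [⟨(nat_lit 0x50000000000000002), (nat_lit 0), (nat_lit 7), (nat_lit 2)⟩], false⟩, []⟩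
def f454 : Fc := ⟨false, st0, [], ⟨(nat_lit 128), [⟨(nat_lit 0x20000000000000001), (nat_lit 0), (nat_lit 3), (nat_lit 2)⟩, ⟨(nat_lit 0x30000000000000002), (nat_lit 0), (nat_lit 5), (nat_lit 2)⟩, ⟨(nat_lit 0x50000000000000002), (nat_lit 0), (nat_lit 7), (nat_lit 2)⟩], [], false⟩, []⟩
def f455 : Fc := ⟨false, st0, [], ⟨(nat_lit 128), [⟨(nat_lit 0x20000000000000001), (nat_lit 0), (nat_lit 3), (nat_lit 2)⟩, ⟨(nat_lit 0x30000000000000002), (nat_lit 0), (nat_lit 5), (nat_lit 2)⟩, ⟨(nat_lit 0x50000000000000002), (nat_lit 0), (nat_lit 7), (nat_lit 2)⟩], [⟨(nat_lit 0x50000000000000001), (nat_lit 0), (nat_lit 6), (nat_lit 2)⟩], false⟩, []⟩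
def f456 : Fc := ⟨false, st0, [], ⟨(nat_lit 128), [⟨(nat_lit 0x20000000000000001), (nat_lit 0), (nat_lit 3), (nat_lit 2)⟩, ⟨(nat_lit 0x30000000000000002), (nat_lit 0), (nat_lit 5), (nat_lit 2)⟩, ⟨(nat_lit 0x50000000000000001), (nat_lit 0), (nat_lit 6), (nat_lit 2)⟩, ⟨(nat_lit 0x50000000000000002), (nat_lit 0), (nat_lit 7), (nat_lit 2)⟩], [], false⟩, []⟩
def f457 : Fc := ⟨false, st0, [], ⟨(nat_lit 31104), [⟨(nb (nat_lit 1) (nat_lit 512) (nat_lit 0)), (nat_lit 0), (nat_lit 1), (nat_lit 3)⟩, ⟨(nb (nat_lit 3) (nat_lit 512) (nat_lit 1)), (nat_lit 0), (nat_lit 4), (nat_lit 3)⟩, ⟨(nb (nat_lit 0x50000000000000001) (nat_lit 512) (nb (nat_lit 2) (nat_lit 64) (nat_lit 0))), (nat_lit 0), (nat_lit 8), (nat_lit 6)⟩], [⟨(nb (nat_lit 0x50000000000000001) (nat_lit 512) (nat_lit 0x50000000000000002)), (nat_lit 0), (nat_lit 13), (nat_lit 6)⟩], false⟩, []⟩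
def f458 : Fc := ⟨false, st0, [], ⟨(nat_lit 128), [⟨(nat_lit 0x10000000000000000), (nat_lit 0), (nat_lit 1), (nat_lit 2)⟩], [⟨(nat_lit 0x50000000000000002), (nat_lit 0), (nat_lit 7), (nat_lit 2)⟩], false⟩, []⟩
def f459 : Fc := ⟨false, st0, [], ⟨(nat_lit 128), [⟨(nat_lit 0x30000000000000002), (nat_lit 0), (nat_lit 5), (nat_lit 2)⟩], [⟨(nat_lit 0x50000000000000008), (nat_lit 0), (nat_lit 13), (nat_lit 2)⟩], false⟩, []⟩
def f460 : Fc := ⟨false, st0, [], ⟨(nat_lit 128), [⟨(nat_lit 0x30000000000000002), (nat_lit 0), (nat_lit 5), (nat_lit 2)⟩, ⟨(nat_lit 0x50000000000000008), (nat_lit 0), (nat_lit 13), (nat_lit 2)⟩], [], false⟩, []⟩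
def f461 : Fc := ⟨false, st0, [], ⟨(nat_lit 128), [⟨(nat_lit 0x30000000000000002), (nat_lit 0), (nat_lit 5), (nat_lit 2)⟩, ⟨(nat_lit 0x50000000000000008), (nat_lit 0), (nat_lit 13), (nat_lit 2)⟩], [⟨(nat_lit 0x3c000000000000003d), (nat_lit 0), (nat_lit 121), (nat_lit 2)⟩], false⟩, []⟩
def f462 : Fc := ⟨false, st0, [], ⟨(nat_lit 128), [⟨(nat_lit 0x3c000000000000003d), (nat_lit 0), (nat_lit 121), (nat_lit 2)⟩, ⟨(nat_lit 0xf00000000000000220000000000000010), (nat_lit 0), (nat_lit 65), (nat_lit 4)⟩], [], false⟩, []⟩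
def f463 : Fc := ⟨false, st0, [], ⟨(nat_lit 31104), [⟨(nb (nat_lit 0x50000000000000001) (nat_lit 512) (nb (nat_lit 2) (nat_lit 64) (nat_lit 0))), (nat_lit 0), (nat_lit 8), (nat_lit 6)⟩], [⟨(nb (nat_lit 0x3c000000000000003d) (nat_lit 512) (nat_lit 0x1e0000000000000020)), (nat_lit 0), (nat_lit 183), (nat_lit 6)⟩], false⟩, []⟩
def f464 : Fc := ⟨false, st0, [], ⟨(nat_lit 128), [⟨(nat_lit 0x50000000000000001), (nat_lit 0), (nat_lit 6), (nat_lit 2)⟩], [⟨(nat_lit 0x30000000000000002), (nat_lit 0), (nat_lit 5), (nat_lit 2)⟩], false⟩, []⟩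
def f465 : Fc := ⟨false, st0, [], ⟨(nat_lit 128), [⟨(nat_lit 0x30000000000000002), (nat_lit 0), (nat_lit 5), (nat_lit 2)⟩, ⟨(nat_lit 0x50000000000000001), (nat_lit 0), (nat_lit 6), (nat_lit 2)⟩], [⟨(nat_lit 0x50000000000000008), (nat_lit 0), (nat_lit 13), (nat_lit 2)⟩], false⟩, []⟩
def f466 : Fc := ⟨false, st0, [], ⟨(nat_lit 128), [], [⟨(nat_lit 0xb000000000000000d), (nat_lit 0), (nat_lit 24), (nat_lit 2)⟩], false⟩, []⟩
def f467 : Fc := ⟨false, st0, [], ⟨(nat_lit 243), [], [⟨(nb (nat_lit 7) (nat_lit 512) (nat_lit 3)), (nat_lit 0), (nat_lit 10), (nat_lit 3)⟩], false⟩, []⟩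
def f468 : Fc := ⟨false, st0, [], ⟨(nat_lit 128), [⟨(nat_lit 0x30000000000000002), (nat_lit 0), (nat_lit 5), (nat_lit 2)⟩], [⟨(nat_lit 0x10000000000000000), (nat_lit 1), (nat_lit 2), (nat_lit 2)⟩], false⟩, []⟩
def f469 : Fc := ⟨false, st0, [], ⟨(nat_lit 128), [⟨(nat_lit 0x10000000000000000), (nat_lit 0), (nat_lit 1), (nat_lit 2)⟩, ⟨(nat_lit 0x30000000000000002), (nat_lit 0), (nat_lit 5), (nat_lit 2)⟩], [⟨(nat_lit 0x20000000000000000), (nat_lit 1), (nat_lit 3), (nat_lit 2)⟩], false⟩, []⟩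
def f470 : Fc := ⟨false, st0, [], ⟨(nat_lit 243), [⟨(nb (nat_lit 9) (nat_lit 512) (nat_lit 1)), (nat_lit 0), (nat_lit 10), (nat_lit 3)⟩], [⟨(nb (nat_lit 6) (nat_lit 512) (nat_lit 1)), (nat_lit 0), (nat_lit 7), (nat_lit 3)⟩], false⟩, []⟩
def f471 : Fc := ⟨false, st0, [], ⟨(nat_lit 243), [], [⟨(nb (nat_lit 9) (nat_lit 512) (nat_lit 1)), (nat_lit 0), (nat_lit 10), (nat_lit 3)⟩], false⟩, []⟩
def f472 : Fc := ⟨false, st0, [], ⟨(nat_lit 243), [⟨(nb (nat_lit 2) (nat_lit 512) (nat_lit 1)), (nat_lit 0), (nat_lit 3), (nat_lit 3)⟩], [], false⟩, []⟩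
def f473 : Fc := ⟨false, st0, [], ⟨(nat_lit 31104), [⟨(nb (nat_lit 2) (nat_lit 512) (nat_lit 1)), (nat_lit 0), (nat_lit 3), (nat_lit 3)⟩], [⟨(nat_lit 0x30000000000000002), (nat_lit 0), (nat_lit 5), (nat_lit 2)⟩], false⟩, []⟩
def f474 : Fc := ⟨false, st0, [], ⟨(nat_lit 243), [⟨(nb (nat_lit 2) (nat_lit 512) (nat_lit 1)), (nat_lit 0), (nat_lit 3), (nat_lit 3)⟩], [⟨(nb (nat_lit 3) (nat_lit 512) (nat_lit 4)), (nat_lit 0), (nat_lit 7), (nat_lit 3)⟩], false⟩, []⟩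
def f475 : Fc := ⟨false, st0, [], ⟨(nat_lit 31104), [⟨(nat_lit 0x20000000000000000), (nat_lit 1), (nat_lit 3), (nat_lit 2)⟩], [⟨(nb (nat_lit 18) (nat_lit 512) (nat_lit 0x30000000000000002)), (nat_lit 0), (nat_lit 23), (nat_lit 6)⟩], false⟩, []⟩
def f476 : Fc := ⟨false, st0, [], ⟨(nat_lit 243), [], [⟨(nb (nat_lit 36) (nat_lit 512) (nat_lit 7)), (nat_lit 0), (nat_lit 43), (nat_lit 3)⟩], false⟩, []⟩
def f477 : Fc := ⟨false, st0, [], ⟨(nat_lit 243), [⟨(nb (nat_lit 2) (nat_lit 512) (nat_lit 1)), (nat_lit 0), (nat_lit 3), (nat_lit 3)⟩], [⟨(nb (nat_lit 1) (nat_lit 512) (nat_lit 0)), (nat_lit 0), (nat_lit 1), (nat_lit 3)⟩], false⟩, []⟩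
def f478 : Fc := ⟨false, st0, [], ⟨(nat_lit 128), [⟨(nat_lit 0x20000000000000000), (nat_lit 1), (nat_lit 3), (nat_lit 2)⟩], [⟨(nat_lit 0x30000000000000000), (nat_lit 7), (nat_lit 10), (nat_lit 2)⟩], false⟩, []⟩
def f479 : Fc := ⟨false, st0, [], ⟨(nat_lit 128), [⟨(nat_lit 0x10000000000000000), (nat_lit 2), (nat_lit 3), (nat_lit 2)⟩], [⟨(nat_lit 0x30000000000000002), (nat_lit 0), (nat_lit 5), (nat_lit 2)⟩], false⟩, []⟩
def f480 : Fc := ⟨false, st0, [], ⟨(nat_lit 128), [⟨(nat_lit 0x10000000000000000), (nat_lit 2), (nat_lit 3), (nat_lit 2)⟩, ⟨(nat_lit 0x30000000000000002), (nat_lit 0), (nat_lit 5), (nat_lit 2)⟩], [], false⟩, []⟩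
def f481 : Fc := ⟨false, st0, [], ⟨(nat_lit 128), [⟨(nat_lit 0x10000000000000000), (nat_lit 2), (nat_lit 3), (nat_lit 2)⟩, ⟨(nat_lit 0x30000000000000002), (nat_lit 0), (nat_lit 5), (nat_lit 2)⟩], [⟨(nat_lit 0x10000000000000000), (nat_lit 4), (nat_lit 5), (nat_lit 2)⟩], false⟩, []⟩
def f482 : Fc := ⟨false, st0, [], ⟨(nat_lit 128), [⟨(nat_lit 0x10000000000000000), (nat_lit 2), (nat_lit 3), (nat_lit 2)⟩, ⟨(nat_lit 0x10000000000000000), (nat_lit 4), (nat_lit 5), (nat_lit 2)⟩, ⟨(nat_lit 0x30000000000000002), (nat_lit 0), (nat_lit 5), (nat_lit 2)⟩], [], false⟩, []⟩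
def f483 : Fc := ⟨false, st0, [], ⟨(nat_lit 31104), [⟨(nat_lit 0x10000000000000000), (nat_lit 2), (nat_lit 3), (nat_lit 2)⟩, ⟨(nat_lit 0x10000000000000000), (nat_lit 4), (nat_lit 5), (nat_lit 2)⟩], [⟨(nb (nat_lit 0x30000000000000002) (nat_lit 512) (nb (nat_lit 2) (nat_lit 64) (nat_lit 0))), (nat_lit 1), (nat_lit 8), (nat_lit 6)⟩], false⟩, []⟩
def f484 : Fc := ⟨false, st0, [], ⟨(nat_lit 243), [⟨(nb (nat_lit 9) (nat_lit 512) (nat_lit 1)), (nat_lit 0), (nat_lit 10), (nat_lit 3)⟩, ⟨(nb (nat_lit 9) (nat_lit 512) (nat_lit 5)), (nat_lit 0), (nat_lit 14), (nat_lit 3)⟩], [⟨(nb (nat_lit 6) (nat_lit 512) (nat_lit 1)), (nat_lit 0), (nat_lit 7), (nat_lit 3)⟩], false⟩, []⟩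
def f485 : Fc := ⟨false, st0, [], ⟨(nat_lit 243), [⟨(nb (nat_lit 9) (nat_lit 512) (nat_lit 5)), (nat_lit 0), (nat_lit 14), (nat_lit 3)⟩], [⟨(nb (nat_lit 9) (nat_lit 512) (nat_lit 1)), (nat_lit 0), (nat_lit 10), (nat_lit 3)⟩], false⟩, []⟩
def f486 : Fc := ⟨false, st0, [], ⟨(nat_lit 128), [], [⟨(nat_lit 0x90000000000000001), (nat_lit 0), (nat_lit 10), (nat_lit 2)⟩], false⟩, []⟩
def f487 : Fc := ⟨false, st0, [], ⟨(nat_lit 128), [⟨(nat_lit 0x60000000000000001), (nat_lit 0), (nat_lit 7), (nat_lit 2)⟩], [⟨(nat_lit 0x90000000000000001), (nat_lit 0), (nat_lit 10), (nat_lit 2)⟩], false⟩, []⟩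
def f488 : Fc := ⟨false, st0, [], ⟨(nat_lit 125), [], [⟨(nb (nat_lit 2) (nat_lit 3072) (nat_lit 1)), (nat_lit 0), (nat_lit 3), (nat_lit 5)⟩], false⟩, []⟩
def f489 : Fc := ⟨false, st0, [], ⟨(nat_lit 125), [⟨(nb (nat_lit 2) (nat_lit 3072) (nat_lit 1)), (nat_lit 0), (nat_lit 3), (nat_lit 5)⟩], [], false⟩, []⟩
def f490 : Fc := ⟨false, st0, [], ⟨(nat_lit 16000), [⟨(nb (nat_lit 2) (nat_lit 3072) (nat_lit 1)), (nat_lit 0), (nat_lit 3), (nat_lit 5)⟩], [⟨(nat_lit 0x30000000000000002), (nat_lit 0), (nat_lit 5), (nat_lit 2)⟩], false⟩, []⟩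
def f491 : Fc := ⟨false, st0, [], ⟨(nat_lit 31104), [⟨(nat_lit 0x20000000000000001), (nat_lit 0), (nat_lit 3), (nat_lit 2)⟩], [⟨(nb (nat_lit 14) (nat_lit 512) (nat_lit 3)), (nat_lit 0), (nat_lit 17), (nat_lit 3)⟩], false⟩, []⟩
def f492 : Fc := ⟨false, st0, [], ⟨(nat_lit 128), [], [⟨(nat_lit 0x40000000000000000), (nat_lit 9), (nat_lit 13), (nat_lit 2)⟩], false⟩, []⟩
def f493 : Fc := ⟨false, st0, [], ⟨(nat_lit 243), [], [⟨(nb (nat_lit 4) (nat_lit 512) (nat_lit 0)), (nat_lit 9), (nat_lit 13), (nat_lit 3)⟩], false⟩, []⟩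
def f494 : Fc := ⟨false, st0, [], ⟨(nat_lit 128), [⟨(nat_lit 0x10000000000000000), (nat_lit 0), (nat_lit 1), (nat_lit 2)⟩], [⟨(nat_lit 0x90000000000000000), (nat_lit 4), (nat_lit 13), (nat_lit 2)⟩], false⟩, []⟩
def f495 : Fc := ⟨false, st0, [], ⟨(nat_lit 31104), [], [⟨(nb (nat_lit 1) (nat_lit 512) (nb (nat_lit 3) (nat_lit 64) (nat_lit 0))), (nat_lit 8), (nat_lit 12), (nat_lit 6)⟩], false⟩, []⟩
def f496 : Fc := ⟨false, st0, [], ⟨(nat_lit 128), [⟨(nat_lit 0x10000000000000000), (nat_lit 0), (nat_lit 1), (nat_lit 2)⟩], [⟨(nat_lit 0x30000000000000000), (nat_lit 2), (nat_lit 5), (nat_lit 2)⟩], false⟩, []⟩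
def f497 : Fc := ⟨false, st0, [], ⟨(nat_lit 128), [⟨(nat_lit 0x30000000000000001), (nat_lit 0), (nat_lit 4), (nat_lit 2)⟩], [], false⟩, []⟩
def f498 : Fc := ⟨false, st0, [], ⟨(nat_lit 31104), [], [⟨(nb (nat_lit 0x30000000000000001) (nat_lit 512) (nat_lit 0)), (nat_lit 8), (nat_lit 12), (nat_lit 6)⟩], false⟩, []⟩
def f499 : Fc := ⟨false, st0, [], ⟨(nat_lit 128), [⟨(nat_lit 0x30000000000000001), (nat_lit 0), (nat_lit 4), (nat_lit 2)⟩], [⟨(nat_lit 0x30000000000000000), (nat_lit 1), (nat_lit 4), (nat_lit 2)⟩], false⟩, []⟩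
def f500 : Fc := ⟨false, st0, [], ⟨(nat_lit 128), [⟨(nat_lit 0x30000000000000001), (nat_lit 0), (nat_lit 4), (nat_lit 2)⟩], [⟨(nat_lit 0x10000000000000003), (nat_lit 0), (nat_lit 4), (nat_lit 2)⟩], false⟩, []⟩
def f501 : Fc := ⟨false, st0, [], ⟨(nat_lit 128), [⟨(nat_lit 0x10000000000000000), (nat_lit 0), (nat_lit 1), (nat_lit 2)⟩, ⟨(nat_lit 0x90000000000000000), (nat_lit 4), (nat_lit 13), (nat_lit 2)⟩], [], false⟩, []⟩
def f502 : Fc := ⟨false, st0, [], ⟨(nat_lit 31104), [⟨(nat_lit 0x90000000000000000), (nat_lit 4), (nat_lit 13), (nat_lit 2)⟩], [⟨(nb (nat_lit 1) (nat_lit 576) (nat_lit 0)), (nat_lit 1), (nat_lit 2), (nat_lit 6)⟩], false⟩, []⟩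
def f503 : Fc := ⟨false, st0, [], ⟨(nat_lit 31104), [], [⟨(nb (nat_lit 2) (nat_lit 512) (nb (nat_lit 4) (nat_lit 64) (nat_lit 0))), (nat_lit 1), (nat_lit 7), (nat_lit 6)⟩], false⟩, []⟩
def f504 : Fc := ⟨false, st0, [], ⟨(nat_lit 31104), [], [⟨(nb (nat_lit 1) (nat_lit 512) (nb (nat_lit 9) (nat_lit 64) (nat_lit 0))), (nat_lit 4), (nat_lit 14), (nat_lit 6)⟩], false⟩, []⟩
def f505 : Fc := ⟨false, st0, [], ⟨(nat_lit 31104), [], [⟨(nb (nat_lit 0x10000000000000002) (nat_lit 512) (nat_lit 6)), (nat_lit 0), (nat_lit 9), (nat_lit 6)⟩], false⟩, []⟩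
def f506 : Fc := ⟨false, st0, [], ⟨(nat_lit 31104), [], [⟨(nb (nat_lit 0x10000000000000002) (nat_lit 512) (nat_lit 0)), (nat_lit 1), (nat_lit 4), (nat_lit 6)⟩], false⟩, []⟩
def f507 : Fc := ⟨false, st0, [], ⟨(nat_lit 128), [⟨(nat_lit 0x10000000000000000), (nat_lit 0), (nat_lit 1), (nat_lit 2)⟩], [⟨(nat_lit 0x30000000000000004), (nat_lit 0), (nat_lit 7), (nat_lit 2)⟩], false⟩, []⟩
def f508 : Fc := ⟨false, st0, [], ⟨(nat_lit 31104), [], [⟨(nat_lit 0x60000000000000001), (nb (nat_lit 8) (nat_lit 512) (nat_lit 0)), (nat_lit 15), (nat_lit 6)⟩], false⟩, []⟩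
def f509 : Fc := ⟨false, st0, [], ⟨(nat_lit 0x3b5380), [], [⟨(nb (nat_lit 6) (nat_lit 3584) (nb (nat_lit 2) (nat_lit 3072) (nat_lit 0x60000000000000001))), (nat_lit 0), (nat_lit 15), (nat_lit 30)⟩], false⟩, []⟩
def f510 : Fc := ⟨false, st0, [], ⟨(nat_lit 0x3b5380), [], [⟨(nb (nat_lit 1) (nat_lit 3584) (nb (nat_lit 1) (nat_lit 64) (nat_lit 0))), (nb (nat_lit 2) (nat_lit 3072) (nat_lit 1)), (nat_lit 5), (nat_lit 30)⟩], false⟩, []⟩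
def f511 : Fc := ⟨false, st0, [], ⟨(nat_lit 31104), [], [⟨(nb (nat_lit 6) (nat_lit 512) (nat_lit 0x10000000000000002)), (nat_lit 0), (nat_lit 9), (nat_lit 6)⟩], false⟩, []⟩
def f512 : Fc := ⟨false, st0, [], ⟨(nat_lit 243), [], [⟨(nb (nat_lit 4) (nat_lit 512) (nat_lit 3)), (nat_lit 0), (nat_lit 7), (nat_lit 3)⟩], false⟩, []⟩
def f513 : Fc := ⟨false, st0, [], ⟨(nat_lit 31104), [], [⟨(nat_lit 0x10000000000000002), (nb (nat_lit 1) (nat_lit 512) (nat_lit 0)), (nat_lit 4), (nat_lit 6)⟩], false⟩, []⟩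
def f514 : Fc := ⟨false, st0, [], ⟨(nat_lit 31104), [⟨(nb (nat_lit 1) (nat_lit 512) (nat_lit 0)), (nat_lit 0), (nat_lit 1), (nat_lit 3)⟩], [⟨(nb (nat_lit 3) (nat_lit 512) (nb (nat_lit 4) (nat_lit 64) (nat_lit 0))), (nat_lit 6), (nat_lit 13), (nat_lit 6)⟩], false⟩, []⟩
def f515 : Fc := ⟨false, st0, [], ⟨(nat_lit 0x3b5380), [], [⟨(nb (nat_lit 6) (nat_lit 512) (nat_lit 0x10000000000000002)), (nb (nat_lit 8) (nat_lit 3072) (nat_lit 0)), (nat_lit 17), (nat_lit 30)⟩], false⟩, []⟩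
def f516 : Fc := ⟨false, st0, [], ⟨(nat_lit 31104), [], [⟨(nb (nat_lit 6) (nat_lit 512) (nb (nat_lit 4) (nat_lit 64) (nat_lit 0))), (nat_lit 3), (nat_lit 13), (nat_lit 6)⟩], false⟩, []⟩
def f517 : Fc := ⟨false, st0, [], ⟨(nat_lit 31104), [], [⟨(nb (nat_lit 1) (nat_lit 576) (nat_lit 8)), (nb (nat_lit 1) (nat_lit 512) (nat_lit 0)), (nat_lit 10), (nat_lit 6)⟩], false⟩, []⟩
def f518 : Fc := ⟨false, st0, [], ⟨(nat_lit 31104), [], [⟨(nb (nat_lit 3) (nat_lit 512) (nb (nat_lit 4) (nat_lit 64) (nat_lit 0))), (nat_lit 3), (nat_lit 10), (nat_lit 6)⟩], false⟩, []⟩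
def f519 : Fc := ⟨false, st0, [], ⟨(nat_lit 31104), [⟨(nat_lit 0x10000000000000002), (nb (nat_lit 1) (nat_lit 512) (nat_lit 0)), (nat_lit 4), (nat_lit 6)⟩], [], false⟩, []⟩
def f520 : Fc := ⟨false, st0, [], ⟨(nat_lit 0x3b5380), [], [⟨(nb (nat_lit 0x10000000000000002) (nat_lit 3072) (nat_lit 0)), (nb (nat_lit 1) (nat_lit 3584) (nat_lit 8)), (nat_lit 12), (nat_lit 30)⟩], false⟩, []⟩
def f521 : Fc := ⟨false, st0, [], ⟨(nat_lit 31104), [], [⟨(nat_lit 0x10000000000000003), (nb (nat_lit 1) (nat_lit 512) (nat_lit 0)), (nat_lit 5), (nat_lit 6)⟩], false⟩, []⟩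
def f522 : Fc := ⟨false, st0, [], ⟨(nat_lit 31104), [], [⟨(nb (nat_lit 3) (nat_lit 512) (nb (nat_lit 4) (nat_lit 64) (nat_lit 0))), (nat_lit 12), (nat_lit 19), (nat_lit 6)⟩], false⟩, []⟩
def f523 : Fc := ⟨false, st0, [], ⟨(nat_lit 31104), [], [⟨(nb (nat_lit 6) (nat_lit 512) (nb (nat_lit 1) (nat_lit 64) (nat_lit 0))), (nat_lit 4), (nat_lit 11), (nat_lit 6)⟩], false⟩, []⟩
def f524 : Fc := ⟨false, st0, [], ⟨(nat_lit 243), [], [⟨(nb (nat_lit 3) (nat_lit 512) (nat_lit 0)), (nat_lit 2), (nat_lit 5), (nat_lit 3)⟩], false⟩, []⟩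
def f525 : Fc := ⟨false, st0, [], ⟨(nat_lit 16000), [], [⟨(nat_lit 0x10000000000000003), (nb (nat_lit 1) (nat_lit 3072) (nat_lit 0)), (nat_lit 5), (nat_lit 10)⟩], false⟩, []⟩
def f526 : Fc := ⟨false, st0, [], ⟨(nat_lit 0x3b5380), [], [⟨(nb (nat_lit 1) (nat_lit 512) (nat_lit 0)), (nat_lit 0), (nat_lit 1), (nat_lit 3)⟩, ⟨(nb (nat_lit 3) (nat_lit 3584) (nb (nat_lit 4) (nat_lit 576) (nat_lit 9))), (nb (nat_lit 12) (nat_lit 512) (nb (nat_lit 4) (nat_lit 64) (nat_lit 0))), (nat_lit 32), (nat_lit 30)⟩], false⟩, []⟩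
def f527 : Fc := ⟨false, st0, [], ⟨(nat_lit 243), [⟨(nb (nat_lit 3) (nat_lit 512) (nat_lit 0)), (nat_lit 0), (nat_lit 3), (nat_lit 3)⟩], [], false⟩, []⟩
def f528 : Fc := ⟨false, st0, [], ⟨(nat_lit 0x3b5380), [⟨(nb (nat_lit 1) (nat_lit 512) (nat_lit 0)), (nat_lit 0), (nat_lit 1), (nat_lit 3)⟩], [⟨(nb (nat_lit 3) (nat_lit 3584) (nb (nat_lit 4) (nat_lit 576) (nat_lit 9))), (nb (nat_lit 12) (nat_lit 512) (nb (nat_lit 4) (nat_lit 64) (nat_lit 0))), (nat_lit 32), (nat_lit 30)⟩], false⟩, []⟩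
def f529 : Fc := ⟨false, st0, [], ⟨(nat_lit 0x3b5380), [], [⟨(nb (nat_lit 3) (nat_lit 3584) (nb (nat_lit 4) (nat_lit 576) (nat_lit 9))), (nb (nat_lit 12) (nat_lit 512) (nb (nat_lit 4) (nat_lit 64) (nat_lit 0))), (nat_lit 32), (nat_lit 30)⟩], false⟩, []⟩
def f530 : Fc := ⟨false, st0, [], ⟨(nat_lit 31104), [], [⟨(nat_lit 0x30000000000000000), (nb (nat_lit 1) (nat_lit 512) (nat_lit 1)), (nat_lit 5), (nat_lit 6)⟩], false⟩, []⟩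
def f531 : Fc := ⟨false, st0, [], ⟨(nat_lit 128), [], [⟨(nat_lit 0x60000000000000000), (nat_lit 7), (nat_lit 13), (nat_lit 2)⟩], false⟩, []⟩
def f532 : Fc := ⟨false, st0, [], ⟨(nat_lit 128), [⟨(nat_lit 0x10000000000000003), (nat_lit 0), (nat_lit 4), (nat_lit 2)⟩], [], false⟩, []⟩
def f533 : Fc := ⟨false, st0, [], ⟨(nat_lit 31104), [], [⟨(nb (nat_lit 0x10000000000000003) (nat_lit 512) (nat_lit 0)), (nat_lit 1), (nat_lit 5), (nat_lit 6)⟩], false⟩, []⟩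
def f534 : Fc := ⟨false, st0, [], ⟨(nat_lit 128), [⟨(nat_lit 0x10000000000000003), (nat_lit 0), (nat_lit 4), (nat_lit 2)⟩], [⟨(nat_lit 0x10000000000000000), (nat_lit 1), (nat_lit 2), (nat_lit 2)⟩], false⟩, []⟩
def f535 : Fc := ⟨false, st0, [], ⟨(nat_lit 128), [⟨(nat_lit 0x10000000000000003), (nat_lit 0), (nat_lit 4), (nat_lit 2)⟩], [⟨(nat_lit 0x20000000000000003), (nat_lit 0), (nat_lit 5), (nat_lit 2)⟩], false⟩, []⟩
def f536 : Fc := ⟨false, st0, [], ⟨(nat_lit 31104), [], [⟨(nb (nat_lit 1) (nat_lit 576) (nat_lit 6)), (nb (nat_lit 4) (nat_lit 512) (nat_lit 0)), (nat_lit 11), (nat_lit 6)⟩], false⟩, []⟩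
def f537 : Fc := ⟨false, st0, [], ⟨(nat_lit 128), [⟨(nat_lit 0x10000000000000000), (nat_lit 4), (nat_lit 5), (nat_lit 2)⟩], [⟨(nat_lit 0x10000000000000000), (nat_lit 0), (nat_lit 1), (nat_lit 2)⟩], false⟩, []⟩
def f538 : Fc := ⟨false, st0, [], ⟨(nat_lit 128), [⟨(nat_lit 0x10000000000000000), (nat_lit 4), (nat_lit 5), (nat_lit 2)⟩], [⟨(nat_lit 0x20000000000000000), (nat_lit 5), (nat_lit 7), (nat_lit 2)⟩], false⟩, []⟩
def f539 : Fc := ⟨false, st0, [], ⟨(nat_lit 128), [⟨(nat_lit 0x20000000000000000), (nat_lit 3), (nat_lit 5), (nat_lit 2)⟩], [⟨(nat_lit 0x40000000000000000), (nat_lit 9), (nat_lit 13), (nat_lit 2)⟩], false⟩, []⟩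
def f540 : Fc := ⟨false, st0, [], ⟨(nat_lit 128), [⟨(nat_lit 0x20000000000000000), (nat_lit 3), (nat_lit 5), (nat_lit 2)⟩, ⟨(nat_lit 0x40000000000000000), (nat_lit 9), (nat_lit 13), (nat_lit 2)⟩], [], false⟩, []⟩
def f541 : Fc := ⟨false, st0, [], ⟨(nat_lit 31104), [⟨(nb (nat_lit 1) (nat_lit 512) (nat_lit 0)), (nat_lit 1), (nat_lit 2), (nat_lit 3)⟩], [⟨(nb (nat_lit 4) (nat_lit 576) (nat_lit 3)), (nb (nat_lit 9) (nat_lit 512) (nat_lit 0)), (nat_lit 16), (nat_lit 6)⟩], false⟩, []⟩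
def f542 : Fc := ⟨false, st0, [], ⟨(nat_lit 128), [⟨(nat_lit 0x10000000000000000), (nat_lit 2), (nat_lit 3), (nat_lit 2)⟩, ⟨(nat_lit 0x20000000000000000), (nat_lit 3), (nat_lit 5), (nat_lit 2)⟩, ⟨(nat_lit 0x40000000000000000), (nat_lit 9), (nat_lit 13), (nat_lit 2)⟩], [⟨(nat_lit 0x80000000000000000), (nat_lit 9), (nat_lit 17), (nat_lit 2)⟩], false⟩, []⟩
def f543 : Fc := ⟨false, st0, [], ⟨(nat_lit 128), [⟨(nat_lit 0x20000000000000000), (nat_lit 3), (nat_lit 5), (nat_lit 2)⟩, ⟨(nat_lit 0x40000000000000000), (nat_lit 9), (nat_lit 13), (nat_lit 2)⟩], [⟨(nat_lit 0x10000000000000000), (nat_lit 2), (nat_lit 3), (nat_lit 2)⟩], false⟩, []⟩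
def f544 : Fc := ⟨false, st0, [], ⟨(nat_lit 128), [⟨(nat_lit 0x10000000000000000), (nat_lit 0), (nat_lit 1), (nat_lit 2)⟩, ⟨(nat_lit 0x20000000000000000), (nat_lit 3), (nat_lit 5), (nat_lit 2)⟩, ⟨(nat_lit 0x40000000000000000), (nat_lit 9), (nat_lit 13), (nat_lit 2)⟩], [⟨(nat_lit 0x40000000000000000), (nat_lit 7), (nat_lit 11), (nat_lit 2)⟩], false⟩, []⟩
def f545 : Fc := ⟨false, st0, [], ⟨(nat_lit 128), [⟨(nat_lit 0x20000000000000000), (nat_lit 3), (nat_lit 5), (nat_lit 2)⟩, ⟨(nat_lit 0x40000000000000000), (nat_lit 9), (nat_lit 13), (nat_lit 2)⟩], [⟨(nat_lit 0x10000000000000000), (nat_lit 0), (nat_lit 1), (nat_lit 2)⟩], false⟩, []⟩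
def f546 : Fc := ⟨false, st0, [], ⟨(nat_lit 128), [⟨(nat_lit 0x10000000000000000), (nat_lit 4), (nat_lit 5), (nat_lit 2)⟩], [⟨(nat_lit 0x10000000000000002), (nat_lit 0), (nat_lit 3), (nat_lit 2)⟩], false⟩, []⟩
def f547 : Fc := ⟨false, st0, [], ⟨(nat_lit 128), [⟨(nat_lit 0x10000000000000000), (nat_lit 2), (nat_lit 3), (nat_lit 2)⟩, ⟨(nat_lit 0x10000000000000000), (nat_lit 4), (nat_lit 5), (nat_lit 2)⟩], [⟨(nat_lit 0x10000000000000002), (nat_lit 0), (nat_lit 3), (nat_lit 2)⟩], false⟩, []⟩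
def f548 : Fc := ⟨false, st0, [], ⟨(nat_lit 31104), [], [⟨(nb (nat_lit 1) (nat_lit 512) (nat_lit 0x40000000000000002)), (nat_lit 0), (nat_lit 7), (nat_lit 6)⟩], false⟩, []⟩
def f549 : Fc := ⟨false, st0, [], ⟨(nat_lit 128), [], [⟨(nat_lit 0x50000000000000004), (nat_lit 0), (nat_lit 9), (nat_lit 2)⟩], false⟩, []⟩
def f550 : Fc := ⟨false, st0, [], ⟨(nat_lit 243), [], [⟨(nb (nat_lit 7) (nat_lit 512) (nat_lit 0)), (nat_lit 12), (nat_lit 19), (nat_lit 3)⟩], false⟩, []⟩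
def f551 : Fc := ⟨false, st0, [], ⟨(nat_lit 243), [], [⟨(nb (nat_lit 7) (nat_lit 512) (nat_lit 0)), (nat_lit 6), (nat_lit 13), (nat_lit 3)⟩], false⟩, []⟩
def f552 : Fc := ⟨false, st0, [], ⟨(nat_lit 243), [⟨(nb (nat_lit 7) (nat_lit 512) (nat_lit 0)), (nat_lit 6), (nat_lit 13), (nat_lit 3)⟩], [], false⟩, []⟩
def f553 : Fc := ⟨false, st0, [], ⟨(nat_lit 31104), [], [⟨(nb (nat_lit 0x7000000000000001c) (nat_lit 512) (nat_lit 0)), (nb (nat_lit 14) (nat_lit 1024) (nat_lit 0x6000000000000000c)), (nat_lit 67), (nat_lit 18)⟩], false⟩, []⟩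
def f554 : Fc := ⟨false, st0, [], ⟨(nat_lit 31104), [], [⟨(nb (nat_lit 1) (nat_lit 576) (nat_lit 0)), (nb (nat_lit 4) (nat_lit 512) (nat_lit 8)), (nat_lit 13), (nat_lit 6)⟩], false⟩, []⟩
def f555 : Fc := ⟨false, st0, [], ⟨(nat_lit 128), [⟨(nat_lit 0x10000000000000000), (nat_lit 4), (nat_lit 5), (nat_lit 2)⟩], [⟨(nat_lit 0x30000000000000000), (nat_lit 10), (nat_lit 13), (nat_lit 2)⟩], false⟩, []⟩
def f556 : Fc := ⟨false, st0, [], ⟨(nat_lit 128), [⟨(nat_lit 0x40000000000000000), (nat_lit 9), (nat_lit 13), (nat_lit 2)⟩], [], false⟩, []⟩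
def f557 : Fc := ⟨false, st0, [], ⟨(nat_lit 31104), [], [⟨(nb (nat_lit 4) (nat_lit 576) (nb (nat_lit 4) (nat_lit 64) (nat_lit 0))), (nb (nat_lit 9) (nat_lit 512) (nat_lit 6)), (nat_lit 23), (nat_lit 6)⟩], false⟩, []⟩
def f558 : Fc := ⟨false, st0, [], ⟨(nat_lit 128), [], [⟨(nat_lit 0x70000000000000008), (nat_lit 0), (nat_lit 15), (nat_lit 2)⟩], false⟩, []⟩
def f559 : Fc := ⟨false, st0, [], ⟨(nat_lit 31104), [], [⟨(nb (nat_lit 4) (nat_lit 576) (nat_lit 6)), (nb (nat_lit 9) (nat_lit 512) (nat_lit 0)), (nat_lit 19), (nat_lit 6)⟩], false⟩, []⟩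
def f560 : Fc := ⟨false, st0, [], ⟨(nat_lit 0x3b5380), [], [⟨(nb (nat_lit 6) (nat_lit 3072) (nb (nat_lit 1) (nat_lit 576) (nat_lit 0))), (nb (nat_lit 4) (nat_lit 512) (nat_lit 8)), (nat_lit 19), (nat_lit 30)⟩], false⟩, []⟩
def f561 : Fc := ⟨false, st0, [], ⟨(nat_lit 128), [⟨(nat_lit 0x40000000000000000), (nat_lit 9), (nat_lit 13), (nat_lit 2)⟩], [⟨(nat_lit 0xa0000000000000000), (nat_lit 9), (nat_lit 19), (nat_lit 2)⟩], false⟩, []⟩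
def f562 : Fc := ⟨false, st0, [], ⟨(nat_lit 128), [⟨(nat_lit 0x40000000000000000), (nat_lit 9), (nat_lit 13), (nat_lit 2)⟩], [⟨(nat_lit 0x10000000000000000), (nat_lit 0), (nat_lit 1), (nat_lit 2)⟩], false⟩, []⟩
def f563 : Fc := ⟨false, st0, [], ⟨(nat_lit 125), [], [⟨(nb (nat_lit 3) (nat_lit 3072) (nat_lit 0)), (nat_lit 4), (nat_lit 7), (nat_lit 5)⟩], false⟩, []⟩
def f564 : Fc := ⟨false, st0, [], ⟨(nat_lit 0x3b5380), [], [⟨(nb (nat_lit 1) (nat_lit 512) (nat_lit 0)), (nat_lit 0), (nat_lit 1), (nat_lit 3)⟩, ⟨(nb (nat_lit 1) (nat_lit 3648) (nb (nat_lit 6) (nat_lit 3072) (nat_lit 0))), (nb (nat_lit 4) (nat_lit 3584) (nat_lit 8)), (nat_lit 19), (nat_lit 30)⟩], false⟩, []⟩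
def f565 : Fc := ⟨false, st0, [], ⟨(nat_lit 31104), [⟨(nb (nat_lit 1) (nat_lit 512) (nat_lit 0)), (nat_lit 0), (nat_lit 1), (nat_lit 3)⟩], [⟨(nb (nat_lit 1) (nat_lit 576) (nat_lit 6)), (nb (nat_lit 4) (nat_lit 512) (nat_lit 0)), (nat_lit 11), (nat_lit 6)⟩], false⟩, []⟩
def f566 : Fc := ⟨false, st0, [], ⟨(nat_lit 31104), [⟨(nb (nat_lit 1) (nat_lit 512) (nat_lit 0)), (nat_lit 0), (nat_lit 1), (nat_lit 3)⟩, ⟨(nb (nat_lit 1) (nat_lit 576) (nat_lit 6)), (nb (nat_lit 4) (nat_lit 512) (nat_lit 0)), (nat_lit 11), (nat_lit 6)⟩], [], false⟩, []⟩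
def f567 : Fc := ⟨false, st0, [], ⟨(nat_lit 0x3b5380), [⟨(nb (nat_lit 1) (nat_lit 512) (nat_lit 0)), (nat_lit 0), (nat_lit 1), (nat_lit 3)⟩], [⟨(nb (nat_lit 1) (nat_lit 3648) (nb (nat_lit 6) (nat_lit 3072) (nat_lit 0))), (nb (nat_lit 4) (nat_lit 3584) (nat_lit 8)), (nat_lit 19), (nat_lit 30)⟩], false⟩, []⟩
def f568 : Fc := ⟨false, st0, [], ⟨(nat_lit 0x3b5380), [], [⟨(nb (nat_lit 1) (nat_lit 3648) (nb (nat_lit 6) (nat_lit 3072) (nat_lit 0))), (nb (nat_lit 4) (nat_lit 3584) (nat_lit 8)), (nat_lit 19), (nat_lit 30)⟩], false⟩, []⟩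
def f569 : Fc := ⟨false, st0, [], ⟨(nat_lit 243), [⟨(nb (nat_lit 1) (nat_lit 512) (nat_lit 0)), (nat_lit 0), (nat_lit 1), (nat_lit 3)⟩], [⟨(nb (nat_lit 2) (nat_lit 512) (nat_lit 0)), (nat_lit 3), (nat_lit 5), (nat_lit 3)⟩], false⟩, []⟩
def f570 : Fc := ⟨false, st0, [], ⟨(nat_lit 243), [⟨(nb (nat_lit 1) (nat_lit 512) (nat_lit 0)), (nat_lit 0), (nat_lit 1), (nat_lit 3)⟩, ⟨(nb (nat_lit 2) (nat_lit 512) (nat_lit 0)), (nat_lit 3), (nat_lit 5), (nat_lit 3)⟩], [], false⟩, []⟩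
def f571 : Fc := ⟨false, st0, [], ⟨(nat_lit 31104), [⟨(nb (nat_lit 1) (nat_lit 512) (nat_lit 0)), (nat_lit 0), (nat_lit 1), (nat_lit 3)⟩, ⟨(nb (nat_lit 1) (nat_lit 576) (nat_lit 6)), (nb (nat_lit 4) (nat_lit 512) (nat_lit 0)), (nat_lit 11), (nat_lit 6)⟩], [⟨(nat_lit 0x10000000000000000), (nat_lit 0), (nat_lit 1), (nat_lit 2)⟩], false⟩, []⟩
def f572 : Fc := ⟨false, st0, [], ⟨(nat_lit 128), [⟨(nat_lit 0x20000000000000000), (nat_lit 5), (nat_lit 7), (nat_lit 2)⟩], [], false⟩, []⟩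
def f573 : Fc := ⟨false, st0, [], ⟨(nat_lit 128), [⟨(nat_lit 0x20000000000000000), (nat_lit 5), (nat_lit 7), (nat_lit 2)⟩], [⟨(nat_lit 0x30000000000000000), (nat_lit 10), (nat_lit 13), (nat_lit 2)⟩], false⟩, []⟩
def f574 : Fc := ⟨false, st0, [], ⟨(nat_lit 128), [⟨(nat_lit 0x20000000000000000), (nat_lit 5), (nat_lit 7), (nat_lit 2)⟩, ⟨(nat_lit 0x30000000000000000), (nat_lit 10), (nat_lit 13), (nat_lit 2)⟩], [], false⟩, []⟩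
def f575 : Fc := ⟨false, st0, [], ⟨(nat_lit 31104), [⟨(nb (nat_lit 1) (nat_lit 512) (nat_lit 0)), (nat_lit 0), (nat_lit 1), (nat_lit 3)⟩, ⟨(nb (nat_lit 1) (nat_lit 576) (nat_lit 6)), (nb (nat_lit 4) (nat_lit 512) (nat_lit 0)), (nat_lit 11), (nat_lit 6)⟩], [⟨(nb (nat_lit 3) (nat_lit 576) (nat_lit 10)), (nb (nat_lit 10) (nat_lit 512) (nat_lit 0)), (nat_lit 23), (nat_lit 6)⟩], false⟩, []⟩
def f576 : Fc := ⟨false, st0, [], ⟨(nat_lit 128), [⟨(nat_lit 0x10000000000000000), (nat_lit 4), (nat_lit 5), (nat_lit 2)⟩], [⟨(nat_lit 0x10000000000000000), (nat_lit 3), (nat_lit 4), (nat_lit 2)⟩], false⟩, []⟩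
def f577 : Fc := ⟨false, st0, [], ⟨(nat_lit 243), [⟨(nb (nat_lit 1) (nat_lit 512) (nat_lit 0)), (nat_lit 0), (nat_lit 1), (nat_lit 3)⟩], [⟨(nb (nat_lit 1) (nat_lit 512) (nat_lit 0)), (nat_lit 0), (nat_lit 1), (nat_lit 3)⟩], false⟩, []⟩
def f578 : Fc := ⟨false, st0, [], ⟨(nat_lit 0x3b5380), [⟨(nb (nat_lit 1) (nat_lit 512) (nat_lit 0)), (nat_lit 0), (nat_lit 1), (nat_lit 3)⟩], [⟨(nb (nat_lit 1) (nat_lit 3584) (nat_lit 1)), (nb (nat_lit 1) (nat_lit 3072) (nat_lit 0)), (nat_lit 3), (nat_lit 15)⟩, ⟨(nb (nat_lit 4) (nat_lit 4160) (nb (nat_lit 12) (nat_lit 3584) (nb (nat_lit 4) (nat_lit 576) (nat_lit 3)))), (nb (nat_lit 9) (nat_lit 4096) (nb (nat_lit 4) (nat_lit 3648) (nb (nat_lit 3) (nat_lit 3072) (nb (nat_lit 6) (nat_lit 512) (nat_lit 0))))), (nat_lit 45), (nat_lit 90)⟩], false⟩, []⟩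
def f579 : Fc := ⟨false, st0, [], ⟨(nat_lit 243), [⟨(nb (nat_lit 1) (nat_lit 512) (nat_lit 0)), (nat_lit 0), (nat_lit 1), (nat_lit 3)⟩], [⟨(nb (nat_lit 1) (nat_lit 512) (nat_lit 0)), (nat_lit 1), (nat_lit 2), (nat_lit 3)⟩], false⟩, []⟩
def f580 : Fc := ⟨false, st0, [], ⟨(nat_lit 243), [⟨(nb (nat_lit 1) (nat_lit 512) (nat_lit 0)), (nat_lit 0), (nat_lit 1), (nat_lit 3)⟩, ⟨(nb (nat_lit 1) (nat_lit 512) (nat_lit 0)), (nat_lit 1), (nat_lit 2), (nat_lit 3)⟩], [], false⟩, []⟩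
def f581 : Fc := ⟨false, st0, [], ⟨(nat_lit 30375), [⟨(nb (nat_lit 1) (nat_lit 512) (nat_lit 0)), (nat_lit 0), (nat_lit 1), (nat_lit 3)⟩], [⟨(nb (nat_lit 1) (nat_lit 3584) (nat_lit 1)), (nb (nat_lit 1) (nat_lit 3072) (nat_lit 0)), (nat_lit 3), (nat_lit 15)⟩], false⟩, []⟩
def f582 : Fc := ⟨false, st0, [], ⟨(nat_lit 30375), [⟨(nb (nat_lit 1) (nat_lit 512) (nat_lit 0)), (nat_lit 0), (nat_lit 1), (nat_lit 3)⟩, ⟨(nb (nat_lit 1) (nat_lit 3584) (nat_lit 1)), (nb (nat_lit 1) (nat_lit 3072) (nat_lit 0)), (nat_lit 3), (nat_lit 15)⟩], [], false⟩, []⟩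
def f583 : Fc := ⟨false, st0, [], ⟨(nat_lit 0x3b5380), [⟨(nb (nat_lit 1) (nat_lit 512) (nat_lit 0)), (nat_lit 0), (nat_lit 1), (nat_lit 3)⟩, ⟨(nb (nat_lit 1) (nat_lit 3584) (nat_lit 1)), (nb (nat_lit 1) (nat_lit 3072) (nat_lit 0)), (nat_lit 3), (nat_lit 15)⟩], [⟨(nb (nat_lit 4) (nat_lit 4160) (nb (nat_lit 12) (nat_lit 3584) (nb (nat_lit 4) (nat_lit 576) (nat_lit 3)))), (nb (nat_lit 9) (nat_lit 4096) (nb (nat_lit 4) (nat_lit 3648) (nb (nat_lit 3) (nat_lit 3072) (nb (nat_lit 6) (nat_lit 512) (nat_lit 0))))), (nat_lit 45), (nat_lit 90)⟩], false⟩, []⟩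
def f584 : Fc := ⟨false, st0, [], ⟨(nat_lit 0x3b5380), [⟨(nb (nat_lit 1) (nat_lit 512) (nat_lit 0)), (nat_lit 0), (nat_lit 1), (nat_lit 3)⟩], [⟨(nb (nat_lit 4) (nat_lit 4160) (nb (nat_lit 12) (nat_lit 3584) (nb (nat_lit 4) (nat_lit 576) (nat_lit 3)))), (nb (nat_lit 9) (nat_lit 4096) (nb (nat_lit 4) (nat_lit 3648) (nb (nat_lit 3) (nat_lit 3072) (nb (nat_lit 6) (nat_lit 512) (nat_lit 0))))), (nat_lit 45), (nat_lit 90)⟩], false⟩, []⟩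
def f585 : Fc := ⟨false, st0, [], ⟨(nat_lit 31104), [], [⟨(nb (nat_lit 7) (nat_lit 576) (nat_lit 8)), (nat_lit 0xc0000000000000000), (nat_lit 27), (nat_lit 6)⟩], false⟩, []⟩
def f586 : Fc := ⟨false, st0, [], ⟨(nat_lit 31104), [], [⟨(nb (nat_lit 0x20000000000000003) (nat_lit 512) (nat_lit 0)), (nat_lit 0x10000000000000003), (nat_lit 9), (nat_lit 6)⟩], false⟩, []⟩
def f587 : Fc := ⟨false, st0, [], ⟨(nat_lit 0x3b5380), [], [⟨(nb (nat_lit 1) (nat_lit 512) (nat_lit 0)), (nb (nat_lit 2) (nat_lit 3072) (nat_lit 0)), (nat_lit 3), (nat_lit 15)⟩, ⟨(nb (nat_lit 0x10000000000000003) (nat_lit 512) (nat_lit 0)), (nb (nat_lit 0x20000000000000003) (nat_lit 3072) (nat_lit 1)), (nat_lit 10), (nat_lit 30)⟩], false⟩, []⟩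
def f588 : Fc := ⟨false, st0, [], ⟨(nat_lit 30375), [], [⟨(nb (nat_lit 1) (nat_lit 512) (nat_lit 0)), (nb (nat_lit 2) (nat_lit 3072) (nat_lit 0)), (nat_lit 3), (nat_lit 15)⟩], false⟩, []⟩
def f589 : Fc := ⟨false, st0, [], ⟨(nat_lit 30375), [⟨(nb (nat_lit 1) (nat_lit 512) (nat_lit 0)), (nb (nat_lit 2) (nat_lit 3072) (nat_lit 0)), (nat_lit 3), (nat_lit 15)⟩], [], false⟩, []⟩
def f590 : Fc := ⟨false, st0, [], ⟨(nat_lit 0x3b5380), [⟨(nb (nat_lit 1) (nat_lit 512) (nat_lit 0)), (nb (nat_lit 2) (nat_lit 3072) (nat_lit 0)), (nat_lit 3), (nat_lit 15)⟩], [⟨(nb (nat_lit 0x10000000000000003) (nat_lit 512) (nat_lit 0)), (nb (nat_lit 0x20000000000000003) (nat_lit 3072) (nat_lit 1)), (nat_lit 10), (nat_lit 30)⟩], false⟩, []⟩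
def f591 : Fc := ⟨false, st0, [], ⟨(nat_lit 0x3b5380), [], [⟨(nb (nat_lit 0x10000000000000003) (nat_lit 512) (nat_lit 0)), (nb (nat_lit 0x20000000000000003) (nat_lit 3072) (nat_lit 1)), (nat_lit 10), (nat_lit 30)⟩], false⟩, []⟩
def f592 : Fc := ⟨false, st0, [], ⟨(nat_lit 31104), [], [⟨(nb (nat_lit 2) (nat_lit 576) (nat_lit 3)), (nb (nat_lit 5) (nat_lit 512) (nat_lit 0)), (nat_lit 10), (nat_lit 6)⟩], false⟩, []⟩
def f593 : Fc := ⟨false, st0, [], ⟨(nat_lit 128), [], [⟨(nat_lit 0x70000000000000000), (nat_lit 8), (nat_lit 15), (nat_lit 2)⟩], false⟩, []⟩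
def f594 : Fc := ⟨false, st0, [], ⟨(nat_lit 128), [], [⟨(nat_lit 0x90000000000000000), (nat_lit 2), (nat_lit 11), (nat_lit 2)⟩], false⟩, []⟩
def f595 : Fc := ⟨false, st0, [], ⟨(nat_lit 31104), [⟨(nat_lit 0x10000000000000000), (nat_lit 0), (nat_lit 1), (nat_lit 2)⟩], [⟨(nb (nat_lit 1) (nat_lit 512) (nb (nat_lit 9) (nat_lit 64) (nat_lit 0))), (nat_lit 4), (nat_lit 14), (nat_lit 6)⟩], false⟩, []⟩
def f596 : Fc := ⟨false, st0, [], ⟨(nat_lit 128), [], [⟨(nat_lit 0x20000000000000007), (nat_lit 0), (nat_lit 9), (nat_lit 2)⟩], false⟩, []⟩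
def f597 : Fc := ⟨false, st0, [], ⟨(nat_lit 128), [], [⟨(nat_lit 0x1000000000000000e), (nat_lit 0), (nat_lit 15), (nat_lit 2)⟩], false⟩, []⟩
def f598 : Fc := ⟨false, st0, [], ⟨(nat_lit 128), [⟨(nat_lit 0x40000000000000000), (nat_lit 1), (nat_lit 5), (nat_lit 2)⟩], [], false⟩, []⟩
def f599 : Fc := ⟨false, st0, [], ⟨(nat_lit 31104), [], [⟨(nb (nat_lit 4) (nat_lit 576) (nat_lit 0)), (nb (nat_lit 1) (nat_lit 512) (nat_lit 6)), (nat_lit 11), (nat_lit 6)⟩], false⟩, []⟩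
def f600 : Fc := ⟨false, st0, [], ⟨(nat_lit 128), [⟨(nat_lit 0x40000000000000000), (nat_lit 1), (nat_lit 5), (nat_lit 2)⟩], [⟨(nat_lit 0x50000000000000000), (nat_lit 2), (nat_lit 7), (nat_lit 2)⟩], false⟩, []⟩
def f601 : Fc := ⟨false, st0, [], ⟨(nat_lit 128), [⟨(nat_lit 0x900000000000000000000000000000000), (nat_lit 0x40000000000000000), (nat_lit 13), (nat_lit 4)⟩], [], false⟩, []⟩
def f602 : Fc := ⟨false, st0, [], ⟨(nat_lit 31104), [], [⟨(nb (nat_lit 9) (nat_lit 640) (nat_lit 4)), (nb (nat_lit 4) (nat_lit 576) (nb (nat_lit 12) (nat_lit 64) (nat_lit 0))), (nat_lit 29), (nat_lit 12)⟩], false⟩, []⟩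
def f603 : Fc := ⟨false, st0, [], ⟨(nat_lit 31104), [], [⟨(nb (nat_lit 0x30000000000000001) (nat_lit 512) (nat_lit 0)), (nat_lit 1), (nat_lit 5), (nat_lit 6)⟩], false⟩, []⟩
def f604 : Fc := ⟨false, st0, [], ⟨(nat_lit 128), [⟨(nat_lit 0x30000000000000001), (nat_lit 0), (nat_lit 4), (nat_lit 2)⟩], [⟨(nat_lit 0x30000000000000002), (nat_lit 0), (nat_lit 5), (nat_lit 2)⟩], false⟩, []⟩
def f605 : Fc := ⟨false, st0, [], ⟨(nat_lit 128), [⟨(nat_lit 0x30000000000000001), (nat_lit 0), (nat_lit 4), (nat_lit 2)⟩], [⟨(nat_lit 0x10000000000000000), (nat_lit 1), (nat_lit 2), (nat_lit 2)⟩], false⟩, []⟩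
def f606 : Fc := ⟨false, st0, [], ⟨(nat_lit 31104), [⟨(nat_lit 0x10000000000000000), (nat_lit 0), (nat_lit 1), (nat_lit 2)⟩, ⟨(nat_lit 0x90000000000000000), (nat_lit 4), (nat_lit 13), (nat_lit 2)⟩], [⟨(nb (nat_lit 1) (nat_lit 512) (nat_lit 0)), (nat_lit 0), (nat_lit 1), (nat_lit 3)⟩], false⟩, []⟩
def f607 : Fc := ⟨false, st0, [], ⟨(nat_lit 128), [⟨(nat_lit 0x90000000000000000), (nat_lit 4), (nat_lit 13), (nat_lit 2)⟩], [⟨(nat_lit 0x10000000000000000), (nat_lit 0), (nat_lit 1), (nat_lit 2)⟩], false⟩, []⟩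
def f608 : Fc := ⟨false, st0, [], ⟨(nat_lit 16000), [], [⟨(nb (nat_lit 4) (nat_lit 3136) (nat_lit 0)), (nb (nat_lit 1) (nat_lit 3072) (nat_lit 6)), (nat_lit 11), (nat_lit 10)⟩], false⟩, []⟩
def f609 : Fc := ⟨false, st0, [], ⟨(nat_lit 243), [⟨(nb (nat_lit 1) (nat_lit 512) (nat_lit 0)), (nat_lit 0), (nat_lit 1), (nat_lit 3)⟩], [⟨(nb (nat_lit 4) (nat_lit 512) (nat_lit 0)), (nat_lit 9), (nat_lit 13), (nat_lit 3)⟩], false⟩, []⟩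
def f610 : Fc := ⟨false, st0, [], ⟨(nat_lit 0x3b5380), [⟨(nat_lit 0x10000000000000000), (nat_lit 0), (nat_lit 1), (nat_lit 2)⟩, ⟨(nb (nat_lit 1) (nat_lit 512) (nat_lit 0)), (nat_lit 0), (nat_lit 1), (nat_lit 3)⟩], [⟨(nat_lit 0x90000000000000000), (nat_lit 4), (nat_lit 13), (nat_lit 2)⟩, ⟨(nb (nat_lit 9) (nat_lit 3712) (nb (nat_lit 4) (nat_lit 512) (nat_lit 3))), (nb (nat_lit 4) (nat_lit 3648) (nb (nat_lit 12) (nat_lit 576) (nat_lit 0))), (nat_lit 32), (nat_lit 60)⟩], false⟩, []⟩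
def f611 : Fc := ⟨false, st0, [], ⟨(nat_lit 0x3b5380), [⟨(nat_lit 0x10000000000000000), (nat_lit 0), (nat_lit 1), (nat_lit 2)⟩], [⟨(nb (nat_lit 1) (nat_lit 512) (nat_lit 0)), (nat_lit 0), (nat_lit 1), (nat_lit 3)⟩, ⟨(nb (nat_lit 9) (nat_lit 3712) (nb (nat_lit 4) (nat_lit 512) (nat_lit 3))), (nb (nat_lit 4) (nat_lit 3648) (nb (nat_lit 12) (nat_lit 576) (nat_lit 0))), (nat_lit 32), (nat_lit 60)⟩], false⟩, []⟩
def f612 : Fc := ⟨false, st0, [], ⟨(nat_lit 0x3b5380), [], [⟨(nat_lit 0x10000000000000000), (nat_lit 0), (nat_lit 1), (nat_lit 2)⟩, ⟨(nb (nat_lit 9) (nat_lit 3712) (nb (nat_lit 4) (nat_lit 512) (nat_lit 3))), (nb (nat_lit 4) (nat_lit 3648) (nb (nat_lit 12) (nat_lit 576) (nat_lit 0))), (nat_lit 32), (nat_lit 60)⟩], false⟩, []⟩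
def f613 : Fc := ⟨false, st0, [], ⟨(nat_lit 31104), [⟨(nat_lit 0x10000000000000000), (nat_lit 0), (nat_lit 1), (nat_lit 2)⟩, ⟨(nat_lit 0x90000000000000000), (nat_lit 4), (nat_lit 13), (nat_lit 2)⟩, ⟨(nb (nat_lit 1) (nat_lit 512) (nat_lit 0)), (nat_lit 0), (nat_lit 1), (nat_lit 3)⟩], [], false⟩, []⟩
def f614 : Fc := ⟨false, st0, [], ⟨(nat_lit 0x3b5380), [⟨(nat_lit 0x10000000000000000), (nat_lit 0), (nat_lit 1), (nat_lit 2)⟩, ⟨(nat_lit 0x90000000000000000), (nat_lit 4), (nat_lit 13), (nat_lit 2)⟩, ⟨(nb (nat_lit 1) (nat_lit 512) (nat_lit 0)), (nat_lit 0), (nat_lit 1), (nat_lit 3)⟩], [⟨(nb (nat_lit 9) (nat_lit 3712) (nb (nat_lit 4) (nat_lit 512) (nat_lit 3))), (nb (nat_lit 4) (nat_lit 3648) (nb (nat_lit 12) (nat_lit 576) (nat_lit 0))), (nat_lit 32), (nat_lit 60)⟩], false⟩, []⟩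
def f615 : Fc := ⟨false, st0, [], ⟨(nat_lit 0x3b5380), [⟨(nat_lit 0x10000000000000000), (nat_lit 0), (nat_lit 1), (nat_lit 2)⟩, ⟨(nb (nat_lit 1) (nat_lit 512) (nat_lit 0)), (nat_lit 0), (nat_lit 1), (nat_lit 3)⟩], [⟨(nb (nat_lit 9) (nat_lit 3712) (nb (nat_lit 4) (nat_lit 512) (nat_lit 3))), (nb (nat_lit 4) (nat_lit 3648) (nb (nat_lit 12) (nat_lit 576) (nat_lit 0))), (nat_lit 32), (nat_lit 60)⟩], false⟩, []⟩
def f616 : Fc := ⟨false, st0, [], ⟨(nat_lit 0x3b5380), [⟨(nat_lit 0x10000000000000000), (nat_lit 0), (nat_lit 1), (nat_lit 2)⟩], [⟨(nb (nat_lit 9) (nat_lit 3712) (nb (nat_lit 4) (nat_lit 512) (nat_lit 3))), (nb (nat_lit 4) (nat_lit 3648) (nb (nat_lit 12) (nat_lit 576) (nat_lit 0))), (nat_lit 32), (nat_lit 60)⟩], false⟩, []⟩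
def f617 : Fc := ⟨false, st0, [], ⟨(nat_lit 0x3b5380), [], [⟨(nb (nat_lit 9) (nat_lit 3712) (nb (nat_lit 4) (nat_lit 512) (nat_lit 3))), (nb (nat_lit 4) (nat_lit 3648) (nb (nat_lit 12) (nat_lit 576) (nat_lit 0))), (nat_lit 32), (nat_lit 60)⟩], false⟩, []⟩
def f618 : Fc := ⟨false, st0, [], ⟨(nat_lit 31104), [], [⟨(nb (nat_lit 8) (nat_lit 512) (nb (nat_lit 4) (nat_lit 64) (nat_lit 0))), (nat_lit 1), (nat_lit 13), (nat_lit 6)⟩], false⟩, []⟩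
def f619 : Fc := ⟨false, st0, [], ⟨(nat_lit 0x3b5380), [], [⟨(nb (nat_lit 8) (nat_lit 3072) (nb (nat_lit 4) (nat_lit 576) (nat_lit 0))), (nb (nat_lit 1) (nat_lit 512) (nat_lit 6)), (nat_lit 19), (nat_lit 30)⟩], false⟩, []⟩
def f620 : Fc := ⟨false, st0, [], ⟨(nat_lit 128), [⟨(nat_lit 0x90000000000000000), (nat_lit 4), (nat_lit 13), (nat_lit 2)⟩], [], false⟩, []⟩
def f621 : Fc := ⟨false, st0, [], ⟨(nat_lit 31104), [], [⟨(nb (nat_lit 9) (nat_lit 576) (nat_lit 0)), (nb (nat_lit 4) (nat_lit 512) (nat_lit 6)), (nat_lit 19), (nat_lit 6)⟩], false⟩, []⟩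
def f622 : Fc := ⟨false, st0, [], ⟨(nat_lit 31104), [], [⟨(nat_lit 0x40000000000000000), (nb (nat_lit 6) (nat_lit 512) (nat_lit 1)), (nat_lit 11), (nat_lit 6)⟩], false⟩, []⟩
def f623 : Fc := ⟨false, st0, [], ⟨(nat_lit 243), [], [⟨(nb (nat_lit 3) (nat_lit 512) (nat_lit 4)), (nat_lit 0), (nat_lit 7), (nat_lit 3)⟩], false⟩, []⟩
def f624 : Fc := ⟨false, st0, [], ⟨(nat_lit 31104), [], [⟨(nat_lit 0x30000000000000001), (nb (nat_lit 1) (nat_lit 512) (nat_lit 0)), (nat_lit 5), (nat_lit 6)⟩], false⟩, []⟩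
def f625 : Fc := ⟨false, st0, [], ⟨(nat_lit 128), [⟨(nat_lit 0x30000000000000000), (nat_lit 2), (nat_lit 5), (nat_lit 2)⟩], [⟨(nat_lit 0x90000000000000000), (nat_lit 4), (nat_lit 13), (nat_lit 2)⟩], false⟩, []⟩
def f626 : Fc := ⟨false, st0, [], ⟨(nat_lit 128), [⟨(nat_lit 0x30000000000000000), (nat_lit 2), (nat_lit 5), (nat_lit 2)⟩, ⟨(nat_lit 0x90000000000000000), (nat_lit 4), (nat_lit 13), (nat_lit 2)⟩], [], false⟩, []⟩
def f627 : Fc := ⟨false, st0, [], ⟨(nat_lit 31104), [⟨(nb (nat_lit 1) (nat_lit 512) (nat_lit 0)), (nat_lit 0), (nat_lit 1), (nat_lit 3)⟩, ⟨(nat_lit 0x10000000000000000), (nb (nat_lit 1) (nat_lit 512) (nat_lit 0)), (nat_lit 2), (nat_lit 6)⟩], [⟨(nat_lit 0x90000000000000000), (nb (nat_lit 3) (nat_lit 512) (nat_lit 4)), (nat_lit 16), (nat_lit 6)⟩], false⟩, []⟩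
def f628 : Fc := ⟨false, st0, [], ⟨(nat_lit 128), [⟨(nat_lit 0x30000000000000000), (nat_lit 2), (nat_lit 5), (nat_lit 2)⟩, ⟨(nat_lit 0x90000000000000000), (nat_lit 4), (nat_lit 13), (nat_lit 2)⟩], [⟨(nat_lit 0x70000000000000000), (nat_lit 4), (nat_lit 11), (nat_lit 2)⟩], false⟩, []⟩
def f629 : Fc := ⟨false, st0, [], ⟨(nat_lit 128), [⟨(nat_lit 0x20000000000000000), (nat_lit 1), (nat_lit 3), (nat_lit 2)⟩, ⟨(nat_lit 0x30000000000000000), (nat_lit 2), (nat_lit 5), (nat_lit 2)⟩, ⟨(nat_lit 0x90000000000000000), (nat_lit 4), (nat_lit 13), (nat_lit 2)⟩], [⟨(nat_lit 0x90000000000000000), (nat_lit 8), (nat_lit 17), (nat_lit 2)⟩], false⟩, []⟩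
def f630 : Fc := ⟨false, st0, [], ⟨(nat_lit 128), [⟨(nat_lit 0x30000000000000000), (nat_lit 2), (nat_lit 5), (nat_lit 2)⟩, ⟨(nat_lit 0x90000000000000000), (nat_lit 4), (nat_lit 13), (nat_lit 2)⟩], [⟨(nat_lit 0x20000000000000000), (nat_lit 1), (nat_lit 3), (nat_lit 2)⟩], false⟩, []⟩
def f631 : Fc := ⟨false, st0, [], ⟨(nat_lit 31104), [⟨(nb (nat_lit 1) (nat_lit 512) (nat_lit 0)), (nat_lit 0), (nat_lit 1), (nat_lit 3)⟩], [⟨(nat_lit 0x10000000000000000), (nb (nat_lit 1) (nat_lit 512) (nat_lit 0)), (nat_lit 2), (nat_lit 6)⟩], false⟩, []⟩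
def f632 : Fc := ⟨false, st0, [], ⟨(nat_lit 31104), [], [⟨(nat_lit 0x90000000000000000), (nb (nat_lit 6) (nat_lit 512) (nat_lit 4)), (nat_lit 19), (nat_lit 6)⟩], false⟩, []⟩
def f633 : Fc := ⟨false, st0, [], ⟨(nat_lit 0x3b5380), [], [⟨(nb (nat_lit 8) (nat_lit 3072) (nb (nat_lit 4) (nat_lit 64) (nat_lit 0))), (nb (nat_lit 6) (nat_lit 512) (nat_lit 1)), (nat_lit 19), (nat_lit 30)⟩], false⟩, []⟩
def f634 : Fc := ⟨false, st0, [], ⟨(nat_lit 31104), [], [⟨(nat_lit 0xa0000000000000000), (nb (nat_lit 10) (nat_lit 512) (nat_lit 3)), (nat_lit 23), (nat_lit 6)⟩], false⟩, []⟩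
def f635 : Fc := ⟨false, st0, [], ⟨(nat_lit 128), [⟨(nat_lit 0x10000000000000000), (nat_lit 0), (nat_lit 1), (nat_lit 2)⟩], [⟨(nat_lit 0x30000000000000000), (nat_lit 4), (nat_lit 7), (nat_lit 2)⟩], false⟩, []⟩
def f636 : Fc := ⟨false, st0, [], ⟨(nat_lit 128), [⟨(nat_lit 0x10000000000000000), (nat_lit 0), (nat_lit 1), (nat_lit 2)⟩], [⟨(nat_lit 0x300000000000000000000000000000000), (nat_lit 0x40000000000000000), (nat_lit 7), (nat_lit 4)⟩], false⟩, []⟩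
def f637 : Fc := ⟨false, st0, [], ⟨(nat_lit 0x3b5380), [⟨(nat_lit 0x10000000000000000), (nat_lit 0), (nat_lit 1), (nat_lit 2)⟩], [⟨(nat_lit 0x60000000000000000), (nb (nat_lit 3) (nat_lit 512) (nat_lit 4)), (nat_lit 13), (nat_lit 6)⟩, ⟨(nb (nat_lit 6) (nat_lit 3136) (nb (nat_lit 3) (nat_lit 1024) (nb (nat_lit 4) (nat_lit 512) (nb (nat_lit 9) (nat_lit 128) (nat_lit 0))))), (nb (nat_lit 3) (nat_lit 3584) (nb (nat_lit 4) (nat_lit 3072) (nb (nat_lit 12) (nat_lit 576) (nb (nat_lit 4) (nat_lit 64) (nat_lit 0))))), (nat_lit 45), (nat_lit 180)⟩], false⟩, []⟩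
def f638 : Fc := ⟨false, st0, [], ⟨(nat_lit 31104), [⟨(nat_lit 0x10000000000000000), (nat_lit 0), (nat_lit 1), (nat_lit 2)⟩], [⟨(nat_lit 0x60000000000000000), (nb (nat_lit 3) (nat_lit 512) (nat_lit 4)), (nat_lit 13), (nat_lit 6)⟩], false⟩, []⟩
def f639 : Fc := ⟨false, st0, [], ⟨(nat_lit 31104), [⟨(nat_lit 0x10000000000000000), (nat_lit 0), (nat_lit 1), (nat_lit 2)⟩, ⟨(nat_lit 0x60000000000000000), (nb (nat_lit 3) (nat_lit 512) (nat_lit 4)), (nat_lit 13), (nat_lit 6)⟩], [], false⟩, []⟩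
def f640 : Fc := ⟨false, st0, [], ⟨(nat_lit 0x3b5380), [⟨(nat_lit 0x10000000000000000), (nat_lit 0), (nat_lit 1), (nat_lit 2)⟩, ⟨(nat_lit 0x60000000000000000), (nb (nat_lit 3) (nat_lit 512) (nat_lit 4)), (nat_lit 13), (nat_lit 6)⟩], [⟨(nb (nat_lit 6) (nat_lit 3136) (nb (nat_lit 3) (nat_lit 1024) (nb (nat_lit 4) (nat_lit 512) (nb (nat_lit 9) (nat_lit 128) (nat_lit 0))))), (nb (nat_lit 3) (nat_lit 3584) (nb (nat_lit 4) (nat_lit 3072) (nb (nat_lit 12) (nat_lit 576) (nb (nat_lit 4) (nat_lit 64) (nat_lit 0))))), (nat_lit 45), (nat_lit 180)⟩], false⟩, []⟩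
def f641 : Fc := ⟨false, st0, [], ⟨(nat_lit 0x3b5380), [⟨(nat_lit 0x10000000000000000), (nat_lit 0), (nat_lit 1), (nat_lit 2)⟩], [⟨(nb (nat_lit 6) (nat_lit 3136) (nb (nat_lit 3) (nat_lit 1024) (nb (nat_lit 4) (nat_lit 512) (nb (nat_lit 9) (nat_lit 128) (nat_lit 0))))), (nb (nat_lit 3) (nat_lit 3584) (nb (nat_lit 4) (nat_lit 3072) (nb (nat_lit 12) (nat_lit 576) (nb (nat_lit 4) (nat_lit 64) (nat_lit 0))))), (nat_lit 45), (nat_lit 180)⟩], false⟩, []⟩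
def f642 : Fc := ⟨false, st0, [], ⟨(nat_lit 31104), [⟨(nat_lit 0x10000000000000000), (nb (nat_lit 1) (nat_lit 512) (nat_lit 0)), (nat_lit 2), (nat_lit 6)⟩], [⟨(nb (nat_lit 3) (nat_lit 512) (nat_lit 4)), (nat_lit 0), (nat_lit 7), (nat_lit 3)⟩], false⟩, []⟩
def f643 : Fc := ⟨false, st0, [], ⟨(nat_lit 31104), [], [⟨(nat_lit 0x10000000000000000), (nb (nat_lit 1) (nat_lit 512) (nat_lit 0)), (nat_lit 2), (nat_lit 6)⟩], false⟩, []⟩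
def f644 : Fc := ⟨false, st0, [], ⟨(nat_lit 31104), [], [⟨(nb (nat_lit 8) (nat_lit 512) (nat_lit 0x10000000000000001)), (nat_lit 0), (nat_lit 10), (nat_lit 6)⟩], false⟩, []⟩
def f645 : Fc := ⟨false, st0, [], ⟨(nat_lit 128), [⟨(nat_lit 0x10000000000000000), (nat_lit 2), (nat_lit 3), (nat_lit 2)⟩], [⟨(nat_lit 0x30000000000000000), (nat_lit 14), (nat_lit 17), (nat_lit 2)⟩], false⟩, []⟩
def f646 : Fc := ⟨false, st0, [], ⟨(nat_lit 128), [⟨(nat_lit 0x10000000000000000), (nat_lit 7), (nat_lit 8), (nat_lit 2)⟩], [], false⟩, []⟩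
def f647 : Fc := ⟨false, st0, [], ⟨(nat_lit 31104), [], [⟨(nb (nat_lit 1) (nat_lit 576) (nat_lit 8)), (nb (nat_lit 7) (nat_lit 512) (nat_lit 0)), (nat_lit 16), (nat_lit 6)⟩], false⟩, []⟩
def f648 : Fc := ⟨false, st0, [], ⟨(nat_lit 128), [⟨(nat_lit 0x10000000000000000), (nat_lit 7), (nat_lit 8), (nat_lit 2)⟩], [⟨(nat_lit 0x30000000000000000), (nat_lit 5), (nat_lit 8), (nat_lit 2)⟩], false⟩, []⟩
def f649 : Fc := ⟨false, st0, [], ⟨(nat_lit 128), [⟨(nat_lit 0x10000000000000000), (nat_lit 7), (nat_lit 8), (nat_lit 2)⟩], [⟨(nat_lit 0x10000000000000000), (nat_lit 5), (nat_lit 6), (nat_lit 2)⟩], false⟩, []⟩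
def f650 : Fc := ⟨false, st0, [], ⟨(nat_lit 128), [⟨(nat_lit 0x10000000000000000), (nat_lit 0), (nat_lit 1), (nat_lit 2)⟩, ⟨(nat_lit 0x10000000000000000), (nat_lit 2), (nat_lit 3), (nat_lit 2)⟩], [⟨(nat_lit 0x30000000000000000), (nat_lit 14), (nat_lit 17), (nat_lit 2)⟩], false⟩, []⟩
def f651 : Fc := ⟨false, st0, [], ⟨(nat_lit 128), [⟨(nat_lit 0x10000000000000000), (nat_lit 0), (nat_lit 1), (nat_lit 2)⟩, ⟨(nat_lit 0x30000000000000000000000000000001c), (nat_lit 0x140000000000000000), (nat_lit 51), (nat_lit 4)⟩], [], false⟩, []⟩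
def f652 : Fc := ⟨false, st0, [], ⟨(nat_lit 31104), [⟨(nat_lit 0x10000000000000000), (nat_lit 0), (nat_lit 1), (nat_lit 2)⟩], [⟨(nb (nat_lit 0x30000000000000000000000000000001c) (nat_lit 512) (nb (nat_lit 6) (nat_lit 64) (nat_lit 0))), (nb (nat_lit 20) (nat_lit 576) (nat_lit 14)), (nat_lit 71), (nat_lit 12)⟩], false⟩, []⟩
def f653 : Fc := ⟨false, st0, [], ⟨(nat_lit 31104), [], [⟨(nat_lit 0x60000000000000000), (nb (nat_lit 8) (nat_lit 512) (nat_lit 7)), (nat_lit 21), (nat_lit 6)⟩], false⟩, []⟩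
def f654 : Fc := ⟨false, st0, [], ⟨(nat_lit 128), [], [⟨(nat_lit 0x30000000000000000), (nat_lit 7), (nat_lit 10), (nat_lit 2)⟩], false⟩, []⟩
def f655 : Fc := ⟨false, st0, [], ⟨(nat_lit 243), [⟨(nb (nat_lit 3) (nat_lit 512) (nat_lit 2)), (nat_lit 0), (nat_lit 5), (nat_lit 3)⟩], [], false⟩, []⟩
def f656 : Fc := ⟨false, st0, [], ⟨(nat_lit 30375), [], [⟨(nb (nat_lit 3) (nat_lit 3584) (nb (nat_lit 2) (nat_lit 3072) (nat_lit 0))), (nat_lit 6), (nat_lit 11), (nat_lit 15)⟩], false⟩, []⟩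
def f657 : Fc := ⟨false, st0, [], ⟨(nat_lit 243), [⟨(nb (nat_lit 1) (nat_lit 512) (nat_lit 0)), (nat_lit 0), (nat_lit 1), (nat_lit 3)⟩], [⟨(nb (nat_lit 7) (nat_lit 512) (nat_lit 0)), (nat_lit 2), (nat_lit 9), (nat_lit 3)⟩], false⟩, []⟩
def f658 : Fc := ⟨false, st0, [], ⟨(nat_lit 0x3b5380), [], [⟨(nb (nat_lit 3) (nat_lit 3072) (nb (nat_lit 4) (nat_lit 64) (nat_lit 0))), (nb (nat_lit 6) (nat_lit 512) (nat_lit 1)), (nat_lit 14), (nat_lit 30)⟩], false⟩, []⟩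
def f659 : Fc := ⟨false, st0, [], ⟨(nat_lit 31104), [], [⟨(nat_lit 0x90000000000000000), (nb (nat_lit 7) (nat_lit 512) (nat_lit 4)), (nat_lit 20), (nat_lit 6)⟩], false⟩, []⟩
def f660 : Fc := ⟨false, st0, [], ⟨(nat_lit 125), [], [⟨(nb (nat_lit 3) (nat_lit 3072) (nat_lit 0)), (nat_lit 5), (nat_lit 8), (nat_lit 5)⟩], false⟩, []⟩
def f661 : Fc := ⟨false, st0, [], ⟨(nat_lit 125), [], [⟨(nb (nat_lit 1) (nat_lit 3072) (nat_lit 0)), (nat_lit 4), (nat_lit 5), (nat_lit 5)⟩], false⟩, []⟩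
def f662 : Fc := ⟨false, st0, [], ⟨(nat_lit 125), [], [⟨(nb (nat_lit 3) (nat_lit 3072) (nat_lit 2)), (nat_lit 0), (nat_lit 5), (nat_lit 5)⟩], false⟩, []⟩
def f663 : Fc := ⟨false, st0, [], ⟨(nat_lit 0x19f4880), [], [⟨(nb (nat_lit 3) (nat_lit 15360) (nb (nat_lit 2) (nat_lit 12288) (nb (nat_lit 4) (nat_lit 64) (nat_lit 0)))), (nb (nat_lit 6) (nat_lit 512) (nat_lit 1)), (nat_lit 16), (nat_lit 210)⟩], false⟩, []⟩
def f664 : Fc := ⟨false, st0, [], ⟨(nat_lit 0x3b5380), [], [⟨(nb (nat_lit 1) (nat_lit 3072) (nat_lit 0)), (nat_lit 0), (nat_lit 1), (nat_lit 5)⟩, ⟨(nb (nat_lit 9) (nat_lit 3136) (nb (nat_lit 2) (nat_lit 512) (nat_lit 0))), (nb (nat_lit 7) (nat_lit 3584) (nb (nat_lit 4) (nat_lit 3072) (nat_lit 0))), (nat_lit 22), (nat_lit 30)⟩], false⟩, []⟩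
def f665 : Fc := ⟨false, st0, [], ⟨(nat_lit 125), [], [⟨(nb (nat_lit 1) (nat_lit 3072) (nat_lit 0)), (nat_lit 0), (nat_lit 1), (nat_lit 5)⟩], false⟩, []⟩
def f666 : Fc := ⟨false, st0, [], ⟨(nat_lit 125), [⟨(nb (nat_lit 9) (nat_lit 3072) (nat_lit 0)), (nat_lit 0), (nat_lit 9), (nat_lit 5)⟩], [], false⟩, []⟩
def f667 : Fc := ⟨false, st0, [], ⟨(nat_lit 0x3b5380), [⟨(nb (nat_lit 1) (nat_lit 3072) (nat_lit 0)), (nat_lit 0), (nat_lit 1), (nat_lit 5)⟩], [⟨(nb (nat_lit 9) (nat_lit 3136) (nb (nat_lit 2) (nat_lit 512) (nat_lit 0))), (nb (nat_lit 7) (nat_lit 3584) (nb (nat_lit 4) (nat_lit 3072) (nat_lit 0))), (nat_lit 22), (nat_lit 30)⟩], false⟩, []⟩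
def f668 : Fc := ⟨false, st0, [], ⟨(nat_lit 0x3b5380), [], [⟨(nb (nat_lit 9) (nat_lit 3136) (nb (nat_lit 2) (nat_lit 512) (nat_lit 0))), (nb (nat_lit 7) (nat_lit 3584) (nb (nat_lit 4) (nat_lit 3072) (nat_lit 0))), (nat_lit 22), (nat_lit 30)⟩], false⟩, []⟩
def f669 : Fc := ⟨false, st0, [], ⟨(nat_lit 128), [⟨(nat_lit 0x30000000000000000), (nat_lit 1), (nat_lit 4), (nat_lit 2)⟩], [⟨(nat_lit 0x40000000000000000), (nat_lit 1), (nat_lit 5), (nat_lit 2)⟩], false⟩, []⟩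
def f670 : Fc := ⟨false, st0, [], ⟨(nat_lit 128), [⟨(nat_lit 0x30000000000000000), (nat_lit 1), (nat_lit 4), (nat_lit 2)⟩, ⟨(nat_lit 0x40000000000000000), (nat_lit 1), (nat_lit 5), (nat_lit 2)⟩], [], false⟩, []⟩
def f671 : Fc := ⟨false, st0, [], ⟨(nat_lit 31104), [⟨(nb (nat_lit 1) (nat_lit 512) (nat_lit 0)), (nat_lit 3), (nat_lit 4), (nat_lit 3)⟩], [⟨(nb (nat_lit 4) (nat_lit 576) (nb (nat_lit 6) (nat_lit 64) (nat_lit 0))), (nb (nat_lit 1) (nat_lit 512) (nat_lit 3)), (nat_lit 14), (nat_lit 6)⟩], false⟩, []⟩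
def f672 : Fc := ⟨false, st0, [], ⟨(nat_lit 128), [⟨(nat_lit 0x30000000000000000), (nat_lit 1), (nat_lit 4), (nat_lit 2)⟩, ⟨(nat_lit 0x40000000000000000), (nat_lit 1), (nat_lit 5), (nat_lit 2)⟩], [⟨(nat_lit 0x50000000000000000), (nat_lit 2), (nat_lit 7), (nat_lit 2)⟩], false⟩, []⟩
def f673 : Fc := ⟨false, st0, [], ⟨(nat_lit 243), [⟨(nb (nat_lit 1) (nat_lit 512) (nat_lit 0)), (nat_lit 3), (nat_lit 4), (nat_lit 3)⟩], [⟨(nb (nat_lit 4) (nat_lit 512) (nat_lit 0)), (nat_lit 9), (nat_lit 13), (nat_lit 3)⟩], false⟩, []⟩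
def f674 : Fc := ⟨false, st0, [], ⟨(nat_lit 128), [⟨(nat_lit 0x30000000000000000), (nat_lit 1), (nat_lit 4), (nat_lit 2)⟩], [⟨(nat_lit 0x30000000000000001), (nat_lit 0), (nat_lit 4), (nat_lit 2)⟩], false⟩, []⟩
def f675 : Fc := ⟨false, st0, [], ⟨(nat_lit 128), [⟨(nat_lit 0x30000000000000001), (nat_lit 0), (nat_lit 4), (nat_lit 2)⟩, ⟨(nat_lit 0x30000000000000000), (nat_lit 1), (nat_lit 4), (nat_lit 2)⟩], [], false⟩, []⟩
def f676 : Fc := ⟨false, st0, [], ⟨(nat_lit 31104), [⟨(nb (nat_lit 1) (nat_lit 512) (nat_lit 0)), (nat_lit 3), (nat_lit 4), (nat_lit 3)⟩], [⟨(nb (nat_lit 0x30000000000000001) (nat_lit 512) (nat_lit 0)), (nat_lit 0x60000000000000004), (nat_lit 14), (nat_lit 6)⟩], false⟩, []⟩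
def f677 : Fc := ⟨false, st0, [], ⟨(nat_lit 128), [⟨(nat_lit 0x30000000000000001), (nat_lit 0), (nat_lit 4), (nat_lit 2)⟩, ⟨(nat_lit 0x30000000000000000), (nat_lit 1), (nat_lit 4), (nat_lit 2)⟩], [⟨(nat_lit 0x30000000000000002), (nat_lit 0), (nat_lit 5), (nat_lit 2)⟩], false⟩, []⟩
def f678 : Fc := ⟨false, st0, [], ⟨(nat_lit 128), [⟨(nat_lit 0x30000000000000001), (nat_lit 0), (nat_lit 4), (nat_lit 2)⟩, ⟨(nat_lit 0x30000000000000000), (nat_lit 1), (nat_lit 4), (nat_lit 2)⟩], [⟨(nat_lit 0x10000000000000000), (nat_lit 1), (nat_lit 2), (nat_lit 2)⟩], false⟩, []⟩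
def f679 : Fc := ⟨false, st0, [], ⟨(nat_lit 128), [⟨(nat_lit 0x30000000000000000), (nat_lit 2), (nat_lit 5), (nat_lit 2)⟩], [⟨(nat_lit 0x30000000000000000), (nat_lit 1), (nat_lit 4), (nat_lit 2)⟩], false⟩, []⟩
def f680 : Fc := ⟨false, st0, [], ⟨(nat_lit 128), [⟨(nat_lit 0x30000000000000000), (nat_lit 1), (nat_lit 4), (nat_lit 2)⟩, ⟨(nat_lit 0x30000000000000000), (nat_lit 2), (nat_lit 5), (nat_lit 2)⟩], [], false⟩, []⟩
def f681 : Fc := ⟨false, st0, [], ⟨(nat_lit 128), [⟨(nat_lit 0x30000000000000000), (nat_lit 1), (nat_lit 4), (nat_lit 2)⟩, ⟨(nat_lit 0x30000000000000000), (nat_lit 2), (nat_lit 5), (nat_lit 2)⟩], [⟨(nat_lit 0x90000000000000000), (nat_lit 4), (nat_lit 13), (nat_lit 2)⟩], false⟩, []⟩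
def f682 : Fc := ⟨false, st0, [], ⟨(nat_lit 128), [⟨(nat_lit 0x30000000000000000), (nat_lit 1), (nat_lit 4), (nat_lit 2)⟩, ⟨(nat_lit 0x30000000000000000), (nat_lit 1), (nat_lit 4), (nat_lit 2)⟩, ⟨(nat_lit 0x90000000000000000), (nat_lit 4), (nat_lit 13), (nat_lit 2)⟩, ⟨(nat_lit 0x900000000000000000000000000000002), (nat_lit 0x90000000000000000), (nat_lit 20), (nat_lit 4)⟩], [], false⟩, []⟩
def f683 : Fc := ⟨false, st0, [], ⟨(nat_lit 31104), [⟨(nat_lit 0x30000000000000000), (nat_lit 1), (nat_lit 4), (nat_lit 2)⟩, ⟨(nb (nat_lit 1) (nat_lit 512) (nat_lit 0)), (nat_lit 3), (nat_lit 4), (nat_lit 3)⟩, ⟨(nb (nat_lit 1) (nat_lit 576) (nat_lit 0)), (nat_lit 1), (nat_lit 2), (nat_lit 6)⟩], [⟨(nb (nat_lit 9) (nat_lit 576) (nat_lit 9)), (nb (nat_lit 4) (nat_lit 512) (nb (nat_lit 18) (nat_lit 64) (nat_lit 0))), (nat_lit 40), (nat_lit 6)⟩], false⟩, []⟩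
def f684 : Fc := ⟨false, st0, [], ⟨(nat_lit 128), [⟨(nat_lit 0x30000000000000000), (nat_lit 1), (nat_lit 4), (nat_lit 2)⟩, ⟨(nat_lit 0x30000000000000000), (nat_lit 2), (nat_lit 5), (nat_lit 2)⟩, ⟨(nat_lit 0x90000000000000000), (nat_lit 4), (nat_lit 13), (nat_lit 2)⟩], [⟨(nat_lit 0x70000000000000000), (nat_lit 4), (nat_lit 11), (nat_lit 2)⟩], false⟩, []⟩
def f685 : Fc := ⟨false, st0, [], ⟨(nat_lit 128), [⟨(nat_lit 0x20000000000000000), (nat_lit 1), (nat_lit 3), (nat_lit 2)⟩, ⟨(nat_lit 0x30000000000000000), (nat_lit 1), (nat_lit 4), (nat_lit 2)⟩, ⟨(nat_lit 0x30000000000000000), (nat_lit 2), (nat_lit 5), (nat_lit 2)⟩, ⟨(nat_lit 0x90000000000000000), (nat_lit 4), (nat_lit 13), (nat_lit 2)⟩], [⟨(nat_lit 0x90000000000000000), (nat_lit 8), (nat_lit 17), (nat_lit 2)⟩], false⟩, []⟩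
def f686 : Fc := ⟨false, st0, [], ⟨(nat_lit 128), [⟨(nat_lit 0x30000000000000000), (nat_lit 1), (nat_lit 4), (nat_lit 2)⟩, ⟨(nat_lit 0x30000000000000000), (nat_lit 2), (nat_lit 5), (nat_lit 2)⟩, ⟨(nat_lit 0x90000000000000000), (nat_lit 4), (nat_lit 13), (nat_lit 2)⟩], [⟨(nat_lit 0x20000000000000000), (nat_lit 1), (nat_lit 3), (nat_lit 2)⟩], false⟩, []⟩
def f687 : Fc := ⟨false, st0, [], ⟨(nat_lit 128), [⟨(nat_lit 0x10000000000000000), (nat_lit 0), (nat_lit 1), (nat_lit 2)⟩, ⟨(nat_lit 0x30000000000000000), (nat_lit 1), (nat_lit 4), (nat_lit 2)⟩, ⟨(nat_lit 0x30000000000000000), (nat_lit 1), (nat_lit 4), (nat_lit 2)⟩], [], false⟩, []⟩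
def f688 : Fc := ⟨false, st0, [], ⟨(nat_lit 31104), [⟨(nat_lit 0x30000000000000000), (nat_lit 1), (nat_lit 4), (nat_lit 2)⟩, ⟨(nb (nat_lit 1) (nat_lit 512) (nat_lit 0)), (nat_lit 3), (nat_lit 4), (nat_lit 3)⟩], [⟨(nb (nat_lit 1) (nat_lit 576) (nat_lit 0)), (nat_lit 1), (nat_lit 2), (nat_lit 6)⟩], false⟩, []⟩
def f689 : Fc := ⟨false, st0, [], ⟨(nat_lit 128), [⟨(nat_lit 0x10000000000000000), (nat_lit 0), (nat_lit 1), (nat_lit 2)⟩, ⟨(nat_lit 0x30000000000000000), (nat_lit 1), (nat_lit 4), (nat_lit 2)⟩], [⟨(nat_lit 0x20000000000000001), (nat_lit 0), (nat_lit 3), (nat_lit 2)⟩], false⟩, []⟩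
def f690 : Fc := ⟨false, st0, [], ⟨(nat_lit 128), [⟨(nat_lit 0x30000000000000001), (nat_lit 0), (nat_lit 4), (nat_lit 2)⟩, ⟨(nat_lit 0x30000000000000000), (nat_lit 1), (nat_lit 4), (nat_lit 2)⟩], [⟨(nat_lit 0x20000000000000001), (nat_lit 0), (nat_lit 3), (nat_lit 2)⟩], false⟩, []⟩
def f691 : Fc := ⟨false, st0, [], ⟨(nat_lit 243), [⟨(nb (nat_lit 1) (nat_lit 512) (nat_lit 0)), (nat_lit 3), (nat_lit 4), (nat_lit 3)⟩], [⟨(nb (nat_lit 2) (nat_lit 512) (nat_lit 0)), (nat_lit 1), (nat_lit 3), (nat_lit 3)⟩], false⟩, []⟩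
def f692 : Fc := ⟨false, st0, [], ⟨(nat_lit 31104), [], [⟨(nat_lit 0x80000000000000000), (nb (nat_lit 4) (nat_lit 512) (nat_lit 1)), (nat_lit 13), (nat_lit 6)⟩], false⟩, []⟩
def f693 : Fc := ⟨false, st0, [], ⟨(nat_lit 243), [], [⟨(nb (nat_lit 3) (nat_lit 512) (nat_lit 10)), (nat_lit 0), (nat_lit 13), (nat_lit 3)⟩], false⟩, []⟩
def f694 : Fc := ⟨false, st0, [], ⟨(nat_lit 31104), [], [⟨(nat_lit 0x30000000000000000), (nb (nat_lit 2) (nat_lit 512) (nat_lit 0)), (nat_lit 5), (nat_lit 6)⟩], false⟩, []⟩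
def f695 : Fc := ⟨false, st0, [], ⟨(nat_lit 128), [⟨(nat_lit 0x10000000000000000), (nat_lit 2), (nat_lit 3), (nat_lit 2)⟩], [⟨(nat_lit 0x60000000000000000), (nat_lit 7), (nat_lit 13), (nat_lit 2)⟩], false⟩, []⟩
def f696 : Fc := ⟨false, st0, [], ⟨(nat_lit 128), [⟨(nat_lit 0x10000000000000000), (nat_lit 2), (nat_lit 3), (nat_lit 2)⟩, ⟨(nat_lit 0x60000000000000000), (nat_lit 7), (nat_lit 13), (nat_lit 2)⟩], [], false⟩, []⟩
def f697 : Fc := ⟨false, st0, [], ⟨(nat_lit 31104), [⟨(nat_lit 0x10000000000000000), (nat_lit 2), (nat_lit 3), (nat_lit 2)⟩], [⟨(nb (nat_lit 7) (nat_lit 512) (nb (nat_lit 0x9000000000000000e) (nat_lit 64) (nat_lit 0))), (nb (nat_lit 6) (nat_lit 576) (nat_lit 14)), (nat_lit 50), (nat_lit 12)⟩], false⟩, []⟩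
def f698 : Fc := ⟨false, st0, [], ⟨(nat_lit 128), [⟨(nat_lit 0x10000000000000000), (nat_lit 2), (nat_lit 3), (nat_lit 2)⟩, ⟨(nat_lit 0x60000000000000000), (nat_lit 7), (nat_lit 13), (nat_lit 2)⟩], [⟨(nat_lit 0x30000000000000004), (nat_lit 0), (nat_lit 7), (nat_lit 2)⟩], false⟩, []⟩
def f699 : Fc := ⟨false, st0, [], ⟨(nat_lit 128), [⟨(nat_lit 0x10000000000000000), (nat_lit 2), (nat_lit 3), (nat_lit 2)⟩, ⟨(nat_lit 0x60000000000000000), (nat_lit 7), (nat_lit 13), (nat_lit 2)⟩], [⟨(nat_lit 0x40000000000000000), (nat_lit 3), (nat_lit 7), (nat_lit 2)⟩], false⟩, []⟩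
def f700 : Fc := ⟨false, st0, [], ⟨(nat_lit 243), [], [⟨(nb (nat_lit 1) (nat_lit 512) (nat_lit 0)), (nat_lit 10), (nat_lit 11), (nat_lit 3)⟩], false⟩, []⟩
def f701 : Fc := ⟨false, st0, [], ⟨(nat_lit 243), [], [⟨(nb (nat_lit 36) (nat_lit 512) (nat_lit 65)), (nat_lit 0), (nat_lit 101), (nat_lit 3)⟩], false⟩, []⟩
def f702 : Fc := ⟨false, st0, [], ⟨(nat_lit 128), [], [⟨(nat_lit 0xf0000000000000000), (nat_lit 4), (nat_lit 19), (nat_lit 2)⟩], false⟩, []⟩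
def f703 : Fc := ⟨false, st0, [], ⟨(nat_lit 31104), [], [⟨(nb (nat_lit 3) (nat_lit 576) (nb (nat_lit 3) (nat_lit 64) (nat_lit 0))), (nb (nat_lit 1) (nat_lit 512) (nat_lit 0)), (nat_lit 7), (nat_lit 6)⟩], false⟩, []⟩
def f704 : Fc := ⟨false, st0, [], ⟨(nat_lit 128), [⟨(nat_lit 0x30000000000000000), (nat_lit 1), (nat_lit 4), (nat_lit 2)⟩], [⟨(nat_lit 0xf0000000000000000), (nat_lit 4), (nat_lit 19), (nat_lit 2)⟩], false⟩, []⟩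
def f705 : Fc := ⟨false, st0, [], ⟨(nat_lit 243), [], [⟨(nb (nat_lit 7) (nat_lit 512) (nat_lit 9)), (nat_lit 0), (nat_lit 16), (nat_lit 3)⟩], false⟩, []⟩
def f706 : Fc := ⟨false, st0, [], ⟨(nat_lit 243), [], [⟨(nb (nat_lit 7) (nat_lit 512) (nat_lit 0)), (nat_lit 16), (nat_lit 23), (nat_lit 3)⟩], false⟩, []⟩
def f707 : Fc := ⟨false, st0, [], ⟨(nat_lit 243), [⟨(nb (nat_lit 2) (nat_lit 512) (nat_lit 0)), (nat_lit 1), (nat_lit 3), (nat_lit 3)⟩], [⟨(nb (nat_lit 14) (nat_lit 512) (nat_lit 0)), (nat_lit 27), (nat_lit 41), (nat_lit 3)⟩], false⟩, []⟩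
def f708 : Fc := ⟨false, st0, [], ⟨(nat_lit 243), [], [⟨(nb (nat_lit 8) (nat_lit 512) (nat_lit 0)), (nat_lit 9), (nat_lit 17), (nat_lit 3)⟩], false⟩, []⟩
def f709 : Fc := ⟨false, st0, [], ⟨(nat_lit 128), [⟨(nat_lit 0x10000000000000000), (nat_lit 0), (nat_lit 1), (nat_lit 2)⟩], [⟨(nat_lit 0xf0000000000000004), (nat_lit 0), (nat_lit 19), (nat_lit 2)⟩], false⟩, []⟩
def f710 : Fc := ⟨false, st0, [], ⟨(nat_lit 31104), [], [⟨(nb (nat_lit 7) (nat_lit 576) (nat_lit 0)), (nat_lit 0x100000000000000008), (nat_lit 31), (nat_lit 6)⟩], false⟩, []⟩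
def f711 : Fc := ⟨false, st0, [], ⟨(nat_lit 128), [⟨(nat_lit 0x10000000000000000), (nat_lit 0), (nat_lit 1), (nat_lit 2)⟩], [⟨(nat_lit 0x10000000000000004), (nat_lit 0), (nat_lit 5), (nat_lit 2)⟩], false⟩, []⟩
def f712 : Fc := ⟨false, st0, [], ⟨(nat_lit 243), [⟨(nb (nat_lit 2) (nat_lit 512) (nat_lit 0)), (nat_lit 1), (nat_lit 3), (nat_lit 3)⟩], [], false⟩, []⟩
def f713 : Fc := ⟨false, st0, [], ⟨(nat_lit 243), [⟨(nb (nat_lit 28) (nat_lit 1024) (nat_lit 27)), (nb (nat_lit 68) (nat_lit 512) (nat_lit 0)), (nat_lit 123), (nat_lit 9)⟩], [], false⟩, []⟩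
def f714 : Fc := ⟨false, st0, [], ⟨(nat_lit 31104), [], [⟨(nb (nat_lit 28) (nat_lit 1088) (nat_lit 0x1b000000000000000c)), (nb (nat_lit 0x44000000000000000e) (nat_lit 512) (nat_lit 0)), (nat_lit 149), (nat_lit 18)⟩], false⟩, []⟩
def f715 : Fc := ⟨false, st0, [], ⟨(nat_lit 243), [⟨(nb (nat_lit 1) (nat_lit 512) (nat_lit 0)), (nat_lit 0), (nat_lit 1), (nat_lit 3)⟩, ⟨(nb (nat_lit 2) (nat_lit 512) (nat_lit 0)), (nat_lit 1), (nat_lit 3), (nat_lit 3)⟩, ⟨(nb (nat_lit 14) (nat_lit 512) (nat_lit 0)), (nat_lit 27), (nat_lit 41), (nat_lit 3)⟩], [⟨(nb (nat_lit 3) (nat_lit 512) (nat_lit 0)), (nat_lit 4), (nat_lit 7), (nat_lit 3)⟩], false⟩, []⟩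
def f716 : Fc := ⟨false, st0, [], ⟨(nat_lit 243), [⟨(nb (nat_lit 2) (nat_lit 512) (nat_lit 0)), (nat_lit 1), (nat_lit 3), (nat_lit 3)⟩, ⟨(nb (nat_lit 14) (nat_lit 512) (nat_lit 0)), (nat_lit 27), (nat_lit 41), (nat_lit 3)⟩], [⟨(nb (nat_lit 1) (nat_lit 512) (nat_lit 0)), (nat_lit 0), (nat_lit 1), (nat_lit 3)⟩], false⟩, []⟩
def f717 : Fc := ⟨false, st0, [], ⟨(nat_lit 243), [⟨(nb (nat_lit 1) (nat_lit 512) (nat_lit 0)), (nat_lit 0), (nat_lit 1), (nat_lit 3)⟩, ⟨(nb (nat_lit 2) (nat_lit 512) (nat_lit 0)), (nat_lit 1), (nat_lit 3), (nat_lit 3)⟩, ⟨(nb (nat_lit 14) (nat_lit 512) (nat_lit 0)), (nat_lit 27), (nat_lit 41), (nat_lit 3)⟩], [⟨(nb (nat_lit 4) (nat_lit 512) (nat_lit 3)), (nat_lit 0), (nat_lit 7), (nat_lit 3)⟩], false⟩, []⟩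
def f718 : Fc := ⟨false, st0, [], ⟨(nat_lit 243), [⟨(nb (nat_lit 2) (nat_lit 512) (nat_lit 0)), (nat_lit 1), (nat_lit 3), (nat_lit 3)⟩, ⟨(nb (nat_lit 14) (nat_lit 512) (nat_lit 0)), (nat_lit 27), (nat_lit 41), (nat_lit 3)⟩], [⟨(nb (nat_lit 7) (nat_lit 512) (nat_lit 9)), (nat_lit 0), (nat_lit 16), (nat_lit 3)⟩], false⟩, []⟩
def f719 : Fc := ⟨false, st0, [], ⟨(nat_lit 128), [⟨(nat_lit 0x10000000000000000), (nat_lit 0), (nat_lit 1), (nat_lit 2)⟩], [⟨(nat_lit 0x190000000000000008), (nat_lit 0), (nat_lit 33), (nat_lit 2)⟩], false⟩, []⟩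
def f720 : Fc := ⟨false, st0, [], ⟨(nat_lit 31104), [⟨(nat_lit 0x10000000000000000), (nat_lit 0), (nat_lit 1), (nat_lit 2)⟩], [⟨(nb (nat_lit 1) (nat_lit 512) (nat_lit 0)), (nat_lit 0), (nat_lit 1), (nat_lit 3)⟩], false⟩, []⟩
def f721 : Fc := ⟨false, st0, [], ⟨(nat_lit 31104), [], [⟨(nb (nat_lit 4) (nat_lit 576) (nat_lit 0)), (nat_lit 0x90000000000000004), (nat_lit 17), (nat_lit 6)⟩], false⟩, []⟩
def f722 : Fc := ⟨false, st0, [], ⟨(nat_lit 128), [], [⟨(nat_lit 0x40000000000000000), (nat_lit 15), (nat_lit 19), (nat_lit 2)⟩], false⟩, []⟩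
def f723 : Fc := ⟨false, st0, [], ⟨(nat_lit 128), [], [⟨(nat_lit 0x10000000000000000), (nat_lit 10), (nat_lit 11), (nat_lit 2)⟩], false⟩, []⟩
def f724 : Fc := ⟨false, st0, [], ⟨(nat_lit 128), [], [⟨(nat_lit 0x190000000000000008), (nat_lit 0), (nat_lit 33), (nat_lit 2)⟩], false⟩, []⟩
def f725 : Fc := ⟨false, st0, [], ⟨(nat_lit 243), [], [⟨(nb (nat_lit 4) (nat_lit 512) (nat_lit 0)), (nat_lit 15), (nat_lit 19), (nat_lit 3)⟩], false⟩, []⟩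
def f726 : Fc := ⟨false, st0, [], ⟨(nat_lit 31104), [], [⟨(nb (nat_lit 1) (nat_lit 576) (nat_lit 0)), (nat_lit 0xa0000000000000002), (nat_lit 13), (nat_lit 6)⟩], false⟩, []⟩
def f727 : Fc := ⟨false, st0, [], ⟨(nat_lit 243), [⟨(nb (nat_lit 2) (nat_lit 512) (nat_lit 3)), (nat_lit 0), (nat_lit 5), (nat_lit 3)⟩], [⟨(nb (nat_lit 6) (nat_lit 512) (nat_lit 0)), (nat_lit 5), (nat_lit 11), (nat_lit 3)⟩], false⟩, []⟩
def f728 : Fc := ⟨false, st0, [], ⟨(nat_lit 243), [⟨(nb (nat_lit 2) (nat_lit 512) (nat_lit 0)), (nat_lit 1), (nat_lit 3), (nat_lit 3)⟩, ⟨(nb (nat_lit 2) (nat_lit 512) (nat_lit 3)), (nat_lit 0), (nat_lit 5), (nat_lit 3)⟩], [⟨(nb (nat_lit 1) (nat_lit 512) (nat_lit 0)), (nat_lit 2), (nat_lit 3), (nat_lit 3)⟩], false⟩, []⟩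
def f729 : Fc := ⟨false, st0, [], ⟨(nat_lit 243), [⟨(nb (nat_lit 2) (nat_lit 512) (nat_lit 3)), (nat_lit 0), (nat_lit 5), (nat_lit 3)⟩], [⟨(nb (nat_lit 2) (nat_lit 512) (nat_lit 0)), (nat_lit 1), (nat_lit 3), (nat_lit 3)⟩], false⟩, []⟩
def f730 : Fc := ⟨false, st0, [], ⟨(nat_lit 243), [⟨(nb (nat_lit 2) (nat_lit 512) (nat_lit 3)), (nat_lit 0), (nat_lit 5), (nat_lit 3)⟩], [⟨(nb (nat_lit 5) (nat_lit 512) (nat_lit 0)), (nat_lit 3), (nat_lit 8), (nat_lit 3)⟩], false⟩, []⟩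
def f731 : Fc := ⟨false, st0, [], ⟨(nat_lit 243), [], [⟨(nb (nat_lit 10) (nat_lit 512) (nat_lit 0)), (nat_lit 9), (nat_lit 19), (nat_lit 3)⟩], false⟩, []⟩
def f732 : Fc := ⟨false, st0, [], ⟨(nat_lit 30375), [], [⟨(nb (nat_lit 4) (nat_lit 512) (nat_lit 0)), (nb (nat_lit 1) (nat_lit 3072) (nat_lit 1)), (nat_lit 6), (nat_lit 15)⟩], false⟩, []⟩
def f733 : Fc := ⟨false, st0, [], ⟨(nat_lit 243), [⟨(nb (nat_lit 1) (nat_lit 512) (nat_lit 0)), (nat_lit 3), (nat_lit 4), (nat_lit 3)⟩], [⟨(nb (nat_lit 5) (nat_lit 512) (nat_lit 0)), (nat_lit 3), (nat_lit 8), (nat_lit 3)⟩], false⟩, []⟩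
def f734 : Fc := ⟨false, st0, [], ⟨(nat_lit 243), [⟨(nb (nat_lit 1) (nat_lit 512) (nat_lit 0)), (nat_lit 3), (nat_lit 4), (nat_lit 3)⟩], [⟨(nb (nat_lit 4) (nat_lit 512) (nat_lit 0)), (nat_lit 1), (nat_lit 5), (nat_lit 3)⟩], false⟩, []⟩
def f735 : Fc := ⟨false, st0, [], ⟨(nat_lit 243), [⟨(nb (nat_lit 1) (nat_lit 512) (nat_lit 0)), (nat_lit 3), (nat_lit 4), (nat_lit 3)⟩], [⟨(nb (nat_lit 2) (nat_lit 512) (nat_lit 3)), (nat_lit 0), (nat_lit 5), (nat_lit 3)⟩], false⟩, []⟩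
def f736 : Fc := ⟨false, st0, [], ⟨(nat_lit 31104), [⟨(nb (nat_lit 1) (nat_lit 512) (nat_lit 0)), (nat_lit 3), (nat_lit 4), (nat_lit 3)⟩], [⟨(nb (nat_lit 3) (nat_lit 576) (nat_lit 5)), (nb (nat_lit 2) (nat_lit 512) (nb (nat_lit 6) (nat_lit 64) (nat_lit 0))), (nat_lit 16), (nat_lit 6)⟩], false⟩, []⟩
def f737 : Fc := ⟨false, st0, [], ⟨(nat_lit 243), [⟨(nb (nat_lit 2) (nat_lit 512) (nat_lit 3)), (nat_lit 0), (nat_lit 5), (nat_lit 3)⟩], [], false⟩, []⟩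
def f738 : Fc := ⟨false, st0, [], ⟨(nat_lit 243), [⟨(nb (nat_lit 2) (nat_lit 512) (nat_lit 3)), (nat_lit 0), (nat_lit 5), (nat_lit 3)⟩], [⟨(nb (nat_lit 1) (nat_lit 512) (nat_lit 0)), (nat_lit 3), (nat_lit 4), (nat_lit 3)⟩], false⟩, []⟩
def f739 : Fc := ⟨false, st0, [], ⟨(nat_lit 243), [⟨(nb (nat_lit 1) (nat_lit 512) (nat_lit 0)), (nat_lit 3), (nat_lit 4), (nat_lit 3)⟩, ⟨(nb (nat_lit 2) (nat_lit 512) (nat_lit 3)), (nat_lit 0), (nat_lit 5), (nat_lit 3)⟩], [], false⟩, []⟩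
def f740 : Fc := ⟨false, st0, [], ⟨(nat_lit 0x3b5380), [⟨(nb (nat_lit 1) (nat_lit 512) (nat_lit 0)), (nat_lit 3), (nat_lit 4), (nat_lit 3)⟩], [⟨(nb (nat_lit 2) (nat_lit 3584) (nb (nat_lit 3) (nat_lit 3072) (nb (nat_lit 4) (nat_lit 576) (nb (nat_lit 6) (nat_lit 64) (nat_lit 0))))), (nb (nat_lit 1) (nat_lit 512) (nat_lit 3)), (nat_lit 19), (nat_lit 30)⟩], false⟩, []⟩
def f741 : Fc := ⟨false, st0, [], ⟨(nat_lit 128), [⟨(nat_lit 0x30000000000000000), (nat_lit 1), (nat_lit 4), (nat_lit 2)⟩, ⟨(nat_lit 0x50000000000000000), (nat_lit 3), (nat_lit 8), (nat_lit 2)⟩], [], false⟩, []⟩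
def f742 : Fc := ⟨false, st0, [], ⟨(nat_lit 128), [⟨(nat_lit 0x30000000000000000), (nat_lit 1), (nat_lit 4), (nat_lit 2)⟩, ⟨(nat_lit 0x50000000000000000), (nat_lit 3), (nat_lit 8), (nat_lit 2)⟩], [⟨(nat_lit 0x50000000000000000), (nat_lit 1), (nat_lit 6), (nat_lit 2)⟩], false⟩, []⟩
def f743 : Fc := ⟨false, st0, [], ⟨(nat_lit 128), [⟨(nat_lit 0x30000000000000000), (nat_lit 1), (nat_lit 4), (nat_lit 2)⟩, ⟨(nat_lit 0x50000000000000000), (nat_lit 1), (nat_lit 6), (nat_lit 2)⟩, ⟨(nat_lit 0x50000000000000000), (nat_lit 3), (nat_lit 8), (nat_lit 2)⟩], [], false⟩, []⟩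
def f744 : Fc := ⟨false, st0, [], ⟨(nat_lit 128), [⟨(nat_lit 0x30000000000000000), (nat_lit 1), (nat_lit 4), (nat_lit 2)⟩, ⟨(nat_lit 0x50000000000000000), (nat_lit 1), (nat_lit 6), (nat_lit 2)⟩, ⟨(nat_lit 0x50000000000000000), (nat_lit 3), (nat_lit 8), (nat_lit 2)⟩], [⟨(nat_lit 0x190000000000000000), (nat_lit 11), (nat_lit 36), (nat_lit 2)⟩], false⟩, []⟩
def f745 : Fc := ⟨false, st0, [], ⟨(nat_lit 128), [⟨(nat_lit 0x30000000000000000), (nat_lit 1), (nat_lit 4), (nat_lit 2)⟩, ⟨(nat_lit 0x50000000000000000), (nat_lit 3), (nat_lit 8), (nat_lit 2)⟩, ⟨(nat_lit 0xa0000000000000000), (nat_lit 2), (nat_lit 12), (nat_lit 2)⟩, ⟨(nat_lit 0x190000000000000000), (nat_lit 11), (nat_lit 36), (nat_lit 2)⟩], [], false⟩, []⟩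
def f746 : Fc := ⟨false, st0, [], ⟨(nat_lit 31104), [⟨(nb (nat_lit 1) (nat_lit 512) (nat_lit 0)), (nat_lit 0), (nat_lit 1), (nat_lit 3)⟩, ⟨(nb (nat_lit 1) (nat_lit 512) (nat_lit 0)), (nat_lit 1), (nat_lit 2), (nat_lit 3)⟩, ⟨(nb (nat_lit 1) (nat_lit 512) (nat_lit 0)), (nat_lit 3), (nat_lit 4), (nat_lit 3)⟩, ⟨(nb (nat_lit 2) (nat_lit 512) (nat_lit 3)), (nat_lit 0), (nat_lit 5), (nat_lit 3)⟩], [⟨(nb (nat_lit 10) (nat_lit 576) (nb (nat_lit 15) (nat_lit 64) (nat_lit 0))), (nb (nat_lit 2) (nat_lit 512) (nat_lit 9)), (nat_lit 36), (nat_lit 6)⟩], false⟩, []⟩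
def f747 : Fc := ⟨false, st0, [], ⟨(nat_lit 243), [⟨(nb (nat_lit 1) (nat_lit 512) (nat_lit 0)), (nat_lit 3), (nat_lit 4), (nat_lit 3)⟩, ⟨(nb (nat_lit 2) (nat_lit 512) (nat_lit 3)), (nat_lit 0), (nat_lit 5), (nat_lit 3)⟩], [⟨(nb (nat_lit 1) (nat_lit 512) (nat_lit 0)), (nat_lit 1), (nat_lit 2), (nat_lit 3)⟩], false⟩, []⟩
def f748 : Fc := ⟨false, st0, [], ⟨(nat_lit 243), [⟨(nb (nat_lit 2) (nat_lit 512) (nat_lit 0)), (nat_lit 1), (nat_lit 3), (nat_lit 3)⟩], [⟨(nb (nat_lit 2) (nat_lit 512) (nat_lit 3)), (nat_lit 0), (nat_lit 5), (nat_lit 3)⟩], false⟩, []⟩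
def f749 : Fc := ⟨false, st0, [], ⟨(nat_lit 243), [⟨(nb (nat_lit 2) (nat_lit 512) (nat_lit 0)), (nat_lit 1), (nat_lit 3), (nat_lit 3)⟩, ⟨(nb (nat_lit 2) (nat_lit 512) (nat_lit 3)), (nat_lit 0), (nat_lit 5), (nat_lit 3)⟩], [], false⟩, []⟩
def f750 : Fc := ⟨false, st0, [], ⟨(nat_lit 243), [⟨(nb (nat_lit 2) (nat_lit 512) (nat_lit 0)), (nat_lit 1), (nat_lit 3), (nat_lit 3)⟩, ⟨(nb (nat_lit 2) (nat_lit 512) (nat_lit 3)), (nat_lit 0), (nat_lit 5), (nat_lit 3)⟩], [⟨(nb (nat_lit 1) (nat_lit 512) (nat_lit 0)), (nat_lit 3), (nat_lit 4), (nat_lit 3)⟩], false⟩, []⟩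
def f751 : Fc := ⟨false, st0, [], ⟨(nat_lit 243), [⟨(nb (nat_lit 1) (nat_lit 512) (nat_lit 0)), (nat_lit 3), (nat_lit 4), (nat_lit 3)⟩, ⟨(nb (nat_lit 2) (nat_lit 512) (nat_lit 3)), (nat_lit 0), (nat_lit 5), (nat_lit 3)⟩, ⟨(nb (nat_lit 12) (nat_lit 1024) (nb (nat_lit 12) (nat_lit 512) (nat_lit 0))), (nat_lit 9), (nat_lit 33), (nat_lit 9)⟩], [], false⟩, []⟩
def f752 : Fc := ⟨false, st0, [], ⟨(nat_lit 31104), [⟨(nb (nat_lit 1) (nat_lit 512) (nat_lit 0)), (nat_lit 3), (nat_lit 4), (nat_lit 3)⟩, ⟨(nb (nat_lit 2) (nat_lit 512) (nat_lit 3)), (nat_lit 0), (nat_lit 5), (nat_lit 3)⟩], [⟨(nb (nat_lit 12) (nat_lit 1088) (nb (nat_lit 12) (nat_lit 576) (nat_lit 0))), (nb (nat_lit 2) (nat_lit 1024) (nb (nat_lit 9) (nat_lit 512) (nb (nat_lit 9) (nat_lit 64) (nat_lit 0)))), (nat_lit 44), (nat_lit 18)⟩], false⟩, []⟩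
def f753 : Fc := ⟨false, st0, [], ⟨(nat_lit 128), [⟨(nat_lit 0x30000000000000000), (nat_lit 1), (nat_lit 4), (nat_lit 2)⟩, ⟨(nat_lit 0x30000000000000000), (nat_lit 2), (nat_lit 5), (nat_lit 2)⟩], [⟨(nat_lit 0x90000000000000000), (nat_lit 10), (nat_lit 19), (nat_lit 2)⟩], false⟩, []⟩
def f754 : Fc := ⟨false, st0, [], ⟨(nat_lit 128), [⟨(nat_lit 0x30000000000000000), (nat_lit 1), (nat_lit 4), (nat_lit 2)⟩, ⟨(nat_lit 0x30000000000000000), (nat_lit 2), (nat_lit 5), (nat_lit 2)⟩], [⟨(nat_lit 0x10000000000000000), (nat_lit 1), (nat_lit 2), (nat_lit 2)⟩], false⟩, []⟩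
def f755 : Fc := ⟨false, st0, [], ⟨(nat_lit 128), [⟨(nat_lit 0x30000000000000000), (nat_lit 1), (nat_lit 4), (nat_lit 2)⟩, ⟨(nat_lit 0x30000000000000000), (nat_lit 2), (nat_lit 5), (nat_lit 2)⟩], [⟨(nat_lit 0x40000000000000000), (nat_lit 3), (nat_lit 7), (nat_lit 2)⟩], false⟩, []⟩
def f756 : Fc := ⟨false, st0, [], ⟨(nat_lit 31104), [], [⟨(nb (nat_lit 14) (nat_lit 512) (nb (nat_lit 28) (nat_lit 64) (nat_lit 0))), (nat_lit 13), (nat_lit 55), (nat_lit 6)⟩], false⟩, []⟩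
def f757 : Fc := ⟨false, st0, [], ⟨(nat_lit 243), [⟨(nb (nat_lit 1) (nat_lit 512) (nat_lit 0)), (nat_lit 2), (nat_lit 3), (nat_lit 3)⟩], [], false⟩, []⟩
def f758 : Fc := ⟨false, st0, [], ⟨(nat_lit 243), [⟨(nb (nat_lit 1) (nat_lit 512) (nat_lit 0)), (nat_lit 2), (nat_lit 3), (nat_lit 3)⟩], [⟨(nb (nat_lit 1) (nat_lit 512) (nat_lit 0)), (nat_lit 3), (nat_lit 4), (nat_lit 3)⟩], false⟩, []⟩
def f759 : Fc := ⟨false, st0, [], ⟨(nat_lit 243), [⟨(nb (nat_lit 1) (nat_lit 512) (nat_lit 0)), (nat_lit 2), (nat_lit 3), (nat_lit 3)⟩, ⟨(nb (nat_lit 1) (nat_lit 512) (nat_lit 0)), (nat_lit 3), (nat_lit 4), (nat_lit 3)⟩], [], false⟩, []⟩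
def f760 : Fc := ⟨false, st0, [], ⟨(nat_lit 243), [⟨(nb (nat_lit 1) (nat_lit 512) (nat_lit 0)), (nat_lit 2), (nat_lit 3), (nat_lit 3)⟩, ⟨(nb (nat_lit 1) (nat_lit 512) (nat_lit 0)), (nat_lit 3), (nat_lit 4), (nat_lit 3)⟩], [⟨(nb (nat_lit 2) (nat_lit 512) (nat_lit 3)), (nat_lit 0), (nat_lit 5), (nat_lit 3)⟩], false⟩, []⟩
def f761 : Fc := ⟨false, st0, [], ⟨(nat_lit 243), [⟨(nb (nat_lit 1) (nat_lit 512) (nat_lit 0)), (nat_lit 3), (nat_lit 4), (nat_lit 3)⟩, ⟨(nb (nat_lit 2) (nat_lit 1024) (nat_lit 0)), (nb (nat_lit 1) (nat_lit 512) (nat_lit 6)), (nat_lit 9), (nat_lit 9)⟩], [], false⟩, []⟩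
def f762 : Fc := ⟨false, st0, [], ⟨(nat_lit 31104), [⟨(nb (nat_lit 1) (nat_lit 512) (nat_lit 0)), (nat_lit 3), (nat_lit 4), (nat_lit 3)⟩], [⟨(nb (nat_lit 2) (nat_lit 1088) (nat_lit 9)), (nb (nat_lit 0x10000000000000004) (nat_lit 512) (nb (nat_lit 6) (nat_lit 64) (nat_lit 0))), (nat_lit 22), (nat_lit 18)⟩], false⟩, []⟩
def f763 : Fc := ⟨false, st0, [], ⟨(nat_lit 125), [], [⟨(nb (nat_lit 1) (nat_lit 3072) (nat_lit 0)), (nat_lit 2), (nat_lit 3), (nat_lit 5)⟩], false⟩, []⟩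
def f764 : Fc := ⟨false, st0, [], ⟨(nat_lit 125), [⟨(nb (nat_lit 1) (nat_lit 3072) (nat_lit 0)), (nat_lit 2), (nat_lit 3), (nat_lit 5)⟩], [], false⟩, []⟩
def f765 : Fc := ⟨false, st0, [], ⟨(nat_lit 30375), [⟨(nb (nat_lit 1) (nat_lit 512) (nat_lit 0)), (nat_lit 1), (nat_lit 2), (nat_lit 3)⟩, ⟨(nb (nat_lit 1) (nat_lit 512) (nat_lit 0)), (nat_lit 2), (nat_lit 3), (nat_lit 3)⟩, ⟨(nb (nat_lit 1) (nat_lit 512) (nat_lit 0)), (nat_lit 3), (nat_lit 4), (nat_lit 3)⟩, ⟨(nb (nat_lit 2) (nat_lit 512) (nat_lit 3)), (nat_lit 0), (nat_lit 5), (nat_lit 3)⟩, ⟨(nb (nat_lit 2) (nat_lit 4096) (nb (nat_lit 26) (nat_lit 512) (nat_lit 0))), (nb (nat_lit 1) (nat_lit 3584) (nb (nat_lit 6) (nat_lit 3072) (nb (nat_lit 4) (nat_lit 1024) (nat_lit 42)))), (nat_lit 81), (nat_lit 45)⟩], [⟨(nb (nat_lit 4) (nat_lit 512) (nat_lit 0)), (nat_lit 9), (nat_lit 13), (nat_lit 3)⟩],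 false⟩, []⟩
def f766 : Fc := ⟨false, st0, [], ⟨(nat_lit 30375), [⟨(nb (nat_lit 1) (nat_lit 512) (nat_lit 0)), (nat_lit 1), (nat_lit 2), (nat_lit 3)⟩, ⟨(nb (nat_lit 1) (nat_lit 512) (nat_lit 0)), (nat_lit 2), (nat_lit 3), (nat_lit 3)⟩, ⟨(nb (nat_lit 1) (nat_lit 512) (nat_lit 0)), (nat_lit 3), (nat_lit 4), (nat_lit 3)⟩, ⟨(nb (nat_lit 2) (nat_lit 512) (nat_lit 3)), (nat_lit 0), (nat_lit 5), (nat_lit 3)⟩, ⟨(nb (nat_lit 2) (nat_lit 4096) (nb (nat_lit 26) (nat_lit 512) (nat_lit 0))), (nb (nat_lit 1) (nat_lit 3584) (nb (nat_lit 6) (nat_lit 3072) (nb (nat_lit 4) (nat_lit 1024) (nat_lit 42)))), (nat_lit 81), (nat_lit 45)⟩], [⟨(nb (nat_lit 4) (nat_lit 1024) (nat_lit 9)), (nb (nat_lit 13) (nat_lit 512) (nat_lit 0)), (nat_lit 26), (nat_lit 9)⟩], false⟩, []⟩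
def f767 : Fc := ⟨false, st0, [], ⟨(nat_lit 125), [], [⟨(nb (nat_lit 1) (nat_lit 3072) (nat_lit 4)), (nat_lit 0), (nat_lit 5), (nat_lit 5)⟩], false⟩, []⟩
def f768 : Fc := ⟨false, st0, [], ⟨(nat_lit 125), [⟨(nb (nat_lit 1) (nat_lit 3072) (nat_lit 4)), (nat_lit 0), (nat_lit 5), (nat_lit 5)⟩], [], false⟩, []⟩
def f769 : Fc := ⟨false, st0, [], ⟨(nat_lit 30375), [⟨(nb (nat_lit 1) (nat_lit 512) (nat_lit 0)), (nat_lit 2), (nat_lit 3), (nat_lit 3)⟩, ⟨(nb (nat_lit 1) (nat_lit 512) (nat_lit 0)), (nat_lit 3), (nat_lit 4), (nat_lit 3)⟩, ⟨(nb (nat_lit 2) (nat_lit 512) (nat_lit 3)), (nat_lit 0), (nat_lit 5), (nat_lit 3)⟩, ⟨(nb (nat_lit 2) (nat_lit 4096) (nb (nat_lit 26) (nat_lit 512) (nat_lit 0))), (nb (nat_lit 1) (nat_lit 3584) (nb (nat_lit 6) (nat_lit 3072) (nb (nat_lit 4) (nat_lit 1024) (nat_lit 42)))), (nat_lit 81), (nat_lit 45)⟩], [⟨(nb (nat_lit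 1) (nat_lit 512) (nat_lit 0)), (nat_lit 1), (nat_lit 2), (nat_lit 3)⟩], false⟩, []⟩
def f770 : Fc := ⟨false, st0, [], ⟨(nat_lit 30375), [⟨(nb (nat_lit 1) (nat_lit 512) (nat_lit 0)), (nat_lit 2), (nat_lit 3), (nat_lit 3)⟩, ⟨(nb (nat_lit 1) (nat_lit 512) (nat_lit 0)), (nat_lit 3), (nat_lit 4), (nat_lit 3)⟩, ⟨(nb (nat_lit 2) (nat_lit 512) (nat_lit 3)), (nat_lit 0), (nat_lit 5), (nat_lit 3)⟩, ⟨(nb (nat_lit 2) (nat_lit 4096) (nb (nat_lit 26) (nat_lit 512) (nat_lit 0))), (nb (nat_lit 1) (nat_lit 3584) (nb (nat_lit 6) (nat_lit 3072) (nb (nat_lit 4) (nat_lit 1024) (nat_lit 42)))), (nat_lit 81), (nat_lit 45)⟩], [⟨(nb (nat_lit 1) (nat_lit 512) (nat_lit 0)), (nat_lit 1), (nat_lit 2), (nat_lit 3)⟩, ⟨(nb (nat_lit 4) (nat_lit 1024) (nat_lit 9)), (nb (nat_lit 13) (nat_lit 512) (nat_lit 0)), (nat_lit 26), (nat_lit 9)⟩], false⟩, []⟩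
def f771 : Fc := ⟨false, st0, [], ⟨(nat_lit 30375), [⟨(nb (nat_lit 1) (nat_lit 512) (nat_lit 0)), (nat_lit 2), (nat_lit 3), (nat_lit 3)⟩, ⟨(nb (nat_lit 1) (nat_lit 512) (nat_lit 0)), (nat_lit 3), (nat_lit 4), (nat_lit 3)⟩, ⟨(nb (nat_lit 2) (nat_lit 512) (nat_lit 3)), (nat_lit 0), (nat_lit 5), (nat_lit 3)⟩, ⟨(nb (nat_lit 2) (nat_lit 4096) (nb (nat_lit 26) (nat_lit 512) (nat_lit 0))), (nb (nat_lit 1) (nat_lit 3584) (nb (nat_lit 6) (nat_lit 3072) (nb (nat_lit 4) (nat_lit 1024) (nat_lit 42)))), (nat_lit 81), (nat_lit 45)⟩], [⟨(nb (nat_lit 4) (nat_lit 1024) (nat_lit 9)), (nb (nat_lit 13) (nat_lit 512) (nat_lit 0)), (nat_lit 26), (nat_lit 9)⟩], false⟩, []⟩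
def f772 : Fc := ⟨false, st0, [], ⟨(nat_lit 30375), [⟨(nb (nat_lit 1) (nat_lit 512) (nat_lit 0)), (nat_lit 3), (nat_lit 4), (nat_lit 3)⟩, ⟨(nb (nat_lit 2) (nat_lit 1024) (nat_lit 0)), (nb (nat_lit 1) (nat_lit 512) (nat_lit 6)), (nat_lit 9), (nat_lit 9)⟩, ⟨(nb (nat_lit 2) (nat_lit 4096) (nb (nat_lit 26) (nat_lit 512) (nat_lit 0))), (nb (nat_lit 1) (nat_lit 3584) (nb (nat_lit 6) (nat_lit 3072) (nb (nat_lit 4) (nat_lit 1024) (nat_lit 42)))), (nat_lit 81), (nat_lit 45)⟩], [⟨(nb (nat_lit 4) (nat_lit 2560) (nb (nat_lit 197) (nat_lit 1536) (nb (nat_lit 423) (nat_lit 512) (nat_lit 0)))), (nb (nat_lit 45) (nat_lit 2048) (nb (nat_lit 417) (nat_lit 1024) (nat_lit 162))), (nat_lit 1248), (nat_lit 243)⟩], false⟩, []⟩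
def f773 : Fc := ⟨false, st0, [], ⟨(nat_lit 0x3b5380), [⟨(nb (nat_lit 1) (nat_lit 512) (nat_lit 0)), (nat_lit 3), (nat_lit 4), (nat_lit 3)⟩, ⟨(nb (nat_lit 1) (nat_lit 3072) (nb (nat_lit 6) (nat_lit 64) (nat_lit 0))), (nat_lit 2), (nat_lit 9), (nat_lit 10)⟩], [⟨(nb (nat_lit 2) (nat_lit 1088) (nat_lit 9)), (nb (nat_lit 0x10000000000000004) (nat_lit 512) (nb (nat_lit 6) (nat_lit 64) (nat_lit 0))), (nat_lit 22), (nat_lit 18)⟩, ⟨(nb (nat_lit 2) (nat_lit 4160) (nb (nat_lit 9) (nat_lit 3072) (nb (nat_lit 18) (nat_lit 1152) (nb (nat_lit 8) (nat_lit 512) (nb (nat_lit 36) (nat_lit 64) (nat_lit 0)))))), (nb (nat_lit 0x10000000000000004) (nat_lit 3584) (nb (nat_lit 6) (nat_lit 3136) (nb (nat_lit 8) (nat_lit 1088) (nb (nat_lit 36) (nat_lit 640) (nat_lit 18))))), (nat_lit 146), (nat_lit 180)⟩], false⟩, []⟩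
def f774 : Fc := ⟨false, st0, [], ⟨(nat_lit 31104), [⟨(nat_lit 0x10000000000000000), (nat_lit 0), (nat_lit 1), (nat_lit 2)⟩], [⟨(nb (nat_lit 1) (nat_lit 512) (nat_lit 0)), (nat_lit 3), (nat_lit 4), (nat_lit 3)⟩], false⟩, []⟩
def f775 : Fc := ⟨false, st0, [], ⟨(nat_lit 31104), [⟨(nat_lit 0x10000000000000000), (nat_lit 0), (nat_lit 1), (nat_lit 2)⟩, ⟨(nb (nat_lit 1) (nat_lit 512) (nat_lit 0)), (nat_lit 3), (nat_lit 4), (nat_lit 3)⟩], [], false⟩, []⟩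
def f776 : Fc := ⟨false, st0, [], ⟨(nat_lit 128), [⟨(nat_lit 0x10000000000000000), (nat_lit 0), (nat_lit 1), (nat_lit 2)⟩, ⟨(nat_lit 0x30000000000000000), (nat_lit 2), (nat_lit 5), (nat_lit 2)⟩], [], false⟩, []⟩
def f777 : Fc := ⟨false, st0, [], ⟨(nat_lit 128), [⟨(nat_lit 0x10000000000000000), (nat_lit 0), (nat_lit 1), (nat_lit 2)⟩, ⟨(nat_lit 0x30000000000000000), (nat_lit 2), (nat_lit 5), (nat_lit 2)⟩], [⟨(nat_lit 0x30000000000000000), (nat_lit 1), (nat_lit 4), (nat_lit 2)⟩], false⟩, []⟩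
def f778 : Fc := ⟨false, st0, [], ⟨(nat_lit 128), [⟨(nat_lit 0x10000000000000000), (nat_lit 0), (nat_lit 1), (nat_lit 2)⟩, ⟨(nat_lit 0x30000000000000000), (nat_lit 1), (nat_lit 4), (nat_lit 2)⟩, ⟨(nat_lit 0x30000000000000000), (nat_lit 2), (nat_lit 5), (nat_lit 2)⟩], [], false⟩, []⟩
def f779 : Fc := ⟨false, st0, [], ⟨(nat_lit 31104), [⟨(nat_lit 0x10000000000000000), (nat_lit 0), (nat_lit 1), (nat_lit 2)⟩, ⟨(nb (nat_lit 1) (nat_lit 512) (nat_lit 0)), (nat_lit 3), (nat_lit 4), (nat_lit 3)⟩], [⟨(nb (nat_lit 3) (nat_lit 576) (nat_lit 5)), (nb (nat_lit 2) (nat_lit 512) (nb (nat_lit 6) (nat_lit 64) (nat_lit 0))), (nat_lit 16), (nat_lit 6)⟩], false⟩, []⟩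
def f780 : Fc := ⟨false, st0, [], ⟨(nat_lit 31104), [⟨(nat_lit 0x10000000000000000), (nat_lit 0), (nat_lit 1), (nat_lit 2)⟩, ⟨(nb (nat_lit 1) (nat_lit 512) (nat_lit 0)), (nat_lit 3), (nat_lit 4), (nat_lit 3)⟩, ⟨(nb (nat_lit 3) (nat_lit 576) (nat_lit 5)), (nb (nat_lit 2) (nat_lit 512) (nb (nat_lit 6) (nat_lit 64) (nat_lit 0))), (nat_lit 16), (nat_lit 6)⟩], [], false⟩, []⟩
def f781 : Fc := ⟨false, st0, [], ⟨(nat_lit 243), [⟨(nb (nat_lit 1) (nat_lit 512) (nat_lit 0)), (nat_lit 1), (nat_lit 2), (nat_lit 3)⟩], [], false⟩, []⟩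
def f782 : Fc := ⟨false, st0, [], ⟨(nat_lit 243), [⟨(nb (nat_lit 1) (nat_lit 512) (nat_lit 0)), (nat_lit 1), (nat_lit 2), (nat_lit 3)⟩], [⟨(nb (nat_lit 1) (nat_lit 512) (nat_lit 0)), (nat_lit 2), (nat_lit 3), (nat_lit 3)⟩], false⟩, []⟩
def f783 : Fc := ⟨false, st0, [], ⟨(nat_lit 243), [⟨(nb (nat_lit 1) (nat_lit 512) (nat_lit 0)), (nat_lit 1), (nat_lit 2), (nat_lit 3)⟩, ⟨(nb (nat_lit 1) (nat_lit 512) (nat_lit 0)), (nat_lit 2), (nat_lit 3), (nat_lit 3)⟩], [], false⟩, []⟩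
def f784 : Fc := ⟨false, st0, [], ⟨(nat_lit 243), [⟨(nb (nat_lit 1) (nat_lit 512) (nat_lit 0)), (nat_lit 1), (nat_lit 2), (nat_lit 3)⟩, ⟨(nb (nat_lit 1) (nat_lit 512) (nat_lit 0)), (nat_lit 2), (nat_lit 3), (nat_lit 3)⟩], [⟨(nb (nat_lit 2) (nat_lit 512) (nat_lit 3)), (nat_lit 0), (nat_lit 5), (nat_lit 3)⟩], false⟩, []⟩
def f785 : Fc := ⟨false, st0, [], ⟨(nat_lit 243), [⟨(nb (nat_lit 1) (nat_lit 512) (nat_lit 0)), (nat_lit 1), (nat_lit 2), (nat_lit 3)⟩, ⟨(nb (nat_lit 1) (nat_lit 512) (nat_lit 0)), (nat_lit 2), (nat_lit 3), (nat_lit 3)⟩, ⟨(nb (nat_lit 2) (nat_lit 512) (nat_lit 3)), (nat_lit 0), (nat_lit 5), (nat_lit 3)⟩], [], false⟩, []⟩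
def f786 : Fc := ⟨false, st0, [], ⟨(nat_lit 243), [⟨(nb (nat_lit 1) (nat_lit 512) (nat_lit 0)), (nat_lit 1), (nat_lit 2), (nat_lit 3)⟩, ⟨(nb (nat_lit 1) (nat_lit 512) (nat_lit 0)), (nat_lit 2), (nat_lit 3), (nat_lit 3)⟩, ⟨(nb (nat_lit 2) (nat_lit 512) (nat_lit 3)), (nat_lit 0), (nat_lit 5), (nat_lit 3)⟩], [⟨(nb (nat_lit 1) (nat_lit 512) (nat_lit 0)), (nat_lit 3), (nat_lit 4), (nat_lit 3)⟩], false⟩, []⟩
def f787 : Fc := ⟨false, st0, [], ⟨(nat_lit 243), [⟨(nb (nat_lit 1) (nat_lit 512) (nat_lit 0)), (nat_lit 1), (nat_lit 2), (nat_lit 3)⟩, ⟨(nb (nat_lit 1) (nat_lit 512) (nat_lit 0)), (nat_lit 2), (nat_lit 3), (nat_lit 3)⟩, ⟨(nb (nat_lit 1) (nat_lit 512) (nat_lit 0)), (nat_lit 3), (nat_lit 4), (nat_lit 3)⟩, ⟨(nb (nat_lit 2) (nat_lit 512) (nat_lit 3)), (nat_lit 0), (nat_lit 5), (nat_lit 3)⟩], [], false⟩, []⟩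
def f788 : Fc := ⟨false, st0, [], ⟨(nat_lit 243), [⟨(nb (nat_lit 1) (nat_lit 512) (nat_lit 0)), (nat_lit 1), (nat_lit 2), (nat_lit 3)⟩, ⟨(nb (nat_lit 1) (nat_lit 512) (nat_lit 0)), (nat_lit 2), (nat_lit 3), (nat_lit 3)⟩, ⟨(nb (nat_lit 1) (nat_lit 512) (nat_lit 0)), (nat_lit 3), (nat_lit 4), (nat_lit 3)⟩, ⟨(nb (nat_lit 2) (nat_lit 512) (nat_lit 3)), (nat_lit 0), (nat_lit 5), (nat_lit 3)⟩], [⟨(nb (nat_lit 4) (nat_lit 512) (nat_lit 0)), (nat_lit 9), (nat_lit 13), (nat_lit 3)⟩], false⟩, []⟩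
def f789 : Fc := ⟨false, st0, [], ⟨(nat_lit 243), [⟨(nb (nat_lit 1) (nat_lit 512) (nat_lit 0)), (nat_lit 3), (nat_lit 4), (nat_lit 3)⟩, ⟨(nb (nat_lit 4) (nat_lit 512) (nat_lit 0)), (nat_lit 9), (nat_lit 13), (nat_lit 3)⟩, ⟨(nb (nat_lit 2) (nat_lit 1024) (nat_lit 0)), (nb (nat_lit 1) (nat_lit 512) (nat_lit 6)), (nat_lit 9), (nat_lit 9)⟩, ⟨(nb (nat_lit 1) (nat_lit 1536) (nb (nat_lit 11) (nat_lit 512) (nat_lit 0))), (nb (nat_lit 6) (nat_lit 1024) (nat_lit 6)), (nat_lit 24), (nat_lit 27)⟩], [], false⟩, []⟩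
def f790 : Fc := ⟨false, st0, [], ⟨(nat_lit 31104), [⟨(nat_lit 0x10000000000000000), (nat_lit 0), (nat_lit 1), (nat_lit 2)⟩, ⟨(nb (nat_lit 1) (nat_lit 512) (nat_lit 0)), (nat_lit 3), (nat_lit 4), (nat_lit 3)⟩, ⟨(nb (nat_lit 3) (nat_lit 576) (nat_lit 5)), (nb (nat_lit 2) (nat_lit 512) (nb (nat_lit 6) (nat_lit 64) (nat_lit 0))), (nat_lit 16), (nat_lit 6)⟩], [⟨(nb (nat_lit 2) (nat_lit 1088) (nat_lit 9)), (nb (nat_lit 0x10000000000000004) (nat_lit 512) (nb (nat_lit 6) (nat_lit 64) (nat_lit 0))), (nat_lit 22), (nat_lit 18)⟩], false⟩, []⟩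
def f791 : Fc := ⟨false, st0, [], ⟨(nat_lit 31104), [⟨(nb (nat_lit 1) (nat_lit 512) (nat_lit 0)), (nat_lit 3), (nat_lit 4), (nat_lit 3)⟩, ⟨(nb (nat_lit 2) (nat_lit 1088) (nat_lit 9)), (nb (nat_lit 0x10000000000000004) (nat_lit 512) (nb (nat_lit 6) (nat_lit 64) (nat_lit 0))), (nat_lit 22), (nat_lit 18)⟩, ⟨(nb (nat_lit 3) (nat_lit 1152) (nb (nat_lit 11) (nat_lit 576) (nb (nat_lit 18) (nat_lit 128) (nat_lit 0)))), (nb (nat_lit 2) (nat_lit 1088) (nb (nat_lit 15) (nat_lit 640) (nb (nat_lit 15) (nat_lit 64) (nat_lit 0)))), (nat_lit 64), (nat_lit 36)⟩], [], false⟩, []⟩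
def f792 : Fc := ⟨false, st0, [], ⟨(nat_lit 0x3b5380), [⟨(nb (nat_lit 1) (nat_lit 512) (nat_lit 0)), (nat_lit 3), (nat_lit 4), (nat_lit 3)⟩, ⟨(nb (nat_lit 2) (nat_lit 1088) (nat_lit 9)), (nb (nat_lit 0x10000000000000004) (nat_lit 512) (nb (nat_lit 6) (nat_lit 64) (nat_lit 0))), (nat_lit 22), (nat_lit 18)⟩, ⟨(nb (nat_lit 1) (nat_lit 3072) (nb (nat_lit 6) (nat_lit 64) (nat_lit 0))), (nat_lit 2), (nat_lit 9), (nat_lit 10)⟩], [⟨(nb (nat_lit 2) (nat_lit 4160) (nb (nat_lit 9) (nat_lit 3072) (nb (nat_lit 18) (nat_lit 1152) (nb (nat_lit 8) (nat_lit 512) (nb (nat_lit 36) (nat_lit 64) (nat_lit 0)))))), (nb (nat_lit 0x10000000000000004) (nat_lit 3584) (nb (nat_lit 6) (nat_lit 3136) (nb (nat_lit 8) (nat_lit 1088) (nb (nat_lit 36) (nat_lit 640) (nat_lit 18))))), (nat_lit 146), (nat_lit 180)⟩], false⟩, []⟩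
def f793 : Fc := ⟨false, st0, [], ⟨(nat_lit 0x3b5380), [⟨(nb (nat_lit 1) (nat_lit 512) (nat_lit 0)), (nat_lit 3), (nat_lit 4), (nat_lit 3)⟩, ⟨(nb (nat_lit 1) (nat_lit 3072) (nb (nat_lit 6) (nat_lit 64) (nat_lit 0))), (nat_lit 2), (nat_lit 9), (nat_lit 10)⟩], [⟨(nb (nat_lit 2) (nat_lit 4160) (nb (nat_lit 9) (nat_lit 3072) (nb (nat_lit 18) (nat_lit 1152) (nb (nat_lit 8) (nat_lit 512) (nb (nat_lit 36) (nat_lit 64) (nat_lit 0)))))), (nb (nat_lit 0x10000000000000004) (nat_lit 3584) (nb (nat_lit 6) (nat_lit 3136) (nb (nat_lit 8) (nat_lit 1088) (nb (nat_lit 36) (nat_lit 640) (nat_lit 18))))), (nat_lit 146), (nat_lit 180)⟩], false⟩, []⟩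
def f794 : Fc := ⟨false, st0, [], ⟨(nat_lit 243), [⟨(nb (nat_lit 1) (nat_lit 512) (nat_lit 0)), (nat_lit 3), (nat_lit 4), (nat_lit 3)⟩], [⟨(nb (nat_lit 1) (nat_lit 512) (nat_lit 0)), (nat_lit 2), (nat_lit 3), (nat_lit 3)⟩], false⟩, []⟩
def f795 : Fc := ⟨false, st0, [], ⟨(nat_lit 243), [⟨(nb (nat_lit 1) (nat_lit 512) (nat_lit 0)), (nat_lit 3), (nat_lit 4), (nat_lit 3)⟩], [], false⟩, []⟩
def f796 : Fc := ⟨false, st0, [], ⟨(nat_lit 31104), [⟨(nb (nat_lit 1) (nat_lit 512) (nat_lit 0)), (nat_lit 3), (nat_lit 4), (nat_lit 3)⟩], [⟨(nat_lit 0x10000000000000000), (nat_lit 0), (nat_lit 1), (nat_lit 2)⟩], false⟩, []⟩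
def f797 : Fc := ⟨false, st0, [], ⟨(nat_lit 30375), [⟨(nb (nat_lit 1) (nat_lit 512) (nat_lit 0)), (nat_lit 3), (nat_lit 4), (nat_lit 3)⟩], [⟨(nb (nat_lit 5) (nat_lit 512) (nat_lit 0)), (nb (nat_lit 3) (nat_lit 3072) (nat_lit 3)), (nat_lit 11), (nat_lit 15)⟩], false⟩, []⟩
def f798 : Fc := ⟨false, st0, [], ⟨(nat_lit 30375), [⟨(nb (nat_lit 1) (nat_lit 512) (nat_lit 0)), (nat_lit 3), (nat_lit 4), (nat_lit 3)⟩], [⟨(nb (nat_lit 4) (nat_lit 512) (nat_lit 0)), (nb (nat_lit 1) (nat_lit 3072) (nat_lit 1)), (nat_lit 6), (nat_lit 15)⟩], false⟩, []⟩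
def f799 : Fc := ⟨false, st0, [], ⟨(nat_lit 31104), [⟨(nat_lit 0x30000000000000000), (nat_lit 1), (nat_lit 4), (nat_lit 2)⟩], [⟨(nb (nat_lit 3) (nat_lit 512) (nat_lit 0)), (nat_lit 2), (nat_lit 5), (nat_lit 3)⟩], false⟩, []⟩
def f800 : Fc := ⟨false, st0, [], ⟨(nat_lit 31104), [⟨(nat_lit 0x30000000000000000), (nat_lit 1), (nat_lit 4), (nat_lit 2)⟩], [⟨(nb (nat_lit 1) (nat_lit 512) (nat_lit 0)), (nat_lit 2), (nat_lit 3), (nat_lit 3)⟩], false⟩, []⟩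
def f801 : Fc := ⟨false, st0, [], ⟨(nat_lit 31104), [⟨(nat_lit 0x30000000000000000), (nat_lit 1), (nat_lit 4), (nat_lit 2)⟩], [⟨(nb (nat_lit 1) (nat_lit 512) (nat_lit 0)), (nat_lit 4), (nat_lit 5), (nat_lit 3)⟩], false⟩, []⟩
def f802 : Fc := ⟨false, st0, [], ⟨(nat_lit 31104), [⟨(nat_lit 0x30000000000000000), (nat_lit 1), (nat_lit 4), (nat_lit 2)⟩], [⟨(nb (nat_lit 1) (nat_lit 512) (nat_lit 0)), (nat_lit 11), (nat_lit 12), (nat_lit 3)⟩], false⟩, []⟩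
def f803 : Fc := ⟨false, st0, [], ⟨(nat_lit 128), [], [⟨(nat_lit 0x10000000000000000), (nat_lit 8), (nat_lit 9), (nat_lit 2)⟩], false⟩, []⟩
def f804 : Fc := ⟨false, st0, [], ⟨(nat_lit 31104), [], [⟨(nb (nat_lit 4) (nat_lit 512) (nb (nat_lit 1) (nat_lit 64) (nat_lit 0))), (nat_lit 20), (nat_lit 25), (nat_lit 6)⟩], false⟩, []⟩
def f805 : Fc := ⟨false, st0, [], ⟨(nat_lit 128), [⟨(nat_lit 0x10000000000000004), (nat_lit 0), (nat_lit 5), (nat_lit 2)⟩], [], false⟩, []⟩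
def f806 : Fc := ⟨false, st0, [], ⟨(nat_lit 31104), [], [⟨(nb (nat_lit 0x10000000000000004) (nat_lit 512) (nat_lit 0x10000000000000016)), (nat_lit 0), (nat_lit 28), (nat_lit 6)⟩], false⟩, []⟩
def f807 : Fc := ⟨false, st0, [], ⟨(nat_lit 128), [⟨(nat_lit 0x10000000000000004), (nat_lit 0), (nat_lit 5), (nat_lit 2)⟩], [⟨(nat_lit 0x40000000000000000), (nat_lit 11), (nat_lit 15), (nat_lit 2)⟩], false⟩, []⟩
def f808 : Fc := ⟨false, st0, [], ⟨(nat_lit 128), [⟨(nat_lit 0x10000000000000004), (nat_lit 0), (nat_lit 5), (nat_lit 2)⟩], [⟨(nat_lit 0x70000000000000000), (nat_lit 8), (nat_lit 15), (nat_lit 2)⟩], false⟩, []⟩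
def f809 : Fc := ⟨false, st0, [], ⟨(nat_lit 128), [⟨(nat_lit 0x10000000000000000), (nat_lit 0), (nat_lit 1), (nat_lit 2)⟩, ⟨(nat_lit 0x10000000000000002), (nat_lit 0), (nat_lit 3), (nat_lit 2)⟩], [], false⟩, []⟩
def f810 : Fc := ⟨false, st0, [], ⟨(nat_lit 31104), [], [⟨(nat_lit 0x30000000000000003), (nb (nat_lit 5) (nat_lit 512) (nat_lit 0)), (nat_lit 11), (nat_lit 6)⟩], false⟩, []⟩
def f811 : Fc := ⟨false, st0, [], ⟨(nat_lit 128), [⟨(nat_lit 0x20000000000000007), (nat_lit 0), (nat_lit 9), (nat_lit 2)⟩], [], false⟩, []⟩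
def f812 : Fc := ⟨false, st0, [], ⟨(nat_lit 31104), [], [⟨(nb (nat_lit 0x20000000000000007) (nat_lit 512) (nat_lit 0x30000000000000009)), (nat_lit 0), (nat_lit 21), (nat_lit 6)⟩], false⟩, []⟩
def f813 : Fc := ⟨false, st0, [], ⟨(nat_lit 31104), [], [⟨(nb (nat_lit 1) (nat_lit 576) (nat_lit 0)), (nb (nat_lit 3) (nat_lit 512) (nat_lit 3)), (nat_lit 7), (nat_lit 6)⟩], false⟩, []⟩
def f814 : Fc := ⟨false, st0, [], ⟨(nat_lit 243), [], [⟨(nb (nat_lit 18) (nat_lit 512) (nat_lit 0)), (nat_lit 5), (nat_lit 23), (nat_lit 3)⟩], false⟩, []⟩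
def f815 : Fc := ⟨false, st0, [], ⟨(nat_lit 31104), [], [⟨(nb (nat_lit 1) (nat_lit 576) (nat_lit 1)), (nb (nat_lit 2) (nat_lit 512) (nat_lit 0)), (nat_lit 4), (nat_lit 6)⟩], false⟩, []⟩
def f816 : Fc := ⟨false, st0, [], ⟨(nat_lit 128), [⟨(nat_lit 0x10000000000000000), (nat_lit 2), (nat_lit 3), (nat_lit 2)⟩], [⟨(nat_lit 0x30000000000000000), (nat_lit 5), (nat_lit 8), (nat_lit 2)⟩], false⟩, []⟩
def f817 : Fc := ⟨false, st0, [], ⟨(nat_lit 128), [⟨(nat_lit 0x600000000000000000000000000000000), (nat_lit 0xc0000000000000000), (nat_lit 18), (nat_lit 4)⟩], [], false⟩, []⟩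
def f818 : Fc := ⟨false, st0, [], ⟨(nat_lit 31104), [], [⟨(nb (nat_lit 6) (nat_lit 640) (nb (nat_lit 3) (nat_lit 64) (nat_lit 0))), (nb (nat_lit 12) (nat_lit 576) (nat_lit 2)), (nat_lit 23), (nat_lit 12)⟩], false⟩, []⟩
def f819 : Fc := ⟨false, st0, [], ⟨(nat_lit 128), [], [⟨(nat_lit 0xc0000000000000000), (nat_lit 5), (nat_lit 17), (nat_lit 2)⟩], false⟩, []⟩
def f820 : Fc := ⟨false, st0, [], ⟨(nat_lit 31104), [], [⟨(nat_lit 0x80000000000000000), (nb (nat_lit 3) (nat_lit 512) (nat_lit 3)), (nat_lit 14), (nat_lit 6)⟩], false⟩, []⟩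
def f821 : Fc := ⟨false, st0, [], ⟨(nat_lit 243), [], [⟨(nb (nat_lit 9) (nat_lit 512) (nat_lit 0)), (nat_lit 4), (nat_lit 13), (nat_lit 3)⟩], false⟩, []⟩
def f822 : Fc := ⟨false, st0, [], ⟨(nat_lit 128), [⟨(nat_lit 0xc0000000000000000), (nat_lit 0), (nat_lit 12), (nat_lit 2)⟩], [], false⟩, []⟩
def f823 : Fc := ⟨false, st0, [], ⟨(nat_lit 31104), [], [⟨(nb (nat_lit 12) (nat_lit 576) (nat_lit 1)), (nat_lit 0x80000000000000000), (nat_lit 21), (nat_lit 6)⟩], false⟩, []⟩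
def f824 : Fc := ⟨false, st0, [], ⟨(nat_lit 0x3b5380), [], [⟨(nat_lit 0x80000000000000000), (nb (nat_lit 3) (nat_lit 3584) (nb (nat_lit 1) (nat_lit 3072) (nat_lit 3))), (nat_lit 15), (nat_lit 30)⟩], false⟩, []⟩
def f825 : Fc := ⟨false, st0, [], ⟨(nat_lit 243), [], [⟨(nb (nat_lit 8) (nat_lit 512) (nat_lit 0)), (nat_lit 3), (nat_lit 11), (nat_lit 3)⟩], false⟩, []⟩
def f826 : Fc := ⟨false, st0, [], ⟨(nat_lit 128), [⟨(nat_lit 0x80000000000000000), (nat_lit 18), (nat_lit 26), (nat_lit 2)⟩], [], false⟩, []⟩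
def f827 : Fc := ⟨false, st0, [], ⟨(nat_lit 31104), [], [⟨(nb (nat_lit 8) (nat_lit 576) (nat_lit 0)), (nb (nat_lit 18) (nat_lit 512) (nat_lit 1)), (nat_lit 27), (nat_lit 6)⟩], false⟩, []⟩
def f828 : Fc := ⟨false, st0, [], ⟨(nat_lit 0x3b5380), [], [⟨(nb (nat_lit 1) (nat_lit 3136) (nat_lit 3)), (nb (nat_lit 4) (nat_lit 3072) (nb (nat_lit 8) (nat_lit 512) (nat_lit 0))), (nat_lit 16), (nat_lit 30)⟩], false⟩, []⟩
def f829 : Fc := ⟨false, st0, [], ⟨(nat_lit 16000), [], [⟨(nb (nat_lit 0x10000000000000003) (nat_lit 3072) (nat_lit 0)), (nat_lit 1), (nat_lit 5), (nat_lit 10)⟩], false⟩, []⟩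
def f830 : Fc := ⟨false, st0, [], ⟨(nat_lit 16000), [], [⟨(nb (nat_lit 1) (nat_lit 3136) (nat_lit 6)), (nb (nat_lit 4) (nat_lit 3072) (nat_lit 0)), (nat_lit 11), (nat_lit 10)⟩], false⟩, []⟩
def f831 : Fc := ⟨false, st0, [], ⟨(nat_lit 243), [], [⟨(nb (nat_lit 12) (nat_lit 512) (nat_lit 0)), (nat_lit 7), (nat_lit 19), (nat_lit 3)⟩], false⟩, []⟩
def f832 : Fc := ⟨false, st0, [], ⟨(nat_lit 0x3b5380), [], [⟨(nb (nat_lit 1) (nat_lit 3072) (nat_lit 0)), (nat_lit 0), (nat_lit 1), (nat_lit 5)⟩, ⟨(nb (nat_lit 8) (nat_lit 3648) (nb (nat_lit 9) (nat_lit 3072) (nb (nat_lit 12) (nat_lit 512) (nat_lit 0)))), (nb (nat_lit 18) (nat_lit 3584) (nb (nat_lit 4) (nat_lit 3136) (nat_lit 7))), (nat_lit 58), (nat_lit 30)⟩], false⟩, []⟩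
def f833 : Fc := ⟨false, st0, [], ⟨(nat_lit 125), [⟨(nb (nat_lit 1) (nat_lit 3072) (nat_lit 0)), (nat_lit 0), (nat_lit 1), (nat_lit 5)⟩], [], false⟩, []⟩
def f834 : Fc := ⟨false, st0, [], ⟨(nat_lit 16000), [⟨(nb (nat_lit 1) (nat_lit 3072) (nat_lit 0)), (nat_lit 0), (nat_lit 1), (nat_lit 5)⟩], [⟨(nb (nat_lit 4) (nat_lit 3136) (nat_lit 6)), (nb (nat_lit 9) (nat_lit 3072) (nat_lit 0)), (nat_lit 19), (nat_lit 10)⟩], false⟩, []⟩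
def f835 : Fc := ⟨false, st0, [], ⟨(nat_lit 16000), [⟨(nb (nat_lit 1) (nat_lit 3072) (nat_lit 0)), (nat_lit 0), (nat_lit 1), (nat_lit 5)⟩, ⟨(nb (nat_lit 8) (nat_lit 3136) (nat_lit 12)), (nb (nat_lit 18) (nat_lit 3072) (nat_lit 0)), (nat_lit 38), (nat_lit 10)⟩], [], false⟩, []⟩
def f836 : Fc := ⟨false, st0, [], ⟨(nat_lit 0x3b5380), [⟨(nb (nat_lit 1) (nat_lit 3072) (nat_lit 0)), (nat_lit 0), (nat_lit 1), (nat_lit 5)⟩], [⟨(nb (nat_lit 8) (nat_lit 3648) (nb (nat_lit 9) (nat_lit 3072) (nb (nat_lit 12) (nat_lit 512) (nat_lit 0)))), (nb (nat_lit 18) (nat_lit 3584) (nb (nat_lit 4) (nat_lit 3136) (nat_lit 7))), (nat_lit 58), (nat_lit 30)⟩], false⟩, []⟩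
def f837 : Fc := ⟨false, st0, [], ⟨(nat_lit 0x3b5380), [], [⟨(nb (nat_lit 8) (nat_lit 3648) (nb (nat_lit 9) (nat_lit 3072) (nb (nat_lit 12) (nat_lit 512) (nat_lit 0)))), (nb (nat_lit 18) (nat_lit 3584) (nb (nat_lit 4) (nat_lit 3136) (nat_lit 7))), (nat_lit 58), (nat_lit 30)⟩], false⟩, []⟩
def f838 : Fc := ⟨false, st0, [], ⟨(nat_lit 0x19f4880), [], [⟨(nb (nat_lit 1) (nat_lit 15424) (nb (nat_lit 6) (nat_lit 12288) (nat_lit 3))), (nb (nat_lit 4) (nat_lit 15360) (nb (nat_lit 8) (nat_lit 512) (nat_lit 0))), (nat_lit 22), (nat_lit 210)⟩], false⟩, []⟩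
def f839 : Fc := ⟨false, st0, [], ⟨(nat_lit 30375), [], [⟨(nb (nat_lit 2) (nat_lit 3584) (nb (nat_lit 1) (nat_lit 3072) (nat_lit 0))), (nat_lit 1), (nat_lit 4), (nat_lit 15)⟩], false⟩, []⟩
def f840 : Fc := ⟨false, st0, [], ⟨(nat_lit 30375), [], [⟨(nb (nat_lit 1) (nat_lit 3584) (nat_lit 3)), (nb (nat_lit 3) (nat_lit 3072) (nat_lit 0)), (nat_lit 7), (nat_lit 15)⟩], false⟩, []⟩
def f841 : Fc := ⟨false, st0, [], ⟨(nat_lit 128), [⟨(nat_lit 0x10000000000000000), (nat_lit 0), (nat_lit 1), (nat_lit 2)⟩], [⟨(nat_lit 0x50000000000000000), (nat_lit 2), (nat_lit 7), (nat_lit 2)⟩], false⟩, []⟩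
def f842 : Fc := ⟨false, st0, [], ⟨(nat_lit 243), [], [⟨(nb (nat_lit 4) (nat_lit 512) (nat_lit 1)), (nat_lit 0), (nat_lit 5), (nat_lit 3)⟩], false⟩, []⟩
def f843 : Fc := ⟨false, st0, [], ⟨(nat_lit 31104), [], [⟨(nb (nat_lit 0x30000000000000001) (nat_lit 512) (nat_lit 0x30000000000000002)), (nat_lit 0), (nat_lit 9), (nat_lit 6)⟩], false⟩, []⟩
def f844 : Fc := ⟨false, st0, [], ⟨(nat_lit 128), [⟨(nat_lit 0x30000000000000001), (nat_lit 0), (nat_lit 4), (nat_lit 2)⟩], [⟨(nat_lit 0x90000000000000002), (nat_lit 0), (nat_lit 11), (nat_lit 2)⟩], false⟩, []⟩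
def f845 : Fc := ⟨false, st0, [], ⟨(nat_lit 128), [⟨(nat_lit 0x10000000000000000), (nat_lit 1), (nat_lit 2), (nat_lit 2)⟩, ⟨(nat_lit 0x30000000000000001), (nat_lit 0), (nat_lit 4), (nat_lit 2)⟩], [⟨(nat_lit 0x90000000000000002), (nat_lit 0), (nat_lit 11), (nat_lit 2)⟩], false⟩, []⟩
def f846 : Fc := ⟨false, st0, [], ⟨(nat_lit 128), [⟨(nat_lit 0x10000000000000000), (nat_lit 0), (nat_lit 1), (nat_lit 2)⟩, ⟨(nat_lit 0x90000000000000000), (nat_lit 4), (nat_lit 13), (nat_lit 2)⟩], [⟨(nat_lit 0x20000000000000000), (nat_lit 1), (nat_lit 3), (nat_lit 2)⟩], false⟩, []⟩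
def f847 : Fc := ⟨false, st0, [], ⟨(nat_lit 31104), [⟨(nat_lit 0x10000000000000000), (nat_lit 0), (nat_lit 1), (nat_lit 2)⟩, ⟨(nat_lit 0x90000000000000000), (nat_lit 4), (nat_lit 13), (nat_lit 2)⟩], [⟨(nb (nat_lit 2) (nat_lit 512) (nat_lit 1)), (nat_lit 0), (nat_lit 3), (nat_lit 3)⟩], false⟩, []⟩
def f848 : Fc := ⟨false, st0, [], ⟨(nat_lit 243), [], [⟨(nb (nat_lit 13) (nat_lit 512) (nat_lit 14)), (nat_lit 0), (nat_lit 27), (nat_lit 3)⟩], false⟩, []⟩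
def f849 : Fc := ⟨false, st0, [], ⟨(nat_lit 31104), [], [⟨(nb (nat_lit 0x30000000000000002) (nat_lit 512) (nat_lit 0)), (nat_lit 1), (nat_lit 6), (nat_lit 6)⟩], false⟩, []⟩
def f850 : Fc := ⟨false, st0, [], ⟨(nat_lit 31104), [⟨(nat_lit 0x10000000000000000), (nat_lit 0), (nat_lit 1), (nat_lit 2)⟩], [⟨(nat_lit 0x50000000000000000), (nb (nat_lit 3) (nat_lit 512) (nat_lit 2)), (nat_lit 10), (nat_lit 6)⟩], false⟩, []⟩
def f851 : Fc := ⟨false, st0, [], ⟨(nat_lit 31104), [], [⟨(nb (nat_lit 3) (nat_lit 576) (nat_lit 0x40000000000000001)), (nat_lit 0), (nat_lit 8), (nat_lit 6)⟩], false⟩, []⟩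
def f852 : Fc := ⟨false, st0, [], ⟨(nat_lit 0x3b5380), [], [⟨(nb (nat_lit 1) (nat_lit 3072) (nat_lit 0)), (nat_lit 0), (nat_lit 1), (nat_lit 5)⟩, ⟨(nb (nat_lit 0x30000000000000001) (nat_lit 3072) (nat_lit 0x30000000000000002)), (nb (nat_lit 1) (nat_lit 3584) (nat_lit 0)), (nat_lit 10), (nat_lit 30)⟩], false⟩, []⟩
def f853 : Fc := ⟨false, st0, [], ⟨(nat_lit 0x3b5380), [⟨(nb (nat_lit 1) (nat_lit 3072) (nat_lit 0)), (nat_lit 0), (nat_lit 1), (nat_lit 5)⟩], [⟨(nb (nat_lit 0x30000000000000001) (nat_lit 3072) (nat_lit 0x30000000000000002)), (nb (nat_lit 1) (nat_lit 3584) (nat_lit 0)), (nat_lit 10), (nat_lit 30)⟩], false⟩, []⟩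
def f854 : Fc := ⟨false, st0, [], ⟨(nat_lit 0x3b5380), [], [⟨(nb (nat_lit 0x30000000000000001) (nat_lit 3072) (nat_lit 0x30000000000000002)), (nb (nat_lit 1) (nat_lit 3584) (nat_lit 0)), (nat_lit 10), (nat_lit 30)⟩], false⟩, []⟩
def f855 : Fc := ⟨false, st0, [], ⟨(nat_lit 128), [⟨(nat_lit 0x10000000000000000), (nat_lit 0), (nat_lit 1), (nat_lit 2)⟩, ⟨(nat_lit 0x30000000000000000), (nat_lit 1), (nat_lit 4), (nat_lit 2)⟩], [], false⟩, []⟩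
def f856 : Fc := ⟨false, st0, [], ⟨(nat_lit 128), [⟨(nat_lit 0x10000000000000000), (nat_lit 0), (nat_lit 1), (nat_lit 2)⟩, ⟨(nat_lit 0x30000000000000000), (nat_lit 1), (nat_lit 4), (nat_lit 2)⟩], [⟨(nat_lit 0x50000000000000000), (nat_lit 2), (nat_lit 7), (nat_lit 2)⟩], false⟩, []⟩
def f857 : Fc := ⟨false, st0, [], ⟨(nat_lit 128), [⟨(nat_lit 0x10000000000000000), (nat_lit 0), (nat_lit 1), (nat_lit 2)⟩, ⟨(nat_lit 0x30000000000000000), (nat_lit 1), (nat_lit 4), (nat_lit 2)⟩, ⟨(nat_lit 0x50000000000000000), (nat_lit 2), (nat_lit 7), (nat_lit 2)⟩], [], false⟩, []⟩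
def f858 : Fc := ⟨false, st0, [], ⟨(nat_lit 31104), [⟨(nat_lit 0x10000000000000000), (nat_lit 0), (nat_lit 1), (nat_lit 2)⟩, ⟨(nb (nat_lit 1) (nat_lit 512) (nat_lit 0)), (nat_lit 3), (nat_lit 4), (nat_lit 3)⟩], [⟨(nb (nat_lit 5) (nat_lit 576) (nat_lit 3)), (nb (nat_lit 2) (nat_lit 512) (nb (nat_lit 6) (nat_lit 64) (nat_lit 0))), (nat_lit 16), (nat_lit 6)⟩], false⟩, []⟩
def f859 : Fc := ⟨false, st0, [], ⟨(nat_lit 31104), [⟨(nb (nat_lit 1) (nat_lit 512) (nat_lit 0)), (nat_lit 3), (nat_lit 4), (nat_lit 3)⟩], [⟨(nat_lit 0x30000000000000002), (nat_lit 0), (nat_lit 5), (nat_lit 2)⟩], false⟩, []⟩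
def f860 : Fc := ⟨false, st0, [], ⟨(nat_lit 243), [⟨(nb (nat_lit 1) (nat_lit 512) (nat_lit 0)), (nat_lit 3), (nat_lit 4), (nat_lit 3)⟩], [⟨(nb (nat_lit 1) (nat_lit 512) (nat_lit 0)), (nat_lit 0), (nat_lit 1), (nat_lit 3)⟩], false⟩, []⟩
def f861 : Fc := ⟨false, st0, [], ⟨(nat_lit 128), [⟨(nat_lit 0x10000000000000000), (nat_lit 0), (nat_lit 1), (nat_lit 2)⟩, ⟨(nat_lit 0x30000000000000000), (nat_lit 1), (nat_lit 4), (nat_lit 2)⟩, ⟨(nat_lit 0x50000000000000000), (nat_lit 2), (nat_lit 7), (nat_lit 2)⟩], [⟨(nat_lit 0x10000000000000000), (nat_lit 1), (nat_lit 2), (nat_lit 2)⟩], false⟩, []⟩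
def f862 : Fc := ⟨false, st0, [], ⟨(nat_lit 128), [⟨(nat_lit 0x10000000000000000), (nat_lit 0), (nat_lit 1), (nat_lit 2)⟩, ⟨(nat_lit 0x30000000000000000), (nat_lit 1), (nat_lit 4), (nat_lit 2)⟩, ⟨(nat_lit 0x50000000000000000), (nat_lit 2), (nat_lit 7), (nat_lit 2)⟩], [⟨(nat_lit 0x50000000000000000), (nat_lit 4), (nat_lit 9), (nat_lit 2)⟩], false⟩, []⟩
def f863 : Fc := ⟨false, st0, [], ⟨(nat_lit 128), [⟨(nat_lit 0x10000000000000000), (nat_lit 0), (nat_lit 1), (nat_lit 2)⟩], [⟨(nat_lit 0x30000000000000001), (nat_lit 0), (nat_lit 4), (nat_lit 2)⟩], false⟩, []⟩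
def f864 : Fc := ⟨false, st0, [], ⟨(nat_lit 128), [⟨(nat_lit 0x30000000000000001), (nat_lit 0), (nat_lit 4), (nat_lit 2)⟩, ⟨(nat_lit 0x40000000000000000), (nat_lit 0), (nat_lit 4), (nat_lit 2)⟩], [], false⟩, []⟩
def f865 : Fc := ⟨false, st0, [], ⟨(nat_lit 31104), [⟨(nb (nat_lit 1) (nat_lit 512) (nat_lit 0)), (nat_lit 3), (nat_lit 4), (nat_lit 3)⟩], [⟨(nb (nat_lit 4) (nat_lit 576) (nat_lit 1)), (nat_lit 0x90000000000000000), (nat_lit 14), (nat_lit 6)⟩], false⟩, []⟩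
def f866 : Fc := ⟨false, st0, [], ⟨(nat_lit 128), [⟨(nat_lit 0x10000000000000000), (nat_lit 0), (nat_lit 1), (nat_lit 2)⟩, ⟨(nat_lit 0x30000000000000001), (nat_lit 0), (nat_lit 4), (nat_lit 2)⟩], [⟨(nat_lit 0x90000000000000000), (nat_lit 1), (nat_lit 10), (nat_lit 2)⟩], false⟩, []⟩
def f867 : Fc := ⟨false, st0, [], ⟨(nat_lit 128), [⟨(nat_lit 0x10000000000000000), (nat_lit 0), (nat_lit 1), (nat_lit 2)⟩, ⟨(nat_lit 0x30000000000000001), (nat_lit 0), (nat_lit 4), (nat_lit 2)⟩], [⟨(nat_lit 0x90000000000000001), (nat_lit 0), (nat_lit 10), (nat_lit 2)⟩], false⟩, []⟩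
def f868 : Fc := ⟨false, st0, [], ⟨(nat_lit 30375), [⟨(nb (nat_lit 1) (nat_lit 512) (nat_lit 0)), (nat_lit 3), (nat_lit 4), (nat_lit 3)⟩, ⟨(nb (nat_lit 1) (nat_lit 3072) (nat_lit 0)), (nat_lit 0), (nat_lit 1), (nat_lit 5)⟩], [⟨(nb (nat_lit 2) (nat_lit 3072) (nat_lit 0)), (nat_lit 1), (nat_lit 3), (nat_lit 5)⟩], false⟩, []⟩
def f869 : Fc := ⟨false, st0, [], ⟨(nat_lit 0x3b5380), [⟨(nb (nat_lit 1) (nat_lit 512) (nat_lit 0)), (nat_lit 3), (nat_lit 4), (nat_lit 3)⟩, ⟨(nb (nat_lit 1) (nat_lit 3072) (nat_lit 0)), (nat_lit 0), (nat_lit 1), (nat_lit 5)⟩], [⟨(nat_lit 0x30000000000000001), (nat_lit 0), (nat_lit 4), (nat_lit 2)⟩, ⟨(nb (nat_lit 0x30000000000000001) (nat_lit 3584) (nat_lit 0x30000000000000002)), (nb (nat_lit 0x60000000000000004) (nat_lit 3072) (nat_lit 0)), (nat_lit 19), (nat_lit 30)⟩], false⟩, []⟩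
def f870 : Fc := ⟨false, st0, [], ⟨(nat_lit 0x3b5380), [⟨(nb (nat_lit 1) (nat_lit 512) (nat_lit 0)), (nat_lit 3), (nat_lit 4), (nat_lit 3)⟩], [⟨(nb (nat_lit 1) (nat_lit 3072) (nat_lit 0)), (nat_lit 0), (nat_lit 1), (nat_lit 5)⟩, ⟨(nb (nat_lit 0x30000000000000001) (nat_lit 3584) (nat_lit 0x30000000000000002)), (nb (nat_lit 0x60000000000000004) (nat_lit 3072) (nat_lit 0)), (nat_lit 19), (nat_lit 30)⟩], false⟩, []⟩
def f871 : Fc := ⟨false, st0, [], ⟨(nat_lit 16000), [⟨(nat_lit 0x30000000000000001), (nat_lit 0), (nat_lit 4), (nat_lit 2)⟩], [⟨(nb (nat_lit 1) (nat_lit 3072) (nat_lit 0)), (nat_lit 0), (nat_lit 1), (nat_lit 5)⟩], false⟩, []⟩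
def f872 : Fc := ⟨false, st0, [], ⟨(nat_lit 16000), [⟨(nat_lit 0x30000000000000001), (nat_lit 0), (nat_lit 4), (nat_lit 2)⟩, ⟨(nb (nat_lit 1) (nat_lit 3072) (nat_lit 0)), (nat_lit 0), (nat_lit 1), (nat_lit 5)⟩], [], false⟩, []⟩
def f873 : Fc := ⟨false, st0, [], ⟨(nat_lit 128), [⟨(nat_lit 0x30000000000000002), (nat_lit 0), (nat_lit 5), (nat_lit 2)⟩], [⟨(nat_lit 0x30000000000000000), (nat_lit 1), (nat_lit 4), (nat_lit 2)⟩], false⟩, []⟩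
def f874 : Fc := ⟨false, st0, [], ⟨(nat_lit 128), [⟨(nat_lit 0x30000000000000000), (nat_lit 1), (nat_lit 4), (nat_lit 2)⟩, ⟨(nat_lit 0x30000000000000002), (nat_lit 0), (nat_lit 5), (nat_lit 2)⟩], [], false⟩, []⟩
def f875 : Fc := ⟨false, st0, [], ⟨(nat_lit 128), [⟨(nat_lit 0x30000000000000000), (nat_lit 1), (nat_lit 4), (nat_lit 2)⟩, ⟨(nat_lit 0x30000000000000002), (nat_lit 0), (nat_lit 5), (nat_lit 2)⟩], [⟨(nat_lit 0x30000000000000001), (nat_lit 0), (nat_lit 4), (nat_lit 2)⟩], false⟩, []⟩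
def f876 : Fc := ⟨false, st0, [], ⟨(nat_lit 128), [⟨(nat_lit 0x30000000000000001), (nat_lit 0), (nat_lit 4), (nat_lit 2)⟩, ⟨(nat_lit 0x30000000000000000), (nat_lit 1), (nat_lit 4), (nat_lit 2)⟩, ⟨(nat_lit 0x30000000000000002), (nat_lit 0), (nat_lit 5), (nat_lit 2)⟩], [], false⟩, []⟩
def f877 : Fc := ⟨false, st0, [], ⟨(nat_lit 16000), [⟨(nat_lit 0x30000000000000001), (nat_lit 0), (nat_lit 4), (nat_lit 2)⟩, ⟨(nb (nat_lit 1) (nat_lit 3072) (nat_lit 0)), (nat_lit 0), (nat_lit 1), (nat_lit 5)⟩], [⟨(nb (nat_lit 3) (nat_lit 3136) (nat_lit 0x30000000000000002)), (nb (nat_lit 1) (nat_lit 3072) (nat_lit 0)), (nat_lit 9), (nat_lit 10)⟩], false⟩, []⟩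
def f878 : Fc := ⟨false, st0, [], ⟨(nat_lit 16000), [⟨(nat_lit 0x30000000000000001), (nat_lit 0), (nat_lit 4), (nat_lit 2)⟩, ⟨(nb (nat_lit 1) (nat_lit 3072) (nat_lit 0)), (nat_lit 0), (nat_lit 1), (nat_lit 5)⟩, ⟨(nb (nat_lit 3) (nat_lit 3136) (nat_lit 0x30000000000000002)), (nb (nat_lit 1) (nat_lit 3072) (nat_lit 0)), (nat_lit 9), (nat_lit 10)⟩], [], false⟩, []⟩
def f879 : Fc := ⟨false, st0, [], ⟨(nat_lit 0x3b5380), [⟨(nat_lit 0x30000000000000001), (nat_lit 0), (nat_lit 4), (nat_lit 2)⟩, ⟨(nb (nat_lit 1) (nat_lit 512) (nat_lit 0)), (nat_lit 3), (nat_lit 4), (nat_lit 3)⟩, ⟨(nb (nat_lit 1) (nat_lit 3072) (nat_lit 0)), (nat_lit 0), (nat_lit 1), (nat_lit 5)⟩], [⟨(nb (nat_lit 0x30000000000000001) (nat_lit 3584) (nat_lit 0x30000000000000002)), (nb (nat_lit 0x60000000000000004) (nat_lit 3072) (nat_lit 0)), (nat_lit 19), (nat_lit 30)⟩], false⟩,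 []⟩
def f880 : Fc := ⟨false, st0, [], ⟨(nat_lit 0x3b5380), [⟨(nb (nat_lit 1) (nat_lit 512) (nat_lit 0)), (nat_lit 3), (nat_lit 4), (nat_lit 3)⟩, ⟨(nb (nat_lit 1) (nat_lit 3072) (nat_lit 0)), (nat_lit 0), (nat_lit 1), (nat_lit 5)⟩], [⟨(nb (nat_lit 0x30000000000000001) (nat_lit 3584) (nat_lit 0x30000000000000002)), (nb (nat_lit 0x60000000000000004) (nat_lit 3072) (nat_lit 0)), (nat_lit 19), (nat_lit 30)⟩], false⟩, []⟩
def f881 : Fc := ⟨false, st0, [], ⟨(nat_lit 0x3b5380), [⟨(nb (nat_lit 1) (nat_lit 512) (nat_lit 0)), (nat_lit 3), (nat_lit 4), (nat_lit 3)⟩], [⟨(nb (nat_lit 0x30000000000000001) (nat_lit 3584) (nat_lit 0x30000000000000002)), (nb (nat_lit 0x60000000000000004) (nat_lit 3072) (nat_lit 0)), (nat_lit 19), (nat_lit 30)⟩], false⟩, []⟩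
def f882 : Fc := ⟨false, st0, [], ⟨(nat_lit 128), [⟨(nat_lit 0x10000000000000002), (nat_lit 0), (nat_lit 3), (nat_lit 2)⟩], [⟨(nat_lit 0x30000000000000002), (nat_lit 0), (nat_lit 5), (nat_lit 2)⟩], false⟩, []⟩
def f883 : Fc := ⟨false, st0, [], ⟨(nat_lit 128), [⟨(nat_lit 0x10000000000000002), (nat_lit 0), (nat_lit 3), (nat_lit 2)⟩, ⟨(nat_lit 0x30000000000000002), (nat_lit 0), (nat_lit 5), (nat_lit 2)⟩], [], false⟩, []⟩
def f884 : Fc := ⟨false, st0, [], ⟨(nat_lit 128), [⟨(nat_lit 0x10000000000000002), (nat_lit 0), (nat_lit 3), (nat_lit 2)⟩, ⟨(nat_lit 0x30000000000000002), (nat_lit 0), (nat_lit 5), (nat_lit 2)⟩], [⟨(nat_lit 0x30000000000000000), (nat_lit 1), (nat_lit 4), (nat_lit 2)⟩], false⟩, []⟩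
def f885 : Fc := ⟨false, st0, [], ⟨(nat_lit 128), [⟨(nat_lit 0x10000000000000002), (nat_lit 0), (nat_lit 3), (nat_lit 2)⟩, ⟨(nat_lit 0x30000000000000000), (nat_lit 1), (nat_lit 4), (nat_lit 2)⟩, ⟨(nat_lit 0x30000000000000002), (nat_lit 0), (nat_lit 5), (nat_lit 2)⟩], [], false⟩, []⟩
def f886 : Fc := ⟨false, st0, [], ⟨(nat_lit 128), [⟨(nat_lit 0x10000000000000002), (nat_lit 0), (nat_lit 3), (nat_lit 2)⟩, ⟨(nat_lit 0x30000000000000000), (nat_lit 1), (nat_lit 4), (nat_lit 2)⟩, ⟨(nat_lit 0x30000000000000002), (nat_lit 0), (nat_lit 5), (nat_lit 2)⟩], [⟨(nat_lit 0x30000000000000001), (nat_lit 0), (nat_lit 4), (nat_lit 2)⟩], false⟩, []⟩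
def f887 : Fc := ⟨false, st0, [], ⟨(nat_lit 128), [⟨(nat_lit 0x10000000000000002), (nat_lit 0), (nat_lit 3), (nat_lit 2)⟩, ⟨(nat_lit 0x30000000000000001), (nat_lit 0), (nat_lit 4), (nat_lit 2)⟩, ⟨(nat_lit 0x30000000000000000), (nat_lit 1), (nat_lit 4), (nat_lit 2)⟩, ⟨(nat_lit 0x30000000000000002), (nat_lit 0), (nat_lit 5), (nat_lit 2)⟩], [], false⟩, []⟩
def f888 : Fc := ⟨false, st0, [], ⟨(nat_lit 128), [⟨(nat_lit 0x10000000000000002), (nat_lit 0), (nat_lit 3), (nat_lit 2)⟩, ⟨(nat_lit 0x30000000000000001), (nat_lit 0), (nat_lit 4), (nat_lit 2)⟩, ⟨(nat_lit 0x30000000000000000), (nat_lit 1), (nat_lit 4), (nat_lit 2)⟩, ⟨(nat_lit 0x30000000000000002), (nat_lit 0), (nat_lit 5), (nat_lit 2)⟩], [⟨(nat_lit 0x90000000000000002), (nat_lit 0), (nat_lit 11), (nat_lit 2)⟩], false⟩, []⟩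
def f889 : Fc := ⟨false, st0, [], ⟨(nat_lit 128), [⟨(nat_lit 0x30000000000000001), (nat_lit 0), (nat_lit 4), (nat_lit 2)⟩, ⟨(nat_lit 0x90000000000000002), (nat_lit 0), (nat_lit 11), (nat_lit 2)⟩, ⟨(nat_lit 0x900000000000000030000000000000000), (nat_lit 2), (nat_lit 14), (nat_lit 4)⟩, ⟨(nat_lit 0x9000000000000001200000000000000000000000000000000), (nat_lit 0x10000000000000002), (nat_lit 30), (nat_lit 8)⟩], [], false⟩, []⟩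
def f890 : Fc := ⟨false, st0, [], ⟨(nat_lit 31104), [⟨(nat_lit 0x30000000000000001), (nat_lit 0), (nat_lit 4), (nat_lit 2)⟩, ⟨(nb (nat_lit 1) (nat_lit 512) (nat_lit 0)), (nat_lit 0), (nat_lit 1), (nat_lit 3)⟩, ⟨(nb (nat_lit 3) (nat_lit 576) (nat_lit 0x30000000000000002)), (nb (nat_lit 1) (nat_lit 512) (nat_lit 0)), (nat_lit 9), (nat_lit 6)⟩], [⟨(nb (nat_lit 0x90000000000000003) (nat_lit 576) (nat_lit 0)), (nb (nat_lit 2) (nat_lit 512) (nat_lit 0x90000000000000002)), (nat_lit 25), (nat_lit 12)⟩], false⟩, []⟩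
def f891 : Fc := ⟨false, st0, [], ⟨(nat_lit 128), [⟨(nat_lit 0x10000000000000000), (nat_lit 1), (nat_lit 2), (nat_lit 2)⟩], [⟨(nat_lit 0x30000000000000000), (nat_lit 1), (nat_lit 4), (nat_lit 2)⟩], false⟩, []⟩
def f892 : Fc := ⟨false, st0, [], ⟨(nat_lit 128), [⟨(nat_lit 0x10000000000000000), (nat_lit 1), (nat_lit 2), (nat_lit 2)⟩, ⟨(nat_lit 0x30000000000000000), (nat_lit 1), (nat_lit 4), (nat_lit 2)⟩], [], false⟩, []⟩
def f893 : Fc := ⟨false, st0, [], ⟨(nat_lit 128), [⟨(nat_lit 0x10000000000000000), (nat_lit 1), (nat_lit 2), (nat_lit 2)⟩, ⟨(nat_lit 0x30000000000000000), (nat_lit 1), (nat_lit 4), (nat_lit 2)⟩], [⟨(nat_lit 0x30000000000000001), (nat_lit 0), (nat_lit 4), (nat_lit 2)⟩], false⟩, []⟩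
def f894 : Fc := ⟨false, st0, [], ⟨(nat_lit 128), [⟨(nat_lit 0x10000000000000000), (nat_lit 1), (nat_lit 2), (nat_lit 2)⟩, ⟨(nat_lit 0x30000000000000001), (nat_lit 0), (nat_lit 4), (nat_lit 2)⟩, ⟨(nat_lit 0x30000000000000000), (nat_lit 1), (nat_lit 4), (nat_lit 2)⟩], [], false⟩, []⟩
def f895 : Fc := ⟨false, st0, [], ⟨(nat_lit 128), [⟨(nat_lit 0x10000000000000000), (nat_lit 1), (nat_lit 2), (nat_lit 2)⟩, ⟨(nat_lit 0x30000000000000001), (nat_lit 0), (nat_lit 4), (nat_lit 2)⟩, ⟨(nat_lit 0x30000000000000000), (nat_lit 1), (nat_lit 4), (nat_lit 2)⟩], [⟨(nat_lit 0x90000000000000002), (nat_lit 0), (nat_lit 11), (nat_lit 2)⟩], false⟩, []⟩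
def f896 : Fc := ⟨false, st0, [], ⟨(nat_lit 128), [⟨(nat_lit 0x10000000000000000), (nat_lit 1), (nat_lit 2), (nat_lit 2)⟩, ⟨(nat_lit 0x30000000000000001), (nat_lit 0), (nat_lit 4), (nat_lit 2)⟩, ⟨(nat_lit 0x30000000000000001), (nat_lit 0), (nat_lit 4), (nat_lit 2)⟩, ⟨(nat_lit 0x30000000000000000), (nat_lit 1), (nat_lit 4), (nat_lit 2)⟩, ⟨(nat_lit 0x90000000000000002), (nat_lit 0), (nat_lit 11), (nat_lit 2)⟩], [], false⟩, []⟩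
def f897 : Fc := ⟨false, st0, [], ⟨(nat_lit 31104), [⟨(nat_lit 0x10000000000000000), (nat_lit 1), (nat_lit 2), (nat_lit 2)⟩, ⟨(nat_lit 0x30000000000000001), (nat_lit 0), (nat_lit 4), (nat_lit 2)⟩, ⟨(nb (nat_lit 1) (nat_lit 512) (nat_lit 0)), (nat_lit 0), (nat_lit 1), (nat_lit 3)⟩, ⟨(nb (nat_lit 3) (nat_lit 576) (nat_lit 0x30000000000000002)), (nb (nat_lit 1) (nat_lit 512) (nat_lit 0)), (nat_lit 9), (nat_lit 6)⟩], [⟨(nb (nat_lit 3) (nat_lit 576) (nat_lit 0)), (nb (nat_lit 1) (nat_lit 512) (nat_lit 0x90000000000000002)), (nat_lit 15), (nat_lit 6)⟩], false⟩, []⟩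
def f898 : Fc := ⟨false, st0, [], ⟨(nat_lit 243), [⟨(nb (nat_lit 1) (nat_lit 512) (nat_lit 0)), (nat_lit 0), (nat_lit 1), (nat_lit 3)⟩], [⟨(nb (nat_lit 2) (nat_lit 512) (nat_lit 5)), (nat_lit 0), (nat_lit 7), (nat_lit 3)⟩], false⟩, []⟩
def f899 : Fc := ⟨false, st0, [], ⟨(nat_lit 243), [⟨(nb (nat_lit 1) (nat_lit 512) (nat_lit 0)), (nat_lit 0), (nat_lit 1), (nat_lit 3)⟩, ⟨(nb (nat_lit 2) (nat_lit 512) (nat_lit 5)), (nat_lit 0), (nat_lit 7), (nat_lit 3)⟩], [], false⟩, []⟩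
def f900 : Fc := ⟨false, st0, [], ⟨(nat_lit 31104), [⟨(nat_lit 0x30000000000000001), (nat_lit 0), (nat_lit 4), (nat_lit 2)⟩, ⟨(nb (nat_lit 1) (nat_lit 512) (nat_lit 0)), (nat_lit 0), (nat_lit 1), (nat_lit 3)⟩, ⟨(nb (nat_lit 3) (nat_lit 576) (nat_lit 0x30000000000000002)), (nb (nat_lit 1) (nat_lit 512) (nat_lit 0)), (nat_lit 9), (nat_lit 6)⟩], [⟨(nat_lit 0x10000000000000000), (nat_lit 1), (nat_lit 2), (nat_lit 2)⟩], false⟩, []⟩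
def f901 : Fc := ⟨false, st0, [], ⟨(nat_lit 128), [⟨(nat_lit 0x10000000000000000), (nat_lit 0), (nat_lit 1), (nat_lit 2)⟩, ⟨(nat_lit 0x10000000000000001), (nat_lit 0), (nat_lit 2), (nat_lit 2)⟩, ⟨(nat_lit 0x30000000000000001), (nat_lit 0), (nat_lit 4), (nat_lit 2)⟩, ⟨(nat_lit 0x30000000000000000), (nat_lit 1), (nat_lit 4), (nat_lit 2)⟩], [⟨(nat_lit 0x20000000000000001), (nat_lit 0), (nat_lit 3), (nat_lit 2)⟩], false⟩, []⟩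
def f902 : Fc := ⟨false, st0, [], ⟨(nat_lit 243), [⟨(nb (nat_lit 1) (nat_lit 512) (nat_lit 0)), (nat_lit 0), (nat_lit 1), (nat_lit 3)⟩, ⟨(nb (nat_lit 1) (nat_lit 512) (nat_lit 0)), (nat_lit 2), (nat_lit 3), (nat_lit 3)⟩], [⟨(nb (nat_lit 1) (nat_lit 512) (nat_lit 0)), (nat_lit 1), (nat_lit 2), (nat_lit 3)⟩], false⟩, []⟩
def f903 : Fc := ⟨false, st0, [], ⟨(nat_lit 243), [⟨(nb (nat_lit 1) (nat_lit 512) (nat_lit 0)), (nat_lit 3), (nat_lit 4), (nat_lit 3)⟩], [⟨(nb (nat_lit 1) (nat_lit 512) (nat_lit 7)), (nat_lit 0), (nat_lit 8), (nat_lit 3)⟩], false⟩, []⟩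
def f904 : Fc := ⟨false, st0, [], ⟨(nat_lit 243), [⟨(nb (nat_lit 1) (nat_lit 512) (nat_lit 0)), (nat_lit 3), (nat_lit 4), (nat_lit 3)⟩], [⟨(nb (nat_lit 1) (nat_lit 512) (nat_lit 5)), (nat_lit 0), (nat_lit 6), (nat_lit 3)⟩], false⟩, []⟩
def f905 : Fc := ⟨false, st0, [], ⟨(nat_lit 128), [⟨(nat_lit 0x30000000000000000), (nat_lit 1), (nat_lit 4), (nat_lit 2)⟩, ⟨(nat_lit 0x30000000000000000), (nat_lit 2), (nat_lit 5), (nat_lit 2)⟩], [⟨(nat_lit 0x20000000000000000), (nat_lit 1), (nat_lit 3), (nat_lit 2)⟩], false⟩, []⟩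
def f906 : Fc := ⟨false, st0, [], ⟨(nat_lit 128), [⟨(nat_lit 0x30000000000000000), (nat_lit 1), (nat_lit 4), (nat_lit 2)⟩, ⟨(nat_lit 0x30000000000000000), (nat_lit 1), (nat_lit 4), (nat_lit 2)⟩, ⟨(nat_lit 0x900000000000000000000000000000002), (nat_lit 0x90000000000000000), (nat_lit 20), (nat_lit 4)⟩], [⟨(nat_lit 0x600000000000000000000000000000001), (nat_lit 0x50000000000000000), (nat_lit 12), (nat_lit 4)⟩], false⟩, []⟩
def f907 : Fc := ⟨false, st0, [], ⟨(nat_lit 0x3b5380), [⟨(nat_lit 0x30000000000000000), (nat_lit 1), (nat_lit 4), (nat_lit 2)⟩, ⟨(nb (nat_lit 1) (nat_lit 512) (nat_lit 0)), (nat_lit 3), (nat_lit 4), (nat_lit 3)⟩, ⟨(nb (nat_lit 1) (nat_lit 576) (nat_lit 0)), (nat_lit 1), (nat_lit 2), (nat_lit 6)⟩], [⟨(nb (nat_lit 9) (nat_lit 576) (nat_lit 9)), (nb (nat_lit 4) (nat_lit 512) (nb (nat_lit 18) (nat_lit 64) (nat_lit 0))), (nat_lit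 40), (nat_lit 6)⟩, ⟨(nb (nat_lit 18) (nat_lit 4224) (nb (nat_lit 8) (nat_lit 3584) (nb (nat_lit 36) (nat_lit 3136) (nb (nat_lit 9) (nat_lit 640) (nat_lit 2))))), (nb (nat_lit 8) (nat_lit 4160) (nb (nat_lit 36) (nat_lit 3712) (nb (nat_lit 18) (nat_lit 3072) (nb (nat_lit 4) (nat_lit 576) (nb (nat_lit 0x60000000000000001) (nat_lit 64) (nat_lit 0)))))), (nat_lit 146), (nat_lit 180)⟩], false⟩, []⟩
def f908 : Fc := ⟨false, st0, [], ⟨(nat_lit 128), [⟨(nat_lit 0x30000000000000000), (nat_lit 1), (nat_lit 4), (nat_lit 2)⟩], [⟨(nat_lit 0x10000000000000000), (nat_lit 1), (nat_lit 2), (nat_lit 2)⟩], false⟩, []⟩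
def f909 : Fc := ⟨false, st0, [], ⟨(nat_lit 128), [⟨(nat_lit 0x30000000000000000), (nat_lit 1), (nat_lit 4), (nat_lit 2)⟩, ⟨(nat_lit 0x30000000000000000), (nat_lit 1), (nat_lit 4), (nat_lit 2)⟩], [⟨(nat_lit 0x300000000000000000000000000000001), (nat_lit 0x40000000000000000), (nat_lit 8), (nat_lit 4)⟩], false⟩, []⟩
def f910 : Fc := ⟨false, st0, [], ⟨(nat_lit 0x3b5380), [⟨(nat_lit 0x30000000000000000), (nat_lit 1), (nat_lit 4), (nat_lit 2)⟩, ⟨(nb (nat_lit 1) (nat_lit 512) (nat_lit 0)), (nat_lit 3), (nat_lit 4), (nat_lit 3)⟩], [⟨(nb (nat_lit 1) (nat_lit 576) (nat_lit 0)), (nat_lit 1), (nat_lit 2), (nat_lit 6)⟩, ⟨(nb (nat_lit 18) (nat_lit 4224) (nb (nat_lit 8) (nat_lit 3584) (nb (nat_lit 36) (nat_lit 3136) (nb (nat_lit 9) (nat_lit 640) (nat_lit 2))))), (nb (nat_lit 8) (nat_lit 4160) (nb (nat_lit 36) (nat_lit 3712) (nb (nat_lit 18) (nat_lit 3072)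 (nb (nat_lit 4) (nat_lit 576) (nb (nat_lit 0x60000000000000001) (nat_lit 64) (nat_lit 0)))))), (nat_lit 146), (nat_lit 180)⟩], false⟩, []⟩
def f911 : Fc := ⟨false, st0, [], ⟨(nat_lit 31104), [⟨(nat_lit 0x30000000000000000), (nat_lit 1), (nat_lit 4), (nat_lit 2)⟩], [⟨(nb (nat_lit 1) (nat_lit 512) (nat_lit 0)), (nat_lit 3), (nat_lit 4), (nat_lit 3)⟩], false⟩, []⟩
def f912 : Fc := ⟨false, st0, [], ⟨(nat_lit 31104), [⟨(nat_lit 0x30000000000000000), (nat_lit 1), (nat_lit 4), (nat_lit 2)⟩, ⟨(nb (nat_lit 1) (nat_lit 512) (nat_lit 0)), (nat_lit 3), (nat_lit 4), (nat_lit 3)⟩], [], false⟩, []⟩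
def f913 : Fc := ⟨false, st0, [], ⟨(nat_lit 31104), [⟨(nat_lit 0x30000000000000000), (nat_lit 1), (nat_lit 4), (nat_lit 2)⟩, ⟨(nb (nat_lit 1) (nat_lit 512) (nat_lit 0)), (nat_lit 3), (nat_lit 4), (nat_lit 3)⟩, ⟨(nb (nat_lit 1) (nat_lit 576) (nat_lit 0)), (nat_lit 1), (nat_lit 2), (nat_lit 6)⟩], [], false⟩, []⟩
def f914 : Fc := ⟨false, st0, [], ⟨(nat_lit 31104), [⟨(nat_lit 0x30000000000000000), (nat_lit 1), (nat_lit 4), (nat_lit 2)⟩, ⟨(nb (nat_lit 1) (nat_lit 512) (nat_lit 0)), (nat_lit 3), (nat_lit 4), (nat_lit 3)⟩, ⟨(nb (nat_lit 1) (nat_lit 576) (nat_lit 0)), (nat_lit 1), (nat_lit 2), (nat_lit 6)⟩, ⟨(nb (nat_lit 9) (nat_lit 576) (nat_lit 9)), (nb (nat_lit 4) (nat_lit 512) (nb (nat_lit 18) (nat_lit 64) (nat_lit 0))), (nat_lit 40), (nat_lit 6)⟩], [], false⟩, []⟩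
def f915 : Fc := ⟨false, st0, [], ⟨(nat_lit 0x3b5380), [⟨(nat_lit 0x30000000000000000), (nat_lit 1), (nat_lit 4), (nat_lit 2)⟩, ⟨(nb (nat_lit 1) (nat_lit 512) (nat_lit 0)), (nat_lit 3), (nat_lit 4), (nat_lit 3)⟩, ⟨(nb (nat_lit 1) (nat_lit 576) (nat_lit 0)), (nat_lit 1), (nat_lit 2), (nat_lit 6)⟩, ⟨(nb (nat_lit 9) (nat_lit 576) (nat_lit 9)), (nb (nat_lit 4) (nat_lit 512) (nb (nat_lit 18) (nat_lit 64) (nat_lit 0))), (nat_lit 40), (nat_lit 6)⟩], [⟨(nb (nat_lit 18) (nat_lit 4224) (nb (nat_lit 8) (nat_lit 3584) (nb (nat_lit 36) (nat_lit 3136) (nb (nat_lit 9) (nat_lit 640) (nat_lit 2))))), (nb (nat_lit 8) (nat_lit 4160) (nb (nat_lit 36) (nat_lit 3712) (nb (nat_lit 18) (nat_lit 3072) (nb (nat_lit 4) (nat_lit 576) (nb (nat_lit 0x60000000000000001) (nat_lit 64) (nat_lit 0)))))), (nat_lit 146), (nat_lit 180)⟩], false⟩, []⟩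
def f916 : Fc := ⟨false, st0, [], ⟨(nat_lit 0x3b5380), [⟨(nat_lit 0x30000000000000000), (nat_lit 1), (nat_lit 4), (nat_lit 2)⟩, ⟨(nb (nat_lit 1) (nat_lit 512) (nat_lit 0)), (nat_lit 3), (nat_lit 4), (nat_lit 3)⟩, ⟨(nb (nat_lit 1) (nat_lit 576) (nat_lit 0)), (nat_lit 1), (nat_lit 2), (nat_lit 6)⟩], [⟨(nb (nat_lit 18) (nat_lit 4224) (nb (nat_lit 8) (nat_lit 3584) (nb (nat_lit 36) (nat_lit 3136) (nb (nat_lit 9) (nat_lit 640) (nat_lit 2))))), (nb (nat_lit 8) (nat_lit 4160) (nb (nat_lit 36) (nat_lit 3712) (nb (nat_lit 18) (nat_lit 3072) (nb (nat_lit 4) (nat_lit 576) (nb (nat_lit 0x60000000000000001) (nat_lit 64) (nat_lit 0)))))), (nat_lit 146), (nat_lit 180)⟩], false⟩, []⟩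
def f917 : Fc := ⟨false, st0, [], ⟨(nat_lit 0x3b5380), [⟨(nat_lit 0x30000000000000000), (nat_lit 1), (nat_lit 4), (nat_lit 2)⟩, ⟨(nb (nat_lit 1) (nat_lit 512) (nat_lit 0)), (nat_lit 3), (nat_lit 4), (nat_lit 3)⟩], [⟨(nb (nat_lit 18) (nat_lit 4224) (nb (nat_lit 8) (nat_lit 3584) (nb (nat_lit 36) (nat_lit 3136) (nb (nat_lit 9) (nat_lit 640) (nat_lit 2))))), (nb (nat_lit 8) (nat_lit 4160) (nb (nat_lit 36) (nat_lit 3712) (nb (nat_lit 18) (nat_lit 3072) (nb (nat_lit 4) (nat_lit 576) (nb (nat_lit 0x60000000000000001) (nat_lit 64) (nat_lit 0)))))), (nat_lit 146), (nat_lit 180)⟩], false⟩, []⟩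
def f918 : Fc := ⟨false, st0, [], ⟨(nat_lit 31104), [⟨(nb (nat_lit 1) (nat_lit 512) (nat_lit 0)), (nat_lit 3), (nat_lit 4), (nat_lit 3)⟩], [⟨(nb (nat_lit 2) (nat_lit 576) (nat_lit 1)), (nat_lit 0x60000000000000000), (nat_lit 9), (nat_lit 6)⟩], false⟩, []⟩
def f919 : Fc := ⟨false, st0, [], ⟨(nat_lit 31104), [⟨(nb (nat_lit 1) (nat_lit 512) (nat_lit 0)), (nat_lit 3), (nat_lit 4), (nat_lit 3)⟩], [⟨(nat_lit 0x10000000000000000), (nat_lit 4), (nat_lit 5), (nat_lit 2)⟩], false⟩, []⟩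
def f920 : Fc := ⟨false, st0, [], ⟨(nat_lit 31104), [⟨(nb (nat_lit 1) (nat_lit 512) (nat_lit 0)), (nat_lit 3), (nat_lit 4), (nat_lit 3)⟩], [⟨(nat_lit 0x30000000000000000), (nat_lit 5), (nat_lit 8), (nat_lit 2)⟩], false⟩, []⟩
def f921 : Fc := ⟨false, st0, [], ⟨(nat_lit 243), [⟨(nb (nat_lit 1) (nat_lit 512) (nat_lit 0)), (nat_lit 3), (nat_lit 4), (nat_lit 3)⟩], [⟨(nb (nat_lit 13) (nat_lit 512) (nat_lit 0)), (nat_lit 28), (nat_lit 41), (nat_lit 3)⟩], false⟩, []⟩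
def f922 : Fc := ⟨false, st0, [], ⟨(nat_lit 128), [⟨(nat_lit 0x10000000000000000), (nat_lit 0), (nat_lit 1), (nat_lit 2)⟩], [⟨(nat_lit 0xb000000000000000e), (nat_lit 0), (nat_lit 25), (nat_lit 2)⟩], false⟩, []⟩
def f923 : Fc := ⟨false, st0, [], ⟨(nat_lit 128), [⟨(nat_lit 0xb000000000000000e), (nat_lit 0), (nat_lit 25), (nat_lit 2)⟩, ⟨(nat_lit 0xd0000000000000000), (nat_lit 0), (nat_lit 13), (nat_lit 2)⟩], [], false⟩, []⟩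
def f924 : Fc := ⟨false, st0, [], ⟨(nat_lit 31104), [⟨(nb (nat_lit 1) (nat_lit 512) (nat_lit 0)), (nat_lit 3), (nat_lit 4), (nat_lit 3)⟩], [⟨(nb (nat_lit 13) (nat_lit 576) (nat_lit 14)), (nat_lit 0x1c0000000000000000), (nat_lit 55), (nat_lit 6)⟩], false⟩, []⟩
def f925 : Fc := ⟨false, st0, [], ⟨(nat_lit 128), [⟨(nat_lit 0x10000000000000000), (nat_lit 0), (nat_lit 1), (nat_lit 2)⟩], [⟨(nat_lit 0x70000000000000000), (nat_lit 4), (nat_lit 11), (nat_lit 2)⟩], false⟩, []⟩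
def f926 : Fc := ⟨false, st0, [], ⟨(nat_lit 243), [], [⟨(nb (nat_lit 14) (nat_lit 512) (nat_lit 0)), (nat_lit 1), (nat_lit 15), (nat_lit 3)⟩], false⟩, []⟩
def f927 : Fc := ⟨false, st0, [], ⟨(nat_lit 31104), [], [⟨(nb (nat_lit 0x90000000000000007) (nat_lit 512) (nat_lit 0)), (nat_lit 0x30000000000000002), (nat_lit 21), (nat_lit 6)⟩], false⟩, []⟩
def f928 : Fc := ⟨false, st0, [], ⟨(nat_lit 128), [⟨(nat_lit 0x30000000000000000), (nat_lit 1), (nat_lit 4), (nat_lit 2)⟩], [⟨(nat_lit 0x30000000000000002), (nat_lit 0), (nat_lit 5), (nat_lit 2)⟩], false⟩, []⟩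
def f929 : Fc := ⟨false, st0, [], ⟨(nat_lit 128), [⟨(nat_lit 0x30000000000000000), (nat_lit 1), (nat_lit 4), (nat_lit 2)⟩], [⟨(nat_lit 0x70000000000000000), (nat_lit 2), (nat_lit 9), (nat_lit 2)⟩], false⟩, []⟩
def f930 : Fc := ⟨false, st0, [], ⟨(nat_lit 128), [⟨(nat_lit 0x30000000000000000), (nat_lit 1), (nat_lit 4), (nat_lit 2)⟩], [⟨(nat_lit 0x10000000000000000), (nat_lit 0), (nat_lit 1), (nat_lit 2)⟩], false⟩, []⟩
def f931 : Fc := ⟨false, st0, [], ⟨(nat_lit 31104), [⟨(nat_lit 0x30000000000000000), (nat_lit 1), (nat_lit 4), (nat_lit 2)⟩], [⟨(nb (nat_lit 0x30000000000000002) (nat_lit 512) (nat_lit 0)), (nat_lit 1), (nat_lit 6), (nat_lit 6)⟩], false⟩, []⟩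
def f932 : Fc := ⟨false, st0, [], ⟨(nat_lit 128), [⟨(nat_lit 0x30000000000000000), (nat_lit 1), (nat_lit 4), (nat_lit 2)⟩, ⟨(nat_lit 0x30000000000000002), (nat_lit 0), (nat_lit 5), (nat_lit 2)⟩], [⟨(nat_lit 0x10000000000000002), (nat_lit 0), (nat_lit 3), (nat_lit 2)⟩], false⟩, []⟩
def f933 : Fc := ⟨false, st0, [], ⟨(nat_lit 128), [⟨(nat_lit 0x30000000000000000), (nat_lit 1), (nat_lit 4), (nat_lit 2)⟩, ⟨(nat_lit 0x30000000000000002), (nat_lit 0), (nat_lit 5), (nat_lit 2)⟩], [⟨(nat_lit 0x10000000000000000), (nat_lit 1), (nat_lit 2), (nat_lit 2)⟩], false⟩, []⟩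
def f934 : Fc := ⟨false, st0, [], ⟨(nat_lit 128), [⟨(nat_lit 0x30000000000000000), (nat_lit 1), (nat_lit 4), (nat_lit 2)⟩, ⟨(nat_lit 0x70000000000000000), (nat_lit 2), (nat_lit 9), (nat_lit 2)⟩], [], false⟩, []⟩
def f935 : Fc := ⟨false, st0, [], ⟨(nat_lit 31104), [⟨(nat_lit 0x30000000000000000), (nat_lit 1), (nat_lit 4), (nat_lit 2)⟩], [⟨(nb (nat_lit 7) (nat_lit 576) (nat_lit 0)), (nb (nat_lit 2) (nat_lit 512) (nat_lit 6)), (nat_lit 15), (nat_lit 6)⟩], false⟩, []⟩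
def f936 : Fc := ⟨false, st0, [], ⟨(nat_lit 128), [⟨(nat_lit 0x30000000000000000), (nat_lit 1), (nat_lit 4), (nat_lit 2)⟩], [⟨(nat_lit 0x10000000000000000), (nat_lit 4), (nat_lit 5), (nat_lit 2)⟩], false⟩, []⟩
def f937 : Fc := ⟨false, st0, [], ⟨(nat_lit 128), [⟨(nat_lit 0x30000000000000000), (nat_lit 1), (nat_lit 4), (nat_lit 2)⟩], [⟨(nat_lit 0x30000000000000000), (nat_lit 5), (nat_lit 8), (nat_lit 2)⟩], false⟩, []⟩
def f938 : Fc := ⟨false, st0, [], ⟨(nat_lit 31104), [], [⟨(nb (nat_lit 63) (nat_lit 512) (nat_lit 0x240000000000000014)), (nat_lit 0), (nat_lit 119), (nat_lit 6)⟩], false⟩, []⟩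
def f939 : Fc := ⟨false, st0, [], ⟨(nat_lit 31104), [], [⟨(nb (nat_lit 9) (nat_lit 512) (nat_lit 0xc0000000000000004)), (nat_lit 0), (nat_lit 25), (nat_lit 6)⟩], false⟩, []⟩
def f940 : Fc := ⟨false, st0, [], ⟨(nat_lit 128), [], [⟨(nat_lit 0xf0000000000000008), (nat_lit 0), (nat_lit 23), (nat_lit 2)⟩], false⟩, []⟩
def f941 : Fc := ⟨false, st0, [], ⟨(nat_lit 128), [], [⟨(nat_lit 0xf000000000000000b), (nat_lit 0), (nat_lit 26), (nat_lit 2)⟩], false⟩, []⟩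
def f942 : Fc := ⟨false, st0, [], ⟨(nat_lit 31104), [], [⟨(nb (nat_lit 0x30000000000000004) (nat_lit 512) (nat_lit 4)), (nat_lit 0x10000000000000000), (nat_lit 12), (nat_lit 6)⟩], false⟩, []⟩
def f943 : Fc := ⟨false, st0, [], ⟨(nat_lit 16000), [], [⟨(nb (nat_lit 1) (nat_lit 3136) (nat_lit 0)), (nb (nat_lit 4) (nat_lit 3072) (nat_lit 1)), (nat_lit 6), (nat_lit 10)⟩], false⟩, []⟩
def f944 : Fc := ⟨false, st0, [], ⟨(nat_lit 16000), [], [⟨(nb (nat_lit 3) (nat_lit 3136) (nat_lit 0)), (nb (nat_lit 5) (nat_lit 3072) (nat_lit 3)), (nat_lit 11), (nat_lit 10)⟩], false⟩, []⟩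
def f945 : Fc := ⟨false, st0, [], ⟨(nat_lit 128), [], [⟨(nat_lit 0xe0000000000000003), (nat_lit 0), (nat_lit 17), (nat_lit 2)⟩], false⟩, []⟩
def f946 : Fc := ⟨false, st0, [], ⟨(nat_lit 31104), [⟨(nat_lit 0x10000000000000000), (nat_lit 4), (nat_lit 5), (nat_lit 2)⟩], [⟨(nb (nat_lit 1) (nat_lit 512) (nat_lit 0)), (nat_lit 3), (nat_lit 4), (nat_lit 3)⟩], false⟩, []⟩
def f947 : Fc := ⟨false, st0, [], ⟨(nat_lit 31104), [⟨(nat_lit 0x10000000000000000), (nat_lit 4), (nat_lit 5), (nat_lit 2)⟩, ⟨(nb (nat_lit 1) (nat_lit 512) (nat_lit 0)), (nat_lit 3), (nat_lit 4), (nat_lit 3)⟩], [], false⟩, []⟩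
def f948 : Fc := ⟨false, st0, [], ⟨(nat_lit 0x3b5380), [⟨(nb (nat_lit 1) (nat_lit 512) (nat_lit 0)), (nat_lit 3), (nat_lit 4), (nat_lit 3)⟩], [⟨(nb (nat_lit 1) (nat_lit 3136) (nat_lit 0)), (nb (nat_lit 4) (nat_lit 3072) (nat_lit 1)), (nat_lit 6), (nat_lit 10)⟩], false⟩, []⟩
def f949 : Fc := ⟨false, st0, [], ⟨(nat_lit 31104), [⟨(nat_lit 0x30000000000000000), (nat_lit 5), (nat_lit 8), (nat_lit 2)⟩], [⟨(nb (nat_lit 1) (nat_lit 512) (nat_lit 0)), (nat_lit 3), (nat_lit 4), (nat_lit 3)⟩], false⟩, []⟩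
def f950 : Fc := ⟨false, st0, [], ⟨(nat_lit 31104), [⟨(nat_lit 0x30000000000000000), (nat_lit 5), (nat_lit 8), (nat_lit 2)⟩, ⟨(nb (nat_lit 1) (nat_lit 512) (nat_lit 0)), (nat_lit 3), (nat_lit 4), (nat_lit 3)⟩], [], false⟩, []⟩
def f951 : Fc := ⟨false, st0, [], ⟨(nat_lit 0x3b5380), [⟨(nb (nat_lit 1) (nat_lit 512) (nat_lit 0)), (nat_lit 3), (nat_lit 4), (nat_lit 3)⟩], [⟨(nb (nat_lit 3) (nat_lit 3136) (nat_lit 0)), (nb (nat_lit 5) (nat_lit 3072) (nat_lit 3)), (nat_lit 11), (nat_lit 10)⟩], false⟩, []⟩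
def f952 : Fc := ⟨false, st0, [], ⟨(nat_lit 128), [⟨(nat_lit 0x10000000000000000), (nat_lit 4), (nat_lit 5), (nat_lit 2)⟩, ⟨(nat_lit 0x30000000000000000), (nat_lit 1), (nat_lit 4), (nat_lit 2)⟩], [], false⟩, []⟩
def f953 : Fc := ⟨false, st0, [], ⟨(nat_lit 31104), [⟨(nat_lit 0x30000000000000000), (nat_lit 1), (nat_lit 4), (nat_lit 2)⟩], [⟨(nb (nat_lit 1) (nat_lit 576) (nat_lit 0)), (nb (nat_lit 4) (nat_lit 512) (nat_lit 1)), (nat_lit 6), (nat_lit 6)⟩], false⟩, []⟩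
def f954 : Fc := ⟨false, st0, [], ⟨(nat_lit 128), [⟨(nat_lit 0x30000000000000000), (nat_lit 1), (nat_lit 4), (nat_lit 2)⟩, ⟨(nat_lit 0x30000000000000000), (nat_lit 5), (nat_lit 8), (nat_lit 2)⟩], [], false⟩, []⟩
def f955 : Fc := ⟨false, st0, [], ⟨(nat_lit 31104), [⟨(nat_lit 0x30000000000000000), (nat_lit 1), (nat_lit 4), (nat_lit 2)⟩], [⟨(nb (nat_lit 3) (nat_lit 576) (nat_lit 0)), (nb (nat_lit 5) (nat_lit 512) (nat_lit 3)), (nat_lit 11), (nat_lit 6)⟩], false⟩, []⟩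
def f956 : Fc := ⟨true, ⟨[[e0], [e1], [e2], [e3], [e4], [e5, e6]], [], [], (nat_lit 7), (nat_lit 0x3c03ff), (nat_lit 0), (nat_lit 9), (nat_lit 7)⟩, [⟨(nat_lit 162), (nat_lit 0)⟩, ⟨(nat_lit 193), (nat_lit 0)⟩], ⟨(nat_lit 1), [], [], true⟩, []⟩
def f957 : Fc := ⟨true, ⟨[[e0], [e1], [e2], [e3], [e4], [e5, e6]], [], [], (nat_lit 7), (nat_lit 0x3c03ff), (nat_lit 0), (nat_lit 9), (nat_lit 7)⟩, [], ⟨(nat_lit 1), [], [], true⟩, []⟩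
def f958 : Fc := ⟨true, ⟨[[e1], [e2], [e3], [e4], [e5, e6]], [], [], (nat_lit 6), (nat_lit 787455), (nat_lit 0), (nat_lit 10), (nat_lit 6)⟩, [], ⟨(nat_lit 1), [], [], true⟩, []⟩
def f959 : Fc := ⟨true, ⟨[[e7], [e2], [e3], [e4], [e5, e6]], [], [], (nat_lit 6), (nat_lit 787455), (nat_lit 0), (nat_lit 10), (nat_lit 6)⟩, [], ⟨(nat_lit 1), [], [], true⟩, []⟩
def f960 : Fc := ⟨true, ⟨[[e8, e9], [e7, e10], [e2], [e3], [e4], [e5, e6]], [e11, e12], [], (nat_lit 11), (nat_lit 0x3ffc03ff), (nat_lit 0), (nat_lit 5), (nat_lit 7)⟩, [⟨(nat_lit 193), (nat_lit 0)⟩], ⟨(nat_lit 1), [], [], true⟩, []⟩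
def f961 : Fc := ⟨true, ⟨[[e8, e9], [e7, e10], [e2], [e3], [e4], [e5, e6]], [e13], [], (nat_lit 10), (nat_lit 0xffc03ff), (nat_lit 0), (nat_lit 6), (nat_lit 7)⟩, [⟨(nat_lit 193), (nat_lit 0)⟩], ⟨(nat_lit 128), [], [], true⟩, []⟩
def f962 : Fc := ⟨true, ⟨[[e8, e9], [e7, e10], [e2], [e3], [e4], [e5, e6]], [e14, e15, e16], [], (nat_lit 12), (nat_lit 0xfffc03ff), (nat_lit 0), (nat_lit 4), (nat_lit 7)⟩, [⟨(nat_lit 193), (nat_lit 0)⟩], ⟨(nat_lit 1), [], [], true⟩, []⟩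
def f963 : Fc := ⟨true, ⟨[[e8, e9], [e7, e10], [e2], [e3], [e4], [e5, e6]], [e17, e16], [], (nat_lit 11), (nat_lit 0x3ffc03ff), (nat_lit 0), (nat_lit 5), (nat_lit 7)⟩, [⟨(nat_lit 193), (nat_lit 0)⟩], ⟨(nat_lit 128), [], [], true⟩, []⟩
def f964 : Fc := ⟨true, ⟨[[e8, e9], [e7, e10], [e2], [e3], [e4], [e5, e6]], [e16], [], (nat_lit 10), (nat_lit 0xffc03ff), (nat_lit 0), (nat_lit 6), (nat_lit 7)⟩, [⟨(nat_lit 162), (nat_lit 0)⟩, ⟨(nat_lit 193), (nat_lit 0)⟩], ⟨(nat_lit 1), [], [], true⟩, []⟩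
def f965 : Fc := ⟨true, ⟨[[e8, e9], [e7, e10], [e2], [e3], [e4], [e5, e6]], [], [], (nat_lit 9), (nat_lit 0x3fc03ff), (nat_lit 0), (nat_lit 7), (nat_lit 7)⟩, [], ⟨(nat_lit 1), [], [], true⟩, []⟩
def f966 : Fc := ⟨true, ⟨[[e7, e10], [e2], [e3], [e4], [e5, e6]], [], [], (nat_lit 7), (nat_lit 0x3c03ff), (nat_lit 0), (nat_lit 9), (nat_lit 6)⟩, [], ⟨(nat_lit 1), [], [], true⟩, []⟩
def f967 : Fc := ⟨true, ⟨[[e2], [e3], [e4], [e5, e6]], [], [], (nat_lit 5), (nat_lit 1023), (nat_lit 0), (nat_lit 11), (nat_lit 5)⟩, [], ⟨(nat_lit 1), [], [], true⟩, []⟩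
def f968 : Fc := ⟨true, ⟨[[e3], [e4], [e5, e6]], [], [], (nat_lit 4), (nat_lit 255), (nat_lit 0), (nat_lit 12), (nat_lit 4)⟩, [], ⟨(nat_lit 1), [], [], true⟩, []⟩
def f969 : Fc := ⟨true, ⟨[[e18], [e19], [e20], [e4], [e5, e6]], [], [], (nat_lit 6), (nat_lit 801855), (nat_lit 0), (nat_lit 10), (nat_lit 6)⟩, [], ⟨(nat_lit 1), [], [], true⟩, []⟩
def f970 : Fc := ⟨true, ⟨[[e21, e22], [e23], [e24], [e19], [e20], [e4], [e5, e6]], [e25], [], (nat_lit 10), (nat_lit 0xffc3c3f), (nat_lit 0), (nat_lit 6), (nat_lit 8)⟩, [⟨(nat_lit 70), (nat_lit 0)⟩], ⟨(nat_lit 1), [], [], true⟩, []⟩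
def f971 : Fc := ⟨true, ⟨[[e21, e22], [e23], [e24], [e19], [e20], [e4], [e5, e6]], [], [], (nat_lit 9), (nat_lit 0x3fc3c3f), (nat_lit 0), (nat_lit 7), (nat_lit 8)⟩, [], ⟨(nat_lit 1), [], [], true⟩, []⟩
def f972 : Fc := ⟨true, ⟨[[e23], [e24], [e19], [e20], [e4], [e5, e6]], [], [], (nat_lit 7), (nat_lit 0x3c3c3f), (nat_lit 0), (nat_lit 9), (nat_lit 7)⟩, [], ⟨(nat_lit 1), [], [], true⟩, []⟩
def f973 : Fc := ⟨true, ⟨[[e24], [e19], [e20], [e4], [e5, e6]], [], [], (nat_lit 6), (nat_lit 801855), (nat_lit 0), (nat_lit 10), (nat_lit 6)⟩, [], ⟨(nat_lit 1), [], [], true⟩, []⟩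
def f974 : Fc := ⟨true, ⟨[[e26, e27], [e24, e28], [e19], [e20], [e4], [e5, e6]], [], [], (nat_lit 9), (nat_lit 0x3fc3c3f), (nat_lit 0), (nat_lit 7), (nat_lit 7)⟩, [⟨(nat_lit 69), (nat_lit 0)⟩, ⟨(nat_lit 100), (nat_lit 0)⟩], ⟨(nat_lit 1), [], [], true⟩, []⟩
def f975 : Fc := ⟨true, ⟨[[e29, e30, e31], [e26, e27], [e24, e28], [e19], [e20], [e4], [e5, e6]], [], [], (nat_lit 12), (nat_lit 0xfffc3c3f), (nat_lit 0), (nat_lit 4), (nat_lit 8)⟩, [], ⟨(nat_lit 1), [], [], true⟩, []⟩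
def f976 : Fc := ⟨true, ⟨[[e26, e27], [e24, e28], [e19], [e20], [e4], [e5, e6]], [e31, e30, e29], [], (nat_lit 12), (nat_lit 0xfffc3c3f), (nat_lit 0), (nat_lit 4), (nat_lit 7)⟩, [⟨(nat_lit 100), (nat_lit 0)⟩], ⟨(nat_lit 1), [], [], true⟩, []⟩
def f977 : Fc := ⟨true, ⟨[[e29, e32], [e26, e27], [e24, e28], [e19], [e20], [e4], [e5, e6]], [], [], (nat_lit 11), (nat_lit 0x3ffc3c3f), (nat_lit 0), (nat_lit 5), (nat_lit 8)⟩, [⟨(nat_lit 39), (nat_lit 0)⟩, ⟨(nat_lit 101), (nat_lit 0)⟩, ⟨(nat_lit 70), (nat_lit 0)⟩], ⟨(nat_lit 128), [], [], true⟩, []⟩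
def f978 : Fc := ⟨true, ⟨[[e29, e32], [e26, e27], [e24, e28], [e19], [e20], [e4], [e5, e6]], [], [], (nat_lit 11), (nat_lit 0x3ffc3c3f), (nat_lit 0), (nat_lit 5), (nat_lit 8)⟩, [], ⟨(nat_lit 128), [], [], true⟩, []⟩
def f979 : Fc := ⟨true, ⟨[[e26, e27], [e24, e28], [e19], [e20], [e4], [e5, e6]], [e32, e29], [], (nat_lit 11), (nat_lit 0x3ffc3c3f), (nat_lit 0), (nat_lit 5), (nat_lit 7)⟩, [⟨(nat_lit 100), (nat_lit 0)⟩], ⟨(nat_lit 128), [], [], true⟩, []⟩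
def f980 : Fc := ⟨true, ⟨[[e26, e27], [e24, e28], [e19], [e20], [e4], [e5, e6]], [e29], [], (nat_lit 10), (nat_lit 0xffc3c3f), (nat_lit 0), (nat_lit 6), (nat_lit 7)⟩, [⟨(nat_lit 69), (nat_lit 0)⟩, ⟨(nat_lit 100), (nat_lit 0)⟩], ⟨(nat_lit 1), [], [], true⟩, []⟩
def f981 : Fc := ⟨true, ⟨[[e26, e27], [e24, e28], [e19], [e20], [e4], [e5, e6]], [], [], (nat_lit 9), (nat_lit 0x3fc3c3f), (nat_lit 0), (nat_lit 7), (nat_lit 7)⟩, [], ⟨(nat_lit 1), [], [], true⟩, []⟩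
def f982 : Fc := ⟨true, ⟨[[e24, e28], [e19], [e20], [e4], [e5, e6]], [], [], (nat_lit 7), (nat_lit 0x3c3c3f), (nat_lit 0), (nat_lit 9), (nat_lit 6)⟩, [⟨(nat_lit 37), (nat_lit 0)⟩, ⟨(nat_lit 68), (nat_lit 0)⟩], ⟨(nat_lit 1), [], [], true⟩, []⟩
def f983 : Fc := ⟨true, ⟨[[e24, e28], [e19], [e20], [e4], [e5, e6]], [], [], (nat_lit 7), (nat_lit 0x3c3c3f), (nat_lit 0), (nat_lit 9), (nat_lit 6)⟩, [], ⟨(nat_lit 1), [], [], true⟩, []⟩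
def f984 : Fc := ⟨true, ⟨[[e19], [e20], [e4], [e5, e6]], [], [], (nat_lit 5), (nat_lit 15423), (nat_lit 0), (nat_lit 11), (nat_lit 5)⟩, [], ⟨(nat_lit 1), [], [], true⟩, []⟩
def f985 : Fc := ⟨true, ⟨[[e20], [e4], [e5, e6]], [], [], (nat_lit 4), (nat_lit 3135), (nat_lit 0), (nat_lit 12), (nat_lit 4)⟩, [], ⟨(nat_lit 1), [], [], true⟩, []⟩
def f986 : Fc := ⟨true, ⟨[[e1], [e2], [e3, e20], [e4], [e5, e6]], [], [], (nat_lit 7), (nat_lit 790527), (nat_lit 0), (nat_lit 9), (nat_lit 6)⟩, [], ⟨(nat_lit 1), [], [], true⟩, []⟩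
def f987 : Fc := ⟨true, ⟨[[e7], [e2], [e3, e20], [e4], [e5, e6]], [], [], (nat_lit 7), (nat_lit 790527), (nat_lit 0), (nat_lit 9), (nat_lit 6)⟩, [], ⟨(nat_lit 1), [], [], true⟩, []⟩
def f988 : Fc := ⟨true, ⟨[[e8, e9], [e7, e10], [e2], [e3, e20], [e4], [e5, e6]], [e13], [], (nat_lit 11), (nat_lit 0xffc0fff), (nat_lit 0), (nat_lit 5), (nat_lit 7)⟩, [⟨(nat_lit 193), (nat_lit 0)⟩], ⟨(nat_lit 128), [], [], true⟩, []⟩
def f989 : Fc := ⟨true, ⟨[[e8, e9], [e7, e10], [e2], [e3, e20], [e4], [e5, e6]], [e17, e16], [], (nat_lit 12), (nat_lit 0x3ffc0fff), (nat_lit 0), (nat_lit 4), (nat_lit 7)⟩, [⟨(nat_lit 193), (nat_lit 0)⟩], ⟨(nat_lit 128), [], [], true⟩, []⟩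
def f990 : Fc := ⟨true, ⟨[[e8, e9], [e7, e10], [e2], [e3, e20], [e4], [e5, e6]], [], [], (nat_lit 10), (nat_lit 0x3fc0fff), (nat_lit 0), (nat_lit 6), (nat_lit 7)⟩, [⟨(nat_lit 131), (nat_lit 0)⟩, ⟨(nat_lit 193), (nat_lit 0)⟩, ⟨(nat_lit 162), (nat_lit 0)⟩], ⟨(nat_lit 1), [], [], true⟩, []⟩
def f991 : Fc := ⟨true, ⟨[[e8, e9], [e7, e10], [e2], [e3, e20], [e4], [e5, e6]], [], [], (nat_lit 10), (nat_lit 0x3fc0fff), (nat_lit 0), (nat_lit 6), (nat_lit 7)⟩, [], ⟨(nat_lit 1), [], [], true⟩, []⟩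
def f992 : Fc := ⟨true, ⟨[[e2], [e3, e20], [e4], [e5, e6]], [], [], (nat_lit 6), (nat_lit 4095), (nat_lit 0), (nat_lit 10), (nat_lit 5)⟩, [], ⟨(nat_lit 1), [], [], true⟩, []⟩
def f993 : Fc := ⟨true, ⟨[[e33], [e3, e20], [e4], [e5, e6]], [], [], (nat_lit 6), (nat_lit 52479), (nat_lit 0), (nat_lit 10), (nat_lit 5)⟩, [], ⟨(nat_lit 1), [], [], true⟩, []⟩
def f994 : Fc := ⟨true, ⟨[[e8, e9], [e7, e10], [e2, e33], [e3, e20], [e4], [e5, e6]], [], [], (nat_lit 11), (nat_lit 0x3fccfff), (nat_lit 0), (nat_lit 5), (nat_lit 7)⟩, [⟨(nat_lit 162), (nat_lit 0)⟩, ⟨(nat_lit 193), (nat_lit 0)⟩], ⟨(nat_lit 1), [], [], true⟩, []⟩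
def f995 : Fc := ⟨true, ⟨[[e8, e9], [e7, e10], [e2, e33], [e3, e20], [e4], [e5, e6]], [], [], (nat_lit 11), (nat_lit 0x3fccfff), (nat_lit 0), (nat_lit 5), (nat_lit 7)⟩, [], ⟨(nat_lit 1), [], [], true⟩, []⟩
def f996 : Fc := ⟨true, ⟨[[e7, e34], [e2, e33], [e3, e20], [e4], [e5, e6]], [], [], (nat_lit 9), (nat_lit 0x3ccfff), (nat_lit 0), (nat_lit 7), (nat_lit 6)⟩, [], ⟨(nat_lit 1), [], [], true⟩, []⟩
def f997 : Fc := ⟨true, ⟨[[e7, e34, e35], [e2, e33], [e3, e20], [e4], [e5, e6]], [e36], [], (nat_lit 11), (nat_lit 0x3fccfff), (nat_lit 0), (nat_lit 5), (nat_lit 6)⟩, [⟨(nat_lit 161), (nat_lit 0)⟩], ⟨(nat_lit 1), [], [], true⟩, []⟩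
def f998 : Fc := ⟨true, ⟨[[e36, e37], [e7, e34, e35], [e2, e33], [e3, e20], [e4], [e5, e6]], [], [], (nat_lit 12), (nat_lit 0xffccfff), (nat_lit 0), (nat_lit 4), (nat_lit 7)⟩, [], ⟨(nat_lit 1), [], [], true⟩, []⟩
def f999 : Fc := ⟨true, ⟨[[e7, e34, e35], [e2, e33], [e3, e20], [e4], [e5, e6]], [e37, e36], [], (nat_lit 12), (nat_lit 0xffccfff), (nat_lit 0), (nat_lit 4), (nat_lit 6)⟩, [⟨(nat_lit 161), (nat_lit 0)⟩], ⟨(nat_lit 1), [], [], true⟩, []⟩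
def f1000 : Fc := ⟨true, ⟨[[e38, e39], [e7, e34, e35], [e2, e33], [e3, e20], [e4], [e5, e6]], [], [], (nat_lit 12), (nat_lit 0xffccfff), (nat_lit 0), (nat_lit 4), (nat_lit 7)⟩, [⟨(nat_lit 131), (nat_lit 0)⟩, ⟨(nat_lit 193), (nat_lit 0)⟩, ⟨(nat_lit 162), (nat_lit 0)⟩], ⟨(nat_lit 128), [], [], true⟩, []⟩
def f1001 : Fc := ⟨true, ⟨[[e38, e39], [e7, e34, e35], [e2, e33], [e3, e20], [e4], [e5, e6]], [], [], (nat_lit 12), (nat_lit 0xffccfff), (nat_lit 0), (nat_lit 4), (nat_lit 7)⟩, [], ⟨(nat_lit 128), [], [], true⟩, []⟩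
def f1002 : Fc := ⟨true, ⟨[[e7, e34, e35], [e2, e33], [e3, e20], [e4], [e5, e6]], [], [], (nat_lit 10), (nat_lit 0xfccfff), (nat_lit 0), (nat_lit 6), (nat_lit 6)⟩, [⟨(nat_lit 130), (nat_lit 0)⟩, ⟨(nat_lit 161), (nat_lit 0)⟩], ⟨(nat_lit 1), [], [], true⟩, []⟩
def f1003 : Fc := ⟨true, ⟨[[e7, e34, e35], [e2, e33], [e3, e20], [e4], [e5, e6]], [e40, e41], [], (nat_lit 12), (nat_lit 0xffccfff), (nat_lit 0), (nat_lit 4), (nat_lit 6)⟩, [⟨(nat_lit 161), (nat_lit 0)⟩], ⟨(nat_lit 1), [], [], true⟩, []⟩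
def f1004 : Fc := ⟨true, ⟨[[e41, e40, e42], [e7, e34, e35], [e2, e33], [e3, e20], [e4], [e5, e6]], [], [], (nat_lit 13), (nat_lit 0x3ffccfff), (nat_lit 0), (nat_lit 3), (nat_lit 7)⟩, [⟨(nat_lit 131), (nat_lit 0)⟩, ⟨(nat_lit 162), (nat_lit 0)⟩], ⟨(nat_lit 1), [], [], true⟩, []⟩
def f1005 : Fc := ⟨true, ⟨[[e41, e40, e42], [e7, e34, e35], [e2, e33], [e3, e20], [e4], [e5, e6]], [], [], (nat_lit 13), (nat_lit 0x3ffccfff), (nat_lit 0), (nat_lit 3), (nat_lit 7)⟩, [], ⟨(nat_lit 1), [], [], true⟩, []⟩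
def f1006 : Fc := ⟨true, ⟨[[e41, e43], [e7, e34, e35], [e2, e33], [e3, e20], [e4], [e5, e6]], [e44], [], (nat_lit 13), (nat_lit 0x3ffccfff), (nat_lit 0), (nat_lit 3), (nat_lit 7)⟩, [⟨(nat_lit 162), (nat_lit 0)⟩], ⟨(nat_lit 31104), [], [], true⟩, []⟩
def f1007 : Fc := ⟨true, ⟨[[e41, e43], [e7, e34, e35], [e2, e33], [e3, e20], [e4], [e5, e6]], [], [], (nat_lit 12), (nat_lit 0xffccfff), (nat_lit 0), (nat_lit 4), (nat_lit 7)⟩, [⟨(nat_lit 131), (nat_lit 0)⟩, ⟨(nat_lit 162), (nat_lit 0)⟩], ⟨(nat_lit 128), [], [], true⟩, []⟩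
def f1008 : Fc := ⟨true, ⟨[[e41, e43], [e7, e34, e35], [e2, e33], [e3, e20], [e4], [e5, e6]], [], [], (nat_lit 12), (nat_lit 0xffccfff), (nat_lit 0), (nat_lit 4), (nat_lit 7)⟩, [], ⟨(nat_lit 128), [], [], true⟩, []⟩
def f1009 : Fc := ⟨true, ⟨[[e41, e43, e45], [e7, e34, e35], [e2, e33], [e3, e20], [e4], [e5, e6]], [], [], (nat_lit 13), (nat_lit 0x3ffccfff), (nat_lit 0), (nat_lit 3), (nat_lit 7)⟩, [⟨(nat_lit 131), (nat_lit 0)⟩, ⟨(nat_lit 193), (nat_lit 0)⟩, ⟨(nat_lit 162), (nat_lit 0)⟩], ⟨(nat_lit 128), [], [], true⟩, []⟩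
def f1010 : Fc := ⟨true, ⟨[[e41, e43, e45], [e7, e34, e35], [e2, e33], [e3, e20], [e4], [e5, e6]], [], [], (nat_lit 13), (nat_lit 0x3ffccfff), (nat_lit 0), (nat_lit 3), (nat_lit 7)⟩, [], ⟨(nat_lit 128), [], [], true⟩, []⟩
def f1011 : Fc := ⟨true, ⟨[[e7, e34, e35], [e2, e33], [e3, e20], [e4], [e5, e6]], [e41], [], (nat_lit 11), (nat_lit 0x3fccfff), (nat_lit 0), (nat_lit 5), (nat_lit 6)⟩, [⟨(nat_lit 130), (nat_lit 0)⟩, ⟨(nat_lit 161), (nat_lit 0)⟩], ⟨(nat_lit 1), [], [], true⟩, []⟩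
def f1012 : Fc := ⟨true, ⟨[[e7, e34, e35], [e2, e33], [e3, e20], [e4], [e5, e6]], [], [], (nat_lit 10), (nat_lit 0xfccfff), (nat_lit 0), (nat_lit 6), (nat_lit 6)⟩, [], ⟨(nat_lit 1), [], [], true⟩, []⟩
def f1013 : Fc := ⟨true, ⟨[[e46, e9], [e47, e10], [e2, e33], [e3, e20], [e4], [e5, e6]], [e48], [], (nat_lit 12), (nat_lit 0xffccfff), (nat_lit 0), (nat_lit 4), (nat_lit 7)⟩, [⟨(nat_lit 193), (nat_lit 0)⟩], ⟨(nat_lit 31104), [], [], true⟩, []⟩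
def f1014 : Fc := ⟨true, ⟨[[e49, e50], [e46, e9], [e47, e10], [e2, e33], [e3, e20], [e4], [e5, e6]], [], [], (nat_lit 13), (nat_lit 0x3ffccfff), (nat_lit 0), (nat_lit 3), (nat_lit 8)⟩, [], ⟨(nat_lit 31104), [], [], true⟩, [⟨[(nat_lit 1), (nat_lit 32), (nat_lit 33), (nat_lit 34), (nat_lit 65), (nat_lit 66), (nat_lit 97), (nat_lit 98), (nat_lit 129), (nat_lit 130), (nat_lit 131), (nat_lit 161), (nat_lit 162), (nat_lit 163), (nat_lit 164), (nat_lit 194)], [(nat_lit 1), (nat_lit 0x100000000000000000000000000000000), (nat_lit 2)], (nat_lit 1), (nat_lit 0)⟩, ⟨[(nat_lit 1), (nat_lit 32), (nat_lit 33), (nat_lit 34), (nat_lit 65), (nat_lit 66), (nat_lit 97), (nat_lit 98), (nat_lit 129), (nat_lit 130), (nat_lit 131), (nat_lit 161), (nat_lit 162), (nat_lit 163), (nat_lit 164), (nat_lit 195)], [(nat_lit 1), (nat_lit 0x100000000000000000000000000000027),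 (nat_lit 0)], (nat_lit 1), (nat_lit 0)⟩]⟩
def f1015 : Fc := ⟨true, ⟨[[e46, e9], [e47, e10], [e2, e33], [e3, e20], [e4], [e5, e6]], [], [], (nat_lit 11), (nat_lit 0x3fccfff), (nat_lit 0), (nat_lit 5), (nat_lit 7)⟩, [⟨(nat_lit 131), (nat_lit 0)⟩, ⟨(nat_lit 193), (nat_lit 0)⟩, ⟨(nat_lit 162), (nat_lit 0)⟩], ⟨(nat_lit 128), [], [], true⟩, [⟨[(nat_lit 1), (nat_lit 32), (nat_lit 33), (nat_lit 34), (nat_lit 65), (nat_lit 66), (nat_lit 97), (nat_lit 98), (nat_lit 129), (nat_lit 130), (nat_lit 131), (nat_lit 161), (nat_lit 162), (nat_lit 163), (nat_lit 164), (nat_lit 195)], [(nat_lit 1), (nat_lit 0x100000000000000000000000000000027), (nat_lit 0)], (nat_lit 1), (nat_lit 0)⟩, ⟨[(nat_lit 1), (nat_lit 32), (nat_lit 33), (nat_lit 34), (nat_lit 65), (nat_lit 66), (nat_lit 97), (nat_lit 98), (nat_lit 129), (nat_lit 130), (nat_lit 131), (nat_lit 161), (nat_lit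 162), (nat_lit 163), (nat_lit 164), (nat_lit 194)], [(nat_lit 1), (nat_lit 0x100000000000000000000000000000000), (nat_lit 2)], (nat_lit 1), (nat_lit 0)⟩]⟩
def f1016 : Fc := ⟨true, ⟨[[e46, e9], [e47, e10], [e2, e33], [e3, e20], [e4], [e5, e6]], [], [], (nat_lit 11), (nat_lit 0x3fccfff), (nat_lit 0), (nat_lit 5), (nat_lit 7)⟩, [], ⟨(nat_lit 128), [], [], true⟩, [⟨[(nat_lit 1), (nat_lit 32), (nat_lit 33), (nat_lit 34), (nat_lit 65), (nat_lit 66), (nat_lit 97), (nat_lit 98), (nat_lit 129), (nat_lit 130), (nat_lit 131), (nat_lit 161), (nat_lit 162), (nat_lit 163), (nat_lit 164), (nat_lit 194)], [(nat_lit 1), (nat_lit 0x100000000000000000000000000000000), (nat_lit 2)], (nat_lit 1), (nat_lit 0)⟩, ⟨[(nat_lit 1), (nat_lit 32), (nat_lit 33), (nat_lit 34), (nat_lit 65), (nat_lit 66), (nat_lit 97), (nat_lit 98), (nat_lit 129), (nat_lit 130), (nat_lit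 131), (nat_lit 161), (nat_lit 162), (nat_lit 163), (nat_lit 164), (nat_lit 195)], [(nat_lit 1), (nat_lit 0x100000000000000000000000000000027), (nat_lit 0)], (nat_lit 1), (nat_lit 0)⟩]⟩
def f1017 : Fc := ⟨true, ⟨[[e51, e52, e53], [e54, e10], [e2, e33], [e3, e20], [e4], [e5, e6]], [], [], (nat_lit 12), (nat_lit 0xffccfff), (nat_lit 0), (nat_lit 4), (nat_lit 7)⟩, [⟨(nat_lit 131), (nat_lit 0)⟩, ⟨(nat_lit 193), (nat_lit 0)⟩, ⟨(nat_lit 162), (nat_lit 0)⟩], ⟨(nat_lit 1), [], [], true⟩, []⟩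
def f1018 : Fc := ⟨true, ⟨[[e51, e52, e53], [e54, e10], [e2, e33], [e3, e20], [e4], [e5, e6]], [], [], (nat_lit 12), (nat_lit 0xffccfff), (nat_lit 0), (nat_lit 4), (nat_lit 7)⟩, [], ⟨(nat_lit 1), [], [], true⟩, []⟩
def f1019 : Fc := ⟨true, ⟨[[e54, e10], [e2, e33], [e3, e20], [e4], [e5, e6]], [e51], [], (nat_lit 10), (nat_lit 0xfccfff), (nat_lit 0), (nat_lit 6), (nat_lit 6)⟩, [⟨(nat_lit 130), (nat_lit 0)⟩, ⟨(nat_lit 161), (nat_lit 0)⟩], ⟨(nat_lit 1), [], [], true⟩, []⟩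
def f1020 : Fc := ⟨true, ⟨[[e47, e10], [e2, e33], [e3, e20], [e4], [e5, e6]], [], [], (nat_lit 9), (nat_lit 0x3ccfff), (nat_lit 0), (nat_lit 7), (nat_lit 6)⟩, [⟨(nat_lit 99), (nat_lit 0)⟩, ⟨(nat_lit 161), (nat_lit 0)⟩, ⟨(nat_lit 130), (nat_lit 0)⟩], ⟨(nat_lit 128), [], [], false⟩, []⟩
def f1021 : Fc := ⟨true, ⟨[[e47, e10], [e2, e33], [e3, e20], [e4], [e5, e6]], [], [], (nat_lit 9), (nat_lit 0x3ccfff), (nat_lit 0), (nat_lit 7), (nat_lit 6)⟩, [], ⟨(nat_lit 128), [], [], true⟩, [⟨[(nat_lit 1), (nat_lit 32), (nat_lit 33), (nat_lit 34), (nat_lit 65), (nat_lit 66), (nat_lit 97), (nat_lit 98), (nat_lit 129), (nat_lit 130), (nat_lit 131), (nat_lit 161), (nat_lit 162), (nat_lit 163), (nat_lit 164), (nat_lit 195)], [(nat_lit 1), (nat_lit 0x100000000000000000000000000000027), (nat_lit 0)], (nat_lit 1), (nat_lit 0)⟩, ⟨[(nat_lit 1), (nat_lit 32), (nat_lit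 33), (nat_lit 34), (nat_lit 65), (nat_lit 66), (nat_lit 97), (nat_lit 98), (nat_lit 129), (nat_lit 130), (nat_lit 131), (nat_lit 161), (nat_lit 162), (nat_lit 163), (nat_lit 164), (nat_lit 194)], [(nat_lit 1), (nat_lit 0x100000000000000000000000000000000), (nat_lit 2)], (nat_lit 1), (nat_lit 0)⟩]⟩
def f1022 : Fc := ⟨true, ⟨[[e2, e33], [e3, e20], [e4], [e5, e6]], [], [], (nat_lit 7), (nat_lit 53247), (nat_lit 0), (nat_lit 9), (nat_lit 5)⟩, [⟨(nat_lit 98), (nat_lit 0)⟩, ⟨(nat_lit 129), (nat_lit 0)⟩], ⟨(nat_lit 1), [], [], true⟩, [⟨[(nat_lit 1), (nat_lit 32), (nat_lit 33), (nat_lit 34), (nat_lit 65), (nat_lit 66), (nat_lit 97), (nat_lit 98), (nat_lit 129), (nat_lit 130), (nat_lit 131), (nat_lit 161), (nat_lit 162), (nat_lit 163), (nat_lit 164), (nat_lit 194)], [(nat_lit 1), (nat_lit 0x100000000000000000000000000000000), (nat_lit 2)], (nat_lit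 1), (nat_lit 0)⟩, ⟨[(nat_lit 1), (nat_lit 32), (nat_lit 33), (nat_lit 34), (nat_lit 65), (nat_lit 66), (nat_lit 97), (nat_lit 98), (nat_lit 129), (nat_lit 130), (nat_lit 131), (nat_lit 161), (nat_lit 162), (nat_lit 163), (nat_lit 164), (nat_lit 195)], [(nat_lit 1), (nat_lit 0x100000000000000000000000000000027), (nat_lit 0)], (nat_lit 1), (nat_lit 0)⟩]⟩
def f1023 : Fc := ⟨true, ⟨[[e55, e56, e35], [e2, e33], [e3, e20], [e4], [e5, e6]], [e57, e58], [], (nat_lit 12), (nat_lit 0xffccfff), (nat_lit 0), (nat_lit 4), (nat_lit 6)⟩, [⟨(nat_lit 161), (nat_lit 0)⟩], ⟨(nat_lit 1), [], [], true⟩, []⟩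
def f1024 : Fc := ⟨true, ⟨[[e55, e56, e35], [e2, e33], [e3, e20], [e4], [e5, e6]], [], [], (nat_lit 10), (nat_lit 0xfccfff), (nat_lit 0), (nat_lit 6), (nat_lit 6)⟩, [⟨(nat_lit 99), (nat_lit 0)⟩, ⟨(nat_lit 161), (nat_lit 0)⟩, ⟨(nat_lit 130), (nat_lit 0)⟩], ⟨(nat_lit 1), [], [], true⟩, []⟩
def f1025 : Fc := ⟨true, ⟨[[e55, e56, e35], [e2, e33], [e3, e20], [e4], [e5, e6]], [], [], (nat_lit 10), (nat_lit 0xfccfff), (nat_lit 0), (nat_lit 6), (nat_lit 6)⟩, [], ⟨(nat_lit 1), [], [], true⟩, []⟩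
def f1026 : Fc := ⟨true, ⟨[[e59, e60], [e55, e56, e61], [e2, e33], [e3, e20], [e4], [e5, e6]], [], [], (nat_lit 12), (nat_lit 0xffccfff), (nat_lit 0), (nat_lit 4), (nat_lit 7)⟩, [], ⟨(nat_lit 1), [], [], true⟩, []⟩
def f1027 : Fc := ⟨true, ⟨[[e59, e60, e62], [e55, e56, e61], [e2, e33], [e3, e20], [e4], [e5, e6]], [], [], (nat_lit 13), (nat_lit 0x3ffccfff), (nat_lit 0), (nat_lit 3), (nat_lit 7)⟩, [⟨(nat_lit 100), (nat_lit 0)⟩, ⟨(nat_lit 162), (nat_lit 0)⟩, ⟨(nat_lit 131), (nat_lit 0)⟩], ⟨(nat_lit 1), [], [], true⟩, []⟩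
def f1028 : Fc := ⟨true, ⟨[[e59, e60, e62], [e55, e56, e61], [e2, e33], [e3, e20], [e4], [e5, e6]], [], [], (nat_lit 13), (nat_lit 0x3ffccfff), (nat_lit 0), (nat_lit 3), (nat_lit 7)⟩, [], ⟨(nat_lit 1), [], [], true⟩, []⟩
def f1029 : Fc := ⟨true, ⟨[[e63, e64], [e55, e56, e61], [e2, e33], [e3, e20], [e4], [e5, e6]], [], [], (nat_lit 12), (nat_lit 0xffccfff), (nat_lit 0), (nat_lit 4), (nat_lit 7)⟩, [⟨(nat_lit 100), (nat_lit 0)⟩, ⟨(nat_lit 162), (nat_lit 0)⟩, ⟨(nat_lit 131), (nat_lit 0)⟩], ⟨(nat_lit 128), [], [], true⟩, [⟨[(nat_lit 1), (nat_lit 32), (nat_lit 33), (nat_lit 34), (nat_lit 65), (nat_lit 66), (nat_lit 67), (nat_lit 97), (nat_lit 98), (nat_lit 98), (nat_lit 99), (nat_lit 100), (nat_lit 130), (nat_lit 131), (nat_lit 132), (nat_lit 163)], [(nat_lit 1), (nat_lit 0x100000000000000000000000000000000), (nat_lit 2)], (nat_lit 1), (nat_lit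 0)⟩]⟩
def f1030 : Fc := ⟨true, ⟨[[e63, e64], [e55, e56, e61], [e2, e33], [e3, e20], [e4], [e5, e6]], [], [], (nat_lit 12), (nat_lit 0xffccfff), (nat_lit 0), (nat_lit 4), (nat_lit 7)⟩, [], ⟨(nat_lit 128), [], [], true⟩, [⟨[(nat_lit 1), (nat_lit 32), (nat_lit 33), (nat_lit 34), (nat_lit 65), (nat_lit 66), (nat_lit 67), (nat_lit 97), (nat_lit 98), (nat_lit 98), (nat_lit 99), (nat_lit 100), (nat_lit 130), (nat_lit 131), (nat_lit 132), (nat_lit 163)], [(nat_lit 1), (nat_lit 0x100000000000000000000000000000000), (nat_lit 2)], (nat_lit 1), (nat_lit 0)⟩]⟩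
def f1031 : Fc := ⟨true, ⟨[[e55, e56, e61], [e2, e33], [e3, e20], [e4], [e5, e6]], [], [], (nat_lit 10), (nat_lit 0xfccfff), (nat_lit 0), (nat_lit 6), (nat_lit 6)⟩, [⟨(nat_lit 99), (nat_lit 0)⟩, ⟨(nat_lit 130), (nat_lit 0)⟩], ⟨(nat_lit 1), [], [], true⟩, [⟨[(nat_lit 1), (nat_lit 32), (nat_lit 33), (nat_lit 34), (nat_lit 65), (nat_lit 66), (nat_lit 67), (nat_lit 97), (nat_lit 98), (nat_lit 98), (nat_lit 99), (nat_lit 100), (nat_lit 130), (nat_lit 131), (nat_lit 132), (nat_lit 163)], [(nat_lit 1), (nat_lit 0x100000000000000000000000000000000), (nat_lit 2)], (nat_lit 1), (nat_lit 0)⟩]⟩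
def f1032 : Fc := ⟨true, ⟨[[e55, e56, e61], [e2, e33], [e3, e20], [e4], [e5, e6]], [], [], (nat_lit 10), (nat_lit 0xfccfff), (nat_lit 0), (nat_lit 6), (nat_lit 6)⟩, [], ⟨(nat_lit 1), [], [], true⟩, [⟨[(nat_lit 1), (nat_lit 32), (nat_lit 33), (nat_lit 34), (nat_lit 65), (nat_lit 66), (nat_lit 67), (nat_lit 97), (nat_lit 98), (nat_lit 98), (nat_lit 99), (nat_lit 100), (nat_lit 130), (nat_lit 131), (nat_lit 132), (nat_lit 163)], [(nat_lit 1), (nat_lit 0x100000000000000000000000000000000), (nat_lit 2)], (nat_lit 1), (nat_lit 0)⟩]⟩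
def f1033 : Fc := ⟨true, ⟨[[e65, e66], [e55, e56, e61, e67], [e2, e33], [e3, e20], [e4], [e5, e6]], [], [], (nat_lit 13), (nat_lit 0x3ffccfff), (nat_lit 0), (nat_lit 3), (nat_lit 7)⟩, [], ⟨(nat_lit 1), [], [], true⟩, []⟩
def f1034 : Fc := ⟨true, ⟨[[e55, e56, e61, e67], [e2, e33], [e3, e20], [e4], [e5, e6]], [e68], [], (nat_lit 12), (nat_lit 0xffccfff), (nat_lit 0), (nat_lit 4), (nat_lit 6)⟩, [⟨(nat_lit 161), (nat_lit 0)⟩], ⟨(nat_lit 128), [], [], true⟩, []⟩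
def f1035 : Fc := ⟨true, ⟨[[e55, e56, e61, e67], [e2, e33], [e3, e20], [e4], [e5, e6]], [], [], (nat_lit 11), (nat_lit 0x3fccfff), (nat_lit 0), (nat_lit 5), (nat_lit 6)⟩, [⟨(nat_lit 130), (nat_lit 0)⟩, ⟨(nat_lit 161), (nat_lit 0)⟩], ⟨(nat_lit 1), [], [], true⟩, []⟩
def f1036 : Fc := ⟨true, ⟨[[e69, e70], [e55, e56, e61, e67], [e2, e33], [e3, e20], [e4], [e5, e6]], [], [], (nat_lit 13), (nat_lit 0x3ffccfff), (nat_lit 0), (nat_lit 3), (nat_lit 7)⟩, [], ⟨(nat_lit 128), [], [], true⟩, []⟩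
def f1037 : Fc := ⟨true, ⟨[[e55, e56, e61, e67], [e2, e33], [e3, e20], [e4], [e5, e6]], [e69], [], (nat_lit 12), (nat_lit 0xffccfff), (nat_lit 0), (nat_lit 4), (nat_lit 6)⟩, [⟨(nat_lit 130), (nat_lit 0)⟩, ⟨(nat_lit 161), (nat_lit 0)⟩], ⟨(nat_lit 1), [], [], true⟩, []⟩
def f1038 : Fc := ⟨true, ⟨[[e69, e71], [e55, e56, e61, e67], [e2, e33], [e3, e20], [e4], [e5, e6]], [], [], (nat_lit 13), (nat_lit 0x3ffccfff), (nat_lit 0), (nat_lit 3), (nat_lit 7)⟩, [], ⟨(nat_lit 1), [], [], true⟩, []⟩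
def f1039 : Fc := ⟨true, ⟨[[e55, e56, e61, e67], [e2, e33], [e3, e20], [e4], [e5, e6]], [e71, e69], [], (nat_lit 13), (nat_lit 0x3ffccfff), (nat_lit 0), (nat_lit 3), (nat_lit 6)⟩, [⟨(nat_lit 130), (nat_lit 0)⟩, ⟨(nat_lit 161), (nat_lit 0)⟩], ⟨(nat_lit 1), [], [], true⟩, []⟩
def f1040 : Fc := ⟨true, ⟨[[e55, e56, e61, e67], [e2, e33], [e3, e20], [e4], [e5, e6]], [e72], [], (nat_lit 12), (nat_lit 0xffccfff), (nat_lit 0), (nat_lit 4), (nat_lit 6)⟩, [⟨(nat_lit 161), (nat_lit 0)⟩], ⟨(nat_lit 128), [], [], true⟩, []⟩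
def f1041 : Fc := ⟨true, ⟨[[e72, e73], [e55, e56, e61, e67], [e2, e33], [e3, e20], [e4], [e5, e6]], [], [], (nat_lit 13), (nat_lit 0x3ffccfff), (nat_lit 0), (nat_lit 3), (nat_lit 7)⟩, [], ⟨(nat_lit 128), [], [], true⟩, []⟩
def f1042 : Fc := ⟨true, ⟨[[e72, e74], [e55, e56, e61, e67], [e2, e33], [e3, e20], [e4], [e5, e6]], [], [], (nat_lit 13), (nat_lit 0x3ffccfff), (nat_lit 0), (nat_lit 3), (nat_lit 7)⟩, [⟨(nat_lit 131), (nat_lit 0)⟩, ⟨(nat_lit 162), (nat_lit 0)⟩], ⟨(nat_lit 31104), [], [], true⟩, []⟩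
def f1043 : Fc := ⟨true, ⟨[[e72, e74], [e55, e56, e61, e67], [e2, e33], [e3, e20], [e4], [e5, e6]], [], [], (nat_lit 13), (nat_lit 0x3ffccfff), (nat_lit 0), (nat_lit 3), (nat_lit 7)⟩, [], ⟨(nat_lit 31104), [], [], true⟩, []⟩
def f1044 : Fc := ⟨true, ⟨[[e55, e56, e61, e67], [e2, e33], [e3, e20], [e4], [e5, e6]], [e72], [], (nat_lit 12), (nat_lit 0xffccfff), (nat_lit 0), (nat_lit 4), (nat_lit 6)⟩, [⟨(nat_lit 130), (nat_lit 0)⟩, ⟨(nat_lit 161), (nat_lit 0)⟩], ⟨(nat_lit 128), [], [], true⟩, []⟩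
def f1045 : Fc := ⟨true, ⟨[[e55, e56, e61, e67], [e2, e33], [e3, e20], [e4], [e5, e6]], [], [], (nat_lit 11), (nat_lit 0x3fccfff), (nat_lit 0), (nat_lit 5), (nat_lit 6)⟩, [], ⟨(nat_lit 1), [], [], true⟩, []⟩
def f1046 : Fc := ⟨true, ⟨[[e55, e75], [e2, e33], [e3, e20], [e4], [e5, e6]], [e76], [], (nat_lit 10), (nat_lit 0xfccfff), (nat_lit 0), (nat_lit 6), (nat_lit 6)⟩, [⟨(nat_lit 130), (nat_lit 0)⟩], ⟨(nat_lit 128), [], [], false⟩, []⟩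
def f1047 : Fc := ⟨true, ⟨[[e55, e75], [e2, e33], [e3, e20], [e4], [e5, e6]], [], [], (nat_lit 9), (nat_lit 0x3ccfff), (nat_lit 0), (nat_lit 7), (nat_lit 6)⟩, [], ⟨(nat_lit 128), [], [], true⟩, []⟩
def f1048 : Fc := ⟨true, ⟨[[e77, e39], [e55, e75, e35], [e2, e33], [e3, e20], [e4], [e5, e6]], [], [], (nat_lit 12), (nat_lit 0xffccfff), (nat_lit 0), (nat_lit 4), (nat_lit 7)⟩, [⟨(nat_lit 131), (nat_lit 0)⟩, ⟨(nat_lit 193), (nat_lit 0)⟩, ⟨(nat_lit 162), (nat_lit 0)⟩], ⟨(nat_lit 128), [], [], true⟩, []⟩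
def f1049 : Fc := ⟨true, ⟨[[e77, e39], [e55, e75, e35], [e2, e33], [e3, e20], [e4], [e5, e6]], [], [], (nat_lit 12), (nat_lit 0xffccfff), (nat_lit 0), (nat_lit 4), (nat_lit 7)⟩, [], ⟨(nat_lit 128), [], [], true⟩, []⟩
def f1050 : Fc := ⟨true, ⟨[[e55, e75, e35], [e2, e33], [e3, e20], [e4], [e5, e6]], [e78], [], (nat_lit 11), (nat_lit 0x3fccfff), (nat_lit 0), (nat_lit 5), (nat_lit 6)⟩, [⟨(nat_lit 161), (nat_lit 0)⟩], ⟨(nat_lit 128), [], [], true⟩, []⟩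
def f1051 : Fc := ⟨true, ⟨[[e78, e79], [e55, e75, e35], [e2, e33], [e3, e20], [e4], [e5, e6]], [e80], [], (nat_lit 13), (nat_lit 0x3ffccfff), (nat_lit 0), (nat_lit 3), (nat_lit 7)⟩, [⟨(nat_lit 162), (nat_lit 0)⟩], ⟨(nat_lit 31104), [], [], true⟩, []⟩
def f1052 : Fc := ⟨true, ⟨[[e81, e82], [e78, e79], [e55, e75, e35], [e2, e33], [e3, e20], [e4], [e5, e6]], [], [], (nat_lit 14), (nat_lit 0xfffccfff), (nat_lit 0), (nat_lit 2), (nat_lit 8)⟩, [], ⟨(nat_lit 31104), [], [], true⟩, []⟩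
def f1053 : Fc := ⟨true, ⟨[[e78, e79], [e55, e75, e35], [e2, e33], [e3, e20], [e4], [e5, e6]], [], [], (nat_lit 12), (nat_lit 0xffccfff), (nat_lit 0), (nat_lit 4), (nat_lit 7)⟩, [⟨(nat_lit 100), (nat_lit 0)⟩, ⟨(nat_lit 162), (nat_lit 0)⟩, ⟨(nat_lit 131), (nat_lit 0)⟩], ⟨(nat_lit 128), [], [], true⟩, []⟩
def f1054 : Fc := ⟨true, ⟨[[e78, e79], [e55, e75, e35], [e2, e33], [e3, e20], [e4], [e5, e6]], [], [], (nat_lit 12), (nat_lit 0xffccfff), (nat_lit 0), (nat_lit 4), (nat_lit 7)⟩, [], ⟨(nat_lit 128), [], [], true⟩, []⟩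
def f1055 : Fc := ⟨true, ⟨[[e78, e79, e45], [e55, e75, e35], [e2, e33], [e3, e20], [e4], [e5, e6]], [], [], (nat_lit 13), (nat_lit 0x3ffccfff), (nat_lit 0), (nat_lit 3), (nat_lit 7)⟩, [⟨(nat_lit 131), (nat_lit 0)⟩, ⟨(nat_lit 193), (nat_lit 0)⟩, ⟨(nat_lit 162), (nat_lit 0)⟩], ⟨(nat_lit 128), [], [], true⟩, []⟩
def f1056 : Fc := ⟨true, ⟨[[e78, e79, e45], [e55, e75, e35], [e2, e33], [e3, e20], [e4], [e5, e6]], [], [], (nat_lit 13), (nat_lit 0x3ffccfff), (nat_lit 0), (nat_lit 3), (nat_lit 7)⟩, [], ⟨(nat_lit 128), [], [], true⟩, []⟩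
def f1057 : Fc := ⟨true, ⟨[[e55, e75, e35], [e2, e33], [e3, e20], [e4], [e5, e6]], [], [], (nat_lit 10), (nat_lit 0xfccfff), (nat_lit 0), (nat_lit 6), (nat_lit 6)⟩, [], ⟨(nat_lit 128), [], [], true⟩, []⟩
def f1058 : Fc := ⟨true, ⟨[[e2, e33], [e3, e20], [e4], [e5, e6]], [], [], (nat_lit 7), (nat_lit 53247), (nat_lit 0), (nat_lit 9), (nat_lit 5)⟩, [], ⟨(nat_lit 1), [], [], true⟩, [⟨[(nat_lit 1), (nat_lit 32), (nat_lit 33), (nat_lit 34), (nat_lit 65), (nat_lit 66), (nat_lit 67), (nat_lit 97), (nat_lit 98), (nat_lit 98), (nat_lit 99), (nat_lit 100), (nat_lit 130), (nat_lit 131), (nat_lit 132), (nat_lit 163)], [(nat_lit 1), (nat_lit 0x100000000000000000000000000000000), (nat_lit 2)], (nat_lit 1), (nat_lit 0)⟩, ⟨[(nat_lit 1), (nat_lit 32), (nat_lit 33), (nat_lit 34), (nat_lit 65), (nat_lit 66), (nat_lit 97), (nat_lit 98), (nat_lit 129), (nat_lit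 130), (nat_lit 131), (nat_lit 161), (nat_lit 162), (nat_lit 163), (nat_lit 164), (nat_lit 195)], [(nat_lit 1), (nat_lit 0x100000000000000000000000000000027), (nat_lit 0)], (nat_lit 1), (nat_lit 0)⟩, ⟨[(nat_lit 1), (nat_lit 32), (nat_lit 33), (nat_lit 34), (nat_lit 65), (nat_lit 66), (nat_lit 97), (nat_lit 98), (nat_lit 129), (nat_lit 130), (nat_lit 131), (nat_lit 161), (nat_lit 162), (nat_lit 163), (nat_lit 164), (nat_lit 194)], [(nat_lit 1), (nat_lit 0x100000000000000000000000000000000), (nat_lit 2)], (nat_lit 1), (nat_lit 0)⟩]⟩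
def f1059 : Fc := ⟨true, ⟨[[e18], [e19], [e3, e20], [e4], [e5, e6]], [], [], (nat_lit 7), (nat_lit 802047), (nat_lit 0), (nat_lit 9), (nat_lit 6)⟩, [], ⟨(nat_lit 1), [], [], true⟩, []⟩
def f1060 : Fc := ⟨true, ⟨[[e24], [e19], [e3, e20], [e4], [e5, e6]], [], [], (nat_lit 7), (nat_lit 802047), (nat_lit 0), (nat_lit 9), (nat_lit 6)⟩, [], ⟨(nat_lit 1), [], [], true⟩, []⟩
def f1061 : Fc := ⟨true, ⟨[[e29, e30, e31], [e26, e27], [e24, e28], [e19], [e3, e20], [e4], [e5, e6]], [], [], (nat_lit 13), (nat_lit 0xfffc3cff), (nat_lit 0), (nat_lit 3), (nat_lit 8)⟩, [], ⟨(nat_lit 1), [], [], true⟩, []⟩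
def f1062 : Fc := ⟨true, ⟨[[e29, e32], [e26, e27], [e24, e28], [e19], [e3, e20], [e4], [e5, e6]], [], [], (nat_lit 12), (nat_lit 0x3ffc3cff), (nat_lit 0), (nat_lit 4), (nat_lit 8)⟩, [], ⟨(nat_lit 128), [], [], true⟩, []⟩
def f1063 : Fc := ⟨true, ⟨[[e26, e27], [e24, e28], [e19], [e3, e20], [e4], [e5, e6]], [e29], [], (nat_lit 11), (nat_lit 0xffc3cff), (nat_lit 0), (nat_lit 5), (nat_lit 7)⟩, [⟨(nat_lit 69), (nat_lit 0)⟩, ⟨(nat_lit 100), (nat_lit 0)⟩], ⟨(nat_lit 1), [], [], true⟩, []⟩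
def f1064 : Fc := ⟨true, ⟨[[e26, e27], [e24, e28], [e19], [e3, e20], [e4], [e5, e6]], [], [], (nat_lit 10), (nat_lit 0x3fc3cff), (nat_lit 0), (nat_lit 6), (nat_lit 7)⟩, [], ⟨(nat_lit 1), [], [], true⟩, []⟩
def f1065 : Fc := ⟨true, ⟨[[e19], [e3, e20], [e4], [e5, e6]], [], [], (nat_lit 6), (nat_lit 15615), (nat_lit 0), (nat_lit 10), (nat_lit 5)⟩, [], ⟨(nat_lit 1), [], [], true⟩, []⟩
def f1066 : Fc := ⟨true, ⟨[[e2, e19], [e3, e20], [e4], [e5, e6]], [], [], (nat_lit 7), (nat_lit 16383), (nat_lit 0), (nat_lit 9), (nat_lit 5)⟩, [⟨(nat_lit 129), (nat_lit 0)⟩], ⟨(nat_lit 1), [], [], true⟩, []⟩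
def f1067 : Fc := ⟨true, ⟨[[e8, e9], [e7, e10], [e2, e19], [e3, e20], [e4], [e5, e6]], [], [], (nat_lit 11), (nat_lit 0x3fc3fff), (nat_lit 0), (nat_lit 5), (nat_lit 7)⟩, [⟨(nat_lit 162), (nat_lit 0)⟩, ⟨(nat_lit 193), (nat_lit 0)⟩], ⟨(nat_lit 1), [], [], true⟩, []⟩
def f1068 : Fc := ⟨true, ⟨[[e8, e9], [e7, e10], [e2, e19], [e3, e20], [e4], [e5, e6]], [], [], (nat_lit 11), (nat_lit 0x3fc3fff), (nat_lit 0), (nat_lit 5), (nat_lit 7)⟩, [], ⟨(nat_lit 1), [], [], true⟩, []⟩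
def f1069 : Fc := ⟨true, ⟨[[e18, e56, e35], [e2, e19], [e3, e20], [e4], [e5, e6]], [e57, e83], [], (nat_lit 12), (nat_lit 0xffc3fff), (nat_lit 0), (nat_lit 4), (nat_lit 6)⟩, [⟨(nat_lit 161), (nat_lit 0)⟩], ⟨(nat_lit 1), [], [], true⟩, []⟩
def f1070 : Fc := ⟨true, ⟨[[e18, e56, e35], [e2, e19], [e3, e20], [e4], [e5, e6]], [], [], (nat_lit 10), (nat_lit 0xfc3fff), (nat_lit 0), (nat_lit 6), (nat_lit 6)⟩, [⟨(nat_lit 99), (nat_lit 0)⟩, ⟨(nat_lit 161), (nat_lit 0)⟩, ⟨(nat_lit 130), (nat_lit 0)⟩], ⟨(nat_lit 1), [], [], true⟩, []⟩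
def f1071 : Fc := ⟨true, ⟨[[e18, e56, e35], [e2, e19], [e3, e20], [e4], [e5, e6]], [], [], (nat_lit 10), (nat_lit 0xfc3fff), (nat_lit 0), (nat_lit 6), (nat_lit 6)⟩, [], ⟨(nat_lit 1), [], [], true⟩, []⟩
def f1072 : Fc := ⟨true, ⟨[[e24], [e2, e19], [e3, e20], [e4], [e5, e6]], [], [], (nat_lit 8), (nat_lit 802815), (nat_lit 0), (nat_lit 8), (nat_lit 6)⟩, [], ⟨(nat_lit 1), [], [], true⟩, []⟩
def f1073 : Fc := ⟨true, ⟨[[e24, e10], [e2, e19], [e3, e20], [e4], [e5, e6]], [e26], [], (nat_lit 10), (nat_lit 0xfc3fff), (nat_lit 0), (nat_lit 6), (nat_lit 6)⟩, [⟨(nat_lit 161), (nat_lit 0)⟩], ⟨(nat_lit 1), [], [], true⟩, []⟩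
def f1074 : Fc := ⟨true, ⟨[[e24, e10], [e2, e19], [e3, e20], [e4], [e5, e6]], [], [], (nat_lit 9), (nat_lit 0x3c3fff), (nat_lit 0), (nat_lit 7), (nat_lit 6)⟩, [], ⟨(nat_lit 1), [], [], true⟩, []⟩
def f1075 : Fc := ⟨true, ⟨[[e24, e56, e35], [e2, e19], [e3, e20], [e4], [e5, e6]], [], [], (nat_lit 10), (nat_lit 0xfc3fff), (nat_lit 0), (nat_lit 6), (nat_lit 6)⟩, [⟨(nat_lit 130), (nat_lit 0)⟩, ⟨(nat_lit 161), (nat_lit 0)⟩], ⟨(nat_lit 1), [], [], true⟩, []⟩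
def f1076 : Fc := ⟨true, ⟨[[e24, e56, e35], [e2, e19], [e3, e20], [e4], [e5, e6]], [e84], [], (nat_lit 11), (nat_lit 0x3fc3fff), (nat_lit 0), (nat_lit 5), (nat_lit 6)⟩, [⟨(nat_lit 130), (nat_lit 0)⟩, ⟨(nat_lit 161), (nat_lit 0)⟩], ⟨(nat_lit 1), [], [], true⟩, []⟩
def f1077 : Fc := ⟨true, ⟨[[e24, e56, e35], [e2, e19], [e3, e20], [e4], [e5, e6]], [], [], (nat_lit 10), (nat_lit 0xfc3fff), (nat_lit 0), (nat_lit 6), (nat_lit 6)⟩, [], ⟨(nat_lit 1), [], [], true⟩, []⟩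
def f1078 : Fc := ⟨true, ⟨[[e26, e27], [e24, e28], [e2, e19], [e3, e20], [e4], [e5, e6]], [], [], (nat_lit 11), (nat_lit 0x3fc3fff), (nat_lit 0), (nat_lit 5), (nat_lit 7)⟩, [⟨(nat_lit 38), (nat_lit 0)⟩, ⟨(nat_lit 100), (nat_lit 0)⟩, ⟨(nat_lit 69), (nat_lit 0)⟩], ⟨(nat_lit 1), [], [], true⟩, []⟩
def f1079 : Fc := ⟨true, ⟨[[e26, e27], [e24, e28], [e2, e19], [e3, e20], [e4], [e5, e6]], [], [], (nat_lit 11), (nat_lit 0x3fc3fff), (nat_lit 0), (nat_lit 5), (nat_lit 7)⟩, [], ⟨(nat_lit 1), [], [], true⟩, []⟩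
def f1080 : Fc := ⟨true, ⟨[[e84, e85], [e24, e28, e35], [e2, e19], [e3, e20], [e4], [e5, e6]], [], [], (nat_lit 12), (nat_lit 0xffc3fff), (nat_lit 0), (nat_lit 4), (nat_lit 7)⟩, [], ⟨(nat_lit 1), [], [], true⟩, []⟩
def f1081 : Fc := ⟨true, ⟨[[e24, e28, e35], [e2, e19], [e3, e20], [e4], [e5, e6]], [e84], [], (nat_lit 11), (nat_lit 0x3fc3fff), (nat_lit 0), (nat_lit 5), (nat_lit 6)⟩, [⟨(nat_lit 68), (nat_lit 0)⟩, ⟨(nat_lit 161), (nat_lit 0)⟩], ⟨(nat_lit 1), [], [], true⟩, []⟩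
def f1082 : Fc := ⟨true, ⟨[[e24, e28, e35], [e2, e19], [e3, e20], [e4], [e5, e6]], [], [], (nat_lit 10), (nat_lit 0xfc3fff), (nat_lit 0), (nat_lit 6), (nat_lit 6)⟩, [⟨(nat_lit 37), (nat_lit 0)⟩, ⟨(nat_lit 161), (nat_lit 0)⟩, ⟨(nat_lit 68), (nat_lit 0)⟩], ⟨(nat_lit 1), [], [], true⟩, []⟩
def f1083 : Fc := ⟨true, ⟨[[e24, e28, e35], [e2, e19], [e3, e20], [e4], [e5, e6]], [], [], (nat_lit 10), (nat_lit 0xfc3fff), (nat_lit 0), (nat_lit 6), (nat_lit 6)⟩, [], ⟨(nat_lit 1), [], [], true⟩, []⟩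
def f1084 : Fc := ⟨true, ⟨[[e24, e28, e86], [e2, e19], [e3, e20], [e4], [e5, e6]], [], [], (nat_lit 10), (nat_lit 0xfc3fff), (nat_lit 0), (nat_lit 6), (nat_lit 6)⟩, [⟨(nat_lit 68), (nat_lit 0)⟩, ⟨(nat_lit 99), (nat_lit 0)⟩], ⟨(nat_lit 1), [], [], true⟩, []⟩
def f1085 : Fc := ⟨true, ⟨[[e24, e28, e86], [e2, e19], [e3, e20], [e4], [e5, e6]], [e85, e84], [], (nat_lit 12), (nat_lit 0xffc3fff), (nat_lit 0), (nat_lit 4), (nat_lit 6)⟩, [⟨(nat_lit 99), (nat_lit 0)⟩], ⟨(nat_lit 1), [], [], true⟩, []⟩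
def f1086 : Fc := ⟨true, ⟨[[e24, e28, e86], [e2, e19], [e3, e20], [e4], [e5, e6]], [e84], [], (nat_lit 11), (nat_lit 0x3fc3fff), (nat_lit 0), (nat_lit 5), (nat_lit 6)⟩, [⟨(nat_lit 68), (nat_lit 0)⟩, ⟨(nat_lit 99), (nat_lit 0)⟩], ⟨(nat_lit 1), [], [], true⟩, []⟩
def f1087 : Fc := ⟨true, ⟨[[e24, e28, e86], [e2, e19], [e3, e20], [e4], [e5, e6]], [], [], (nat_lit 10), (nat_lit 0xfc3fff), (nat_lit 0), (nat_lit 6), (nat_lit 6)⟩, [], ⟨(nat_lit 1), [], [], true⟩, []⟩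
def f1088 : Fc := ⟨true, ⟨[[e24, e28, e86, e67], [e2, e19], [e3, e20], [e4], [e5, e6]], [], [], (nat_lit 11), (nat_lit 0x3fc3fff), (nat_lit 0), (nat_lit 5), (nat_lit 6)⟩, [⟨(nat_lit 99), (nat_lit 0)⟩, ⟨(nat_lit 161), (nat_lit 0)⟩, ⟨(nat_lit 130), (nat_lit 0)⟩], ⟨(nat_lit 1), [], [], true⟩, []⟩
def f1089 : Fc := ⟨true, ⟨[[e24, e28, e86, e67], [e2, e19], [e3, e20], [e4], [e5, e6]], [e85], [], (nat_lit 12), (nat_lit 0xffc3fff), (nat_lit 0), (nat_lit 4), (nat_lit 6)⟩, [⟨(nat_lit 99), (nat_lit 0)⟩, ⟨(nat_lit 161), (nat_lit 0)⟩, ⟨(nat_lit 130), (nat_lit 0)⟩], ⟨(nat_lit 1), [], [], true⟩, []⟩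
def f1090 : Fc := ⟨true, ⟨[[e24, e28, e86, e67], [e2, e19], [e3, e20], [e4], [e5, e6]], [e87], [], (nat_lit 12), (nat_lit 0xffc3fff), (nat_lit 0), (nat_lit 4), (nat_lit 6)⟩, [⟨(nat_lit 99), (nat_lit 0)⟩, ⟨(nat_lit 161), (nat_lit 0)⟩, ⟨(nat_lit 130), (nat_lit 0)⟩], ⟨(nat_lit 1), [], [], true⟩, []⟩
def f1091 : Fc := ⟨true, ⟨[[e24, e28, e86, e67], [e2, e19], [e3, e20], [e4], [e5, e6]], [e87], [], (nat_lit 12), (nat_lit 0xffc3fff), (nat_lit 0), (nat_lit 4), (nat_lit 6)⟩, [⟨(nat_lit 68), (nat_lit 0)⟩, ⟨(nat_lit 161), (nat_lit 0)⟩, ⟨(nat_lit 130), (nat_lit 0)⟩, ⟨(nat_lit 99), (nat_lit 0)⟩], ⟨(nat_lit 1), [], [], true⟩, []⟩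
def f1092 : Fc := ⟨true, ⟨[[e24, e28, e86, e67], [e2, e19], [e3, e20], [e4], [e5, e6]], [], [], (nat_lit 11), (nat_lit 0x3fc3fff), (nat_lit 0), (nat_lit 5), (nat_lit 6)⟩, [⟨(nat_lit 37), (nat_lit 0)⟩, ⟨(nat_lit 161), (nat_lit 0)⟩, ⟨(nat_lit 130), (nat_lit 0)⟩, ⟨(nat_lit 99), (nat_lit 0)⟩, ⟨(nat_lit 68), (nat_lit 0)⟩], ⟨(nat_lit 1), [], [], true⟩, []⟩
def f1093 : Fc := ⟨true, ⟨[[e24, e28, e86, e67], [e2, e19], [e3, e20], [e4], [e5, e6]], [], [], (nat_lit 11), (nat_lit 0x3fc3fff), (nat_lit 0), (nat_lit 5), (nat_lit 6)⟩, [], ⟨(nat_lit 1), [], [], true⟩, []⟩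
def f1094 : Fc := ⟨true, ⟨[[e2, e19], [e3, e20], [e4], [e5, e6]], [], [], (nat_lit 7), (nat_lit 16383), (nat_lit 0), (nat_lit 9), (nat_lit 5)⟩, [⟨(nat_lit 36), (nat_lit 0)⟩, ⟨(nat_lit 98), (nat_lit 0)⟩, ⟨(nat_lit 67), (nat_lit 0)⟩, ⟨(nat_lit 129), (nat_lit 0)⟩], ⟨(nat_lit 1), [], [], true⟩, []⟩
def f1095 : Fc := ⟨true, ⟨[[e2, e19], [e3, e20], [e4], [e5, e6]], [], [], (nat_lit 7), (nat_lit 16383), (nat_lit 0), (nat_lit 9), (nat_lit 5)⟩, [], ⟨(nat_lit 1), [], [], true⟩, []⟩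
def f1096 : Fc := ⟨true, ⟨[[e55, e28], [e19, e33], [e3, e20], [e4], [e5, e6]], [], [], (nat_lit 9), (nat_lit 0x3cfcff), (nat_lit 0), (nat_lit 7), (nat_lit 6)⟩, [], ⟨(nat_lit 1), [], [], true⟩, []⟩
def f1097 : Fc := ⟨true, ⟨[[e88, e89], [e55, e28, e61], [e19, e33], [e3, e20], [e4], [e5, e6]], [], [], (nat_lit 12), (nat_lit 0xffcfcff), (nat_lit 0), (nat_lit 4), (nat_lit 7)⟩, [], ⟨(nat_lit 1), [], [], true⟩, []⟩
def f1098 : Fc := ⟨true, ⟨[[e90, e91, e92], [e55, e28, e61], [e19, e33], [e3, e20], [e4], [e5, e6]], [], [], (nat_lit 13), (nat_lit 0x3ffcfcff), (nat_lit 0), (nat_lit 3), (nat_lit 7)⟩, [⟨(nat_lit 100), (nat_lit 0)⟩, ⟨(nat_lit 131), (nat_lit 0)⟩], ⟨(nat_lit 1), [], [], true⟩, []⟩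
def f1099 : Fc := ⟨true, ⟨[[e90, e91, e92], [e55, e28, e61], [e19, e33], [e3, e20], [e4], [e5, e6]], [], [], (nat_lit 13), (nat_lit 0x3ffcfcff), (nat_lit 0), (nat_lit 3), (nat_lit 7)⟩, [], ⟨(nat_lit 1), [], [], true⟩, []⟩
def f1100 : Fc := ⟨true, ⟨[[e90, e93], [e55, e28, e61], [e19, e33], [e3, e20], [e4], [e5, e6]], [e94], [], (nat_lit 13), (nat_lit 0x3ffcfcff), (nat_lit 0), (nat_lit 3), (nat_lit 7)⟩, [⟨(nat_lit 131), (nat_lit 0)⟩], ⟨(nat_lit 31104), [], [], true⟩, [⟨[(nat_lit 1), (nat_lit 32), (nat_lit 33), (nat_lit 34), (nat_lit 35), (nat_lit 65), (nat_lit 66), (nat_lit 67), (nat_lit 67), (nat_lit 68), (nat_lit 98), (nat_lit 99), (nat_lit 100), (nat_lit 101), (nat_lit 131), (nat_lit 132)], [(nat_lit 1), (nat_lit 0x100000000000000000000000000000000), (nat_lit 2)], (nat_lit 1), (nat_lit 0)⟩]⟩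
def f1101 : Fc := ⟨true, ⟨[[e90, e93], [e55, e28, e61], [e19, e33], [e3, e20], [e4], [e5, e6]], [], [], (nat_lit 12), (nat_lit 0xffcfcff), (nat_lit 0), (nat_lit 4), (nat_lit 7)⟩, [⟨(nat_lit 100), (nat_lit 0)⟩, ⟨(nat_lit 131), (nat_lit 0)⟩], ⟨(nat_lit 128), [], [], true⟩, [⟨[(nat_lit 1), (nat_lit 32), (nat_lit 33), (nat_lit 34), (nat_lit 35), (nat_lit 65), (nat_lit 66), (nat_lit 67), (nat_lit 67), (nat_lit 68), (nat_lit 98), (nat_lit 99), (nat_lit 100), (nat_lit 101), (nat_lit 131), (nat_lit 132)], [(nat_lit 1), (nat_lit 0x100000000000000000000000000000000), (nat_lit 2)], (nat_lit 1), (nat_lit 0)⟩]⟩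
def f1102 : Fc := ⟨true, ⟨[[e90, e93], [e55, e28, e61], [e19, e33], [e3, e20], [e4], [e5, e6]], [], [], (nat_lit 12), (nat_lit 0xffcfcff), (nat_lit 0), (nat_lit 4), (nat_lit 7)⟩, [], ⟨(nat_lit 128), [], [], true⟩, [⟨[(nat_lit 1), (nat_lit 32), (nat_lit 33), (nat_lit 34), (nat_lit 35), (nat_lit 65), (nat_lit 66), (nat_lit 67), (nat_lit 67), (nat_lit 68), (nat_lit 98), (nat_lit 99), (nat_lit 100), (nat_lit 101), (nat_lit 131), (nat_lit 132)], [(nat_lit 1), (nat_lit 0x100000000000000000000000000000000), (nat_lit 2)], (nat_lit 1), (nat_lit 0)⟩]⟩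
def f1103 : Fc := ⟨true, ⟨[[e55, e28, e61], [e19, e33], [e3, e20], [e4], [e5, e6]], [], [], (nat_lit 10), (nat_lit 0xfcfcff), (nat_lit 0), (nat_lit 6), (nat_lit 6)⟩, [⟨(nat_lit 68), (nat_lit 0)⟩, ⟨(nat_lit 99), (nat_lit 0)⟩], ⟨(nat_lit 1), [], [], true⟩, [⟨[(nat_lit 1), (nat_lit 32), (nat_lit 33), (nat_lit 34), (nat_lit 35), (nat_lit 65), (nat_lit 66), (nat_lit 67), (nat_lit 67), (nat_lit 68), (nat_lit 98), (nat_lit 99), (nat_lit 100), (nat_lit 101), (nat_lit 131), (nat_lit 132)], [(nat_lit 1), (nat_lit 0x100000000000000000000000000000000), (nat_lit 2)], (nat_lit 1), (nat_lit 0)⟩]⟩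
def f1104 : Fc := ⟨true, ⟨[[e55, e28, e61], [e19, e33], [e3, e20], [e4], [e5, e6]], [], [], (nat_lit 10), (nat_lit 0xfcfcff), (nat_lit 0), (nat_lit 6), (nat_lit 6)⟩, [], ⟨(nat_lit 1), [], [], true⟩, [⟨[(nat_lit 1), (nat_lit 32), (nat_lit 33), (nat_lit 34), (nat_lit 35), (nat_lit 65), (nat_lit 66), (nat_lit 67), (nat_lit 67), (nat_lit 68), (nat_lit 98), (nat_lit 99), (nat_lit 100), (nat_lit 101), (nat_lit 131), (nat_lit 132)], [(nat_lit 1), (nat_lit 0x100000000000000000000000000000000), (nat_lit 2)], (nat_lit 1), (nat_lit 0)⟩]⟩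
def f1105 : Fc := ⟨true, ⟨[[e95, e34], [e19, e33], [e3, e20], [e4], [e5, e6]], [], [], (nat_lit 9), (nat_lit 0x3cfcff), (nat_lit 0), (nat_lit 7), (nat_lit 6)⟩, [⟨(nat_lit 68), (nat_lit 0)⟩, ⟨(nat_lit 99), (nat_lit 0)⟩], ⟨(nat_lit 128), [], [], false⟩, []⟩
def f1106 : Fc := ⟨true, ⟨[[e95, e34], [e19, e33], [e3, e20], [e4], [e5, e6]], [], [], (nat_lit 9), (nat_lit 0x3cfcff), (nat_lit 0), (nat_lit 7), (nat_lit 6)⟩, [], ⟨(nat_lit 128), [], [], true⟩, []⟩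
def f1107 : Fc := ⟨true, ⟨[[e24], [e19, e33], [e3, e20], [e4], [e5, e6]], [], [], (nat_lit 8), (nat_lit 851199), (nat_lit 0), (nat_lit 8), (nat_lit 6)⟩, [], ⟨(nat_lit 1), [], [], true⟩, []⟩
def f1108 : Fc := ⟨true, ⟨[[e26, e96], [e24, e97], [e19, e33], [e3, e20], [e4], [e5, e6]], [], [], (nat_lit 11), (nat_lit 0x3fcfcff), (nat_lit 0), (nat_lit 5), (nat_lit 7)⟩, [⟨(nat_lit 38), (nat_lit 0)⟩, ⟨(nat_lit 100), (nat_lit 0)⟩, ⟨(nat_lit 69), (nat_lit 0)⟩], ⟨(nat_lit 1), [], [], true⟩, []⟩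
def f1109 : Fc := ⟨true, ⟨[[e26, e96], [e24, e97], [e19, e33], [e3, e20], [e4], [e5, e6]], [], [], (nat_lit 11), (nat_lit 0x3fcfcff), (nat_lit 0), (nat_lit 5), (nat_lit 7)⟩, [], ⟨(nat_lit 1), [], [], true⟩, []⟩
def f1110 : Fc := ⟨true, ⟨[[e84, e98], [e24, e97, e61], [e19, e33], [e3, e20], [e4], [e5, e6]], [], [], (nat_lit 12), (nat_lit 0xffcfcff), (nat_lit 0), (nat_lit 4), (nat_lit 7)⟩, [], ⟨(nat_lit 1), [], [], true⟩, []⟩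
def f1111 : Fc := ⟨true, ⟨[[e24, e97, e61], [e19, e33], [e3, e20], [e4], [e5, e6]], [e84], [], (nat_lit 11), (nat_lit 0x3fcfcff), (nat_lit 0), (nat_lit 5), (nat_lit 6)⟩, [⟨(nat_lit 68), (nat_lit 0)⟩, ⟨(nat_lit 99), (nat_lit 0)⟩], ⟨(nat_lit 1), [], [], true⟩, []⟩
def f1112 : Fc := ⟨true, ⟨[[e24, e97, e61], [e19, e33], [e3, e20], [e4], [e5, e6]], [], [], (nat_lit 10), (nat_lit 0xfcfcff), (nat_lit 0), (nat_lit 6), (nat_lit 6)⟩, [⟨(nat_lit 37), (nat_lit 0)⟩, ⟨(nat_lit 99), (nat_lit 0)⟩, ⟨(nat_lit 68), (nat_lit 0)⟩], ⟨(nat_lit 1), [], [], true⟩, []⟩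
def f1113 : Fc := ⟨true, ⟨[[e24, e97, e61], [e19, e33], [e3, e20], [e4], [e5, e6]], [], [], (nat_lit 10), (nat_lit 0xfcfcff), (nat_lit 0), (nat_lit 6), (nat_lit 6)⟩, [], ⟨(nat_lit 1), [], [], true⟩, []⟩
def f1114 : Fc := ⟨true, ⟨[[e24, e97, e99], [e19, e33], [e3, e20], [e4], [e5, e6]], [e100], [], (nat_lit 11), (nat_lit 0x3fcfcff), (nat_lit 0), (nat_lit 5), (nat_lit 6)⟩, [⟨(nat_lit 99), (nat_lit 0)⟩], ⟨(nat_lit 1), [], [], true⟩, []⟩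
def f1115 : Fc := ⟨true, ⟨[[e100, e98], [e24, e97, e99], [e19, e33], [e3, e20], [e4], [e5, e6]], [], [], (nat_lit 12), (nat_lit 0xffcfcff), (nat_lit 0), (nat_lit 4), (nat_lit 7)⟩, [], ⟨(nat_lit 1), [], [], true⟩, []⟩
def f1116 : Fc := ⟨true, ⟨[[e100, e98, e101], [e24, e97, e99], [e19, e33], [e3, e20], [e4], [e5, e6]], [], [], (nat_lit 13), (nat_lit 0x3ffcfcff), (nat_lit 0), (nat_lit 3), (nat_lit 7)⟩, [⟨(nat_lit 69), (nat_lit 0)⟩, ⟨(nat_lit 131), (nat_lit 0)⟩, ⟨(nat_lit 100), (nat_lit 0)⟩], ⟨(nat_lit 1), [], [], true⟩, []⟩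
def f1117 : Fc := ⟨true, ⟨[[e100, e98, e101], [e24, e97, e99], [e19, e33], [e3, e20], [e4], [e5, e6]], [], [], (nat_lit 13), (nat_lit 0x3ffcfcff), (nat_lit 0), (nat_lit 3), (nat_lit 7)⟩, [], ⟨(nat_lit 1), [], [], true⟩, []⟩
def f1118 : Fc := ⟨true, ⟨[[e102, e103], [e24, e97, e99], [e19, e33], [e3, e20], [e4], [e5, e6]], [], [], (nat_lit 12), (nat_lit 0xffcfcff), (nat_lit 0), (nat_lit 4), (nat_lit 7)⟩, [⟨(nat_lit 69), (nat_lit 0)⟩, ⟨(nat_lit 131), (nat_lit 0)⟩, ⟨(nat_lit 100), (nat_lit 0)⟩], ⟨(nat_lit 128), [], [], true⟩, []⟩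
def f1119 : Fc := ⟨true, ⟨[[e102, e103], [e24, e97, e99], [e19, e33], [e3, e20], [e4], [e5, e6]], [], [], (nat_lit 12), (nat_lit 0xffcfcff), (nat_lit 0), (nat_lit 4), (nat_lit 7)⟩, [], ⟨(nat_lit 128), [], [], true⟩, []⟩
def f1120 : Fc := ⟨true, ⟨[[e84, e104], [e24, e97, e99], [e19, e33], [e3, e20], [e4], [e5, e6]], [], [], (nat_lit 12), (nat_lit 0xffcfcff), (nat_lit 0), (nat_lit 4), (nat_lit 7)⟩, [], ⟨(nat_lit 1), [], [], true⟩, []⟩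
def f1121 : Fc := ⟨true, ⟨[[e24, e97, e99], [e19, e33], [e3, e20], [e4], [e5, e6]], [e104, e84], [], (nat_lit 12), (nat_lit 0xffcfcff), (nat_lit 0), (nat_lit 4), (nat_lit 6)⟩, [⟨(nat_lit 99), (nat_lit 0)⟩], ⟨(nat_lit 1), [], [], true⟩, []⟩
def f1122 : Fc := ⟨true, ⟨[[e84, e104, e105], [e24, e97, e99], [e19, e33], [e3, e20], [e4], [e5, e6]], [], [], (nat_lit 13), (nat_lit 0x3ffcfcff), (nat_lit 0), (nat_lit 3), (nat_lit 7)⟩, [], ⟨(nat_lit 1), [], [], true⟩, []⟩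
def f1123 : Fc := ⟨true, ⟨[[e84, e106], [e24, e97, e99], [e19, e33], [e3, e20], [e4], [e5, e6]], [e107], [], (nat_lit 13), (nat_lit 0x3ffcfcff), (nat_lit 0), (nat_lit 3), (nat_lit 7)⟩, [⟨(nat_lit 100), (nat_lit 0)⟩], ⟨(nat_lit 31104), [], [], true⟩, []⟩
def f1124 : Fc := ⟨true, ⟨[[e84, e106], [e24, e97, e99], [e19, e33], [e3, e20], [e4], [e5, e6]], [], [], (nat_lit 12), (nat_lit 0xffcfcff), (nat_lit 0), (nat_lit 4), (nat_lit 7)⟩, [⟨(nat_lit 69), (nat_lit 0)⟩, ⟨(nat_lit 100), (nat_lit 0)⟩], ⟨(nat_lit 128), [], [], true⟩, []⟩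
def f1125 : Fc := ⟨true, ⟨[[e84, e106], [e24, e97, e99], [e19, e33], [e3, e20], [e4], [e5, e6]], [], [], (nat_lit 12), (nat_lit 0xffcfcff), (nat_lit 0), (nat_lit 4), (nat_lit 7)⟩, [], ⟨(nat_lit 128), [], [], true⟩, []⟩
def f1126 : Fc := ⟨true, ⟨[[e84, e106, e101], [e24, e97, e99], [e19, e33], [e3, e20], [e4], [e5, e6]], [], [], (nat_lit 13), (nat_lit 0x3ffcfcff), (nat_lit 0), (nat_lit 3), (nat_lit 7)⟩, [⟨(nat_lit 69), (nat_lit 0)⟩, ⟨(nat_lit 131), (nat_lit 0)⟩, ⟨(nat_lit 100), (nat_lit 0)⟩], ⟨(nat_lit 128), [], [], true⟩, []⟩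
def f1127 : Fc := ⟨true, ⟨[[e84, e106, e101], [e24, e97, e99], [e19, e33], [e3, e20], [e4], [e5, e6]], [], [], (nat_lit 13), (nat_lit 0x3ffcfcff), (nat_lit 0), (nat_lit 3), (nat_lit 7)⟩, [], ⟨(nat_lit 128), [], [], true⟩, []⟩
def f1128 : Fc := ⟨true, ⟨[[e24, e97, e99], [e19, e33], [e3, e20], [e4], [e5, e6]], [], [], (nat_lit 10), (nat_lit 0xfcfcff), (nat_lit 0), (nat_lit 6), (nat_lit 6)⟩, [⟨(nat_lit 37), (nat_lit 0)⟩, ⟨(nat_lit 99), (nat_lit 0)⟩, ⟨(nat_lit 68), (nat_lit 0)⟩], ⟨(nat_lit 1), [], [], true⟩, []⟩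
def f1129 : Fc := ⟨true, ⟨[[e24, e97, e99], [e19, e33], [e3, e20], [e4], [e5, e6]], [], [], (nat_lit 10), (nat_lit 0xfcfcff), (nat_lit 0), (nat_lit 6), (nat_lit 6)⟩, [], ⟨(nat_lit 1), [], [], true⟩, []⟩
def f1130 : Fc := ⟨true, ⟨[[e24, e97, e99, e108], [e19, e33], [e3, e20], [e4], [e5, e6]], [], [], (nat_lit 11), (nat_lit 0x3fcfcff), (nat_lit 0), (nat_lit 5), (nat_lit 6)⟩, [⟨(nat_lit 99), (nat_lit 0)⟩], ⟨(nat_lit 1), [], [], true⟩, []⟩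
def f1131 : Fc := ⟨true, ⟨[[e104, e109], [e24, e97, e99, e108], [e19, e33], [e3, e20], [e4], [e5, e6]], [], [], (nat_lit 13), (nat_lit 0x3ffcfcff), (nat_lit 0), (nat_lit 3), (nat_lit 7)⟩, [], ⟨(nat_lit 128), [], [], true⟩, []⟩
def f1132 : Fc := ⟨true, ⟨[[e24, e97, e99, e108], [e19, e33], [e3, e20], [e4], [e5, e6]], [e104], [], (nat_lit 12), (nat_lit 0xffcfcff), (nat_lit 0), (nat_lit 4), (nat_lit 6)⟩, [⟨(nat_lit 99), (nat_lit 0)⟩], ⟨(nat_lit 1), [], [], true⟩, []⟩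
def f1133 : Fc := ⟨true, ⟨[[e24, e97, e99, e108], [e19, e33], [e3, e20], [e4], [e5, e6]], [e105, e104], [], (nat_lit 13), (nat_lit 0x3ffcfcff), (nat_lit 0), (nat_lit 3), (nat_lit 6)⟩, [⟨(nat_lit 99), (nat_lit 0)⟩], ⟨(nat_lit 1), [], [], true⟩, []⟩
def f1134 : Fc := ⟨true, ⟨[[e106, e110], [e24, e97, e99, e108], [e19, e33], [e3, e20], [e4], [e5, e6]], [], [], (nat_lit 13), (nat_lit 0x3ffcfcff), (nat_lit 0), (nat_lit 3), (nat_lit 7)⟩, [⟨(nat_lit 100), (nat_lit 0)⟩, ⟨(nat_lit 131), (nat_lit 0)⟩], ⟨(nat_lit 31104), [], [], true⟩, []⟩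
def f1135 : Fc := ⟨true, ⟨[[e106, e110], [e24, e97, e99, e108], [e19, e33], [e3, e20], [e4], [e5, e6]], [], [], (nat_lit 13), (nat_lit 0x3ffcfcff), (nat_lit 0), (nat_lit 3), (nat_lit 7)⟩, [], ⟨(nat_lit 31104), [], [], true⟩, []⟩
def f1136 : Fc := ⟨true, ⟨[[e24, e97, e99, e108], [e19, e33], [e3, e20], [e4], [e5, e6]], [e106], [], (nat_lit 12), (nat_lit 0xffcfcff), (nat_lit 0), (nat_lit 4), (nat_lit 6)⟩, [⟨(nat_lit 99), (nat_lit 0)⟩], ⟨(nat_lit 128), [], [], true⟩, []⟩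
def f1137 : Fc := ⟨true, ⟨[[e24, e97, e99, e108], [e19, e33], [e3, e20], [e4], [e5, e6]], [], [], (nat_lit 11), (nat_lit 0x3fcfcff), (nat_lit 0), (nat_lit 5), (nat_lit 6)⟩, [⟨(nat_lit 68), (nat_lit 0)⟩, ⟨(nat_lit 99), (nat_lit 0)⟩], ⟨(nat_lit 1), [], [], true⟩, []⟩
def f1138 : Fc := ⟨true, ⟨[[e24, e97, e99, e108], [e19, e33], [e3, e20], [e4], [e5, e6]], [e87], [], (nat_lit 12), (nat_lit 0xffcfcff), (nat_lit 0), (nat_lit 4), (nat_lit 6)⟩, [⟨(nat_lit 99), (nat_lit 0)⟩], ⟨(nat_lit 1), [], [], true⟩, []⟩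
def f1139 : Fc := ⟨true, ⟨[[e24, e97, e99, e108], [e19, e33], [e3, e20], [e4], [e5, e6]], [e111, e87], [], (nat_lit 13), (nat_lit 0x3ffcfcff), (nat_lit 0), (nat_lit 3), (nat_lit 6)⟩, [⟨(nat_lit 99), (nat_lit 0)⟩], ⟨(nat_lit 1), [], [], true⟩, []⟩
def f1140 : Fc := ⟨true, ⟨[[e87, e112], [e24, e97, e99, e108], [e19, e33], [e3, e20], [e4], [e5, e6]], [], [], (nat_lit 13), (nat_lit 0x3ffcfcff), (nat_lit 0), (nat_lit 3), (nat_lit 7)⟩, [], ⟨(nat_lit 128), [], [], true⟩, []⟩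
def f1141 : Fc := ⟨true, ⟨[[e24, e97, e99, e108], [e19, e33], [e3, e20], [e4], [e5, e6]], [e112, e87], [], (nat_lit 13), (nat_lit 0x3ffcfcff), (nat_lit 0), (nat_lit 3), (nat_lit 6)⟩, [⟨(nat_lit 99), (nat_lit 0)⟩], ⟨(nat_lit 128), [], [], true⟩, []⟩
def f1142 : Fc := ⟨true, ⟨[[e24, e97, e99, e108], [e19, e33], [e3, e20], [e4], [e5, e6]], [], [], (nat_lit 11), (nat_lit 0x3fcfcff), (nat_lit 0), (nat_lit 5), (nat_lit 6)⟩, [], ⟨(nat_lit 1), [], [], true⟩, []⟩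
def f1143 : Fc := ⟨true, ⟨[[e24, e113], [e19, e33], [e3, e20], [e4], [e5, e6]], [e114], [], (nat_lit 10), (nat_lit 0xfcfcff), (nat_lit 0), (nat_lit 6), (nat_lit 6)⟩, [⟨(nat_lit 99), (nat_lit 0)⟩], ⟨(nat_lit 128), [], [], false⟩, []⟩
def f1144 : Fc := ⟨true, ⟨[[e115], [e26, e116], [e24, e113], [e19, e33], [e3, e20], [e4], [e5, e6]], [], [], (nat_lit 12), (nat_lit 0xffcfcff), (nat_lit 0), (nat_lit 4), (nat_lit 8)⟩, [], ⟨(nat_lit 31104), [], [], true⟩, []⟩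
def f1145 : Fc := ⟨true, ⟨[[e26, e116], [e24, e113], [e19, e33], [e3, e20], [e4], [e5, e6]], [e115], [], (nat_lit 12), (nat_lit 0xffcfcff), (nat_lit 0), (nat_lit 4), (nat_lit 7)⟩, [⟨(nat_lit 100), (nat_lit 0)⟩], ⟨(nat_lit 31104), [], [], true⟩, [⟨[(nat_lit 1), (nat_lit 32), (nat_lit 33), (nat_lit 34), (nat_lit 35), (nat_lit 36), (nat_lit 37), (nat_lit 65), (nat_lit 66), (nat_lit 67), (nat_lit 68), (nat_lit 69), (nat_lit 70), (nat_lit 100), (nat_lit 101), (nat_lit 133)], [(nat_lit 1), (nat_lit 0x100000000000000000000000000000000), (nat_lit 2)], (nat_lit 1), (nat_lit 0)⟩, ⟨[(nat_lit 1), (nat_lit 32), (nat_lit 33), (nat_lit 34), (nat_lit 35), (nat_lit 36), (nat_lit 37), (nat_lit 65), (nat_lit 66), (nat_lit 67), (nat_lit 68), (nat_lit 69), (nat_lit 100), (nat_lit 101), (nat_lit 102), (nat_lit 133)], [(nat_lit 1), (nat_lit 0x100000000000000000000000000000027),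 (nat_lit 0)], (nat_lit 1), (nat_lit 0)⟩]⟩
def f1146 : Fc := ⟨true, ⟨[[e26, e116], [e24, e113], [e19, e33], [e3, e20], [e4], [e5, e6]], [], [], (nat_lit 11), (nat_lit 0x3fcfcff), (nat_lit 0), (nat_lit 5), (nat_lit 7)⟩, [⟨(nat_lit 69), (nat_lit 0)⟩, ⟨(nat_lit 100), (nat_lit 0)⟩], ⟨(nat_lit 128), [], [], true⟩, [⟨[(nat_lit 1), (nat_lit 32), (nat_lit 33), (nat_lit 34), (nat_lit 35), (nat_lit 36), (nat_lit 37), (nat_lit 65), (nat_lit 66), (nat_lit 67), (nat_lit 68), (nat_lit 69), (nat_lit 100), (nat_lit 101), (nat_lit 102), (nat_lit 133)], [(nat_lit 1), (nat_lit 0x100000000000000000000000000000027), (nat_lit 0)], (nat_lit 1), (nat_lit 0)⟩, ⟨[(nat_lit 1), (nat_lit 32), (nat_lit 33), (nat_lit 34), (nat_lit 35), (nat_lit 36), (nat_lit 37), (nat_lit 65), (nat_lit 66), (nat_lit 67), (nat_lit 68), (nat_lit 69), (nat_lit 70), (nat_lit 100), (nat_lit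 101), (nat_lit 133)], [(nat_lit 1), (nat_lit 0x100000000000000000000000000000000), (nat_lit 2)], (nat_lit 1), (nat_lit 0)⟩]⟩
def f1147 : Fc := ⟨true, ⟨[[e29, e117], [e26, e116], [e24, e113], [e19, e33], [e3, e20], [e4], [e5, e6]], [], [], (nat_lit 13), (nat_lit 0x3ffcfcff), (nat_lit 0), (nat_lit 3), (nat_lit 8)⟩, [], ⟨(nat_lit 31104), [], [], true⟩, []⟩
def f1148 : Fc := ⟨true, ⟨[[e26, e116], [e24, e113], [e19, e33], [e3, e20], [e4], [e5, e6]], [e117, e29], [], (nat_lit 13), (nat_lit 0x3ffcfcff), (nat_lit 0), (nat_lit 3), (nat_lit 7)⟩, [⟨(nat_lit 100), (nat_lit 0)⟩], ⟨(nat_lit 31104), [], [], true⟩, []⟩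
def f1149 : Fc := ⟨true, ⟨[[e26, e116], [e24, e113], [e19, e33], [e3, e20], [e4], [e5, e6]], [e29], [], (nat_lit 12), (nat_lit 0xffcfcff), (nat_lit 0), (nat_lit 4), (nat_lit 7)⟩, [⟨(nat_lit 69), (nat_lit 0)⟩, ⟨(nat_lit 100), (nat_lit 0)⟩], ⟨(nat_lit 128), [], [], true⟩, []⟩
def f1150 : Fc := ⟨true, ⟨[[e26, e116], [e24, e113], [e19, e33], [e3, e20], [e4], [e5, e6]], [], [], (nat_lit 11), (nat_lit 0x3fcfcff), (nat_lit 0), (nat_lit 5), (nat_lit 7)⟩, [], ⟨(nat_lit 128), [], [], true⟩, [⟨[(nat_lit 1), (nat_lit 32), (nat_lit 33), (nat_lit 34), (nat_lit 35), (nat_lit 36), (nat_lit 37), (nat_lit 65), (nat_lit 66), (nat_lit 67), (nat_lit 68), (nat_lit 69), (nat_lit 70), (nat_lit 100), (nat_lit 101), (nat_lit 133)], [(nat_lit 1), (nat_lit 0x100000000000000000000000000000000), (nat_lit 2)], (nat_lit 1), (nat_lit 0)⟩, ⟨[(nat_lit 1), (nat_lit 32), (nat_lit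 33), (nat_lit 34), (nat_lit 35), (nat_lit 36), (nat_lit 37), (nat_lit 65), (nat_lit 66), (nat_lit 67), (nat_lit 68), (nat_lit 69), (nat_lit 100), (nat_lit 101), (nat_lit 102), (nat_lit 133)], [(nat_lit 1), (nat_lit 0x100000000000000000000000000000027), (nat_lit 0)], (nat_lit 1), (nat_lit 0)⟩]⟩
def f1151 : Fc := ⟨true, ⟨[[e118, e119, e120], [e121, e122], [e123, e124], [e125, e126], [e127], [e5, e6]], [e128], [], (nat_lit 13), (nat_lit 0x3ffcfcff), (nat_lit 0), (nat_lit 3), (nat_lit 7)⟩, [⟨(nat_lit 100), (nat_lit 0)⟩, ⟨(nat_lit 131), (nat_lit 0)⟩], ⟨(nat_lit 128), [], [], true⟩, []⟩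
def f1152 : Fc := ⟨true, ⟨[[e118, e119, e120], [e121, e122], [e123, e124], [e125, e126], [e127], [e5, e6]], [], [], (nat_lit 12), (nat_lit 0xffcfcff), (nat_lit 0), (nat_lit 4), (nat_lit 7)⟩, [⟨(nat_lit 38), (nat_lit 0)⟩, ⟨(nat_lit 131), (nat_lit 0)⟩, ⟨(nat_lit 100), (nat_lit 0)⟩, ⟨(nat_lit 69), (nat_lit 0)⟩], ⟨(nat_lit 1), [], [], true⟩, []⟩
def f1153 : Fc := ⟨true, ⟨[[e118, e119, e120], [e121, e122], [e123, e124], [e125, e126], [e127], [e5, e6]], [], [], (nat_lit 12), (nat_lit 0xffcfcff), (nat_lit 0), (nat_lit 4), (nat_lit 7)⟩, [], ⟨(nat_lit 1), [], [], true⟩, []⟩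
def f1154 : Fc := ⟨true, ⟨[[e24, e113], [e19, e33], [e3, e20], [e4], [e5, e6]], [], [], (nat_lit 9), (nat_lit 0x3cfcff), (nat_lit 0), (nat_lit 7), (nat_lit 6)⟩, [⟨(nat_lit 37), (nat_lit 0)⟩, ⟨(nat_lit 99), (nat_lit 0)⟩, ⟨(nat_lit 68), (nat_lit 0)⟩], ⟨(nat_lit 128), [], [], true⟩, [⟨[(nat_lit 1), (nat_lit 32), (nat_lit 33), (nat_lit 34), (nat_lit 35), (nat_lit 36), (nat_lit 37), (nat_lit 65), (nat_lit 66), (nat_lit 67), (nat_lit 68), (nat_lit 69), (nat_lit 100), (nat_lit 101), (nat_lit 102), (nat_lit 133)], [(nat_lit 1), (nat_lit 0x100000000000000000000000000000027), (nat_lit 0)], (nat_lit 1), (nat_lit 0)⟩, ⟨[(nat_lit 1), (nat_lit 32), (nat_lit 33), (nat_lit 34), (nat_lit 35), (nat_lit 36), (nat_lit 37), (nat_lit 65), (nat_lit 66), (nat_lit 67), (nat_lit 68), (nat_lit 69), (nat_lit 70), (nat_lit 100), (nat_lit 101), (nat_lit 133)], [(nat_lit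 1), (nat_lit 0x100000000000000000000000000000000), (nat_lit 2)], (nat_lit 1), (nat_lit 0)⟩]⟩
def f1155 : Fc := ⟨true, ⟨[[e24, e113], [e19, e33], [e3, e20], [e4], [e5, e6]], [], [], (nat_lit 9), (nat_lit 0x3cfcff), (nat_lit 0), (nat_lit 7), (nat_lit 6)⟩, [], ⟨(nat_lit 128), [], [], true⟩, [⟨[(nat_lit 1), (nat_lit 32), (nat_lit 33), (nat_lit 34), (nat_lit 35), (nat_lit 36), (nat_lit 37), (nat_lit 65), (nat_lit 66), (nat_lit 67), (nat_lit 68), (nat_lit 69), (nat_lit 70), (nat_lit 100), (nat_lit 101), (nat_lit 133)], [(nat_lit 1), (nat_lit 0x100000000000000000000000000000000), (nat_lit 2)], (nat_lit 1), (nat_lit 0)⟩, ⟨[(nat_lit 1), (nat_lit 32), (nat_lit 33), (nat_lit 34), (nat_lit 35), (nat_lit 36), (nat_lit 37), (nat_lit 65), (nat_lit 66), (nat_lit 67), (nat_lit 68), (nat_lit 69), (nat_lit 100), (nat_lit 101), (nat_lit 102), (nat_lit 133)],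 [(nat_lit 1), (nat_lit 0x100000000000000000000000000000027), (nat_lit 0)], (nat_lit 1), (nat_lit 0)⟩]⟩
def f1156 : Fc := ⟨true, ⟨[[e116, e129], [e24, e113, e61], [e19, e33], [e3, e20], [e4], [e5, e6]], [e130], [], (nat_lit 13), (nat_lit 0x3ffcfcff), (nat_lit 0), (nat_lit 3), (nat_lit 7)⟩, [⟨(nat_lit 131), (nat_lit 0)⟩], ⟨(nat_lit 31104), [], [], true⟩, []⟩
def f1157 : Fc := ⟨true, ⟨[[e116, e129], [e24, e113, e61], [e19, e33], [e3, e20], [e4], [e5, e6]], [], [], (nat_lit 12), (nat_lit 0xffcfcff), (nat_lit 0), (nat_lit 4), (nat_lit 7)⟩, [⟨(nat_lit 100), (nat_lit 0)⟩, ⟨(nat_lit 131), (nat_lit 0)⟩], ⟨(nat_lit 128), [], [], true⟩, []⟩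
def f1158 : Fc := ⟨true, ⟨[[e131, e132], [e116, e129], [e24, e113, e61], [e19, e33], [e3, e20], [e4], [e5, e6]], [], [], (nat_lit 14), (nat_lit 0xfffcfcff), (nat_lit 0), (nat_lit 2), (nat_lit 8)⟩, [], ⟨(nat_lit 31104), [], [], true⟩, [⟨[(nat_lit 1), (nat_lit 32), (nat_lit 33), (nat_lit 34), (nat_lit 35), (nat_lit 36), (nat_lit 65), (nat_lit 66), (nat_lit 67), (nat_lit 68), (nat_lit 69), (nat_lit 98), (nat_lit 99), (nat_lit 100), (nat_lit 101), (nat_lit 102)], [(nat_lit 1), (nat_lit 0x100000000000000000000000000000000), (nat_lit 193)], (nat_lit 0), (nat_lit 1)⟩]⟩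
def f1159 : Fc := ⟨true, ⟨[[e116, e129], [e24, e113, e61], [e19, e33], [e3, e20], [e4], [e5, e6]], [], [], (nat_lit 12), (nat_lit 0xffcfcff), (nat_lit 0), (nat_lit 4), (nat_lit 7)⟩, [], ⟨(nat_lit 128), [], [], true⟩, []⟩
def f1160 : Fc := ⟨true, ⟨[[e84, e133], [e24, e113, e61], [e19, e33], [e3, e20], [e4], [e5, e6]], [e134], [], (nat_lit 13), (nat_lit 0x3ffcfcff), (nat_lit 0), (nat_lit 3), (nat_lit 7)⟩, [⟨(nat_lit 100), (nat_lit 0)⟩], ⟨(nat_lit 31104), [], [], true⟩, []⟩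
def f1161 : Fc := ⟨true, ⟨[[e84, e133], [e24, e113, e61], [e19, e33], [e3, e20], [e4], [e5, e6]], [], [], (nat_lit 12), (nat_lit 0xffcfcff), (nat_lit 0), (nat_lit 4), (nat_lit 7)⟩, [⟨(nat_lit 69), (nat_lit 0)⟩, ⟨(nat_lit 100), (nat_lit 0)⟩], ⟨(nat_lit 128), [], [], true⟩, []⟩
def f1162 : Fc := ⟨true, ⟨[[e84, e133], [e24, e113, e61], [e19, e33], [e3, e20], [e4], [e5, e6]], [], [], (nat_lit 12), (nat_lit 0xffcfcff), (nat_lit 0), (nat_lit 4), (nat_lit 7)⟩, [], ⟨(nat_lit 128), [], [], true⟩, []⟩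
def f1163 : Fc := ⟨true, ⟨[[e84, e133, e135], [e24, e113, e61], [e19, e33], [e3, e20], [e4], [e5, e6]], [], [], (nat_lit 13), (nat_lit 0x3ffcfcff), (nat_lit 0), (nat_lit 3), (nat_lit 7)⟩, [⟨(nat_lit 69), (nat_lit 0)⟩, ⟨(nat_lit 131), (nat_lit 0)⟩, ⟨(nat_lit 100), (nat_lit 0)⟩], ⟨(nat_lit 128), [], [], true⟩, []⟩
def f1164 : Fc := ⟨true, ⟨[[e84, e133, e135], [e24, e113, e61], [e19, e33], [e3, e20], [e4], [e5, e6]], [], [], (nat_lit 13), (nat_lit 0x3ffcfcff), (nat_lit 0), (nat_lit 3), (nat_lit 7)⟩, [], ⟨(nat_lit 128), [], [], true⟩, []⟩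
def f1165 : Fc := ⟨true, ⟨[[e24, e113, e61], [e19, e33], [e3, e20], [e4], [e5, e6]], [], [], (nat_lit 10), (nat_lit 0xfcfcff), (nat_lit 0), (nat_lit 6), (nat_lit 6)⟩, [⟨(nat_lit 37), (nat_lit 0)⟩, ⟨(nat_lit 99), (nat_lit 0)⟩, ⟨(nat_lit 68), (nat_lit 0)⟩], ⟨(nat_lit 128), [], [], true⟩, []⟩
def f1166 : Fc := ⟨true, ⟨[[e24, e113, e61], [e19, e33], [e3, e20], [e4], [e5, e6]], [], [], (nat_lit 10), (nat_lit 0xfcfcff), (nat_lit 0), (nat_lit 6), (nat_lit 6)⟩, [], ⟨(nat_lit 128), [], [], true⟩, []⟩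
def f1167 : Fc := ⟨true, ⟨[[e19, e33], [e3, e20], [e4], [e5, e6]], [], [], (nat_lit 7), (nat_lit 64767), (nat_lit 0), (nat_lit 9), (nat_lit 5)⟩, [⟨(nat_lit 36), (nat_lit 0)⟩, ⟨(nat_lit 98), (nat_lit 0)⟩, ⟨(nat_lit 67), (nat_lit 0)⟩], ⟨(nat_lit 1), [], [], true⟩, [⟨[(nat_lit 1), (nat_lit 32), (nat_lit 33), (nat_lit 34), (nat_lit 35), (nat_lit 36), (nat_lit 37), (nat_lit 65), (nat_lit 66), (nat_lit 67), (nat_lit 68), (nat_lit 69), (nat_lit 100), (nat_lit 101), (nat_lit 102), (nat_lit 133)], [(nat_lit 1), (nat_lit 0x100000000000000000000000000000027), (nat_lit 0)], (nat_lit 1), (nat_lit 0)⟩, ⟨[(nat_lit 1), (nat_lit 32), (nat_lit 33), (nat_lit 34), (nat_lit 35), (nat_lit 36), (nat_lit 37), (nat_lit 65), (nat_lit 66), (nat_lit 67), (nat_lit 68), (nat_lit 69), (nat_lit 70), (nat_lit 100), (nat_lit 101), (nat_lit 133)], [(nat_lit 1), (nat_lit 0x100000000000000000000000000000000),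 (nat_lit 2)], (nat_lit 1), (nat_lit 0)⟩]⟩
def f1168 : Fc := ⟨true, ⟨[[e19, e33], [e3, e20], [e4], [e5, e6]], [], [], (nat_lit 7), (nat_lit 64767), (nat_lit 0), (nat_lit 9), (nat_lit 5)⟩, [], ⟨(nat_lit 1), [], [], true⟩, [⟨[(nat_lit 1), (nat_lit 32), (nat_lit 33), (nat_lit 34), (nat_lit 35), (nat_lit 36), (nat_lit 37), (nat_lit 65), (nat_lit 66), (nat_lit 67), (nat_lit 68), (nat_lit 69), (nat_lit 70), (nat_lit 100), (nat_lit 101), (nat_lit 133)], [(nat_lit 1), (nat_lit 0x100000000000000000000000000000000), (nat_lit 2)], (nat_lit 1), (nat_lit 0)⟩, ⟨[(nat_lit 1), (nat_lit 32), (nat_lit 33), (nat_lit 34), (nat_lit 35), (nat_lit 36), (nat_lit 37), (nat_lit 65), (nat_lit 66), (nat_lit 67), (nat_lit 68), (nat_lit 69), (nat_lit 100), (nat_lit 101), (nat_lit 102), (nat_lit 133)], [(nat_lit 1), (nat_lit 0x100000000000000000000000000000027), (nat_lit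 0)], (nat_lit 1), (nat_lit 0)⟩, ⟨[(nat_lit 1), (nat_lit 32), (nat_lit 33), (nat_lit 34), (nat_lit 35), (nat_lit 65), (nat_lit 66), (nat_lit 67), (nat_lit 67), (nat_lit 68), (nat_lit 98), (nat_lit 99), (nat_lit 100), (nat_lit 101), (nat_lit 131), (nat_lit 132)], [(nat_lit 1), (nat_lit 0x100000000000000000000000000000000), (nat_lit 2)], (nat_lit 1), (nat_lit 0)⟩]⟩
def f1169 : Fc := ⟨true, ⟨[[e2, e19, e33], [e3, e20], [e4], [e5, e6]], [e7], [], (nat_lit 9), (nat_lit 851967), (nat_lit 0), (nat_lit 7), (nat_lit 5)⟩, [⟨(nat_lit 129), (nat_lit 0)⟩], ⟨(nat_lit 1), [], [], true⟩, []⟩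
def f1170 : Fc := ⟨true, ⟨[[e36, e37], [e7, e34, e35], [e2, e19, e33], [e3, e20], [e4], [e5, e6]], [], [], (nat_lit 13), (nat_lit 0xffcffff), (nat_lit 0), (nat_lit 3), (nat_lit 7)⟩, [], ⟨(nat_lit 1), [], [], true⟩, []⟩
def f1171 : Fc := ⟨true, ⟨[[e7, e34, e35], [e2, e19, e33], [e3, e20], [e4], [e5, e6]], [e38], [], (nat_lit 12), (nat_lit 0x3fcffff), (nat_lit 0), (nat_lit 4), (nat_lit 6)⟩, [⟨(nat_lit 161), (nat_lit 0)⟩], ⟨(nat_lit 128), [], [], true⟩, []⟩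
def f1172 : Fc := ⟨true, ⟨[[e7, e34, e35], [e2, e19, e33], [e3, e20], [e4], [e5, e6]], [], [], (nat_lit 11), (nat_lit 0xfcffff), (nat_lit 0), (nat_lit 5), (nat_lit 6)⟩, [⟨(nat_lit 130), (nat_lit 0)⟩, ⟨(nat_lit 161), (nat_lit 0)⟩], ⟨(nat_lit 1), [], [], true⟩, []⟩
def f1173 : Fc := ⟨true, ⟨[[e41, e43], [e7, e34, e35], [e2, e19, e33], [e3, e20], [e4], [e5, e6]], [], [], (nat_lit 13), (nat_lit 0xffcffff), (nat_lit 0), (nat_lit 3), (nat_lit 7)⟩, [], ⟨(nat_lit 128), [], [], true⟩, []⟩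
def f1174 : Fc := ⟨true, ⟨[[e7, e34, e35], [e2, e19, e33], [e3, e20], [e4], [e5, e6]], [e41], [], (nat_lit 12), (nat_lit 0x3fcffff), (nat_lit 0), (nat_lit 4), (nat_lit 6)⟩, [⟨(nat_lit 130), (nat_lit 0)⟩, ⟨(nat_lit 161), (nat_lit 0)⟩], ⟨(nat_lit 1), [], [], true⟩, []⟩
def f1175 : Fc := ⟨true, ⟨[[e7, e34, e35], [e2, e19, e33], [e3, e20], [e4], [e5, e6]], [], [], (nat_lit 11), (nat_lit 0xfcffff), (nat_lit 0), (nat_lit 5), (nat_lit 6)⟩, [], ⟨(nat_lit 1), [], [], true⟩, []⟩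
def f1176 : Fc := ⟨true, ⟨[[e46, e9], [e47, e10], [e2, e19, e33], [e3, e20], [e4], [e5, e6]], [], [], (nat_lit 12), (nat_lit 0x3fcffff), (nat_lit 0), (nat_lit 4), (nat_lit 7)⟩, [⟨(nat_lit 131), (nat_lit 0)⟩, ⟨(nat_lit 193), (nat_lit 0)⟩, ⟨(nat_lit 162), (nat_lit 0)⟩], ⟨(nat_lit 128), [], [], true⟩, []⟩
def f1177 : Fc := ⟨true, ⟨[[e46, e9], [e47, e10], [e2, e19, e33], [e3, e20], [e4], [e5, e6]], [], [], (nat_lit 12), (nat_lit 0x3fcffff), (nat_lit 0), (nat_lit 4), (nat_lit 7)⟩, [], ⟨(nat_lit 128), [], [], true⟩, []⟩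
def f1178 : Fc := ⟨true, ⟨[[e54, e10], [e2, e19, e33], [e3, e20], [e4], [e5, e6]], [e52, e51], [], (nat_lit 12), (nat_lit 0x3fcffff), (nat_lit 0), (nat_lit 4), (nat_lit 6)⟩, [⟨(nat_lit 161), (nat_lit 0)⟩], ⟨(nat_lit 1), [], [], true⟩, []⟩
def f1179 : Fc := ⟨true, ⟨[[e47, e10], [e2, e19, e33], [e3, e20], [e4], [e5, e6]], [], [], (nat_lit 10), (nat_lit 0x3cffff), (nat_lit 0), (nat_lit 6), (nat_lit 6)⟩, [⟨(nat_lit 99), (nat_lit 0)⟩, ⟨(nat_lit 161), (nat_lit 0)⟩, ⟨(nat_lit 130), (nat_lit 0)⟩], ⟨(nat_lit 128), [], [], false⟩, []⟩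
def f1180 : Fc := ⟨true, ⟨[[e47, e10], [e2, e19, e33], [e3, e20], [e4], [e5, e6]], [], [], (nat_lit 10), (nat_lit 0x3cffff), (nat_lit 0), (nat_lit 6), (nat_lit 6)⟩, [], ⟨(nat_lit 128), [], [], true⟩, []⟩
def f1181 : Fc := ⟨true, ⟨[[e2, e19, e33], [e3, e20], [e4], [e5, e6]], [], [], (nat_lit 8), (nat_lit 65535), (nat_lit 0), (nat_lit 8), (nat_lit 5)⟩, [⟨(nat_lit 98), (nat_lit 0)⟩, ⟨(nat_lit 129), (nat_lit 0)⟩], ⟨(nat_lit 1), [], [], true⟩, []⟩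
def f1182 : Fc := ⟨true, ⟨[[e55, e56, e35], [e2, e19, e33], [e3, e20], [e4], [e5, e6]], [], [], (nat_lit 11), (nat_lit 0xfcffff), (nat_lit 0), (nat_lit 5), (nat_lit 6)⟩, [⟨(nat_lit 99), (nat_lit 0)⟩, ⟨(nat_lit 161), (nat_lit 0)⟩, ⟨(nat_lit 130), (nat_lit 0)⟩], ⟨(nat_lit 1), [], [], true⟩, []⟩
def f1183 : Fc := ⟨true, ⟨[[e55, e56, e35], [e2, e19, e33], [e3, e20], [e4], [e5, e6]], [], [], (nat_lit 11), (nat_lit 0xfcffff), (nat_lit 0), (nat_lit 5), (nat_lit 6)⟩, [], ⟨(nat_lit 1), [], [], true⟩, []⟩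
def f1184 : Fc := ⟨true, ⟨[[e59, e60], [e55, e56, e61], [e2, e19, e33], [e3, e20], [e4], [e5, e6]], [], [], (nat_lit 13), (nat_lit 0xffcffff), (nat_lit 0), (nat_lit 3), (nat_lit 7)⟩, [], ⟨(nat_lit 1), [], [], true⟩, []⟩
def f1185 : Fc := ⟨true, ⟨[[e55, e56, e61], [e2, e19, e33], [e3, e20], [e4], [e5, e6]], [e63], [], (nat_lit 12), (nat_lit 0x3fcffff), (nat_lit 0), (nat_lit 4), (nat_lit 6)⟩, [⟨(nat_lit 130), (nat_lit 0)⟩], ⟨(nat_lit 128), [], [], true⟩, []⟩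
def f1186 : Fc := ⟨true, ⟨[[e55, e56, e61], [e2, e19, e33], [e3, e20], [e4], [e5, e6]], [], [], (nat_lit 11), (nat_lit 0xfcffff), (nat_lit 0), (nat_lit 5), (nat_lit 6)⟩, [], ⟨(nat_lit 1), [], [], true⟩, []⟩
def f1187 : Fc := ⟨true, ⟨[[e55, e56, e61, e67], [e2, e19, e33], [e3, e20], [e4], [e5, e6]], [e72], [], (nat_lit 13), (nat_lit 0xffcffff), (nat_lit 0), (nat_lit 3), (nat_lit 6)⟩, [⟨(nat_lit 130), (nat_lit 0)⟩, ⟨(nat_lit 161), (nat_lit 0)⟩], ⟨(nat_lit 128), [], [], true⟩, []⟩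
def f1188 : Fc := ⟨true, ⟨[[e55, e56, e61, e67], [e2, e19, e33], [e3, e20], [e4], [e5, e6]], [], [], (nat_lit 12), (nat_lit 0x3fcffff), (nat_lit 0), (nat_lit 4), (nat_lit 6)⟩, [⟨(nat_lit 99), (nat_lit 0)⟩, ⟨(nat_lit 161), (nat_lit 0)⟩, ⟨(nat_lit 130), (nat_lit 0)⟩], ⟨(nat_lit 1), [], [], true⟩, []⟩
def f1189 : Fc := ⟨true, ⟨[[e55, e56, e61, e67], [e2, e19, e33], [e3, e20], [e4], [e5, e6]], [], [], (nat_lit 12), (nat_lit 0x3fcffff), (nat_lit 0), (nat_lit 4), (nat_lit 6)⟩, [], ⟨(nat_lit 1), [], [], true⟩, []⟩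
def f1190 : Fc := ⟨true, ⟨[[e78, e79], [e55, e75, e35], [e2, e19, e33], [e3, e20], [e4], [e5, e6]], [], [], (nat_lit 13), (nat_lit 0xffcffff), (nat_lit 0), (nat_lit 3), (nat_lit 7)⟩, [], ⟨(nat_lit 128), [], [], true⟩, []⟩
def f1191 : Fc := ⟨true, ⟨[[e55, e75, e35], [e2, e19, e33], [e3, e20], [e4], [e5, e6]], [], [], (nat_lit 11), (nat_lit 0xfcffff), (nat_lit 0), (nat_lit 5), (nat_lit 6)⟩, [⟨(nat_lit 99), (nat_lit 0)⟩, ⟨(nat_lit 161), (nat_lit 0)⟩, ⟨(nat_lit 130), (nat_lit 0)⟩], ⟨(nat_lit 128), [], [], true⟩, []⟩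
def f1192 : Fc := ⟨true, ⟨[[e55, e75, e35], [e2, e19, e33], [e3, e20], [e4], [e5, e6]], [], [], (nat_lit 11), (nat_lit 0xfcffff), (nat_lit 0), (nat_lit 5), (nat_lit 6)⟩, [], ⟨(nat_lit 128), [], [], true⟩, []⟩
def f1193 : Fc := ⟨true, ⟨[[e2, e19, e33], [e3, e20], [e4], [e5, e6]], [e55], [], (nat_lit 9), (nat_lit 851967), (nat_lit 0), (nat_lit 7), (nat_lit 5)⟩, [⟨(nat_lit 98), (nat_lit 0)⟩, ⟨(nat_lit 129), (nat_lit 0)⟩], ⟨(nat_lit 1), [], [], true⟩, []⟩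
def f1194 : Fc := ⟨true, ⟨[[e55, e28], [e2, e19, e33], [e3, e20], [e4], [e5, e6]], [], [], (nat_lit 10), (nat_lit 0x3cffff), (nat_lit 0), (nat_lit 6), (nat_lit 6)⟩, [], ⟨(nat_lit 1), [], [], true⟩, []⟩
def f1195 : Fc := ⟨true, ⟨[[e55, e28, e35], [e2, e19, e33], [e3, e20], [e4], [e5, e6]], [], [], (nat_lit 11), (nat_lit 0xfcffff), (nat_lit 0), (nat_lit 5), (nat_lit 6)⟩, [⟨(nat_lit 68), (nat_lit 0)⟩, ⟨(nat_lit 161), (nat_lit 0)⟩, ⟨(nat_lit 99), (nat_lit 0)⟩], ⟨(nat_lit 1), [], [], true⟩, []⟩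
def f1196 : Fc := ⟨true, ⟨[[e55, e28, e35], [e2, e19, e33], [e3, e20], [e4], [e5, e6]], [], [], (nat_lit 11), (nat_lit 0xfcffff), (nat_lit 0), (nat_lit 5), (nat_lit 6)⟩, [], ⟨(nat_lit 1), [], [], true⟩, []⟩
def f1197 : Fc := ⟨true, ⟨[[e55, e28, e86], [e2, e19, e33], [e3, e20], [e4], [e5, e6]], [], [], (nat_lit 11), (nat_lit 0xfcffff), (nat_lit 0), (nat_lit 5), (nat_lit 6)⟩, [⟨(nat_lit 99), (nat_lit 0)⟩], ⟨(nat_lit 1), [], [], true⟩, []⟩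
def f1198 : Fc := ⟨true, ⟨[[e90, e136], [e55, e28, e86], [e2, e19, e33], [e3, e20], [e4], [e5, e6]], [], [], (nat_lit 13), (nat_lit 0xffcffff), (nat_lit 0), (nat_lit 3), (nat_lit 7)⟩, [], ⟨(nat_lit 128), [], [], true⟩, []⟩
def f1199 : Fc := ⟨true, ⟨[[e55, e28, e86], [e2, e19, e33], [e3, e20], [e4], [e5, e6]], [], [], (nat_lit 11), (nat_lit 0xfcffff), (nat_lit 0), (nat_lit 5), (nat_lit 6)⟩, [], ⟨(nat_lit 1), [], [], true⟩, []⟩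
def f1200 : Fc := ⟨true, ⟨[[e55, e28, e86, e67], [e2, e19, e33], [e3, e20], [e4], [e5, e6]], [], [], (nat_lit 12), (nat_lit 0x3fcffff), (nat_lit 0), (nat_lit 4), (nat_lit 6)⟩, [⟨(nat_lit 99), (nat_lit 0)⟩, ⟨(nat_lit 161), (nat_lit 0)⟩, ⟨(nat_lit 130), (nat_lit 0)⟩], ⟨(nat_lit 1), [], [], true⟩, []⟩
def f1201 : Fc := ⟨true, ⟨[[e55, e28, e86, e67], [e2, e19, e33], [e3, e20], [e4], [e5, e6]], [], [], (nat_lit 12), (nat_lit 0x3fcffff), (nat_lit 0), (nat_lit 4), (nat_lit 6)⟩, [], ⟨(nat_lit 1), [], [], true⟩, []⟩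
def f1202 : Fc := ⟨true, ⟨[[e137], [e55, e28, e86, e108], [e2, e19, e33], [e3, e20], [e4], [e5, e6]], [], [], (nat_lit 13), (nat_lit 0xffcffff), (nat_lit 0), (nat_lit 3), (nat_lit 7)⟩, [], ⟨(nat_lit 128), [], [], true⟩, []⟩
def f1203 : Fc := ⟨true, ⟨[[e137, e138], [e55, e28, e86, e108], [e2, e19, e33], [e3, e20], [e4], [e5, e6]], [], [], (nat_lit 14), (nat_lit 0x3ffcffff), (nat_lit 0), (nat_lit 2), (nat_lit 7)⟩, [], ⟨(nat_lit 31104), [], [], true⟩, []⟩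
def f1204 : Fc := ⟨true, ⟨[[e139], [e55, e28, e86, e108], [e2, e19, e33], [e3, e20], [e4], [e5, e6]], [], [], (nat_lit 13), (nat_lit 0xffcffff), (nat_lit 0), (nat_lit 3), (nat_lit 7)⟩, [], ⟨(nat_lit 31104), [], [], true⟩, []⟩
def f1205 : Fc := ⟨true, ⟨[[e55, e28, e86, e108], [e2, e19, e33], [e3, e20], [e4], [e5, e6]], [], [], (nat_lit 12), (nat_lit 0x3fcffff), (nat_lit 0), (nat_lit 4), (nat_lit 6)⟩, [⟨(nat_lit 99), (nat_lit 0)⟩, ⟨(nat_lit 130), (nat_lit 0)⟩], ⟨(nat_lit 1), [], [], true⟩, []⟩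
def f1206 : Fc := ⟨true, ⟨[[e55, e28, e86, e108], [e2, e19, e33], [e3, e20], [e4], [e5, e6]], [], [], (nat_lit 12), (nat_lit 0x3fcffff), (nat_lit 0), (nat_lit 4), (nat_lit 6)⟩, [], ⟨(nat_lit 1), [], [], true⟩, []⟩
def f1207 : Fc := ⟨true, ⟨[[e140, e89], [e55, e28, e141], [e2, e19, e33], [e3, e20], [e4], [e5, e6]], [], [], (nat_lit 13), (nat_lit 0xffcffff), (nat_lit 0), (nat_lit 3), (nat_lit 7)⟩, [], ⟨(nat_lit 128), [], [], true⟩, []⟩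
def f1208 : Fc := ⟨true, ⟨[[e142], [e55, e28, e141], [e2, e19, e33], [e3, e20], [e4], [e5, e6]], [], [], (nat_lit 12), (nat_lit 0x3fcffff), (nat_lit 0), (nat_lit 4), (nat_lit 7)⟩, [], ⟨(nat_lit 31104), [], [], true⟩, []⟩
def f1209 : Fc := ⟨true, ⟨[[e55, e28, e141], [e2, e19, e33], [e3, e20], [e4], [e5, e6]], [e142], [], (nat_lit 12), (nat_lit 0x3fcffff), (nat_lit 0), (nat_lit 4), (nat_lit 6)⟩, [⟨(nat_lit 130), (nat_lit 0)⟩], ⟨(nat_lit 31104), [], [], false⟩, []⟩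
def f1210 : Fc := ⟨true, ⟨[[e55, e28, e141], [e2, e19, e33], [e3, e20], [e4], [e5, e6]], [], [], (nat_lit 11), (nat_lit 0xfcffff), (nat_lit 0), (nat_lit 5), (nat_lit 6)⟩, [⟨(nat_lit 99), (nat_lit 0)⟩, ⟨(nat_lit 130), (nat_lit 0)⟩], ⟨(nat_lit 128), [], [], true⟩, []⟩
def f1211 : Fc := ⟨true, ⟨[[e90, e143], [e55, e28, e141], [e2, e19, e33], [e3, e20], [e4], [e5, e6]], [], [], (nat_lit 13), (nat_lit 0xffcffff), (nat_lit 0), (nat_lit 3), (nat_lit 7)⟩, [], ⟨(nat_lit 128), [], [], true⟩, []⟩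
def f1212 : Fc := ⟨true, ⟨[[e90, e144], [e55, e28, e141], [e2, e19, e33], [e3, e20], [e4], [e5, e6]], [], [], (nat_lit 13), (nat_lit 0xffcffff), (nat_lit 0), (nat_lit 3), (nat_lit 7)⟩, [⟨(nat_lit 100), (nat_lit 0)⟩, ⟨(nat_lit 131), (nat_lit 0)⟩], ⟨(nat_lit 31104), [], [], true⟩, []⟩
def f1213 : Fc := ⟨true, ⟨[[e90, e144], [e55, e28, e141], [e2, e19, e33], [e3, e20], [e4], [e5, e6]], [], [], (nat_lit 13), (nat_lit 0xffcffff), (nat_lit 0), (nat_lit 3), (nat_lit 7)⟩, [], ⟨(nat_lit 31104), [], [], true⟩, []⟩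
def f1214 : Fc := ⟨true, ⟨[[e55, e28, e141], [e2, e19, e33], [e3, e20], [e4], [e5, e6]], [e90], [], (nat_lit 12), (nat_lit 0x3fcffff), (nat_lit 0), (nat_lit 4), (nat_lit 6)⟩, [⟨(nat_lit 99), (nat_lit 0)⟩, ⟨(nat_lit 130), (nat_lit 0)⟩], ⟨(nat_lit 128), [], [], true⟩, []⟩
def f1215 : Fc := ⟨true, ⟨[[e55, e28, e141], [e2, e19, e33], [e3, e20], [e4], [e5, e6]], [], [], (nat_lit 11), (nat_lit 0xfcffff), (nat_lit 0), (nat_lit 5), (nat_lit 6)⟩, [], ⟨(nat_lit 128), [], [], true⟩, []⟩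
def f1216 : Fc := ⟨true, ⟨[[e144], [e55, e28, e141, e67], [e2, e19, e33], [e3, e20], [e4], [e5, e6]], [], [], (nat_lit 13), (nat_lit 0xffcffff), (nat_lit 0), (nat_lit 3), (nat_lit 7)⟩, [], ⟨(nat_lit 31104), [], [], true⟩, []⟩
def f1217 : Fc := ⟨true, ⟨[[e55, e28, e141, e67], [e2, e19, e33], [e3, e20], [e4], [e5, e6]], [e144], [], (nat_lit 13), (nat_lit 0xffcffff), (nat_lit 0), (nat_lit 3), (nat_lit 6)⟩, [⟨(nat_lit 130), (nat_lit 0)⟩, ⟨(nat_lit 161), (nat_lit 0)⟩], ⟨(nat_lit 31104), [], [], true⟩, []⟩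
def f1218 : Fc := ⟨true, ⟨[[e55, e28, e141, e67], [e2, e19, e33], [e3, e20], [e4], [e5, e6]], [], [], (nat_lit 12), (nat_lit 0x3fcffff), (nat_lit 0), (nat_lit 4), (nat_lit 6)⟩, [⟨(nat_lit 99), (nat_lit 0)⟩, ⟨(nat_lit 161), (nat_lit 0)⟩, ⟨(nat_lit 130), (nat_lit 0)⟩], ⟨(nat_lit 128), [], [], true⟩, []⟩
def f1219 : Fc := ⟨true, ⟨[[e55, e28, e141, e67], [e2, e19, e33], [e3, e20], [e4], [e5, e6]], [], [], (nat_lit 12), (nat_lit 0x3fcffff), (nat_lit 0), (nat_lit 4), (nat_lit 6)⟩, [⟨(nat_lit 68), (nat_lit 0)⟩, ⟨(nat_lit 161), (nat_lit 0)⟩, ⟨(nat_lit 130), (nat_lit 0)⟩, ⟨(nat_lit 99), (nat_lit 0)⟩], ⟨(nat_lit 128), [], [], true⟩, []⟩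
def f1220 : Fc := ⟨true, ⟨[[e55, e28, e141, e67], [e2, e19, e33], [e3, e20], [e4], [e5, e6]], [], [], (nat_lit 12), (nat_lit 0x3fcffff), (nat_lit 0), (nat_lit 4), (nat_lit 6)⟩, [], ⟨(nat_lit 128), [], [], true⟩, []⟩
def f1221 : Fc := ⟨true, ⟨[[e2, e19, e33], [e3, e20], [e4], [e5, e6]], [e95], [], (nat_lit 9), (nat_lit 851967), (nat_lit 0), (nat_lit 7), (nat_lit 5)⟩, [⟨(nat_lit 129), (nat_lit 0)⟩], ⟨(nat_lit 128), [], [], true⟩, []⟩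
def f1222 : Fc := ⟨true, ⟨[[e95, e56, e35], [e2, e19, e33], [e3, e20], [e4], [e5, e6]], [e145], [], (nat_lit 12), (nat_lit 0x3fcffff), (nat_lit 0), (nat_lit 4), (nat_lit 6)⟩, [⟨(nat_lit 130), (nat_lit 0)⟩, ⟨(nat_lit 161), (nat_lit 0)⟩], ⟨(nat_lit 128), [], [], true⟩, []⟩
def f1223 : Fc := ⟨true, ⟨[[e95, e56, e35], [e2, e19, e33], [e3, e20], [e4], [e5, e6]], [], [], (nat_lit 11), (nat_lit 0xfcffff), (nat_lit 0), (nat_lit 5), (nat_lit 6)⟩, [⟨(nat_lit 99), (nat_lit 0)⟩, ⟨(nat_lit 161), (nat_lit 0)⟩, ⟨(nat_lit 130), (nat_lit 0)⟩], ⟨(nat_lit 128), [], [], true⟩, []⟩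
def f1224 : Fc := ⟨true, ⟨[[e146, e56, e35], [e2, e19, e33], [e3, e20], [e4], [e5, e6]], [e147], [], (nat_lit 12), (nat_lit 0x3fcffff), (nat_lit 0), (nat_lit 4), (nat_lit 6)⟩, [⟨(nat_lit 99), (nat_lit 0)⟩, ⟨(nat_lit 161), (nat_lit 0)⟩, ⟨(nat_lit 130), (nat_lit 0)⟩], ⟨(nat_lit 1), [], [], true⟩, []⟩
def f1225 : Fc := ⟨true, ⟨[[e95, e56, e35], [e2, e19, e33], [e3, e20], [e4], [e5, e6]], [], [], (nat_lit 11), (nat_lit 0xfcffff), (nat_lit 0), (nat_lit 5), (nat_lit 6)⟩, [⟨(nat_lit 68), (nat_lit 0)⟩, ⟨(nat_lit 161), (nat_lit 0)⟩, ⟨(nat_lit 130), (nat_lit 0)⟩, ⟨(nat_lit 99), (nat_lit 0)⟩], ⟨(nat_lit 128), [], [], false⟩, []⟩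
def f1226 : Fc := ⟨true, ⟨[[e95, e56, e35], [e2, e19, e33], [e3, e20], [e4], [e5, e6]], [], [], (nat_lit 11), (nat_lit 0xfcffff), (nat_lit 0), (nat_lit 5), (nat_lit 6)⟩, [], ⟨(nat_lit 128), [], [], true⟩, []⟩
def f1227 : Fc := ⟨true, ⟨[[e59, e148], [e95, e56, e61], [e2, e19, e33], [e3, e20], [e4], [e5, e6]], [], [], (nat_lit 13), (nat_lit 0xffcffff), (nat_lit 0), (nat_lit 3), (nat_lit 7)⟩, [⟨(nat_lit 100), (nat_lit 0)⟩, ⟨(nat_lit 131), (nat_lit 0)⟩], ⟨(nat_lit 128), [], [], true⟩, []⟩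
def f1228 : Fc := ⟨true, ⟨[[e59, e148], [e95, e56, e61], [e2, e19, e33], [e3, e20], [e4], [e5, e6]], [], [], (nat_lit 13), (nat_lit 0xffcffff), (nat_lit 0), (nat_lit 3), (nat_lit 7)⟩, [], ⟨(nat_lit 128), [], [], true⟩, []⟩
def f1229 : Fc := ⟨true, ⟨[[e149], [e95, e56, e61], [e2, e19, e33], [e3, e20], [e4], [e5, e6]], [], [], (nat_lit 12), (nat_lit 0x3fcffff), (nat_lit 0), (nat_lit 4), (nat_lit 7)⟩, [], ⟨(nat_lit 31104), [], [], true⟩, []⟩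
def f1230 : Fc := ⟨true, ⟨[[e95, e56, e61], [e2, e19, e33], [e3, e20], [e4], [e5, e6]], [e149], [], (nat_lit 12), (nat_lit 0x3fcffff), (nat_lit 0), (nat_lit 4), (nat_lit 6)⟩, [⟨(nat_lit 130), (nat_lit 0)⟩], ⟨(nat_lit 31104), [], [], true⟩, []⟩
def f1231 : Fc := ⟨true, ⟨[[e95, e56, e61], [e2, e19, e33], [e3, e20], [e4], [e5, e6]], [], [], (nat_lit 11), (nat_lit 0xfcffff), (nat_lit 0), (nat_lit 5), (nat_lit 6)⟩, [⟨(nat_lit 99), (nat_lit 0)⟩, ⟨(nat_lit 130), (nat_lit 0)⟩], ⟨(nat_lit 128), [], [], true⟩, []⟩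
def f1232 : Fc := ⟨true, ⟨[[e147, e150], [e146, e56, e61], [e2, e19, e33], [e3, e20], [e4], [e5, e6]], [], [], (nat_lit 13), (nat_lit 0xffcffff), (nat_lit 0), (nat_lit 3), (nat_lit 7)⟩, [], ⟨(nat_lit 128), [], [], true⟩, []⟩
def f1233 : Fc := ⟨true, ⟨[[e146, e56, e61], [e2, e19, e33], [e3, e20], [e4], [e5, e6]], [e147], [], (nat_lit 12), (nat_lit 0x3fcffff), (nat_lit 0), (nat_lit 4), (nat_lit 6)⟩, [⟨(nat_lit 99), (nat_lit 0)⟩, ⟨(nat_lit 130), (nat_lit 0)⟩], ⟨(nat_lit 1), [], [], true⟩, []⟩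
def f1234 : Fc := ⟨true, ⟨[[e95, e56, e61], [e2, e19, e33], [e3, e20], [e4], [e5, e6]], [], [], (nat_lit 11), (nat_lit 0xfcffff), (nat_lit 0), (nat_lit 5), (nat_lit 6)⟩, [], ⟨(nat_lit 128), [], [], true⟩, []⟩
def f1235 : Fc := ⟨true, ⟨[[e151], [e95, e56, e61, e67], [e2, e19, e33], [e3, e20], [e4], [e5, e6]], [], [], (nat_lit 13), (nat_lit 0xffcffff), (nat_lit 0), (nat_lit 3), (nat_lit 7)⟩, [], ⟨(nat_lit 31104), [], [], true⟩, []⟩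
def f1236 : Fc := ⟨true, ⟨[[e95, e56, e61, e67], [e2, e19, e33], [e3, e20], [e4], [e5, e6]], [e151], [], (nat_lit 13), (nat_lit 0xffcffff), (nat_lit 0), (nat_lit 3), (nat_lit 6)⟩, [⟨(nat_lit 130), (nat_lit 0)⟩, ⟨(nat_lit 161), (nat_lit 0)⟩], ⟨(nat_lit 31104), [], [], true⟩, []⟩
def f1237 : Fc := ⟨true, ⟨[[e95, e56, e61, e67], [e2, e19, e33], [e3, e20], [e4], [e5, e6]], [], [], (nat_lit 12), (nat_lit 0x3fcffff), (nat_lit 0), (nat_lit 4), (nat_lit 6)⟩, [⟨(nat_lit 99), (nat_lit 0)⟩, ⟨(nat_lit 161), (nat_lit 0)⟩, ⟨(nat_lit 130), (nat_lit 0)⟩], ⟨(nat_lit 128), [], [], true⟩, []⟩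
def f1238 : Fc := ⟨true, ⟨[[e95, e56, e61, e67], [e2, e19, e33], [e3, e20], [e4], [e5, e6]], [], [], (nat_lit 12), (nat_lit 0x3fcffff), (nat_lit 0), (nat_lit 4), (nat_lit 6)⟩, [⟨(nat_lit 68), (nat_lit 0)⟩, ⟨(nat_lit 161), (nat_lit 0)⟩, ⟨(nat_lit 130), (nat_lit 0)⟩, ⟨(nat_lit 99), (nat_lit 0)⟩], ⟨(nat_lit 128), [], [], false⟩, []⟩
def f1239 : Fc := ⟨true, ⟨[[e95, e56, e61, e67], [e2, e19, e33], [e3, e20], [e4], [e5, e6]], [], [], (nat_lit 12), (nat_lit 0x3fcffff), (nat_lit 0), (nat_lit 4), (nat_lit 6)⟩, [], ⟨(nat_lit 128), [], [], true⟩, []⟩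
def f1240 : Fc := ⟨true, ⟨[[e152], [e95, e153], [e2, e19, e33], [e3, e20], [e4], [e5, e6]], [], [], (nat_lit 11), (nat_lit 0xfcffff), (nat_lit 0), (nat_lit 5), (nat_lit 7)⟩, [], ⟨(nat_lit 31104), [⟨(nb (nat_lit 1) (nat_lit 512) (nat_lit 0)), (nat_lit 3), (nat_lit 4), (nat_lit 3)⟩], [], true⟩, []⟩
def f1241 : Fc := ⟨true, ⟨[[e154, e155], [e156, e157], [e158, e159, e160], [e161, e162], [e163], [e5, e6]], [], [], (nat_lit 12), (nat_lit 0x3fcffff), (nat_lit 0), (nat_lit 4), (nat_lit 7)⟩, [⟨(nat_lit 100), (nat_lit 0)⟩, ⟨(nat_lit 162), (nat_lit 0)⟩, ⟨(nat_lit 131), (nat_lit 0)⟩], ⟨(nat_lit 128), [], [], true⟩, [⟨[(nat_lit 1), (nat_lit 32), (nat_lit 33), (nat_lit 34), (nat_lit 35), (nat_lit 65), (nat_lit 66), (nat_lit 67), (nat_lit 97), (nat_lit 98), (nat_lit 99), (nat_lit 100), (nat_lit 130), (nat_lit 131), (nat_lit 132), (nat_lit 163)], [(nat_lit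 1), (nat_lit 0x100000000000000000000000000000000), (nat_lit 109)], (nat_lit 1), (nat_lit 0)⟩]⟩
def f1242 : Fc := ⟨true, ⟨[[e154, e155], [e156, e157], [e158, e159, e160], [e161, e162], [e163], [e5, e6]], [], [], (nat_lit 12), (nat_lit 0x3fcffff), (nat_lit 0), (nat_lit 4), (nat_lit 7)⟩, [], ⟨(nat_lit 128), [], [], true⟩, [⟨[(nat_lit 1), (nat_lit 32), (nat_lit 33), (nat_lit 34), (nat_lit 35), (nat_lit 65), (nat_lit 66), (nat_lit 67), (nat_lit 97), (nat_lit 98), (nat_lit 99), (nat_lit 100), (nat_lit 130), (nat_lit 131), (nat_lit 132), (nat_lit 163)], [(nat_lit 1), (nat_lit 0x100000000000000000000000000000000), (nat_lit 109)], (nat_lit 1), (nat_lit 0)⟩]⟩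
def f1243 : Fc := ⟨true, ⟨[[e164, e165], [e166, e167], [e168, e123, e124], [e125, e126], [e127], [e5, e6]], [], [], (nat_lit 12), (nat_lit 0x3fcffff), (nat_lit 0), (nat_lit 4), (nat_lit 7)⟩, [], ⟨(nat_lit 1), [], [], true⟩, []⟩
def f1244 : Fc := ⟨true, ⟨[[e169, e170], [e146, e153], [e2, e19, e33], [e3, e20], [e4], [e5, e6]], [e171], [], (nat_lit 13), (nat_lit 0xffcffff), (nat_lit 0), (nat_lit 3), (nat_lit 7)⟩, [⟨(nat_lit 131), (nat_lit 0)⟩], ⟨(nat_lit 31104), [], [], true⟩, [⟨[(nat_lit 1), (nat_lit 32), (nat_lit 33), (nat_lit 34), (nat_lit 35), (nat_lit 65), (nat_lit 66), (nat_lit 67), (nat_lit 68), (nat_lit 97), (nat_lit 98), (nat_lit 99), (nat_lit 100), (nat_lit 101), (nat_lit 131), (nat_lit 132)], [(nat_lit 1), (nat_lit 0x100000000000000000000000000000000), (nat_lit 109)], (nat_lit 1), (nat_lit 0)⟩]⟩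
def f1245 : Fc := ⟨true, ⟨[[e169, e170], [e146, e153], [e2, e19, e33], [e3, e20], [e4], [e5, e6]], [], [], (nat_lit 12), (nat_lit 0x3fcffff), (nat_lit 0), (nat_lit 4), (nat_lit 7)⟩, [⟨(nat_lit 100), (nat_lit 0)⟩, ⟨(nat_lit 131), (nat_lit 0)⟩], ⟨(nat_lit 243), [], [], true⟩, [⟨[(nat_lit 1), (nat_lit 32), (nat_lit 33), (nat_lit 34), (nat_lit 35), (nat_lit 65), (nat_lit 66), (nat_lit 67), (nat_lit 68), (nat_lit 97), (nat_lit 98), (nat_lit 99), (nat_lit 100), (nat_lit 101), (nat_lit 131), (nat_lit 132)], [(nat_lit 1), (nat_lit 0x100000000000000000000000000000000), (nat_lit 109)], (nat_lit 1), (nat_lit 0)⟩]⟩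
def f1246 : Fc := ⟨true, ⟨[[e169, e170], [e146, e153], [e2, e19, e33], [e3, e20], [e4], [e5, e6]], [], [], (nat_lit 12), (nat_lit 0x3fcffff), (nat_lit 0), (nat_lit 4), (nat_lit 7)⟩, [], ⟨(nat_lit 243), [], [], true⟩, [⟨[(nat_lit 1), (nat_lit 32), (nat_lit 33), (nat_lit 34), (nat_lit 35), (nat_lit 65), (nat_lit 66), (nat_lit 67), (nat_lit 68), (nat_lit 97), (nat_lit 98), (nat_lit 99), (nat_lit 100), (nat_lit 101), (nat_lit 131), (nat_lit 132)], [(nat_lit 1), (nat_lit 0x100000000000000000000000000000000), (nat_lit 109)], (nat_lit 1), (nat_lit 0)⟩]⟩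
def f1247 : Fc := ⟨true, ⟨[[e146, e153], [e2, e19, e33], [e3, e20], [e4], [e5, e6]], [e169], [], (nat_lit 11), (nat_lit 0xfcffff), (nat_lit 0), (nat_lit 5), (nat_lit 6)⟩, [⟨(nat_lit 99), (nat_lit 0)⟩, ⟨(nat_lit 130), (nat_lit 0)⟩], ⟨(nat_lit 243), [], [], true⟩, [⟨[(nat_lit 1), (nat_lit 32), (nat_lit 33), (nat_lit 34), (nat_lit 35), (nat_lit 65), (nat_lit 66), (nat_lit 67), (nat_lit 68), (nat_lit 97), (nat_lit 98), (nat_lit 99), (nat_lit 100), (nat_lit 101), (nat_lit 131), (nat_lit 132)], [(nat_lit 1), (nat_lit 0x100000000000000000000000000000000), (nat_lit 109)], (nat_lit 1), (nat_lit 0)⟩]⟩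
def f1248 : Fc := ⟨true, ⟨[[e95, e153], [e2, e19, e33], [e3, e20], [e4], [e5, e6]], [], [], (nat_lit 10), (nat_lit 0x3cffff), (nat_lit 0), (nat_lit 6), (nat_lit 6)⟩, [], ⟨(nat_lit 31104), [], [], true⟩, [⟨[(nat_lit 1), (nat_lit 32), (nat_lit 33), (nat_lit 34), (nat_lit 35), (nat_lit 65), (nat_lit 66), (nat_lit 67), (nat_lit 68), (nat_lit 97), (nat_lit 98), (nat_lit 99), (nat_lit 100), (nat_lit 101), (nat_lit 131), (nat_lit 132)], [(nat_lit 1), (nat_lit 0x100000000000000000000000000000000), (nat_lit 109)], (nat_lit 1), (nat_lit 0)⟩, ⟨[(nat_lit 1), (nat_lit 32), (nat_lit 33), (nat_lit 34), (nat_lit 35), (nat_lit 65), (nat_lit 66), (nat_lit 67), (nat_lit 97), (nat_lit 98), (nat_lit 99), (nat_lit 100), (nat_lit 130), (nat_lit 131), (nat_lit 132), (nat_lit 163)], [(nat_lit 1), (nat_lit 0x100000000000000000000000000000000), (nat_lit 109)], (nat_lit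 1), (nat_lit 0)⟩]⟩
def f1249 : Fc := ⟨true, ⟨[[e95, e153, e35], [e2, e19, e33], [e3, e20], [e4], [e5, e6]], [], [], (nat_lit 11), (nat_lit 0xfcffff), (nat_lit 0), (nat_lit 5), (nat_lit 6)⟩, [⟨(nat_lit 130), (nat_lit 0)⟩, ⟨(nat_lit 161), (nat_lit 0)⟩], ⟨(nat_lit 31104), [], [], true⟩, []⟩
def f1250 : Fc := ⟨true, ⟨[[e172], [e95, e153, e35], [e2, e19, e33], [e3, e20], [e4], [e5, e6]], [], [], (nat_lit 12), (nat_lit 0x3fcffff), (nat_lit 0), (nat_lit 4), (nat_lit 7)⟩, [], ⟨(nat_lit 31104), [⟨(nb (nat_lit 1) (nat_lit 512) (nat_lit 0)), (nat_lit 3), (nat_lit 4), (nat_lit 3)⟩], [], true⟩, []⟩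
def f1251 : Fc := ⟨true, ⟨[[e95, e153, e35], [e2, e19, e33], [e3, e20], [e4], [e5, e6]], [e172], [], (nat_lit 12), (nat_lit 0x3fcffff), (nat_lit 0), (nat_lit 4), (nat_lit 6)⟩, [⟨(nat_lit 161), (nat_lit 0)⟩], ⟨(nat_lit 31104), [⟨(nb (nat_lit 1) (nat_lit 512) (nat_lit 0)), (nat_lit 3), (nat_lit 4), (nat_lit 3)⟩], [], true⟩, []⟩
def f1252 : Fc := ⟨true, ⟨[[e172, e173], [e95, e153, e35], [e2, e19, e33], [e3, e20], [e4], [e5, e6]], [], [], (nat_lit 13), (nat_lit 0xffcffff), (nat_lit 0), (nat_lit 3), (nat_lit 7)⟩, [⟨(nat_lit 100), (nat_lit 0)⟩, ⟨(nat_lit 162), (nat_lit 0)⟩, ⟨(nat_lit 131), (nat_lit 0)⟩], ⟨(nat_lit 31104), [⟨(nb (nat_lit 1) (nat_lit 512) (nat_lit 0)), (nat_lit 3), (nat_lit 4), (nat_lit 3)⟩], [], true⟩, []⟩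
def f1253 : Fc := ⟨true, ⟨[[e172, e173], [e95, e153, e35], [e2, e19, e33], [e3, e20], [e4], [e5, e6]], [], [], (nat_lit 13), (nat_lit 0xffcffff), (nat_lit 0), (nat_lit 3), (nat_lit 7)⟩, [], ⟨(nat_lit 31104), [⟨(nb (nat_lit 1) (nat_lit 512) (nat_lit 0)), (nat_lit 3), (nat_lit 4), (nat_lit 3)⟩], [], true⟩, []⟩
def f1254 : Fc := ⟨true, ⟨[[e166, e167, e174], [e168, e123, e124], [e125, e126], [e127], [e5, e6]], [e175], [], (nat_lit 12), (nat_lit 0x3fcffff), (nat_lit 0), (nat_lit 4), (nat_lit 6)⟩, [⟨(nat_lit 130), (nat_lit 0)⟩, ⟨(nat_lit 161), (nat_lit 0)⟩], ⟨(nat_lit 1), [], [], true⟩, []⟩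
def f1255 : Fc := ⟨true, ⟨[[e175, e176], [e166, e167, e174], [e168, e123, e124], [e125, e126], [e127], [e5, e6]], [], [], (nat_lit 13), (nat_lit 0xffcffff), (nat_lit 0), (nat_lit 3), (nat_lit 7)⟩, [], ⟨(nat_lit 1), [], [], true⟩, []⟩
def f1256 : Fc := ⟨true, ⟨[[e166, e167, e174], [e168, e123, e124], [e125, e126], [e127], [e5, e6]], [e177], [], (nat_lit 12), (nat_lit 0x3fcffff), (nat_lit 0), (nat_lit 4), (nat_lit 6)⟩, [⟨(nat_lit 161), (nat_lit 0)⟩], ⟨(nat_lit 128), [], [], true⟩, []⟩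
def f1257 : Fc := ⟨true, ⟨[[e166, e167, e174], [e168, e123, e124], [e125, e126], [e127], [e5, e6]], [e177], [], (nat_lit 12), (nat_lit 0x3fcffff), (nat_lit 0), (nat_lit 4), (nat_lit 6)⟩, [⟨(nat_lit 130), (nat_lit 0)⟩, ⟨(nat_lit 161), (nat_lit 0)⟩], ⟨(nat_lit 128), [], [], true⟩, []⟩
def f1258 : Fc := ⟨true, ⟨[[e95, e178, e35], [e2, e19, e33], [e3, e20], [e4], [e5, e6]], [], [], (nat_lit 11), (nat_lit 0xfcffff), (nat_lit 0), (nat_lit 5), (nat_lit 6)⟩, [⟨(nat_lit 99), (nat_lit 0)⟩, ⟨(nat_lit 161), (nat_lit 0)⟩, ⟨(nat_lit 130), (nat_lit 0)⟩], ⟨(nat_lit 128), [], [⟨(nat_lit 0x30000000000000000), (nat_lit 1), (nat_lit 4), (nat_lit 2)⟩], true⟩, []⟩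
def f1259 : Fc := ⟨true, ⟨[[e95, e153, e35], [e2, e19, e33], [e3, e20], [e4], [e5, e6]], [], [], (nat_lit 11), (nat_lit 0xfcffff), (nat_lit 0), (nat_lit 5), (nat_lit 6)⟩, [⟨(nat_lit 99), (nat_lit 0)⟩, ⟨(nat_lit 161), (nat_lit 0)⟩, ⟨(nat_lit 130), (nat_lit 0)⟩], ⟨(nat_lit 31104), [], [⟨(nb (nat_lit 1) (nat_lit 512) (nat_lit 0)), (nat_lit 3), (nat_lit 4), (nat_lit 3)⟩], true⟩, []⟩
def f1260 : Fc := ⟨true, ⟨[[e146, e153, e35], [e2, e19, e33], [e3, e20], [e4], [e5, e6]], [e147], [], (nat_lit 12), (nat_lit 0x3fcffff), (nat_lit 0), (nat_lit 4), (nat_lit 6)⟩, [⟨(nat_lit 130), (nat_lit 0)⟩, ⟨(nat_lit 161), (nat_lit 0)⟩], ⟨(nat_lit 243), [], [], true⟩, []⟩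
def f1261 : Fc := ⟨true, ⟨[[e147, e179], [e146, e153, e35], [e2, e19, e33], [e3, e20], [e4], [e5, e6]], [], [], (nat_lit 13), (nat_lit 0xffcffff), (nat_lit 0), (nat_lit 3), (nat_lit 7)⟩, [], ⟨(nat_lit 243), [], [], true⟩, []⟩
def f1262 : Fc := ⟨true, ⟨[[e95, e153, e35], [e2, e19, e33], [e3, e20], [e4], [e5, e6]], [], [], (nat_lit 11), (nat_lit 0xfcffff), (nat_lit 0), (nat_lit 5), (nat_lit 6)⟩, [⟨(nat_lit 68), (nat_lit 0)⟩, ⟨(nat_lit 161), (nat_lit 0)⟩, ⟨(nat_lit 130), (nat_lit 0)⟩, ⟨(nat_lit 99), (nat_lit 0)⟩], ⟨(nat_lit 31104), [], [], false⟩, []⟩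
def f1263 : Fc := ⟨true, ⟨[[e95, e153, e35], [e2, e19, e33], [e3, e20], [e4], [e5, e6]], [], [], (nat_lit 11), (nat_lit 0xfcffff), (nat_lit 0), (nat_lit 5), (nat_lit 6)⟩, [], ⟨(nat_lit 31104), [], [], true⟩, []⟩
def f1264 : Fc := ⟨true, ⟨[[e2, e19, e33], [e3, e20], [e4], [e5, e6]], [e95], [], (nat_lit 9), (nat_lit 851967), (nat_lit 0), (nat_lit 7), (nat_lit 5)⟩, [⟨(nat_lit 98), (nat_lit 0)⟩, ⟨(nat_lit 129), (nat_lit 0)⟩], ⟨(nat_lit 128), [], [], true⟩, [⟨[(nat_lit 1), (nat_lit 32), (nat_lit 33), (nat_lit 34), (nat_lit 35), (nat_lit 65), (nat_lit 66), (nat_lit 67), (nat_lit 97), (nat_lit 98), (nat_lit 99), (nat_lit 100), (nat_lit 130), (nat_lit 131), (nat_lit 132), (nat_lit 163)], [(nat_lit 1), (nat_lit 0x100000000000000000000000000000000), (nat_lit 109)], (nat_lit 1), (nat_lit 0)⟩, ⟨[(nat_lit 1), (nat_lit 32), (nat_lit 33), (nat_lit 34),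 (nat_lit 35), (nat_lit 65), (nat_lit 66), (nat_lit 67), (nat_lit 68), (nat_lit 97), (nat_lit 98), (nat_lit 99), (nat_lit 100), (nat_lit 101), (nat_lit 131), (nat_lit 132)], [(nat_lit 1), (nat_lit 0x100000000000000000000000000000000), (nat_lit 109)], (nat_lit 1), (nat_lit 0)⟩]⟩
def f1265 : Fc := ⟨true, ⟨[[e2, e19, e33], [e3, e20], [e4], [e5, e6]], [], [], (nat_lit 8), (nat_lit 65535), (nat_lit 0), (nat_lit 8), (nat_lit 5)⟩, [⟨(nat_lit 67), (nat_lit 0)⟩, ⟨(nat_lit 98), (nat_lit 0)⟩, ⟨(nat_lit 129), (nat_lit 0)⟩], ⟨(nat_lit 1), [], [], true⟩, [⟨[(nat_lit 1), (nat_lit 32), (nat_lit 33), (nat_lit 34), (nat_lit 35), (nat_lit 65), (nat_lit 66), (nat_lit 67), (nat_lit 68), (nat_lit 97), (nat_lit 98), (nat_lit 99), (nat_lit 100), (nat_lit 101), (nat_lit 131), (nat_lit 132)], [(nat_lit 1), (nat_lit 0x100000000000000000000000000000000), (nat_lit 109)],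 (nat_lit 1), (nat_lit 0)⟩, ⟨[(nat_lit 1), (nat_lit 32), (nat_lit 33), (nat_lit 34), (nat_lit 35), (nat_lit 65), (nat_lit 66), (nat_lit 67), (nat_lit 97), (nat_lit 98), (nat_lit 99), (nat_lit 100), (nat_lit 130), (nat_lit 131), (nat_lit 132), (nat_lit 163)], [(nat_lit 1), (nat_lit 0x100000000000000000000000000000000), (nat_lit 109)], (nat_lit 1), (nat_lit 0)⟩]⟩
def f1266 : Fc := ⟨true, ⟨[[e2, e19, e33], [e3, e20], [e4], [e5, e6]], [e24], [], (nat_lit 9), (nat_lit 851967), (nat_lit 0), (nat_lit 7), (nat_lit 5)⟩, [⟨(nat_lit 129), (nat_lit 0)⟩], ⟨(nat_lit 1), [], [], true⟩, []⟩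
def f1267 : Fc := ⟨true, ⟨[[e24, e56, e35], [e2, e19, e33], [e3, e20], [e4], [e5, e6]], [], [], (nat_lit 11), (nat_lit 0xfcffff), (nat_lit 0), (nat_lit 5), (nat_lit 6)⟩, [⟨(nat_lit 37), (nat_lit 0)⟩, ⟨(nat_lit 161), (nat_lit 0)⟩, ⟨(nat_lit 130), (nat_lit 0)⟩], ⟨(nat_lit 1), [], [], true⟩, []⟩
def f1268 : Fc := ⟨true, ⟨[[e24, e56, e35], [e2, e19, e33], [e3, e20], [e4], [e5, e6]], [], [], (nat_lit 11), (nat_lit 0xfcffff), (nat_lit 0), (nat_lit 5), (nat_lit 6)⟩, [], ⟨(nat_lit 1), [], [], true⟩, []⟩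
def f1269 : Fc := ⟨true, ⟨[[e24, e56, e61], [e2, e19, e33], [e3, e20], [e4], [e5, e6]], [], [], (nat_lit 11), (nat_lit 0xfcffff), (nat_lit 0), (nat_lit 5), (nat_lit 6)⟩, [⟨(nat_lit 37), (nat_lit 0)⟩, ⟨(nat_lit 99), (nat_lit 0)⟩, ⟨(nat_lit 130), (nat_lit 0)⟩], ⟨(nat_lit 1), [], [], true⟩, []⟩
def f1270 : Fc := ⟨true, ⟨[[e24, e56, e61], [e2, e19, e33], [e3, e20], [e4], [e5, e6]], [], [], (nat_lit 11), (nat_lit 0xfcffff), (nat_lit 0), (nat_lit 5), (nat_lit 6)⟩, [], ⟨(nat_lit 1), [], [], true⟩, []⟩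
def f1271 : Fc := ⟨true, ⟨[[e24, e56, e61, e67], [e2, e19, e33], [e3, e20], [e4], [e5, e6]], [], [], (nat_lit 12), (nat_lit 0x3fcffff), (nat_lit 0), (nat_lit 4), (nat_lit 6)⟩, [⟨(nat_lit 130), (nat_lit 0)⟩, ⟨(nat_lit 161), (nat_lit 0)⟩], ⟨(nat_lit 1), [], [], true⟩, []⟩
def f1272 : Fc := ⟨true, ⟨[[e24, e56, e61, e67], [e2, e19, e33], [e3, e20], [e4], [e5, e6]], [], [], (nat_lit 12), (nat_lit 0x3fcffff), (nat_lit 0), (nat_lit 4), (nat_lit 6)⟩, [], ⟨(nat_lit 1), [], [], true⟩, []⟩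
def f1273 : Fc := ⟨true, ⟨[[e24, e75], [e2, e19, e33], [e3, e20], [e4], [e5, e6]], [], [], (nat_lit 10), (nat_lit 0x3cffff), (nat_lit 0), (nat_lit 6), (nat_lit 6)⟩, [⟨(nat_lit 37), (nat_lit 0)⟩, ⟨(nat_lit 99), (nat_lit 0)⟩, ⟨(nat_lit 130), (nat_lit 0)⟩], ⟨(nat_lit 128), [], [], true⟩, []⟩
def f1274 : Fc := ⟨true, ⟨[[e24, e75], [e2, e19, e33], [e3, e20], [e4], [e5, e6]], [], [], (nat_lit 10), (nat_lit 0x3cffff), (nat_lit 0), (nat_lit 6), (nat_lit 6)⟩, [], ⟨(nat_lit 128), [], [], true⟩, []⟩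
def f1275 : Fc := ⟨true, ⟨[[e24, e75, e35], [e2, e19, e33], [e3, e20], [e4], [e5, e6]], [], [], (nat_lit 11), (nat_lit 0xfcffff), (nat_lit 0), (nat_lit 5), (nat_lit 6)⟩, [⟨(nat_lit 130), (nat_lit 0)⟩, ⟨(nat_lit 161), (nat_lit 0)⟩], ⟨(nat_lit 128), [], [], true⟩, []⟩
def f1276 : Fc := ⟨true, ⟨[[e24, e75, e35], [e2, e19, e33], [e3, e20], [e4], [e5, e6]], [e84], [], (nat_lit 12), (nat_lit 0x3fcffff), (nat_lit 0), (nat_lit 4), (nat_lit 6)⟩, [⟨(nat_lit 130), (nat_lit 0)⟩, ⟨(nat_lit 161), (nat_lit 0)⟩], ⟨(nat_lit 128), [], [], true⟩, []⟩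
def f1277 : Fc := ⟨true, ⟨[[e24, e75, e35], [e2, e19, e33], [e3, e20], [e4], [e5, e6]], [], [], (nat_lit 11), (nat_lit 0xfcffff), (nat_lit 0), (nat_lit 5), (nat_lit 6)⟩, [⟨(nat_lit 37), (nat_lit 0)⟩, ⟨(nat_lit 99), (nat_lit 0)⟩, ⟨(nat_lit 161), (nat_lit 0)⟩, ⟨(nat_lit 130), (nat_lit 0)⟩], ⟨(nat_lit 128), [], [], true⟩, []⟩
def f1278 : Fc := ⟨true, ⟨[[e24, e75, e35], [e2, e19, e33], [e3, e20], [e4], [e5, e6]], [], [], (nat_lit 11), (nat_lit 0xfcffff), (nat_lit 0), (nat_lit 5), (nat_lit 6)⟩, [], ⟨(nat_lit 128), [], [], true⟩, []⟩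
def f1279 : Fc := ⟨true, ⟨[[e24, e97], [e2, e19, e33], [e3, e20], [e4], [e5, e6]], [], [], (nat_lit 10), (nat_lit 0x3cffff), (nat_lit 0), (nat_lit 6), (nat_lit 6)⟩, [], ⟨(nat_lit 1), [], [], true⟩, []⟩
def f1280 : Fc := ⟨true, ⟨[[e24, e97, e35], [e2, e19, e33], [e3, e20], [e4], [e5, e6]], [], [], (nat_lit 11), (nat_lit 0xfcffff), (nat_lit 0), (nat_lit 5), (nat_lit 6)⟩, [⟨(nat_lit 37), (nat_lit 0)⟩, ⟨(nat_lit 161), (nat_lit 0)⟩, ⟨(nat_lit 68), (nat_lit 0)⟩], ⟨(nat_lit 1), [], [], true⟩, []⟩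
def f1281 : Fc := ⟨true, ⟨[[e24, e97, e35], [e2, e19, e33], [e3, e20], [e4], [e5, e6]], [], [], (nat_lit 11), (nat_lit 0xfcffff), (nat_lit 0), (nat_lit 5), (nat_lit 6)⟩, [], ⟨(nat_lit 1), [], [], true⟩, []⟩
def f1282 : Fc := ⟨true, ⟨[[e24, e97, e86], [e2, e19, e33], [e3, e20], [e4], [e5, e6]], [], [], (nat_lit 11), (nat_lit 0xfcffff), (nat_lit 0), (nat_lit 5), (nat_lit 6)⟩, [⟨(nat_lit 37), (nat_lit 0)⟩, ⟨(nat_lit 99), (nat_lit 0)⟩, ⟨(nat_lit 68), (nat_lit 0)⟩], ⟨(nat_lit 1), [], [], true⟩, []⟩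
def f1283 : Fc := ⟨true, ⟨[[e24, e97, e86], [e2, e19, e33], [e3, e20], [e4], [e5, e6]], [], [], (nat_lit 11), (nat_lit 0xfcffff), (nat_lit 0), (nat_lit 5), (nat_lit 6)⟩, [], ⟨(nat_lit 1), [], [], true⟩, []⟩
def f1284 : Fc := ⟨true, ⟨[[e24, e97, e86, e67], [e2, e19, e33], [e3, e20], [e4], [e5, e6]], [], [], (nat_lit 12), (nat_lit 0x3fcffff), (nat_lit 0), (nat_lit 4), (nat_lit 6)⟩, [⟨(nat_lit 37), (nat_lit 0)⟩, ⟨(nat_lit 161), (nat_lit 0)⟩, ⟨(nat_lit 130), (nat_lit 0)⟩, ⟨(nat_lit 99), (nat_lit 0)⟩, ⟨(nat_lit 68), (nat_lit 0)⟩], ⟨(nat_lit 1), [], [], true⟩, []⟩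
def f1285 : Fc := ⟨true, ⟨[[e24, e97, e86, e67], [e2, e19, e33], [e3, e20], [e4], [e5, e6]], [], [], (nat_lit 12), (nat_lit 0x3fcffff), (nat_lit 0), (nat_lit 4), (nat_lit 6)⟩, [], ⟨(nat_lit 1), [], [], true⟩, []⟩
def f1286 : Fc := ⟨true, ⟨[[e24, e97, e86, e108], [e2, e19, e33], [e3, e20], [e4], [e5, e6]], [], [], (nat_lit 12), (nat_lit 0x3fcffff), (nat_lit 0), (nat_lit 4), (nat_lit 6)⟩, [⟨(nat_lit 99), (nat_lit 0)⟩, ⟨(nat_lit 130), (nat_lit 0)⟩], ⟨(nat_lit 1), [], [], true⟩, []⟩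
def f1287 : Fc := ⟨true, ⟨[[e24, e97, e86, e108], [e2, e19, e33], [e3, e20], [e4], [e5, e6]], [], [], (nat_lit 12), (nat_lit 0x3fcffff), (nat_lit 0), (nat_lit 4), (nat_lit 6)⟩, [⟨(nat_lit 37), (nat_lit 0)⟩, ⟨(nat_lit 130), (nat_lit 0)⟩, ⟨(nat_lit 99), (nat_lit 0)⟩, ⟨(nat_lit 68), (nat_lit 0)⟩], ⟨(nat_lit 1), [], [], true⟩, []⟩
def f1288 : Fc := ⟨true, ⟨[[e24, e97, e86, e108], [e2, e19, e33], [e3, e20], [e4], [e5, e6]], [], [], (nat_lit 12), (nat_lit 0x3fcffff), (nat_lit 0), (nat_lit 4), (nat_lit 6)⟩, [], ⟨(nat_lit 1), [], [], true⟩, []⟩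
def f1289 : Fc := ⟨true, ⟨[[e24, e97, e141], [e2, e19, e33], [e3, e20], [e4], [e5, e6]], [e96], [], (nat_lit 12), (nat_lit 0x3fcffff), (nat_lit 0), (nat_lit 4), (nat_lit 6)⟩, [⟨(nat_lit 99), (nat_lit 0)⟩, ⟨(nat_lit 130), (nat_lit 0)⟩], ⟨(nat_lit 128), [], [], true⟩, []⟩
def f1290 : Fc := ⟨true, ⟨[[e24, e97, e141], [e2, e19, e33], [e3, e20], [e4], [e5, e6]], [e84], [], (nat_lit 12), (nat_lit 0x3fcffff), (nat_lit 0), (nat_lit 4), (nat_lit 6)⟩, [⟨(nat_lit 68), (nat_lit 0)⟩, ⟨(nat_lit 130), (nat_lit 0)⟩, ⟨(nat_lit 99), (nat_lit 0)⟩], ⟨(nat_lit 128), [], [], true⟩, []⟩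
def f1291 : Fc := ⟨true, ⟨[[e24, e97, e141], [e2, e19, e33], [e3, e20], [e4], [e5, e6]], [], [], (nat_lit 11), (nat_lit 0xfcffff), (nat_lit 0), (nat_lit 5), (nat_lit 6)⟩, [⟨(nat_lit 37), (nat_lit 0)⟩, ⟨(nat_lit 130), (nat_lit 0)⟩, ⟨(nat_lit 99), (nat_lit 0)⟩, ⟨(nat_lit 68), (nat_lit 0)⟩], ⟨(nat_lit 128), [], [], true⟩, []⟩
def f1292 : Fc := ⟨true, ⟨[[e24, e97, e141], [e2, e19, e33], [e3, e20], [e4], [e5, e6]], [], [], (nat_lit 11), (nat_lit 0xfcffff), (nat_lit 0), (nat_lit 5), (nat_lit 6)⟩, [], ⟨(nat_lit 128), [], [], true⟩, []⟩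
def f1293 : Fc := ⟨true, ⟨[[e24, e97, e141, e67], [e2, e19, e33], [e3, e20], [e4], [e5, e6]], [], [], (nat_lit 12), (nat_lit 0x3fcffff), (nat_lit 0), (nat_lit 4), (nat_lit 6)⟩, [⟨(nat_lit 99), (nat_lit 0)⟩, ⟨(nat_lit 161), (nat_lit 0)⟩, ⟨(nat_lit 130), (nat_lit 0)⟩], ⟨(nat_lit 128), [], [], true⟩, []⟩
def f1294 : Fc := ⟨true, ⟨[[e24, e97, e141, e67], [e2, e19, e33], [e3, e20], [e4], [e5, e6]], [], [], (nat_lit 12), (nat_lit 0x3fcffff), (nat_lit 0), (nat_lit 4), (nat_lit 6)⟩, [⟨(nat_lit 37), (nat_lit 0)⟩, ⟨(nat_lit 161), (nat_lit 0)⟩, ⟨(nat_lit 130), (nat_lit 0)⟩, ⟨(nat_lit 99), (nat_lit 0)⟩, ⟨(nat_lit 68), (nat_lit 0)⟩], ⟨(nat_lit 128), [], [], true⟩, []⟩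
def f1295 : Fc := ⟨true, ⟨[[e24, e97, e141, e67], [e2, e19, e33], [e3, e20], [e4], [e5, e6]], [], [], (nat_lit 12), (nat_lit 0x3fcffff), (nat_lit 0), (nat_lit 4), (nat_lit 6)⟩, [], ⟨(nat_lit 128), [], [], true⟩, []⟩
def f1296 : Fc := ⟨true, ⟨[[e100, e98], [e24, e97, e99], [e2, e19, e33], [e3, e20], [e4], [e5, e6]], [], [], (nat_lit 13), (nat_lit 0xffcffff), (nat_lit 0), (nat_lit 3), (nat_lit 7)⟩, [], ⟨(nat_lit 1), [], [], true⟩, []⟩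
def f1297 : Fc := ⟨true, ⟨[[e102], [e24, e97, e99], [e2, e19, e33], [e3, e20], [e4], [e5, e6]], [], [], (nat_lit 12), (nat_lit 0x3fcffff), (nat_lit 0), (nat_lit 4), (nat_lit 7)⟩, [], ⟨(nat_lit 128), [], [], true⟩, []⟩
def f1298 : Fc := ⟨true, ⟨[[e24, e97, e99], [e2, e19, e33], [e3, e20], [e4], [e5, e6]], [e102], [], (nat_lit 12), (nat_lit 0x3fcffff), (nat_lit 0), (nat_lit 4), (nat_lit 6)⟩, [⟨(nat_lit 99), (nat_lit 0)⟩], ⟨(nat_lit 128), [], [], true⟩, []⟩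
def f1299 : Fc := ⟨true, ⟨[[e24, e97, e99], [e2, e19, e33], [e3, e20], [e4], [e5, e6]], [], [], (nat_lit 11), (nat_lit 0xfcffff), (nat_lit 0), (nat_lit 5), (nat_lit 6)⟩, [⟨(nat_lit 68), (nat_lit 0)⟩, ⟨(nat_lit 99), (nat_lit 0)⟩], ⟨(nat_lit 1), [], [], true⟩, []⟩
def f1300 : Fc := ⟨true, ⟨[[e84, e106], [e24, e97, e99], [e2, e19, e33], [e3, e20], [e4], [e5, e6]], [], [], (nat_lit 13), (nat_lit 0xffcffff), (nat_lit 0), (nat_lit 3), (nat_lit 7)⟩, [], ⟨(nat_lit 128), [], [], true⟩, []⟩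
def f1301 : Fc := ⟨true, ⟨[[e24, e97, e99], [e2, e19, e33], [e3, e20], [e4], [e5, e6]], [e84], [], (nat_lit 12), (nat_lit 0x3fcffff), (nat_lit 0), (nat_lit 4), (nat_lit 6)⟩, [⟨(nat_lit 68), (nat_lit 0)⟩, ⟨(nat_lit 99), (nat_lit 0)⟩], ⟨(nat_lit 1), [], [], true⟩, []⟩
def f1302 : Fc := ⟨true, ⟨[[e24, e97, e99], [e2, e19, e33], [e3, e20], [e4], [e5, e6]], [], [], (nat_lit 11), (nat_lit 0xfcffff), (nat_lit 0), (nat_lit 5), (nat_lit 6)⟩, [], ⟨(nat_lit 1), [], [], true⟩, []⟩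
def f1303 : Fc := ⟨true, ⟨[[e24, e97, e99, e67], [e2, e19, e33], [e3, e20], [e4], [e5, e6]], [], [], (nat_lit 12), (nat_lit 0x3fcffff), (nat_lit 0), (nat_lit 4), (nat_lit 6)⟩, [⟨(nat_lit 68), (nat_lit 0)⟩, ⟨(nat_lit 161), (nat_lit 0)⟩, ⟨(nat_lit 99), (nat_lit 0)⟩], ⟨(nat_lit 1), [], [], true⟩, []⟩
def f1304 : Fc := ⟨true, ⟨[[e24, e97, e99, e67], [e2, e19, e33], [e3, e20], [e4], [e5, e6]], [], [], (nat_lit 12), (nat_lit 0x3fcffff), (nat_lit 0), (nat_lit 4), (nat_lit 6)⟩, [], ⟨(nat_lit 1), [], [], true⟩, []⟩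
def f1305 : Fc := ⟨true, ⟨[[e24, e97, e99, e180], [e2, e19, e33], [e3, e20], [e4], [e5, e6]], [e106], [], (nat_lit 13), (nat_lit 0xffcffff), (nat_lit 0), (nat_lit 3), (nat_lit 6)⟩, [⟨(nat_lit 99), (nat_lit 0)⟩], ⟨(nat_lit 128), [], [], true⟩, []⟩
def f1306 : Fc := ⟨true, ⟨[[e24, e97, e99, e180], [e2, e19, e33], [e3, e20], [e4], [e5, e6]], [], [], (nat_lit 12), (nat_lit 0x3fcffff), (nat_lit 0), (nat_lit 4), (nat_lit 6)⟩, [⟨(nat_lit 68), (nat_lit 0)⟩, ⟨(nat_lit 99), (nat_lit 0)⟩], ⟨(nat_lit 1), [], [], true⟩, []⟩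
def f1307 : Fc := ⟨true, ⟨[[e24, e97, e99, e180], [e2, e19, e33], [e3, e20], [e4], [e5, e6]], [], [], (nat_lit 12), (nat_lit 0x3fcffff), (nat_lit 0), (nat_lit 4), (nat_lit 6)⟩, [⟨(nat_lit 37), (nat_lit 0)⟩, ⟨(nat_lit 99), (nat_lit 0)⟩, ⟨(nat_lit 68), (nat_lit 0)⟩], ⟨(nat_lit 1), [], [], true⟩, []⟩
def f1308 : Fc := ⟨true, ⟨[[e24, e97, e99, e180], [e2, e19, e33], [e3, e20], [e4], [e5, e6]], [], [], (nat_lit 12), (nat_lit 0x3fcffff), (nat_lit 0), (nat_lit 4), (nat_lit 6)⟩, [], ⟨(nat_lit 1), [], [], true⟩, []⟩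
def f1309 : Fc := ⟨true, ⟨[[e24, e97, e99, e180, e181], [e2, e19, e33], [e3, e20], [e4], [e5, e6]], [], [], (nat_lit 13), (nat_lit 0xffcffff), (nat_lit 0), (nat_lit 3), (nat_lit 6)⟩, [], ⟨(nat_lit 1), [], [], true⟩, []⟩
def f1310 : Fc := ⟨true, ⟨[[e182], [e24, e97, e99, e183], [e2, e19, e33], [e3, e20], [e4], [e5, e6]], [], [], (nat_lit 13), (nat_lit 0xffcffff), (nat_lit 0), (nat_lit 3), (nat_lit 7)⟩, [], ⟨(nat_lit 31104), [], [], true⟩, []⟩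
def f1311 : Fc := ⟨true, ⟨[[e24, e97, e99, e183], [e2, e19, e33], [e3, e20], [e4], [e5, e6]], [e104], [], (nat_lit 13), (nat_lit 0xffcffff), (nat_lit 0), (nat_lit 3), (nat_lit 6)⟩, [⟨(nat_lit 99), (nat_lit 0)⟩, ⟨(nat_lit 130), (nat_lit 0)⟩], ⟨(nat_lit 128), [], [], true⟩, []⟩
def f1312 : Fc := ⟨true, ⟨[[e24, e97, e99, e183], [e2, e19, e33], [e3, e20], [e4], [e5, e6]], [e184], [], (nat_lit 13), (nat_lit 0xffcffff), (nat_lit 0), (nat_lit 3), (nat_lit 6)⟩, [⟨(nat_lit 99), (nat_lit 0)⟩, ⟨(nat_lit 130), (nat_lit 0)⟩], ⟨(nat_lit 31104), [], [], true⟩, []⟩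
def f1313 : Fc := ⟨true, ⟨[[e24, e97, e99, e183], [e2, e19, e33], [e3, e20], [e4], [e5, e6]], [], [], (nat_lit 12), (nat_lit 0x3fcffff), (nat_lit 0), (nat_lit 4), (nat_lit 6)⟩, [⟨(nat_lit 68), (nat_lit 0)⟩, ⟨(nat_lit 130), (nat_lit 0)⟩, ⟨(nat_lit 99), (nat_lit 0)⟩], ⟨(nat_lit 128), [], [], true⟩, []⟩
def f1314 : Fc := ⟨true, ⟨[[e24, e97, e99, e183], [e2, e19, e33], [e3, e20], [e4], [e5, e6]], [], [], (nat_lit 12), (nat_lit 0x3fcffff), (nat_lit 0), (nat_lit 4), (nat_lit 6)⟩, [⟨(nat_lit 37), (nat_lit 0)⟩, ⟨(nat_lit 130), (nat_lit 0)⟩, ⟨(nat_lit 99), (nat_lit 0)⟩, ⟨(nat_lit 68), (nat_lit 0)⟩], ⟨(nat_lit 128), [], [], true⟩, []⟩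
def f1315 : Fc := ⟨true, ⟨[[e24, e97, e99, e183], [e2, e19, e33], [e3, e20], [e4], [e5, e6]], [], [], (nat_lit 12), (nat_lit 0x3fcffff), (nat_lit 0), (nat_lit 4), (nat_lit 6)⟩, [], ⟨(nat_lit 128), [], [], true⟩, []⟩
def f1316 : Fc := ⟨true, ⟨[[e2, e19, e33], [e3, e20], [e4], [e5, e6]], [e183, e99, e97, e24], [], (nat_lit 12), (nat_lit 0x3fcffff), (nat_lit 0), (nat_lit 4), (nat_lit 5)⟩, [⟨(nat_lit 129), (nat_lit 0)⟩], ⟨(nat_lit 128), [], [], true⟩, []⟩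
def f1317 : Fc := ⟨true, ⟨[[e2, e19, e33], [e3, e20], [e4], [e5, e6]], [e99, e97, e24], [], (nat_lit 11), (nat_lit 0xfcffff), (nat_lit 0), (nat_lit 5), (nat_lit 5)⟩, [⟨(nat_lit 98), (nat_lit 0)⟩, ⟨(nat_lit 129), (nat_lit 0)⟩], ⟨(nat_lit 1), [], [], true⟩, []⟩
def f1318 : Fc := ⟨true, ⟨[[e24, e113], [e2, e19, e33], [e3, e20], [e4], [e5, e6]], [], [], (nat_lit 10), (nat_lit 0x3cffff), (nat_lit 0), (nat_lit 6), (nat_lit 6)⟩, [⟨(nat_lit 68), (nat_lit 0)⟩, ⟨(nat_lit 99), (nat_lit 0)⟩], ⟨(nat_lit 128), [], [], true⟩, []⟩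
def f1319 : Fc := ⟨true, ⟨[[e26, e116], [e24, e113], [e2, e19, e33], [e3, e20], [e4], [e5, e6]], [e115], [], (nat_lit 13), (nat_lit 0xffcffff), (nat_lit 0), (nat_lit 3), (nat_lit 7)⟩, [⟨(nat_lit 100), (nat_lit 0)⟩], ⟨(nat_lit 31104), [], [], true⟩, []⟩
def f1320 : Fc := ⟨true, ⟨[[e26, e116], [e24, e113], [e2, e19, e33], [e3, e20], [e4], [e5, e6]], [], [], (nat_lit 12), (nat_lit 0x3fcffff), (nat_lit 0), (nat_lit 4), (nat_lit 7)⟩, [⟨(nat_lit 69), (nat_lit 0)⟩, ⟨(nat_lit 100), (nat_lit 0)⟩], ⟨(nat_lit 128), [], [], true⟩, []⟩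
def f1321 : Fc := ⟨true, ⟨[[e26, e116], [e24, e113], [e2, e19, e33], [e3, e20], [e4], [e5, e6]], [], [], (nat_lit 12), (nat_lit 0x3fcffff), (nat_lit 0), (nat_lit 4), (nat_lit 7)⟩, [], ⟨(nat_lit 128), [], [], true⟩, []⟩
def f1322 : Fc := ⟨true, ⟨[[e24, e113], [e2, e19, e33], [e3, e20], [e4], [e5, e6]], [e26], [], (nat_lit 11), (nat_lit 0xfcffff), (nat_lit 0), (nat_lit 5), (nat_lit 6)⟩, [⟨(nat_lit 68), (nat_lit 0)⟩, ⟨(nat_lit 99), (nat_lit 0)⟩], ⟨(nat_lit 128), [], [], true⟩, []⟩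
def f1323 : Fc := ⟨true, ⟨[[e24, e113], [e2, e19, e33], [e3, e20], [e4], [e5, e6]], [], [], (nat_lit 10), (nat_lit 0x3cffff), (nat_lit 0), (nat_lit 6), (nat_lit 6)⟩, [], ⟨(nat_lit 128), [], [], true⟩, []⟩
def f1324 : Fc := ⟨true, ⟨[[e24, e113, e35], [e2, e19, e33], [e3, e20], [e4], [e5, e6]], [e116], [], (nat_lit 12), (nat_lit 0x3fcffff), (nat_lit 0), (nat_lit 4), (nat_lit 6)⟩, [⟨(nat_lit 161), (nat_lit 0)⟩], ⟨(nat_lit 128), [], [], true⟩, []⟩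
def f1325 : Fc := ⟨true, ⟨[[e24, e113, e35], [e2, e19, e33], [e3, e20], [e4], [e5, e6]], [], [], (nat_lit 11), (nat_lit 0xfcffff), (nat_lit 0), (nat_lit 5), (nat_lit 6)⟩, [⟨(nat_lit 68), (nat_lit 0)⟩, ⟨(nat_lit 161), (nat_lit 0)⟩, ⟨(nat_lit 99), (nat_lit 0)⟩], ⟨(nat_lit 128), [], [], true⟩, []⟩
def f1326 : Fc := ⟨true, ⟨[[e84, e133], [e24, e113, e35], [e2, e19, e33], [e3, e20], [e4], [e5, e6]], [], [], (nat_lit 13), (nat_lit 0xffcffff), (nat_lit 0), (nat_lit 3), (nat_lit 7)⟩, [], ⟨(nat_lit 128), [], [], true⟩, []⟩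
def f1327 : Fc := ⟨true, ⟨[[e24, e113, e35], [e2, e19, e33], [e3, e20], [e4], [e5, e6]], [e84], [], (nat_lit 12), (nat_lit 0x3fcffff), (nat_lit 0), (nat_lit 4), (nat_lit 6)⟩, [⟨(nat_lit 68), (nat_lit 0)⟩, ⟨(nat_lit 161), (nat_lit 0)⟩, ⟨(nat_lit 99), (nat_lit 0)⟩], ⟨(nat_lit 128), [], [], true⟩, []⟩
def f1328 : Fc := ⟨true, ⟨[[e24, e113, e35], [e2, e19, e33], [e3, e20], [e4], [e5, e6]], [], [], (nat_lit 11), (nat_lit 0xfcffff), (nat_lit 0), (nat_lit 5), (nat_lit 6)⟩, [⟨(nat_lit 37), (nat_lit 0)⟩, ⟨(nat_lit 161), (nat_lit 0)⟩, ⟨(nat_lit 99), (nat_lit 0)⟩, ⟨(nat_lit 68), (nat_lit 0)⟩], ⟨(nat_lit 128), [], [], true⟩, []⟩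
def f1329 : Fc := ⟨true, ⟨[[e24, e113, e35], [e2, e19, e33], [e3, e20], [e4], [e5, e6]], [], [], (nat_lit 11), (nat_lit 0xfcffff), (nat_lit 0), (nat_lit 5), (nat_lit 6)⟩, [], ⟨(nat_lit 128), [], [], true⟩, []⟩
def f1330 : Fc := ⟨true, ⟨[[e116, e185], [e24, e113, e86], [e2, e19, e33], [e3, e20], [e4], [e5, e6]], [], [], (nat_lit 13), (nat_lit 0xffcffff), (nat_lit 0), (nat_lit 3), (nat_lit 7)⟩, [⟨(nat_lit 100), (nat_lit 0)⟩, ⟨(nat_lit 131), (nat_lit 0)⟩], ⟨(nat_lit 128), [], [], true⟩, []⟩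
def f1331 : Fc := ⟨true, ⟨[[e116, e185], [e24, e113, e86], [e2, e19, e33], [e3, e20], [e4], [e5, e6]], [], [], (nat_lit 13), (nat_lit 0xffcffff), (nat_lit 0), (nat_lit 3), (nat_lit 7)⟩, [], ⟨(nat_lit 128), [], [], true⟩, []⟩
def f1332 : Fc := ⟨true, ⟨[[e84, e133], [e24, e113, e86], [e2, e19, e33], [e3, e20], [e4], [e5, e6]], [], [], (nat_lit 13), (nat_lit 0xffcffff), (nat_lit 0), (nat_lit 3), (nat_lit 7)⟩, [], ⟨(nat_lit 128), [], [], true⟩, []⟩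
def f1333 : Fc := ⟨true, ⟨[[e24, e113, e86], [e2, e19, e33], [e3, e20], [e4], [e5, e6]], [], [], (nat_lit 11), (nat_lit 0xfcffff), (nat_lit 0), (nat_lit 5), (nat_lit 6)⟩, [⟨(nat_lit 37), (nat_lit 0)⟩, ⟨(nat_lit 99), (nat_lit 0)⟩, ⟨(nat_lit 68), (nat_lit 0)⟩], ⟨(nat_lit 128), [], [], true⟩, []⟩
def f1334 : Fc := ⟨true, ⟨[[e24, e113, e86], [e2, e19, e33], [e3, e20], [e4], [e5, e6]], [], [], (nat_lit 11), (nat_lit 0xfcffff), (nat_lit 0), (nat_lit 5), (nat_lit 6)⟩, [], ⟨(nat_lit 128), [], [], true⟩, []⟩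
def f1335 : Fc := ⟨true, ⟨[[e24, e113, e86, e67], [e2, e19, e33], [e3, e20], [e4], [e5, e6]], [], [], (nat_lit 12), (nat_lit 0x3fcffff), (nat_lit 0), (nat_lit 4), (nat_lit 6)⟩, [⟨(nat_lit 68), (nat_lit 0)⟩, ⟨(nat_lit 161), (nat_lit 0)⟩, ⟨(nat_lit 130), (nat_lit 0)⟩, ⟨(nat_lit 99), (nat_lit 0)⟩], ⟨(nat_lit 128), [], [], true⟩, []⟩
def f1336 : Fc := ⟨true, ⟨[[e24, e113, e86, e67], [e2, e19, e33], [e3, e20], [e4], [e5, e6]], [], [], (nat_lit 12), (nat_lit 0x3fcffff), (nat_lit 0), (nat_lit 4), (nat_lit 6)⟩, [⟨(nat_lit 37), (nat_lit 0)⟩, ⟨(nat_lit 161), (nat_lit 0)⟩, ⟨(nat_lit 130), (nat_lit 0)⟩, ⟨(nat_lit 99), (nat_lit 0)⟩, ⟨(nat_lit 68), (nat_lit 0)⟩], ⟨(nat_lit 128), [], [], true⟩, []⟩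
def f1337 : Fc := ⟨true, ⟨[[e24, e113, e86, e67], [e2, e19, e33], [e3, e20], [e4], [e5, e6]], [], [], (nat_lit 12), (nat_lit 0x3fcffff), (nat_lit 0), (nat_lit 4), (nat_lit 6)⟩, [], ⟨(nat_lit 128), [], [], true⟩, []⟩
def f1338 : Fc := ⟨true, ⟨[[e186], [e24, e113, e86, e108], [e2, e19, e33], [e3, e20], [e4], [e5, e6]], [], [], (nat_lit 13), (nat_lit 0xffcffff), (nat_lit 0), (nat_lit 3), (nat_lit 7)⟩, [], ⟨(nat_lit 31104), [], [], true⟩, []⟩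
def f1339 : Fc := ⟨true, ⟨[[e24, e113, e86, e108], [e2, e19, e33], [e3, e20], [e4], [e5, e6]], [], [], (nat_lit 12), (nat_lit 0x3fcffff), (nat_lit 0), (nat_lit 4), (nat_lit 6)⟩, [⟨(nat_lit 99), (nat_lit 0)⟩, ⟨(nat_lit 130), (nat_lit 0)⟩], ⟨(nat_lit 128), [], [], true⟩, []⟩
def f1340 : Fc := ⟨true, ⟨[[e24, e113, e86, e108], [e2, e19, e33], [e3, e20], [e4], [e5, e6]], [], [], (nat_lit 12), (nat_lit 0x3fcffff), (nat_lit 0), (nat_lit 4), (nat_lit 6)⟩, [⟨(nat_lit 68), (nat_lit 0)⟩, ⟨(nat_lit 130), (nat_lit 0)⟩, ⟨(nat_lit 99), (nat_lit 0)⟩], ⟨(nat_lit 128), [], [], true⟩, []⟩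
def f1341 : Fc := ⟨true, ⟨[[e24, e113, e86, e108], [e2, e19, e33], [e3, e20], [e4], [e5, e6]], [], [], (nat_lit 12), (nat_lit 0x3fcffff), (nat_lit 0), (nat_lit 4), (nat_lit 6)⟩, [], ⟨(nat_lit 128), [], [], true⟩, []⟩
def f1342 : Fc := ⟨true, ⟨[[e187], [e24, e113, e188], [e2, e19, e33], [e3, e20], [e4], [e5, e6]], [], [], (nat_lit 12), (nat_lit 0x3fcffff), (nat_lit 0), (nat_lit 4), (nat_lit 7)⟩, [], ⟨(nat_lit 31104), [⟨(nb (nat_lit 1) (nat_lit 512) (nat_lit 0)), (nat_lit 3), (nat_lit 4), (nat_lit 3)⟩], [], true⟩, []⟩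
def f1343 : Fc := ⟨true, ⟨[[e24, e113, e188], [e2, e19, e33], [e3, e20], [e4], [e5, e6]], [], [], (nat_lit 11), (nat_lit 0xfcffff), (nat_lit 0), (nat_lit 5), (nat_lit 6)⟩, [⟨(nat_lit 99), (nat_lit 0)⟩, ⟨(nat_lit 130), (nat_lit 0)⟩], ⟨(nat_lit 31104), [], [⟨(nb (nat_lit 1) (nat_lit 512) (nat_lit 0)), (nat_lit 3), (nat_lit 4), (nat_lit 3)⟩], true⟩, []⟩
def f1344 : Fc := ⟨true, ⟨[[e189], [e116, e190], [e24, e113, e188], [e2, e19, e33], [e3, e20], [e4], [e5, e6]], [], [], (nat_lit 14), (nat_lit 0x3ffcffff), (nat_lit 0), (nat_lit 2), (nat_lit 8)⟩, [], ⟨(nat_lit 0x3b5380), [⟨(nb (nat_lit 1) (nat_lit 512) (nat_lit 0)), (nat_lit 3), (nat_lit 4), (nat_lit 3)⟩], [], true⟩, []⟩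
def f1345 : Fc := ⟨true, ⟨[[e116, e190], [e24, e113, e188], [e2, e19, e33], [e3, e20], [e4], [e5, e6]], [], [], (nat_lit 13), (nat_lit 0xffcffff), (nat_lit 0), (nat_lit 3), (nat_lit 7)⟩, [⟨(nat_lit 100), (nat_lit 0)⟩, ⟨(nat_lit 131), (nat_lit 0)⟩], ⟨(nat_lit 31104), [⟨(nb (nat_lit 1) (nat_lit 512) (nat_lit 0)), (nat_lit 3), (nat_lit 4), (nat_lit 3)⟩], [], true⟩, []⟩
def f1346 : Fc := ⟨true, ⟨[[e116, e190], [e24, e113, e188], [e2, e19, e33], [e3, e20], [e4], [e5, e6]], [], [], (nat_lit 13), (nat_lit 0xffcffff), (nat_lit 0), (nat_lit 3), (nat_lit 7)⟩, [], ⟨(nat_lit 31104), [⟨(nb (nat_lit 1) (nat_lit 512) (nat_lit 0)), (nat_lit 3), (nat_lit 4), (nat_lit 3)⟩], [], true⟩, []⟩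
def f1347 : Fc := ⟨true, ⟨[[e24, e113, e191], [e2, e19, e33], [e3, e20], [e4], [e5, e6]], [e116], [], (nat_lit 12), (nat_lit 0x3fcffff), (nat_lit 0), (nat_lit 4), (nat_lit 6)⟩, [⟨(nat_lit 99), (nat_lit 0)⟩, ⟨(nat_lit 130), (nat_lit 0)⟩], ⟨(nat_lit 128), [⟨(nat_lit 0x30000000000000000), (nat_lit 1), (nat_lit 4), (nat_lit 2)⟩], [], true⟩, []⟩
def f1348 : Fc := ⟨true, ⟨[[e119, e192], [e121, e122, e193], [e168, e123, e124], [e125, e126], [e127], [e5, e6]], [], [], (nat_lit 13), (nat_lit 0xffcffff), (nat_lit 0), (nat_lit 3), (nat_lit 7)⟩, [], ⟨(nat_lit 128), [], [], true⟩, []⟩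
def f1349 : Fc := ⟨true, ⟨[[e24, e113, e188], [e2, e19, e33], [e3, e20], [e4], [e5, e6]], [e116], [], (nat_lit 12), (nat_lit 0x3fcffff), (nat_lit 0), (nat_lit 4), (nat_lit 6)⟩, [⟨(nat_lit 99), (nat_lit 0)⟩, ⟨(nat_lit 130), (nat_lit 0)⟩], ⟨(nat_lit 31104), [], [], true⟩, []⟩
def f1350 : Fc := ⟨true, ⟨[[e24, e113, e188], [e2, e19, e33], [e3, e20], [e4], [e5, e6]], [], [], (nat_lit 11), (nat_lit 0xfcffff), (nat_lit 0), (nat_lit 5), (nat_lit 6)⟩, [⟨(nat_lit 68), (nat_lit 0)⟩, ⟨(nat_lit 130), (nat_lit 0)⟩, ⟨(nat_lit 99), (nat_lit 0)⟩], ⟨(nat_lit 31104), [], [], true⟩, []⟩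
def f1351 : Fc := ⟨true, ⟨[[e84, e190], [e24, e113, e188], [e2, e19, e33], [e3, e20], [e4], [e5, e6]], [], [], (nat_lit 13), (nat_lit 0xffcffff), (nat_lit 0), (nat_lit 3), (nat_lit 7)⟩, [], ⟨(nat_lit 31104), [⟨(nb (nat_lit 1) (nat_lit 512) (nat_lit 0)), (nat_lit 3), (nat_lit 4), (nat_lit 3)⟩], [], true⟩, []⟩
def f1352 : Fc := ⟨true, ⟨[[e24, e113, e191], [e2, e19, e33], [e3, e20], [e4], [e5, e6]], [e84], [], (nat_lit 12), (nat_lit 0x3fcffff), (nat_lit 0), (nat_lit 4), (nat_lit 6)⟩, [⟨(nat_lit 99), (nat_lit 0)⟩, ⟨(nat_lit 130), (nat_lit 0)⟩], ⟨(nat_lit 128), [], [⟨(nat_lit 0x30000000000000000), (nat_lit 1), (nat_lit 4), (nat_lit 2)⟩], true⟩, []⟩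
def f1353 : Fc := ⟨true, ⟨[[e84, e133], [e24, e113, e188], [e2, e19, e33], [e3, e20], [e4], [e5, e6]], [], [], (nat_lit 13), (nat_lit 0xffcffff), (nat_lit 0), (nat_lit 3), (nat_lit 7)⟩, [], ⟨(nat_lit 31104), [], [], true⟩, []⟩
def f1354 : Fc := ⟨true, ⟨[[e24, e113, e188], [e2, e19, e33], [e3, e20], [e4], [e5, e6]], [e133, e84], [], (nat_lit 13), (nat_lit 0xffcffff), (nat_lit 0), (nat_lit 3), (nat_lit 6)⟩, [⟨(nat_lit 99), (nat_lit 0)⟩, ⟨(nat_lit 130), (nat_lit 0)⟩], ⟨(nat_lit 31104), [], [⟨(nb (nat_lit 1) (nat_lit 512) (nat_lit 0)), (nat_lit 3), (nat_lit 4), (nat_lit 3)⟩], true⟩, []⟩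
def f1355 : Fc := ⟨true, ⟨[[e24, e113, e188], [e2, e19, e33], [e3, e20], [e4], [e5, e6]], [e84], [], (nat_lit 12), (nat_lit 0x3fcffff), (nat_lit 0), (nat_lit 4), (nat_lit 6)⟩, [⟨(nat_lit 68), (nat_lit 0)⟩, ⟨(nat_lit 130), (nat_lit 0)⟩, ⟨(nat_lit 99), (nat_lit 0)⟩], ⟨(nat_lit 31104), [], [], true⟩, []⟩
def f1356 : Fc := ⟨true, ⟨[[e24, e113, e188], [e2, e19, e33], [e3, e20], [e4], [e5, e6]], [], [], (nat_lit 11), (nat_lit 0xfcffff), (nat_lit 0), (nat_lit 5), (nat_lit 6)⟩, [⟨(nat_lit 37), (nat_lit 0)⟩, ⟨(nat_lit 130), (nat_lit 0)⟩, ⟨(nat_lit 99), (nat_lit 0)⟩, ⟨(nat_lit 68), (nat_lit 0)⟩], ⟨(nat_lit 31104), [], [], true⟩, []⟩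
def f1357 : Fc := ⟨true, ⟨[[e24, e113, e188], [e2, e19, e33], [e3, e20], [e4], [e5, e6]], [], [], (nat_lit 11), (nat_lit 0xfcffff), (nat_lit 0), (nat_lit 5), (nat_lit 6)⟩, [], ⟨(nat_lit 31104), [], [], true⟩, []⟩
def f1358 : Fc := ⟨true, ⟨[[e24, e113, e188, e67], [e2, e19, e33], [e3, e20], [e4], [e5, e6]], [], [], (nat_lit 12), (nat_lit 0x3fcffff), (nat_lit 0), (nat_lit 4), (nat_lit 6)⟩, [⟨(nat_lit 99), (nat_lit 0)⟩, ⟨(nat_lit 161), (nat_lit 0)⟩, ⟨(nat_lit 130), (nat_lit 0)⟩], ⟨(nat_lit 31104), [⟨(nb (nat_lit 1) (nat_lit 512) (nat_lit 0)), (nat_lit 3), (nat_lit 4), (nat_lit 3)⟩], [], true⟩, []⟩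
def f1359 : Fc := ⟨true, ⟨[[e24, e113, e191, e67], [e2, e19, e33], [e3, e20], [e4], [e5, e6]], [], [], (nat_lit 12), (nat_lit 0x3fcffff), (nat_lit 0), (nat_lit 4), (nat_lit 6)⟩, [⟨(nat_lit 99), (nat_lit 0)⟩, ⟨(nat_lit 161), (nat_lit 0)⟩, ⟨(nat_lit 130), (nat_lit 0)⟩], ⟨(nat_lit 128), [], [⟨(nat_lit 0x30000000000000000), (nat_lit 1), (nat_lit 4), (nat_lit 2)⟩], true⟩, []⟩
def f1360 : Fc := ⟨true, ⟨[[e24, e113, e188, e67], [e2, e19, e33], [e3, e20], [e4], [e5, e6]], [e133], [], (nat_lit 13), (nat_lit 0xffcffff), (nat_lit 0), (nat_lit 3), (nat_lit 6)⟩, [⟨(nat_lit 99), (nat_lit 0)⟩, ⟨(nat_lit 161), (nat_lit 0)⟩, ⟨(nat_lit 130), (nat_lit 0)⟩], ⟨(nat_lit 31104), [], [], true⟩, []⟩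
def f1361 : Fc := ⟨true, ⟨[[e24, e113, e188, e67], [e2, e19, e33], [e3, e20], [e4], [e5, e6]], [], [], (nat_lit 12), (nat_lit 0x3fcffff), (nat_lit 0), (nat_lit 4), (nat_lit 6)⟩, [⟨(nat_lit 68), (nat_lit 0)⟩, ⟨(nat_lit 161), (nat_lit 0)⟩, ⟨(nat_lit 130), (nat_lit 0)⟩, ⟨(nat_lit 99), (nat_lit 0)⟩], ⟨(nat_lit 31104), [], [], true⟩, []⟩
def f1362 : Fc := ⟨true, ⟨[[e24, e113, e188, e67], [e2, e19, e33], [e3, e20], [e4], [e5, e6]], [e87], [], (nat_lit 13), (nat_lit 0xffcffff), (nat_lit 0), (nat_lit 3), (nat_lit 6)⟩, [⟨(nat_lit 99), (nat_lit 0)⟩, ⟨(nat_lit 161), (nat_lit 0)⟩, ⟨(nat_lit 130), (nat_lit 0)⟩], ⟨(nat_lit 31104), [], [], true⟩, []⟩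
def f1363 : Fc := ⟨true, ⟨[[e24, e113, e188, e67], [e2, e19, e33], [e3, e20], [e4], [e5, e6]], [], [], (nat_lit 12), (nat_lit 0x3fcffff), (nat_lit 0), (nat_lit 4), (nat_lit 6)⟩, [⟨(nat_lit 37), (nat_lit 0)⟩, ⟨(nat_lit 161), (nat_lit 0)⟩, ⟨(nat_lit 130), (nat_lit 0)⟩, ⟨(nat_lit 99), (nat_lit 0)⟩, ⟨(nat_lit 68), (nat_lit 0)⟩], ⟨(nat_lit 31104), [], [], true⟩, []⟩
def f1364 : Fc := ⟨true, ⟨[[e24, e113, e188, e67], [e2, e19, e33], [e3, e20], [e4], [e5, e6]], [], [], (nat_lit 12), (nat_lit 0x3fcffff), (nat_lit 0), (nat_lit 4), (nat_lit 6)⟩, [], ⟨(nat_lit 31104), [], [], true⟩, []⟩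
def f1365 : Fc := ⟨true, ⟨[[e2, e19, e33], [e3, e20], [e4], [e5, e6]], [e113, e24], [], (nat_lit 10), (nat_lit 0x3cffff), (nat_lit 0), (nat_lit 6), (nat_lit 5)⟩, [⟨(nat_lit 98), (nat_lit 0)⟩, ⟨(nat_lit 129), (nat_lit 0)⟩], ⟨(nat_lit 128), [], [], true⟩, []⟩
def f1366 : Fc := ⟨true, ⟨[[e2, e19, e33], [e3, e20], [e4], [e5, e6]], [e24], [], (nat_lit 9), (nat_lit 851967), (nat_lit 0), (nat_lit 7), (nat_lit 5)⟩, [⟨(nat_lit 67), (nat_lit 0)⟩, ⟨(nat_lit 98), (nat_lit 0)⟩, ⟨(nat_lit 129), (nat_lit 0)⟩], ⟨(nat_lit 1), [], [], true⟩, []⟩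
def f1367 : Fc := ⟨true, ⟨[[e2, e19, e33], [e3, e20], [e4], [e5, e6]], [], [], (nat_lit 8), (nat_lit 65535), (nat_lit 0), (nat_lit 8), (nat_lit 5)⟩, [], ⟨(nat_lit 1), [], [], true⟩, [⟨[(nat_lit 1), (nat_lit 32), (nat_lit 33), (nat_lit 34), (nat_lit 35), (nat_lit 65), (nat_lit 66), (nat_lit 67), (nat_lit 97), (nat_lit 98), (nat_lit 99), (nat_lit 100), (nat_lit 130), (nat_lit 131), (nat_lit 132), (nat_lit 163)], [(nat_lit 1), (nat_lit 0x100000000000000000000000000000000), (nat_lit 109)], (nat_lit 1), (nat_lit 0)⟩, ⟨[(nat_lit 1), (nat_lit 32), (nat_lit 33), (nat_lit 34), (nat_lit 35), (nat_lit 65), (nat_lit 66), (nat_lit 67), (nat_lit 68), (nat_lit 97), (nat_lit 98), (nat_lit 99), (nat_lit 100), (nat_lit 101), (nat_lit 131), (nat_lit 132)], [(nat_lit 1), (nat_lit 0x100000000000000000000000000000000), (nat_lit 109)], (nat_lit 1), (nat_lit 0)⟩]⟩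
def f1368 : Fc := ⟨true, ⟨[[e3, e20], [e4], [e5, e6]], [], [], (nat_lit 5), (nat_lit 3327), (nat_lit 0), (nat_lit 11), (nat_lit 4)⟩, [], ⟨(nat_lit 1), [], [], true⟩, [⟨[(nat_lit 1), (nat_lit 32), (nat_lit 33), (nat_lit 34), (nat_lit 35), (nat_lit 65), (nat_lit 66), (nat_lit 67), (nat_lit 68), (nat_lit 97), (nat_lit 98), (nat_lit 99), (nat_lit 100), (nat_lit 101), (nat_lit 131), (nat_lit 132)], [(nat_lit 1), (nat_lit 0x100000000000000000000000000000000), (nat_lit 109)], (nat_lit 1), (nat_lit 0)⟩, ⟨[(nat_lit 1), (nat_lit 32), (nat_lit 33), (nat_lit 34), (nat_lit 35), (nat_lit 65), (nat_lit 66), (nat_lit 67), (nat_lit 97), (nat_lit 98), (nat_lit 99), (nat_lit 100), (nat_lit 130), (nat_lit 131), (nat_lit 132), (nat_lit 163)], [(nat_lit 1), (nat_lit 0x100000000000000000000000000000000), (nat_lit 109)], (nat_lit 1), (nat_lit 0)⟩, ⟨[(nat_lit 1),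 (nat_lit 32), (nat_lit 33), (nat_lit 34), (nat_lit 35), (nat_lit 65), (nat_lit 66), (nat_lit 67), (nat_lit 67), (nat_lit 68), (nat_lit 98), (nat_lit 99), (nat_lit 100), (nat_lit 101), (nat_lit 131), (nat_lit 132)], [(nat_lit 1), (nat_lit 0x100000000000000000000000000000000), (nat_lit 2)], (nat_lit 1), (nat_lit 0)⟩, ⟨[(nat_lit 1), (nat_lit 32), (nat_lit 33), (nat_lit 34), (nat_lit 35), (nat_lit 36), (nat_lit 37), (nat_lit 65), (nat_lit 66), (nat_lit 67), (nat_lit 68), (nat_lit 69), (nat_lit 100), (nat_lit 101), (nat_lit 102), (nat_lit 133)], [(nat_lit 1), (nat_lit 0x100000000000000000000000000000027), (nat_lit 0)], (nat_lit 1), (nat_lit 0)⟩, ⟨[(nat_lit 1), (nat_lit 32), (nat_lit 33), (nat_lit 34), (nat_lit 35), (nat_lit 36), (nat_lit 37), (nat_lit 65), (nat_lit 66), (nat_lit 67), (nat_lit 68), (nat_lit 69), (nat_lit 70), (nat_lit 100), (nat_lit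 101), (nat_lit 133)], [(nat_lit 1), (nat_lit 0x100000000000000000000000000000000), (nat_lit 2)], (nat_lit 1), (nat_lit 0)⟩, ⟨[(nat_lit 1), (nat_lit 32), (nat_lit 33), (nat_lit 34), (nat_lit 65), (nat_lit 66), (nat_lit 97), (nat_lit 98), (nat_lit 129), (nat_lit 130), (nat_lit 131), (nat_lit 161), (nat_lit 162), (nat_lit 163), (nat_lit 164), (nat_lit 194)], [(nat_lit 1), (nat_lit 0x100000000000000000000000000000000), (nat_lit 2)], (nat_lit 1), (nat_lit 0)⟩, ⟨[(nat_lit 1), (nat_lit 32), (nat_lit 33), (nat_lit 34), (nat_lit 65), (nat_lit 66), (nat_lit 97), (nat_lit 98), (nat_lit 129), (nat_lit 130), (nat_lit 131), (nat_lit 161), (nat_lit 162), (nat_lit 163), (nat_lit 164), (nat_lit 195)], [(nat_lit 1), (nat_lit 0x100000000000000000000000000000027), (nat_lit 0)], (nat_lit 1), (nat_lit 0)⟩, ⟨[(nat_lit 1), (nat_lit 32), (nat_lit 33), (nat_lit 34),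 (nat_lit 65), (nat_lit 66), (nat_lit 67), (nat_lit 97), (nat_lit 98), (nat_lit 98), (nat_lit 99), (nat_lit 100), (nat_lit 130), (nat_lit 131), (nat_lit 132), (nat_lit 163)], [(nat_lit 1), (nat_lit 0x100000000000000000000000000000000), (nat_lit 2)], (nat_lit 1), (nat_lit 0)⟩]⟩
def f1369 : Fc := ⟨true, ⟨[[e4], [e5, e6]], [], [], (nat_lit 3), (nat_lit 63), (nat_lit 0), (nat_lit 13), (nat_lit 3)⟩, [], ⟨(nat_lit 1), [], [], true⟩, [⟨[(nat_lit 1), (nat_lit 32), (nat_lit 33), (nat_lit 34), (nat_lit 65), (nat_lit 66), (nat_lit 67), (nat_lit 97), (nat_lit 98), (nat_lit 98), (nat_lit 99), (nat_lit 100), (nat_lit 130), (nat_lit 131), (nat_lit 132), (nat_lit 163)], [(nat_lit 1), (nat_lit 0x100000000000000000000000000000000), (nat_lit 2)], (nat_lit 1), (nat_lit 0)⟩, ⟨[(nat_lit 1), (nat_lit 32), (nat_lit 33), (nat_lit 34), (nat_lit 65), (nat_lit 66),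 (nat_lit 97), (nat_lit 98), (nat_lit 129), (nat_lit 130), (nat_lit 131), (nat_lit 161), (nat_lit 162), (nat_lit 163), (nat_lit 164), (nat_lit 195)], [(nat_lit 1), (nat_lit 0x100000000000000000000000000000027), (nat_lit 0)], (nat_lit 1), (nat_lit 0)⟩, ⟨[(nat_lit 1), (nat_lit 32), (nat_lit 33), (nat_lit 34), (nat_lit 65), (nat_lit 66), (nat_lit 97), (nat_lit 98), (nat_lit 129), (nat_lit 130), (nat_lit 131), (nat_lit 161), (nat_lit 162), (nat_lit 163), (nat_lit 164), (nat_lit 194)], [(nat_lit 1), (nat_lit 0x100000000000000000000000000000000), (nat_lit 2)], (nat_lit 1), (nat_lit 0)⟩, ⟨[(nat_lit 1), (nat_lit 32), (nat_lit 33), (nat_lit 34), (nat_lit 35), (nat_lit 36), (nat_lit 37), (nat_lit 65), (nat_lit 66), (nat_lit 67), (nat_lit 68), (nat_lit 69), (nat_lit 70), (nat_lit 100), (nat_lit 101), (nat_lit 133)], [(nat_lit 1), (nat_lit 0x100000000000000000000000000000000),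 (nat_lit 2)], (nat_lit 1), (nat_lit 0)⟩, ⟨[(nat_lit 1), (nat_lit 32), (nat_lit 33), (nat_lit 34), (nat_lit 35), (nat_lit 36), (nat_lit 37), (nat_lit 65), (nat_lit 66), (nat_lit 67), (nat_lit 68), (nat_lit 69), (nat_lit 100), (nat_lit 101), (nat_lit 102), (nat_lit 133)], [(nat_lit 1), (nat_lit 0x100000000000000000000000000000027), (nat_lit 0)], (nat_lit 1), (nat_lit 0)⟩, ⟨[(nat_lit 1), (nat_lit 32), (nat_lit 33), (nat_lit 34), (nat_lit 35), (nat_lit 65), (nat_lit 66), (nat_lit 67), (nat_lit 67), (nat_lit 68), (nat_lit 98), (nat_lit 99), (nat_lit 100), (nat_lit 101), (nat_lit 131), (nat_lit 132)], [(nat_lit 1), (nat_lit 0x100000000000000000000000000000000), (nat_lit 2)], (nat_lit 1), (nat_lit 0)⟩, ⟨[(nat_lit 1), (nat_lit 32), (nat_lit 33), (nat_lit 34), (nat_lit 35), (nat_lit 65), (nat_lit 66), (nat_lit 67), (nat_lit 97), (nat_lit 98), (nat_lit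 99), (nat_lit 100), (nat_lit 130), (nat_lit 131), (nat_lit 132), (nat_lit 163)], [(nat_lit 1), (nat_lit 0x100000000000000000000000000000000), (nat_lit 109)], (nat_lit 1), (nat_lit 0)⟩, ⟨[(nat_lit 1), (nat_lit 32), (nat_lit 33), (nat_lit 34), (nat_lit 35), (nat_lit 65), (nat_lit 66), (nat_lit 67), (nat_lit 68), (nat_lit 97), (nat_lit 98), (nat_lit 99), (nat_lit 100), (nat_lit 101), (nat_lit 131), (nat_lit 132)], [(nat_lit 1), (nat_lit 0x100000000000000000000000000000000), (nat_lit 109)], (nat_lit 1), (nat_lit 0)⟩]⟩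
def f1370 : Fc := ⟨true, ⟨[[e5, e6]], [], [], (nat_lit 2), (nat_lit 15), (nat_lit 0), (nat_lit 14), (nat_lit 2)⟩, [], ⟨(nat_lit 1), [], [], true⟩, [⟨[(nat_lit 1), (nat_lit 32), (nat_lit 33), (nat_lit 34), (nat_lit 35), (nat_lit 65), (nat_lit 66), (nat_lit 67), (nat_lit 68), (nat_lit 97), (nat_lit 98), (nat_lit 99), (nat_lit 100), (nat_lit 101), (nat_lit 131), (nat_lit 132)], [(nat_lit 1), (nat_lit 0x100000000000000000000000000000000), (nat_lit 109)], (nat_lit 1), (nat_lit 0)⟩, ⟨[(nat_lit 1), (nat_lit 32), (nat_lit 33), (nat_lit 34), (nat_lit 35), (nat_lit 65), (nat_lit 66), (nat_lit 67), (nat_lit 97), (nat_lit 98), (nat_lit 99), (nat_lit 100), (nat_lit 130), (nat_lit 131), (nat_lit 132), (nat_lit 163)], [(nat_lit 1), (nat_lit 0x100000000000000000000000000000000), (nat_lit 109)], (nat_lit 1), (nat_lit 0)⟩, ⟨[(nat_lit 1), (nat_lit 32), (nat_lit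 33), (nat_lit 34), (nat_lit 35), (nat_lit 65), (nat_lit 66), (nat_lit 67), (nat_lit 67), (nat_lit 68), (nat_lit 98), (nat_lit 99), (nat_lit 100), (nat_lit 101), (nat_lit 131), (nat_lit 132)], [(nat_lit 1), (nat_lit 0x100000000000000000000000000000000), (nat_lit 2)], (nat_lit 1), (nat_lit 0)⟩, ⟨[(nat_lit 1), (nat_lit 32), (nat_lit 33), (nat_lit 34), (nat_lit 35), (nat_lit 36), (nat_lit 37), (nat_lit 65), (nat_lit 66), (nat_lit 67), (nat_lit 68), (nat_lit 69), (nat_lit 100), (nat_lit 101), (nat_lit 102), (nat_lit 133)], [(nat_lit 1), (nat_lit 0x100000000000000000000000000000027), (nat_lit 0)], (nat_lit 1), (nat_lit 0)⟩, ⟨[(nat_lit 1), (nat_lit 32), (nat_lit 33), (nat_lit 34), (nat_lit 35), (nat_lit 36), (nat_lit 37), (nat_lit 65), (nat_lit 66), (nat_lit 67), (nat_lit 68), (nat_lit 69), (nat_lit 70), (nat_lit 100), (nat_lit 101), (nat_lit 133)],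 [(nat_lit 1), (nat_lit 0x100000000000000000000000000000000), (nat_lit 2)], (nat_lit 1), (nat_lit 0)⟩, ⟨[(nat_lit 1), (nat_lit 32), (nat_lit 33), (nat_lit 34), (nat_lit 65), (nat_lit 66), (nat_lit 97), (nat_lit 98), (nat_lit 129), (nat_lit 130), (nat_lit 131), (nat_lit 161), (nat_lit 162), (nat_lit 163), (nat_lit 164), (nat_lit 194)], [(nat_lit 1), (nat_lit 0x100000000000000000000000000000000), (nat_lit 2)], (nat_lit 1), (nat_lit 0)⟩, ⟨[(nat_lit 1), (nat_lit 32), (nat_lit 33), (nat_lit 34), (nat_lit 65), (nat_lit 66), (nat_lit 97), (nat_lit 98), (nat_lit 129), (nat_lit 130), (nat_lit 131), (nat_lit 161), (nat_lit 162), (nat_lit 163), (nat_lit 164), (nat_lit 195)], [(nat_lit 1), (nat_lit 0x100000000000000000000000000000027), (nat_lit 0)], (nat_lit 1), (nat_lit 0)⟩, ⟨[(nat_lit 1), (nat_lit 32), (nat_lit 33), (nat_lit 34), (nat_lit 65), (nat_lit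 66), (nat_lit 67), (nat_lit 97), (nat_lit 98), (nat_lit 98), (nat_lit 99), (nat_lit 100), (nat_lit 130), (nat_lit 131), (nat_lit 132), (nat_lit 163)], [(nat_lit 1), (nat_lit 0x100000000000000000000000000000000), (nat_lit 2)], (nat_lit 1), (nat_lit 0)⟩]⟩
def f1371 : Fc := ⟨true, ⟨[], [e5], [], (nat_lit 1), (nat_lit 3), (nat_lit 0), (nat_lit 14), (nat_lit 1)⟩, [], ⟨(nat_lit 1), [], [], true⟩, []⟩
def f1372 : Fc := ⟨true, ⟨[[e5]], [], [], (nat_lit 1), (nat_lit 3), (nat_lit 1), (nat_lit 14), (nat_lit 2)⟩, [], ⟨(nat_lit 1), [], [], true⟩, []⟩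
def f1373 : Fc := ⟨true, ⟨[[e6]], [], [], (nat_lit 1), (nat_lit 12), (nat_lit 1), (nat_lit 14), (nat_lit 2)⟩, [], ⟨(nat_lit 1), [], [], true⟩, []⟩
def f1374 : Fc := ⟨true, ⟨[[e3, e20], [e4], [e5, e6]], [e2], [], (nat_lit 6), (nat_lit 4095), (nat_lit 0), (nat_lit 5), (nat_lit 4)⟩, [], ⟨(nat_lit 1), [], [], true⟩, []⟩
def f1375 : Fc := ⟨true, ⟨[[e3, e20], [e4], [e5, e6]], [e19], [], (nat_lit 6), (nat_lit 15615), (nat_lit 0), (nat_lit 5), (nat_lit 4)⟩, [], ⟨(nat_lit 1), [], [], true⟩, []⟩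
def f1376 : Fc := ⟨true, ⟨[[e4], [e5, e6]], [], [], (nat_lit 3), (nat_lit 63), (nat_lit 1), (nat_lit 10), (nat_lit 3)⟩, [], ⟨(nat_lit 1), [], [], true⟩, []⟩
def f1377 : Fc := ⟨true, ⟨[[e5, e6]], [], [], (nat_lit 2), (nat_lit 15), (nat_lit 1), (nat_lit 12), (nat_lit 2)⟩, [], ⟨(nat_lit 1), [], [], true⟩, []⟩
def f1378 : Fc := ⟨true, ⟨[], [e5], [], (nat_lit 1), (nat_lit 3), (nat_lit 1), (nat_lit 13), (nat_lit 1)⟩, [], ⟨(nat_lit 1), [], [], true⟩, []⟩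
def f1379 : Fc := ⟨true, ⟨[[e5]], [], [], (nat_lit 1), (nat_lit 3), (nat_lit 2), (nat_lit 13), (nat_lit 2)⟩, [], ⟨(nat_lit 1), [], [], true⟩, []⟩
def f1380 : Fc := ⟨true, ⟨[], [e6], [], (nat_lit 1), (nat_lit 12), (nat_lit 1), (nat_lit 13), (nat_lit 1)⟩, [], ⟨(nat_lit 1), [], [], true⟩, []⟩
def f1381 : Fc := ⟨true, ⟨[[e6]], [], [], (nat_lit 1), (nat_lit 12), (nat_lit 2), (nat_lit 13), (nat_lit 2)⟩, [], ⟨(nat_lit 1), [], [], true⟩, []⟩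
def f1382 : Fc := ⟨true, ⟨[[e5, e6]], [], [], (nat_lit 2), (nat_lit 15), (nat_lit 2), (nat_lit 10), (nat_lit 2)⟩, [], ⟨(nat_lit 1), [], [], true⟩, []⟩
def f1383 : Fc := ⟨true, ⟨[], [e5], [], (nat_lit 1), (nat_lit 3), (nat_lit 2), (nat_lit 12), (nat_lit 1)⟩, [], ⟨(nat_lit 1), [], [], true⟩, []⟩
def f1384 : Fc := ⟨true, ⟨[[e5]], [], [], (nat_lit 1), (nat_lit 3), (nat_lit 3), (nat_lit 12), (nat_lit 2)⟩, [], ⟨(nat_lit 1), [], [], true⟩, []⟩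
def f1385 : Fc := ⟨true, ⟨[], [e6], [], (nat_lit 1), (nat_lit 12), (nat_lit 2), (nat_lit 12), (nat_lit 1)⟩, [], ⟨(nat_lit 1), [], [], true⟩, []⟩
def f1386 : Fc := ⟨true, ⟨[[e6]], [], [], (nat_lit 1), (nat_lit 12), (nat_lit 3), (nat_lit 12), (nat_lit 2)⟩, [], ⟨(nat_lit 1), [], [], true⟩, []⟩
def f1387 : Fc := ⟨true, ⟨[[e5, e6]], [], [], (nat_lit 2), (nat_lit 15), (nat_lit 3), (nat_lit 8), (nat_lit 2)⟩, [], ⟨(nat_lit 1), [], [], true⟩, []⟩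
def f1388 : Fc := ⟨true, ⟨[], [e5], [], (nat_lit 1), (nat_lit 3), (nat_lit 3), (nat_lit 11), (nat_lit 1)⟩, [], ⟨(nat_lit 1), [], [], true⟩, []⟩
def f1389 : Fc := ⟨true, ⟨[[e5]], [], [], (nat_lit 1), (nat_lit 3), (nat_lit 4), (nat_lit 11), (nat_lit 2)⟩, [], ⟨(nat_lit 1), [], [], true⟩, []⟩
def f1390 : Fc := ⟨true, ⟨[], [e6], [], (nat_lit 1), (nat_lit 12), (nat_lit 3), (nat_lit 11), (nat_lit 1)⟩, [], ⟨(nat_lit 1), [], [], true⟩, []⟩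
def f1391 : Fc := ⟨true, ⟨[[e6]], [], [], (nat_lit 1), (nat_lit 12), (nat_lit 4), (nat_lit 11), (nat_lit 2)⟩, [], ⟨(nat_lit 1), [], [], true⟩, []⟩
def f1392 : Fc := ⟨true, ⟨[], [e5], [], (nat_lit 1), (nat_lit 3), (nat_lit 5), (nat_lit 9), (nat_lit 1)⟩, [], ⟨(nat_lit 1), [], [], true⟩, []⟩
def f1393 : Fc := ⟨true, ⟨[[e5]], [], [], (nat_lit 1), (nat_lit 3), (nat_lit 6), (nat_lit 9), (nat_lit 2)⟩, [], ⟨(nat_lit 1), [], [], true⟩, []⟩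
def f1394 : Fc := ⟨true, ⟨[], [e6], [], (nat_lit 1), (nat_lit 12), (nat_lit 5), (nat_lit 9), (nat_lit 1)⟩, [], ⟨(nat_lit 1), [], [], true⟩, []⟩
def f1395 : Fc := ⟨true, ⟨[[e6]], [], [], (nat_lit 1), (nat_lit 12), (nat_lit 6), (nat_lit 9), (nat_lit 2)⟩, [], ⟨(nat_lit 1), [], [], true⟩, []⟩
def f1396 : Fc := ⟨true, ⟨[], [e5], [], (nat_lit 1), (nat_lit 3), (nat_lit 6), (nat_lit 8), (nat_lit 1)⟩, [], ⟨(nat_lit 1), [], [], true⟩, []⟩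
def f1397 : Fc := ⟨true, ⟨[], [e6], [], (nat_lit 1), (nat_lit 12), (nat_lit 6), (nat_lit 8), (nat_lit 1)⟩, [], ⟨(nat_lit 1), [], [], true⟩, []⟩
def f1398 : Fc := ⟨true, ⟨[], [], [], (nat_lit 0), (nat_lit 0), (nat_lit 16), (nat_lit 16), (nat_lit 1)⟩, [], ⟨(nat_lit 1), [], [], true⟩, [⟨[(nat_lit 1), (nat_lit 32), (nat_lit 33), (nat_lit 34), (nat_lit 65), (nat_lit 66), (nat_lit 67), (nat_lit 97), (nat_lit 98), (nat_lit 98), (nat_lit 99), (nat_lit 100), (nat_lit 130), (nat_lit 131), (nat_lit 132), (nat_lit 163)], [(nat_lit 1), (nat_lit 0x100000000000000000000000000000000), (nat_lit 2)], (nat_lit 1), (nat_lit 0)⟩, ⟨[(nat_lit 1), (nat_lit 32), (nat_lit 33), (nat_lit 34), (nat_lit 65), (nat_lit 66), (nat_lit 97), (nat_lit 98), (nat_lit 129), (nat_lit 130), (nat_lit 131), (nat_lit 161), (nat_lit 162), (nat_lit 163), (nat_lit 164), (nat_lit 195)],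 [(nat_lit 1), (nat_lit 0x100000000000000000000000000000027), (nat_lit 0)], (nat_lit 1), (nat_lit 0)⟩, ⟨[(nat_lit 1), (nat_lit 32), (nat_lit 33), (nat_lit 34), (nat_lit 65), (nat_lit 66), (nat_lit 97), (nat_lit 98), (nat_lit 129), (nat_lit 130), (nat_lit 131), (nat_lit 161), (nat_lit 162), (nat_lit 163), (nat_lit 164), (nat_lit 194)], [(nat_lit 1), (nat_lit 0x100000000000000000000000000000000), (nat_lit 2)], (nat_lit 1), (nat_lit 0)⟩, ⟨[(nat_lit 1), (nat_lit 32), (nat_lit 33), (nat_lit 34), (nat_lit 35), (nat_lit 36), (nat_lit 37), (nat_lit 65), (nat_lit 66), (nat_lit 67), (nat_lit 68), (nat_lit 69), (nat_lit 70), (nat_lit 100), (nat_lit 101), (nat_lit 133)], [(nat_lit 1), (nat_lit 0x100000000000000000000000000000000), (nat_lit 2)], (nat_lit 1), (nat_lit 0)⟩, ⟨[(nat_lit 1), (nat_lit 32), (nat_lit 33), (nat_lit 34), (nat_lit 35), (nat_lit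 36), (nat_lit 37), (nat_lit 65), (nat_lit 66), (nat_lit 67), (nat_lit 68), (nat_lit 69), (nat_lit 100), (nat_lit 101), (nat_lit 102), (nat_lit 133)], [(nat_lit 1), (nat_lit 0x100000000000000000000000000000027), (nat_lit 0)], (nat_lit 1), (nat_lit 0)⟩, ⟨[(nat_lit 1), (nat_lit 32), (nat_lit 33), (nat_lit 34), (nat_lit 35), (nat_lit 65), (nat_lit 66), (nat_lit 67), (nat_lit 67), (nat_lit 68), (nat_lit 98), (nat_lit 99), (nat_lit 100), (nat_lit 101), (nat_lit 131), (nat_lit 132)], [(nat_lit 1), (nat_lit 0x100000000000000000000000000000000), (nat_lit 2)], (nat_lit 1), (nat_lit 0)⟩, ⟨[(nat_lit 1), (nat_lit 32), (nat_lit 33), (nat_lit 34), (nat_lit 35), (nat_lit 65), (nat_lit 66), (nat_lit 67), (nat_lit 97), (nat_lit 98), (nat_lit 99), (nat_lit 100), (nat_lit 130), (nat_lit 131), (nat_lit 132), (nat_lit 163)], [(nat_lit 1), (nat_lit 0x100000000000000000000000000000000),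 (nat_lit 109)], (nat_lit 1), (nat_lit 0)⟩, ⟨[(nat_lit 1), (nat_lit 32), (nat_lit 33), (nat_lit 34), (nat_lit 35), (nat_lit 65), (nat_lit 66), (nat_lit 67), (nat_lit 68), (nat_lit 97), (nat_lit 98), (nat_lit 99), (nat_lit 100), (nat_lit 101), (nat_lit 131), (nat_lit 132)], [(nat_lit 1), (nat_lit 0x100000000000000000000000000000000), (nat_lit 109)], (nat_lit 1), (nat_lit 0)⟩]⟩
def r0 : List Fc := [f0, f1, f2, f3, f4, f5, f6, f7, f8, f9, f10, f11, f12, f13, f14, f15, f16, f17, f18, f19, f20, f21, f22, f23, f24, f25, f26, f27, f28, f29, f30, f31, f32, f33, f34, f35, f36, f37, f38, f39, f40, f41, f42, f43, f44, f45, f46, f47, f48, f49, f50, f51, f52, f53, f54, f55, f56, f57, f58, f59, f60, f61, f62, f63, f64, f65, f66, f67, f68, f69, f70, f71, f72, f73, f74, f75, f76, f77, f78, f79, f80, f81, f82, f83, f84, f85, f86, f87, f88, f89, f90, f91,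 f92, f93, f94, f95, f96, f97, f98, f99, f100, f101, f102, f103, f104, f105, f106, f107, f108, f109, f110, f111, f112, f113, f114, f115, f116, f117, f118, f119, f120, f121, f122, f123, f124, f125, f126, f127]
def r1 : List Fc := [f128, f129, f130, f131, f132, f133, f134, f135, f136, f137, f138, f139, f140, f141, f142, f143, f144, f145, f146, f147, f148, f149, f150, f151, f152, f153, f154, f155, f156, f157, f158, f159, f160, f161, f162, f163, f164, f165, f166, f167, f168, f169, f170, f171, f172, f173, f174, f175, f176, f177, f178, f179, f180, f181, f182, f183, f184, f185, f186, f187, f188, f189, f190, f191, f192, f193, f194, f195, f196, f197, f198, f199, f200, f201, f202, f203, f204, f205, f206, f207, f208, f209, f210, f211, f212, f213, f214, f215, f216, f217, f218, f219, f220, f221, f222, f223, f224, f225, f226, f227, f228, f229, f230, f231,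 f232, f233, f234, f235, f236, f237, f238, f239, f240, f241, f242, f243, f244, f245, f246, f247, f248, f249, f250, f251, f252, f253, f254, f255]
def r2 : List Fc := [f256, f257, f258, f259, f260, f261, f262, f263, f264, f265, f266, f267, f268, f269, f270, f271, f272, f273, f274, f275, f276, f277, f278, f279, f280, f281, f282, f283, f284, f285, f286, f287, f288, f289, f290, f291, f292, f293, f294, f295, f296, f297, f298, f299, f300, f301, f302, f303, f304, f305, f306, f307, f308, f309, f310, f311, f312, f313, f314, f315, f316, f317, f318, f319, f320, f321, f322, f323, f324, f325, f326, f327, f328, f329, f330, f331, f332, f333, f334, f335, f336, f337, f338, f339, f340, f341, f342, f343, f344, f345, f346, f347, f348, f349, f350, f351, f352, f353, f354, f355, f356, f357, f358, f359, f360, f361, f362, f363, f364, f365, f366, f367, f368, f369,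 f370, f371, f372, f373, f374, f375, f376, f377, f378, f379, f380, f381, f382, f383]
def r3 : List Fc := [f384, f385, f386, f387, f388, f389, f390, f391, f392, f393, f394, f395, f396, f397, f398, f399, f400, f401, f402, f403, f404, f405, f406, f407, f408, f409, f410, f411, f412, f413, f414, f415, f416, f417, f418, f419, f420, f421, f422, f423, f424, f425, f426, f427, f428, f429, f430, f431, f432, f433, f434, f435, f436, f437, f438, f439, f440, f441, f442, f443, f444, f445, f446, f447, f448, f449, f450, f451, f452, f453, f454, f455, f456, f457, f458, f459, f460, f461, f462, f463, f464, f465, f466, f467, f468, f469, f470, f471, f472, f473, f474, f475, f476, f477, f478, f479, f480, f481, f482, f483, f484, f485, f486, f487, f488, f489, f490, f491, f492, f493, f494, f495, f496, f497, f498, f499, f500, f501, f502, f503, f504, f505, f506, f507,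 f508, f509, f510, f511]
def r4 : List Fc := [f512, f513, f514, f515, f516, f517, f518, f519, f520, f521, f522, f523, f524, f525, f526, f527, f528, f529, f530, f531, f532, f533, f534, f535, f536, f537, f538, f539, f540, f541, f542, f543, f544, f545, f546, f547, f548, f549, f550, f551, f552, f553, f554, f555, f556, f557, f558, f559, f560, f561, f562, f563, f564, f565, f566, f567, f568, f569, f570, f571, f572, f573, f574, f575, f576, f577, f578, f579, f580, f581, f582, f583, f584, f585, f586, f587, f588, f589, f590, f591, f592, f593, f594, f595, f596, f597, f598, f599, f600, f601, f602, f603, f604, f605, f606, f607, f608, f609, f610, f611, f612, f613, f614, f615, f616, f617, f618, f619, f620, f621, f622, f623, f624, f625, f626, f627, f628, f629, f630, f631, f632, f633, f634, f635, f636, f637, f638, f639]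
def r5 : List Fc := [f640, f641, f642, f643, f644, f645, f646, f647, f648, f649, f650, f651, f652, f653, f654, f655, f656, f657, f658, f659, f660, f661, f662, f663, f664, f665, f666, f667, f668, f669, f670, f671, f672, f673, f674, f675, f676, f677, f678, f679, f680, f681, f682, f683, f684, f685, f686, f687, f688, f689, f690, f691, f692, f693, f694, f695, f696, f697, f698, f699, f700, f701, f702, f703, f704, f705, f706, f707, f708, f709, f710, f711, f712, f713, f714, f715, f716, f717, f718, f719, f720, f721, f722, f723, f724, f725, f726, f727, f728, f729, f730, f731, f732, f733, f734, f735, f736, f737, f738, f739, f740, f741, f742, f743, f744, f745, f746, f747, f748, f749, f750, f751, f752, f753, f754, f755, f756, f757, f758, f759, f760, f761, f762, f763, f764, f765, f766, f767]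
def r6 : List Fc := [f768, f769, f770, f771, f772, f773, f774, f775, f776, f777, f778, f779, f780, f781, f782, f783, f784, f785, f786, f787, f788, f789, f790, f791, f792, f793, f794, f795, f796, f797, f798, f799, f800, f801, f802, f803, f804, f805, f806, f807, f808, f809, f810, f811, f812, f813, f814, f815, f816, f817, f818, f819, f820, f821, f822, f823, f824, f825, f826, f827, f828, f829, f830, f831, f832, f833, f834, f835, f836, f837, f838, f839, f840, f841, f842, f843, f844, f845, f846, f847, f848, f849, f850, f851, f852, f853, f854, f855, f856, f857, f858, f859, f860, f861, f862, f863, f864, f865, f866, f867, f868, f869, f870, f871, f872, f873, f874, f875, f876, f877, f878, f879, f880, f881, f882, f883, f884, f885, f886, f887, f888, f889, f890, f891, f892, f893, f894, f895]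
def r7 : List Fc := [f896, f897, f898, f899, f900, f901, f902, f903, f904, f905, f906, f907, f908, f909, f910, f911, f912, f913, f914, f915, f916, f917, f918, f919, f920, f921, f922, f923, f924, f925, f926, f927, f928, f929, f930, f931, f932, f933, f934, f935, f936, f937, f938, f939, f940, f941, f942, f943, f944, f945, f946, f947, f948, f949, f950, f951, f952, f953, f954, f955, f956, f957, f958, f959, f960, f961, f962, f963, f964, f965, f966, f967, f968, f969, f970, f971, f972, f973, f974, f975, f976, f977, f978, f979, f980, f981, f982, f983, f984, f985, f986, f987, f988, f989, f990, f991, f992, f993, f994, f995, f996, f997, f998, f999, f1000, f1001, f1002, f1003, f1004, f1005, f1006, f1007, f1008, f1009, f1010, f1011, f1012, f1013, f1014, f1015, f1016, f1017, f1018, f1019, f1020, f1021, f1022, f1023]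
def r8 : List Fc := [f1024, f1025, f1026, f1027, f1028, f1029, f1030, f1031, f1032, f1033, f1034, f1035, f1036, f1037, f1038, f1039, f1040, f1041, f1042, f1043, f1044, f1045, f1046, f1047, f1048, f1049, f1050, f1051, f1052, f1053, f1054, f1055, f1056, f1057, f1058, f1059, f1060, f1061, f1062, f1063, f1064, f1065, f1066, f1067, f1068, f1069, f1070, f1071, f1072, f1073, f1074, f1075, f1076, f1077, f1078, f1079, f1080, f1081, f1082, f1083, f1084, f1085, f1086, f1087, f1088, f1089, f1090, f1091, f1092, f1093, f1094, f1095, f1096, f1097, f1098, f1099, f1100, f1101, f1102, f1103, f1104, f1105, f1106, f1107, f1108, f1109, f1110, f1111, f1112, f1113, f1114, f1115, f1116, f1117, f1118, f1119, f1120, f1121, f1122, f1123, f1124, f1125, f1126, f1127, f1128, f1129, f1130, f1131, f1132, f1133, f1134, f1135, f1136, f1137, f1138, f1139, f1140, f1141, f1142,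 f1143, f1144, f1145, f1146, f1147, f1148, f1149, f1150, f1151]
def r9 : List Fc := [f1152, f1153, f1154, f1155, f1156, f1157, f1158, f1159, f1160, f1161, f1162, f1163, f1164, f1165, f1166, f1167, f1168, f1169, f1170, f1171, f1172, f1173, f1174, f1175, f1176, f1177, f1178, f1179, f1180, f1181, f1182, f1183, f1184, f1185, f1186, f1187, f1188, f1189, f1190, f1191, f1192, f1193, f1194, f1195, f1196, f1197, f1198, f1199, f1200, f1201, f1202, f1203, f1204, f1205, f1206, f1207, f1208, f1209, f1210, f1211, f1212, f1213, f1214, f1215, f1216, f1217, f1218, f1219, f1220, f1221, f1222, f1223, f1224, f1225, f1226, f1227, f1228, f1229, f1230, f1231, f1232, f1233, f1234, f1235, f1236, f1237, f1238, f1239, f1240, f1241, f1242, f1243, f1244, f1245, f1246, f1247, f1248, f1249, f1250, f1251, f1252, f1253, f1254, f1255, f1256, f1257, f1258, f1259, f1260, f1261,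 f1262, f1263, f1264, f1265, f1266, f1267, f1268, f1269, f1270, f1271, f1272, f1273, f1274, f1275, f1276, f1277, f1278, f1279]
def r10 : List Fc := [f1280, f1281, f1282, f1283, f1284, f1285, f1286, f1287, f1288, f1289, f1290, f1291, f1292, f1293, f1294, f1295, f1296, f1297, f1298, f1299, f1300, f1301, f1302, f1303, f1304, f1305, f1306, f1307, f1308, f1309, f1310, f1311, f1312, f1313, f1314, f1315, f1316, f1317, f1318, f1319, f1320, f1321, f1322, f1323, f1324, f1325, f1326, f1327, f1328, f1329, f1330, f1331, f1332, f1333, f1334, f1335, f1336, f1337, f1338, f1339, f1340, f1341, f1342, f1343, f1344, f1345, f1346, f1347, f1348, f1349, f1350, f1351, f1352, f1353, f1354, f1355, f1356, f1357, f1358, f1359, f1360, f1361, f1362, f1363, f1364, f1365, f1366, f1367, f1368, f1369, f1370, f1371, f1372, f1373, f1374, f1375, f1376, f1377, f1378, f1379, f1380,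 f1381, f1382, f1383, f1384, f1385, f1386, f1387, f1388, f1389, f1390, f1391, f1392, f1393, f1394, f1395, f1396, f1397, f1398]
/-- All facts. -/
def ft : List (List Fc) := [r0, r1, r2, r3, r4, r5, r6, r7, r8, r9, r10]

end

end Pool.Agent.P.MP_8598be_al.Ck.D2
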