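import Pool.Agent.P.MP_8598be_al.Ck.Chk

/-!
Parameters and facts.
-/

namespace Pool.Agent.P.MP_8598be_al.Ck.D3

noncomputable section

/-- The parameters. -/
def par : Par := ⟨(nat_lit 3), (nat_lit 3), (nat_lit 16), (nat_lit 64), (nat_lit 0xffffffffffffffff), (nat_lit 0x20202030307), (nat_lit 0xfc0000007e0000003f000000150000000700000001), (nat_lit 0xdbf240), (nat_lit 256), (nat_lit 4096), (nat_lit 256), (nat_lit 1), (nat_lit 0), ⟨(nat_lit 0x100000000000000010000000000000001), (nat_lit 0), (nat_lit 3), (nat_lit 4)⟩⟩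

def e0 : En := ⟨(nat_lit 12), (nat_lit 33), (nat_lit 1), (nat_lit 1), [⟨(nat_lit 2), (nat_lit 6), (nat_lit 1), (nat_lit 0)⟩]⟩
def e1 : En := ⟨(nat_lit 14), (nat_lit 258), (nat_lit 1), (nat_lit 1), [⟨(nat_lit 4), (nat_lit 8), (nat_lit 1), (nat_lit 0)⟩]⟩
def e2 : En := ⟨(nat_lit 16), (nat_lit 528), (nat_lit 1), (nat_lit 1), [⟨(nat_lit 0), (nat_lit 10), (nat_lit 1), (nat_lit 0)⟩]⟩
def e3 : En := ⟨(nat_lit 29), (nat_lit 273), (nat_lit 4), (nat_lit 2), [⟨(nat_lit 0), (nat_lit 6), (nat_lit 1), (nat_lit 0)⟩, ⟨(nat_lit 2), (nat_lit 8), (nat_lit 0x10000000000000000), (nat_lit 0)⟩, ⟨(nat_lit 4), (nat_lit 10), (nat_lit 0), (nat_lit 0x10000000000000001)⟩]⟩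
def e4 : En := ⟨(nat_lit 6), (nat_lit 17), (nat_lit 1), (nat_lit 1), [⟨(nat_lit 2), (nat_lit 4), (nat_lit 1), (nat_lit 0)⟩]⟩
def e5 : En := ⟨(nat_lit 8), (nat_lit 257), (nat_lit 1), (nat_lit 1), [⟨(nat_lit 0), (nat_lit 4), (nat_lit 0), (nat_lit 1)⟩]⟩
def e6 : En := ⟨(nat_lit 10), (nat_lit 272), (nat_lit 1), (nat_lit 1), [⟨(nat_lit 0), (nat_lit 2), (nat_lit 1), (nat_lit 0)⟩]⟩
def e7 : En := ⟨(nat_lit 0), (nat_lit 256), (nat_lit 0), (nat_lit 1), []⟩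
def e8 : En := ⟨(nat_lit 2), (nat_lit 16), (nat_lit 0), (nat_lit 1), []⟩
def e9 : En := ⟨(nat_lit 4), (nat_lit 1), (nat_lit 0), (nat_lit 1), []⟩
def e10 : En := ⟨(nat_lit 18), (nat_lit 18), (nat_lit 1), (nat_lit 1), [⟨(nat_lit 4), (nat_lit 6), (nat_lit 1), (nat_lit 0)⟩]⟩
def e11 : En := ⟨(nat_lit 20), (nat_lit 513), (nat_lit 1), (nat_lit 1), [⟨(nat_lit 0), (nat_lit 8), (nat_lit 1), (nat_lit 0)⟩]⟩
def e12 : En := ⟨(nat_lit 22), (nat_lit 288), (nat_lit 1), (nat_lit 1), [⟨(nat_lit 2), (nat_lit 10), (nat_lit 1), (nat_lit 0)⟩]⟩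
def e13 : En := ⟨(nat_lit 33), (nat_lit 273), (nat_lit 4), (nat_lit 2), [⟨(nat_lit 0), (nat_lit 6), (nat_lit 1), (nat_lit 0)⟩, ⟨(nat_lit 2), (nat_lit 8), (nat_lit 0), (nat_lit 0x10000000000000001)⟩, ⟨(nat_lit 4), (nat_lit 10), (nat_lit 0x10000000000000000), (nat_lit 0)⟩]⟩
def f0 : Fc := ⟨false, st0, [], ⟨(nat_lit 576), [], [⟨(nb (nat_lit 1) (nat_lit 448) (nb (nat_lit 1) (nat_lit 64) (nat_lit 0))), (nat_lit 0), (nat_lit 2), (nat_lit 6)⟩], false⟩, []⟩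
def f1 : Fc := ⟨false, st0, [], ⟨(nat_lit 576), [⟨(nb (nat_lit 1) (nat_lit 448) (nb (nat_lit 1) (nat_lit 64) (nat_lit 0))), (nat_lit 0), (nat_lit 2), (nat_lit 6)⟩], [⟨(nb (nat_lit 1) (nat_lit 448) (nat_lit 0)), (nat_lit 0), (nat_lit 1), (nat_lit 3)⟩], false⟩, []⟩
def f2 : Fc := ⟨false, st0, [], ⟨(nat_lit 576), [⟨(nb (nat_lit 1) (nat_lit 448) (nat_lit 0)), (nat_lit 0), (nat_lit 1), (nat_lit 3)⟩, ⟨(nb (nat_lit 1) (nat_lit 448) (nb (nat_lit 1) (nat_lit 64) (nat_lit 0))), (nat_lit 0), (nat_lit 2), (nat_lit 6)⟩], [⟨(nb (nat_lit 1) (nat_lit 448) (nat_lit 0)), (nat_lit 1), (nat_lit 2), (nat_lit 3)⟩], false⟩, []⟩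
def f3 : Fc := ⟨false, st0, [], ⟨(nat_lit 576), [], [⟨(nb (nat_lit 7) (nat_lit 448) (nat_lit 0)), (nat_lit 0x30000000000000009), (nat_lit 19), (nat_lit 6)⟩], false⟩, []⟩
def f4 : Fc := ⟨false, st0, [], ⟨(nat_lit 576), [], [⟨(nb (nat_lit 2) (nat_lit 448) (nat_lit 1)), (nat_lit 0), (nat_lit 3), (nat_lit 3)⟩], false⟩, []⟩
def f5 : Fc := ⟨false, st0, [], ⟨(nat_lit 576), [⟨(nb (nat_lit 2) (nat_lit 448) (nat_lit 1)), (nat_lit 0), (nat_lit 3), (nat_lit 3)⟩], [⟨(nb (nat_lit 1) (nat_lit 448) (nat_lit 0)), (nat_lit 0), (nat_lit 1), (nat_lit 3)⟩], false⟩, []⟩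
def f6 : Fc := ⟨false, st0, [], ⟨(nat_lit 576), [⟨(nb (nat_lit 1) (nat_lit 448) (nat_lit 0)), (nat_lit 0), (nat_lit 1), (nat_lit 3)⟩, ⟨(nb (nat_lit 2) (nat_lit 448) (nat_lit 1)), (nat_lit 0), (nat_lit 3), (nat_lit 3)⟩], [⟨(nb (nat_lit 1) (nat_lit 448) (nat_lit 1)), (nat_lit 0), (nat_lit 2), (nat_lit 3)⟩], false⟩, []⟩
def f7 : Fc := ⟨false, st0, [], ⟨(nat_lit 576), [], [⟨(nb (nat_lit 7) (nat_lit 448) (nat_lit 6)), (nat_lit 0x30000000000000000), (nat_lit 16), (nat_lit 6)⟩], false⟩, []⟩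
def f8 : Fc := ⟨false, st0, [], ⟨(nat_lit 576), [], [⟨(nb (nat_lit 1) (nat_lit 448) (nat_lit 0)), (nat_lit 1), (nat_lit 2), (nat_lit 3)⟩], false⟩, []⟩
def f9 : Fc := ⟨false, st0, [], ⟨(nat_lit 576), [⟨(nb (nat_lit 1) (nat_lit 448) (nat_lit 0)), (nat_lit 0), (nat_lit 1), (nat_lit 3)⟩, ⟨(nb (nat_lit 1) (nat_lit 448) (nat_lit 0)), (nat_lit 1), (nat_lit 2), (nat_lit 3)⟩], [⟨(nb (nat_lit 1) (nat_lit 448) (nb (nat_lit 1) (nat_lit 64) (nat_lit 0))), (nat_lit 0), (nat_lit 2), (nat_lit 6)⟩], false⟩, []⟩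
def f10 : Fc := ⟨false, st0, [], ⟨(nat_lit 576), [⟨(nb (nat_lit 1) (nat_lit 448) (nat_lit 0)), (nat_lit 1), (nat_lit 2), (nat_lit 3)⟩], [⟨(nb (nat_lit 1) (nat_lit 448) (nat_lit 0)), (nat_lit 0), (nat_lit 1), (nat_lit 3)⟩], false⟩, []⟩
def f11 : Fc := ⟨false, st0, [], ⟨(nat_lit 576), [⟨(nb (nat_lit 1) (nat_lit 448) (nat_lit 0)), (nat_lit 1), (nat_lit 2), (nat_lit 3)⟩], [⟨(nb (nat_lit 1) (nat_lit 448) (nb (nat_lit 1) (nat_lit 64) (nat_lit 0))), (nat_lit 0), (nat_lit 2), (nat_lit 6)⟩], false⟩, []⟩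
def f12 : Fc := ⟨false, st0, [], ⟨(nat_lit 576), [], [⟨(nb (nat_lit 7) (nat_lit 448) (nb (nat_lit 5) (nat_lit 64) (nat_lit 0))), (nat_lit 3), (nat_lit 15), (nat_lit 6)⟩], false⟩, []⟩
def f13 : Fc := ⟨false, st0, [], ⟨(nat_lit 576), [], [⟨(nb (nat_lit 1) (nat_lit 448) (nat_lit 0)), (nat_lit 0x10000000000000000), (nat_lit 2), (nat_lit 6)⟩], false⟩, []⟩
def f14 : Fc := ⟨false, st0, [], ⟨(nat_lit 576), [⟨(nb (nat_lit 1) (nat_lit 448) (nat_lit 0)), (nat_lit 0), (nat_lit 1), (nat_lit 3)⟩, ⟨(nb (nat_lit 1) (nat_lit 448) (nat_lit 0)), (nat_lit 0x10000000000000000), (nat_lit 2), (nat_lit 6)⟩], [⟨(nb (nat_lit 1) (nat_lit 448) (nb (nat_lit 1) (nat_lit 64) (nat_lit 0))), (nat_lit 0), (nat_lit 2), (nat_lit 6)⟩], false⟩, []⟩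
def f15 : Fc := ⟨false, st0, [], ⟨(nat_lit 576), [⟨(nb (nat_lit 1) (nat_lit 448) (nat_lit 0)), (nat_lit 0x10000000000000000), (nat_lit 2), (nat_lit 6)⟩], [⟨(nb (nat_lit 1) (nat_lit 448) (nat_lit 0)), (nat_lit 0), (nat_lit 1), (nat_lit 3)⟩], false⟩, []⟩
def f16 : Fc := ⟨false, st0, [], ⟨(nat_lit 576), [⟨(nb (nat_lit 1) (nat_lit 448) (nat_lit 0)), (nat_lit 0x10000000000000000), (nat_lit 2), (nat_lit 6)⟩], [⟨(nb (nat_lit 1) (nat_lit 448) (nb (nat_lit 1) (nat_lit 64) (nat_lit 0))), (nat_lit 0), (nat_lit 2), (nat_lit 6)⟩], false⟩, []⟩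
def f17 : Fc := ⟨false, st0, [], ⟨(nat_lit 576), [], [⟨(nb (nat_lit 7) (nat_lit 448) (nat_lit 0x80000000000000003)), (nat_lit 0), (nat_lit 18), (nat_lit 6)⟩], false⟩, []⟩
def f18 : Fc := ⟨false, st0, [], ⟨(nat_lit 14400), [], [⟨(nb (nat_lit 2) (nat_lit 448) (nat_lit 0)), (nb (nat_lit 2) (nat_lit 1344) (nat_lit 1)), (nat_lit 5), (nat_lit 15)⟩], false⟩, []⟩
def f19 : Fc := ⟨false, st0, [], ⟨(nat_lit 576), [], [⟨(nb (nat_lit 2) (nat_lit 448) (nb (nat_lit 1) (nat_lit 64) (nat_lit 0))), (nat_lit 0), (nat_lit 3), (nat_lit 6)⟩], false⟩, []⟩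
def f20 : Fc := ⟨false, st0, [], ⟨(nat_lit 14400), [], [⟨(nb (nat_lit 7) (nat_lit 448) (nat_lit 0)), (nb (nat_lit 0x50000000000000008) (nat_lit 1344) (nat_lit 0x30000000000000009)), (nat_lit 32), (nat_lit 30)⟩], false⟩, []⟩
def f21 : Fc := ⟨true, ⟨[[e0, e1, e2, e3], [e4, e5, e6], [e7, e8, e9]], [], [], (nat_lit 10), (nat_lit 0x3f03ffff), (nat_lit 0), (nat_lit 10), (nat_lit 4)⟩, [], ⟨(nat_lit 64), [], [], true⟩, []⟩
def f22 : Fc := ⟨true, ⟨[[e10, e11, e12, e3], [e4, e5, e6], [e7, e8, e9]], [], [], (nat_lit 10), (nat_lit 0x3ffc0fff), (nat_lit 0), (nat_lit 10), (nat_lit 4)⟩, [], ⟨(nat_lit 64), [], [], true⟩, []⟩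
def f23 : Fc := ⟨true, ⟨[[e0, e1, e2, e13], [e4, e5, e6], [e7, e8, e9]], [], [], (nat_lit 10), (nat_lit 0xfc003ffff), (nat_lit 0), (nat_lit 10), (nat_lit 4)⟩, [], ⟨(nat_lit 64), [], [], true⟩, []⟩
def f24 : Fc := ⟨true, ⟨[[e10, e11, e12, e13], [e4, e5, e6], [e7, e8, e9]], [], [], (nat_lit 10), (nat_lit 0xfc0fc0fff), (nat_lit 0), (nat_lit 10), (nat_lit 4)⟩, [], ⟨(nat_lit 64), [], [], true⟩, []⟩
def f25 : Fc := ⟨true, ⟨[[e3, e13], [e4, e5, e6], [e7, e8, e9]], [], [], (nat_lit 8), (nat_lit 0xfff000fff), (nat_lit 0), (nat_lit 12), (nat_lit 4)⟩, [], ⟨(nat_lit 64), [], [], true⟩, []⟩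
def f26 : Fc := ⟨true, ⟨[[e10, e11, e12, e3, e13], [e4, e5, e6], [e7, e8, e9]], [], [], (nat_lit 11), (nat_lit 0xffffc0fff), (nat_lit 0), (nat_lit 9), (nat_lit 4)⟩, [], ⟨(nat_lit 64), [], [], true⟩, [⟨[(nat_lit 1), (nat_lit 16), (nat_lit 17), (nat_lit 18), (nat_lit 256), (nat_lit 257), (nat_lit 272), (nat_lit 273), (nat_lit 273), (nat_lit 274), (nat_lit 288), (nat_lit 289), (nat_lit 290), (nat_lit 291), (nat_lit 513), (nat_lit 529), (nat_lit 530), (nat_lit 545), (nat_lit 561), (nat_lit 786)], [(nat_lit 1), (nb (nat_lit 1) (nat_lit 896) (nat_lit 2)), (nat_lit 0)], (nat_lit 1), (nat_lit 0)⟩]⟩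
def f27 : Fc := ⟨true, ⟨[[e4, e5, e6], [e7, e8, e9]], [e13], [], (nat_lit 7), (nat_lit 0xfc0000fff), (nat_lit 0), (nat_lit 13), (nat_lit 3)⟩, [⟨(nat_lit 273), (nat_lit 2)⟩, ⟨(nat_lit 33), (nat_lit 0)⟩, ⟨(nat_lit 18), (nat_lit 0)⟩], ⟨(nat_lit 64), [], [], true⟩, [⟨[(nat_lit 1), (nat_lit 16), (nat_lit 17), (nat_lit 18), (nat_lit 256), (nat_lit 257), (nat_lit 272), (nat_lit 273), (nat_lit 273), (nat_lit 274), (nat_lit 288), (nat_lit 289), (nat_lit 290), (nat_lit 291), (nat_lit 513), (nat_lit 529), (nat_lit 530), (nat_lit 545), (nat_lit 561), (nat_lit 786)], [(nat_lit 1), (nb (nat_lit 1) (nat_lit 896) (nat_lit 2)), (nat_lit 0)], (nat_lit 1), (nat_lit 0)⟩, ⟨[(nat_lit 1), (nat_lit 16), (nat_lit 17), (nat_lit 33), (nat_lit 256), (nat_lit 257), (nat_lit 258), (nat_lit 272), (nat_lit 273), (nat_lit 273), (nat_lit 274), (nat_lit 289), (nat_lit 290), (nat_lit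 306), (nat_lit 528), (nat_lit 529), (nat_lit 530), (nat_lit 531), (nat_lit 545), (nat_lit 801)], [(nat_lit 1), (nb (nat_lit 1) (nat_lit 896) (nat_lit 2)), (nat_lit 0)], (nat_lit 1), (nat_lit 0)⟩]⟩
def f28 : Fc := ⟨true, ⟨[[e4, e5, e6], [e7, e8, e9]], [], [], (nat_lit 6), (nat_lit 4095), (nat_lit 0), (nat_lit 14), (nat_lit 3)⟩, [⟨(nat_lit 273), (nat_lit 1)⟩, ⟨(nat_lit 33), (nat_lit 0)⟩, ⟨(nat_lit 18), (nat_lit 0)⟩, ⟨(nat_lit 273), (nat_lit 2)⟩], ⟨(nat_lit 64), [], [], true⟩, [⟨[(nat_lit 1), (nat_lit 16), (nat_lit 17), (nat_lit 33), (nat_lit 256), (nat_lit 257), (nat_lit 258), (nat_lit 272), (nat_lit 273), (nat_lit 273), (nat_lit 274), (nat_lit 289), (nat_lit 290), (nat_lit 306), (nat_lit 528), (nat_lit 529), (nat_lit 530), (nat_lit 531), (nat_lit 545), (nat_lit 801)], [(nat_lit 1), (nb (nat_lit 1) (nat_lit 896) (nat_lit 2)), (nat_lit 0)], (nat_lit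 1), (nat_lit 0)⟩, ⟨[(nat_lit 1), (nat_lit 16), (nat_lit 17), (nat_lit 18), (nat_lit 256), (nat_lit 257), (nat_lit 272), (nat_lit 273), (nat_lit 273), (nat_lit 274), (nat_lit 288), (nat_lit 289), (nat_lit 290), (nat_lit 291), (nat_lit 513), (nat_lit 529), (nat_lit 530), (nat_lit 545), (nat_lit 561), (nat_lit 786)], [(nat_lit 1), (nb (nat_lit 1) (nat_lit 896) (nat_lit 2)), (nat_lit 0)], (nat_lit 1), (nat_lit 0)⟩]⟩
def f29 : Fc := ⟨true, ⟨[[e4, e5, e6], [e7, e8, e9]], [], [], (nat_lit 6), (nat_lit 4095), (nat_lit 0), (nat_lit 14), (nat_lit 3)⟩, [], ⟨(nat_lit 64), [], [], true⟩, [⟨[(nat_lit 1), (nat_lit 16), (nat_lit 17), (nat_lit 18), (nat_lit 256), (nat_lit 257), (nat_lit 272), (nat_lit 273), (nat_lit 273), (nat_lit 274), (nat_lit 288), (nat_lit 289), (nat_lit 290), (nat_lit 291), (nat_lit 513), (nat_lit 529), (nat_lit 530), (nat_lit 545), (nat_lit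 561), (nat_lit 786)], [(nat_lit 1), (nb (nat_lit 1) (nat_lit 896) (nat_lit 2)), (nat_lit 0)], (nat_lit 1), (nat_lit 0)⟩, ⟨[(nat_lit 1), (nat_lit 16), (nat_lit 17), (nat_lit 33), (nat_lit 256), (nat_lit 257), (nat_lit 258), (nat_lit 272), (nat_lit 273), (nat_lit 273), (nat_lit 274), (nat_lit 289), (nat_lit 290), (nat_lit 306), (nat_lit 528), (nat_lit 529), (nat_lit 530), (nat_lit 531), (nat_lit 545), (nat_lit 801)], [(nat_lit 1), (nb (nat_lit 1) (nat_lit 896) (nat_lit 2)), (nat_lit 0)], (nat_lit 1), (nat_lit 0)⟩]⟩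
def f30 : Fc := ⟨true, ⟨[[e7, e8, e9]], [], [], (nat_lit 3), (nat_lit 63), (nat_lit 0), (nat_lit 17), (nat_lit 2)⟩, [], ⟨(nat_lit 64), [], [], true⟩, [⟨[(nat_lit 1), (nat_lit 16), (nat_lit 17), (nat_lit 33), (nat_lit 256), (nat_lit 257), (nat_lit 258), (nat_lit 272), (nat_lit 273), (nat_lit 273), (nat_lit 274), (nat_lit 289), (nat_lit 290), (nat_lit 306), (nat_lit 528), (nat_lit 529), (nat_lit 530), (nat_lit 531), (nat_lit 545), (nat_lit 801)], [(nat_lit 1), (nb (nat_lit 1) (nat_lit 896) (nat_lit 2)), (nat_lit 0)], (nat_lit 1), (nat_lit 0)⟩, ⟨[(nat_lit 1), (nat_lit 16), (nat_lit 17), (nat_lit 18), (nat_lit 256), (nat_lit 257), (nat_lit 272), (nat_lit 273), (nat_lit 273), (nat_lit 274), (nat_lit 288), (nat_lit 289), (nat_lit 290), (nat_lit 291), (nat_lit 513), (nat_lit 529), (nat_lit 530), (nat_lit 545), (nat_lit 561), (nat_lit 786)], [(nat_lit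 1), (nb (nat_lit 1) (nat_lit 896) (nat_lit 2)), (nat_lit 0)], (nat_lit 1), (nat_lit 0)⟩]⟩
def f31 : Fc := ⟨true, ⟨[[e4, e5, e6], [e7, e8, e9]], [], [], (nat_lit 6), (nat_lit 4095), (nat_lit 1), (nat_lit 8), (nat_lit 3)⟩, [], ⟨(nat_lit 64), [], [], true⟩, []⟩
def f32 : Fc := ⟨true, ⟨[[e7, e8, e9]], [], [], (nat_lit 3), (nat_lit 63), (nat_lit 1), (nat_lit 14), (nat_lit 2)⟩, [], ⟨(nat_lit 64), [], [], true⟩, []⟩
def f33 : Fc := ⟨true, ⟨[[e7, e8, e9]], [], [], (nat_lit 3), (nat_lit 63), (nat_lit 2), (nat_lit 11), (nat_lit 2)⟩, [], ⟨(nat_lit 64), [], [], true⟩, []⟩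
def f34 : Fc := ⟨true, ⟨[], [], [], (nat_lit 0), (nat_lit 0), (nat_lit 20), (nat_lit 20), (nat_lit 1)⟩, [], ⟨(nat_lit 64), [], [], true⟩, [⟨[(nat_lit 1), (nat_lit 16), (nat_lit 17), (nat_lit 18), (nat_lit 256), (nat_lit 257), (nat_lit 272), (nat_lit 273), (nat_lit 273), (nat_lit 274), (nat_lit 288), (nat_lit 289), (nat_lit 290), (nat_lit 291), (nat_lit 513), (nat_lit 529), (nat_lit 530), (nat_lit 545), (nat_lit 561), (nat_lit 786)], [(nat_lit 1), (nb (nat_lit 1) (nat_lit 896) (nat_lit 2)), (nat_lit 0)], (nat_lit 1), (nat_lit 0)⟩, ⟨[(nat_lit 1), (nat_lit 16), (nat_lit 17), (nat_lit 33), (nat_lit 256), (nat_lit 257), (nat_lit 258), (nat_lit 272), (nat_lit 273), (nat_lit 273), (nat_lit 274), (nat_lit 289), (nat_lit 290), (nat_lit 306), (nat_lit 528), (nat_lit 529), (nat_lit 530), (nat_lit 531), (nat_lit 545), (nat_lit 801)], [(nat_lit 1), (nb (nat_lit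 1) (nat_lit 896) (nat_lit 2)), (nat_lit 0)], (nat_lit 1), (nat_lit 0)⟩]⟩
def r0 : List Fc := [f0, f1, f2, f3, f4, f5, f6, f7, f8, f9, f10, f11, f12, f13, f14, f15, f16, f17, f18, f19, f20, f21, f22, f23, f24, f25, f26, f27, f28, f29, f30, f31, f32, f33, f34]
/-- All facts. -/
def ft : List (List Fc) := [r0]

end

end Pool.Agent.P.MP_8598be_al.Ck.D3
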