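import Pool.Agent.P.MP_8598be_al.Ck.Chk

/-!
Parameters and facts.
-/

namespace Pool.Agent.P.MP_8598be_al.Ck.D4

noncomputable section

/-- The parameters. -/
def par : Par := ⟨(nat_lit 4), (nat_lit 3), (nat_lit 16), (nat_lit 64), (nat_lit 0xffffffffffffffff), (nat_lit 0x20202040408), (nat_lit 0x2000000010000000080000000200000000800000001), (nat_lit 0x19c66380), (nat_lit 4096), (nat_lit 4096), (nat_lit 256), (nat_lit 1), (nat_lit 0), ⟨(nat_lit 0x100000000000000010000000000000001), (nat_lit 0), (nat_lit 3), (nat_lit 4)⟩⟩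

def e0 : En := ⟨(nat_lit 48), (nat_lit 33), (nat_lit 1), (nat_lit 1), [⟨(nat_lit 2), (nat_lit 6), (nat_lit 1), (nat_lit 0)⟩]⟩
def e1 : En := ⟨(nat_lit 50), (nat_lit 258), (nat_lit 1), (nat_lit 1), [⟨(nat_lit 4), (nat_lit 8), (nat_lit 1), (nat_lit 0)⟩]⟩
def e2 : En := ⟨(nat_lit 52), (nat_lit 528), (nat_lit 1), (nat_lit 1), [⟨(nat_lit 0), (nat_lit 10), (nat_lit 1), (nat_lit 0)⟩]⟩
def e3 : En := ⟨(nat_lit 6), (nat_lit 17), (nat_lit 1), (nat_lit 1), [⟨(nat_lit 2), (nat_lit 4), (nat_lit 1), (nat_lit 0)⟩]⟩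
def e4 : En := ⟨(nat_lit 8), (nat_lit 257), (nat_lit 1), (nat_lit 1), [⟨(nat_lit 0), (nat_lit 4), (nat_lit 0), (nat_lit 1)⟩]⟩
def e5 : En := ⟨(nat_lit 10), (nat_lit 272), (nat_lit 1), (nat_lit 1), [⟨(nat_lit 0), (nat_lit 2), (nat_lit 1), (nat_lit 0)⟩]⟩
def e6 : En := ⟨(nat_lit 0), (nat_lit 256), (nat_lit 0), (nat_lit 1), []⟩
def e7 : En := ⟨(nat_lit 2), (nat_lit 16), (nat_lit 0), (nat_lit 1), []⟩
def e8 : En := ⟨(nat_lit 4), (nat_lit 1), (nat_lit 0), (nat_lit 1), []⟩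
def e9 : En := ⟨(nat_lit 48), (nat_lit 18), (nat_lit 1), (nat_lit 1), [⟨(nat_lit 4), (nat_lit 6), (nat_lit 1), (nat_lit 0)⟩]⟩
def e10 : En := ⟨(nat_lit 50), (nat_lit 513), (nat_lit 1), (nat_lit 1), [⟨(nat_lit 0), (nat_lit 8), (nat_lit 1), (nat_lit 0)⟩]⟩
def e11 : En := ⟨(nat_lit 52), (nat_lit 288), (nat_lit 1), (nat_lit 1), [⟨(nat_lit 2), (nat_lit 10), (nat_lit 1), (nat_lit 0)⟩]⟩
def e12 : En := ⟨(nat_lit 53), (nat_lit 273), (nat_lit 4), (nat_lit 2), [⟨(nat_lit 0), (nat_lit 6), (nat_lit 1), (nat_lit 0)⟩, ⟨(nat_lit 2), (nat_lit 8), (nat_lit 0x10000000000000000), (nat_lit 0)⟩, ⟨(nat_lit 4), (nat_lit 10), (nat_lit 0), (nat_lit 0x10000000000000001)⟩]⟩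
def e13 : En := ⟨(nat_lit 54), (nat_lit 33), (nat_lit 1), (nat_lit 1), [⟨(nat_lit 2), (nat_lit 6), (nat_lit 1), (nat_lit 0)⟩]⟩
def e14 : En := ⟨(nat_lit 56), (nat_lit 258), (nat_lit 1), (nat_lit 1), [⟨(nat_lit 4), (nat_lit 8), (nat_lit 1), (nat_lit 0)⟩]⟩
def e15 : En := ⟨(nat_lit 58), (nat_lit 528), (nat_lit 1), (nat_lit 1), [⟨(nat_lit 0), (nat_lit 10), (nat_lit 1), (nat_lit 0)⟩]⟩
def e16 : En := ⟨(nat_lit 54), (nat_lit 18), (nat_lit 1), (nat_lit 1), [⟨(nat_lit 4), (nat_lit 6), (nat_lit 1), (nat_lit 0)⟩]⟩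
def e17 : En := ⟨(nat_lit 56), (nat_lit 513), (nat_lit 1), (nat_lit 1), [⟨(nat_lit 0), (nat_lit 8), (nat_lit 1), (nat_lit 0)⟩]⟩
def e18 : En := ⟨(nat_lit 58), (nat_lit 288), (nat_lit 1), (nat_lit 1), [⟨(nat_lit 2), (nat_lit 10), (nat_lit 1), (nat_lit 0)⟩]⟩
def e19 : En := ⟨(nat_lit 60), (nat_lit 33), (nat_lit 1), (nat_lit 1), [⟨(nat_lit 2), (nat_lit 6), (nat_lit 1), (nat_lit 0)⟩]⟩
def e20 : En := ⟨(nat_lit 62), (nat_lit 258), (nat_lit 1), (nat_lit 1), [⟨(nat_lit 4), (nat_lit 8), (nat_lit 1), (nat_lit 0)⟩]⟩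
def e21 : En := ⟨(nat_lit 64), (nat_lit 528), (nat_lit 1), (nat_lit 1), [⟨(nat_lit 0), (nat_lit 10), (nat_lit 1), (nat_lit 0)⟩]⟩
def e22 : En := ⟨(nat_lit 51), (nat_lit 273), (nat_lit 4), (nat_lit 2), [⟨(nat_lit 0), (nat_lit 6), (nat_lit 1), (nat_lit 0)⟩, ⟨(nat_lit 2), (nat_lit 8), (nat_lit 0), (nat_lit 0x10000000000000001)⟩, ⟨(nat_lit 4), (nat_lit 10), (nat_lit 0x10000000000000000), (nat_lit 0)⟩]⟩
def e23 : En := ⟨(nat_lit 59), (nat_lit 273), (nat_lit 4), (nat_lit 2), [⟨(nat_lit 0), (nat_lit 6), (nat_lit 1), (nat_lit 0)⟩, ⟨(nat_lit 2), (nat_lit 8), (nat_lit 0x10000000000000000), (nat_lit 0)⟩, ⟨(nat_lit 4), (nat_lit 10), (nat_lit 0), (nat_lit 0x10000000000000001)⟩]⟩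
def e24 : En := ⟨(nat_lit 66), (nat_lit 274), (nat_lit 9), (nat_lit 6), [⟨(nat_lit 2), (nat_lit 62), (nb (nat_lit 1) (nat_lit 576) (nat_lit 0x10000000000000002)), (nb (nat_lit 1) (nat_lit 512) (nat_lit 0))⟩, ⟨(nat_lit 4), (nat_lit 51), (nat_lit 0), (nat_lit 1)⟩, ⟨(nat_lit 4), (nat_lit 59), (nb (nat_lit 1) (nat_lit 512) (nat_lit 0)), (nat_lit 0)⟩, ⟨(nat_lit 6), (nat_lit 8), (nat_lit 1), (nb (nat_lit 1) (nat_lit 512) (nat_lit 0))⟩]⟩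
def e25 : En := ⟨(nat_lit 68), (nat_lit 529), (nat_lit 9), (nat_lit 24), [⟨(nat_lit 0), (nat_lit 51), (nat_lit 0), (nat_lit 0x10000000000000000)⟩, ⟨(nat_lit 0), (nat_lit 59), (nb (nat_lit 1) (nat_lit 640) (nat_lit 0)), (nat_lit 0)⟩, ⟨(nat_lit 4), (nat_lit 64), (nb (nat_lit 1) (nat_lit 576) (nat_lit 0x10000000000000002)), (nb (nat_lit 1) (nat_lit 512) (nat_lit 0))⟩, ⟨(nat_lit 8), (nat_lit 10), (nat_lit 1), (nb (nat_lit 1) (nat_lit 512) (nat_lit 0))⟩]⟩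
def e26 : En := ⟨(nat_lit 70), (nat_lit 289), (nat_lit 9), (nat_lit 24), [⟨(nat_lit 0), (nat_lit 60), (nb (nat_lit 1) (nat_lit 576) (nat_lit 0x10000000000000002)), (nb (nat_lit 1) (nat_lit 512) (nat_lit 0))⟩, ⟨(nat_lit 2), (nat_lit 51), (nat_lit 0), (nat_lit 0x100000000000000000000000000000000)⟩, ⟨(nat_lit 2), (nat_lit 59), (nb (nat_lit 1) (nat_lit 576) (nat_lit 0)), (nat_lit 0)⟩, ⟨(nat_lit 6), (nat_lit 10), (nb (nat_lit 1) (nat_lit 512) (nat_lit 0)), (nat_lit 1)⟩]⟩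
def e27 : En := ⟨(nat_lit 66), (nat_lit 274), (nat_lit 10), (nat_lit 6), [⟨(nat_lit 0), (nat_lit 60), (nb (nat_lit 1) (nat_lit 576) (nat_lit 0x10000000000000002)), (nb (nat_lit 1) (nat_lit 512) (nat_lit 0))⟩, ⟨(nat_lit 4), (nat_lit 51), (nat_lit 1), (nat_lit 0)⟩, ⟨(nat_lit 4), (nat_lit 59), (nat_lit 0), (nb (nat_lit 1) (nat_lit 512) (nat_lit 0))⟩, ⟨(nat_lit 6), (nat_lit 8), (nb (nat_lit 1) (nat_lit 576) (nat_lit 0x10000000000000001)), (nat_lit 0)⟩]⟩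
def e28 : En := ⟨(nat_lit 68), (nat_lit 529), (nat_lit 10), (nat_lit 24), [⟨(nat_lit 0), (nat_lit 51), (nat_lit 0x10000000000000000), (nat_lit 0)⟩, ⟨(nat_lit 0), (nat_lit 59), (nat_lit 0), (nb (nat_lit 1) (nat_lit 640) (nat_lit 0))⟩, ⟨(nat_lit 2), (nat_lit 62), (nb (nat_lit 1) (nat_lit 576) (nat_lit 0x10000000000000002)), (nb (nat_lit 1) (nat_lit 512) (nat_lit 0))⟩, ⟨(nat_lit 8), (nat_lit 10), (nb (nat_lit 1) (nat_lit 576) (nat_lit 0x10000000000000001)), (nat_lit 0)⟩]⟩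
def e29 : En := ⟨(nat_lit 70), (nat_lit 289), (nat_lit 10), (nat_lit 24), [⟨(nat_lit 2), (nat_lit 51), (nat_lit 0x100000000000000000000000000000000), (nat_lit 0)⟩, ⟨(nat_lit 2), (nat_lit 59), (nat_lit 0), (nb (nat_lit 1) (nat_lit 576) (nat_lit 0))⟩, ⟨(nat_lit 4), (nat_lit 64), (nb (nat_lit 1) (nat_lit 576) (nat_lit 0x10000000000000002)), (nb (nat_lit 1) (nat_lit 512) (nat_lit 0))⟩, ⟨(nat_lit 6), (nat_lit 10), (nat_lit 0), (nb (nat_lit 1) (nat_lit 576) (nat_lit 0x10000000000000001))⟩]⟩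
def e30 : En := ⟨(nat_lit 60), (nat_lit 18), (nat_lit 1), (nat_lit 1), [⟨(nat_lit 4), (nat_lit 6), (nat_lit 1), (nat_lit 0)⟩]⟩
def e31 : En := ⟨(nat_lit 62), (nat_lit 513), (nat_lit 1), (nat_lit 1), [⟨(nat_lit 0), (nat_lit 8), (nat_lit 1), (nat_lit 0)⟩]⟩
def e32 : En := ⟨(nat_lit 64), (nat_lit 288), (nat_lit 1), (nat_lit 1), [⟨(nat_lit 2), (nat_lit 10), (nat_lit 1), (nat_lit 0)⟩]⟩
def e33 : En := ⟨(nat_lit 72), (nat_lit 274), (nat_lit 12), (nat_lit 30), [⟨(nat_lit 0), (nat_lit 60), (nat_lit 1), (nat_lit 0)⟩, ⟨(nat_lit 2), (nat_lit 68), (nb (nat_lit 1) (nat_lit 2112) (nb (nat_lit 0x10000000000000002) (nat_lit 512) (nat_lit 1))), (nb (nat_lit 1) (nat_lit 2048) (nat_lit 0))⟩, ⟨(nat_lit 4), (nat_lit 51), (nat_lit 0), (nb (nat_lit 1) (nat_lit 512) (nat_lit 0))⟩, ⟨(nat_lit 4), (nat_lit 59), (nb (nat_lit 1) (nat_lit 2048) (nat_lit 0)),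 (nat_lit 0)⟩, ⟨(nat_lit 6), (nat_lit 8), (nb (nat_lit 1) (nat_lit 512) (nat_lit 1)), (nb (nat_lit 1) (nat_lit 2048) (nat_lit 0))⟩]⟩
def e34 : En := ⟨(nat_lit 74), (nat_lit 529), (nat_lit 12), (nat_lit 120), [⟨(nat_lit 0), (nat_lit 51), (nat_lit 0), (nb (nat_lit 1) (nat_lit 576) (nat_lit 0))⟩, ⟨(nat_lit 0), (nat_lit 59), (nb (nat_lit 1) (nat_lit 2176) (nat_lit 0)), (nat_lit 0)⟩, ⟨(nat_lit 2), (nat_lit 62), (nat_lit 1), (nat_lit 0)⟩, ⟨(nat_lit 4), (nat_lit 70), (nb (nat_lit 1) (nat_lit 2112) (nb (nat_lit 0x10000000000000002) (nat_lit 512) (nat_lit 1))), (nb (nat_lit 1) (nat_lit 2048) (nat_lit 0))⟩, ⟨(nat_lit 8), (nat_lit 10), (nb (nat_lit 1) (nat_lit 512) (nat_lit 1)), (nb (nat_lit 1) (nat_lit 2048) (nat_lit 0))⟩]⟩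
def e35 : En := ⟨(nat_lit 76), (nat_lit 289), (nat_lit 12), (nat_lit 120), [⟨(nat_lit 0), (nat_lit 66), (nb (nat_lit 1) (nat_lit 2112) (nb (nat_lit 0x10000000000000002) (nat_lit 512) (nat_lit 1))), (nb (nat_lit 1) (nat_lit 2048) (nat_lit 0))⟩, ⟨(nat_lit 2), (nat_lit 51), (nat_lit 0), (nb (nat_lit 1) (nat_lit 640) (nat_lit 0))⟩, ⟨(nat_lit 2), (nat_lit 59), (nb (nat_lit 1) (nat_lit 2112) (nat_lit 0)), (nat_lit 0)⟩, ⟨(nat_lit 4), (nat_lit 64), (nat_lit 1), (nat_lit 0)⟩, ⟨(nat_lit 6), (nat_lit 10), (nb (nat_lit 1) (nat_lit 2048) (nat_lit 0)), (nb (nat_lit 1) (nat_lit 512) (nat_lit 1))⟩]⟩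
def e36 : En := ⟨(nat_lit 66), (nat_lit 33), (nat_lit 1), (nat_lit 1), [⟨(nat_lit 2), (nat_lit 6), (nat_lit 1), (nat_lit 0)⟩]⟩
def e37 : En := ⟨(nat_lit 68), (nat_lit 258), (nat_lit 1), (nat_lit 1), [⟨(nat_lit 4), (nat_lit 8), (nat_lit 1), (nat_lit 0)⟩]⟩
def e38 : En := ⟨(nat_lit 70), (nat_lit 528), (nat_lit 1), (nat_lit 1), [⟨(nat_lit 0), (nat_lit 10), (nat_lit 1), (nat_lit 0)⟩]⟩
def e39 : En := ⟨(nat_lit 48), (nat_lit 8193), (nat_lit 1), (nat_lit 1), [⟨(nat_lit 13), (nat_lit 18), (nat_lit 1), (nat_lit 0)⟩]⟩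
def e40 : En := ⟨(nat_lit 50), (nat_lit 8448), (nat_lit 1), (nat_lit 1), [⟨(nat_lit 13), (nat_lit 20), (nat_lit 1), (nat_lit 0)⟩]⟩
def e41 : En := ⟨(nat_lit 52), (nat_lit 8208), (nat_lit 1), (nat_lit 1), [⟨(nat_lit 13), (nat_lit 22), (nat_lit 1), (nat_lit 0)⟩]⟩
def e42 : En := ⟨(nat_lit 18), (nat_lit 4097), (nat_lit 1), (nat_lit 1), [⟨(nat_lit 4), (nat_lit 13), (nat_lit 1), (nat_lit 0)⟩]⟩
def e43 : En := ⟨(nat_lit 20), (nat_lit 4352), (nat_lit 1), (nat_lit 1), [⟨(nat_lit 0), (nat_lit 13), (nat_lit 1), (nat_lit 0)⟩]⟩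
def e44 : En := ⟨(nat_lit 22), (nat_lit 4112), (nat_lit 1), (nat_lit 1), [⟨(nat_lit 2), (nat_lit 13), (nat_lit 1), (nat_lit 0)⟩]⟩
def e45 : En := ⟨(nat_lit 13), (nat_lit 4096), (nat_lit 0), (nat_lit 1), []⟩
def e46 : En := ⟨(nat_lit 48), (nat_lit 4113), (nat_lit 2), (nat_lit 1), [⟨(nat_lit 2), (nat_lit 18), (nat_lit 1), (nat_lit 0)⟩, ⟨(nat_lit 4), (nat_lit 22), (nat_lit 1), (nat_lit 0)⟩]⟩
def e47 : En := ⟨(nat_lit 50), (nat_lit 4353), (nat_lit 2), (nat_lit 1), [⟨(nat_lit 0), (nat_lit 18), (nat_lit 1), (nat_lit 0)⟩, ⟨(nat_lit 4), (nat_lit 20), (nat_lit 1), (nat_lit 0)⟩]⟩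
def e48 : En := ⟨(nat_lit 52), (nat_lit 4368), (nat_lit 2), (nat_lit 1), [⟨(nat_lit 0), (nat_lit 22), (nat_lit 1), (nat_lit 0)⟩, ⟨(nat_lit 2), (nat_lit 20), (nat_lit 1), (nat_lit 0)⟩]⟩
def e49 : En := ⟨(nat_lit 60), (nat_lit 8209), (nat_lit 7), (nat_lit 3), [⟨(nat_lit 2), (nat_lit 54), (nat_lit 1), (nat_lit 0)⟩, ⟨(nat_lit 4), (nat_lit 58), (nb (nat_lit 2) (nat_lit 512) (nat_lit 0)), (nat_lit 1)⟩, ⟨(nat_lit 13), (nat_lit 48), (nb (nat_lit 1) (nat_lit 512) (nat_lit 0)), (nat_lit 0)⟩, ⟨(nat_lit 18), (nat_lit 22), (nb (nat_lit 1) (nat_lit 512) (nat_lit 0)), (nat_lit 1)⟩]⟩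
def e50 : En := ⟨(nat_lit 62), (nat_lit 8449), (nat_lit 7), (nat_lit 3), [⟨(nat_lit 0), (nat_lit 54), (nb (nat_lit 2) (nat_lit 512) (nat_lit 0)), (nat_lit 1)⟩, ⟨(nat_lit 4), (nat_lit 56), (nat_lit 1), (nat_lit 0)⟩, ⟨(nat_lit 13), (nat_lit 50), (nb (nat_lit 1) (nat_lit 512) (nat_lit 0)), (nat_lit 0)⟩, ⟨(nat_lit 18), (nat_lit 20), (nat_lit 1), (nb (nat_lit 1) (nat_lit 512) (nat_lit 0))⟩]⟩
def e51 : En := ⟨(nat_lit 64), (nat_lit 8464), (nat_lit 7), (nat_lit 3), [⟨(nat_lit 0), (nat_lit 58), (nat_lit 1), (nat_lit 0)⟩, ⟨(nat_lit 2), (nat_lit 56), (nb (nat_lit 2) (nat_lit 512) (nat_lit 0)), (nat_lit 1)⟩, ⟨(nat_lit 13), (nat_lit 52), (nb (nat_lit 1) (nat_lit 512) (nat_lit 0)), (nat_lit 0)⟩, ⟨(nat_lit 20), (nat_lit 22), (nat_lit 1), (nb (nat_lit 1) (nat_lit 512) (nat_lit 0))⟩]⟩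
def e52 : En := ⟨(nat_lit 54), (nat_lit 8193), (nat_lit 1), (nat_lit 1), [⟨(nat_lit 13), (nat_lit 18), (nat_lit 1), (nat_lit 0)⟩]⟩
def e53 : En := ⟨(nat_lit 56), (nat_lit 8448), (nat_lit 1), (nat_lit 1), [⟨(nat_lit 13), (nat_lit 20), (nat_lit 1), (nat_lit 0)⟩]⟩
def e54 : En := ⟨(nat_lit 58), (nat_lit 8208), (nat_lit 1), (nat_lit 1), [⟨(nat_lit 13), (nat_lit 22), (nat_lit 1), (nat_lit 0)⟩]⟩
def e55 : En := ⟨(nat_lit 61), (nat_lit 4369), (nat_lit 3), (nat_lit 1), [⟨(nat_lit 0), (nat_lit 48), (nat_lit 1), (nat_lit 0)⟩, ⟨(nat_lit 2), (nat_lit 50), (nat_lit 1), (nat_lit 0)⟩, ⟨(nat_lit 4), (nat_lit 52), (nat_lit 1), (nat_lit 0)⟩]⟩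
def e56 : En := ⟨(nat_lit 66), (nat_lit 8209), (nat_lit 7), (nat_lit 3), [⟨(nat_lit 2), (nat_lit 54), (nat_lit 1), (nat_lit 0)⟩, ⟨(nat_lit 4), (nat_lit 58), (nb (nat_lit 2) (nat_lit 512) (nat_lit 0)), (nat_lit 1)⟩, ⟨(nat_lit 13), (nat_lit 48), (nb (nat_lit 1) (nat_lit 512) (nat_lit 0)), (nat_lit 0)⟩, ⟨(nat_lit 18), (nat_lit 22), (nb (nat_lit 1) (nat_lit 512) (nat_lit 0)), (nat_lit 1)⟩]⟩
def e57 : En := ⟨(nat_lit 68), (nat_lit 8449), (nat_lit 7), (nat_lit 3), [⟨(nat_lit 0), (nat_lit 54), (nb (nat_lit 2) (nat_lit 512) (nat_lit 0)), (nat_lit 1)⟩, ⟨(nat_lit 4), (nat_lit 56), (nat_lit 1), (nat_lit 0)⟩, ⟨(nat_lit 13), (nat_lit 50), (nb (nat_lit 1) (nat_lit 512) (nat_lit 0)), (nat_lit 0)⟩, ⟨(nat_lit 18), (nat_lit 20), (nat_lit 1), (nb (nat_lit 1) (nat_lit 512) (nat_lit 0))⟩]⟩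
def e58 : En := ⟨(nat_lit 70), (nat_lit 8464), (nat_lit 7), (nat_lit 3), [⟨(nat_lit 0), (nat_lit 58), (nat_lit 1), (nat_lit 0)⟩, ⟨(nat_lit 2), (nat_lit 56), (nb (nat_lit 2) (nat_lit 512) (nat_lit 0)), (nat_lit 1)⟩, ⟨(nat_lit 13), (nat_lit 52), (nb (nat_lit 1) (nat_lit 512) (nat_lit 0)), (nat_lit 0)⟩, ⟨(nat_lit 20), (nat_lit 22), (nat_lit 1), (nb (nat_lit 1) (nat_lit 512) (nat_lit 0))⟩]⟩
def e59 : En := ⟨(nat_lit 48), (nat_lit 4098), (nat_lit 1), (nat_lit 1), [⟨(nat_lit 4), (nat_lit 18), (nat_lit 1), (nat_lit 0)⟩]⟩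
def e60 : En := ⟨(nat_lit 50), (nat_lit 4608), (nat_lit 1), (nat_lit 1), [⟨(nat_lit 0), (nat_lit 20), (nat_lit 1), (nat_lit 0)⟩]⟩
def e61 : En := ⟨(nat_lit 52), (nat_lit 4128), (nat_lit 1), (nat_lit 1), [⟨(nat_lit 2), (nat_lit 22), (nat_lit 1), (nat_lit 0)⟩]⟩
def e62 : En := ⟨(nat_lit 58), (nat_lit 4368), (nat_lit 2), (nat_lit 1), [⟨(nat_lit 0), (nat_lit 22), (nat_lit 1), (nat_lit 0)⟩, ⟨(nat_lit 2), (nat_lit 20), (nat_lit 1), (nat_lit 0)⟩]⟩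
def e63 : En := ⟨(nat_lit 56), (nat_lit 4353), (nat_lit 2), (nat_lit 1), [⟨(nat_lit 0), (nat_lit 18), (nat_lit 1), (nat_lit 0)⟩, ⟨(nat_lit 4), (nat_lit 20), (nat_lit 1), (nat_lit 0)⟩]⟩
def e64 : En := ⟨(nat_lit 54), (nat_lit 4113), (nat_lit 2), (nat_lit 1), [⟨(nat_lit 2), (nat_lit 18), (nat_lit 1), (nat_lit 0)⟩, ⟨(nat_lit 4), (nat_lit 22), (nat_lit 1), (nat_lit 0)⟩]⟩
def e65 : En := ⟨(nat_lit 52), (nat_lit 4368), (nat_lit 2), (nat_lit 1), [⟨(nat_lit 2), (nat_lit 20), (nat_lit 1), (nat_lit 0)⟩, ⟨(nat_lit 10), (nat_lit 13), (nat_lit 0), (nat_lit 1)⟩]⟩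
def e66 : En := ⟨(nat_lit 50), (nat_lit 4353), (nat_lit 2), (nat_lit 1), [⟨(nat_lit 0), (nat_lit 18), (nat_lit 1), (nat_lit 0)⟩, ⟨(nat_lit 8), (nat_lit 13), (nat_lit 0), (nat_lit 1)⟩]⟩
def e67 : En := ⟨(nat_lit 48), (nat_lit 4113), (nat_lit 2), (nat_lit 1), [⟨(nat_lit 4), (nat_lit 22), (nat_lit 1), (nat_lit 0)⟩, ⟨(nat_lit 6), (nat_lit 13), (nat_lit 0), (nat_lit 1)⟩]⟩
def e68 : En := ⟨(nat_lit 54), (nat_lit 4113), (nat_lit 2), (nat_lit 1), [⟨(nat_lit 2), (nat_lit 18), (nat_lit 1), (nat_lit 0)⟩, ⟨(nat_lit 6), (nat_lit 13), (nat_lit 1), (nat_lit 0)⟩]⟩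
def e69 : En := ⟨(nat_lit 56), (nat_lit 4353), (nat_lit 2), (nat_lit 1), [⟨(nat_lit 4), (nat_lit 20), (nat_lit 1), (nat_lit 0)⟩, ⟨(nat_lit 8), (nat_lit 13), (nat_lit 1), (nat_lit 0)⟩]⟩
def e70 : En := ⟨(nat_lit 58), (nat_lit 4368), (nat_lit 2), (nat_lit 1), [⟨(nat_lit 0), (nat_lit 22), (nat_lit 1), (nat_lit 0)⟩, ⟨(nat_lit 10), (nat_lit 13), (nat_lit 1), (nat_lit 0)⟩]⟩
def e71 : En := ⟨(nat_lit 67), (nat_lit 4369), (nat_lit 6), (nat_lit 1), [⟨(nat_lit 0), (nat_lit 48), (nat_lit 1), (nat_lit 0)⟩, ⟨(nat_lit 2), (nat_lit 50), (nat_lit 1), (nat_lit 0)⟩, ⟨(nat_lit 4), (nat_lit 52), (nat_lit 1), (nat_lit 0)⟩, ⟨(nat_lit 6), (nat_lit 20), (nat_lit 0), (nat_lit 1)⟩, ⟨(nat_lit 8), (nat_lit 22), (nat_lit 0), (nat_lit 1)⟩, ⟨(nat_lit 10), (nat_lit 18), (nat_lit 0), (nat_lit 1)⟩]⟩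
def e72 : En := ⟨(nat_lit 61), (nat_lit 4369), (nat_lit 6), (nat_lit 1), [⟨(nat_lit 0), (nat_lit 54), (nat_lit 1), (nat_lit 0)⟩, ⟨(nat_lit 2), (nat_lit 56), (nat_lit 1), (nat_lit 0)⟩, ⟨(nat_lit 4), (nat_lit 58), (nat_lit 1), (nat_lit 0)⟩, ⟨(nat_lit 6), (nat_lit 20), (nat_lit 1), (nat_lit 0)⟩, ⟨(nat_lit 8), (nat_lit 22), (nat_lit 1), (nat_lit 0)⟩, ⟨(nat_lit 10), (nat_lit 18), (nat_lit 1), (nat_lit 0)⟩]⟩
def e73 : En := ⟨(nat_lit 61), (nat_lit 4369), (nat_lit 12), (nat_lit 3), [⟨(nat_lit 0), (nat_lit 48), (nat_lit 1), (nat_lit 0)⟩, ⟨(nat_lit 0), (nat_lit 54), (nb (nat_lit 1) (nat_lit 512) (nat_lit 0)), (nat_lit 0)⟩, ⟨(nat_lit 2), (nat_lit 50), (nat_lit 1), (nat_lit 0)⟩, ⟨(nat_lit 2), (nat_lit 56), (nb (nat_lit 1) (nat_lit 512) (nat_lit 0)), (nat_lit 0)⟩, ⟨(nat_lit 4), (nat_lit 52), (nat_lit 1), (nat_lit 0)⟩, ⟨(nat_lit 4), (nat_lit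 58), (nb (nat_lit 1) (nat_lit 512) (nat_lit 0)), (nat_lit 0)⟩, ⟨(nat_lit 6), (nat_lit 20), (nb (nat_lit 1) (nat_lit 512) (nat_lit 0)), (nat_lit 1)⟩, ⟨(nat_lit 8), (nat_lit 22), (nb (nat_lit 1) (nat_lit 512) (nat_lit 0)), (nat_lit 1)⟩, ⟨(nat_lit 10), (nat_lit 18), (nb (nat_lit 1) (nat_lit 512) (nat_lit 0)), (nat_lit 1)⟩]⟩
def e74 : En := ⟨(nat_lit 48), (nat_lit 4113), (nat_lit 4), (nat_lit 3), [⟨(nat_lit 2), (nat_lit 18), (nat_lit 1), (nat_lit 0)⟩, ⟨(nat_lit 4), (nat_lit 22), (nb (nat_lit 1) (nat_lit 512) (nat_lit 0)), (nat_lit 0)⟩, ⟨(nat_lit 6), (nat_lit 13), (nat_lit 1), (nb (nat_lit 1) (nat_lit 512) (nat_lit 0))⟩]⟩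
def e75 : En := ⟨(nat_lit 50), (nat_lit 4353), (nat_lit 4), (nat_lit 3), [⟨(nat_lit 0), (nat_lit 18), (nb (nat_lit 1) (nat_lit 512) (nat_lit 0)), (nat_lit 0)⟩, ⟨(nat_lit 4), (nat_lit 20), (nat_lit 1), (nat_lit 0)⟩, ⟨(nat_lit 8), (nat_lit 13), (nat_lit 1), (nb (nat_lit 1) (nat_lit 512) (nat_lit 0))⟩]⟩
def e76 : En := ⟨(nat_lit 52), (nat_lit 4368), (nat_lit 4), (nat_lit 3), [⟨(nat_lit 0), (nat_lit 22), (nat_lit 1), (nat_lit 0)⟩, ⟨(nat_lit 2), (nat_lit 20), (nb (nat_lit 1) (nat_lit 512) (nat_lit 0)), (nat_lit 0)⟩, ⟨(nat_lit 10), (nat_lit 13), (nat_lit 1), (nb (nat_lit 1) (nat_lit 512) (nat_lit 0))⟩]⟩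
def e77 : En := ⟨(nat_lit 54), (nat_lit 4113), (nat_lit 4), (nat_lit 3), [⟨(nat_lit 2), (nat_lit 18), (nat_lit 1), (nat_lit 0)⟩, ⟨(nat_lit 4), (nat_lit 22), (nb (nat_lit 1) (nat_lit 512) (nat_lit 0)), (nat_lit 0)⟩, ⟨(nat_lit 6), (nat_lit 13), (nat_lit 1), (nb (nat_lit 1) (nat_lit 512) (nat_lit 0))⟩]⟩
def e78 : En := ⟨(nat_lit 56), (nat_lit 4353), (nat_lit 4), (nat_lit 3), [⟨(nat_lit 0), (nat_lit 18), (nb (nat_lit 1) (nat_lit 512) (nat_lit 0)), (nat_lit 0)⟩, ⟨(nat_lit 4), (nat_lit 20), (nat_lit 1), (nat_lit 0)⟩, ⟨(nat_lit 8), (nat_lit 13), (nat_lit 1), (nb (nat_lit 1) (nat_lit 512) (nat_lit 0))⟩]⟩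
def e79 : En := ⟨(nat_lit 58), (nat_lit 4368), (nat_lit 4), (nat_lit 3), [⟨(nat_lit 0), (nat_lit 22), (nat_lit 1), (nat_lit 0)⟩, ⟨(nat_lit 2), (nat_lit 20), (nb (nat_lit 1) (nat_lit 512) (nat_lit 0)), (nat_lit 0)⟩, ⟨(nat_lit 10), (nat_lit 13), (nat_lit 1), (nb (nat_lit 1) (nat_lit 512) (nat_lit 0))⟩]⟩
def e80 : En := ⟨(nat_lit 54), (nat_lit 4113), (nat_lit 2), (nat_lit 1), [⟨(nat_lit 4), (nat_lit 22), (nat_lit 1), (nat_lit 0)⟩, ⟨(nat_lit 6), (nat_lit 13), (nat_lit 0), (nat_lit 1)⟩]⟩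
def e81 : En := ⟨(nat_lit 56), (nat_lit 4353), (nat_lit 2), (nat_lit 1), [⟨(nat_lit 0), (nat_lit 18), (nat_lit 1), (nat_lit 0)⟩, ⟨(nat_lit 8), (nat_lit 13), (nat_lit 0), (nat_lit 1)⟩]⟩
def e82 : En := ⟨(nat_lit 58), (nat_lit 4368), (nat_lit 2), (nat_lit 1), [⟨(nat_lit 2), (nat_lit 20), (nat_lit 1), (nat_lit 0)⟩, ⟨(nat_lit 10), (nat_lit 13), (nat_lit 0), (nat_lit 1)⟩]⟩
def e83 : En := ⟨(nat_lit 60), (nat_lit 4113), (nat_lit 2), (nat_lit 1), [⟨(nat_lit 2), (nat_lit 18), (nat_lit 1), (nat_lit 0)⟩, ⟨(nat_lit 6), (nat_lit 13), (nat_lit 1), (nat_lit 0)⟩]⟩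
def e84 : En := ⟨(nat_lit 62), (nat_lit 4353), (nat_lit 2), (nat_lit 1), [⟨(nat_lit 4), (nat_lit 20), (nat_lit 1), (nat_lit 0)⟩, ⟨(nat_lit 8), (nat_lit 13), (nat_lit 1), (nat_lit 0)⟩]⟩
def e85 : En := ⟨(nat_lit 64), (nat_lit 4368), (nat_lit 2), (nat_lit 1), [⟨(nat_lit 0), (nat_lit 22), (nat_lit 1), (nat_lit 0)⟩, ⟨(nat_lit 10), (nat_lit 13), (nat_lit 1), (nat_lit 0)⟩]⟩
def e86 : En := ⟨(nat_lit 67), (nat_lit 4369), (nat_lit 12), (nat_lit 3), [⟨(nat_lit 0), (nat_lit 54), (nat_lit 1), (nat_lit 0)⟩, ⟨(nat_lit 0), (nat_lit 60), (nb (nat_lit 1) (nat_lit 512) (nat_lit 0)), (nat_lit 0)⟩, ⟨(nat_lit 2), (nat_lit 56), (nat_lit 1), (nat_lit 0)⟩, ⟨(nat_lit 2), (nat_lit 62), (nb (nat_lit 1) (nat_lit 512) (nat_lit 0)), (nat_lit 0)⟩, ⟨(nat_lit 4), (nat_lit 58), (nat_lit 1), (nat_lit 0)⟩, ⟨(nat_lit 4), (nat_lit 64), (nb (nat_lit 1) (nat_lit 512)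 (nat_lit 0)), (nat_lit 0)⟩, ⟨(nat_lit 6), (nat_lit 20), (nb (nat_lit 1) (nat_lit 512) (nat_lit 0)), (nat_lit 1)⟩, ⟨(nat_lit 8), (nat_lit 22), (nb (nat_lit 1) (nat_lit 512) (nat_lit 0)), (nat_lit 1)⟩, ⟨(nat_lit 10), (nat_lit 18), (nb (nat_lit 1) (nat_lit 512) (nat_lit 0)), (nat_lit 1)⟩]⟩
def e87 : En := ⟨(nat_lit 60), (nat_lit 8193), (nat_lit 1), (nat_lit 1), [⟨(nat_lit 13), (nat_lit 18), (nat_lit 1), (nat_lit 0)⟩]⟩
def e88 : En := ⟨(nat_lit 62), (nat_lit 8448), (nat_lit 1), (nat_lit 1), [⟨(nat_lit 13), (nat_lit 20), (nat_lit 1), (nat_lit 0)⟩]⟩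
def e89 : En := ⟨(nat_lit 64), (nat_lit 8208), (nat_lit 1), (nat_lit 1), [⟨(nat_lit 13), (nat_lit 22), (nat_lit 1), (nat_lit 0)⟩]⟩
def e90 : En := ⟨(nat_lit 54), (nat_lit 4098), (nat_lit 1), (nat_lit 1), [⟨(nat_lit 4), (nat_lit 18), (nat_lit 1), (nat_lit 0)⟩]⟩
def e91 : En := ⟨(nat_lit 56), (nat_lit 4608), (nat_lit 1), (nat_lit 1), [⟨(nat_lit 0), (nat_lit 20), (nat_lit 1), (nat_lit 0)⟩]⟩
def e92 : En := ⟨(nat_lit 58), (nat_lit 4128), (nat_lit 1), (nat_lit 1), [⟨(nat_lit 2), (nat_lit 22), (nat_lit 1), (nat_lit 0)⟩]⟩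
def e93 : En := ⟨(nat_lit 60), (nat_lit 4113), (nat_lit 4), (nat_lit 3), [⟨(nat_lit 2), (nat_lit 18), (nat_lit 1), (nat_lit 0)⟩, ⟨(nat_lit 4), (nat_lit 22), (nb (nat_lit 1) (nat_lit 512) (nat_lit 0)), (nat_lit 0)⟩, ⟨(nat_lit 6), (nat_lit 13), (nat_lit 1), (nb (nat_lit 1) (nat_lit 512) (nat_lit 0))⟩]⟩
def e94 : En := ⟨(nat_lit 62), (nat_lit 4353), (nat_lit 4), (nat_lit 3), [⟨(nat_lit 0), (nat_lit 18), (nb (nat_lit 1) (nat_lit 512) (nat_lit 0)), (nat_lit 0)⟩, ⟨(nat_lit 4), (nat_lit 20), (nat_lit 1), (nat_lit 0)⟩, ⟨(nat_lit 8), (nat_lit 13), (nat_lit 1), (nb (nat_lit 1) (nat_lit 512) (nat_lit 0))⟩]⟩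
def e95 : En := ⟨(nat_lit 64), (nat_lit 4368), (nat_lit 4), (nat_lit 3), [⟨(nat_lit 0), (nat_lit 22), (nat_lit 1), (nat_lit 0)⟩, ⟨(nat_lit 2), (nat_lit 20), (nb (nat_lit 1) (nat_lit 512) (nat_lit 0)), (nat_lit 0)⟩, ⟨(nat_lit 10), (nat_lit 13), (nat_lit 1), (nb (nat_lit 1) (nat_lit 512) (nat_lit 0))⟩]⟩
def e96 : En := ⟨(nat_lit 67), (nat_lit 4369), (nat_lit 6), (nat_lit 1), [⟨(nat_lit 0), (nat_lit 60), (nat_lit 1), (nat_lit 0)⟩, ⟨(nat_lit 2), (nat_lit 62), (nat_lit 1), (nat_lit 0)⟩, ⟨(nat_lit 4), (nat_lit 64), (nat_lit 1), (nat_lit 0)⟩, ⟨(nat_lit 6), (nat_lit 20), (nat_lit 1), (nat_lit 0)⟩, ⟨(nat_lit 8), (nat_lit 22), (nat_lit 1), (nat_lit 0)⟩, ⟨(nat_lit 10), (nat_lit 18), (nat_lit 1), (nat_lit 0)⟩]⟩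
def e97 : En := ⟨(nat_lit 60), (nat_lit 4113), (nat_lit 2), (nat_lit 1), [⟨(nat_lit 4), (nat_lit 22), (nat_lit 1), (nat_lit 0)⟩, ⟨(nat_lit 6), (nat_lit 13), (nat_lit 0), (nat_lit 1)⟩]⟩
def e98 : En := ⟨(nat_lit 62), (nat_lit 4353), (nat_lit 2), (nat_lit 1), [⟨(nat_lit 0), (nat_lit 18), (nat_lit 1), (nat_lit 0)⟩, ⟨(nat_lit 8), (nat_lit 13), (nat_lit 0), (nat_lit 1)⟩]⟩
def e99 : En := ⟨(nat_lit 64), (nat_lit 4368), (nat_lit 2), (nat_lit 1), [⟨(nat_lit 2), (nat_lit 20), (nat_lit 1), (nat_lit 0)⟩, ⟨(nat_lit 10), (nat_lit 13), (nat_lit 0), (nat_lit 1)⟩]⟩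
def e100 : En := ⟨(nat_lit 66), (nat_lit 4113), (nat_lit 2), (nat_lit 1), [⟨(nat_lit 2), (nat_lit 18), (nat_lit 1), (nat_lit 0)⟩, ⟨(nat_lit 6), (nat_lit 13), (nat_lit 1), (nat_lit 0)⟩]⟩
def e101 : En := ⟨(nat_lit 68), (nat_lit 4353), (nat_lit 2), (nat_lit 1), [⟨(nat_lit 4), (nat_lit 20), (nat_lit 1), (nat_lit 0)⟩, ⟨(nat_lit 8), (nat_lit 13), (nat_lit 1), (nat_lit 0)⟩]⟩
def e102 : En := ⟨(nat_lit 70), (nat_lit 4368), (nat_lit 2), (nat_lit 1), [⟨(nat_lit 0), (nat_lit 22), (nat_lit 1), (nat_lit 0)⟩, ⟨(nat_lit 10), (nat_lit 13), (nat_lit 1), (nat_lit 0)⟩]⟩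
def e103 : En := ⟨(nat_lit 67), (nat_lit 4369), (nat_lit 9), (nat_lit 3), [⟨(nat_lit 0), (nat_lit 60), (nat_lit 1), (nat_lit 0)⟩, ⟨(nat_lit 2), (nat_lit 62), (nat_lit 1), (nat_lit 0)⟩, ⟨(nat_lit 4), (nat_lit 64), (nat_lit 1), (nat_lit 0)⟩, ⟨(nat_lit 6), (nat_lit 20), (nat_lit 1), (nb (nat_lit 1) (nat_lit 512) (nat_lit 0))⟩, ⟨(nat_lit 8), (nat_lit 22), (nat_lit 1), (nb (nat_lit 1) (nat_lit 512) (nat_lit 0))⟩, ⟨(nat_lit 10), (nat_lit 18), (nat_lit 1), (nb (nat_lit 1) (nat_lit 512) (nat_lit 0))⟩]⟩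
def f0 : Fc := ⟨false, st0, [], ⟨(nat_lit 3456), [], [⟨(nb (nat_lit 1) (nat_lit 512) (nb (nat_lit 1) (nat_lit 64) (nat_lit 0))), (nat_lit 0), (nat_lit 2), (nat_lit 6)⟩], false⟩, []⟩
def f1 : Fc := ⟨false, st0, [], ⟨(nat_lit 3456), [⟨(nb (nat_lit 1) (nat_lit 512) (nb (nat_lit 1) (nat_lit 64) (nat_lit 0))), (nat_lit 0), (nat_lit 2), (nat_lit 6)⟩], [⟨(nb (nat_lit 1) (nat_lit 512) (nat_lit 0)), (nat_lit 0), (nat_lit 1), (nat_lit 3)⟩], false⟩, []⟩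
def f2 : Fc := ⟨false, st0, [], ⟨(nat_lit 3456), [⟨(nb (nat_lit 1) (nat_lit 512) (nat_lit 0)), (nat_lit 0), (nat_lit 1), (nat_lit 3)⟩, ⟨(nb (nat_lit 1) (nat_lit 512) (nb (nat_lit 1) (nat_lit 64) (nat_lit 0))), (nat_lit 0), (nat_lit 2), (nat_lit 6)⟩], [⟨(nb (nat_lit 1) (nat_lit 512) (nat_lit 0)), (nat_lit 1), (nat_lit 2), (nat_lit 3)⟩], false⟩, []⟩
def f3 : Fc := ⟨false, st0, [], ⟨(nat_lit 3456), [], [⟨(nb (nat_lit 7) (nat_lit 512) (nat_lit 0)), (nat_lit 0x30000000000000009), (nat_lit 19), (nat_lit 6)⟩], false⟩, []⟩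
def f4 : Fc := ⟨false, st0, [], ⟨(nat_lit 3456), [], [⟨(nb (nat_lit 2) (nat_lit 512) (nat_lit 1)), (nat_lit 0), (nat_lit 3), (nat_lit 3)⟩], false⟩, []⟩
def f5 : Fc := ⟨false, st0, [], ⟨(nat_lit 3456), [⟨(nb (nat_lit 2) (nat_lit 512) (nat_lit 1)), (nat_lit 0), (nat_lit 3), (nat_lit 3)⟩], [⟨(nb (nat_lit 1) (nat_lit 512) (nat_lit 0)), (nat_lit 0), (nat_lit 1), (nat_lit 3)⟩], false⟩, []⟩
def f6 : Fc := ⟨false, st0, [], ⟨(nat_lit 3456), [⟨(nb (nat_lit 1) (nat_lit 512) (nat_lit 0)), (nat_lit 0), (nat_lit 1), (nat_lit 3)⟩, ⟨(nb (nat_lit 2) (nat_lit 512) (nat_lit 1)), (nat_lit 0), (nat_lit 3), (nat_lit 3)⟩], [⟨(nb (nat_lit 1) (nat_lit 512) (nat_lit 1)), (nat_lit 0), (nat_lit 2), (nat_lit 3)⟩], false⟩, []⟩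
def f7 : Fc := ⟨false, st0, [], ⟨(nat_lit 3456), [], [⟨(nb (nat_lit 7) (nat_lit 512) (nat_lit 6)), (nat_lit 0x30000000000000000), (nat_lit 16), (nat_lit 6)⟩], false⟩, []⟩
def f8 : Fc := ⟨false, st0, [], ⟨(nat_lit 3456), [], [⟨(nb (nat_lit 1) (nat_lit 512) (nat_lit 0x10000000000000002)), (nat_lit 0), (nat_lit 4), (nat_lit 6)⟩], false⟩, []⟩
def f9 : Fc := ⟨false, st0, [], ⟨(nat_lit 3456), [], [⟨(nb (nat_lit 1) (nat_lit 512) (nat_lit 0)), (nat_lit 0), (nat_lit 1), (nat_lit 3)⟩], false⟩, []⟩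
def f10 : Fc := ⟨false, st0, [], ⟨(nat_lit 432000), [], [⟨(nb (nat_lit 1) (nat_lit 2048) (nb (nat_lit 3) (nat_lit 512) (nat_lit 0))), (nb (nat_lit 1) (nat_lit 2112) (nat_lit 0x20000000000000001)), (nat_lit 8), (nat_lit 30)⟩], false⟩, []⟩
def f11 : Fc := ⟨false, st0, [], ⟨(nat_lit 16000), [], [⟨(nb (nat_lit 1) (nat_lit 2048) (nat_lit 0x10000000000000001)), (nat_lit 0), (nat_lit 3), (nat_lit 10)⟩], false⟩, []⟩
def f12 : Fc := ⟨false, st0, [], ⟨(nat_lit 3456), [], [⟨(nb (nat_lit 1) (nat_lit 512) (nat_lit 0)), (nat_lit 0x30000000000000001), (nat_lit 5), (nat_lit 6)⟩], false⟩, []⟩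
def f13 : Fc := ⟨false, st0, [], ⟨(nat_lit 3456), [], [⟨(nb (nat_lit 1) (nat_lit 512) (nat_lit 0)), (nat_lit 1), (nat_lit 2), (nat_lit 3)⟩], false⟩, []⟩
def f14 : Fc := ⟨false, st0, [], ⟨(nat_lit 3456), [⟨(nb (nat_lit 1) (nat_lit 512) (nat_lit 0)), (nat_lit 1), (nat_lit 2), (nat_lit 3)⟩], [⟨(nb (nat_lit 1) (nat_lit 512) (nat_lit 0)), (nat_lit 0x10000000000000001), (nat_lit 3), (nat_lit 6)⟩], false⟩, []⟩
def f15 : Fc := ⟨false, st0, [], ⟨(nat_lit 3456), [⟨(nb (nat_lit 1) (nat_lit 512) (nat_lit 0)), (nat_lit 0), (nat_lit 1), (nat_lit 3)⟩, ⟨(nb (nat_lit 1) (nat_lit 512) (nat_lit 0)), (nat_lit 1), (nat_lit 2), (nat_lit 3)⟩], [⟨(nb (nat_lit 1) (nat_lit 512) (nat_lit 0)), (nat_lit 0x10000000000000001), (nat_lit 3), (nat_lit 6)⟩], false⟩, []⟩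
def f16 : Fc := ⟨false, st0, [], ⟨(nat_lit 3456), [⟨(nb (nat_lit 1) (nat_lit 512) (nat_lit 0)), (nat_lit 1), (nat_lit 2), (nat_lit 3)⟩], [⟨(nb (nat_lit 1) (nat_lit 512) (nat_lit 0)), (nat_lit 0), (nat_lit 1), (nat_lit 3)⟩], false⟩, []⟩
def f17 : Fc := ⟨false, st0, [], ⟨(nat_lit 3456), [], [⟨(nb (nat_lit 7) (nat_lit 512) (nat_lit 0)), (nat_lit 0x50000000000000008), (nat_lit 20), (nat_lit 6)⟩], false⟩, []⟩
def f18 : Fc := ⟨false, st0, [], ⟨(nat_lit 3456), [], [⟨(nb (nat_lit 1) (nat_lit 512) (nat_lit 1)), (nat_lit 0x10000000000000000), (nat_lit 3), (nat_lit 6)⟩], false⟩, []⟩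
def f19 : Fc := ⟨false, st0, [], ⟨(nat_lit 432000), [], [⟨(nb (nat_lit 0x10000000000000002) (nat_lit 2048) (nb (nat_lit 3) (nat_lit 512) (nat_lit 0x40000000000000002))), (nat_lit 0), (nat_lit 12), (nat_lit 30)⟩], false⟩, []⟩
def f20 : Fc := ⟨false, st0, [], ⟨(nat_lit 16000), [], [⟨(nb (nat_lit 1) (nat_lit 2048) (nat_lit 1)), (nat_lit 0), (nat_lit 2), (nat_lit 5)⟩], false⟩, []⟩
def f21 : Fc := ⟨false, st0, [], ⟨(nat_lit 3456), [], [⟨(nb (nat_lit 1) (nat_lit 512) (nat_lit 0)), (nat_lit 0x10000000000000000), (nat_lit 2), (nat_lit 6)⟩], false⟩, []⟩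
def f22 : Fc := ⟨false, st0, [], ⟨(nat_lit 3456), [⟨(nb (nat_lit 1) (nat_lit 512) (nat_lit 0)), (nat_lit 0x10000000000000000), (nat_lit 2), (nat_lit 6)⟩], [⟨(nb (nat_lit 1) (nat_lit 512) (nat_lit 0)), (nat_lit 0x10000000000000001), (nat_lit 3), (nat_lit 6)⟩], false⟩, []⟩
def f23 : Fc := ⟨false, st0, [], ⟨(nat_lit 3456), [⟨(nb (nat_lit 1) (nat_lit 512) (nat_lit 0)), (nat_lit 0), (nat_lit 1), (nat_lit 3)⟩, ⟨(nb (nat_lit 1) (nat_lit 512) (nat_lit 0)), (nat_lit 0x10000000000000000), (nat_lit 2), (nat_lit 6)⟩], [⟨(nb (nat_lit 1) (nat_lit 512) (nat_lit 0)), (nat_lit 0x10000000000000001), (nat_lit 3), (nat_lit 6)⟩], false⟩, []⟩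
def f24 : Fc := ⟨false, st0, [], ⟨(nat_lit 3456), [⟨(nb (nat_lit 1) (nat_lit 512) (nat_lit 0)), (nat_lit 0x10000000000000000), (nat_lit 2), (nat_lit 6)⟩], [⟨(nb (nat_lit 1) (nat_lit 512) (nat_lit 0)), (nat_lit 0), (nat_lit 1), (nat_lit 3)⟩], false⟩, []⟩
def f25 : Fc := ⟨false, st0, [], ⟨(nat_lit 3456), [], [⟨(nb (nat_lit 7) (nat_lit 512) (nat_lit 0)), (nat_lit 0x80000000000000005), (nat_lit 20), (nat_lit 6)⟩], false⟩, []⟩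
def f26 : Fc := ⟨false, st0, [], ⟨(nat_lit 432000), [], [⟨(nb (nat_lit 2) (nat_lit 512) (nat_lit 1)), (nb (nat_lit 2) (nat_lit 2048) (nat_lit 0)), (nat_lit 5), (nat_lit 15)⟩], false⟩, []⟩
def f27 : Fc := ⟨false, st0, [], ⟨(nat_lit 16000), [], [⟨(nb (nat_lit 1) (nat_lit 2048) (nat_lit 0)), (nat_lit 0), (nat_lit 1), (nat_lit 5)⟩], false⟩, []⟩
def f28 : Fc := ⟨false, st0, [], ⟨(nat_lit 16000), [⟨(nb (nat_lit 1) (nat_lit 2048) (nat_lit 0)), (nat_lit 0), (nat_lit 1), (nat_lit 5)⟩], [], false⟩, []⟩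
def f29 : Fc := ⟨false, st0, [], ⟨(nat_lit 16000), [⟨(nb (nat_lit 1) (nat_lit 2048) (nat_lit 0)), (nat_lit 0), (nat_lit 1), (nat_lit 5)⟩], [⟨(nb (nat_lit 2) (nat_lit 2048) (nb (nat_lit 1) (nat_lit 64) (nat_lit 0))), (nat_lit 0), (nat_lit 3), (nat_lit 10)⟩], false⟩, []⟩
def f30 : Fc := ⟨false, st0, [], ⟨(nat_lit 16000), [⟨(nb (nat_lit 1) (nat_lit 2048) (nat_lit 0)), (nat_lit 0), (nat_lit 1), (nat_lit 5)⟩, ⟨(nb (nat_lit 2) (nat_lit 2048) (nb (nat_lit 1) (nat_lit 64) (nat_lit 0))), (nat_lit 0), (nat_lit 3), (nat_lit 10)⟩], [], false⟩, []⟩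
def f31 : Fc := ⟨false, st0, [], ⟨(nat_lit 432000), [⟨(nb (nat_lit 1) (nat_lit 512) (nat_lit 0)), (nat_lit 0), (nat_lit 1), (nat_lit 3)⟩, ⟨(nb (nat_lit 2) (nat_lit 512) (nat_lit 1)), (nb (nat_lit 2) (nat_lit 2048) (nat_lit 0)), (nat_lit 5), (nat_lit 15)⟩], [⟨(nb (nat_lit 1) (nat_lit 2112) (nb (nat_lit 1) (nat_lit 512) (nat_lit 0))), (nat_lit 0), (nat_lit 2), (nat_lit 30)⟩], false⟩, []⟩
def f32 : Fc := ⟨false, st0, [], ⟨(nat_lit 16000), [], [⟨(nb (nat_lit 2) (nat_lit 2048) (nat_lit 0)), (nat_lit 1), (nat_lit 3), (nat_lit 5)⟩], false⟩, []⟩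
def f33 : Fc := ⟨false, st0, [], ⟨(nat_lit 16000), [⟨(nb (nat_lit 2) (nat_lit 2048) (nat_lit 0)), (nat_lit 1), (nat_lit 3), (nat_lit 5)⟩], [], false⟩, []⟩
def f34 : Fc := ⟨false, st0, [], ⟨(nat_lit 432000), [⟨(nb (nat_lit 2) (nat_lit 512) (nat_lit 1)), (nb (nat_lit 2) (nat_lit 2048) (nat_lit 0)), (nat_lit 5), (nat_lit 15)⟩], [⟨(nb (nat_lit 1) (nat_lit 512) (nat_lit 0)), (nat_lit 0), (nat_lit 1), (nat_lit 3)⟩], false⟩, []⟩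
def f35 : Fc := ⟨false, st0, [], ⟨(nat_lit 432000), [⟨(nb (nat_lit 1) (nat_lit 2048) (nat_lit 0)), (nat_lit 0), (nat_lit 1), (nat_lit 5)⟩, ⟨(nb (nat_lit 2) (nat_lit 512) (nat_lit 1)), (nb (nat_lit 2) (nat_lit 2048) (nat_lit 0)), (nat_lit 5), (nat_lit 15)⟩], [⟨(nb (nat_lit 1) (nat_lit 2112) (nb (nat_lit 1) (nat_lit 512) (nat_lit 0))), (nat_lit 0), (nat_lit 2), (nat_lit 30)⟩], false⟩, []⟩
def f36 : Fc := ⟨false, st0, [], ⟨(nat_lit 3456), [⟨(nb (nat_lit 2) (nat_lit 512) (nat_lit 1)), (nat_lit 0), (nat_lit 3), (nat_lit 3)⟩], [], false⟩, []⟩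
def f37 : Fc := ⟨false, st0, [], ⟨(nat_lit 432000), [⟨(nb (nat_lit 2) (nat_lit 512) (nat_lit 1)), (nb (nat_lit 2) (nat_lit 2048) (nat_lit 0)), (nat_lit 5), (nat_lit 15)⟩], [⟨(nb (nat_lit 1) (nat_lit 2048) (nat_lit 0)), (nat_lit 0), (nat_lit 1), (nat_lit 5)⟩], false⟩, []⟩
def f38 : Fc := ⟨false, st0, [], ⟨(nat_lit 3456), [⟨(nb (nat_lit 1) (nat_lit 512) (nat_lit 0)), (nat_lit 0), (nat_lit 1), (nat_lit 3)⟩], [⟨(nb (nat_lit 1) (nat_lit 512) (nat_lit 1)), (nat_lit 0), (nat_lit 2), (nat_lit 3)⟩], false⟩, []⟩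
def f39 : Fc := ⟨false, st0, [], ⟨(nat_lit 3456), [], [⟨(nb (nat_lit 2) (nat_lit 512) (nat_lit 0x10000000000000001)), (nat_lit 0), (nat_lit 4), (nat_lit 6)⟩], false⟩, []⟩
def f40 : Fc := ⟨false, st0, [], ⟨(nat_lit 3456), [⟨(nb (nat_lit 2) (nat_lit 512) (nat_lit 0x10000000000000001)), (nat_lit 0), (nat_lit 4), (nat_lit 6)⟩], [⟨(nb (nat_lit 1) (nat_lit 512) (nat_lit 0)), (nat_lit 0), (nat_lit 1), (nat_lit 3)⟩], false⟩, []⟩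
def f41 : Fc := ⟨false, st0, [], ⟨(nat_lit 3456), [⟨(nb (nat_lit 2) (nat_lit 512) (nat_lit 0x10000000000000001)), (nat_lit 0), (nat_lit 4), (nat_lit 6)⟩], [⟨(nb (nat_lit 2) (nat_lit 512) (nat_lit 1)), (nat_lit 0), (nat_lit 3), (nat_lit 3)⟩], false⟩, []⟩
def f42 : Fc := ⟨false, st0, [], ⟨(nat_lit 3456), [], [⟨(nb (nat_lit 1) (nat_lit 512) (nat_lit 1)), (nat_lit 0), (nat_lit 2), (nat_lit 3)⟩], false⟩, []⟩
def f43 : Fc := ⟨false, st0, [], ⟨(nat_lit 432000), [], [⟨(nb (nat_lit 5) (nat_lit 2112) (nb (nat_lit 7) (nat_lit 512) (nat_lit 6))), (nb (nat_lit 3) (nat_lit 2048) (nb (nat_lit 3) (nat_lit 64) (nat_lit 0))), (nat_lit 24), (nat_lit 30)⟩], false⟩, []⟩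
def f44 : Fc := ⟨false, st0, [], ⟨(nat_lit 3456), [], [⟨(nb (nat_lit 3) (nat_lit 512) (nat_lit 0x10000000000000002)), (nat_lit 0), (nat_lit 6), (nat_lit 6)⟩], false⟩, []⟩
def f45 : Fc := ⟨false, st0, [], ⟨(nat_lit 3456), [], [⟨(nb (nat_lit 3) (nat_lit 512) (nat_lit 1)), (nat_lit 0x10000000000000000), (nat_lit 5), (nat_lit 6)⟩], false⟩, []⟩
def f46 : Fc := ⟨false, st0, [], ⟨(nat_lit 3456), [], [⟨(nb (nat_lit 2) (nat_lit 512) (nat_lit 0)), (nat_lit 1), (nat_lit 3), (nat_lit 3)⟩], false⟩, []⟩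
def f47 : Fc := ⟨false, st0, [], ⟨(nat_lit 3456), [], [⟨(nb (nat_lit 2) (nat_lit 512) (nb (nat_lit 1) (nat_lit 64) (nat_lit 0))), (nat_lit 0), (nat_lit 3), (nat_lit 6)⟩], false⟩, []⟩
def f48 : Fc := ⟨false, st0, [], ⟨(nat_lit 3456), [], [⟨(nb (nat_lit 2) (nat_lit 512) (nat_lit 0)), (nat_lit 0x10000000000000001), (nat_lit 4), (nat_lit 6)⟩], false⟩, []⟩
def f49 : Fc := ⟨false, st0, [], ⟨(nat_lit 3456), [⟨(nb (nat_lit 1) (nat_lit 512) (nat_lit 0)), (nat_lit 1), (nat_lit 2), (nat_lit 3)⟩], [⟨(nb (nat_lit 2) (nat_lit 512) (nat_lit 0)), (nat_lit 1), (nat_lit 3), (nat_lit 3)⟩], false⟩, []⟩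
def f50 : Fc := ⟨false, st0, [], ⟨(nat_lit 3456), [⟨(nb (nat_lit 1) (nat_lit 512) (nat_lit 0)), (nat_lit 1), (nat_lit 2), (nat_lit 3)⟩], [⟨(nb (nat_lit 2) (nat_lit 512) (nb (nat_lit 1) (nat_lit 64) (nat_lit 0))), (nat_lit 0), (nat_lit 3), (nat_lit 6)⟩], false⟩, []⟩
def f51 : Fc := ⟨false, st0, [], ⟨(nat_lit 3456), [⟨(nb (nat_lit 1) (nat_lit 512) (nat_lit 0)), (nat_lit 1), (nat_lit 2), (nat_lit 3)⟩], [⟨(nb (nat_lit 2) (nat_lit 512) (nat_lit 0)), (nat_lit 0x10000000000000001), (nat_lit 4), (nat_lit 6)⟩], false⟩, []⟩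
def f52 : Fc := ⟨false, st0, [], ⟨(nat_lit 3456), [], [⟨(nb (nat_lit 1) (nat_lit 512) (nat_lit 0)), (nat_lit 3), (nat_lit 4), (nat_lit 3)⟩], false⟩, []⟩
def f53 : Fc := ⟨false, st0, [], ⟨(nat_lit 3456), [], [⟨(nb (nat_lit 1) (nat_lit 512) (nat_lit 0)), (nat_lit 2), (nat_lit 3), (nat_lit 3)⟩], false⟩, []⟩
def f54 : Fc := ⟨false, st0, [], ⟨(nat_lit 3456), [], [⟨(nb (nat_lit 1) (nat_lit 512) (nat_lit 0)), (nat_lit 0x10000000000000001), (nat_lit 3), (nat_lit 6)⟩], false⟩, []⟩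
def f55 : Fc := ⟨false, st0, [], ⟨(nat_lit 3456), [], [⟨(nb (nat_lit 1) (nat_lit 512) (nat_lit 0)), (nat_lit 0x20000000000000001), (nat_lit 4), (nat_lit 6)⟩], false⟩, []⟩
def f56 : Fc := ⟨false, st0, [], ⟨(nat_lit 3456), [], [⟨(nb (nat_lit 1) (nat_lit 512) (nat_lit 0x20000000000000001)), (nat_lit 0), (nat_lit 4), (nat_lit 6)⟩], false⟩, []⟩
def f57 : Fc := ⟨false, st0, [], ⟨(nat_lit 3456), [⟨(nat_lit 0x20000000000000001), (nb (nat_lit 1) (nat_lit 512) (nat_lit 0)), (nat_lit 4), (nat_lit 6)⟩], [], false⟩, []⟩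
def f58 : Fc := ⟨false, st0, [], ⟨(nat_lit 432000), [], [⟨(nb (nat_lit 1) (nat_lit 2560) (nat_lit 0x10000000000000001)), (nb (nat_lit 0x20000000000000001) (nat_lit 2048) (nat_lit 0)), (nat_lit 6), (nat_lit 30)⟩], false⟩, []⟩
def f59 : Fc := ⟨false, st0, [], ⟨(nat_lit 3456), [⟨(nb (nat_lit 1) (nat_lit 512) (nat_lit 0)), (nat_lit 0x20000000000000001), (nat_lit 4), (nat_lit 6)⟩], [⟨(nb (nat_lit 1) (nat_lit 512) (nat_lit 0)), (nat_lit 1), (nat_lit 2), (nat_lit 3)⟩], false⟩, []⟩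
def f60 : Fc := ⟨false, st0, [], ⟨(nat_lit 3456), [⟨(nb (nat_lit 1) (nat_lit 512) (nat_lit 0x20000000000000001)), (nat_lit 0), (nat_lit 4), (nat_lit 6)⟩], [], false⟩, []⟩
def f61 : Fc := ⟨false, st0, [], ⟨(nat_lit 432000), [], [⟨(nb (nat_lit 1) (nat_lit 2560) (nb (nat_lit 0x20000000000000001) (nat_lit 2048) (nat_lit 0))), (nat_lit 0x10000000000000000), (nat_lit 5), (nat_lit 30)⟩], false⟩, []⟩
def f62 : Fc := ⟨false, st0, [], ⟨(nat_lit 3456), [⟨(nb (nat_lit 1) (nat_lit 512) (nat_lit 0x20000000000000001)), (nat_lit 0), (nat_lit 4), (nat_lit 6)⟩], [⟨(nb (nat_lit 1) (nat_lit 512) (nat_lit 0)), (nat_lit 1), (nat_lit 2), (nat_lit 3)⟩], false⟩, []⟩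
def f63 : Fc := ⟨false, st0, [], ⟨(nat_lit 3456), [⟨(nb (nat_lit 1) (nat_lit 512) (nat_lit 0x20000000000000001)), (nat_lit 0), (nat_lit 4), (nat_lit 6)⟩], [⟨(nb (nat_lit 1) (nat_lit 512) (nat_lit 1)), (nat_lit 0), (nat_lit 2), (nat_lit 3)⟩], false⟩, []⟩
def f64 : Fc := ⟨false, st0, [], ⟨(nat_lit 3456), [⟨(nb (nat_lit 1) (nat_lit 512) (nat_lit 0)), (nat_lit 0), (nat_lit 1), (nat_lit 3)⟩], [], false⟩, []⟩
def f65 : Fc := ⟨false, st0, [], ⟨(nat_lit 432000), [], [⟨(nb (nat_lit 1) (nat_lit 2560) (nat_lit 0)), (nat_lit 1), (nat_lit 2), (nat_lit 15)⟩], false⟩, []⟩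
def f66 : Fc := ⟨false, st0, [], ⟨(nat_lit 3456), [⟨(nb (nat_lit 1) (nat_lit 512) (nat_lit 0)), (nat_lit 0), (nat_lit 1), (nat_lit 3)⟩], [⟨(nb (nat_lit 1) (nat_lit 512) (nat_lit 0)), (nat_lit 0x10000000000000001), (nat_lit 3), (nat_lit 6)⟩], false⟩, []⟩
def f67 : Fc := ⟨false, st0, [], ⟨(nat_lit 3456), [⟨(nb (nat_lit 1) (nat_lit 512) (nat_lit 0)), (nat_lit 0), (nat_lit 1), (nat_lit 3)⟩], [⟨(nb (nat_lit 1) (nat_lit 512) (nb (nat_lit 1) (nat_lit 64) (nat_lit 0))), (nat_lit 0), (nat_lit 2), (nat_lit 6)⟩], false⟩, []⟩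
def f68 : Fc := ⟨false, st0, [], ⟨(nat_lit 3456), [], [⟨(nb (nat_lit 1) (nat_lit 512) (nat_lit 0x10000000000000001)), (nat_lit 0), (nat_lit 3), (nat_lit 6)⟩], false⟩, []⟩
def f69 : Fc := ⟨false, st0, [], ⟨(nat_lit 16000), [], [⟨(nb (nat_lit 1) (nat_lit 2048) (nat_lit 0)), (nat_lit 0x10000000000000000), (nat_lit 2), (nat_lit 10)⟩], false⟩, []⟩
def f70 : Fc := ⟨true, ⟨[[e0, e1, e2], [e3, e4, e5], [e6, e7, e8]], [], [], (nat_lit 9), (nat_lit 0x3f000000000fff), (nat_lit 0), (nat_lit 12), (nat_lit 4)⟩, [], ⟨(nat_lit 128), [], [], true⟩, []⟩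
def f71 : Fc := ⟨true, ⟨[[e9, e10, e11], [e3, e4, e5], [e6, e7, e8]], [], [], (nat_lit 9), (nat_lit 0x3f000000000fff), (nat_lit 0), (nat_lit 12), (nat_lit 4)⟩, [], ⟨(nat_lit 128), [], [], true⟩, []⟩
def f72 : Fc := ⟨true, ⟨[[e12, e13, e14, e15], [e3, e4, e5], [e6, e7, e8]], [], [], (nat_lit 10), (nat_lit 0xfff000000000fff), (nat_lit 0), (nat_lit 11), (nat_lit 4)⟩, [], ⟨(nat_lit 128), [], [], true⟩, []⟩
def f73 : Fc := ⟨true, ⟨[[e12, e16, e17, e18], [e3, e4, e5], [e6, e7, e8]], [], [], (nat_lit 10), (nat_lit 0xfff000000000fff), (nat_lit 0), (nat_lit 11), (nat_lit 4)⟩, [], ⟨(nat_lit 128), [], [], true⟩, []⟩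
def f74 : Fc := ⟨true, ⟨[[e12, e16, e17, e18, e19, e20, e21], [e3, e4, e5], [e6, e7, e8]], [], [], (nat_lit 13), (nat_lit 0x3ffff000000000fff), (nat_lit 0), (nat_lit 8), (nat_lit 4)⟩, [], ⟨(nat_lit 128), [], [], true⟩, []⟩
def f75 : Fc := ⟨true, ⟨[[e22, e13, e14, e15], [e3, e4, e5], [e6, e7, e8]], [], [], (nat_lit 10), (nat_lit 0xfff000000000fff), (nat_lit 0), (nat_lit 11), (nat_lit 4)⟩, [], ⟨(nat_lit 128), [], [], true⟩, []⟩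
def f76 : Fc := ⟨true, ⟨[[e22, e16, e17, e18], [e3, e4, e5], [e6, e7, e8]], [], [], (nat_lit 10), (nat_lit 0xfff000000000fff), (nat_lit 0), (nat_lit 11), (nat_lit 4)⟩, [], ⟨(nat_lit 128), [], [], true⟩, []⟩
def f77 : Fc := ⟨true, ⟨[[e22, e16, e17, e18, e19, e20, e21], [e3, e4, e5], [e6, e7, e8]], [], [], (nat_lit 13), (nat_lit 0x3ffff000000000fff), (nat_lit 0), (nat_lit 8), (nat_lit 4)⟩, [], ⟨(nat_lit 128), [], [], true⟩, []⟩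
def f78 : Fc := ⟨true, ⟨[[e22, e23], [e3, e4, e5], [e6, e7, e8]], [], [], (nat_lit 8), (nat_lit 0xfff000000000fff), (nat_lit 0), (nat_lit 13), (nat_lit 4)⟩, [], ⟨(nat_lit 128), [], [], true⟩, []⟩
def f79 : Fc := ⟨true, ⟨[[e24, e25, e26], [e22, e23, e19, e20, e21], [e3, e4, e5], [e6, e7, e8]], [], [], (nat_lit 14), (nat_lit 0xffffff000000000fff), (nat_lit 0), (nat_lit 7), (nat_lit 5)⟩, [], ⟨(nat_lit 3456), [], [], true⟩, [⟨[(nat_lit 1), (nat_lit 16), (nat_lit 17), (nat_lit 33), (nat_lit 256), (nat_lit 257), (nat_lit 258), (nat_lit 272), (nat_lit 273), (nat_lit 273), (nat_lit 274), (nat_lit 289), (nat_lit 290), (nat_lit 306), (nat_lit 528), (nat_lit 529), (nat_lit 530), (nat_lit 531), (nat_lit 545), (nat_lit 801)], [(nat_lit 1), (nb (nat_lit 1) (nat_lit 1024) (nat_lit 2)), (nat_lit 0)], (nat_lit 1), (nat_lit 0)⟩]⟩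
def f80 : Fc := ⟨true, ⟨[[e22, e23, e19, e20, e21], [e3, e4, e5], [e6, e7, e8]], [], [], (nat_lit 11), (nat_lit 0x3ffff000000000fff), (nat_lit 0), (nat_lit 10), (nat_lit 4)⟩, [⟨(nat_lit 274), (nat_lit 0)⟩], ⟨(nat_lit 128), [], [], true⟩, [⟨[(nat_lit 1), (nat_lit 16), (nat_lit 17), (nat_lit 33), (nat_lit 256), (nat_lit 257), (nat_lit 258), (nat_lit 272), (nat_lit 273), (nat_lit 273), (nat_lit 274), (nat_lit 289), (nat_lit 290), (nat_lit 306), (nat_lit 528), (nat_lit 529), (nat_lit 530), (nat_lit 531), (nat_lit 545), (nat_lit 801)], [(nat_lit 1), (nb (nat_lit 1) (nat_lit 1024) (nat_lit 2)), (nat_lit 0)], (nat_lit 1), (nat_lit 0)⟩]⟩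
def f81 : Fc := ⟨true, ⟨[[e22, e23, e19, e20, e21], [e3, e4, e5], [e6, e7, e8]], [], [], (nat_lit 11), (nat_lit 0x3ffff000000000fff), (nat_lit 0), (nat_lit 10), (nat_lit 4)⟩, [], ⟨(nat_lit 128), [], [], true⟩, [⟨[(nat_lit 1), (nat_lit 16), (nat_lit 17), (nat_lit 33), (nat_lit 256), (nat_lit 257), (nat_lit 258), (nat_lit 272), (nat_lit 273), (nat_lit 273), (nat_lit 274), (nat_lit 289), (nat_lit 290), (nat_lit 306), (nat_lit 528), (nat_lit 529), (nat_lit 530), (nat_lit 531), (nat_lit 545), (nat_lit 801)], [(nat_lit 1), (nb (nat_lit 1) (nat_lit 1024) (nat_lit 2)), (nat_lit 0)], (nat_lit 1), (nat_lit 0)⟩]⟩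
def f82 : Fc := ⟨true, ⟨[[e27, e28, e29], [e22, e23, e30, e31, e32], [e3, e4, e5], [e6, e7, e8]], [], [], (nat_lit 14), (nat_lit 0xffffff000000000fff), (nat_lit 0), (nat_lit 7), (nat_lit 5)⟩, [], ⟨(nat_lit 3456), [], [], true⟩, [⟨[(nat_lit 1), (nat_lit 16), (nat_lit 17), (nat_lit 18), (nat_lit 256), (nat_lit 257), (nat_lit 272), (nat_lit 273), (nat_lit 273), (nat_lit 274), (nat_lit 288), (nat_lit 289), (nat_lit 290), (nat_lit 291), (nat_lit 513), (nat_lit 529), (nat_lit 530), (nat_lit 545), (nat_lit 561), (nat_lit 786)], [(nat_lit 1), (nb (nat_lit 1) (nat_lit 1024) (nat_lit 2)), (nat_lit 0)], (nat_lit 1), (nat_lit 0)⟩]⟩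
def f83 : Fc := ⟨true, ⟨[[e22, e23, e30, e31, e32], [e3, e4, e5], [e6, e7, e8]], [], [], (nat_lit 11), (nat_lit 0x3ffff000000000fff), (nat_lit 0), (nat_lit 10), (nat_lit 4)⟩, [⟨(nat_lit 274), (nat_lit 0)⟩], ⟨(nat_lit 128), [], [], true⟩, [⟨[(nat_lit 1), (nat_lit 16), (nat_lit 17), (nat_lit 18), (nat_lit 256), (nat_lit 257), (nat_lit 272), (nat_lit 273), (nat_lit 273), (nat_lit 274), (nat_lit 288), (nat_lit 289), (nat_lit 290), (nat_lit 291), (nat_lit 513), (nat_lit 529), (nat_lit 530), (nat_lit 545), (nat_lit 561), (nat_lit 786)], [(nat_lit 1), (nb (nat_lit 1) (nat_lit 1024) (nat_lit 2)), (nat_lit 0)], (nat_lit 1), (nat_lit 0)⟩]⟩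
def f84 : Fc := ⟨true, ⟨[[e22, e23, e30, e31, e32], [e3, e4, e5], [e6, e7, e8]], [], [], (nat_lit 11), (nat_lit 0x3ffff000000000fff), (nat_lit 0), (nat_lit 10), (nat_lit 4)⟩, [], ⟨(nat_lit 128), [], [], true⟩, [⟨[(nat_lit 1), (nat_lit 16), (nat_lit 17), (nat_lit 18), (nat_lit 256), (nat_lit 257), (nat_lit 272), (nat_lit 273), (nat_lit 273), (nat_lit 274), (nat_lit 288), (nat_lit 289), (nat_lit 290), (nat_lit 291), (nat_lit 513), (nat_lit 529), (nat_lit 530), (nat_lit 545), (nat_lit 561), (nat_lit 786)], [(nat_lit 1), (nb (nat_lit 1) (nat_lit 1024) (nat_lit 2)), (nat_lit 0)], (nat_lit 1), (nat_lit 0)⟩]⟩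
def f85 : Fc := ⟨true, ⟨[[e33, e34, e35], [e22, e23, e30, e31, e32, e36, e37, e38], [e3, e4, e5], [e6, e7, e8]], [], [], (nat_lit 17), (nat_lit 0x3fffffff000000000fff), (nat_lit 0), (nat_lit 4), (nat_lit 5)⟩, [⟨(nat_lit 290), (nat_lit 0)⟩], ⟨(nat_lit 432000), [⟨(nb (nat_lit 2) (nat_lit 512) (nat_lit 1)), (nb (nat_lit 2) (nat_lit 2048) (nat_lit 0)), (nat_lit 5), (nat_lit 15)⟩], [], true⟩, []⟩
def f86 : Fc := ⟨true, ⟨[[e33, e34, e35], [e22, e23, e30, e31, e32, e36, e37, e38], [e3, e4, e5], [e6, e7, e8]], [], [], (nat_lit 17), (nat_lit 0x3fffffff000000000fff), (nat_lit 0), (nat_lit 4), (nat_lit 5)⟩, [], ⟨(nat_lit 432000), [], [], true⟩, []⟩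
def f87 : Fc := ⟨true, ⟨[[e3, e4, e5], [e6, e7, e8]], [], [], (nat_lit 6), (nat_lit 4095), (nat_lit 0), (nat_lit 15), (nat_lit 3)⟩, [⟨(nat_lit 273), (nat_lit 1)⟩, ⟨(nat_lit 33), (nat_lit 0)⟩, ⟨(nat_lit 18), (nat_lit 0)⟩, ⟨(nat_lit 273), (nat_lit 2)⟩], ⟨(nat_lit 128), [], [], true⟩, [⟨[(nat_lit 1), (nat_lit 16), (nat_lit 17), (nat_lit 18), (nat_lit 256), (nat_lit 257), (nat_lit 272), (nat_lit 273), (nat_lit 273), (nat_lit 274), (nat_lit 288), (nat_lit 289), (nat_lit 290), (nat_lit 291), (nat_lit 513), (nat_lit 529), (nat_lit 530), (nat_lit 545), (nat_lit 561), (nat_lit 786)], [(nat_lit 1), (nb (nat_lit 1) (nat_lit 1024) (nat_lit 2)), (nat_lit 0)], (nat_lit 1), (nat_lit 0)⟩, ⟨[(nat_lit 1), (nat_lit 16), (nat_lit 17), (nat_lit 33), (nat_lit 256), (nat_lit 257), (nat_lit 258), (nat_lit 272), (nat_lit 273), (nat_lit 273), (nat_lit 274),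 (nat_lit 289), (nat_lit 290), (nat_lit 306), (nat_lit 528), (nat_lit 529), (nat_lit 530), (nat_lit 531), (nat_lit 545), (nat_lit 801)], [(nat_lit 1), (nb (nat_lit 1) (nat_lit 1024) (nat_lit 2)), (nat_lit 0)], (nat_lit 1), (nat_lit 0)⟩]⟩
def f88 : Fc := ⟨true, ⟨[[e3, e4, e5], [e6, e7, e8]], [], [], (nat_lit 6), (nat_lit 4095), (nat_lit 0), (nat_lit 15), (nat_lit 3)⟩, [], ⟨(nat_lit 128), [], [], true⟩, [⟨[(nat_lit 1), (nat_lit 16), (nat_lit 17), (nat_lit 33), (nat_lit 256), (nat_lit 257), (nat_lit 258), (nat_lit 272), (nat_lit 273), (nat_lit 273), (nat_lit 274), (nat_lit 289), (nat_lit 290), (nat_lit 306), (nat_lit 528), (nat_lit 529), (nat_lit 530), (nat_lit 531), (nat_lit 545), (nat_lit 801)], [(nat_lit 1), (nb (nat_lit 1) (nat_lit 1024) (nat_lit 2)), (nat_lit 0)], (nat_lit 1), (nat_lit 0)⟩, ⟨[(nat_lit 1), (nat_lit 16), (nat_lit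 17), (nat_lit 18), (nat_lit 256), (nat_lit 257), (nat_lit 272), (nat_lit 273), (nat_lit 273), (nat_lit 274), (nat_lit 288), (nat_lit 289), (nat_lit 290), (nat_lit 291), (nat_lit 513), (nat_lit 529), (nat_lit 530), (nat_lit 545), (nat_lit 561), (nat_lit 786)], [(nat_lit 1), (nb (nat_lit 1) (nat_lit 1024) (nat_lit 2)), (nat_lit 0)], (nat_lit 1), (nat_lit 0)⟩]⟩
def f89 : Fc := ⟨true, ⟨[[e6, e7, e8]], [], [], (nat_lit 3), (nat_lit 63), (nat_lit 0), (nat_lit 18), (nat_lit 2)⟩, [], ⟨(nat_lit 128), [], [], true⟩, [⟨[(nat_lit 1), (nat_lit 16), (nat_lit 17), (nat_lit 18), (nat_lit 256), (nat_lit 257), (nat_lit 272), (nat_lit 273), (nat_lit 273), (nat_lit 274), (nat_lit 288), (nat_lit 289), (nat_lit 290), (nat_lit 291), (nat_lit 513), (nat_lit 529), (nat_lit 530), (nat_lit 545), (nat_lit 561), (nat_lit 786)], [(nat_lit 1), (nb (nat_lit 1)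 (nat_lit 1024) (nat_lit 2)), (nat_lit 0)], (nat_lit 1), (nat_lit 0)⟩, ⟨[(nat_lit 1), (nat_lit 16), (nat_lit 17), (nat_lit 33), (nat_lit 256), (nat_lit 257), (nat_lit 258), (nat_lit 272), (nat_lit 273), (nat_lit 273), (nat_lit 274), (nat_lit 289), (nat_lit 290), (nat_lit 306), (nat_lit 528), (nat_lit 529), (nat_lit 530), (nat_lit 531), (nat_lit 545), (nat_lit 801)], [(nat_lit 1), (nb (nat_lit 1) (nat_lit 1024) (nat_lit 2)), (nat_lit 0)], (nat_lit 1), (nat_lit 0)⟩]⟩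
def f90 : Fc := ⟨true, ⟨[[e39, e40, e41], [e42, e43, e44], [e6, e7, e8, e45]], [], [], (nat_lit 10), (nat_lit 0x3f000000fff03f), (nat_lit 0), (nat_lit 11), (nat_lit 4)⟩, [], ⟨(nat_lit 128), [], [], true⟩, []⟩
def f91 : Fc := ⟨true, ⟨[[e46, e47, e48], [e42, e43, e44], [e6, e7, e8, e45]], [], [], (nat_lit 10), (nat_lit 0x3f000000fff03f), (nat_lit 0), (nat_lit 11), (nat_lit 4)⟩, [], ⟨(nat_lit 128), [], [], true⟩, []⟩
def f92 : Fc := ⟨true, ⟨[[e49, e50, e51], [e46, e47, e48, e52, e53, e54], [e42, e43, e44], [e6, e7, e8, e45]], [], [], (nat_lit 16), (nat_lit 0x3ffff000000fff03f), (nat_lit 0), (nat_lit 5), (nat_lit 5)⟩, [], ⟨(nat_lit 3456), [], [], true⟩, []⟩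
def f93 : Fc := ⟨true, ⟨[[e46, e47, e48, e52, e53, e54], [e42, e43, e44], [e6, e7, e8, e45]], [], [], (nat_lit 13), (nat_lit 0xfff000000fff03f), (nat_lit 0), (nat_lit 8), (nat_lit 4)⟩, [⟨(nat_lit 8209), (nat_lit 0)⟩, ⟨(nat_lit 12289), (nat_lit 0)⟩], ⟨(nat_lit 128), [], [], true⟩, []⟩
def f94 : Fc := ⟨true, ⟨[[e55, e56, e57, e58], [e46, e47, e48, e52, e53, e54], [e42, e43, e44], [e6, e7, e8, e45]], [], [], (nat_lit 17), (nat_lit 0xffffff000000fff03f), (nat_lit 0), (nat_lit 4), (nat_lit 5)⟩, [], ⟨(nat_lit 3456), [], [], true⟩, []⟩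
def f95 : Fc := ⟨true, ⟨[[e46, e47, e48, e52, e53, e54], [e42, e43, e44], [e6, e7, e8, e45]], [], [], (nat_lit 13), (nat_lit 0xfff000000fff03f), (nat_lit 0), (nat_lit 8), (nat_lit 4)⟩, [], ⟨(nat_lit 128), [], [], true⟩, []⟩
def f96 : Fc := ⟨true, ⟨[[e59, e60, e61], [e42, e43, e44], [e6, e7, e8, e45]], [], [], (nat_lit 10), (nat_lit 0x3f000000fff03f), (nat_lit 0), (nat_lit 11), (nat_lit 4)⟩, [], ⟨(nat_lit 128), [], [], true⟩, []⟩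
def f97 : Fc := ⟨true, ⟨[[e42, e43, e44], [e6, e7, e8, e45]], [e62, e63, e64, e61, e60, e59], [], (nat_lit 13), (nat_lit 0xfff000000fff03f), (nat_lit 0), (nat_lit 8), (nat_lit 3)⟩, [⟨(nat_lit 8193), (nat_lit 0)⟩], ⟨(nat_lit 128), [], [], true⟩, []⟩
def f98 : Fc := ⟨true, ⟨[[e42, e43, e44], [e6, e7, e8, e45]], [], [], (nat_lit 7), (nat_lit 0xfff03f), (nat_lit 0), (nat_lit 14), (nat_lit 3)⟩, [], ⟨(nat_lit 128), [], [], true⟩, []⟩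
def f99 : Fc := ⟨true, ⟨[[e0, e1, e2], [e3, e4, e5], [e6, e7, e8, e45]], [], [], (nat_lit 10), (nat_lit 0x3f00000003ffff), (nat_lit 0), (nat_lit 11), (nat_lit 4)⟩, [], ⟨(nat_lit 128), [], [], true⟩, []⟩
def f100 : Fc := ⟨true, ⟨[[e9, e10, e11], [e3, e4, e5], [e6, e7, e8, e45]], [], [], (nat_lit 10), (nat_lit 0x3f00000003ffff), (nat_lit 0), (nat_lit 11), (nat_lit 4)⟩, [], ⟨(nat_lit 128), [], [], true⟩, []⟩
def f101 : Fc := ⟨true, ⟨[[e12], [e3, e4, e5], [e6, e7, e8, e45]], [], [], (nat_lit 8), (nat_lit 0x3f00000003ffff), (nat_lit 0), (nat_lit 13), (nat_lit 4)⟩, [], ⟨(nat_lit 128), [], [], true⟩, []⟩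
def f102 : Fc := ⟨true, ⟨[[e12, e13, e14, e15], [e3, e4, e5], [e6, e7, e8, e45]], [], [], (nat_lit 11), (nat_lit 0xfff00000003ffff), (nat_lit 0), (nat_lit 10), (nat_lit 4)⟩, [], ⟨(nat_lit 128), [], [], true⟩, []⟩
def f103 : Fc := ⟨true, ⟨[[e12, e16, e17, e18], [e3, e4, e5], [e6, e7, e8, e45]], [], [], (nat_lit 11), (nat_lit 0xfff00000003ffff), (nat_lit 0), (nat_lit 10), (nat_lit 4)⟩, [], ⟨(nat_lit 128), [], [], true⟩, []⟩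
def f104 : Fc := ⟨true, ⟨[[e22], [e3, e4, e5], [e6, e7, e8, e45]], [], [], (nat_lit 8), (nat_lit 0x3f00000003ffff), (nat_lit 0), (nat_lit 13), (nat_lit 4)⟩, [], ⟨(nat_lit 128), [], [], true⟩, []⟩
def f105 : Fc := ⟨true, ⟨[[e22, e13, e14, e15], [e3, e4, e5], [e6, e7, e8, e45]], [], [], (nat_lit 11), (nat_lit 0xfff00000003ffff), (nat_lit 0), (nat_lit 10), (nat_lit 4)⟩, [], ⟨(nat_lit 128), [], [], true⟩, []⟩
def f106 : Fc := ⟨true, ⟨[[e22, e16, e17, e18], [e3, e4, e5], [e6, e7, e8, e45]], [], [], (nat_lit 11), (nat_lit 0xfff00000003ffff), (nat_lit 0), (nat_lit 10), (nat_lit 4)⟩, [], ⟨(nat_lit 128), [], [], true⟩, []⟩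
def f107 : Fc := ⟨true, ⟨[[e22, e23], [e3, e4, e5], [e6, e7, e8, e45]], [], [], (nat_lit 9), (nat_lit 0xfff00000003ffff), (nat_lit 0), (nat_lit 12), (nat_lit 4)⟩, [], ⟨(nat_lit 128), [], [], true⟩, []⟩
def f108 : Fc := ⟨true, ⟨[[e22, e23, e19, e20, e21], [e3, e4, e5], [e6, e7, e8, e45]], [], [], (nat_lit 12), (nat_lit 0x3ffff00000003ffff), (nat_lit 0), (nat_lit 9), (nat_lit 4)⟩, [], ⟨(nat_lit 128), [], [], true⟩, [⟨[(nat_lit 1), (nat_lit 16), (nat_lit 17), (nat_lit 33), (nat_lit 256), (nat_lit 257), (nat_lit 258), (nat_lit 272), (nat_lit 273), (nat_lit 273), (nat_lit 274), (nat_lit 289), (nat_lit 290), (nat_lit 306), (nat_lit 528), (nat_lit 529), (nat_lit 530), (nat_lit 531), (nat_lit 545), (nat_lit 801), (nat_lit 4096)], [(nat_lit 1), (nb (nat_lit 1) (nat_lit 1024) (nat_lit 2)), (nat_lit 0)], (nat_lit 1), (nat_lit 0)⟩]⟩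
def f109 : Fc := ⟨true, ⟨[[e22, e23, e30, e31, e32], [e3, e4, e5], [e6, e7, e8, e45]], [], [], (nat_lit 12), (nat_lit 0x3ffff00000003ffff), (nat_lit 0), (nat_lit 9), (nat_lit 4)⟩, [], ⟨(nat_lit 128), [], [], true⟩, [⟨[(nat_lit 1), (nat_lit 16), (nat_lit 17), (nat_lit 18), (nat_lit 256), (nat_lit 257), (nat_lit 272), (nat_lit 273), (nat_lit 273), (nat_lit 274), (nat_lit 288), (nat_lit 289), (nat_lit 290), (nat_lit 291), (nat_lit 513), (nat_lit 529), (nat_lit 530), (nat_lit 545), (nat_lit 561), (nat_lit 786), (nat_lit 4096)], [(nat_lit 1), (nb (nat_lit 1) (nat_lit 1024) (nat_lit 2)), (nat_lit 0)], (nat_lit 1), (nat_lit 0)⟩]⟩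
def f110 : Fc := ⟨true, ⟨[[e3, e4, e5], [e6, e7, e8, e45]], [], [], (nat_lit 7), (nat_lit 262143), (nat_lit 0), (nat_lit 14), (nat_lit 3)⟩, [⟨(nat_lit 273), (nat_lit 1)⟩, ⟨(nat_lit 33), (nat_lit 0)⟩, ⟨(nat_lit 18), (nat_lit 0)⟩, ⟨(nat_lit 273), (nat_lit 2)⟩], ⟨(nat_lit 128), [], [], true⟩, [⟨[(nat_lit 1), (nat_lit 16), (nat_lit 17), (nat_lit 18), (nat_lit 256), (nat_lit 257), (nat_lit 272), (nat_lit 273), (nat_lit 273), (nat_lit 274), (nat_lit 288), (nat_lit 289), (nat_lit 290), (nat_lit 291), (nat_lit 513), (nat_lit 529), (nat_lit 530), (nat_lit 545), (nat_lit 561), (nat_lit 786), (nat_lit 4096)], [(nat_lit 1), (nb (nat_lit 1) (nat_lit 1024) (nat_lit 2)), (nat_lit 0)], (nat_lit 1), (nat_lit 0)⟩, ⟨[(nat_lit 1), (nat_lit 16), (nat_lit 17), (nat_lit 33), (nat_lit 256), (nat_lit 257), (nat_lit 258), (nat_lit 272), (nat_lit 273), (nat_lit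 273), (nat_lit 274), (nat_lit 289), (nat_lit 290), (nat_lit 306), (nat_lit 528), (nat_lit 529), (nat_lit 530), (nat_lit 531), (nat_lit 545), (nat_lit 801), (nat_lit 4096)], [(nat_lit 1), (nb (nat_lit 1) (nat_lit 1024) (nat_lit 2)), (nat_lit 0)], (nat_lit 1), (nat_lit 0)⟩]⟩
def f111 : Fc := ⟨true, ⟨[[e3, e4, e5], [e6, e7, e8, e45]], [], [], (nat_lit 7), (nat_lit 262143), (nat_lit 0), (nat_lit 14), (nat_lit 3)⟩, [], ⟨(nat_lit 128), [], [], true⟩, [⟨[(nat_lit 1), (nat_lit 16), (nat_lit 17), (nat_lit 33), (nat_lit 256), (nat_lit 257), (nat_lit 258), (nat_lit 272), (nat_lit 273), (nat_lit 273), (nat_lit 274), (nat_lit 289), (nat_lit 290), (nat_lit 306), (nat_lit 528), (nat_lit 529), (nat_lit 530), (nat_lit 531), (nat_lit 545), (nat_lit 801), (nat_lit 4096)], [(nat_lit 1), (nb (nat_lit 1) (nat_lit 1024) (nat_lit 2)), (nat_lit 0)], (nat_lit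 1), (nat_lit 0)⟩, ⟨[(nat_lit 1), (nat_lit 16), (nat_lit 17), (nat_lit 18), (nat_lit 256), (nat_lit 257), (nat_lit 272), (nat_lit 273), (nat_lit 273), (nat_lit 274), (nat_lit 288), (nat_lit 289), (nat_lit 290), (nat_lit 291), (nat_lit 513), (nat_lit 529), (nat_lit 530), (nat_lit 545), (nat_lit 561), (nat_lit 786), (nat_lit 4096)], [(nat_lit 1), (nb (nat_lit 1) (nat_lit 1024) (nat_lit 2)), (nat_lit 0)], (nat_lit 1), (nat_lit 0)⟩]⟩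
def f112 : Fc := ⟨true, ⟨[[e3, e4, e5, e42, e43, e44], [e6, e7, e8, e45]], [e65, e66, e67], [], (nat_lit 13), (nat_lit 0x3f000000ffffff), (nat_lit 0), (nat_lit 8), (nat_lit 3)⟩, [⟨(nat_lit 8193), (nat_lit 0)⟩], ⟨(nat_lit 128), [], [], true⟩, []⟩
def f113 : Fc := ⟨true, ⟨[[e67, e66, e65, e68, e69, e70], [e3, e4, e5, e42, e43, e44], [e6, e7, e8, e45]], [e71, e72], [], (nat_lit 18), (nat_lit 0xffffff000000ffffff), (nat_lit 0), (nat_lit 3), (nat_lit 4)⟩, [⟨(nat_lit 4369), (nat_lit 1)⟩, ⟨(nat_lit 8209), (nat_lit 0)⟩, ⟨(nat_lit 4129), (nat_lit 0)⟩, ⟨(nat_lit 4114), (nat_lit 0)⟩, ⟨(nat_lit 4369), (nat_lit 2)⟩], ⟨(nat_lit 128), [], [], true⟩, []⟩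
def f114 : Fc := ⟨true, ⟨[[e67, e66, e65, e68, e69, e70], [e3, e4, e5, e42, e43, e44], [e6, e7, e8, e45]], [e73], [], (nat_lit 17), (nat_lit 0x3ffff000000ffffff), (nat_lit 0), (nat_lit 4), (nat_lit 4)⟩, [⟨(nat_lit 4369), (nat_lit 1)⟩, ⟨(nat_lit 8209), (nat_lit 0)⟩, ⟨(nat_lit 4129), (nat_lit 0)⟩, ⟨(nat_lit 4114), (nat_lit 0)⟩, ⟨(nat_lit 4369), (nat_lit 2)⟩], ⟨(nat_lit 3456), [], [], true⟩, []⟩
def f115 : Fc := ⟨true, ⟨[[e67, e66, e65, e68, e69, e70], [e3, e4, e5, e42, e43, e44], [e6, e7, e8, e45]], [], [], (nat_lit 16), (nat_lit 0xfff000000ffffff), (nat_lit 0), (nat_lit 5), (nat_lit 4)⟩, [⟨(nat_lit 4369), (nat_lit 0)⟩, ⟨(nat_lit 8209), (nat_lit 0)⟩, ⟨(nat_lit 4129), (nat_lit 0)⟩, ⟨(nat_lit 4114), (nat_lit 0)⟩, ⟨(nat_lit 4369), (nat_lit 2)⟩, ⟨(nat_lit 4369), (nat_lit 1)⟩], ⟨(nat_lit 128), [], [], true⟩, []⟩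
def f116 : Fc := ⟨true, ⟨[[e67, e66, e65, e68, e69, e70], [e3, e4, e5, e42, e43, e44], [e6, e7, e8, e45]], [], [], (nat_lit 16), (nat_lit 0xfff000000ffffff), (nat_lit 0), (nat_lit 5), (nat_lit 4)⟩, [], ⟨(nat_lit 128), [], [], true⟩, []⟩
def f117 : Fc := ⟨true, ⟨[[e74, e75, e76], [e3, e4, e5, e42, e43, e44], [e6, e7, e8, e45]], [], [], (nat_lit 13), (nat_lit 0x3f000000ffffff), (nat_lit 0), (nat_lit 8), (nat_lit 4)⟩, [], ⟨(nat_lit 3456), [], [], true⟩, []⟩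
def f118 : Fc := ⟨true, ⟨[[e74, e75, e76, e52, e53, e54], [e3, e4, e5, e42, e43, e44], [e6, e7, e8, e45]], [], [], (nat_lit 16), (nat_lit 0xfff000000ffffff), (nat_lit 0), (nat_lit 5), (nat_lit 4)⟩, [⟨(nat_lit 8209), (nat_lit 0)⟩, ⟨(nat_lit 12289), (nat_lit 0)⟩], ⟨(nat_lit 3456), [], [], true⟩, []⟩
def f119 : Fc := ⟨true, ⟨[[e74, e75, e76, e52, e53, e54], [e3, e4, e5, e42, e43, e44], [e6, e7, e8, e45]], [], [], (nat_lit 16), (nat_lit 0xfff000000ffffff), (nat_lit 0), (nat_lit 5), (nat_lit 4)⟩, [⟨(nat_lit 4369), (nat_lit 0)⟩, ⟨(nat_lit 12289), (nat_lit 0)⟩, ⟨(nat_lit 8209), (nat_lit 0)⟩, ⟨(nat_lit 4129), (nat_lit 0)⟩, ⟨(nat_lit 4114), (nat_lit 0)⟩, ⟨(nat_lit 4369), (nat_lit 2)⟩, ⟨(nat_lit 4369), (nat_lit 1)⟩], ⟨(nat_lit 3456), [], [], true⟩, []⟩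
def f120 : Fc := ⟨true, ⟨[[e74, e75, e76, e52, e53, e54], [e3, e4, e5, e42, e43, e44], [e6, e7, e8, e45]], [], [], (nat_lit 16), (nat_lit 0xfff000000ffffff), (nat_lit 0), (nat_lit 5), (nat_lit 4)⟩, [], ⟨(nat_lit 3456), [], [], true⟩, []⟩
def f121 : Fc := ⟨true, ⟨[[e59, e60, e61, e77, e78, e79], [e3, e4, e5, e42, e43, e44], [e6, e7, e8, e45]], [], [], (nat_lit 16), (nat_lit 0xfff000000ffffff), (nat_lit 0), (nat_lit 5), (nat_lit 4)⟩, [], ⟨(nat_lit 3456), [], [], true⟩, []⟩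
def f122 : Fc := ⟨true, ⟨[[e3, e4, e5, e42, e43, e44], [e6, e7, e8, e45]], [], [], (nat_lit 10), (nat_lit 0xffffff), (nat_lit 0), (nat_lit 11), (nat_lit 3)⟩, [⟨(nat_lit 4098), (nat_lit 0)⟩, ⟨(nat_lit 8193), (nat_lit 0)⟩, ⟨(nat_lit 4113), (nat_lit 0)⟩], ⟨(nat_lit 128), [], [], true⟩, []⟩
def f123 : Fc := ⟨true, ⟨[[e0, e1, e2, e77, e78, e79], [e3, e4, e5, e42, e43, e44], [e6, e7, e8, e45]], [], [], (nat_lit 16), (nat_lit 0xfff000000ffffff), (nat_lit 0), (nat_lit 5), (nat_lit 4)⟩, [], ⟨(nat_lit 3456), [], [], true⟩, []⟩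
def f124 : Fc := ⟨true, ⟨[[e3, e4, e5, e42, e43, e44], [e6, e7, e8, e45]], [e2, e1, e0], [], (nat_lit 13), (nat_lit 0x3f000000ffffff), (nat_lit 0), (nat_lit 8), (nat_lit 3)⟩, [⟨(nat_lit 4113), (nat_lit 0)⟩, ⟨(nat_lit 8193), (nat_lit 0)⟩], ⟨(nat_lit 128), [], [], true⟩, []⟩
def f125 : Fc := ⟨true, ⟨[[e3, e4, e5, e42, e43, e44], [e6, e7, e8, e45]], [], [], (nat_lit 10), (nat_lit 0xffffff), (nat_lit 0), (nat_lit 11), (nat_lit 3)⟩, [⟨(nat_lit 33), (nat_lit 0)⟩, ⟨(nat_lit 8193), (nat_lit 0)⟩, ⟨(nat_lit 4098), (nat_lit 0)⟩, ⟨(nat_lit 4113), (nat_lit 0)⟩], ⟨(nat_lit 128), [], [], true⟩, []⟩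
def f126 : Fc := ⟨true, ⟨[[e9, e10, e11, e77, e78, e79], [e3, e4, e5, e42, e43, e44], [e6, e7, e8, e45]], [], [], (nat_lit 16), (nat_lit 0xfff000000ffffff), (nat_lit 0), (nat_lit 5), (nat_lit 4)⟩, [], ⟨(nat_lit 3456), [], [], true⟩, []⟩
def f127 : Fc := ⟨true, ⟨[[e3, e4, e5, e42, e43, e44], [e6, e7, e8, e45]], [e11, e10, e9], [], (nat_lit 13), (nat_lit 0x3f000000ffffff), (nat_lit 0), (nat_lit 8), (nat_lit 3)⟩, [⟨(nat_lit 4113), (nat_lit 0)⟩, ⟨(nat_lit 8193), (nat_lit 0)⟩], ⟨(nat_lit 128), [], [], true⟩, []⟩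
def f128 : Fc := ⟨true, ⟨[[e3, e4, e5, e42, e43, e44], [e6, e7, e8, e45]], [], [], (nat_lit 10), (nat_lit 0xffffff), (nat_lit 0), (nat_lit 11), (nat_lit 3)⟩, [⟨(nat_lit 18), (nat_lit 0)⟩, ⟨(nat_lit 8193), (nat_lit 0)⟩, ⟨(nat_lit 4098), (nat_lit 0)⟩, ⟨(nat_lit 4113), (nat_lit 0)⟩, ⟨(nat_lit 33), (nat_lit 0)⟩], ⟨(nat_lit 128), [], [], true⟩, []⟩
def f129 : Fc := ⟨true, ⟨[[e12], [e3, e4, e5, e42, e43, e44], [e6, e7, e8, e45]], [], [], (nat_lit 11), (nat_lit 0x3f000000ffffff), (nat_lit 0), (nat_lit 10), (nat_lit 4)⟩, [], ⟨(nat_lit 128), [], [], true⟩, []⟩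
def f130 : Fc := ⟨true, ⟨[[e12, e80, e81, e82, e83, e84, e85], [e3, e4, e5, e42, e43, e44], [e6, e7, e8, e45]], [e86], [], (nat_lit 18), (nat_lit 0xffffff000000ffffff), (nat_lit 0), (nat_lit 3), (nat_lit 4)⟩, [⟨(nat_lit 4369), (nat_lit 2)⟩, ⟨(nat_lit 8209), (nat_lit 0)⟩, ⟨(nat_lit 4129), (nat_lit 0)⟩, ⟨(nat_lit 4114), (nat_lit 0)⟩], ⟨(nat_lit 3456), [], [], true⟩, []⟩
def f131 : Fc := ⟨true, ⟨[[e12, e80, e81, e82, e83, e84, e85], [e3, e4, e5, e42, e43, e44], [e6, e7, e8, e45]], [e86], [], (nat_lit 18), (nat_lit 0xffffff000000ffffff), (nat_lit 0), (nat_lit 3), (nat_lit 4)⟩, [⟨(nat_lit 4369), (nat_lit 1)⟩, ⟨(nat_lit 8209), (nat_lit 0)⟩, ⟨(nat_lit 4129), (nat_lit 0)⟩, ⟨(nat_lit 4114), (nat_lit 0)⟩, ⟨(nat_lit 4369), (nat_lit 2)⟩], ⟨(nat_lit 3456), [], [], true⟩, []⟩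
def f132 : Fc := ⟨true, ⟨[[e12, e80, e81, e82, e83, e84, e85], [e3, e4, e5, e42, e43, e44], [e6, e7, e8, e45]], [], [], (nat_lit 17), (nat_lit 0x3ffff000000ffffff), (nat_lit 0), (nat_lit 4), (nat_lit 4)⟩, [⟨(nat_lit 4369), (nat_lit 0)⟩, ⟨(nat_lit 8209), (nat_lit 0)⟩, ⟨(nat_lit 4129), (nat_lit 0)⟩, ⟨(nat_lit 4114), (nat_lit 0)⟩, ⟨(nat_lit 4369), (nat_lit 2)⟩, ⟨(nat_lit 4369), (nat_lit 1)⟩], ⟨(nat_lit 128), [], [], true⟩, []⟩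
def f133 : Fc := ⟨true, ⟨[[e12, e80, e81, e82, e83, e84, e85], [e3, e4, e5, e42, e43, e44], [e6, e7, e8, e45]], [], [], (nat_lit 17), (nat_lit 0x3ffff000000ffffff), (nat_lit 0), (nat_lit 4), (nat_lit 4)⟩, [], ⟨(nat_lit 128), [], [], true⟩, []⟩
def f134 : Fc := ⟨true, ⟨[[e12, e77, e78, e79], [e3, e4, e5, e42, e43, e44], [e6, e7, e8, e45]], [], [], (nat_lit 14), (nat_lit 0xfff000000ffffff), (nat_lit 0), (nat_lit 7), (nat_lit 4)⟩, [⟨(nat_lit 4369), (nat_lit 0)⟩, ⟨(nat_lit 8209), (nat_lit 0)⟩, ⟨(nat_lit 4129), (nat_lit 0)⟩, ⟨(nat_lit 4114), (nat_lit 0)⟩, ⟨(nat_lit 4369), (nat_lit 2)⟩, ⟨(nat_lit 4369), (nat_lit 1)⟩], ⟨(nat_lit 3456), [], [], true⟩, []⟩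
def f135 : Fc := ⟨true, ⟨[[e12, e77, e78, e79], [e3, e4, e5, e42, e43, e44], [e6, e7, e8, e45]], [], [], (nat_lit 14), (nat_lit 0xfff000000ffffff), (nat_lit 0), (nat_lit 7), (nat_lit 4)⟩, [], ⟨(nat_lit 3456), [], [], true⟩, []⟩
def f136 : Fc := ⟨true, ⟨[[e12, e77, e78, e79, e87, e88, e89], [e3, e4, e5, e42, e43, e44], [e6, e7, e8, e45]], [], [], (nat_lit 17), (nat_lit 0x3ffff000000ffffff), (nat_lit 0), (nat_lit 4), (nat_lit 4)⟩, [⟨(nat_lit 4369), (nat_lit 0)⟩, ⟨(nat_lit 12289), (nat_lit 0)⟩, ⟨(nat_lit 8209), (nat_lit 0)⟩, ⟨(nat_lit 4129), (nat_lit 0)⟩, ⟨(nat_lit 4114), (nat_lit 0)⟩, ⟨(nat_lit 4369), (nat_lit 2)⟩, ⟨(nat_lit 4369), (nat_lit 1)⟩], ⟨(nat_lit 3456), [], [], true⟩, []⟩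
def f137 : Fc := ⟨true, ⟨[[e12, e77, e78, e79, e87, e88, e89], [e3, e4, e5, e42, e43, e44], [e6, e7, e8, e45]], [], [], (nat_lit 17), (nat_lit 0x3ffff000000ffffff), (nat_lit 0), (nat_lit 4), (nat_lit 4)⟩, [], ⟨(nat_lit 3456), [], [], true⟩, []⟩
def f138 : Fc := ⟨true, ⟨[[e3, e4, e5, e42, e43, e44], [e6, e7, e8, e45]], [e12], [], (nat_lit 11), (nat_lit 0x3f000000ffffff), (nat_lit 0), (nat_lit 10), (nat_lit 3)⟩, [⟨(nat_lit 4113), (nat_lit 0)⟩, ⟨(nat_lit 8193), (nat_lit 0)⟩], ⟨(nat_lit 128), [], [], true⟩, []⟩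
def f139 : Fc := ⟨true, ⟨[[e12, e90, e91, e92, e93, e94, e95], [e3, e4, e5, e42, e43, e44], [e6, e7, e8, e45]], [], [], (nat_lit 17), (nat_lit 0x3ffff000000ffffff), (nat_lit 0), (nat_lit 4), (nat_lit 4)⟩, [], ⟨(nat_lit 3456), [], [], true⟩, []⟩
def f140 : Fc := ⟨true, ⟨[[e12, e13, e14, e15, e93, e94, e95], [e3, e4, e5, e42, e43, e44], [e6, e7, e8, e45]], [], [], (nat_lit 17), (nat_lit 0x3ffff000000ffffff), (nat_lit 0), (nat_lit 4), (nat_lit 4)⟩, [], ⟨(nat_lit 3456), [], [], true⟩, []⟩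
def f141 : Fc := ⟨true, ⟨[[e3, e4, e5, e42, e43, e44], [e6, e7, e8, e45]], [e12], [], (nat_lit 11), (nat_lit 0x3f000000ffffff), (nat_lit 0), (nat_lit 10), (nat_lit 3)⟩, [⟨(nat_lit 33), (nat_lit 0)⟩, ⟨(nat_lit 8193), (nat_lit 0)⟩, ⟨(nat_lit 4098), (nat_lit 0)⟩, ⟨(nat_lit 4113), (nat_lit 0)⟩], ⟨(nat_lit 128), [], [], true⟩, []⟩
def f142 : Fc := ⟨true, ⟨[[e12, e16, e17, e18, e93, e94, e95], [e3, e4, e5, e42, e43, e44], [e6, e7, e8, e45]], [], [], (nat_lit 17), (nat_lit 0x3ffff000000ffffff), (nat_lit 0), (nat_lit 4), (nat_lit 4)⟩, [], ⟨(nat_lit 3456), [], [], true⟩, []⟩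
def f143 : Fc := ⟨true, ⟨[[e3, e4, e5, e42, e43, e44], [e6, e7, e8, e45]], [e18, e17, e16, e12], [], (nat_lit 14), (nat_lit 0xfff000000ffffff), (nat_lit 0), (nat_lit 7), (nat_lit 3)⟩, [⟨(nat_lit 4113), (nat_lit 0)⟩, ⟨(nat_lit 8193), (nat_lit 0)⟩], ⟨(nat_lit 128), [], [], true⟩, []⟩
def f144 : Fc := ⟨true, ⟨[[e3, e4, e5, e42, e43, e44], [e6, e7, e8, e45]], [e12], [], (nat_lit 11), (nat_lit 0x3f000000ffffff), (nat_lit 0), (nat_lit 10), (nat_lit 3)⟩, [⟨(nat_lit 18), (nat_lit 0)⟩, ⟨(nat_lit 8193), (nat_lit 0)⟩, ⟨(nat_lit 4098), (nat_lit 0)⟩, ⟨(nat_lit 4113), (nat_lit 0)⟩, ⟨(nat_lit 33), (nat_lit 0)⟩], ⟨(nat_lit 128), [], [], true⟩, []⟩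
def f145 : Fc := ⟨true, ⟨[[e3, e4, e5, e42, e43, e44], [e6, e7, e8, e45]], [], [], (nat_lit 10), (nat_lit 0xffffff), (nat_lit 0), (nat_lit 11), (nat_lit 3)⟩, [⟨(nat_lit 273), (nat_lit 2)⟩, ⟨(nat_lit 8193), (nat_lit 0)⟩, ⟨(nat_lit 4098), (nat_lit 0)⟩, ⟨(nat_lit 4113), (nat_lit 0)⟩, ⟨(nat_lit 33), (nat_lit 0)⟩, ⟨(nat_lit 18), (nat_lit 0)⟩], ⟨(nat_lit 128), [], [], true⟩, []⟩
def f146 : Fc := ⟨true, ⟨[[e22], [e3, e4, e5, e42, e43, e44], [e6, e7, e8, e45]], [], [], (nat_lit 11), (nat_lit 0x3f000000ffffff), (nat_lit 0), (nat_lit 10), (nat_lit 4)⟩, [], ⟨(nat_lit 128), [], [], true⟩, []⟩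
def f147 : Fc := ⟨true, ⟨[[e22, e80, e81, e82, e83, e84, e85], [e3, e4, e5, e42, e43, e44], [e6, e7, e8, e45]], [e96], [], (nat_lit 18), (nat_lit 0xffffff000000ffffff), (nat_lit 0), (nat_lit 3), (nat_lit 4)⟩, [⟨(nat_lit 4369), (nat_lit 1)⟩, ⟨(nat_lit 8209), (nat_lit 0)⟩, ⟨(nat_lit 4129), (nat_lit 0)⟩, ⟨(nat_lit 4114), (nat_lit 0)⟩, ⟨(nat_lit 4369), (nat_lit 2)⟩], ⟨(nat_lit 128), [], [], true⟩, []⟩
def f148 : Fc := ⟨true, ⟨[[e22, e80, e81, e82, e83, e84, e85], [e3, e4, e5, e42, e43, e44], [e6, e7, e8, e45]], [e86], [], (nat_lit 18), (nat_lit 0xffffff000000ffffff), (nat_lit 0), (nat_lit 3), (nat_lit 4)⟩, [⟨(nat_lit 4369), (nat_lit 1)⟩, ⟨(nat_lit 8209), (nat_lit 0)⟩, ⟨(nat_lit 4129), (nat_lit 0)⟩, ⟨(nat_lit 4114), (nat_lit 0)⟩, ⟨(nat_lit 4369), (nat_lit 2)⟩], ⟨(nat_lit 3456), [], [], true⟩, []⟩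
def f149 : Fc := ⟨true, ⟨[[e22, e80, e81, e82, e83, e84, e85], [e3, e4, e5, e42, e43, e44], [e6, e7, e8, e45]], [], [], (nat_lit 17), (nat_lit 0x3ffff000000ffffff), (nat_lit 0), (nat_lit 4), (nat_lit 4)⟩, [⟨(nat_lit 4369), (nat_lit 0)⟩, ⟨(nat_lit 8209), (nat_lit 0)⟩, ⟨(nat_lit 4129), (nat_lit 0)⟩, ⟨(nat_lit 4114), (nat_lit 0)⟩, ⟨(nat_lit 4369), (nat_lit 2)⟩, ⟨(nat_lit 4369), (nat_lit 1)⟩], ⟨(nat_lit 128), [], [], true⟩, []⟩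
def f150 : Fc := ⟨true, ⟨[[e22, e80, e81, e82, e83, e84, e85], [e3, e4, e5, e42, e43, e44], [e6, e7, e8, e45]], [], [], (nat_lit 17), (nat_lit 0x3ffff000000ffffff), (nat_lit 0), (nat_lit 4), (nat_lit 4)⟩, [], ⟨(nat_lit 128), [], [], true⟩, []⟩
def f151 : Fc := ⟨true, ⟨[[e22, e77, e78, e79], [e3, e4, e5, e42, e43, e44], [e6, e7, e8, e45]], [], [], (nat_lit 14), (nat_lit 0xfff000000ffffff), (nat_lit 0), (nat_lit 7), (nat_lit 4)⟩, [⟨(nat_lit 4369), (nat_lit 0)⟩, ⟨(nat_lit 8209), (nat_lit 0)⟩, ⟨(nat_lit 4129), (nat_lit 0)⟩, ⟨(nat_lit 4114), (nat_lit 0)⟩, ⟨(nat_lit 4369), (nat_lit 2)⟩, ⟨(nat_lit 4369), (nat_lit 1)⟩], ⟨(nat_lit 3456), [], [], true⟩, []⟩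
def f152 : Fc := ⟨true, ⟨[[e22, e77, e78, e79], [e3, e4, e5, e42, e43, e44], [e6, e7, e8, e45]], [], [], (nat_lit 14), (nat_lit 0xfff000000ffffff), (nat_lit 0), (nat_lit 7), (nat_lit 4)⟩, [], ⟨(nat_lit 3456), [], [], true⟩, []⟩
def f153 : Fc := ⟨true, ⟨[[e22, e77, e78, e79, e87, e88, e89], [e3, e4, e5, e42, e43, e44], [e6, e7, e8, e45]], [], [], (nat_lit 17), (nat_lit 0x3ffff000000ffffff), (nat_lit 0), (nat_lit 4), (nat_lit 4)⟩, [⟨(nat_lit 4369), (nat_lit 0)⟩, ⟨(nat_lit 12289), (nat_lit 0)⟩, ⟨(nat_lit 8209), (nat_lit 0)⟩, ⟨(nat_lit 4129), (nat_lit 0)⟩, ⟨(nat_lit 4114), (nat_lit 0)⟩, ⟨(nat_lit 4369), (nat_lit 2)⟩, ⟨(nat_lit 4369), (nat_lit 1)⟩], ⟨(nat_lit 3456), [], [], true⟩, []⟩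
def f154 : Fc := ⟨true, ⟨[[e22, e77, e78, e79, e87, e88, e89], [e3, e4, e5, e42, e43, e44], [e6, e7, e8, e45]], [], [], (nat_lit 17), (nat_lit 0x3ffff000000ffffff), (nat_lit 0), (nat_lit 4), (nat_lit 4)⟩, [], ⟨(nat_lit 3456), [], [], true⟩, []⟩
def f155 : Fc := ⟨true, ⟨[[e3, e4, e5, e42, e43, e44], [e6, e7, e8, e45]], [e22], [], (nat_lit 11), (nat_lit 0x3f000000ffffff), (nat_lit 0), (nat_lit 10), (nat_lit 3)⟩, [⟨(nat_lit 4113), (nat_lit 0)⟩, ⟨(nat_lit 8193), (nat_lit 0)⟩], ⟨(nat_lit 128), [], [], true⟩, []⟩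
def f156 : Fc := ⟨true, ⟨[[e22, e90, e91, e92, e93, e94, e95], [e3, e4, e5, e42, e43, e44], [e6, e7, e8, e45]], [], [], (nat_lit 17), (nat_lit 0x3ffff000000ffffff), (nat_lit 0), (nat_lit 4), (nat_lit 4)⟩, [], ⟨(nat_lit 3456), [], [], true⟩, []⟩
def f157 : Fc := ⟨true, ⟨[[e22, e13, e14, e15, e93, e94, e95], [e3, e4, e5, e42, e43, e44], [e6, e7, e8, e45]], [], [], (nat_lit 17), (nat_lit 0x3ffff000000ffffff), (nat_lit 0), (nat_lit 4), (nat_lit 4)⟩, [], ⟨(nat_lit 3456), [], [], true⟩, []⟩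
def f158 : Fc := ⟨true, ⟨[[e3, e4, e5, e42, e43, e44], [e6, e7, e8, e45]], [e22], [], (nat_lit 11), (nat_lit 0x3f000000ffffff), (nat_lit 0), (nat_lit 10), (nat_lit 3)⟩, [⟨(nat_lit 33), (nat_lit 0)⟩, ⟨(nat_lit 8193), (nat_lit 0)⟩, ⟨(nat_lit 4098), (nat_lit 0)⟩, ⟨(nat_lit 4113), (nat_lit 0)⟩], ⟨(nat_lit 128), [], [], true⟩, []⟩
def f159 : Fc := ⟨true, ⟨[[e22, e16, e17, e18, e93, e94, e95], [e3, e4, e5, e42, e43, e44], [e6, e7, e8, e45]], [], [], (nat_lit 17), (nat_lit 0x3ffff000000ffffff), (nat_lit 0), (nat_lit 4), (nat_lit 4)⟩, [], ⟨(nat_lit 3456), [], [], true⟩, []⟩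
def f160 : Fc := ⟨true, ⟨[[e3, e4, e5, e42, e43, e44], [e6, e7, e8, e45]], [e18, e17, e16, e22], [], (nat_lit 14), (nat_lit 0xfff000000ffffff), (nat_lit 0), (nat_lit 7), (nat_lit 3)⟩, [⟨(nat_lit 4113), (nat_lit 0)⟩, ⟨(nat_lit 8193), (nat_lit 0)⟩], ⟨(nat_lit 128), [], [], true⟩, []⟩
def f161 : Fc := ⟨true, ⟨[[e3, e4, e5, e42, e43, e44], [e6, e7, e8, e45]], [e22], [], (nat_lit 11), (nat_lit 0x3f000000ffffff), (nat_lit 0), (nat_lit 10), (nat_lit 3)⟩, [⟨(nat_lit 18), (nat_lit 0)⟩, ⟨(nat_lit 8193), (nat_lit 0)⟩, ⟨(nat_lit 4098), (nat_lit 0)⟩, ⟨(nat_lit 4113), (nat_lit 0)⟩, ⟨(nat_lit 33), (nat_lit 0)⟩], ⟨(nat_lit 128), [], [], true⟩, []⟩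
def f162 : Fc := ⟨true, ⟨[[e22, e23], [e3, e4, e5, e42, e43, e44], [e6, e7, e8, e45]], [], [], (nat_lit 12), (nat_lit 0xfff000000ffffff), (nat_lit 0), (nat_lit 9), (nat_lit 4)⟩, [], ⟨(nat_lit 128), [], [], true⟩, []⟩
def f163 : Fc := ⟨true, ⟨[[e22, e23, e97, e98, e99, e100, e101, e102], [e3, e4, e5, e42, e43, e44], [e6, e7, e8, e45]], [], [], (nat_lit 18), (nat_lit 0xffffff000000ffffff), (nat_lit 0), (nat_lit 3), (nat_lit 4)⟩, [⟨(nat_lit 4369), (nat_lit 0)⟩, ⟨(nat_lit 8209), (nat_lit 0)⟩, ⟨(nat_lit 4129), (nat_lit 0)⟩, ⟨(nat_lit 4114), (nat_lit 0)⟩, ⟨(nat_lit 4369), (nat_lit 2)⟩, ⟨(nat_lit 4369), (nat_lit 1)⟩, ⟨(nat_lit 274), (nat_lit 0)⟩], ⟨(nat_lit 128), [], [], true⟩, []⟩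
def f164 : Fc := ⟨true, ⟨[[e22, e23, e97, e98, e99, e100, e101, e102], [e3, e4, e5, e42, e43, e44], [e6, e7, e8, e45]], [], [], (nat_lit 18), (nat_lit 0xffffff000000ffffff), (nat_lit 0), (nat_lit 3), (nat_lit 4)⟩, [], ⟨(nat_lit 128), [], [], true⟩, []⟩
def f165 : Fc := ⟨true, ⟨[[e22, e23, e93, e94, e95], [e3, e4, e5, e42, e43, e44], [e6, e7, e8, e45]], [], [], (nat_lit 15), (nat_lit 0x3ffff000000ffffff), (nat_lit 0), (nat_lit 6), (nat_lit 4)⟩, [⟨(nat_lit 4369), (nat_lit 1)⟩, ⟨(nat_lit 8209), (nat_lit 0)⟩, ⟨(nat_lit 4129), (nat_lit 0)⟩, ⟨(nat_lit 4114), (nat_lit 0)⟩, ⟨(nat_lit 4369), (nat_lit 2)⟩, ⟨(nat_lit 274), (nat_lit 0)⟩], ⟨(nat_lit 3456), [], [], true⟩, []⟩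
def f166 : Fc := ⟨true, ⟨[[e22, e23, e93, e94, e95], [e3, e4, e5, e42, e43, e44], [e6, e7, e8, e45]], [e103], [], (nat_lit 16), (nat_lit 0xffffff000000ffffff), (nat_lit 0), (nat_lit 5), (nat_lit 4)⟩, [⟨(nat_lit 4369), (nat_lit 1)⟩, ⟨(nat_lit 8209), (nat_lit 0)⟩, ⟨(nat_lit 4129), (nat_lit 0)⟩, ⟨(nat_lit 4114), (nat_lit 0)⟩, ⟨(nat_lit 4369), (nat_lit 2)⟩, ⟨(nat_lit 274), (nat_lit 0)⟩], ⟨(nat_lit 3456), [], [], true⟩, [⟨[(nat_lit 1), (nat_lit 16), (nat_lit 17), (nat_lit 256), (nat_lit 257), (nat_lit 272), (nat_lit 273), (nat_lit 273), (nat_lit 4096), (nat_lit 4097), (nat_lit 4112), (nat_lit 4113), (nat_lit 4352), (nat_lit 4353), (nat_lit 4368), (nat_lit 4369), (nat_lit 4369), (nat_lit 4369), (nat_lit 4370), (nat_lit 4385), (nat_lit 4625)], [(nat_lit 1), (nb (nat_lit 1) (nat_lit 1024) (nat_lit 1)), (nat_lit 0)], (nat_lit 1), (nat_lit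 0)⟩]⟩
def f167 : Fc := ⟨true, ⟨[[e22, e23, e93, e94, e95], [e3, e4, e5, e42, e43, e44], [e6, e7, e8, e45]], [], [], (nat_lit 15), (nat_lit 0x3ffff000000ffffff), (nat_lit 0), (nat_lit 6), (nat_lit 4)⟩, [⟨(nat_lit 4369), (nat_lit 0)⟩, ⟨(nat_lit 8209), (nat_lit 0)⟩, ⟨(nat_lit 4129), (nat_lit 0)⟩, ⟨(nat_lit 4114), (nat_lit 0)⟩, ⟨(nat_lit 4369), (nat_lit 2)⟩, ⟨(nat_lit 4369), (nat_lit 1)⟩, ⟨(nat_lit 274), (nat_lit 0)⟩], ⟨(nat_lit 3456), [], [], true⟩, [⟨[(nat_lit 1), (nat_lit 16), (nat_lit 17), (nat_lit 256), (nat_lit 257), (nat_lit 272), (nat_lit 273), (nat_lit 273), (nat_lit 4096), (nat_lit 4097), (nat_lit 4112), (nat_lit 4113), (nat_lit 4352), (nat_lit 4353), (nat_lit 4368), (nat_lit 4369), (nat_lit 4369), (nat_lit 4369), (nat_lit 4370), (nat_lit 4385), (nat_lit 4625)], [(nat_lit 1), (nb (nat_lit 1) (nat_lit 1024) (nat_lit 1)), (nat_lit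 0)], (nat_lit 1), (nat_lit 0)⟩]⟩
def f168 : Fc := ⟨true, ⟨[[e22, e23, e93, e94, e95], [e3, e4, e5, e42, e43, e44], [e6, e7, e8, e45]], [], [], (nat_lit 15), (nat_lit 0x3ffff000000ffffff), (nat_lit 0), (nat_lit 6), (nat_lit 4)⟩, [], ⟨(nat_lit 3456), [], [], true⟩, [⟨[(nat_lit 1), (nat_lit 16), (nat_lit 17), (nat_lit 256), (nat_lit 257), (nat_lit 272), (nat_lit 273), (nat_lit 273), (nat_lit 4096), (nat_lit 4097), (nat_lit 4112), (nat_lit 4113), (nat_lit 4352), (nat_lit 4353), (nat_lit 4368), (nat_lit 4369), (nat_lit 4369), (nat_lit 4369), (nat_lit 4370), (nat_lit 4385), (nat_lit 4625)], [(nat_lit 1), (nb (nat_lit 1) (nat_lit 1024) (nat_lit 1)), (nat_lit 0)], (nat_lit 1), (nat_lit 0)⟩]⟩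
def f169 : Fc := ⟨true, ⟨[[e3, e4, e5, e42, e43, e44], [e6, e7, e8, e45]], [e95, e94, e93, e23, e22], [], (nat_lit 15), (nat_lit 0x3ffff000000ffffff), (nat_lit 0), (nat_lit 6), (nat_lit 3)⟩, [⟨(nat_lit 8193), (nat_lit 0)⟩], ⟨(nat_lit 3456), [], [], true⟩, []⟩
def f170 : Fc := ⟨true, ⟨[[e3, e4, e5, e42, e43, e44], [e6, e7, e8, e45]], [e23, e22], [], (nat_lit 12), (nat_lit 0xfff000000ffffff), (nat_lit 0), (nat_lit 9), (nat_lit 3)⟩, [⟨(nat_lit 4113), (nat_lit 0)⟩, ⟨(nat_lit 8193), (nat_lit 0)⟩], ⟨(nat_lit 128), [], [], true⟩, [⟨[(nat_lit 1), (nat_lit 16), (nat_lit 17), (nat_lit 256), (nat_lit 257), (nat_lit 272), (nat_lit 273), (nat_lit 273), (nat_lit 4096), (nat_lit 4097), (nat_lit 4112), (nat_lit 4113), (nat_lit 4352), (nat_lit 4353), (nat_lit 4368), (nat_lit 4369), (nat_lit 4369), (nat_lit 4369), (nat_lit 4370), (nat_lit 4385),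 (nat_lit 4625)], [(nat_lit 1), (nb (nat_lit 1) (nat_lit 1024) (nat_lit 1)), (nat_lit 0)], (nat_lit 1), (nat_lit 0)⟩]⟩
def f171 : Fc := ⟨true, ⟨[[e3, e4, e5, e42, e43, e44], [e6, e7, e8, e45]], [e23, e22], [], (nat_lit 12), (nat_lit 0xfff000000ffffff), (nat_lit 0), (nat_lit 9), (nat_lit 3)⟩, [⟨(nat_lit 4098), (nat_lit 0)⟩, ⟨(nat_lit 8193), (nat_lit 0)⟩, ⟨(nat_lit 4113), (nat_lit 0)⟩], ⟨(nat_lit 128), [], [], true⟩, []⟩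
def f172 : Fc := ⟨true, ⟨[[e3, e4, e5, e42, e43, e44], [e6, e7, e8, e45]], [e21, e20, e19, e23, e22], [], (nat_lit 15), (nat_lit 0x3ffff000000ffffff), (nat_lit 0), (nat_lit 6), (nat_lit 3)⟩, [⟨(nat_lit 4113), (nat_lit 0)⟩, ⟨(nat_lit 8193), (nat_lit 0)⟩], ⟨(nat_lit 128), [], [], true⟩, []⟩
def f173 : Fc := ⟨true, ⟨[[e3, e4, e5, e42, e43, e44], [e6, e7, e8, e45]], [e32, e31, e30, e23, e22], [], (nat_lit 15), (nat_lit 0x3ffff000000ffffff), (nat_lit 0), (nat_lit 6), (nat_lit 3)⟩, [⟨(nat_lit 4113), (nat_lit 0)⟩, ⟨(nat_lit 8193), (nat_lit 0)⟩], ⟨(nat_lit 128), [], [], true⟩, []⟩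
def f174 : Fc := ⟨true, ⟨[[e3, e4, e5, e42, e43, e44], [e6, e7, e8, e45]], [e22], [], (nat_lit 11), (nat_lit 0x3f000000ffffff), (nat_lit 0), (nat_lit 10), (nat_lit 3)⟩, [⟨(nat_lit 273), (nat_lit 2)⟩, ⟨(nat_lit 8193), (nat_lit 0)⟩, ⟨(nat_lit 4098), (nat_lit 0)⟩, ⟨(nat_lit 4113), (nat_lit 0)⟩, ⟨(nat_lit 33), (nat_lit 0)⟩, ⟨(nat_lit 18), (nat_lit 0)⟩], ⟨(nat_lit 128), [], [], true⟩, [⟨[(nat_lit 1), (nat_lit 16), (nat_lit 17), (nat_lit 256), (nat_lit 257), (nat_lit 272), (nat_lit 273), (nat_lit 273), (nat_lit 4096), (nat_lit 4097), (nat_lit 4112), (nat_lit 4113), (nat_lit 4352), (nat_lit 4353), (nat_lit 4368), (nat_lit 4369), (nat_lit 4369), (nat_lit 4369), (nat_lit 4370), (nat_lit 4385), (nat_lit 4625)], [(nat_lit 1), (nb (nat_lit 1) (nat_lit 1024) (nat_lit 1)), (nat_lit 0)], (nat_lit 1), (nat_lit 0)⟩]⟩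
def f175 : Fc := ⟨true, ⟨[[e3, e4, e5, e42, e43, e44], [e6, e7, e8, e45]], [], [], (nat_lit 10), (nat_lit 0xffffff), (nat_lit 0), (nat_lit 11), (nat_lit 3)⟩, [⟨(nat_lit 273), (nat_lit 1)⟩, ⟨(nat_lit 8193), (nat_lit 0)⟩, ⟨(nat_lit 4098), (nat_lit 0)⟩, ⟨(nat_lit 4113), (nat_lit 0)⟩, ⟨(nat_lit 33), (nat_lit 0)⟩, ⟨(nat_lit 18), (nat_lit 0)⟩, ⟨(nat_lit 273), (nat_lit 2)⟩], ⟨(nat_lit 128), [], [], true⟩, [⟨[(nat_lit 1), (nat_lit 16), (nat_lit 17), (nat_lit 256), (nat_lit 257), (nat_lit 272), (nat_lit 273), (nat_lit 273), (nat_lit 4096), (nat_lit 4097), (nat_lit 4112), (nat_lit 4113), (nat_lit 4352), (nat_lit 4353), (nat_lit 4368), (nat_lit 4369), (nat_lit 4369), (nat_lit 4369), (nat_lit 4370), (nat_lit 4385), (nat_lit 4625)], [(nat_lit 1), (nb (nat_lit 1) (nat_lit 1024) (nat_lit 1)), (nat_lit 0)], (nat_lit 1), (nat_lit 0)⟩]⟩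
def f176 : Fc := ⟨true, ⟨[[e3, e4, e5, e42, e43, e44], [e6, e7, e8, e45]], [], [], (nat_lit 10), (nat_lit 0xffffff), (nat_lit 0), (nat_lit 11), (nat_lit 3)⟩, [], ⟨(nat_lit 128), [], [], true⟩, [⟨[(nat_lit 1), (nat_lit 16), (nat_lit 17), (nat_lit 256), (nat_lit 257), (nat_lit 272), (nat_lit 273), (nat_lit 273), (nat_lit 4096), (nat_lit 4097), (nat_lit 4112), (nat_lit 4113), (nat_lit 4352), (nat_lit 4353), (nat_lit 4368), (nat_lit 4369), (nat_lit 4369), (nat_lit 4369), (nat_lit 4370), (nat_lit 4385), (nat_lit 4625)], [(nat_lit 1), (nb (nat_lit 1) (nat_lit 1024) (nat_lit 1)), (nat_lit 0)], (nat_lit 1), (nat_lit 0)⟩]⟩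
def f177 : Fc := ⟨true, ⟨[[e6, e7, e8, e45]], [], [], (nat_lit 4), (nat_lit 258111), (nat_lit 0), (nat_lit 17), (nat_lit 2)⟩, [], ⟨(nat_lit 128), [], [], true⟩, [⟨[(nat_lit 1), (nat_lit 16), (nat_lit 17), (nat_lit 256), (nat_lit 257), (nat_lit 272), (nat_lit 273), (nat_lit 273), (nat_lit 4096), (nat_lit 4097), (nat_lit 4112), (nat_lit 4113), (nat_lit 4352), (nat_lit 4353), (nat_lit 4368), (nat_lit 4369), (nat_lit 4369), (nat_lit 4369), (nat_lit 4370), (nat_lit 4385), (nat_lit 4625)], [(nat_lit 1), (nb (nat_lit 1) (nat_lit 1024) (nat_lit 1)), (nat_lit 0)], (nat_lit 1), (nat_lit 0)⟩, ⟨[(nat_lit 1), (nat_lit 16), (nat_lit 17), (nat_lit 18), (nat_lit 256), (nat_lit 257), (nat_lit 272), (nat_lit 273), (nat_lit 273), (nat_lit 274), (nat_lit 288), (nat_lit 289), (nat_lit 290), (nat_lit 291), (nat_lit 513), (nat_lit 529), (nat_lit 530),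 (nat_lit 545), (nat_lit 561), (nat_lit 786), (nat_lit 4096)], [(nat_lit 1), (nb (nat_lit 1) (nat_lit 1024) (nat_lit 2)), (nat_lit 0)], (nat_lit 1), (nat_lit 0)⟩, ⟨[(nat_lit 1), (nat_lit 16), (nat_lit 17), (nat_lit 33), (nat_lit 256), (nat_lit 257), (nat_lit 258), (nat_lit 272), (nat_lit 273), (nat_lit 273), (nat_lit 274), (nat_lit 289), (nat_lit 290), (nat_lit 306), (nat_lit 528), (nat_lit 529), (nat_lit 530), (nat_lit 531), (nat_lit 545), (nat_lit 801), (nat_lit 4096)], [(nat_lit 1), (nb (nat_lit 1) (nat_lit 1024) (nat_lit 2)), (nat_lit 0)], (nat_lit 1), (nat_lit 0)⟩]⟩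
def f178 : Fc := ⟨true, ⟨[[e6, e7, e8, e45]], [e3, e4, e5], [], (nat_lit 7), (nat_lit 262143), (nat_lit 0), (nat_lit 8), (nat_lit 2)⟩, [], ⟨(nat_lit 128), [], [], true⟩, []⟩
def f179 : Fc := ⟨true, ⟨[[e6, e7, e8, e45]], [e3, e4, e5], [[e0, e1, e2]], (nat_lit 10), (nat_lit 0x3f00000003ffff), (nat_lit 0), (nat_lit 2), (nat_lit 2)⟩, [], ⟨(nat_lit 128), [], [], true⟩, []⟩
def f180 : Fc := ⟨true, ⟨[[e6, e7, e8, e45]], [e3, e4, e5], [[e9, e10, e11]], (nat_lit 10), (nat_lit 0x3f00000003ffff), (nat_lit 0), (nat_lit 2), (nat_lit 2)⟩, [], ⟨(nat_lit 128), [], [], true⟩, []⟩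
def f181 : Fc := ⟨true, ⟨[[e6, e7, e8, e45]], [e3, e4, e5], [[e12]], (nat_lit 8), (nat_lit 0x3f00000003ffff), (nat_lit 0), (nat_lit 6), (nat_lit 2)⟩, [], ⟨(nat_lit 128), [], [], true⟩, []⟩
def f182 : Fc := ⟨true, ⟨[[e6, e7, e8, e45]], [e3, e4, e5], [[e22]], (nat_lit 8), (nat_lit 0x3f00000003ffff), (nat_lit 0), (nat_lit 6), (nat_lit 2)⟩, [], ⟨(nat_lit 128), [], [], true⟩, []⟩
def f183 : Fc := ⟨true, ⟨[[e6, e7, e8, e45]], [e3, e4, e5], [[e22, e23]], (nat_lit 9), (nat_lit 0xfff00000003ffff), (nat_lit 0), (nat_lit 4), (nat_lit 2)⟩, [], ⟨(nat_lit 128), [], [], true⟩, []⟩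
def f184 : Fc := ⟨true, ⟨[[e3, e4, e5], [e6, e7, e8]], [], [], (nat_lit 6), (nat_lit 4095), (nat_lit 1), (nat_lit 9), (nat_lit 3)⟩, [], ⟨(nat_lit 128), [], [], true⟩, []⟩
def f185 : Fc := ⟨true, ⟨[[e6, e7, e8]], [], [], (nat_lit 3), (nat_lit 63), (nat_lit 1), (nat_lit 15), (nat_lit 2)⟩, [], ⟨(nat_lit 128), [], [], true⟩, []⟩
def f186 : Fc := ⟨true, ⟨[], [e45], [], (nat_lit 1), (nat_lit 258048), (nat_lit 0), (nat_lit 19), (nat_lit 1)⟩, [], ⟨(nat_lit 128), [], [], true⟩, []⟩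
def f187 : Fc := ⟨true, ⟨[[e45]], [], [], (nat_lit 1), (nat_lit 258048), (nat_lit 1), (nat_lit 19), (nat_lit 2)⟩, [], ⟨(nat_lit 128), [], [], true⟩, []⟩
def f188 : Fc := ⟨true, ⟨[[e6, e7, e8, e45]], [], [], (nat_lit 4), (nat_lit 258111), (nat_lit 1), (nat_lit 13), (nat_lit 2)⟩, [], ⟨(nat_lit 128), [], [], true⟩, []⟩
def f189 : Fc := ⟨true, ⟨[[e6, e7, e8]], [], [], (nat_lit 3), (nat_lit 63), (nat_lit 2), (nat_lit 12), (nat_lit 2)⟩, [], ⟨(nat_lit 128), [], [], true⟩, []⟩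
def f190 : Fc := ⟨true, ⟨[], [e45], [], (nat_lit 1), (nat_lit 258048), (nat_lit 1), (nat_lit 18), (nat_lit 1)⟩, [], ⟨(nat_lit 128), [], [], true⟩, []⟩
def f191 : Fc := ⟨true, ⟨[[e45]], [], [], (nat_lit 1), (nat_lit 258048), (nat_lit 2), (nat_lit 18), (nat_lit 2)⟩, [], ⟨(nat_lit 128), [], [], true⟩, []⟩
def f192 : Fc := ⟨true, ⟨[[e6, e7, e8, e45]], [], [], (nat_lit 4), (nat_lit 258111), (nat_lit 2), (nat_lit 9), (nat_lit 2)⟩, [], ⟨(nat_lit 128), [], [], true⟩, []⟩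
def f193 : Fc := ⟨true, ⟨[], [e6, e7, e8], [], (nat_lit 3), (nat_lit 63), (nat_lit 2), (nat_lit 9), (nat_lit 1)⟩, [], ⟨(nat_lit 128), [], [], true⟩, []⟩
def f194 : Fc := ⟨true, ⟨[[e6, e7, e8]], [], [], (nat_lit 3), (nat_lit 63), (nat_lit 3), (nat_lit 9), (nat_lit 2)⟩, [], ⟨(nat_lit 128), [], [], true⟩, []⟩
def f195 : Fc := ⟨true, ⟨[], [e45], [], (nat_lit 1), (nat_lit 258048), (nat_lit 2), (nat_lit 17), (nat_lit 1)⟩, [], ⟨(nat_lit 128), [], [], true⟩, []⟩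
def f196 : Fc := ⟨true, ⟨[[e45]], [], [], (nat_lit 1), (nat_lit 258048), (nat_lit 3), (nat_lit 17), (nat_lit 2)⟩, [], ⟨(nat_lit 128), [], [], true⟩, []⟩
def f197 : Fc := ⟨true, ⟨[[e6, e7, e8, e45]], [], [], (nat_lit 4), (nat_lit 258111), (nat_lit 3), (nat_lit 5), (nat_lit 2)⟩, [], ⟨(nat_lit 128), [], [], true⟩, []⟩
def f198 : Fc := ⟨true, ⟨[], [e45], [], (nat_lit 1), (nat_lit 258048), (nat_lit 3), (nat_lit 16), (nat_lit 1)⟩, [], ⟨(nat_lit 128), [], [], true⟩, []⟩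
def f199 : Fc := ⟨true, ⟨[[e45]], [], [], (nat_lit 1), (nat_lit 258048), (nat_lit 4), (nat_lit 16), (nat_lit 2)⟩, [], ⟨(nat_lit 128), [], [], true⟩, []⟩
def f200 : Fc := ⟨true, ⟨[], [e45], [], (nat_lit 1), (nat_lit 258048), (nat_lit 4), (nat_lit 15), (nat_lit 1)⟩, [], ⟨(nat_lit 128), [], [], true⟩, []⟩
def f201 : Fc := ⟨true, ⟨[[e45]], [], [], (nat_lit 1), (nat_lit 258048), (nat_lit 5), (nat_lit 15), (nat_lit 2)⟩, [], ⟨(nat_lit 128), [], [], true⟩, []⟩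
def f202 : Fc := ⟨true, ⟨[[e45]], [], [], (nat_lit 1), (nat_lit 258048), (nat_lit 6), (nat_lit 14), (nat_lit 2)⟩, [], ⟨(nat_lit 128), [], [], true⟩, []⟩
def f203 : Fc := ⟨true, ⟨[], [], [], (nat_lit 0), (nat_lit 0), (nat_lit 6), (nat_lit 21), (nat_lit 1)⟩, [], ⟨(nat_lit 128), [], [], true⟩, [⟨[(nat_lit 1), (nat_lit 16), (nat_lit 17), (nat_lit 33), (nat_lit 256), (nat_lit 257), (nat_lit 258), (nat_lit 272), (nat_lit 273), (nat_lit 273), (nat_lit 274), (nat_lit 289), (nat_lit 290), (nat_lit 306), (nat_lit 528), (nat_lit 529), (nat_lit 530), (nat_lit 531), (nat_lit 545), (nat_lit 801), (nat_lit 4096)], [(nat_lit 1), (nb (nat_lit 1) (nat_lit 1024) (nat_lit 2)), (nat_lit 0)], (nat_lit 1), (nat_lit 0)⟩, ⟨[(nat_lit 1), (nat_lit 16), (nat_lit 17), (nat_lit 18), (nat_lit 256), (nat_lit 257), (nat_lit 272), (nat_lit 273), (nat_lit 273), (nat_lit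 274), (nat_lit 288), (nat_lit 289), (nat_lit 290), (nat_lit 291), (nat_lit 513), (nat_lit 529), (nat_lit 530), (nat_lit 545), (nat_lit 561), (nat_lit 786), (nat_lit 4096)], [(nat_lit 1), (nb (nat_lit 1) (nat_lit 1024) (nat_lit 2)), (nat_lit 0)], (nat_lit 1), (nat_lit 0)⟩, ⟨[(nat_lit 1), (nat_lit 16), (nat_lit 17), (nat_lit 256), (nat_lit 257), (nat_lit 272), (nat_lit 273), (nat_lit 273), (nat_lit 4096), (nat_lit 4097), (nat_lit 4112), (nat_lit 4113), (nat_lit 4352), (nat_lit 4353), (nat_lit 4368), (nat_lit 4369), (nat_lit 4369), (nat_lit 4369), (nat_lit 4370), (nat_lit 4385), (nat_lit 4625)], [(nat_lit 1), (nb (nat_lit 1) (nat_lit 1024) (nat_lit 1)), (nat_lit 0)], (nat_lit 1), (nat_lit 0)⟩, ⟨[(nat_lit 1), (nat_lit 16), (nat_lit 17), (nat_lit 33), (nat_lit 256), (nat_lit 257), (nat_lit 258), (nat_lit 272), (nat_lit 273), (nat_lit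 273), (nat_lit 274), (nat_lit 289), (nat_lit 290), (nat_lit 306), (nat_lit 528), (nat_lit 529), (nat_lit 530), (nat_lit 531), (nat_lit 545), (nat_lit 801)], [(nat_lit 1), (nb (nat_lit 1) (nat_lit 1024) (nat_lit 2)), (nat_lit 0)], (nat_lit 1), (nat_lit 0)⟩, ⟨[(nat_lit 1), (nat_lit 16), (nat_lit 17), (nat_lit 18), (nat_lit 256), (nat_lit 257), (nat_lit 272), (nat_lit 273), (nat_lit 273), (nat_lit 274), (nat_lit 288), (nat_lit 289), (nat_lit 290), (nat_lit 291), (nat_lit 513), (nat_lit 529), (nat_lit 530), (nat_lit 545), (nat_lit 561), (nat_lit 786)], [(nat_lit 1), (nb (nat_lit 1) (nat_lit 1024) (nat_lit 2)), (nat_lit 0)], (nat_lit 1), (nat_lit 0)⟩]⟩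
def f204 : Fc := ⟨true, ⟨[[e45]], [], [], (nat_lit 1), (nat_lit 258048), (nat_lit 7), (nat_lit 13), (nat_lit 2)⟩, [], ⟨(nat_lit 128), [], [], true⟩, []⟩
def f205 : Fc := ⟨true, ⟨[[e45]], [], [], (nat_lit 1), (nat_lit 258048), (nat_lit 8), (nat_lit 12), (nat_lit 2)⟩, [], ⟨(nat_lit 128), [], [], true⟩, []⟩
def f206 : Fc := ⟨true, ⟨[[e45]], [], [], (nat_lit 1), (nat_lit 258048), (nat_lit 9), (nat_lit 11), (nat_lit 2)⟩, [], ⟨(nat_lit 128), [], [], true⟩, []⟩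
def f207 : Fc := ⟨true, ⟨[], [], [], (nat_lit 0), (nat_lit 0), (nat_lit 21), (nat_lit 21), (nat_lit 1)⟩, [], ⟨(nat_lit 128), [], [], true⟩, [⟨[(nat_lit 1), (nat_lit 16), (nat_lit 17), (nat_lit 18), (nat_lit 256), (nat_lit 257), (nat_lit 272), (nat_lit 273), (nat_lit 273), (nat_lit 274), (nat_lit 288), (nat_lit 289), (nat_lit 290), (nat_lit 291), (nat_lit 513), (nat_lit 529), (nat_lit 530), (nat_lit 545), (nat_lit 561), (nat_lit 786)], [(nat_lit 1), (nb (nat_lit 1) (nat_lit 1024) (nat_lit 2)), (nat_lit 0)], (nat_lit 1), (nat_lit 0)⟩, ⟨[(nat_lit 1), (nat_lit 16), (nat_lit 17), (nat_lit 33), (nat_lit 256), (nat_lit 257), (nat_lit 258), (nat_lit 272), (nat_lit 273), (nat_lit 273), (nat_lit 274), (nat_lit 289), (nat_lit 290), (nat_lit 306), (nat_lit 528), (nat_lit 529), (nat_lit 530), (nat_lit 531), (nat_lit 545), (nat_lit 801)], [(nat_lit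 1), (nb (nat_lit 1) (nat_lit 1024) (nat_lit 2)), (nat_lit 0)], (nat_lit 1), (nat_lit 0)⟩, ⟨[(nat_lit 1), (nat_lit 16), (nat_lit 17), (nat_lit 256), (nat_lit 257), (nat_lit 272), (nat_lit 273), (nat_lit 273), (nat_lit 4096), (nat_lit 4097), (nat_lit 4112), (nat_lit 4113), (nat_lit 4352), (nat_lit 4353), (nat_lit 4368), (nat_lit 4369), (nat_lit 4369), (nat_lit 4369), (nat_lit 4370), (nat_lit 4385), (nat_lit 4625)], [(nat_lit 1), (nb (nat_lit 1) (nat_lit 1024) (nat_lit 1)), (nat_lit 0)], (nat_lit 1), (nat_lit 0)⟩, ⟨[(nat_lit 1), (nat_lit 16), (nat_lit 17), (nat_lit 18), (nat_lit 256), (nat_lit 257), (nat_lit 272), (nat_lit 273), (nat_lit 273), (nat_lit 274), (nat_lit 288), (nat_lit 289), (nat_lit 290), (nat_lit 291), (nat_lit 513), (nat_lit 529), (nat_lit 530), (nat_lit 545), (nat_lit 561), (nat_lit 786), (nat_lit 4096)], [(nat_lit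 1), (nb (nat_lit 1) (nat_lit 1024) (nat_lit 2)), (nat_lit 0)], (nat_lit 1), (nat_lit 0)⟩, ⟨[(nat_lit 1), (nat_lit 16), (nat_lit 17), (nat_lit 33), (nat_lit 256), (nat_lit 257), (nat_lit 258), (nat_lit 272), (nat_lit 273), (nat_lit 273), (nat_lit 274), (nat_lit 289), (nat_lit 290), (nat_lit 306), (nat_lit 528), (nat_lit 529), (nat_lit 530), (nat_lit 531), (nat_lit 545), (nat_lit 801), (nat_lit 4096)], [(nat_lit 1), (nb (nat_lit 1) (nat_lit 1024) (nat_lit 2)), (nat_lit 0)], (nat_lit 1), (nat_lit 0)⟩]⟩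
def r0 : List Fc := [f0, f1, f2, f3, f4, f5, f6, f7, f8, f9, f10, f11, f12, f13, f14, f15, f16, f17, f18, f19, f20, f21, f22, f23, f24, f25, f26, f27, f28, f29, f30, f31, f32, f33, f34, f35, f36, f37, f38, f39, f40, f41, f42, f43, f44, f45, f46, f47, f48, f49, f50, f51, f52, f53, f54, f55, f56, f57, f58, f59, f60, f61, f62, f63, f64, f65, f66, f67, f68, f69, f70, f71, f72, f73, f74, f75, f76, f77, f78, f79, f80, f81, f82, f83, f84, f85, f86, f87, f88, f89, f90, f91, f92, f93, f94, f95, f96, f97, f98, f99, f100, f101, f102, f103, f104, f105, f106, f107, f108, f109, f110, f111, f112, f113, f114, f115, f116, f117, f118, f119, f120, f121, f122, f123, f124, f125, f126, f127]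
def r1 : List Fc := [f128, f129, f130, f131, f132, f133, f134, f135, f136, f137, f138, f139, f140, f141, f142, f143, f144, f145, f146, f147, f148, f149, f150, f151, f152, f153, f154, f155, f156, f157, f158, f159, f160, f161, f162, f163, f164, f165, f166, f167, f168, f169, f170, f171, f172, f173, f174, f175, f176, f177, f178, f179, f180, f181, f182, f183, f184, f185, f186, f187, f188, f189, f190, f191, f192, f193, f194, f195, f196, f197, f198, f199, f200, f201, f202, f203, f204, f205, f206, f207]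
/-- All facts. -/
def ft : List (List Fc) := [r0, r1]

end

end Pool.Agent.P.MP_8598be_al.Ck.D4
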