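import Pool.Agent.P.MP_8598be_al.Ck.Chk

/-!
Parameters and facts.
-/

namespace Pool.Agent.P.MP_8598be_al.Ck.D5

noncomputable section

/-- The parameters. -/
def par : Par := ⟨(nat_lit 5), (nat_lit 5), (nat_lit 16), (nat_lit 64), (nat_lit 0xffffffffffffffff), (nat_lit 0x20204070b13), (nat_lit 0x2db8000016dc000005b7000000d10000001300000001), (nat_lit 0xa4a2a16efc240000), (nat_lit 65536), (nat_lit 0x100000), (nat_lit 65536), (nat_lit 5), (nat_lit 0), ⟨(nat_lit 0x10000000000000001000000000000000100000000000000010000000000000001), (nat_lit 0), (nat_lit 5), (nat_lit 16)⟩⟩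

def e0 : En := ⟨(nat_lit 50), (nat_lit 4369), (nat_lit 3), (nat_lit 1), [⟨(nat_lit 4), (nat_lit 40), (nat_lit 1), (nat_lit 0)⟩, ⟨(nat_lit 6), (nat_lit 46), (nat_lit 0), (nat_lit 1)⟩, ⟨(nat_lit 10), (nat_lit 18), (nat_lit 0), (nat_lit 1)⟩]⟩
def e1 : En := ⟨(nat_lit 52), (nat_lit 65809), (nat_lit 3), (nat_lit 1), [⟨(nat_lit 6), (nat_lit 42), (nat_lit 1), (nat_lit 0)⟩, ⟨(nat_lit 8), (nat_lit 48), (nat_lit 0), (nat_lit 1)⟩, ⟨(nat_lit 10), (nat_lit 12), (nat_lit 1), (nat_lit 0)⟩]⟩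
def e2 : En := ⟨(nat_lit 54), (nat_lit 69649), (nat_lit 3), (nat_lit 1), [⟨(nat_lit 0), (nat_lit 40), (nat_lit 0), (nat_lit 1)⟩, ⟨(nat_lit 8), (nat_lit 44), (nat_lit 1), (nat_lit 0)⟩, ⟨(nat_lit 12), (nat_lit 14), (nat_lit 1), (nat_lit 0)⟩]⟩
def e3 : En := ⟨(nat_lit 56), (nat_lit 69889), (nat_lit 3), (nat_lit 1), [⟨(nat_lit 0), (nat_lit 46), (nat_lit 1), (nat_lit 0)⟩, ⟨(nat_lit 2), (nat_lit 42), (nat_lit 0), (nat_lit 1)⟩, ⟨(nat_lit 14), (nat_lit 16), (nat_lit 1), (nat_lit 0)⟩]⟩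
def e4 : En := ⟨(nat_lit 58), (nat_lit 69904), (nat_lit 3), (nat_lit 1), [⟨(nat_lit 2), (nat_lit 48), (nat_lit 1), (nat_lit 0)⟩, ⟨(nat_lit 4), (nat_lit 44), (nat_lit 0), (nat_lit 1)⟩, ⟨(nat_lit 16), (nat_lit 18), (nat_lit 1), (nat_lit 0)⟩]⟩
def e5 : En := ⟨(nat_lit 40), (nat_lit 4113), (nat_lit 2), (nat_lit 1), [⟨(nat_lit 6), (nat_lit 14), (nat_lit 1), (nat_lit 0)⟩, ⟨(nat_lit 8), (nat_lit 18), (nat_lit 0), (nat_lit 1)⟩]⟩
def e6 : En := ⟨(nat_lit 42), (nat_lit 65793), (nat_lit 2), (nat_lit 1), [⟨(nat_lit 0), (nat_lit 10), (nat_lit 0), (nat_lit 1)⟩, ⟨(nat_lit 8), (nat_lit 16), (nat_lit 1), (nat_lit 0)⟩]⟩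
def e7 : En := ⟨(nat_lit 44), (nat_lit 69648), (nat_lit 2), (nat_lit 1), [⟨(nat_lit 0), (nat_lit 18), (nat_lit 1), (nat_lit 0)⟩, ⟨(nat_lit 2), (nat_lit 12), (nat_lit 0), (nat_lit 1)⟩]⟩
def e8 : En := ⟨(nat_lit 46), (nat_lit 4353), (nat_lit 2), (nat_lit 1), [⟨(nat_lit 2), (nat_lit 10), (nat_lit 1), (nat_lit 0)⟩, ⟨(nat_lit 4), (nat_lit 14), (nat_lit 0), (nat_lit 1)⟩]⟩
def e9 : En := ⟨(nat_lit 48), (nat_lit 65808), (nat_lit 2), (nat_lit 1), [⟨(nat_lit 4), (nat_lit 12), (nat_lit 1), (nat_lit 0)⟩, ⟨(nat_lit 6), (nat_lit 16), (nat_lit 0), (nat_lit 1)⟩]⟩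
def e10 : En := ⟨(nat_lit 10), (nat_lit 257), (nat_lit 1), (nat_lit 1), [⟨(nat_lit 4), (nat_lit 8), (nat_lit 1), (nat_lit 0)⟩]⟩
def e11 : En := ⟨(nat_lit 12), (nat_lit 65552), (nat_lit 1), (nat_lit 1), [⟨(nat_lit 0), (nat_lit 6), (nat_lit 0), (nat_lit 1)⟩]⟩
def e12 : En := ⟨(nat_lit 14), (nat_lit 4097), (nat_lit 1), (nat_lit 1), [⟨(nat_lit 2), (nat_lit 8), (nat_lit 0), (nat_lit 1)⟩]⟩
def e13 : En := ⟨(nat_lit 16), (nat_lit 65792), (nat_lit 1), (nat_lit 1), [⟨(nat_lit 0), (nat_lit 4), (nat_lit 1), (nat_lit 0)⟩]⟩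
def e14 : En := ⟨(nat_lit 18), (nat_lit 4112), (nat_lit 1), (nat_lit 1), [⟨(nat_lit 2), (nat_lit 6), (nat_lit 1), (nat_lit 0)⟩]⟩
def e15 : En := ⟨(nat_lit 0), (nat_lit 65536), (nat_lit 0), (nat_lit 1), []⟩
def e16 : En := ⟨(nat_lit 2), (nat_lit 4096), (nat_lit 0), (nat_lit 1), []⟩
def e17 : En := ⟨(nat_lit 4), (nat_lit 256), (nat_lit 0), (nat_lit 1), []⟩
def e18 : En := ⟨(nat_lit 6), (nat_lit 16), (nat_lit 0), (nat_lit 1), []⟩
def e19 : En := ⟨(nat_lit 8), (nat_lit 1), (nat_lit 0), (nat_lit 1), []⟩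
def e20 : En := ⟨(nat_lit 40), (nat_lit 513), (nat_lit 1), (nat_lit 1), [⟨(nat_lit 4), (nat_lit 10), (nat_lit 1), (nat_lit 0)⟩]⟩
def e21 : En := ⟨(nat_lit 42), (nat_lit 65568), (nat_lit 1), (nat_lit 1), [⟨(nat_lit 6), (nat_lit 12), (nat_lit 1), (nat_lit 0)⟩]⟩
def e22 : En := ⟨(nat_lit 44), (nat_lit 4098), (nat_lit 1), (nat_lit 1), [⟨(nat_lit 8), (nat_lit 14), (nat_lit 1), (nat_lit 0)⟩]⟩
def e23 : En := ⟨(nat_lit 46), (nat_lit 131328), (nat_lit 1), (nat_lit 1), [⟨(nat_lit 0), (nat_lit 16), (nat_lit 1), (nat_lit 0)⟩]⟩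
def e24 : En := ⟨(nat_lit 48), (nat_lit 8208), (nat_lit 1), (nat_lit 1), [⟨(nat_lit 2), (nat_lit 18), (nat_lit 1), (nat_lit 0)⟩]⟩
def e25 : En := ⟨(nat_lit 50), (nat_lit 4113), (nat_lit 2), (nat_lit 1), [⟨(nat_lit 6), (nat_lit 14), (nat_lit 1), (nat_lit 0)⟩, ⟨(nat_lit 8), (nat_lit 18), (nat_lit 0), (nat_lit 1)⟩]⟩
def e26 : En := ⟨(nat_lit 52), (nat_lit 65793), (nat_lit 2), (nat_lit 1), [⟨(nat_lit 0), (nat_lit 10), (nat_lit 0), (nat_lit 1)⟩, ⟨(nat_lit 8), (nat_lit 16), (nat_lit 1), (nat_lit 0)⟩]⟩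
def e27 : En := ⟨(nat_lit 54), (nat_lit 69648), (nat_lit 2), (nat_lit 1), [⟨(nat_lit 0), (nat_lit 18), (nat_lit 1), (nat_lit 0)⟩, ⟨(nat_lit 2), (nat_lit 12), (nat_lit 0), (nat_lit 1)⟩]⟩
def e28 : En := ⟨(nat_lit 56), (nat_lit 4353), (nat_lit 2), (nat_lit 1), [⟨(nat_lit 2), (nat_lit 10), (nat_lit 1), (nat_lit 0)⟩, ⟨(nat_lit 4), (nat_lit 14), (nat_lit 0), (nat_lit 1)⟩]⟩
def e29 : En := ⟨(nat_lit 58), (nat_lit 65808), (nat_lit 2), (nat_lit 1), [⟨(nat_lit 4), (nat_lit 12), (nat_lit 1), (nat_lit 0)⟩, ⟨(nat_lit 6), (nat_lit 16), (nat_lit 0), (nat_lit 1)⟩]⟩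
def e30 : En := ⟨(nat_lit 68), (nat_lit 65824), (nat_lit 2), (nat_lit 1), [⟨(nat_lit 4), (nat_lit 42), (nat_lit 1), (nat_lit 0)⟩, ⟨(nat_lit 6), (nat_lit 58), (nat_lit 1), (nat_lit 0)⟩]⟩
def e31 : En := ⟨(nat_lit 66), (nat_lit 4609), (nat_lit 2), (nat_lit 1), [⟨(nat_lit 2), (nat_lit 40), (nat_lit 1), (nat_lit 0)⟩, ⟨(nat_lit 4), (nat_lit 56), (nat_lit 1), (nat_lit 0)⟩]⟩
def e32 : En := ⟨(nat_lit 64), (nat_lit 73744), (nat_lit 2), (nat_lit 1), [⟨(nat_lit 0), (nat_lit 48), (nat_lit 1), (nat_lit 0)⟩, ⟨(nat_lit 2), (nat_lit 54), (nat_lit 1), (nat_lit 0)⟩]⟩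
def e33 : En := ⟨(nat_lit 62), (nat_lit 131329), (nat_lit 2), (nat_lit 1), [⟨(nat_lit 0), (nat_lit 52), (nat_lit 1), (nat_lit 0)⟩, ⟨(nat_lit 8), (nat_lit 46), (nat_lit 1), (nat_lit 0)⟩]⟩
def e34 : En := ⟨(nat_lit 60), (nat_lit 4114), (nat_lit 2), (nat_lit 1), [⟨(nat_lit 6), (nat_lit 44), (nat_lit 1), (nat_lit 0)⟩, ⟨(nat_lit 8), (nat_lit 50), (nat_lit 1), (nat_lit 0)⟩]⟩
def e35 : En := ⟨(nat_lit 68), (nat_lit 12304), (nat_lit 1), (nat_lit 1), [⟨(nat_lit 2), (nat_lit 48), (nat_lit 1), (nat_lit 0)⟩]⟩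
def e36 : En := ⟨(nat_lit 66), (nat_lit 196864), (nat_lit 1), (nat_lit 1), [⟨(nat_lit 0), (nat_lit 46), (nat_lit 1), (nat_lit 0)⟩]⟩
def e37 : En := ⟨(nat_lit 64), (nat_lit 4099), (nat_lit 1), (nat_lit 1), [⟨(nat_lit 8), (nat_lit 44), (nat_lit 1), (nat_lit 0)⟩]⟩
def e38 : En := ⟨(nat_lit 62), (nat_lit 65584), (nat_lit 1), (nat_lit 1), [⟨(nat_lit 6), (nat_lit 42), (nat_lit 1), (nat_lit 0)⟩]⟩
def e39 : En := ⟨(nat_lit 60), (nat_lit 769), (nat_lit 1), (nat_lit 1), [⟨(nat_lit 4), (nat_lit 40), (nat_lit 1), (nat_lit 0)⟩]⟩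
def e40 : En := ⟨(nat_lit 40), (nat_lit 258), (nat_lit 1), (nat_lit 1), [⟨(nat_lit 8), (nat_lit 10), (nat_lit 1), (nat_lit 0)⟩]⟩
def e41 : En := ⟨(nat_lit 42), (nat_lit 131088), (nat_lit 1), (nat_lit 1), [⟨(nat_lit 0), (nat_lit 12), (nat_lit 1), (nat_lit 0)⟩]⟩
def e42 : En := ⟨(nat_lit 44), (nat_lit 8193), (nat_lit 1), (nat_lit 1), [⟨(nat_lit 2), (nat_lit 14), (nat_lit 1), (nat_lit 0)⟩]⟩
def e43 : En := ⟨(nat_lit 46), (nat_lit 66048), (nat_lit 1), (nat_lit 1), [⟨(nat_lit 4), (nat_lit 16), (nat_lit 1), (nat_lit 0)⟩]⟩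
def e44 : En := ⟨(nat_lit 48), (nat_lit 4128), (nat_lit 1), (nat_lit 1), [⟨(nat_lit 6), (nat_lit 18), (nat_lit 1), (nat_lit 0)⟩]⟩
def e45 : En := ⟨(nat_lit 68), (nat_lit 66064), (nat_lit 2), (nat_lit 1), [⟨(nat_lit 4), (nat_lit 58), (nat_lit 1), (nat_lit 0)⟩, ⟨(nat_lit 6), (nat_lit 46), (nat_lit 0), (nat_lit 1)⟩]⟩
def e46 : En := ⟨(nat_lit 66), (nat_lit 8449), (nat_lit 2), (nat_lit 1), [⟨(nat_lit 2), (nat_lit 56), (nat_lit 1), (nat_lit 0)⟩, ⟨(nat_lit 4), (nat_lit 44), (nat_lit 0), (nat_lit 1)⟩]⟩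
def e47 : En := ⟨(nat_lit 64), (nat_lit 135184), (nat_lit 2), (nat_lit 1), [⟨(nat_lit 0), (nat_lit 54), (nat_lit 1), (nat_lit 0)⟩, ⟨(nat_lit 2), (nat_lit 42), (nat_lit 0), (nat_lit 1)⟩]⟩
def e48 : En := ⟨(nat_lit 62), (nat_lit 65794), (nat_lit 2), (nat_lit 1), [⟨(nat_lit 0), (nat_lit 40), (nat_lit 0), (nat_lit 1)⟩, ⟨(nat_lit 8), (nat_lit 52), (nat_lit 1), (nat_lit 0)⟩]⟩
def e49 : En := ⟨(nat_lit 60), (nat_lit 4129), (nat_lit 2), (nat_lit 1), [⟨(nat_lit 6), (nat_lit 50), (nat_lit 1), (nat_lit 0)⟩, ⟨(nat_lit 8), (nat_lit 48), (nat_lit 0), (nat_lit 1)⟩]⟩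
def e50 : En := ⟨(nat_lit 68), (nat_lit 4144), (nat_lit 1), (nat_lit 1), [⟨(nat_lit 6), (nat_lit 48), (nat_lit 1), (nat_lit 0)⟩]⟩
def e51 : En := ⟨(nat_lit 66), (nat_lit 66304), (nat_lit 1), (nat_lit 1), [⟨(nat_lit 4), (nat_lit 46), (nat_lit 1), (nat_lit 0)⟩]⟩
def e52 : En := ⟨(nat_lit 64), (nat_lit 12289), (nat_lit 1), (nat_lit 1), [⟨(nat_lit 2), (nat_lit 44), (nat_lit 1), (nat_lit 0)⟩]⟩
def e53 : En := ⟨(nat_lit 62), (nat_lit 196624), (nat_lit 1), (nat_lit 1), [⟨(nat_lit 0), (nat_lit 42), (nat_lit 1), (nat_lit 0)⟩]⟩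
def e54 : En := ⟨(nat_lit 60), (nat_lit 259), (nat_lit 1), (nat_lit 1), [⟨(nat_lit 8), (nat_lit 40), (nat_lit 1), (nat_lit 0)⟩]⟩
def e55 : En := ⟨(nat_lit 50), (nat_lit 513), (nat_lit 1), (nat_lit 1), [⟨(nat_lit 4), (nat_lit 10), (nat_lit 1), (nat_lit 0)⟩]⟩
def e56 : En := ⟨(nat_lit 52), (nat_lit 65568), (nat_lit 1), (nat_lit 1), [⟨(nat_lit 6), (nat_lit 12), (nat_lit 1), (nat_lit 0)⟩]⟩
def e57 : En := ⟨(nat_lit 54), (nat_lit 4098), (nat_lit 1), (nat_lit 1), [⟨(nat_lit 8), (nat_lit 14), (nat_lit 1), (nat_lit 0)⟩]⟩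
def e58 : En := ⟨(nat_lit 56), (nat_lit 131328), (nat_lit 1), (nat_lit 1), [⟨(nat_lit 0), (nat_lit 16), (nat_lit 1), (nat_lit 0)⟩]⟩
def e59 : En := ⟨(nat_lit 58), (nat_lit 8208), (nat_lit 1), (nat_lit 1), [⟨(nat_lit 2), (nat_lit 18), (nat_lit 1), (nat_lit 0)⟩]⟩
def e60 : En := ⟨(nat_lit 60), (nat_lit 4113), (nat_lit 2), (nat_lit 1), [⟨(nat_lit 6), (nat_lit 14), (nat_lit 1), (nat_lit 0)⟩, ⟨(nat_lit 8), (nat_lit 18), (nat_lit 0), (nat_lit 1)⟩]⟩
def e61 : En := ⟨(nat_lit 62), (nat_lit 65793), (nat_lit 2), (nat_lit 1), [⟨(nat_lit 0), (nat_lit 10), (nat_lit 0), (nat_lit 1)⟩, ⟨(nat_lit 8), (nat_lit 16), (nat_lit 1), (nat_lit 0)⟩]⟩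
def e62 : En := ⟨(nat_lit 64), (nat_lit 69648), (nat_lit 2), (nat_lit 1), [⟨(nat_lit 0), (nat_lit 18), (nat_lit 1), (nat_lit 0)⟩, ⟨(nat_lit 2), (nat_lit 12), (nat_lit 0), (nat_lit 1)⟩]⟩
def e63 : En := ⟨(nat_lit 66), (nat_lit 4353), (nat_lit 2), (nat_lit 1), [⟨(nat_lit 2), (nat_lit 10), (nat_lit 1), (nat_lit 0)⟩, ⟨(nat_lit 4), (nat_lit 14), (nat_lit 0), (nat_lit 1)⟩]⟩
def e64 : En := ⟨(nat_lit 68), (nat_lit 65808), (nat_lit 2), (nat_lit 1), [⟨(nat_lit 4), (nat_lit 12), (nat_lit 1), (nat_lit 0)⟩, ⟨(nat_lit 6), (nat_lit 16), (nat_lit 0), (nat_lit 1)⟩]⟩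
def e65 : En := ⟨(nat_lit 50), (nat_lit 4369), (nat_lit 3), (nat_lit 1), [⟨(nat_lit 2), (nat_lit 40), (nat_lit 1), (nat_lit 0)⟩, ⟨(nat_lit 8), (nat_lit 48), (nat_lit 0), (nat_lit 1)⟩, ⟨(nat_lit 20), (nat_lit 26), (nat_lit 0), (nat_lit 1)⟩]⟩
def e66 : En := ⟨(nat_lit 52), (nat_lit 65809), (nat_lit 3), (nat_lit 1), [⟨(nat_lit 0), (nat_lit 40), (nat_lit 0), (nat_lit 1)⟩, ⟨(nat_lit 4), (nat_lit 42), (nat_lit 1), (nat_lit 0)⟩, ⟨(nat_lit 22), (nat_lit 28), (nat_lit 0), (nat_lit 1)⟩]⟩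
def e67 : En := ⟨(nat_lit 54), (nat_lit 69649), (nat_lit 3), (nat_lit 1), [⟨(nat_lit 2), (nat_lit 42), (nat_lit 0), (nat_lit 1)⟩, ⟨(nat_lit 6), (nat_lit 44), (nat_lit 1), (nat_lit 0)⟩, ⟨(nat_lit 20), (nat_lit 24), (nat_lit 1), (nat_lit 0)⟩]⟩
def e68 : En := ⟨(nat_lit 56), (nat_lit 69889), (nat_lit 3), (nat_lit 1), [⟨(nat_lit 4), (nat_lit 44), (nat_lit 0), (nat_lit 1)⟩, ⟨(nat_lit 8), (nat_lit 46), (nat_lit 1), (nat_lit 0)⟩, ⟨(nat_lit 22), (nat_lit 26), (nat_lit 1), (nat_lit 0)⟩]⟩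
def e69 : En := ⟨(nat_lit 58), (nat_lit 69904), (nat_lit 3), (nat_lit 1), [⟨(nat_lit 0), (nat_lit 48), (nat_lit 1), (nat_lit 0)⟩, ⟨(nat_lit 6), (nat_lit 46), (nat_lit 0), (nat_lit 1)⟩, ⟨(nat_lit 24), (nat_lit 28), (nat_lit 1), (nat_lit 0)⟩]⟩
def e70 : En := ⟨(nat_lit 40), (nat_lit 273), (nat_lit 2), (nat_lit 1), [⟨(nat_lit 4), (nat_lit 20), (nat_lit 1), (nat_lit 0)⟩, ⟨(nat_lit 8), (nat_lit 28), (nat_lit 0), (nat_lit 1)⟩]⟩
def e71 : En := ⟨(nat_lit 42), (nat_lit 65553), (nat_lit 2), (nat_lit 1), [⟨(nat_lit 0), (nat_lit 20), (nat_lit 0), (nat_lit 1)⟩, ⟨(nat_lit 6), (nat_lit 22), (nat_lit 1), (nat_lit 0)⟩]⟩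
def e72 : En := ⟨(nat_lit 44), (nat_lit 69633), (nat_lit 2), (nat_lit 1), [⟨(nat_lit 2), (nat_lit 22), (nat_lit 0), (nat_lit 1)⟩, ⟨(nat_lit 8), (nat_lit 24), (nat_lit 1), (nat_lit 0)⟩]⟩
def e73 : En := ⟨(nat_lit 46), (nat_lit 69888), (nat_lit 2), (nat_lit 1), [⟨(nat_lit 0), (nat_lit 26), (nat_lit 1), (nat_lit 0)⟩, ⟨(nat_lit 4), (nat_lit 24), (nat_lit 0), (nat_lit 1)⟩]⟩
def e74 : En := ⟨(nat_lit 48), (nat_lit 4368), (nat_lit 2), (nat_lit 1), [⟨(nat_lit 2), (nat_lit 28), (nat_lit 1), (nat_lit 0)⟩, ⟨(nat_lit 6), (nat_lit 26), (nat_lit 0), (nat_lit 1)⟩]⟩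
def e75 : En := ⟨(nat_lit 20), (nat_lit 17), (nat_lit 1), (nat_lit 1), [⟨(nat_lit 6), (nat_lit 8), (nat_lit 1), (nat_lit 0)⟩]⟩
def e76 : En := ⟨(nat_lit 22), (nat_lit 65537), (nat_lit 1), (nat_lit 1), [⟨(nat_lit 0), (nat_lit 8), (nat_lit 0), (nat_lit 1)⟩]⟩
def e77 : En := ⟨(nat_lit 24), (nat_lit 69632), (nat_lit 1), (nat_lit 1), [⟨(nat_lit 0), (nat_lit 2), (nat_lit 1), (nat_lit 0)⟩]⟩
def e78 : En := ⟨(nat_lit 26), (nat_lit 4352), (nat_lit 1), (nat_lit 1), [⟨(nat_lit 2), (nat_lit 4), (nat_lit 1), (nat_lit 0)⟩]⟩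
def e79 : En := ⟨(nat_lit 28), (nat_lit 272), (nat_lit 1), (nat_lit 1), [⟨(nat_lit 4), (nat_lit 6), (nat_lit 1), (nat_lit 0)⟩]⟩
def e80 : En := ⟨(nat_lit 40), (nat_lit 33), (nat_lit 1), (nat_lit 1), [⟨(nat_lit 6), (nat_lit 20), (nat_lit 1), (nat_lit 0)⟩]⟩
def e81 : En := ⟨(nat_lit 42), (nat_lit 65538), (nat_lit 1), (nat_lit 1), [⟨(nat_lit 8), (nat_lit 22), (nat_lit 1), (nat_lit 0)⟩]⟩
def e82 : En := ⟨(nat_lit 44), (nat_lit 135168), (nat_lit 1), (nat_lit 1), [⟨(nat_lit 0), (nat_lit 24), (nat_lit 1), (nat_lit 0)⟩]⟩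
def e83 : En := ⟨(nat_lit 46), (nat_lit 8448), (nat_lit 1), (nat_lit 1), [⟨(nat_lit 2), (nat_lit 26), (nat_lit 1), (nat_lit 0)⟩]⟩
def e84 : En := ⟨(nat_lit 48), (nat_lit 528), (nat_lit 1), (nat_lit 1), [⟨(nat_lit 4), (nat_lit 28), (nat_lit 1), (nat_lit 0)⟩]⟩
def e85 : En := ⟨(nat_lit 50), (nat_lit 273), (nat_lit 2), (nat_lit 1), [⟨(nat_lit 4), (nat_lit 20), (nat_lit 1), (nat_lit 0)⟩, ⟨(nat_lit 8), (nat_lit 28), (nat_lit 0), (nat_lit 1)⟩]⟩
def e86 : En := ⟨(nat_lit 52), (nat_lit 65553), (nat_lit 2), (nat_lit 1), [⟨(nat_lit 0), (nat_lit 20), (nat_lit 0), (nat_lit 1)⟩, ⟨(nat_lit 6), (nat_lit 22), (nat_lit 1), (nat_lit 0)⟩]⟩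
def e87 : En := ⟨(nat_lit 54), (nat_lit 69633), (nat_lit 2), (nat_lit 1), [⟨(nat_lit 2), (nat_lit 22), (nat_lit 0), (nat_lit 1)⟩, ⟨(nat_lit 8), (nat_lit 24), (nat_lit 1), (nat_lit 0)⟩]⟩
def e88 : En := ⟨(nat_lit 56), (nat_lit 69888), (nat_lit 2), (nat_lit 1), [⟨(nat_lit 0), (nat_lit 26), (nat_lit 1), (nat_lit 0)⟩, ⟨(nat_lit 4), (nat_lit 24), (nat_lit 0), (nat_lit 1)⟩]⟩
def e89 : En := ⟨(nat_lit 58), (nat_lit 4368), (nat_lit 2), (nat_lit 1), [⟨(nat_lit 2), (nat_lit 28), (nat_lit 1), (nat_lit 0)⟩, ⟨(nat_lit 6), (nat_lit 26), (nat_lit 0), (nat_lit 1)⟩]⟩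
def e90 : En := ⟨(nat_lit 68), (nat_lit 8464), (nat_lit 2), (nat_lit 1), [⟨(nat_lit 2), (nat_lit 58), (nat_lit 1), (nat_lit 0)⟩, ⟨(nat_lit 6), (nat_lit 46), (nat_lit 0), (nat_lit 1)⟩]⟩
def e91 : En := ⟨(nat_lit 66), (nat_lit 135424), (nat_lit 2), (nat_lit 1), [⟨(nat_lit 0), (nat_lit 56), (nat_lit 1), (nat_lit 0)⟩, ⟨(nat_lit 4), (nat_lit 44), (nat_lit 0), (nat_lit 1)⟩]⟩
def e92 : En := ⟨(nat_lit 64), (nat_lit 69634), (nat_lit 2), (nat_lit 1), [⟨(nat_lit 2), (nat_lit 42), (nat_lit 0), (nat_lit 1)⟩, ⟨(nat_lit 8), (nat_lit 54), (nat_lit 1), (nat_lit 0)⟩]⟩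
def e93 : En := ⟨(nat_lit 62), (nat_lit 65569), (nat_lit 2), (nat_lit 1), [⟨(nat_lit 0), (nat_lit 40), (nat_lit 0), (nat_lit 1)⟩, ⟨(nat_lit 6), (nat_lit 52), (nat_lit 1), (nat_lit 0)⟩]⟩
def e94 : En := ⟨(nat_lit 60), (nat_lit 529), (nat_lit 2), (nat_lit 1), [⟨(nat_lit 4), (nat_lit 50), (nat_lit 1), (nat_lit 0)⟩, ⟨(nat_lit 8), (nat_lit 48), (nat_lit 0), (nat_lit 1)⟩]⟩
def e95 : En := ⟨(nat_lit 68), (nat_lit 4624), (nat_lit 4), (nat_lit 1), [⟨(nat_lit 2), (nat_lit 48), (nat_lit 2), (nat_lit 0)⟩, ⟨(nat_lit 4), (nat_lit 58), (nat_lit 1), (nat_lit 0)⟩, ⟨(nat_lit 26), (nat_lit 28), (nat_lit 1), (nat_lit 0)⟩]⟩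
def e96 : En := ⟨(nat_lit 66), (nat_lit 73984), (nat_lit 4), (nat_lit 1), [⟨(nat_lit 0), (nat_lit 46), (nat_lit 2), (nat_lit 0)⟩, ⟨(nat_lit 2), (nat_lit 56), (nat_lit 1), (nat_lit 0)⟩, ⟨(nat_lit 24), (nat_lit 26), (nat_lit 1), (nat_lit 0)⟩]⟩
def e97 : En := ⟨(nat_lit 64), (nat_lit 135169), (nat_lit 4), (nat_lit 1), [⟨(nat_lit 0), (nat_lit 54), (nat_lit 1), (nat_lit 0)⟩, ⟨(nat_lit 8), (nat_lit 44), (nat_lit 2), (nat_lit 0)⟩, ⟨(nat_lit 22), (nat_lit 24), (nat_lit 1), (nat_lit 0)⟩]⟩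
def e98 : En := ⟨(nat_lit 62), (nat_lit 65554), (nat_lit 4), (nat_lit 1), [⟨(nat_lit 6), (nat_lit 42), (nat_lit 2), (nat_lit 0)⟩, ⟨(nat_lit 8), (nat_lit 52), (nat_lit 1), (nat_lit 0)⟩, ⟨(nat_lit 20), (nat_lit 22), (nat_lit 1), (nat_lit 0)⟩]⟩
def e99 : En := ⟨(nat_lit 60), (nat_lit 289), (nat_lit 4), (nat_lit 1), [⟨(nat_lit 4), (nat_lit 40), (nat_lit 2), (nat_lit 0)⟩, ⟨(nat_lit 6), (nat_lit 50), (nat_lit 1), (nat_lit 0)⟩, ⟨(nat_lit 20), (nat_lit 28), (nat_lit 0), (nat_lit 1)⟩]⟩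
def e100 : En := ⟨(nat_lit 68), (nat_lit 784), (nat_lit 1), (nat_lit 1), [⟨(nat_lit 4), (nat_lit 48), (nat_lit 1), (nat_lit 0)⟩]⟩
def e101 : En := ⟨(nat_lit 66), (nat_lit 12544), (nat_lit 1), (nat_lit 1), [⟨(nat_lit 2), (nat_lit 46), (nat_lit 1), (nat_lit 0)⟩]⟩
def e102 : En := ⟨(nat_lit 64), (nat_lit 200704), (nat_lit 1), (nat_lit 1), [⟨(nat_lit 0), (nat_lit 44), (nat_lit 1), (nat_lit 0)⟩]⟩
def e103 : En := ⟨(nat_lit 62), (nat_lit 65539), (nat_lit 1), (nat_lit 1), [⟨(nat_lit 8), (nat_lit 42), (nat_lit 1), (nat_lit 0)⟩]⟩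
def e104 : En := ⟨(nat_lit 60), (nat_lit 49), (nat_lit 1), (nat_lit 1), [⟨(nat_lit 6), (nat_lit 40), (nat_lit 1), (nat_lit 0)⟩]⟩
def e105 : En := ⟨(nat_lit 40), (nat_lit 18), (nat_lit 1), (nat_lit 1), [⟨(nat_lit 8), (nat_lit 20), (nat_lit 1), (nat_lit 0)⟩]⟩
def e106 : En := ⟨(nat_lit 42), (nat_lit 131073), (nat_lit 1), (nat_lit 1), [⟨(nat_lit 0), (nat_lit 22), (nat_lit 1), (nat_lit 0)⟩]⟩
def e107 : En := ⟨(nat_lit 44), (nat_lit 73728), (nat_lit 1), (nat_lit 1), [⟨(nat_lit 2), (nat_lit 24), (nat_lit 1), (nat_lit 0)⟩]⟩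
def e108 : En := ⟨(nat_lit 46), (nat_lit 4608), (nat_lit 1), (nat_lit 1), [⟨(nat_lit 4), (nat_lit 26), (nat_lit 1), (nat_lit 0)⟩]⟩
def e109 : En := ⟨(nat_lit 48), (nat_lit 288), (nat_lit 1), (nat_lit 1), [⟨(nat_lit 6), (nat_lit 28), (nat_lit 1), (nat_lit 0)⟩]⟩
def e110 : En := ⟨(nat_lit 68), (nat_lit 4384), (nat_lit 2), (nat_lit 1), [⟨(nat_lit 2), (nat_lit 48), (nat_lit 1), (nat_lit 0)⟩, ⟨(nat_lit 6), (nat_lit 58), (nat_lit 1), (nat_lit 0)⟩]⟩
def e111 : En := ⟨(nat_lit 66), (nat_lit 70144), (nat_lit 2), (nat_lit 1), [⟨(nat_lit 0), (nat_lit 46), (nat_lit 1), (nat_lit 0)⟩, ⟨(nat_lit 4), (nat_lit 56), (nat_lit 1), (nat_lit 0)⟩]⟩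
def e112 : En := ⟨(nat_lit 64), (nat_lit 73729), (nat_lit 2), (nat_lit 1), [⟨(nat_lit 2), (nat_lit 54), (nat_lit 1), (nat_lit 0)⟩, ⟨(nat_lit 8), (nat_lit 44), (nat_lit 1), (nat_lit 0)⟩]⟩
def e113 : En := ⟨(nat_lit 62), (nat_lit 131089), (nat_lit 2), (nat_lit 1), [⟨(nat_lit 0), (nat_lit 52), (nat_lit 1), (nat_lit 0)⟩, ⟨(nat_lit 6), (nat_lit 42), (nat_lit 1), (nat_lit 0)⟩]⟩
def e114 : En := ⟨(nat_lit 60), (nat_lit 274), (nat_lit 2), (nat_lit 1), [⟨(nat_lit 4), (nat_lit 40), (nat_lit 1), (nat_lit 0)⟩, ⟨(nat_lit 8), (nat_lit 50), (nat_lit 1), (nat_lit 0)⟩]⟩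
def e115 : En := ⟨(nat_lit 68), (nat_lit 304), (nat_lit 1), (nat_lit 1), [⟨(nat_lit 6), (nat_lit 48), (nat_lit 1), (nat_lit 0)⟩]⟩
def e116 : En := ⟨(nat_lit 66), (nat_lit 4864), (nat_lit 1), (nat_lit 1), [⟨(nat_lit 4), (nat_lit 46), (nat_lit 1), (nat_lit 0)⟩]⟩
def e117 : En := ⟨(nat_lit 64), (nat_lit 77824), (nat_lit 1), (nat_lit 1), [⟨(nat_lit 2), (nat_lit 44), (nat_lit 1), (nat_lit 0)⟩]⟩
def e118 : En := ⟨(nat_lit 62), (nat_lit 196609), (nat_lit 1), (nat_lit 1), [⟨(nat_lit 0), (nat_lit 42), (nat_lit 1), (nat_lit 0)⟩]⟩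
def e119 : En := ⟨(nat_lit 60), (nat_lit 19), (nat_lit 1), (nat_lit 1), [⟨(nat_lit 8), (nat_lit 40), (nat_lit 1), (nat_lit 0)⟩]⟩
def e120 : En := ⟨(nat_lit 50), (nat_lit 33), (nat_lit 1), (nat_lit 1), [⟨(nat_lit 6), (nat_lit 20), (nat_lit 1), (nat_lit 0)⟩]⟩
def e121 : En := ⟨(nat_lit 52), (nat_lit 65538), (nat_lit 1), (nat_lit 1), [⟨(nat_lit 8), (nat_lit 22), (nat_lit 1), (nat_lit 0)⟩]⟩
def e122 : En := ⟨(nat_lit 54), (nat_lit 135168), (nat_lit 1), (nat_lit 1), [⟨(nat_lit 0), (nat_lit 24), (nat_lit 1), (nat_lit 0)⟩]⟩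
def e123 : En := ⟨(nat_lit 56), (nat_lit 8448), (nat_lit 1), (nat_lit 1), [⟨(nat_lit 2), (nat_lit 26), (nat_lit 1), (nat_lit 0)⟩]⟩
def e124 : En := ⟨(nat_lit 58), (nat_lit 528), (nat_lit 1), (nat_lit 1), [⟨(nat_lit 4), (nat_lit 28), (nat_lit 1), (nat_lit 0)⟩]⟩
def e125 : En := ⟨(nat_lit 60), (nat_lit 273), (nat_lit 2), (nat_lit 1), [⟨(nat_lit 4), (nat_lit 20), (nat_lit 1), (nat_lit 0)⟩, ⟨(nat_lit 8), (nat_lit 28), (nat_lit 0), (nat_lit 1)⟩]⟩
def e126 : En := ⟨(nat_lit 62), (nat_lit 65553), (nat_lit 2), (nat_lit 1), [⟨(nat_lit 0), (nat_lit 20), (nat_lit 0), (nat_lit 1)⟩, ⟨(nat_lit 6), (nat_lit 22), (nat_lit 1), (nat_lit 0)⟩]⟩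
def e127 : En := ⟨(nat_lit 64), (nat_lit 69633), (nat_lit 2), (nat_lit 1), [⟨(nat_lit 2), (nat_lit 22), (nat_lit 0), (nat_lit 1)⟩, ⟨(nat_lit 8), (nat_lit 24), (nat_lit 1), (nat_lit 0)⟩]⟩
def e128 : En := ⟨(nat_lit 66), (nat_lit 69888), (nat_lit 2), (nat_lit 1), [⟨(nat_lit 0), (nat_lit 26), (nat_lit 1), (nat_lit 0)⟩, ⟨(nat_lit 4), (nat_lit 24), (nat_lit 0), (nat_lit 1)⟩]⟩
def e129 : En := ⟨(nat_lit 68), (nat_lit 4368), (nat_lit 2), (nat_lit 1), [⟨(nat_lit 2), (nat_lit 28), (nat_lit 1), (nat_lit 0)⟩, ⟨(nat_lit 6), (nat_lit 26), (nat_lit 0), (nat_lit 1)⟩]⟩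
def e130 : En := ⟨(nat_lit 60), (nat_lit 4369), (nat_lit 8), (nat_lit 3), [⟨(nat_lit 4), (nat_lit 40), (nat_lit 1), (nat_lit 0)⟩, ⟨(nat_lit 4), (nat_lit 50), (nb (nat_lit 1) (nat_lit 1216) (nat_lit 0)), (nat_lit 0)⟩, ⟨(nat_lit 6), (nat_lit 46), (nat_lit 0), (nb (nat_lit 1) (nat_lit 1216) (nat_lit 1))⟩, ⟨(nat_lit 6), (nat_lit 56), (nb (nat_lit 1) (nat_lit 1216) (nat_lit 0)), (nat_lit 0)⟩, ⟨(nat_lit 10), (nat_lit 18), (nat_lit 0), (nb (nat_lit 1) (nat_lit 1216) (nat_lit 1))⟩, ⟨(nat_lit 20), (nat_lit 26), (nb (nat_lit 1) (nat_lit 1216) (nat_lit 0)), (nat_lit 0)⟩]⟩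
def e131 : En := ⟨(nat_lit 62), (nat_lit 65809), (nat_lit 8), (nat_lit 3), [⟨(nat_lit 6), (nat_lit 42), (nat_lit 1), (nat_lit 0)⟩, ⟨(nat_lit 6), (nat_lit 52), (nb (nat_lit 1) (nat_lit 1216) (nat_lit 0)), (nat_lit 0)⟩, ⟨(nat_lit 8), (nat_lit 48), (nat_lit 0), (nb (nat_lit 1) (nat_lit 1216) (nat_lit 1))⟩, ⟨(nat_lit 8), (nat_lit 58), (nb (nat_lit 1) (nat_lit 1216) (nat_lit 0)), (nat_lit 0)⟩, ⟨(nat_lit 10), (nat_lit 12), (nb (nat_lit 1) (nat_lit 1216) (nat_lit 1)), (nat_lit 0)⟩, ⟨(nat_lit 22), (nat_lit 28), (nb (nat_lit 1) (nat_lit 1216) (nat_lit 0)), (nat_lit 0)⟩]⟩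
def e132 : En := ⟨(nat_lit 64), (nat_lit 69649), (nat_lit 8), (nat_lit 3), [⟨(nat_lit 0), (nat_lit 40), (nat_lit 0), (nb (nat_lit 1) (nat_lit 1216) (nat_lit 1))⟩, ⟨(nat_lit 0), (nat_lit 50), (nb (nat_lit 1) (nat_lit 1216) (nat_lit 0)), (nat_lit 0)⟩, ⟨(nat_lit 8), (nat_lit 44), (nat_lit 1), (nat_lit 0)⟩, ⟨(nat_lit 8), (nat_lit 54), (nb (nat_lit 1) (nat_lit 1216) (nat_lit 0)), (nat_lit 0)⟩, ⟨(nat_lit 12), (nat_lit 14), (nb (nat_lit 1) (nat_lit 1216) (nat_lit 1)), (nat_lit 0)⟩, ⟨(nat_lit 20), (nat_lit 24), (nat_lit 0), (nb (nat_lit 1) (nat_lit 1216) (nat_lit 0))⟩]⟩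
def e133 : En := ⟨(nat_lit 66), (nat_lit 69889), (nat_lit 8), (nat_lit 3), [⟨(nat_lit 0), (nat_lit 46), (nat_lit 1), (nat_lit 0)⟩, ⟨(nat_lit 0), (nat_lit 56), (nb (nat_lit 1) (nat_lit 1216) (nat_lit 0)), (nat_lit 0)⟩, ⟨(nat_lit 2), (nat_lit 42), (nat_lit 0), (nb (nat_lit 1) (nat_lit 1216) (nat_lit 1))⟩, ⟨(nat_lit 2), (nat_lit 52), (nb (nat_lit 1) (nat_lit 1216) (nat_lit 0)), (nat_lit 0)⟩, ⟨(nat_lit 14), (nat_lit 16), (nb (nat_lit 1) (nat_lit 1216) (nat_lit 1)), (nat_lit 0)⟩, ⟨(nat_lit 22), (nat_lit 26), (nat_lit 0), (nb (nat_lit 1) (nat_lit 1216) (nat_lit 0))⟩]⟩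
def e134 : En := ⟨(nat_lit 68), (nat_lit 69904), (nat_lit 8), (nat_lit 3), [⟨(nat_lit 2), (nat_lit 48), (nat_lit 1), (nat_lit 0)⟩, ⟨(nat_lit 2), (nat_lit 58), (nb (nat_lit 1) (nat_lit 1216) (nat_lit 0)), (nat_lit 0)⟩, ⟨(nat_lit 4), (nat_lit 44), (nat_lit 0), (nb (nat_lit 1) (nat_lit 1216) (nat_lit 1))⟩, ⟨(nat_lit 4), (nat_lit 54), (nb (nat_lit 1) (nat_lit 1216) (nat_lit 0)), (nat_lit 0)⟩, ⟨(nat_lit 16), (nat_lit 18), (nb (nat_lit 1) (nat_lit 1216) (nat_lit 1)), (nat_lit 0)⟩, ⟨(nat_lit 24), (nat_lit 28), (nat_lit 0), (nb (nat_lit 1) (nat_lit 1216) (nat_lit 0))⟩]⟩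
def e135 : En := ⟨(nat_lit 50), (nat_lit 4113), (nat_lit 2), (nat_lit 1), [⟨(nat_lit 2), (nat_lit 20), (nat_lit 1), (nat_lit 0)⟩, ⟨(nat_lit 8), (nat_lit 18), (nat_lit 0), (nat_lit 1)⟩]⟩
def e136 : En := ⟨(nat_lit 52), (nat_lit 65793), (nat_lit 2), (nat_lit 1), [⟨(nat_lit 0), (nat_lit 10), (nat_lit 0), (nat_lit 1)⟩, ⟨(nat_lit 4), (nat_lit 22), (nat_lit 1), (nat_lit 0)⟩]⟩
def e137 : En := ⟨(nat_lit 54), (nat_lit 69648), (nat_lit 2), (nat_lit 1), [⟨(nat_lit 2), (nat_lit 12), (nat_lit 0), (nat_lit 1)⟩, ⟨(nat_lit 6), (nat_lit 24), (nat_lit 1), (nat_lit 0)⟩]⟩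
def e138 : En := ⟨(nat_lit 56), (nat_lit 4353), (nat_lit 2), (nat_lit 1), [⟨(nat_lit 4), (nat_lit 14), (nat_lit 0), (nat_lit 1)⟩, ⟨(nat_lit 8), (nat_lit 26), (nat_lit 1), (nat_lit 0)⟩]⟩
def e139 : En := ⟨(nat_lit 58), (nat_lit 65808), (nat_lit 2), (nat_lit 1), [⟨(nat_lit 0), (nat_lit 28), (nat_lit 1), (nat_lit 0)⟩, ⟨(nat_lit 6), (nat_lit 16), (nat_lit 0), (nat_lit 1)⟩]⟩
def e140 : En := ⟨(nat_lit 40), (nat_lit 4113), (nat_lit 4), (nat_lit 3), [⟨(nat_lit 2), (nat_lit 20), (nat_lit 1), (nat_lit 0)⟩, ⟨(nat_lit 6), (nat_lit 14), (nb (nat_lit 1) (nat_lit 1216) (nat_lit 0)), (nat_lit 0)⟩, ⟨(nat_lit 8), (nat_lit 18), (nat_lit 0), (nb (nat_lit 1) (nat_lit 1216) (nat_lit 1))⟩]⟩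
def e141 : En := ⟨(nat_lit 42), (nat_lit 65793), (nat_lit 4), (nat_lit 3), [⟨(nat_lit 0), (nat_lit 10), (nat_lit 0), (nb (nat_lit 1) (nat_lit 1216) (nat_lit 1))⟩, ⟨(nat_lit 4), (nat_lit 22), (nat_lit 1), (nat_lit 0)⟩, ⟨(nat_lit 8), (nat_lit 16), (nb (nat_lit 1) (nat_lit 1216) (nat_lit 0)), (nat_lit 0)⟩]⟩
def e142 : En := ⟨(nat_lit 44), (nat_lit 69648), (nat_lit 4), (nat_lit 3), [⟨(nat_lit 0), (nat_lit 18), (nb (nat_lit 1) (nat_lit 1216) (nat_lit 0)), (nat_lit 0)⟩, ⟨(nat_lit 2), (nat_lit 12), (nat_lit 0), (nb (nat_lit 1) (nat_lit 1216) (nat_lit 1))⟩, ⟨(nat_lit 6), (nat_lit 24), (nat_lit 1), (nat_lit 0)⟩]⟩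
def e143 : En := ⟨(nat_lit 46), (nat_lit 4353), (nat_lit 4), (nat_lit 3), [⟨(nat_lit 2), (nat_lit 10), (nb (nat_lit 1) (nat_lit 1216) (nat_lit 0)), (nat_lit 0)⟩, ⟨(nat_lit 4), (nat_lit 14), (nat_lit 0), (nb (nat_lit 1) (nat_lit 1216) (nat_lit 1))⟩, ⟨(nat_lit 8), (nat_lit 26), (nat_lit 1), (nat_lit 0)⟩]⟩
def e144 : En := ⟨(nat_lit 48), (nat_lit 65808), (nat_lit 4), (nat_lit 3), [⟨(nat_lit 0), (nat_lit 28), (nat_lit 1), (nat_lit 0)⟩, ⟨(nat_lit 4), (nat_lit 12), (nb (nat_lit 1) (nat_lit 1216) (nat_lit 0)), (nat_lit 0)⟩, ⟨(nat_lit 6), (nat_lit 16), (nat_lit 0), (nb (nat_lit 1) (nat_lit 1216) (nat_lit 1))⟩]⟩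
def e145 : En := ⟨(nat_lit 60), (nat_lit 4369), (nat_lit 7), (nat_lit 1), [⟨(nat_lit 4), (nat_lit 50), (nat_lit 2), (nat_lit 0)⟩, ⟨(nat_lit 6), (nat_lit 56), (nat_lit 2), (nat_lit 0)⟩, ⟨(nat_lit 10), (nat_lit 18), (nat_lit 0), (nat_lit 1)⟩, ⟨(nat_lit 20), (nat_lit 26), (nat_lit 2), (nat_lit 0)⟩]⟩
def e146 : En := ⟨(nat_lit 62), (nat_lit 65809), (nat_lit 7), (nat_lit 1), [⟨(nat_lit 6), (nat_lit 52), (nat_lit 2), (nat_lit 0)⟩, ⟨(nat_lit 8), (nat_lit 58), (nat_lit 2), (nat_lit 0)⟩, ⟨(nat_lit 10), (nat_lit 12), (nat_lit 1), (nat_lit 0)⟩, ⟨(nat_lit 22), (nat_lit 28), (nat_lit 2), (nat_lit 0)⟩]⟩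
def e147 : En := ⟨(nat_lit 64), (nat_lit 69649), (nat_lit 7), (nat_lit 1), [⟨(nat_lit 0), (nat_lit 50), (nat_lit 2), (nat_lit 0)⟩, ⟨(nat_lit 8), (nat_lit 54), (nat_lit 2), (nat_lit 0)⟩, ⟨(nat_lit 12), (nat_lit 14), (nat_lit 1), (nat_lit 0)⟩, ⟨(nat_lit 20), (nat_lit 24), (nat_lit 0), (nat_lit 2)⟩]⟩
def e148 : En := ⟨(nat_lit 66), (nat_lit 69889), (nat_lit 7), (nat_lit 1), [⟨(nat_lit 0), (nat_lit 56), (nat_lit 2), (nat_lit 0)⟩, ⟨(nat_lit 2), (nat_lit 52), (nat_lit 2), (nat_lit 0)⟩, ⟨(nat_lit 14), (nat_lit 16), (nat_lit 1), (nat_lit 0)⟩, ⟨(nat_lit 22), (nat_lit 26), (nat_lit 0), (nat_lit 2)⟩]⟩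
def e149 : En := ⟨(nat_lit 68), (nat_lit 69904), (nat_lit 7), (nat_lit 1), [⟨(nat_lit 2), (nat_lit 58), (nat_lit 2), (nat_lit 0)⟩, ⟨(nat_lit 4), (nat_lit 54), (nat_lit 2), (nat_lit 0)⟩, ⟨(nat_lit 16), (nat_lit 18), (nat_lit 1), (nat_lit 0)⟩, ⟨(nat_lit 24), (nat_lit 28), (nat_lit 0), (nat_lit 2)⟩]⟩
def e150 : En := ⟨(nat_lit 40), (nat_lit 513), (nat_lit 2), (nat_lit 1), [⟨(nat_lit 4), (nat_lit 10), (nat_lit 2), (nat_lit 0)⟩]⟩
def e151 : En := ⟨(nat_lit 42), (nat_lit 65568), (nat_lit 2), (nat_lit 1), [⟨(nat_lit 6), (nat_lit 12), (nat_lit 2), (nat_lit 0)⟩]⟩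
def e152 : En := ⟨(nat_lit 44), (nat_lit 4098), (nat_lit 2), (nat_lit 1), [⟨(nat_lit 8), (nat_lit 14), (nat_lit 2), (nat_lit 0)⟩]⟩
def e153 : En := ⟨(nat_lit 46), (nat_lit 131328), (nat_lit 2), (nat_lit 1), [⟨(nat_lit 0), (nat_lit 16), (nat_lit 2), (nat_lit 0)⟩]⟩
def e154 : En := ⟨(nat_lit 48), (nat_lit 8208), (nat_lit 2), (nat_lit 1), [⟨(nat_lit 2), (nat_lit 18), (nat_lit 2), (nat_lit 0)⟩]⟩
def e155 : En := ⟨(nat_lit 50), (nat_lit 4113), (nat_lit 4), (nat_lit 1), [⟨(nat_lit 2), (nat_lit 20), (nat_lit 2), (nat_lit 0)⟩, ⟨(nat_lit 6), (nat_lit 14), (nat_lit 0), (nat_lit 1)⟩, ⟨(nat_lit 8), (nat_lit 18), (nat_lit 0), (nat_lit 1)⟩]⟩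
def e156 : En := ⟨(nat_lit 52), (nat_lit 65793), (nat_lit 4), (nat_lit 1), [⟨(nat_lit 0), (nat_lit 10), (nat_lit 0), (nat_lit 1)⟩, ⟨(nat_lit 4), (nat_lit 22), (nat_lit 2), (nat_lit 0)⟩, ⟨(nat_lit 8), (nat_lit 16), (nat_lit 0), (nat_lit 1)⟩]⟩
def e157 : En := ⟨(nat_lit 54), (nat_lit 69648), (nat_lit 4), (nat_lit 1), [⟨(nat_lit 0), (nat_lit 18), (nat_lit 0), (nat_lit 1)⟩, ⟨(nat_lit 2), (nat_lit 12), (nat_lit 0), (nat_lit 1)⟩, ⟨(nat_lit 6), (nat_lit 24), (nat_lit 2), (nat_lit 0)⟩]⟩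
def e158 : En := ⟨(nat_lit 56), (nat_lit 4353), (nat_lit 4), (nat_lit 1), [⟨(nat_lit 2), (nat_lit 10), (nat_lit 0), (nat_lit 1)⟩, ⟨(nat_lit 4), (nat_lit 14), (nat_lit 0), (nat_lit 1)⟩, ⟨(nat_lit 8), (nat_lit 26), (nat_lit 2), (nat_lit 0)⟩]⟩
def e159 : En := ⟨(nat_lit 58), (nat_lit 65808), (nat_lit 4), (nat_lit 1), [⟨(nat_lit 0), (nat_lit 28), (nat_lit 2), (nat_lit 0)⟩, ⟨(nat_lit 4), (nat_lit 12), (nat_lit 0), (nat_lit 1)⟩, ⟨(nat_lit 6), (nat_lit 16), (nat_lit 0), (nat_lit 1)⟩]⟩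
def e160 : En := ⟨(nat_lit 10), (nat_lit 257), (nat_lit 2), (nat_lit 1), [⟨(nat_lit 4), (nat_lit 8), (nat_lit 2), (nat_lit 0)⟩]⟩
def e161 : En := ⟨(nat_lit 12), (nat_lit 65552), (nat_lit 2), (nat_lit 1), [⟨(nat_lit 0), (nat_lit 6), (nat_lit 0), (nat_lit 2)⟩]⟩
def e162 : En := ⟨(nat_lit 14), (nat_lit 4097), (nat_lit 2), (nat_lit 1), [⟨(nat_lit 2), (nat_lit 8), (nat_lit 0), (nat_lit 2)⟩]⟩
def e163 : En := ⟨(nat_lit 16), (nat_lit 65792), (nat_lit 2), (nat_lit 1), [⟨(nat_lit 0), (nat_lit 4), (nat_lit 2), (nat_lit 0)⟩]⟩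
def e164 : En := ⟨(nat_lit 18), (nat_lit 4112), (nat_lit 2), (nat_lit 1), [⟨(nat_lit 2), (nat_lit 6), (nat_lit 2), (nat_lit 0)⟩]⟩
def e165 : En := ⟨(nat_lit 20), (nat_lit 17), (nat_lit 2), (nat_lit 1), [⟨(nat_lit 6), (nat_lit 8), (nat_lit 2), (nat_lit 0)⟩]⟩
def e166 : En := ⟨(nat_lit 22), (nat_lit 65537), (nat_lit 2), (nat_lit 1), [⟨(nat_lit 0), (nat_lit 8), (nat_lit 0), (nat_lit 2)⟩]⟩
def e167 : En := ⟨(nat_lit 24), (nat_lit 69632), (nat_lit 2), (nat_lit 1), [⟨(nat_lit 0), (nat_lit 2), (nat_lit 2), (nat_lit 0)⟩]⟩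
def e168 : En := ⟨(nat_lit 26), (nat_lit 4352), (nat_lit 2), (nat_lit 1), [⟨(nat_lit 2), (nat_lit 4), (nat_lit 2), (nat_lit 0)⟩]⟩
def e169 : En := ⟨(nat_lit 28), (nat_lit 272), (nat_lit 2), (nat_lit 1), [⟨(nat_lit 4), (nat_lit 6), (nat_lit 2), (nat_lit 0)⟩]⟩
def e170 : En := ⟨(nat_lit 50), (nat_lit 4113), (nat_lit 4), (nat_lit 3), [⟨(nat_lit 2), (nat_lit 20), (nat_lit 1), (nat_lit 0)⟩, ⟨(nat_lit 6), (nat_lit 14), (nb (nat_lit 1) (nat_lit 1216) (nat_lit 0)), (nat_lit 0)⟩, ⟨(nat_lit 8), (nat_lit 18), (nat_lit 0), (nb (nat_lit 1) (nat_lit 1216) (nat_lit 1))⟩]⟩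
def e171 : En := ⟨(nat_lit 52), (nat_lit 65793), (nat_lit 4), (nat_lit 3), [⟨(nat_lit 0), (nat_lit 10), (nat_lit 0), (nb (nat_lit 1) (nat_lit 1216) (nat_lit 1))⟩, ⟨(nat_lit 4), (nat_lit 22), (nat_lit 1), (nat_lit 0)⟩, ⟨(nat_lit 8), (nat_lit 16), (nb (nat_lit 1) (nat_lit 1216) (nat_lit 0)), (nat_lit 0)⟩]⟩
def e172 : En := ⟨(nat_lit 54), (nat_lit 69648), (nat_lit 4), (nat_lit 3), [⟨(nat_lit 0), (nat_lit 18), (nb (nat_lit 1) (nat_lit 1216) (nat_lit 0)), (nat_lit 0)⟩, ⟨(nat_lit 2), (nat_lit 12), (nat_lit 0), (nb (nat_lit 1) (nat_lit 1216) (nat_lit 1))⟩, ⟨(nat_lit 6), (nat_lit 24), (nat_lit 1), (nat_lit 0)⟩]⟩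
def e173 : En := ⟨(nat_lit 56), (nat_lit 4353), (nat_lit 4), (nat_lit 3), [⟨(nat_lit 2), (nat_lit 10), (nb (nat_lit 1) (nat_lit 1216) (nat_lit 0)), (nat_lit 0)⟩, ⟨(nat_lit 4), (nat_lit 14), (nat_lit 0), (nb (nat_lit 1) (nat_lit 1216) (nat_lit 1))⟩, ⟨(nat_lit 8), (nat_lit 26), (nat_lit 1), (nat_lit 0)⟩]⟩
def e174 : En := ⟨(nat_lit 58), (nat_lit 65808), (nat_lit 4), (nat_lit 3), [⟨(nat_lit 0), (nat_lit 28), (nat_lit 1), (nat_lit 0)⟩, ⟨(nat_lit 4), (nat_lit 12), (nb (nat_lit 1) (nat_lit 1216) (nat_lit 0)), (nat_lit 0)⟩, ⟨(nat_lit 6), (nat_lit 16), (nat_lit 0), (nb (nat_lit 1) (nat_lit 1216) (nat_lit 1))⟩]⟩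
def e175 : En := ⟨(nat_lit 60), (nat_lit 4369), (nat_lit 3), (nat_lit 1), [⟨(nat_lit 4), (nat_lit 50), (nat_lit 1), (nat_lit 0)⟩, ⟨(nat_lit 6), (nat_lit 56), (nat_lit 0), (nat_lit 1)⟩, ⟨(nat_lit 10), (nat_lit 18), (nat_lit 0), (nat_lit 1)⟩]⟩
def e176 : En := ⟨(nat_lit 62), (nat_lit 65809), (nat_lit 3), (nat_lit 1), [⟨(nat_lit 6), (nat_lit 52), (nat_lit 1), (nat_lit 0)⟩, ⟨(nat_lit 8), (nat_lit 58), (nat_lit 0), (nat_lit 1)⟩, ⟨(nat_lit 10), (nat_lit 12), (nat_lit 1), (nat_lit 0)⟩]⟩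
def e177 : En := ⟨(nat_lit 64), (nat_lit 69649), (nat_lit 3), (nat_lit 1), [⟨(nat_lit 0), (nat_lit 50), (nat_lit 0), (nat_lit 1)⟩, ⟨(nat_lit 8), (nat_lit 54), (nat_lit 1), (nat_lit 0)⟩, ⟨(nat_lit 12), (nat_lit 14), (nat_lit 1), (nat_lit 0)⟩]⟩
def e178 : En := ⟨(nat_lit 66), (nat_lit 69889), (nat_lit 3), (nat_lit 1), [⟨(nat_lit 0), (nat_lit 56), (nat_lit 1), (nat_lit 0)⟩, ⟨(nat_lit 2), (nat_lit 52), (nat_lit 0), (nat_lit 1)⟩, ⟨(nat_lit 14), (nat_lit 16), (nat_lit 1), (nat_lit 0)⟩]⟩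
def e179 : En := ⟨(nat_lit 68), (nat_lit 69904), (nat_lit 3), (nat_lit 1), [⟨(nat_lit 2), (nat_lit 58), (nat_lit 1), (nat_lit 0)⟩, ⟨(nat_lit 4), (nat_lit 54), (nat_lit 0), (nat_lit 1)⟩, ⟨(nat_lit 16), (nat_lit 18), (nat_lit 1), (nat_lit 0)⟩]⟩
def e180 : En := ⟨(nat_lit 40), (nat_lit 273), (nat_lit 2), (nat_lit 1), [⟨(nat_lit 6), (nat_lit 10), (nat_lit 1), (nat_lit 0)⟩, ⟨(nat_lit 8), (nat_lit 28), (nat_lit 1), (nat_lit 0)⟩]⟩
def e181 : En := ⟨(nat_lit 42), (nat_lit 65553), (nat_lit 2), (nat_lit 1), [⟨(nat_lit 0), (nat_lit 20), (nat_lit 1), (nat_lit 0)⟩, ⟨(nat_lit 8), (nat_lit 12), (nat_lit 1), (nat_lit 0)⟩]⟩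
def e182 : En := ⟨(nat_lit 44), (nat_lit 69633), (nat_lit 2), (nat_lit 1), [⟨(nat_lit 0), (nat_lit 14), (nat_lit 1), (nat_lit 0)⟩, ⟨(nat_lit 2), (nat_lit 22), (nat_lit 1), (nat_lit 0)⟩]⟩
def e183 : En := ⟨(nat_lit 46), (nat_lit 69888), (nat_lit 2), (nat_lit 1), [⟨(nat_lit 2), (nat_lit 16), (nat_lit 1), (nat_lit 0)⟩, ⟨(nat_lit 4), (nat_lit 24), (nat_lit 1), (nat_lit 0)⟩]⟩
def e184 : En := ⟨(nat_lit 48), (nat_lit 4368), (nat_lit 2), (nat_lit 1), [⟨(nat_lit 4), (nat_lit 18), (nat_lit 1), (nat_lit 0)⟩, ⟨(nat_lit 6), (nat_lit 26), (nat_lit 1), (nat_lit 0)⟩]⟩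
def e185 : En := ⟨(nat_lit 60), (nat_lit 4369), (nat_lit 7), (nat_lit 3), [⟨(nat_lit 2), (nat_lit 40), (nb (nat_lit 1) (nat_lit 1216) (nat_lit 1)), (nat_lit 0)⟩, ⟨(nat_lit 6), (nat_lit 56), (nat_lit 1), (nat_lit 0)⟩, ⟨(nat_lit 8), (nat_lit 48), (nat_lit 1), (nat_lit 0)⟩, ⟨(nat_lit 10), (nat_lit 18), (nat_lit 0), (nat_lit 1)⟩, ⟨(nat_lit 14), (nat_lit 28), (nat_lit 0), (nb (nat_lit 1) (nat_lit 1216) (nat_lit 1))⟩]⟩
def e186 : En := ⟨(nat_lit 62), (nat_lit 65809), (nat_lit 7), (nat_lit 3), [⟨(nat_lit 0), (nat_lit 40), (nat_lit 1), (nat_lit 0)⟩, ⟨(nat_lit 4), (nat_lit 42), (nb (nat_lit 1) (nat_lit 1216) (nat_lit 1)), (nat_lit 0)⟩, ⟨(nat_lit 8), (nat_lit 58), (nat_lit 1), (nat_lit 0)⟩, ⟨(nat_lit 10), (nat_lit 12), (nat_lit 1), (nat_lit 0)⟩, ⟨(nat_lit 16), (nat_lit 20), (nat_lit 0), (nb (nat_lit 1) (nat_lit 1216) (nat_lit 1))⟩]⟩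
def e187 : En := ⟨(nat_lit 64), (nat_lit 69649), (nat_lit 7), (nat_lit 3), [⟨(nat_lit 0), (nat_lit 50), (nat_lit 1), (nat_lit 0)⟩, ⟨(nat_lit 2), (nat_lit 42), (nat_lit 1), (nat_lit 0)⟩, ⟨(nat_lit 6), (nat_lit 44), (nb (nat_lit 1) (nat_lit 1216) (nat_lit 1)), (nat_lit 0)⟩, ⟨(nat_lit 12), (nat_lit 14), (nat_lit 1), (nat_lit 0)⟩, ⟨(nat_lit 18), (nat_lit 22), (nat_lit 0), (nb (nat_lit 1) (nat_lit 1216) (nat_lit 1))⟩]⟩
def e188 : En := ⟨(nat_lit 66), (nat_lit 69889), (nat_lit 7), (nat_lit 3), [⟨(nat_lit 2), (nat_lit 52), (nat_lit 1), (nat_lit 0)⟩, ⟨(nat_lit 4), (nat_lit 44), (nat_lit 1), (nat_lit 0)⟩, ⟨(nat_lit 8), (nat_lit 46), (nb (nat_lit 1) (nat_lit 1216) (nat_lit 1)), (nat_lit 0)⟩, ⟨(nat_lit 10), (nat_lit 24), (nat_lit 0), (nb (nat_lit 1) (nat_lit 1216) (nat_lit 1))⟩, ⟨(nat_lit 14), (nat_lit 16), (nat_lit 1), (nat_lit 0)⟩]⟩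
def e189 : En := ⟨(nat_lit 68), (nat_lit 69904), (nat_lit 7), (nat_lit 3), [⟨(nat_lit 0), (nat_lit 48), (nb (nat_lit 1) (nat_lit 1216) (nat_lit 1)), (nat_lit 0)⟩, ⟨(nat_lit 4), (nat_lit 54), (nat_lit 1), (nat_lit 0)⟩, ⟨(nat_lit 6), (nat_lit 46), (nat_lit 1), (nat_lit 0)⟩, ⟨(nat_lit 12), (nat_lit 26), (nat_lit 0), (nb (nat_lit 1) (nat_lit 1216) (nat_lit 1))⟩, ⟨(nat_lit 16), (nat_lit 18), (nat_lit 1), (nat_lit 0)⟩]⟩
def e190 : En := ⟨(nat_lit 60), (nat_lit 4369), (nat_lit 13), (nat_lit 15), [⟨(nat_lit 2), (nat_lit 40), (nb (nat_lit 1) (nat_lit 14592) (nb (nat_lit 1) (nat_lit 13376) (nb (nat_lit 1) (nat_lit 1216) (nat_lit 0)))), (nat_lit 0)⟩, ⟨(nat_lit 4), (nat_lit 50), (nat_lit 1), (nat_lit 0)⟩, ⟨(nat_lit 6), (nat_lit 56), (nb (nat_lit 1) (nat_lit 13376) (nat_lit 0)), (nat_lit 0)⟩, ⟨(nat_lit 8), (nat_lit 48), (nb (nat_lit 1) (nat_lit 13376) (nat_lit 0)), (nat_lit 1)⟩, ⟨(nat_lit 10), (nat_lit 18), (nat_lit 0), (nb (nat_lit 1) (nat_lit 13376) (nb (nat_lit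 1) (nat_lit 1216) (nat_lit 0)))⟩, ⟨(nat_lit 14), (nat_lit 28), (nat_lit 0), (nb (nat_lit 1) (nat_lit 14592) (nb (nat_lit 1) (nat_lit 13376) (nb (nat_lit 1) (nat_lit 1216) (nat_lit 0))))⟩, ⟨(nat_lit 20), (nat_lit 26), (nat_lit 1), (nat_lit 0)⟩]⟩
def e191 : En := ⟨(nat_lit 62), (nat_lit 65809), (nat_lit 13), (nat_lit 15), [⟨(nat_lit 0), (nat_lit 40), (nb (nat_lit 1) (nat_lit 13376) (nat_lit 0)), (nat_lit 1)⟩, ⟨(nat_lit 4), (nat_lit 42), (nb (nat_lit 1) (nat_lit 14592) (nb (nat_lit 1) (nat_lit 13376) (nb (nat_lit 1) (nat_lit 1216) (nat_lit 0)))), (nat_lit 0)⟩, ⟨(nat_lit 6), (nat_lit 52), (nat_lit 1), (nat_lit 0)⟩, ⟨(nat_lit 8), (nat_lit 58), (nb (nat_lit 1) (nat_lit 13376) (nat_lit 0)), (nat_lit 0)⟩, ⟨(nat_lit 10), (nat_lit 12), (nb (nat_lit 1) (nat_lit 13376) (nb (nat_lit 1) (nat_lit 1216) (nat_lit 0))), (nat_lit 0)⟩, ⟨(nat_lit 16), (nat_lit 20), (nat_lit 0), (nb (nat_lit 1) (nat_lit 14592) (nb (nat_lit 1) (nat_lit 13376) (nb (nat_lit 1) (nat_lit 1216)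 (nat_lit 0))))⟩, ⟨(nat_lit 22), (nat_lit 28), (nat_lit 1), (nat_lit 0)⟩]⟩
def e192 : En := ⟨(nat_lit 64), (nat_lit 69649), (nat_lit 13), (nat_lit 15), [⟨(nat_lit 0), (nat_lit 50), (nb (nat_lit 1) (nat_lit 13376) (nat_lit 0)), (nat_lit 0)⟩, ⟨(nat_lit 2), (nat_lit 42), (nb (nat_lit 1) (nat_lit 13376) (nat_lit 0)), (nat_lit 1)⟩, ⟨(nat_lit 6), (nat_lit 44), (nb (nat_lit 1) (nat_lit 14592) (nb (nat_lit 1) (nat_lit 13376) (nb (nat_lit 1) (nat_lit 1216) (nat_lit 0)))), (nat_lit 0)⟩, ⟨(nat_lit 8), (nat_lit 54), (nat_lit 1), (nat_lit 0)⟩, ⟨(nat_lit 12), (nat_lit 14), (nb (nat_lit 1) (nat_lit 13376) (nb (nat_lit 1) (nat_lit 1216) (nat_lit 0))), (nat_lit 0)⟩, ⟨(nat_lit 18), (nat_lit 22), (nat_lit 0), (nb (nat_lit 1) (nat_lit 14592) (nb (nat_lit 1) (nat_lit 13376) (nb (nat_lit 1) (nat_lit 1216) (nat_lit 0))))⟩, ⟨(nat_lit 20), (nat_lit 24), (nat_lit 0), (nat_lit 1)⟩]⟩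
def e193 : En := ⟨(nat_lit 66), (nat_lit 69889), (nat_lit 13), (nat_lit 15), [⟨(nat_lit 0), (nat_lit 56), (nat_lit 1), (nat_lit 0)⟩, ⟨(nat_lit 2), (nat_lit 52), (nb (nat_lit 1) (nat_lit 13376) (nat_lit 0)), (nat_lit 0)⟩, ⟨(nat_lit 4), (nat_lit 44), (nb (nat_lit 1) (nat_lit 13376) (nat_lit 0)), (nat_lit 1)⟩, ⟨(nat_lit 8), (nat_lit 46), (nb (nat_lit 1) (nat_lit 14592) (nb (nat_lit 1) (nat_lit 13376) (nb (nat_lit 1) (nat_lit 1216) (nat_lit 0)))), (nat_lit 0)⟩, ⟨(nat_lit 10), (nat_lit 24), (nat_lit 0), (nb (nat_lit 1) (nat_lit 14592) (nb (nat_lit 1) (nat_lit 13376) (nb (nat_lit 1) (nat_lit 1216) (nat_lit 0))))⟩, ⟨(nat_lit 14), (nat_lit 16), (nb (nat_lit 1) (nat_lit 13376) (nb (nat_lit 1) (nat_lit 1216) (nat_lit 0))), (nat_lit 0)⟩, ⟨(nat_lit 22), (nat_lit 26), (nat_lit 0), (nat_lit 1)⟩]⟩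
def e194 : En := ⟨(nat_lit 68), (nat_lit 69904), (nat_lit 13), (nat_lit 15), [⟨(nat_lit 0), (nat_lit 48), (nb (nat_lit 1) (nat_lit 14592) (nb (nat_lit 1) (nat_lit 13376) (nb (nat_lit 1) (nat_lit 1216) (nat_lit 0)))), (nat_lit 0)⟩, ⟨(nat_lit 2), (nat_lit 58), (nat_lit 1), (nat_lit 0)⟩, ⟨(nat_lit 4), (nat_lit 54), (nb (nat_lit 1) (nat_lit 13376) (nat_lit 0)), (nat_lit 0)⟩, ⟨(nat_lit 6), (nat_lit 46), (nb (nat_lit 1) (nat_lit 13376) (nat_lit 0)), (nat_lit 1)⟩, ⟨(nat_lit 12), (nat_lit 26), (nat_lit 0), (nb (nat_lit 1) (nat_lit 14592) (nb (nat_lit 1) (nat_lit 13376) (nb (nat_lit 1) (nat_lit 1216) (nat_lit 0))))⟩, ⟨(nat_lit 16), (nat_lit 18), (nb (nat_lit 1) (nat_lit 13376) (nb (nat_lit 1) (nat_lit 1216) (nat_lit 0))), (nat_lit 0)⟩, ⟨(nat_lit 24), (nat_lit 28), (nat_lit 0), (nat_lit 1)⟩]⟩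
def e195 : En := ⟨(nat_lit 60), (nat_lit 4369), (nat_lit 27), (nat_lit 72), [⟨(nat_lit 2), (nat_lit 40), (nb (nat_lit 0x20000000000000001) (nat_lit 1344) (nb (nat_lit 0x10000000000000001) (nat_lit 128) (nat_lit 0))), (nat_lit 0)⟩, ⟨(nat_lit 4), (nat_lit 50), (nat_lit 0x1000000000000000000000000000000000000000000000000), (nb (nat_lit 1) (nat_lit 1216) (nat_lit 1))⟩, ⟨(nat_lit 6), (nat_lit 56), (nb (nat_lit 1) (nat_lit 1216) (nb (nat_lit 0x10000000000000001) (nat_lit 128) (nat_lit 0))), (nat_lit 0)⟩, ⟨(nat_lit 8), (nat_lit 48), (nb (nat_lit 2) (nat_lit 1216) (nat_lit 0x100000000000000000000000000000001)), (nat_lit 0)⟩, ⟨(nat_lit 10), (nat_lit 18), (nb (nat_lit 1) (nat_lit 2432) (nat_lit 0)), (nb (nat_lit 1) (nat_lit 1408) (nb (nat_lit 0x10000000000000001) (nat_lit 128) (nat_lit 0)))⟩, ⟨(nat_lit 14), (nat_lit 28), (nat_lit 0), (nb (nat_lit 0x20000000000000001) (nat_lit 1344) (nb (nat_lit 0x10000000000000001) (nat_lit 128) (nat_lit 0)))⟩, ⟨(nat_lit 20),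 (nat_lit 26), (nat_lit 0x1000000000000000000000000000000000000000000000000), (nb (nat_lit 1) (nat_lit 1216) (nat_lit 1))⟩]⟩
def e196 : En := ⟨(nat_lit 62), (nat_lit 65809), (nat_lit 27), (nat_lit 72), [⟨(nat_lit 0), (nat_lit 40), (nb (nat_lit 2) (nat_lit 1216) (nat_lit 0x100000000000000000000000000000001)), (nat_lit 0)⟩, ⟨(nat_lit 4), (nat_lit 42), (nb (nat_lit 0x20000000000000001) (nat_lit 1344) (nb (nat_lit 0x10000000000000001) (nat_lit 128) (nat_lit 0))), (nat_lit 0)⟩, ⟨(nat_lit 6), (nat_lit 52), (nat_lit 0x1000000000000000000000000000000000000000000000000), (nb (nat_lit 1) (nat_lit 1216) (nat_lit 1))⟩, ⟨(nat_lit 8), (nat_lit 58), (nb (nat_lit 1) (nat_lit 1216) (nb (nat_lit 0x10000000000000001) (nat_lit 128) (nat_lit 0))), (nat_lit 0)⟩, ⟨(nat_lit 10), (nat_lit 12), (nb (nat_lit 1) (nat_lit 1408) (nb (nat_lit 0x10000000000000001) (nat_lit 128) (nat_lit 0))), (nb (nat_lit 1) (nat_lit 2432) (nat_lit 0))⟩, ⟨(nat_lit 16), (nat_lit 20), (nat_lit 0),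 (nb (nat_lit 0x20000000000000001) (nat_lit 1344) (nb (nat_lit 0x10000000000000001) (nat_lit 128) (nat_lit 0)))⟩, ⟨(nat_lit 22), (nat_lit 28), (nat_lit 0x1000000000000000000000000000000000000000000000000), (nb (nat_lit 1) (nat_lit 1216) (nat_lit 1))⟩]⟩
def e197 : En := ⟨(nat_lit 64), (nat_lit 69649), (nat_lit 27), (nat_lit 72), [⟨(nat_lit 0), (nat_lit 50), (nb (nat_lit 1) (nat_lit 1216) (nb (nat_lit 0x10000000000000001) (nat_lit 128) (nat_lit 0))), (nat_lit 0)⟩, ⟨(nat_lit 2), (nat_lit 42), (nb (nat_lit 2) (nat_lit 1216) (nat_lit 0x100000000000000000000000000000001)), (nat_lit 0)⟩, ⟨(nat_lit 6), (nat_lit 44), (nb (nat_lit 0x20000000000000001) (nat_lit 1344) (nb (nat_lit 0x10000000000000001) (nat_lit 128) (nat_lit 0))), (nat_lit 0)⟩, ⟨(nat_lit 8), (nat_lit 54), (nat_lit 0x1000000000000000000000000000000000000000000000000), (nb (nat_lit 1) (nat_lit 1216) (nat_lit 1))⟩, ⟨(nat_lit 12), (nat_lit 14), (nb (nat_lit 1) (nat_lit 1408) (nb (nat_lit 0x10000000000000001)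 (nat_lit 128) (nat_lit 0))), (nb (nat_lit 1) (nat_lit 2432) (nat_lit 0))⟩, ⟨(nat_lit 18), (nat_lit 22), (nat_lit 0), (nb (nat_lit 0x20000000000000001) (nat_lit 1344) (nb (nat_lit 0x10000000000000001) (nat_lit 128) (nat_lit 0)))⟩, ⟨(nat_lit 20), (nat_lit 24), (nb (nat_lit 1) (nat_lit 1216) (nat_lit 1)), (nat_lit 0x1000000000000000000000000000000000000000000000000)⟩]⟩
def e198 : En := ⟨(nat_lit 66), (nat_lit 69889), (nat_lit 27), (nat_lit 72), [⟨(nat_lit 0), (nat_lit 56), (nat_lit 0x1000000000000000000000000000000000000000000000000), (nb (nat_lit 1) (nat_lit 1216) (nat_lit 1))⟩, ⟨(nat_lit 2), (nat_lit 52), (nb (nat_lit 1) (nat_lit 1216) (nb (nat_lit 0x10000000000000001) (nat_lit 128) (nat_lit 0))), (nat_lit 0)⟩, ⟨(nat_lit 4), (nat_lit 44), (nb (nat_lit 2) (nat_lit 1216) (nat_lit 0x100000000000000000000000000000001)), (nat_lit 0)⟩, ⟨(nat_lit 8), (nat_lit 46), (nb (nat_lit 0x20000000000000001) (nat_lit 1344) (nb (nat_lit 0x10000000000000001) (nat_lit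 128) (nat_lit 0))), (nat_lit 0)⟩, ⟨(nat_lit 10), (nat_lit 24), (nat_lit 0), (nb (nat_lit 0x20000000000000001) (nat_lit 1344) (nb (nat_lit 0x10000000000000001) (nat_lit 128) (nat_lit 0)))⟩, ⟨(nat_lit 14), (nat_lit 16), (nb (nat_lit 1) (nat_lit 1408) (nb (nat_lit 0x10000000000000001) (nat_lit 128) (nat_lit 0))), (nb (nat_lit 1) (nat_lit 2432) (nat_lit 0))⟩, ⟨(nat_lit 22), (nat_lit 26), (nb (nat_lit 1) (nat_lit 1216) (nat_lit 1)), (nat_lit 0x1000000000000000000000000000000000000000000000000)⟩]⟩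
def e199 : En := ⟨(nat_lit 68), (nat_lit 69904), (nat_lit 27), (nat_lit 72), [⟨(nat_lit 0), (nat_lit 48), (nb (nat_lit 0x20000000000000001) (nat_lit 1344) (nb (nat_lit 0x10000000000000001) (nat_lit 128) (nat_lit 0))), (nat_lit 0)⟩, ⟨(nat_lit 2), (nat_lit 58), (nat_lit 0x1000000000000000000000000000000000000000000000000), (nb (nat_lit 1) (nat_lit 1216) (nat_lit 1))⟩, ⟨(nat_lit 4), (nat_lit 54), (nb (nat_lit 1) (nat_lit 1216) (nb (nat_lit 0x10000000000000001) (nat_lit 128) (nat_lit 0))), (nat_lit 0)⟩, ⟨(nat_lit 6), (nat_lit 46), (nb (nat_lit 2) (nat_lit 1216) (nat_lit 0x100000000000000000000000000000001)), (nat_lit 0)⟩, ⟨(nat_lit 12), (nat_lit 26), (nat_lit 0), (nb (nat_lit 0x20000000000000001) (nat_lit 1344) (nb (nat_lit 0x10000000000000001) (nat_lit 128) (nat_lit 0)))⟩, ⟨(nat_lit 16), (nat_lit 18), (nb (nat_lit 1) (nat_lit 1408) (nb (nat_lit 0x10000000000000001) (nat_lit 128) (nat_lit 0))), (nb (nat_lit 1) (nat_lit 2432) (nat_lit 0))⟩, ⟨(nat_lit 24),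 (nat_lit 28), (nb (nat_lit 1) (nat_lit 1216) (nat_lit 1)), (nat_lit 0x1000000000000000000000000000000000000000000000000)⟩]⟩
def e200 : En := ⟨(nat_lit 40), (nat_lit 273), (nat_lit 6), (nat_lit 24), [⟨(nat_lit 6), (nat_lit 10), (nat_lit 0x1000000000000000000000000000000000000000000000000), (nb (nat_lit 1) (nat_lit 1216) (nat_lit 1))⟩, ⟨(nat_lit 8), (nat_lit 28), (nat_lit 0x1000000000000000000000000000000000000000000000000), (nb (nat_lit 1) (nat_lit 1216) (nat_lit 1))⟩]⟩
def e201 : En := ⟨(nat_lit 42), (nat_lit 65553), (nat_lit 6), (nat_lit 24), [⟨(nat_lit 0), (nat_lit 20), (nat_lit 0x1000000000000000000000000000000000000000000000000), (nb (nat_lit 1) (nat_lit 1216) (nat_lit 1))⟩, ⟨(nat_lit 8), (nat_lit 12), (nat_lit 0x1000000000000000000000000000000000000000000000000), (nb (nat_lit 1) (nat_lit 1216) (nat_lit 1))⟩]⟩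
def e202 : En := ⟨(nat_lit 44), (nat_lit 69633), (nat_lit 6), (nat_lit 24), [⟨(nat_lit 0), (nat_lit 14), (nat_lit 0x1000000000000000000000000000000000000000000000000), (nb (nat_lit 1) (nat_lit 1216) (nat_lit 1))⟩, ⟨(nat_lit 2), (nat_lit 22), (nat_lit 0x1000000000000000000000000000000000000000000000000), (nb (nat_lit 1) (nat_lit 1216) (nat_lit 1))⟩]⟩
def e203 : En := ⟨(nat_lit 46), (nat_lit 69888), (nat_lit 6), (nat_lit 24), [⟨(nat_lit 2), (nat_lit 16), (nat_lit 0x1000000000000000000000000000000000000000000000000), (nb (nat_lit 1) (nat_lit 1216) (nat_lit 1))⟩, ⟨(nat_lit 4), (nat_lit 24), (nat_lit 0x1000000000000000000000000000000000000000000000000), (nb (nat_lit 1) (nat_lit 1216) (nat_lit 1))⟩]⟩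
def e204 : En := ⟨(nat_lit 48), (nat_lit 4368), (nat_lit 6), (nat_lit 24), [⟨(nat_lit 4), (nat_lit 18), (nat_lit 0x1000000000000000000000000000000000000000000000000), (nb (nat_lit 1) (nat_lit 1216) (nat_lit 1))⟩, ⟨(nat_lit 6), (nat_lit 26), (nat_lit 0x1000000000000000000000000000000000000000000000000), (nb (nat_lit 1) (nat_lit 1216) (nat_lit 1))⟩]⟩
def e205 : En := ⟨(nat_lit 50), (nat_lit 4113), (nat_lit 12), (nat_lit 72), [⟨(nat_lit 2), (nat_lit 20), (nat_lit 0x1000000000000000000000000000000000000000000000000), (nb (nat_lit 1) (nat_lit 1216) (nat_lit 1))⟩, ⟨(nat_lit 6), (nat_lit 14), (nb (nat_lit 1) (nat_lit 1408) (nat_lit 0)), (nb (nat_lit 1) (nat_lit 2432) (nb (nat_lit 1) (nat_lit 1216) (nat_lit 0)))⟩, ⟨(nat_lit 8), (nat_lit 18), (nb (nat_lit 1) (nat_lit 2432) (nb (nat_lit 2) (nat_lit 1216) (nat_lit 1))), (nb (nat_lit 1) (nat_lit 1408) (nb (nat_lit 1) (nat_lit 192) (nat_lit 0)))⟩]⟩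
def e206 : En := ⟨(nat_lit 52), (nat_lit 65793), (nat_lit 12), (nat_lit 72), [⟨(nat_lit 0), (nat_lit 10), (nb (nat_lit 1) (nat_lit 2432) (nb (nat_lit 2) (nat_lit 1216) (nat_lit 1))), (nb (nat_lit 1) (nat_lit 1408) (nb (nat_lit 1) (nat_lit 192) (nat_lit 0)))⟩, ⟨(nat_lit 4), (nat_lit 22), (nat_lit 0x1000000000000000000000000000000000000000000000000), (nb (nat_lit 1) (nat_lit 1216) (nat_lit 1))⟩, ⟨(nat_lit 8), (nat_lit 16), (nb (nat_lit 1) (nat_lit 1408) (nat_lit 0)), (nb (nat_lit 1) (nat_lit 2432) (nb (nat_lit 1) (nat_lit 1216) (nat_lit 0)))⟩]⟩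
def e207 : En := ⟨(nat_lit 54), (nat_lit 69648), (nat_lit 12), (nat_lit 72), [⟨(nat_lit 0), (nat_lit 18), (nb (nat_lit 1) (nat_lit 1408) (nat_lit 0)), (nb (nat_lit 1) (nat_lit 2432) (nb (nat_lit 1) (nat_lit 1216) (nat_lit 0)))⟩, ⟨(nat_lit 2), (nat_lit 12), (nb (nat_lit 1) (nat_lit 2432) (nb (nat_lit 2) (nat_lit 1216) (nat_lit 1))), (nb (nat_lit 1) (nat_lit 1408) (nb (nat_lit 1) (nat_lit 192) (nat_lit 0)))⟩, ⟨(nat_lit 6), (nat_lit 24), (nat_lit 0x1000000000000000000000000000000000000000000000000), (nb (nat_lit 1) (nat_lit 1216) (nat_lit 1))⟩]⟩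
def e208 : En := ⟨(nat_lit 56), (nat_lit 4353), (nat_lit 12), (nat_lit 72), [⟨(nat_lit 2), (nat_lit 10), (nb (nat_lit 1) (nat_lit 1408) (nat_lit 0)), (nb (nat_lit 1) (nat_lit 2432) (nb (nat_lit 1) (nat_lit 1216) (nat_lit 0)))⟩, ⟨(nat_lit 4), (nat_lit 14), (nb (nat_lit 1) (nat_lit 2432) (nb (nat_lit 2) (nat_lit 1216) (nat_lit 1))), (nb (nat_lit 1) (nat_lit 1408) (nb (nat_lit 1) (nat_lit 192) (nat_lit 0)))⟩, ⟨(nat_lit 8), (nat_lit 26), (nat_lit 0x1000000000000000000000000000000000000000000000000), (nb (nat_lit 1) (nat_lit 1216) (nat_lit 1))⟩]⟩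
def e209 : En := ⟨(nat_lit 58), (nat_lit 65808), (nat_lit 12), (nat_lit 72), [⟨(nat_lit 0), (nat_lit 28), (nat_lit 0x1000000000000000000000000000000000000000000000000), (nb (nat_lit 1) (nat_lit 1216) (nat_lit 1))⟩, ⟨(nat_lit 4), (nat_lit 12), (nb (nat_lit 1) (nat_lit 1408) (nat_lit 0)), (nb (nat_lit 1) (nat_lit 2432) (nb (nat_lit 1) (nat_lit 1216) (nat_lit 0)))⟩, ⟨(nat_lit 6), (nat_lit 16), (nb (nat_lit 1) (nat_lit 2432) (nb (nat_lit 2) (nat_lit 1216) (nat_lit 1))), (nb (nat_lit 1) (nat_lit 1408) (nb (nat_lit 1) (nat_lit 192) (nat_lit 0)))⟩]⟩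
def e210 : En := ⟨(nat_lit 10), (nat_lit 257), (nat_lit 3), (nat_lit 24), [⟨(nat_lit 4), (nat_lit 8), (nat_lit 0x1000000000000000000000000000000000000000000000000), (nb (nat_lit 1) (nat_lit 1216) (nat_lit 1))⟩]⟩
def e211 : En := ⟨(nat_lit 12), (nat_lit 65552), (nat_lit 3), (nat_lit 24), [⟨(nat_lit 0), (nat_lit 6), (nb (nat_lit 1) (nat_lit 1216) (nat_lit 1)), (nat_lit 0x1000000000000000000000000000000000000000000000000)⟩]⟩
def e212 : En := ⟨(nat_lit 14), (nat_lit 4097), (nat_lit 3), (nat_lit 24), [⟨(nat_lit 2), (nat_lit 8), (nb (nat_lit 1) (nat_lit 1216) (nat_lit 1)), (nat_lit 0x1000000000000000000000000000000000000000000000000)⟩]⟩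
def e213 : En := ⟨(nat_lit 16), (nat_lit 65792), (nat_lit 3), (nat_lit 24), [⟨(nat_lit 0), (nat_lit 4), (nat_lit 0x1000000000000000000000000000000000000000000000000), (nb (nat_lit 1) (nat_lit 1216) (nat_lit 1))⟩]⟩
def e214 : En := ⟨(nat_lit 18), (nat_lit 4112), (nat_lit 3), (nat_lit 24), [⟨(nat_lit 2), (nat_lit 6), (nat_lit 0x1000000000000000000000000000000000000000000000000), (nb (nat_lit 1) (nat_lit 1216) (nat_lit 1))⟩]⟩
def e215 : En := ⟨(nat_lit 20), (nat_lit 17), (nat_lit 3), (nat_lit 24), [⟨(nat_lit 6), (nat_lit 8), (nat_lit 0x1000000000000000000000000000000000000000000000000), (nb (nat_lit 1) (nat_lit 1216) (nat_lit 1))⟩]⟩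
def e216 : En := ⟨(nat_lit 22), (nat_lit 65537), (nat_lit 3), (nat_lit 24), [⟨(nat_lit 0), (nat_lit 8), (nb (nat_lit 1) (nat_lit 1216) (nat_lit 1)), (nat_lit 0x1000000000000000000000000000000000000000000000000)⟩]⟩
def e217 : En := ⟨(nat_lit 24), (nat_lit 69632), (nat_lit 3), (nat_lit 24), [⟨(nat_lit 0), (nat_lit 2), (nat_lit 0x1000000000000000000000000000000000000000000000000), (nb (nat_lit 1) (nat_lit 1216) (nat_lit 1))⟩]⟩
def e218 : En := ⟨(nat_lit 26), (nat_lit 4352), (nat_lit 3), (nat_lit 24), [⟨(nat_lit 2), (nat_lit 4), (nat_lit 0x1000000000000000000000000000000000000000000000000), (nb (nat_lit 1) (nat_lit 1216) (nat_lit 1))⟩]⟩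
def e219 : En := ⟨(nat_lit 28), (nat_lit 272), (nat_lit 3), (nat_lit 24), [⟨(nat_lit 4), (nat_lit 6), (nat_lit 0x1000000000000000000000000000000000000000000000000), (nb (nat_lit 1) (nat_lit 1216) (nat_lit 1))⟩]⟩
def e220 : En := ⟨(nat_lit 75), (nat_lit 69905), (nat_lit 72), (nat_lit 24), [⟨(nat_lit 0), (nat_lit 60), (nat_lit 0x1000000000000000000000000000000000000000000000000), (nb (nat_lit 1) (nat_lit 1216) (nat_lit 1))⟩, ⟨(nat_lit 2), (nat_lit 62), (nat_lit 0x10000000000000000), (nb (nat_lit 1) (nat_lit 1408) (nb (nat_lit 1) (nat_lit 192) (nat_lit 0)))⟩, ⟨(nat_lit 4), (nat_lit 64), (nat_lit 0), (nb (nat_lit 1) (nat_lit 1280) (nat_lit 0x1000000000000000100000000000000020000000000000001))⟩, ⟨(nat_lit 6), (nat_lit 66), (nb (nat_lit 0x1000000000000000100000000000000010000000000000001) (nat_lit 1216) (nat_lit 0x1000000000000000200000000000000010000000000000001)), (nat_lit 0)⟩, ⟨(nat_lit 8), (nat_lit 68), (nat_lit 1), (nb (nat_lit 1) (nat_lit 1344) (nb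 (nat_lit 1) (nat_lit 128) (nat_lit 0)))⟩, ⟨(nat_lit 10), (nat_lit 54), (nat_lit 0), (nb (nat_lit 0x10000000000000001) (nat_lit 1280) (nat_lit 0x10000000000000001))⟩, ⟨(nat_lit 12), (nat_lit 56), (nb (nat_lit 0x100000000000000010000000000000001) (nat_lit 1280) (nat_lit 0x100000000000000010000000000000001)), (nat_lit 0)⟩, ⟨(nat_lit 14), (nat_lit 58), (nat_lit 0), (nb (nat_lit 0x10000000000000001) (nat_lit 1344) (nb (nat_lit 0x10000000000000001) (nat_lit 64) (nat_lit 0)))⟩, ⟨(nat_lit 16), (nat_lit 50), (nat_lit 0x1000000000000000100000000000000010000000000000000), (nb (nat_lit 0x10000000000000001) (nat_lit 1216) (nat_lit 0))⟩, ⟨(nat_lit 18), (nat_lit 52), (nb (nat_lit 0x100000000000000010000000000000001) (nat_lit 1216) (nat_lit 0)), (nat_lit 0x1000000000000000100000000000000000000000000000000)⟩, ⟨(nat_lit 20), (nat_lit 46), (nb (nat_lit 1) (nat_lit 1280) (nat_lit 0x1000000000000000100000000000000020000000000000001)), (nat_lit 0)⟩, ⟨(nat_lit 22), (nat_lit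 48), (nat_lit 0), (nb (nat_lit 0x1000000000000000100000000000000010000000000000001) (nat_lit 1216) (nat_lit 0x1000000000000000200000000000000010000000000000001))⟩, ⟨(nat_lit 24), (nat_lit 40), (nb (nat_lit 1) (nat_lit 1344) (nb (nat_lit 1) (nat_lit 128) (nat_lit 0))), (nat_lit 1)⟩, ⟨(nat_lit 26), (nat_lit 42), (nb (nat_lit 1) (nat_lit 1216) (nat_lit 1)), (nat_lit 0x1000000000000000000000000000000000000000000000000)⟩, ⟨(nat_lit 28), (nat_lit 44), (nb (nat_lit 1) (nat_lit 1408) (nb (nat_lit 1) (nat_lit 192) (nat_lit 0))), (nat_lit 0x10000000000000000)⟩]⟩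
def e221 : En := ⟨(nat_lit 60), (nat_lit 4369), (nat_lit 48), (nat_lit 72), [⟨(nat_lit 2), (nat_lit 40), (nb (nat_lit 0x2000000000000000200000000000000010000000000000002) (nat_lit 1216) (nat_lit 0x1000000000000000100000000000000000000000000000001)), (nat_lit 0)⟩, ⟨(nat_lit 4), (nat_lit 50), (nb (nat_lit 1) (nat_lit 1216) (nat_lit 0x1000000000000000100000000000000010000000000000002)), (nat_lit 0)⟩, ⟨(nat_lit 6), (nat_lit 56), (nat_lit 0x1000000000000000100000000000000000000000000000001), (nb (nat_lit 1) (nat_lit 1216) (nat_lit 0))⟩, ⟨(nat_lit 8), (nat_lit 48), (nat_lit 0), (nb (nat_lit 2) (nat_lit 1216) (nat_lit 0x10000000000000001))⟩, ⟨(nat_lit 10), (nat_lit 18), (nat_lit 0), (nb (nat_lit 1) (nat_lit 2432) (nb (nat_lit 0x1000000000000000100000000000000010000000000000001) (nat_lit 1216) (nat_lit 0x1000000000000000100000000000000000000000000000001)))⟩, ⟨(nat_lit 14), (nat_lit 28), (nat_lit 0), (nb (nat_lit 0x2000000000000000200000000000000010000000000000002)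 (nat_lit 1216) (nat_lit 0x1000000000000000100000000000000000000000000000001))⟩, ⟨(nat_lit 20), (nat_lit 26), (nb (nat_lit 1) (nat_lit 1216) (nat_lit 0x1000000000000000100000000000000010000000000000002)), (nat_lit 0)⟩]⟩
def e222 : En := ⟨(nat_lit 62), (nat_lit 65809), (nat_lit 48), (nat_lit 72), [⟨(nat_lit 0), (nat_lit 40), (nat_lit 0), (nb (nat_lit 2) (nat_lit 1216) (nat_lit 0x10000000000000001))⟩, ⟨(nat_lit 4), (nat_lit 42), (nb (nat_lit 0x2000000000000000200000000000000010000000000000002) (nat_lit 1216) (nat_lit 0x1000000000000000100000000000000000000000000000001)), (nat_lit 0)⟩, ⟨(nat_lit 6), (nat_lit 52), (nb (nat_lit 1) (nat_lit 1216) (nat_lit 0x1000000000000000100000000000000010000000000000002)), (nat_lit 0)⟩, ⟨(nat_lit 8), (nat_lit 58), (nat_lit 0x1000000000000000100000000000000000000000000000001), (nb (nat_lit 1) (nat_lit 1216) (nat_lit 0))⟩, ⟨(nat_lit 10), (nat_lit 12), (nb (nat_lit 1) (nat_lit 2432) (nb (nat_lit 0x1000000000000000100000000000000010000000000000001)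 (nat_lit 1216) (nat_lit 0x1000000000000000100000000000000000000000000000001))), (nat_lit 0)⟩, ⟨(nat_lit 16), (nat_lit 20), (nat_lit 0), (nb (nat_lit 0x2000000000000000200000000000000010000000000000002) (nat_lit 1216) (nat_lit 0x1000000000000000100000000000000000000000000000001))⟩, ⟨(nat_lit 22), (nat_lit 28), (nb (nat_lit 1) (nat_lit 1216) (nat_lit 0x1000000000000000100000000000000010000000000000002)), (nat_lit 0)⟩]⟩
def e223 : En := ⟨(nat_lit 64), (nat_lit 69649), (nat_lit 48), (nat_lit 72), [⟨(nat_lit 0), (nat_lit 50), (nat_lit 0x1000000000000000100000000000000000000000000000001), (nb (nat_lit 1) (nat_lit 1216) (nat_lit 0))⟩, ⟨(nat_lit 2), (nat_lit 42), (nat_lit 0), (nb (nat_lit 2) (nat_lit 1216) (nat_lit 0x10000000000000001))⟩, ⟨(nat_lit 6), (nat_lit 44), (nb (nat_lit 0x2000000000000000200000000000000010000000000000002) (nat_lit 1216) (nat_lit 0x1000000000000000100000000000000000000000000000001)), (nat_lit 0)⟩, ⟨(nat_lit 8), (nat_lit 54), (nb (nat_lit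 1) (nat_lit 1216) (nat_lit 0x1000000000000000100000000000000010000000000000002)), (nat_lit 0)⟩, ⟨(nat_lit 12), (nat_lit 14), (nb (nat_lit 1) (nat_lit 2432) (nb (nat_lit 0x1000000000000000100000000000000010000000000000001) (nat_lit 1216) (nat_lit 0x1000000000000000100000000000000000000000000000001))), (nat_lit 0)⟩, ⟨(nat_lit 18), (nat_lit 22), (nat_lit 0), (nb (nat_lit 0x2000000000000000200000000000000010000000000000002) (nat_lit 1216) (nat_lit 0x1000000000000000100000000000000000000000000000001))⟩, ⟨(nat_lit 20), (nat_lit 24), (nat_lit 0), (nb (nat_lit 1) (nat_lit 1216) (nat_lit 0x1000000000000000100000000000000010000000000000002))⟩]⟩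
def e224 : En := ⟨(nat_lit 66), (nat_lit 69889), (nat_lit 48), (nat_lit 72), [⟨(nat_lit 0), (nat_lit 56), (nb (nat_lit 1) (nat_lit 1216) (nat_lit 0x1000000000000000100000000000000010000000000000002)), (nat_lit 0)⟩, ⟨(nat_lit 2), (nat_lit 52), (nat_lit 0x1000000000000000100000000000000000000000000000001), (nb (nat_lit 1) (nat_lit 1216) (nat_lit 0))⟩, ⟨(nat_lit 4), (nat_lit 44), (nat_lit 0), (nb (nat_lit 2) (nat_lit 1216) (nat_lit 0x10000000000000001))⟩, ⟨(nat_lit 8), (nat_lit 46), (nb (nat_lit 0x2000000000000000200000000000000010000000000000002) (nat_lit 1216) (nat_lit 0x1000000000000000100000000000000000000000000000001)), (nat_lit 0)⟩, ⟨(nat_lit 10), (nat_lit 24), (nat_lit 0), (nb (nat_lit 0x2000000000000000200000000000000010000000000000002) (nat_lit 1216) (nat_lit 0x1000000000000000100000000000000000000000000000001))⟩, ⟨(nat_lit 14), (nat_lit 16), (nb (nat_lit 1) (nat_lit 2432) (nb (nat_lit 0x1000000000000000100000000000000010000000000000001) (nat_lit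 1216) (nat_lit 0x1000000000000000100000000000000000000000000000001))), (nat_lit 0)⟩, ⟨(nat_lit 22), (nat_lit 26), (nat_lit 0), (nb (nat_lit 1) (nat_lit 1216) (nat_lit 0x1000000000000000100000000000000010000000000000002))⟩]⟩
def e225 : En := ⟨(nat_lit 68), (nat_lit 69904), (nat_lit 48), (nat_lit 72), [⟨(nat_lit 0), (nat_lit 48), (nb (nat_lit 0x2000000000000000200000000000000010000000000000002) (nat_lit 1216) (nat_lit 0x1000000000000000100000000000000000000000000000001)), (nat_lit 0)⟩, ⟨(nat_lit 2), (nat_lit 58), (nb (nat_lit 1) (nat_lit 1216) (nat_lit 0x1000000000000000100000000000000010000000000000002)), (nat_lit 0)⟩, ⟨(nat_lit 4), (nat_lit 54), (nat_lit 0x1000000000000000100000000000000000000000000000001), (nb (nat_lit 1) (nat_lit 1216) (nat_lit 0))⟩, ⟨(nat_lit 6), (nat_lit 46), (nat_lit 0), (nb (nat_lit 2) (nat_lit 1216) (nat_lit 0x10000000000000001))⟩, ⟨(nat_lit 12), (nat_lit 26), (nat_lit 0), (nb (nat_lit 0x2000000000000000200000000000000010000000000000002)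 (nat_lit 1216) (nat_lit 0x1000000000000000100000000000000000000000000000001))⟩, ⟨(nat_lit 16), (nat_lit 18), (nb (nat_lit 1) (nat_lit 2432) (nb (nat_lit 0x1000000000000000100000000000000010000000000000001) (nat_lit 1216) (nat_lit 0x1000000000000000100000000000000000000000000000001))), (nat_lit 0)⟩, ⟨(nat_lit 24), (nat_lit 28), (nat_lit 0), (nb (nat_lit 1) (nat_lit 1216) (nat_lit 0x1000000000000000100000000000000010000000000000002))⟩]⟩
def e226 : En := ⟨(nat_lit 40), (nat_lit 273), (nat_lit 12), (nat_lit 24), [⟨(nat_lit 6), (nat_lit 10), (nb (nat_lit 1) (nat_lit 1216) (nat_lit 0x1000000000000000100000000000000010000000000000002)), (nat_lit 0)⟩, ⟨(nat_lit 8), (nat_lit 28), (nb (nat_lit 1) (nat_lit 1216) (nat_lit 0x1000000000000000100000000000000010000000000000002)), (nat_lit 0)⟩]⟩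
def e227 : En := ⟨(nat_lit 42), (nat_lit 65553), (nat_lit 12), (nat_lit 24), [⟨(nat_lit 0), (nat_lit 20), (nb (nat_lit 1) (nat_lit 1216) (nat_lit 0x1000000000000000100000000000000010000000000000002)), (nat_lit 0)⟩, ⟨(nat_lit 8), (nat_lit 12), (nb (nat_lit 1) (nat_lit 1216) (nat_lit 0x1000000000000000100000000000000010000000000000002)), (nat_lit 0)⟩]⟩
def e228 : En := ⟨(nat_lit 44), (nat_lit 69633), (nat_lit 12), (nat_lit 24), [⟨(nat_lit 0), (nat_lit 14), (nb (nat_lit 1) (nat_lit 1216) (nat_lit 0x1000000000000000100000000000000010000000000000002)), (nat_lit 0)⟩, ⟨(nat_lit 2), (nat_lit 22), (nb (nat_lit 1) (nat_lit 1216) (nat_lit 0x1000000000000000100000000000000010000000000000002)), (nat_lit 0)⟩]⟩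
def e229 : En := ⟨(nat_lit 46), (nat_lit 69888), (nat_lit 12), (nat_lit 24), [⟨(nat_lit 2), (nat_lit 16), (nb (nat_lit 1) (nat_lit 1216) (nat_lit 0x1000000000000000100000000000000010000000000000002)), (nat_lit 0)⟩, ⟨(nat_lit 4), (nat_lit 24), (nb (nat_lit 1) (nat_lit 1216) (nat_lit 0x1000000000000000100000000000000010000000000000002)), (nat_lit 0)⟩]⟩
def e230 : En := ⟨(nat_lit 48), (nat_lit 4368), (nat_lit 12), (nat_lit 24), [⟨(nat_lit 4), (nat_lit 18), (nb (nat_lit 1) (nat_lit 1216) (nat_lit 0x1000000000000000100000000000000010000000000000002)), (nat_lit 0)⟩, ⟨(nat_lit 6), (nat_lit 26), (nb (nat_lit 1) (nat_lit 1216) (nat_lit 0x1000000000000000100000000000000010000000000000002)), (nat_lit 0)⟩]⟩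
def e231 : En := ⟨(nat_lit 50), (nat_lit 4113), (nat_lit 24), (nat_lit 72), [⟨(nat_lit 2), (nat_lit 20), (nb (nat_lit 1) (nat_lit 1216) (nat_lit 0x1000000000000000100000000000000010000000000000002)), (nat_lit 0)⟩, ⟨(nat_lit 6), (nat_lit 14), (nb (nat_lit 1) (nat_lit 2432) (nb (nat_lit 0x1000000000000000100000000000000010000000000000002) (nat_lit 1216) (nat_lit 0))), (nat_lit 0)⟩, ⟨(nat_lit 8), (nat_lit 18), (nat_lit 0), (nb (nat_lit 1) (nat_lit 2432) (nb (nat_lit 0x1000000000000000100000000000000010000000000000003) (nat_lit 1216) (nat_lit 0x1000000000000000100000000000000010000000000000002)))⟩]⟩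
def e232 : En := ⟨(nat_lit 52), (nat_lit 65793), (nat_lit 24), (nat_lit 72), [⟨(nat_lit 0), (nat_lit 10), (nat_lit 0), (nb (nat_lit 1) (nat_lit 2432) (nb (nat_lit 0x1000000000000000100000000000000010000000000000003) (nat_lit 1216) (nat_lit 0x1000000000000000100000000000000010000000000000002)))⟩, ⟨(nat_lit 4), (nat_lit 22), (nb (nat_lit 1) (nat_lit 1216) (nat_lit 0x1000000000000000100000000000000010000000000000002)), (nat_lit 0)⟩, ⟨(nat_lit 8), (nat_lit 16), (nb (nat_lit 1) (nat_lit 2432) (nb (nat_lit 0x1000000000000000100000000000000010000000000000002) (nat_lit 1216) (nat_lit 0))), (nat_lit 0)⟩]⟩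
def e233 : En := ⟨(nat_lit 54), (nat_lit 69648), (nat_lit 24), (nat_lit 72), [⟨(nat_lit 0), (nat_lit 18), (nb (nat_lit 1) (nat_lit 2432) (nb (nat_lit 0x1000000000000000100000000000000010000000000000002) (nat_lit 1216) (nat_lit 0))), (nat_lit 0)⟩, ⟨(nat_lit 2), (nat_lit 12), (nat_lit 0), (nb (nat_lit 1) (nat_lit 2432) (nb (nat_lit 0x1000000000000000100000000000000010000000000000003) (nat_lit 1216) (nat_lit 0x1000000000000000100000000000000010000000000000002)))⟩, ⟨(nat_lit 6), (nat_lit 24), (nb (nat_lit 1) (nat_lit 1216) (nat_lit 0x1000000000000000100000000000000010000000000000002)), (nat_lit 0)⟩]⟩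
def e234 : En := ⟨(nat_lit 56), (nat_lit 4353), (nat_lit 24), (nat_lit 72), [⟨(nat_lit 2), (nat_lit 10), (nb (nat_lit 1) (nat_lit 2432) (nb (nat_lit 0x1000000000000000100000000000000010000000000000002) (nat_lit 1216) (nat_lit 0))), (nat_lit 0)⟩, ⟨(nat_lit 4), (nat_lit 14), (nat_lit 0), (nb (nat_lit 1) (nat_lit 2432) (nb (nat_lit 0x1000000000000000100000000000000010000000000000003) (nat_lit 1216) (nat_lit 0x1000000000000000100000000000000010000000000000002)))⟩, ⟨(nat_lit 8), (nat_lit 26), (nb (nat_lit 1) (nat_lit 1216) (nat_lit 0x1000000000000000100000000000000010000000000000002)), (nat_lit 0)⟩]⟩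
def e235 : En := ⟨(nat_lit 58), (nat_lit 65808), (nat_lit 24), (nat_lit 72), [⟨(nat_lit 0), (nat_lit 28), (nb (nat_lit 1) (nat_lit 1216) (nat_lit 0x1000000000000000100000000000000010000000000000002)), (nat_lit 0)⟩, ⟨(nat_lit 4), (nat_lit 12), (nb (nat_lit 1) (nat_lit 2432) (nb (nat_lit 0x1000000000000000100000000000000010000000000000002) (nat_lit 1216) (nat_lit 0))), (nat_lit 0)⟩, ⟨(nat_lit 6), (nat_lit 16), (nat_lit 0), (nb (nat_lit 1) (nat_lit 2432) (nb (nat_lit 0x1000000000000000100000000000000010000000000000003) (nat_lit 1216) (nat_lit 0x1000000000000000100000000000000010000000000000002)))⟩]⟩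
def e236 : En := ⟨(nat_lit 10), (nat_lit 257), (nat_lit 6), (nat_lit 24), [⟨(nat_lit 4), (nat_lit 8), (nb (nat_lit 1) (nat_lit 1216) (nat_lit 0x1000000000000000100000000000000010000000000000002)), (nat_lit 0)⟩]⟩
def e237 : En := ⟨(nat_lit 12), (nat_lit 65552), (nat_lit 6), (nat_lit 24), [⟨(nat_lit 0), (nat_lit 6), (nat_lit 0), (nb (nat_lit 1) (nat_lit 1216) (nat_lit 0x1000000000000000100000000000000010000000000000002))⟩]⟩
def e238 : En := ⟨(nat_lit 14), (nat_lit 4097), (nat_lit 6), (nat_lit 24), [⟨(nat_lit 2), (nat_lit 8), (nat_lit 0), (nb (nat_lit 1) (nat_lit 1216) (nat_lit 0x1000000000000000100000000000000010000000000000002))⟩]⟩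
def e239 : En := ⟨(nat_lit 16), (nat_lit 65792), (nat_lit 6), (nat_lit 24), [⟨(nat_lit 0), (nat_lit 4), (nb (nat_lit 1) (nat_lit 1216) (nat_lit 0x1000000000000000100000000000000010000000000000002)), (nat_lit 0)⟩]⟩
def e240 : En := ⟨(nat_lit 18), (nat_lit 4112), (nat_lit 6), (nat_lit 24), [⟨(nat_lit 2), (nat_lit 6), (nb (nat_lit 1) (nat_lit 1216) (nat_lit 0x1000000000000000100000000000000010000000000000002)), (nat_lit 0)⟩]⟩
def e241 : En := ⟨(nat_lit 20), (nat_lit 17), (nat_lit 6), (nat_lit 24), [⟨(nat_lit 6), (nat_lit 8), (nb (nat_lit 1) (nat_lit 1216) (nat_lit 0x1000000000000000100000000000000010000000000000002)), (nat_lit 0)⟩]⟩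
def e242 : En := ⟨(nat_lit 22), (nat_lit 65537), (nat_lit 6), (nat_lit 24), [⟨(nat_lit 0), (nat_lit 8), (nat_lit 0), (nb (nat_lit 1) (nat_lit 1216) (nat_lit 0x1000000000000000100000000000000010000000000000002))⟩]⟩
def e243 : En := ⟨(nat_lit 24), (nat_lit 69632), (nat_lit 6), (nat_lit 24), [⟨(nat_lit 0), (nat_lit 2), (nb (nat_lit 1) (nat_lit 1216) (nat_lit 0x1000000000000000100000000000000010000000000000002)), (nat_lit 0)⟩]⟩
def e244 : En := ⟨(nat_lit 26), (nat_lit 4352), (nat_lit 6), (nat_lit 24), [⟨(nat_lit 2), (nat_lit 4), (nb (nat_lit 1) (nat_lit 1216) (nat_lit 0x1000000000000000100000000000000010000000000000002)), (nat_lit 0)⟩]⟩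
def e245 : En := ⟨(nat_lit 28), (nat_lit 272), (nat_lit 6), (nat_lit 24), [⟨(nat_lit 4), (nat_lit 6), (nb (nat_lit 1) (nat_lit 1216) (nat_lit 0x1000000000000000100000000000000010000000000000002)), (nat_lit 0)⟩]⟩
def e246 : En := ⟨(nat_lit 73), (nat_lit 69905), (nat_lit 72), (nat_lit 24), [⟨(nat_lit 0), (nat_lit 60), (nb (nat_lit 1) (nat_lit 1216) (nat_lit 0x1000000000000000100000000000000010000000000000002)), (nat_lit 0)⟩, ⟨(nat_lit 2), (nat_lit 62), (nat_lit 0), (nb (nat_lit 0x1000000000000000100000000000000010000000000000001) (nat_lit 1216) (nat_lit 0x2000000000000000100000000000000010000000000000001))⟩, ⟨(nat_lit 4), (nat_lit 64), (nb (nat_lit 1) (nat_lit 1408) (nb (nat_lit 1) (nat_lit 192) (nat_lit 0))), (nat_lit 0x100000000000000000000000000000000)⟩, ⟨(nat_lit 6), (nat_lit 66), (nb (nat_lit 1) (nat_lit 1344) (nb (nat_lit 1) (nat_lit 128) (nat_lit 0))), (nat_lit 0x10000000000000000)⟩, ⟨(nat_lit 8), (nat_lit 68), (nb (nat_lit 1) (nat_lit 1280)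 (nb (nat_lit 1) (nat_lit 64) (nat_lit 0))), (nat_lit 1)⟩, ⟨(nat_lit 10), (nat_lit 54), (nb (nat_lit 0x100000000000000000000000000000001) (nat_lit 1280) (nat_lit 0x1000000000000000000000000000000000000000000000001)), (nat_lit 0)⟩, ⟨(nat_lit 12), (nat_lit 56), (nb (nat_lit 0x100000000000000000000000000000001) (nat_lit 1216) (nat_lit 0)), (nat_lit 0x1000000000000000000000000000000010000000000000001)⟩, ⟨(nat_lit 14), (nat_lit 58), (nat_lit 0x1000000000000000000000000000000010000000000000000), (nb (nat_lit 0x1000000000000000100000000000000000000000000000001) (nat_lit 1216) (nat_lit 0))⟩, ⟨(nat_lit 16), (nat_lit 50), (nb (nat_lit 0x1000000000000000000000000000000000000000000000001) (nat_lit 1216) (nat_lit 0x100000000000000000000000000000001)), (nat_lit 0)⟩, ⟨(nat_lit 18), (nat_lit 52), (nat_lit 0), (nb (nat_lit 0x1000000000000000000000000000000010000000000000001) (nat_lit 1216) (nat_lit 0x1000000000000000100000000000000000000000000000001))⟩, ⟨(nat_lit 20),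 (nat_lit 46), (nat_lit 0x100000000000000000000000000000000), (nb (nat_lit 1) (nat_lit 1408) (nb (nat_lit 1) (nat_lit 192) (nat_lit 0)))⟩, ⟨(nat_lit 22), (nat_lit 48), (nat_lit 0x10000000000000000), (nb (nat_lit 1) (nat_lit 1344) (nb (nat_lit 1) (nat_lit 128) (nat_lit 0)))⟩, ⟨(nat_lit 24), (nat_lit 40), (nat_lit 1), (nb (nat_lit 1) (nat_lit 1280) (nb (nat_lit 1) (nat_lit 64) (nat_lit 0)))⟩, ⟨(nat_lit 26), (nat_lit 42), (nat_lit 0), (nb (nat_lit 1) (nat_lit 1216) (nat_lit 0x1000000000000000100000000000000010000000000000002))⟩, ⟨(nat_lit 28), (nat_lit 44), (nb (nat_lit 0x1000000000000000100000000000000010000000000000001) (nat_lit 1216) (nat_lit 0x2000000000000000100000000000000010000000000000001)), (nat_lit 0)⟩]⟩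
def e247 : En := ⟨(nat_lit 60), (nat_lit 4369), (nat_lit 3), (nat_lit 1), [⟨(nat_lit 2), (nat_lit 50), (nat_lit 1), (nat_lit 0)⟩, ⟨(nat_lit 8), (nat_lit 58), (nat_lit 0), (nat_lit 1)⟩, ⟨(nat_lit 20), (nat_lit 26), (nat_lit 0), (nat_lit 1)⟩]⟩
def e248 : En := ⟨(nat_lit 62), (nat_lit 65809), (nat_lit 3), (nat_lit 1), [⟨(nat_lit 0), (nat_lit 50), (nat_lit 0), (nat_lit 1)⟩, ⟨(nat_lit 4), (nat_lit 52), (nat_lit 1), (nat_lit 0)⟩, ⟨(nat_lit 22), (nat_lit 28), (nat_lit 0), (nat_lit 1)⟩]⟩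
def e249 : En := ⟨(nat_lit 64), (nat_lit 69649), (nat_lit 3), (nat_lit 1), [⟨(nat_lit 2), (nat_lit 52), (nat_lit 0), (nat_lit 1)⟩, ⟨(nat_lit 6), (nat_lit 54), (nat_lit 1), (nat_lit 0)⟩, ⟨(nat_lit 20), (nat_lit 24), (nat_lit 1), (nat_lit 0)⟩]⟩
def e250 : En := ⟨(nat_lit 66), (nat_lit 69889), (nat_lit 3), (nat_lit 1), [⟨(nat_lit 4), (nat_lit 54), (nat_lit 0), (nat_lit 1)⟩, ⟨(nat_lit 8), (nat_lit 56), (nat_lit 1), (nat_lit 0)⟩, ⟨(nat_lit 22), (nat_lit 26), (nat_lit 1), (nat_lit 0)⟩]⟩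
def e251 : En := ⟨(nat_lit 68), (nat_lit 69904), (nat_lit 3), (nat_lit 1), [⟨(nat_lit 0), (nat_lit 58), (nat_lit 1), (nat_lit 0)⟩, ⟨(nat_lit 6), (nat_lit 56), (nat_lit 0), (nat_lit 1)⟩, ⟨(nat_lit 24), (nat_lit 28), (nat_lit 1), (nat_lit 0)⟩]⟩
def e252 : En := ⟨(nat_lit 40), (nat_lit 273), (nat_lit 4), (nat_lit 3), [⟨(nat_lit 4), (nat_lit 20), (nat_lit 1), (nat_lit 0)⟩, ⟨(nat_lit 6), (nat_lit 10), (nb (nat_lit 1) (nat_lit 1216) (nat_lit 0)), (nat_lit 0)⟩, ⟨(nat_lit 8), (nat_lit 28), (nb (nat_lit 1) (nat_lit 1216) (nat_lit 0)), (nat_lit 1)⟩]⟩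
def e253 : En := ⟨(nat_lit 42), (nat_lit 65553), (nat_lit 4), (nat_lit 3), [⟨(nat_lit 0), (nat_lit 20), (nb (nat_lit 1) (nat_lit 1216) (nat_lit 0)), (nat_lit 1)⟩, ⟨(nat_lit 6), (nat_lit 22), (nat_lit 1), (nat_lit 0)⟩, ⟨(nat_lit 8), (nat_lit 12), (nb (nat_lit 1) (nat_lit 1216) (nat_lit 0)), (nat_lit 0)⟩]⟩
def e254 : En := ⟨(nat_lit 44), (nat_lit 69633), (nat_lit 4), (nat_lit 3), [⟨(nat_lit 0), (nat_lit 14), (nb (nat_lit 1) (nat_lit 1216) (nat_lit 0)), (nat_lit 0)⟩, ⟨(nat_lit 2), (nat_lit 22), (nb (nat_lit 1) (nat_lit 1216) (nat_lit 0)), (nat_lit 1)⟩, ⟨(nat_lit 8), (nat_lit 24), (nat_lit 1), (nat_lit 0)⟩]⟩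
def e255 : En := ⟨(nat_lit 46), (nat_lit 69888), (nat_lit 4), (nat_lit 3), [⟨(nat_lit 0), (nat_lit 26), (nat_lit 1), (nat_lit 0)⟩, ⟨(nat_lit 2), (nat_lit 16), (nb (nat_lit 1) (nat_lit 1216) (nat_lit 0)), (nat_lit 0)⟩, ⟨(nat_lit 4), (nat_lit 24), (nb (nat_lit 1) (nat_lit 1216) (nat_lit 0)), (nat_lit 1)⟩]⟩
def e256 : En := ⟨(nat_lit 48), (nat_lit 4368), (nat_lit 4), (nat_lit 3), [⟨(nat_lit 2), (nat_lit 28), (nat_lit 1), (nat_lit 0)⟩, ⟨(nat_lit 4), (nat_lit 18), (nb (nat_lit 1) (nat_lit 1216) (nat_lit 0)), (nat_lit 0)⟩, ⟨(nat_lit 6), (nat_lit 26), (nb (nat_lit 1) (nat_lit 1216) (nat_lit 0)), (nat_lit 1)⟩]⟩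
def e257 : En := ⟨(nat_lit 60), (nat_lit 4369), (nat_lit 12), (nat_lit 9), [⟨(nat_lit 2), (nat_lit 40), (nb (nat_lit 1) (nat_lit 1216) (nat_lit 0)), (nat_lit 1)⟩, ⟨(nat_lit 6), (nat_lit 56), (nb (nat_lit 1) (nat_lit 2432) (nat_lit 0)), (nb (nat_lit 2) (nat_lit 1216) (nat_lit 0))⟩, ⟨(nat_lit 8), (nat_lit 48), (nat_lit 1), (nat_lit 0)⟩, ⟨(nat_lit 10), (nat_lit 18), (nat_lit 0), (nb (nat_lit 1) (nat_lit 1216) (nat_lit 0))⟩, ⟨(nat_lit 14), (nat_lit 28), (nb (nat_lit 2) (nat_lit 1216) (nat_lit 0)), (nb (nat_lit 1) (nat_lit 2432) (nat_lit 0))⟩, ⟨(nat_lit 20), (nat_lit 26), (nat_lit 1), (nb (nat_lit 1) (nat_lit 1216) (nat_lit 0))⟩]⟩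
def e258 : En := ⟨(nat_lit 62), (nat_lit 65809), (nat_lit 12), (nat_lit 9), [⟨(nat_lit 0), (nat_lit 40), (nat_lit 1), (nat_lit 0)⟩, ⟨(nat_lit 4), (nat_lit 42), (nb (nat_lit 1) (nat_lit 1216) (nat_lit 0)), (nat_lit 1)⟩, ⟨(nat_lit 8), (nat_lit 58), (nb (nat_lit 1) (nat_lit 2432) (nat_lit 0)), (nb (nat_lit 2) (nat_lit 1216) (nat_lit 0))⟩, ⟨(nat_lit 10), (nat_lit 12), (nb (nat_lit 1) (nat_lit 1216) (nat_lit 0)), (nat_lit 0)⟩, ⟨(nat_lit 16), (nat_lit 20), (nb (nat_lit 2) (nat_lit 1216) (nat_lit 0)), (nb (nat_lit 1) (nat_lit 2432) (nat_lit 0))⟩, ⟨(nat_lit 22), (nat_lit 28), (nat_lit 1), (nb (nat_lit 1) (nat_lit 1216) (nat_lit 0))⟩]⟩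
def e259 : En := ⟨(nat_lit 64), (nat_lit 69649), (nat_lit 12), (nat_lit 9), [⟨(nat_lit 0), (nat_lit 50), (nb (nat_lit 1) (nat_lit 2432) (nat_lit 0)), (nb (nat_lit 2) (nat_lit 1216) (nat_lit 0))⟩, ⟨(nat_lit 2), (nat_lit 42), (nat_lit 1), (nat_lit 0)⟩, ⟨(nat_lit 6), (nat_lit 44), (nb (nat_lit 1) (nat_lit 1216) (nat_lit 0)), (nat_lit 1)⟩, ⟨(nat_lit 12), (nat_lit 14), (nb (nat_lit 1) (nat_lit 1216) (nat_lit 0)), (nat_lit 0)⟩, ⟨(nat_lit 18), (nat_lit 22), (nb (nat_lit 2) (nat_lit 1216) (nat_lit 0)), (nb (nat_lit 1) (nat_lit 2432) (nat_lit 0))⟩, ⟨(nat_lit 20), (nat_lit 24), (nb (nat_lit 1) (nat_lit 1216) (nat_lit 0)), (nat_lit 1)⟩]⟩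
def e260 : En := ⟨(nat_lit 66), (nat_lit 69889), (nat_lit 12), (nat_lit 9), [⟨(nat_lit 2), (nat_lit 52), (nb (nat_lit 1) (nat_lit 2432) (nat_lit 0)), (nb (nat_lit 2) (nat_lit 1216) (nat_lit 0))⟩, ⟨(nat_lit 4), (nat_lit 44), (nat_lit 1), (nat_lit 0)⟩, ⟨(nat_lit 8), (nat_lit 46), (nb (nat_lit 1) (nat_lit 1216) (nat_lit 0)), (nat_lit 1)⟩, ⟨(nat_lit 10), (nat_lit 24), (nb (nat_lit 2) (nat_lit 1216) (nat_lit 0)), (nb (nat_lit 1) (nat_lit 2432) (nat_lit 0))⟩, ⟨(nat_lit 14), (nat_lit 16), (nb (nat_lit 1) (nat_lit 1216) (nat_lit 0)), (nat_lit 0)⟩, ⟨(nat_lit 22), (nat_lit 26), (nb (nat_lit 1) (nat_lit 1216) (nat_lit 0)), (nat_lit 1)⟩]⟩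
def e261 : En := ⟨(nat_lit 68), (nat_lit 69904), (nat_lit 12), (nat_lit 9), [⟨(nat_lit 0), (nat_lit 48), (nb (nat_lit 1) (nat_lit 1216) (nat_lit 0)), (nat_lit 1)⟩, ⟨(nat_lit 4), (nat_lit 54), (nb (nat_lit 1) (nat_lit 2432) (nat_lit 0)), (nb (nat_lit 2) (nat_lit 1216) (nat_lit 0))⟩, ⟨(nat_lit 6), (nat_lit 46), (nat_lit 1), (nat_lit 0)⟩, ⟨(nat_lit 12), (nat_lit 26), (nb (nat_lit 2) (nat_lit 1216) (nat_lit 0)), (nb (nat_lit 1) (nat_lit 2432) (nat_lit 0))⟩, ⟨(nat_lit 16), (nat_lit 18), (nb (nat_lit 1) (nat_lit 1216) (nat_lit 0)), (nat_lit 0)⟩, ⟨(nat_lit 24), (nat_lit 28), (nb (nat_lit 1) (nat_lit 1216) (nat_lit 0)), (nat_lit 1)⟩]⟩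
def e262 : En := ⟨(nat_lit 60), (nat_lit 4369), (nat_lit 15), (nat_lit 45), [⟨(nat_lit 2), (nat_lit 40), (nb (nat_lit 1) (nat_lit 14592) (nat_lit 0)), (nb (nat_lit 1) (nat_lit 13376) (nat_lit 0))⟩, ⟨(nat_lit 4), (nat_lit 50), (nat_lit 1), (nat_lit 0)⟩, ⟨(nat_lit 6), (nat_lit 56), (nb (nat_lit 1) (nat_lit 15808) (nat_lit 0)), (nb (nat_lit 2) (nat_lit 14592) (nat_lit 1))⟩, ⟨(nat_lit 8), (nat_lit 48), (nb (nat_lit 1) (nat_lit 13376) (nat_lit 0)), (nat_lit 0)⟩, ⟨(nat_lit 10), (nat_lit 18), (nat_lit 0), (nb (nat_lit 1) (nat_lit 14592) (nat_lit 1))⟩, ⟨(nat_lit 14), (nat_lit 28), (nb (nat_lit 2) (nat_lit 14592) (nat_lit 0)), (nb (nat_lit 1) (nat_lit 15808) (nat_lit 0))⟩, ⟨(nat_lit 20), (nat_lit 26), (nb (nat_lit 1) (nat_lit 13376) (nat_lit 0)), (nb (nat_lit 1) (nat_lit 14592) (nat_lit 0))⟩]⟩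
def e263 : En := ⟨(nat_lit 62), (nat_lit 65809), (nat_lit 15), (nat_lit 45), [⟨(nat_lit 0), (nat_lit 40), (nb (nat_lit 1) (nat_lit 13376) (nat_lit 0)), (nat_lit 0)⟩, ⟨(nat_lit 4), (nat_lit 42), (nb (nat_lit 1) (nat_lit 14592) (nat_lit 0)), (nb (nat_lit 1) (nat_lit 13376) (nat_lit 0))⟩, ⟨(nat_lit 6), (nat_lit 52), (nat_lit 1), (nat_lit 0)⟩, ⟨(nat_lit 8), (nat_lit 58), (nb (nat_lit 1) (nat_lit 15808) (nat_lit 0)), (nb (nat_lit 2) (nat_lit 14592) (nat_lit 1))⟩, ⟨(nat_lit 10), (nat_lit 12), (nb (nat_lit 1) (nat_lit 14592) (nat_lit 1)), (nat_lit 0)⟩, ⟨(nat_lit 16), (nat_lit 20), (nb (nat_lit 2) (nat_lit 14592) (nat_lit 0)), (nb (nat_lit 1) (nat_lit 15808) (nat_lit 0))⟩, ⟨(nat_lit 22), (nat_lit 28), (nb (nat_lit 1) (nat_lit 13376) (nat_lit 0)), (nb (nat_lit 1) (nat_lit 14592) (nat_lit 0))⟩]⟩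
def e264 : En := ⟨(nat_lit 64), (nat_lit 69649), (nat_lit 15), (nat_lit 45), [⟨(nat_lit 0), (nat_lit 50), (nb (nat_lit 1) (nat_lit 15808) (nat_lit 0)), (nb (nat_lit 2) (nat_lit 14592) (nat_lit 1))⟩, ⟨(nat_lit 2), (nat_lit 42), (nb (nat_lit 1) (nat_lit 13376) (nat_lit 0)), (nat_lit 0)⟩, ⟨(nat_lit 6), (nat_lit 44), (nb (nat_lit 1) (nat_lit 14592) (nat_lit 0)), (nb (nat_lit 1) (nat_lit 13376) (nat_lit 0))⟩, ⟨(nat_lit 8), (nat_lit 54), (nat_lit 1), (nat_lit 0)⟩, ⟨(nat_lit 12), (nat_lit 14), (nb (nat_lit 1) (nat_lit 14592) (nat_lit 1)), (nat_lit 0)⟩, ⟨(nat_lit 18), (nat_lit 22), (nb (nat_lit 2) (nat_lit 14592) (nat_lit 0)), (nb (nat_lit 1) (nat_lit 15808) (nat_lit 0))⟩, ⟨(nat_lit 20), (nat_lit 24), (nb (nat_lit 1) (nat_lit 14592) (nat_lit 0)), (nb (nat_lit 1) (nat_lit 13376) (nat_lit 0))⟩]⟩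
def e265 : En := ⟨(nat_lit 66), (nat_lit 69889), (nat_lit 15), (nat_lit 45), [⟨(nat_lit 0), (nat_lit 56), (nat_lit 1), (nat_lit 0)⟩, ⟨(nat_lit 2), (nat_lit 52), (nb (nat_lit 1) (nat_lit 15808) (nat_lit 0)), (nb (nat_lit 2) (nat_lit 14592) (nat_lit 1))⟩, ⟨(nat_lit 4), (nat_lit 44), (nb (nat_lit 1) (nat_lit 13376) (nat_lit 0)), (nat_lit 0)⟩, ⟨(nat_lit 8), (nat_lit 46), (nb (nat_lit 1) (nat_lit 14592) (nat_lit 0)), (nb (nat_lit 1) (nat_lit 13376) (nat_lit 0))⟩, ⟨(nat_lit 10), (nat_lit 24), (nb (nat_lit 2) (nat_lit 14592) (nat_lit 0)), (nb (nat_lit 1) (nat_lit 15808) (nat_lit 0))⟩, ⟨(nat_lit 14), (nat_lit 16), (nb (nat_lit 1) (nat_lit 14592) (nat_lit 1)), (nat_lit 0)⟩, ⟨(nat_lit 22), (nat_lit 26), (nb (nat_lit 1) (nat_lit 14592) (nat_lit 0)), (nb (nat_lit 1) (nat_lit 13376) (nat_lit 0))⟩]⟩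
def e266 : En := ⟨(nat_lit 68), (nat_lit 69904), (nat_lit 15), (nat_lit 45), [⟨(nat_lit 0), (nat_lit 48), (nb (nat_lit 1) (nat_lit 14592) (nat_lit 0)), (nb (nat_lit 1) (nat_lit 13376) (nat_lit 0))⟩, ⟨(nat_lit 2), (nat_lit 58), (nat_lit 1), (nat_lit 0)⟩, ⟨(nat_lit 4), (nat_lit 54), (nb (nat_lit 1) (nat_lit 15808) (nat_lit 0)), (nb (nat_lit 2) (nat_lit 14592) (nat_lit 1))⟩, ⟨(nat_lit 6), (nat_lit 46), (nb (nat_lit 1) (nat_lit 13376) (nat_lit 0)), (nat_lit 0)⟩, ⟨(nat_lit 12), (nat_lit 26), (nb (nat_lit 2) (nat_lit 14592) (nat_lit 0)), (nb (nat_lit 1) (nat_lit 15808) (nat_lit 0))⟩, ⟨(nat_lit 16), (nat_lit 18), (nb (nat_lit 1) (nat_lit 14592) (nat_lit 1)), (nat_lit 0)⟩, ⟨(nat_lit 24), (nat_lit 28), (nb (nat_lit 1) (nat_lit 14592) (nat_lit 0)), (nb (nat_lit 1) (nat_lit 13376) (nat_lit 0))⟩]⟩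
def e267 : En := ⟨(nat_lit 60), (nat_lit 4369), (nat_lit 19), (nat_lit 45), [⟨(nat_lit 2), (nat_lit 40), (nb (nat_lit 1) (nat_lit 14592) (nb (nat_lit 1) (nat_lit 1216) (nat_lit 0))), (nb (nat_lit 1) (nat_lit 13376) (nat_lit 0))⟩, ⟨(nat_lit 6), (nat_lit 56), (nb (nat_lit 1) (nat_lit 2432) (nat_lit 0)), (nb (nat_lit 2) (nat_lit 1216) (nat_lit 0))⟩, ⟨(nat_lit 8), (nat_lit 48), (nb (nat_lit 1) (nat_lit 13376) (nb (nat_lit 1) (nat_lit 1216) (nat_lit 0))), (nat_lit 0)⟩, ⟨(nat_lit 10), (nat_lit 18), (nat_lit 0), (nb (nat_lit 1) (nat_lit 14592) (nb (nat_lit 1) (nat_lit 2432) (nat_lit 0)))⟩, ⟨(nat_lit 14), (nat_lit 28), (nb (nat_lit 2) (nat_lit 14592) (nb (nat_lit 2) (nat_lit 1216) (nat_lit 0))), (nb (nat_lit 1) (nat_lit 15808) (nb (nat_lit 1) (nat_lit 2432) (nat_lit 0)))⟩, ⟨(nat_lit 20), (nat_lit 26), (nb (nat_lit 1) (nat_lit 13376) (nat_lit 0)), (nb (nat_lit 1) (nat_lit 14592) (nb (nat_lit 1) (nat_lit 1216) (nat_lit 0)))⟩]⟩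
def e268 : En := ⟨(nat_lit 62), (nat_lit 65809), (nat_lit 19), (nat_lit 45), [⟨(nat_lit 0), (nat_lit 40), (nb (nat_lit 1) (nat_lit 13376) (nb (nat_lit 1) (nat_lit 1216) (nat_lit 0))), (nat_lit 0)⟩, ⟨(nat_lit 4), (nat_lit 42), (nb (nat_lit 1) (nat_lit 14592) (nb (nat_lit 1) (nat_lit 1216) (nat_lit 0))), (nb (nat_lit 1) (nat_lit 13376) (nat_lit 0))⟩, ⟨(nat_lit 8), (nat_lit 58), (nb (nat_lit 1) (nat_lit 2432) (nat_lit 0)), (nb (nat_lit 2) (nat_lit 1216) (nat_lit 0))⟩, ⟨(nat_lit 10), (nat_lit 12), (nb (nat_lit 1) (nat_lit 14592) (nb (nat_lit 1) (nat_lit 2432) (nat_lit 0))), (nat_lit 0)⟩, ⟨(nat_lit 16), (nat_lit 20), (nb (nat_lit 2) (nat_lit 14592) (nb (nat_lit 2) (nat_lit 1216) (nat_lit 0))), (nb (nat_lit 1) (nat_lit 15808) (nb (nat_lit 1) (nat_lit 2432) (nat_lit 0)))⟩, ⟨(nat_lit 22), (nat_lit 28), (nb (nat_lit 1) (nat_lit 13376) (nat_lit 0)), (nb (nat_lit 1) (nat_lit 14592) (nb (nat_lit 1) (nat_lit 1216) (nat_lit 0)))⟩]⟩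
def e269 : En := ⟨(nat_lit 64), (nat_lit 69649), (nat_lit 19), (nat_lit 45), [⟨(nat_lit 0), (nat_lit 50), (nb (nat_lit 1) (nat_lit 2432) (nat_lit 0)), (nb (nat_lit 2) (nat_lit 1216) (nat_lit 0))⟩, ⟨(nat_lit 2), (nat_lit 42), (nb (nat_lit 1) (nat_lit 13376) (nb (nat_lit 1) (nat_lit 1216) (nat_lit 0))), (nat_lit 0)⟩, ⟨(nat_lit 6), (nat_lit 44), (nb (nat_lit 1) (nat_lit 14592) (nb (nat_lit 1) (nat_lit 1216) (nat_lit 0))), (nb (nat_lit 1) (nat_lit 13376) (nat_lit 0))⟩, ⟨(nat_lit 12), (nat_lit 14), (nb (nat_lit 1) (nat_lit 14592) (nb (nat_lit 1) (nat_lit 2432) (nat_lit 0))), (nat_lit 0)⟩, ⟨(nat_lit 18), (nat_lit 22), (nb (nat_lit 2) (nat_lit 14592) (nb (nat_lit 2) (nat_lit 1216) (nat_lit 0))), (nb (nat_lit 1) (nat_lit 15808) (nb (nat_lit 1) (nat_lit 2432) (nat_lit 0)))⟩, ⟨(nat_lit 20), (nat_lit 24), (nb (nat_lit 1) (nat_lit 14592) (nb (nat_lit 1) (nat_lit 1216) (nat_lit 0))), (nb (nat_lit 1) (nat_lit 13376) (nat_lit 0))⟩]⟩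
def e270 : En := ⟨(nat_lit 66), (nat_lit 69889), (nat_lit 19), (nat_lit 45), [⟨(nat_lit 2), (nat_lit 52), (nb (nat_lit 1) (nat_lit 2432) (nat_lit 0)), (nb (nat_lit 2) (nat_lit 1216) (nat_lit 0))⟩, ⟨(nat_lit 4), (nat_lit 44), (nb (nat_lit 1) (nat_lit 13376) (nb (nat_lit 1) (nat_lit 1216) (nat_lit 0))), (nat_lit 0)⟩, ⟨(nat_lit 8), (nat_lit 46), (nb (nat_lit 1) (nat_lit 14592) (nb (nat_lit 1) (nat_lit 1216) (nat_lit 0))), (nb (nat_lit 1) (nat_lit 13376) (nat_lit 0))⟩, ⟨(nat_lit 10), (nat_lit 24), (nb (nat_lit 2) (nat_lit 14592) (nb (nat_lit 2) (nat_lit 1216) (nat_lit 0))), (nb (nat_lit 1) (nat_lit 15808) (nb (nat_lit 1) (nat_lit 2432) (nat_lit 0)))⟩, ⟨(nat_lit 14), (nat_lit 16), (nb (nat_lit 1) (nat_lit 14592) (nb (nat_lit 1) (nat_lit 2432) (nat_lit 0))), (nat_lit 0)⟩, ⟨(nat_lit 22), (nat_lit 26), (nb (nat_lit 1) (nat_lit 14592) (nb (nat_lit 1) (nat_lit 1216) (nat_lit 0))), (nb (nat_lit 1) (nat_lit 13376) (nat_lit 0))⟩]⟩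
def e271 : En := ⟨(nat_lit 68), (nat_lit 69904), (nat_lit 19), (nat_lit 45), [⟨(nat_lit 0), (nat_lit 48), (nb (nat_lit 1) (nat_lit 14592) (nb (nat_lit 1) (nat_lit 1216) (nat_lit 0))), (nb (nat_lit 1) (nat_lit 13376) (nat_lit 0))⟩, ⟨(nat_lit 4), (nat_lit 54), (nb (nat_lit 1) (nat_lit 2432) (nat_lit 0)), (nb (nat_lit 2) (nat_lit 1216) (nat_lit 0))⟩, ⟨(nat_lit 6), (nat_lit 46), (nb (nat_lit 1) (nat_lit 13376) (nb (nat_lit 1) (nat_lit 1216) (nat_lit 0))), (nat_lit 0)⟩, ⟨(nat_lit 12), (nat_lit 26), (nb (nat_lit 2) (nat_lit 14592) (nb (nat_lit 2) (nat_lit 1216) (nat_lit 0))), (nb (nat_lit 1) (nat_lit 15808) (nb (nat_lit 1) (nat_lit 2432) (nat_lit 0)))⟩, ⟨(nat_lit 16), (nat_lit 18), (nb (nat_lit 1) (nat_lit 14592) (nb (nat_lit 1) (nat_lit 2432) (nat_lit 0))), (nat_lit 0)⟩, ⟨(nat_lit 24), (nat_lit 28), (nb (nat_lit 1) (nat_lit 14592) (nb (nat_lit 1) (nat_lit 1216) (nat_lit 0))), (nb (nat_lit 1) (nat_lit 13376) (nat_lit 0))⟩]⟩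
def e272 : En := ⟨(nat_lit 50), (nat_lit 4113), (nat_lit 4), (nat_lit 5), [⟨(nat_lit 2), (nat_lit 20), (nat_lit 1), (nat_lit 0)⟩, ⟨(nat_lit 6), (nat_lit 14), (nb (nat_lit 1) (nat_lit 13376) (nat_lit 0)), (nat_lit 0)⟩, ⟨(nat_lit 8), (nat_lit 18), (nat_lit 0), (nb (nat_lit 1) (nat_lit 13376) (nat_lit 1))⟩]⟩
def e273 : En := ⟨(nat_lit 52), (nat_lit 65793), (nat_lit 4), (nat_lit 5), [⟨(nat_lit 0), (nat_lit 10), (nat_lit 0), (nb (nat_lit 1) (nat_lit 13376) (nat_lit 1))⟩, ⟨(nat_lit 4), (nat_lit 22), (nat_lit 1), (nat_lit 0)⟩, ⟨(nat_lit 8), (nat_lit 16), (nb (nat_lit 1) (nat_lit 13376) (nat_lit 0)), (nat_lit 0)⟩]⟩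
def e274 : En := ⟨(nat_lit 54), (nat_lit 69648), (nat_lit 4), (nat_lit 5), [⟨(nat_lit 0), (nat_lit 18), (nb (nat_lit 1) (nat_lit 13376) (nat_lit 0)), (nat_lit 0)⟩, ⟨(nat_lit 2), (nat_lit 12), (nat_lit 0), (nb (nat_lit 1) (nat_lit 13376) (nat_lit 1))⟩, ⟨(nat_lit 6), (nat_lit 24), (nat_lit 1), (nat_lit 0)⟩]⟩
def e275 : En := ⟨(nat_lit 56), (nat_lit 4353), (nat_lit 4), (nat_lit 5), [⟨(nat_lit 2), (nat_lit 10), (nb (nat_lit 1) (nat_lit 13376) (nat_lit 0)), (nat_lit 0)⟩, ⟨(nat_lit 4), (nat_lit 14), (nat_lit 0), (nb (nat_lit 1) (nat_lit 13376) (nat_lit 1))⟩, ⟨(nat_lit 8), (nat_lit 26), (nat_lit 1), (nat_lit 0)⟩]⟩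
def e276 : En := ⟨(nat_lit 58), (nat_lit 65808), (nat_lit 4), (nat_lit 5), [⟨(nat_lit 0), (nat_lit 28), (nat_lit 1), (nat_lit 0)⟩, ⟨(nat_lit 4), (nat_lit 12), (nb (nat_lit 1) (nat_lit 13376) (nat_lit 0)), (nat_lit 0)⟩, ⟨(nat_lit 6), (nat_lit 16), (nat_lit 0), (nb (nat_lit 1) (nat_lit 13376) (nat_lit 1))⟩]⟩
def e277 : En := ⟨(nat_lit 60), (nat_lit 4369), (nat_lit 78), (nat_lit 216), [⟨(nat_lit 2), (nat_lit 40), (nb (nat_lit 2) (nat_lit 1408) (nat_lit 0x200000000000000020000000000000002)), (nb (nat_lit 1) (nat_lit 2624) (nb (nat_lit 0x100000000000000010000000000000001) (nat_lit 1216) (nat_lit 0)))⟩, ⟨(nat_lit 6), (nat_lit 56), (nb (nat_lit 0x1000000000000000100000000000000010000000000000004) (nat_lit 2432) (nat_lit 0)), (nb (nat_lit 1) (nat_lit 3648) (nb (nat_lit 0x2000000000000000200000000000000020000000000000004) (nat_lit 1216) (nat_lit 0)))⟩, ⟨(nat_lit 8), (nat_lit 48), (nb (nat_lit 0x100000000000000010000000000000003) (nat_lit 1216) (nat_lit 0)),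 (nb (nat_lit 1) (nat_lit 2432) (nat_lit 0x200000000000000020000000000000002))⟩, ⟨(nat_lit 10), (nat_lit 18), (nb (nat_lit 1) (nat_lit 3648) (nb (nat_lit 0x200000000000000020000000000000002) (nat_lit 1216) (nat_lit 0))), (nb (nat_lit 0x100000000000000010000000000000003) (nat_lit 2432) (nat_lit 0))⟩, ⟨(nat_lit 14), (nat_lit 28), (nb (nat_lit 1) (nat_lit 3840) (nb (nat_lit 0x10000000000000001) (nat_lit 2496) (nb (nat_lit 2) (nat_lit 1408) (nat_lit 0)))), (nb (nat_lit 3) (nat_lit 2624) (nb (nat_lit 0x20000000000000002) (nat_lit 1280) (nat_lit 0)))⟩, ⟨(nat_lit 20), (nat_lit 26), (nb (nat_lit 1) (nat_lit 2624) (nb (nat_lit 0x100000000000000010000000000000001) (nat_lit 1216) (nat_lit 0))), (nb (nat_lit 2) (nat_lit 1408) (nat_lit 0x200000000000000020000000000000002))⟩]⟩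
def e278 : En := ⟨(nat_lit 62), (nat_lit 65809), (nat_lit 78), (nat_lit 216), [⟨(nat_lit 0), (nat_lit 40), (nb (nat_lit 0x100000000000000010000000000000003) (nat_lit 1216) (nat_lit 0)), (nb (nat_lit 1) (nat_lit 2432) (nat_lit 0x200000000000000020000000000000002))⟩, ⟨(nat_lit 4), (nat_lit 42), (nb (nat_lit 2) (nat_lit 1408) (nat_lit 0x200000000000000020000000000000002)), (nb (nat_lit 1) (nat_lit 2624) (nb (nat_lit 0x100000000000000010000000000000001) (nat_lit 1216) (nat_lit 0)))⟩, ⟨(nat_lit 8), (nat_lit 58), (nb (nat_lit 0x1000000000000000100000000000000010000000000000004) (nat_lit 2432) (nat_lit 0)), (nb (nat_lit 1) (nat_lit 3648) (nb (nat_lit 0x2000000000000000200000000000000020000000000000004) (nat_lit 1216) (nat_lit 0)))⟩, ⟨(nat_lit 10), (nat_lit 12), (nb (nat_lit 0x100000000000000010000000000000003) (nat_lit 2432) (nat_lit 0)), (nb (nat_lit 1) (nat_lit 3648) (nb (nat_lit 0x200000000000000020000000000000002) (nat_lit 1216) (nat_lit 0)))⟩, ⟨(nat_lit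 16), (nat_lit 20), (nb (nat_lit 1) (nat_lit 3840) (nb (nat_lit 0x10000000000000001) (nat_lit 2496) (nb (nat_lit 2) (nat_lit 1408) (nat_lit 0)))), (nb (nat_lit 3) (nat_lit 2624) (nb (nat_lit 0x20000000000000002) (nat_lit 1280) (nat_lit 0)))⟩, ⟨(nat_lit 22), (nat_lit 28), (nb (nat_lit 1) (nat_lit 2624) (nb (nat_lit 0x100000000000000010000000000000001) (nat_lit 1216) (nat_lit 0))), (nb (nat_lit 2) (nat_lit 1408) (nat_lit 0x200000000000000020000000000000002))⟩]⟩
def e279 : En := ⟨(nat_lit 64), (nat_lit 69649), (nat_lit 78), (nat_lit 216), [⟨(nat_lit 0), (nat_lit 50), (nb (nat_lit 0x1000000000000000100000000000000010000000000000004) (nat_lit 2432) (nat_lit 0)), (nb (nat_lit 1) (nat_lit 3648) (nb (nat_lit 0x2000000000000000200000000000000020000000000000004) (nat_lit 1216) (nat_lit 0)))⟩, ⟨(nat_lit 2), (nat_lit 42), (nb (nat_lit 0x100000000000000010000000000000003) (nat_lit 1216) (nat_lit 0)), (nb (nat_lit 1) (nat_lit 2432) (nat_lit 0x200000000000000020000000000000002))⟩,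 ⟨(nat_lit 6), (nat_lit 44), (nb (nat_lit 2) (nat_lit 1408) (nat_lit 0x200000000000000020000000000000002)), (nb (nat_lit 1) (nat_lit 2624) (nb (nat_lit 0x100000000000000010000000000000001) (nat_lit 1216) (nat_lit 0)))⟩, ⟨(nat_lit 12), (nat_lit 14), (nb (nat_lit 0x100000000000000010000000000000003) (nat_lit 2432) (nat_lit 0)), (nb (nat_lit 1) (nat_lit 3648) (nb (nat_lit 0x200000000000000020000000000000002) (nat_lit 1216) (nat_lit 0)))⟩, ⟨(nat_lit 18), (nat_lit 22), (nb (nat_lit 1) (nat_lit 3840) (nb (nat_lit 0x10000000000000001) (nat_lit 2496) (nb (nat_lit 2) (nat_lit 1408) (nat_lit 0)))), (nb (nat_lit 3) (nat_lit 2624) (nb (nat_lit 0x20000000000000002) (nat_lit 1280) (nat_lit 0)))⟩, ⟨(nat_lit 20), (nat_lit 24), (nb (nat_lit 2) (nat_lit 1408) (nat_lit 0x200000000000000020000000000000002)), (nb (nat_lit 1) (nat_lit 2624) (nb (nat_lit 0x100000000000000010000000000000001) (nat_lit 1216) (nat_lit 0)))⟩]⟩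
def e280 : En := ⟨(nat_lit 66), (nat_lit 69889), (nat_lit 78), (nat_lit 216), [⟨(nat_lit 2), (nat_lit 52), (nb (nat_lit 0x1000000000000000100000000000000010000000000000004) (nat_lit 2432) (nat_lit 0)), (nb (nat_lit 1) (nat_lit 3648) (nb (nat_lit 0x2000000000000000200000000000000020000000000000004) (nat_lit 1216) (nat_lit 0)))⟩, ⟨(nat_lit 4), (nat_lit 44), (nb (nat_lit 0x100000000000000010000000000000003) (nat_lit 1216) (nat_lit 0)), (nb (nat_lit 1) (nat_lit 2432) (nat_lit 0x200000000000000020000000000000002))⟩, ⟨(nat_lit 8), (nat_lit 46), (nb (nat_lit 2) (nat_lit 1408) (nat_lit 0x200000000000000020000000000000002)), (nb (nat_lit 1) (nat_lit 2624) (nb (nat_lit 0x100000000000000010000000000000001) (nat_lit 1216) (nat_lit 0)))⟩, ⟨(nat_lit 10), (nat_lit 24), (nb (nat_lit 1) (nat_lit 3840) (nb (nat_lit 0x10000000000000001) (nat_lit 2496) (nb (nat_lit 2) (nat_lit 1408) (nat_lit 0)))), (nb (nat_lit 3) (nat_lit 2624) (nb (nat_lit 0x20000000000000002) (nat_lit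 1280) (nat_lit 0)))⟩, ⟨(nat_lit 14), (nat_lit 16), (nb (nat_lit 0x100000000000000010000000000000003) (nat_lit 2432) (nat_lit 0)), (nb (nat_lit 1) (nat_lit 3648) (nb (nat_lit 0x200000000000000020000000000000002) (nat_lit 1216) (nat_lit 0)))⟩, ⟨(nat_lit 22), (nat_lit 26), (nb (nat_lit 2) (nat_lit 1408) (nat_lit 0x200000000000000020000000000000002)), (nb (nat_lit 1) (nat_lit 2624) (nb (nat_lit 0x100000000000000010000000000000001) (nat_lit 1216) (nat_lit 0)))⟩]⟩
def e281 : En := ⟨(nat_lit 68), (nat_lit 69904), (nat_lit 78), (nat_lit 216), [⟨(nat_lit 0), (nat_lit 48), (nb (nat_lit 2) (nat_lit 1408) (nat_lit 0x200000000000000020000000000000002)), (nb (nat_lit 1) (nat_lit 2624) (nb (nat_lit 0x100000000000000010000000000000001) (nat_lit 1216) (nat_lit 0)))⟩, ⟨(nat_lit 4), (nat_lit 54), (nb (nat_lit 0x1000000000000000100000000000000010000000000000004) (nat_lit 2432) (nat_lit 0)), (nb (nat_lit 1) (nat_lit 3648) (nb (nat_lit 0x2000000000000000200000000000000020000000000000004)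 (nat_lit 1216) (nat_lit 0)))⟩, ⟨(nat_lit 6), (nat_lit 46), (nb (nat_lit 0x100000000000000010000000000000003) (nat_lit 1216) (nat_lit 0)), (nb (nat_lit 1) (nat_lit 2432) (nat_lit 0x200000000000000020000000000000002))⟩, ⟨(nat_lit 12), (nat_lit 26), (nb (nat_lit 1) (nat_lit 3840) (nb (nat_lit 0x10000000000000001) (nat_lit 2496) (nb (nat_lit 2) (nat_lit 1408) (nat_lit 0)))), (nb (nat_lit 3) (nat_lit 2624) (nb (nat_lit 0x20000000000000002) (nat_lit 1280) (nat_lit 0)))⟩, ⟨(nat_lit 16), (nat_lit 18), (nb (nat_lit 0x100000000000000010000000000000003) (nat_lit 2432) (nat_lit 0)), (nb (nat_lit 1) (nat_lit 3648) (nb (nat_lit 0x200000000000000020000000000000002) (nat_lit 1216) (nat_lit 0)))⟩, ⟨(nat_lit 24), (nat_lit 28), (nb (nat_lit 2) (nat_lit 1408) (nat_lit 0x200000000000000020000000000000002)), (nb (nat_lit 1) (nat_lit 2624) (nb (nat_lit 0x100000000000000010000000000000001) (nat_lit 1216) (nat_lit 0)))⟩]⟩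
def e282 : En := ⟨(nat_lit 40), (nat_lit 273), (nat_lit 24), (nat_lit 72), [⟨(nat_lit 4), (nat_lit 20), (nat_lit 0x1000000000000000100000000000000010000000000000002), (nb (nat_lit 1) (nat_lit 1216) (nat_lit 0))⟩, ⟨(nat_lit 6), (nat_lit 10), (nb (nat_lit 0x1000000000000000100000000000000010000000000000002) (nat_lit 1216) (nat_lit 0)), (nb (nat_lit 1) (nat_lit 2432) (nat_lit 0))⟩, ⟨(nat_lit 8), (nat_lit 28), (nb (nat_lit 0x1000000000000000100000000000000010000000000000003) (nat_lit 1216) (nat_lit 0)), (nb (nat_lit 1) (nat_lit 2432) (nat_lit 0x1000000000000000100000000000000010000000000000002))⟩]⟩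
def e283 : En := ⟨(nat_lit 42), (nat_lit 65553), (nat_lit 24), (nat_lit 72), [⟨(nat_lit 0), (nat_lit 20), (nb (nat_lit 0x1000000000000000100000000000000010000000000000003) (nat_lit 1216) (nat_lit 0)), (nb (nat_lit 1) (nat_lit 2432) (nat_lit 0x1000000000000000100000000000000010000000000000002))⟩, ⟨(nat_lit 6), (nat_lit 22), (nat_lit 0x1000000000000000100000000000000010000000000000002), (nb (nat_lit 1) (nat_lit 1216) (nat_lit 0))⟩, ⟨(nat_lit 8), (nat_lit 12), (nb (nat_lit 0x1000000000000000100000000000000010000000000000002) (nat_lit 1216) (nat_lit 0)), (nb (nat_lit 1) (nat_lit 2432) (nat_lit 0))⟩]⟩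
def e284 : En := ⟨(nat_lit 44), (nat_lit 69633), (nat_lit 24), (nat_lit 72), [⟨(nat_lit 0), (nat_lit 14), (nb (nat_lit 0x1000000000000000100000000000000010000000000000002) (nat_lit 1216) (nat_lit 0)), (nb (nat_lit 1) (nat_lit 2432) (nat_lit 0))⟩, ⟨(nat_lit 2), (nat_lit 22), (nb (nat_lit 0x1000000000000000100000000000000010000000000000003) (nat_lit 1216) (nat_lit 0)), (nb (nat_lit 1) (nat_lit 2432) (nat_lit 0x1000000000000000100000000000000010000000000000002))⟩, ⟨(nat_lit 8), (nat_lit 24), (nat_lit 0x1000000000000000100000000000000010000000000000002), (nb (nat_lit 1) (nat_lit 1216) (nat_lit 0))⟩]⟩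
def e285 : En := ⟨(nat_lit 46), (nat_lit 69888), (nat_lit 24), (nat_lit 72), [⟨(nat_lit 0), (nat_lit 26), (nat_lit 0x1000000000000000100000000000000010000000000000002), (nb (nat_lit 1) (nat_lit 1216) (nat_lit 0))⟩, ⟨(nat_lit 2), (nat_lit 16), (nb (nat_lit 0x1000000000000000100000000000000010000000000000002) (nat_lit 1216) (nat_lit 0)), (nb (nat_lit 1) (nat_lit 2432) (nat_lit 0))⟩, ⟨(nat_lit 4), (nat_lit 24), (nb (nat_lit 0x1000000000000000100000000000000010000000000000003) (nat_lit 1216) (nat_lit 0)), (nb (nat_lit 1) (nat_lit 2432) (nat_lit 0x1000000000000000100000000000000010000000000000002))⟩]⟩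
def e286 : En := ⟨(nat_lit 48), (nat_lit 4368), (nat_lit 24), (nat_lit 72), [⟨(nat_lit 2), (nat_lit 28), (nat_lit 0x1000000000000000100000000000000010000000000000002), (nb (nat_lit 1) (nat_lit 1216) (nat_lit 0))⟩, ⟨(nat_lit 4), (nat_lit 18), (nb (nat_lit 0x1000000000000000100000000000000010000000000000002) (nat_lit 1216) (nat_lit 0)), (nb (nat_lit 1) (nat_lit 2432) (nat_lit 0))⟩, ⟨(nat_lit 6), (nat_lit 26), (nb (nat_lit 0x1000000000000000100000000000000010000000000000003) (nat_lit 1216) (nat_lit 0)), (nb (nat_lit 1) (nat_lit 2432) (nat_lit 0x1000000000000000100000000000000010000000000000002))⟩]⟩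
def e287 : En := ⟨(nat_lit 50), (nat_lit 4113), (nat_lit 18), (nat_lit 24), [⟨(nat_lit 2), (nat_lit 20), (nat_lit 0x1000000000000000100000000000000010000000000000002), (nb (nat_lit 1) (nat_lit 1216) (nat_lit 0))⟩, ⟨(nat_lit 6), (nat_lit 14), (nb (nat_lit 1) (nat_lit 1216) (nat_lit 0)), (nb (nat_lit 1) (nat_lit 1408) (nat_lit 0x200000000000000020000000000000002))⟩, ⟨(nat_lit 8), (nat_lit 18), (nb (nat_lit 1) (nat_lit 1408) (nb (nat_lit 0x10000000000000001) (nat_lit 64) (nat_lit 0))), (nat_lit 0x1000000000000000000000000000000000000000000000000)⟩]⟩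
def e288 : En := ⟨(nat_lit 52), (nat_lit 65793), (nat_lit 18), (nat_lit 24), [⟨(nat_lit 0), (nat_lit 10), (nb (nat_lit 1) (nat_lit 1408) (nb (nat_lit 0x10000000000000001) (nat_lit 64) (nat_lit 0))), (nat_lit 0x1000000000000000000000000000000000000000000000000)⟩, ⟨(nat_lit 4), (nat_lit 22), (nat_lit 0x1000000000000000100000000000000010000000000000002), (nb (nat_lit 1) (nat_lit 1216) (nat_lit 0))⟩, ⟨(nat_lit 8), (nat_lit 16), (nb (nat_lit 1) (nat_lit 1216) (nat_lit 0)), (nb (nat_lit 1) (nat_lit 1408) (nat_lit 0x200000000000000020000000000000002))⟩]⟩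
def e289 : En := ⟨(nat_lit 54), (nat_lit 69648), (nat_lit 18), (nat_lit 24), [⟨(nat_lit 0), (nat_lit 18), (nb (nat_lit 1) (nat_lit 1216) (nat_lit 0)), (nb (nat_lit 1) (nat_lit 1408) (nat_lit 0x200000000000000020000000000000002))⟩, ⟨(nat_lit 2), (nat_lit 12), (nb (nat_lit 1) (nat_lit 1408) (nb (nat_lit 0x10000000000000001) (nat_lit 64) (nat_lit 0))), (nat_lit 0x1000000000000000000000000000000000000000000000000)⟩, ⟨(nat_lit 6), (nat_lit 24), (nat_lit 0x1000000000000000100000000000000010000000000000002), (nb (nat_lit 1) (nat_lit 1216) (nat_lit 0))⟩]⟩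
def e290 : En := ⟨(nat_lit 56), (nat_lit 4353), (nat_lit 18), (nat_lit 24), [⟨(nat_lit 2), (nat_lit 10), (nb (nat_lit 1) (nat_lit 1216) (nat_lit 0)), (nb (nat_lit 1) (nat_lit 1408) (nat_lit 0x200000000000000020000000000000002))⟩, ⟨(nat_lit 4), (nat_lit 14), (nb (nat_lit 1) (nat_lit 1408) (nb (nat_lit 0x10000000000000001) (nat_lit 64) (nat_lit 0))), (nat_lit 0x1000000000000000000000000000000000000000000000000)⟩, ⟨(nat_lit 8), (nat_lit 26), (nat_lit 0x1000000000000000100000000000000010000000000000002), (nb (nat_lit 1) (nat_lit 1216) (nat_lit 0))⟩]⟩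
def e291 : En := ⟨(nat_lit 58), (nat_lit 65808), (nat_lit 18), (nat_lit 24), [⟨(nat_lit 0), (nat_lit 28), (nat_lit 0x1000000000000000100000000000000010000000000000002), (nb (nat_lit 1) (nat_lit 1216) (nat_lit 0))⟩, ⟨(nat_lit 4), (nat_lit 12), (nb (nat_lit 1) (nat_lit 1216) (nat_lit 0)), (nb (nat_lit 1) (nat_lit 1408) (nat_lit 0x200000000000000020000000000000002))⟩, ⟨(nat_lit 6), (nat_lit 16), (nb (nat_lit 1) (nat_lit 1408) (nb (nat_lit 0x10000000000000001) (nat_lit 64) (nat_lit 0))), (nat_lit 0x1000000000000000000000000000000000000000000000000)⟩]⟩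
def e292 : En := ⟨(nat_lit 10), (nat_lit 257), (nat_lit 6), (nat_lit 24), [⟨(nat_lit 4), (nat_lit 8), (nat_lit 0x1000000000000000100000000000000010000000000000002), (nb (nat_lit 1) (nat_lit 1216) (nat_lit 0))⟩]⟩
def e293 : En := ⟨(nat_lit 12), (nat_lit 65552), (nat_lit 6), (nat_lit 24), [⟨(nat_lit 0), (nat_lit 6), (nb (nat_lit 1) (nat_lit 1216) (nat_lit 0)), (nat_lit 0x1000000000000000100000000000000010000000000000002)⟩]⟩
def e294 : En := ⟨(nat_lit 14), (nat_lit 4097), (nat_lit 6), (nat_lit 24), [⟨(nat_lit 2), (nat_lit 8), (nb (nat_lit 1) (nat_lit 1216) (nat_lit 0)), (nat_lit 0x1000000000000000100000000000000010000000000000002)⟩]⟩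
def e295 : En := ⟨(nat_lit 16), (nat_lit 65792), (nat_lit 6), (nat_lit 24), [⟨(nat_lit 0), (nat_lit 4), (nat_lit 0x1000000000000000100000000000000010000000000000002), (nb (nat_lit 1) (nat_lit 1216) (nat_lit 0))⟩]⟩
def e296 : En := ⟨(nat_lit 18), (nat_lit 4112), (nat_lit 6), (nat_lit 24), [⟨(nat_lit 2), (nat_lit 6), (nat_lit 0x1000000000000000100000000000000010000000000000002), (nb (nat_lit 1) (nat_lit 1216) (nat_lit 0))⟩]⟩
def e297 : En := ⟨(nat_lit 20), (nat_lit 17), (nat_lit 6), (nat_lit 24), [⟨(nat_lit 6), (nat_lit 8), (nat_lit 0x1000000000000000100000000000000010000000000000002), (nb (nat_lit 1) (nat_lit 1216) (nat_lit 0))⟩]⟩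
def e298 : En := ⟨(nat_lit 22), (nat_lit 65537), (nat_lit 6), (nat_lit 24), [⟨(nat_lit 0), (nat_lit 8), (nb (nat_lit 1) (nat_lit 1216) (nat_lit 0)), (nat_lit 0x1000000000000000100000000000000010000000000000002)⟩]⟩
def e299 : En := ⟨(nat_lit 24), (nat_lit 69632), (nat_lit 6), (nat_lit 24), [⟨(nat_lit 0), (nat_lit 2), (nat_lit 0x1000000000000000100000000000000010000000000000002), (nb (nat_lit 1) (nat_lit 1216) (nat_lit 0))⟩]⟩
def e300 : En := ⟨(nat_lit 26), (nat_lit 4352), (nat_lit 6), (nat_lit 24), [⟨(nat_lit 2), (nat_lit 4), (nat_lit 0x1000000000000000100000000000000010000000000000002), (nb (nat_lit 1) (nat_lit 1216) (nat_lit 0))⟩]⟩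
def e301 : En := ⟨(nat_lit 28), (nat_lit 272), (nat_lit 6), (nat_lit 24), [⟨(nat_lit 4), (nat_lit 6), (nat_lit 0x1000000000000000100000000000000010000000000000002), (nb (nat_lit 1) (nat_lit 1216) (nat_lit 0))⟩]⟩
def e302 : En := ⟨(nat_lit 75), (nat_lit 69905), (nat_lit 120), (nat_lit 216), [⟨(nat_lit 0), (nat_lit 60), (nb (nat_lit 1) (nat_lit 1280) (nat_lit 1)), (nat_lit 0x10000000000000000)⟩, ⟨(nat_lit 2), (nat_lit 62), (nat_lit 0x2000000000000000100000000000000010000000000000001), (nb (nat_lit 0x1000000000000000100000000000000010000000000000001) (nat_lit 1216) (nat_lit 0))⟩, ⟨(nat_lit 4), (nat_lit 64), (nb (nat_lit 1) (nat_lit 1344) (nb (nat_lit 1) (nat_lit 64) (nat_lit 0))), (nat_lit 0x100000000000000000000000000000000)⟩, ⟨(nat_lit 6), (nat_lit 66), (nb (nat_lit 1) (nat_lit 1216) (nat_lit 0)), (nat_lit 0x1000000000000000100000000000000010000000000000002)⟩, ⟨(nat_lit 8), (nat_lit 68), (nb (nat_lit 1) (nat_lit 1408) (nb (nat_lit 1) (nat_lit 128)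 (nat_lit 0))), (nat_lit 0x1000000000000000000000000000000000000000000000000)⟩, ⟨(nat_lit 10), (nat_lit 54), (nb (nat_lit 3) (nat_lit 2624) (nb (nat_lit 2) (nat_lit 1344) (nat_lit 0))), (nb (nat_lit 1) (nat_lit 3840) (nb (nat_lit 1) (nat_lit 2560) (nb (nat_lit 2) (nat_lit 1408) (nat_lit 0))))⟩, ⟨(nat_lit 12), (nat_lit 56), (nb (nat_lit 3) (nat_lit 2496) (nb (nat_lit 2) (nat_lit 1216) (nat_lit 0))), (nb (nat_lit 1) (nat_lit 3712) (nb (nat_lit 1) (nat_lit 2432) (nb (nat_lit 2) (nat_lit 1280) (nat_lit 0))))⟩, ⟨(nat_lit 14), (nat_lit 58), (nb (nat_lit 0x1000000000000000100000000000000010000000000000001) (nat_lit 3648) (nb (nat_lit 0x4000000000000000200000000000000020000000000000002) (nat_lit 1216) (nat_lit 0))), (nb (nat_lit 0x4000000000000000300000000000000030000000000000003) (nat_lit 2432) (nat_lit 0))⟩, ⟨(nat_lit 16), (nat_lit 50), (nb (nat_lit 3) (nat_lit 2560) (nb (nat_lit 2) (nat_lit 1280) (nat_lit 0))), (nb (nat_lit 1) (nat_lit 3776) (nb (nat_lit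 1) (nat_lit 2496) (nb (nat_lit 2) (nat_lit 1344) (nat_lit 0))))⟩, ⟨(nat_lit 18), (nat_lit 52), (nb (nat_lit 0x1000000000000000100000000000000010000000000000004) (nat_lit 2432) (nat_lit 0)), (nb (nat_lit 1) (nat_lit 3648) (nb (nat_lit 0x2000000000000000200000000000000020000000000000004) (nat_lit 1216) (nat_lit 0)))⟩, ⟨(nat_lit 20), (nat_lit 46), (nb (nat_lit 1) (nat_lit 1216) (nat_lit 0)), (nat_lit 2)⟩, ⟨(nat_lit 22), (nat_lit 48), (nb (nat_lit 1) (nat_lit 1408) (nat_lit 0)), (nat_lit 0x2000000000000000000000000000000000000000000000000)⟩, ⟨(nat_lit 24), (nat_lit 40), (nb (nat_lit 1) (nat_lit 1280) (nat_lit 0)), (nat_lit 0x20000000000000000)⟩, ⟨(nat_lit 26), (nat_lit 42), (nat_lit 0x2000000000000000200000000000000020000000000000002), (nb (nat_lit 0x1000000000000000100000000000000010000000000000001) (nat_lit 1216) (nat_lit 0))⟩, ⟨(nat_lit 28), (nat_lit 44), (nb (nat_lit 1) (nat_lit 1344) (nat_lit 0)), (nat_lit 0x200000000000000000000000000000000)⟩]⟩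
def e303 : En := ⟨(nat_lit 60), (nat_lit 4369), (nat_lit 105), (nat_lit 216), [⟨(nat_lit 2), (nat_lit 40), (nb (nat_lit 0x3000000000000000200000000000000030000000000000003) (nat_lit 1216) (nat_lit 0)), (nb (nat_lit 0x1000000000000000100000000000000010000000000000001) (nat_lit 2432) (nat_lit 0x2000000000000000000000000000000020000000000000002))⟩, ⟨(nat_lit 6), (nat_lit 56), (nb (nat_lit 1) (nat_lit 3648) (nb (nat_lit 1) (nat_lit 2560) (nb (nat_lit 2) (nat_lit 1216) (nat_lit 0)))), (nb (nat_lit 3) (nat_lit 2432) (nb (nat_lit 2) (nat_lit 1344) (nat_lit 0)))⟩, ⟨(nat_lit 8), (nat_lit 48), (nb (nat_lit 1) (nat_lit 2432) (nat_lit 0x2000000000000000000000000000000020000000000000002)), (nb (nat_lit 0x1000000000000000000000000000000010000000000000003) (nat_lit 1216) (nat_lit 0))⟩, ⟨(nat_lit 10), (nat_lit 18), (nb (nat_lit 0x1000000000000000000000000000000010000000000000003) (nat_lit 2432) (nat_lit 0)), (nb (nat_lit 1) (nat_lit 3648) (nb (nat_lit 0x2000000000000000000000000000000020000000000000002)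 (nat_lit 1216) (nat_lit 0)))⟩, ⟨(nat_lit 14), (nat_lit 28), (nb (nat_lit 0x1000000000000000100000000000000010000000000000001) (nat_lit 3648) (nb (nat_lit 0x4000000000000000200000000000000040000000000000002) (nat_lit 1216) (nat_lit 0))), (nb (nat_lit 0x4000000000000000300000000000000040000000000000003) (nat_lit 2432) (nat_lit 0))⟩, ⟨(nat_lit 20), (nat_lit 26), (nb (nat_lit 0x1000000000000000100000000000000010000000000000001) (nat_lit 2432) (nat_lit 0x2000000000000000000000000000000020000000000000002)), (nb (nat_lit 0x3000000000000000200000000000000030000000000000003) (nat_lit 1216) (nat_lit 0))⟩]⟩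
def e304 : En := ⟨(nat_lit 62), (nat_lit 65809), (nat_lit 105), (nat_lit 216), [⟨(nat_lit 0), (nat_lit 40), (nb (nat_lit 1) (nat_lit 2432) (nat_lit 0x2000000000000000000000000000000020000000000000002)), (nb (nat_lit 0x1000000000000000000000000000000010000000000000003) (nat_lit 1216) (nat_lit 0))⟩, ⟨(nat_lit 4), (nat_lit 42), (nb (nat_lit 0x3000000000000000200000000000000030000000000000003) (nat_lit 1216) (nat_lit 0)), (nb (nat_lit 0x1000000000000000100000000000000010000000000000001) (nat_lit 2432) (nat_lit 0x2000000000000000000000000000000020000000000000002))⟩, ⟨(nat_lit 8), (nat_lit 58), (nb (nat_lit 1) (nat_lit 3648) (nb (nat_lit 1) (nat_lit 2560) (nb (nat_lit 2) (nat_lit 1216) (nat_lit 0)))), (nb (nat_lit 3) (nat_lit 2432) (nb (nat_lit 2) (nat_lit 1344) (nat_lit 0)))⟩, ⟨(nat_lit 10), (nat_lit 12), (nb (nat_lit 1) (nat_lit 3648) (nb (nat_lit 0x2000000000000000000000000000000020000000000000002) (nat_lit 1216) (nat_lit 0))), (nb (nat_lit 0x1000000000000000000000000000000010000000000000003)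 (nat_lit 2432) (nat_lit 0))⟩, ⟨(nat_lit 16), (nat_lit 20), (nb (nat_lit 0x1000000000000000100000000000000010000000000000001) (nat_lit 3648) (nb (nat_lit 0x4000000000000000200000000000000040000000000000002) (nat_lit 1216) (nat_lit 0))), (nb (nat_lit 0x4000000000000000300000000000000040000000000000003) (nat_lit 2432) (nat_lit 0))⟩, ⟨(nat_lit 22), (nat_lit 28), (nb (nat_lit 0x1000000000000000100000000000000010000000000000001) (nat_lit 2432) (nat_lit 0x2000000000000000000000000000000020000000000000002)), (nb (nat_lit 0x3000000000000000200000000000000030000000000000003) (nat_lit 1216) (nat_lit 0))⟩]⟩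
def e305 : En := ⟨(nat_lit 64), (nat_lit 69649), (nat_lit 105), (nat_lit 216), [⟨(nat_lit 0), (nat_lit 50), (nb (nat_lit 1) (nat_lit 3648) (nb (nat_lit 1) (nat_lit 2560) (nb (nat_lit 2) (nat_lit 1216) (nat_lit 0)))), (nb (nat_lit 3) (nat_lit 2432) (nb (nat_lit 2) (nat_lit 1344) (nat_lit 0)))⟩, ⟨(nat_lit 2), (nat_lit 42), (nb (nat_lit 1) (nat_lit 2432) (nat_lit 0x2000000000000000000000000000000020000000000000002)), (nb (nat_lit 0x1000000000000000000000000000000010000000000000003) (nat_lit 1216) (nat_lit 0))⟩, ⟨(nat_lit 6), (nat_lit 44), (nb (nat_lit 0x3000000000000000200000000000000030000000000000003) (nat_lit 1216) (nat_lit 0)), (nb (nat_lit 0x1000000000000000100000000000000010000000000000001) (nat_lit 2432) (nat_lit 0x2000000000000000000000000000000020000000000000002))⟩, ⟨(nat_lit 12), (nat_lit 14), (nb (nat_lit 1) (nat_lit 3648) (nb (nat_lit 0x2000000000000000000000000000000020000000000000002) (nat_lit 1216) (nat_lit 0))), (nb (nat_lit 0x1000000000000000000000000000000010000000000000003)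 (nat_lit 2432) (nat_lit 0))⟩, ⟨(nat_lit 18), (nat_lit 22), (nb (nat_lit 0x1000000000000000100000000000000010000000000000001) (nat_lit 3648) (nb (nat_lit 0x4000000000000000200000000000000040000000000000002) (nat_lit 1216) (nat_lit 0))), (nb (nat_lit 0x4000000000000000300000000000000040000000000000003) (nat_lit 2432) (nat_lit 0))⟩, ⟨(nat_lit 20), (nat_lit 24), (nb (nat_lit 0x3000000000000000200000000000000030000000000000003) (nat_lit 1216) (nat_lit 0)), (nb (nat_lit 0x1000000000000000100000000000000010000000000000001) (nat_lit 2432) (nat_lit 0x2000000000000000000000000000000020000000000000002))⟩]⟩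
def e306 : En := ⟨(nat_lit 66), (nat_lit 69889), (nat_lit 105), (nat_lit 216), [⟨(nat_lit 2), (nat_lit 52), (nb (nat_lit 1) (nat_lit 3648) (nb (nat_lit 1) (nat_lit 2560) (nb (nat_lit 2) (nat_lit 1216) (nat_lit 0)))), (nb (nat_lit 3) (nat_lit 2432) (nb (nat_lit 2) (nat_lit 1344) (nat_lit 0)))⟩, ⟨(nat_lit 4), (nat_lit 44), (nb (nat_lit 1) (nat_lit 2432) (nat_lit 0x2000000000000000000000000000000020000000000000002)), (nb (nat_lit 0x1000000000000000000000000000000010000000000000003) (nat_lit 1216) (nat_lit 0))⟩, ⟨(nat_lit 8), (nat_lit 46), (nb (nat_lit 0x3000000000000000200000000000000030000000000000003) (nat_lit 1216) (nat_lit 0)), (nb (nat_lit 0x1000000000000000100000000000000010000000000000001) (nat_lit 2432) (nat_lit 0x2000000000000000000000000000000020000000000000002))⟩, ⟨(nat_lit 10), (nat_lit 24), (nb (nat_lit 0x1000000000000000100000000000000010000000000000001) (nat_lit 3648) (nb (nat_lit 0x4000000000000000200000000000000040000000000000002) (nat_lit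 1216) (nat_lit 0))), (nb (nat_lit 0x4000000000000000300000000000000040000000000000003) (nat_lit 2432) (nat_lit 0))⟩, ⟨(nat_lit 14), (nat_lit 16), (nb (nat_lit 1) (nat_lit 3648) (nb (nat_lit 0x2000000000000000000000000000000020000000000000002) (nat_lit 1216) (nat_lit 0))), (nb (nat_lit 0x1000000000000000000000000000000010000000000000003) (nat_lit 2432) (nat_lit 0))⟩, ⟨(nat_lit 22), (nat_lit 26), (nb (nat_lit 0x3000000000000000200000000000000030000000000000003) (nat_lit 1216) (nat_lit 0)), (nb (nat_lit 0x1000000000000000100000000000000010000000000000001) (nat_lit 2432) (nat_lit 0x2000000000000000000000000000000020000000000000002))⟩]⟩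
def e307 : En := ⟨(nat_lit 68), (nat_lit 69904), (nat_lit 105), (nat_lit 216), [⟨(nat_lit 0), (nat_lit 48), (nb (nat_lit 0x3000000000000000200000000000000030000000000000003) (nat_lit 1216) (nat_lit 0)), (nb (nat_lit 0x1000000000000000100000000000000010000000000000001) (nat_lit 2432) (nat_lit 0x2000000000000000000000000000000020000000000000002))⟩, ⟨(nat_lit 4), (nat_lit 54), (nb (nat_lit 1) (nat_lit 3648) (nb (nat_lit 1) (nat_lit 2560) (nb (nat_lit 2) (nat_lit 1216) (nat_lit 0)))), (nb (nat_lit 3) (nat_lit 2432) (nb (nat_lit 2) (nat_lit 1344) (nat_lit 0)))⟩, ⟨(nat_lit 6), (nat_lit 46), (nb (nat_lit 1) (nat_lit 2432) (nat_lit 0x2000000000000000000000000000000020000000000000002)), (nb (nat_lit 0x1000000000000000000000000000000010000000000000003) (nat_lit 1216) (nat_lit 0))⟩, ⟨(nat_lit 12), (nat_lit 26), (nb (nat_lit 0x1000000000000000100000000000000010000000000000001) (nat_lit 3648) (nb (nat_lit 0x4000000000000000200000000000000040000000000000002) (nat_lit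 1216) (nat_lit 0))), (nb (nat_lit 0x4000000000000000300000000000000040000000000000003) (nat_lit 2432) (nat_lit 0))⟩, ⟨(nat_lit 16), (nat_lit 18), (nb (nat_lit 1) (nat_lit 3648) (nb (nat_lit 0x2000000000000000000000000000000020000000000000002) (nat_lit 1216) (nat_lit 0))), (nb (nat_lit 0x1000000000000000000000000000000010000000000000003) (nat_lit 2432) (nat_lit 0))⟩, ⟨(nat_lit 24), (nat_lit 28), (nb (nat_lit 0x3000000000000000200000000000000030000000000000003) (nat_lit 1216) (nat_lit 0)), (nb (nat_lit 0x1000000000000000100000000000000010000000000000001) (nat_lit 2432) (nat_lit 0x2000000000000000000000000000000020000000000000002))⟩]⟩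
def e308 : En := ⟨(nat_lit 40), (nat_lit 273), (nat_lit 12), (nat_lit 36), [⟨(nat_lit 4), (nat_lit 20), (nb (nat_lit 1) (nat_lit 1216) (nb (nat_lit 1) (nat_lit 128) (nat_lit 0))), (nat_lit 1)⟩, ⟨(nat_lit 6), (nat_lit 10), (nb (nat_lit 1) (nat_lit 2432) (nb (nat_lit 1) (nat_lit 1344) (nat_lit 0))), (nb (nat_lit 1) (nat_lit 1216) (nat_lit 0))⟩, ⟨(nat_lit 8), (nat_lit 28), (nb (nat_lit 1) (nat_lit 2432) (nb (nat_lit 1) (nat_lit 1344) (nat_lit 1))), (nb (nat_lit 2) (nat_lit 1216) (nb (nat_lit 1) (nat_lit 128) (nat_lit 0)))⟩]⟩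
def e309 : En := ⟨(nat_lit 42), (nat_lit 65553), (nat_lit 12), (nat_lit 36), [⟨(nat_lit 0), (nat_lit 20), (nb (nat_lit 1) (nat_lit 2432) (nb (nat_lit 1) (nat_lit 1344) (nat_lit 1))), (nb (nat_lit 2) (nat_lit 1216) (nb (nat_lit 1) (nat_lit 128) (nat_lit 0)))⟩, ⟨(nat_lit 6), (nat_lit 22), (nb (nat_lit 1) (nat_lit 1216) (nb (nat_lit 1) (nat_lit 128) (nat_lit 0))), (nat_lit 1)⟩, ⟨(nat_lit 8), (nat_lit 12), (nb (nat_lit 1) (nat_lit 2432) (nb (nat_lit 1) (nat_lit 1344) (nat_lit 0))), (nb (nat_lit 1) (nat_lit 1216) (nat_lit 0))⟩]⟩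
def e310 : En := ⟨(nat_lit 44), (nat_lit 69633), (nat_lit 12), (nat_lit 36), [⟨(nat_lit 0), (nat_lit 14), (nb (nat_lit 1) (nat_lit 2432) (nb (nat_lit 1) (nat_lit 1344) (nat_lit 0))), (nb (nat_lit 1) (nat_lit 1216) (nat_lit 0))⟩, ⟨(nat_lit 2), (nat_lit 22), (nb (nat_lit 1) (nat_lit 2432) (nb (nat_lit 1) (nat_lit 1344) (nat_lit 1))), (nb (nat_lit 2) (nat_lit 1216) (nb (nat_lit 1) (nat_lit 128) (nat_lit 0)))⟩, ⟨(nat_lit 8), (nat_lit 24), (nb (nat_lit 1) (nat_lit 1216) (nb (nat_lit 1) (nat_lit 128) (nat_lit 0))), (nat_lit 1)⟩]⟩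
def e311 : En := ⟨(nat_lit 46), (nat_lit 69888), (nat_lit 12), (nat_lit 36), [⟨(nat_lit 0), (nat_lit 26), (nb (nat_lit 1) (nat_lit 1216) (nb (nat_lit 1) (nat_lit 128) (nat_lit 0))), (nat_lit 1)⟩, ⟨(nat_lit 2), (nat_lit 16), (nb (nat_lit 1) (nat_lit 2432) (nb (nat_lit 1) (nat_lit 1344) (nat_lit 0))), (nb (nat_lit 1) (nat_lit 1216) (nat_lit 0))⟩, ⟨(nat_lit 4), (nat_lit 24), (nb (nat_lit 1) (nat_lit 2432) (nb (nat_lit 1) (nat_lit 1344) (nat_lit 1))), (nb (nat_lit 2) (nat_lit 1216) (nb (nat_lit 1) (nat_lit 128) (nat_lit 0)))⟩]⟩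
def e312 : En := ⟨(nat_lit 48), (nat_lit 4368), (nat_lit 12), (nat_lit 36), [⟨(nat_lit 2), (nat_lit 28), (nb (nat_lit 1) (nat_lit 1216) (nb (nat_lit 1) (nat_lit 128) (nat_lit 0))), (nat_lit 1)⟩, ⟨(nat_lit 4), (nat_lit 18), (nb (nat_lit 1) (nat_lit 2432) (nb (nat_lit 1) (nat_lit 1344) (nat_lit 0))), (nb (nat_lit 1) (nat_lit 1216) (nat_lit 0))⟩, ⟨(nat_lit 6), (nat_lit 26), (nb (nat_lit 1) (nat_lit 2432) (nb (nat_lit 1) (nat_lit 1344) (nat_lit 1))), (nb (nat_lit 2) (nat_lit 1216) (nb (nat_lit 1) (nat_lit 128) (nat_lit 0)))⟩]⟩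
def e313 : En := ⟨(nat_lit 50), (nat_lit 4113), (nat_lit 24), (nat_lit 24), [⟨(nat_lit 2), (nat_lit 20), (nb (nat_lit 1) (nat_lit 1216) (nb (nat_lit 1) (nat_lit 128) (nat_lit 0))), (nat_lit 1)⟩, ⟨(nat_lit 6), (nat_lit 14), (nat_lit 0x2000000000000000000000000000000020000000000000002), (nb (nat_lit 0x1000000000000000100000000000000010000000000000002) (nat_lit 1216) (nat_lit 0))⟩, ⟨(nat_lit 8), (nat_lit 18), (nb (nat_lit 0x1000000000000000100000000000000010000000000000001) (nat_lit 1216) (nat_lit 0)), (nat_lit 0x2000000000000000100000000000000020000000000000001)⟩]⟩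
def e314 : En := ⟨(nat_lit 52), (nat_lit 65793), (nat_lit 24), (nat_lit 24), [⟨(nat_lit 0), (nat_lit 10), (nb (nat_lit 0x1000000000000000100000000000000010000000000000001) (nat_lit 1216) (nat_lit 0)), (nat_lit 0x2000000000000000100000000000000020000000000000001)⟩, ⟨(nat_lit 4), (nat_lit 22), (nb (nat_lit 1) (nat_lit 1216) (nb (nat_lit 1) (nat_lit 128) (nat_lit 0))), (nat_lit 1)⟩, ⟨(nat_lit 8), (nat_lit 16), (nat_lit 0x2000000000000000000000000000000020000000000000002), (nb (nat_lit 0x1000000000000000100000000000000010000000000000002) (nat_lit 1216) (nat_lit 0))⟩]⟩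
def e315 : En := ⟨(nat_lit 54), (nat_lit 69648), (nat_lit 24), (nat_lit 24), [⟨(nat_lit 0), (nat_lit 18), (nat_lit 0x2000000000000000000000000000000020000000000000002), (nb (nat_lit 0x1000000000000000100000000000000010000000000000002) (nat_lit 1216) (nat_lit 0))⟩, ⟨(nat_lit 2), (nat_lit 12), (nb (nat_lit 0x1000000000000000100000000000000010000000000000001) (nat_lit 1216) (nat_lit 0)), (nat_lit 0x2000000000000000100000000000000020000000000000001)⟩, ⟨(nat_lit 6), (nat_lit 24), (nb (nat_lit 1) (nat_lit 1216) (nb (nat_lit 1) (nat_lit 128) (nat_lit 0))), (nat_lit 1)⟩]⟩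
def e316 : En := ⟨(nat_lit 56), (nat_lit 4353), (nat_lit 24), (nat_lit 24), [⟨(nat_lit 2), (nat_lit 10), (nat_lit 0x2000000000000000000000000000000020000000000000002), (nb (nat_lit 0x1000000000000000100000000000000010000000000000002) (nat_lit 1216) (nat_lit 0))⟩, ⟨(nat_lit 4), (nat_lit 14), (nb (nat_lit 0x1000000000000000100000000000000010000000000000001) (nat_lit 1216) (nat_lit 0)), (nat_lit 0x2000000000000000100000000000000020000000000000001)⟩, ⟨(nat_lit 8), (nat_lit 26), (nb (nat_lit 1) (nat_lit 1216) (nb (nat_lit 1) (nat_lit 128) (nat_lit 0))), (nat_lit 1)⟩]⟩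
def e317 : En := ⟨(nat_lit 58), (nat_lit 65808), (nat_lit 24), (nat_lit 24), [⟨(nat_lit 0), (nat_lit 28), (nb (nat_lit 1) (nat_lit 1216) (nb (nat_lit 1) (nat_lit 128) (nat_lit 0))), (nat_lit 1)⟩, ⟨(nat_lit 4), (nat_lit 12), (nat_lit 0x2000000000000000000000000000000020000000000000002), (nb (nat_lit 0x1000000000000000100000000000000010000000000000002) (nat_lit 1216) (nat_lit 0))⟩, ⟨(nat_lit 6), (nat_lit 16), (nb (nat_lit 0x1000000000000000100000000000000010000000000000001) (nat_lit 1216) (nat_lit 0)), (nat_lit 0x2000000000000000100000000000000020000000000000001)⟩]⟩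
def e318 : En := ⟨(nat_lit 10), (nat_lit 257), (nat_lit 3), (nat_lit 12), [⟨(nat_lit 4), (nat_lit 8), (nb (nat_lit 1) (nat_lit 1216) (nb (nat_lit 1) (nat_lit 128) (nat_lit 0))), (nat_lit 1)⟩]⟩
def e319 : En := ⟨(nat_lit 12), (nat_lit 65552), (nat_lit 3), (nat_lit 12), [⟨(nat_lit 0), (nat_lit 6), (nat_lit 1), (nb (nat_lit 1) (nat_lit 1216) (nb (nat_lit 1) (nat_lit 128) (nat_lit 0)))⟩]⟩
def e320 : En := ⟨(nat_lit 14), (nat_lit 4097), (nat_lit 3), (nat_lit 12), [⟨(nat_lit 2), (nat_lit 8), (nat_lit 1), (nb (nat_lit 1) (nat_lit 1216) (nb (nat_lit 1) (nat_lit 128) (nat_lit 0)))⟩]⟩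
def e321 : En := ⟨(nat_lit 16), (nat_lit 65792), (nat_lit 3), (nat_lit 12), [⟨(nat_lit 0), (nat_lit 4), (nb (nat_lit 1) (nat_lit 1216) (nb (nat_lit 1) (nat_lit 128) (nat_lit 0))), (nat_lit 1)⟩]⟩
def e322 : En := ⟨(nat_lit 18), (nat_lit 4112), (nat_lit 3), (nat_lit 12), [⟨(nat_lit 2), (nat_lit 6), (nb (nat_lit 1) (nat_lit 1216) (nb (nat_lit 1) (nat_lit 128) (nat_lit 0))), (nat_lit 1)⟩]⟩
def e323 : En := ⟨(nat_lit 20), (nat_lit 17), (nat_lit 3), (nat_lit 12), [⟨(nat_lit 6), (nat_lit 8), (nb (nat_lit 1) (nat_lit 1216) (nb (nat_lit 1) (nat_lit 128) (nat_lit 0))), (nat_lit 1)⟩]⟩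
def e324 : En := ⟨(nat_lit 22), (nat_lit 65537), (nat_lit 3), (nat_lit 12), [⟨(nat_lit 0), (nat_lit 8), (nat_lit 1), (nb (nat_lit 1) (nat_lit 1216) (nb (nat_lit 1) (nat_lit 128) (nat_lit 0)))⟩]⟩
def e325 : En := ⟨(nat_lit 24), (nat_lit 69632), (nat_lit 3), (nat_lit 12), [⟨(nat_lit 0), (nat_lit 2), (nb (nat_lit 1) (nat_lit 1216) (nb (nat_lit 1) (nat_lit 128) (nat_lit 0))), (nat_lit 1)⟩]⟩
def e326 : En := ⟨(nat_lit 26), (nat_lit 4352), (nat_lit 3), (nat_lit 12), [⟨(nat_lit 2), (nat_lit 4), (nb (nat_lit 1) (nat_lit 1216) (nb (nat_lit 1) (nat_lit 128) (nat_lit 0))), (nat_lit 1)⟩]⟩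
def e327 : En := ⟨(nat_lit 28), (nat_lit 272), (nat_lit 3), (nat_lit 12), [⟨(nat_lit 4), (nat_lit 6), (nb (nat_lit 1) (nat_lit 1216) (nb (nat_lit 1) (nat_lit 128) (nat_lit 0))), (nat_lit 1)⟩]⟩
def e328 : En := ⟨(nat_lit 73), (nat_lit 69905), (nat_lit 120), (nat_lit 216), [⟨(nat_lit 0), (nat_lit 60), (nb (nat_lit 1) (nat_lit 1408) (nat_lit 1)), (nat_lit 0x1000000000000000000000000000000000000000000000000)⟩, ⟨(nat_lit 2), (nat_lit 62), (nb (nat_lit 1) (nat_lit 1344) (nat_lit 0)), (nat_lit 0x1000000000000000200000000000000010000000000000001)⟩, ⟨(nat_lit 4), (nat_lit 64), (nb (nat_lit 1) (nat_lit 1280) (nb (nat_lit 1) (nat_lit 192) (nat_lit 0))), (nat_lit 0x10000000000000000)⟩, ⟨(nat_lit 6), (nat_lit 66), (nb (nat_lit 1) (nat_lit 1216) (nb (nat_lit 1) (nat_lit 128) (nat_lit 0))), (nat_lit 1)⟩, ⟨(nat_lit 8), (nat_lit 68), (nat_lit 0x1000000000000000100000000000000020000000000000001), (nb (nat_lit 0x1000000000000000100000000000000010000000000000001) (nat_lit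 1216) (nat_lit 0))⟩, ⟨(nat_lit 10), (nat_lit 54), (nb (nat_lit 0x1000000000000000100000000000000010000000000000001) (nat_lit 3648) (nb (nat_lit 0x2000000000000000200000000000000040000000000000002) (nat_lit 1216) (nat_lit 0))), (nb (nat_lit 0x3000000000000000300000000000000040000000000000003) (nat_lit 2432) (nat_lit 0))⟩, ⟨(nat_lit 12), (nat_lit 56), (nb (nat_lit 3) (nat_lit 2624) (nb (nat_lit 2) (nat_lit 1216) (nat_lit 0))), (nb (nat_lit 1) (nat_lit 3840) (nb (nat_lit 1) (nat_lit 2432) (nb (nat_lit 2) (nat_lit 1408) (nat_lit 0))))⟩, ⟨(nat_lit 14), (nat_lit 58), (nb (nat_lit 0x1000000000000000400000000000000010000000000000001) (nat_lit 2432) (nat_lit 0)), (nb (nat_lit 1) (nat_lit 3776) (nb (nat_lit 0x2000000000000000400000000000000020000000000000002) (nat_lit 1216) (nat_lit 0)))⟩, ⟨(nat_lit 16), (nat_lit 50), (nb (nat_lit 3) (nat_lit 2496) (nb (nat_lit 2) (nat_lit 1408) (nat_lit 0))), (nb (nat_lit 1) (nat_lit 3712) (nb (nat_lit 1) (nat_lit 2624) (nb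 (nat_lit 2) (nat_lit 1280) (nat_lit 0))))⟩, ⟨(nat_lit 18), (nat_lit 52), (nb (nat_lit 3) (nat_lit 2432) (nb (nat_lit 2) (nat_lit 1344) (nat_lit 0))), (nb (nat_lit 1) (nat_lit 3648) (nb (nat_lit 1) (nat_lit 2560) (nb (nat_lit 2) (nat_lit 1216) (nat_lit 0))))⟩, ⟨(nat_lit 20), (nat_lit 46), (nb (nat_lit 1) (nat_lit 1216) (nat_lit 0)), (nat_lit 2)⟩, ⟨(nat_lit 22), (nat_lit 48), (nat_lit 0x2000000000000000200000000000000020000000000000002), (nb (nat_lit 0x1000000000000000100000000000000010000000000000001) (nat_lit 1216) (nat_lit 0))⟩, ⟨(nat_lit 24), (nat_lit 40), (nb (nat_lit 1) (nat_lit 1408) (nat_lit 0)), (nat_lit 0x2000000000000000000000000000000000000000000000000)⟩, ⟨(nat_lit 26), (nat_lit 42), (nb (nat_lit 1) (nat_lit 1344) (nat_lit 0)), (nat_lit 0x200000000000000000000000000000000)⟩, ⟨(nat_lit 28), (nat_lit 44), (nb (nat_lit 1) (nat_lit 1280) (nat_lit 0)), (nat_lit 0x20000000000000000)⟩]⟩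
def e329 : En := ⟨(nat_lit 60), (nat_lit 4369), (nat_lit 40), (nat_lit 315), [⟨(nat_lit 2), (nat_lit 40), (nb (nat_lit 1) (nat_lit 108224) (nb (nat_lit 1) (nat_lit 94848) (nb (nat_lit 1) (nat_lit 14592) (nat_lit 0)))), (nb (nat_lit 1) (nat_lit 107008) (nb (nat_lit 1) (nat_lit 13376) (nat_lit 1)))⟩, ⟨(nat_lit 4), (nat_lit 50), (nb (nat_lit 1) (nat_lit 2432) (nat_lit 0)), (nb (nat_lit 2) (nat_lit 1216) (nat_lit 0))⟩, ⟨(nat_lit 6), (nat_lit 56), (nb (nat_lit 1) (nat_lit 96064) (nat_lit 0)), (nb (nat_lit 2) (nat_lit 94848) (nat_lit 0))⟩, ⟨(nat_lit 8), (nat_lit 48), (nb (nat_lit 1) (nat_lit 107008) (nb (nat_lit 1) (nat_lit 94848) (nb (nat_lit 1) (nat_lit 13376) (nat_lit 1)))), (nb (nat_lit 1) (nat_lit 1216) (nat_lit 0))⟩, ⟨(nat_lit 10), (nat_lit 18), (nb (nat_lit 1) (nat_lit 14592) (nb (nat_lit 1) (nat_lit 1216) (nat_lit 0))), (nb (nat_lit 1) (nat_lit 108224) (nb (nat_lit 1) (nat_lit 96064) (nb (nat_lit 1) (nat_lit 15808) (nat_lit 0))))⟩, ⟨(nat_lit 14),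 (nat_lit 28), (nb (nat_lit 2) (nat_lit 108224) (nb (nat_lit 2) (nat_lit 94848) (nb (nat_lit 2) (nat_lit 14592) (nat_lit 0)))), (nb (nat_lit 1) (nat_lit 109440) (nb (nat_lit 1) (nat_lit 96064) (nb (nat_lit 1) (nat_lit 15808) (nat_lit 0))))⟩, ⟨(nat_lit 20), (nat_lit 26), (nb (nat_lit 1) (nat_lit 107008) (nb (nat_lit 1) (nat_lit 13376) (nb (nat_lit 1) (nat_lit 2432) (nat_lit 1)))), (nb (nat_lit 1) (nat_lit 108224) (nb (nat_lit 1) (nat_lit 94848) (nb (nat_lit 1) (nat_lit 14592) (nb (nat_lit 2) (nat_lit 1216) (nat_lit 0)))))⟩]⟩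
def e330 : En := ⟨(nat_lit 62), (nat_lit 65809), (nat_lit 40), (nat_lit 315), [⟨(nat_lit 0), (nat_lit 40), (nb (nat_lit 1) (nat_lit 107008) (nb (nat_lit 1) (nat_lit 94848) (nb (nat_lit 1) (nat_lit 13376) (nat_lit 1)))), (nb (nat_lit 1) (nat_lit 1216) (nat_lit 0))⟩, ⟨(nat_lit 4), (nat_lit 42), (nb (nat_lit 1) (nat_lit 108224) (nb (nat_lit 1) (nat_lit 94848) (nb (nat_lit 1) (nat_lit 14592) (nat_lit 0)))), (nb (nat_lit 1) (nat_lit 107008) (nb (nat_lit 1) (nat_lit 13376) (nat_lit 1)))⟩, ⟨(nat_lit 6), (nat_lit 52), (nb (nat_lit 1) (nat_lit 2432) (nat_lit 0)), (nb (nat_lit 2) (nat_lit 1216) (nat_lit 0))⟩, ⟨(nat_lit 8), (nat_lit 58), (nb (nat_lit 1) (nat_lit 96064) (nat_lit 0)), (nb (nat_lit 2) (nat_lit 94848) (nat_lit 0))⟩, ⟨(nat_lit 10), (nat_lit 12), (nb (nat_lit 1) (nat_lit 108224) (nb (nat_lit 1) (nat_lit 96064) (nb (nat_lit 1) (nat_lit 15808) (nat_lit 0)))), (nb (nat_lit 1) (nat_lit 14592) (nb (nat_lit 1) (nat_lit 1216) (nat_lit 0)))⟩, ⟨(nat_lit 16),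 (nat_lit 20), (nb (nat_lit 2) (nat_lit 108224) (nb (nat_lit 2) (nat_lit 94848) (nb (nat_lit 2) (nat_lit 14592) (nat_lit 0)))), (nb (nat_lit 1) (nat_lit 109440) (nb (nat_lit 1) (nat_lit 96064) (nb (nat_lit 1) (nat_lit 15808) (nat_lit 0))))⟩, ⟨(nat_lit 22), (nat_lit 28), (nb (nat_lit 1) (nat_lit 107008) (nb (nat_lit 1) (nat_lit 13376) (nb (nat_lit 1) (nat_lit 2432) (nat_lit 1)))), (nb (nat_lit 1) (nat_lit 108224) (nb (nat_lit 1) (nat_lit 94848) (nb (nat_lit 1) (nat_lit 14592) (nb (nat_lit 2) (nat_lit 1216) (nat_lit 0)))))⟩]⟩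
def e331 : En := ⟨(nat_lit 64), (nat_lit 69649), (nat_lit 40), (nat_lit 315), [⟨(nat_lit 0), (nat_lit 50), (nb (nat_lit 1) (nat_lit 96064) (nat_lit 0)), (nb (nat_lit 2) (nat_lit 94848) (nat_lit 0))⟩, ⟨(nat_lit 2), (nat_lit 42), (nb (nat_lit 1) (nat_lit 107008) (nb (nat_lit 1) (nat_lit 94848) (nb (nat_lit 1) (nat_lit 13376) (nat_lit 1)))), (nb (nat_lit 1) (nat_lit 1216) (nat_lit 0))⟩, ⟨(nat_lit 6), (nat_lit 44), (nb (nat_lit 1) (nat_lit 108224) (nb (nat_lit 1) (nat_lit 94848) (nb (nat_lit 1) (nat_lit 14592) (nat_lit 0)))), (nb (nat_lit 1) (nat_lit 107008) (nb (nat_lit 1) (nat_lit 13376) (nat_lit 1)))⟩, ⟨(nat_lit 8), (nat_lit 54), (nb (nat_lit 1) (nat_lit 2432) (nat_lit 0)), (nb (nat_lit 2) (nat_lit 1216) (nat_lit 0))⟩, ⟨(nat_lit 12), (nat_lit 14), (nb (nat_lit 1) (nat_lit 108224) (nb (nat_lit 1) (nat_lit 96064) (nb (nat_lit 1) (nat_lit 15808) (nat_lit 0)))), (nb (nat_lit 1) (nat_lit 14592) (nb (nat_lit 1) (nat_lit 1216) (nat_lit 0)))⟩, ⟨(nat_lit 18),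 (nat_lit 22), (nb (nat_lit 2) (nat_lit 108224) (nb (nat_lit 2) (nat_lit 94848) (nb (nat_lit 2) (nat_lit 14592) (nat_lit 0)))), (nb (nat_lit 1) (nat_lit 109440) (nb (nat_lit 1) (nat_lit 96064) (nb (nat_lit 1) (nat_lit 15808) (nat_lit 0))))⟩, ⟨(nat_lit 20), (nat_lit 24), (nb (nat_lit 1) (nat_lit 108224) (nb (nat_lit 1) (nat_lit 94848) (nb (nat_lit 1) (nat_lit 14592) (nb (nat_lit 2) (nat_lit 1216) (nat_lit 0))))), (nb (nat_lit 1) (nat_lit 107008) (nb (nat_lit 1) (nat_lit 13376) (nb (nat_lit 1) (nat_lit 2432) (nat_lit 1))))⟩]⟩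
def e332 : En := ⟨(nat_lit 66), (nat_lit 69889), (nat_lit 40), (nat_lit 315), [⟨(nat_lit 0), (nat_lit 56), (nb (nat_lit 1) (nat_lit 2432) (nat_lit 0)), (nb (nat_lit 2) (nat_lit 1216) (nat_lit 0))⟩, ⟨(nat_lit 2), (nat_lit 52), (nb (nat_lit 1) (nat_lit 96064) (nat_lit 0)), (nb (nat_lit 2) (nat_lit 94848) (nat_lit 0))⟩, ⟨(nat_lit 4), (nat_lit 44), (nb (nat_lit 1) (nat_lit 107008) (nb (nat_lit 1) (nat_lit 94848) (nb (nat_lit 1) (nat_lit 13376) (nat_lit 1)))), (nb (nat_lit 1) (nat_lit 1216) (nat_lit 0))⟩, ⟨(nat_lit 8), (nat_lit 46), (nb (nat_lit 1) (nat_lit 108224) (nb (nat_lit 1) (nat_lit 94848) (nb (nat_lit 1) (nat_lit 14592) (nat_lit 0)))), (nb (nat_lit 1) (nat_lit 107008) (nb (nat_lit 1) (nat_lit 13376) (nat_lit 1)))⟩, ⟨(nat_lit 10), (nat_lit 24), (nb (nat_lit 2) (nat_lit 108224) (nb (nat_lit 2) (nat_lit 94848) (nb (nat_lit 2) (nat_lit 14592) (nat_lit 0)))), (nb (nat_lit 1) (nat_lit 109440) (nb (nat_lit 1) (nat_lit 96064) (nb (nat_lit 1) (nat_lit 15808)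 (nat_lit 0))))⟩, ⟨(nat_lit 14), (nat_lit 16), (nb (nat_lit 1) (nat_lit 108224) (nb (nat_lit 1) (nat_lit 96064) (nb (nat_lit 1) (nat_lit 15808) (nat_lit 0)))), (nb (nat_lit 1) (nat_lit 14592) (nb (nat_lit 1) (nat_lit 1216) (nat_lit 0)))⟩, ⟨(nat_lit 22), (nat_lit 26), (nb (nat_lit 1) (nat_lit 108224) (nb (nat_lit 1) (nat_lit 94848) (nb (nat_lit 1) (nat_lit 14592) (nb (nat_lit 2) (nat_lit 1216) (nat_lit 0))))), (nb (nat_lit 1) (nat_lit 107008) (nb (nat_lit 1) (nat_lit 13376) (nb (nat_lit 1) (nat_lit 2432) (nat_lit 1))))⟩]⟩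
def e333 : En := ⟨(nat_lit 68), (nat_lit 69904), (nat_lit 40), (nat_lit 315), [⟨(nat_lit 0), (nat_lit 48), (nb (nat_lit 1) (nat_lit 108224) (nb (nat_lit 1) (nat_lit 94848) (nb (nat_lit 1) (nat_lit 14592) (nat_lit 0)))), (nb (nat_lit 1) (nat_lit 107008) (nb (nat_lit 1) (nat_lit 13376) (nat_lit 1)))⟩, ⟨(nat_lit 2), (nat_lit 58), (nb (nat_lit 1) (nat_lit 2432) (nat_lit 0)), (nb (nat_lit 2) (nat_lit 1216) (nat_lit 0))⟩, ⟨(nat_lit 4), (nat_lit 54), (nb (nat_lit 1) (nat_lit 96064) (nat_lit 0)), (nb (nat_lit 2) (nat_lit 94848) (nat_lit 0))⟩, ⟨(nat_lit 6), (nat_lit 46), (nb (nat_lit 1) (nat_lit 107008) (nb (nat_lit 1) (nat_lit 94848) (nb (nat_lit 1) (nat_lit 13376) (nat_lit 1)))), (nb (nat_lit 1) (nat_lit 1216) (nat_lit 0))⟩, ⟨(nat_lit 12), (nat_lit 26), (nb (nat_lit 2) (nat_lit 108224) (nb (nat_lit 2) (nat_lit 94848) (nb (nat_lit 2) (nat_lit 14592) (nat_lit 0)))), (nb (nat_lit 1) (nat_lit 109440) (nb (nat_lit 1) (nat_lit 96064) (nb (nat_lit 1) (nat_lit 15808)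 (nat_lit 0))))⟩, ⟨(nat_lit 16), (nat_lit 18), (nb (nat_lit 1) (nat_lit 108224) (nb (nat_lit 1) (nat_lit 96064) (nb (nat_lit 1) (nat_lit 15808) (nat_lit 0)))), (nb (nat_lit 1) (nat_lit 14592) (nb (nat_lit 1) (nat_lit 1216) (nat_lit 0)))⟩, ⟨(nat_lit 24), (nat_lit 28), (nb (nat_lit 1) (nat_lit 108224) (nb (nat_lit 1) (nat_lit 94848) (nb (nat_lit 1) (nat_lit 14592) (nb (nat_lit 2) (nat_lit 1216) (nat_lit 0))))), (nb (nat_lit 1) (nat_lit 107008) (nb (nat_lit 1) (nat_lit 13376) (nb (nat_lit 1) (nat_lit 2432) (nat_lit 1))))⟩]⟩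
def e334 : En := ⟨(nat_lit 60), (nat_lit 4369), (nat_lit 273), (nat_lit 10584), [⟨(nat_lit 2), (nat_lit 40), (nb (nat_lit 1) (nat_lit 189760) (nb (nat_lit 0x200000000000000000000000000000002) (nat_lit 187328) (nb (nat_lit 0x1000000000000000100000000000000010000000000000001) (nat_lit 96064) (nb (nat_lit 0x2000000000000000200000000000000020000000000000002) (nat_lit 93632) (nb (nat_lit 0x1000000000000000100000000000000000000000000000001) (nat_lit 2432) (nat_lit 0x200000000000000000000000000000002)))))), (nb (nat_lit 0x100000000000000000000000000000003) (nat_lit 188544) (nb (nat_lit 0x3000000000000000300000000000000030000000000000003) (nat_lit 94848) (nb (nat_lit 0x2000000000000000300000000000000000000000000000003) (nat_lit 1216) (nat_lit 0))))⟩, ⟨(nat_lit 4), (nat_lit 50), (nb (nat_lit 1) (nat_lit 97280) (nb (nat_lit 1) (nat_lit 96256) (nb (nat_lit 2) (nat_lit 94848) (nb (nat_lit 1) (nat_lit 3648) (nb (nat_lit 1) (nat_lit 2624) (nb (nat_lit 2) (nat_lit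 1216) (nat_lit 0))))))), (nb (nat_lit 3) (nat_lit 96064) (nb (nat_lit 2) (nat_lit 95040) (nb (nat_lit 3) (nat_lit 2432) (nb (nat_lit 2) (nat_lit 1408) (nat_lit 0)))))⟩, ⟨(nat_lit 6), (nat_lit 56), (nb (nat_lit 1) (nat_lit 190912) (nb (nat_lit 1) (nat_lit 189888) (nb (nat_lit 2) (nat_lit 188480) (nb (nat_lit 1) (nat_lit 97280) (nb (nat_lit 1) (nat_lit 96256) (nb (nat_lit 2) (nat_lit 94848) (nat_lit 0))))))), (nb (nat_lit 3) (nat_lit 189696) (nb (nat_lit 2) (nat_lit 188672) (nb (nat_lit 3) (nat_lit 96064) (nb (nat_lit 2) (nat_lit 95040) (nat_lit 0)))))⟩, ⟨(nat_lit 8), (nat_lit 48), (nb (nat_lit 1) (nat_lit 189696) (nb (nat_lit 0x100000000000000000000000000000001) (nat_lit 188544) (nb (nat_lit 0x1000000000000000100000000000000010000000000000001) (nat_lit 94848) (nb (nat_lit 0x100000000000000000000000000000003) (nat_lit 1216) (nat_lit 0))))), (nb (nat_lit 2) (nat_lit 188480) (nb (nat_lit 0x200000000000000000000000000000002) (nat_lit 187328) (nb (nat_lit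 0x2000000000000000200000000000000020000000000000002) (nat_lit 93632) (nb (nat_lit 1) (nat_lit 2432) (nat_lit 0x200000000000000000000000000000002)))))⟩, ⟨(nat_lit 10), (nat_lit 18), (nb (nat_lit 2) (nat_lit 189696) (nb (nat_lit 0x200000000000000000000000000000002) (nat_lit 188544) (nb (nat_lit 3) (nat_lit 96128) (nb (nat_lit 2) (nat_lit 94976) (nb (nat_lit 0x2000000000000000300000000000000000000000000000003) (nat_lit 2432) (nat_lit 0)))))), (nb (nat_lit 1) (nat_lit 190912) (nb (nat_lit 0x100000000000000000000000000000001) (nat_lit 189760) (nb (nat_lit 1) (nat_lit 97344) (nb (nat_lit 1) (nat_lit 96192) (nb (nat_lit 2) (nat_lit 94912) (nb (nat_lit 0x1000000000000000100000000000000000000000000000001) (nat_lit 3648) (nb (nat_lit 0x200000000000000000000000000000002) (nat_lit 1216) (nat_lit 0))))))))⟩, ⟨(nat_lit 14), (nat_lit 28), (nb (nat_lit 0x1000000000000000000000000000000040000000000000001) (nat_lit 189696) (nb (nat_lit 0x4000000000000000400000000000000040000000000000004)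 (nat_lit 96064) (nb (nat_lit 0x3000000000000000400000000000000000000000000000003) (nat_lit 2432) (nat_lit 0)))), (nb (nat_lit 1) (nat_lit 190976) (nb (nat_lit 0x2000000000000000000000000000000040000000000000002) (nat_lit 188480) (nb (nat_lit 0x1000000000000000100000000000000010000000000000001) (nat_lit 97280) (nb (nat_lit 0x4000000000000000400000000000000040000000000000004) (nat_lit 94848) (nb (nat_lit 0x1000000000000000100000000000000000000000000000001) (nat_lit 3648) (nb (nat_lit 0x2000000000000000400000000000000000000000000000002) (nat_lit 1216) (nat_lit 0)))))))⟩, ⟨(nat_lit 20), (nat_lit 26), (nb (nat_lit 0x100000000000000000000000000000003) (nat_lit 188544) (nb (nat_lit 1) (nat_lit 97280) (nb (nat_lit 0x1000000000000000300000000000000030000000000000005) (nat_lit 94848) (nb (nat_lit 1) (nat_lit 3648) (nb (nat_lit 0x300000000000000000000000000000005) (nat_lit 1216) (nat_lit 0)))))), (nb (nat_lit 1) (nat_lit 189760) (nb (nat_lit 0x200000000000000000000000000000002)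 (nat_lit 187328) (nb (nat_lit 0x100000000000000010000000000000004) (nat_lit 96064) (nb (nat_lit 0x2000000000000000200000000000000020000000000000002) (nat_lit 93632) (nb (nat_lit 0x100000000000000000000000000000004) (nat_lit 2432) (nat_lit 0x200000000000000000000000000000002))))))⟩]⟩
def e335 : En := ⟨(nat_lit 62), (nat_lit 65809), (nat_lit 273), (nat_lit 10584), [⟨(nat_lit 0), (nat_lit 40), (nb (nat_lit 1) (nat_lit 189696) (nb (nat_lit 0x100000000000000000000000000000001) (nat_lit 188544) (nb (nat_lit 0x1000000000000000100000000000000010000000000000001) (nat_lit 94848) (nb (nat_lit 0x100000000000000000000000000000003) (nat_lit 1216) (nat_lit 0))))), (nb (nat_lit 2) (nat_lit 188480) (nb (nat_lit 0x200000000000000000000000000000002) (nat_lit 187328) (nb (nat_lit 0x2000000000000000200000000000000020000000000000002) (nat_lit 93632) (nb (nat_lit 1) (nat_lit 2432) (nat_lit 0x200000000000000000000000000000002)))))⟩, ⟨(nat_lit 4), (nat_lit 42), (nb (nat_lit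 1) (nat_lit 189760) (nb (nat_lit 0x200000000000000000000000000000002) (nat_lit 187328) (nb (nat_lit 0x1000000000000000100000000000000010000000000000001) (nat_lit 96064) (nb (nat_lit 0x2000000000000000200000000000000020000000000000002) (nat_lit 93632) (nb (nat_lit 0x1000000000000000100000000000000000000000000000001) (nat_lit 2432) (nat_lit 0x200000000000000000000000000000002)))))), (nb (nat_lit 0x100000000000000000000000000000003) (nat_lit 188544) (nb (nat_lit 0x3000000000000000300000000000000030000000000000003) (nat_lit 94848) (nb (nat_lit 0x2000000000000000300000000000000000000000000000003) (nat_lit 1216) (nat_lit 0))))⟩, ⟨(nat_lit 6), (nat_lit 52), (nb (nat_lit 1) (nat_lit 97280) (nb (nat_lit 1) (nat_lit 96256) (nb (nat_lit 2) (nat_lit 94848) (nb (nat_lit 1) (nat_lit 3648) (nb (nat_lit 1) (nat_lit 2624) (nb (nat_lit 2) (nat_lit 1216) (nat_lit 0))))))), (nb (nat_lit 3) (nat_lit 96064) (nb (nat_lit 2) (nat_lit 95040) (nb (nat_lit 3) (nat_lit 2432)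 (nb (nat_lit 2) (nat_lit 1408) (nat_lit 0)))))⟩, ⟨(nat_lit 8), (nat_lit 58), (nb (nat_lit 1) (nat_lit 190912) (nb (nat_lit 1) (nat_lit 189888) (nb (nat_lit 2) (nat_lit 188480) (nb (nat_lit 1) (nat_lit 97280) (nb (nat_lit 1) (nat_lit 96256) (nb (nat_lit 2) (nat_lit 94848) (nat_lit 0))))))), (nb (nat_lit 3) (nat_lit 189696) (nb (nat_lit 2) (nat_lit 188672) (nb (nat_lit 3) (nat_lit 96064) (nb (nat_lit 2) (nat_lit 95040) (nat_lit 0)))))⟩, ⟨(nat_lit 10), (nat_lit 12), (nb (nat_lit 1) (nat_lit 190912) (nb (nat_lit 0x100000000000000000000000000000001) (nat_lit 189760) (nb (nat_lit 1) (nat_lit 97344) (nb (nat_lit 1) (nat_lit 96192) (nb (nat_lit 2) (nat_lit 94912) (nb (nat_lit 0x1000000000000000100000000000000000000000000000001) (nat_lit 3648) (nb (nat_lit 0x200000000000000000000000000000002) (nat_lit 1216) (nat_lit 0)))))))), (nb (nat_lit 2) (nat_lit 189696) (nb (nat_lit 0x200000000000000000000000000000002) (nat_lit 188544) (nb (nat_lit 3) (nat_lit 96128)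 (nb (nat_lit 2) (nat_lit 94976) (nb (nat_lit 0x2000000000000000300000000000000000000000000000003) (nat_lit 2432) (nat_lit 0))))))⟩, ⟨(nat_lit 16), (nat_lit 20), (nb (nat_lit 0x1000000000000000000000000000000040000000000000001) (nat_lit 189696) (nb (nat_lit 0x4000000000000000400000000000000040000000000000004) (nat_lit 96064) (nb (nat_lit 0x3000000000000000400000000000000000000000000000003) (nat_lit 2432) (nat_lit 0)))), (nb (nat_lit 1) (nat_lit 190976) (nb (nat_lit 0x2000000000000000000000000000000040000000000000002) (nat_lit 188480) (nb (nat_lit 0x1000000000000000100000000000000010000000000000001) (nat_lit 97280) (nb (nat_lit 0x4000000000000000400000000000000040000000000000004) (nat_lit 94848) (nb (nat_lit 0x1000000000000000100000000000000000000000000000001) (nat_lit 3648) (nb (nat_lit 0x2000000000000000400000000000000000000000000000002) (nat_lit 1216) (nat_lit 0)))))))⟩, ⟨(nat_lit 22), (nat_lit 28), (nb (nat_lit 0x100000000000000000000000000000003)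 (nat_lit 188544) (nb (nat_lit 1) (nat_lit 97280) (nb (nat_lit 0x1000000000000000300000000000000030000000000000005) (nat_lit 94848) (nb (nat_lit 1) (nat_lit 3648) (nb (nat_lit 0x300000000000000000000000000000005) (nat_lit 1216) (nat_lit 0)))))), (nb (nat_lit 1) (nat_lit 189760) (nb (nat_lit 0x200000000000000000000000000000002) (nat_lit 187328) (nb (nat_lit 0x100000000000000010000000000000004) (nat_lit 96064) (nb (nat_lit 0x2000000000000000200000000000000020000000000000002) (nat_lit 93632) (nb (nat_lit 0x100000000000000000000000000000004) (nat_lit 2432) (nat_lit 0x200000000000000000000000000000002))))))⟩]⟩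
def e336 : En := ⟨(nat_lit 64), (nat_lit 69649), (nat_lit 273), (nat_lit 10584), [⟨(nat_lit 0), (nat_lit 50), (nb (nat_lit 1) (nat_lit 190912) (nb (nat_lit 1) (nat_lit 189888) (nb (nat_lit 2) (nat_lit 188480) (nb (nat_lit 1) (nat_lit 97280) (nb (nat_lit 1) (nat_lit 96256) (nb (nat_lit 2) (nat_lit 94848) (nat_lit 0))))))), (nb (nat_lit 3) (nat_lit 189696) (nb (nat_lit 2) (nat_lit 188672) (nb (nat_lit 3) (nat_lit 96064) (nb (nat_lit 2) (nat_lit 95040) (nat_lit 0)))))⟩, ⟨(nat_lit 2), (nat_lit 42), (nb (nat_lit 1) (nat_lit 189696) (nb (nat_lit 0x100000000000000000000000000000001) (nat_lit 188544) (nb (nat_lit 0x1000000000000000100000000000000010000000000000001) (nat_lit 94848) (nb (nat_lit 0x100000000000000000000000000000003) (nat_lit 1216) (nat_lit 0))))), (nb (nat_lit 2) (nat_lit 188480) (nb (nat_lit 0x200000000000000000000000000000002) (nat_lit 187328) (nb (nat_lit 0x2000000000000000200000000000000020000000000000002) (nat_lit 93632) (nb (nat_lit 1)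 (nat_lit 2432) (nat_lit 0x200000000000000000000000000000002)))))⟩, ⟨(nat_lit 6), (nat_lit 44), (nb (nat_lit 1) (nat_lit 189760) (nb (nat_lit 0x200000000000000000000000000000002) (nat_lit 187328) (nb (nat_lit 0x1000000000000000100000000000000010000000000000001) (nat_lit 96064) (nb (nat_lit 0x2000000000000000200000000000000020000000000000002) (nat_lit 93632) (nb (nat_lit 0x1000000000000000100000000000000000000000000000001) (nat_lit 2432) (nat_lit 0x200000000000000000000000000000002)))))), (nb (nat_lit 0x100000000000000000000000000000003) (nat_lit 188544) (nb (nat_lit 0x3000000000000000300000000000000030000000000000003) (nat_lit 94848) (nb (nat_lit 0x2000000000000000300000000000000000000000000000003) (nat_lit 1216) (nat_lit 0))))⟩, ⟨(nat_lit 8), (nat_lit 54), (nb (nat_lit 1) (nat_lit 97280) (nb (nat_lit 1) (nat_lit 96256) (nb (nat_lit 2) (nat_lit 94848) (nb (nat_lit 1) (nat_lit 3648) (nb (nat_lit 1) (nat_lit 2624) (nb (nat_lit 2) (nat_lit 1216) (nat_lit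 0))))))), (nb (nat_lit 3) (nat_lit 96064) (nb (nat_lit 2) (nat_lit 95040) (nb (nat_lit 3) (nat_lit 2432) (nb (nat_lit 2) (nat_lit 1408) (nat_lit 0)))))⟩, ⟨(nat_lit 12), (nat_lit 14), (nb (nat_lit 1) (nat_lit 190912) (nb (nat_lit 0x100000000000000000000000000000001) (nat_lit 189760) (nb (nat_lit 1) (nat_lit 97344) (nb (nat_lit 1) (nat_lit 96192) (nb (nat_lit 2) (nat_lit 94912) (nb (nat_lit 0x1000000000000000100000000000000000000000000000001) (nat_lit 3648) (nb (nat_lit 0x200000000000000000000000000000002) (nat_lit 1216) (nat_lit 0)))))))), (nb (nat_lit 2) (nat_lit 189696) (nb (nat_lit 0x200000000000000000000000000000002) (nat_lit 188544) (nb (nat_lit 3) (nat_lit 96128) (nb (nat_lit 2) (nat_lit 94976) (nb (nat_lit 0x2000000000000000300000000000000000000000000000003) (nat_lit 2432) (nat_lit 0))))))⟩, ⟨(nat_lit 18), (nat_lit 22), (nb (nat_lit 0x1000000000000000000000000000000040000000000000001) (nat_lit 189696) (nb (nat_lit 0x4000000000000000400000000000000040000000000000004)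 (nat_lit 96064) (nb (nat_lit 0x3000000000000000400000000000000000000000000000003) (nat_lit 2432) (nat_lit 0)))), (nb (nat_lit 1) (nat_lit 190976) (nb (nat_lit 0x2000000000000000000000000000000040000000000000002) (nat_lit 188480) (nb (nat_lit 0x1000000000000000100000000000000010000000000000001) (nat_lit 97280) (nb (nat_lit 0x4000000000000000400000000000000040000000000000004) (nat_lit 94848) (nb (nat_lit 0x1000000000000000100000000000000000000000000000001) (nat_lit 3648) (nb (nat_lit 0x2000000000000000400000000000000000000000000000002) (nat_lit 1216) (nat_lit 0)))))))⟩, ⟨(nat_lit 20), (nat_lit 24), (nb (nat_lit 1) (nat_lit 189760) (nb (nat_lit 0x200000000000000000000000000000002) (nat_lit 187328) (nb (nat_lit 0x100000000000000010000000000000004) (nat_lit 96064) (nb (nat_lit 0x2000000000000000200000000000000020000000000000002) (nat_lit 93632) (nb (nat_lit 0x100000000000000000000000000000004) (nat_lit 2432) (nat_lit 0x200000000000000000000000000000002)))))),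 (nb (nat_lit 0x100000000000000000000000000000003) (nat_lit 188544) (nb (nat_lit 1) (nat_lit 97280) (nb (nat_lit 0x1000000000000000300000000000000030000000000000005) (nat_lit 94848) (nb (nat_lit 1) (nat_lit 3648) (nb (nat_lit 0x300000000000000000000000000000005) (nat_lit 1216) (nat_lit 0))))))⟩]⟩
def e337 : En := ⟨(nat_lit 66), (nat_lit 69889), (nat_lit 273), (nat_lit 10584), [⟨(nat_lit 0), (nat_lit 56), (nb (nat_lit 1) (nat_lit 97280) (nb (nat_lit 1) (nat_lit 96256) (nb (nat_lit 2) (nat_lit 94848) (nb (nat_lit 1) (nat_lit 3648) (nb (nat_lit 1) (nat_lit 2624) (nb (nat_lit 2) (nat_lit 1216) (nat_lit 0))))))), (nb (nat_lit 3) (nat_lit 96064) (nb (nat_lit 2) (nat_lit 95040) (nb (nat_lit 3) (nat_lit 2432) (nb (nat_lit 2) (nat_lit 1408) (nat_lit 0)))))⟩, ⟨(nat_lit 2), (nat_lit 52), (nb (nat_lit 1) (nat_lit 190912) (nb (nat_lit 1) (nat_lit 189888) (nb (nat_lit 2) (nat_lit 188480) (nb (nat_lit 1) (nat_lit 97280) (nb (nat_lit 1) (nat_lit 96256) (nb (nat_lit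 2) (nat_lit 94848) (nat_lit 0))))))), (nb (nat_lit 3) (nat_lit 189696) (nb (nat_lit 2) (nat_lit 188672) (nb (nat_lit 3) (nat_lit 96064) (nb (nat_lit 2) (nat_lit 95040) (nat_lit 0)))))⟩, ⟨(nat_lit 4), (nat_lit 44), (nb (nat_lit 1) (nat_lit 189696) (nb (nat_lit 0x100000000000000000000000000000001) (nat_lit 188544) (nb (nat_lit 0x1000000000000000100000000000000010000000000000001) (nat_lit 94848) (nb (nat_lit 0x100000000000000000000000000000003) (nat_lit 1216) (nat_lit 0))))), (nb (nat_lit 2) (nat_lit 188480) (nb (nat_lit 0x200000000000000000000000000000002) (nat_lit 187328) (nb (nat_lit 0x2000000000000000200000000000000020000000000000002) (nat_lit 93632) (nb (nat_lit 1) (nat_lit 2432) (nat_lit 0x200000000000000000000000000000002)))))⟩, ⟨(nat_lit 8), (nat_lit 46), (nb (nat_lit 1) (nat_lit 189760) (nb (nat_lit 0x200000000000000000000000000000002) (nat_lit 187328) (nb (nat_lit 0x1000000000000000100000000000000010000000000000001) (nat_lit 96064) (nb (nat_lit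 0x2000000000000000200000000000000020000000000000002) (nat_lit 93632) (nb (nat_lit 0x1000000000000000100000000000000000000000000000001) (nat_lit 2432) (nat_lit 0x200000000000000000000000000000002)))))), (nb (nat_lit 0x100000000000000000000000000000003) (nat_lit 188544) (nb (nat_lit 0x3000000000000000300000000000000030000000000000003) (nat_lit 94848) (nb (nat_lit 0x2000000000000000300000000000000000000000000000003) (nat_lit 1216) (nat_lit 0))))⟩, ⟨(nat_lit 10), (nat_lit 24), (nb (nat_lit 0x1000000000000000000000000000000040000000000000001) (nat_lit 189696) (nb (nat_lit 0x4000000000000000400000000000000040000000000000004) (nat_lit 96064) (nb (nat_lit 0x3000000000000000400000000000000000000000000000003) (nat_lit 2432) (nat_lit 0)))), (nb (nat_lit 1) (nat_lit 190976) (nb (nat_lit 0x2000000000000000000000000000000040000000000000002) (nat_lit 188480) (nb (nat_lit 0x1000000000000000100000000000000010000000000000001) (nat_lit 97280) (nb (nat_lit 0x4000000000000000400000000000000040000000000000004)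 (nat_lit 94848) (nb (nat_lit 0x1000000000000000100000000000000000000000000000001) (nat_lit 3648) (nb (nat_lit 0x2000000000000000400000000000000000000000000000002) (nat_lit 1216) (nat_lit 0)))))))⟩, ⟨(nat_lit 14), (nat_lit 16), (nb (nat_lit 1) (nat_lit 190912) (nb (nat_lit 0x100000000000000000000000000000001) (nat_lit 189760) (nb (nat_lit 1) (nat_lit 97344) (nb (nat_lit 1) (nat_lit 96192) (nb (nat_lit 2) (nat_lit 94912) (nb (nat_lit 0x1000000000000000100000000000000000000000000000001) (nat_lit 3648) (nb (nat_lit 0x200000000000000000000000000000002) (nat_lit 1216) (nat_lit 0)))))))), (nb (nat_lit 2) (nat_lit 189696) (nb (nat_lit 0x200000000000000000000000000000002) (nat_lit 188544) (nb (nat_lit 3) (nat_lit 96128) (nb (nat_lit 2) (nat_lit 94976) (nb (nat_lit 0x2000000000000000300000000000000000000000000000003) (nat_lit 2432) (nat_lit 0))))))⟩, ⟨(nat_lit 22), (nat_lit 26), (nb (nat_lit 1) (nat_lit 189760) (nb (nat_lit 0x200000000000000000000000000000002)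 (nat_lit 187328) (nb (nat_lit 0x100000000000000010000000000000004) (nat_lit 96064) (nb (nat_lit 0x2000000000000000200000000000000020000000000000002) (nat_lit 93632) (nb (nat_lit 0x100000000000000000000000000000004) (nat_lit 2432) (nat_lit 0x200000000000000000000000000000002)))))), (nb (nat_lit 0x100000000000000000000000000000003) (nat_lit 188544) (nb (nat_lit 1) (nat_lit 97280) (nb (nat_lit 0x1000000000000000300000000000000030000000000000005) (nat_lit 94848) (nb (nat_lit 1) (nat_lit 3648) (nb (nat_lit 0x300000000000000000000000000000005) (nat_lit 1216) (nat_lit 0))))))⟩]⟩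
def e338 : En := ⟨(nat_lit 68), (nat_lit 69904), (nat_lit 273), (nat_lit 10584), [⟨(nat_lit 0), (nat_lit 48), (nb (nat_lit 1) (nat_lit 189760) (nb (nat_lit 0x200000000000000000000000000000002) (nat_lit 187328) (nb (nat_lit 0x1000000000000000100000000000000010000000000000001) (nat_lit 96064) (nb (nat_lit 0x2000000000000000200000000000000020000000000000002) (nat_lit 93632) (nb (nat_lit 0x1000000000000000100000000000000000000000000000001) (nat_lit 2432) (nat_lit 0x200000000000000000000000000000002)))))), (nb (nat_lit 0x100000000000000000000000000000003) (nat_lit 188544) (nb (nat_lit 0x3000000000000000300000000000000030000000000000003) (nat_lit 94848) (nb (nat_lit 0x2000000000000000300000000000000000000000000000003) (nat_lit 1216) (nat_lit 0))))⟩, ⟨(nat_lit 2), (nat_lit 58), (nb (nat_lit 1) (nat_lit 97280) (nb (nat_lit 1) (nat_lit 96256) (nb (nat_lit 2) (nat_lit 94848) (nb (nat_lit 1) (nat_lit 3648) (nb (nat_lit 1) (nat_lit 2624) (nb (nat_lit 2) (nat_lit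 1216) (nat_lit 0))))))), (nb (nat_lit 3) (nat_lit 96064) (nb (nat_lit 2) (nat_lit 95040) (nb (nat_lit 3) (nat_lit 2432) (nb (nat_lit 2) (nat_lit 1408) (nat_lit 0)))))⟩, ⟨(nat_lit 4), (nat_lit 54), (nb (nat_lit 1) (nat_lit 190912) (nb (nat_lit 1) (nat_lit 189888) (nb (nat_lit 2) (nat_lit 188480) (nb (nat_lit 1) (nat_lit 97280) (nb (nat_lit 1) (nat_lit 96256) (nb (nat_lit 2) (nat_lit 94848) (nat_lit 0))))))), (nb (nat_lit 3) (nat_lit 189696) (nb (nat_lit 2) (nat_lit 188672) (nb (nat_lit 3) (nat_lit 96064) (nb (nat_lit 2) (nat_lit 95040) (nat_lit 0)))))⟩, ⟨(nat_lit 6), (nat_lit 46), (nb (nat_lit 1) (nat_lit 189696) (nb (nat_lit 0x100000000000000000000000000000001) (nat_lit 188544) (nb (nat_lit 0x1000000000000000100000000000000010000000000000001) (nat_lit 94848) (nb (nat_lit 0x100000000000000000000000000000003) (nat_lit 1216) (nat_lit 0))))), (nb (nat_lit 2) (nat_lit 188480) (nb (nat_lit 0x200000000000000000000000000000002) (nat_lit 187328) (nb (nat_lit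 0x2000000000000000200000000000000020000000000000002) (nat_lit 93632) (nb (nat_lit 1) (nat_lit 2432) (nat_lit 0x200000000000000000000000000000002)))))⟩, ⟨(nat_lit 12), (nat_lit 26), (nb (nat_lit 0x1000000000000000000000000000000040000000000000001) (nat_lit 189696) (nb (nat_lit 0x4000000000000000400000000000000040000000000000004) (nat_lit 96064) (nb (nat_lit 0x3000000000000000400000000000000000000000000000003) (nat_lit 2432) (nat_lit 0)))), (nb (nat_lit 1) (nat_lit 190976) (nb (nat_lit 0x2000000000000000000000000000000040000000000000002) (nat_lit 188480) (nb (nat_lit 0x1000000000000000100000000000000010000000000000001) (nat_lit 97280) (nb (nat_lit 0x4000000000000000400000000000000040000000000000004) (nat_lit 94848) (nb (nat_lit 0x1000000000000000100000000000000000000000000000001) (nat_lit 3648) (nb (nat_lit 0x2000000000000000400000000000000000000000000000002) (nat_lit 1216) (nat_lit 0)))))))⟩, ⟨(nat_lit 16), (nat_lit 18), (nb (nat_lit 1) (nat_lit 190912)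 (nb (nat_lit 0x100000000000000000000000000000001) (nat_lit 189760) (nb (nat_lit 1) (nat_lit 97344) (nb (nat_lit 1) (nat_lit 96192) (nb (nat_lit 2) (nat_lit 94912) (nb (nat_lit 0x1000000000000000100000000000000000000000000000001) (nat_lit 3648) (nb (nat_lit 0x200000000000000000000000000000002) (nat_lit 1216) (nat_lit 0)))))))), (nb (nat_lit 2) (nat_lit 189696) (nb (nat_lit 0x200000000000000000000000000000002) (nat_lit 188544) (nb (nat_lit 3) (nat_lit 96128) (nb (nat_lit 2) (nat_lit 94976) (nb (nat_lit 0x2000000000000000300000000000000000000000000000003) (nat_lit 2432) (nat_lit 0))))))⟩, ⟨(nat_lit 24), (nat_lit 28), (nb (nat_lit 1) (nat_lit 189760) (nb (nat_lit 0x200000000000000000000000000000002) (nat_lit 187328) (nb (nat_lit 0x100000000000000010000000000000004) (nat_lit 96064) (nb (nat_lit 0x2000000000000000200000000000000020000000000000002) (nat_lit 93632) (nb (nat_lit 0x100000000000000000000000000000004) (nat_lit 2432) (nat_lit 0x200000000000000000000000000000002)))))),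 (nb (nat_lit 0x100000000000000000000000000000003) (nat_lit 188544) (nb (nat_lit 1) (nat_lit 97280) (nb (nat_lit 0x1000000000000000300000000000000030000000000000005) (nat_lit 94848) (nb (nat_lit 1) (nat_lit 3648) (nb (nat_lit 0x300000000000000000000000000000005) (nat_lit 1216) (nat_lit 0))))))⟩]⟩
def e339 : En := ⟨(nat_lit 40), (nat_lit 273), (nat_lit 24), (nat_lit 504), [⟨(nat_lit 4), (nat_lit 20), (nb (nat_lit 1) (nat_lit 94848) (nb (nat_lit 1) (nat_lit 93824) (nb (nat_lit 1) (nat_lit 1216) (nb (nat_lit 1) (nat_lit 192) (nat_lit 0))))), (nb (nat_lit 1) (nat_lit 93632) (nat_lit 1))⟩, ⟨(nat_lit 6), (nat_lit 10), (nb (nat_lit 1) (nat_lit 96064) (nb (nat_lit 1) (nat_lit 95040) (nb (nat_lit 1) (nat_lit 2432) (nb (nat_lit 1) (nat_lit 1408) (nat_lit 0))))), (nb (nat_lit 1) (nat_lit 94848) (nb (nat_lit 1) (nat_lit 1216) (nat_lit 0)))⟩, ⟨(nat_lit 8), (nat_lit 28), (nb (nat_lit 1) (nat_lit 96064) (nb (nat_lit 1) (nat_lit 95040) (nb (nat_lit 1) (nat_lit 93632)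 (nb (nat_lit 1) (nat_lit 2432) (nb (nat_lit 1) (nat_lit 1408) (nat_lit 1)))))), (nb (nat_lit 2) (nat_lit 94848) (nb (nat_lit 1) (nat_lit 93824) (nb (nat_lit 2) (nat_lit 1216) (nb (nat_lit 1) (nat_lit 192) (nat_lit 0)))))⟩]⟩
def e340 : En := ⟨(nat_lit 42), (nat_lit 65553), (nat_lit 24), (nat_lit 504), [⟨(nat_lit 0), (nat_lit 20), (nb (nat_lit 1) (nat_lit 96064) (nb (nat_lit 1) (nat_lit 95040) (nb (nat_lit 1) (nat_lit 93632) (nb (nat_lit 1) (nat_lit 2432) (nb (nat_lit 1) (nat_lit 1408) (nat_lit 1)))))), (nb (nat_lit 2) (nat_lit 94848) (nb (nat_lit 1) (nat_lit 93824) (nb (nat_lit 2) (nat_lit 1216) (nb (nat_lit 1) (nat_lit 192) (nat_lit 0)))))⟩, ⟨(nat_lit 6), (nat_lit 22), (nb (nat_lit 1) (nat_lit 94848) (nb (nat_lit 1) (nat_lit 93824) (nb (nat_lit 1) (nat_lit 1216) (nb (nat_lit 1) (nat_lit 192) (nat_lit 0))))), (nb (nat_lit 1) (nat_lit 93632) (nat_lit 1))⟩, ⟨(nat_lit 8), (nat_lit 12), (nb (nat_lit 1) (nat_lit 96064) (nb (nat_lit 1) (nat_lit 95040) (nb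 (nat_lit 1) (nat_lit 2432) (nb (nat_lit 1) (nat_lit 1408) (nat_lit 0))))), (nb (nat_lit 1) (nat_lit 94848) (nb (nat_lit 1) (nat_lit 1216) (nat_lit 0)))⟩]⟩
def e341 : En := ⟨(nat_lit 44), (nat_lit 69633), (nat_lit 24), (nat_lit 504), [⟨(nat_lit 0), (nat_lit 14), (nb (nat_lit 1) (nat_lit 96064) (nb (nat_lit 1) (nat_lit 95040) (nb (nat_lit 1) (nat_lit 2432) (nb (nat_lit 1) (nat_lit 1408) (nat_lit 0))))), (nb (nat_lit 1) (nat_lit 94848) (nb (nat_lit 1) (nat_lit 1216) (nat_lit 0)))⟩, ⟨(nat_lit 2), (nat_lit 22), (nb (nat_lit 1) (nat_lit 96064) (nb (nat_lit 1) (nat_lit 95040) (nb (nat_lit 1) (nat_lit 93632) (nb (nat_lit 1) (nat_lit 2432) (nb (nat_lit 1) (nat_lit 1408) (nat_lit 1)))))), (nb (nat_lit 2) (nat_lit 94848) (nb (nat_lit 1) (nat_lit 93824) (nb (nat_lit 2) (nat_lit 1216) (nb (nat_lit 1) (nat_lit 192) (nat_lit 0)))))⟩, ⟨(nat_lit 8), (nat_lit 24), (nb (nat_lit 1) (nat_lit 94848) (nb (nat_lit 1) (nat_lit 93824) (nb (nat_lit 1) (nat_lit 1216) (nb (nat_lit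 1) (nat_lit 192) (nat_lit 0))))), (nb (nat_lit 1) (nat_lit 93632) (nat_lit 1))⟩]⟩
def e342 : En := ⟨(nat_lit 46), (nat_lit 69888), (nat_lit 24), (nat_lit 504), [⟨(nat_lit 0), (nat_lit 26), (nb (nat_lit 1) (nat_lit 94848) (nb (nat_lit 1) (nat_lit 93824) (nb (nat_lit 1) (nat_lit 1216) (nb (nat_lit 1) (nat_lit 192) (nat_lit 0))))), (nb (nat_lit 1) (nat_lit 93632) (nat_lit 1))⟩, ⟨(nat_lit 2), (nat_lit 16), (nb (nat_lit 1) (nat_lit 96064) (nb (nat_lit 1) (nat_lit 95040) (nb (nat_lit 1) (nat_lit 2432) (nb (nat_lit 1) (nat_lit 1408) (nat_lit 0))))), (nb (nat_lit 1) (nat_lit 94848) (nb (nat_lit 1) (nat_lit 1216) (nat_lit 0)))⟩, ⟨(nat_lit 4), (nat_lit 24), (nb (nat_lit 1) (nat_lit 96064) (nb (nat_lit 1) (nat_lit 95040) (nb (nat_lit 1) (nat_lit 93632) (nb (nat_lit 1) (nat_lit 2432) (nb (nat_lit 1) (nat_lit 1408) (nat_lit 1)))))), (nb (nat_lit 2) (nat_lit 94848) (nb (nat_lit 1) (nat_lit 93824) (nb (nat_lit 2) (nat_lit 1216) (nb (nat_lit 1) (nat_lit 192) (nat_lit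 0)))))⟩]⟩
def e343 : En := ⟨(nat_lit 48), (nat_lit 4368), (nat_lit 24), (nat_lit 504), [⟨(nat_lit 2), (nat_lit 28), (nb (nat_lit 1) (nat_lit 94848) (nb (nat_lit 1) (nat_lit 93824) (nb (nat_lit 1) (nat_lit 1216) (nb (nat_lit 1) (nat_lit 192) (nat_lit 0))))), (nb (nat_lit 1) (nat_lit 93632) (nat_lit 1))⟩, ⟨(nat_lit 4), (nat_lit 18), (nb (nat_lit 1) (nat_lit 96064) (nb (nat_lit 1) (nat_lit 95040) (nb (nat_lit 1) (nat_lit 2432) (nb (nat_lit 1) (nat_lit 1408) (nat_lit 0))))), (nb (nat_lit 1) (nat_lit 94848) (nb (nat_lit 1) (nat_lit 1216) (nat_lit 0)))⟩, ⟨(nat_lit 6), (nat_lit 26), (nb (nat_lit 1) (nat_lit 96064) (nb (nat_lit 1) (nat_lit 95040) (nb (nat_lit 1) (nat_lit 93632) (nb (nat_lit 1) (nat_lit 2432) (nb (nat_lit 1) (nat_lit 1408) (nat_lit 1)))))), (nb (nat_lit 2) (nat_lit 94848) (nb (nat_lit 1) (nat_lit 93824) (nb (nat_lit 2) (nat_lit 1216) (nb (nat_lit 1) (nat_lit 192) (nat_lit 0)))))⟩]⟩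
def e344 : En := ⟨(nat_lit 50), (nat_lit 4113), (nat_lit 32), (nat_lit 168), [⟨(nat_lit 2), (nat_lit 20), (nb (nat_lit 1) (nat_lit 94848) (nb (nat_lit 1) (nat_lit 93824) (nb (nat_lit 1) (nat_lit 1216) (nb (nat_lit 1) (nat_lit 192) (nat_lit 0))))), (nb (nat_lit 1) (nat_lit 93632) (nat_lit 1))⟩, ⟨(nat_lit 6), (nat_lit 14), (nb (nat_lit 1) (nat_lit 94912) (nb (nat_lit 0x1000000000000000100000000000000000000000000000001) (nat_lit 1216) (nat_lit 0))), (nb (nat_lit 1) (nat_lit 94848) (nb (nat_lit 0x200000000000000000000000000000002) (nat_lit 93696) (nat_lit 0x1000000000000000200000000000000000000000000000001)))⟩, ⟨(nat_lit 8), (nat_lit 18), (nb (nat_lit 0x1000000000000000000000000000000020000000000000001) (nat_lit 93632) (nat_lit 0x200000000000000000000000000000002)), (nb (nat_lit 1) (nat_lit 94912) (nb (nat_lit 0x1000000000000000100000000000000000000000000000002) (nat_lit 1216) (nat_lit 0)))⟩]⟩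
def e345 : En := ⟨(nat_lit 52), (nat_lit 65793), (nat_lit 32), (nat_lit 168), [⟨(nat_lit 0), (nat_lit 10), (nb (nat_lit 0x1000000000000000000000000000000020000000000000001) (nat_lit 93632) (nat_lit 0x200000000000000000000000000000002)), (nb (nat_lit 1) (nat_lit 94912) (nb (nat_lit 0x1000000000000000100000000000000000000000000000002) (nat_lit 1216) (nat_lit 0)))⟩, ⟨(nat_lit 4), (nat_lit 22), (nb (nat_lit 1) (nat_lit 94848) (nb (nat_lit 1) (nat_lit 93824) (nb (nat_lit 1) (nat_lit 1216) (nb (nat_lit 1) (nat_lit 192) (nat_lit 0))))), (nb (nat_lit 1) (nat_lit 93632) (nat_lit 1))⟩, ⟨(nat_lit 8), (nat_lit 16), (nb (nat_lit 1) (nat_lit 94912) (nb (nat_lit 0x1000000000000000100000000000000000000000000000001) (nat_lit 1216) (nat_lit 0))), (nb (nat_lit 1) (nat_lit 94848) (nb (nat_lit 0x200000000000000000000000000000002) (nat_lit 93696) (nat_lit 0x1000000000000000200000000000000000000000000000001)))⟩]⟩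
def e346 : En := ⟨(nat_lit 54), (nat_lit 69648), (nat_lit 32), (nat_lit 168), [⟨(nat_lit 0), (nat_lit 18), (nb (nat_lit 1) (nat_lit 94912) (nb (nat_lit 0x1000000000000000100000000000000000000000000000001) (nat_lit 1216) (nat_lit 0))), (nb (nat_lit 1) (nat_lit 94848) (nb (nat_lit 0x200000000000000000000000000000002) (nat_lit 93696) (nat_lit 0x1000000000000000200000000000000000000000000000001)))⟩, ⟨(nat_lit 2), (nat_lit 12), (nb (nat_lit 0x1000000000000000000000000000000020000000000000001) (nat_lit 93632) (nat_lit 0x200000000000000000000000000000002)), (nb (nat_lit 1) (nat_lit 94912) (nb (nat_lit 0x1000000000000000100000000000000000000000000000002) (nat_lit 1216) (nat_lit 0)))⟩, ⟨(nat_lit 6), (nat_lit 24), (nb (nat_lit 1) (nat_lit 94848) (nb (nat_lit 1) (nat_lit 93824) (nb (nat_lit 1) (nat_lit 1216) (nb (nat_lit 1) (nat_lit 192) (nat_lit 0))))), (nb (nat_lit 1) (nat_lit 93632) (nat_lit 1))⟩]⟩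
def e347 : En := ⟨(nat_lit 56), (nat_lit 4353), (nat_lit 32), (nat_lit 168), [⟨(nat_lit 2), (nat_lit 10), (nb (nat_lit 1) (nat_lit 94912) (nb (nat_lit 0x1000000000000000100000000000000000000000000000001) (nat_lit 1216) (nat_lit 0))), (nb (nat_lit 1) (nat_lit 94848) (nb (nat_lit 0x200000000000000000000000000000002) (nat_lit 93696) (nat_lit 0x1000000000000000200000000000000000000000000000001)))⟩, ⟨(nat_lit 4), (nat_lit 14), (nb (nat_lit 0x1000000000000000000000000000000020000000000000001) (nat_lit 93632) (nat_lit 0x200000000000000000000000000000002)), (nb (nat_lit 1) (nat_lit 94912) (nb (nat_lit 0x1000000000000000100000000000000000000000000000002) (nat_lit 1216) (nat_lit 0)))⟩, ⟨(nat_lit 8), (nat_lit 26), (nb (nat_lit 1) (nat_lit 94848) (nb (nat_lit 1) (nat_lit 93824) (nb (nat_lit 1) (nat_lit 1216) (nb (nat_lit 1) (nat_lit 192) (nat_lit 0))))), (nb (nat_lit 1) (nat_lit 93632) (nat_lit 1))⟩]⟩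
def e348 : En := ⟨(nat_lit 58), (nat_lit 65808), (nat_lit 32), (nat_lit 168), [⟨(nat_lit 0), (nat_lit 28), (nb (nat_lit 1) (nat_lit 94848) (nb (nat_lit 1) (nat_lit 93824) (nb (nat_lit 1) (nat_lit 1216) (nb (nat_lit 1) (nat_lit 192) (nat_lit 0))))), (nb (nat_lit 1) (nat_lit 93632) (nat_lit 1))⟩, ⟨(nat_lit 4), (nat_lit 12), (nb (nat_lit 1) (nat_lit 94912) (nb (nat_lit 0x1000000000000000100000000000000000000000000000001) (nat_lit 1216) (nat_lit 0))), (nb (nat_lit 1) (nat_lit 94848) (nb (nat_lit 0x200000000000000000000000000000002) (nat_lit 93696) (nat_lit 0x1000000000000000200000000000000000000000000000001)))⟩, ⟨(nat_lit 6), (nat_lit 16), (nb (nat_lit 0x1000000000000000000000000000000020000000000000001) (nat_lit 93632) (nat_lit 0x200000000000000000000000000000002)), (nb (nat_lit 1) (nat_lit 94912) (nb (nat_lit 0x1000000000000000100000000000000000000000000000002) (nat_lit 1216) (nat_lit 0)))⟩]⟩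
def e349 : En := ⟨(nat_lit 10), (nat_lit 257), (nat_lit 6), (nat_lit 168), [⟨(nat_lit 4), (nat_lit 8), (nb (nat_lit 1) (nat_lit 94848) (nb (nat_lit 1) (nat_lit 93824) (nb (nat_lit 1) (nat_lit 1216) (nb (nat_lit 1) (nat_lit 192) (nat_lit 0))))), (nb (nat_lit 1) (nat_lit 93632) (nat_lit 1))⟩]⟩
def e350 : En := ⟨(nat_lit 12), (nat_lit 65552), (nat_lit 6), (nat_lit 168), [⟨(nat_lit 0), (nat_lit 6), (nb (nat_lit 1) (nat_lit 93632) (nat_lit 1)), (nb (nat_lit 1) (nat_lit 94848) (nb (nat_lit 1) (nat_lit 93824) (nb (nat_lit 1) (nat_lit 1216) (nb (nat_lit 1) (nat_lit 192) (nat_lit 0)))))⟩]⟩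
def e351 : En := ⟨(nat_lit 14), (nat_lit 4097), (nat_lit 6), (nat_lit 168), [⟨(nat_lit 2), (nat_lit 8), (nb (nat_lit 1) (nat_lit 93632) (nat_lit 1)), (nb (nat_lit 1) (nat_lit 94848) (nb (nat_lit 1) (nat_lit 93824) (nb (nat_lit 1) (nat_lit 1216) (nb (nat_lit 1) (nat_lit 192) (nat_lit 0)))))⟩]⟩
def e352 : En := ⟨(nat_lit 16), (nat_lit 65792), (nat_lit 6), (nat_lit 168), [⟨(nat_lit 0), (nat_lit 4), (nb (nat_lit 1) (nat_lit 94848) (nb (nat_lit 1) (nat_lit 93824) (nb (nat_lit 1) (nat_lit 1216) (nb (nat_lit 1) (nat_lit 192) (nat_lit 0))))), (nb (nat_lit 1) (nat_lit 93632) (nat_lit 1))⟩]⟩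
def e353 : En := ⟨(nat_lit 18), (nat_lit 4112), (nat_lit 6), (nat_lit 168), [⟨(nat_lit 2), (nat_lit 6), (nb (nat_lit 1) (nat_lit 94848) (nb (nat_lit 1) (nat_lit 93824) (nb (nat_lit 1) (nat_lit 1216) (nb (nat_lit 1) (nat_lit 192) (nat_lit 0))))), (nb (nat_lit 1) (nat_lit 93632) (nat_lit 1))⟩]⟩
def e354 : En := ⟨(nat_lit 20), (nat_lit 17), (nat_lit 6), (nat_lit 168), [⟨(nat_lit 6), (nat_lit 8), (nb (nat_lit 1) (nat_lit 94848) (nb (nat_lit 1) (nat_lit 93824) (nb (nat_lit 1) (nat_lit 1216) (nb (nat_lit 1) (nat_lit 192) (nat_lit 0))))), (nb (nat_lit 1) (nat_lit 93632) (nat_lit 1))⟩]⟩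
def e355 : En := ⟨(nat_lit 22), (nat_lit 65537), (nat_lit 6), (nat_lit 168), [⟨(nat_lit 0), (nat_lit 8), (nb (nat_lit 1) (nat_lit 93632) (nat_lit 1)), (nb (nat_lit 1) (nat_lit 94848) (nb (nat_lit 1) (nat_lit 93824) (nb (nat_lit 1) (nat_lit 1216) (nb (nat_lit 1) (nat_lit 192) (nat_lit 0)))))⟩]⟩
def e356 : En := ⟨(nat_lit 24), (nat_lit 69632), (nat_lit 6), (nat_lit 168), [⟨(nat_lit 0), (nat_lit 2), (nb (nat_lit 1) (nat_lit 94848) (nb (nat_lit 1) (nat_lit 93824) (nb (nat_lit 1) (nat_lit 1216) (nb (nat_lit 1) (nat_lit 192) (nat_lit 0))))), (nb (nat_lit 1) (nat_lit 93632) (nat_lit 1))⟩]⟩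
def e357 : En := ⟨(nat_lit 26), (nat_lit 4352), (nat_lit 6), (nat_lit 168), [⟨(nat_lit 2), (nat_lit 4), (nb (nat_lit 1) (nat_lit 94848) (nb (nat_lit 1) (nat_lit 93824) (nb (nat_lit 1) (nat_lit 1216) (nb (nat_lit 1) (nat_lit 192) (nat_lit 0))))), (nb (nat_lit 1) (nat_lit 93632) (nat_lit 1))⟩]⟩
def e358 : En := ⟨(nat_lit 28), (nat_lit 272), (nat_lit 6), (nat_lit 168), [⟨(nat_lit 4), (nat_lit 6), (nb (nat_lit 1) (nat_lit 94848) (nb (nat_lit 1) (nat_lit 93824) (nb (nat_lit 1) (nat_lit 1216) (nb (nat_lit 1) (nat_lit 192) (nat_lit 0))))), (nb (nat_lit 1) (nat_lit 93632) (nat_lit 1))⟩]⟩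
def e359 : En := ⟨(nat_lit 60), (nat_lit 4369), (nat_lit 179), (nat_lit 504), [⟨(nat_lit 2), (nat_lit 40), (nb (nat_lit 0x2000000000000000000000000000000010000000000000003) (nat_lit 94848) (nb (nat_lit 0x100000000000000000000000000000002) (nat_lit 93632) (nb (nat_lit 0x200000000000000000000000000000001) (nat_lit 1280) (nb (nat_lit 1) (nat_lit 128) (nat_lit 0))))), (nb (nat_lit 1) (nat_lit 94976) (nb (nat_lit 0x200000000000000000000000000000001) (nat_lit 93696) (nb (nat_lit 0x100000000000000000000000000000002) (nat_lit 1216) (nat_lit 0x2000000000000000000000000000000010000000000000003))))⟩, ⟨(nat_lit 4), (nat_lit 50), (nb (nat_lit 5) (nat_lit 2432) (nat_lit 0)), (nb (nat_lit 10) (nat_lit 1216) (nat_lit 0))⟩, ⟨(nat_lit 6), (nat_lit 56), (nb (nat_lit 5) (nat_lit 96064) (nat_lit 0)), (nb (nat_lit 10) (nat_lit 94848) (nat_lit 0))⟩, ⟨(nat_lit 8), (nat_lit 48), (nb (nat_lit 5) (nat_lit 94848) (nb (nat_lit 0x200000000000000000000000000000001) (nat_lit 93696)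 (nat_lit 0x2000000000000000000000000000000010000000000000003))), (nb (nat_lit 0x100000000000000000000000000000002) (nat_lit 93632) (nb (nat_lit 5) (nat_lit 1216) (nb (nat_lit 1) (nat_lit 128) (nat_lit 0))))⟩, ⟨(nat_lit 10), (nat_lit 18), (nb (nat_lit 0x100000000000000000000000000000002) (nat_lit 94848) (nb (nat_lit 0x100000000000000000000000000000002) (nat_lit 2432) (nb (nat_lit 0x2000000000000000000000000000000010000000000000003) (nat_lit 1216) (nat_lit 0)))), (nb (nat_lit 5) (nat_lit 96064) (nb (nat_lit 0x200000000000000000000000000000001) (nat_lit 94912) (nb (nat_lit 0x200000000000000000000000000000001) (nat_lit 2496) (nb (nat_lit 1) (nat_lit 1344) (nat_lit 0)))))⟩, ⟨(nat_lit 14), (nat_lit 28), (nb (nat_lit 1) (nat_lit 96192) (nb (nat_lit 0x4000000000000000000000000000000020000000000000006) (nat_lit 94848) (nb (nat_lit 0x100000000000000000000000000000002) (nat_lit 2432) (nb (nat_lit 0x400000000000000000000000000000002) (nat_lit 1280) (nat_lit 0))))),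 (nb (nat_lit 0x2000000000000000000000000000000010000000000000003) (nat_lit 96064) (nb (nat_lit 2) (nat_lit 94976) (nb (nat_lit 0x200000000000000000000000000000001) (nat_lit 2496) (nb (nat_lit 0x200000000000000000000000000000004) (nat_lit 1216) (nat_lit 0)))))⟩, ⟨(nat_lit 20), (nat_lit 26), (nb (nat_lit 1) (nat_lit 94976) (nb (nat_lit 0x200000000000000000000000000000001) (nat_lit 93696) (nb (nat_lit 5) (nat_lit 2432) (nb (nat_lit 1) (nat_lit 1344) (nat_lit 0x2000000000000000000000000000000010000000000000003))))), (nb (nat_lit 0x2000000000000000000000000000000010000000000000003) (nat_lit 94848) (nb (nat_lit 0x100000000000000000000000000000002) (nat_lit 93632) (nb (nat_lit 0x2000000000000000000000000000000010000000000000008) (nat_lit 1216) (nb (nat_lit 1) (nat_lit 128) (nat_lit 0)))))⟩]⟩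
def e360 : En := ⟨(nat_lit 62), (nat_lit 65809), (nat_lit 179), (nat_lit 504), [⟨(nat_lit 0), (nat_lit 40), (nb (nat_lit 5) (nat_lit 94848) (nb (nat_lit 0x200000000000000000000000000000001) (nat_lit 93696) (nat_lit 0x2000000000000000000000000000000010000000000000003))), (nb (nat_lit 0x100000000000000000000000000000002) (nat_lit 93632) (nb (nat_lit 5) (nat_lit 1216) (nb (nat_lit 1) (nat_lit 128) (nat_lit 0))))⟩, ⟨(nat_lit 4), (nat_lit 42), (nb (nat_lit 0x2000000000000000000000000000000010000000000000003) (nat_lit 94848) (nb (nat_lit 0x100000000000000000000000000000002) (nat_lit 93632) (nb (nat_lit 0x200000000000000000000000000000001) (nat_lit 1280) (nb (nat_lit 1) (nat_lit 128) (nat_lit 0))))), (nb (nat_lit 1) (nat_lit 94976) (nb (nat_lit 0x200000000000000000000000000000001) (nat_lit 93696) (nb (nat_lit 0x100000000000000000000000000000002) (nat_lit 1216) (nat_lit 0x2000000000000000000000000000000010000000000000003))))⟩, ⟨(nat_lit 6), (nat_lit 52),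 (nb (nat_lit 5) (nat_lit 2432) (nat_lit 0)), (nb (nat_lit 10) (nat_lit 1216) (nat_lit 0))⟩, ⟨(nat_lit 8), (nat_lit 58), (nb (nat_lit 5) (nat_lit 96064) (nat_lit 0)), (nb (nat_lit 10) (nat_lit 94848) (nat_lit 0))⟩, ⟨(nat_lit 10), (nat_lit 12), (nb (nat_lit 5) (nat_lit 96064) (nb (nat_lit 0x200000000000000000000000000000001) (nat_lit 94912) (nb (nat_lit 0x200000000000000000000000000000001) (nat_lit 2496) (nb (nat_lit 1) (nat_lit 1344) (nat_lit 0))))), (nb (nat_lit 0x100000000000000000000000000000002) (nat_lit 94848) (nb (nat_lit 0x100000000000000000000000000000002) (nat_lit 2432) (nb (nat_lit 0x2000000000000000000000000000000010000000000000003) (nat_lit 1216) (nat_lit 0))))⟩, ⟨(nat_lit 16), (nat_lit 20), (nb (nat_lit 1) (nat_lit 96192) (nb (nat_lit 0x4000000000000000000000000000000020000000000000006) (nat_lit 94848) (nb (nat_lit 0x100000000000000000000000000000002) (nat_lit 2432) (nb (nat_lit 0x400000000000000000000000000000002) (nat_lit 1280) (nat_lit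 0))))), (nb (nat_lit 0x2000000000000000000000000000000010000000000000003) (nat_lit 96064) (nb (nat_lit 2) (nat_lit 94976) (nb (nat_lit 0x200000000000000000000000000000001) (nat_lit 2496) (nb (nat_lit 0x200000000000000000000000000000004) (nat_lit 1216) (nat_lit 0)))))⟩, ⟨(nat_lit 22), (nat_lit 28), (nb (nat_lit 1) (nat_lit 94976) (nb (nat_lit 0x200000000000000000000000000000001) (nat_lit 93696) (nb (nat_lit 5) (nat_lit 2432) (nb (nat_lit 1) (nat_lit 1344) (nat_lit 0x2000000000000000000000000000000010000000000000003))))), (nb (nat_lit 0x2000000000000000000000000000000010000000000000003) (nat_lit 94848) (nb (nat_lit 0x100000000000000000000000000000002) (nat_lit 93632) (nb (nat_lit 0x2000000000000000000000000000000010000000000000008) (nat_lit 1216) (nb (nat_lit 1) (nat_lit 128) (nat_lit 0)))))⟩]⟩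
def e361 : En := ⟨(nat_lit 64), (nat_lit 69649), (nat_lit 179), (nat_lit 504), [⟨(nat_lit 0), (nat_lit 50), (nb (nat_lit 5) (nat_lit 96064) (nat_lit 0)), (nb (nat_lit 10) (nat_lit 94848) (nat_lit 0))⟩, ⟨(nat_lit 2), (nat_lit 42), (nb (nat_lit 5) (nat_lit 94848) (nb (nat_lit 0x200000000000000000000000000000001) (nat_lit 93696) (nat_lit 0x2000000000000000000000000000000010000000000000003))), (nb (nat_lit 0x100000000000000000000000000000002) (nat_lit 93632) (nb (nat_lit 5) (nat_lit 1216) (nb (nat_lit 1) (nat_lit 128) (nat_lit 0))))⟩, ⟨(nat_lit 6), (nat_lit 44), (nb (nat_lit 0x2000000000000000000000000000000010000000000000003) (nat_lit 94848) (nb (nat_lit 0x100000000000000000000000000000002) (nat_lit 93632) (nb (nat_lit 0x200000000000000000000000000000001) (nat_lit 1280) (nb (nat_lit 1) (nat_lit 128) (nat_lit 0))))), (nb (nat_lit 1) (nat_lit 94976) (nb (nat_lit 0x200000000000000000000000000000001) (nat_lit 93696) (nb (nat_lit 0x100000000000000000000000000000002)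 (nat_lit 1216) (nat_lit 0x2000000000000000000000000000000010000000000000003))))⟩, ⟨(nat_lit 8), (nat_lit 54), (nb (nat_lit 5) (nat_lit 2432) (nat_lit 0)), (nb (nat_lit 10) (nat_lit 1216) (nat_lit 0))⟩, ⟨(nat_lit 12), (nat_lit 14), (nb (nat_lit 5) (nat_lit 96064) (nb (nat_lit 0x200000000000000000000000000000001) (nat_lit 94912) (nb (nat_lit 0x200000000000000000000000000000001) (nat_lit 2496) (nb (nat_lit 1) (nat_lit 1344) (nat_lit 0))))), (nb (nat_lit 0x100000000000000000000000000000002) (nat_lit 94848) (nb (nat_lit 0x100000000000000000000000000000002) (nat_lit 2432) (nb (nat_lit 0x2000000000000000000000000000000010000000000000003) (nat_lit 1216) (nat_lit 0))))⟩, ⟨(nat_lit 18), (nat_lit 22), (nb (nat_lit 1) (nat_lit 96192) (nb (nat_lit 0x4000000000000000000000000000000020000000000000006) (nat_lit 94848) (nb (nat_lit 0x100000000000000000000000000000002) (nat_lit 2432) (nb (nat_lit 0x400000000000000000000000000000002) (nat_lit 1280) (nat_lit 0))))),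 (nb (nat_lit 0x2000000000000000000000000000000010000000000000003) (nat_lit 96064) (nb (nat_lit 2) (nat_lit 94976) (nb (nat_lit 0x200000000000000000000000000000001) (nat_lit 2496) (nb (nat_lit 0x200000000000000000000000000000004) (nat_lit 1216) (nat_lit 0)))))⟩, ⟨(nat_lit 20), (nat_lit 24), (nb (nat_lit 0x2000000000000000000000000000000010000000000000003) (nat_lit 94848) (nb (nat_lit 0x100000000000000000000000000000002) (nat_lit 93632) (nb (nat_lit 0x2000000000000000000000000000000010000000000000008) (nat_lit 1216) (nb (nat_lit 1) (nat_lit 128) (nat_lit 0))))), (nb (nat_lit 1) (nat_lit 94976) (nb (nat_lit 0x200000000000000000000000000000001) (nat_lit 93696) (nb (nat_lit 5) (nat_lit 2432) (nb (nat_lit 1) (nat_lit 1344) (nat_lit 0x2000000000000000000000000000000010000000000000003)))))⟩]⟩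
def e362 : En := ⟨(nat_lit 66), (nat_lit 69889), (nat_lit 179), (nat_lit 504), [⟨(nat_lit 0), (nat_lit 56), (nb (nat_lit 5) (nat_lit 2432) (nat_lit 0)), (nb (nat_lit 10) (nat_lit 1216) (nat_lit 0))⟩, ⟨(nat_lit 2), (nat_lit 52), (nb (nat_lit 5) (nat_lit 96064) (nat_lit 0)), (nb (nat_lit 10) (nat_lit 94848) (nat_lit 0))⟩, ⟨(nat_lit 4), (nat_lit 44), (nb (nat_lit 5) (nat_lit 94848) (nb (nat_lit 0x200000000000000000000000000000001) (nat_lit 93696) (nat_lit 0x2000000000000000000000000000000010000000000000003))), (nb (nat_lit 0x100000000000000000000000000000002) (nat_lit 93632) (nb (nat_lit 5) (nat_lit 1216) (nb (nat_lit 1) (nat_lit 128) (nat_lit 0))))⟩, ⟨(nat_lit 8), (nat_lit 46), (nb (nat_lit 0x2000000000000000000000000000000010000000000000003) (nat_lit 94848) (nb (nat_lit 0x100000000000000000000000000000002) (nat_lit 93632) (nb (nat_lit 0x200000000000000000000000000000001) (nat_lit 1280) (nb (nat_lit 1) (nat_lit 128) (nat_lit 0))))), (nb (nat_lit 1)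 (nat_lit 94976) (nb (nat_lit 0x200000000000000000000000000000001) (nat_lit 93696) (nb (nat_lit 0x100000000000000000000000000000002) (nat_lit 1216) (nat_lit 0x2000000000000000000000000000000010000000000000003))))⟩, ⟨(nat_lit 10), (nat_lit 24), (nb (nat_lit 1) (nat_lit 96192) (nb (nat_lit 0x4000000000000000000000000000000020000000000000006) (nat_lit 94848) (nb (nat_lit 0x100000000000000000000000000000002) (nat_lit 2432) (nb (nat_lit 0x400000000000000000000000000000002) (nat_lit 1280) (nat_lit 0))))), (nb (nat_lit 0x2000000000000000000000000000000010000000000000003) (nat_lit 96064) (nb (nat_lit 2) (nat_lit 94976) (nb (nat_lit 0x200000000000000000000000000000001) (nat_lit 2496) (nb (nat_lit 0x200000000000000000000000000000004) (nat_lit 1216) (nat_lit 0)))))⟩, ⟨(nat_lit 14), (nat_lit 16), (nb (nat_lit 5) (nat_lit 96064) (nb (nat_lit 0x200000000000000000000000000000001) (nat_lit 94912) (nb (nat_lit 0x200000000000000000000000000000001) (nat_lit 2496) (nb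 (nat_lit 1) (nat_lit 1344) (nat_lit 0))))), (nb (nat_lit 0x100000000000000000000000000000002) (nat_lit 94848) (nb (nat_lit 0x100000000000000000000000000000002) (nat_lit 2432) (nb (nat_lit 0x2000000000000000000000000000000010000000000000003) (nat_lit 1216) (nat_lit 0))))⟩, ⟨(nat_lit 22), (nat_lit 26), (nb (nat_lit 0x2000000000000000000000000000000010000000000000003) (nat_lit 94848) (nb (nat_lit 0x100000000000000000000000000000002) (nat_lit 93632) (nb (nat_lit 0x2000000000000000000000000000000010000000000000008) (nat_lit 1216) (nb (nat_lit 1) (nat_lit 128) (nat_lit 0))))), (nb (nat_lit 1) (nat_lit 94976) (nb (nat_lit 0x200000000000000000000000000000001) (nat_lit 93696) (nb (nat_lit 5) (nat_lit 2432) (nb (nat_lit 1) (nat_lit 1344) (nat_lit 0x2000000000000000000000000000000010000000000000003)))))⟩]⟩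
def e363 : En := ⟨(nat_lit 68), (nat_lit 69904), (nat_lit 179), (nat_lit 504), [⟨(nat_lit 0), (nat_lit 48), (nb (nat_lit 0x2000000000000000000000000000000010000000000000003) (nat_lit 94848) (nb (nat_lit 0x100000000000000000000000000000002) (nat_lit 93632) (nb (nat_lit 0x200000000000000000000000000000001) (nat_lit 1280) (nb (nat_lit 1) (nat_lit 128) (nat_lit 0))))), (nb (nat_lit 1) (nat_lit 94976) (nb (nat_lit 0x200000000000000000000000000000001) (nat_lit 93696) (nb (nat_lit 0x100000000000000000000000000000002) (nat_lit 1216) (nat_lit 0x2000000000000000000000000000000010000000000000003))))⟩, ⟨(nat_lit 2), (nat_lit 58), (nb (nat_lit 5) (nat_lit 2432) (nat_lit 0)), (nb (nat_lit 10) (nat_lit 1216) (nat_lit 0))⟩, ⟨(nat_lit 4), (nat_lit 54), (nb (nat_lit 5) (nat_lit 96064) (nat_lit 0)), (nb (nat_lit 10) (nat_lit 94848) (nat_lit 0))⟩, ⟨(nat_lit 6), (nat_lit 46), (nb (nat_lit 5) (nat_lit 94848) (nb (nat_lit 0x200000000000000000000000000000001) (nat_lit 93696)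 (nat_lit 0x2000000000000000000000000000000010000000000000003))), (nb (nat_lit 0x100000000000000000000000000000002) (nat_lit 93632) (nb (nat_lit 5) (nat_lit 1216) (nb (nat_lit 1) (nat_lit 128) (nat_lit 0))))⟩, ⟨(nat_lit 12), (nat_lit 26), (nb (nat_lit 1) (nat_lit 96192) (nb (nat_lit 0x4000000000000000000000000000000020000000000000006) (nat_lit 94848) (nb (nat_lit 0x100000000000000000000000000000002) (nat_lit 2432) (nb (nat_lit 0x400000000000000000000000000000002) (nat_lit 1280) (nat_lit 0))))), (nb (nat_lit 0x2000000000000000000000000000000010000000000000003) (nat_lit 96064) (nb (nat_lit 2) (nat_lit 94976) (nb (nat_lit 0x200000000000000000000000000000001) (nat_lit 2496) (nb (nat_lit 0x200000000000000000000000000000004) (nat_lit 1216) (nat_lit 0)))))⟩, ⟨(nat_lit 16), (nat_lit 18), (nb (nat_lit 5) (nat_lit 96064) (nb (nat_lit 0x200000000000000000000000000000001) (nat_lit 94912) (nb (nat_lit 0x200000000000000000000000000000001) (nat_lit 2496) (nb (nat_lit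 1) (nat_lit 1344) (nat_lit 0))))), (nb (nat_lit 0x100000000000000000000000000000002) (nat_lit 94848) (nb (nat_lit 0x100000000000000000000000000000002) (nat_lit 2432) (nb (nat_lit 0x2000000000000000000000000000000010000000000000003) (nat_lit 1216) (nat_lit 0))))⟩, ⟨(nat_lit 24), (nat_lit 28), (nb (nat_lit 0x2000000000000000000000000000000010000000000000003) (nat_lit 94848) (nb (nat_lit 0x100000000000000000000000000000002) (nat_lit 93632) (nb (nat_lit 0x2000000000000000000000000000000010000000000000008) (nat_lit 1216) (nb (nat_lit 1) (nat_lit 128) (nat_lit 0))))), (nb (nat_lit 1) (nat_lit 94976) (nb (nat_lit 0x200000000000000000000000000000001) (nat_lit 93696) (nb (nat_lit 5) (nat_lit 2432) (nb (nat_lit 1) (nat_lit 1344) (nat_lit 0x2000000000000000000000000000000010000000000000003)))))⟩]⟩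
def e364 : En := ⟨(nat_lit 40), (nat_lit 273), (nat_lit 20), (nat_lit 3), [⟨(nat_lit 4), (nat_lit 20), (nat_lit 5), (nat_lit 0)⟩, ⟨(nat_lit 6), (nat_lit 10), (nb (nat_lit 5) (nat_lit 1216) (nat_lit 0)), (nat_lit 0)⟩, ⟨(nat_lit 8), (nat_lit 28), (nb (nat_lit 5) (nat_lit 1216) (nat_lit 0)), (nat_lit 5)⟩]⟩
def e365 : En := ⟨(nat_lit 42), (nat_lit 65553), (nat_lit 20), (nat_lit 3), [⟨(nat_lit 0), (nat_lit 20), (nb (nat_lit 5) (nat_lit 1216) (nat_lit 0)), (nat_lit 5)⟩, ⟨(nat_lit 6), (nat_lit 22), (nat_lit 5), (nat_lit 0)⟩, ⟨(nat_lit 8), (nat_lit 12), (nb (nat_lit 5) (nat_lit 1216) (nat_lit 0)), (nat_lit 0)⟩]⟩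
def e366 : En := ⟨(nat_lit 44), (nat_lit 69633), (nat_lit 20), (nat_lit 3), [⟨(nat_lit 0), (nat_lit 14), (nb (nat_lit 5) (nat_lit 1216) (nat_lit 0)), (nat_lit 0)⟩, ⟨(nat_lit 2), (nat_lit 22), (nb (nat_lit 5) (nat_lit 1216) (nat_lit 0)), (nat_lit 5)⟩, ⟨(nat_lit 8), (nat_lit 24), (nat_lit 5), (nat_lit 0)⟩]⟩
def e367 : En := ⟨(nat_lit 46), (nat_lit 69888), (nat_lit 20), (nat_lit 3), [⟨(nat_lit 0), (nat_lit 26), (nat_lit 5), (nat_lit 0)⟩, ⟨(nat_lit 2), (nat_lit 16), (nb (nat_lit 5) (nat_lit 1216) (nat_lit 0)), (nat_lit 0)⟩, ⟨(nat_lit 4), (nat_lit 24), (nb (nat_lit 5) (nat_lit 1216) (nat_lit 0)), (nat_lit 5)⟩]⟩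
def e368 : En := ⟨(nat_lit 48), (nat_lit 4368), (nat_lit 20), (nat_lit 3), [⟨(nat_lit 2), (nat_lit 28), (nat_lit 5), (nat_lit 0)⟩, ⟨(nat_lit 4), (nat_lit 18), (nb (nat_lit 5) (nat_lit 1216) (nat_lit 0)), (nat_lit 0)⟩, ⟨(nat_lit 6), (nat_lit 26), (nb (nat_lit 5) (nat_lit 1216) (nat_lit 0)), (nat_lit 5)⟩]⟩
def e369 : En := ⟨(nat_lit 50), (nat_lit 4113), (nat_lit 18), (nat_lit 8), [⟨(nat_lit 2), (nat_lit 20), (nat_lit 5), (nat_lit 0)⟩, ⟨(nat_lit 6), (nat_lit 14), (nat_lit 0x2000000000000000000000000000000010000000000000000), (nat_lit 0x100000000000000000000000000000002)⟩, ⟨(nat_lit 8), (nat_lit 18), (nat_lit 0x100000000000000000000000000000000), (nat_lit 0x2000000000000000000000000000000010000000000000003)⟩]⟩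
def e370 : En := ⟨(nat_lit 52), (nat_lit 65793), (nat_lit 18), (nat_lit 8), [⟨(nat_lit 0), (nat_lit 10), (nat_lit 0x100000000000000000000000000000000), (nat_lit 0x2000000000000000000000000000000010000000000000003)⟩, ⟨(nat_lit 4), (nat_lit 22), (nat_lit 5), (nat_lit 0)⟩, ⟨(nat_lit 8), (nat_lit 16), (nat_lit 0x2000000000000000000000000000000010000000000000000), (nat_lit 0x100000000000000000000000000000002)⟩]⟩
def e371 : En := ⟨(nat_lit 54), (nat_lit 69648), (nat_lit 18), (nat_lit 8), [⟨(nat_lit 0), (nat_lit 18), (nat_lit 0x2000000000000000000000000000000010000000000000000), (nat_lit 0x100000000000000000000000000000002)⟩, ⟨(nat_lit 2), (nat_lit 12), (nat_lit 0x100000000000000000000000000000000), (nat_lit 0x2000000000000000000000000000000010000000000000003)⟩, ⟨(nat_lit 6), (nat_lit 24), (nat_lit 5), (nat_lit 0)⟩]⟩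
def e372 : En := ⟨(nat_lit 56), (nat_lit 4353), (nat_lit 18), (nat_lit 8), [⟨(nat_lit 2), (nat_lit 10), (nat_lit 0x2000000000000000000000000000000010000000000000000), (nat_lit 0x100000000000000000000000000000002)⟩, ⟨(nat_lit 4), (nat_lit 14), (nat_lit 0x100000000000000000000000000000000), (nat_lit 0x2000000000000000000000000000000010000000000000003)⟩, ⟨(nat_lit 8), (nat_lit 26), (nat_lit 5), (nat_lit 0)⟩]⟩
def e373 : En := ⟨(nat_lit 58), (nat_lit 65808), (nat_lit 18), (nat_lit 8), [⟨(nat_lit 0), (nat_lit 28), (nat_lit 5), (nat_lit 0)⟩, ⟨(nat_lit 4), (nat_lit 12), (nat_lit 0x2000000000000000000000000000000010000000000000000), (nat_lit 0x100000000000000000000000000000002)⟩, ⟨(nat_lit 6), (nat_lit 16), (nat_lit 0x100000000000000000000000000000000), (nat_lit 0x2000000000000000000000000000000010000000000000003)⟩]⟩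
def e374 : En := ⟨(nat_lit 10), (nat_lit 257), (nat_lit 5), (nat_lit 1), [⟨(nat_lit 4), (nat_lit 8), (nat_lit 5), (nat_lit 0)⟩]⟩
def e375 : En := ⟨(nat_lit 12), (nat_lit 65552), (nat_lit 5), (nat_lit 1), [⟨(nat_lit 0), (nat_lit 6), (nat_lit 0), (nat_lit 5)⟩]⟩
def e376 : En := ⟨(nat_lit 14), (nat_lit 4097), (nat_lit 5), (nat_lit 1), [⟨(nat_lit 2), (nat_lit 8), (nat_lit 0), (nat_lit 5)⟩]⟩
def e377 : En := ⟨(nat_lit 16), (nat_lit 65792), (nat_lit 5), (nat_lit 1), [⟨(nat_lit 0), (nat_lit 4), (nat_lit 5), (nat_lit 0)⟩]⟩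
def e378 : En := ⟨(nat_lit 18), (nat_lit 4112), (nat_lit 5), (nat_lit 1), [⟨(nat_lit 2), (nat_lit 6), (nat_lit 5), (nat_lit 0)⟩]⟩
def e379 : En := ⟨(nat_lit 20), (nat_lit 17), (nat_lit 5), (nat_lit 1), [⟨(nat_lit 6), (nat_lit 8), (nat_lit 5), (nat_lit 0)⟩]⟩
def e380 : En := ⟨(nat_lit 22), (nat_lit 65537), (nat_lit 5), (nat_lit 1), [⟨(nat_lit 0), (nat_lit 8), (nat_lit 0), (nat_lit 5)⟩]⟩
def e381 : En := ⟨(nat_lit 24), (nat_lit 69632), (nat_lit 5), (nat_lit 1), [⟨(nat_lit 0), (nat_lit 2), (nat_lit 5), (nat_lit 0)⟩]⟩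
def e382 : En := ⟨(nat_lit 26), (nat_lit 4352), (nat_lit 5), (nat_lit 1), [⟨(nat_lit 2), (nat_lit 4), (nat_lit 5), (nat_lit 0)⟩]⟩
def e383 : En := ⟨(nat_lit 28), (nat_lit 272), (nat_lit 5), (nat_lit 1), [⟨(nat_lit 4), (nat_lit 6), (nat_lit 5), (nat_lit 0)⟩]⟩
def e384 : En := ⟨(nat_lit 60), (nat_lit 4369), (nat_lit 228), (nat_lit 5400), [⟨(nat_lit 2), (nat_lit 40), (nb (nat_lit 1) (nat_lit 29312) (nb (nat_lit 0x20000000000000002) (nat_lit 26816) (nb (nat_lit 3) (nat_lit 14784) (nb (nat_lit 0x300000000000000030000000000000001) (nat_lit 1280) (nat_lit 0))))), (nb (nat_lit 0x30000000000000001) (nat_lit 28032) (nb (nat_lit 1) (nat_lit 16000) (nb (nat_lit 2) (nat_lit 13568) (nb (nat_lit 0x10000000000000001) (nat_lit 2560) (nb (nat_lit 0x200000000000000020000000000000002) (nat_lit 64) (nat_lit 0))))))⟩, ⟨(nat_lit 4), (nat_lit 50), (nb (nat_lit 1) (nat_lit 17024) (nb (nat_lit 1) (nat_lit 15872) (nb (nat_lit 2) (nat_lit 14592) (nb (nat_lit 1) (nat_lit 3648)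 (nb (nat_lit 1) (nat_lit 2496) (nb (nat_lit 2) (nat_lit 1216) (nat_lit 0))))))), (nb (nat_lit 3) (nat_lit 15808) (nb (nat_lit 2) (nat_lit 14656) (nb (nat_lit 3) (nat_lit 2432) (nb (nat_lit 2) (nat_lit 1280) (nat_lit 0)))))⟩, ⟨(nat_lit 6), (nat_lit 56), (nb (nat_lit 1) (nat_lit 30400) (nb (nat_lit 1) (nat_lit 29248) (nb (nat_lit 2) (nat_lit 27968) (nb (nat_lit 1) (nat_lit 17024) (nb (nat_lit 1) (nat_lit 15872) (nb (nat_lit 2) (nat_lit 14592) (nat_lit 0))))))), (nb (nat_lit 3) (nat_lit 29184) (nb (nat_lit 2) (nat_lit 28032) (nb (nat_lit 3) (nat_lit 15808) (nb (nat_lit 2) (nat_lit 14656) (nat_lit 0)))))⟩, ⟨(nat_lit 8), (nat_lit 48), (nb (nat_lit 1) (nat_lit 29184) (nb (nat_lit 0x10000000000000001) (nat_lit 28032) (nb (nat_lit 2) (nat_lit 13568) (nb (nat_lit 2) (nat_lit 1216) (nb (nat_lit 0x200000000000000020000000000000002) (nat_lit 64) (nat_lit 0)))))), (nb (nat_lit 2) (nat_lit 27968) (nb (nat_lit 0x20000000000000002) (nat_lit 26816) (nb (nat_lit 1)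 (nat_lit 14784) (nb (nat_lit 1) (nat_lit 2432) (nb (nat_lit 0x100000000000000010000000000000001) (nat_lit 1280) (nat_lit 0))))))⟩, ⟨(nat_lit 10), (nat_lit 18), (nb (nat_lit 2) (nat_lit 29184) (nb (nat_lit 0x20000000000000002) (nat_lit 28032) (nb (nat_lit 0x1000000000000000400000000000000010000000000000001) (nat_lit 15808) (nb (nat_lit 0x10000000000000001) (nat_lit 3776) (nb (nat_lit 0x200000000000000020000000000000002) (nat_lit 1280) (nat_lit 0)))))), (nb (nat_lit 1) (nat_lit 30400) (nb (nat_lit 0x10000000000000001) (nat_lit 29248) (nb (nat_lit 1) (nat_lit 17152) (nb (nat_lit 0x2000000000000000400000000000000020000000000000002) (nat_lit 14592) (nb (nat_lit 0x300000000000000030000000000000001) (nat_lit 2496) (nat_lit 0))))))⟩, ⟨(nat_lit 14), (nat_lit 28), (nb (nat_lit 0x400000000000000010000000000000001) (nat_lit 29184) (nb (nat_lit 1) (nat_lit 17216) (nb (nat_lit 4) (nat_lit 14784) (nb (nat_lit 0x10000000000000001) (nat_lit 3776) (nb (nat_lit 0x4000000000000000400000000000000020000000000000002)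 (nat_lit 1216) (nat_lit 0)))))), (nb (nat_lit 1) (nat_lit 30528) (nb (nat_lit 0x400000000000000020000000000000002) (nat_lit 27968) (nb (nat_lit 4) (nat_lit 16000) (nb (nat_lit 0x4000000000000000400000000000000010000000000000001) (nat_lit 2432) (nat_lit 0)))))⟩, ⟨(nat_lit 20), (nat_lit 26), (nb (nat_lit 0x30000000000000001) (nat_lit 28032) (nb (nat_lit 1) (nat_lit 17024) (nb (nat_lit 0x100000000000000000000000000000001) (nat_lit 15872) (nb (nat_lit 2) (nat_lit 14592) (nb (nat_lit 2) (nat_lit 13568) (nb (nat_lit 1) (nat_lit 3648) (nb (nat_lit 0x100000000000000010000000000000001) (nat_lit 2496) (nb (nat_lit 2) (nat_lit 1216) (nb (nat_lit 0x200000000000000020000000000000002) (nat_lit 64) (nat_lit 0)))))))))), (nb (nat_lit 1) (nat_lit 29312) (nb (nat_lit 0x20000000000000002) (nat_lit 26816) (nb (nat_lit 3) (nat_lit 15808) (nb (nat_lit 0x300000000000000000000000000000002) (nat_lit 14656) (nb (nat_lit 3) (nat_lit 2432) (nb (nat_lit 0x300000000000000030000000000000003)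 (nat_lit 1280) (nat_lit 0)))))))⟩]⟩
def e385 : En := ⟨(nat_lit 62), (nat_lit 65809), (nat_lit 228), (nat_lit 5400), [⟨(nat_lit 0), (nat_lit 40), (nb (nat_lit 1) (nat_lit 29184) (nb (nat_lit 0x10000000000000001) (nat_lit 28032) (nb (nat_lit 2) (nat_lit 13568) (nb (nat_lit 2) (nat_lit 1216) (nb (nat_lit 0x200000000000000020000000000000002) (nat_lit 64) (nat_lit 0)))))), (nb (nat_lit 2) (nat_lit 27968) (nb (nat_lit 0x20000000000000002) (nat_lit 26816) (nb (nat_lit 1) (nat_lit 14784) (nb (nat_lit 1) (nat_lit 2432) (nb (nat_lit 0x100000000000000010000000000000001) (nat_lit 1280) (nat_lit 0))))))⟩, ⟨(nat_lit 4), (nat_lit 42), (nb (nat_lit 1) (nat_lit 29312) (nb (nat_lit 0x20000000000000002) (nat_lit 26816) (nb (nat_lit 3) (nat_lit 14784) (nb (nat_lit 0x300000000000000030000000000000001) (nat_lit 1280) (nat_lit 0))))), (nb (nat_lit 0x30000000000000001) (nat_lit 28032) (nb (nat_lit 1) (nat_lit 16000) (nb (nat_lit 2) (nat_lit 13568) (nb (nat_lit 0x10000000000000001)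 (nat_lit 2560) (nb (nat_lit 0x200000000000000020000000000000002) (nat_lit 64) (nat_lit 0))))))⟩, ⟨(nat_lit 6), (nat_lit 52), (nb (nat_lit 1) (nat_lit 17024) (nb (nat_lit 1) (nat_lit 15872) (nb (nat_lit 2) (nat_lit 14592) (nb (nat_lit 1) (nat_lit 3648) (nb (nat_lit 1) (nat_lit 2496) (nb (nat_lit 2) (nat_lit 1216) (nat_lit 0))))))), (nb (nat_lit 3) (nat_lit 15808) (nb (nat_lit 2) (nat_lit 14656) (nb (nat_lit 3) (nat_lit 2432) (nb (nat_lit 2) (nat_lit 1280) (nat_lit 0)))))⟩, ⟨(nat_lit 8), (nat_lit 58), (nb (nat_lit 1) (nat_lit 30400) (nb (nat_lit 1) (nat_lit 29248) (nb (nat_lit 2) (nat_lit 27968) (nb (nat_lit 1) (nat_lit 17024) (nb (nat_lit 1) (nat_lit 15872) (nb (nat_lit 2) (nat_lit 14592) (nat_lit 0))))))), (nb (nat_lit 3) (nat_lit 29184) (nb (nat_lit 2) (nat_lit 28032) (nb (nat_lit 3) (nat_lit 15808) (nb (nat_lit 2) (nat_lit 14656) (nat_lit 0)))))⟩, ⟨(nat_lit 10), (nat_lit 12), (nb (nat_lit 1) (nat_lit 30400) (nb (nat_lit 0x10000000000000001) (nat_lit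 29248) (nb (nat_lit 1) (nat_lit 17152) (nb (nat_lit 0x2000000000000000400000000000000020000000000000002) (nat_lit 14592) (nb (nat_lit 0x300000000000000030000000000000001) (nat_lit 2496) (nat_lit 0)))))), (nb (nat_lit 2) (nat_lit 29184) (nb (nat_lit 0x20000000000000002) (nat_lit 28032) (nb (nat_lit 0x1000000000000000400000000000000010000000000000001) (nat_lit 15808) (nb (nat_lit 0x10000000000000001) (nat_lit 3776) (nb (nat_lit 0x200000000000000020000000000000002) (nat_lit 1280) (nat_lit 0))))))⟩, ⟨(nat_lit 16), (nat_lit 20), (nb (nat_lit 0x400000000000000010000000000000001) (nat_lit 29184) (nb (nat_lit 1) (nat_lit 17216) (nb (nat_lit 4) (nat_lit 14784) (nb (nat_lit 0x10000000000000001) (nat_lit 3776) (nb (nat_lit 0x4000000000000000400000000000000020000000000000002) (nat_lit 1216) (nat_lit 0)))))), (nb (nat_lit 1) (nat_lit 30528) (nb (nat_lit 0x400000000000000020000000000000002) (nat_lit 27968) (nb (nat_lit 4) (nat_lit 16000) (nb (nat_lit 0x4000000000000000400000000000000010000000000000001)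 (nat_lit 2432) (nat_lit 0)))))⟩, ⟨(nat_lit 22), (nat_lit 28), (nb (nat_lit 0x30000000000000001) (nat_lit 28032) (nb (nat_lit 1) (nat_lit 17024) (nb (nat_lit 0x100000000000000000000000000000001) (nat_lit 15872) (nb (nat_lit 2) (nat_lit 14592) (nb (nat_lit 2) (nat_lit 13568) (nb (nat_lit 1) (nat_lit 3648) (nb (nat_lit 0x100000000000000010000000000000001) (nat_lit 2496) (nb (nat_lit 2) (nat_lit 1216) (nb (nat_lit 0x200000000000000020000000000000002) (nat_lit 64) (nat_lit 0)))))))))), (nb (nat_lit 1) (nat_lit 29312) (nb (nat_lit 0x20000000000000002) (nat_lit 26816) (nb (nat_lit 3) (nat_lit 15808) (nb (nat_lit 0x300000000000000000000000000000002) (nat_lit 14656) (nb (nat_lit 3) (nat_lit 2432) (nb (nat_lit 0x300000000000000030000000000000003) (nat_lit 1280) (nat_lit 0)))))))⟩]⟩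
def e386 : En := ⟨(nat_lit 64), (nat_lit 69649), (nat_lit 228), (nat_lit 5400), [⟨(nat_lit 0), (nat_lit 50), (nb (nat_lit 1) (nat_lit 30400) (nb (nat_lit 1) (nat_lit 29248) (nb (nat_lit 2) (nat_lit 27968) (nb (nat_lit 1) (nat_lit 17024) (nb (nat_lit 1) (nat_lit 15872) (nb (nat_lit 2) (nat_lit 14592) (nat_lit 0))))))), (nb (nat_lit 3) (nat_lit 29184) (nb (nat_lit 2) (nat_lit 28032) (nb (nat_lit 3) (nat_lit 15808) (nb (nat_lit 2) (nat_lit 14656) (nat_lit 0)))))⟩, ⟨(nat_lit 2), (nat_lit 42), (nb (nat_lit 1) (nat_lit 29184) (nb (nat_lit 0x10000000000000001) (nat_lit 28032) (nb (nat_lit 2) (nat_lit 13568) (nb (nat_lit 2) (nat_lit 1216) (nb (nat_lit 0x200000000000000020000000000000002) (nat_lit 64) (nat_lit 0)))))), (nb (nat_lit 2) (nat_lit 27968) (nb (nat_lit 0x20000000000000002) (nat_lit 26816) (nb (nat_lit 1) (nat_lit 14784) (nb (nat_lit 1) (nat_lit 2432) (nb (nat_lit 0x100000000000000010000000000000001) (nat_lit 1280) (nat_lit 0))))))⟩, ⟨(nat_lit 6),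 (nat_lit 44), (nb (nat_lit 1) (nat_lit 29312) (nb (nat_lit 0x20000000000000002) (nat_lit 26816) (nb (nat_lit 3) (nat_lit 14784) (nb (nat_lit 0x300000000000000030000000000000001) (nat_lit 1280) (nat_lit 0))))), (nb (nat_lit 0x30000000000000001) (nat_lit 28032) (nb (nat_lit 1) (nat_lit 16000) (nb (nat_lit 2) (nat_lit 13568) (nb (nat_lit 0x10000000000000001) (nat_lit 2560) (nb (nat_lit 0x200000000000000020000000000000002) (nat_lit 64) (nat_lit 0))))))⟩, ⟨(nat_lit 8), (nat_lit 54), (nb (nat_lit 1) (nat_lit 17024) (nb (nat_lit 1) (nat_lit 15872) (nb (nat_lit 2) (nat_lit 14592) (nb (nat_lit 1) (nat_lit 3648) (nb (nat_lit 1) (nat_lit 2496) (nb (nat_lit 2) (nat_lit 1216) (nat_lit 0))))))), (nb (nat_lit 3) (nat_lit 15808) (nb (nat_lit 2) (nat_lit 14656) (nb (nat_lit 3) (nat_lit 2432) (nb (nat_lit 2) (nat_lit 1280) (nat_lit 0)))))⟩, ⟨(nat_lit 12), (nat_lit 14), (nb (nat_lit 1) (nat_lit 30400) (nb (nat_lit 0x10000000000000001) (nat_lit 29248) (nb (nat_lit 1)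 (nat_lit 17152) (nb (nat_lit 0x2000000000000000400000000000000020000000000000002) (nat_lit 14592) (nb (nat_lit 0x300000000000000030000000000000001) (nat_lit 2496) (nat_lit 0)))))), (nb (nat_lit 2) (nat_lit 29184) (nb (nat_lit 0x20000000000000002) (nat_lit 28032) (nb (nat_lit 0x1000000000000000400000000000000010000000000000001) (nat_lit 15808) (nb (nat_lit 0x10000000000000001) (nat_lit 3776) (nb (nat_lit 0x200000000000000020000000000000002) (nat_lit 1280) (nat_lit 0))))))⟩, ⟨(nat_lit 18), (nat_lit 22), (nb (nat_lit 0x400000000000000010000000000000001) (nat_lit 29184) (nb (nat_lit 1) (nat_lit 17216) (nb (nat_lit 4) (nat_lit 14784) (nb (nat_lit 0x10000000000000001) (nat_lit 3776) (nb (nat_lit 0x4000000000000000400000000000000020000000000000002) (nat_lit 1216) (nat_lit 0)))))), (nb (nat_lit 1) (nat_lit 30528) (nb (nat_lit 0x400000000000000020000000000000002) (nat_lit 27968) (nb (nat_lit 4) (nat_lit 16000) (nb (nat_lit 0x4000000000000000400000000000000010000000000000001)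 (nat_lit 2432) (nat_lit 0)))))⟩, ⟨(nat_lit 20), (nat_lit 24), (nb (nat_lit 1) (nat_lit 29312) (nb (nat_lit 0x20000000000000002) (nat_lit 26816) (nb (nat_lit 3) (nat_lit 15808) (nb (nat_lit 0x300000000000000000000000000000002) (nat_lit 14656) (nb (nat_lit 3) (nat_lit 2432) (nb (nat_lit 0x300000000000000030000000000000003) (nat_lit 1280) (nat_lit 0))))))), (nb (nat_lit 0x30000000000000001) (nat_lit 28032) (nb (nat_lit 1) (nat_lit 17024) (nb (nat_lit 0x100000000000000000000000000000001) (nat_lit 15872) (nb (nat_lit 2) (nat_lit 14592) (nb (nat_lit 2) (nat_lit 13568) (nb (nat_lit 1) (nat_lit 3648) (nb (nat_lit 0x100000000000000010000000000000001) (nat_lit 2496) (nb (nat_lit 2) (nat_lit 1216) (nb (nat_lit 0x200000000000000020000000000000002) (nat_lit 64) (nat_lit 0))))))))))⟩]⟩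
def e387 : En := ⟨(nat_lit 66), (nat_lit 69889), (nat_lit 228), (nat_lit 5400), [⟨(nat_lit 0), (nat_lit 56), (nb (nat_lit 1) (nat_lit 17024) (nb (nat_lit 1) (nat_lit 15872) (nb (nat_lit 2) (nat_lit 14592) (nb (nat_lit 1) (nat_lit 3648) (nb (nat_lit 1) (nat_lit 2496) (nb (nat_lit 2) (nat_lit 1216) (nat_lit 0))))))), (nb (nat_lit 3) (nat_lit 15808) (nb (nat_lit 2) (nat_lit 14656) (nb (nat_lit 3) (nat_lit 2432) (nb (nat_lit 2) (nat_lit 1280) (nat_lit 0)))))⟩, ⟨(nat_lit 2), (nat_lit 52), (nb (nat_lit 1) (nat_lit 30400) (nb (nat_lit 1) (nat_lit 29248) (nb (nat_lit 2) (nat_lit 27968) (nb (nat_lit 1) (nat_lit 17024) (nb (nat_lit 1) (nat_lit 15872) (nb (nat_lit 2) (nat_lit 14592) (nat_lit 0))))))), (nb (nat_lit 3) (nat_lit 29184) (nb (nat_lit 2) (nat_lit 28032) (nb (nat_lit 3) (nat_lit 15808) (nb (nat_lit 2) (nat_lit 14656) (nat_lit 0)))))⟩, ⟨(nat_lit 4), (nat_lit 44), (nb (nat_lit 1) (nat_lit 29184) (nb (nat_lit 0x10000000000000001) (nat_lit 28032) (nb (nat_lit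 2) (nat_lit 13568) (nb (nat_lit 2) (nat_lit 1216) (nb (nat_lit 0x200000000000000020000000000000002) (nat_lit 64) (nat_lit 0)))))), (nb (nat_lit 2) (nat_lit 27968) (nb (nat_lit 0x20000000000000002) (nat_lit 26816) (nb (nat_lit 1) (nat_lit 14784) (nb (nat_lit 1) (nat_lit 2432) (nb (nat_lit 0x100000000000000010000000000000001) (nat_lit 1280) (nat_lit 0))))))⟩, ⟨(nat_lit 8), (nat_lit 46), (nb (nat_lit 1) (nat_lit 29312) (nb (nat_lit 0x20000000000000002) (nat_lit 26816) (nb (nat_lit 3) (nat_lit 14784) (nb (nat_lit 0x300000000000000030000000000000001) (nat_lit 1280) (nat_lit 0))))), (nb (nat_lit 0x30000000000000001) (nat_lit 28032) (nb (nat_lit 1) (nat_lit 16000) (nb (nat_lit 2) (nat_lit 13568) (nb (nat_lit 0x10000000000000001) (nat_lit 2560) (nb (nat_lit 0x200000000000000020000000000000002) (nat_lit 64) (nat_lit 0))))))⟩, ⟨(nat_lit 10), (nat_lit 24), (nb (nat_lit 0x400000000000000010000000000000001) (nat_lit 29184) (nb (nat_lit 1) (nat_lit 17216) (nb (nat_lit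 4) (nat_lit 14784) (nb (nat_lit 0x10000000000000001) (nat_lit 3776) (nb (nat_lit 0x4000000000000000400000000000000020000000000000002) (nat_lit 1216) (nat_lit 0)))))), (nb (nat_lit 1) (nat_lit 30528) (nb (nat_lit 0x400000000000000020000000000000002) (nat_lit 27968) (nb (nat_lit 4) (nat_lit 16000) (nb (nat_lit 0x4000000000000000400000000000000010000000000000001) (nat_lit 2432) (nat_lit 0)))))⟩, ⟨(nat_lit 14), (nat_lit 16), (nb (nat_lit 1) (nat_lit 30400) (nb (nat_lit 0x10000000000000001) (nat_lit 29248) (nb (nat_lit 1) (nat_lit 17152) (nb (nat_lit 0x2000000000000000400000000000000020000000000000002) (nat_lit 14592) (nb (nat_lit 0x300000000000000030000000000000001) (nat_lit 2496) (nat_lit 0)))))), (nb (nat_lit 2) (nat_lit 29184) (nb (nat_lit 0x20000000000000002) (nat_lit 28032) (nb (nat_lit 0x1000000000000000400000000000000010000000000000001) (nat_lit 15808) (nb (nat_lit 0x10000000000000001) (nat_lit 3776) (nb (nat_lit 0x200000000000000020000000000000002)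 (nat_lit 1280) (nat_lit 0))))))⟩, ⟨(nat_lit 22), (nat_lit 26), (nb (nat_lit 1) (nat_lit 29312) (nb (nat_lit 0x20000000000000002) (nat_lit 26816) (nb (nat_lit 3) (nat_lit 15808) (nb (nat_lit 0x300000000000000000000000000000002) (nat_lit 14656) (nb (nat_lit 3) (nat_lit 2432) (nb (nat_lit 0x300000000000000030000000000000003) (nat_lit 1280) (nat_lit 0))))))), (nb (nat_lit 0x30000000000000001) (nat_lit 28032) (nb (nat_lit 1) (nat_lit 17024) (nb (nat_lit 0x100000000000000000000000000000001) (nat_lit 15872) (nb (nat_lit 2) (nat_lit 14592) (nb (nat_lit 2) (nat_lit 13568) (nb (nat_lit 1) (nat_lit 3648) (nb (nat_lit 0x100000000000000010000000000000001) (nat_lit 2496) (nb (nat_lit 2) (nat_lit 1216) (nb (nat_lit 0x200000000000000020000000000000002) (nat_lit 64) (nat_lit 0))))))))))⟩]⟩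
def e388 : En := ⟨(nat_lit 68), (nat_lit 69904), (nat_lit 228), (nat_lit 5400), [⟨(nat_lit 0), (nat_lit 48), (nb (nat_lit 1) (nat_lit 29312) (nb (nat_lit 0x20000000000000002) (nat_lit 26816) (nb (nat_lit 3) (nat_lit 14784) (nb (nat_lit 0x300000000000000030000000000000001) (nat_lit 1280) (nat_lit 0))))), (nb (nat_lit 0x30000000000000001) (nat_lit 28032) (nb (nat_lit 1) (nat_lit 16000) (nb (nat_lit 2) (nat_lit 13568) (nb (nat_lit 0x10000000000000001) (nat_lit 2560) (nb (nat_lit 0x200000000000000020000000000000002) (nat_lit 64) (nat_lit 0))))))⟩, ⟨(nat_lit 2), (nat_lit 58), (nb (nat_lit 1) (nat_lit 17024) (nb (nat_lit 1) (nat_lit 15872) (nb (nat_lit 2) (nat_lit 14592) (nb (nat_lit 1) (nat_lit 3648) (nb (nat_lit 1) (nat_lit 2496) (nb (nat_lit 2) (nat_lit 1216) (nat_lit 0))))))), (nb (nat_lit 3) (nat_lit 15808) (nb (nat_lit 2) (nat_lit 14656) (nb (nat_lit 3) (nat_lit 2432) (nb (nat_lit 2) (nat_lit 1280) (nat_lit 0)))))⟩, ⟨(nat_lit 4), (nat_lit 54), (nb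 (nat_lit 1) (nat_lit 30400) (nb (nat_lit 1) (nat_lit 29248) (nb (nat_lit 2) (nat_lit 27968) (nb (nat_lit 1) (nat_lit 17024) (nb (nat_lit 1) (nat_lit 15872) (nb (nat_lit 2) (nat_lit 14592) (nat_lit 0))))))), (nb (nat_lit 3) (nat_lit 29184) (nb (nat_lit 2) (nat_lit 28032) (nb (nat_lit 3) (nat_lit 15808) (nb (nat_lit 2) (nat_lit 14656) (nat_lit 0)))))⟩, ⟨(nat_lit 6), (nat_lit 46), (nb (nat_lit 1) (nat_lit 29184) (nb (nat_lit 0x10000000000000001) (nat_lit 28032) (nb (nat_lit 2) (nat_lit 13568) (nb (nat_lit 2) (nat_lit 1216) (nb (nat_lit 0x200000000000000020000000000000002) (nat_lit 64) (nat_lit 0)))))), (nb (nat_lit 2) (nat_lit 27968) (nb (nat_lit 0x20000000000000002) (nat_lit 26816) (nb (nat_lit 1) (nat_lit 14784) (nb (nat_lit 1) (nat_lit 2432) (nb (nat_lit 0x100000000000000010000000000000001) (nat_lit 1280) (nat_lit 0))))))⟩, ⟨(nat_lit 12), (nat_lit 26), (nb (nat_lit 0x400000000000000010000000000000001) (nat_lit 29184) (nb (nat_lit 1) (nat_lit 17216)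 (nb (nat_lit 4) (nat_lit 14784) (nb (nat_lit 0x10000000000000001) (nat_lit 3776) (nb (nat_lit 0x4000000000000000400000000000000020000000000000002) (nat_lit 1216) (nat_lit 0)))))), (nb (nat_lit 1) (nat_lit 30528) (nb (nat_lit 0x400000000000000020000000000000002) (nat_lit 27968) (nb (nat_lit 4) (nat_lit 16000) (nb (nat_lit 0x4000000000000000400000000000000010000000000000001) (nat_lit 2432) (nat_lit 0)))))⟩, ⟨(nat_lit 16), (nat_lit 18), (nb (nat_lit 1) (nat_lit 30400) (nb (nat_lit 0x10000000000000001) (nat_lit 29248) (nb (nat_lit 1) (nat_lit 17152) (nb (nat_lit 0x2000000000000000400000000000000020000000000000002) (nat_lit 14592) (nb (nat_lit 0x300000000000000030000000000000001) (nat_lit 2496) (nat_lit 0)))))), (nb (nat_lit 2) (nat_lit 29184) (nb (nat_lit 0x20000000000000002) (nat_lit 28032) (nb (nat_lit 0x1000000000000000400000000000000010000000000000001) (nat_lit 15808) (nb (nat_lit 0x10000000000000001) (nat_lit 3776) (nb (nat_lit 0x200000000000000020000000000000002)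 (nat_lit 1280) (nat_lit 0))))))⟩, ⟨(nat_lit 24), (nat_lit 28), (nb (nat_lit 1) (nat_lit 29312) (nb (nat_lit 0x20000000000000002) (nat_lit 26816) (nb (nat_lit 3) (nat_lit 15808) (nb (nat_lit 0x300000000000000000000000000000002) (nat_lit 14656) (nb (nat_lit 3) (nat_lit 2432) (nb (nat_lit 0x300000000000000030000000000000003) (nat_lit 1280) (nat_lit 0))))))), (nb (nat_lit 0x30000000000000001) (nat_lit 28032) (nb (nat_lit 1) (nat_lit 17024) (nb (nat_lit 0x100000000000000000000000000000001) (nat_lit 15872) (nb (nat_lit 2) (nat_lit 14592) (nb (nat_lit 2) (nat_lit 13568) (nb (nat_lit 1) (nat_lit 3648) (nb (nat_lit 0x100000000000000010000000000000001) (nat_lit 2496) (nb (nat_lit 2) (nat_lit 1216) (nb (nat_lit 0x200000000000000020000000000000002) (nat_lit 64) (nat_lit 0))))))))))⟩]⟩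
def e389 : En := ⟨(nat_lit 40), (nat_lit 273), (nat_lit 24), (nat_lit 90), [⟨(nat_lit 4), (nat_lit 20), (nb (nat_lit 1) (nat_lit 14592) (nb (nat_lit 1) (nat_lit 13440) (nb (nat_lit 1) (nat_lit 1216) (nb (nat_lit 1) (nat_lit 64) (nat_lit 0))))), (nb (nat_lit 1) (nat_lit 13376) (nat_lit 1))⟩, ⟨(nat_lit 6), (nat_lit 10), (nb (nat_lit 1) (nat_lit 15808) (nb (nat_lit 1) (nat_lit 14656) (nb (nat_lit 1) (nat_lit 2432) (nb (nat_lit 1) (nat_lit 1280) (nat_lit 0))))), (nb (nat_lit 1) (nat_lit 14592) (nb (nat_lit 1) (nat_lit 1216) (nat_lit 0)))⟩, ⟨(nat_lit 8), (nat_lit 28), (nb (nat_lit 1) (nat_lit 15808) (nb (nat_lit 1) (nat_lit 14656) (nb (nat_lit 1) (nat_lit 13376) (nb (nat_lit 1) (nat_lit 2432) (nb (nat_lit 1) (nat_lit 1280) (nat_lit 1)))))), (nb (nat_lit 2) (nat_lit 14592) (nb (nat_lit 1) (nat_lit 13440) (nb (nat_lit 2) (nat_lit 1216) (nb (nat_lit 1) (nat_lit 64) (nat_lit 0)))))⟩]⟩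
def e390 : En := ⟨(nat_lit 42), (nat_lit 65553), (nat_lit 24), (nat_lit 90), [⟨(nat_lit 0), (nat_lit 20), (nb (nat_lit 1) (nat_lit 15808) (nb (nat_lit 1) (nat_lit 14656) (nb (nat_lit 1) (nat_lit 13376) (nb (nat_lit 1) (nat_lit 2432) (nb (nat_lit 1) (nat_lit 1280) (nat_lit 1)))))), (nb (nat_lit 2) (nat_lit 14592) (nb (nat_lit 1) (nat_lit 13440) (nb (nat_lit 2) (nat_lit 1216) (nb (nat_lit 1) (nat_lit 64) (nat_lit 0)))))⟩, ⟨(nat_lit 6), (nat_lit 22), (nb (nat_lit 1) (nat_lit 14592) (nb (nat_lit 1) (nat_lit 13440) (nb (nat_lit 1) (nat_lit 1216) (nb (nat_lit 1) (nat_lit 64) (nat_lit 0))))), (nb (nat_lit 1) (nat_lit 13376) (nat_lit 1))⟩, ⟨(nat_lit 8), (nat_lit 12), (nb (nat_lit 1) (nat_lit 15808) (nb (nat_lit 1) (nat_lit 14656) (nb (nat_lit 1) (nat_lit 2432) (nb (nat_lit 1) (nat_lit 1280) (nat_lit 0))))), (nb (nat_lit 1) (nat_lit 14592) (nb (nat_lit 1) (nat_lit 1216) (nat_lit 0)))⟩]⟩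
def e391 : En := ⟨(nat_lit 44), (nat_lit 69633), (nat_lit 24), (nat_lit 90), [⟨(nat_lit 0), (nat_lit 14), (nb (nat_lit 1) (nat_lit 15808) (nb (nat_lit 1) (nat_lit 14656) (nb (nat_lit 1) (nat_lit 2432) (nb (nat_lit 1) (nat_lit 1280) (nat_lit 0))))), (nb (nat_lit 1) (nat_lit 14592) (nb (nat_lit 1) (nat_lit 1216) (nat_lit 0)))⟩, ⟨(nat_lit 2), (nat_lit 22), (nb (nat_lit 1) (nat_lit 15808) (nb (nat_lit 1) (nat_lit 14656) (nb (nat_lit 1) (nat_lit 13376) (nb (nat_lit 1) (nat_lit 2432) (nb (nat_lit 1) (nat_lit 1280) (nat_lit 1)))))), (nb (nat_lit 2) (nat_lit 14592) (nb (nat_lit 1) (nat_lit 13440) (nb (nat_lit 2) (nat_lit 1216) (nb (nat_lit 1) (nat_lit 64) (nat_lit 0)))))⟩, ⟨(nat_lit 8), (nat_lit 24), (nb (nat_lit 1) (nat_lit 14592) (nb (nat_lit 1) (nat_lit 13440) (nb (nat_lit 1) (nat_lit 1216) (nb (nat_lit 1) (nat_lit 64) (nat_lit 0))))), (nb (nat_lit 1) (nat_lit 13376) (nat_lit 1))⟩]⟩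
def e392 : En := ⟨(nat_lit 46), (nat_lit 69888), (nat_lit 24), (nat_lit 90), [⟨(nat_lit 0), (nat_lit 26), (nb (nat_lit 1) (nat_lit 14592) (nb (nat_lit 1) (nat_lit 13440) (nb (nat_lit 1) (nat_lit 1216) (nb (nat_lit 1) (nat_lit 64) (nat_lit 0))))), (nb (nat_lit 1) (nat_lit 13376) (nat_lit 1))⟩, ⟨(nat_lit 2), (nat_lit 16), (nb (nat_lit 1) (nat_lit 15808) (nb (nat_lit 1) (nat_lit 14656) (nb (nat_lit 1) (nat_lit 2432) (nb (nat_lit 1) (nat_lit 1280) (nat_lit 0))))), (nb (nat_lit 1) (nat_lit 14592) (nb (nat_lit 1) (nat_lit 1216) (nat_lit 0)))⟩, ⟨(nat_lit 4), (nat_lit 24), (nb (nat_lit 1) (nat_lit 15808) (nb (nat_lit 1) (nat_lit 14656) (nb (nat_lit 1) (nat_lit 13376) (nb (nat_lit 1) (nat_lit 2432) (nb (nat_lit 1) (nat_lit 1280) (nat_lit 1)))))), (nb (nat_lit 2) (nat_lit 14592) (nb (nat_lit 1) (nat_lit 13440) (nb (nat_lit 2) (nat_lit 1216) (nb (nat_lit 1) (nat_lit 64) (nat_lit 0)))))⟩]⟩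
def e393 : En := ⟨(nat_lit 48), (nat_lit 4368), (nat_lit 24), (nat_lit 90), [⟨(nat_lit 2), (nat_lit 28), (nb (nat_lit 1) (nat_lit 14592) (nb (nat_lit 1) (nat_lit 13440) (nb (nat_lit 1) (nat_lit 1216) (nb (nat_lit 1) (nat_lit 64) (nat_lit 0))))), (nb (nat_lit 1) (nat_lit 13376) (nat_lit 1))⟩, ⟨(nat_lit 4), (nat_lit 18), (nb (nat_lit 1) (nat_lit 15808) (nb (nat_lit 1) (nat_lit 14656) (nb (nat_lit 1) (nat_lit 2432) (nb (nat_lit 1) (nat_lit 1280) (nat_lit 0))))), (nb (nat_lit 1) (nat_lit 14592) (nb (nat_lit 1) (nat_lit 1216) (nat_lit 0)))⟩, ⟨(nat_lit 6), (nat_lit 26), (nb (nat_lit 1) (nat_lit 15808) (nb (nat_lit 1) (nat_lit 14656) (nb (nat_lit 1) (nat_lit 13376) (nb (nat_lit 1) (nat_lit 2432) (nb (nat_lit 1) (nat_lit 1280) (nat_lit 1)))))), (nb (nat_lit 2) (nat_lit 14592) (nb (nat_lit 1) (nat_lit 13440) (nb (nat_lit 2) (nat_lit 1216) (nb (nat_lit 1) (nat_lit 64) (nat_lit 0)))))⟩]⟩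
def e394 : En := ⟨(nat_lit 50), (nat_lit 4113), (nat_lit 34), (nat_lit 120), [⟨(nat_lit 2), (nat_lit 20), (nb (nat_lit 1) (nat_lit 14592) (nb (nat_lit 1) (nat_lit 13440) (nb (nat_lit 1) (nat_lit 1216) (nb (nat_lit 1) (nat_lit 64) (nat_lit 0))))), (nb (nat_lit 1) (nat_lit 13376) (nat_lit 1))⟩, ⟨(nat_lit 6), (nat_lit 14), (nb (nat_lit 1) (nat_lit 14720) (nat_lit 0x2000000000000000200000000000000010000000000000001)), (nb (nat_lit 1) (nat_lit 14592) (nb (nat_lit 0x20000000000000002) (nat_lit 13440) (nb (nat_lit 0x10000000000000001) (nat_lit 1344) (nat_lit 0))))⟩, ⟨(nat_lit 8), (nat_lit 18), (nb (nat_lit 0x200000000000000010000000000000001) (nat_lit 13376) (nb (nat_lit 0x10000000000000001) (nat_lit 1344) (nat_lit 0))), (nb (nat_lit 1) (nat_lit 14720) (nb (nat_lit 1) (nat_lit 1216) (nb (nat_lit 0x200000000000000020000000000000002) (nat_lit 64) (nat_lit 0))))⟩]⟩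
def e395 : En := ⟨(nat_lit 52), (nat_lit 65793), (nat_lit 34), (nat_lit 120), [⟨(nat_lit 0), (nat_lit 10), (nb (nat_lit 0x200000000000000010000000000000001) (nat_lit 13376) (nb (nat_lit 0x10000000000000001) (nat_lit 1344) (nat_lit 0))), (nb (nat_lit 1) (nat_lit 14720) (nb (nat_lit 1) (nat_lit 1216) (nb (nat_lit 0x200000000000000020000000000000002) (nat_lit 64) (nat_lit 0))))⟩, ⟨(nat_lit 4), (nat_lit 22), (nb (nat_lit 1) (nat_lit 14592) (nb (nat_lit 1) (nat_lit 13440) (nb (nat_lit 1) (nat_lit 1216) (nb (nat_lit 1) (nat_lit 64) (nat_lit 0))))), (nb (nat_lit 1) (nat_lit 13376) (nat_lit 1))⟩, ⟨(nat_lit 8), (nat_lit 16), (nb (nat_lit 1) (nat_lit 14720) (nat_lit 0x2000000000000000200000000000000010000000000000001)), (nb (nat_lit 1) (nat_lit 14592) (nb (nat_lit 0x20000000000000002) (nat_lit 13440) (nb (nat_lit 0x10000000000000001) (nat_lit 1344) (nat_lit 0))))⟩]⟩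
def e396 : En := ⟨(nat_lit 54), (nat_lit 69648), (nat_lit 34), (nat_lit 120), [⟨(nat_lit 0), (nat_lit 18), (nb (nat_lit 1) (nat_lit 14720) (nat_lit 0x2000000000000000200000000000000010000000000000001)), (nb (nat_lit 1) (nat_lit 14592) (nb (nat_lit 0x20000000000000002) (nat_lit 13440) (nb (nat_lit 0x10000000000000001) (nat_lit 1344) (nat_lit 0))))⟩, ⟨(nat_lit 2), (nat_lit 12), (nb (nat_lit 0x200000000000000010000000000000001) (nat_lit 13376) (nb (nat_lit 0x10000000000000001) (nat_lit 1344) (nat_lit 0))), (nb (nat_lit 1) (nat_lit 14720) (nb (nat_lit 1) (nat_lit 1216) (nb (nat_lit 0x200000000000000020000000000000002) (nat_lit 64) (nat_lit 0))))⟩, ⟨(nat_lit 6), (nat_lit 24), (nb (nat_lit 1) (nat_lit 14592) (nb (nat_lit 1) (nat_lit 13440) (nb (nat_lit 1) (nat_lit 1216) (nb (nat_lit 1) (nat_lit 64) (nat_lit 0))))), (nb (nat_lit 1) (nat_lit 13376) (nat_lit 1))⟩]⟩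
def e397 : En := ⟨(nat_lit 56), (nat_lit 4353), (nat_lit 34), (nat_lit 120), [⟨(nat_lit 2), (nat_lit 10), (nb (nat_lit 1) (nat_lit 14720) (nat_lit 0x2000000000000000200000000000000010000000000000001)), (nb (nat_lit 1) (nat_lit 14592) (nb (nat_lit 0x20000000000000002) (nat_lit 13440) (nb (nat_lit 0x10000000000000001) (nat_lit 1344) (nat_lit 0))))⟩, ⟨(nat_lit 4), (nat_lit 14), (nb (nat_lit 0x200000000000000010000000000000001) (nat_lit 13376) (nb (nat_lit 0x10000000000000001) (nat_lit 1344) (nat_lit 0))), (nb (nat_lit 1) (nat_lit 14720) (nb (nat_lit 1) (nat_lit 1216) (nb (nat_lit 0x200000000000000020000000000000002) (nat_lit 64) (nat_lit 0))))⟩, ⟨(nat_lit 8), (nat_lit 26), (nb (nat_lit 1) (nat_lit 14592) (nb (nat_lit 1) (nat_lit 13440) (nb (nat_lit 1) (nat_lit 1216) (nb (nat_lit 1) (nat_lit 64) (nat_lit 0))))), (nb (nat_lit 1) (nat_lit 13376) (nat_lit 1))⟩]⟩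
def e398 : En := ⟨(nat_lit 58), (nat_lit 65808), (nat_lit 34), (nat_lit 120), [⟨(nat_lit 0), (nat_lit 28), (nb (nat_lit 1) (nat_lit 14592) (nb (nat_lit 1) (nat_lit 13440) (nb (nat_lit 1) (nat_lit 1216) (nb (nat_lit 1) (nat_lit 64) (nat_lit 0))))), (nb (nat_lit 1) (nat_lit 13376) (nat_lit 1))⟩, ⟨(nat_lit 4), (nat_lit 12), (nb (nat_lit 1) (nat_lit 14720) (nat_lit 0x2000000000000000200000000000000010000000000000001)), (nb (nat_lit 1) (nat_lit 14592) (nb (nat_lit 0x20000000000000002) (nat_lit 13440) (nb (nat_lit 0x10000000000000001) (nat_lit 1344) (nat_lit 0))))⟩, ⟨(nat_lit 6), (nat_lit 16), (nb (nat_lit 0x200000000000000010000000000000001) (nat_lit 13376) (nb (nat_lit 0x10000000000000001) (nat_lit 1344) (nat_lit 0))), (nb (nat_lit 1) (nat_lit 14720) (nb (nat_lit 1) (nat_lit 1216) (nb (nat_lit 0x200000000000000020000000000000002) (nat_lit 64) (nat_lit 0))))⟩]⟩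
def e399 : En := ⟨(nat_lit 10), (nat_lit 257), (nat_lit 6), (nat_lit 30), [⟨(nat_lit 4), (nat_lit 8), (nb (nat_lit 1) (nat_lit 14592) (nb (nat_lit 1) (nat_lit 13440) (nb (nat_lit 1) (nat_lit 1216) (nb (nat_lit 1) (nat_lit 64) (nat_lit 0))))), (nb (nat_lit 1) (nat_lit 13376) (nat_lit 1))⟩]⟩
def e400 : En := ⟨(nat_lit 12), (nat_lit 65552), (nat_lit 6), (nat_lit 30), [⟨(nat_lit 0), (nat_lit 6), (nb (nat_lit 1) (nat_lit 13376) (nat_lit 1)), (nb (nat_lit 1) (nat_lit 14592) (nb (nat_lit 1) (nat_lit 13440) (nb (nat_lit 1) (nat_lit 1216) (nb (nat_lit 1) (nat_lit 64) (nat_lit 0)))))⟩]⟩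
def e401 : En := ⟨(nat_lit 14), (nat_lit 4097), (nat_lit 6), (nat_lit 30), [⟨(nat_lit 2), (nat_lit 8), (nb (nat_lit 1) (nat_lit 13376) (nat_lit 1)), (nb (nat_lit 1) (nat_lit 14592) (nb (nat_lit 1) (nat_lit 13440) (nb (nat_lit 1) (nat_lit 1216) (nb (nat_lit 1) (nat_lit 64) (nat_lit 0)))))⟩]⟩
def e402 : En := ⟨(nat_lit 16), (nat_lit 65792), (nat_lit 6), (nat_lit 30), [⟨(nat_lit 0), (nat_lit 4), (nb (nat_lit 1) (nat_lit 14592) (nb (nat_lit 1) (nat_lit 13440) (nb (nat_lit 1) (nat_lit 1216) (nb (nat_lit 1) (nat_lit 64) (nat_lit 0))))), (nb (nat_lit 1) (nat_lit 13376) (nat_lit 1))⟩]⟩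
def e403 : En := ⟨(nat_lit 18), (nat_lit 4112), (nat_lit 6), (nat_lit 30), [⟨(nat_lit 2), (nat_lit 6), (nb (nat_lit 1) (nat_lit 14592) (nb (nat_lit 1) (nat_lit 13440) (nb (nat_lit 1) (nat_lit 1216) (nb (nat_lit 1) (nat_lit 64) (nat_lit 0))))), (nb (nat_lit 1) (nat_lit 13376) (nat_lit 1))⟩]⟩
def e404 : En := ⟨(nat_lit 20), (nat_lit 17), (nat_lit 6), (nat_lit 30), [⟨(nat_lit 6), (nat_lit 8), (nb (nat_lit 1) (nat_lit 14592) (nb (nat_lit 1) (nat_lit 13440) (nb (nat_lit 1) (nat_lit 1216) (nb (nat_lit 1) (nat_lit 64) (nat_lit 0))))), (nb (nat_lit 1) (nat_lit 13376) (nat_lit 1))⟩]⟩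
def e405 : En := ⟨(nat_lit 22), (nat_lit 65537), (nat_lit 6), (nat_lit 30), [⟨(nat_lit 0), (nat_lit 8), (nb (nat_lit 1) (nat_lit 13376) (nat_lit 1)), (nb (nat_lit 1) (nat_lit 14592) (nb (nat_lit 1) (nat_lit 13440) (nb (nat_lit 1) (nat_lit 1216) (nb (nat_lit 1) (nat_lit 64) (nat_lit 0)))))⟩]⟩
def e406 : En := ⟨(nat_lit 24), (nat_lit 69632), (nat_lit 6), (nat_lit 30), [⟨(nat_lit 0), (nat_lit 2), (nb (nat_lit 1) (nat_lit 14592) (nb (nat_lit 1) (nat_lit 13440) (nb (nat_lit 1) (nat_lit 1216) (nb (nat_lit 1) (nat_lit 64) (nat_lit 0))))), (nb (nat_lit 1) (nat_lit 13376) (nat_lit 1))⟩]⟩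
def e407 : En := ⟨(nat_lit 26), (nat_lit 4352), (nat_lit 6), (nat_lit 30), [⟨(nat_lit 2), (nat_lit 4), (nb (nat_lit 1) (nat_lit 14592) (nb (nat_lit 1) (nat_lit 13440) (nb (nat_lit 1) (nat_lit 1216) (nb (nat_lit 1) (nat_lit 64) (nat_lit 0))))), (nb (nat_lit 1) (nat_lit 13376) (nat_lit 1))⟩]⟩
def e408 : En := ⟨(nat_lit 28), (nat_lit 272), (nat_lit 6), (nat_lit 30), [⟨(nat_lit 4), (nat_lit 6), (nb (nat_lit 1) (nat_lit 14592) (nb (nat_lit 1) (nat_lit 13440) (nb (nat_lit 1) (nat_lit 1216) (nb (nat_lit 1) (nat_lit 64) (nat_lit 0))))), (nb (nat_lit 1) (nat_lit 13376) (nat_lit 1))⟩]⟩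
def e409 : En := ⟨(nat_lit 77), (nat_lit 69905), (nat_lit 240), (nat_lit 1080), [⟨(nat_lit 0), (nat_lit 60), (nb (nat_lit 1) (nat_lit 1216) (nb (nat_lit 1) (nat_lit 64) (nat_lit 0))), (nat_lit 1)⟩, ⟨(nat_lit 2), (nat_lit 62), (nb (nat_lit 1) (nat_lit 1344) (nb (nat_lit 1) (nat_lit 192) (nat_lit 0))), (nat_lit 0x100000000000000000000000000000000)⟩, ⟨(nat_lit 4), (nat_lit 64), (nat_lit 0x1000000000000000100000000000000010000000000000002), (nb (nat_lit 0x1000000000000000100000000000000010000000000000001) (nat_lit 1216) (nat_lit 0))⟩, ⟨(nat_lit 6), (nat_lit 66), (nb (nat_lit 1) (nat_lit 1280) (nb (nat_lit 1) (nat_lit 128) (nat_lit 0))), (nat_lit 0x10000000000000000)⟩, ⟨(nat_lit 8), (nat_lit 68), (nb (nat_lit 1) (nat_lit 1408) (nat_lit 0)), (nat_lit 0x2000000000000000100000000000000010000000000000001)⟩, ⟨(nat_lit 10), (nat_lit 54), (nb (nat_lit 0x4000000000000000100000000000000010000000000000001) (nat_lit 15808) (nb (nat_lit 0x3000000000000000300000000000000030000000000000004)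 (nat_lit 2432) (nat_lit 0))), (nb (nat_lit 1) (nat_lit 17216) (nb (nat_lit 0x4000000000000000200000000000000020000000000000002) (nat_lit 14592) (nb (nat_lit 0x1000000000000000100000000000000010000000000000001) (nat_lit 3648) (nb (nat_lit 0x2000000000000000200000000000000020000000000000004) (nat_lit 1216) (nat_lit 0)))))⟩, ⟨(nat_lit 12), (nat_lit 56), (nb (nat_lit 3) (nat_lit 15808) (nb (nat_lit 2) (nat_lit 14656) (nb (nat_lit 1) (nat_lit 3712) (nb (nat_lit 1) (nat_lit 2560) (nb (nat_lit 2) (nat_lit 1280) (nat_lit 0)))))), (nb (nat_lit 1) (nat_lit 17024) (nb (nat_lit 1) (nat_lit 15872) (nb (nat_lit 2) (nat_lit 14592) (nb (nat_lit 3) (nat_lit 2496) (nb (nat_lit 2) (nat_lit 1344) (nat_lit 0))))))⟩, ⟨(nat_lit 14), (nat_lit 58), (nb (nat_lit 3) (nat_lit 15936) (nb (nat_lit 2) (nat_lit 14784) (nb (nat_lit 1) (nat_lit 3840) (nb (nat_lit 0x4000000000000000200000000000000020000000000000002) (nat_lit 1216) (nat_lit 0))))), (nb (nat_lit 1) (nat_lit 17152) (nb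 (nat_lit 1) (nat_lit 16000) (nb (nat_lit 2) (nat_lit 14720) (nb (nat_lit 0x4000000000000000100000000000000010000000000000001) (nat_lit 2432) (nat_lit 0)))))⟩, ⟨(nat_lit 16), (nat_lit 50), (nb (nat_lit 0x1000000000000000100000000000000010000000000000001) (nat_lit 17024) (nb (nat_lit 0x2000000000000000200000000000000020000000000000004) (nat_lit 14592) (nb (nat_lit 1) (nat_lit 3648) (nb (nat_lit 1) (nat_lit 2496) (nb (nat_lit 2) (nat_lit 1216) (nat_lit 0)))))), (nb (nat_lit 0x3000000000000000300000000000000030000000000000004) (nat_lit 15808) (nb (nat_lit 3) (nat_lit 2432) (nb (nat_lit 2) (nat_lit 1280) (nat_lit 0))))⟩, ⟨(nat_lit 18), (nat_lit 52), (nb (nat_lit 3) (nat_lit 15872) (nb (nat_lit 2) (nat_lit 14720) (nb (nat_lit 1) (nat_lit 3776) (nb (nat_lit 1) (nat_lit 2624) (nb (nat_lit 2) (nat_lit 1344) (nat_lit 0)))))), (nb (nat_lit 1) (nat_lit 17088) (nb (nat_lit 1) (nat_lit 15936) (nb (nat_lit 2) (nat_lit 14656) (nb (nat_lit 3) (nat_lit 2560) (nb (nat_lit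 2) (nat_lit 1408) (nat_lit 0))))))⟩, ⟨(nat_lit 20), (nat_lit 46), (nb (nat_lit 1) (nat_lit 14656) (nb (nat_lit 0x1000000000000000100000000000000010000000000000001) (nat_lit 2432) (nat_lit 0x2000000000000000200000000000000020000000000000002))), (nb (nat_lit 2) (nat_lit 13440) (nb (nat_lit 0x3000000000000000300000000000000030000000000000003) (nat_lit 1216) (nat_lit 0)))⟩, ⟨(nat_lit 22), (nat_lit 48), (nb (nat_lit 1) (nat_lit 14784) (nb (nat_lit 3) (nat_lit 1280) (nat_lit 0))), (nb (nat_lit 2) (nat_lit 13568) (nb (nat_lit 1) (nat_lit 2496) (nb (nat_lit 2) (nat_lit 64) (nat_lit 0))))⟩, ⟨(nat_lit 24), (nat_lit 40), (nb (nat_lit 1) (nat_lit 14592) (nb (nat_lit 3) (nat_lit 1408) (nat_lit 0))), (nb (nat_lit 2) (nat_lit 13376) (nb (nat_lit 1) (nat_lit 2624) (nb (nat_lit 2) (nat_lit 192) (nat_lit 0))))⟩, ⟨(nat_lit 26), (nat_lit 42), (nb (nat_lit 1) (nat_lit 14720) (nb (nat_lit 3) (nat_lit 1216) (nat_lit 0))), (nb (nat_lit 2) (nat_lit 13504) (nb (nat_lit 1)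 (nat_lit 2432) (nat_lit 2)))⟩, ⟨(nat_lit 28), (nat_lit 44), (nb (nat_lit 0x2000000000000000200000000000000020000000000000002) (nat_lit 13376) (nb (nat_lit 3) (nat_lit 1344) (nat_lit 0))), (nb (nat_lit 0x1000000000000000100000000000000010000000000000001) (nat_lit 14592) (nb (nat_lit 1) (nat_lit 2560) (nb (nat_lit 2) (nat_lit 128) (nat_lit 0))))⟩]⟩
def e410 : En := ⟨(nat_lit 60), (nat_lit 4369), (nat_lit 228), (nat_lit 10584), [⟨(nat_lit 2), (nat_lit 40), (nb (nat_lit 1) (nat_lit 189824) (nb (nat_lit 0x20000000000000002) (nat_lit 187328) (nb (nat_lit 3) (nat_lit 95040) (nb (nat_lit 0x300000000000000030000000000000001) (nat_lit 1280) (nat_lit 0))))), (nb (nat_lit 0x30000000000000001) (nat_lit 188544) (nb (nat_lit 1) (nat_lit 96256) (nb (nat_lit 2) (nat_lit 93824) (nb (nat_lit 0x10000000000000001) (nat_lit 2560) (nb (nat_lit 0x200000000000000020000000000000002) (nat_lit 64) (nat_lit 0))))))⟩, ⟨(nat_lit 4), (nat_lit 50), (nb (nat_lit 1) (nat_lit 97280)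 (nb (nat_lit 1) (nat_lit 96128) (nb (nat_lit 2) (nat_lit 94848) (nb (nat_lit 1) (nat_lit 3648) (nb (nat_lit 1) (nat_lit 2496) (nb (nat_lit 2) (nat_lit 1216) (nat_lit 0))))))), (nb (nat_lit 3) (nat_lit 96064) (nb (nat_lit 2) (nat_lit 94912) (nb (nat_lit 3) (nat_lit 2432) (nb (nat_lit 2) (nat_lit 1280) (nat_lit 0)))))⟩, ⟨(nat_lit 6), (nat_lit 56), (nb (nat_lit 1) (nat_lit 190912) (nb (nat_lit 1) (nat_lit 189760) (nb (nat_lit 2) (nat_lit 188480) (nb (nat_lit 1) (nat_lit 97280) (nb (nat_lit 1) (nat_lit 96128) (nb (nat_lit 2) (nat_lit 94848) (nat_lit 0))))))), (nb (nat_lit 3) (nat_lit 189696) (nb (nat_lit 2) (nat_lit 188544) (nb (nat_lit 3) (nat_lit 96064) (nb (nat_lit 2) (nat_lit 94912) (nat_lit 0)))))⟩, ⟨(nat_lit 8), (nat_lit 48), (nb (nat_lit 1) (nat_lit 189696) (nb (nat_lit 0x10000000000000001) (nat_lit 188544) (nb (nat_lit 2) (nat_lit 93824) (nb (nat_lit 2) (nat_lit 1216) (nb (nat_lit 0x200000000000000020000000000000002) (nat_lit 64) (nat_lit 0)))))),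 (nb (nat_lit 2) (nat_lit 188480) (nb (nat_lit 0x20000000000000002) (nat_lit 187328) (nb (nat_lit 1) (nat_lit 95040) (nb (nat_lit 1) (nat_lit 2432) (nb (nat_lit 0x100000000000000010000000000000001) (nat_lit 1280) (nat_lit 0))))))⟩, ⟨(nat_lit 10), (nat_lit 18), (nb (nat_lit 2) (nat_lit 189696) (nb (nat_lit 0x20000000000000002) (nat_lit 188544) (nb (nat_lit 0x1000000000000000400000000000000010000000000000001) (nat_lit 96064) (nb (nat_lit 0x10000000000000001) (nat_lit 3776) (nb (nat_lit 0x200000000000000020000000000000002) (nat_lit 1280) (nat_lit 0)))))), (nb (nat_lit 1) (nat_lit 190912) (nb (nat_lit 0x10000000000000001) (nat_lit 189760) (nb (nat_lit 1) (nat_lit 97408) (nb (nat_lit 0x2000000000000000400000000000000020000000000000002) (nat_lit 94848) (nb (nat_lit 0x300000000000000030000000000000001) (nat_lit 2496) (nat_lit 0))))))⟩, ⟨(nat_lit 14), (nat_lit 28), (nb (nat_lit 0x400000000000000010000000000000001) (nat_lit 189696) (nb (nat_lit 1) (nat_lit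 97472) (nb (nat_lit 4) (nat_lit 95040) (nb (nat_lit 0x10000000000000001) (nat_lit 3776) (nb (nat_lit 0x4000000000000000400000000000000020000000000000002) (nat_lit 1216) (nat_lit 0)))))), (nb (nat_lit 1) (nat_lit 191040) (nb (nat_lit 0x400000000000000020000000000000002) (nat_lit 188480) (nb (nat_lit 4) (nat_lit 96256) (nb (nat_lit 0x4000000000000000400000000000000010000000000000001) (nat_lit 2432) (nat_lit 0)))))⟩, ⟨(nat_lit 20), (nat_lit 26), (nb (nat_lit 0x30000000000000001) (nat_lit 188544) (nb (nat_lit 1) (nat_lit 97280) (nb (nat_lit 0x100000000000000000000000000000001) (nat_lit 96128) (nb (nat_lit 2) (nat_lit 94848) (nb (nat_lit 2) (nat_lit 93824) (nb (nat_lit 1) (nat_lit 3648) (nb (nat_lit 0x100000000000000010000000000000001) (nat_lit 2496) (nb (nat_lit 2) (nat_lit 1216) (nb (nat_lit 0x200000000000000020000000000000002) (nat_lit 64) (nat_lit 0)))))))))), (nb (nat_lit 1) (nat_lit 189824) (nb (nat_lit 0x20000000000000002) (nat_lit 187328) (nb (nat_lit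 3) (nat_lit 96064) (nb (nat_lit 0x300000000000000000000000000000002) (nat_lit 94912) (nb (nat_lit 3) (nat_lit 2432) (nb (nat_lit 0x300000000000000030000000000000003) (nat_lit 1280) (nat_lit 0)))))))⟩]⟩
def e411 : En := ⟨(nat_lit 62), (nat_lit 65809), (nat_lit 228), (nat_lit 10584), [⟨(nat_lit 0), (nat_lit 40), (nb (nat_lit 1) (nat_lit 189696) (nb (nat_lit 0x10000000000000001) (nat_lit 188544) (nb (nat_lit 2) (nat_lit 93824) (nb (nat_lit 2) (nat_lit 1216) (nb (nat_lit 0x200000000000000020000000000000002) (nat_lit 64) (nat_lit 0)))))), (nb (nat_lit 2) (nat_lit 188480) (nb (nat_lit 0x20000000000000002) (nat_lit 187328) (nb (nat_lit 1) (nat_lit 95040) (nb (nat_lit 1) (nat_lit 2432) (nb (nat_lit 0x100000000000000010000000000000001) (nat_lit 1280) (nat_lit 0))))))⟩, ⟨(nat_lit 4), (nat_lit 42), (nb (nat_lit 1) (nat_lit 189824) (nb (nat_lit 0x20000000000000002) (nat_lit 187328) (nb (nat_lit 3) (nat_lit 95040) (nb (nat_lit 0x300000000000000030000000000000001)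 (nat_lit 1280) (nat_lit 0))))), (nb (nat_lit 0x30000000000000001) (nat_lit 188544) (nb (nat_lit 1) (nat_lit 96256) (nb (nat_lit 2) (nat_lit 93824) (nb (nat_lit 0x10000000000000001) (nat_lit 2560) (nb (nat_lit 0x200000000000000020000000000000002) (nat_lit 64) (nat_lit 0))))))⟩, ⟨(nat_lit 6), (nat_lit 52), (nb (nat_lit 1) (nat_lit 97280) (nb (nat_lit 1) (nat_lit 96128) (nb (nat_lit 2) (nat_lit 94848) (nb (nat_lit 1) (nat_lit 3648) (nb (nat_lit 1) (nat_lit 2496) (nb (nat_lit 2) (nat_lit 1216) (nat_lit 0))))))), (nb (nat_lit 3) (nat_lit 96064) (nb (nat_lit 2) (nat_lit 94912) (nb (nat_lit 3) (nat_lit 2432) (nb (nat_lit 2) (nat_lit 1280) (nat_lit 0)))))⟩, ⟨(nat_lit 8), (nat_lit 58), (nb (nat_lit 1) (nat_lit 190912) (nb (nat_lit 1) (nat_lit 189760) (nb (nat_lit 2) (nat_lit 188480) (nb (nat_lit 1) (nat_lit 97280) (nb (nat_lit 1) (nat_lit 96128) (nb (nat_lit 2) (nat_lit 94848) (nat_lit 0))))))), (nb (nat_lit 3) (nat_lit 189696) (nb (nat_lit 2) (nat_lit 188544)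 (nb (nat_lit 3) (nat_lit 96064) (nb (nat_lit 2) (nat_lit 94912) (nat_lit 0)))))⟩, ⟨(nat_lit 10), (nat_lit 12), (nb (nat_lit 1) (nat_lit 190912) (nb (nat_lit 0x10000000000000001) (nat_lit 189760) (nb (nat_lit 1) (nat_lit 97408) (nb (nat_lit 0x2000000000000000400000000000000020000000000000002) (nat_lit 94848) (nb (nat_lit 0x300000000000000030000000000000001) (nat_lit 2496) (nat_lit 0)))))), (nb (nat_lit 2) (nat_lit 189696) (nb (nat_lit 0x20000000000000002) (nat_lit 188544) (nb (nat_lit 0x1000000000000000400000000000000010000000000000001) (nat_lit 96064) (nb (nat_lit 0x10000000000000001) (nat_lit 3776) (nb (nat_lit 0x200000000000000020000000000000002) (nat_lit 1280) (nat_lit 0))))))⟩, ⟨(nat_lit 16), (nat_lit 20), (nb (nat_lit 0x400000000000000010000000000000001) (nat_lit 189696) (nb (nat_lit 1) (nat_lit 97472) (nb (nat_lit 4) (nat_lit 95040) (nb (nat_lit 0x10000000000000001) (nat_lit 3776) (nb (nat_lit 0x4000000000000000400000000000000020000000000000002)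 (nat_lit 1216) (nat_lit 0)))))), (nb (nat_lit 1) (nat_lit 191040) (nb (nat_lit 0x400000000000000020000000000000002) (nat_lit 188480) (nb (nat_lit 4) (nat_lit 96256) (nb (nat_lit 0x4000000000000000400000000000000010000000000000001) (nat_lit 2432) (nat_lit 0)))))⟩, ⟨(nat_lit 22), (nat_lit 28), (nb (nat_lit 0x30000000000000001) (nat_lit 188544) (nb (nat_lit 1) (nat_lit 97280) (nb (nat_lit 0x100000000000000000000000000000001) (nat_lit 96128) (nb (nat_lit 2) (nat_lit 94848) (nb (nat_lit 2) (nat_lit 93824) (nb (nat_lit 1) (nat_lit 3648) (nb (nat_lit 0x100000000000000010000000000000001) (nat_lit 2496) (nb (nat_lit 2) (nat_lit 1216) (nb (nat_lit 0x200000000000000020000000000000002) (nat_lit 64) (nat_lit 0)))))))))), (nb (nat_lit 1) (nat_lit 189824) (nb (nat_lit 0x20000000000000002) (nat_lit 187328) (nb (nat_lit 3) (nat_lit 96064) (nb (nat_lit 0x300000000000000000000000000000002) (nat_lit 94912) (nb (nat_lit 3) (nat_lit 2432) (nb (nat_lit 0x300000000000000030000000000000003)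 (nat_lit 1280) (nat_lit 0)))))))⟩]⟩
def e412 : En := ⟨(nat_lit 64), (nat_lit 69649), (nat_lit 228), (nat_lit 10584), [⟨(nat_lit 0), (nat_lit 50), (nb (nat_lit 1) (nat_lit 190912) (nb (nat_lit 1) (nat_lit 189760) (nb (nat_lit 2) (nat_lit 188480) (nb (nat_lit 1) (nat_lit 97280) (nb (nat_lit 1) (nat_lit 96128) (nb (nat_lit 2) (nat_lit 94848) (nat_lit 0))))))), (nb (nat_lit 3) (nat_lit 189696) (nb (nat_lit 2) (nat_lit 188544) (nb (nat_lit 3) (nat_lit 96064) (nb (nat_lit 2) (nat_lit 94912) (nat_lit 0)))))⟩, ⟨(nat_lit 2), (nat_lit 42), (nb (nat_lit 1) (nat_lit 189696) (nb (nat_lit 0x10000000000000001) (nat_lit 188544) (nb (nat_lit 2) (nat_lit 93824) (nb (nat_lit 2) (nat_lit 1216) (nb (nat_lit 0x200000000000000020000000000000002) (nat_lit 64) (nat_lit 0)))))), (nb (nat_lit 2) (nat_lit 188480) (nb (nat_lit 0x20000000000000002) (nat_lit 187328) (nb (nat_lit 1) (nat_lit 95040) (nb (nat_lit 1) (nat_lit 2432) (nb (nat_lit 0x100000000000000010000000000000001)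 (nat_lit 1280) (nat_lit 0))))))⟩, ⟨(nat_lit 6), (nat_lit 44), (nb (nat_lit 1) (nat_lit 189824) (nb (nat_lit 0x20000000000000002) (nat_lit 187328) (nb (nat_lit 3) (nat_lit 95040) (nb (nat_lit 0x300000000000000030000000000000001) (nat_lit 1280) (nat_lit 0))))), (nb (nat_lit 0x30000000000000001) (nat_lit 188544) (nb (nat_lit 1) (nat_lit 96256) (nb (nat_lit 2) (nat_lit 93824) (nb (nat_lit 0x10000000000000001) (nat_lit 2560) (nb (nat_lit 0x200000000000000020000000000000002) (nat_lit 64) (nat_lit 0))))))⟩, ⟨(nat_lit 8), (nat_lit 54), (nb (nat_lit 1) (nat_lit 97280) (nb (nat_lit 1) (nat_lit 96128) (nb (nat_lit 2) (nat_lit 94848) (nb (nat_lit 1) (nat_lit 3648) (nb (nat_lit 1) (nat_lit 2496) (nb (nat_lit 2) (nat_lit 1216) (nat_lit 0))))))), (nb (nat_lit 3) (nat_lit 96064) (nb (nat_lit 2) (nat_lit 94912) (nb (nat_lit 3) (nat_lit 2432) (nb (nat_lit 2) (nat_lit 1280) (nat_lit 0)))))⟩, ⟨(nat_lit 12), (nat_lit 14), (nb (nat_lit 1) (nat_lit 190912) (nb (nat_lit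 0x10000000000000001) (nat_lit 189760) (nb (nat_lit 1) (nat_lit 97408) (nb (nat_lit 0x2000000000000000400000000000000020000000000000002) (nat_lit 94848) (nb (nat_lit 0x300000000000000030000000000000001) (nat_lit 2496) (nat_lit 0)))))), (nb (nat_lit 2) (nat_lit 189696) (nb (nat_lit 0x20000000000000002) (nat_lit 188544) (nb (nat_lit 0x1000000000000000400000000000000010000000000000001) (nat_lit 96064) (nb (nat_lit 0x10000000000000001) (nat_lit 3776) (nb (nat_lit 0x200000000000000020000000000000002) (nat_lit 1280) (nat_lit 0))))))⟩, ⟨(nat_lit 18), (nat_lit 22), (nb (nat_lit 0x400000000000000010000000000000001) (nat_lit 189696) (nb (nat_lit 1) (nat_lit 97472) (nb (nat_lit 4) (nat_lit 95040) (nb (nat_lit 0x10000000000000001) (nat_lit 3776) (nb (nat_lit 0x4000000000000000400000000000000020000000000000002) (nat_lit 1216) (nat_lit 0)))))), (nb (nat_lit 1) (nat_lit 191040) (nb (nat_lit 0x400000000000000020000000000000002) (nat_lit 188480) (nb (nat_lit 4) (nat_lit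 96256) (nb (nat_lit 0x4000000000000000400000000000000010000000000000001) (nat_lit 2432) (nat_lit 0)))))⟩, ⟨(nat_lit 20), (nat_lit 24), (nb (nat_lit 1) (nat_lit 189824) (nb (nat_lit 0x20000000000000002) (nat_lit 187328) (nb (nat_lit 3) (nat_lit 96064) (nb (nat_lit 0x300000000000000000000000000000002) (nat_lit 94912) (nb (nat_lit 3) (nat_lit 2432) (nb (nat_lit 0x300000000000000030000000000000003) (nat_lit 1280) (nat_lit 0))))))), (nb (nat_lit 0x30000000000000001) (nat_lit 188544) (nb (nat_lit 1) (nat_lit 97280) (nb (nat_lit 0x100000000000000000000000000000001) (nat_lit 96128) (nb (nat_lit 2) (nat_lit 94848) (nb (nat_lit 2) (nat_lit 93824) (nb (nat_lit 1) (nat_lit 3648) (nb (nat_lit 0x100000000000000010000000000000001) (nat_lit 2496) (nb (nat_lit 2) (nat_lit 1216) (nb (nat_lit 0x200000000000000020000000000000002) (nat_lit 64) (nat_lit 0))))))))))⟩]⟩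
def e413 : En := ⟨(nat_lit 66), (nat_lit 69889), (nat_lit 228), (nat_lit 10584), [⟨(nat_lit 0), (nat_lit 56), (nb (nat_lit 1) (nat_lit 97280) (nb (nat_lit 1) (nat_lit 96128) (nb (nat_lit 2) (nat_lit 94848) (nb (nat_lit 1) (nat_lit 3648) (nb (nat_lit 1) (nat_lit 2496) (nb (nat_lit 2) (nat_lit 1216) (nat_lit 0))))))), (nb (nat_lit 3) (nat_lit 96064) (nb (nat_lit 2) (nat_lit 94912) (nb (nat_lit 3) (nat_lit 2432) (nb (nat_lit 2) (nat_lit 1280) (nat_lit 0)))))⟩, ⟨(nat_lit 2), (nat_lit 52), (nb (nat_lit 1) (nat_lit 190912) (nb (nat_lit 1) (nat_lit 189760) (nb (nat_lit 2) (nat_lit 188480) (nb (nat_lit 1) (nat_lit 97280) (nb (nat_lit 1) (nat_lit 96128) (nb (nat_lit 2) (nat_lit 94848) (nat_lit 0))))))), (nb (nat_lit 3) (nat_lit 189696) (nb (nat_lit 2) (nat_lit 188544) (nb (nat_lit 3) (nat_lit 96064) (nb (nat_lit 2) (nat_lit 94912) (nat_lit 0)))))⟩, ⟨(nat_lit 4), (nat_lit 44), (nb (nat_lit 1) (nat_lit 189696) (nb (nat_lit 0x10000000000000001) (nat_lit 188544)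 (nb (nat_lit 2) (nat_lit 93824) (nb (nat_lit 2) (nat_lit 1216) (nb (nat_lit 0x200000000000000020000000000000002) (nat_lit 64) (nat_lit 0)))))), (nb (nat_lit 2) (nat_lit 188480) (nb (nat_lit 0x20000000000000002) (nat_lit 187328) (nb (nat_lit 1) (nat_lit 95040) (nb (nat_lit 1) (nat_lit 2432) (nb (nat_lit 0x100000000000000010000000000000001) (nat_lit 1280) (nat_lit 0))))))⟩, ⟨(nat_lit 8), (nat_lit 46), (nb (nat_lit 1) (nat_lit 189824) (nb (nat_lit 0x20000000000000002) (nat_lit 187328) (nb (nat_lit 3) (nat_lit 95040) (nb (nat_lit 0x300000000000000030000000000000001) (nat_lit 1280) (nat_lit 0))))), (nb (nat_lit 0x30000000000000001) (nat_lit 188544) (nb (nat_lit 1) (nat_lit 96256) (nb (nat_lit 2) (nat_lit 93824) (nb (nat_lit 0x10000000000000001) (nat_lit 2560) (nb (nat_lit 0x200000000000000020000000000000002) (nat_lit 64) (nat_lit 0))))))⟩, ⟨(nat_lit 10), (nat_lit 24), (nb (nat_lit 0x400000000000000010000000000000001) (nat_lit 189696) (nb (nat_lit 1) (nat_lit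 97472) (nb (nat_lit 4) (nat_lit 95040) (nb (nat_lit 0x10000000000000001) (nat_lit 3776) (nb (nat_lit 0x4000000000000000400000000000000020000000000000002) (nat_lit 1216) (nat_lit 0)))))), (nb (nat_lit 1) (nat_lit 191040) (nb (nat_lit 0x400000000000000020000000000000002) (nat_lit 188480) (nb (nat_lit 4) (nat_lit 96256) (nb (nat_lit 0x4000000000000000400000000000000010000000000000001) (nat_lit 2432) (nat_lit 0)))))⟩, ⟨(nat_lit 14), (nat_lit 16), (nb (nat_lit 1) (nat_lit 190912) (nb (nat_lit 0x10000000000000001) (nat_lit 189760) (nb (nat_lit 1) (nat_lit 97408) (nb (nat_lit 0x2000000000000000400000000000000020000000000000002) (nat_lit 94848) (nb (nat_lit 0x300000000000000030000000000000001) (nat_lit 2496) (nat_lit 0)))))), (nb (nat_lit 2) (nat_lit 189696) (nb (nat_lit 0x20000000000000002) (nat_lit 188544) (nb (nat_lit 0x1000000000000000400000000000000010000000000000001) (nat_lit 96064) (nb (nat_lit 0x10000000000000001) (nat_lit 3776) (nb (nat_lit 0x200000000000000020000000000000002)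 (nat_lit 1280) (nat_lit 0))))))⟩, ⟨(nat_lit 22), (nat_lit 26), (nb (nat_lit 1) (nat_lit 189824) (nb (nat_lit 0x20000000000000002) (nat_lit 187328) (nb (nat_lit 3) (nat_lit 96064) (nb (nat_lit 0x300000000000000000000000000000002) (nat_lit 94912) (nb (nat_lit 3) (nat_lit 2432) (nb (nat_lit 0x300000000000000030000000000000003) (nat_lit 1280) (nat_lit 0))))))), (nb (nat_lit 0x30000000000000001) (nat_lit 188544) (nb (nat_lit 1) (nat_lit 97280) (nb (nat_lit 0x100000000000000000000000000000001) (nat_lit 96128) (nb (nat_lit 2) (nat_lit 94848) (nb (nat_lit 2) (nat_lit 93824) (nb (nat_lit 1) (nat_lit 3648) (nb (nat_lit 0x100000000000000010000000000000001) (nat_lit 2496) (nb (nat_lit 2) (nat_lit 1216) (nb (nat_lit 0x200000000000000020000000000000002) (nat_lit 64) (nat_lit 0))))))))))⟩]⟩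
def e414 : En := ⟨(nat_lit 68), (nat_lit 69904), (nat_lit 228), (nat_lit 10584), [⟨(nat_lit 0), (nat_lit 48), (nb (nat_lit 1) (nat_lit 189824) (nb (nat_lit 0x20000000000000002) (nat_lit 187328) (nb (nat_lit 3) (nat_lit 95040) (nb (nat_lit 0x300000000000000030000000000000001) (nat_lit 1280) (nat_lit 0))))), (nb (nat_lit 0x30000000000000001) (nat_lit 188544) (nb (nat_lit 1) (nat_lit 96256) (nb (nat_lit 2) (nat_lit 93824) (nb (nat_lit 0x10000000000000001) (nat_lit 2560) (nb (nat_lit 0x200000000000000020000000000000002) (nat_lit 64) (nat_lit 0))))))⟩, ⟨(nat_lit 2), (nat_lit 58), (nb (nat_lit 1) (nat_lit 97280) (nb (nat_lit 1) (nat_lit 96128) (nb (nat_lit 2) (nat_lit 94848) (nb (nat_lit 1) (nat_lit 3648) (nb (nat_lit 1) (nat_lit 2496) (nb (nat_lit 2) (nat_lit 1216) (nat_lit 0))))))), (nb (nat_lit 3) (nat_lit 96064) (nb (nat_lit 2) (nat_lit 94912) (nb (nat_lit 3) (nat_lit 2432) (nb (nat_lit 2) (nat_lit 1280) (nat_lit 0)))))⟩, ⟨(nat_lit 4), (nat_lit 54),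 (nb (nat_lit 1) (nat_lit 190912) (nb (nat_lit 1) (nat_lit 189760) (nb (nat_lit 2) (nat_lit 188480) (nb (nat_lit 1) (nat_lit 97280) (nb (nat_lit 1) (nat_lit 96128) (nb (nat_lit 2) (nat_lit 94848) (nat_lit 0))))))), (nb (nat_lit 3) (nat_lit 189696) (nb (nat_lit 2) (nat_lit 188544) (nb (nat_lit 3) (nat_lit 96064) (nb (nat_lit 2) (nat_lit 94912) (nat_lit 0)))))⟩, ⟨(nat_lit 6), (nat_lit 46), (nb (nat_lit 1) (nat_lit 189696) (nb (nat_lit 0x10000000000000001) (nat_lit 188544) (nb (nat_lit 2) (nat_lit 93824) (nb (nat_lit 2) (nat_lit 1216) (nb (nat_lit 0x200000000000000020000000000000002) (nat_lit 64) (nat_lit 0)))))), (nb (nat_lit 2) (nat_lit 188480) (nb (nat_lit 0x20000000000000002) (nat_lit 187328) (nb (nat_lit 1) (nat_lit 95040) (nb (nat_lit 1) (nat_lit 2432) (nb (nat_lit 0x100000000000000010000000000000001) (nat_lit 1280) (nat_lit 0))))))⟩, ⟨(nat_lit 12), (nat_lit 26), (nb (nat_lit 0x400000000000000010000000000000001) (nat_lit 189696) (nb (nat_lit 1)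 (nat_lit 97472) (nb (nat_lit 4) (nat_lit 95040) (nb (nat_lit 0x10000000000000001) (nat_lit 3776) (nb (nat_lit 0x4000000000000000400000000000000020000000000000002) (nat_lit 1216) (nat_lit 0)))))), (nb (nat_lit 1) (nat_lit 191040) (nb (nat_lit 0x400000000000000020000000000000002) (nat_lit 188480) (nb (nat_lit 4) (nat_lit 96256) (nb (nat_lit 0x4000000000000000400000000000000010000000000000001) (nat_lit 2432) (nat_lit 0)))))⟩, ⟨(nat_lit 16), (nat_lit 18), (nb (nat_lit 1) (nat_lit 190912) (nb (nat_lit 0x10000000000000001) (nat_lit 189760) (nb (nat_lit 1) (nat_lit 97408) (nb (nat_lit 0x2000000000000000400000000000000020000000000000002) (nat_lit 94848) (nb (nat_lit 0x300000000000000030000000000000001) (nat_lit 2496) (nat_lit 0)))))), (nb (nat_lit 2) (nat_lit 189696) (nb (nat_lit 0x20000000000000002) (nat_lit 188544) (nb (nat_lit 0x1000000000000000400000000000000010000000000000001) (nat_lit 96064) (nb (nat_lit 0x10000000000000001) (nat_lit 3776) (nb (nat_lit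 0x200000000000000020000000000000002) (nat_lit 1280) (nat_lit 0))))))⟩, ⟨(nat_lit 24), (nat_lit 28), (nb (nat_lit 1) (nat_lit 189824) (nb (nat_lit 0x20000000000000002) (nat_lit 187328) (nb (nat_lit 3) (nat_lit 96064) (nb (nat_lit 0x300000000000000000000000000000002) (nat_lit 94912) (nb (nat_lit 3) (nat_lit 2432) (nb (nat_lit 0x300000000000000030000000000000003) (nat_lit 1280) (nat_lit 0))))))), (nb (nat_lit 0x30000000000000001) (nat_lit 188544) (nb (nat_lit 1) (nat_lit 97280) (nb (nat_lit 0x100000000000000000000000000000001) (nat_lit 96128) (nb (nat_lit 2) (nat_lit 94848) (nb (nat_lit 2) (nat_lit 93824) (nb (nat_lit 1) (nat_lit 3648) (nb (nat_lit 0x100000000000000010000000000000001) (nat_lit 2496) (nb (nat_lit 2) (nat_lit 1216) (nb (nat_lit 0x200000000000000020000000000000002) (nat_lit 64) (nat_lit 0))))))))))⟩]⟩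
def e415 : En := ⟨(nat_lit 40), (nat_lit 273), (nat_lit 24), (nat_lit 126), [⟨(nat_lit 4), (nat_lit 20), (nb (nat_lit 1) (nat_lit 94848) (nb (nat_lit 1) (nat_lit 93696) (nb (nat_lit 1) (nat_lit 1216) (nb (nat_lit 1) (nat_lit 64) (nat_lit 0))))), (nb (nat_lit 1) (nat_lit 93632) (nat_lit 1))⟩, ⟨(nat_lit 6), (nat_lit 10), (nb (nat_lit 1) (nat_lit 96064) (nb (nat_lit 1) (nat_lit 94912) (nb (nat_lit 1) (nat_lit 2432) (nb (nat_lit 1) (nat_lit 1280) (nat_lit 0))))), (nb (nat_lit 1) (nat_lit 94848) (nb (nat_lit 1) (nat_lit 1216) (nat_lit 0)))⟩, ⟨(nat_lit 8), (nat_lit 28), (nb (nat_lit 1) (nat_lit 96064) (nb (nat_lit 1) (nat_lit 94912) (nb (nat_lit 1) (nat_lit 93632) (nb (nat_lit 1) (nat_lit 2432) (nb (nat_lit 1) (nat_lit 1280) (nat_lit 1)))))), (nb (nat_lit 2) (nat_lit 94848) (nb (nat_lit 1) (nat_lit 93696) (nb (nat_lit 2) (nat_lit 1216) (nb (nat_lit 1) (nat_lit 64) (nat_lit 0)))))⟩]⟩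
def e416 : En := ⟨(nat_lit 42), (nat_lit 65553), (nat_lit 24), (nat_lit 126), [⟨(nat_lit 0), (nat_lit 20), (nb (nat_lit 1) (nat_lit 96064) (nb (nat_lit 1) (nat_lit 94912) (nb (nat_lit 1) (nat_lit 93632) (nb (nat_lit 1) (nat_lit 2432) (nb (nat_lit 1) (nat_lit 1280) (nat_lit 1)))))), (nb (nat_lit 2) (nat_lit 94848) (nb (nat_lit 1) (nat_lit 93696) (nb (nat_lit 2) (nat_lit 1216) (nb (nat_lit 1) (nat_lit 64) (nat_lit 0)))))⟩, ⟨(nat_lit 6), (nat_lit 22), (nb (nat_lit 1) (nat_lit 94848) (nb (nat_lit 1) (nat_lit 93696) (nb (nat_lit 1) (nat_lit 1216) (nb (nat_lit 1) (nat_lit 64) (nat_lit 0))))), (nb (nat_lit 1) (nat_lit 93632) (nat_lit 1))⟩, ⟨(nat_lit 8), (nat_lit 12), (nb (nat_lit 1) (nat_lit 96064) (nb (nat_lit 1) (nat_lit 94912) (nb (nat_lit 1) (nat_lit 2432) (nb (nat_lit 1) (nat_lit 1280) (nat_lit 0))))), (nb (nat_lit 1) (nat_lit 94848) (nb (nat_lit 1) (nat_lit 1216) (nat_lit 0)))⟩]⟩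
def e417 : En := ⟨(nat_lit 44), (nat_lit 69633), (nat_lit 24), (nat_lit 126), [⟨(nat_lit 0), (nat_lit 14), (nb (nat_lit 1) (nat_lit 96064) (nb (nat_lit 1) (nat_lit 94912) (nb (nat_lit 1) (nat_lit 2432) (nb (nat_lit 1) (nat_lit 1280) (nat_lit 0))))), (nb (nat_lit 1) (nat_lit 94848) (nb (nat_lit 1) (nat_lit 1216) (nat_lit 0)))⟩, ⟨(nat_lit 2), (nat_lit 22), (nb (nat_lit 1) (nat_lit 96064) (nb (nat_lit 1) (nat_lit 94912) (nb (nat_lit 1) (nat_lit 93632) (nb (nat_lit 1) (nat_lit 2432) (nb (nat_lit 1) (nat_lit 1280) (nat_lit 1)))))), (nb (nat_lit 2) (nat_lit 94848) (nb (nat_lit 1) (nat_lit 93696) (nb (nat_lit 2) (nat_lit 1216) (nb (nat_lit 1) (nat_lit 64) (nat_lit 0)))))⟩, ⟨(nat_lit 8), (nat_lit 24), (nb (nat_lit 1) (nat_lit 94848) (nb (nat_lit 1) (nat_lit 93696) (nb (nat_lit 1) (nat_lit 1216) (nb (nat_lit 1) (nat_lit 64) (nat_lit 0))))), (nb (nat_lit 1) (nat_lit 93632) (nat_lit 1))⟩]⟩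
def e418 : En := ⟨(nat_lit 46), (nat_lit 69888), (nat_lit 24), (nat_lit 126), [⟨(nat_lit 0), (nat_lit 26), (nb (nat_lit 1) (nat_lit 94848) (nb (nat_lit 1) (nat_lit 93696) (nb (nat_lit 1) (nat_lit 1216) (nb (nat_lit 1) (nat_lit 64) (nat_lit 0))))), (nb (nat_lit 1) (nat_lit 93632) (nat_lit 1))⟩, ⟨(nat_lit 2), (nat_lit 16), (nb (nat_lit 1) (nat_lit 96064) (nb (nat_lit 1) (nat_lit 94912) (nb (nat_lit 1) (nat_lit 2432) (nb (nat_lit 1) (nat_lit 1280) (nat_lit 0))))), (nb (nat_lit 1) (nat_lit 94848) (nb (nat_lit 1) (nat_lit 1216) (nat_lit 0)))⟩, ⟨(nat_lit 4), (nat_lit 24), (nb (nat_lit 1) (nat_lit 96064) (nb (nat_lit 1) (nat_lit 94912) (nb (nat_lit 1) (nat_lit 93632) (nb (nat_lit 1) (nat_lit 2432) (nb (nat_lit 1) (nat_lit 1280) (nat_lit 1)))))), (nb (nat_lit 2) (nat_lit 94848) (nb (nat_lit 1) (nat_lit 93696) (nb (nat_lit 2) (nat_lit 1216) (nb (nat_lit 1) (nat_lit 64) (nat_lit 0)))))⟩]⟩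
def e419 : En := ⟨(nat_lit 48), (nat_lit 4368), (nat_lit 24), (nat_lit 126), [⟨(nat_lit 2), (nat_lit 28), (nb (nat_lit 1) (nat_lit 94848) (nb (nat_lit 1) (nat_lit 93696) (nb (nat_lit 1) (nat_lit 1216) (nb (nat_lit 1) (nat_lit 64) (nat_lit 0))))), (nb (nat_lit 1) (nat_lit 93632) (nat_lit 1))⟩, ⟨(nat_lit 4), (nat_lit 18), (nb (nat_lit 1) (nat_lit 96064) (nb (nat_lit 1) (nat_lit 94912) (nb (nat_lit 1) (nat_lit 2432) (nb (nat_lit 1) (nat_lit 1280) (nat_lit 0))))), (nb (nat_lit 1) (nat_lit 94848) (nb (nat_lit 1) (nat_lit 1216) (nat_lit 0)))⟩, ⟨(nat_lit 6), (nat_lit 26), (nb (nat_lit 1) (nat_lit 96064) (nb (nat_lit 1) (nat_lit 94912) (nb (nat_lit 1) (nat_lit 93632) (nb (nat_lit 1) (nat_lit 2432) (nb (nat_lit 1) (nat_lit 1280) (nat_lit 1)))))), (nb (nat_lit 2) (nat_lit 94848) (nb (nat_lit 1) (nat_lit 93696) (nb (nat_lit 2) (nat_lit 1216) (nb (nat_lit 1) (nat_lit 64) (nat_lit 0)))))⟩]⟩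
def e420 : En := ⟨(nat_lit 50), (nat_lit 4113), (nat_lit 34), (nat_lit 168), [⟨(nat_lit 2), (nat_lit 20), (nb (nat_lit 1) (nat_lit 94848) (nb (nat_lit 1) (nat_lit 93696) (nb (nat_lit 1) (nat_lit 1216) (nb (nat_lit 1) (nat_lit 64) (nat_lit 0))))), (nb (nat_lit 1) (nat_lit 93632) (nat_lit 1))⟩, ⟨(nat_lit 6), (nat_lit 14), (nb (nat_lit 1) (nat_lit 94976) (nat_lit 0x2000000000000000200000000000000010000000000000001)), (nb (nat_lit 1) (nat_lit 94848) (nb (nat_lit 0x20000000000000002) (nat_lit 93696) (nb (nat_lit 0x10000000000000001) (nat_lit 1344) (nat_lit 0))))⟩, ⟨(nat_lit 8), (nat_lit 18), (nb (nat_lit 0x200000000000000010000000000000001) (nat_lit 93632) (nb (nat_lit 0x10000000000000001) (nat_lit 1344) (nat_lit 0))), (nb (nat_lit 1) (nat_lit 94976) (nb (nat_lit 1) (nat_lit 1216) (nb (nat_lit 0x200000000000000020000000000000002) (nat_lit 64) (nat_lit 0))))⟩]⟩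
def e421 : En := ⟨(nat_lit 52), (nat_lit 65793), (nat_lit 34), (nat_lit 168), [⟨(nat_lit 0), (nat_lit 10), (nb (nat_lit 0x200000000000000010000000000000001) (nat_lit 93632) (nb (nat_lit 0x10000000000000001) (nat_lit 1344) (nat_lit 0))), (nb (nat_lit 1) (nat_lit 94976) (nb (nat_lit 1) (nat_lit 1216) (nb (nat_lit 0x200000000000000020000000000000002) (nat_lit 64) (nat_lit 0))))⟩, ⟨(nat_lit 4), (nat_lit 22), (nb (nat_lit 1) (nat_lit 94848) (nb (nat_lit 1) (nat_lit 93696) (nb (nat_lit 1) (nat_lit 1216) (nb (nat_lit 1) (nat_lit 64) (nat_lit 0))))), (nb (nat_lit 1) (nat_lit 93632) (nat_lit 1))⟩, ⟨(nat_lit 8), (nat_lit 16), (nb (nat_lit 1) (nat_lit 94976) (nat_lit 0x2000000000000000200000000000000010000000000000001)), (nb (nat_lit 1) (nat_lit 94848) (nb (nat_lit 0x20000000000000002) (nat_lit 93696) (nb (nat_lit 0x10000000000000001) (nat_lit 1344) (nat_lit 0))))⟩]⟩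
def e422 : En := ⟨(nat_lit 54), (nat_lit 69648), (nat_lit 34), (nat_lit 168), [⟨(nat_lit 0), (nat_lit 18), (nb (nat_lit 1) (nat_lit 94976) (nat_lit 0x2000000000000000200000000000000010000000000000001)), (nb (nat_lit 1) (nat_lit 94848) (nb (nat_lit 0x20000000000000002) (nat_lit 93696) (nb (nat_lit 0x10000000000000001) (nat_lit 1344) (nat_lit 0))))⟩, ⟨(nat_lit 2), (nat_lit 12), (nb (nat_lit 0x200000000000000010000000000000001) (nat_lit 93632) (nb (nat_lit 0x10000000000000001) (nat_lit 1344) (nat_lit 0))), (nb (nat_lit 1) (nat_lit 94976) (nb (nat_lit 1) (nat_lit 1216) (nb (nat_lit 0x200000000000000020000000000000002) (nat_lit 64) (nat_lit 0))))⟩, ⟨(nat_lit 6), (nat_lit 24), (nb (nat_lit 1) (nat_lit 94848) (nb (nat_lit 1) (nat_lit 93696) (nb (nat_lit 1) (nat_lit 1216) (nb (nat_lit 1) (nat_lit 64) (nat_lit 0))))), (nb (nat_lit 1) (nat_lit 93632) (nat_lit 1))⟩]⟩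
def e423 : En := ⟨(nat_lit 56), (nat_lit 4353), (nat_lit 34), (nat_lit 168), [⟨(nat_lit 2), (nat_lit 10), (nb (nat_lit 1) (nat_lit 94976) (nat_lit 0x2000000000000000200000000000000010000000000000001)), (nb (nat_lit 1) (nat_lit 94848) (nb (nat_lit 0x20000000000000002) (nat_lit 93696) (nb (nat_lit 0x10000000000000001) (nat_lit 1344) (nat_lit 0))))⟩, ⟨(nat_lit 4), (nat_lit 14), (nb (nat_lit 0x200000000000000010000000000000001) (nat_lit 93632) (nb (nat_lit 0x10000000000000001) (nat_lit 1344) (nat_lit 0))), (nb (nat_lit 1) (nat_lit 94976) (nb (nat_lit 1) (nat_lit 1216) (nb (nat_lit 0x200000000000000020000000000000002) (nat_lit 64) (nat_lit 0))))⟩, ⟨(nat_lit 8), (nat_lit 26), (nb (nat_lit 1) (nat_lit 94848) (nb (nat_lit 1) (nat_lit 93696) (nb (nat_lit 1) (nat_lit 1216) (nb (nat_lit 1) (nat_lit 64) (nat_lit 0))))), (nb (nat_lit 1) (nat_lit 93632) (nat_lit 1))⟩]⟩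
def e424 : En := ⟨(nat_lit 58), (nat_lit 65808), (nat_lit 34), (nat_lit 168), [⟨(nat_lit 0), (nat_lit 28), (nb (nat_lit 1) (nat_lit 94848) (nb (nat_lit 1) (nat_lit 93696) (nb (nat_lit 1) (nat_lit 1216) (nb (nat_lit 1) (nat_lit 64) (nat_lit 0))))), (nb (nat_lit 1) (nat_lit 93632) (nat_lit 1))⟩, ⟨(nat_lit 4), (nat_lit 12), (nb (nat_lit 1) (nat_lit 94976) (nat_lit 0x2000000000000000200000000000000010000000000000001)), (nb (nat_lit 1) (nat_lit 94848) (nb (nat_lit 0x20000000000000002) (nat_lit 93696) (nb (nat_lit 0x10000000000000001) (nat_lit 1344) (nat_lit 0))))⟩, ⟨(nat_lit 6), (nat_lit 16), (nb (nat_lit 0x200000000000000010000000000000001) (nat_lit 93632) (nb (nat_lit 0x10000000000000001) (nat_lit 1344) (nat_lit 0))), (nb (nat_lit 1) (nat_lit 94976) (nb (nat_lit 1) (nat_lit 1216) (nb (nat_lit 0x200000000000000020000000000000002) (nat_lit 64) (nat_lit 0))))⟩]⟩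
def e425 : En := ⟨(nat_lit 10), (nat_lit 257), (nat_lit 6), (nat_lit 42), [⟨(nat_lit 4), (nat_lit 8), (nb (nat_lit 1) (nat_lit 94848) (nb (nat_lit 1) (nat_lit 93696) (nb (nat_lit 1) (nat_lit 1216) (nb (nat_lit 1) (nat_lit 64) (nat_lit 0))))), (nb (nat_lit 1) (nat_lit 93632) (nat_lit 1))⟩]⟩
def e426 : En := ⟨(nat_lit 12), (nat_lit 65552), (nat_lit 6), (nat_lit 42), [⟨(nat_lit 0), (nat_lit 6), (nb (nat_lit 1) (nat_lit 93632) (nat_lit 1)), (nb (nat_lit 1) (nat_lit 94848) (nb (nat_lit 1) (nat_lit 93696) (nb (nat_lit 1) (nat_lit 1216) (nb (nat_lit 1) (nat_lit 64) (nat_lit 0)))))⟩]⟩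
def e427 : En := ⟨(nat_lit 14), (nat_lit 4097), (nat_lit 6), (nat_lit 42), [⟨(nat_lit 2), (nat_lit 8), (nb (nat_lit 1) (nat_lit 93632) (nat_lit 1)), (nb (nat_lit 1) (nat_lit 94848) (nb (nat_lit 1) (nat_lit 93696) (nb (nat_lit 1) (nat_lit 1216) (nb (nat_lit 1) (nat_lit 64) (nat_lit 0)))))⟩]⟩
def e428 : En := ⟨(nat_lit 16), (nat_lit 65792), (nat_lit 6), (nat_lit 42), [⟨(nat_lit 0), (nat_lit 4), (nb (nat_lit 1) (nat_lit 94848) (nb (nat_lit 1) (nat_lit 93696) (nb (nat_lit 1) (nat_lit 1216) (nb (nat_lit 1) (nat_lit 64) (nat_lit 0))))), (nb (nat_lit 1) (nat_lit 93632) (nat_lit 1))⟩]⟩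
def e429 : En := ⟨(nat_lit 18), (nat_lit 4112), (nat_lit 6), (nat_lit 42), [⟨(nat_lit 2), (nat_lit 6), (nb (nat_lit 1) (nat_lit 94848) (nb (nat_lit 1) (nat_lit 93696) (nb (nat_lit 1) (nat_lit 1216) (nb (nat_lit 1) (nat_lit 64) (nat_lit 0))))), (nb (nat_lit 1) (nat_lit 93632) (nat_lit 1))⟩]⟩
def e430 : En := ⟨(nat_lit 20), (nat_lit 17), (nat_lit 6), (nat_lit 42), [⟨(nat_lit 6), (nat_lit 8), (nb (nat_lit 1) (nat_lit 94848) (nb (nat_lit 1) (nat_lit 93696) (nb (nat_lit 1) (nat_lit 1216) (nb (nat_lit 1) (nat_lit 64) (nat_lit 0))))), (nb (nat_lit 1) (nat_lit 93632) (nat_lit 1))⟩]⟩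
def e431 : En := ⟨(nat_lit 22), (nat_lit 65537), (nat_lit 6), (nat_lit 42), [⟨(nat_lit 0), (nat_lit 8), (nb (nat_lit 1) (nat_lit 93632) (nat_lit 1)), (nb (nat_lit 1) (nat_lit 94848) (nb (nat_lit 1) (nat_lit 93696) (nb (nat_lit 1) (nat_lit 1216) (nb (nat_lit 1) (nat_lit 64) (nat_lit 0)))))⟩]⟩
def e432 : En := ⟨(nat_lit 24), (nat_lit 69632), (nat_lit 6), (nat_lit 42), [⟨(nat_lit 0), (nat_lit 2), (nb (nat_lit 1) (nat_lit 94848) (nb (nat_lit 1) (nat_lit 93696) (nb (nat_lit 1) (nat_lit 1216) (nb (nat_lit 1) (nat_lit 64) (nat_lit 0))))), (nb (nat_lit 1) (nat_lit 93632) (nat_lit 1))⟩]⟩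
def e433 : En := ⟨(nat_lit 26), (nat_lit 4352), (nat_lit 6), (nat_lit 42), [⟨(nat_lit 2), (nat_lit 4), (nb (nat_lit 1) (nat_lit 94848) (nb (nat_lit 1) (nat_lit 93696) (nb (nat_lit 1) (nat_lit 1216) (nb (nat_lit 1) (nat_lit 64) (nat_lit 0))))), (nb (nat_lit 1) (nat_lit 93632) (nat_lit 1))⟩]⟩
def e434 : En := ⟨(nat_lit 28), (nat_lit 272), (nat_lit 6), (nat_lit 42), [⟨(nat_lit 4), (nat_lit 6), (nb (nat_lit 1) (nat_lit 94848) (nb (nat_lit 1) (nat_lit 93696) (nb (nat_lit 1) (nat_lit 1216) (nb (nat_lit 1) (nat_lit 64) (nat_lit 0))))), (nb (nat_lit 1) (nat_lit 93632) (nat_lit 1))⟩]⟩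
def e435 : En := ⟨(nat_lit 60), (nat_lit 4369), (nat_lit 50), (nat_lit 40), [⟨(nat_lit 2), (nat_lit 40), (nb (nat_lit 1) (nat_lit 13376) (nat_lit 0x1000000000000000100000000000000010000000000000001)), (nb (nat_lit 1) (nat_lit 13440) (nat_lit 0))⟩, ⟨(nat_lit 4), (nat_lit 50), (nat_lit 0x100000000000000000000000000000000), (nat_lit 1)⟩, ⟨(nat_lit 6), (nat_lit 56), (nat_lit 0), (nat_lit 0x1000000000000000100000000000000020000000000000001)⟩, ⟨(nat_lit 8), (nat_lit 48), (nb (nat_lit 0x1000000000000000100000000000000010000000000000002) (nat_lit 13376) (nat_lit 0x1000000000000000100000000000000020000000000000002)), (nat_lit 0)⟩, ⟨(nat_lit 10), (nat_lit 18), (nat_lit 0), (nb (nat_lit 0x1000000000000000200000000000000000000000000000002) (nat_lit 13376) (nat_lit 0x1000000000000000100000000000000010000000000000002))⟩, ⟨(nat_lit 14), (nat_lit 28), (nb (nat_lit 0x1000000000000000000000000000000020000000000000002) (nat_lit 13376) (nat_lit 0x1000000000000000100000000000000020000000000000001)),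 (nat_lit 0)⟩, ⟨(nat_lit 20), (nat_lit 26), (nb (nat_lit 1) (nat_lit 13440) (nat_lit 0)), (nb (nat_lit 1) (nat_lit 13376) (nat_lit 0x1000000000000000000000000000000010000000000000002))⟩]⟩
def e436 : En := ⟨(nat_lit 62), (nat_lit 65809), (nat_lit 50), (nat_lit 40), [⟨(nat_lit 0), (nat_lit 40), (nb (nat_lit 0x1000000000000000100000000000000010000000000000002) (nat_lit 13376) (nat_lit 0x1000000000000000100000000000000020000000000000002)), (nat_lit 0)⟩, ⟨(nat_lit 4), (nat_lit 42), (nb (nat_lit 1) (nat_lit 13376) (nat_lit 0x1000000000000000100000000000000010000000000000001)), (nb (nat_lit 1) (nat_lit 13440) (nat_lit 0))⟩, ⟨(nat_lit 6), (nat_lit 52), (nat_lit 0x100000000000000000000000000000000), (nat_lit 1)⟩, ⟨(nat_lit 8), (nat_lit 58), (nat_lit 0), (nat_lit 0x1000000000000000100000000000000020000000000000001)⟩, ⟨(nat_lit 10), (nat_lit 12), (nb (nat_lit 0x1000000000000000200000000000000000000000000000002) (nat_lit 13376) (nat_lit 0x1000000000000000100000000000000010000000000000002)),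 (nat_lit 0)⟩, ⟨(nat_lit 16), (nat_lit 20), (nb (nat_lit 0x1000000000000000000000000000000020000000000000002) (nat_lit 13376) (nat_lit 0x1000000000000000100000000000000020000000000000001)), (nat_lit 0)⟩, ⟨(nat_lit 22), (nat_lit 28), (nb (nat_lit 1) (nat_lit 13440) (nat_lit 0)), (nb (nat_lit 1) (nat_lit 13376) (nat_lit 0x1000000000000000000000000000000010000000000000002))⟩]⟩
def e437 : En := ⟨(nat_lit 64), (nat_lit 69649), (nat_lit 50), (nat_lit 40), [⟨(nat_lit 0), (nat_lit 50), (nat_lit 0), (nat_lit 0x1000000000000000100000000000000020000000000000001)⟩, ⟨(nat_lit 2), (nat_lit 42), (nb (nat_lit 0x1000000000000000100000000000000010000000000000002) (nat_lit 13376) (nat_lit 0x1000000000000000100000000000000020000000000000002)), (nat_lit 0)⟩, ⟨(nat_lit 6), (nat_lit 44), (nb (nat_lit 1) (nat_lit 13376) (nat_lit 0x1000000000000000100000000000000010000000000000001)), (nb (nat_lit 1) (nat_lit 13440) (nat_lit 0))⟩, ⟨(nat_lit 8), (nat_lit 54), (nat_lit 0x100000000000000000000000000000000),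 (nat_lit 1)⟩, ⟨(nat_lit 12), (nat_lit 14), (nb (nat_lit 0x1000000000000000200000000000000000000000000000002) (nat_lit 13376) (nat_lit 0x1000000000000000100000000000000010000000000000002)), (nat_lit 0)⟩, ⟨(nat_lit 18), (nat_lit 22), (nb (nat_lit 0x1000000000000000000000000000000020000000000000002) (nat_lit 13376) (nat_lit 0x1000000000000000100000000000000020000000000000001)), (nat_lit 0)⟩, ⟨(nat_lit 20), (nat_lit 24), (nb (nat_lit 1) (nat_lit 13376) (nat_lit 0x1000000000000000000000000000000010000000000000002)), (nb (nat_lit 1) (nat_lit 13440) (nat_lit 0))⟩]⟩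
def e438 : En := ⟨(nat_lit 66), (nat_lit 69889), (nat_lit 50), (nat_lit 40), [⟨(nat_lit 0), (nat_lit 56), (nat_lit 0x100000000000000000000000000000000), (nat_lit 1)⟩, ⟨(nat_lit 2), (nat_lit 52), (nat_lit 0), (nat_lit 0x1000000000000000100000000000000020000000000000001)⟩, ⟨(nat_lit 4), (nat_lit 44), (nb (nat_lit 0x1000000000000000100000000000000010000000000000002) (nat_lit 13376) (nat_lit 0x1000000000000000100000000000000020000000000000002)), (nat_lit 0)⟩, ⟨(nat_lit 8), (nat_lit 46), (nb (nat_lit 1) (nat_lit 13376) (nat_lit 0x1000000000000000100000000000000010000000000000001)), (nb (nat_lit 1) (nat_lit 13440) (nat_lit 0))⟩, ⟨(nat_lit 10), (nat_lit 24), (nb (nat_lit 0x1000000000000000000000000000000020000000000000002) (nat_lit 13376) (nat_lit 0x1000000000000000100000000000000020000000000000001)), (nat_lit 0)⟩, ⟨(nat_lit 14), (nat_lit 16), (nb (nat_lit 0x1000000000000000200000000000000000000000000000002) (nat_lit 13376) (nat_lit 0x1000000000000000100000000000000010000000000000002)),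 (nat_lit 0)⟩, ⟨(nat_lit 22), (nat_lit 26), (nb (nat_lit 1) (nat_lit 13376) (nat_lit 0x1000000000000000000000000000000010000000000000002)), (nb (nat_lit 1) (nat_lit 13440) (nat_lit 0))⟩]⟩
def e439 : En := ⟨(nat_lit 68), (nat_lit 69904), (nat_lit 50), (nat_lit 40), [⟨(nat_lit 0), (nat_lit 48), (nb (nat_lit 1) (nat_lit 13376) (nat_lit 0x1000000000000000100000000000000010000000000000001)), (nb (nat_lit 1) (nat_lit 13440) (nat_lit 0))⟩, ⟨(nat_lit 2), (nat_lit 58), (nat_lit 0x100000000000000000000000000000000), (nat_lit 1)⟩, ⟨(nat_lit 4), (nat_lit 54), (nat_lit 0), (nat_lit 0x1000000000000000100000000000000020000000000000001)⟩, ⟨(nat_lit 6), (nat_lit 46), (nb (nat_lit 0x1000000000000000100000000000000010000000000000002) (nat_lit 13376) (nat_lit 0x1000000000000000100000000000000020000000000000002)), (nat_lit 0)⟩, ⟨(nat_lit 12), (nat_lit 26), (nb (nat_lit 0x1000000000000000000000000000000020000000000000002) (nat_lit 13376) (nat_lit 0x1000000000000000100000000000000020000000000000001)),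 (nat_lit 0)⟩, ⟨(nat_lit 16), (nat_lit 18), (nb (nat_lit 0x1000000000000000200000000000000000000000000000002) (nat_lit 13376) (nat_lit 0x1000000000000000100000000000000010000000000000002)), (nat_lit 0)⟩, ⟨(nat_lit 24), (nat_lit 28), (nb (nat_lit 1) (nat_lit 13376) (nat_lit 0x1000000000000000000000000000000010000000000000002)), (nb (nat_lit 1) (nat_lit 13440) (nat_lit 0))⟩]⟩
def e440 : En := ⟨(nat_lit 40), (nat_lit 273), (nat_lit 4), (nat_lit 2), [⟨(nat_lit 4), (nat_lit 20), (nat_lit 1), (nat_lit 0)⟩, ⟨(nat_lit 6), (nat_lit 10), (nat_lit 1), (nat_lit 0x10000000000000000)⟩, ⟨(nat_lit 8), (nat_lit 28), (nat_lit 0), (nat_lit 0x10000000000000000)⟩]⟩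
def e441 : En := ⟨(nat_lit 42), (nat_lit 65553), (nat_lit 4), (nat_lit 2), [⟨(nat_lit 0), (nat_lit 20), (nat_lit 0), (nat_lit 0x10000000000000000)⟩, ⟨(nat_lit 6), (nat_lit 22), (nat_lit 1), (nat_lit 0)⟩, ⟨(nat_lit 8), (nat_lit 12), (nat_lit 1), (nat_lit 0x10000000000000000)⟩]⟩
def e442 : En := ⟨(nat_lit 44), (nat_lit 69633), (nat_lit 4), (nat_lit 2), [⟨(nat_lit 0), (nat_lit 14), (nat_lit 1), (nat_lit 0x10000000000000000)⟩, ⟨(nat_lit 2), (nat_lit 22), (nat_lit 0), (nat_lit 0x10000000000000000)⟩, ⟨(nat_lit 8), (nat_lit 24), (nat_lit 1), (nat_lit 0)⟩]⟩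
def e443 : En := ⟨(nat_lit 46), (nat_lit 69888), (nat_lit 4), (nat_lit 2), [⟨(nat_lit 0), (nat_lit 26), (nat_lit 1), (nat_lit 0)⟩, ⟨(nat_lit 2), (nat_lit 16), (nat_lit 1), (nat_lit 0x10000000000000000)⟩, ⟨(nat_lit 4), (nat_lit 24), (nat_lit 0), (nat_lit 0x10000000000000000)⟩]⟩
def e444 : En := ⟨(nat_lit 48), (nat_lit 4368), (nat_lit 4), (nat_lit 2), [⟨(nat_lit 2), (nat_lit 28), (nat_lit 1), (nat_lit 0)⟩, ⟨(nat_lit 4), (nat_lit 18), (nat_lit 1), (nat_lit 0x10000000000000000)⟩, ⟨(nat_lit 6), (nat_lit 26), (nat_lit 0), (nat_lit 0x10000000000000000)⟩]⟩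
def e445 : En := ⟨(nat_lit 60), (nat_lit 4369), (nat_lit 5396), (nat_lit 216), [⟨(nat_lit 2), (nat_lit 40), (nb (nat_lit 0xf00000000000000410000000000000014) (nat_lit 2432) (nb (nat_lit 40) (nat_lit 1408) (nat_lit 0x1400000000000000320000000000000064))), (nb (nat_lit 15) (nat_lit 2624) (nb (nat_lit 0x28000000000000009b000000000000005a) (nat_lit 1216) (nb (nat_lit 20) (nat_lit 192) (nat_lit 0))))⟩, ⟨(nat_lit 4), (nat_lit 50), (nb (nat_lit 55) (nat_lit 3648) (nb (nat_lit 0x500000000000000320000000000000046) (nat_lit 2496) (nb (nat_lit 50) (nat_lit 1216) (nat_lit 0)))), (nb (nat_lit 135) (nat_lit 2432) (nb (nat_lit 0xa0000000000000064000000000000008c) (nat_lit 1280) (nat_lit 0)))⟩, ⟨(nat_lit 6), (nat_lit 56), (nb (nat_lit 5) (nat_lit 3648) (nb (nat_lit 0x9100000000000000f00000000000000069000000000000002d) (nat_lit 2432) (nat_lit 0))), (nb (nat_lit 0x2d00000000000000410000000000000019) (nat_lit 3712) (nb (nat_lit 0x6e00000000000000dc000000000000006e000000000000006e)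 (nat_lit 1216) (nat_lit 0)))⟩, ⟨(nat_lit 8), (nat_lit 48), (nb (nat_lit 0x50000000000000008c000000000000004b0000000000000096) (nat_lit 1216) (nb (nat_lit 20) (nat_lit 192) (nat_lit 0))), (nb (nat_lit 0x2d000000000000004100000000000000190000000000000032) (nat_lit 2432) (nat_lit 0x1400000000000000320000000000000064))⟩, ⟨(nat_lit 10), (nat_lit 18), (nb (nat_lit 0x22000000000000002b00000000000000000000000000000006) (nat_lit 3648) (nb (nat_lit 0x14000000000000005a000000000000003c000000000000000a) (nat_lit 1216) (nat_lit 0))), (nb (nat_lit 8) (nat_lit 3712) (nb (nat_lit 0x4e0000000000000083000000000000000e0000000000000011) (nat_lit 2432) (nat_lit 0)))⟩, ⟨(nat_lit 14), (nat_lit 28), (nb (nat_lit 15) (nat_lit 3840) (nb (nat_lit 0xc3000000000000003c) (nat_lit 2432) (nb (nat_lit 0x8c0000000000000050) (nat_lit 1344) (nat_lit 0)))), (nb (nat_lit 0xf00000000000000410000000000000014) (nat_lit 3648) (nb (nat_lit 0x64000000000000000a) (nat_lit 2560) (nb (nat_lit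 0x820000000000000028) (nat_lit 1216) (nat_lit 0))))⟩, ⟨(nat_lit 20), (nat_lit 26), (nb (nat_lit 55) (nat_lit 3648) (nb (nat_lit 0x1400000000000000230000000000000005) (nat_lit 2496) (nb (nat_lit 0xf000000000000008c) (nat_lit 1216) (nb (nat_lit 20) (nat_lit 192) (nat_lit 0))))), (nb (nat_lit 155) (nat_lit 2432) (nb (nat_lit 0x32000000000000003c) (nat_lit 1344) (nat_lit 0x1400000000000000320000000000000064)))⟩]⟩
def e446 : En := ⟨(nat_lit 62), (nat_lit 65809), (nat_lit 5396), (nat_lit 216), [⟨(nat_lit 0), (nat_lit 40), (nb (nat_lit 0x50000000000000008c000000000000004b0000000000000096) (nat_lit 1216) (nb (nat_lit 20) (nat_lit 192) (nat_lit 0))), (nb (nat_lit 0x2d000000000000004100000000000000190000000000000032) (nat_lit 2432) (nat_lit 0x1400000000000000320000000000000064))⟩, ⟨(nat_lit 4), (nat_lit 42), (nb (nat_lit 0xf00000000000000410000000000000014) (nat_lit 2432) (nb (nat_lit 40) (nat_lit 1408) (nat_lit 0x1400000000000000320000000000000064))), (nb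 (nat_lit 15) (nat_lit 2624) (nb (nat_lit 0x28000000000000009b000000000000005a) (nat_lit 1216) (nb (nat_lit 20) (nat_lit 192) (nat_lit 0))))⟩, ⟨(nat_lit 6), (nat_lit 52), (nb (nat_lit 55) (nat_lit 3648) (nb (nat_lit 0x500000000000000320000000000000046) (nat_lit 2496) (nb (nat_lit 50) (nat_lit 1216) (nat_lit 0)))), (nb (nat_lit 135) (nat_lit 2432) (nb (nat_lit 0xa0000000000000064000000000000008c) (nat_lit 1280) (nat_lit 0)))⟩, ⟨(nat_lit 8), (nat_lit 58), (nb (nat_lit 5) (nat_lit 3648) (nb (nat_lit 0x9100000000000000f00000000000000069000000000000002d) (nat_lit 2432) (nat_lit 0))), (nb (nat_lit 0x2d00000000000000410000000000000019) (nat_lit 3712) (nb (nat_lit 0x6e00000000000000dc000000000000006e000000000000006e) (nat_lit 1216) (nat_lit 0)))⟩, ⟨(nat_lit 10), (nat_lit 12), (nb (nat_lit 8) (nat_lit 3712) (nb (nat_lit 0x4e0000000000000083000000000000000e0000000000000011) (nat_lit 2432) (nat_lit 0))), (nb (nat_lit 0x22000000000000002b00000000000000000000000000000006)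 (nat_lit 3648) (nb (nat_lit 0x14000000000000005a000000000000003c000000000000000a) (nat_lit 1216) (nat_lit 0)))⟩, ⟨(nat_lit 16), (nat_lit 20), (nb (nat_lit 15) (nat_lit 3840) (nb (nat_lit 0xc3000000000000003c) (nat_lit 2432) (nb (nat_lit 0x8c0000000000000050) (nat_lit 1344) (nat_lit 0)))), (nb (nat_lit 0xf00000000000000410000000000000014) (nat_lit 3648) (nb (nat_lit 0x64000000000000000a) (nat_lit 2560) (nb (nat_lit 0x820000000000000028) (nat_lit 1216) (nat_lit 0))))⟩, ⟨(nat_lit 22), (nat_lit 28), (nb (nat_lit 55) (nat_lit 3648) (nb (nat_lit 0x1400000000000000230000000000000005) (nat_lit 2496) (nb (nat_lit 0xf000000000000008c) (nat_lit 1216) (nb (nat_lit 20) (nat_lit 192) (nat_lit 0))))), (nb (nat_lit 155) (nat_lit 2432) (nb (nat_lit 0x32000000000000003c) (nat_lit 1344) (nat_lit 0x1400000000000000320000000000000064)))⟩]⟩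
def e447 : En := ⟨(nat_lit 64), (nat_lit 69649), (nat_lit 5396), (nat_lit 216), [⟨(nat_lit 0), (nat_lit 50), (nb (nat_lit 5) (nat_lit 3648) (nb (nat_lit 0x9100000000000000f00000000000000069000000000000002d) (nat_lit 2432) (nat_lit 0))), (nb (nat_lit 0x2d00000000000000410000000000000019) (nat_lit 3712) (nb (nat_lit 0x6e00000000000000dc000000000000006e000000000000006e) (nat_lit 1216) (nat_lit 0)))⟩, ⟨(nat_lit 2), (nat_lit 42), (nb (nat_lit 0x50000000000000008c000000000000004b0000000000000096) (nat_lit 1216) (nb (nat_lit 20) (nat_lit 192) (nat_lit 0))), (nb (nat_lit 0x2d000000000000004100000000000000190000000000000032) (nat_lit 2432) (nat_lit 0x1400000000000000320000000000000064))⟩, ⟨(nat_lit 6), (nat_lit 44), (nb (nat_lit 0xf00000000000000410000000000000014) (nat_lit 2432) (nb (nat_lit 40) (nat_lit 1408) (nat_lit 0x1400000000000000320000000000000064))), (nb (nat_lit 15) (nat_lit 2624) (nb (nat_lit 0x28000000000000009b000000000000005a) (nat_lit 1216)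 (nb (nat_lit 20) (nat_lit 192) (nat_lit 0))))⟩, ⟨(nat_lit 8), (nat_lit 54), (nb (nat_lit 55) (nat_lit 3648) (nb (nat_lit 0x500000000000000320000000000000046) (nat_lit 2496) (nb (nat_lit 50) (nat_lit 1216) (nat_lit 0)))), (nb (nat_lit 135) (nat_lit 2432) (nb (nat_lit 0xa0000000000000064000000000000008c) (nat_lit 1280) (nat_lit 0)))⟩, ⟨(nat_lit 12), (nat_lit 14), (nb (nat_lit 8) (nat_lit 3712) (nb (nat_lit 0x4e0000000000000083000000000000000e0000000000000011) (nat_lit 2432) (nat_lit 0))), (nb (nat_lit 0x22000000000000002b00000000000000000000000000000006) (nat_lit 3648) (nb (nat_lit 0x14000000000000005a000000000000003c000000000000000a) (nat_lit 1216) (nat_lit 0)))⟩, ⟨(nat_lit 18), (nat_lit 22), (nb (nat_lit 15) (nat_lit 3840) (nb (nat_lit 0xc3000000000000003c) (nat_lit 2432) (nb (nat_lit 0x8c0000000000000050) (nat_lit 1344) (nat_lit 0)))), (nb (nat_lit 0xf00000000000000410000000000000014) (nat_lit 3648) (nb (nat_lit 0x64000000000000000a) (nat_lit 2560)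 (nb (nat_lit 0x820000000000000028) (nat_lit 1216) (nat_lit 0))))⟩, ⟨(nat_lit 20), (nat_lit 24), (nb (nat_lit 155) (nat_lit 2432) (nb (nat_lit 0x32000000000000003c) (nat_lit 1344) (nat_lit 0x1400000000000000320000000000000064))), (nb (nat_lit 55) (nat_lit 3648) (nb (nat_lit 0x1400000000000000230000000000000005) (nat_lit 2496) (nb (nat_lit 0xf000000000000008c) (nat_lit 1216) (nb (nat_lit 20) (nat_lit 192) (nat_lit 0)))))⟩]⟩
def e448 : En := ⟨(nat_lit 66), (nat_lit 69889), (nat_lit 5396), (nat_lit 216), [⟨(nat_lit 0), (nat_lit 56), (nb (nat_lit 55) (nat_lit 3648) (nb (nat_lit 0x500000000000000320000000000000046) (nat_lit 2496) (nb (nat_lit 50) (nat_lit 1216) (nat_lit 0)))), (nb (nat_lit 135) (nat_lit 2432) (nb (nat_lit 0xa0000000000000064000000000000008c) (nat_lit 1280) (nat_lit 0)))⟩, ⟨(nat_lit 2), (nat_lit 52), (nb (nat_lit 5) (nat_lit 3648) (nb (nat_lit 0x9100000000000000f00000000000000069000000000000002d) (nat_lit 2432) (nat_lit 0))), (nb (nat_lit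 0x2d00000000000000410000000000000019) (nat_lit 3712) (nb (nat_lit 0x6e00000000000000dc000000000000006e000000000000006e) (nat_lit 1216) (nat_lit 0)))⟩, ⟨(nat_lit 4), (nat_lit 44), (nb (nat_lit 0x50000000000000008c000000000000004b0000000000000096) (nat_lit 1216) (nb (nat_lit 20) (nat_lit 192) (nat_lit 0))), (nb (nat_lit 0x2d000000000000004100000000000000190000000000000032) (nat_lit 2432) (nat_lit 0x1400000000000000320000000000000064))⟩, ⟨(nat_lit 8), (nat_lit 46), (nb (nat_lit 0xf00000000000000410000000000000014) (nat_lit 2432) (nb (nat_lit 40) (nat_lit 1408) (nat_lit 0x1400000000000000320000000000000064))), (nb (nat_lit 15) (nat_lit 2624) (nb (nat_lit 0x28000000000000009b000000000000005a) (nat_lit 1216) (nb (nat_lit 20) (nat_lit 192) (nat_lit 0))))⟩, ⟨(nat_lit 10), (nat_lit 24), (nb (nat_lit 15) (nat_lit 3840) (nb (nat_lit 0xc3000000000000003c) (nat_lit 2432) (nb (nat_lit 0x8c0000000000000050) (nat_lit 1344) (nat_lit 0)))), (nb (nat_lit 0xf00000000000000410000000000000014)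 (nat_lit 3648) (nb (nat_lit 0x64000000000000000a) (nat_lit 2560) (nb (nat_lit 0x820000000000000028) (nat_lit 1216) (nat_lit 0))))⟩, ⟨(nat_lit 14), (nat_lit 16), (nb (nat_lit 8) (nat_lit 3712) (nb (nat_lit 0x4e0000000000000083000000000000000e0000000000000011) (nat_lit 2432) (nat_lit 0))), (nb (nat_lit 0x22000000000000002b00000000000000000000000000000006) (nat_lit 3648) (nb (nat_lit 0x14000000000000005a000000000000003c000000000000000a) (nat_lit 1216) (nat_lit 0)))⟩, ⟨(nat_lit 22), (nat_lit 26), (nb (nat_lit 155) (nat_lit 2432) (nb (nat_lit 0x32000000000000003c) (nat_lit 1344) (nat_lit 0x1400000000000000320000000000000064))), (nb (nat_lit 55) (nat_lit 3648) (nb (nat_lit 0x1400000000000000230000000000000005) (nat_lit 2496) (nb (nat_lit 0xf000000000000008c) (nat_lit 1216) (nb (nat_lit 20) (nat_lit 192) (nat_lit 0)))))⟩]⟩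
def e449 : En := ⟨(nat_lit 68), (nat_lit 69904), (nat_lit 5396), (nat_lit 216), [⟨(nat_lit 0), (nat_lit 48), (nb (nat_lit 0xf00000000000000410000000000000014) (nat_lit 2432) (nb (nat_lit 40) (nat_lit 1408) (nat_lit 0x1400000000000000320000000000000064))), (nb (nat_lit 15) (nat_lit 2624) (nb (nat_lit 0x28000000000000009b000000000000005a) (nat_lit 1216) (nb (nat_lit 20) (nat_lit 192) (nat_lit 0))))⟩, ⟨(nat_lit 2), (nat_lit 58), (nb (nat_lit 55) (nat_lit 3648) (nb (nat_lit 0x500000000000000320000000000000046) (nat_lit 2496) (nb (nat_lit 50) (nat_lit 1216) (nat_lit 0)))), (nb (nat_lit 135) (nat_lit 2432) (nb (nat_lit 0xa0000000000000064000000000000008c) (nat_lit 1280) (nat_lit 0)))⟩, ⟨(nat_lit 4), (nat_lit 54), (nb (nat_lit 5) (nat_lit 3648) (nb (nat_lit 0x9100000000000000f00000000000000069000000000000002d) (nat_lit 2432) (nat_lit 0))), (nb (nat_lit 0x2d00000000000000410000000000000019) (nat_lit 3712) (nb (nat_lit 0x6e00000000000000dc000000000000006e000000000000006e)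 (nat_lit 1216) (nat_lit 0)))⟩, ⟨(nat_lit 6), (nat_lit 46), (nb (nat_lit 0x50000000000000008c000000000000004b0000000000000096) (nat_lit 1216) (nb (nat_lit 20) (nat_lit 192) (nat_lit 0))), (nb (nat_lit 0x2d000000000000004100000000000000190000000000000032) (nat_lit 2432) (nat_lit 0x1400000000000000320000000000000064))⟩, ⟨(nat_lit 12), (nat_lit 26), (nb (nat_lit 15) (nat_lit 3840) (nb (nat_lit 0xc3000000000000003c) (nat_lit 2432) (nb (nat_lit 0x8c0000000000000050) (nat_lit 1344) (nat_lit 0)))), (nb (nat_lit 0xf00000000000000410000000000000014) (nat_lit 3648) (nb (nat_lit 0x64000000000000000a) (nat_lit 2560) (nb (nat_lit 0x820000000000000028) (nat_lit 1216) (nat_lit 0))))⟩, ⟨(nat_lit 16), (nat_lit 18), (nb (nat_lit 8) (nat_lit 3712) (nb (nat_lit 0x4e0000000000000083000000000000000e0000000000000011) (nat_lit 2432) (nat_lit 0))), (nb (nat_lit 0x22000000000000002b00000000000000000000000000000006) (nat_lit 3648) (nb (nat_lit 0x14000000000000005a000000000000003c000000000000000a)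 (nat_lit 1216) (nat_lit 0)))⟩, ⟨(nat_lit 24), (nat_lit 28), (nb (nat_lit 155) (nat_lit 2432) (nb (nat_lit 0x32000000000000003c) (nat_lit 1344) (nat_lit 0x1400000000000000320000000000000064))), (nb (nat_lit 55) (nat_lit 3648) (nb (nat_lit 0x1400000000000000230000000000000005) (nat_lit 2496) (nb (nat_lit 0xf000000000000008c) (nat_lit 1216) (nb (nat_lit 20) (nat_lit 192) (nat_lit 0)))))⟩]⟩
def e450 : En := ⟨(nat_lit 40), (nat_lit 273), (nat_lit 820), (nat_lit 72), [⟨(nat_lit 4), (nat_lit 20), (nb (nat_lit 55) (nat_lit 1216) (nb (nat_lit 0x500000000000000320000000000000046) (nat_lit 64) (nat_lit 0))), (nat_lit 25)⟩, ⟨(nat_lit 6), (nat_lit 10), (nb (nat_lit 55) (nat_lit 2432) (nb (nat_lit 0x500000000000000320000000000000046) (nat_lit 1280) (nat_lit 0))), (nb (nat_lit 25) (nat_lit 1216) (nat_lit 0))⟩, ⟨(nat_lit 8), (nat_lit 28), (nb (nat_lit 55) (nat_lit 2432) (nb (nat_lit 0x500000000000000320000000000000046) (nat_lit 1280) (nat_lit 25))), (nb (nat_lit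 80) (nat_lit 1216) (nb (nat_lit 0x500000000000000320000000000000046) (nat_lit 64) (nat_lit 0)))⟩]⟩
def e451 : En := ⟨(nat_lit 42), (nat_lit 65553), (nat_lit 820), (nat_lit 72), [⟨(nat_lit 0), (nat_lit 20), (nb (nat_lit 55) (nat_lit 2432) (nb (nat_lit 0x500000000000000320000000000000046) (nat_lit 1280) (nat_lit 25))), (nb (nat_lit 80) (nat_lit 1216) (nb (nat_lit 0x500000000000000320000000000000046) (nat_lit 64) (nat_lit 0)))⟩, ⟨(nat_lit 6), (nat_lit 22), (nb (nat_lit 55) (nat_lit 1216) (nb (nat_lit 0x500000000000000320000000000000046) (nat_lit 64) (nat_lit 0))), (nat_lit 25)⟩, ⟨(nat_lit 8), (nat_lit 12), (nb (nat_lit 55) (nat_lit 2432) (nb (nat_lit 0x500000000000000320000000000000046) (nat_lit 1280) (nat_lit 0))), (nb (nat_lit 25) (nat_lit 1216) (nat_lit 0))⟩]⟩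
def e452 : En := ⟨(nat_lit 44), (nat_lit 69633), (nat_lit 820), (nat_lit 72), [⟨(nat_lit 0), (nat_lit 14), (nb (nat_lit 55) (nat_lit 2432) (nb (nat_lit 0x500000000000000320000000000000046) (nat_lit 1280) (nat_lit 0))), (nb (nat_lit 25) (nat_lit 1216) (nat_lit 0))⟩, ⟨(nat_lit 2), (nat_lit 22), (nb (nat_lit 55) (nat_lit 2432) (nb (nat_lit 0x500000000000000320000000000000046) (nat_lit 1280) (nat_lit 25))), (nb (nat_lit 80) (nat_lit 1216) (nb (nat_lit 0x500000000000000320000000000000046) (nat_lit 64) (nat_lit 0)))⟩, ⟨(nat_lit 8), (nat_lit 24), (nb (nat_lit 55) (nat_lit 1216) (nb (nat_lit 0x500000000000000320000000000000046) (nat_lit 64) (nat_lit 0))), (nat_lit 25)⟩]⟩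
def e453 : En := ⟨(nat_lit 46), (nat_lit 69888), (nat_lit 820), (nat_lit 72), [⟨(nat_lit 0), (nat_lit 26), (nb (nat_lit 55) (nat_lit 1216) (nb (nat_lit 0x500000000000000320000000000000046) (nat_lit 64) (nat_lit 0))), (nat_lit 25)⟩, ⟨(nat_lit 2), (nat_lit 16), (nb (nat_lit 55) (nat_lit 2432) (nb (nat_lit 0x500000000000000320000000000000046) (nat_lit 1280) (nat_lit 0))), (nb (nat_lit 25) (nat_lit 1216) (nat_lit 0))⟩, ⟨(nat_lit 4), (nat_lit 24), (nb (nat_lit 55) (nat_lit 2432) (nb (nat_lit 0x500000000000000320000000000000046) (nat_lit 1280) (nat_lit 25))), (nb (nat_lit 80) (nat_lit 1216) (nb (nat_lit 0x500000000000000320000000000000046) (nat_lit 64) (nat_lit 0)))⟩]⟩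
def e454 : En := ⟨(nat_lit 48), (nat_lit 4368), (nat_lit 820), (nat_lit 72), [⟨(nat_lit 2), (nat_lit 28), (nb (nat_lit 55) (nat_lit 1216) (nb (nat_lit 0x500000000000000320000000000000046) (nat_lit 64) (nat_lit 0))), (nat_lit 25)⟩, ⟨(nat_lit 4), (nat_lit 18), (nb (nat_lit 55) (nat_lit 2432) (nb (nat_lit 0x500000000000000320000000000000046) (nat_lit 1280) (nat_lit 0))), (nb (nat_lit 25) (nat_lit 1216) (nat_lit 0))⟩, ⟨(nat_lit 6), (nat_lit 26), (nb (nat_lit 55) (nat_lit 2432) (nb (nat_lit 0x500000000000000320000000000000046) (nat_lit 1280) (nat_lit 25))), (nb (nat_lit 80) (nat_lit 1216) (nb (nat_lit 0x500000000000000320000000000000046) (nat_lit 64) (nat_lit 0)))⟩]⟩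
def e455 : En := ⟨(nat_lit 50), (nat_lit 4113), (nat_lit 612), (nat_lit 24), [⟨(nat_lit 2), (nat_lit 20), (nb (nat_lit 55) (nat_lit 1216) (nb (nat_lit 0x500000000000000320000000000000046) (nat_lit 64) (nat_lit 0))), (nat_lit 25)⟩, ⟨(nat_lit 6), (nat_lit 14), (nb (nat_lit 0xb00000000000000160000000000000021) (nat_lit 1280) (nb (nat_lit 15) (nat_lit 192) (nat_lit 0))), (nb (nat_lit 11) (nat_lit 1216) (nat_lit 0xf00000000000000410000000000000014))⟩, ⟨(nat_lit 8), (nat_lit 18), (nat_lit 45), (nb (nat_lit 0xb00000000000000160000000000000021000000000000002c) (nat_lit 1216) (nb (nat_lit 0x1400000000000000230000000000000005) (nat_lit 64) (nat_lit 0)))⟩]⟩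
def e456 : En := ⟨(nat_lit 52), (nat_lit 65793), (nat_lit 612), (nat_lit 24), [⟨(nat_lit 0), (nat_lit 10), (nat_lit 45), (nb (nat_lit 0xb00000000000000160000000000000021000000000000002c) (nat_lit 1216) (nb (nat_lit 0x1400000000000000230000000000000005) (nat_lit 64) (nat_lit 0)))⟩, ⟨(nat_lit 4), (nat_lit 22), (nb (nat_lit 55) (nat_lit 1216) (nb (nat_lit 0x500000000000000320000000000000046) (nat_lit 64) (nat_lit 0))), (nat_lit 25)⟩, ⟨(nat_lit 8), (nat_lit 16), (nb (nat_lit 0xb00000000000000160000000000000021) (nat_lit 1280) (nb (nat_lit 15) (nat_lit 192) (nat_lit 0))), (nb (nat_lit 11) (nat_lit 1216) (nat_lit 0xf00000000000000410000000000000014))⟩]⟩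
def e457 : En := ⟨(nat_lit 54), (nat_lit 69648), (nat_lit 612), (nat_lit 24), [⟨(nat_lit 0), (nat_lit 18), (nb (nat_lit 0xb00000000000000160000000000000021) (nat_lit 1280) (nb (nat_lit 15) (nat_lit 192) (nat_lit 0))), (nb (nat_lit 11) (nat_lit 1216) (nat_lit 0xf00000000000000410000000000000014))⟩, ⟨(nat_lit 2), (nat_lit 12), (nat_lit 45), (nb (nat_lit 0xb00000000000000160000000000000021000000000000002c) (nat_lit 1216) (nb (nat_lit 0x1400000000000000230000000000000005) (nat_lit 64) (nat_lit 0)))⟩, ⟨(nat_lit 6), (nat_lit 24), (nb (nat_lit 55) (nat_lit 1216) (nb (nat_lit 0x500000000000000320000000000000046) (nat_lit 64) (nat_lit 0))), (nat_lit 25)⟩]⟩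
def e458 : En := ⟨(nat_lit 56), (nat_lit 4353), (nat_lit 612), (nat_lit 24), [⟨(nat_lit 2), (nat_lit 10), (nb (nat_lit 0xb00000000000000160000000000000021) (nat_lit 1280) (nb (nat_lit 15) (nat_lit 192) (nat_lit 0))), (nb (nat_lit 11) (nat_lit 1216) (nat_lit 0xf00000000000000410000000000000014))⟩, ⟨(nat_lit 4), (nat_lit 14), (nat_lit 45), (nb (nat_lit 0xb00000000000000160000000000000021000000000000002c) (nat_lit 1216) (nb (nat_lit 0x1400000000000000230000000000000005) (nat_lit 64) (nat_lit 0)))⟩, ⟨(nat_lit 8), (nat_lit 26), (nb (nat_lit 55) (nat_lit 1216) (nb (nat_lit 0x500000000000000320000000000000046) (nat_lit 64) (nat_lit 0))), (nat_lit 25)⟩]⟩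
def e459 : En := ⟨(nat_lit 58), (nat_lit 65808), (nat_lit 612), (nat_lit 24), [⟨(nat_lit 0), (nat_lit 28), (nb (nat_lit 55) (nat_lit 1216) (nb (nat_lit 0x500000000000000320000000000000046) (nat_lit 64) (nat_lit 0))), (nat_lit 25)⟩, ⟨(nat_lit 4), (nat_lit 12), (nb (nat_lit 0xb00000000000000160000000000000021) (nat_lit 1280) (nb (nat_lit 15) (nat_lit 192) (nat_lit 0))), (nb (nat_lit 11) (nat_lit 1216) (nat_lit 0xf00000000000000410000000000000014))⟩, ⟨(nat_lit 6), (nat_lit 16), (nat_lit 45), (nb (nat_lit 0xb00000000000000160000000000000021000000000000002c) (nat_lit 1216) (nb (nat_lit 0x1400000000000000230000000000000005) (nat_lit 64) (nat_lit 0)))⟩]⟩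
def e460 : En := ⟨(nat_lit 10), (nat_lit 257), (nat_lit 205), (nat_lit 24), [⟨(nat_lit 4), (nat_lit 8), (nb (nat_lit 55) (nat_lit 1216) (nb (nat_lit 0x500000000000000320000000000000046) (nat_lit 64) (nat_lit 0))), (nat_lit 25)⟩]⟩
def e461 : En := ⟨(nat_lit 12), (nat_lit 65552), (nat_lit 205), (nat_lit 24), [⟨(nat_lit 0), (nat_lit 6), (nat_lit 25), (nb (nat_lit 55) (nat_lit 1216) (nb (nat_lit 0x500000000000000320000000000000046) (nat_lit 64) (nat_lit 0)))⟩]⟩
def e462 : En := ⟨(nat_lit 14), (nat_lit 4097), (nat_lit 205), (nat_lit 24), [⟨(nat_lit 2), (nat_lit 8), (nat_lit 25), (nb (nat_lit 55) (nat_lit 1216) (nb (nat_lit 0x500000000000000320000000000000046) (nat_lit 64) (nat_lit 0)))⟩]⟩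
def e463 : En := ⟨(nat_lit 16), (nat_lit 65792), (nat_lit 205), (nat_lit 24), [⟨(nat_lit 0), (nat_lit 4), (nb (nat_lit 55) (nat_lit 1216) (nb (nat_lit 0x500000000000000320000000000000046) (nat_lit 64) (nat_lit 0))), (nat_lit 25)⟩]⟩
def e464 : En := ⟨(nat_lit 18), (nat_lit 4112), (nat_lit 205), (nat_lit 24), [⟨(nat_lit 2), (nat_lit 6), (nb (nat_lit 55) (nat_lit 1216) (nb (nat_lit 0x500000000000000320000000000000046) (nat_lit 64) (nat_lit 0))), (nat_lit 25)⟩]⟩
def e465 : En := ⟨(nat_lit 20), (nat_lit 17), (nat_lit 205), (nat_lit 24), [⟨(nat_lit 6), (nat_lit 8), (nb (nat_lit 55) (nat_lit 1216) (nb (nat_lit 0x500000000000000320000000000000046) (nat_lit 64) (nat_lit 0))), (nat_lit 25)⟩]⟩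
def e466 : En := ⟨(nat_lit 22), (nat_lit 65537), (nat_lit 205), (nat_lit 24), [⟨(nat_lit 0), (nat_lit 8), (nat_lit 25), (nb (nat_lit 55) (nat_lit 1216) (nb (nat_lit 0x500000000000000320000000000000046) (nat_lit 64) (nat_lit 0)))⟩]⟩
def e467 : En := ⟨(nat_lit 24), (nat_lit 69632), (nat_lit 205), (nat_lit 24), [⟨(nat_lit 0), (nat_lit 2), (nb (nat_lit 55) (nat_lit 1216) (nb (nat_lit 0x500000000000000320000000000000046) (nat_lit 64) (nat_lit 0))), (nat_lit 25)⟩]⟩
def e468 : En := ⟨(nat_lit 26), (nat_lit 4352), (nat_lit 205), (nat_lit 24), [⟨(nat_lit 2), (nat_lit 4), (nb (nat_lit 55) (nat_lit 1216) (nb (nat_lit 0x500000000000000320000000000000046) (nat_lit 64) (nat_lit 0))), (nat_lit 25)⟩]⟩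
def e469 : En := ⟨(nat_lit 28), (nat_lit 272), (nat_lit 205), (nat_lit 24), [⟨(nat_lit 4), (nat_lit 6), (nb (nat_lit 55) (nat_lit 1216) (nb (nat_lit 0x500000000000000320000000000000046) (nat_lit 64) (nat_lit 0))), (nat_lit 25)⟩]⟩
def e470 : En := ⟨(nat_lit 60), (nat_lit 4369), (nat_lit 218), (nat_lit 504), [⟨(nat_lit 2), (nat_lit 40), (nb (nat_lit 0x1000000000000000200000000000000030000000000000004) (nat_lit 94848) (nb (nat_lit 1) (nat_lit 93632) (nb (nat_lit 0x100000000000000020000000000000003) (nat_lit 1280) (nat_lit 0)))), (nb (nat_lit 0x100000000000000020000000000000003) (nat_lit 93696) (nb (nat_lit 1) (nat_lit 1216) (nat_lit 0x1000000000000000200000000000000030000000000000004)))⟩, ⟨(nat_lit 4), (nat_lit 50), (nb (nat_lit 5) (nat_lit 2432) (nat_lit 0)), (nb (nat_lit 10) (nat_lit 1216) (nat_lit 0))⟩, ⟨(nat_lit 6), (nat_lit 56), (nb (nat_lit 5) (nat_lit 96064) (nat_lit 0)), (nb (nat_lit 10) (nat_lit 94848) (nat_lit 0))⟩, ⟨(nat_lit 8), (nat_lit 48),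 (nb (nat_lit 5) (nat_lit 94848) (nb (nat_lit 0x100000000000000020000000000000003) (nat_lit 93696) (nat_lit 0x1000000000000000200000000000000030000000000000004))), (nb (nat_lit 1) (nat_lit 93632) (nb (nat_lit 5) (nat_lit 1216) (nat_lit 0)))⟩, ⟨(nat_lit 10), (nat_lit 18), (nb (nat_lit 1) (nat_lit 94848) (nb (nat_lit 1) (nat_lit 2432) (nb (nat_lit 0x1000000000000000200000000000000030000000000000004) (nat_lit 1216) (nat_lit 0)))), (nb (nat_lit 5) (nat_lit 96064) (nb (nat_lit 0x100000000000000020000000000000003) (nat_lit 94912) (nb (nat_lit 0x100000000000000020000000000000003) (nat_lit 2496) (nat_lit 0))))⟩, ⟨(nat_lit 14), (nat_lit 28), (nb (nat_lit 0x2000000000000000400000000000000060000000000000008) (nat_lit 94848) (nb (nat_lit 1) (nat_lit 2432) (nb (nat_lit 0x200000000000000040000000000000006) (nat_lit 1280) (nat_lit 0)))), (nb (nat_lit 0x1000000000000000200000000000000030000000000000004) (nat_lit 96064) (nb (nat_lit 0x100000000000000020000000000000003)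 (nat_lit 2496) (nb (nat_lit 2) (nat_lit 1216) (nat_lit 0))))⟩, ⟨(nat_lit 20), (nat_lit 26), (nb (nat_lit 0x100000000000000020000000000000003) (nat_lit 93696) (nb (nat_lit 5) (nat_lit 2432) (nat_lit 0x1000000000000000200000000000000030000000000000004))), (nb (nat_lit 0x1000000000000000200000000000000030000000000000004) (nat_lit 94848) (nb (nat_lit 1) (nat_lit 93632) (nb (nat_lit 0x1000000000000000200000000000000030000000000000009) (nat_lit 1216) (nat_lit 0))))⟩]⟩
def e471 : En := ⟨(nat_lit 62), (nat_lit 65809), (nat_lit 218), (nat_lit 504), [⟨(nat_lit 0), (nat_lit 40), (nb (nat_lit 5) (nat_lit 94848) (nb (nat_lit 0x100000000000000020000000000000003) (nat_lit 93696) (nat_lit 0x1000000000000000200000000000000030000000000000004))), (nb (nat_lit 1) (nat_lit 93632) (nb (nat_lit 5) (nat_lit 1216) (nat_lit 0)))⟩, ⟨(nat_lit 4), (nat_lit 42), (nb (nat_lit 0x1000000000000000200000000000000030000000000000004) (nat_lit 94848) (nb (nat_lit 1) (nat_lit 93632) (nb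 (nat_lit 0x100000000000000020000000000000003) (nat_lit 1280) (nat_lit 0)))), (nb (nat_lit 0x100000000000000020000000000000003) (nat_lit 93696) (nb (nat_lit 1) (nat_lit 1216) (nat_lit 0x1000000000000000200000000000000030000000000000004)))⟩, ⟨(nat_lit 6), (nat_lit 52), (nb (nat_lit 5) (nat_lit 2432) (nat_lit 0)), (nb (nat_lit 10) (nat_lit 1216) (nat_lit 0))⟩, ⟨(nat_lit 8), (nat_lit 58), (nb (nat_lit 5) (nat_lit 96064) (nat_lit 0)), (nb (nat_lit 10) (nat_lit 94848) (nat_lit 0))⟩, ⟨(nat_lit 10), (nat_lit 12), (nb (nat_lit 5) (nat_lit 96064) (nb (nat_lit 0x100000000000000020000000000000003) (nat_lit 94912) (nb (nat_lit 0x100000000000000020000000000000003) (nat_lit 2496) (nat_lit 0)))), (nb (nat_lit 1) (nat_lit 94848) (nb (nat_lit 1) (nat_lit 2432) (nb (nat_lit 0x1000000000000000200000000000000030000000000000004) (nat_lit 1216) (nat_lit 0))))⟩, ⟨(nat_lit 16), (nat_lit 20), (nb (nat_lit 0x2000000000000000400000000000000060000000000000008) (nat_lit 94848)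 (nb (nat_lit 1) (nat_lit 2432) (nb (nat_lit 0x200000000000000040000000000000006) (nat_lit 1280) (nat_lit 0)))), (nb (nat_lit 0x1000000000000000200000000000000030000000000000004) (nat_lit 96064) (nb (nat_lit 0x100000000000000020000000000000003) (nat_lit 2496) (nb (nat_lit 2) (nat_lit 1216) (nat_lit 0))))⟩, ⟨(nat_lit 22), (nat_lit 28), (nb (nat_lit 0x100000000000000020000000000000003) (nat_lit 93696) (nb (nat_lit 5) (nat_lit 2432) (nat_lit 0x1000000000000000200000000000000030000000000000004))), (nb (nat_lit 0x1000000000000000200000000000000030000000000000004) (nat_lit 94848) (nb (nat_lit 1) (nat_lit 93632) (nb (nat_lit 0x1000000000000000200000000000000030000000000000009) (nat_lit 1216) (nat_lit 0))))⟩]⟩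
def e472 : En := ⟨(nat_lit 64), (nat_lit 69649), (nat_lit 218), (nat_lit 504), [⟨(nat_lit 0), (nat_lit 50), (nb (nat_lit 5) (nat_lit 96064) (nat_lit 0)), (nb (nat_lit 10) (nat_lit 94848) (nat_lit 0))⟩, ⟨(nat_lit 2), (nat_lit 42), (nb (nat_lit 5) (nat_lit 94848) (nb (nat_lit 0x100000000000000020000000000000003) (nat_lit 93696) (nat_lit 0x1000000000000000200000000000000030000000000000004))), (nb (nat_lit 1) (nat_lit 93632) (nb (nat_lit 5) (nat_lit 1216) (nat_lit 0)))⟩, ⟨(nat_lit 6), (nat_lit 44), (nb (nat_lit 0x1000000000000000200000000000000030000000000000004) (nat_lit 94848) (nb (nat_lit 1) (nat_lit 93632) (nb (nat_lit 0x100000000000000020000000000000003) (nat_lit 1280) (nat_lit 0)))), (nb (nat_lit 0x100000000000000020000000000000003) (nat_lit 93696) (nb (nat_lit 1) (nat_lit 1216) (nat_lit 0x1000000000000000200000000000000030000000000000004)))⟩, ⟨(nat_lit 8), (nat_lit 54), (nb (nat_lit 5) (nat_lit 2432) (nat_lit 0)), (nb (nat_lit 10) (nat_lit 1216)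 (nat_lit 0))⟩, ⟨(nat_lit 12), (nat_lit 14), (nb (nat_lit 5) (nat_lit 96064) (nb (nat_lit 0x100000000000000020000000000000003) (nat_lit 94912) (nb (nat_lit 0x100000000000000020000000000000003) (nat_lit 2496) (nat_lit 0)))), (nb (nat_lit 1) (nat_lit 94848) (nb (nat_lit 1) (nat_lit 2432) (nb (nat_lit 0x1000000000000000200000000000000030000000000000004) (nat_lit 1216) (nat_lit 0))))⟩, ⟨(nat_lit 18), (nat_lit 22), (nb (nat_lit 0x2000000000000000400000000000000060000000000000008) (nat_lit 94848) (nb (nat_lit 1) (nat_lit 2432) (nb (nat_lit 0x200000000000000040000000000000006) (nat_lit 1280) (nat_lit 0)))), (nb (nat_lit 0x1000000000000000200000000000000030000000000000004) (nat_lit 96064) (nb (nat_lit 0x100000000000000020000000000000003) (nat_lit 2496) (nb (nat_lit 2) (nat_lit 1216) (nat_lit 0))))⟩, ⟨(nat_lit 20), (nat_lit 24), (nb (nat_lit 0x1000000000000000200000000000000030000000000000004) (nat_lit 94848) (nb (nat_lit 1) (nat_lit 93632) (nb (nat_lit 0x1000000000000000200000000000000030000000000000009)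 (nat_lit 1216) (nat_lit 0)))), (nb (nat_lit 0x100000000000000020000000000000003) (nat_lit 93696) (nb (nat_lit 5) (nat_lit 2432) (nat_lit 0x1000000000000000200000000000000030000000000000004)))⟩]⟩
def e473 : En := ⟨(nat_lit 66), (nat_lit 69889), (nat_lit 218), (nat_lit 504), [⟨(nat_lit 0), (nat_lit 56), (nb (nat_lit 5) (nat_lit 2432) (nat_lit 0)), (nb (nat_lit 10) (nat_lit 1216) (nat_lit 0))⟩, ⟨(nat_lit 2), (nat_lit 52), (nb (nat_lit 5) (nat_lit 96064) (nat_lit 0)), (nb (nat_lit 10) (nat_lit 94848) (nat_lit 0))⟩, ⟨(nat_lit 4), (nat_lit 44), (nb (nat_lit 5) (nat_lit 94848) (nb (nat_lit 0x100000000000000020000000000000003) (nat_lit 93696) (nat_lit 0x1000000000000000200000000000000030000000000000004))), (nb (nat_lit 1) (nat_lit 93632) (nb (nat_lit 5) (nat_lit 1216) (nat_lit 0)))⟩, ⟨(nat_lit 8), (nat_lit 46), (nb (nat_lit 0x1000000000000000200000000000000030000000000000004) (nat_lit 94848) (nb (nat_lit 1) (nat_lit 93632) (nb (nat_lit 0x100000000000000020000000000000003)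 (nat_lit 1280) (nat_lit 0)))), (nb (nat_lit 0x100000000000000020000000000000003) (nat_lit 93696) (nb (nat_lit 1) (nat_lit 1216) (nat_lit 0x1000000000000000200000000000000030000000000000004)))⟩, ⟨(nat_lit 10), (nat_lit 24), (nb (nat_lit 0x2000000000000000400000000000000060000000000000008) (nat_lit 94848) (nb (nat_lit 1) (nat_lit 2432) (nb (nat_lit 0x200000000000000040000000000000006) (nat_lit 1280) (nat_lit 0)))), (nb (nat_lit 0x1000000000000000200000000000000030000000000000004) (nat_lit 96064) (nb (nat_lit 0x100000000000000020000000000000003) (nat_lit 2496) (nb (nat_lit 2) (nat_lit 1216) (nat_lit 0))))⟩, ⟨(nat_lit 14), (nat_lit 16), (nb (nat_lit 5) (nat_lit 96064) (nb (nat_lit 0x100000000000000020000000000000003) (nat_lit 94912) (nb (nat_lit 0x100000000000000020000000000000003) (nat_lit 2496) (nat_lit 0)))), (nb (nat_lit 1) (nat_lit 94848) (nb (nat_lit 1) (nat_lit 2432) (nb (nat_lit 0x1000000000000000200000000000000030000000000000004) (nat_lit 1216)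 (nat_lit 0))))⟩, ⟨(nat_lit 22), (nat_lit 26), (nb (nat_lit 0x1000000000000000200000000000000030000000000000004) (nat_lit 94848) (nb (nat_lit 1) (nat_lit 93632) (nb (nat_lit 0x1000000000000000200000000000000030000000000000009) (nat_lit 1216) (nat_lit 0)))), (nb (nat_lit 0x100000000000000020000000000000003) (nat_lit 93696) (nb (nat_lit 5) (nat_lit 2432) (nat_lit 0x1000000000000000200000000000000030000000000000004)))⟩]⟩
def e474 : En := ⟨(nat_lit 68), (nat_lit 69904), (nat_lit 218), (nat_lit 504), [⟨(nat_lit 0), (nat_lit 48), (nb (nat_lit 0x1000000000000000200000000000000030000000000000004) (nat_lit 94848) (nb (nat_lit 1) (nat_lit 93632) (nb (nat_lit 0x100000000000000020000000000000003) (nat_lit 1280) (nat_lit 0)))), (nb (nat_lit 0x100000000000000020000000000000003) (nat_lit 93696) (nb (nat_lit 1) (nat_lit 1216) (nat_lit 0x1000000000000000200000000000000030000000000000004)))⟩, ⟨(nat_lit 2), (nat_lit 58), (nb (nat_lit 5) (nat_lit 2432) (nat_lit 0)), (nb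 (nat_lit 10) (nat_lit 1216) (nat_lit 0))⟩, ⟨(nat_lit 4), (nat_lit 54), (nb (nat_lit 5) (nat_lit 96064) (nat_lit 0)), (nb (nat_lit 10) (nat_lit 94848) (nat_lit 0))⟩, ⟨(nat_lit 6), (nat_lit 46), (nb (nat_lit 5) (nat_lit 94848) (nb (nat_lit 0x100000000000000020000000000000003) (nat_lit 93696) (nat_lit 0x1000000000000000200000000000000030000000000000004))), (nb (nat_lit 1) (nat_lit 93632) (nb (nat_lit 5) (nat_lit 1216) (nat_lit 0)))⟩, ⟨(nat_lit 12), (nat_lit 26), (nb (nat_lit 0x2000000000000000400000000000000060000000000000008) (nat_lit 94848) (nb (nat_lit 1) (nat_lit 2432) (nb (nat_lit 0x200000000000000040000000000000006) (nat_lit 1280) (nat_lit 0)))), (nb (nat_lit 0x1000000000000000200000000000000030000000000000004) (nat_lit 96064) (nb (nat_lit 0x100000000000000020000000000000003) (nat_lit 2496) (nb (nat_lit 2) (nat_lit 1216) (nat_lit 0))))⟩, ⟨(nat_lit 16), (nat_lit 18), (nb (nat_lit 5) (nat_lit 96064) (nb (nat_lit 0x100000000000000020000000000000003)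 (nat_lit 94912) (nb (nat_lit 0x100000000000000020000000000000003) (nat_lit 2496) (nat_lit 0)))), (nb (nat_lit 1) (nat_lit 94848) (nb (nat_lit 1) (nat_lit 2432) (nb (nat_lit 0x1000000000000000200000000000000030000000000000004) (nat_lit 1216) (nat_lit 0))))⟩, ⟨(nat_lit 24), (nat_lit 28), (nb (nat_lit 0x1000000000000000200000000000000030000000000000004) (nat_lit 94848) (nb (nat_lit 1) (nat_lit 93632) (nb (nat_lit 0x1000000000000000200000000000000030000000000000009) (nat_lit 1216) (nat_lit 0)))), (nb (nat_lit 0x100000000000000020000000000000003) (nat_lit 93696) (nb (nat_lit 5) (nat_lit 2432) (nat_lit 0x1000000000000000200000000000000030000000000000004)))⟩]⟩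
def e475 : En := ⟨(nat_lit 50), (nat_lit 4113), (nat_lit 22), (nat_lit 8), [⟨(nat_lit 2), (nat_lit 20), (nat_lit 5), (nat_lit 0)⟩, ⟨(nat_lit 6), (nat_lit 14), (nat_lit 0x1000000000000000200000000000000030000000000000000), (nat_lit 1)⟩, ⟨(nat_lit 8), (nat_lit 18), (nat_lit 0), (nat_lit 0x1000000000000000200000000000000030000000000000004)⟩]⟩
def e476 : En := ⟨(nat_lit 52), (nat_lit 65793), (nat_lit 22), (nat_lit 8), [⟨(nat_lit 0), (nat_lit 10), (nat_lit 0), (nat_lit 0x1000000000000000200000000000000030000000000000004)⟩, ⟨(nat_lit 4), (nat_lit 22), (nat_lit 5), (nat_lit 0)⟩, ⟨(nat_lit 8), (nat_lit 16), (nat_lit 0x1000000000000000200000000000000030000000000000000), (nat_lit 1)⟩]⟩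
def e477 : En := ⟨(nat_lit 54), (nat_lit 69648), (nat_lit 22), (nat_lit 8), [⟨(nat_lit 0), (nat_lit 18), (nat_lit 0x1000000000000000200000000000000030000000000000000), (nat_lit 1)⟩, ⟨(nat_lit 2), (nat_lit 12), (nat_lit 0), (nat_lit 0x1000000000000000200000000000000030000000000000004)⟩, ⟨(nat_lit 6), (nat_lit 24), (nat_lit 5), (nat_lit 0)⟩]⟩
def e478 : En := ⟨(nat_lit 56), (nat_lit 4353), (nat_lit 22), (nat_lit 8), [⟨(nat_lit 2), (nat_lit 10), (nat_lit 0x1000000000000000200000000000000030000000000000000), (nat_lit 1)⟩, ⟨(nat_lit 4), (nat_lit 14), (nat_lit 0), (nat_lit 0x1000000000000000200000000000000030000000000000004)⟩, ⟨(nat_lit 8), (nat_lit 26), (nat_lit 5), (nat_lit 0)⟩]⟩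
def e479 : En := ⟨(nat_lit 58), (nat_lit 65808), (nat_lit 22), (nat_lit 8), [⟨(nat_lit 0), (nat_lit 28), (nat_lit 5), (nat_lit 0)⟩, ⟨(nat_lit 4), (nat_lit 12), (nat_lit 0x1000000000000000200000000000000030000000000000000), (nat_lit 1)⟩, ⟨(nat_lit 6), (nat_lit 16), (nat_lit 0), (nat_lit 0x1000000000000000200000000000000030000000000000004)⟩]⟩
def e480 : En := ⟨(nat_lit 60), (nat_lit 4369), (nat_lit 1024), (nat_lit 27000), [⟨(nat_lit 2), (nat_lit 40), (nb (nat_lit 0x1000000000000000100000000000000010000000000000001) (nat_lit 43776) (nb (nat_lit 0x3000000000000000300000000000000030000000000000003) (nat_lit 42560) (nb (nat_lit 0x3000000000000000300000000000000030000000000000003) (nat_lit 41344) (nb (nat_lit 0x1000000000000000100000000000000010000000000000001) (nat_lit 40128) (nb (nat_lit 0x3000000000000000500000000000000040000000000000004) (nat_lit 30400) (nb (nat_lit 0x6000000000000000900000000000000060000000000000007) (nat_lit 29184) (nb (nat_lit 0x3000000000000000300000000000000000000000000000002)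 (nat_lit 27968) (nb (nat_lit 0x2000000000000000800000000000000060000000000000005) (nat_lit 17024) (nb (nat_lit 0x4000000000000000500000000000000000000000000000001) (nat_lit 15808) (nb (nat_lit 0x10000000000000001) (nat_lit 13376) (nb (nat_lit 0x400000000000000040000000000000002) (nat_lit 3648) (nb (nat_lit 2) (nat_lit 2624) (nb (nat_lit 0x30000000000000004) (nat_lit 1216) (nb (nat_lit 0x10000000000000001) (nat_lit 128) (nat_lit 0))))))))))))))), (nb (nat_lit 0x100000000000000020000000000000001) (nat_lit 26752) (nb (nat_lit 1) (nat_lit 15872) (nb (nat_lit 0x400000000000000060000000000000003) (nat_lit 14592) (nb (nat_lit 0x20000000000000001) (nat_lit 13504) (nb (nat_lit 0x200000000000000080000000000000005) (nat_lit 2432) (nb (nat_lit 0x30000000000000002) (nat_lit 1344) (nat_lit 1)))))))⟩, ⟨(nat_lit 4), (nat_lit 50), (nb (nat_lit 1) (nat_lit 29376) (nb (nat_lit 2) (nat_lit 28160) (nb (nat_lit 1) (nat_lit 26944) (nb (nat_lit 4) (nat_lit 16000) (nb (nat_lit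 2) (nat_lit 14784) (nb (nat_lit 2) (nat_lit 13376) (nb (nat_lit 4) (nat_lit 2624) (nb (nat_lit 0x20000000000000004) (nat_lit 1216) (nb (nat_lit 0x10000000000000002) (nat_lit 128) (nat_lit 0)))))))))), (nb (nat_lit 1) (nat_lit 29184) (nb (nat_lit 2) (nat_lit 27968) (nb (nat_lit 1) (nat_lit 26752) (nb (nat_lit 0x20000000000000004) (nat_lit 15808) (nb (nat_lit 0x200000000000000020000000000000002) (nat_lit 14592) (nb (nat_lit 0x20000000000000002) (nat_lit 13504) (nb (nat_lit 0x40000000000000004) (nat_lit 2432) (nb (nat_lit 0x40000000000000004) (nat_lit 1344) (nat_lit 1)))))))))⟩, ⟨(nat_lit 6), (nat_lit 56), (nb (nat_lit 1) (nat_lit 30592) (nb (nat_lit 2) (nat_lit 29376) (nb (nat_lit 1) (nat_lit 28160) (nb (nat_lit 4) (nat_lit 17216) (nb (nat_lit 2) (nat_lit 16000) (nb (nat_lit 2) (nat_lit 14592) (nb (nat_lit 4) (nat_lit 3840) (nb (nat_lit 0x20000000000000004) (nat_lit 2432) (nb (nat_lit 0x10000000000000002) (nat_lit 1344) (nat_lit 0)))))))))), (nb (nat_lit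 1) (nat_lit 30400) (nb (nat_lit 2) (nat_lit 29184) (nb (nat_lit 1) (nat_lit 27968) (nb (nat_lit 0x20000000000000004) (nat_lit 17024) (nb (nat_lit 0x200000000000000020000000000000002) (nat_lit 15808) (nb (nat_lit 0x20000000000000002) (nat_lit 14720) (nb (nat_lit 0x40000000000000004) (nat_lit 3648) (nb (nat_lit 0x40000000000000004) (nat_lit 2560) (nb (nat_lit 1) (nat_lit 1216) (nat_lit 0))))))))))⟩, ⟨(nat_lit 8), (nat_lit 48), (nb (nat_lit 1) (nat_lit 43776) (nb (nat_lit 3) (nat_lit 42560) (nb (nat_lit 3) (nat_lit 41344) (nb (nat_lit 1) (nat_lit 40128) (nb (nat_lit 0x100000000000000010000000000000004) (nat_lit 30400) (nb (nat_lit 0x300000000000000010000000000000007) (nat_lit 29184) (nb (nat_lit 0x1000000000000000300000000000000000000000000000002) (nat_lit 27968) (nb (nat_lit 0x10000000000000001) (nat_lit 26880) (nb (nat_lit 0x400000000000000040000000000000005) (nat_lit 17024) (nb (nat_lit 0x300000000000000000000000000000001) (nat_lit 15808) (nb (nat_lit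 1) (nat_lit 14784) (nb (nat_lit 0x20000000000000001) (nat_lit 13376) (nb (nat_lit 0x400000000000000040000000000000002) (nat_lit 3648) (nb (nat_lit 0x1000000000000000400000000000000060000000000000004) (nat_lit 1216) (nat_lit 0))))))))))))))), (nb (nat_lit 1) (nat_lit 30592) (nb (nat_lit 1) (nat_lit 29376) (nb (nat_lit 1) (nat_lit 28032) (nb (nat_lit 0x10000000000000001) (nat_lit 26752) (nb (nat_lit 2) (nat_lit 17216) (nb (nat_lit 3) (nat_lit 15872) (nb (nat_lit 0x100000000000000050000000000000003) (nat_lit 14592) (nb (nat_lit 1) (nat_lit 13568) (nb (nat_lit 0x20000000000000006000000000000000a0000000000000005) (nat_lit 2432) (nat_lit 0x100000000000000010000000000000001))))))))))⟩, ⟨(nat_lit 10), (nat_lit 18), (nb (nat_lit 3) (nat_lit 28032) (nb (nat_lit 0x100000000000000020000000000000003) (nat_lit 26816) (nb (nat_lit 0xa0000000000000004) (nat_lit 15808) (nb (nat_lit 0x5000000000000000b0000000000000009) (nat_lit 14656) (nb (nat_lit 2) (nat_lit 13568)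 (nb (nat_lit 0x4000000000000000c00000000000000100000000000000006) (nat_lit 2432) (nb (nat_lit 1) (nat_lit 1408) (nat_lit 0x10000000000000002)))))))), (nb (nat_lit 0x1000000000000000100000000000000010000000000000002) (nat_lit 43776) (nb (nat_lit 0x4000000000000000300000000000000030000000000000005) (nat_lit 42560) (nb (nat_lit 0x5000000000000000300000000000000030000000000000004) (nat_lit 41344) (nb (nat_lit 0x2000000000000000100000000000000010000000000000001) (nat_lit 40128) (nb (nat_lit 0x3000000000000000600000000000000050000000000000007) (nat_lit 30400) (nb (nat_lit 0xb000000000000000c00000000000000050000000000000008) (nat_lit 29184) (nb (nat_lit 0x7000000000000000400000000000000000000000000000001) (nat_lit 27968) (nb (nat_lit 0x4000000000000000c00000000000000080000000000000006) (nat_lit 17024) (nb (nat_lit 0xa0000000000000006) (nat_lit 15936) (nb (nat_lit 0x100000000000000030000000000000001) (nat_lit 13376) (nb (nat_lit 0x400000000000000080000000000000004)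 (nat_lit 3712) (nb (nat_lit 0x400000000000000090000000000000007) (nat_lit 1216) (nb (nat_lit 1) (nat_lit 192) (nat_lit 0))))))))))))))⟩, ⟨(nat_lit 14), (nat_lit 28), (nb (nat_lit 1) (nat_lit 43776) (nb (nat_lit 3) (nat_lit 42560) (nb (nat_lit 3) (nat_lit 41344) (nb (nat_lit 1) (nat_lit 40128) (nb (nat_lit 0x20000000000000005) (nat_lit 30400) (nb (nat_lit 0x200000000000000040000000000000008) (nat_lit 29184) (nb (nat_lit 0x400000000000000020000000000000001) (nat_lit 27968) (nb (nat_lit 0x20000000000000002) (nat_lit 26880) (nb (nat_lit 0x60000000000000008) (nat_lit 17024) (nb (nat_lit 0x600000000000000040000000000000002) (nat_lit 15808) (nb (nat_lit 0x50000000000000004) (nat_lit 14720) (nb (nat_lit 1) (nat_lit 13376) (nb (nat_lit 0x40000000000000004) (nat_lit 3648) (nb (nat_lit 0x40000000000000004) (nat_lit 2560) (nb (nat_lit 1) (nat_lit 1216) (nat_lit 0)))))))))))))))), (nb (nat_lit 1) (nat_lit 43968) (nb (nat_lit 3) (nat_lit 42752) (nb (nat_lit 3)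 (nat_lit 41536) (nb (nat_lit 1) (nat_lit 40320) (nb (nat_lit 5) (nat_lit 30592) (nb (nat_lit 8) (nat_lit 29376) (nb (nat_lit 1) (nat_lit 28160) (nb (nat_lit 2) (nat_lit 26752) (nb (nat_lit 8) (nat_lit 17216) (nb (nat_lit 2) (nat_lit 16000) (nb (nat_lit 0x20000000000000005) (nat_lit 14592) (nb (nat_lit 0x10000000000000002) (nat_lit 13504) (nb (nat_lit 4) (nat_lit 3840) (nb (nat_lit 0x20000000000000004) (nat_lit 2432) (nb (nat_lit 0x10000000000000002) (nat_lit 1344) (nat_lit 0))))))))))))))))⟩, ⟨(nat_lit 20), (nat_lit 26), (nb (nat_lit 0x100000000000000010000000000000002) (nat_lit 26816) (nb (nat_lit 0x2000000000000000200000000000000040000000000000001) (nat_lit 14592) (nb (nat_lit 1) (nat_lit 13376) (nb (nat_lit 0x2000000000000000200000000000000040000000000000001) (nat_lit 2432) (nb (nat_lit 1) (nat_lit 128) (nat_lit 0)))))), (nb (nat_lit 0x1000000000000000100000000000000010000000000000001) (nat_lit 43776) (nb (nat_lit 0x3000000000000000300000000000000030000000000000003)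 (nat_lit 42560) (nb (nat_lit 0x3000000000000000300000000000000030000000000000003) (nat_lit 41344) (nb (nat_lit 0x1000000000000000100000000000000010000000000000001) (nat_lit 40128) (nb (nat_lit 0x3000000000000000500000000000000040000000000000004) (nat_lit 30400) (nb (nat_lit 0x5000000000000000900000000000000060000000000000008) (nat_lit 29184) (nb (nat_lit 0x1000000000000000300000000000000000000000000000004) (nat_lit 27968) (nb (nat_lit 0x2000000000000000800000000000000060000000000000005) (nat_lit 17024) (nb (nat_lit 0x500000000000000010000000000000005) (nat_lit 15808) (nb (nat_lit 0x10000000000000001) (nat_lit 13440) (nb (nat_lit 0x400000000000000040000000000000002) (nat_lit 3648) (nb (nat_lit 0x100000000000000020000000000000001) (nat_lit 1280) (nat_lit 0)))))))))))))⟩]⟩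
def e481 : En := ⟨(nat_lit 62), (nat_lit 65809), (nat_lit 1024), (nat_lit 27000), [⟨(nat_lit 0), (nat_lit 40), (nb (nat_lit 1) (nat_lit 43776) (nb (nat_lit 3) (nat_lit 42560) (nb (nat_lit 3) (nat_lit 41344) (nb (nat_lit 1) (nat_lit 40128) (nb (nat_lit 0x100000000000000010000000000000004) (nat_lit 30400) (nb (nat_lit 0x300000000000000010000000000000007) (nat_lit 29184) (nb (nat_lit 0x1000000000000000300000000000000000000000000000002) (nat_lit 27968) (nb (nat_lit 0x10000000000000001) (nat_lit 26880) (nb (nat_lit 0x400000000000000040000000000000005) (nat_lit 17024) (nb (nat_lit 0x300000000000000000000000000000001) (nat_lit 15808) (nb (nat_lit 1) (nat_lit 14784) (nb (nat_lit 0x20000000000000001) (nat_lit 13376) (nb (nat_lit 0x400000000000000040000000000000002) (nat_lit 3648) (nb (nat_lit 0x1000000000000000400000000000000060000000000000004) (nat_lit 1216) (nat_lit 0))))))))))))))), (nb (nat_lit 1) (nat_lit 30592) (nb (nat_lit 1) (nat_lit 29376) (nb (nat_lit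 1) (nat_lit 28032) (nb (nat_lit 0x10000000000000001) (nat_lit 26752) (nb (nat_lit 2) (nat_lit 17216) (nb (nat_lit 3) (nat_lit 15872) (nb (nat_lit 0x100000000000000050000000000000003) (nat_lit 14592) (nb (nat_lit 1) (nat_lit 13568) (nb (nat_lit 0x20000000000000006000000000000000a0000000000000005) (nat_lit 2432) (nat_lit 0x100000000000000010000000000000001))))))))))⟩, ⟨(nat_lit 4), (nat_lit 42), (nb (nat_lit 0x1000000000000000100000000000000010000000000000001) (nat_lit 43776) (nb (nat_lit 0x3000000000000000300000000000000030000000000000003) (nat_lit 42560) (nb (nat_lit 0x3000000000000000300000000000000030000000000000003) (nat_lit 41344) (nb (nat_lit 0x1000000000000000100000000000000010000000000000001) (nat_lit 40128) (nb (nat_lit 0x3000000000000000500000000000000040000000000000004) (nat_lit 30400) (nb (nat_lit 0x6000000000000000900000000000000060000000000000007) (nat_lit 29184) (nb (nat_lit 0x3000000000000000300000000000000000000000000000002) (nat_lit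 27968) (nb (nat_lit 0x2000000000000000800000000000000060000000000000005) (nat_lit 17024) (nb (nat_lit 0x4000000000000000500000000000000000000000000000001) (nat_lit 15808) (nb (nat_lit 0x10000000000000001) (nat_lit 13376) (nb (nat_lit 0x400000000000000040000000000000002) (nat_lit 3648) (nb (nat_lit 2) (nat_lit 2624) (nb (nat_lit 0x30000000000000004) (nat_lit 1216) (nb (nat_lit 0x10000000000000001) (nat_lit 128) (nat_lit 0))))))))))))))), (nb (nat_lit 0x100000000000000020000000000000001) (nat_lit 26752) (nb (nat_lit 1) (nat_lit 15872) (nb (nat_lit 0x400000000000000060000000000000003) (nat_lit 14592) (nb (nat_lit 0x20000000000000001) (nat_lit 13504) (nb (nat_lit 0x200000000000000080000000000000005) (nat_lit 2432) (nb (nat_lit 0x30000000000000002) (nat_lit 1344) (nat_lit 1)))))))⟩, ⟨(nat_lit 6), (nat_lit 52), (nb (nat_lit 1) (nat_lit 29376) (nb (nat_lit 2) (nat_lit 28160) (nb (nat_lit 1) (nat_lit 26944) (nb (nat_lit 4) (nat_lit 16000) (nb (nat_lit 2)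 (nat_lit 14784) (nb (nat_lit 2) (nat_lit 13376) (nb (nat_lit 4) (nat_lit 2624) (nb (nat_lit 0x20000000000000004) (nat_lit 1216) (nb (nat_lit 0x10000000000000002) (nat_lit 128) (nat_lit 0)))))))))), (nb (nat_lit 1) (nat_lit 29184) (nb (nat_lit 2) (nat_lit 27968) (nb (nat_lit 1) (nat_lit 26752) (nb (nat_lit 0x20000000000000004) (nat_lit 15808) (nb (nat_lit 0x200000000000000020000000000000002) (nat_lit 14592) (nb (nat_lit 0x20000000000000002) (nat_lit 13504) (nb (nat_lit 0x40000000000000004) (nat_lit 2432) (nb (nat_lit 0x40000000000000004) (nat_lit 1344) (nat_lit 1)))))))))⟩, ⟨(nat_lit 8), (nat_lit 58), (nb (nat_lit 1) (nat_lit 30592) (nb (nat_lit 2) (nat_lit 29376) (nb (nat_lit 1) (nat_lit 28160) (nb (nat_lit 4) (nat_lit 17216) (nb (nat_lit 2) (nat_lit 16000) (nb (nat_lit 2) (nat_lit 14592) (nb (nat_lit 4) (nat_lit 3840) (nb (nat_lit 0x20000000000000004) (nat_lit 2432) (nb (nat_lit 0x10000000000000002) (nat_lit 1344) (nat_lit 0)))))))))), (nb (nat_lit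 1) (nat_lit 30400) (nb (nat_lit 2) (nat_lit 29184) (nb (nat_lit 1) (nat_lit 27968) (nb (nat_lit 0x20000000000000004) (nat_lit 17024) (nb (nat_lit 0x200000000000000020000000000000002) (nat_lit 15808) (nb (nat_lit 0x20000000000000002) (nat_lit 14720) (nb (nat_lit 0x40000000000000004) (nat_lit 3648) (nb (nat_lit 0x40000000000000004) (nat_lit 2560) (nb (nat_lit 1) (nat_lit 1216) (nat_lit 0))))))))))⟩, ⟨(nat_lit 10), (nat_lit 12), (nb (nat_lit 0x1000000000000000100000000000000010000000000000002) (nat_lit 43776) (nb (nat_lit 0x4000000000000000300000000000000030000000000000005) (nat_lit 42560) (nb (nat_lit 0x5000000000000000300000000000000030000000000000004) (nat_lit 41344) (nb (nat_lit 0x2000000000000000100000000000000010000000000000001) (nat_lit 40128) (nb (nat_lit 0x3000000000000000600000000000000050000000000000007) (nat_lit 30400) (nb (nat_lit 0xb000000000000000c00000000000000050000000000000008) (nat_lit 29184) (nb (nat_lit 0x7000000000000000400000000000000000000000000000001)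 (nat_lit 27968) (nb (nat_lit 0x4000000000000000c00000000000000080000000000000006) (nat_lit 17024) (nb (nat_lit 0xa0000000000000006) (nat_lit 15936) (nb (nat_lit 0x100000000000000030000000000000001) (nat_lit 13376) (nb (nat_lit 0x400000000000000080000000000000004) (nat_lit 3712) (nb (nat_lit 0x400000000000000090000000000000007) (nat_lit 1216) (nb (nat_lit 1) (nat_lit 192) (nat_lit 0)))))))))))))), (nb (nat_lit 3) (nat_lit 28032) (nb (nat_lit 0x100000000000000020000000000000003) (nat_lit 26816) (nb (nat_lit 0xa0000000000000004) (nat_lit 15808) (nb (nat_lit 0x5000000000000000b0000000000000009) (nat_lit 14656) (nb (nat_lit 2) (nat_lit 13568) (nb (nat_lit 0x4000000000000000c00000000000000100000000000000006) (nat_lit 2432) (nb (nat_lit 1) (nat_lit 1408) (nat_lit 0x10000000000000002))))))))⟩, ⟨(nat_lit 16), (nat_lit 20), (nb (nat_lit 1) (nat_lit 43776) (nb (nat_lit 3) (nat_lit 42560) (nb (nat_lit 3) (nat_lit 41344) (nb (nat_lit 1) (nat_lit 40128) (nb (nat_lit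 0x20000000000000005) (nat_lit 30400) (nb (nat_lit 0x200000000000000040000000000000008) (nat_lit 29184) (nb (nat_lit 0x400000000000000020000000000000001) (nat_lit 27968) (nb (nat_lit 0x20000000000000002) (nat_lit 26880) (nb (nat_lit 0x60000000000000008) (nat_lit 17024) (nb (nat_lit 0x600000000000000040000000000000002) (nat_lit 15808) (nb (nat_lit 0x50000000000000004) (nat_lit 14720) (nb (nat_lit 1) (nat_lit 13376) (nb (nat_lit 0x40000000000000004) (nat_lit 3648) (nb (nat_lit 0x40000000000000004) (nat_lit 2560) (nb (nat_lit 1) (nat_lit 1216) (nat_lit 0)))))))))))))))), (nb (nat_lit 1) (nat_lit 43968) (nb (nat_lit 3) (nat_lit 42752) (nb (nat_lit 3) (nat_lit 41536) (nb (nat_lit 1) (nat_lit 40320) (nb (nat_lit 5) (nat_lit 30592) (nb (nat_lit 8) (nat_lit 29376) (nb (nat_lit 1) (nat_lit 28160) (nb (nat_lit 2) (nat_lit 26752) (nb (nat_lit 8) (nat_lit 17216) (nb (nat_lit 2) (nat_lit 16000) (nb (nat_lit 0x20000000000000005) (nat_lit 14592) (nb (nat_lit 0x10000000000000002)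 (nat_lit 13504) (nb (nat_lit 4) (nat_lit 3840) (nb (nat_lit 0x20000000000000004) (nat_lit 2432) (nb (nat_lit 0x10000000000000002) (nat_lit 1344) (nat_lit 0))))))))))))))))⟩, ⟨(nat_lit 22), (nat_lit 28), (nb (nat_lit 0x100000000000000010000000000000002) (nat_lit 26816) (nb (nat_lit 0x2000000000000000200000000000000040000000000000001) (nat_lit 14592) (nb (nat_lit 1) (nat_lit 13376) (nb (nat_lit 0x2000000000000000200000000000000040000000000000001) (nat_lit 2432) (nb (nat_lit 1) (nat_lit 128) (nat_lit 0)))))), (nb (nat_lit 0x1000000000000000100000000000000010000000000000001) (nat_lit 43776) (nb (nat_lit 0x3000000000000000300000000000000030000000000000003) (nat_lit 42560) (nb (nat_lit 0x3000000000000000300000000000000030000000000000003) (nat_lit 41344) (nb (nat_lit 0x1000000000000000100000000000000010000000000000001) (nat_lit 40128) (nb (nat_lit 0x3000000000000000500000000000000040000000000000004) (nat_lit 30400) (nb (nat_lit 0x5000000000000000900000000000000060000000000000008)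 (nat_lit 29184) (nb (nat_lit 0x1000000000000000300000000000000000000000000000004) (nat_lit 27968) (nb (nat_lit 0x2000000000000000800000000000000060000000000000005) (nat_lit 17024) (nb (nat_lit 0x500000000000000010000000000000005) (nat_lit 15808) (nb (nat_lit 0x10000000000000001) (nat_lit 13440) (nb (nat_lit 0x400000000000000040000000000000002) (nat_lit 3648) (nb (nat_lit 0x100000000000000020000000000000001) (nat_lit 1280) (nat_lit 0)))))))))))))⟩]⟩
def e482 : En := ⟨(nat_lit 64), (nat_lit 69649), (nat_lit 1024), (nat_lit 27000), [⟨(nat_lit 0), (nat_lit 50), (nb (nat_lit 1) (nat_lit 30592) (nb (nat_lit 2) (nat_lit 29376) (nb (nat_lit 1) (nat_lit 28160) (nb (nat_lit 4) (nat_lit 17216) (nb (nat_lit 2) (nat_lit 16000) (nb (nat_lit 2) (nat_lit 14592) (nb (nat_lit 4) (nat_lit 3840) (nb (nat_lit 0x20000000000000004) (nat_lit 2432) (nb (nat_lit 0x10000000000000002) (nat_lit 1344) (nat_lit 0)))))))))), (nb (nat_lit 1) (nat_lit 30400) (nb (nat_lit 2) (nat_lit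 29184) (nb (nat_lit 1) (nat_lit 27968) (nb (nat_lit 0x20000000000000004) (nat_lit 17024) (nb (nat_lit 0x200000000000000020000000000000002) (nat_lit 15808) (nb (nat_lit 0x20000000000000002) (nat_lit 14720) (nb (nat_lit 0x40000000000000004) (nat_lit 3648) (nb (nat_lit 0x40000000000000004) (nat_lit 2560) (nb (nat_lit 1) (nat_lit 1216) (nat_lit 0))))))))))⟩, ⟨(nat_lit 2), (nat_lit 42), (nb (nat_lit 1) (nat_lit 43776) (nb (nat_lit 3) (nat_lit 42560) (nb (nat_lit 3) (nat_lit 41344) (nb (nat_lit 1) (nat_lit 40128) (nb (nat_lit 0x100000000000000010000000000000004) (nat_lit 30400) (nb (nat_lit 0x300000000000000010000000000000007) (nat_lit 29184) (nb (nat_lit 0x1000000000000000300000000000000000000000000000002) (nat_lit 27968) (nb (nat_lit 0x10000000000000001) (nat_lit 26880) (nb (nat_lit 0x400000000000000040000000000000005) (nat_lit 17024) (nb (nat_lit 0x300000000000000000000000000000001) (nat_lit 15808) (nb (nat_lit 1) (nat_lit 14784) (nb (nat_lit 0x20000000000000001)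 (nat_lit 13376) (nb (nat_lit 0x400000000000000040000000000000002) (nat_lit 3648) (nb (nat_lit 0x1000000000000000400000000000000060000000000000004) (nat_lit 1216) (nat_lit 0))))))))))))))), (nb (nat_lit 1) (nat_lit 30592) (nb (nat_lit 1) (nat_lit 29376) (nb (nat_lit 1) (nat_lit 28032) (nb (nat_lit 0x10000000000000001) (nat_lit 26752) (nb (nat_lit 2) (nat_lit 17216) (nb (nat_lit 3) (nat_lit 15872) (nb (nat_lit 0x100000000000000050000000000000003) (nat_lit 14592) (nb (nat_lit 1) (nat_lit 13568) (nb (nat_lit 0x20000000000000006000000000000000a0000000000000005) (nat_lit 2432) (nat_lit 0x100000000000000010000000000000001))))))))))⟩, ⟨(nat_lit 6), (nat_lit 44), (nb (nat_lit 0x1000000000000000100000000000000010000000000000001) (nat_lit 43776) (nb (nat_lit 0x3000000000000000300000000000000030000000000000003) (nat_lit 42560) (nb (nat_lit 0x3000000000000000300000000000000030000000000000003) (nat_lit 41344) (nb (nat_lit 0x1000000000000000100000000000000010000000000000001)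 (nat_lit 40128) (nb (nat_lit 0x3000000000000000500000000000000040000000000000004) (nat_lit 30400) (nb (nat_lit 0x6000000000000000900000000000000060000000000000007) (nat_lit 29184) (nb (nat_lit 0x3000000000000000300000000000000000000000000000002) (nat_lit 27968) (nb (nat_lit 0x2000000000000000800000000000000060000000000000005) (nat_lit 17024) (nb (nat_lit 0x4000000000000000500000000000000000000000000000001) (nat_lit 15808) (nb (nat_lit 0x10000000000000001) (nat_lit 13376) (nb (nat_lit 0x400000000000000040000000000000002) (nat_lit 3648) (nb (nat_lit 2) (nat_lit 2624) (nb (nat_lit 0x30000000000000004) (nat_lit 1216) (nb (nat_lit 0x10000000000000001) (nat_lit 128) (nat_lit 0))))))))))))))), (nb (nat_lit 0x100000000000000020000000000000001) (nat_lit 26752) (nb (nat_lit 1) (nat_lit 15872) (nb (nat_lit 0x400000000000000060000000000000003) (nat_lit 14592) (nb (nat_lit 0x20000000000000001) (nat_lit 13504) (nb (nat_lit 0x200000000000000080000000000000005) (nat_lit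 2432) (nb (nat_lit 0x30000000000000002) (nat_lit 1344) (nat_lit 1)))))))⟩, ⟨(nat_lit 8), (nat_lit 54), (nb (nat_lit 1) (nat_lit 29376) (nb (nat_lit 2) (nat_lit 28160) (nb (nat_lit 1) (nat_lit 26944) (nb (nat_lit 4) (nat_lit 16000) (nb (nat_lit 2) (nat_lit 14784) (nb (nat_lit 2) (nat_lit 13376) (nb (nat_lit 4) (nat_lit 2624) (nb (nat_lit 0x20000000000000004) (nat_lit 1216) (nb (nat_lit 0x10000000000000002) (nat_lit 128) (nat_lit 0)))))))))), (nb (nat_lit 1) (nat_lit 29184) (nb (nat_lit 2) (nat_lit 27968) (nb (nat_lit 1) (nat_lit 26752) (nb (nat_lit 0x20000000000000004) (nat_lit 15808) (nb (nat_lit 0x200000000000000020000000000000002) (nat_lit 14592) (nb (nat_lit 0x20000000000000002) (nat_lit 13504) (nb (nat_lit 0x40000000000000004) (nat_lit 2432) (nb (nat_lit 0x40000000000000004) (nat_lit 1344) (nat_lit 1)))))))))⟩, ⟨(nat_lit 12), (nat_lit 14), (nb (nat_lit 0x1000000000000000100000000000000010000000000000002) (nat_lit 43776) (nb (nat_lit 0x4000000000000000300000000000000030000000000000005)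 (nat_lit 42560) (nb (nat_lit 0x5000000000000000300000000000000030000000000000004) (nat_lit 41344) (nb (nat_lit 0x2000000000000000100000000000000010000000000000001) (nat_lit 40128) (nb (nat_lit 0x3000000000000000600000000000000050000000000000007) (nat_lit 30400) (nb (nat_lit 0xb000000000000000c00000000000000050000000000000008) (nat_lit 29184) (nb (nat_lit 0x7000000000000000400000000000000000000000000000001) (nat_lit 27968) (nb (nat_lit 0x4000000000000000c00000000000000080000000000000006) (nat_lit 17024) (nb (nat_lit 0xa0000000000000006) (nat_lit 15936) (nb (nat_lit 0x100000000000000030000000000000001) (nat_lit 13376) (nb (nat_lit 0x400000000000000080000000000000004) (nat_lit 3712) (nb (nat_lit 0x400000000000000090000000000000007) (nat_lit 1216) (nb (nat_lit 1) (nat_lit 192) (nat_lit 0)))))))))))))), (nb (nat_lit 3) (nat_lit 28032) (nb (nat_lit 0x100000000000000020000000000000003) (nat_lit 26816) (nb (nat_lit 0xa0000000000000004) (nat_lit 15808) (nb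 (nat_lit 0x5000000000000000b0000000000000009) (nat_lit 14656) (nb (nat_lit 2) (nat_lit 13568) (nb (nat_lit 0x4000000000000000c00000000000000100000000000000006) (nat_lit 2432) (nb (nat_lit 1) (nat_lit 1408) (nat_lit 0x10000000000000002))))))))⟩, ⟨(nat_lit 18), (nat_lit 22), (nb (nat_lit 1) (nat_lit 43776) (nb (nat_lit 3) (nat_lit 42560) (nb (nat_lit 3) (nat_lit 41344) (nb (nat_lit 1) (nat_lit 40128) (nb (nat_lit 0x20000000000000005) (nat_lit 30400) (nb (nat_lit 0x200000000000000040000000000000008) (nat_lit 29184) (nb (nat_lit 0x400000000000000020000000000000001) (nat_lit 27968) (nb (nat_lit 0x20000000000000002) (nat_lit 26880) (nb (nat_lit 0x60000000000000008) (nat_lit 17024) (nb (nat_lit 0x600000000000000040000000000000002) (nat_lit 15808) (nb (nat_lit 0x50000000000000004) (nat_lit 14720) (nb (nat_lit 1) (nat_lit 13376) (nb (nat_lit 0x40000000000000004) (nat_lit 3648) (nb (nat_lit 0x40000000000000004) (nat_lit 2560) (nb (nat_lit 1) (nat_lit 1216)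 (nat_lit 0)))))))))))))))), (nb (nat_lit 1) (nat_lit 43968) (nb (nat_lit 3) (nat_lit 42752) (nb (nat_lit 3) (nat_lit 41536) (nb (nat_lit 1) (nat_lit 40320) (nb (nat_lit 5) (nat_lit 30592) (nb (nat_lit 8) (nat_lit 29376) (nb (nat_lit 1) (nat_lit 28160) (nb (nat_lit 2) (nat_lit 26752) (nb (nat_lit 8) (nat_lit 17216) (nb (nat_lit 2) (nat_lit 16000) (nb (nat_lit 0x20000000000000005) (nat_lit 14592) (nb (nat_lit 0x10000000000000002) (nat_lit 13504) (nb (nat_lit 4) (nat_lit 3840) (nb (nat_lit 0x20000000000000004) (nat_lit 2432) (nb (nat_lit 0x10000000000000002) (nat_lit 1344) (nat_lit 0))))))))))))))))⟩, ⟨(nat_lit 20), (nat_lit 24), (nb (nat_lit 0x1000000000000000100000000000000010000000000000001) (nat_lit 43776) (nb (nat_lit 0x3000000000000000300000000000000030000000000000003) (nat_lit 42560) (nb (nat_lit 0x3000000000000000300000000000000030000000000000003) (nat_lit 41344) (nb (nat_lit 0x1000000000000000100000000000000010000000000000001) (nat_lit 40128)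 (nb (nat_lit 0x3000000000000000500000000000000040000000000000004) (nat_lit 30400) (nb (nat_lit 0x5000000000000000900000000000000060000000000000008) (nat_lit 29184) (nb (nat_lit 0x1000000000000000300000000000000000000000000000004) (nat_lit 27968) (nb (nat_lit 0x2000000000000000800000000000000060000000000000005) (nat_lit 17024) (nb (nat_lit 0x500000000000000010000000000000005) (nat_lit 15808) (nb (nat_lit 0x10000000000000001) (nat_lit 13440) (nb (nat_lit 0x400000000000000040000000000000002) (nat_lit 3648) (nb (nat_lit 0x100000000000000020000000000000001) (nat_lit 1280) (nat_lit 0))))))))))))), (nb (nat_lit 0x100000000000000010000000000000002) (nat_lit 26816) (nb (nat_lit 0x2000000000000000200000000000000040000000000000001) (nat_lit 14592) (nb (nat_lit 1) (nat_lit 13376) (nb (nat_lit 0x2000000000000000200000000000000040000000000000001) (nat_lit 2432) (nb (nat_lit 1) (nat_lit 128) (nat_lit 0))))))⟩]⟩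
def e483 : En := ⟨(nat_lit 66), (nat_lit 69889), (nat_lit 1024), (nat_lit 27000), [⟨(nat_lit 0), (nat_lit 56), (nb (nat_lit 1) (nat_lit 29376) (nb (nat_lit 2) (nat_lit 28160) (nb (nat_lit 1) (nat_lit 26944) (nb (nat_lit 4) (nat_lit 16000) (nb (nat_lit 2) (nat_lit 14784) (nb (nat_lit 2) (nat_lit 13376) (nb (nat_lit 4) (nat_lit 2624) (nb (nat_lit 0x20000000000000004) (nat_lit 1216) (nb (nat_lit 0x10000000000000002) (nat_lit 128) (nat_lit 0)))))))))), (nb (nat_lit 1) (nat_lit 29184) (nb (nat_lit 2) (nat_lit 27968) (nb (nat_lit 1) (nat_lit 26752) (nb (nat_lit 0x20000000000000004) (nat_lit 15808) (nb (nat_lit 0x200000000000000020000000000000002) (nat_lit 14592) (nb (nat_lit 0x20000000000000002) (nat_lit 13504) (nb (nat_lit 0x40000000000000004) (nat_lit 2432) (nb (nat_lit 0x40000000000000004) (nat_lit 1344) (nat_lit 1)))))))))⟩, ⟨(nat_lit 2), (nat_lit 52), (nb (nat_lit 1) (nat_lit 30592) (nb (nat_lit 2) (nat_lit 29376) (nb (nat_lit 1) (nat_lit 28160) (nb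 (nat_lit 4) (nat_lit 17216) (nb (nat_lit 2) (nat_lit 16000) (nb (nat_lit 2) (nat_lit 14592) (nb (nat_lit 4) (nat_lit 3840) (nb (nat_lit 0x20000000000000004) (nat_lit 2432) (nb (nat_lit 0x10000000000000002) (nat_lit 1344) (nat_lit 0)))))))))), (nb (nat_lit 1) (nat_lit 30400) (nb (nat_lit 2) (nat_lit 29184) (nb (nat_lit 1) (nat_lit 27968) (nb (nat_lit 0x20000000000000004) (nat_lit 17024) (nb (nat_lit 0x200000000000000020000000000000002) (nat_lit 15808) (nb (nat_lit 0x20000000000000002) (nat_lit 14720) (nb (nat_lit 0x40000000000000004) (nat_lit 3648) (nb (nat_lit 0x40000000000000004) (nat_lit 2560) (nb (nat_lit 1) (nat_lit 1216) (nat_lit 0))))))))))⟩, ⟨(nat_lit 4), (nat_lit 44), (nb (nat_lit 1) (nat_lit 43776) (nb (nat_lit 3) (nat_lit 42560) (nb (nat_lit 3) (nat_lit 41344) (nb (nat_lit 1) (nat_lit 40128) (nb (nat_lit 0x100000000000000010000000000000004) (nat_lit 30400) (nb (nat_lit 0x300000000000000010000000000000007) (nat_lit 29184) (nb (nat_lit 0x1000000000000000300000000000000000000000000000002)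 (nat_lit 27968) (nb (nat_lit 0x10000000000000001) (nat_lit 26880) (nb (nat_lit 0x400000000000000040000000000000005) (nat_lit 17024) (nb (nat_lit 0x300000000000000000000000000000001) (nat_lit 15808) (nb (nat_lit 1) (nat_lit 14784) (nb (nat_lit 0x20000000000000001) (nat_lit 13376) (nb (nat_lit 0x400000000000000040000000000000002) (nat_lit 3648) (nb (nat_lit 0x1000000000000000400000000000000060000000000000004) (nat_lit 1216) (nat_lit 0))))))))))))))), (nb (nat_lit 1) (nat_lit 30592) (nb (nat_lit 1) (nat_lit 29376) (nb (nat_lit 1) (nat_lit 28032) (nb (nat_lit 0x10000000000000001) (nat_lit 26752) (nb (nat_lit 2) (nat_lit 17216) (nb (nat_lit 3) (nat_lit 15872) (nb (nat_lit 0x100000000000000050000000000000003) (nat_lit 14592) (nb (nat_lit 1) (nat_lit 13568) (nb (nat_lit 0x20000000000000006000000000000000a0000000000000005) (nat_lit 2432) (nat_lit 0x100000000000000010000000000000001))))))))))⟩, ⟨(nat_lit 8), (nat_lit 46), (nb (nat_lit 0x1000000000000000100000000000000010000000000000001)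 (nat_lit 43776) (nb (nat_lit 0x3000000000000000300000000000000030000000000000003) (nat_lit 42560) (nb (nat_lit 0x3000000000000000300000000000000030000000000000003) (nat_lit 41344) (nb (nat_lit 0x1000000000000000100000000000000010000000000000001) (nat_lit 40128) (nb (nat_lit 0x3000000000000000500000000000000040000000000000004) (nat_lit 30400) (nb (nat_lit 0x6000000000000000900000000000000060000000000000007) (nat_lit 29184) (nb (nat_lit 0x3000000000000000300000000000000000000000000000002) (nat_lit 27968) (nb (nat_lit 0x2000000000000000800000000000000060000000000000005) (nat_lit 17024) (nb (nat_lit 0x4000000000000000500000000000000000000000000000001) (nat_lit 15808) (nb (nat_lit 0x10000000000000001) (nat_lit 13376) (nb (nat_lit 0x400000000000000040000000000000002) (nat_lit 3648) (nb (nat_lit 2) (nat_lit 2624) (nb (nat_lit 0x30000000000000004) (nat_lit 1216) (nb (nat_lit 0x10000000000000001) (nat_lit 128) (nat_lit 0))))))))))))))), (nb (nat_lit 0x100000000000000020000000000000001)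 (nat_lit 26752) (nb (nat_lit 1) (nat_lit 15872) (nb (nat_lit 0x400000000000000060000000000000003) (nat_lit 14592) (nb (nat_lit 0x20000000000000001) (nat_lit 13504) (nb (nat_lit 0x200000000000000080000000000000005) (nat_lit 2432) (nb (nat_lit 0x30000000000000002) (nat_lit 1344) (nat_lit 1)))))))⟩, ⟨(nat_lit 10), (nat_lit 24), (nb (nat_lit 1) (nat_lit 43776) (nb (nat_lit 3) (nat_lit 42560) (nb (nat_lit 3) (nat_lit 41344) (nb (nat_lit 1) (nat_lit 40128) (nb (nat_lit 0x20000000000000005) (nat_lit 30400) (nb (nat_lit 0x200000000000000040000000000000008) (nat_lit 29184) (nb (nat_lit 0x400000000000000020000000000000001) (nat_lit 27968) (nb (nat_lit 0x20000000000000002) (nat_lit 26880) (nb (nat_lit 0x60000000000000008) (nat_lit 17024) (nb (nat_lit 0x600000000000000040000000000000002) (nat_lit 15808) (nb (nat_lit 0x50000000000000004) (nat_lit 14720) (nb (nat_lit 1) (nat_lit 13376) (nb (nat_lit 0x40000000000000004) (nat_lit 3648) (nb (nat_lit 0x40000000000000004)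 (nat_lit 2560) (nb (nat_lit 1) (nat_lit 1216) (nat_lit 0)))))))))))))))), (nb (nat_lit 1) (nat_lit 43968) (nb (nat_lit 3) (nat_lit 42752) (nb (nat_lit 3) (nat_lit 41536) (nb (nat_lit 1) (nat_lit 40320) (nb (nat_lit 5) (nat_lit 30592) (nb (nat_lit 8) (nat_lit 29376) (nb (nat_lit 1) (nat_lit 28160) (nb (nat_lit 2) (nat_lit 26752) (nb (nat_lit 8) (nat_lit 17216) (nb (nat_lit 2) (nat_lit 16000) (nb (nat_lit 0x20000000000000005) (nat_lit 14592) (nb (nat_lit 0x10000000000000002) (nat_lit 13504) (nb (nat_lit 4) (nat_lit 3840) (nb (nat_lit 0x20000000000000004) (nat_lit 2432) (nb (nat_lit 0x10000000000000002) (nat_lit 1344) (nat_lit 0))))))))))))))))⟩, ⟨(nat_lit 14), (nat_lit 16), (nb (nat_lit 0x1000000000000000100000000000000010000000000000002) (nat_lit 43776) (nb (nat_lit 0x4000000000000000300000000000000030000000000000005) (nat_lit 42560) (nb (nat_lit 0x5000000000000000300000000000000030000000000000004) (nat_lit 41344) (nb (nat_lit 0x2000000000000000100000000000000010000000000000001)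 (nat_lit 40128) (nb (nat_lit 0x3000000000000000600000000000000050000000000000007) (nat_lit 30400) (nb (nat_lit 0xb000000000000000c00000000000000050000000000000008) (nat_lit 29184) (nb (nat_lit 0x7000000000000000400000000000000000000000000000001) (nat_lit 27968) (nb (nat_lit 0x4000000000000000c00000000000000080000000000000006) (nat_lit 17024) (nb (nat_lit 0xa0000000000000006) (nat_lit 15936) (nb (nat_lit 0x100000000000000030000000000000001) (nat_lit 13376) (nb (nat_lit 0x400000000000000080000000000000004) (nat_lit 3712) (nb (nat_lit 0x400000000000000090000000000000007) (nat_lit 1216) (nb (nat_lit 1) (nat_lit 192) (nat_lit 0)))))))))))))), (nb (nat_lit 3) (nat_lit 28032) (nb (nat_lit 0x100000000000000020000000000000003) (nat_lit 26816) (nb (nat_lit 0xa0000000000000004) (nat_lit 15808) (nb (nat_lit 0x5000000000000000b0000000000000009) (nat_lit 14656) (nb (nat_lit 2) (nat_lit 13568) (nb (nat_lit 0x4000000000000000c00000000000000100000000000000006) (nat_lit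 2432) (nb (nat_lit 1) (nat_lit 1408) (nat_lit 0x10000000000000002))))))))⟩, ⟨(nat_lit 22), (nat_lit 26), (nb (nat_lit 0x1000000000000000100000000000000010000000000000001) (nat_lit 43776) (nb (nat_lit 0x3000000000000000300000000000000030000000000000003) (nat_lit 42560) (nb (nat_lit 0x3000000000000000300000000000000030000000000000003) (nat_lit 41344) (nb (nat_lit 0x1000000000000000100000000000000010000000000000001) (nat_lit 40128) (nb (nat_lit 0x3000000000000000500000000000000040000000000000004) (nat_lit 30400) (nb (nat_lit 0x5000000000000000900000000000000060000000000000008) (nat_lit 29184) (nb (nat_lit 0x1000000000000000300000000000000000000000000000004) (nat_lit 27968) (nb (nat_lit 0x2000000000000000800000000000000060000000000000005) (nat_lit 17024) (nb (nat_lit 0x500000000000000010000000000000005) (nat_lit 15808) (nb (nat_lit 0x10000000000000001) (nat_lit 13440) (nb (nat_lit 0x400000000000000040000000000000002) (nat_lit 3648) (nb (nat_lit 0x100000000000000020000000000000001)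 (nat_lit 1280) (nat_lit 0))))))))))))), (nb (nat_lit 0x100000000000000010000000000000002) (nat_lit 26816) (nb (nat_lit 0x2000000000000000200000000000000040000000000000001) (nat_lit 14592) (nb (nat_lit 1) (nat_lit 13376) (nb (nat_lit 0x2000000000000000200000000000000040000000000000001) (nat_lit 2432) (nb (nat_lit 1) (nat_lit 128) (nat_lit 0))))))⟩]⟩
def e484 : En := ⟨(nat_lit 68), (nat_lit 69904), (nat_lit 1024), (nat_lit 27000), [⟨(nat_lit 0), (nat_lit 48), (nb (nat_lit 0x1000000000000000100000000000000010000000000000001) (nat_lit 43776) (nb (nat_lit 0x3000000000000000300000000000000030000000000000003) (nat_lit 42560) (nb (nat_lit 0x3000000000000000300000000000000030000000000000003) (nat_lit 41344) (nb (nat_lit 0x1000000000000000100000000000000010000000000000001) (nat_lit 40128) (nb (nat_lit 0x3000000000000000500000000000000040000000000000004) (nat_lit 30400) (nb (nat_lit 0x6000000000000000900000000000000060000000000000007) (nat_lit 29184) (nb (nat_lit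 0x3000000000000000300000000000000000000000000000002) (nat_lit 27968) (nb (nat_lit 0x2000000000000000800000000000000060000000000000005) (nat_lit 17024) (nb (nat_lit 0x4000000000000000500000000000000000000000000000001) (nat_lit 15808) (nb (nat_lit 0x10000000000000001) (nat_lit 13376) (nb (nat_lit 0x400000000000000040000000000000002) (nat_lit 3648) (nb (nat_lit 2) (nat_lit 2624) (nb (nat_lit 0x30000000000000004) (nat_lit 1216) (nb (nat_lit 0x10000000000000001) (nat_lit 128) (nat_lit 0))))))))))))))), (nb (nat_lit 0x100000000000000020000000000000001) (nat_lit 26752) (nb (nat_lit 1) (nat_lit 15872) (nb (nat_lit 0x400000000000000060000000000000003) (nat_lit 14592) (nb (nat_lit 0x20000000000000001) (nat_lit 13504) (nb (nat_lit 0x200000000000000080000000000000005) (nat_lit 2432) (nb (nat_lit 0x30000000000000002) (nat_lit 1344) (nat_lit 1)))))))⟩, ⟨(nat_lit 2), (nat_lit 58), (nb (nat_lit 1) (nat_lit 29376) (nb (nat_lit 2) (nat_lit 28160) (nb (nat_lit 1) (nat_lit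 26944) (nb (nat_lit 4) (nat_lit 16000) (nb (nat_lit 2) (nat_lit 14784) (nb (nat_lit 2) (nat_lit 13376) (nb (nat_lit 4) (nat_lit 2624) (nb (nat_lit 0x20000000000000004) (nat_lit 1216) (nb (nat_lit 0x10000000000000002) (nat_lit 128) (nat_lit 0)))))))))), (nb (nat_lit 1) (nat_lit 29184) (nb (nat_lit 2) (nat_lit 27968) (nb (nat_lit 1) (nat_lit 26752) (nb (nat_lit 0x20000000000000004) (nat_lit 15808) (nb (nat_lit 0x200000000000000020000000000000002) (nat_lit 14592) (nb (nat_lit 0x20000000000000002) (nat_lit 13504) (nb (nat_lit 0x40000000000000004) (nat_lit 2432) (nb (nat_lit 0x40000000000000004) (nat_lit 1344) (nat_lit 1)))))))))⟩, ⟨(nat_lit 4), (nat_lit 54), (nb (nat_lit 1) (nat_lit 30592) (nb (nat_lit 2) (nat_lit 29376) (nb (nat_lit 1) (nat_lit 28160) (nb (nat_lit 4) (nat_lit 17216) (nb (nat_lit 2) (nat_lit 16000) (nb (nat_lit 2) (nat_lit 14592) (nb (nat_lit 4) (nat_lit 3840) (nb (nat_lit 0x20000000000000004) (nat_lit 2432) (nb (nat_lit 0x10000000000000002)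 (nat_lit 1344) (nat_lit 0)))))))))), (nb (nat_lit 1) (nat_lit 30400) (nb (nat_lit 2) (nat_lit 29184) (nb (nat_lit 1) (nat_lit 27968) (nb (nat_lit 0x20000000000000004) (nat_lit 17024) (nb (nat_lit 0x200000000000000020000000000000002) (nat_lit 15808) (nb (nat_lit 0x20000000000000002) (nat_lit 14720) (nb (nat_lit 0x40000000000000004) (nat_lit 3648) (nb (nat_lit 0x40000000000000004) (nat_lit 2560) (nb (nat_lit 1) (nat_lit 1216) (nat_lit 0))))))))))⟩, ⟨(nat_lit 6), (nat_lit 46), (nb (nat_lit 1) (nat_lit 43776) (nb (nat_lit 3) (nat_lit 42560) (nb (nat_lit 3) (nat_lit 41344) (nb (nat_lit 1) (nat_lit 40128) (nb (nat_lit 0x100000000000000010000000000000004) (nat_lit 30400) (nb (nat_lit 0x300000000000000010000000000000007) (nat_lit 29184) (nb (nat_lit 0x1000000000000000300000000000000000000000000000002) (nat_lit 27968) (nb (nat_lit 0x10000000000000001) (nat_lit 26880) (nb (nat_lit 0x400000000000000040000000000000005) (nat_lit 17024) (nb (nat_lit 0x300000000000000000000000000000001)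 (nat_lit 15808) (nb (nat_lit 1) (nat_lit 14784) (nb (nat_lit 0x20000000000000001) (nat_lit 13376) (nb (nat_lit 0x400000000000000040000000000000002) (nat_lit 3648) (nb (nat_lit 0x1000000000000000400000000000000060000000000000004) (nat_lit 1216) (nat_lit 0))))))))))))))), (nb (nat_lit 1) (nat_lit 30592) (nb (nat_lit 1) (nat_lit 29376) (nb (nat_lit 1) (nat_lit 28032) (nb (nat_lit 0x10000000000000001) (nat_lit 26752) (nb (nat_lit 2) (nat_lit 17216) (nb (nat_lit 3) (nat_lit 15872) (nb (nat_lit 0x100000000000000050000000000000003) (nat_lit 14592) (nb (nat_lit 1) (nat_lit 13568) (nb (nat_lit 0x20000000000000006000000000000000a0000000000000005) (nat_lit 2432) (nat_lit 0x100000000000000010000000000000001))))))))))⟩, ⟨(nat_lit 12), (nat_lit 26), (nb (nat_lit 1) (nat_lit 43776) (nb (nat_lit 3) (nat_lit 42560) (nb (nat_lit 3) (nat_lit 41344) (nb (nat_lit 1) (nat_lit 40128) (nb (nat_lit 0x20000000000000005) (nat_lit 30400) (nb (nat_lit 0x200000000000000040000000000000008)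 (nat_lit 29184) (nb (nat_lit 0x400000000000000020000000000000001) (nat_lit 27968) (nb (nat_lit 0x20000000000000002) (nat_lit 26880) (nb (nat_lit 0x60000000000000008) (nat_lit 17024) (nb (nat_lit 0x600000000000000040000000000000002) (nat_lit 15808) (nb (nat_lit 0x50000000000000004) (nat_lit 14720) (nb (nat_lit 1) (nat_lit 13376) (nb (nat_lit 0x40000000000000004) (nat_lit 3648) (nb (nat_lit 0x40000000000000004) (nat_lit 2560) (nb (nat_lit 1) (nat_lit 1216) (nat_lit 0)))))))))))))))), (nb (nat_lit 1) (nat_lit 43968) (nb (nat_lit 3) (nat_lit 42752) (nb (nat_lit 3) (nat_lit 41536) (nb (nat_lit 1) (nat_lit 40320) (nb (nat_lit 5) (nat_lit 30592) (nb (nat_lit 8) (nat_lit 29376) (nb (nat_lit 1) (nat_lit 28160) (nb (nat_lit 2) (nat_lit 26752) (nb (nat_lit 8) (nat_lit 17216) (nb (nat_lit 2) (nat_lit 16000) (nb (nat_lit 0x20000000000000005) (nat_lit 14592) (nb (nat_lit 0x10000000000000002) (nat_lit 13504) (nb (nat_lit 4) (nat_lit 3840) (nb (nat_lit 0x20000000000000004)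 (nat_lit 2432) (nb (nat_lit 0x10000000000000002) (nat_lit 1344) (nat_lit 0))))))))))))))))⟩, ⟨(nat_lit 16), (nat_lit 18), (nb (nat_lit 0x1000000000000000100000000000000010000000000000002) (nat_lit 43776) (nb (nat_lit 0x4000000000000000300000000000000030000000000000005) (nat_lit 42560) (nb (nat_lit 0x5000000000000000300000000000000030000000000000004) (nat_lit 41344) (nb (nat_lit 0x2000000000000000100000000000000010000000000000001) (nat_lit 40128) (nb (nat_lit 0x3000000000000000600000000000000050000000000000007) (nat_lit 30400) (nb (nat_lit 0xb000000000000000c00000000000000050000000000000008) (nat_lit 29184) (nb (nat_lit 0x7000000000000000400000000000000000000000000000001) (nat_lit 27968) (nb (nat_lit 0x4000000000000000c00000000000000080000000000000006) (nat_lit 17024) (nb (nat_lit 0xa0000000000000006) (nat_lit 15936) (nb (nat_lit 0x100000000000000030000000000000001) (nat_lit 13376) (nb (nat_lit 0x400000000000000080000000000000004) (nat_lit 3712) (nb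 (nat_lit 0x400000000000000090000000000000007) (nat_lit 1216) (nb (nat_lit 1) (nat_lit 192) (nat_lit 0)))))))))))))), (nb (nat_lit 3) (nat_lit 28032) (nb (nat_lit 0x100000000000000020000000000000003) (nat_lit 26816) (nb (nat_lit 0xa0000000000000004) (nat_lit 15808) (nb (nat_lit 0x5000000000000000b0000000000000009) (nat_lit 14656) (nb (nat_lit 2) (nat_lit 13568) (nb (nat_lit 0x4000000000000000c00000000000000100000000000000006) (nat_lit 2432) (nb (nat_lit 1) (nat_lit 1408) (nat_lit 0x10000000000000002))))))))⟩, ⟨(nat_lit 24), (nat_lit 28), (nb (nat_lit 0x1000000000000000100000000000000010000000000000001) (nat_lit 43776) (nb (nat_lit 0x3000000000000000300000000000000030000000000000003) (nat_lit 42560) (nb (nat_lit 0x3000000000000000300000000000000030000000000000003) (nat_lit 41344) (nb (nat_lit 0x1000000000000000100000000000000010000000000000001) (nat_lit 40128) (nb (nat_lit 0x3000000000000000500000000000000040000000000000004) (nat_lit 30400) (nb (nat_lit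 0x5000000000000000900000000000000060000000000000008) (nat_lit 29184) (nb (nat_lit 0x1000000000000000300000000000000000000000000000004) (nat_lit 27968) (nb (nat_lit 0x2000000000000000800000000000000060000000000000005) (nat_lit 17024) (nb (nat_lit 0x500000000000000010000000000000005) (nat_lit 15808) (nb (nat_lit 0x10000000000000001) (nat_lit 13440) (nb (nat_lit 0x400000000000000040000000000000002) (nat_lit 3648) (nb (nat_lit 0x100000000000000020000000000000001) (nat_lit 1280) (nat_lit 0))))))))))))), (nb (nat_lit 0x100000000000000010000000000000002) (nat_lit 26816) (nb (nat_lit 0x2000000000000000200000000000000040000000000000001) (nat_lit 14592) (nb (nat_lit 1) (nat_lit 13376) (nb (nat_lit 0x2000000000000000200000000000000040000000000000001) (nat_lit 2432) (nb (nat_lit 1) (nat_lit 128) (nat_lit 0))))))⟩]⟩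
def e485 : En := ⟨(nat_lit 40), (nat_lit 273), (nat_lit 170), (nat_lit 1800), [⟨(nat_lit 4), (nat_lit 20), (nb (nat_lit 1) (nat_lit 29184) (nb (nat_lit 2) (nat_lit 27968) (nb (nat_lit 1) (nat_lit 26752) (nb (nat_lit 2) (nat_lit 15808) (nb (nat_lit 0x200000000000000000000000000000002) (nat_lit 14592) (nb (nat_lit 0x20000000000000002) (nat_lit 13504) (nb (nat_lit 0x10000000000000001) (nat_lit 2432) (nb (nat_lit 0x20000000000000002) (nat_lit 1344) (nat_lit 1))))))))), (nb (nat_lit 2) (nat_lit 16000) (nb (nat_lit 2) (nat_lit 2624) (nb (nat_lit 0x20000000000000002) (nat_lit 1216) (nb (nat_lit 0x10000000000000001) (nat_lit 128) (nat_lit 0)))))⟩, ⟨(nat_lit 6), (nat_lit 10), (nb (nat_lit 0x1000000000000000100000000000000010000000000000002) (nat_lit 29184) (nb (nat_lit 0x2000000000000000200000000000000020000000000000004) (nat_lit 27968) (nb (nat_lit 0x1000000000000000100000000000000010000000000000002) (nat_lit 26752) (nb (nat_lit 0x400000000000000030000000000000004)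 (nat_lit 15808) (nb (nat_lit 0x2000000000000000500000000000000010000000000000004) (nat_lit 14592) (nb (nat_lit 0x20000000000000001) (nat_lit 13504) (nb (nat_lit 0x400000000000000040000000000000002) (nat_lit 2432) (nat_lit 0x10000000000000002)))))))), (nb (nat_lit 2) (nat_lit 13440) (nb (nat_lit 0x200000000000000070000000000000004) (nat_lit 1216) (nb (nat_lit 1) (nat_lit 192) (nat_lit 0))))⟩, ⟨(nat_lit 8), (nat_lit 28), (nb (nat_lit 0x1000000000000000100000000000000010000000000000001) (nat_lit 29184) (nb (nat_lit 0x2000000000000000200000000000000020000000000000002) (nat_lit 27968) (nb (nat_lit 0x1000000000000000100000000000000010000000000000001) (nat_lit 26752) (nb (nat_lit 0x2000000000000000400000000000000030000000000000002) (nat_lit 15808) (nb (nat_lit 0x2000000000000000300000000000000010000000000000002) (nat_lit 14592) (nb (nat_lit 0x2000000000000000400000000000000030000000000000001) (nat_lit 2432) (nat_lit 0x100000000000000010000000000000001))))))),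 (nb (nat_lit 0x10000000000000002) (nat_lit 13440) (nb (nat_lit 0x2000000000000000400000000000000050000000000000002) (nat_lit 1216) (nat_lit 0)))⟩]⟩
def e486 : En := ⟨(nat_lit 42), (nat_lit 65553), (nat_lit 170), (nat_lit 1800), [⟨(nat_lit 0), (nat_lit 20), (nb (nat_lit 0x1000000000000000100000000000000010000000000000001) (nat_lit 29184) (nb (nat_lit 0x2000000000000000200000000000000020000000000000002) (nat_lit 27968) (nb (nat_lit 0x1000000000000000100000000000000010000000000000001) (nat_lit 26752) (nb (nat_lit 0x2000000000000000400000000000000030000000000000002) (nat_lit 15808) (nb (nat_lit 0x2000000000000000300000000000000010000000000000002) (nat_lit 14592) (nb (nat_lit 0x2000000000000000400000000000000030000000000000001) (nat_lit 2432) (nat_lit 0x100000000000000010000000000000001))))))), (nb (nat_lit 0x10000000000000002) (nat_lit 13440) (nb (nat_lit 0x2000000000000000400000000000000050000000000000002) (nat_lit 1216) (nat_lit 0)))⟩, ⟨(nat_lit 6),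 (nat_lit 22), (nb (nat_lit 1) (nat_lit 29184) (nb (nat_lit 2) (nat_lit 27968) (nb (nat_lit 1) (nat_lit 26752) (nb (nat_lit 2) (nat_lit 15808) (nb (nat_lit 0x200000000000000000000000000000002) (nat_lit 14592) (nb (nat_lit 0x20000000000000002) (nat_lit 13504) (nb (nat_lit 0x10000000000000001) (nat_lit 2432) (nb (nat_lit 0x20000000000000002) (nat_lit 1344) (nat_lit 1))))))))), (nb (nat_lit 2) (nat_lit 16000) (nb (nat_lit 2) (nat_lit 2624) (nb (nat_lit 0x20000000000000002) (nat_lit 1216) (nb (nat_lit 0x10000000000000001) (nat_lit 128) (nat_lit 0)))))⟩, ⟨(nat_lit 8), (nat_lit 12), (nb (nat_lit 0x1000000000000000100000000000000010000000000000002) (nat_lit 29184) (nb (nat_lit 0x2000000000000000200000000000000020000000000000004) (nat_lit 27968) (nb (nat_lit 0x1000000000000000100000000000000010000000000000002) (nat_lit 26752) (nb (nat_lit 0x400000000000000030000000000000004) (nat_lit 15808) (nb (nat_lit 0x2000000000000000500000000000000010000000000000004)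 (nat_lit 14592) (nb (nat_lit 0x20000000000000001) (nat_lit 13504) (nb (nat_lit 0x400000000000000040000000000000002) (nat_lit 2432) (nat_lit 0x10000000000000002)))))))), (nb (nat_lit 2) (nat_lit 13440) (nb (nat_lit 0x200000000000000070000000000000004) (nat_lit 1216) (nb (nat_lit 1) (nat_lit 192) (nat_lit 0))))⟩]⟩
def e487 : En := ⟨(nat_lit 44), (nat_lit 69633), (nat_lit 170), (nat_lit 1800), [⟨(nat_lit 0), (nat_lit 14), (nb (nat_lit 0x1000000000000000100000000000000010000000000000002) (nat_lit 29184) (nb (nat_lit 0x2000000000000000200000000000000020000000000000004) (nat_lit 27968) (nb (nat_lit 0x1000000000000000100000000000000010000000000000002) (nat_lit 26752) (nb (nat_lit 0x400000000000000030000000000000004) (nat_lit 15808) (nb (nat_lit 0x2000000000000000500000000000000010000000000000004) (nat_lit 14592) (nb (nat_lit 0x20000000000000001) (nat_lit 13504) (nb (nat_lit 0x400000000000000040000000000000002) (nat_lit 2432) (nat_lit 0x10000000000000002)))))))),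 (nb (nat_lit 2) (nat_lit 13440) (nb (nat_lit 0x200000000000000070000000000000004) (nat_lit 1216) (nb (nat_lit 1) (nat_lit 192) (nat_lit 0))))⟩, ⟨(nat_lit 2), (nat_lit 22), (nb (nat_lit 0x1000000000000000100000000000000010000000000000001) (nat_lit 29184) (nb (nat_lit 0x2000000000000000200000000000000020000000000000002) (nat_lit 27968) (nb (nat_lit 0x1000000000000000100000000000000010000000000000001) (nat_lit 26752) (nb (nat_lit 0x2000000000000000400000000000000030000000000000002) (nat_lit 15808) (nb (nat_lit 0x2000000000000000300000000000000010000000000000002) (nat_lit 14592) (nb (nat_lit 0x2000000000000000400000000000000030000000000000001) (nat_lit 2432) (nat_lit 0x100000000000000010000000000000001))))))), (nb (nat_lit 0x10000000000000002) (nat_lit 13440) (nb (nat_lit 0x2000000000000000400000000000000050000000000000002) (nat_lit 1216) (nat_lit 0)))⟩, ⟨(nat_lit 8), (nat_lit 24), (nb (nat_lit 1) (nat_lit 29184) (nb (nat_lit 2) (nat_lit 27968) (nb (nat_lit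 1) (nat_lit 26752) (nb (nat_lit 2) (nat_lit 15808) (nb (nat_lit 0x200000000000000000000000000000002) (nat_lit 14592) (nb (nat_lit 0x20000000000000002) (nat_lit 13504) (nb (nat_lit 0x10000000000000001) (nat_lit 2432) (nb (nat_lit 0x20000000000000002) (nat_lit 1344) (nat_lit 1))))))))), (nb (nat_lit 2) (nat_lit 16000) (nb (nat_lit 2) (nat_lit 2624) (nb (nat_lit 0x20000000000000002) (nat_lit 1216) (nb (nat_lit 0x10000000000000001) (nat_lit 128) (nat_lit 0)))))⟩]⟩
def e488 : En := ⟨(nat_lit 46), (nat_lit 69888), (nat_lit 170), (nat_lit 1800), [⟨(nat_lit 0), (nat_lit 26), (nb (nat_lit 1) (nat_lit 29184) (nb (nat_lit 2) (nat_lit 27968) (nb (nat_lit 1) (nat_lit 26752) (nb (nat_lit 2) (nat_lit 15808) (nb (nat_lit 0x200000000000000000000000000000002) (nat_lit 14592) (nb (nat_lit 0x20000000000000002) (nat_lit 13504) (nb (nat_lit 0x10000000000000001) (nat_lit 2432) (nb (nat_lit 0x20000000000000002) (nat_lit 1344) (nat_lit 1))))))))), (nb (nat_lit 2) (nat_lit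 16000) (nb (nat_lit 2) (nat_lit 2624) (nb (nat_lit 0x20000000000000002) (nat_lit 1216) (nb (nat_lit 0x10000000000000001) (nat_lit 128) (nat_lit 0)))))⟩, ⟨(nat_lit 2), (nat_lit 16), (nb (nat_lit 0x1000000000000000100000000000000010000000000000002) (nat_lit 29184) (nb (nat_lit 0x2000000000000000200000000000000020000000000000004) (nat_lit 27968) (nb (nat_lit 0x1000000000000000100000000000000010000000000000002) (nat_lit 26752) (nb (nat_lit 0x400000000000000030000000000000004) (nat_lit 15808) (nb (nat_lit 0x2000000000000000500000000000000010000000000000004) (nat_lit 14592) (nb (nat_lit 0x20000000000000001) (nat_lit 13504) (nb (nat_lit 0x400000000000000040000000000000002) (nat_lit 2432) (nat_lit 0x10000000000000002)))))))), (nb (nat_lit 2) (nat_lit 13440) (nb (nat_lit 0x200000000000000070000000000000004) (nat_lit 1216) (nb (nat_lit 1) (nat_lit 192) (nat_lit 0))))⟩, ⟨(nat_lit 4), (nat_lit 24), (nb (nat_lit 0x1000000000000000100000000000000010000000000000001)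 (nat_lit 29184) (nb (nat_lit 0x2000000000000000200000000000000020000000000000002) (nat_lit 27968) (nb (nat_lit 0x1000000000000000100000000000000010000000000000001) (nat_lit 26752) (nb (nat_lit 0x2000000000000000400000000000000030000000000000002) (nat_lit 15808) (nb (nat_lit 0x2000000000000000300000000000000010000000000000002) (nat_lit 14592) (nb (nat_lit 0x2000000000000000400000000000000030000000000000001) (nat_lit 2432) (nat_lit 0x100000000000000010000000000000001))))))), (nb (nat_lit 0x10000000000000002) (nat_lit 13440) (nb (nat_lit 0x2000000000000000400000000000000050000000000000002) (nat_lit 1216) (nat_lit 0)))⟩]⟩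
def e489 : En := ⟨(nat_lit 48), (nat_lit 4368), (nat_lit 170), (nat_lit 1800), [⟨(nat_lit 2), (nat_lit 28), (nb (nat_lit 1) (nat_lit 29184) (nb (nat_lit 2) (nat_lit 27968) (nb (nat_lit 1) (nat_lit 26752) (nb (nat_lit 2) (nat_lit 15808) (nb (nat_lit 0x200000000000000000000000000000002) (nat_lit 14592) (nb (nat_lit 0x20000000000000002) (nat_lit 13504) (nb (nat_lit 0x10000000000000001) (nat_lit 2432) (nb (nat_lit 0x20000000000000002) (nat_lit 1344) (nat_lit 1))))))))), (nb (nat_lit 2) (nat_lit 16000) (nb (nat_lit 2) (nat_lit 2624) (nb (nat_lit 0x20000000000000002) (nat_lit 1216) (nb (nat_lit 0x10000000000000001) (nat_lit 128) (nat_lit 0)))))⟩, ⟨(nat_lit 4), (nat_lit 18), (nb (nat_lit 0x1000000000000000100000000000000010000000000000002) (nat_lit 29184) (nb (nat_lit 0x2000000000000000200000000000000020000000000000004) (nat_lit 27968) (nb (nat_lit 0x1000000000000000100000000000000010000000000000002) (nat_lit 26752) (nb (nat_lit 0x400000000000000030000000000000004)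 (nat_lit 15808) (nb (nat_lit 0x2000000000000000500000000000000010000000000000004) (nat_lit 14592) (nb (nat_lit 0x20000000000000001) (nat_lit 13504) (nb (nat_lit 0x400000000000000040000000000000002) (nat_lit 2432) (nat_lit 0x10000000000000002)))))))), (nb (nat_lit 2) (nat_lit 13440) (nb (nat_lit 0x200000000000000070000000000000004) (nat_lit 1216) (nb (nat_lit 1) (nat_lit 192) (nat_lit 0))))⟩, ⟨(nat_lit 6), (nat_lit 26), (nb (nat_lit 0x1000000000000000100000000000000010000000000000001) (nat_lit 29184) (nb (nat_lit 0x2000000000000000200000000000000020000000000000002) (nat_lit 27968) (nb (nat_lit 0x1000000000000000100000000000000010000000000000001) (nat_lit 26752) (nb (nat_lit 0x2000000000000000400000000000000030000000000000002) (nat_lit 15808) (nb (nat_lit 0x2000000000000000300000000000000010000000000000002) (nat_lit 14592) (nb (nat_lit 0x2000000000000000400000000000000030000000000000001) (nat_lit 2432) (nat_lit 0x100000000000000010000000000000001))))))),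 (nb (nat_lit 0x10000000000000002) (nat_lit 13440) (nb (nat_lit 0x2000000000000000400000000000000050000000000000002) (nat_lit 1216) (nat_lit 0)))⟩]⟩
def e490 : En := ⟨(nat_lit 50), (nat_lit 4113), (nat_lit 116), (nat_lit 9000), [⟨(nat_lit 2), (nat_lit 20), (nb (nat_lit 1) (nat_lit 29184) (nb (nat_lit 2) (nat_lit 27968) (nb (nat_lit 1) (nat_lit 26752) (nb (nat_lit 2) (nat_lit 15808) (nb (nat_lit 0x200000000000000000000000000000002) (nat_lit 14592) (nb (nat_lit 0x20000000000000002) (nat_lit 13504) (nb (nat_lit 0x10000000000000001) (nat_lit 2432) (nb (nat_lit 0x20000000000000002) (nat_lit 1344) (nat_lit 1))))))))), (nb (nat_lit 2) (nat_lit 16000) (nb (nat_lit 2) (nat_lit 2624) (nb (nat_lit 0x20000000000000002) (nat_lit 1216) (nb (nat_lit 0x10000000000000001) (nat_lit 128) (nat_lit 0)))))⟩, ⟨(nat_lit 6), (nat_lit 14), (nb (nat_lit 1) (nat_lit 42560) (nb (nat_lit 2) (nat_lit 41344) (nb (nat_lit 1) (nat_lit 40128) (nb (nat_lit 2) (nat_lit 29184) (nb (nat_lit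 0x200000000000000000000000000000002) (nat_lit 27968) (nb (nat_lit 0x20000000000000002) (nat_lit 26880) (nb (nat_lit 0x10000000000000001) (nat_lit 15808) (nb (nat_lit 0x20000000000000002) (nat_lit 14720) (nb (nat_lit 1) (nat_lit 13376) (nat_lit 0)))))))))), (nb (nat_lit 2) (nat_lit 29376) (nb (nat_lit 2) (nat_lit 16000) (nb (nat_lit 0x20000000000000002) (nat_lit 14592) (nb (nat_lit 0x10000000000000001) (nat_lit 13504) (nat_lit 0)))))⟩, ⟨(nat_lit 8), (nat_lit 18), (nb (nat_lit 2) (nat_lit 29376) (nb (nat_lit 4) (nat_lit 16000) (nb (nat_lit 2) (nat_lit 14656) (nb (nat_lit 2) (nat_lit 2624) (nb (nat_lit 0x20000000000000002) (nat_lit 1216) (nb (nat_lit 0x10000000000000001) (nat_lit 128) (nat_lit 0))))))), (nb (nat_lit 1) (nat_lit 42560) (nb (nat_lit 2) (nat_lit 41344) (nb (nat_lit 1) (nat_lit 40128) (nb (nat_lit 3) (nat_lit 29184) (nb (nat_lit 0x200000000000000000000000000000004) (nat_lit 27968) (nb (nat_lit 0x2000000000000000200000000000000000000000000000001)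 (nat_lit 26752) (nb (nat_lit 0x10000000000000003) (nat_lit 15808) (nb (nat_lit 0x20000000000000004) (nat_lit 14720) (nb (nat_lit 0x1000000000000000100000000000000000000000000000001) (nat_lit 13376) (nb (nat_lit 0x10000000000000001) (nat_lit 2432) (nb (nat_lit 0x20000000000000002) (nat_lit 1344) (nat_lit 1))))))))))))⟩]⟩
def e491 : En := ⟨(nat_lit 52), (nat_lit 65793), (nat_lit 116), (nat_lit 9000), [⟨(nat_lit 0), (nat_lit 10), (nb (nat_lit 2) (nat_lit 29376) (nb (nat_lit 4) (nat_lit 16000) (nb (nat_lit 2) (nat_lit 14656) (nb (nat_lit 2) (nat_lit 2624) (nb (nat_lit 0x20000000000000002) (nat_lit 1216) (nb (nat_lit 0x10000000000000001) (nat_lit 128) (nat_lit 0))))))), (nb (nat_lit 1) (nat_lit 42560) (nb (nat_lit 2) (nat_lit 41344) (nb (nat_lit 1) (nat_lit 40128) (nb (nat_lit 3) (nat_lit 29184) (nb (nat_lit 0x200000000000000000000000000000004) (nat_lit 27968) (nb (nat_lit 0x2000000000000000200000000000000000000000000000001) (nat_lit 26752) (nb (nat_lit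 0x10000000000000003) (nat_lit 15808) (nb (nat_lit 0x20000000000000004) (nat_lit 14720) (nb (nat_lit 0x1000000000000000100000000000000000000000000000001) (nat_lit 13376) (nb (nat_lit 0x10000000000000001) (nat_lit 2432) (nb (nat_lit 0x20000000000000002) (nat_lit 1344) (nat_lit 1))))))))))))⟩, ⟨(nat_lit 4), (nat_lit 22), (nb (nat_lit 1) (nat_lit 29184) (nb (nat_lit 2) (nat_lit 27968) (nb (nat_lit 1) (nat_lit 26752) (nb (nat_lit 2) (nat_lit 15808) (nb (nat_lit 0x200000000000000000000000000000002) (nat_lit 14592) (nb (nat_lit 0x20000000000000002) (nat_lit 13504) (nb (nat_lit 0x10000000000000001) (nat_lit 2432) (nb (nat_lit 0x20000000000000002) (nat_lit 1344) (nat_lit 1))))))))), (nb (nat_lit 2) (nat_lit 16000) (nb (nat_lit 2) (nat_lit 2624) (nb (nat_lit 0x20000000000000002) (nat_lit 1216) (nb (nat_lit 0x10000000000000001) (nat_lit 128) (nat_lit 0)))))⟩, ⟨(nat_lit 8), (nat_lit 16), (nb (nat_lit 1) (nat_lit 42560) (nb (nat_lit 2) (nat_lit 41344) (nb (nat_lit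 1) (nat_lit 40128) (nb (nat_lit 2) (nat_lit 29184) (nb (nat_lit 0x200000000000000000000000000000002) (nat_lit 27968) (nb (nat_lit 0x20000000000000002) (nat_lit 26880) (nb (nat_lit 0x10000000000000001) (nat_lit 15808) (nb (nat_lit 0x20000000000000002) (nat_lit 14720) (nb (nat_lit 1) (nat_lit 13376) (nat_lit 0)))))))))), (nb (nat_lit 2) (nat_lit 29376) (nb (nat_lit 2) (nat_lit 16000) (nb (nat_lit 0x20000000000000002) (nat_lit 14592) (nb (nat_lit 0x10000000000000001) (nat_lit 13504) (nat_lit 0)))))⟩]⟩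
def e492 : En := ⟨(nat_lit 54), (nat_lit 69648), (nat_lit 116), (nat_lit 9000), [⟨(nat_lit 0), (nat_lit 18), (nb (nat_lit 1) (nat_lit 42560) (nb (nat_lit 2) (nat_lit 41344) (nb (nat_lit 1) (nat_lit 40128) (nb (nat_lit 2) (nat_lit 29184) (nb (nat_lit 0x200000000000000000000000000000002) (nat_lit 27968) (nb (nat_lit 0x20000000000000002) (nat_lit 26880) (nb (nat_lit 0x10000000000000001) (nat_lit 15808) (nb (nat_lit 0x20000000000000002) (nat_lit 14720) (nb (nat_lit 1) (nat_lit 13376) (nat_lit 0)))))))))), (nb (nat_lit 2) (nat_lit 29376) (nb (nat_lit 2) (nat_lit 16000) (nb (nat_lit 0x20000000000000002) (nat_lit 14592) (nb (nat_lit 0x10000000000000001) (nat_lit 13504) (nat_lit 0)))))⟩, ⟨(nat_lit 2), (nat_lit 12), (nb (nat_lit 2) (nat_lit 29376) (nb (nat_lit 4) (nat_lit 16000) (nb (nat_lit 2) (nat_lit 14656) (nb (nat_lit 2) (nat_lit 2624) (nb (nat_lit 0x20000000000000002) (nat_lit 1216) (nb (nat_lit 0x10000000000000001) (nat_lit 128) (nat_lit 0))))))), (nb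 (nat_lit 1) (nat_lit 42560) (nb (nat_lit 2) (nat_lit 41344) (nb (nat_lit 1) (nat_lit 40128) (nb (nat_lit 3) (nat_lit 29184) (nb (nat_lit 0x200000000000000000000000000000004) (nat_lit 27968) (nb (nat_lit 0x2000000000000000200000000000000000000000000000001) (nat_lit 26752) (nb (nat_lit 0x10000000000000003) (nat_lit 15808) (nb (nat_lit 0x20000000000000004) (nat_lit 14720) (nb (nat_lit 0x1000000000000000100000000000000000000000000000001) (nat_lit 13376) (nb (nat_lit 0x10000000000000001) (nat_lit 2432) (nb (nat_lit 0x20000000000000002) (nat_lit 1344) (nat_lit 1))))))))))))⟩, ⟨(nat_lit 6), (nat_lit 24), (nb (nat_lit 1) (nat_lit 29184) (nb (nat_lit 2) (nat_lit 27968) (nb (nat_lit 1) (nat_lit 26752) (nb (nat_lit 2) (nat_lit 15808) (nb (nat_lit 0x200000000000000000000000000000002) (nat_lit 14592) (nb (nat_lit 0x20000000000000002) (nat_lit 13504) (nb (nat_lit 0x10000000000000001) (nat_lit 2432) (nb (nat_lit 0x20000000000000002) (nat_lit 1344) (nat_lit 1))))))))),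 (nb (nat_lit 2) (nat_lit 16000) (nb (nat_lit 2) (nat_lit 2624) (nb (nat_lit 0x20000000000000002) (nat_lit 1216) (nb (nat_lit 0x10000000000000001) (nat_lit 128) (nat_lit 0)))))⟩]⟩
def e493 : En := ⟨(nat_lit 56), (nat_lit 4353), (nat_lit 116), (nat_lit 9000), [⟨(nat_lit 2), (nat_lit 10), (nb (nat_lit 1) (nat_lit 42560) (nb (nat_lit 2) (nat_lit 41344) (nb (nat_lit 1) (nat_lit 40128) (nb (nat_lit 2) (nat_lit 29184) (nb (nat_lit 0x200000000000000000000000000000002) (nat_lit 27968) (nb (nat_lit 0x20000000000000002) (nat_lit 26880) (nb (nat_lit 0x10000000000000001) (nat_lit 15808) (nb (nat_lit 0x20000000000000002) (nat_lit 14720) (nb (nat_lit 1) (nat_lit 13376) (nat_lit 0)))))))))), (nb (nat_lit 2) (nat_lit 29376) (nb (nat_lit 2) (nat_lit 16000) (nb (nat_lit 0x20000000000000002) (nat_lit 14592) (nb (nat_lit 0x10000000000000001) (nat_lit 13504) (nat_lit 0)))))⟩, ⟨(nat_lit 4), (nat_lit 14), (nb (nat_lit 2) (nat_lit 29376) (nb (nat_lit 4) (nat_lit 16000) (nb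 (nat_lit 2) (nat_lit 14656) (nb (nat_lit 2) (nat_lit 2624) (nb (nat_lit 0x20000000000000002) (nat_lit 1216) (nb (nat_lit 0x10000000000000001) (nat_lit 128) (nat_lit 0))))))), (nb (nat_lit 1) (nat_lit 42560) (nb (nat_lit 2) (nat_lit 41344) (nb (nat_lit 1) (nat_lit 40128) (nb (nat_lit 3) (nat_lit 29184) (nb (nat_lit 0x200000000000000000000000000000004) (nat_lit 27968) (nb (nat_lit 0x2000000000000000200000000000000000000000000000001) (nat_lit 26752) (nb (nat_lit 0x10000000000000003) (nat_lit 15808) (nb (nat_lit 0x20000000000000004) (nat_lit 14720) (nb (nat_lit 0x1000000000000000100000000000000000000000000000001) (nat_lit 13376) (nb (nat_lit 0x10000000000000001) (nat_lit 2432) (nb (nat_lit 0x20000000000000002) (nat_lit 1344) (nat_lit 1))))))))))))⟩, ⟨(nat_lit 8), (nat_lit 26), (nb (nat_lit 1) (nat_lit 29184) (nb (nat_lit 2) (nat_lit 27968) (nb (nat_lit 1) (nat_lit 26752) (nb (nat_lit 2) (nat_lit 15808) (nb (nat_lit 0x200000000000000000000000000000002)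 (nat_lit 14592) (nb (nat_lit 0x20000000000000002) (nat_lit 13504) (nb (nat_lit 0x10000000000000001) (nat_lit 2432) (nb (nat_lit 0x20000000000000002) (nat_lit 1344) (nat_lit 1))))))))), (nb (nat_lit 2) (nat_lit 16000) (nb (nat_lit 2) (nat_lit 2624) (nb (nat_lit 0x20000000000000002) (nat_lit 1216) (nb (nat_lit 0x10000000000000001) (nat_lit 128) (nat_lit 0)))))⟩]⟩
def e494 : En := ⟨(nat_lit 58), (nat_lit 65808), (nat_lit 116), (nat_lit 9000), [⟨(nat_lit 0), (nat_lit 28), (nb (nat_lit 1) (nat_lit 29184) (nb (nat_lit 2) (nat_lit 27968) (nb (nat_lit 1) (nat_lit 26752) (nb (nat_lit 2) (nat_lit 15808) (nb (nat_lit 0x200000000000000000000000000000002) (nat_lit 14592) (nb (nat_lit 0x20000000000000002) (nat_lit 13504) (nb (nat_lit 0x10000000000000001) (nat_lit 2432) (nb (nat_lit 0x20000000000000002) (nat_lit 1344) (nat_lit 1))))))))), (nb (nat_lit 2) (nat_lit 16000) (nb (nat_lit 2) (nat_lit 2624) (nb (nat_lit 0x20000000000000002) (nat_lit 1216) (nb (nat_lit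 0x10000000000000001) (nat_lit 128) (nat_lit 0)))))⟩, ⟨(nat_lit 4), (nat_lit 12), (nb (nat_lit 1) (nat_lit 42560) (nb (nat_lit 2) (nat_lit 41344) (nb (nat_lit 1) (nat_lit 40128) (nb (nat_lit 2) (nat_lit 29184) (nb (nat_lit 0x200000000000000000000000000000002) (nat_lit 27968) (nb (nat_lit 0x20000000000000002) (nat_lit 26880) (nb (nat_lit 0x10000000000000001) (nat_lit 15808) (nb (nat_lit 0x20000000000000002) (nat_lit 14720) (nb (nat_lit 1) (nat_lit 13376) (nat_lit 0)))))))))), (nb (nat_lit 2) (nat_lit 29376) (nb (nat_lit 2) (nat_lit 16000) (nb (nat_lit 0x20000000000000002) (nat_lit 14592) (nb (nat_lit 0x10000000000000001) (nat_lit 13504) (nat_lit 0)))))⟩, ⟨(nat_lit 6), (nat_lit 16), (nb (nat_lit 2) (nat_lit 29376) (nb (nat_lit 4) (nat_lit 16000) (nb (nat_lit 2) (nat_lit 14656) (nb (nat_lit 2) (nat_lit 2624) (nb (nat_lit 0x20000000000000002) (nat_lit 1216) (nb (nat_lit 0x10000000000000001) (nat_lit 128) (nat_lit 0))))))), (nb (nat_lit 1) (nat_lit 42560)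 (nb (nat_lit 2) (nat_lit 41344) (nb (nat_lit 1) (nat_lit 40128) (nb (nat_lit 3) (nat_lit 29184) (nb (nat_lit 0x200000000000000000000000000000004) (nat_lit 27968) (nb (nat_lit 0x2000000000000000200000000000000000000000000000001) (nat_lit 26752) (nb (nat_lit 0x10000000000000003) (nat_lit 15808) (nb (nat_lit 0x20000000000000004) (nat_lit 14720) (nb (nat_lit 0x1000000000000000100000000000000000000000000000001) (nat_lit 13376) (nb (nat_lit 0x10000000000000001) (nat_lit 2432) (nb (nat_lit 0x20000000000000002) (nat_lit 1344) (nat_lit 1))))))))))))⟩]⟩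
def e495 : En := ⟨(nat_lit 10), (nat_lit 257), (nat_lit 31), (nat_lit 1800), [⟨(nat_lit 4), (nat_lit 8), (nb (nat_lit 1) (nat_lit 29184) (nb (nat_lit 2) (nat_lit 27968) (nb (nat_lit 1) (nat_lit 26752) (nb (nat_lit 2) (nat_lit 15808) (nb (nat_lit 0x200000000000000000000000000000002) (nat_lit 14592) (nb (nat_lit 0x20000000000000002) (nat_lit 13504) (nb (nat_lit 0x10000000000000001) (nat_lit 2432) (nb (nat_lit 0x20000000000000002) (nat_lit 1344) (nat_lit 1))))))))), (nb (nat_lit 2) (nat_lit 16000) (nb (nat_lit 2) (nat_lit 2624) (nb (nat_lit 0x20000000000000002) (nat_lit 1216) (nb (nat_lit 0x10000000000000001) (nat_lit 128) (nat_lit 0)))))⟩]⟩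
def e496 : En := ⟨(nat_lit 12), (nat_lit 65552), (nat_lit 31), (nat_lit 1800), [⟨(nat_lit 0), (nat_lit 6), (nb (nat_lit 2) (nat_lit 16000) (nb (nat_lit 2) (nat_lit 2624) (nb (nat_lit 0x20000000000000002) (nat_lit 1216) (nb (nat_lit 0x10000000000000001) (nat_lit 128) (nat_lit 0))))), (nb (nat_lit 1) (nat_lit 29184) (nb (nat_lit 2) (nat_lit 27968) (nb (nat_lit 1) (nat_lit 26752) (nb (nat_lit 2) (nat_lit 15808) (nb (nat_lit 0x200000000000000000000000000000002) (nat_lit 14592) (nb (nat_lit 0x20000000000000002) (nat_lit 13504) (nb (nat_lit 0x10000000000000001) (nat_lit 2432) (nb (nat_lit 0x20000000000000002) (nat_lit 1344) (nat_lit 1)))))))))⟩]⟩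
def e497 : En := ⟨(nat_lit 14), (nat_lit 4097), (nat_lit 31), (nat_lit 1800), [⟨(nat_lit 2), (nat_lit 8), (nb (nat_lit 2) (nat_lit 16000) (nb (nat_lit 2) (nat_lit 2624) (nb (nat_lit 0x20000000000000002) (nat_lit 1216) (nb (nat_lit 0x10000000000000001) (nat_lit 128) (nat_lit 0))))), (nb (nat_lit 1) (nat_lit 29184) (nb (nat_lit 2) (nat_lit 27968) (nb (nat_lit 1) (nat_lit 26752) (nb (nat_lit 2) (nat_lit 15808) (nb (nat_lit 0x200000000000000000000000000000002) (nat_lit 14592) (nb (nat_lit 0x20000000000000002) (nat_lit 13504) (nb (nat_lit 0x10000000000000001) (nat_lit 2432) (nb (nat_lit 0x20000000000000002) (nat_lit 1344) (nat_lit 1)))))))))⟩]⟩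
def e498 : En := ⟨(nat_lit 16), (nat_lit 65792), (nat_lit 31), (nat_lit 1800), [⟨(nat_lit 0), (nat_lit 4), (nb (nat_lit 1) (nat_lit 29184) (nb (nat_lit 2) (nat_lit 27968) (nb (nat_lit 1) (nat_lit 26752) (nb (nat_lit 2) (nat_lit 15808) (nb (nat_lit 0x200000000000000000000000000000002) (nat_lit 14592) (nb (nat_lit 0x20000000000000002) (nat_lit 13504) (nb (nat_lit 0x10000000000000001) (nat_lit 2432) (nb (nat_lit 0x20000000000000002) (nat_lit 1344) (nat_lit 1))))))))), (nb (nat_lit 2) (nat_lit 16000) (nb (nat_lit 2) (nat_lit 2624) (nb (nat_lit 0x20000000000000002) (nat_lit 1216) (nb (nat_lit 0x10000000000000001) (nat_lit 128) (nat_lit 0)))))⟩]⟩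
def e499 : En := ⟨(nat_lit 18), (nat_lit 4112), (nat_lit 31), (nat_lit 1800), [⟨(nat_lit 2), (nat_lit 6), (nb (nat_lit 1) (nat_lit 29184) (nb (nat_lit 2) (nat_lit 27968) (nb (nat_lit 1) (nat_lit 26752) (nb (nat_lit 2) (nat_lit 15808) (nb (nat_lit 0x200000000000000000000000000000002) (nat_lit 14592) (nb (nat_lit 0x20000000000000002) (nat_lit 13504) (nb (nat_lit 0x10000000000000001) (nat_lit 2432) (nb (nat_lit 0x20000000000000002) (nat_lit 1344) (nat_lit 1))))))))), (nb (nat_lit 2) (nat_lit 16000) (nb (nat_lit 2) (nat_lit 2624) (nb (nat_lit 0x20000000000000002) (nat_lit 1216) (nb (nat_lit 0x10000000000000001) (nat_lit 128) (nat_lit 0)))))⟩]⟩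
def e500 : En := ⟨(nat_lit 20), (nat_lit 17), (nat_lit 31), (nat_lit 1800), [⟨(nat_lit 6), (nat_lit 8), (nb (nat_lit 1) (nat_lit 29184) (nb (nat_lit 2) (nat_lit 27968) (nb (nat_lit 1) (nat_lit 26752) (nb (nat_lit 2) (nat_lit 15808) (nb (nat_lit 0x200000000000000000000000000000002) (nat_lit 14592) (nb (nat_lit 0x20000000000000002) (nat_lit 13504) (nb (nat_lit 0x10000000000000001) (nat_lit 2432) (nb (nat_lit 0x20000000000000002) (nat_lit 1344) (nat_lit 1))))))))), (nb (nat_lit 2) (nat_lit 16000) (nb (nat_lit 2) (nat_lit 2624) (nb (nat_lit 0x20000000000000002) (nat_lit 1216) (nb (nat_lit 0x10000000000000001) (nat_lit 128) (nat_lit 0)))))⟩]⟩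
def e501 : En := ⟨(nat_lit 22), (nat_lit 65537), (nat_lit 31), (nat_lit 1800), [⟨(nat_lit 0), (nat_lit 8), (nb (nat_lit 2) (nat_lit 16000) (nb (nat_lit 2) (nat_lit 2624) (nb (nat_lit 0x20000000000000002) (nat_lit 1216) (nb (nat_lit 0x10000000000000001) (nat_lit 128) (nat_lit 0))))), (nb (nat_lit 1) (nat_lit 29184) (nb (nat_lit 2) (nat_lit 27968) (nb (nat_lit 1) (nat_lit 26752) (nb (nat_lit 2) (nat_lit 15808) (nb (nat_lit 0x200000000000000000000000000000002) (nat_lit 14592) (nb (nat_lit 0x20000000000000002) (nat_lit 13504) (nb (nat_lit 0x10000000000000001) (nat_lit 2432) (nb (nat_lit 0x20000000000000002) (nat_lit 1344) (nat_lit 1)))))))))⟩]⟩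
def e502 : En := ⟨(nat_lit 24), (nat_lit 69632), (nat_lit 31), (nat_lit 1800), [⟨(nat_lit 0), (nat_lit 2), (nb (nat_lit 1) (nat_lit 29184) (nb (nat_lit 2) (nat_lit 27968) (nb (nat_lit 1) (nat_lit 26752) (nb (nat_lit 2) (nat_lit 15808) (nb (nat_lit 0x200000000000000000000000000000002) (nat_lit 14592) (nb (nat_lit 0x20000000000000002) (nat_lit 13504) (nb (nat_lit 0x10000000000000001) (nat_lit 2432) (nb (nat_lit 0x20000000000000002) (nat_lit 1344) (nat_lit 1))))))))), (nb (nat_lit 2) (nat_lit 16000) (nb (nat_lit 2) (nat_lit 2624) (nb (nat_lit 0x20000000000000002) (nat_lit 1216) (nb (nat_lit 0x10000000000000001) (nat_lit 128) (nat_lit 0)))))⟩]⟩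
def e503 : En := ⟨(nat_lit 26), (nat_lit 4352), (nat_lit 31), (nat_lit 1800), [⟨(nat_lit 2), (nat_lit 4), (nb (nat_lit 1) (nat_lit 29184) (nb (nat_lit 2) (nat_lit 27968) (nb (nat_lit 1) (nat_lit 26752) (nb (nat_lit 2) (nat_lit 15808) (nb (nat_lit 0x200000000000000000000000000000002) (nat_lit 14592) (nb (nat_lit 0x20000000000000002) (nat_lit 13504) (nb (nat_lit 0x10000000000000001) (nat_lit 2432) (nb (nat_lit 0x20000000000000002) (nat_lit 1344) (nat_lit 1))))))))), (nb (nat_lit 2) (nat_lit 16000) (nb (nat_lit 2) (nat_lit 2624) (nb (nat_lit 0x20000000000000002) (nat_lit 1216) (nb (nat_lit 0x10000000000000001) (nat_lit 128) (nat_lit 0)))))⟩]⟩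
def e504 : En := ⟨(nat_lit 28), (nat_lit 272), (nat_lit 31), (nat_lit 1800), [⟨(nat_lit 4), (nat_lit 6), (nb (nat_lit 1) (nat_lit 29184) (nb (nat_lit 2) (nat_lit 27968) (nb (nat_lit 1) (nat_lit 26752) (nb (nat_lit 2) (nat_lit 15808) (nb (nat_lit 0x200000000000000000000000000000002) (nat_lit 14592) (nb (nat_lit 0x20000000000000002) (nat_lit 13504) (nb (nat_lit 0x10000000000000001) (nat_lit 2432) (nb (nat_lit 0x20000000000000002) (nat_lit 1344) (nat_lit 1))))))))), (nb (nat_lit 2) (nat_lit 16000) (nb (nat_lit 2) (nat_lit 2624) (nb (nat_lit 0x20000000000000002) (nat_lit 1216) (nb (nat_lit 0x10000000000000001) (nat_lit 128) (nat_lit 0)))))⟩]⟩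
def e505 : En := ⟨(nat_lit 75), (nat_lit 69905), (nat_lit 2104), (nat_lit 27000), [⟨(nat_lit 0), (nat_lit 60), (nb (nat_lit 2) (nat_lit 16000) (nb (nat_lit 2) (nat_lit 2624) (nb (nat_lit 0x20000000000000002) (nat_lit 1216) (nb (nat_lit 0x10000000000000001) (nat_lit 128) (nat_lit 0))))), (nb (nat_lit 1) (nat_lit 29184) (nb (nat_lit 2) (nat_lit 27968) (nb (nat_lit 1) (nat_lit 26752) (nb (nat_lit 2) (nat_lit 15808) (nb (nat_lit 0x200000000000000000000000000000002) (nat_lit 14592) (nb (nat_lit 0x20000000000000002) (nat_lit 13504) (nb (nat_lit 0x10000000000000001) (nat_lit 2432) (nb (nat_lit 0x20000000000000002) (nat_lit 1344) (nat_lit 1)))))))))⟩, ⟨(nat_lit 2), (nat_lit 62), (nb (nat_lit 2) (nat_lit 15872) (nb (nat_lit 0x100000000000000030000000000000001) (nat_lit 2432) (nat_lit 0x10000000000000001))), (nb (nat_lit 1) (nat_lit 29376) (nb (nat_lit 2) (nat_lit 28160) (nb (nat_lit 1) (nat_lit 26944) (nb (nat_lit 2) (nat_lit 16000) (nb (nat_lit 0x2000000000000000000000000000000000000000000000002)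 (nat_lit 14592) (nb (nat_lit 0x20000000000000002) (nat_lit 13376) (nb (nat_lit 0x200000000000000040000000000000004) (nat_lit 1216) (nb (nat_lit 1) (nat_lit 192) (nat_lit 0)))))))))⟩, ⟨(nat_lit 4), (nat_lit 64), (nb (nat_lit 0x200000000000000020000000000000002) (nat_lit 13376) (nb (nat_lit 0x400000000000000040000000000000002) (nat_lit 1216) (nat_lit 0))), (nb (nat_lit 1) (nat_lit 29248) (nb (nat_lit 2) (nat_lit 28032) (nb (nat_lit 1) (nat_lit 26816) (nb (nat_lit 0x2000000000000000200000000000000040000000000000002) (nat_lit 15808) (nb (nat_lit 0x200000000000000000000000000000002) (nat_lit 14656) (nb (nat_lit 0x2000000000000000300000000000000030000000000000002) (nat_lit 2432) (nat_lit 0x100000000000000020000000000000001)))))))⟩, ⟨(nat_lit 6), (nat_lit 66), (nb (nat_lit 0x1000000000000000100000000000000010000000000000001) (nat_lit 29184) (nb (nat_lit 0x2000000000000000200000000000000020000000000000002) (nat_lit 27968) (nb (nat_lit 0x1000000000000000100000000000000010000000000000001)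 (nat_lit 26752) (nb (nat_lit 0x2000000000000000400000000000000020000000000000002) (nat_lit 15808) (nb (nat_lit 0x2000000000000000200000000000000000000000000000002) (nat_lit 14592) (nb (nat_lit 0x100000000000000030000000000000001) (nat_lit 2496) (nat_lit 0x1000000000000000200000000000000020000000000000001))))))), (nb (nat_lit 0x20000000000000002) (nat_lit 13440) (nb (nat_lit 0x200000000000000040000000000000004) (nat_lit 1280) (nat_lit 0)))⟩, ⟨(nat_lit 8), (nat_lit 68), (nb (nat_lit 2) (nat_lit 15808) (nb (nat_lit 0x2000000000000000000000000000000020000000000000002) (nat_lit 14592) (nb (nat_lit 0x200000000000000020000000000000002) (nat_lit 13440) (nb (nat_lit 2) (nat_lit 2432) (nb (nat_lit 0x400000000000000040000000000000002) (nat_lit 1280) (nat_lit 0)))))), (nb (nat_lit 1) (nat_lit 29312) (nb (nat_lit 2) (nat_lit 28096) (nb (nat_lit 1) (nat_lit 26880) (nb (nat_lit 2) (nat_lit 15936) (nb (nat_lit 0x10000000000000001) (nat_lit 2560) (nb (nat_lit 0x100000000000000020000000000000001)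 (nat_lit 64) (nat_lit 0)))))))⟩, ⟨(nat_lit 10), (nat_lit 54), (nb (nat_lit 1) (nat_lit 30400) (nb (nat_lit 0x1000000000000000000000000000000020000000000000003) (nat_lit 29184) (nb (nat_lit 0x2000000000000000100000000000000040000000000000003) (nat_lit 27968) (nb (nat_lit 0x1000000000000000100000000000000020000000000000001) (nat_lit 26752) (nb (nat_lit 4) (nat_lit 17024) (nb (nat_lit 0x40000000000000006000000000000000a0000000000000008) (nat_lit 15808) (nb (nat_lit 0x6000000000000000800000000000000060000000000000002) (nat_lit 14592) (nb (nat_lit 4) (nat_lit 3648) (nb (nat_lit 0xa0000000000000010000000000000000c0000000000000004) (nat_lit 2432) (nat_lit 0x100000000000000020000000000000001)))))))))), (nb (nat_lit 1) (nat_lit 30528) (nb (nat_lit 1) (nat_lit 29312) (nb (nat_lit 0x20000000000000004) (nat_lit 17152) (nb (nat_lit 0x200000000000000040000000000000002) (nat_lit 13376) (nb (nat_lit 0x40000000000000004) (nat_lit 3776) (nb (nat_lit 0x20000000000000009000000000000000a0000000000000005)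 (nat_lit 1216) (nb (nat_lit 1) (nat_lit 192) (nat_lit 0))))))))⟩, ⟨(nat_lit 12), (nat_lit 56), (nb (nat_lit 1) (nat_lit 30592) (nb (nat_lit 1) (nat_lit 29376) (nb (nat_lit 4) (nat_lit 17216) (nb (nat_lit 2) (nat_lit 14592) (nb (nat_lit 0x2000000000000000400000000000000040000000000000002) (nat_lit 13376) (nb (nat_lit 4) (nat_lit 3840) (nb (nat_lit 4) (nat_lit 2432) (nb (nat_lit 0x5000000000000000a00000000000000080000000000000001) (nat_lit 1216) (nat_lit 0))))))))), (nb (nat_lit 1) (nat_lit 30400) (nb (nat_lit 0x200000000000000010000000000000003) (nat_lit 29184) (nb (nat_lit 0x1000000000000000400000000000000020000000000000003) (nat_lit 27968) (nb (nat_lit 0x1000000000000000200000000000000010000000000000001) (nat_lit 26752) (nb (nat_lit 0x20000000000000004) (nat_lit 17024) (nb (nat_lit 0x2000000000000000a00000000000000060000000000000004) (nat_lit 15808) (nb (nat_lit 0x40000000000000006) (nat_lit 14720) (nb (nat_lit 0x40000000000000004) (nat_lit 3648)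 (nb (nat_lit 0x8000000000000000c0000000000000002) (nat_lit 2496) (nat_lit 0x1000000000000000200000000000000030000000000000001))))))))))⟩, ⟨(nat_lit 14), (nat_lit 58), (nb (nat_lit 1) (nat_lit 30464) (nb (nat_lit 0x10000000000000002) (nat_lit 29248) (nb (nat_lit 0x20000000000000001) (nat_lit 28032) (nb (nat_lit 1) (nat_lit 26880) (nb (nat_lit 0x200000000000000060000000000000002) (nat_lit 17024) (nb (nat_lit 0x200000000000000060000000000000004) (nat_lit 15872) (nb (nat_lit 2) (nat_lit 14784) (nb (nat_lit 0x400000000000000080000000000000004) (nat_lit 3648) (nb (nat_lit 0x60000000000000002) (nat_lit 2560) (nb (nat_lit 2) (nat_lit 1216) (nat_lit 0x2000000000000000300000000000000020000000000000001))))))))))), (nb (nat_lit 1) (nat_lit 30592) (nb (nat_lit 0x2000000000000000000000000000000000000000000000001) (nat_lit 29184) (nb (nat_lit 0x1000000000000000000000000000000000000000000000002) (nat_lit 27968) (nb (nat_lit 1) (nat_lit 26752) (nb (nat_lit 2) (nat_lit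 17216) (nb (nat_lit 4) (nat_lit 15808) (nb (nat_lit 0x40000000000000006) (nat_lit 14592) (nb (nat_lit 0x200000000000000040000000000000002) (nat_lit 13440) (nb (nat_lit 0x6000000000000000a) (nat_lit 2432) (nb (nat_lit 0x700000000000000080000000000000003) (nat_lit 1280) (nat_lit 0)))))))))))⟩, ⟨(nat_lit 16), (nat_lit 50), (nb (nat_lit 1) (nat_lit 27968) (nb (nat_lit 1) (nat_lit 26752) (nb (nat_lit 2) (nat_lit 15808) (nb (nat_lit 0x400000000000000060000000000000004) (nat_lit 14592) (nb (nat_lit 0x20000000000000002) (nat_lit 13504) (nb (nat_lit 0x6000000000000000c0000000000000008) (nat_lit 2432) (nb (nat_lit 0x50000000000000003) (nat_lit 1344) (nat_lit 1)))))))), (nb (nat_lit 0x1000000000000000100000000000000020000000000000001) (nat_lit 30400) (nb (nat_lit 0x3000000000000000200000000000000040000000000000001) (nat_lit 29184) (nb (nat_lit 0x300000000000000010000000000000002) (nat_lit 28032) (nb (nat_lit 1) (nat_lit 26944) (nb (nat_lit 0x4000000000000000600000000000000080000000000000004)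 (nat_lit 17024) (nb (nat_lit 0x800000000000000040000000000000002) (nat_lit 15872) (nb (nat_lit 2) (nat_lit 14784) (nb (nat_lit 2) (nat_lit 13376) (nb (nat_lit 0x4000000000000000800000000000000080000000000000004) (nat_lit 3648) (nb (nat_lit 4) (nat_lit 2624) (nb (nat_lit 0x40000000000000005) (nat_lit 1216) (nb (nat_lit 0x10000000000000002) (nat_lit 128) (nat_lit 0)))))))))))))⟩, ⟨(nat_lit 18), (nat_lit 52), (nb (nat_lit 0x1000000000000000200000000000000010000000000000001) (nat_lit 30400) (nb (nat_lit 0x3000000000000000400000000000000010000000000000002) (nat_lit 29184) (nb (nat_lit 0x3000000000000000200000000000000000000000000000001) (nat_lit 27968) (nb (nat_lit 1) (nat_lit 26944) (nb (nat_lit 0x4000000000000000800000000000000040000000000000002) (nat_lit 17024) (nb (nat_lit 0x40000000000000002) (nat_lit 15936) (nb (nat_lit 0x20000000000000002) (nat_lit 13376) (nb (nat_lit 0x400000000000000080000000000000004) (nat_lit 3712) (nb (nat_lit 0x400000000000000090000000000000007)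 (nat_lit 1216) (nb (nat_lit 1) (nat_lit 192) (nat_lit 0))))))))))), (nb (nat_lit 1) (nat_lit 28032) (nb (nat_lit 1) (nat_lit 26816) (nb (nat_lit 0x60000000000000002) (nat_lit 15808) (nb (nat_lit 0x2000000000000000600000000000000080000000000000002) (nat_lit 14592) (nb (nat_lit 2) (nat_lit 13568) (nb (nat_lit 0x4000000000000000c00000000000000100000000000000006) (nat_lit 2432) (nb (nat_lit 1) (nat_lit 1408) (nat_lit 0x10000000000000002))))))))⟩, ⟨(nat_lit 20), (nat_lit 46), (nb (nat_lit 0x10000000000000001) (nat_lit 43904) (nb (nat_lit 0x30000000000000003) (nat_lit 42688) (nb (nat_lit 0x30000000000000003) (nat_lit 41472) (nb (nat_lit 0x10000000000000001) (nat_lit 40256) (nb (nat_lit 0x40000000000000004) (nat_lit 30528) (nb (nat_lit 0x50000000000000005) (nat_lit 29312) (nb (nat_lit 1) (nat_lit 26752) (nb (nat_lit 0x50000000000000004) (nat_lit 17152) (nb (nat_lit 0x20000000000000005) (nat_lit 14592) (nb (nat_lit 0x300000000000000040000000000000002) (nat_lit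 13440) (nb (nat_lit 2) (nat_lit 3840) (nb (nat_lit 0x30000000000000007) (nat_lit 2432) (nb (nat_lit 0x600000000000000070000000000000002) (nat_lit 1280) (nat_lit 0)))))))))))))), (nb (nat_lit 0x20000000000000002) (nat_lit 30400) (nb (nat_lit 0x50000000000000003) (nat_lit 29184) (nb (nat_lit 0x200000000000000020000000000000004) (nat_lit 28032) (nb (nat_lit 0x300000000000000030000000000000001) (nat_lit 26816) (nb (nat_lit 0x70000000000000007) (nat_lit 17024) (nb (nat_lit 0x5000000000000000500000000000000070000000000000001) (nat_lit 15808) (nb (nat_lit 0x70000000000000005) (nat_lit 14720) (nb (nat_lit 1) (nat_lit 13376) (nb (nat_lit 0x60000000000000006) (nat_lit 3648) (nb (nat_lit 0x90000000000000006) (nat_lit 2560) (nb (nat_lit 2) (nat_lit 1216) (nb (nat_lit 0x100000000000000020000000000000001) (nat_lit 64) (nat_lit 0)))))))))))))⟩, ⟨(nat_lit 22), (nat_lit 48), (nb (nat_lit 0x10000000000000001) (nat_lit 43776) (nb (nat_lit 0x30000000000000003) (nat_lit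 42560) (nb (nat_lit 0x30000000000000003) (nat_lit 41344) (nb (nat_lit 0x10000000000000001) (nat_lit 40128) (nb (nat_lit 0x200000000000000060000000000000006) (nat_lit 30400) (nb (nat_lit 0x20000000000000005000000000000000a000000000000000a) (nat_lit 29184) (nb (nat_lit 0x4000000000000000400000000000000020000000000000002) (nat_lit 27968) (nb (nat_lit 0x20000000000000001) (nat_lit 26880) (nb (nat_lit 0x7000000000000000c000000000000000b) (nat_lit 17024) (nb (nat_lit 0x6000000000000000700000000000000020000000000000002) (nat_lit 15808) (nb (nat_lit 3) (nat_lit 14784) (nb (nat_lit 0x10000000000000002) (nat_lit 13376) (nb (nat_lit 0x600000000000000080000000000000006) (nat_lit 3648) (nb (nat_lit 4) (nat_lit 2624) (nb (nat_lit 0x40000000000000005) (nat_lit 1216) (nb (nat_lit 0x10000000000000001) (nat_lit 128) (nat_lit 0))))))))))))))))), (nb (nat_lit 0x20000000000000002) (nat_lit 26752) (nb (nat_lit 0x200000000000000090000000000000007) (nat_lit 14592) (nb (nat_lit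 0x30000000000000002) (nat_lit 13504) (nb (nat_lit 0x3000000000000000c0000000000000009) (nat_lit 2432) (nb (nat_lit 0x40000000000000002) (nat_lit 1344) (nat_lit 1))))))⟩, ⟨(nat_lit 24), (nat_lit 40), (nb (nat_lit 0x20000000000000002) (nat_lit 27968) (nb (nat_lit 0x200000000000000040000000000000003) (nat_lit 26752) (nb (nat_lit 0x40000000000000005) (nat_lit 15808) (nb (nat_lit 0x20000000000000009000000000000000c0000000000000007) (nat_lit 14592) (nb (nat_lit 1) (nat_lit 13568) (nb (nat_lit 0x3000000000000000c00000000000000100000000000000009) (nat_lit 2432) (nb (nat_lit 1) (nat_lit 1408) (nat_lit 0x10000000000000001)))))))), (nb (nat_lit 0x100000000000000010000000000000001) (nat_lit 43776) (nb (nat_lit 0x300000000000000030000000000000003) (nat_lit 42560) (nb (nat_lit 0x300000000000000030000000000000003) (nat_lit 41344) (nb (nat_lit 0x100000000000000010000000000000001) (nat_lit 40128) (nb (nat_lit 0x600000000000000060000000000000004) (nat_lit 30400) (nb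 (nat_lit 0xa00000000000000080000000000000005) (nat_lit 29184) (nb (nat_lit 2) (nat_lit 28096) (nb (nat_lit 0x1000000000000000c000000000000000c0000000000000005) (nat_lit 17024) (nb (nat_lit 2) (nat_lit 15936) (nb (nat_lit 0x100000000000000040000000000000003) (nat_lit 13376) (nb (nat_lit 0x2000000000000000800000000000000080000000000000002) (nat_lit 3648) (nb (nat_lit 0x400000000000000080000000000000006) (nat_lit 1216) (nb (nat_lit 1) (nat_lit 192) (nat_lit 0))))))))))))))⟩, ⟨(nat_lit 26), (nat_lit 42), (nb (nat_lit 0x10000000000000001) (nat_lit 43840) (nb (nat_lit 0x30000000000000003) (nat_lit 42624) (nb (nat_lit 0x30000000000000003) (nat_lit 41408) (nb (nat_lit 0x10000000000000001) (nat_lit 40192) (nb (nat_lit 0x200000000000000060000000000000006) (nat_lit 30464) (nb (nat_lit 0x300000000000000080000000000000008) (nat_lit 29248) (nb (nat_lit 0x7000000000000000c000000000000000b) (nat_lit 17088) (nb (nat_lit 1) (nat_lit 16000) (nb (nat_lit 0x1000000000000000400000000000000050000000000000003)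 (nat_lit 13376) (nb (nat_lit 0x600000000000000080000000000000006) (nat_lit 3712) (nb (nat_lit 0x2000000000000000800000000000000090000000000000004) (nat_lit 1216) (nat_lit 0)))))))))))), (nb (nat_lit 2) (nat_lit 29184) (nb (nat_lit 0x200000000000000020000000000000004) (nat_lit 27968) (nb (nat_lit 0x1000000000000000400000000000000040000000000000002) (nat_lit 26752) (nb (nat_lit 0x400000000000000040000000000000006) (nat_lit 15808) (nb (nat_lit 0x5000000000000000c000000000000000a0000000000000003) (nat_lit 14592) (nb (nat_lit 0x70000000000000010000000000000000d0000000000000004) (nat_lit 2432) (nat_lit 0x100000000000000020000000000000001)))))))⟩, ⟨(nat_lit 28), (nat_lit 44), (nb (nat_lit 0x20000000000000002) (nat_lit 28032) (nb (nat_lit 0x200000000000000040000000000000003) (nat_lit 26816) (nb (nat_lit 1) (nat_lit 17024) (nb (nat_lit 0x40000000000000005) (nat_lit 15872) (nb (nat_lit 0x7000000000000000a0000000000000005) (nat_lit 14656) (nb (nat_lit 2) (nat_lit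 3648) (nb (nat_lit 0x9000000000000000d0000000000000006) (nat_lit 2496) (nat_lit 0x1000000000000000200000000000000020000000000000001)))))))), (nb (nat_lit 0x100000000000000010000000000000001) (nat_lit 43840) (nb (nat_lit 0x300000000000000030000000000000003) (nat_lit 42624) (nb (nat_lit 0x300000000000000030000000000000003) (nat_lit 41408) (nb (nat_lit 0x100000000000000010000000000000001) (nat_lit 40192) (nb (nat_lit 0x600000000000000060000000000000004) (nat_lit 30464) (nb (nat_lit 0xa00000000000000080000000000000005) (nat_lit 29248) (nb (nat_lit 2) (nat_lit 28160) (nb (nat_lit 0xb000000000000000b0000000000000004) (nat_lit 17088) (nb (nat_lit 2) (nat_lit 16000) (nb (nat_lit 2) (nat_lit 14592) (nb (nat_lit 0x2000000000000000500000000000000040000000000000001) (nat_lit 13376) (nb (nat_lit 0x60000000000000006) (nat_lit 3776) (nb (nat_lit 3) (nat_lit 2432) (nb (nat_lit 0x5000000000000000900000000000000070000000000000001) (nat_lit 1216) (nat_lit 0)))))))))))))))⟩]⟩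
def e506 : En := ⟨(nat_lit 60), (nat_lit 4369), (nat_lit 33925), (nat_lit 216), [⟨(nat_lit 2), (nat_lit 40), (nb (nat_lit 0x7d00000000000000fa0000000000000096) (nat_lit 3648) (nb (nat_lit 175) (nat_lit 2624) (nb (nat_lit 0x4b00000000000002a30000000000000258) (nat_lit 1216) (nb (nat_lit 0xc8000000000000004b) (nat_lit 128) (nat_lit 0))))), (nb (nat_lit 25) (nat_lit 3840) (nb (nat_lit 0xfa00000000000002ee0000000000000226) (nat_lit 2432) (nb (nat_lit 350) (nat_lit 1408) (nat_lit 0xc800000000000000c8))))⟩, ⟨(nat_lit 4), (nat_lit 50), (nb (nat_lit 0xe1000000000000004b) (nat_lit 2560) (nb (nat_lit 0x15e0000000000000226) (nat_lit 1216) (nb (nat_lit 0x15e0000000000000145) (nat_lit 128) (nat_lit 0)))), (nb (nat_lit 0x145000000000000015e) (nat_lit 2432) (nb (nat_lit 0x226000000000000015e) (nat_lit 1344) (nat_lit 0x4b00000000000000e1)))⟩, ⟨(nat_lit 6), (nat_lit 56), (nb (nat_lit 0xe1000000000000004b) (nat_lit 3776) (nb (nat_lit 0x15e0000000000000226) (nat_lit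 2432) (nb (nat_lit 0x15e0000000000000145) (nat_lit 1344) (nat_lit 0)))), (nb (nat_lit 0x145000000000000015e) (nat_lit 3648) (nb (nat_lit 0x226000000000000015e) (nat_lit 2560) (nb (nat_lit 0x4b00000000000000e1) (nat_lit 1216) (nat_lit 0))))⟩, ⟨(nat_lit 8), (nat_lit 48), (nb (nat_lit 0x6400000000000000fa0000000000000113000000000000007d) (nat_lit 3648) (nb (nat_lit 0x4b00000000000002a300000000000004010000000000000258) (nat_lit 1216) (nat_lit 0))), (nb (nat_lit 0xc800000000000002ee000000000000039d00000000000001f4) (nat_lit 2432) (nat_lit 0xc800000000000001900000000000000113))⟩, ⟨(nat_lit 10), (nat_lit 18), (nb (nat_lit 75) (nat_lit 3648) (nb (nat_lit 0x27100000000000004fb00000000000004330000000000000113) (nat_lit 2432) (nat_lit 0xc800000000000001c2000000000000012c))), (nb (nat_lit 0x12c00000000000001c200000000000000c8) (nat_lit 3712) (nb (nat_lit 0x113000000000000043300000000000004fb0000000000000271) (nat_lit 1216) (nb (nat_lit 75) (nat_lit 192) (nat_lit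 0))))⟩, ⟨(nat_lit 14), (nat_lit 28), (nb (nat_lit 0x4b000000000000007d) (nat_lit 3648) (nb (nat_lit 0x1900000000000000113) (nat_lit 2560) (nb (nat_lit 0x1130000000000000190) (nat_lit 1216) (nb (nat_lit 0x7d000000000000004b) (nat_lit 128) (nat_lit 0))))), (nb (nat_lit 0xaf0000000000000096) (nat_lit 3776) (nb (nat_lit 0xfa00000000000001a9) (nat_lit 2432) (nb (nat_lit 0x1a900000000000000fa) (nat_lit 1344) (nat_lit 0x9600000000000000af))))⟩, ⟨(nat_lit 20), (nat_lit 26), (nb (nat_lit 25) (nat_lit 3840) (nb (nat_lit 0x32000000000000014500000000000001a900000000000000c8) (nat_lit 2432) (nb (nat_lit 0x9600000000000000fa000000000000007d) (nat_lit 64) (nat_lit 0)))), (nb (nat_lit 0x7d00000000000000fa0000000000000096) (nat_lit 3648) (nb (nat_lit 0xc800000000000001a900000000000001450000000000000032) (nat_lit 1216) (nat_lit 25)))⟩]⟩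
def e507 : En := ⟨(nat_lit 62), (nat_lit 65809), (nat_lit 33925), (nat_lit 216), [⟨(nat_lit 0), (nat_lit 40), (nb (nat_lit 0x6400000000000000fa0000000000000113000000000000007d) (nat_lit 3648) (nb (nat_lit 0x4b00000000000002a300000000000004010000000000000258) (nat_lit 1216) (nat_lit 0))), (nb (nat_lit 0xc800000000000002ee000000000000039d00000000000001f4) (nat_lit 2432) (nat_lit 0xc800000000000001900000000000000113))⟩, ⟨(nat_lit 4), (nat_lit 42), (nb (nat_lit 0x7d00000000000000fa0000000000000096) (nat_lit 3648) (nb (nat_lit 175) (nat_lit 2624) (nb (nat_lit 0x4b00000000000002a30000000000000258) (nat_lit 1216) (nb (nat_lit 0xc8000000000000004b) (nat_lit 128) (nat_lit 0))))), (nb (nat_lit 25) (nat_lit 3840) (nb (nat_lit 0xfa00000000000002ee0000000000000226) (nat_lit 2432) (nb (nat_lit 350) (nat_lit 1408) (nat_lit 0xc800000000000000c8))))⟩, ⟨(nat_lit 6), (nat_lit 52), (nb (nat_lit 0xe1000000000000004b) (nat_lit 2560) (nb (nat_lit 0x15e0000000000000226)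 (nat_lit 1216) (nb (nat_lit 0x15e0000000000000145) (nat_lit 128) (nat_lit 0)))), (nb (nat_lit 0x145000000000000015e) (nat_lit 2432) (nb (nat_lit 0x226000000000000015e) (nat_lit 1344) (nat_lit 0x4b00000000000000e1)))⟩, ⟨(nat_lit 8), (nat_lit 58), (nb (nat_lit 0xe1000000000000004b) (nat_lit 3776) (nb (nat_lit 0x15e0000000000000226) (nat_lit 2432) (nb (nat_lit 0x15e0000000000000145) (nat_lit 1344) (nat_lit 0)))), (nb (nat_lit 0x145000000000000015e) (nat_lit 3648) (nb (nat_lit 0x226000000000000015e) (nat_lit 2560) (nb (nat_lit 0x4b00000000000000e1) (nat_lit 1216) (nat_lit 0))))⟩, ⟨(nat_lit 10), (nat_lit 12), (nb (nat_lit 0x12c00000000000001c200000000000000c8) (nat_lit 3712) (nb (nat_lit 0x113000000000000043300000000000004fb0000000000000271) (nat_lit 1216) (nb (nat_lit 75) (nat_lit 192) (nat_lit 0)))), (nb (nat_lit 75) (nat_lit 3648) (nb (nat_lit 0x27100000000000004fb00000000000004330000000000000113) (nat_lit 2432) (nat_lit 0xc800000000000001c2000000000000012c)))⟩,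 ⟨(nat_lit 16), (nat_lit 20), (nb (nat_lit 0x4b000000000000007d) (nat_lit 3648) (nb (nat_lit 0x1900000000000000113) (nat_lit 2560) (nb (nat_lit 0x1130000000000000190) (nat_lit 1216) (nb (nat_lit 0x7d000000000000004b) (nat_lit 128) (nat_lit 0))))), (nb (nat_lit 0xaf0000000000000096) (nat_lit 3776) (nb (nat_lit 0xfa00000000000001a9) (nat_lit 2432) (nb (nat_lit 0x1a900000000000000fa) (nat_lit 1344) (nat_lit 0x9600000000000000af))))⟩, ⟨(nat_lit 22), (nat_lit 28), (nb (nat_lit 25) (nat_lit 3840) (nb (nat_lit 0x32000000000000014500000000000001a900000000000000c8) (nat_lit 2432) (nb (nat_lit 0x9600000000000000fa000000000000007d) (nat_lit 64) (nat_lit 0)))), (nb (nat_lit 0x7d00000000000000fa0000000000000096) (nat_lit 3648) (nb (nat_lit 0xc800000000000001a900000000000001450000000000000032) (nat_lit 1216) (nat_lit 25)))⟩]⟩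
def e508 : En := ⟨(nat_lit 64), (nat_lit 69649), (nat_lit 33925), (nat_lit 216), [⟨(nat_lit 0), (nat_lit 50), (nb (nat_lit 0xe1000000000000004b) (nat_lit 3776) (nb (nat_lit 0x15e0000000000000226) (nat_lit 2432) (nb (nat_lit 0x15e0000000000000145) (nat_lit 1344) (nat_lit 0)))), (nb (nat_lit 0x145000000000000015e) (nat_lit 3648) (nb (nat_lit 0x226000000000000015e) (nat_lit 2560) (nb (nat_lit 0x4b00000000000000e1) (nat_lit 1216) (nat_lit 0))))⟩, ⟨(nat_lit 2), (nat_lit 42), (nb (nat_lit 0x6400000000000000fa0000000000000113000000000000007d) (nat_lit 3648) (nb (nat_lit 0x4b00000000000002a300000000000004010000000000000258) (nat_lit 1216) (nat_lit 0))), (nb (nat_lit 0xc800000000000002ee000000000000039d00000000000001f4) (nat_lit 2432) (nat_lit 0xc800000000000001900000000000000113))⟩, ⟨(nat_lit 6), (nat_lit 44), (nb (nat_lit 0x7d00000000000000fa0000000000000096) (nat_lit 3648) (nb (nat_lit 175) (nat_lit 2624) (nb (nat_lit 0x4b00000000000002a30000000000000258)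 (nat_lit 1216) (nb (nat_lit 0xc8000000000000004b) (nat_lit 128) (nat_lit 0))))), (nb (nat_lit 25) (nat_lit 3840) (nb (nat_lit 0xfa00000000000002ee0000000000000226) (nat_lit 2432) (nb (nat_lit 350) (nat_lit 1408) (nat_lit 0xc800000000000000c8))))⟩, ⟨(nat_lit 8), (nat_lit 54), (nb (nat_lit 0xe1000000000000004b) (nat_lit 2560) (nb (nat_lit 0x15e0000000000000226) (nat_lit 1216) (nb (nat_lit 0x15e0000000000000145) (nat_lit 128) (nat_lit 0)))), (nb (nat_lit 0x145000000000000015e) (nat_lit 2432) (nb (nat_lit 0x226000000000000015e) (nat_lit 1344) (nat_lit 0x4b00000000000000e1)))⟩, ⟨(nat_lit 12), (nat_lit 14), (nb (nat_lit 0x12c00000000000001c200000000000000c8) (nat_lit 3712) (nb (nat_lit 0x113000000000000043300000000000004fb0000000000000271) (nat_lit 1216) (nb (nat_lit 75) (nat_lit 192) (nat_lit 0)))), (nb (nat_lit 75) (nat_lit 3648) (nb (nat_lit 0x27100000000000004fb00000000000004330000000000000113) (nat_lit 2432) (nat_lit 0xc800000000000001c2000000000000012c)))⟩,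 ⟨(nat_lit 18), (nat_lit 22), (nb (nat_lit 0x4b000000000000007d) (nat_lit 3648) (nb (nat_lit 0x1900000000000000113) (nat_lit 2560) (nb (nat_lit 0x1130000000000000190) (nat_lit 1216) (nb (nat_lit 0x7d000000000000004b) (nat_lit 128) (nat_lit 0))))), (nb (nat_lit 0xaf0000000000000096) (nat_lit 3776) (nb (nat_lit 0xfa00000000000001a9) (nat_lit 2432) (nb (nat_lit 0x1a900000000000000fa) (nat_lit 1344) (nat_lit 0x9600000000000000af))))⟩, ⟨(nat_lit 20), (nat_lit 24), (nb (nat_lit 0x7d00000000000000fa0000000000000096) (nat_lit 3648) (nb (nat_lit 0xc800000000000001a900000000000001450000000000000032) (nat_lit 1216) (nat_lit 25))), (nb (nat_lit 25) (nat_lit 3840) (nb (nat_lit 0x32000000000000014500000000000001a900000000000000c8) (nat_lit 2432) (nb (nat_lit 0x9600000000000000fa000000000000007d) (nat_lit 64) (nat_lit 0))))⟩]⟩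
def e509 : En := ⟨(nat_lit 66), (nat_lit 69889), (nat_lit 33925), (nat_lit 216), [⟨(nat_lit 0), (nat_lit 56), (nb (nat_lit 0xe1000000000000004b) (nat_lit 2560) (nb (nat_lit 0x15e0000000000000226) (nat_lit 1216) (nb (nat_lit 0x15e0000000000000145) (nat_lit 128) (nat_lit 0)))), (nb (nat_lit 0x145000000000000015e) (nat_lit 2432) (nb (nat_lit 0x226000000000000015e) (nat_lit 1344) (nat_lit 0x4b00000000000000e1)))⟩, ⟨(nat_lit 2), (nat_lit 52), (nb (nat_lit 0xe1000000000000004b) (nat_lit 3776) (nb (nat_lit 0x15e0000000000000226) (nat_lit 2432) (nb (nat_lit 0x15e0000000000000145) (nat_lit 1344) (nat_lit 0)))), (nb (nat_lit 0x145000000000000015e) (nat_lit 3648) (nb (nat_lit 0x226000000000000015e) (nat_lit 2560) (nb (nat_lit 0x4b00000000000000e1) (nat_lit 1216) (nat_lit 0))))⟩, ⟨(nat_lit 4), (nat_lit 44), (nb (nat_lit 0x6400000000000000fa0000000000000113000000000000007d) (nat_lit 3648) (nb (nat_lit 0x4b00000000000002a300000000000004010000000000000258) (nat_lit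 1216) (nat_lit 0))), (nb (nat_lit 0xc800000000000002ee000000000000039d00000000000001f4) (nat_lit 2432) (nat_lit 0xc800000000000001900000000000000113))⟩, ⟨(nat_lit 8), (nat_lit 46), (nb (nat_lit 0x7d00000000000000fa0000000000000096) (nat_lit 3648) (nb (nat_lit 175) (nat_lit 2624) (nb (nat_lit 0x4b00000000000002a30000000000000258) (nat_lit 1216) (nb (nat_lit 0xc8000000000000004b) (nat_lit 128) (nat_lit 0))))), (nb (nat_lit 25) (nat_lit 3840) (nb (nat_lit 0xfa00000000000002ee0000000000000226) (nat_lit 2432) (nb (nat_lit 350) (nat_lit 1408) (nat_lit 0xc800000000000000c8))))⟩, ⟨(nat_lit 10), (nat_lit 24), (nb (nat_lit 0x4b000000000000007d) (nat_lit 3648) (nb (nat_lit 0x1900000000000000113) (nat_lit 2560) (nb (nat_lit 0x1130000000000000190) (nat_lit 1216) (nb (nat_lit 0x7d000000000000004b) (nat_lit 128) (nat_lit 0))))), (nb (nat_lit 0xaf0000000000000096) (nat_lit 3776) (nb (nat_lit 0xfa00000000000001a9) (nat_lit 2432) (nb (nat_lit 0x1a900000000000000fa)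 (nat_lit 1344) (nat_lit 0x9600000000000000af))))⟩, ⟨(nat_lit 14), (nat_lit 16), (nb (nat_lit 0x12c00000000000001c200000000000000c8) (nat_lit 3712) (nb (nat_lit 0x113000000000000043300000000000004fb0000000000000271) (nat_lit 1216) (nb (nat_lit 75) (nat_lit 192) (nat_lit 0)))), (nb (nat_lit 75) (nat_lit 3648) (nb (nat_lit 0x27100000000000004fb00000000000004330000000000000113) (nat_lit 2432) (nat_lit 0xc800000000000001c2000000000000012c)))⟩, ⟨(nat_lit 22), (nat_lit 26), (nb (nat_lit 0x7d00000000000000fa0000000000000096) (nat_lit 3648) (nb (nat_lit 0xc800000000000001a900000000000001450000000000000032) (nat_lit 1216) (nat_lit 25))), (nb (nat_lit 25) (nat_lit 3840) (nb (nat_lit 0x32000000000000014500000000000001a900000000000000c8) (nat_lit 2432) (nb (nat_lit 0x9600000000000000fa000000000000007d) (nat_lit 64) (nat_lit 0))))⟩]⟩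
def e510 : En := ⟨(nat_lit 68), (nat_lit 69904), (nat_lit 33925), (nat_lit 216), [⟨(nat_lit 0), (nat_lit 48), (nb (nat_lit 0x7d00000000000000fa0000000000000096) (nat_lit 3648) (nb (nat_lit 175) (nat_lit 2624) (nb (nat_lit 0x4b00000000000002a30000000000000258) (nat_lit 1216) (nb (nat_lit 0xc8000000000000004b) (nat_lit 128) (nat_lit 0))))), (nb (nat_lit 25) (nat_lit 3840) (nb (nat_lit 0xfa00000000000002ee0000000000000226) (nat_lit 2432) (nb (nat_lit 350) (nat_lit 1408) (nat_lit 0xc800000000000000c8))))⟩, ⟨(nat_lit 2), (nat_lit 58), (nb (nat_lit 0xe1000000000000004b) (nat_lit 2560) (nb (nat_lit 0x15e0000000000000226) (nat_lit 1216) (nb (nat_lit 0x15e0000000000000145) (nat_lit 128) (nat_lit 0)))), (nb (nat_lit 0x145000000000000015e) (nat_lit 2432) (nb (nat_lit 0x226000000000000015e) (nat_lit 1344) (nat_lit 0x4b00000000000000e1)))⟩, ⟨(nat_lit 4), (nat_lit 54), (nb (nat_lit 0xe1000000000000004b) (nat_lit 3776) (nb (nat_lit 0x15e0000000000000226) (nat_lit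 2432) (nb (nat_lit 0x15e0000000000000145) (nat_lit 1344) (nat_lit 0)))), (nb (nat_lit 0x145000000000000015e) (nat_lit 3648) (nb (nat_lit 0x226000000000000015e) (nat_lit 2560) (nb (nat_lit 0x4b00000000000000e1) (nat_lit 1216) (nat_lit 0))))⟩, ⟨(nat_lit 6), (nat_lit 46), (nb (nat_lit 0x6400000000000000fa0000000000000113000000000000007d) (nat_lit 3648) (nb (nat_lit 0x4b00000000000002a300000000000004010000000000000258) (nat_lit 1216) (nat_lit 0))), (nb (nat_lit 0xc800000000000002ee000000000000039d00000000000001f4) (nat_lit 2432) (nat_lit 0xc800000000000001900000000000000113))⟩, ⟨(nat_lit 12), (nat_lit 26), (nb (nat_lit 0x4b000000000000007d) (nat_lit 3648) (nb (nat_lit 0x1900000000000000113) (nat_lit 2560) (nb (nat_lit 0x1130000000000000190) (nat_lit 1216) (nb (nat_lit 0x7d000000000000004b) (nat_lit 128) (nat_lit 0))))), (nb (nat_lit 0xaf0000000000000096) (nat_lit 3776) (nb (nat_lit 0xfa00000000000001a9) (nat_lit 2432) (nb (nat_lit 0x1a900000000000000fa)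 (nat_lit 1344) (nat_lit 0x9600000000000000af))))⟩, ⟨(nat_lit 16), (nat_lit 18), (nb (nat_lit 0x12c00000000000001c200000000000000c8) (nat_lit 3712) (nb (nat_lit 0x113000000000000043300000000000004fb0000000000000271) (nat_lit 1216) (nb (nat_lit 75) (nat_lit 192) (nat_lit 0)))), (nb (nat_lit 75) (nat_lit 3648) (nb (nat_lit 0x27100000000000004fb00000000000004330000000000000113) (nat_lit 2432) (nat_lit 0xc800000000000001c2000000000000012c)))⟩, ⟨(nat_lit 24), (nat_lit 28), (nb (nat_lit 0x7d00000000000000fa0000000000000096) (nat_lit 3648) (nb (nat_lit 0xc800000000000001a900000000000001450000000000000032) (nat_lit 1216) (nat_lit 25))), (nb (nat_lit 25) (nat_lit 3840) (nb (nat_lit 0x32000000000000014500000000000001a900000000000000c8) (nat_lit 2432) (nb (nat_lit 0x9600000000000000fa000000000000007d) (nat_lit 64) (nat_lit 0))))⟩]⟩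
def e511 : En := ⟨(nat_lit 40), (nat_lit 273), (nat_lit 8650), (nat_lit 72), [⟨(nat_lit 4), (nat_lit 20), (nb (nat_lit 0x640000000000000064) (nat_lit 2432) (nb (nat_lit 0x12c0000000000000096) (nat_lit 1344) (nat_lit 0x4b0000000000000096))), (nb (nat_lit 75) (nat_lit 2624) (nb (nat_lit 0xc800000000000000fa) (nat_lit 1216) (nb (nat_lit 0xfa00000000000000e1) (nat_lit 128) (nat_lit 0))))⟩, ⟨(nat_lit 6), (nat_lit 10), (nb (nat_lit 0x4b0000000000000113000000000000015e00000000000000af) (nat_lit 2432) (nb (nat_lit 25) (nat_lit 1408) (nat_lit 0x19000000000000015e000000000000012c))), (nb (nat_lit 0x1c20000000000000320000000000000020d) (nat_lit 1216) (nb (nat_lit 175) (nat_lit 192) (nat_lit 0)))⟩, ⟨(nat_lit 8), (nat_lit 28), (nb (nat_lit 0x96000000000000011300000000000000fa000000000000004b) (nat_lit 2432) (nat_lit 0x4b00000000000000fa00000000000001130000000000000096)), (nb (nat_lit 0x113000000000000025800000000000002580000000000000113) (nat_lit 1216) (nat_lit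 0))⟩]⟩
def e512 : En := ⟨(nat_lit 42), (nat_lit 65553), (nat_lit 8650), (nat_lit 72), [⟨(nat_lit 0), (nat_lit 20), (nb (nat_lit 0x96000000000000011300000000000000fa000000000000004b) (nat_lit 2432) (nat_lit 0x4b00000000000000fa00000000000001130000000000000096)), (nb (nat_lit 0x113000000000000025800000000000002580000000000000113) (nat_lit 1216) (nat_lit 0))⟩, ⟨(nat_lit 6), (nat_lit 22), (nb (nat_lit 0x640000000000000064) (nat_lit 2432) (nb (nat_lit 0x12c0000000000000096) (nat_lit 1344) (nat_lit 0x4b0000000000000096))), (nb (nat_lit 75) (nat_lit 2624) (nb (nat_lit 0xc800000000000000fa) (nat_lit 1216) (nb (nat_lit 0xfa00000000000000e1) (nat_lit 128) (nat_lit 0))))⟩, ⟨(nat_lit 8), (nat_lit 12), (nb (nat_lit 0x4b0000000000000113000000000000015e00000000000000af) (nat_lit 2432) (nb (nat_lit 25) (nat_lit 1408) (nat_lit 0x19000000000000015e000000000000012c))), (nb (nat_lit 0x1c20000000000000320000000000000020d) (nat_lit 1216) (nb (nat_lit 175) (nat_lit 192)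 (nat_lit 0)))⟩]⟩
def e513 : En := ⟨(nat_lit 44), (nat_lit 69633), (nat_lit 8650), (nat_lit 72), [⟨(nat_lit 0), (nat_lit 14), (nb (nat_lit 0x4b0000000000000113000000000000015e00000000000000af) (nat_lit 2432) (nb (nat_lit 25) (nat_lit 1408) (nat_lit 0x19000000000000015e000000000000012c))), (nb (nat_lit 0x1c20000000000000320000000000000020d) (nat_lit 1216) (nb (nat_lit 175) (nat_lit 192) (nat_lit 0)))⟩, ⟨(nat_lit 2), (nat_lit 22), (nb (nat_lit 0x96000000000000011300000000000000fa000000000000004b) (nat_lit 2432) (nat_lit 0x4b00000000000000fa00000000000001130000000000000096)), (nb (nat_lit 0x113000000000000025800000000000002580000000000000113) (nat_lit 1216) (nat_lit 0))⟩, ⟨(nat_lit 8), (nat_lit 24), (nb (nat_lit 0x640000000000000064) (nat_lit 2432) (nb (nat_lit 0x12c0000000000000096) (nat_lit 1344) (nat_lit 0x4b0000000000000096))), (nb (nat_lit 75) (nat_lit 2624) (nb (nat_lit 0xc800000000000000fa) (nat_lit 1216) (nb (nat_lit 0xfa00000000000000e1) (nat_lit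 128) (nat_lit 0))))⟩]⟩
def e514 : En := ⟨(nat_lit 46), (nat_lit 69888), (nat_lit 8650), (nat_lit 72), [⟨(nat_lit 0), (nat_lit 26), (nb (nat_lit 0x640000000000000064) (nat_lit 2432) (nb (nat_lit 0x12c0000000000000096) (nat_lit 1344) (nat_lit 0x4b0000000000000096))), (nb (nat_lit 75) (nat_lit 2624) (nb (nat_lit 0xc800000000000000fa) (nat_lit 1216) (nb (nat_lit 0xfa00000000000000e1) (nat_lit 128) (nat_lit 0))))⟩, ⟨(nat_lit 2), (nat_lit 16), (nb (nat_lit 0x4b0000000000000113000000000000015e00000000000000af) (nat_lit 2432) (nb (nat_lit 25) (nat_lit 1408) (nat_lit 0x19000000000000015e000000000000012c))), (nb (nat_lit 0x1c20000000000000320000000000000020d) (nat_lit 1216) (nb (nat_lit 175) (nat_lit 192) (nat_lit 0)))⟩, ⟨(nat_lit 4), (nat_lit 24), (nb (nat_lit 0x96000000000000011300000000000000fa000000000000004b) (nat_lit 2432) (nat_lit 0x4b00000000000000fa00000000000001130000000000000096)), (nb (nat_lit 0x113000000000000025800000000000002580000000000000113)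 (nat_lit 1216) (nat_lit 0))⟩]⟩
def e515 : En := ⟨(nat_lit 48), (nat_lit 4368), (nat_lit 8650), (nat_lit 72), [⟨(nat_lit 2), (nat_lit 28), (nb (nat_lit 0x640000000000000064) (nat_lit 2432) (nb (nat_lit 0x12c0000000000000096) (nat_lit 1344) (nat_lit 0x4b0000000000000096))), (nb (nat_lit 75) (nat_lit 2624) (nb (nat_lit 0xc800000000000000fa) (nat_lit 1216) (nb (nat_lit 0xfa00000000000000e1) (nat_lit 128) (nat_lit 0))))⟩, ⟨(nat_lit 4), (nat_lit 18), (nb (nat_lit 0x4b0000000000000113000000000000015e00000000000000af) (nat_lit 2432) (nb (nat_lit 25) (nat_lit 1408) (nat_lit 0x19000000000000015e000000000000012c))), (nb (nat_lit 0x1c20000000000000320000000000000020d) (nat_lit 1216) (nb (nat_lit 175) (nat_lit 192) (nat_lit 0)))⟩, ⟨(nat_lit 6), (nat_lit 26), (nb (nat_lit 0x96000000000000011300000000000000fa000000000000004b) (nat_lit 2432) (nat_lit 0x4b00000000000000fa00000000000001130000000000000096)), (nb (nat_lit 0x113000000000000025800000000000002580000000000000113)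 (nat_lit 1216) (nat_lit 0))⟩]⟩
def e516 : En := ⟨(nat_lit 50), (nat_lit 4113), (nat_lit 3900), (nat_lit 72), [⟨(nat_lit 2), (nat_lit 20), (nb (nat_lit 0x640000000000000064) (nat_lit 2432) (nb (nat_lit 0x12c0000000000000096) (nat_lit 1344) (nat_lit 0x4b0000000000000096))), (nb (nat_lit 75) (nat_lit 2624) (nb (nat_lit 0xc800000000000000fa) (nat_lit 1216) (nb (nat_lit 0xfa00000000000000e1) (nat_lit 128) (nat_lit 0))))⟩, ⟨(nat_lit 6), (nat_lit 14), (nb (nat_lit 25) (nat_lit 2624) (nb (nat_lit 0xc80000000000000096) (nat_lit 1216) (nb (nat_lit 0x4b0000000000000032) (nat_lit 128) (nat_lit 0)))), (nb (nat_lit 0x19000000000000004b0000000000000032) (nat_lit 2432) (nb (nat_lit 100) (nat_lit 1408) (nat_lit 0x7d000000000000007d)))⟩, ⟨(nat_lit 8), (nat_lit 18), (nb (nat_lit 0x320000000000000019) (nat_lit 2560) (nb (nat_lit 100) (nat_lit 1216) (nb (nat_lit 0xaf00000000000000af0000000000000032) (nat_lit 64) (nat_lit 0)))), (nb (nat_lit 0x190000000000000032) (nat_lit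 2432) (nb (nat_lit 0xc80000000000000096) (nat_lit 1344) (nat_lit 25)))⟩]⟩
def e517 : En := ⟨(nat_lit 52), (nat_lit 65793), (nat_lit 3900), (nat_lit 72), [⟨(nat_lit 0), (nat_lit 10), (nb (nat_lit 0x320000000000000019) (nat_lit 2560) (nb (nat_lit 100) (nat_lit 1216) (nb (nat_lit 0xaf00000000000000af0000000000000032) (nat_lit 64) (nat_lit 0)))), (nb (nat_lit 0x190000000000000032) (nat_lit 2432) (nb (nat_lit 0xc80000000000000096) (nat_lit 1344) (nat_lit 25)))⟩, ⟨(nat_lit 4), (nat_lit 22), (nb (nat_lit 0x640000000000000064) (nat_lit 2432) (nb (nat_lit 0x12c0000000000000096) (nat_lit 1344) (nat_lit 0x4b0000000000000096))), (nb (nat_lit 75) (nat_lit 2624) (nb (nat_lit 0xc800000000000000fa) (nat_lit 1216) (nb (nat_lit 0xfa00000000000000e1) (nat_lit 128) (nat_lit 0))))⟩, ⟨(nat_lit 8), (nat_lit 16), (nb (nat_lit 25) (nat_lit 2624) (nb (nat_lit 0xc80000000000000096) (nat_lit 1216) (nb (nat_lit 0x4b0000000000000032) (nat_lit 128) (nat_lit 0)))), (nb (nat_lit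 0x19000000000000004b0000000000000032) (nat_lit 2432) (nb (nat_lit 100) (nat_lit 1408) (nat_lit 0x7d000000000000007d)))⟩]⟩
def e518 : En := ⟨(nat_lit 54), (nat_lit 69648), (nat_lit 3900), (nat_lit 72), [⟨(nat_lit 0), (nat_lit 18), (nb (nat_lit 25) (nat_lit 2624) (nb (nat_lit 0xc80000000000000096) (nat_lit 1216) (nb (nat_lit 0x4b0000000000000032) (nat_lit 128) (nat_lit 0)))), (nb (nat_lit 0x19000000000000004b0000000000000032) (nat_lit 2432) (nb (nat_lit 100) (nat_lit 1408) (nat_lit 0x7d000000000000007d)))⟩, ⟨(nat_lit 2), (nat_lit 12), (nb (nat_lit 0x320000000000000019) (nat_lit 2560) (nb (nat_lit 100) (nat_lit 1216) (nb (nat_lit 0xaf00000000000000af0000000000000032) (nat_lit 64) (nat_lit 0)))), (nb (nat_lit 0x190000000000000032) (nat_lit 2432) (nb (nat_lit 0xc80000000000000096) (nat_lit 1344) (nat_lit 25)))⟩, ⟨(nat_lit 6), (nat_lit 24), (nb (nat_lit 0x640000000000000064) (nat_lit 2432) (nb (nat_lit 0x12c0000000000000096) (nat_lit 1344) (nat_lit 0x4b0000000000000096))),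 (nb (nat_lit 75) (nat_lit 2624) (nb (nat_lit 0xc800000000000000fa) (nat_lit 1216) (nb (nat_lit 0xfa00000000000000e1) (nat_lit 128) (nat_lit 0))))⟩]⟩
def e519 : En := ⟨(nat_lit 56), (nat_lit 4353), (nat_lit 3900), (nat_lit 72), [⟨(nat_lit 2), (nat_lit 10), (nb (nat_lit 25) (nat_lit 2624) (nb (nat_lit 0xc80000000000000096) (nat_lit 1216) (nb (nat_lit 0x4b0000000000000032) (nat_lit 128) (nat_lit 0)))), (nb (nat_lit 0x19000000000000004b0000000000000032) (nat_lit 2432) (nb (nat_lit 100) (nat_lit 1408) (nat_lit 0x7d000000000000007d)))⟩, ⟨(nat_lit 4), (nat_lit 14), (nb (nat_lit 0x320000000000000019) (nat_lit 2560) (nb (nat_lit 100) (nat_lit 1216) (nb (nat_lit 0xaf00000000000000af0000000000000032) (nat_lit 64) (nat_lit 0)))), (nb (nat_lit 0x190000000000000032) (nat_lit 2432) (nb (nat_lit 0xc80000000000000096) (nat_lit 1344) (nat_lit 25)))⟩, ⟨(nat_lit 8), (nat_lit 26), (nb (nat_lit 0x640000000000000064) (nat_lit 2432) (nb (nat_lit 0x12c0000000000000096) (nat_lit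 1344) (nat_lit 0x4b0000000000000096))), (nb (nat_lit 75) (nat_lit 2624) (nb (nat_lit 0xc800000000000000fa) (nat_lit 1216) (nb (nat_lit 0xfa00000000000000e1) (nat_lit 128) (nat_lit 0))))⟩]⟩
def e520 : En := ⟨(nat_lit 58), (nat_lit 65808), (nat_lit 3900), (nat_lit 72), [⟨(nat_lit 0), (nat_lit 28), (nb (nat_lit 0x640000000000000064) (nat_lit 2432) (nb (nat_lit 0x12c0000000000000096) (nat_lit 1344) (nat_lit 0x4b0000000000000096))), (nb (nat_lit 75) (nat_lit 2624) (nb (nat_lit 0xc800000000000000fa) (nat_lit 1216) (nb (nat_lit 0xfa00000000000000e1) (nat_lit 128) (nat_lit 0))))⟩, ⟨(nat_lit 4), (nat_lit 12), (nb (nat_lit 25) (nat_lit 2624) (nb (nat_lit 0xc80000000000000096) (nat_lit 1216) (nb (nat_lit 0x4b0000000000000032) (nat_lit 128) (nat_lit 0)))), (nb (nat_lit 0x19000000000000004b0000000000000032) (nat_lit 2432) (nb (nat_lit 100) (nat_lit 1408) (nat_lit 0x7d000000000000007d)))⟩, ⟨(nat_lit 6), (nat_lit 16), (nb (nat_lit 0x320000000000000019) (nat_lit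 2560) (nb (nat_lit 100) (nat_lit 1216) (nb (nat_lit 0xaf00000000000000af0000000000000032) (nat_lit 64) (nat_lit 0)))), (nb (nat_lit 0x190000000000000032) (nat_lit 2432) (nb (nat_lit 0xc80000000000000096) (nat_lit 1344) (nat_lit 25)))⟩]⟩
def e521 : En := ⟨(nat_lit 10), (nat_lit 257), (nat_lit 1875), (nat_lit 72), [⟨(nat_lit 4), (nat_lit 8), (nb (nat_lit 0x640000000000000064) (nat_lit 2432) (nb (nat_lit 0x12c0000000000000096) (nat_lit 1344) (nat_lit 0x4b0000000000000096))), (nb (nat_lit 75) (nat_lit 2624) (nb (nat_lit 0xc800000000000000fa) (nat_lit 1216) (nb (nat_lit 0xfa00000000000000e1) (nat_lit 128) (nat_lit 0))))⟩]⟩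
def e522 : En := ⟨(nat_lit 12), (nat_lit 65552), (nat_lit 1875), (nat_lit 72), [⟨(nat_lit 0), (nat_lit 6), (nb (nat_lit 75) (nat_lit 2624) (nb (nat_lit 0xc800000000000000fa) (nat_lit 1216) (nb (nat_lit 0xfa00000000000000e1) (nat_lit 128) (nat_lit 0)))), (nb (nat_lit 0x640000000000000064) (nat_lit 2432) (nb (nat_lit 0x12c0000000000000096) (nat_lit 1344) (nat_lit 0x4b0000000000000096)))⟩]⟩
def e523 : En := ⟨(nat_lit 14), (nat_lit 4097), (nat_lit 1875), (nat_lit 72), [⟨(nat_lit 2), (nat_lit 8), (nb (nat_lit 75) (nat_lit 2624) (nb (nat_lit 0xc800000000000000fa) (nat_lit 1216) (nb (nat_lit 0xfa00000000000000e1) (nat_lit 128) (nat_lit 0)))), (nb (nat_lit 0x640000000000000064) (nat_lit 2432) (nb (nat_lit 0x12c0000000000000096) (nat_lit 1344) (nat_lit 0x4b0000000000000096)))⟩]⟩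
def e524 : En := ⟨(nat_lit 16), (nat_lit 65792), (nat_lit 1875), (nat_lit 72), [⟨(nat_lit 0), (nat_lit 4), (nb (nat_lit 0x640000000000000064) (nat_lit 2432) (nb (nat_lit 0x12c0000000000000096) (nat_lit 1344) (nat_lit 0x4b0000000000000096))), (nb (nat_lit 75) (nat_lit 2624) (nb (nat_lit 0xc800000000000000fa) (nat_lit 1216) (nb (nat_lit 0xfa00000000000000e1) (nat_lit 128) (nat_lit 0))))⟩]⟩
def e525 : En := ⟨(nat_lit 18), (nat_lit 4112), (nat_lit 1875), (nat_lit 72), [⟨(nat_lit 2), (nat_lit 6), (nb (nat_lit 0x640000000000000064) (nat_lit 2432) (nb (nat_lit 0x12c0000000000000096) (nat_lit 1344) (nat_lit 0x4b0000000000000096))), (nb (nat_lit 75) (nat_lit 2624) (nb (nat_lit 0xc800000000000000fa) (nat_lit 1216) (nb (nat_lit 0xfa00000000000000e1) (nat_lit 128) (nat_lit 0))))⟩]⟩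
def e526 : En := ⟨(nat_lit 20), (nat_lit 17), (nat_lit 1875), (nat_lit 72), [⟨(nat_lit 6), (nat_lit 8), (nb (nat_lit 0x640000000000000064) (nat_lit 2432) (nb (nat_lit 0x12c0000000000000096) (nat_lit 1344) (nat_lit 0x4b0000000000000096))), (nb (nat_lit 75) (nat_lit 2624) (nb (nat_lit 0xc800000000000000fa) (nat_lit 1216) (nb (nat_lit 0xfa00000000000000e1) (nat_lit 128) (nat_lit 0))))⟩]⟩
def e527 : En := ⟨(nat_lit 22), (nat_lit 65537), (nat_lit 1875), (nat_lit 72), [⟨(nat_lit 0), (nat_lit 8), (nb (nat_lit 75) (nat_lit 2624) (nb (nat_lit 0xc800000000000000fa) (nat_lit 1216) (nb (nat_lit 0xfa00000000000000e1) (nat_lit 128) (nat_lit 0)))), (nb (nat_lit 0x640000000000000064) (nat_lit 2432) (nb (nat_lit 0x12c0000000000000096) (nat_lit 1344) (nat_lit 0x4b0000000000000096)))⟩]⟩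
def e528 : En := ⟨(nat_lit 24), (nat_lit 69632), (nat_lit 1875), (nat_lit 72), [⟨(nat_lit 0), (nat_lit 2), (nb (nat_lit 0x640000000000000064) (nat_lit 2432) (nb (nat_lit 0x12c0000000000000096) (nat_lit 1344) (nat_lit 0x4b0000000000000096))), (nb (nat_lit 75) (nat_lit 2624) (nb (nat_lit 0xc800000000000000fa) (nat_lit 1216) (nb (nat_lit 0xfa00000000000000e1) (nat_lit 128) (nat_lit 0))))⟩]⟩
def e529 : En := ⟨(nat_lit 26), (nat_lit 4352), (nat_lit 1875), (nat_lit 72), [⟨(nat_lit 2), (nat_lit 4), (nb (nat_lit 0x640000000000000064) (nat_lit 2432) (nb (nat_lit 0x12c0000000000000096) (nat_lit 1344) (nat_lit 0x4b0000000000000096))), (nb (nat_lit 75) (nat_lit 2624) (nb (nat_lit 0xc800000000000000fa) (nat_lit 1216) (nb (nat_lit 0xfa00000000000000e1) (nat_lit 128) (nat_lit 0))))⟩]⟩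
def e530 : En := ⟨(nat_lit 28), (nat_lit 272), (nat_lit 1875), (nat_lit 72), [⟨(nat_lit 4), (nat_lit 6), (nb (nat_lit 0x640000000000000064) (nat_lit 2432) (nb (nat_lit 0x12c0000000000000096) (nat_lit 1344) (nat_lit 0x4b0000000000000096))), (nb (nat_lit 75) (nat_lit 2624) (nb (nat_lit 0xc800000000000000fa) (nat_lit 1216) (nb (nat_lit 0xfa00000000000000e1) (nat_lit 128) (nat_lit 0))))⟩]⟩
def e531 : En := ⟨(nat_lit 75), (nat_lit 69905), (nat_lit 98900), (nat_lit 216), [⟨(nat_lit 0), (nat_lit 60), (nb (nat_lit 75) (nat_lit 2624) (nb (nat_lit 0xc800000000000000fa) (nat_lit 1216) (nb (nat_lit 0xfa00000000000000e1) (nat_lit 128) (nat_lit 0)))), (nb (nat_lit 0x640000000000000064) (nat_lit 2432) (nb (nat_lit 0x12c0000000000000096) (nat_lit 1344) (nat_lit 0x4b0000000000000096)))⟩, ⟨(nat_lit 2), (nat_lit 62), (nb (nat_lit 0x6400000000000000af0000000000000064) (nat_lit 2432) (nb (nat_lit 50) (nat_lit 1408) (nat_lit 0x4b0000000000000145000000000000012c))), (nb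 (nat_lit 0xc800000000000001f4000000000000015e) (nat_lit 1216) (nb (nat_lit 75) (nat_lit 192) (nat_lit 0)))⟩, ⟨(nat_lit 4), (nat_lit 64), (nb (nat_lit 0x9600000000000001f40000000000000226000000000000012c) (nat_lit 1216) (nat_lit 0)), (nb (nat_lit 0x4b00000000000000af00000000000000af000000000000004b) (nat_lit 2432) (nat_lit 0x190000000000000145000000000000019000000000000000fa))⟩, ⟨(nat_lit 6), (nat_lit 66), (nb (nat_lit 0x6400000000000000af0000000000000064) (nat_lit 2496) (nat_lit 0x9600000000000001900000000000000177000000000000004b)), (nb (nat_lit 0xfa000000000000022600000000000001900000000000000032) (nat_lit 1216) (nat_lit 0))⟩, ⟨(nat_lit 8), (nat_lit 68), (nb (nat_lit 75) (nat_lit 2432) (nb (nat_lit 0x15e00000000000001900000000000000096) (nat_lit 1280) (nat_lit 25))), (nb (nat_lit 0x640000000000000064) (nat_lit 2560) (nb (nat_lit 150) (nat_lit 1216) (nb (nat_lit 0x12c000000000000017700000000000000e1) (nat_lit 64) (nat_lit 0))))⟩, ⟨(nat_lit 10), (nat_lit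 54), (nb (nat_lit 150) (nat_lit 3648) (nb (nat_lit 0x35200000000000005aa000000000000039d0000000000000019) (nat_lit 2432) (nat_lit 0x1900000000000001a9000000000000023f000000000000015e))), (nb (nat_lit 0x19000000000000001a9000000000000004b) (nat_lit 3712) (nb (nat_lit 0x25800000000000005aa0000000000000591000000000000020d) (nat_lit 1216) (nat_lit 0)))⟩, ⟨(nat_lit 12), (nat_lit 56), (nb (nat_lit 0xe1000000000000004b) (nat_lit 3776) (nb (nat_lit 525) (nat_lit 2432) (nb (nat_lit 0x38400000000000005910000000000000339) (nat_lit 1280) (nat_lit 0)))), (nb (nat_lit 0x145000000000000015e) (nat_lit 3648) (nb (nat_lit 0x384000000000000039d000000000000004b) (nat_lit 2496) (nb (nat_lit 25) (nat_lit 1216) (nat_lit 0xe1000000000000023f00000000000002260000000000000096))))⟩, ⟨(nat_lit 14), (nat_lit 58), (nb (nat_lit 0x14500000000000002260000000000000190) (nat_lit 3648) (nb (nat_lit 0x258000000000000004b) (nat_lit 2560) (nb (nat_lit 0x4b0000000000000258) (nat_lit 1216)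 (nb (nat_lit 0x19000000000000002260000000000000145) (nat_lit 64) (nat_lit 0))))), (nb (nat_lit 25) (nat_lit 3840) (nb (nat_lit 0x3390000000000000352) (nat_lit 2432) (nb (nat_lit 0x3520000000000000339) (nat_lit 1344) (nat_lit 25))))⟩, ⟨(nat_lit 16), (nat_lit 50), (nb (nat_lit 0x33900000000000005910000000000000384) (nat_lit 2432) (nb (nat_lit 525) (nat_lit 1408) (nat_lit 0x4b00000000000000e1))), (nb (nat_lit 0x960000000000000226000000000000023f00000000000000e1) (nat_lit 3648) (nb (nat_lit 25) (nat_lit 2624) (nb (nat_lit 0x4b000000000000039d0000000000000384) (nat_lit 1216) (nb (nat_lit 0x15e0000000000000145) (nat_lit 128) (nat_lit 0)))))⟩, ⟨(nat_lit 18), (nat_lit 52), (nb (nat_lit 0x15e000000000000023f00000000000001a90000000000000019) (nat_lit 3648) (nb (nat_lit 0x19000000000000039d00000000000005aa0000000000000352) (nat_lit 1216) (nb (nat_lit 150) (nat_lit 192) (nat_lit 0)))), (nb (nat_lit 0x20d000000000000059100000000000005aa0000000000000258) (nat_lit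 2432) (nat_lit 0x4b00000000000001a90000000000000190))⟩, ⟨(nat_lit 20), (nat_lit 46), (nb (nat_lit 0xaf0000000000000032) (nat_lit 3776) (nb (nat_lit 0x1c200000000000002ee) (nat_lit 2432) (nb (nat_lit 0x3b6000000000000036b) (nat_lit 1344) (nat_lit 200)))), (nb (nat_lit 0xe100000000000000fa) (nat_lit 3648) (nb (nat_lit 0x2d500000000000001db) (nat_lit 2560) (nb (nat_lit 0x9600000000000002a3) (nat_lit 1216) (nb (nat_lit 0x19000000000000001db000000000000004b) (nat_lit 64) (nat_lit 0)))))⟩, ⟨(nat_lit 22), (nat_lit 48), (nb (nat_lit 0xe100000000000001900000000000000113) (nat_lit 3648) (nb (nat_lit 300) (nat_lit 2624) (nb (nat_lit 0x96000000000000044c0000000000000401) (nat_lit 1216) (nb (nat_lit 0x113000000000000004b) (nat_lit 128) (nat_lit 0))))), (nb (nat_lit 25) (nat_lit 3840) (nb (nat_lit 0x1c20000000000000497000000000000039d) (nat_lit 2432) (nb (nat_lit 525) (nat_lit 1408) (nat_lit 0x1450000000000000190))))⟩, ⟨(nat_lit 24), (nat_lit 40), (nb (nat_lit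 0xfa000000000000049700000000000005c300000000000002d5) (nat_lit 2432) (nat_lit 0x14500000000000002580000000000000190)), (nb (nat_lit 0x7d000000000000019000000000000001a900000000000000af) (nat_lit 3648) (nb (nat_lit 0x4b000000000000044c000000000000065900000000000003b6) (nat_lit 1216) (nb (nat_lit 75) (nat_lit 192) (nat_lit 0))))⟩, ⟨(nat_lit 26), (nat_lit 42), (nb (nat_lit 0xfa00000000000001a9000000000000012c0000000000000019) (nat_lit 3648) (nb (nat_lit 0x2a30000000000000659000000000000060e000000000000020d) (nat_lit 1216) (nat_lit 0))), (nb (nat_lit 0x2ee00000000000005c300000000000004c9000000000000012c) (nat_lit 2432) (nat_lit 0xc8000000000000025800000000000002a30000000000000113))⟩, ⟨(nat_lit 28), (nat_lit 44), (nb (nat_lit 125) (nat_lit 3648) (nb (nat_lit 0x39d00000000000004c900000000000001db) (nat_lit 2496) (nb (nat_lit 75) (nat_lit 1216) (nat_lit 0x19000000000000002a300000000000001db000000000000004b)))), (nb (nat_lit 0x113000000000000012c0000000000000032)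 (nat_lit 3712) (nb (nat_lit 250) (nat_lit 2432) (nb (nat_lit 0x401000000000000060e000000000000036b) (nat_lit 1280) (nat_lit 0))))⟩]⟩
def e532 : En := ⟨(nat_lit 60), (nat_lit 4369), (nat_lit 244), (nat_lit 5832), [⟨(nat_lit 2), (nat_lit 40), (nb (nat_lit 0x20000000000000002) (nat_lit 4928) (nb (nat_lit 0x2000000000000000200000000000000020000000000000002) (nat_lit 3648) (nb (nat_lit 0x1000000000000000000000000000000000000000000000001) (nat_lit 2432) (nat_lit 0)))), (nb (nat_lit 0x1000000000000000100000000000000010000000000000001) (nat_lit 7296) (nb (nat_lit 0x2000000000000000100000000000000010000000000000002) (nat_lit 6080) (nb (nat_lit 0x10000000000000001) (nat_lit 2496) (nb (nat_lit 0x10000000000000001) (nat_lit 1280) (nat_lit 0)))))⟩, ⟨(nat_lit 4), (nat_lit 50), (nb (nat_lit 0x1000000000000000100000000000000010000000000000001) (nat_lit 6080) (nb (nat_lit 0x3000000000000000300000000000000030000000000000003) (nat_lit 4864) (nb (nat_lit 0x2000000000000000200000000000000020000000000000002)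 (nat_lit 3648) (nat_lit 0)))), (nb (nat_lit 0x2000000000000000200000000000000020000000000000002) (nat_lit 2432) (nb (nat_lit 0x3000000000000000300000000000000030000000000000003) (nat_lit 1216) (nat_lit 0x1000000000000000100000000000000010000000000000001)))⟩, ⟨(nat_lit 6), (nat_lit 56), (nb (nat_lit 0x1000000000000000100000000000000010000000000000001) (nat_lit 7296) (nb (nat_lit 0x3000000000000000300000000000000030000000000000003) (nat_lit 6080) (nb (nat_lit 0x2000000000000000200000000000000020000000000000002) (nat_lit 4864) (nat_lit 0)))), (nb (nat_lit 0x2000000000000000200000000000000020000000000000002) (nat_lit 3648) (nb (nat_lit 0x3000000000000000300000000000000030000000000000003) (nat_lit 2432) (nb (nat_lit 0x1000000000000000100000000000000010000000000000001) (nat_lit 1216) (nat_lit 0))))⟩, ⟨(nat_lit 8), (nat_lit 48), (nb (nat_lit 0x10000000000000001) (nat_lit 7360) (nb (nat_lit 0x10000000000000001) (nat_lit 6144) (nb (nat_lit 0x2000000000000000100000000000000010000000000000002)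 (nat_lit 2432) (nb (nat_lit 0x1000000000000000100000000000000010000000000000001) (nat_lit 1216) (nat_lit 0))))), (nb (nat_lit 0x1000000000000000000000000000000000000000000000001) (nat_lit 6080) (nb (nat_lit 0x2000000000000000200000000000000020000000000000002) (nat_lit 4864) (nb (nat_lit 0x20000000000000002) (nat_lit 3712) (nat_lit 0))))⟩, ⟨(nat_lit 10), (nat_lit 18), (nb (nat_lit 0x1000000000000000000000000000000000000000000000001) (nat_lit 6080) (nb (nat_lit 0x2000000000000000100000000000000010000000000000002) (nat_lit 4864) (nb (nat_lit 0x10000000000000001) (nat_lit 1280) (nb (nat_lit 0x10000000000000001) (nat_lit 64) (nat_lit 0))))), (nb (nat_lit 0x10000000000000001) (nat_lit 7360) (nb (nat_lit 0x10000000000000001) (nat_lit 6144) (nb (nat_lit 0x2000000000000000100000000000000010000000000000002) (nat_lit 2432) (nb (nat_lit 0x1000000000000000000000000000000000000000000000001) (nat_lit 1216) (nat_lit 0)))))⟩, ⟨(nat_lit 14), (nat_lit 28), (nb (nat_lit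 0x10000000000000001) (nat_lit 7360) (nb (nat_lit 0x20000000000000002) (nat_lit 6144) (nb (nat_lit 0x20000000000000002) (nat_lit 1280) (nb (nat_lit 0x10000000000000001) (nat_lit 64) (nat_lit 0))))), (nb (nat_lit 0x10000000000000001) (nat_lit 4928) (nb (nat_lit 0x40000000000000004) (nat_lit 3712) (nb (nat_lit 0x10000000000000001) (nat_lit 2496) (nat_lit 0))))⟩, ⟨(nat_lit 20), (nat_lit 26), (nb (nat_lit 0x1000000000000000100000000000000010000000000000001) (nat_lit 7296) (nb (nat_lit 0x3000000000000000200000000000000020000000000000003) (nat_lit 6080) (nb (nat_lit 0x3000000000000000100000000000000010000000000000003) (nat_lit 4864) (nat_lit 0)))), (nb (nat_lit 0x3000000000000000100000000000000010000000000000003) (nat_lit 2432) (nb (nat_lit 0x3000000000000000200000000000000020000000000000003) (nat_lit 1216) (nat_lit 0x1000000000000000100000000000000010000000000000001)))⟩]⟩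
def e533 : En := ⟨(nat_lit 62), (nat_lit 65809), (nat_lit 244), (nat_lit 5832), [⟨(nat_lit 0), (nat_lit 40), (nb (nat_lit 0x10000000000000001) (nat_lit 7360) (nb (nat_lit 0x10000000000000001) (nat_lit 6144) (nb (nat_lit 0x2000000000000000100000000000000010000000000000002) (nat_lit 2432) (nb (nat_lit 0x1000000000000000100000000000000010000000000000001) (nat_lit 1216) (nat_lit 0))))), (nb (nat_lit 0x1000000000000000000000000000000000000000000000001) (nat_lit 6080) (nb (nat_lit 0x2000000000000000200000000000000020000000000000002) (nat_lit 4864) (nb (nat_lit 0x20000000000000002) (nat_lit 3712) (nat_lit 0))))⟩, ⟨(nat_lit 4), (nat_lit 42), (nb (nat_lit 0x20000000000000002) (nat_lit 4928) (nb (nat_lit 0x2000000000000000200000000000000020000000000000002) (nat_lit 3648) (nb (nat_lit 0x1000000000000000000000000000000000000000000000001) (nat_lit 2432) (nat_lit 0)))), (nb (nat_lit 0x1000000000000000100000000000000010000000000000001) (nat_lit 7296) (nb (nat_lit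 0x2000000000000000100000000000000010000000000000002) (nat_lit 6080) (nb (nat_lit 0x10000000000000001) (nat_lit 2496) (nb (nat_lit 0x10000000000000001) (nat_lit 1280) (nat_lit 0)))))⟩, ⟨(nat_lit 6), (nat_lit 52), (nb (nat_lit 0x1000000000000000100000000000000010000000000000001) (nat_lit 6080) (nb (nat_lit 0x3000000000000000300000000000000030000000000000003) (nat_lit 4864) (nb (nat_lit 0x2000000000000000200000000000000020000000000000002) (nat_lit 3648) (nat_lit 0)))), (nb (nat_lit 0x2000000000000000200000000000000020000000000000002) (nat_lit 2432) (nb (nat_lit 0x3000000000000000300000000000000030000000000000003) (nat_lit 1216) (nat_lit 0x1000000000000000100000000000000010000000000000001)))⟩, ⟨(nat_lit 8), (nat_lit 58), (nb (nat_lit 0x1000000000000000100000000000000010000000000000001) (nat_lit 7296) (nb (nat_lit 0x3000000000000000300000000000000030000000000000003) (nat_lit 6080) (nb (nat_lit 0x2000000000000000200000000000000020000000000000002) (nat_lit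 4864) (nat_lit 0)))), (nb (nat_lit 0x2000000000000000200000000000000020000000000000002) (nat_lit 3648) (nb (nat_lit 0x3000000000000000300000000000000030000000000000003) (nat_lit 2432) (nb (nat_lit 0x1000000000000000100000000000000010000000000000001) (nat_lit 1216) (nat_lit 0))))⟩, ⟨(nat_lit 10), (nat_lit 12), (nb (nat_lit 0x10000000000000001) (nat_lit 7360) (nb (nat_lit 0x10000000000000001) (nat_lit 6144) (nb (nat_lit 0x2000000000000000100000000000000010000000000000002) (nat_lit 2432) (nb (nat_lit 0x1000000000000000000000000000000000000000000000001) (nat_lit 1216) (nat_lit 0))))), (nb (nat_lit 0x1000000000000000000000000000000000000000000000001) (nat_lit 6080) (nb (nat_lit 0x2000000000000000100000000000000010000000000000002) (nat_lit 4864) (nb (nat_lit 0x10000000000000001) (nat_lit 1280) (nb (nat_lit 0x10000000000000001) (nat_lit 64) (nat_lit 0)))))⟩, ⟨(nat_lit 16), (nat_lit 20), (nb (nat_lit 0x10000000000000001) (nat_lit 7360) (nb (nat_lit 0x20000000000000002)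 (nat_lit 6144) (nb (nat_lit 0x20000000000000002) (nat_lit 1280) (nb (nat_lit 0x10000000000000001) (nat_lit 64) (nat_lit 0))))), (nb (nat_lit 0x10000000000000001) (nat_lit 4928) (nb (nat_lit 0x40000000000000004) (nat_lit 3712) (nb (nat_lit 0x10000000000000001) (nat_lit 2496) (nat_lit 0))))⟩, ⟨(nat_lit 22), (nat_lit 28), (nb (nat_lit 0x1000000000000000100000000000000010000000000000001) (nat_lit 7296) (nb (nat_lit 0x3000000000000000200000000000000020000000000000003) (nat_lit 6080) (nb (nat_lit 0x3000000000000000100000000000000010000000000000003) (nat_lit 4864) (nat_lit 0)))), (nb (nat_lit 0x3000000000000000100000000000000010000000000000003) (nat_lit 2432) (nb (nat_lit 0x3000000000000000200000000000000020000000000000003) (nat_lit 1216) (nat_lit 0x1000000000000000100000000000000010000000000000001)))⟩]⟩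
def e534 : En := ⟨(nat_lit 64), (nat_lit 69649), (nat_lit 244), (nat_lit 5832), [⟨(nat_lit 0), (nat_lit 50), (nb (nat_lit 0x1000000000000000100000000000000010000000000000001) (nat_lit 7296) (nb (nat_lit 0x3000000000000000300000000000000030000000000000003) (nat_lit 6080) (nb (nat_lit 0x2000000000000000200000000000000020000000000000002) (nat_lit 4864) (nat_lit 0)))), (nb (nat_lit 0x2000000000000000200000000000000020000000000000002) (nat_lit 3648) (nb (nat_lit 0x3000000000000000300000000000000030000000000000003) (nat_lit 2432) (nb (nat_lit 0x1000000000000000100000000000000010000000000000001) (nat_lit 1216) (nat_lit 0))))⟩, ⟨(nat_lit 2), (nat_lit 42), (nb (nat_lit 0x10000000000000001) (nat_lit 7360) (nb (nat_lit 0x10000000000000001) (nat_lit 6144) (nb (nat_lit 0x2000000000000000100000000000000010000000000000002) (nat_lit 2432) (nb (nat_lit 0x1000000000000000100000000000000010000000000000001) (nat_lit 1216) (nat_lit 0))))), (nb (nat_lit 0x1000000000000000000000000000000000000000000000001)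 (nat_lit 6080) (nb (nat_lit 0x2000000000000000200000000000000020000000000000002) (nat_lit 4864) (nb (nat_lit 0x20000000000000002) (nat_lit 3712) (nat_lit 0))))⟩, ⟨(nat_lit 6), (nat_lit 44), (nb (nat_lit 0x20000000000000002) (nat_lit 4928) (nb (nat_lit 0x2000000000000000200000000000000020000000000000002) (nat_lit 3648) (nb (nat_lit 0x1000000000000000000000000000000000000000000000001) (nat_lit 2432) (nat_lit 0)))), (nb (nat_lit 0x1000000000000000100000000000000010000000000000001) (nat_lit 7296) (nb (nat_lit 0x2000000000000000100000000000000010000000000000002) (nat_lit 6080) (nb (nat_lit 0x10000000000000001) (nat_lit 2496) (nb (nat_lit 0x10000000000000001) (nat_lit 1280) (nat_lit 0)))))⟩, ⟨(nat_lit 8), (nat_lit 54), (nb (nat_lit 0x1000000000000000100000000000000010000000000000001) (nat_lit 6080) (nb (nat_lit 0x3000000000000000300000000000000030000000000000003) (nat_lit 4864) (nb (nat_lit 0x2000000000000000200000000000000020000000000000002) (nat_lit 3648)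 (nat_lit 0)))), (nb (nat_lit 0x2000000000000000200000000000000020000000000000002) (nat_lit 2432) (nb (nat_lit 0x3000000000000000300000000000000030000000000000003) (nat_lit 1216) (nat_lit 0x1000000000000000100000000000000010000000000000001)))⟩, ⟨(nat_lit 12), (nat_lit 14), (nb (nat_lit 0x10000000000000001) (nat_lit 7360) (nb (nat_lit 0x10000000000000001) (nat_lit 6144) (nb (nat_lit 0x2000000000000000100000000000000010000000000000002) (nat_lit 2432) (nb (nat_lit 0x1000000000000000000000000000000000000000000000001) (nat_lit 1216) (nat_lit 0))))), (nb (nat_lit 0x1000000000000000000000000000000000000000000000001) (nat_lit 6080) (nb (nat_lit 0x2000000000000000100000000000000010000000000000002) (nat_lit 4864) (nb (nat_lit 0x10000000000000001) (nat_lit 1280) (nb (nat_lit 0x10000000000000001) (nat_lit 64) (nat_lit 0)))))⟩, ⟨(nat_lit 18), (nat_lit 22), (nb (nat_lit 0x10000000000000001) (nat_lit 7360) (nb (nat_lit 0x20000000000000002) (nat_lit 6144) (nb (nat_lit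 0x20000000000000002) (nat_lit 1280) (nb (nat_lit 0x10000000000000001) (nat_lit 64) (nat_lit 0))))), (nb (nat_lit 0x10000000000000001) (nat_lit 4928) (nb (nat_lit 0x40000000000000004) (nat_lit 3712) (nb (nat_lit 0x10000000000000001) (nat_lit 2496) (nat_lit 0))))⟩, ⟨(nat_lit 20), (nat_lit 24), (nb (nat_lit 0x3000000000000000100000000000000010000000000000003) (nat_lit 2432) (nb (nat_lit 0x3000000000000000200000000000000020000000000000003) (nat_lit 1216) (nat_lit 0x1000000000000000100000000000000010000000000000001))), (nb (nat_lit 0x1000000000000000100000000000000010000000000000001) (nat_lit 7296) (nb (nat_lit 0x3000000000000000200000000000000020000000000000003) (nat_lit 6080) (nb (nat_lit 0x3000000000000000100000000000000010000000000000003) (nat_lit 4864) (nat_lit 0))))⟩]⟩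
def e535 : En := ⟨(nat_lit 66), (nat_lit 69889), (nat_lit 244), (nat_lit 5832), [⟨(nat_lit 0), (nat_lit 56), (nb (nat_lit 0x1000000000000000100000000000000010000000000000001) (nat_lit 6080) (nb (nat_lit 0x3000000000000000300000000000000030000000000000003) (nat_lit 4864) (nb (nat_lit 0x2000000000000000200000000000000020000000000000002) (nat_lit 3648) (nat_lit 0)))), (nb (nat_lit 0x2000000000000000200000000000000020000000000000002) (nat_lit 2432) (nb (nat_lit 0x3000000000000000300000000000000030000000000000003) (nat_lit 1216) (nat_lit 0x1000000000000000100000000000000010000000000000001)))⟩, ⟨(nat_lit 2), (nat_lit 52), (nb (nat_lit 0x1000000000000000100000000000000010000000000000001) (nat_lit 7296) (nb (nat_lit 0x3000000000000000300000000000000030000000000000003) (nat_lit 6080) (nb (nat_lit 0x2000000000000000200000000000000020000000000000002) (nat_lit 4864) (nat_lit 0)))), (nb (nat_lit 0x2000000000000000200000000000000020000000000000002) (nat_lit 3648)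 (nb (nat_lit 0x3000000000000000300000000000000030000000000000003) (nat_lit 2432) (nb (nat_lit 0x1000000000000000100000000000000010000000000000001) (nat_lit 1216) (nat_lit 0))))⟩, ⟨(nat_lit 4), (nat_lit 44), (nb (nat_lit 0x10000000000000001) (nat_lit 7360) (nb (nat_lit 0x10000000000000001) (nat_lit 6144) (nb (nat_lit 0x2000000000000000100000000000000010000000000000002) (nat_lit 2432) (nb (nat_lit 0x1000000000000000100000000000000010000000000000001) (nat_lit 1216) (nat_lit 0))))), (nb (nat_lit 0x1000000000000000000000000000000000000000000000001) (nat_lit 6080) (nb (nat_lit 0x2000000000000000200000000000000020000000000000002) (nat_lit 4864) (nb (nat_lit 0x20000000000000002) (nat_lit 3712) (nat_lit 0))))⟩, ⟨(nat_lit 8), (nat_lit 46), (nb (nat_lit 0x20000000000000002) (nat_lit 4928) (nb (nat_lit 0x2000000000000000200000000000000020000000000000002) (nat_lit 3648) (nb (nat_lit 0x1000000000000000000000000000000000000000000000001) (nat_lit 2432) (nat_lit 0)))),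 (nb (nat_lit 0x1000000000000000100000000000000010000000000000001) (nat_lit 7296) (nb (nat_lit 0x2000000000000000100000000000000010000000000000002) (nat_lit 6080) (nb (nat_lit 0x10000000000000001) (nat_lit 2496) (nb (nat_lit 0x10000000000000001) (nat_lit 1280) (nat_lit 0)))))⟩, ⟨(nat_lit 10), (nat_lit 24), (nb (nat_lit 0x10000000000000001) (nat_lit 7360) (nb (nat_lit 0x20000000000000002) (nat_lit 6144) (nb (nat_lit 0x20000000000000002) (nat_lit 1280) (nb (nat_lit 0x10000000000000001) (nat_lit 64) (nat_lit 0))))), (nb (nat_lit 0x10000000000000001) (nat_lit 4928) (nb (nat_lit 0x40000000000000004) (nat_lit 3712) (nb (nat_lit 0x10000000000000001) (nat_lit 2496) (nat_lit 0))))⟩, ⟨(nat_lit 14), (nat_lit 16), (nb (nat_lit 0x10000000000000001) (nat_lit 7360) (nb (nat_lit 0x10000000000000001) (nat_lit 6144) (nb (nat_lit 0x2000000000000000100000000000000010000000000000002) (nat_lit 2432) (nb (nat_lit 0x1000000000000000000000000000000000000000000000001) (nat_lit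 1216) (nat_lit 0))))), (nb (nat_lit 0x1000000000000000000000000000000000000000000000001) (nat_lit 6080) (nb (nat_lit 0x2000000000000000100000000000000010000000000000002) (nat_lit 4864) (nb (nat_lit 0x10000000000000001) (nat_lit 1280) (nb (nat_lit 0x10000000000000001) (nat_lit 64) (nat_lit 0)))))⟩, ⟨(nat_lit 22), (nat_lit 26), (nb (nat_lit 0x3000000000000000100000000000000010000000000000003) (nat_lit 2432) (nb (nat_lit 0x3000000000000000200000000000000020000000000000003) (nat_lit 1216) (nat_lit 0x1000000000000000100000000000000010000000000000001))), (nb (nat_lit 0x1000000000000000100000000000000010000000000000001) (nat_lit 7296) (nb (nat_lit 0x3000000000000000200000000000000020000000000000003) (nat_lit 6080) (nb (nat_lit 0x3000000000000000100000000000000010000000000000003) (nat_lit 4864) (nat_lit 0))))⟩]⟩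
def e536 : En := ⟨(nat_lit 68), (nat_lit 69904), (nat_lit 244), (nat_lit 5832), [⟨(nat_lit 0), (nat_lit 48), (nb (nat_lit 0x20000000000000002) (nat_lit 4928) (nb (nat_lit 0x2000000000000000200000000000000020000000000000002) (nat_lit 3648) (nb (nat_lit 0x1000000000000000000000000000000000000000000000001) (nat_lit 2432) (nat_lit 0)))), (nb (nat_lit 0x1000000000000000100000000000000010000000000000001) (nat_lit 7296) (nb (nat_lit 0x2000000000000000100000000000000010000000000000002) (nat_lit 6080) (nb (nat_lit 0x10000000000000001) (nat_lit 2496) (nb (nat_lit 0x10000000000000001) (nat_lit 1280) (nat_lit 0)))))⟩, ⟨(nat_lit 2), (nat_lit 58), (nb (nat_lit 0x1000000000000000100000000000000010000000000000001) (nat_lit 6080) (nb (nat_lit 0x3000000000000000300000000000000030000000000000003) (nat_lit 4864) (nb (nat_lit 0x2000000000000000200000000000000020000000000000002) (nat_lit 3648) (nat_lit 0)))), (nb (nat_lit 0x2000000000000000200000000000000020000000000000002)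 (nat_lit 2432) (nb (nat_lit 0x3000000000000000300000000000000030000000000000003) (nat_lit 1216) (nat_lit 0x1000000000000000100000000000000010000000000000001)))⟩, ⟨(nat_lit 4), (nat_lit 54), (nb (nat_lit 0x1000000000000000100000000000000010000000000000001) (nat_lit 7296) (nb (nat_lit 0x3000000000000000300000000000000030000000000000003) (nat_lit 6080) (nb (nat_lit 0x2000000000000000200000000000000020000000000000002) (nat_lit 4864) (nat_lit 0)))), (nb (nat_lit 0x2000000000000000200000000000000020000000000000002) (nat_lit 3648) (nb (nat_lit 0x3000000000000000300000000000000030000000000000003) (nat_lit 2432) (nb (nat_lit 0x1000000000000000100000000000000010000000000000001) (nat_lit 1216) (nat_lit 0))))⟩, ⟨(nat_lit 6), (nat_lit 46), (nb (nat_lit 0x10000000000000001) (nat_lit 7360) (nb (nat_lit 0x10000000000000001) (nat_lit 6144) (nb (nat_lit 0x2000000000000000100000000000000010000000000000002) (nat_lit 2432) (nb (nat_lit 0x1000000000000000100000000000000010000000000000001)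 (nat_lit 1216) (nat_lit 0))))), (nb (nat_lit 0x1000000000000000000000000000000000000000000000001) (nat_lit 6080) (nb (nat_lit 0x2000000000000000200000000000000020000000000000002) (nat_lit 4864) (nb (nat_lit 0x20000000000000002) (nat_lit 3712) (nat_lit 0))))⟩, ⟨(nat_lit 12), (nat_lit 26), (nb (nat_lit 0x10000000000000001) (nat_lit 7360) (nb (nat_lit 0x20000000000000002) (nat_lit 6144) (nb (nat_lit 0x20000000000000002) (nat_lit 1280) (nb (nat_lit 0x10000000000000001) (nat_lit 64) (nat_lit 0))))), (nb (nat_lit 0x10000000000000001) (nat_lit 4928) (nb (nat_lit 0x40000000000000004) (nat_lit 3712) (nb (nat_lit 0x10000000000000001) (nat_lit 2496) (nat_lit 0))))⟩, ⟨(nat_lit 16), (nat_lit 18), (nb (nat_lit 0x10000000000000001) (nat_lit 7360) (nb (nat_lit 0x10000000000000001) (nat_lit 6144) (nb (nat_lit 0x2000000000000000100000000000000010000000000000002) (nat_lit 2432) (nb (nat_lit 0x1000000000000000000000000000000000000000000000001) (nat_lit 1216) (nat_lit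 0))))), (nb (nat_lit 0x1000000000000000000000000000000000000000000000001) (nat_lit 6080) (nb (nat_lit 0x2000000000000000100000000000000010000000000000002) (nat_lit 4864) (nb (nat_lit 0x10000000000000001) (nat_lit 1280) (nb (nat_lit 0x10000000000000001) (nat_lit 64) (nat_lit 0)))))⟩, ⟨(nat_lit 24), (nat_lit 28), (nb (nat_lit 0x3000000000000000100000000000000010000000000000003) (nat_lit 2432) (nb (nat_lit 0x3000000000000000200000000000000020000000000000003) (nat_lit 1216) (nat_lit 0x1000000000000000100000000000000010000000000000001))), (nb (nat_lit 0x1000000000000000100000000000000010000000000000001) (nat_lit 7296) (nb (nat_lit 0x3000000000000000200000000000000020000000000000003) (nat_lit 6080) (nb (nat_lit 0x3000000000000000100000000000000010000000000000003) (nat_lit 4864) (nat_lit 0))))⟩]⟩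
def e537 : En := ⟨(nat_lit 40), (nat_lit 273), (nat_lit 128), (nat_lit 1944), [⟨(nat_lit 4), (nat_lit 20), (nat_lit 0), (nb (nat_lit 0x1000000000000000100000000000000010000000000000001) (nat_lit 6080) (nb (nat_lit 0x3000000000000000300000000000000030000000000000003) (nat_lit 4864) (nb (nat_lit 0x3000000000000000300000000000000030000000000000003) (nat_lit 3648) (nb (nat_lit 0x1000000000000000100000000000000010000000000000001) (nat_lit 2432) (nat_lit 0)))))⟩, ⟨(nat_lit 6), (nat_lit 10), (nat_lit 0), (nb (nat_lit 0x1000000000000000100000000000000010000000000000001) (nat_lit 6080) (nb (nat_lit 0x4000000000000000400000000000000040000000000000004) (nat_lit 4864) (nb (nat_lit 0x6000000000000000600000000000000060000000000000006) (nat_lit 3648) (nb (nat_lit 0x4000000000000000400000000000000040000000000000004) (nat_lit 2432) (nb (nat_lit 0x1000000000000000100000000000000010000000000000001) (nat_lit 1216) (nat_lit 0))))))⟩, ⟨(nat_lit 8), (nat_lit 28), (nat_lit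 0), (nb (nat_lit 0x1000000000000000100000000000000010000000000000001) (nat_lit 4864) (nb (nat_lit 0x3000000000000000300000000000000030000000000000003) (nat_lit 3648) (nb (nat_lit 0x3000000000000000300000000000000030000000000000003) (nat_lit 2432) (nb (nat_lit 0x1000000000000000100000000000000010000000000000001) (nat_lit 1216) (nat_lit 0)))))⟩]⟩
def e538 : En := ⟨(nat_lit 42), (nat_lit 65553), (nat_lit 128), (nat_lit 1944), [⟨(nat_lit 0), (nat_lit 20), (nat_lit 0), (nb (nat_lit 0x1000000000000000100000000000000010000000000000001) (nat_lit 4864) (nb (nat_lit 0x3000000000000000300000000000000030000000000000003) (nat_lit 3648) (nb (nat_lit 0x3000000000000000300000000000000030000000000000003) (nat_lit 2432) (nb (nat_lit 0x1000000000000000100000000000000010000000000000001) (nat_lit 1216) (nat_lit 0)))))⟩, ⟨(nat_lit 6), (nat_lit 22), (nat_lit 0), (nb (nat_lit 0x1000000000000000100000000000000010000000000000001) (nat_lit 6080) (nb (nat_lit 0x3000000000000000300000000000000030000000000000003)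 (nat_lit 4864) (nb (nat_lit 0x3000000000000000300000000000000030000000000000003) (nat_lit 3648) (nb (nat_lit 0x1000000000000000100000000000000010000000000000001) (nat_lit 2432) (nat_lit 0)))))⟩, ⟨(nat_lit 8), (nat_lit 12), (nat_lit 0), (nb (nat_lit 0x1000000000000000100000000000000010000000000000001) (nat_lit 6080) (nb (nat_lit 0x4000000000000000400000000000000040000000000000004) (nat_lit 4864) (nb (nat_lit 0x6000000000000000600000000000000060000000000000006) (nat_lit 3648) (nb (nat_lit 0x4000000000000000400000000000000040000000000000004) (nat_lit 2432) (nb (nat_lit 0x1000000000000000100000000000000010000000000000001) (nat_lit 1216) (nat_lit 0))))))⟩]⟩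
def e539 : En := ⟨(nat_lit 44), (nat_lit 69633), (nat_lit 128), (nat_lit 1944), [⟨(nat_lit 0), (nat_lit 14), (nat_lit 0), (nb (nat_lit 0x1000000000000000100000000000000010000000000000001) (nat_lit 6080) (nb (nat_lit 0x4000000000000000400000000000000040000000000000004) (nat_lit 4864) (nb (nat_lit 0x6000000000000000600000000000000060000000000000006) (nat_lit 3648) (nb (nat_lit 0x4000000000000000400000000000000040000000000000004) (nat_lit 2432) (nb (nat_lit 0x1000000000000000100000000000000010000000000000001) (nat_lit 1216) (nat_lit 0))))))⟩, ⟨(nat_lit 2), (nat_lit 22), (nat_lit 0), (nb (nat_lit 0x1000000000000000100000000000000010000000000000001) (nat_lit 4864) (nb (nat_lit 0x3000000000000000300000000000000030000000000000003) (nat_lit 3648) (nb (nat_lit 0x3000000000000000300000000000000030000000000000003) (nat_lit 2432) (nb (nat_lit 0x1000000000000000100000000000000010000000000000001) (nat_lit 1216) (nat_lit 0)))))⟩, ⟨(nat_lit 8), (nat_lit 24), (nat_lit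 0), (nb (nat_lit 0x1000000000000000100000000000000010000000000000001) (nat_lit 6080) (nb (nat_lit 0x3000000000000000300000000000000030000000000000003) (nat_lit 4864) (nb (nat_lit 0x3000000000000000300000000000000030000000000000003) (nat_lit 3648) (nb (nat_lit 0x1000000000000000100000000000000010000000000000001) (nat_lit 2432) (nat_lit 0)))))⟩]⟩
def e540 : En := ⟨(nat_lit 46), (nat_lit 69888), (nat_lit 128), (nat_lit 1944), [⟨(nat_lit 0), (nat_lit 26), (nat_lit 0), (nb (nat_lit 0x1000000000000000100000000000000010000000000000001) (nat_lit 6080) (nb (nat_lit 0x3000000000000000300000000000000030000000000000003) (nat_lit 4864) (nb (nat_lit 0x3000000000000000300000000000000030000000000000003) (nat_lit 3648) (nb (nat_lit 0x1000000000000000100000000000000010000000000000001) (nat_lit 2432) (nat_lit 0)))))⟩, ⟨(nat_lit 2), (nat_lit 16), (nat_lit 0), (nb (nat_lit 0x1000000000000000100000000000000010000000000000001) (nat_lit 6080) (nb (nat_lit 0x4000000000000000400000000000000040000000000000004)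 (nat_lit 4864) (nb (nat_lit 0x6000000000000000600000000000000060000000000000006) (nat_lit 3648) (nb (nat_lit 0x4000000000000000400000000000000040000000000000004) (nat_lit 2432) (nb (nat_lit 0x1000000000000000100000000000000010000000000000001) (nat_lit 1216) (nat_lit 0))))))⟩, ⟨(nat_lit 4), (nat_lit 24), (nat_lit 0), (nb (nat_lit 0x1000000000000000100000000000000010000000000000001) (nat_lit 4864) (nb (nat_lit 0x3000000000000000300000000000000030000000000000003) (nat_lit 3648) (nb (nat_lit 0x3000000000000000300000000000000030000000000000003) (nat_lit 2432) (nb (nat_lit 0x1000000000000000100000000000000010000000000000001) (nat_lit 1216) (nat_lit 0)))))⟩]⟩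
def e541 : En := ⟨(nat_lit 48), (nat_lit 4368), (nat_lit 128), (nat_lit 1944), [⟨(nat_lit 2), (nat_lit 28), (nat_lit 0), (nb (nat_lit 0x1000000000000000100000000000000010000000000000001) (nat_lit 6080) (nb (nat_lit 0x3000000000000000300000000000000030000000000000003) (nat_lit 4864) (nb (nat_lit 0x3000000000000000300000000000000030000000000000003) (nat_lit 3648) (nb (nat_lit 0x1000000000000000100000000000000010000000000000001) (nat_lit 2432) (nat_lit 0)))))⟩, ⟨(nat_lit 4), (nat_lit 18), (nat_lit 0), (nb (nat_lit 0x1000000000000000100000000000000010000000000000001) (nat_lit 6080) (nb (nat_lit 0x4000000000000000400000000000000040000000000000004) (nat_lit 4864) (nb (nat_lit 0x6000000000000000600000000000000060000000000000006) (nat_lit 3648) (nb (nat_lit 0x4000000000000000400000000000000040000000000000004) (nat_lit 2432) (nb (nat_lit 0x1000000000000000100000000000000010000000000000001) (nat_lit 1216) (nat_lit 0))))))⟩, ⟨(nat_lit 6), (nat_lit 26), (nat_lit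 0), (nb (nat_lit 0x1000000000000000100000000000000010000000000000001) (nat_lit 4864) (nb (nat_lit 0x3000000000000000300000000000000030000000000000003) (nat_lit 3648) (nb (nat_lit 0x3000000000000000300000000000000030000000000000003) (nat_lit 2432) (nb (nat_lit 0x1000000000000000100000000000000010000000000000001) (nat_lit 1216) (nat_lit 0)))))⟩]⟩
def e542 : En := ⟨(nat_lit 50), (nat_lit 4113), (nat_lit 72), (nat_lit 1944), [⟨(nat_lit 2), (nat_lit 20), (nat_lit 0), (nb (nat_lit 0x1000000000000000100000000000000010000000000000001) (nat_lit 6080) (nb (nat_lit 0x3000000000000000300000000000000030000000000000003) (nat_lit 4864) (nb (nat_lit 0x3000000000000000300000000000000030000000000000003) (nat_lit 3648) (nb (nat_lit 0x1000000000000000100000000000000010000000000000001) (nat_lit 2432) (nat_lit 0)))))⟩, ⟨(nat_lit 6), (nat_lit 14), (nb (nat_lit 0x1000000000000000200000000000000020000000000000001) (nat_lit 6080) (nb (nat_lit 0x2000000000000000300000000000000030000000000000002)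 (nat_lit 4864) (nb (nat_lit 0x1000000000000000000000000000000000000000000000001) (nat_lit 3648) (nat_lit 0)))), (nb (nat_lit 0x10000000000000001) (nat_lit 2496) (nat_lit 0))⟩, ⟨(nat_lit 8), (nat_lit 18), (nb (nat_lit 0x1000000000000000000000000000000000000000000000001) (nat_lit 4864) (nb (nat_lit 0x2000000000000000300000000000000030000000000000002) (nat_lit 3648) (nb (nat_lit 0x1000000000000000200000000000000020000000000000001) (nat_lit 2432) (nat_lit 0)))), (nb (nat_lit 0x10000000000000001) (nat_lit 6144) (nat_lit 0))⟩]⟩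
def e543 : En := ⟨(nat_lit 52), (nat_lit 65793), (nat_lit 72), (nat_lit 1944), [⟨(nat_lit 0), (nat_lit 10), (nb (nat_lit 0x1000000000000000000000000000000000000000000000001) (nat_lit 4864) (nb (nat_lit 0x2000000000000000300000000000000030000000000000002) (nat_lit 3648) (nb (nat_lit 0x1000000000000000200000000000000020000000000000001) (nat_lit 2432) (nat_lit 0)))), (nb (nat_lit 0x10000000000000001) (nat_lit 6144) (nat_lit 0))⟩, ⟨(nat_lit 4), (nat_lit 22), (nat_lit 0), (nb (nat_lit 0x1000000000000000100000000000000010000000000000001) (nat_lit 6080) (nb (nat_lit 0x3000000000000000300000000000000030000000000000003) (nat_lit 4864) (nb (nat_lit 0x3000000000000000300000000000000030000000000000003) (nat_lit 3648) (nb (nat_lit 0x1000000000000000100000000000000010000000000000001) (nat_lit 2432) (nat_lit 0)))))⟩, ⟨(nat_lit 8), (nat_lit 16), (nb (nat_lit 0x1000000000000000200000000000000020000000000000001) (nat_lit 6080) (nb (nat_lit 0x2000000000000000300000000000000030000000000000002)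 (nat_lit 4864) (nb (nat_lit 0x1000000000000000000000000000000000000000000000001) (nat_lit 3648) (nat_lit 0)))), (nb (nat_lit 0x10000000000000001) (nat_lit 2496) (nat_lit 0))⟩]⟩
def e544 : En := ⟨(nat_lit 54), (nat_lit 69648), (nat_lit 72), (nat_lit 1944), [⟨(nat_lit 0), (nat_lit 18), (nb (nat_lit 0x1000000000000000200000000000000020000000000000001) (nat_lit 6080) (nb (nat_lit 0x2000000000000000300000000000000030000000000000002) (nat_lit 4864) (nb (nat_lit 0x1000000000000000000000000000000000000000000000001) (nat_lit 3648) (nat_lit 0)))), (nb (nat_lit 0x10000000000000001) (nat_lit 2496) (nat_lit 0))⟩, ⟨(nat_lit 2), (nat_lit 12), (nb (nat_lit 0x1000000000000000000000000000000000000000000000001) (nat_lit 4864) (nb (nat_lit 0x2000000000000000300000000000000030000000000000002) (nat_lit 3648) (nb (nat_lit 0x1000000000000000200000000000000020000000000000001) (nat_lit 2432) (nat_lit 0)))), (nb (nat_lit 0x10000000000000001) (nat_lit 6144) (nat_lit 0))⟩, ⟨(nat_lit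 6), (nat_lit 24), (nat_lit 0), (nb (nat_lit 0x1000000000000000100000000000000010000000000000001) (nat_lit 6080) (nb (nat_lit 0x3000000000000000300000000000000030000000000000003) (nat_lit 4864) (nb (nat_lit 0x3000000000000000300000000000000030000000000000003) (nat_lit 3648) (nb (nat_lit 0x1000000000000000100000000000000010000000000000001) (nat_lit 2432) (nat_lit 0)))))⟩]⟩
def e545 : En := ⟨(nat_lit 56), (nat_lit 4353), (nat_lit 72), (nat_lit 1944), [⟨(nat_lit 2), (nat_lit 10), (nb (nat_lit 0x1000000000000000200000000000000020000000000000001) (nat_lit 6080) (nb (nat_lit 0x2000000000000000300000000000000030000000000000002) (nat_lit 4864) (nb (nat_lit 0x1000000000000000000000000000000000000000000000001) (nat_lit 3648) (nat_lit 0)))), (nb (nat_lit 0x10000000000000001) (nat_lit 2496) (nat_lit 0))⟩, ⟨(nat_lit 4), (nat_lit 14), (nb (nat_lit 0x1000000000000000000000000000000000000000000000001) (nat_lit 4864) (nb (nat_lit 0x2000000000000000300000000000000030000000000000002)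 (nat_lit 3648) (nb (nat_lit 0x1000000000000000200000000000000020000000000000001) (nat_lit 2432) (nat_lit 0)))), (nb (nat_lit 0x10000000000000001) (nat_lit 6144) (nat_lit 0))⟩, ⟨(nat_lit 8), (nat_lit 26), (nat_lit 0), (nb (nat_lit 0x1000000000000000100000000000000010000000000000001) (nat_lit 6080) (nb (nat_lit 0x3000000000000000300000000000000030000000000000003) (nat_lit 4864) (nb (nat_lit 0x3000000000000000300000000000000030000000000000003) (nat_lit 3648) (nb (nat_lit 0x1000000000000000100000000000000010000000000000001) (nat_lit 2432) (nat_lit 0)))))⟩]⟩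
def e546 : En := ⟨(nat_lit 58), (nat_lit 65808), (nat_lit 72), (nat_lit 1944), [⟨(nat_lit 0), (nat_lit 28), (nat_lit 0), (nb (nat_lit 0x1000000000000000100000000000000010000000000000001) (nat_lit 6080) (nb (nat_lit 0x3000000000000000300000000000000030000000000000003) (nat_lit 4864) (nb (nat_lit 0x3000000000000000300000000000000030000000000000003) (nat_lit 3648) (nb (nat_lit 0x1000000000000000100000000000000010000000000000001) (nat_lit 2432) (nat_lit 0)))))⟩, ⟨(nat_lit 4), (nat_lit 12), (nb (nat_lit 0x1000000000000000200000000000000020000000000000001) (nat_lit 6080) (nb (nat_lit 0x2000000000000000300000000000000030000000000000002) (nat_lit 4864) (nb (nat_lit 0x1000000000000000000000000000000000000000000000001) (nat_lit 3648) (nat_lit 0)))), (nb (nat_lit 0x10000000000000001) (nat_lit 2496) (nat_lit 0))⟩, ⟨(nat_lit 6), (nat_lit 16), (nb (nat_lit 0x1000000000000000000000000000000000000000000000001) (nat_lit 4864) (nb (nat_lit 0x2000000000000000300000000000000030000000000000002)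 (nat_lit 3648) (nb (nat_lit 0x1000000000000000200000000000000020000000000000001) (nat_lit 2432) (nat_lit 0)))), (nb (nat_lit 0x10000000000000001) (nat_lit 6144) (nat_lit 0))⟩]⟩
def e547 : En := ⟨(nat_lit 10), (nat_lit 257), (nat_lit 32), (nat_lit 1944), [⟨(nat_lit 4), (nat_lit 8), (nat_lit 0), (nb (nat_lit 0x1000000000000000100000000000000010000000000000001) (nat_lit 6080) (nb (nat_lit 0x3000000000000000300000000000000030000000000000003) (nat_lit 4864) (nb (nat_lit 0x3000000000000000300000000000000030000000000000003) (nat_lit 3648) (nb (nat_lit 0x1000000000000000100000000000000010000000000000001) (nat_lit 2432) (nat_lit 0)))))⟩]⟩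
def e548 : En := ⟨(nat_lit 12), (nat_lit 65552), (nat_lit 32), (nat_lit 1944), [⟨(nat_lit 0), (nat_lit 6), (nb (nat_lit 0x1000000000000000100000000000000010000000000000001) (nat_lit 6080) (nb (nat_lit 0x3000000000000000300000000000000030000000000000003) (nat_lit 4864) (nb (nat_lit 0x3000000000000000300000000000000030000000000000003) (nat_lit 3648) (nb (nat_lit 0x1000000000000000100000000000000010000000000000001) (nat_lit 2432) (nat_lit 0))))), (nat_lit 0)⟩]⟩
def e549 : En := ⟨(nat_lit 14), (nat_lit 4097), (nat_lit 32), (nat_lit 1944), [⟨(nat_lit 2), (nat_lit 8), (nb (nat_lit 0x1000000000000000100000000000000010000000000000001) (nat_lit 6080) (nb (nat_lit 0x3000000000000000300000000000000030000000000000003) (nat_lit 4864) (nb (nat_lit 0x3000000000000000300000000000000030000000000000003) (nat_lit 3648) (nb (nat_lit 0x1000000000000000100000000000000010000000000000001) (nat_lit 2432) (nat_lit 0))))), (nat_lit 0)⟩]⟩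
def e550 : En := ⟨(nat_lit 16), (nat_lit 65792), (nat_lit 32), (nat_lit 1944), [⟨(nat_lit 0), (nat_lit 4), (nat_lit 0), (nb (nat_lit 0x1000000000000000100000000000000010000000000000001) (nat_lit 6080) (nb (nat_lit 0x3000000000000000300000000000000030000000000000003) (nat_lit 4864) (nb (nat_lit 0x3000000000000000300000000000000030000000000000003) (nat_lit 3648) (nb (nat_lit 0x1000000000000000100000000000000010000000000000001) (nat_lit 2432) (nat_lit 0)))))⟩]⟩
def e551 : En := ⟨(nat_lit 18), (nat_lit 4112), (nat_lit 32), (nat_lit 1944), [⟨(nat_lit 2), (nat_lit 6), (nat_lit 0), (nb (nat_lit 0x1000000000000000100000000000000010000000000000001) (nat_lit 6080) (nb (nat_lit 0x3000000000000000300000000000000030000000000000003) (nat_lit 4864) (nb (nat_lit 0x3000000000000000300000000000000030000000000000003) (nat_lit 3648) (nb (nat_lit 0x1000000000000000100000000000000010000000000000001) (nat_lit 2432) (nat_lit 0)))))⟩]⟩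
def e552 : En := ⟨(nat_lit 20), (nat_lit 17), (nat_lit 32), (nat_lit 1944), [⟨(nat_lit 6), (nat_lit 8), (nat_lit 0), (nb (nat_lit 0x1000000000000000100000000000000010000000000000001) (nat_lit 6080) (nb (nat_lit 0x3000000000000000300000000000000030000000000000003) (nat_lit 4864) (nb (nat_lit 0x3000000000000000300000000000000030000000000000003) (nat_lit 3648) (nb (nat_lit 0x1000000000000000100000000000000010000000000000001) (nat_lit 2432) (nat_lit 0)))))⟩]⟩
def e553 : En := ⟨(nat_lit 22), (nat_lit 65537), (nat_lit 32), (nat_lit 1944), [⟨(nat_lit 0), (nat_lit 8), (nb (nat_lit 0x1000000000000000100000000000000010000000000000001) (nat_lit 6080) (nb (nat_lit 0x3000000000000000300000000000000030000000000000003) (nat_lit 4864) (nb (nat_lit 0x3000000000000000300000000000000030000000000000003) (nat_lit 3648) (nb (nat_lit 0x1000000000000000100000000000000010000000000000001) (nat_lit 2432) (nat_lit 0))))), (nat_lit 0)⟩]⟩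
def e554 : En := ⟨(nat_lit 24), (nat_lit 69632), (nat_lit 32), (nat_lit 1944), [⟨(nat_lit 0), (nat_lit 2), (nat_lit 0), (nb (nat_lit 0x1000000000000000100000000000000010000000000000001) (nat_lit 6080) (nb (nat_lit 0x3000000000000000300000000000000030000000000000003) (nat_lit 4864) (nb (nat_lit 0x3000000000000000300000000000000030000000000000003) (nat_lit 3648) (nb (nat_lit 0x1000000000000000100000000000000010000000000000001) (nat_lit 2432) (nat_lit 0)))))⟩]⟩
def e555 : En := ⟨(nat_lit 26), (nat_lit 4352), (nat_lit 32), (nat_lit 1944), [⟨(nat_lit 2), (nat_lit 4), (nat_lit 0), (nb (nat_lit 0x1000000000000000100000000000000010000000000000001) (nat_lit 6080) (nb (nat_lit 0x3000000000000000300000000000000030000000000000003) (nat_lit 4864) (nb (nat_lit 0x3000000000000000300000000000000030000000000000003) (nat_lit 3648) (nb (nat_lit 0x1000000000000000100000000000000010000000000000001) (nat_lit 2432) (nat_lit 0)))))⟩]⟩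
def e556 : En := ⟨(nat_lit 28), (nat_lit 272), (nat_lit 32), (nat_lit 1944), [⟨(nat_lit 4), (nat_lit 6), (nat_lit 0), (nb (nat_lit 0x1000000000000000100000000000000010000000000000001) (nat_lit 6080) (nb (nat_lit 0x3000000000000000300000000000000030000000000000003) (nat_lit 4864) (nb (nat_lit 0x3000000000000000300000000000000030000000000000003) (nat_lit 3648) (nb (nat_lit 0x1000000000000000100000000000000010000000000000001) (nat_lit 2432) (nat_lit 0)))))⟩]⟩
def e557 : En := ⟨(nat_lit 87), (nat_lit 69905), (nat_lit 68), (nat_lit 216), [⟨(nat_lit 0), (nat_lit 60), (nb (nat_lit 1) (nat_lit 2432) (nat_lit 0)), (nat_lit 0)⟩, ⟨(nat_lit 2), (nat_lit 62), (nb (nat_lit 1) (nat_lit 2560) (nat_lit 0)), (nat_lit 0)⟩, ⟨(nat_lit 4), (nat_lit 64), (nat_lit 0), (nb (nat_lit 0x1000000000000000100000000000000010000000000000001) (nat_lit 2432) (nat_lit 0))⟩, ⟨(nat_lit 6), (nat_lit 66), (nb (nat_lit 1) (nat_lit 2496) (nat_lit 0)), (nat_lit 0)⟩, ⟨(nat_lit 8), (nat_lit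 68), (nb (nat_lit 1) (nat_lit 2624) (nat_lit 0)), (nat_lit 0)⟩, ⟨(nat_lit 10), (nat_lit 54), (nb (nat_lit 1) (nat_lit 3840) (nb (nat_lit 0x1000000000000000100000000000000010000000000000001) (nat_lit 2432) (nat_lit 0))), (nb (nat_lit 1) (nat_lit 1408) (nat_lit 0x1000000000000000100000000000000010000000000000001))⟩, ⟨(nat_lit 12), (nat_lit 56), (nb (nat_lit 1) (nat_lit 3648) (nb (nat_lit 1) (nat_lit 64) (nat_lit 0))), (nb (nat_lit 1) (nat_lit 2496) (nb (nat_lit 1) (nat_lit 1216) (nat_lit 0)))⟩, ⟨(nat_lit 14), (nat_lit 58), (nb (nat_lit 1) (nat_lit 3776) (nb (nat_lit 1) (nat_lit 192) (nat_lit 0))), (nb (nat_lit 1) (nat_lit 2624) (nb (nat_lit 1) (nat_lit 1344) (nat_lit 0)))⟩, ⟨(nat_lit 16), (nat_lit 50), (nb (nat_lit 0x1000000000000000100000000000000010000000000000001) (nat_lit 1216) (nat_lit 1)), (nb (nat_lit 0x1000000000000000100000000000000010000000000000001) (nat_lit 3648) (nb (nat_lit 1) (nat_lit 2432) (nat_lit 0)))⟩, ⟨(nat_lit 18), (nat_lit 52),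 (nb (nat_lit 1) (nat_lit 3712) (nb (nat_lit 1) (nat_lit 128) (nat_lit 0))), (nb (nat_lit 1) (nat_lit 2560) (nb (nat_lit 1) (nat_lit 1280) (nat_lit 0)))⟩, ⟨(nat_lit 20), (nat_lit 46), (nb (nat_lit 0x1000000000000000100000000000000010000000000000001) (nat_lit 1216) (nat_lit 0)), (nb (nat_lit 1) (nat_lit 3648) (nb (nat_lit 0x100000000000000010000000000000001) (nat_lit 2496) (nat_lit 0)))⟩, ⟨(nat_lit 22), (nat_lit 48), (nb (nat_lit 0x10000000000000001) (nat_lit 2496) (nat_lit 0)), (nb (nat_lit 1) (nat_lit 3776) (nb (nat_lit 1) (nat_lit 1280) (nat_lit 0)))⟩, ⟨(nat_lit 24), (nat_lit 40), (nb (nat_lit 0x1000000000000000100000000000000010000000000000001) (nat_lit 3648) (nat_lit 0)), (nb (nat_lit 0x100000000000000010000000000000001) (nat_lit 2432) (nb (nat_lit 1) (nat_lit 1408) (nat_lit 0)))⟩, ⟨(nat_lit 26), (nat_lit 42), (nb (nat_lit 0x10000000000000001) (nat_lit 2432) (nat_lit 0)), (nb (nat_lit 1) (nat_lit 3712) (nb (nat_lit 1) (nat_lit 1216) (nat_lit 0)))⟩,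 ⟨(nat_lit 28), (nat_lit 44), (nb (nat_lit 0x10000000000000001) (nat_lit 2560) (nat_lit 0)), (nb (nat_lit 1) (nat_lit 3840) (nb (nat_lit 1) (nat_lit 1344) (nat_lit 0)))⟩]⟩
def e558 : En := ⟨(nat_lit 75), (nat_lit 69905), (nat_lit 344), (nat_lit 5832), [⟨(nat_lit 0), (nat_lit 60), (nb (nat_lit 0x1000000000000000100000000000000010000000000000001) (nat_lit 6080) (nb (nat_lit 0x3000000000000000300000000000000030000000000000003) (nat_lit 4864) (nb (nat_lit 0x3000000000000000300000000000000030000000000000003) (nat_lit 3648) (nb (nat_lit 0x1000000000000000100000000000000010000000000000001) (nat_lit 2432) (nat_lit 0))))), (nat_lit 0)⟩, ⟨(nat_lit 2), (nat_lit 62), (nat_lit 0), (nb (nat_lit 1) (nat_lit 6208) (nb (nat_lit 3) (nat_lit 4992) (nb (nat_lit 3) (nat_lit 3776) (nb (nat_lit 1) (nat_lit 2560) (nat_lit 0)))))⟩, ⟨(nat_lit 4), (nat_lit 64), (nat_lit 0), (nb (nat_lit 1) (nat_lit 6080) (nb (nat_lit 3) (nat_lit 4864) (nb (nat_lit 3) (nat_lit 3648) (nb (nat_lit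 1) (nat_lit 2432) (nat_lit 0)))))⟩, ⟨(nat_lit 6), (nat_lit 66), (nat_lit 0), (nb (nat_lit 1) (nat_lit 6272) (nb (nat_lit 3) (nat_lit 5056) (nb (nat_lit 3) (nat_lit 3840) (nb (nat_lit 1) (nat_lit 2624) (nat_lit 0)))))⟩, ⟨(nat_lit 8), (nat_lit 68), (nat_lit 0), (nb (nat_lit 1) (nat_lit 6144) (nb (nat_lit 3) (nat_lit 4928) (nb (nat_lit 3) (nat_lit 3712) (nb (nat_lit 1) (nat_lit 2496) (nat_lit 0)))))⟩, ⟨(nat_lit 10), (nat_lit 54), (nb (nat_lit 1) (nat_lit 6080) (nb (nat_lit 3) (nat_lit 4864) (nb (nat_lit 0x20000000000000002) (nat_lit 3648) (nb (nat_lit 3) (nat_lit 2496) (nb (nat_lit 1) (nat_lit 1280) (nat_lit 0)))))), (nb (nat_lit 1) (nat_lit 7360) (nb (nat_lit 3) (nat_lit 6144) (nb (nat_lit 2) (nat_lit 4928) (nb (nat_lit 2) (nat_lit 2432) (nb (nat_lit 3) (nat_lit 1216) (nat_lit 1))))))⟩, ⟨(nat_lit 12), (nat_lit 56), (nb (nat_lit 0x1000000000000000100000000000000010000000000000001) (nat_lit 7296) (nb (nat_lit 0x4000000000000000300000000000000030000000000000003)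 (nat_lit 6080) (nb (nat_lit 0x5000000000000000200000000000000020000000000000002) (nat_lit 4864) (nat_lit 0)))), (nb (nat_lit 0x200000000000000020000000000000002) (nat_lit 3648) (nb (nat_lit 0x5000000000000000300000000000000030000000000000003) (nat_lit 2432) (nb (nat_lit 0x4000000000000000100000000000000010000000000000001) (nat_lit 1216) (nb (nat_lit 1) (nat_lit 192) (nat_lit 0)))))⟩, ⟨(nat_lit 14), (nat_lit 58), (nb (nat_lit 1) (nat_lit 6144) (nb (nat_lit 3) (nat_lit 4928) (nb (nat_lit 0x20000000000000002) (nat_lit 3712) (nb (nat_lit 3) (nat_lit 2560) (nb (nat_lit 1) (nat_lit 1344) (nat_lit 0)))))), (nb (nat_lit 1) (nat_lit 7424) (nb (nat_lit 3) (nat_lit 6208) (nb (nat_lit 2) (nat_lit 4992) (nb (nat_lit 2) (nat_lit 2496) (nb (nat_lit 3) (nat_lit 1280) (nb (nat_lit 1) (nat_lit 64) (nat_lit 0)))))))⟩, ⟨(nat_lit 16), (nat_lit 50), (nb (nat_lit 0x2000000000000000200000000000000020000000000000005) (nat_lit 2432) (nb (nat_lit 0x3000000000000000300000000000000030000000000000004)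 (nat_lit 1216) (nat_lit 0x1000000000000000100000000000000010000000000000001))), (nb (nat_lit 1) (nat_lit 7296) (nb (nat_lit 0x1000000000000000100000000000000010000000000000004) (nat_lit 6080) (nb (nat_lit 0x3000000000000000300000000000000030000000000000005) (nat_lit 4864) (nb (nat_lit 0x200000000000000020000000000000002) (nat_lit 3712) (nat_lit 0)))))⟩, ⟨(nat_lit 18), (nat_lit 52), (nb (nat_lit 1) (nat_lit 6208) (nb (nat_lit 3) (nat_lit 4992) (nb (nat_lit 0x20000000000000002) (nat_lit 3776) (nb (nat_lit 3) (nat_lit 2624) (nb (nat_lit 1) (nat_lit 1408) (nat_lit 0)))))), (nb (nat_lit 1) (nat_lit 7488) (nb (nat_lit 3) (nat_lit 6272) (nb (nat_lit 2) (nat_lit 5056) (nb (nat_lit 2) (nat_lit 2560) (nb (nat_lit 3) (nat_lit 1344) (nb (nat_lit 1) (nat_lit 128) (nat_lit 0)))))))⟩, ⟨(nat_lit 20), (nat_lit 46), (nb (nat_lit 0x2000000000000000200000000000000020000000000000002) (nat_lit 3648) (nb (nat_lit 0x1000000000000000100000000000000010000000000000003) (nat_lit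 2432) (nb (nat_lit 1) (nat_lit 1216) (nat_lit 0)))), (nb (nat_lit 0x1000000000000000100000000000000010000000000000001) (nat_lit 7296) (nb (nat_lit 0x2000000000000000200000000000000020000000000000003) (nat_lit 6080) (nb (nat_lit 2) (nat_lit 4864) (nat_lit 0))))⟩, ⟨(nat_lit 22), (nat_lit 48), (nb (nat_lit 1) (nat_lit 7424) (nb (nat_lit 2) (nat_lit 6208) (nb (nat_lit 2) (nat_lit 2624) (nb (nat_lit 1) (nat_lit 1408) (nat_lit 0))))), (nb (nat_lit 1) (nat_lit 6272) (nb (nat_lit 2) (nat_lit 5056) (nb (nat_lit 2) (nat_lit 3776) (nb (nat_lit 1) (nat_lit 2560) (nat_lit 0)))))⟩, ⟨(nat_lit 24), (nat_lit 40), (nb (nat_lit 1) (nat_lit 7296) (nb (nat_lit 2) (nat_lit 6080) (nb (nat_lit 2) (nat_lit 2496) (nb (nat_lit 1) (nat_lit 1280) (nat_lit 0))))), (nb (nat_lit 1) (nat_lit 6144) (nb (nat_lit 2) (nat_lit 4928) (nb (nat_lit 2) (nat_lit 3648) (nb (nat_lit 1) (nat_lit 2432) (nat_lit 0)))))⟩, ⟨(nat_lit 26), (nat_lit 42), (nb (nat_lit 1) (nat_lit 7488) (nb (nat_lit 0x3000000000000000100000000000000010000000000000001)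 (nat_lit 6080) (nb (nat_lit 0x2000000000000000200000000000000020000000000000002) (nat_lit 4864) (nat_lit 0)))), (nb (nat_lit 2) (nat_lit 3840) (nb (nat_lit 0x3000000000000000200000000000000020000000000000002) (nat_lit 2432) (nb (nat_lit 0x1000000000000000100000000000000010000000000000001) (nat_lit 1216) (nat_lit 0))))⟩, ⟨(nat_lit 28), (nat_lit 44), (nb (nat_lit 1) (nat_lit 7360) (nb (nat_lit 2) (nat_lit 6144) (nb (nat_lit 2) (nat_lit 2560) (nb (nat_lit 1) (nat_lit 1344) (nat_lit 0))))), (nb (nat_lit 1) (nat_lit 6208) (nb (nat_lit 2) (nat_lit 4992) (nb (nat_lit 2) (nat_lit 3712) (nb (nat_lit 1) (nat_lit 2496) (nat_lit 0)))))⟩]⟩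
def e559 : En := ⟨(nat_lit 60), (nat_lit 4369), (nat_lit 1024), (nat_lit 343000), [⟨(nat_lit 2), (nat_lit 40), (nb (nat_lit 0x1000000000000000100000000000000010000000000000001) (nat_lit 321024) (nb (nat_lit 0x3000000000000000500000000000000040000000000000004) (nat_lit 307648) (nb (nat_lit 0x2000000000000000800000000000000060000000000000005) (nat_lit 294272) (nb (nat_lit 0x400000000000000040000000000000002) (nat_lit 280896) (nb (nat_lit 0x3000000000000000300000000000000030000000000000003) (nat_lit 227392) (nb (nat_lit 0x6000000000000000900000000000000060000000000000007) (nat_lit 214016) (nb (nat_lit 0x4000000000000000500000000000000000000000000000001) (nat_lit 200640) (nb (nat_lit 2) (nat_lit 187456) (nb (nat_lit 0x3000000000000000300000000000000030000000000000003) (nat_lit 133760) (nb (nat_lit 0x3000000000000000300000000000000000000000000000002) (nat_lit 120384) (nb (nat_lit 0x30000000000000004) (nat_lit 93632) (nb (nat_lit 0x1000000000000000100000000000000010000000000000001)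 (nat_lit 40128) (nb (nat_lit 0x10000000000000001) (nat_lit 13376) (nb (nat_lit 0x10000000000000001) (nat_lit 128) (nat_lit 0))))))))))))))), (nb (nat_lit 1) (nat_lit 200704) (nb (nat_lit 0x200000000000000080000000000000005) (nat_lit 187264) (nb (nat_lit 0x400000000000000060000000000000003) (nat_lit 107008) (nb (nat_lit 0x30000000000000002) (nat_lit 93760) (nb (nat_lit 0x100000000000000020000000000000001) (nat_lit 26752) (nb (nat_lit 0x20000000000000001) (nat_lit 13504) (nat_lit 1)))))))⟩, ⟨(nat_lit 4), (nat_lit 50), (nb (nat_lit 1) (nat_lit 214208) (nb (nat_lit 4) (nat_lit 200832) (nb (nat_lit 4) (nat_lit 187456) (nb (nat_lit 2) (nat_lit 120576) (nb (nat_lit 2) (nat_lit 107200) (nb (nat_lit 0x20000000000000004) (nat_lit 93632) (nb (nat_lit 1) (nat_lit 26944) (nb (nat_lit 2) (nat_lit 13376) (nb (nat_lit 0x10000000000000002) (nat_lit 128) (nat_lit 0)))))))))), (nb (nat_lit 1) (nat_lit 214016) (nb (nat_lit 0x20000000000000004) (nat_lit 200640) (nb (nat_lit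 0x40000000000000004) (nat_lit 187264) (nb (nat_lit 2) (nat_lit 120384) (nb (nat_lit 0x200000000000000020000000000000002) (nat_lit 107008) (nb (nat_lit 0x40000000000000004) (nat_lit 93760) (nb (nat_lit 1) (nat_lit 26752) (nb (nat_lit 0x20000000000000002) (nat_lit 13504) (nat_lit 1)))))))))⟩, ⟨(nat_lit 6), (nat_lit 56), (nb (nat_lit 1) (nat_lit 307840) (nb (nat_lit 4) (nat_lit 294464) (nb (nat_lit 4) (nat_lit 281088) (nb (nat_lit 2) (nat_lit 214208) (nb (nat_lit 2) (nat_lit 200832) (nb (nat_lit 0x20000000000000004) (nat_lit 187264) (nb (nat_lit 1) (nat_lit 120576) (nb (nat_lit 2) (nat_lit 107008) (nb (nat_lit 0x10000000000000002) (nat_lit 93760) (nat_lit 0)))))))))), (nb (nat_lit 1) (nat_lit 307648) (nb (nat_lit 0x20000000000000004) (nat_lit 294272) (nb (nat_lit 0x40000000000000004) (nat_lit 280896) (nb (nat_lit 2) (nat_lit 214016) (nb (nat_lit 0x200000000000000020000000000000002) (nat_lit 200640) (nb (nat_lit 0x40000000000000004) (nat_lit 187392) (nb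 (nat_lit 1) (nat_lit 120384) (nb (nat_lit 0x20000000000000002) (nat_lit 107136) (nb (nat_lit 1) (nat_lit 93632) (nat_lit 0))))))))))⟩, ⟨(nat_lit 8), (nat_lit 48), (nb (nat_lit 1) (nat_lit 321024) (nb (nat_lit 0x100000000000000010000000000000004) (nat_lit 307648) (nb (nat_lit 0x400000000000000040000000000000005) (nat_lit 294272) (nb (nat_lit 0x400000000000000040000000000000002) (nat_lit 280896) (nb (nat_lit 3) (nat_lit 227392) (nb (nat_lit 0x300000000000000010000000000000007) (nat_lit 214016) (nb (nat_lit 0x300000000000000000000000000000001) (nat_lit 200640) (nb (nat_lit 3) (nat_lit 133760) (nb (nat_lit 0x1000000000000000300000000000000000000000000000002) (nat_lit 120384) (nb (nat_lit 1) (nat_lit 107200) (nb (nat_lit 0x1000000000000000400000000000000060000000000000004) (nat_lit 93632) (nb (nat_lit 1) (nat_lit 40128) (nb (nat_lit 0x10000000000000001) (nat_lit 26880) (nb (nat_lit 0x20000000000000001) (nat_lit 13376) (nat_lit 0))))))))))))))), (nb (nat_lit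 1) (nat_lit 307840) (nb (nat_lit 2) (nat_lit 294464) (nb (nat_lit 1) (nat_lit 214208) (nb (nat_lit 3) (nat_lit 200704) (nb (nat_lit 0x20000000000000006000000000000000a0000000000000005) (nat_lit 187264) (nb (nat_lit 1) (nat_lit 120448) (nb (nat_lit 0x100000000000000050000000000000003) (nat_lit 107008) (nb (nat_lit 0x10000000000000001) (nat_lit 26752) (nb (nat_lit 1) (nat_lit 13568) (nat_lit 0x100000000000000010000000000000001))))))))))⟩, ⟨(nat_lit 10), (nat_lit 18), (nb (nat_lit 0xa0000000000000004) (nat_lit 200640) (nb (nat_lit 0x4000000000000000c00000000000000100000000000000006) (nat_lit 187264) (nb (nat_lit 3) (nat_lit 120448) (nb (nat_lit 0x5000000000000000b0000000000000009) (nat_lit 107072) (nb (nat_lit 1) (nat_lit 93824) (nb (nat_lit 0x100000000000000020000000000000003) (nat_lit 26816) (nb (nat_lit 2) (nat_lit 13568) (nat_lit 0x10000000000000002)))))))), (nb (nat_lit 0x1000000000000000100000000000000010000000000000002) (nat_lit 321024) (nb (nat_lit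 0x3000000000000000600000000000000050000000000000007) (nat_lit 307648) (nb (nat_lit 0x4000000000000000c00000000000000080000000000000006) (nat_lit 294272) (nb (nat_lit 0x400000000000000080000000000000004) (nat_lit 280960) (nb (nat_lit 0x4000000000000000300000000000000030000000000000005) (nat_lit 227392) (nb (nat_lit 0xb000000000000000c00000000000000050000000000000008) (nat_lit 214016) (nb (nat_lit 0xa0000000000000006) (nat_lit 200768) (nb (nat_lit 0x5000000000000000300000000000000030000000000000004) (nat_lit 133760) (nb (nat_lit 0x7000000000000000400000000000000000000000000000001) (nat_lit 120384) (nb (nat_lit 0x400000000000000090000000000000007) (nat_lit 93632) (nb (nat_lit 0x2000000000000000100000000000000010000000000000001) (nat_lit 40128) (nb (nat_lit 0x100000000000000030000000000000001) (nat_lit 13376) (nb (nat_lit 1) (nat_lit 192) (nat_lit 0))))))))))))))⟩, ⟨(nat_lit 14), (nat_lit 28), (nb (nat_lit 1) (nat_lit 321024) (nb (nat_lit 0x20000000000000005)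 (nat_lit 307648) (nb (nat_lit 0x60000000000000008) (nat_lit 294272) (nb (nat_lit 0x40000000000000004) (nat_lit 280896) (nb (nat_lit 3) (nat_lit 227392) (nb (nat_lit 0x200000000000000040000000000000008) (nat_lit 214016) (nb (nat_lit 0x600000000000000040000000000000002) (nat_lit 200640) (nb (nat_lit 0x40000000000000004) (nat_lit 187392) (nb (nat_lit 3) (nat_lit 133760) (nb (nat_lit 0x400000000000000020000000000000001) (nat_lit 120384) (nb (nat_lit 0x50000000000000004) (nat_lit 107136) (nb (nat_lit 1) (nat_lit 93632) (nb (nat_lit 1) (nat_lit 40128) (nb (nat_lit 0x20000000000000002) (nat_lit 26880) (nb (nat_lit 1) (nat_lit 13376) (nat_lit 0)))))))))))))))), (nb (nat_lit 1) (nat_lit 321216) (nb (nat_lit 5) (nat_lit 307840) (nb (nat_lit 8) (nat_lit 294464) (nb (nat_lit 4) (nat_lit 281088) (nb (nat_lit 3) (nat_lit 227584) (nb (nat_lit 8) (nat_lit 214208) (nb (nat_lit 2) (nat_lit 200832) (nb (nat_lit 0x20000000000000004) (nat_lit 187264) (nb (nat_lit 3) (nat_lit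 133952) (nb (nat_lit 1) (nat_lit 120576) (nb (nat_lit 0x20000000000000005) (nat_lit 107008) (nb (nat_lit 0x10000000000000002) (nat_lit 93760) (nb (nat_lit 1) (nat_lit 40320) (nb (nat_lit 2) (nat_lit 26752) (nb (nat_lit 0x10000000000000002) (nat_lit 13504) (nat_lit 0))))))))))))))))⟩, ⟨(nat_lit 20), (nat_lit 26), (nb (nat_lit 0x2000000000000000200000000000000040000000000000001) (nat_lit 187264) (nb (nat_lit 0x2000000000000000200000000000000040000000000000001) (nat_lit 107008) (nb (nat_lit 0x100000000000000010000000000000002) (nat_lit 26816) (nb (nat_lit 1) (nat_lit 13376) (nb (nat_lit 1) (nat_lit 128) (nat_lit 0)))))), (nb (nat_lit 0x1000000000000000100000000000000010000000000000001) (nat_lit 321024) (nb (nat_lit 0x3000000000000000500000000000000040000000000000004) (nat_lit 307648) (nb (nat_lit 0x2000000000000000800000000000000060000000000000005) (nat_lit 294272) (nb (nat_lit 0x400000000000000040000000000000002) (nat_lit 280896) (nb (nat_lit 0x3000000000000000300000000000000030000000000000003)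 (nat_lit 227392) (nb (nat_lit 0x5000000000000000900000000000000060000000000000008) (nat_lit 214016) (nb (nat_lit 0x500000000000000010000000000000005) (nat_lit 200640) (nb (nat_lit 0x3000000000000000300000000000000030000000000000003) (nat_lit 133760) (nb (nat_lit 0x1000000000000000300000000000000000000000000000004) (nat_lit 120384) (nb (nat_lit 0x100000000000000020000000000000001) (nat_lit 93696) (nb (nat_lit 0x1000000000000000100000000000000010000000000000001) (nat_lit 40128) (nb (nat_lit 0x10000000000000001) (nat_lit 13440) (nat_lit 0)))))))))))))⟩]⟩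
def e560 : En := ⟨(nat_lit 62), (nat_lit 65809), (nat_lit 1024), (nat_lit 343000), [⟨(nat_lit 0), (nat_lit 40), (nb (nat_lit 1) (nat_lit 321024) (nb (nat_lit 0x100000000000000010000000000000004) (nat_lit 307648) (nb (nat_lit 0x400000000000000040000000000000005) (nat_lit 294272) (nb (nat_lit 0x400000000000000040000000000000002) (nat_lit 280896) (nb (nat_lit 3) (nat_lit 227392) (nb (nat_lit 0x300000000000000010000000000000007) (nat_lit 214016) (nb (nat_lit 0x300000000000000000000000000000001) (nat_lit 200640) (nb (nat_lit 3) (nat_lit 133760) (nb (nat_lit 0x1000000000000000300000000000000000000000000000002) (nat_lit 120384) (nb (nat_lit 1) (nat_lit 107200) (nb (nat_lit 0x1000000000000000400000000000000060000000000000004) (nat_lit 93632) (nb (nat_lit 1) (nat_lit 40128) (nb (nat_lit 0x10000000000000001) (nat_lit 26880) (nb (nat_lit 0x20000000000000001) (nat_lit 13376) (nat_lit 0))))))))))))))), (nb (nat_lit 1) (nat_lit 307840) (nb (nat_lit 2) (nat_lit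 294464) (nb (nat_lit 1) (nat_lit 214208) (nb (nat_lit 3) (nat_lit 200704) (nb (nat_lit 0x20000000000000006000000000000000a0000000000000005) (nat_lit 187264) (nb (nat_lit 1) (nat_lit 120448) (nb (nat_lit 0x100000000000000050000000000000003) (nat_lit 107008) (nb (nat_lit 0x10000000000000001) (nat_lit 26752) (nb (nat_lit 1) (nat_lit 13568) (nat_lit 0x100000000000000010000000000000001))))))))))⟩, ⟨(nat_lit 4), (nat_lit 42), (nb (nat_lit 0x1000000000000000100000000000000010000000000000001) (nat_lit 321024) (nb (nat_lit 0x3000000000000000500000000000000040000000000000004) (nat_lit 307648) (nb (nat_lit 0x2000000000000000800000000000000060000000000000005) (nat_lit 294272) (nb (nat_lit 0x400000000000000040000000000000002) (nat_lit 280896) (nb (nat_lit 0x3000000000000000300000000000000030000000000000003) (nat_lit 227392) (nb (nat_lit 0x6000000000000000900000000000000060000000000000007) (nat_lit 214016) (nb (nat_lit 0x4000000000000000500000000000000000000000000000001)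 (nat_lit 200640) (nb (nat_lit 2) (nat_lit 187456) (nb (nat_lit 0x3000000000000000300000000000000030000000000000003) (nat_lit 133760) (nb (nat_lit 0x3000000000000000300000000000000000000000000000002) (nat_lit 120384) (nb (nat_lit 0x30000000000000004) (nat_lit 93632) (nb (nat_lit 0x1000000000000000100000000000000010000000000000001) (nat_lit 40128) (nb (nat_lit 0x10000000000000001) (nat_lit 13376) (nb (nat_lit 0x10000000000000001) (nat_lit 128) (nat_lit 0))))))))))))))), (nb (nat_lit 1) (nat_lit 200704) (nb (nat_lit 0x200000000000000080000000000000005) (nat_lit 187264) (nb (nat_lit 0x400000000000000060000000000000003) (nat_lit 107008) (nb (nat_lit 0x30000000000000002) (nat_lit 93760) (nb (nat_lit 0x100000000000000020000000000000001) (nat_lit 26752) (nb (nat_lit 0x20000000000000001) (nat_lit 13504) (nat_lit 1)))))))⟩, ⟨(nat_lit 6), (nat_lit 52), (nb (nat_lit 1) (nat_lit 214208) (nb (nat_lit 4) (nat_lit 200832) (nb (nat_lit 4) (nat_lit 187456) (nb (nat_lit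 2) (nat_lit 120576) (nb (nat_lit 2) (nat_lit 107200) (nb (nat_lit 0x20000000000000004) (nat_lit 93632) (nb (nat_lit 1) (nat_lit 26944) (nb (nat_lit 2) (nat_lit 13376) (nb (nat_lit 0x10000000000000002) (nat_lit 128) (nat_lit 0)))))))))), (nb (nat_lit 1) (nat_lit 214016) (nb (nat_lit 0x20000000000000004) (nat_lit 200640) (nb (nat_lit 0x40000000000000004) (nat_lit 187264) (nb (nat_lit 2) (nat_lit 120384) (nb (nat_lit 0x200000000000000020000000000000002) (nat_lit 107008) (nb (nat_lit 0x40000000000000004) (nat_lit 93760) (nb (nat_lit 1) (nat_lit 26752) (nb (nat_lit 0x20000000000000002) (nat_lit 13504) (nat_lit 1)))))))))⟩, ⟨(nat_lit 8), (nat_lit 58), (nb (nat_lit 1) (nat_lit 307840) (nb (nat_lit 4) (nat_lit 294464) (nb (nat_lit 4) (nat_lit 281088) (nb (nat_lit 2) (nat_lit 214208) (nb (nat_lit 2) (nat_lit 200832) (nb (nat_lit 0x20000000000000004) (nat_lit 187264) (nb (nat_lit 1) (nat_lit 120576) (nb (nat_lit 2) (nat_lit 107008) (nb (nat_lit 0x10000000000000002)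 (nat_lit 93760) (nat_lit 0)))))))))), (nb (nat_lit 1) (nat_lit 307648) (nb (nat_lit 0x20000000000000004) (nat_lit 294272) (nb (nat_lit 0x40000000000000004) (nat_lit 280896) (nb (nat_lit 2) (nat_lit 214016) (nb (nat_lit 0x200000000000000020000000000000002) (nat_lit 200640) (nb (nat_lit 0x40000000000000004) (nat_lit 187392) (nb (nat_lit 1) (nat_lit 120384) (nb (nat_lit 0x20000000000000002) (nat_lit 107136) (nb (nat_lit 1) (nat_lit 93632) (nat_lit 0))))))))))⟩, ⟨(nat_lit 10), (nat_lit 12), (nb (nat_lit 0x1000000000000000100000000000000010000000000000002) (nat_lit 321024) (nb (nat_lit 0x3000000000000000600000000000000050000000000000007) (nat_lit 307648) (nb (nat_lit 0x4000000000000000c00000000000000080000000000000006) (nat_lit 294272) (nb (nat_lit 0x400000000000000080000000000000004) (nat_lit 280960) (nb (nat_lit 0x4000000000000000300000000000000030000000000000005) (nat_lit 227392) (nb (nat_lit 0xb000000000000000c00000000000000050000000000000008) (nat_lit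 214016) (nb (nat_lit 0xa0000000000000006) (nat_lit 200768) (nb (nat_lit 0x5000000000000000300000000000000030000000000000004) (nat_lit 133760) (nb (nat_lit 0x7000000000000000400000000000000000000000000000001) (nat_lit 120384) (nb (nat_lit 0x400000000000000090000000000000007) (nat_lit 93632) (nb (nat_lit 0x2000000000000000100000000000000010000000000000001) (nat_lit 40128) (nb (nat_lit 0x100000000000000030000000000000001) (nat_lit 13376) (nb (nat_lit 1) (nat_lit 192) (nat_lit 0)))))))))))))), (nb (nat_lit 0xa0000000000000004) (nat_lit 200640) (nb (nat_lit 0x4000000000000000c00000000000000100000000000000006) (nat_lit 187264) (nb (nat_lit 3) (nat_lit 120448) (nb (nat_lit 0x5000000000000000b0000000000000009) (nat_lit 107072) (nb (nat_lit 1) (nat_lit 93824) (nb (nat_lit 0x100000000000000020000000000000003) (nat_lit 26816) (nb (nat_lit 2) (nat_lit 13568) (nat_lit 0x10000000000000002))))))))⟩, ⟨(nat_lit 16), (nat_lit 20), (nb (nat_lit 1) (nat_lit 321024) (nb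 (nat_lit 0x20000000000000005) (nat_lit 307648) (nb (nat_lit 0x60000000000000008) (nat_lit 294272) (nb (nat_lit 0x40000000000000004) (nat_lit 280896) (nb (nat_lit 3) (nat_lit 227392) (nb (nat_lit 0x200000000000000040000000000000008) (nat_lit 214016) (nb (nat_lit 0x600000000000000040000000000000002) (nat_lit 200640) (nb (nat_lit 0x40000000000000004) (nat_lit 187392) (nb (nat_lit 3) (nat_lit 133760) (nb (nat_lit 0x400000000000000020000000000000001) (nat_lit 120384) (nb (nat_lit 0x50000000000000004) (nat_lit 107136) (nb (nat_lit 1) (nat_lit 93632) (nb (nat_lit 1) (nat_lit 40128) (nb (nat_lit 0x20000000000000002) (nat_lit 26880) (nb (nat_lit 1) (nat_lit 13376) (nat_lit 0)))))))))))))))), (nb (nat_lit 1) (nat_lit 321216) (nb (nat_lit 5) (nat_lit 307840) (nb (nat_lit 8) (nat_lit 294464) (nb (nat_lit 4) (nat_lit 281088) (nb (nat_lit 3) (nat_lit 227584) (nb (nat_lit 8) (nat_lit 214208) (nb (nat_lit 2) (nat_lit 200832) (nb (nat_lit 0x20000000000000004) (nat_lit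 187264) (nb (nat_lit 3) (nat_lit 133952) (nb (nat_lit 1) (nat_lit 120576) (nb (nat_lit 0x20000000000000005) (nat_lit 107008) (nb (nat_lit 0x10000000000000002) (nat_lit 93760) (nb (nat_lit 1) (nat_lit 40320) (nb (nat_lit 2) (nat_lit 26752) (nb (nat_lit 0x10000000000000002) (nat_lit 13504) (nat_lit 0))))))))))))))))⟩, ⟨(nat_lit 22), (nat_lit 28), (nb (nat_lit 0x2000000000000000200000000000000040000000000000001) (nat_lit 187264) (nb (nat_lit 0x2000000000000000200000000000000040000000000000001) (nat_lit 107008) (nb (nat_lit 0x100000000000000010000000000000002) (nat_lit 26816) (nb (nat_lit 1) (nat_lit 13376) (nb (nat_lit 1) (nat_lit 128) (nat_lit 0)))))), (nb (nat_lit 0x1000000000000000100000000000000010000000000000001) (nat_lit 321024) (nb (nat_lit 0x3000000000000000500000000000000040000000000000004) (nat_lit 307648) (nb (nat_lit 0x2000000000000000800000000000000060000000000000005) (nat_lit 294272) (nb (nat_lit 0x400000000000000040000000000000002) (nat_lit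 280896) (nb (nat_lit 0x3000000000000000300000000000000030000000000000003) (nat_lit 227392) (nb (nat_lit 0x5000000000000000900000000000000060000000000000008) (nat_lit 214016) (nb (nat_lit 0x500000000000000010000000000000005) (nat_lit 200640) (nb (nat_lit 0x3000000000000000300000000000000030000000000000003) (nat_lit 133760) (nb (nat_lit 0x1000000000000000300000000000000000000000000000004) (nat_lit 120384) (nb (nat_lit 0x100000000000000020000000000000001) (nat_lit 93696) (nb (nat_lit 0x1000000000000000100000000000000010000000000000001) (nat_lit 40128) (nb (nat_lit 0x10000000000000001) (nat_lit 13440) (nat_lit 0)))))))))))))⟩]⟩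
def e561 : En := ⟨(nat_lit 64), (nat_lit 69649), (nat_lit 1024), (nat_lit 343000), [⟨(nat_lit 0), (nat_lit 50), (nb (nat_lit 1) (nat_lit 307840) (nb (nat_lit 4) (nat_lit 294464) (nb (nat_lit 4) (nat_lit 281088) (nb (nat_lit 2) (nat_lit 214208) (nb (nat_lit 2) (nat_lit 200832) (nb (nat_lit 0x20000000000000004) (nat_lit 187264) (nb (nat_lit 1) (nat_lit 120576) (nb (nat_lit 2) (nat_lit 107008) (nb (nat_lit 0x10000000000000002) (nat_lit 93760) (nat_lit 0)))))))))), (nb (nat_lit 1) (nat_lit 307648) (nb (nat_lit 0x20000000000000004) (nat_lit 294272) (nb (nat_lit 0x40000000000000004) (nat_lit 280896) (nb (nat_lit 2) (nat_lit 214016) (nb (nat_lit 0x200000000000000020000000000000002) (nat_lit 200640) (nb (nat_lit 0x40000000000000004) (nat_lit 187392) (nb (nat_lit 1) (nat_lit 120384) (nb (nat_lit 0x20000000000000002) (nat_lit 107136) (nb (nat_lit 1) (nat_lit 93632) (nat_lit 0))))))))))⟩, ⟨(nat_lit 2), (nat_lit 42), (nb (nat_lit 1) (nat_lit 321024) (nb (nat_lit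 0x100000000000000010000000000000004) (nat_lit 307648) (nb (nat_lit 0x400000000000000040000000000000005) (nat_lit 294272) (nb (nat_lit 0x400000000000000040000000000000002) (nat_lit 280896) (nb (nat_lit 3) (nat_lit 227392) (nb (nat_lit 0x300000000000000010000000000000007) (nat_lit 214016) (nb (nat_lit 0x300000000000000000000000000000001) (nat_lit 200640) (nb (nat_lit 3) (nat_lit 133760) (nb (nat_lit 0x1000000000000000300000000000000000000000000000002) (nat_lit 120384) (nb (nat_lit 1) (nat_lit 107200) (nb (nat_lit 0x1000000000000000400000000000000060000000000000004) (nat_lit 93632) (nb (nat_lit 1) (nat_lit 40128) (nb (nat_lit 0x10000000000000001) (nat_lit 26880) (nb (nat_lit 0x20000000000000001) (nat_lit 13376) (nat_lit 0))))))))))))))), (nb (nat_lit 1) (nat_lit 307840) (nb (nat_lit 2) (nat_lit 294464) (nb (nat_lit 1) (nat_lit 214208) (nb (nat_lit 3) (nat_lit 200704) (nb (nat_lit 0x20000000000000006000000000000000a0000000000000005) (nat_lit 187264) (nb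 (nat_lit 1) (nat_lit 120448) (nb (nat_lit 0x100000000000000050000000000000003) (nat_lit 107008) (nb (nat_lit 0x10000000000000001) (nat_lit 26752) (nb (nat_lit 1) (nat_lit 13568) (nat_lit 0x100000000000000010000000000000001))))))))))⟩, ⟨(nat_lit 6), (nat_lit 44), (nb (nat_lit 0x1000000000000000100000000000000010000000000000001) (nat_lit 321024) (nb (nat_lit 0x3000000000000000500000000000000040000000000000004) (nat_lit 307648) (nb (nat_lit 0x2000000000000000800000000000000060000000000000005) (nat_lit 294272) (nb (nat_lit 0x400000000000000040000000000000002) (nat_lit 280896) (nb (nat_lit 0x3000000000000000300000000000000030000000000000003) (nat_lit 227392) (nb (nat_lit 0x6000000000000000900000000000000060000000000000007) (nat_lit 214016) (nb (nat_lit 0x4000000000000000500000000000000000000000000000001) (nat_lit 200640) (nb (nat_lit 2) (nat_lit 187456) (nb (nat_lit 0x3000000000000000300000000000000030000000000000003) (nat_lit 133760) (nb (nat_lit 0x3000000000000000300000000000000000000000000000002)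 (nat_lit 120384) (nb (nat_lit 0x30000000000000004) (nat_lit 93632) (nb (nat_lit 0x1000000000000000100000000000000010000000000000001) (nat_lit 40128) (nb (nat_lit 0x10000000000000001) (nat_lit 13376) (nb (nat_lit 0x10000000000000001) (nat_lit 128) (nat_lit 0))))))))))))))), (nb (nat_lit 1) (nat_lit 200704) (nb (nat_lit 0x200000000000000080000000000000005) (nat_lit 187264) (nb (nat_lit 0x400000000000000060000000000000003) (nat_lit 107008) (nb (nat_lit 0x30000000000000002) (nat_lit 93760) (nb (nat_lit 0x100000000000000020000000000000001) (nat_lit 26752) (nb (nat_lit 0x20000000000000001) (nat_lit 13504) (nat_lit 1)))))))⟩, ⟨(nat_lit 8), (nat_lit 54), (nb (nat_lit 1) (nat_lit 214208) (nb (nat_lit 4) (nat_lit 200832) (nb (nat_lit 4) (nat_lit 187456) (nb (nat_lit 2) (nat_lit 120576) (nb (nat_lit 2) (nat_lit 107200) (nb (nat_lit 0x20000000000000004) (nat_lit 93632) (nb (nat_lit 1) (nat_lit 26944) (nb (nat_lit 2) (nat_lit 13376) (nb (nat_lit 0x10000000000000002)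 (nat_lit 128) (nat_lit 0)))))))))), (nb (nat_lit 1) (nat_lit 214016) (nb (nat_lit 0x20000000000000004) (nat_lit 200640) (nb (nat_lit 0x40000000000000004) (nat_lit 187264) (nb (nat_lit 2) (nat_lit 120384) (nb (nat_lit 0x200000000000000020000000000000002) (nat_lit 107008) (nb (nat_lit 0x40000000000000004) (nat_lit 93760) (nb (nat_lit 1) (nat_lit 26752) (nb (nat_lit 0x20000000000000002) (nat_lit 13504) (nat_lit 1)))))))))⟩, ⟨(nat_lit 12), (nat_lit 14), (nb (nat_lit 0x1000000000000000100000000000000010000000000000002) (nat_lit 321024) (nb (nat_lit 0x3000000000000000600000000000000050000000000000007) (nat_lit 307648) (nb (nat_lit 0x4000000000000000c00000000000000080000000000000006) (nat_lit 294272) (nb (nat_lit 0x400000000000000080000000000000004) (nat_lit 280960) (nb (nat_lit 0x4000000000000000300000000000000030000000000000005) (nat_lit 227392) (nb (nat_lit 0xb000000000000000c00000000000000050000000000000008) (nat_lit 214016) (nb (nat_lit 0xa0000000000000006)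 (nat_lit 200768) (nb (nat_lit 0x5000000000000000300000000000000030000000000000004) (nat_lit 133760) (nb (nat_lit 0x7000000000000000400000000000000000000000000000001) (nat_lit 120384) (nb (nat_lit 0x400000000000000090000000000000007) (nat_lit 93632) (nb (nat_lit 0x2000000000000000100000000000000010000000000000001) (nat_lit 40128) (nb (nat_lit 0x100000000000000030000000000000001) (nat_lit 13376) (nb (nat_lit 1) (nat_lit 192) (nat_lit 0)))))))))))))), (nb (nat_lit 0xa0000000000000004) (nat_lit 200640) (nb (nat_lit 0x4000000000000000c00000000000000100000000000000006) (nat_lit 187264) (nb (nat_lit 3) (nat_lit 120448) (nb (nat_lit 0x5000000000000000b0000000000000009) (nat_lit 107072) (nb (nat_lit 1) (nat_lit 93824) (nb (nat_lit 0x100000000000000020000000000000003) (nat_lit 26816) (nb (nat_lit 2) (nat_lit 13568) (nat_lit 0x10000000000000002))))))))⟩, ⟨(nat_lit 18), (nat_lit 22), (nb (nat_lit 1) (nat_lit 321024) (nb (nat_lit 0x20000000000000005) (nat_lit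 307648) (nb (nat_lit 0x60000000000000008) (nat_lit 294272) (nb (nat_lit 0x40000000000000004) (nat_lit 280896) (nb (nat_lit 3) (nat_lit 227392) (nb (nat_lit 0x200000000000000040000000000000008) (nat_lit 214016) (nb (nat_lit 0x600000000000000040000000000000002) (nat_lit 200640) (nb (nat_lit 0x40000000000000004) (nat_lit 187392) (nb (nat_lit 3) (nat_lit 133760) (nb (nat_lit 0x400000000000000020000000000000001) (nat_lit 120384) (nb (nat_lit 0x50000000000000004) (nat_lit 107136) (nb (nat_lit 1) (nat_lit 93632) (nb (nat_lit 1) (nat_lit 40128) (nb (nat_lit 0x20000000000000002) (nat_lit 26880) (nb (nat_lit 1) (nat_lit 13376) (nat_lit 0)))))))))))))))), (nb (nat_lit 1) (nat_lit 321216) (nb (nat_lit 5) (nat_lit 307840) (nb (nat_lit 8) (nat_lit 294464) (nb (nat_lit 4) (nat_lit 281088) (nb (nat_lit 3) (nat_lit 227584) (nb (nat_lit 8) (nat_lit 214208) (nb (nat_lit 2) (nat_lit 200832) (nb (nat_lit 0x20000000000000004) (nat_lit 187264) (nb (nat_lit 3) (nat_lit 133952)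 (nb (nat_lit 1) (nat_lit 120576) (nb (nat_lit 0x20000000000000005) (nat_lit 107008) (nb (nat_lit 0x10000000000000002) (nat_lit 93760) (nb (nat_lit 1) (nat_lit 40320) (nb (nat_lit 2) (nat_lit 26752) (nb (nat_lit 0x10000000000000002) (nat_lit 13504) (nat_lit 0))))))))))))))))⟩, ⟨(nat_lit 20), (nat_lit 24), (nb (nat_lit 0x1000000000000000100000000000000010000000000000001) (nat_lit 321024) (nb (nat_lit 0x3000000000000000500000000000000040000000000000004) (nat_lit 307648) (nb (nat_lit 0x2000000000000000800000000000000060000000000000005) (nat_lit 294272) (nb (nat_lit 0x400000000000000040000000000000002) (nat_lit 280896) (nb (nat_lit 0x3000000000000000300000000000000030000000000000003) (nat_lit 227392) (nb (nat_lit 0x5000000000000000900000000000000060000000000000008) (nat_lit 214016) (nb (nat_lit 0x500000000000000010000000000000005) (nat_lit 200640) (nb (nat_lit 0x3000000000000000300000000000000030000000000000003) (nat_lit 133760) (nb (nat_lit 0x1000000000000000300000000000000000000000000000004)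 (nat_lit 120384) (nb (nat_lit 0x100000000000000020000000000000001) (nat_lit 93696) (nb (nat_lit 0x1000000000000000100000000000000010000000000000001) (nat_lit 40128) (nb (nat_lit 0x10000000000000001) (nat_lit 13440) (nat_lit 0))))))))))))), (nb (nat_lit 0x2000000000000000200000000000000040000000000000001) (nat_lit 187264) (nb (nat_lit 0x2000000000000000200000000000000040000000000000001) (nat_lit 107008) (nb (nat_lit 0x100000000000000010000000000000002) (nat_lit 26816) (nb (nat_lit 1) (nat_lit 13376) (nb (nat_lit 1) (nat_lit 128) (nat_lit 0))))))⟩]⟩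
def e562 : En := ⟨(nat_lit 66), (nat_lit 69889), (nat_lit 1024), (nat_lit 343000), [⟨(nat_lit 0), (nat_lit 56), (nb (nat_lit 1) (nat_lit 214208) (nb (nat_lit 4) (nat_lit 200832) (nb (nat_lit 4) (nat_lit 187456) (nb (nat_lit 2) (nat_lit 120576) (nb (nat_lit 2) (nat_lit 107200) (nb (nat_lit 0x20000000000000004) (nat_lit 93632) (nb (nat_lit 1) (nat_lit 26944) (nb (nat_lit 2) (nat_lit 13376) (nb (nat_lit 0x10000000000000002) (nat_lit 128) (nat_lit 0)))))))))), (nb (nat_lit 1) (nat_lit 214016) (nb (nat_lit 0x20000000000000004) (nat_lit 200640) (nb (nat_lit 0x40000000000000004) (nat_lit 187264) (nb (nat_lit 2) (nat_lit 120384) (nb (nat_lit 0x200000000000000020000000000000002) (nat_lit 107008) (nb (nat_lit 0x40000000000000004) (nat_lit 93760) (nb (nat_lit 1) (nat_lit 26752) (nb (nat_lit 0x20000000000000002) (nat_lit 13504) (nat_lit 1)))))))))⟩, ⟨(nat_lit 2), (nat_lit 52), (nb (nat_lit 1) (nat_lit 307840) (nb (nat_lit 4) (nat_lit 294464) (nb (nat_lit 4) (nat_lit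 281088) (nb (nat_lit 2) (nat_lit 214208) (nb (nat_lit 2) (nat_lit 200832) (nb (nat_lit 0x20000000000000004) (nat_lit 187264) (nb (nat_lit 1) (nat_lit 120576) (nb (nat_lit 2) (nat_lit 107008) (nb (nat_lit 0x10000000000000002) (nat_lit 93760) (nat_lit 0)))))))))), (nb (nat_lit 1) (nat_lit 307648) (nb (nat_lit 0x20000000000000004) (nat_lit 294272) (nb (nat_lit 0x40000000000000004) (nat_lit 280896) (nb (nat_lit 2) (nat_lit 214016) (nb (nat_lit 0x200000000000000020000000000000002) (nat_lit 200640) (nb (nat_lit 0x40000000000000004) (nat_lit 187392) (nb (nat_lit 1) (nat_lit 120384) (nb (nat_lit 0x20000000000000002) (nat_lit 107136) (nb (nat_lit 1) (nat_lit 93632) (nat_lit 0))))))))))⟩, ⟨(nat_lit 4), (nat_lit 44), (nb (nat_lit 1) (nat_lit 321024) (nb (nat_lit 0x100000000000000010000000000000004) (nat_lit 307648) (nb (nat_lit 0x400000000000000040000000000000005) (nat_lit 294272) (nb (nat_lit 0x400000000000000040000000000000002) (nat_lit 280896) (nb (nat_lit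 3) (nat_lit 227392) (nb (nat_lit 0x300000000000000010000000000000007) (nat_lit 214016) (nb (nat_lit 0x300000000000000000000000000000001) (nat_lit 200640) (nb (nat_lit 3) (nat_lit 133760) (nb (nat_lit 0x1000000000000000300000000000000000000000000000002) (nat_lit 120384) (nb (nat_lit 1) (nat_lit 107200) (nb (nat_lit 0x1000000000000000400000000000000060000000000000004) (nat_lit 93632) (nb (nat_lit 1) (nat_lit 40128) (nb (nat_lit 0x10000000000000001) (nat_lit 26880) (nb (nat_lit 0x20000000000000001) (nat_lit 13376) (nat_lit 0))))))))))))))), (nb (nat_lit 1) (nat_lit 307840) (nb (nat_lit 2) (nat_lit 294464) (nb (nat_lit 1) (nat_lit 214208) (nb (nat_lit 3) (nat_lit 200704) (nb (nat_lit 0x20000000000000006000000000000000a0000000000000005) (nat_lit 187264) (nb (nat_lit 1) (nat_lit 120448) (nb (nat_lit 0x100000000000000050000000000000003) (nat_lit 107008) (nb (nat_lit 0x10000000000000001) (nat_lit 26752) (nb (nat_lit 1) (nat_lit 13568) (nat_lit 0x100000000000000010000000000000001))))))))))⟩,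 ⟨(nat_lit 8), (nat_lit 46), (nb (nat_lit 0x1000000000000000100000000000000010000000000000001) (nat_lit 321024) (nb (nat_lit 0x3000000000000000500000000000000040000000000000004) (nat_lit 307648) (nb (nat_lit 0x2000000000000000800000000000000060000000000000005) (nat_lit 294272) (nb (nat_lit 0x400000000000000040000000000000002) (nat_lit 280896) (nb (nat_lit 0x3000000000000000300000000000000030000000000000003) (nat_lit 227392) (nb (nat_lit 0x6000000000000000900000000000000060000000000000007) (nat_lit 214016) (nb (nat_lit 0x4000000000000000500000000000000000000000000000001) (nat_lit 200640) (nb (nat_lit 2) (nat_lit 187456) (nb (nat_lit 0x3000000000000000300000000000000030000000000000003) (nat_lit 133760) (nb (nat_lit 0x3000000000000000300000000000000000000000000000002) (nat_lit 120384) (nb (nat_lit 0x30000000000000004) (nat_lit 93632) (nb (nat_lit 0x1000000000000000100000000000000010000000000000001) (nat_lit 40128) (nb (nat_lit 0x10000000000000001) (nat_lit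 13376) (nb (nat_lit 0x10000000000000001) (nat_lit 128) (nat_lit 0))))))))))))))), (nb (nat_lit 1) (nat_lit 200704) (nb (nat_lit 0x200000000000000080000000000000005) (nat_lit 187264) (nb (nat_lit 0x400000000000000060000000000000003) (nat_lit 107008) (nb (nat_lit 0x30000000000000002) (nat_lit 93760) (nb (nat_lit 0x100000000000000020000000000000001) (nat_lit 26752) (nb (nat_lit 0x20000000000000001) (nat_lit 13504) (nat_lit 1)))))))⟩, ⟨(nat_lit 10), (nat_lit 24), (nb (nat_lit 1) (nat_lit 321024) (nb (nat_lit 0x20000000000000005) (nat_lit 307648) (nb (nat_lit 0x60000000000000008) (nat_lit 294272) (nb (nat_lit 0x40000000000000004) (nat_lit 280896) (nb (nat_lit 3) (nat_lit 227392) (nb (nat_lit 0x200000000000000040000000000000008) (nat_lit 214016) (nb (nat_lit 0x600000000000000040000000000000002) (nat_lit 200640) (nb (nat_lit 0x40000000000000004) (nat_lit 187392) (nb (nat_lit 3) (nat_lit 133760) (nb (nat_lit 0x400000000000000020000000000000001) (nat_lit 120384)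 (nb (nat_lit 0x50000000000000004) (nat_lit 107136) (nb (nat_lit 1) (nat_lit 93632) (nb (nat_lit 1) (nat_lit 40128) (nb (nat_lit 0x20000000000000002) (nat_lit 26880) (nb (nat_lit 1) (nat_lit 13376) (nat_lit 0)))))))))))))))), (nb (nat_lit 1) (nat_lit 321216) (nb (nat_lit 5) (nat_lit 307840) (nb (nat_lit 8) (nat_lit 294464) (nb (nat_lit 4) (nat_lit 281088) (nb (nat_lit 3) (nat_lit 227584) (nb (nat_lit 8) (nat_lit 214208) (nb (nat_lit 2) (nat_lit 200832) (nb (nat_lit 0x20000000000000004) (nat_lit 187264) (nb (nat_lit 3) (nat_lit 133952) (nb (nat_lit 1) (nat_lit 120576) (nb (nat_lit 0x20000000000000005) (nat_lit 107008) (nb (nat_lit 0x10000000000000002) (nat_lit 93760) (nb (nat_lit 1) (nat_lit 40320) (nb (nat_lit 2) (nat_lit 26752) (nb (nat_lit 0x10000000000000002) (nat_lit 13504) (nat_lit 0))))))))))))))))⟩, ⟨(nat_lit 14), (nat_lit 16), (nb (nat_lit 0x1000000000000000100000000000000010000000000000002) (nat_lit 321024) (nb (nat_lit 0x3000000000000000600000000000000050000000000000007)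 (nat_lit 307648) (nb (nat_lit 0x4000000000000000c00000000000000080000000000000006) (nat_lit 294272) (nb (nat_lit 0x400000000000000080000000000000004) (nat_lit 280960) (nb (nat_lit 0x4000000000000000300000000000000030000000000000005) (nat_lit 227392) (nb (nat_lit 0xb000000000000000c00000000000000050000000000000008) (nat_lit 214016) (nb (nat_lit 0xa0000000000000006) (nat_lit 200768) (nb (nat_lit 0x5000000000000000300000000000000030000000000000004) (nat_lit 133760) (nb (nat_lit 0x7000000000000000400000000000000000000000000000001) (nat_lit 120384) (nb (nat_lit 0x400000000000000090000000000000007) (nat_lit 93632) (nb (nat_lit 0x2000000000000000100000000000000010000000000000001) (nat_lit 40128) (nb (nat_lit 0x100000000000000030000000000000001) (nat_lit 13376) (nb (nat_lit 1) (nat_lit 192) (nat_lit 0)))))))))))))), (nb (nat_lit 0xa0000000000000004) (nat_lit 200640) (nb (nat_lit 0x4000000000000000c00000000000000100000000000000006) (nat_lit 187264) (nb (nat_lit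 3) (nat_lit 120448) (nb (nat_lit 0x5000000000000000b0000000000000009) (nat_lit 107072) (nb (nat_lit 1) (nat_lit 93824) (nb (nat_lit 0x100000000000000020000000000000003) (nat_lit 26816) (nb (nat_lit 2) (nat_lit 13568) (nat_lit 0x10000000000000002))))))))⟩, ⟨(nat_lit 22), (nat_lit 26), (nb (nat_lit 0x1000000000000000100000000000000010000000000000001) (nat_lit 321024) (nb (nat_lit 0x3000000000000000500000000000000040000000000000004) (nat_lit 307648) (nb (nat_lit 0x2000000000000000800000000000000060000000000000005) (nat_lit 294272) (nb (nat_lit 0x400000000000000040000000000000002) (nat_lit 280896) (nb (nat_lit 0x3000000000000000300000000000000030000000000000003) (nat_lit 227392) (nb (nat_lit 0x5000000000000000900000000000000060000000000000008) (nat_lit 214016) (nb (nat_lit 0x500000000000000010000000000000005) (nat_lit 200640) (nb (nat_lit 0x3000000000000000300000000000000030000000000000003) (nat_lit 133760) (nb (nat_lit 0x1000000000000000300000000000000000000000000000004)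 (nat_lit 120384) (nb (nat_lit 0x100000000000000020000000000000001) (nat_lit 93696) (nb (nat_lit 0x1000000000000000100000000000000010000000000000001) (nat_lit 40128) (nb (nat_lit 0x10000000000000001) (nat_lit 13440) (nat_lit 0))))))))))))), (nb (nat_lit 0x2000000000000000200000000000000040000000000000001) (nat_lit 187264) (nb (nat_lit 0x2000000000000000200000000000000040000000000000001) (nat_lit 107008) (nb (nat_lit 0x100000000000000010000000000000002) (nat_lit 26816) (nb (nat_lit 1) (nat_lit 13376) (nb (nat_lit 1) (nat_lit 128) (nat_lit 0))))))⟩]⟩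
def e563 : En := ⟨(nat_lit 68), (nat_lit 69904), (nat_lit 1024), (nat_lit 343000), [⟨(nat_lit 0), (nat_lit 48), (nb (nat_lit 0x1000000000000000100000000000000010000000000000001) (nat_lit 321024) (nb (nat_lit 0x3000000000000000500000000000000040000000000000004) (nat_lit 307648) (nb (nat_lit 0x2000000000000000800000000000000060000000000000005) (nat_lit 294272) (nb (nat_lit 0x400000000000000040000000000000002) (nat_lit 280896) (nb (nat_lit 0x3000000000000000300000000000000030000000000000003) (nat_lit 227392) (nb (nat_lit 0x6000000000000000900000000000000060000000000000007) (nat_lit 214016) (nb (nat_lit 0x4000000000000000500000000000000000000000000000001) (nat_lit 200640) (nb (nat_lit 2) (nat_lit 187456) (nb (nat_lit 0x3000000000000000300000000000000030000000000000003) (nat_lit 133760) (nb (nat_lit 0x3000000000000000300000000000000000000000000000002) (nat_lit 120384) (nb (nat_lit 0x30000000000000004) (nat_lit 93632) (nb (nat_lit 0x1000000000000000100000000000000010000000000000001)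 (nat_lit 40128) (nb (nat_lit 0x10000000000000001) (nat_lit 13376) (nb (nat_lit 0x10000000000000001) (nat_lit 128) (nat_lit 0))))))))))))))), (nb (nat_lit 1) (nat_lit 200704) (nb (nat_lit 0x200000000000000080000000000000005) (nat_lit 187264) (nb (nat_lit 0x400000000000000060000000000000003) (nat_lit 107008) (nb (nat_lit 0x30000000000000002) (nat_lit 93760) (nb (nat_lit 0x100000000000000020000000000000001) (nat_lit 26752) (nb (nat_lit 0x20000000000000001) (nat_lit 13504) (nat_lit 1)))))))⟩, ⟨(nat_lit 2), (nat_lit 58), (nb (nat_lit 1) (nat_lit 214208) (nb (nat_lit 4) (nat_lit 200832) (nb (nat_lit 4) (nat_lit 187456) (nb (nat_lit 2) (nat_lit 120576) (nb (nat_lit 2) (nat_lit 107200) (nb (nat_lit 0x20000000000000004) (nat_lit 93632) (nb (nat_lit 1) (nat_lit 26944) (nb (nat_lit 2) (nat_lit 13376) (nb (nat_lit 0x10000000000000002) (nat_lit 128) (nat_lit 0)))))))))), (nb (nat_lit 1) (nat_lit 214016) (nb (nat_lit 0x20000000000000004) (nat_lit 200640) (nb (nat_lit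 0x40000000000000004) (nat_lit 187264) (nb (nat_lit 2) (nat_lit 120384) (nb (nat_lit 0x200000000000000020000000000000002) (nat_lit 107008) (nb (nat_lit 0x40000000000000004) (nat_lit 93760) (nb (nat_lit 1) (nat_lit 26752) (nb (nat_lit 0x20000000000000002) (nat_lit 13504) (nat_lit 1)))))))))⟩, ⟨(nat_lit 4), (nat_lit 54), (nb (nat_lit 1) (nat_lit 307840) (nb (nat_lit 4) (nat_lit 294464) (nb (nat_lit 4) (nat_lit 281088) (nb (nat_lit 2) (nat_lit 214208) (nb (nat_lit 2) (nat_lit 200832) (nb (nat_lit 0x20000000000000004) (nat_lit 187264) (nb (nat_lit 1) (nat_lit 120576) (nb (nat_lit 2) (nat_lit 107008) (nb (nat_lit 0x10000000000000002) (nat_lit 93760) (nat_lit 0)))))))))), (nb (nat_lit 1) (nat_lit 307648) (nb (nat_lit 0x20000000000000004) (nat_lit 294272) (nb (nat_lit 0x40000000000000004) (nat_lit 280896) (nb (nat_lit 2) (nat_lit 214016) (nb (nat_lit 0x200000000000000020000000000000002) (nat_lit 200640) (nb (nat_lit 0x40000000000000004) (nat_lit 187392) (nb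 (nat_lit 1) (nat_lit 120384) (nb (nat_lit 0x20000000000000002) (nat_lit 107136) (nb (nat_lit 1) (nat_lit 93632) (nat_lit 0))))))))))⟩, ⟨(nat_lit 6), (nat_lit 46), (nb (nat_lit 1) (nat_lit 321024) (nb (nat_lit 0x100000000000000010000000000000004) (nat_lit 307648) (nb (nat_lit 0x400000000000000040000000000000005) (nat_lit 294272) (nb (nat_lit 0x400000000000000040000000000000002) (nat_lit 280896) (nb (nat_lit 3) (nat_lit 227392) (nb (nat_lit 0x300000000000000010000000000000007) (nat_lit 214016) (nb (nat_lit 0x300000000000000000000000000000001) (nat_lit 200640) (nb (nat_lit 3) (nat_lit 133760) (nb (nat_lit 0x1000000000000000300000000000000000000000000000002) (nat_lit 120384) (nb (nat_lit 1) (nat_lit 107200) (nb (nat_lit 0x1000000000000000400000000000000060000000000000004) (nat_lit 93632) (nb (nat_lit 1) (nat_lit 40128) (nb (nat_lit 0x10000000000000001) (nat_lit 26880) (nb (nat_lit 0x20000000000000001) (nat_lit 13376) (nat_lit 0))))))))))))))), (nb (nat_lit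 1) (nat_lit 307840) (nb (nat_lit 2) (nat_lit 294464) (nb (nat_lit 1) (nat_lit 214208) (nb (nat_lit 3) (nat_lit 200704) (nb (nat_lit 0x20000000000000006000000000000000a0000000000000005) (nat_lit 187264) (nb (nat_lit 1) (nat_lit 120448) (nb (nat_lit 0x100000000000000050000000000000003) (nat_lit 107008) (nb (nat_lit 0x10000000000000001) (nat_lit 26752) (nb (nat_lit 1) (nat_lit 13568) (nat_lit 0x100000000000000010000000000000001))))))))))⟩, ⟨(nat_lit 12), (nat_lit 26), (nb (nat_lit 1) (nat_lit 321024) (nb (nat_lit 0x20000000000000005) (nat_lit 307648) (nb (nat_lit 0x60000000000000008) (nat_lit 294272) (nb (nat_lit 0x40000000000000004) (nat_lit 280896) (nb (nat_lit 3) (nat_lit 227392) (nb (nat_lit 0x200000000000000040000000000000008) (nat_lit 214016) (nb (nat_lit 0x600000000000000040000000000000002) (nat_lit 200640) (nb (nat_lit 0x40000000000000004) (nat_lit 187392) (nb (nat_lit 3) (nat_lit 133760) (nb (nat_lit 0x400000000000000020000000000000001) (nat_lit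 120384) (nb (nat_lit 0x50000000000000004) (nat_lit 107136) (nb (nat_lit 1) (nat_lit 93632) (nb (nat_lit 1) (nat_lit 40128) (nb (nat_lit 0x20000000000000002) (nat_lit 26880) (nb (nat_lit 1) (nat_lit 13376) (nat_lit 0)))))))))))))))), (nb (nat_lit 1) (nat_lit 321216) (nb (nat_lit 5) (nat_lit 307840) (nb (nat_lit 8) (nat_lit 294464) (nb (nat_lit 4) (nat_lit 281088) (nb (nat_lit 3) (nat_lit 227584) (nb (nat_lit 8) (nat_lit 214208) (nb (nat_lit 2) (nat_lit 200832) (nb (nat_lit 0x20000000000000004) (nat_lit 187264) (nb (nat_lit 3) (nat_lit 133952) (nb (nat_lit 1) (nat_lit 120576) (nb (nat_lit 0x20000000000000005) (nat_lit 107008) (nb (nat_lit 0x10000000000000002) (nat_lit 93760) (nb (nat_lit 1) (nat_lit 40320) (nb (nat_lit 2) (nat_lit 26752) (nb (nat_lit 0x10000000000000002) (nat_lit 13504) (nat_lit 0))))))))))))))))⟩, ⟨(nat_lit 16), (nat_lit 18), (nb (nat_lit 0x1000000000000000100000000000000010000000000000002) (nat_lit 321024) (nb (nat_lit 0x3000000000000000600000000000000050000000000000007)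 (nat_lit 307648) (nb (nat_lit 0x4000000000000000c00000000000000080000000000000006) (nat_lit 294272) (nb (nat_lit 0x400000000000000080000000000000004) (nat_lit 280960) (nb (nat_lit 0x4000000000000000300000000000000030000000000000005) (nat_lit 227392) (nb (nat_lit 0xb000000000000000c00000000000000050000000000000008) (nat_lit 214016) (nb (nat_lit 0xa0000000000000006) (nat_lit 200768) (nb (nat_lit 0x5000000000000000300000000000000030000000000000004) (nat_lit 133760) (nb (nat_lit 0x7000000000000000400000000000000000000000000000001) (nat_lit 120384) (nb (nat_lit 0x400000000000000090000000000000007) (nat_lit 93632) (nb (nat_lit 0x2000000000000000100000000000000010000000000000001) (nat_lit 40128) (nb (nat_lit 0x100000000000000030000000000000001) (nat_lit 13376) (nb (nat_lit 1) (nat_lit 192) (nat_lit 0)))))))))))))), (nb (nat_lit 0xa0000000000000004) (nat_lit 200640) (nb (nat_lit 0x4000000000000000c00000000000000100000000000000006) (nat_lit 187264) (nb (nat_lit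 3) (nat_lit 120448) (nb (nat_lit 0x5000000000000000b0000000000000009) (nat_lit 107072) (nb (nat_lit 1) (nat_lit 93824) (nb (nat_lit 0x100000000000000020000000000000003) (nat_lit 26816) (nb (nat_lit 2) (nat_lit 13568) (nat_lit 0x10000000000000002))))))))⟩, ⟨(nat_lit 24), (nat_lit 28), (nb (nat_lit 0x1000000000000000100000000000000010000000000000001) (nat_lit 321024) (nb (nat_lit 0x3000000000000000500000000000000040000000000000004) (nat_lit 307648) (nb (nat_lit 0x2000000000000000800000000000000060000000000000005) (nat_lit 294272) (nb (nat_lit 0x400000000000000040000000000000002) (nat_lit 280896) (nb (nat_lit 0x3000000000000000300000000000000030000000000000003) (nat_lit 227392) (nb (nat_lit 0x5000000000000000900000000000000060000000000000008) (nat_lit 214016) (nb (nat_lit 0x500000000000000010000000000000005) (nat_lit 200640) (nb (nat_lit 0x3000000000000000300000000000000030000000000000003) (nat_lit 133760) (nb (nat_lit 0x1000000000000000300000000000000000000000000000004)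 (nat_lit 120384) (nb (nat_lit 0x100000000000000020000000000000001) (nat_lit 93696) (nb (nat_lit 0x1000000000000000100000000000000010000000000000001) (nat_lit 40128) (nb (nat_lit 0x10000000000000001) (nat_lit 13440) (nat_lit 0))))))))))))), (nb (nat_lit 0x2000000000000000200000000000000040000000000000001) (nat_lit 187264) (nb (nat_lit 0x2000000000000000200000000000000040000000000000001) (nat_lit 107008) (nb (nat_lit 0x100000000000000010000000000000002) (nat_lit 26816) (nb (nat_lit 1) (nat_lit 13376) (nb (nat_lit 1) (nat_lit 128) (nat_lit 0))))))⟩]⟩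
def e564 : En := ⟨(nat_lit 40), (nat_lit 273), (nat_lit 170), (nat_lit 9800), [⟨(nat_lit 4), (nat_lit 20), (nb (nat_lit 1) (nat_lit 214016) (nb (nat_lit 2) (nat_lit 200640) (nb (nat_lit 0x10000000000000001) (nat_lit 187264) (nb (nat_lit 2) (nat_lit 120384) (nb (nat_lit 0x200000000000000000000000000000002) (nat_lit 107008) (nb (nat_lit 0x20000000000000002) (nat_lit 93760) (nb (nat_lit 1) (nat_lit 26752) (nb (nat_lit 0x20000000000000002) (nat_lit 13504) (nat_lit 1))))))))), (nb (nat_lit 2) (nat_lit 200832) (nb (nat_lit 2) (nat_lit 187456) (nb (nat_lit 0x20000000000000002) (nat_lit 93632) (nb (nat_lit 0x10000000000000001) (nat_lit 128) (nat_lit 0)))))⟩, ⟨(nat_lit 6), (nat_lit 10), (nb (nat_lit 0x1000000000000000100000000000000010000000000000002) (nat_lit 214016) (nb (nat_lit 0x400000000000000030000000000000004) (nat_lit 200640) (nb (nat_lit 0x400000000000000040000000000000002) (nat_lit 187264) (nb (nat_lit 0x2000000000000000200000000000000020000000000000004)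 (nat_lit 120384) (nb (nat_lit 0x2000000000000000500000000000000010000000000000004) (nat_lit 107008) (nb (nat_lit 0x1000000000000000100000000000000010000000000000002) (nat_lit 26752) (nb (nat_lit 0x20000000000000001) (nat_lit 13504) (nat_lit 0x10000000000000002)))))))), (nb (nat_lit 0x200000000000000070000000000000004) (nat_lit 93632) (nb (nat_lit 2) (nat_lit 13440) (nb (nat_lit 1) (nat_lit 192) (nat_lit 0))))⟩, ⟨(nat_lit 8), (nat_lit 28), (nb (nat_lit 0x1000000000000000100000000000000010000000000000001) (nat_lit 214016) (nb (nat_lit 0x2000000000000000400000000000000030000000000000002) (nat_lit 200640) (nb (nat_lit 0x2000000000000000400000000000000030000000000000001) (nat_lit 187264) (nb (nat_lit 0x2000000000000000200000000000000020000000000000002) (nat_lit 120384) (nb (nat_lit 0x2000000000000000300000000000000010000000000000002) (nat_lit 107008) (nb (nat_lit 0x1000000000000000100000000000000010000000000000001) (nat_lit 26752) (nat_lit 0x100000000000000010000000000000001))))))),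 (nb (nat_lit 0x2000000000000000400000000000000050000000000000002) (nat_lit 93632) (nb (nat_lit 0x10000000000000002) (nat_lit 13440) (nat_lit 0)))⟩]⟩
def e565 : En := ⟨(nat_lit 42), (nat_lit 65553), (nat_lit 170), (nat_lit 9800), [⟨(nat_lit 0), (nat_lit 20), (nb (nat_lit 0x1000000000000000100000000000000010000000000000001) (nat_lit 214016) (nb (nat_lit 0x2000000000000000400000000000000030000000000000002) (nat_lit 200640) (nb (nat_lit 0x2000000000000000400000000000000030000000000000001) (nat_lit 187264) (nb (nat_lit 0x2000000000000000200000000000000020000000000000002) (nat_lit 120384) (nb (nat_lit 0x2000000000000000300000000000000010000000000000002) (nat_lit 107008) (nb (nat_lit 0x1000000000000000100000000000000010000000000000001) (nat_lit 26752) (nat_lit 0x100000000000000010000000000000001))))))), (nb (nat_lit 0x2000000000000000400000000000000050000000000000002) (nat_lit 93632) (nb (nat_lit 0x10000000000000002) (nat_lit 13440) (nat_lit 0)))⟩, ⟨(nat_lit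 6), (nat_lit 22), (nb (nat_lit 1) (nat_lit 214016) (nb (nat_lit 2) (nat_lit 200640) (nb (nat_lit 0x10000000000000001) (nat_lit 187264) (nb (nat_lit 2) (nat_lit 120384) (nb (nat_lit 0x200000000000000000000000000000002) (nat_lit 107008) (nb (nat_lit 0x20000000000000002) (nat_lit 93760) (nb (nat_lit 1) (nat_lit 26752) (nb (nat_lit 0x20000000000000002) (nat_lit 13504) (nat_lit 1))))))))), (nb (nat_lit 2) (nat_lit 200832) (nb (nat_lit 2) (nat_lit 187456) (nb (nat_lit 0x20000000000000002) (nat_lit 93632) (nb (nat_lit 0x10000000000000001) (nat_lit 128) (nat_lit 0)))))⟩, ⟨(nat_lit 8), (nat_lit 12), (nb (nat_lit 0x1000000000000000100000000000000010000000000000002) (nat_lit 214016) (nb (nat_lit 0x400000000000000030000000000000004) (nat_lit 200640) (nb (nat_lit 0x400000000000000040000000000000002) (nat_lit 187264) (nb (nat_lit 0x2000000000000000200000000000000020000000000000004) (nat_lit 120384) (nb (nat_lit 0x2000000000000000500000000000000010000000000000004)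 (nat_lit 107008) (nb (nat_lit 0x1000000000000000100000000000000010000000000000002) (nat_lit 26752) (nb (nat_lit 0x20000000000000001) (nat_lit 13504) (nat_lit 0x10000000000000002)))))))), (nb (nat_lit 0x200000000000000070000000000000004) (nat_lit 93632) (nb (nat_lit 2) (nat_lit 13440) (nb (nat_lit 1) (nat_lit 192) (nat_lit 0))))⟩]⟩
def e566 : En := ⟨(nat_lit 44), (nat_lit 69633), (nat_lit 170), (nat_lit 9800), [⟨(nat_lit 0), (nat_lit 14), (nb (nat_lit 0x1000000000000000100000000000000010000000000000002) (nat_lit 214016) (nb (nat_lit 0x400000000000000030000000000000004) (nat_lit 200640) (nb (nat_lit 0x400000000000000040000000000000002) (nat_lit 187264) (nb (nat_lit 0x2000000000000000200000000000000020000000000000004) (nat_lit 120384) (nb (nat_lit 0x2000000000000000500000000000000010000000000000004) (nat_lit 107008) (nb (nat_lit 0x1000000000000000100000000000000010000000000000002) (nat_lit 26752) (nb (nat_lit 0x20000000000000001) (nat_lit 13504) (nat_lit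 0x10000000000000002)))))))), (nb (nat_lit 0x200000000000000070000000000000004) (nat_lit 93632) (nb (nat_lit 2) (nat_lit 13440) (nb (nat_lit 1) (nat_lit 192) (nat_lit 0))))⟩, ⟨(nat_lit 2), (nat_lit 22), (nb (nat_lit 0x1000000000000000100000000000000010000000000000001) (nat_lit 214016) (nb (nat_lit 0x2000000000000000400000000000000030000000000000002) (nat_lit 200640) (nb (nat_lit 0x2000000000000000400000000000000030000000000000001) (nat_lit 187264) (nb (nat_lit 0x2000000000000000200000000000000020000000000000002) (nat_lit 120384) (nb (nat_lit 0x2000000000000000300000000000000010000000000000002) (nat_lit 107008) (nb (nat_lit 0x1000000000000000100000000000000010000000000000001) (nat_lit 26752) (nat_lit 0x100000000000000010000000000000001))))))), (nb (nat_lit 0x2000000000000000400000000000000050000000000000002) (nat_lit 93632) (nb (nat_lit 0x10000000000000002) (nat_lit 13440) (nat_lit 0)))⟩, ⟨(nat_lit 8), (nat_lit 24), (nb (nat_lit 1) (nat_lit 214016)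 (nb (nat_lit 2) (nat_lit 200640) (nb (nat_lit 0x10000000000000001) (nat_lit 187264) (nb (nat_lit 2) (nat_lit 120384) (nb (nat_lit 0x200000000000000000000000000000002) (nat_lit 107008) (nb (nat_lit 0x20000000000000002) (nat_lit 93760) (nb (nat_lit 1) (nat_lit 26752) (nb (nat_lit 0x20000000000000002) (nat_lit 13504) (nat_lit 1))))))))), (nb (nat_lit 2) (nat_lit 200832) (nb (nat_lit 2) (nat_lit 187456) (nb (nat_lit 0x20000000000000002) (nat_lit 93632) (nb (nat_lit 0x10000000000000001) (nat_lit 128) (nat_lit 0)))))⟩]⟩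
def e567 : En := ⟨(nat_lit 46), (nat_lit 69888), (nat_lit 170), (nat_lit 9800), [⟨(nat_lit 0), (nat_lit 26), (nb (nat_lit 1) (nat_lit 214016) (nb (nat_lit 2) (nat_lit 200640) (nb (nat_lit 0x10000000000000001) (nat_lit 187264) (nb (nat_lit 2) (nat_lit 120384) (nb (nat_lit 0x200000000000000000000000000000002) (nat_lit 107008) (nb (nat_lit 0x20000000000000002) (nat_lit 93760) (nb (nat_lit 1) (nat_lit 26752) (nb (nat_lit 0x20000000000000002) (nat_lit 13504) (nat_lit 1))))))))), (nb (nat_lit 2) (nat_lit 200832) (nb (nat_lit 2) (nat_lit 187456) (nb (nat_lit 0x20000000000000002) (nat_lit 93632) (nb (nat_lit 0x10000000000000001) (nat_lit 128) (nat_lit 0)))))⟩, ⟨(nat_lit 2), (nat_lit 16), (nb (nat_lit 0x1000000000000000100000000000000010000000000000002) (nat_lit 214016) (nb (nat_lit 0x400000000000000030000000000000004) (nat_lit 200640) (nb (nat_lit 0x400000000000000040000000000000002) (nat_lit 187264) (nb (nat_lit 0x2000000000000000200000000000000020000000000000004)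 (nat_lit 120384) (nb (nat_lit 0x2000000000000000500000000000000010000000000000004) (nat_lit 107008) (nb (nat_lit 0x1000000000000000100000000000000010000000000000002) (nat_lit 26752) (nb (nat_lit 0x20000000000000001) (nat_lit 13504) (nat_lit 0x10000000000000002)))))))), (nb (nat_lit 0x200000000000000070000000000000004) (nat_lit 93632) (nb (nat_lit 2) (nat_lit 13440) (nb (nat_lit 1) (nat_lit 192) (nat_lit 0))))⟩, ⟨(nat_lit 4), (nat_lit 24), (nb (nat_lit 0x1000000000000000100000000000000010000000000000001) (nat_lit 214016) (nb (nat_lit 0x2000000000000000400000000000000030000000000000002) (nat_lit 200640) (nb (nat_lit 0x2000000000000000400000000000000030000000000000001) (nat_lit 187264) (nb (nat_lit 0x2000000000000000200000000000000020000000000000002) (nat_lit 120384) (nb (nat_lit 0x2000000000000000300000000000000010000000000000002) (nat_lit 107008) (nb (nat_lit 0x1000000000000000100000000000000010000000000000001) (nat_lit 26752) (nat_lit 0x100000000000000010000000000000001))))))),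 (nb (nat_lit 0x2000000000000000400000000000000050000000000000002) (nat_lit 93632) (nb (nat_lit 0x10000000000000002) (nat_lit 13440) (nat_lit 0)))⟩]⟩
def e568 : En := ⟨(nat_lit 48), (nat_lit 4368), (nat_lit 170), (nat_lit 9800), [⟨(nat_lit 2), (nat_lit 28), (nb (nat_lit 1) (nat_lit 214016) (nb (nat_lit 2) (nat_lit 200640) (nb (nat_lit 0x10000000000000001) (nat_lit 187264) (nb (nat_lit 2) (nat_lit 120384) (nb (nat_lit 0x200000000000000000000000000000002) (nat_lit 107008) (nb (nat_lit 0x20000000000000002) (nat_lit 93760) (nb (nat_lit 1) (nat_lit 26752) (nb (nat_lit 0x20000000000000002) (nat_lit 13504) (nat_lit 1))))))))), (nb (nat_lit 2) (nat_lit 200832) (nb (nat_lit 2) (nat_lit 187456) (nb (nat_lit 0x20000000000000002) (nat_lit 93632) (nb (nat_lit 0x10000000000000001) (nat_lit 128) (nat_lit 0)))))⟩, ⟨(nat_lit 4), (nat_lit 18), (nb (nat_lit 0x1000000000000000100000000000000010000000000000002) (nat_lit 214016) (nb (nat_lit 0x400000000000000030000000000000004)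 (nat_lit 200640) (nb (nat_lit 0x400000000000000040000000000000002) (nat_lit 187264) (nb (nat_lit 0x2000000000000000200000000000000020000000000000004) (nat_lit 120384) (nb (nat_lit 0x2000000000000000500000000000000010000000000000004) (nat_lit 107008) (nb (nat_lit 0x1000000000000000100000000000000010000000000000002) (nat_lit 26752) (nb (nat_lit 0x20000000000000001) (nat_lit 13504) (nat_lit 0x10000000000000002)))))))), (nb (nat_lit 0x200000000000000070000000000000004) (nat_lit 93632) (nb (nat_lit 2) (nat_lit 13440) (nb (nat_lit 1) (nat_lit 192) (nat_lit 0))))⟩, ⟨(nat_lit 6), (nat_lit 26), (nb (nat_lit 0x1000000000000000100000000000000010000000000000001) (nat_lit 214016) (nb (nat_lit 0x2000000000000000400000000000000030000000000000002) (nat_lit 200640) (nb (nat_lit 0x2000000000000000400000000000000030000000000000001) (nat_lit 187264) (nb (nat_lit 0x2000000000000000200000000000000020000000000000002) (nat_lit 120384) (nb (nat_lit 0x2000000000000000300000000000000010000000000000002)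 (nat_lit 107008) (nb (nat_lit 0x1000000000000000100000000000000010000000000000001) (nat_lit 26752) (nat_lit 0x100000000000000010000000000000001))))))), (nb (nat_lit 0x2000000000000000400000000000000050000000000000002) (nat_lit 93632) (nb (nat_lit 0x10000000000000002) (nat_lit 13440) (nat_lit 0)))⟩]⟩
def e569 : En := ⟨(nat_lit 50), (nat_lit 4113), (nat_lit 116), (nat_lit 49000), [⟨(nat_lit 2), (nat_lit 20), (nb (nat_lit 1) (nat_lit 214016) (nb (nat_lit 2) (nat_lit 200640) (nb (nat_lit 0x10000000000000001) (nat_lit 187264) (nb (nat_lit 2) (nat_lit 120384) (nb (nat_lit 0x200000000000000000000000000000002) (nat_lit 107008) (nb (nat_lit 0x20000000000000002) (nat_lit 93760) (nb (nat_lit 1) (nat_lit 26752) (nb (nat_lit 0x20000000000000002) (nat_lit 13504) (nat_lit 1))))))))), (nb (nat_lit 2) (nat_lit 200832) (nb (nat_lit 2) (nat_lit 187456) (nb (nat_lit 0x20000000000000002) (nat_lit 93632) (nb (nat_lit 0x10000000000000001) (nat_lit 128) (nat_lit 0)))))⟩,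 ⟨(nat_lit 6), (nat_lit 14), (nb (nat_lit 1) (nat_lit 227392) (nb (nat_lit 2) (nat_lit 214016) (nb (nat_lit 0x10000000000000001) (nat_lit 200640) (nb (nat_lit 2) (nat_lit 133760) (nb (nat_lit 0x200000000000000000000000000000002) (nat_lit 120384) (nb (nat_lit 0x20000000000000002) (nat_lit 107136) (nb (nat_lit 1) (nat_lit 40128) (nb (nat_lit 0x20000000000000002) (nat_lit 26880) (nb (nat_lit 1) (nat_lit 13376) (nat_lit 0)))))))))), (nb (nat_lit 2) (nat_lit 214208) (nb (nat_lit 2) (nat_lit 200832) (nb (nat_lit 0x20000000000000002) (nat_lit 107008) (nb (nat_lit 0x10000000000000001) (nat_lit 13504) (nat_lit 0)))))⟩, ⟨(nat_lit 8), (nat_lit 18), (nb (nat_lit 2) (nat_lit 214208) (nb (nat_lit 4) (nat_lit 200832) (nb (nat_lit 2) (nat_lit 187456) (nb (nat_lit 2) (nat_lit 107072) (nb (nat_lit 0x20000000000000002) (nat_lit 93632) (nb (nat_lit 0x10000000000000001) (nat_lit 128) (nat_lit 0))))))), (nb (nat_lit 1) (nat_lit 227392) (nb (nat_lit 3) (nat_lit 214016) (nb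 (nat_lit 0x10000000000000003) (nat_lit 200640) (nb (nat_lit 0x10000000000000001) (nat_lit 187264) (nb (nat_lit 2) (nat_lit 133760) (nb (nat_lit 0x200000000000000000000000000000004) (nat_lit 120384) (nb (nat_lit 0x20000000000000004) (nat_lit 107136) (nb (nat_lit 0x20000000000000002) (nat_lit 93760) (nb (nat_lit 1) (nat_lit 40128) (nb (nat_lit 0x2000000000000000200000000000000000000000000000001) (nat_lit 26752) (nb (nat_lit 0x1000000000000000100000000000000000000000000000001) (nat_lit 13376) (nat_lit 1))))))))))))⟩]⟩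
def e570 : En := ⟨(nat_lit 52), (nat_lit 65793), (nat_lit 116), (nat_lit 49000), [⟨(nat_lit 0), (nat_lit 10), (nb (nat_lit 2) (nat_lit 214208) (nb (nat_lit 4) (nat_lit 200832) (nb (nat_lit 2) (nat_lit 187456) (nb (nat_lit 2) (nat_lit 107072) (nb (nat_lit 0x20000000000000002) (nat_lit 93632) (nb (nat_lit 0x10000000000000001) (nat_lit 128) (nat_lit 0))))))), (nb (nat_lit 1) (nat_lit 227392) (nb (nat_lit 3) (nat_lit 214016) (nb (nat_lit 0x10000000000000003) (nat_lit 200640) (nb (nat_lit 0x10000000000000001) (nat_lit 187264) (nb (nat_lit 2) (nat_lit 133760) (nb (nat_lit 0x200000000000000000000000000000004) (nat_lit 120384) (nb (nat_lit 0x20000000000000004) (nat_lit 107136) (nb (nat_lit 0x20000000000000002) (nat_lit 93760) (nb (nat_lit 1) (nat_lit 40128) (nb (nat_lit 0x2000000000000000200000000000000000000000000000001) (nat_lit 26752) (nb (nat_lit 0x1000000000000000100000000000000000000000000000001) (nat_lit 13376) (nat_lit 1))))))))))))⟩, ⟨(nat_lit 4),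 (nat_lit 22), (nb (nat_lit 1) (nat_lit 214016) (nb (nat_lit 2) (nat_lit 200640) (nb (nat_lit 0x10000000000000001) (nat_lit 187264) (nb (nat_lit 2) (nat_lit 120384) (nb (nat_lit 0x200000000000000000000000000000002) (nat_lit 107008) (nb (nat_lit 0x20000000000000002) (nat_lit 93760) (nb (nat_lit 1) (nat_lit 26752) (nb (nat_lit 0x20000000000000002) (nat_lit 13504) (nat_lit 1))))))))), (nb (nat_lit 2) (nat_lit 200832) (nb (nat_lit 2) (nat_lit 187456) (nb (nat_lit 0x20000000000000002) (nat_lit 93632) (nb (nat_lit 0x10000000000000001) (nat_lit 128) (nat_lit 0)))))⟩, ⟨(nat_lit 8), (nat_lit 16), (nb (nat_lit 1) (nat_lit 227392) (nb (nat_lit 2) (nat_lit 214016) (nb (nat_lit 0x10000000000000001) (nat_lit 200640) (nb (nat_lit 2) (nat_lit 133760) (nb (nat_lit 0x200000000000000000000000000000002) (nat_lit 120384) (nb (nat_lit 0x20000000000000002) (nat_lit 107136) (nb (nat_lit 1) (nat_lit 40128) (nb (nat_lit 0x20000000000000002) (nat_lit 26880) (nb (nat_lit 1) (nat_lit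 13376) (nat_lit 0)))))))))), (nb (nat_lit 2) (nat_lit 214208) (nb (nat_lit 2) (nat_lit 200832) (nb (nat_lit 0x20000000000000002) (nat_lit 107008) (nb (nat_lit 0x10000000000000001) (nat_lit 13504) (nat_lit 0)))))⟩]⟩
def e571 : En := ⟨(nat_lit 54), (nat_lit 69648), (nat_lit 116), (nat_lit 49000), [⟨(nat_lit 0), (nat_lit 18), (nb (nat_lit 1) (nat_lit 227392) (nb (nat_lit 2) (nat_lit 214016) (nb (nat_lit 0x10000000000000001) (nat_lit 200640) (nb (nat_lit 2) (nat_lit 133760) (nb (nat_lit 0x200000000000000000000000000000002) (nat_lit 120384) (nb (nat_lit 0x20000000000000002) (nat_lit 107136) (nb (nat_lit 1) (nat_lit 40128) (nb (nat_lit 0x20000000000000002) (nat_lit 26880) (nb (nat_lit 1) (nat_lit 13376) (nat_lit 0)))))))))), (nb (nat_lit 2) (nat_lit 214208) (nb (nat_lit 2) (nat_lit 200832) (nb (nat_lit 0x20000000000000002) (nat_lit 107008) (nb (nat_lit 0x10000000000000001) (nat_lit 13504) (nat_lit 0)))))⟩, ⟨(nat_lit 2), (nat_lit 12), (nb (nat_lit 2) (nat_lit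 214208) (nb (nat_lit 4) (nat_lit 200832) (nb (nat_lit 2) (nat_lit 187456) (nb (nat_lit 2) (nat_lit 107072) (nb (nat_lit 0x20000000000000002) (nat_lit 93632) (nb (nat_lit 0x10000000000000001) (nat_lit 128) (nat_lit 0))))))), (nb (nat_lit 1) (nat_lit 227392) (nb (nat_lit 3) (nat_lit 214016) (nb (nat_lit 0x10000000000000003) (nat_lit 200640) (nb (nat_lit 0x10000000000000001) (nat_lit 187264) (nb (nat_lit 2) (nat_lit 133760) (nb (nat_lit 0x200000000000000000000000000000004) (nat_lit 120384) (nb (nat_lit 0x20000000000000004) (nat_lit 107136) (nb (nat_lit 0x20000000000000002) (nat_lit 93760) (nb (nat_lit 1) (nat_lit 40128) (nb (nat_lit 0x2000000000000000200000000000000000000000000000001) (nat_lit 26752) (nb (nat_lit 0x1000000000000000100000000000000000000000000000001) (nat_lit 13376) (nat_lit 1))))))))))))⟩, ⟨(nat_lit 6), (nat_lit 24), (nb (nat_lit 1) (nat_lit 214016) (nb (nat_lit 2) (nat_lit 200640) (nb (nat_lit 0x10000000000000001) (nat_lit 187264) (nb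 (nat_lit 2) (nat_lit 120384) (nb (nat_lit 0x200000000000000000000000000000002) (nat_lit 107008) (nb (nat_lit 0x20000000000000002) (nat_lit 93760) (nb (nat_lit 1) (nat_lit 26752) (nb (nat_lit 0x20000000000000002) (nat_lit 13504) (nat_lit 1))))))))), (nb (nat_lit 2) (nat_lit 200832) (nb (nat_lit 2) (nat_lit 187456) (nb (nat_lit 0x20000000000000002) (nat_lit 93632) (nb (nat_lit 0x10000000000000001) (nat_lit 128) (nat_lit 0)))))⟩]⟩
def e572 : En := ⟨(nat_lit 56), (nat_lit 4353), (nat_lit 116), (nat_lit 49000), [⟨(nat_lit 2), (nat_lit 10), (nb (nat_lit 1) (nat_lit 227392) (nb (nat_lit 2) (nat_lit 214016) (nb (nat_lit 0x10000000000000001) (nat_lit 200640) (nb (nat_lit 2) (nat_lit 133760) (nb (nat_lit 0x200000000000000000000000000000002) (nat_lit 120384) (nb (nat_lit 0x20000000000000002) (nat_lit 107136) (nb (nat_lit 1) (nat_lit 40128) (nb (nat_lit 0x20000000000000002) (nat_lit 26880) (nb (nat_lit 1) (nat_lit 13376) (nat_lit 0)))))))))), (nb (nat_lit 2)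 (nat_lit 214208) (nb (nat_lit 2) (nat_lit 200832) (nb (nat_lit 0x20000000000000002) (nat_lit 107008) (nb (nat_lit 0x10000000000000001) (nat_lit 13504) (nat_lit 0)))))⟩, ⟨(nat_lit 4), (nat_lit 14), (nb (nat_lit 2) (nat_lit 214208) (nb (nat_lit 4) (nat_lit 200832) (nb (nat_lit 2) (nat_lit 187456) (nb (nat_lit 2) (nat_lit 107072) (nb (nat_lit 0x20000000000000002) (nat_lit 93632) (nb (nat_lit 0x10000000000000001) (nat_lit 128) (nat_lit 0))))))), (nb (nat_lit 1) (nat_lit 227392) (nb (nat_lit 3) (nat_lit 214016) (nb (nat_lit 0x10000000000000003) (nat_lit 200640) (nb (nat_lit 0x10000000000000001) (nat_lit 187264) (nb (nat_lit 2) (nat_lit 133760) (nb (nat_lit 0x200000000000000000000000000000004) (nat_lit 120384) (nb (nat_lit 0x20000000000000004) (nat_lit 107136) (nb (nat_lit 0x20000000000000002) (nat_lit 93760) (nb (nat_lit 1) (nat_lit 40128) (nb (nat_lit 0x2000000000000000200000000000000000000000000000001) (nat_lit 26752) (nb (nat_lit 0x1000000000000000100000000000000000000000000000001)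 (nat_lit 13376) (nat_lit 1))))))))))))⟩, ⟨(nat_lit 8), (nat_lit 26), (nb (nat_lit 1) (nat_lit 214016) (nb (nat_lit 2) (nat_lit 200640) (nb (nat_lit 0x10000000000000001) (nat_lit 187264) (nb (nat_lit 2) (nat_lit 120384) (nb (nat_lit 0x200000000000000000000000000000002) (nat_lit 107008) (nb (nat_lit 0x20000000000000002) (nat_lit 93760) (nb (nat_lit 1) (nat_lit 26752) (nb (nat_lit 0x20000000000000002) (nat_lit 13504) (nat_lit 1))))))))), (nb (nat_lit 2) (nat_lit 200832) (nb (nat_lit 2) (nat_lit 187456) (nb (nat_lit 0x20000000000000002) (nat_lit 93632) (nb (nat_lit 0x10000000000000001) (nat_lit 128) (nat_lit 0)))))⟩]⟩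
def e573 : En := ⟨(nat_lit 58), (nat_lit 65808), (nat_lit 116), (nat_lit 49000), [⟨(nat_lit 0), (nat_lit 28), (nb (nat_lit 1) (nat_lit 214016) (nb (nat_lit 2) (nat_lit 200640) (nb (nat_lit 0x10000000000000001) (nat_lit 187264) (nb (nat_lit 2) (nat_lit 120384) (nb (nat_lit 0x200000000000000000000000000000002) (nat_lit 107008) (nb (nat_lit 0x20000000000000002) (nat_lit 93760) (nb (nat_lit 1) (nat_lit 26752) (nb (nat_lit 0x20000000000000002) (nat_lit 13504) (nat_lit 1))))))))), (nb (nat_lit 2) (nat_lit 200832) (nb (nat_lit 2) (nat_lit 187456) (nb (nat_lit 0x20000000000000002) (nat_lit 93632) (nb (nat_lit 0x10000000000000001) (nat_lit 128) (nat_lit 0)))))⟩, ⟨(nat_lit 4), (nat_lit 12), (nb (nat_lit 1) (nat_lit 227392) (nb (nat_lit 2) (nat_lit 214016) (nb (nat_lit 0x10000000000000001) (nat_lit 200640) (nb (nat_lit 2) (nat_lit 133760) (nb (nat_lit 0x200000000000000000000000000000002) (nat_lit 120384) (nb (nat_lit 0x20000000000000002) (nat_lit 107136) (nb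 (nat_lit 1) (nat_lit 40128) (nb (nat_lit 0x20000000000000002) (nat_lit 26880) (nb (nat_lit 1) (nat_lit 13376) (nat_lit 0)))))))))), (nb (nat_lit 2) (nat_lit 214208) (nb (nat_lit 2) (nat_lit 200832) (nb (nat_lit 0x20000000000000002) (nat_lit 107008) (nb (nat_lit 0x10000000000000001) (nat_lit 13504) (nat_lit 0)))))⟩, ⟨(nat_lit 6), (nat_lit 16), (nb (nat_lit 2) (nat_lit 214208) (nb (nat_lit 4) (nat_lit 200832) (nb (nat_lit 2) (nat_lit 187456) (nb (nat_lit 2) (nat_lit 107072) (nb (nat_lit 0x20000000000000002) (nat_lit 93632) (nb (nat_lit 0x10000000000000001) (nat_lit 128) (nat_lit 0))))))), (nb (nat_lit 1) (nat_lit 227392) (nb (nat_lit 3) (nat_lit 214016) (nb (nat_lit 0x10000000000000003) (nat_lit 200640) (nb (nat_lit 0x10000000000000001) (nat_lit 187264) (nb (nat_lit 2) (nat_lit 133760) (nb (nat_lit 0x200000000000000000000000000000004) (nat_lit 120384) (nb (nat_lit 0x20000000000000004) (nat_lit 107136) (nb (nat_lit 0x20000000000000002) (nat_lit 93760)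 (nb (nat_lit 1) (nat_lit 40128) (nb (nat_lit 0x2000000000000000200000000000000000000000000000001) (nat_lit 26752) (nb (nat_lit 0x1000000000000000100000000000000000000000000000001) (nat_lit 13376) (nat_lit 1))))))))))))⟩]⟩
def e574 : En := ⟨(nat_lit 10), (nat_lit 257), (nat_lit 31), (nat_lit 9800), [⟨(nat_lit 4), (nat_lit 8), (nb (nat_lit 1) (nat_lit 214016) (nb (nat_lit 2) (nat_lit 200640) (nb (nat_lit 0x10000000000000001) (nat_lit 187264) (nb (nat_lit 2) (nat_lit 120384) (nb (nat_lit 0x200000000000000000000000000000002) (nat_lit 107008) (nb (nat_lit 0x20000000000000002) (nat_lit 93760) (nb (nat_lit 1) (nat_lit 26752) (nb (nat_lit 0x20000000000000002) (nat_lit 13504) (nat_lit 1))))))))), (nb (nat_lit 2) (nat_lit 200832) (nb (nat_lit 2) (nat_lit 187456) (nb (nat_lit 0x20000000000000002) (nat_lit 93632) (nb (nat_lit 0x10000000000000001) (nat_lit 128) (nat_lit 0)))))⟩]⟩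
def e575 : En := ⟨(nat_lit 12), (nat_lit 65552), (nat_lit 31), (nat_lit 9800), [⟨(nat_lit 0), (nat_lit 6), (nb (nat_lit 2) (nat_lit 200832) (nb (nat_lit 2) (nat_lit 187456) (nb (nat_lit 0x20000000000000002) (nat_lit 93632) (nb (nat_lit 0x10000000000000001) (nat_lit 128) (nat_lit 0))))), (nb (nat_lit 1) (nat_lit 214016) (nb (nat_lit 2) (nat_lit 200640) (nb (nat_lit 0x10000000000000001) (nat_lit 187264) (nb (nat_lit 2) (nat_lit 120384) (nb (nat_lit 0x200000000000000000000000000000002) (nat_lit 107008) (nb (nat_lit 0x20000000000000002) (nat_lit 93760) (nb (nat_lit 1) (nat_lit 26752) (nb (nat_lit 0x20000000000000002) (nat_lit 13504) (nat_lit 1)))))))))⟩]⟩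
def e576 : En := ⟨(nat_lit 14), (nat_lit 4097), (nat_lit 31), (nat_lit 9800), [⟨(nat_lit 2), (nat_lit 8), (nb (nat_lit 2) (nat_lit 200832) (nb (nat_lit 2) (nat_lit 187456) (nb (nat_lit 0x20000000000000002) (nat_lit 93632) (nb (nat_lit 0x10000000000000001) (nat_lit 128) (nat_lit 0))))), (nb (nat_lit 1) (nat_lit 214016) (nb (nat_lit 2) (nat_lit 200640) (nb (nat_lit 0x10000000000000001) (nat_lit 187264) (nb (nat_lit 2) (nat_lit 120384) (nb (nat_lit 0x200000000000000000000000000000002) (nat_lit 107008) (nb (nat_lit 0x20000000000000002) (nat_lit 93760) (nb (nat_lit 1) (nat_lit 26752) (nb (nat_lit 0x20000000000000002) (nat_lit 13504) (nat_lit 1)))))))))⟩]⟩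
def e577 : En := ⟨(nat_lit 16), (nat_lit 65792), (nat_lit 31), (nat_lit 9800), [⟨(nat_lit 0), (nat_lit 4), (nb (nat_lit 1) (nat_lit 214016) (nb (nat_lit 2) (nat_lit 200640) (nb (nat_lit 0x10000000000000001) (nat_lit 187264) (nb (nat_lit 2) (nat_lit 120384) (nb (nat_lit 0x200000000000000000000000000000002) (nat_lit 107008) (nb (nat_lit 0x20000000000000002) (nat_lit 93760) (nb (nat_lit 1) (nat_lit 26752) (nb (nat_lit 0x20000000000000002) (nat_lit 13504) (nat_lit 1))))))))), (nb (nat_lit 2) (nat_lit 200832) (nb (nat_lit 2) (nat_lit 187456) (nb (nat_lit 0x20000000000000002) (nat_lit 93632) (nb (nat_lit 0x10000000000000001) (nat_lit 128) (nat_lit 0)))))⟩]⟩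
def e578 : En := ⟨(nat_lit 18), (nat_lit 4112), (nat_lit 31), (nat_lit 9800), [⟨(nat_lit 2), (nat_lit 6), (nb (nat_lit 1) (nat_lit 214016) (nb (nat_lit 2) (nat_lit 200640) (nb (nat_lit 0x10000000000000001) (nat_lit 187264) (nb (nat_lit 2) (nat_lit 120384) (nb (nat_lit 0x200000000000000000000000000000002) (nat_lit 107008) (nb (nat_lit 0x20000000000000002) (nat_lit 93760) (nb (nat_lit 1) (nat_lit 26752) (nb (nat_lit 0x20000000000000002) (nat_lit 13504) (nat_lit 1))))))))), (nb (nat_lit 2) (nat_lit 200832) (nb (nat_lit 2) (nat_lit 187456) (nb (nat_lit 0x20000000000000002) (nat_lit 93632) (nb (nat_lit 0x10000000000000001) (nat_lit 128) (nat_lit 0)))))⟩]⟩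
def e579 : En := ⟨(nat_lit 20), (nat_lit 17), (nat_lit 31), (nat_lit 9800), [⟨(nat_lit 6), (nat_lit 8), (nb (nat_lit 1) (nat_lit 214016) (nb (nat_lit 2) (nat_lit 200640) (nb (nat_lit 0x10000000000000001) (nat_lit 187264) (nb (nat_lit 2) (nat_lit 120384) (nb (nat_lit 0x200000000000000000000000000000002) (nat_lit 107008) (nb (nat_lit 0x20000000000000002) (nat_lit 93760) (nb (nat_lit 1) (nat_lit 26752) (nb (nat_lit 0x20000000000000002) (nat_lit 13504) (nat_lit 1))))))))), (nb (nat_lit 2) (nat_lit 200832) (nb (nat_lit 2) (nat_lit 187456) (nb (nat_lit 0x20000000000000002) (nat_lit 93632) (nb (nat_lit 0x10000000000000001) (nat_lit 128) (nat_lit 0)))))⟩]⟩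
def e580 : En := ⟨(nat_lit 22), (nat_lit 65537), (nat_lit 31), (nat_lit 9800), [⟨(nat_lit 0), (nat_lit 8), (nb (nat_lit 2) (nat_lit 200832) (nb (nat_lit 2) (nat_lit 187456) (nb (nat_lit 0x20000000000000002) (nat_lit 93632) (nb (nat_lit 0x10000000000000001) (nat_lit 128) (nat_lit 0))))), (nb (nat_lit 1) (nat_lit 214016) (nb (nat_lit 2) (nat_lit 200640) (nb (nat_lit 0x10000000000000001) (nat_lit 187264) (nb (nat_lit 2) (nat_lit 120384) (nb (nat_lit 0x200000000000000000000000000000002) (nat_lit 107008) (nb (nat_lit 0x20000000000000002) (nat_lit 93760) (nb (nat_lit 1) (nat_lit 26752) (nb (nat_lit 0x20000000000000002) (nat_lit 13504) (nat_lit 1)))))))))⟩]⟩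
def e581 : En := ⟨(nat_lit 24), (nat_lit 69632), (nat_lit 31), (nat_lit 9800), [⟨(nat_lit 0), (nat_lit 2), (nb (nat_lit 1) (nat_lit 214016) (nb (nat_lit 2) (nat_lit 200640) (nb (nat_lit 0x10000000000000001) (nat_lit 187264) (nb (nat_lit 2) (nat_lit 120384) (nb (nat_lit 0x200000000000000000000000000000002) (nat_lit 107008) (nb (nat_lit 0x20000000000000002) (nat_lit 93760) (nb (nat_lit 1) (nat_lit 26752) (nb (nat_lit 0x20000000000000002) (nat_lit 13504) (nat_lit 1))))))))), (nb (nat_lit 2) (nat_lit 200832) (nb (nat_lit 2) (nat_lit 187456) (nb (nat_lit 0x20000000000000002) (nat_lit 93632) (nb (nat_lit 0x10000000000000001) (nat_lit 128) (nat_lit 0)))))⟩]⟩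
def e582 : En := ⟨(nat_lit 26), (nat_lit 4352), (nat_lit 31), (nat_lit 9800), [⟨(nat_lit 2), (nat_lit 4), (nb (nat_lit 1) (nat_lit 214016) (nb (nat_lit 2) (nat_lit 200640) (nb (nat_lit 0x10000000000000001) (nat_lit 187264) (nb (nat_lit 2) (nat_lit 120384) (nb (nat_lit 0x200000000000000000000000000000002) (nat_lit 107008) (nb (nat_lit 0x20000000000000002) (nat_lit 93760) (nb (nat_lit 1) (nat_lit 26752) (nb (nat_lit 0x20000000000000002) (nat_lit 13504) (nat_lit 1))))))))), (nb (nat_lit 2) (nat_lit 200832) (nb (nat_lit 2) (nat_lit 187456) (nb (nat_lit 0x20000000000000002) (nat_lit 93632) (nb (nat_lit 0x10000000000000001) (nat_lit 128) (nat_lit 0)))))⟩]⟩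
def e583 : En := ⟨(nat_lit 28), (nat_lit 272), (nat_lit 31), (nat_lit 9800), [⟨(nat_lit 4), (nat_lit 6), (nb (nat_lit 1) (nat_lit 214016) (nb (nat_lit 2) (nat_lit 200640) (nb (nat_lit 0x10000000000000001) (nat_lit 187264) (nb (nat_lit 2) (nat_lit 120384) (nb (nat_lit 0x200000000000000000000000000000002) (nat_lit 107008) (nb (nat_lit 0x20000000000000002) (nat_lit 93760) (nb (nat_lit 1) (nat_lit 26752) (nb (nat_lit 0x20000000000000002) (nat_lit 13504) (nat_lit 1))))))))), (nb (nat_lit 2) (nat_lit 200832) (nb (nat_lit 2) (nat_lit 187456) (nb (nat_lit 0x20000000000000002) (nat_lit 93632) (nb (nat_lit 0x10000000000000001) (nat_lit 128) (nat_lit 0)))))⟩]⟩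
def e584 : En := ⟨(nat_lit 60), (nat_lit 4369), (nat_lit 88), (nat_lit 1800), [⟨(nat_lit 2), (nat_lit 40), (nb (nat_lit 0x20000000000000001) (nat_lit 14720) (nb (nat_lit 2) (nat_lit 13376) (nb (nat_lit 0x10000000000000001) (nat_lit 1344) (nat_lit 1)))), (nb (nat_lit 0x20000000000000001) (nat_lit 13504) (nb (nat_lit 1) (nat_lit 192) (nat_lit 0)))⟩, ⟨(nat_lit 4), (nat_lit 50), (nb (nat_lit 2) (nat_lit 14592) (nb (nat_lit 1) (nat_lit 2624) (nb (nat_lit 2) (nat_lit 1216) (nat_lit 0)))), (nb (nat_lit 1) (nat_lit 15808) (nb (nat_lit 1) (nat_lit 2432) (nb (nat_lit 2) (nat_lit 1408) (nat_lit 0))))⟩, ⟨(nat_lit 6), (nat_lit 56), (nb (nat_lit 1) (nat_lit 15808) (nb (nat_lit 0x10000000000000001) (nat_lit 2560) (nat_lit 0))), (nb (nat_lit 2) (nat_lit 14592) (nb (nat_lit 0x20000000000000002) (nat_lit 1344) (nat_lit 0)))⟩, ⟨(nat_lit 8), (nat_lit 48), (nb (nat_lit 2) (nat_lit 14592) (nb (nat_lit 0x20000000000000001) (nat_lit 13504) (nb (nat_lit 0x100000000000000000000000000000001)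 (nat_lit 1216) (nb (nat_lit 1) (nat_lit 192) (nat_lit 0))))), (nb (nat_lit 2) (nat_lit 13376) (nat_lit 1))⟩, ⟨(nat_lit 10), (nat_lit 18), (nb (nat_lit 1) (nat_lit 29184) (nb (nat_lit 1) (nat_lit 1408) (nat_lit 0))), (nb (nat_lit 2) (nat_lit 27968) (nb (nat_lit 1) (nat_lit 16000) (nb (nat_lit 0x100000000000000000000000000000002) (nat_lit 14592) (nb (nat_lit 0x10000000000000001) (nat_lit 2560) (nb (nat_lit 1) (nat_lit 1216) (nat_lit 0))))))⟩, ⟨(nat_lit 14), (nat_lit 28), (nb (nat_lit 0x40000000000000002) (nat_lit 14720) (nb (nat_lit 0x20000000000000002) (nat_lit 1344) (nat_lit 0))), (nb (nat_lit 0x20000000000000001) (nat_lit 15936) (nb (nat_lit 0x10000000000000001) (nat_lit 2560) (nat_lit 0)))⟩, ⟨(nat_lit 20), (nat_lit 26), (nb (nat_lit 2) (nat_lit 14592) (nb (nat_lit 0x20000000000000001) (nat_lit 13504) (nb (nat_lit 1) (nat_lit 2624) (nb (nat_lit 2) (nat_lit 1216) (nb (nat_lit 1) (nat_lit 192) (nat_lit 0)))))), (nb (nat_lit 1) (nat_lit 15808) (nb (nat_lit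 0x20000000000000001) (nat_lit 14720) (nb (nat_lit 2) (nat_lit 13376) (nb (nat_lit 1) (nat_lit 2432) (nb (nat_lit 0x30000000000000001) (nat_lit 1344) (nat_lit 1))))))⟩]⟩
def e585 : En := ⟨(nat_lit 62), (nat_lit 65809), (nat_lit 88), (nat_lit 1800), [⟨(nat_lit 0), (nat_lit 40), (nb (nat_lit 2) (nat_lit 14592) (nb (nat_lit 0x20000000000000001) (nat_lit 13504) (nb (nat_lit 0x100000000000000000000000000000001) (nat_lit 1216) (nb (nat_lit 1) (nat_lit 192) (nat_lit 0))))), (nb (nat_lit 2) (nat_lit 13376) (nat_lit 1))⟩, ⟨(nat_lit 4), (nat_lit 42), (nb (nat_lit 0x20000000000000001) (nat_lit 14720) (nb (nat_lit 2) (nat_lit 13376) (nb (nat_lit 0x10000000000000001) (nat_lit 1344) (nat_lit 1)))), (nb (nat_lit 0x20000000000000001) (nat_lit 13504) (nb (nat_lit 1) (nat_lit 192) (nat_lit 0)))⟩, ⟨(nat_lit 6), (nat_lit 52), (nb (nat_lit 2) (nat_lit 14592) (nb (nat_lit 1) (nat_lit 2624) (nb (nat_lit 2) (nat_lit 1216) (nat_lit 0)))), (nb (nat_lit 1) (nat_lit 15808) (nb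 (nat_lit 1) (nat_lit 2432) (nb (nat_lit 2) (nat_lit 1408) (nat_lit 0))))⟩, ⟨(nat_lit 8), (nat_lit 58), (nb (nat_lit 1) (nat_lit 15808) (nb (nat_lit 0x10000000000000001) (nat_lit 2560) (nat_lit 0))), (nb (nat_lit 2) (nat_lit 14592) (nb (nat_lit 0x20000000000000002) (nat_lit 1344) (nat_lit 0)))⟩, ⟨(nat_lit 10), (nat_lit 12), (nb (nat_lit 2) (nat_lit 27968) (nb (nat_lit 1) (nat_lit 16000) (nb (nat_lit 0x100000000000000000000000000000002) (nat_lit 14592) (nb (nat_lit 0x10000000000000001) (nat_lit 2560) (nb (nat_lit 1) (nat_lit 1216) (nat_lit 0)))))), (nb (nat_lit 1) (nat_lit 29184) (nb (nat_lit 1) (nat_lit 1408) (nat_lit 0)))⟩, ⟨(nat_lit 16), (nat_lit 20), (nb (nat_lit 0x40000000000000002) (nat_lit 14720) (nb (nat_lit 0x20000000000000002) (nat_lit 1344) (nat_lit 0))), (nb (nat_lit 0x20000000000000001) (nat_lit 15936) (nb (nat_lit 0x10000000000000001) (nat_lit 2560) (nat_lit 0)))⟩, ⟨(nat_lit 22), (nat_lit 28), (nb (nat_lit 2) (nat_lit 14592) (nb (nat_lit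 0x20000000000000001) (nat_lit 13504) (nb (nat_lit 1) (nat_lit 2624) (nb (nat_lit 2) (nat_lit 1216) (nb (nat_lit 1) (nat_lit 192) (nat_lit 0)))))), (nb (nat_lit 1) (nat_lit 15808) (nb (nat_lit 0x20000000000000001) (nat_lit 14720) (nb (nat_lit 2) (nat_lit 13376) (nb (nat_lit 1) (nat_lit 2432) (nb (nat_lit 0x30000000000000001) (nat_lit 1344) (nat_lit 1))))))⟩]⟩
def e586 : En := ⟨(nat_lit 64), (nat_lit 69649), (nat_lit 88), (nat_lit 1800), [⟨(nat_lit 0), (nat_lit 50), (nb (nat_lit 1) (nat_lit 15808) (nb (nat_lit 0x10000000000000001) (nat_lit 2560) (nat_lit 0))), (nb (nat_lit 2) (nat_lit 14592) (nb (nat_lit 0x20000000000000002) (nat_lit 1344) (nat_lit 0)))⟩, ⟨(nat_lit 2), (nat_lit 42), (nb (nat_lit 2) (nat_lit 14592) (nb (nat_lit 0x20000000000000001) (nat_lit 13504) (nb (nat_lit 0x100000000000000000000000000000001) (nat_lit 1216) (nb (nat_lit 1) (nat_lit 192) (nat_lit 0))))), (nb (nat_lit 2) (nat_lit 13376) (nat_lit 1))⟩, ⟨(nat_lit 6), (nat_lit 44), (nb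 (nat_lit 0x20000000000000001) (nat_lit 14720) (nb (nat_lit 2) (nat_lit 13376) (nb (nat_lit 0x10000000000000001) (nat_lit 1344) (nat_lit 1)))), (nb (nat_lit 0x20000000000000001) (nat_lit 13504) (nb (nat_lit 1) (nat_lit 192) (nat_lit 0)))⟩, ⟨(nat_lit 8), (nat_lit 54), (nb (nat_lit 2) (nat_lit 14592) (nb (nat_lit 1) (nat_lit 2624) (nb (nat_lit 2) (nat_lit 1216) (nat_lit 0)))), (nb (nat_lit 1) (nat_lit 15808) (nb (nat_lit 1) (nat_lit 2432) (nb (nat_lit 2) (nat_lit 1408) (nat_lit 0))))⟩, ⟨(nat_lit 12), (nat_lit 14), (nb (nat_lit 2) (nat_lit 27968) (nb (nat_lit 1) (nat_lit 16000) (nb (nat_lit 0x100000000000000000000000000000002) (nat_lit 14592) (nb (nat_lit 0x10000000000000001) (nat_lit 2560) (nb (nat_lit 1) (nat_lit 1216) (nat_lit 0)))))), (nb (nat_lit 1) (nat_lit 29184) (nb (nat_lit 1) (nat_lit 1408) (nat_lit 0)))⟩, ⟨(nat_lit 18), (nat_lit 22), (nb (nat_lit 0x40000000000000002) (nat_lit 14720) (nb (nat_lit 0x20000000000000002) (nat_lit 1344) (nat_lit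 0))), (nb (nat_lit 0x20000000000000001) (nat_lit 15936) (nb (nat_lit 0x10000000000000001) (nat_lit 2560) (nat_lit 0)))⟩, ⟨(nat_lit 20), (nat_lit 24), (nb (nat_lit 1) (nat_lit 15808) (nb (nat_lit 0x20000000000000001) (nat_lit 14720) (nb (nat_lit 2) (nat_lit 13376) (nb (nat_lit 1) (nat_lit 2432) (nb (nat_lit 0x30000000000000001) (nat_lit 1344) (nat_lit 1)))))), (nb (nat_lit 2) (nat_lit 14592) (nb (nat_lit 0x20000000000000001) (nat_lit 13504) (nb (nat_lit 1) (nat_lit 2624) (nb (nat_lit 2) (nat_lit 1216) (nb (nat_lit 1) (nat_lit 192) (nat_lit 0))))))⟩]⟩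
def e587 : En := ⟨(nat_lit 66), (nat_lit 69889), (nat_lit 88), (nat_lit 1800), [⟨(nat_lit 0), (nat_lit 56), (nb (nat_lit 2) (nat_lit 14592) (nb (nat_lit 1) (nat_lit 2624) (nb (nat_lit 2) (nat_lit 1216) (nat_lit 0)))), (nb (nat_lit 1) (nat_lit 15808) (nb (nat_lit 1) (nat_lit 2432) (nb (nat_lit 2) (nat_lit 1408) (nat_lit 0))))⟩, ⟨(nat_lit 2), (nat_lit 52), (nb (nat_lit 1) (nat_lit 15808) (nb (nat_lit 0x10000000000000001) (nat_lit 2560) (nat_lit 0))), (nb (nat_lit 2) (nat_lit 14592) (nb (nat_lit 0x20000000000000002) (nat_lit 1344) (nat_lit 0)))⟩, ⟨(nat_lit 4), (nat_lit 44), (nb (nat_lit 2) (nat_lit 14592) (nb (nat_lit 0x20000000000000001) (nat_lit 13504) (nb (nat_lit 0x100000000000000000000000000000001) (nat_lit 1216) (nb (nat_lit 1) (nat_lit 192) (nat_lit 0))))), (nb (nat_lit 2) (nat_lit 13376) (nat_lit 1))⟩, ⟨(nat_lit 8), (nat_lit 46), (nb (nat_lit 0x20000000000000001) (nat_lit 14720) (nb (nat_lit 2) (nat_lit 13376) (nb (nat_lit 0x10000000000000001)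 (nat_lit 1344) (nat_lit 1)))), (nb (nat_lit 0x20000000000000001) (nat_lit 13504) (nb (nat_lit 1) (nat_lit 192) (nat_lit 0)))⟩, ⟨(nat_lit 10), (nat_lit 24), (nb (nat_lit 0x40000000000000002) (nat_lit 14720) (nb (nat_lit 0x20000000000000002) (nat_lit 1344) (nat_lit 0))), (nb (nat_lit 0x20000000000000001) (nat_lit 15936) (nb (nat_lit 0x10000000000000001) (nat_lit 2560) (nat_lit 0)))⟩, ⟨(nat_lit 14), (nat_lit 16), (nb (nat_lit 2) (nat_lit 27968) (nb (nat_lit 1) (nat_lit 16000) (nb (nat_lit 0x100000000000000000000000000000002) (nat_lit 14592) (nb (nat_lit 0x10000000000000001) (nat_lit 2560) (nb (nat_lit 1) (nat_lit 1216) (nat_lit 0)))))), (nb (nat_lit 1) (nat_lit 29184) (nb (nat_lit 1) (nat_lit 1408) (nat_lit 0)))⟩, ⟨(nat_lit 22), (nat_lit 26), (nb (nat_lit 1) (nat_lit 15808) (nb (nat_lit 0x20000000000000001) (nat_lit 14720) (nb (nat_lit 2) (nat_lit 13376) (nb (nat_lit 1) (nat_lit 2432) (nb (nat_lit 0x30000000000000001) (nat_lit 1344) (nat_lit 1)))))),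 (nb (nat_lit 2) (nat_lit 14592) (nb (nat_lit 0x20000000000000001) (nat_lit 13504) (nb (nat_lit 1) (nat_lit 2624) (nb (nat_lit 2) (nat_lit 1216) (nb (nat_lit 1) (nat_lit 192) (nat_lit 0))))))⟩]⟩
def e588 : En := ⟨(nat_lit 68), (nat_lit 69904), (nat_lit 88), (nat_lit 1800), [⟨(nat_lit 0), (nat_lit 48), (nb (nat_lit 0x20000000000000001) (nat_lit 14720) (nb (nat_lit 2) (nat_lit 13376) (nb (nat_lit 0x10000000000000001) (nat_lit 1344) (nat_lit 1)))), (nb (nat_lit 0x20000000000000001) (nat_lit 13504) (nb (nat_lit 1) (nat_lit 192) (nat_lit 0)))⟩, ⟨(nat_lit 2), (nat_lit 58), (nb (nat_lit 2) (nat_lit 14592) (nb (nat_lit 1) (nat_lit 2624) (nb (nat_lit 2) (nat_lit 1216) (nat_lit 0)))), (nb (nat_lit 1) (nat_lit 15808) (nb (nat_lit 1) (nat_lit 2432) (nb (nat_lit 2) (nat_lit 1408) (nat_lit 0))))⟩, ⟨(nat_lit 4), (nat_lit 54), (nb (nat_lit 1) (nat_lit 15808) (nb (nat_lit 0x10000000000000001) (nat_lit 2560) (nat_lit 0))), (nb (nat_lit 2) (nat_lit 14592) (nb (nat_lit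 0x20000000000000002) (nat_lit 1344) (nat_lit 0)))⟩, ⟨(nat_lit 6), (nat_lit 46), (nb (nat_lit 2) (nat_lit 14592) (nb (nat_lit 0x20000000000000001) (nat_lit 13504) (nb (nat_lit 0x100000000000000000000000000000001) (nat_lit 1216) (nb (nat_lit 1) (nat_lit 192) (nat_lit 0))))), (nb (nat_lit 2) (nat_lit 13376) (nat_lit 1))⟩, ⟨(nat_lit 12), (nat_lit 26), (nb (nat_lit 0x40000000000000002) (nat_lit 14720) (nb (nat_lit 0x20000000000000002) (nat_lit 1344) (nat_lit 0))), (nb (nat_lit 0x20000000000000001) (nat_lit 15936) (nb (nat_lit 0x10000000000000001) (nat_lit 2560) (nat_lit 0)))⟩, ⟨(nat_lit 16), (nat_lit 18), (nb (nat_lit 2) (nat_lit 27968) (nb (nat_lit 1) (nat_lit 16000) (nb (nat_lit 0x100000000000000000000000000000002) (nat_lit 14592) (nb (nat_lit 0x10000000000000001) (nat_lit 2560) (nb (nat_lit 1) (nat_lit 1216) (nat_lit 0)))))), (nb (nat_lit 1) (nat_lit 29184) (nb (nat_lit 1) (nat_lit 1408) (nat_lit 0)))⟩, ⟨(nat_lit 24), (nat_lit 28), (nb (nat_lit 1) (nat_lit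 15808) (nb (nat_lit 0x20000000000000001) (nat_lit 14720) (nb (nat_lit 2) (nat_lit 13376) (nb (nat_lit 1) (nat_lit 2432) (nb (nat_lit 0x30000000000000001) (nat_lit 1344) (nat_lit 1)))))), (nb (nat_lit 2) (nat_lit 14592) (nb (nat_lit 0x20000000000000001) (nat_lit 13504) (nb (nat_lit 1) (nat_lit 2624) (nb (nat_lit 2) (nat_lit 1216) (nb (nat_lit 1) (nat_lit 192) (nat_lit 0))))))⟩]⟩
def e589 : En := ⟨(nat_lit 40), (nat_lit 273), (nat_lit 12), (nat_lit 120), [⟨(nat_lit 4), (nat_lit 20), (nat_lit 0x1000000000000000000000000000000000000000000000000), (nb (nat_lit 1) (nat_lit 13376) (nat_lit 1))⟩, ⟨(nat_lit 6), (nat_lit 10), (nb (nat_lit 1) (nat_lit 1408) (nat_lit 0)), (nb (nat_lit 1) (nat_lit 14592) (nb (nat_lit 1) (nat_lit 1216) (nat_lit 0)))⟩, ⟨(nat_lit 8), (nat_lit 28), (nb (nat_lit 1) (nat_lit 13376) (nb (nat_lit 1) (nat_lit 1408) (nat_lit 1))), (nb (nat_lit 1) (nat_lit 14592) (nb (nat_lit 1) (nat_lit 1216) (nb (nat_lit 1) (nat_lit 192) (nat_lit 0))))⟩]⟩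
def e590 : En := ⟨(nat_lit 42), (nat_lit 65553), (nat_lit 12), (nat_lit 120), [⟨(nat_lit 0), (nat_lit 20), (nb (nat_lit 1) (nat_lit 13376) (nb (nat_lit 1) (nat_lit 1408) (nat_lit 1))), (nb (nat_lit 1) (nat_lit 14592) (nb (nat_lit 1) (nat_lit 1216) (nb (nat_lit 1) (nat_lit 192) (nat_lit 0))))⟩, ⟨(nat_lit 6), (nat_lit 22), (nat_lit 0x1000000000000000000000000000000000000000000000000), (nb (nat_lit 1) (nat_lit 13376) (nat_lit 1))⟩, ⟨(nat_lit 8), (nat_lit 12), (nb (nat_lit 1) (nat_lit 1408) (nat_lit 0)), (nb (nat_lit 1) (nat_lit 14592) (nb (nat_lit 1) (nat_lit 1216) (nat_lit 0)))⟩]⟩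
def e591 : En := ⟨(nat_lit 44), (nat_lit 69633), (nat_lit 12), (nat_lit 120), [⟨(nat_lit 0), (nat_lit 14), (nb (nat_lit 1) (nat_lit 1408) (nat_lit 0)), (nb (nat_lit 1) (nat_lit 14592) (nb (nat_lit 1) (nat_lit 1216) (nat_lit 0)))⟩, ⟨(nat_lit 2), (nat_lit 22), (nb (nat_lit 1) (nat_lit 13376) (nb (nat_lit 1) (nat_lit 1408) (nat_lit 1))), (nb (nat_lit 1) (nat_lit 14592) (nb (nat_lit 1) (nat_lit 1216) (nb (nat_lit 1) (nat_lit 192) (nat_lit 0))))⟩, ⟨(nat_lit 8), (nat_lit 24), (nat_lit 0x1000000000000000000000000000000000000000000000000), (nb (nat_lit 1) (nat_lit 13376) (nat_lit 1))⟩]⟩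
def e592 : En := ⟨(nat_lit 46), (nat_lit 69888), (nat_lit 12), (nat_lit 120), [⟨(nat_lit 0), (nat_lit 26), (nat_lit 0x1000000000000000000000000000000000000000000000000), (nb (nat_lit 1) (nat_lit 13376) (nat_lit 1))⟩, ⟨(nat_lit 2), (nat_lit 16), (nb (nat_lit 1) (nat_lit 1408) (nat_lit 0)), (nb (nat_lit 1) (nat_lit 14592) (nb (nat_lit 1) (nat_lit 1216) (nat_lit 0)))⟩, ⟨(nat_lit 4), (nat_lit 24), (nb (nat_lit 1) (nat_lit 13376) (nb (nat_lit 1) (nat_lit 1408) (nat_lit 1))), (nb (nat_lit 1) (nat_lit 14592) (nb (nat_lit 1) (nat_lit 1216) (nb (nat_lit 1) (nat_lit 192) (nat_lit 0))))⟩]⟩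
def e593 : En := ⟨(nat_lit 48), (nat_lit 4368), (nat_lit 12), (nat_lit 120), [⟨(nat_lit 2), (nat_lit 28), (nat_lit 0x1000000000000000000000000000000000000000000000000), (nb (nat_lit 1) (nat_lit 13376) (nat_lit 1))⟩, ⟨(nat_lit 4), (nat_lit 18), (nb (nat_lit 1) (nat_lit 1408) (nat_lit 0)), (nb (nat_lit 1) (nat_lit 14592) (nb (nat_lit 1) (nat_lit 1216) (nat_lit 0)))⟩, ⟨(nat_lit 6), (nat_lit 26), (nb (nat_lit 1) (nat_lit 13376) (nb (nat_lit 1) (nat_lit 1408) (nat_lit 1))), (nb (nat_lit 1) (nat_lit 14592) (nb (nat_lit 1) (nat_lit 1216) (nb (nat_lit 1) (nat_lit 192) (nat_lit 0))))⟩]⟩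
def e594 : En := ⟨(nat_lit 50), (nat_lit 4113), (nat_lit 12), (nat_lit 200), [⟨(nat_lit 2), (nat_lit 20), (nat_lit 0x1000000000000000000000000000000000000000000000000), (nb (nat_lit 1) (nat_lit 13376) (nat_lit 1))⟩, ⟨(nat_lit 6), (nat_lit 14), (nb (nat_lit 1) (nat_lit 13568) (nat_lit 0)), (nb (nat_lit 1) (nat_lit 26752) (nb (nat_lit 1) (nat_lit 13376) (nat_lit 0)))⟩, ⟨(nat_lit 8), (nat_lit 18), (nb (nat_lit 1) (nat_lit 26752) (nb (nat_lit 2) (nat_lit 13376) (nat_lit 1))), (nb (nat_lit 1) (nat_lit 13568) (nb (nat_lit 1) (nat_lit 192) (nat_lit 0)))⟩]⟩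
def e595 : En := ⟨(nat_lit 52), (nat_lit 65793), (nat_lit 12), (nat_lit 200), [⟨(nat_lit 0), (nat_lit 10), (nb (nat_lit 1) (nat_lit 26752) (nb (nat_lit 2) (nat_lit 13376) (nat_lit 1))), (nb (nat_lit 1) (nat_lit 13568) (nb (nat_lit 1) (nat_lit 192) (nat_lit 0)))⟩, ⟨(nat_lit 4), (nat_lit 22), (nat_lit 0x1000000000000000000000000000000000000000000000000), (nb (nat_lit 1) (nat_lit 13376) (nat_lit 1))⟩, ⟨(nat_lit 8), (nat_lit 16), (nb (nat_lit 1) (nat_lit 13568) (nat_lit 0)), (nb (nat_lit 1) (nat_lit 26752) (nb (nat_lit 1) (nat_lit 13376) (nat_lit 0)))⟩]⟩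
def e596 : En := ⟨(nat_lit 54), (nat_lit 69648), (nat_lit 12), (nat_lit 200), [⟨(nat_lit 0), (nat_lit 18), (nb (nat_lit 1) (nat_lit 13568) (nat_lit 0)), (nb (nat_lit 1) (nat_lit 26752) (nb (nat_lit 1) (nat_lit 13376) (nat_lit 0)))⟩, ⟨(nat_lit 2), (nat_lit 12), (nb (nat_lit 1) (nat_lit 26752) (nb (nat_lit 2) (nat_lit 13376) (nat_lit 1))), (nb (nat_lit 1) (nat_lit 13568) (nb (nat_lit 1) (nat_lit 192) (nat_lit 0)))⟩, ⟨(nat_lit 6), (nat_lit 24), (nat_lit 0x1000000000000000000000000000000000000000000000000), (nb (nat_lit 1) (nat_lit 13376) (nat_lit 1))⟩]⟩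
def e597 : En := ⟨(nat_lit 56), (nat_lit 4353), (nat_lit 12), (nat_lit 200), [⟨(nat_lit 2), (nat_lit 10), (nb (nat_lit 1) (nat_lit 13568) (nat_lit 0)), (nb (nat_lit 1) (nat_lit 26752) (nb (nat_lit 1) (nat_lit 13376) (nat_lit 0)))⟩, ⟨(nat_lit 4), (nat_lit 14), (nb (nat_lit 1) (nat_lit 26752) (nb (nat_lit 2) (nat_lit 13376) (nat_lit 1))), (nb (nat_lit 1) (nat_lit 13568) (nb (nat_lit 1) (nat_lit 192) (nat_lit 0)))⟩, ⟨(nat_lit 8), (nat_lit 26), (nat_lit 0x1000000000000000000000000000000000000000000000000), (nb (nat_lit 1) (nat_lit 13376) (nat_lit 1))⟩]⟩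
def e598 : En := ⟨(nat_lit 58), (nat_lit 65808), (nat_lit 12), (nat_lit 200), [⟨(nat_lit 0), (nat_lit 28), (nat_lit 0x1000000000000000000000000000000000000000000000000), (nb (nat_lit 1) (nat_lit 13376) (nat_lit 1))⟩, ⟨(nat_lit 4), (nat_lit 12), (nb (nat_lit 1) (nat_lit 13568) (nat_lit 0)), (nb (nat_lit 1) (nat_lit 26752) (nb (nat_lit 1) (nat_lit 13376) (nat_lit 0)))⟩, ⟨(nat_lit 6), (nat_lit 16), (nb (nat_lit 1) (nat_lit 26752) (nb (nat_lit 2) (nat_lit 13376) (nat_lit 1))), (nb (nat_lit 1) (nat_lit 13568) (nb (nat_lit 1) (nat_lit 192) (nat_lit 0)))⟩]⟩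
def e599 : En := ⟨(nat_lit 10), (nat_lit 257), (nat_lit 3), (nat_lit 40), [⟨(nat_lit 4), (nat_lit 8), (nat_lit 0x1000000000000000000000000000000000000000000000000), (nb (nat_lit 1) (nat_lit 13376) (nat_lit 1))⟩]⟩
def e600 : En := ⟨(nat_lit 12), (nat_lit 65552), (nat_lit 3), (nat_lit 40), [⟨(nat_lit 0), (nat_lit 6), (nb (nat_lit 1) (nat_lit 13376) (nat_lit 1)), (nat_lit 0x1000000000000000000000000000000000000000000000000)⟩]⟩
def e601 : En := ⟨(nat_lit 14), (nat_lit 4097), (nat_lit 3), (nat_lit 40), [⟨(nat_lit 2), (nat_lit 8), (nb (nat_lit 1) (nat_lit 13376) (nat_lit 1)), (nat_lit 0x1000000000000000000000000000000000000000000000000)⟩]⟩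
def e602 : En := ⟨(nat_lit 16), (nat_lit 65792), (nat_lit 3), (nat_lit 40), [⟨(nat_lit 0), (nat_lit 4), (nat_lit 0x1000000000000000000000000000000000000000000000000), (nb (nat_lit 1) (nat_lit 13376) (nat_lit 1))⟩]⟩
def e603 : En := ⟨(nat_lit 18), (nat_lit 4112), (nat_lit 3), (nat_lit 40), [⟨(nat_lit 2), (nat_lit 6), (nat_lit 0x1000000000000000000000000000000000000000000000000), (nb (nat_lit 1) (nat_lit 13376) (nat_lit 1))⟩]⟩
def e604 : En := ⟨(nat_lit 20), (nat_lit 17), (nat_lit 3), (nat_lit 40), [⟨(nat_lit 6), (nat_lit 8), (nat_lit 0x1000000000000000000000000000000000000000000000000), (nb (nat_lit 1) (nat_lit 13376) (nat_lit 1))⟩]⟩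
def e605 : En := ⟨(nat_lit 22), (nat_lit 65537), (nat_lit 3), (nat_lit 40), [⟨(nat_lit 0), (nat_lit 8), (nb (nat_lit 1) (nat_lit 13376) (nat_lit 1)), (nat_lit 0x1000000000000000000000000000000000000000000000000)⟩]⟩
def e606 : En := ⟨(nat_lit 24), (nat_lit 69632), (nat_lit 3), (nat_lit 40), [⟨(nat_lit 0), (nat_lit 2), (nat_lit 0x1000000000000000000000000000000000000000000000000), (nb (nat_lit 1) (nat_lit 13376) (nat_lit 1))⟩]⟩
def e607 : En := ⟨(nat_lit 26), (nat_lit 4352), (nat_lit 3), (nat_lit 40), [⟨(nat_lit 2), (nat_lit 4), (nat_lit 0x1000000000000000000000000000000000000000000000000), (nb (nat_lit 1) (nat_lit 13376) (nat_lit 1))⟩]⟩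
def e608 : En := ⟨(nat_lit 28), (nat_lit 272), (nat_lit 3), (nat_lit 40), [⟨(nat_lit 4), (nat_lit 6), (nat_lit 0x1000000000000000000000000000000000000000000000000), (nb (nat_lit 1) (nat_lit 13376) (nat_lit 1))⟩]⟩
def e609 : En := ⟨(nat_lit 60), (nat_lit 4369), (nat_lit 6098), (nat_lit 216), [⟨(nat_lit 2), (nat_lit 40), (nb (nat_lit 0x3200000000000000500000000000000041000000000000002d) (nat_lit 2432) (nb (nat_lit 0x1e00000000000000460000000000000032) (nat_lit 64) (nat_lit 0))), (nb (nat_lit 0x7300000000000000c3000000000000009b0000000000000041) (nat_lit 1216) (nat_lit 50))⟩, ⟨(nat_lit 4), (nat_lit 50), (nb (nat_lit 0x140000000000000041000000000000004600000000000000cd) (nat_lit 2432) (nat_lit 0)), (nb (nat_lit 55) (nat_lit 3648) (nb (nat_lit 0x280000000000000082000000000000008c00000000000000be) (nat_lit 1216) (nat_lit 0)))⟩, ⟨(nat_lit 6), (nat_lit 56), (nb (nat_lit 0x280000000000000014) (nat_lit 3776) (nb (nat_lit 0x69000000000000003c) (nat_lit 2432)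 (nb (nat_lit 110) (nat_lit 1408) (nat_lit 0)))), (nb (nat_lit 0x19000000000000001e) (nat_lit 3648) (nb (nat_lit 0x870000000000000028) (nat_lit 2560) (nb (nat_lit 110) (nat_lit 1280) (nat_lit 0))))⟩, ⟨(nat_lit 8), (nat_lit 48), (nb (nat_lit 0x28000000000000001400000000000000000000000000000019) (nat_lit 2432) (nb (nat_lit 75) (nat_lit 1280) (nat_lit 50))), (nb (nat_lit 25) (nat_lit 2496) (nb (nat_lit 0x4100000000000000050000000000000000000000000000004b) (nat_lit 1216) (nb (nat_lit 0x1e00000000000000460000000000000032) (nat_lit 64) (nat_lit 0))))⟩, ⟨(nat_lit 10), (nat_lit 18), (nb (nat_lit 0x75000000000000004000000000000000000000000000000003) (nat_lit 2432) (nb (nat_lit 0x28000000000000003c0000000000000032) (nat_lit 1216) (nat_lit 0))), (nb (nat_lit 0x33000000000000002a0000000000000008000000000000000e) (nat_lit 3648) (nb (nat_lit 14) (nat_lit 2496) (nb (nat_lit 30) (nat_lit 1408) (nat_lit 0))))⟩, ⟨(nat_lit 14), (nat_lit 28), (nb (nat_lit 0xcd000000000000012700000000000000c30000000000000087)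 (nat_lit 2432) (nat_lit 0)), (nb (nat_lit 0x3200000000000000500000000000000041000000000000002d) (nat_lit 3648) (nb (nat_lit 0xd2000000000000010e0000000000000082000000000000005a) (nat_lit 1216) (nat_lit 0)))⟩, ⟨(nat_lit 20), (nat_lit 26), (nb (nat_lit 0x500000000000000a0) (nat_lit 2432) (nb (nat_lit 0x4b0000000000000041000000000000000f) (nat_lit 1280) (nat_lit 50))), (nb (nat_lit 55) (nat_lit 3648) (nb (nat_lit 0x1e000000000000000f) (nat_lit 2560) (nb (nat_lit 125) (nat_lit 1216) (nb (nat_lit 0x1e00000000000000460000000000000032) (nat_lit 64) (nat_lit 0)))))⟩]⟩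
def e610 : En := ⟨(nat_lit 62), (nat_lit 65809), (nat_lit 6098), (nat_lit 216), [⟨(nat_lit 0), (nat_lit 40), (nb (nat_lit 0x28000000000000001400000000000000000000000000000019) (nat_lit 2432) (nb (nat_lit 75) (nat_lit 1280) (nat_lit 50))), (nb (nat_lit 25) (nat_lit 2496) (nb (nat_lit 0x4100000000000000050000000000000000000000000000004b) (nat_lit 1216) (nb (nat_lit 0x1e00000000000000460000000000000032) (nat_lit 64) (nat_lit 0))))⟩, ⟨(nat_lit 4), (nat_lit 42), (nb (nat_lit 0x3200000000000000500000000000000041000000000000002d) (nat_lit 2432) (nb (nat_lit 0x1e00000000000000460000000000000032) (nat_lit 64) (nat_lit 0))), (nb (nat_lit 0x7300000000000000c3000000000000009b0000000000000041) (nat_lit 1216) (nat_lit 50))⟩, ⟨(nat_lit 6), (nat_lit 52), (nb (nat_lit 0x140000000000000041000000000000004600000000000000cd) (nat_lit 2432) (nat_lit 0)), (nb (nat_lit 55) (nat_lit 3648) (nb (nat_lit 0x280000000000000082000000000000008c00000000000000be) (nat_lit 1216) (nat_lit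 0)))⟩, ⟨(nat_lit 8), (nat_lit 58), (nb (nat_lit 0x280000000000000014) (nat_lit 3776) (nb (nat_lit 0x69000000000000003c) (nat_lit 2432) (nb (nat_lit 110) (nat_lit 1408) (nat_lit 0)))), (nb (nat_lit 0x19000000000000001e) (nat_lit 3648) (nb (nat_lit 0x870000000000000028) (nat_lit 2560) (nb (nat_lit 110) (nat_lit 1280) (nat_lit 0))))⟩, ⟨(nat_lit 10), (nat_lit 12), (nb (nat_lit 0x33000000000000002a0000000000000008000000000000000e) (nat_lit 3648) (nb (nat_lit 14) (nat_lit 2496) (nb (nat_lit 30) (nat_lit 1408) (nat_lit 0)))), (nb (nat_lit 0x75000000000000004000000000000000000000000000000003) (nat_lit 2432) (nb (nat_lit 0x28000000000000003c0000000000000032) (nat_lit 1216) (nat_lit 0)))⟩, ⟨(nat_lit 16), (nat_lit 20), (nb (nat_lit 0xcd000000000000012700000000000000c30000000000000087) (nat_lit 2432) (nat_lit 0)), (nb (nat_lit 0x3200000000000000500000000000000041000000000000002d) (nat_lit 3648) (nb (nat_lit 0xd2000000000000010e0000000000000082000000000000005a)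 (nat_lit 1216) (nat_lit 0)))⟩, ⟨(nat_lit 22), (nat_lit 28), (nb (nat_lit 0x500000000000000a0) (nat_lit 2432) (nb (nat_lit 0x4b0000000000000041000000000000000f) (nat_lit 1280) (nat_lit 50))), (nb (nat_lit 55) (nat_lit 3648) (nb (nat_lit 0x1e000000000000000f) (nat_lit 2560) (nb (nat_lit 125) (nat_lit 1216) (nb (nat_lit 0x1e00000000000000460000000000000032) (nat_lit 64) (nat_lit 0)))))⟩]⟩
def e611 : En := ⟨(nat_lit 64), (nat_lit 69649), (nat_lit 6098), (nat_lit 216), [⟨(nat_lit 0), (nat_lit 50), (nb (nat_lit 0x280000000000000014) (nat_lit 3776) (nb (nat_lit 0x69000000000000003c) (nat_lit 2432) (nb (nat_lit 110) (nat_lit 1408) (nat_lit 0)))), (nb (nat_lit 0x19000000000000001e) (nat_lit 3648) (nb (nat_lit 0x870000000000000028) (nat_lit 2560) (nb (nat_lit 110) (nat_lit 1280) (nat_lit 0))))⟩, ⟨(nat_lit 2), (nat_lit 42), (nb (nat_lit 0x28000000000000001400000000000000000000000000000019) (nat_lit 2432) (nb (nat_lit 75) (nat_lit 1280) (nat_lit 50))), (nb (nat_lit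 25) (nat_lit 2496) (nb (nat_lit 0x4100000000000000050000000000000000000000000000004b) (nat_lit 1216) (nb (nat_lit 0x1e00000000000000460000000000000032) (nat_lit 64) (nat_lit 0))))⟩, ⟨(nat_lit 6), (nat_lit 44), (nb (nat_lit 0x3200000000000000500000000000000041000000000000002d) (nat_lit 2432) (nb (nat_lit 0x1e00000000000000460000000000000032) (nat_lit 64) (nat_lit 0))), (nb (nat_lit 0x7300000000000000c3000000000000009b0000000000000041) (nat_lit 1216) (nat_lit 50))⟩, ⟨(nat_lit 8), (nat_lit 54), (nb (nat_lit 0x140000000000000041000000000000004600000000000000cd) (nat_lit 2432) (nat_lit 0)), (nb (nat_lit 55) (nat_lit 3648) (nb (nat_lit 0x280000000000000082000000000000008c00000000000000be) (nat_lit 1216) (nat_lit 0)))⟩, ⟨(nat_lit 12), (nat_lit 14), (nb (nat_lit 0x33000000000000002a0000000000000008000000000000000e) (nat_lit 3648) (nb (nat_lit 14) (nat_lit 2496) (nb (nat_lit 30) (nat_lit 1408) (nat_lit 0)))), (nb (nat_lit 0x75000000000000004000000000000000000000000000000003)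 (nat_lit 2432) (nb (nat_lit 0x28000000000000003c0000000000000032) (nat_lit 1216) (nat_lit 0)))⟩, ⟨(nat_lit 18), (nat_lit 22), (nb (nat_lit 0xcd000000000000012700000000000000c30000000000000087) (nat_lit 2432) (nat_lit 0)), (nb (nat_lit 0x3200000000000000500000000000000041000000000000002d) (nat_lit 3648) (nb (nat_lit 0xd2000000000000010e0000000000000082000000000000005a) (nat_lit 1216) (nat_lit 0)))⟩, ⟨(nat_lit 20), (nat_lit 24), (nb (nat_lit 55) (nat_lit 3648) (nb (nat_lit 0x1e000000000000000f) (nat_lit 2560) (nb (nat_lit 125) (nat_lit 1216) (nb (nat_lit 0x1e00000000000000460000000000000032) (nat_lit 64) (nat_lit 0))))), (nb (nat_lit 0x500000000000000a0) (nat_lit 2432) (nb (nat_lit 0x4b0000000000000041000000000000000f) (nat_lit 1280) (nat_lit 50)))⟩]⟩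
def e612 : En := ⟨(nat_lit 66), (nat_lit 69889), (nat_lit 6098), (nat_lit 216), [⟨(nat_lit 0), (nat_lit 56), (nb (nat_lit 0x140000000000000041000000000000004600000000000000cd) (nat_lit 2432) (nat_lit 0)), (nb (nat_lit 55) (nat_lit 3648) (nb (nat_lit 0x280000000000000082000000000000008c00000000000000be) (nat_lit 1216) (nat_lit 0)))⟩, ⟨(nat_lit 2), (nat_lit 52), (nb (nat_lit 0x280000000000000014) (nat_lit 3776) (nb (nat_lit 0x69000000000000003c) (nat_lit 2432) (nb (nat_lit 110) (nat_lit 1408) (nat_lit 0)))), (nb (nat_lit 0x19000000000000001e) (nat_lit 3648) (nb (nat_lit 0x870000000000000028) (nat_lit 2560) (nb (nat_lit 110) (nat_lit 1280) (nat_lit 0))))⟩, ⟨(nat_lit 4), (nat_lit 44), (nb (nat_lit 0x28000000000000001400000000000000000000000000000019) (nat_lit 2432) (nb (nat_lit 75) (nat_lit 1280) (nat_lit 50))), (nb (nat_lit 25) (nat_lit 2496) (nb (nat_lit 0x4100000000000000050000000000000000000000000000004b) (nat_lit 1216) (nb (nat_lit 0x1e00000000000000460000000000000032)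 (nat_lit 64) (nat_lit 0))))⟩, ⟨(nat_lit 8), (nat_lit 46), (nb (nat_lit 0x3200000000000000500000000000000041000000000000002d) (nat_lit 2432) (nb (nat_lit 0x1e00000000000000460000000000000032) (nat_lit 64) (nat_lit 0))), (nb (nat_lit 0x7300000000000000c3000000000000009b0000000000000041) (nat_lit 1216) (nat_lit 50))⟩, ⟨(nat_lit 10), (nat_lit 24), (nb (nat_lit 0xcd000000000000012700000000000000c30000000000000087) (nat_lit 2432) (nat_lit 0)), (nb (nat_lit 0x3200000000000000500000000000000041000000000000002d) (nat_lit 3648) (nb (nat_lit 0xd2000000000000010e0000000000000082000000000000005a) (nat_lit 1216) (nat_lit 0)))⟩, ⟨(nat_lit 14), (nat_lit 16), (nb (nat_lit 0x33000000000000002a0000000000000008000000000000000e) (nat_lit 3648) (nb (nat_lit 14) (nat_lit 2496) (nb (nat_lit 30) (nat_lit 1408) (nat_lit 0)))), (nb (nat_lit 0x75000000000000004000000000000000000000000000000003) (nat_lit 2432) (nb (nat_lit 0x28000000000000003c0000000000000032) (nat_lit 1216)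 (nat_lit 0)))⟩, ⟨(nat_lit 22), (nat_lit 26), (nb (nat_lit 55) (nat_lit 3648) (nb (nat_lit 0x1e000000000000000f) (nat_lit 2560) (nb (nat_lit 125) (nat_lit 1216) (nb (nat_lit 0x1e00000000000000460000000000000032) (nat_lit 64) (nat_lit 0))))), (nb (nat_lit 0x500000000000000a0) (nat_lit 2432) (nb (nat_lit 0x4b0000000000000041000000000000000f) (nat_lit 1280) (nat_lit 50)))⟩]⟩
def e613 : En := ⟨(nat_lit 68), (nat_lit 69904), (nat_lit 6098), (nat_lit 216), [⟨(nat_lit 0), (nat_lit 48), (nb (nat_lit 0x3200000000000000500000000000000041000000000000002d) (nat_lit 2432) (nb (nat_lit 0x1e00000000000000460000000000000032) (nat_lit 64) (nat_lit 0))), (nb (nat_lit 0x7300000000000000c3000000000000009b0000000000000041) (nat_lit 1216) (nat_lit 50))⟩, ⟨(nat_lit 2), (nat_lit 58), (nb (nat_lit 0x140000000000000041000000000000004600000000000000cd) (nat_lit 2432) (nat_lit 0)), (nb (nat_lit 55) (nat_lit 3648) (nb (nat_lit 0x280000000000000082000000000000008c00000000000000be)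 (nat_lit 1216) (nat_lit 0)))⟩, ⟨(nat_lit 4), (nat_lit 54), (nb (nat_lit 0x280000000000000014) (nat_lit 3776) (nb (nat_lit 0x69000000000000003c) (nat_lit 2432) (nb (nat_lit 110) (nat_lit 1408) (nat_lit 0)))), (nb (nat_lit 0x19000000000000001e) (nat_lit 3648) (nb (nat_lit 0x870000000000000028) (nat_lit 2560) (nb (nat_lit 110) (nat_lit 1280) (nat_lit 0))))⟩, ⟨(nat_lit 6), (nat_lit 46), (nb (nat_lit 0x28000000000000001400000000000000000000000000000019) (nat_lit 2432) (nb (nat_lit 75) (nat_lit 1280) (nat_lit 50))), (nb (nat_lit 25) (nat_lit 2496) (nb (nat_lit 0x4100000000000000050000000000000000000000000000004b) (nat_lit 1216) (nb (nat_lit 0x1e00000000000000460000000000000032) (nat_lit 64) (nat_lit 0))))⟩, ⟨(nat_lit 12), (nat_lit 26), (nb (nat_lit 0xcd000000000000012700000000000000c30000000000000087) (nat_lit 2432) (nat_lit 0)), (nb (nat_lit 0x3200000000000000500000000000000041000000000000002d) (nat_lit 3648) (nb (nat_lit 0xd2000000000000010e0000000000000082000000000000005a)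 (nat_lit 1216) (nat_lit 0)))⟩, ⟨(nat_lit 16), (nat_lit 18), (nb (nat_lit 0x33000000000000002a0000000000000008000000000000000e) (nat_lit 3648) (nb (nat_lit 14) (nat_lit 2496) (nb (nat_lit 30) (nat_lit 1408) (nat_lit 0)))), (nb (nat_lit 0x75000000000000004000000000000000000000000000000003) (nat_lit 2432) (nb (nat_lit 0x28000000000000003c0000000000000032) (nat_lit 1216) (nat_lit 0)))⟩, ⟨(nat_lit 24), (nat_lit 28), (nb (nat_lit 55) (nat_lit 3648) (nb (nat_lit 0x1e000000000000000f) (nat_lit 2560) (nb (nat_lit 125) (nat_lit 1216) (nb (nat_lit 0x1e00000000000000460000000000000032) (nat_lit 64) (nat_lit 0))))), (nb (nat_lit 0x500000000000000a0) (nat_lit 2432) (nb (nat_lit 0x4b0000000000000041000000000000000f) (nat_lit 1280) (nat_lit 50)))⟩]⟩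
def e614 : En := ⟨(nat_lit 40), (nat_lit 273), (nat_lit 1220), (nat_lit 72), [⟨(nat_lit 4), (nat_lit 20), (nat_lit 0x1400000000000000410000000000000046000000000000005f), (nb (nat_lit 55) (nat_lit 1216) (nat_lit 0))⟩, ⟨(nat_lit 6), (nat_lit 10), (nb (nat_lit 0x1400000000000000410000000000000046000000000000005f) (nat_lit 1216) (nat_lit 0)), (nb (nat_lit 55) (nat_lit 2432) (nat_lit 0))⟩, ⟨(nat_lit 8), (nat_lit 28), (nb (nat_lit 0x14000000000000004100000000000000460000000000000096) (nat_lit 1216) (nat_lit 0)), (nb (nat_lit 55) (nat_lit 2432) (nat_lit 0x1400000000000000410000000000000046000000000000005f))⟩]⟩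
def e615 : En := ⟨(nat_lit 42), (nat_lit 65553), (nat_lit 1220), (nat_lit 72), [⟨(nat_lit 0), (nat_lit 20), (nb (nat_lit 0x14000000000000004100000000000000460000000000000096) (nat_lit 1216) (nat_lit 0)), (nb (nat_lit 55) (nat_lit 2432) (nat_lit 0x1400000000000000410000000000000046000000000000005f))⟩, ⟨(nat_lit 6), (nat_lit 22), (nat_lit 0x1400000000000000410000000000000046000000000000005f), (nb (nat_lit 55) (nat_lit 1216) (nat_lit 0))⟩, ⟨(nat_lit 8), (nat_lit 12), (nb (nat_lit 0x1400000000000000410000000000000046000000000000005f) (nat_lit 1216) (nat_lit 0)), (nb (nat_lit 55) (nat_lit 2432) (nat_lit 0))⟩]⟩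
def e616 : En := ⟨(nat_lit 44), (nat_lit 69633), (nat_lit 1220), (nat_lit 72), [⟨(nat_lit 0), (nat_lit 14), (nb (nat_lit 0x1400000000000000410000000000000046000000000000005f) (nat_lit 1216) (nat_lit 0)), (nb (nat_lit 55) (nat_lit 2432) (nat_lit 0))⟩, ⟨(nat_lit 2), (nat_lit 22), (nb (nat_lit 0x14000000000000004100000000000000460000000000000096) (nat_lit 1216) (nat_lit 0)), (nb (nat_lit 55) (nat_lit 2432) (nat_lit 0x1400000000000000410000000000000046000000000000005f))⟩, ⟨(nat_lit 8), (nat_lit 24), (nat_lit 0x1400000000000000410000000000000046000000000000005f), (nb (nat_lit 55) (nat_lit 1216) (nat_lit 0))⟩]⟩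
def e617 : En := ⟨(nat_lit 46), (nat_lit 69888), (nat_lit 1220), (nat_lit 72), [⟨(nat_lit 0), (nat_lit 26), (nat_lit 0x1400000000000000410000000000000046000000000000005f), (nb (nat_lit 55) (nat_lit 1216) (nat_lit 0))⟩, ⟨(nat_lit 2), (nat_lit 16), (nb (nat_lit 0x1400000000000000410000000000000046000000000000005f) (nat_lit 1216) (nat_lit 0)), (nb (nat_lit 55) (nat_lit 2432) (nat_lit 0))⟩, ⟨(nat_lit 4), (nat_lit 24), (nb (nat_lit 0x14000000000000004100000000000000460000000000000096) (nat_lit 1216) (nat_lit 0)), (nb (nat_lit 55) (nat_lit 2432) (nat_lit 0x1400000000000000410000000000000046000000000000005f))⟩]⟩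
def e618 : En := ⟨(nat_lit 48), (nat_lit 4368), (nat_lit 1220), (nat_lit 72), [⟨(nat_lit 2), (nat_lit 28), (nat_lit 0x1400000000000000410000000000000046000000000000005f), (nb (nat_lit 55) (nat_lit 1216) (nat_lit 0))⟩, ⟨(nat_lit 4), (nat_lit 18), (nb (nat_lit 0x1400000000000000410000000000000046000000000000005f) (nat_lit 1216) (nat_lit 0)), (nb (nat_lit 55) (nat_lit 2432) (nat_lit 0))⟩, ⟨(nat_lit 6), (nat_lit 26), (nb (nat_lit 0x14000000000000004100000000000000460000000000000096) (nat_lit 1216) (nat_lit 0)), (nb (nat_lit 55) (nat_lit 2432) (nat_lit 0x1400000000000000410000000000000046000000000000005f))⟩]⟩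
def e619 : En := ⟨(nat_lit 50), (nat_lit 4113), (nat_lit 832), (nat_lit 24), [⟨(nat_lit 2), (nat_lit 20), (nat_lit 0x1400000000000000410000000000000046000000000000005f), (nb (nat_lit 55) (nat_lit 1216) (nat_lit 0))⟩, ⟨(nat_lit 6), (nat_lit 14), (nb (nat_lit 0xb00000000000000160000000000000021000000000000002c) (nat_lit 1216) (nat_lit 0)), (nat_lit 0x3200000000000000500000000000000041000000000000002d)⟩, ⟨(nat_lit 8), (nat_lit 18), (nb (nat_lit 11) (nat_lit 1216) (nb (nat_lit 0x1e000000000000000f) (nat_lit 128) (nat_lit 0))), (nb (nat_lit 0xb00000000000000160000000000000021) (nat_lit 1280) (nat_lit 0x50000000000000032))⟩]⟩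
def e620 : En := ⟨(nat_lit 52), (nat_lit 65793), (nat_lit 832), (nat_lit 24), [⟨(nat_lit 0), (nat_lit 10), (nb (nat_lit 11) (nat_lit 1216) (nb (nat_lit 0x1e000000000000000f) (nat_lit 128) (nat_lit 0))), (nb (nat_lit 0xb00000000000000160000000000000021) (nat_lit 1280) (nat_lit 0x50000000000000032))⟩, ⟨(nat_lit 4), (nat_lit 22), (nat_lit 0x1400000000000000410000000000000046000000000000005f), (nb (nat_lit 55) (nat_lit 1216) (nat_lit 0))⟩, ⟨(nat_lit 8), (nat_lit 16), (nb (nat_lit 0xb00000000000000160000000000000021000000000000002c) (nat_lit 1216) (nat_lit 0)), (nat_lit 0x3200000000000000500000000000000041000000000000002d)⟩]⟩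
def e621 : En := ⟨(nat_lit 54), (nat_lit 69648), (nat_lit 832), (nat_lit 24), [⟨(nat_lit 0), (nat_lit 18), (nb (nat_lit 0xb00000000000000160000000000000021000000000000002c) (nat_lit 1216) (nat_lit 0)), (nat_lit 0x3200000000000000500000000000000041000000000000002d)⟩, ⟨(nat_lit 2), (nat_lit 12), (nb (nat_lit 11) (nat_lit 1216) (nb (nat_lit 0x1e000000000000000f) (nat_lit 128) (nat_lit 0))), (nb (nat_lit 0xb00000000000000160000000000000021) (nat_lit 1280) (nat_lit 0x50000000000000032))⟩, ⟨(nat_lit 6), (nat_lit 24), (nat_lit 0x1400000000000000410000000000000046000000000000005f), (nb (nat_lit 55) (nat_lit 1216) (nat_lit 0))⟩]⟩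
def e622 : En := ⟨(nat_lit 56), (nat_lit 4353), (nat_lit 832), (nat_lit 24), [⟨(nat_lit 2), (nat_lit 10), (nb (nat_lit 0xb00000000000000160000000000000021000000000000002c) (nat_lit 1216) (nat_lit 0)), (nat_lit 0x3200000000000000500000000000000041000000000000002d)⟩, ⟨(nat_lit 4), (nat_lit 14), (nb (nat_lit 11) (nat_lit 1216) (nb (nat_lit 0x1e000000000000000f) (nat_lit 128) (nat_lit 0))), (nb (nat_lit 0xb00000000000000160000000000000021) (nat_lit 1280) (nat_lit 0x50000000000000032))⟩, ⟨(nat_lit 8), (nat_lit 26), (nat_lit 0x1400000000000000410000000000000046000000000000005f), (nb (nat_lit 55) (nat_lit 1216) (nat_lit 0))⟩]⟩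
def e623 : En := ⟨(nat_lit 58), (nat_lit 65808), (nat_lit 832), (nat_lit 24), [⟨(nat_lit 0), (nat_lit 28), (nat_lit 0x1400000000000000410000000000000046000000000000005f), (nb (nat_lit 55) (nat_lit 1216) (nat_lit 0))⟩, ⟨(nat_lit 4), (nat_lit 12), (nb (nat_lit 0xb00000000000000160000000000000021000000000000002c) (nat_lit 1216) (nat_lit 0)), (nat_lit 0x3200000000000000500000000000000041000000000000002d)⟩, ⟨(nat_lit 6), (nat_lit 16), (nb (nat_lit 11) (nat_lit 1216) (nb (nat_lit 0x1e000000000000000f) (nat_lit 128) (nat_lit 0))), (nb (nat_lit 0xb00000000000000160000000000000021) (nat_lit 1280) (nat_lit 0x50000000000000032))⟩]⟩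
def e624 : En := ⟨(nat_lit 10), (nat_lit 257), (nat_lit 305), (nat_lit 24), [⟨(nat_lit 4), (nat_lit 8), (nat_lit 0x1400000000000000410000000000000046000000000000005f), (nb (nat_lit 55) (nat_lit 1216) (nat_lit 0))⟩]⟩
def e625 : En := ⟨(nat_lit 12), (nat_lit 65552), (nat_lit 305), (nat_lit 24), [⟨(nat_lit 0), (nat_lit 6), (nb (nat_lit 55) (nat_lit 1216) (nat_lit 0)), (nat_lit 0x1400000000000000410000000000000046000000000000005f)⟩]⟩
def e626 : En := ⟨(nat_lit 14), (nat_lit 4097), (nat_lit 305), (nat_lit 24), [⟨(nat_lit 2), (nat_lit 8), (nb (nat_lit 55) (nat_lit 1216) (nat_lit 0)), (nat_lit 0x1400000000000000410000000000000046000000000000005f)⟩]⟩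
def e627 : En := ⟨(nat_lit 16), (nat_lit 65792), (nat_lit 305), (nat_lit 24), [⟨(nat_lit 0), (nat_lit 4), (nat_lit 0x1400000000000000410000000000000046000000000000005f), (nb (nat_lit 55) (nat_lit 1216) (nat_lit 0))⟩]⟩
def e628 : En := ⟨(nat_lit 18), (nat_lit 4112), (nat_lit 305), (nat_lit 24), [⟨(nat_lit 2), (nat_lit 6), (nat_lit 0x1400000000000000410000000000000046000000000000005f), (nb (nat_lit 55) (nat_lit 1216) (nat_lit 0))⟩]⟩
def e629 : En := ⟨(nat_lit 20), (nat_lit 17), (nat_lit 305), (nat_lit 24), [⟨(nat_lit 6), (nat_lit 8), (nat_lit 0x1400000000000000410000000000000046000000000000005f), (nb (nat_lit 55) (nat_lit 1216) (nat_lit 0))⟩]⟩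
def e630 : En := ⟨(nat_lit 22), (nat_lit 65537), (nat_lit 305), (nat_lit 24), [⟨(nat_lit 0), (nat_lit 8), (nb (nat_lit 55) (nat_lit 1216) (nat_lit 0)), (nat_lit 0x1400000000000000410000000000000046000000000000005f)⟩]⟩
def e631 : En := ⟨(nat_lit 24), (nat_lit 69632), (nat_lit 305), (nat_lit 24), [⟨(nat_lit 0), (nat_lit 2), (nat_lit 0x1400000000000000410000000000000046000000000000005f), (nb (nat_lit 55) (nat_lit 1216) (nat_lit 0))⟩]⟩
def e632 : En := ⟨(nat_lit 26), (nat_lit 4352), (nat_lit 305), (nat_lit 24), [⟨(nat_lit 2), (nat_lit 4), (nat_lit 0x1400000000000000410000000000000046000000000000005f), (nb (nat_lit 55) (nat_lit 1216) (nat_lit 0))⟩]⟩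
def e633 : En := ⟨(nat_lit 28), (nat_lit 272), (nat_lit 305), (nat_lit 24), [⟨(nat_lit 4), (nat_lit 6), (nat_lit 0x1400000000000000410000000000000046000000000000005f), (nb (nat_lit 55) (nat_lit 1216) (nat_lit 0))⟩]⟩
def e634 : En := ⟨(nat_lit 75), (nat_lit 69905), (nat_lit 1872), (nat_lit 216), [⟨(nat_lit 0), (nat_lit 60), (nat_lit 0x4000000000000000d000000000000000e0000000000000013), (nb (nat_lit 11) (nat_lit 1216) (nat_lit 0))⟩, ⟨(nat_lit 2), (nat_lit 62), (nat_lit 0x5000000000000000000000000000000000000000000000000), (nb (nat_lit 11) (nat_lit 1408) (nat_lit 0xe000000000000000a0000000000000001))⟩, ⟨(nat_lit 4), (nat_lit 64), (nat_lit 0x9000000000000000a000000000000000f0000000000000000), (nb (nat_lit 11) (nat_lit 1280) (nat_lit 4))⟩, ⟨(nat_lit 6), (nat_lit 66), (nb (nat_lit 0xb000000000000000b000000000000000b000000000000000b) (nat_lit 1216) (nat_lit 0)), (nat_lit 0x13000000000000000f00000000000000060000000000000005)⟩, ⟨(nat_lit 8), (nat_lit 68),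 (nat_lit 0x1000000000000000600000000000000000000000000000000), (nb (nat_lit 11) (nat_lit 1344) (nat_lit 0xd0000000000000009))⟩, ⟨(nat_lit 10), (nat_lit 54), (nb (nat_lit 0x9000000000000000a) (nat_lit 3776) (nb (nat_lit 0x1d000000000000000f) (nat_lit 2432) (nb (nat_lit 4) (nat_lit 1408) (nat_lit 0)))), (nb (nat_lit 0x70000000000000004) (nat_lit 3648) (nb (nat_lit 0x14000000000000000a) (nat_lit 2560) (nb (nat_lit 0x14000000000000001e000000000000000e) (nat_lit 1216) (nat_lit 0))))⟩, ⟨(nat_lit 12), (nat_lit 56), (nb (nat_lit 0x3000000000000000700000000000000100000000000000011) (nat_lit 3648) (nb (nat_lit 0x10000000000000001e0000000000000022000000000000000a) (nat_lit 1216) (nat_lit 0))), (nb (nat_lit 0xe000000000000001d00000000000000310000000000000027) (nat_lit 2432) (nat_lit 0))⟩, ⟨(nat_lit 14), (nat_lit 58), (nb (nat_lit 1) (nat_lit 3840) (nb (nat_lit 0xa000000000000003100000000000000230000000000000014) (nat_lit 2432) (nat_lit 0))), (nb (nat_lit 0x10000000000000000d0000000000000009)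 (nat_lit 3648) (nb (nat_lit 0x18000000000000002200000000000000120000000000000004) (nat_lit 1216) (nat_lit 0)))⟩, ⟨(nat_lit 16), (nat_lit 50), (nb (nat_lit 0x4000000000000000d000000000000000e) (nat_lit 3712) (nb (nat_lit 14) (nat_lit 2432) (nb (nat_lit 0xe0000000000000012) (nat_lit 1344) (nat_lit 0)))), (nb (nat_lit 3) (nat_lit 3648) (nb (nat_lit 0xf00000000000000230000000000000019) (nat_lit 2496) (nb (nat_lit 0x60000000000000010) (nat_lit 1216) (nat_lit 0))))⟩, ⟨(nat_lit 18), (nat_lit 52), (nb (nat_lit 0x270000000000000019000000000000000a) (nat_lit 2496) (nb (nat_lit 0x600000000000000140000000000000018) (nat_lit 1216) (nat_lit 0))), (nb (nat_lit 0x11000000000000000e000000000000000a0000000000000001) (nat_lit 3648) (nb (nat_lit 10) (nat_lit 2432) (nb (nat_lit 10) (nat_lit 1408) (nat_lit 0))))⟩, ⟨(nat_lit 20), (nat_lit 46), (nb (nat_lit 11) (nat_lit 2496) (nb (nat_lit 4) (nat_lit 1344) (nat_lit 0x60000000000000000000000000000000a000000000000000c))),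 (nb (nat_lit 0x30000000000000000000000000000001b0000000000000006) (nat_lit 1216) (nb (nat_lit 8) (nat_lit 128) (nat_lit 0)))⟩, ⟨(nat_lit 22), (nat_lit 48), (nb (nat_lit 0x15000000000000001b0000000000000018000000000000001f) (nat_lit 1216) (nb (nat_lit 2) (nat_lit 192) (nat_lit 0))), (nb (nat_lit 0xb000000000000000b000000000000000b000000000000000b) (nat_lit 2432) (nat_lit 0xa00000000000000040000000000000012))⟩, ⟨(nat_lit 24), (nat_lit 40), (nb (nat_lit 11) (nat_lit 2560) (nb (nat_lit 0x7000000000000000000000000000000000000000000000003) (nat_lit 1216) (nb (nat_lit 0x40000000000000006) (nat_lit 64) (nat_lit 0)))), (nb (nat_lit 0x180000000000000003) (nat_lit 1280) (nat_lit 0xe000000000000000000000000000000000000000000000006))⟩, ⟨(nat_lit 26), (nat_lit 42), (nb (nat_lit 11) (nat_lit 2432) (nb (nat_lit 0x60000000000000003000000000000000a) (nat_lit 1280) (nat_lit 0))), (nb (nat_lit 21) (nat_lit 1216) (nat_lit 0xc000000000000000600000000000000140000000000000002))⟩,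 ⟨(nat_lit 28), (nat_lit 44), (nb (nat_lit 11) (nat_lit 2624) (nat_lit 0x1200000000000000140000000000000008000000000000000e)), (nb (nat_lit 0x1f000000000000000a00000000000000040000000000000007) (nat_lit 1216) (nat_lit 0))⟩]⟩
def e635 : En := ⟨(nat_lit 60), (nat_lit 4369), (nat_lit 215), (nat_lit 504), [⟨(nat_lit 2), (nat_lit 40), (nb (nat_lit 1) (nat_lit 94848) (nb (nat_lit 0x1000000000000000200000000000000030000000000000004) (nat_lit 93632) (nb (nat_lit 0x100000000000000020000000000000003) (nat_lit 64) (nat_lit 0)))), (nb (nat_lit 0x100000000000000020000000000000003) (nat_lit 94912) (nb (nat_lit 0x1000000000000000200000000000000030000000000000004) (nat_lit 1216) (nat_lit 1)))⟩, ⟨(nat_lit 4), (nat_lit 50), (nb (nat_lit 5) (nat_lit 2432) (nat_lit 0)), (nb (nat_lit 10) (nat_lit 1216) (nat_lit 0))⟩, ⟨(nat_lit 6), (nat_lit 56), (nb (nat_lit 5) (nat_lit 96064) (nat_lit 0)), (nb (nat_lit 10) (nat_lit 94848) (nat_lit 0))⟩, ⟨(nat_lit 8), (nat_lit 48), (nb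 (nat_lit 5) (nat_lit 94848) (nat_lit 1)), (nb (nat_lit 0x1000000000000000200000000000000030000000000000004) (nat_lit 93632) (nb (nat_lit 5) (nat_lit 1216) (nb (nat_lit 0x100000000000000020000000000000003) (nat_lit 64) (nat_lit 0))))⟩, ⟨(nat_lit 10), (nat_lit 18), (nb (nat_lit 0x1000000000000000200000000000000030000000000000004) (nat_lit 94848) (nb (nat_lit 0x1000000000000000200000000000000030000000000000004) (nat_lit 2432) (nb (nat_lit 1) (nat_lit 1216) (nat_lit 0)))), (nb (nat_lit 5) (nat_lit 96064) (nb (nat_lit 0x100000000000000020000000000000003) (nat_lit 1280) (nat_lit 0)))⟩, ⟨(nat_lit 14), (nat_lit 28), (nb (nat_lit 0x100000000000000020000000000000003) (nat_lit 96128) (nb (nat_lit 2) (nat_lit 94848) (nb (nat_lit 0x1000000000000000200000000000000030000000000000004) (nat_lit 2432) (nat_lit 0)))), (nb (nat_lit 1) (nat_lit 96064) (nb (nat_lit 0x200000000000000040000000000000006) (nat_lit 94912) (nb (nat_lit 0x2000000000000000400000000000000060000000000000008)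 (nat_lit 1216) (nat_lit 0))))⟩, ⟨(nat_lit 20), (nat_lit 26), (nb (nat_lit 0x100000000000000020000000000000003) (nat_lit 94912) (nb (nat_lit 5) (nat_lit 2432) (nb (nat_lit 0x100000000000000020000000000000003) (nat_lit 1280) (nat_lit 1)))), (nb (nat_lit 1) (nat_lit 94848) (nb (nat_lit 0x1000000000000000200000000000000030000000000000004) (nat_lit 93632) (nb (nat_lit 6) (nat_lit 1216) (nb (nat_lit 0x100000000000000020000000000000003) (nat_lit 64) (nat_lit 0)))))⟩]⟩
def e636 : En := ⟨(nat_lit 62), (nat_lit 65809), (nat_lit 215), (nat_lit 504), [⟨(nat_lit 0), (nat_lit 40), (nb (nat_lit 5) (nat_lit 94848) (nat_lit 1)), (nb (nat_lit 0x1000000000000000200000000000000030000000000000004) (nat_lit 93632) (nb (nat_lit 5) (nat_lit 1216) (nb (nat_lit 0x100000000000000020000000000000003) (nat_lit 64) (nat_lit 0))))⟩, ⟨(nat_lit 4), (nat_lit 42), (nb (nat_lit 1) (nat_lit 94848) (nb (nat_lit 0x1000000000000000200000000000000030000000000000004) (nat_lit 93632) (nb (nat_lit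 0x100000000000000020000000000000003) (nat_lit 64) (nat_lit 0)))), (nb (nat_lit 0x100000000000000020000000000000003) (nat_lit 94912) (nb (nat_lit 0x1000000000000000200000000000000030000000000000004) (nat_lit 1216) (nat_lit 1)))⟩, ⟨(nat_lit 6), (nat_lit 52), (nb (nat_lit 5) (nat_lit 2432) (nat_lit 0)), (nb (nat_lit 10) (nat_lit 1216) (nat_lit 0))⟩, ⟨(nat_lit 8), (nat_lit 58), (nb (nat_lit 5) (nat_lit 96064) (nat_lit 0)), (nb (nat_lit 10) (nat_lit 94848) (nat_lit 0))⟩, ⟨(nat_lit 10), (nat_lit 12), (nb (nat_lit 5) (nat_lit 96064) (nb (nat_lit 0x100000000000000020000000000000003) (nat_lit 1280) (nat_lit 0))), (nb (nat_lit 0x1000000000000000200000000000000030000000000000004) (nat_lit 94848) (nb (nat_lit 0x1000000000000000200000000000000030000000000000004) (nat_lit 2432) (nb (nat_lit 1) (nat_lit 1216) (nat_lit 0))))⟩, ⟨(nat_lit 16), (nat_lit 20), (nb (nat_lit 0x100000000000000020000000000000003) (nat_lit 96128) (nb (nat_lit 2) (nat_lit 94848) (nb (nat_lit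 0x1000000000000000200000000000000030000000000000004) (nat_lit 2432) (nat_lit 0)))), (nb (nat_lit 1) (nat_lit 96064) (nb (nat_lit 0x200000000000000040000000000000006) (nat_lit 94912) (nb (nat_lit 0x2000000000000000400000000000000060000000000000008) (nat_lit 1216) (nat_lit 0))))⟩, ⟨(nat_lit 22), (nat_lit 28), (nb (nat_lit 0x100000000000000020000000000000003) (nat_lit 94912) (nb (nat_lit 5) (nat_lit 2432) (nb (nat_lit 0x100000000000000020000000000000003) (nat_lit 1280) (nat_lit 1)))), (nb (nat_lit 1) (nat_lit 94848) (nb (nat_lit 0x1000000000000000200000000000000030000000000000004) (nat_lit 93632) (nb (nat_lit 6) (nat_lit 1216) (nb (nat_lit 0x100000000000000020000000000000003) (nat_lit 64) (nat_lit 0)))))⟩]⟩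
def e637 : En := ⟨(nat_lit 64), (nat_lit 69649), (nat_lit 215), (nat_lit 504), [⟨(nat_lit 0), (nat_lit 50), (nb (nat_lit 5) (nat_lit 96064) (nat_lit 0)), (nb (nat_lit 10) (nat_lit 94848) (nat_lit 0))⟩, ⟨(nat_lit 2), (nat_lit 42), (nb (nat_lit 5) (nat_lit 94848) (nat_lit 1)), (nb (nat_lit 0x1000000000000000200000000000000030000000000000004) (nat_lit 93632) (nb (nat_lit 5) (nat_lit 1216) (nb (nat_lit 0x100000000000000020000000000000003) (nat_lit 64) (nat_lit 0))))⟩, ⟨(nat_lit 6), (nat_lit 44), (nb (nat_lit 1) (nat_lit 94848) (nb (nat_lit 0x1000000000000000200000000000000030000000000000004) (nat_lit 93632) (nb (nat_lit 0x100000000000000020000000000000003) (nat_lit 64) (nat_lit 0)))), (nb (nat_lit 0x100000000000000020000000000000003) (nat_lit 94912) (nb (nat_lit 0x1000000000000000200000000000000030000000000000004) (nat_lit 1216) (nat_lit 1)))⟩, ⟨(nat_lit 8), (nat_lit 54), (nb (nat_lit 5) (nat_lit 2432) (nat_lit 0)), (nb (nat_lit 10) (nat_lit 1216) (nat_lit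 0))⟩, ⟨(nat_lit 12), (nat_lit 14), (nb (nat_lit 5) (nat_lit 96064) (nb (nat_lit 0x100000000000000020000000000000003) (nat_lit 1280) (nat_lit 0))), (nb (nat_lit 0x1000000000000000200000000000000030000000000000004) (nat_lit 94848) (nb (nat_lit 0x1000000000000000200000000000000030000000000000004) (nat_lit 2432) (nb (nat_lit 1) (nat_lit 1216) (nat_lit 0))))⟩, ⟨(nat_lit 18), (nat_lit 22), (nb (nat_lit 0x100000000000000020000000000000003) (nat_lit 96128) (nb (nat_lit 2) (nat_lit 94848) (nb (nat_lit 0x1000000000000000200000000000000030000000000000004) (nat_lit 2432) (nat_lit 0)))), (nb (nat_lit 1) (nat_lit 96064) (nb (nat_lit 0x200000000000000040000000000000006) (nat_lit 94912) (nb (nat_lit 0x2000000000000000400000000000000060000000000000008) (nat_lit 1216) (nat_lit 0))))⟩, ⟨(nat_lit 20), (nat_lit 24), (nb (nat_lit 1) (nat_lit 94848) (nb (nat_lit 0x1000000000000000200000000000000030000000000000004) (nat_lit 93632) (nb (nat_lit 6) (nat_lit 1216) (nb (nat_lit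 0x100000000000000020000000000000003) (nat_lit 64) (nat_lit 0))))), (nb (nat_lit 0x100000000000000020000000000000003) (nat_lit 94912) (nb (nat_lit 5) (nat_lit 2432) (nb (nat_lit 0x100000000000000020000000000000003) (nat_lit 1280) (nat_lit 1))))⟩]⟩
def e638 : En := ⟨(nat_lit 66), (nat_lit 69889), (nat_lit 215), (nat_lit 504), [⟨(nat_lit 0), (nat_lit 56), (nb (nat_lit 5) (nat_lit 2432) (nat_lit 0)), (nb (nat_lit 10) (nat_lit 1216) (nat_lit 0))⟩, ⟨(nat_lit 2), (nat_lit 52), (nb (nat_lit 5) (nat_lit 96064) (nat_lit 0)), (nb (nat_lit 10) (nat_lit 94848) (nat_lit 0))⟩, ⟨(nat_lit 4), (nat_lit 44), (nb (nat_lit 5) (nat_lit 94848) (nat_lit 1)), (nb (nat_lit 0x1000000000000000200000000000000030000000000000004) (nat_lit 93632) (nb (nat_lit 5) (nat_lit 1216) (nb (nat_lit 0x100000000000000020000000000000003) (nat_lit 64) (nat_lit 0))))⟩, ⟨(nat_lit 8), (nat_lit 46), (nb (nat_lit 1) (nat_lit 94848) (nb (nat_lit 0x1000000000000000200000000000000030000000000000004)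 (nat_lit 93632) (nb (nat_lit 0x100000000000000020000000000000003) (nat_lit 64) (nat_lit 0)))), (nb (nat_lit 0x100000000000000020000000000000003) (nat_lit 94912) (nb (nat_lit 0x1000000000000000200000000000000030000000000000004) (nat_lit 1216) (nat_lit 1)))⟩, ⟨(nat_lit 10), (nat_lit 24), (nb (nat_lit 0x100000000000000020000000000000003) (nat_lit 96128) (nb (nat_lit 2) (nat_lit 94848) (nb (nat_lit 0x1000000000000000200000000000000030000000000000004) (nat_lit 2432) (nat_lit 0)))), (nb (nat_lit 1) (nat_lit 96064) (nb (nat_lit 0x200000000000000040000000000000006) (nat_lit 94912) (nb (nat_lit 0x2000000000000000400000000000000060000000000000008) (nat_lit 1216) (nat_lit 0))))⟩, ⟨(nat_lit 14), (nat_lit 16), (nb (nat_lit 5) (nat_lit 96064) (nb (nat_lit 0x100000000000000020000000000000003) (nat_lit 1280) (nat_lit 0))), (nb (nat_lit 0x1000000000000000200000000000000030000000000000004) (nat_lit 94848) (nb (nat_lit 0x1000000000000000200000000000000030000000000000004)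 (nat_lit 2432) (nb (nat_lit 1) (nat_lit 1216) (nat_lit 0))))⟩, ⟨(nat_lit 22), (nat_lit 26), (nb (nat_lit 1) (nat_lit 94848) (nb (nat_lit 0x1000000000000000200000000000000030000000000000004) (nat_lit 93632) (nb (nat_lit 6) (nat_lit 1216) (nb (nat_lit 0x100000000000000020000000000000003) (nat_lit 64) (nat_lit 0))))), (nb (nat_lit 0x100000000000000020000000000000003) (nat_lit 94912) (nb (nat_lit 5) (nat_lit 2432) (nb (nat_lit 0x100000000000000020000000000000003) (nat_lit 1280) (nat_lit 1))))⟩]⟩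
def e639 : En := ⟨(nat_lit 68), (nat_lit 69904), (nat_lit 215), (nat_lit 504), [⟨(nat_lit 0), (nat_lit 48), (nb (nat_lit 1) (nat_lit 94848) (nb (nat_lit 0x1000000000000000200000000000000030000000000000004) (nat_lit 93632) (nb (nat_lit 0x100000000000000020000000000000003) (nat_lit 64) (nat_lit 0)))), (nb (nat_lit 0x100000000000000020000000000000003) (nat_lit 94912) (nb (nat_lit 0x1000000000000000200000000000000030000000000000004) (nat_lit 1216) (nat_lit 1)))⟩, ⟨(nat_lit 2), (nat_lit 58), (nb (nat_lit 5) (nat_lit 2432) (nat_lit 0)), (nb (nat_lit 10) (nat_lit 1216) (nat_lit 0))⟩, ⟨(nat_lit 4), (nat_lit 54), (nb (nat_lit 5) (nat_lit 96064) (nat_lit 0)), (nb (nat_lit 10) (nat_lit 94848) (nat_lit 0))⟩, ⟨(nat_lit 6), (nat_lit 46), (nb (nat_lit 5) (nat_lit 94848) (nat_lit 1)), (nb (nat_lit 0x1000000000000000200000000000000030000000000000004) (nat_lit 93632) (nb (nat_lit 5) (nat_lit 1216) (nb (nat_lit 0x100000000000000020000000000000003) (nat_lit 64) (nat_lit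 0))))⟩, ⟨(nat_lit 12), (nat_lit 26), (nb (nat_lit 0x100000000000000020000000000000003) (nat_lit 96128) (nb (nat_lit 2) (nat_lit 94848) (nb (nat_lit 0x1000000000000000200000000000000030000000000000004) (nat_lit 2432) (nat_lit 0)))), (nb (nat_lit 1) (nat_lit 96064) (nb (nat_lit 0x200000000000000040000000000000006) (nat_lit 94912) (nb (nat_lit 0x2000000000000000400000000000000060000000000000008) (nat_lit 1216) (nat_lit 0))))⟩, ⟨(nat_lit 16), (nat_lit 18), (nb (nat_lit 5) (nat_lit 96064) (nb (nat_lit 0x100000000000000020000000000000003) (nat_lit 1280) (nat_lit 0))), (nb (nat_lit 0x1000000000000000200000000000000030000000000000004) (nat_lit 94848) (nb (nat_lit 0x1000000000000000200000000000000030000000000000004) (nat_lit 2432) (nb (nat_lit 1) (nat_lit 1216) (nat_lit 0))))⟩, ⟨(nat_lit 24), (nat_lit 28), (nb (nat_lit 1) (nat_lit 94848) (nb (nat_lit 0x1000000000000000200000000000000030000000000000004) (nat_lit 93632) (nb (nat_lit 6) (nat_lit 1216) (nb (nat_lit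 0x100000000000000020000000000000003) (nat_lit 64) (nat_lit 0))))), (nb (nat_lit 0x100000000000000020000000000000003) (nat_lit 94912) (nb (nat_lit 5) (nat_lit 2432) (nb (nat_lit 0x100000000000000020000000000000003) (nat_lit 1280) (nat_lit 1))))⟩]⟩
def e640 : En := ⟨(nat_lit 50), (nat_lit 4113), (nat_lit 22), (nat_lit 8), [⟨(nat_lit 2), (nat_lit 20), (nat_lit 5), (nat_lit 0)⟩, ⟨(nat_lit 6), (nat_lit 14), (nat_lit 0), (nat_lit 0x1000000000000000200000000000000030000000000000004)⟩, ⟨(nat_lit 8), (nat_lit 18), (nat_lit 0x1000000000000000200000000000000030000000000000000), (nat_lit 1)⟩]⟩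
def e641 : En := ⟨(nat_lit 52), (nat_lit 65793), (nat_lit 22), (nat_lit 8), [⟨(nat_lit 0), (nat_lit 10), (nat_lit 0x1000000000000000200000000000000030000000000000000), (nat_lit 1)⟩, ⟨(nat_lit 4), (nat_lit 22), (nat_lit 5), (nat_lit 0)⟩, ⟨(nat_lit 8), (nat_lit 16), (nat_lit 0), (nat_lit 0x1000000000000000200000000000000030000000000000004)⟩]⟩
def e642 : En := ⟨(nat_lit 54), (nat_lit 69648), (nat_lit 22), (nat_lit 8), [⟨(nat_lit 0), (nat_lit 18), (nat_lit 0), (nat_lit 0x1000000000000000200000000000000030000000000000004)⟩, ⟨(nat_lit 2), (nat_lit 12), (nat_lit 0x1000000000000000200000000000000030000000000000000), (nat_lit 1)⟩, ⟨(nat_lit 6), (nat_lit 24), (nat_lit 5), (nat_lit 0)⟩]⟩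
def e643 : En := ⟨(nat_lit 56), (nat_lit 4353), (nat_lit 22), (nat_lit 8), [⟨(nat_lit 2), (nat_lit 10), (nat_lit 0), (nat_lit 0x1000000000000000200000000000000030000000000000004)⟩, ⟨(nat_lit 4), (nat_lit 14), (nat_lit 0x1000000000000000200000000000000030000000000000000), (nat_lit 1)⟩, ⟨(nat_lit 8), (nat_lit 26), (nat_lit 5), (nat_lit 0)⟩]⟩
def e644 : En := ⟨(nat_lit 58), (nat_lit 65808), (nat_lit 22), (nat_lit 8), [⟨(nat_lit 0), (nat_lit 28), (nat_lit 5), (nat_lit 0)⟩, ⟨(nat_lit 4), (nat_lit 12), (nat_lit 0), (nat_lit 0x1000000000000000200000000000000030000000000000004)⟩, ⟨(nat_lit 6), (nat_lit 16), (nat_lit 0x1000000000000000200000000000000030000000000000000), (nat_lit 1)⟩]⟩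
def e645 : En := ⟨(nat_lit 60), (nat_lit 4369), (nat_lit 270), (nat_lit 5400), [⟨(nat_lit 2), (nat_lit 40), (nb (nat_lit 0x3000000000000000200000000000000030000000000000003) (nat_lit 27968) (nb (nat_lit 3) (nat_lit 14656) (nb (nat_lit 0x1000000000000000100000000000000000000000000000001) (nat_lit 2432) (nat_lit 0x2000000000000000000000000000000000000000000000002)))), (nb (nat_lit 0x1000000000000000100000000000000010000000000000001) (nat_lit 29184) (nb (nat_lit 0x2000000000000000000000000000000020000000000000002) (nat_lit 26752) (nb (nat_lit 1) (nat_lit 15872) (nb (nat_lit 2) (nat_lit 13440) (nb (nat_lit 0x3000000000000000200000000000000000000000000000003) (nat_lit 1216) (nat_lit 0))))))⟩, ⟨(nat_lit 4), (nat_lit 50), (nb (nat_lit 1) (nat_lit 17024) (nb (nat_lit 1) (nat_lit 15936) (nb (nat_lit 2) (nat_lit 14592) (nb (nat_lit 1) (nat_lit 3648) (nb (nat_lit 1) (nat_lit 2560) (nb (nat_lit 2) (nat_lit 1216) (nat_lit 0))))))), (nb (nat_lit 3) (nat_lit 15808)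 (nb (nat_lit 2) (nat_lit 14720) (nb (nat_lit 3) (nat_lit 2432) (nb (nat_lit 2) (nat_lit 1344) (nat_lit 0)))))⟩, ⟨(nat_lit 6), (nat_lit 56), (nb (nat_lit 1) (nat_lit 30400) (nb (nat_lit 1) (nat_lit 29312) (nb (nat_lit 2) (nat_lit 27968) (nb (nat_lit 1) (nat_lit 17024) (nb (nat_lit 1) (nat_lit 15936) (nb (nat_lit 2) (nat_lit 14592) (nat_lit 0))))))), (nb (nat_lit 3) (nat_lit 29184) (nb (nat_lit 2) (nat_lit 28096) (nb (nat_lit 3) (nat_lit 15808) (nb (nat_lit 2) (nat_lit 14720) (nat_lit 0)))))⟩, ⟨(nat_lit 8), (nat_lit 48), (nb (nat_lit 1) (nat_lit 29184) (nb (nat_lit 0x2000000000000000000000000000000020000000000000002) (nat_lit 26752) (nb (nat_lit 2) (nat_lit 13440) (nb (nat_lit 0x1000000000000000000000000000000000000000000000003) (nat_lit 1216) (nat_lit 0))))), (nb (nat_lit 0x1000000000000000000000000000000010000000000000003) (nat_lit 27968) (nb (nat_lit 1) (nat_lit 14656) (nb (nat_lit 1) (nat_lit 2432) (nat_lit 0x2000000000000000000000000000000000000000000000002))))⟩,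 ⟨(nat_lit 10), (nat_lit 18), (nb (nat_lit 0x1000000000000000000000000000000010000000000000003) (nat_lit 29184) (nb (nat_lit 0x1000000000000000100000000000000010000000000000001) (nat_lit 17024) (nb (nat_lit 0x4000000000000000200000000000000020000000000000002) (nat_lit 14592) (nb (nat_lit 0x3000000000000000200000000000000000000000000000003) (nat_lit 2432) (nat_lit 0))))), (nb (nat_lit 1) (nat_lit 30400) (nb (nat_lit 0x2000000000000000000000000000000020000000000000002) (nat_lit 27968) (nb (nat_lit 0x4000000000000000300000000000000030000000000000003) (nat_lit 15808) (nb (nat_lit 0x1000000000000000100000000000000000000000000000001) (nat_lit 3648) (nb (nat_lit 0x2000000000000000000000000000000000000000000000002) (nat_lit 1216) (nat_lit 0))))))⟩, ⟨(nat_lit 14), (nat_lit 28), (nb (nat_lit 0x1000000000000000100000000000000010000000000000001) (nat_lit 30400) (nb (nat_lit 0x4000000000000000200000000000000040000000000000002) (nat_lit 27968) (nb (nat_lit 1) (nat_lit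 17088) (nb (nat_lit 4) (nat_lit 14656) (nb (nat_lit 0x4000000000000000300000000000000000000000000000003) (nat_lit 2432) (nat_lit 0)))))), (nb (nat_lit 0x4000000000000000300000000000000040000000000000003) (nat_lit 29184) (nb (nat_lit 4) (nat_lit 15872) (nb (nat_lit 0x1000000000000000100000000000000000000000000000001) (nat_lit 3648) (nb (nat_lit 0x4000000000000000200000000000000000000000000000002) (nat_lit 1216) (nat_lit 0)))))⟩, ⟨(nat_lit 20), (nat_lit 26), (nb (nat_lit 0x1000000000000000100000000000000010000000000000001) (nat_lit 29184) (nb (nat_lit 0x2000000000000000000000000000000020000000000000002) (nat_lit 26752) (nb (nat_lit 1) (nat_lit 17024) (nb (nat_lit 0x10000000000000001) (nat_lit 15872) (nb (nat_lit 2) (nat_lit 14592) (nb (nat_lit 2) (nat_lit 13440) (nb (nat_lit 1) (nat_lit 3648) (nb (nat_lit 0x3000000000000000000000000000000000000000000000005) (nat_lit 1216) (nat_lit 0))))))))), (nb (nat_lit 0x3000000000000000200000000000000030000000000000003)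 (nat_lit 27968) (nb (nat_lit 3) (nat_lit 15808) (nb (nat_lit 0x20000000000000003) (nat_lit 14656) (nb (nat_lit 0x1000000000000000000000000000000000000000000000004) (nat_lit 2432) (nat_lit 0x2000000000000000000000000000000000000000000000002)))))⟩]⟩
def e646 : En := ⟨(nat_lit 62), (nat_lit 65809), (nat_lit 270), (nat_lit 5400), [⟨(nat_lit 0), (nat_lit 40), (nb (nat_lit 1) (nat_lit 29184) (nb (nat_lit 0x2000000000000000000000000000000020000000000000002) (nat_lit 26752) (nb (nat_lit 2) (nat_lit 13440) (nb (nat_lit 0x1000000000000000000000000000000000000000000000003) (nat_lit 1216) (nat_lit 0))))), (nb (nat_lit 0x1000000000000000000000000000000010000000000000003) (nat_lit 27968) (nb (nat_lit 1) (nat_lit 14656) (nb (nat_lit 1) (nat_lit 2432) (nat_lit 0x2000000000000000000000000000000000000000000000002))))⟩, ⟨(nat_lit 4), (nat_lit 42), (nb (nat_lit 0x3000000000000000200000000000000030000000000000003) (nat_lit 27968) (nb (nat_lit 3) (nat_lit 14656) (nb (nat_lit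 0x1000000000000000100000000000000000000000000000001) (nat_lit 2432) (nat_lit 0x2000000000000000000000000000000000000000000000002)))), (nb (nat_lit 0x1000000000000000100000000000000010000000000000001) (nat_lit 29184) (nb (nat_lit 0x2000000000000000000000000000000020000000000000002) (nat_lit 26752) (nb (nat_lit 1) (nat_lit 15872) (nb (nat_lit 2) (nat_lit 13440) (nb (nat_lit 0x3000000000000000200000000000000000000000000000003) (nat_lit 1216) (nat_lit 0))))))⟩, ⟨(nat_lit 6), (nat_lit 52), (nb (nat_lit 1) (nat_lit 17024) (nb (nat_lit 1) (nat_lit 15936) (nb (nat_lit 2) (nat_lit 14592) (nb (nat_lit 1) (nat_lit 3648) (nb (nat_lit 1) (nat_lit 2560) (nb (nat_lit 2) (nat_lit 1216) (nat_lit 0))))))), (nb (nat_lit 3) (nat_lit 15808) (nb (nat_lit 2) (nat_lit 14720) (nb (nat_lit 3) (nat_lit 2432) (nb (nat_lit 2) (nat_lit 1344) (nat_lit 0)))))⟩, ⟨(nat_lit 8), (nat_lit 58), (nb (nat_lit 1) (nat_lit 30400) (nb (nat_lit 1) (nat_lit 29312) (nb (nat_lit 2) (nat_lit 27968)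 (nb (nat_lit 1) (nat_lit 17024) (nb (nat_lit 1) (nat_lit 15936) (nb (nat_lit 2) (nat_lit 14592) (nat_lit 0))))))), (nb (nat_lit 3) (nat_lit 29184) (nb (nat_lit 2) (nat_lit 28096) (nb (nat_lit 3) (nat_lit 15808) (nb (nat_lit 2) (nat_lit 14720) (nat_lit 0)))))⟩, ⟨(nat_lit 10), (nat_lit 12), (nb (nat_lit 1) (nat_lit 30400) (nb (nat_lit 0x2000000000000000000000000000000020000000000000002) (nat_lit 27968) (nb (nat_lit 0x4000000000000000300000000000000030000000000000003) (nat_lit 15808) (nb (nat_lit 0x1000000000000000100000000000000000000000000000001) (nat_lit 3648) (nb (nat_lit 0x2000000000000000000000000000000000000000000000002) (nat_lit 1216) (nat_lit 0)))))), (nb (nat_lit 0x1000000000000000000000000000000010000000000000003) (nat_lit 29184) (nb (nat_lit 0x1000000000000000100000000000000010000000000000001) (nat_lit 17024) (nb (nat_lit 0x4000000000000000200000000000000020000000000000002) (nat_lit 14592) (nb (nat_lit 0x3000000000000000200000000000000000000000000000003)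 (nat_lit 2432) (nat_lit 0)))))⟩, ⟨(nat_lit 16), (nat_lit 20), (nb (nat_lit 0x1000000000000000100000000000000010000000000000001) (nat_lit 30400) (nb (nat_lit 0x4000000000000000200000000000000040000000000000002) (nat_lit 27968) (nb (nat_lit 1) (nat_lit 17088) (nb (nat_lit 4) (nat_lit 14656) (nb (nat_lit 0x4000000000000000300000000000000000000000000000003) (nat_lit 2432) (nat_lit 0)))))), (nb (nat_lit 0x4000000000000000300000000000000040000000000000003) (nat_lit 29184) (nb (nat_lit 4) (nat_lit 15872) (nb (nat_lit 0x1000000000000000100000000000000000000000000000001) (nat_lit 3648) (nb (nat_lit 0x4000000000000000200000000000000000000000000000002) (nat_lit 1216) (nat_lit 0)))))⟩, ⟨(nat_lit 22), (nat_lit 28), (nb (nat_lit 0x1000000000000000100000000000000010000000000000001) (nat_lit 29184) (nb (nat_lit 0x2000000000000000000000000000000020000000000000002) (nat_lit 26752) (nb (nat_lit 1) (nat_lit 17024) (nb (nat_lit 0x10000000000000001) (nat_lit 15872) (nb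 (nat_lit 2) (nat_lit 14592) (nb (nat_lit 2) (nat_lit 13440) (nb (nat_lit 1) (nat_lit 3648) (nb (nat_lit 0x3000000000000000000000000000000000000000000000005) (nat_lit 1216) (nat_lit 0))))))))), (nb (nat_lit 0x3000000000000000200000000000000030000000000000003) (nat_lit 27968) (nb (nat_lit 3) (nat_lit 15808) (nb (nat_lit 0x20000000000000003) (nat_lit 14656) (nb (nat_lit 0x1000000000000000000000000000000000000000000000004) (nat_lit 2432) (nat_lit 0x2000000000000000000000000000000000000000000000002)))))⟩]⟩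
def e647 : En := ⟨(nat_lit 64), (nat_lit 69649), (nat_lit 270), (nat_lit 5400), [⟨(nat_lit 0), (nat_lit 50), (nb (nat_lit 1) (nat_lit 30400) (nb (nat_lit 1) (nat_lit 29312) (nb (nat_lit 2) (nat_lit 27968) (nb (nat_lit 1) (nat_lit 17024) (nb (nat_lit 1) (nat_lit 15936) (nb (nat_lit 2) (nat_lit 14592) (nat_lit 0))))))), (nb (nat_lit 3) (nat_lit 29184) (nb (nat_lit 2) (nat_lit 28096) (nb (nat_lit 3) (nat_lit 15808) (nb (nat_lit 2) (nat_lit 14720) (nat_lit 0)))))⟩, ⟨(nat_lit 2), (nat_lit 42), (nb (nat_lit 1) (nat_lit 29184) (nb (nat_lit 0x2000000000000000000000000000000020000000000000002) (nat_lit 26752) (nb (nat_lit 2) (nat_lit 13440) (nb (nat_lit 0x1000000000000000000000000000000000000000000000003) (nat_lit 1216) (nat_lit 0))))), (nb (nat_lit 0x1000000000000000000000000000000010000000000000003) (nat_lit 27968) (nb (nat_lit 1) (nat_lit 14656) (nb (nat_lit 1) (nat_lit 2432) (nat_lit 0x2000000000000000000000000000000000000000000000002))))⟩, ⟨(nat_lit 6),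 (nat_lit 44), (nb (nat_lit 0x3000000000000000200000000000000030000000000000003) (nat_lit 27968) (nb (nat_lit 3) (nat_lit 14656) (nb (nat_lit 0x1000000000000000100000000000000000000000000000001) (nat_lit 2432) (nat_lit 0x2000000000000000000000000000000000000000000000002)))), (nb (nat_lit 0x1000000000000000100000000000000010000000000000001) (nat_lit 29184) (nb (nat_lit 0x2000000000000000000000000000000020000000000000002) (nat_lit 26752) (nb (nat_lit 1) (nat_lit 15872) (nb (nat_lit 2) (nat_lit 13440) (nb (nat_lit 0x3000000000000000200000000000000000000000000000003) (nat_lit 1216) (nat_lit 0))))))⟩, ⟨(nat_lit 8), (nat_lit 54), (nb (nat_lit 1) (nat_lit 17024) (nb (nat_lit 1) (nat_lit 15936) (nb (nat_lit 2) (nat_lit 14592) (nb (nat_lit 1) (nat_lit 3648) (nb (nat_lit 1) (nat_lit 2560) (nb (nat_lit 2) (nat_lit 1216) (nat_lit 0))))))), (nb (nat_lit 3) (nat_lit 15808) (nb (nat_lit 2) (nat_lit 14720) (nb (nat_lit 3) (nat_lit 2432) (nb (nat_lit 2) (nat_lit 1344)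 (nat_lit 0)))))⟩, ⟨(nat_lit 12), (nat_lit 14), (nb (nat_lit 1) (nat_lit 30400) (nb (nat_lit 0x2000000000000000000000000000000020000000000000002) (nat_lit 27968) (nb (nat_lit 0x4000000000000000300000000000000030000000000000003) (nat_lit 15808) (nb (nat_lit 0x1000000000000000100000000000000000000000000000001) (nat_lit 3648) (nb (nat_lit 0x2000000000000000000000000000000000000000000000002) (nat_lit 1216) (nat_lit 0)))))), (nb (nat_lit 0x1000000000000000000000000000000010000000000000003) (nat_lit 29184) (nb (nat_lit 0x1000000000000000100000000000000010000000000000001) (nat_lit 17024) (nb (nat_lit 0x4000000000000000200000000000000020000000000000002) (nat_lit 14592) (nb (nat_lit 0x3000000000000000200000000000000000000000000000003) (nat_lit 2432) (nat_lit 0)))))⟩, ⟨(nat_lit 18), (nat_lit 22), (nb (nat_lit 0x1000000000000000100000000000000010000000000000001) (nat_lit 30400) (nb (nat_lit 0x4000000000000000200000000000000040000000000000002) (nat_lit 27968)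 (nb (nat_lit 1) (nat_lit 17088) (nb (nat_lit 4) (nat_lit 14656) (nb (nat_lit 0x4000000000000000300000000000000000000000000000003) (nat_lit 2432) (nat_lit 0)))))), (nb (nat_lit 0x4000000000000000300000000000000040000000000000003) (nat_lit 29184) (nb (nat_lit 4) (nat_lit 15872) (nb (nat_lit 0x1000000000000000100000000000000000000000000000001) (nat_lit 3648) (nb (nat_lit 0x4000000000000000200000000000000000000000000000002) (nat_lit 1216) (nat_lit 0)))))⟩, ⟨(nat_lit 20), (nat_lit 24), (nb (nat_lit 0x3000000000000000200000000000000030000000000000003) (nat_lit 27968) (nb (nat_lit 3) (nat_lit 15808) (nb (nat_lit 0x20000000000000003) (nat_lit 14656) (nb (nat_lit 0x1000000000000000000000000000000000000000000000004) (nat_lit 2432) (nat_lit 0x2000000000000000000000000000000000000000000000002))))), (nb (nat_lit 0x1000000000000000100000000000000010000000000000001) (nat_lit 29184) (nb (nat_lit 0x2000000000000000000000000000000020000000000000002) (nat_lit 26752)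 (nb (nat_lit 1) (nat_lit 17024) (nb (nat_lit 0x10000000000000001) (nat_lit 15872) (nb (nat_lit 2) (nat_lit 14592) (nb (nat_lit 2) (nat_lit 13440) (nb (nat_lit 1) (nat_lit 3648) (nb (nat_lit 0x3000000000000000000000000000000000000000000000005) (nat_lit 1216) (nat_lit 0)))))))))⟩]⟩
def e648 : En := ⟨(nat_lit 66), (nat_lit 69889), (nat_lit 270), (nat_lit 5400), [⟨(nat_lit 0), (nat_lit 56), (nb (nat_lit 1) (nat_lit 17024) (nb (nat_lit 1) (nat_lit 15936) (nb (nat_lit 2) (nat_lit 14592) (nb (nat_lit 1) (nat_lit 3648) (nb (nat_lit 1) (nat_lit 2560) (nb (nat_lit 2) (nat_lit 1216) (nat_lit 0))))))), (nb (nat_lit 3) (nat_lit 15808) (nb (nat_lit 2) (nat_lit 14720) (nb (nat_lit 3) (nat_lit 2432) (nb (nat_lit 2) (nat_lit 1344) (nat_lit 0)))))⟩, ⟨(nat_lit 2), (nat_lit 52), (nb (nat_lit 1) (nat_lit 30400) (nb (nat_lit 1) (nat_lit 29312) (nb (nat_lit 2) (nat_lit 27968) (nb (nat_lit 1) (nat_lit 17024) (nb (nat_lit 1) (nat_lit 15936) (nb (nat_lit 2) (nat_lit 14592)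 (nat_lit 0))))))), (nb (nat_lit 3) (nat_lit 29184) (nb (nat_lit 2) (nat_lit 28096) (nb (nat_lit 3) (nat_lit 15808) (nb (nat_lit 2) (nat_lit 14720) (nat_lit 0)))))⟩, ⟨(nat_lit 4), (nat_lit 44), (nb (nat_lit 1) (nat_lit 29184) (nb (nat_lit 0x2000000000000000000000000000000020000000000000002) (nat_lit 26752) (nb (nat_lit 2) (nat_lit 13440) (nb (nat_lit 0x1000000000000000000000000000000000000000000000003) (nat_lit 1216) (nat_lit 0))))), (nb (nat_lit 0x1000000000000000000000000000000010000000000000003) (nat_lit 27968) (nb (nat_lit 1) (nat_lit 14656) (nb (nat_lit 1) (nat_lit 2432) (nat_lit 0x2000000000000000000000000000000000000000000000002))))⟩, ⟨(nat_lit 8), (nat_lit 46), (nb (nat_lit 0x3000000000000000200000000000000030000000000000003) (nat_lit 27968) (nb (nat_lit 3) (nat_lit 14656) (nb (nat_lit 0x1000000000000000100000000000000000000000000000001) (nat_lit 2432) (nat_lit 0x2000000000000000000000000000000000000000000000002)))), (nb (nat_lit 0x1000000000000000100000000000000010000000000000001)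 (nat_lit 29184) (nb (nat_lit 0x2000000000000000000000000000000020000000000000002) (nat_lit 26752) (nb (nat_lit 1) (nat_lit 15872) (nb (nat_lit 2) (nat_lit 13440) (nb (nat_lit 0x3000000000000000200000000000000000000000000000003) (nat_lit 1216) (nat_lit 0))))))⟩, ⟨(nat_lit 10), (nat_lit 24), (nb (nat_lit 0x1000000000000000100000000000000010000000000000001) (nat_lit 30400) (nb (nat_lit 0x4000000000000000200000000000000040000000000000002) (nat_lit 27968) (nb (nat_lit 1) (nat_lit 17088) (nb (nat_lit 4) (nat_lit 14656) (nb (nat_lit 0x4000000000000000300000000000000000000000000000003) (nat_lit 2432) (nat_lit 0)))))), (nb (nat_lit 0x4000000000000000300000000000000040000000000000003) (nat_lit 29184) (nb (nat_lit 4) (nat_lit 15872) (nb (nat_lit 0x1000000000000000100000000000000000000000000000001) (nat_lit 3648) (nb (nat_lit 0x4000000000000000200000000000000000000000000000002) (nat_lit 1216) (nat_lit 0)))))⟩, ⟨(nat_lit 14), (nat_lit 16), (nb (nat_lit 1) (nat_lit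 30400) (nb (nat_lit 0x2000000000000000000000000000000020000000000000002) (nat_lit 27968) (nb (nat_lit 0x4000000000000000300000000000000030000000000000003) (nat_lit 15808) (nb (nat_lit 0x1000000000000000100000000000000000000000000000001) (nat_lit 3648) (nb (nat_lit 0x2000000000000000000000000000000000000000000000002) (nat_lit 1216) (nat_lit 0)))))), (nb (nat_lit 0x1000000000000000000000000000000010000000000000003) (nat_lit 29184) (nb (nat_lit 0x1000000000000000100000000000000010000000000000001) (nat_lit 17024) (nb (nat_lit 0x4000000000000000200000000000000020000000000000002) (nat_lit 14592) (nb (nat_lit 0x3000000000000000200000000000000000000000000000003) (nat_lit 2432) (nat_lit 0)))))⟩, ⟨(nat_lit 22), (nat_lit 26), (nb (nat_lit 0x3000000000000000200000000000000030000000000000003) (nat_lit 27968) (nb (nat_lit 3) (nat_lit 15808) (nb (nat_lit 0x20000000000000003) (nat_lit 14656) (nb (nat_lit 0x1000000000000000000000000000000000000000000000004) (nat_lit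 2432) (nat_lit 0x2000000000000000000000000000000000000000000000002))))), (nb (nat_lit 0x1000000000000000100000000000000010000000000000001) (nat_lit 29184) (nb (nat_lit 0x2000000000000000000000000000000020000000000000002) (nat_lit 26752) (nb (nat_lit 1) (nat_lit 17024) (nb (nat_lit 0x10000000000000001) (nat_lit 15872) (nb (nat_lit 2) (nat_lit 14592) (nb (nat_lit 2) (nat_lit 13440) (nb (nat_lit 1) (nat_lit 3648) (nb (nat_lit 0x3000000000000000000000000000000000000000000000005) (nat_lit 1216) (nat_lit 0)))))))))⟩]⟩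
def e649 : En := ⟨(nat_lit 68), (nat_lit 69904), (nat_lit 270), (nat_lit 5400), [⟨(nat_lit 0), (nat_lit 48), (nb (nat_lit 0x3000000000000000200000000000000030000000000000003) (nat_lit 27968) (nb (nat_lit 3) (nat_lit 14656) (nb (nat_lit 0x1000000000000000100000000000000000000000000000001) (nat_lit 2432) (nat_lit 0x2000000000000000000000000000000000000000000000002)))), (nb (nat_lit 0x1000000000000000100000000000000010000000000000001) (nat_lit 29184) (nb (nat_lit 0x2000000000000000000000000000000020000000000000002) (nat_lit 26752) (nb (nat_lit 1) (nat_lit 15872) (nb (nat_lit 2) (nat_lit 13440) (nb (nat_lit 0x3000000000000000200000000000000000000000000000003) (nat_lit 1216) (nat_lit 0))))))⟩, ⟨(nat_lit 2), (nat_lit 58), (nb (nat_lit 1) (nat_lit 17024) (nb (nat_lit 1) (nat_lit 15936) (nb (nat_lit 2) (nat_lit 14592) (nb (nat_lit 1) (nat_lit 3648) (nb (nat_lit 1) (nat_lit 2560) (nb (nat_lit 2) (nat_lit 1216) (nat_lit 0))))))), (nb (nat_lit 3) (nat_lit 15808)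 (nb (nat_lit 2) (nat_lit 14720) (nb (nat_lit 3) (nat_lit 2432) (nb (nat_lit 2) (nat_lit 1344) (nat_lit 0)))))⟩, ⟨(nat_lit 4), (nat_lit 54), (nb (nat_lit 1) (nat_lit 30400) (nb (nat_lit 1) (nat_lit 29312) (nb (nat_lit 2) (nat_lit 27968) (nb (nat_lit 1) (nat_lit 17024) (nb (nat_lit 1) (nat_lit 15936) (nb (nat_lit 2) (nat_lit 14592) (nat_lit 0))))))), (nb (nat_lit 3) (nat_lit 29184) (nb (nat_lit 2) (nat_lit 28096) (nb (nat_lit 3) (nat_lit 15808) (nb (nat_lit 2) (nat_lit 14720) (nat_lit 0)))))⟩, ⟨(nat_lit 6), (nat_lit 46), (nb (nat_lit 1) (nat_lit 29184) (nb (nat_lit 0x2000000000000000000000000000000020000000000000002) (nat_lit 26752) (nb (nat_lit 2) (nat_lit 13440) (nb (nat_lit 0x1000000000000000000000000000000000000000000000003) (nat_lit 1216) (nat_lit 0))))), (nb (nat_lit 0x1000000000000000000000000000000010000000000000003) (nat_lit 27968) (nb (nat_lit 1) (nat_lit 14656) (nb (nat_lit 1) (nat_lit 2432) (nat_lit 0x2000000000000000000000000000000000000000000000002))))⟩,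 ⟨(nat_lit 12), (nat_lit 26), (nb (nat_lit 0x1000000000000000100000000000000010000000000000001) (nat_lit 30400) (nb (nat_lit 0x4000000000000000200000000000000040000000000000002) (nat_lit 27968) (nb (nat_lit 1) (nat_lit 17088) (nb (nat_lit 4) (nat_lit 14656) (nb (nat_lit 0x4000000000000000300000000000000000000000000000003) (nat_lit 2432) (nat_lit 0)))))), (nb (nat_lit 0x4000000000000000300000000000000040000000000000003) (nat_lit 29184) (nb (nat_lit 4) (nat_lit 15872) (nb (nat_lit 0x1000000000000000100000000000000000000000000000001) (nat_lit 3648) (nb (nat_lit 0x4000000000000000200000000000000000000000000000002) (nat_lit 1216) (nat_lit 0)))))⟩, ⟨(nat_lit 16), (nat_lit 18), (nb (nat_lit 1) (nat_lit 30400) (nb (nat_lit 0x2000000000000000000000000000000020000000000000002) (nat_lit 27968) (nb (nat_lit 0x4000000000000000300000000000000030000000000000003) (nat_lit 15808) (nb (nat_lit 0x1000000000000000100000000000000000000000000000001) (nat_lit 3648) (nb (nat_lit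 0x2000000000000000000000000000000000000000000000002) (nat_lit 1216) (nat_lit 0)))))), (nb (nat_lit 0x1000000000000000000000000000000010000000000000003) (nat_lit 29184) (nb (nat_lit 0x1000000000000000100000000000000010000000000000001) (nat_lit 17024) (nb (nat_lit 0x4000000000000000200000000000000020000000000000002) (nat_lit 14592) (nb (nat_lit 0x3000000000000000200000000000000000000000000000003) (nat_lit 2432) (nat_lit 0)))))⟩, ⟨(nat_lit 24), (nat_lit 28), (nb (nat_lit 0x3000000000000000200000000000000030000000000000003) (nat_lit 27968) (nb (nat_lit 3) (nat_lit 15808) (nb (nat_lit 0x20000000000000003) (nat_lit 14656) (nb (nat_lit 0x1000000000000000000000000000000000000000000000004) (nat_lit 2432) (nat_lit 0x2000000000000000000000000000000000000000000000002))))), (nb (nat_lit 0x1000000000000000100000000000000010000000000000001) (nat_lit 29184) (nb (nat_lit 0x2000000000000000000000000000000020000000000000002) (nat_lit 26752) (nb (nat_lit 1) (nat_lit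 17024) (nb (nat_lit 0x10000000000000001) (nat_lit 15872) (nb (nat_lit 2) (nat_lit 14592) (nb (nat_lit 2) (nat_lit 13440) (nb (nat_lit 1) (nat_lit 3648) (nb (nat_lit 0x3000000000000000000000000000000000000000000000005) (nat_lit 1216) (nat_lit 0)))))))))⟩]⟩
def e650 : En := ⟨(nat_lit 40), (nat_lit 273), (nat_lit 24), (nat_lit 180), [⟨(nat_lit 4), (nat_lit 20), (nb (nat_lit 1) (nat_lit 14592) (nb (nat_lit 1) (nat_lit 13504) (nb (nat_lit 1) (nat_lit 1216) (nb (nat_lit 1) (nat_lit 128) (nat_lit 0))))), (nb (nat_lit 1) (nat_lit 13376) (nat_lit 1))⟩, ⟨(nat_lit 6), (nat_lit 10), (nb (nat_lit 1) (nat_lit 15808) (nb (nat_lit 1) (nat_lit 14720) (nb (nat_lit 1) (nat_lit 2432) (nb (nat_lit 1) (nat_lit 1344) (nat_lit 0))))), (nb (nat_lit 1) (nat_lit 14592) (nb (nat_lit 1) (nat_lit 1216) (nat_lit 0)))⟩, ⟨(nat_lit 8), (nat_lit 28), (nb (nat_lit 1) (nat_lit 15808) (nb (nat_lit 1) (nat_lit 14720) (nb (nat_lit 1) (nat_lit 13376) (nb (nat_lit 1) (nat_lit 2432) (nb (nat_lit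 1) (nat_lit 1344) (nat_lit 1)))))), (nb (nat_lit 2) (nat_lit 14592) (nb (nat_lit 1) (nat_lit 13504) (nb (nat_lit 2) (nat_lit 1216) (nb (nat_lit 1) (nat_lit 128) (nat_lit 0)))))⟩]⟩
def e651 : En := ⟨(nat_lit 42), (nat_lit 65553), (nat_lit 24), (nat_lit 180), [⟨(nat_lit 0), (nat_lit 20), (nb (nat_lit 1) (nat_lit 15808) (nb (nat_lit 1) (nat_lit 14720) (nb (nat_lit 1) (nat_lit 13376) (nb (nat_lit 1) (nat_lit 2432) (nb (nat_lit 1) (nat_lit 1344) (nat_lit 1)))))), (nb (nat_lit 2) (nat_lit 14592) (nb (nat_lit 1) (nat_lit 13504) (nb (nat_lit 2) (nat_lit 1216) (nb (nat_lit 1) (nat_lit 128) (nat_lit 0)))))⟩, ⟨(nat_lit 6), (nat_lit 22), (nb (nat_lit 1) (nat_lit 14592) (nb (nat_lit 1) (nat_lit 13504) (nb (nat_lit 1) (nat_lit 1216) (nb (nat_lit 1) (nat_lit 128) (nat_lit 0))))), (nb (nat_lit 1) (nat_lit 13376) (nat_lit 1))⟩, ⟨(nat_lit 8), (nat_lit 12), (nb (nat_lit 1) (nat_lit 15808) (nb (nat_lit 1) (nat_lit 14720) (nb (nat_lit 1) (nat_lit 2432) (nb (nat_lit 1)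 (nat_lit 1344) (nat_lit 0))))), (nb (nat_lit 1) (nat_lit 14592) (nb (nat_lit 1) (nat_lit 1216) (nat_lit 0)))⟩]⟩
def e652 : En := ⟨(nat_lit 44), (nat_lit 69633), (nat_lit 24), (nat_lit 180), [⟨(nat_lit 0), (nat_lit 14), (nb (nat_lit 1) (nat_lit 15808) (nb (nat_lit 1) (nat_lit 14720) (nb (nat_lit 1) (nat_lit 2432) (nb (nat_lit 1) (nat_lit 1344) (nat_lit 0))))), (nb (nat_lit 1) (nat_lit 14592) (nb (nat_lit 1) (nat_lit 1216) (nat_lit 0)))⟩, ⟨(nat_lit 2), (nat_lit 22), (nb (nat_lit 1) (nat_lit 15808) (nb (nat_lit 1) (nat_lit 14720) (nb (nat_lit 1) (nat_lit 13376) (nb (nat_lit 1) (nat_lit 2432) (nb (nat_lit 1) (nat_lit 1344) (nat_lit 1)))))), (nb (nat_lit 2) (nat_lit 14592) (nb (nat_lit 1) (nat_lit 13504) (nb (nat_lit 2) (nat_lit 1216) (nb (nat_lit 1) (nat_lit 128) (nat_lit 0)))))⟩, ⟨(nat_lit 8), (nat_lit 24), (nb (nat_lit 1) (nat_lit 14592) (nb (nat_lit 1) (nat_lit 13504) (nb (nat_lit 1) (nat_lit 1216) (nb (nat_lit 1) (nat_lit 128) (nat_lit 0))))), (nb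 (nat_lit 1) (nat_lit 13376) (nat_lit 1))⟩]⟩
def e653 : En := ⟨(nat_lit 46), (nat_lit 69888), (nat_lit 24), (nat_lit 180), [⟨(nat_lit 0), (nat_lit 26), (nb (nat_lit 1) (nat_lit 14592) (nb (nat_lit 1) (nat_lit 13504) (nb (nat_lit 1) (nat_lit 1216) (nb (nat_lit 1) (nat_lit 128) (nat_lit 0))))), (nb (nat_lit 1) (nat_lit 13376) (nat_lit 1))⟩, ⟨(nat_lit 2), (nat_lit 16), (nb (nat_lit 1) (nat_lit 15808) (nb (nat_lit 1) (nat_lit 14720) (nb (nat_lit 1) (nat_lit 2432) (nb (nat_lit 1) (nat_lit 1344) (nat_lit 0))))), (nb (nat_lit 1) (nat_lit 14592) (nb (nat_lit 1) (nat_lit 1216) (nat_lit 0)))⟩, ⟨(nat_lit 4), (nat_lit 24), (nb (nat_lit 1) (nat_lit 15808) (nb (nat_lit 1) (nat_lit 14720) (nb (nat_lit 1) (nat_lit 13376) (nb (nat_lit 1) (nat_lit 2432) (nb (nat_lit 1) (nat_lit 1344) (nat_lit 1)))))), (nb (nat_lit 2) (nat_lit 14592) (nb (nat_lit 1) (nat_lit 13504) (nb (nat_lit 2) (nat_lit 1216) (nb (nat_lit 1) (nat_lit 128) (nat_lit 0)))))⟩]⟩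
def e654 : En := ⟨(nat_lit 48), (nat_lit 4368), (nat_lit 24), (nat_lit 180), [⟨(nat_lit 2), (nat_lit 28), (nb (nat_lit 1) (nat_lit 14592) (nb (nat_lit 1) (nat_lit 13504) (nb (nat_lit 1) (nat_lit 1216) (nb (nat_lit 1) (nat_lit 128) (nat_lit 0))))), (nb (nat_lit 1) (nat_lit 13376) (nat_lit 1))⟩, ⟨(nat_lit 4), (nat_lit 18), (nb (nat_lit 1) (nat_lit 15808) (nb (nat_lit 1) (nat_lit 14720) (nb (nat_lit 1) (nat_lit 2432) (nb (nat_lit 1) (nat_lit 1344) (nat_lit 0))))), (nb (nat_lit 1) (nat_lit 14592) (nb (nat_lit 1) (nat_lit 1216) (nat_lit 0)))⟩, ⟨(nat_lit 6), (nat_lit 26), (nb (nat_lit 1) (nat_lit 15808) (nb (nat_lit 1) (nat_lit 14720) (nb (nat_lit 1) (nat_lit 13376) (nb (nat_lit 1) (nat_lit 2432) (nb (nat_lit 1) (nat_lit 1344) (nat_lit 1)))))), (nb (nat_lit 2) (nat_lit 14592) (nb (nat_lit 1) (nat_lit 13504) (nb (nat_lit 2) (nat_lit 1216) (nb (nat_lit 1) (nat_lit 128) (nat_lit 0)))))⟩]⟩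
def e655 : En := ⟨(nat_lit 50), (nat_lit 4113), (nat_lit 42), (nat_lit 120), [⟨(nat_lit 2), (nat_lit 20), (nb (nat_lit 1) (nat_lit 14592) (nb (nat_lit 1) (nat_lit 13504) (nb (nat_lit 1) (nat_lit 1216) (nb (nat_lit 1) (nat_lit 128) (nat_lit 0))))), (nb (nat_lit 1) (nat_lit 13376) (nat_lit 1))⟩, ⟨(nat_lit 6), (nat_lit 14), (nb (nat_lit 0x2000000000000000000000000000000020000000000000002) (nat_lit 13376) (nb (nat_lit 0x1000000000000000100000000000000000000000000000001) (nat_lit 1216) (nat_lit 0))), (nb (nat_lit 0x1000000000000000100000000000000010000000000000002) (nat_lit 14592) (nat_lit 0x2000000000000000100000000000000000000000000000001))⟩, ⟨(nat_lit 8), (nat_lit 18), (nb (nat_lit 0x1000000000000000100000000000000010000000000000001) (nat_lit 14592) (nat_lit 0x2000000000000000000000000000000000000000000000002)), (nb (nat_lit 0x2000000000000000100000000000000020000000000000001) (nat_lit 13376) (nb (nat_lit 0x1000000000000000100000000000000000000000000000002)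 (nat_lit 1216) (nat_lit 0)))⟩]⟩
def e656 : En := ⟨(nat_lit 52), (nat_lit 65793), (nat_lit 42), (nat_lit 120), [⟨(nat_lit 0), (nat_lit 10), (nb (nat_lit 0x1000000000000000100000000000000010000000000000001) (nat_lit 14592) (nat_lit 0x2000000000000000000000000000000000000000000000002)), (nb (nat_lit 0x2000000000000000100000000000000020000000000000001) (nat_lit 13376) (nb (nat_lit 0x1000000000000000100000000000000000000000000000002) (nat_lit 1216) (nat_lit 0)))⟩, ⟨(nat_lit 4), (nat_lit 22), (nb (nat_lit 1) (nat_lit 14592) (nb (nat_lit 1) (nat_lit 13504) (nb (nat_lit 1) (nat_lit 1216) (nb (nat_lit 1) (nat_lit 128) (nat_lit 0))))), (nb (nat_lit 1) (nat_lit 13376) (nat_lit 1))⟩, ⟨(nat_lit 8), (nat_lit 16), (nb (nat_lit 0x2000000000000000000000000000000020000000000000002) (nat_lit 13376) (nb (nat_lit 0x1000000000000000100000000000000000000000000000001) (nat_lit 1216) (nat_lit 0))), (nb (nat_lit 0x1000000000000000100000000000000010000000000000002) (nat_lit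 14592) (nat_lit 0x2000000000000000100000000000000000000000000000001))⟩]⟩
def e657 : En := ⟨(nat_lit 54), (nat_lit 69648), (nat_lit 42), (nat_lit 120), [⟨(nat_lit 0), (nat_lit 18), (nb (nat_lit 0x2000000000000000000000000000000020000000000000002) (nat_lit 13376) (nb (nat_lit 0x1000000000000000100000000000000000000000000000001) (nat_lit 1216) (nat_lit 0))), (nb (nat_lit 0x1000000000000000100000000000000010000000000000002) (nat_lit 14592) (nat_lit 0x2000000000000000100000000000000000000000000000001))⟩, ⟨(nat_lit 2), (nat_lit 12), (nb (nat_lit 0x1000000000000000100000000000000010000000000000001) (nat_lit 14592) (nat_lit 0x2000000000000000000000000000000000000000000000002)), (nb (nat_lit 0x2000000000000000100000000000000020000000000000001) (nat_lit 13376) (nb (nat_lit 0x1000000000000000100000000000000000000000000000002) (nat_lit 1216) (nat_lit 0)))⟩, ⟨(nat_lit 6), (nat_lit 24), (nb (nat_lit 1) (nat_lit 14592) (nb (nat_lit 1) (nat_lit 13504) (nb (nat_lit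 1) (nat_lit 1216) (nb (nat_lit 1) (nat_lit 128) (nat_lit 0))))), (nb (nat_lit 1) (nat_lit 13376) (nat_lit 1))⟩]⟩
def e658 : En := ⟨(nat_lit 56), (nat_lit 4353), (nat_lit 42), (nat_lit 120), [⟨(nat_lit 2), (nat_lit 10), (nb (nat_lit 0x2000000000000000000000000000000020000000000000002) (nat_lit 13376) (nb (nat_lit 0x1000000000000000100000000000000000000000000000001) (nat_lit 1216) (nat_lit 0))), (nb (nat_lit 0x1000000000000000100000000000000010000000000000002) (nat_lit 14592) (nat_lit 0x2000000000000000100000000000000000000000000000001))⟩, ⟨(nat_lit 4), (nat_lit 14), (nb (nat_lit 0x1000000000000000100000000000000010000000000000001) (nat_lit 14592) (nat_lit 0x2000000000000000000000000000000000000000000000002)), (nb (nat_lit 0x2000000000000000100000000000000020000000000000001) (nat_lit 13376) (nb (nat_lit 0x1000000000000000100000000000000000000000000000002) (nat_lit 1216) (nat_lit 0)))⟩, ⟨(nat_lit 8), (nat_lit 26), (nb (nat_lit 1) (nat_lit 14592) (nb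 (nat_lit 1) (nat_lit 13504) (nb (nat_lit 1) (nat_lit 1216) (nb (nat_lit 1) (nat_lit 128) (nat_lit 0))))), (nb (nat_lit 1) (nat_lit 13376) (nat_lit 1))⟩]⟩
def e659 : En := ⟨(nat_lit 58), (nat_lit 65808), (nat_lit 42), (nat_lit 120), [⟨(nat_lit 0), (nat_lit 28), (nb (nat_lit 1) (nat_lit 14592) (nb (nat_lit 1) (nat_lit 13504) (nb (nat_lit 1) (nat_lit 1216) (nb (nat_lit 1) (nat_lit 128) (nat_lit 0))))), (nb (nat_lit 1) (nat_lit 13376) (nat_lit 1))⟩, ⟨(nat_lit 4), (nat_lit 12), (nb (nat_lit 0x2000000000000000000000000000000020000000000000002) (nat_lit 13376) (nb (nat_lit 0x1000000000000000100000000000000000000000000000001) (nat_lit 1216) (nat_lit 0))), (nb (nat_lit 0x1000000000000000100000000000000010000000000000002) (nat_lit 14592) (nat_lit 0x2000000000000000100000000000000000000000000000001))⟩, ⟨(nat_lit 6), (nat_lit 16), (nb (nat_lit 0x1000000000000000100000000000000010000000000000001) (nat_lit 14592) (nat_lit 0x2000000000000000000000000000000000000000000000002)),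 (nb (nat_lit 0x2000000000000000100000000000000020000000000000001) (nat_lit 13376) (nb (nat_lit 0x1000000000000000100000000000000000000000000000002) (nat_lit 1216) (nat_lit 0)))⟩]⟩
def e660 : En := ⟨(nat_lit 10), (nat_lit 257), (nat_lit 6), (nat_lit 60), [⟨(nat_lit 4), (nat_lit 8), (nb (nat_lit 1) (nat_lit 14592) (nb (nat_lit 1) (nat_lit 13504) (nb (nat_lit 1) (nat_lit 1216) (nb (nat_lit 1) (nat_lit 128) (nat_lit 0))))), (nb (nat_lit 1) (nat_lit 13376) (nat_lit 1))⟩]⟩
def e661 : En := ⟨(nat_lit 12), (nat_lit 65552), (nat_lit 6), (nat_lit 60), [⟨(nat_lit 0), (nat_lit 6), (nb (nat_lit 1) (nat_lit 13376) (nat_lit 1)), (nb (nat_lit 1) (nat_lit 14592) (nb (nat_lit 1) (nat_lit 13504) (nb (nat_lit 1) (nat_lit 1216) (nb (nat_lit 1) (nat_lit 128) (nat_lit 0)))))⟩]⟩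
def e662 : En := ⟨(nat_lit 14), (nat_lit 4097), (nat_lit 6), (nat_lit 60), [⟨(nat_lit 2), (nat_lit 8), (nb (nat_lit 1) (nat_lit 13376) (nat_lit 1)), (nb (nat_lit 1) (nat_lit 14592) (nb (nat_lit 1) (nat_lit 13504) (nb (nat_lit 1) (nat_lit 1216) (nb (nat_lit 1) (nat_lit 128) (nat_lit 0)))))⟩]⟩
def e663 : En := ⟨(nat_lit 16), (nat_lit 65792), (nat_lit 6), (nat_lit 60), [⟨(nat_lit 0), (nat_lit 4), (nb (nat_lit 1) (nat_lit 14592) (nb (nat_lit 1) (nat_lit 13504) (nb (nat_lit 1) (nat_lit 1216) (nb (nat_lit 1) (nat_lit 128) (nat_lit 0))))), (nb (nat_lit 1) (nat_lit 13376) (nat_lit 1))⟩]⟩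
def e664 : En := ⟨(nat_lit 18), (nat_lit 4112), (nat_lit 6), (nat_lit 60), [⟨(nat_lit 2), (nat_lit 6), (nb (nat_lit 1) (nat_lit 14592) (nb (nat_lit 1) (nat_lit 13504) (nb (nat_lit 1) (nat_lit 1216) (nb (nat_lit 1) (nat_lit 128) (nat_lit 0))))), (nb (nat_lit 1) (nat_lit 13376) (nat_lit 1))⟩]⟩
def e665 : En := ⟨(nat_lit 20), (nat_lit 17), (nat_lit 6), (nat_lit 60), [⟨(nat_lit 6), (nat_lit 8), (nb (nat_lit 1) (nat_lit 14592) (nb (nat_lit 1) (nat_lit 13504) (nb (nat_lit 1) (nat_lit 1216) (nb (nat_lit 1) (nat_lit 128) (nat_lit 0))))), (nb (nat_lit 1) (nat_lit 13376) (nat_lit 1))⟩]⟩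
def e666 : En := ⟨(nat_lit 22), (nat_lit 65537), (nat_lit 6), (nat_lit 60), [⟨(nat_lit 0), (nat_lit 8), (nb (nat_lit 1) (nat_lit 13376) (nat_lit 1)), (nb (nat_lit 1) (nat_lit 14592) (nb (nat_lit 1) (nat_lit 13504) (nb (nat_lit 1) (nat_lit 1216) (nb (nat_lit 1) (nat_lit 128) (nat_lit 0)))))⟩]⟩
def e667 : En := ⟨(nat_lit 24), (nat_lit 69632), (nat_lit 6), (nat_lit 60), [⟨(nat_lit 0), (nat_lit 2), (nb (nat_lit 1) (nat_lit 14592) (nb (nat_lit 1) (nat_lit 13504) (nb (nat_lit 1) (nat_lit 1216) (nb (nat_lit 1) (nat_lit 128) (nat_lit 0))))), (nb (nat_lit 1) (nat_lit 13376) (nat_lit 1))⟩]⟩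
def e668 : En := ⟨(nat_lit 26), (nat_lit 4352), (nat_lit 6), (nat_lit 60), [⟨(nat_lit 2), (nat_lit 4), (nb (nat_lit 1) (nat_lit 14592) (nb (nat_lit 1) (nat_lit 13504) (nb (nat_lit 1) (nat_lit 1216) (nb (nat_lit 1) (nat_lit 128) (nat_lit 0))))), (nb (nat_lit 1) (nat_lit 13376) (nat_lit 1))⟩]⟩
def e669 : En := ⟨(nat_lit 28), (nat_lit 272), (nat_lit 6), (nat_lit 60), [⟨(nat_lit 4), (nat_lit 6), (nb (nat_lit 1) (nat_lit 14592) (nb (nat_lit 1) (nat_lit 13504) (nb (nat_lit 1) (nat_lit 1216) (nb (nat_lit 1) (nat_lit 128) (nat_lit 0))))), (nb (nat_lit 1) (nat_lit 13376) (nat_lit 1))⟩]⟩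
def e670 : En := ⟨(nat_lit 73), (nat_lit 69905), (nat_lit 240), (nat_lit 1080), [⟨(nat_lit 0), (nat_lit 60), (nb (nat_lit 1) (nat_lit 1216) (nb (nat_lit 1) (nat_lit 128) (nat_lit 0))), (nat_lit 1)⟩, ⟨(nat_lit 2), (nat_lit 62), (nat_lit 0x1000000000000000100000000000000020000000000000001), (nb (nat_lit 0x1000000000000000100000000000000010000000000000001) (nat_lit 1216) (nat_lit 0))⟩, ⟨(nat_lit 4), (nat_lit 64), (nb (nat_lit 1) (nat_lit 1408) (nat_lit 1)), (nat_lit 0x1000000000000000000000000000000000000000000000000)⟩, ⟨(nat_lit 6), (nat_lit 66), (nb (nat_lit 1) (nat_lit 1344) (nat_lit 0)), (nat_lit 0x1000000000000000200000000000000010000000000000001)⟩, ⟨(nat_lit 8), (nat_lit 68), (nb (nat_lit 1) (nat_lit 1280) (nb (nat_lit 1) (nat_lit 192) (nat_lit 0))), (nat_lit 0x10000000000000000)⟩, ⟨(nat_lit 10), (nat_lit 54), (nb (nat_lit 3) (nat_lit 15872) (nb (nat_lit 2) (nat_lit 14784) (nb (nat_lit 1) (nat_lit 3840) (nb (nat_lit 1) (nat_lit 2432) (nb (nat_lit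 2) (nat_lit 1408) (nat_lit 0)))))), (nb (nat_lit 1) (nat_lit 17088) (nb (nat_lit 1) (nat_lit 16000) (nb (nat_lit 2) (nat_lit 14656) (nb (nat_lit 3) (nat_lit 2624) (nb (nat_lit 2) (nat_lit 1216) (nat_lit 0))))))⟩, ⟨(nat_lit 12), (nat_lit 56), (nb (nat_lit 3) (nat_lit 15808) (nb (nat_lit 2) (nat_lit 14720) (nb (nat_lit 1) (nat_lit 3776) (nb (nat_lit 0x2000000000000000400000000000000020000000000000002) (nat_lit 1216) (nat_lit 0))))), (nb (nat_lit 1) (nat_lit 17024) (nb (nat_lit 1) (nat_lit 15936) (nb (nat_lit 2) (nat_lit 14592) (nb (nat_lit 0x1000000000000000400000000000000010000000000000001) (nat_lit 2432) (nat_lit 0)))))⟩, ⟨(nat_lit 14), (nat_lit 58), (nb (nat_lit 0x1000000000000000100000000000000010000000000000001) (nat_lit 17024) (nb (nat_lit 0x2000000000000000200000000000000040000000000000002) (nat_lit 14592) (nb (nat_lit 1) (nat_lit 3712) (nb (nat_lit 1) (nat_lit 2624) (nb (nat_lit 2) (nat_lit 1280) (nat_lit 0)))))), (nb (nat_lit 0x3000000000000000300000000000000040000000000000003)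 (nat_lit 15808) (nb (nat_lit 3) (nat_lit 2496) (nb (nat_lit 2) (nat_lit 1408) (nat_lit 0))))⟩, ⟨(nat_lit 16), (nat_lit 50), (nb (nat_lit 3) (nat_lit 16000) (nb (nat_lit 2) (nat_lit 14592) (nb (nat_lit 1) (nat_lit 3648) (nb (nat_lit 1) (nat_lit 2560) (nb (nat_lit 2) (nat_lit 1216) (nat_lit 0)))))), (nb (nat_lit 1) (nat_lit 17216) (nb (nat_lit 1) (nat_lit 15808) (nb (nat_lit 2) (nat_lit 14784) (nb (nat_lit 3) (nat_lit 2432) (nb (nat_lit 2) (nat_lit 1344) (nat_lit 0))))))⟩, ⟨(nat_lit 18), (nat_lit 52), (nb (nat_lit 0x1000000000000000400000000000000010000000000000001) (nat_lit 15808) (nb (nat_lit 0x3000000000000000300000000000000040000000000000003) (nat_lit 2432) (nat_lit 0))), (nb (nat_lit 1) (nat_lit 17152) (nb (nat_lit 0x2000000000000000400000000000000020000000000000002) (nat_lit 14592) (nb (nat_lit 0x1000000000000000100000000000000010000000000000001) (nat_lit 3648) (nb (nat_lit 0x2000000000000000200000000000000040000000000000002) (nat_lit 1216) (nat_lit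 0)))))⟩, ⟨(nat_lit 20), (nat_lit 46), (nb (nat_lit 1) (nat_lit 14720) (nb (nat_lit 3) (nat_lit 1408) (nat_lit 0))), (nb (nat_lit 2) (nat_lit 13504) (nb (nat_lit 1) (nat_lit 2624) (nb (nat_lit 2) (nat_lit 192) (nat_lit 0))))⟩, ⟨(nat_lit 22), (nat_lit 48), (nb (nat_lit 1) (nat_lit 14656) (nb (nat_lit 3) (nat_lit 1344) (nat_lit 0))), (nb (nat_lit 2) (nat_lit 13440) (nb (nat_lit 1) (nat_lit 2560) (nb (nat_lit 2) (nat_lit 128) (nat_lit 0))))⟩, ⟨(nat_lit 24), (nat_lit 40), (nb (nat_lit 1) (nat_lit 14592) (nb (nat_lit 3) (nat_lit 1280) (nat_lit 0))), (nb (nat_lit 2) (nat_lit 13376) (nb (nat_lit 1) (nat_lit 2496) (nb (nat_lit 2) (nat_lit 64) (nat_lit 0))))⟩, ⟨(nat_lit 26), (nat_lit 42), (nb (nat_lit 0x2000000000000000200000000000000020000000000000002) (nat_lit 13376) (nb (nat_lit 3) (nat_lit 1216) (nat_lit 0))), (nb (nat_lit 0x1000000000000000100000000000000010000000000000001) (nat_lit 14592) (nb (nat_lit 1) (nat_lit 2432) (nat_lit 2)))⟩, ⟨(nat_lit 28), (nat_lit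 44), (nb (nat_lit 1) (nat_lit 14784) (nb (nat_lit 0x1000000000000000100000000000000010000000000000001) (nat_lit 2432) (nat_lit 0x2000000000000000200000000000000020000000000000002))), (nb (nat_lit 2) (nat_lit 13568) (nb (nat_lit 0x3000000000000000300000000000000030000000000000003) (nat_lit 1216) (nat_lit 0)))⟩]⟩
def e671 : En := ⟨(nat_lit 60), (nat_lit 4369), (nat_lit 1957), (nat_lit 1944), [⟨(nat_lit 2), (nat_lit 40), (nb (nat_lit 0x50000000000000012000000000000000d) (nat_lit 3712) (nb (nat_lit 2) (nat_lit 2432) (nb (nat_lit 0x150000000000000027000000000000000a) (nat_lit 1280) (nat_lit 0)))), (nb (nat_lit 0x100000000000000030000000000000003) (nat_lit 4928) (nb (nat_lit 1) (nat_lit 3648) (nb (nat_lit 0xe00000000000000290000000000000013) (nat_lit 2496) (nb (nat_lit 0xa000000000000000a) (nat_lit 128) (nat_lit 0)))))⟩, ⟨(nat_lit 4), (nat_lit 50), (nb (nat_lit 2) (nat_lit 6080) (nb (nat_lit 0xb000000000000001200000000000000260000000000000028) (nat_lit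 3648) (nb (nat_lit 0xa0000000000000014000000000000001e000000000000000a) (nat_lit 1216) (nat_lit 0)))), (nb (nat_lit 1) (nat_lit 6272) (nb (nat_lit 0x400000000000000080000000000000010) (nat_lit 4864) (nb (nat_lit 0x13000000000000001e000000000000003b0000000000000025) (nat_lit 2432) (nat_lit 0))))⟩, ⟨(nat_lit 6), (nat_lit 56), (nb (nat_lit 0x10000000000000002) (nat_lit 6080) (nb (nat_lit 11) (nat_lit 5056) (nb (nat_lit 0x1b00000000000000290000000000000034) (nat_lit 3648) (nb (nat_lit 0xa0000000000000014000000000000001e0000000000000014) (nat_lit 1216) (nat_lit 0))))), (nb (nat_lit 3) (nat_lit 6272) (nb (nat_lit 0x6000000000000000b0000000000000012) (nat_lit 4864) (nb (nat_lit 7) (nat_lit 3840) (nb (nat_lit 0xb0000000000000028000000000000003d000000000000003a) (nat_lit 2432) (nat_lit 0)))))⟩, ⟨(nat_lit 8), (nat_lit 48), (nb (nat_lit 1) (nat_lit 4928) (nb (nat_lit 8) (nat_lit 3840) (nb (nat_lit 0x16000000000000000b0000000000000009) (nat_lit 2432) (nb (nat_lit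 0xa000000000000000a) (nat_lit 128) (nat_lit 0))))), (nb (nat_lit 2) (nat_lit 5056) (nb (nat_lit 0x500000000000000050000000000000002) (nat_lit 3648) (nb (nat_lit 5) (nat_lit 2624) (nb (nat_lit 0xb000000000000001d000000000000000a000000000000000a) (nat_lit 1216) (nat_lit 0)))))⟩, ⟨(nat_lit 10), (nat_lit 18), (nb (nat_lit 0x20000000000000001) (nat_lit 6208) (nb (nat_lit 0x40000000000000009) (nat_lit 4864) (nb (nat_lit 9) (nat_lit 3840) (nb (nat_lit 0x100000000000000020000000000000001a) (nat_lit 2432) (nat_lit 0))))), (nb (nat_lit 1) (nat_lit 6080) (nb (nat_lit 0x80000000000000002) (nat_lit 4992) (nb (nat_lit 0x500000000000000140000000000000019) (nat_lit 3648) (nb (nat_lit 0x4000000000000000c00000000000000100000000000000008) (nat_lit 1216) (nat_lit 0)))))⟩, ⟨(nat_lit 14), (nat_lit 28), (nb (nat_lit 0x100000000000000030000000000000003) (nat_lit 6144) (nb (nat_lit 1) (nat_lit 4864) (nb (nat_lit 0x1b0000000000000036000000000000001b) (nat_lit 3712) (nb (nat_lit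 11) (nat_lit 2432) (nb (nat_lit 0x140000000000000014) (nat_lit 1344) (nat_lit 0)))))), (nb (nat_lit 0x80000000000000015000000000000000f) (nat_lit 4928) (nb (nat_lit 5) (nat_lit 3648) (nb (nat_lit 0x28000000000000003a0000000000000012) (nat_lit 2496) (nb (nat_lit 10) (nat_lit 1216) (nat_lit 0)))))⟩, ⟨(nat_lit 20), (nat_lit 26), (nb (nat_lit 2) (nat_lit 6080) (nb (nat_lit 1) (nat_lit 5056) (nb (nat_lit 0x6000000000000000000000000000000190000000000000029) (nat_lit 3648) (nb (nat_lit 11) (nat_lit 2560) (nb (nat_lit 0x14000000000000000a) (nat_lit 1216) (nb (nat_lit 0xa000000000000000a) (nat_lit 128) (nat_lit 0))))))), (nb (nat_lit 1) (nat_lit 6272) (nb (nat_lit 0x100000000000000050000000000000010) (nat_lit 4864) (nb (nat_lit 0x5000000000000000000000000000000280000000000000027) (nat_lit 2432) (nb (nat_lit 0xb0000000000000013) (nat_lit 1344) (nat_lit 0)))))⟩]⟩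
def e672 : En := ⟨(nat_lit 62), (nat_lit 65809), (nat_lit 1957), (nat_lit 1944), [⟨(nat_lit 0), (nat_lit 40), (nb (nat_lit 1) (nat_lit 4928) (nb (nat_lit 8) (nat_lit 3840) (nb (nat_lit 0x16000000000000000b0000000000000009) (nat_lit 2432) (nb (nat_lit 0xa000000000000000a) (nat_lit 128) (nat_lit 0))))), (nb (nat_lit 2) (nat_lit 5056) (nb (nat_lit 0x500000000000000050000000000000002) (nat_lit 3648) (nb (nat_lit 5) (nat_lit 2624) (nb (nat_lit 0xb000000000000001d000000000000000a000000000000000a) (nat_lit 1216) (nat_lit 0)))))⟩, ⟨(nat_lit 4), (nat_lit 42), (nb (nat_lit 0x50000000000000012000000000000000d) (nat_lit 3712) (nb (nat_lit 2) (nat_lit 2432) (nb (nat_lit 0x150000000000000027000000000000000a) (nat_lit 1280) (nat_lit 0)))), (nb (nat_lit 0x100000000000000030000000000000003) (nat_lit 4928) (nb (nat_lit 1) (nat_lit 3648) (nb (nat_lit 0xe00000000000000290000000000000013) (nat_lit 2496) (nb (nat_lit 0xa000000000000000a) (nat_lit 128) (nat_lit 0)))))⟩,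 ⟨(nat_lit 6), (nat_lit 52), (nb (nat_lit 2) (nat_lit 6080) (nb (nat_lit 0xb000000000000001200000000000000260000000000000028) (nat_lit 3648) (nb (nat_lit 0xa0000000000000014000000000000001e000000000000000a) (nat_lit 1216) (nat_lit 0)))), (nb (nat_lit 1) (nat_lit 6272) (nb (nat_lit 0x400000000000000080000000000000010) (nat_lit 4864) (nb (nat_lit 0x13000000000000001e000000000000003b0000000000000025) (nat_lit 2432) (nat_lit 0))))⟩, ⟨(nat_lit 8), (nat_lit 58), (nb (nat_lit 0x10000000000000002) (nat_lit 6080) (nb (nat_lit 11) (nat_lit 5056) (nb (nat_lit 0x1b00000000000000290000000000000034) (nat_lit 3648) (nb (nat_lit 0xa0000000000000014000000000000001e0000000000000014) (nat_lit 1216) (nat_lit 0))))), (nb (nat_lit 3) (nat_lit 6272) (nb (nat_lit 0x6000000000000000b0000000000000012) (nat_lit 4864) (nb (nat_lit 7) (nat_lit 3840) (nb (nat_lit 0xb0000000000000028000000000000003d000000000000003a) (nat_lit 2432) (nat_lit 0)))))⟩, ⟨(nat_lit 10), (nat_lit 12), (nb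 (nat_lit 1) (nat_lit 6080) (nb (nat_lit 0x80000000000000002) (nat_lit 4992) (nb (nat_lit 0x500000000000000140000000000000019) (nat_lit 3648) (nb (nat_lit 0x4000000000000000c00000000000000100000000000000008) (nat_lit 1216) (nat_lit 0))))), (nb (nat_lit 0x20000000000000001) (nat_lit 6208) (nb (nat_lit 0x40000000000000009) (nat_lit 4864) (nb (nat_lit 9) (nat_lit 3840) (nb (nat_lit 0x100000000000000020000000000000001a) (nat_lit 2432) (nat_lit 0)))))⟩, ⟨(nat_lit 16), (nat_lit 20), (nb (nat_lit 0x100000000000000030000000000000003) (nat_lit 6144) (nb (nat_lit 1) (nat_lit 4864) (nb (nat_lit 0x1b0000000000000036000000000000001b) (nat_lit 3712) (nb (nat_lit 11) (nat_lit 2432) (nb (nat_lit 0x140000000000000014) (nat_lit 1344) (nat_lit 0)))))), (nb (nat_lit 0x80000000000000015000000000000000f) (nat_lit 4928) (nb (nat_lit 5) (nat_lit 3648) (nb (nat_lit 0x28000000000000003a0000000000000012) (nat_lit 2496) (nb (nat_lit 10) (nat_lit 1216) (nat_lit 0)))))⟩, ⟨(nat_lit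 22), (nat_lit 28), (nb (nat_lit 2) (nat_lit 6080) (nb (nat_lit 1) (nat_lit 5056) (nb (nat_lit 0x6000000000000000000000000000000190000000000000029) (nat_lit 3648) (nb (nat_lit 11) (nat_lit 2560) (nb (nat_lit 0x14000000000000000a) (nat_lit 1216) (nb (nat_lit 0xa000000000000000a) (nat_lit 128) (nat_lit 0))))))), (nb (nat_lit 1) (nat_lit 6272) (nb (nat_lit 0x100000000000000050000000000000010) (nat_lit 4864) (nb (nat_lit 0x5000000000000000000000000000000280000000000000027) (nat_lit 2432) (nb (nat_lit 0xb0000000000000013) (nat_lit 1344) (nat_lit 0)))))⟩]⟩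
def e673 : En := ⟨(nat_lit 64), (nat_lit 69649), (nat_lit 1957), (nat_lit 1944), [⟨(nat_lit 0), (nat_lit 50), (nb (nat_lit 0x10000000000000002) (nat_lit 6080) (nb (nat_lit 11) (nat_lit 5056) (nb (nat_lit 0x1b00000000000000290000000000000034) (nat_lit 3648) (nb (nat_lit 0xa0000000000000014000000000000001e0000000000000014) (nat_lit 1216) (nat_lit 0))))), (nb (nat_lit 3) (nat_lit 6272) (nb (nat_lit 0x6000000000000000b0000000000000012) (nat_lit 4864) (nb (nat_lit 7) (nat_lit 3840) (nb (nat_lit 0xb0000000000000028000000000000003d000000000000003a) (nat_lit 2432) (nat_lit 0)))))⟩, ⟨(nat_lit 2), (nat_lit 42), (nb (nat_lit 1) (nat_lit 4928) (nb (nat_lit 8) (nat_lit 3840) (nb (nat_lit 0x16000000000000000b0000000000000009) (nat_lit 2432) (nb (nat_lit 0xa000000000000000a) (nat_lit 128) (nat_lit 0))))), (nb (nat_lit 2) (nat_lit 5056) (nb (nat_lit 0x500000000000000050000000000000002) (nat_lit 3648) (nb (nat_lit 5) (nat_lit 2624) (nb (nat_lit 0xb000000000000001d000000000000000a000000000000000a)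 (nat_lit 1216) (nat_lit 0)))))⟩, ⟨(nat_lit 6), (nat_lit 44), (nb (nat_lit 0x50000000000000012000000000000000d) (nat_lit 3712) (nb (nat_lit 2) (nat_lit 2432) (nb (nat_lit 0x150000000000000027000000000000000a) (nat_lit 1280) (nat_lit 0)))), (nb (nat_lit 0x100000000000000030000000000000003) (nat_lit 4928) (nb (nat_lit 1) (nat_lit 3648) (nb (nat_lit 0xe00000000000000290000000000000013) (nat_lit 2496) (nb (nat_lit 0xa000000000000000a) (nat_lit 128) (nat_lit 0)))))⟩, ⟨(nat_lit 8), (nat_lit 54), (nb (nat_lit 2) (nat_lit 6080) (nb (nat_lit 0xb000000000000001200000000000000260000000000000028) (nat_lit 3648) (nb (nat_lit 0xa0000000000000014000000000000001e000000000000000a) (nat_lit 1216) (nat_lit 0)))), (nb (nat_lit 1) (nat_lit 6272) (nb (nat_lit 0x400000000000000080000000000000010) (nat_lit 4864) (nb (nat_lit 0x13000000000000001e000000000000003b0000000000000025) (nat_lit 2432) (nat_lit 0))))⟩, ⟨(nat_lit 12), (nat_lit 14), (nb (nat_lit 1) (nat_lit 6080) (nb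 (nat_lit 0x80000000000000002) (nat_lit 4992) (nb (nat_lit 0x500000000000000140000000000000019) (nat_lit 3648) (nb (nat_lit 0x4000000000000000c00000000000000100000000000000008) (nat_lit 1216) (nat_lit 0))))), (nb (nat_lit 0x20000000000000001) (nat_lit 6208) (nb (nat_lit 0x40000000000000009) (nat_lit 4864) (nb (nat_lit 9) (nat_lit 3840) (nb (nat_lit 0x100000000000000020000000000000001a) (nat_lit 2432) (nat_lit 0)))))⟩, ⟨(nat_lit 18), (nat_lit 22), (nb (nat_lit 0x100000000000000030000000000000003) (nat_lit 6144) (nb (nat_lit 1) (nat_lit 4864) (nb (nat_lit 0x1b0000000000000036000000000000001b) (nat_lit 3712) (nb (nat_lit 11) (nat_lit 2432) (nb (nat_lit 0x140000000000000014) (nat_lit 1344) (nat_lit 0)))))), (nb (nat_lit 0x80000000000000015000000000000000f) (nat_lit 4928) (nb (nat_lit 5) (nat_lit 3648) (nb (nat_lit 0x28000000000000003a0000000000000012) (nat_lit 2496) (nb (nat_lit 10) (nat_lit 1216) (nat_lit 0)))))⟩, ⟨(nat_lit 20), (nat_lit 24), (nb (nat_lit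 1) (nat_lit 6272) (nb (nat_lit 0x100000000000000050000000000000010) (nat_lit 4864) (nb (nat_lit 0x5000000000000000000000000000000280000000000000027) (nat_lit 2432) (nb (nat_lit 0xb0000000000000013) (nat_lit 1344) (nat_lit 0))))), (nb (nat_lit 2) (nat_lit 6080) (nb (nat_lit 1) (nat_lit 5056) (nb (nat_lit 0x6000000000000000000000000000000190000000000000029) (nat_lit 3648) (nb (nat_lit 11) (nat_lit 2560) (nb (nat_lit 0x14000000000000000a) (nat_lit 1216) (nb (nat_lit 0xa000000000000000a) (nat_lit 128) (nat_lit 0)))))))⟩]⟩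
def e674 : En := ⟨(nat_lit 66), (nat_lit 69889), (nat_lit 1957), (nat_lit 1944), [⟨(nat_lit 0), (nat_lit 56), (nb (nat_lit 2) (nat_lit 6080) (nb (nat_lit 0xb000000000000001200000000000000260000000000000028) (nat_lit 3648) (nb (nat_lit 0xa0000000000000014000000000000001e000000000000000a) (nat_lit 1216) (nat_lit 0)))), (nb (nat_lit 1) (nat_lit 6272) (nb (nat_lit 0x400000000000000080000000000000010) (nat_lit 4864) (nb (nat_lit 0x13000000000000001e000000000000003b0000000000000025) (nat_lit 2432) (nat_lit 0))))⟩, ⟨(nat_lit 2), (nat_lit 52), (nb (nat_lit 0x10000000000000002) (nat_lit 6080) (nb (nat_lit 11) (nat_lit 5056) (nb (nat_lit 0x1b00000000000000290000000000000034) (nat_lit 3648) (nb (nat_lit 0xa0000000000000014000000000000001e0000000000000014) (nat_lit 1216) (nat_lit 0))))), (nb (nat_lit 3) (nat_lit 6272) (nb (nat_lit 0x6000000000000000b0000000000000012) (nat_lit 4864) (nb (nat_lit 7) (nat_lit 3840) (nb (nat_lit 0xb0000000000000028000000000000003d000000000000003a)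 (nat_lit 2432) (nat_lit 0)))))⟩, ⟨(nat_lit 4), (nat_lit 44), (nb (nat_lit 1) (nat_lit 4928) (nb (nat_lit 8) (nat_lit 3840) (nb (nat_lit 0x16000000000000000b0000000000000009) (nat_lit 2432) (nb (nat_lit 0xa000000000000000a) (nat_lit 128) (nat_lit 0))))), (nb (nat_lit 2) (nat_lit 5056) (nb (nat_lit 0x500000000000000050000000000000002) (nat_lit 3648) (nb (nat_lit 5) (nat_lit 2624) (nb (nat_lit 0xb000000000000001d000000000000000a000000000000000a) (nat_lit 1216) (nat_lit 0)))))⟩, ⟨(nat_lit 8), (nat_lit 46), (nb (nat_lit 0x50000000000000012000000000000000d) (nat_lit 3712) (nb (nat_lit 2) (nat_lit 2432) (nb (nat_lit 0x150000000000000027000000000000000a) (nat_lit 1280) (nat_lit 0)))), (nb (nat_lit 0x100000000000000030000000000000003) (nat_lit 4928) (nb (nat_lit 1) (nat_lit 3648) (nb (nat_lit 0xe00000000000000290000000000000013) (nat_lit 2496) (nb (nat_lit 0xa000000000000000a) (nat_lit 128) (nat_lit 0)))))⟩, ⟨(nat_lit 10), (nat_lit 24), (nb (nat_lit 0x100000000000000030000000000000003)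 (nat_lit 6144) (nb (nat_lit 1) (nat_lit 4864) (nb (nat_lit 0x1b0000000000000036000000000000001b) (nat_lit 3712) (nb (nat_lit 11) (nat_lit 2432) (nb (nat_lit 0x140000000000000014) (nat_lit 1344) (nat_lit 0)))))), (nb (nat_lit 0x80000000000000015000000000000000f) (nat_lit 4928) (nb (nat_lit 5) (nat_lit 3648) (nb (nat_lit 0x28000000000000003a0000000000000012) (nat_lit 2496) (nb (nat_lit 10) (nat_lit 1216) (nat_lit 0)))))⟩, ⟨(nat_lit 14), (nat_lit 16), (nb (nat_lit 1) (nat_lit 6080) (nb (nat_lit 0x80000000000000002) (nat_lit 4992) (nb (nat_lit 0x500000000000000140000000000000019) (nat_lit 3648) (nb (nat_lit 0x4000000000000000c00000000000000100000000000000008) (nat_lit 1216) (nat_lit 0))))), (nb (nat_lit 0x20000000000000001) (nat_lit 6208) (nb (nat_lit 0x40000000000000009) (nat_lit 4864) (nb (nat_lit 9) (nat_lit 3840) (nb (nat_lit 0x100000000000000020000000000000001a) (nat_lit 2432) (nat_lit 0)))))⟩, ⟨(nat_lit 22), (nat_lit 26), (nb (nat_lit 1) (nat_lit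 6272) (nb (nat_lit 0x100000000000000050000000000000010) (nat_lit 4864) (nb (nat_lit 0x5000000000000000000000000000000280000000000000027) (nat_lit 2432) (nb (nat_lit 0xb0000000000000013) (nat_lit 1344) (nat_lit 0))))), (nb (nat_lit 2) (nat_lit 6080) (nb (nat_lit 1) (nat_lit 5056) (nb (nat_lit 0x6000000000000000000000000000000190000000000000029) (nat_lit 3648) (nb (nat_lit 11) (nat_lit 2560) (nb (nat_lit 0x14000000000000000a) (nat_lit 1216) (nb (nat_lit 0xa000000000000000a) (nat_lit 128) (nat_lit 0)))))))⟩]⟩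
def e675 : En := ⟨(nat_lit 68), (nat_lit 69904), (nat_lit 1957), (nat_lit 1944), [⟨(nat_lit 0), (nat_lit 48), (nb (nat_lit 0x50000000000000012000000000000000d) (nat_lit 3712) (nb (nat_lit 2) (nat_lit 2432) (nb (nat_lit 0x150000000000000027000000000000000a) (nat_lit 1280) (nat_lit 0)))), (nb (nat_lit 0x100000000000000030000000000000003) (nat_lit 4928) (nb (nat_lit 1) (nat_lit 3648) (nb (nat_lit 0xe00000000000000290000000000000013) (nat_lit 2496) (nb (nat_lit 0xa000000000000000a) (nat_lit 128) (nat_lit 0)))))⟩, ⟨(nat_lit 2), (nat_lit 58), (nb (nat_lit 2) (nat_lit 6080) (nb (nat_lit 0xb000000000000001200000000000000260000000000000028) (nat_lit 3648) (nb (nat_lit 0xa0000000000000014000000000000001e000000000000000a) (nat_lit 1216) (nat_lit 0)))), (nb (nat_lit 1) (nat_lit 6272) (nb (nat_lit 0x400000000000000080000000000000010) (nat_lit 4864) (nb (nat_lit 0x13000000000000001e000000000000003b0000000000000025) (nat_lit 2432) (nat_lit 0))))⟩, ⟨(nat_lit 4),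 (nat_lit 54), (nb (nat_lit 0x10000000000000002) (nat_lit 6080) (nb (nat_lit 11) (nat_lit 5056) (nb (nat_lit 0x1b00000000000000290000000000000034) (nat_lit 3648) (nb (nat_lit 0xa0000000000000014000000000000001e0000000000000014) (nat_lit 1216) (nat_lit 0))))), (nb (nat_lit 3) (nat_lit 6272) (nb (nat_lit 0x6000000000000000b0000000000000012) (nat_lit 4864) (nb (nat_lit 7) (nat_lit 3840) (nb (nat_lit 0xb0000000000000028000000000000003d000000000000003a) (nat_lit 2432) (nat_lit 0)))))⟩, ⟨(nat_lit 6), (nat_lit 46), (nb (nat_lit 1) (nat_lit 4928) (nb (nat_lit 8) (nat_lit 3840) (nb (nat_lit 0x16000000000000000b0000000000000009) (nat_lit 2432) (nb (nat_lit 0xa000000000000000a) (nat_lit 128) (nat_lit 0))))), (nb (nat_lit 2) (nat_lit 5056) (nb (nat_lit 0x500000000000000050000000000000002) (nat_lit 3648) (nb (nat_lit 5) (nat_lit 2624) (nb (nat_lit 0xb000000000000001d000000000000000a000000000000000a) (nat_lit 1216) (nat_lit 0)))))⟩, ⟨(nat_lit 12), (nat_lit 26),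 (nb (nat_lit 0x100000000000000030000000000000003) (nat_lit 6144) (nb (nat_lit 1) (nat_lit 4864) (nb (nat_lit 0x1b0000000000000036000000000000001b) (nat_lit 3712) (nb (nat_lit 11) (nat_lit 2432) (nb (nat_lit 0x140000000000000014) (nat_lit 1344) (nat_lit 0)))))), (nb (nat_lit 0x80000000000000015000000000000000f) (nat_lit 4928) (nb (nat_lit 5) (nat_lit 3648) (nb (nat_lit 0x28000000000000003a0000000000000012) (nat_lit 2496) (nb (nat_lit 10) (nat_lit 1216) (nat_lit 0)))))⟩, ⟨(nat_lit 16), (nat_lit 18), (nb (nat_lit 1) (nat_lit 6080) (nb (nat_lit 0x80000000000000002) (nat_lit 4992) (nb (nat_lit 0x500000000000000140000000000000019) (nat_lit 3648) (nb (nat_lit 0x4000000000000000c00000000000000100000000000000008) (nat_lit 1216) (nat_lit 0))))), (nb (nat_lit 0x20000000000000001) (nat_lit 6208) (nb (nat_lit 0x40000000000000009) (nat_lit 4864) (nb (nat_lit 9) (nat_lit 3840) (nb (nat_lit 0x100000000000000020000000000000001a) (nat_lit 2432) (nat_lit 0)))))⟩, ⟨(nat_lit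 24), (nat_lit 28), (nb (nat_lit 1) (nat_lit 6272) (nb (nat_lit 0x100000000000000050000000000000010) (nat_lit 4864) (nb (nat_lit 0x5000000000000000000000000000000280000000000000027) (nat_lit 2432) (nb (nat_lit 0xb0000000000000013) (nat_lit 1344) (nat_lit 0))))), (nb (nat_lit 2) (nat_lit 6080) (nb (nat_lit 1) (nat_lit 5056) (nb (nat_lit 0x6000000000000000000000000000000190000000000000029) (nat_lit 3648) (nb (nat_lit 11) (nat_lit 2560) (nb (nat_lit 0x14000000000000000a) (nat_lit 1216) (nb (nat_lit 0xa000000000000000a) (nat_lit 128) (nat_lit 0)))))))⟩]⟩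
def e676 : En := ⟨(nat_lit 40), (nat_lit 273), (nat_lit 474), (nat_lit 648), [⟨(nat_lit 4), (nat_lit 20), (nb (nat_lit 2) (nat_lit 3648) (nb (nat_lit 0x7000000000000000a00000000000000160000000000000010) (nat_lit 1216) (nat_lit 0))), (nb (nat_lit 1) (nat_lit 3840) (nb (nat_lit 0x200000000000000040000000000000008000000000000000c) (nat_lit 2432) (nat_lit 0x5000000000000000a000000000000000f0000000000000005)))⟩, ⟨(nat_lit 6), (nat_lit 10), (nb (nat_lit 2) (nat_lit 4864) (nb (nat_lit 0x7000000000000000a00000000000000160000000000000010) (nat_lit 2432) (nat_lit 0))), (nb (nat_lit 1) (nat_lit 5056) (nb (nat_lit 0x200000000000000040000000000000008000000000000000c) (nat_lit 3648) (nb (nat_lit 0x5000000000000000a000000000000000f0000000000000005) (nat_lit 1216) (nat_lit 0))))⟩, ⟨(nat_lit 8), (nat_lit 28), (nb (nat_lit 2) (nat_lit 4864) (nb (nat_lit 0x9000000000000000e000000000000001e000000000000001c) (nat_lit 2432) (nat_lit 0x5000000000000000a000000000000000f0000000000000005))),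 (nb (nat_lit 1) (nat_lit 5056) (nb (nat_lit 0x100000000000000040000000000000008000000000000000e) (nat_lit 3648) (nb (nat_lit 0xc000000000000001400000000000000250000000000000015) (nat_lit 1216) (nat_lit 0))))⟩]⟩
def e677 : En := ⟨(nat_lit 42), (nat_lit 65553), (nat_lit 474), (nat_lit 648), [⟨(nat_lit 0), (nat_lit 20), (nb (nat_lit 2) (nat_lit 4864) (nb (nat_lit 0x9000000000000000e000000000000001e000000000000001c) (nat_lit 2432) (nat_lit 0x5000000000000000a000000000000000f0000000000000005))), (nb (nat_lit 1) (nat_lit 5056) (nb (nat_lit 0x100000000000000040000000000000008000000000000000e) (nat_lit 3648) (nb (nat_lit 0xc000000000000001400000000000000250000000000000015) (nat_lit 1216) (nat_lit 0))))⟩, ⟨(nat_lit 6), (nat_lit 22), (nb (nat_lit 2) (nat_lit 3648) (nb (nat_lit 0x7000000000000000a00000000000000160000000000000010) (nat_lit 1216) (nat_lit 0))), (nb (nat_lit 1) (nat_lit 3840) (nb (nat_lit 0x200000000000000040000000000000008000000000000000c) (nat_lit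 2432) (nat_lit 0x5000000000000000a000000000000000f0000000000000005)))⟩, ⟨(nat_lit 8), (nat_lit 12), (nb (nat_lit 2) (nat_lit 4864) (nb (nat_lit 0x7000000000000000a00000000000000160000000000000010) (nat_lit 2432) (nat_lit 0))), (nb (nat_lit 1) (nat_lit 5056) (nb (nat_lit 0x200000000000000040000000000000008000000000000000c) (nat_lit 3648) (nb (nat_lit 0x5000000000000000a000000000000000f0000000000000005) (nat_lit 1216) (nat_lit 0))))⟩]⟩
def e678 : En := ⟨(nat_lit 44), (nat_lit 69633), (nat_lit 474), (nat_lit 648), [⟨(nat_lit 0), (nat_lit 14), (nb (nat_lit 2) (nat_lit 4864) (nb (nat_lit 0x7000000000000000a00000000000000160000000000000010) (nat_lit 2432) (nat_lit 0))), (nb (nat_lit 1) (nat_lit 5056) (nb (nat_lit 0x200000000000000040000000000000008000000000000000c) (nat_lit 3648) (nb (nat_lit 0x5000000000000000a000000000000000f0000000000000005) (nat_lit 1216) (nat_lit 0))))⟩, ⟨(nat_lit 2), (nat_lit 22), (nb (nat_lit 2) (nat_lit 4864) (nb (nat_lit 0x9000000000000000e000000000000001e000000000000001c)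 (nat_lit 2432) (nat_lit 0x5000000000000000a000000000000000f0000000000000005))), (nb (nat_lit 1) (nat_lit 5056) (nb (nat_lit 0x100000000000000040000000000000008000000000000000e) (nat_lit 3648) (nb (nat_lit 0xc000000000000001400000000000000250000000000000015) (nat_lit 1216) (nat_lit 0))))⟩, ⟨(nat_lit 8), (nat_lit 24), (nb (nat_lit 2) (nat_lit 3648) (nb (nat_lit 0x7000000000000000a00000000000000160000000000000010) (nat_lit 1216) (nat_lit 0))), (nb (nat_lit 1) (nat_lit 3840) (nb (nat_lit 0x200000000000000040000000000000008000000000000000c) (nat_lit 2432) (nat_lit 0x5000000000000000a000000000000000f0000000000000005)))⟩]⟩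
def e679 : En := ⟨(nat_lit 46), (nat_lit 69888), (nat_lit 474), (nat_lit 648), [⟨(nat_lit 0), (nat_lit 26), (nb (nat_lit 2) (nat_lit 3648) (nb (nat_lit 0x7000000000000000a00000000000000160000000000000010) (nat_lit 1216) (nat_lit 0))), (nb (nat_lit 1) (nat_lit 3840) (nb (nat_lit 0x200000000000000040000000000000008000000000000000c) (nat_lit 2432) (nat_lit 0x5000000000000000a000000000000000f0000000000000005)))⟩, ⟨(nat_lit 2), (nat_lit 16), (nb (nat_lit 2) (nat_lit 4864) (nb (nat_lit 0x7000000000000000a00000000000000160000000000000010) (nat_lit 2432) (nat_lit 0))), (nb (nat_lit 1) (nat_lit 5056) (nb (nat_lit 0x200000000000000040000000000000008000000000000000c) (nat_lit 3648) (nb (nat_lit 0x5000000000000000a000000000000000f0000000000000005) (nat_lit 1216) (nat_lit 0))))⟩, ⟨(nat_lit 4), (nat_lit 24), (nb (nat_lit 2) (nat_lit 4864) (nb (nat_lit 0x9000000000000000e000000000000001e000000000000001c) (nat_lit 2432) (nat_lit 0x5000000000000000a000000000000000f0000000000000005))),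 (nb (nat_lit 1) (nat_lit 5056) (nb (nat_lit 0x100000000000000040000000000000008000000000000000e) (nat_lit 3648) (nb (nat_lit 0xc000000000000001400000000000000250000000000000015) (nat_lit 1216) (nat_lit 0))))⟩]⟩
def e680 : En := ⟨(nat_lit 48), (nat_lit 4368), (nat_lit 474), (nat_lit 648), [⟨(nat_lit 2), (nat_lit 28), (nb (nat_lit 2) (nat_lit 3648) (nb (nat_lit 0x7000000000000000a00000000000000160000000000000010) (nat_lit 1216) (nat_lit 0))), (nb (nat_lit 1) (nat_lit 3840) (nb (nat_lit 0x200000000000000040000000000000008000000000000000c) (nat_lit 2432) (nat_lit 0x5000000000000000a000000000000000f0000000000000005)))⟩, ⟨(nat_lit 4), (nat_lit 18), (nb (nat_lit 2) (nat_lit 4864) (nb (nat_lit 0x7000000000000000a00000000000000160000000000000010) (nat_lit 2432) (nat_lit 0))), (nb (nat_lit 1) (nat_lit 5056) (nb (nat_lit 0x200000000000000040000000000000008000000000000000c) (nat_lit 3648) (nb (nat_lit 0x5000000000000000a000000000000000f0000000000000005) (nat_lit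 1216) (nat_lit 0))))⟩, ⟨(nat_lit 6), (nat_lit 26), (nb (nat_lit 2) (nat_lit 4864) (nb (nat_lit 0x9000000000000000e000000000000001e000000000000001c) (nat_lit 2432) (nat_lit 0x5000000000000000a000000000000000f0000000000000005))), (nb (nat_lit 1) (nat_lit 5056) (nb (nat_lit 0x100000000000000040000000000000008000000000000000e) (nat_lit 3648) (nb (nat_lit 0xc000000000000001400000000000000250000000000000015) (nat_lit 1216) (nat_lit 0))))⟩]⟩
def e681 : En := ⟨(nat_lit 50), (nat_lit 4113), (nat_lit 280), (nat_lit 216), [⟨(nat_lit 2), (nat_lit 20), (nb (nat_lit 2) (nat_lit 3648) (nb (nat_lit 0x7000000000000000a00000000000000160000000000000010) (nat_lit 1216) (nat_lit 0))), (nb (nat_lit 1) (nat_lit 3840) (nb (nat_lit 0x200000000000000040000000000000008000000000000000c) (nat_lit 2432) (nat_lit 0x5000000000000000a000000000000000f0000000000000005)))⟩, ⟨(nat_lit 6), (nat_lit 14), (nb (nat_lit 1) (nat_lit 3840) (nb (nat_lit 0x2000000000000000900000000000000070000000000000007)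 (nat_lit 2432) (nat_lit 0x8000000000000000900000000000000070000000000000001))), (nb (nat_lit 0x100000000000000010000000000000001) (nat_lit 3648) (nb (nat_lit 0xb0000000000000011000000000000000f000000000000000a) (nat_lit 1216) (nat_lit 0)))⟩, ⟨(nat_lit 8), (nat_lit 18), (nb (nat_lit 0x10000000000000001) (nat_lit 3712) (nb (nat_lit 0x10000000000000005) (nat_lit 2432) (nb (nat_lit 0x40000000000000007) (nat_lit 1344) (nat_lit 0x100000000000000080000000000000004)))), (nb (nat_lit 1) (nat_lit 3648) (nb (nat_lit 5) (nat_lit 2560) (nb (nat_lit 0x70000000000000006) (nat_lit 1216) (nb (nat_lit 3) (nat_lit 192) (nat_lit 0)))))⟩]⟩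
def e682 : En := ⟨(nat_lit 52), (nat_lit 65793), (nat_lit 280), (nat_lit 216), [⟨(nat_lit 0), (nat_lit 10), (nb (nat_lit 0x10000000000000001) (nat_lit 3712) (nb (nat_lit 0x10000000000000005) (nat_lit 2432) (nb (nat_lit 0x40000000000000007) (nat_lit 1344) (nat_lit 0x100000000000000080000000000000004)))), (nb (nat_lit 1) (nat_lit 3648) (nb (nat_lit 5) (nat_lit 2560) (nb (nat_lit 0x70000000000000006) (nat_lit 1216) (nb (nat_lit 3) (nat_lit 192) (nat_lit 0)))))⟩, ⟨(nat_lit 4), (nat_lit 22), (nb (nat_lit 2) (nat_lit 3648) (nb (nat_lit 0x7000000000000000a00000000000000160000000000000010) (nat_lit 1216) (nat_lit 0))), (nb (nat_lit 1) (nat_lit 3840) (nb (nat_lit 0x200000000000000040000000000000008000000000000000c) (nat_lit 2432) (nat_lit 0x5000000000000000a000000000000000f0000000000000005)))⟩, ⟨(nat_lit 8), (nat_lit 16), (nb (nat_lit 1) (nat_lit 3840) (nb (nat_lit 0x2000000000000000900000000000000070000000000000007) (nat_lit 2432) (nat_lit 0x8000000000000000900000000000000070000000000000001))),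 (nb (nat_lit 0x100000000000000010000000000000001) (nat_lit 3648) (nb (nat_lit 0xb0000000000000011000000000000000f000000000000000a) (nat_lit 1216) (nat_lit 0)))⟩]⟩
def e683 : En := ⟨(nat_lit 54), (nat_lit 69648), (nat_lit 280), (nat_lit 216), [⟨(nat_lit 0), (nat_lit 18), (nb (nat_lit 1) (nat_lit 3840) (nb (nat_lit 0x2000000000000000900000000000000070000000000000007) (nat_lit 2432) (nat_lit 0x8000000000000000900000000000000070000000000000001))), (nb (nat_lit 0x100000000000000010000000000000001) (nat_lit 3648) (nb (nat_lit 0xb0000000000000011000000000000000f000000000000000a) (nat_lit 1216) (nat_lit 0)))⟩, ⟨(nat_lit 2), (nat_lit 12), (nb (nat_lit 0x10000000000000001) (nat_lit 3712) (nb (nat_lit 0x10000000000000005) (nat_lit 2432) (nb (nat_lit 0x40000000000000007) (nat_lit 1344) (nat_lit 0x100000000000000080000000000000004)))), (nb (nat_lit 1) (nat_lit 3648) (nb (nat_lit 5) (nat_lit 2560) (nb (nat_lit 0x70000000000000006) (nat_lit 1216) (nb (nat_lit 3)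 (nat_lit 192) (nat_lit 0)))))⟩, ⟨(nat_lit 6), (nat_lit 24), (nb (nat_lit 2) (nat_lit 3648) (nb (nat_lit 0x7000000000000000a00000000000000160000000000000010) (nat_lit 1216) (nat_lit 0))), (nb (nat_lit 1) (nat_lit 3840) (nb (nat_lit 0x200000000000000040000000000000008000000000000000c) (nat_lit 2432) (nat_lit 0x5000000000000000a000000000000000f0000000000000005)))⟩]⟩
def e684 : En := ⟨(nat_lit 56), (nat_lit 4353), (nat_lit 280), (nat_lit 216), [⟨(nat_lit 2), (nat_lit 10), (nb (nat_lit 1) (nat_lit 3840) (nb (nat_lit 0x2000000000000000900000000000000070000000000000007) (nat_lit 2432) (nat_lit 0x8000000000000000900000000000000070000000000000001))), (nb (nat_lit 0x100000000000000010000000000000001) (nat_lit 3648) (nb (nat_lit 0xb0000000000000011000000000000000f000000000000000a) (nat_lit 1216) (nat_lit 0)))⟩, ⟨(nat_lit 4), (nat_lit 14), (nb (nat_lit 0x10000000000000001) (nat_lit 3712) (nb (nat_lit 0x10000000000000005) (nat_lit 2432) (nb (nat_lit 0x40000000000000007)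 (nat_lit 1344) (nat_lit 0x100000000000000080000000000000004)))), (nb (nat_lit 1) (nat_lit 3648) (nb (nat_lit 5) (nat_lit 2560) (nb (nat_lit 0x70000000000000006) (nat_lit 1216) (nb (nat_lit 3) (nat_lit 192) (nat_lit 0)))))⟩, ⟨(nat_lit 8), (nat_lit 26), (nb (nat_lit 2) (nat_lit 3648) (nb (nat_lit 0x7000000000000000a00000000000000160000000000000010) (nat_lit 1216) (nat_lit 0))), (nb (nat_lit 1) (nat_lit 3840) (nb (nat_lit 0x200000000000000040000000000000008000000000000000c) (nat_lit 2432) (nat_lit 0x5000000000000000a000000000000000f0000000000000005)))⟩]⟩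
def e685 : En := ⟨(nat_lit 58), (nat_lit 65808), (nat_lit 280), (nat_lit 216), [⟨(nat_lit 0), (nat_lit 28), (nb (nat_lit 2) (nat_lit 3648) (nb (nat_lit 0x7000000000000000a00000000000000160000000000000010) (nat_lit 1216) (nat_lit 0))), (nb (nat_lit 1) (nat_lit 3840) (nb (nat_lit 0x200000000000000040000000000000008000000000000000c) (nat_lit 2432) (nat_lit 0x5000000000000000a000000000000000f0000000000000005)))⟩, ⟨(nat_lit 4), (nat_lit 12), (nb (nat_lit 1) (nat_lit 3840) (nb (nat_lit 0x2000000000000000900000000000000070000000000000007) (nat_lit 2432) (nat_lit 0x8000000000000000900000000000000070000000000000001))), (nb (nat_lit 0x100000000000000010000000000000001) (nat_lit 3648) (nb (nat_lit 0xb0000000000000011000000000000000f000000000000000a) (nat_lit 1216) (nat_lit 0)))⟩, ⟨(nat_lit 6), (nat_lit 16), (nb (nat_lit 0x10000000000000001) (nat_lit 3712) (nb (nat_lit 0x10000000000000005) (nat_lit 2432) (nb (nat_lit 0x40000000000000007) (nat_lit 1344) (nat_lit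 0x100000000000000080000000000000004)))), (nb (nat_lit 1) (nat_lit 3648) (nb (nat_lit 5) (nat_lit 2560) (nb (nat_lit 0x70000000000000006) (nat_lit 1216) (nb (nat_lit 3) (nat_lit 192) (nat_lit 0)))))⟩]⟩
def e686 : En := ⟨(nat_lit 10), (nat_lit 257), (nat_lit 119), (nat_lit 216), [⟨(nat_lit 4), (nat_lit 8), (nb (nat_lit 2) (nat_lit 3648) (nb (nat_lit 0x7000000000000000a00000000000000160000000000000010) (nat_lit 1216) (nat_lit 0))), (nb (nat_lit 1) (nat_lit 3840) (nb (nat_lit 0x200000000000000040000000000000008000000000000000c) (nat_lit 2432) (nat_lit 0x5000000000000000a000000000000000f0000000000000005)))⟩]⟩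
def e687 : En := ⟨(nat_lit 12), (nat_lit 65552), (nat_lit 119), (nat_lit 216), [⟨(nat_lit 0), (nat_lit 6), (nb (nat_lit 1) (nat_lit 3840) (nb (nat_lit 0x200000000000000040000000000000008000000000000000c) (nat_lit 2432) (nat_lit 0x5000000000000000a000000000000000f0000000000000005))), (nb (nat_lit 2) (nat_lit 3648) (nb (nat_lit 0x7000000000000000a00000000000000160000000000000010) (nat_lit 1216) (nat_lit 0)))⟩]⟩
def e688 : En := ⟨(nat_lit 14), (nat_lit 4097), (nat_lit 119), (nat_lit 216), [⟨(nat_lit 2), (nat_lit 8), (nb (nat_lit 1) (nat_lit 3840) (nb (nat_lit 0x200000000000000040000000000000008000000000000000c) (nat_lit 2432) (nat_lit 0x5000000000000000a000000000000000f0000000000000005))), (nb (nat_lit 2) (nat_lit 3648) (nb (nat_lit 0x7000000000000000a00000000000000160000000000000010) (nat_lit 1216) (nat_lit 0)))⟩]⟩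
def e689 : En := ⟨(nat_lit 16), (nat_lit 65792), (nat_lit 119), (nat_lit 216), [⟨(nat_lit 0), (nat_lit 4), (nb (nat_lit 2) (nat_lit 3648) (nb (nat_lit 0x7000000000000000a00000000000000160000000000000010) (nat_lit 1216) (nat_lit 0))), (nb (nat_lit 1) (nat_lit 3840) (nb (nat_lit 0x200000000000000040000000000000008000000000000000c) (nat_lit 2432) (nat_lit 0x5000000000000000a000000000000000f0000000000000005)))⟩]⟩
def e690 : En := ⟨(nat_lit 18), (nat_lit 4112), (nat_lit 119), (nat_lit 216), [⟨(nat_lit 2), (nat_lit 6), (nb (nat_lit 2) (nat_lit 3648) (nb (nat_lit 0x7000000000000000a00000000000000160000000000000010) (nat_lit 1216) (nat_lit 0))), (nb (nat_lit 1) (nat_lit 3840) (nb (nat_lit 0x200000000000000040000000000000008000000000000000c) (nat_lit 2432) (nat_lit 0x5000000000000000a000000000000000f0000000000000005)))⟩]⟩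
def e691 : En := ⟨(nat_lit 20), (nat_lit 17), (nat_lit 119), (nat_lit 216), [⟨(nat_lit 6), (nat_lit 8), (nb (nat_lit 2) (nat_lit 3648) (nb (nat_lit 0x7000000000000000a00000000000000160000000000000010) (nat_lit 1216) (nat_lit 0))), (nb (nat_lit 1) (nat_lit 3840) (nb (nat_lit 0x200000000000000040000000000000008000000000000000c) (nat_lit 2432) (nat_lit 0x5000000000000000a000000000000000f0000000000000005)))⟩]⟩
def e692 : En := ⟨(nat_lit 22), (nat_lit 65537), (nat_lit 119), (nat_lit 216), [⟨(nat_lit 0), (nat_lit 8), (nb (nat_lit 1) (nat_lit 3840) (nb (nat_lit 0x200000000000000040000000000000008000000000000000c) (nat_lit 2432) (nat_lit 0x5000000000000000a000000000000000f0000000000000005))), (nb (nat_lit 2) (nat_lit 3648) (nb (nat_lit 0x7000000000000000a00000000000000160000000000000010) (nat_lit 1216) (nat_lit 0)))⟩]⟩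
def e693 : En := ⟨(nat_lit 24), (nat_lit 69632), (nat_lit 119), (nat_lit 216), [⟨(nat_lit 0), (nat_lit 2), (nb (nat_lit 2) (nat_lit 3648) (nb (nat_lit 0x7000000000000000a00000000000000160000000000000010) (nat_lit 1216) (nat_lit 0))), (nb (nat_lit 1) (nat_lit 3840) (nb (nat_lit 0x200000000000000040000000000000008000000000000000c) (nat_lit 2432) (nat_lit 0x5000000000000000a000000000000000f0000000000000005)))⟩]⟩
def e694 : En := ⟨(nat_lit 26), (nat_lit 4352), (nat_lit 119), (nat_lit 216), [⟨(nat_lit 2), (nat_lit 4), (nb (nat_lit 2) (nat_lit 3648) (nb (nat_lit 0x7000000000000000a00000000000000160000000000000010) (nat_lit 1216) (nat_lit 0))), (nb (nat_lit 1) (nat_lit 3840) (nb (nat_lit 0x200000000000000040000000000000008000000000000000c) (nat_lit 2432) (nat_lit 0x5000000000000000a000000000000000f0000000000000005)))⟩]⟩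
def e695 : En := ⟨(nat_lit 28), (nat_lit 272), (nat_lit 119), (nat_lit 216), [⟨(nat_lit 4), (nat_lit 6), (nb (nat_lit 2) (nat_lit 3648) (nb (nat_lit 0x7000000000000000a00000000000000160000000000000010) (nat_lit 1216) (nat_lit 0))), (nb (nat_lit 1) (nat_lit 3840) (nb (nat_lit 0x200000000000000040000000000000008000000000000000c) (nat_lit 2432) (nat_lit 0x5000000000000000a000000000000000f0000000000000005)))⟩]⟩
def e696 : En := ⟨(nat_lit 85), (nat_lit 69905), (nat_lit 196), (nat_lit 216), [⟨(nat_lit 0), (nat_lit 60), (nat_lit 0x1000000000000000100000000000000020000000000000002), (nb (nat_lit 1) (nat_lit 1216) (nat_lit 0))⟩, ⟨(nat_lit 2), (nat_lit 62), (nat_lit 0), (nb (nat_lit 1) (nat_lit 1408) (nat_lit 0x200000000000000010000000000000001))⟩, ⟨(nat_lit 4), (nat_lit 64), (nat_lit 0x100000000000000010000000000000000), (nb (nat_lit 1) (nat_lit 1280) (nat_lit 1))⟩, ⟨(nat_lit 6), (nat_lit 66), (nb (nat_lit 0x1000000000000000100000000000000010000000000000001)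 (nat_lit 1216) (nat_lit 0)), (nat_lit 0x2000000000000000100000000000000010000000000000000)⟩, ⟨(nat_lit 8), (nat_lit 68), (nat_lit 0x1000000000000000100000000000000000000000000000000), (nb (nat_lit 1) (nat_lit 1344) (nb (nat_lit 1) (nat_lit 64) (nat_lit 0)))⟩, ⟨(nat_lit 10), (nat_lit 54), (nb (nat_lit 1) (nat_lit 3776) (nb (nat_lit 0x40000000000000002) (nat_lit 2432) (nat_lit 0))), (nb (nat_lit 0x10000000000000001) (nat_lit 3648) (nb (nat_lit 2) (nat_lit 2560) (nb (nat_lit 4) (nat_lit 1280) (nat_lit 0))))⟩, ⟨(nat_lit 12), (nat_lit 56), (nb (nat_lit 0x100000000000000010000000000000002) (nat_lit 3648) (nb (nat_lit 0x4000000000000000400000000000000040000000000000004) (nat_lit 1216) (nat_lit 0))), (nb (nat_lit 0x2000000000000000400000000000000040000000000000006) (nat_lit 2432) (nat_lit 0))⟩, ⟨(nat_lit 14), (nat_lit 58), (nb (nat_lit 1) (nat_lit 3840) (nb (nat_lit 0x40000000000000002) (nat_lit 2496) (nat_lit 0))), (nb (nat_lit 0x10000000000000001) (nat_lit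 3712) (nb (nat_lit 2) (nat_lit 2624) (nb (nat_lit 4) (nat_lit 1344) (nat_lit 0))))⟩, ⟨(nat_lit 16), (nat_lit 50), (nb (nat_lit 0x100000000000000010000000000000002) (nat_lit 3712) (nb (nat_lit 2) (nat_lit 2432) (nat_lit 0))), (nb (nat_lit 0x200000000000000020000000000000004) (nat_lit 2496) (nb (nat_lit 4) (nat_lit 1216) (nat_lit 0)))⟩, ⟨(nat_lit 18), (nat_lit 52), (nb (nat_lit 0x6000000000000000400000000000000020000000000000002) (nat_lit 2432) (nat_lit 0)), (nb (nat_lit 0x2000000000000000200000000000000010000000000000001) (nat_lit 3648) (nb (nat_lit 4) (nat_lit 1408) (nat_lit 0)))⟩, ⟨(nat_lit 20), (nat_lit 46), (nb (nat_lit 1) (nat_lit 2496) (nb (nat_lit 0x1000000000000000100000000000000000000000000000001) (nat_lit 1216) (nat_lit 0))), (nb (nat_lit 2) (nat_lit 1280) (nat_lit 0x2000000000000000200000000000000000000000000000002))⟩, ⟨(nat_lit 22), (nat_lit 48), (nb (nat_lit 0x3000000000000000200000000000000030000000000000003) (nat_lit 1216) (nat_lit 0)),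 (nb (nat_lit 0x1000000000000000100000000000000010000000000000001) (nat_lit 2432) (nat_lit 0x2000000000000000000000000000000020000000000000002))⟩, ⟨(nat_lit 24), (nat_lit 40), (nb (nat_lit 1) (nat_lit 2560) (nat_lit 0x200000000000000000000000000000002)), (nb (nat_lit 0x300000000000000000000000000000001) (nat_lit 1216) (nat_lit 0))⟩, ⟨(nat_lit 26), (nat_lit 42), (nb (nat_lit 1) (nat_lit 2432) (nat_lit 0x2000000000000000000000000000000000000000000000002)), (nb (nat_lit 0x1000000000000000000000000000000000000000000000003) (nat_lit 1216) (nat_lit 0))⟩, ⟨(nat_lit 28), (nat_lit 44), (nb (nat_lit 1) (nat_lit 2624) (nb (nat_lit 0x200000000000000000000000000000002) (nat_lit 64) (nat_lit 0))), (nb (nat_lit 0x300000000000000000000000000000001) (nat_lit 1280) (nat_lit 0))⟩]⟩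
def e697 : En := ⟨(nat_lit 73), (nat_lit 69905), (nat_lit 2024), (nat_lit 1944), [⟨(nat_lit 0), (nat_lit 60), (nb (nat_lit 1) (nat_lit 3648) (nb (nat_lit 0x30000000000000003000000000000000a0000000000000005) (nat_lit 1216) (nat_lit 0))), (nb (nat_lit 0x2000000000000000100000000000000040000000000000005) (nat_lit 2432) (nat_lit 0x2000000000000000500000000000000070000000000000001))⟩, ⟨(nat_lit 2), (nat_lit 62), (nb (nat_lit 0x5000000000000000300000000000000040000000000000001) (nat_lit 2432) (nb (nat_lit 5) (nat_lit 1216) (nb (nat_lit 1) (nat_lit 192) (nat_lit 0)))), (nb (nat_lit 0x1000000000000000100000000000000010000000000000001) (nat_lit 3648) (nb (nat_lit 0x500000000000000020000000000000002) (nat_lit 1280) (nat_lit 0x100000000000000040000000000000006)))⟩, ⟨(nat_lit 4), (nat_lit 64), (nb (nat_lit 1) (nat_lit 3840) (nb (nat_lit 0x400000000000000020000000000000003) (nat_lit 2432) (nat_lit 0x6000000000000000700000000000000050000000000000002))), (nb (nat_lit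 1) (nat_lit 2624) (nb (nat_lit 0x5000000000000000a00000000000000070000000000000007) (nat_lit 1216) (nat_lit 0)))⟩, ⟨(nat_lit 6), (nat_lit 66), (nb (nat_lit 1) (nat_lit 3776) (nb (nat_lit 1) (nat_lit 2496) (nb (nat_lit 0x70000000000000002) (nat_lit 1344) (nat_lit 0x400000000000000050000000000000003)))), (nb (nat_lit 0x3000000000000000400000000000000000000000000000001) (nat_lit 2432) (nb (nat_lit 3) (nat_lit 1280) (nb (nat_lit 2) (nat_lit 192) (nat_lit 0))))⟩, ⟨(nat_lit 8), (nat_lit 68), (nb (nat_lit 1) (nat_lit 3712) (nb (nat_lit 0x1000000000000000000000000000000000000000000000002) (nat_lit 2432) (nb (nat_lit 0x70000000000000002) (nat_lit 1280) (nat_lit 0x10000000000000002)))), (nb (nat_lit 0x20000000000000003) (nat_lit 2496) (nb (nat_lit 3) (nat_lit 1216) (nb (nat_lit 0x30000000000000005) (nat_lit 128) (nat_lit 0))))⟩, ⟨(nat_lit 10), (nat_lit 54), (nb (nat_lit 0x2000000000000000a000000000000000d0000000000000005) (nat_lit 4864) (nb (nat_lit 0x18000000000000003000000000000000220000000000000005)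 (nat_lit 2432) (nb (nat_lit 2) (nat_lit 1216) (nat_lit 0)))), (nb (nat_lit 0x100000000000000020000000000000001) (nat_lit 6080) (nb (nat_lit 0xc000000000000002200000000000000200000000000000009) (nat_lit 3648) (nb (nat_lit 0x100000000000000018000000000000000c) (nat_lit 1280) (nat_lit 0))))⟩, ⟨(nat_lit 12), (nat_lit 56), (nb (nat_lit 0x10000000000000001) (nat_lit 6208) (nb (nat_lit 0x50000000000000008) (nat_lit 4864) (nb (nat_lit 9) (nat_lit 3840) (nb (nat_lit 0x13000000000000002b000000000000001d) (nat_lit 2432) (nat_lit 0))))), (nb (nat_lit 1) (nat_lit 6080) (nb (nat_lit 0x50000000000000003) (nat_lit 4992) (nb (nat_lit 0x300000000000000190000000000000017) (nat_lit 3648) (nb (nat_lit 5) (nat_lit 2624) (nb (nat_lit 0x20000000000000012000000000000001a000000000000000e) (nat_lit 1216) (nat_lit 0))))))⟩, ⟨(nat_lit 14), (nat_lit 58), (nb (nat_lit 0x1000000000000000200000000000000020000000000000001) (nat_lit 6080) (nb (nat_lit 0x1700000000000000200000000000000014)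 (nat_lit 3712) (nb (nat_lit 14) (nat_lit 2432) (nb (nat_lit 0xe000000000000000c) (nat_lit 1344) (nat_lit 0))))), (nb (nat_lit 0x8000000000000000d000000000000000b0000000000000003) (nat_lit 4864) (nb (nat_lit 2) (nat_lit 3648) (nb (nat_lit 0x1d0000000000000022000000000000000a) (nat_lit 2496) (nb (nat_lit 0x4000000000000000c) (nat_lit 1216) (nat_lit 0)))))⟩, ⟨(nat_lit 16), (nat_lit 50), (nb (nat_lit 0x10000000000000001) (nat_lit 6080) (nb (nat_lit 3) (nat_lit 5056) (nb (nat_lit 0x2000000000000001900000000000000220000000000000016) (nat_lit 3648) (nb (nat_lit 0xc000000000000001a00000000000000180000000000000008) (nat_lit 1216) (nat_lit 0))))), (nb (nat_lit 1) (nat_lit 6272) (nb (nat_lit 0x5000000000000000a0000000000000008) (nat_lit 4864) (nb (nat_lit 0xe000000000000002b00000000000000300000000000000018) (nat_lit 2432) (nat_lit 0))))⟩, ⟨(nat_lit 18), (nat_lit 52), (nb (nat_lit 0x8000000000000000b0000000000000003) (nat_lit 4928) (nb (nat_lit 0x3000000000000000c)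 (nat_lit 3648) (nb (nat_lit 0x18000000000000000a) (nat_lit 2560) (nb (nat_lit 0x400000000000000120000000000000010) (nat_lit 1216) (nat_lit 0))))), (nb (nat_lit 0x100000000000000020000000000000001) (nat_lit 6144) (nb (nat_lit 2) (nat_lit 4864) (nb (nat_lit 0x160000000000000014) (nat_lit 3776) (nb (nat_lit 0x130000000000000018) (nat_lit 2432) (nb (nat_lit 8) (nat_lit 1408) (nat_lit 0))))))⟩, ⟨(nat_lit 20), (nat_lit 46), (nb (nat_lit 3) (nat_lit 3840) (nb (nat_lit 0x1000000000000000d000000000000000b000000000000000c) (nat_lit 2432) (nat_lit 0x6000000000000000a000000000000000a0000000000000004))), (nb (nat_lit 1) (nat_lit 5056) (nb (nat_lit 0x300000000000000020000000000000003) (nat_lit 3648) (nb (nat_lit 0x900000000000000130000000000000013000000000000000e) (nat_lit 1216) (nat_lit 0))))⟩, ⟨(nat_lit 22), (nat_lit 48), (nb (nat_lit 0x3000000000000000600000000000000000000000000000001) (nat_lit 3648) (nb (nat_lit 1) (nat_lit 2496) (nb (nat_lit 0xe0000000000000005)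 (nat_lit 1344) (nat_lit 0x200000000000000060000000000000006)))), (nb (nat_lit 1) (nat_lit 4992) (nb (nat_lit 0xc000000000000000b00000000000000000000000000000001) (nat_lit 2432) (nb (nat_lit 0x50000000000000005) (nat_lit 1216) (nb (nat_lit 4) (nat_lit 192) (nat_lit 0)))))⟩, ⟨(nat_lit 24), (nat_lit 40), (nb (nat_lit 0x20000000000000005) (nat_lit 3712) (nb (nat_lit 0x1000000000000000000000000000000000000000000000002) (nat_lit 2432) (nb (nat_lit 0x50000000000000013000000000000000a) (nat_lit 1280) (nat_lit 0)))), (nb (nat_lit 1) (nat_lit 4928) (nb (nat_lit 0x1000000000000000000000000000000000000000000000001) (nat_lit 3648) (nb (nat_lit 0xb000000000000000a) (nat_lit 2496) (nb (nat_lit 0x6000000000000000a0000000000000004) (nat_lit 64) (nat_lit 0)))))⟩, ⟨(nat_lit 26), (nat_lit 42), (nb (nat_lit 0x1000000000000000000000000000000030000000000000006) (nat_lit 3648) (nb (nat_lit 0x50000000000000013000000000000000a) (nat_lit 1216) (nat_lit 0))), (nb (nat_lit 1)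 (nat_lit 4864) (nb (nat_lit 0x20000000000000001000000000000000d000000000000000c) (nat_lit 2432) (nat_lit 0x6000000000000000a0000000000000004)))⟩, ⟨(nat_lit 28), (nat_lit 44), (nb (nat_lit 0x1000000000000000100000000000000010000000000000001) (nat_lit 4864) (nb (nat_lit 0xc000000000000000a000000000000000b) (nat_lit 2496) (nb (nat_lit 9) (nat_lit 1216) (nb (nat_lit 0x40000000000000004) (nat_lit 128) (nat_lit 0))))), (nb (nat_lit 0x6000000000000000500000000000000060000000000000003) (nat_lit 3648) (nb (nat_lit 1) (nat_lit 2432) (nb (nat_lit 0xa000000000000000a0000000000000005) (nat_lit 1280) (nat_lit 0x20000000000000006))))⟩]⟩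
def e698 : En := ⟨(nat_lit 60), (nat_lit 4369), (nat_lit 270), (nat_lit 10584), [⟨(nat_lit 2), (nat_lit 40), (nb (nat_lit 0x3000000000000000200000000000000030000000000000003) (nat_lit 188480) (nb (nat_lit 3) (nat_lit 94912) (nb (nat_lit 0x1000000000000000100000000000000000000000000000001) (nat_lit 2432) (nat_lit 0x2000000000000000000000000000000000000000000000002)))), (nb (nat_lit 0x1000000000000000100000000000000010000000000000001) (nat_lit 189696) (nb (nat_lit 0x2000000000000000000000000000000020000000000000002) (nat_lit 187264) (nb (nat_lit 1) (nat_lit 96128) (nb (nat_lit 2) (nat_lit 93696) (nb (nat_lit 0x3000000000000000200000000000000000000000000000003) (nat_lit 1216) (nat_lit 0))))))⟩, ⟨(nat_lit 4), (nat_lit 50), (nb (nat_lit 1) (nat_lit 97280) (nb (nat_lit 1) (nat_lit 96192) (nb (nat_lit 2) (nat_lit 94848) (nb (nat_lit 1) (nat_lit 3648) (nb (nat_lit 1) (nat_lit 2560) (nb (nat_lit 2) (nat_lit 1216) (nat_lit 0))))))), (nb (nat_lit 3) (nat_lit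 96064) (nb (nat_lit 2) (nat_lit 94976) (nb (nat_lit 3) (nat_lit 2432) (nb (nat_lit 2) (nat_lit 1344) (nat_lit 0)))))⟩, ⟨(nat_lit 6), (nat_lit 56), (nb (nat_lit 1) (nat_lit 190912) (nb (nat_lit 1) (nat_lit 189824) (nb (nat_lit 2) (nat_lit 188480) (nb (nat_lit 1) (nat_lit 97280) (nb (nat_lit 1) (nat_lit 96192) (nb (nat_lit 2) (nat_lit 94848) (nat_lit 0))))))), (nb (nat_lit 3) (nat_lit 189696) (nb (nat_lit 2) (nat_lit 188608) (nb (nat_lit 3) (nat_lit 96064) (nb (nat_lit 2) (nat_lit 94976) (nat_lit 0)))))⟩, ⟨(nat_lit 8), (nat_lit 48), (nb (nat_lit 1) (nat_lit 189696) (nb (nat_lit 0x2000000000000000000000000000000020000000000000002) (nat_lit 187264) (nb (nat_lit 2) (nat_lit 93696) (nb (nat_lit 0x1000000000000000000000000000000000000000000000003) (nat_lit 1216) (nat_lit 0))))), (nb (nat_lit 0x1000000000000000000000000000000010000000000000003) (nat_lit 188480) (nb (nat_lit 1) (nat_lit 94912) (nb (nat_lit 1) (nat_lit 2432) (nat_lit 0x2000000000000000000000000000000000000000000000002))))⟩,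 ⟨(nat_lit 10), (nat_lit 18), (nb (nat_lit 0x1000000000000000000000000000000010000000000000003) (nat_lit 189696) (nb (nat_lit 0x1000000000000000100000000000000010000000000000001) (nat_lit 97280) (nb (nat_lit 0x4000000000000000200000000000000020000000000000002) (nat_lit 94848) (nb (nat_lit 0x3000000000000000200000000000000000000000000000003) (nat_lit 2432) (nat_lit 0))))), (nb (nat_lit 1) (nat_lit 190912) (nb (nat_lit 0x2000000000000000000000000000000020000000000000002) (nat_lit 188480) (nb (nat_lit 0x4000000000000000300000000000000030000000000000003) (nat_lit 96064) (nb (nat_lit 0x1000000000000000100000000000000000000000000000001) (nat_lit 3648) (nb (nat_lit 0x2000000000000000000000000000000000000000000000002) (nat_lit 1216) (nat_lit 0))))))⟩, ⟨(nat_lit 14), (nat_lit 28), (nb (nat_lit 0x1000000000000000100000000000000010000000000000001) (nat_lit 190912) (nb (nat_lit 0x4000000000000000200000000000000040000000000000002) (nat_lit 188480) (nb (nat_lit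 1) (nat_lit 97344) (nb (nat_lit 4) (nat_lit 94912) (nb (nat_lit 0x4000000000000000300000000000000000000000000000003) (nat_lit 2432) (nat_lit 0)))))), (nb (nat_lit 0x4000000000000000300000000000000040000000000000003) (nat_lit 189696) (nb (nat_lit 4) (nat_lit 96128) (nb (nat_lit 0x1000000000000000100000000000000000000000000000001) (nat_lit 3648) (nb (nat_lit 0x4000000000000000200000000000000000000000000000002) (nat_lit 1216) (nat_lit 0)))))⟩, ⟨(nat_lit 20), (nat_lit 26), (nb (nat_lit 0x1000000000000000100000000000000010000000000000001) (nat_lit 189696) (nb (nat_lit 0x2000000000000000000000000000000020000000000000002) (nat_lit 187264) (nb (nat_lit 1) (nat_lit 97280) (nb (nat_lit 0x10000000000000001) (nat_lit 96128) (nb (nat_lit 2) (nat_lit 94848) (nb (nat_lit 2) (nat_lit 93696) (nb (nat_lit 1) (nat_lit 3648) (nb (nat_lit 0x3000000000000000000000000000000000000000000000005) (nat_lit 1216) (nat_lit 0))))))))), (nb (nat_lit 0x3000000000000000200000000000000030000000000000003)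 (nat_lit 188480) (nb (nat_lit 3) (nat_lit 96064) (nb (nat_lit 0x20000000000000003) (nat_lit 94912) (nb (nat_lit 0x1000000000000000000000000000000000000000000000004) (nat_lit 2432) (nat_lit 0x2000000000000000000000000000000000000000000000002)))))⟩]⟩
def e699 : En := ⟨(nat_lit 62), (nat_lit 65809), (nat_lit 270), (nat_lit 10584), [⟨(nat_lit 0), (nat_lit 40), (nb (nat_lit 1) (nat_lit 189696) (nb (nat_lit 0x2000000000000000000000000000000020000000000000002) (nat_lit 187264) (nb (nat_lit 2) (nat_lit 93696) (nb (nat_lit 0x1000000000000000000000000000000000000000000000003) (nat_lit 1216) (nat_lit 0))))), (nb (nat_lit 0x1000000000000000000000000000000010000000000000003) (nat_lit 188480) (nb (nat_lit 1) (nat_lit 94912) (nb (nat_lit 1) (nat_lit 2432) (nat_lit 0x2000000000000000000000000000000000000000000000002))))⟩, ⟨(nat_lit 4), (nat_lit 42), (nb (nat_lit 0x3000000000000000200000000000000030000000000000003) (nat_lit 188480) (nb (nat_lit 3) (nat_lit 94912)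 (nb (nat_lit 0x1000000000000000100000000000000000000000000000001) (nat_lit 2432) (nat_lit 0x2000000000000000000000000000000000000000000000002)))), (nb (nat_lit 0x1000000000000000100000000000000010000000000000001) (nat_lit 189696) (nb (nat_lit 0x2000000000000000000000000000000020000000000000002) (nat_lit 187264) (nb (nat_lit 1) (nat_lit 96128) (nb (nat_lit 2) (nat_lit 93696) (nb (nat_lit 0x3000000000000000200000000000000000000000000000003) (nat_lit 1216) (nat_lit 0))))))⟩, ⟨(nat_lit 6), (nat_lit 52), (nb (nat_lit 1) (nat_lit 97280) (nb (nat_lit 1) (nat_lit 96192) (nb (nat_lit 2) (nat_lit 94848) (nb (nat_lit 1) (nat_lit 3648) (nb (nat_lit 1) (nat_lit 2560) (nb (nat_lit 2) (nat_lit 1216) (nat_lit 0))))))), (nb (nat_lit 3) (nat_lit 96064) (nb (nat_lit 2) (nat_lit 94976) (nb (nat_lit 3) (nat_lit 2432) (nb (nat_lit 2) (nat_lit 1344) (nat_lit 0)))))⟩, ⟨(nat_lit 8), (nat_lit 58), (nb (nat_lit 1) (nat_lit 190912) (nb (nat_lit 1) (nat_lit 189824) (nb (nat_lit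 2) (nat_lit 188480) (nb (nat_lit 1) (nat_lit 97280) (nb (nat_lit 1) (nat_lit 96192) (nb (nat_lit 2) (nat_lit 94848) (nat_lit 0))))))), (nb (nat_lit 3) (nat_lit 189696) (nb (nat_lit 2) (nat_lit 188608) (nb (nat_lit 3) (nat_lit 96064) (nb (nat_lit 2) (nat_lit 94976) (nat_lit 0)))))⟩, ⟨(nat_lit 10), (nat_lit 12), (nb (nat_lit 1) (nat_lit 190912) (nb (nat_lit 0x2000000000000000000000000000000020000000000000002) (nat_lit 188480) (nb (nat_lit 0x4000000000000000300000000000000030000000000000003) (nat_lit 96064) (nb (nat_lit 0x1000000000000000100000000000000000000000000000001) (nat_lit 3648) (nb (nat_lit 0x2000000000000000000000000000000000000000000000002) (nat_lit 1216) (nat_lit 0)))))), (nb (nat_lit 0x1000000000000000000000000000000010000000000000003) (nat_lit 189696) (nb (nat_lit 0x1000000000000000100000000000000010000000000000001) (nat_lit 97280) (nb (nat_lit 0x4000000000000000200000000000000020000000000000002) (nat_lit 94848) (nb (nat_lit 0x3000000000000000200000000000000000000000000000003)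 (nat_lit 2432) (nat_lit 0)))))⟩, ⟨(nat_lit 16), (nat_lit 20), (nb (nat_lit 0x1000000000000000100000000000000010000000000000001) (nat_lit 190912) (nb (nat_lit 0x4000000000000000200000000000000040000000000000002) (nat_lit 188480) (nb (nat_lit 1) (nat_lit 97344) (nb (nat_lit 4) (nat_lit 94912) (nb (nat_lit 0x4000000000000000300000000000000000000000000000003) (nat_lit 2432) (nat_lit 0)))))), (nb (nat_lit 0x4000000000000000300000000000000040000000000000003) (nat_lit 189696) (nb (nat_lit 4) (nat_lit 96128) (nb (nat_lit 0x1000000000000000100000000000000000000000000000001) (nat_lit 3648) (nb (nat_lit 0x4000000000000000200000000000000000000000000000002) (nat_lit 1216) (nat_lit 0)))))⟩, ⟨(nat_lit 22), (nat_lit 28), (nb (nat_lit 0x1000000000000000100000000000000010000000000000001) (nat_lit 189696) (nb (nat_lit 0x2000000000000000000000000000000020000000000000002) (nat_lit 187264) (nb (nat_lit 1) (nat_lit 97280) (nb (nat_lit 0x10000000000000001) (nat_lit 96128)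 (nb (nat_lit 2) (nat_lit 94848) (nb (nat_lit 2) (nat_lit 93696) (nb (nat_lit 1) (nat_lit 3648) (nb (nat_lit 0x3000000000000000000000000000000000000000000000005) (nat_lit 1216) (nat_lit 0))))))))), (nb (nat_lit 0x3000000000000000200000000000000030000000000000003) (nat_lit 188480) (nb (nat_lit 3) (nat_lit 96064) (nb (nat_lit 0x20000000000000003) (nat_lit 94912) (nb (nat_lit 0x1000000000000000000000000000000000000000000000004) (nat_lit 2432) (nat_lit 0x2000000000000000000000000000000000000000000000002)))))⟩]⟩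
def e700 : En := ⟨(nat_lit 64), (nat_lit 69649), (nat_lit 270), (nat_lit 10584), [⟨(nat_lit 0), (nat_lit 50), (nb (nat_lit 1) (nat_lit 190912) (nb (nat_lit 1) (nat_lit 189824) (nb (nat_lit 2) (nat_lit 188480) (nb (nat_lit 1) (nat_lit 97280) (nb (nat_lit 1) (nat_lit 96192) (nb (nat_lit 2) (nat_lit 94848) (nat_lit 0))))))), (nb (nat_lit 3) (nat_lit 189696) (nb (nat_lit 2) (nat_lit 188608) (nb (nat_lit 3) (nat_lit 96064) (nb (nat_lit 2) (nat_lit 94976) (nat_lit 0)))))⟩, ⟨(nat_lit 2), (nat_lit 42), (nb (nat_lit 1) (nat_lit 189696) (nb (nat_lit 0x2000000000000000000000000000000020000000000000002) (nat_lit 187264) (nb (nat_lit 2) (nat_lit 93696) (nb (nat_lit 0x1000000000000000000000000000000000000000000000003) (nat_lit 1216) (nat_lit 0))))), (nb (nat_lit 0x1000000000000000000000000000000010000000000000003) (nat_lit 188480) (nb (nat_lit 1) (nat_lit 94912) (nb (nat_lit 1) (nat_lit 2432) (nat_lit 0x2000000000000000000000000000000000000000000000002))))⟩, ⟨(nat_lit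 6), (nat_lit 44), (nb (nat_lit 0x3000000000000000200000000000000030000000000000003) (nat_lit 188480) (nb (nat_lit 3) (nat_lit 94912) (nb (nat_lit 0x1000000000000000100000000000000000000000000000001) (nat_lit 2432) (nat_lit 0x2000000000000000000000000000000000000000000000002)))), (nb (nat_lit 0x1000000000000000100000000000000010000000000000001) (nat_lit 189696) (nb (nat_lit 0x2000000000000000000000000000000020000000000000002) (nat_lit 187264) (nb (nat_lit 1) (nat_lit 96128) (nb (nat_lit 2) (nat_lit 93696) (nb (nat_lit 0x3000000000000000200000000000000000000000000000003) (nat_lit 1216) (nat_lit 0))))))⟩, ⟨(nat_lit 8), (nat_lit 54), (nb (nat_lit 1) (nat_lit 97280) (nb (nat_lit 1) (nat_lit 96192) (nb (nat_lit 2) (nat_lit 94848) (nb (nat_lit 1) (nat_lit 3648) (nb (nat_lit 1) (nat_lit 2560) (nb (nat_lit 2) (nat_lit 1216) (nat_lit 0))))))), (nb (nat_lit 3) (nat_lit 96064) (nb (nat_lit 2) (nat_lit 94976) (nb (nat_lit 3) (nat_lit 2432) (nb (nat_lit 2) (nat_lit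 1344) (nat_lit 0)))))⟩, ⟨(nat_lit 12), (nat_lit 14), (nb (nat_lit 1) (nat_lit 190912) (nb (nat_lit 0x2000000000000000000000000000000020000000000000002) (nat_lit 188480) (nb (nat_lit 0x4000000000000000300000000000000030000000000000003) (nat_lit 96064) (nb (nat_lit 0x1000000000000000100000000000000000000000000000001) (nat_lit 3648) (nb (nat_lit 0x2000000000000000000000000000000000000000000000002) (nat_lit 1216) (nat_lit 0)))))), (nb (nat_lit 0x1000000000000000000000000000000010000000000000003) (nat_lit 189696) (nb (nat_lit 0x1000000000000000100000000000000010000000000000001) (nat_lit 97280) (nb (nat_lit 0x4000000000000000200000000000000020000000000000002) (nat_lit 94848) (nb (nat_lit 0x3000000000000000200000000000000000000000000000003) (nat_lit 2432) (nat_lit 0)))))⟩, ⟨(nat_lit 18), (nat_lit 22), (nb (nat_lit 0x1000000000000000100000000000000010000000000000001) (nat_lit 190912) (nb (nat_lit 0x4000000000000000200000000000000040000000000000002) (nat_lit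 188480) (nb (nat_lit 1) (nat_lit 97344) (nb (nat_lit 4) (nat_lit 94912) (nb (nat_lit 0x4000000000000000300000000000000000000000000000003) (nat_lit 2432) (nat_lit 0)))))), (nb (nat_lit 0x4000000000000000300000000000000040000000000000003) (nat_lit 189696) (nb (nat_lit 4) (nat_lit 96128) (nb (nat_lit 0x1000000000000000100000000000000000000000000000001) (nat_lit 3648) (nb (nat_lit 0x4000000000000000200000000000000000000000000000002) (nat_lit 1216) (nat_lit 0)))))⟩, ⟨(nat_lit 20), (nat_lit 24), (nb (nat_lit 0x3000000000000000200000000000000030000000000000003) (nat_lit 188480) (nb (nat_lit 3) (nat_lit 96064) (nb (nat_lit 0x20000000000000003) (nat_lit 94912) (nb (nat_lit 0x1000000000000000000000000000000000000000000000004) (nat_lit 2432) (nat_lit 0x2000000000000000000000000000000000000000000000002))))), (nb (nat_lit 0x1000000000000000100000000000000010000000000000001) (nat_lit 189696) (nb (nat_lit 0x2000000000000000000000000000000020000000000000002) (nat_lit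 187264) (nb (nat_lit 1) (nat_lit 97280) (nb (nat_lit 0x10000000000000001) (nat_lit 96128) (nb (nat_lit 2) (nat_lit 94848) (nb (nat_lit 2) (nat_lit 93696) (nb (nat_lit 1) (nat_lit 3648) (nb (nat_lit 0x3000000000000000000000000000000000000000000000005) (nat_lit 1216) (nat_lit 0)))))))))⟩]⟩
def e701 : En := ⟨(nat_lit 66), (nat_lit 69889), (nat_lit 270), (nat_lit 10584), [⟨(nat_lit 0), (nat_lit 56), (nb (nat_lit 1) (nat_lit 97280) (nb (nat_lit 1) (nat_lit 96192) (nb (nat_lit 2) (nat_lit 94848) (nb (nat_lit 1) (nat_lit 3648) (nb (nat_lit 1) (nat_lit 2560) (nb (nat_lit 2) (nat_lit 1216) (nat_lit 0))))))), (nb (nat_lit 3) (nat_lit 96064) (nb (nat_lit 2) (nat_lit 94976) (nb (nat_lit 3) (nat_lit 2432) (nb (nat_lit 2) (nat_lit 1344) (nat_lit 0)))))⟩, ⟨(nat_lit 2), (nat_lit 52), (nb (nat_lit 1) (nat_lit 190912) (nb (nat_lit 1) (nat_lit 189824) (nb (nat_lit 2) (nat_lit 188480) (nb (nat_lit 1) (nat_lit 97280) (nb (nat_lit 1) (nat_lit 96192) (nb (nat_lit 2) (nat_lit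 94848) (nat_lit 0))))))), (nb (nat_lit 3) (nat_lit 189696) (nb (nat_lit 2) (nat_lit 188608) (nb (nat_lit 3) (nat_lit 96064) (nb (nat_lit 2) (nat_lit 94976) (nat_lit 0)))))⟩, ⟨(nat_lit 4), (nat_lit 44), (nb (nat_lit 1) (nat_lit 189696) (nb (nat_lit 0x2000000000000000000000000000000020000000000000002) (nat_lit 187264) (nb (nat_lit 2) (nat_lit 93696) (nb (nat_lit 0x1000000000000000000000000000000000000000000000003) (nat_lit 1216) (nat_lit 0))))), (nb (nat_lit 0x1000000000000000000000000000000010000000000000003) (nat_lit 188480) (nb (nat_lit 1) (nat_lit 94912) (nb (nat_lit 1) (nat_lit 2432) (nat_lit 0x2000000000000000000000000000000000000000000000002))))⟩, ⟨(nat_lit 8), (nat_lit 46), (nb (nat_lit 0x3000000000000000200000000000000030000000000000003) (nat_lit 188480) (nb (nat_lit 3) (nat_lit 94912) (nb (nat_lit 0x1000000000000000100000000000000000000000000000001) (nat_lit 2432) (nat_lit 0x2000000000000000000000000000000000000000000000002)))), (nb (nat_lit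 0x1000000000000000100000000000000010000000000000001) (nat_lit 189696) (nb (nat_lit 0x2000000000000000000000000000000020000000000000002) (nat_lit 187264) (nb (nat_lit 1) (nat_lit 96128) (nb (nat_lit 2) (nat_lit 93696) (nb (nat_lit 0x3000000000000000200000000000000000000000000000003) (nat_lit 1216) (nat_lit 0))))))⟩, ⟨(nat_lit 10), (nat_lit 24), (nb (nat_lit 0x1000000000000000100000000000000010000000000000001) (nat_lit 190912) (nb (nat_lit 0x4000000000000000200000000000000040000000000000002) (nat_lit 188480) (nb (nat_lit 1) (nat_lit 97344) (nb (nat_lit 4) (nat_lit 94912) (nb (nat_lit 0x4000000000000000300000000000000000000000000000003) (nat_lit 2432) (nat_lit 0)))))), (nb (nat_lit 0x4000000000000000300000000000000040000000000000003) (nat_lit 189696) (nb (nat_lit 4) (nat_lit 96128) (nb (nat_lit 0x1000000000000000100000000000000000000000000000001) (nat_lit 3648) (nb (nat_lit 0x4000000000000000200000000000000000000000000000002) (nat_lit 1216) (nat_lit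 0)))))⟩, ⟨(nat_lit 14), (nat_lit 16), (nb (nat_lit 1) (nat_lit 190912) (nb (nat_lit 0x2000000000000000000000000000000020000000000000002) (nat_lit 188480) (nb (nat_lit 0x4000000000000000300000000000000030000000000000003) (nat_lit 96064) (nb (nat_lit 0x1000000000000000100000000000000000000000000000001) (nat_lit 3648) (nb (nat_lit 0x2000000000000000000000000000000000000000000000002) (nat_lit 1216) (nat_lit 0)))))), (nb (nat_lit 0x1000000000000000000000000000000010000000000000003) (nat_lit 189696) (nb (nat_lit 0x1000000000000000100000000000000010000000000000001) (nat_lit 97280) (nb (nat_lit 0x4000000000000000200000000000000020000000000000002) (nat_lit 94848) (nb (nat_lit 0x3000000000000000200000000000000000000000000000003) (nat_lit 2432) (nat_lit 0)))))⟩, ⟨(nat_lit 22), (nat_lit 26), (nb (nat_lit 0x3000000000000000200000000000000030000000000000003) (nat_lit 188480) (nb (nat_lit 3) (nat_lit 96064) (nb (nat_lit 0x20000000000000003) (nat_lit 94912) (nb (nat_lit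 0x1000000000000000000000000000000000000000000000004) (nat_lit 2432) (nat_lit 0x2000000000000000000000000000000000000000000000002))))), (nb (nat_lit 0x1000000000000000100000000000000010000000000000001) (nat_lit 189696) (nb (nat_lit 0x2000000000000000000000000000000020000000000000002) (nat_lit 187264) (nb (nat_lit 1) (nat_lit 97280) (nb (nat_lit 0x10000000000000001) (nat_lit 96128) (nb (nat_lit 2) (nat_lit 94848) (nb (nat_lit 2) (nat_lit 93696) (nb (nat_lit 1) (nat_lit 3648) (nb (nat_lit 0x3000000000000000000000000000000000000000000000005) (nat_lit 1216) (nat_lit 0)))))))))⟩]⟩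
def e702 : En := ⟨(nat_lit 68), (nat_lit 69904), (nat_lit 270), (nat_lit 10584), [⟨(nat_lit 0), (nat_lit 48), (nb (nat_lit 0x3000000000000000200000000000000030000000000000003) (nat_lit 188480) (nb (nat_lit 3) (nat_lit 94912) (nb (nat_lit 0x1000000000000000100000000000000000000000000000001) (nat_lit 2432) (nat_lit 0x2000000000000000000000000000000000000000000000002)))), (nb (nat_lit 0x1000000000000000100000000000000010000000000000001) (nat_lit 189696) (nb (nat_lit 0x2000000000000000000000000000000020000000000000002) (nat_lit 187264) (nb (nat_lit 1) (nat_lit 96128) (nb (nat_lit 2) (nat_lit 93696) (nb (nat_lit 0x3000000000000000200000000000000000000000000000003) (nat_lit 1216) (nat_lit 0))))))⟩, ⟨(nat_lit 2), (nat_lit 58), (nb (nat_lit 1) (nat_lit 97280) (nb (nat_lit 1) (nat_lit 96192) (nb (nat_lit 2) (nat_lit 94848) (nb (nat_lit 1) (nat_lit 3648) (nb (nat_lit 1) (nat_lit 2560) (nb (nat_lit 2) (nat_lit 1216) (nat_lit 0))))))), (nb (nat_lit 3) (nat_lit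 96064) (nb (nat_lit 2) (nat_lit 94976) (nb (nat_lit 3) (nat_lit 2432) (nb (nat_lit 2) (nat_lit 1344) (nat_lit 0)))))⟩, ⟨(nat_lit 4), (nat_lit 54), (nb (nat_lit 1) (nat_lit 190912) (nb (nat_lit 1) (nat_lit 189824) (nb (nat_lit 2) (nat_lit 188480) (nb (nat_lit 1) (nat_lit 97280) (nb (nat_lit 1) (nat_lit 96192) (nb (nat_lit 2) (nat_lit 94848) (nat_lit 0))))))), (nb (nat_lit 3) (nat_lit 189696) (nb (nat_lit 2) (nat_lit 188608) (nb (nat_lit 3) (nat_lit 96064) (nb (nat_lit 2) (nat_lit 94976) (nat_lit 0)))))⟩, ⟨(nat_lit 6), (nat_lit 46), (nb (nat_lit 1) (nat_lit 189696) (nb (nat_lit 0x2000000000000000000000000000000020000000000000002) (nat_lit 187264) (nb (nat_lit 2) (nat_lit 93696) (nb (nat_lit 0x1000000000000000000000000000000000000000000000003) (nat_lit 1216) (nat_lit 0))))), (nb (nat_lit 0x1000000000000000000000000000000010000000000000003) (nat_lit 188480) (nb (nat_lit 1) (nat_lit 94912) (nb (nat_lit 1) (nat_lit 2432) (nat_lit 0x2000000000000000000000000000000000000000000000002))))⟩,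 ⟨(nat_lit 12), (nat_lit 26), (nb (nat_lit 0x1000000000000000100000000000000010000000000000001) (nat_lit 190912) (nb (nat_lit 0x4000000000000000200000000000000040000000000000002) (nat_lit 188480) (nb (nat_lit 1) (nat_lit 97344) (nb (nat_lit 4) (nat_lit 94912) (nb (nat_lit 0x4000000000000000300000000000000000000000000000003) (nat_lit 2432) (nat_lit 0)))))), (nb (nat_lit 0x4000000000000000300000000000000040000000000000003) (nat_lit 189696) (nb (nat_lit 4) (nat_lit 96128) (nb (nat_lit 0x1000000000000000100000000000000000000000000000001) (nat_lit 3648) (nb (nat_lit 0x4000000000000000200000000000000000000000000000002) (nat_lit 1216) (nat_lit 0)))))⟩, ⟨(nat_lit 16), (nat_lit 18), (nb (nat_lit 1) (nat_lit 190912) (nb (nat_lit 0x2000000000000000000000000000000020000000000000002) (nat_lit 188480) (nb (nat_lit 0x4000000000000000300000000000000030000000000000003) (nat_lit 96064) (nb (nat_lit 0x1000000000000000100000000000000000000000000000001) (nat_lit 3648)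 (nb (nat_lit 0x2000000000000000000000000000000000000000000000002) (nat_lit 1216) (nat_lit 0)))))), (nb (nat_lit 0x1000000000000000000000000000000010000000000000003) (nat_lit 189696) (nb (nat_lit 0x1000000000000000100000000000000010000000000000001) (nat_lit 97280) (nb (nat_lit 0x4000000000000000200000000000000020000000000000002) (nat_lit 94848) (nb (nat_lit 0x3000000000000000200000000000000000000000000000003) (nat_lit 2432) (nat_lit 0)))))⟩, ⟨(nat_lit 24), (nat_lit 28), (nb (nat_lit 0x3000000000000000200000000000000030000000000000003) (nat_lit 188480) (nb (nat_lit 3) (nat_lit 96064) (nb (nat_lit 0x20000000000000003) (nat_lit 94912) (nb (nat_lit 0x1000000000000000000000000000000000000000000000004) (nat_lit 2432) (nat_lit 0x2000000000000000000000000000000000000000000000002))))), (nb (nat_lit 0x1000000000000000100000000000000010000000000000001) (nat_lit 189696) (nb (nat_lit 0x2000000000000000000000000000000020000000000000002) (nat_lit 187264) (nb (nat_lit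 1) (nat_lit 97280) (nb (nat_lit 0x10000000000000001) (nat_lit 96128) (nb (nat_lit 2) (nat_lit 94848) (nb (nat_lit 2) (nat_lit 93696) (nb (nat_lit 1) (nat_lit 3648) (nb (nat_lit 0x3000000000000000000000000000000000000000000000005) (nat_lit 1216) (nat_lit 0)))))))))⟩]⟩
def e703 : En := ⟨(nat_lit 40), (nat_lit 273), (nat_lit 24), (nat_lit 252), [⟨(nat_lit 4), (nat_lit 20), (nb (nat_lit 1) (nat_lit 94848) (nb (nat_lit 1) (nat_lit 93760) (nb (nat_lit 1) (nat_lit 1216) (nb (nat_lit 1) (nat_lit 128) (nat_lit 0))))), (nb (nat_lit 1) (nat_lit 93632) (nat_lit 1))⟩, ⟨(nat_lit 6), (nat_lit 10), (nb (nat_lit 1) (nat_lit 96064) (nb (nat_lit 1) (nat_lit 94976) (nb (nat_lit 1) (nat_lit 2432) (nb (nat_lit 1) (nat_lit 1344) (nat_lit 0))))), (nb (nat_lit 1) (nat_lit 94848) (nb (nat_lit 1) (nat_lit 1216) (nat_lit 0)))⟩, ⟨(nat_lit 8), (nat_lit 28), (nb (nat_lit 1) (nat_lit 96064) (nb (nat_lit 1) (nat_lit 94976) (nb (nat_lit 1) (nat_lit 93632) (nb (nat_lit 1) (nat_lit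 2432) (nb (nat_lit 1) (nat_lit 1344) (nat_lit 1)))))), (nb (nat_lit 2) (nat_lit 94848) (nb (nat_lit 1) (nat_lit 93760) (nb (nat_lit 2) (nat_lit 1216) (nb (nat_lit 1) (nat_lit 128) (nat_lit 0)))))⟩]⟩
def e704 : En := ⟨(nat_lit 42), (nat_lit 65553), (nat_lit 24), (nat_lit 252), [⟨(nat_lit 0), (nat_lit 20), (nb (nat_lit 1) (nat_lit 96064) (nb (nat_lit 1) (nat_lit 94976) (nb (nat_lit 1) (nat_lit 93632) (nb (nat_lit 1) (nat_lit 2432) (nb (nat_lit 1) (nat_lit 1344) (nat_lit 1)))))), (nb (nat_lit 2) (nat_lit 94848) (nb (nat_lit 1) (nat_lit 93760) (nb (nat_lit 2) (nat_lit 1216) (nb (nat_lit 1) (nat_lit 128) (nat_lit 0)))))⟩, ⟨(nat_lit 6), (nat_lit 22), (nb (nat_lit 1) (nat_lit 94848) (nb (nat_lit 1) (nat_lit 93760) (nb (nat_lit 1) (nat_lit 1216) (nb (nat_lit 1) (nat_lit 128) (nat_lit 0))))), (nb (nat_lit 1) (nat_lit 93632) (nat_lit 1))⟩, ⟨(nat_lit 8), (nat_lit 12), (nb (nat_lit 1) (nat_lit 96064) (nb (nat_lit 1) (nat_lit 94976) (nb (nat_lit 1) (nat_lit 2432)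 (nb (nat_lit 1) (nat_lit 1344) (nat_lit 0))))), (nb (nat_lit 1) (nat_lit 94848) (nb (nat_lit 1) (nat_lit 1216) (nat_lit 0)))⟩]⟩
def e705 : En := ⟨(nat_lit 44), (nat_lit 69633), (nat_lit 24), (nat_lit 252), [⟨(nat_lit 0), (nat_lit 14), (nb (nat_lit 1) (nat_lit 96064) (nb (nat_lit 1) (nat_lit 94976) (nb (nat_lit 1) (nat_lit 2432) (nb (nat_lit 1) (nat_lit 1344) (nat_lit 0))))), (nb (nat_lit 1) (nat_lit 94848) (nb (nat_lit 1) (nat_lit 1216) (nat_lit 0)))⟩, ⟨(nat_lit 2), (nat_lit 22), (nb (nat_lit 1) (nat_lit 96064) (nb (nat_lit 1) (nat_lit 94976) (nb (nat_lit 1) (nat_lit 93632) (nb (nat_lit 1) (nat_lit 2432) (nb (nat_lit 1) (nat_lit 1344) (nat_lit 1)))))), (nb (nat_lit 2) (nat_lit 94848) (nb (nat_lit 1) (nat_lit 93760) (nb (nat_lit 2) (nat_lit 1216) (nb (nat_lit 1) (nat_lit 128) (nat_lit 0)))))⟩, ⟨(nat_lit 8), (nat_lit 24), (nb (nat_lit 1) (nat_lit 94848) (nb (nat_lit 1) (nat_lit 93760) (nb (nat_lit 1) (nat_lit 1216) (nb (nat_lit 1) (nat_lit 128) (nat_lit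 0))))), (nb (nat_lit 1) (nat_lit 93632) (nat_lit 1))⟩]⟩
def e706 : En := ⟨(nat_lit 46), (nat_lit 69888), (nat_lit 24), (nat_lit 252), [⟨(nat_lit 0), (nat_lit 26), (nb (nat_lit 1) (nat_lit 94848) (nb (nat_lit 1) (nat_lit 93760) (nb (nat_lit 1) (nat_lit 1216) (nb (nat_lit 1) (nat_lit 128) (nat_lit 0))))), (nb (nat_lit 1) (nat_lit 93632) (nat_lit 1))⟩, ⟨(nat_lit 2), (nat_lit 16), (nb (nat_lit 1) (nat_lit 96064) (nb (nat_lit 1) (nat_lit 94976) (nb (nat_lit 1) (nat_lit 2432) (nb (nat_lit 1) (nat_lit 1344) (nat_lit 0))))), (nb (nat_lit 1) (nat_lit 94848) (nb (nat_lit 1) (nat_lit 1216) (nat_lit 0)))⟩, ⟨(nat_lit 4), (nat_lit 24), (nb (nat_lit 1) (nat_lit 96064) (nb (nat_lit 1) (nat_lit 94976) (nb (nat_lit 1) (nat_lit 93632) (nb (nat_lit 1) (nat_lit 2432) (nb (nat_lit 1) (nat_lit 1344) (nat_lit 1)))))), (nb (nat_lit 2) (nat_lit 94848) (nb (nat_lit 1) (nat_lit 93760) (nb (nat_lit 2) (nat_lit 1216) (nb (nat_lit 1) (nat_lit 128) (nat_lit 0)))))⟩]⟩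
def e707 : En := ⟨(nat_lit 48), (nat_lit 4368), (nat_lit 24), (nat_lit 252), [⟨(nat_lit 2), (nat_lit 28), (nb (nat_lit 1) (nat_lit 94848) (nb (nat_lit 1) (nat_lit 93760) (nb (nat_lit 1) (nat_lit 1216) (nb (nat_lit 1) (nat_lit 128) (nat_lit 0))))), (nb (nat_lit 1) (nat_lit 93632) (nat_lit 1))⟩, ⟨(nat_lit 4), (nat_lit 18), (nb (nat_lit 1) (nat_lit 96064) (nb (nat_lit 1) (nat_lit 94976) (nb (nat_lit 1) (nat_lit 2432) (nb (nat_lit 1) (nat_lit 1344) (nat_lit 0))))), (nb (nat_lit 1) (nat_lit 94848) (nb (nat_lit 1) (nat_lit 1216) (nat_lit 0)))⟩, ⟨(nat_lit 6), (nat_lit 26), (nb (nat_lit 1) (nat_lit 96064) (nb (nat_lit 1) (nat_lit 94976) (nb (nat_lit 1) (nat_lit 93632) (nb (nat_lit 1) (nat_lit 2432) (nb (nat_lit 1) (nat_lit 1344) (nat_lit 1)))))), (nb (nat_lit 2) (nat_lit 94848) (nb (nat_lit 1) (nat_lit 93760) (nb (nat_lit 2) (nat_lit 1216) (nb (nat_lit 1) (nat_lit 128) (nat_lit 0)))))⟩]⟩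
def e708 : En := ⟨(nat_lit 50), (nat_lit 4113), (nat_lit 42), (nat_lit 168), [⟨(nat_lit 2), (nat_lit 20), (nb (nat_lit 1) (nat_lit 94848) (nb (nat_lit 1) (nat_lit 93760) (nb (nat_lit 1) (nat_lit 1216) (nb (nat_lit 1) (nat_lit 128) (nat_lit 0))))), (nb (nat_lit 1) (nat_lit 93632) (nat_lit 1))⟩, ⟨(nat_lit 6), (nat_lit 14), (nb (nat_lit 0x2000000000000000000000000000000020000000000000002) (nat_lit 93632) (nb (nat_lit 0x1000000000000000100000000000000000000000000000001) (nat_lit 1216) (nat_lit 0))), (nb (nat_lit 0x1000000000000000100000000000000010000000000000002) (nat_lit 94848) (nat_lit 0x2000000000000000100000000000000000000000000000001))⟩, ⟨(nat_lit 8), (nat_lit 18), (nb (nat_lit 0x1000000000000000100000000000000010000000000000001) (nat_lit 94848) (nat_lit 0x2000000000000000000000000000000000000000000000002)), (nb (nat_lit 0x2000000000000000100000000000000020000000000000001) (nat_lit 93632) (nb (nat_lit 0x1000000000000000100000000000000000000000000000002)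 (nat_lit 1216) (nat_lit 0)))⟩]⟩
def e709 : En := ⟨(nat_lit 52), (nat_lit 65793), (nat_lit 42), (nat_lit 168), [⟨(nat_lit 0), (nat_lit 10), (nb (nat_lit 0x1000000000000000100000000000000010000000000000001) (nat_lit 94848) (nat_lit 0x2000000000000000000000000000000000000000000000002)), (nb (nat_lit 0x2000000000000000100000000000000020000000000000001) (nat_lit 93632) (nb (nat_lit 0x1000000000000000100000000000000000000000000000002) (nat_lit 1216) (nat_lit 0)))⟩, ⟨(nat_lit 4), (nat_lit 22), (nb (nat_lit 1) (nat_lit 94848) (nb (nat_lit 1) (nat_lit 93760) (nb (nat_lit 1) (nat_lit 1216) (nb (nat_lit 1) (nat_lit 128) (nat_lit 0))))), (nb (nat_lit 1) (nat_lit 93632) (nat_lit 1))⟩, ⟨(nat_lit 8), (nat_lit 16), (nb (nat_lit 0x2000000000000000000000000000000020000000000000002) (nat_lit 93632) (nb (nat_lit 0x1000000000000000100000000000000000000000000000001) (nat_lit 1216) (nat_lit 0))), (nb (nat_lit 0x1000000000000000100000000000000010000000000000002) (nat_lit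 94848) (nat_lit 0x2000000000000000100000000000000000000000000000001))⟩]⟩
def e710 : En := ⟨(nat_lit 54), (nat_lit 69648), (nat_lit 42), (nat_lit 168), [⟨(nat_lit 0), (nat_lit 18), (nb (nat_lit 0x2000000000000000000000000000000020000000000000002) (nat_lit 93632) (nb (nat_lit 0x1000000000000000100000000000000000000000000000001) (nat_lit 1216) (nat_lit 0))), (nb (nat_lit 0x1000000000000000100000000000000010000000000000002) (nat_lit 94848) (nat_lit 0x2000000000000000100000000000000000000000000000001))⟩, ⟨(nat_lit 2), (nat_lit 12), (nb (nat_lit 0x1000000000000000100000000000000010000000000000001) (nat_lit 94848) (nat_lit 0x2000000000000000000000000000000000000000000000002)), (nb (nat_lit 0x2000000000000000100000000000000020000000000000001) (nat_lit 93632) (nb (nat_lit 0x1000000000000000100000000000000000000000000000002) (nat_lit 1216) (nat_lit 0)))⟩, ⟨(nat_lit 6), (nat_lit 24), (nb (nat_lit 1) (nat_lit 94848) (nb (nat_lit 1) (nat_lit 93760) (nb (nat_lit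 1) (nat_lit 1216) (nb (nat_lit 1) (nat_lit 128) (nat_lit 0))))), (nb (nat_lit 1) (nat_lit 93632) (nat_lit 1))⟩]⟩
def e711 : En := ⟨(nat_lit 56), (nat_lit 4353), (nat_lit 42), (nat_lit 168), [⟨(nat_lit 2), (nat_lit 10), (nb (nat_lit 0x2000000000000000000000000000000020000000000000002) (nat_lit 93632) (nb (nat_lit 0x1000000000000000100000000000000000000000000000001) (nat_lit 1216) (nat_lit 0))), (nb (nat_lit 0x1000000000000000100000000000000010000000000000002) (nat_lit 94848) (nat_lit 0x2000000000000000100000000000000000000000000000001))⟩, ⟨(nat_lit 4), (nat_lit 14), (nb (nat_lit 0x1000000000000000100000000000000010000000000000001) (nat_lit 94848) (nat_lit 0x2000000000000000000000000000000000000000000000002)), (nb (nat_lit 0x2000000000000000100000000000000020000000000000001) (nat_lit 93632) (nb (nat_lit 0x1000000000000000100000000000000000000000000000002) (nat_lit 1216) (nat_lit 0)))⟩, ⟨(nat_lit 8), (nat_lit 26), (nb (nat_lit 1) (nat_lit 94848) (nb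 (nat_lit 1) (nat_lit 93760) (nb (nat_lit 1) (nat_lit 1216) (nb (nat_lit 1) (nat_lit 128) (nat_lit 0))))), (nb (nat_lit 1) (nat_lit 93632) (nat_lit 1))⟩]⟩
def e712 : En := ⟨(nat_lit 58), (nat_lit 65808), (nat_lit 42), (nat_lit 168), [⟨(nat_lit 0), (nat_lit 28), (nb (nat_lit 1) (nat_lit 94848) (nb (nat_lit 1) (nat_lit 93760) (nb (nat_lit 1) (nat_lit 1216) (nb (nat_lit 1) (nat_lit 128) (nat_lit 0))))), (nb (nat_lit 1) (nat_lit 93632) (nat_lit 1))⟩, ⟨(nat_lit 4), (nat_lit 12), (nb (nat_lit 0x2000000000000000000000000000000020000000000000002) (nat_lit 93632) (nb (nat_lit 0x1000000000000000100000000000000000000000000000001) (nat_lit 1216) (nat_lit 0))), (nb (nat_lit 0x1000000000000000100000000000000010000000000000002) (nat_lit 94848) (nat_lit 0x2000000000000000100000000000000000000000000000001))⟩, ⟨(nat_lit 6), (nat_lit 16), (nb (nat_lit 0x1000000000000000100000000000000010000000000000001) (nat_lit 94848) (nat_lit 0x2000000000000000000000000000000000000000000000002)),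 (nb (nat_lit 0x2000000000000000100000000000000020000000000000001) (nat_lit 93632) (nb (nat_lit 0x1000000000000000100000000000000000000000000000002) (nat_lit 1216) (nat_lit 0)))⟩]⟩
def e713 : En := ⟨(nat_lit 10), (nat_lit 257), (nat_lit 6), (nat_lit 84), [⟨(nat_lit 4), (nat_lit 8), (nb (nat_lit 1) (nat_lit 94848) (nb (nat_lit 1) (nat_lit 93760) (nb (nat_lit 1) (nat_lit 1216) (nb (nat_lit 1) (nat_lit 128) (nat_lit 0))))), (nb (nat_lit 1) (nat_lit 93632) (nat_lit 1))⟩]⟩
def e714 : En := ⟨(nat_lit 12), (nat_lit 65552), (nat_lit 6), (nat_lit 84), [⟨(nat_lit 0), (nat_lit 6), (nb (nat_lit 1) (nat_lit 93632) (nat_lit 1)), (nb (nat_lit 1) (nat_lit 94848) (nb (nat_lit 1) (nat_lit 93760) (nb (nat_lit 1) (nat_lit 1216) (nb (nat_lit 1) (nat_lit 128) (nat_lit 0)))))⟩]⟩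
def e715 : En := ⟨(nat_lit 14), (nat_lit 4097), (nat_lit 6), (nat_lit 84), [⟨(nat_lit 2), (nat_lit 8), (nb (nat_lit 1) (nat_lit 93632) (nat_lit 1)), (nb (nat_lit 1) (nat_lit 94848) (nb (nat_lit 1) (nat_lit 93760) (nb (nat_lit 1) (nat_lit 1216) (nb (nat_lit 1) (nat_lit 128) (nat_lit 0)))))⟩]⟩
def e716 : En := ⟨(nat_lit 16), (nat_lit 65792), (nat_lit 6), (nat_lit 84), [⟨(nat_lit 0), (nat_lit 4), (nb (nat_lit 1) (nat_lit 94848) (nb (nat_lit 1) (nat_lit 93760) (nb (nat_lit 1) (nat_lit 1216) (nb (nat_lit 1) (nat_lit 128) (nat_lit 0))))), (nb (nat_lit 1) (nat_lit 93632) (nat_lit 1))⟩]⟩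
def e717 : En := ⟨(nat_lit 18), (nat_lit 4112), (nat_lit 6), (nat_lit 84), [⟨(nat_lit 2), (nat_lit 6), (nb (nat_lit 1) (nat_lit 94848) (nb (nat_lit 1) (nat_lit 93760) (nb (nat_lit 1) (nat_lit 1216) (nb (nat_lit 1) (nat_lit 128) (nat_lit 0))))), (nb (nat_lit 1) (nat_lit 93632) (nat_lit 1))⟩]⟩
def e718 : En := ⟨(nat_lit 20), (nat_lit 17), (nat_lit 6), (nat_lit 84), [⟨(nat_lit 6), (nat_lit 8), (nb (nat_lit 1) (nat_lit 94848) (nb (nat_lit 1) (nat_lit 93760) (nb (nat_lit 1) (nat_lit 1216) (nb (nat_lit 1) (nat_lit 128) (nat_lit 0))))), (nb (nat_lit 1) (nat_lit 93632) (nat_lit 1))⟩]⟩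
def e719 : En := ⟨(nat_lit 22), (nat_lit 65537), (nat_lit 6), (nat_lit 84), [⟨(nat_lit 0), (nat_lit 8), (nb (nat_lit 1) (nat_lit 93632) (nat_lit 1)), (nb (nat_lit 1) (nat_lit 94848) (nb (nat_lit 1) (nat_lit 93760) (nb (nat_lit 1) (nat_lit 1216) (nb (nat_lit 1) (nat_lit 128) (nat_lit 0)))))⟩]⟩
def e720 : En := ⟨(nat_lit 24), (nat_lit 69632), (nat_lit 6), (nat_lit 84), [⟨(nat_lit 0), (nat_lit 2), (nb (nat_lit 1) (nat_lit 94848) (nb (nat_lit 1) (nat_lit 93760) (nb (nat_lit 1) (nat_lit 1216) (nb (nat_lit 1) (nat_lit 128) (nat_lit 0))))), (nb (nat_lit 1) (nat_lit 93632) (nat_lit 1))⟩]⟩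
def e721 : En := ⟨(nat_lit 26), (nat_lit 4352), (nat_lit 6), (nat_lit 84), [⟨(nat_lit 2), (nat_lit 4), (nb (nat_lit 1) (nat_lit 94848) (nb (nat_lit 1) (nat_lit 93760) (nb (nat_lit 1) (nat_lit 1216) (nb (nat_lit 1) (nat_lit 128) (nat_lit 0))))), (nb (nat_lit 1) (nat_lit 93632) (nat_lit 1))⟩]⟩
def e722 : En := ⟨(nat_lit 28), (nat_lit 272), (nat_lit 6), (nat_lit 84), [⟨(nat_lit 4), (nat_lit 6), (nb (nat_lit 1) (nat_lit 94848) (nb (nat_lit 1) (nat_lit 93760) (nb (nat_lit 1) (nat_lit 1216) (nb (nat_lit 1) (nat_lit 128) (nat_lit 0))))), (nb (nat_lit 1) (nat_lit 93632) (nat_lit 1))⟩]⟩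
def e723 : En := ⟨(nat_lit 60), (nat_lit 4369), (nat_lit 35), (nat_lit 24), [⟨(nat_lit 2), (nat_lit 40), (nb (nat_lit 1) (nat_lit 1216) (nat_lit 0)), (nb (nat_lit 1) (nat_lit 1344) (nb (nat_lit 1) (nat_lit 192) (nat_lit 0)))⟩, ⟨(nat_lit 4), (nat_lit 50), (nat_lit 0), (nat_lit 0x1000000000000000100000000000000010000000000000002)⟩, ⟨(nat_lit 6), (nat_lit 56), (nat_lit 0x1000000000000000000000000000000000000000000000000), (nat_lit 0x100000000000000000000000000000000)⟩, ⟨(nat_lit 8), (nat_lit 48), (nb (nat_lit 1) (nat_lit 1216) (nat_lit 0x100000000000000000000000000000001)), (nb (nat_lit 1) (nat_lit 1408) (nb (nat_lit 1) (nat_lit 192) (nat_lit 0)))⟩, ⟨(nat_lit 10), (nat_lit 18), (nb (nat_lit 0x200000000000000020000000000000001) (nat_lit 1280) (nb (nat_lit 1) (nat_lit 192) (nat_lit 0))), (nat_lit 1)⟩, ⟨(nat_lit 14), (nat_lit 28), (nb (nat_lit 0x200000000000000010000000000000002) (nat_lit 1216) (nb (nat_lit 1) (nat_lit 128) (nat_lit 0))), (nat_lit 0x1000000000000000000000000000000000000000000000000)⟩,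 ⟨(nat_lit 20), (nat_lit 26), (nb (nat_lit 1) (nat_lit 1344) (nat_lit 0)), (nb (nat_lit 1) (nat_lit 1216) (nat_lit 0x100000000000000010000000000000002))⟩]⟩
def e724 : En := ⟨(nat_lit 62), (nat_lit 65809), (nat_lit 35), (nat_lit 24), [⟨(nat_lit 0), (nat_lit 40), (nb (nat_lit 1) (nat_lit 1216) (nat_lit 0x100000000000000000000000000000001)), (nb (nat_lit 1) (nat_lit 1408) (nb (nat_lit 1) (nat_lit 192) (nat_lit 0)))⟩, ⟨(nat_lit 4), (nat_lit 42), (nb (nat_lit 1) (nat_lit 1216) (nat_lit 0)), (nb (nat_lit 1) (nat_lit 1344) (nb (nat_lit 1) (nat_lit 192) (nat_lit 0)))⟩, ⟨(nat_lit 6), (nat_lit 52), (nat_lit 0), (nat_lit 0x1000000000000000100000000000000010000000000000002)⟩, ⟨(nat_lit 8), (nat_lit 58), (nat_lit 0x1000000000000000000000000000000000000000000000000), (nat_lit 0x100000000000000000000000000000000)⟩, ⟨(nat_lit 10), (nat_lit 12), (nat_lit 1), (nb (nat_lit 0x200000000000000020000000000000001) (nat_lit 1280) (nb (nat_lit 1) (nat_lit 192) (nat_lit 0)))⟩,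 ⟨(nat_lit 16), (nat_lit 20), (nb (nat_lit 0x200000000000000010000000000000002) (nat_lit 1216) (nb (nat_lit 1) (nat_lit 128) (nat_lit 0))), (nat_lit 0x1000000000000000000000000000000000000000000000000)⟩, ⟨(nat_lit 22), (nat_lit 28), (nb (nat_lit 1) (nat_lit 1344) (nat_lit 0)), (nb (nat_lit 1) (nat_lit 1216) (nat_lit 0x100000000000000010000000000000002))⟩]⟩
def e725 : En := ⟨(nat_lit 64), (nat_lit 69649), (nat_lit 35), (nat_lit 24), [⟨(nat_lit 0), (nat_lit 50), (nat_lit 0x1000000000000000000000000000000000000000000000000), (nat_lit 0x100000000000000000000000000000000)⟩, ⟨(nat_lit 2), (nat_lit 42), (nb (nat_lit 1) (nat_lit 1216) (nat_lit 0x100000000000000000000000000000001)), (nb (nat_lit 1) (nat_lit 1408) (nb (nat_lit 1) (nat_lit 192) (nat_lit 0)))⟩, ⟨(nat_lit 6), (nat_lit 44), (nb (nat_lit 1) (nat_lit 1216) (nat_lit 0)), (nb (nat_lit 1) (nat_lit 1344) (nb (nat_lit 1) (nat_lit 192) (nat_lit 0)))⟩, ⟨(nat_lit 8), (nat_lit 54), (nat_lit 0), (nat_lit 0x1000000000000000100000000000000010000000000000002)⟩,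 ⟨(nat_lit 12), (nat_lit 14), (nat_lit 1), (nb (nat_lit 0x200000000000000020000000000000001) (nat_lit 1280) (nb (nat_lit 1) (nat_lit 192) (nat_lit 0)))⟩, ⟨(nat_lit 18), (nat_lit 22), (nb (nat_lit 0x200000000000000010000000000000002) (nat_lit 1216) (nb (nat_lit 1) (nat_lit 128) (nat_lit 0))), (nat_lit 0x1000000000000000000000000000000000000000000000000)⟩, ⟨(nat_lit 20), (nat_lit 24), (nb (nat_lit 1) (nat_lit 1216) (nat_lit 0x100000000000000010000000000000002)), (nb (nat_lit 1) (nat_lit 1344) (nat_lit 0))⟩]⟩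
def e726 : En := ⟨(nat_lit 66), (nat_lit 69889), (nat_lit 35), (nat_lit 24), [⟨(nat_lit 0), (nat_lit 56), (nat_lit 0), (nat_lit 0x1000000000000000100000000000000010000000000000002)⟩, ⟨(nat_lit 2), (nat_lit 52), (nat_lit 0x1000000000000000000000000000000000000000000000000), (nat_lit 0x100000000000000000000000000000000)⟩, ⟨(nat_lit 4), (nat_lit 44), (nb (nat_lit 1) (nat_lit 1216) (nat_lit 0x100000000000000000000000000000001)), (nb (nat_lit 1) (nat_lit 1408) (nb (nat_lit 1) (nat_lit 192) (nat_lit 0)))⟩, ⟨(nat_lit 8), (nat_lit 46), (nb (nat_lit 1) (nat_lit 1216) (nat_lit 0)), (nb (nat_lit 1) (nat_lit 1344) (nb (nat_lit 1) (nat_lit 192) (nat_lit 0)))⟩, ⟨(nat_lit 10), (nat_lit 24), (nb (nat_lit 0x200000000000000010000000000000002) (nat_lit 1216) (nb (nat_lit 1) (nat_lit 128) (nat_lit 0))), (nat_lit 0x1000000000000000000000000000000000000000000000000)⟩, ⟨(nat_lit 14), (nat_lit 16), (nat_lit 1), (nb (nat_lit 0x200000000000000020000000000000001) (nat_lit 1280)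 (nb (nat_lit 1) (nat_lit 192) (nat_lit 0)))⟩, ⟨(nat_lit 22), (nat_lit 26), (nb (nat_lit 1) (nat_lit 1216) (nat_lit 0x100000000000000010000000000000002)), (nb (nat_lit 1) (nat_lit 1344) (nat_lit 0))⟩]⟩
def e727 : En := ⟨(nat_lit 68), (nat_lit 69904), (nat_lit 35), (nat_lit 24), [⟨(nat_lit 0), (nat_lit 48), (nb (nat_lit 1) (nat_lit 1216) (nat_lit 0)), (nb (nat_lit 1) (nat_lit 1344) (nb (nat_lit 1) (nat_lit 192) (nat_lit 0)))⟩, ⟨(nat_lit 2), (nat_lit 58), (nat_lit 0), (nat_lit 0x1000000000000000100000000000000010000000000000002)⟩, ⟨(nat_lit 4), (nat_lit 54), (nat_lit 0x1000000000000000000000000000000000000000000000000), (nat_lit 0x100000000000000000000000000000000)⟩, ⟨(nat_lit 6), (nat_lit 46), (nb (nat_lit 1) (nat_lit 1216) (nat_lit 0x100000000000000000000000000000001)), (nb (nat_lit 1) (nat_lit 1408) (nb (nat_lit 1) (nat_lit 192) (nat_lit 0)))⟩, ⟨(nat_lit 12), (nat_lit 26), (nb (nat_lit 0x200000000000000010000000000000002) (nat_lit 1216) (nb (nat_lit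 1) (nat_lit 128) (nat_lit 0))), (nat_lit 0x1000000000000000000000000000000000000000000000000)⟩, ⟨(nat_lit 16), (nat_lit 18), (nat_lit 1), (nb (nat_lit 0x200000000000000020000000000000001) (nat_lit 1280) (nb (nat_lit 1) (nat_lit 192) (nat_lit 0)))⟩, ⟨(nat_lit 24), (nat_lit 28), (nb (nat_lit 1) (nat_lit 1216) (nat_lit 0x100000000000000010000000000000002)), (nb (nat_lit 1) (nat_lit 1344) (nat_lit 0))⟩]⟩
def e728 : En := ⟨(nat_lit 40), (nat_lit 273), (nat_lit 4), (nat_lit 4), [⟨(nat_lit 4), (nat_lit 20), (nat_lit 1), (nat_lit 0)⟩, ⟨(nat_lit 6), (nat_lit 10), (nat_lit 1), (nat_lit 0x100000000000000000000000000000000)⟩, ⟨(nat_lit 8), (nat_lit 28), (nat_lit 0), (nat_lit 0x100000000000000000000000000000000)⟩]⟩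
def e729 : En := ⟨(nat_lit 42), (nat_lit 65553), (nat_lit 4), (nat_lit 4), [⟨(nat_lit 0), (nat_lit 20), (nat_lit 0), (nat_lit 0x100000000000000000000000000000000)⟩, ⟨(nat_lit 6), (nat_lit 22), (nat_lit 1), (nat_lit 0)⟩, ⟨(nat_lit 8), (nat_lit 12), (nat_lit 1), (nat_lit 0x100000000000000000000000000000000)⟩]⟩
def e730 : En := ⟨(nat_lit 44), (nat_lit 69633), (nat_lit 4), (nat_lit 4), [⟨(nat_lit 0), (nat_lit 14), (nat_lit 1), (nat_lit 0x100000000000000000000000000000000)⟩, ⟨(nat_lit 2), (nat_lit 22), (nat_lit 0), (nat_lit 0x100000000000000000000000000000000)⟩, ⟨(nat_lit 8), (nat_lit 24), (nat_lit 1), (nat_lit 0)⟩]⟩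
def e731 : En := ⟨(nat_lit 46), (nat_lit 69888), (nat_lit 4), (nat_lit 4), [⟨(nat_lit 0), (nat_lit 26), (nat_lit 1), (nat_lit 0)⟩, ⟨(nat_lit 2), (nat_lit 16), (nat_lit 1), (nat_lit 0x100000000000000000000000000000000)⟩, ⟨(nat_lit 4), (nat_lit 24), (nat_lit 0), (nat_lit 0x100000000000000000000000000000000)⟩]⟩
def e732 : En := ⟨(nat_lit 48), (nat_lit 4368), (nat_lit 4), (nat_lit 4), [⟨(nat_lit 2), (nat_lit 28), (nat_lit 1), (nat_lit 0)⟩, ⟨(nat_lit 4), (nat_lit 18), (nat_lit 1), (nat_lit 0x100000000000000000000000000000000)⟩, ⟨(nat_lit 6), (nat_lit 26), (nat_lit 0), (nat_lit 0x100000000000000000000000000000000)⟩]⟩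
def e733 : En := ⟨(nat_lit 73), (nat_lit 69905), (nat_lit 60), (nat_lit 24), [⟨(nat_lit 0), (nat_lit 60), (nat_lit 1), (nat_lit 0)⟩, ⟨(nat_lit 2), (nat_lit 62), (nat_lit 0), (nat_lit 0x1000000000000000100000000000000010000000000000001)⟩, ⟨(nat_lit 4), (nat_lit 64), (nat_lit 0x1000000000000000000000000000000000000000000000000), (nat_lit 0)⟩, ⟨(nat_lit 6), (nat_lit 66), (nat_lit 0x100000000000000000000000000000000), (nat_lit 0)⟩, ⟨(nat_lit 8), (nat_lit 68), (nat_lit 0x10000000000000000), (nat_lit 0)⟩, ⟨(nat_lit 10), (nat_lit 54), (nat_lit 0x1000000000000000200000000000000010000000000000001), (nat_lit 0)⟩, ⟨(nat_lit 12), (nat_lit 56), (nat_lit 0x10000000000000000), (nat_lit 0x1000000000000000000000000000000000000000000000000)⟩, ⟨(nat_lit 14), (nat_lit 58), (nat_lit 1), (nat_lit 0x100000000000000000000000000000000)⟩, ⟨(nat_lit 16), (nat_lit 50), (nat_lit 0), (nat_lit 0x1000000000000000100000000000000020000000000000001)⟩, ⟨(nat_lit 18), (nat_lit 52), (nat_lit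 0x1000000000000000000000000000000000000000000000000), (nat_lit 1)⟩, ⟨(nat_lit 20), (nat_lit 46), (nb (nat_lit 1) (nat_lit 1344) (nat_lit 0)), (nb (nat_lit 1) (nat_lit 1280) (nat_lit 0x2000000000000000100000000000000020000000000000002))⟩, ⟨(nat_lit 22), (nat_lit 48), (nb (nat_lit 1) (nat_lit 1280) (nb (nat_lit 0x200000000000000000000000000000001) (nat_lit 64) (nat_lit 0))), (nb (nat_lit 1) (nat_lit 1216) (nat_lit 0))⟩, ⟨(nat_lit 24), (nat_lit 40), (nb (nat_lit 0x1000000000000000100000000000000010000000000000002) (nat_lit 1216) (nat_lit 0x200000000000000000000000000000001)), (nat_lit 0)⟩, ⟨(nat_lit 26), (nat_lit 42), (nat_lit 0x10000000000000000), (nb (nat_lit 0x2000000000000000100000000000000010000000000000001) (nat_lit 1216) (nat_lit 0x1000000000000000100000000000000000000000000000001))⟩, ⟨(nat_lit 28), (nat_lit 44), (nb (nat_lit 1) (nat_lit 1408) (nat_lit 0x1000000000000000000000000000000000000000000000002)), (nb (nat_lit 1) (nat_lit 1344) (nat_lit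 0))⟩]⟩
def e734 : En := ⟨(nat_lit 60), (nat_lit 4369), (nat_lit 35), (nat_lit 40), [⟨(nat_lit 2), (nat_lit 40), (nb (nat_lit 1) (nat_lit 13376) (nat_lit 0)), (nb (nat_lit 1) (nat_lit 13504) (nb (nat_lit 1) (nat_lit 192) (nat_lit 0)))⟩, ⟨(nat_lit 4), (nat_lit 50), (nat_lit 0), (nat_lit 0x1000000000000000100000000000000010000000000000002)⟩, ⟨(nat_lit 6), (nat_lit 56), (nat_lit 0x1000000000000000000000000000000000000000000000000), (nat_lit 0x100000000000000000000000000000000)⟩, ⟨(nat_lit 8), (nat_lit 48), (nb (nat_lit 1) (nat_lit 13376) (nat_lit 0x100000000000000000000000000000001)), (nb (nat_lit 1) (nat_lit 13568) (nb (nat_lit 1) (nat_lit 192) (nat_lit 0)))⟩, ⟨(nat_lit 10), (nat_lit 18), (nb (nat_lit 0x200000000000000020000000000000001) (nat_lit 13440) (nb (nat_lit 1) (nat_lit 192) (nat_lit 0))), (nat_lit 1)⟩, ⟨(nat_lit 14), (nat_lit 28), (nb (nat_lit 0x200000000000000010000000000000002) (nat_lit 13376) (nb (nat_lit 1) (nat_lit 128) (nat_lit 0))), (nat_lit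 0x1000000000000000000000000000000000000000000000000)⟩, ⟨(nat_lit 20), (nat_lit 26), (nb (nat_lit 1) (nat_lit 13504) (nat_lit 0)), (nb (nat_lit 1) (nat_lit 13376) (nat_lit 0x100000000000000010000000000000002))⟩]⟩
def e735 : En := ⟨(nat_lit 62), (nat_lit 65809), (nat_lit 35), (nat_lit 40), [⟨(nat_lit 0), (nat_lit 40), (nb (nat_lit 1) (nat_lit 13376) (nat_lit 0x100000000000000000000000000000001)), (nb (nat_lit 1) (nat_lit 13568) (nb (nat_lit 1) (nat_lit 192) (nat_lit 0)))⟩, ⟨(nat_lit 4), (nat_lit 42), (nb (nat_lit 1) (nat_lit 13376) (nat_lit 0)), (nb (nat_lit 1) (nat_lit 13504) (nb (nat_lit 1) (nat_lit 192) (nat_lit 0)))⟩, ⟨(nat_lit 6), (nat_lit 52), (nat_lit 0), (nat_lit 0x1000000000000000100000000000000010000000000000002)⟩, ⟨(nat_lit 8), (nat_lit 58), (nat_lit 0x1000000000000000000000000000000000000000000000000), (nat_lit 0x100000000000000000000000000000000)⟩, ⟨(nat_lit 10), (nat_lit 12), (nat_lit 1), (nb (nat_lit 0x200000000000000020000000000000001)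 (nat_lit 13440) (nb (nat_lit 1) (nat_lit 192) (nat_lit 0)))⟩, ⟨(nat_lit 16), (nat_lit 20), (nb (nat_lit 0x200000000000000010000000000000002) (nat_lit 13376) (nb (nat_lit 1) (nat_lit 128) (nat_lit 0))), (nat_lit 0x1000000000000000000000000000000000000000000000000)⟩, ⟨(nat_lit 22), (nat_lit 28), (nb (nat_lit 1) (nat_lit 13504) (nat_lit 0)), (nb (nat_lit 1) (nat_lit 13376) (nat_lit 0x100000000000000010000000000000002))⟩]⟩
def e736 : En := ⟨(nat_lit 64), (nat_lit 69649), (nat_lit 35), (nat_lit 40), [⟨(nat_lit 0), (nat_lit 50), (nat_lit 0x1000000000000000000000000000000000000000000000000), (nat_lit 0x100000000000000000000000000000000)⟩, ⟨(nat_lit 2), (nat_lit 42), (nb (nat_lit 1) (nat_lit 13376) (nat_lit 0x100000000000000000000000000000001)), (nb (nat_lit 1) (nat_lit 13568) (nb (nat_lit 1) (nat_lit 192) (nat_lit 0)))⟩, ⟨(nat_lit 6), (nat_lit 44), (nb (nat_lit 1) (nat_lit 13376) (nat_lit 0)), (nb (nat_lit 1) (nat_lit 13504) (nb (nat_lit 1) (nat_lit 192)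 (nat_lit 0)))⟩, ⟨(nat_lit 8), (nat_lit 54), (nat_lit 0), (nat_lit 0x1000000000000000100000000000000010000000000000002)⟩, ⟨(nat_lit 12), (nat_lit 14), (nat_lit 1), (nb (nat_lit 0x200000000000000020000000000000001) (nat_lit 13440) (nb (nat_lit 1) (nat_lit 192) (nat_lit 0)))⟩, ⟨(nat_lit 18), (nat_lit 22), (nb (nat_lit 0x200000000000000010000000000000002) (nat_lit 13376) (nb (nat_lit 1) (nat_lit 128) (nat_lit 0))), (nat_lit 0x1000000000000000000000000000000000000000000000000)⟩, ⟨(nat_lit 20), (nat_lit 24), (nb (nat_lit 1) (nat_lit 13376) (nat_lit 0x100000000000000010000000000000002)), (nb (nat_lit 1) (nat_lit 13504) (nat_lit 0))⟩]⟩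
def e737 : En := ⟨(nat_lit 66), (nat_lit 69889), (nat_lit 35), (nat_lit 40), [⟨(nat_lit 0), (nat_lit 56), (nat_lit 0), (nat_lit 0x1000000000000000100000000000000010000000000000002)⟩, ⟨(nat_lit 2), (nat_lit 52), (nat_lit 0x1000000000000000000000000000000000000000000000000), (nat_lit 0x100000000000000000000000000000000)⟩, ⟨(nat_lit 4), (nat_lit 44), (nb (nat_lit 1) (nat_lit 13376) (nat_lit 0x100000000000000000000000000000001)), (nb (nat_lit 1) (nat_lit 13568) (nb (nat_lit 1) (nat_lit 192) (nat_lit 0)))⟩, ⟨(nat_lit 8), (nat_lit 46), (nb (nat_lit 1) (nat_lit 13376) (nat_lit 0)), (nb (nat_lit 1) (nat_lit 13504) (nb (nat_lit 1) (nat_lit 192) (nat_lit 0)))⟩, ⟨(nat_lit 10), (nat_lit 24), (nb (nat_lit 0x200000000000000010000000000000002) (nat_lit 13376) (nb (nat_lit 1) (nat_lit 128) (nat_lit 0))), (nat_lit 0x1000000000000000000000000000000000000000000000000)⟩, ⟨(nat_lit 14), (nat_lit 16), (nat_lit 1), (nb (nat_lit 0x200000000000000020000000000000001) (nat_lit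 13440) (nb (nat_lit 1) (nat_lit 192) (nat_lit 0)))⟩, ⟨(nat_lit 22), (nat_lit 26), (nb (nat_lit 1) (nat_lit 13376) (nat_lit 0x100000000000000010000000000000002)), (nb (nat_lit 1) (nat_lit 13504) (nat_lit 0))⟩]⟩
def e738 : En := ⟨(nat_lit 68), (nat_lit 69904), (nat_lit 35), (nat_lit 40), [⟨(nat_lit 0), (nat_lit 48), (nb (nat_lit 1) (nat_lit 13376) (nat_lit 0)), (nb (nat_lit 1) (nat_lit 13504) (nb (nat_lit 1) (nat_lit 192) (nat_lit 0)))⟩, ⟨(nat_lit 2), (nat_lit 58), (nat_lit 0), (nat_lit 0x1000000000000000100000000000000010000000000000002)⟩, ⟨(nat_lit 4), (nat_lit 54), (nat_lit 0x1000000000000000000000000000000000000000000000000), (nat_lit 0x100000000000000000000000000000000)⟩, ⟨(nat_lit 6), (nat_lit 46), (nb (nat_lit 1) (nat_lit 13376) (nat_lit 0x100000000000000000000000000000001)), (nb (nat_lit 1) (nat_lit 13568) (nb (nat_lit 1) (nat_lit 192) (nat_lit 0)))⟩, ⟨(nat_lit 12), (nat_lit 26), (nb (nat_lit 0x200000000000000010000000000000002) (nat_lit 13376)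 (nb (nat_lit 1) (nat_lit 128) (nat_lit 0))), (nat_lit 0x1000000000000000000000000000000000000000000000000)⟩, ⟨(nat_lit 16), (nat_lit 18), (nat_lit 1), (nb (nat_lit 0x200000000000000020000000000000001) (nat_lit 13440) (nb (nat_lit 1) (nat_lit 192) (nat_lit 0)))⟩, ⟨(nat_lit 24), (nat_lit 28), (nb (nat_lit 1) (nat_lit 13376) (nat_lit 0x100000000000000010000000000000002)), (nb (nat_lit 1) (nat_lit 13504) (nat_lit 0))⟩]⟩
def e739 : En := ⟨(nat_lit 60), (nat_lit 4369), (nat_lit 5895), (nat_lit 216), [⟨(nat_lit 2), (nat_lit 40), (nb (nat_lit 0xf0000000000000000000000000000001e) (nat_lit 2496) (nb (nat_lit 0x7300000000000000000000000000000032) (nat_lit 1216) (nb (nat_lit 0x1400000000000000000000000000000028) (nat_lit 64) (nat_lit 0)))), (nb (nat_lit 0x3200000000000000000000000000000005) (nat_lit 2432) (nb (nat_lit 0x2800000000000000000000000000000050) (nat_lit 1280) (nat_lit 0x1e00000000000000000000000000000050)))⟩, ⟨(nat_lit 4), (nat_lit 50), (nb (nat_lit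 0x320000000000000000000000000000002d00000000000000b9) (nat_lit 2432) (nb (nat_lit 40) (nat_lit 1344) (nat_lit 0))), (nb (nat_lit 55) (nat_lit 3648) (nb (nat_lit 20) (nat_lit 2560) (nb (nat_lit 0x640000000000000000000000000000005a0000000000000096) (nat_lit 1216) (nat_lit 0))))⟩, ⟨(nat_lit 6), (nat_lit 56), (nb (nat_lit 0xf00000000000000087000000000000005f00000000000000c3) (nat_lit 2432) (nat_lit 0)), (nb (nat_lit 0x41000000000000002800000000000000140000000000000046) (nat_lit 3648) (nb (nat_lit 0xdc000000000000006e000000000000006e000000000000006e) (nat_lit 1216) (nat_lit 0)))⟩, ⟨(nat_lit 8), (nat_lit 48), (nb (nat_lit 0x8c0000000000000041000000000000003c) (nat_lit 1280) (nat_lit 0x1e00000000000000000000000000000050)), (nb (nat_lit 0x4100000000000000280000000000000014000000000000000f) (nat_lit 2432) (nb (nat_lit 10) (nat_lit 1216) (nb (nat_lit 0x1400000000000000000000000000000028) (nat_lit 64) (nat_lit 0))))⟩, ⟨(nat_lit 10), (nat_lit 18), (nb (nat_lit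 0x2b000000000000003300000000000000090000000000000025) (nat_lit 3648) (nb (nat_lit 0x5a000000000000001e00000000000000460000000000000050) (nat_lit 1216) (nat_lit 0))), (nb (nat_lit 0x83000000000000007500000000000000350000000000000072) (nat_lit 2432) (nat_lit 0))⟩, ⟨(nat_lit 14), (nat_lit 28), (nb (nat_lit 0x3200000000000000000000000000000005) (nat_lit 3648) (nb (nat_lit 90) (nat_lit 2496) (nb (nat_lit 0x5000000000000000d200000000000000000000000000000078) (nat_lit 1216) (nat_lit 0)))), (nb (nat_lit 0xf0000000000000000000000000000001e) (nat_lit 3712) (nb (nat_lit 0xa00000000000000cd00000000000000000000000000000046) (nat_lit 2432) (nb (nat_lit 60) (nat_lit 1280) (nat_lit 0))))⟩, ⟨(nat_lit 20), (nat_lit 26), (nb (nat_lit 0x23000000000000001e000000000000000f00000000000000be) (nat_lit 2432) (nat_lit 0x1e00000000000000000000000000000050)), (nb (nat_lit 55) (nat_lit 3648) (nb (nat_lit 0x3c000000000000004b000000000000000a00000000000000c8) (nat_lit 1216) (nb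 (nat_lit 0x1400000000000000000000000000000028) (nat_lit 64) (nat_lit 0))))⟩]⟩
def e740 : En := ⟨(nat_lit 62), (nat_lit 65809), (nat_lit 5895), (nat_lit 216), [⟨(nat_lit 0), (nat_lit 40), (nb (nat_lit 0x8c0000000000000041000000000000003c) (nat_lit 1280) (nat_lit 0x1e00000000000000000000000000000050)), (nb (nat_lit 0x4100000000000000280000000000000014000000000000000f) (nat_lit 2432) (nb (nat_lit 10) (nat_lit 1216) (nb (nat_lit 0x1400000000000000000000000000000028) (nat_lit 64) (nat_lit 0))))⟩, ⟨(nat_lit 4), (nat_lit 42), (nb (nat_lit 0xf0000000000000000000000000000001e) (nat_lit 2496) (nb (nat_lit 0x7300000000000000000000000000000032) (nat_lit 1216) (nb (nat_lit 0x1400000000000000000000000000000028) (nat_lit 64) (nat_lit 0)))), (nb (nat_lit 0x3200000000000000000000000000000005) (nat_lit 2432) (nb (nat_lit 0x2800000000000000000000000000000050) (nat_lit 1280) (nat_lit 0x1e00000000000000000000000000000050)))⟩, ⟨(nat_lit 6), (nat_lit 52), (nb (nat_lit 0x320000000000000000000000000000002d00000000000000b9)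 (nat_lit 2432) (nb (nat_lit 40) (nat_lit 1344) (nat_lit 0))), (nb (nat_lit 55) (nat_lit 3648) (nb (nat_lit 20) (nat_lit 2560) (nb (nat_lit 0x640000000000000000000000000000005a0000000000000096) (nat_lit 1216) (nat_lit 0))))⟩, ⟨(nat_lit 8), (nat_lit 58), (nb (nat_lit 0xf00000000000000087000000000000005f00000000000000c3) (nat_lit 2432) (nat_lit 0)), (nb (nat_lit 0x41000000000000002800000000000000140000000000000046) (nat_lit 3648) (nb (nat_lit 0xdc000000000000006e000000000000006e000000000000006e) (nat_lit 1216) (nat_lit 0)))⟩, ⟨(nat_lit 10), (nat_lit 12), (nb (nat_lit 0x83000000000000007500000000000000350000000000000072) (nat_lit 2432) (nat_lit 0)), (nb (nat_lit 0x2b000000000000003300000000000000090000000000000025) (nat_lit 3648) (nb (nat_lit 0x5a000000000000001e00000000000000460000000000000050) (nat_lit 1216) (nat_lit 0)))⟩, ⟨(nat_lit 16), (nat_lit 20), (nb (nat_lit 0x3200000000000000000000000000000005) (nat_lit 3648) (nb (nat_lit 90) (nat_lit 2496)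 (nb (nat_lit 0x5000000000000000d200000000000000000000000000000078) (nat_lit 1216) (nat_lit 0)))), (nb (nat_lit 0xf0000000000000000000000000000001e) (nat_lit 3712) (nb (nat_lit 0xa00000000000000cd00000000000000000000000000000046) (nat_lit 2432) (nb (nat_lit 60) (nat_lit 1280) (nat_lit 0))))⟩, ⟨(nat_lit 22), (nat_lit 28), (nb (nat_lit 0x23000000000000001e000000000000000f00000000000000be) (nat_lit 2432) (nat_lit 0x1e00000000000000000000000000000050)), (nb (nat_lit 55) (nat_lit 3648) (nb (nat_lit 0x3c000000000000004b000000000000000a00000000000000c8) (nat_lit 1216) (nb (nat_lit 0x1400000000000000000000000000000028) (nat_lit 64) (nat_lit 0))))⟩]⟩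
def e741 : En := ⟨(nat_lit 64), (nat_lit 69649), (nat_lit 5895), (nat_lit 216), [⟨(nat_lit 0), (nat_lit 50), (nb (nat_lit 0xf00000000000000087000000000000005f00000000000000c3) (nat_lit 2432) (nat_lit 0)), (nb (nat_lit 0x41000000000000002800000000000000140000000000000046) (nat_lit 3648) (nb (nat_lit 0xdc000000000000006e000000000000006e000000000000006e) (nat_lit 1216) (nat_lit 0)))⟩, ⟨(nat_lit 2), (nat_lit 42), (nb (nat_lit 0x8c0000000000000041000000000000003c) (nat_lit 1280) (nat_lit 0x1e00000000000000000000000000000050)), (nb (nat_lit 0x4100000000000000280000000000000014000000000000000f) (nat_lit 2432) (nb (nat_lit 10) (nat_lit 1216) (nb (nat_lit 0x1400000000000000000000000000000028) (nat_lit 64) (nat_lit 0))))⟩, ⟨(nat_lit 6), (nat_lit 44), (nb (nat_lit 0xf0000000000000000000000000000001e) (nat_lit 2496) (nb (nat_lit 0x7300000000000000000000000000000032) (nat_lit 1216) (nb (nat_lit 0x1400000000000000000000000000000028) (nat_lit 64) (nat_lit 0)))),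 (nb (nat_lit 0x3200000000000000000000000000000005) (nat_lit 2432) (nb (nat_lit 0x2800000000000000000000000000000050) (nat_lit 1280) (nat_lit 0x1e00000000000000000000000000000050)))⟩, ⟨(nat_lit 8), (nat_lit 54), (nb (nat_lit 0x320000000000000000000000000000002d00000000000000b9) (nat_lit 2432) (nb (nat_lit 40) (nat_lit 1344) (nat_lit 0))), (nb (nat_lit 55) (nat_lit 3648) (nb (nat_lit 20) (nat_lit 2560) (nb (nat_lit 0x640000000000000000000000000000005a0000000000000096) (nat_lit 1216) (nat_lit 0))))⟩, ⟨(nat_lit 12), (nat_lit 14), (nb (nat_lit 0x83000000000000007500000000000000350000000000000072) (nat_lit 2432) (nat_lit 0)), (nb (nat_lit 0x2b000000000000003300000000000000090000000000000025) (nat_lit 3648) (nb (nat_lit 0x5a000000000000001e00000000000000460000000000000050) (nat_lit 1216) (nat_lit 0)))⟩, ⟨(nat_lit 18), (nat_lit 22), (nb (nat_lit 0x3200000000000000000000000000000005) (nat_lit 3648) (nb (nat_lit 90) (nat_lit 2496) (nb (nat_lit 0x5000000000000000d200000000000000000000000000000078)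 (nat_lit 1216) (nat_lit 0)))), (nb (nat_lit 0xf0000000000000000000000000000001e) (nat_lit 3712) (nb (nat_lit 0xa00000000000000cd00000000000000000000000000000046) (nat_lit 2432) (nb (nat_lit 60) (nat_lit 1280) (nat_lit 0))))⟩, ⟨(nat_lit 20), (nat_lit 24), (nb (nat_lit 55) (nat_lit 3648) (nb (nat_lit 0x3c000000000000004b000000000000000a00000000000000c8) (nat_lit 1216) (nb (nat_lit 0x1400000000000000000000000000000028) (nat_lit 64) (nat_lit 0)))), (nb (nat_lit 0x23000000000000001e000000000000000f00000000000000be) (nat_lit 2432) (nat_lit 0x1e00000000000000000000000000000050))⟩]⟩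
def e742 : En := ⟨(nat_lit 66), (nat_lit 69889), (nat_lit 5895), (nat_lit 216), [⟨(nat_lit 0), (nat_lit 56), (nb (nat_lit 0x320000000000000000000000000000002d00000000000000b9) (nat_lit 2432) (nb (nat_lit 40) (nat_lit 1344) (nat_lit 0))), (nb (nat_lit 55) (nat_lit 3648) (nb (nat_lit 20) (nat_lit 2560) (nb (nat_lit 0x640000000000000000000000000000005a0000000000000096) (nat_lit 1216) (nat_lit 0))))⟩, ⟨(nat_lit 2), (nat_lit 52), (nb (nat_lit 0xf00000000000000087000000000000005f00000000000000c3) (nat_lit 2432) (nat_lit 0)), (nb (nat_lit 0x41000000000000002800000000000000140000000000000046) (nat_lit 3648) (nb (nat_lit 0xdc000000000000006e000000000000006e000000000000006e) (nat_lit 1216) (nat_lit 0)))⟩, ⟨(nat_lit 4), (nat_lit 44), (nb (nat_lit 0x8c0000000000000041000000000000003c) (nat_lit 1280) (nat_lit 0x1e00000000000000000000000000000050)), (nb (nat_lit 0x4100000000000000280000000000000014000000000000000f) (nat_lit 2432) (nb (nat_lit 10) (nat_lit 1216)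 (nb (nat_lit 0x1400000000000000000000000000000028) (nat_lit 64) (nat_lit 0))))⟩, ⟨(nat_lit 8), (nat_lit 46), (nb (nat_lit 0xf0000000000000000000000000000001e) (nat_lit 2496) (nb (nat_lit 0x7300000000000000000000000000000032) (nat_lit 1216) (nb (nat_lit 0x1400000000000000000000000000000028) (nat_lit 64) (nat_lit 0)))), (nb (nat_lit 0x3200000000000000000000000000000005) (nat_lit 2432) (nb (nat_lit 0x2800000000000000000000000000000050) (nat_lit 1280) (nat_lit 0x1e00000000000000000000000000000050)))⟩, ⟨(nat_lit 10), (nat_lit 24), (nb (nat_lit 0x3200000000000000000000000000000005) (nat_lit 3648) (nb (nat_lit 90) (nat_lit 2496) (nb (nat_lit 0x5000000000000000d200000000000000000000000000000078) (nat_lit 1216) (nat_lit 0)))), (nb (nat_lit 0xf0000000000000000000000000000001e) (nat_lit 3712) (nb (nat_lit 0xa00000000000000cd00000000000000000000000000000046) (nat_lit 2432) (nb (nat_lit 60) (nat_lit 1280) (nat_lit 0))))⟩, ⟨(nat_lit 14), (nat_lit 16), (nb (nat_lit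 0x83000000000000007500000000000000350000000000000072) (nat_lit 2432) (nat_lit 0)), (nb (nat_lit 0x2b000000000000003300000000000000090000000000000025) (nat_lit 3648) (nb (nat_lit 0x5a000000000000001e00000000000000460000000000000050) (nat_lit 1216) (nat_lit 0)))⟩, ⟨(nat_lit 22), (nat_lit 26), (nb (nat_lit 55) (nat_lit 3648) (nb (nat_lit 0x3c000000000000004b000000000000000a00000000000000c8) (nat_lit 1216) (nb (nat_lit 0x1400000000000000000000000000000028) (nat_lit 64) (nat_lit 0)))), (nb (nat_lit 0x23000000000000001e000000000000000f00000000000000be) (nat_lit 2432) (nat_lit 0x1e00000000000000000000000000000050))⟩]⟩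
def e743 : En := ⟨(nat_lit 68), (nat_lit 69904), (nat_lit 5895), (nat_lit 216), [⟨(nat_lit 0), (nat_lit 48), (nb (nat_lit 0xf0000000000000000000000000000001e) (nat_lit 2496) (nb (nat_lit 0x7300000000000000000000000000000032) (nat_lit 1216) (nb (nat_lit 0x1400000000000000000000000000000028) (nat_lit 64) (nat_lit 0)))), (nb (nat_lit 0x3200000000000000000000000000000005) (nat_lit 2432) (nb (nat_lit 0x2800000000000000000000000000000050) (nat_lit 1280) (nat_lit 0x1e00000000000000000000000000000050)))⟩, ⟨(nat_lit 2), (nat_lit 58), (nb (nat_lit 0x320000000000000000000000000000002d00000000000000b9) (nat_lit 2432) (nb (nat_lit 40) (nat_lit 1344) (nat_lit 0))), (nb (nat_lit 55) (nat_lit 3648) (nb (nat_lit 20) (nat_lit 2560) (nb (nat_lit 0x640000000000000000000000000000005a0000000000000096) (nat_lit 1216) (nat_lit 0))))⟩, ⟨(nat_lit 4), (nat_lit 54), (nb (nat_lit 0xf00000000000000087000000000000005f00000000000000c3) (nat_lit 2432) (nat_lit 0)), (nb (nat_lit 0x41000000000000002800000000000000140000000000000046)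 (nat_lit 3648) (nb (nat_lit 0xdc000000000000006e000000000000006e000000000000006e) (nat_lit 1216) (nat_lit 0)))⟩, ⟨(nat_lit 6), (nat_lit 46), (nb (nat_lit 0x8c0000000000000041000000000000003c) (nat_lit 1280) (nat_lit 0x1e00000000000000000000000000000050)), (nb (nat_lit 0x4100000000000000280000000000000014000000000000000f) (nat_lit 2432) (nb (nat_lit 10) (nat_lit 1216) (nb (nat_lit 0x1400000000000000000000000000000028) (nat_lit 64) (nat_lit 0))))⟩, ⟨(nat_lit 12), (nat_lit 26), (nb (nat_lit 0x3200000000000000000000000000000005) (nat_lit 3648) (nb (nat_lit 90) (nat_lit 2496) (nb (nat_lit 0x5000000000000000d200000000000000000000000000000078) (nat_lit 1216) (nat_lit 0)))), (nb (nat_lit 0xf0000000000000000000000000000001e) (nat_lit 3712) (nb (nat_lit 0xa00000000000000cd00000000000000000000000000000046) (nat_lit 2432) (nb (nat_lit 60) (nat_lit 1280) (nat_lit 0))))⟩, ⟨(nat_lit 16), (nat_lit 18), (nb (nat_lit 0x83000000000000007500000000000000350000000000000072)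 (nat_lit 2432) (nat_lit 0)), (nb (nat_lit 0x2b000000000000003300000000000000090000000000000025) (nat_lit 3648) (nb (nat_lit 0x5a000000000000001e00000000000000460000000000000050) (nat_lit 1216) (nat_lit 0)))⟩, ⟨(nat_lit 24), (nat_lit 28), (nb (nat_lit 55) (nat_lit 3648) (nb (nat_lit 0x3c000000000000004b000000000000000a00000000000000c8) (nat_lit 1216) (nb (nat_lit 0x1400000000000000000000000000000028) (nat_lit 64) (nat_lit 0)))), (nb (nat_lit 0x23000000000000001e000000000000000f00000000000000be) (nat_lit 2432) (nat_lit 0x1e00000000000000000000000000000050))⟩]⟩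
def e744 : En := ⟨(nat_lit 40), (nat_lit 273), (nat_lit 980), (nat_lit 72), [⟨(nat_lit 4), (nat_lit 20), (nat_lit 0x320000000000000000000000000000002d000000000000004b), (nb (nat_lit 55) (nat_lit 1216) (nb (nat_lit 20) (nat_lit 128) (nat_lit 0)))⟩, ⟨(nat_lit 6), (nat_lit 10), (nb (nat_lit 0x320000000000000000000000000000002d000000000000004b) (nat_lit 1216) (nat_lit 0)), (nb (nat_lit 55) (nat_lit 2432) (nb (nat_lit 20) (nat_lit 1344) (nat_lit 0)))⟩, ⟨(nat_lit 8), (nat_lit 28), (nb (nat_lit 0x320000000000000000000000000000002d0000000000000082) (nat_lit 1216) (nb (nat_lit 20) (nat_lit 128) (nat_lit 0))), (nb (nat_lit 55) (nat_lit 2432) (nb (nat_lit 20) (nat_lit 1344) (nat_lit 0x320000000000000000000000000000002d000000000000004b)))⟩]⟩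
def e745 : En := ⟨(nat_lit 42), (nat_lit 65553), (nat_lit 980), (nat_lit 72), [⟨(nat_lit 0), (nat_lit 20), (nb (nat_lit 0x320000000000000000000000000000002d0000000000000082) (nat_lit 1216) (nb (nat_lit 20) (nat_lit 128) (nat_lit 0))), (nb (nat_lit 55) (nat_lit 2432) (nb (nat_lit 20) (nat_lit 1344) (nat_lit 0x320000000000000000000000000000002d000000000000004b)))⟩, ⟨(nat_lit 6), (nat_lit 22), (nat_lit 0x320000000000000000000000000000002d000000000000004b), (nb (nat_lit 55) (nat_lit 1216) (nb (nat_lit 20) (nat_lit 128) (nat_lit 0)))⟩, ⟨(nat_lit 8), (nat_lit 12), (nb (nat_lit 0x320000000000000000000000000000002d000000000000004b) (nat_lit 1216) (nat_lit 0)), (nb (nat_lit 55) (nat_lit 2432) (nb (nat_lit 20) (nat_lit 1344) (nat_lit 0)))⟩]⟩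
def e746 : En := ⟨(nat_lit 44), (nat_lit 69633), (nat_lit 980), (nat_lit 72), [⟨(nat_lit 0), (nat_lit 14), (nb (nat_lit 0x320000000000000000000000000000002d000000000000004b) (nat_lit 1216) (nat_lit 0)), (nb (nat_lit 55) (nat_lit 2432) (nb (nat_lit 20) (nat_lit 1344) (nat_lit 0)))⟩, ⟨(nat_lit 2), (nat_lit 22), (nb (nat_lit 0x320000000000000000000000000000002d0000000000000082) (nat_lit 1216) (nb (nat_lit 20) (nat_lit 128) (nat_lit 0))), (nb (nat_lit 55) (nat_lit 2432) (nb (nat_lit 20) (nat_lit 1344) (nat_lit 0x320000000000000000000000000000002d000000000000004b)))⟩, ⟨(nat_lit 8), (nat_lit 24), (nat_lit 0x320000000000000000000000000000002d000000000000004b), (nb (nat_lit 55) (nat_lit 1216) (nb (nat_lit 20) (nat_lit 128) (nat_lit 0)))⟩]⟩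
def e747 : En := ⟨(nat_lit 46), (nat_lit 69888), (nat_lit 980), (nat_lit 72), [⟨(nat_lit 0), (nat_lit 26), (nat_lit 0x320000000000000000000000000000002d000000000000004b), (nb (nat_lit 55) (nat_lit 1216) (nb (nat_lit 20) (nat_lit 128) (nat_lit 0)))⟩, ⟨(nat_lit 2), (nat_lit 16), (nb (nat_lit 0x320000000000000000000000000000002d000000000000004b) (nat_lit 1216) (nat_lit 0)), (nb (nat_lit 55) (nat_lit 2432) (nb (nat_lit 20) (nat_lit 1344) (nat_lit 0)))⟩, ⟨(nat_lit 4), (nat_lit 24), (nb (nat_lit 0x320000000000000000000000000000002d0000000000000082) (nat_lit 1216) (nb (nat_lit 20) (nat_lit 128) (nat_lit 0))), (nb (nat_lit 55) (nat_lit 2432) (nb (nat_lit 20) (nat_lit 1344) (nat_lit 0x320000000000000000000000000000002d000000000000004b)))⟩]⟩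
def e748 : En := ⟨(nat_lit 48), (nat_lit 4368), (nat_lit 980), (nat_lit 72), [⟨(nat_lit 2), (nat_lit 28), (nat_lit 0x320000000000000000000000000000002d000000000000004b), (nb (nat_lit 55) (nat_lit 1216) (nb (nat_lit 20) (nat_lit 128) (nat_lit 0)))⟩, ⟨(nat_lit 4), (nat_lit 18), (nb (nat_lit 0x320000000000000000000000000000002d000000000000004b) (nat_lit 1216) (nat_lit 0)), (nb (nat_lit 55) (nat_lit 2432) (nb (nat_lit 20) (nat_lit 1344) (nat_lit 0)))⟩, ⟨(nat_lit 6), (nat_lit 26), (nb (nat_lit 0x320000000000000000000000000000002d0000000000000082) (nat_lit 1216) (nb (nat_lit 20) (nat_lit 128) (nat_lit 0))), (nb (nat_lit 55) (nat_lit 2432) (nb (nat_lit 20) (nat_lit 1344) (nat_lit 0x320000000000000000000000000000002d000000000000004b)))⟩]⟩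
def e749 : En := ⟨(nat_lit 50), (nat_lit 4113), (nat_lit 648), (nat_lit 24), [⟨(nat_lit 2), (nat_lit 20), (nat_lit 0x320000000000000000000000000000002d000000000000004b), (nb (nat_lit 55) (nat_lit 1216) (nb (nat_lit 20) (nat_lit 128) (nat_lit 0)))⟩, ⟨(nat_lit 6), (nat_lit 14), (nb (nat_lit 0x160000000000000000000000000000000b0000000000000021) (nat_lit 1216) (nat_lit 0x3200000000000000000000000000000005)), (nb (nat_lit 11) (nat_lit 1344) (nb (nat_lit 0xf0000000000000000000000000000001e) (nat_lit 64) (nat_lit 0)))⟩, ⟨(nat_lit 8), (nat_lit 18), (nb (nat_lit 0xb00000000000000000000000000000016) (nat_lit 1216) (nat_lit 0)), (nb (nat_lit 0x160000000000000000000000000000000b) (nat_lit 1280) (nat_lit 0x23000000000000001e000000000000000f0000000000000050))⟩]⟩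
def e750 : En := ⟨(nat_lit 52), (nat_lit 65793), (nat_lit 648), (nat_lit 24), [⟨(nat_lit 0), (nat_lit 10), (nb (nat_lit 0xb00000000000000000000000000000016) (nat_lit 1216) (nat_lit 0)), (nb (nat_lit 0x160000000000000000000000000000000b) (nat_lit 1280) (nat_lit 0x23000000000000001e000000000000000f0000000000000050))⟩, ⟨(nat_lit 4), (nat_lit 22), (nat_lit 0x320000000000000000000000000000002d000000000000004b), (nb (nat_lit 55) (nat_lit 1216) (nb (nat_lit 20) (nat_lit 128) (nat_lit 0)))⟩, ⟨(nat_lit 8), (nat_lit 16), (nb (nat_lit 0x160000000000000000000000000000000b0000000000000021) (nat_lit 1216) (nat_lit 0x3200000000000000000000000000000005)), (nb (nat_lit 11) (nat_lit 1344) (nb (nat_lit 0xf0000000000000000000000000000001e) (nat_lit 64) (nat_lit 0)))⟩]⟩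
def e751 : En := ⟨(nat_lit 54), (nat_lit 69648), (nat_lit 648), (nat_lit 24), [⟨(nat_lit 0), (nat_lit 18), (nb (nat_lit 0x160000000000000000000000000000000b0000000000000021) (nat_lit 1216) (nat_lit 0x3200000000000000000000000000000005)), (nb (nat_lit 11) (nat_lit 1344) (nb (nat_lit 0xf0000000000000000000000000000001e) (nat_lit 64) (nat_lit 0)))⟩, ⟨(nat_lit 2), (nat_lit 12), (nb (nat_lit 0xb00000000000000000000000000000016) (nat_lit 1216) (nat_lit 0)), (nb (nat_lit 0x160000000000000000000000000000000b) (nat_lit 1280) (nat_lit 0x23000000000000001e000000000000000f0000000000000050))⟩, ⟨(nat_lit 6), (nat_lit 24), (nat_lit 0x320000000000000000000000000000002d000000000000004b), (nb (nat_lit 55) (nat_lit 1216) (nb (nat_lit 20) (nat_lit 128) (nat_lit 0)))⟩]⟩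
def e752 : En := ⟨(nat_lit 56), (nat_lit 4353), (nat_lit 648), (nat_lit 24), [⟨(nat_lit 2), (nat_lit 10), (nb (nat_lit 0x160000000000000000000000000000000b0000000000000021) (nat_lit 1216) (nat_lit 0x3200000000000000000000000000000005)), (nb (nat_lit 11) (nat_lit 1344) (nb (nat_lit 0xf0000000000000000000000000000001e) (nat_lit 64) (nat_lit 0)))⟩, ⟨(nat_lit 4), (nat_lit 14), (nb (nat_lit 0xb00000000000000000000000000000016) (nat_lit 1216) (nat_lit 0)), (nb (nat_lit 0x160000000000000000000000000000000b) (nat_lit 1280) (nat_lit 0x23000000000000001e000000000000000f0000000000000050))⟩, ⟨(nat_lit 8), (nat_lit 26), (nat_lit 0x320000000000000000000000000000002d000000000000004b), (nb (nat_lit 55) (nat_lit 1216) (nb (nat_lit 20) (nat_lit 128) (nat_lit 0)))⟩]⟩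
def e753 : En := ⟨(nat_lit 58), (nat_lit 65808), (nat_lit 648), (nat_lit 24), [⟨(nat_lit 0), (nat_lit 28), (nat_lit 0x320000000000000000000000000000002d000000000000004b), (nb (nat_lit 55) (nat_lit 1216) (nb (nat_lit 20) (nat_lit 128) (nat_lit 0)))⟩, ⟨(nat_lit 4), (nat_lit 12), (nb (nat_lit 0x160000000000000000000000000000000b0000000000000021) (nat_lit 1216) (nat_lit 0x3200000000000000000000000000000005)), (nb (nat_lit 11) (nat_lit 1344) (nb (nat_lit 0xf0000000000000000000000000000001e) (nat_lit 64) (nat_lit 0)))⟩, ⟨(nat_lit 6), (nat_lit 16), (nb (nat_lit 0xb00000000000000000000000000000016) (nat_lit 1216) (nat_lit 0)), (nb (nat_lit 0x160000000000000000000000000000000b) (nat_lit 1280) (nat_lit 0x23000000000000001e000000000000000f0000000000000050))⟩]⟩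
def e754 : En := ⟨(nat_lit 10), (nat_lit 257), (nat_lit 245), (nat_lit 24), [⟨(nat_lit 4), (nat_lit 8), (nat_lit 0x320000000000000000000000000000002d000000000000004b), (nb (nat_lit 55) (nat_lit 1216) (nb (nat_lit 20) (nat_lit 128) (nat_lit 0)))⟩]⟩
def e755 : En := ⟨(nat_lit 12), (nat_lit 65552), (nat_lit 245), (nat_lit 24), [⟨(nat_lit 0), (nat_lit 6), (nb (nat_lit 55) (nat_lit 1216) (nb (nat_lit 20) (nat_lit 128) (nat_lit 0))), (nat_lit 0x320000000000000000000000000000002d000000000000004b)⟩]⟩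
def e756 : En := ⟨(nat_lit 14), (nat_lit 4097), (nat_lit 245), (nat_lit 24), [⟨(nat_lit 2), (nat_lit 8), (nb (nat_lit 55) (nat_lit 1216) (nb (nat_lit 20) (nat_lit 128) (nat_lit 0))), (nat_lit 0x320000000000000000000000000000002d000000000000004b)⟩]⟩
def e757 : En := ⟨(nat_lit 16), (nat_lit 65792), (nat_lit 245), (nat_lit 24), [⟨(nat_lit 0), (nat_lit 4), (nat_lit 0x320000000000000000000000000000002d000000000000004b), (nb (nat_lit 55) (nat_lit 1216) (nb (nat_lit 20) (nat_lit 128) (nat_lit 0)))⟩]⟩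
def e758 : En := ⟨(nat_lit 18), (nat_lit 4112), (nat_lit 245), (nat_lit 24), [⟨(nat_lit 2), (nat_lit 6), (nat_lit 0x320000000000000000000000000000002d000000000000004b), (nb (nat_lit 55) (nat_lit 1216) (nb (nat_lit 20) (nat_lit 128) (nat_lit 0)))⟩]⟩
def e759 : En := ⟨(nat_lit 20), (nat_lit 17), (nat_lit 245), (nat_lit 24), [⟨(nat_lit 6), (nat_lit 8), (nat_lit 0x320000000000000000000000000000002d000000000000004b), (nb (nat_lit 55) (nat_lit 1216) (nb (nat_lit 20) (nat_lit 128) (nat_lit 0)))⟩]⟩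
def e760 : En := ⟨(nat_lit 22), (nat_lit 65537), (nat_lit 245), (nat_lit 24), [⟨(nat_lit 0), (nat_lit 8), (nb (nat_lit 55) (nat_lit 1216) (nb (nat_lit 20) (nat_lit 128) (nat_lit 0))), (nat_lit 0x320000000000000000000000000000002d000000000000004b)⟩]⟩
def e761 : En := ⟨(nat_lit 24), (nat_lit 69632), (nat_lit 245), (nat_lit 24), [⟨(nat_lit 0), (nat_lit 2), (nat_lit 0x320000000000000000000000000000002d000000000000004b), (nb (nat_lit 55) (nat_lit 1216) (nb (nat_lit 20) (nat_lit 128) (nat_lit 0)))⟩]⟩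
def e762 : En := ⟨(nat_lit 26), (nat_lit 4352), (nat_lit 245), (nat_lit 24), [⟨(nat_lit 2), (nat_lit 4), (nat_lit 0x320000000000000000000000000000002d000000000000004b), (nb (nat_lit 55) (nat_lit 1216) (nb (nat_lit 20) (nat_lit 128) (nat_lit 0)))⟩]⟩
def e763 : En := ⟨(nat_lit 28), (nat_lit 272), (nat_lit 245), (nat_lit 24), [⟨(nat_lit 4), (nat_lit 6), (nat_lit 0x320000000000000000000000000000002d000000000000004b), (nb (nat_lit 55) (nat_lit 1216) (nb (nat_lit 20) (nat_lit 128) (nat_lit 0)))⟩]⟩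
def e764 : En := ⟨(nat_lit 73), (nat_lit 69905), (nat_lit 1872), (nat_lit 216), [⟨(nat_lit 0), (nat_lit 60), (nat_lit 0xa00000000000000000000000000000009000000000000000f), (nb (nat_lit 11) (nat_lit 1216) (nb (nat_lit 4) (nat_lit 128) (nat_lit 0)))⟩, ⟨(nat_lit 2), (nat_lit 62), (nb (nat_lit 0xb000000000000000b000000000000000b000000000000000b) (nat_lit 1216) (nat_lit 0)), (nat_lit 0xf000000000000000500000000000000130000000000000006)⟩, ⟨(nat_lit 4), (nat_lit 64), (nat_lit 0x6000000000000000000000000000000010000000000000000), (nb (nat_lit 11) (nat_lit 1408) (nat_lit 0x90000000000000000000000000000000d))⟩, ⟨(nat_lit 6), (nat_lit 66), (nat_lit 0xd00000000000000130000000000000004000000000000000e), (nb (nat_lit 11) (nat_lit 1344) (nat_lit 0))⟩, ⟨(nat_lit 8), (nat_lit 68), (nat_lit 0x50000000000000000), (nb (nat_lit 11) (nat_lit 1280) (nat_lit 0xe00000000000000010000000000000000000000000000000a))⟩, ⟨(nat_lit 10), (nat_lit 54), (nb (nat_lit 1) (nat_lit 3712)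 (nb (nat_lit 0x310000000000000014000000000000000a0000000000000023) (nat_lit 2432) (nat_lit 0))), (nb (nat_lit 0x1000000000000000090000000000000000000000000000000d) (nat_lit 3648) (nb (nat_lit 0x22000000000000000400000000000000180000000000000012) (nat_lit 1216) (nat_lit 0)))⟩, ⟨(nat_lit 12), (nat_lit 56), (nb (nat_lit 0xd00000000000000000000000000000004000000000000000e) (nat_lit 3648) (nb (nat_lit 14) (nat_lit 2560) (nb (nat_lit 0x120000000000000000000000000000000e) (nat_lit 1280) (nat_lit 0)))), (nb (nat_lit 3) (nat_lit 3776) (nb (nat_lit 0x230000000000000000000000000000000f0000000000000019) (nat_lit 2432) (nb (nat_lit 0x1000000000000000000000000000000006) (nat_lit 1216) (nat_lit 0))))⟩, ⟨(nat_lit 14), (nat_lit 58), (nb (nat_lit 0x1900000000000000000000000000000027000000000000000a) (nat_lit 2432) (nb (nat_lit 0x6000000000000001800000000000000000000000000000014) (nat_lit 1216) (nat_lit 0))), (nb (nat_lit 0xe00000000000000010000000000000011000000000000000a)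 (nat_lit 3648) (nb (nat_lit 10) (nat_lit 2560) (nb (nat_lit 10) (nat_lit 1280) (nat_lit 0))))⟩, ⟨(nat_lit 16), (nat_lit 50), (nb (nat_lit 0xa00000000000000000000000000000009) (nat_lit 3712) (nb (nat_lit 0xf0000000000000000000000000000001d) (nat_lit 2432) (nb (nat_lit 4) (nat_lit 1280) (nat_lit 0)))), (nb (nat_lit 0x400000000000000000000000000000007) (nat_lit 3648) (nb (nat_lit 0xa00000000000000000000000000000014) (nat_lit 2496) (nb (nat_lit 0x14000000000000000e0000000000000000000000000000001e) (nat_lit 1216) (nat_lit 0))))⟩, ⟨(nat_lit 18), (nat_lit 52), (nb (nat_lit 0x7000000000000001100000000000000030000000000000010) (nat_lit 3648) (nb (nat_lit 0x1e000000000000000a00000000000000100000000000000022) (nat_lit 1216) (nat_lit 0))), (nb (nat_lit 0x1d0000000000000027000000000000000e0000000000000031) (nat_lit 2432) (nat_lit 0))⟩, ⟨(nat_lit 20), (nat_lit 46), (nb (nat_lit 11) (nat_lit 2624) (nb (nat_lit 0x30000000000000007) (nat_lit 1280) (nat_lit 0x4000000000000000000000000000000000000000000000006))),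 (nb (nat_lit 0x18000000000000000000000000000000000000000000000003) (nat_lit 1216) (nb (nat_lit 0x6000000000000000e) (nat_lit 64) (nat_lit 0)))⟩, ⟨(nat_lit 22), (nat_lit 48), (nb (nat_lit 11) (nat_lit 2560) (nb (nat_lit 0x300000000000000000000000000000006000000000000000a) (nat_lit 1216) (nat_lit 0))), (nb (nat_lit 21) (nat_lit 1344) (nat_lit 0x60000000000000002000000000000000c0000000000000014))⟩, ⟨(nat_lit 24), (nat_lit 40), (nb (nat_lit 11) (nat_lit 2496) (nat_lit 0x14000000000000000e00000000000000120000000000000008)), (nb (nat_lit 0xa0000000000000007000000000000001f0000000000000004) (nat_lit 1216) (nat_lit 0))⟩, ⟨(nat_lit 26), (nat_lit 42), (nb (nat_lit 11) (nat_lit 2432) (nb (nat_lit 4) (nat_lit 1408) (nat_lit 0xc0000000000000006000000000000000a))), (nb (nat_lit 0x60000000000000003000000000000001b) (nat_lit 1216) (nb (nat_lit 8) (nat_lit 192) (nat_lit 0)))⟩, ⟨(nat_lit 28), (nat_lit 44), (nb (nat_lit 0x1b000000000000001f00000000000000150000000000000018)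 (nat_lit 1216) (nb (nat_lit 2) (nat_lit 64) (nat_lit 0))), (nb (nat_lit 0xb000000000000000b000000000000000b000000000000000b) (nat_lit 2432) (nat_lit 0xa000000000000001200000000000000000000000000000004))⟩]⟩
def e765 : En := ⟨(nat_lit 60), (nat_lit 4369), (nat_lit 178), (nat_lit 360), [⟨(nat_lit 2), (nat_lit 40), (nb (nat_lit 0x100000000000000000000000000000002) (nat_lit 14592) (nb (nat_lit 0x2000000000000000000000000000000010000000000000003) (nat_lit 13376) (nb (nat_lit 1) (nat_lit 1344) (nb (nat_lit 0x200000000000000000000000000000001) (nat_lit 64) (nat_lit 0))))), (nb (nat_lit 0x200000000000000000000000000000001) (nat_lit 14656) (nb (nat_lit 1) (nat_lit 13504) (nb (nat_lit 0x2000000000000000000000000000000010000000000000003) (nat_lit 1216) (nat_lit 0x100000000000000000000000000000002))))⟩, ⟨(nat_lit 4), (nat_lit 50), (nb (nat_lit 5) (nat_lit 2432) (nat_lit 0)), (nb (nat_lit 10) (nat_lit 1216) (nat_lit 0))⟩, ⟨(nat_lit 6), (nat_lit 56), (nb (nat_lit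 5) (nat_lit 15808) (nat_lit 0)), (nb (nat_lit 10) (nat_lit 14592) (nat_lit 0))⟩, ⟨(nat_lit 8), (nat_lit 48), (nb (nat_lit 5) (nat_lit 14592) (nb (nat_lit 1) (nat_lit 13504) (nat_lit 0x100000000000000000000000000000002))), (nb (nat_lit 0x2000000000000000000000000000000010000000000000003) (nat_lit 13376) (nb (nat_lit 5) (nat_lit 1216) (nb (nat_lit 0x200000000000000000000000000000001) (nat_lit 64) (nat_lit 0))))⟩, ⟨(nat_lit 10), (nat_lit 18), (nb (nat_lit 0x2000000000000000000000000000000010000000000000003) (nat_lit 14592) (nb (nat_lit 0x2000000000000000000000000000000010000000000000003) (nat_lit 2432) (nb (nat_lit 0x100000000000000000000000000000002) (nat_lit 1216) (nat_lit 0)))), (nb (nat_lit 5) (nat_lit 15808) (nb (nat_lit 1) (nat_lit 14720) (nb (nat_lit 1) (nat_lit 2560) (nb (nat_lit 0x200000000000000000000000000000001) (nat_lit 1280) (nat_lit 0)))))⟩, ⟨(nat_lit 14), (nat_lit 28), (nb (nat_lit 0x200000000000000000000000000000001) (nat_lit 15872)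 (nb (nat_lit 0x200000000000000000000000000000004) (nat_lit 14592) (nb (nat_lit 0x2000000000000000000000000000000010000000000000003) (nat_lit 2432) (nb (nat_lit 2) (nat_lit 1344) (nat_lit 0))))), (nb (nat_lit 0x100000000000000000000000000000002) (nat_lit 15808) (nb (nat_lit 0x400000000000000000000000000000002) (nat_lit 14656) (nb (nat_lit 1) (nat_lit 2560) (nb (nat_lit 0x4000000000000000000000000000000020000000000000006) (nat_lit 1216) (nat_lit 0)))))⟩, ⟨(nat_lit 20), (nat_lit 26), (nb (nat_lit 0x200000000000000000000000000000001) (nat_lit 14656) (nb (nat_lit 1) (nat_lit 13504) (nb (nat_lit 5) (nat_lit 2432) (nb (nat_lit 0x200000000000000000000000000000001) (nat_lit 1280) (nat_lit 0x100000000000000000000000000000002))))), (nb (nat_lit 0x100000000000000000000000000000002) (nat_lit 14592) (nb (nat_lit 0x2000000000000000000000000000000010000000000000003) (nat_lit 13376) (nb (nat_lit 0x100000000000000000000000000000007) (nat_lit 1216) (nb (nat_lit 0x200000000000000000000000000000001)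 (nat_lit 64) (nat_lit 0)))))⟩]⟩
def e766 : En := ⟨(nat_lit 62), (nat_lit 65809), (nat_lit 178), (nat_lit 360), [⟨(nat_lit 0), (nat_lit 40), (nb (nat_lit 5) (nat_lit 14592) (nb (nat_lit 1) (nat_lit 13504) (nat_lit 0x100000000000000000000000000000002))), (nb (nat_lit 0x2000000000000000000000000000000010000000000000003) (nat_lit 13376) (nb (nat_lit 5) (nat_lit 1216) (nb (nat_lit 0x200000000000000000000000000000001) (nat_lit 64) (nat_lit 0))))⟩, ⟨(nat_lit 4), (nat_lit 42), (nb (nat_lit 0x100000000000000000000000000000002) (nat_lit 14592) (nb (nat_lit 0x2000000000000000000000000000000010000000000000003) (nat_lit 13376) (nb (nat_lit 1) (nat_lit 1344) (nb (nat_lit 0x200000000000000000000000000000001) (nat_lit 64) (nat_lit 0))))), (nb (nat_lit 0x200000000000000000000000000000001) (nat_lit 14656) (nb (nat_lit 1) (nat_lit 13504) (nb (nat_lit 0x2000000000000000000000000000000010000000000000003) (nat_lit 1216) (nat_lit 0x100000000000000000000000000000002))))⟩,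 ⟨(nat_lit 6), (nat_lit 52), (nb (nat_lit 5) (nat_lit 2432) (nat_lit 0)), (nb (nat_lit 10) (nat_lit 1216) (nat_lit 0))⟩, ⟨(nat_lit 8), (nat_lit 58), (nb (nat_lit 5) (nat_lit 15808) (nat_lit 0)), (nb (nat_lit 10) (nat_lit 14592) (nat_lit 0))⟩, ⟨(nat_lit 10), (nat_lit 12), (nb (nat_lit 5) (nat_lit 15808) (nb (nat_lit 1) (nat_lit 14720) (nb (nat_lit 1) (nat_lit 2560) (nb (nat_lit 0x200000000000000000000000000000001) (nat_lit 1280) (nat_lit 0))))), (nb (nat_lit 0x2000000000000000000000000000000010000000000000003) (nat_lit 14592) (nb (nat_lit 0x2000000000000000000000000000000010000000000000003) (nat_lit 2432) (nb (nat_lit 0x100000000000000000000000000000002) (nat_lit 1216) (nat_lit 0))))⟩, ⟨(nat_lit 16), (nat_lit 20), (nb (nat_lit 0x200000000000000000000000000000001) (nat_lit 15872) (nb (nat_lit 0x200000000000000000000000000000004) (nat_lit 14592) (nb (nat_lit 0x2000000000000000000000000000000010000000000000003) (nat_lit 2432) (nb (nat_lit 2) (nat_lit 1344)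 (nat_lit 0))))), (nb (nat_lit 0x100000000000000000000000000000002) (nat_lit 15808) (nb (nat_lit 0x400000000000000000000000000000002) (nat_lit 14656) (nb (nat_lit 1) (nat_lit 2560) (nb (nat_lit 0x4000000000000000000000000000000020000000000000006) (nat_lit 1216) (nat_lit 0)))))⟩, ⟨(nat_lit 22), (nat_lit 28), (nb (nat_lit 0x200000000000000000000000000000001) (nat_lit 14656) (nb (nat_lit 1) (nat_lit 13504) (nb (nat_lit 5) (nat_lit 2432) (nb (nat_lit 0x200000000000000000000000000000001) (nat_lit 1280) (nat_lit 0x100000000000000000000000000000002))))), (nb (nat_lit 0x100000000000000000000000000000002) (nat_lit 14592) (nb (nat_lit 0x2000000000000000000000000000000010000000000000003) (nat_lit 13376) (nb (nat_lit 0x100000000000000000000000000000007) (nat_lit 1216) (nb (nat_lit 0x200000000000000000000000000000001) (nat_lit 64) (nat_lit 0)))))⟩]⟩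
def e767 : En := ⟨(nat_lit 64), (nat_lit 69649), (nat_lit 178), (nat_lit 360), [⟨(nat_lit 0), (nat_lit 50), (nb (nat_lit 5) (nat_lit 15808) (nat_lit 0)), (nb (nat_lit 10) (nat_lit 14592) (nat_lit 0))⟩, ⟨(nat_lit 2), (nat_lit 42), (nb (nat_lit 5) (nat_lit 14592) (nb (nat_lit 1) (nat_lit 13504) (nat_lit 0x100000000000000000000000000000002))), (nb (nat_lit 0x2000000000000000000000000000000010000000000000003) (nat_lit 13376) (nb (nat_lit 5) (nat_lit 1216) (nb (nat_lit 0x200000000000000000000000000000001) (nat_lit 64) (nat_lit 0))))⟩, ⟨(nat_lit 6), (nat_lit 44), (nb (nat_lit 0x100000000000000000000000000000002) (nat_lit 14592) (nb (nat_lit 0x2000000000000000000000000000000010000000000000003) (nat_lit 13376) (nb (nat_lit 1) (nat_lit 1344) (nb (nat_lit 0x200000000000000000000000000000001) (nat_lit 64) (nat_lit 0))))), (nb (nat_lit 0x200000000000000000000000000000001) (nat_lit 14656) (nb (nat_lit 1) (nat_lit 13504) (nb (nat_lit 0x2000000000000000000000000000000010000000000000003)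 (nat_lit 1216) (nat_lit 0x100000000000000000000000000000002))))⟩, ⟨(nat_lit 8), (nat_lit 54), (nb (nat_lit 5) (nat_lit 2432) (nat_lit 0)), (nb (nat_lit 10) (nat_lit 1216) (nat_lit 0))⟩, ⟨(nat_lit 12), (nat_lit 14), (nb (nat_lit 5) (nat_lit 15808) (nb (nat_lit 1) (nat_lit 14720) (nb (nat_lit 1) (nat_lit 2560) (nb (nat_lit 0x200000000000000000000000000000001) (nat_lit 1280) (nat_lit 0))))), (nb (nat_lit 0x2000000000000000000000000000000010000000000000003) (nat_lit 14592) (nb (nat_lit 0x2000000000000000000000000000000010000000000000003) (nat_lit 2432) (nb (nat_lit 0x100000000000000000000000000000002) (nat_lit 1216) (nat_lit 0))))⟩, ⟨(nat_lit 18), (nat_lit 22), (nb (nat_lit 0x200000000000000000000000000000001) (nat_lit 15872) (nb (nat_lit 0x200000000000000000000000000000004) (nat_lit 14592) (nb (nat_lit 0x2000000000000000000000000000000010000000000000003) (nat_lit 2432) (nb (nat_lit 2) (nat_lit 1344) (nat_lit 0))))), (nb (nat_lit 0x100000000000000000000000000000002)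 (nat_lit 15808) (nb (nat_lit 0x400000000000000000000000000000002) (nat_lit 14656) (nb (nat_lit 1) (nat_lit 2560) (nb (nat_lit 0x4000000000000000000000000000000020000000000000006) (nat_lit 1216) (nat_lit 0)))))⟩, ⟨(nat_lit 20), (nat_lit 24), (nb (nat_lit 0x100000000000000000000000000000002) (nat_lit 14592) (nb (nat_lit 0x2000000000000000000000000000000010000000000000003) (nat_lit 13376) (nb (nat_lit 0x100000000000000000000000000000007) (nat_lit 1216) (nb (nat_lit 0x200000000000000000000000000000001) (nat_lit 64) (nat_lit 0))))), (nb (nat_lit 0x200000000000000000000000000000001) (nat_lit 14656) (nb (nat_lit 1) (nat_lit 13504) (nb (nat_lit 5) (nat_lit 2432) (nb (nat_lit 0x200000000000000000000000000000001) (nat_lit 1280) (nat_lit 0x100000000000000000000000000000002)))))⟩]⟩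
def e768 : En := ⟨(nat_lit 66), (nat_lit 69889), (nat_lit 178), (nat_lit 360), [⟨(nat_lit 0), (nat_lit 56), (nb (nat_lit 5) (nat_lit 2432) (nat_lit 0)), (nb (nat_lit 10) (nat_lit 1216) (nat_lit 0))⟩, ⟨(nat_lit 2), (nat_lit 52), (nb (nat_lit 5) (nat_lit 15808) (nat_lit 0)), (nb (nat_lit 10) (nat_lit 14592) (nat_lit 0))⟩, ⟨(nat_lit 4), (nat_lit 44), (nb (nat_lit 5) (nat_lit 14592) (nb (nat_lit 1) (nat_lit 13504) (nat_lit 0x100000000000000000000000000000002))), (nb (nat_lit 0x2000000000000000000000000000000010000000000000003) (nat_lit 13376) (nb (nat_lit 5) (nat_lit 1216) (nb (nat_lit 0x200000000000000000000000000000001) (nat_lit 64) (nat_lit 0))))⟩, ⟨(nat_lit 8), (nat_lit 46), (nb (nat_lit 0x100000000000000000000000000000002) (nat_lit 14592) (nb (nat_lit 0x2000000000000000000000000000000010000000000000003) (nat_lit 13376) (nb (nat_lit 1) (nat_lit 1344) (nb (nat_lit 0x200000000000000000000000000000001) (nat_lit 64) (nat_lit 0))))), (nb (nat_lit 0x200000000000000000000000000000001)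 (nat_lit 14656) (nb (nat_lit 1) (nat_lit 13504) (nb (nat_lit 0x2000000000000000000000000000000010000000000000003) (nat_lit 1216) (nat_lit 0x100000000000000000000000000000002))))⟩, ⟨(nat_lit 10), (nat_lit 24), (nb (nat_lit 0x200000000000000000000000000000001) (nat_lit 15872) (nb (nat_lit 0x200000000000000000000000000000004) (nat_lit 14592) (nb (nat_lit 0x2000000000000000000000000000000010000000000000003) (nat_lit 2432) (nb (nat_lit 2) (nat_lit 1344) (nat_lit 0))))), (nb (nat_lit 0x100000000000000000000000000000002) (nat_lit 15808) (nb (nat_lit 0x400000000000000000000000000000002) (nat_lit 14656) (nb (nat_lit 1) (nat_lit 2560) (nb (nat_lit 0x4000000000000000000000000000000020000000000000006) (nat_lit 1216) (nat_lit 0)))))⟩, ⟨(nat_lit 14), (nat_lit 16), (nb (nat_lit 5) (nat_lit 15808) (nb (nat_lit 1) (nat_lit 14720) (nb (nat_lit 1) (nat_lit 2560) (nb (nat_lit 0x200000000000000000000000000000001) (nat_lit 1280) (nat_lit 0))))), (nb (nat_lit 0x2000000000000000000000000000000010000000000000003)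 (nat_lit 14592) (nb (nat_lit 0x2000000000000000000000000000000010000000000000003) (nat_lit 2432) (nb (nat_lit 0x100000000000000000000000000000002) (nat_lit 1216) (nat_lit 0))))⟩, ⟨(nat_lit 22), (nat_lit 26), (nb (nat_lit 0x100000000000000000000000000000002) (nat_lit 14592) (nb (nat_lit 0x2000000000000000000000000000000010000000000000003) (nat_lit 13376) (nb (nat_lit 0x100000000000000000000000000000007) (nat_lit 1216) (nb (nat_lit 0x200000000000000000000000000000001) (nat_lit 64) (nat_lit 0))))), (nb (nat_lit 0x200000000000000000000000000000001) (nat_lit 14656) (nb (nat_lit 1) (nat_lit 13504) (nb (nat_lit 5) (nat_lit 2432) (nb (nat_lit 0x200000000000000000000000000000001) (nat_lit 1280) (nat_lit 0x100000000000000000000000000000002)))))⟩]⟩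
def e769 : En := ⟨(nat_lit 68), (nat_lit 69904), (nat_lit 178), (nat_lit 360), [⟨(nat_lit 0), (nat_lit 48), (nb (nat_lit 0x100000000000000000000000000000002) (nat_lit 14592) (nb (nat_lit 0x2000000000000000000000000000000010000000000000003) (nat_lit 13376) (nb (nat_lit 1) (nat_lit 1344) (nb (nat_lit 0x200000000000000000000000000000001) (nat_lit 64) (nat_lit 0))))), (nb (nat_lit 0x200000000000000000000000000000001) (nat_lit 14656) (nb (nat_lit 1) (nat_lit 13504) (nb (nat_lit 0x2000000000000000000000000000000010000000000000003) (nat_lit 1216) (nat_lit 0x100000000000000000000000000000002))))⟩, ⟨(nat_lit 2), (nat_lit 58), (nb (nat_lit 5) (nat_lit 2432) (nat_lit 0)), (nb (nat_lit 10) (nat_lit 1216) (nat_lit 0))⟩, ⟨(nat_lit 4), (nat_lit 54), (nb (nat_lit 5) (nat_lit 15808) (nat_lit 0)), (nb (nat_lit 10) (nat_lit 14592) (nat_lit 0))⟩, ⟨(nat_lit 6), (nat_lit 46), (nb (nat_lit 5) (nat_lit 14592) (nb (nat_lit 1) (nat_lit 13504) (nat_lit 0x100000000000000000000000000000002))),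 (nb (nat_lit 0x2000000000000000000000000000000010000000000000003) (nat_lit 13376) (nb (nat_lit 5) (nat_lit 1216) (nb (nat_lit 0x200000000000000000000000000000001) (nat_lit 64) (nat_lit 0))))⟩, ⟨(nat_lit 12), (nat_lit 26), (nb (nat_lit 0x200000000000000000000000000000001) (nat_lit 15872) (nb (nat_lit 0x200000000000000000000000000000004) (nat_lit 14592) (nb (nat_lit 0x2000000000000000000000000000000010000000000000003) (nat_lit 2432) (nb (nat_lit 2) (nat_lit 1344) (nat_lit 0))))), (nb (nat_lit 0x100000000000000000000000000000002) (nat_lit 15808) (nb (nat_lit 0x400000000000000000000000000000002) (nat_lit 14656) (nb (nat_lit 1) (nat_lit 2560) (nb (nat_lit 0x4000000000000000000000000000000020000000000000006) (nat_lit 1216) (nat_lit 0)))))⟩, ⟨(nat_lit 16), (nat_lit 18), (nb (nat_lit 5) (nat_lit 15808) (nb (nat_lit 1) (nat_lit 14720) (nb (nat_lit 1) (nat_lit 2560) (nb (nat_lit 0x200000000000000000000000000000001) (nat_lit 1280) (nat_lit 0))))), (nb (nat_lit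 0x2000000000000000000000000000000010000000000000003) (nat_lit 14592) (nb (nat_lit 0x2000000000000000000000000000000010000000000000003) (nat_lit 2432) (nb (nat_lit 0x100000000000000000000000000000002) (nat_lit 1216) (nat_lit 0))))⟩, ⟨(nat_lit 24), (nat_lit 28), (nb (nat_lit 0x100000000000000000000000000000002) (nat_lit 14592) (nb (nat_lit 0x2000000000000000000000000000000010000000000000003) (nat_lit 13376) (nb (nat_lit 0x100000000000000000000000000000007) (nat_lit 1216) (nb (nat_lit 0x200000000000000000000000000000001) (nat_lit 64) (nat_lit 0))))), (nb (nat_lit 0x200000000000000000000000000000001) (nat_lit 14656) (nb (nat_lit 1) (nat_lit 13504) (nb (nat_lit 5) (nat_lit 2432) (nb (nat_lit 0x200000000000000000000000000000001) (nat_lit 1280) (nat_lit 0x100000000000000000000000000000002)))))⟩]⟩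
def e770 : En := ⟨(nat_lit 50), (nat_lit 4113), (nat_lit 18), (nat_lit 8), [⟨(nat_lit 2), (nat_lit 20), (nat_lit 5), (nat_lit 0)⟩, ⟨(nat_lit 6), (nat_lit 14), (nat_lit 0x100000000000000000000000000000000), (nat_lit 0x2000000000000000000000000000000010000000000000003)⟩, ⟨(nat_lit 8), (nat_lit 18), (nat_lit 0x2000000000000000000000000000000010000000000000000), (nat_lit 0x100000000000000000000000000000002)⟩]⟩
def e771 : En := ⟨(nat_lit 52), (nat_lit 65793), (nat_lit 18), (nat_lit 8), [⟨(nat_lit 0), (nat_lit 10), (nat_lit 0x2000000000000000000000000000000010000000000000000), (nat_lit 0x100000000000000000000000000000002)⟩, ⟨(nat_lit 4), (nat_lit 22), (nat_lit 5), (nat_lit 0)⟩, ⟨(nat_lit 8), (nat_lit 16), (nat_lit 0x100000000000000000000000000000000), (nat_lit 0x2000000000000000000000000000000010000000000000003)⟩]⟩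
def e772 : En := ⟨(nat_lit 54), (nat_lit 69648), (nat_lit 18), (nat_lit 8), [⟨(nat_lit 0), (nat_lit 18), (nat_lit 0x100000000000000000000000000000000), (nat_lit 0x2000000000000000000000000000000010000000000000003)⟩, ⟨(nat_lit 2), (nat_lit 12), (nat_lit 0x2000000000000000000000000000000010000000000000000), (nat_lit 0x100000000000000000000000000000002)⟩, ⟨(nat_lit 6), (nat_lit 24), (nat_lit 5), (nat_lit 0)⟩]⟩
def e773 : En := ⟨(nat_lit 56), (nat_lit 4353), (nat_lit 18), (nat_lit 8), [⟨(nat_lit 2), (nat_lit 10), (nat_lit 0x100000000000000000000000000000000), (nat_lit 0x2000000000000000000000000000000010000000000000003)⟩, ⟨(nat_lit 4), (nat_lit 14), (nat_lit 0x2000000000000000000000000000000010000000000000000), (nat_lit 0x100000000000000000000000000000002)⟩, ⟨(nat_lit 8), (nat_lit 26), (nat_lit 5), (nat_lit 0)⟩]⟩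
def e774 : En := ⟨(nat_lit 58), (nat_lit 65808), (nat_lit 18), (nat_lit 8), [⟨(nat_lit 0), (nat_lit 28), (nat_lit 5), (nat_lit 0)⟩, ⟨(nat_lit 4), (nat_lit 12), (nat_lit 0x100000000000000000000000000000000), (nat_lit 0x2000000000000000000000000000000010000000000000003)⟩, ⟨(nat_lit 6), (nat_lit 16), (nat_lit 0x2000000000000000000000000000000010000000000000000), (nat_lit 0x100000000000000000000000000000002)⟩]⟩
def e775 : En := ⟨(nat_lit 60), (nat_lit 4369), (nat_lit 0x135334), (nat_lit 216), [⟨(nat_lit 2), (nat_lit 40), (nb (nat_lit 0x33400000000000000000000000000002120) (nat_lit 3712) (nb (nat_lit 0x3bcd0000000000001d9400000000000000000000000000004e9c) (nat_lit 2432) (nat_lit 0x3bb5000000000000163a00000000000025cf0000000000002655))), (nb (nat_lit 0xfb7000000000000000000000000000028a5) (nat_lit 3648) (nb (nat_lit 13414) (nat_lit 2496) (nb (nat_lit 0x70900000000000003b290000000000000a370000000000004fb8) (nat_lit 1216) (nat_lit 0))))⟩, ⟨(nat_lit 4), (nat_lit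 50), (nb (nat_lit 0x52d200000000000000000000000000000d3200000000000052b6) (nat_lit 2432) (nb (nat_lit 10998) (nat_lit 1344) (nb (nat_lit 0x238300000000000000000000000000001202) (nat_lit 64) (nat_lit 0)))), (nb (nat_lit 0x2aba0000000000000f2d000000000000147700000000000042d9) (nat_lit 3648) (nb (nat_lit 8924) (nat_lit 2560) (nb (nat_lit 0x5cd4000000000000000000000000000003730000000000001046) (nat_lit 1216) (nat_lit 0xce7000000000000000000000000000010a2))))⟩, ⟨(nat_lit 6), (nat_lit 56), (nb (nat_lit 0x161a000000000000000000000000000030b4) (nat_lit 3648) (nb (nat_lit 14876) (nat_lit 2496) (nb (nat_lit 0x873300000000000055270000000000001e620000000000006407) (nat_lit 1216) (nat_lit 0)))), (nb (nat_lit 0x10000000000000000000000000000002cb5) (nat_lit 3712) (nb (nat_lit 0x4f49000000000000337000000000000000000000000000005bd7) (nat_lit 2432) (nat_lit 0x42d9000000000000181f00000000000033ac0000000000002e62)))⟩, ⟨(nat_lit 8), (nat_lit 48), (nb (nat_lit 0x22300000000000000000000000000000376b)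 (nat_lit 3712) (nb (nat_lit 0x11250000000000003ae900000000000000000000000000002b45) (nat_lit 2432) (nat_lit 0x348300000000000025b5000000000000228a0000000000003c14))), (nb (nat_lit 0x8dc00000000000000000000000000000530) (nat_lit 3648) (nb (nat_lit 19668) (nat_lit 2496) (nb (nat_lit 0x4f51000000000000666a000000000000072400000000000059ab) (nat_lit 1216) (nat_lit 0))))⟩, ⟨(nat_lit 10), (nat_lit 18), (nb (nat_lit 0x2a8100000000000000000000000000003be20000000000001155) (nat_lit 2432) (nb (nat_lit 0x4c2100000000000000000000000000002b23) (nat_lit 1216) (nat_lit 0))), (nb (nat_lit 0x302200000000000005d90000000000002a020000000000002243) (nat_lit 3648) (nb (nat_lit 10900) (nat_lit 2560) (nb (nat_lit 0x2e700000000000000000000000000000d67) (nat_lit 1280) (nat_lit 0x110e000000000000213c00000000000005f00000000000002eea))))⟩, ⟨(nat_lit 14), (nat_lit 28), (nb (nat_lit 3901) (nat_lit 3712) (nb (nat_lit 0x63d00000000000000ace00000000000000000000000000006bf9) (nat_lit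 2432) (nat_lit 0x3fc6000000000000070d0000000000002b570000000000001247))), (nb (nat_lit 0x19b00000000000001707000000000000000000000000000046d7) (nat_lit 3648) (nb (nat_lit 7214) (nat_lit 2496) (nb (nat_lit 0x8dcd0000000000001a9400000000000014eb00000000000048c1) (nat_lit 1216) (nat_lit 0))))⟩, ⟨(nat_lit 20), (nat_lit 26), (nb (nat_lit 138) (nat_lit 3776) (nb (nat_lit 0x170500000000000000000000000000004198000000000000041a) (nat_lit 2432) (nb (nat_lit 0x13bc000000000000661f00000000000006c40000000000003f72) (nat_lit 1216) (nat_lit 0)))), (nb (nat_lit 0x2dee000000000000000000000000000035970000000000001a34) (nat_lit 3648) (nb (nat_lit 16496) (nat_lit 2560) (nat_lit 0x1832000000000000232100000000000013cd00000000000036f7)))⟩]⟩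
def e776 : En := ⟨(nat_lit 62), (nat_lit 65809), (nat_lit 0x135334), (nat_lit 216), [⟨(nat_lit 0), (nat_lit 40), (nb (nat_lit 0x22300000000000000000000000000000376b) (nat_lit 3712) (nb (nat_lit 0x11250000000000003ae900000000000000000000000000002b45) (nat_lit 2432) (nat_lit 0x348300000000000025b5000000000000228a0000000000003c14))), (nb (nat_lit 0x8dc00000000000000000000000000000530) (nat_lit 3648) (nb (nat_lit 19668) (nat_lit 2496) (nb (nat_lit 0x4f51000000000000666a000000000000072400000000000059ab) (nat_lit 1216) (nat_lit 0))))⟩, ⟨(nat_lit 4), (nat_lit 42), (nb (nat_lit 0x33400000000000000000000000000002120) (nat_lit 3712) (nb (nat_lit 0x3bcd0000000000001d9400000000000000000000000000004e9c) (nat_lit 2432) (nat_lit 0x3bb5000000000000163a00000000000025cf0000000000002655))), (nb (nat_lit 0xfb7000000000000000000000000000028a5) (nat_lit 3648) (nb (nat_lit 13414) (nat_lit 2496) (nb (nat_lit 0x70900000000000003b290000000000000a370000000000004fb8) (nat_lit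 1216) (nat_lit 0))))⟩, ⟨(nat_lit 6), (nat_lit 52), (nb (nat_lit 0x52d200000000000000000000000000000d3200000000000052b6) (nat_lit 2432) (nb (nat_lit 10998) (nat_lit 1344) (nb (nat_lit 0x238300000000000000000000000000001202) (nat_lit 64) (nat_lit 0)))), (nb (nat_lit 0x2aba0000000000000f2d000000000000147700000000000042d9) (nat_lit 3648) (nb (nat_lit 8924) (nat_lit 2560) (nb (nat_lit 0x5cd4000000000000000000000000000003730000000000001046) (nat_lit 1216) (nat_lit 0xce7000000000000000000000000000010a2))))⟩, ⟨(nat_lit 8), (nat_lit 58), (nb (nat_lit 0x161a000000000000000000000000000030b4) (nat_lit 3648) (nb (nat_lit 14876) (nat_lit 2496) (nb (nat_lit 0x873300000000000055270000000000001e620000000000006407) (nat_lit 1216) (nat_lit 0)))), (nb (nat_lit 0x10000000000000000000000000000002cb5) (nat_lit 3712) (nb (nat_lit 0x4f49000000000000337000000000000000000000000000005bd7) (nat_lit 2432) (nat_lit 0x42d9000000000000181f00000000000033ac0000000000002e62)))⟩, ⟨(nat_lit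 10), (nat_lit 12), (nb (nat_lit 0x302200000000000005d90000000000002a020000000000002243) (nat_lit 3648) (nb (nat_lit 10900) (nat_lit 2560) (nb (nat_lit 0x2e700000000000000000000000000000d67) (nat_lit 1280) (nat_lit 0x110e000000000000213c00000000000005f00000000000002eea)))), (nb (nat_lit 0x2a8100000000000000000000000000003be20000000000001155) (nat_lit 2432) (nb (nat_lit 0x4c2100000000000000000000000000002b23) (nat_lit 1216) (nat_lit 0)))⟩, ⟨(nat_lit 16), (nat_lit 20), (nb (nat_lit 3901) (nat_lit 3712) (nb (nat_lit 0x63d00000000000000ace00000000000000000000000000006bf9) (nat_lit 2432) (nat_lit 0x3fc6000000000000070d0000000000002b570000000000001247))), (nb (nat_lit 0x19b00000000000001707000000000000000000000000000046d7) (nat_lit 3648) (nb (nat_lit 7214) (nat_lit 2496) (nb (nat_lit 0x8dcd0000000000001a9400000000000014eb00000000000048c1) (nat_lit 1216) (nat_lit 0))))⟩, ⟨(nat_lit 22), (nat_lit 28), (nb (nat_lit 138) (nat_lit 3776) (nb (nat_lit 0x170500000000000000000000000000004198000000000000041a)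 (nat_lit 2432) (nb (nat_lit 0x13bc000000000000661f00000000000006c40000000000003f72) (nat_lit 1216) (nat_lit 0)))), (nb (nat_lit 0x2dee000000000000000000000000000035970000000000001a34) (nat_lit 3648) (nb (nat_lit 16496) (nat_lit 2560) (nat_lit 0x1832000000000000232100000000000013cd00000000000036f7)))⟩]⟩
def e777 : En := ⟨(nat_lit 64), (nat_lit 69649), (nat_lit 0x135334), (nat_lit 216), [⟨(nat_lit 0), (nat_lit 50), (nb (nat_lit 0x161a000000000000000000000000000030b4) (nat_lit 3648) (nb (nat_lit 14876) (nat_lit 2496) (nb (nat_lit 0x873300000000000055270000000000001e620000000000006407) (nat_lit 1216) (nat_lit 0)))), (nb (nat_lit 0x10000000000000000000000000000002cb5) (nat_lit 3712) (nb (nat_lit 0x4f49000000000000337000000000000000000000000000005bd7) (nat_lit 2432) (nat_lit 0x42d9000000000000181f00000000000033ac0000000000002e62)))⟩, ⟨(nat_lit 2), (nat_lit 42), (nb (nat_lit 0x22300000000000000000000000000000376b) (nat_lit 3712) (nb (nat_lit 0x11250000000000003ae900000000000000000000000000002b45)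 (nat_lit 2432) (nat_lit 0x348300000000000025b5000000000000228a0000000000003c14))), (nb (nat_lit 0x8dc00000000000000000000000000000530) (nat_lit 3648) (nb (nat_lit 19668) (nat_lit 2496) (nb (nat_lit 0x4f51000000000000666a000000000000072400000000000059ab) (nat_lit 1216) (nat_lit 0))))⟩, ⟨(nat_lit 6), (nat_lit 44), (nb (nat_lit 0x33400000000000000000000000000002120) (nat_lit 3712) (nb (nat_lit 0x3bcd0000000000001d9400000000000000000000000000004e9c) (nat_lit 2432) (nat_lit 0x3bb5000000000000163a00000000000025cf0000000000002655))), (nb (nat_lit 0xfb7000000000000000000000000000028a5) (nat_lit 3648) (nb (nat_lit 13414) (nat_lit 2496) (nb (nat_lit 0x70900000000000003b290000000000000a370000000000004fb8) (nat_lit 1216) (nat_lit 0))))⟩, ⟨(nat_lit 8), (nat_lit 54), (nb (nat_lit 0x52d200000000000000000000000000000d3200000000000052b6) (nat_lit 2432) (nb (nat_lit 10998) (nat_lit 1344) (nb (nat_lit 0x238300000000000000000000000000001202) (nat_lit 64) (nat_lit 0)))),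 (nb (nat_lit 0x2aba0000000000000f2d000000000000147700000000000042d9) (nat_lit 3648) (nb (nat_lit 8924) (nat_lit 2560) (nb (nat_lit 0x5cd4000000000000000000000000000003730000000000001046) (nat_lit 1216) (nat_lit 0xce7000000000000000000000000000010a2))))⟩, ⟨(nat_lit 12), (nat_lit 14), (nb (nat_lit 0x302200000000000005d90000000000002a020000000000002243) (nat_lit 3648) (nb (nat_lit 10900) (nat_lit 2560) (nb (nat_lit 0x2e700000000000000000000000000000d67) (nat_lit 1280) (nat_lit 0x110e000000000000213c00000000000005f00000000000002eea)))), (nb (nat_lit 0x2a8100000000000000000000000000003be20000000000001155) (nat_lit 2432) (nb (nat_lit 0x4c2100000000000000000000000000002b23) (nat_lit 1216) (nat_lit 0)))⟩, ⟨(nat_lit 18), (nat_lit 22), (nb (nat_lit 3901) (nat_lit 3712) (nb (nat_lit 0x63d00000000000000ace00000000000000000000000000006bf9) (nat_lit 2432) (nat_lit 0x3fc6000000000000070d0000000000002b570000000000001247))), (nb (nat_lit 0x19b00000000000001707000000000000000000000000000046d7)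 (nat_lit 3648) (nb (nat_lit 7214) (nat_lit 2496) (nb (nat_lit 0x8dcd0000000000001a9400000000000014eb00000000000048c1) (nat_lit 1216) (nat_lit 0))))⟩, ⟨(nat_lit 20), (nat_lit 24), (nb (nat_lit 0x2dee000000000000000000000000000035970000000000001a34) (nat_lit 3648) (nb (nat_lit 16496) (nat_lit 2560) (nat_lit 0x1832000000000000232100000000000013cd00000000000036f7))), (nb (nat_lit 138) (nat_lit 3776) (nb (nat_lit 0x170500000000000000000000000000004198000000000000041a) (nat_lit 2432) (nb (nat_lit 0x13bc000000000000661f00000000000006c40000000000003f72) (nat_lit 1216) (nat_lit 0))))⟩]⟩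
def e778 : En := ⟨(nat_lit 66), (nat_lit 69889), (nat_lit 0x135334), (nat_lit 216), [⟨(nat_lit 0), (nat_lit 56), (nb (nat_lit 0x52d200000000000000000000000000000d3200000000000052b6) (nat_lit 2432) (nb (nat_lit 10998) (nat_lit 1344) (nb (nat_lit 0x238300000000000000000000000000001202) (nat_lit 64) (nat_lit 0)))), (nb (nat_lit 0x2aba0000000000000f2d000000000000147700000000000042d9) (nat_lit 3648) (nb (nat_lit 8924) (nat_lit 2560) (nb (nat_lit 0x5cd4000000000000000000000000000003730000000000001046) (nat_lit 1216) (nat_lit 0xce7000000000000000000000000000010a2))))⟩, ⟨(nat_lit 2), (nat_lit 52), (nb (nat_lit 0x161a000000000000000000000000000030b4) (nat_lit 3648) (nb (nat_lit 14876) (nat_lit 2496) (nb (nat_lit 0x873300000000000055270000000000001e620000000000006407) (nat_lit 1216) (nat_lit 0)))), (nb (nat_lit 0x10000000000000000000000000000002cb5) (nat_lit 3712) (nb (nat_lit 0x4f49000000000000337000000000000000000000000000005bd7) (nat_lit 2432) (nat_lit 0x42d9000000000000181f00000000000033ac0000000000002e62)))⟩,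 ⟨(nat_lit 4), (nat_lit 44), (nb (nat_lit 0x22300000000000000000000000000000376b) (nat_lit 3712) (nb (nat_lit 0x11250000000000003ae900000000000000000000000000002b45) (nat_lit 2432) (nat_lit 0x348300000000000025b5000000000000228a0000000000003c14))), (nb (nat_lit 0x8dc00000000000000000000000000000530) (nat_lit 3648) (nb (nat_lit 19668) (nat_lit 2496) (nb (nat_lit 0x4f51000000000000666a000000000000072400000000000059ab) (nat_lit 1216) (nat_lit 0))))⟩, ⟨(nat_lit 8), (nat_lit 46), (nb (nat_lit 0x33400000000000000000000000000002120) (nat_lit 3712) (nb (nat_lit 0x3bcd0000000000001d9400000000000000000000000000004e9c) (nat_lit 2432) (nat_lit 0x3bb5000000000000163a00000000000025cf0000000000002655))), (nb (nat_lit 0xfb7000000000000000000000000000028a5) (nat_lit 3648) (nb (nat_lit 13414) (nat_lit 2496) (nb (nat_lit 0x70900000000000003b290000000000000a370000000000004fb8) (nat_lit 1216) (nat_lit 0))))⟩, ⟨(nat_lit 10), (nat_lit 24), (nb (nat_lit 3901) (nat_lit 3712)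 (nb (nat_lit 0x63d00000000000000ace00000000000000000000000000006bf9) (nat_lit 2432) (nat_lit 0x3fc6000000000000070d0000000000002b570000000000001247))), (nb (nat_lit 0x19b00000000000001707000000000000000000000000000046d7) (nat_lit 3648) (nb (nat_lit 7214) (nat_lit 2496) (nb (nat_lit 0x8dcd0000000000001a9400000000000014eb00000000000048c1) (nat_lit 1216) (nat_lit 0))))⟩, ⟨(nat_lit 14), (nat_lit 16), (nb (nat_lit 0x302200000000000005d90000000000002a020000000000002243) (nat_lit 3648) (nb (nat_lit 10900) (nat_lit 2560) (nb (nat_lit 0x2e700000000000000000000000000000d67) (nat_lit 1280) (nat_lit 0x110e000000000000213c00000000000005f00000000000002eea)))), (nb (nat_lit 0x2a8100000000000000000000000000003be20000000000001155) (nat_lit 2432) (nb (nat_lit 0x4c2100000000000000000000000000002b23) (nat_lit 1216) (nat_lit 0)))⟩, ⟨(nat_lit 22), (nat_lit 26), (nb (nat_lit 0x2dee000000000000000000000000000035970000000000001a34) (nat_lit 3648) (nb (nat_lit 16496) (nat_lit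 2560) (nat_lit 0x1832000000000000232100000000000013cd00000000000036f7))), (nb (nat_lit 138) (nat_lit 3776) (nb (nat_lit 0x170500000000000000000000000000004198000000000000041a) (nat_lit 2432) (nb (nat_lit 0x13bc000000000000661f00000000000006c40000000000003f72) (nat_lit 1216) (nat_lit 0))))⟩]⟩
def e779 : En := ⟨(nat_lit 68), (nat_lit 69904), (nat_lit 0x135334), (nat_lit 216), [⟨(nat_lit 0), (nat_lit 48), (nb (nat_lit 0x33400000000000000000000000000002120) (nat_lit 3712) (nb (nat_lit 0x3bcd0000000000001d9400000000000000000000000000004e9c) (nat_lit 2432) (nat_lit 0x3bb5000000000000163a00000000000025cf0000000000002655))), (nb (nat_lit 0xfb7000000000000000000000000000028a5) (nat_lit 3648) (nb (nat_lit 13414) (nat_lit 2496) (nb (nat_lit 0x70900000000000003b290000000000000a370000000000004fb8) (nat_lit 1216) (nat_lit 0))))⟩, ⟨(nat_lit 2), (nat_lit 58), (nb (nat_lit 0x52d200000000000000000000000000000d3200000000000052b6) (nat_lit 2432) (nb (nat_lit 10998) (nat_lit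 1344) (nb (nat_lit 0x238300000000000000000000000000001202) (nat_lit 64) (nat_lit 0)))), (nb (nat_lit 0x2aba0000000000000f2d000000000000147700000000000042d9) (nat_lit 3648) (nb (nat_lit 8924) (nat_lit 2560) (nb (nat_lit 0x5cd4000000000000000000000000000003730000000000001046) (nat_lit 1216) (nat_lit 0xce7000000000000000000000000000010a2))))⟩, ⟨(nat_lit 4), (nat_lit 54), (nb (nat_lit 0x161a000000000000000000000000000030b4) (nat_lit 3648) (nb (nat_lit 14876) (nat_lit 2496) (nb (nat_lit 0x873300000000000055270000000000001e620000000000006407) (nat_lit 1216) (nat_lit 0)))), (nb (nat_lit 0x10000000000000000000000000000002cb5) (nat_lit 3712) (nb (nat_lit 0x4f49000000000000337000000000000000000000000000005bd7) (nat_lit 2432) (nat_lit 0x42d9000000000000181f00000000000033ac0000000000002e62)))⟩, ⟨(nat_lit 6), (nat_lit 46), (nb (nat_lit 0x22300000000000000000000000000000376b) (nat_lit 3712) (nb (nat_lit 0x11250000000000003ae900000000000000000000000000002b45) (nat_lit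 2432) (nat_lit 0x348300000000000025b5000000000000228a0000000000003c14))), (nb (nat_lit 0x8dc00000000000000000000000000000530) (nat_lit 3648) (nb (nat_lit 19668) (nat_lit 2496) (nb (nat_lit 0x4f51000000000000666a000000000000072400000000000059ab) (nat_lit 1216) (nat_lit 0))))⟩, ⟨(nat_lit 12), (nat_lit 26), (nb (nat_lit 3901) (nat_lit 3712) (nb (nat_lit 0x63d00000000000000ace00000000000000000000000000006bf9) (nat_lit 2432) (nat_lit 0x3fc6000000000000070d0000000000002b570000000000001247))), (nb (nat_lit 0x19b00000000000001707000000000000000000000000000046d7) (nat_lit 3648) (nb (nat_lit 7214) (nat_lit 2496) (nb (nat_lit 0x8dcd0000000000001a9400000000000014eb00000000000048c1) (nat_lit 1216) (nat_lit 0))))⟩, ⟨(nat_lit 16), (nat_lit 18), (nb (nat_lit 0x302200000000000005d90000000000002a020000000000002243) (nat_lit 3648) (nb (nat_lit 10900) (nat_lit 2560) (nb (nat_lit 0x2e700000000000000000000000000000d67) (nat_lit 1280) (nat_lit 0x110e000000000000213c00000000000005f00000000000002eea)))),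 (nb (nat_lit 0x2a8100000000000000000000000000003be20000000000001155) (nat_lit 2432) (nb (nat_lit 0x4c2100000000000000000000000000002b23) (nat_lit 1216) (nat_lit 0)))⟩, ⟨(nat_lit 24), (nat_lit 28), (nb (nat_lit 0x2dee000000000000000000000000000035970000000000001a34) (nat_lit 3648) (nb (nat_lit 16496) (nat_lit 2560) (nat_lit 0x1832000000000000232100000000000013cd00000000000036f7))), (nb (nat_lit 138) (nat_lit 3776) (nb (nat_lit 0x170500000000000000000000000000004198000000000000041a) (nat_lit 2432) (nb (nat_lit 0x13bc000000000000661f00000000000006c40000000000003f72) (nat_lit 1216) (nat_lit 0))))⟩]⟩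
def e780 : En := ⟨(nat_lit 40), (nat_lit 273), (nat_lit 273452), (nat_lit 216), [⟨(nat_lit 4), (nat_lit 20), (nb (nat_lit 0x160000000000000007b100000000000010800000000000001ec4) (nat_lit 3648) (nb (nat_lit 5812) (nat_lit 2560) (nb (nat_lit 0x232f0000000000000000000000000000000000000000000000f9) (nat_lit 1216) (nat_lit 0x9f400000000000000000000000000000bed)))), (nb (nat_lit 0x22c600000000000000000000000000000f720000000000002547) (nat_lit 2432) (nb (nat_lit 0x216f000000000000019e) (nat_lit 1280) (nb (nat_lit 0xdd30000000000000000000000000000041b) (nat_lit 64) (nat_lit 0))))⟩, ⟨(nat_lit 6), (nat_lit 10), (nb (nat_lit 0x5f4000000000000094b00000000000000000000000000002164) (nat_lit 3648) (nb (nat_lit 6866) (nat_lit 2496) (nb (nat_lit 0x488d00000000000014be000000000000019800000000000027f5) (nat_lit 1216) (nat_lit 0)))), (nb (nat_lit 2971) (nat_lit 3712) (nb (nat_lit 0x2b7d000000000000036b000000000000000000000000000034e7) (nat_lit 2432) (nat_lit 0x243b0000000000000a880000000000001562000000000000109a)))⟩,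 ⟨(nat_lit 8), (nat_lit 28), (nb (nat_lit 0x19a000000000000000000000000000002a0) (nat_lit 3648) (nb (nat_lit 10820) (nat_lit 2496) (nb (nat_lit 0x255e000000000000362d000000000000033600000000000026fc) (nat_lit 1216) (nat_lit 0)))), (nb (nat_lit 0x100c00000000000000000000000000001c1b) (nat_lit 3712) (nb (nat_lit 0x8b70000000000001a1f00000000000000000000000000000fa0) (nat_lit 2432) (nat_lit 0x1668000000000000147c00000000000011470000000000001c87)))⟩]⟩
def e781 : En := ⟨(nat_lit 42), (nat_lit 65553), (nat_lit 273452), (nat_lit 216), [⟨(nat_lit 0), (nat_lit 20), (nb (nat_lit 0x19a000000000000000000000000000002a0) (nat_lit 3648) (nb (nat_lit 10820) (nat_lit 2496) (nb (nat_lit 0x255e000000000000362d000000000000033600000000000026fc) (nat_lit 1216) (nat_lit 0)))), (nb (nat_lit 0x100c00000000000000000000000000001c1b) (nat_lit 3712) (nb (nat_lit 0x8b70000000000001a1f00000000000000000000000000000fa0) (nat_lit 2432) (nat_lit 0x1668000000000000147c00000000000011470000000000001c87)))⟩,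 ⟨(nat_lit 6), (nat_lit 22), (nb (nat_lit 0x160000000000000007b100000000000010800000000000001ec4) (nat_lit 3648) (nb (nat_lit 5812) (nat_lit 2560) (nb (nat_lit 0x232f0000000000000000000000000000000000000000000000f9) (nat_lit 1216) (nat_lit 0x9f400000000000000000000000000000bed)))), (nb (nat_lit 0x22c600000000000000000000000000000f720000000000002547) (nat_lit 2432) (nb (nat_lit 0x216f000000000000019e) (nat_lit 1280) (nb (nat_lit 0xdd30000000000000000000000000000041b) (nat_lit 64) (nat_lit 0))))⟩, ⟨(nat_lit 8), (nat_lit 12), (nb (nat_lit 0x5f4000000000000094b00000000000000000000000000002164) (nat_lit 3648) (nb (nat_lit 6866) (nat_lit 2496) (nb (nat_lit 0x488d00000000000014be000000000000019800000000000027f5) (nat_lit 1216) (nat_lit 0)))), (nb (nat_lit 2971) (nat_lit 3712) (nb (nat_lit 0x2b7d000000000000036b000000000000000000000000000034e7) (nat_lit 2432) (nat_lit 0x243b0000000000000a880000000000001562000000000000109a)))⟩]⟩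
def e782 : En := ⟨(nat_lit 44), (nat_lit 69633), (nat_lit 273452), (nat_lit 216), [⟨(nat_lit 0), (nat_lit 14), (nb (nat_lit 0x5f4000000000000094b00000000000000000000000000002164) (nat_lit 3648) (nb (nat_lit 6866) (nat_lit 2496) (nb (nat_lit 0x488d00000000000014be000000000000019800000000000027f5) (nat_lit 1216) (nat_lit 0)))), (nb (nat_lit 2971) (nat_lit 3712) (nb (nat_lit 0x2b7d000000000000036b000000000000000000000000000034e7) (nat_lit 2432) (nat_lit 0x243b0000000000000a880000000000001562000000000000109a)))⟩, ⟨(nat_lit 2), (nat_lit 22), (nb (nat_lit 0x19a000000000000000000000000000002a0) (nat_lit 3648) (nb (nat_lit 10820) (nat_lit 2496) (nb (nat_lit 0x255e000000000000362d000000000000033600000000000026fc) (nat_lit 1216) (nat_lit 0)))), (nb (nat_lit 0x100c00000000000000000000000000001c1b) (nat_lit 3712) (nb (nat_lit 0x8b70000000000001a1f00000000000000000000000000000fa0) (nat_lit 2432) (nat_lit 0x1668000000000000147c00000000000011470000000000001c87)))⟩,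 ⟨(nat_lit 8), (nat_lit 24), (nb (nat_lit 0x160000000000000007b100000000000010800000000000001ec4) (nat_lit 3648) (nb (nat_lit 5812) (nat_lit 2560) (nb (nat_lit 0x232f0000000000000000000000000000000000000000000000f9) (nat_lit 1216) (nat_lit 0x9f400000000000000000000000000000bed)))), (nb (nat_lit 0x22c600000000000000000000000000000f720000000000002547) (nat_lit 2432) (nb (nat_lit 0x216f000000000000019e) (nat_lit 1280) (nb (nat_lit 0xdd30000000000000000000000000000041b) (nat_lit 64) (nat_lit 0))))⟩]⟩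
def e783 : En := ⟨(nat_lit 46), (nat_lit 69888), (nat_lit 273452), (nat_lit 216), [⟨(nat_lit 0), (nat_lit 26), (nb (nat_lit 0x160000000000000007b100000000000010800000000000001ec4) (nat_lit 3648) (nb (nat_lit 5812) (nat_lit 2560) (nb (nat_lit 0x232f0000000000000000000000000000000000000000000000f9) (nat_lit 1216) (nat_lit 0x9f400000000000000000000000000000bed)))), (nb (nat_lit 0x22c600000000000000000000000000000f720000000000002547) (nat_lit 2432) (nb (nat_lit 0x216f000000000000019e) (nat_lit 1280) (nb (nat_lit 0xdd30000000000000000000000000000041b) (nat_lit 64) (nat_lit 0))))⟩, ⟨(nat_lit 2), (nat_lit 16), (nb (nat_lit 0x5f4000000000000094b00000000000000000000000000002164) (nat_lit 3648) (nb (nat_lit 6866) (nat_lit 2496) (nb (nat_lit 0x488d00000000000014be000000000000019800000000000027f5) (nat_lit 1216) (nat_lit 0)))), (nb (nat_lit 2971) (nat_lit 3712) (nb (nat_lit 0x2b7d000000000000036b000000000000000000000000000034e7) (nat_lit 2432) (nat_lit 0x243b0000000000000a880000000000001562000000000000109a)))⟩,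 ⟨(nat_lit 4), (nat_lit 24), (nb (nat_lit 0x19a000000000000000000000000000002a0) (nat_lit 3648) (nb (nat_lit 10820) (nat_lit 2496) (nb (nat_lit 0x255e000000000000362d000000000000033600000000000026fc) (nat_lit 1216) (nat_lit 0)))), (nb (nat_lit 0x100c00000000000000000000000000001c1b) (nat_lit 3712) (nb (nat_lit 0x8b70000000000001a1f00000000000000000000000000000fa0) (nat_lit 2432) (nat_lit 0x1668000000000000147c00000000000011470000000000001c87)))⟩]⟩
def e784 : En := ⟨(nat_lit 48), (nat_lit 4368), (nat_lit 273452), (nat_lit 216), [⟨(nat_lit 2), (nat_lit 28), (nb (nat_lit 0x160000000000000007b100000000000010800000000000001ec4) (nat_lit 3648) (nb (nat_lit 5812) (nat_lit 2560) (nb (nat_lit 0x232f0000000000000000000000000000000000000000000000f9) (nat_lit 1216) (nat_lit 0x9f400000000000000000000000000000bed)))), (nb (nat_lit 0x22c600000000000000000000000000000f720000000000002547) (nat_lit 2432) (nb (nat_lit 0x216f000000000000019e) (nat_lit 1280) (nb (nat_lit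 0xdd30000000000000000000000000000041b) (nat_lit 64) (nat_lit 0))))⟩, ⟨(nat_lit 4), (nat_lit 18), (nb (nat_lit 0x5f4000000000000094b00000000000000000000000000002164) (nat_lit 3648) (nb (nat_lit 6866) (nat_lit 2496) (nb (nat_lit 0x488d00000000000014be000000000000019800000000000027f5) (nat_lit 1216) (nat_lit 0)))), (nb (nat_lit 2971) (nat_lit 3712) (nb (nat_lit 0x2b7d000000000000036b000000000000000000000000000034e7) (nat_lit 2432) (nat_lit 0x243b0000000000000a880000000000001562000000000000109a)))⟩, ⟨(nat_lit 6), (nat_lit 26), (nb (nat_lit 0x19a000000000000000000000000000002a0) (nat_lit 3648) (nb (nat_lit 10820) (nat_lit 2496) (nb (nat_lit 0x255e000000000000362d000000000000033600000000000026fc) (nat_lit 1216) (nat_lit 0)))), (nb (nat_lit 0x100c00000000000000000000000000001c1b) (nat_lit 3712) (nb (nat_lit 0x8b70000000000001a1f00000000000000000000000000000fa0) (nat_lit 2432) (nat_lit 0x1668000000000000147c00000000000011470000000000001c87)))⟩]⟩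
def e785 : En := ⟨(nat_lit 50), (nat_lit 4113), (nat_lit 158160), (nat_lit 216), [⟨(nat_lit 2), (nat_lit 20), (nb (nat_lit 0x160000000000000007b100000000000010800000000000001ec4) (nat_lit 3648) (nb (nat_lit 5812) (nat_lit 2560) (nb (nat_lit 0x232f0000000000000000000000000000000000000000000000f9) (nat_lit 1216) (nat_lit 0x9f400000000000000000000000000000bed)))), (nb (nat_lit 0x22c600000000000000000000000000000f720000000000002547) (nat_lit 2432) (nb (nat_lit 0x216f000000000000019e) (nat_lit 1280) (nb (nat_lit 0xdd30000000000000000000000000000041b) (nat_lit 64) (nat_lit 0))))⟩, ⟨(nat_lit 6), (nat_lit 14), (nb (nat_lit 0x12ff0000000000000000000000000000000000000000000017c5) (nat_lit 2432) (nb (nat_lit 0x73e000000000000015e) (nat_lit 1280) (nat_lit 0xcc1000000000000000000000000000004f50000000000000012))), (nb (nat_lit 0x6fd000000000000043f0000000000000286000000000000100a) (nat_lit 3648) (nb (nat_lit 0x67700000000000000ff) (nat_lit 2496) (nb (nat_lit 0x1a610000000000000000000000000000000000000000000009ca)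 (nat_lit 1216) (nb (nat_lit 298) (nat_lit 128) (nat_lit 0)))))⟩, ⟨(nat_lit 8), (nat_lit 18), (nb (nat_lit 0xfc7000000000000000000000000000010710000000000000d82) (nat_lit 2432) (nb (nat_lit 0x1a31000000000000004000000000000008d1) (nat_lit 1216) (nb (nat_lit 274) (nat_lit 192) (nat_lit 0)))), (nb (nat_lit 0xf0300000000000003720000000000000dfa0000000000000eba) (nat_lit 3648) (nb (nat_lit 4157) (nat_lit 2560) (nb (nat_lit 2254) (nat_lit 1408) (nat_lit 0x8ca00000000000000da0000000000000bff))))⟩]⟩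
def e786 : En := ⟨(nat_lit 52), (nat_lit 65793), (nat_lit 158160), (nat_lit 216), [⟨(nat_lit 0), (nat_lit 10), (nb (nat_lit 0xfc7000000000000000000000000000010710000000000000d82) (nat_lit 2432) (nb (nat_lit 0x1a31000000000000004000000000000008d1) (nat_lit 1216) (nb (nat_lit 274) (nat_lit 192) (nat_lit 0)))), (nb (nat_lit 0xf0300000000000003720000000000000dfa0000000000000eba) (nat_lit 3648) (nb (nat_lit 4157) (nat_lit 2560) (nb (nat_lit 2254) (nat_lit 1408) (nat_lit 0x8ca00000000000000da0000000000000bff))))⟩, ⟨(nat_lit 4), (nat_lit 22), (nb (nat_lit 0x160000000000000007b100000000000010800000000000001ec4) (nat_lit 3648) (nb (nat_lit 5812) (nat_lit 2560) (nb (nat_lit 0x232f0000000000000000000000000000000000000000000000f9) (nat_lit 1216) (nat_lit 0x9f400000000000000000000000000000bed)))), (nb (nat_lit 0x22c600000000000000000000000000000f720000000000002547) (nat_lit 2432) (nb (nat_lit 0x216f000000000000019e) (nat_lit 1280) (nb (nat_lit 0xdd30000000000000000000000000000041b)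 (nat_lit 64) (nat_lit 0))))⟩, ⟨(nat_lit 8), (nat_lit 16), (nb (nat_lit 0x12ff0000000000000000000000000000000000000000000017c5) (nat_lit 2432) (nb (nat_lit 0x73e000000000000015e) (nat_lit 1280) (nat_lit 0xcc1000000000000000000000000000004f50000000000000012))), (nb (nat_lit 0x6fd000000000000043f0000000000000286000000000000100a) (nat_lit 3648) (nb (nat_lit 0x67700000000000000ff) (nat_lit 2496) (nb (nat_lit 0x1a610000000000000000000000000000000000000000000009ca) (nat_lit 1216) (nb (nat_lit 298) (nat_lit 128) (nat_lit 0)))))⟩]⟩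
def e787 : En := ⟨(nat_lit 54), (nat_lit 69648), (nat_lit 158160), (nat_lit 216), [⟨(nat_lit 0), (nat_lit 18), (nb (nat_lit 0x12ff0000000000000000000000000000000000000000000017c5) (nat_lit 2432) (nb (nat_lit 0x73e000000000000015e) (nat_lit 1280) (nat_lit 0xcc1000000000000000000000000000004f50000000000000012))), (nb (nat_lit 0x6fd000000000000043f0000000000000286000000000000100a) (nat_lit 3648) (nb (nat_lit 0x67700000000000000ff) (nat_lit 2496) (nb (nat_lit 0x1a610000000000000000000000000000000000000000000009ca) (nat_lit 1216) (nb (nat_lit 298) (nat_lit 128) (nat_lit 0)))))⟩, ⟨(nat_lit 2), (nat_lit 12), (nb (nat_lit 0xfc7000000000000000000000000000010710000000000000d82) (nat_lit 2432) (nb (nat_lit 0x1a31000000000000004000000000000008d1) (nat_lit 1216) (nb (nat_lit 274) (nat_lit 192) (nat_lit 0)))), (nb (nat_lit 0xf0300000000000003720000000000000dfa0000000000000eba) (nat_lit 3648) (nb (nat_lit 4157) (nat_lit 2560) (nb (nat_lit 2254) (nat_lit 1408) (nat_lit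 0x8ca00000000000000da0000000000000bff))))⟩, ⟨(nat_lit 6), (nat_lit 24), (nb (nat_lit 0x160000000000000007b100000000000010800000000000001ec4) (nat_lit 3648) (nb (nat_lit 5812) (nat_lit 2560) (nb (nat_lit 0x232f0000000000000000000000000000000000000000000000f9) (nat_lit 1216) (nat_lit 0x9f400000000000000000000000000000bed)))), (nb (nat_lit 0x22c600000000000000000000000000000f720000000000002547) (nat_lit 2432) (nb (nat_lit 0x216f000000000000019e) (nat_lit 1280) (nb (nat_lit 0xdd30000000000000000000000000000041b) (nat_lit 64) (nat_lit 0))))⟩]⟩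
def e788 : En := ⟨(nat_lit 56), (nat_lit 4353), (nat_lit 158160), (nat_lit 216), [⟨(nat_lit 2), (nat_lit 10), (nb (nat_lit 0x12ff0000000000000000000000000000000000000000000017c5) (nat_lit 2432) (nb (nat_lit 0x73e000000000000015e) (nat_lit 1280) (nat_lit 0xcc1000000000000000000000000000004f50000000000000012))), (nb (nat_lit 0x6fd000000000000043f0000000000000286000000000000100a) (nat_lit 3648) (nb (nat_lit 0x67700000000000000ff) (nat_lit 2496) (nb (nat_lit 0x1a610000000000000000000000000000000000000000000009ca) (nat_lit 1216) (nb (nat_lit 298) (nat_lit 128) (nat_lit 0)))))⟩, ⟨(nat_lit 4), (nat_lit 14), (nb (nat_lit 0xfc7000000000000000000000000000010710000000000000d82) (nat_lit 2432) (nb (nat_lit 0x1a31000000000000004000000000000008d1) (nat_lit 1216) (nb (nat_lit 274) (nat_lit 192) (nat_lit 0)))), (nb (nat_lit 0xf0300000000000003720000000000000dfa0000000000000eba) (nat_lit 3648) (nb (nat_lit 4157) (nat_lit 2560) (nb (nat_lit 2254) (nat_lit 1408) (nat_lit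 0x8ca00000000000000da0000000000000bff))))⟩, ⟨(nat_lit 8), (nat_lit 26), (nb (nat_lit 0x160000000000000007b100000000000010800000000000001ec4) (nat_lit 3648) (nb (nat_lit 5812) (nat_lit 2560) (nb (nat_lit 0x232f0000000000000000000000000000000000000000000000f9) (nat_lit 1216) (nat_lit 0x9f400000000000000000000000000000bed)))), (nb (nat_lit 0x22c600000000000000000000000000000f720000000000002547) (nat_lit 2432) (nb (nat_lit 0x216f000000000000019e) (nat_lit 1280) (nb (nat_lit 0xdd30000000000000000000000000000041b) (nat_lit 64) (nat_lit 0))))⟩]⟩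
def e789 : En := ⟨(nat_lit 58), (nat_lit 65808), (nat_lit 158160), (nat_lit 216), [⟨(nat_lit 0), (nat_lit 28), (nb (nat_lit 0x160000000000000007b100000000000010800000000000001ec4) (nat_lit 3648) (nb (nat_lit 5812) (nat_lit 2560) (nb (nat_lit 0x232f0000000000000000000000000000000000000000000000f9) (nat_lit 1216) (nat_lit 0x9f400000000000000000000000000000bed)))), (nb (nat_lit 0x22c600000000000000000000000000000f720000000000002547) (nat_lit 2432) (nb (nat_lit 0x216f000000000000019e) (nat_lit 1280) (nb (nat_lit 0xdd30000000000000000000000000000041b) (nat_lit 64) (nat_lit 0))))⟩, ⟨(nat_lit 4), (nat_lit 12), (nb (nat_lit 0x12ff0000000000000000000000000000000000000000000017c5) (nat_lit 2432) (nb (nat_lit 0x73e000000000000015e) (nat_lit 1280) (nat_lit 0xcc1000000000000000000000000000004f50000000000000012))), (nb (nat_lit 0x6fd000000000000043f0000000000000286000000000000100a) (nat_lit 3648) (nb (nat_lit 0x67700000000000000ff) (nat_lit 2496) (nb (nat_lit 0x1a610000000000000000000000000000000000000000000009ca)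 (nat_lit 1216) (nb (nat_lit 298) (nat_lit 128) (nat_lit 0)))))⟩, ⟨(nat_lit 6), (nat_lit 16), (nb (nat_lit 0xfc7000000000000000000000000000010710000000000000d82) (nat_lit 2432) (nb (nat_lit 0x1a31000000000000004000000000000008d1) (nat_lit 1216) (nb (nat_lit 274) (nat_lit 192) (nat_lit 0)))), (nb (nat_lit 0xf0300000000000003720000000000000dfa0000000000000eba) (nat_lit 3648) (nb (nat_lit 4157) (nat_lit 2560) (nb (nat_lit 2254) (nat_lit 1408) (nat_lit 0x8ca00000000000000da0000000000000bff))))⟩]⟩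
def e790 : En := ⟨(nat_lit 10), (nat_lit 257), (nat_lit 76332), (nat_lit 216), [⟨(nat_lit 4), (nat_lit 8), (nb (nat_lit 0x160000000000000007b100000000000010800000000000001ec4) (nat_lit 3648) (nb (nat_lit 5812) (nat_lit 2560) (nb (nat_lit 0x232f0000000000000000000000000000000000000000000000f9) (nat_lit 1216) (nat_lit 0x9f400000000000000000000000000000bed)))), (nb (nat_lit 0x22c600000000000000000000000000000f720000000000002547) (nat_lit 2432) (nb (nat_lit 0x216f000000000000019e) (nat_lit 1280) (nb (nat_lit 0xdd30000000000000000000000000000041b) (nat_lit 64) (nat_lit 0))))⟩]⟩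
def e791 : En := ⟨(nat_lit 12), (nat_lit 65552), (nat_lit 76332), (nat_lit 216), [⟨(nat_lit 0), (nat_lit 6), (nb (nat_lit 0x22c600000000000000000000000000000f720000000000002547) (nat_lit 2432) (nb (nat_lit 0x216f000000000000019e) (nat_lit 1280) (nb (nat_lit 0xdd30000000000000000000000000000041b) (nat_lit 64) (nat_lit 0)))), (nb (nat_lit 0x160000000000000007b100000000000010800000000000001ec4) (nat_lit 3648) (nb (nat_lit 5812) (nat_lit 2560) (nb (nat_lit 0x232f0000000000000000000000000000000000000000000000f9) (nat_lit 1216) (nat_lit 0x9f400000000000000000000000000000bed))))⟩]⟩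
def e792 : En := ⟨(nat_lit 14), (nat_lit 4097), (nat_lit 76332), (nat_lit 216), [⟨(nat_lit 2), (nat_lit 8), (nb (nat_lit 0x22c600000000000000000000000000000f720000000000002547) (nat_lit 2432) (nb (nat_lit 0x216f000000000000019e) (nat_lit 1280) (nb (nat_lit 0xdd30000000000000000000000000000041b) (nat_lit 64) (nat_lit 0)))), (nb (nat_lit 0x160000000000000007b100000000000010800000000000001ec4) (nat_lit 3648) (nb (nat_lit 5812) (nat_lit 2560) (nb (nat_lit 0x232f0000000000000000000000000000000000000000000000f9) (nat_lit 1216) (nat_lit 0x9f400000000000000000000000000000bed))))⟩]⟩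
def e793 : En := ⟨(nat_lit 16), (nat_lit 65792), (nat_lit 76332), (nat_lit 216), [⟨(nat_lit 0), (nat_lit 4), (nb (nat_lit 0x160000000000000007b100000000000010800000000000001ec4) (nat_lit 3648) (nb (nat_lit 5812) (nat_lit 2560) (nb (nat_lit 0x232f0000000000000000000000000000000000000000000000f9) (nat_lit 1216) (nat_lit 0x9f400000000000000000000000000000bed)))), (nb (nat_lit 0x22c600000000000000000000000000000f720000000000002547) (nat_lit 2432) (nb (nat_lit 0x216f000000000000019e) (nat_lit 1280) (nb (nat_lit 0xdd30000000000000000000000000000041b) (nat_lit 64) (nat_lit 0))))⟩]⟩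
def e794 : En := ⟨(nat_lit 18), (nat_lit 4112), (nat_lit 76332), (nat_lit 216), [⟨(nat_lit 2), (nat_lit 6), (nb (nat_lit 0x160000000000000007b100000000000010800000000000001ec4) (nat_lit 3648) (nb (nat_lit 5812) (nat_lit 2560) (nb (nat_lit 0x232f0000000000000000000000000000000000000000000000f9) (nat_lit 1216) (nat_lit 0x9f400000000000000000000000000000bed)))), (nb (nat_lit 0x22c600000000000000000000000000000f720000000000002547) (nat_lit 2432) (nb (nat_lit 0x216f000000000000019e) (nat_lit 1280) (nb (nat_lit 0xdd30000000000000000000000000000041b) (nat_lit 64) (nat_lit 0))))⟩]⟩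
def e795 : En := ⟨(nat_lit 20), (nat_lit 17), (nat_lit 76332), (nat_lit 216), [⟨(nat_lit 6), (nat_lit 8), (nb (nat_lit 0x160000000000000007b100000000000010800000000000001ec4) (nat_lit 3648) (nb (nat_lit 5812) (nat_lit 2560) (nb (nat_lit 0x232f0000000000000000000000000000000000000000000000f9) (nat_lit 1216) (nat_lit 0x9f400000000000000000000000000000bed)))), (nb (nat_lit 0x22c600000000000000000000000000000f720000000000002547) (nat_lit 2432) (nb (nat_lit 0x216f000000000000019e) (nat_lit 1280) (nb (nat_lit 0xdd30000000000000000000000000000041b) (nat_lit 64) (nat_lit 0))))⟩]⟩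
def e796 : En := ⟨(nat_lit 22), (nat_lit 65537), (nat_lit 76332), (nat_lit 216), [⟨(nat_lit 0), (nat_lit 8), (nb (nat_lit 0x22c600000000000000000000000000000f720000000000002547) (nat_lit 2432) (nb (nat_lit 0x216f000000000000019e) (nat_lit 1280) (nb (nat_lit 0xdd30000000000000000000000000000041b) (nat_lit 64) (nat_lit 0)))), (nb (nat_lit 0x160000000000000007b100000000000010800000000000001ec4) (nat_lit 3648) (nb (nat_lit 5812) (nat_lit 2560) (nb (nat_lit 0x232f0000000000000000000000000000000000000000000000f9) (nat_lit 1216) (nat_lit 0x9f400000000000000000000000000000bed))))⟩]⟩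
def e797 : En := ⟨(nat_lit 24), (nat_lit 69632), (nat_lit 76332), (nat_lit 216), [⟨(nat_lit 0), (nat_lit 2), (nb (nat_lit 0x160000000000000007b100000000000010800000000000001ec4) (nat_lit 3648) (nb (nat_lit 5812) (nat_lit 2560) (nb (nat_lit 0x232f0000000000000000000000000000000000000000000000f9) (nat_lit 1216) (nat_lit 0x9f400000000000000000000000000000bed)))), (nb (nat_lit 0x22c600000000000000000000000000000f720000000000002547) (nat_lit 2432) (nb (nat_lit 0x216f000000000000019e) (nat_lit 1280) (nb (nat_lit 0xdd30000000000000000000000000000041b) (nat_lit 64) (nat_lit 0))))⟩]⟩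
def e798 : En := ⟨(nat_lit 26), (nat_lit 4352), (nat_lit 76332), (nat_lit 216), [⟨(nat_lit 2), (nat_lit 4), (nb (nat_lit 0x160000000000000007b100000000000010800000000000001ec4) (nat_lit 3648) (nb (nat_lit 5812) (nat_lit 2560) (nb (nat_lit 0x232f0000000000000000000000000000000000000000000000f9) (nat_lit 1216) (nat_lit 0x9f400000000000000000000000000000bed)))), (nb (nat_lit 0x22c600000000000000000000000000000f720000000000002547) (nat_lit 2432) (nb (nat_lit 0x216f000000000000019e) (nat_lit 1280) (nb (nat_lit 0xdd30000000000000000000000000000041b) (nat_lit 64) (nat_lit 0))))⟩]⟩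
def e799 : En := ⟨(nat_lit 28), (nat_lit 272), (nat_lit 76332), (nat_lit 216), [⟨(nat_lit 4), (nat_lit 6), (nb (nat_lit 0x160000000000000007b100000000000010800000000000001ec4) (nat_lit 3648) (nb (nat_lit 5812) (nat_lit 2560) (nb (nat_lit 0x232f0000000000000000000000000000000000000000000000f9) (nat_lit 1216) (nat_lit 0x9f400000000000000000000000000000bed)))), (nb (nat_lit 0x22c600000000000000000000000000000f720000000000002547) (nat_lit 2432) (nb (nat_lit 0x216f000000000000019e) (nat_lit 1280) (nb (nat_lit 0xdd30000000000000000000000000000041b) (nat_lit 64) (nat_lit 0))))⟩]⟩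
def e800 : En := ⟨(nat_lit 71), (nat_lit 69905), (nat_lit 0x255d32), (nat_lit 216), [⟨(nat_lit 0), (nat_lit 60), (nb (nat_lit 0x160000000000000007b100000000000010800000000000001ec4) (nat_lit 3648) (nb (nat_lit 5812) (nat_lit 2560) (nb (nat_lit 0x232f0000000000000000000000000000000000000000000000f9) (nat_lit 1216) (nat_lit 0x9f400000000000000000000000000000bed)))), (nb (nat_lit 0x22c600000000000000000000000000000f720000000000002547) (nat_lit 2432) (nb (nat_lit 0x216f000000000000019e) (nat_lit 1280) (nb (nat_lit 0xdd30000000000000000000000000000041b) (nat_lit 64) (nat_lit 0))))⟩, ⟨(nat_lit 2), (nat_lit 62), (nb (nat_lit 0x160000000000000007b100000000000010800000000000001ec4) (nat_lit 3648) (nb (nat_lit 5812) (nat_lit 2560) (nb (nat_lit 0x232f0000000000000000000000000000000000000000000000f9) (nat_lit 1216) (nat_lit 0x9f400000000000000000000000000000bed)))), (nb (nat_lit 0x22c600000000000000000000000000000f720000000000002547) (nat_lit 2432) (nb (nat_lit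 0x216f000000000000019e) (nat_lit 1280) (nb (nat_lit 0xdd30000000000000000000000000000041b) (nat_lit 64) (nat_lit 0))))⟩, ⟨(nat_lit 4), (nat_lit 64), (nb (nat_lit 0x160000000000000007b100000000000010800000000000001ec4) (nat_lit 3648) (nb (nat_lit 5812) (nat_lit 2560) (nb (nat_lit 0x232f0000000000000000000000000000000000000000000000f9) (nat_lit 1216) (nat_lit 0x9f400000000000000000000000000000bed)))), (nb (nat_lit 0x22c600000000000000000000000000000f720000000000002547) (nat_lit 2432) (nb (nat_lit 0x216f000000000000019e) (nat_lit 1280) (nb (nat_lit 0xdd30000000000000000000000000000041b) (nat_lit 64) (nat_lit 0))))⟩, ⟨(nat_lit 6), (nat_lit 66), (nb (nat_lit 0x160000000000000007b100000000000010800000000000001ec4) (nat_lit 3648) (nb (nat_lit 5812) (nat_lit 2560) (nb (nat_lit 0x232f0000000000000000000000000000000000000000000000f9) (nat_lit 1216) (nat_lit 0x9f400000000000000000000000000000bed)))), (nb (nat_lit 0x22c600000000000000000000000000000f720000000000002547)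 (nat_lit 2432) (nb (nat_lit 0x216f000000000000019e) (nat_lit 1280) (nb (nat_lit 0xdd30000000000000000000000000000041b) (nat_lit 64) (nat_lit 0))))⟩, ⟨(nat_lit 8), (nat_lit 68), (nb (nat_lit 0x160000000000000007b100000000000010800000000000001ec4) (nat_lit 3648) (nb (nat_lit 5812) (nat_lit 2560) (nb (nat_lit 0x232f0000000000000000000000000000000000000000000000f9) (nat_lit 1216) (nat_lit 0x9f400000000000000000000000000000bed)))), (nb (nat_lit 0x22c600000000000000000000000000000f720000000000002547) (nat_lit 2432) (nb (nat_lit 0x216f000000000000019e) (nat_lit 1280) (nb (nat_lit 0xdd30000000000000000000000000000041b) (nat_lit 64) (nat_lit 0))))⟩, ⟨(nat_lit 10), (nat_lit 54), (nb (nat_lit 6206) (nat_lit 3712) (nb (nat_lit 0xa21b00000000000010940000000000000000000000000000ae8d) (nat_lit 2432) (nat_lit 0x665c0000000000000b3800000000000045ae0000000000001dc0))), (nb (nat_lit 0x29ba00000000000025470000000000000000000000000000738d) (nat_lit 3648) (nb (nat_lit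 11498) (nat_lit 2496) (nb (nat_lit 0xe4070000000000002a3100000000000021d5000000000000744d) (nat_lit 1216) (nat_lit 0))))⟩, ⟨(nat_lit 12), (nat_lit 56), (nb (nat_lit 6206) (nat_lit 3712) (nb (nat_lit 0xa21b00000000000010940000000000000000000000000000ae8d) (nat_lit 2432) (nat_lit 0x665c0000000000000b3800000000000045ae0000000000001dc0))), (nb (nat_lit 0x29ba00000000000025470000000000000000000000000000738d) (nat_lit 3648) (nb (nat_lit 11498) (nat_lit 2496) (nb (nat_lit 0xe4070000000000002a3100000000000021d5000000000000744d) (nat_lit 1216) (nat_lit 0))))⟩, ⟨(nat_lit 14), (nat_lit 58), (nb (nat_lit 6206) (nat_lit 3712) (nb (nat_lit 0xa21b00000000000010940000000000000000000000000000ae8d) (nat_lit 2432) (nat_lit 0x665c0000000000000b3800000000000045ae0000000000001dc0))), (nb (nat_lit 0x29ba00000000000025470000000000000000000000000000738d) (nat_lit 3648) (nb (nat_lit 11498) (nat_lit 2496) (nb (nat_lit 0xe4070000000000002a3100000000000021d5000000000000744d)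 (nat_lit 1216) (nat_lit 0))))⟩, ⟨(nat_lit 16), (nat_lit 50), (nb (nat_lit 6206) (nat_lit 3712) (nb (nat_lit 0xa21b00000000000010940000000000000000000000000000ae8d) (nat_lit 2432) (nat_lit 0x665c0000000000000b3800000000000045ae0000000000001dc0))), (nb (nat_lit 0x29ba00000000000025470000000000000000000000000000738d) (nat_lit 3648) (nb (nat_lit 11498) (nat_lit 2496) (nb (nat_lit 0xe4070000000000002a3100000000000021d5000000000000744d) (nat_lit 1216) (nat_lit 0))))⟩, ⟨(nat_lit 18), (nat_lit 52), (nb (nat_lit 6206) (nat_lit 3712) (nb (nat_lit 0xa21b00000000000010940000000000000000000000000000ae8d) (nat_lit 2432) (nat_lit 0x665c0000000000000b3800000000000045ae0000000000001dc0))), (nb (nat_lit 0x29ba00000000000025470000000000000000000000000000738d) (nat_lit 3648) (nb (nat_lit 11498) (nat_lit 2496) (nb (nat_lit 0xe4070000000000002a3100000000000021d5000000000000744d) (nat_lit 1216) (nat_lit 0))))⟩, ⟨(nat_lit 20), (nat_lit 46), (nb (nat_lit 0x2aa80000000000000000000000000000186e0000000000002357)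 (nat_lit 2432) (nb (nat_lit 0x2b41000000000000000000000000000009f3) (nat_lit 1216) (nb (nat_lit 0x73200000000000000000000000000000345) (nat_lit 64) (nat_lit 0)))), (nb (nat_lit 0x1efc00000000000006db000000000000164b0000000000002375) (nat_lit 3648) (nb (nat_lit 7509) (nat_lit 2560) (nb (nat_lit 0x213f00000000000000000000000000000313) (nat_lit 1280) (nat_lit 0xf7b000000000000000000000000000015bf))))⟩, ⟨(nat_lit 22), (nat_lit 48), (nb (nat_lit 0x2aa80000000000000000000000000000186e0000000000002357) (nat_lit 2432) (nb (nat_lit 0x2b41000000000000000000000000000009f3) (nat_lit 1216) (nb (nat_lit 0x73200000000000000000000000000000345) (nat_lit 64) (nat_lit 0)))), (nb (nat_lit 0x1efc00000000000006db000000000000164b0000000000002375) (nat_lit 3648) (nb (nat_lit 7509) (nat_lit 2560) (nb (nat_lit 0x213f00000000000000000000000000000313) (nat_lit 1280) (nat_lit 0xf7b000000000000000000000000000015bf))))⟩, ⟨(nat_lit 24), (nat_lit 40), (nb (nat_lit 0x2aa80000000000000000000000000000186e0000000000002357)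 (nat_lit 2432) (nb (nat_lit 0x2b41000000000000000000000000000009f3) (nat_lit 1216) (nb (nat_lit 0x73200000000000000000000000000000345) (nat_lit 64) (nat_lit 0)))), (nb (nat_lit 0x1efc00000000000006db000000000000164b0000000000002375) (nat_lit 3648) (nb (nat_lit 7509) (nat_lit 2560) (nb (nat_lit 0x213f00000000000000000000000000000313) (nat_lit 1280) (nat_lit 0xf7b000000000000000000000000000015bf))))⟩, ⟨(nat_lit 26), (nat_lit 42), (nb (nat_lit 0x2aa80000000000000000000000000000186e0000000000002357) (nat_lit 2432) (nb (nat_lit 0x2b41000000000000000000000000000009f3) (nat_lit 1216) (nb (nat_lit 0x73200000000000000000000000000000345) (nat_lit 64) (nat_lit 0)))), (nb (nat_lit 0x1efc00000000000006db000000000000164b0000000000002375) (nat_lit 3648) (nb (nat_lit 7509) (nat_lit 2560) (nb (nat_lit 0x213f00000000000000000000000000000313) (nat_lit 1280) (nat_lit 0xf7b000000000000000000000000000015bf))))⟩, ⟨(nat_lit 28), (nat_lit 44), (nb (nat_lit 0x2aa80000000000000000000000000000186e0000000000002357)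 (nat_lit 2432) (nb (nat_lit 0x2b41000000000000000000000000000009f3) (nat_lit 1216) (nb (nat_lit 0x73200000000000000000000000000000345) (nat_lit 64) (nat_lit 0)))), (nb (nat_lit 0x1efc00000000000006db000000000000164b0000000000002375) (nat_lit 3648) (nb (nat_lit 7509) (nat_lit 2560) (nb (nat_lit 0x213f00000000000000000000000000000313) (nat_lit 1280) (nat_lit 0xf7b000000000000000000000000000015bf))))⟩]⟩
def e801 : En := ⟨(nat_lit 60), (nat_lit 4369), (nat_lit 1066), (nat_lit 3375), [⟨(nat_lit 2), (nat_lit 40), (nb (nat_lit 6) (nat_lit 43776) (nb (nat_lit 6) (nat_lit 40128) (nb (nat_lit 14) (nat_lit 30400) (nb (nat_lit 22) (nat_lit 27968) (nb (nat_lit 4) (nat_lit 17024) (nb (nat_lit 18) (nat_lit 14592) (nb (nat_lit 3) (nat_lit 1216) (nat_lit 0)))))))), (nb (nat_lit 7) (nat_lit 42560) (nb (nat_lit 7) (nat_lit 41344) (nb (nat_lit 38) (nat_lit 29184) (nb (nat_lit 1) (nat_lit 26752) (nb (nat_lit 19) (nat_lit 15808) (nb (nat_lit 4) (nat_lit 13376) (nb (nat_lit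 2) (nat_lit 2432) (nat_lit 1))))))))⟩, ⟨(nat_lit 4), (nat_lit 50), (nb (nat_lit 5) (nat_lit 29184) (nb (nat_lit 12) (nat_lit 15808) (nb (nat_lit 2) (nat_lit 13376) (nb (nat_lit 4) (nat_lit 2432) (nat_lit 3))))), (nb (nat_lit 5) (nat_lit 26752) (nb (nat_lit 16) (nat_lit 14592) (nb (nat_lit 8) (nat_lit 1216) (nat_lit 0))))⟩, ⟨(nat_lit 6), (nat_lit 56), (nb (nat_lit 5) (nat_lit 30400) (nb (nat_lit 12) (nat_lit 17024) (nb (nat_lit 2) (nat_lit 14592) (nb (nat_lit 4) (nat_lit 3648) (nb (nat_lit 3) (nat_lit 1216) (nat_lit 0)))))), (nb (nat_lit 5) (nat_lit 27968) (nb (nat_lit 16) (nat_lit 15808) (nb (nat_lit 8) (nat_lit 2432) (nat_lit 0))))⟩, ⟨(nat_lit 8), (nat_lit 48), (nb (nat_lit 4) (nat_lit 43776) (nb (nat_lit 9) (nat_lit 40128) (nb (nat_lit 10) (nat_lit 30400) (nb (nat_lit 30) (nat_lit 27968) (nb (nat_lit 4) (nat_lit 17024) (nb (nat_lit 28) (nat_lit 14592) (nb (nat_lit 5) (nat_lit 1216) (nat_lit 0)))))))), (nb (nat_lit 8) (nat_lit 42560) (nb (nat_lit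 3) (nat_lit 41344) (nb (nat_lit 35) (nat_lit 29184) (nb (nat_lit 21) (nat_lit 15808) (nb (nat_lit 7) (nat_lit 13376) (nb (nat_lit 2) (nat_lit 2432) (nat_lit 2)))))))⟩, ⟨(nat_lit 10), (nat_lit 18), (nb (nat_lit 10) (nat_lit 42560) (nb (nat_lit 10) (nat_lit 41344) (nb (nat_lit 61) (nat_lit 29184) (nb (nat_lit 52) (nat_lit 15808) (nb (nat_lit 8) (nat_lit 13376) (nb (nat_lit 12) (nat_lit 2432) (nat_lit 3))))))), (nb (nat_lit 10) (nat_lit 43776) (nb (nat_lit 10) (nat_lit 40128) (nb (nat_lit 29) (nat_lit 30400) (nb (nat_lit 31) (nat_lit 27968) (nb (nat_lit 1) (nat_lit 26752) (nb (nat_lit 20) (nat_lit 17024) (nb (nat_lit 40) (nat_lit 14592) (nb (nat_lit 4) (nat_lit 3648) (nb (nat_lit 11) (nat_lit 1216) (nat_lit 0))))))))))⟩, ⟨(nat_lit 14), (nat_lit 28), (nb (nat_lit 5) (nat_lit 41344) (nb (nat_lit 5) (nat_lit 40128) (nb (nat_lit 4) (nat_lit 29184) (nb (nat_lit 19) (nat_lit 27968) (nb (nat_lit 20) (nat_lit 15808) (nb (nat_lit 3) (nat_lit 14592) (nb (nat_lit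 8) (nat_lit 2432) (nat_lit 0)))))))), (nb (nat_lit 5) (nat_lit 43776) (nb (nat_lit 5) (nat_lit 42560) (nb (nat_lit 17) (nat_lit 30400) (nb (nat_lit 2) (nat_lit 26752) (nb (nat_lit 16) (nat_lit 17024) (nb (nat_lit 3) (nat_lit 13376) (nb (nat_lit 4) (nat_lit 3648) (nb (nat_lit 3) (nat_lit 1216) (nat_lit 0)))))))))⟩, ⟨(nat_lit 20), (nat_lit 26), (nb (nat_lit 7) (nat_lit 42560) (nb (nat_lit 7) (nat_lit 41344) (nb (nat_lit 43) (nat_lit 29184) (nb (nat_lit 31) (nat_lit 15808) (nb (nat_lit 6) (nat_lit 13376) (nb (nat_lit 6) (nat_lit 2432) (nat_lit 4))))))), (nb (nat_lit 6) (nat_lit 43776) (nb (nat_lit 6) (nat_lit 40128) (nb (nat_lit 14) (nat_lit 30400) (nb (nat_lit 22) (nat_lit 27968) (nb (nat_lit 4) (nat_lit 26752) (nb (nat_lit 4) (nat_lit 17024) (nb (nat_lit 34) (nat_lit 14592) (nb (nat_lit 11) (nat_lit 1216) (nat_lit 0)))))))))⟩]⟩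
def e802 : En := ⟨(nat_lit 62), (nat_lit 65809), (nat_lit 1066), (nat_lit 3375), [⟨(nat_lit 0), (nat_lit 40), (nb (nat_lit 4) (nat_lit 43776) (nb (nat_lit 9) (nat_lit 40128) (nb (nat_lit 10) (nat_lit 30400) (nb (nat_lit 30) (nat_lit 27968) (nb (nat_lit 4) (nat_lit 17024) (nb (nat_lit 28) (nat_lit 14592) (nb (nat_lit 5) (nat_lit 1216) (nat_lit 0)))))))), (nb (nat_lit 8) (nat_lit 42560) (nb (nat_lit 3) (nat_lit 41344) (nb (nat_lit 35) (nat_lit 29184) (nb (nat_lit 21) (nat_lit 15808) (nb (nat_lit 7) (nat_lit 13376) (nb (nat_lit 2) (nat_lit 2432) (nat_lit 2)))))))⟩, ⟨(nat_lit 4), (nat_lit 42), (nb (nat_lit 6) (nat_lit 43776) (nb (nat_lit 6) (nat_lit 40128) (nb (nat_lit 14) (nat_lit 30400) (nb (nat_lit 22) (nat_lit 27968) (nb (nat_lit 4) (nat_lit 17024) (nb (nat_lit 18) (nat_lit 14592) (nb (nat_lit 3) (nat_lit 1216) (nat_lit 0)))))))), (nb (nat_lit 7) (nat_lit 42560) (nb (nat_lit 7) (nat_lit 41344) (nb (nat_lit 38) (nat_lit 29184) (nb (nat_lit 1) (nat_lit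 26752) (nb (nat_lit 19) (nat_lit 15808) (nb (nat_lit 4) (nat_lit 13376) (nb (nat_lit 2) (nat_lit 2432) (nat_lit 1))))))))⟩, ⟨(nat_lit 6), (nat_lit 52), (nb (nat_lit 5) (nat_lit 29184) (nb (nat_lit 12) (nat_lit 15808) (nb (nat_lit 2) (nat_lit 13376) (nb (nat_lit 4) (nat_lit 2432) (nat_lit 3))))), (nb (nat_lit 5) (nat_lit 26752) (nb (nat_lit 16) (nat_lit 14592) (nb (nat_lit 8) (nat_lit 1216) (nat_lit 0))))⟩, ⟨(nat_lit 8), (nat_lit 58), (nb (nat_lit 5) (nat_lit 30400) (nb (nat_lit 12) (nat_lit 17024) (nb (nat_lit 2) (nat_lit 14592) (nb (nat_lit 4) (nat_lit 3648) (nb (nat_lit 3) (nat_lit 1216) (nat_lit 0)))))), (nb (nat_lit 5) (nat_lit 27968) (nb (nat_lit 16) (nat_lit 15808) (nb (nat_lit 8) (nat_lit 2432) (nat_lit 0))))⟩, ⟨(nat_lit 10), (nat_lit 12), (nb (nat_lit 10) (nat_lit 43776) (nb (nat_lit 10) (nat_lit 40128) (nb (nat_lit 29) (nat_lit 30400) (nb (nat_lit 31) (nat_lit 27968) (nb (nat_lit 1) (nat_lit 26752) (nb (nat_lit 20) (nat_lit 17024) (nb (nat_lit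 40) (nat_lit 14592) (nb (nat_lit 4) (nat_lit 3648) (nb (nat_lit 11) (nat_lit 1216) (nat_lit 0)))))))))), (nb (nat_lit 10) (nat_lit 42560) (nb (nat_lit 10) (nat_lit 41344) (nb (nat_lit 61) (nat_lit 29184) (nb (nat_lit 52) (nat_lit 15808) (nb (nat_lit 8) (nat_lit 13376) (nb (nat_lit 12) (nat_lit 2432) (nat_lit 3)))))))⟩, ⟨(nat_lit 16), (nat_lit 20), (nb (nat_lit 5) (nat_lit 41344) (nb (nat_lit 5) (nat_lit 40128) (nb (nat_lit 4) (nat_lit 29184) (nb (nat_lit 19) (nat_lit 27968) (nb (nat_lit 20) (nat_lit 15808) (nb (nat_lit 3) (nat_lit 14592) (nb (nat_lit 8) (nat_lit 2432) (nat_lit 0)))))))), (nb (nat_lit 5) (nat_lit 43776) (nb (nat_lit 5) (nat_lit 42560) (nb (nat_lit 17) (nat_lit 30400) (nb (nat_lit 2) (nat_lit 26752) (nb (nat_lit 16) (nat_lit 17024) (nb (nat_lit 3) (nat_lit 13376) (nb (nat_lit 4) (nat_lit 3648) (nb (nat_lit 3) (nat_lit 1216) (nat_lit 0)))))))))⟩, ⟨(nat_lit 22), (nat_lit 28), (nb (nat_lit 7) (nat_lit 42560) (nb (nat_lit 7) (nat_lit 41344)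 (nb (nat_lit 43) (nat_lit 29184) (nb (nat_lit 31) (nat_lit 15808) (nb (nat_lit 6) (nat_lit 13376) (nb (nat_lit 6) (nat_lit 2432) (nat_lit 4))))))), (nb (nat_lit 6) (nat_lit 43776) (nb (nat_lit 6) (nat_lit 40128) (nb (nat_lit 14) (nat_lit 30400) (nb (nat_lit 22) (nat_lit 27968) (nb (nat_lit 4) (nat_lit 26752) (nb (nat_lit 4) (nat_lit 17024) (nb (nat_lit 34) (nat_lit 14592) (nb (nat_lit 11) (nat_lit 1216) (nat_lit 0)))))))))⟩]⟩
def e803 : En := ⟨(nat_lit 64), (nat_lit 69649), (nat_lit 1066), (nat_lit 3375), [⟨(nat_lit 0), (nat_lit 50), (nb (nat_lit 5) (nat_lit 30400) (nb (nat_lit 12) (nat_lit 17024) (nb (nat_lit 2) (nat_lit 14592) (nb (nat_lit 4) (nat_lit 3648) (nb (nat_lit 3) (nat_lit 1216) (nat_lit 0)))))), (nb (nat_lit 5) (nat_lit 27968) (nb (nat_lit 16) (nat_lit 15808) (nb (nat_lit 8) (nat_lit 2432) (nat_lit 0))))⟩, ⟨(nat_lit 2), (nat_lit 42), (nb (nat_lit 4) (nat_lit 43776) (nb (nat_lit 9) (nat_lit 40128) (nb (nat_lit 10) (nat_lit 30400) (nb (nat_lit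 30) (nat_lit 27968) (nb (nat_lit 4) (nat_lit 17024) (nb (nat_lit 28) (nat_lit 14592) (nb (nat_lit 5) (nat_lit 1216) (nat_lit 0)))))))), (nb (nat_lit 8) (nat_lit 42560) (nb (nat_lit 3) (nat_lit 41344) (nb (nat_lit 35) (nat_lit 29184) (nb (nat_lit 21) (nat_lit 15808) (nb (nat_lit 7) (nat_lit 13376) (nb (nat_lit 2) (nat_lit 2432) (nat_lit 2)))))))⟩, ⟨(nat_lit 6), (nat_lit 44), (nb (nat_lit 6) (nat_lit 43776) (nb (nat_lit 6) (nat_lit 40128) (nb (nat_lit 14) (nat_lit 30400) (nb (nat_lit 22) (nat_lit 27968) (nb (nat_lit 4) (nat_lit 17024) (nb (nat_lit 18) (nat_lit 14592) (nb (nat_lit 3) (nat_lit 1216) (nat_lit 0)))))))), (nb (nat_lit 7) (nat_lit 42560) (nb (nat_lit 7) (nat_lit 41344) (nb (nat_lit 38) (nat_lit 29184) (nb (nat_lit 1) (nat_lit 26752) (nb (nat_lit 19) (nat_lit 15808) (nb (nat_lit 4) (nat_lit 13376) (nb (nat_lit 2) (nat_lit 2432) (nat_lit 1))))))))⟩, ⟨(nat_lit 8), (nat_lit 54), (nb (nat_lit 5) (nat_lit 29184) (nb (nat_lit 12) (nat_lit 15808)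 (nb (nat_lit 2) (nat_lit 13376) (nb (nat_lit 4) (nat_lit 2432) (nat_lit 3))))), (nb (nat_lit 5) (nat_lit 26752) (nb (nat_lit 16) (nat_lit 14592) (nb (nat_lit 8) (nat_lit 1216) (nat_lit 0))))⟩, ⟨(nat_lit 12), (nat_lit 14), (nb (nat_lit 10) (nat_lit 43776) (nb (nat_lit 10) (nat_lit 40128) (nb (nat_lit 29) (nat_lit 30400) (nb (nat_lit 31) (nat_lit 27968) (nb (nat_lit 1) (nat_lit 26752) (nb (nat_lit 20) (nat_lit 17024) (nb (nat_lit 40) (nat_lit 14592) (nb (nat_lit 4) (nat_lit 3648) (nb (nat_lit 11) (nat_lit 1216) (nat_lit 0)))))))))), (nb (nat_lit 10) (nat_lit 42560) (nb (nat_lit 10) (nat_lit 41344) (nb (nat_lit 61) (nat_lit 29184) (nb (nat_lit 52) (nat_lit 15808) (nb (nat_lit 8) (nat_lit 13376) (nb (nat_lit 12) (nat_lit 2432) (nat_lit 3)))))))⟩, ⟨(nat_lit 18), (nat_lit 22), (nb (nat_lit 5) (nat_lit 41344) (nb (nat_lit 5) (nat_lit 40128) (nb (nat_lit 4) (nat_lit 29184) (nb (nat_lit 19) (nat_lit 27968) (nb (nat_lit 20) (nat_lit 15808) (nb (nat_lit 3) (nat_lit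 14592) (nb (nat_lit 8) (nat_lit 2432) (nat_lit 0)))))))), (nb (nat_lit 5) (nat_lit 43776) (nb (nat_lit 5) (nat_lit 42560) (nb (nat_lit 17) (nat_lit 30400) (nb (nat_lit 2) (nat_lit 26752) (nb (nat_lit 16) (nat_lit 17024) (nb (nat_lit 3) (nat_lit 13376) (nb (nat_lit 4) (nat_lit 3648) (nb (nat_lit 3) (nat_lit 1216) (nat_lit 0)))))))))⟩, ⟨(nat_lit 20), (nat_lit 24), (nb (nat_lit 6) (nat_lit 43776) (nb (nat_lit 6) (nat_lit 40128) (nb (nat_lit 14) (nat_lit 30400) (nb (nat_lit 22) (nat_lit 27968) (nb (nat_lit 4) (nat_lit 26752) (nb (nat_lit 4) (nat_lit 17024) (nb (nat_lit 34) (nat_lit 14592) (nb (nat_lit 11) (nat_lit 1216) (nat_lit 0))))))))), (nb (nat_lit 7) (nat_lit 42560) (nb (nat_lit 7) (nat_lit 41344) (nb (nat_lit 43) (nat_lit 29184) (nb (nat_lit 31) (nat_lit 15808) (nb (nat_lit 6) (nat_lit 13376) (nb (nat_lit 6) (nat_lit 2432) (nat_lit 4)))))))⟩]⟩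
def e804 : En := ⟨(nat_lit 66), (nat_lit 69889), (nat_lit 1066), (nat_lit 3375), [⟨(nat_lit 0), (nat_lit 56), (nb (nat_lit 5) (nat_lit 29184) (nb (nat_lit 12) (nat_lit 15808) (nb (nat_lit 2) (nat_lit 13376) (nb (nat_lit 4) (nat_lit 2432) (nat_lit 3))))), (nb (nat_lit 5) (nat_lit 26752) (nb (nat_lit 16) (nat_lit 14592) (nb (nat_lit 8) (nat_lit 1216) (nat_lit 0))))⟩, ⟨(nat_lit 2), (nat_lit 52), (nb (nat_lit 5) (nat_lit 30400) (nb (nat_lit 12) (nat_lit 17024) (nb (nat_lit 2) (nat_lit 14592) (nb (nat_lit 4) (nat_lit 3648) (nb (nat_lit 3) (nat_lit 1216) (nat_lit 0)))))), (nb (nat_lit 5) (nat_lit 27968) (nb (nat_lit 16) (nat_lit 15808) (nb (nat_lit 8) (nat_lit 2432) (nat_lit 0))))⟩, ⟨(nat_lit 4), (nat_lit 44), (nb (nat_lit 4) (nat_lit 43776) (nb (nat_lit 9) (nat_lit 40128) (nb (nat_lit 10) (nat_lit 30400) (nb (nat_lit 30) (nat_lit 27968) (nb (nat_lit 4) (nat_lit 17024) (nb (nat_lit 28) (nat_lit 14592) (nb (nat_lit 5) (nat_lit 1216) (nat_lit 0)))))))), (nb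 (nat_lit 8) (nat_lit 42560) (nb (nat_lit 3) (nat_lit 41344) (nb (nat_lit 35) (nat_lit 29184) (nb (nat_lit 21) (nat_lit 15808) (nb (nat_lit 7) (nat_lit 13376) (nb (nat_lit 2) (nat_lit 2432) (nat_lit 2)))))))⟩, ⟨(nat_lit 8), (nat_lit 46), (nb (nat_lit 6) (nat_lit 43776) (nb (nat_lit 6) (nat_lit 40128) (nb (nat_lit 14) (nat_lit 30400) (nb (nat_lit 22) (nat_lit 27968) (nb (nat_lit 4) (nat_lit 17024) (nb (nat_lit 18) (nat_lit 14592) (nb (nat_lit 3) (nat_lit 1216) (nat_lit 0)))))))), (nb (nat_lit 7) (nat_lit 42560) (nb (nat_lit 7) (nat_lit 41344) (nb (nat_lit 38) (nat_lit 29184) (nb (nat_lit 1) (nat_lit 26752) (nb (nat_lit 19) (nat_lit 15808) (nb (nat_lit 4) (nat_lit 13376) (nb (nat_lit 2) (nat_lit 2432) (nat_lit 1))))))))⟩, ⟨(nat_lit 10), (nat_lit 24), (nb (nat_lit 5) (nat_lit 41344) (nb (nat_lit 5) (nat_lit 40128) (nb (nat_lit 4) (nat_lit 29184) (nb (nat_lit 19) (nat_lit 27968) (nb (nat_lit 20) (nat_lit 15808) (nb (nat_lit 3) (nat_lit 14592) (nb (nat_lit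 8) (nat_lit 2432) (nat_lit 0)))))))), (nb (nat_lit 5) (nat_lit 43776) (nb (nat_lit 5) (nat_lit 42560) (nb (nat_lit 17) (nat_lit 30400) (nb (nat_lit 2) (nat_lit 26752) (nb (nat_lit 16) (nat_lit 17024) (nb (nat_lit 3) (nat_lit 13376) (nb (nat_lit 4) (nat_lit 3648) (nb (nat_lit 3) (nat_lit 1216) (nat_lit 0)))))))))⟩, ⟨(nat_lit 14), (nat_lit 16), (nb (nat_lit 10) (nat_lit 43776) (nb (nat_lit 10) (nat_lit 40128) (nb (nat_lit 29) (nat_lit 30400) (nb (nat_lit 31) (nat_lit 27968) (nb (nat_lit 1) (nat_lit 26752) (nb (nat_lit 20) (nat_lit 17024) (nb (nat_lit 40) (nat_lit 14592) (nb (nat_lit 4) (nat_lit 3648) (nb (nat_lit 11) (nat_lit 1216) (nat_lit 0)))))))))), (nb (nat_lit 10) (nat_lit 42560) (nb (nat_lit 10) (nat_lit 41344) (nb (nat_lit 61) (nat_lit 29184) (nb (nat_lit 52) (nat_lit 15808) (nb (nat_lit 8) (nat_lit 13376) (nb (nat_lit 12) (nat_lit 2432) (nat_lit 3)))))))⟩, ⟨(nat_lit 22), (nat_lit 26), (nb (nat_lit 6) (nat_lit 43776) (nb (nat_lit 6) (nat_lit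 40128) (nb (nat_lit 14) (nat_lit 30400) (nb (nat_lit 22) (nat_lit 27968) (nb (nat_lit 4) (nat_lit 26752) (nb (nat_lit 4) (nat_lit 17024) (nb (nat_lit 34) (nat_lit 14592) (nb (nat_lit 11) (nat_lit 1216) (nat_lit 0))))))))), (nb (nat_lit 7) (nat_lit 42560) (nb (nat_lit 7) (nat_lit 41344) (nb (nat_lit 43) (nat_lit 29184) (nb (nat_lit 31) (nat_lit 15808) (nb (nat_lit 6) (nat_lit 13376) (nb (nat_lit 6) (nat_lit 2432) (nat_lit 4)))))))⟩]⟩
def e805 : En := ⟨(nat_lit 68), (nat_lit 69904), (nat_lit 1066), (nat_lit 3375), [⟨(nat_lit 0), (nat_lit 48), (nb (nat_lit 6) (nat_lit 43776) (nb (nat_lit 6) (nat_lit 40128) (nb (nat_lit 14) (nat_lit 30400) (nb (nat_lit 22) (nat_lit 27968) (nb (nat_lit 4) (nat_lit 17024) (nb (nat_lit 18) (nat_lit 14592) (nb (nat_lit 3) (nat_lit 1216) (nat_lit 0)))))))), (nb (nat_lit 7) (nat_lit 42560) (nb (nat_lit 7) (nat_lit 41344) (nb (nat_lit 38) (nat_lit 29184) (nb (nat_lit 1) (nat_lit 26752) (nb (nat_lit 19) (nat_lit 15808) (nb (nat_lit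 4) (nat_lit 13376) (nb (nat_lit 2) (nat_lit 2432) (nat_lit 1))))))))⟩, ⟨(nat_lit 2), (nat_lit 58), (nb (nat_lit 5) (nat_lit 29184) (nb (nat_lit 12) (nat_lit 15808) (nb (nat_lit 2) (nat_lit 13376) (nb (nat_lit 4) (nat_lit 2432) (nat_lit 3))))), (nb (nat_lit 5) (nat_lit 26752) (nb (nat_lit 16) (nat_lit 14592) (nb (nat_lit 8) (nat_lit 1216) (nat_lit 0))))⟩, ⟨(nat_lit 4), (nat_lit 54), (nb (nat_lit 5) (nat_lit 30400) (nb (nat_lit 12) (nat_lit 17024) (nb (nat_lit 2) (nat_lit 14592) (nb (nat_lit 4) (nat_lit 3648) (nb (nat_lit 3) (nat_lit 1216) (nat_lit 0)))))), (nb (nat_lit 5) (nat_lit 27968) (nb (nat_lit 16) (nat_lit 15808) (nb (nat_lit 8) (nat_lit 2432) (nat_lit 0))))⟩, ⟨(nat_lit 6), (nat_lit 46), (nb (nat_lit 4) (nat_lit 43776) (nb (nat_lit 9) (nat_lit 40128) (nb (nat_lit 10) (nat_lit 30400) (nb (nat_lit 30) (nat_lit 27968) (nb (nat_lit 4) (nat_lit 17024) (nb (nat_lit 28) (nat_lit 14592) (nb (nat_lit 5) (nat_lit 1216) (nat_lit 0)))))))), (nb (nat_lit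 8) (nat_lit 42560) (nb (nat_lit 3) (nat_lit 41344) (nb (nat_lit 35) (nat_lit 29184) (nb (nat_lit 21) (nat_lit 15808) (nb (nat_lit 7) (nat_lit 13376) (nb (nat_lit 2) (nat_lit 2432) (nat_lit 2)))))))⟩, ⟨(nat_lit 12), (nat_lit 26), (nb (nat_lit 5) (nat_lit 41344) (nb (nat_lit 5) (nat_lit 40128) (nb (nat_lit 4) (nat_lit 29184) (nb (nat_lit 19) (nat_lit 27968) (nb (nat_lit 20) (nat_lit 15808) (nb (nat_lit 3) (nat_lit 14592) (nb (nat_lit 8) (nat_lit 2432) (nat_lit 0)))))))), (nb (nat_lit 5) (nat_lit 43776) (nb (nat_lit 5) (nat_lit 42560) (nb (nat_lit 17) (nat_lit 30400) (nb (nat_lit 2) (nat_lit 26752) (nb (nat_lit 16) (nat_lit 17024) (nb (nat_lit 3) (nat_lit 13376) (nb (nat_lit 4) (nat_lit 3648) (nb (nat_lit 3) (nat_lit 1216) (nat_lit 0)))))))))⟩, ⟨(nat_lit 16), (nat_lit 18), (nb (nat_lit 10) (nat_lit 43776) (nb (nat_lit 10) (nat_lit 40128) (nb (nat_lit 29) (nat_lit 30400) (nb (nat_lit 31) (nat_lit 27968) (nb (nat_lit 1) (nat_lit 26752) (nb (nat_lit 20)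 (nat_lit 17024) (nb (nat_lit 40) (nat_lit 14592) (nb (nat_lit 4) (nat_lit 3648) (nb (nat_lit 11) (nat_lit 1216) (nat_lit 0)))))))))), (nb (nat_lit 10) (nat_lit 42560) (nb (nat_lit 10) (nat_lit 41344) (nb (nat_lit 61) (nat_lit 29184) (nb (nat_lit 52) (nat_lit 15808) (nb (nat_lit 8) (nat_lit 13376) (nb (nat_lit 12) (nat_lit 2432) (nat_lit 3)))))))⟩, ⟨(nat_lit 24), (nat_lit 28), (nb (nat_lit 6) (nat_lit 43776) (nb (nat_lit 6) (nat_lit 40128) (nb (nat_lit 14) (nat_lit 30400) (nb (nat_lit 22) (nat_lit 27968) (nb (nat_lit 4) (nat_lit 26752) (nb (nat_lit 4) (nat_lit 17024) (nb (nat_lit 34) (nat_lit 14592) (nb (nat_lit 11) (nat_lit 1216) (nat_lit 0))))))))), (nb (nat_lit 7) (nat_lit 42560) (nb (nat_lit 7) (nat_lit 41344) (nb (nat_lit 43) (nat_lit 29184) (nb (nat_lit 31) (nat_lit 15808) (nb (nat_lit 6) (nat_lit 13376) (nb (nat_lit 6) (nat_lit 2432) (nat_lit 4)))))))⟩]⟩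
def e806 : En := ⟨(nat_lit 40), (nat_lit 273), (nat_lit 180), (nat_lit 225), [⟨(nat_lit 4), (nat_lit 20), (nb (nat_lit 4) (nat_lit 29184) (nb (nat_lit 9) (nat_lit 26752) (nb (nat_lit 6) (nat_lit 13376) (nat_lit 1)))), (nb (nat_lit 12) (nat_lit 27968) (nb (nat_lit 4) (nat_lit 14592) (nat_lit 0)))⟩, ⟨(nat_lit 6), (nat_lit 10), (nb (nat_lit 10) (nat_lit 29184) (nb (nat_lit 15) (nat_lit 26752) (nb (nat_lit 4) (nat_lit 15808) (nb (nat_lit 14) (nat_lit 13376) (nat_lit 3))))), (nb (nat_lit 25) (nat_lit 27968) (nb (nat_lit 17) (nat_lit 14592) (nb (nat_lit 2) (nat_lit 1216) (nat_lit 0))))⟩, ⟨(nat_lit 8), (nat_lit 28), (nb (nat_lit 6) (nat_lit 29184) (nb (nat_lit 6) (nat_lit 26752) (nb (nat_lit 4) (nat_lit 15808) (nb (nat_lit 8) (nat_lit 13376) (nat_lit 2))))), (nb (nat_lit 13) (nat_lit 27968) (nb (nat_lit 13) (nat_lit 14592) (nb (nat_lit 2) (nat_lit 1216) (nat_lit 0))))⟩]⟩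
def e807 : En := ⟨(nat_lit 42), (nat_lit 65553), (nat_lit 180), (nat_lit 225), [⟨(nat_lit 0), (nat_lit 20), (nb (nat_lit 6) (nat_lit 29184) (nb (nat_lit 6) (nat_lit 26752) (nb (nat_lit 4) (nat_lit 15808) (nb (nat_lit 8) (nat_lit 13376) (nat_lit 2))))), (nb (nat_lit 13) (nat_lit 27968) (nb (nat_lit 13) (nat_lit 14592) (nb (nat_lit 2) (nat_lit 1216) (nat_lit 0))))⟩, ⟨(nat_lit 6), (nat_lit 22), (nb (nat_lit 4) (nat_lit 29184) (nb (nat_lit 9) (nat_lit 26752) (nb (nat_lit 6) (nat_lit 13376) (nat_lit 1)))), (nb (nat_lit 12) (nat_lit 27968) (nb (nat_lit 4) (nat_lit 14592) (nat_lit 0)))⟩, ⟨(nat_lit 8), (nat_lit 12), (nb (nat_lit 10) (nat_lit 29184) (nb (nat_lit 15) (nat_lit 26752) (nb (nat_lit 4) (nat_lit 15808) (nb (nat_lit 14) (nat_lit 13376) (nat_lit 3))))), (nb (nat_lit 25) (nat_lit 27968) (nb (nat_lit 17) (nat_lit 14592) (nb (nat_lit 2) (nat_lit 1216) (nat_lit 0))))⟩]⟩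
def e808 : En := ⟨(nat_lit 44), (nat_lit 69633), (nat_lit 180), (nat_lit 225), [⟨(nat_lit 0), (nat_lit 14), (nb (nat_lit 10) (nat_lit 29184) (nb (nat_lit 15) (nat_lit 26752) (nb (nat_lit 4) (nat_lit 15808) (nb (nat_lit 14) (nat_lit 13376) (nat_lit 3))))), (nb (nat_lit 25) (nat_lit 27968) (nb (nat_lit 17) (nat_lit 14592) (nb (nat_lit 2) (nat_lit 1216) (nat_lit 0))))⟩, ⟨(nat_lit 2), (nat_lit 22), (nb (nat_lit 6) (nat_lit 29184) (nb (nat_lit 6) (nat_lit 26752) (nb (nat_lit 4) (nat_lit 15808) (nb (nat_lit 8) (nat_lit 13376) (nat_lit 2))))), (nb (nat_lit 13) (nat_lit 27968) (nb (nat_lit 13) (nat_lit 14592) (nb (nat_lit 2) (nat_lit 1216) (nat_lit 0))))⟩, ⟨(nat_lit 8), (nat_lit 24), (nb (nat_lit 4) (nat_lit 29184) (nb (nat_lit 9) (nat_lit 26752) (nb (nat_lit 6) (nat_lit 13376) (nat_lit 1)))), (nb (nat_lit 12) (nat_lit 27968) (nb (nat_lit 4) (nat_lit 14592) (nat_lit 0)))⟩]⟩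
def e809 : En := ⟨(nat_lit 46), (nat_lit 69888), (nat_lit 180), (nat_lit 225), [⟨(nat_lit 0), (nat_lit 26), (nb (nat_lit 4) (nat_lit 29184) (nb (nat_lit 9) (nat_lit 26752) (nb (nat_lit 6) (nat_lit 13376) (nat_lit 1)))), (nb (nat_lit 12) (nat_lit 27968) (nb (nat_lit 4) (nat_lit 14592) (nat_lit 0)))⟩, ⟨(nat_lit 2), (nat_lit 16), (nb (nat_lit 10) (nat_lit 29184) (nb (nat_lit 15) (nat_lit 26752) (nb (nat_lit 4) (nat_lit 15808) (nb (nat_lit 14) (nat_lit 13376) (nat_lit 3))))), (nb (nat_lit 25) (nat_lit 27968) (nb (nat_lit 17) (nat_lit 14592) (nb (nat_lit 2) (nat_lit 1216) (nat_lit 0))))⟩, ⟨(nat_lit 4), (nat_lit 24), (nb (nat_lit 6) (nat_lit 29184) (nb (nat_lit 6) (nat_lit 26752) (nb (nat_lit 4) (nat_lit 15808) (nb (nat_lit 8) (nat_lit 13376) (nat_lit 2))))), (nb (nat_lit 13) (nat_lit 27968) (nb (nat_lit 13) (nat_lit 14592) (nb (nat_lit 2) (nat_lit 1216) (nat_lit 0))))⟩]⟩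
def e810 : En := ⟨(nat_lit 48), (nat_lit 4368), (nat_lit 180), (nat_lit 225), [⟨(nat_lit 2), (nat_lit 28), (nb (nat_lit 4) (nat_lit 29184) (nb (nat_lit 9) (nat_lit 26752) (nb (nat_lit 6) (nat_lit 13376) (nat_lit 1)))), (nb (nat_lit 12) (nat_lit 27968) (nb (nat_lit 4) (nat_lit 14592) (nat_lit 0)))⟩, ⟨(nat_lit 4), (nat_lit 18), (nb (nat_lit 10) (nat_lit 29184) (nb (nat_lit 15) (nat_lit 26752) (nb (nat_lit 4) (nat_lit 15808) (nb (nat_lit 14) (nat_lit 13376) (nat_lit 3))))), (nb (nat_lit 25) (nat_lit 27968) (nb (nat_lit 17) (nat_lit 14592) (nb (nat_lit 2) (nat_lit 1216) (nat_lit 0))))⟩, ⟨(nat_lit 6), (nat_lit 26), (nb (nat_lit 6) (nat_lit 29184) (nb (nat_lit 6) (nat_lit 26752) (nb (nat_lit 4) (nat_lit 15808) (nb (nat_lit 8) (nat_lit 13376) (nat_lit 2))))), (nb (nat_lit 13) (nat_lit 27968) (nb (nat_lit 13) (nat_lit 14592) (nb (nat_lit 2) (nat_lit 1216) (nat_lit 0))))⟩]⟩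
def e811 : En := ⟨(nat_lit 50), (nat_lit 4113), (nat_lit 144), (nat_lit 1125), [⟨(nat_lit 2), (nat_lit 20), (nb (nat_lit 4) (nat_lit 29184) (nb (nat_lit 9) (nat_lit 26752) (nb (nat_lit 6) (nat_lit 13376) (nat_lit 1)))), (nb (nat_lit 12) (nat_lit 27968) (nb (nat_lit 4) (nat_lit 14592) (nat_lit 0)))⟩, ⟨(nat_lit 6), (nat_lit 14), (nb (nat_lit 4) (nat_lit 42560) (nb (nat_lit 9) (nat_lit 40128) (nb (nat_lit 6) (nat_lit 26752) (nb (nat_lit 1) (nat_lit 13376) (nat_lit 0))))), (nb (nat_lit 12) (nat_lit 41344) (nb (nat_lit 4) (nat_lit 27968) (nat_lit 0)))⟩, ⟨(nat_lit 8), (nat_lit 18), (nb (nat_lit 12) (nat_lit 41344) (nb (nat_lit 16) (nat_lit 27968) (nb (nat_lit 4) (nat_lit 14592) (nat_lit 0)))), (nb (nat_lit 4) (nat_lit 42560) (nb (nat_lit 9) (nat_lit 40128) (nb (nat_lit 4) (nat_lit 29184) (nb (nat_lit 15) (nat_lit 26752) (nb (nat_lit 7) (nat_lit 13376) (nat_lit 1))))))⟩]⟩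
def e812 : En := ⟨(nat_lit 52), (nat_lit 65793), (nat_lit 144), (nat_lit 1125), [⟨(nat_lit 0), (nat_lit 10), (nb (nat_lit 12) (nat_lit 41344) (nb (nat_lit 16) (nat_lit 27968) (nb (nat_lit 4) (nat_lit 14592) (nat_lit 0)))), (nb (nat_lit 4) (nat_lit 42560) (nb (nat_lit 9) (nat_lit 40128) (nb (nat_lit 4) (nat_lit 29184) (nb (nat_lit 15) (nat_lit 26752) (nb (nat_lit 7) (nat_lit 13376) (nat_lit 1))))))⟩, ⟨(nat_lit 4), (nat_lit 22), (nb (nat_lit 4) (nat_lit 29184) (nb (nat_lit 9) (nat_lit 26752) (nb (nat_lit 6) (nat_lit 13376) (nat_lit 1)))), (nb (nat_lit 12) (nat_lit 27968) (nb (nat_lit 4) (nat_lit 14592) (nat_lit 0)))⟩, ⟨(nat_lit 8), (nat_lit 16), (nb (nat_lit 4) (nat_lit 42560) (nb (nat_lit 9) (nat_lit 40128) (nb (nat_lit 6) (nat_lit 26752) (nb (nat_lit 1) (nat_lit 13376) (nat_lit 0))))), (nb (nat_lit 12) (nat_lit 41344) (nb (nat_lit 4) (nat_lit 27968) (nat_lit 0)))⟩]⟩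
def e813 : En := ⟨(nat_lit 54), (nat_lit 69648), (nat_lit 144), (nat_lit 1125), [⟨(nat_lit 0), (nat_lit 18), (nb (nat_lit 4) (nat_lit 42560) (nb (nat_lit 9) (nat_lit 40128) (nb (nat_lit 6) (nat_lit 26752) (nb (nat_lit 1) (nat_lit 13376) (nat_lit 0))))), (nb (nat_lit 12) (nat_lit 41344) (nb (nat_lit 4) (nat_lit 27968) (nat_lit 0)))⟩, ⟨(nat_lit 2), (nat_lit 12), (nb (nat_lit 12) (nat_lit 41344) (nb (nat_lit 16) (nat_lit 27968) (nb (nat_lit 4) (nat_lit 14592) (nat_lit 0)))), (nb (nat_lit 4) (nat_lit 42560) (nb (nat_lit 9) (nat_lit 40128) (nb (nat_lit 4) (nat_lit 29184) (nb (nat_lit 15) (nat_lit 26752) (nb (nat_lit 7) (nat_lit 13376) (nat_lit 1))))))⟩, ⟨(nat_lit 6), (nat_lit 24), (nb (nat_lit 4) (nat_lit 29184) (nb (nat_lit 9) (nat_lit 26752) (nb (nat_lit 6) (nat_lit 13376) (nat_lit 1)))), (nb (nat_lit 12) (nat_lit 27968) (nb (nat_lit 4) (nat_lit 14592) (nat_lit 0)))⟩]⟩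
def e814 : En := ⟨(nat_lit 56), (nat_lit 4353), (nat_lit 144), (nat_lit 1125), [⟨(nat_lit 2), (nat_lit 10), (nb (nat_lit 4) (nat_lit 42560) (nb (nat_lit 9) (nat_lit 40128) (nb (nat_lit 6) (nat_lit 26752) (nb (nat_lit 1) (nat_lit 13376) (nat_lit 0))))), (nb (nat_lit 12) (nat_lit 41344) (nb (nat_lit 4) (nat_lit 27968) (nat_lit 0)))⟩, ⟨(nat_lit 4), (nat_lit 14), (nb (nat_lit 12) (nat_lit 41344) (nb (nat_lit 16) (nat_lit 27968) (nb (nat_lit 4) (nat_lit 14592) (nat_lit 0)))), (nb (nat_lit 4) (nat_lit 42560) (nb (nat_lit 9) (nat_lit 40128) (nb (nat_lit 4) (nat_lit 29184) (nb (nat_lit 15) (nat_lit 26752) (nb (nat_lit 7) (nat_lit 13376) (nat_lit 1))))))⟩, ⟨(nat_lit 8), (nat_lit 26), (nb (nat_lit 4) (nat_lit 29184) (nb (nat_lit 9) (nat_lit 26752) (nb (nat_lit 6) (nat_lit 13376) (nat_lit 1)))), (nb (nat_lit 12) (nat_lit 27968) (nb (nat_lit 4) (nat_lit 14592) (nat_lit 0)))⟩]⟩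
def e815 : En := ⟨(nat_lit 58), (nat_lit 65808), (nat_lit 144), (nat_lit 1125), [⟨(nat_lit 0), (nat_lit 28), (nb (nat_lit 4) (nat_lit 29184) (nb (nat_lit 9) (nat_lit 26752) (nb (nat_lit 6) (nat_lit 13376) (nat_lit 1)))), (nb (nat_lit 12) (nat_lit 27968) (nb (nat_lit 4) (nat_lit 14592) (nat_lit 0)))⟩, ⟨(nat_lit 4), (nat_lit 12), (nb (nat_lit 4) (nat_lit 42560) (nb (nat_lit 9) (nat_lit 40128) (nb (nat_lit 6) (nat_lit 26752) (nb (nat_lit 1) (nat_lit 13376) (nat_lit 0))))), (nb (nat_lit 12) (nat_lit 41344) (nb (nat_lit 4) (nat_lit 27968) (nat_lit 0)))⟩, ⟨(nat_lit 6), (nat_lit 16), (nb (nat_lit 12) (nat_lit 41344) (nb (nat_lit 16) (nat_lit 27968) (nb (nat_lit 4) (nat_lit 14592) (nat_lit 0)))), (nb (nat_lit 4) (nat_lit 42560) (nb (nat_lit 9) (nat_lit 40128) (nb (nat_lit 4) (nat_lit 29184) (nb (nat_lit 15) (nat_lit 26752) (nb (nat_lit 7) (nat_lit 13376) (nat_lit 1))))))⟩]⟩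
def e816 : En := ⟨(nat_lit 10), (nat_lit 257), (nat_lit 36), (nat_lit 225), [⟨(nat_lit 4), (nat_lit 8), (nb (nat_lit 4) (nat_lit 29184) (nb (nat_lit 9) (nat_lit 26752) (nb (nat_lit 6) (nat_lit 13376) (nat_lit 1)))), (nb (nat_lit 12) (nat_lit 27968) (nb (nat_lit 4) (nat_lit 14592) (nat_lit 0)))⟩]⟩
def e817 : En := ⟨(nat_lit 12), (nat_lit 65552), (nat_lit 36), (nat_lit 225), [⟨(nat_lit 0), (nat_lit 6), (nb (nat_lit 12) (nat_lit 27968) (nb (nat_lit 4) (nat_lit 14592) (nat_lit 0))), (nb (nat_lit 4) (nat_lit 29184) (nb (nat_lit 9) (nat_lit 26752) (nb (nat_lit 6) (nat_lit 13376) (nat_lit 1))))⟩]⟩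
def e818 : En := ⟨(nat_lit 14), (nat_lit 4097), (nat_lit 36), (nat_lit 225), [⟨(nat_lit 2), (nat_lit 8), (nb (nat_lit 12) (nat_lit 27968) (nb (nat_lit 4) (nat_lit 14592) (nat_lit 0))), (nb (nat_lit 4) (nat_lit 29184) (nb (nat_lit 9) (nat_lit 26752) (nb (nat_lit 6) (nat_lit 13376) (nat_lit 1))))⟩]⟩
def e819 : En := ⟨(nat_lit 16), (nat_lit 65792), (nat_lit 36), (nat_lit 225), [⟨(nat_lit 0), (nat_lit 4), (nb (nat_lit 4) (nat_lit 29184) (nb (nat_lit 9) (nat_lit 26752) (nb (nat_lit 6) (nat_lit 13376) (nat_lit 1)))), (nb (nat_lit 12) (nat_lit 27968) (nb (nat_lit 4) (nat_lit 14592) (nat_lit 0)))⟩]⟩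
def e820 : En := ⟨(nat_lit 18), (nat_lit 4112), (nat_lit 36), (nat_lit 225), [⟨(nat_lit 2), (nat_lit 6), (nb (nat_lit 4) (nat_lit 29184) (nb (nat_lit 9) (nat_lit 26752) (nb (nat_lit 6) (nat_lit 13376) (nat_lit 1)))), (nb (nat_lit 12) (nat_lit 27968) (nb (nat_lit 4) (nat_lit 14592) (nat_lit 0)))⟩]⟩
def e821 : En := ⟨(nat_lit 20), (nat_lit 17), (nat_lit 36), (nat_lit 225), [⟨(nat_lit 6), (nat_lit 8), (nb (nat_lit 4) (nat_lit 29184) (nb (nat_lit 9) (nat_lit 26752) (nb (nat_lit 6) (nat_lit 13376) (nat_lit 1)))), (nb (nat_lit 12) (nat_lit 27968) (nb (nat_lit 4) (nat_lit 14592) (nat_lit 0)))⟩]⟩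
def e822 : En := ⟨(nat_lit 22), (nat_lit 65537), (nat_lit 36), (nat_lit 225), [⟨(nat_lit 0), (nat_lit 8), (nb (nat_lit 12) (nat_lit 27968) (nb (nat_lit 4) (nat_lit 14592) (nat_lit 0))), (nb (nat_lit 4) (nat_lit 29184) (nb (nat_lit 9) (nat_lit 26752) (nb (nat_lit 6) (nat_lit 13376) (nat_lit 1))))⟩]⟩
def e823 : En := ⟨(nat_lit 24), (nat_lit 69632), (nat_lit 36), (nat_lit 225), [⟨(nat_lit 0), (nat_lit 2), (nb (nat_lit 4) (nat_lit 29184) (nb (nat_lit 9) (nat_lit 26752) (nb (nat_lit 6) (nat_lit 13376) (nat_lit 1)))), (nb (nat_lit 12) (nat_lit 27968) (nb (nat_lit 4) (nat_lit 14592) (nat_lit 0)))⟩]⟩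
def e824 : En := ⟨(nat_lit 26), (nat_lit 4352), (nat_lit 36), (nat_lit 225), [⟨(nat_lit 2), (nat_lit 4), (nb (nat_lit 4) (nat_lit 29184) (nb (nat_lit 9) (nat_lit 26752) (nb (nat_lit 6) (nat_lit 13376) (nat_lit 1)))), (nb (nat_lit 12) (nat_lit 27968) (nb (nat_lit 4) (nat_lit 14592) (nat_lit 0)))⟩]⟩
def e825 : En := ⟨(nat_lit 28), (nat_lit 272), (nat_lit 36), (nat_lit 225), [⟨(nat_lit 4), (nat_lit 6), (nb (nat_lit 4) (nat_lit 29184) (nb (nat_lit 9) (nat_lit 26752) (nb (nat_lit 6) (nat_lit 13376) (nat_lit 1)))), (nb (nat_lit 12) (nat_lit 27968) (nb (nat_lit 4) (nat_lit 14592) (nat_lit 0)))⟩]⟩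
def e826 : En := ⟨(nat_lit 71), (nat_lit 69905), (nat_lit 950), (nat_lit 3375), [⟨(nat_lit 0), (nat_lit 60), (nb (nat_lit 4) (nat_lit 29184) (nb (nat_lit 9) (nat_lit 26752) (nb (nat_lit 6) (nat_lit 13376) (nat_lit 1)))), (nb (nat_lit 12) (nat_lit 27968) (nb (nat_lit 4) (nat_lit 14592) (nat_lit 0)))⟩, ⟨(nat_lit 2), (nat_lit 62), (nb (nat_lit 4) (nat_lit 29184) (nb (nat_lit 9) (nat_lit 26752) (nb (nat_lit 6) (nat_lit 13376) (nat_lit 1)))), (nb (nat_lit 12) (nat_lit 27968) (nb (nat_lit 4) (nat_lit 14592) (nat_lit 0)))⟩, ⟨(nat_lit 4), (nat_lit 64), (nb (nat_lit 4) (nat_lit 29184) (nb (nat_lit 9) (nat_lit 26752) (nb (nat_lit 6) (nat_lit 13376) (nat_lit 1)))), (nb (nat_lit 12) (nat_lit 27968) (nb (nat_lit 4) (nat_lit 14592) (nat_lit 0)))⟩, ⟨(nat_lit 6), (nat_lit 66), (nb (nat_lit 4) (nat_lit 29184) (nb (nat_lit 9) (nat_lit 26752) (nb (nat_lit 6) (nat_lit 13376) (nat_lit 1)))), (nb (nat_lit 12) (nat_lit 27968) (nb (nat_lit 4) (nat_lit 14592) (nat_lit 0)))⟩,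 ⟨(nat_lit 8), (nat_lit 68), (nb (nat_lit 4) (nat_lit 29184) (nb (nat_lit 9) (nat_lit 26752) (nb (nat_lit 6) (nat_lit 13376) (nat_lit 1)))), (nb (nat_lit 12) (nat_lit 27968) (nb (nat_lit 4) (nat_lit 14592) (nat_lit 0)))⟩, ⟨(nat_lit 10), (nat_lit 54), (nb (nat_lit 5) (nat_lit 29184) (nb (nat_lit 5) (nat_lit 27968) (nb (nat_lit 28) (nat_lit 15808) (nb (nat_lit 2) (nat_lit 13376) (nb (nat_lit 12) (nat_lit 2432) (nat_lit 3)))))), (nb (nat_lit 5) (nat_lit 30400) (nb (nat_lit 5) (nat_lit 26752) (nb (nat_lit 12) (nat_lit 17024) (nb (nat_lit 18) (nat_lit 14592) (nb (nat_lit 4) (nat_lit 3648) (nb (nat_lit 11) (nat_lit 1216) (nat_lit 0)))))))⟩, ⟨(nat_lit 12), (nat_lit 56), (nb (nat_lit 5) (nat_lit 29184) (nb (nat_lit 5) (nat_lit 27968) (nb (nat_lit 28) (nat_lit 15808) (nb (nat_lit 2) (nat_lit 13376) (nb (nat_lit 12) (nat_lit 2432) (nat_lit 3)))))), (nb (nat_lit 5) (nat_lit 30400) (nb (nat_lit 5) (nat_lit 26752) (nb (nat_lit 12) (nat_lit 17024) (nb (nat_lit 18)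 (nat_lit 14592) (nb (nat_lit 4) (nat_lit 3648) (nb (nat_lit 11) (nat_lit 1216) (nat_lit 0)))))))⟩, ⟨(nat_lit 14), (nat_lit 58), (nb (nat_lit 5) (nat_lit 29184) (nb (nat_lit 5) (nat_lit 27968) (nb (nat_lit 28) (nat_lit 15808) (nb (nat_lit 2) (nat_lit 13376) (nb (nat_lit 12) (nat_lit 2432) (nat_lit 3)))))), (nb (nat_lit 5) (nat_lit 30400) (nb (nat_lit 5) (nat_lit 26752) (nb (nat_lit 12) (nat_lit 17024) (nb (nat_lit 18) (nat_lit 14592) (nb (nat_lit 4) (nat_lit 3648) (nb (nat_lit 11) (nat_lit 1216) (nat_lit 0)))))))⟩, ⟨(nat_lit 16), (nat_lit 50), (nb (nat_lit 5) (nat_lit 29184) (nb (nat_lit 5) (nat_lit 27968) (nb (nat_lit 28) (nat_lit 15808) (nb (nat_lit 2) (nat_lit 13376) (nb (nat_lit 12) (nat_lit 2432) (nat_lit 3)))))), (nb (nat_lit 5) (nat_lit 30400) (nb (nat_lit 5) (nat_lit 26752) (nb (nat_lit 12) (nat_lit 17024) (nb (nat_lit 18) (nat_lit 14592) (nb (nat_lit 4) (nat_lit 3648) (nb (nat_lit 11) (nat_lit 1216) (nat_lit 0)))))))⟩, ⟨(nat_lit 18), (nat_lit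 52), (nb (nat_lit 5) (nat_lit 29184) (nb (nat_lit 5) (nat_lit 27968) (nb (nat_lit 28) (nat_lit 15808) (nb (nat_lit 2) (nat_lit 13376) (nb (nat_lit 12) (nat_lit 2432) (nat_lit 3)))))), (nb (nat_lit 5) (nat_lit 30400) (nb (nat_lit 5) (nat_lit 26752) (nb (nat_lit 12) (nat_lit 17024) (nb (nat_lit 18) (nat_lit 14592) (nb (nat_lit 4) (nat_lit 3648) (nb (nat_lit 11) (nat_lit 1216) (nat_lit 0)))))))⟩, ⟨(nat_lit 20), (nat_lit 46), (nb (nat_lit 2) (nat_lit 43776) (nb (nat_lit 1) (nat_lit 42560) (nb (nat_lit 4) (nat_lit 30400) (nb (nat_lit 2) (nat_lit 15808) (nb (nat_lit 3) (nat_lit 13376) (nat_lit 1)))))), (nb (nat_lit 4) (nat_lit 41344) (nb (nat_lit 3) (nat_lit 40128) (nb (nat_lit 3) (nat_lit 29184) (nb (nat_lit 8) (nat_lit 27968) (nb (nat_lit 1) (nat_lit 26752) (nb (nat_lit 10) (nat_lit 14592) (nb (nat_lit 2) (nat_lit 1216) (nat_lit 0))))))))⟩, ⟨(nat_lit 22), (nat_lit 48), (nb (nat_lit 2) (nat_lit 43776) (nb (nat_lit 1) (nat_lit 42560) (nb (nat_lit 4) (nat_lit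 30400) (nb (nat_lit 2) (nat_lit 15808) (nb (nat_lit 3) (nat_lit 13376) (nat_lit 1)))))), (nb (nat_lit 4) (nat_lit 41344) (nb (nat_lit 3) (nat_lit 40128) (nb (nat_lit 3) (nat_lit 29184) (nb (nat_lit 8) (nat_lit 27968) (nb (nat_lit 1) (nat_lit 26752) (nb (nat_lit 10) (nat_lit 14592) (nb (nat_lit 2) (nat_lit 1216) (nat_lit 0))))))))⟩, ⟨(nat_lit 24), (nat_lit 40), (nb (nat_lit 2) (nat_lit 43776) (nb (nat_lit 1) (nat_lit 42560) (nb (nat_lit 4) (nat_lit 30400) (nb (nat_lit 2) (nat_lit 15808) (nb (nat_lit 3) (nat_lit 13376) (nat_lit 1)))))), (nb (nat_lit 4) (nat_lit 41344) (nb (nat_lit 3) (nat_lit 40128) (nb (nat_lit 3) (nat_lit 29184) (nb (nat_lit 8) (nat_lit 27968) (nb (nat_lit 1) (nat_lit 26752) (nb (nat_lit 10) (nat_lit 14592) (nb (nat_lit 2) (nat_lit 1216) (nat_lit 0))))))))⟩, ⟨(nat_lit 26), (nat_lit 42), (nb (nat_lit 2) (nat_lit 43776) (nb (nat_lit 1) (nat_lit 42560) (nb (nat_lit 4) (nat_lit 30400) (nb (nat_lit 2) (nat_lit 15808) (nb (nat_lit 3) (nat_lit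 13376) (nat_lit 1)))))), (nb (nat_lit 4) (nat_lit 41344) (nb (nat_lit 3) (nat_lit 40128) (nb (nat_lit 3) (nat_lit 29184) (nb (nat_lit 8) (nat_lit 27968) (nb (nat_lit 1) (nat_lit 26752) (nb (nat_lit 10) (nat_lit 14592) (nb (nat_lit 2) (nat_lit 1216) (nat_lit 0))))))))⟩, ⟨(nat_lit 28), (nat_lit 44), (nb (nat_lit 2) (nat_lit 43776) (nb (nat_lit 1) (nat_lit 42560) (nb (nat_lit 4) (nat_lit 30400) (nb (nat_lit 2) (nat_lit 15808) (nb (nat_lit 3) (nat_lit 13376) (nat_lit 1)))))), (nb (nat_lit 4) (nat_lit 41344) (nb (nat_lit 3) (nat_lit 40128) (nb (nat_lit 3) (nat_lit 29184) (nb (nat_lit 8) (nat_lit 27968) (nb (nat_lit 1) (nat_lit 26752) (nb (nat_lit 10) (nat_lit 14592) (nb (nat_lit 2) (nat_lit 1216) (nat_lit 0))))))))⟩]⟩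
def e827 : En := ⟨(nat_lit 60), (nat_lit 4369), (nat_lit 23375), (nat_lit 24), [⟨(nat_lit 2), (nat_lit 40), (nb (nat_lit 0x271000000000000000000000000000000fa) (nat_lit 1216) (nat_lit 0x271000000000000000000000000000002710000000000000177)), (nb (nat_lit 0x7d00000000000000000000000000000177) (nat_lit 1280) (nb (nat_lit 250) (nat_lit 128) (nat_lit 0)))⟩, ⟨(nat_lit 4), (nat_lit 50), (nb (nat_lit 0x7d0000000000000271000000000000000000000000000001f4) (nat_lit 1216) (nb (nat_lit 0xfa000000000000000000000000000000fa) (nat_lit 64) (nat_lit 0))), (nat_lit 0x1f400000000000000000000000000000000)⟩, ⟨(nat_lit 6), (nat_lit 56), (nat_lit 0x1f40000000000000177000000000000000000000000000001f4), (nb (nat_lit 0x2ee000000000000017700000000000000fa00000000000001f4) (nat_lit 1216) (nb (nat_lit 125) (nat_lit 64) (nat_lit 0)))⟩, ⟨(nat_lit 8), (nat_lit 48), (nb (nat_lit 250) (nat_lit 1344) (nat_lit 0x36b00000000000000fa0000000000000271000000000000036b)), (nb (nat_lit 0x271000000000000000000000000000002710000000000000177)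 (nat_lit 1216) (nat_lit 0))⟩, ⟨(nat_lit 10), (nat_lit 18), (nb (nat_lit 0x465000000000000000000000000000003e800000000000001f4) (nat_lit 1216) (nat_lit 0)), (nb (nat_lit 250) (nat_lit 1344) (nat_lit 0x5dc0000000000000177000000000000036b00000000000004e2))⟩, ⟨(nat_lit 14), (nat_lit 28), (nb (nat_lit 0x7d00000000000000fa000000000000007d) (nat_lit 1280) (nat_lit 125)), (nat_lit 0x7d000000000000007d00000000000000000000000000000000)⟩, ⟨(nat_lit 20), (nat_lit 26), (nb (nat_lit 0xfa0000000000000000000000000000017700000000000000fa) (nat_lit 1216) (nat_lit 0)), (nat_lit 0x17700000000000000fa00000000000001770000000000000177)⟩]⟩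
def e828 : En := ⟨(nat_lit 62), (nat_lit 65809), (nat_lit 23375), (nat_lit 24), [⟨(nat_lit 0), (nat_lit 40), (nb (nat_lit 250) (nat_lit 1344) (nat_lit 0x36b00000000000000fa0000000000000271000000000000036b)), (nb (nat_lit 0x271000000000000000000000000000002710000000000000177) (nat_lit 1216) (nat_lit 0))⟩, ⟨(nat_lit 4), (nat_lit 42), (nb (nat_lit 0x271000000000000000000000000000000fa) (nat_lit 1216) (nat_lit 0x271000000000000000000000000000002710000000000000177)), (nb (nat_lit 0x7d00000000000000000000000000000177) (nat_lit 1280) (nb (nat_lit 250) (nat_lit 128) (nat_lit 0)))⟩, ⟨(nat_lit 6), (nat_lit 52), (nb (nat_lit 0x7d0000000000000271000000000000000000000000000001f4) (nat_lit 1216) (nb (nat_lit 0xfa000000000000000000000000000000fa) (nat_lit 64) (nat_lit 0))), (nat_lit 0x1f400000000000000000000000000000000)⟩, ⟨(nat_lit 8), (nat_lit 58), (nat_lit 0x1f40000000000000177000000000000000000000000000001f4), (nb (nat_lit 0x2ee000000000000017700000000000000fa00000000000001f4)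 (nat_lit 1216) (nb (nat_lit 125) (nat_lit 64) (nat_lit 0)))⟩, ⟨(nat_lit 10), (nat_lit 12), (nb (nat_lit 250) (nat_lit 1344) (nat_lit 0x5dc0000000000000177000000000000036b00000000000004e2)), (nb (nat_lit 0x465000000000000000000000000000003e800000000000001f4) (nat_lit 1216) (nat_lit 0))⟩, ⟨(nat_lit 16), (nat_lit 20), (nb (nat_lit 0x7d00000000000000fa000000000000007d) (nat_lit 1280) (nat_lit 125)), (nat_lit 0x7d000000000000007d00000000000000000000000000000000)⟩, ⟨(nat_lit 22), (nat_lit 28), (nb (nat_lit 0xfa0000000000000000000000000000017700000000000000fa) (nat_lit 1216) (nat_lit 0)), (nat_lit 0x17700000000000000fa00000000000001770000000000000177)⟩]⟩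
def e829 : En := ⟨(nat_lit 64), (nat_lit 69649), (nat_lit 23375), (nat_lit 24), [⟨(nat_lit 0), (nat_lit 50), (nat_lit 0x1f40000000000000177000000000000000000000000000001f4), (nb (nat_lit 0x2ee000000000000017700000000000000fa00000000000001f4) (nat_lit 1216) (nb (nat_lit 125) (nat_lit 64) (nat_lit 0)))⟩, ⟨(nat_lit 2), (nat_lit 42), (nb (nat_lit 250) (nat_lit 1344) (nat_lit 0x36b00000000000000fa0000000000000271000000000000036b)), (nb (nat_lit 0x271000000000000000000000000000002710000000000000177) (nat_lit 1216) (nat_lit 0))⟩, ⟨(nat_lit 6), (nat_lit 44), (nb (nat_lit 0x271000000000000000000000000000000fa) (nat_lit 1216) (nat_lit 0x271000000000000000000000000000002710000000000000177)), (nb (nat_lit 0x7d00000000000000000000000000000177) (nat_lit 1280) (nb (nat_lit 250) (nat_lit 128) (nat_lit 0)))⟩, ⟨(nat_lit 8), (nat_lit 54), (nb (nat_lit 0x7d0000000000000271000000000000000000000000000001f4) (nat_lit 1216) (nb (nat_lit 0xfa000000000000000000000000000000fa)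 (nat_lit 64) (nat_lit 0))), (nat_lit 0x1f400000000000000000000000000000000)⟩, ⟨(nat_lit 12), (nat_lit 14), (nb (nat_lit 250) (nat_lit 1344) (nat_lit 0x5dc0000000000000177000000000000036b00000000000004e2)), (nb (nat_lit 0x465000000000000000000000000000003e800000000000001f4) (nat_lit 1216) (nat_lit 0))⟩, ⟨(nat_lit 18), (nat_lit 22), (nb (nat_lit 0x7d00000000000000fa000000000000007d) (nat_lit 1280) (nat_lit 125)), (nat_lit 0x7d000000000000007d00000000000000000000000000000000)⟩, ⟨(nat_lit 20), (nat_lit 24), (nat_lit 0x17700000000000000fa00000000000001770000000000000177), (nb (nat_lit 0xfa0000000000000000000000000000017700000000000000fa) (nat_lit 1216) (nat_lit 0))⟩]⟩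
def e830 : En := ⟨(nat_lit 66), (nat_lit 69889), (nat_lit 23375), (nat_lit 24), [⟨(nat_lit 0), (nat_lit 56), (nb (nat_lit 0x7d0000000000000271000000000000000000000000000001f4) (nat_lit 1216) (nb (nat_lit 0xfa000000000000000000000000000000fa) (nat_lit 64) (nat_lit 0))), (nat_lit 0x1f400000000000000000000000000000000)⟩, ⟨(nat_lit 2), (nat_lit 52), (nat_lit 0x1f40000000000000177000000000000000000000000000001f4), (nb (nat_lit 0x2ee000000000000017700000000000000fa00000000000001f4) (nat_lit 1216) (nb (nat_lit 125) (nat_lit 64) (nat_lit 0)))⟩, ⟨(nat_lit 4), (nat_lit 44), (nb (nat_lit 250) (nat_lit 1344) (nat_lit 0x36b00000000000000fa0000000000000271000000000000036b)), (nb (nat_lit 0x271000000000000000000000000000002710000000000000177) (nat_lit 1216) (nat_lit 0))⟩, ⟨(nat_lit 8), (nat_lit 46), (nb (nat_lit 0x271000000000000000000000000000000fa) (nat_lit 1216) (nat_lit 0x271000000000000000000000000000002710000000000000177)), (nb (nat_lit 0x7d00000000000000000000000000000177)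 (nat_lit 1280) (nb (nat_lit 250) (nat_lit 128) (nat_lit 0)))⟩, ⟨(nat_lit 10), (nat_lit 24), (nb (nat_lit 0x7d00000000000000fa000000000000007d) (nat_lit 1280) (nat_lit 125)), (nat_lit 0x7d000000000000007d00000000000000000000000000000000)⟩, ⟨(nat_lit 14), (nat_lit 16), (nb (nat_lit 250) (nat_lit 1344) (nat_lit 0x5dc0000000000000177000000000000036b00000000000004e2)), (nb (nat_lit 0x465000000000000000000000000000003e800000000000001f4) (nat_lit 1216) (nat_lit 0))⟩, ⟨(nat_lit 22), (nat_lit 26), (nat_lit 0x17700000000000000fa00000000000001770000000000000177), (nb (nat_lit 0xfa0000000000000000000000000000017700000000000000fa) (nat_lit 1216) (nat_lit 0))⟩]⟩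
def e831 : En := ⟨(nat_lit 68), (nat_lit 69904), (nat_lit 23375), (nat_lit 24), [⟨(nat_lit 0), (nat_lit 48), (nb (nat_lit 0x271000000000000000000000000000000fa) (nat_lit 1216) (nat_lit 0x271000000000000000000000000000002710000000000000177)), (nb (nat_lit 0x7d00000000000000000000000000000177) (nat_lit 1280) (nb (nat_lit 250) (nat_lit 128) (nat_lit 0)))⟩, ⟨(nat_lit 2), (nat_lit 58), (nb (nat_lit 0x7d0000000000000271000000000000000000000000000001f4) (nat_lit 1216) (nb (nat_lit 0xfa000000000000000000000000000000fa) (nat_lit 64) (nat_lit 0))), (nat_lit 0x1f400000000000000000000000000000000)⟩, ⟨(nat_lit 4), (nat_lit 54), (nat_lit 0x1f40000000000000177000000000000000000000000000001f4), (nb (nat_lit 0x2ee000000000000017700000000000000fa00000000000001f4) (nat_lit 1216) (nb (nat_lit 125) (nat_lit 64) (nat_lit 0)))⟩, ⟨(nat_lit 6), (nat_lit 46), (nb (nat_lit 250) (nat_lit 1344) (nat_lit 0x36b00000000000000fa0000000000000271000000000000036b)), (nb (nat_lit 0x271000000000000000000000000000002710000000000000177)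 (nat_lit 1216) (nat_lit 0))⟩, ⟨(nat_lit 12), (nat_lit 26), (nb (nat_lit 0x7d00000000000000fa000000000000007d) (nat_lit 1280) (nat_lit 125)), (nat_lit 0x7d000000000000007d00000000000000000000000000000000)⟩, ⟨(nat_lit 16), (nat_lit 18), (nb (nat_lit 250) (nat_lit 1344) (nat_lit 0x5dc0000000000000177000000000000036b00000000000004e2)), (nb (nat_lit 0x465000000000000000000000000000003e800000000000001f4) (nat_lit 1216) (nat_lit 0))⟩, ⟨(nat_lit 24), (nat_lit 28), (nat_lit 0x17700000000000000fa00000000000001770000000000000177), (nb (nat_lit 0xfa0000000000000000000000000000017700000000000000fa) (nat_lit 1216) (nat_lit 0))⟩]⟩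
def e832 : En := ⟨(nat_lit 40), (nat_lit 273), (nat_lit 9500), (nat_lit 24), [⟨(nat_lit 4), (nat_lit 20), (nb (nat_lit 0x190000000000000000000000000000000c80000000000000064) (nat_lit 1216) (nb (nat_lit 50) (nat_lit 128) (nat_lit 0))), (nb (nat_lit 200) (nat_lit 1344) (nat_lit 0x1db000000000000000000000000000000af0000000000000190))⟩, ⟨(nat_lit 6), (nat_lit 10), (nb (nat_lit 0x36b000000000000000000000000000001f40000000000000271) (nat_lit 1216) (nat_lit 0)), (nb (nat_lit 125) (nat_lit 1344) (nat_lit 0x36b00000000000000fa000000000000017700000000000003e8))⟩, ⟨(nat_lit 8), (nat_lit 28), (nb (nat_lit 0x1db000000000000004b000000000000012c000000000000020d) (nat_lit 1216) (nat_lit 0)), (nat_lit 0x190000000000000012c00000000000000c80000000000000258)⟩]⟩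
def e833 : En := ⟨(nat_lit 42), (nat_lit 65553), (nat_lit 9500), (nat_lit 24), [⟨(nat_lit 0), (nat_lit 20), (nb (nat_lit 0x1db000000000000004b000000000000012c000000000000020d) (nat_lit 1216) (nat_lit 0)), (nat_lit 0x190000000000000012c00000000000000c80000000000000258)⟩, ⟨(nat_lit 6), (nat_lit 22), (nb (nat_lit 0x190000000000000000000000000000000c80000000000000064) (nat_lit 1216) (nb (nat_lit 50) (nat_lit 128) (nat_lit 0))), (nb (nat_lit 200) (nat_lit 1344) (nat_lit 0x1db000000000000000000000000000000af0000000000000190))⟩, ⟨(nat_lit 8), (nat_lit 12), (nb (nat_lit 0x36b000000000000000000000000000001f40000000000000271) (nat_lit 1216) (nat_lit 0)), (nb (nat_lit 125) (nat_lit 1344) (nat_lit 0x36b00000000000000fa000000000000017700000000000003e8))⟩]⟩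
def e834 : En := ⟨(nat_lit 44), (nat_lit 69633), (nat_lit 9500), (nat_lit 24), [⟨(nat_lit 0), (nat_lit 14), (nb (nat_lit 0x36b000000000000000000000000000001f40000000000000271) (nat_lit 1216) (nat_lit 0)), (nb (nat_lit 125) (nat_lit 1344) (nat_lit 0x36b00000000000000fa000000000000017700000000000003e8))⟩, ⟨(nat_lit 2), (nat_lit 22), (nb (nat_lit 0x1db000000000000004b000000000000012c000000000000020d) (nat_lit 1216) (nat_lit 0)), (nat_lit 0x190000000000000012c00000000000000c80000000000000258)⟩, ⟨(nat_lit 8), (nat_lit 24), (nb (nat_lit 0x190000000000000000000000000000000c80000000000000064) (nat_lit 1216) (nb (nat_lit 50) (nat_lit 128) (nat_lit 0))), (nb (nat_lit 200) (nat_lit 1344) (nat_lit 0x1db000000000000000000000000000000af0000000000000190))⟩]⟩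
def e835 : En := ⟨(nat_lit 46), (nat_lit 69888), (nat_lit 9500), (nat_lit 24), [⟨(nat_lit 0), (nat_lit 26), (nb (nat_lit 0x190000000000000000000000000000000c80000000000000064) (nat_lit 1216) (nb (nat_lit 50) (nat_lit 128) (nat_lit 0))), (nb (nat_lit 200) (nat_lit 1344) (nat_lit 0x1db000000000000000000000000000000af0000000000000190))⟩, ⟨(nat_lit 2), (nat_lit 16), (nb (nat_lit 0x36b000000000000000000000000000001f40000000000000271) (nat_lit 1216) (nat_lit 0)), (nb (nat_lit 125) (nat_lit 1344) (nat_lit 0x36b00000000000000fa000000000000017700000000000003e8))⟩, ⟨(nat_lit 4), (nat_lit 24), (nb (nat_lit 0x1db000000000000004b000000000000012c000000000000020d) (nat_lit 1216) (nat_lit 0)), (nat_lit 0x190000000000000012c00000000000000c80000000000000258)⟩]⟩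
def e836 : En := ⟨(nat_lit 48), (nat_lit 4368), (nat_lit 9500), (nat_lit 24), [⟨(nat_lit 2), (nat_lit 28), (nb (nat_lit 0x190000000000000000000000000000000c80000000000000064) (nat_lit 1216) (nb (nat_lit 50) (nat_lit 128) (nat_lit 0))), (nb (nat_lit 200) (nat_lit 1344) (nat_lit 0x1db000000000000000000000000000000af0000000000000190))⟩, ⟨(nat_lit 4), (nat_lit 18), (nb (nat_lit 0x36b000000000000000000000000000001f40000000000000271) (nat_lit 1216) (nat_lit 0)), (nb (nat_lit 125) (nat_lit 1344) (nat_lit 0x36b00000000000000fa000000000000017700000000000003e8))⟩, ⟨(nat_lit 6), (nat_lit 26), (nb (nat_lit 0x1db000000000000004b000000000000012c000000000000020d) (nat_lit 1216) (nat_lit 0)), (nat_lit 0x190000000000000012c00000000000000c80000000000000258)⟩]⟩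
def e837 : En := ⟨(nat_lit 50), (nat_lit 4113), (nat_lit 5350), (nat_lit 24), [⟨(nat_lit 2), (nat_lit 20), (nb (nat_lit 0x190000000000000000000000000000000c80000000000000064) (nat_lit 1216) (nb (nat_lit 50) (nat_lit 128) (nat_lit 0))), (nb (nat_lit 200) (nat_lit 1344) (nat_lit 0x1db000000000000000000000000000000af0000000000000190))⟩, ⟨(nat_lit 6), (nat_lit 14), (nat_lit 0xfa00000000000000c8000000000000000000000000000001c2), (nb (nat_lit 0x190000000000000006400000000000000640000000000000190) (nat_lit 1216) (nb (nat_lit 25) (nat_lit 64) (nat_lit 0)))⟩, ⟨(nat_lit 8), (nat_lit 18), (nb (nat_lit 0x12c0000000000000000000000000000012c) (nat_lit 1216) (nb (nat_lit 0xe1000000000000000000000000000000c8) (nat_lit 64) (nat_lit 0))), (nb (nat_lit 100) (nat_lit 1280) (nat_lit 0xfa00000000000000000000000000000032))⟩]⟩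
def e838 : En := ⟨(nat_lit 52), (nat_lit 65793), (nat_lit 5350), (nat_lit 24), [⟨(nat_lit 0), (nat_lit 10), (nb (nat_lit 0x12c0000000000000000000000000000012c) (nat_lit 1216) (nb (nat_lit 0xe1000000000000000000000000000000c8) (nat_lit 64) (nat_lit 0))), (nb (nat_lit 100) (nat_lit 1280) (nat_lit 0xfa00000000000000000000000000000032))⟩, ⟨(nat_lit 4), (nat_lit 22), (nb (nat_lit 0x190000000000000000000000000000000c80000000000000064) (nat_lit 1216) (nb (nat_lit 50) (nat_lit 128) (nat_lit 0))), (nb (nat_lit 200) (nat_lit 1344) (nat_lit 0x1db000000000000000000000000000000af0000000000000190))⟩, ⟨(nat_lit 8), (nat_lit 16), (nat_lit 0xfa00000000000000c8000000000000000000000000000001c2), (nb (nat_lit 0x190000000000000006400000000000000640000000000000190) (nat_lit 1216) (nb (nat_lit 25) (nat_lit 64) (nat_lit 0)))⟩]⟩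
def e839 : En := ⟨(nat_lit 54), (nat_lit 69648), (nat_lit 5350), (nat_lit 24), [⟨(nat_lit 0), (nat_lit 18), (nat_lit 0xfa00000000000000c8000000000000000000000000000001c2), (nb (nat_lit 0x190000000000000006400000000000000640000000000000190) (nat_lit 1216) (nb (nat_lit 25) (nat_lit 64) (nat_lit 0)))⟩, ⟨(nat_lit 2), (nat_lit 12), (nb (nat_lit 0x12c0000000000000000000000000000012c) (nat_lit 1216) (nb (nat_lit 0xe1000000000000000000000000000000c8) (nat_lit 64) (nat_lit 0))), (nb (nat_lit 100) (nat_lit 1280) (nat_lit 0xfa00000000000000000000000000000032))⟩, ⟨(nat_lit 6), (nat_lit 24), (nb (nat_lit 0x190000000000000000000000000000000c80000000000000064) (nat_lit 1216) (nb (nat_lit 50) (nat_lit 128) (nat_lit 0))), (nb (nat_lit 200) (nat_lit 1344) (nat_lit 0x1db000000000000000000000000000000af0000000000000190))⟩]⟩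
def e840 : En := ⟨(nat_lit 56), (nat_lit 4353), (nat_lit 5350), (nat_lit 24), [⟨(nat_lit 2), (nat_lit 10), (nat_lit 0xfa00000000000000c8000000000000000000000000000001c2), (nb (nat_lit 0x190000000000000006400000000000000640000000000000190) (nat_lit 1216) (nb (nat_lit 25) (nat_lit 64) (nat_lit 0)))⟩, ⟨(nat_lit 4), (nat_lit 14), (nb (nat_lit 0x12c0000000000000000000000000000012c) (nat_lit 1216) (nb (nat_lit 0xe1000000000000000000000000000000c8) (nat_lit 64) (nat_lit 0))), (nb (nat_lit 100) (nat_lit 1280) (nat_lit 0xfa00000000000000000000000000000032))⟩, ⟨(nat_lit 8), (nat_lit 26), (nb (nat_lit 0x190000000000000000000000000000000c80000000000000064) (nat_lit 1216) (nb (nat_lit 50) (nat_lit 128) (nat_lit 0))), (nb (nat_lit 200) (nat_lit 1344) (nat_lit 0x1db000000000000000000000000000000af0000000000000190))⟩]⟩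
def e841 : En := ⟨(nat_lit 58), (nat_lit 65808), (nat_lit 5350), (nat_lit 24), [⟨(nat_lit 0), (nat_lit 28), (nb (nat_lit 0x190000000000000000000000000000000c80000000000000064) (nat_lit 1216) (nb (nat_lit 50) (nat_lit 128) (nat_lit 0))), (nb (nat_lit 200) (nat_lit 1344) (nat_lit 0x1db000000000000000000000000000000af0000000000000190))⟩, ⟨(nat_lit 4), (nat_lit 12), (nat_lit 0xfa00000000000000c8000000000000000000000000000001c2), (nb (nat_lit 0x190000000000000006400000000000000640000000000000190) (nat_lit 1216) (nb (nat_lit 25) (nat_lit 64) (nat_lit 0)))⟩, ⟨(nat_lit 6), (nat_lit 16), (nb (nat_lit 0x12c0000000000000000000000000000012c) (nat_lit 1216) (nb (nat_lit 0xe1000000000000000000000000000000c8) (nat_lit 64) (nat_lit 0))), (nb (nat_lit 100) (nat_lit 1280) (nat_lit 0xfa00000000000000000000000000000032))⟩]⟩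
def e842 : En := ⟨(nat_lit 10), (nat_lit 257), (nat_lit 2000), (nat_lit 24), [⟨(nat_lit 4), (nat_lit 8), (nb (nat_lit 0x190000000000000000000000000000000c80000000000000064) (nat_lit 1216) (nb (nat_lit 50) (nat_lit 128) (nat_lit 0))), (nb (nat_lit 200) (nat_lit 1344) (nat_lit 0x1db000000000000000000000000000000af0000000000000190))⟩]⟩
def e843 : En := ⟨(nat_lit 12), (nat_lit 65552), (nat_lit 2000), (nat_lit 24), [⟨(nat_lit 0), (nat_lit 6), (nb (nat_lit 200) (nat_lit 1344) (nat_lit 0x1db000000000000000000000000000000af0000000000000190)), (nb (nat_lit 0x190000000000000000000000000000000c80000000000000064) (nat_lit 1216) (nb (nat_lit 50) (nat_lit 128) (nat_lit 0)))⟩]⟩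
def e844 : En := ⟨(nat_lit 14), (nat_lit 4097), (nat_lit 2000), (nat_lit 24), [⟨(nat_lit 2), (nat_lit 8), (nb (nat_lit 200) (nat_lit 1344) (nat_lit 0x1db000000000000000000000000000000af0000000000000190)), (nb (nat_lit 0x190000000000000000000000000000000c80000000000000064) (nat_lit 1216) (nb (nat_lit 50) (nat_lit 128) (nat_lit 0)))⟩]⟩
def e845 : En := ⟨(nat_lit 16), (nat_lit 65792), (nat_lit 2000), (nat_lit 24), [⟨(nat_lit 0), (nat_lit 4), (nb (nat_lit 0x190000000000000000000000000000000c80000000000000064) (nat_lit 1216) (nb (nat_lit 50) (nat_lit 128) (nat_lit 0))), (nb (nat_lit 200) (nat_lit 1344) (nat_lit 0x1db000000000000000000000000000000af0000000000000190))⟩]⟩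
def e846 : En := ⟨(nat_lit 18), (nat_lit 4112), (nat_lit 2000), (nat_lit 24), [⟨(nat_lit 2), (nat_lit 6), (nb (nat_lit 0x190000000000000000000000000000000c80000000000000064) (nat_lit 1216) (nb (nat_lit 50) (nat_lit 128) (nat_lit 0))), (nb (nat_lit 200) (nat_lit 1344) (nat_lit 0x1db000000000000000000000000000000af0000000000000190))⟩]⟩
def e847 : En := ⟨(nat_lit 20), (nat_lit 17), (nat_lit 2000), (nat_lit 24), [⟨(nat_lit 6), (nat_lit 8), (nb (nat_lit 0x190000000000000000000000000000000c80000000000000064) (nat_lit 1216) (nb (nat_lit 50) (nat_lit 128) (nat_lit 0))), (nb (nat_lit 200) (nat_lit 1344) (nat_lit 0x1db000000000000000000000000000000af0000000000000190))⟩]⟩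
def e848 : En := ⟨(nat_lit 22), (nat_lit 65537), (nat_lit 2000), (nat_lit 24), [⟨(nat_lit 0), (nat_lit 8), (nb (nat_lit 200) (nat_lit 1344) (nat_lit 0x1db000000000000000000000000000000af0000000000000190)), (nb (nat_lit 0x190000000000000000000000000000000c80000000000000064) (nat_lit 1216) (nb (nat_lit 50) (nat_lit 128) (nat_lit 0)))⟩]⟩
def e849 : En := ⟨(nat_lit 24), (nat_lit 69632), (nat_lit 2000), (nat_lit 24), [⟨(nat_lit 0), (nat_lit 2), (nb (nat_lit 0x190000000000000000000000000000000c80000000000000064) (nat_lit 1216) (nb (nat_lit 50) (nat_lit 128) (nat_lit 0))), (nb (nat_lit 200) (nat_lit 1344) (nat_lit 0x1db000000000000000000000000000000af0000000000000190))⟩]⟩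
def e850 : En := ⟨(nat_lit 26), (nat_lit 4352), (nat_lit 2000), (nat_lit 24), [⟨(nat_lit 2), (nat_lit 4), (nb (nat_lit 0x190000000000000000000000000000000c80000000000000064) (nat_lit 1216) (nb (nat_lit 50) (nat_lit 128) (nat_lit 0))), (nb (nat_lit 200) (nat_lit 1344) (nat_lit 0x1db000000000000000000000000000000af0000000000000190))⟩]⟩
def e851 : En := ⟨(nat_lit 28), (nat_lit 272), (nat_lit 2000), (nat_lit 24), [⟨(nat_lit 4), (nat_lit 6), (nb (nat_lit 0x190000000000000000000000000000000c80000000000000064) (nat_lit 1216) (nb (nat_lit 50) (nat_lit 128) (nat_lit 0))), (nb (nat_lit 200) (nat_lit 1344) (nat_lit 0x1db000000000000000000000000000000af0000000000000190))⟩]⟩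
def e852 : En := ⟨(nat_lit 71), (nat_lit 69905), (nat_lit 50625), (nat_lit 24), [⟨(nat_lit 0), (nat_lit 60), (nb (nat_lit 0x190000000000000000000000000000000c80000000000000064) (nat_lit 1216) (nb (nat_lit 50) (nat_lit 128) (nat_lit 0))), (nb (nat_lit 200) (nat_lit 1344) (nat_lit 0x1db000000000000000000000000000000af0000000000000190))⟩, ⟨(nat_lit 2), (nat_lit 62), (nb (nat_lit 0x190000000000000000000000000000000c80000000000000064) (nat_lit 1216) (nb (nat_lit 50) (nat_lit 128) (nat_lit 0))), (nb (nat_lit 200) (nat_lit 1344) (nat_lit 0x1db000000000000000000000000000000af0000000000000190))⟩, ⟨(nat_lit 4), (nat_lit 64), (nb (nat_lit 0x190000000000000000000000000000000c80000000000000064) (nat_lit 1216) (nb (nat_lit 50) (nat_lit 128) (nat_lit 0))), (nb (nat_lit 200) (nat_lit 1344) (nat_lit 0x1db000000000000000000000000000000af0000000000000190))⟩, ⟨(nat_lit 6), (nat_lit 66), (nb (nat_lit 0x190000000000000000000000000000000c80000000000000064) (nat_lit 1216)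 (nb (nat_lit 50) (nat_lit 128) (nat_lit 0))), (nb (nat_lit 200) (nat_lit 1344) (nat_lit 0x1db000000000000000000000000000000af0000000000000190))⟩, ⟨(nat_lit 8), (nat_lit 68), (nb (nat_lit 0x190000000000000000000000000000000c80000000000000064) (nat_lit 1216) (nb (nat_lit 50) (nat_lit 128) (nat_lit 0))), (nb (nat_lit 200) (nat_lit 1344) (nat_lit 0x1db000000000000000000000000000000af0000000000000190))⟩, ⟨(nat_lit 10), (nat_lit 54), (nb (nat_lit 0x36b00000000000003e800000000000000fa00000000000003e8) (nat_lit 1216) (nb (nat_lit 375) (nat_lit 64) (nat_lit 0))), (nat_lit 0xfa000000000000036b000000000000000000000000000001f4)⟩, ⟨(nat_lit 12), (nat_lit 56), (nb (nat_lit 0x36b00000000000003e800000000000000fa00000000000003e8) (nat_lit 1216) (nb (nat_lit 375) (nat_lit 64) (nat_lit 0))), (nat_lit 0xfa000000000000036b000000000000000000000000000001f4)⟩, ⟨(nat_lit 14), (nat_lit 58), (nb (nat_lit 0x36b00000000000003e800000000000000fa00000000000003e8) (nat_lit 1216)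 (nb (nat_lit 375) (nat_lit 64) (nat_lit 0))), (nat_lit 0xfa000000000000036b000000000000000000000000000001f4)⟩, ⟨(nat_lit 16), (nat_lit 50), (nb (nat_lit 0x36b00000000000003e800000000000000fa00000000000003e8) (nat_lit 1216) (nb (nat_lit 375) (nat_lit 64) (nat_lit 0))), (nat_lit 0xfa000000000000036b000000000000000000000000000001f4)⟩, ⟨(nat_lit 18), (nat_lit 52), (nb (nat_lit 0x36b00000000000003e800000000000000fa00000000000003e8) (nat_lit 1216) (nb (nat_lit 375) (nat_lit 64) (nat_lit 0))), (nat_lit 0xfa000000000000036b000000000000000000000000000001f4)⟩, ⟨(nat_lit 20), (nat_lit 46), (nb (nat_lit 0x1f4000000000000017700000000000000fa0000000000000271) (nat_lit 1216) (nat_lit 0)), (nat_lit 0xfa00000000000001f4000000000000000000000000000001f4)⟩, ⟨(nat_lit 22), (nat_lit 48), (nb (nat_lit 0x1f4000000000000017700000000000000fa0000000000000271) (nat_lit 1216) (nat_lit 0)), (nat_lit 0xfa00000000000001f4000000000000000000000000000001f4)⟩, ⟨(nat_lit 24), (nat_lit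 40), (nb (nat_lit 0x1f4000000000000017700000000000000fa0000000000000271) (nat_lit 1216) (nat_lit 0)), (nat_lit 0xfa00000000000001f4000000000000000000000000000001f4)⟩, ⟨(nat_lit 26), (nat_lit 42), (nb (nat_lit 0x1f4000000000000017700000000000000fa0000000000000271) (nat_lit 1216) (nat_lit 0)), (nat_lit 0xfa00000000000001f4000000000000000000000000000001f4)⟩, ⟨(nat_lit 28), (nat_lit 44), (nb (nat_lit 0x1f4000000000000017700000000000000fa0000000000000271) (nat_lit 1216) (nat_lit 0)), (nat_lit 0xfa00000000000001f4000000000000000000000000000001f4)⟩]⟩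
def e853 : En := ⟨(nat_lit 60), (nat_lit 4369), (nat_lit 0x13b54c), (nat_lit 216), [⟨(nat_lit 2), (nat_lit 40), (nb (nat_lit 0xfb700000000000030d700000000000012eb) (nat_lit 3712) (nb (nat_lit 0x1e390000000000003108) (nat_lit 2432) (nb (nat_lit 0x3b2900000000000030f2) (nat_lit 1344) (nat_lit 0xf95000000000000257b000000000000101b)))), (nb (nat_lit 6382) (nat_lit 3648) (nb (nat_lit 0x1d9400000000000051fa) (nat_lit 2560) (nb (nat_lit 0x3567000000000000148f) (nat_lit 1216) (nb (nat_lit 5690) (nat_lit 192) (nat_lit 0)))))⟩, ⟨(nat_lit 4), (nat_lit 50), (nb (nat_lit 3885) (nat_lit 3840) (nb (nat_lit 0x22dc000000000000300e00000000000075ae0000000000007592) (nat_lit 2432) (nb (nat_lit 0xce70000000000001ee9000000000000306a) (nat_lit 64) (nat_lit 0)))), (nb (nat_lit 0x54a0000000000001b8d00000000000033ac) (nat_lit 3648) (nb (nat_lit 0x2af60000000000002e6900000000000087ca0000000000003b3c) (nat_lit 1216) (nat_lit 955)))⟩, ⟨(nat_lit 6), (nat_lit 56), (nb (nat_lit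 6810) (nat_lit 3648) (nb (nat_lit 0x33700000000000006d8c) (nat_lit 2560) (nb (nat_lit 0x320c0000000000000ee0) (nat_lit 1216) (nb (nat_lit 6175) (nat_lit 192) (nat_lit 0))))), (nb (nat_lit 0x161a00000000000042cf000000000000171a) (nat_lit 3712) (nb (nat_lit 0x1bd90000000000002867) (nat_lit 2432) (nb (nat_lit 0x552700000000000036c5) (nat_lit 1344) (nat_lit 0x1b8d0000000000002aba0000000000001643))))⟩, ⟨(nat_lit 8), (nat_lit 48), (nb (nat_lit 0x8dc00000000000040470000000000002b0c00000000000003ac) (nat_lit 3648) (nb (nat_lit 0x666a0000000000005f4600000000000017190000000000000cbf) (nat_lit 1216) (nat_lit 0xece000000000000165f))), (nb (nat_lit 0x3ae900000000000087bd00000000000029c40000000000000fa4) (nat_lit 2432) (nb (nat_lit 0x25b5000000000000032b) (nat_lit 128) (nat_lit 0)))⟩, ⟨(nat_lit 10), (nat_lit 18), (nb (nat_lit 1497) (nat_lit 3840) (nb (nat_lit 0x2a94000000000000667600000000000055150000000000003be9) (nat_lit 2432) (nb (nat_lit 0x213c0000000000001b4c000000000000102e)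 (nat_lit 64) (nat_lit 0)))), (nb (nat_lit 0x24290000000000002a490000000000001c6a) (nat_lit 3648) (nb (nat_lit 0x4c2100000000000059880000000000004f0800000000000020fe) (nat_lit 1216) (nat_lit 3502)))⟩, ⟨(nat_lit 14), (nat_lit 28), (nb (nat_lit 0x17070000000000002644) (nat_lit 3776) (nb (nat_lit 0x5902000000000000612b) (nat_lit 2432) (nb (nat_lit 0x1a9400000000000005a9) (nat_lit 1344) (nat_lit 0x244a00000000000038b90000000000000b3a)))), (nb (nat_lit 0x2a90000000000002fd0) (nat_lit 3648) (nb (nat_lit 0xace00000000000026fc) (nat_lit 2560) (nb (nat_lit 0x73390000000000002e2d) (nat_lit 1216) (nb (nat_lit 1805) (nat_lit 192) (nat_lit 0)))))⟩, ⟨(nat_lit 20), (nat_lit 26), (nb (nat_lit 0x407000000000000082080000000000005775000000000000448a) (nat_lit 2432) (nb (nat_lit 0x23210000000000000f540000000000000aef) (nat_lit 64) (nat_lit 0))), (nb (nat_lit 0x8a00000000000036210000000000002e780000000000001abe) (nat_lit 3648) (nb (nat_lit 0x661f0000000000005f5b000000000000526300000000000026ad)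 (nat_lit 1216) (nat_lit 5078)))⟩]⟩
def e854 : En := ⟨(nat_lit 62), (nat_lit 65809), (nat_lit 0x13b54c), (nat_lit 216), [⟨(nat_lit 0), (nat_lit 40), (nb (nat_lit 0x8dc00000000000040470000000000002b0c00000000000003ac) (nat_lit 3648) (nb (nat_lit 0x666a0000000000005f4600000000000017190000000000000cbf) (nat_lit 1216) (nat_lit 0xece000000000000165f))), (nb (nat_lit 0x3ae900000000000087bd00000000000029c40000000000000fa4) (nat_lit 2432) (nb (nat_lit 0x25b5000000000000032b) (nat_lit 128) (nat_lit 0)))⟩, ⟨(nat_lit 4), (nat_lit 42), (nb (nat_lit 0xfb700000000000030d700000000000012eb) (nat_lit 3712) (nb (nat_lit 0x1e390000000000003108) (nat_lit 2432) (nb (nat_lit 0x3b2900000000000030f2) (nat_lit 1344) (nat_lit 0xf95000000000000257b000000000000101b)))), (nb (nat_lit 6382) (nat_lit 3648) (nb (nat_lit 0x1d9400000000000051fa) (nat_lit 2560) (nb (nat_lit 0x3567000000000000148f) (nat_lit 1216) (nb (nat_lit 5690) (nat_lit 192) (nat_lit 0)))))⟩, ⟨(nat_lit 6), (nat_lit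 52), (nb (nat_lit 3885) (nat_lit 3840) (nb (nat_lit 0x22dc000000000000300e00000000000075ae0000000000007592) (nat_lit 2432) (nb (nat_lit 0xce70000000000001ee9000000000000306a) (nat_lit 64) (nat_lit 0)))), (nb (nat_lit 0x54a0000000000001b8d00000000000033ac) (nat_lit 3648) (nb (nat_lit 0x2af60000000000002e6900000000000087ca0000000000003b3c) (nat_lit 1216) (nat_lit 955)))⟩, ⟨(nat_lit 8), (nat_lit 58), (nb (nat_lit 6810) (nat_lit 3648) (nb (nat_lit 0x33700000000000006d8c) (nat_lit 2560) (nb (nat_lit 0x320c0000000000000ee0) (nat_lit 1216) (nb (nat_lit 6175) (nat_lit 192) (nat_lit 0))))), (nb (nat_lit 0x161a00000000000042cf000000000000171a) (nat_lit 3712) (nb (nat_lit 0x1bd90000000000002867) (nat_lit 2432) (nb (nat_lit 0x552700000000000036c5) (nat_lit 1344) (nat_lit 0x1b8d0000000000002aba0000000000001643))))⟩, ⟨(nat_lit 10), (nat_lit 12), (nb (nat_lit 0x24290000000000002a490000000000001c6a) (nat_lit 3648) (nb (nat_lit 0x4c2100000000000059880000000000004f0800000000000020fe)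 (nat_lit 1216) (nat_lit 3502))), (nb (nat_lit 1497) (nat_lit 3840) (nb (nat_lit 0x2a94000000000000667600000000000055150000000000003be9) (nat_lit 2432) (nb (nat_lit 0x213c0000000000001b4c000000000000102e) (nat_lit 64) (nat_lit 0))))⟩, ⟨(nat_lit 16), (nat_lit 20), (nb (nat_lit 0x17070000000000002644) (nat_lit 3776) (nb (nat_lit 0x5902000000000000612b) (nat_lit 2432) (nb (nat_lit 0x1a9400000000000005a9) (nat_lit 1344) (nat_lit 0x244a00000000000038b90000000000000b3a)))), (nb (nat_lit 0x2a90000000000002fd0) (nat_lit 3648) (nb (nat_lit 0xace00000000000026fc) (nat_lit 2560) (nb (nat_lit 0x73390000000000002e2d) (nat_lit 1216) (nb (nat_lit 1805) (nat_lit 192) (nat_lit 0)))))⟩, ⟨(nat_lit 22), (nat_lit 28), (nb (nat_lit 0x407000000000000082080000000000005775000000000000448a) (nat_lit 2432) (nb (nat_lit 0x23210000000000000f540000000000000aef) (nat_lit 64) (nat_lit 0))), (nb (nat_lit 0x8a00000000000036210000000000002e780000000000001abe) (nat_lit 3648) (nb (nat_lit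 0x661f0000000000005f5b000000000000526300000000000026ad) (nat_lit 1216) (nat_lit 5078)))⟩]⟩
def e855 : En := ⟨(nat_lit 64), (nat_lit 69649), (nat_lit 0x13b54c), (nat_lit 216), [⟨(nat_lit 0), (nat_lit 50), (nb (nat_lit 6810) (nat_lit 3648) (nb (nat_lit 0x33700000000000006d8c) (nat_lit 2560) (nb (nat_lit 0x320c0000000000000ee0) (nat_lit 1216) (nb (nat_lit 6175) (nat_lit 192) (nat_lit 0))))), (nb (nat_lit 0x161a00000000000042cf000000000000171a) (nat_lit 3712) (nb (nat_lit 0x1bd90000000000002867) (nat_lit 2432) (nb (nat_lit 0x552700000000000036c5) (nat_lit 1344) (nat_lit 0x1b8d0000000000002aba0000000000001643))))⟩, ⟨(nat_lit 2), (nat_lit 42), (nb (nat_lit 0x8dc00000000000040470000000000002b0c00000000000003ac) (nat_lit 3648) (nb (nat_lit 0x666a0000000000005f4600000000000017190000000000000cbf) (nat_lit 1216) (nat_lit 0xece000000000000165f))), (nb (nat_lit 0x3ae900000000000087bd00000000000029c40000000000000fa4) (nat_lit 2432) (nb (nat_lit 0x25b5000000000000032b)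 (nat_lit 128) (nat_lit 0)))⟩, ⟨(nat_lit 6), (nat_lit 44), (nb (nat_lit 0xfb700000000000030d700000000000012eb) (nat_lit 3712) (nb (nat_lit 0x1e390000000000003108) (nat_lit 2432) (nb (nat_lit 0x3b2900000000000030f2) (nat_lit 1344) (nat_lit 0xf95000000000000257b000000000000101b)))), (nb (nat_lit 6382) (nat_lit 3648) (nb (nat_lit 0x1d9400000000000051fa) (nat_lit 2560) (nb (nat_lit 0x3567000000000000148f) (nat_lit 1216) (nb (nat_lit 5690) (nat_lit 192) (nat_lit 0)))))⟩, ⟨(nat_lit 8), (nat_lit 54), (nb (nat_lit 3885) (nat_lit 3840) (nb (nat_lit 0x22dc000000000000300e00000000000075ae0000000000007592) (nat_lit 2432) (nb (nat_lit 0xce70000000000001ee9000000000000306a) (nat_lit 64) (nat_lit 0)))), (nb (nat_lit 0x54a0000000000001b8d00000000000033ac) (nat_lit 3648) (nb (nat_lit 0x2af60000000000002e6900000000000087ca0000000000003b3c) (nat_lit 1216) (nat_lit 955)))⟩, ⟨(nat_lit 12), (nat_lit 14), (nb (nat_lit 0x24290000000000002a490000000000001c6a) (nat_lit 3648)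 (nb (nat_lit 0x4c2100000000000059880000000000004f0800000000000020fe) (nat_lit 1216) (nat_lit 3502))), (nb (nat_lit 1497) (nat_lit 3840) (nb (nat_lit 0x2a94000000000000667600000000000055150000000000003be9) (nat_lit 2432) (nb (nat_lit 0x213c0000000000001b4c000000000000102e) (nat_lit 64) (nat_lit 0))))⟩, ⟨(nat_lit 18), (nat_lit 22), (nb (nat_lit 0x17070000000000002644) (nat_lit 3776) (nb (nat_lit 0x5902000000000000612b) (nat_lit 2432) (nb (nat_lit 0x1a9400000000000005a9) (nat_lit 1344) (nat_lit 0x244a00000000000038b90000000000000b3a)))), (nb (nat_lit 0x2a90000000000002fd0) (nat_lit 3648) (nb (nat_lit 0xace00000000000026fc) (nat_lit 2560) (nb (nat_lit 0x73390000000000002e2d) (nat_lit 1216) (nb (nat_lit 1805) (nat_lit 192) (nat_lit 0)))))⟩, ⟨(nat_lit 20), (nat_lit 24), (nb (nat_lit 0x8a00000000000036210000000000002e780000000000001abe) (nat_lit 3648) (nb (nat_lit 0x661f0000000000005f5b000000000000526300000000000026ad) (nat_lit 1216) (nat_lit 5078))), (nb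 (nat_lit 0x407000000000000082080000000000005775000000000000448a) (nat_lit 2432) (nb (nat_lit 0x23210000000000000f540000000000000aef) (nat_lit 64) (nat_lit 0)))⟩]⟩
def e856 : En := ⟨(nat_lit 66), (nat_lit 69889), (nat_lit 0x13b54c), (nat_lit 216), [⟨(nat_lit 0), (nat_lit 56), (nb (nat_lit 3885) (nat_lit 3840) (nb (nat_lit 0x22dc000000000000300e00000000000075ae0000000000007592) (nat_lit 2432) (nb (nat_lit 0xce70000000000001ee9000000000000306a) (nat_lit 64) (nat_lit 0)))), (nb (nat_lit 0x54a0000000000001b8d00000000000033ac) (nat_lit 3648) (nb (nat_lit 0x2af60000000000002e6900000000000087ca0000000000003b3c) (nat_lit 1216) (nat_lit 955)))⟩, ⟨(nat_lit 2), (nat_lit 52), (nb (nat_lit 6810) (nat_lit 3648) (nb (nat_lit 0x33700000000000006d8c) (nat_lit 2560) (nb (nat_lit 0x320c0000000000000ee0) (nat_lit 1216) (nb (nat_lit 6175) (nat_lit 192) (nat_lit 0))))), (nb (nat_lit 0x161a00000000000042cf000000000000171a) (nat_lit 3712) (nb (nat_lit 0x1bd90000000000002867)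 (nat_lit 2432) (nb (nat_lit 0x552700000000000036c5) (nat_lit 1344) (nat_lit 0x1b8d0000000000002aba0000000000001643))))⟩, ⟨(nat_lit 4), (nat_lit 44), (nb (nat_lit 0x8dc00000000000040470000000000002b0c00000000000003ac) (nat_lit 3648) (nb (nat_lit 0x666a0000000000005f4600000000000017190000000000000cbf) (nat_lit 1216) (nat_lit 0xece000000000000165f))), (nb (nat_lit 0x3ae900000000000087bd00000000000029c40000000000000fa4) (nat_lit 2432) (nb (nat_lit 0x25b5000000000000032b) (nat_lit 128) (nat_lit 0)))⟩, ⟨(nat_lit 8), (nat_lit 46), (nb (nat_lit 0xfb700000000000030d700000000000012eb) (nat_lit 3712) (nb (nat_lit 0x1e390000000000003108) (nat_lit 2432) (nb (nat_lit 0x3b2900000000000030f2) (nat_lit 1344) (nat_lit 0xf95000000000000257b000000000000101b)))), (nb (nat_lit 6382) (nat_lit 3648) (nb (nat_lit 0x1d9400000000000051fa) (nat_lit 2560) (nb (nat_lit 0x3567000000000000148f) (nat_lit 1216) (nb (nat_lit 5690) (nat_lit 192) (nat_lit 0)))))⟩, ⟨(nat_lit 10), (nat_lit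 24), (nb (nat_lit 0x17070000000000002644) (nat_lit 3776) (nb (nat_lit 0x5902000000000000612b) (nat_lit 2432) (nb (nat_lit 0x1a9400000000000005a9) (nat_lit 1344) (nat_lit 0x244a00000000000038b90000000000000b3a)))), (nb (nat_lit 0x2a90000000000002fd0) (nat_lit 3648) (nb (nat_lit 0xace00000000000026fc) (nat_lit 2560) (nb (nat_lit 0x73390000000000002e2d) (nat_lit 1216) (nb (nat_lit 1805) (nat_lit 192) (nat_lit 0)))))⟩, ⟨(nat_lit 14), (nat_lit 16), (nb (nat_lit 0x24290000000000002a490000000000001c6a) (nat_lit 3648) (nb (nat_lit 0x4c2100000000000059880000000000004f0800000000000020fe) (nat_lit 1216) (nat_lit 3502))), (nb (nat_lit 1497) (nat_lit 3840) (nb (nat_lit 0x2a94000000000000667600000000000055150000000000003be9) (nat_lit 2432) (nb (nat_lit 0x213c0000000000001b4c000000000000102e) (nat_lit 64) (nat_lit 0))))⟩, ⟨(nat_lit 22), (nat_lit 26), (nb (nat_lit 0x8a00000000000036210000000000002e780000000000001abe) (nat_lit 3648) (nb (nat_lit 0x661f0000000000005f5b000000000000526300000000000026ad)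 (nat_lit 1216) (nat_lit 5078))), (nb (nat_lit 0x407000000000000082080000000000005775000000000000448a) (nat_lit 2432) (nb (nat_lit 0x23210000000000000f540000000000000aef) (nat_lit 64) (nat_lit 0)))⟩]⟩
def e857 : En := ⟨(nat_lit 68), (nat_lit 69904), (nat_lit 0x13b54c), (nat_lit 216), [⟨(nat_lit 0), (nat_lit 48), (nb (nat_lit 0xfb700000000000030d700000000000012eb) (nat_lit 3712) (nb (nat_lit 0x1e390000000000003108) (nat_lit 2432) (nb (nat_lit 0x3b2900000000000030f2) (nat_lit 1344) (nat_lit 0xf95000000000000257b000000000000101b)))), (nb (nat_lit 6382) (nat_lit 3648) (nb (nat_lit 0x1d9400000000000051fa) (nat_lit 2560) (nb (nat_lit 0x3567000000000000148f) (nat_lit 1216) (nb (nat_lit 5690) (nat_lit 192) (nat_lit 0)))))⟩, ⟨(nat_lit 2), (nat_lit 58), (nb (nat_lit 3885) (nat_lit 3840) (nb (nat_lit 0x22dc000000000000300e00000000000075ae0000000000007592) (nat_lit 2432) (nb (nat_lit 0xce70000000000001ee9000000000000306a) (nat_lit 64) (nat_lit 0)))), (nb (nat_lit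 0x54a0000000000001b8d00000000000033ac) (nat_lit 3648) (nb (nat_lit 0x2af60000000000002e6900000000000087ca0000000000003b3c) (nat_lit 1216) (nat_lit 955)))⟩, ⟨(nat_lit 4), (nat_lit 54), (nb (nat_lit 6810) (nat_lit 3648) (nb (nat_lit 0x33700000000000006d8c) (nat_lit 2560) (nb (nat_lit 0x320c0000000000000ee0) (nat_lit 1216) (nb (nat_lit 6175) (nat_lit 192) (nat_lit 0))))), (nb (nat_lit 0x161a00000000000042cf000000000000171a) (nat_lit 3712) (nb (nat_lit 0x1bd90000000000002867) (nat_lit 2432) (nb (nat_lit 0x552700000000000036c5) (nat_lit 1344) (nat_lit 0x1b8d0000000000002aba0000000000001643))))⟩, ⟨(nat_lit 6), (nat_lit 46), (nb (nat_lit 0x8dc00000000000040470000000000002b0c00000000000003ac) (nat_lit 3648) (nb (nat_lit 0x666a0000000000005f4600000000000017190000000000000cbf) (nat_lit 1216) (nat_lit 0xece000000000000165f))), (nb (nat_lit 0x3ae900000000000087bd00000000000029c40000000000000fa4) (nat_lit 2432) (nb (nat_lit 0x25b5000000000000032b) (nat_lit 128)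 (nat_lit 0)))⟩, ⟨(nat_lit 12), (nat_lit 26), (nb (nat_lit 0x17070000000000002644) (nat_lit 3776) (nb (nat_lit 0x5902000000000000612b) (nat_lit 2432) (nb (nat_lit 0x1a9400000000000005a9) (nat_lit 1344) (nat_lit 0x244a00000000000038b90000000000000b3a)))), (nb (nat_lit 0x2a90000000000002fd0) (nat_lit 3648) (nb (nat_lit 0xace00000000000026fc) (nat_lit 2560) (nb (nat_lit 0x73390000000000002e2d) (nat_lit 1216) (nb (nat_lit 1805) (nat_lit 192) (nat_lit 0)))))⟩, ⟨(nat_lit 16), (nat_lit 18), (nb (nat_lit 0x24290000000000002a490000000000001c6a) (nat_lit 3648) (nb (nat_lit 0x4c2100000000000059880000000000004f0800000000000020fe) (nat_lit 1216) (nat_lit 3502))), (nb (nat_lit 1497) (nat_lit 3840) (nb (nat_lit 0x2a94000000000000667600000000000055150000000000003be9) (nat_lit 2432) (nb (nat_lit 0x213c0000000000001b4c000000000000102e) (nat_lit 64) (nat_lit 0))))⟩, ⟨(nat_lit 24), (nat_lit 28), (nb (nat_lit 0x8a00000000000036210000000000002e780000000000001abe) (nat_lit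 3648) (nb (nat_lit 0x661f0000000000005f5b000000000000526300000000000026ad) (nat_lit 1216) (nat_lit 5078))), (nb (nat_lit 0x407000000000000082080000000000005775000000000000448a) (nat_lit 2432) (nb (nat_lit 0x23210000000000000f540000000000000aef) (nat_lit 64) (nat_lit 0)))⟩]⟩
def e858 : En := ⟨(nat_lit 40), (nat_lit 273), (nat_lit 291410), (nat_lit 216), [⟨(nat_lit 4), (nat_lit 20), (nb (nat_lit 0x8cf0000000000000e4f0000000000001713) (nat_lit 3648) (nb (nat_lit 0x216f0000000000001fd1000000000000449e0000000000002268) (nat_lit 1216) (nat_lit 505))), (nb (nat_lit 1969) (nat_lit 3840) (nb (nat_lit 0x16b40000000000002626000000000000397a0000000000003bfb) (nat_lit 2432) (nb (nat_lit 0x9f40000000000000e0f00000000000017c7) (nat_lit 64) (nat_lit 0))))⟩, ⟨(nat_lit 6), (nat_lit 10), (nb (nat_lit 6169) (nat_lit 3648) (nb (nat_lit 0x36b0000000000001e3d) (nat_lit 2560) (nb (nat_lit 0x33cf0000000000001337) (nat_lit 1216) (nb (nat_lit 2696) (nat_lit 192) (nat_lit 0))))),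 (nb (nat_lit 0x94b00000000000014e60000000000000357) (nat_lit 3712) (nb (nat_lit 0x2812000000000000317c) (nat_lit 2432) (nb (nat_lit 0x14be0000000000001326) (nat_lit 1344) (nat_lit 0xada00000000000019b30000000000000612))))⟩, ⟨(nat_lit 8), (nat_lit 28), (nb (nat_lit 262) (nat_lit 3648) (nb (nat_lit 0x1a1f000000000000446300000000000011680000000000000a7f) (nat_lit 2432) (nb (nat_lit 0x147c0000000000000335) (nat_lit 128) (nat_lit 0)))), (nb (nat_lit 0x19a0000000000001db500000000000011a6) (nat_lit 3712) (nb (nat_lit 0x362d00000000000032f700000000000010cf0000000000000f31) (nat_lit 1216) (nat_lit 0x1ec000000000000080b)))⟩]⟩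
def e859 : En := ⟨(nat_lit 42), (nat_lit 65553), (nat_lit 291410), (nat_lit 216), [⟨(nat_lit 0), (nat_lit 20), (nb (nat_lit 262) (nat_lit 3648) (nb (nat_lit 0x1a1f000000000000446300000000000011680000000000000a7f) (nat_lit 2432) (nb (nat_lit 0x147c0000000000000335) (nat_lit 128) (nat_lit 0)))), (nb (nat_lit 0x19a0000000000001db500000000000011a6) (nat_lit 3712) (nb (nat_lit 0x362d00000000000032f700000000000010cf0000000000000f31) (nat_lit 1216) (nat_lit 0x1ec000000000000080b)))⟩, ⟨(nat_lit 6), (nat_lit 22), (nb (nat_lit 0x8cf0000000000000e4f0000000000001713) (nat_lit 3648) (nb (nat_lit 0x216f0000000000001fd1000000000000449e0000000000002268) (nat_lit 1216) (nat_lit 505))), (nb (nat_lit 1969) (nat_lit 3840) (nb (nat_lit 0x16b40000000000002626000000000000397a0000000000003bfb) (nat_lit 2432) (nb (nat_lit 0x9f40000000000000e0f00000000000017c7) (nat_lit 64) (nat_lit 0))))⟩, ⟨(nat_lit 8), (nat_lit 12), (nb (nat_lit 6169) (nat_lit 3648) (nb (nat_lit 0x36b0000000000001e3d)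 (nat_lit 2560) (nb (nat_lit 0x33cf0000000000001337) (nat_lit 1216) (nb (nat_lit 2696) (nat_lit 192) (nat_lit 0))))), (nb (nat_lit 0x94b00000000000014e60000000000000357) (nat_lit 3712) (nb (nat_lit 0x2812000000000000317c) (nat_lit 2432) (nb (nat_lit 0x14be0000000000001326) (nat_lit 1344) (nat_lit 0xada00000000000019b30000000000000612))))⟩]⟩
def e860 : En := ⟨(nat_lit 44), (nat_lit 69633), (nat_lit 291410), (nat_lit 216), [⟨(nat_lit 0), (nat_lit 14), (nb (nat_lit 6169) (nat_lit 3648) (nb (nat_lit 0x36b0000000000001e3d) (nat_lit 2560) (nb (nat_lit 0x33cf0000000000001337) (nat_lit 1216) (nb (nat_lit 2696) (nat_lit 192) (nat_lit 0))))), (nb (nat_lit 0x94b00000000000014e60000000000000357) (nat_lit 3712) (nb (nat_lit 0x2812000000000000317c) (nat_lit 2432) (nb (nat_lit 0x14be0000000000001326) (nat_lit 1344) (nat_lit 0xada00000000000019b30000000000000612))))⟩, ⟨(nat_lit 2), (nat_lit 22), (nb (nat_lit 262) (nat_lit 3648) (nb (nat_lit 0x1a1f000000000000446300000000000011680000000000000a7f)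 (nat_lit 2432) (nb (nat_lit 0x147c0000000000000335) (nat_lit 128) (nat_lit 0)))), (nb (nat_lit 0x19a0000000000001db500000000000011a6) (nat_lit 3712) (nb (nat_lit 0x362d00000000000032f700000000000010cf0000000000000f31) (nat_lit 1216) (nat_lit 0x1ec000000000000080b)))⟩, ⟨(nat_lit 8), (nat_lit 24), (nb (nat_lit 0x8cf0000000000000e4f0000000000001713) (nat_lit 3648) (nb (nat_lit 0x216f0000000000001fd1000000000000449e0000000000002268) (nat_lit 1216) (nat_lit 505))), (nb (nat_lit 1969) (nat_lit 3840) (nb (nat_lit 0x16b40000000000002626000000000000397a0000000000003bfb) (nat_lit 2432) (nb (nat_lit 0x9f40000000000000e0f00000000000017c7) (nat_lit 64) (nat_lit 0))))⟩]⟩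
def e861 : En := ⟨(nat_lit 46), (nat_lit 69888), (nat_lit 291410), (nat_lit 216), [⟨(nat_lit 0), (nat_lit 26), (nb (nat_lit 0x8cf0000000000000e4f0000000000001713) (nat_lit 3648) (nb (nat_lit 0x216f0000000000001fd1000000000000449e0000000000002268) (nat_lit 1216) (nat_lit 505))), (nb (nat_lit 1969) (nat_lit 3840) (nb (nat_lit 0x16b40000000000002626000000000000397a0000000000003bfb) (nat_lit 2432) (nb (nat_lit 0x9f40000000000000e0f00000000000017c7) (nat_lit 64) (nat_lit 0))))⟩, ⟨(nat_lit 2), (nat_lit 16), (nb (nat_lit 6169) (nat_lit 3648) (nb (nat_lit 0x36b0000000000001e3d) (nat_lit 2560) (nb (nat_lit 0x33cf0000000000001337) (nat_lit 1216) (nb (nat_lit 2696) (nat_lit 192) (nat_lit 0))))), (nb (nat_lit 0x94b00000000000014e60000000000000357) (nat_lit 3712) (nb (nat_lit 0x2812000000000000317c) (nat_lit 2432) (nb (nat_lit 0x14be0000000000001326) (nat_lit 1344) (nat_lit 0xada00000000000019b30000000000000612))))⟩, ⟨(nat_lit 4), (nat_lit 24), (nb (nat_lit 262)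 (nat_lit 3648) (nb (nat_lit 0x1a1f000000000000446300000000000011680000000000000a7f) (nat_lit 2432) (nb (nat_lit 0x147c0000000000000335) (nat_lit 128) (nat_lit 0)))), (nb (nat_lit 0x19a0000000000001db500000000000011a6) (nat_lit 3712) (nb (nat_lit 0x362d00000000000032f700000000000010cf0000000000000f31) (nat_lit 1216) (nat_lit 0x1ec000000000000080b)))⟩]⟩
def e862 : En := ⟨(nat_lit 48), (nat_lit 4368), (nat_lit 291410), (nat_lit 216), [⟨(nat_lit 2), (nat_lit 28), (nb (nat_lit 0x8cf0000000000000e4f0000000000001713) (nat_lit 3648) (nb (nat_lit 0x216f0000000000001fd1000000000000449e0000000000002268) (nat_lit 1216) (nat_lit 505))), (nb (nat_lit 1969) (nat_lit 3840) (nb (nat_lit 0x16b40000000000002626000000000000397a0000000000003bfb) (nat_lit 2432) (nb (nat_lit 0x9f40000000000000e0f00000000000017c7) (nat_lit 64) (nat_lit 0))))⟩, ⟨(nat_lit 4), (nat_lit 18), (nb (nat_lit 6169) (nat_lit 3648) (nb (nat_lit 0x36b0000000000001e3d) (nat_lit 2560) (nb (nat_lit 0x33cf0000000000001337)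 (nat_lit 1216) (nb (nat_lit 2696) (nat_lit 192) (nat_lit 0))))), (nb (nat_lit 0x94b00000000000014e60000000000000357) (nat_lit 3712) (nb (nat_lit 0x2812000000000000317c) (nat_lit 2432) (nb (nat_lit 0x14be0000000000001326) (nat_lit 1344) (nat_lit 0xada00000000000019b30000000000000612))))⟩, ⟨(nat_lit 6), (nat_lit 26), (nb (nat_lit 262) (nat_lit 3648) (nb (nat_lit 0x1a1f000000000000446300000000000011680000000000000a7f) (nat_lit 2432) (nb (nat_lit 0x147c0000000000000335) (nat_lit 128) (nat_lit 0)))), (nb (nat_lit 0x19a0000000000001db500000000000011a6) (nat_lit 3712) (nb (nat_lit 0x362d00000000000032f700000000000010cf0000000000000f31) (nat_lit 1216) (nat_lit 0x1ec000000000000080b)))⟩]⟩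
def e863 : En := ⟨(nat_lit 50), (nat_lit 4113), (nat_lit 232030), (nat_lit 216), [⟨(nat_lit 2), (nat_lit 20), (nb (nat_lit 0x8cf0000000000000e4f0000000000001713) (nat_lit 3648) (nb (nat_lit 0x216f0000000000001fd1000000000000449e0000000000002268) (nat_lit 1216) (nat_lit 505))), (nb (nat_lit 1969) (nat_lit 3840) (nb (nat_lit 0x16b40000000000002626000000000000397a0000000000003bfb) (nat_lit 2432) (nb (nat_lit 0x9f40000000000000e0f00000000000017c7) (nat_lit 64) (nat_lit 0))))⟩, ⟨(nat_lit 6), (nat_lit 14), (nb (nat_lit 0x43f00000000000001b9) (nat_lit 3776) (nb (nat_lit 0x677000000000000057800000000000019760000000000001e3c) (nat_lit 2432) (nat_lit 0x12a000000000000061f0000000000000deb000000000000013c))), (nb (nat_lit 0x2be0000000000000bcb) (nat_lit 3648) (nb (nat_lit 0x73e00000000000005e0000000000000219f0000000000001108) (nat_lit 1216) (nat_lit 0)))⟩, ⟨(nat_lit 8), (nat_lit 18), (nb (nat_lit 882) (nat_lit 3840) (nb (nat_lit 0x103d00000000000020ae00000000000020040000000000001dbf)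 (nat_lit 2432) (nb (nat_lit 0x8ca00000000000007f000000000000009dc) (nat_lit 64) (nat_lit 0)))), (nb (nat_lit 0xa880000000000000b910000000000000b48) (nat_lit 3648) (nb (nat_lit 0x1a3100000000000019f100000000000022ff0000000000001160) (nat_lit 1216) (nat_lit 821)))⟩]⟩
def e864 : En := ⟨(nat_lit 52), (nat_lit 65793), (nat_lit 232030), (nat_lit 216), [⟨(nat_lit 0), (nat_lit 10), (nb (nat_lit 882) (nat_lit 3840) (nb (nat_lit 0x103d00000000000020ae00000000000020040000000000001dbf) (nat_lit 2432) (nb (nat_lit 0x8ca00000000000007f000000000000009dc) (nat_lit 64) (nat_lit 0)))), (nb (nat_lit 0xa880000000000000b910000000000000b48) (nat_lit 3648) (nb (nat_lit 0x1a3100000000000019f100000000000022ff0000000000001160) (nat_lit 1216) (nat_lit 821)))⟩, ⟨(nat_lit 4), (nat_lit 22), (nb (nat_lit 0x8cf0000000000000e4f0000000000001713) (nat_lit 3648) (nb (nat_lit 0x216f0000000000001fd1000000000000449e0000000000002268) (nat_lit 1216) (nat_lit 505))), (nb (nat_lit 1969) (nat_lit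 3840) (nb (nat_lit 0x16b40000000000002626000000000000397a0000000000003bfb) (nat_lit 2432) (nb (nat_lit 0x9f40000000000000e0f00000000000017c7) (nat_lit 64) (nat_lit 0))))⟩, ⟨(nat_lit 8), (nat_lit 16), (nb (nat_lit 0x43f00000000000001b9) (nat_lit 3776) (nb (nat_lit 0x677000000000000057800000000000019760000000000001e3c) (nat_lit 2432) (nat_lit 0x12a000000000000061f0000000000000deb000000000000013c))), (nb (nat_lit 0x2be0000000000000bcb) (nat_lit 3648) (nb (nat_lit 0x73e00000000000005e0000000000000219f0000000000001108) (nat_lit 1216) (nat_lit 0)))⟩]⟩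
def e865 : En := ⟨(nat_lit 54), (nat_lit 69648), (nat_lit 232030), (nat_lit 216), [⟨(nat_lit 0), (nat_lit 18), (nb (nat_lit 0x43f00000000000001b9) (nat_lit 3776) (nb (nat_lit 0x677000000000000057800000000000019760000000000001e3c) (nat_lit 2432) (nat_lit 0x12a000000000000061f0000000000000deb000000000000013c))), (nb (nat_lit 0x2be0000000000000bcb) (nat_lit 3648) (nb (nat_lit 0x73e00000000000005e0000000000000219f0000000000001108) (nat_lit 1216) (nat_lit 0)))⟩, ⟨(nat_lit 2), (nat_lit 12), (nb (nat_lit 882) (nat_lit 3840) (nb (nat_lit 0x103d00000000000020ae00000000000020040000000000001dbf) (nat_lit 2432) (nb (nat_lit 0x8ca00000000000007f000000000000009dc) (nat_lit 64) (nat_lit 0)))), (nb (nat_lit 0xa880000000000000b910000000000000b48) (nat_lit 3648) (nb (nat_lit 0x1a3100000000000019f100000000000022ff0000000000001160) (nat_lit 1216) (nat_lit 821)))⟩, ⟨(nat_lit 6), (nat_lit 24), (nb (nat_lit 0x8cf0000000000000e4f0000000000001713) (nat_lit 3648) (nb (nat_lit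 0x216f0000000000001fd1000000000000449e0000000000002268) (nat_lit 1216) (nat_lit 505))), (nb (nat_lit 1969) (nat_lit 3840) (nb (nat_lit 0x16b40000000000002626000000000000397a0000000000003bfb) (nat_lit 2432) (nb (nat_lit 0x9f40000000000000e0f00000000000017c7) (nat_lit 64) (nat_lit 0))))⟩]⟩
def e866 : En := ⟨(nat_lit 56), (nat_lit 4353), (nat_lit 232030), (nat_lit 216), [⟨(nat_lit 2), (nat_lit 10), (nb (nat_lit 0x43f00000000000001b9) (nat_lit 3776) (nb (nat_lit 0x677000000000000057800000000000019760000000000001e3c) (nat_lit 2432) (nat_lit 0x12a000000000000061f0000000000000deb000000000000013c))), (nb (nat_lit 0x2be0000000000000bcb) (nat_lit 3648) (nb (nat_lit 0x73e00000000000005e0000000000000219f0000000000001108) (nat_lit 1216) (nat_lit 0)))⟩, ⟨(nat_lit 4), (nat_lit 14), (nb (nat_lit 882) (nat_lit 3840) (nb (nat_lit 0x103d00000000000020ae00000000000020040000000000001dbf) (nat_lit 2432) (nb (nat_lit 0x8ca00000000000007f000000000000009dc) (nat_lit 64) (nat_lit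 0)))), (nb (nat_lit 0xa880000000000000b910000000000000b48) (nat_lit 3648) (nb (nat_lit 0x1a3100000000000019f100000000000022ff0000000000001160) (nat_lit 1216) (nat_lit 821)))⟩, ⟨(nat_lit 8), (nat_lit 26), (nb (nat_lit 0x8cf0000000000000e4f0000000000001713) (nat_lit 3648) (nb (nat_lit 0x216f0000000000001fd1000000000000449e0000000000002268) (nat_lit 1216) (nat_lit 505))), (nb (nat_lit 1969) (nat_lit 3840) (nb (nat_lit 0x16b40000000000002626000000000000397a0000000000003bfb) (nat_lit 2432) (nb (nat_lit 0x9f40000000000000e0f00000000000017c7) (nat_lit 64) (nat_lit 0))))⟩]⟩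
def e867 : En := ⟨(nat_lit 58), (nat_lit 65808), (nat_lit 232030), (nat_lit 216), [⟨(nat_lit 0), (nat_lit 28), (nb (nat_lit 0x8cf0000000000000e4f0000000000001713) (nat_lit 3648) (nb (nat_lit 0x216f0000000000001fd1000000000000449e0000000000002268) (nat_lit 1216) (nat_lit 505))), (nb (nat_lit 1969) (nat_lit 3840) (nb (nat_lit 0x16b40000000000002626000000000000397a0000000000003bfb) (nat_lit 2432) (nb (nat_lit 0x9f40000000000000e0f00000000000017c7) (nat_lit 64) (nat_lit 0))))⟩, ⟨(nat_lit 4), (nat_lit 12), (nb (nat_lit 0x43f00000000000001b9) (nat_lit 3776) (nb (nat_lit 0x677000000000000057800000000000019760000000000001e3c) (nat_lit 2432) (nat_lit 0x12a000000000000061f0000000000000deb000000000000013c))), (nb (nat_lit 0x2be0000000000000bcb) (nat_lit 3648) (nb (nat_lit 0x73e00000000000005e0000000000000219f0000000000001108) (nat_lit 1216) (nat_lit 0)))⟩, ⟨(nat_lit 6), (nat_lit 16), (nb (nat_lit 882) (nat_lit 3840) (nb (nat_lit 0x103d00000000000020ae00000000000020040000000000001dbf)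 (nat_lit 2432) (nb (nat_lit 0x8ca00000000000007f000000000000009dc) (nat_lit 64) (nat_lit 0)))), (nb (nat_lit 0xa880000000000000b910000000000000b48) (nat_lit 3648) (nb (nat_lit 0x1a3100000000000019f100000000000022ff0000000000001160) (nat_lit 1216) (nat_lit 821)))⟩]⟩
def e868 : En := ⟨(nat_lit 10), (nat_lit 257), (nat_lit 115258), (nat_lit 216), [⟨(nat_lit 4), (nat_lit 8), (nb (nat_lit 0x8cf0000000000000e4f0000000000001713) (nat_lit 3648) (nb (nat_lit 0x216f0000000000001fd1000000000000449e0000000000002268) (nat_lit 1216) (nat_lit 505))), (nb (nat_lit 1969) (nat_lit 3840) (nb (nat_lit 0x16b40000000000002626000000000000397a0000000000003bfb) (nat_lit 2432) (nb (nat_lit 0x9f40000000000000e0f00000000000017c7) (nat_lit 64) (nat_lit 0))))⟩]⟩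
def e869 : En := ⟨(nat_lit 12), (nat_lit 65552), (nat_lit 115258), (nat_lit 216), [⟨(nat_lit 0), (nat_lit 6), (nb (nat_lit 1969) (nat_lit 3840) (nb (nat_lit 0x16b40000000000002626000000000000397a0000000000003bfb) (nat_lit 2432) (nb (nat_lit 0x9f40000000000000e0f00000000000017c7) (nat_lit 64) (nat_lit 0)))), (nb (nat_lit 0x8cf0000000000000e4f0000000000001713) (nat_lit 3648) (nb (nat_lit 0x216f0000000000001fd1000000000000449e0000000000002268) (nat_lit 1216) (nat_lit 505)))⟩]⟩
def e870 : En := ⟨(nat_lit 14), (nat_lit 4097), (nat_lit 115258), (nat_lit 216), [⟨(nat_lit 2), (nat_lit 8), (nb (nat_lit 1969) (nat_lit 3840) (nb (nat_lit 0x16b40000000000002626000000000000397a0000000000003bfb) (nat_lit 2432) (nb (nat_lit 0x9f40000000000000e0f00000000000017c7) (nat_lit 64) (nat_lit 0)))), (nb (nat_lit 0x8cf0000000000000e4f0000000000001713) (nat_lit 3648) (nb (nat_lit 0x216f0000000000001fd1000000000000449e0000000000002268) (nat_lit 1216) (nat_lit 505)))⟩]⟩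
def e871 : En := ⟨(nat_lit 16), (nat_lit 65792), (nat_lit 115258), (nat_lit 216), [⟨(nat_lit 0), (nat_lit 4), (nb (nat_lit 0x8cf0000000000000e4f0000000000001713) (nat_lit 3648) (nb (nat_lit 0x216f0000000000001fd1000000000000449e0000000000002268) (nat_lit 1216) (nat_lit 505))), (nb (nat_lit 1969) (nat_lit 3840) (nb (nat_lit 0x16b40000000000002626000000000000397a0000000000003bfb) (nat_lit 2432) (nb (nat_lit 0x9f40000000000000e0f00000000000017c7) (nat_lit 64) (nat_lit 0))))⟩]⟩
def e872 : En := ⟨(nat_lit 18), (nat_lit 4112), (nat_lit 115258), (nat_lit 216), [⟨(nat_lit 2), (nat_lit 6), (nb (nat_lit 0x8cf0000000000000e4f0000000000001713) (nat_lit 3648) (nb (nat_lit 0x216f0000000000001fd1000000000000449e0000000000002268) (nat_lit 1216) (nat_lit 505))), (nb (nat_lit 1969) (nat_lit 3840) (nb (nat_lit 0x16b40000000000002626000000000000397a0000000000003bfb) (nat_lit 2432) (nb (nat_lit 0x9f40000000000000e0f00000000000017c7) (nat_lit 64) (nat_lit 0))))⟩]⟩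
def e873 : En := ⟨(nat_lit 20), (nat_lit 17), (nat_lit 115258), (nat_lit 216), [⟨(nat_lit 6), (nat_lit 8), (nb (nat_lit 0x8cf0000000000000e4f0000000000001713) (nat_lit 3648) (nb (nat_lit 0x216f0000000000001fd1000000000000449e0000000000002268) (nat_lit 1216) (nat_lit 505))), (nb (nat_lit 1969) (nat_lit 3840) (nb (nat_lit 0x16b40000000000002626000000000000397a0000000000003bfb) (nat_lit 2432) (nb (nat_lit 0x9f40000000000000e0f00000000000017c7) (nat_lit 64) (nat_lit 0))))⟩]⟩
def e874 : En := ⟨(nat_lit 22), (nat_lit 65537), (nat_lit 115258), (nat_lit 216), [⟨(nat_lit 0), (nat_lit 8), (nb (nat_lit 1969) (nat_lit 3840) (nb (nat_lit 0x16b40000000000002626000000000000397a0000000000003bfb) (nat_lit 2432) (nb (nat_lit 0x9f40000000000000e0f00000000000017c7) (nat_lit 64) (nat_lit 0)))), (nb (nat_lit 0x8cf0000000000000e4f0000000000001713) (nat_lit 3648) (nb (nat_lit 0x216f0000000000001fd1000000000000449e0000000000002268) (nat_lit 1216) (nat_lit 505)))⟩]⟩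
def e875 : En := ⟨(nat_lit 24), (nat_lit 69632), (nat_lit 115258), (nat_lit 216), [⟨(nat_lit 0), (nat_lit 2), (nb (nat_lit 0x8cf0000000000000e4f0000000000001713) (nat_lit 3648) (nb (nat_lit 0x216f0000000000001fd1000000000000449e0000000000002268) (nat_lit 1216) (nat_lit 505))), (nb (nat_lit 1969) (nat_lit 3840) (nb (nat_lit 0x16b40000000000002626000000000000397a0000000000003bfb) (nat_lit 2432) (nb (nat_lit 0x9f40000000000000e0f00000000000017c7) (nat_lit 64) (nat_lit 0))))⟩]⟩
def e876 : En := ⟨(nat_lit 26), (nat_lit 4352), (nat_lit 115258), (nat_lit 216), [⟨(nat_lit 2), (nat_lit 4), (nb (nat_lit 0x8cf0000000000000e4f0000000000001713) (nat_lit 3648) (nb (nat_lit 0x216f0000000000001fd1000000000000449e0000000000002268) (nat_lit 1216) (nat_lit 505))), (nb (nat_lit 1969) (nat_lit 3840) (nb (nat_lit 0x16b40000000000002626000000000000397a0000000000003bfb) (nat_lit 2432) (nb (nat_lit 0x9f40000000000000e0f00000000000017c7) (nat_lit 64) (nat_lit 0))))⟩]⟩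
def e877 : En := ⟨(nat_lit 28), (nat_lit 272), (nat_lit 115258), (nat_lit 216), [⟨(nat_lit 4), (nat_lit 6), (nb (nat_lit 0x8cf0000000000000e4f0000000000001713) (nat_lit 3648) (nb (nat_lit 0x216f0000000000001fd1000000000000449e0000000000002268) (nat_lit 1216) (nat_lit 505))), (nb (nat_lit 1969) (nat_lit 3840) (nb (nat_lit 0x16b40000000000002626000000000000397a0000000000003bfb) (nat_lit 2432) (nb (nat_lit 0x9f40000000000000e0f00000000000017c7) (nat_lit 64) (nat_lit 0))))⟩]⟩
def e878 : En := ⟨(nat_lit 71), (nat_lit 69905), (nat_lit 0x283e80), (nat_lit 216), [⟨(nat_lit 0), (nat_lit 60), (nb (nat_lit 0x8cf0000000000000e4f0000000000001713) (nat_lit 3648) (nb (nat_lit 0x216f0000000000001fd1000000000000449e0000000000002268) (nat_lit 1216) (nat_lit 505))), (nb (nat_lit 1969) (nat_lit 3840) (nb (nat_lit 0x16b40000000000002626000000000000397a0000000000003bfb) (nat_lit 2432) (nb (nat_lit 0x9f40000000000000e0f00000000000017c7) (nat_lit 64) (nat_lit 0))))⟩, ⟨(nat_lit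 2), (nat_lit 62), (nb (nat_lit 0x8cf0000000000000e4f0000000000001713) (nat_lit 3648) (nb (nat_lit 0x216f0000000000001fd1000000000000449e0000000000002268) (nat_lit 1216) (nat_lit 505))), (nb (nat_lit 1969) (nat_lit 3840) (nb (nat_lit 0x16b40000000000002626000000000000397a0000000000003bfb) (nat_lit 2432) (nb (nat_lit 0x9f40000000000000e0f00000000000017c7) (nat_lit 64) (nat_lit 0))))⟩, ⟨(nat_lit 4), (nat_lit 64), (nb (nat_lit 0x8cf0000000000000e4f0000000000001713) (nat_lit 3648) (nb (nat_lit 0x216f0000000000001fd1000000000000449e0000000000002268) (nat_lit 1216) (nat_lit 505))), (nb (nat_lit 1969) (nat_lit 3840) (nb (nat_lit 0x16b40000000000002626000000000000397a0000000000003bfb) (nat_lit 2432) (nb (nat_lit 0x9f40000000000000e0f00000000000017c7) (nat_lit 64) (nat_lit 0))))⟩, ⟨(nat_lit 6), (nat_lit 66), (nb (nat_lit 0x8cf0000000000000e4f0000000000001713) (nat_lit 3648) (nb (nat_lit 0x216f0000000000001fd1000000000000449e0000000000002268) (nat_lit 1216)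 (nat_lit 505))), (nb (nat_lit 1969) (nat_lit 3840) (nb (nat_lit 0x16b40000000000002626000000000000397a0000000000003bfb) (nat_lit 2432) (nb (nat_lit 0x9f40000000000000e0f00000000000017c7) (nat_lit 64) (nat_lit 0))))⟩, ⟨(nat_lit 8), (nat_lit 68), (nb (nat_lit 0x8cf0000000000000e4f0000000000001713) (nat_lit 3648) (nb (nat_lit 0x216f0000000000001fd1000000000000449e0000000000002268) (nat_lit 1216) (nat_lit 505))), (nb (nat_lit 1969) (nat_lit 3840) (nb (nat_lit 0x16b40000000000002626000000000000397a0000000000003bfb) (nat_lit 2432) (nb (nat_lit 0x9f40000000000000e0f00000000000017c7) (nat_lit 64) (nat_lit 0))))⟩, ⟨(nat_lit 10), (nat_lit 54), (nb (nat_lit 0x25470000000000003d85) (nat_lit 3776) (nb (nat_lit 0x91870000000000009df9) (nat_lit 2432) (nb (nat_lit 0x2a31000000000000085c) (nat_lit 1344) (nat_lit 0x3a760000000000005b240000000000001288)))), (nb (nat_lit 0x4730000000000004e46) (nat_lit 3648) (nb (nat_lit 0x10940000000000003d7e) (nat_lit 2560) (nb (nat_lit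 0xb9d60000000000004a1c) (nat_lit 1216) (nb (nat_lit 2872) (nat_lit 192) (nat_lit 0)))))⟩, ⟨(nat_lit 12), (nat_lit 56), (nb (nat_lit 0x25470000000000003d85) (nat_lit 3776) (nb (nat_lit 0x91870000000000009df9) (nat_lit 2432) (nb (nat_lit 0x2a31000000000000085c) (nat_lit 1344) (nat_lit 0x3a760000000000005b240000000000001288)))), (nb (nat_lit 0x4730000000000004e46) (nat_lit 3648) (nb (nat_lit 0x10940000000000003d7e) (nat_lit 2560) (nb (nat_lit 0xb9d60000000000004a1c) (nat_lit 1216) (nb (nat_lit 2872) (nat_lit 192) (nat_lit 0)))))⟩, ⟨(nat_lit 14), (nat_lit 58), (nb (nat_lit 0x25470000000000003d85) (nat_lit 3776) (nb (nat_lit 0x91870000000000009df9) (nat_lit 2432) (nb (nat_lit 0x2a31000000000000085c) (nat_lit 1344) (nat_lit 0x3a760000000000005b240000000000001288)))), (nb (nat_lit 0x4730000000000004e46) (nat_lit 3648) (nb (nat_lit 0x10940000000000003d7e) (nat_lit 2560) (nb (nat_lit 0xb9d60000000000004a1c) (nat_lit 1216) (nb (nat_lit 2872) (nat_lit 192) (nat_lit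 0)))))⟩, ⟨(nat_lit 16), (nat_lit 50), (nb (nat_lit 0x25470000000000003d85) (nat_lit 3776) (nb (nat_lit 0x91870000000000009df9) (nat_lit 2432) (nb (nat_lit 0x2a31000000000000085c) (nat_lit 1344) (nat_lit 0x3a760000000000005b240000000000001288)))), (nb (nat_lit 0x4730000000000004e46) (nat_lit 3648) (nb (nat_lit 0x10940000000000003d7e) (nat_lit 2560) (nb (nat_lit 0xb9d60000000000004a1c) (nat_lit 1216) (nb (nat_lit 2872) (nat_lit 192) (nat_lit 0)))))⟩, ⟨(nat_lit 18), (nat_lit 52), (nb (nat_lit 0x25470000000000003d85) (nat_lit 3776) (nb (nat_lit 0x91870000000000009df9) (nat_lit 2432) (nb (nat_lit 0x2a31000000000000085c) (nat_lit 1344) (nat_lit 0x3a760000000000005b240000000000001288)))), (nb (nat_lit 0x4730000000000004e46) (nat_lit 3648) (nb (nat_lit 0x10940000000000003d7e) (nat_lit 2560) (nb (nat_lit 0xb9d60000000000004a1c) (nat_lit 1216) (nb (nat_lit 2872) (nat_lit 192) (nat_lit 0)))))⟩, ⟨(nat_lit 20), (nat_lit 46), (nb (nat_lit 1755) (nat_lit 3840) (nb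 (nat_lit 0x1d5500000000000035c300000000000047fd00000000000040ac) (nat_lit 2432) (nb (nat_lit 0xf7b00000000000012c000000000000016ad) (nat_lit 64) (nat_lit 0)))), (nb (nat_lit 0xf7000000000000018210000000000001c9a) (nat_lit 3648) (nb (nat_lit 0x2b410000000000002e540000000000004c80000000000000214e) (nat_lit 1216) (nat_lit 1604)))⟩, ⟨(nat_lit 22), (nat_lit 48), (nb (nat_lit 1755) (nat_lit 3840) (nb (nat_lit 0x1d5500000000000035c300000000000047fd00000000000040ac) (nat_lit 2432) (nb (nat_lit 0xf7b00000000000012c000000000000016ad) (nat_lit 64) (nat_lit 0)))), (nb (nat_lit 0xf7000000000000018210000000000001c9a) (nat_lit 3648) (nb (nat_lit 0x2b410000000000002e540000000000004c80000000000000214e) (nat_lit 1216) (nat_lit 1604)))⟩, ⟨(nat_lit 24), (nat_lit 40), (nb (nat_lit 1755) (nat_lit 3840) (nb (nat_lit 0x1d5500000000000035c300000000000047fd00000000000040ac) (nat_lit 2432) (nb (nat_lit 0xf7b00000000000012c000000000000016ad) (nat_lit 64) (nat_lit 0)))), (nb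 (nat_lit 0xf7000000000000018210000000000001c9a) (nat_lit 3648) (nb (nat_lit 0x2b410000000000002e540000000000004c80000000000000214e) (nat_lit 1216) (nat_lit 1604)))⟩, ⟨(nat_lit 26), (nat_lit 42), (nb (nat_lit 1755) (nat_lit 3840) (nb (nat_lit 0x1d5500000000000035c300000000000047fd00000000000040ac) (nat_lit 2432) (nb (nat_lit 0xf7b00000000000012c000000000000016ad) (nat_lit 64) (nat_lit 0)))), (nb (nat_lit 0xf7000000000000018210000000000001c9a) (nat_lit 3648) (nb (nat_lit 0x2b410000000000002e540000000000004c80000000000000214e) (nat_lit 1216) (nat_lit 1604)))⟩, ⟨(nat_lit 28), (nat_lit 44), (nb (nat_lit 1755) (nat_lit 3840) (nb (nat_lit 0x1d5500000000000035c300000000000047fd00000000000040ac) (nat_lit 2432) (nb (nat_lit 0xf7b00000000000012c000000000000016ad) (nat_lit 64) (nat_lit 0)))), (nb (nat_lit 0xf7000000000000018210000000000001c9a) (nat_lit 3648) (nb (nat_lit 0x2b410000000000002e540000000000004c80000000000000214e) (nat_lit 1216) (nat_lit 1604)))⟩]⟩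
def e879 : En := ⟨(nat_lit 60), (nat_lit 4369), (nat_lit 25625), (nat_lit 24), [⟨(nat_lit 2), (nat_lit 40), (nat_lit 0xfa000000000000036b000000000000036b0000000000000271), (nb (nat_lit 0x27100000000000003e800000000000002ee0000000000000177) (nat_lit 1216) (nat_lit 0))⟩, ⟨(nat_lit 4), (nat_lit 50), (nat_lit 0x1f400000000000002ee00000000000002ee00000000000001f4), (nb (nat_lit 0x271000000000000027100000000000001f4000000000000007d) (nat_lit 1216) (nat_lit 0))⟩, ⟨(nat_lit 6), (nat_lit 56), (nb (nat_lit 0x177000000000000007d) (nat_lit 1344) (nat_lit 0x7d000000000000007d)), (nb (nat_lit 0x177000000000000007d) (nat_lit 1216) (nb (nat_lit 0x17700000000000001f4) (nat_lit 128) (nat_lit 0)))⟩, ⟨(nat_lit 8), (nat_lit 48), (nat_lit 0x17700000000000002710000000000000271), (nb (nat_lit 0xfa000000000000036b000000000000036b0000000000000271) (nat_lit 1216) (nb (nat_lit 250) (nat_lit 192) (nat_lit 0)))⟩, ⟨(nat_lit 10), (nat_lit 18), (nb (nat_lit 0xfa00000000000004e2000000000000055f00000000000002ee)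 (nat_lit 1216) (nb (nat_lit 375) (nat_lit 192) (nat_lit 0))), (nat_lit 0x1f40000000000000465000000000000036b)⟩, ⟨(nat_lit 14), (nat_lit 28), (nat_lit 0x7d000000000000007d000000000000000000000000000000fa), (nb (nat_lit 0xfa000000000000007d000000000000007d00000000000000fa) (nat_lit 1216) (nat_lit 0))⟩, ⟨(nat_lit 20), (nat_lit 26), (nb (nat_lit 0x17700000000000000fa00000000000000fa) (nat_lit 1216) (nb (nat_lit 250) (nat_lit 192) (nat_lit 0))), (nat_lit 0x7d000000000000007d000000000000007d)⟩]⟩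
def e880 : En := ⟨(nat_lit 62), (nat_lit 65809), (nat_lit 25625), (nat_lit 24), [⟨(nat_lit 0), (nat_lit 40), (nat_lit 0x17700000000000002710000000000000271), (nb (nat_lit 0xfa000000000000036b000000000000036b0000000000000271) (nat_lit 1216) (nb (nat_lit 250) (nat_lit 192) (nat_lit 0)))⟩, ⟨(nat_lit 4), (nat_lit 42), (nat_lit 0xfa000000000000036b000000000000036b0000000000000271), (nb (nat_lit 0x27100000000000003e800000000000002ee0000000000000177) (nat_lit 1216) (nat_lit 0))⟩, ⟨(nat_lit 6), (nat_lit 52), (nat_lit 0x1f400000000000002ee00000000000002ee00000000000001f4), (nb (nat_lit 0x271000000000000027100000000000001f4000000000000007d) (nat_lit 1216) (nat_lit 0))⟩, ⟨(nat_lit 8), (nat_lit 58), (nb (nat_lit 0x177000000000000007d) (nat_lit 1344) (nat_lit 0x7d000000000000007d)), (nb (nat_lit 0x177000000000000007d) (nat_lit 1216) (nb (nat_lit 0x17700000000000001f4) (nat_lit 128) (nat_lit 0)))⟩, ⟨(nat_lit 10), (nat_lit 12), (nat_lit 0x1f40000000000000465000000000000036b),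 (nb (nat_lit 0xfa00000000000004e2000000000000055f00000000000002ee) (nat_lit 1216) (nb (nat_lit 375) (nat_lit 192) (nat_lit 0)))⟩, ⟨(nat_lit 16), (nat_lit 20), (nat_lit 0x7d000000000000007d000000000000000000000000000000fa), (nb (nat_lit 0xfa000000000000007d000000000000007d00000000000000fa) (nat_lit 1216) (nat_lit 0))⟩, ⟨(nat_lit 22), (nat_lit 28), (nb (nat_lit 0x17700000000000000fa00000000000000fa) (nat_lit 1216) (nb (nat_lit 250) (nat_lit 192) (nat_lit 0))), (nat_lit 0x7d000000000000007d000000000000007d)⟩]⟩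
def e881 : En := ⟨(nat_lit 64), (nat_lit 69649), (nat_lit 25625), (nat_lit 24), [⟨(nat_lit 0), (nat_lit 50), (nb (nat_lit 0x177000000000000007d) (nat_lit 1344) (nat_lit 0x7d000000000000007d)), (nb (nat_lit 0x177000000000000007d) (nat_lit 1216) (nb (nat_lit 0x17700000000000001f4) (nat_lit 128) (nat_lit 0)))⟩, ⟨(nat_lit 2), (nat_lit 42), (nat_lit 0x17700000000000002710000000000000271), (nb (nat_lit 0xfa000000000000036b000000000000036b0000000000000271) (nat_lit 1216) (nb (nat_lit 250) (nat_lit 192) (nat_lit 0)))⟩, ⟨(nat_lit 6), (nat_lit 44), (nat_lit 0xfa000000000000036b000000000000036b0000000000000271), (nb (nat_lit 0x27100000000000003e800000000000002ee0000000000000177) (nat_lit 1216) (nat_lit 0))⟩, ⟨(nat_lit 8), (nat_lit 54), (nat_lit 0x1f400000000000002ee00000000000002ee00000000000001f4), (nb (nat_lit 0x271000000000000027100000000000001f4000000000000007d) (nat_lit 1216) (nat_lit 0))⟩, ⟨(nat_lit 12), (nat_lit 14), (nat_lit 0x1f40000000000000465000000000000036b),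 (nb (nat_lit 0xfa00000000000004e2000000000000055f00000000000002ee) (nat_lit 1216) (nb (nat_lit 375) (nat_lit 192) (nat_lit 0)))⟩, ⟨(nat_lit 18), (nat_lit 22), (nat_lit 0x7d000000000000007d000000000000000000000000000000fa), (nb (nat_lit 0xfa000000000000007d000000000000007d00000000000000fa) (nat_lit 1216) (nat_lit 0))⟩, ⟨(nat_lit 20), (nat_lit 24), (nat_lit 0x7d000000000000007d000000000000007d), (nb (nat_lit 0x17700000000000000fa00000000000000fa) (nat_lit 1216) (nb (nat_lit 250) (nat_lit 192) (nat_lit 0)))⟩]⟩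
def e882 : En := ⟨(nat_lit 66), (nat_lit 69889), (nat_lit 25625), (nat_lit 24), [⟨(nat_lit 0), (nat_lit 56), (nat_lit 0x1f400000000000002ee00000000000002ee00000000000001f4), (nb (nat_lit 0x271000000000000027100000000000001f4000000000000007d) (nat_lit 1216) (nat_lit 0))⟩, ⟨(nat_lit 2), (nat_lit 52), (nb (nat_lit 0x177000000000000007d) (nat_lit 1344) (nat_lit 0x7d000000000000007d)), (nb (nat_lit 0x177000000000000007d) (nat_lit 1216) (nb (nat_lit 0x17700000000000001f4) (nat_lit 128) (nat_lit 0)))⟩, ⟨(nat_lit 4), (nat_lit 44), (nat_lit 0x17700000000000002710000000000000271), (nb (nat_lit 0xfa000000000000036b000000000000036b0000000000000271) (nat_lit 1216) (nb (nat_lit 250) (nat_lit 192) (nat_lit 0)))⟩, ⟨(nat_lit 8), (nat_lit 46), (nat_lit 0xfa000000000000036b000000000000036b0000000000000271), (nb (nat_lit 0x27100000000000003e800000000000002ee0000000000000177) (nat_lit 1216) (nat_lit 0))⟩, ⟨(nat_lit 10), (nat_lit 24), (nat_lit 0x7d000000000000007d000000000000000000000000000000fa),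 (nb (nat_lit 0xfa000000000000007d000000000000007d00000000000000fa) (nat_lit 1216) (nat_lit 0))⟩, ⟨(nat_lit 14), (nat_lit 16), (nat_lit 0x1f40000000000000465000000000000036b), (nb (nat_lit 0xfa00000000000004e2000000000000055f00000000000002ee) (nat_lit 1216) (nb (nat_lit 375) (nat_lit 192) (nat_lit 0)))⟩, ⟨(nat_lit 22), (nat_lit 26), (nat_lit 0x7d000000000000007d000000000000007d), (nb (nat_lit 0x17700000000000000fa00000000000000fa) (nat_lit 1216) (nb (nat_lit 250) (nat_lit 192) (nat_lit 0)))⟩]⟩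
def e883 : En := ⟨(nat_lit 68), (nat_lit 69904), (nat_lit 25625), (nat_lit 24), [⟨(nat_lit 0), (nat_lit 48), (nat_lit 0xfa000000000000036b000000000000036b0000000000000271), (nb (nat_lit 0x27100000000000003e800000000000002ee0000000000000177) (nat_lit 1216) (nat_lit 0))⟩, ⟨(nat_lit 2), (nat_lit 58), (nat_lit 0x1f400000000000002ee00000000000002ee00000000000001f4), (nb (nat_lit 0x271000000000000027100000000000001f4000000000000007d) (nat_lit 1216) (nat_lit 0))⟩, ⟨(nat_lit 4), (nat_lit 54), (nb (nat_lit 0x177000000000000007d) (nat_lit 1344) (nat_lit 0x7d000000000000007d)), (nb (nat_lit 0x177000000000000007d) (nat_lit 1216) (nb (nat_lit 0x17700000000000001f4) (nat_lit 128) (nat_lit 0)))⟩, ⟨(nat_lit 6), (nat_lit 46), (nat_lit 0x17700000000000002710000000000000271), (nb (nat_lit 0xfa000000000000036b000000000000036b0000000000000271) (nat_lit 1216) (nb (nat_lit 250) (nat_lit 192) (nat_lit 0)))⟩, ⟨(nat_lit 12), (nat_lit 26), (nat_lit 0x7d000000000000007d000000000000000000000000000000fa),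 (nb (nat_lit 0xfa000000000000007d000000000000007d00000000000000fa) (nat_lit 1216) (nat_lit 0))⟩, ⟨(nat_lit 16), (nat_lit 18), (nat_lit 0x1f40000000000000465000000000000036b), (nb (nat_lit 0xfa00000000000004e2000000000000055f00000000000002ee) (nat_lit 1216) (nb (nat_lit 375) (nat_lit 192) (nat_lit 0)))⟩, ⟨(nat_lit 24), (nat_lit 28), (nat_lit 0x7d000000000000007d000000000000007d), (nb (nat_lit 0x17700000000000000fa00000000000000fa) (nat_lit 1216) (nb (nat_lit 250) (nat_lit 192) (nat_lit 0)))⟩]⟩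
def e884 : En := ⟨(nat_lit 40), (nat_lit 273), (nat_lit 8950), (nat_lit 24), [⟨(nat_lit 4), (nat_lit 20), (nb (nat_lit 0xc800000000000001900000000000000258000000000000012c) (nat_lit 1216) (nat_lit 0)), (nat_lit 0x3200000000000000e1000000000000020d00000000000001c2)⟩, ⟨(nat_lit 6), (nat_lit 10), (nb (nat_lit 0x7d000000000000027100000000000003e800000000000002ee) (nat_lit 1216) (nb (nat_lit 250) (nat_lit 192) (nat_lit 0))), (nat_lit 0x7d000000000000027100000000000002ee)⟩, ⟨(nat_lit 8), (nat_lit 28), (nb (nat_lit 0xe1000000000000019000000000000001c2) (nat_lit 1216) (nb (nat_lit 0x12c0000000000000064) (nat_lit 128) (nat_lit 0))), (nb (nat_lit 75) (nat_lit 1408) (nat_lit 0x64000000000000012c))⟩]⟩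
def e885 : En := ⟨(nat_lit 42), (nat_lit 65553), (nat_lit 8950), (nat_lit 24), [⟨(nat_lit 0), (nat_lit 20), (nb (nat_lit 0xe1000000000000019000000000000001c2) (nat_lit 1216) (nb (nat_lit 0x12c0000000000000064) (nat_lit 128) (nat_lit 0))), (nb (nat_lit 75) (nat_lit 1408) (nat_lit 0x64000000000000012c))⟩, ⟨(nat_lit 6), (nat_lit 22), (nb (nat_lit 0xc800000000000001900000000000000258000000000000012c) (nat_lit 1216) (nat_lit 0)), (nat_lit 0x3200000000000000e1000000000000020d00000000000001c2)⟩, ⟨(nat_lit 8), (nat_lit 12), (nb (nat_lit 0x7d000000000000027100000000000003e800000000000002ee) (nat_lit 1216) (nb (nat_lit 250) (nat_lit 192) (nat_lit 0))), (nat_lit 0x7d000000000000027100000000000002ee)⟩]⟩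
def e886 : En := ⟨(nat_lit 44), (nat_lit 69633), (nat_lit 8950), (nat_lit 24), [⟨(nat_lit 0), (nat_lit 14), (nb (nat_lit 0x7d000000000000027100000000000003e800000000000002ee) (nat_lit 1216) (nb (nat_lit 250) (nat_lit 192) (nat_lit 0))), (nat_lit 0x7d000000000000027100000000000002ee)⟩, ⟨(nat_lit 2), (nat_lit 22), (nb (nat_lit 0xe1000000000000019000000000000001c2) (nat_lit 1216) (nb (nat_lit 0x12c0000000000000064) (nat_lit 128) (nat_lit 0))), (nb (nat_lit 75) (nat_lit 1408) (nat_lit 0x64000000000000012c))⟩, ⟨(nat_lit 8), (nat_lit 24), (nb (nat_lit 0xc800000000000001900000000000000258000000000000012c) (nat_lit 1216) (nat_lit 0)), (nat_lit 0x3200000000000000e1000000000000020d00000000000001c2)⟩]⟩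
def e887 : En := ⟨(nat_lit 46), (nat_lit 69888), (nat_lit 8950), (nat_lit 24), [⟨(nat_lit 0), (nat_lit 26), (nb (nat_lit 0xc800000000000001900000000000000258000000000000012c) (nat_lit 1216) (nat_lit 0)), (nat_lit 0x3200000000000000e1000000000000020d00000000000001c2)⟩, ⟨(nat_lit 2), (nat_lit 16), (nb (nat_lit 0x7d000000000000027100000000000003e800000000000002ee) (nat_lit 1216) (nb (nat_lit 250) (nat_lit 192) (nat_lit 0))), (nat_lit 0x7d000000000000027100000000000002ee)⟩, ⟨(nat_lit 4), (nat_lit 24), (nb (nat_lit 0xe1000000000000019000000000000001c2) (nat_lit 1216) (nb (nat_lit 0x12c0000000000000064) (nat_lit 128) (nat_lit 0))), (nb (nat_lit 75) (nat_lit 1408) (nat_lit 0x64000000000000012c))⟩]⟩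
def e888 : En := ⟨(nat_lit 48), (nat_lit 4368), (nat_lit 8950), (nat_lit 24), [⟨(nat_lit 2), (nat_lit 28), (nb (nat_lit 0xc800000000000001900000000000000258000000000000012c) (nat_lit 1216) (nat_lit 0)), (nat_lit 0x3200000000000000e1000000000000020d00000000000001c2)⟩, ⟨(nat_lit 4), (nat_lit 18), (nb (nat_lit 0x7d000000000000027100000000000003e800000000000002ee) (nat_lit 1216) (nb (nat_lit 250) (nat_lit 192) (nat_lit 0))), (nat_lit 0x7d000000000000027100000000000002ee)⟩, ⟨(nat_lit 6), (nat_lit 26), (nb (nat_lit 0xe1000000000000019000000000000001c2) (nat_lit 1216) (nb (nat_lit 0x12c0000000000000064) (nat_lit 128) (nat_lit 0))), (nb (nat_lit 75) (nat_lit 1408) (nat_lit 0x64000000000000012c))⟩]⟩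
def e889 : En := ⟨(nat_lit 50), (nat_lit 4113), (nat_lit 6550), (nat_lit 24), [⟨(nat_lit 2), (nat_lit 20), (nb (nat_lit 0xc800000000000001900000000000000258000000000000012c) (nat_lit 1216) (nat_lit 0)), (nat_lit 0x3200000000000000e1000000000000020d00000000000001c2)⟩, ⟨(nat_lit 6), (nat_lit 14), (nb (nat_lit 100) (nat_lit 1408) (nat_lit 0x3200000000000000fa)), (nb (nat_lit 0x12c000000000000012c) (nat_lit 1216) (nb (nat_lit 0xc800000000000000e1) (nat_lit 128) (nat_lit 0)))⟩, ⟨(nat_lit 8), (nat_lit 18), (nat_lit 0xfa00000000000001c200000000000001db00000000000000c8), (nb (nat_lit 0x12c0000000000000190000000000000012c) (nat_lit 1280) (nat_lit 0))⟩]⟩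
def e890 : En := ⟨(nat_lit 52), (nat_lit 65793), (nat_lit 6550), (nat_lit 24), [⟨(nat_lit 0), (nat_lit 10), (nat_lit 0xfa00000000000001c200000000000001db00000000000000c8), (nb (nat_lit 0x12c0000000000000190000000000000012c) (nat_lit 1280) (nat_lit 0))⟩, ⟨(nat_lit 4), (nat_lit 22), (nb (nat_lit 0xc800000000000001900000000000000258000000000000012c) (nat_lit 1216) (nat_lit 0)), (nat_lit 0x3200000000000000e1000000000000020d00000000000001c2)⟩, ⟨(nat_lit 8), (nat_lit 16), (nb (nat_lit 100) (nat_lit 1408) (nat_lit 0x3200000000000000fa)), (nb (nat_lit 0x12c000000000000012c) (nat_lit 1216) (nb (nat_lit 0xc800000000000000e1) (nat_lit 128) (nat_lit 0)))⟩]⟩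
def e891 : En := ⟨(nat_lit 54), (nat_lit 69648), (nat_lit 6550), (nat_lit 24), [⟨(nat_lit 0), (nat_lit 18), (nb (nat_lit 100) (nat_lit 1408) (nat_lit 0x3200000000000000fa)), (nb (nat_lit 0x12c000000000000012c) (nat_lit 1216) (nb (nat_lit 0xc800000000000000e1) (nat_lit 128) (nat_lit 0)))⟩, ⟨(nat_lit 2), (nat_lit 12), (nat_lit 0xfa00000000000001c200000000000001db00000000000000c8), (nb (nat_lit 0x12c0000000000000190000000000000012c) (nat_lit 1280) (nat_lit 0))⟩, ⟨(nat_lit 6), (nat_lit 24), (nb (nat_lit 0xc800000000000001900000000000000258000000000000012c) (nat_lit 1216) (nat_lit 0)), (nat_lit 0x3200000000000000e1000000000000020d00000000000001c2)⟩]⟩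
def e892 : En := ⟨(nat_lit 56), (nat_lit 4353), (nat_lit 6550), (nat_lit 24), [⟨(nat_lit 2), (nat_lit 10), (nb (nat_lit 100) (nat_lit 1408) (nat_lit 0x3200000000000000fa)), (nb (nat_lit 0x12c000000000000012c) (nat_lit 1216) (nb (nat_lit 0xc800000000000000e1) (nat_lit 128) (nat_lit 0)))⟩, ⟨(nat_lit 4), (nat_lit 14), (nat_lit 0xfa00000000000001c200000000000001db00000000000000c8), (nb (nat_lit 0x12c0000000000000190000000000000012c) (nat_lit 1280) (nat_lit 0))⟩, ⟨(nat_lit 8), (nat_lit 26), (nb (nat_lit 0xc800000000000001900000000000000258000000000000012c) (nat_lit 1216) (nat_lit 0)), (nat_lit 0x3200000000000000e1000000000000020d00000000000001c2)⟩]⟩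
def e893 : En := ⟨(nat_lit 58), (nat_lit 65808), (nat_lit 6550), (nat_lit 24), [⟨(nat_lit 0), (nat_lit 28), (nb (nat_lit 0xc800000000000001900000000000000258000000000000012c) (nat_lit 1216) (nat_lit 0)), (nat_lit 0x3200000000000000e1000000000000020d00000000000001c2)⟩, ⟨(nat_lit 4), (nat_lit 12), (nb (nat_lit 100) (nat_lit 1408) (nat_lit 0x3200000000000000fa)), (nb (nat_lit 0x12c000000000000012c) (nat_lit 1216) (nb (nat_lit 0xc800000000000000e1) (nat_lit 128) (nat_lit 0)))⟩, ⟨(nat_lit 6), (nat_lit 16), (nat_lit 0xfa00000000000001c200000000000001db00000000000000c8), (nb (nat_lit 0x12c0000000000000190000000000000012c) (nat_lit 1280) (nat_lit 0))⟩]⟩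
def e894 : En := ⟨(nat_lit 10), (nat_lit 257), (nat_lit 2750), (nat_lit 24), [⟨(nat_lit 4), (nat_lit 8), (nb (nat_lit 0xc800000000000001900000000000000258000000000000012c) (nat_lit 1216) (nat_lit 0)), (nat_lit 0x3200000000000000e1000000000000020d00000000000001c2)⟩]⟩
def e895 : En := ⟨(nat_lit 12), (nat_lit 65552), (nat_lit 2750), (nat_lit 24), [⟨(nat_lit 0), (nat_lit 6), (nat_lit 0x3200000000000000e1000000000000020d00000000000001c2), (nb (nat_lit 0xc800000000000001900000000000000258000000000000012c) (nat_lit 1216) (nat_lit 0))⟩]⟩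
def e896 : En := ⟨(nat_lit 14), (nat_lit 4097), (nat_lit 2750), (nat_lit 24), [⟨(nat_lit 2), (nat_lit 8), (nat_lit 0x3200000000000000e1000000000000020d00000000000001c2), (nb (nat_lit 0xc800000000000001900000000000000258000000000000012c) (nat_lit 1216) (nat_lit 0))⟩]⟩
def e897 : En := ⟨(nat_lit 16), (nat_lit 65792), (nat_lit 2750), (nat_lit 24), [⟨(nat_lit 0), (nat_lit 4), (nb (nat_lit 0xc800000000000001900000000000000258000000000000012c) (nat_lit 1216) (nat_lit 0)), (nat_lit 0x3200000000000000e1000000000000020d00000000000001c2)⟩]⟩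
def e898 : En := ⟨(nat_lit 18), (nat_lit 4112), (nat_lit 2750), (nat_lit 24), [⟨(nat_lit 2), (nat_lit 6), (nb (nat_lit 0xc800000000000001900000000000000258000000000000012c) (nat_lit 1216) (nat_lit 0)), (nat_lit 0x3200000000000000e1000000000000020d00000000000001c2)⟩]⟩
def e899 : En := ⟨(nat_lit 20), (nat_lit 17), (nat_lit 2750), (nat_lit 24), [⟨(nat_lit 6), (nat_lit 8), (nb (nat_lit 0xc800000000000001900000000000000258000000000000012c) (nat_lit 1216) (nat_lit 0)), (nat_lit 0x3200000000000000e1000000000000020d00000000000001c2)⟩]⟩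
def e900 : En := ⟨(nat_lit 22), (nat_lit 65537), (nat_lit 2750), (nat_lit 24), [⟨(nat_lit 0), (nat_lit 8), (nat_lit 0x3200000000000000e1000000000000020d00000000000001c2), (nb (nat_lit 0xc800000000000001900000000000000258000000000000012c) (nat_lit 1216) (nat_lit 0))⟩]⟩
def e901 : En := ⟨(nat_lit 24), (nat_lit 69632), (nat_lit 2750), (nat_lit 24), [⟨(nat_lit 0), (nat_lit 2), (nb (nat_lit 0xc800000000000001900000000000000258000000000000012c) (nat_lit 1216) (nat_lit 0)), (nat_lit 0x3200000000000000e1000000000000020d00000000000001c2)⟩]⟩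
def e902 : En := ⟨(nat_lit 26), (nat_lit 4352), (nat_lit 2750), (nat_lit 24), [⟨(nat_lit 2), (nat_lit 4), (nb (nat_lit 0xc800000000000001900000000000000258000000000000012c) (nat_lit 1216) (nat_lit 0)), (nat_lit 0x3200000000000000e1000000000000020d00000000000001c2)⟩]⟩
def e903 : En := ⟨(nat_lit 28), (nat_lit 272), (nat_lit 2750), (nat_lit 24), [⟨(nat_lit 4), (nat_lit 6), (nb (nat_lit 0xc800000000000001900000000000000258000000000000012c) (nat_lit 1216) (nat_lit 0)), (nat_lit 0x3200000000000000e1000000000000020d00000000000001c2)⟩]⟩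
def e904 : En := ⟨(nat_lit 71), (nat_lit 69905), (nat_lit 49375), (nat_lit 24), [⟨(nat_lit 0), (nat_lit 60), (nb (nat_lit 0xc800000000000001900000000000000258000000000000012c) (nat_lit 1216) (nat_lit 0)), (nat_lit 0x3200000000000000e1000000000000020d00000000000001c2)⟩, ⟨(nat_lit 2), (nat_lit 62), (nb (nat_lit 0xc800000000000001900000000000000258000000000000012c) (nat_lit 1216) (nat_lit 0)), (nat_lit 0x3200000000000000e1000000000000020d00000000000001c2)⟩, ⟨(nat_lit 4), (nat_lit 64), (nb (nat_lit 0xc800000000000001900000000000000258000000000000012c) (nat_lit 1216) (nat_lit 0)), (nat_lit 0x3200000000000000e1000000000000020d00000000000001c2)⟩, ⟨(nat_lit 6), (nat_lit 66), (nb (nat_lit 0xc800000000000001900000000000000258000000000000012c) (nat_lit 1216) (nat_lit 0)), (nat_lit 0x3200000000000000e1000000000000020d00000000000001c2)⟩, ⟨(nat_lit 8), (nat_lit 68), (nb (nat_lit 0xc800000000000001900000000000000258000000000000012c) (nat_lit 1216) (nat_lit 0)),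 (nat_lit 0x3200000000000000e1000000000000020d00000000000001c2)⟩, ⟨(nat_lit 10), (nat_lit 54), (nat_lit 0x36b00000000000004e200000000000002710000000000000177), (nb (nat_lit 0x3e800000000000002ee000000000000007d) (nat_lit 1280) (nat_lit 0))⟩, ⟨(nat_lit 12), (nat_lit 56), (nat_lit 0x36b00000000000004e200000000000002710000000000000177), (nb (nat_lit 0x3e800000000000002ee000000000000007d) (nat_lit 1280) (nat_lit 0))⟩, ⟨(nat_lit 14), (nat_lit 58), (nat_lit 0x36b00000000000004e200000000000002710000000000000177), (nb (nat_lit 0x3e800000000000002ee000000000000007d) (nat_lit 1280) (nat_lit 0))⟩, ⟨(nat_lit 16), (nat_lit 50), (nat_lit 0x36b00000000000004e200000000000002710000000000000177), (nb (nat_lit 0x3e800000000000002ee000000000000007d) (nat_lit 1280) (nat_lit 0))⟩, ⟨(nat_lit 18), (nat_lit 52), (nat_lit 0x36b00000000000004e200000000000002710000000000000177), (nb (nat_lit 0x3e800000000000002ee000000000000007d) (nat_lit 1280) (nat_lit 0))⟩, ⟨(nat_lit 20), (nat_lit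 46), (nb (nat_lit 0x7d00000000000000fa) (nat_lit 1216) (nb (nat_lit 0x1f400000000000001f400000000000000fa) (nat_lit 64) (nat_lit 0))), (nb (nat_lit 0x177000000000000007d) (nat_lit 1344) (nat_lit 0))⟩, ⟨(nat_lit 22), (nat_lit 48), (nb (nat_lit 0x7d00000000000000fa) (nat_lit 1216) (nb (nat_lit 0x1f400000000000001f400000000000000fa) (nat_lit 64) (nat_lit 0))), (nb (nat_lit 0x177000000000000007d) (nat_lit 1344) (nat_lit 0))⟩, ⟨(nat_lit 24), (nat_lit 40), (nb (nat_lit 0x7d00000000000000fa) (nat_lit 1216) (nb (nat_lit 0x1f400000000000001f400000000000000fa) (nat_lit 64) (nat_lit 0))), (nb (nat_lit 0x177000000000000007d) (nat_lit 1344) (nat_lit 0))⟩, ⟨(nat_lit 26), (nat_lit 42), (nb (nat_lit 0x7d00000000000000fa) (nat_lit 1216) (nb (nat_lit 0x1f400000000000001f400000000000000fa) (nat_lit 64) (nat_lit 0))), (nb (nat_lit 0x177000000000000007d) (nat_lit 1344) (nat_lit 0))⟩, ⟨(nat_lit 28), (nat_lit 44), (nb (nat_lit 0x7d00000000000000fa) (nat_lit 1216) (nb (nat_lit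 0x1f400000000000001f400000000000000fa) (nat_lit 64) (nat_lit 0))), (nb (nat_lit 0x177000000000000007d) (nat_lit 1344) (nat_lit 0))⟩]⟩
def e905 : En := ⟨(nat_lit 60), (nat_lit 4369), (nat_lit 476883), (nat_lit 8), [⟨(nat_lit 2), (nat_lit 40), (nat_lit 0x3e2800000000000000000000000000001e45), (nat_lit 0x33940000000000000000000000000000463e0000000000000000)⟩, ⟨(nat_lit 4), (nat_lit 50), (nat_lit 0x50d20000000000005e0b00000000000000000000000000009001), (nat_lit 0x8160000000000000000)⟩, ⟨(nat_lit 6), (nat_lit 56), (nat_lit 0x662100000000000000000000000000005e0b0000000000000d39), (nat_lit 0x31f600000000000000000000000000000000)⟩, ⟨(nat_lit 8), (nat_lit 48), (nat_lit 0x12aa00000000000000000000000000000000), (nat_lit 0x71bc000000000000000000000000000051d90000000000003394)⟩, ⟨(nat_lit 10), (nat_lit 18), (nat_lit 0x51d900000000000013b1000000000000265b000000000000463e), (nat_lit 0)⟩, ⟨(nat_lit 14), (nat_lit 28), (nat_lit 0x58e8000000000000000000000000000050d2),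 (nat_lit 0xd3900000000000000000000000000003f2f0000000000000000)⟩, ⟨(nat_lit 20), (nat_lit 26), (nat_lit 0x84660000000000001fe30000000000003e2800000000000071bc), (nat_lit 0)⟩]⟩
def e906 : En := ⟨(nat_lit 62), (nat_lit 65809), (nat_lit 476883), (nat_lit 8), [⟨(nat_lit 0), (nat_lit 40), (nat_lit 0x12aa00000000000000000000000000000000), (nat_lit 0x71bc000000000000000000000000000051d90000000000003394)⟩, ⟨(nat_lit 4), (nat_lit 42), (nat_lit 0x3e2800000000000000000000000000001e45), (nat_lit 0x33940000000000000000000000000000463e0000000000000000)⟩, ⟨(nat_lit 6), (nat_lit 52), (nat_lit 0x50d20000000000005e0b00000000000000000000000000009001), (nat_lit 0x8160000000000000000)⟩, ⟨(nat_lit 8), (nat_lit 58), (nat_lit 0x662100000000000000000000000000005e0b0000000000000d39), (nat_lit 0x31f600000000000000000000000000000000)⟩, ⟨(nat_lit 10), (nat_lit 12), (nat_lit 0), (nat_lit 0x51d900000000000013b1000000000000265b000000000000463e)⟩, ⟨(nat_lit 16), (nat_lit 20), (nat_lit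 0x58e8000000000000000000000000000050d2), (nat_lit 0xd3900000000000000000000000000003f2f0000000000000000)⟩, ⟨(nat_lit 22), (nat_lit 28), (nat_lit 0x84660000000000001fe30000000000003e2800000000000071bc), (nat_lit 0)⟩]⟩
def e907 : En := ⟨(nat_lit 64), (nat_lit 69649), (nat_lit 476883), (nat_lit 8), [⟨(nat_lit 0), (nat_lit 50), (nat_lit 0x662100000000000000000000000000005e0b0000000000000d39), (nat_lit 0x31f600000000000000000000000000000000)⟩, ⟨(nat_lit 2), (nat_lit 42), (nat_lit 0x12aa00000000000000000000000000000000), (nat_lit 0x71bc000000000000000000000000000051d90000000000003394)⟩, ⟨(nat_lit 6), (nat_lit 44), (nat_lit 0x3e2800000000000000000000000000001e45), (nat_lit 0x33940000000000000000000000000000463e0000000000000000)⟩, ⟨(nat_lit 8), (nat_lit 54), (nat_lit 0x50d20000000000005e0b00000000000000000000000000009001), (nat_lit 0x8160000000000000000)⟩, ⟨(nat_lit 12), (nat_lit 14), (nat_lit 0), (nat_lit 0x51d900000000000013b1000000000000265b000000000000463e)⟩,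 ⟨(nat_lit 18), (nat_lit 22), (nat_lit 0x58e8000000000000000000000000000050d2), (nat_lit 0xd3900000000000000000000000000003f2f0000000000000000)⟩, ⟨(nat_lit 20), (nat_lit 24), (nat_lit 0), (nat_lit 0x84660000000000001fe30000000000003e2800000000000071bc)⟩]⟩
def e908 : En := ⟨(nat_lit 66), (nat_lit 69889), (nat_lit 476883), (nat_lit 8), [⟨(nat_lit 0), (nat_lit 56), (nat_lit 0x50d20000000000005e0b00000000000000000000000000009001), (nat_lit 0x8160000000000000000)⟩, ⟨(nat_lit 2), (nat_lit 52), (nat_lit 0x662100000000000000000000000000005e0b0000000000000d39), (nat_lit 0x31f600000000000000000000000000000000)⟩, ⟨(nat_lit 4), (nat_lit 44), (nat_lit 0x12aa00000000000000000000000000000000), (nat_lit 0x71bc000000000000000000000000000051d90000000000003394)⟩, ⟨(nat_lit 8), (nat_lit 46), (nat_lit 0x3e2800000000000000000000000000001e45), (nat_lit 0x33940000000000000000000000000000463e0000000000000000)⟩, ⟨(nat_lit 10), (nat_lit 24), (nat_lit 0x58e8000000000000000000000000000050d2),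 (nat_lit 0xd3900000000000000000000000000003f2f0000000000000000)⟩, ⟨(nat_lit 14), (nat_lit 16), (nat_lit 0), (nat_lit 0x51d900000000000013b1000000000000265b000000000000463e)⟩, ⟨(nat_lit 22), (nat_lit 26), (nat_lit 0), (nat_lit 0x84660000000000001fe30000000000003e2800000000000071bc)⟩]⟩
def e909 : En := ⟨(nat_lit 68), (nat_lit 69904), (nat_lit 476883), (nat_lit 8), [⟨(nat_lit 0), (nat_lit 48), (nat_lit 0x3e2800000000000000000000000000001e45), (nat_lit 0x33940000000000000000000000000000463e0000000000000000)⟩, ⟨(nat_lit 2), (nat_lit 58), (nat_lit 0x50d20000000000005e0b00000000000000000000000000009001), (nat_lit 0x8160000000000000000)⟩, ⟨(nat_lit 4), (nat_lit 54), (nat_lit 0x662100000000000000000000000000005e0b0000000000000d39), (nat_lit 0x31f600000000000000000000000000000000)⟩, ⟨(nat_lit 6), (nat_lit 46), (nat_lit 0x12aa00000000000000000000000000000000), (nat_lit 0x71bc000000000000000000000000000051d90000000000003394)⟩, ⟨(nat_lit 12), (nat_lit 26), (nat_lit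 0x58e8000000000000000000000000000050d2), (nat_lit 0xd3900000000000000000000000000003f2f0000000000000000)⟩, ⟨(nat_lit 16), (nat_lit 18), (nat_lit 0), (nat_lit 0x51d900000000000013b1000000000000265b000000000000463e)⟩, ⟨(nat_lit 24), (nat_lit 28), (nat_lit 0), (nat_lit 0x84660000000000001fe30000000000003e2800000000000071bc)⟩]⟩
def e910 : En := ⟨(nat_lit 40), (nat_lit 273), (nat_lit 131962), (nat_lit 8), [⟨(nat_lit 4), (nat_lit 20), (nat_lit 0), (nat_lit 0x3e280000000000002b7e0000000000000b9b00000000000051d9)⟩, ⟨(nat_lit 6), (nat_lit 10), (nat_lit 0x816000000000000000000000000000026f20000000000000000), (nat_lit 0x3719000000000000000000000000000031f6)⟩, ⟨(nat_lit 8), (nat_lit 28), (nat_lit 0x463e0000000000000000000000000000328d0000000000001fe3), (nat_lit 0xb9b00000000000000000000000000000000)⟩]⟩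
def e911 : En := ⟨(nat_lit 42), (nat_lit 65553), (nat_lit 131962), (nat_lit 8), [⟨(nat_lit 0), (nat_lit 20), (nat_lit 0x463e0000000000000000000000000000328d0000000000001fe3), (nat_lit 0xb9b00000000000000000000000000000000)⟩, ⟨(nat_lit 6), (nat_lit 22), (nat_lit 0), (nat_lit 0x3e280000000000002b7e0000000000000b9b00000000000051d9)⟩, ⟨(nat_lit 8), (nat_lit 12), (nat_lit 0x816000000000000000000000000000026f20000000000000000), (nat_lit 0x3719000000000000000000000000000031f6)⟩]⟩
def e912 : En := ⟨(nat_lit 44), (nat_lit 69633), (nat_lit 131962), (nat_lit 8), [⟨(nat_lit 0), (nat_lit 14), (nat_lit 0x816000000000000000000000000000026f20000000000000000), (nat_lit 0x3719000000000000000000000000000031f6)⟩, ⟨(nat_lit 2), (nat_lit 22), (nat_lit 0x463e0000000000000000000000000000328d0000000000001fe3), (nat_lit 0xb9b00000000000000000000000000000000)⟩, ⟨(nat_lit 8), (nat_lit 24), (nat_lit 0), (nat_lit 0x3e280000000000002b7e0000000000000b9b00000000000051d9)⟩]⟩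
def e913 : En := ⟨(nat_lit 46), (nat_lit 69888), (nat_lit 131962), (nat_lit 8), [⟨(nat_lit 0), (nat_lit 26), (nat_lit 0), (nat_lit 0x3e280000000000002b7e0000000000000b9b00000000000051d9)⟩, ⟨(nat_lit 2), (nat_lit 16), (nat_lit 0x816000000000000000000000000000026f20000000000000000), (nat_lit 0x3719000000000000000000000000000031f6)⟩, ⟨(nat_lit 4), (nat_lit 24), (nat_lit 0x463e0000000000000000000000000000328d0000000000001fe3), (nat_lit 0xb9b00000000000000000000000000000000)⟩]⟩
def e914 : En := ⟨(nat_lit 48), (nat_lit 4368), (nat_lit 131962), (nat_lit 8), [⟨(nat_lit 2), (nat_lit 28), (nat_lit 0), (nat_lit 0x3e280000000000002b7e0000000000000b9b00000000000051d9)⟩, ⟨(nat_lit 4), (nat_lit 18), (nat_lit 0x816000000000000000000000000000026f20000000000000000), (nat_lit 0x3719000000000000000000000000000031f6)⟩, ⟨(nat_lit 6), (nat_lit 26), (nat_lit 0x463e0000000000000000000000000000328d0000000000001fe3), (nat_lit 0xb9b00000000000000000000000000000000)⟩]⟩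
def e915 : En := ⟨(nat_lit 50), (nat_lit 4113), (nat_lit 103070), (nat_lit 8), [⟨(nat_lit 2), (nat_lit 20), (nat_lit 0), (nat_lit 0x3e280000000000002b7e0000000000000b9b00000000000051d9)⟩, ⟨(nat_lit 6), (nat_lit 14), (nat_lit 0x16560000000000001a02000000000000000000000000000027d2), (nat_lit 0x2350000000000000000)⟩, ⟨(nat_lit 8), (nat_lit 18), (nat_lit 0x27d2000000000000117c0000000000000dd00000000000002a07), (nat_lit 0)⟩]⟩
def e916 : En := ⟨(nat_lit 52), (nat_lit 65793), (nat_lit 103070), (nat_lit 8), [⟨(nat_lit 0), (nat_lit 10), (nat_lit 0x27d2000000000000117c0000000000000dd00000000000002a07), (nat_lit 0)⟩, ⟨(nat_lit 4), (nat_lit 22), (nat_lit 0), (nat_lit 0x3e280000000000002b7e0000000000000b9b00000000000051d9)⟩, ⟨(nat_lit 8), (nat_lit 16), (nat_lit 0x16560000000000001a02000000000000000000000000000027d2), (nat_lit 0x2350000000000000000)⟩]⟩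
def e917 : En := ⟨(nat_lit 54), (nat_lit 69648), (nat_lit 103070), (nat_lit 8), [⟨(nat_lit 0), (nat_lit 18), (nat_lit 0x16560000000000001a02000000000000000000000000000027d2), (nat_lit 0x2350000000000000000)⟩, ⟨(nat_lit 2), (nat_lit 12), (nat_lit 0x27d2000000000000117c0000000000000dd00000000000002a07), (nat_lit 0)⟩, ⟨(nat_lit 6), (nat_lit 24), (nat_lit 0), (nat_lit 0x3e280000000000002b7e0000000000000b9b00000000000051d9)⟩]⟩
def e918 : En := ⟨(nat_lit 56), (nat_lit 4353), (nat_lit 103070), (nat_lit 8), [⟨(nat_lit 2), (nat_lit 10), (nat_lit 0x16560000000000001a02000000000000000000000000000027d2), (nat_lit 0x2350000000000000000)⟩, ⟨(nat_lit 4), (nat_lit 14), (nat_lit 0x27d2000000000000117c0000000000000dd00000000000002a07), (nat_lit 0)⟩, ⟨(nat_lit 8), (nat_lit 26), (nat_lit 0), (nat_lit 0x3e280000000000002b7e0000000000000b9b00000000000051d9)⟩]⟩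
def e919 : En := ⟨(nat_lit 58), (nat_lit 65808), (nat_lit 103070), (nat_lit 8), [⟨(nat_lit 0), (nat_lit 28), (nat_lit 0), (nat_lit 0x3e280000000000002b7e0000000000000b9b00000000000051d9)⟩, ⟨(nat_lit 4), (nat_lit 12), (nat_lit 0x16560000000000001a02000000000000000000000000000027d2), (nat_lit 0x2350000000000000000)⟩, ⟨(nat_lit 6), (nat_lit 16), (nat_lit 0x27d2000000000000117c0000000000000dd00000000000002a07), (nat_lit 0)⟩]⟩
def e920 : En := ⟨(nat_lit 10), (nat_lit 257), (nat_lit 50970), (nat_lit 8), [⟨(nat_lit 4), (nat_lit 8), (nat_lit 0), (nat_lit 0x3e280000000000002b7e0000000000000b9b00000000000051d9)⟩]⟩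
def e921 : En := ⟨(nat_lit 12), (nat_lit 65552), (nat_lit 50970), (nat_lit 8), [⟨(nat_lit 0), (nat_lit 6), (nat_lit 0x3e280000000000002b7e0000000000000b9b00000000000051d9), (nat_lit 0)⟩]⟩
def e922 : En := ⟨(nat_lit 14), (nat_lit 4097), (nat_lit 50970), (nat_lit 8), [⟨(nat_lit 2), (nat_lit 8), (nat_lit 0x3e280000000000002b7e0000000000000b9b00000000000051d9), (nat_lit 0)⟩]⟩
def e923 : En := ⟨(nat_lit 16), (nat_lit 65792), (nat_lit 50970), (nat_lit 8), [⟨(nat_lit 0), (nat_lit 4), (nat_lit 0), (nat_lit 0x3e280000000000002b7e0000000000000b9b00000000000051d9)⟩]⟩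
def e924 : En := ⟨(nat_lit 18), (nat_lit 4112), (nat_lit 50970), (nat_lit 8), [⟨(nat_lit 2), (nat_lit 6), (nat_lit 0), (nat_lit 0x3e280000000000002b7e0000000000000b9b00000000000051d9)⟩]⟩
def e925 : En := ⟨(nat_lit 20), (nat_lit 17), (nat_lit 50970), (nat_lit 8), [⟨(nat_lit 6), (nat_lit 8), (nat_lit 0), (nat_lit 0x3e280000000000002b7e0000000000000b9b00000000000051d9)⟩]⟩
def e926 : En := ⟨(nat_lit 22), (nat_lit 65537), (nat_lit 50970), (nat_lit 8), [⟨(nat_lit 0), (nat_lit 8), (nat_lit 0x3e280000000000002b7e0000000000000b9b00000000000051d9), (nat_lit 0)⟩]⟩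
def e927 : En := ⟨(nat_lit 24), (nat_lit 69632), (nat_lit 50970), (nat_lit 8), [⟨(nat_lit 0), (nat_lit 2), (nat_lit 0), (nat_lit 0x3e280000000000002b7e0000000000000b9b00000000000051d9)⟩]⟩
def e928 : En := ⟨(nat_lit 26), (nat_lit 4352), (nat_lit 50970), (nat_lit 8), [⟨(nat_lit 2), (nat_lit 4), (nat_lit 0), (nat_lit 0x3e280000000000002b7e0000000000000b9b00000000000051d9)⟩]⟩
def e929 : En := ⟨(nat_lit 28), (nat_lit 272), (nat_lit 50970), (nat_lit 8), [⟨(nat_lit 4), (nat_lit 6), (nat_lit 0), (nat_lit 0x3e280000000000002b7e0000000000000b9b00000000000051d9)⟩]⟩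
def e930 : En := ⟨(nat_lit 71), (nat_lit 69905), (nat_lit 0xf8e21), (nat_lit 8), [⟨(nat_lit 0), (nat_lit 60), (nat_lit 0), (nat_lit 0x3e280000000000002b7e0000000000000b9b00000000000051d9)⟩, ⟨(nat_lit 2), (nat_lit 62), (nat_lit 0), (nat_lit 0x3e280000000000002b7e0000000000000b9b00000000000051d9)⟩, ⟨(nat_lit 4), (nat_lit 64), (nat_lit 0), (nat_lit 0x3e280000000000002b7e0000000000000b9b00000000000051d9)⟩, ⟨(nat_lit 6), (nat_lit 66), (nat_lit 0), (nat_lit 0x3e280000000000002b7e0000000000000b9b00000000000051d9)⟩, ⟨(nat_lit 8), (nat_lit 68), (nat_lit 0), (nat_lit 0x3e280000000000002b7e0000000000000b9b00000000000051d9)⟩, ⟨(nat_lit 10), (nat_lit 54), (nat_lit 0x9001000000000000000000000000000082c8), (nat_lit 0x154f000000000000000000000000000066210000000000000000)⟩, ⟨(nat_lit 12), (nat_lit 56), (nat_lit 0x9001000000000000000000000000000082c8), (nat_lit 0x154f000000000000000000000000000066210000000000000000)⟩, ⟨(nat_lit 14), (nat_lit 58), (nat_lit 0x9001000000000000000000000000000082c8),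 (nat_lit 0x154f000000000000000000000000000066210000000000000000)⟩, ⟨(nat_lit 16), (nat_lit 50), (nat_lit 0x9001000000000000000000000000000082c8), (nat_lit 0x154f000000000000000000000000000066210000000000000000)⟩, ⟨(nat_lit 18), (nat_lit 52), (nat_lit 0x9001000000000000000000000000000082c8), (nat_lit 0x154f000000000000000000000000000066210000000000000000)⟩, ⟨(nat_lit 20), (nat_lit 46), (nat_lit 0x3e280000000000002b7e0000000000000b9b00000000000051d9), (nat_lit 0)⟩, ⟨(nat_lit 22), (nat_lit 48), (nat_lit 0x3e280000000000002b7e0000000000000b9b00000000000051d9), (nat_lit 0)⟩, ⟨(nat_lit 24), (nat_lit 40), (nat_lit 0x3e280000000000002b7e0000000000000b9b00000000000051d9), (nat_lit 0)⟩, ⟨(nat_lit 26), (nat_lit 42), (nat_lit 0x3e280000000000002b7e0000000000000b9b00000000000051d9), (nat_lit 0)⟩, ⟨(nat_lit 28), (nat_lit 44), (nat_lit 0x3e280000000000002b7e0000000000000b9b00000000000051d9), (nat_lit 0)⟩]⟩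
def e931 : En := ⟨(nat_lit 60), (nat_lit 4369), (nat_lit 0x14641b), (nat_lit 216), [⟨(nat_lit 2), (nat_lit 40), (nb (nat_lit 0x33400000000000012eb0000000000002bd9) (nat_lit 3648) (nb (nat_lit 0x70330000000000003bcd0000000000001e39) (nat_lit 2496) (nat_lit 0x15e60000000000003bb5000000000000257b0000000000001560))), (nb (nat_lit 7660) (nat_lit 3840) (nb (nat_lit 4815) (nat_lit 2432) (nb (nat_lit 0x66590000000000007090000000000000356700000000000020d8) (nat_lit 1216) (nat_lit 0))))⟩, ⟨(nat_lit 4), (nat_lit 50), (nb (nat_lit 6175) (nat_lit 3648) (nb (nat_lit 0x45a000000000000052d200000000000075ae000000000000001c) (nat_lit 2432) (nat_lit 0x11810000000000002383000000000000306a0000000000003425))), (nb (nat_lit 0x16430000000000002aba0000000000001b8d) (nat_lit 3712) (nb (nat_lit 0x59610000000000005cd400000000000087ca0000000000004c8e) (nat_lit 1216) (nat_lit 0)))⟩, ⟨(nat_lit 6), (nat_lit 56), (nb (nat_lit 11189) (nat_lit 3840) (nb (nat_lit 3214) (nat_lit 2432)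 (nb (nat_lit 0x68d10000000000008733000000000000320c000000000000232c) (nat_lit 1216) (nat_lit 0)))), (nb (nat_lit 0x100000000000000171a00000000000031b4) (nat_lit 3648) (nb (nat_lit 0x89650000000000004f490000000000001bd9) (nat_lit 2496) (nat_lit 0xf2d00000000000042d90000000000002aba0000000000001477)))⟩, ⟨(nat_lit 8), (nat_lit 48), (nb (nat_lit 0x22300000000000002b0c0000000000002760) (nat_lit 3648) (nb (nat_lit 0x5df90000000000001125) (nat_lit 2560) (nb (nat_lit 0x17190000000000000a5a) (nat_lit 1216) (nb (nat_lit 0x11f900000000000034830000000000000ece) (nat_lit 64) (nat_lit 0))))), (nb (nat_lit 5435) (nat_lit 3840) (nb (nat_lit 0x29c40000000000001a20) (nat_lit 2432) (nb (nat_lit 0x482d0000000000004f51) (nat_lit 1344) (nat_lit 1937))))⟩, ⟨(nat_lit 10), (nat_lit 18), (nb (nat_lit 0x2a810000000000005515000000000000192c) (nat_lit 2432) (nb (nat_lit 2688) (nat_lit 1408) (nat_lit 0x102e0000000000001ddc))), (nb (nat_lit 0x62000000000000030220000000000002a490000000000000ddf)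 (nat_lit 3648) (nb (nat_lit 4449) (nat_lit 2624) (nb (nat_lit 0x2e70000000000004f080000000000002e0a) (nat_lit 1216) (nb (nat_lit 0xb1e000000000000110e) (nat_lit 128) (nat_lit 0)))))⟩, ⟨(nat_lit 14), (nat_lit 28), (nb (nat_lit 11559) (nat_lit 3648) (nb (nat_lit 0x7ffe00000000000063d00000000000005902) (nat_lit 2496) (nat_lit 0x146f0000000000003fc600000000000038b90000000000002d7f))), (nb (nat_lit 0x28ed00000000000019b000000000000002a9) (nat_lit 3712) (nb (nat_lit 2089) (nat_lit 2432) (nb (nat_lit 0x78e20000000000008dcd0000000000007339000000000000450c) (nat_lit 1216) (nat_lit 0))))⟩, ⟨(nat_lit 20), (nat_lit 26), (nb (nat_lit 1961) (nat_lit 3840) (nb (nat_lit 0x1705000000000000577500000000000012eb) (nat_lit 2432) (nb (nat_lit 0xcf800000000000013bc) (nat_lit 1344) (nat_lit 0xaef0000000000001ec5)))), (nb (nat_lit 0x2dee0000000000002e7800000000000013ba) (nat_lit 3648) (nb (nat_lit 10899) (nat_lit 2624) (nb (nat_lit 0x52630000000000002bb6) (nat_lit 1216) (nb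 (nat_lit 0x4650000000000001832) (nat_lit 128) (nat_lit 0)))))⟩]⟩
def e932 : En := ⟨(nat_lit 62), (nat_lit 65809), (nat_lit 0x14641b), (nat_lit 216), [⟨(nat_lit 0), (nat_lit 40), (nb (nat_lit 0x22300000000000002b0c0000000000002760) (nat_lit 3648) (nb (nat_lit 0x5df90000000000001125) (nat_lit 2560) (nb (nat_lit 0x17190000000000000a5a) (nat_lit 1216) (nb (nat_lit 0x11f900000000000034830000000000000ece) (nat_lit 64) (nat_lit 0))))), (nb (nat_lit 5435) (nat_lit 3840) (nb (nat_lit 0x29c40000000000001a20) (nat_lit 2432) (nb (nat_lit 0x482d0000000000004f51) (nat_lit 1344) (nat_lit 1937))))⟩, ⟨(nat_lit 4), (nat_lit 42), (nb (nat_lit 0x33400000000000012eb0000000000002bd9) (nat_lit 3648) (nb (nat_lit 0x70330000000000003bcd0000000000001e39) (nat_lit 2496) (nat_lit 0x15e60000000000003bb5000000000000257b0000000000001560))), (nb (nat_lit 7660) (nat_lit 3840) (nb (nat_lit 4815) (nat_lit 2432) (nb (nat_lit 0x66590000000000007090000000000000356700000000000020d8) (nat_lit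 1216) (nat_lit 0))))⟩, ⟨(nat_lit 6), (nat_lit 52), (nb (nat_lit 6175) (nat_lit 3648) (nb (nat_lit 0x45a000000000000052d200000000000075ae000000000000001c) (nat_lit 2432) (nat_lit 0x11810000000000002383000000000000306a0000000000003425))), (nb (nat_lit 0x16430000000000002aba0000000000001b8d) (nat_lit 3712) (nb (nat_lit 0x59610000000000005cd400000000000087ca0000000000004c8e) (nat_lit 1216) (nat_lit 0)))⟩, ⟨(nat_lit 8), (nat_lit 58), (nb (nat_lit 11189) (nat_lit 3840) (nb (nat_lit 3214) (nat_lit 2432) (nb (nat_lit 0x68d10000000000008733000000000000320c000000000000232c) (nat_lit 1216) (nat_lit 0)))), (nb (nat_lit 0x100000000000000171a00000000000031b4) (nat_lit 3648) (nb (nat_lit 0x89650000000000004f490000000000001bd9) (nat_lit 2496) (nat_lit 0xf2d00000000000042d90000000000002aba0000000000001477)))⟩, ⟨(nat_lit 10), (nat_lit 12), (nb (nat_lit 0x62000000000000030220000000000002a490000000000000ddf) (nat_lit 3648) (nb (nat_lit 4449) (nat_lit 2624) (nb (nat_lit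 0x2e70000000000004f080000000000002e0a) (nat_lit 1216) (nb (nat_lit 0xb1e000000000000110e) (nat_lit 128) (nat_lit 0))))), (nb (nat_lit 0x2a810000000000005515000000000000192c) (nat_lit 2432) (nb (nat_lit 2688) (nat_lit 1408) (nat_lit 0x102e0000000000001ddc)))⟩, ⟨(nat_lit 16), (nat_lit 20), (nb (nat_lit 11559) (nat_lit 3648) (nb (nat_lit 0x7ffe00000000000063d00000000000005902) (nat_lit 2496) (nat_lit 0x146f0000000000003fc600000000000038b90000000000002d7f))), (nb (nat_lit 0x28ed00000000000019b000000000000002a9) (nat_lit 3712) (nb (nat_lit 2089) (nat_lit 2432) (nb (nat_lit 0x78e20000000000008dcd0000000000007339000000000000450c) (nat_lit 1216) (nat_lit 0))))⟩, ⟨(nat_lit 22), (nat_lit 28), (nb (nat_lit 1961) (nat_lit 3840) (nb (nat_lit 0x1705000000000000577500000000000012eb) (nat_lit 2432) (nb (nat_lit 0xcf800000000000013bc) (nat_lit 1344) (nat_lit 0xaef0000000000001ec5)))), (nb (nat_lit 0x2dee0000000000002e7800000000000013ba) (nat_lit 3648) (nb (nat_lit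 10899) (nat_lit 2624) (nb (nat_lit 0x52630000000000002bb6) (nat_lit 1216) (nb (nat_lit 0x4650000000000001832) (nat_lit 128) (nat_lit 0)))))⟩]⟩
def e933 : En := ⟨(nat_lit 64), (nat_lit 69649), (nat_lit 0x14641b), (nat_lit 216), [⟨(nat_lit 0), (nat_lit 50), (nb (nat_lit 11189) (nat_lit 3840) (nb (nat_lit 3214) (nat_lit 2432) (nb (nat_lit 0x68d10000000000008733000000000000320c000000000000232c) (nat_lit 1216) (nat_lit 0)))), (nb (nat_lit 0x100000000000000171a00000000000031b4) (nat_lit 3648) (nb (nat_lit 0x89650000000000004f490000000000001bd9) (nat_lit 2496) (nat_lit 0xf2d00000000000042d90000000000002aba0000000000001477)))⟩, ⟨(nat_lit 2), (nat_lit 42), (nb (nat_lit 0x22300000000000002b0c0000000000002760) (nat_lit 3648) (nb (nat_lit 0x5df90000000000001125) (nat_lit 2560) (nb (nat_lit 0x17190000000000000a5a) (nat_lit 1216) (nb (nat_lit 0x11f900000000000034830000000000000ece) (nat_lit 64) (nat_lit 0))))), (nb (nat_lit 5435) (nat_lit 3840) (nb (nat_lit 0x29c40000000000001a20)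 (nat_lit 2432) (nb (nat_lit 0x482d0000000000004f51) (nat_lit 1344) (nat_lit 1937))))⟩, ⟨(nat_lit 6), (nat_lit 44), (nb (nat_lit 0x33400000000000012eb0000000000002bd9) (nat_lit 3648) (nb (nat_lit 0x70330000000000003bcd0000000000001e39) (nat_lit 2496) (nat_lit 0x15e60000000000003bb5000000000000257b0000000000001560))), (nb (nat_lit 7660) (nat_lit 3840) (nb (nat_lit 4815) (nat_lit 2432) (nb (nat_lit 0x66590000000000007090000000000000356700000000000020d8) (nat_lit 1216) (nat_lit 0))))⟩, ⟨(nat_lit 8), (nat_lit 54), (nb (nat_lit 6175) (nat_lit 3648) (nb (nat_lit 0x45a000000000000052d200000000000075ae000000000000001c) (nat_lit 2432) (nat_lit 0x11810000000000002383000000000000306a0000000000003425))), (nb (nat_lit 0x16430000000000002aba0000000000001b8d) (nat_lit 3712) (nb (nat_lit 0x59610000000000005cd400000000000087ca0000000000004c8e) (nat_lit 1216) (nat_lit 0)))⟩, ⟨(nat_lit 12), (nat_lit 14), (nb (nat_lit 0x62000000000000030220000000000002a490000000000000ddf)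 (nat_lit 3648) (nb (nat_lit 4449) (nat_lit 2624) (nb (nat_lit 0x2e70000000000004f080000000000002e0a) (nat_lit 1216) (nb (nat_lit 0xb1e000000000000110e) (nat_lit 128) (nat_lit 0))))), (nb (nat_lit 0x2a810000000000005515000000000000192c) (nat_lit 2432) (nb (nat_lit 2688) (nat_lit 1408) (nat_lit 0x102e0000000000001ddc)))⟩, ⟨(nat_lit 18), (nat_lit 22), (nb (nat_lit 11559) (nat_lit 3648) (nb (nat_lit 0x7ffe00000000000063d00000000000005902) (nat_lit 2496) (nat_lit 0x146f0000000000003fc600000000000038b90000000000002d7f))), (nb (nat_lit 0x28ed00000000000019b000000000000002a9) (nat_lit 3712) (nb (nat_lit 2089) (nat_lit 2432) (nb (nat_lit 0x78e20000000000008dcd0000000000007339000000000000450c) (nat_lit 1216) (nat_lit 0))))⟩, ⟨(nat_lit 20), (nat_lit 24), (nb (nat_lit 0x2dee0000000000002e7800000000000013ba) (nat_lit 3648) (nb (nat_lit 10899) (nat_lit 2624) (nb (nat_lit 0x52630000000000002bb6) (nat_lit 1216) (nb (nat_lit 0x4650000000000001832) (nat_lit 128) (nat_lit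 0))))), (nb (nat_lit 1961) (nat_lit 3840) (nb (nat_lit 0x1705000000000000577500000000000012eb) (nat_lit 2432) (nb (nat_lit 0xcf800000000000013bc) (nat_lit 1344) (nat_lit 0xaef0000000000001ec5))))⟩]⟩
def e934 : En := ⟨(nat_lit 66), (nat_lit 69889), (nat_lit 0x14641b), (nat_lit 216), [⟨(nat_lit 0), (nat_lit 56), (nb (nat_lit 6175) (nat_lit 3648) (nb (nat_lit 0x45a000000000000052d200000000000075ae000000000000001c) (nat_lit 2432) (nat_lit 0x11810000000000002383000000000000306a0000000000003425))), (nb (nat_lit 0x16430000000000002aba0000000000001b8d) (nat_lit 3712) (nb (nat_lit 0x59610000000000005cd400000000000087ca0000000000004c8e) (nat_lit 1216) (nat_lit 0)))⟩, ⟨(nat_lit 2), (nat_lit 52), (nb (nat_lit 11189) (nat_lit 3840) (nb (nat_lit 3214) (nat_lit 2432) (nb (nat_lit 0x68d10000000000008733000000000000320c000000000000232c) (nat_lit 1216) (nat_lit 0)))), (nb (nat_lit 0x100000000000000171a00000000000031b4) (nat_lit 3648) (nb (nat_lit 0x89650000000000004f490000000000001bd9)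 (nat_lit 2496) (nat_lit 0xf2d00000000000042d90000000000002aba0000000000001477)))⟩, ⟨(nat_lit 4), (nat_lit 44), (nb (nat_lit 0x22300000000000002b0c0000000000002760) (nat_lit 3648) (nb (nat_lit 0x5df90000000000001125) (nat_lit 2560) (nb (nat_lit 0x17190000000000000a5a) (nat_lit 1216) (nb (nat_lit 0x11f900000000000034830000000000000ece) (nat_lit 64) (nat_lit 0))))), (nb (nat_lit 5435) (nat_lit 3840) (nb (nat_lit 0x29c40000000000001a20) (nat_lit 2432) (nb (nat_lit 0x482d0000000000004f51) (nat_lit 1344) (nat_lit 1937))))⟩, ⟨(nat_lit 8), (nat_lit 46), (nb (nat_lit 0x33400000000000012eb0000000000002bd9) (nat_lit 3648) (nb (nat_lit 0x70330000000000003bcd0000000000001e39) (nat_lit 2496) (nat_lit 0x15e60000000000003bb5000000000000257b0000000000001560))), (nb (nat_lit 7660) (nat_lit 3840) (nb (nat_lit 4815) (nat_lit 2432) (nb (nat_lit 0x66590000000000007090000000000000356700000000000020d8) (nat_lit 1216) (nat_lit 0))))⟩, ⟨(nat_lit 10), (nat_lit 24), (nb (nat_lit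 11559) (nat_lit 3648) (nb (nat_lit 0x7ffe00000000000063d00000000000005902) (nat_lit 2496) (nat_lit 0x146f0000000000003fc600000000000038b90000000000002d7f))), (nb (nat_lit 0x28ed00000000000019b000000000000002a9) (nat_lit 3712) (nb (nat_lit 2089) (nat_lit 2432) (nb (nat_lit 0x78e20000000000008dcd0000000000007339000000000000450c) (nat_lit 1216) (nat_lit 0))))⟩, ⟨(nat_lit 14), (nat_lit 16), (nb (nat_lit 0x62000000000000030220000000000002a490000000000000ddf) (nat_lit 3648) (nb (nat_lit 4449) (nat_lit 2624) (nb (nat_lit 0x2e70000000000004f080000000000002e0a) (nat_lit 1216) (nb (nat_lit 0xb1e000000000000110e) (nat_lit 128) (nat_lit 0))))), (nb (nat_lit 0x2a810000000000005515000000000000192c) (nat_lit 2432) (nb (nat_lit 2688) (nat_lit 1408) (nat_lit 0x102e0000000000001ddc)))⟩, ⟨(nat_lit 22), (nat_lit 26), (nb (nat_lit 0x2dee0000000000002e7800000000000013ba) (nat_lit 3648) (nb (nat_lit 10899) (nat_lit 2624) (nb (nat_lit 0x52630000000000002bb6) (nat_lit 1216)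 (nb (nat_lit 0x4650000000000001832) (nat_lit 128) (nat_lit 0))))), (nb (nat_lit 1961) (nat_lit 3840) (nb (nat_lit 0x1705000000000000577500000000000012eb) (nat_lit 2432) (nb (nat_lit 0xcf800000000000013bc) (nat_lit 1344) (nat_lit 0xaef0000000000001ec5))))⟩]⟩
def e935 : En := ⟨(nat_lit 68), (nat_lit 69904), (nat_lit 0x14641b), (nat_lit 216), [⟨(nat_lit 0), (nat_lit 48), (nb (nat_lit 0x33400000000000012eb0000000000002bd9) (nat_lit 3648) (nb (nat_lit 0x70330000000000003bcd0000000000001e39) (nat_lit 2496) (nat_lit 0x15e60000000000003bb5000000000000257b0000000000001560))), (nb (nat_lit 7660) (nat_lit 3840) (nb (nat_lit 4815) (nat_lit 2432) (nb (nat_lit 0x66590000000000007090000000000000356700000000000020d8) (nat_lit 1216) (nat_lit 0))))⟩, ⟨(nat_lit 2), (nat_lit 58), (nb (nat_lit 6175) (nat_lit 3648) (nb (nat_lit 0x45a000000000000052d200000000000075ae000000000000001c) (nat_lit 2432) (nat_lit 0x11810000000000002383000000000000306a0000000000003425))), (nb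 (nat_lit 0x16430000000000002aba0000000000001b8d) (nat_lit 3712) (nb (nat_lit 0x59610000000000005cd400000000000087ca0000000000004c8e) (nat_lit 1216) (nat_lit 0)))⟩, ⟨(nat_lit 4), (nat_lit 54), (nb (nat_lit 11189) (nat_lit 3840) (nb (nat_lit 3214) (nat_lit 2432) (nb (nat_lit 0x68d10000000000008733000000000000320c000000000000232c) (nat_lit 1216) (nat_lit 0)))), (nb (nat_lit 0x100000000000000171a00000000000031b4) (nat_lit 3648) (nb (nat_lit 0x89650000000000004f490000000000001bd9) (nat_lit 2496) (nat_lit 0xf2d00000000000042d90000000000002aba0000000000001477)))⟩, ⟨(nat_lit 6), (nat_lit 46), (nb (nat_lit 0x22300000000000002b0c0000000000002760) (nat_lit 3648) (nb (nat_lit 0x5df90000000000001125) (nat_lit 2560) (nb (nat_lit 0x17190000000000000a5a) (nat_lit 1216) (nb (nat_lit 0x11f900000000000034830000000000000ece) (nat_lit 64) (nat_lit 0))))), (nb (nat_lit 5435) (nat_lit 3840) (nb (nat_lit 0x29c40000000000001a20) (nat_lit 2432) (nb (nat_lit 0x482d0000000000004f51)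 (nat_lit 1344) (nat_lit 1937))))⟩, ⟨(nat_lit 12), (nat_lit 26), (nb (nat_lit 11559) (nat_lit 3648) (nb (nat_lit 0x7ffe00000000000063d00000000000005902) (nat_lit 2496) (nat_lit 0x146f0000000000003fc600000000000038b90000000000002d7f))), (nb (nat_lit 0x28ed00000000000019b000000000000002a9) (nat_lit 3712) (nb (nat_lit 2089) (nat_lit 2432) (nb (nat_lit 0x78e20000000000008dcd0000000000007339000000000000450c) (nat_lit 1216) (nat_lit 0))))⟩, ⟨(nat_lit 16), (nat_lit 18), (nb (nat_lit 0x62000000000000030220000000000002a490000000000000ddf) (nat_lit 3648) (nb (nat_lit 4449) (nat_lit 2624) (nb (nat_lit 0x2e70000000000004f080000000000002e0a) (nat_lit 1216) (nb (nat_lit 0xb1e000000000000110e) (nat_lit 128) (nat_lit 0))))), (nb (nat_lit 0x2a810000000000005515000000000000192c) (nat_lit 2432) (nb (nat_lit 2688) (nat_lit 1408) (nat_lit 0x102e0000000000001ddc)))⟩, ⟨(nat_lit 24), (nat_lit 28), (nb (nat_lit 0x2dee0000000000002e7800000000000013ba) (nat_lit 3648) (nb (nat_lit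 10899) (nat_lit 2624) (nb (nat_lit 0x52630000000000002bb6) (nat_lit 1216) (nb (nat_lit 0x4650000000000001832) (nat_lit 128) (nat_lit 0))))), (nb (nat_lit 1961) (nat_lit 3840) (nb (nat_lit 0x1705000000000000577500000000000012eb) (nat_lit 2432) (nb (nat_lit 0xcf800000000000013bc) (nat_lit 1344) (nat_lit 0xaef0000000000001ec5))))⟩]⟩
def e936 : En := ⟨(nat_lit 40), (nat_lit 273), (nat_lit 314468), (nat_lit 216), [⟨(nat_lit 4), (nat_lit 20), (nb (nat_lit 0x58000000000000016000000000000000e4f) (nat_lit 3712) (nb (nat_lit 641) (nat_lit 2432) (nb (nat_lit 0x24cd000000000000232f000000000000449e0000000000002236) (nat_lit 1216) (nat_lit 0)))), (nb (nat_lit 2244) (nat_lit 3648) (nb (nat_lit 0x135400000000000022c6000000000000397a) (nat_lit 2496) (nat_lit 0x9b80000000000000dd300000000000017c700000000000019c0)))⟩, ⟨(nat_lit 6), (nat_lit 10), (nb (nat_lit 0x118f00000000000005f4) (nat_lit 3776) (nb (nat_lit 2410) (nat_lit 2432) (nb (nat_lit 0x46f5000000000000488d00000000000033cf0000000000002098)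 (nat_lit 1216) (nat_lit 0)))), (nb (nat_lit 0x3570000000000001b70) (nat_lit 3648) (nb (nat_lit 0x464f0000000000002b7d0000000000002812) (nat_lit 2496) (nat_lit 0xed9000000000000243b00000000000019b300000000000013a1)))⟩, ⟨(nat_lit 8), (nat_lit 28), (nb (nat_lit 3087) (nat_lit 3840) (nb (nat_lit 0x116800000000000006e9) (nat_lit 2432) (nb (nat_lit 0x2228000000000000255e) (nat_lit 1344) (nat_lit 1567)))), (nb (nat_lit 0x100c00000000000011a600000000000012ac) (nat_lit 3648) (nb (nat_lit 0x32fb00000000000008b7) (nat_lit 2560) (nb (nat_lit 0x10cf000000000000019e) (nat_lit 1216) (nb (nat_lit 0x521000000000000166800000000000001ec) (nat_lit 64) (nat_lit 0)))))⟩]⟩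
def e937 : En := ⟨(nat_lit 42), (nat_lit 65553), (nat_lit 314468), (nat_lit 216), [⟨(nat_lit 0), (nat_lit 20), (nb (nat_lit 3087) (nat_lit 3840) (nb (nat_lit 0x116800000000000006e9) (nat_lit 2432) (nb (nat_lit 0x2228000000000000255e) (nat_lit 1344) (nat_lit 1567)))), (nb (nat_lit 0x100c00000000000011a600000000000012ac) (nat_lit 3648) (nb (nat_lit 0x32fb00000000000008b7) (nat_lit 2560) (nb (nat_lit 0x10cf000000000000019e) (nat_lit 1216) (nb (nat_lit 0x521000000000000166800000000000001ec) (nat_lit 64) (nat_lit 0)))))⟩, ⟨(nat_lit 6), (nat_lit 22), (nb (nat_lit 0x58000000000000016000000000000000e4f) (nat_lit 3712) (nb (nat_lit 641) (nat_lit 2432) (nb (nat_lit 0x24cd000000000000232f000000000000449e0000000000002236) (nat_lit 1216) (nat_lit 0)))), (nb (nat_lit 2244) (nat_lit 3648) (nb (nat_lit 0x135400000000000022c6000000000000397a) (nat_lit 2496) (nat_lit 0x9b80000000000000dd300000000000017c700000000000019c0)))⟩, ⟨(nat_lit 8), (nat_lit 12), (nb (nat_lit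 0x118f00000000000005f4) (nat_lit 3776) (nb (nat_lit 2410) (nat_lit 2432) (nb (nat_lit 0x46f5000000000000488d00000000000033cf0000000000002098) (nat_lit 1216) (nat_lit 0)))), (nb (nat_lit 0x3570000000000001b70) (nat_lit 3648) (nb (nat_lit 0x464f0000000000002b7d0000000000002812) (nat_lit 2496) (nat_lit 0xed9000000000000243b00000000000019b300000000000013a1)))⟩]⟩
def e938 : En := ⟨(nat_lit 44), (nat_lit 69633), (nat_lit 314468), (nat_lit 216), [⟨(nat_lit 0), (nat_lit 14), (nb (nat_lit 0x118f00000000000005f4) (nat_lit 3776) (nb (nat_lit 2410) (nat_lit 2432) (nb (nat_lit 0x46f5000000000000488d00000000000033cf0000000000002098) (nat_lit 1216) (nat_lit 0)))), (nb (nat_lit 0x3570000000000001b70) (nat_lit 3648) (nb (nat_lit 0x464f0000000000002b7d0000000000002812) (nat_lit 2496) (nat_lit 0xed9000000000000243b00000000000019b300000000000013a1)))⟩, ⟨(nat_lit 2), (nat_lit 22), (nb (nat_lit 3087) (nat_lit 3840) (nb (nat_lit 0x116800000000000006e9) (nat_lit 2432) (nb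 (nat_lit 0x2228000000000000255e) (nat_lit 1344) (nat_lit 1567)))), (nb (nat_lit 0x100c00000000000011a600000000000012ac) (nat_lit 3648) (nb (nat_lit 0x32fb00000000000008b7) (nat_lit 2560) (nb (nat_lit 0x10cf000000000000019e) (nat_lit 1216) (nb (nat_lit 0x521000000000000166800000000000001ec) (nat_lit 64) (nat_lit 0)))))⟩, ⟨(nat_lit 8), (nat_lit 24), (nb (nat_lit 0x58000000000000016000000000000000e4f) (nat_lit 3712) (nb (nat_lit 641) (nat_lit 2432) (nb (nat_lit 0x24cd000000000000232f000000000000449e0000000000002236) (nat_lit 1216) (nat_lit 0)))), (nb (nat_lit 2244) (nat_lit 3648) (nb (nat_lit 0x135400000000000022c6000000000000397a) (nat_lit 2496) (nat_lit 0x9b80000000000000dd300000000000017c700000000000019c0)))⟩]⟩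
def e939 : En := ⟨(nat_lit 46), (nat_lit 69888), (nat_lit 314468), (nat_lit 216), [⟨(nat_lit 0), (nat_lit 26), (nb (nat_lit 0x58000000000000016000000000000000e4f) (nat_lit 3712) (nb (nat_lit 641) (nat_lit 2432) (nb (nat_lit 0x24cd000000000000232f000000000000449e0000000000002236) (nat_lit 1216) (nat_lit 0)))), (nb (nat_lit 2244) (nat_lit 3648) (nb (nat_lit 0x135400000000000022c6000000000000397a) (nat_lit 2496) (nat_lit 0x9b80000000000000dd300000000000017c700000000000019c0)))⟩, ⟨(nat_lit 2), (nat_lit 16), (nb (nat_lit 0x118f00000000000005f4) (nat_lit 3776) (nb (nat_lit 2410) (nat_lit 2432) (nb (nat_lit 0x46f5000000000000488d00000000000033cf0000000000002098) (nat_lit 1216) (nat_lit 0)))), (nb (nat_lit 0x3570000000000001b70) (nat_lit 3648) (nb (nat_lit 0x464f0000000000002b7d0000000000002812) (nat_lit 2496) (nat_lit 0xed9000000000000243b00000000000019b300000000000013a1)))⟩, ⟨(nat_lit 4), (nat_lit 24), (nb (nat_lit 3087) (nat_lit 3840) (nb (nat_lit 0x116800000000000006e9)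 (nat_lit 2432) (nb (nat_lit 0x2228000000000000255e) (nat_lit 1344) (nat_lit 1567)))), (nb (nat_lit 0x100c00000000000011a600000000000012ac) (nat_lit 3648) (nb (nat_lit 0x32fb00000000000008b7) (nat_lit 2560) (nb (nat_lit 0x10cf000000000000019e) (nat_lit 1216) (nb (nat_lit 0x521000000000000166800000000000001ec) (nat_lit 64) (nat_lit 0)))))⟩]⟩
def e940 : En := ⟨(nat_lit 48), (nat_lit 4368), (nat_lit 314468), (nat_lit 216), [⟨(nat_lit 2), (nat_lit 28), (nb (nat_lit 0x58000000000000016000000000000000e4f) (nat_lit 3712) (nb (nat_lit 641) (nat_lit 2432) (nb (nat_lit 0x24cd000000000000232f000000000000449e0000000000002236) (nat_lit 1216) (nat_lit 0)))), (nb (nat_lit 2244) (nat_lit 3648) (nb (nat_lit 0x135400000000000022c6000000000000397a) (nat_lit 2496) (nat_lit 0x9b80000000000000dd300000000000017c700000000000019c0)))⟩, ⟨(nat_lit 4), (nat_lit 18), (nb (nat_lit 0x118f00000000000005f4) (nat_lit 3776) (nb (nat_lit 2410) (nat_lit 2432) (nb (nat_lit 0x46f5000000000000488d00000000000033cf0000000000002098)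 (nat_lit 1216) (nat_lit 0)))), (nb (nat_lit 0x3570000000000001b70) (nat_lit 3648) (nb (nat_lit 0x464f0000000000002b7d0000000000002812) (nat_lit 2496) (nat_lit 0xed9000000000000243b00000000000019b300000000000013a1)))⟩, ⟨(nat_lit 6), (nat_lit 26), (nb (nat_lit 3087) (nat_lit 3840) (nb (nat_lit 0x116800000000000006e9) (nat_lit 2432) (nb (nat_lit 0x2228000000000000255e) (nat_lit 1344) (nat_lit 1567)))), (nb (nat_lit 0x100c00000000000011a600000000000012ac) (nat_lit 3648) (nb (nat_lit 0x32fb00000000000008b7) (nat_lit 2560) (nb (nat_lit 0x10cf000000000000019e) (nat_lit 1216) (nb (nat_lit 0x521000000000000166800000000000001ec) (nat_lit 64) (nat_lit 0)))))⟩]⟩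
def e941 : En := ⟨(nat_lit 50), (nat_lit 4113), (nat_lit 212868), (nat_lit 216), [⟨(nat_lit 2), (nat_lit 20), (nb (nat_lit 0x58000000000000016000000000000000e4f) (nat_lit 3712) (nb (nat_lit 641) (nat_lit 2432) (nb (nat_lit 0x24cd000000000000232f000000000000449e0000000000002236) (nat_lit 1216) (nat_lit 0)))), (nb (nat_lit 2244) (nat_lit 3648) (nb (nat_lit 0x135400000000000022c6000000000000397a) (nat_lit 2496) (nat_lit 0x9b80000000000000dd300000000000017c700000000000019c0)))⟩, ⟨(nat_lit 6), (nat_lit 14), (nb (nat_lit 2317) (nat_lit 3648) (nb (nat_lit 0x13fe00000000000012ff0000000000001976) (nat_lit 2496) (nat_lit 0x7cc0000000000000cc10000000000000deb0000000000000caf))), (nb (nat_lit 0x47700000000000006fd00000000000002be) (nat_lit 3712) (nb (nat_lit 1222) (nat_lit 2432) (nb (nat_lit 0x1bbf0000000000001a61000000000000219f0000000000001097) (nat_lit 1216) (nat_lit 0))))⟩, ⟨(nat_lit 8), (nat_lit 18), (nb (nat_lit 0xfc700000000000020040000000000000245) (nat_lit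 2432) (nat_lit 0x1ec000000000000011200000000000009dc0000000000000d11)), (nb (nat_lit 0x1090000000000000f030000000000000b910000000000000049) (nat_lit 3648) (nb (nat_lit 170) (nat_lit 2624) (nb (nat_lit 0x90e00000000000008ce00000000000022ff000000000000119f) (nat_lit 1216) (nat_lit 0))))⟩]⟩
def e942 : En := ⟨(nat_lit 52), (nat_lit 65793), (nat_lit 212868), (nat_lit 216), [⟨(nat_lit 0), (nat_lit 10), (nb (nat_lit 0xfc700000000000020040000000000000245) (nat_lit 2432) (nat_lit 0x1ec000000000000011200000000000009dc0000000000000d11)), (nb (nat_lit 0x1090000000000000f030000000000000b910000000000000049) (nat_lit 3648) (nb (nat_lit 170) (nat_lit 2624) (nb (nat_lit 0x90e00000000000008ce00000000000022ff000000000000119f) (nat_lit 1216) (nat_lit 0))))⟩, ⟨(nat_lit 4), (nat_lit 22), (nb (nat_lit 0x58000000000000016000000000000000e4f) (nat_lit 3712) (nb (nat_lit 641) (nat_lit 2432) (nb (nat_lit 0x24cd000000000000232f000000000000449e0000000000002236) (nat_lit 1216)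 (nat_lit 0)))), (nb (nat_lit 2244) (nat_lit 3648) (nb (nat_lit 0x135400000000000022c6000000000000397a) (nat_lit 2496) (nat_lit 0x9b80000000000000dd300000000000017c700000000000019c0)))⟩, ⟨(nat_lit 8), (nat_lit 16), (nb (nat_lit 2317) (nat_lit 3648) (nb (nat_lit 0x13fe00000000000012ff0000000000001976) (nat_lit 2496) (nat_lit 0x7cc0000000000000cc10000000000000deb0000000000000caf))), (nb (nat_lit 0x47700000000000006fd00000000000002be) (nat_lit 3712) (nb (nat_lit 1222) (nat_lit 2432) (nb (nat_lit 0x1bbf0000000000001a61000000000000219f0000000000001097) (nat_lit 1216) (nat_lit 0))))⟩]⟩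
def e943 : En := ⟨(nat_lit 54), (nat_lit 69648), (nat_lit 212868), (nat_lit 216), [⟨(nat_lit 0), (nat_lit 18), (nb (nat_lit 2317) (nat_lit 3648) (nb (nat_lit 0x13fe00000000000012ff0000000000001976) (nat_lit 2496) (nat_lit 0x7cc0000000000000cc10000000000000deb0000000000000caf))), (nb (nat_lit 0x47700000000000006fd00000000000002be) (nat_lit 3712) (nb (nat_lit 1222) (nat_lit 2432) (nb (nat_lit 0x1bbf0000000000001a61000000000000219f0000000000001097) (nat_lit 1216) (nat_lit 0))))⟩, ⟨(nat_lit 2), (nat_lit 12), (nb (nat_lit 0xfc700000000000020040000000000000245) (nat_lit 2432) (nat_lit 0x1ec000000000000011200000000000009dc0000000000000d11)), (nb (nat_lit 0x1090000000000000f030000000000000b910000000000000049) (nat_lit 3648) (nb (nat_lit 170) (nat_lit 2624) (nb (nat_lit 0x90e00000000000008ce00000000000022ff000000000000119f) (nat_lit 1216) (nat_lit 0))))⟩, ⟨(nat_lit 6), (nat_lit 24), (nb (nat_lit 0x58000000000000016000000000000000e4f) (nat_lit 3712) (nb (nat_lit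 641) (nat_lit 2432) (nb (nat_lit 0x24cd000000000000232f000000000000449e0000000000002236) (nat_lit 1216) (nat_lit 0)))), (nb (nat_lit 2244) (nat_lit 3648) (nb (nat_lit 0x135400000000000022c6000000000000397a) (nat_lit 2496) (nat_lit 0x9b80000000000000dd300000000000017c700000000000019c0)))⟩]⟩
def e944 : En := ⟨(nat_lit 56), (nat_lit 4353), (nat_lit 212868), (nat_lit 216), [⟨(nat_lit 2), (nat_lit 10), (nb (nat_lit 2317) (nat_lit 3648) (nb (nat_lit 0x13fe00000000000012ff0000000000001976) (nat_lit 2496) (nat_lit 0x7cc0000000000000cc10000000000000deb0000000000000caf))), (nb (nat_lit 0x47700000000000006fd00000000000002be) (nat_lit 3712) (nb (nat_lit 1222) (nat_lit 2432) (nb (nat_lit 0x1bbf0000000000001a61000000000000219f0000000000001097) (nat_lit 1216) (nat_lit 0))))⟩, ⟨(nat_lit 4), (nat_lit 14), (nb (nat_lit 0xfc700000000000020040000000000000245) (nat_lit 2432) (nat_lit 0x1ec000000000000011200000000000009dc0000000000000d11)), (nb (nat_lit 0x1090000000000000f030000000000000b910000000000000049)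 (nat_lit 3648) (nb (nat_lit 170) (nat_lit 2624) (nb (nat_lit 0x90e00000000000008ce00000000000022ff000000000000119f) (nat_lit 1216) (nat_lit 0))))⟩, ⟨(nat_lit 8), (nat_lit 26), (nb (nat_lit 0x58000000000000016000000000000000e4f) (nat_lit 3712) (nb (nat_lit 641) (nat_lit 2432) (nb (nat_lit 0x24cd000000000000232f000000000000449e0000000000002236) (nat_lit 1216) (nat_lit 0)))), (nb (nat_lit 2244) (nat_lit 3648) (nb (nat_lit 0x135400000000000022c6000000000000397a) (nat_lit 2496) (nat_lit 0x9b80000000000000dd300000000000017c700000000000019c0)))⟩]⟩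
def e945 : En := ⟨(nat_lit 58), (nat_lit 65808), (nat_lit 212868), (nat_lit 216), [⟨(nat_lit 0), (nat_lit 28), (nb (nat_lit 0x58000000000000016000000000000000e4f) (nat_lit 3712) (nb (nat_lit 641) (nat_lit 2432) (nb (nat_lit 0x24cd000000000000232f000000000000449e0000000000002236) (nat_lit 1216) (nat_lit 0)))), (nb (nat_lit 2244) (nat_lit 3648) (nb (nat_lit 0x135400000000000022c6000000000000397a) (nat_lit 2496) (nat_lit 0x9b80000000000000dd300000000000017c700000000000019c0)))⟩, ⟨(nat_lit 4), (nat_lit 12), (nb (nat_lit 2317) (nat_lit 3648) (nb (nat_lit 0x13fe00000000000012ff0000000000001976) (nat_lit 2496) (nat_lit 0x7cc0000000000000cc10000000000000deb0000000000000caf))), (nb (nat_lit 0x47700000000000006fd00000000000002be) (nat_lit 3712) (nb (nat_lit 1222) (nat_lit 2432) (nb (nat_lit 0x1bbf0000000000001a61000000000000219f0000000000001097) (nat_lit 1216) (nat_lit 0))))⟩, ⟨(nat_lit 6), (nat_lit 16), (nb (nat_lit 0xfc700000000000020040000000000000245) (nat_lit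 2432) (nat_lit 0x1ec000000000000011200000000000009dc0000000000000d11)), (nb (nat_lit 0x1090000000000000f030000000000000b910000000000000049) (nat_lit 3648) (nb (nat_lit 170) (nat_lit 2624) (nb (nat_lit 0x90e00000000000008ce00000000000022ff000000000000119f) (nat_lit 1216) (nat_lit 0))))⟩]⟩
def e946 : En := ⟨(nat_lit 10), (nat_lit 257), (nat_lit 105610), (nat_lit 216), [⟨(nat_lit 4), (nat_lit 8), (nb (nat_lit 0x58000000000000016000000000000000e4f) (nat_lit 3712) (nb (nat_lit 641) (nat_lit 2432) (nb (nat_lit 0x24cd000000000000232f000000000000449e0000000000002236) (nat_lit 1216) (nat_lit 0)))), (nb (nat_lit 2244) (nat_lit 3648) (nb (nat_lit 0x135400000000000022c6000000000000397a) (nat_lit 2496) (nat_lit 0x9b80000000000000dd300000000000017c700000000000019c0)))⟩]⟩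
def e947 : En := ⟨(nat_lit 12), (nat_lit 65552), (nat_lit 105610), (nat_lit 216), [⟨(nat_lit 0), (nat_lit 6), (nb (nat_lit 2244) (nat_lit 3648) (nb (nat_lit 0x135400000000000022c6000000000000397a) (nat_lit 2496) (nat_lit 0x9b80000000000000dd300000000000017c700000000000019c0))), (nb (nat_lit 0x58000000000000016000000000000000e4f) (nat_lit 3712) (nb (nat_lit 641) (nat_lit 2432) (nb (nat_lit 0x24cd000000000000232f000000000000449e0000000000002236) (nat_lit 1216) (nat_lit 0))))⟩]⟩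
def e948 : En := ⟨(nat_lit 14), (nat_lit 4097), (nat_lit 105610), (nat_lit 216), [⟨(nat_lit 2), (nat_lit 8), (nb (nat_lit 2244) (nat_lit 3648) (nb (nat_lit 0x135400000000000022c6000000000000397a) (nat_lit 2496) (nat_lit 0x9b80000000000000dd300000000000017c700000000000019c0))), (nb (nat_lit 0x58000000000000016000000000000000e4f) (nat_lit 3712) (nb (nat_lit 641) (nat_lit 2432) (nb (nat_lit 0x24cd000000000000232f000000000000449e0000000000002236) (nat_lit 1216) (nat_lit 0))))⟩]⟩
def e949 : En := ⟨(nat_lit 16), (nat_lit 65792), (nat_lit 105610), (nat_lit 216), [⟨(nat_lit 0), (nat_lit 4), (nb (nat_lit 0x58000000000000016000000000000000e4f) (nat_lit 3712) (nb (nat_lit 641) (nat_lit 2432) (nb (nat_lit 0x24cd000000000000232f000000000000449e0000000000002236) (nat_lit 1216) (nat_lit 0)))), (nb (nat_lit 2244) (nat_lit 3648) (nb (nat_lit 0x135400000000000022c6000000000000397a) (nat_lit 2496) (nat_lit 0x9b80000000000000dd300000000000017c700000000000019c0)))⟩]⟩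
def e950 : En := ⟨(nat_lit 18), (nat_lit 4112), (nat_lit 105610), (nat_lit 216), [⟨(nat_lit 2), (nat_lit 6), (nb (nat_lit 0x58000000000000016000000000000000e4f) (nat_lit 3712) (nb (nat_lit 641) (nat_lit 2432) (nb (nat_lit 0x24cd000000000000232f000000000000449e0000000000002236) (nat_lit 1216) (nat_lit 0)))), (nb (nat_lit 2244) (nat_lit 3648) (nb (nat_lit 0x135400000000000022c6000000000000397a) (nat_lit 2496) (nat_lit 0x9b80000000000000dd300000000000017c700000000000019c0)))⟩]⟩
def e951 : En := ⟨(nat_lit 20), (nat_lit 17), (nat_lit 105610), (nat_lit 216), [⟨(nat_lit 6), (nat_lit 8), (nb (nat_lit 0x58000000000000016000000000000000e4f) (nat_lit 3712) (nb (nat_lit 641) (nat_lit 2432) (nb (nat_lit 0x24cd000000000000232f000000000000449e0000000000002236) (nat_lit 1216) (nat_lit 0)))), (nb (nat_lit 2244) (nat_lit 3648) (nb (nat_lit 0x135400000000000022c6000000000000397a) (nat_lit 2496) (nat_lit 0x9b80000000000000dd300000000000017c700000000000019c0)))⟩]⟩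
def e952 : En := ⟨(nat_lit 22), (nat_lit 65537), (nat_lit 105610), (nat_lit 216), [⟨(nat_lit 0), (nat_lit 8), (nb (nat_lit 2244) (nat_lit 3648) (nb (nat_lit 0x135400000000000022c6000000000000397a) (nat_lit 2496) (nat_lit 0x9b80000000000000dd300000000000017c700000000000019c0))), (nb (nat_lit 0x58000000000000016000000000000000e4f) (nat_lit 3712) (nb (nat_lit 641) (nat_lit 2432) (nb (nat_lit 0x24cd000000000000232f000000000000449e0000000000002236) (nat_lit 1216) (nat_lit 0))))⟩]⟩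
def e953 : En := ⟨(nat_lit 24), (nat_lit 69632), (nat_lit 105610), (nat_lit 216), [⟨(nat_lit 0), (nat_lit 2), (nb (nat_lit 0x58000000000000016000000000000000e4f) (nat_lit 3712) (nb (nat_lit 641) (nat_lit 2432) (nb (nat_lit 0x24cd000000000000232f000000000000449e0000000000002236) (nat_lit 1216) (nat_lit 0)))), (nb (nat_lit 2244) (nat_lit 3648) (nb (nat_lit 0x135400000000000022c6000000000000397a) (nat_lit 2496) (nat_lit 0x9b80000000000000dd300000000000017c700000000000019c0)))⟩]⟩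
def e954 : En := ⟨(nat_lit 26), (nat_lit 4352), (nat_lit 105610), (nat_lit 216), [⟨(nat_lit 2), (nat_lit 4), (nb (nat_lit 0x58000000000000016000000000000000e4f) (nat_lit 3712) (nb (nat_lit 641) (nat_lit 2432) (nb (nat_lit 0x24cd000000000000232f000000000000449e0000000000002236) (nat_lit 1216) (nat_lit 0)))), (nb (nat_lit 2244) (nat_lit 3648) (nb (nat_lit 0x135400000000000022c6000000000000397a) (nat_lit 2496) (nat_lit 0x9b80000000000000dd300000000000017c700000000000019c0)))⟩]⟩
def e955 : En := ⟨(nat_lit 28), (nat_lit 272), (nat_lit 105610), (nat_lit 216), [⟨(nat_lit 4), (nat_lit 6), (nb (nat_lit 0x58000000000000016000000000000000e4f) (nat_lit 3712) (nb (nat_lit 641) (nat_lit 2432) (nb (nat_lit 0x24cd000000000000232f000000000000449e0000000000002236) (nat_lit 1216) (nat_lit 0)))), (nb (nat_lit 2244) (nat_lit 3648) (nb (nat_lit 0x135400000000000022c6000000000000397a) (nat_lit 2496) (nat_lit 0x9b80000000000000dd300000000000017c700000000000019c0)))⟩]⟩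
def e956 : En := ⟨(nat_lit 71), (nat_lit 69905), (nat_lit 0x32c07b), (nat_lit 216), [⟨(nat_lit 0), (nat_lit 60), (nb (nat_lit 0x58000000000000016000000000000000e4f) (nat_lit 3712) (nb (nat_lit 641) (nat_lit 2432) (nb (nat_lit 0x24cd000000000000232f000000000000449e0000000000002236) (nat_lit 1216) (nat_lit 0)))), (nb (nat_lit 2244) (nat_lit 3648) (nb (nat_lit 0x135400000000000022c6000000000000397a) (nat_lit 2496) (nat_lit 0x9b80000000000000dd300000000000017c700000000000019c0)))⟩, ⟨(nat_lit 2), (nat_lit 62), (nb (nat_lit 0x58000000000000016000000000000000e4f) (nat_lit 3712) (nb (nat_lit 641) (nat_lit 2432) (nb (nat_lit 0x24cd000000000000232f000000000000449e0000000000002236) (nat_lit 1216) (nat_lit 0)))), (nb (nat_lit 2244) (nat_lit 3648) (nb (nat_lit 0x135400000000000022c6000000000000397a) (nat_lit 2496) (nat_lit 0x9b80000000000000dd300000000000017c700000000000019c0)))⟩, ⟨(nat_lit 4), (nat_lit 64), (nb (nat_lit 0x58000000000000016000000000000000e4f)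 (nat_lit 3712) (nb (nat_lit 641) (nat_lit 2432) (nb (nat_lit 0x24cd000000000000232f000000000000449e0000000000002236) (nat_lit 1216) (nat_lit 0)))), (nb (nat_lit 2244) (nat_lit 3648) (nb (nat_lit 0x135400000000000022c6000000000000397a) (nat_lit 2496) (nat_lit 0x9b80000000000000dd300000000000017c700000000000019c0)))⟩, ⟨(nat_lit 6), (nat_lit 66), (nb (nat_lit 0x58000000000000016000000000000000e4f) (nat_lit 3712) (nb (nat_lit 641) (nat_lit 2432) (nb (nat_lit 0x24cd000000000000232f000000000000449e0000000000002236) (nat_lit 1216) (nat_lit 0)))), (nb (nat_lit 2244) (nat_lit 3648) (nb (nat_lit 0x135400000000000022c6000000000000397a) (nat_lit 2496) (nat_lit 0x9b80000000000000dd300000000000017c700000000000019c0)))⟩, ⟨(nat_lit 8), (nat_lit 68), (nb (nat_lit 0x58000000000000016000000000000000e4f) (nat_lit 3712) (nb (nat_lit 641) (nat_lit 2432) (nb (nat_lit 0x24cd000000000000232f000000000000449e0000000000002236) (nat_lit 1216) (nat_lit 0)))), (nb (nat_lit 2244)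 (nat_lit 3648) (nb (nat_lit 0x135400000000000022c6000000000000397a) (nat_lit 2496) (nat_lit 0x9b80000000000000dd300000000000017c700000000000019c0)))⟩, ⟨(nat_lit 10), (nat_lit 54), (nb (nat_lit 18899) (nat_lit 3648) (nb (nat_lit 0xcf05000000000000a21b0000000000009187) (nat_lit 2496) (nat_lit 0x20ae000000000000665c0000000000005b24000000000000489c))), (nb (nat_lit 0x41f800000000000029ba0000000000000473) (nat_lit 3712) (nb (nat_lit 3186) (nat_lit 2432) (nb (nat_lit 0xc232000000000000e407000000000000b9d60000000000006fba) (nat_lit 1216) (nat_lit 0))))⟩, ⟨(nat_lit 12), (nat_lit 56), (nb (nat_lit 18899) (nat_lit 3648) (nb (nat_lit 0xcf05000000000000a21b0000000000009187) (nat_lit 2496) (nat_lit 0x20ae000000000000665c0000000000005b24000000000000489c))), (nb (nat_lit 0x41f800000000000029ba0000000000000473) (nat_lit 3712) (nb (nat_lit 3186) (nat_lit 2432) (nb (nat_lit 0xc232000000000000e407000000000000b9d60000000000006fba) (nat_lit 1216) (nat_lit 0))))⟩, ⟨(nat_lit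 14), (nat_lit 58), (nb (nat_lit 18899) (nat_lit 3648) (nb (nat_lit 0xcf05000000000000a21b0000000000009187) (nat_lit 2496) (nat_lit 0x20ae000000000000665c0000000000005b24000000000000489c))), (nb (nat_lit 0x41f800000000000029ba0000000000000473) (nat_lit 3712) (nb (nat_lit 3186) (nat_lit 2432) (nb (nat_lit 0xc232000000000000e407000000000000b9d60000000000006fba) (nat_lit 1216) (nat_lit 0))))⟩, ⟨(nat_lit 16), (nat_lit 50), (nb (nat_lit 18899) (nat_lit 3648) (nb (nat_lit 0xcf05000000000000a21b0000000000009187) (nat_lit 2496) (nat_lit 0x20ae000000000000665c0000000000005b24000000000000489c))), (nb (nat_lit 0x41f800000000000029ba0000000000000473) (nat_lit 3712) (nb (nat_lit 3186) (nat_lit 2432) (nb (nat_lit 0xc232000000000000e407000000000000b9d60000000000006fba) (nat_lit 1216) (nat_lit 0))))⟩, ⟨(nat_lit 18), (nat_lit 52), (nb (nat_lit 18899) (nat_lit 3648) (nb (nat_lit 0xcf05000000000000a21b0000000000009187) (nat_lit 2496) (nat_lit 0x20ae000000000000665c0000000000005b24000000000000489c))),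 (nb (nat_lit 0x41f800000000000029ba0000000000000473) (nat_lit 3712) (nb (nat_lit 3186) (nat_lit 2432) (nb (nat_lit 0xc232000000000000e407000000000000b9d60000000000006fba) (nat_lit 1216) (nat_lit 0))))⟩, ⟨(nat_lit 20), (nat_lit 46), (nb (nat_lit 1145) (nat_lit 3648) (nb (nat_lit 0x123a0000000000002aa800000000000047fd0000000000000751) (nat_lit 2432) (nat_lit 0x3ed000000000000073200000000000016ad0000000000001cf1))), (nb (nat_lit 0x8b10000000000001efc0000000000001821) (nat_lit 3712) (nb (nat_lit 0x1e2c000000000000213f0000000000004c800000000000002b32) (nat_lit 1216) (nat_lit 0)))⟩, ⟨(nat_lit 22), (nat_lit 48), (nb (nat_lit 1145) (nat_lit 3648) (nb (nat_lit 0x123a0000000000002aa800000000000047fd0000000000000751) (nat_lit 2432) (nat_lit 0x3ed000000000000073200000000000016ad0000000000001cf1))), (nb (nat_lit 0x8b10000000000001efc0000000000001821) (nat_lit 3712) (nb (nat_lit 0x1e2c000000000000213f0000000000004c800000000000002b32) (nat_lit 1216) (nat_lit 0)))⟩,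 ⟨(nat_lit 24), (nat_lit 40), (nb (nat_lit 1145) (nat_lit 3648) (nb (nat_lit 0x123a0000000000002aa800000000000047fd0000000000000751) (nat_lit 2432) (nat_lit 0x3ed000000000000073200000000000016ad0000000000001cf1))), (nb (nat_lit 0x8b10000000000001efc0000000000001821) (nat_lit 3712) (nb (nat_lit 0x1e2c000000000000213f0000000000004c800000000000002b32) (nat_lit 1216) (nat_lit 0)))⟩, ⟨(nat_lit 26), (nat_lit 42), (nb (nat_lit 1145) (nat_lit 3648) (nb (nat_lit 0x123a0000000000002aa800000000000047fd0000000000000751) (nat_lit 2432) (nat_lit 0x3ed000000000000073200000000000016ad0000000000001cf1))), (nb (nat_lit 0x8b10000000000001efc0000000000001821) (nat_lit 3712) (nb (nat_lit 0x1e2c000000000000213f0000000000004c800000000000002b32) (nat_lit 1216) (nat_lit 0)))⟩, ⟨(nat_lit 28), (nat_lit 44), (nb (nat_lit 1145) (nat_lit 3648) (nb (nat_lit 0x123a0000000000002aa800000000000047fd0000000000000751) (nat_lit 2432) (nat_lit 0x3ed000000000000073200000000000016ad0000000000001cf1))),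 (nb (nat_lit 0x8b10000000000001efc0000000000001821) (nat_lit 3712) (nb (nat_lit 0x1e2c000000000000213f0000000000004c800000000000002b32) (nat_lit 1216) (nat_lit 0)))⟩]⟩
def e957 : En := ⟨(nat_lit 60), (nat_lit 4369), (nat_lit 21000), (nat_lit 24), [⟨(nat_lit 2), (nat_lit 40), (nb (nat_lit 0x7d00000000000002ee0000000000000177) (nat_lit 1216) (nat_lit 0)), (nb (nat_lit 250) (nat_lit 1408) (nat_lit 0x271000000000000036b00000000000000fa))⟩, ⟨(nat_lit 4), (nat_lit 50), (nb (nat_lit 0x1f40000000000000177) (nat_lit 1216) (nat_lit 0)), (nb (nat_lit 0x7d000000000000007d) (nat_lit 1344) (nat_lit 0xfa00000000000002ee00000000000000fa))⟩, ⟨(nat_lit 6), (nat_lit 56), (nb (nat_lit 0x1f400000000000002ee000000000000017700000000000000fa) (nat_lit 1216) (nat_lit 0)), (nat_lit 0x27100000000000001f4000000000000007d0000000000000000)⟩, ⟨(nat_lit 8), (nat_lit 48), (nb (nat_lit 0x271000000000000036b00000000000000fa) (nat_lit 1216) (nat_lit 0)), (nat_lit 0xfa000000000000036b00000000000002710000000000000000)⟩,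 ⟨(nat_lit 10), (nat_lit 18), (nat_lit 0x27100000000000005dc000000000000046500000000000000fa), (nb (nat_lit 0x7d0000000000000465000000000000055f0000000000000271) (nat_lit 1216) (nat_lit 0))⟩, ⟨(nat_lit 14), (nat_lit 28), (nb (nat_lit 125) (nat_lit 1280) (nat_lit 0x7d000000000000007d000000000000000000000000000000fa)), (nb (nat_lit 0x7d0000000000000000000000000000007d) (nat_lit 1216) (nat_lit 0))⟩, ⟨(nat_lit 20), (nat_lit 26), (nb (nat_lit 125) (nat_lit 1408) (nb (nat_lit 0x177000000000000007d) (nat_lit 64) (nat_lit 0))), (nb (nat_lit 0xfa00000000000000fa) (nat_lit 1280) (nat_lit 0))⟩]⟩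
def e958 : En := ⟨(nat_lit 62), (nat_lit 65809), (nat_lit 21000), (nat_lit 24), [⟨(nat_lit 0), (nat_lit 40), (nb (nat_lit 0x271000000000000036b00000000000000fa) (nat_lit 1216) (nat_lit 0)), (nat_lit 0xfa000000000000036b00000000000002710000000000000000)⟩, ⟨(nat_lit 4), (nat_lit 42), (nb (nat_lit 0x7d00000000000002ee0000000000000177) (nat_lit 1216) (nat_lit 0)), (nb (nat_lit 250) (nat_lit 1408) (nat_lit 0x271000000000000036b00000000000000fa))⟩, ⟨(nat_lit 6), (nat_lit 52), (nb (nat_lit 0x1f40000000000000177) (nat_lit 1216) (nat_lit 0)), (nb (nat_lit 0x7d000000000000007d) (nat_lit 1344) (nat_lit 0xfa00000000000002ee00000000000000fa))⟩, ⟨(nat_lit 8), (nat_lit 58), (nb (nat_lit 0x1f400000000000002ee000000000000017700000000000000fa) (nat_lit 1216) (nat_lit 0)), (nat_lit 0x27100000000000001f4000000000000007d0000000000000000)⟩, ⟨(nat_lit 10), (nat_lit 12), (nb (nat_lit 0x7d0000000000000465000000000000055f0000000000000271) (nat_lit 1216) (nat_lit 0)), (nat_lit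 0x27100000000000005dc000000000000046500000000000000fa)⟩, ⟨(nat_lit 16), (nat_lit 20), (nb (nat_lit 125) (nat_lit 1280) (nat_lit 0x7d000000000000007d000000000000000000000000000000fa)), (nb (nat_lit 0x7d0000000000000000000000000000007d) (nat_lit 1216) (nat_lit 0))⟩, ⟨(nat_lit 22), (nat_lit 28), (nb (nat_lit 125) (nat_lit 1408) (nb (nat_lit 0x177000000000000007d) (nat_lit 64) (nat_lit 0))), (nb (nat_lit 0xfa00000000000000fa) (nat_lit 1280) (nat_lit 0))⟩]⟩
def e959 : En := ⟨(nat_lit 64), (nat_lit 69649), (nat_lit 21000), (nat_lit 24), [⟨(nat_lit 0), (nat_lit 50), (nb (nat_lit 0x1f400000000000002ee000000000000017700000000000000fa) (nat_lit 1216) (nat_lit 0)), (nat_lit 0x27100000000000001f4000000000000007d0000000000000000)⟩, ⟨(nat_lit 2), (nat_lit 42), (nb (nat_lit 0x271000000000000036b00000000000000fa) (nat_lit 1216) (nat_lit 0)), (nat_lit 0xfa000000000000036b00000000000002710000000000000000)⟩, ⟨(nat_lit 6), (nat_lit 44), (nb (nat_lit 0x7d00000000000002ee0000000000000177)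 (nat_lit 1216) (nat_lit 0)), (nb (nat_lit 250) (nat_lit 1408) (nat_lit 0x271000000000000036b00000000000000fa))⟩, ⟨(nat_lit 8), (nat_lit 54), (nb (nat_lit 0x1f40000000000000177) (nat_lit 1216) (nat_lit 0)), (nb (nat_lit 0x7d000000000000007d) (nat_lit 1344) (nat_lit 0xfa00000000000002ee00000000000000fa))⟩, ⟨(nat_lit 12), (nat_lit 14), (nb (nat_lit 0x7d0000000000000465000000000000055f0000000000000271) (nat_lit 1216) (nat_lit 0)), (nat_lit 0x27100000000000005dc000000000000046500000000000000fa)⟩, ⟨(nat_lit 18), (nat_lit 22), (nb (nat_lit 125) (nat_lit 1280) (nat_lit 0x7d000000000000007d000000000000000000000000000000fa)), (nb (nat_lit 0x7d0000000000000000000000000000007d) (nat_lit 1216) (nat_lit 0))⟩, ⟨(nat_lit 20), (nat_lit 24), (nb (nat_lit 0xfa00000000000000fa) (nat_lit 1280) (nat_lit 0)), (nb (nat_lit 125) (nat_lit 1408) (nb (nat_lit 0x177000000000000007d) (nat_lit 64) (nat_lit 0)))⟩]⟩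
def e960 : En := ⟨(nat_lit 66), (nat_lit 69889), (nat_lit 21000), (nat_lit 24), [⟨(nat_lit 0), (nat_lit 56), (nb (nat_lit 0x1f40000000000000177) (nat_lit 1216) (nat_lit 0)), (nb (nat_lit 0x7d000000000000007d) (nat_lit 1344) (nat_lit 0xfa00000000000002ee00000000000000fa))⟩, ⟨(nat_lit 2), (nat_lit 52), (nb (nat_lit 0x1f400000000000002ee000000000000017700000000000000fa) (nat_lit 1216) (nat_lit 0)), (nat_lit 0x27100000000000001f4000000000000007d0000000000000000)⟩, ⟨(nat_lit 4), (nat_lit 44), (nb (nat_lit 0x271000000000000036b00000000000000fa) (nat_lit 1216) (nat_lit 0)), (nat_lit 0xfa000000000000036b00000000000002710000000000000000)⟩, ⟨(nat_lit 8), (nat_lit 46), (nb (nat_lit 0x7d00000000000002ee0000000000000177) (nat_lit 1216) (nat_lit 0)), (nb (nat_lit 250) (nat_lit 1408) (nat_lit 0x271000000000000036b00000000000000fa))⟩, ⟨(nat_lit 10), (nat_lit 24), (nb (nat_lit 125) (nat_lit 1280) (nat_lit 0x7d000000000000007d000000000000000000000000000000fa)), (nb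 (nat_lit 0x7d0000000000000000000000000000007d) (nat_lit 1216) (nat_lit 0))⟩, ⟨(nat_lit 14), (nat_lit 16), (nb (nat_lit 0x7d0000000000000465000000000000055f0000000000000271) (nat_lit 1216) (nat_lit 0)), (nat_lit 0x27100000000000005dc000000000000046500000000000000fa)⟩, ⟨(nat_lit 22), (nat_lit 26), (nb (nat_lit 0xfa00000000000000fa) (nat_lit 1280) (nat_lit 0)), (nb (nat_lit 125) (nat_lit 1408) (nb (nat_lit 0x177000000000000007d) (nat_lit 64) (nat_lit 0)))⟩]⟩
def e961 : En := ⟨(nat_lit 68), (nat_lit 69904), (nat_lit 21000), (nat_lit 24), [⟨(nat_lit 0), (nat_lit 48), (nb (nat_lit 0x7d00000000000002ee0000000000000177) (nat_lit 1216) (nat_lit 0)), (nb (nat_lit 250) (nat_lit 1408) (nat_lit 0x271000000000000036b00000000000000fa))⟩, ⟨(nat_lit 2), (nat_lit 58), (nb (nat_lit 0x1f40000000000000177) (nat_lit 1216) (nat_lit 0)), (nb (nat_lit 0x7d000000000000007d) (nat_lit 1344) (nat_lit 0xfa00000000000002ee00000000000000fa))⟩, ⟨(nat_lit 4), (nat_lit 54), (nb (nat_lit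 0x1f400000000000002ee000000000000017700000000000000fa) (nat_lit 1216) (nat_lit 0)), (nat_lit 0x27100000000000001f4000000000000007d0000000000000000)⟩, ⟨(nat_lit 6), (nat_lit 46), (nb (nat_lit 0x271000000000000036b00000000000000fa) (nat_lit 1216) (nat_lit 0)), (nat_lit 0xfa000000000000036b00000000000002710000000000000000)⟩, ⟨(nat_lit 12), (nat_lit 26), (nb (nat_lit 125) (nat_lit 1280) (nat_lit 0x7d000000000000007d000000000000000000000000000000fa)), (nb (nat_lit 0x7d0000000000000000000000000000007d) (nat_lit 1216) (nat_lit 0))⟩, ⟨(nat_lit 16), (nat_lit 18), (nb (nat_lit 0x7d0000000000000465000000000000055f0000000000000271) (nat_lit 1216) (nat_lit 0)), (nat_lit 0x27100000000000005dc000000000000046500000000000000fa)⟩, ⟨(nat_lit 24), (nat_lit 28), (nb (nat_lit 0xfa00000000000000fa) (nat_lit 1280) (nat_lit 0)), (nb (nat_lit 125) (nat_lit 1408) (nb (nat_lit 0x177000000000000007d) (nat_lit 64) (nat_lit 0)))⟩]⟩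
def e962 : En := ⟨(nat_lit 40), (nat_lit 273), (nat_lit 9500), (nat_lit 24), [⟨(nat_lit 4), (nat_lit 20), (nat_lit 0x12c00000000000001db000000000000020d000000000000004b), (nb (nat_lit 0xc800000000000001900000000000000258000000000000012c) (nat_lit 1216) (nat_lit 0))⟩, ⟨(nat_lit 6), (nat_lit 10), (nat_lit 0x1f4000000000000036b00000000000002710000000000000000), (nb (nat_lit 0x177000000000000036b00000000000003e800000000000000fa) (nat_lit 1216) (nat_lit 125))⟩, ⟨(nat_lit 8), (nat_lit 28), (nb (nat_lit 50) (nat_lit 1216) (nb (nat_lit 0xc800000000000001900000000000000064) (nat_lit 64) (nat_lit 0))), (nb (nat_lit 0xaf00000000000001db0000000000000190) (nat_lit 1280) (nat_lit 200))⟩]⟩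
def e963 : En := ⟨(nat_lit 42), (nat_lit 65553), (nat_lit 9500), (nat_lit 24), [⟨(nat_lit 0), (nat_lit 20), (nb (nat_lit 50) (nat_lit 1216) (nb (nat_lit 0xc800000000000001900000000000000064) (nat_lit 64) (nat_lit 0))), (nb (nat_lit 0xaf00000000000001db0000000000000190) (nat_lit 1280) (nat_lit 200))⟩, ⟨(nat_lit 6), (nat_lit 22), (nat_lit 0x12c00000000000001db000000000000020d000000000000004b), (nb (nat_lit 0xc800000000000001900000000000000258000000000000012c) (nat_lit 1216) (nat_lit 0))⟩, ⟨(nat_lit 8), (nat_lit 12), (nat_lit 0x1f4000000000000036b00000000000002710000000000000000), (nb (nat_lit 0x177000000000000036b00000000000003e800000000000000fa) (nat_lit 1216) (nat_lit 125))⟩]⟩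
def e964 : En := ⟨(nat_lit 44), (nat_lit 69633), (nat_lit 9500), (nat_lit 24), [⟨(nat_lit 0), (nat_lit 14), (nat_lit 0x1f4000000000000036b00000000000002710000000000000000), (nb (nat_lit 0x177000000000000036b00000000000003e800000000000000fa) (nat_lit 1216) (nat_lit 125))⟩, ⟨(nat_lit 2), (nat_lit 22), (nb (nat_lit 50) (nat_lit 1216) (nb (nat_lit 0xc800000000000001900000000000000064) (nat_lit 64) (nat_lit 0))), (nb (nat_lit 0xaf00000000000001db0000000000000190) (nat_lit 1280) (nat_lit 200))⟩, ⟨(nat_lit 8), (nat_lit 24), (nat_lit 0x12c00000000000001db000000000000020d000000000000004b), (nb (nat_lit 0xc800000000000001900000000000000258000000000000012c) (nat_lit 1216) (nat_lit 0))⟩]⟩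
def e965 : En := ⟨(nat_lit 46), (nat_lit 69888), (nat_lit 9500), (nat_lit 24), [⟨(nat_lit 0), (nat_lit 26), (nat_lit 0x12c00000000000001db000000000000020d000000000000004b), (nb (nat_lit 0xc800000000000001900000000000000258000000000000012c) (nat_lit 1216) (nat_lit 0))⟩, ⟨(nat_lit 2), (nat_lit 16), (nat_lit 0x1f4000000000000036b00000000000002710000000000000000), (nb (nat_lit 0x177000000000000036b00000000000003e800000000000000fa) (nat_lit 1216) (nat_lit 125))⟩, ⟨(nat_lit 4), (nat_lit 24), (nb (nat_lit 50) (nat_lit 1216) (nb (nat_lit 0xc800000000000001900000000000000064) (nat_lit 64) (nat_lit 0))), (nb (nat_lit 0xaf00000000000001db0000000000000190) (nat_lit 1280) (nat_lit 200))⟩]⟩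
def e966 : En := ⟨(nat_lit 48), (nat_lit 4368), (nat_lit 9500), (nat_lit 24), [⟨(nat_lit 2), (nat_lit 28), (nat_lit 0x12c00000000000001db000000000000020d000000000000004b), (nb (nat_lit 0xc800000000000001900000000000000258000000000000012c) (nat_lit 1216) (nat_lit 0))⟩, ⟨(nat_lit 4), (nat_lit 18), (nat_lit 0x1f4000000000000036b00000000000002710000000000000000), (nb (nat_lit 0x177000000000000036b00000000000003e800000000000000fa) (nat_lit 1216) (nat_lit 125))⟩, ⟨(nat_lit 6), (nat_lit 26), (nb (nat_lit 50) (nat_lit 1216) (nb (nat_lit 0xc800000000000001900000000000000064) (nat_lit 64) (nat_lit 0))), (nb (nat_lit 0xaf00000000000001db0000000000000190) (nat_lit 1280) (nat_lit 200))⟩]⟩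
def e967 : En := ⟨(nat_lit 50), (nat_lit 4113), (nat_lit 6350), (nat_lit 24), [⟨(nat_lit 2), (nat_lit 20), (nat_lit 0x12c00000000000001db000000000000020d000000000000004b), (nb (nat_lit 0xc800000000000001900000000000000258000000000000012c) (nat_lit 1216) (nat_lit 0))⟩, ⟨(nat_lit 6), (nat_lit 14), (nb (nat_lit 0x12c0000000000000190000000000000012c) (nat_lit 1280) (nat_lit 200)), (nat_lit 0x11300000000000000fa00000000000000320000000000000000)⟩, ⟨(nat_lit 8), (nat_lit 18), (nb (nat_lit 0x12c000000000000012c) (nat_lit 1216) (nat_lit 0)), (nb (nat_lit 100) (nat_lit 1408) (nat_lit 0x1900000000000000e100000000000001db0000000000000113))⟩]⟩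
def e968 : En := ⟨(nat_lit 52), (nat_lit 65793), (nat_lit 6350), (nat_lit 24), [⟨(nat_lit 0), (nat_lit 10), (nb (nat_lit 0x12c000000000000012c) (nat_lit 1216) (nat_lit 0)), (nb (nat_lit 100) (nat_lit 1408) (nat_lit 0x1900000000000000e100000000000001db0000000000000113))⟩, ⟨(nat_lit 4), (nat_lit 22), (nat_lit 0x12c00000000000001db000000000000020d000000000000004b), (nb (nat_lit 0xc800000000000001900000000000000258000000000000012c) (nat_lit 1216) (nat_lit 0))⟩, ⟨(nat_lit 8), (nat_lit 16), (nb (nat_lit 0x12c0000000000000190000000000000012c) (nat_lit 1280) (nat_lit 200)), (nat_lit 0x11300000000000000fa00000000000000320000000000000000)⟩]⟩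
def e969 : En := ⟨(nat_lit 54), (nat_lit 69648), (nat_lit 6350), (nat_lit 24), [⟨(nat_lit 0), (nat_lit 18), (nb (nat_lit 0x12c0000000000000190000000000000012c) (nat_lit 1280) (nat_lit 200)), (nat_lit 0x11300000000000000fa00000000000000320000000000000000)⟩, ⟨(nat_lit 2), (nat_lit 12), (nb (nat_lit 0x12c000000000000012c) (nat_lit 1216) (nat_lit 0)), (nb (nat_lit 100) (nat_lit 1408) (nat_lit 0x1900000000000000e100000000000001db0000000000000113))⟩, ⟨(nat_lit 6), (nat_lit 24), (nat_lit 0x12c00000000000001db000000000000020d000000000000004b), (nb (nat_lit 0xc800000000000001900000000000000258000000000000012c) (nat_lit 1216) (nat_lit 0))⟩]⟩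
def e970 : En := ⟨(nat_lit 56), (nat_lit 4353), (nat_lit 6350), (nat_lit 24), [⟨(nat_lit 2), (nat_lit 10), (nb (nat_lit 0x12c0000000000000190000000000000012c) (nat_lit 1280) (nat_lit 200)), (nat_lit 0x11300000000000000fa00000000000000320000000000000000)⟩, ⟨(nat_lit 4), (nat_lit 14), (nb (nat_lit 0x12c000000000000012c) (nat_lit 1216) (nat_lit 0)), (nb (nat_lit 100) (nat_lit 1408) (nat_lit 0x1900000000000000e100000000000001db0000000000000113))⟩, ⟨(nat_lit 8), (nat_lit 26), (nat_lit 0x12c00000000000001db000000000000020d000000000000004b), (nb (nat_lit 0xc800000000000001900000000000000258000000000000012c) (nat_lit 1216) (nat_lit 0))⟩]⟩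
def e971 : En := ⟨(nat_lit 58), (nat_lit 65808), (nat_lit 6350), (nat_lit 24), [⟨(nat_lit 0), (nat_lit 28), (nat_lit 0x12c00000000000001db000000000000020d000000000000004b), (nb (nat_lit 0xc800000000000001900000000000000258000000000000012c) (nat_lit 1216) (nat_lit 0))⟩, ⟨(nat_lit 4), (nat_lit 12), (nb (nat_lit 0x12c0000000000000190000000000000012c) (nat_lit 1280) (nat_lit 200)), (nat_lit 0x11300000000000000fa00000000000000320000000000000000)⟩, ⟨(nat_lit 6), (nat_lit 16), (nb (nat_lit 0x12c000000000000012c) (nat_lit 1216) (nat_lit 0)), (nb (nat_lit 100) (nat_lit 1408) (nat_lit 0x1900000000000000e100000000000001db0000000000000113))⟩]⟩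
def e972 : En := ⟨(nat_lit 10), (nat_lit 257), (nat_lit 2875), (nat_lit 24), [⟨(nat_lit 4), (nat_lit 8), (nat_lit 0x12c00000000000001db000000000000020d000000000000004b), (nb (nat_lit 0xc800000000000001900000000000000258000000000000012c) (nat_lit 1216) (nat_lit 0))⟩]⟩
def e973 : En := ⟨(nat_lit 12), (nat_lit 65552), (nat_lit 2875), (nat_lit 24), [⟨(nat_lit 0), (nat_lit 6), (nb (nat_lit 0xc800000000000001900000000000000258000000000000012c) (nat_lit 1216) (nat_lit 0)), (nat_lit 0x12c00000000000001db000000000000020d000000000000004b)⟩]⟩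
def e974 : En := ⟨(nat_lit 14), (nat_lit 4097), (nat_lit 2875), (nat_lit 24), [⟨(nat_lit 2), (nat_lit 8), (nb (nat_lit 0xc800000000000001900000000000000258000000000000012c) (nat_lit 1216) (nat_lit 0)), (nat_lit 0x12c00000000000001db000000000000020d000000000000004b)⟩]⟩
def e975 : En := ⟨(nat_lit 16), (nat_lit 65792), (nat_lit 2875), (nat_lit 24), [⟨(nat_lit 0), (nat_lit 4), (nat_lit 0x12c00000000000001db000000000000020d000000000000004b), (nb (nat_lit 0xc800000000000001900000000000000258000000000000012c) (nat_lit 1216) (nat_lit 0))⟩]⟩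
def e976 : En := ⟨(nat_lit 18), (nat_lit 4112), (nat_lit 2875), (nat_lit 24), [⟨(nat_lit 2), (nat_lit 6), (nat_lit 0x12c00000000000001db000000000000020d000000000000004b), (nb (nat_lit 0xc800000000000001900000000000000258000000000000012c) (nat_lit 1216) (nat_lit 0))⟩]⟩
def e977 : En := ⟨(nat_lit 20), (nat_lit 17), (nat_lit 2875), (nat_lit 24), [⟨(nat_lit 6), (nat_lit 8), (nat_lit 0x12c00000000000001db000000000000020d000000000000004b), (nb (nat_lit 0xc800000000000001900000000000000258000000000000012c) (nat_lit 1216) (nat_lit 0))⟩]⟩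
def e978 : En := ⟨(nat_lit 22), (nat_lit 65537), (nat_lit 2875), (nat_lit 24), [⟨(nat_lit 0), (nat_lit 8), (nb (nat_lit 0xc800000000000001900000000000000258000000000000012c) (nat_lit 1216) (nat_lit 0)), (nat_lit 0x12c00000000000001db000000000000020d000000000000004b)⟩]⟩
def e979 : En := ⟨(nat_lit 24), (nat_lit 69632), (nat_lit 2875), (nat_lit 24), [⟨(nat_lit 0), (nat_lit 2), (nat_lit 0x12c00000000000001db000000000000020d000000000000004b), (nb (nat_lit 0xc800000000000001900000000000000258000000000000012c) (nat_lit 1216) (nat_lit 0))⟩]⟩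
def e980 : En := ⟨(nat_lit 26), (nat_lit 4352), (nat_lit 2875), (nat_lit 24), [⟨(nat_lit 2), (nat_lit 4), (nat_lit 0x12c00000000000001db000000000000020d000000000000004b), (nb (nat_lit 0xc800000000000001900000000000000258000000000000012c) (nat_lit 1216) (nat_lit 0))⟩]⟩
def e981 : En := ⟨(nat_lit 28), (nat_lit 272), (nat_lit 2875), (nat_lit 24), [⟨(nat_lit 4), (nat_lit 6), (nat_lit 0x12c00000000000001db000000000000020d000000000000004b), (nb (nat_lit 0xc800000000000001900000000000000258000000000000012c) (nat_lit 1216) (nat_lit 0))⟩]⟩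
def e982 : En := ⟨(nat_lit 71), (nat_lit 69905), (nat_lit 41875), (nat_lit 24), [⟨(nat_lit 0), (nat_lit 60), (nat_lit 0x12c00000000000001db000000000000020d000000000000004b), (nb (nat_lit 0xc800000000000001900000000000000258000000000000012c) (nat_lit 1216) (nat_lit 0))⟩, ⟨(nat_lit 2), (nat_lit 62), (nat_lit 0x12c00000000000001db000000000000020d000000000000004b), (nb (nat_lit 0xc800000000000001900000000000000258000000000000012c) (nat_lit 1216) (nat_lit 0))⟩, ⟨(nat_lit 4), (nat_lit 64), (nat_lit 0x12c00000000000001db000000000000020d000000000000004b), (nb (nat_lit 0xc800000000000001900000000000000258000000000000012c) (nat_lit 1216) (nat_lit 0))⟩, ⟨(nat_lit 6), (nat_lit 66), (nat_lit 0x12c00000000000001db000000000000020d000000000000004b), (nb (nat_lit 0xc800000000000001900000000000000258000000000000012c) (nat_lit 1216) (nat_lit 0))⟩, ⟨(nat_lit 8), (nat_lit 68), (nat_lit 0x12c00000000000001db000000000000020d000000000000004b), (nb (nat_lit 0xc800000000000001900000000000000258000000000000012c)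 (nat_lit 1216) (nat_lit 0))⟩, ⟨(nat_lit 10), (nat_lit 54), (nb (nat_lit 0x7d000000000000007d) (nat_lit 1216) (nb (nat_lit 0x27100000000000000fa) (nat_lit 128) (nat_lit 0))), (nb (nat_lit 0x271000000000000036b) (nat_lit 1344) (nat_lit 0x27100000000000000fa))⟩, ⟨(nat_lit 12), (nat_lit 56), (nb (nat_lit 0x7d000000000000007d) (nat_lit 1216) (nb (nat_lit 0x27100000000000000fa) (nat_lit 128) (nat_lit 0))), (nb (nat_lit 0x271000000000000036b) (nat_lit 1344) (nat_lit 0x27100000000000000fa))⟩, ⟨(nat_lit 14), (nat_lit 58), (nb (nat_lit 0x7d000000000000007d) (nat_lit 1216) (nb (nat_lit 0x27100000000000000fa) (nat_lit 128) (nat_lit 0))), (nb (nat_lit 0x271000000000000036b) (nat_lit 1344) (nat_lit 0x27100000000000000fa))⟩, ⟨(nat_lit 16), (nat_lit 50), (nb (nat_lit 0x7d000000000000007d) (nat_lit 1216) (nb (nat_lit 0x27100000000000000fa) (nat_lit 128) (nat_lit 0))), (nb (nat_lit 0x271000000000000036b) (nat_lit 1344) (nat_lit 0x27100000000000000fa))⟩, ⟨(nat_lit 18),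 (nat_lit 52), (nb (nat_lit 0x7d000000000000007d) (nat_lit 1216) (nb (nat_lit 0x27100000000000000fa) (nat_lit 128) (nat_lit 0))), (nb (nat_lit 0x271000000000000036b) (nat_lit 1344) (nat_lit 0x27100000000000000fa))⟩, ⟨(nat_lit 20), (nat_lit 46), (nb (nat_lit 125) (nat_lit 1216) (nb (nat_lit 0xfa00000000000000fa) (nat_lit 128) (nat_lit 0))), (nb (nat_lit 0xfa00000000000001f4000000000000007d) (nat_lit 1280) (nat_lit 0xfa00000000000000fa))⟩, ⟨(nat_lit 22), (nat_lit 48), (nb (nat_lit 125) (nat_lit 1216) (nb (nat_lit 0xfa00000000000000fa) (nat_lit 128) (nat_lit 0))), (nb (nat_lit 0xfa00000000000001f4000000000000007d) (nat_lit 1280) (nat_lit 0xfa00000000000000fa))⟩, ⟨(nat_lit 24), (nat_lit 40), (nb (nat_lit 125) (nat_lit 1216) (nb (nat_lit 0xfa00000000000000fa) (nat_lit 128) (nat_lit 0))), (nb (nat_lit 0xfa00000000000001f4000000000000007d) (nat_lit 1280) (nat_lit 0xfa00000000000000fa))⟩, ⟨(nat_lit 26), (nat_lit 42), (nb (nat_lit 125) (nat_lit 1216) (nb (nat_lit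 0xfa00000000000000fa) (nat_lit 128) (nat_lit 0))), (nb (nat_lit 0xfa00000000000001f4000000000000007d) (nat_lit 1280) (nat_lit 0xfa00000000000000fa))⟩, ⟨(nat_lit 28), (nat_lit 44), (nb (nat_lit 125) (nat_lit 1216) (nb (nat_lit 0xfa00000000000000fa) (nat_lit 128) (nat_lit 0))), (nb (nat_lit 0xfa00000000000001f4000000000000007d) (nat_lit 1280) (nat_lit 0xfa00000000000000fa))⟩]⟩
def e983 : En := ⟨(nat_lit 60), (nat_lit 4369), (nat_lit 507806), (nat_lit 8), [⟨(nat_lit 2), (nat_lit 40), (nat_lit 0x12aa000000000000000000000000000000000000000000000000), (nat_lit 0x339400000000000071bc00000000000051d9)⟩, ⟨(nat_lit 4), (nat_lit 50), (nat_lit 0x58e800000000000050d200000000000000000000000000000000), (nat_lit 0xd390000000000003f2f)⟩, ⟨(nat_lit 6), (nat_lit 56), (nat_lit 0x8160000000000006621000000000000981700000000000058e8), (nat_lit 0)⟩, ⟨(nat_lit 8), (nat_lit 48), (nat_lit 0), (nat_lit 0x1fe300000000000071bc00000000000084660000000000003e28)⟩, ⟨(nat_lit 10),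 (nat_lit 18), (nat_lit 0x2b7e00000000000051d90000000000003e280000000000000b9b), (nat_lit 0)⟩, ⟨(nat_lit 14), (nat_lit 28), (nat_lit 0x31f6000000000000000000000000000000000000000000000000), (nat_lit 0xd3900000000000066210000000000005e0b)⟩, ⟨(nat_lit 20), (nat_lit 26), (nat_lit 0x463e0000000000008466000000000000648300000000000012aa), (nat_lit 0)⟩]⟩
def e984 : En := ⟨(nat_lit 62), (nat_lit 65809), (nat_lit 507806), (nat_lit 8), [⟨(nat_lit 0), (nat_lit 40), (nat_lit 0), (nat_lit 0x1fe300000000000071bc00000000000084660000000000003e28)⟩, ⟨(nat_lit 4), (nat_lit 42), (nat_lit 0x12aa000000000000000000000000000000000000000000000000), (nat_lit 0x339400000000000071bc00000000000051d9)⟩, ⟨(nat_lit 6), (nat_lit 52), (nat_lit 0x58e800000000000050d200000000000000000000000000000000), (nat_lit 0xd390000000000003f2f)⟩, ⟨(nat_lit 8), (nat_lit 58), (nat_lit 0x8160000000000006621000000000000981700000000000058e8), (nat_lit 0)⟩, ⟨(nat_lit 10), (nat_lit 12), (nat_lit 0), (nat_lit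 0x2b7e00000000000051d90000000000003e280000000000000b9b)⟩, ⟨(nat_lit 16), (nat_lit 20), (nat_lit 0x31f6000000000000000000000000000000000000000000000000), (nat_lit 0xd3900000000000066210000000000005e0b)⟩, ⟨(nat_lit 22), (nat_lit 28), (nat_lit 0x463e0000000000008466000000000000648300000000000012aa), (nat_lit 0)⟩]⟩
def e985 : En := ⟨(nat_lit 64), (nat_lit 69649), (nat_lit 507806), (nat_lit 8), [⟨(nat_lit 0), (nat_lit 50), (nat_lit 0x8160000000000006621000000000000981700000000000058e8), (nat_lit 0)⟩, ⟨(nat_lit 2), (nat_lit 42), (nat_lit 0), (nat_lit 0x1fe300000000000071bc00000000000084660000000000003e28)⟩, ⟨(nat_lit 6), (nat_lit 44), (nat_lit 0x12aa000000000000000000000000000000000000000000000000), (nat_lit 0x339400000000000071bc00000000000051d9)⟩, ⟨(nat_lit 8), (nat_lit 54), (nat_lit 0x58e800000000000050d200000000000000000000000000000000), (nat_lit 0xd390000000000003f2f)⟩, ⟨(nat_lit 12), (nat_lit 14), (nat_lit 0), (nat_lit 0x2b7e00000000000051d90000000000003e280000000000000b9b)⟩,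 ⟨(nat_lit 18), (nat_lit 22), (nat_lit 0x31f6000000000000000000000000000000000000000000000000), (nat_lit 0xd3900000000000066210000000000005e0b)⟩, ⟨(nat_lit 20), (nat_lit 24), (nat_lit 0), (nat_lit 0x463e0000000000008466000000000000648300000000000012aa)⟩]⟩
def e986 : En := ⟨(nat_lit 66), (nat_lit 69889), (nat_lit 507806), (nat_lit 8), [⟨(nat_lit 0), (nat_lit 56), (nat_lit 0x58e800000000000050d200000000000000000000000000000000), (nat_lit 0xd390000000000003f2f)⟩, ⟨(nat_lit 2), (nat_lit 52), (nat_lit 0x8160000000000006621000000000000981700000000000058e8), (nat_lit 0)⟩, ⟨(nat_lit 4), (nat_lit 44), (nat_lit 0), (nat_lit 0x1fe300000000000071bc00000000000084660000000000003e28)⟩, ⟨(nat_lit 8), (nat_lit 46), (nat_lit 0x12aa000000000000000000000000000000000000000000000000), (nat_lit 0x339400000000000071bc00000000000051d9)⟩, ⟨(nat_lit 10), (nat_lit 24), (nat_lit 0x31f6000000000000000000000000000000000000000000000000), (nat_lit 0xd3900000000000066210000000000005e0b)⟩,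 ⟨(nat_lit 14), (nat_lit 16), (nat_lit 0), (nat_lit 0x2b7e00000000000051d90000000000003e280000000000000b9b)⟩, ⟨(nat_lit 22), (nat_lit 26), (nat_lit 0), (nat_lit 0x463e0000000000008466000000000000648300000000000012aa)⟩]⟩
def e987 : En := ⟨(nat_lit 68), (nat_lit 69904), (nat_lit 507806), (nat_lit 8), [⟨(nat_lit 0), (nat_lit 48), (nat_lit 0x12aa000000000000000000000000000000000000000000000000), (nat_lit 0x339400000000000071bc00000000000051d9)⟩, ⟨(nat_lit 2), (nat_lit 58), (nat_lit 0x58e800000000000050d200000000000000000000000000000000), (nat_lit 0xd390000000000003f2f)⟩, ⟨(nat_lit 4), (nat_lit 54), (nat_lit 0x8160000000000006621000000000000981700000000000058e8), (nat_lit 0)⟩, ⟨(nat_lit 6), (nat_lit 46), (nat_lit 0), (nat_lit 0x1fe300000000000071bc00000000000084660000000000003e28)⟩, ⟨(nat_lit 12), (nat_lit 26), (nat_lit 0x31f6000000000000000000000000000000000000000000000000), (nat_lit 0xd3900000000000066210000000000005e0b)⟩, ⟨(nat_lit 16), (nat_lit 18),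 (nat_lit 0), (nat_lit 0x2b7e00000000000051d90000000000003e280000000000000b9b)⟩, ⟨(nat_lit 24), (nat_lit 28), (nat_lit 0), (nat_lit 0x463e0000000000008466000000000000648300000000000012aa)⟩]⟩
def e988 : En := ⟨(nat_lit 40), (nat_lit 273), (nat_lit 133472), (nat_lit 8), [⟨(nat_lit 4), (nat_lit 20), (nat_lit 5041), (nat_lit 0x328d0000000000003e2800000000000012aa0000000000000000)⟩, ⟨(nat_lit 6), (nat_lit 10), (nat_lit 0x8160000000000003f2f0000000000003a0c), (nat_lit 0x1edc000000000000000000000000000000000000000000000000)⟩, ⟨(nat_lit 8), (nat_lit 28), (nat_lit 0x13b1000000000000463e00000000000051d9000000000000265b), (nat_lit 0)⟩]⟩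
def e989 : En := ⟨(nat_lit 42), (nat_lit 65553), (nat_lit 133472), (nat_lit 8), [⟨(nat_lit 0), (nat_lit 20), (nat_lit 0x13b1000000000000463e00000000000051d9000000000000265b), (nat_lit 0)⟩, ⟨(nat_lit 6), (nat_lit 22), (nat_lit 5041), (nat_lit 0x328d0000000000003e2800000000000012aa0000000000000000)⟩, ⟨(nat_lit 8), (nat_lit 12), (nat_lit 0x8160000000000003f2f0000000000003a0c), (nat_lit 0x1edc000000000000000000000000000000000000000000000000)⟩]⟩
def e990 : En := ⟨(nat_lit 44), (nat_lit 69633), (nat_lit 133472), (nat_lit 8), [⟨(nat_lit 0), (nat_lit 14), (nat_lit 0x8160000000000003f2f0000000000003a0c), (nat_lit 0x1edc000000000000000000000000000000000000000000000000)⟩, ⟨(nat_lit 2), (nat_lit 22), (nat_lit 0x13b1000000000000463e00000000000051d9000000000000265b), (nat_lit 0)⟩, ⟨(nat_lit 8), (nat_lit 24), (nat_lit 5041), (nat_lit 0x328d0000000000003e2800000000000012aa0000000000000000)⟩]⟩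
def e991 : En := ⟨(nat_lit 46), (nat_lit 69888), (nat_lit 133472), (nat_lit 8), [⟨(nat_lit 0), (nat_lit 26), (nat_lit 5041), (nat_lit 0x328d0000000000003e2800000000000012aa0000000000000000)⟩, ⟨(nat_lit 2), (nat_lit 16), (nat_lit 0x8160000000000003f2f0000000000003a0c), (nat_lit 0x1edc000000000000000000000000000000000000000000000000)⟩, ⟨(nat_lit 4), (nat_lit 24), (nat_lit 0x13b1000000000000463e00000000000051d9000000000000265b), (nat_lit 0)⟩]⟩
def e992 : En := ⟨(nat_lit 48), (nat_lit 4368), (nat_lit 133472), (nat_lit 8), [⟨(nat_lit 2), (nat_lit 28), (nat_lit 5041), (nat_lit 0x328d0000000000003e2800000000000012aa0000000000000000)⟩, ⟨(nat_lit 4), (nat_lit 18), (nat_lit 0x8160000000000003f2f0000000000003a0c), (nat_lit 0x1edc000000000000000000000000000000000000000000000000)⟩, ⟨(nat_lit 6), (nat_lit 26), (nat_lit 0x13b1000000000000463e00000000000051d9000000000000265b), (nat_lit 0)⟩]⟩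
def e993 : En := ⟨(nat_lit 50), (nat_lit 4113), (nat_lit 79224), (nat_lit 8), [⟨(nat_lit 2), (nat_lit 20), (nat_lit 5041), (nat_lit 0x328d0000000000003e2800000000000012aa0000000000000000)⟩, ⟨(nat_lit 6), (nat_lit 14), (nat_lit 0x188b000000000000165600000000000000000000000000000000), (nat_lit 0x3ac000000000000117c)⟩, ⟨(nat_lit 8), (nat_lit 18), (nat_lit 0x1a0200000000000027d200000000000016560000000000000000), (nat_lit 565)⟩]⟩
def e994 : En := ⟨(nat_lit 52), (nat_lit 65793), (nat_lit 79224), (nat_lit 8), [⟨(nat_lit 0), (nat_lit 10), (nat_lit 0x1a0200000000000027d200000000000016560000000000000000), (nat_lit 565)⟩, ⟨(nat_lit 4), (nat_lit 22), (nat_lit 5041), (nat_lit 0x328d0000000000003e2800000000000012aa0000000000000000)⟩, ⟨(nat_lit 8), (nat_lit 16), (nat_lit 0x188b000000000000165600000000000000000000000000000000), (nat_lit 0x3ac000000000000117c)⟩]⟩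
def e995 : En := ⟨(nat_lit 54), (nat_lit 69648), (nat_lit 79224), (nat_lit 8), [⟨(nat_lit 0), (nat_lit 18), (nat_lit 0x188b000000000000165600000000000000000000000000000000), (nat_lit 0x3ac000000000000117c)⟩, ⟨(nat_lit 2), (nat_lit 12), (nat_lit 0x1a0200000000000027d200000000000016560000000000000000), (nat_lit 565)⟩, ⟨(nat_lit 6), (nat_lit 24), (nat_lit 5041), (nat_lit 0x328d0000000000003e2800000000000012aa0000000000000000)⟩]⟩
def e996 : En := ⟨(nat_lit 56), (nat_lit 4353), (nat_lit 79224), (nat_lit 8), [⟨(nat_lit 2), (nat_lit 10), (nat_lit 0x188b000000000000165600000000000000000000000000000000), (nat_lit 0x3ac000000000000117c)⟩, ⟨(nat_lit 4), (nat_lit 14), (nat_lit 0x1a0200000000000027d200000000000016560000000000000000), (nat_lit 565)⟩, ⟨(nat_lit 8), (nat_lit 26), (nat_lit 5041), (nat_lit 0x328d0000000000003e2800000000000012aa0000000000000000)⟩]⟩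
def e997 : En := ⟨(nat_lit 58), (nat_lit 65808), (nat_lit 79224), (nat_lit 8), [⟨(nat_lit 0), (nat_lit 28), (nat_lit 5041), (nat_lit 0x328d0000000000003e2800000000000012aa0000000000000000)⟩, ⟨(nat_lit 4), (nat_lit 12), (nat_lit 0x188b000000000000165600000000000000000000000000000000), (nat_lit 0x3ac000000000000117c)⟩, ⟨(nat_lit 6), (nat_lit 16), (nat_lit 0x1a0200000000000027d200000000000016560000000000000000), (nat_lit 565)⟩]⟩
def e998 : En := ⟨(nat_lit 10), (nat_lit 257), (nat_lit 38672), (nat_lit 8), [⟨(nat_lit 4), (nat_lit 8), (nat_lit 5041), (nat_lit 0x328d0000000000003e2800000000000012aa0000000000000000)⟩]⟩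
def e999 : En := ⟨(nat_lit 12), (nat_lit 65552), (nat_lit 38672), (nat_lit 8), [⟨(nat_lit 0), (nat_lit 6), (nat_lit 0x328d0000000000003e2800000000000012aa0000000000000000), (nat_lit 5041)⟩]⟩
def e1000 : En := ⟨(nat_lit 14), (nat_lit 4097), (nat_lit 38672), (nat_lit 8), [⟨(nat_lit 2), (nat_lit 8), (nat_lit 0x328d0000000000003e2800000000000012aa0000000000000000), (nat_lit 5041)⟩]⟩
def e1001 : En := ⟨(nat_lit 16), (nat_lit 65792), (nat_lit 38672), (nat_lit 8), [⟨(nat_lit 0), (nat_lit 4), (nat_lit 5041), (nat_lit 0x328d0000000000003e2800000000000012aa0000000000000000)⟩]⟩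
def e1002 : En := ⟨(nat_lit 18), (nat_lit 4112), (nat_lit 38672), (nat_lit 8), [⟨(nat_lit 2), (nat_lit 6), (nat_lit 5041), (nat_lit 0x328d0000000000003e2800000000000012aa0000000000000000)⟩]⟩
def e1003 : En := ⟨(nat_lit 20), (nat_lit 17), (nat_lit 38672), (nat_lit 8), [⟨(nat_lit 6), (nat_lit 8), (nat_lit 5041), (nat_lit 0x328d0000000000003e2800000000000012aa0000000000000000)⟩]⟩
def e1004 : En := ⟨(nat_lit 22), (nat_lit 65537), (nat_lit 38672), (nat_lit 8), [⟨(nat_lit 0), (nat_lit 8), (nat_lit 0x328d0000000000003e2800000000000012aa0000000000000000), (nat_lit 5041)⟩]⟩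
def e1005 : En := ⟨(nat_lit 24), (nat_lit 69632), (nat_lit 38672), (nat_lit 8), [⟨(nat_lit 0), (nat_lit 2), (nat_lit 5041), (nat_lit 0x328d0000000000003e2800000000000012aa0000000000000000)⟩]⟩
def e1006 : En := ⟨(nat_lit 26), (nat_lit 4352), (nat_lit 38672), (nat_lit 8), [⟨(nat_lit 2), (nat_lit 4), (nat_lit 5041), (nat_lit 0x328d0000000000003e2800000000000012aa0000000000000000)⟩]⟩
def e1007 : En := ⟨(nat_lit 28), (nat_lit 272), (nat_lit 38672), (nat_lit 8), [⟨(nat_lit 4), (nat_lit 6), (nat_lit 5041), (nat_lit 0x328d0000000000003e2800000000000012aa0000000000000000)⟩]⟩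
def e1008 : En := ⟨(nat_lit 71), (nat_lit 69905), (nat_lit 923720), (nat_lit 8), [⟨(nat_lit 0), (nat_lit 60), (nat_lit 5041), (nat_lit 0x328d0000000000003e2800000000000012aa0000000000000000)⟩, ⟨(nat_lit 2), (nat_lit 62), (nat_lit 5041), (nat_lit 0x328d0000000000003e2800000000000012aa0000000000000000)⟩, ⟨(nat_lit 4), (nat_lit 64), (nat_lit 5041), (nat_lit 0x328d0000000000003e2800000000000012aa0000000000000000)⟩, ⟨(nat_lit 6), (nat_lit 66), (nat_lit 5041), (nat_lit 0x328d0000000000003e2800000000000012aa0000000000000000)⟩, ⟨(nat_lit 8), (nat_lit 68), (nat_lit 5041), (nat_lit 0x328d0000000000003e2800000000000012aa0000000000000000)⟩, ⟨(nat_lit 10), (nat_lit 54), (nat_lit 0x50d2000000000000000000000000000000000000000000000000), (nat_lit 0x154f000000000000a5500000000000009817)⟩, ⟨(nat_lit 12), (nat_lit 56), (nat_lit 0x50d2000000000000000000000000000000000000000000000000), (nat_lit 0x154f000000000000a5500000000000009817)⟩, ⟨(nat_lit 14), (nat_lit 58), (nat_lit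 0x50d2000000000000000000000000000000000000000000000000), (nat_lit 0x154f000000000000a5500000000000009817)⟩, ⟨(nat_lit 16), (nat_lit 50), (nat_lit 0x50d2000000000000000000000000000000000000000000000000), (nat_lit 0x154f000000000000a5500000000000009817)⟩, ⟨(nat_lit 18), (nat_lit 52), (nat_lit 0x50d2000000000000000000000000000000000000000000000000), (nat_lit 0x154f000000000000a5500000000000009817)⟩, ⟨(nat_lit 20), (nat_lit 46), (nat_lit 0x328d0000000000003e2800000000000012aa0000000000000000), (nat_lit 5041)⟩, ⟨(nat_lit 22), (nat_lit 48), (nat_lit 0x328d0000000000003e2800000000000012aa0000000000000000), (nat_lit 5041)⟩, ⟨(nat_lit 24), (nat_lit 40), (nat_lit 0x328d0000000000003e2800000000000012aa0000000000000000), (nat_lit 5041)⟩, ⟨(nat_lit 26), (nat_lit 42), (nat_lit 0x328d0000000000003e2800000000000012aa0000000000000000), (nat_lit 5041)⟩, ⟨(nat_lit 28), (nat_lit 44), (nat_lit 0x328d0000000000003e2800000000000012aa0000000000000000), (nat_lit 5041)⟩]⟩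
def e1009 : En := ⟨(nat_lit 60), (nat_lit 4369), (nat_lit 0x15a62e), (nat_lit 216), [⟨(nat_lit 2), (nat_lit 40), (nb (nat_lit 0x51fa000000000000703300000000000034660000000000008302) (nat_lit 2432) (nb (nat_lit 2615) (nat_lit 1280) (nat_lit 0x15e600000000000000000000000000000086))), (nb (nat_lit 0x30d70000000000001dec000000000000212000000000000049c5) (nat_lit 3648) (nb (nat_lit 0x30f2000000000000665900000000000000000000000000004581) (nat_lit 1216) (nb (nat_lit 0xf95000000000000000000000000000025cf) (nat_lit 64) (nat_lit 0))))⟩, ⟨(nat_lit 4), (nat_lit 50), (nb (nat_lit 0x54a00000000000000000000000000001477) (nat_lit 3712) (nb (nat_lit 0x45a000000000000000000000000000004584) (nat_lit 2432) (nb (nat_lit 0x2e6900000000000000000000000000000373) (nat_lit 1280) (nb (nat_lit 4481) (nat_lit 128) (nat_lit 0))))), (nb (nat_lit 0x164300000000000000000000000000002e62) (nat_lit 3648) (nb (nat_lit 0x300e00000000000000000000000000000d32) (nat_lit 2496) (nb (nat_lit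 0x596100000000000000000000000000000cd3) (nat_lit 1216) (nat_lit 0x1ee90000000000000000000000000000120200000000000022a4))))⟩, ⟨(nat_lit 6), (nat_lit 56), (nb (nat_lit 0x42cf0000000000002bb50000000000002cb50000000000005d69) (nat_lit 3648) (nb (nat_lit 0x36c500000000000068d1000000000000000000000000000045a5) (nat_lit 1216) (nat_lit 0x1b8d000000000000000000000000000033ac000000000000054a))), (nb (nat_lit 0x6d8c00000000000089650000000000003a1c00000000000095f3) (nat_lit 2432) (nb (nat_lit 7778) (nat_lit 1280) (nb (nat_lit 3885) (nat_lit 128) (nat_lit 0))))⟩, ⟨(nat_lit 8), (nat_lit 48), (nb (nat_lit 0x87bd0000000000005df90000000000004cd40000000000007819) (nat_lit 2432) (nb (nat_lit 1828) (nat_lit 1280) (nat_lit 0x32b00000000000011f90000000000000000000000000000198a))), (nb (nat_lit 0x4047000000000000153b000000000000376b0000000000003c9b) (nat_lit 3648) (nb (nat_lit 0x5f46000000000000482d00000000000000000000000000005287) (nat_lit 1216) (nb (nat_lit 8842) (nat_lit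 64) (nat_lit 0))))⟩, ⟨(nat_lit 10), (nat_lit 18), (nb (nat_lit 0x242900000000000000000000000000002a0200000000000007bf) (nat_lit 3648) (nb (nat_lit 0x59880000000000000a800000000000000d67000000000000388a) (nat_lit 1216) (nb (nat_lit 1520) (nat_lit 64) (nat_lit 0)))), (nb (nat_lit 1568) (nat_lit 3776) (nb (nat_lit 0x667600000000000011610000000000003be20000000000002a8d) (nat_lit 2432) (nat_lit 0x1b4c0000000000000b1e000000000000000000000000000028fa)))⟩, ⟨(nat_lit 14), (nat_lit 28), (nb (nat_lit 0x26fc0000000000007ffe0000000000001c2e0000000000008827) (nat_lit 2432) (nb (nat_lit 5355) (nat_lit 1280) (nb (nat_lit 5231) (nat_lit 128) (nat_lit 0)))), (nb (nat_lit 0x264400000000000028ed0000000000000f3d0000000000005614) (nat_lit 3648) (nb (nat_lit 0x5a900000000000078e2000000000000000000000000000033d6) (nat_lit 1216) (nat_lit 0x244a00000000000000000000000000002b570000000000001910)))⟩, ⟨(nat_lit 20), (nat_lit 26), (nb (nat_lit 0x362100000000000007a900000000000035970000000000001b63)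 (nat_lit 3648) (nb (nat_lit 0x5f5b0000000000000cf8000000000000000000000000000038ae) (nat_lit 1216) (nb (nat_lit 5069) (nat_lit 64) (nat_lit 0)))), (nb (nat_lit 0x82080000000000002a9300000000000041980000000000003d7e) (nat_lit 2432) (nb (nat_lit 1732) (nat_lit 1280) (nat_lit 0xf5400000000000004650000000000000000000000000000232a)))⟩]⟩
def e1010 : En := ⟨(nat_lit 62), (nat_lit 65809), (nat_lit 0x15a62e), (nat_lit 216), [⟨(nat_lit 0), (nat_lit 40), (nb (nat_lit 0x87bd0000000000005df90000000000004cd40000000000007819) (nat_lit 2432) (nb (nat_lit 1828) (nat_lit 1280) (nat_lit 0x32b00000000000011f90000000000000000000000000000198a))), (nb (nat_lit 0x4047000000000000153b000000000000376b0000000000003c9b) (nat_lit 3648) (nb (nat_lit 0x5f46000000000000482d00000000000000000000000000005287) (nat_lit 1216) (nb (nat_lit 8842) (nat_lit 64) (nat_lit 0))))⟩, ⟨(nat_lit 4), (nat_lit 42), (nb (nat_lit 0x51fa000000000000703300000000000034660000000000008302) (nat_lit 2432)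 (nb (nat_lit 2615) (nat_lit 1280) (nat_lit 0x15e600000000000000000000000000000086))), (nb (nat_lit 0x30d70000000000001dec000000000000212000000000000049c5) (nat_lit 3648) (nb (nat_lit 0x30f2000000000000665900000000000000000000000000004581) (nat_lit 1216) (nb (nat_lit 0xf95000000000000000000000000000025cf) (nat_lit 64) (nat_lit 0))))⟩, ⟨(nat_lit 6), (nat_lit 52), (nb (nat_lit 0x54a00000000000000000000000000001477) (nat_lit 3712) (nb (nat_lit 0x45a000000000000000000000000000004584) (nat_lit 2432) (nb (nat_lit 0x2e6900000000000000000000000000000373) (nat_lit 1280) (nb (nat_lit 4481) (nat_lit 128) (nat_lit 0))))), (nb (nat_lit 0x164300000000000000000000000000002e62) (nat_lit 3648) (nb (nat_lit 0x300e00000000000000000000000000000d32) (nat_lit 2496) (nb (nat_lit 0x596100000000000000000000000000000cd3) (nat_lit 1216) (nat_lit 0x1ee90000000000000000000000000000120200000000000022a4))))⟩, ⟨(nat_lit 8), (nat_lit 58), (nb (nat_lit 0x42cf0000000000002bb50000000000002cb50000000000005d69)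 (nat_lit 3648) (nb (nat_lit 0x36c500000000000068d1000000000000000000000000000045a5) (nat_lit 1216) (nat_lit 0x1b8d000000000000000000000000000033ac000000000000054a))), (nb (nat_lit 0x6d8c00000000000089650000000000003a1c00000000000095f3) (nat_lit 2432) (nb (nat_lit 7778) (nat_lit 1280) (nb (nat_lit 3885) (nat_lit 128) (nat_lit 0))))⟩, ⟨(nat_lit 10), (nat_lit 12), (nb (nat_lit 1568) (nat_lit 3776) (nb (nat_lit 0x667600000000000011610000000000003be20000000000002a8d) (nat_lit 2432) (nat_lit 0x1b4c0000000000000b1e000000000000000000000000000028fa))), (nb (nat_lit 0x242900000000000000000000000000002a0200000000000007bf) (nat_lit 3648) (nb (nat_lit 0x59880000000000000a800000000000000d67000000000000388a) (nat_lit 1216) (nb (nat_lit 1520) (nat_lit 64) (nat_lit 0))))⟩, ⟨(nat_lit 16), (nat_lit 20), (nb (nat_lit 0x26fc0000000000007ffe0000000000001c2e0000000000008827) (nat_lit 2432) (nb (nat_lit 5355) (nat_lit 1280) (nb (nat_lit 5231) (nat_lit 128) (nat_lit 0)))),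 (nb (nat_lit 0x264400000000000028ed0000000000000f3d0000000000005614) (nat_lit 3648) (nb (nat_lit 0x5a900000000000078e2000000000000000000000000000033d6) (nat_lit 1216) (nat_lit 0x244a00000000000000000000000000002b570000000000001910)))⟩, ⟨(nat_lit 22), (nat_lit 28), (nb (nat_lit 0x362100000000000007a900000000000035970000000000001b63) (nat_lit 3648) (nb (nat_lit 0x5f5b0000000000000cf8000000000000000000000000000038ae) (nat_lit 1216) (nb (nat_lit 5069) (nat_lit 64) (nat_lit 0)))), (nb (nat_lit 0x82080000000000002a9300000000000041980000000000003d7e) (nat_lit 2432) (nb (nat_lit 1732) (nat_lit 1280) (nat_lit 0xf5400000000000004650000000000000000000000000000232a)))⟩]⟩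
def e1011 : En := ⟨(nat_lit 64), (nat_lit 69649), (nat_lit 0x15a62e), (nat_lit 216), [⟨(nat_lit 0), (nat_lit 50), (nb (nat_lit 0x42cf0000000000002bb50000000000002cb50000000000005d69) (nat_lit 3648) (nb (nat_lit 0x36c500000000000068d1000000000000000000000000000045a5) (nat_lit 1216) (nat_lit 0x1b8d000000000000000000000000000033ac000000000000054a))), (nb (nat_lit 0x6d8c00000000000089650000000000003a1c00000000000095f3) (nat_lit 2432) (nb (nat_lit 7778) (nat_lit 1280) (nb (nat_lit 3885) (nat_lit 128) (nat_lit 0))))⟩, ⟨(nat_lit 2), (nat_lit 42), (nb (nat_lit 0x87bd0000000000005df90000000000004cd40000000000007819) (nat_lit 2432) (nb (nat_lit 1828) (nat_lit 1280) (nat_lit 0x32b00000000000011f90000000000000000000000000000198a))), (nb (nat_lit 0x4047000000000000153b000000000000376b0000000000003c9b) (nat_lit 3648) (nb (nat_lit 0x5f46000000000000482d00000000000000000000000000005287) (nat_lit 1216) (nb (nat_lit 8842) (nat_lit 64) (nat_lit 0))))⟩, ⟨(nat_lit 6),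 (nat_lit 44), (nb (nat_lit 0x51fa000000000000703300000000000034660000000000008302) (nat_lit 2432) (nb (nat_lit 2615) (nat_lit 1280) (nat_lit 0x15e600000000000000000000000000000086))), (nb (nat_lit 0x30d70000000000001dec000000000000212000000000000049c5) (nat_lit 3648) (nb (nat_lit 0x30f2000000000000665900000000000000000000000000004581) (nat_lit 1216) (nb (nat_lit 0xf95000000000000000000000000000025cf) (nat_lit 64) (nat_lit 0))))⟩, ⟨(nat_lit 8), (nat_lit 54), (nb (nat_lit 0x54a00000000000000000000000000001477) (nat_lit 3712) (nb (nat_lit 0x45a000000000000000000000000000004584) (nat_lit 2432) (nb (nat_lit 0x2e6900000000000000000000000000000373) (nat_lit 1280) (nb (nat_lit 4481) (nat_lit 128) (nat_lit 0))))), (nb (nat_lit 0x164300000000000000000000000000002e62) (nat_lit 3648) (nb (nat_lit 0x300e00000000000000000000000000000d32) (nat_lit 2496) (nb (nat_lit 0x596100000000000000000000000000000cd3) (nat_lit 1216) (nat_lit 0x1ee90000000000000000000000000000120200000000000022a4))))⟩,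 ⟨(nat_lit 12), (nat_lit 14), (nb (nat_lit 1568) (nat_lit 3776) (nb (nat_lit 0x667600000000000011610000000000003be20000000000002a8d) (nat_lit 2432) (nat_lit 0x1b4c0000000000000b1e000000000000000000000000000028fa))), (nb (nat_lit 0x242900000000000000000000000000002a0200000000000007bf) (nat_lit 3648) (nb (nat_lit 0x59880000000000000a800000000000000d67000000000000388a) (nat_lit 1216) (nb (nat_lit 1520) (nat_lit 64) (nat_lit 0))))⟩, ⟨(nat_lit 18), (nat_lit 22), (nb (nat_lit 0x26fc0000000000007ffe0000000000001c2e0000000000008827) (nat_lit 2432) (nb (nat_lit 5355) (nat_lit 1280) (nb (nat_lit 5231) (nat_lit 128) (nat_lit 0)))), (nb (nat_lit 0x264400000000000028ed0000000000000f3d0000000000005614) (nat_lit 3648) (nb (nat_lit 0x5a900000000000078e2000000000000000000000000000033d6) (nat_lit 1216) (nat_lit 0x244a00000000000000000000000000002b570000000000001910)))⟩, ⟨(nat_lit 20), (nat_lit 24), (nb (nat_lit 0x82080000000000002a9300000000000041980000000000003d7e)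 (nat_lit 2432) (nb (nat_lit 1732) (nat_lit 1280) (nat_lit 0xf5400000000000004650000000000000000000000000000232a))), (nb (nat_lit 0x362100000000000007a900000000000035970000000000001b63) (nat_lit 3648) (nb (nat_lit 0x5f5b0000000000000cf8000000000000000000000000000038ae) (nat_lit 1216) (nb (nat_lit 5069) (nat_lit 64) (nat_lit 0))))⟩]⟩
def e1012 : En := ⟨(nat_lit 66), (nat_lit 69889), (nat_lit 0x15a62e), (nat_lit 216), [⟨(nat_lit 0), (nat_lit 56), (nb (nat_lit 0x54a00000000000000000000000000001477) (nat_lit 3712) (nb (nat_lit 0x45a000000000000000000000000000004584) (nat_lit 2432) (nb (nat_lit 0x2e6900000000000000000000000000000373) (nat_lit 1280) (nb (nat_lit 4481) (nat_lit 128) (nat_lit 0))))), (nb (nat_lit 0x164300000000000000000000000000002e62) (nat_lit 3648) (nb (nat_lit 0x300e00000000000000000000000000000d32) (nat_lit 2496) (nb (nat_lit 0x596100000000000000000000000000000cd3) (nat_lit 1216) (nat_lit 0x1ee90000000000000000000000000000120200000000000022a4))))⟩,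 ⟨(nat_lit 2), (nat_lit 52), (nb (nat_lit 0x42cf0000000000002bb50000000000002cb50000000000005d69) (nat_lit 3648) (nb (nat_lit 0x36c500000000000068d1000000000000000000000000000045a5) (nat_lit 1216) (nat_lit 0x1b8d000000000000000000000000000033ac000000000000054a))), (nb (nat_lit 0x6d8c00000000000089650000000000003a1c00000000000095f3) (nat_lit 2432) (nb (nat_lit 7778) (nat_lit 1280) (nb (nat_lit 3885) (nat_lit 128) (nat_lit 0))))⟩, ⟨(nat_lit 4), (nat_lit 44), (nb (nat_lit 0x87bd0000000000005df90000000000004cd40000000000007819) (nat_lit 2432) (nb (nat_lit 1828) (nat_lit 1280) (nat_lit 0x32b00000000000011f90000000000000000000000000000198a))), (nb (nat_lit 0x4047000000000000153b000000000000376b0000000000003c9b) (nat_lit 3648) (nb (nat_lit 0x5f46000000000000482d00000000000000000000000000005287) (nat_lit 1216) (nb (nat_lit 8842) (nat_lit 64) (nat_lit 0))))⟩, ⟨(nat_lit 8), (nat_lit 46), (nb (nat_lit 0x51fa000000000000703300000000000034660000000000008302) (nat_lit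 2432) (nb (nat_lit 2615) (nat_lit 1280) (nat_lit 0x15e600000000000000000000000000000086))), (nb (nat_lit 0x30d70000000000001dec000000000000212000000000000049c5) (nat_lit 3648) (nb (nat_lit 0x30f2000000000000665900000000000000000000000000004581) (nat_lit 1216) (nb (nat_lit 0xf95000000000000000000000000000025cf) (nat_lit 64) (nat_lit 0))))⟩, ⟨(nat_lit 10), (nat_lit 24), (nb (nat_lit 0x26fc0000000000007ffe0000000000001c2e0000000000008827) (nat_lit 2432) (nb (nat_lit 5355) (nat_lit 1280) (nb (nat_lit 5231) (nat_lit 128) (nat_lit 0)))), (nb (nat_lit 0x264400000000000028ed0000000000000f3d0000000000005614) (nat_lit 3648) (nb (nat_lit 0x5a900000000000078e2000000000000000000000000000033d6) (nat_lit 1216) (nat_lit 0x244a00000000000000000000000000002b570000000000001910)))⟩, ⟨(nat_lit 14), (nat_lit 16), (nb (nat_lit 1568) (nat_lit 3776) (nb (nat_lit 0x667600000000000011610000000000003be20000000000002a8d) (nat_lit 2432) (nat_lit 0x1b4c0000000000000b1e000000000000000000000000000028fa))),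 (nb (nat_lit 0x242900000000000000000000000000002a0200000000000007bf) (nat_lit 3648) (nb (nat_lit 0x59880000000000000a800000000000000d67000000000000388a) (nat_lit 1216) (nb (nat_lit 1520) (nat_lit 64) (nat_lit 0))))⟩, ⟨(nat_lit 22), (nat_lit 26), (nb (nat_lit 0x82080000000000002a9300000000000041980000000000003d7e) (nat_lit 2432) (nb (nat_lit 1732) (nat_lit 1280) (nat_lit 0xf5400000000000004650000000000000000000000000000232a))), (nb (nat_lit 0x362100000000000007a900000000000035970000000000001b63) (nat_lit 3648) (nb (nat_lit 0x5f5b0000000000000cf8000000000000000000000000000038ae) (nat_lit 1216) (nb (nat_lit 5069) (nat_lit 64) (nat_lit 0))))⟩]⟩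
def e1013 : En := ⟨(nat_lit 68), (nat_lit 69904), (nat_lit 0x15a62e), (nat_lit 216), [⟨(nat_lit 0), (nat_lit 48), (nb (nat_lit 0x51fa000000000000703300000000000034660000000000008302) (nat_lit 2432) (nb (nat_lit 2615) (nat_lit 1280) (nat_lit 0x15e600000000000000000000000000000086))), (nb (nat_lit 0x30d70000000000001dec000000000000212000000000000049c5) (nat_lit 3648) (nb (nat_lit 0x30f2000000000000665900000000000000000000000000004581) (nat_lit 1216) (nb (nat_lit 0xf95000000000000000000000000000025cf) (nat_lit 64) (nat_lit 0))))⟩, ⟨(nat_lit 2), (nat_lit 58), (nb (nat_lit 0x54a00000000000000000000000000001477) (nat_lit 3712) (nb (nat_lit 0x45a000000000000000000000000000004584) (nat_lit 2432) (nb (nat_lit 0x2e6900000000000000000000000000000373) (nat_lit 1280) (nb (nat_lit 4481) (nat_lit 128) (nat_lit 0))))), (nb (nat_lit 0x164300000000000000000000000000002e62) (nat_lit 3648) (nb (nat_lit 0x300e00000000000000000000000000000d32) (nat_lit 2496) (nb (nat_lit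 0x596100000000000000000000000000000cd3) (nat_lit 1216) (nat_lit 0x1ee90000000000000000000000000000120200000000000022a4))))⟩, ⟨(nat_lit 4), (nat_lit 54), (nb (nat_lit 0x42cf0000000000002bb50000000000002cb50000000000005d69) (nat_lit 3648) (nb (nat_lit 0x36c500000000000068d1000000000000000000000000000045a5) (nat_lit 1216) (nat_lit 0x1b8d000000000000000000000000000033ac000000000000054a))), (nb (nat_lit 0x6d8c00000000000089650000000000003a1c00000000000095f3) (nat_lit 2432) (nb (nat_lit 7778) (nat_lit 1280) (nb (nat_lit 3885) (nat_lit 128) (nat_lit 0))))⟩, ⟨(nat_lit 6), (nat_lit 46), (nb (nat_lit 0x87bd0000000000005df90000000000004cd40000000000007819) (nat_lit 2432) (nb (nat_lit 1828) (nat_lit 1280) (nat_lit 0x32b00000000000011f90000000000000000000000000000198a))), (nb (nat_lit 0x4047000000000000153b000000000000376b0000000000003c9b) (nat_lit 3648) (nb (nat_lit 0x5f46000000000000482d00000000000000000000000000005287) (nat_lit 1216) (nb (nat_lit 8842) (nat_lit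 64) (nat_lit 0))))⟩, ⟨(nat_lit 12), (nat_lit 26), (nb (nat_lit 0x26fc0000000000007ffe0000000000001c2e0000000000008827) (nat_lit 2432) (nb (nat_lit 5355) (nat_lit 1280) (nb (nat_lit 5231) (nat_lit 128) (nat_lit 0)))), (nb (nat_lit 0x264400000000000028ed0000000000000f3d0000000000005614) (nat_lit 3648) (nb (nat_lit 0x5a900000000000078e2000000000000000000000000000033d6) (nat_lit 1216) (nat_lit 0x244a00000000000000000000000000002b570000000000001910)))⟩, ⟨(nat_lit 16), (nat_lit 18), (nb (nat_lit 1568) (nat_lit 3776) (nb (nat_lit 0x667600000000000011610000000000003be20000000000002a8d) (nat_lit 2432) (nat_lit 0x1b4c0000000000000b1e000000000000000000000000000028fa))), (nb (nat_lit 0x242900000000000000000000000000002a0200000000000007bf) (nat_lit 3648) (nb (nat_lit 0x59880000000000000a800000000000000d67000000000000388a) (nat_lit 1216) (nb (nat_lit 1520) (nat_lit 64) (nat_lit 0))))⟩, ⟨(nat_lit 24), (nat_lit 28), (nb (nat_lit 0x82080000000000002a9300000000000041980000000000003d7e)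 (nat_lit 2432) (nb (nat_lit 1732) (nat_lit 1280) (nat_lit 0xf5400000000000004650000000000000000000000000000232a))), (nb (nat_lit 0x362100000000000007a900000000000035970000000000001b63) (nat_lit 3648) (nb (nat_lit 0x5f5b0000000000000cf8000000000000000000000000000038ae) (nat_lit 1216) (nb (nat_lit 5069) (nat_lit 64) (nat_lit 0))))⟩]⟩
def e1014 : En := ⟨(nat_lit 40), (nat_lit 273), (nat_lit 312764), (nat_lit 216), [⟨(nat_lit 4), (nat_lit 20), (nb (nat_lit 0x58000000000000000000000000000000e44) (nat_lit 3648) (nb (nat_lit 0x262600000000000000000000000000000f72) (nat_lit 2496) (nb (nat_lit 0x24cd000000000000019e0000000000000297) (nat_lit 1216) (nat_lit 0xe0f0000000000000000000000000000041b0000000000001008)))), (nb (nat_lit 0x8cf00000000000000000000000000001080) (nat_lit 3712) (nb (nat_lit 0x1354000000000000000000000000000015d5) (nat_lit 2432) (nb (nat_lit 8145) (nat_lit 1408) (nb (nat_lit 2488) (nat_lit 128) (nat_lit 0)))))⟩, ⟨(nat_lit 6), (nat_lit 10),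 (nb (nat_lit 0x14e6000000000000118f0000000000000b9b0000000000002cff) (nat_lit 3648) (nb (nat_lit 0x132600000000000046f50000000000000000000000000000265d) (nat_lit 1216) (nat_lit 0xada0000000000000000000000000000156200000000000004c8))), (nb (nat_lit 0x1e3d000000000000464f0000000000001ad20000000000004fb9) (nat_lit 2432) (nb (nat_lit 408) (nat_lit 1280) (nb (nat_lit 3801) (nat_lit 128) (nat_lit 0))))⟩, ⟨(nat_lit 8), (nat_lit 28), (nb (nat_lit 0x1db50000000000000c0f0000000000001c1b0000000000001ebb) (nat_lit 3648) (nb (nat_lit 0x32f70000000000002228000000000000000000000000000023c6) (nat_lit 1216) (nb (nat_lit 4423) (nat_lit 64) (nat_lit 0)))), (nb (nat_lit 0x446300000000000032fb0000000000002a4400000000000039e4) (nat_lit 2432) (nb (nat_lit 822) (nat_lit 1280) (nat_lit 0x335000000000000052100000000000000000000000000000b40)))⟩]⟩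
def e1015 : En := ⟨(nat_lit 42), (nat_lit 65553), (nat_lit 312764), (nat_lit 216), [⟨(nat_lit 0), (nat_lit 20), (nb (nat_lit 0x1db50000000000000c0f0000000000001c1b0000000000001ebb) (nat_lit 3648) (nb (nat_lit 0x32f70000000000002228000000000000000000000000000023c6) (nat_lit 1216) (nb (nat_lit 4423) (nat_lit 64) (nat_lit 0)))), (nb (nat_lit 0x446300000000000032fb0000000000002a4400000000000039e4) (nat_lit 2432) (nb (nat_lit 822) (nat_lit 1280) (nat_lit 0x335000000000000052100000000000000000000000000000b40)))⟩, ⟨(nat_lit 6), (nat_lit 22), (nb (nat_lit 0x58000000000000000000000000000000e44) (nat_lit 3648) (nb (nat_lit 0x262600000000000000000000000000000f72) (nat_lit 2496) (nb (nat_lit 0x24cd000000000000019e0000000000000297) (nat_lit 1216) (nat_lit 0xe0f0000000000000000000000000000041b0000000000001008)))), (nb (nat_lit 0x8cf00000000000000000000000000001080) (nat_lit 3712) (nb (nat_lit 0x1354000000000000000000000000000015d5) (nat_lit 2432) (nb (nat_lit 8145)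 (nat_lit 1408) (nb (nat_lit 2488) (nat_lit 128) (nat_lit 0)))))⟩, ⟨(nat_lit 8), (nat_lit 12), (nb (nat_lit 0x14e6000000000000118f0000000000000b9b0000000000002cff) (nat_lit 3648) (nb (nat_lit 0x132600000000000046f50000000000000000000000000000265d) (nat_lit 1216) (nat_lit 0xada0000000000000000000000000000156200000000000004c8))), (nb (nat_lit 0x1e3d000000000000464f0000000000001ad20000000000004fb9) (nat_lit 2432) (nb (nat_lit 408) (nat_lit 1280) (nb (nat_lit 3801) (nat_lit 128) (nat_lit 0))))⟩]⟩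
def e1016 : En := ⟨(nat_lit 44), (nat_lit 69633), (nat_lit 312764), (nat_lit 216), [⟨(nat_lit 0), (nat_lit 14), (nb (nat_lit 0x14e6000000000000118f0000000000000b9b0000000000002cff) (nat_lit 3648) (nb (nat_lit 0x132600000000000046f50000000000000000000000000000265d) (nat_lit 1216) (nat_lit 0xada0000000000000000000000000000156200000000000004c8))), (nb (nat_lit 0x1e3d000000000000464f0000000000001ad20000000000004fb9) (nat_lit 2432) (nb (nat_lit 408) (nat_lit 1280) (nb (nat_lit 3801) (nat_lit 128) (nat_lit 0))))⟩, ⟨(nat_lit 2), (nat_lit 22), (nb (nat_lit 0x1db50000000000000c0f0000000000001c1b0000000000001ebb) (nat_lit 3648) (nb (nat_lit 0x32f70000000000002228000000000000000000000000000023c6) (nat_lit 1216) (nb (nat_lit 4423) (nat_lit 64) (nat_lit 0)))), (nb (nat_lit 0x446300000000000032fb0000000000002a4400000000000039e4) (nat_lit 2432) (nb (nat_lit 822) (nat_lit 1280) (nat_lit 0x335000000000000052100000000000000000000000000000b40)))⟩, ⟨(nat_lit 8), (nat_lit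 24), (nb (nat_lit 0x58000000000000000000000000000000e44) (nat_lit 3648) (nb (nat_lit 0x262600000000000000000000000000000f72) (nat_lit 2496) (nb (nat_lit 0x24cd000000000000019e0000000000000297) (nat_lit 1216) (nat_lit 0xe0f0000000000000000000000000000041b0000000000001008)))), (nb (nat_lit 0x8cf00000000000000000000000000001080) (nat_lit 3712) (nb (nat_lit 0x1354000000000000000000000000000015d5) (nat_lit 2432) (nb (nat_lit 8145) (nat_lit 1408) (nb (nat_lit 2488) (nat_lit 128) (nat_lit 0)))))⟩]⟩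
def e1017 : En := ⟨(nat_lit 46), (nat_lit 69888), (nat_lit 312764), (nat_lit 216), [⟨(nat_lit 0), (nat_lit 26), (nb (nat_lit 0x58000000000000000000000000000000e44) (nat_lit 3648) (nb (nat_lit 0x262600000000000000000000000000000f72) (nat_lit 2496) (nb (nat_lit 0x24cd000000000000019e0000000000000297) (nat_lit 1216) (nat_lit 0xe0f0000000000000000000000000000041b0000000000001008)))), (nb (nat_lit 0x8cf00000000000000000000000000001080) (nat_lit 3712) (nb (nat_lit 0x1354000000000000000000000000000015d5) (nat_lit 2432) (nb (nat_lit 8145) (nat_lit 1408) (nb (nat_lit 2488) (nat_lit 128) (nat_lit 0)))))⟩, ⟨(nat_lit 2), (nat_lit 16), (nb (nat_lit 0x14e6000000000000118f0000000000000b9b0000000000002cff) (nat_lit 3648) (nb (nat_lit 0x132600000000000046f50000000000000000000000000000265d) (nat_lit 1216) (nat_lit 0xada0000000000000000000000000000156200000000000004c8))), (nb (nat_lit 0x1e3d000000000000464f0000000000001ad20000000000004fb9) (nat_lit 2432) (nb (nat_lit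 408) (nat_lit 1280) (nb (nat_lit 3801) (nat_lit 128) (nat_lit 0))))⟩, ⟨(nat_lit 4), (nat_lit 24), (nb (nat_lit 0x1db50000000000000c0f0000000000001c1b0000000000001ebb) (nat_lit 3648) (nb (nat_lit 0x32f70000000000002228000000000000000000000000000023c6) (nat_lit 1216) (nb (nat_lit 4423) (nat_lit 64) (nat_lit 0)))), (nb (nat_lit 0x446300000000000032fb0000000000002a4400000000000039e4) (nat_lit 2432) (nb (nat_lit 822) (nat_lit 1280) (nat_lit 0x335000000000000052100000000000000000000000000000b40)))⟩]⟩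
def e1018 : En := ⟨(nat_lit 48), (nat_lit 4368), (nat_lit 312764), (nat_lit 216), [⟨(nat_lit 2), (nat_lit 28), (nb (nat_lit 0x58000000000000000000000000000000e44) (nat_lit 3648) (nb (nat_lit 0x262600000000000000000000000000000f72) (nat_lit 2496) (nb (nat_lit 0x24cd000000000000019e0000000000000297) (nat_lit 1216) (nat_lit 0xe0f0000000000000000000000000000041b0000000000001008)))), (nb (nat_lit 0x8cf00000000000000000000000000001080) (nat_lit 3712) (nb (nat_lit 0x1354000000000000000000000000000015d5) (nat_lit 2432) (nb (nat_lit 8145) (nat_lit 1408) (nb (nat_lit 2488) (nat_lit 128) (nat_lit 0)))))⟩, ⟨(nat_lit 4), (nat_lit 18), (nb (nat_lit 0x14e6000000000000118f0000000000000b9b0000000000002cff) (nat_lit 3648) (nb (nat_lit 0x132600000000000046f50000000000000000000000000000265d) (nat_lit 1216) (nat_lit 0xada0000000000000000000000000000156200000000000004c8))), (nb (nat_lit 0x1e3d000000000000464f0000000000001ad20000000000004fb9) (nat_lit 2432) (nb (nat_lit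 408) (nat_lit 1280) (nb (nat_lit 3801) (nat_lit 128) (nat_lit 0))))⟩, ⟨(nat_lit 6), (nat_lit 26), (nb (nat_lit 0x1db50000000000000c0f0000000000001c1b0000000000001ebb) (nat_lit 3648) (nb (nat_lit 0x32f70000000000002228000000000000000000000000000023c6) (nat_lit 1216) (nb (nat_lit 4423) (nat_lit 64) (nat_lit 0)))), (nb (nat_lit 0x446300000000000032fb0000000000002a4400000000000039e4) (nat_lit 2432) (nb (nat_lit 822) (nat_lit 1280) (nat_lit 0x335000000000000052100000000000000000000000000000b40)))⟩]⟩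
def e1019 : En := ⟨(nat_lit 50), (nat_lit 4113), (nat_lit 139418), (nat_lit 216), [⟨(nat_lit 2), (nat_lit 20), (nb (nat_lit 0x58000000000000000000000000000000e44) (nat_lit 3648) (nb (nat_lit 0x262600000000000000000000000000000f72) (nat_lit 2496) (nb (nat_lit 0x24cd000000000000019e0000000000000297) (nat_lit 1216) (nat_lit 0xe0f0000000000000000000000000000041b0000000000001008)))), (nb (nat_lit 0x8cf00000000000000000000000000001080) (nat_lit 3712) (nb (nat_lit 0x1354000000000000000000000000000015d5) (nat_lit 2432) (nb (nat_lit 8145) (nat_lit 1408) (nb (nat_lit 2488) (nat_lit 128) (nat_lit 0)))))⟩, ⟨(nat_lit 6), (nat_lit 14), (nb (nat_lit 646) (nat_lit 3712) (nb (nat_lit 0x13fe00000000000000ff00000000000018c4) (nat_lit 2432) (nb (nat_lit 1504) (nat_lit 1408) (nb (nat_lit 1996) (nat_lit 128) (nat_lit 0))))), (nb (nat_lit 0x1b9000000000000047700000000000000000000000000000d84) (nat_lit 3648) (nb (nat_lit 1400) (nat_lit 2624) (nb (nat_lit 0x1bbf000000000000015e0000000000000b28)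 (nat_lit 1216) (nat_lit 0x61f000000000000000000000000000004f500000000000004e3))))⟩, ⟨(nat_lit 8), (nat_lit 18), (nb (nat_lit 0xa8800000000000000000000000000000dfa) (nat_lit 3712) (nb (nat_lit 0x19f1000000000000000000000000000000000000000000000891) (nat_lit 1216) (nb (nat_lit 0x1ec00000000000000da) (nat_lit 64) (nat_lit 0)))), (nb (nat_lit 0x109000000000000000000000000000000c0) (nat_lit 3648) (nb (nat_lit 0x20ae00000000000000aa000000000000107100000000000002ef) (nat_lit 2432) (nb (nat_lit 0x90e0000000000000040) (nat_lit 1280) (nat_lit 0x7f0000000000000000000000000000000000000000000000b25))))⟩]⟩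
def e1020 : En := ⟨(nat_lit 52), (nat_lit 65793), (nat_lit 139418), (nat_lit 216), [⟨(nat_lit 0), (nat_lit 10), (nb (nat_lit 0xa8800000000000000000000000000000dfa) (nat_lit 3712) (nb (nat_lit 0x19f1000000000000000000000000000000000000000000000891) (nat_lit 1216) (nb (nat_lit 0x1ec00000000000000da) (nat_lit 64) (nat_lit 0)))), (nb (nat_lit 0x109000000000000000000000000000000c0) (nat_lit 3648) (nb (nat_lit 0x20ae00000000000000aa000000000000107100000000000002ef) (nat_lit 2432) (nb (nat_lit 0x90e0000000000000040) (nat_lit 1280) (nat_lit 0x7f0000000000000000000000000000000000000000000000b25))))⟩, ⟨(nat_lit 4), (nat_lit 22), (nb (nat_lit 0x58000000000000000000000000000000e44) (nat_lit 3648) (nb (nat_lit 0x262600000000000000000000000000000f72) (nat_lit 2496) (nb (nat_lit 0x24cd000000000000019e0000000000000297) (nat_lit 1216) (nat_lit 0xe0f0000000000000000000000000000041b0000000000001008)))), (nb (nat_lit 0x8cf00000000000000000000000000001080) (nat_lit 3712)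 (nb (nat_lit 0x1354000000000000000000000000000015d5) (nat_lit 2432) (nb (nat_lit 8145) (nat_lit 1408) (nb (nat_lit 2488) (nat_lit 128) (nat_lit 0)))))⟩, ⟨(nat_lit 8), (nat_lit 16), (nb (nat_lit 646) (nat_lit 3712) (nb (nat_lit 0x13fe00000000000000ff00000000000018c4) (nat_lit 2432) (nb (nat_lit 1504) (nat_lit 1408) (nb (nat_lit 1996) (nat_lit 128) (nat_lit 0))))), (nb (nat_lit 0x1b9000000000000047700000000000000000000000000000d84) (nat_lit 3648) (nb (nat_lit 1400) (nat_lit 2624) (nb (nat_lit 0x1bbf000000000000015e0000000000000b28) (nat_lit 1216) (nat_lit 0x61f000000000000000000000000000004f500000000000004e3))))⟩]⟩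
def e1021 : En := ⟨(nat_lit 54), (nat_lit 69648), (nat_lit 139418), (nat_lit 216), [⟨(nat_lit 0), (nat_lit 18), (nb (nat_lit 646) (nat_lit 3712) (nb (nat_lit 0x13fe00000000000000ff00000000000018c4) (nat_lit 2432) (nb (nat_lit 1504) (nat_lit 1408) (nb (nat_lit 1996) (nat_lit 128) (nat_lit 0))))), (nb (nat_lit 0x1b9000000000000047700000000000000000000000000000d84) (nat_lit 3648) (nb (nat_lit 1400) (nat_lit 2624) (nb (nat_lit 0x1bbf000000000000015e0000000000000b28) (nat_lit 1216) (nat_lit 0x61f000000000000000000000000000004f500000000000004e3))))⟩, ⟨(nat_lit 2), (nat_lit 12), (nb (nat_lit 0xa8800000000000000000000000000000dfa) (nat_lit 3712) (nb (nat_lit 0x19f1000000000000000000000000000000000000000000000891) (nat_lit 1216) (nb (nat_lit 0x1ec00000000000000da) (nat_lit 64) (nat_lit 0)))), (nb (nat_lit 0x109000000000000000000000000000000c0) (nat_lit 3648) (nb (nat_lit 0x20ae00000000000000aa000000000000107100000000000002ef) (nat_lit 2432) (nb (nat_lit 0x90e0000000000000040)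 (nat_lit 1280) (nat_lit 0x7f0000000000000000000000000000000000000000000000b25))))⟩, ⟨(nat_lit 6), (nat_lit 24), (nb (nat_lit 0x58000000000000000000000000000000e44) (nat_lit 3648) (nb (nat_lit 0x262600000000000000000000000000000f72) (nat_lit 2496) (nb (nat_lit 0x24cd000000000000019e0000000000000297) (nat_lit 1216) (nat_lit 0xe0f0000000000000000000000000000041b0000000000001008)))), (nb (nat_lit 0x8cf00000000000000000000000000001080) (nat_lit 3712) (nb (nat_lit 0x1354000000000000000000000000000015d5) (nat_lit 2432) (nb (nat_lit 8145) (nat_lit 1408) (nb (nat_lit 2488) (nat_lit 128) (nat_lit 0)))))⟩]⟩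
def e1022 : En := ⟨(nat_lit 56), (nat_lit 4353), (nat_lit 139418), (nat_lit 216), [⟨(nat_lit 2), (nat_lit 10), (nb (nat_lit 646) (nat_lit 3712) (nb (nat_lit 0x13fe00000000000000ff00000000000018c4) (nat_lit 2432) (nb (nat_lit 1504) (nat_lit 1408) (nb (nat_lit 1996) (nat_lit 128) (nat_lit 0))))), (nb (nat_lit 0x1b9000000000000047700000000000000000000000000000d84) (nat_lit 3648) (nb (nat_lit 1400) (nat_lit 2624) (nb (nat_lit 0x1bbf000000000000015e0000000000000b28) (nat_lit 1216) (nat_lit 0x61f000000000000000000000000000004f500000000000004e3))))⟩, ⟨(nat_lit 4), (nat_lit 14), (nb (nat_lit 0xa8800000000000000000000000000000dfa) (nat_lit 3712) (nb (nat_lit 0x19f1000000000000000000000000000000000000000000000891) (nat_lit 1216) (nb (nat_lit 0x1ec00000000000000da) (nat_lit 64) (nat_lit 0)))), (nb (nat_lit 0x109000000000000000000000000000000c0) (nat_lit 3648) (nb (nat_lit 0x20ae00000000000000aa000000000000107100000000000002ef) (nat_lit 2432) (nb (nat_lit 0x90e0000000000000040)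 (nat_lit 1280) (nat_lit 0x7f0000000000000000000000000000000000000000000000b25))))⟩, ⟨(nat_lit 8), (nat_lit 26), (nb (nat_lit 0x58000000000000000000000000000000e44) (nat_lit 3648) (nb (nat_lit 0x262600000000000000000000000000000f72) (nat_lit 2496) (nb (nat_lit 0x24cd000000000000019e0000000000000297) (nat_lit 1216) (nat_lit 0xe0f0000000000000000000000000000041b0000000000001008)))), (nb (nat_lit 0x8cf00000000000000000000000000001080) (nat_lit 3712) (nb (nat_lit 0x1354000000000000000000000000000015d5) (nat_lit 2432) (nb (nat_lit 8145) (nat_lit 1408) (nb (nat_lit 2488) (nat_lit 128) (nat_lit 0)))))⟩]⟩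
def e1023 : En := ⟨(nat_lit 58), (nat_lit 65808), (nat_lit 139418), (nat_lit 216), [⟨(nat_lit 0), (nat_lit 28), (nb (nat_lit 0x58000000000000000000000000000000e44) (nat_lit 3648) (nb (nat_lit 0x262600000000000000000000000000000f72) (nat_lit 2496) (nb (nat_lit 0x24cd000000000000019e0000000000000297) (nat_lit 1216) (nat_lit 0xe0f0000000000000000000000000000041b0000000000001008)))), (nb (nat_lit 0x8cf00000000000000000000000000001080) (nat_lit 3712) (nb (nat_lit 0x1354000000000000000000000000000015d5) (nat_lit 2432) (nb (nat_lit 8145) (nat_lit 1408) (nb (nat_lit 2488) (nat_lit 128) (nat_lit 0)))))⟩, ⟨(nat_lit 4), (nat_lit 12), (nb (nat_lit 646) (nat_lit 3712) (nb (nat_lit 0x13fe00000000000000ff00000000000018c4) (nat_lit 2432) (nb (nat_lit 1504) (nat_lit 1408) (nb (nat_lit 1996) (nat_lit 128) (nat_lit 0))))), (nb (nat_lit 0x1b9000000000000047700000000000000000000000000000d84) (nat_lit 3648) (nb (nat_lit 1400) (nat_lit 2624) (nb (nat_lit 0x1bbf000000000000015e0000000000000b28)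 (nat_lit 1216) (nat_lit 0x61f000000000000000000000000000004f500000000000004e3))))⟩, ⟨(nat_lit 6), (nat_lit 16), (nb (nat_lit 0xa8800000000000000000000000000000dfa) (nat_lit 3712) (nb (nat_lit 0x19f1000000000000000000000000000000000000000000000891) (nat_lit 1216) (nb (nat_lit 0x1ec00000000000000da) (nat_lit 64) (nat_lit 0)))), (nb (nat_lit 0x109000000000000000000000000000000c0) (nat_lit 3648) (nb (nat_lit 0x20ae00000000000000aa000000000000107100000000000002ef) (nat_lit 2432) (nb (nat_lit 0x90e0000000000000040) (nat_lit 1280) (nat_lit 0x7f0000000000000000000000000000000000000000000000b25))))⟩]⟩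
def e1024 : En := ⟨(nat_lit 10), (nat_lit 257), (nat_lit 65681), (nat_lit 216), [⟨(nat_lit 4), (nat_lit 8), (nb (nat_lit 0x58000000000000000000000000000000e44) (nat_lit 3648) (nb (nat_lit 0x262600000000000000000000000000000f72) (nat_lit 2496) (nb (nat_lit 0x24cd000000000000019e0000000000000297) (nat_lit 1216) (nat_lit 0xe0f0000000000000000000000000000041b0000000000001008)))), (nb (nat_lit 0x8cf00000000000000000000000000001080) (nat_lit 3712) (nb (nat_lit 0x1354000000000000000000000000000015d5) (nat_lit 2432) (nb (nat_lit 8145) (nat_lit 1408) (nb (nat_lit 2488) (nat_lit 128) (nat_lit 0)))))⟩]⟩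
def e1025 : En := ⟨(nat_lit 12), (nat_lit 65552), (nat_lit 65681), (nat_lit 216), [⟨(nat_lit 0), (nat_lit 6), (nb (nat_lit 0x8cf00000000000000000000000000001080) (nat_lit 3712) (nb (nat_lit 0x1354000000000000000000000000000015d5) (nat_lit 2432) (nb (nat_lit 8145) (nat_lit 1408) (nb (nat_lit 2488) (nat_lit 128) (nat_lit 0))))), (nb (nat_lit 0x58000000000000000000000000000000e44) (nat_lit 3648) (nb (nat_lit 0x262600000000000000000000000000000f72) (nat_lit 2496) (nb (nat_lit 0x24cd000000000000019e0000000000000297) (nat_lit 1216) (nat_lit 0xe0f0000000000000000000000000000041b0000000000001008))))⟩]⟩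
def e1026 : En := ⟨(nat_lit 14), (nat_lit 4097), (nat_lit 65681), (nat_lit 216), [⟨(nat_lit 2), (nat_lit 8), (nb (nat_lit 0x8cf00000000000000000000000000001080) (nat_lit 3712) (nb (nat_lit 0x1354000000000000000000000000000015d5) (nat_lit 2432) (nb (nat_lit 8145) (nat_lit 1408) (nb (nat_lit 2488) (nat_lit 128) (nat_lit 0))))), (nb (nat_lit 0x58000000000000000000000000000000e44) (nat_lit 3648) (nb (nat_lit 0x262600000000000000000000000000000f72) (nat_lit 2496) (nb (nat_lit 0x24cd000000000000019e0000000000000297) (nat_lit 1216) (nat_lit 0xe0f0000000000000000000000000000041b0000000000001008))))⟩]⟩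
def e1027 : En := ⟨(nat_lit 16), (nat_lit 65792), (nat_lit 65681), (nat_lit 216), [⟨(nat_lit 0), (nat_lit 4), (nb (nat_lit 0x58000000000000000000000000000000e44) (nat_lit 3648) (nb (nat_lit 0x262600000000000000000000000000000f72) (nat_lit 2496) (nb (nat_lit 0x24cd000000000000019e0000000000000297) (nat_lit 1216) (nat_lit 0xe0f0000000000000000000000000000041b0000000000001008)))), (nb (nat_lit 0x8cf00000000000000000000000000001080) (nat_lit 3712) (nb (nat_lit 0x1354000000000000000000000000000015d5) (nat_lit 2432) (nb (nat_lit 8145) (nat_lit 1408) (nb (nat_lit 2488) (nat_lit 128) (nat_lit 0)))))⟩]⟩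
def e1028 : En := ⟨(nat_lit 18), (nat_lit 4112), (nat_lit 65681), (nat_lit 216), [⟨(nat_lit 2), (nat_lit 6), (nb (nat_lit 0x58000000000000000000000000000000e44) (nat_lit 3648) (nb (nat_lit 0x262600000000000000000000000000000f72) (nat_lit 2496) (nb (nat_lit 0x24cd000000000000019e0000000000000297) (nat_lit 1216) (nat_lit 0xe0f0000000000000000000000000000041b0000000000001008)))), (nb (nat_lit 0x8cf00000000000000000000000000001080) (nat_lit 3712) (nb (nat_lit 0x1354000000000000000000000000000015d5) (nat_lit 2432) (nb (nat_lit 8145) (nat_lit 1408) (nb (nat_lit 2488) (nat_lit 128) (nat_lit 0)))))⟩]⟩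
def e1029 : En := ⟨(nat_lit 20), (nat_lit 17), (nat_lit 65681), (nat_lit 216), [⟨(nat_lit 6), (nat_lit 8), (nb (nat_lit 0x58000000000000000000000000000000e44) (nat_lit 3648) (nb (nat_lit 0x262600000000000000000000000000000f72) (nat_lit 2496) (nb (nat_lit 0x24cd000000000000019e0000000000000297) (nat_lit 1216) (nat_lit 0xe0f0000000000000000000000000000041b0000000000001008)))), (nb (nat_lit 0x8cf00000000000000000000000000001080) (nat_lit 3712) (nb (nat_lit 0x1354000000000000000000000000000015d5) (nat_lit 2432) (nb (nat_lit 8145) (nat_lit 1408) (nb (nat_lit 2488) (nat_lit 128) (nat_lit 0)))))⟩]⟩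
def e1030 : En := ⟨(nat_lit 22), (nat_lit 65537), (nat_lit 65681), (nat_lit 216), [⟨(nat_lit 0), (nat_lit 8), (nb (nat_lit 0x8cf00000000000000000000000000001080) (nat_lit 3712) (nb (nat_lit 0x1354000000000000000000000000000015d5) (nat_lit 2432) (nb (nat_lit 8145) (nat_lit 1408) (nb (nat_lit 2488) (nat_lit 128) (nat_lit 0))))), (nb (nat_lit 0x58000000000000000000000000000000e44) (nat_lit 3648) (nb (nat_lit 0x262600000000000000000000000000000f72) (nat_lit 2496) (nb (nat_lit 0x24cd000000000000019e0000000000000297) (nat_lit 1216) (nat_lit 0xe0f0000000000000000000000000000041b0000000000001008))))⟩]⟩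
def e1031 : En := ⟨(nat_lit 24), (nat_lit 69632), (nat_lit 65681), (nat_lit 216), [⟨(nat_lit 0), (nat_lit 2), (nb (nat_lit 0x58000000000000000000000000000000e44) (nat_lit 3648) (nb (nat_lit 0x262600000000000000000000000000000f72) (nat_lit 2496) (nb (nat_lit 0x24cd000000000000019e0000000000000297) (nat_lit 1216) (nat_lit 0xe0f0000000000000000000000000000041b0000000000001008)))), (nb (nat_lit 0x8cf00000000000000000000000000001080) (nat_lit 3712) (nb (nat_lit 0x1354000000000000000000000000000015d5) (nat_lit 2432) (nb (nat_lit 8145) (nat_lit 1408) (nb (nat_lit 2488) (nat_lit 128) (nat_lit 0)))))⟩]⟩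
def e1032 : En := ⟨(nat_lit 26), (nat_lit 4352), (nat_lit 65681), (nat_lit 216), [⟨(nat_lit 2), (nat_lit 4), (nb (nat_lit 0x58000000000000000000000000000000e44) (nat_lit 3648) (nb (nat_lit 0x262600000000000000000000000000000f72) (nat_lit 2496) (nb (nat_lit 0x24cd000000000000019e0000000000000297) (nat_lit 1216) (nat_lit 0xe0f0000000000000000000000000000041b0000000000001008)))), (nb (nat_lit 0x8cf00000000000000000000000000001080) (nat_lit 3712) (nb (nat_lit 0x1354000000000000000000000000000015d5) (nat_lit 2432) (nb (nat_lit 8145) (nat_lit 1408) (nb (nat_lit 2488) (nat_lit 128) (nat_lit 0)))))⟩]⟩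
def e1033 : En := ⟨(nat_lit 28), (nat_lit 272), (nat_lit 65681), (nat_lit 216), [⟨(nat_lit 4), (nat_lit 6), (nb (nat_lit 0x58000000000000000000000000000000e44) (nat_lit 3648) (nb (nat_lit 0x262600000000000000000000000000000f72) (nat_lit 2496) (nb (nat_lit 0x24cd000000000000019e0000000000000297) (nat_lit 1216) (nat_lit 0xe0f0000000000000000000000000000041b0000000000001008)))), (nb (nat_lit 0x8cf00000000000000000000000000001080) (nat_lit 3712) (nb (nat_lit 0x1354000000000000000000000000000015d5) (nat_lit 2432) (nb (nat_lit 8145) (nat_lit 1408) (nb (nat_lit 2488) (nat_lit 128) (nat_lit 0)))))⟩]⟩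
def e1034 : En := ⟨(nat_lit 71), (nat_lit 69905), (nat_lit 0x25534b), (nat_lit 216), [⟨(nat_lit 0), (nat_lit 60), (nb (nat_lit 0x58000000000000000000000000000000e44) (nat_lit 3648) (nb (nat_lit 0x262600000000000000000000000000000f72) (nat_lit 2496) (nb (nat_lit 0x24cd000000000000019e0000000000000297) (nat_lit 1216) (nat_lit 0xe0f0000000000000000000000000000041b0000000000001008)))), (nb (nat_lit 0x8cf00000000000000000000000000001080) (nat_lit 3712) (nb (nat_lit 0x1354000000000000000000000000000015d5) (nat_lit 2432) (nb (nat_lit 8145) (nat_lit 1408) (nb (nat_lit 2488) (nat_lit 128) (nat_lit 0)))))⟩, ⟨(nat_lit 2), (nat_lit 62), (nb (nat_lit 0x58000000000000000000000000000000e44) (nat_lit 3648) (nb (nat_lit 0x262600000000000000000000000000000f72) (nat_lit 2496) (nb (nat_lit 0x24cd000000000000019e0000000000000297) (nat_lit 1216) (nat_lit 0xe0f0000000000000000000000000000041b0000000000001008)))), (nb (nat_lit 0x8cf00000000000000000000000000001080) (nat_lit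 3712) (nb (nat_lit 0x1354000000000000000000000000000015d5) (nat_lit 2432) (nb (nat_lit 8145) (nat_lit 1408) (nb (nat_lit 2488) (nat_lit 128) (nat_lit 0)))))⟩, ⟨(nat_lit 4), (nat_lit 64), (nb (nat_lit 0x58000000000000000000000000000000e44) (nat_lit 3648) (nb (nat_lit 0x262600000000000000000000000000000f72) (nat_lit 2496) (nb (nat_lit 0x24cd000000000000019e0000000000000297) (nat_lit 1216) (nat_lit 0xe0f0000000000000000000000000000041b0000000000001008)))), (nb (nat_lit 0x8cf00000000000000000000000000001080) (nat_lit 3712) (nb (nat_lit 0x1354000000000000000000000000000015d5) (nat_lit 2432) (nb (nat_lit 8145) (nat_lit 1408) (nb (nat_lit 2488) (nat_lit 128) (nat_lit 0)))))⟩, ⟨(nat_lit 6), (nat_lit 66), (nb (nat_lit 0x58000000000000000000000000000000e44) (nat_lit 3648) (nb (nat_lit 0x262600000000000000000000000000000f72) (nat_lit 2496) (nb (nat_lit 0x24cd000000000000019e0000000000000297) (nat_lit 1216) (nat_lit 0xe0f0000000000000000000000000000041b0000000000001008)))),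 (nb (nat_lit 0x8cf00000000000000000000000000001080) (nat_lit 3712) (nb (nat_lit 0x1354000000000000000000000000000015d5) (nat_lit 2432) (nb (nat_lit 8145) (nat_lit 1408) (nb (nat_lit 2488) (nat_lit 128) (nat_lit 0)))))⟩, ⟨(nat_lit 8), (nat_lit 68), (nb (nat_lit 0x58000000000000000000000000000000e44) (nat_lit 3648) (nb (nat_lit 0x262600000000000000000000000000000f72) (nat_lit 2496) (nb (nat_lit 0x24cd000000000000019e0000000000000297) (nat_lit 1216) (nat_lit 0xe0f0000000000000000000000000000041b0000000000001008)))), (nb (nat_lit 0x8cf00000000000000000000000000001080) (nat_lit 3712) (nb (nat_lit 0x1354000000000000000000000000000015d5) (nat_lit 2432) (nb (nat_lit 8145) (nat_lit 1408) (nb (nat_lit 2488) (nat_lit 128) (nat_lit 0)))))⟩, ⟨(nat_lit 10), (nat_lit 54), (nb (nat_lit 0x3d7e000000000000cf050000000000002cea000000000000db77) (nat_lit 2432) (nb (nat_lit 8661) (nat_lit 1280) (nb (nat_lit 8366) (nat_lit 128) (nat_lit 0)))), (nb (nat_lit 0x3d8500000000000041f8000000000000183e0000000000008bcb)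 (nat_lit 3648) (nb (nat_lit 0x85c000000000000c23200000000000000000000000000005278) (nat_lit 1216) (nat_lit 0x3a76000000000000000000000000000045ae00000000000027ee)))⟩, ⟨(nat_lit 12), (nat_lit 56), (nb (nat_lit 0x3d7e000000000000cf050000000000002cea000000000000db77) (nat_lit 2432) (nb (nat_lit 8661) (nat_lit 1280) (nb (nat_lit 8366) (nat_lit 128) (nat_lit 0)))), (nb (nat_lit 0x3d8500000000000041f8000000000000183e0000000000008bcb) (nat_lit 3648) (nb (nat_lit 0x85c000000000000c23200000000000000000000000000005278) (nat_lit 1216) (nat_lit 0x3a76000000000000000000000000000045ae00000000000027ee)))⟩, ⟨(nat_lit 14), (nat_lit 58), (nb (nat_lit 0x3d7e000000000000cf050000000000002cea000000000000db77) (nat_lit 2432) (nb (nat_lit 8661) (nat_lit 1280) (nb (nat_lit 8366) (nat_lit 128) (nat_lit 0)))), (nb (nat_lit 0x3d8500000000000041f8000000000000183e0000000000008bcb) (nat_lit 3648) (nb (nat_lit 0x85c000000000000c23200000000000000000000000000005278) (nat_lit 1216)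 (nat_lit 0x3a76000000000000000000000000000045ae00000000000027ee)))⟩, ⟨(nat_lit 16), (nat_lit 50), (nb (nat_lit 0x3d7e000000000000cf050000000000002cea000000000000db77) (nat_lit 2432) (nb (nat_lit 8661) (nat_lit 1280) (nb (nat_lit 8366) (nat_lit 128) (nat_lit 0)))), (nb (nat_lit 0x3d8500000000000041f8000000000000183e0000000000008bcb) (nat_lit 3648) (nb (nat_lit 0x85c000000000000c23200000000000000000000000000005278) (nat_lit 1216) (nat_lit 0x3a76000000000000000000000000000045ae00000000000027ee)))⟩, ⟨(nat_lit 18), (nat_lit 52), (nb (nat_lit 0x3d7e000000000000cf050000000000002cea000000000000db77) (nat_lit 2432) (nb (nat_lit 8661) (nat_lit 1280) (nb (nat_lit 8366) (nat_lit 128) (nat_lit 0)))), (nb (nat_lit 0x3d8500000000000041f8000000000000183e0000000000008bcb) (nat_lit 3648) (nb (nat_lit 0x85c000000000000c23200000000000000000000000000005278) (nat_lit 1216) (nat_lit 0x3a76000000000000000000000000000045ae00000000000027ee)))⟩, ⟨(nat_lit 20), (nat_lit 46),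 (nb (nat_lit 0xf700000000000000000000000000000164b) (nat_lit 3712) (nb (nat_lit 0x123a00000000000000000000000000000ae9) (nat_lit 2432) (nb (nat_lit 0x2e54000000000000000000000000000003130000000000000d06) (nat_lit 1216) (nb (nat_lit 1005) (nat_lit 128) (nat_lit 0))))), (nb (nat_lit 0x8b100000000000000000000000000000d2a) (nat_lit 3648) (nb (nat_lit 0x35c30000000000000000000000000000186e) (nat_lit 2496) (nb (nat_lit 7724) (nat_lit 1344) (nat_lit 0x12c0000000000000000000000000000003450000000000001904))))⟩, ⟨(nat_lit 22), (nat_lit 48), (nb (nat_lit 0xf700000000000000000000000000000164b) (nat_lit 3712) (nb (nat_lit 0x123a00000000000000000000000000000ae9) (nat_lit 2432) (nb (nat_lit 0x2e54000000000000000000000000000003130000000000000d06) (nat_lit 1216) (nb (nat_lit 1005) (nat_lit 128) (nat_lit 0))))), (nb (nat_lit 0x8b100000000000000000000000000000d2a) (nat_lit 3648) (nb (nat_lit 0x35c30000000000000000000000000000186e) (nat_lit 2496) (nb (nat_lit 7724) (nat_lit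 1344) (nat_lit 0x12c0000000000000000000000000000003450000000000001904))))⟩, ⟨(nat_lit 24), (nat_lit 40), (nb (nat_lit 0xf700000000000000000000000000000164b) (nat_lit 3712) (nb (nat_lit 0x123a00000000000000000000000000000ae9) (nat_lit 2432) (nb (nat_lit 0x2e54000000000000000000000000000003130000000000000d06) (nat_lit 1216) (nb (nat_lit 1005) (nat_lit 128) (nat_lit 0))))), (nb (nat_lit 0x8b100000000000000000000000000000d2a) (nat_lit 3648) (nb (nat_lit 0x35c30000000000000000000000000000186e) (nat_lit 2496) (nb (nat_lit 7724) (nat_lit 1344) (nat_lit 0x12c0000000000000000000000000000003450000000000001904))))⟩, ⟨(nat_lit 26), (nat_lit 42), (nb (nat_lit 0xf700000000000000000000000000000164b) (nat_lit 3712) (nb (nat_lit 0x123a00000000000000000000000000000ae9) (nat_lit 2432) (nb (nat_lit 0x2e54000000000000000000000000000003130000000000000d06) (nat_lit 1216) (nb (nat_lit 1005) (nat_lit 128) (nat_lit 0))))), (nb (nat_lit 0x8b100000000000000000000000000000d2a)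 (nat_lit 3648) (nb (nat_lit 0x35c30000000000000000000000000000186e) (nat_lit 2496) (nb (nat_lit 7724) (nat_lit 1344) (nat_lit 0x12c0000000000000000000000000000003450000000000001904))))⟩, ⟨(nat_lit 28), (nat_lit 44), (nb (nat_lit 0xf700000000000000000000000000000164b) (nat_lit 3712) (nb (nat_lit 0x123a00000000000000000000000000000ae9) (nat_lit 2432) (nb (nat_lit 0x2e54000000000000000000000000000003130000000000000d06) (nat_lit 1216) (nb (nat_lit 1005) (nat_lit 128) (nat_lit 0))))), (nb (nat_lit 0x8b100000000000000000000000000000d2a) (nat_lit 3648) (nb (nat_lit 0x35c30000000000000000000000000000186e) (nat_lit 2496) (nb (nat_lit 7724) (nat_lit 1344) (nat_lit 0x12c0000000000000000000000000000003450000000000001904))))⟩]⟩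
def e1035 : En := ⟨(nat_lit 60), (nat_lit 4369), (nat_lit 174362), (nat_lit 8), [⟨(nat_lit 2), (nat_lit 40), (nat_lit 0x149700000000000000000000000000001a890000000000000000), (nat_lit 0x166500000000000000000000000000000989)⟩, ⟨(nat_lit 4), (nat_lit 50), (nat_lit 0x38a90000000000000424000000000000207b0000000000002765), (nat_lit 0)⟩, ⟨(nat_lit 6), (nat_lit 56), (nat_lit 0x207b00000000000000000000000000001c57), (nat_lit 0x6ea0000000000000000000000000000182e0000000000000000)⟩, ⟨(nat_lit 8), (nat_lit 48), (nat_lit 0xcdc0000000000000000), (nat_lit 0x9890000000000001e2000000000000000000000000000002412)⟩, ⟨(nat_lit 10), (nat_lit 18), (nat_lit 0x1665000000000000107300000000000003970000000000001e20), (nat_lit 0)⟩, ⟨(nat_lit 14), (nat_lit 28), (nat_lit 0x27650000000000000000000000000000234100000000000006ea), (nat_lit 0x114400000000000000000000000000000000)⟩, ⟨(nat_lit 20), (nat_lit 26), (nat_lit 0x24120000000000001a8900000000000005f200000000000030ee), (nat_lit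 0)⟩]⟩
def e1036 : En := ⟨(nat_lit 62), (nat_lit 65809), (nat_lit 174362), (nat_lit 8), [⟨(nat_lit 0), (nat_lit 40), (nat_lit 0xcdc0000000000000000), (nat_lit 0x9890000000000001e2000000000000000000000000000002412)⟩, ⟨(nat_lit 4), (nat_lit 42), (nat_lit 0x149700000000000000000000000000001a890000000000000000), (nat_lit 0x166500000000000000000000000000000989)⟩, ⟨(nat_lit 6), (nat_lit 52), (nat_lit 0x38a90000000000000424000000000000207b0000000000002765), (nat_lit 0)⟩, ⟨(nat_lit 8), (nat_lit 58), (nat_lit 0x207b00000000000000000000000000001c57), (nat_lit 0x6ea0000000000000000000000000000182e0000000000000000)⟩, ⟨(nat_lit 10), (nat_lit 12), (nat_lit 0), (nat_lit 0x1665000000000000107300000000000003970000000000001e20)⟩, ⟨(nat_lit 16), (nat_lit 20), (nat_lit 0x27650000000000000000000000000000234100000000000006ea), (nat_lit 0x114400000000000000000000000000000000)⟩, ⟨(nat_lit 22), (nat_lit 28), (nat_lit 0x24120000000000001a8900000000000005f200000000000030ee),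 (nat_lit 0)⟩]⟩
def e1037 : En := ⟨(nat_lit 64), (nat_lit 69649), (nat_lit 174362), (nat_lit 8), [⟨(nat_lit 0), (nat_lit 50), (nat_lit 0x207b00000000000000000000000000001c57), (nat_lit 0x6ea0000000000000000000000000000182e0000000000000000)⟩, ⟨(nat_lit 2), (nat_lit 42), (nat_lit 0xcdc0000000000000000), (nat_lit 0x9890000000000001e2000000000000000000000000000002412)⟩, ⟨(nat_lit 6), (nat_lit 44), (nat_lit 0x149700000000000000000000000000001a890000000000000000), (nat_lit 0x166500000000000000000000000000000989)⟩, ⟨(nat_lit 8), (nat_lit 54), (nat_lit 0x38a90000000000000424000000000000207b0000000000002765), (nat_lit 0)⟩, ⟨(nat_lit 12), (nat_lit 14), (nat_lit 0), (nat_lit 0x1665000000000000107300000000000003970000000000001e20)⟩, ⟨(nat_lit 18), (nat_lit 22), (nat_lit 0x27650000000000000000000000000000234100000000000006ea), (nat_lit 0x114400000000000000000000000000000000)⟩, ⟨(nat_lit 20), (nat_lit 24), (nat_lit 0), (nat_lit 0x24120000000000001a8900000000000005f200000000000030ee)⟩]⟩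
def e1038 : En := ⟨(nat_lit 66), (nat_lit 69889), (nat_lit 174362), (nat_lit 8), [⟨(nat_lit 0), (nat_lit 56), (nat_lit 0x38a90000000000000424000000000000207b0000000000002765), (nat_lit 0)⟩, ⟨(nat_lit 2), (nat_lit 52), (nat_lit 0x207b00000000000000000000000000001c57), (nat_lit 0x6ea0000000000000000000000000000182e0000000000000000)⟩, ⟨(nat_lit 4), (nat_lit 44), (nat_lit 0xcdc0000000000000000), (nat_lit 0x9890000000000001e2000000000000000000000000000002412)⟩, ⟨(nat_lit 8), (nat_lit 46), (nat_lit 0x149700000000000000000000000000001a890000000000000000), (nat_lit 0x166500000000000000000000000000000989)⟩, ⟨(nat_lit 10), (nat_lit 24), (nat_lit 0x27650000000000000000000000000000234100000000000006ea), (nat_lit 0x114400000000000000000000000000000000)⟩, ⟨(nat_lit 14), (nat_lit 16), (nat_lit 0), (nat_lit 0x1665000000000000107300000000000003970000000000001e20)⟩, ⟨(nat_lit 22), (nat_lit 26), (nat_lit 0), (nat_lit 0x24120000000000001a8900000000000005f200000000000030ee)⟩]⟩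
def e1039 : En := ⟨(nat_lit 68), (nat_lit 69904), (nat_lit 174362), (nat_lit 8), [⟨(nat_lit 0), (nat_lit 48), (nat_lit 0x149700000000000000000000000000001a890000000000000000), (nat_lit 0x166500000000000000000000000000000989)⟩, ⟨(nat_lit 2), (nat_lit 58), (nat_lit 0x38a90000000000000424000000000000207b0000000000002765), (nat_lit 0)⟩, ⟨(nat_lit 4), (nat_lit 54), (nat_lit 0x207b00000000000000000000000000001c57), (nat_lit 0x6ea0000000000000000000000000000182e0000000000000000)⟩, ⟨(nat_lit 6), (nat_lit 46), (nat_lit 0xcdc0000000000000000), (nat_lit 0x9890000000000001e2000000000000000000000000000002412)⟩, ⟨(nat_lit 12), (nat_lit 26), (nat_lit 0x27650000000000000000000000000000234100000000000006ea), (nat_lit 0x114400000000000000000000000000000000)⟩, ⟨(nat_lit 16), (nat_lit 18), (nat_lit 0), (nat_lit 0x1665000000000000107300000000000003970000000000001e20)⟩, ⟨(nat_lit 24), (nat_lit 28), (nat_lit 0), (nat_lit 0x24120000000000001a8900000000000005f200000000000030ee)⟩]⟩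
def e1040 : En := ⟨(nat_lit 40), (nat_lit 273), (nat_lit 49598), (nat_lit 8), [⟨(nat_lit 4), (nat_lit 20), (nat_lit 0), (nat_lit 0x1e2000000000000007bb0000000000000dad0000000000001a89)⟩, ⟨(nat_lit 6), (nat_lit 10), (nat_lit 0xb1300000000000000000000000000000000), (nat_lit 0x182e000000000000000000000000000015680000000000000424)⟩, ⟨(nat_lit 8), (nat_lit 28), (nat_lit 0x5f200000000000012ce00000000000000000000000000001665), (nat_lit 0x7bb0000000000000000)⟩]⟩
def e1041 : En := ⟨(nat_lit 42), (nat_lit 65553), (nat_lit 49598), (nat_lit 8), [⟨(nat_lit 0), (nat_lit 20), (nat_lit 0x5f200000000000012ce00000000000000000000000000001665), (nat_lit 0x7bb0000000000000000)⟩, ⟨(nat_lit 6), (nat_lit 22), (nat_lit 0), (nat_lit 0x1e2000000000000007bb0000000000000dad0000000000001a89)⟩, ⟨(nat_lit 8), (nat_lit 12), (nat_lit 0xb1300000000000000000000000000000000), (nat_lit 0x182e000000000000000000000000000015680000000000000424)⟩]⟩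
def e1042 : En := ⟨(nat_lit 44), (nat_lit 69633), (nat_lit 49598), (nat_lit 8), [⟨(nat_lit 0), (nat_lit 14), (nat_lit 0xb1300000000000000000000000000000000), (nat_lit 0x182e000000000000000000000000000015680000000000000424)⟩, ⟨(nat_lit 2), (nat_lit 22), (nat_lit 0x5f200000000000012ce00000000000000000000000000001665), (nat_lit 0x7bb0000000000000000)⟩, ⟨(nat_lit 8), (nat_lit 24), (nat_lit 0), (nat_lit 0x1e2000000000000007bb0000000000000dad0000000000001a89)⟩]⟩
def e1043 : En := ⟨(nat_lit 46), (nat_lit 69888), (nat_lit 49598), (nat_lit 8), [⟨(nat_lit 0), (nat_lit 26), (nat_lit 0), (nat_lit 0x1e2000000000000007bb0000000000000dad0000000000001a89)⟩, ⟨(nat_lit 2), (nat_lit 16), (nat_lit 0xb1300000000000000000000000000000000), (nat_lit 0x182e000000000000000000000000000015680000000000000424)⟩, ⟨(nat_lit 4), (nat_lit 24), (nat_lit 0x5f200000000000012ce00000000000000000000000000001665), (nat_lit 0x7bb0000000000000000)⟩]⟩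
def e1044 : En := ⟨(nat_lit 48), (nat_lit 4368), (nat_lit 49598), (nat_lit 8), [⟨(nat_lit 2), (nat_lit 28), (nat_lit 0), (nat_lit 0x1e2000000000000007bb0000000000000dad0000000000001a89)⟩, ⟨(nat_lit 4), (nat_lit 18), (nat_lit 0xb1300000000000000000000000000000000), (nat_lit 0x182e000000000000000000000000000015680000000000000424)⟩, ⟨(nat_lit 6), (nat_lit 26), (nat_lit 0x5f200000000000012ce00000000000000000000000000001665), (nat_lit 0x7bb0000000000000000)⟩]⟩
def e1045 : En := ⟨(nat_lit 50), (nat_lit 4113), (nat_lit 39970), (nat_lit 8), [⟨(nat_lit 2), (nat_lit 20), (nat_lit 0), (nat_lit 0x1e2000000000000007bb0000000000000dad0000000000001a89)⟩, ⟨(nat_lit 6), (nat_lit 14), (nat_lit 0xf9d000000000000011a00000000000008fc0000000000000aec), (nat_lit 0)⟩, ⟨(nat_lit 8), (nat_lit 18), (nat_lit 0xe8300000000000006a100000000000004b10000000000000f9d), (nat_lit 0)⟩]⟩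
def e1046 : En := ⟨(nat_lit 52), (nat_lit 65793), (nat_lit 39970), (nat_lit 8), [⟨(nat_lit 0), (nat_lit 10), (nat_lit 0xe8300000000000006a100000000000004b10000000000000f9d), (nat_lit 0)⟩, ⟨(nat_lit 4), (nat_lit 22), (nat_lit 0), (nat_lit 0x1e2000000000000007bb0000000000000dad0000000000001a89)⟩, ⟨(nat_lit 8), (nat_lit 16), (nat_lit 0xf9d000000000000011a00000000000008fc0000000000000aec), (nat_lit 0)⟩]⟩
def e1047 : En := ⟨(nat_lit 54), (nat_lit 69648), (nat_lit 39970), (nat_lit 8), [⟨(nat_lit 0), (nat_lit 18), (nat_lit 0xf9d000000000000011a00000000000008fc0000000000000aec), (nat_lit 0)⟩, ⟨(nat_lit 2), (nat_lit 12), (nat_lit 0xe8300000000000006a100000000000004b10000000000000f9d), (nat_lit 0)⟩, ⟨(nat_lit 6), (nat_lit 24), (nat_lit 0), (nat_lit 0x1e2000000000000007bb0000000000000dad0000000000001a89)⟩]⟩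
def e1048 : En := ⟨(nat_lit 56), (nat_lit 4353), (nat_lit 39970), (nat_lit 8), [⟨(nat_lit 2), (nat_lit 10), (nat_lit 0xf9d000000000000011a00000000000008fc0000000000000aec), (nat_lit 0)⟩, ⟨(nat_lit 4), (nat_lit 14), (nat_lit 0xe8300000000000006a100000000000004b10000000000000f9d), (nat_lit 0)⟩, ⟨(nat_lit 8), (nat_lit 26), (nat_lit 0), (nat_lit 0x1e2000000000000007bb0000000000000dad0000000000001a89)⟩]⟩
def e1049 : En := ⟨(nat_lit 58), (nat_lit 65808), (nat_lit 39970), (nat_lit 8), [⟨(nat_lit 0), (nat_lit 28), (nat_lit 0), (nat_lit 0x1e2000000000000007bb0000000000000dad0000000000001a89)⟩, ⟨(nat_lit 4), (nat_lit 12), (nat_lit 0xf9d000000000000011a00000000000008fc0000000000000aec), (nat_lit 0)⟩, ⟨(nat_lit 6), (nat_lit 16), (nat_lit 0xe8300000000000006a100000000000004b10000000000000f9d), (nat_lit 0)⟩]⟩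
def e1050 : En := ⟨(nat_lit 10), (nat_lit 257), (nat_lit 19985), (nat_lit 8), [⟨(nat_lit 4), (nat_lit 8), (nat_lit 0), (nat_lit 0x1e2000000000000007bb0000000000000dad0000000000001a89)⟩]⟩
def e1051 : En := ⟨(nat_lit 12), (nat_lit 65552), (nat_lit 19985), (nat_lit 8), [⟨(nat_lit 0), (nat_lit 6), (nat_lit 0x1e2000000000000007bb0000000000000dad0000000000001a89), (nat_lit 0)⟩]⟩
def e1052 : En := ⟨(nat_lit 14), (nat_lit 4097), (nat_lit 19985), (nat_lit 8), [⟨(nat_lit 2), (nat_lit 8), (nat_lit 0x1e2000000000000007bb0000000000000dad0000000000001a89), (nat_lit 0)⟩]⟩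
def e1053 : En := ⟨(nat_lit 16), (nat_lit 65792), (nat_lit 19985), (nat_lit 8), [⟨(nat_lit 0), (nat_lit 4), (nat_lit 0), (nat_lit 0x1e2000000000000007bb0000000000000dad0000000000001a89)⟩]⟩
def e1054 : En := ⟨(nat_lit 18), (nat_lit 4112), (nat_lit 19985), (nat_lit 8), [⟨(nat_lit 2), (nat_lit 6), (nat_lit 0), (nat_lit 0x1e2000000000000007bb0000000000000dad0000000000001a89)⟩]⟩
def e1055 : En := ⟨(nat_lit 20), (nat_lit 17), (nat_lit 19985), (nat_lit 8), [⟨(nat_lit 6), (nat_lit 8), (nat_lit 0), (nat_lit 0x1e2000000000000007bb0000000000000dad0000000000001a89)⟩]⟩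
def e1056 : En := ⟨(nat_lit 22), (nat_lit 65537), (nat_lit 19985), (nat_lit 8), [⟨(nat_lit 0), (nat_lit 8), (nat_lit 0x1e2000000000000007bb0000000000000dad0000000000001a89), (nat_lit 0)⟩]⟩
def e1057 : En := ⟨(nat_lit 24), (nat_lit 69632), (nat_lit 19985), (nat_lit 8), [⟨(nat_lit 0), (nat_lit 2), (nat_lit 0), (nat_lit 0x1e2000000000000007bb0000000000000dad0000000000001a89)⟩]⟩
def e1058 : En := ⟨(nat_lit 26), (nat_lit 4352), (nat_lit 19985), (nat_lit 8), [⟨(nat_lit 2), (nat_lit 4), (nat_lit 0), (nat_lit 0x1e2000000000000007bb0000000000000dad0000000000001a89)⟩]⟩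
def e1059 : En := ⟨(nat_lit 28), (nat_lit 272), (nat_lit 19985), (nat_lit 8), [⟨(nat_lit 4), (nat_lit 6), (nat_lit 0), (nat_lit 0x1e2000000000000007bb0000000000000dad0000000000001a89)⟩]⟩
def e1060 : En := ⟨(nat_lit 71), (nat_lit 69905), (nat_lit 404175), (nat_lit 8), [⟨(nat_lit 0), (nat_lit 60), (nat_lit 0), (nat_lit 0x1e2000000000000007bb0000000000000dad0000000000001a89)⟩, ⟨(nat_lit 2), (nat_lit 62), (nat_lit 0), (nat_lit 0x1e2000000000000007bb0000000000000dad0000000000001a89)⟩, ⟨(nat_lit 4), (nat_lit 64), (nat_lit 0), (nat_lit 0x1e2000000000000007bb0000000000000dad0000000000001a89)⟩, ⟨(nat_lit 6), (nat_lit 66), (nat_lit 0), (nat_lit 0x1e2000000000000007bb0000000000000dad0000000000001a89)⟩, ⟨(nat_lit 8), (nat_lit 68), (nat_lit 0), (nat_lit 0x1e2000000000000007bb0000000000000dad0000000000001a89)⟩, ⟨(nat_lit 10), (nat_lit 54), (nat_lit 0x3f93000000000000000000000000000038a90000000000000b0e), (nat_lit 0x1c5700000000000000000000000000000000)⟩, ⟨(nat_lit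 12), (nat_lit 56), (nat_lit 0x3f93000000000000000000000000000038a90000000000000b0e), (nat_lit 0x1c5700000000000000000000000000000000)⟩, ⟨(nat_lit 14), (nat_lit 58), (nat_lit 0x3f93000000000000000000000000000038a90000000000000b0e), (nat_lit 0x1c5700000000000000000000000000000000)⟩, ⟨(nat_lit 16), (nat_lit 50), (nat_lit 0x3f93000000000000000000000000000038a90000000000000b0e), (nat_lit 0x1c5700000000000000000000000000000000)⟩, ⟨(nat_lit 18), (nat_lit 52), (nat_lit 0x3f93000000000000000000000000000038a90000000000000b0e), (nat_lit 0x1c5700000000000000000000000000000000)⟩, ⟨(nat_lit 20), (nat_lit 46), (nat_lit 0x1e2000000000000007bb0000000000000dad0000000000001a89), (nat_lit 0)⟩, ⟨(nat_lit 22), (nat_lit 48), (nat_lit 0x1e2000000000000007bb0000000000000dad0000000000001a89), (nat_lit 0)⟩, ⟨(nat_lit 24), (nat_lit 40), (nat_lit 0x1e2000000000000007bb0000000000000dad0000000000001a89), (nat_lit 0)⟩, ⟨(nat_lit 26), (nat_lit 42), (nat_lit 0x1e2000000000000007bb0000000000000dad0000000000001a89),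 (nat_lit 0)⟩, ⟨(nat_lit 28), (nat_lit 44), (nat_lit 0x1e2000000000000007bb0000000000000dad0000000000001a89), (nat_lit 0)⟩]⟩
def e1061 : En := ⟨(nat_lit 60), (nat_lit 4369), (nat_lit 6125), (nat_lit 8), [⟨(nat_lit 2), (nat_lit 40), (nat_lit 0), (nat_lit 0xfa000000000000017700000000000000fa0000000000000000)⟩, ⟨(nat_lit 4), (nat_lit 50), (nat_lit 0x7d00000000000000fa), (nat_lit 0xfa000000000000007d00000000000000000000000000000000)⟩, ⟨(nat_lit 6), (nat_lit 56), (nat_lit 0xfa00000000000001f40000000000000177000000000000007d), (nat_lit 0)⟩, ⟨(nat_lit 8), (nat_lit 48), (nat_lit 0), (nat_lit 0x7d00000000000001770000000000000177000000000000007d)⟩, ⟨(nat_lit 10), (nat_lit 18), (nat_lit 0x7d00000000000000fa000000000000007d), (nat_lit 0)⟩, ⟨(nat_lit 14), (nat_lit 28), (nat_lit 125), (nat_lit 0xfa0000000000000177000000000000007d0000000000000000)⟩, ⟨(nat_lit 20), (nat_lit 26), (nat_lit 0xfa000000000000017700000000000000fa), (nat_lit 0)⟩]⟩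
def e1062 : En := ⟨(nat_lit 62), (nat_lit 65809), (nat_lit 6125), (nat_lit 8), [⟨(nat_lit 0), (nat_lit 40), (nat_lit 0), (nat_lit 0x7d00000000000001770000000000000177000000000000007d)⟩, ⟨(nat_lit 4), (nat_lit 42), (nat_lit 0), (nat_lit 0xfa000000000000017700000000000000fa0000000000000000)⟩, ⟨(nat_lit 6), (nat_lit 52), (nat_lit 0x7d00000000000000fa), (nat_lit 0xfa000000000000007d00000000000000000000000000000000)⟩, ⟨(nat_lit 8), (nat_lit 58), (nat_lit 0xfa00000000000001f40000000000000177000000000000007d), (nat_lit 0)⟩, ⟨(nat_lit 10), (nat_lit 12), (nat_lit 0), (nat_lit 0x7d00000000000000fa000000000000007d)⟩, ⟨(nat_lit 16), (nat_lit 20), (nat_lit 125), (nat_lit 0xfa0000000000000177000000000000007d0000000000000000)⟩, ⟨(nat_lit 22), (nat_lit 28), (nat_lit 0xfa000000000000017700000000000000fa), (nat_lit 0)⟩]⟩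
def e1063 : En := ⟨(nat_lit 64), (nat_lit 69649), (nat_lit 6125), (nat_lit 8), [⟨(nat_lit 0), (nat_lit 50), (nat_lit 0xfa00000000000001f40000000000000177000000000000007d), (nat_lit 0)⟩, ⟨(nat_lit 2), (nat_lit 42), (nat_lit 0), (nat_lit 0x7d00000000000001770000000000000177000000000000007d)⟩, ⟨(nat_lit 6), (nat_lit 44), (nat_lit 0), (nat_lit 0xfa000000000000017700000000000000fa0000000000000000)⟩, ⟨(nat_lit 8), (nat_lit 54), (nat_lit 0x7d00000000000000fa), (nat_lit 0xfa000000000000007d00000000000000000000000000000000)⟩, ⟨(nat_lit 12), (nat_lit 14), (nat_lit 0), (nat_lit 0x7d00000000000000fa000000000000007d)⟩, ⟨(nat_lit 18), (nat_lit 22), (nat_lit 125), (nat_lit 0xfa0000000000000177000000000000007d0000000000000000)⟩, ⟨(nat_lit 20), (nat_lit 24), (nat_lit 0), (nat_lit 0xfa000000000000017700000000000000fa)⟩]⟩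
def e1064 : En := ⟨(nat_lit 66), (nat_lit 69889), (nat_lit 6125), (nat_lit 8), [⟨(nat_lit 0), (nat_lit 56), (nat_lit 0x7d00000000000000fa), (nat_lit 0xfa000000000000007d00000000000000000000000000000000)⟩, ⟨(nat_lit 2), (nat_lit 52), (nat_lit 0xfa00000000000001f40000000000000177000000000000007d), (nat_lit 0)⟩, ⟨(nat_lit 4), (nat_lit 44), (nat_lit 0), (nat_lit 0x7d00000000000001770000000000000177000000000000007d)⟩, ⟨(nat_lit 8), (nat_lit 46), (nat_lit 0), (nat_lit 0xfa000000000000017700000000000000fa0000000000000000)⟩, ⟨(nat_lit 10), (nat_lit 24), (nat_lit 125), (nat_lit 0xfa0000000000000177000000000000007d0000000000000000)⟩, ⟨(nat_lit 14), (nat_lit 16), (nat_lit 0), (nat_lit 0x7d00000000000000fa000000000000007d)⟩, ⟨(nat_lit 22), (nat_lit 26), (nat_lit 0), (nat_lit 0xfa000000000000017700000000000000fa)⟩]⟩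
def e1065 : En := ⟨(nat_lit 68), (nat_lit 69904), (nat_lit 6125), (nat_lit 8), [⟨(nat_lit 0), (nat_lit 48), (nat_lit 0), (nat_lit 0xfa000000000000017700000000000000fa0000000000000000)⟩, ⟨(nat_lit 2), (nat_lit 58), (nat_lit 0x7d00000000000000fa), (nat_lit 0xfa000000000000007d00000000000000000000000000000000)⟩, ⟨(nat_lit 4), (nat_lit 54), (nat_lit 0xfa00000000000001f40000000000000177000000000000007d), (nat_lit 0)⟩, ⟨(nat_lit 6), (nat_lit 46), (nat_lit 0), (nat_lit 0x7d00000000000001770000000000000177000000000000007d)⟩, ⟨(nat_lit 12), (nat_lit 26), (nat_lit 125), (nat_lit 0xfa0000000000000177000000000000007d0000000000000000)⟩, ⟨(nat_lit 16), (nat_lit 18), (nat_lit 0), (nat_lit 0x7d00000000000000fa000000000000007d)⟩, ⟨(nat_lit 24), (nat_lit 28), (nat_lit 0), (nat_lit 0xfa000000000000017700000000000000fa)⟩]⟩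
def e1066 : En := ⟨(nat_lit 40), (nat_lit 273), (nat_lit 1750), (nat_lit 8), [⟨(nat_lit 4), (nat_lit 20), (nat_lit 0x7d000000000000000000000000000000000000000000000000), (nat_lit 0x7d000000000000007d)⟩, ⟨(nat_lit 6), (nat_lit 10), (nat_lit 0xfa00000000000000fa000000000000007d0000000000000000), (nat_lit 0)⟩, ⟨(nat_lit 8), (nat_lit 28), (nat_lit 0x7d00000000000000fa00000000000000fa000000000000007d), (nat_lit 0)⟩]⟩
def e1067 : En := ⟨(nat_lit 42), (nat_lit 65553), (nat_lit 1750), (nat_lit 8), [⟨(nat_lit 0), (nat_lit 20), (nat_lit 0x7d00000000000000fa00000000000000fa000000000000007d), (nat_lit 0)⟩, ⟨(nat_lit 6), (nat_lit 22), (nat_lit 0x7d000000000000000000000000000000000000000000000000), (nat_lit 0x7d000000000000007d)⟩, ⟨(nat_lit 8), (nat_lit 12), (nat_lit 0xfa00000000000000fa000000000000007d0000000000000000), (nat_lit 0)⟩]⟩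
def e1068 : En := ⟨(nat_lit 44), (nat_lit 69633), (nat_lit 1750), (nat_lit 8), [⟨(nat_lit 0), (nat_lit 14), (nat_lit 0xfa00000000000000fa000000000000007d0000000000000000), (nat_lit 0)⟩, ⟨(nat_lit 2), (nat_lit 22), (nat_lit 0x7d00000000000000fa00000000000000fa000000000000007d), (nat_lit 0)⟩, ⟨(nat_lit 8), (nat_lit 24), (nat_lit 0x7d000000000000000000000000000000000000000000000000), (nat_lit 0x7d000000000000007d)⟩]⟩
def e1069 : En := ⟨(nat_lit 46), (nat_lit 69888), (nat_lit 1750), (nat_lit 8), [⟨(nat_lit 0), (nat_lit 26), (nat_lit 0x7d000000000000000000000000000000000000000000000000), (nat_lit 0x7d000000000000007d)⟩, ⟨(nat_lit 2), (nat_lit 16), (nat_lit 0xfa00000000000000fa000000000000007d0000000000000000), (nat_lit 0)⟩, ⟨(nat_lit 4), (nat_lit 24), (nat_lit 0x7d00000000000000fa00000000000000fa000000000000007d), (nat_lit 0)⟩]⟩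
def e1070 : En := ⟨(nat_lit 48), (nat_lit 4368), (nat_lit 1750), (nat_lit 8), [⟨(nat_lit 2), (nat_lit 28), (nat_lit 0x7d000000000000000000000000000000000000000000000000), (nat_lit 0x7d000000000000007d)⟩, ⟨(nat_lit 4), (nat_lit 18), (nat_lit 0xfa00000000000000fa000000000000007d0000000000000000), (nat_lit 0)⟩, ⟨(nat_lit 6), (nat_lit 26), (nat_lit 0x7d00000000000000fa00000000000000fa000000000000007d), (nat_lit 0)⟩]⟩
def e1071 : En := ⟨(nat_lit 50), (nat_lit 4113), (nat_lit 800), (nat_lit 8), [⟨(nat_lit 2), (nat_lit 20), (nat_lit 0x7d000000000000000000000000000000000000000000000000), (nat_lit 0x7d000000000000007d)⟩, ⟨(nat_lit 6), (nat_lit 14), (nat_lit 0x19000000000000004b), (nat_lit 0x4b000000000000001900000000000000000000000000000000)⟩, ⟨(nat_lit 8), (nat_lit 18), (nat_lit 0x1900000000000000640000000000000032), (nat_lit 0x32000000000000000000000000000000000000000000000000)⟩]⟩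
def e1072 : En := ⟨(nat_lit 52), (nat_lit 65793), (nat_lit 800), (nat_lit 8), [⟨(nat_lit 0), (nat_lit 10), (nat_lit 0x1900000000000000640000000000000032), (nat_lit 0x32000000000000000000000000000000000000000000000000)⟩, ⟨(nat_lit 4), (nat_lit 22), (nat_lit 0x7d000000000000000000000000000000000000000000000000), (nat_lit 0x7d000000000000007d)⟩, ⟨(nat_lit 8), (nat_lit 16), (nat_lit 0x19000000000000004b), (nat_lit 0x4b000000000000001900000000000000000000000000000000)⟩]⟩
def e1073 : En := ⟨(nat_lit 54), (nat_lit 69648), (nat_lit 800), (nat_lit 8), [⟨(nat_lit 0), (nat_lit 18), (nat_lit 0x19000000000000004b), (nat_lit 0x4b000000000000001900000000000000000000000000000000)⟩, ⟨(nat_lit 2), (nat_lit 12), (nat_lit 0x1900000000000000640000000000000032), (nat_lit 0x32000000000000000000000000000000000000000000000000)⟩, ⟨(nat_lit 6), (nat_lit 24), (nat_lit 0x7d000000000000000000000000000000000000000000000000), (nat_lit 0x7d000000000000007d)⟩]⟩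
def e1074 : En := ⟨(nat_lit 56), (nat_lit 4353), (nat_lit 800), (nat_lit 8), [⟨(nat_lit 2), (nat_lit 10), (nat_lit 0x19000000000000004b), (nat_lit 0x4b000000000000001900000000000000000000000000000000)⟩, ⟨(nat_lit 4), (nat_lit 14), (nat_lit 0x1900000000000000640000000000000032), (nat_lit 0x32000000000000000000000000000000000000000000000000)⟩, ⟨(nat_lit 8), (nat_lit 26), (nat_lit 0x7d000000000000000000000000000000000000000000000000), (nat_lit 0x7d000000000000007d)⟩]⟩
def e1075 : En := ⟨(nat_lit 58), (nat_lit 65808), (nat_lit 800), (nat_lit 8), [⟨(nat_lit 0), (nat_lit 28), (nat_lit 0x7d000000000000000000000000000000000000000000000000), (nat_lit 0x7d000000000000007d)⟩, ⟨(nat_lit 4), (nat_lit 12), (nat_lit 0x19000000000000004b), (nat_lit 0x4b000000000000001900000000000000000000000000000000)⟩, ⟨(nat_lit 6), (nat_lit 16), (nat_lit 0x1900000000000000640000000000000032), (nat_lit 0x32000000000000000000000000000000000000000000000000)⟩]⟩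
def e1076 : En := ⟨(nat_lit 10), (nat_lit 257), (nat_lit 375), (nat_lit 8), [⟨(nat_lit 4), (nat_lit 8), (nat_lit 0x7d000000000000000000000000000000000000000000000000), (nat_lit 0x7d000000000000007d)⟩]⟩
def e1077 : En := ⟨(nat_lit 12), (nat_lit 65552), (nat_lit 375), (nat_lit 8), [⟨(nat_lit 0), (nat_lit 6), (nat_lit 0x7d000000000000007d), (nat_lit 0x7d000000000000000000000000000000000000000000000000)⟩]⟩
def e1078 : En := ⟨(nat_lit 14), (nat_lit 4097), (nat_lit 375), (nat_lit 8), [⟨(nat_lit 2), (nat_lit 8), (nat_lit 0x7d000000000000007d), (nat_lit 0x7d000000000000000000000000000000000000000000000000)⟩]⟩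
def e1079 : En := ⟨(nat_lit 16), (nat_lit 65792), (nat_lit 375), (nat_lit 8), [⟨(nat_lit 0), (nat_lit 4), (nat_lit 0x7d000000000000000000000000000000000000000000000000), (nat_lit 0x7d000000000000007d)⟩]⟩
def e1080 : En := ⟨(nat_lit 18), (nat_lit 4112), (nat_lit 375), (nat_lit 8), [⟨(nat_lit 2), (nat_lit 6), (nat_lit 0x7d000000000000000000000000000000000000000000000000), (nat_lit 0x7d000000000000007d)⟩]⟩
def e1081 : En := ⟨(nat_lit 20), (nat_lit 17), (nat_lit 375), (nat_lit 8), [⟨(nat_lit 6), (nat_lit 8), (nat_lit 0x7d000000000000000000000000000000000000000000000000), (nat_lit 0x7d000000000000007d)⟩]⟩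
def e1082 : En := ⟨(nat_lit 22), (nat_lit 65537), (nat_lit 375), (nat_lit 8), [⟨(nat_lit 0), (nat_lit 8), (nat_lit 0x7d000000000000007d), (nat_lit 0x7d000000000000000000000000000000000000000000000000)⟩]⟩
def e1083 : En := ⟨(nat_lit 24), (nat_lit 69632), (nat_lit 375), (nat_lit 8), [⟨(nat_lit 0), (nat_lit 2), (nat_lit 0x7d000000000000000000000000000000000000000000000000), (nat_lit 0x7d000000000000007d)⟩]⟩
def e1084 : En := ⟨(nat_lit 26), (nat_lit 4352), (nat_lit 375), (nat_lit 8), [⟨(nat_lit 2), (nat_lit 4), (nat_lit 0x7d000000000000000000000000000000000000000000000000), (nat_lit 0x7d000000000000007d)⟩]⟩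
def e1085 : En := ⟨(nat_lit 28), (nat_lit 272), (nat_lit 375), (nat_lit 8), [⟨(nat_lit 4), (nat_lit 6), (nat_lit 0x7d000000000000000000000000000000000000000000000000), (nat_lit 0x7d000000000000007d)⟩]⟩
def e1086 : En := ⟨(nat_lit 71), (nat_lit 69905), (nat_lit 11250), (nat_lit 8), [⟨(nat_lit 0), (nat_lit 60), (nat_lit 0x7d000000000000000000000000000000000000000000000000), (nat_lit 0x7d000000000000007d)⟩, ⟨(nat_lit 2), (nat_lit 62), (nat_lit 0x7d000000000000000000000000000000000000000000000000), (nat_lit 0x7d000000000000007d)⟩, ⟨(nat_lit 4), (nat_lit 64), (nat_lit 0x7d000000000000000000000000000000000000000000000000), (nat_lit 0x7d000000000000007d)⟩, ⟨(nat_lit 6), (nat_lit 66), (nat_lit 0x7d000000000000000000000000000000000000000000000000), (nat_lit 0x7d000000000000007d)⟩, ⟨(nat_lit 8), (nat_lit 68), (nat_lit 0x7d000000000000000000000000000000000000000000000000), (nat_lit 0x7d000000000000007d)⟩, ⟨(nat_lit 10), (nat_lit 54), (nat_lit 125), (nat_lit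 0x1f4000000000000027100000000000000fa0000000000000000)⟩, ⟨(nat_lit 12), (nat_lit 56), (nat_lit 125), (nat_lit 0x1f4000000000000027100000000000000fa0000000000000000)⟩, ⟨(nat_lit 14), (nat_lit 58), (nat_lit 125), (nat_lit 0x1f4000000000000027100000000000000fa0000000000000000)⟩, ⟨(nat_lit 16), (nat_lit 50), (nat_lit 125), (nat_lit 0x1f4000000000000027100000000000000fa0000000000000000)⟩, ⟨(nat_lit 18), (nat_lit 52), (nat_lit 125), (nat_lit 0x1f4000000000000027100000000000000fa0000000000000000)⟩, ⟨(nat_lit 20), (nat_lit 46), (nat_lit 0x7d000000000000007d), (nat_lit 0x7d000000000000000000000000000000000000000000000000)⟩, ⟨(nat_lit 22), (nat_lit 48), (nat_lit 0x7d000000000000007d), (nat_lit 0x7d000000000000000000000000000000000000000000000000)⟩, ⟨(nat_lit 24), (nat_lit 40), (nat_lit 0x7d000000000000007d), (nat_lit 0x7d000000000000000000000000000000000000000000000000)⟩, ⟨(nat_lit 26), (nat_lit 42), (nat_lit 0x7d000000000000007d), (nat_lit 0x7d000000000000000000000000000000000000000000000000)⟩,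 ⟨(nat_lit 28), (nat_lit 44), (nat_lit 0x7d000000000000007d), (nat_lit 0x7d000000000000000000000000000000000000000000000000)⟩]⟩
def e1087 : En := ⟨(nat_lit 60), (nat_lit 4369), (nat_lit 20250), (nat_lit 24), [⟨(nat_lit 2), (nat_lit 40), (nb (nat_lit 0x3e800000000000000fa00000000000001770000000000000271) (nat_lit 1216) (nat_lit 0)), (nat_lit 0x36b0000000000000000000000000000027100000000000000fa)⟩, ⟨(nat_lit 4), (nat_lit 50), (nb (nat_lit 0x271000000000000007d000000000000000000000000000001f4) (nat_lit 1216) (nat_lit 0)), (nat_lit 0x2ee000000000000000000000000000000fa00000000000000fa)⟩, ⟨(nat_lit 6), (nat_lit 56), (nb (nat_lit 250) (nat_lit 1280) (nat_lit 0x1f40000000000000271000000000000007d0000000000000271)), (nb (nat_lit 0x7d00000000000001f4000000000000000000000000000000fa) (nat_lit 1216) (nat_lit 0))⟩, ⟨(nat_lit 8), (nat_lit 48), (nb (nat_lit 0x36b0000000000000000000000000000027100000000000000fa) (nat_lit 1216) (nat_lit 0xfa000000000000000000000000000000fa)),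 (nat_lit 0x177000000000000000000000000000002710000000000000000)⟩, ⟨(nat_lit 10), (nat_lit 18), (nb (nat_lit 125) (nat_lit 1344) (nb (nat_lit 0x1f40000000000000000000000000000036b) (nat_lit 64) (nat_lit 0))), (nb (nat_lit 0x4e2000000000000000000000000000003e800000000000001f4) (nat_lit 1216) (nat_lit 0x27100000000000000000000000000000177))⟩, ⟨(nat_lit 14), (nat_lit 28), (nb (nat_lit 125) (nat_lit 1408) (nat_lit 125)), (nb (nat_lit 0x7d000000000000007d) (nat_lit 1216) (nb (nat_lit 0x7d000000000000007d) (nat_lit 128) (nat_lit 0)))⟩, ⟨(nat_lit 20), (nat_lit 26), (nat_lit 0x7d000000000000000000000000000001770000000000000000), (nb (nat_lit 0x177000000000000007d0000000000000177000000000000007d) (nat_lit 1216) (nat_lit 0))⟩]⟩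
def e1088 : En := ⟨(nat_lit 62), (nat_lit 65809), (nat_lit 20250), (nat_lit 24), [⟨(nat_lit 0), (nat_lit 40), (nb (nat_lit 0x36b0000000000000000000000000000027100000000000000fa) (nat_lit 1216) (nat_lit 0xfa000000000000000000000000000000fa)), (nat_lit 0x177000000000000000000000000000002710000000000000000)⟩, ⟨(nat_lit 4), (nat_lit 42), (nb (nat_lit 0x3e800000000000000fa00000000000001770000000000000271) (nat_lit 1216) (nat_lit 0)), (nat_lit 0x36b0000000000000000000000000000027100000000000000fa)⟩, ⟨(nat_lit 6), (nat_lit 52), (nb (nat_lit 0x271000000000000007d000000000000000000000000000001f4) (nat_lit 1216) (nat_lit 0)), (nat_lit 0x2ee000000000000000000000000000000fa00000000000000fa)⟩, ⟨(nat_lit 8), (nat_lit 58), (nb (nat_lit 250) (nat_lit 1280) (nat_lit 0x1f40000000000000271000000000000007d0000000000000271)), (nb (nat_lit 0x7d00000000000001f4000000000000000000000000000000fa) (nat_lit 1216) (nat_lit 0))⟩, ⟨(nat_lit 10), (nat_lit 12), (nb (nat_lit 0x4e2000000000000000000000000000003e800000000000001f4)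 (nat_lit 1216) (nat_lit 0x27100000000000000000000000000000177)), (nb (nat_lit 125) (nat_lit 1344) (nb (nat_lit 0x1f40000000000000000000000000000036b) (nat_lit 64) (nat_lit 0)))⟩, ⟨(nat_lit 16), (nat_lit 20), (nb (nat_lit 125) (nat_lit 1408) (nat_lit 125)), (nb (nat_lit 0x7d000000000000007d) (nat_lit 1216) (nb (nat_lit 0x7d000000000000007d) (nat_lit 128) (nat_lit 0)))⟩, ⟨(nat_lit 22), (nat_lit 28), (nat_lit 0x7d000000000000000000000000000001770000000000000000), (nb (nat_lit 0x177000000000000007d0000000000000177000000000000007d) (nat_lit 1216) (nat_lit 0))⟩]⟩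
def e1089 : En := ⟨(nat_lit 64), (nat_lit 69649), (nat_lit 20250), (nat_lit 24), [⟨(nat_lit 0), (nat_lit 50), (nb (nat_lit 250) (nat_lit 1280) (nat_lit 0x1f40000000000000271000000000000007d0000000000000271)), (nb (nat_lit 0x7d00000000000001f4000000000000000000000000000000fa) (nat_lit 1216) (nat_lit 0))⟩, ⟨(nat_lit 2), (nat_lit 42), (nb (nat_lit 0x36b0000000000000000000000000000027100000000000000fa) (nat_lit 1216) (nat_lit 0xfa000000000000000000000000000000fa)), (nat_lit 0x177000000000000000000000000000002710000000000000000)⟩, ⟨(nat_lit 6), (nat_lit 44), (nb (nat_lit 0x3e800000000000000fa00000000000001770000000000000271) (nat_lit 1216) (nat_lit 0)), (nat_lit 0x36b0000000000000000000000000000027100000000000000fa)⟩, ⟨(nat_lit 8), (nat_lit 54), (nb (nat_lit 0x271000000000000007d000000000000000000000000000001f4) (nat_lit 1216) (nat_lit 0)), (nat_lit 0x2ee000000000000000000000000000000fa00000000000000fa)⟩, ⟨(nat_lit 12), (nat_lit 14), (nb (nat_lit 0x4e2000000000000000000000000000003e800000000000001f4)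 (nat_lit 1216) (nat_lit 0x27100000000000000000000000000000177)), (nb (nat_lit 125) (nat_lit 1344) (nb (nat_lit 0x1f40000000000000000000000000000036b) (nat_lit 64) (nat_lit 0)))⟩, ⟨(nat_lit 18), (nat_lit 22), (nb (nat_lit 125) (nat_lit 1408) (nat_lit 125)), (nb (nat_lit 0x7d000000000000007d) (nat_lit 1216) (nb (nat_lit 0x7d000000000000007d) (nat_lit 128) (nat_lit 0)))⟩, ⟨(nat_lit 20), (nat_lit 24), (nb (nat_lit 0x177000000000000007d0000000000000177000000000000007d) (nat_lit 1216) (nat_lit 0)), (nat_lit 0x7d000000000000000000000000000001770000000000000000)⟩]⟩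
def e1090 : En := ⟨(nat_lit 66), (nat_lit 69889), (nat_lit 20250), (nat_lit 24), [⟨(nat_lit 0), (nat_lit 56), (nb (nat_lit 0x271000000000000007d000000000000000000000000000001f4) (nat_lit 1216) (nat_lit 0)), (nat_lit 0x2ee000000000000000000000000000000fa00000000000000fa)⟩, ⟨(nat_lit 2), (nat_lit 52), (nb (nat_lit 250) (nat_lit 1280) (nat_lit 0x1f40000000000000271000000000000007d0000000000000271)), (nb (nat_lit 0x7d00000000000001f4000000000000000000000000000000fa) (nat_lit 1216) (nat_lit 0))⟩, ⟨(nat_lit 4), (nat_lit 44), (nb (nat_lit 0x36b0000000000000000000000000000027100000000000000fa) (nat_lit 1216) (nat_lit 0xfa000000000000000000000000000000fa)), (nat_lit 0x177000000000000000000000000000002710000000000000000)⟩, ⟨(nat_lit 8), (nat_lit 46), (nb (nat_lit 0x3e800000000000000fa00000000000001770000000000000271) (nat_lit 1216) (nat_lit 0)), (nat_lit 0x36b0000000000000000000000000000027100000000000000fa)⟩, ⟨(nat_lit 10), (nat_lit 24), (nb (nat_lit 125)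 (nat_lit 1408) (nat_lit 125)), (nb (nat_lit 0x7d000000000000007d) (nat_lit 1216) (nb (nat_lit 0x7d000000000000007d) (nat_lit 128) (nat_lit 0)))⟩, ⟨(nat_lit 14), (nat_lit 16), (nb (nat_lit 0x4e2000000000000000000000000000003e800000000000001f4) (nat_lit 1216) (nat_lit 0x27100000000000000000000000000000177)), (nb (nat_lit 125) (nat_lit 1344) (nb (nat_lit 0x1f40000000000000000000000000000036b) (nat_lit 64) (nat_lit 0)))⟩, ⟨(nat_lit 22), (nat_lit 26), (nb (nat_lit 0x177000000000000007d0000000000000177000000000000007d) (nat_lit 1216) (nat_lit 0)), (nat_lit 0x7d000000000000000000000000000001770000000000000000)⟩]⟩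
def e1091 : En := ⟨(nat_lit 68), (nat_lit 69904), (nat_lit 20250), (nat_lit 24), [⟨(nat_lit 0), (nat_lit 48), (nb (nat_lit 0x3e800000000000000fa00000000000001770000000000000271) (nat_lit 1216) (nat_lit 0)), (nat_lit 0x36b0000000000000000000000000000027100000000000000fa)⟩, ⟨(nat_lit 2), (nat_lit 58), (nb (nat_lit 0x271000000000000007d000000000000000000000000000001f4) (nat_lit 1216) (nat_lit 0)), (nat_lit 0x2ee000000000000000000000000000000fa00000000000000fa)⟩, ⟨(nat_lit 4), (nat_lit 54), (nb (nat_lit 250) (nat_lit 1280) (nat_lit 0x1f40000000000000271000000000000007d0000000000000271)), (nb (nat_lit 0x7d00000000000001f4000000000000000000000000000000fa) (nat_lit 1216) (nat_lit 0))⟩, ⟨(nat_lit 6), (nat_lit 46), (nb (nat_lit 0x36b0000000000000000000000000000027100000000000000fa) (nat_lit 1216) (nat_lit 0xfa000000000000000000000000000000fa)), (nat_lit 0x177000000000000000000000000000002710000000000000000)⟩, ⟨(nat_lit 12), (nat_lit 26), (nb (nat_lit 125)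 (nat_lit 1408) (nat_lit 125)), (nb (nat_lit 0x7d000000000000007d) (nat_lit 1216) (nb (nat_lit 0x7d000000000000007d) (nat_lit 128) (nat_lit 0)))⟩, ⟨(nat_lit 16), (nat_lit 18), (nb (nat_lit 0x4e2000000000000000000000000000003e800000000000001f4) (nat_lit 1216) (nat_lit 0x27100000000000000000000000000000177)), (nb (nat_lit 125) (nat_lit 1344) (nb (nat_lit 0x1f40000000000000000000000000000036b) (nat_lit 64) (nat_lit 0)))⟩, ⟨(nat_lit 24), (nat_lit 28), (nb (nat_lit 0x177000000000000007d0000000000000177000000000000007d) (nat_lit 1216) (nat_lit 0)), (nat_lit 0x7d000000000000000000000000000001770000000000000000)⟩]⟩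
def e1092 : En := ⟨(nat_lit 40), (nat_lit 273), (nat_lit 6900), (nat_lit 24), [⟨(nat_lit 4), (nat_lit 20), (nb (nat_lit 200) (nat_lit 1344) (nb (nat_lit 0xe1000000000000000000000000000000af) (nat_lit 64) (nat_lit 0))), (nb (nat_lit 0x190000000000000000000000000000000c80000000000000064) (nat_lit 1216) (nat_lit 0x12c000000000000000000000000000000e1))⟩, ⟨(nat_lit 6), (nat_lit 10), (nb (nat_lit 0x1770000000000000000000000000000007d) (nat_lit 1216) (nb (nat_lit 0x7d00000000000000000000000000000177) (nat_lit 64) (nat_lit 0))), (nb (nat_lit 0x271000000000000000000000000000001f4) (nat_lit 1280) (nat_lit 0x1f400000000000000000000000000000271))⟩, ⟨(nat_lit 8), (nat_lit 28), (nb (nat_lit 0xaf000000000000000000000000000000e1) (nat_lit 1216) (nb (nat_lit 200) (nat_lit 64) (nat_lit 0))), (nb (nat_lit 0xe10000000000000000000000000000012c) (nat_lit 1280) (nat_lit 0x6400000000000000c800000000000000000000000000000190))⟩]⟩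
def e1093 : En := ⟨(nat_lit 42), (nat_lit 65553), (nat_lit 6900), (nat_lit 24), [⟨(nat_lit 0), (nat_lit 20), (nb (nat_lit 0xaf000000000000000000000000000000e1) (nat_lit 1216) (nb (nat_lit 200) (nat_lit 64) (nat_lit 0))), (nb (nat_lit 0xe10000000000000000000000000000012c) (nat_lit 1280) (nat_lit 0x6400000000000000c800000000000000000000000000000190))⟩, ⟨(nat_lit 6), (nat_lit 22), (nb (nat_lit 200) (nat_lit 1344) (nb (nat_lit 0xe1000000000000000000000000000000af) (nat_lit 64) (nat_lit 0))), (nb (nat_lit 0x190000000000000000000000000000000c80000000000000064) (nat_lit 1216) (nat_lit 0x12c000000000000000000000000000000e1))⟩, ⟨(nat_lit 8), (nat_lit 12), (nb (nat_lit 0x1770000000000000000000000000000007d) (nat_lit 1216) (nb (nat_lit 0x7d00000000000000000000000000000177) (nat_lit 64) (nat_lit 0))), (nb (nat_lit 0x271000000000000000000000000000001f4) (nat_lit 1280) (nat_lit 0x1f400000000000000000000000000000271))⟩]⟩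
def e1094 : En := ⟨(nat_lit 44), (nat_lit 69633), (nat_lit 6900), (nat_lit 24), [⟨(nat_lit 0), (nat_lit 14), (nb (nat_lit 0x1770000000000000000000000000000007d) (nat_lit 1216) (nb (nat_lit 0x7d00000000000000000000000000000177) (nat_lit 64) (nat_lit 0))), (nb (nat_lit 0x271000000000000000000000000000001f4) (nat_lit 1280) (nat_lit 0x1f400000000000000000000000000000271))⟩, ⟨(nat_lit 2), (nat_lit 22), (nb (nat_lit 0xaf000000000000000000000000000000e1) (nat_lit 1216) (nb (nat_lit 200) (nat_lit 64) (nat_lit 0))), (nb (nat_lit 0xe10000000000000000000000000000012c) (nat_lit 1280) (nat_lit 0x6400000000000000c800000000000000000000000000000190))⟩, ⟨(nat_lit 8), (nat_lit 24), (nb (nat_lit 200) (nat_lit 1344) (nb (nat_lit 0xe1000000000000000000000000000000af) (nat_lit 64) (nat_lit 0))), (nb (nat_lit 0x190000000000000000000000000000000c80000000000000064) (nat_lit 1216) (nat_lit 0x12c000000000000000000000000000000e1))⟩]⟩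
def e1095 : En := ⟨(nat_lit 46), (nat_lit 69888), (nat_lit 6900), (nat_lit 24), [⟨(nat_lit 0), (nat_lit 26), (nb (nat_lit 200) (nat_lit 1344) (nb (nat_lit 0xe1000000000000000000000000000000af) (nat_lit 64) (nat_lit 0))), (nb (nat_lit 0x190000000000000000000000000000000c80000000000000064) (nat_lit 1216) (nat_lit 0x12c000000000000000000000000000000e1))⟩, ⟨(nat_lit 2), (nat_lit 16), (nb (nat_lit 0x1770000000000000000000000000000007d) (nat_lit 1216) (nb (nat_lit 0x7d00000000000000000000000000000177) (nat_lit 64) (nat_lit 0))), (nb (nat_lit 0x271000000000000000000000000000001f4) (nat_lit 1280) (nat_lit 0x1f400000000000000000000000000000271))⟩, ⟨(nat_lit 4), (nat_lit 24), (nb (nat_lit 0xaf000000000000000000000000000000e1) (nat_lit 1216) (nb (nat_lit 200) (nat_lit 64) (nat_lit 0))), (nb (nat_lit 0xe10000000000000000000000000000012c) (nat_lit 1280) (nat_lit 0x6400000000000000c800000000000000000000000000000190))⟩]⟩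
def e1096 : En := ⟨(nat_lit 48), (nat_lit 4368), (nat_lit 6900), (nat_lit 24), [⟨(nat_lit 2), (nat_lit 28), (nb (nat_lit 200) (nat_lit 1344) (nb (nat_lit 0xe1000000000000000000000000000000af) (nat_lit 64) (nat_lit 0))), (nb (nat_lit 0x190000000000000000000000000000000c80000000000000064) (nat_lit 1216) (nat_lit 0x12c000000000000000000000000000000e1))⟩, ⟨(nat_lit 4), (nat_lit 18), (nb (nat_lit 0x1770000000000000000000000000000007d) (nat_lit 1216) (nb (nat_lit 0x7d00000000000000000000000000000177) (nat_lit 64) (nat_lit 0))), (nb (nat_lit 0x271000000000000000000000000000001f4) (nat_lit 1280) (nat_lit 0x1f400000000000000000000000000000271))⟩, ⟨(nat_lit 6), (nat_lit 26), (nb (nat_lit 0xaf000000000000000000000000000000e1) (nat_lit 1216) (nb (nat_lit 200) (nat_lit 64) (nat_lit 0))), (nb (nat_lit 0xe10000000000000000000000000000012c) (nat_lit 1280) (nat_lit 0x6400000000000000c800000000000000000000000000000190))⟩]⟩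
def e1097 : En := ⟨(nat_lit 50), (nat_lit 4113), (nat_lit 5450), (nat_lit 24), [⟨(nat_lit 2), (nat_lit 20), (nb (nat_lit 200) (nat_lit 1344) (nb (nat_lit 0xe1000000000000000000000000000000af) (nat_lit 64) (nat_lit 0))), (nb (nat_lit 0x190000000000000000000000000000000c80000000000000064) (nat_lit 1216) (nat_lit 0x12c000000000000000000000000000000e1))⟩, ⟨(nat_lit 6), (nat_lit 14), (nb (nat_lit 100) (nat_lit 1280) (nat_lit 0xe10000000000000113000000000000001900000000000001db)), (nb (nat_lit 0x12c0000000000000000000000000000012c) (nat_lit 1216) (nat_lit 0))⟩, ⟨(nat_lit 8), (nat_lit 18), (nb (nat_lit 0x190000000000000006400000000000000640000000000000190) (nat_lit 1216) (nb (nat_lit 25) (nat_lit 128) (nat_lit 0))), (nat_lit 0x1c2000000000000000000000000000000c800000000000000fa)⟩]⟩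
def e1098 : En := ⟨(nat_lit 52), (nat_lit 65793), (nat_lit 5450), (nat_lit 24), [⟨(nat_lit 0), (nat_lit 10), (nb (nat_lit 0x190000000000000006400000000000000640000000000000190) (nat_lit 1216) (nb (nat_lit 25) (nat_lit 128) (nat_lit 0))), (nat_lit 0x1c2000000000000000000000000000000c800000000000000fa)⟩, ⟨(nat_lit 4), (nat_lit 22), (nb (nat_lit 200) (nat_lit 1344) (nb (nat_lit 0xe1000000000000000000000000000000af) (nat_lit 64) (nat_lit 0))), (nb (nat_lit 0x190000000000000000000000000000000c80000000000000064) (nat_lit 1216) (nat_lit 0x12c000000000000000000000000000000e1))⟩, ⟨(nat_lit 8), (nat_lit 16), (nb (nat_lit 100) (nat_lit 1280) (nat_lit 0xe10000000000000113000000000000001900000000000001db)), (nb (nat_lit 0x12c0000000000000000000000000000012c) (nat_lit 1216) (nat_lit 0))⟩]⟩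
def e1099 : En := ⟨(nat_lit 54), (nat_lit 69648), (nat_lit 5450), (nat_lit 24), [⟨(nat_lit 0), (nat_lit 18), (nb (nat_lit 100) (nat_lit 1280) (nat_lit 0xe10000000000000113000000000000001900000000000001db)), (nb (nat_lit 0x12c0000000000000000000000000000012c) (nat_lit 1216) (nat_lit 0))⟩, ⟨(nat_lit 2), (nat_lit 12), (nb (nat_lit 0x190000000000000006400000000000000640000000000000190) (nat_lit 1216) (nb (nat_lit 25) (nat_lit 128) (nat_lit 0))), (nat_lit 0x1c2000000000000000000000000000000c800000000000000fa)⟩, ⟨(nat_lit 6), (nat_lit 24), (nb (nat_lit 200) (nat_lit 1344) (nb (nat_lit 0xe1000000000000000000000000000000af) (nat_lit 64) (nat_lit 0))), (nb (nat_lit 0x190000000000000000000000000000000c80000000000000064) (nat_lit 1216) (nat_lit 0x12c000000000000000000000000000000e1))⟩]⟩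
def e1100 : En := ⟨(nat_lit 56), (nat_lit 4353), (nat_lit 5450), (nat_lit 24), [⟨(nat_lit 2), (nat_lit 10), (nb (nat_lit 100) (nat_lit 1280) (nat_lit 0xe10000000000000113000000000000001900000000000001db)), (nb (nat_lit 0x12c0000000000000000000000000000012c) (nat_lit 1216) (nat_lit 0))⟩, ⟨(nat_lit 4), (nat_lit 14), (nb (nat_lit 0x190000000000000006400000000000000640000000000000190) (nat_lit 1216) (nb (nat_lit 25) (nat_lit 128) (nat_lit 0))), (nat_lit 0x1c2000000000000000000000000000000c800000000000000fa)⟩, ⟨(nat_lit 8), (nat_lit 26), (nb (nat_lit 200) (nat_lit 1344) (nb (nat_lit 0xe1000000000000000000000000000000af) (nat_lit 64) (nat_lit 0))), (nb (nat_lit 0x190000000000000000000000000000000c80000000000000064) (nat_lit 1216) (nat_lit 0x12c000000000000000000000000000000e1))⟩]⟩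
def e1101 : En := ⟨(nat_lit 58), (nat_lit 65808), (nat_lit 5450), (nat_lit 24), [⟨(nat_lit 0), (nat_lit 28), (nb (nat_lit 200) (nat_lit 1344) (nb (nat_lit 0xe1000000000000000000000000000000af) (nat_lit 64) (nat_lit 0))), (nb (nat_lit 0x190000000000000000000000000000000c80000000000000064) (nat_lit 1216) (nat_lit 0x12c000000000000000000000000000000e1))⟩, ⟨(nat_lit 4), (nat_lit 12), (nb (nat_lit 100) (nat_lit 1280) (nat_lit 0xe10000000000000113000000000000001900000000000001db)), (nb (nat_lit 0x12c0000000000000000000000000000012c) (nat_lit 1216) (nat_lit 0))⟩, ⟨(nat_lit 6), (nat_lit 16), (nb (nat_lit 0x190000000000000006400000000000000640000000000000190) (nat_lit 1216) (nb (nat_lit 25) (nat_lit 128) (nat_lit 0))), (nat_lit 0x1c2000000000000000000000000000000c800000000000000fa)⟩]⟩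
def e1102 : En := ⟨(nat_lit 10), (nat_lit 257), (nat_lit 1825), (nat_lit 24), [⟨(nat_lit 4), (nat_lit 8), (nb (nat_lit 200) (nat_lit 1344) (nb (nat_lit 0xe1000000000000000000000000000000af) (nat_lit 64) (nat_lit 0))), (nb (nat_lit 0x190000000000000000000000000000000c80000000000000064) (nat_lit 1216) (nat_lit 0x12c000000000000000000000000000000e1))⟩]⟩
def e1103 : En := ⟨(nat_lit 12), (nat_lit 65552), (nat_lit 1825), (nat_lit 24), [⟨(nat_lit 0), (nat_lit 6), (nb (nat_lit 0x190000000000000000000000000000000c80000000000000064) (nat_lit 1216) (nat_lit 0x12c000000000000000000000000000000e1)), (nb (nat_lit 200) (nat_lit 1344) (nb (nat_lit 0xe1000000000000000000000000000000af) (nat_lit 64) (nat_lit 0)))⟩]⟩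
def e1104 : En := ⟨(nat_lit 14), (nat_lit 4097), (nat_lit 1825), (nat_lit 24), [⟨(nat_lit 2), (nat_lit 8), (nb (nat_lit 0x190000000000000000000000000000000c80000000000000064) (nat_lit 1216) (nat_lit 0x12c000000000000000000000000000000e1)), (nb (nat_lit 200) (nat_lit 1344) (nb (nat_lit 0xe1000000000000000000000000000000af) (nat_lit 64) (nat_lit 0)))⟩]⟩
def e1105 : En := ⟨(nat_lit 16), (nat_lit 65792), (nat_lit 1825), (nat_lit 24), [⟨(nat_lit 0), (nat_lit 4), (nb (nat_lit 200) (nat_lit 1344) (nb (nat_lit 0xe1000000000000000000000000000000af) (nat_lit 64) (nat_lit 0))), (nb (nat_lit 0x190000000000000000000000000000000c80000000000000064) (nat_lit 1216) (nat_lit 0x12c000000000000000000000000000000e1))⟩]⟩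
def e1106 : En := ⟨(nat_lit 18), (nat_lit 4112), (nat_lit 1825), (nat_lit 24), [⟨(nat_lit 2), (nat_lit 6), (nb (nat_lit 200) (nat_lit 1344) (nb (nat_lit 0xe1000000000000000000000000000000af) (nat_lit 64) (nat_lit 0))), (nb (nat_lit 0x190000000000000000000000000000000c80000000000000064) (nat_lit 1216) (nat_lit 0x12c000000000000000000000000000000e1))⟩]⟩
def e1107 : En := ⟨(nat_lit 20), (nat_lit 17), (nat_lit 1825), (nat_lit 24), [⟨(nat_lit 6), (nat_lit 8), (nb (nat_lit 200) (nat_lit 1344) (nb (nat_lit 0xe1000000000000000000000000000000af) (nat_lit 64) (nat_lit 0))), (nb (nat_lit 0x190000000000000000000000000000000c80000000000000064) (nat_lit 1216) (nat_lit 0x12c000000000000000000000000000000e1))⟩]⟩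
def e1108 : En := ⟨(nat_lit 22), (nat_lit 65537), (nat_lit 1825), (nat_lit 24), [⟨(nat_lit 0), (nat_lit 8), (nb (nat_lit 0x190000000000000000000000000000000c80000000000000064) (nat_lit 1216) (nat_lit 0x12c000000000000000000000000000000e1)), (nb (nat_lit 200) (nat_lit 1344) (nb (nat_lit 0xe1000000000000000000000000000000af) (nat_lit 64) (nat_lit 0)))⟩]⟩
def e1109 : En := ⟨(nat_lit 24), (nat_lit 69632), (nat_lit 1825), (nat_lit 24), [⟨(nat_lit 0), (nat_lit 2), (nb (nat_lit 200) (nat_lit 1344) (nb (nat_lit 0xe1000000000000000000000000000000af) (nat_lit 64) (nat_lit 0))), (nb (nat_lit 0x190000000000000000000000000000000c80000000000000064) (nat_lit 1216) (nat_lit 0x12c000000000000000000000000000000e1))⟩]⟩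
def e1110 : En := ⟨(nat_lit 26), (nat_lit 4352), (nat_lit 1825), (nat_lit 24), [⟨(nat_lit 2), (nat_lit 4), (nb (nat_lit 200) (nat_lit 1344) (nb (nat_lit 0xe1000000000000000000000000000000af) (nat_lit 64) (nat_lit 0))), (nb (nat_lit 0x190000000000000000000000000000000c80000000000000064) (nat_lit 1216) (nat_lit 0x12c000000000000000000000000000000e1))⟩]⟩
def e1111 : En := ⟨(nat_lit 28), (nat_lit 272), (nat_lit 1825), (nat_lit 24), [⟨(nat_lit 4), (nat_lit 6), (nb (nat_lit 200) (nat_lit 1344) (nb (nat_lit 0xe1000000000000000000000000000000af) (nat_lit 64) (nat_lit 0))), (nb (nat_lit 0x190000000000000000000000000000000c80000000000000064) (nat_lit 1216) (nat_lit 0x12c000000000000000000000000000000e1))⟩]⟩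
def e1112 : En := ⟨(nat_lit 71), (nat_lit 69905), (nat_lit 47875), (nat_lit 24), [⟨(nat_lit 0), (nat_lit 60), (nb (nat_lit 200) (nat_lit 1344) (nb (nat_lit 0xe1000000000000000000000000000000af) (nat_lit 64) (nat_lit 0))), (nb (nat_lit 0x190000000000000000000000000000000c80000000000000064) (nat_lit 1216) (nat_lit 0x12c000000000000000000000000000000e1))⟩, ⟨(nat_lit 2), (nat_lit 62), (nb (nat_lit 200) (nat_lit 1344) (nb (nat_lit 0xe1000000000000000000000000000000af) (nat_lit 64) (nat_lit 0))), (nb (nat_lit 0x190000000000000000000000000000000c80000000000000064) (nat_lit 1216) (nat_lit 0x12c000000000000000000000000000000e1))⟩, ⟨(nat_lit 4), (nat_lit 64), (nb (nat_lit 200) (nat_lit 1344) (nb (nat_lit 0xe1000000000000000000000000000000af) (nat_lit 64) (nat_lit 0))), (nb (nat_lit 0x190000000000000000000000000000000c80000000000000064) (nat_lit 1216) (nat_lit 0x12c000000000000000000000000000000e1))⟩, ⟨(nat_lit 6), (nat_lit 66), (nb (nat_lit 200) (nat_lit 1344)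 (nb (nat_lit 0xe1000000000000000000000000000000af) (nat_lit 64) (nat_lit 0))), (nb (nat_lit 0x190000000000000000000000000000000c80000000000000064) (nat_lit 1216) (nat_lit 0x12c000000000000000000000000000000e1))⟩, ⟨(nat_lit 8), (nat_lit 68), (nb (nat_lit 200) (nat_lit 1344) (nb (nat_lit 0xe1000000000000000000000000000000af) (nat_lit 64) (nat_lit 0))), (nb (nat_lit 0x190000000000000000000000000000000c80000000000000064) (nat_lit 1216) (nat_lit 0x12c000000000000000000000000000000e1))⟩, ⟨(nat_lit 10), (nat_lit 54), (nb (nat_lit 0x2ee0000000000000271000000000000000000000000000002ee) (nat_lit 1216) (nat_lit 0)), (nb (nat_lit 250) (nat_lit 1280) (nat_lit 0x4e200000000000002710000000000000177000000000000036b))⟩, ⟨(nat_lit 12), (nat_lit 56), (nb (nat_lit 0x2ee0000000000000271000000000000000000000000000002ee) (nat_lit 1216) (nat_lit 0)), (nb (nat_lit 250) (nat_lit 1280) (nat_lit 0x4e200000000000002710000000000000177000000000000036b))⟩, ⟨(nat_lit 14), (nat_lit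 58), (nb (nat_lit 0x2ee0000000000000271000000000000000000000000000002ee) (nat_lit 1216) (nat_lit 0)), (nb (nat_lit 250) (nat_lit 1280) (nat_lit 0x4e200000000000002710000000000000177000000000000036b))⟩, ⟨(nat_lit 16), (nat_lit 50), (nb (nat_lit 0x2ee0000000000000271000000000000000000000000000002ee) (nat_lit 1216) (nat_lit 0)), (nb (nat_lit 250) (nat_lit 1280) (nat_lit 0x4e200000000000002710000000000000177000000000000036b))⟩, ⟨(nat_lit 18), (nat_lit 52), (nb (nat_lit 0x2ee0000000000000271000000000000000000000000000002ee) (nat_lit 1216) (nat_lit 0)), (nb (nat_lit 250) (nat_lit 1280) (nat_lit 0x4e200000000000002710000000000000177000000000000036b))⟩, ⟨(nat_lit 20), (nat_lit 46), (nb (nat_lit 0x7d00000000000000fa00000000000000000000000000000177) (nat_lit 1216) (nat_lit 0)), (nb (nat_lit 250) (nat_lit 1280) (nat_lit 0x1f400000000000000fa000000000000000000000000000001f4))⟩, ⟨(nat_lit 22), (nat_lit 48), (nb (nat_lit 0x7d00000000000000fa00000000000000000000000000000177)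 (nat_lit 1216) (nat_lit 0)), (nb (nat_lit 250) (nat_lit 1280) (nat_lit 0x1f400000000000000fa000000000000000000000000000001f4))⟩, ⟨(nat_lit 24), (nat_lit 40), (nb (nat_lit 0x7d00000000000000fa00000000000000000000000000000177) (nat_lit 1216) (nat_lit 0)), (nb (nat_lit 250) (nat_lit 1280) (nat_lit 0x1f400000000000000fa000000000000000000000000000001f4))⟩, ⟨(nat_lit 26), (nat_lit 42), (nb (nat_lit 0x7d00000000000000fa00000000000000000000000000000177) (nat_lit 1216) (nat_lit 0)), (nb (nat_lit 250) (nat_lit 1280) (nat_lit 0x1f400000000000000fa000000000000000000000000000001f4))⟩, ⟨(nat_lit 28), (nat_lit 44), (nb (nat_lit 0x7d00000000000000fa00000000000000000000000000000177) (nat_lit 1216) (nat_lit 0)), (nb (nat_lit 250) (nat_lit 1280) (nat_lit 0x1f400000000000000fa000000000000000000000000000001f4))⟩]⟩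
def e1113 : En := ⟨(nat_lit 60), (nat_lit 4369), (nat_lit 54), (nat_lit 225), [⟨(nat_lit 2), (nat_lit 40), (nb (nat_lit 2) (nat_lit 13376) (nat_lit 2)), (nb (nat_lit 1) (nat_lit 14592) (nb (nat_lit 1) (nat_lit 1216) (nat_lit 0)))⟩, ⟨(nat_lit 4), (nat_lit 50), (nb (nat_lit 2) (nat_lit 15808) (nat_lit 0)), (nb (nat_lit 4) (nat_lit 14592) (nat_lit 0))⟩, ⟨(nat_lit 6), (nat_lit 56), (nb (nat_lit 3) (nat_lit 15808) (nb (nat_lit 1) (nat_lit 2432) (nat_lit 0))), (nb (nat_lit 6) (nat_lit 14592) (nb (nat_lit 2) (nat_lit 1216) (nat_lit 0)))⟩, ⟨(nat_lit 8), (nat_lit 48), (nb (nat_lit 1) (nat_lit 14592) (nb (nat_lit 1) (nat_lit 1216) (nat_lit 0))), (nb (nat_lit 2) (nat_lit 13376) (nat_lit 2))⟩, ⟨(nat_lit 10), (nat_lit 18), (nb (nat_lit 1) (nat_lit 14592) (nat_lit 0)), (nb (nat_lit 2) (nat_lit 29184) (nb (nat_lit 1) (nat_lit 27968) (nb (nat_lit 3) (nat_lit 15808) (nb (nat_lit 1) (nat_lit 2432) (nat_lit 0)))))⟩, ⟨(nat_lit 14), (nat_lit 28), (nb (nat_lit 1) (nat_lit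 15808) (nb (nat_lit 1) (nat_lit 2432) (nat_lit 0))), (nb (nat_lit 2) (nat_lit 14592) (nb (nat_lit 2) (nat_lit 1216) (nat_lit 0)))⟩, ⟨(nat_lit 20), (nat_lit 26), (nb (nat_lit 2) (nat_lit 15808) (nb (nat_lit 1) (nat_lit 1216) (nat_lit 0))), (nb (nat_lit 3) (nat_lit 14592) (nb (nat_lit 2) (nat_lit 13376) (nat_lit 2)))⟩]⟩
def e1114 : En := ⟨(nat_lit 62), (nat_lit 65809), (nat_lit 54), (nat_lit 225), [⟨(nat_lit 0), (nat_lit 40), (nb (nat_lit 1) (nat_lit 14592) (nb (nat_lit 1) (nat_lit 1216) (nat_lit 0))), (nb (nat_lit 2) (nat_lit 13376) (nat_lit 2))⟩, ⟨(nat_lit 4), (nat_lit 42), (nb (nat_lit 2) (nat_lit 13376) (nat_lit 2)), (nb (nat_lit 1) (nat_lit 14592) (nb (nat_lit 1) (nat_lit 1216) (nat_lit 0)))⟩, ⟨(nat_lit 6), (nat_lit 52), (nb (nat_lit 2) (nat_lit 15808) (nat_lit 0)), (nb (nat_lit 4) (nat_lit 14592) (nat_lit 0))⟩, ⟨(nat_lit 8), (nat_lit 58), (nb (nat_lit 3) (nat_lit 15808) (nb (nat_lit 1) (nat_lit 2432) (nat_lit 0))), (nb (nat_lit 6) (nat_lit 14592)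 (nb (nat_lit 2) (nat_lit 1216) (nat_lit 0)))⟩, ⟨(nat_lit 10), (nat_lit 12), (nb (nat_lit 2) (nat_lit 29184) (nb (nat_lit 1) (nat_lit 27968) (nb (nat_lit 3) (nat_lit 15808) (nb (nat_lit 1) (nat_lit 2432) (nat_lit 0))))), (nb (nat_lit 1) (nat_lit 14592) (nat_lit 0))⟩, ⟨(nat_lit 16), (nat_lit 20), (nb (nat_lit 1) (nat_lit 15808) (nb (nat_lit 1) (nat_lit 2432) (nat_lit 0))), (nb (nat_lit 2) (nat_lit 14592) (nb (nat_lit 2) (nat_lit 1216) (nat_lit 0)))⟩, ⟨(nat_lit 22), (nat_lit 28), (nb (nat_lit 2) (nat_lit 15808) (nb (nat_lit 1) (nat_lit 1216) (nat_lit 0))), (nb (nat_lit 3) (nat_lit 14592) (nb (nat_lit 2) (nat_lit 13376) (nat_lit 2)))⟩]⟩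
def e1115 : En := ⟨(nat_lit 64), (nat_lit 69649), (nat_lit 54), (nat_lit 225), [⟨(nat_lit 0), (nat_lit 50), (nb (nat_lit 3) (nat_lit 15808) (nb (nat_lit 1) (nat_lit 2432) (nat_lit 0))), (nb (nat_lit 6) (nat_lit 14592) (nb (nat_lit 2) (nat_lit 1216) (nat_lit 0)))⟩, ⟨(nat_lit 2), (nat_lit 42), (nb (nat_lit 1) (nat_lit 14592) (nb (nat_lit 1) (nat_lit 1216) (nat_lit 0))), (nb (nat_lit 2) (nat_lit 13376) (nat_lit 2))⟩, ⟨(nat_lit 6), (nat_lit 44), (nb (nat_lit 2) (nat_lit 13376) (nat_lit 2)), (nb (nat_lit 1) (nat_lit 14592) (nb (nat_lit 1) (nat_lit 1216) (nat_lit 0)))⟩, ⟨(nat_lit 8), (nat_lit 54), (nb (nat_lit 2) (nat_lit 15808) (nat_lit 0)), (nb (nat_lit 4) (nat_lit 14592) (nat_lit 0))⟩, ⟨(nat_lit 12), (nat_lit 14), (nb (nat_lit 2) (nat_lit 29184) (nb (nat_lit 1) (nat_lit 27968) (nb (nat_lit 3) (nat_lit 15808) (nb (nat_lit 1) (nat_lit 2432) (nat_lit 0))))), (nb (nat_lit 1) (nat_lit 14592) (nat_lit 0))⟩, ⟨(nat_lit 18), (nat_lit 22), (nb (nat_lit 1) (nat_lit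 15808) (nb (nat_lit 1) (nat_lit 2432) (nat_lit 0))), (nb (nat_lit 2) (nat_lit 14592) (nb (nat_lit 2) (nat_lit 1216) (nat_lit 0)))⟩, ⟨(nat_lit 20), (nat_lit 24), (nb (nat_lit 3) (nat_lit 14592) (nb (nat_lit 2) (nat_lit 13376) (nat_lit 2))), (nb (nat_lit 2) (nat_lit 15808) (nb (nat_lit 1) (nat_lit 1216) (nat_lit 0)))⟩]⟩
def e1116 : En := ⟨(nat_lit 66), (nat_lit 69889), (nat_lit 54), (nat_lit 225), [⟨(nat_lit 0), (nat_lit 56), (nb (nat_lit 2) (nat_lit 15808) (nat_lit 0)), (nb (nat_lit 4) (nat_lit 14592) (nat_lit 0))⟩, ⟨(nat_lit 2), (nat_lit 52), (nb (nat_lit 3) (nat_lit 15808) (nb (nat_lit 1) (nat_lit 2432) (nat_lit 0))), (nb (nat_lit 6) (nat_lit 14592) (nb (nat_lit 2) (nat_lit 1216) (nat_lit 0)))⟩, ⟨(nat_lit 4), (nat_lit 44), (nb (nat_lit 1) (nat_lit 14592) (nb (nat_lit 1) (nat_lit 1216) (nat_lit 0))), (nb (nat_lit 2) (nat_lit 13376) (nat_lit 2))⟩, ⟨(nat_lit 8), (nat_lit 46), (nb (nat_lit 2) (nat_lit 13376) (nat_lit 2)), (nb (nat_lit 1) (nat_lit 14592)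 (nb (nat_lit 1) (nat_lit 1216) (nat_lit 0)))⟩, ⟨(nat_lit 10), (nat_lit 24), (nb (nat_lit 1) (nat_lit 15808) (nb (nat_lit 1) (nat_lit 2432) (nat_lit 0))), (nb (nat_lit 2) (nat_lit 14592) (nb (nat_lit 2) (nat_lit 1216) (nat_lit 0)))⟩, ⟨(nat_lit 14), (nat_lit 16), (nb (nat_lit 2) (nat_lit 29184) (nb (nat_lit 1) (nat_lit 27968) (nb (nat_lit 3) (nat_lit 15808) (nb (nat_lit 1) (nat_lit 2432) (nat_lit 0))))), (nb (nat_lit 1) (nat_lit 14592) (nat_lit 0))⟩, ⟨(nat_lit 22), (nat_lit 26), (nb (nat_lit 3) (nat_lit 14592) (nb (nat_lit 2) (nat_lit 13376) (nat_lit 2))), (nb (nat_lit 2) (nat_lit 15808) (nb (nat_lit 1) (nat_lit 1216) (nat_lit 0)))⟩]⟩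
def e1117 : En := ⟨(nat_lit 68), (nat_lit 69904), (nat_lit 54), (nat_lit 225), [⟨(nat_lit 0), (nat_lit 48), (nb (nat_lit 2) (nat_lit 13376) (nat_lit 2)), (nb (nat_lit 1) (nat_lit 14592) (nb (nat_lit 1) (nat_lit 1216) (nat_lit 0)))⟩, ⟨(nat_lit 2), (nat_lit 58), (nb (nat_lit 2) (nat_lit 15808) (nat_lit 0)), (nb (nat_lit 4) (nat_lit 14592) (nat_lit 0))⟩, ⟨(nat_lit 4), (nat_lit 54), (nb (nat_lit 3) (nat_lit 15808) (nb (nat_lit 1) (nat_lit 2432) (nat_lit 0))), (nb (nat_lit 6) (nat_lit 14592) (nb (nat_lit 2) (nat_lit 1216) (nat_lit 0)))⟩, ⟨(nat_lit 6), (nat_lit 46), (nb (nat_lit 1) (nat_lit 14592) (nb (nat_lit 1) (nat_lit 1216) (nat_lit 0))), (nb (nat_lit 2) (nat_lit 13376) (nat_lit 2))⟩, ⟨(nat_lit 12), (nat_lit 26), (nb (nat_lit 1) (nat_lit 15808) (nb (nat_lit 1) (nat_lit 2432) (nat_lit 0))), (nb (nat_lit 2) (nat_lit 14592) (nb (nat_lit 2) (nat_lit 1216) (nat_lit 0)))⟩, ⟨(nat_lit 16), (nat_lit 18), (nb (nat_lit 2) (nat_lit 29184) (nb (nat_lit 1) (nat_lit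 27968) (nb (nat_lit 3) (nat_lit 15808) (nb (nat_lit 1) (nat_lit 2432) (nat_lit 0))))), (nb (nat_lit 1) (nat_lit 14592) (nat_lit 0))⟩, ⟨(nat_lit 24), (nat_lit 28), (nb (nat_lit 3) (nat_lit 14592) (nb (nat_lit 2) (nat_lit 13376) (nat_lit 2))), (nb (nat_lit 2) (nat_lit 15808) (nb (nat_lit 1) (nat_lit 1216) (nat_lit 0)))⟩]⟩
def e1118 : En := ⟨(nat_lit 40), (nat_lit 273), (nat_lit 8), (nat_lit 15), [⟨(nat_lit 4), (nat_lit 20), (nb (nat_lit 2) (nat_lit 13376) (nat_lit 0)), (nat_lit 0)⟩, ⟨(nat_lit 6), (nat_lit 10), (nb (nat_lit 2) (nat_lit 14592) (nat_lit 0)), (nat_lit 0)⟩, ⟨(nat_lit 8), (nat_lit 28), (nb (nat_lit 2) (nat_lit 14592) (nat_lit 0)), (nb (nat_lit 2) (nat_lit 13376) (nat_lit 0))⟩]⟩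
def e1119 : En := ⟨(nat_lit 42), (nat_lit 65553), (nat_lit 8), (nat_lit 15), [⟨(nat_lit 0), (nat_lit 20), (nb (nat_lit 2) (nat_lit 14592) (nat_lit 0)), (nb (nat_lit 2) (nat_lit 13376) (nat_lit 0))⟩, ⟨(nat_lit 6), (nat_lit 22), (nb (nat_lit 2) (nat_lit 13376) (nat_lit 0)), (nat_lit 0)⟩, ⟨(nat_lit 8), (nat_lit 12), (nb (nat_lit 2) (nat_lit 14592) (nat_lit 0)), (nat_lit 0)⟩]⟩
def e1120 : En := ⟨(nat_lit 44), (nat_lit 69633), (nat_lit 8), (nat_lit 15), [⟨(nat_lit 0), (nat_lit 14), (nb (nat_lit 2) (nat_lit 14592) (nat_lit 0)), (nat_lit 0)⟩, ⟨(nat_lit 2), (nat_lit 22), (nb (nat_lit 2) (nat_lit 14592) (nat_lit 0)), (nb (nat_lit 2) (nat_lit 13376) (nat_lit 0))⟩, ⟨(nat_lit 8), (nat_lit 24), (nb (nat_lit 2) (nat_lit 13376) (nat_lit 0)), (nat_lit 0)⟩]⟩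
def e1121 : En := ⟨(nat_lit 46), (nat_lit 69888), (nat_lit 8), (nat_lit 15), [⟨(nat_lit 0), (nat_lit 26), (nb (nat_lit 2) (nat_lit 13376) (nat_lit 0)), (nat_lit 0)⟩, ⟨(nat_lit 2), (nat_lit 16), (nb (nat_lit 2) (nat_lit 14592) (nat_lit 0)), (nat_lit 0)⟩, ⟨(nat_lit 4), (nat_lit 24), (nb (nat_lit 2) (nat_lit 14592) (nat_lit 0)), (nb (nat_lit 2) (nat_lit 13376) (nat_lit 0))⟩]⟩
def e1122 : En := ⟨(nat_lit 48), (nat_lit 4368), (nat_lit 8), (nat_lit 15), [⟨(nat_lit 2), (nat_lit 28), (nb (nat_lit 2) (nat_lit 13376) (nat_lit 0)), (nat_lit 0)⟩, ⟨(nat_lit 4), (nat_lit 18), (nb (nat_lit 2) (nat_lit 14592) (nat_lit 0)), (nat_lit 0)⟩, ⟨(nat_lit 6), (nat_lit 26), (nb (nat_lit 2) (nat_lit 14592) (nat_lit 0)), (nb (nat_lit 2) (nat_lit 13376) (nat_lit 0))⟩]⟩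
def e1123 : En := ⟨(nat_lit 50), (nat_lit 4113), (nat_lit 8), (nat_lit 25), [⟨(nat_lit 2), (nat_lit 20), (nb (nat_lit 2) (nat_lit 13376) (nat_lit 0)), (nat_lit 0)⟩, ⟨(nat_lit 6), (nat_lit 14), (nb (nat_lit 2) (nat_lit 26752) (nat_lit 0)), (nat_lit 0)⟩, ⟨(nat_lit 8), (nat_lit 18), (nat_lit 0), (nb (nat_lit 2) (nat_lit 26752) (nb (nat_lit 2) (nat_lit 13376) (nat_lit 0)))⟩]⟩
def e1124 : En := ⟨(nat_lit 52), (nat_lit 65793), (nat_lit 8), (nat_lit 25), [⟨(nat_lit 0), (nat_lit 10), (nat_lit 0), (nb (nat_lit 2) (nat_lit 26752) (nb (nat_lit 2) (nat_lit 13376) (nat_lit 0)))⟩, ⟨(nat_lit 4), (nat_lit 22), (nb (nat_lit 2) (nat_lit 13376) (nat_lit 0)), (nat_lit 0)⟩, ⟨(nat_lit 8), (nat_lit 16), (nb (nat_lit 2) (nat_lit 26752) (nat_lit 0)), (nat_lit 0)⟩]⟩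
def e1125 : En := ⟨(nat_lit 54), (nat_lit 69648), (nat_lit 8), (nat_lit 25), [⟨(nat_lit 0), (nat_lit 18), (nb (nat_lit 2) (nat_lit 26752) (nat_lit 0)), (nat_lit 0)⟩, ⟨(nat_lit 2), (nat_lit 12), (nat_lit 0), (nb (nat_lit 2) (nat_lit 26752) (nb (nat_lit 2) (nat_lit 13376) (nat_lit 0)))⟩, ⟨(nat_lit 6), (nat_lit 24), (nb (nat_lit 2) (nat_lit 13376) (nat_lit 0)), (nat_lit 0)⟩]⟩
def e1126 : En := ⟨(nat_lit 56), (nat_lit 4353), (nat_lit 8), (nat_lit 25), [⟨(nat_lit 2), (nat_lit 10), (nb (nat_lit 2) (nat_lit 26752) (nat_lit 0)), (nat_lit 0)⟩, ⟨(nat_lit 4), (nat_lit 14), (nat_lit 0), (nb (nat_lit 2) (nat_lit 26752) (nb (nat_lit 2) (nat_lit 13376) (nat_lit 0)))⟩, ⟨(nat_lit 8), (nat_lit 26), (nb (nat_lit 2) (nat_lit 13376) (nat_lit 0)), (nat_lit 0)⟩]⟩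
def e1127 : En := ⟨(nat_lit 58), (nat_lit 65808), (nat_lit 8), (nat_lit 25), [⟨(nat_lit 0), (nat_lit 28), (nb (nat_lit 2) (nat_lit 13376) (nat_lit 0)), (nat_lit 0)⟩, ⟨(nat_lit 4), (nat_lit 12), (nb (nat_lit 2) (nat_lit 26752) (nat_lit 0)), (nat_lit 0)⟩, ⟨(nat_lit 6), (nat_lit 16), (nat_lit 0), (nb (nat_lit 2) (nat_lit 26752) (nb (nat_lit 2) (nat_lit 13376) (nat_lit 0)))⟩]⟩
def e1128 : En := ⟨(nat_lit 10), (nat_lit 257), (nat_lit 2), (nat_lit 5), [⟨(nat_lit 4), (nat_lit 8), (nb (nat_lit 2) (nat_lit 13376) (nat_lit 0)), (nat_lit 0)⟩]⟩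
def e1129 : En := ⟨(nat_lit 12), (nat_lit 65552), (nat_lit 2), (nat_lit 5), [⟨(nat_lit 0), (nat_lit 6), (nat_lit 0), (nb (nat_lit 2) (nat_lit 13376) (nat_lit 0))⟩]⟩
def e1130 : En := ⟨(nat_lit 14), (nat_lit 4097), (nat_lit 2), (nat_lit 5), [⟨(nat_lit 2), (nat_lit 8), (nat_lit 0), (nb (nat_lit 2) (nat_lit 13376) (nat_lit 0))⟩]⟩
def e1131 : En := ⟨(nat_lit 16), (nat_lit 65792), (nat_lit 2), (nat_lit 5), [⟨(nat_lit 0), (nat_lit 4), (nb (nat_lit 2) (nat_lit 13376) (nat_lit 0)), (nat_lit 0)⟩]⟩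
def e1132 : En := ⟨(nat_lit 18), (nat_lit 4112), (nat_lit 2), (nat_lit 5), [⟨(nat_lit 2), (nat_lit 6), (nb (nat_lit 2) (nat_lit 13376) (nat_lit 0)), (nat_lit 0)⟩]⟩
def e1133 : En := ⟨(nat_lit 20), (nat_lit 17), (nat_lit 2), (nat_lit 5), [⟨(nat_lit 6), (nat_lit 8), (nb (nat_lit 2) (nat_lit 13376) (nat_lit 0)), (nat_lit 0)⟩]⟩
def e1134 : En := ⟨(nat_lit 22), (nat_lit 65537), (nat_lit 2), (nat_lit 5), [⟨(nat_lit 0), (nat_lit 8), (nat_lit 0), (nb (nat_lit 2) (nat_lit 13376) (nat_lit 0))⟩]⟩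
def e1135 : En := ⟨(nat_lit 24), (nat_lit 69632), (nat_lit 2), (nat_lit 5), [⟨(nat_lit 0), (nat_lit 2), (nb (nat_lit 2) (nat_lit 13376) (nat_lit 0)), (nat_lit 0)⟩]⟩
def e1136 : En := ⟨(nat_lit 26), (nat_lit 4352), (nat_lit 2), (nat_lit 5), [⟨(nat_lit 2), (nat_lit 4), (nb (nat_lit 2) (nat_lit 13376) (nat_lit 0)), (nat_lit 0)⟩]⟩
def e1137 : En := ⟨(nat_lit 28), (nat_lit 272), (nat_lit 2), (nat_lit 5), [⟨(nat_lit 4), (nat_lit 6), (nb (nat_lit 2) (nat_lit 13376) (nat_lit 0)), (nat_lit 0)⟩]⟩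
def e1138 : En := ⟨(nat_lit 60), (nat_lit 4369), (nat_lit 16), (nat_lit 9), [⟨(nat_lit 4), (nat_lit 50), (nb (nat_lit 1) (nat_lit 1216) (nat_lit 2)), (nat_lit 0)⟩, ⟨(nat_lit 6), (nat_lit 56), (nat_lit 1), (nb (nat_lit 1) (nat_lit 1216) (nat_lit 0))⟩, ⟨(nat_lit 8), (nat_lit 48), (nat_lit 0), (nb (nat_lit 2) (nat_lit 1216) (nat_lit 1))⟩, ⟨(nat_lit 10), (nat_lit 18), (nb (nat_lit 1) (nat_lit 1216) (nat_lit 0)), (nb (nat_lit 1) (nat_lit 2432) (nat_lit 0))⟩, ⟨(nat_lit 14), (nat_lit 28), (nat_lit 0), (nb (nat_lit 2) (nat_lit 1216) (nat_lit 1))⟩, ⟨(nat_lit 20), (nat_lit 26), (nb (nat_lit 1) (nat_lit 1216) (nat_lit 2)), (nat_lit 0)⟩]⟩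
def e1139 : En := ⟨(nat_lit 62), (nat_lit 65809), (nat_lit 16), (nat_lit 9), [⟨(nat_lit 0), (nat_lit 40), (nat_lit 0), (nb (nat_lit 2) (nat_lit 1216) (nat_lit 1))⟩, ⟨(nat_lit 6), (nat_lit 52), (nb (nat_lit 1) (nat_lit 1216) (nat_lit 2)), (nat_lit 0)⟩, ⟨(nat_lit 8), (nat_lit 58), (nat_lit 1), (nb (nat_lit 1) (nat_lit 1216) (nat_lit 0))⟩, ⟨(nat_lit 10), (nat_lit 12), (nb (nat_lit 1) (nat_lit 2432) (nat_lit 0)), (nb (nat_lit 1) (nat_lit 1216) (nat_lit 0))⟩, ⟨(nat_lit 16), (nat_lit 20), (nat_lit 0), (nb (nat_lit 2) (nat_lit 1216) (nat_lit 1))⟩, ⟨(nat_lit 22), (nat_lit 28), (nb (nat_lit 1) (nat_lit 1216) (nat_lit 2)), (nat_lit 0)⟩]⟩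
def e1140 : En := ⟨(nat_lit 64), (nat_lit 69649), (nat_lit 16), (nat_lit 9), [⟨(nat_lit 0), (nat_lit 50), (nat_lit 1), (nb (nat_lit 1) (nat_lit 1216) (nat_lit 0))⟩, ⟨(nat_lit 2), (nat_lit 42), (nat_lit 0), (nb (nat_lit 2) (nat_lit 1216) (nat_lit 1))⟩, ⟨(nat_lit 8), (nat_lit 54), (nb (nat_lit 1) (nat_lit 1216) (nat_lit 2)), (nat_lit 0)⟩, ⟨(nat_lit 12), (nat_lit 14), (nb (nat_lit 1) (nat_lit 2432) (nat_lit 0)), (nb (nat_lit 1) (nat_lit 1216) (nat_lit 0))⟩, ⟨(nat_lit 18), (nat_lit 22), (nat_lit 0), (nb (nat_lit 2) (nat_lit 1216) (nat_lit 1))⟩, ⟨(nat_lit 20), (nat_lit 24), (nat_lit 0), (nb (nat_lit 1) (nat_lit 1216) (nat_lit 2))⟩]⟩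
def e1141 : En := ⟨(nat_lit 66), (nat_lit 69889), (nat_lit 16), (nat_lit 9), [⟨(nat_lit 0), (nat_lit 56), (nb (nat_lit 1) (nat_lit 1216) (nat_lit 2)), (nat_lit 0)⟩, ⟨(nat_lit 2), (nat_lit 52), (nat_lit 1), (nb (nat_lit 1) (nat_lit 1216) (nat_lit 0))⟩, ⟨(nat_lit 4), (nat_lit 44), (nat_lit 0), (nb (nat_lit 2) (nat_lit 1216) (nat_lit 1))⟩, ⟨(nat_lit 10), (nat_lit 24), (nat_lit 0), (nb (nat_lit 2) (nat_lit 1216) (nat_lit 1))⟩, ⟨(nat_lit 14), (nat_lit 16), (nb (nat_lit 1) (nat_lit 2432) (nat_lit 0)), (nb (nat_lit 1) (nat_lit 1216) (nat_lit 0))⟩, ⟨(nat_lit 22), (nat_lit 26), (nat_lit 0), (nb (nat_lit 1) (nat_lit 1216) (nat_lit 2))⟩]⟩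
def e1142 : En := ⟨(nat_lit 68), (nat_lit 69904), (nat_lit 16), (nat_lit 9), [⟨(nat_lit 2), (nat_lit 58), (nb (nat_lit 1) (nat_lit 1216) (nat_lit 2)), (nat_lit 0)⟩, ⟨(nat_lit 4), (nat_lit 54), (nat_lit 1), (nb (nat_lit 1) (nat_lit 1216) (nat_lit 0))⟩, ⟨(nat_lit 6), (nat_lit 46), (nat_lit 0), (nb (nat_lit 2) (nat_lit 1216) (nat_lit 1))⟩, ⟨(nat_lit 12), (nat_lit 26), (nat_lit 0), (nb (nat_lit 2) (nat_lit 1216) (nat_lit 1))⟩, ⟨(nat_lit 16), (nat_lit 18), (nb (nat_lit 1) (nat_lit 2432) (nat_lit 0)), (nb (nat_lit 1) (nat_lit 1216) (nat_lit 0))⟩, ⟨(nat_lit 24), (nat_lit 28), (nat_lit 0), (nb (nat_lit 1) (nat_lit 1216) (nat_lit 2))⟩]⟩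
def e1143 : En := ⟨(nat_lit 40), (nat_lit 273), (nat_lit 4), (nat_lit 1), [⟨(nat_lit 4), (nat_lit 20), (nat_lit 1), (nat_lit 0)⟩, ⟨(nat_lit 6), (nat_lit 10), (nat_lit 2), (nat_lit 0)⟩, ⟨(nat_lit 8), (nat_lit 28), (nat_lit 1), (nat_lit 0)⟩]⟩
def e1144 : En := ⟨(nat_lit 42), (nat_lit 65553), (nat_lit 4), (nat_lit 1), [⟨(nat_lit 0), (nat_lit 20), (nat_lit 1), (nat_lit 0)⟩, ⟨(nat_lit 6), (nat_lit 22), (nat_lit 1), (nat_lit 0)⟩, ⟨(nat_lit 8), (nat_lit 12), (nat_lit 2), (nat_lit 0)⟩]⟩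
def e1145 : En := ⟨(nat_lit 44), (nat_lit 69633), (nat_lit 4), (nat_lit 1), [⟨(nat_lit 0), (nat_lit 14), (nat_lit 2), (nat_lit 0)⟩, ⟨(nat_lit 2), (nat_lit 22), (nat_lit 1), (nat_lit 0)⟩, ⟨(nat_lit 8), (nat_lit 24), (nat_lit 1), (nat_lit 0)⟩]⟩
def e1146 : En := ⟨(nat_lit 46), (nat_lit 69888), (nat_lit 4), (nat_lit 1), [⟨(nat_lit 0), (nat_lit 26), (nat_lit 1), (nat_lit 0)⟩, ⟨(nat_lit 2), (nat_lit 16), (nat_lit 2), (nat_lit 0)⟩, ⟨(nat_lit 4), (nat_lit 24), (nat_lit 1), (nat_lit 0)⟩]⟩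
def e1147 : En := ⟨(nat_lit 48), (nat_lit 4368), (nat_lit 4), (nat_lit 1), [⟨(nat_lit 2), (nat_lit 28), (nat_lit 1), (nat_lit 0)⟩, ⟨(nat_lit 4), (nat_lit 18), (nat_lit 2), (nat_lit 0)⟩, ⟨(nat_lit 6), (nat_lit 26), (nat_lit 1), (nat_lit 0)⟩]⟩
def e1148 : En := ⟨(nat_lit 60), (nat_lit 4369), (nat_lit 21), (nat_lit 45), [⟨(nat_lit 2), (nat_lit 40), (nat_lit 1), (nat_lit 0)⟩, ⟨(nat_lit 4), (nat_lit 50), (nb (nat_lit 1) (nat_lit 14592) (nb (nat_lit 2) (nat_lit 13376) (nat_lit 0))), (nat_lit 0)⟩, ⟨(nat_lit 6), (nat_lit 56), (nb (nat_lit 1) (nat_lit 13376) (nat_lit 0)), (nb (nat_lit 1) (nat_lit 14592) (nat_lit 0))⟩, ⟨(nat_lit 8), (nat_lit 48), (nat_lit 1), (nb (nat_lit 2) (nat_lit 14592) (nb (nat_lit 1) (nat_lit 13376) (nat_lit 0)))⟩, ⟨(nat_lit 10), (nat_lit 18), (nb (nat_lit 1) (nat_lit 14592) (nat_lit 0)), (nb (nat_lit 1) (nat_lit 15808) (nat_lit 2))⟩, ⟨(nat_lit 14), (nat_lit 28), (nat_lit 0), (nb (nat_lit 2) (nat_lit 14592) (nb (nat_lit 1) (nat_lit 13376)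 (nat_lit 0)))⟩, ⟨(nat_lit 20), (nat_lit 26), (nb (nat_lit 1) (nat_lit 14592) (nb (nat_lit 2) (nat_lit 13376) (nat_lit 0))), (nat_lit 1)⟩]⟩
def e1149 : En := ⟨(nat_lit 62), (nat_lit 65809), (nat_lit 21), (nat_lit 45), [⟨(nat_lit 0), (nat_lit 40), (nat_lit 1), (nb (nat_lit 2) (nat_lit 14592) (nb (nat_lit 1) (nat_lit 13376) (nat_lit 0)))⟩, ⟨(nat_lit 4), (nat_lit 42), (nat_lit 1), (nat_lit 0)⟩, ⟨(nat_lit 6), (nat_lit 52), (nb (nat_lit 1) (nat_lit 14592) (nb (nat_lit 2) (nat_lit 13376) (nat_lit 0))), (nat_lit 0)⟩, ⟨(nat_lit 8), (nat_lit 58), (nb (nat_lit 1) (nat_lit 13376) (nat_lit 0)), (nb (nat_lit 1) (nat_lit 14592) (nat_lit 0))⟩, ⟨(nat_lit 10), (nat_lit 12), (nb (nat_lit 1) (nat_lit 15808) (nat_lit 2)), (nb (nat_lit 1) (nat_lit 14592) (nat_lit 0))⟩, ⟨(nat_lit 16), (nat_lit 20), (nat_lit 0), (nb (nat_lit 2) (nat_lit 14592) (nb (nat_lit 1) (nat_lit 13376) (nat_lit 0)))⟩, ⟨(nat_lit 22), (nat_lit 28), (nb (nat_lit 1) (nat_lit 14592) (nb (nat_lit 2) (nat_lit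 13376) (nat_lit 0))), (nat_lit 1)⟩]⟩
def e1150 : En := ⟨(nat_lit 64), (nat_lit 69649), (nat_lit 21), (nat_lit 45), [⟨(nat_lit 0), (nat_lit 50), (nb (nat_lit 1) (nat_lit 13376) (nat_lit 0)), (nb (nat_lit 1) (nat_lit 14592) (nat_lit 0))⟩, ⟨(nat_lit 2), (nat_lit 42), (nat_lit 1), (nb (nat_lit 2) (nat_lit 14592) (nb (nat_lit 1) (nat_lit 13376) (nat_lit 0)))⟩, ⟨(nat_lit 6), (nat_lit 44), (nat_lit 1), (nat_lit 0)⟩, ⟨(nat_lit 8), (nat_lit 54), (nb (nat_lit 1) (nat_lit 14592) (nb (nat_lit 2) (nat_lit 13376) (nat_lit 0))), (nat_lit 0)⟩, ⟨(nat_lit 12), (nat_lit 14), (nb (nat_lit 1) (nat_lit 15808) (nat_lit 2)), (nb (nat_lit 1) (nat_lit 14592) (nat_lit 0))⟩, ⟨(nat_lit 18), (nat_lit 22), (nat_lit 0), (nb (nat_lit 2) (nat_lit 14592) (nb (nat_lit 1) (nat_lit 13376) (nat_lit 0)))⟩, ⟨(nat_lit 20), (nat_lit 24), (nat_lit 1), (nb (nat_lit 1) (nat_lit 14592) (nb (nat_lit 2) (nat_lit 13376) (nat_lit 0)))⟩]⟩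
def e1151 : En := ⟨(nat_lit 66), (nat_lit 69889), (nat_lit 21), (nat_lit 45), [⟨(nat_lit 0), (nat_lit 56), (nb (nat_lit 1) (nat_lit 14592) (nb (nat_lit 2) (nat_lit 13376) (nat_lit 0))), (nat_lit 0)⟩, ⟨(nat_lit 2), (nat_lit 52), (nb (nat_lit 1) (nat_lit 13376) (nat_lit 0)), (nb (nat_lit 1) (nat_lit 14592) (nat_lit 0))⟩, ⟨(nat_lit 4), (nat_lit 44), (nat_lit 1), (nb (nat_lit 2) (nat_lit 14592) (nb (nat_lit 1) (nat_lit 13376) (nat_lit 0)))⟩, ⟨(nat_lit 8), (nat_lit 46), (nat_lit 1), (nat_lit 0)⟩, ⟨(nat_lit 10), (nat_lit 24), (nat_lit 0), (nb (nat_lit 2) (nat_lit 14592) (nb (nat_lit 1) (nat_lit 13376) (nat_lit 0)))⟩, ⟨(nat_lit 14), (nat_lit 16), (nb (nat_lit 1) (nat_lit 15808) (nat_lit 2)), (nb (nat_lit 1) (nat_lit 14592) (nat_lit 0))⟩, ⟨(nat_lit 22), (nat_lit 26), (nat_lit 1), (nb (nat_lit 1) (nat_lit 14592) (nb (nat_lit 2) (nat_lit 13376) (nat_lit 0)))⟩]⟩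
def e1152 : En := ⟨(nat_lit 68), (nat_lit 69904), (nat_lit 21), (nat_lit 45), [⟨(nat_lit 0), (nat_lit 48), (nat_lit 1), (nat_lit 0)⟩, ⟨(nat_lit 2), (nat_lit 58), (nb (nat_lit 1) (nat_lit 14592) (nb (nat_lit 2) (nat_lit 13376) (nat_lit 0))), (nat_lit 0)⟩, ⟨(nat_lit 4), (nat_lit 54), (nb (nat_lit 1) (nat_lit 13376) (nat_lit 0)), (nb (nat_lit 1) (nat_lit 14592) (nat_lit 0))⟩, ⟨(nat_lit 6), (nat_lit 46), (nat_lit 1), (nb (nat_lit 2) (nat_lit 14592) (nb (nat_lit 1) (nat_lit 13376) (nat_lit 0)))⟩, ⟨(nat_lit 12), (nat_lit 26), (nat_lit 0), (nb (nat_lit 2) (nat_lit 14592) (nb (nat_lit 1) (nat_lit 13376) (nat_lit 0)))⟩, ⟨(nat_lit 16), (nat_lit 18), (nb (nat_lit 1) (nat_lit 15808) (nat_lit 2)), (nb (nat_lit 1) (nat_lit 14592) (nat_lit 0))⟩, ⟨(nat_lit 24), (nat_lit 28), (nat_lit 1), (nb (nat_lit 1) (nat_lit 14592) (nb (nat_lit 2) (nat_lit 13376) (nat_lit 0)))⟩]⟩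
def e1153 : En := ⟨(nat_lit 60), (nat_lit 4369), (nat_lit 255), (nat_lit 72), [⟨(nat_lit 2), (nat_lit 40), (nat_lit 0x6000000000000000300000000000000030000000000000000), (nb (nat_lit 11) (nat_lit 1216) (nat_lit 4))⟩, ⟨(nat_lit 4), (nat_lit 50), (nb (nat_lit 0x20000000000000006) (nat_lit 1344) (nb (nat_lit 0x4000000000000000c) (nat_lit 128) (nat_lit 0))), (nb (nat_lit 4) (nat_lit 1216) (nat_lit 8))⟩, ⟨(nat_lit 6), (nat_lit 56), (nb (nat_lit 4) (nat_lit 1216) (nb (nat_lit 0x20000000000000006) (nat_lit 128) (nat_lit 0))), (nb (nat_lit 0x20000000000000006) (nat_lit 1344) (nat_lit 4))⟩, ⟨(nat_lit 8), (nat_lit 48), (nat_lit 0x4000000000000000000000000000000030000000000000000), (nb (nat_lit 0x4000000000000000c00000000000000000000000000000003) (nat_lit 1216) (nb (nat_lit 3) (nat_lit 128) (nat_lit 0)))⟩, ⟨(nat_lit 10), (nat_lit 18), (nb (nat_lit 4) (nat_lit 2432) (nb (nat_lit 0x2000000000000000600000000000000000000000000000012) (nat_lit 1216) (nat_lit 8))),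 (nb (nat_lit 0x20000000000000006) (nat_lit 2560) (nb (nat_lit 0xc00000000000000060000000000000006) (nat_lit 64) (nat_lit 0)))⟩, ⟨(nat_lit 14), (nat_lit 28), (nb (nat_lit 8) (nat_lit 1216) (nat_lit 4)), (nb (nat_lit 0x4000000000000000c) (nat_lit 1344) (nb (nat_lit 0x20000000000000006) (nat_lit 128) (nat_lit 0)))⟩, ⟨(nat_lit 20), (nat_lit 26), (nb (nat_lit 0x2000000000000000600000000000000000000000000000007) (nat_lit 1216) (nb (nat_lit 9) (nat_lit 128) (nat_lit 0))), (nat_lit 0x2000000000000000000000000000000030000000000000004)⟩]⟩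
def e1154 : En := ⟨(nat_lit 62), (nat_lit 65809), (nat_lit 255), (nat_lit 72), [⟨(nat_lit 0), (nat_lit 40), (nat_lit 0x4000000000000000000000000000000030000000000000000), (nb (nat_lit 0x4000000000000000c00000000000000000000000000000003) (nat_lit 1216) (nb (nat_lit 3) (nat_lit 128) (nat_lit 0)))⟩, ⟨(nat_lit 4), (nat_lit 42), (nat_lit 0x6000000000000000300000000000000030000000000000000), (nb (nat_lit 11) (nat_lit 1216) (nat_lit 4))⟩, ⟨(nat_lit 6), (nat_lit 52), (nb (nat_lit 0x20000000000000006) (nat_lit 1344) (nb (nat_lit 0x4000000000000000c) (nat_lit 128) (nat_lit 0))), (nb (nat_lit 4) (nat_lit 1216) (nat_lit 8))⟩, ⟨(nat_lit 8), (nat_lit 58), (nb (nat_lit 4) (nat_lit 1216) (nb (nat_lit 0x20000000000000006) (nat_lit 128) (nat_lit 0))), (nb (nat_lit 0x20000000000000006) (nat_lit 1344) (nat_lit 4))⟩, ⟨(nat_lit 10), (nat_lit 12), (nb (nat_lit 0x20000000000000006) (nat_lit 2560) (nb (nat_lit 0xc00000000000000060000000000000006) (nat_lit 64) (nat_lit 0))),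 (nb (nat_lit 4) (nat_lit 2432) (nb (nat_lit 0x2000000000000000600000000000000000000000000000012) (nat_lit 1216) (nat_lit 8)))⟩, ⟨(nat_lit 16), (nat_lit 20), (nb (nat_lit 8) (nat_lit 1216) (nat_lit 4)), (nb (nat_lit 0x4000000000000000c) (nat_lit 1344) (nb (nat_lit 0x20000000000000006) (nat_lit 128) (nat_lit 0)))⟩, ⟨(nat_lit 22), (nat_lit 28), (nb (nat_lit 0x2000000000000000600000000000000000000000000000007) (nat_lit 1216) (nb (nat_lit 9) (nat_lit 128) (nat_lit 0))), (nat_lit 0x2000000000000000000000000000000030000000000000004)⟩]⟩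
def e1155 : En := ⟨(nat_lit 64), (nat_lit 69649), (nat_lit 255), (nat_lit 72), [⟨(nat_lit 0), (nat_lit 50), (nb (nat_lit 4) (nat_lit 1216) (nb (nat_lit 0x20000000000000006) (nat_lit 128) (nat_lit 0))), (nb (nat_lit 0x20000000000000006) (nat_lit 1344) (nat_lit 4))⟩, ⟨(nat_lit 2), (nat_lit 42), (nat_lit 0x4000000000000000000000000000000030000000000000000), (nb (nat_lit 0x4000000000000000c00000000000000000000000000000003) (nat_lit 1216) (nb (nat_lit 3) (nat_lit 128) (nat_lit 0)))⟩, ⟨(nat_lit 6), (nat_lit 44), (nat_lit 0x6000000000000000300000000000000030000000000000000), (nb (nat_lit 11) (nat_lit 1216) (nat_lit 4))⟩, ⟨(nat_lit 8), (nat_lit 54), (nb (nat_lit 0x20000000000000006) (nat_lit 1344) (nb (nat_lit 0x4000000000000000c) (nat_lit 128) (nat_lit 0))), (nb (nat_lit 4) (nat_lit 1216) (nat_lit 8))⟩, ⟨(nat_lit 12), (nat_lit 14), (nb (nat_lit 0x20000000000000006) (nat_lit 2560) (nb (nat_lit 0xc00000000000000060000000000000006) (nat_lit 64) (nat_lit 0))),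 (nb (nat_lit 4) (nat_lit 2432) (nb (nat_lit 0x2000000000000000600000000000000000000000000000012) (nat_lit 1216) (nat_lit 8)))⟩, ⟨(nat_lit 18), (nat_lit 22), (nb (nat_lit 8) (nat_lit 1216) (nat_lit 4)), (nb (nat_lit 0x4000000000000000c) (nat_lit 1344) (nb (nat_lit 0x20000000000000006) (nat_lit 128) (nat_lit 0)))⟩, ⟨(nat_lit 20), (nat_lit 24), (nat_lit 0x2000000000000000000000000000000030000000000000004), (nb (nat_lit 0x2000000000000000600000000000000000000000000000007) (nat_lit 1216) (nb (nat_lit 9) (nat_lit 128) (nat_lit 0)))⟩]⟩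
def e1156 : En := ⟨(nat_lit 66), (nat_lit 69889), (nat_lit 255), (nat_lit 72), [⟨(nat_lit 0), (nat_lit 56), (nb (nat_lit 0x20000000000000006) (nat_lit 1344) (nb (nat_lit 0x4000000000000000c) (nat_lit 128) (nat_lit 0))), (nb (nat_lit 4) (nat_lit 1216) (nat_lit 8))⟩, ⟨(nat_lit 2), (nat_lit 52), (nb (nat_lit 4) (nat_lit 1216) (nb (nat_lit 0x20000000000000006) (nat_lit 128) (nat_lit 0))), (nb (nat_lit 0x20000000000000006) (nat_lit 1344) (nat_lit 4))⟩, ⟨(nat_lit 4), (nat_lit 44), (nat_lit 0x4000000000000000000000000000000030000000000000000), (nb (nat_lit 0x4000000000000000c00000000000000000000000000000003) (nat_lit 1216) (nb (nat_lit 3) (nat_lit 128) (nat_lit 0)))⟩, ⟨(nat_lit 8), (nat_lit 46), (nat_lit 0x6000000000000000300000000000000030000000000000000), (nb (nat_lit 11) (nat_lit 1216) (nat_lit 4))⟩, ⟨(nat_lit 10), (nat_lit 24), (nb (nat_lit 8) (nat_lit 1216) (nat_lit 4)), (nb (nat_lit 0x4000000000000000c) (nat_lit 1344) (nb (nat_lit 0x20000000000000006)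 (nat_lit 128) (nat_lit 0)))⟩, ⟨(nat_lit 14), (nat_lit 16), (nb (nat_lit 0x20000000000000006) (nat_lit 2560) (nb (nat_lit 0xc00000000000000060000000000000006) (nat_lit 64) (nat_lit 0))), (nb (nat_lit 4) (nat_lit 2432) (nb (nat_lit 0x2000000000000000600000000000000000000000000000012) (nat_lit 1216) (nat_lit 8)))⟩, ⟨(nat_lit 22), (nat_lit 26), (nat_lit 0x2000000000000000000000000000000030000000000000004), (nb (nat_lit 0x2000000000000000600000000000000000000000000000007) (nat_lit 1216) (nb (nat_lit 9) (nat_lit 128) (nat_lit 0)))⟩]⟩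
def e1157 : En := ⟨(nat_lit 68), (nat_lit 69904), (nat_lit 255), (nat_lit 72), [⟨(nat_lit 0), (nat_lit 48), (nat_lit 0x6000000000000000300000000000000030000000000000000), (nb (nat_lit 11) (nat_lit 1216) (nat_lit 4))⟩, ⟨(nat_lit 2), (nat_lit 58), (nb (nat_lit 0x20000000000000006) (nat_lit 1344) (nb (nat_lit 0x4000000000000000c) (nat_lit 128) (nat_lit 0))), (nb (nat_lit 4) (nat_lit 1216) (nat_lit 8))⟩, ⟨(nat_lit 4), (nat_lit 54), (nb (nat_lit 4) (nat_lit 1216) (nb (nat_lit 0x20000000000000006) (nat_lit 128) (nat_lit 0))), (nb (nat_lit 0x20000000000000006) (nat_lit 1344) (nat_lit 4))⟩, ⟨(nat_lit 6), (nat_lit 46), (nat_lit 0x4000000000000000000000000000000030000000000000000), (nb (nat_lit 0x4000000000000000c00000000000000000000000000000003) (nat_lit 1216) (nb (nat_lit 3) (nat_lit 128) (nat_lit 0)))⟩, ⟨(nat_lit 12), (nat_lit 26), (nb (nat_lit 8) (nat_lit 1216) (nat_lit 4)), (nb (nat_lit 0x4000000000000000c) (nat_lit 1344) (nb (nat_lit 0x20000000000000006)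 (nat_lit 128) (nat_lit 0)))⟩, ⟨(nat_lit 16), (nat_lit 18), (nb (nat_lit 0x20000000000000006) (nat_lit 2560) (nb (nat_lit 0xc00000000000000060000000000000006) (nat_lit 64) (nat_lit 0))), (nb (nat_lit 4) (nat_lit 2432) (nb (nat_lit 0x2000000000000000600000000000000000000000000000012) (nat_lit 1216) (nat_lit 8)))⟩, ⟨(nat_lit 24), (nat_lit 28), (nat_lit 0x2000000000000000000000000000000030000000000000004), (nb (nat_lit 0x2000000000000000600000000000000000000000000000007) (nat_lit 1216) (nb (nat_lit 9) (nat_lit 128) (nat_lit 0)))⟩]⟩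
def e1158 : En := ⟨(nat_lit 40), (nat_lit 273), (nat_lit 108), (nat_lit 24), [⟨(nat_lit 4), (nat_lit 20), (nat_lit 0x6000000000000000300000000000000030000000000000000), (nb (nat_lit 11) (nat_lit 1216) (nat_lit 4))⟩, ⟨(nat_lit 6), (nat_lit 10), (nat_lit 0xc000000000000000600000000000000060000000000000000), (nb (nat_lit 22) (nat_lit 1216) (nat_lit 8))⟩, ⟨(nat_lit 8), (nat_lit 28), (nat_lit 0x6000000000000000300000000000000030000000000000000), (nb (nat_lit 11) (nat_lit 1216) (nat_lit 4))⟩]⟩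
def e1159 : En := ⟨(nat_lit 42), (nat_lit 65553), (nat_lit 108), (nat_lit 24), [⟨(nat_lit 0), (nat_lit 20), (nat_lit 0x6000000000000000300000000000000030000000000000000), (nb (nat_lit 11) (nat_lit 1216) (nat_lit 4))⟩, ⟨(nat_lit 6), (nat_lit 22), (nat_lit 0x6000000000000000300000000000000030000000000000000), (nb (nat_lit 11) (nat_lit 1216) (nat_lit 4))⟩, ⟨(nat_lit 8), (nat_lit 12), (nat_lit 0xc000000000000000600000000000000060000000000000000), (nb (nat_lit 22) (nat_lit 1216) (nat_lit 8))⟩]⟩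
def e1160 : En := ⟨(nat_lit 44), (nat_lit 69633), (nat_lit 108), (nat_lit 24), [⟨(nat_lit 0), (nat_lit 14), (nat_lit 0xc000000000000000600000000000000060000000000000000), (nb (nat_lit 22) (nat_lit 1216) (nat_lit 8))⟩, ⟨(nat_lit 2), (nat_lit 22), (nat_lit 0x6000000000000000300000000000000030000000000000000), (nb (nat_lit 11) (nat_lit 1216) (nat_lit 4))⟩, ⟨(nat_lit 8), (nat_lit 24), (nat_lit 0x6000000000000000300000000000000030000000000000000), (nb (nat_lit 11) (nat_lit 1216) (nat_lit 4))⟩]⟩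
def e1161 : En := ⟨(nat_lit 46), (nat_lit 69888), (nat_lit 108), (nat_lit 24), [⟨(nat_lit 0), (nat_lit 26), (nat_lit 0x6000000000000000300000000000000030000000000000000), (nb (nat_lit 11) (nat_lit 1216) (nat_lit 4))⟩, ⟨(nat_lit 2), (nat_lit 16), (nat_lit 0xc000000000000000600000000000000060000000000000000), (nb (nat_lit 22) (nat_lit 1216) (nat_lit 8))⟩, ⟨(nat_lit 4), (nat_lit 24), (nat_lit 0x6000000000000000300000000000000030000000000000000), (nb (nat_lit 11) (nat_lit 1216) (nat_lit 4))⟩]⟩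
def e1162 : En := ⟨(nat_lit 48), (nat_lit 4368), (nat_lit 108), (nat_lit 24), [⟨(nat_lit 2), (nat_lit 28), (nat_lit 0x6000000000000000300000000000000030000000000000000), (nb (nat_lit 11) (nat_lit 1216) (nat_lit 4))⟩, ⟨(nat_lit 4), (nat_lit 18), (nat_lit 0xc000000000000000600000000000000060000000000000000), (nb (nat_lit 22) (nat_lit 1216) (nat_lit 8))⟩, ⟨(nat_lit 6), (nat_lit 26), (nat_lit 0x6000000000000000300000000000000030000000000000000), (nb (nat_lit 11) (nat_lit 1216) (nat_lit 4))⟩]⟩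
def e1163 : En := ⟨(nat_lit 50), (nat_lit 4113), (nat_lit 108), (nat_lit 72), [⟨(nat_lit 2), (nat_lit 20), (nat_lit 0x6000000000000000300000000000000030000000000000000), (nb (nat_lit 11) (nat_lit 1216) (nat_lit 4))⟩, ⟨(nat_lit 6), (nat_lit 14), (nb (nat_lit 0x600000000000000030000000000000003) (nat_lit 1280) (nat_lit 0)), (nb (nat_lit 11) (nat_lit 2432) (nb (nat_lit 4) (nat_lit 1216) (nat_lit 0)))⟩, ⟨(nat_lit 8), (nat_lit 18), (nb (nat_lit 11) (nat_lit 2432) (nb (nat_lit 15) (nat_lit 1216) (nat_lit 4))), (nb (nat_lit 0x600000000000000030000000000000003) (nat_lit 1280) (nb (nat_lit 0x600000000000000030000000000000003) (nat_lit 64) (nat_lit 0)))⟩]⟩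
def e1164 : En := ⟨(nat_lit 52), (nat_lit 65793), (nat_lit 108), (nat_lit 72), [⟨(nat_lit 0), (nat_lit 10), (nb (nat_lit 11) (nat_lit 2432) (nb (nat_lit 15) (nat_lit 1216) (nat_lit 4))), (nb (nat_lit 0x600000000000000030000000000000003) (nat_lit 1280) (nb (nat_lit 0x600000000000000030000000000000003) (nat_lit 64) (nat_lit 0)))⟩, ⟨(nat_lit 4), (nat_lit 22), (nat_lit 0x6000000000000000300000000000000030000000000000000), (nb (nat_lit 11) (nat_lit 1216) (nat_lit 4))⟩, ⟨(nat_lit 8), (nat_lit 16), (nb (nat_lit 0x600000000000000030000000000000003) (nat_lit 1280) (nat_lit 0)), (nb (nat_lit 11) (nat_lit 2432) (nb (nat_lit 4) (nat_lit 1216) (nat_lit 0)))⟩]⟩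
def e1165 : En := ⟨(nat_lit 54), (nat_lit 69648), (nat_lit 108), (nat_lit 72), [⟨(nat_lit 0), (nat_lit 18), (nb (nat_lit 0x600000000000000030000000000000003) (nat_lit 1280) (nat_lit 0)), (nb (nat_lit 11) (nat_lit 2432) (nb (nat_lit 4) (nat_lit 1216) (nat_lit 0)))⟩, ⟨(nat_lit 2), (nat_lit 12), (nb (nat_lit 11) (nat_lit 2432) (nb (nat_lit 15) (nat_lit 1216) (nat_lit 4))), (nb (nat_lit 0x600000000000000030000000000000003) (nat_lit 1280) (nb (nat_lit 0x600000000000000030000000000000003) (nat_lit 64) (nat_lit 0)))⟩, ⟨(nat_lit 6), (nat_lit 24), (nat_lit 0x6000000000000000300000000000000030000000000000000), (nb (nat_lit 11) (nat_lit 1216) (nat_lit 4))⟩]⟩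
def e1166 : En := ⟨(nat_lit 56), (nat_lit 4353), (nat_lit 108), (nat_lit 72), [⟨(nat_lit 2), (nat_lit 10), (nb (nat_lit 0x600000000000000030000000000000003) (nat_lit 1280) (nat_lit 0)), (nb (nat_lit 11) (nat_lit 2432) (nb (nat_lit 4) (nat_lit 1216) (nat_lit 0)))⟩, ⟨(nat_lit 4), (nat_lit 14), (nb (nat_lit 11) (nat_lit 2432) (nb (nat_lit 15) (nat_lit 1216) (nat_lit 4))), (nb (nat_lit 0x600000000000000030000000000000003) (nat_lit 1280) (nb (nat_lit 0x600000000000000030000000000000003) (nat_lit 64) (nat_lit 0)))⟩, ⟨(nat_lit 8), (nat_lit 26), (nat_lit 0x6000000000000000300000000000000030000000000000000), (nb (nat_lit 11) (nat_lit 1216) (nat_lit 4))⟩]⟩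
def e1167 : En := ⟨(nat_lit 58), (nat_lit 65808), (nat_lit 108), (nat_lit 72), [⟨(nat_lit 0), (nat_lit 28), (nat_lit 0x6000000000000000300000000000000030000000000000000), (nb (nat_lit 11) (nat_lit 1216) (nat_lit 4))⟩, ⟨(nat_lit 4), (nat_lit 12), (nb (nat_lit 0x600000000000000030000000000000003) (nat_lit 1280) (nat_lit 0)), (nb (nat_lit 11) (nat_lit 2432) (nb (nat_lit 4) (nat_lit 1216) (nat_lit 0)))⟩, ⟨(nat_lit 6), (nat_lit 16), (nb (nat_lit 11) (nat_lit 2432) (nb (nat_lit 15) (nat_lit 1216) (nat_lit 4))), (nb (nat_lit 0x600000000000000030000000000000003) (nat_lit 1280) (nb (nat_lit 0x600000000000000030000000000000003) (nat_lit 64) (nat_lit 0)))⟩]⟩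
def e1168 : En := ⟨(nat_lit 10), (nat_lit 257), (nat_lit 27), (nat_lit 24), [⟨(nat_lit 4), (nat_lit 8), (nat_lit 0x6000000000000000300000000000000030000000000000000), (nb (nat_lit 11) (nat_lit 1216) (nat_lit 4))⟩]⟩
def e1169 : En := ⟨(nat_lit 12), (nat_lit 65552), (nat_lit 27), (nat_lit 24), [⟨(nat_lit 0), (nat_lit 6), (nb (nat_lit 11) (nat_lit 1216) (nat_lit 4)), (nat_lit 0x6000000000000000300000000000000030000000000000000)⟩]⟩
def e1170 : En := ⟨(nat_lit 14), (nat_lit 4097), (nat_lit 27), (nat_lit 24), [⟨(nat_lit 2), (nat_lit 8), (nb (nat_lit 11) (nat_lit 1216) (nat_lit 4)), (nat_lit 0x6000000000000000300000000000000030000000000000000)⟩]⟩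
def e1171 : En := ⟨(nat_lit 16), (nat_lit 65792), (nat_lit 27), (nat_lit 24), [⟨(nat_lit 0), (nat_lit 4), (nat_lit 0x6000000000000000300000000000000030000000000000000), (nb (nat_lit 11) (nat_lit 1216) (nat_lit 4))⟩]⟩
def e1172 : En := ⟨(nat_lit 18), (nat_lit 4112), (nat_lit 27), (nat_lit 24), [⟨(nat_lit 2), (nat_lit 6), (nat_lit 0x6000000000000000300000000000000030000000000000000), (nb (nat_lit 11) (nat_lit 1216) (nat_lit 4))⟩]⟩
def e1173 : En := ⟨(nat_lit 20), (nat_lit 17), (nat_lit 27), (nat_lit 24), [⟨(nat_lit 6), (nat_lit 8), (nat_lit 0x6000000000000000300000000000000030000000000000000), (nb (nat_lit 11) (nat_lit 1216) (nat_lit 4))⟩]⟩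
def e1174 : En := ⟨(nat_lit 22), (nat_lit 65537), (nat_lit 27), (nat_lit 24), [⟨(nat_lit 0), (nat_lit 8), (nb (nat_lit 11) (nat_lit 1216) (nat_lit 4)), (nat_lit 0x6000000000000000300000000000000030000000000000000)⟩]⟩
def e1175 : En := ⟨(nat_lit 24), (nat_lit 69632), (nat_lit 27), (nat_lit 24), [⟨(nat_lit 0), (nat_lit 2), (nat_lit 0x6000000000000000300000000000000030000000000000000), (nb (nat_lit 11) (nat_lit 1216) (nat_lit 4))⟩]⟩
def e1176 : En := ⟨(nat_lit 26), (nat_lit 4352), (nat_lit 27), (nat_lit 24), [⟨(nat_lit 2), (nat_lit 4), (nat_lit 0x6000000000000000300000000000000030000000000000000), (nb (nat_lit 11) (nat_lit 1216) (nat_lit 4))⟩]⟩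
def e1177 : En := ⟨(nat_lit 28), (nat_lit 272), (nat_lit 27), (nat_lit 24), [⟨(nat_lit 4), (nat_lit 6), (nat_lit 0x6000000000000000300000000000000030000000000000000), (nb (nat_lit 11) (nat_lit 1216) (nat_lit 4))⟩]⟩
def e1178 : En := ⟨(nat_lit 75), (nat_lit 69905), (nat_lit 632), (nat_lit 24), [⟨(nat_lit 0), (nat_lit 60), (nat_lit 0x6000000000000000300000000000000030000000000000000), (nb (nat_lit 11) (nat_lit 1216) (nat_lit 4))⟩, ⟨(nat_lit 2), (nat_lit 62), (nat_lit 0x30000000000000000), (nb (nat_lit 11) (nat_lit 1408) (nb (nat_lit 0x70000000000000003) (nat_lit 128) (nat_lit 0)))⟩, ⟨(nat_lit 4), (nat_lit 64), (nat_lit 0), (nb (nat_lit 11) (nat_lit 1280) (nat_lit 0x30000000000000003000000000000000a0000000000000006))⟩, ⟨(nat_lit 6), (nat_lit 66), (nb (nat_lit 0xb000000000000000b000000000000000b000000000000000b) (nat_lit 1216) (nat_lit 0x4000000000000000a00000000000000070000000000000007)), (nat_lit 0)⟩, ⟨(nat_lit 8), (nat_lit 68), (nat_lit 3), (nb (nat_lit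 11) (nat_lit 1344) (nb (nat_lit 0x70000000000000003) (nat_lit 64) (nat_lit 0)))⟩, ⟨(nat_lit 10), (nat_lit 54), (nat_lit 0xe000000000000000600000000000000000000000000000000), (nb (nat_lit 0x2000000000000000c000000000000000c0000000000000006) (nat_lit 1216) (nb (nat_lit 6) (nat_lit 64) (nat_lit 0)))⟩, ⟨(nat_lit 12), (nat_lit 56), (nb (nat_lit 0x6000000000000000c000000000000000a) (nat_lit 1280) (nat_lit 0x600000000000000060000000000000014000000000000000c)), (nat_lit 0)⟩, ⟨(nat_lit 14), (nat_lit 58), (nb (nat_lit 2) (nat_lit 1216) (nat_lit 0)), (nb (nat_lit 0xa000000000000000a0000000000000004) (nat_lit 1280) (nat_lit 0x80000000000000014000000000000000e000000000000000e))⟩, ⟨(nat_lit 16), (nat_lit 50), (nb (nat_lit 0x60000000000000004) (nat_lit 1344) (nb (nat_lit 0xe0000000000000006) (nat_lit 64) (nat_lit 0))), (nb (nat_lit 0x60000000000000006) (nat_lit 1216) (nat_lit 6))⟩, ⟨(nat_lit 18), (nat_lit 52), (nb (nat_lit 0x6000000000000000c000000000000000a) (nat_lit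 1216) (nat_lit 8)), (nat_lit 0xc000000000000000600000000000000060000000000000000)⟩, ⟨(nat_lit 20), (nat_lit 46), (nb (nat_lit 0x200000000000000000000000000000003) (nat_lit 1216) (nb (nat_lit 0x70000000000000004) (nat_lit 64) (nat_lit 0))), (nb (nat_lit 0x100000000000000000000000000000001) (nat_lit 1280) (nb (nat_lit 2) (nat_lit 192) (nat_lit 0)))⟩, ⟨(nat_lit 22), (nat_lit 48), (nb (nat_lit 0x4000000000000000100000000000000000000000000000003) (nat_lit 1216) (nat_lit 3)), (nat_lit 0x4000000000000000400000000000000060000000000000000)⟩, ⟨(nat_lit 24), (nat_lit 40), (nb (nat_lit 0x3000000000000000000000000000000040000000000000001) (nat_lit 1216) (nat_lit 0x9000000000000000600000000000000020000000000000002)), (nat_lit 0)⟩, ⟨(nat_lit 26), (nat_lit 42), (nat_lit 0x70000000000000004), (nb (nat_lit 0x3000000000000000400000000000000010000000000000004) (nat_lit 1216) (nb (nat_lit 2) (nat_lit 128) (nat_lit 0)))⟩, ⟨(nat_lit 28), (nat_lit 44), (nb (nat_lit 1) (nat_lit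 1344) (nat_lit 0)), (nb (nat_lit 0x3000000000000000000000000000000020000000000000003) (nat_lit 1216) (nat_lit 0x3000000000000000700000000000000070000000000000009))⟩]⟩
def e1179 : En := ⟨(nat_lit 60), (nat_lit 4369), (nat_lit 289), (nat_lit 72), [⟨(nat_lit 2), (nat_lit 40), (nb (nat_lit 11) (nat_lit 1216) (nat_lit 0x300000000000000060000000000000003000000000000000a)), (nat_lit 0)⟩, ⟨(nat_lit 4), (nat_lit 50), (nb (nat_lit 0x2000000000000000200000000000000000000000000000006) (nat_lit 1216) (nat_lit 0x400000000000000040000000000000000000000000000000c)), (nb (nat_lit 4) (nat_lit 1280) (nb (nat_lit 8) (nat_lit 64) (nat_lit 0)))⟩, ⟨(nat_lit 6), (nat_lit 56), (nb (nat_lit 4) (nat_lit 1280) (nat_lit 0x2000000000000000200000000000000000000000000000006)), (nb (nat_lit 0x2000000000000000200000000000000000000000000000006) (nat_lit 1216) (nb (nat_lit 4) (nat_lit 64) (nat_lit 0)))⟩, ⟨(nat_lit 8), (nat_lit 48), (nb (nat_lit 8) (nat_lit 1280) (nat_lit 0x1000000000000000400000000000000070000000000000004)),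 (nb (nat_lit 0x4000000000000000400000000000000000000000000000001) (nat_lit 1216) (nat_lit 0))⟩, ⟨(nat_lit 10), (nat_lit 18), (nb (nat_lit 4) (nat_lit 2496) (nb (nat_lit 0x20000000000000002) (nat_lit 1344) (nat_lit 0))), (nb (nat_lit 0x2000000000000000200000000000000000000000000000006) (nat_lit 2432) (nb (nat_lit 0x40000000000000010) (nat_lit 1216) (nat_lit 0x6000000000000000c00000000000000060000000000000014)))⟩, ⟨(nat_lit 14), (nat_lit 28), (nb (nat_lit 8) (nat_lit 1280) (nb (nat_lit 4) (nat_lit 64) (nat_lit 0))), (nb (nat_lit 0x400000000000000040000000000000000000000000000000c) (nat_lit 1216) (nat_lit 0x2000000000000000200000000000000000000000000000006))⟩, ⟨(nat_lit 20), (nat_lit 26), (nb (nat_lit 0x20000000000000002) (nat_lit 1344) (nat_lit 0x1000000000000000000000000000000000000000000000002)), (nb (nat_lit 0x40000000000000005) (nat_lit 1216) (nb (nat_lit 0x2000000000000000b) (nat_lit 64) (nat_lit 0)))⟩]⟩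
def e1180 : En := ⟨(nat_lit 62), (nat_lit 65809), (nat_lit 289), (nat_lit 72), [⟨(nat_lit 0), (nat_lit 40), (nb (nat_lit 8) (nat_lit 1280) (nat_lit 0x1000000000000000400000000000000070000000000000004)), (nb (nat_lit 0x4000000000000000400000000000000000000000000000001) (nat_lit 1216) (nat_lit 0))⟩, ⟨(nat_lit 4), (nat_lit 42), (nb (nat_lit 11) (nat_lit 1216) (nat_lit 0x300000000000000060000000000000003000000000000000a)), (nat_lit 0)⟩, ⟨(nat_lit 6), (nat_lit 52), (nb (nat_lit 0x2000000000000000200000000000000000000000000000006) (nat_lit 1216) (nat_lit 0x400000000000000040000000000000000000000000000000c)), (nb (nat_lit 4) (nat_lit 1280) (nb (nat_lit 8) (nat_lit 64) (nat_lit 0)))⟩, ⟨(nat_lit 8), (nat_lit 58), (nb (nat_lit 4) (nat_lit 1280) (nat_lit 0x2000000000000000200000000000000000000000000000006)), (nb (nat_lit 0x2000000000000000200000000000000000000000000000006) (nat_lit 1216) (nb (nat_lit 4) (nat_lit 64) (nat_lit 0)))⟩, ⟨(nat_lit 10), (nat_lit 12),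 (nb (nat_lit 0x2000000000000000200000000000000000000000000000006) (nat_lit 2432) (nb (nat_lit 0x40000000000000010) (nat_lit 1216) (nat_lit 0x6000000000000000c00000000000000060000000000000014))), (nb (nat_lit 4) (nat_lit 2496) (nb (nat_lit 0x20000000000000002) (nat_lit 1344) (nat_lit 0)))⟩, ⟨(nat_lit 16), (nat_lit 20), (nb (nat_lit 8) (nat_lit 1280) (nb (nat_lit 4) (nat_lit 64) (nat_lit 0))), (nb (nat_lit 0x400000000000000040000000000000000000000000000000c) (nat_lit 1216) (nat_lit 0x2000000000000000200000000000000000000000000000006))⟩, ⟨(nat_lit 22), (nat_lit 28), (nb (nat_lit 0x20000000000000002) (nat_lit 1344) (nat_lit 0x1000000000000000000000000000000000000000000000002)), (nb (nat_lit 0x40000000000000005) (nat_lit 1216) (nb (nat_lit 0x2000000000000000b) (nat_lit 64) (nat_lit 0)))⟩]⟩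
def e1181 : En := ⟨(nat_lit 64), (nat_lit 69649), (nat_lit 289), (nat_lit 72), [⟨(nat_lit 0), (nat_lit 50), (nb (nat_lit 4) (nat_lit 1280) (nat_lit 0x2000000000000000200000000000000000000000000000006)), (nb (nat_lit 0x2000000000000000200000000000000000000000000000006) (nat_lit 1216) (nb (nat_lit 4) (nat_lit 64) (nat_lit 0)))⟩, ⟨(nat_lit 2), (nat_lit 42), (nb (nat_lit 8) (nat_lit 1280) (nat_lit 0x1000000000000000400000000000000070000000000000004)), (nb (nat_lit 0x4000000000000000400000000000000000000000000000001) (nat_lit 1216) (nat_lit 0))⟩, ⟨(nat_lit 6), (nat_lit 44), (nb (nat_lit 11) (nat_lit 1216) (nat_lit 0x300000000000000060000000000000003000000000000000a)), (nat_lit 0)⟩, ⟨(nat_lit 8), (nat_lit 54), (nb (nat_lit 0x2000000000000000200000000000000000000000000000006) (nat_lit 1216) (nat_lit 0x400000000000000040000000000000000000000000000000c)), (nb (nat_lit 4) (nat_lit 1280) (nb (nat_lit 8) (nat_lit 64) (nat_lit 0)))⟩, ⟨(nat_lit 12), (nat_lit 14),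 (nb (nat_lit 0x2000000000000000200000000000000000000000000000006) (nat_lit 2432) (nb (nat_lit 0x40000000000000010) (nat_lit 1216) (nat_lit 0x6000000000000000c00000000000000060000000000000014))), (nb (nat_lit 4) (nat_lit 2496) (nb (nat_lit 0x20000000000000002) (nat_lit 1344) (nat_lit 0)))⟩, ⟨(nat_lit 18), (nat_lit 22), (nb (nat_lit 8) (nat_lit 1280) (nb (nat_lit 4) (nat_lit 64) (nat_lit 0))), (nb (nat_lit 0x400000000000000040000000000000000000000000000000c) (nat_lit 1216) (nat_lit 0x2000000000000000200000000000000000000000000000006))⟩, ⟨(nat_lit 20), (nat_lit 24), (nb (nat_lit 0x40000000000000005) (nat_lit 1216) (nb (nat_lit 0x2000000000000000b) (nat_lit 64) (nat_lit 0))), (nb (nat_lit 0x20000000000000002) (nat_lit 1344) (nat_lit 0x1000000000000000000000000000000000000000000000002))⟩]⟩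
def e1182 : En := ⟨(nat_lit 66), (nat_lit 69889), (nat_lit 289), (nat_lit 72), [⟨(nat_lit 0), (nat_lit 56), (nb (nat_lit 0x2000000000000000200000000000000000000000000000006) (nat_lit 1216) (nat_lit 0x400000000000000040000000000000000000000000000000c)), (nb (nat_lit 4) (nat_lit 1280) (nb (nat_lit 8) (nat_lit 64) (nat_lit 0)))⟩, ⟨(nat_lit 2), (nat_lit 52), (nb (nat_lit 4) (nat_lit 1280) (nat_lit 0x2000000000000000200000000000000000000000000000006)), (nb (nat_lit 0x2000000000000000200000000000000000000000000000006) (nat_lit 1216) (nb (nat_lit 4) (nat_lit 64) (nat_lit 0)))⟩, ⟨(nat_lit 4), (nat_lit 44), (nb (nat_lit 8) (nat_lit 1280) (nat_lit 0x1000000000000000400000000000000070000000000000004)), (nb (nat_lit 0x4000000000000000400000000000000000000000000000001) (nat_lit 1216) (nat_lit 0))⟩, ⟨(nat_lit 8), (nat_lit 46), (nb (nat_lit 11) (nat_lit 1216) (nat_lit 0x300000000000000060000000000000003000000000000000a)), (nat_lit 0)⟩, ⟨(nat_lit 10), (nat_lit 24),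 (nb (nat_lit 8) (nat_lit 1280) (nb (nat_lit 4) (nat_lit 64) (nat_lit 0))), (nb (nat_lit 0x400000000000000040000000000000000000000000000000c) (nat_lit 1216) (nat_lit 0x2000000000000000200000000000000000000000000000006))⟩, ⟨(nat_lit 14), (nat_lit 16), (nb (nat_lit 0x2000000000000000200000000000000000000000000000006) (nat_lit 2432) (nb (nat_lit 0x40000000000000010) (nat_lit 1216) (nat_lit 0x6000000000000000c00000000000000060000000000000014))), (nb (nat_lit 4) (nat_lit 2496) (nb (nat_lit 0x20000000000000002) (nat_lit 1344) (nat_lit 0)))⟩, ⟨(nat_lit 22), (nat_lit 26), (nb (nat_lit 0x40000000000000005) (nat_lit 1216) (nb (nat_lit 0x2000000000000000b) (nat_lit 64) (nat_lit 0))), (nb (nat_lit 0x20000000000000002) (nat_lit 1344) (nat_lit 0x1000000000000000000000000000000000000000000000002))⟩]⟩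
def e1183 : En := ⟨(nat_lit 68), (nat_lit 69904), (nat_lit 289), (nat_lit 72), [⟨(nat_lit 0), (nat_lit 48), (nb (nat_lit 11) (nat_lit 1216) (nat_lit 0x300000000000000060000000000000003000000000000000a)), (nat_lit 0)⟩, ⟨(nat_lit 2), (nat_lit 58), (nb (nat_lit 0x2000000000000000200000000000000000000000000000006) (nat_lit 1216) (nat_lit 0x400000000000000040000000000000000000000000000000c)), (nb (nat_lit 4) (nat_lit 1280) (nb (nat_lit 8) (nat_lit 64) (nat_lit 0)))⟩, ⟨(nat_lit 4), (nat_lit 54), (nb (nat_lit 4) (nat_lit 1280) (nat_lit 0x2000000000000000200000000000000000000000000000006)), (nb (nat_lit 0x2000000000000000200000000000000000000000000000006) (nat_lit 1216) (nb (nat_lit 4) (nat_lit 64) (nat_lit 0)))⟩, ⟨(nat_lit 6), (nat_lit 46), (nb (nat_lit 8) (nat_lit 1280) (nat_lit 0x1000000000000000400000000000000070000000000000004)), (nb (nat_lit 0x4000000000000000400000000000000000000000000000001) (nat_lit 1216) (nat_lit 0))⟩, ⟨(nat_lit 12), (nat_lit 26),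 (nb (nat_lit 8) (nat_lit 1280) (nb (nat_lit 4) (nat_lit 64) (nat_lit 0))), (nb (nat_lit 0x400000000000000040000000000000000000000000000000c) (nat_lit 1216) (nat_lit 0x2000000000000000200000000000000000000000000000006))⟩, ⟨(nat_lit 16), (nat_lit 18), (nb (nat_lit 0x2000000000000000200000000000000000000000000000006) (nat_lit 2432) (nb (nat_lit 0x40000000000000010) (nat_lit 1216) (nat_lit 0x6000000000000000c00000000000000060000000000000014))), (nb (nat_lit 4) (nat_lit 2496) (nb (nat_lit 0x20000000000000002) (nat_lit 1344) (nat_lit 0)))⟩, ⟨(nat_lit 24), (nat_lit 28), (nb (nat_lit 0x40000000000000005) (nat_lit 1216) (nb (nat_lit 0x2000000000000000b) (nat_lit 64) (nat_lit 0))), (nb (nat_lit 0x20000000000000002) (nat_lit 1344) (nat_lit 0x1000000000000000000000000000000000000000000000002))⟩]⟩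
def e1184 : En := ⟨(nat_lit 40), (nat_lit 273), (nat_lit 132), (nat_lit 24), [⟨(nat_lit 4), (nat_lit 20), (nb (nat_lit 11) (nat_lit 1216) (nat_lit 0x300000000000000060000000000000003000000000000000a)), (nat_lit 0)⟩, ⟨(nat_lit 6), (nat_lit 10), (nb (nat_lit 22) (nat_lit 1216) (nat_lit 0x6000000000000000c00000000000000060000000000000014)), (nat_lit 0)⟩, ⟨(nat_lit 8), (nat_lit 28), (nb (nat_lit 11) (nat_lit 1216) (nat_lit 0x300000000000000060000000000000003000000000000000a)), (nat_lit 0)⟩]⟩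
def e1185 : En := ⟨(nat_lit 42), (nat_lit 65553), (nat_lit 132), (nat_lit 24), [⟨(nat_lit 0), (nat_lit 20), (nb (nat_lit 11) (nat_lit 1216) (nat_lit 0x300000000000000060000000000000003000000000000000a)), (nat_lit 0)⟩, ⟨(nat_lit 6), (nat_lit 22), (nb (nat_lit 11) (nat_lit 1216) (nat_lit 0x300000000000000060000000000000003000000000000000a)), (nat_lit 0)⟩, ⟨(nat_lit 8), (nat_lit 12), (nb (nat_lit 22) (nat_lit 1216) (nat_lit 0x6000000000000000c00000000000000060000000000000014)), (nat_lit 0)⟩]⟩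
def e1186 : En := ⟨(nat_lit 44), (nat_lit 69633), (nat_lit 132), (nat_lit 24), [⟨(nat_lit 0), (nat_lit 14), (nb (nat_lit 22) (nat_lit 1216) (nat_lit 0x6000000000000000c00000000000000060000000000000014)), (nat_lit 0)⟩, ⟨(nat_lit 2), (nat_lit 22), (nb (nat_lit 11) (nat_lit 1216) (nat_lit 0x300000000000000060000000000000003000000000000000a)), (nat_lit 0)⟩, ⟨(nat_lit 8), (nat_lit 24), (nb (nat_lit 11) (nat_lit 1216) (nat_lit 0x300000000000000060000000000000003000000000000000a)), (nat_lit 0)⟩]⟩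
def e1187 : En := ⟨(nat_lit 46), (nat_lit 69888), (nat_lit 132), (nat_lit 24), [⟨(nat_lit 0), (nat_lit 26), (nb (nat_lit 11) (nat_lit 1216) (nat_lit 0x300000000000000060000000000000003000000000000000a)), (nat_lit 0)⟩, ⟨(nat_lit 2), (nat_lit 16), (nb (nat_lit 22) (nat_lit 1216) (nat_lit 0x6000000000000000c00000000000000060000000000000014)), (nat_lit 0)⟩, ⟨(nat_lit 4), (nat_lit 24), (nb (nat_lit 11) (nat_lit 1216) (nat_lit 0x300000000000000060000000000000003000000000000000a)), (nat_lit 0)⟩]⟩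
def e1188 : En := ⟨(nat_lit 48), (nat_lit 4368), (nat_lit 132), (nat_lit 24), [⟨(nat_lit 2), (nat_lit 28), (nb (nat_lit 11) (nat_lit 1216) (nat_lit 0x300000000000000060000000000000003000000000000000a)), (nat_lit 0)⟩, ⟨(nat_lit 4), (nat_lit 18), (nb (nat_lit 22) (nat_lit 1216) (nat_lit 0x6000000000000000c00000000000000060000000000000014)), (nat_lit 0)⟩, ⟨(nat_lit 6), (nat_lit 26), (nb (nat_lit 11) (nat_lit 1216) (nat_lit 0x300000000000000060000000000000003000000000000000a)), (nat_lit 0)⟩]⟩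
def e1189 : En := ⟨(nat_lit 50), (nat_lit 4113), (nat_lit 132), (nat_lit 72), [⟨(nat_lit 2), (nat_lit 20), (nb (nat_lit 11) (nat_lit 1216) (nat_lit 0x300000000000000060000000000000003000000000000000a)), (nat_lit 0)⟩, ⟨(nat_lit 6), (nat_lit 14), (nb (nat_lit 11) (nat_lit 2432) (nb (nat_lit 0x300000000000000060000000000000003000000000000000a) (nat_lit 1216) (nat_lit 0))), (nat_lit 0)⟩, ⟨(nat_lit 8), (nat_lit 18), (nat_lit 0), (nb (nat_lit 11) (nat_lit 2432) (nb (nat_lit 0x3000000000000000600000000000000030000000000000015) (nat_lit 1216) (nat_lit 0x300000000000000060000000000000003000000000000000a)))⟩]⟩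
def e1190 : En := ⟨(nat_lit 52), (nat_lit 65793), (nat_lit 132), (nat_lit 72), [⟨(nat_lit 0), (nat_lit 10), (nat_lit 0), (nb (nat_lit 11) (nat_lit 2432) (nb (nat_lit 0x3000000000000000600000000000000030000000000000015) (nat_lit 1216) (nat_lit 0x300000000000000060000000000000003000000000000000a)))⟩, ⟨(nat_lit 4), (nat_lit 22), (nb (nat_lit 11) (nat_lit 1216) (nat_lit 0x300000000000000060000000000000003000000000000000a)), (nat_lit 0)⟩, ⟨(nat_lit 8), (nat_lit 16), (nb (nat_lit 11) (nat_lit 2432) (nb (nat_lit 0x300000000000000060000000000000003000000000000000a) (nat_lit 1216) (nat_lit 0))), (nat_lit 0)⟩]⟩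
def e1191 : En := ⟨(nat_lit 54), (nat_lit 69648), (nat_lit 132), (nat_lit 72), [⟨(nat_lit 0), (nat_lit 18), (nb (nat_lit 11) (nat_lit 2432) (nb (nat_lit 0x300000000000000060000000000000003000000000000000a) (nat_lit 1216) (nat_lit 0))), (nat_lit 0)⟩, ⟨(nat_lit 2), (nat_lit 12), (nat_lit 0), (nb (nat_lit 11) (nat_lit 2432) (nb (nat_lit 0x3000000000000000600000000000000030000000000000015) (nat_lit 1216) (nat_lit 0x300000000000000060000000000000003000000000000000a)))⟩, ⟨(nat_lit 6), (nat_lit 24), (nb (nat_lit 11) (nat_lit 1216) (nat_lit 0x300000000000000060000000000000003000000000000000a)), (nat_lit 0)⟩]⟩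
def e1192 : En := ⟨(nat_lit 56), (nat_lit 4353), (nat_lit 132), (nat_lit 72), [⟨(nat_lit 2), (nat_lit 10), (nb (nat_lit 11) (nat_lit 2432) (nb (nat_lit 0x300000000000000060000000000000003000000000000000a) (nat_lit 1216) (nat_lit 0))), (nat_lit 0)⟩, ⟨(nat_lit 4), (nat_lit 14), (nat_lit 0), (nb (nat_lit 11) (nat_lit 2432) (nb (nat_lit 0x3000000000000000600000000000000030000000000000015) (nat_lit 1216) (nat_lit 0x300000000000000060000000000000003000000000000000a)))⟩, ⟨(nat_lit 8), (nat_lit 26), (nb (nat_lit 11) (nat_lit 1216) (nat_lit 0x300000000000000060000000000000003000000000000000a)), (nat_lit 0)⟩]⟩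
def e1193 : En := ⟨(nat_lit 58), (nat_lit 65808), (nat_lit 132), (nat_lit 72), [⟨(nat_lit 0), (nat_lit 28), (nb (nat_lit 11) (nat_lit 1216) (nat_lit 0x300000000000000060000000000000003000000000000000a)), (nat_lit 0)⟩, ⟨(nat_lit 4), (nat_lit 12), (nb (nat_lit 11) (nat_lit 2432) (nb (nat_lit 0x300000000000000060000000000000003000000000000000a) (nat_lit 1216) (nat_lit 0))), (nat_lit 0)⟩, ⟨(nat_lit 6), (nat_lit 16), (nat_lit 0), (nb (nat_lit 11) (nat_lit 2432) (nb (nat_lit 0x3000000000000000600000000000000030000000000000015) (nat_lit 1216) (nat_lit 0x300000000000000060000000000000003000000000000000a)))⟩]⟩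
def e1194 : En := ⟨(nat_lit 10), (nat_lit 257), (nat_lit 33), (nat_lit 24), [⟨(nat_lit 4), (nat_lit 8), (nb (nat_lit 11) (nat_lit 1216) (nat_lit 0x300000000000000060000000000000003000000000000000a)), (nat_lit 0)⟩]⟩
def e1195 : En := ⟨(nat_lit 12), (nat_lit 65552), (nat_lit 33), (nat_lit 24), [⟨(nat_lit 0), (nat_lit 6), (nat_lit 0), (nb (nat_lit 11) (nat_lit 1216) (nat_lit 0x300000000000000060000000000000003000000000000000a))⟩]⟩
def e1196 : En := ⟨(nat_lit 14), (nat_lit 4097), (nat_lit 33), (nat_lit 24), [⟨(nat_lit 2), (nat_lit 8), (nat_lit 0), (nb (nat_lit 11) (nat_lit 1216) (nat_lit 0x300000000000000060000000000000003000000000000000a))⟩]⟩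
def e1197 : En := ⟨(nat_lit 16), (nat_lit 65792), (nat_lit 33), (nat_lit 24), [⟨(nat_lit 0), (nat_lit 4), (nb (nat_lit 11) (nat_lit 1216) (nat_lit 0x300000000000000060000000000000003000000000000000a)), (nat_lit 0)⟩]⟩
def e1198 : En := ⟨(nat_lit 18), (nat_lit 4112), (nat_lit 33), (nat_lit 24), [⟨(nat_lit 2), (nat_lit 6), (nb (nat_lit 11) (nat_lit 1216) (nat_lit 0x300000000000000060000000000000003000000000000000a)), (nat_lit 0)⟩]⟩
def e1199 : En := ⟨(nat_lit 20), (nat_lit 17), (nat_lit 33), (nat_lit 24), [⟨(nat_lit 6), (nat_lit 8), (nb (nat_lit 11) (nat_lit 1216) (nat_lit 0x300000000000000060000000000000003000000000000000a)), (nat_lit 0)⟩]⟩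
def e1200 : En := ⟨(nat_lit 22), (nat_lit 65537), (nat_lit 33), (nat_lit 24), [⟨(nat_lit 0), (nat_lit 8), (nat_lit 0), (nb (nat_lit 11) (nat_lit 1216) (nat_lit 0x300000000000000060000000000000003000000000000000a))⟩]⟩
def e1201 : En := ⟨(nat_lit 24), (nat_lit 69632), (nat_lit 33), (nat_lit 24), [⟨(nat_lit 0), (nat_lit 2), (nb (nat_lit 11) (nat_lit 1216) (nat_lit 0x300000000000000060000000000000003000000000000000a)), (nat_lit 0)⟩]⟩
def e1202 : En := ⟨(nat_lit 26), (nat_lit 4352), (nat_lit 33), (nat_lit 24), [⟨(nat_lit 2), (nat_lit 4), (nb (nat_lit 11) (nat_lit 1216) (nat_lit 0x300000000000000060000000000000003000000000000000a)), (nat_lit 0)⟩]⟩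
def e1203 : En := ⟨(nat_lit 28), (nat_lit 272), (nat_lit 33), (nat_lit 24), [⟨(nat_lit 4), (nat_lit 6), (nb (nat_lit 11) (nat_lit 1216) (nat_lit 0x300000000000000060000000000000003000000000000000a)), (nat_lit 0)⟩]⟩
def e1204 : En := ⟨(nat_lit 73), (nat_lit 69905), (nat_lit 632), (nat_lit 24), [⟨(nat_lit 0), (nat_lit 60), (nb (nat_lit 11) (nat_lit 1216) (nat_lit 0x300000000000000060000000000000003000000000000000a)), (nat_lit 0)⟩, ⟨(nat_lit 2), (nat_lit 62), (nat_lit 0), (nb (nat_lit 0xb000000000000000b000000000000000b000000000000000b) (nat_lit 1216) (nat_lit 0xa000000000000000700000000000000040000000000000007))⟩, ⟨(nat_lit 4), (nat_lit 64), (nb (nat_lit 11) (nat_lit 1408) (nat_lit 0x7000000000000000000000000000000000000000000000003)), (nat_lit 0x300000000000000000000000000000000)⟩, ⟨(nat_lit 6), (nat_lit 66), (nb (nat_lit 11) (nat_lit 1344) (nb (nat_lit 4) (nat_lit 128) (nat_lit 0))), (nat_lit 0x3000000000000000000000000000000060000000000000003)⟩,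 ⟨(nat_lit 8), (nat_lit 68), (nb (nat_lit 11) (nat_lit 1280) (nb (nat_lit 0x300000000000000000000000000000007) (nat_lit 64) (nat_lit 0))), (nat_lit 3)⟩, ⟨(nat_lit 10), (nat_lit 54), (nb (nat_lit 0xa0000000000000000000000000000000a0000000000000004) (nat_lit 1216) (nat_lit 0x14000000000000000e0000000000000008000000000000000e)), (nb (nat_lit 2) (nat_lit 1344) (nat_lit 0))⟩, ⟨(nat_lit 12), (nat_lit 56), (nb (nat_lit 0x600000000000000000000000000000006) (nat_lit 1216) (nb (nat_lit 6) (nat_lit 128) (nat_lit 0))), (nb (nat_lit 0x400000000000000000000000000000006) (nat_lit 1280) (nat_lit 0xe000000000000000000000000000000000000000000000006))⟩, ⟨(nat_lit 14), (nat_lit 58), (nat_lit 0x60000000000000000000000000000000c0000000000000006), (nb (nat_lit 0x6000000000000000a0000000000000000000000000000000c) (nat_lit 1216) (nb (nat_lit 8) (nat_lit 128) (nat_lit 0)))⟩, ⟨(nat_lit 16), (nat_lit 50), (nb (nat_lit 0xc00000000000000060000000000000002000000000000000c) (nat_lit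 1216) (nat_lit 6)), (nat_lit 0x60000000000000000000000000000000e0000000000000000)⟩, ⟨(nat_lit 18), (nat_lit 52), (nat_lit 0), (nb (nat_lit 0xc00000000000000000000000000000006000000000000000a) (nat_lit 1216) (nat_lit 0x6000000000000000c00000000000000060000000000000014))⟩, ⟨(nat_lit 20), (nat_lit 46), (nat_lit 0), (nb (nat_lit 0x100000000000000030000000000000004) (nat_lit 1216) (nat_lit 0x6000000000000000200000000000000090000000000000002))⟩, ⟨(nat_lit 22), (nat_lit 48), (nb (nat_lit 0x4000000000000000400000000000000030000000000000001) (nat_lit 1216) (nb (nat_lit 2) (nat_lit 192) (nat_lit 0))), (nat_lit 0x400000000000000000000000000000007)⟩, ⟨(nat_lit 24), (nat_lit 40), (nb (nat_lit 0x300000000000000030000000000000002) (nat_lit 1216) (nat_lit 0x7000000000000000900000000000000030000000000000007)), (nb (nat_lit 1) (nat_lit 1408) (nat_lit 0))⟩, ⟨(nat_lit 26), (nat_lit 42), (nb (nat_lit 0x10000000000000001) (nat_lit 1216) (nb (nat_lit 2) (nat_lit 64) (nat_lit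 0))), (nb (nat_lit 0x20000000000000003) (nat_lit 1344) (nat_lit 0x7000000000000000000000000000000000000000000000004))⟩, ⟨(nat_lit 28), (nat_lit 44), (nat_lit 0x4000000000000000000000000000000040000000000000006), (nb (nat_lit 0x100000000000000030000000000000004) (nat_lit 1280) (nb (nat_lit 3) (nat_lit 128) (nat_lit 0)))⟩]⟩
def e1205 : En := ⟨(nat_lit 60), (nat_lit 4369), (nat_lit 9), (nat_lit 3), [⟨(nat_lit 2), (nat_lit 40), (nat_lit 1), (nat_lit 0)⟩, ⟨(nat_lit 4), (nat_lit 50), (nb (nat_lit 1) (nat_lit 1216) (nat_lit 0)), (nat_lit 0)⟩, ⟨(nat_lit 8), (nat_lit 48), (nat_lit 1), (nb (nat_lit 1) (nat_lit 1216) (nat_lit 0))⟩, ⟨(nat_lit 10), (nat_lit 18), (nat_lit 0), (nat_lit 2)⟩, ⟨(nat_lit 14), (nat_lit 28), (nat_lit 0), (nb (nat_lit 1) (nat_lit 1216) (nat_lit 0))⟩, ⟨(nat_lit 20), (nat_lit 26), (nb (nat_lit 1) (nat_lit 1216) (nat_lit 0)), (nat_lit 1)⟩]⟩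
def e1206 : En := ⟨(nat_lit 62), (nat_lit 65809), (nat_lit 9), (nat_lit 3), [⟨(nat_lit 0), (nat_lit 40), (nat_lit 1), (nb (nat_lit 1) (nat_lit 1216) (nat_lit 0))⟩, ⟨(nat_lit 4), (nat_lit 42), (nat_lit 1), (nat_lit 0)⟩, ⟨(nat_lit 6), (nat_lit 52), (nb (nat_lit 1) (nat_lit 1216) (nat_lit 0)), (nat_lit 0)⟩, ⟨(nat_lit 10), (nat_lit 12), (nat_lit 2), (nat_lit 0)⟩, ⟨(nat_lit 16), (nat_lit 20), (nat_lit 0), (nb (nat_lit 1) (nat_lit 1216) (nat_lit 0))⟩, ⟨(nat_lit 22), (nat_lit 28), (nb (nat_lit 1) (nat_lit 1216) (nat_lit 0)), (nat_lit 1)⟩]⟩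
def e1207 : En := ⟨(nat_lit 64), (nat_lit 69649), (nat_lit 9), (nat_lit 3), [⟨(nat_lit 2), (nat_lit 42), (nat_lit 1), (nb (nat_lit 1) (nat_lit 1216) (nat_lit 0))⟩, ⟨(nat_lit 6), (nat_lit 44), (nat_lit 1), (nat_lit 0)⟩, ⟨(nat_lit 8), (nat_lit 54), (nb (nat_lit 1) (nat_lit 1216) (nat_lit 0)), (nat_lit 0)⟩, ⟨(nat_lit 12), (nat_lit 14), (nat_lit 2), (nat_lit 0)⟩, ⟨(nat_lit 18), (nat_lit 22), (nat_lit 0), (nb (nat_lit 1) (nat_lit 1216) (nat_lit 0))⟩, ⟨(nat_lit 20), (nat_lit 24), (nat_lit 1), (nb (nat_lit 1) (nat_lit 1216) (nat_lit 0))⟩]⟩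
def e1208 : En := ⟨(nat_lit 66), (nat_lit 69889), (nat_lit 9), (nat_lit 3), [⟨(nat_lit 0), (nat_lit 56), (nb (nat_lit 1) (nat_lit 1216) (nat_lit 0)), (nat_lit 0)⟩, ⟨(nat_lit 4), (nat_lit 44), (nat_lit 1), (nb (nat_lit 1) (nat_lit 1216) (nat_lit 0))⟩, ⟨(nat_lit 8), (nat_lit 46), (nat_lit 1), (nat_lit 0)⟩, ⟨(nat_lit 10), (nat_lit 24), (nat_lit 0), (nb (nat_lit 1) (nat_lit 1216) (nat_lit 0))⟩, ⟨(nat_lit 14), (nat_lit 16), (nat_lit 2), (nat_lit 0)⟩, ⟨(nat_lit 22), (nat_lit 26), (nat_lit 1), (nb (nat_lit 1) (nat_lit 1216) (nat_lit 0))⟩]⟩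
def e1209 : En := ⟨(nat_lit 68), (nat_lit 69904), (nat_lit 9), (nat_lit 3), [⟨(nat_lit 0), (nat_lit 48), (nat_lit 1), (nat_lit 0)⟩, ⟨(nat_lit 2), (nat_lit 58), (nb (nat_lit 1) (nat_lit 1216) (nat_lit 0)), (nat_lit 0)⟩, ⟨(nat_lit 6), (nat_lit 46), (nat_lit 1), (nb (nat_lit 1) (nat_lit 1216) (nat_lit 0))⟩, ⟨(nat_lit 12), (nat_lit 26), (nat_lit 0), (nb (nat_lit 1) (nat_lit 1216) (nat_lit 0))⟩, ⟨(nat_lit 16), (nat_lit 18), (nat_lit 2), (nat_lit 0)⟩, ⟨(nat_lit 24), (nat_lit 28), (nat_lit 1), (nb (nat_lit 1) (nat_lit 1216) (nat_lit 0))⟩]⟩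
def e1210 : En := ⟨(nat_lit 50), (nat_lit 4113), (nat_lit 4), (nat_lit 1), [⟨(nat_lit 2), (nat_lit 20), (nat_lit 1), (nat_lit 0)⟩, ⟨(nat_lit 6), (nat_lit 14), (nat_lit 1), (nat_lit 0)⟩, ⟨(nat_lit 8), (nat_lit 18), (nat_lit 0), (nat_lit 2)⟩]⟩
def e1211 : En := ⟨(nat_lit 52), (nat_lit 65793), (nat_lit 4), (nat_lit 1), [⟨(nat_lit 0), (nat_lit 10), (nat_lit 0), (nat_lit 2)⟩, ⟨(nat_lit 4), (nat_lit 22), (nat_lit 1), (nat_lit 0)⟩, ⟨(nat_lit 8), (nat_lit 16), (nat_lit 1), (nat_lit 0)⟩]⟩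
def e1212 : En := ⟨(nat_lit 54), (nat_lit 69648), (nat_lit 4), (nat_lit 1), [⟨(nat_lit 0), (nat_lit 18), (nat_lit 1), (nat_lit 0)⟩, ⟨(nat_lit 2), (nat_lit 12), (nat_lit 0), (nat_lit 2)⟩, ⟨(nat_lit 6), (nat_lit 24), (nat_lit 1), (nat_lit 0)⟩]⟩
def e1213 : En := ⟨(nat_lit 56), (nat_lit 4353), (nat_lit 4), (nat_lit 1), [⟨(nat_lit 2), (nat_lit 10), (nat_lit 1), (nat_lit 0)⟩, ⟨(nat_lit 4), (nat_lit 14), (nat_lit 0), (nat_lit 2)⟩, ⟨(nat_lit 8), (nat_lit 26), (nat_lit 1), (nat_lit 0)⟩]⟩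
def e1214 : En := ⟨(nat_lit 58), (nat_lit 65808), (nat_lit 4), (nat_lit 1), [⟨(nat_lit 0), (nat_lit 28), (nat_lit 1), (nat_lit 0)⟩, ⟨(nat_lit 4), (nat_lit 12), (nat_lit 1), (nat_lit 0)⟩, ⟨(nat_lit 6), (nat_lit 16), (nat_lit 0), (nat_lit 2)⟩]⟩
def e1215 : En := ⟨(nat_lit 60), (nat_lit 4369), (nat_lit 12), (nat_lit 9), [⟨(nat_lit 4), (nat_lit 50), (nb (nat_lit 1) (nat_lit 1216) (nat_lit 0)), (nat_lit 0)⟩, ⟨(nat_lit 6), (nat_lit 56), (nat_lit 0), (nb (nat_lit 1) (nat_lit 1216) (nat_lit 1))⟩, ⟨(nat_lit 8), (nat_lit 48), (nb (nat_lit 2) (nat_lit 1216) (nat_lit 1)), (nat_lit 0)⟩, ⟨(nat_lit 10), (nat_lit 18), (nat_lit 0), (nb (nat_lit 1) (nat_lit 2432) (nb (nat_lit 1) (nat_lit 1216) (nat_lit 0)))⟩, ⟨(nat_lit 14), (nat_lit 28), (nb (nat_lit 2) (nat_lit 1216) (nat_lit 1)), (nat_lit 0)⟩, ⟨(nat_lit 20), (nat_lit 26), (nb (nat_lit 1) (nat_lit 1216) (nat_lit 0)), (nat_lit 0)⟩]⟩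
def e1216 : En := ⟨(nat_lit 62), (nat_lit 65809), (nat_lit 12), (nat_lit 9), [⟨(nat_lit 0), (nat_lit 40), (nb (nat_lit 2) (nat_lit 1216) (nat_lit 1)), (nat_lit 0)⟩, ⟨(nat_lit 6), (nat_lit 52), (nb (nat_lit 1) (nat_lit 1216) (nat_lit 0)), (nat_lit 0)⟩, ⟨(nat_lit 8), (nat_lit 58), (nat_lit 0), (nb (nat_lit 1) (nat_lit 1216) (nat_lit 1))⟩, ⟨(nat_lit 10), (nat_lit 12), (nb (nat_lit 1) (nat_lit 2432) (nb (nat_lit 1) (nat_lit 1216) (nat_lit 0))), (nat_lit 0)⟩, ⟨(nat_lit 16), (nat_lit 20), (nb (nat_lit 2) (nat_lit 1216) (nat_lit 1)), (nat_lit 0)⟩, ⟨(nat_lit 22), (nat_lit 28), (nb (nat_lit 1) (nat_lit 1216) (nat_lit 0)), (nat_lit 0)⟩]⟩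
def e1217 : En := ⟨(nat_lit 64), (nat_lit 69649), (nat_lit 12), (nat_lit 9), [⟨(nat_lit 0), (nat_lit 50), (nat_lit 0), (nb (nat_lit 1) (nat_lit 1216) (nat_lit 1))⟩, ⟨(nat_lit 2), (nat_lit 42), (nb (nat_lit 2) (nat_lit 1216) (nat_lit 1)), (nat_lit 0)⟩, ⟨(nat_lit 8), (nat_lit 54), (nb (nat_lit 1) (nat_lit 1216) (nat_lit 0)), (nat_lit 0)⟩, ⟨(nat_lit 12), (nat_lit 14), (nb (nat_lit 1) (nat_lit 2432) (nb (nat_lit 1) (nat_lit 1216) (nat_lit 0))), (nat_lit 0)⟩, ⟨(nat_lit 18), (nat_lit 22), (nb (nat_lit 2) (nat_lit 1216) (nat_lit 1)), (nat_lit 0)⟩, ⟨(nat_lit 20), (nat_lit 24), (nat_lit 0), (nb (nat_lit 1) (nat_lit 1216) (nat_lit 0))⟩]⟩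
def e1218 : En := ⟨(nat_lit 66), (nat_lit 69889), (nat_lit 12), (nat_lit 9), [⟨(nat_lit 0), (nat_lit 56), (nb (nat_lit 1) (nat_lit 1216) (nat_lit 0)), (nat_lit 0)⟩, ⟨(nat_lit 2), (nat_lit 52), (nat_lit 0), (nb (nat_lit 1) (nat_lit 1216) (nat_lit 1))⟩, ⟨(nat_lit 4), (nat_lit 44), (nb (nat_lit 2) (nat_lit 1216) (nat_lit 1)), (nat_lit 0)⟩, ⟨(nat_lit 10), (nat_lit 24), (nb (nat_lit 2) (nat_lit 1216) (nat_lit 1)), (nat_lit 0)⟩, ⟨(nat_lit 14), (nat_lit 16), (nb (nat_lit 1) (nat_lit 2432) (nb (nat_lit 1) (nat_lit 1216) (nat_lit 0))), (nat_lit 0)⟩, ⟨(nat_lit 22), (nat_lit 26), (nat_lit 0), (nb (nat_lit 1) (nat_lit 1216) (nat_lit 0))⟩]⟩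
def e1219 : En := ⟨(nat_lit 68), (nat_lit 69904), (nat_lit 12), (nat_lit 9), [⟨(nat_lit 2), (nat_lit 58), (nb (nat_lit 1) (nat_lit 1216) (nat_lit 0)), (nat_lit 0)⟩, ⟨(nat_lit 4), (nat_lit 54), (nat_lit 0), (nb (nat_lit 1) (nat_lit 1216) (nat_lit 1))⟩, ⟨(nat_lit 6), (nat_lit 46), (nb (nat_lit 2) (nat_lit 1216) (nat_lit 1)), (nat_lit 0)⟩, ⟨(nat_lit 12), (nat_lit 26), (nb (nat_lit 2) (nat_lit 1216) (nat_lit 1)), (nat_lit 0)⟩, ⟨(nat_lit 16), (nat_lit 18), (nb (nat_lit 1) (nat_lit 2432) (nb (nat_lit 1) (nat_lit 1216) (nat_lit 0))), (nat_lit 0)⟩, ⟨(nat_lit 24), (nat_lit 28), (nat_lit 0), (nb (nat_lit 1) (nat_lit 1216) (nat_lit 0))⟩]⟩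
def e1220 : En := ⟨(nat_lit 60), (nat_lit 4369), (nat_lit 15), (nat_lit 45), [⟨(nat_lit 2), (nat_lit 40), (nat_lit 1), (nat_lit 0)⟩, ⟨(nat_lit 4), (nat_lit 50), (nb (nat_lit 1) (nat_lit 14592) (nat_lit 0)), (nat_lit 0)⟩, ⟨(nat_lit 6), (nat_lit 56), (nat_lit 0), (nb (nat_lit 1) (nat_lit 14592) (nb (nat_lit 1) (nat_lit 13376) (nat_lit 0)))⟩, ⟨(nat_lit 8), (nat_lit 48), (nb (nat_lit 2) (nat_lit 14592) (nb (nat_lit 1) (nat_lit 13376) (nat_lit 0))), (nat_lit 1)⟩, ⟨(nat_lit 10), (nat_lit 18), (nat_lit 0), (nb (nat_lit 1) (nat_lit 15808) (nb (nat_lit 1) (nat_lit 14592) (nat_lit 0)))⟩, ⟨(nat_lit 14), (nat_lit 28), (nb (nat_lit 2) (nat_lit 14592) (nb (nat_lit 1) (nat_lit 13376) (nat_lit 0))), (nat_lit 0)⟩, ⟨(nat_lit 20), (nat_lit 26), (nb (nat_lit 1) (nat_lit 14592) (nat_lit 0)), (nat_lit 1)⟩]⟩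
def e1221 : En := ⟨(nat_lit 62), (nat_lit 65809), (nat_lit 15), (nat_lit 45), [⟨(nat_lit 0), (nat_lit 40), (nb (nat_lit 2) (nat_lit 14592) (nb (nat_lit 1) (nat_lit 13376) (nat_lit 0))), (nat_lit 1)⟩, ⟨(nat_lit 4), (nat_lit 42), (nat_lit 1), (nat_lit 0)⟩, ⟨(nat_lit 6), (nat_lit 52), (nb (nat_lit 1) (nat_lit 14592) (nat_lit 0)), (nat_lit 0)⟩, ⟨(nat_lit 8), (nat_lit 58), (nat_lit 0), (nb (nat_lit 1) (nat_lit 14592) (nb (nat_lit 1) (nat_lit 13376) (nat_lit 0)))⟩, ⟨(nat_lit 10), (nat_lit 12), (nb (nat_lit 1) (nat_lit 15808) (nb (nat_lit 1) (nat_lit 14592) (nat_lit 0))), (nat_lit 0)⟩, ⟨(nat_lit 16), (nat_lit 20), (nb (nat_lit 2) (nat_lit 14592) (nb (nat_lit 1) (nat_lit 13376) (nat_lit 0))), (nat_lit 0)⟩, ⟨(nat_lit 22), (nat_lit 28), (nb (nat_lit 1) (nat_lit 14592) (nat_lit 0)), (nat_lit 1)⟩]⟩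
def e1222 : En := ⟨(nat_lit 64), (nat_lit 69649), (nat_lit 15), (nat_lit 45), [⟨(nat_lit 0), (nat_lit 50), (nat_lit 0), (nb (nat_lit 1) (nat_lit 14592) (nb (nat_lit 1) (nat_lit 13376) (nat_lit 0)))⟩, ⟨(nat_lit 2), (nat_lit 42), (nb (nat_lit 2) (nat_lit 14592) (nb (nat_lit 1) (nat_lit 13376) (nat_lit 0))), (nat_lit 1)⟩, ⟨(nat_lit 6), (nat_lit 44), (nat_lit 1), (nat_lit 0)⟩, ⟨(nat_lit 8), (nat_lit 54), (nb (nat_lit 1) (nat_lit 14592) (nat_lit 0)), (nat_lit 0)⟩, ⟨(nat_lit 12), (nat_lit 14), (nb (nat_lit 1) (nat_lit 15808) (nb (nat_lit 1) (nat_lit 14592) (nat_lit 0))), (nat_lit 0)⟩, ⟨(nat_lit 18), (nat_lit 22), (nb (nat_lit 2) (nat_lit 14592) (nb (nat_lit 1) (nat_lit 13376) (nat_lit 0))), (nat_lit 0)⟩, ⟨(nat_lit 20), (nat_lit 24), (nat_lit 1), (nb (nat_lit 1) (nat_lit 14592) (nat_lit 0))⟩]⟩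
def e1223 : En := ⟨(nat_lit 66), (nat_lit 69889), (nat_lit 15), (nat_lit 45), [⟨(nat_lit 0), (nat_lit 56), (nb (nat_lit 1) (nat_lit 14592) (nat_lit 0)), (nat_lit 0)⟩, ⟨(nat_lit 2), (nat_lit 52), (nat_lit 0), (nb (nat_lit 1) (nat_lit 14592) (nb (nat_lit 1) (nat_lit 13376) (nat_lit 0)))⟩, ⟨(nat_lit 4), (nat_lit 44), (nb (nat_lit 2) (nat_lit 14592) (nb (nat_lit 1) (nat_lit 13376) (nat_lit 0))), (nat_lit 1)⟩, ⟨(nat_lit 8), (nat_lit 46), (nat_lit 1), (nat_lit 0)⟩, ⟨(nat_lit 10), (nat_lit 24), (nb (nat_lit 2) (nat_lit 14592) (nb (nat_lit 1) (nat_lit 13376) (nat_lit 0))), (nat_lit 0)⟩, ⟨(nat_lit 14), (nat_lit 16), (nb (nat_lit 1) (nat_lit 15808) (nb (nat_lit 1) (nat_lit 14592) (nat_lit 0))), (nat_lit 0)⟩, ⟨(nat_lit 22), (nat_lit 26), (nat_lit 1), (nb (nat_lit 1) (nat_lit 14592) (nat_lit 0))⟩]⟩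
def e1224 : En := ⟨(nat_lit 68), (nat_lit 69904), (nat_lit 15), (nat_lit 45), [⟨(nat_lit 0), (nat_lit 48), (nat_lit 1), (nat_lit 0)⟩, ⟨(nat_lit 2), (nat_lit 58), (nb (nat_lit 1) (nat_lit 14592) (nat_lit 0)), (nat_lit 0)⟩, ⟨(nat_lit 4), (nat_lit 54), (nat_lit 0), (nb (nat_lit 1) (nat_lit 14592) (nb (nat_lit 1) (nat_lit 13376) (nat_lit 0)))⟩, ⟨(nat_lit 6), (nat_lit 46), (nb (nat_lit 2) (nat_lit 14592) (nb (nat_lit 1) (nat_lit 13376) (nat_lit 0))), (nat_lit 1)⟩, ⟨(nat_lit 12), (nat_lit 26), (nb (nat_lit 2) (nat_lit 14592) (nb (nat_lit 1) (nat_lit 13376) (nat_lit 0))), (nat_lit 0)⟩, ⟨(nat_lit 16), (nat_lit 18), (nb (nat_lit 1) (nat_lit 15808) (nb (nat_lit 1) (nat_lit 14592) (nat_lit 0))), (nat_lit 0)⟩, ⟨(nat_lit 24), (nat_lit 28), (nat_lit 1), (nb (nat_lit 1) (nat_lit 14592) (nat_lit 0))⟩]⟩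
def e1225 : En := ⟨(nat_lit 60), (nat_lit 4369), (nat_lit 6), (nat_lit 3), [⟨(nat_lit 2), (nat_lit 40), (nat_lit 1), (nat_lit 0)⟩, ⟨(nat_lit 6), (nat_lit 56), (nb (nat_lit 1) (nat_lit 1216) (nat_lit 0)), (nat_lit 0)⟩, ⟨(nat_lit 8), (nat_lit 48), (nat_lit 0), (nb (nat_lit 1) (nat_lit 1216) (nat_lit 1))⟩, ⟨(nat_lit 14), (nat_lit 28), (nat_lit 0), (nb (nat_lit 1) (nat_lit 1216) (nat_lit 0))⟩, ⟨(nat_lit 20), (nat_lit 26), (nat_lit 0), (nat_lit 1)⟩]⟩
def e1226 : En := ⟨(nat_lit 62), (nat_lit 65809), (nat_lit 6), (nat_lit 3), [⟨(nat_lit 0), (nat_lit 40), (nat_lit 0), (nb (nat_lit 1) (nat_lit 1216) (nat_lit 1))⟩, ⟨(nat_lit 4), (nat_lit 42), (nat_lit 1), (nat_lit 0)⟩, ⟨(nat_lit 8), (nat_lit 58), (nb (nat_lit 1) (nat_lit 1216) (nat_lit 0)), (nat_lit 0)⟩, ⟨(nat_lit 16), (nat_lit 20), (nat_lit 0), (nb (nat_lit 1) (nat_lit 1216) (nat_lit 0))⟩, ⟨(nat_lit 22), (nat_lit 28), (nat_lit 0), (nat_lit 1)⟩]⟩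
def e1227 : En := ⟨(nat_lit 64), (nat_lit 69649), (nat_lit 6), (nat_lit 3), [⟨(nat_lit 0), (nat_lit 50), (nb (nat_lit 1) (nat_lit 1216) (nat_lit 0)), (nat_lit 0)⟩, ⟨(nat_lit 2), (nat_lit 42), (nat_lit 0), (nb (nat_lit 1) (nat_lit 1216) (nat_lit 1))⟩, ⟨(nat_lit 6), (nat_lit 44), (nat_lit 1), (nat_lit 0)⟩, ⟨(nat_lit 18), (nat_lit 22), (nat_lit 0), (nb (nat_lit 1) (nat_lit 1216) (nat_lit 0))⟩, ⟨(nat_lit 20), (nat_lit 24), (nat_lit 1), (nat_lit 0)⟩]⟩
def e1228 : En := ⟨(nat_lit 66), (nat_lit 69889), (nat_lit 6), (nat_lit 3), [⟨(nat_lit 2), (nat_lit 52), (nb (nat_lit 1) (nat_lit 1216) (nat_lit 0)), (nat_lit 0)⟩, ⟨(nat_lit 4), (nat_lit 44), (nat_lit 0), (nb (nat_lit 1) (nat_lit 1216) (nat_lit 1))⟩, ⟨(nat_lit 8), (nat_lit 46), (nat_lit 1), (nat_lit 0)⟩, ⟨(nat_lit 10), (nat_lit 24), (nat_lit 0), (nb (nat_lit 1) (nat_lit 1216) (nat_lit 0))⟩, ⟨(nat_lit 22), (nat_lit 26), (nat_lit 1), (nat_lit 0)⟩]⟩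
def e1229 : En := ⟨(nat_lit 68), (nat_lit 69904), (nat_lit 6), (nat_lit 3), [⟨(nat_lit 0), (nat_lit 48), (nat_lit 1), (nat_lit 0)⟩, ⟨(nat_lit 4), (nat_lit 54), (nb (nat_lit 1) (nat_lit 1216) (nat_lit 0)), (nat_lit 0)⟩, ⟨(nat_lit 6), (nat_lit 46), (nat_lit 0), (nb (nat_lit 1) (nat_lit 1216) (nat_lit 1))⟩, ⟨(nat_lit 12), (nat_lit 26), (nat_lit 0), (nb (nat_lit 1) (nat_lit 1216) (nat_lit 0))⟩, ⟨(nat_lit 24), (nat_lit 28), (nat_lit 1), (nat_lit 0)⟩]⟩
def e1230 : En := ⟨(nat_lit 40), (nat_lit 258), (nat_lit 2), (nat_lit 1), [⟨(nat_lit 8), (nat_lit 10), (nat_lit 2), (nat_lit 0)⟩]⟩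
def e1231 : En := ⟨(nat_lit 42), (nat_lit 131088), (nat_lit 2), (nat_lit 1), [⟨(nat_lit 0), (nat_lit 12), (nat_lit 2), (nat_lit 0)⟩]⟩
def e1232 : En := ⟨(nat_lit 44), (nat_lit 8193), (nat_lit 2), (nat_lit 1), [⟨(nat_lit 2), (nat_lit 14), (nat_lit 2), (nat_lit 0)⟩]⟩
def e1233 : En := ⟨(nat_lit 46), (nat_lit 66048), (nat_lit 2), (nat_lit 1), [⟨(nat_lit 4), (nat_lit 16), (nat_lit 2), (nat_lit 0)⟩]⟩
def e1234 : En := ⟨(nat_lit 48), (nat_lit 4128), (nat_lit 2), (nat_lit 1), [⟨(nat_lit 6), (nat_lit 18), (nat_lit 2), (nat_lit 0)⟩]⟩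
def e1235 : En := ⟨(nat_lit 60), (nat_lit 4354), (nat_lit 6), (nat_lit 3), [⟨(nat_lit 2), (nat_lit 40), (nb (nat_lit 2) (nat_lit 1216) (nat_lit 1)), (nat_lit 0)⟩, ⟨(nat_lit 8), (nat_lit 56), (nat_lit 1), (nat_lit 0)⟩, ⟨(nat_lit 10), (nat_lit 14), (nb (nat_lit 1) (nat_lit 1216) (nat_lit 1)), (nat_lit 0)⟩]⟩
def e1236 : En := ⟨(nat_lit 62), (nat_lit 131344), (nat_lit 6), (nat_lit 3), [⟨(nat_lit 0), (nat_lit 58), (nat_lit 1), (nat_lit 0)⟩, ⟨(nat_lit 4), (nat_lit 42), (nb (nat_lit 2) (nat_lit 1216) (nat_lit 1)), (nat_lit 0)⟩, ⟨(nat_lit 12), (nat_lit 16), (nb (nat_lit 1) (nat_lit 1216) (nat_lit 1)), (nat_lit 0)⟩]⟩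
def e1237 : En := ⟨(nat_lit 64), (nat_lit 8209), (nat_lit 6), (nat_lit 3), [⟨(nat_lit 2), (nat_lit 50), (nat_lit 1), (nat_lit 0)⟩, ⟨(nat_lit 6), (nat_lit 44), (nb (nat_lit 2) (nat_lit 1216) (nat_lit 1)), (nat_lit 0)⟩, ⟨(nat_lit 14), (nat_lit 18), (nb (nat_lit 1) (nat_lit 1216) (nat_lit 1)), (nat_lit 0)⟩]⟩
def e1238 : En := ⟨(nat_lit 66), (nat_lit 66049), (nat_lit 6), (nat_lit 3), [⟨(nat_lit 4), (nat_lit 52), (nat_lit 1), (nat_lit 0)⟩, ⟨(nat_lit 8), (nat_lit 46), (nb (nat_lit 2) (nat_lit 1216) (nat_lit 1)), (nat_lit 0)⟩, ⟨(nat_lit 10), (nat_lit 16), (nat_lit 0), (nb (nat_lit 1) (nat_lit 1216) (nat_lit 1))⟩]⟩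
def e1239 : En := ⟨(nat_lit 68), (nat_lit 69664), (nat_lit 6), (nat_lit 3), [⟨(nat_lit 0), (nat_lit 48), (nb (nat_lit 2) (nat_lit 1216) (nat_lit 1)), (nat_lit 0)⟩, ⟨(nat_lit 6), (nat_lit 54), (nat_lit 1), (nat_lit 0)⟩, ⟨(nat_lit 12), (nat_lit 18), (nat_lit 0), (nb (nat_lit 1) (nat_lit 1216) (nat_lit 1))⟩]⟩
def e1240 : En := ⟨(nat_lit 50), (nat_lit 273), (nat_lit 4), (nat_lit 3), [⟨(nat_lit 4), (nat_lit 20), (nat_lit 1), (nat_lit 0)⟩, ⟨(nat_lit 6), (nat_lit 10), (nb (nat_lit 1) (nat_lit 1216) (nat_lit 0)), (nat_lit 0)⟩, ⟨(nat_lit 8), (nat_lit 28), (nb (nat_lit 1) (nat_lit 1216) (nat_lit 0)), (nat_lit 1)⟩]⟩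
def e1241 : En := ⟨(nat_lit 52), (nat_lit 65553), (nat_lit 4), (nat_lit 3), [⟨(nat_lit 0), (nat_lit 20), (nb (nat_lit 1) (nat_lit 1216) (nat_lit 0)), (nat_lit 1)⟩, ⟨(nat_lit 6), (nat_lit 22), (nat_lit 1), (nat_lit 0)⟩, ⟨(nat_lit 8), (nat_lit 12), (nb (nat_lit 1) (nat_lit 1216) (nat_lit 0)), (nat_lit 0)⟩]⟩
def e1242 : En := ⟨(nat_lit 54), (nat_lit 69633), (nat_lit 4), (nat_lit 3), [⟨(nat_lit 0), (nat_lit 14), (nb (nat_lit 1) (nat_lit 1216) (nat_lit 0)), (nat_lit 0)⟩, ⟨(nat_lit 2), (nat_lit 22), (nb (nat_lit 1) (nat_lit 1216) (nat_lit 0)), (nat_lit 1)⟩, ⟨(nat_lit 8), (nat_lit 24), (nat_lit 1), (nat_lit 0)⟩]⟩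
def e1243 : En := ⟨(nat_lit 56), (nat_lit 69888), (nat_lit 4), (nat_lit 3), [⟨(nat_lit 0), (nat_lit 26), (nat_lit 1), (nat_lit 0)⟩, ⟨(nat_lit 2), (nat_lit 16), (nb (nat_lit 1) (nat_lit 1216) (nat_lit 0)), (nat_lit 0)⟩, ⟨(nat_lit 4), (nat_lit 24), (nb (nat_lit 1) (nat_lit 1216) (nat_lit 0)), (nat_lit 1)⟩]⟩
def e1244 : En := ⟨(nat_lit 58), (nat_lit 4368), (nat_lit 4), (nat_lit 3), [⟨(nat_lit 2), (nat_lit 28), (nat_lit 1), (nat_lit 0)⟩, ⟨(nat_lit 4), (nat_lit 18), (nb (nat_lit 1) (nat_lit 1216) (nat_lit 0)), (nat_lit 0)⟩, ⟨(nat_lit 6), (nat_lit 26), (nb (nat_lit 1) (nat_lit 1216) (nat_lit 0)), (nat_lit 1)⟩]⟩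
def e1245 : En := ⟨(nat_lit 60), (nat_lit 513), (nat_lit 1), (nat_lit 1), [⟨(nat_lit 4), (nat_lit 10), (nat_lit 1), (nat_lit 0)⟩]⟩
def e1246 : En := ⟨(nat_lit 62), (nat_lit 65568), (nat_lit 1), (nat_lit 1), [⟨(nat_lit 6), (nat_lit 12), (nat_lit 1), (nat_lit 0)⟩]⟩
def e1247 : En := ⟨(nat_lit 64), (nat_lit 4098), (nat_lit 1), (nat_lit 1), [⟨(nat_lit 8), (nat_lit 14), (nat_lit 1), (nat_lit 0)⟩]⟩
def e1248 : En := ⟨(nat_lit 66), (nat_lit 131328), (nat_lit 1), (nat_lit 1), [⟨(nat_lit 0), (nat_lit 16), (nat_lit 1), (nat_lit 0)⟩]⟩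
def e1249 : En := ⟨(nat_lit 68), (nat_lit 8208), (nat_lit 1), (nat_lit 1), [⟨(nat_lit 2), (nat_lit 18), (nat_lit 1), (nat_lit 0)⟩]⟩
def e1250 : En := ⟨(nat_lit 58), (nat_lit 4368), (nat_lit 2), (nat_lit 1), [⟨(nat_lit 4), (nat_lit 18), (nat_lit 1), (nat_lit 0)⟩, ⟨(nat_lit 6), (nat_lit 26), (nat_lit 1), (nat_lit 0)⟩]⟩
def e1251 : En := ⟨(nat_lit 56), (nat_lit 69888), (nat_lit 2), (nat_lit 1), [⟨(nat_lit 2), (nat_lit 16), (nat_lit 1), (nat_lit 0)⟩, ⟨(nat_lit 4), (nat_lit 24), (nat_lit 1), (nat_lit 0)⟩]⟩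
def e1252 : En := ⟨(nat_lit 54), (nat_lit 69633), (nat_lit 2), (nat_lit 1), [⟨(nat_lit 0), (nat_lit 14), (nat_lit 1), (nat_lit 0)⟩, ⟨(nat_lit 2), (nat_lit 22), (nat_lit 1), (nat_lit 0)⟩]⟩
def e1253 : En := ⟨(nat_lit 52), (nat_lit 65553), (nat_lit 2), (nat_lit 1), [⟨(nat_lit 0), (nat_lit 20), (nat_lit 1), (nat_lit 0)⟩, ⟨(nat_lit 8), (nat_lit 12), (nat_lit 1), (nat_lit 0)⟩]⟩
def e1254 : En := ⟨(nat_lit 50), (nat_lit 273), (nat_lit 2), (nat_lit 1), [⟨(nat_lit 6), (nat_lit 10), (nat_lit 1), (nat_lit 0)⟩, ⟨(nat_lit 8), (nat_lit 28), (nat_lit 1), (nat_lit 0)⟩]⟩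
def e1255 : En := ⟨(nat_lit 58), (nat_lit 4128), (nat_lit 1), (nat_lit 1), [⟨(nat_lit 6), (nat_lit 18), (nat_lit 1), (nat_lit 0)⟩]⟩
def e1256 : En := ⟨(nat_lit 56), (nat_lit 66048), (nat_lit 1), (nat_lit 1), [⟨(nat_lit 4), (nat_lit 16), (nat_lit 1), (nat_lit 0)⟩]⟩
def e1257 : En := ⟨(nat_lit 54), (nat_lit 8193), (nat_lit 1), (nat_lit 1), [⟨(nat_lit 2), (nat_lit 14), (nat_lit 1), (nat_lit 0)⟩]⟩
def e1258 : En := ⟨(nat_lit 52), (nat_lit 131088), (nat_lit 1), (nat_lit 1), [⟨(nat_lit 0), (nat_lit 12), (nat_lit 1), (nat_lit 0)⟩]⟩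
def e1259 : En := ⟨(nat_lit 50), (nat_lit 258), (nat_lit 1), (nat_lit 1), [⟨(nat_lit 8), (nat_lit 10), (nat_lit 1), (nat_lit 0)⟩]⟩
def f0 : Fc := ⟨false, st0, [], ⟨(nat_lit 0x39aa40000), [], [⟨(nb (nat_lit 2) (nat_lit 1216) (nat_lit 1)), (nat_lit 0), (nat_lit 3), (nat_lit 3)⟩], false⟩, []⟩
def f1 : Fc := ⟨false, st0, [], ⟨(nat_lit 0x39aa40000), [], [⟨(nb (nat_lit 1) (nat_lit 1216) (nat_lit 1)), (nat_lit 0), (nat_lit 2), (nat_lit 3)⟩], false⟩, []⟩
def f2 : Fc := ⟨false, st0, [], ⟨(nat_lit 0x39aa40000), [], [⟨(nb (nat_lit 2) (nat_lit 1216) (nat_lit 0)), (nat_lit 1), (nat_lit 3), (nat_lit 3)⟩], false⟩, []⟩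
def f3 : Fc := ⟨false, st0, [], ⟨(nat_lit 0x39aa40000), [], [⟨(nb (nat_lit 1) (nat_lit 1216) (nat_lit 0)), (nat_lit 1), (nat_lit 2), (nat_lit 3)⟩], false⟩, []⟩
def f4 : Fc := ⟨false, st0, [], ⟨(nat_lit 0x39aa40000), [], [⟨(nb (nat_lit 1) (nat_lit 1216) (nat_lit 2)), (nat_lit 0), (nat_lit 3), (nat_lit 3)⟩], false⟩, []⟩
def f5 : Fc := ⟨false, st0, [], ⟨(nat_lit 0x39aa40000), [], [⟨(nb (nat_lit 1) (nat_lit 1216) (nat_lit 0)), (nat_lit 0), (nat_lit 1), (nat_lit 3)⟩], false⟩, []⟩
def f6 : Fc := ⟨false, st0, [], ⟨(nat_lit 0x39aa40000), [], [⟨(nb (nat_lit 3) (nat_lit 1216) (nat_lit 1)), (nat_lit 0), (nat_lit 4), (nat_lit 3)⟩], false⟩, []⟩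
def f7 : Fc := ⟨false, st0, [], ⟨(nat_lit 0x39aa40000), [], [⟨(nb (nat_lit 1) (nat_lit 1216) (nat_lit 0)), (nat_lit 2), (nat_lit 3), (nat_lit 3)⟩], false⟩, []⟩
def f8 : Fc := ⟨false, st0, [], ⟨(nat_lit 0x39aa40000), [⟨(nb (nat_lit 1) (nat_lit 1216) (nat_lit 0)), (nat_lit 0), (nat_lit 1), (nat_lit 3)⟩], [⟨(nb (nat_lit 1) (nat_lit 1216) (nat_lit 0)), (nat_lit 2), (nat_lit 3), (nat_lit 3)⟩], false⟩, []⟩
def f9 : Fc := ⟨false, st0, [], ⟨(nat_lit 0x39aa40000), [⟨(nb (nat_lit 1) (nat_lit 1216) (nat_lit 0)), (nat_lit 0), (nat_lit 1), (nat_lit 3)⟩], [⟨(nb (nat_lit 2) (nat_lit 1216) (nat_lit 1)), (nat_lit 0), (nat_lit 3), (nat_lit 3)⟩], false⟩, []⟩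
def f10 : Fc := ⟨false, st0, [], ⟨(nat_lit 0xf4240000), [], [⟨(nb (nat_lit 2) (nat_lit 13376) (nat_lit 1)), (nat_lit 0), (nat_lit 3), (nat_lit 5)⟩], false⟩, []⟩
def f11 : Fc := ⟨false, st0, [], ⟨(nat_lit 0xf4240000), [], [⟨(nb (nat_lit 1) (nat_lit 13376) (nat_lit 2)), (nat_lit 0), (nat_lit 3), (nat_lit 5)⟩], false⟩, []⟩
def f12 : Fc := ⟨false, st0, [], ⟨(nat_lit 0xf4240000), [], [⟨(nb (nat_lit 1) (nat_lit 13376) (nat_lit 0)), (nat_lit 1), (nat_lit 2), (nat_lit 5)⟩], false⟩, []⟩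
def f13 : Fc := ⟨false, st0, [], ⟨(nat_lit 0x39aa40000), [], [⟨(nb (nat_lit 3) (nat_lit 1216) (nat_lit 0)), (nat_lit 2), (nat_lit 5), (nat_lit 3)⟩], false⟩, []⟩
def f14 : Fc := ⟨false, st0, [], ⟨(nat_lit 0x39aa40000), [], [⟨(nb (nat_lit 3) (nat_lit 1216) (nat_lit 2)), (nat_lit 0), (nat_lit 5), (nat_lit 3)⟩], false⟩, []⟩
def f15 : Fc := ⟨false, st0, [], ⟨(nat_lit 0x39aa40000), [], [⟨(nb (nat_lit 1) (nat_lit 1216) (nat_lit 3)), (nat_lit 0), (nat_lit 4), (nat_lit 3)⟩], false⟩, []⟩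
def f16 : Fc := ⟨false, st0, [], ⟨(nat_lit 0x39aa40000), [], [⟨(nb (nat_lit 2) (nat_lit 1216) (nat_lit 3)), (nat_lit 0), (nat_lit 5), (nat_lit 3)⟩], false⟩, []⟩
def f17 : Fc := ⟨false, st0, [], ⟨(nat_lit 0x39aa40000), [], [⟨(nb (nat_lit 3) (nat_lit 1216) (nat_lit 0)), (nat_lit 1), (nat_lit 4), (nat_lit 3)⟩], false⟩, []⟩
def f18 : Fc := ⟨false, st0, [], ⟨(nat_lit 0x39aa40000), [], [⟨(nb (nat_lit 2) (nat_lit 1216) (nat_lit 0)), (nat_lit 3), (nat_lit 5), (nat_lit 3)⟩], false⟩, []⟩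
def f19 : Fc := ⟨false, st0, [], ⟨(nat_lit 0x39aa40000), [], [⟨(nb (nat_lit 1) (nat_lit 1216) (nat_lit 0)), (nat_lit 3), (nat_lit 4), (nat_lit 3)⟩], false⟩, []⟩
def f20 : Fc := ⟨true, ⟨[[e0, e1, e2, e3, e4], [e5, e6, e7, e8, e9], [e10, e11, e12, e13, e14], [e15, e16, e17, e18, e19]], [], [], (nat_lit 20), (nat_lit 0xfffff00000fffff), (nat_lit 0), (nat_lit 15), (nat_lit 5)⟩, [⟨(nat_lit 69905), (nat_lit 1)⟩, ⟨(nat_lit 69905), (nat_lit 4)⟩, ⟨(nat_lit 69905), (nat_lit 3)⟩, ⟨(nat_lit 69905), (nat_lit 2)⟩], ⟨(nat_lit 262144), [], [], true⟩, []⟩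
def f21 : Fc := ⟨true, ⟨[[e5, e6, e7, e8, e9], [e10, e11, e12, e13, e14], [e15, e16, e17, e18, e19]], [], [], (nat_lit 15), (nat_lit 0x3ff00000fffff), (nat_lit 0), (nat_lit 20), (nat_lit 4)⟩, [], ⟨(nat_lit 262144), [], [], true⟩, []⟩
def f22 : Fc := ⟨true, ⟨[[e20, e21, e22, e23, e24], [e10, e11, e12, e13, e14], [e15, e16, e17, e18, e19]], [], [], (nat_lit 15), (nat_lit 0x3ff00000fffff), (nat_lit 0), (nat_lit 20), (nat_lit 4)⟩, [], ⟨(nat_lit 262144), [], [], true⟩, []⟩
def f23 : Fc := ⟨true, ⟨[[e20, e21, e22, e23, e24, e25, e26, e27, e28, e29], [e10, e11, e12, e13, e14], [e15, e16, e17, e18, e19]], [], [], (nat_lit 20), (nat_lit 0xfffff00000fffff), (nat_lit 0), (nat_lit 15), (nat_lit 4)⟩, [⟨(nat_lit 4369), (nat_lit 0)⟩], ⟨(nat_lit 262144), [], [], true⟩, []⟩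
def f24 : Fc := ⟨true, ⟨[[e20, e21, e22, e23, e24, e25, e26, e27, e28, e29], [e10, e11, e12, e13, e14], [e15, e16, e17, e18, e19]], [], [], (nat_lit 20), (nat_lit 0xfffff00000fffff), (nat_lit 0), (nat_lit 15), (nat_lit 4)⟩, [⟨(nat_lit 4354), (nat_lit 0)⟩, ⟨(nat_lit 4369), (nat_lit 0)⟩], ⟨(nat_lit 262144), [], [], true⟩, []⟩
def f25 : Fc := ⟨true, ⟨[[e20, e21, e22, e23, e24, e25, e26, e27, e28, e29], [e10, e11, e12, e13, e14], [e15, e16, e17, e18, e19]], [e30, e31, e32, e33, e34], [], (nat_lit 25), (nat_lit 0x3fffffff00000fffff), (nat_lit 0), (nat_lit 10), (nat_lit 4)⟩, [⟨(nat_lit 4369), (nat_lit 0)⟩], ⟨(nat_lit 262144), [], [], true⟩, []⟩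
def f26 : Fc := ⟨true, ⟨[[e20, e21, e22, e23, e24, e25, e26, e27, e28, e29], [e10, e11, e12, e13, e14], [e15, e16, e17, e18, e19]], [e35, e36, e37, e38, e39], [], (nat_lit 25), (nat_lit 0x3fffffff00000fffff), (nat_lit 0), (nat_lit 10), (nat_lit 4)⟩, [⟨(nat_lit 4369), (nat_lit 0)⟩], ⟨(nat_lit 262144), [], [], true⟩, []⟩
def f27 : Fc := ⟨true, ⟨[[e20, e21, e22, e23, e24, e25, e26, e27, e28, e29], [e10, e11, e12, e13, e14], [e15, e16, e17, e18, e19]], [], [], (nat_lit 20), (nat_lit 0xfffff00000fffff), (nat_lit 0), (nat_lit 15), (nat_lit 4)⟩, [], ⟨(nat_lit 262144), [], [], true⟩, []⟩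
def f28 : Fc := ⟨true, ⟨[[e40, e41, e42, e43, e44], [e10, e11, e12, e13, e14], [e15, e16, e17, e18, e19]], [], [], (nat_lit 15), (nat_lit 0x3ff00000fffff), (nat_lit 0), (nat_lit 20), (nat_lit 4)⟩, [], ⟨(nat_lit 262144), [], [], true⟩, []⟩
def f29 : Fc := ⟨true, ⟨[[e40, e41, e42, e43, e44, e25, e26, e27, e28, e29], [e10, e11, e12, e13, e14], [e15, e16, e17, e18, e19]], [], [], (nat_lit 20), (nat_lit 0xfffff00000fffff), (nat_lit 0), (nat_lit 15), (nat_lit 4)⟩, [⟨(nat_lit 4369), (nat_lit 0)⟩], ⟨(nat_lit 262144), [], [], true⟩, []⟩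
def f30 : Fc := ⟨true, ⟨[[e40, e41, e42, e43, e44, e25, e26, e27, e28, e29], [e10, e11, e12, e13, e14], [e15, e16, e17, e18, e19]], [], [], (nat_lit 20), (nat_lit 0xfffff00000fffff), (nat_lit 0), (nat_lit 15), (nat_lit 4)⟩, [⟨(nat_lit 4354), (nat_lit 0)⟩, ⟨(nat_lit 4369), (nat_lit 0)⟩], ⟨(nat_lit 262144), [], [], true⟩, []⟩
def f31 : Fc := ⟨true, ⟨[[e40, e41, e42, e43, e44, e25, e26, e27, e28, e29], [e10, e11, e12, e13, e14], [e15, e16, e17, e18, e19]], [e45, e46, e47, e48, e49], [], (nat_lit 25), (nat_lit 0x3fffffff00000fffff), (nat_lit 0), (nat_lit 10), (nat_lit 4)⟩, [⟨(nat_lit 4369), (nat_lit 0)⟩], ⟨(nat_lit 262144), [], [], true⟩, []⟩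
def f32 : Fc := ⟨true, ⟨[[e40, e41, e42, e43, e44, e25, e26, e27, e28, e29], [e10, e11, e12, e13, e14], [e15, e16, e17, e18, e19]], [e50, e51, e52, e53, e54], [], (nat_lit 25), (nat_lit 0x3fffffff00000fffff), (nat_lit 0), (nat_lit 10), (nat_lit 4)⟩, [⟨(nat_lit 4369), (nat_lit 0)⟩], ⟨(nat_lit 262144), [], [], true⟩, []⟩
def f33 : Fc := ⟨true, ⟨[[e40, e41, e42, e43, e44, e25, e26, e27, e28, e29], [e10, e11, e12, e13, e14], [e15, e16, e17, e18, e19]], [], [], (nat_lit 20), (nat_lit 0xfffff00000fffff), (nat_lit 0), (nat_lit 15), (nat_lit 4)⟩, [], ⟨(nat_lit 262144), [], [], true⟩, []⟩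
def f34 : Fc := ⟨true, ⟨[[e40, e41, e42, e43, e44, e55, e56, e57, e58, e59], [e10, e11, e12, e13, e14], [e15, e16, e17, e18, e19]], [], [], (nat_lit 20), (nat_lit 0xfffff00000fffff), (nat_lit 0), (nat_lit 15), (nat_lit 4)⟩, [⟨(nat_lit 259), (nat_lit 0)⟩, ⟨(nat_lit 769), (nat_lit 0)⟩, ⟨(nat_lit 4354), (nat_lit 0)⟩, ⟨(nat_lit 514), (nat_lit 0)⟩], ⟨(nat_lit 262144), [], [], true⟩, []⟩
def f35 : Fc := ⟨true, ⟨[[e40, e41, e42, e43, e44, e55, e56, e57, e58, e59, e60, e61, e62, e63, e64], [e10, e11, e12, e13, e14], [e15, e16, e17, e18, e19]], [], [], (nat_lit 25), (nat_lit 0x3fffffff00000fffff), (nat_lit 0), (nat_lit 10), (nat_lit 4)⟩, [⟨(nat_lit 4369), (nat_lit 0)⟩], ⟨(nat_lit 262144), [], [], true⟩, []⟩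
def f36 : Fc := ⟨true, ⟨[[e10, e11, e12, e13, e14], [e15, e16, e17, e18, e19]], [e59, e58, e57, e56, e55, e44, e43, e42, e41, e40], [], (nat_lit 20), (nat_lit 0xfffff00000fffff), (nat_lit 0), (nat_lit 15), (nat_lit 3)⟩, [⟨(nat_lit 4113), (nat_lit 0)⟩], ⟨(nat_lit 262144), [], [], true⟩, []⟩
def f37 : Fc := ⟨true, ⟨[[e10, e11, e12, e13, e14], [e15, e16, e17, e18, e19]], [], [], (nat_lit 10), (nat_lit 0xfffff), (nat_lit 0), (nat_lit 25), (nat_lit 3)⟩, [], ⟨(nat_lit 262144), [], [], true⟩, []⟩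
def f38 : Fc := ⟨true, ⟨[[e65, e66, e67, e68, e69], [e70, e71, e72, e73, e74], [e75, e76, e77, e78, e79], [e15, e16, e17, e18, e19]], [], [], (nat_lit 20), (nat_lit 0xfffff003ff003ff), (nat_lit 0), (nat_lit 15), (nat_lit 5)⟩, [⟨(nat_lit 69905), (nat_lit 1)⟩, ⟨(nat_lit 69905), (nat_lit 4)⟩, ⟨(nat_lit 69905), (nat_lit 3)⟩, ⟨(nat_lit 69905), (nat_lit 2)⟩], ⟨(nat_lit 262144), [], [], true⟩, []⟩
def f39 : Fc := ⟨true, ⟨[[e70, e71, e72, e73, e74], [e75, e76, e77, e78, e79], [e15, e16, e17, e18, e19]], [], [], (nat_lit 15), (nat_lit 0x3ff003ff003ff), (nat_lit 0), (nat_lit 20), (nat_lit 4)⟩, [], ⟨(nat_lit 262144), [], [], true⟩, []⟩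
def f40 : Fc := ⟨true, ⟨[[e80, e81, e82, e83, e84], [e75, e76, e77, e78, e79], [e15, e16, e17, e18, e19]], [], [], (nat_lit 15), (nat_lit 0x3ff003ff003ff), (nat_lit 0), (nat_lit 20), (nat_lit 4)⟩, [], ⟨(nat_lit 262144), [], [], true⟩, []⟩
def f41 : Fc := ⟨true, ⟨[[e80, e81, e82, e83, e84, e85, e86, e87, e88, e89], [e75, e76, e77, e78, e79], [e15, e16, e17, e18, e19]], [], [], (nat_lit 20), (nat_lit 0xfffff003ff003ff), (nat_lit 0), (nat_lit 15), (nat_lit 4)⟩, [⟨(nat_lit 4369), (nat_lit 0)⟩], ⟨(nat_lit 262144), [], [], true⟩, []⟩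
def f42 : Fc := ⟨true, ⟨[[e80, e81, e82, e83, e84, e85, e86, e87, e88, e89], [e75, e76, e77, e78, e79], [e15, e16, e17, e18, e19]], [e90, e91, e92, e93, e94], [], (nat_lit 25), (nat_lit 0x3fffffff003ff003ff), (nat_lit 0), (nat_lit 10), (nat_lit 4)⟩, [⟨(nat_lit 4369), (nat_lit 0)⟩], ⟨(nat_lit 262144), [], [], true⟩, []⟩
def f43 : Fc := ⟨true, ⟨[[e80, e81, e82, e83, e84, e85, e86, e87, e88, e89], [e75, e76, e77, e78, e79], [e15, e16, e17, e18, e19]], [e95, e96, e97, e98, e99], [], (nat_lit 25), (nat_lit 0x3fffffff003ff003ff), (nat_lit 0), (nat_lit 10), (nat_lit 4)⟩, [⟨(nat_lit 4369), (nat_lit 0)⟩], ⟨(nat_lit 262144), [], [], true⟩, []⟩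
def f44 : Fc := ⟨true, ⟨[[e80, e81, e82, e83, e84, e85, e86, e87, e88, e89], [e75, e76, e77, e78, e79], [e15, e16, e17, e18, e19]], [e100, e101, e102, e103, e104], [], (nat_lit 25), (nat_lit 0x3fffffff003ff003ff), (nat_lit 0), (nat_lit 10), (nat_lit 4)⟩, [⟨(nat_lit 4369), (nat_lit 0)⟩], ⟨(nat_lit 262144), [], [], true⟩, []⟩
def f45 : Fc := ⟨true, ⟨[[e80, e81, e82, e83, e84, e85, e86, e87, e88, e89], [e75, e76, e77, e78, e79], [e15, e16, e17, e18, e19]], [], [], (nat_lit 20), (nat_lit 0xfffff003ff003ff), (nat_lit 0), (nat_lit 15), (nat_lit 4)⟩, [], ⟨(nat_lit 262144), [], [], true⟩, []⟩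
def f46 : Fc := ⟨true, ⟨[[e105, e106, e107, e108, e109], [e75, e76, e77, e78, e79], [e15, e16, e17, e18, e19]], [], [], (nat_lit 15), (nat_lit 0x3ff003ff003ff), (nat_lit 0), (nat_lit 20), (nat_lit 4)⟩, [], ⟨(nat_lit 262144), [], [], true⟩, []⟩
def f47 : Fc := ⟨true, ⟨[[e105, e106, e107, e108, e109, e85, e86, e87, e88, e89], [e75, e76, e77, e78, e79], [e15, e16, e17, e18, e19]], [], [], (nat_lit 20), (nat_lit 0xfffff003ff003ff), (nat_lit 0), (nat_lit 15), (nat_lit 4)⟩, [⟨(nat_lit 4369), (nat_lit 0)⟩], ⟨(nat_lit 262144), [], [], true⟩, []⟩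
def f48 : Fc := ⟨true, ⟨[[e105, e106, e107, e108, e109, e85, e86, e87, e88, e89], [e75, e76, e77, e78, e79], [e15, e16, e17, e18, e19]], [], [], (nat_lit 20), (nat_lit 0xfffff003ff003ff), (nat_lit 0), (nat_lit 15), (nat_lit 4)⟩, [⟨(nat_lit 289), (nat_lit 0)⟩, ⟨(nat_lit 4369), (nat_lit 0)⟩], ⟨(nat_lit 262144), [], [], true⟩, []⟩
def f49 : Fc := ⟨true, ⟨[[e105, e106, e107, e108, e109, e85, e86, e87, e88, e89], [e75, e76, e77, e78, e79], [e15, e16, e17, e18, e19]], [e110, e111, e112, e113, e114], [], (nat_lit 25), (nat_lit 0x3fffffff003ff003ff), (nat_lit 0), (nat_lit 10), (nat_lit 4)⟩, [⟨(nat_lit 4369), (nat_lit 0)⟩], ⟨(nat_lit 262144), [], [], true⟩, []⟩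
def f50 : Fc := ⟨true, ⟨[[e105, e106, e107, e108, e109, e85, e86, e87, e88, e89], [e75, e76, e77, e78, e79], [e15, e16, e17, e18, e19]], [e115, e116, e117, e118, e119], [], (nat_lit 25), (nat_lit 0x3fffffff003ff003ff), (nat_lit 0), (nat_lit 10), (nat_lit 4)⟩, [⟨(nat_lit 4369), (nat_lit 0)⟩], ⟨(nat_lit 262144), [], [], true⟩, []⟩
def f51 : Fc := ⟨true, ⟨[[e105, e106, e107, e108, e109, e85, e86, e87, e88, e89], [e75, e76, e77, e78, e79], [e15, e16, e17, e18, e19]], [], [], (nat_lit 20), (nat_lit 0xfffff003ff003ff), (nat_lit 0), (nat_lit 15), (nat_lit 4)⟩, [], ⟨(nat_lit 262144), [], [], true⟩, []⟩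
def f52 : Fc := ⟨true, ⟨[[e105, e106, e107, e108, e109, e120, e121, e122, e123, e124], [e75, e76, e77, e78, e79], [e15, e16, e17, e18, e19]], [], [], (nat_lit 20), (nat_lit 0xfffff003ff003ff), (nat_lit 0), (nat_lit 15), (nat_lit 4)⟩, [⟨(nat_lit 19), (nat_lit 0)⟩, ⟨(nat_lit 49), (nat_lit 0)⟩, ⟨(nat_lit 34), (nat_lit 0)⟩, ⟨(nat_lit 289), (nat_lit 0)⟩], ⟨(nat_lit 262144), [], [], true⟩, []⟩
def f53 : Fc := ⟨true, ⟨[[e105, e106, e107, e108, e109, e120, e121, e122, e123, e124, e125, e126, e127, e128, e129], [e75, e76, e77, e78, e79], [e15, e16, e17, e18, e19]], [], [], (nat_lit 25), (nat_lit 0x3fffffff003ff003ff), (nat_lit 0), (nat_lit 10), (nat_lit 4)⟩, [⟨(nat_lit 4369), (nat_lit 0)⟩], ⟨(nat_lit 262144), [], [], true⟩, []⟩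
def f54 : Fc := ⟨true, ⟨[[e75, e76, e77, e78, e79], [e15, e16, e17, e18, e19]], [e124, e123, e122, e121, e120, e109, e108, e107, e106, e105], [], (nat_lit 20), (nat_lit 0xfffff003ff003ff), (nat_lit 0), (nat_lit 15), (nat_lit 3)⟩, [⟨(nat_lit 273), (nat_lit 0)⟩], ⟨(nat_lit 262144), [], [], true⟩, []⟩
def f55 : Fc := ⟨true, ⟨[[e75, e76, e77, e78, e79], [e15, e16, e17, e18, e19]], [], [], (nat_lit 10), (nat_lit 0x3ff003ff), (nat_lit 0), (nat_lit 25), (nat_lit 3)⟩, [], ⟨(nat_lit 262144), [], [], true⟩, []⟩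
def f56 : Fc := ⟨true, ⟨[[e130, e131, e132, e133, e134], [e5, e6, e7, e8, e9, e135, e136, e137, e138, e139], [e10, e11, e12, e13, e14, e75, e76, e77, e78, e79], [e15, e16, e17, e18, e19]], [], [], (nat_lit 30), (nat_lit 0x3fffffff003fffffff), (nat_lit 0), (nat_lit 5), (nat_lit 5)⟩, [⟨(nat_lit 69905), (nat_lit 2)⟩, ⟨(nat_lit 4625), (nat_lit 0)⟩, ⟨(nat_lit 69905), (nat_lit 4)⟩, ⟨(nat_lit 69905), (nat_lit 3)⟩], ⟨(nat_lit 0x39aa40000), [], [], false⟩, []⟩
def f57 : Fc := ⟨true, ⟨[[e130, e131, e132, e133, e134], [e5, e6, e7, e8, e9, e135, e136, e137, e138, e139], [e10, e11, e12, e13, e14, e75, e76, e77, e78, e79], [e15, e16, e17, e18, e19]], [], [], (nat_lit 30), (nat_lit 0x3fffffff003fffffff), (nat_lit 0), (nat_lit 5), (nat_lit 5)⟩, [⟨(nat_lit 69905), (nat_lit 1)⟩, ⟨(nat_lit 4625), (nat_lit 0)⟩, ⟨(nat_lit 69905), (nat_lit 4)⟩, ⟨(nat_lit 69905), (nat_lit 3)⟩, ⟨(nat_lit 69905), (nat_lit 2)⟩], ⟨(nat_lit 0x39aa40000), [], [], false⟩, []⟩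
def f58 : Fc := ⟨true, ⟨[[e130, e131, e132, e133, e134], [e5, e6, e7, e8, e9, e135, e136, e137, e138, e139], [e10, e11, e12, e13, e14, e75, e76, e77, e78, e79], [e15, e16, e17, e18, e19]], [], [], (nat_lit 30), (nat_lit 0x3fffffff003fffffff), (nat_lit 0), (nat_lit 5), (nat_lit 5)⟩, [], ⟨(nat_lit 0x39aa40000), [], [], true⟩, []⟩
def f59 : Fc := ⟨true, ⟨[[e5, e6, e7, e8, e9, e135, e136, e137, e138, e139], [e10, e11, e12, e13, e14, e75, e76, e77, e78, e79], [e15, e16, e17, e18, e19]], [], [], (nat_lit 25), (nat_lit 0xfffff003fffffff), (nat_lit 0), (nat_lit 10), (nat_lit 4)⟩, [], ⟨(nat_lit 262144), [], [], true⟩, []⟩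
def f60 : Fc := ⟨true, ⟨[[e140, e141, e142, e143, e144], [e10, e11, e12, e13, e14, e75, e76, e77, e78, e79], [e15, e16, e17, e18, e19]], [], [], (nat_lit 20), (nat_lit 0x3ff003fffffff), (nat_lit 0), (nat_lit 15), (nat_lit 4)⟩, [], ⟨(nat_lit 0x39aa40000), [], [], true⟩, []⟩
def f61 : Fc := ⟨true, ⟨[[e10, e11, e12, e13, e14, e75, e76, e77, e78, e79], [e15, e16, e17, e18, e19]], [], [], (nat_lit 15), (nat_lit 0x3fffffff), (nat_lit 0), (nat_lit 20), (nat_lit 3)⟩, [⟨(nat_lit 4113), (nat_lit 0)⟩], ⟨(nat_lit 262144), [], [], true⟩, []⟩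
def f62 : Fc := ⟨true, ⟨[[e20, e21, e22, e23, e24, e25, e26, e27, e28, e29], [e10, e11, e12, e13, e14, e75, e76, e77, e78, e79], [e15, e16, e17, e18, e19]], [], [], (nat_lit 25), (nat_lit 0xfffff003fffffff), (nat_lit 0), (nat_lit 10), (nat_lit 4)⟩, [⟨(nat_lit 4369), (nat_lit 0)⟩], ⟨(nat_lit 262144), [], [], true⟩, []⟩
def f63 : Fc := ⟨true, ⟨[[e145, e146, e147, e148, e149], [e150, e151, e152, e153, e154, e155, e156, e157, e158, e159], [e160, e161, e162, e163, e164, e165, e166, e167, e168, e169], [e15, e16, e17, e18, e19]], [], [], (nat_lit 30), (nat_lit 0x3fffffff003fffffff), (nat_lit 0), (nat_lit 5), (nat_lit 5)⟩, [], ⟨(nat_lit 262144), [], [], true⟩, []⟩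
def f64 : Fc := ⟨true, ⟨[[e20, e21, e22, e23, e24, e170, e171, e172, e173, e174], [e10, e11, e12, e13, e14, e75, e76, e77, e78, e79], [e15, e16, e17, e18, e19]], [], [], (nat_lit 25), (nat_lit 0xfffff003fffffff), (nat_lit 0), (nat_lit 10), (nat_lit 4)⟩, [⟨(nat_lit 4114), (nat_lit 0)⟩, ⟨(nat_lit 4129), (nat_lit 0)⟩, ⟨(nat_lit 4369), (nat_lit 0)⟩, ⟨(nat_lit 4354), (nat_lit 0)⟩], ⟨(nat_lit 0x39aa40000), [], [], true⟩, []⟩
def f65 : Fc := ⟨true, ⟨[[e20, e21, e22, e23, e24, e170, e171, e172, e173, e174], [e10, e11, e12, e13, e14, e75, e76, e77, e78, e79], [e15, e16, e17, e18, e19]], [], [], (nat_lit 25), (nat_lit 0xfffff003fffffff), (nat_lit 0), (nat_lit 10), (nat_lit 4)⟩, [], ⟨(nat_lit 0x39aa40000), [], [], true⟩, []⟩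
def f66 : Fc := ⟨true, ⟨[[e10, e11, e12, e13, e14, e75, e76, e77, e78, e79], [e15, e16, e17, e18, e19]], [], [], (nat_lit 15), (nat_lit 0x3fffffff), (nat_lit 0), (nat_lit 20), (nat_lit 3)⟩, [⟨(nat_lit 513), (nat_lit 0)⟩, ⟨(nat_lit 4113), (nat_lit 0)⟩], ⟨(nat_lit 262144), [], [], true⟩, []⟩
def f67 : Fc := ⟨true, ⟨[[e175, e176, e177, e178, e179], [e180, e181, e182, e183, e184, e25, e26, e27, e28, e29], [e10, e11, e12, e13, e14, e75, e76, e77, e78, e79], [e15, e16, e17, e18, e19]], [], [], (nat_lit 30), (nat_lit 0x3fffffff003fffffff), (nat_lit 0), (nat_lit 5), (nat_lit 5)⟩, [⟨(nat_lit 69905), (nat_lit 1)⟩, ⟨(nat_lit 69905), (nat_lit 4)⟩, ⟨(nat_lit 69905), (nat_lit 3)⟩, ⟨(nat_lit 69905), (nat_lit 2)⟩], ⟨(nat_lit 262144), [], [], false⟩, []⟩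
def f68 : Fc := ⟨true, ⟨[[e175, e176, e177, e178, e179], [e180, e181, e182, e183, e184, e25, e26, e27, e28, e29], [e10, e11, e12, e13, e14, e75, e76, e77, e78, e79], [e15, e16, e17, e18, e19]], [], [], (nat_lit 30), (nat_lit 0x3fffffff003fffffff), (nat_lit 0), (nat_lit 5), (nat_lit 5)⟩, [], ⟨(nat_lit 262144), [], [], true⟩, []⟩
def f69 : Fc := ⟨true, ⟨[[e185, e186, e187, e188, e189], [e180, e181, e182, e183, e184, e170, e171, e172, e173, e174], [e10, e11, e12, e13, e14, e75, e76, e77, e78, e79], [e15, e16, e17, e18, e19]], [], [], (nat_lit 30), (nat_lit 0x3fffffff003fffffff), (nat_lit 0), (nat_lit 5), (nat_lit 5)⟩, [⟨(nat_lit 69905), (nat_lit 1)⟩, ⟨(nat_lit 69905), (nat_lit 4)⟩, ⟨(nat_lit 69905), (nat_lit 3)⟩, ⟨(nat_lit 69905), (nat_lit 2)⟩], ⟨(nat_lit 0x39aa40000), [], [], false⟩, []⟩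
def f70 : Fc := ⟨true, ⟨[[e185, e186, e187, e188, e189], [e180, e181, e182, e183, e184, e170, e171, e172, e173, e174], [e10, e11, e12, e13, e14, e75, e76, e77, e78, e79], [e15, e16, e17, e18, e19]], [], [], (nat_lit 30), (nat_lit 0x3fffffff003fffffff), (nat_lit 0), (nat_lit 5), (nat_lit 5)⟩, [⟨(nat_lit 69905), (nat_lit 0)⟩, ⟨(nat_lit 69905), (nat_lit 4)⟩, ⟨(nat_lit 69905), (nat_lit 3)⟩, ⟨(nat_lit 69905), (nat_lit 2)⟩, ⟨(nat_lit 69905), (nat_lit 1)⟩], ⟨(nat_lit 0x39aa40000), [], [], false⟩, []⟩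
def f71 : Fc := ⟨true, ⟨[[e185, e186, e187, e188, e189], [e180, e181, e182, e183, e184, e170, e171, e172, e173, e174], [e10, e11, e12, e13, e14, e75, e76, e77, e78, e79], [e15, e16, e17, e18, e19]], [], [], (nat_lit 30), (nat_lit 0x3fffffff003fffffff), (nat_lit 0), (nat_lit 5), (nat_lit 5)⟩, [], ⟨(nat_lit 0x39aa40000), [], [], true⟩, []⟩
def f72 : Fc := ⟨true, ⟨[[e190, e191, e192, e193, e194], [e180, e181, e182, e183, e184, e170, e171, e172, e173, e174], [e10, e11, e12, e13, e14, e75, e76, e77, e78, e79], [e15, e16, e17, e18, e19]], [], [], (nat_lit 30), (nat_lit 0x3fffffff003fffffff), (nat_lit 0), (nat_lit 5), (nat_lit 5)⟩, [⟨(nat_lit 69905), (nat_lit 4)⟩, ⟨(nat_lit 4370), (nat_lit 0)⟩], ⟨(nat_lit 0xdbf983c40000), [], [], false⟩, []⟩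
def f73 : Fc := ⟨true, ⟨[[e190, e191, e192, e193, e194], [e180, e181, e182, e183, e184, e170, e171, e172, e173, e174], [e10, e11, e12, e13, e14, e75, e76, e77, e78, e79], [e15, e16, e17, e18, e19]], [], [], (nat_lit 30), (nat_lit 0x3fffffff003fffffff), (nat_lit 0), (nat_lit 5), (nat_lit 5)⟩, [⟨(nat_lit 69905), (nat_lit 3)⟩, ⟨(nat_lit 4370), (nat_lit 0)⟩, ⟨(nat_lit 69905), (nat_lit 4)⟩], ⟨(nat_lit 0xdbf983c40000), [⟨(nb (nat_lit 1) (nat_lit 1216) (nat_lit 0)), (nat_lit 0x10000000000000000), (nat_lit 2), (nat_lit 6)⟩], [], false⟩, []⟩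
def f74 : Fc := ⟨true, ⟨[[e195, e196, e197, e198, e199], [e200, e201, e202, e203, e204, e205, e206, e207, e208, e209], [e210, e211, e212, e213, e214, e215, e216, e217, e218, e219], [e15, e16, e17, e18, e19]], [e220], [], (nat_lit 31), (nat_lit 0xffffffffff003fffffff), (nat_lit 0), (nat_lit 4), (nat_lit 5)⟩, [⟨(nat_lit 69905), (nat_lit 3)⟩, ⟨(nat_lit 69905), (nat_lit 4)⟩], ⟨(nat_lit 0x39aa40000), [⟨(nb (nat_lit 1) (nat_lit 1216) (nat_lit 1)), (nat_lit 0x1000000000000000000000000000000000000000000000000), (nat_lit 3), (nat_lit 24)⟩, ⟨(nb (nat_lit 1) (nat_lit 1216) (nat_lit 0x1000000000000000100000000000000010000000000000001)), (nat_lit 0), (nat_lit 5), (nat_lit 24)⟩], [], false⟩, []⟩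
def f75 : Fc := ⟨true, ⟨[[e190, e191, e192, e193, e194], [e180, e181, e182, e183, e184, e170, e171, e172, e173, e174], [e10, e11, e12, e13, e14, e75, e76, e77, e78, e79], [e15, e16, e17, e18, e19]], [], [], (nat_lit 30), (nat_lit 0x3fffffff003fffffff), (nat_lit 0), (nat_lit 5), (nat_lit 5)⟩, [⟨(nat_lit 69905), (nat_lit 2)⟩, ⟨(nat_lit 4370), (nat_lit 0)⟩, ⟨(nat_lit 69905), (nat_lit 4)⟩, ⟨(nat_lit 69905), (nat_lit 3)⟩], ⟨(nat_lit 0xdbf983c40000), [⟨(nb (nat_lit 1) (nat_lit 1216) (nat_lit 0x1000000000000000100000000000000010000000000000001)), (nat_lit 0), (nat_lit 5), (nat_lit 24)⟩], [], false⟩, []⟩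
def f76 : Fc := ⟨true, ⟨[[e190, e191, e192, e193, e194], [e180, e181, e182, e183, e184, e170, e171, e172, e173, e174], [e10, e11, e12, e13, e14, e75, e76, e77, e78, e79], [e15, e16, e17, e18, e19]], [], [], (nat_lit 30), (nat_lit 0x3fffffff003fffffff), (nat_lit 0), (nat_lit 5), (nat_lit 5)⟩, [⟨(nat_lit 69905), (nat_lit 2)⟩, ⟨(nat_lit 4370), (nat_lit 0)⟩, ⟨(nat_lit 69905), (nat_lit 4)⟩, ⟨(nat_lit 69905), (nat_lit 3)⟩], ⟨(nat_lit 0xdbf983c40000), [], [], false⟩, []⟩
def f77 : Fc := ⟨true, ⟨[[e221, e222, e223, e224, e225], [e226, e227, e228, e229, e230, e231, e232, e233, e234, e235], [e236, e237, e238, e239, e240, e241, e242, e243, e244, e245], [e15, e16, e17, e18, e19]], [e246], [], (nat_lit 31), (nat_lit 0xffffffffff003fffffff), (nat_lit 0), (nat_lit 4), (nat_lit 5)⟩, [⟨(nat_lit 69905), (nat_lit 3)⟩, ⟨(nat_lit 69905), (nat_lit 4)⟩], ⟨(nat_lit 0x39aa40000), [⟨(nb (nat_lit 1) (nat_lit 1216) (nat_lit 0x1000000000000000100000000000000010000000000000002)),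 (nat_lit 0), (nat_lit 6), (nat_lit 24)⟩, ⟨(nb (nat_lit 1) (nat_lit 1216) (nat_lit 0)), (nat_lit 0x100000000000000000000000000000000), (nat_lit 2), (nat_lit 12)⟩], [], false⟩, []⟩
def f78 : Fc := ⟨true, ⟨[[e221, e222, e223, e224, e225], [e226, e227, e228, e229, e230, e231, e232, e233, e234, e235], [e236, e237, e238, e239, e240, e241, e242, e243, e244, e245], [e15, e16, e17, e18, e19]], [e246], [], (nat_lit 31), (nat_lit 0xffffffffff003fffffff), (nat_lit 0), (nat_lit 4), (nat_lit 5)⟩, [⟨(nat_lit 69905), (nat_lit 2)⟩, ⟨(nat_lit 69905), (nat_lit 4)⟩, ⟨(nat_lit 69905), (nat_lit 3)⟩], ⟨(nat_lit 0x39aa40000), [⟨(nb (nat_lit 1) (nat_lit 1216) (nat_lit 0x1000000000000000100000000000000010000000000000002)), (nat_lit 0), (nat_lit 6), (nat_lit 24)⟩, ⟨(nb (nat_lit 1) (nat_lit 1216) (nat_lit 0)), (nat_lit 0x100000000000000000000000000000000), (nat_lit 2), (nat_lit 12)⟩], [], false⟩, []⟩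
def f79 : Fc := ⟨true, ⟨[[e190, e191, e192, e193, e194], [e180, e181, e182, e183, e184, e170, e171, e172, e173, e174], [e10, e11, e12, e13, e14, e75, e76, e77, e78, e79], [e15, e16, e17, e18, e19]], [], [], (nat_lit 30), (nat_lit 0x3fffffff003fffffff), (nat_lit 0), (nat_lit 5), (nat_lit 5)⟩, [⟨(nat_lit 69905), (nat_lit 1)⟩, ⟨(nat_lit 4370), (nat_lit 0)⟩, ⟨(nat_lit 69905), (nat_lit 4)⟩, ⟨(nat_lit 69905), (nat_lit 3)⟩, ⟨(nat_lit 69905), (nat_lit 2)⟩], ⟨(nat_lit 0xdbf983c40000), [⟨(nb (nat_lit 1) (nat_lit 1216) (nat_lit 0)), (nat_lit 0x100000000000000000000000000000000), (nat_lit 2), (nat_lit 12)⟩], [], false⟩, []⟩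
def f80 : Fc := ⟨true, ⟨[[e190, e191, e192, e193, e194], [e180, e181, e182, e183, e184, e170, e171, e172, e173, e174], [e10, e11, e12, e13, e14, e75, e76, e77, e78, e79], [e15, e16, e17, e18, e19]], [], [], (nat_lit 30), (nat_lit 0x3fffffff003fffffff), (nat_lit 0), (nat_lit 5), (nat_lit 5)⟩, [⟨(nat_lit 69905), (nat_lit 1)⟩, ⟨(nat_lit 4370), (nat_lit 0)⟩, ⟨(nat_lit 69905), (nat_lit 4)⟩, ⟨(nat_lit 69905), (nat_lit 3)⟩, ⟨(nat_lit 69905), (nat_lit 2)⟩], ⟨(nat_lit 0xdbf983c40000), [], [], false⟩, []⟩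
def f81 : Fc := ⟨true, ⟨[[e190, e191, e192, e193, e194], [e180, e181, e182, e183, e184, e170, e171, e172, e173, e174], [e10, e11, e12, e13, e14, e75, e76, e77, e78, e79], [e15, e16, e17, e18, e19]], [], [], (nat_lit 30), (nat_lit 0x3fffffff003fffffff), (nat_lit 0), (nat_lit 5), (nat_lit 5)⟩, [⟨(nat_lit 69905), (nat_lit 0)⟩, ⟨(nat_lit 4370), (nat_lit 0)⟩, ⟨(nat_lit 69905), (nat_lit 4)⟩, ⟨(nat_lit 69905), (nat_lit 3)⟩, ⟨(nat_lit 69905), (nat_lit 2)⟩, ⟨(nat_lit 69905), (nat_lit 1)⟩], ⟨(nat_lit 0xdbf983c40000), [], [], false⟩, []⟩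
def f82 : Fc := ⟨true, ⟨[[e190, e191, e192, e193, e194], [e180, e181, e182, e183, e184, e170, e171, e172, e173, e174], [e10, e11, e12, e13, e14, e75, e76, e77, e78, e79], [e15, e16, e17, e18, e19]], [], [], (nat_lit 30), (nat_lit 0x3fffffff003fffffff), (nat_lit 0), (nat_lit 5), (nat_lit 5)⟩, [], ⟨(nat_lit 0xdbf983c40000), [], [], true⟩, []⟩
def f83 : Fc := ⟨true, ⟨[[e180, e181, e182, e183, e184, e170, e171, e172, e173, e174], [e10, e11, e12, e13, e14, e75, e76, e77, e78, e79], [e15, e16, e17, e18, e19]], [], [], (nat_lit 25), (nat_lit 0xfffff003fffffff), (nat_lit 0), (nat_lit 10), (nat_lit 4)⟩, [], ⟨(nat_lit 0x39aa40000), [], [], true⟩, []⟩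
def f84 : Fc := ⟨true, ⟨[[e10, e11, e12, e13, e14, e75, e76, e77, e78, e79], [e15, e16, e17, e18, e19]], [e184, e183, e182, e181, e180], [], (nat_lit 20), (nat_lit 0x3ff003fffffff), (nat_lit 0), (nat_lit 15), (nat_lit 3)⟩, [⟨(nat_lit 4113), (nat_lit 0)⟩], ⟨(nat_lit 262144), [], [], true⟩, []⟩
def f85 : Fc := ⟨true, ⟨[[e10, e11, e12, e13, e14, e75, e76, e77, e78, e79], [e15, e16, e17, e18, e19]], [e184, e183, e182, e181, e180], [], (nat_lit 20), (nat_lit 0x3ff003fffffff), (nat_lit 0), (nat_lit 15), (nat_lit 3)⟩, [⟨(nat_lit 513), (nat_lit 0)⟩, ⟨(nat_lit 4113), (nat_lit 0)⟩], ⟨(nat_lit 262144), [], [], true⟩, []⟩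
def f86 : Fc := ⟨true, ⟨[[e247, e248, e249, e250, e251], [e180, e181, e182, e183, e184, e85, e86, e87, e88, e89], [e10, e11, e12, e13, e14, e75, e76, e77, e78, e79], [e15, e16, e17, e18, e19]], [], [], (nat_lit 30), (nat_lit 0x3fffffff003fffffff), (nat_lit 0), (nat_lit 5), (nat_lit 5)⟩, [⟨(nat_lit 69905), (nat_lit 1)⟩, ⟨(nat_lit 69905), (nat_lit 4)⟩, ⟨(nat_lit 69905), (nat_lit 3)⟩, ⟨(nat_lit 69905), (nat_lit 2)⟩], ⟨(nat_lit 262144), [], [], false⟩, []⟩
def f87 : Fc := ⟨true, ⟨[[e180, e181, e182, e183, e184, e85, e86, e87, e88, e89], [e10, e11, e12, e13, e14, e75, e76, e77, e78, e79], [e15, e16, e17, e18, e19]], [], [], (nat_lit 25), (nat_lit 0xfffff003fffffff), (nat_lit 0), (nat_lit 10), (nat_lit 4)⟩, [⟨(nat_lit 4369), (nat_lit 0)⟩], ⟨(nat_lit 262144), [], [], true⟩, []⟩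
def f88 : Fc := ⟨true, ⟨[[e10, e11, e12, e13, e14, e75, e76, e77, e78, e79], [e15, e16, e17, e18, e19]], [e89, e88, e87, e86, e85, e184, e183, e182, e181, e180], [], (nat_lit 25), (nat_lit 0xfffff003fffffff), (nat_lit 0), (nat_lit 10), (nat_lit 3)⟩, [⟨(nat_lit 4113), (nat_lit 0)⟩], ⟨(nat_lit 262144), [], [], true⟩, []⟩
def f89 : Fc := ⟨true, ⟨[[e252, e253, e254, e255, e256], [e10, e11, e12, e13, e14, e75, e76, e77, e78, e79], [e15, e16, e17, e18, e19]], [], [], (nat_lit 20), (nat_lit 0x3ff003fffffff), (nat_lit 0), (nat_lit 15), (nat_lit 4)⟩, [⟨(nat_lit 4369), (nat_lit 0)⟩], ⟨(nat_lit 0x39aa40000), [], [⟨(nb (nat_lit 1) (nat_lit 1216) (nat_lit 0)), (nat_lit 0), (nat_lit 1), (nat_lit 3)⟩], true⟩, []⟩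
def f90 : Fc := ⟨true, ⟨[[e252, e253, e254, e255, e256], [e10, e11, e12, e13, e14, e75, e76, e77, e78, e79], [e15, e16, e17, e18, e19]], [], [], (nat_lit 20), (nat_lit 0x3ff003fffffff), (nat_lit 0), (nat_lit 15), (nat_lit 4)⟩, [], ⟨(nat_lit 0x39aa40000), [], [], true⟩, []⟩
def f91 : Fc := ⟨true, ⟨[[e257, e258, e259, e260, e261], [e252, e253, e254, e255, e256, e25, e26, e27, e28, e29], [e10, e11, e12, e13, e14, e75, e76, e77, e78, e79], [e15, e16, e17, e18, e19]], [], [], (nat_lit 30), (nat_lit 0x3fffffff003fffffff), (nat_lit 0), (nat_lit 5), (nat_lit 5)⟩, [⟨(nat_lit 69905), (nat_lit 4)⟩, ⟨(nat_lit 8465), (nat_lit 0)⟩, ⟨(nat_lit 4625), (nat_lit 0)⟩, ⟨(nat_lit 4370), (nat_lit 0)⟩], ⟨(nat_lit 0x39aa40000), [], [], false⟩, []⟩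
def f92 : Fc := ⟨true, ⟨[[e257, e258, e259, e260, e261], [e252, e253, e254, e255, e256, e25, e26, e27, e28, e29], [e10, e11, e12, e13, e14, e75, e76, e77, e78, e79], [e15, e16, e17, e18, e19]], [], [], (nat_lit 30), (nat_lit 0x3fffffff003fffffff), (nat_lit 0), (nat_lit 5), (nat_lit 5)⟩, [⟨(nat_lit 69905), (nat_lit 3)⟩, ⟨(nat_lit 8465), (nat_lit 0)⟩, ⟨(nat_lit 4625), (nat_lit 0)⟩, ⟨(nat_lit 4370), (nat_lit 0)⟩, ⟨(nat_lit 69905), (nat_lit 4)⟩], ⟨(nat_lit 0x39aa40000), [], [], false⟩, []⟩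
def f93 : Fc := ⟨true, ⟨[[e257, e258, e259, e260, e261], [e252, e253, e254, e255, e256, e25, e26, e27, e28, e29], [e10, e11, e12, e13, e14, e75, e76, e77, e78, e79], [e15, e16, e17, e18, e19]], [], [], (nat_lit 30), (nat_lit 0x3fffffff003fffffff), (nat_lit 0), (nat_lit 5), (nat_lit 5)⟩, [⟨(nat_lit 69905), (nat_lit 2)⟩, ⟨(nat_lit 8465), (nat_lit 0)⟩, ⟨(nat_lit 4625), (nat_lit 0)⟩, ⟨(nat_lit 4370), (nat_lit 0)⟩, ⟨(nat_lit 69905), (nat_lit 4)⟩, ⟨(nat_lit 69905), (nat_lit 3)⟩], ⟨(nat_lit 0x39aa40000), [], [], false⟩, []⟩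
def f94 : Fc := ⟨true, ⟨[[e257, e258, e259, e260, e261], [e252, e253, e254, e255, e256, e25, e26, e27, e28, e29], [e10, e11, e12, e13, e14, e75, e76, e77, e78, e79], [e15, e16, e17, e18, e19]], [], [], (nat_lit 30), (nat_lit 0x3fffffff003fffffff), (nat_lit 0), (nat_lit 5), (nat_lit 5)⟩, [⟨(nat_lit 69905), (nat_lit 1)⟩, ⟨(nat_lit 8465), (nat_lit 0)⟩, ⟨(nat_lit 4625), (nat_lit 0)⟩, ⟨(nat_lit 4370), (nat_lit 0)⟩, ⟨(nat_lit 69905), (nat_lit 4)⟩, ⟨(nat_lit 69905), (nat_lit 3)⟩, ⟨(nat_lit 69905), (nat_lit 2)⟩], ⟨(nat_lit 0x39aa40000), [], [⟨(nb (nat_lit 1) (nat_lit 1216) (nat_lit 0)), (nat_lit 0), (nat_lit 1), (nat_lit 3)⟩], false⟩, []⟩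
def f95 : Fc := ⟨true, ⟨[[e257, e258, e259, e260, e261], [e252, e253, e254, e255, e256, e25, e26, e27, e28, e29], [e10, e11, e12, e13, e14, e75, e76, e77, e78, e79], [e15, e16, e17, e18, e19]], [], [], (nat_lit 30), (nat_lit 0x3fffffff003fffffff), (nat_lit 0), (nat_lit 5), (nat_lit 5)⟩, [⟨(nat_lit 69905), (nat_lit 1)⟩, ⟨(nat_lit 8465), (nat_lit 0)⟩, ⟨(nat_lit 4625), (nat_lit 0)⟩, ⟨(nat_lit 4370), (nat_lit 0)⟩, ⟨(nat_lit 69905), (nat_lit 4)⟩, ⟨(nat_lit 69905), (nat_lit 3)⟩, ⟨(nat_lit 69905), (nat_lit 2)⟩], ⟨(nat_lit 0x39aa40000), [], [], false⟩, []⟩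
def f96 : Fc := ⟨true, ⟨[[e257, e258, e259, e260, e261], [e252, e253, e254, e255, e256, e25, e26, e27, e28, e29], [e10, e11, e12, e13, e14, e75, e76, e77, e78, e79], [e15, e16, e17, e18, e19]], [], [], (nat_lit 30), (nat_lit 0x3fffffff003fffffff), (nat_lit 0), (nat_lit 5), (nat_lit 5)⟩, [], ⟨(nat_lit 0x39aa40000), [], [], true⟩, []⟩
def f97 : Fc := ⟨true, ⟨[[e262, e263, e264, e265, e266], [e252, e253, e254, e255, e256, e25, e26, e27, e28, e29], [e10, e11, e12, e13, e14, e75, e76, e77, e78, e79], [e15, e16, e17, e18, e19]], [], [], (nat_lit 30), (nat_lit 0x3fffffff003fffffff), (nat_lit 0), (nat_lit 5), (nat_lit 5)⟩, [⟨(nat_lit 69905), (nat_lit 4)⟩, ⟨(nat_lit 4625), (nat_lit 0)⟩], ⟨(nat_lit 0xdbf983c40000), [], [], false⟩, []⟩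
def f98 : Fc := ⟨true, ⟨[[e262, e263, e264, e265, e266], [e252, e253, e254, e255, e256, e25, e26, e27, e28, e29], [e10, e11, e12, e13, e14, e75, e76, e77, e78, e79], [e15, e16, e17, e18, e19]], [], [], (nat_lit 30), (nat_lit 0x3fffffff003fffffff), (nat_lit 0), (nat_lit 5), (nat_lit 5)⟩, [⟨(nat_lit 69905), (nat_lit 3)⟩, ⟨(nat_lit 4625), (nat_lit 0)⟩, ⟨(nat_lit 69905), (nat_lit 4)⟩], ⟨(nat_lit 0xdbf983c40000), [⟨(nb (nat_lit 1) (nat_lit 1216) (nat_lit 0)), (nat_lit 0), (nat_lit 1), (nat_lit 3)⟩], [], false⟩, []⟩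
def f99 : Fc := ⟨true, ⟨[[e262, e263, e264, e265, e266], [e252, e253, e254, e255, e256, e25, e26, e27, e28, e29], [e10, e11, e12, e13, e14, e75, e76, e77, e78, e79], [e15, e16, e17, e18, e19]], [], [], (nat_lit 30), (nat_lit 0x3fffffff003fffffff), (nat_lit 0), (nat_lit 5), (nat_lit 5)⟩, [⟨(nat_lit 69905), (nat_lit 2)⟩, ⟨(nat_lit 4625), (nat_lit 0)⟩, ⟨(nat_lit 69905), (nat_lit 4)⟩, ⟨(nat_lit 69905), (nat_lit 3)⟩], ⟨(nat_lit 0xdbf983c40000), [⟨(nb (nat_lit 1) (nat_lit 1216) (nat_lit 0)), (nat_lit 0), (nat_lit 1), (nat_lit 3)⟩], [], false⟩, []⟩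
def f100 : Fc := ⟨true, ⟨[[e262, e263, e264, e265, e266], [e252, e253, e254, e255, e256, e25, e26, e27, e28, e29], [e10, e11, e12, e13, e14, e75, e76, e77, e78, e79], [e15, e16, e17, e18, e19]], [], [], (nat_lit 30), (nat_lit 0x3fffffff003fffffff), (nat_lit 0), (nat_lit 5), (nat_lit 5)⟩, [⟨(nat_lit 69905), (nat_lit 2)⟩, ⟨(nat_lit 4625), (nat_lit 0)⟩, ⟨(nat_lit 69905), (nat_lit 4)⟩, ⟨(nat_lit 69905), (nat_lit 3)⟩], ⟨(nat_lit 0xdbf983c40000), [], [], false⟩, []⟩
def f101 : Fc := ⟨true, ⟨[[e262, e263, e264, e265, e266], [e252, e253, e254, e255, e256, e25, e26, e27, e28, e29], [e10, e11, e12, e13, e14, e75, e76, e77, e78, e79], [e15, e16, e17, e18, e19]], [], [], (nat_lit 30), (nat_lit 0x3fffffff003fffffff), (nat_lit 0), (nat_lit 5), (nat_lit 5)⟩, [⟨(nat_lit 69905), (nat_lit 1)⟩, ⟨(nat_lit 4625), (nat_lit 0)⟩, ⟨(nat_lit 69905), (nat_lit 4)⟩, ⟨(nat_lit 69905), (nat_lit 3)⟩, ⟨(nat_lit 69905), (nat_lit 2)⟩], ⟨(nat_lit 0xdbf983c40000), [⟨(nb (nat_lit 1) (nat_lit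 13376) (nat_lit 0)), (nat_lit 0), (nat_lit 1), (nat_lit 5)⟩, ⟨(nb (nat_lit 1) (nat_lit 1216) (nat_lit 0)), (nat_lit 0), (nat_lit 1), (nat_lit 3)⟩], [], false⟩, []⟩
def f102 : Fc := ⟨true, ⟨[[e262, e263, e264, e265, e266], [e252, e253, e254, e255, e256, e25, e26, e27, e28, e29], [e10, e11, e12, e13, e14, e75, e76, e77, e78, e79], [e15, e16, e17, e18, e19]], [], [], (nat_lit 30), (nat_lit 0x3fffffff003fffffff), (nat_lit 0), (nat_lit 5), (nat_lit 5)⟩, [⟨(nat_lit 69905), (nat_lit 1)⟩, ⟨(nat_lit 4625), (nat_lit 0)⟩, ⟨(nat_lit 69905), (nat_lit 4)⟩, ⟨(nat_lit 69905), (nat_lit 3)⟩, ⟨(nat_lit 69905), (nat_lit 2)⟩], ⟨(nat_lit 0xdbf983c40000), [], [⟨(nb (nat_lit 1) (nat_lit 1216) (nat_lit 0)), (nat_lit 0), (nat_lit 1), (nat_lit 3)⟩], false⟩, []⟩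
def f103 : Fc := ⟨true, ⟨[[e262, e263, e264, e265, e266], [e252, e253, e254, e255, e256, e25, e26, e27, e28, e29], [e10, e11, e12, e13, e14, e75, e76, e77, e78, e79], [e15, e16, e17, e18, e19]], [], [], (nat_lit 30), (nat_lit 0x3fffffff003fffffff), (nat_lit 0), (nat_lit 5), (nat_lit 5)⟩, [⟨(nat_lit 69905), (nat_lit 1)⟩, ⟨(nat_lit 4625), (nat_lit 0)⟩, ⟨(nat_lit 69905), (nat_lit 4)⟩, ⟨(nat_lit 69905), (nat_lit 3)⟩, ⟨(nat_lit 69905), (nat_lit 2)⟩], ⟨(nat_lit 0xdbf983c40000), [], [], false⟩, []⟩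
def f104 : Fc := ⟨true, ⟨[[e262, e263, e264, e265, e266], [e252, e253, e254, e255, e256, e25, e26, e27, e28, e29], [e10, e11, e12, e13, e14, e75, e76, e77, e78, e79], [e15, e16, e17, e18, e19]], [], [], (nat_lit 30), (nat_lit 0x3fffffff003fffffff), (nat_lit 0), (nat_lit 5), (nat_lit 5)⟩, [⟨(nat_lit 69905), (nat_lit 0)⟩, ⟨(nat_lit 4625), (nat_lit 0)⟩, ⟨(nat_lit 69905), (nat_lit 4)⟩, ⟨(nat_lit 69905), (nat_lit 3)⟩, ⟨(nat_lit 69905), (nat_lit 2)⟩, ⟨(nat_lit 69905), (nat_lit 1)⟩], ⟨(nat_lit 0xdbf983c40000), [⟨(nb (nat_lit 1) (nat_lit 1216) (nat_lit 0)), (nat_lit 0x1000000000000000100000000000000000000000000000003), (nat_lit 6), (nat_lit 24)⟩, ⟨(nb (nat_lit 1) (nat_lit 13376) (nat_lit 0)), (nat_lit 0), (nat_lit 1), (nat_lit 5)⟩], [], false⟩, []⟩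
def f105 : Fc := ⟨true, ⟨[[e262, e263, e264, e265, e266], [e252, e253, e254, e255, e256, e25, e26, e27, e28, e29], [e10, e11, e12, e13, e14, e75, e76, e77, e78, e79], [e15, e16, e17, e18, e19]], [], [], (nat_lit 30), (nat_lit 0x3fffffff003fffffff), (nat_lit 0), (nat_lit 5), (nat_lit 5)⟩, [⟨(nat_lit 69905), (nat_lit 0)⟩, ⟨(nat_lit 4625), (nat_lit 0)⟩, ⟨(nat_lit 69905), (nat_lit 4)⟩, ⟨(nat_lit 69905), (nat_lit 3)⟩, ⟨(nat_lit 69905), (nat_lit 2)⟩, ⟨(nat_lit 69905), (nat_lit 1)⟩], ⟨(nat_lit 0xdbf983c40000), [⟨(nb (nat_lit 1) (nat_lit 13376) (nat_lit 0)), (nat_lit 0), (nat_lit 1), (nat_lit 5)⟩], [], false⟩, []⟩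
def f106 : Fc := ⟨true, ⟨[[e262, e263, e264, e265, e266], [e252, e253, e254, e255, e256, e25, e26, e27, e28, e29], [e10, e11, e12, e13, e14, e75, e76, e77, e78, e79], [e15, e16, e17, e18, e19]], [], [], (nat_lit 30), (nat_lit 0x3fffffff003fffffff), (nat_lit 0), (nat_lit 5), (nat_lit 5)⟩, [], ⟨(nat_lit 0xdbf983c40000), [], [], true⟩, []⟩
def f107 : Fc := ⟨true, ⟨[[e267, e268, e269, e270, e271], [e252, e253, e254, e255, e256, e272, e273, e274, e275, e276], [e10, e11, e12, e13, e14, e75, e76, e77, e78, e79], [e15, e16, e17, e18, e19]], [], [], (nat_lit 30), (nat_lit 0x3fffffff003fffffff), (nat_lit 0), (nat_lit 5), (nat_lit 5)⟩, [⟨(nat_lit 69905), (nat_lit 4)⟩, ⟨(nat_lit 4625), (nat_lit 0)⟩, ⟨(nat_lit 4385), (nat_lit 0)⟩, ⟨(nat_lit 4370), (nat_lit 0)⟩], ⟨(nat_lit 0xdbf983c40000), [⟨(nb (nat_lit 1) (nat_lit 1216) (nat_lit 0)), (nat_lit 2), (nat_lit 3), (nat_lit 3)⟩, ⟨(nb (nat_lit 1) (nat_lit 1216) (nat_lit 0)), (nat_lit 0), (nat_lit 1), (nat_lit 3)⟩],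 [], false⟩, []⟩
def f108 : Fc := ⟨true, ⟨[[e267, e268, e269, e270, e271], [e252, e253, e254, e255, e256, e272, e273, e274, e275, e276], [e10, e11, e12, e13, e14, e75, e76, e77, e78, e79], [e15, e16, e17, e18, e19]], [], [], (nat_lit 30), (nat_lit 0x3fffffff003fffffff), (nat_lit 0), (nat_lit 5), (nat_lit 5)⟩, [⟨(nat_lit 69905), (nat_lit 3)⟩, ⟨(nat_lit 4625), (nat_lit 0)⟩, ⟨(nat_lit 4385), (nat_lit 0)⟩, ⟨(nat_lit 4370), (nat_lit 0)⟩, ⟨(nat_lit 69905), (nat_lit 4)⟩], ⟨(nat_lit 0xdbf983c40000), [⟨(nb (nat_lit 1) (nat_lit 1216) (nat_lit 0)), (nat_lit 2), (nat_lit 3), (nat_lit 3)⟩, ⟨(nb (nat_lit 1) (nat_lit 1216) (nat_lit 0)), (nat_lit 0), (nat_lit 1), (nat_lit 3)⟩], [⟨(nb (nat_lit 1) (nat_lit 14592) (nb (nat_lit 1) (nat_lit 13440) (nb (nat_lit 1) (nat_lit 1216) (nb (nat_lit 0x20000000000000002) (nat_lit 64) (nat_lit 0))))), (nb (nat_lit 1) (nat_lit 13376) (nb (nat_lit 1) (nat_lit 1344) (nat_lit 0))), (nat_lit 9), (nat_lit 60)⟩], false⟩, []⟩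
def f109 : Fc := ⟨true, ⟨[[e277, e278, e279, e280, e281], [e282, e283, e284, e285, e286, e287, e288, e289, e290, e291], [e292, e293, e294, e295, e296, e297, e298, e299, e300, e301], [e15, e16, e17, e18, e19]], [e302], [], (nat_lit 31), (nat_lit 0xffffffffff003fffffff), (nat_lit 0), (nat_lit 4), (nat_lit 5)⟩, [⟨(nat_lit 69905), (nat_lit 3)⟩, ⟨(nat_lit 69905), (nat_lit 4)⟩], ⟨(nat_lit 0x39aa40000), [⟨(nb (nat_lit 1) (nat_lit 1216) (nat_lit 0)), (nat_lit 0x1000000000000000100000000000000010000000000000002), (nat_lit 6), (nat_lit 24)⟩, ⟨(nb (nat_lit 1) (nat_lit 1216) (nat_lit 0)), (nat_lit 0), (nat_lit 1), (nat_lit 3)⟩, ⟨(nb (nat_lit 1) (nat_lit 1216) (nat_lit 0)), (nat_lit 2), (nat_lit 3), (nat_lit 3)⟩], [], false⟩, []⟩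
def f110 : Fc := ⟨true, ⟨[[e277, e278, e279, e280, e281], [e282, e283, e284, e285, e286, e287, e288, e289, e290, e291], [e292, e293, e294, e295, e296, e297, e298, e299, e300, e301], [e15, e16, e17, e18, e19]], [], [], (nat_lit 30), (nat_lit 0x3fffffff003fffffff), (nat_lit 0), (nat_lit 5), (nat_lit 5)⟩, [⟨(nat_lit 69905), (nat_lit 2)⟩, ⟨(nat_lit 4625), (nat_lit 0)⟩, ⟨(nat_lit 4385), (nat_lit 0)⟩, ⟨(nat_lit 4370), (nat_lit 0)⟩, ⟨(nat_lit 69905), (nat_lit 4)⟩, ⟨(nat_lit 69905), (nat_lit 3)⟩], ⟨(nat_lit 0x39aa40000), [⟨(nat_lit 0x1000000000000000100000000000000010000000000000002), (nb (nat_lit 1) (nat_lit 1216) (nat_lit 0)), (nat_lit 6), (nat_lit 24)⟩, ⟨(nb (nat_lit 1) (nat_lit 1216) (nat_lit 0)), (nat_lit 0), (nat_lit 1), (nat_lit 3)⟩, ⟨(nb (nat_lit 1) (nat_lit 1216) (nat_lit 0)), (nat_lit 2), (nat_lit 3), (nat_lit 3)⟩], [], false⟩, []⟩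
def f111 : Fc := ⟨true, ⟨[[e267, e268, e269, e270, e271], [e252, e253, e254, e255, e256, e272, e273, e274, e275, e276], [e10, e11, e12, e13, e14, e75, e76, e77, e78, e79], [e15, e16, e17, e18, e19]], [], [], (nat_lit 30), (nat_lit 0x3fffffff003fffffff), (nat_lit 0), (nat_lit 5), (nat_lit 5)⟩, [⟨(nat_lit 69905), (nat_lit 2)⟩, ⟨(nat_lit 4625), (nat_lit 0)⟩, ⟨(nat_lit 4385), (nat_lit 0)⟩, ⟨(nat_lit 4370), (nat_lit 0)⟩, ⟨(nat_lit 69905), (nat_lit 4)⟩, ⟨(nat_lit 69905), (nat_lit 3)⟩], ⟨(nat_lit 0xdbf983c40000), [⟨(nb (nat_lit 1) (nat_lit 1216) (nat_lit 0)), (nat_lit 2), (nat_lit 3), (nat_lit 3)⟩, ⟨(nb (nat_lit 1) (nat_lit 1216) (nat_lit 0)), (nat_lit 0), (nat_lit 1), (nat_lit 3)⟩], [], false⟩, []⟩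
def f112 : Fc := ⟨true, ⟨[[e303, e304, e305, e306, e307], [e308, e309, e310, e311, e312, e313, e314, e315, e316, e317], [e318, e319, e320, e321, e322, e323, e324, e325, e326, e327], [e15, e16, e17, e18, e19]], [e328], [], (nat_lit 31), (nat_lit 0xffffffffff003fffffff), (nat_lit 0), (nat_lit 4), (nat_lit 5)⟩, [⟨(nat_lit 69905), (nat_lit 3)⟩, ⟨(nat_lit 69905), (nat_lit 4)⟩], ⟨(nat_lit 0x39aa40000), [⟨(nb (nat_lit 1) (nat_lit 1216) (nb (nat_lit 1) (nat_lit 128) (nat_lit 0))), (nat_lit 1), (nat_lit 3), (nat_lit 12)⟩, ⟨(nb (nat_lit 1) (nat_lit 1216) (nat_lit 0)), (nat_lit 0), (nat_lit 1), (nat_lit 3)⟩, ⟨(nb (nat_lit 1) (nat_lit 1216) (nat_lit 0)), (nat_lit 2), (nat_lit 3), (nat_lit 3)⟩], [], false⟩, []⟩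
def f113 : Fc := ⟨true, ⟨[[e303, e304, e305, e306, e307], [e308, e309, e310, e311, e312, e313, e314, e315, e316, e317], [e318, e319, e320, e321, e322, e323, e324, e325, e326, e327], [e15, e16, e17, e18, e19]], [e328], [], (nat_lit 31), (nat_lit 0xffffffffff003fffffff), (nat_lit 0), (nat_lit 4), (nat_lit 5)⟩, [⟨(nat_lit 69905), (nat_lit 2)⟩, ⟨(nat_lit 69905), (nat_lit 4)⟩, ⟨(nat_lit 69905), (nat_lit 3)⟩], ⟨(nat_lit 0x39aa40000), [⟨(nb (nat_lit 1) (nat_lit 1216) (nb (nat_lit 1) (nat_lit 128) (nat_lit 0))), (nat_lit 1), (nat_lit 3), (nat_lit 12)⟩, ⟨(nb (nat_lit 1) (nat_lit 1216) (nat_lit 0)), (nat_lit 0), (nat_lit 1), (nat_lit 3)⟩, ⟨(nb (nat_lit 1) (nat_lit 1216) (nat_lit 0)), (nat_lit 2), (nat_lit 3), (nat_lit 3)⟩], [], false⟩, []⟩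
def f114 : Fc := ⟨true, ⟨[[e267, e268, e269, e270, e271], [e252, e253, e254, e255, e256, e272, e273, e274, e275, e276], [e10, e11, e12, e13, e14, e75, e76, e77, e78, e79], [e15, e16, e17, e18, e19]], [], [], (nat_lit 30), (nat_lit 0x3fffffff003fffffff), (nat_lit 0), (nat_lit 5), (nat_lit 5)⟩, [⟨(nat_lit 69905), (nat_lit 1)⟩, ⟨(nat_lit 4625), (nat_lit 0)⟩, ⟨(nat_lit 4385), (nat_lit 0)⟩, ⟨(nat_lit 4370), (nat_lit 0)⟩, ⟨(nat_lit 69905), (nat_lit 4)⟩, ⟨(nat_lit 69905), (nat_lit 3)⟩, ⟨(nat_lit 69905), (nat_lit 2)⟩], ⟨(nat_lit 0xdbf983c40000), [⟨(nb (nat_lit 1) (nat_lit 1216) (nat_lit 0)), (nat_lit 2), (nat_lit 3), (nat_lit 3)⟩, ⟨(nb (nat_lit 1) (nat_lit 1216) (nat_lit 0)), (nat_lit 0), (nat_lit 1), (nat_lit 3)⟩], [⟨(nb (nat_lit 1) (nat_lit 14592) (nb (nat_lit 1) (nat_lit 13504) (nb (nat_lit 0x1000000000000000100000000000000010000000000000002) (nat_lit 1216) (nat_lit 0)))), (nb (nat_lit 1) (nat_lit 13376) (nat_lit 0x2000000000000000000000000000000020000000000000002)),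 (nat_lit 14), (nat_lit 120)⟩], false⟩, []⟩
def f115 : Fc := ⟨true, ⟨[[e267, e268, e269, e270, e271], [e252, e253, e254, e255, e256, e272, e273, e274, e275, e276], [e10, e11, e12, e13, e14, e75, e76, e77, e78, e79], [e15, e16, e17, e18, e19]], [], [], (nat_lit 30), (nat_lit 0x3fffffff003fffffff), (nat_lit 0), (nat_lit 5), (nat_lit 5)⟩, [], ⟨(nat_lit 0xdbf983c40000), [⟨(nb (nat_lit 1) (nat_lit 1216) (nat_lit 0)), (nat_lit 2), (nat_lit 3), (nat_lit 3)⟩, ⟨(nb (nat_lit 1) (nat_lit 1216) (nat_lit 0)), (nat_lit 0), (nat_lit 1), (nat_lit 3)⟩], [], true⟩, []⟩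
def f116 : Fc := ⟨true, ⟨[[e329, e330, e331, e332, e333], [e252, e253, e254, e255, e256, e272, e273, e274, e275, e276], [e10, e11, e12, e13, e14, e75, e76, e77, e78, e79], [e15, e16, e17, e18, e19]], [], [], (nat_lit 30), (nat_lit 0x3fffffff003fffffff), (nat_lit 0), (nat_lit 5), (nat_lit 5)⟩, [⟨(nat_lit 8465), (nat_lit 0)⟩], ⟨(nat_lit 0x126bb4f8b9c0000), [⟨(nb (nat_lit 1) (nat_lit 1216) (nat_lit 0)), (nat_lit 2), (nat_lit 3), (nat_lit 3)⟩, ⟨(nb (nat_lit 1) (nat_lit 1216) (nat_lit 0)), (nat_lit 0), (nat_lit 1), (nat_lit 3)⟩], [], false⟩, [⟨[(nat_lit 1), (nat_lit 16), (nat_lit 17), (nat_lit 256), (nat_lit 257), (nat_lit 272), (nat_lit 273), (nat_lit 4096), (nat_lit 4097), (nat_lit 4112), (nat_lit 4113), (nat_lit 4352), (nat_lit 4353), (nat_lit 4368), (nat_lit 4369), (nat_lit 8465), (nat_lit 65536), (nat_lit 65537), (nat_lit 65552), (nat_lit 65553), (nat_lit 65792), (nat_lit 65793), (nat_lit 65808), (nat_lit 65809), (nat_lit 66065), (nat_lit 69632),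 (nat_lit 69633), (nat_lit 69648), (nat_lit 69649), (nat_lit 69665), (nat_lit 69888), (nat_lit 69889), (nat_lit 69890), (nat_lit 69904), (nat_lit 135440)], [(nat_lit 1), (nb (nat_lit 1) (nat_lit 3648) (nb (nat_lit 1) (nat_lit 2432) (nb (nat_lit 2) (nat_lit 1216) (nat_lit 1)))), (nat_lit 0)], (nat_lit 1), (nat_lit 0)⟩]⟩
def f117 : Fc := ⟨true, ⟨[[e329, e330, e331, e332, e333], [e252, e253, e254, e255, e256, e272, e273, e274, e275, e276], [e10, e11, e12, e13, e14, e75, e76, e77, e78, e79], [e15, e16, e17, e18, e19]], [], [], (nat_lit 30), (nat_lit 0x3fffffff003fffffff), (nat_lit 0), (nat_lit 5), (nat_lit 5)⟩, [⟨(nat_lit 4625), (nat_lit 0)⟩, ⟨(nat_lit 8465), (nat_lit 0)⟩], ⟨(nat_lit 0x126bb4f8b9c0000), [⟨(nb (nat_lit 1) (nat_lit 1216) (nat_lit 0)), (nat_lit 2), (nat_lit 3), (nat_lit 3)⟩, ⟨(nb (nat_lit 1) (nat_lit 1216) (nat_lit 0)), (nat_lit 0), (nat_lit 1), (nat_lit 3)⟩], [], false⟩, [⟨[(nat_lit 1), (nat_lit 16), (nat_lit 17), (nat_lit 256), (nat_lit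 257), (nat_lit 272), (nat_lit 273), (nat_lit 4096), (nat_lit 4097), (nat_lit 4112), (nat_lit 4113), (nat_lit 4352), (nat_lit 4353), (nat_lit 4368), (nat_lit 4369), (nat_lit 4625), (nat_lit 65536), (nat_lit 65537), (nat_lit 65552), (nat_lit 65553), (nat_lit 65792), (nat_lit 65793), (nat_lit 65808), (nat_lit 65809), (nat_lit 65825), (nat_lit 69632), (nat_lit 69633), (nat_lit 69648), (nat_lit 69649), (nat_lit 69650), (nat_lit 69888), (nat_lit 69889), (nat_lit 69904), (nat_lit 74000), (nat_lit 135425)], [(nat_lit 1), (nb (nat_lit 1) (nat_lit 3648) (nat_lit 0)), (nb (nat_lit 2) (nat_lit 2432) (nb (nat_lit 3) (nat_lit 1216) (nat_lit 1)))], (nat_lit 1), (nat_lit 0)⟩]⟩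
def f118 : Fc := ⟨true, ⟨[[e329, e330, e331, e332, e333], [e252, e253, e254, e255, e256, e272, e273, e274, e275, e276], [e10, e11, e12, e13, e14, e75, e76, e77, e78, e79], [e15, e16, e17, e18, e19]], [], [], (nat_lit 30), (nat_lit 0x3fffffff003fffffff), (nat_lit 0), (nat_lit 5), (nat_lit 5)⟩, [⟨(nat_lit 4385), (nat_lit 0)⟩, ⟨(nat_lit 8465), (nat_lit 0)⟩, ⟨(nat_lit 4625), (nat_lit 0)⟩], ⟨(nat_lit 0x126bb4f8b9c0000), [⟨(nb (nat_lit 1) (nat_lit 1216) (nat_lit 0)), (nat_lit 2), (nat_lit 3), (nat_lit 3)⟩, ⟨(nb (nat_lit 1) (nat_lit 1216) (nat_lit 0)), (nat_lit 0), (nat_lit 1), (nat_lit 3)⟩], [], false⟩, [⟨[(nat_lit 1), (nat_lit 16), (nat_lit 17), (nat_lit 256), (nat_lit 257), (nat_lit 272), (nat_lit 273), (nat_lit 4096), (nat_lit 4097), (nat_lit 4112), (nat_lit 4113), (nat_lit 4352), (nat_lit 4353), (nat_lit 4368), (nat_lit 4369), (nat_lit 4385), (nat_lit 65536), (nat_lit 65537), (nat_lit 65552), (nat_lit 65553), (nat_lit 65792), (nat_lit 65793), (nat_lit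 65808), (nat_lit 65809), (nat_lit 65810), (nat_lit 69632), (nat_lit 69633), (nat_lit 69648), (nat_lit 69649), (nat_lit 69888), (nat_lit 69889), (nat_lit 69904), (nat_lit 70160), (nat_lit 73985), (nat_lit 135185)], [(nat_lit 1), (nb (nat_lit 1) (nat_lit 3648) (nb (nat_lit 5) (nat_lit 2432) (nb (nat_lit 4) (nat_lit 1216) (nat_lit 1)))), (nat_lit 0)], (nat_lit 1), (nat_lit 0)⟩]⟩
def f119 : Fc := ⟨true, ⟨[[e329, e330, e331, e332, e333], [e252, e253, e254, e255, e256, e272, e273, e274, e275, e276], [e10, e11, e12, e13, e14, e75, e76, e77, e78, e79], [e15, e16, e17, e18, e19]], [], [], (nat_lit 30), (nat_lit 0x3fffffff003fffffff), (nat_lit 0), (nat_lit 5), (nat_lit 5)⟩, [⟨(nat_lit 4370), (nat_lit 0)⟩, ⟨(nat_lit 8465), (nat_lit 0)⟩, ⟨(nat_lit 4625), (nat_lit 0)⟩, ⟨(nat_lit 4385), (nat_lit 0)⟩], ⟨(nat_lit 0x126bb4f8b9c0000), [⟨(nb (nat_lit 1) (nat_lit 1216) (nat_lit 0)), (nat_lit 2), (nat_lit 3), (nat_lit 3)⟩, ⟨(nb (nat_lit 1) (nat_lit 1216) (nat_lit 0)),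 (nat_lit 0), (nat_lit 1), (nat_lit 3)⟩], [], false⟩, [⟨[(nat_lit 1), (nat_lit 16), (nat_lit 17), (nat_lit 256), (nat_lit 257), (nat_lit 272), (nat_lit 273), (nat_lit 4096), (nat_lit 4097), (nat_lit 4112), (nat_lit 4113), (nat_lit 4352), (nat_lit 4353), (nat_lit 4368), (nat_lit 4369), (nat_lit 4370), (nat_lit 65536), (nat_lit 65537), (nat_lit 65552), (nat_lit 65553), (nat_lit 65792), (nat_lit 65793), (nat_lit 65808), (nat_lit 65809), (nat_lit 69632), (nat_lit 69633), (nat_lit 69648), (nat_lit 69649), (nat_lit 69888), (nat_lit 69889), (nat_lit 69904), (nat_lit 69920), (nat_lit 70145), (nat_lit 73745), (nat_lit 131345)], [(nat_lit 1), (nb (nat_lit 1) (nat_lit 3648) (nb (nat_lit 2) (nat_lit 2432) (nb (nat_lit 3) (nat_lit 1216) (nat_lit 1)))), (nat_lit 0)], (nat_lit 1), (nat_lit 0)⟩]⟩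
def f120 : Fc := ⟨true, ⟨[[e334, e335, e336, e337, e338], [e339, e340, e341, e342, e343, e344, e345, e346, e347, e348], [e349, e350, e351, e352, e353, e354, e355, e356, e357, e358], [e15, e16, e17, e18, e19]], [], [], (nat_lit 30), (nat_lit 0x3fffffff003fffffff), (nat_lit 0), (nat_lit 5), (nat_lit 5)⟩, [⟨(nat_lit 69905), (nat_lit 4)⟩, ⟨(nat_lit 8465), (nat_lit 0)⟩, ⟨(nat_lit 4625), (nat_lit 0)⟩, ⟨(nat_lit 4385), (nat_lit 0)⟩, ⟨(nat_lit 4370), (nat_lit 0)⟩], ⟨(nat_lit 0x4d431bc0000), [⟨(nb (nat_lit 1) (nat_lit 1216) (nat_lit 0)), (nat_lit 0), (nat_lit 1), (nat_lit 3)⟩, ⟨(nb (nat_lit 1) (nat_lit 1216) (nat_lit 0)), (nat_lit 2), (nat_lit 3), (nat_lit 3)⟩, ⟨(nb (nat_lit 11) (nat_lit 94848) (nb (nat_lit 0xd00000000000000000000000000000009) (nat_lit 93696) (nb (nat_lit 4) (nat_lit 1280) (nb (nat_lit 11) (nat_lit 128) (nat_lit 0))))), (nb (nat_lit 0x100000000000000000000000000000006) (nat_lit 93632) (nb (nat_lit 0x400000000000000090000000000000000000000000000000a)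 (nat_lit 1216) (nb (nat_lit 11) (nat_lit 64) (nat_lit 0)))), (nat_lit 89), (nat_lit 168)⟩, ⟨(nb (nat_lit 1) (nat_lit 93632) (nat_lit 1)), (nat_lit 0), (nat_lit 2), (nat_lit 7)⟩, ⟨(nb (nat_lit 1) (nat_lit 1216) (nb (nat_lit 1) (nat_lit 192) (nat_lit 0))), (nat_lit 1), (nat_lit 3), (nat_lit 24)⟩], [], false⟩, []⟩
def f121 : Fc := ⟨true, ⟨[[e329, e330, e331, e332, e333], [e252, e253, e254, e255, e256, e272, e273, e274, e275, e276], [e10, e11, e12, e13, e14, e75, e76, e77, e78, e79], [e15, e16, e17, e18, e19]], [], [], (nat_lit 30), (nat_lit 0x3fffffff003fffffff), (nat_lit 0), (nat_lit 5), (nat_lit 5)⟩, [⟨(nat_lit 69905), (nat_lit 4)⟩, ⟨(nat_lit 8465), (nat_lit 0)⟩, ⟨(nat_lit 4625), (nat_lit 0)⟩, ⟨(nat_lit 4385), (nat_lit 0)⟩, ⟨(nat_lit 4370), (nat_lit 0)⟩], ⟨(nat_lit 0x126bb4f8b9c0000), [⟨(nb (nat_lit 1) (nat_lit 93632) (nat_lit 1)), (nat_lit 0), (nat_lit 2), (nat_lit 7)⟩, ⟨(nb (nat_lit 5) (nat_lit 13376) (nat_lit 0x100000000000000000000000000000002)),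 (nat_lit 0x2000000000000000000000000000000010000000000000000), (nat_lit 11), (nat_lit 40)⟩, ⟨(nb (nat_lit 1) (nat_lit 1216) (nat_lit 0)), (nat_lit 2), (nat_lit 3), (nat_lit 3)⟩, ⟨(nb (nat_lit 1) (nat_lit 1216) (nat_lit 0)), (nat_lit 0), (nat_lit 1), (nat_lit 3)⟩], [⟨(nb (nat_lit 1) (nat_lit 1216) (nb (nat_lit 1) (nat_lit 192) (nat_lit 0))), (nat_lit 1), (nat_lit 3), (nat_lit 24)⟩, ⟨(nb (nat_lit 1) (nat_lit 108224) (nb (nat_lit 1) (nat_lit 107200) (nb (nat_lit 1) (nat_lit 94848) (nb (nat_lit 0x200000000000000000000000000000002) (nat_lit 93696) (nb (nat_lit 1) (nat_lit 14592) (nb (nat_lit 1) (nat_lit 13568) (nat_lit 0x1000000000000000200000000000000000000000000000001))))))), (nb (nat_lit 1) (nat_lit 107008) (nb (nat_lit 1) (nat_lit 94912) (nb (nat_lit 1) (nat_lit 13376) (nb (nat_lit 0x1000000000000000100000000000000000000000000000001) (nat_lit 1216) (nat_lit 0))))), (nat_lit 19), (nat_lit 840)⟩], false⟩, []⟩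
def f122 : Fc := ⟨true, ⟨[[e329, e330, e331, e332, e333], [e252, e253, e254, e255, e256, e272, e273, e274, e275, e276], [e10, e11, e12, e13, e14, e75, e76, e77, e78, e79], [e15, e16, e17, e18, e19]], [], [], (nat_lit 30), (nat_lit 0x3fffffff003fffffff), (nat_lit 0), (nat_lit 5), (nat_lit 5)⟩, [⟨(nat_lit 69905), (nat_lit 4)⟩, ⟨(nat_lit 8465), (nat_lit 0)⟩, ⟨(nat_lit 4625), (nat_lit 0)⟩, ⟨(nat_lit 4385), (nat_lit 0)⟩, ⟨(nat_lit 4370), (nat_lit 0)⟩], ⟨(nat_lit 0x126bb4f8b9c0000), [⟨(nb (nat_lit 5) (nat_lit 13376) (nat_lit 0x100000000000000000000000000000002)), (nat_lit 0x2000000000000000000000000000000010000000000000000), (nat_lit 11), (nat_lit 40)⟩, ⟨(nb (nat_lit 1) (nat_lit 1216) (nat_lit 0)), (nat_lit 2), (nat_lit 3), (nat_lit 3)⟩, ⟨(nb (nat_lit 1) (nat_lit 1216) (nat_lit 0)), (nat_lit 0), (nat_lit 1), (nat_lit 3)⟩], [⟨(nb (nat_lit 1) (nat_lit 93632) (nat_lit 1)), (nat_lit 0), (nat_lit 2), (nat_lit 7)⟩, ⟨(nb (nat_lit 1) (nat_lit 108224) (nb (nat_lit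 1) (nat_lit 107200) (nb (nat_lit 1) (nat_lit 94848) (nb (nat_lit 0x200000000000000000000000000000002) (nat_lit 93696) (nb (nat_lit 1) (nat_lit 14592) (nb (nat_lit 1) (nat_lit 13568) (nat_lit 0x1000000000000000200000000000000000000000000000001))))))), (nb (nat_lit 1) (nat_lit 107008) (nb (nat_lit 1) (nat_lit 94912) (nb (nat_lit 1) (nat_lit 13376) (nb (nat_lit 0x1000000000000000100000000000000000000000000000001) (nat_lit 1216) (nat_lit 0))))), (nat_lit 19), (nat_lit 840)⟩], false⟩, []⟩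
def f123 : Fc := ⟨true, ⟨[[e359, e360, e361, e362, e363], [e364, e365, e366, e367, e368, e369, e370, e371, e372, e373], [e374, e375, e376, e377, e378, e379, e380, e381, e382, e383], [e15, e16, e17, e18, e19]], [], [], (nat_lit 30), (nat_lit 0x3fffffff003fffffff), (nat_lit 0), (nat_lit 5), (nat_lit 5)⟩, [⟨(nat_lit 69905), (nat_lit 4)⟩, ⟨(nat_lit 8465), (nat_lit 0)⟩, ⟨(nat_lit 4625), (nat_lit 0)⟩, ⟨(nat_lit 4385), (nat_lit 0)⟩, ⟨(nat_lit 4370), (nat_lit 0)⟩], ⟨(nat_lit 0x4d431bc0000), [⟨(nb (nat_lit 1) (nat_lit 1216) (nat_lit 0)), (nat_lit 0), (nat_lit 1), (nat_lit 3)⟩, ⟨(nb (nat_lit 1) (nat_lit 1216) (nat_lit 0)), (nat_lit 2), (nat_lit 3), (nat_lit 3)⟩], [], false⟩, []⟩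
def f124 : Fc := ⟨true, ⟨[[e329, e330, e331, e332, e333], [e252, e253, e254, e255, e256, e272, e273, e274, e275, e276], [e10, e11, e12, e13, e14, e75, e76, e77, e78, e79], [e15, e16, e17, e18, e19]], [], [], (nat_lit 30), (nat_lit 0x3fffffff003fffffff), (nat_lit 0), (nat_lit 5), (nat_lit 5)⟩, [⟨(nat_lit 69905), (nat_lit 4)⟩, ⟨(nat_lit 8465), (nat_lit 0)⟩, ⟨(nat_lit 4625), (nat_lit 0)⟩, ⟨(nat_lit 4385), (nat_lit 0)⟩, ⟨(nat_lit 4370), (nat_lit 0)⟩], ⟨(nat_lit 0x126bb4f8b9c0000), [⟨(nb (nat_lit 1) (nat_lit 1216) (nat_lit 0)), (nat_lit 2), (nat_lit 3), (nat_lit 3)⟩, ⟨(nb (nat_lit 1) (nat_lit 1216) (nat_lit 0)), (nat_lit 0), (nat_lit 1), (nat_lit 3)⟩], [], false⟩, []⟩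
def f125 : Fc := ⟨true, ⟨[[e384, e385, e386, e387, e388], [e389, e390, e391, e392, e393, e394, e395, e396, e397, e398], [e399, e400, e401, e402, e403, e404, e405, e406, e407, e408], [e15, e16, e17, e18, e19]], [e409], [], (nat_lit 31), (nat_lit 0xffffffffff003fffffff), (nat_lit 0), (nat_lit 4), (nat_lit 5)⟩, [⟨(nat_lit 69905), (nat_lit 4)⟩], ⟨(nat_lit 0xdbf983c40000), [⟨(nb (nat_lit 1) (nat_lit 1216) (nb (nat_lit 1) (nat_lit 64) (nat_lit 0))), (nat_lit 1), (nat_lit 3), (nat_lit 6)⟩, ⟨(nb (nat_lit 1) (nat_lit 13376) (nat_lit 1)), (nat_lit 0), (nat_lit 2), (nat_lit 5)⟩, ⟨(nb (nat_lit 11) (nat_lit 14592) (nb (nat_lit 0x1000000000000000a000000000000000e) (nat_lit 13440) (nb (nat_lit 0x9000000000000000d0000000000000005) (nat_lit 1280) (nat_lit 0)))), (nb (nat_lit 5) (nat_lit 13376) (nb (nat_lit 1) (nat_lit 1216) (nat_lit 0xb0000000000000016000000000000000b000000000000000b))), (nat_lit 124), (nat_lit 120)⟩, ⟨(nb (nat_lit 1) (nat_lit 1216) (nat_lit 0)),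 (nat_lit 2), (nat_lit 3), (nat_lit 3)⟩, ⟨(nb (nat_lit 1) (nat_lit 1216) (nat_lit 0)), (nat_lit 0), (nat_lit 1), (nat_lit 3)⟩], [⟨(nb (nat_lit 1) (nat_lit 14592) (nb (nat_lit 0x100000000000000010000000000000002) (nat_lit 13440) (nb (nat_lit 1) (nat_lit 1344) (nat_lit 1)))), (nb (nat_lit 1) (nat_lit 1216) (nb (nat_lit 0x10000000000000001) (nat_lit 64) (nat_lit 0))), (nat_lit 10), (nat_lit 120)⟩], false⟩, []⟩
def f126 : Fc := ⟨true, ⟨[[e410, e411, e412, e413, e414], [e415, e416, e417, e418, e419, e420, e421, e422, e423, e424], [e425, e426, e427, e428, e429, e430, e431, e432, e433, e434], [e15, e16, e17, e18, e19]], [], [], (nat_lit 30), (nat_lit 0x3fffffff003fffffff), (nat_lit 0), (nat_lit 5), (nat_lit 5)⟩, [⟨(nat_lit 69905), (nat_lit 3)⟩, ⟨(nat_lit 8465), (nat_lit 0)⟩, ⟨(nat_lit 4625), (nat_lit 0)⟩, ⟨(nat_lit 4385), (nat_lit 0)⟩, ⟨(nat_lit 4370), (nat_lit 0)⟩, ⟨(nat_lit 69905), (nat_lit 4)⟩], ⟨(nat_lit 0x4d431bc0000), [⟨(nb (nat_lit 1) (nat_lit 1216)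 (nat_lit 0)), (nat_lit 0), (nat_lit 1), (nat_lit 3)⟩, ⟨(nb (nat_lit 1) (nat_lit 1216) (nat_lit 0)), (nat_lit 2), (nat_lit 3), (nat_lit 3)⟩, ⟨(nb (nat_lit 11) (nat_lit 94848) (nb (nat_lit 0x1000000000000000a000000000000000e) (nat_lit 93696) (nb (nat_lit 0x9000000000000000d0000000000000005) (nat_lit 1280) (nat_lit 0)))), (nb (nat_lit 5) (nat_lit 93632) (nb (nat_lit 1) (nat_lit 1216) (nat_lit 0xb0000000000000016000000000000000b000000000000000b))), (nat_lit 124), (nat_lit 168)⟩, ⟨(nb (nat_lit 1) (nat_lit 93632) (nat_lit 1)), (nat_lit 0), (nat_lit 2), (nat_lit 7)⟩, ⟨(nb (nat_lit 1) (nat_lit 1216) (nb (nat_lit 1) (nat_lit 64) (nat_lit 0))), (nat_lit 1), (nat_lit 3), (nat_lit 6)⟩], [], false⟩, []⟩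
def f127 : Fc := ⟨true, ⟨[[e435, e436, e437, e438, e439], [e440, e441, e442, e443, e444, e272, e273, e274, e275, e276], [e10, e11, e12, e13, e14, e75, e76, e77, e78, e79], [e15, e16, e17, e18, e19]], [], [], (nat_lit 30), (nat_lit 0x3fffffff003fffffff), (nat_lit 0), (nat_lit 5), (nat_lit 5)⟩, [⟨(nat_lit 69905), (nat_lit 3)⟩, ⟨(nat_lit 8465), (nat_lit 0)⟩, ⟨(nat_lit 4625), (nat_lit 0)⟩, ⟨(nat_lit 4385), (nat_lit 0)⟩, ⟨(nat_lit 4370), (nat_lit 0)⟩, ⟨(nat_lit 69905), (nat_lit 4)⟩], ⟨(nat_lit 0x1471c3c0000), [⟨(nb (nat_lit 5) (nat_lit 13376) (nat_lit 1)), (nat_lit 0x1000000000000000200000000000000030000000000000000), (nat_lit 12), (nat_lit 40)⟩, ⟨(nb (nat_lit 1) (nat_lit 93632) (nat_lit 1)), (nat_lit 0), (nat_lit 2), (nat_lit 7)⟩], [⟨(nb (nat_lit 1) (nat_lit 93632) (nat_lit 0)), (nat_lit 0x1000000000000000100000000000000010000000000000001), (nat_lit 5), (nat_lit 56)⟩], false⟩, []⟩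
def f128 : Fc := ⟨true, ⟨[[e329, e330, e331, e332, e333], [e252, e253, e254, e255, e256, e272, e273, e274, e275, e276], [e10, e11, e12, e13, e14, e75, e76, e77, e78, e79], [e15, e16, e17, e18, e19]], [], [], (nat_lit 30), (nat_lit 0x3fffffff003fffffff), (nat_lit 0), (nat_lit 5), (nat_lit 5)⟩, [⟨(nat_lit 69905), (nat_lit 3)⟩, ⟨(nat_lit 8465), (nat_lit 0)⟩, ⟨(nat_lit 4625), (nat_lit 0)⟩, ⟨(nat_lit 4385), (nat_lit 0)⟩, ⟨(nat_lit 4370), (nat_lit 0)⟩, ⟨(nat_lit 69905), (nat_lit 4)⟩], ⟨(nat_lit 0x126bb4f8b9c0000), [⟨(nb (nat_lit 1) (nat_lit 93632) (nat_lit 1)), (nat_lit 0), (nat_lit 2), (nat_lit 7)⟩, ⟨(nb (nat_lit 5) (nat_lit 13376) (nat_lit 1)), (nat_lit 0x1000000000000000200000000000000030000000000000000), (nat_lit 12), (nat_lit 40)⟩, ⟨(nb (nat_lit 1) (nat_lit 1216) (nat_lit 0)), (nat_lit 2), (nat_lit 3), (nat_lit 3)⟩, ⟨(nb (nat_lit 1) (nat_lit 1216) (nat_lit 0)), (nat_lit 0), (nat_lit 1), (nat_lit 3)⟩], [⟨(nb (nat_lit 1) (nat_lit 108224) (nb (nat_lit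 1) (nat_lit 107072) (nb (nat_lit 1) (nat_lit 94848) (nb (nat_lit 0x20000000000000002) (nat_lit 93696) (nb (nat_lit 1) (nat_lit 14592) (nb (nat_lit 1) (nat_lit 13440) (nb (nat_lit 0x10000000000000001) (nat_lit 1344) (nat_lit 0)))))))), (nb (nat_lit 1) (nat_lit 107008) (nb (nat_lit 1) (nat_lit 94976) (nb (nat_lit 1) (nat_lit 13376) (nat_lit 0x2000000000000000200000000000000010000000000000001)))), (nat_lit 20), (nat_lit 840)⟩], false⟩, []⟩
def f129 : Fc := ⟨true, ⟨[[e329, e330, e331, e332, e333], [e252, e253, e254, e255, e256, e272, e273, e274, e275, e276], [e10, e11, e12, e13, e14, e75, e76, e77, e78, e79], [e15, e16, e17, e18, e19]], [], [], (nat_lit 30), (nat_lit 0x3fffffff003fffffff), (nat_lit 0), (nat_lit 5), (nat_lit 5)⟩, [⟨(nat_lit 69905), (nat_lit 3)⟩, ⟨(nat_lit 8465), (nat_lit 0)⟩, ⟨(nat_lit 4625), (nat_lit 0)⟩, ⟨(nat_lit 4385), (nat_lit 0)⟩, ⟨(nat_lit 4370), (nat_lit 0)⟩, ⟨(nat_lit 69905), (nat_lit 4)⟩], ⟨(nat_lit 0x126bb4f8b9c0000), [⟨(nb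 (nat_lit 5) (nat_lit 13376) (nat_lit 1)), (nat_lit 0x1000000000000000200000000000000030000000000000000), (nat_lit 12), (nat_lit 40)⟩, ⟨(nb (nat_lit 1) (nat_lit 1216) (nat_lit 0)), (nat_lit 2), (nat_lit 3), (nat_lit 3)⟩, ⟨(nb (nat_lit 1) (nat_lit 1216) (nat_lit 0)), (nat_lit 0), (nat_lit 1), (nat_lit 3)⟩], [], false⟩, []⟩
def f130 : Fc := ⟨true, ⟨[[e445, e446, e447, e448, e449], [e450, e451, e452, e453, e454, e455, e456, e457, e458, e459], [e460, e461, e462, e463, e464, e465, e466, e467, e468, e469], [e15, e16, e17, e18, e19]], [], [], (nat_lit 30), (nat_lit 0x3fffffff003fffffff), (nat_lit 0), (nat_lit 5), (nat_lit 5)⟩, [⟨(nat_lit 69905), (nat_lit 3)⟩, ⟨(nat_lit 8465), (nat_lit 0)⟩, ⟨(nat_lit 4625), (nat_lit 0)⟩, ⟨(nat_lit 4385), (nat_lit 0)⟩, ⟨(nat_lit 4370), (nat_lit 0)⟩, ⟨(nat_lit 69905), (nat_lit 4)⟩], ⟨(nat_lit 0x39aa40000), [⟨(nb (nat_lit 11) (nat_lit 1216) (nb (nat_lit 0x1000000000000000a000000000000000e) (nat_lit 64) (nat_lit 0))), (nat_lit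 5), (nat_lit 41), (nat_lit 24)⟩, ⟨(nb (nat_lit 1) (nat_lit 1216) (nat_lit 0)), (nat_lit 0), (nat_lit 1), (nat_lit 3)⟩, ⟨(nb (nat_lit 1) (nat_lit 1216) (nat_lit 0)), (nat_lit 2), (nat_lit 3), (nat_lit 3)⟩], [], false⟩, []⟩
def f131 : Fc := ⟨true, ⟨[[e470, e471, e472, e473, e474], [e364, e365, e366, e367, e368, e475, e476, e477, e478, e479], [e374, e375, e376, e377, e378, e379, e380, e381, e382, e383], [e15, e16, e17, e18, e19]], [], [], (nat_lit 30), (nat_lit 0x3fffffff003fffffff), (nat_lit 0), (nat_lit 5), (nat_lit 5)⟩, [⟨(nat_lit 69905), (nat_lit 3)⟩, ⟨(nat_lit 8465), (nat_lit 0)⟩, ⟨(nat_lit 4625), (nat_lit 0)⟩, ⟨(nat_lit 4385), (nat_lit 0)⟩, ⟨(nat_lit 4370), (nat_lit 0)⟩, ⟨(nat_lit 69905), (nat_lit 4)⟩], ⟨(nat_lit 0x4d431bc0000), [⟨(nb (nat_lit 1) (nat_lit 1216) (nat_lit 0)), (nat_lit 0), (nat_lit 1), (nat_lit 3)⟩, ⟨(nb (nat_lit 1) (nat_lit 1216) (nat_lit 0)), (nat_lit 2), (nat_lit 3), (nat_lit 3)⟩], [], false⟩, []⟩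
def f132 : Fc := ⟨true, ⟨[[e480, e481, e482, e483, e484], [e485, e486, e487, e488, e489, e490, e491, e492, e493, e494], [e495, e496, e497, e498, e499, e500, e501, e502, e503, e504], [e15, e16, e17, e18, e19]], [e505], [], (nat_lit 31), (nat_lit 0xffffffffff003fffffff), (nat_lit 0), (nat_lit 4), (nat_lit 5)⟩, [⟨(nat_lit 69905), (nat_lit 4)⟩], ⟨(nat_lit 0xdbf983c40000), [⟨(nb (nat_lit 5) (nat_lit 13376) (nat_lit 0x100000000000000000000000000000002)), (nat_lit 0x2000000000000000000000000000000010000000000000000), (nat_lit 11), (nat_lit 40)⟩, ⟨(nb (nat_lit 5) (nat_lit 13376) (nat_lit 0x1000000000000000200000000000000030000000000000004)), (nat_lit 0), (nat_lit 15), (nat_lit 40)⟩, ⟨(nb (nat_lit 1) (nat_lit 14592) (nb (nat_lit 1) (nat_lit 13376) (nb (nat_lit 2) (nat_lit 1216) (nat_lit 0)))), (nat_lit 1), (nat_lit 5), (nat_lit 15)⟩, ⟨(nb (nat_lit 5) (nat_lit 14592) (nb (nat_lit 5) (nat_lit 13376) (nb (nat_lit 0x20000000000000006) (nat_lit 1216) (nat_lit 0x4000000000000000800000000000000020000000000000001)))),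 (nb (nat_lit 0x60000000000000002) (nat_lit 1344) (nat_lit 0)), (nat_lit 41), (nat_lit 120)⟩, ⟨(nb (nat_lit 1) (nat_lit 14592) (nb (nat_lit 1) (nat_lit 13376) (nb (nat_lit 1) (nat_lit 1216) (nb (nat_lit 0x10000000000000001) (nat_lit 128) (nat_lit 0))))), (nb (nat_lit 1) (nat_lit 1408) (nat_lit 0)), (nat_lit 6), (nat_lit 120)⟩], [⟨(nb (nat_lit 1) (nat_lit 14592) (nb (nat_lit 1) (nat_lit 13376) (nat_lit 0))), (nb (nat_lit 1) (nat_lit 1280) (nb (nat_lit 0x100000000000000010000000000000001) (nat_lit 64) (nat_lit 0))), (nat_lit 6), (nat_lit 120)⟩], false⟩, []⟩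
def f133 : Fc := ⟨true, ⟨[[e506, e507, e508, e509, e510], [e511, e512, e513, e514, e515, e516, e517, e518, e519, e520], [e521, e522, e523, e524, e525, e526, e527, e528, e529, e530], [e15, e16, e17, e18, e19]], [e531], [], (nat_lit 31), (nat_lit 0xffffffffff003fffffff), (nat_lit 0), (nat_lit 4), (nat_lit 5)⟩, [⟨(nat_lit 69905), (nat_lit 4)⟩], ⟨(nat_lit 0x39aa40000), [⟨(nb (nat_lit 1) (nat_lit 1216) (nb (nat_lit 0x100000000000000000000000000000001) (nat_lit 64) (nat_lit 0))), (nat_lit 1), (nat_lit 4), (nat_lit 24)⟩, ⟨(nb (nat_lit 1) (nat_lit 1216) (nb (nat_lit 1) (nat_lit 128) (nat_lit 0))), (nat_lit 0), (nat_lit 2), (nat_lit 12)⟩, ⟨(nb (nat_lit 31) (nat_lit 1216) (nb (nat_lit 0x1200000000000000000000000000000006) (nat_lit 64) (nat_lit 0))), (nat_lit 0x300000000000000000000000000000014), (nat_lit 78), (nat_lit 24)⟩], [], false⟩, []⟩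
def f134 : Fc := ⟨true, ⟨[[e480, e481, e482, e483, e484], [e485, e486, e487, e488, e489, e490, e491, e492, e493, e494], [e495, e496, e497, e498, e499, e500, e501, e502, e503, e504], [e15, e16, e17, e18, e19]], [e505], [], (nat_lit 31), (nat_lit 0xffffffffff003fffffff), (nat_lit 0), (nat_lit 4), (nat_lit 5)⟩, [⟨(nat_lit 69905), (nat_lit 4)⟩], ⟨(nat_lit 0xdbf983c40000), [⟨(nb (nat_lit 5) (nat_lit 13376) (nat_lit 0x1000000000000000200000000000000030000000000000004)), (nat_lit 0), (nat_lit 15), (nat_lit 40)⟩, ⟨(nb (nat_lit 1) (nat_lit 14592) (nb (nat_lit 1) (nat_lit 13376) (nb (nat_lit 2) (nat_lit 1216) (nat_lit 0)))), (nat_lit 1), (nat_lit 5), (nat_lit 15)⟩, ⟨(nb (nat_lit 5) (nat_lit 14592) (nb (nat_lit 5) (nat_lit 13376) (nb (nat_lit 0x20000000000000006) (nat_lit 1216) (nat_lit 0x4000000000000000800000000000000020000000000000001)))), (nb (nat_lit 0x60000000000000002) (nat_lit 1344) (nat_lit 0)), (nat_lit 41), (nat_lit 120)⟩, ⟨(nb (nat_lit 1) (nat_lit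 14592) (nb (nat_lit 1) (nat_lit 13376) (nb (nat_lit 1) (nat_lit 1216) (nb (nat_lit 0x10000000000000001) (nat_lit 128) (nat_lit 0))))), (nb (nat_lit 1) (nat_lit 1408) (nat_lit 0)), (nat_lit 6), (nat_lit 120)⟩], [⟨(nb (nat_lit 5) (nat_lit 13376) (nat_lit 0x100000000000000000000000000000002)), (nat_lit 0x2000000000000000000000000000000010000000000000000), (nat_lit 11), (nat_lit 40)⟩], false⟩, []⟩
def f135 : Fc := ⟨true, ⟨[[e532, e533, e534, e535, e536], [e537, e538, e539, e540, e541, e542, e543, e544, e545, e546], [e547, e548, e549, e550, e551, e552, e553, e554, e555, e556], [e15, e16, e17, e18, e19]], [e557, e558], [], (nat_lit 32), (nat_lit 0x3ffffffffffff003fffffff), (nat_lit 0), (nat_lit 3), (nat_lit 5)⟩, [⟨(nat_lit 69905), (nat_lit 4)⟩], ⟨(nat_lit 0x39aa40000), [⟨(nb (nat_lit 1) (nat_lit 1216) (nat_lit 1)), (nat_lit 0), (nat_lit 2), (nat_lit 3)⟩, ⟨(nb (nat_lit 1) (nat_lit 1216) (nat_lit 0)), (nat_lit 0), (nat_lit 1), (nat_lit 3)⟩, ⟨(nb (nat_lit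 1) (nat_lit 1216) (nat_lit 0)), (nat_lit 1), (nat_lit 2), (nat_lit 3)⟩, ⟨(nb (nat_lit 1) (nat_lit 1216) (nb (nat_lit 1) (nat_lit 192) (nat_lit 0))), (nat_lit 0), (nat_lit 2), (nat_lit 24)⟩], [⟨(nb (nat_lit 1) (nat_lit 1216) (nb (nat_lit 1) (nat_lit 128) (nat_lit 0))), (nat_lit 0), (nat_lit 2), (nat_lit 12)⟩], false⟩, []⟩
def f136 : Fc := ⟨true, ⟨[[e532, e533, e534, e535, e536], [e537, e538, e539, e540, e541, e542, e543, e544, e545, e546], [e547, e548, e549, e550, e551, e552, e553, e554, e555, e556], [e15, e16, e17, e18, e19]], [e558], [], (nat_lit 31), (nat_lit 0xffffffffff003fffffff), (nat_lit 0), (nat_lit 4), (nat_lit 5)⟩, [⟨(nat_lit 69905), (nat_lit 3)⟩, ⟨(nat_lit 69905), (nat_lit 4)⟩], ⟨(nat_lit 0x39aa40000), [⟨(nb (nat_lit 1) (nat_lit 1216) (nat_lit 1)), (nat_lit 0), (nat_lit 2), (nat_lit 3)⟩, ⟨(nb (nat_lit 1) (nat_lit 1216) (nat_lit 0)), (nat_lit 0), (nat_lit 1), (nat_lit 3)⟩, ⟨(nb (nat_lit 1) (nat_lit 1216) (nat_lit 0)), (nat_lit 1), (nat_lit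 2), (nat_lit 3)⟩, ⟨(nb (nat_lit 1) (nat_lit 1216) (nb (nat_lit 1) (nat_lit 192) (nat_lit 0))), (nat_lit 0), (nat_lit 2), (nat_lit 24)⟩], [], false⟩, []⟩
def f137 : Fc := ⟨true, ⟨[[e480, e481, e482, e483, e484], [e485, e486, e487, e488, e489, e490, e491, e492, e493, e494], [e495, e496, e497, e498, e499, e500, e501, e502, e503, e504], [e15, e16, e17, e18, e19]], [e505], [], (nat_lit 31), (nat_lit 0xffffffffff003fffffff), (nat_lit 0), (nat_lit 4), (nat_lit 5)⟩, [⟨(nat_lit 69905), (nat_lit 3)⟩, ⟨(nat_lit 69905), (nat_lit 4)⟩], ⟨(nat_lit 0xdbf983c40000), [⟨(nb (nat_lit 5) (nat_lit 13376) (nat_lit 0x1000000000000000200000000000000030000000000000004)), (nat_lit 0), (nat_lit 15), (nat_lit 40)⟩, ⟨(nb (nat_lit 1) (nat_lit 14592) (nb (nat_lit 1) (nat_lit 13376) (nb (nat_lit 2) (nat_lit 1216) (nat_lit 0)))), (nat_lit 1), (nat_lit 5), (nat_lit 15)⟩, ⟨(nb (nat_lit 5) (nat_lit 14592) (nb (nat_lit 5) (nat_lit 13376) (nb (nat_lit 0x20000000000000006) (nat_lit 1216)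 (nat_lit 0x4000000000000000800000000000000020000000000000001)))), (nb (nat_lit 0x60000000000000002) (nat_lit 1344) (nat_lit 0)), (nat_lit 41), (nat_lit 120)⟩, ⟨(nb (nat_lit 1) (nat_lit 14592) (nb (nat_lit 1) (nat_lit 13376) (nb (nat_lit 1) (nat_lit 1216) (nb (nat_lit 0x10000000000000001) (nat_lit 128) (nat_lit 0))))), (nb (nat_lit 1) (nat_lit 1408) (nat_lit 0)), (nat_lit 6), (nat_lit 120)⟩], [⟨(nb (nat_lit 1) (nat_lit 14592) (nb (nat_lit 1) (nat_lit 13376) (nb (nat_lit 1) (nat_lit 1216) (nb (nat_lit 0x10000000000000001) (nat_lit 128) (nat_lit 0))))), (nb (nat_lit 0x10000000000000001) (nat_lit 1344) (nat_lit 0)), (nat_lit 7), (nat_lit 120)⟩], false⟩, []⟩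
def f138 : Fc := ⟨true, ⟨[[e480, e481, e482, e483, e484], [e485, e486, e487, e488, e489, e490, e491, e492, e493, e494], [e495, e496, e497, e498, e499, e500, e501, e502, e503, e504], [e15, e16, e17, e18, e19]], [], [], (nat_lit 30), (nat_lit 0x3fffffff003fffffff), (nat_lit 0), (nat_lit 5), (nat_lit 5)⟩, [⟨(nat_lit 69905), (nat_lit 2)⟩, ⟨(nat_lit 8465), (nat_lit 0)⟩, ⟨(nat_lit 4625), (nat_lit 0)⟩, ⟨(nat_lit 4385), (nat_lit 0)⟩, ⟨(nat_lit 4370), (nat_lit 0)⟩, ⟨(nat_lit 69905), (nat_lit 4)⟩, ⟨(nat_lit 69905), (nat_lit 3)⟩], ⟨(nat_lit 0xdbf983c40000), [⟨(nb (nat_lit 5) (nat_lit 13376) (nat_lit 0x1000000000000000200000000000000030000000000000004)), (nat_lit 0), (nat_lit 15), (nat_lit 40)⟩, ⟨(nb (nat_lit 1) (nat_lit 14592) (nb (nat_lit 1) (nat_lit 13376) (nb (nat_lit 2) (nat_lit 1216) (nat_lit 0)))), (nat_lit 1), (nat_lit 5), (nat_lit 15)⟩, ⟨(nb (nat_lit 5) (nat_lit 14592) (nb (nat_lit 5) (nat_lit 13376) (nb (nat_lit 0x20000000000000006) (nat_lit 1216) (nat_lit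 0x4000000000000000800000000000000020000000000000001)))), (nb (nat_lit 0x60000000000000002) (nat_lit 1344) (nat_lit 0)), (nat_lit 41), (nat_lit 120)⟩, ⟨(nb (nat_lit 1) (nat_lit 14592) (nb (nat_lit 1) (nat_lit 13376) (nb (nat_lit 1) (nat_lit 1216) (nb (nat_lit 0x10000000000000001) (nat_lit 128) (nat_lit 0))))), (nb (nat_lit 1) (nat_lit 1408) (nat_lit 0)), (nat_lit 6), (nat_lit 120)⟩], [], false⟩, []⟩
def f139 : Fc := ⟨true, ⟨[[e559, e560, e561, e562, e563], [e564, e565, e566, e567, e568, e569, e570, e571, e572, e573], [e574, e575, e576, e577, e578, e579, e580, e581, e582, e583], [e15, e16, e17, e18, e19]], [], [], (nat_lit 30), (nat_lit 0x3fffffff003fffffff), (nat_lit 0), (nat_lit 5), (nat_lit 5)⟩, [⟨(nat_lit 69905), (nat_lit 2)⟩, ⟨(nat_lit 8465), (nat_lit 0)⟩, ⟨(nat_lit 4625), (nat_lit 0)⟩, ⟨(nat_lit 4385), (nat_lit 0)⟩, ⟨(nat_lit 4370), (nat_lit 0)⟩, ⟨(nat_lit 69905), (nat_lit 4)⟩, ⟨(nat_lit 69905), (nat_lit 3)⟩], ⟨(nat_lit 0x1471c3c0000), [⟨(nb (nat_lit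 1) (nat_lit 93824) (nat_lit 0)), (nb (nat_lit 1) (nat_lit 107008) (nb (nat_lit 1) (nat_lit 93632) (nb (nat_lit 1) (nat_lit 13376) (nb (nat_lit 0x10000000000000001) (nat_lit 128) (nat_lit 0))))), (nat_lit 6), (nat_lit 280)⟩, ⟨(nb (nat_lit 5) (nat_lit 107008) (nb (nat_lit 0x20000000000000006) (nat_lit 93632) (nb (nat_lit 5) (nat_lit 13376) (nat_lit 0x4000000000000000800000000000000020000000000000001)))), (nb (nat_lit 0x60000000000000002) (nat_lit 93760) (nat_lit 0)), (nat_lit 41), (nat_lit 280)⟩, ⟨(nb (nat_lit 1) (nat_lit 107008) (nb (nat_lit 2) (nat_lit 93632) (nb (nat_lit 1) (nat_lit 13376) (nat_lit 0)))), (nat_lit 1), (nat_lit 5), (nat_lit 35)⟩, ⟨(nb (nat_lit 5) (nat_lit 13376) (nat_lit 0x1000000000000000200000000000000030000000000000004)), (nat_lit 0), (nat_lit 15), (nat_lit 40)⟩], [], false⟩, []⟩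
def f140 : Fc := ⟨true, ⟨[[e329, e330, e331, e332, e333], [e252, e253, e254, e255, e256, e272, e273, e274, e275, e276], [e10, e11, e12, e13, e14, e75, e76, e77, e78, e79], [e15, e16, e17, e18, e19]], [], [], (nat_lit 30), (nat_lit 0x3fffffff003fffffff), (nat_lit 0), (nat_lit 5), (nat_lit 5)⟩, [⟨(nat_lit 69905), (nat_lit 2)⟩, ⟨(nat_lit 8465), (nat_lit 0)⟩, ⟨(nat_lit 4625), (nat_lit 0)⟩, ⟨(nat_lit 4385), (nat_lit 0)⟩, ⟨(nat_lit 4370), (nat_lit 0)⟩, ⟨(nat_lit 69905), (nat_lit 4)⟩, ⟨(nat_lit 69905), (nat_lit 3)⟩], ⟨(nat_lit 0x126bb4f8b9c0000), [⟨(nb (nat_lit 1) (nat_lit 107008) (nb (nat_lit 1) (nat_lit 93632) (nb (nat_lit 1) (nat_lit 13376) (nb (nat_lit 0x10000000000000001) (nat_lit 128) (nat_lit 0))))), (nb (nat_lit 1) (nat_lit 93824) (nat_lit 0)), (nat_lit 6), (nat_lit 280)⟩, ⟨(nb (nat_lit 5) (nat_lit 13376) (nat_lit 0x1000000000000000200000000000000030000000000000004)), (nat_lit 0), (nat_lit 15), (nat_lit 40)⟩, ⟨(nb (nat_lit 1) (nat_lit 1216) (nat_lit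 0)), (nat_lit 2), (nat_lit 3), (nat_lit 3)⟩, ⟨(nb (nat_lit 1) (nat_lit 1216) (nat_lit 0)), (nat_lit 0), (nat_lit 1), (nat_lit 3)⟩], [⟨(nb (nat_lit 1) (nat_lit 108224) (nb (nat_lit 1) (nat_lit 94848) (nb (nat_lit 1) (nat_lit 14592) (nb (nat_lit 0x10000000000000001) (nat_lit 1344) (nb (nat_lit 1) (nat_lit 64) (nat_lit 0)))))), (nb (nat_lit 0x1000000000000000100000000000000010000000000000002) (nat_lit 107008) (nb (nat_lit 1) (nat_lit 95040) (nb (nat_lit 0x200000000000000020000000000000002) (nat_lit 93632) (nb (nat_lit 0x1000000000000000100000000000000010000000000000002) (nat_lit 13376) (nb (nat_lit 0x10000000000000001) (nat_lit 128) (nat_lit 0)))))), (nat_lit 25), (nat_lit 840)⟩], false⟩, []⟩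
def f141 : Fc := ⟨true, ⟨[[e584, e585, e586, e587, e588], [e589, e590, e591, e592, e593, e594, e595, e596, e597, e598], [e599, e600, e601, e602, e603, e604, e605, e606, e607, e608], [e15, e16, e17, e18, e19]], [], [], (nat_lit 30), (nat_lit 0x3fffffff003fffffff), (nat_lit 0), (nat_lit 5), (nat_lit 5)⟩, [⟨(nat_lit 69905), (nat_lit 2)⟩, ⟨(nat_lit 8465), (nat_lit 0)⟩, ⟨(nat_lit 4625), (nat_lit 0)⟩, ⟨(nat_lit 4385), (nat_lit 0)⟩, ⟨(nat_lit 4370), (nat_lit 0)⟩, ⟨(nat_lit 69905), (nat_lit 4)⟩, ⟨(nat_lit 69905), (nat_lit 3)⟩], ⟨(nat_lit 0xdbf983c40000), [⟨(nb (nat_lit 1) (nat_lit 1216) (nat_lit 0)), (nat_lit 0), (nat_lit 1), (nat_lit 3)⟩, ⟨(nb (nat_lit 1) (nat_lit 1216) (nat_lit 0)), (nat_lit 2), (nat_lit 3), (nat_lit 3)⟩, ⟨(nb (nat_lit 5) (nat_lit 13376) (nat_lit 0x1000000000000000200000000000000030000000000000004)), (nat_lit 0), (nat_lit 15), (nat_lit 40)⟩], [⟨(nb (nat_lit 5) (nat_lit 13376) (nat_lit 0)), (nat_lit 0x3000000000000000600000000000000090000000000000002),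 (nat_lit 25), (nat_lit 40)⟩], false⟩, []⟩
def f142 : Fc := ⟨true, ⟨[[e609, e610, e611, e612, e613], [e614, e615, e616, e617, e618, e619, e620, e621, e622, e623], [e624, e625, e626, e627, e628, e629, e630, e631, e632, e633], [e15, e16, e17, e18, e19]], [e634], [], (nat_lit 31), (nat_lit 0xffffffffff003fffffff), (nat_lit 0), (nat_lit 4), (nat_lit 5)⟩, [⟨(nat_lit 69905), (nat_lit 3)⟩, ⟨(nat_lit 69905), (nat_lit 4)⟩], ⟨(nat_lit 0x39aa40000), [⟨(nb (nat_lit 11) (nat_lit 1216) (nat_lit 0)), (nat_lit 0x4000000000000000d000000000000000e0000000000000013), (nat_lit 61), (nat_lit 24)⟩, ⟨(nb (nat_lit 1) (nat_lit 1216) (nat_lit 0)), (nat_lit 0), (nat_lit 1), (nat_lit 3)⟩, ⟨(nb (nat_lit 1) (nat_lit 1216) (nat_lit 0)), (nat_lit 2), (nat_lit 3), (nat_lit 3)⟩], [], false⟩, []⟩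
def f143 : Fc := ⟨true, ⟨[[e609, e610, e611, e612, e613], [e614, e615, e616, e617, e618, e619, e620, e621, e622, e623], [e624, e625, e626, e627, e628, e629, e630, e631, e632, e633], [e15, e16, e17, e18, e19]], [], [], (nat_lit 30), (nat_lit 0x3fffffff003fffffff), (nat_lit 0), (nat_lit 5), (nat_lit 5)⟩, [⟨(nat_lit 69905), (nat_lit 2)⟩, ⟨(nat_lit 8465), (nat_lit 0)⟩, ⟨(nat_lit 4625), (nat_lit 0)⟩, ⟨(nat_lit 4385), (nat_lit 0)⟩, ⟨(nat_lit 4370), (nat_lit 0)⟩, ⟨(nat_lit 69905), (nat_lit 4)⟩, ⟨(nat_lit 69905), (nat_lit 3)⟩], ⟨(nat_lit 0x39aa40000), [⟨(nat_lit 0x4000000000000000d000000000000000e0000000000000013), (nb (nat_lit 11) (nat_lit 1216) (nat_lit 0)), (nat_lit 61), (nat_lit 24)⟩, ⟨(nb (nat_lit 1) (nat_lit 1216) (nat_lit 0)), (nat_lit 0), (nat_lit 1), (nat_lit 3)⟩, ⟨(nb (nat_lit 1) (nat_lit 1216) (nat_lit 0)), (nat_lit 2), (nat_lit 3), (nat_lit 3)⟩], [], false⟩, []⟩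
def f144 : Fc := ⟨true, ⟨[[e635, e636, e637, e638, e639], [e364, e365, e366, e367, e368, e640, e641, e642, e643, e644], [e374, e375, e376, e377, e378, e379, e380, e381, e382, e383], [e15, e16, e17, e18, e19]], [], [], (nat_lit 30), (nat_lit 0x3fffffff003fffffff), (nat_lit 0), (nat_lit 5), (nat_lit 5)⟩, [⟨(nat_lit 69905), (nat_lit 2)⟩, ⟨(nat_lit 8465), (nat_lit 0)⟩, ⟨(nat_lit 4625), (nat_lit 0)⟩, ⟨(nat_lit 4385), (nat_lit 0)⟩, ⟨(nat_lit 4370), (nat_lit 0)⟩, ⟨(nat_lit 69905), (nat_lit 4)⟩, ⟨(nat_lit 69905), (nat_lit 3)⟩], ⟨(nat_lit 0x4d431bc0000), [⟨(nb (nat_lit 1) (nat_lit 1216) (nat_lit 0)), (nat_lit 0), (nat_lit 1), (nat_lit 3)⟩, ⟨(nb (nat_lit 1) (nat_lit 1216) (nat_lit 0)), (nat_lit 2), (nat_lit 3), (nat_lit 3)⟩], [], false⟩, []⟩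
def f145 : Fc := ⟨true, ⟨[[e329, e330, e331, e332, e333], [e252, e253, e254, e255, e256, e272, e273, e274, e275, e276], [e10, e11, e12, e13, e14, e75, e76, e77, e78, e79], [e15, e16, e17, e18, e19]], [], [], (nat_lit 30), (nat_lit 0x3fffffff003fffffff), (nat_lit 0), (nat_lit 5), (nat_lit 5)⟩, [⟨(nat_lit 69905), (nat_lit 2)⟩, ⟨(nat_lit 8465), (nat_lit 0)⟩, ⟨(nat_lit 4625), (nat_lit 0)⟩, ⟨(nat_lit 4385), (nat_lit 0)⟩, ⟨(nat_lit 4370), (nat_lit 0)⟩, ⟨(nat_lit 69905), (nat_lit 4)⟩, ⟨(nat_lit 69905), (nat_lit 3)⟩], ⟨(nat_lit 0x126bb4f8b9c0000), [⟨(nb (nat_lit 1) (nat_lit 1216) (nat_lit 0)), (nat_lit 2), (nat_lit 3), (nat_lit 3)⟩, ⟨(nb (nat_lit 1) (nat_lit 1216) (nat_lit 0)), (nat_lit 0), (nat_lit 1), (nat_lit 3)⟩], [], false⟩, []⟩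
def f146 : Fc := ⟨true, ⟨[[e645, e646, e647, e648, e649], [e650, e651, e652, e653, e654, e655, e656, e657, e658, e659], [e660, e661, e662, e663, e664, e665, e666, e667, e668, e669], [e15, e16, e17, e18, e19]], [e670], [], (nat_lit 31), (nat_lit 0xffffffffff003fffffff), (nat_lit 0), (nat_lit 4), (nat_lit 5)⟩, [⟨(nat_lit 69905), (nat_lit 4)⟩], ⟨(nat_lit 0xdbf983c40000), [⟨(nb (nat_lit 1) (nat_lit 1216) (nb (nat_lit 1) (nat_lit 128) (nat_lit 0))), (nat_lit 1), (nat_lit 3), (nat_lit 12)⟩, ⟨(nb (nat_lit 1) (nat_lit 13376) (nat_lit 1)), (nat_lit 0), (nat_lit 2), (nat_lit 5)⟩, ⟨(nb (nat_lit 11) (nat_lit 14592) (nb (nat_lit 4) (nat_lit 13504) (nat_lit 0x16000000000000000b000000000000000b000000000000000b))), (nb (nat_lit 0xa00000000000000000000000000000009000000000000000f) (nat_lit 13376) (nb (nat_lit 0xd00000000000000080000000000000004000000000000000e) (nat_lit 1216) (nat_lit 0))), (nat_lit 143), (nat_lit 120)⟩, ⟨(nb (nat_lit 1) (nat_lit 1216) (nat_lit 0)),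 (nat_lit 2), (nat_lit 3), (nat_lit 3)⟩, ⟨(nb (nat_lit 1) (nat_lit 1216) (nat_lit 0)), (nat_lit 0), (nat_lit 1), (nat_lit 3)⟩], [⟨(nb (nat_lit 1) (nat_lit 14592) (nat_lit 0)), (nb (nat_lit 1) (nat_lit 13376) (nat_lit 1)), (nat_lit 3), (nat_lit 15)⟩], false⟩, []⟩
def f147 : Fc := ⟨true, ⟨[[e645, e646, e647, e648, e649], [e650, e651, e652, e653, e654, e655, e656, e657, e658, e659], [e660, e661, e662, e663, e664, e665, e666, e667, e668, e669], [e15, e16, e17, e18, e19]], [e670], [], (nat_lit 31), (nat_lit 0xffffffffff003fffffff), (nat_lit 0), (nat_lit 4), (nat_lit 5)⟩, [⟨(nat_lit 69905), (nat_lit 3)⟩, ⟨(nat_lit 69905), (nat_lit 4)⟩], ⟨(nat_lit 0xdbf983c40000), [⟨(nb (nat_lit 1) (nat_lit 1216) (nb (nat_lit 1) (nat_lit 128) (nat_lit 0))), (nat_lit 1), (nat_lit 3), (nat_lit 12)⟩, ⟨(nb (nat_lit 1) (nat_lit 13376) (nat_lit 1)), (nat_lit 0), (nat_lit 2), (nat_lit 5)⟩, ⟨(nb (nat_lit 11) (nat_lit 14592) (nb (nat_lit 4) (nat_lit 13504) (nat_lit 0x16000000000000000b000000000000000b000000000000000b))),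 (nb (nat_lit 0xa00000000000000000000000000000009000000000000000f) (nat_lit 13376) (nb (nat_lit 0xd00000000000000080000000000000004000000000000000e) (nat_lit 1216) (nat_lit 0))), (nat_lit 143), (nat_lit 120)⟩, ⟨(nb (nat_lit 1) (nat_lit 1216) (nat_lit 0)), (nat_lit 2), (nat_lit 3), (nat_lit 3)⟩, ⟨(nb (nat_lit 1) (nat_lit 1216) (nat_lit 0)), (nat_lit 0), (nat_lit 1), (nat_lit 3)⟩], [⟨(nb (nat_lit 1) (nat_lit 14592) (nb (nat_lit 1) (nat_lit 13504) (nat_lit 0x1000000000000000000000000000000010000000000000002))), (nb (nat_lit 0x1000000000000000000000000000000000000000000000001) (nat_lit 13376) (nb (nat_lit 0x1000000000000000100000000000000010000000000000002) (nat_lit 1216) (nat_lit 0))), (nat_lit 13), (nat_lit 120)⟩], false⟩, []⟩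
def f148 : Fc := ⟨true, ⟨[[e671, e672, e673, e674, e675], [e676, e677, e678, e679, e680, e681, e682, e683, e684, e685], [e686, e687, e688, e689, e690, e691, e692, e693, e694, e695], [e15, e16, e17, e18, e19]], [e696, e697], [], (nat_lit 32), (nat_lit 0x3ffffffffffff003fffffff), (nat_lit 0), (nat_lit 3), (nat_lit 5)⟩, [⟨(nat_lit 69905), (nat_lit 4)⟩], ⟨(nat_lit 0x39aa40000), [⟨(nb (nat_lit 151) (nat_lit 1216) (nat_lit 0)), (nat_lit 0x6c000000000000004200000000000000b700000000000000d5), (nat_lit 721), (nat_lit 24)⟩, ⟨(nb (nat_lit 1) (nat_lit 1216) (nat_lit 0)), (nat_lit 0x1000000000000000100000000000000020000000000000002), (nat_lit 7), (nat_lit 24)⟩, ⟨(nb (nat_lit 1) (nat_lit 1216) (nat_lit 0)), (nat_lit 0), (nat_lit 1), (nat_lit 3)⟩, ⟨(nb (nat_lit 1) (nat_lit 1216) (nat_lit 0)), (nat_lit 2), (nat_lit 3), (nat_lit 3)⟩, ⟨(nb (nat_lit 31) (nat_lit 1216) (nat_lit 0)), (nat_lit 0x15000000000000000c00000000000000260000000000000031), (nat_lit 151), (nat_lit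 24)⟩, ⟨(nb (nat_lit 1) (nat_lit 1216) (nb (nat_lit 1) (nat_lit 128) (nat_lit 0))), (nat_lit 1), (nat_lit 3), (nat_lit 12)⟩], [⟨(nb (nat_lit 1) (nat_lit 1216) (nat_lit 0)), (nat_lit 0x1000000000000000100000000000000010000000000000002), (nat_lit 6), (nat_lit 24)⟩], false⟩, []⟩
def f149 : Fc := ⟨true, ⟨[[e671, e672, e673, e674, e675], [e676, e677, e678, e679, e680, e681, e682, e683, e684, e685], [e686, e687, e688, e689, e690, e691, e692, e693, e694, e695], [e15, e16, e17, e18, e19]], [e697], [], (nat_lit 31), (nat_lit 0xffffffffff003fffffff), (nat_lit 0), (nat_lit 4), (nat_lit 5)⟩, [⟨(nat_lit 69905), (nat_lit 2)⟩, ⟨(nat_lit 69905), (nat_lit 4)⟩, ⟨(nat_lit 69905), (nat_lit 3)⟩], ⟨(nat_lit 0x39aa40000), [⟨(nat_lit 0x1000000000000000100000000000000020000000000000002), (nb (nat_lit 1) (nat_lit 1216) (nat_lit 0)), (nat_lit 7), (nat_lit 24)⟩, ⟨(nb (nat_lit 1) (nat_lit 1216) (nat_lit 0)), (nat_lit 0), (nat_lit 1), (nat_lit 3)⟩, ⟨(nb (nat_lit 1) (nat_lit 1216)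 (nat_lit 0)), (nat_lit 2), (nat_lit 3), (nat_lit 3)⟩, ⟨(nb (nat_lit 151) (nat_lit 2432) (nb (nat_lit 85) (nat_lit 1344) (nat_lit 0xf900000000000000ab))), (nb (nat_lit 0x6c000000000000000000000000000000b7000000000000016c) (nat_lit 1216) (nb (nat_lit 0x90000000000000051) (nat_lit 128) (nat_lit 0))), (nat_lit 1401), (nat_lit 72)⟩, ⟨(nb (nat_lit 31) (nat_lit 1216) (nat_lit 0)), (nat_lit 0x15000000000000000c00000000000000260000000000000031), (nat_lit 151), (nat_lit 24)⟩, ⟨(nb (nat_lit 1) (nat_lit 1216) (nb (nat_lit 1) (nat_lit 128) (nat_lit 0))), (nat_lit 1), (nat_lit 3), (nat_lit 12)⟩], [], false⟩, []⟩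
def f150 : Fc := ⟨true, ⟨[[e645, e646, e647, e648, e649], [e650, e651, e652, e653, e654, e655, e656, e657, e658, e659], [e660, e661, e662, e663, e664, e665, e666, e667, e668, e669], [e15, e16, e17, e18, e19]], [e670], [], (nat_lit 31), (nat_lit 0xffffffffff003fffffff), (nat_lit 0), (nat_lit 4), (nat_lit 5)⟩, [⟨(nat_lit 69905), (nat_lit 2)⟩, ⟨(nat_lit 69905), (nat_lit 4)⟩, ⟨(nat_lit 69905), (nat_lit 3)⟩], ⟨(nat_lit 0xdbf983c40000), [⟨(nb (nat_lit 1) (nat_lit 1216) (nb (nat_lit 1) (nat_lit 128) (nat_lit 0))), (nat_lit 1), (nat_lit 3), (nat_lit 12)⟩, ⟨(nb (nat_lit 1) (nat_lit 13376) (nat_lit 1)), (nat_lit 0), (nat_lit 2), (nat_lit 5)⟩, ⟨(nb (nat_lit 11) (nat_lit 14592) (nb (nat_lit 4) (nat_lit 13504) (nat_lit 0x16000000000000000b000000000000000b000000000000000b))), (nb (nat_lit 0xa00000000000000000000000000000009000000000000000f) (nat_lit 13376) (nb (nat_lit 0xd00000000000000080000000000000004000000000000000e) (nat_lit 1216) (nat_lit 0))), (nat_lit 143),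 (nat_lit 120)⟩, ⟨(nb (nat_lit 1) (nat_lit 1216) (nat_lit 0)), (nat_lit 2), (nat_lit 3), (nat_lit 3)⟩, ⟨(nb (nat_lit 1) (nat_lit 1216) (nat_lit 0)), (nat_lit 0), (nat_lit 1), (nat_lit 3)⟩], [⟨(nb (nat_lit 1) (nat_lit 14592) (nb (nat_lit 1) (nat_lit 1408) (nat_lit 0x100000000000000010000000000000002))), (nb (nat_lit 0x1000000000000000100000000000000020000000000000002) (nat_lit 13376) (nb (nat_lit 1) (nat_lit 1216) (nat_lit 0))), (nat_lit 13), (nat_lit 120)⟩], false⟩, []⟩
def f151 : Fc := ⟨true, ⟨[[e698, e699, e700, e701, e702], [e703, e704, e705, e706, e707, e708, e709, e710, e711, e712], [e713, e714, e715, e716, e717, e718, e719, e720, e721, e722], [e15, e16, e17, e18, e19]], [], [], (nat_lit 30), (nat_lit 0x3fffffff003fffffff), (nat_lit 0), (nat_lit 5), (nat_lit 5)⟩, [⟨(nat_lit 69905), (nat_lit 1)⟩, ⟨(nat_lit 8465), (nat_lit 0)⟩, ⟨(nat_lit 4625), (nat_lit 0)⟩, ⟨(nat_lit 4385), (nat_lit 0)⟩, ⟨(nat_lit 4370), (nat_lit 0)⟩, ⟨(nat_lit 69905), (nat_lit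 4)⟩, ⟨(nat_lit 69905), (nat_lit 3)⟩, ⟨(nat_lit 69905), (nat_lit 2)⟩], ⟨(nat_lit 0x4d431bc0000), [⟨(nb (nat_lit 1) (nat_lit 1216) (nat_lit 0)), (nat_lit 0), (nat_lit 1), (nat_lit 3)⟩, ⟨(nb (nat_lit 1) (nat_lit 1216) (nat_lit 0)), (nat_lit 2), (nat_lit 3), (nat_lit 3)⟩, ⟨(nb (nat_lit 11) (nat_lit 94848) (nb (nat_lit 4) (nat_lit 93760) (nat_lit 0x16000000000000000b000000000000000b000000000000000b))), (nb (nat_lit 0xa00000000000000000000000000000009000000000000000f) (nat_lit 93632) (nb (nat_lit 0xd00000000000000080000000000000004000000000000000e) (nat_lit 1216) (nat_lit 0))), (nat_lit 143), (nat_lit 168)⟩, ⟨(nb (nat_lit 1) (nat_lit 93632) (nat_lit 1)), (nat_lit 0), (nat_lit 2), (nat_lit 7)⟩, ⟨(nb (nat_lit 1) (nat_lit 1216) (nb (nat_lit 1) (nat_lit 128) (nat_lit 0))), (nat_lit 1), (nat_lit 3), (nat_lit 12)⟩], [], false⟩, []⟩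
def f152 : Fc := ⟨true, ⟨[[e723, e724, e725, e726, e727], [e728, e729, e730, e731, e732, e170, e171, e172, e173, e174], [e10, e11, e12, e13, e14, e75, e76, e77, e78, e79], [e15, e16, e17, e18, e19]], [e733], [], (nat_lit 31), (nat_lit 0xffffffffff003fffffff), (nat_lit 0), (nat_lit 4), (nat_lit 5)⟩, [⟨(nat_lit 69905), (nat_lit 3)⟩, ⟨(nat_lit 69905), (nat_lit 4)⟩], ⟨(nat_lit 0x39aa40000), [⟨(nb (nat_lit 5) (nat_lit 1216) (nat_lit 0x2000000000000000000000000000000010000000000000003)), (nat_lit 0x100000000000000000000000000000000), (nat_lit 12), (nat_lit 24)⟩], [], false⟩, []⟩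
def f153 : Fc := ⟨true, ⟨[[e723, e724, e725, e726, e727], [e728, e729, e730, e731, e732, e170, e171, e172, e173, e174], [e10, e11, e12, e13, e14, e75, e76, e77, e78, e79], [e15, e16, e17, e18, e19]], [e733], [], (nat_lit 31), (nat_lit 0xffffffffff003fffffff), (nat_lit 0), (nat_lit 4), (nat_lit 5)⟩, [⟨(nat_lit 69905), (nat_lit 2)⟩, ⟨(nat_lit 69905), (nat_lit 4)⟩, ⟨(nat_lit 69905), (nat_lit 3)⟩], ⟨(nat_lit 0x39aa40000), [⟨(nb (nat_lit 5) (nat_lit 1216) (nat_lit 0x2000000000000000000000000000000010000000000000003)), (nat_lit 0x100000000000000000000000000000000), (nat_lit 12), (nat_lit 24)⟩], [], false⟩, []⟩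
def f154 : Fc := ⟨true, ⟨[[e734, e735, e736, e737, e738], [e728, e729, e730, e731, e732, e272, e273, e274, e275, e276], [e10, e11, e12, e13, e14, e75, e76, e77, e78, e79], [e15, e16, e17, e18, e19]], [], [], (nat_lit 30), (nat_lit 0x3fffffff003fffffff), (nat_lit 0), (nat_lit 5), (nat_lit 5)⟩, [⟨(nat_lit 69905), (nat_lit 1)⟩, ⟨(nat_lit 8465), (nat_lit 0)⟩, ⟨(nat_lit 4625), (nat_lit 0)⟩, ⟨(nat_lit 4385), (nat_lit 0)⟩, ⟨(nat_lit 4370), (nat_lit 0)⟩, ⟨(nat_lit 69905), (nat_lit 4)⟩, ⟨(nat_lit 69905), (nat_lit 3)⟩, ⟨(nat_lit 69905), (nat_lit 2)⟩], ⟨(nat_lit 0x1471c3c0000), [⟨(nb (nat_lit 5) (nat_lit 13376) (nat_lit 0x2000000000000000000000000000000010000000000000003)), (nat_lit 0x100000000000000000000000000000000), (nat_lit 12), (nat_lit 40)⟩, ⟨(nb (nat_lit 1) (nat_lit 93632) (nat_lit 1)), (nat_lit 0), (nat_lit 2), (nat_lit 7)⟩], [⟨(nb (nat_lit 1) (nat_lit 93632) (nb (nat_lit 1) (nat_lit 192) (nat_lit 0))), (nat_lit 0), (nat_lit 2), (nat_lit 56)⟩], false⟩,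 []⟩
def f155 : Fc := ⟨true, ⟨[[e329, e330, e331, e332, e333], [e252, e253, e254, e255, e256, e272, e273, e274, e275, e276], [e10, e11, e12, e13, e14, e75, e76, e77, e78, e79], [e15, e16, e17, e18, e19]], [], [], (nat_lit 30), (nat_lit 0x3fffffff003fffffff), (nat_lit 0), (nat_lit 5), (nat_lit 5)⟩, [⟨(nat_lit 69905), (nat_lit 1)⟩, ⟨(nat_lit 8465), (nat_lit 0)⟩, ⟨(nat_lit 4625), (nat_lit 0)⟩, ⟨(nat_lit 4385), (nat_lit 0)⟩, ⟨(nat_lit 4370), (nat_lit 0)⟩, ⟨(nat_lit 69905), (nat_lit 4)⟩, ⟨(nat_lit 69905), (nat_lit 3)⟩, ⟨(nat_lit 69905), (nat_lit 2)⟩], ⟨(nat_lit 0x126bb4f8b9c0000), [⟨(nb (nat_lit 5) (nat_lit 13376) (nat_lit 0x2000000000000000000000000000000010000000000000003)), (nat_lit 0x100000000000000000000000000000000), (nat_lit 12), (nat_lit 40)⟩, ⟨(nb (nat_lit 1) (nat_lit 1216) (nat_lit 0)), (nat_lit 2), (nat_lit 3), (nat_lit 3)⟩, ⟨(nb (nat_lit 1) (nat_lit 1216) (nat_lit 0)), (nat_lit 0), (nat_lit 1), (nat_lit 3)⟩], [⟨(nb (nat_lit 1) (nat_lit 93632)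 (nat_lit 1)), (nat_lit 0), (nat_lit 2), (nat_lit 7)⟩, ⟨(nb (nat_lit 1) (nat_lit 108224) (nb (nat_lit 1) (nat_lit 107136) (nb (nat_lit 0x1000000000000000100000000000000010000000000000002) (nat_lit 94848) (nb (nat_lit 1) (nat_lit 14592) (nb (nat_lit 1) (nat_lit 13504) (nat_lit 0x2000000000000000100000000000000000000000000000001)))))), (nb (nat_lit 1) (nat_lit 107008) (nb (nat_lit 0x2000000000000000000000000000000020000000000000002) (nat_lit 93632) (nb (nat_lit 1) (nat_lit 13376) (nb (nat_lit 0x1000000000000000100000000000000000000000000000001) (nat_lit 1216) (nat_lit 0))))), (nat_lit 24), (nat_lit 840)⟩], false⟩, []⟩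
def f156 : Fc := ⟨true, ⟨[[e329, e330, e331, e332, e333], [e252, e253, e254, e255, e256, e272, e273, e274, e275, e276], [e10, e11, e12, e13, e14, e75, e76, e77, e78, e79], [e15, e16, e17, e18, e19]], [], [], (nat_lit 30), (nat_lit 0x3fffffff003fffffff), (nat_lit 0), (nat_lit 5), (nat_lit 5)⟩, [⟨(nat_lit 69905), (nat_lit 1)⟩, ⟨(nat_lit 8465), (nat_lit 0)⟩, ⟨(nat_lit 4625), (nat_lit 0)⟩, ⟨(nat_lit 4385), (nat_lit 0)⟩, ⟨(nat_lit 4370), (nat_lit 0)⟩, ⟨(nat_lit 69905), (nat_lit 4)⟩, ⟨(nat_lit 69905), (nat_lit 3)⟩, ⟨(nat_lit 69905), (nat_lit 2)⟩], ⟨(nat_lit 0x126bb4f8b9c0000), [⟨(nb (nat_lit 5) (nat_lit 13376) (nat_lit 0x2000000000000000000000000000000010000000000000003)), (nat_lit 0x100000000000000000000000000000000), (nat_lit 12), (nat_lit 40)⟩, ⟨(nb (nat_lit 1) (nat_lit 1216) (nat_lit 0)), (nat_lit 2), (nat_lit 3), (nat_lit 3)⟩, ⟨(nb (nat_lit 1) (nat_lit 1216) (nat_lit 0)), (nat_lit 0), (nat_lit 1), (nat_lit 3)⟩], [], false⟩, []⟩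
def f157 : Fc := ⟨true, ⟨[[e739, e740, e741, e742, e743], [e744, e745, e746, e747, e748, e749, e750, e751, e752, e753], [e754, e755, e756, e757, e758, e759, e760, e761, e762, e763], [e15, e16, e17, e18, e19]], [e764], [], (nat_lit 31), (nat_lit 0xffffffffff003fffffff), (nat_lit 0), (nat_lit 4), (nat_lit 5)⟩, [⟨(nat_lit 69905), (nat_lit 4)⟩], ⟨(nat_lit 0x39aa40000), [⟨(nb (nat_lit 11) (nat_lit 1216) (nb (nat_lit 4) (nat_lit 128) (nat_lit 0))), (nat_lit 0xa00000000000000000000000000000009000000000000000f), (nat_lit 49), (nat_lit 24)⟩, ⟨(nb (nat_lit 1) (nat_lit 1216) (nat_lit 0)), (nat_lit 0), (nat_lit 1), (nat_lit 3)⟩, ⟨(nb (nat_lit 1) (nat_lit 1216) (nat_lit 0)), (nat_lit 2), (nat_lit 3), (nat_lit 3)⟩], [], false⟩, []⟩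
def f158 : Fc := ⟨true, ⟨[[e739, e740, e741, e742, e743], [e744, e745, e746, e747, e748, e749, e750, e751, e752, e753], [e754, e755, e756, e757, e758, e759, e760, e761, e762, e763], [e15, e16, e17, e18, e19]], [e764], [], (nat_lit 31), (nat_lit 0xffffffffff003fffffff), (nat_lit 0), (nat_lit 4), (nat_lit 5)⟩, [⟨(nat_lit 69905), (nat_lit 3)⟩, ⟨(nat_lit 69905), (nat_lit 4)⟩], ⟨(nat_lit 0x39aa40000), [⟨(nb (nat_lit 11) (nat_lit 1216) (nb (nat_lit 4) (nat_lit 128) (nat_lit 0))), (nat_lit 0xa00000000000000000000000000000009000000000000000f), (nat_lit 49), (nat_lit 24)⟩, ⟨(nb (nat_lit 1) (nat_lit 1216) (nat_lit 0)), (nat_lit 0), (nat_lit 1), (nat_lit 3)⟩, ⟨(nb (nat_lit 1) (nat_lit 1216) (nat_lit 0)), (nat_lit 2), (nat_lit 3), (nat_lit 3)⟩], [], false⟩, []⟩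
def f159 : Fc := ⟨true, ⟨[[e739, e740, e741, e742, e743], [e744, e745, e746, e747, e748, e749, e750, e751, e752, e753], [e754, e755, e756, e757, e758, e759, e760, e761, e762, e763], [e15, e16, e17, e18, e19]], [e764], [], (nat_lit 31), (nat_lit 0xffffffffff003fffffff), (nat_lit 0), (nat_lit 4), (nat_lit 5)⟩, [⟨(nat_lit 69905), (nat_lit 2)⟩, ⟨(nat_lit 69905), (nat_lit 4)⟩, ⟨(nat_lit 69905), (nat_lit 3)⟩], ⟨(nat_lit 0x39aa40000), [⟨(nb (nat_lit 11) (nat_lit 1216) (nb (nat_lit 4) (nat_lit 128) (nat_lit 0))), (nat_lit 0xa00000000000000000000000000000009000000000000000f), (nat_lit 49), (nat_lit 24)⟩, ⟨(nb (nat_lit 1) (nat_lit 1216) (nat_lit 0)), (nat_lit 0), (nat_lit 1), (nat_lit 3)⟩, ⟨(nb (nat_lit 1) (nat_lit 1216) (nat_lit 0)), (nat_lit 2), (nat_lit 3), (nat_lit 3)⟩], [⟨(nb (nat_lit 151) (nat_lit 1216) (nat_lit 0)), (nat_lit 0x6c000000000000004200000000000000b700000000000000d5), (nat_lit 721), (nat_lit 24)⟩], false⟩, []⟩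
def f160 : Fc := ⟨true, ⟨[[e765, e766, e767, e768, e769], [e364, e365, e366, e367, e368, e770, e771, e772, e773, e774], [e374, e375, e376, e377, e378, e379, e380, e381, e382, e383], [e15, e16, e17, e18, e19]], [], [], (nat_lit 30), (nat_lit 0x3fffffff003fffffff), (nat_lit 0), (nat_lit 5), (nat_lit 5)⟩, [⟨(nat_lit 69905), (nat_lit 1)⟩, ⟨(nat_lit 8465), (nat_lit 0)⟩, ⟨(nat_lit 4625), (nat_lit 0)⟩, ⟨(nat_lit 4385), (nat_lit 0)⟩, ⟨(nat_lit 4370), (nat_lit 0)⟩, ⟨(nat_lit 69905), (nat_lit 4)⟩, ⟨(nat_lit 69905), (nat_lit 3)⟩, ⟨(nat_lit 69905), (nat_lit 2)⟩], ⟨(nat_lit 0xdbf983c40000), [⟨(nb (nat_lit 1) (nat_lit 1216) (nat_lit 0)), (nat_lit 2), (nat_lit 3), (nat_lit 3)⟩, ⟨(nb (nat_lit 1) (nat_lit 1216) (nat_lit 0)), (nat_lit 0), (nat_lit 1), (nat_lit 3)⟩], [], false⟩, []⟩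
def f161 : Fc := ⟨true, ⟨[[e329, e330, e331, e332, e333], [e252, e253, e254, e255, e256, e272, e273, e274, e275, e276], [e10, e11, e12, e13, e14, e75, e76, e77, e78, e79], [e15, e16, e17, e18, e19]], [], [], (nat_lit 30), (nat_lit 0x3fffffff003fffffff), (nat_lit 0), (nat_lit 5), (nat_lit 5)⟩, [⟨(nat_lit 69905), (nat_lit 1)⟩, ⟨(nat_lit 8465), (nat_lit 0)⟩, ⟨(nat_lit 4625), (nat_lit 0)⟩, ⟨(nat_lit 4385), (nat_lit 0)⟩, ⟨(nat_lit 4370), (nat_lit 0)⟩, ⟨(nat_lit 69905), (nat_lit 4)⟩, ⟨(nat_lit 69905), (nat_lit 3)⟩, ⟨(nat_lit 69905), (nat_lit 2)⟩], ⟨(nat_lit 0x126bb4f8b9c0000), [⟨(nb (nat_lit 1) (nat_lit 1216) (nat_lit 0)), (nat_lit 2), (nat_lit 3), (nat_lit 3)⟩, ⟨(nb (nat_lit 1) (nat_lit 1216) (nat_lit 0)), (nat_lit 0), (nat_lit 1), (nat_lit 3)⟩], [], false⟩, []⟩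
def f162 : Fc := ⟨true, ⟨[[e775, e776, e777, e778, e779], [e780, e781, e782, e783, e784, e785, e786, e787, e788, e789], [e790, e791, e792, e793, e794, e795, e796, e797, e798, e799], [e15, e16, e17, e18, e19]], [e800], [], (nat_lit 31), (nat_lit 0xffffffffff003fffffff), (nat_lit 0), (nat_lit 4), (nat_lit 5)⟩, [⟨(nat_lit 69905), (nat_lit 4)⟩], ⟨(nat_lit 0x39aa40000), [⟨(nb (nat_lit 1) (nat_lit 1216) (nb (nat_lit 1) (nat_lit 128) (nat_lit 0))), (nat_lit 0), (nat_lit 2), (nat_lit 12)⟩, ⟨(nb (nat_lit 2) (nat_lit 2432) (nb (nat_lit 1) (nat_lit 1280) (nat_lit 0x2000000000000000100000000000000000000000000000002))), (nb (nat_lit 0x1000000000000000000000000000000000000000000000003) (nat_lit 1216) (nat_lit 0)), (nat_lit 12), (nat_lit 72)⟩, ⟨(nb (nat_lit 61) (nat_lit 2432) (nb (nat_lit 21) (nat_lit 1280) (nat_lit 0x48000000000000002700000000000000100000000000000018))), (nb (nat_lit 0x3a00000000000000060000000000000000000000000000003c) (nat_lit 1216) (nat_lit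 0)), (nat_lit 357), (nat_lit 72)⟩, ⟨(nb (nat_lit 61) (nat_lit 2432) (nb (nat_lit 0x140000000000000036000000000000003f) (nat_lit 1280) (nat_lit 0x8000000000000000000000000000000000000000000000018))), (nb (nat_lit 62) (nat_lit 1216) (nb (nat_lit 0xf0000000000000030) (nat_lit 64) (nat_lit 0))), (nat_lit 355), (nat_lit 72)⟩, ⟨(nb (nat_lit 1) (nat_lit 1216) (nb (nat_lit 1) (nat_lit 64) (nat_lit 0))), (nat_lit 0), (nat_lit 2), (nat_lit 6)⟩], [⟨(nb (nat_lit 1) (nat_lit 1216) (nat_lit 0)), (nat_lit 0x1000000000000000100000000000000010000000000000001), (nat_lit 5), (nat_lit 24)⟩], false⟩, []⟩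
def f163 : Fc := ⟨true, ⟨[[e775, e776, e777, e778, e779], [e780, e781, e782, e783, e784, e785, e786, e787, e788, e789], [e790, e791, e792, e793, e794, e795, e796, e797, e798, e799], [e15, e16, e17, e18, e19]], [e800], [], (nat_lit 31), (nat_lit 0xffffffffff003fffffff), (nat_lit 0), (nat_lit 4), (nat_lit 5)⟩, [⟨(nat_lit 69905), (nat_lit 4)⟩], ⟨(nat_lit 0x39aa40000), [⟨(nb (nat_lit 2) (nat_lit 2432) (nb (nat_lit 1) (nat_lit 1280) (nat_lit 0x2000000000000000100000000000000000000000000000002))), (nb (nat_lit 0x1000000000000000000000000000000000000000000000003) (nat_lit 1216) (nat_lit 0)), (nat_lit 12), (nat_lit 72)⟩, ⟨(nb (nat_lit 61) (nat_lit 2432) (nb (nat_lit 21) (nat_lit 1280) (nat_lit 0x48000000000000002700000000000000100000000000000018))), (nb (nat_lit 0x3a00000000000000060000000000000000000000000000003c) (nat_lit 1216) (nat_lit 0)), (nat_lit 357), (nat_lit 72)⟩, ⟨(nb (nat_lit 61) (nat_lit 2432) (nb (nat_lit 0x140000000000000036000000000000003f)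 (nat_lit 1280) (nat_lit 0x8000000000000000000000000000000000000000000000018))), (nb (nat_lit 62) (nat_lit 1216) (nb (nat_lit 0xf0000000000000030) (nat_lit 64) (nat_lit 0))), (nat_lit 355), (nat_lit 72)⟩, ⟨(nb (nat_lit 1) (nat_lit 1216) (nb (nat_lit 1) (nat_lit 64) (nat_lit 0))), (nat_lit 0), (nat_lit 2), (nat_lit 6)⟩], [⟨(nb (nat_lit 1) (nat_lit 1216) (nb (nat_lit 1) (nat_lit 128) (nat_lit 0))), (nat_lit 0), (nat_lit 2), (nat_lit 12)⟩], false⟩, []⟩
def f164 : Fc := ⟨true, ⟨[[e801, e802, e803, e804, e805], [e806, e807, e808, e809, e810, e811, e812, e813, e814, e815], [e816, e817, e818, e819, e820, e821, e822, e823, e824, e825], [e15, e16, e17, e18, e19]], [e826], [], (nat_lit 31), (nat_lit 0xffffffffff003fffffff), (nat_lit 0), (nat_lit 4), (nat_lit 5)⟩, [⟨(nat_lit 69905), (nat_lit 4)⟩], ⟨(nat_lit 0xdbf983c40000), [⟨(nb (nat_lit 5) (nat_lit 13376) (nat_lit 0x100000000000000000000000000000002)), (nat_lit 0x2000000000000000000000000000000010000000000000000),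 (nat_lit 11), (nat_lit 40)⟩, ⟨(nb (nat_lit 1) (nat_lit 14592) (nb (nat_lit 1) (nat_lit 13376) (nb (nat_lit 2) (nat_lit 1216) (nat_lit 0)))), (nat_lit 1), (nat_lit 5), (nat_lit 15)⟩, ⟨(nb (nat_lit 5) (nat_lit 14592) (nb (nat_lit 2) (nat_lit 1216) (nat_lit 0))), (nb (nat_lit 5) (nat_lit 13376) (nat_lit 3)), (nat_lit 15), (nat_lit 15)⟩, ⟨(nb (nat_lit 2) (nat_lit 14592) (nat_lit 0)), (nb (nat_lit 3) (nat_lit 13376) (nat_lit 1)), (nat_lit 6), (nat_lit 15)⟩], [⟨(nb (nat_lit 11) (nat_lit 14592) (nb (nat_lit 0x40000000000000006) (nat_lit 13440) (nb (nat_lit 3) (nat_lit 1216) (nb (nat_lit 4) (nat_lit 64) (nat_lit 0))))), (nb (nat_lit 0x3000000000000000000000000000000000000000000000006) (nat_lit 13376) (nb (nat_lit 0x400000000000000020000000000000003) (nat_lit 1280) (nat_lit 0x2000000000000000100000000000000000000000000000004))), (nat_lit 53), (nat_lit 120)⟩, ⟨(nb (nat_lit 1) (nat_lit 29184) (nb (nat_lit 1) (nat_lit 26752) (nb (nat_lit 2) (nat_lit 13376) (nat_lit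 1)))), (nb (nat_lit 3) (nat_lit 27968) (nb (nat_lit 3) (nat_lit 14592) (nb (nat_lit 1) (nat_lit 1216) (nat_lit 0)))), (nat_lit 12), (nat_lit 225)⟩], false⟩, []⟩
def f165 : Fc := ⟨true, ⟨[[e827, e828, e829, e830, e831], [e832, e833, e834, e835, e836, e837, e838, e839, e840, e841], [e842, e843, e844, e845, e846, e847, e848, e849, e850, e851], [e15, e16, e17, e18, e19]], [e852], [], (nat_lit 31), (nat_lit 0xffffffffff003fffffff), (nat_lit 0), (nat_lit 4), (nat_lit 5)⟩, [⟨(nat_lit 69905), (nat_lit 4)⟩], ⟨(nat_lit 0x39aa40000), [⟨(nb (nat_lit 2) (nat_lit 1216) (nat_lit 0)), (nat_lit 0x100000000000000000000000000000002), (nat_lit 5), (nat_lit 12)⟩, ⟨(nb (nat_lit 11) (nat_lit 1216) (nat_lit 0)), (nat_lit 0x200000000000000090000000000000006000000000000000c), (nat_lit 40), (nat_lit 24)⟩, ⟨(nb (nat_lit 31) (nat_lit 1216) (nb (nat_lit 0x1200000000000000000000000000000006) (nat_lit 64) (nat_lit 0))), (nat_lit 0x300000000000000000000000000000014), (nat_lit 78),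 (nat_lit 24)⟩], [⟨(nb (nat_lit 1) (nat_lit 1216) (nb (nat_lit 1) (nat_lit 64) (nat_lit 0))), (nat_lit 0), (nat_lit 2), (nat_lit 6)⟩, ⟨(nb (nat_lit 1) (nat_lit 2432) (nb (nat_lit 0x100000000000000000000000000000001) (nat_lit 1280) (nat_lit 0))), (nat_lit 0x1000000000000000100000000000000010000000000000001), (nat_lit 7), (nat_lit 72)⟩], false⟩, []⟩
def f166 : Fc := ⟨true, ⟨[[e827, e828, e829, e830, e831], [e832, e833, e834, e835, e836, e837, e838, e839, e840, e841], [e842, e843, e844, e845, e846, e847, e848, e849, e850, e851], [e15, e16, e17, e18, e19]], [e852], [], (nat_lit 31), (nat_lit 0xffffffffff003fffffff), (nat_lit 0), (nat_lit 4), (nat_lit 5)⟩, [⟨(nat_lit 69905), (nat_lit 4)⟩], ⟨(nat_lit 0x39aa40000), [⟨(nb (nat_lit 2) (nat_lit 1216) (nat_lit 0)), (nat_lit 0x100000000000000000000000000000002), (nat_lit 5), (nat_lit 12)⟩, ⟨(nb (nat_lit 11) (nat_lit 1216) (nat_lit 0)), (nat_lit 0x200000000000000090000000000000006000000000000000c), (nat_lit 40),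 (nat_lit 24)⟩, ⟨(nb (nat_lit 31) (nat_lit 1216) (nb (nat_lit 0x1200000000000000000000000000000006) (nat_lit 64) (nat_lit 0))), (nat_lit 0x300000000000000000000000000000014), (nat_lit 78), (nat_lit 24)⟩], [⟨(nb (nat_lit 1) (nat_lit 2432) (nb (nat_lit 0x100000000000000000000000000000001) (nat_lit 1280) (nat_lit 0))), (nat_lit 0x1000000000000000100000000000000010000000000000001), (nat_lit 7), (nat_lit 72)⟩], false⟩, []⟩
def f167 : Fc := ⟨true, ⟨[[e801, e802, e803, e804, e805], [e806, e807, e808, e809, e810, e811, e812, e813, e814, e815], [e816, e817, e818, e819, e820, e821, e822, e823, e824, e825], [e15, e16, e17, e18, e19]], [e826], [], (nat_lit 31), (nat_lit 0xffffffffff003fffffff), (nat_lit 0), (nat_lit 4), (nat_lit 5)⟩, [⟨(nat_lit 69905), (nat_lit 4)⟩], ⟨(nat_lit 0xdbf983c40000), [⟨(nb (nat_lit 1) (nat_lit 14592) (nb (nat_lit 1) (nat_lit 13376) (nb (nat_lit 2) (nat_lit 1216) (nat_lit 0)))), (nat_lit 1), (nat_lit 5), (nat_lit 15)⟩, ⟨(nb (nat_lit 5)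 (nat_lit 14592) (nb (nat_lit 2) (nat_lit 1216) (nat_lit 0))), (nb (nat_lit 5) (nat_lit 13376) (nat_lit 3)), (nat_lit 15), (nat_lit 15)⟩, ⟨(nb (nat_lit 2) (nat_lit 14592) (nat_lit 0)), (nb (nat_lit 3) (nat_lit 13376) (nat_lit 1)), (nat_lit 6), (nat_lit 15)⟩], [⟨(nb (nat_lit 5) (nat_lit 13376) (nat_lit 0x100000000000000000000000000000002)), (nat_lit 0x2000000000000000000000000000000010000000000000000), (nat_lit 11), (nat_lit 40)⟩, ⟨(nb (nat_lit 1) (nat_lit 29184) (nb (nat_lit 1) (nat_lit 26752) (nb (nat_lit 2) (nat_lit 13376) (nat_lit 1)))), (nb (nat_lit 3) (nat_lit 27968) (nb (nat_lit 3) (nat_lit 14592) (nb (nat_lit 1) (nat_lit 1216) (nat_lit 0)))), (nat_lit 12), (nat_lit 225)⟩], false⟩, []⟩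
def f168 : Fc := ⟨true, ⟨[[e853, e854, e855, e856, e857], [e858, e859, e860, e861, e862, e863, e864, e865, e866, e867], [e868, e869, e870, e871, e872, e873, e874, e875, e876, e877], [e15, e16, e17, e18, e19]], [e878], [], (nat_lit 31), (nat_lit 0xffffffffff003fffffff), (nat_lit 0), (nat_lit 4), (nat_lit 5)⟩, [⟨(nat_lit 69905), (nat_lit 3)⟩, ⟨(nat_lit 69905), (nat_lit 4)⟩], ⟨(nat_lit 0x39aa40000), [⟨(nb (nat_lit 1) (nat_lit 1216) (nat_lit 0)), (nat_lit 0x1000000000000000100000000000000010000000000000001), (nat_lit 5), (nat_lit 24)⟩, ⟨(nb (nat_lit 2) (nat_lit 2432) (nb (nat_lit 1) (nat_lit 1344) (nat_lit 0x10000000000000001))), (nb (nat_lit 0x10000000000000003) (nat_lit 1216) (nb (nat_lit 0x10000000000000001) (nat_lit 128) (nat_lit 0))), (nat_lit 11), (nat_lit 72)⟩, ⟨(nb (nat_lit 61) (nat_lit 2432) (nb (nat_lit 0x6000000000000001b) (nat_lit 1344) (nb (nat_lit 33) (nat_lit 64) (nat_lit 0)))), (nb (nat_lit 0x340000000000000036) (nat_lit 1216) (nat_lit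 0x2700000000000000170000000000000000000000000000000f)), (nat_lit 310), (nat_lit 72)⟩, ⟨(nb (nat_lit 61) (nat_lit 2432) (nb (nat_lit 9) (nat_lit 1344) (nat_lit 0xf000000000000000000000000000000170000000000000027))), (nb (nat_lit 0x36000000000000000000000000000000220000000000000074) (nat_lit 1216) (nb (nat_lit 33) (nat_lit 128) (nat_lit 0))), (nat_lit 384), (nat_lit 72)⟩, ⟨(nb (nat_lit 1) (nat_lit 1216) (nb (nat_lit 1) (nat_lit 128) (nat_lit 0))), (nat_lit 0), (nat_lit 2), (nat_lit 12)⟩], [⟨(nb (nat_lit 1) (nat_lit 1216) (nb (nat_lit 1) (nat_lit 192) (nat_lit 0))), (nat_lit 0), (nat_lit 2), (nat_lit 24)⟩], false⟩, []⟩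
def f169 : Fc := ⟨true, ⟨[[e853, e854, e855, e856, e857], [e858, e859, e860, e861, e862, e863, e864, e865, e866, e867], [e868, e869, e870, e871, e872, e873, e874, e875, e876, e877], [e15, e16, e17, e18, e19]], [e878], [], (nat_lit 31), (nat_lit 0xffffffffff003fffffff), (nat_lit 0), (nat_lit 4), (nat_lit 5)⟩, [⟨(nat_lit 69905), (nat_lit 3)⟩, ⟨(nat_lit 69905), (nat_lit 4)⟩], ⟨(nat_lit 0x39aa40000), [⟨(nb (nat_lit 2) (nat_lit 2432) (nb (nat_lit 1) (nat_lit 1344) (nat_lit 0x10000000000000001))), (nb (nat_lit 0x10000000000000003) (nat_lit 1216) (nb (nat_lit 0x10000000000000001) (nat_lit 128) (nat_lit 0))), (nat_lit 11), (nat_lit 72)⟩, ⟨(nb (nat_lit 61) (nat_lit 2432) (nb (nat_lit 0x6000000000000001b) (nat_lit 1344) (nb (nat_lit 33) (nat_lit 64) (nat_lit 0)))), (nb (nat_lit 0x340000000000000036) (nat_lit 1216) (nat_lit 0x2700000000000000170000000000000000000000000000000f)), (nat_lit 310), (nat_lit 72)⟩, ⟨(nb (nat_lit 61) (nat_lit 2432) (nb (nat_lit 9) (nat_lit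 1344) (nat_lit 0xf000000000000000000000000000000170000000000000027))), (nb (nat_lit 0x36000000000000000000000000000000220000000000000074) (nat_lit 1216) (nb (nat_lit 33) (nat_lit 128) (nat_lit 0))), (nat_lit 384), (nat_lit 72)⟩, ⟨(nb (nat_lit 1) (nat_lit 1216) (nb (nat_lit 1) (nat_lit 128) (nat_lit 0))), (nat_lit 0), (nat_lit 2), (nat_lit 12)⟩], [⟨(nb (nat_lit 1) (nat_lit 1216) (nat_lit 0)), (nat_lit 0x1000000000000000100000000000000010000000000000001), (nat_lit 5), (nat_lit 24)⟩], false⟩, []⟩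
def f170 : Fc := ⟨true, ⟨[[e801, e802, e803, e804, e805], [e806, e807, e808, e809, e810, e811, e812, e813, e814, e815], [e816, e817, e818, e819, e820, e821, e822, e823, e824, e825], [e15, e16, e17, e18, e19]], [e826], [], (nat_lit 31), (nat_lit 0xffffffffff003fffffff), (nat_lit 0), (nat_lit 4), (nat_lit 5)⟩, [⟨(nat_lit 69905), (nat_lit 3)⟩, ⟨(nat_lit 69905), (nat_lit 4)⟩], ⟨(nat_lit 0xdbf983c40000), [⟨(nb (nat_lit 5) (nat_lit 13376) (nat_lit 1)), (nat_lit 0x1000000000000000200000000000000030000000000000000), (nat_lit 12), (nat_lit 40)⟩, ⟨(nb (nat_lit 1) (nat_lit 14592) (nb (nat_lit 1) (nat_lit 13376) (nb (nat_lit 2) (nat_lit 1216) (nat_lit 0)))), (nat_lit 1), (nat_lit 5), (nat_lit 15)⟩, ⟨(nb (nat_lit 5) (nat_lit 14592) (nb (nat_lit 2) (nat_lit 1216) (nat_lit 0))), (nb (nat_lit 5) (nat_lit 13376) (nat_lit 3)), (nat_lit 15), (nat_lit 15)⟩, ⟨(nb (nat_lit 2) (nat_lit 14592) (nat_lit 0)), (nb (nat_lit 3) (nat_lit 13376) (nat_lit 1)), (nat_lit 6), (nat_lit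 15)⟩], [⟨(nb (nat_lit 11) (nat_lit 14592) (nb (nat_lit 2) (nat_lit 13504) (nb (nat_lit 0x2000000000000000000000000000000000000000000000005) (nat_lit 1216) (nb (nat_lit 0x10000000000000005) (nat_lit 128) (nat_lit 0))))), (nb (nat_lit 0x400000000000000000000000000000007000000000000000a) (nat_lit 13376) (nb (nat_lit 0x10000000000000002) (nat_lit 1280) (nat_lit 0x10000000000000003))), (nat_lit 54), (nat_lit 120)⟩, ⟨(nb (nat_lit 1) (nat_lit 29184) (nb (nat_lit 1) (nat_lit 26752) (nb (nat_lit 2) (nat_lit 13376) (nat_lit 1)))), (nb (nat_lit 3) (nat_lit 27968) (nb (nat_lit 3) (nat_lit 14592) (nb (nat_lit 1) (nat_lit 1216) (nat_lit 0)))), (nat_lit 12), (nat_lit 225)⟩], false⟩, []⟩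
def f171 : Fc := ⟨true, ⟨[[e879, e880, e881, e882, e883], [e884, e885, e886, e887, e888, e889, e890, e891, e892, e893], [e894, e895, e896, e897, e898, e899, e900, e901, e902, e903], [e15, e16, e17, e18, e19]], [e904], [], (nat_lit 31), (nat_lit 0xffffffffff003fffffff), (nat_lit 0), (nat_lit 4), (nat_lit 5)⟩, [⟨(nat_lit 69905), (nat_lit 3)⟩, ⟨(nat_lit 69905), (nat_lit 4)⟩], ⟨(nat_lit 0x39aa40000), [⟨(nb (nat_lit 1) (nat_lit 1216) (nb (nat_lit 1) (nat_lit 64) (nat_lit 0))), (nat_lit 0), (nat_lit 2), (nat_lit 6)⟩, ⟨(nb (nat_lit 2) (nat_lit 1216) (nb (nat_lit 0x100000000000000010000000000000001) (nat_lit 64) (nat_lit 0))), (nat_lit 1), (nat_lit 6), (nat_lit 24)⟩, ⟨(nb (nat_lit 11) (nat_lit 1216) (nb (nat_lit 0x900000000000000030000000000000007) (nat_lit 64) (nat_lit 0))), (nat_lit 3), (nat_lit 33), (nat_lit 24)⟩, ⟨(nb (nat_lit 31) (nat_lit 1216) (nb (nat_lit 0x300000000000000090000000000000015) (nat_lit 64) (nat_lit 0))), (nat_lit 17), (nat_lit 81), (nat_lit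 24)⟩], [⟨(nb (nat_lit 1) (nat_lit 2432) (nb (nat_lit 0x10000000000000001) (nat_lit 1280) (nb (nat_lit 1) (nat_lit 192) (nat_lit 0)))), (nat_lit 0), (nat_lit 4), (nat_lit 72)⟩], false⟩, []⟩
def f172 : Fc := ⟨true, ⟨[[e879, e880, e881, e882, e883], [e884, e885, e886, e887, e888, e889, e890, e891, e892, e893], [e894, e895, e896, e897, e898, e899, e900, e901, e902, e903], [e15, e16, e17, e18, e19]], [e904], [], (nat_lit 31), (nat_lit 0xffffffffff003fffffff), (nat_lit 0), (nat_lit 4), (nat_lit 5)⟩, [⟨(nat_lit 69905), (nat_lit 3)⟩, ⟨(nat_lit 69905), (nat_lit 4)⟩], ⟨(nat_lit 0x39aa40000), [⟨(nb (nat_lit 2) (nat_lit 1216) (nb (nat_lit 0x100000000000000010000000000000001) (nat_lit 64) (nat_lit 0))), (nat_lit 1), (nat_lit 6), (nat_lit 24)⟩, ⟨(nb (nat_lit 11) (nat_lit 1216) (nb (nat_lit 0x900000000000000030000000000000007) (nat_lit 64) (nat_lit 0))), (nat_lit 3), (nat_lit 33), (nat_lit 24)⟩, ⟨(nb (nat_lit 31) (nat_lit 1216) (nb (nat_lit 0x300000000000000090000000000000015)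 (nat_lit 64) (nat_lit 0))), (nat_lit 17), (nat_lit 81), (nat_lit 24)⟩], [⟨(nb (nat_lit 1) (nat_lit 2432) (nb (nat_lit 0x10000000000000001) (nat_lit 1280) (nb (nat_lit 1) (nat_lit 192) (nat_lit 0)))), (nat_lit 0), (nat_lit 4), (nat_lit 72)⟩], false⟩, []⟩
def f173 : Fc := ⟨true, ⟨[[e801, e802, e803, e804, e805], [e806, e807, e808, e809, e810, e811, e812, e813, e814, e815], [e816, e817, e818, e819, e820, e821, e822, e823, e824, e825], [e15, e16, e17, e18, e19]], [e826], [], (nat_lit 31), (nat_lit 0xffffffffff003fffffff), (nat_lit 0), (nat_lit 4), (nat_lit 5)⟩, [⟨(nat_lit 69905), (nat_lit 3)⟩, ⟨(nat_lit 69905), (nat_lit 4)⟩], ⟨(nat_lit 0xdbf983c40000), [⟨(nb (nat_lit 1) (nat_lit 14592) (nb (nat_lit 1) (nat_lit 13376) (nb (nat_lit 2) (nat_lit 1216) (nat_lit 0)))), (nat_lit 1), (nat_lit 5), (nat_lit 15)⟩, ⟨(nb (nat_lit 5) (nat_lit 14592) (nb (nat_lit 2) (nat_lit 1216) (nat_lit 0))), (nb (nat_lit 5) (nat_lit 13376) (nat_lit 3)), (nat_lit 15), (nat_lit 15)⟩,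 ⟨(nb (nat_lit 2) (nat_lit 14592) (nat_lit 0)), (nb (nat_lit 3) (nat_lit 13376) (nat_lit 1)), (nat_lit 6), (nat_lit 15)⟩], [⟨(nb (nat_lit 5) (nat_lit 13376) (nat_lit 1)), (nat_lit 0x1000000000000000200000000000000030000000000000000), (nat_lit 12), (nat_lit 40)⟩, ⟨(nb (nat_lit 1) (nat_lit 29184) (nb (nat_lit 1) (nat_lit 26752) (nb (nat_lit 2) (nat_lit 13376) (nat_lit 1)))), (nb (nat_lit 3) (nat_lit 27968) (nb (nat_lit 3) (nat_lit 14592) (nb (nat_lit 1) (nat_lit 1216) (nat_lit 0)))), (nat_lit 12), (nat_lit 225)⟩], false⟩, []⟩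
def f174 : Fc := ⟨true, ⟨[[e905, e906, e907, e908, e909], [e910, e911, e912, e913, e914, e915, e916, e917, e918, e919], [e920, e921, e922, e923, e924, e925, e926, e927, e928, e929], [e15, e16, e17, e18, e19]], [e930], [], (nat_lit 31), (nat_lit 0xffffffffff003fffffff), (nat_lit 0), (nat_lit 4), (nat_lit 5)⟩, [⟨(nat_lit 69905), (nat_lit 2)⟩, ⟨(nat_lit 69905), (nat_lit 4)⟩, ⟨(nat_lit 69905), (nat_lit 3)⟩], ⟨(nat_lit 262144), [], [], false⟩, []⟩
def f175 : Fc := ⟨true, ⟨[[e931, e932, e933, e934, e935], [e936, e937, e938, e939, e940, e941, e942, e943, e944, e945], [e946, e947, e948, e949, e950, e951, e952, e953, e954, e955], [e15, e16, e17, e18, e19]], [e956], [], (nat_lit 31), (nat_lit 0xffffffffff003fffffff), (nat_lit 0), (nat_lit 4), (nat_lit 5)⟩, [⟨(nat_lit 69905), (nat_lit 2)⟩, ⟨(nat_lit 69905), (nat_lit 4)⟩, ⟨(nat_lit 69905), (nat_lit 3)⟩], ⟨(nat_lit 0x39aa40000), [⟨(nb (nat_lit 2) (nat_lit 2432) (nb (nat_lit 0x200000000000000010000000000000001)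 (nat_lit 1280) (nat_lit 0))), (nb (nat_lit 2) (nat_lit 1216) (nb (nat_lit 0x200000000000000020000000000000001) (nat_lit 64) (nat_lit 0))), (nat_lit 13), (nat_lit 72)⟩, ⟨(nb (nat_lit 61) (nat_lit 2432) (nb (nat_lit 0x4f000000000000003a0000000000000034) (nat_lit 1280) (nat_lit 0))), (nb (nat_lit 2) (nat_lit 1216) (nat_lit 0x38000000000000004800000000000000210000000000000030)), (nat_lit 461), (nat_lit 72)⟩, ⟨(nb (nat_lit 61) (nat_lit 2432) (nb (nat_lit 0x2b00000000000000000000000000000022) (nat_lit 1280) (nat_lit 16))), (nb (nat_lit 0x1400000000000000000000000000000052) (nat_lit 1216) (nb (nat_lit 0x3800000000000000080000000000000017) (nat_lit 64) (nat_lit 0))), (nat_lit 343), (nat_lit 72)⟩, ⟨(nb (nat_lit 1) (nat_lit 1216) (nb (nat_lit 1) (nat_lit 192) (nat_lit 0))), (nat_lit 0), (nat_lit 2), (nat_lit 24)⟩], [⟨(nb (nat_lit 1) (nat_lit 1216) (nb (nat_lit 1) (nat_lit 64) (nat_lit 0))), (nat_lit 0), (nat_lit 2), (nat_lit 6)⟩], false⟩, []⟩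
def f176 : Fc := ⟨true, ⟨[[e931, e932, e933, e934, e935], [e936, e937, e938, e939, e940, e941, e942, e943, e944, e945], [e946, e947, e948, e949, e950, e951, e952, e953, e954, e955], [e15, e16, e17, e18, e19]], [e956], [], (nat_lit 31), (nat_lit 0xffffffffff003fffffff), (nat_lit 0), (nat_lit 4), (nat_lit 5)⟩, [⟨(nat_lit 69905), (nat_lit 2)⟩, ⟨(nat_lit 69905), (nat_lit 4)⟩, ⟨(nat_lit 69905), (nat_lit 3)⟩], ⟨(nat_lit 0x39aa40000), [⟨(nb (nat_lit 2) (nat_lit 2432) (nb (nat_lit 0x200000000000000010000000000000001) (nat_lit 1280) (nat_lit 0))), (nb (nat_lit 2) (nat_lit 1216) (nb (nat_lit 0x200000000000000020000000000000001) (nat_lit 64) (nat_lit 0))), (nat_lit 13), (nat_lit 72)⟩, ⟨(nb (nat_lit 61) (nat_lit 2432) (nb (nat_lit 0x4f000000000000003a0000000000000034) (nat_lit 1280) (nat_lit 0))), (nb (nat_lit 2) (nat_lit 1216) (nat_lit 0x38000000000000004800000000000000210000000000000030)), (nat_lit 461), (nat_lit 72)⟩, ⟨(nb (nat_lit 61) (nat_lit 2432) (nb (nat_lit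 0x2b00000000000000000000000000000022) (nat_lit 1280) (nat_lit 16))), (nb (nat_lit 0x1400000000000000000000000000000052) (nat_lit 1216) (nb (nat_lit 0x3800000000000000080000000000000017) (nat_lit 64) (nat_lit 0))), (nat_lit 343), (nat_lit 72)⟩, ⟨(nb (nat_lit 1) (nat_lit 1216) (nb (nat_lit 1) (nat_lit 192) (nat_lit 0))), (nat_lit 0), (nat_lit 2), (nat_lit 24)⟩], [⟨(nb (nat_lit 1) (nat_lit 4864) (nb (nat_lit 0x100000000000000010000000000000002) (nat_lit 3712) (nb (nat_lit 1) (nat_lit 1280) (nb (nat_lit 1) (nat_lit 128) (nat_lit 0))))), (nb (nat_lit 0x100000000000000020000000000000001) (nat_lit 2432) (nb (nat_lit 0x10000000000000001) (nat_lit 1344) (nat_lit 0))), (nat_lit 13), (nat_lit 648)⟩], false⟩, []⟩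
def f177 : Fc := ⟨true, ⟨[[e801, e802, e803, e804, e805], [e806, e807, e808, e809, e810, e811, e812, e813, e814, e815], [e816, e817, e818, e819, e820, e821, e822, e823, e824, e825], [e15, e16, e17, e18, e19]], [e826], [], (nat_lit 31), (nat_lit 0xffffffffff003fffffff), (nat_lit 0), (nat_lit 4), (nat_lit 5)⟩, [⟨(nat_lit 69905), (nat_lit 2)⟩, ⟨(nat_lit 69905), (nat_lit 4)⟩, ⟨(nat_lit 69905), (nat_lit 3)⟩], ⟨(nat_lit 0xdbf983c40000), [⟨(nb (nat_lit 5) (nat_lit 13376) (nat_lit 0x1000000000000000200000000000000030000000000000004)), (nat_lit 0), (nat_lit 15), (nat_lit 40)⟩, ⟨(nb (nat_lit 1) (nat_lit 14592) (nb (nat_lit 1) (nat_lit 13376) (nb (nat_lit 2) (nat_lit 1216) (nat_lit 0)))), (nat_lit 1), (nat_lit 5), (nat_lit 15)⟩, ⟨(nb (nat_lit 5) (nat_lit 14592) (nb (nat_lit 2) (nat_lit 1216) (nat_lit 0))), (nb (nat_lit 5) (nat_lit 13376) (nat_lit 3)), (nat_lit 15), (nat_lit 15)⟩, ⟨(nb (nat_lit 2) (nat_lit 14592) (nat_lit 0)), (nb (nat_lit 3) (nat_lit 13376)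 (nat_lit 1)), (nat_lit 6), (nat_lit 15)⟩], [⟨(nb (nat_lit 11) (nat_lit 14592) (nb (nat_lit 0x900000000000000030000000000000007) (nat_lit 13440) (nb (nat_lit 0x1000000000000000400000000000000020000000000000007) (nat_lit 1216) (nb (nat_lit 0x600000000000000020000000000000001) (nat_lit 64) (nat_lit 0))))), (nb (nat_lit 3) (nat_lit 13376) (nat_lit 2)), (nat_lit 58), (nat_lit 120)⟩, ⟨(nb (nat_lit 1) (nat_lit 29184) (nb (nat_lit 1) (nat_lit 26752) (nb (nat_lit 2) (nat_lit 13376) (nat_lit 1)))), (nb (nat_lit 3) (nat_lit 27968) (nb (nat_lit 3) (nat_lit 14592) (nb (nat_lit 1) (nat_lit 1216) (nat_lit 0)))), (nat_lit 12), (nat_lit 225)⟩], false⟩, []⟩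
def f178 : Fc := ⟨true, ⟨[[e957, e958, e959, e960, e961], [e962, e963, e964, e965, e966, e967, e968, e969, e970, e971], [e972, e973, e974, e975, e976, e977, e978, e979, e980, e981], [e15, e16, e17, e18, e19]], [e982], [], (nat_lit 31), (nat_lit 0xffffffffff003fffffff), (nat_lit 0), (nat_lit 4), (nat_lit 5)⟩, [⟨(nat_lit 69905), (nat_lit 2)⟩, ⟨(nat_lit 69905), (nat_lit 4)⟩, ⟨(nat_lit 69905), (nat_lit 3)⟩], ⟨(nat_lit 0x39aa40000), [⟨(nb (nat_lit 1) (nat_lit 1216) (nat_lit 0)), (nat_lit 0x1000000000000000100000000000000010000000000000001), (nat_lit 5), (nat_lit 24)⟩, ⟨(nb (nat_lit 2) (nat_lit 1216) (nat_lit 0)), (nat_lit 0x10000000000000002), (nat_lit 5), (nat_lit 6)⟩, ⟨(nb (nat_lit 11) (nat_lit 1216) (nb (nat_lit 2) (nat_lit 128) (nat_lit 0))), (nat_lit 0x400000000000000000000000000000007000000000000000a), (nat_lit 34), (nat_lit 24)⟩, ⟨(nb (nat_lit 31) (nat_lit 1216) (nat_lit 0)), (nat_lit 0xc000000000000001200000000000000150000000000000026), (nat_lit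 120), (nat_lit 24)⟩], [⟨(nb (nat_lit 1) (nat_lit 2432) (nb (nat_lit 1) (nat_lit 128) (nat_lit 0))), (nb (nat_lit 0x100000000000000010000000000000001) (nat_lit 1216) (nat_lit 0)), (nat_lit 5), (nat_lit 36)⟩], false⟩, []⟩
def f179 : Fc := ⟨true, ⟨[[e957, e958, e959, e960, e961], [e962, e963, e964, e965, e966, e967, e968, e969, e970, e971], [e972, e973, e974, e975, e976, e977, e978, e979, e980, e981], [e15, e16, e17, e18, e19]], [e982], [], (nat_lit 31), (nat_lit 0xffffffffff003fffffff), (nat_lit 0), (nat_lit 4), (nat_lit 5)⟩, [⟨(nat_lit 69905), (nat_lit 2)⟩, ⟨(nat_lit 69905), (nat_lit 4)⟩, ⟨(nat_lit 69905), (nat_lit 3)⟩], ⟨(nat_lit 0x39aa40000), [⟨(nb (nat_lit 2) (nat_lit 1216) (nat_lit 0)), (nat_lit 0x10000000000000002), (nat_lit 5), (nat_lit 6)⟩, ⟨(nb (nat_lit 11) (nat_lit 1216) (nb (nat_lit 2) (nat_lit 128) (nat_lit 0))), (nat_lit 0x400000000000000000000000000000007000000000000000a), (nat_lit 34), (nat_lit 24)⟩, ⟨(nb (nat_lit 31) (nat_lit 1216) (nat_lit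 0)), (nat_lit 0xc000000000000001200000000000000150000000000000026), (nat_lit 120), (nat_lit 24)⟩], [⟨(nb (nat_lit 1) (nat_lit 2432) (nb (nat_lit 1) (nat_lit 128) (nat_lit 0))), (nb (nat_lit 0x100000000000000010000000000000001) (nat_lit 1216) (nat_lit 0)), (nat_lit 5), (nat_lit 36)⟩], false⟩, []⟩
def f180 : Fc := ⟨true, ⟨[[e801, e802, e803, e804, e805], [e806, e807, e808, e809, e810, e811, e812, e813, e814, e815], [e816, e817, e818, e819, e820, e821, e822, e823, e824, e825], [e15, e16, e17, e18, e19]], [e826], [], (nat_lit 31), (nat_lit 0xffffffffff003fffffff), (nat_lit 0), (nat_lit 4), (nat_lit 5)⟩, [⟨(nat_lit 69905), (nat_lit 2)⟩, ⟨(nat_lit 69905), (nat_lit 4)⟩, ⟨(nat_lit 69905), (nat_lit 3)⟩], ⟨(nat_lit 0xdbf983c40000), [⟨(nb (nat_lit 1) (nat_lit 14592) (nb (nat_lit 1) (nat_lit 13376) (nb (nat_lit 2) (nat_lit 1216) (nat_lit 0)))), (nat_lit 1), (nat_lit 5), (nat_lit 15)⟩, ⟨(nb (nat_lit 5) (nat_lit 14592) (nb (nat_lit 2) (nat_lit 1216) (nat_lit 0))),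 (nb (nat_lit 5) (nat_lit 13376) (nat_lit 3)), (nat_lit 15), (nat_lit 15)⟩, ⟨(nb (nat_lit 2) (nat_lit 14592) (nat_lit 0)), (nb (nat_lit 3) (nat_lit 13376) (nat_lit 1)), (nat_lit 6), (nat_lit 15)⟩], [⟨(nb (nat_lit 5) (nat_lit 13376) (nat_lit 0x1000000000000000200000000000000030000000000000004)), (nat_lit 0), (nat_lit 15), (nat_lit 40)⟩, ⟨(nb (nat_lit 1) (nat_lit 29184) (nb (nat_lit 1) (nat_lit 26752) (nb (nat_lit 2) (nat_lit 13376) (nat_lit 1)))), (nb (nat_lit 3) (nat_lit 27968) (nb (nat_lit 3) (nat_lit 14592) (nb (nat_lit 1) (nat_lit 1216) (nat_lit 0)))), (nat_lit 12), (nat_lit 225)⟩], false⟩, []⟩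
def f181 : Fc := ⟨true, ⟨[[e983, e984, e985, e986, e987], [e988, e989, e990, e991, e992, e993, e994, e995, e996, e997], [e998, e999, e1000, e1001, e1002, e1003, e1004, e1005, e1006, e1007], [e15, e16, e17, e18, e19]], [e1008], [], (nat_lit 31), (nat_lit 0xffffffffff003fffffff), (nat_lit 0), (nat_lit 4), (nat_lit 5)⟩, [⟨(nat_lit 69905), (nat_lit 1)⟩, ⟨(nat_lit 69905), (nat_lit 4)⟩, ⟨(nat_lit 69905), (nat_lit 3)⟩, ⟨(nat_lit 69905), (nat_lit 2)⟩], ⟨(nat_lit 262144), [], [], false⟩, []⟩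
def f182 : Fc := ⟨true, ⟨[[e1009, e1010, e1011, e1012, e1013], [e1014, e1015, e1016, e1017, e1018, e1019, e1020, e1021, e1022, e1023], [e1024, e1025, e1026, e1027, e1028, e1029, e1030, e1031, e1032, e1033], [e15, e16, e17, e18, e19]], [e1034], [], (nat_lit 31), (nat_lit 0xffffffffff003fffffff), (nat_lit 0), (nat_lit 4), (nat_lit 5)⟩, [⟨(nat_lit 69905), (nat_lit 1)⟩, ⟨(nat_lit 69905), (nat_lit 4)⟩, ⟨(nat_lit 69905), (nat_lit 3)⟩, ⟨(nat_lit 69905), (nat_lit 2)⟩], ⟨(nat_lit 0x39aa40000), [⟨(nb (nat_lit 1) (nat_lit 1216) (nb (nat_lit 1) (nat_lit 192) (nat_lit 0))), (nat_lit 0), (nat_lit 2), (nat_lit 24)⟩, ⟨(nb (nat_lit 2) (nat_lit 2432) (nat_lit 0x1000000000000000200000000000000000000000000000002)), (nb (nat_lit 0x1000000000000000200000000000000010000000000000004) (nat_lit 1216) (nat_lit 0)), (nat_lit 15), (nat_lit 72)⟩, ⟨(nb (nat_lit 61) (nat_lit 2432) (nat_lit 0x17000000000000003800000000000000000000000000000008)), (nb (nat_lit 0x1b000000000000004f00000000000000150000000000000051)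 (nat_lit 1216) (nb (nat_lit 16) (nat_lit 64) (nat_lit 0))), (nat_lit 372), (nat_lit 72)⟩, ⟨(nb (nat_lit 61) (nat_lit 2432) (nat_lit 0x21000000000000003800000000000000300000000000000048)), (nb (nat_lit 0x9000000000000002b000000000000003f000000000000007d) (nat_lit 1216) (nat_lit 0)), (nat_lit 510), (nat_lit 72)⟩, ⟨(nb (nat_lit 1) (nat_lit 1216) (nat_lit 0)), (nat_lit 0x1000000000000000100000000000000010000000000000001), (nat_lit 5), (nat_lit 24)⟩], [⟨(nb (nat_lit 1) (nat_lit 3648) (nb (nat_lit 0x200000000000000000000000000000001) (nat_lit 2496) (nb (nat_lit 1) (nat_lit 128) (nat_lit 0)))), (nb (nat_lit 0x2000000000000000200000000000000010000000000000002) (nat_lit 1216) (nat_lit 0)), (nat_lit 12), (nat_lit 216)⟩], false⟩, []⟩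
def f183 : Fc := ⟨true, ⟨[[e1035, e1036, e1037, e1038, e1039], [e1040, e1041, e1042, e1043, e1044, e1045, e1046, e1047, e1048, e1049], [e1050, e1051, e1052, e1053, e1054, e1055, e1056, e1057, e1058, e1059], [e15, e16, e17, e18, e19]], [e1060], [], (nat_lit 31), (nat_lit 0xffffffffff003fffffff), (nat_lit 0), (nat_lit 4), (nat_lit 5)⟩, [⟨(nat_lit 69905), (nat_lit 1)⟩, ⟨(nat_lit 69905), (nat_lit 4)⟩, ⟨(nat_lit 69905), (nat_lit 3)⟩, ⟨(nat_lit 69905), (nat_lit 2)⟩], ⟨(nat_lit 262144), [], [], false⟩, []⟩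
def f184 : Fc := ⟨true, ⟨[[e1009, e1010, e1011, e1012, e1013], [e1014, e1015, e1016, e1017, e1018, e1019, e1020, e1021, e1022, e1023], [e1024, e1025, e1026, e1027, e1028, e1029, e1030, e1031, e1032, e1033], [e15, e16, e17, e18, e19]], [e1034], [], (nat_lit 31), (nat_lit 0xffffffffff003fffffff), (nat_lit 0), (nat_lit 4), (nat_lit 5)⟩, [⟨(nat_lit 69905), (nat_lit 1)⟩, ⟨(nat_lit 69905), (nat_lit 4)⟩, ⟨(nat_lit 69905), (nat_lit 3)⟩, ⟨(nat_lit 69905), (nat_lit 2)⟩], ⟨(nat_lit 0x39aa40000), [⟨(nb (nat_lit 2) (nat_lit 2432) (nat_lit 0x1000000000000000200000000000000000000000000000002)), (nb (nat_lit 0x1000000000000000200000000000000010000000000000004) (nat_lit 1216) (nat_lit 0)), (nat_lit 15), (nat_lit 72)⟩, ⟨(nb (nat_lit 61) (nat_lit 2432) (nat_lit 0x17000000000000003800000000000000000000000000000008)), (nb (nat_lit 0x1b000000000000004f00000000000000150000000000000051) (nat_lit 1216) (nb (nat_lit 16) (nat_lit 64) (nat_lit 0))), (nat_lit 372), (nat_lit 72)⟩,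 ⟨(nb (nat_lit 61) (nat_lit 2432) (nat_lit 0x21000000000000003800000000000000300000000000000048)), (nb (nat_lit 0x9000000000000002b000000000000003f000000000000007d) (nat_lit 1216) (nat_lit 0)), (nat_lit 510), (nat_lit 72)⟩, ⟨(nb (nat_lit 1) (nat_lit 1216) (nat_lit 0)), (nat_lit 0x1000000000000000100000000000000010000000000000001), (nat_lit 5), (nat_lit 24)⟩], [⟨(nb (nat_lit 1) (nat_lit 4864) (nb (nat_lit 1) (nat_lit 3840) (nb (nat_lit 0x2000000000000000100000000000000000000000000000001) (nat_lit 1216) (nb (nat_lit 1) (nat_lit 64) (nat_lit 0))))), (nb (nat_lit 0x100000000000000000000000000000001) (nat_lit 3648) (nb (nat_lit 0x2000000000000000000000000000000010000000000000001) (nat_lit 2432) (nat_lit 0))), (nat_lit 13), (nat_lit 648)⟩], false⟩, []⟩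
def f185 : Fc := ⟨true, ⟨[[e801, e802, e803, e804, e805], [e806, e807, e808, e809, e810, e811, e812, e813, e814, e815], [e816, e817, e818, e819, e820, e821, e822, e823, e824, e825], [e15, e16, e17, e18, e19]], [e826], [], (nat_lit 31), (nat_lit 0xffffffffff003fffffff), (nat_lit 0), (nat_lit 4), (nat_lit 5)⟩, [⟨(nat_lit 69905), (nat_lit 1)⟩, ⟨(nat_lit 69905), (nat_lit 4)⟩, ⟨(nat_lit 69905), (nat_lit 3)⟩, ⟨(nat_lit 69905), (nat_lit 2)⟩], ⟨(nat_lit 0xdbf983c40000), [⟨(nb (nat_lit 5) (nat_lit 13376) (nat_lit 0x2000000000000000000000000000000010000000000000003)), (nat_lit 0x100000000000000000000000000000000), (nat_lit 12), (nat_lit 40)⟩, ⟨(nb (nat_lit 1) (nat_lit 14592) (nb (nat_lit 1) (nat_lit 13376) (nb (nat_lit 2) (nat_lit 1216) (nat_lit 0)))), (nat_lit 1), (nat_lit 5), (nat_lit 15)⟩, ⟨(nb (nat_lit 5) (nat_lit 14592) (nb (nat_lit 2) (nat_lit 1216) (nat_lit 0))), (nb (nat_lit 5) (nat_lit 13376) (nat_lit 3)), (nat_lit 15), (nat_lit 15)⟩, ⟨(nb (nat_lit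 2) (nat_lit 14592) (nat_lit 0)), (nb (nat_lit 3) (nat_lit 13376) (nat_lit 1)), (nat_lit 6), (nat_lit 15)⟩], [⟨(nb (nat_lit 11) (nat_lit 14592) (nb (nat_lit 0x1000000000000000000000000000000030000000000000006) (nat_lit 1216) (nat_lit 0))), (nb (nat_lit 0x200000000000000090000000000000006000000000000000c) (nat_lit 13376) (nb (nat_lit 1) (nat_lit 1344) (nat_lit 0x5000000000000000600000000000000040000000000000008))), (nat_lit 74), (nat_lit 120)⟩, ⟨(nb (nat_lit 1) (nat_lit 29184) (nb (nat_lit 1) (nat_lit 26752) (nb (nat_lit 2) (nat_lit 13376) (nat_lit 1)))), (nb (nat_lit 3) (nat_lit 27968) (nb (nat_lit 3) (nat_lit 14592) (nb (nat_lit 1) (nat_lit 1216) (nat_lit 0)))), (nat_lit 12), (nat_lit 225)⟩], false⟩, []⟩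
def f186 : Fc := ⟨true, ⟨[[e1061, e1062, e1063, e1064, e1065], [e1066, e1067, e1068, e1069, e1070, e1071, e1072, e1073, e1074, e1075], [e1076, e1077, e1078, e1079, e1080, e1081, e1082, e1083, e1084, e1085], [e15, e16, e17, e18, e19]], [e1086], [], (nat_lit 31), (nat_lit 0xffffffffff003fffffff), (nat_lit 0), (nat_lit 4), (nat_lit 5)⟩, [⟨(nat_lit 69905), (nat_lit 1)⟩, ⟨(nat_lit 69905), (nat_lit 4)⟩, ⟨(nat_lit 69905), (nat_lit 3)⟩, ⟨(nat_lit 69905), (nat_lit 2)⟩], ⟨(nat_lit 262144), [], [], false⟩, []⟩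
def f187 : Fc := ⟨true, ⟨[[e1087, e1088, e1089, e1090, e1091], [e1092, e1093, e1094, e1095, e1096, e1097, e1098, e1099, e1100, e1101], [e1102, e1103, e1104, e1105, e1106, e1107, e1108, e1109, e1110, e1111], [e15, e16, e17, e18, e19]], [e1112], [], (nat_lit 31), (nat_lit 0xffffffffff003fffffff), (nat_lit 0), (nat_lit 4), (nat_lit 5)⟩, [⟨(nat_lit 69905), (nat_lit 1)⟩, ⟨(nat_lit 69905), (nat_lit 4)⟩, ⟨(nat_lit 69905), (nat_lit 3)⟩, ⟨(nat_lit 69905), (nat_lit 2)⟩], ⟨(nat_lit 0x39aa40000), [⟨(nb (nat_lit 2) (nat_lit 1216) (nat_lit 0)), (nat_lit 0x1000000000000000000000000000000000000000000000002), (nat_lit 5), (nat_lit 24)⟩, ⟨(nb (nat_lit 11) (nat_lit 1216) (nb (nat_lit 0x40000000000000006) (nat_lit 64) (nat_lit 0))), (nat_lit 0x3000000000000000000000000000000000000000000000006), (nat_lit 30), (nat_lit 24)⟩, ⟨(nb (nat_lit 31) (nat_lit 1216) (nb (nat_lit 12) (nat_lit 128) (nat_lit 0))), (nat_lit 0x900000000000000000000000000000006000000000000001a), (nat_lit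 84), (nat_lit 24)⟩], [⟨(nb (nat_lit 1) (nat_lit 1216) (nb (nat_lit 1) (nat_lit 128) (nat_lit 0))), (nat_lit 0), (nat_lit 2), (nat_lit 12)⟩, ⟨(nb (nat_lit 1) (nat_lit 2432) (nb (nat_lit 1) (nat_lit 64) (nat_lit 0))), (nb (nat_lit 0x1000000000000000000000000000000010000000000000001) (nat_lit 1216) (nat_lit 0)), (nat_lit 5), (nat_lit 72)⟩], false⟩, []⟩
def f188 : Fc := ⟨true, ⟨[[e1087, e1088, e1089, e1090, e1091], [e1092, e1093, e1094, e1095, e1096, e1097, e1098, e1099, e1100, e1101], [e1102, e1103, e1104, e1105, e1106, e1107, e1108, e1109, e1110, e1111], [e15, e16, e17, e18, e19]], [e1112], [], (nat_lit 31), (nat_lit 0xffffffffff003fffffff), (nat_lit 0), (nat_lit 4), (nat_lit 5)⟩, [⟨(nat_lit 69905), (nat_lit 1)⟩, ⟨(nat_lit 69905), (nat_lit 4)⟩, ⟨(nat_lit 69905), (nat_lit 3)⟩, ⟨(nat_lit 69905), (nat_lit 2)⟩], ⟨(nat_lit 0x39aa40000), [⟨(nb (nat_lit 2) (nat_lit 1216) (nat_lit 0)), (nat_lit 0x1000000000000000000000000000000000000000000000002), (nat_lit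 5), (nat_lit 24)⟩, ⟨(nb (nat_lit 11) (nat_lit 1216) (nb (nat_lit 0x40000000000000006) (nat_lit 64) (nat_lit 0))), (nat_lit 0x3000000000000000000000000000000000000000000000006), (nat_lit 30), (nat_lit 24)⟩, ⟨(nb (nat_lit 31) (nat_lit 1216) (nb (nat_lit 12) (nat_lit 128) (nat_lit 0))), (nat_lit 0x900000000000000000000000000000006000000000000001a), (nat_lit 84), (nat_lit 24)⟩], [⟨(nb (nat_lit 1) (nat_lit 2432) (nb (nat_lit 1) (nat_lit 64) (nat_lit 0))), (nb (nat_lit 0x1000000000000000000000000000000010000000000000001) (nat_lit 1216) (nat_lit 0)), (nat_lit 5), (nat_lit 72)⟩], false⟩, []⟩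
def f189 : Fc := ⟨true, ⟨[[e801, e802, e803, e804, e805], [e806, e807, e808, e809, e810, e811, e812, e813, e814, e815], [e816, e817, e818, e819, e820, e821, e822, e823, e824, e825], [e15, e16, e17, e18, e19]], [e826], [], (nat_lit 31), (nat_lit 0xffffffffff003fffffff), (nat_lit 0), (nat_lit 4), (nat_lit 5)⟩, [⟨(nat_lit 69905), (nat_lit 1)⟩, ⟨(nat_lit 69905), (nat_lit 4)⟩, ⟨(nat_lit 69905), (nat_lit 3)⟩, ⟨(nat_lit 69905), (nat_lit 2)⟩], ⟨(nat_lit 0xdbf983c40000), [⟨(nb (nat_lit 1) (nat_lit 14592) (nb (nat_lit 1) (nat_lit 13376) (nb (nat_lit 2) (nat_lit 1216) (nat_lit 0)))), (nat_lit 1), (nat_lit 5), (nat_lit 15)⟩, ⟨(nb (nat_lit 5) (nat_lit 14592) (nb (nat_lit 2) (nat_lit 1216) (nat_lit 0))), (nb (nat_lit 5) (nat_lit 13376) (nat_lit 3)), (nat_lit 15), (nat_lit 15)⟩, ⟨(nb (nat_lit 2) (nat_lit 14592) (nat_lit 0)), (nb (nat_lit 3) (nat_lit 13376) (nat_lit 1)), (nat_lit 6), (nat_lit 15)⟩], [⟨(nb (nat_lit 5) (nat_lit 13376) (nat_lit 0x2000000000000000000000000000000010000000000000003)),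 (nat_lit 0x100000000000000000000000000000000), (nat_lit 12), (nat_lit 40)⟩, ⟨(nb (nat_lit 1) (nat_lit 29184) (nb (nat_lit 1) (nat_lit 26752) (nb (nat_lit 2) (nat_lit 13376) (nat_lit 1)))), (nb (nat_lit 3) (nat_lit 27968) (nb (nat_lit 3) (nat_lit 14592) (nb (nat_lit 1) (nat_lit 1216) (nat_lit 0)))), (nat_lit 12), (nat_lit 225)⟩], false⟩, []⟩
def f190 : Fc := ⟨true, ⟨[[e801, e802, e803, e804, e805], [e806, e807, e808, e809, e810, e811, e812, e813, e814, e815], [e816, e817, e818, e819, e820, e821, e822, e823, e824, e825], [e15, e16, e17, e18, e19]], [], [], (nat_lit 30), (nat_lit 0x3fffffff003fffffff), (nat_lit 0), (nat_lit 5), (nat_lit 5)⟩, [⟨(nat_lit 69905), (nat_lit 0)⟩, ⟨(nat_lit 8465), (nat_lit 0)⟩, ⟨(nat_lit 4625), (nat_lit 0)⟩, ⟨(nat_lit 4385), (nat_lit 0)⟩, ⟨(nat_lit 4370), (nat_lit 0)⟩, ⟨(nat_lit 69905), (nat_lit 4)⟩, ⟨(nat_lit 69905), (nat_lit 3)⟩, ⟨(nat_lit 69905), (nat_lit 2)⟩, ⟨(nat_lit 69905), (nat_lit 1)⟩], ⟨(nat_lit 0xdbf983c40000), [⟨(nb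 (nat_lit 1) (nat_lit 14592) (nb (nat_lit 1) (nat_lit 13376) (nb (nat_lit 2) (nat_lit 1216) (nat_lit 0)))), (nat_lit 1), (nat_lit 5), (nat_lit 15)⟩, ⟨(nb (nat_lit 5) (nat_lit 14592) (nb (nat_lit 2) (nat_lit 1216) (nat_lit 0))), (nb (nat_lit 5) (nat_lit 13376) (nat_lit 3)), (nat_lit 15), (nat_lit 15)⟩, ⟨(nb (nat_lit 2) (nat_lit 14592) (nat_lit 0)), (nb (nat_lit 3) (nat_lit 13376) (nat_lit 1)), (nat_lit 6), (nat_lit 15)⟩], [], false⟩, []⟩
def f191 : Fc := ⟨true, ⟨[[e329, e330, e331, e332, e333], [e252, e253, e254, e255, e256, e272, e273, e274, e275, e276], [e10, e11, e12, e13, e14, e75, e76, e77, e78, e79], [e15, e16, e17, e18, e19]], [], [], (nat_lit 30), (nat_lit 0x3fffffff003fffffff), (nat_lit 0), (nat_lit 5), (nat_lit 5)⟩, [⟨(nat_lit 69905), (nat_lit 0)⟩, ⟨(nat_lit 8465), (nat_lit 0)⟩, ⟨(nat_lit 4625), (nat_lit 0)⟩, ⟨(nat_lit 4385), (nat_lit 0)⟩, ⟨(nat_lit 4370), (nat_lit 0)⟩, ⟨(nat_lit 69905), (nat_lit 4)⟩, ⟨(nat_lit 69905), (nat_lit 3)⟩, ⟨(nat_lit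 69905), (nat_lit 2)⟩, ⟨(nat_lit 69905), (nat_lit 1)⟩], ⟨(nat_lit 0x126bb4f8b9c0000), [⟨(nb (nat_lit 2) (nat_lit 107008) (nat_lit 0)), (nb (nat_lit 3) (nat_lit 13376) (nat_lit 1)), (nat_lit 6), (nat_lit 35)⟩, ⟨(nb (nat_lit 1) (nat_lit 1216) (nat_lit 0)), (nat_lit 2), (nat_lit 3), (nat_lit 3)⟩, ⟨(nb (nat_lit 1) (nat_lit 1216) (nat_lit 0)), (nat_lit 0), (nat_lit 1), (nat_lit 3)⟩], [⟨(nb (nat_lit 2) (nat_lit 108224) (nb (nat_lit 5) (nat_lit 13376) (nat_lit 3))), (nb (nat_lit 5) (nat_lit 107008) (nb (nat_lit 2) (nat_lit 93632) (nb (nat_lit 3) (nat_lit 14592) (nb (nat_lit 1) (nat_lit 1216) (nat_lit 0))))), (nat_lit 21), (nat_lit 105)⟩], false⟩, []⟩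
def f192 : Fc := ⟨true, ⟨[[e1113, e1114, e1115, e1116, e1117], [e1118, e1119, e1120, e1121, e1122, e1123, e1124, e1125, e1126, e1127], [e1128, e1129, e1130, e1131, e1132, e1133, e1134, e1135, e1136, e1137], [e15, e16, e17, e18, e19]], [], [], (nat_lit 30), (nat_lit 0x3fffffff003fffffff), (nat_lit 0), (nat_lit 5), (nat_lit 5)⟩, [⟨(nat_lit 69905), (nat_lit 0)⟩, ⟨(nat_lit 8465), (nat_lit 0)⟩, ⟨(nat_lit 4625), (nat_lit 0)⟩, ⟨(nat_lit 4385), (nat_lit 0)⟩, ⟨(nat_lit 4370), (nat_lit 0)⟩, ⟨(nat_lit 69905), (nat_lit 4)⟩, ⟨(nat_lit 69905), (nat_lit 3)⟩, ⟨(nat_lit 69905), (nat_lit 2)⟩, ⟨(nat_lit 69905), (nat_lit 1)⟩], ⟨(nat_lit 0xdbf983c40000), [⟨(nb (nat_lit 1) (nat_lit 1216) (nat_lit 0)), (nat_lit 0), (nat_lit 1), (nat_lit 3)⟩, ⟨(nb (nat_lit 1) (nat_lit 1216) (nat_lit 0)), (nat_lit 2), (nat_lit 3), (nat_lit 3)⟩], [⟨(nb (nat_lit 5) (nat_lit 26752) (nb (nat_lit 5) (nat_lit 13376) (nat_lit 2))), (nat_lit 0), (nat_lit 12), (nat_lit 25)⟩], false⟩, []⟩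
def f193 : Fc := ⟨true, ⟨[[e329, e330, e331, e332, e333], [e252, e253, e254, e255, e256, e272, e273, e274, e275, e276], [e10, e11, e12, e13, e14, e75, e76, e77, e78, e79], [e15, e16, e17, e18, e19]], [], [], (nat_lit 30), (nat_lit 0x3fffffff003fffffff), (nat_lit 0), (nat_lit 5), (nat_lit 5)⟩, [], ⟨(nat_lit 0x126bb4f8b9c0000), [⟨(nb (nat_lit 1) (nat_lit 1216) (nat_lit 0)), (nat_lit 2), (nat_lit 3), (nat_lit 3)⟩, ⟨(nb (nat_lit 1) (nat_lit 1216) (nat_lit 0)), (nat_lit 0), (nat_lit 1), (nat_lit 3)⟩], [], true⟩, [⟨[(nat_lit 1), (nat_lit 16), (nat_lit 17), (nat_lit 256), (nat_lit 257), (nat_lit 272), (nat_lit 273), (nat_lit 4096), (nat_lit 4097), (nat_lit 4112), (nat_lit 4113), (nat_lit 4352), (nat_lit 4353), (nat_lit 4368), (nat_lit 4369), (nat_lit 4370), (nat_lit 65536), (nat_lit 65537), (nat_lit 65552), (nat_lit 65553), (nat_lit 65792), (nat_lit 65793), (nat_lit 65808), (nat_lit 65809), (nat_lit 69632), (nat_lit 69633), (nat_lit 69648), (nat_lit 69649),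 (nat_lit 69888), (nat_lit 69889), (nat_lit 69904), (nat_lit 69920), (nat_lit 70145), (nat_lit 73745), (nat_lit 131345)], [(nat_lit 1), (nb (nat_lit 1) (nat_lit 3648) (nb (nat_lit 2) (nat_lit 2432) (nb (nat_lit 3) (nat_lit 1216) (nat_lit 1)))), (nat_lit 0)], (nat_lit 1), (nat_lit 0)⟩, ⟨[(nat_lit 1), (nat_lit 16), (nat_lit 17), (nat_lit 256), (nat_lit 257), (nat_lit 272), (nat_lit 273), (nat_lit 4096), (nat_lit 4097), (nat_lit 4112), (nat_lit 4113), (nat_lit 4352), (nat_lit 4353), (nat_lit 4368), (nat_lit 4369), (nat_lit 4385), (nat_lit 65536), (nat_lit 65537), (nat_lit 65552), (nat_lit 65553), (nat_lit 65792), (nat_lit 65793), (nat_lit 65808), (nat_lit 65809), (nat_lit 65810), (nat_lit 69632), (nat_lit 69633), (nat_lit 69648), (nat_lit 69649), (nat_lit 69888), (nat_lit 69889), (nat_lit 69904), (nat_lit 70160), (nat_lit 73985), (nat_lit 135185)], [(nat_lit 1), (nb (nat_lit 1) (nat_lit 3648) (nb (nat_lit 5) (nat_lit 2432) (nb (nat_lit 4) (nat_lit 1216)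 (nat_lit 1)))), (nat_lit 0)], (nat_lit 1), (nat_lit 0)⟩, ⟨[(nat_lit 1), (nat_lit 16), (nat_lit 17), (nat_lit 256), (nat_lit 257), (nat_lit 272), (nat_lit 273), (nat_lit 4096), (nat_lit 4097), (nat_lit 4112), (nat_lit 4113), (nat_lit 4352), (nat_lit 4353), (nat_lit 4368), (nat_lit 4369), (nat_lit 4625), (nat_lit 65536), (nat_lit 65537), (nat_lit 65552), (nat_lit 65553), (nat_lit 65792), (nat_lit 65793), (nat_lit 65808), (nat_lit 65809), (nat_lit 65825), (nat_lit 69632), (nat_lit 69633), (nat_lit 69648), (nat_lit 69649), (nat_lit 69650), (nat_lit 69888), (nat_lit 69889), (nat_lit 69904), (nat_lit 74000), (nat_lit 135425)], [(nat_lit 1), (nb (nat_lit 1) (nat_lit 3648) (nat_lit 0)), (nb (nat_lit 2) (nat_lit 2432) (nb (nat_lit 3) (nat_lit 1216) (nat_lit 1)))], (nat_lit 1), (nat_lit 0)⟩, ⟨[(nat_lit 1), (nat_lit 16), (nat_lit 17), (nat_lit 256), (nat_lit 257), (nat_lit 272), (nat_lit 273), (nat_lit 4096), (nat_lit 4097), (nat_lit 4112), (nat_lit 4113), (nat_lit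 4352), (nat_lit 4353), (nat_lit 4368), (nat_lit 4369), (nat_lit 8465), (nat_lit 65536), (nat_lit 65537), (nat_lit 65552), (nat_lit 65553), (nat_lit 65792), (nat_lit 65793), (nat_lit 65808), (nat_lit 65809), (nat_lit 66065), (nat_lit 69632), (nat_lit 69633), (nat_lit 69648), (nat_lit 69649), (nat_lit 69665), (nat_lit 69888), (nat_lit 69889), (nat_lit 69890), (nat_lit 69904), (nat_lit 135440)], [(nat_lit 1), (nb (nat_lit 1) (nat_lit 3648) (nb (nat_lit 1) (nat_lit 2432) (nb (nat_lit 2) (nat_lit 1216) (nat_lit 1)))), (nat_lit 0)], (nat_lit 1), (nat_lit 0)⟩]⟩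
def f194 : Fc := ⟨true, ⟨[[e1138, e1139, e1140, e1141, e1142], [e1143, e1144, e1145, e1146, e1147, e170, e171, e172, e173, e174], [e10, e11, e12, e13, e14, e75, e76, e77, e78, e79], [e15, e16, e17, e18, e19]], [], [], (nat_lit 30), (nat_lit 0x3fffffff003fffffff), (nat_lit 0), (nat_lit 5), (nat_lit 5)⟩, [⟨(nat_lit 69905), (nat_lit 3)⟩, ⟨(nat_lit 8465), (nat_lit 0)⟩, ⟨(nat_lit 4385), (nat_lit 0)⟩, ⟨(nat_lit 69905), (nat_lit 4)⟩], ⟨(nat_lit 0x39aa40000), [⟨(nb (nat_lit 1) (nat_lit 1216) (nat_lit 0)), (nat_lit 1), (nat_lit 2), (nat_lit 3)⟩], [], false⟩, []⟩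
def f195 : Fc := ⟨true, ⟨[[e1138, e1139, e1140, e1141, e1142], [e1143, e1144, e1145, e1146, e1147, e170, e171, e172, e173, e174], [e10, e11, e12, e13, e14, e75, e76, e77, e78, e79], [e15, e16, e17, e18, e19]], [], [], (nat_lit 30), (nat_lit 0x3fffffff003fffffff), (nat_lit 0), (nat_lit 5), (nat_lit 5)⟩, [⟨(nat_lit 69905), (nat_lit 2)⟩, ⟨(nat_lit 8465), (nat_lit 0)⟩, ⟨(nat_lit 4385), (nat_lit 0)⟩, ⟨(nat_lit 69905), (nat_lit 4)⟩, ⟨(nat_lit 69905), (nat_lit 3)⟩], ⟨(nat_lit 0x39aa40000), [⟨(nb (nat_lit 1) (nat_lit 1216) (nat_lit 0)), (nat_lit 1), (nat_lit 2), (nat_lit 3)⟩], [], false⟩, []⟩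
def f196 : Fc := ⟨true, ⟨[[e1138, e1139, e1140, e1141, e1142], [e1143, e1144, e1145, e1146, e1147, e170, e171, e172, e173, e174], [e10, e11, e12, e13, e14, e75, e76, e77, e78, e79], [e15, e16, e17, e18, e19]], [], [], (nat_lit 30), (nat_lit 0x3fffffff003fffffff), (nat_lit 0), (nat_lit 5), (nat_lit 5)⟩, [⟨(nat_lit 69905), (nat_lit 1)⟩, ⟨(nat_lit 8465), (nat_lit 0)⟩, ⟨(nat_lit 4385), (nat_lit 0)⟩, ⟨(nat_lit 69905), (nat_lit 4)⟩, ⟨(nat_lit 69905), (nat_lit 3)⟩, ⟨(nat_lit 69905), (nat_lit 2)⟩], ⟨(nat_lit 0x39aa40000), [⟨(nb (nat_lit 1) (nat_lit 1216) (nat_lit 0)), (nat_lit 1), (nat_lit 2), (nat_lit 3)⟩], [], false⟩, []⟩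
def f197 : Fc := ⟨true, ⟨[[e1148, e1149, e1150, e1151, e1152], [e1143, e1144, e1145, e1146, e1147, e170, e171, e172, e173, e174], [e10, e11, e12, e13, e14, e75, e76, e77, e78, e79], [e15, e16, e17, e18, e19]], [], [], (nat_lit 30), (nat_lit 0x3fffffff003fffffff), (nat_lit 0), (nat_lit 5), (nat_lit 5)⟩, [⟨(nat_lit 4625), (nat_lit 0)⟩, ⟨(nat_lit 8465), (nat_lit 0)⟩], ⟨(nat_lit 0xdbf983c40000), [⟨(nb (nat_lit 1) (nat_lit 1216) (nat_lit 0)), (nat_lit 1), (nat_lit 2), (nat_lit 3)⟩], [], false⟩, []⟩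
def f198 : Fc := ⟨true, ⟨[[e1148, e1149, e1150, e1151, e1152], [e1143, e1144, e1145, e1146, e1147, e170, e171, e172, e173, e174], [e10, e11, e12, e13, e14, e75, e76, e77, e78, e79], [e15, e16, e17, e18, e19]], [], [], (nat_lit 30), (nat_lit 0x3fffffff003fffffff), (nat_lit 0), (nat_lit 5), (nat_lit 5)⟩, [⟨(nat_lit 4385), (nat_lit 0)⟩, ⟨(nat_lit 8465), (nat_lit 0)⟩, ⟨(nat_lit 4625), (nat_lit 0)⟩], ⟨(nat_lit 0xdbf983c40000), [⟨(nb (nat_lit 1) (nat_lit 1216) (nat_lit 0)), (nat_lit 1), (nat_lit 2), (nat_lit 3)⟩], [], false⟩, []⟩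
def f199 : Fc := ⟨true, ⟨[[e1148, e1149, e1150, e1151, e1152], [e1143, e1144, e1145, e1146, e1147, e170, e171, e172, e173, e174], [e10, e11, e12, e13, e14, e75, e76, e77, e78, e79], [e15, e16, e17, e18, e19]], [], [], (nat_lit 30), (nat_lit 0x3fffffff003fffffff), (nat_lit 0), (nat_lit 5), (nat_lit 5)⟩, [⟨(nat_lit 69905), (nat_lit 4)⟩, ⟨(nat_lit 8465), (nat_lit 0)⟩, ⟨(nat_lit 4625), (nat_lit 0)⟩, ⟨(nat_lit 4385), (nat_lit 0)⟩, ⟨(nat_lit 4370), (nat_lit 0)⟩], ⟨(nat_lit 0xdbf983c40000), [⟨(nb (nat_lit 1) (nat_lit 1216) (nat_lit 0)), (nat_lit 1), (nat_lit 2), (nat_lit 3)⟩], [⟨(nb (nat_lit 5) (nat_lit 1216) (nat_lit 0x100000000000000000000000000000002)), (nat_lit 0x2000000000000000000000000000000010000000000000000), (nat_lit 11), (nat_lit 24)⟩], false⟩, []⟩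
def f200 : Fc := ⟨true, ⟨[[e1148, e1149, e1150, e1151, e1152], [e1143, e1144, e1145, e1146, e1147, e170, e171, e172, e173, e174], [e10, e11, e12, e13, e14, e75, e76, e77, e78, e79], [e15, e16, e17, e18, e19]], [], [], (nat_lit 30), (nat_lit 0x3fffffff003fffffff), (nat_lit 0), (nat_lit 5), (nat_lit 5)⟩, [⟨(nat_lit 69905), (nat_lit 4)⟩, ⟨(nat_lit 8465), (nat_lit 0)⟩, ⟨(nat_lit 4625), (nat_lit 0)⟩, ⟨(nat_lit 4385), (nat_lit 0)⟩, ⟨(nat_lit 4370), (nat_lit 0)⟩], ⟨(nat_lit 0xdbf983c40000), [⟨(nb (nat_lit 1) (nat_lit 1216) (nat_lit 0)), (nat_lit 1), (nat_lit 2), (nat_lit 3)⟩], [], false⟩, []⟩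
def f201 : Fc := ⟨true, ⟨[[e1148, e1149, e1150, e1151, e1152], [e1143, e1144, e1145, e1146, e1147, e170, e171, e172, e173, e174], [e10, e11, e12, e13, e14, e75, e76, e77, e78, e79], [e15, e16, e17, e18, e19]], [], [], (nat_lit 30), (nat_lit 0x3fffffff003fffffff), (nat_lit 0), (nat_lit 5), (nat_lit 5)⟩, [⟨(nat_lit 69905), (nat_lit 3)⟩, ⟨(nat_lit 8465), (nat_lit 0)⟩, ⟨(nat_lit 4625), (nat_lit 0)⟩, ⟨(nat_lit 4385), (nat_lit 0)⟩, ⟨(nat_lit 4370), (nat_lit 0)⟩, ⟨(nat_lit 69905), (nat_lit 4)⟩], ⟨(nat_lit 0xdbf983c40000), [⟨(nb (nat_lit 5) (nat_lit 1216) (nat_lit 1)), (nat_lit 0x1000000000000000200000000000000030000000000000000), (nat_lit 12), (nat_lit 24)⟩, ⟨(nb (nat_lit 1) (nat_lit 1216) (nat_lit 0)), (nat_lit 1), (nat_lit 2), (nat_lit 3)⟩], [⟨(nb (nat_lit 11) (nat_lit 14592) (nb (nat_lit 0x30000000000000007) (nat_lit 13376) (nb (nat_lit 0x60000000000000002) (nat_lit 128) (nat_lit 0)))), (nb (nat_lit 3) (nat_lit 13504) (nat_lit 4)), (nat_lit 36), (nat_lit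 120)⟩], false⟩, []⟩
def f202 : Fc := ⟨true, ⟨[[e1148, e1149, e1150, e1151, e1152], [e1143, e1144, e1145, e1146, e1147, e170, e171, e172, e173, e174], [e10, e11, e12, e13, e14, e75, e76, e77, e78, e79], [e15, e16, e17, e18, e19]], [], [], (nat_lit 30), (nat_lit 0x3fffffff003fffffff), (nat_lit 0), (nat_lit 5), (nat_lit 5)⟩, [⟨(nat_lit 69905), (nat_lit 3)⟩, ⟨(nat_lit 8465), (nat_lit 0)⟩, ⟨(nat_lit 4625), (nat_lit 0)⟩, ⟨(nat_lit 4385), (nat_lit 0)⟩, ⟨(nat_lit 4370), (nat_lit 0)⟩, ⟨(nat_lit 69905), (nat_lit 4)⟩], ⟨(nat_lit 0xdbf983c40000), [⟨(nb (nat_lit 1) (nat_lit 1216) (nat_lit 0)), (nat_lit 1), (nat_lit 2), (nat_lit 3)⟩], [], false⟩, []⟩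
def f203 : Fc := ⟨true, ⟨[[e1153, e1154, e1155, e1156, e1157], [e1158, e1159, e1160, e1161, e1162, e1163, e1164, e1165, e1166, e1167], [e1168, e1169, e1170, e1171, e1172, e1173, e1174, e1175, e1176, e1177], [e15, e16, e17, e18, e19]], [e1178], [], (nat_lit 31), (nat_lit 0xffffffffff003fffffff), (nat_lit 0), (nat_lit 4), (nat_lit 5)⟩, [⟨(nat_lit 69905), (nat_lit 3)⟩, ⟨(nat_lit 69905), (nat_lit 4)⟩], ⟨(nat_lit 0x39aa40000), [⟨(nb (nat_lit 11) (nat_lit 1216) (nat_lit 4)), (nat_lit 0x6000000000000000300000000000000030000000000000000), (nat_lit 27), (nat_lit 24)⟩, ⟨(nb (nat_lit 1) (nat_lit 1216) (nat_lit 0)), (nat_lit 1), (nat_lit 2), (nat_lit 3)⟩, ⟨(nb (nat_lit 5) (nat_lit 1216) (nat_lit 0x1000000000000000200000000000000030000000000000004)), (nat_lit 0), (nat_lit 15), (nat_lit 24)⟩], [], false⟩, []⟩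
def f204 : Fc := ⟨true, ⟨[[e1148, e1149, e1150, e1151, e1152], [e1143, e1144, e1145, e1146, e1147, e170, e171, e172, e173, e174], [e10, e11, e12, e13, e14, e75, e76, e77, e78, e79], [e15, e16, e17, e18, e19]], [], [], (nat_lit 30), (nat_lit 0x3fffffff003fffffff), (nat_lit 0), (nat_lit 5), (nat_lit 5)⟩, [⟨(nat_lit 69905), (nat_lit 2)⟩, ⟨(nat_lit 8465), (nat_lit 0)⟩, ⟨(nat_lit 4625), (nat_lit 0)⟩, ⟨(nat_lit 4385), (nat_lit 0)⟩, ⟨(nat_lit 4370), (nat_lit 0)⟩, ⟨(nat_lit 69905), (nat_lit 4)⟩, ⟨(nat_lit 69905), (nat_lit 3)⟩], ⟨(nat_lit 0xdbf983c40000), [⟨(nb (nat_lit 5) (nat_lit 1216) (nat_lit 0x1000000000000000200000000000000030000000000000004)), (nat_lit 0), (nat_lit 15), (nat_lit 24)⟩, ⟨(nb (nat_lit 1) (nat_lit 1216) (nat_lit 0)), (nat_lit 1), (nat_lit 2), (nat_lit 3)⟩], [⟨(nb (nat_lit 11) (nat_lit 14592) (nb (nat_lit 4) (nat_lit 13376) (nb (nat_lit 0x20000000000000006) (nat_lit 128) (nat_lit 0)))), (nb (nat_lit 0x600000000000000030000000000000003) (nat_lit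 13440) (nat_lit 4)), (nat_lit 39), (nat_lit 120)⟩], false⟩, []⟩
def f205 : Fc := ⟨true, ⟨[[e1148, e1149, e1150, e1151, e1152], [e1143, e1144, e1145, e1146, e1147, e170, e171, e172, e173, e174], [e10, e11, e12, e13, e14, e75, e76, e77, e78, e79], [e15, e16, e17, e18, e19]], [], [], (nat_lit 30), (nat_lit 0x3fffffff003fffffff), (nat_lit 0), (nat_lit 5), (nat_lit 5)⟩, [⟨(nat_lit 69905), (nat_lit 2)⟩, ⟨(nat_lit 8465), (nat_lit 0)⟩, ⟨(nat_lit 4625), (nat_lit 0)⟩, ⟨(nat_lit 4385), (nat_lit 0)⟩, ⟨(nat_lit 4370), (nat_lit 0)⟩, ⟨(nat_lit 69905), (nat_lit 4)⟩, ⟨(nat_lit 69905), (nat_lit 3)⟩], ⟨(nat_lit 0xdbf983c40000), [⟨(nb (nat_lit 1) (nat_lit 1216) (nat_lit 0)), (nat_lit 1), (nat_lit 2), (nat_lit 3)⟩], [], false⟩, []⟩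
def f206 : Fc := ⟨true, ⟨[[e1179, e1180, e1181, e1182, e1183], [e1184, e1185, e1186, e1187, e1188, e1189, e1190, e1191, e1192, e1193], [e1194, e1195, e1196, e1197, e1198, e1199, e1200, e1201, e1202, e1203], [e15, e16, e17, e18, e19]], [e1204], [], (nat_lit 31), (nat_lit 0xffffffffff003fffffff), (nat_lit 0), (nat_lit 4), (nat_lit 5)⟩, [⟨(nat_lit 69905), (nat_lit 3)⟩, ⟨(nat_lit 69905), (nat_lit 4)⟩], ⟨(nat_lit 0x39aa40000), [⟨(nb (nat_lit 11) (nat_lit 1216) (nat_lit 0x300000000000000060000000000000003000000000000000a)), (nat_lit 0), (nat_lit 33), (nat_lit 24)⟩, ⟨(nb (nat_lit 1) (nat_lit 1216) (nat_lit 0)), (nat_lit 1), (nat_lit 2), (nat_lit 3)⟩, ⟨(nb (nat_lit 5) (nat_lit 1216) (nat_lit 0x2000000000000000000000000000000010000000000000003)), (nat_lit 0x100000000000000000000000000000000), (nat_lit 12), (nat_lit 24)⟩], [], false⟩, []⟩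
def f207 : Fc := ⟨true, ⟨[[e1179, e1180, e1181, e1182, e1183], [e1184, e1185, e1186, e1187, e1188, e1189, e1190, e1191, e1192, e1193], [e1194, e1195, e1196, e1197, e1198, e1199, e1200, e1201, e1202, e1203], [e15, e16, e17, e18, e19]], [e1204], [], (nat_lit 31), (nat_lit 0xffffffffff003fffffff), (nat_lit 0), (nat_lit 4), (nat_lit 5)⟩, [⟨(nat_lit 69905), (nat_lit 2)⟩, ⟨(nat_lit 69905), (nat_lit 4)⟩, ⟨(nat_lit 69905), (nat_lit 3)⟩], ⟨(nat_lit 0x39aa40000), [⟨(nb (nat_lit 11) (nat_lit 1216) (nat_lit 0x300000000000000060000000000000003000000000000000a)), (nat_lit 0), (nat_lit 33), (nat_lit 24)⟩, ⟨(nb (nat_lit 1) (nat_lit 1216) (nat_lit 0)), (nat_lit 1), (nat_lit 2), (nat_lit 3)⟩, ⟨(nb (nat_lit 5) (nat_lit 1216) (nat_lit 0x2000000000000000000000000000000010000000000000003)), (nat_lit 0x100000000000000000000000000000000), (nat_lit 12), (nat_lit 24)⟩], [], false⟩, []⟩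
def f208 : Fc := ⟨true, ⟨[[e1148, e1149, e1150, e1151, e1152], [e1143, e1144, e1145, e1146, e1147, e170, e171, e172, e173, e174], [e10, e11, e12, e13, e14, e75, e76, e77, e78, e79], [e15, e16, e17, e18, e19]], [], [], (nat_lit 30), (nat_lit 0x3fffffff003fffffff), (nat_lit 0), (nat_lit 5), (nat_lit 5)⟩, [⟨(nat_lit 69905), (nat_lit 1)⟩, ⟨(nat_lit 8465), (nat_lit 0)⟩, ⟨(nat_lit 4625), (nat_lit 0)⟩, ⟨(nat_lit 4385), (nat_lit 0)⟩, ⟨(nat_lit 4370), (nat_lit 0)⟩, ⟨(nat_lit 69905), (nat_lit 4)⟩, ⟨(nat_lit 69905), (nat_lit 3)⟩, ⟨(nat_lit 69905), (nat_lit 2)⟩], ⟨(nat_lit 0xdbf983c40000), [⟨(nb (nat_lit 5) (nat_lit 1216) (nat_lit 0x2000000000000000000000000000000010000000000000003)), (nat_lit 0x100000000000000000000000000000000), (nat_lit 12), (nat_lit 24)⟩, ⟨(nb (nat_lit 1) (nat_lit 1216) (nat_lit 0)), (nat_lit 1), (nat_lit 2), (nat_lit 3)⟩], [⟨(nb (nat_lit 11) (nat_lit 14592) (nb (nat_lit 0x300000000000000060000000000000003000000000000000a) (nat_lit 13376)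 (nb (nat_lit 4) (nat_lit 64) (nat_lit 0)))), (nat_lit 0x2000000000000000200000000000000000000000000000006), (nat_lit 47), (nat_lit 120)⟩], false⟩, []⟩
def f209 : Fc := ⟨true, ⟨[[e1148, e1149, e1150, e1151, e1152], [e1143, e1144, e1145, e1146, e1147, e170, e171, e172, e173, e174], [e10, e11, e12, e13, e14, e75, e76, e77, e78, e79], [e15, e16, e17, e18, e19]], [], [], (nat_lit 30), (nat_lit 0x3fffffff003fffffff), (nat_lit 0), (nat_lit 5), (nat_lit 5)⟩, [⟨(nat_lit 69905), (nat_lit 1)⟩, ⟨(nat_lit 8465), (nat_lit 0)⟩, ⟨(nat_lit 4625), (nat_lit 0)⟩, ⟨(nat_lit 4385), (nat_lit 0)⟩, ⟨(nat_lit 4370), (nat_lit 0)⟩, ⟨(nat_lit 69905), (nat_lit 4)⟩, ⟨(nat_lit 69905), (nat_lit 3)⟩, ⟨(nat_lit 69905), (nat_lit 2)⟩], ⟨(nat_lit 0xdbf983c40000), [⟨(nb (nat_lit 1) (nat_lit 1216) (nat_lit 0)), (nat_lit 1), (nat_lit 2), (nat_lit 3)⟩], [⟨(nb (nat_lit 5) (nat_lit 1216) (nat_lit 0x2000000000000000000000000000000010000000000000003)), (nat_lit 0x100000000000000000000000000000000),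 (nat_lit 12), (nat_lit 24)⟩], false⟩, []⟩
def f210 : Fc := ⟨true, ⟨[[e1148, e1149, e1150, e1151, e1152], [e1143, e1144, e1145, e1146, e1147, e170, e171, e172, e173, e174], [e10, e11, e12, e13, e14, e75, e76, e77, e78, e79], [e15, e16, e17, e18, e19]], [], [], (nat_lit 30), (nat_lit 0x3fffffff003fffffff), (nat_lit 0), (nat_lit 5), (nat_lit 5)⟩, [⟨(nat_lit 69905), (nat_lit 0)⟩, ⟨(nat_lit 8465), (nat_lit 0)⟩, ⟨(nat_lit 4625), (nat_lit 0)⟩, ⟨(nat_lit 4385), (nat_lit 0)⟩, ⟨(nat_lit 4370), (nat_lit 0)⟩, ⟨(nat_lit 69905), (nat_lit 4)⟩, ⟨(nat_lit 69905), (nat_lit 3)⟩, ⟨(nat_lit 69905), (nat_lit 2)⟩, ⟨(nat_lit 69905), (nat_lit 1)⟩], ⟨(nat_lit 0xdbf983c40000), [⟨(nb (nat_lit 1) (nat_lit 1216) (nat_lit 0)), (nat_lit 1), (nat_lit 2), (nat_lit 3)⟩], [], false⟩, []⟩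
def f211 : Fc := ⟨true, ⟨[[e1148, e1149, e1150, e1151, e1152], [e1143, e1144, e1145, e1146, e1147, e170, e171, e172, e173, e174], [e10, e11, e12, e13, e14, e75, e76, e77, e78, e79], [e15, e16, e17, e18, e19]], [], [], (nat_lit 30), (nat_lit 0x3fffffff003fffffff), (nat_lit 0), (nat_lit 5), (nat_lit 5)⟩, [], ⟨(nat_lit 0xdbf983c40000), [⟨(nb (nat_lit 1) (nat_lit 1216) (nat_lit 0)), (nat_lit 1), (nat_lit 2), (nat_lit 3)⟩], [], true⟩, []⟩
def f212 : Fc := ⟨true, ⟨[[e1143, e1144, e1145, e1146, e1147, e170, e171, e172, e173, e174], [e10, e11, e12, e13, e14, e75, e76, e77, e78, e79], [e15, e16, e17, e18, e19]], [], [], (nat_lit 25), (nat_lit 0xfffff003fffffff), (nat_lit 0), (nat_lit 10), (nat_lit 4)⟩, [⟨(nat_lit 4369), (nat_lit 0)⟩], ⟨(nat_lit 0x39aa40000), [⟨(nb (nat_lit 1) (nat_lit 1216) (nat_lit 0)), (nat_lit 1), (nat_lit 2), (nat_lit 3)⟩], [], true⟩, []⟩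
def f213 : Fc := ⟨true, ⟨[[e1205, e1206, e1207, e1208, e1209], [e1143, e1144, e1145, e1146, e1147, e1210, e1211, e1212, e1213, e1214], [e10, e11, e12, e13, e14, e75, e76, e77, e78, e79], [e15, e16, e17, e18, e19]], [], [], (nat_lit 30), (nat_lit 0x3fffffff003fffffff), (nat_lit 0), (nat_lit 5), (nat_lit 5)⟩, [⟨(nat_lit 69905), (nat_lit 2)⟩, ⟨(nat_lit 69905), (nat_lit 4)⟩, ⟨(nat_lit 69905), (nat_lit 3)⟩], ⟨(nat_lit 0x39aa40000), [], [], false⟩, []⟩
def f214 : Fc := ⟨true, ⟨[[e1205, e1206, e1207, e1208, e1209], [e1143, e1144, e1145, e1146, e1147, e1210, e1211, e1212, e1213, e1214], [e10, e11, e12, e13, e14, e75, e76, e77, e78, e79], [e15, e16, e17, e18, e19]], [], [], (nat_lit 30), (nat_lit 0x3fffffff003fffffff), (nat_lit 0), (nat_lit 5), (nat_lit 5)⟩, [⟨(nat_lit 69905), (nat_lit 1)⟩, ⟨(nat_lit 69905), (nat_lit 4)⟩, ⟨(nat_lit 69905), (nat_lit 3)⟩, ⟨(nat_lit 69905), (nat_lit 2)⟩], ⟨(nat_lit 0x39aa40000), [], [], false⟩, []⟩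
def f215 : Fc := ⟨true, ⟨[[e1205, e1206, e1207, e1208, e1209], [e1143, e1144, e1145, e1146, e1147, e1210, e1211, e1212, e1213, e1214], [e10, e11, e12, e13, e14, e75, e76, e77, e78, e79], [e15, e16, e17, e18, e19]], [], [], (nat_lit 30), (nat_lit 0x3fffffff003fffffff), (nat_lit 0), (nat_lit 5), (nat_lit 5)⟩, [], ⟨(nat_lit 0x39aa40000), [], [], true⟩, []⟩
def f216 : Fc := ⟨true, ⟨[[e252, e253, e254, e255, e256, e272, e273, e274, e275, e276], [e10, e11, e12, e13, e14, e75, e76, e77, e78, e79], [e15, e16, e17, e18, e19]], [], [], (nat_lit 25), (nat_lit 0xfffff003fffffff), (nat_lit 0), (nat_lit 10), (nat_lit 4)⟩, [⟨(nat_lit 4369), (nat_lit 0)⟩], ⟨(nat_lit 0xdbf983c40000), [⟨(nb (nat_lit 1) (nat_lit 1216) (nat_lit 0)), (nat_lit 0), (nat_lit 1), (nat_lit 3)⟩], [], true⟩, [⟨[(nat_lit 1), (nat_lit 16), (nat_lit 17), (nat_lit 256), (nat_lit 257), (nat_lit 272), (nat_lit 273), (nat_lit 4096), (nat_lit 4097), (nat_lit 4112), (nat_lit 4113), (nat_lit 4352), (nat_lit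 4353), (nat_lit 4368), (nat_lit 4369), (nat_lit 8465), (nat_lit 65536), (nat_lit 65537), (nat_lit 65552), (nat_lit 65553), (nat_lit 65792), (nat_lit 65793), (nat_lit 65808), (nat_lit 65809), (nat_lit 66065), (nat_lit 69632), (nat_lit 69633), (nat_lit 69648), (nat_lit 69649), (nat_lit 69665), (nat_lit 69888), (nat_lit 69889), (nat_lit 69890), (nat_lit 69904), (nat_lit 135440)], [(nat_lit 1), (nb (nat_lit 1) (nat_lit 3648) (nb (nat_lit 1) (nat_lit 2432) (nb (nat_lit 2) (nat_lit 1216) (nat_lit 1)))), (nat_lit 0)], (nat_lit 1), (nat_lit 0)⟩, ⟨[(nat_lit 1), (nat_lit 16), (nat_lit 17), (nat_lit 256), (nat_lit 257), (nat_lit 272), (nat_lit 273), (nat_lit 4096), (nat_lit 4097), (nat_lit 4112), (nat_lit 4113), (nat_lit 4352), (nat_lit 4353), (nat_lit 4368), (nat_lit 4369), (nat_lit 4625), (nat_lit 65536), (nat_lit 65537), (nat_lit 65552), (nat_lit 65553), (nat_lit 65792), (nat_lit 65793), (nat_lit 65808), (nat_lit 65809), (nat_lit 65825), (nat_lit 69632),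 (nat_lit 69633), (nat_lit 69648), (nat_lit 69649), (nat_lit 69650), (nat_lit 69888), (nat_lit 69889), (nat_lit 69904), (nat_lit 74000), (nat_lit 135425)], [(nat_lit 1), (nb (nat_lit 1) (nat_lit 3648) (nat_lit 0)), (nb (nat_lit 2) (nat_lit 2432) (nb (nat_lit 3) (nat_lit 1216) (nat_lit 1)))], (nat_lit 1), (nat_lit 0)⟩, ⟨[(nat_lit 1), (nat_lit 16), (nat_lit 17), (nat_lit 256), (nat_lit 257), (nat_lit 272), (nat_lit 273), (nat_lit 4096), (nat_lit 4097), (nat_lit 4112), (nat_lit 4113), (nat_lit 4352), (nat_lit 4353), (nat_lit 4368), (nat_lit 4369), (nat_lit 4385), (nat_lit 65536), (nat_lit 65537), (nat_lit 65552), (nat_lit 65553), (nat_lit 65792), (nat_lit 65793), (nat_lit 65808), (nat_lit 65809), (nat_lit 65810), (nat_lit 69632), (nat_lit 69633), (nat_lit 69648), (nat_lit 69649), (nat_lit 69888), (nat_lit 69889), (nat_lit 69904), (nat_lit 70160), (nat_lit 73985), (nat_lit 135185)], [(nat_lit 1), (nb (nat_lit 1) (nat_lit 3648) (nb (nat_lit 5) (nat_lit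 2432) (nb (nat_lit 4) (nat_lit 1216) (nat_lit 1)))), (nat_lit 0)], (nat_lit 1), (nat_lit 0)⟩, ⟨[(nat_lit 1), (nat_lit 16), (nat_lit 17), (nat_lit 256), (nat_lit 257), (nat_lit 272), (nat_lit 273), (nat_lit 4096), (nat_lit 4097), (nat_lit 4112), (nat_lit 4113), (nat_lit 4352), (nat_lit 4353), (nat_lit 4368), (nat_lit 4369), (nat_lit 4370), (nat_lit 65536), (nat_lit 65537), (nat_lit 65552), (nat_lit 65553), (nat_lit 65792), (nat_lit 65793), (nat_lit 65808), (nat_lit 65809), (nat_lit 69632), (nat_lit 69633), (nat_lit 69648), (nat_lit 69649), (nat_lit 69888), (nat_lit 69889), (nat_lit 69904), (nat_lit 69920), (nat_lit 70145), (nat_lit 73745), (nat_lit 131345)], [(nat_lit 1), (nb (nat_lit 1) (nat_lit 3648) (nb (nat_lit 2) (nat_lit 2432) (nb (nat_lit 3) (nat_lit 1216) (nat_lit 1)))), (nat_lit 0)], (nat_lit 1), (nat_lit 0)⟩]⟩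
def f217 : Fc := ⟨true, ⟨[[e1215, e1216, e1217, e1218, e1219], [e70, e71, e72, e73, e74, e170, e171, e172, e173, e174], [e10, e11, e12, e13, e14, e75, e76, e77, e78, e79], [e15, e16, e17, e18, e19]], [], [], (nat_lit 30), (nat_lit 0x3fffffff003fffffff), (nat_lit 0), (nat_lit 5), (nat_lit 5)⟩, [⟨(nat_lit 69905), (nat_lit 3)⟩, ⟨(nat_lit 4385), (nat_lit 0)⟩, ⟨(nat_lit 69905), (nat_lit 4)⟩], ⟨(nat_lit 0x39aa40000), [⟨(nb (nat_lit 1) (nat_lit 1216) (nat_lit 0)), (nat_lit 0), (nat_lit 1), (nat_lit 3)⟩], [], false⟩, []⟩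
def f218 : Fc := ⟨true, ⟨[[e1215, e1216, e1217, e1218, e1219], [e70, e71, e72, e73, e74, e170, e171, e172, e173, e174], [e10, e11, e12, e13, e14, e75, e76, e77, e78, e79], [e15, e16, e17, e18, e19]], [], [], (nat_lit 30), (nat_lit 0x3fffffff003fffffff), (nat_lit 0), (nat_lit 5), (nat_lit 5)⟩, [⟨(nat_lit 69905), (nat_lit 2)⟩, ⟨(nat_lit 4385), (nat_lit 0)⟩, ⟨(nat_lit 69905), (nat_lit 4)⟩, ⟨(nat_lit 69905), (nat_lit 3)⟩], ⟨(nat_lit 0x39aa40000), [⟨(nb (nat_lit 1) (nat_lit 1216) (nat_lit 0)), (nat_lit 0), (nat_lit 1), (nat_lit 3)⟩], [], false⟩, []⟩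
def f219 : Fc := ⟨true, ⟨[[e1215, e1216, e1217, e1218, e1219], [e70, e71, e72, e73, e74, e170, e171, e172, e173, e174], [e10, e11, e12, e13, e14, e75, e76, e77, e78, e79], [e15, e16, e17, e18, e19]], [], [], (nat_lit 30), (nat_lit 0x3fffffff003fffffff), (nat_lit 0), (nat_lit 5), (nat_lit 5)⟩, [⟨(nat_lit 69905), (nat_lit 1)⟩, ⟨(nat_lit 4385), (nat_lit 0)⟩, ⟨(nat_lit 69905), (nat_lit 4)⟩, ⟨(nat_lit 69905), (nat_lit 3)⟩, ⟨(nat_lit 69905), (nat_lit 2)⟩], ⟨(nat_lit 0x39aa40000), [⟨(nb (nat_lit 1) (nat_lit 1216) (nat_lit 0)), (nat_lit 0), (nat_lit 1), (nat_lit 3)⟩], [], false⟩, []⟩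
def f220 : Fc := ⟨true, ⟨[[e1220, e1221, e1222, e1223, e1224], [e70, e71, e72, e73, e74, e170, e171, e172, e173, e174], [e10, e11, e12, e13, e14, e75, e76, e77, e78, e79], [e15, e16, e17, e18, e19]], [], [], (nat_lit 30), (nat_lit 0x3fffffff003fffffff), (nat_lit 0), (nat_lit 5), (nat_lit 5)⟩, [⟨(nat_lit 8465), (nat_lit 0)⟩], ⟨(nat_lit 0xdbf983c40000), [⟨(nb (nat_lit 1) (nat_lit 1216) (nat_lit 0)), (nat_lit 0), (nat_lit 1), (nat_lit 3)⟩], [], false⟩, []⟩
def f221 : Fc := ⟨true, ⟨[[e1220, e1221, e1222, e1223, e1224], [e70, e71, e72, e73, e74, e170, e171, e172, e173, e174], [e10, e11, e12, e13, e14, e75, e76, e77, e78, e79], [e15, e16, e17, e18, e19]], [], [], (nat_lit 30), (nat_lit 0x3fffffff003fffffff), (nat_lit 0), (nat_lit 5), (nat_lit 5)⟩, [⟨(nat_lit 69905), (nat_lit 4)⟩, ⟨(nat_lit 8465), (nat_lit 0)⟩, ⟨(nat_lit 4625), (nat_lit 0)⟩, ⟨(nat_lit 4370), (nat_lit 0)⟩], ⟨(nat_lit 0xdbf983c40000), [⟨(nb (nat_lit 1) (nat_lit 1216) (nat_lit 0)), (nat_lit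 0), (nat_lit 1), (nat_lit 3)⟩], [], false⟩, []⟩
def f222 : Fc := ⟨true, ⟨[[e1220, e1221, e1222, e1223, e1224], [e70, e71, e72, e73, e74, e170, e171, e172, e173, e174], [e10, e11, e12, e13, e14, e75, e76, e77, e78, e79], [e15, e16, e17, e18, e19]], [], [], (nat_lit 30), (nat_lit 0x3fffffff003fffffff), (nat_lit 0), (nat_lit 5), (nat_lit 5)⟩, [⟨(nat_lit 69905), (nat_lit 3)⟩, ⟨(nat_lit 8465), (nat_lit 0)⟩, ⟨(nat_lit 4625), (nat_lit 0)⟩, ⟨(nat_lit 4370), (nat_lit 0)⟩, ⟨(nat_lit 69905), (nat_lit 4)⟩], ⟨(nat_lit 0xdbf983c40000), [⟨(nb (nat_lit 1) (nat_lit 1216) (nat_lit 0)), (nat_lit 0), (nat_lit 1), (nat_lit 3)⟩], [], false⟩, []⟩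
def f223 : Fc := ⟨true, ⟨[[e1220, e1221, e1222, e1223, e1224], [e70, e71, e72, e73, e74, e170, e171, e172, e173, e174], [e10, e11, e12, e13, e14, e75, e76, e77, e78, e79], [e15, e16, e17, e18, e19]], [], [], (nat_lit 30), (nat_lit 0x3fffffff003fffffff), (nat_lit 0), (nat_lit 5), (nat_lit 5)⟩, [⟨(nat_lit 69905), (nat_lit 2)⟩, ⟨(nat_lit 8465), (nat_lit 0)⟩, ⟨(nat_lit 4625), (nat_lit 0)⟩, ⟨(nat_lit 4370), (nat_lit 0)⟩, ⟨(nat_lit 69905), (nat_lit 4)⟩, ⟨(nat_lit 69905), (nat_lit 3)⟩], ⟨(nat_lit 0xdbf983c40000), [⟨(nb (nat_lit 1) (nat_lit 13376) (nat_lit 0)), (nat_lit 0), (nat_lit 1), (nat_lit 5)⟩, ⟨(nb (nat_lit 1) (nat_lit 1216) (nat_lit 0)), (nat_lit 0), (nat_lit 1), (nat_lit 3)⟩], [], false⟩, []⟩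
def f224 : Fc := ⟨true, ⟨[[e1220, e1221, e1222, e1223, e1224], [e70, e71, e72, e73, e74, e170, e171, e172, e173, e174], [e10, e11, e12, e13, e14, e75, e76, e77, e78, e79], [e15, e16, e17, e18, e19]], [], [], (nat_lit 30), (nat_lit 0x3fffffff003fffffff), (nat_lit 0), (nat_lit 5), (nat_lit 5)⟩, [⟨(nat_lit 69905), (nat_lit 1)⟩, ⟨(nat_lit 8465), (nat_lit 0)⟩, ⟨(nat_lit 4625), (nat_lit 0)⟩, ⟨(nat_lit 4370), (nat_lit 0)⟩, ⟨(nat_lit 69905), (nat_lit 4)⟩, ⟨(nat_lit 69905), (nat_lit 3)⟩, ⟨(nat_lit 69905), (nat_lit 2)⟩], ⟨(nat_lit 0xdbf983c40000), [⟨(nb (nat_lit 1) (nat_lit 13376) (nat_lit 0)), (nat_lit 0), (nat_lit 1), (nat_lit 5)⟩, ⟨(nb (nat_lit 1) (nat_lit 1216) (nat_lit 0)), (nat_lit 0), (nat_lit 1), (nat_lit 3)⟩], [], false⟩, []⟩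
def f225 : Fc := ⟨true, ⟨[[e1220, e1221, e1222, e1223, e1224], [e70, e71, e72, e73, e74, e170, e171, e172, e173, e174], [e10, e11, e12, e13, e14, e75, e76, e77, e78, e79], [e15, e16, e17, e18, e19]], [], [], (nat_lit 30), (nat_lit 0x3fffffff003fffffff), (nat_lit 0), (nat_lit 5), (nat_lit 5)⟩, [⟨(nat_lit 69905), (nat_lit 1)⟩, ⟨(nat_lit 8465), (nat_lit 0)⟩, ⟨(nat_lit 4625), (nat_lit 0)⟩, ⟨(nat_lit 4370), (nat_lit 0)⟩, ⟨(nat_lit 69905), (nat_lit 4)⟩, ⟨(nat_lit 69905), (nat_lit 3)⟩, ⟨(nat_lit 69905), (nat_lit 2)⟩], ⟨(nat_lit 0xdbf983c40000), [⟨(nb (nat_lit 1) (nat_lit 1216) (nat_lit 0)), (nat_lit 0), (nat_lit 1), (nat_lit 3)⟩], [], false⟩, []⟩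
def f226 : Fc := ⟨true, ⟨[[e1220, e1221, e1222, e1223, e1224], [e70, e71, e72, e73, e74, e170, e171, e172, e173, e174], [e10, e11, e12, e13, e14, e75, e76, e77, e78, e79], [e15, e16, e17, e18, e19]], [], [], (nat_lit 30), (nat_lit 0x3fffffff003fffffff), (nat_lit 0), (nat_lit 5), (nat_lit 5)⟩, [⟨(nat_lit 69905), (nat_lit 0)⟩, ⟨(nat_lit 8465), (nat_lit 0)⟩, ⟨(nat_lit 4625), (nat_lit 0)⟩, ⟨(nat_lit 4370), (nat_lit 0)⟩, ⟨(nat_lit 69905), (nat_lit 4)⟩, ⟨(nat_lit 69905), (nat_lit 3)⟩, ⟨(nat_lit 69905), (nat_lit 2)⟩, ⟨(nat_lit 69905), (nat_lit 1)⟩], ⟨(nat_lit 0xdbf983c40000), [⟨(nb (nat_lit 5) (nat_lit 1216) (nat_lit 2)), (nat_lit 0x1000000000000000100000000000000000000000000000000), (nat_lit 9), (nat_lit 24)⟩, ⟨(nb (nat_lit 1) (nat_lit 13376) (nat_lit 0)), (nat_lit 0), (nat_lit 1), (nat_lit 5)⟩, ⟨(nb (nat_lit 1) (nat_lit 1216) (nat_lit 0)), (nat_lit 0), (nat_lit 1), (nat_lit 3)⟩], [], false⟩, []⟩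
def f227 : Fc := ⟨true, ⟨[[e1220, e1221, e1222, e1223, e1224], [e70, e71, e72, e73, e74, e170, e171, e172, e173, e174], [e10, e11, e12, e13, e14, e75, e76, e77, e78, e79], [e15, e16, e17, e18, e19]], [], [], (nat_lit 30), (nat_lit 0x3fffffff003fffffff), (nat_lit 0), (nat_lit 5), (nat_lit 5)⟩, [⟨(nat_lit 69905), (nat_lit 0)⟩, ⟨(nat_lit 8465), (nat_lit 0)⟩, ⟨(nat_lit 4625), (nat_lit 0)⟩, ⟨(nat_lit 4370), (nat_lit 0)⟩, ⟨(nat_lit 69905), (nat_lit 4)⟩, ⟨(nat_lit 69905), (nat_lit 3)⟩, ⟨(nat_lit 69905), (nat_lit 2)⟩, ⟨(nat_lit 69905), (nat_lit 1)⟩], ⟨(nat_lit 0xdbf983c40000), [⟨(nb (nat_lit 1) (nat_lit 13376) (nat_lit 0)), (nat_lit 0), (nat_lit 1), (nat_lit 5)⟩, ⟨(nb (nat_lit 1) (nat_lit 1216) (nat_lit 0)), (nat_lit 0), (nat_lit 1), (nat_lit 3)⟩], [], false⟩, []⟩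
def f228 : Fc := ⟨true, ⟨[[e1220, e1221, e1222, e1223, e1224], [e70, e71, e72, e73, e74, e170, e171, e172, e173, e174], [e10, e11, e12, e13, e14, e75, e76, e77, e78, e79], [e15, e16, e17, e18, e19]], [], [], (nat_lit 30), (nat_lit 0x3fffffff003fffffff), (nat_lit 0), (nat_lit 5), (nat_lit 5)⟩, [], ⟨(nat_lit 0xdbf983c40000), [⟨(nb (nat_lit 1) (nat_lit 1216) (nat_lit 0)), (nat_lit 0), (nat_lit 1), (nat_lit 3)⟩], [], true⟩, []⟩
def f229 : Fc := ⟨true, ⟨[[e70, e71, e72, e73, e74, e170, e171, e172, e173, e174], [e10, e11, e12, e13, e14, e75, e76, e77, e78, e79], [e15, e16, e17, e18, e19]], [], [], (nat_lit 25), (nat_lit 0xfffff003fffffff), (nat_lit 0), (nat_lit 10), (nat_lit 4)⟩, [⟨(nat_lit 4369), (nat_lit 0)⟩], ⟨(nat_lit 0x39aa40000), [⟨(nb (nat_lit 1) (nat_lit 1216) (nat_lit 0)), (nat_lit 0), (nat_lit 1), (nat_lit 3)⟩], [], true⟩, []⟩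
def f230 : Fc := ⟨true, ⟨[[e1225, e1226, e1227, e1228, e1229], [e70, e71, e72, e73, e74, e135, e136, e137, e138, e139], [e10, e11, e12, e13, e14, e75, e76, e77, e78, e79], [e15, e16, e17, e18, e19]], [], [], (nat_lit 30), (nat_lit 0x3fffffff003fffffff), (nat_lit 0), (nat_lit 5), (nat_lit 5)⟩, [⟨(nat_lit 69905), (nat_lit 2)⟩, ⟨(nat_lit 4370), (nat_lit 0)⟩, ⟨(nat_lit 69905), (nat_lit 4)⟩, ⟨(nat_lit 69905), (nat_lit 3)⟩], ⟨(nat_lit 0x39aa40000), [], [], false⟩, []⟩
def f231 : Fc := ⟨true, ⟨[[e1225, e1226, e1227, e1228, e1229], [e70, e71, e72, e73, e74, e135, e136, e137, e138, e139], [e10, e11, e12, e13, e14, e75, e76, e77, e78, e79], [e15, e16, e17, e18, e19]], [], [], (nat_lit 30), (nat_lit 0x3fffffff003fffffff), (nat_lit 0), (nat_lit 5), (nat_lit 5)⟩, [⟨(nat_lit 69905), (nat_lit 1)⟩, ⟨(nat_lit 4370), (nat_lit 0)⟩, ⟨(nat_lit 69905), (nat_lit 4)⟩, ⟨(nat_lit 69905), (nat_lit 3)⟩, ⟨(nat_lit 69905), (nat_lit 2)⟩], ⟨(nat_lit 0x39aa40000), [], [], false⟩,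 []⟩
def f232 : Fc := ⟨true, ⟨[[e1225, e1226, e1227, e1228, e1229], [e70, e71, e72, e73, e74, e135, e136, e137, e138, e139], [e10, e11, e12, e13, e14, e75, e76, e77, e78, e79], [e15, e16, e17, e18, e19]], [], [], (nat_lit 30), (nat_lit 0x3fffffff003fffffff), (nat_lit 0), (nat_lit 5), (nat_lit 5)⟩, [], ⟨(nat_lit 0x39aa40000), [], [], true⟩, []⟩
def f233 : Fc := ⟨true, ⟨[[e252, e253, e254, e255, e256, e272, e273, e274, e275, e276], [e10, e11, e12, e13, e14, e75, e76, e77, e78, e79], [e15, e16, e17, e18, e19]], [], [], (nat_lit 25), (nat_lit 0xfffff003fffffff), (nat_lit 0), (nat_lit 10), (nat_lit 4)⟩, [⟨(nat_lit 4369), (nat_lit 0)⟩], ⟨(nat_lit 0xdbf983c40000), [], [], true⟩, [⟨[(nat_lit 1), (nat_lit 16), (nat_lit 17), (nat_lit 256), (nat_lit 257), (nat_lit 272), (nat_lit 273), (nat_lit 4096), (nat_lit 4097), (nat_lit 4112), (nat_lit 4113), (nat_lit 4352), (nat_lit 4353), (nat_lit 4368), (nat_lit 4369), (nat_lit 4370), (nat_lit 65536), (nat_lit 65537),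 (nat_lit 65552), (nat_lit 65553), (nat_lit 65792), (nat_lit 65793), (nat_lit 65808), (nat_lit 65809), (nat_lit 69632), (nat_lit 69633), (nat_lit 69648), (nat_lit 69649), (nat_lit 69888), (nat_lit 69889), (nat_lit 69904), (nat_lit 69920), (nat_lit 70145), (nat_lit 73745), (nat_lit 131345)], [(nat_lit 1), (nb (nat_lit 1) (nat_lit 3648) (nb (nat_lit 2) (nat_lit 2432) (nb (nat_lit 3) (nat_lit 1216) (nat_lit 1)))), (nat_lit 0)], (nat_lit 1), (nat_lit 0)⟩, ⟨[(nat_lit 1), (nat_lit 16), (nat_lit 17), (nat_lit 256), (nat_lit 257), (nat_lit 272), (nat_lit 273), (nat_lit 4096), (nat_lit 4097), (nat_lit 4112), (nat_lit 4113), (nat_lit 4352), (nat_lit 4353), (nat_lit 4368), (nat_lit 4369), (nat_lit 4385), (nat_lit 65536), (nat_lit 65537), (nat_lit 65552), (nat_lit 65553), (nat_lit 65792), (nat_lit 65793), (nat_lit 65808), (nat_lit 65809), (nat_lit 65810), (nat_lit 69632), (nat_lit 69633), (nat_lit 69648), (nat_lit 69649), (nat_lit 69888), (nat_lit 69889), (nat_lit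 69904), (nat_lit 70160), (nat_lit 73985), (nat_lit 135185)], [(nat_lit 1), (nb (nat_lit 1) (nat_lit 3648) (nb (nat_lit 5) (nat_lit 2432) (nb (nat_lit 4) (nat_lit 1216) (nat_lit 1)))), (nat_lit 0)], (nat_lit 1), (nat_lit 0)⟩, ⟨[(nat_lit 1), (nat_lit 16), (nat_lit 17), (nat_lit 256), (nat_lit 257), (nat_lit 272), (nat_lit 273), (nat_lit 4096), (nat_lit 4097), (nat_lit 4112), (nat_lit 4113), (nat_lit 4352), (nat_lit 4353), (nat_lit 4368), (nat_lit 4369), (nat_lit 4625), (nat_lit 65536), (nat_lit 65537), (nat_lit 65552), (nat_lit 65553), (nat_lit 65792), (nat_lit 65793), (nat_lit 65808), (nat_lit 65809), (nat_lit 65825), (nat_lit 69632), (nat_lit 69633), (nat_lit 69648), (nat_lit 69649), (nat_lit 69650), (nat_lit 69888), (nat_lit 69889), (nat_lit 69904), (nat_lit 74000), (nat_lit 135425)], [(nat_lit 1), (nb (nat_lit 1) (nat_lit 3648) (nat_lit 0)), (nb (nat_lit 2) (nat_lit 2432) (nb (nat_lit 3) (nat_lit 1216) (nat_lit 1)))], (nat_lit 1), (nat_lit 0)⟩,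 ⟨[(nat_lit 1), (nat_lit 16), (nat_lit 17), (nat_lit 256), (nat_lit 257), (nat_lit 272), (nat_lit 273), (nat_lit 4096), (nat_lit 4097), (nat_lit 4112), (nat_lit 4113), (nat_lit 4352), (nat_lit 4353), (nat_lit 4368), (nat_lit 4369), (nat_lit 8465), (nat_lit 65536), (nat_lit 65537), (nat_lit 65552), (nat_lit 65553), (nat_lit 65792), (nat_lit 65793), (nat_lit 65808), (nat_lit 65809), (nat_lit 66065), (nat_lit 69632), (nat_lit 69633), (nat_lit 69648), (nat_lit 69649), (nat_lit 69665), (nat_lit 69888), (nat_lit 69889), (nat_lit 69890), (nat_lit 69904), (nat_lit 135440)], [(nat_lit 1), (nb (nat_lit 1) (nat_lit 3648) (nb (nat_lit 1) (nat_lit 2432) (nb (nat_lit 2) (nat_lit 1216) (nat_lit 1)))), (nat_lit 0)], (nat_lit 1), (nat_lit 0)⟩]⟩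
def f234 : Fc := ⟨true, ⟨[[e252, e253, e254, e255, e256, e272, e273, e274, e275, e276], [e10, e11, e12, e13, e14, e75, e76, e77, e78, e79], [e15, e16, e17, e18, e19]], [], [], (nat_lit 25), (nat_lit 0xfffff003fffffff), (nat_lit 0), (nat_lit 10), (nat_lit 4)⟩, [⟨(nat_lit 529), (nat_lit 0)⟩, ⟨(nat_lit 4354), (nat_lit 0)⟩, ⟨(nat_lit 4129), (nat_lit 0)⟩, ⟨(nat_lit 4114), (nat_lit 0)⟩, ⟨(nat_lit 4369), (nat_lit 0)⟩], ⟨(nat_lit 0xdbf983c40000), [], [], false⟩, []⟩
def f235 : Fc := ⟨true, ⟨[[e252, e253, e254, e255, e256, e272, e273, e274, e275, e276], [e10, e11, e12, e13, e14, e75, e76, e77, e78, e79], [e15, e16, e17, e18, e19]], [], [], (nat_lit 25), (nat_lit 0xfffff003fffffff), (nat_lit 0), (nat_lit 10), (nat_lit 4)⟩, [⟨(nat_lit 289), (nat_lit 0)⟩, ⟨(nat_lit 4354), (nat_lit 0)⟩, ⟨(nat_lit 4129), (nat_lit 0)⟩, ⟨(nat_lit 4114), (nat_lit 0)⟩, ⟨(nat_lit 529), (nat_lit 0)⟩, ⟨(nat_lit 4369), (nat_lit 0)⟩], ⟨(nat_lit 0xdbf983c40000), [], [], false⟩, []⟩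
def f236 : Fc := ⟨true, ⟨[[e252, e253, e254, e255, e256, e272, e273, e274, e275, e276], [e10, e11, e12, e13, e14, e75, e76, e77, e78, e79], [e15, e16, e17, e18, e19]], [], [], (nat_lit 25), (nat_lit 0xfffff003fffffff), (nat_lit 0), (nat_lit 10), (nat_lit 4)⟩, [⟨(nat_lit 274), (nat_lit 0)⟩, ⟨(nat_lit 4354), (nat_lit 0)⟩, ⟨(nat_lit 4129), (nat_lit 0)⟩, ⟨(nat_lit 4114), (nat_lit 0)⟩, ⟨(nat_lit 529), (nat_lit 0)⟩, ⟨(nat_lit 289), (nat_lit 0)⟩, ⟨(nat_lit 4369), (nat_lit 0)⟩], ⟨(nat_lit 0xdbf983c40000), [], [], false⟩, []⟩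
def f237 : Fc := ⟨true, ⟨[[e252, e253, e254, e255, e256, e272, e273, e274, e275, e276], [e10, e11, e12, e13, e14, e75, e76, e77, e78, e79], [e15, e16, e17, e18, e19]], [], [], (nat_lit 25), (nat_lit 0xfffff003fffffff), (nat_lit 0), (nat_lit 10), (nat_lit 4)⟩, [], ⟨(nat_lit 0xdbf983c40000), [], [], true⟩, [⟨[(nat_lit 1), (nat_lit 16), (nat_lit 17), (nat_lit 256), (nat_lit 257), (nat_lit 272), (nat_lit 273), (nat_lit 4096), (nat_lit 4097), (nat_lit 4112), (nat_lit 4113), (nat_lit 4352), (nat_lit 4353), (nat_lit 4368), (nat_lit 4369), (nat_lit 8465), (nat_lit 65536), (nat_lit 65537), (nat_lit 65552), (nat_lit 65553), (nat_lit 65792), (nat_lit 65793), (nat_lit 65808), (nat_lit 65809), (nat_lit 66065), (nat_lit 69632), (nat_lit 69633), (nat_lit 69648), (nat_lit 69649), (nat_lit 69665), (nat_lit 69888), (nat_lit 69889), (nat_lit 69890), (nat_lit 69904), (nat_lit 135440)], [(nat_lit 1), (nb (nat_lit 1) (nat_lit 3648) (nb (nat_lit 1) (nat_lit 2432) (nb (nat_lit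 2) (nat_lit 1216) (nat_lit 1)))), (nat_lit 0)], (nat_lit 1), (nat_lit 0)⟩, ⟨[(nat_lit 1), (nat_lit 16), (nat_lit 17), (nat_lit 256), (nat_lit 257), (nat_lit 272), (nat_lit 273), (nat_lit 4096), (nat_lit 4097), (nat_lit 4112), (nat_lit 4113), (nat_lit 4352), (nat_lit 4353), (nat_lit 4368), (nat_lit 4369), (nat_lit 4625), (nat_lit 65536), (nat_lit 65537), (nat_lit 65552), (nat_lit 65553), (nat_lit 65792), (nat_lit 65793), (nat_lit 65808), (nat_lit 65809), (nat_lit 65825), (nat_lit 69632), (nat_lit 69633), (nat_lit 69648), (nat_lit 69649), (nat_lit 69650), (nat_lit 69888), (nat_lit 69889), (nat_lit 69904), (nat_lit 74000), (nat_lit 135425)], [(nat_lit 1), (nb (nat_lit 1) (nat_lit 3648) (nat_lit 0)), (nb (nat_lit 2) (nat_lit 2432) (nb (nat_lit 3) (nat_lit 1216) (nat_lit 1)))], (nat_lit 1), (nat_lit 0)⟩, ⟨[(nat_lit 1), (nat_lit 16), (nat_lit 17), (nat_lit 256), (nat_lit 257), (nat_lit 272), (nat_lit 273), (nat_lit 4096), (nat_lit 4097), (nat_lit 4112),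 (nat_lit 4113), (nat_lit 4352), (nat_lit 4353), (nat_lit 4368), (nat_lit 4369), (nat_lit 4385), (nat_lit 65536), (nat_lit 65537), (nat_lit 65552), (nat_lit 65553), (nat_lit 65792), (nat_lit 65793), (nat_lit 65808), (nat_lit 65809), (nat_lit 65810), (nat_lit 69632), (nat_lit 69633), (nat_lit 69648), (nat_lit 69649), (nat_lit 69888), (nat_lit 69889), (nat_lit 69904), (nat_lit 70160), (nat_lit 73985), (nat_lit 135185)], [(nat_lit 1), (nb (nat_lit 1) (nat_lit 3648) (nb (nat_lit 5) (nat_lit 2432) (nb (nat_lit 4) (nat_lit 1216) (nat_lit 1)))), (nat_lit 0)], (nat_lit 1), (nat_lit 0)⟩, ⟨[(nat_lit 1), (nat_lit 16), (nat_lit 17), (nat_lit 256), (nat_lit 257), (nat_lit 272), (nat_lit 273), (nat_lit 4096), (nat_lit 4097), (nat_lit 4112), (nat_lit 4113), (nat_lit 4352), (nat_lit 4353), (nat_lit 4368), (nat_lit 4369), (nat_lit 4370), (nat_lit 65536), (nat_lit 65537), (nat_lit 65552), (nat_lit 65553), (nat_lit 65792), (nat_lit 65793), (nat_lit 65808), (nat_lit 65809),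 (nat_lit 69632), (nat_lit 69633), (nat_lit 69648), (nat_lit 69649), (nat_lit 69888), (nat_lit 69889), (nat_lit 69904), (nat_lit 69920), (nat_lit 70145), (nat_lit 73745), (nat_lit 131345)], [(nat_lit 1), (nb (nat_lit 1) (nat_lit 3648) (nb (nat_lit 2) (nat_lit 2432) (nb (nat_lit 3) (nat_lit 1216) (nat_lit 1)))), (nat_lit 0)], (nat_lit 1), (nat_lit 0)⟩]⟩
def f238 : Fc := ⟨true, ⟨[[e10, e11, e12, e13, e14, e75, e76, e77, e78, e79], [e15, e16, e17, e18, e19]], [e256, e255, e254, e253, e252], [], (nat_lit 20), (nat_lit 0x3ff003fffffff), (nat_lit 0), (nat_lit 15), (nat_lit 3)⟩, [⟨(nat_lit 4113), (nat_lit 0)⟩], ⟨(nat_lit 0x39aa40000), [], [], true⟩, [⟨[(nat_lit 1), (nat_lit 16), (nat_lit 17), (nat_lit 256), (nat_lit 257), (nat_lit 272), (nat_lit 273), (nat_lit 4096), (nat_lit 4097), (nat_lit 4112), (nat_lit 4113), (nat_lit 4352), (nat_lit 4353), (nat_lit 4368), (nat_lit 4369), (nat_lit 4370), (nat_lit 65536), (nat_lit 65537), (nat_lit 65552), (nat_lit 65553),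 (nat_lit 65792), (nat_lit 65793), (nat_lit 65808), (nat_lit 65809), (nat_lit 69632), (nat_lit 69633), (nat_lit 69648), (nat_lit 69649), (nat_lit 69888), (nat_lit 69889), (nat_lit 69904), (nat_lit 69920), (nat_lit 70145), (nat_lit 73745), (nat_lit 131345)], [(nat_lit 1), (nb (nat_lit 1) (nat_lit 3648) (nb (nat_lit 2) (nat_lit 2432) (nb (nat_lit 3) (nat_lit 1216) (nat_lit 1)))), (nat_lit 0)], (nat_lit 1), (nat_lit 0)⟩, ⟨[(nat_lit 1), (nat_lit 16), (nat_lit 17), (nat_lit 256), (nat_lit 257), (nat_lit 272), (nat_lit 273), (nat_lit 4096), (nat_lit 4097), (nat_lit 4112), (nat_lit 4113), (nat_lit 4352), (nat_lit 4353), (nat_lit 4368), (nat_lit 4369), (nat_lit 4385), (nat_lit 65536), (nat_lit 65537), (nat_lit 65552), (nat_lit 65553), (nat_lit 65792), (nat_lit 65793), (nat_lit 65808), (nat_lit 65809), (nat_lit 65810), (nat_lit 69632), (nat_lit 69633), (nat_lit 69648), (nat_lit 69649), (nat_lit 69888), (nat_lit 69889), (nat_lit 69904), (nat_lit 70160), (nat_lit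 73985), (nat_lit 135185)], [(nat_lit 1), (nb (nat_lit 1) (nat_lit 3648) (nb (nat_lit 5) (nat_lit 2432) (nb (nat_lit 4) (nat_lit 1216) (nat_lit 1)))), (nat_lit 0)], (nat_lit 1), (nat_lit 0)⟩, ⟨[(nat_lit 1), (nat_lit 16), (nat_lit 17), (nat_lit 256), (nat_lit 257), (nat_lit 272), (nat_lit 273), (nat_lit 4096), (nat_lit 4097), (nat_lit 4112), (nat_lit 4113), (nat_lit 4352), (nat_lit 4353), (nat_lit 4368), (nat_lit 4369), (nat_lit 4625), (nat_lit 65536), (nat_lit 65537), (nat_lit 65552), (nat_lit 65553), (nat_lit 65792), (nat_lit 65793), (nat_lit 65808), (nat_lit 65809), (nat_lit 65825), (nat_lit 69632), (nat_lit 69633), (nat_lit 69648), (nat_lit 69649), (nat_lit 69650), (nat_lit 69888), (nat_lit 69889), (nat_lit 69904), (nat_lit 74000), (nat_lit 135425)], [(nat_lit 1), (nb (nat_lit 1) (nat_lit 3648) (nat_lit 0)), (nb (nat_lit 2) (nat_lit 2432) (nb (nat_lit 3) (nat_lit 1216) (nat_lit 1)))], (nat_lit 1), (nat_lit 0)⟩, ⟨[(nat_lit 1), (nat_lit 16), (nat_lit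 17), (nat_lit 256), (nat_lit 257), (nat_lit 272), (nat_lit 273), (nat_lit 4096), (nat_lit 4097), (nat_lit 4112), (nat_lit 4113), (nat_lit 4352), (nat_lit 4353), (nat_lit 4368), (nat_lit 4369), (nat_lit 8465), (nat_lit 65536), (nat_lit 65537), (nat_lit 65552), (nat_lit 65553), (nat_lit 65792), (nat_lit 65793), (nat_lit 65808), (nat_lit 65809), (nat_lit 66065), (nat_lit 69632), (nat_lit 69633), (nat_lit 69648), (nat_lit 69649), (nat_lit 69665), (nat_lit 69888), (nat_lit 69889), (nat_lit 69890), (nat_lit 69904), (nat_lit 135440)], [(nat_lit 1), (nb (nat_lit 1) (nat_lit 3648) (nb (nat_lit 1) (nat_lit 2432) (nb (nat_lit 2) (nat_lit 1216) (nat_lit 1)))), (nat_lit 0)], (nat_lit 1), (nat_lit 0)⟩]⟩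
def f239 : Fc := ⟨true, ⟨[[e252, e253, e254, e255, e256, e55, e56, e57, e58, e59], [e10, e11, e12, e13, e14, e75, e76, e77, e78, e79], [e15, e16, e17, e18, e19]], [], [], (nat_lit 25), (nat_lit 0xfffff003fffffff), (nat_lit 0), (nat_lit 10), (nat_lit 4)⟩, [⟨(nat_lit 4369), (nat_lit 0)⟩], ⟨(nat_lit 0x39aa40000), [], [⟨(nb (nat_lit 1) (nat_lit 1216) (nat_lit 0)), (nat_lit 0), (nat_lit 1), (nat_lit 3)⟩], true⟩, []⟩
def f240 : Fc := ⟨true, ⟨[[e252, e253, e254, e255, e256, e55, e56, e57, e58, e59], [e10, e11, e12, e13, e14, e75, e76, e77, e78, e79], [e15, e16, e17, e18, e19]], [], [], (nat_lit 25), (nat_lit 0xfffff003fffffff), (nat_lit 0), (nat_lit 10), (nat_lit 4)⟩, [⟨(nat_lit 529), (nat_lit 0)⟩, ⟨(nat_lit 769), (nat_lit 0)⟩, ⟨(nat_lit 4369), (nat_lit 0)⟩], ⟨(nat_lit 0x39aa40000), [], [], true⟩, []⟩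
def f241 : Fc := ⟨true, ⟨[[e10, e11, e12, e13, e14, e75, e76, e77, e78, e79], [e15, e16, e17, e18, e19]], [e59, e58, e57, e56, e55, e256, e255, e254, e253, e252], [], (nat_lit 25), (nat_lit 0xfffff003fffffff), (nat_lit 0), (nat_lit 10), (nat_lit 3)⟩, [⟨(nat_lit 4113), (nat_lit 0)⟩], ⟨(nat_lit 0x39aa40000), [], [], true⟩, []⟩
def f242 : Fc := ⟨true, ⟨[[e10, e11, e12, e13, e14, e75, e76, e77, e78, e79], [e15, e16, e17, e18, e19]], [e256, e255, e254, e253, e252], [], (nat_lit 20), (nat_lit 0x3ff003fffffff), (nat_lit 0), (nat_lit 15), (nat_lit 3)⟩, [⟨(nat_lit 513), (nat_lit 0)⟩, ⟨(nat_lit 4113), (nat_lit 0)⟩], ⟨(nat_lit 0x39aa40000), [], [], true⟩, []⟩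
def f243 : Fc := ⟨true, ⟨[[e40, e41, e42, e43, e44, e25, e26, e27, e28, e29], [e10, e11, e12, e13, e14, e75, e76, e77, e78, e79], [e15, e16, e17, e18, e19]], [], [], (nat_lit 25), (nat_lit 0xfffff003fffffff), (nat_lit 0), (nat_lit 10), (nat_lit 4)⟩, [⟨(nat_lit 4369), (nat_lit 0)⟩], ⟨(nat_lit 262144), [], [], true⟩, []⟩
def f244 : Fc := ⟨true, ⟨[[e145, e146, e147, e148, e149], [e1230, e1231, e1232, e1233, e1234, e155, e156, e157, e158, e159], [e160, e161, e162, e163, e164, e165, e166, e167, e168, e169], [e15, e16, e17, e18, e19]], [], [], (nat_lit 30), (nat_lit 0x3fffffff003fffffff), (nat_lit 0), (nat_lit 5), (nat_lit 5)⟩, [], ⟨(nat_lit 262144), [], [], true⟩, []⟩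
def f245 : Fc := ⟨true, ⟨[[e1235, e1236, e1237, e1238, e1239], [e40, e41, e42, e43, e44, e170, e171, e172, e173, e174], [e10, e11, e12, e13, e14, e75, e76, e77, e78, e79], [e15, e16, e17, e18, e19]], [], [], (nat_lit 30), (nat_lit 0x3fffffff003fffffff), (nat_lit 0), (nat_lit 5), (nat_lit 5)⟩, [], ⟨(nat_lit 0x39aa40000), [], [], true⟩, []⟩
def f246 : Fc := ⟨true, ⟨[[e40, e41, e42, e43, e44, e170, e171, e172, e173, e174], [e10, e11, e12, e13, e14, e75, e76, e77, e78, e79], [e15, e16, e17, e18, e19]], [], [], (nat_lit 25), (nat_lit 0xfffff003fffffff), (nat_lit 0), (nat_lit 10), (nat_lit 4)⟩, [], ⟨(nat_lit 0x39aa40000), [], [], true⟩, []⟩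
def f247 : Fc := ⟨true, ⟨[[e10, e11, e12, e13, e14, e75, e76, e77, e78, e79], [e15, e16, e17, e18, e19]], [e44, e43, e42, e41, e40], [], (nat_lit 20), (nat_lit 0x3ff003fffffff), (nat_lit 0), (nat_lit 15), (nat_lit 3)⟩, [⟨(nat_lit 513), (nat_lit 0)⟩, ⟨(nat_lit 4113), (nat_lit 0)⟩], ⟨(nat_lit 262144), [], [], true⟩, []⟩
def f248 : Fc := ⟨true, ⟨[[e40, e41, e42, e43, e44, e1240, e1241, e1242, e1243, e1244], [e10, e11, e12, e13, e14, e75, e76, e77, e78, e79], [e15, e16, e17, e18, e19]], [], [], (nat_lit 25), (nat_lit 0xfffff003fffffff), (nat_lit 0), (nat_lit 10), (nat_lit 4)⟩, [⟨(nat_lit 4369), (nat_lit 0)⟩], ⟨(nat_lit 0x39aa40000), [], [⟨(nb (nat_lit 1) (nat_lit 1216) (nat_lit 0)), (nat_lit 0), (nat_lit 1), (nat_lit 3)⟩], true⟩, []⟩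
def f249 : Fc := ⟨true, ⟨[[e40, e41, e42, e43, e44, e1240, e1241, e1242, e1243, e1244], [e10, e11, e12, e13, e14, e75, e76, e77, e78, e79], [e15, e16, e17, e18, e19]], [], [], (nat_lit 25), (nat_lit 0xfffff003fffffff), (nat_lit 0), (nat_lit 10), (nat_lit 4)⟩, [⟨(nat_lit 274), (nat_lit 0)⟩, ⟨(nat_lit 529), (nat_lit 0)⟩, ⟨(nat_lit 289), (nat_lit 0)⟩, ⟨(nat_lit 4369), (nat_lit 0)⟩], ⟨(nat_lit 0x39aa40000), [], [], true⟩, []⟩
def f250 : Fc := ⟨true, ⟨[[e40, e41, e42, e43, e44, e1240, e1241, e1242, e1243, e1244], [e10, e11, e12, e13, e14, e75, e76, e77, e78, e79], [e15, e16, e17, e18, e19]], [], [], (nat_lit 25), (nat_lit 0xfffff003fffffff), (nat_lit 0), (nat_lit 10), (nat_lit 4)⟩, [], ⟨(nat_lit 0x39aa40000), [], [], true⟩, []⟩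
def f251 : Fc := ⟨true, ⟨[[e10, e11, e12, e13, e14, e75, e76, e77, e78, e79], [e15, e16, e17, e18, e19]], [e1244, e1243, e1242, e1241, e1240, e44, e43, e42, e41, e40], [], (nat_lit 25), (nat_lit 0xfffff003fffffff), (nat_lit 0), (nat_lit 10), (nat_lit 3)⟩, [⟨(nat_lit 4113), (nat_lit 0)⟩], ⟨(nat_lit 0x39aa40000), [], [], true⟩, []⟩
def f252 : Fc := ⟨true, ⟨[[e40, e41, e42, e43, e44, e1240, e1241, e1242, e1243, e1244, e1245, e1246, e1247, e1248, e1249], [e10, e11, e12, e13, e14, e75, e76, e77, e78, e79], [e15, e16, e17, e18, e19]], [], [], (nat_lit 30), (nat_lit 0x3fffffff003fffffff), (nat_lit 0), (nat_lit 5), (nat_lit 4)⟩, [], ⟨(nat_lit 0x39aa40000), [], [], true⟩, []⟩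
def f253 : Fc := ⟨true, ⟨[[e10, e11, e12, e13, e14, e75, e76, e77, e78, e79], [e15, e16, e17, e18, e19]], [e44, e43, e42, e41, e40], [], (nat_lit 20), (nat_lit 0x3ff003fffffff), (nat_lit 0), (nat_lit 15), (nat_lit 3)⟩, [⟨(nat_lit 273), (nat_lit 0)⟩, ⟨(nat_lit 513), (nat_lit 0)⟩, ⟨(nat_lit 4113), (nat_lit 0)⟩], ⟨(nat_lit 262144), [], [], true⟩, []⟩
def f254 : Fc := ⟨true, ⟨[[e10, e11, e12, e13, e14, e75, e76, e77, e78, e79], [e15, e16, e17, e18, e19]], [], [], (nat_lit 15), (nat_lit 0x3fffffff), (nat_lit 0), (nat_lit 20), (nat_lit 3)⟩, [⟨(nat_lit 258), (nat_lit 0)⟩, ⟨(nat_lit 513), (nat_lit 0)⟩, ⟨(nat_lit 273), (nat_lit 0)⟩, ⟨(nat_lit 4113), (nat_lit 0)⟩], ⟨(nat_lit 262144), [], [], true⟩, []⟩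
def f255 : Fc := ⟨true, ⟨[[e80, e81, e82, e83, e84, e25, e26, e27, e28, e29], [e10, e11, e12, e13, e14, e75, e76, e77, e78, e79], [e15, e16, e17, e18, e19]], [], [], (nat_lit 25), (nat_lit 0xfffff003fffffff), (nat_lit 0), (nat_lit 10), (nat_lit 4)⟩, [⟨(nat_lit 4369), (nat_lit 0)⟩], ⟨(nat_lit 262144), [], [], true⟩, []⟩
def f256 : Fc := ⟨true, ⟨[[e80, e81, e82, e83, e84, e170, e171, e172, e173, e174], [e10, e11, e12, e13, e14, e75, e76, e77, e78, e79], [e15, e16, e17, e18, e19]], [], [], (nat_lit 25), (nat_lit 0xfffff003fffffff), (nat_lit 0), (nat_lit 10), (nat_lit 4)⟩, [⟨(nat_lit 4129), (nat_lit 0)⟩, ⟨(nat_lit 4354), (nat_lit 0)⟩, ⟨(nat_lit 4369), (nat_lit 0)⟩], ⟨(nat_lit 0x39aa40000), [], [], true⟩, []⟩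
def f257 : Fc := ⟨true, ⟨[[e80, e81, e82, e83, e84, e170, e171, e172, e173, e174], [e10, e11, e12, e13, e14, e75, e76, e77, e78, e79], [e15, e16, e17, e18, e19]], [], [], (nat_lit 25), (nat_lit 0xfffff003fffffff), (nat_lit 0), (nat_lit 10), (nat_lit 4)⟩, [], ⟨(nat_lit 0x39aa40000), [], [], true⟩, []⟩
def f258 : Fc := ⟨true, ⟨[[e10, e11, e12, e13, e14, e75, e76, e77, e78, e79], [e15, e16, e17, e18, e19]], [e84, e83, e82, e81, e80], [], (nat_lit 20), (nat_lit 0x3ff003fffffff), (nat_lit 0), (nat_lit 15), (nat_lit 3)⟩, [⟨(nat_lit 513), (nat_lit 0)⟩, ⟨(nat_lit 4113), (nat_lit 0)⟩], ⟨(nat_lit 262144), [], [], true⟩, []⟩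
def f259 : Fc := ⟨true, ⟨[[e10, e11, e12, e13, e14, e75, e76, e77, e78, e79], [e15, e16, e17, e18, e19]], [e1250, e1251, e1252, e1253, e1254, e84, e83, e82, e81, e80], [], (nat_lit 25), (nat_lit 0xfffff003fffffff), (nat_lit 0), (nat_lit 10), (nat_lit 3)⟩, [⟨(nat_lit 4113), (nat_lit 0)⟩], ⟨(nat_lit 262144), [], [], true⟩, []⟩
def f260 : Fc := ⟨true, ⟨[[e80, e81, e82, e83, e84, e1240, e1241, e1242, e1243, e1244], [e10, e11, e12, e13, e14, e75, e76, e77, e78, e79], [e15, e16, e17, e18, e19]], [], [], (nat_lit 25), (nat_lit 0xfffff003fffffff), (nat_lit 0), (nat_lit 10), (nat_lit 4)⟩, [⟨(nat_lit 4369), (nat_lit 0)⟩], ⟨(nat_lit 0x39aa40000), [], [⟨(nb (nat_lit 1) (nat_lit 1216) (nat_lit 0)), (nat_lit 0), (nat_lit 1), (nat_lit 3)⟩], true⟩, []⟩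
def f261 : Fc := ⟨true, ⟨[[e80, e81, e82, e83, e84, e1240, e1241, e1242, e1243, e1244], [e10, e11, e12, e13, e14, e75, e76, e77, e78, e79], [e15, e16, e17, e18, e19]], [], [], (nat_lit 25), (nat_lit 0xfffff003fffffff), (nat_lit 0), (nat_lit 10), (nat_lit 4)⟩, [⟨(nat_lit 529), (nat_lit 0)⟩, ⟨(nat_lit 4369), (nat_lit 0)⟩], ⟨(nat_lit 0x39aa40000), [], [], true⟩, []⟩
def f262 : Fc := ⟨true, ⟨[[e80, e81, e82, e83, e84, e1240, e1241, e1242, e1243, e1244], [e10, e11, e12, e13, e14, e75, e76, e77, e78, e79], [e15, e16, e17, e18, e19]], [], [], (nat_lit 25), (nat_lit 0xfffff003fffffff), (nat_lit 0), (nat_lit 10), (nat_lit 4)⟩, [⟨(nat_lit 289), (nat_lit 0)⟩, ⟨(nat_lit 4369), (nat_lit 0)⟩, ⟨(nat_lit 529), (nat_lit 0)⟩], ⟨(nat_lit 0x39aa40000), [], [], true⟩, []⟩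
def f263 : Fc := ⟨true, ⟨[[e80, e81, e82, e83, e84, e1240, e1241, e1242, e1243, e1244], [e10, e11, e12, e13, e14, e75, e76, e77, e78, e79], [e15, e16, e17, e18, e19]], [], [], (nat_lit 25), (nat_lit 0xfffff003fffffff), (nat_lit 0), (nat_lit 10), (nat_lit 4)⟩, [], ⟨(nat_lit 0x39aa40000), [], [], true⟩, []⟩
def f264 : Fc := ⟨true, ⟨[[e10, e11, e12, e13, e14, e75, e76, e77, e78, e79], [e15, e16, e17, e18, e19]], [e1244, e1243, e1242, e1241, e1240, e84, e83, e82, e81, e80], [], (nat_lit 25), (nat_lit 0xfffff003fffffff), (nat_lit 0), (nat_lit 10), (nat_lit 3)⟩, [⟨(nat_lit 4113), (nat_lit 0)⟩], ⟨(nat_lit 0x39aa40000), [], [], true⟩, []⟩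
def f265 : Fc := ⟨true, ⟨[[e10, e11, e12, e13, e14, e75, e76, e77, e78, e79], [e15, e16, e17, e18, e19]], [e84, e83, e82, e81, e80], [], (nat_lit 20), (nat_lit 0x3ff003fffffff), (nat_lit 0), (nat_lit 15), (nat_lit 3)⟩, [⟨(nat_lit 273), (nat_lit 0)⟩, ⟨(nat_lit 513), (nat_lit 0)⟩, ⟨(nat_lit 4113), (nat_lit 0)⟩], ⟨(nat_lit 262144), [], [], true⟩, []⟩
def f266 : Fc := ⟨true, ⟨[[e10, e11, e12, e13, e14, e75, e76, e77, e78, e79], [e15, e16, e17, e18, e19]], [e1255, e1256, e1257, e1258, e1259, e84, e83, e82, e81, e80], [], (nat_lit 25), (nat_lit 0xfffff003fffffff), (nat_lit 0), (nat_lit 10), (nat_lit 3)⟩, [⟨(nat_lit 273), (nat_lit 0)⟩, ⟨(nat_lit 513), (nat_lit 0)⟩, ⟨(nat_lit 4113), (nat_lit 0)⟩], ⟨(nat_lit 262144), [], [], true⟩, []⟩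
def f267 : Fc := ⟨true, ⟨[[e10, e11, e12, e13, e14, e75, e76, e77, e78, e79], [e15, e16, e17, e18, e19]], [e84, e83, e82, e81, e80], [], (nat_lit 20), (nat_lit 0x3ff003fffffff), (nat_lit 0), (nat_lit 15), (nat_lit 3)⟩, [⟨(nat_lit 258), (nat_lit 0)⟩, ⟨(nat_lit 513), (nat_lit 0)⟩, ⟨(nat_lit 273), (nat_lit 0)⟩, ⟨(nat_lit 4113), (nat_lit 0)⟩], ⟨(nat_lit 262144), [], [], true⟩, []⟩
def f268 : Fc := ⟨true, ⟨[[e10, e11, e12, e13, e14, e75, e76, e77, e78, e79], [e15, e16, e17, e18, e19]], [], [], (nat_lit 15), (nat_lit 0x3fffffff), (nat_lit 0), (nat_lit 20), (nat_lit 3)⟩, [⟨(nat_lit 33), (nat_lit 0)⟩, ⟨(nat_lit 513), (nat_lit 0)⟩, ⟨(nat_lit 273), (nat_lit 0)⟩, ⟨(nat_lit 258), (nat_lit 0)⟩, ⟨(nat_lit 4113), (nat_lit 0)⟩], ⟨(nat_lit 262144), [], [], true⟩, []⟩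
def f269 : Fc := ⟨true, ⟨[[e105, e106, e107, e108, e109, e25, e26, e27, e28, e29], [e10, e11, e12, e13, e14, e75, e76, e77, e78, e79], [e15, e16, e17, e18, e19]], [], [], (nat_lit 25), (nat_lit 0xfffff003fffffff), (nat_lit 0), (nat_lit 10), (nat_lit 4)⟩, [⟨(nat_lit 4369), (nat_lit 0)⟩], ⟨(nat_lit 262144), [], [], true⟩, []⟩
def f270 : Fc := ⟨true, ⟨[[e105, e106, e107, e108, e109, e170, e171, e172, e173, e174], [e10, e11, e12, e13, e14, e75, e76, e77, e78, e79], [e15, e16, e17, e18, e19]], [], [], (nat_lit 25), (nat_lit 0xfffff003fffffff), (nat_lit 0), (nat_lit 10), (nat_lit 4)⟩, [⟨(nat_lit 4114), (nat_lit 0)⟩, ⟨(nat_lit 4354), (nat_lit 0)⟩, ⟨(nat_lit 4129), (nat_lit 0)⟩, ⟨(nat_lit 4369), (nat_lit 0)⟩], ⟨(nat_lit 0x39aa40000), [], [], true⟩, []⟩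
def f271 : Fc := ⟨true, ⟨[[e105, e106, e107, e108, e109, e170, e171, e172, e173, e174], [e10, e11, e12, e13, e14, e75, e76, e77, e78, e79], [e15, e16, e17, e18, e19]], [], [], (nat_lit 25), (nat_lit 0xfffff003fffffff), (nat_lit 0), (nat_lit 10), (nat_lit 4)⟩, [], ⟨(nat_lit 0x39aa40000), [], [], true⟩, []⟩
def f272 : Fc := ⟨true, ⟨[[e10, e11, e12, e13, e14, e75, e76, e77, e78, e79], [e15, e16, e17, e18, e19]], [e109, e108, e107, e106, e105], [], (nat_lit 20), (nat_lit 0x3ff003fffffff), (nat_lit 0), (nat_lit 15), (nat_lit 3)⟩, [⟨(nat_lit 513), (nat_lit 0)⟩, ⟨(nat_lit 4113), (nat_lit 0)⟩], ⟨(nat_lit 262144), [], [], true⟩, []⟩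
def f273 : Fc := ⟨true, ⟨[[e10, e11, e12, e13, e14, e75, e76, e77, e78, e79], [e15, e16, e17, e18, e19]], [e1250, e1251, e1252, e1253, e1254, e109, e108, e107, e106, e105], [], (nat_lit 25), (nat_lit 0xfffff003fffffff), (nat_lit 0), (nat_lit 10), (nat_lit 3)⟩, [⟨(nat_lit 4113), (nat_lit 0)⟩], ⟨(nat_lit 262144), [], [], true⟩, []⟩
def f274 : Fc := ⟨true, ⟨[[e105, e106, e107, e108, e109, e1240, e1241, e1242, e1243, e1244], [e10, e11, e12, e13, e14, e75, e76, e77, e78, e79], [e15, e16, e17, e18, e19]], [], [], (nat_lit 25), (nat_lit 0xfffff003fffffff), (nat_lit 0), (nat_lit 10), (nat_lit 4)⟩, [⟨(nat_lit 4369), (nat_lit 0)⟩], ⟨(nat_lit 0x39aa40000), [], [⟨(nb (nat_lit 1) (nat_lit 1216) (nat_lit 0)), (nat_lit 0), (nat_lit 1), (nat_lit 3)⟩], true⟩, []⟩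
def f275 : Fc := ⟨true, ⟨[[e105, e106, e107, e108, e109, e1240, e1241, e1242, e1243, e1244], [e10, e11, e12, e13, e14, e75, e76, e77, e78, e79], [e15, e16, e17, e18, e19]], [], [], (nat_lit 25), (nat_lit 0xfffff003fffffff), (nat_lit 0), (nat_lit 10), (nat_lit 4)⟩, [⟨(nat_lit 289), (nat_lit 0)⟩, ⟨(nat_lit 529), (nat_lit 0)⟩, ⟨(nat_lit 4369), (nat_lit 0)⟩], ⟨(nat_lit 0x39aa40000), [], [], true⟩, []⟩
def f276 : Fc := ⟨true, ⟨[[e105, e106, e107, e108, e109, e1240, e1241, e1242, e1243, e1244], [e10, e11, e12, e13, e14, e75, e76, e77, e78, e79], [e15, e16, e17, e18, e19]], [], [], (nat_lit 25), (nat_lit 0xfffff003fffffff), (nat_lit 0), (nat_lit 10), (nat_lit 4)⟩, [⟨(nat_lit 274), (nat_lit 0)⟩, ⟨(nat_lit 529), (nat_lit 0)⟩, ⟨(nat_lit 4369), (nat_lit 0)⟩, ⟨(nat_lit 289), (nat_lit 0)⟩], ⟨(nat_lit 0x39aa40000), [], [], true⟩, []⟩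
def f277 : Fc := ⟨true, ⟨[[e105, e106, e107, e108, e109, e1240, e1241, e1242, e1243, e1244], [e10, e11, e12, e13, e14, e75, e76, e77, e78, e79], [e15, e16, e17, e18, e19]], [], [], (nat_lit 25), (nat_lit 0xfffff003fffffff), (nat_lit 0), (nat_lit 10), (nat_lit 4)⟩, [], ⟨(nat_lit 0x39aa40000), [], [], true⟩, []⟩
def f278 : Fc := ⟨true, ⟨[[e10, e11, e12, e13, e14, e75, e76, e77, e78, e79], [e15, e16, e17, e18, e19]], [e1244, e1243, e1242, e1241, e1240, e109, e108, e107, e106, e105], [], (nat_lit 25), (nat_lit 0xfffff003fffffff), (nat_lit 0), (nat_lit 10), (nat_lit 3)⟩, [⟨(nat_lit 4113), (nat_lit 0)⟩], ⟨(nat_lit 0x39aa40000), [], [], true⟩, []⟩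
def f279 : Fc := ⟨true, ⟨[[e10, e11, e12, e13, e14, e75, e76, e77, e78, e79], [e15, e16, e17, e18, e19]], [e109, e108, e107, e106, e105], [], (nat_lit 20), (nat_lit 0x3ff003fffffff), (nat_lit 0), (nat_lit 15), (nat_lit 3)⟩, [⟨(nat_lit 273), (nat_lit 0)⟩, ⟨(nat_lit 513), (nat_lit 0)⟩, ⟨(nat_lit 4113), (nat_lit 0)⟩], ⟨(nat_lit 262144), [], [], true⟩, []⟩
def f280 : Fc := ⟨true, ⟨[[e10, e11, e12, e13, e14, e75, e76, e77, e78, e79], [e15, e16, e17, e18, e19]], [e1255, e1256, e1257, e1258, e1259, e109, e108, e107, e106, e105], [], (nat_lit 25), (nat_lit 0xfffff003fffffff), (nat_lit 0), (nat_lit 10), (nat_lit 3)⟩, [⟨(nat_lit 273), (nat_lit 0)⟩, ⟨(nat_lit 513), (nat_lit 0)⟩, ⟨(nat_lit 4113), (nat_lit 0)⟩], ⟨(nat_lit 262144), [], [], true⟩, []⟩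
def f281 : Fc := ⟨true, ⟨[[e10, e11, e12, e13, e14, e75, e76, e77, e78, e79], [e15, e16, e17, e18, e19]], [e109, e108, e107, e106, e105], [], (nat_lit 20), (nat_lit 0x3ff003fffffff), (nat_lit 0), (nat_lit 15), (nat_lit 3)⟩, [⟨(nat_lit 258), (nat_lit 0)⟩, ⟨(nat_lit 513), (nat_lit 0)⟩, ⟨(nat_lit 273), (nat_lit 0)⟩, ⟨(nat_lit 4113), (nat_lit 0)⟩], ⟨(nat_lit 262144), [], [], true⟩, []⟩
def f282 : Fc := ⟨true, ⟨[[e105, e106, e107, e108, e109, e120, e121, e122, e123, e124], [e10, e11, e12, e13, e14, e75, e76, e77, e78, e79], [e15, e16, e17, e18, e19]], [], [], (nat_lit 25), (nat_lit 0xfffff003fffffff), (nat_lit 0), (nat_lit 10), (nat_lit 4)⟩, [], ⟨(nat_lit 262144), [], [], true⟩, []⟩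
def f283 : Fc := ⟨true, ⟨[[e10, e11, e12, e13, e14, e75, e76, e77, e78, e79], [e15, e16, e17, e18, e19]], [e124, e123, e122, e121, e120, e109, e108, e107, e106, e105], [], (nat_lit 25), (nat_lit 0xfffff003fffffff), (nat_lit 0), (nat_lit 10), (nat_lit 3)⟩, [⟨(nat_lit 273), (nat_lit 0)⟩, ⟨(nat_lit 513), (nat_lit 0)⟩, ⟨(nat_lit 4113), (nat_lit 0)⟩], ⟨(nat_lit 262144), [], [], true⟩, []⟩
def f284 : Fc := ⟨true, ⟨[[e10, e11, e12, e13, e14, e75, e76, e77, e78, e79], [e15, e16, e17, e18, e19]], [e109, e108, e107, e106, e105], [], (nat_lit 20), (nat_lit 0x3ff003fffffff), (nat_lit 0), (nat_lit 15), (nat_lit 3)⟩, [⟨(nat_lit 33), (nat_lit 0)⟩, ⟨(nat_lit 513), (nat_lit 0)⟩, ⟨(nat_lit 273), (nat_lit 0)⟩, ⟨(nat_lit 258), (nat_lit 0)⟩, ⟨(nat_lit 4113), (nat_lit 0)⟩], ⟨(nat_lit 262144), [], [], true⟩, []⟩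
def f285 : Fc := ⟨true, ⟨[[e10, e11, e12, e13, e14, e75, e76, e77, e78, e79], [e15, e16, e17, e18, e19]], [], [], (nat_lit 15), (nat_lit 0x3fffffff), (nat_lit 0), (nat_lit 20), (nat_lit 3)⟩, [⟨(nat_lit 18), (nat_lit 0)⟩, ⟨(nat_lit 33), (nat_lit 0)⟩, ⟨(nat_lit 513), (nat_lit 0)⟩, ⟨(nat_lit 273), (nat_lit 0)⟩, ⟨(nat_lit 258), (nat_lit 0)⟩, ⟨(nat_lit 4113), (nat_lit 0)⟩], ⟨(nat_lit 262144), [], [], true⟩, []⟩
def f286 : Fc := ⟨true, ⟨[[e10, e11, e12, e13, e14, e75, e76, e77, e78, e79], [e15, e16, e17, e18, e19]], [], [], (nat_lit 15), (nat_lit 0x3fffffff), (nat_lit 0), (nat_lit 20), (nat_lit 3)⟩, [], ⟨(nat_lit 262144), [], [], true⟩, [⟨[(nat_lit 1), (nat_lit 16), (nat_lit 17), (nat_lit 256), (nat_lit 257), (nat_lit 272), (nat_lit 273), (nat_lit 4096), (nat_lit 4097), (nat_lit 4112), (nat_lit 4113), (nat_lit 4352), (nat_lit 4353), (nat_lit 4368), (nat_lit 4369), (nat_lit 8465), (nat_lit 65536), (nat_lit 65537), (nat_lit 65552), (nat_lit 65553), (nat_lit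 65792), (nat_lit 65793), (nat_lit 65808), (nat_lit 65809), (nat_lit 66065), (nat_lit 69632), (nat_lit 69633), (nat_lit 69648), (nat_lit 69649), (nat_lit 69665), (nat_lit 69888), (nat_lit 69889), (nat_lit 69890), (nat_lit 69904), (nat_lit 135440)], [(nat_lit 1), (nb (nat_lit 1) (nat_lit 3648) (nb (nat_lit 1) (nat_lit 2432) (nb (nat_lit 2) (nat_lit 1216) (nat_lit 1)))), (nat_lit 0)], (nat_lit 1), (nat_lit 0)⟩, ⟨[(nat_lit 1), (nat_lit 16), (nat_lit 17), (nat_lit 256), (nat_lit 257), (nat_lit 272), (nat_lit 273), (nat_lit 4096), (nat_lit 4097), (nat_lit 4112), (nat_lit 4113), (nat_lit 4352), (nat_lit 4353), (nat_lit 4368), (nat_lit 4369), (nat_lit 4625), (nat_lit 65536), (nat_lit 65537), (nat_lit 65552), (nat_lit 65553), (nat_lit 65792), (nat_lit 65793), (nat_lit 65808), (nat_lit 65809), (nat_lit 65825), (nat_lit 69632), (nat_lit 69633), (nat_lit 69648), (nat_lit 69649), (nat_lit 69650), (nat_lit 69888), (nat_lit 69889), (nat_lit 69904), (nat_lit 74000),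 (nat_lit 135425)], [(nat_lit 1), (nb (nat_lit 1) (nat_lit 3648) (nat_lit 0)), (nb (nat_lit 2) (nat_lit 2432) (nb (nat_lit 3) (nat_lit 1216) (nat_lit 1)))], (nat_lit 1), (nat_lit 0)⟩, ⟨[(nat_lit 1), (nat_lit 16), (nat_lit 17), (nat_lit 256), (nat_lit 257), (nat_lit 272), (nat_lit 273), (nat_lit 4096), (nat_lit 4097), (nat_lit 4112), (nat_lit 4113), (nat_lit 4352), (nat_lit 4353), (nat_lit 4368), (nat_lit 4369), (nat_lit 4385), (nat_lit 65536), (nat_lit 65537), (nat_lit 65552), (nat_lit 65553), (nat_lit 65792), (nat_lit 65793), (nat_lit 65808), (nat_lit 65809), (nat_lit 65810), (nat_lit 69632), (nat_lit 69633), (nat_lit 69648), (nat_lit 69649), (nat_lit 69888), (nat_lit 69889), (nat_lit 69904), (nat_lit 70160), (nat_lit 73985), (nat_lit 135185)], [(nat_lit 1), (nb (nat_lit 1) (nat_lit 3648) (nb (nat_lit 5) (nat_lit 2432) (nb (nat_lit 4) (nat_lit 1216) (nat_lit 1)))), (nat_lit 0)], (nat_lit 1), (nat_lit 0)⟩, ⟨[(nat_lit 1), (nat_lit 16), (nat_lit 17),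 (nat_lit 256), (nat_lit 257), (nat_lit 272), (nat_lit 273), (nat_lit 4096), (nat_lit 4097), (nat_lit 4112), (nat_lit 4113), (nat_lit 4352), (nat_lit 4353), (nat_lit 4368), (nat_lit 4369), (nat_lit 4370), (nat_lit 65536), (nat_lit 65537), (nat_lit 65552), (nat_lit 65553), (nat_lit 65792), (nat_lit 65793), (nat_lit 65808), (nat_lit 65809), (nat_lit 69632), (nat_lit 69633), (nat_lit 69648), (nat_lit 69649), (nat_lit 69888), (nat_lit 69889), (nat_lit 69904), (nat_lit 69920), (nat_lit 70145), (nat_lit 73745), (nat_lit 131345)], [(nat_lit 1), (nb (nat_lit 1) (nat_lit 3648) (nb (nat_lit 2) (nat_lit 2432) (nb (nat_lit 3) (nat_lit 1216) (nat_lit 1)))), (nat_lit 0)], (nat_lit 1), (nat_lit 0)⟩]⟩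
def f287 : Fc := ⟨true, ⟨[[e15, e16, e17, e18, e19]], [], [], (nat_lit 5), (nat_lit 1023), (nat_lit 0), (nat_lit 30), (nat_lit 2)⟩, [], ⟨(nat_lit 262144), [], [], true⟩, [⟨[(nat_lit 1), (nat_lit 16), (nat_lit 17), (nat_lit 256), (nat_lit 257), (nat_lit 272), (nat_lit 273), (nat_lit 4096), (nat_lit 4097), (nat_lit 4112), (nat_lit 4113), (nat_lit 4352), (nat_lit 4353), (nat_lit 4368), (nat_lit 4369), (nat_lit 4370), (nat_lit 65536), (nat_lit 65537), (nat_lit 65552), (nat_lit 65553), (nat_lit 65792), (nat_lit 65793), (nat_lit 65808), (nat_lit 65809), (nat_lit 69632), (nat_lit 69633), (nat_lit 69648), (nat_lit 69649), (nat_lit 69888), (nat_lit 69889), (nat_lit 69904), (nat_lit 69920), (nat_lit 70145), (nat_lit 73745), (nat_lit 131345)], [(nat_lit 1), (nb (nat_lit 1) (nat_lit 3648) (nb (nat_lit 2) (nat_lit 2432) (nb (nat_lit 3) (nat_lit 1216) (nat_lit 1)))), (nat_lit 0)], (nat_lit 1), (nat_lit 0)⟩, ⟨[(nat_lit 1), (nat_lit 16), (nat_lit 17), (nat_lit 256),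 (nat_lit 257), (nat_lit 272), (nat_lit 273), (nat_lit 4096), (nat_lit 4097), (nat_lit 4112), (nat_lit 4113), (nat_lit 4352), (nat_lit 4353), (nat_lit 4368), (nat_lit 4369), (nat_lit 4385), (nat_lit 65536), (nat_lit 65537), (nat_lit 65552), (nat_lit 65553), (nat_lit 65792), (nat_lit 65793), (nat_lit 65808), (nat_lit 65809), (nat_lit 65810), (nat_lit 69632), (nat_lit 69633), (nat_lit 69648), (nat_lit 69649), (nat_lit 69888), (nat_lit 69889), (nat_lit 69904), (nat_lit 70160), (nat_lit 73985), (nat_lit 135185)], [(nat_lit 1), (nb (nat_lit 1) (nat_lit 3648) (nb (nat_lit 5) (nat_lit 2432) (nb (nat_lit 4) (nat_lit 1216) (nat_lit 1)))), (nat_lit 0)], (nat_lit 1), (nat_lit 0)⟩, ⟨[(nat_lit 1), (nat_lit 16), (nat_lit 17), (nat_lit 256), (nat_lit 257), (nat_lit 272), (nat_lit 273), (nat_lit 4096), (nat_lit 4097), (nat_lit 4112), (nat_lit 4113), (nat_lit 4352), (nat_lit 4353), (nat_lit 4368), (nat_lit 4369), (nat_lit 4625), (nat_lit 65536), (nat_lit 65537), (nat_lit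 65552), (nat_lit 65553), (nat_lit 65792), (nat_lit 65793), (nat_lit 65808), (nat_lit 65809), (nat_lit 65825), (nat_lit 69632), (nat_lit 69633), (nat_lit 69648), (nat_lit 69649), (nat_lit 69650), (nat_lit 69888), (nat_lit 69889), (nat_lit 69904), (nat_lit 74000), (nat_lit 135425)], [(nat_lit 1), (nb (nat_lit 1) (nat_lit 3648) (nat_lit 0)), (nb (nat_lit 2) (nat_lit 2432) (nb (nat_lit 3) (nat_lit 1216) (nat_lit 1)))], (nat_lit 1), (nat_lit 0)⟩, ⟨[(nat_lit 1), (nat_lit 16), (nat_lit 17), (nat_lit 256), (nat_lit 257), (nat_lit 272), (nat_lit 273), (nat_lit 4096), (nat_lit 4097), (nat_lit 4112), (nat_lit 4113), (nat_lit 4352), (nat_lit 4353), (nat_lit 4368), (nat_lit 4369), (nat_lit 8465), (nat_lit 65536), (nat_lit 65537), (nat_lit 65552), (nat_lit 65553), (nat_lit 65792), (nat_lit 65793), (nat_lit 65808), (nat_lit 65809), (nat_lit 66065), (nat_lit 69632), (nat_lit 69633), (nat_lit 69648), (nat_lit 69649), (nat_lit 69665), (nat_lit 69888), (nat_lit 69889),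 (nat_lit 69890), (nat_lit 69904), (nat_lit 135440)], [(nat_lit 1), (nb (nat_lit 1) (nat_lit 3648) (nb (nat_lit 1) (nat_lit 2432) (nb (nat_lit 2) (nat_lit 1216) (nat_lit 1)))), (nat_lit 0)], (nat_lit 1), (nat_lit 0)⟩]⟩
def f288 : Fc := ⟨true, ⟨[[e10, e11, e12, e13, e14], [e15, e16, e17, e18, e19]], [], [], (nat_lit 10), (nat_lit 0xfffff), (nat_lit 1), (nat_lit 15), (nat_lit 3)⟩, [], ⟨(nat_lit 262144), [], [], true⟩, []⟩
def f289 : Fc := ⟨true, ⟨[[e75, e76, e77, e78, e79], [e15, e16, e17, e18, e19]], [], [], (nat_lit 10), (nat_lit 0x3ff003ff), (nat_lit 1), (nat_lit 15), (nat_lit 3)⟩, [], ⟨(nat_lit 262144), [], [], true⟩, []⟩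
def f290 : Fc := ⟨true, ⟨[[e15, e16, e17, e18, e19]], [], [], (nat_lit 5), (nat_lit 1023), (nat_lit 1), (nat_lit 25), (nat_lit 2)⟩, [], ⟨(nat_lit 262144), [], [], true⟩, []⟩
def f291 : Fc := ⟨true, ⟨[[e15, e16, e17, e18, e19]], [], [], (nat_lit 5), (nat_lit 1023), (nat_lit 2), (nat_lit 20), (nat_lit 2)⟩, [], ⟨(nat_lit 262144), [], [], true⟩, []⟩
def f292 : Fc := ⟨true, ⟨[[e15, e16, e17, e18, e19]], [], [], (nat_lit 5), (nat_lit 1023), (nat_lit 3), (nat_lit 15), (nat_lit 2)⟩, [], ⟨(nat_lit 262144), [], [], true⟩, []⟩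
def f293 : Fc := ⟨true, ⟨[[e15, e16, e17, e18, e19]], [], [], (nat_lit 5), (nat_lit 1023), (nat_lit 4), (nat_lit 10), (nat_lit 2)⟩, [], ⟨(nat_lit 262144), [], [], true⟩, []⟩
def f294 : Fc := ⟨true, ⟨[], [], [], (nat_lit 0), (nat_lit 0), (nat_lit 35), (nat_lit 35), (nat_lit 1)⟩, [], ⟨(nat_lit 262144), [], [], true⟩, [⟨[(nat_lit 1), (nat_lit 16), (nat_lit 17), (nat_lit 256), (nat_lit 257), (nat_lit 272), (nat_lit 273), (nat_lit 4096), (nat_lit 4097), (nat_lit 4112), (nat_lit 4113), (nat_lit 4352), (nat_lit 4353), (nat_lit 4368), (nat_lit 4369), (nat_lit 8465), (nat_lit 65536), (nat_lit 65537), (nat_lit 65552), (nat_lit 65553), (nat_lit 65792), (nat_lit 65793), (nat_lit 65808), (nat_lit 65809), (nat_lit 66065), (nat_lit 69632), (nat_lit 69633), (nat_lit 69648), (nat_lit 69649), (nat_lit 69665), (nat_lit 69888), (nat_lit 69889), (nat_lit 69890), (nat_lit 69904), (nat_lit 135440)], [(nat_lit 1), (nb (nat_lit 1) (nat_lit 3648) (nb (nat_lit 1) (nat_lit 2432)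 (nb (nat_lit 2) (nat_lit 1216) (nat_lit 1)))), (nat_lit 0)], (nat_lit 1), (nat_lit 0)⟩, ⟨[(nat_lit 1), (nat_lit 16), (nat_lit 17), (nat_lit 256), (nat_lit 257), (nat_lit 272), (nat_lit 273), (nat_lit 4096), (nat_lit 4097), (nat_lit 4112), (nat_lit 4113), (nat_lit 4352), (nat_lit 4353), (nat_lit 4368), (nat_lit 4369), (nat_lit 4625), (nat_lit 65536), (nat_lit 65537), (nat_lit 65552), (nat_lit 65553), (nat_lit 65792), (nat_lit 65793), (nat_lit 65808), (nat_lit 65809), (nat_lit 65825), (nat_lit 69632), (nat_lit 69633), (nat_lit 69648), (nat_lit 69649), (nat_lit 69650), (nat_lit 69888), (nat_lit 69889), (nat_lit 69904), (nat_lit 74000), (nat_lit 135425)], [(nat_lit 1), (nb (nat_lit 1) (nat_lit 3648) (nat_lit 0)), (nb (nat_lit 2) (nat_lit 2432) (nb (nat_lit 3) (nat_lit 1216) (nat_lit 1)))], (nat_lit 1), (nat_lit 0)⟩, ⟨[(nat_lit 1), (nat_lit 16), (nat_lit 17), (nat_lit 256), (nat_lit 257), (nat_lit 272), (nat_lit 273), (nat_lit 4096), (nat_lit 4097), (nat_lit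 4112), (nat_lit 4113), (nat_lit 4352), (nat_lit 4353), (nat_lit 4368), (nat_lit 4369), (nat_lit 4385), (nat_lit 65536), (nat_lit 65537), (nat_lit 65552), (nat_lit 65553), (nat_lit 65792), (nat_lit 65793), (nat_lit 65808), (nat_lit 65809), (nat_lit 65810), (nat_lit 69632), (nat_lit 69633), (nat_lit 69648), (nat_lit 69649), (nat_lit 69888), (nat_lit 69889), (nat_lit 69904), (nat_lit 70160), (nat_lit 73985), (nat_lit 135185)], [(nat_lit 1), (nb (nat_lit 1) (nat_lit 3648) (nb (nat_lit 5) (nat_lit 2432) (nb (nat_lit 4) (nat_lit 1216) (nat_lit 1)))), (nat_lit 0)], (nat_lit 1), (nat_lit 0)⟩, ⟨[(nat_lit 1), (nat_lit 16), (nat_lit 17), (nat_lit 256), (nat_lit 257), (nat_lit 272), (nat_lit 273), (nat_lit 4096), (nat_lit 4097), (nat_lit 4112), (nat_lit 4113), (nat_lit 4352), (nat_lit 4353), (nat_lit 4368), (nat_lit 4369), (nat_lit 4370), (nat_lit 65536), (nat_lit 65537), (nat_lit 65552), (nat_lit 65553), (nat_lit 65792), (nat_lit 65793), (nat_lit 65808), (nat_lit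 65809), (nat_lit 69632), (nat_lit 69633), (nat_lit 69648), (nat_lit 69649), (nat_lit 69888), (nat_lit 69889), (nat_lit 69904), (nat_lit 69920), (nat_lit 70145), (nat_lit 73745), (nat_lit 131345)], [(nat_lit 1), (nb (nat_lit 1) (nat_lit 3648) (nb (nat_lit 2) (nat_lit 2432) (nb (nat_lit 3) (nat_lit 1216) (nat_lit 1)))), (nat_lit 0)], (nat_lit 1), (nat_lit 0)⟩]⟩
def r0 : List Fc := [f0, f1, f2, f3, f4, f5, f6, f7, f8, f9, f10, f11, f12, f13, f14, f15, f16, f17, f18, f19, f20, f21, f22, f23, f24, f25, f26, f27, f28, f29, f30, f31, f32, f33, f34, f35, f36, f37, f38, f39, f40, f41, f42, f43, f44, f45, f46, f47, f48, f49, f50, f51, f52, f53, f54, f55, f56, f57, f58, f59, f60, f61, f62, f63, f64, f65, f66, f67, f68, f69, f70, f71, f72, f73, f74, f75, f76, f77, f78, f79, f80, f81, f82, f83, f84, f85, f86, f87, f88, f89, f90, f91, f92, f93, f94, f95, f96, f97, f98, f99, f100, f101, f102, f103, f104, f105, f106, f107, f108, f109, f110, f111, f112, f113, f114,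 f115, f116, f117, f118, f119, f120, f121, f122, f123, f124, f125, f126, f127]
def r1 : List Fc := [f128, f129, f130, f131, f132, f133, f134, f135, f136, f137, f138, f139, f140, f141, f142, f143, f144, f145, f146, f147, f148, f149, f150, f151, f152, f153, f154, f155, f156, f157, f158, f159, f160, f161, f162, f163, f164, f165, f166, f167, f168, f169, f170, f171, f172, f173, f174, f175, f176, f177, f178, f179, f180, f181, f182, f183, f184, f185, f186, f187, f188, f189, f190, f191, f192, f193, f194, f195, f196, f197, f198, f199, f200, f201, f202, f203, f204, f205, f206, f207, f208, f209, f210, f211, f212, f213, f214, f215, f216, f217, f218, f219, f220, f221, f222, f223, f224, f225, f226, f227, f228, f229, f230, f231, f232, f233, f234, f235, f236, f237, f238, f239, f240, f241, f242, f243, f244, f245, f246, f247, f248, f249, f250, f251, f252, f253, f254, f255]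
def r2 : List Fc := [f256, f257, f258, f259, f260, f261, f262, f263, f264, f265, f266, f267, f268, f269, f270, f271, f272, f273, f274, f275, f276, f277, f278, f279, f280, f281, f282, f283, f284, f285, f286, f287, f288, f289, f290, f291, f292, f293, f294]
/-- All facts. -/
def ft : List (List Fc) := [r0, r1, r2]

end

end Pool.Agent.P.MP_8598be_al.Ck.D5
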