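import Pool.Agent.P.MP_8598be_al.Ck.Defs
import Pool.Agent.P.MP_8598be_al.Ck.D2F
import Pool.Agent.P.MP_8598be_al.Ck.D3F
import Pool.Agent.P.MP_8598be_al.Ck.D4F
import Pool.Agent.P.MP_8598be_al.Ck.D5F

/-!
The parameters of the four runs are consistent.
-/

namespace Pool.Agent.P.MP_8598be_al.Ck

theorem pok_of {P : Par} (h : (decide (1 ≤ P.be) && decide (P.M = 2 ^ P.be - 1) &&
    decide (ww P 0 = 1) && decide (∀ i : Fin 5, ww P (i + 1) = ww P i * rad P i) &&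
    decide (∀ i : Fin 6, 2 ≤ rad P i) && decide (P.LIM = ∏ i : Fin 6, pw P i) &&
    decide (P.L ≤ P.d) && decide (2 ≤ P.B) && decide (P.Bd = P.B ^ (P.d - 1)) &&
    decide (P.BL = P.B ^ P.L) && decide (P.BL1 = P.B ^ (P.L - 1))) = true)
    (h1 : P.L = 1 → P.phi = ⟨0, 0, 0, 1⟩)
    (h2 : P.L ≠ 1 → P.phi = ⟨∑ e ∈ Finset.range P.L, 2 ^ (P.be * e), 0, P.L, 2 ^ (P.L - 1)⟩)
    (h3 : P.L = 1 ∨ P.L.Prime) : POK P := by
  simp only [Bool.and_eq_true, decide_eq_true_eq] at h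
  obtain ⟨⟨⟨⟨⟨⟨⟨⟨⟨⟨a1, a2⟩, a3⟩, a4⟩, a5⟩, a6⟩, a7⟩, a8⟩, a9⟩, a10⟩, a11⟩ := h
  exact ⟨a1, a2, a3, fun i hi => a4 ⟨i, hi⟩, fun i hi => a5 ⟨i, hi⟩, a6, h1, h2, h3, a7, a8, a9, a10, a11⟩

instance cx2 : Cx D2.par where
  σ := 1
  hσ := by decide
  hL := one_pow _
  ok := pok_of (by decide +kernel) (fun _ => rfl) (fun h => (h rfl).elim) (.inl rfl)

instance cx3 : Cx D3.par where
  σ := finRotate 3
  hσ := by decide
  hL := by decide
  ok := pok_of (by decide +kernel) (fun h => absurd h (by decide)) (fun _ => by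
    congr 1) (.inr Nat.prime_three)

instance cx4 : Cx D4.par where
  σ := (⟨![1, 2, 0, 3], ![2, 0, 1, 3], by decide, by decide⟩ : Equiv.Perm (Fin 4))
  hσ := by decide
  hL := by decide
  ok := pok_of (by decide +kernel) (fun h => absurd h (by decide)) (fun _ => by
    congr 1) (.inr Nat.prime_three)

instance cx5 : Cx D5.par where
  σ := finRotate 5
  hσ := by decide
  hL := by decide
  ok := pok_of (by decide +kernel) (fun h => absurd h (by decide)) (fun _ => by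
    congr 1) (.inr Nat.prime_five)

end Pool.Agent.P.MP_8598be_al.Ck
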