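import Pool.Agent.P.MP_8598be_al.Ck.M5
import Pool.Agent.P.MP_8598be_al.Ck.Inst
import Pool.Agent.P.MP_8598be_al.Ck.D2C0
import Pool.Agent.P.MP_8598be_al.Ck.D2C1
import Pool.Agent.P.MP_8598be_al.Ck.D2C2
import Pool.Agent.P.MP_8598be_al.Ck.D2C3
import Pool.Agent.P.MP_8598be_al.Ck.D2C4
import Pool.Agent.P.MP_8598be_al.Ck.D2C5
import Pool.Agent.P.MP_8598be_al.Ck.D2C6
import Pool.Agent.P.MP_8598be_al.Ck.D2C7
import Pool.Agent.P.MP_8598be_al.Ck.D2C8
import Pool.Agent.P.MP_8598be_al.Ck.D2C9
import Pool.Agent.P.MP_8598be_al.Ck.D2C10
import Pool.Agent.P.MP_8598be_al.Ck.D2C11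
import Pool.Agent.P.MP_8598be_al.Ck.D2C12
import Pool.Agent.P.MP_8598be_al.Ck.D2C13
import Pool.Agent.P.MP_8598be_al.Ck.D2C14
import Pool.Agent.P.MP_8598be_al.Ck.D2C15
import Pool.Agent.P.MP_8598be_al.Ck.D2C16
import Pool.Agent.P.MP_8598be_al.Ck.D2C17
import Pool.Agent.P.MP_8598be_al.Ck.D2C18
import Pool.Agent.P.MP_8598be_al.Ck.D2C19
import Pool.Agent.P.MP_8598be_al.Ck.D2C20
import Pool.Agent.P.MP_8598be_al.Ck.D2C21

/-!
All facts of a run are correct.
-/

namespace Pool.Agent.P.MP_8598be_al.Ck.D2

theorem a0 : FOk par ft 0 := fOk_zero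
theorem a1 : FOk par ft 348 := chkA_ok a0 (by decide) c0
theorem a2 : FOk par ft 662 := chkA_ok a1 (by decide) c1
theorem a3 : FOk par ft 933 := chkA_ok a2 (by decide) c2
theorem a4 : FOk par ft 956 := chkA_ok a3 (by decide) c3
theorem a5 : FOk par ft 957 := chkA_ok a4 (by decide) c4
theorem a6 : FOk par ft 960 := chkA_ok a5 (by decide) c5
theorem a7 : FOk par ft 961 := chkA_ok a6 (by decide) c6
theorem a8 : FOk par ft 962 := chkA_ok a7 (by decide) c7
theorem a9 : FOk par ft 963 := chkA_ok a8 (by decide) c8
theorem a10 : FOk par ft 964 := chkA_ok a9 (by decide) c9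
theorem a11 : FOk par ft 965 := chkA_ok a10 (by decide) c10
theorem a12 : FOk par ft 966 := chkA_ok a11 (by decide) c11
theorem a13 : FOk par ft 970 := chkA_ok a12 (by decide) c12
theorem a14 : FOk par ft 971 := chkA_ok a13 (by decide) c13
theorem a15 : FOk par ft 974 := chkA_ok a14 (by decide) c14
theorem a16 : FOk par ft 975 := chkA_ok a15 (by decide) c15
theorem a17 : FOk par ft 976 := chkA_ok a16 (by decide) c16
theorem a18 : FOk par ft 977 := chkA_ok a17 (by decide) c17
theorem a19 : FOk par ft 978 := chkA_ok a18 (by decide) c18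
theorem a20 : FOk par ft 979 := chkA_ok a19 (by decide) c19
theorem a21 : FOk par ft 980 := chkA_ok a20 (by decide) c20
theorem a22 : FOk par ft 981 := chkA_ok a21 (by decide) c21
theorem a23 : FOk par ft 982 := chkA_ok a22 (by decide) c22
theorem a24 : FOk par ft 983 := chkA_ok a23 (by decide) c23
theorem a25 : FOk par ft 987 := chkA_ok a24 (by decide) c24
theorem a26 : FOk par ft 990 := chkA_ok a25 (by decide) c25
theorem a27 : FOk par ft 991 := chkA_ok a26 (by decide) c26
theorem a28 : FOk par ft 992 := chkA_ok a27 (by decide) c27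
theorem a29 : FOk par ft 994 := chkA_ok a28 (by decide) c28
theorem a30 : FOk par ft 995 := chkA_ok a29 (by decide) c29
theorem a31 : FOk par ft 996 := chkA_ok a30 (by decide) c30
theorem a32 : FOk par ft 997 := chkA_ok a31 (by decide) c31
theorem a33 : FOk par ft 998 := chkA_ok a32 (by decide) c32
theorem a34 : FOk par ft 999 := chkA_ok a33 (by decide) c33
theorem a35 : FOk par ft 1000 := chkA_ok a34 (by decide) c34
theorem a36 : FOk par ft 1001 := chkA_ok a35 (by decide) c35
theorem a37 : FOk par ft 1002 := chkA_ok a36 (by decide) c36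
theorem a38 : FOk par ft 1003 := chkA_ok a37 (by decide) c37
theorem a39 : FOk par ft 1004 := chkA_ok a38 (by decide) c38
theorem a40 : FOk par ft 1005 := chkA_ok a39 (by decide) c39
theorem a41 : FOk par ft 1007 := chkA_ok a40 (by decide) c40
theorem a42 : FOk par ft 1008 := chkA_ok a41 (by decide) c41
theorem a43 : FOk par ft 1009 := chkA_ok a42 (by decide) c42
theorem a44 : FOk par ft 1010 := chkA_ok a43 (by decide) c43
theorem a45 : FOk par ft 1011 := chkA_ok a44 (by decide) c44
theorem a46 : FOk par ft 1012 := chkA_ok a45 (by decide) c45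
theorem a47 : FOk par ft 1014 := chkA_ok a46 (by decide) c46
theorem a48 : FOk par ft 1015 := chkA_ok a47 (by decide) c47
theorem a49 : FOk par ft 1016 := chkA_ok a48 (by decide) c48
theorem a50 : FOk par ft 1017 := chkA_ok a49 (by decide) c49
theorem a51 : FOk par ft 1018 := chkA_ok a50 (by decide) c50
theorem a52 : FOk par ft 1019 := chkA_ok a51 (by decide) c51
theorem a53 : FOk par ft 1020 := chkA_ok a52 (by decide) c52
theorem a54 : FOk par ft 1021 := chkA_ok a53 (by decide) c53
theorem a55 : FOk par ft 1022 := chkA_ok a54 (by decide) c54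
theorem a56 : FOk par ft 1023 := chkA_ok a55 (by decide) c55
theorem a57 : FOk par ft 1024 := chkA_ok a56 (by decide) c56
theorem a58 : FOk par ft 1025 := chkA_ok a57 (by decide) c57
theorem a59 : FOk par ft 1026 := chkA_ok a58 (by decide) c58
theorem a60 : FOk par ft 1027 := chkA_ok a59 (by decide) c59
theorem a61 : FOk par ft 1028 := chkA_ok a60 (by decide) c60
theorem a62 : FOk par ft 1029 := chkA_ok a61 (by decide) c61
theorem a63 : FOk par ft 1030 := chkA_ok a62 (by decide) c62
theorem a64 : FOk par ft 1031 := chkA_ok a63 (by decide) c63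
theorem a65 : FOk par ft 1032 := chkA_ok a64 (by decide) c64
theorem a66 : FOk par ft 1035 := chkA_ok a65 (by decide) c65
theorem a67 : FOk par ft 1036 := chkA_ok a66 (by decide) c66
theorem a68 : FOk par ft 1037 := chkA_ok a67 (by decide) c67
theorem a69 : FOk par ft 1038 := chkA_ok a68 (by decide) c68
theorem a70 : FOk par ft 1040 := chkA_ok a69 (by decide) c69
theorem a71 : FOk par ft 1042 := chkA_ok a70 (by decide) c70
theorem a72 : FOk par ft 1043 := chkA_ok a71 (by decide) c71
theorem a73 : FOk par ft 1044 := chkA_ok a72 (by decide) c72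
theorem a74 : FOk par ft 1045 := chkA_ok a73 (by decide) c73
theorem a75 : FOk par ft 1046 := chkA_ok a74 (by decide) c74
theorem a76 : FOk par ft 1047 := chkA_ok a75 (by decide) c75
theorem a77 : FOk par ft 1048 := chkA_ok a76 (by decide) c76
theorem a78 : FOk par ft 1049 := chkA_ok a77 (by decide) c77
theorem a79 : FOk par ft 1050 := chkA_ok a78 (by decide) c78
theorem a80 : FOk par ft 1051 := chkA_ok a79 (by decide) c79
theorem a81 : FOk par ft 1053 := chkA_ok a80 (by decide) c80
theorem a82 : FOk par ft 1054 := chkA_ok a81 (by decide) c81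
theorem a83 : FOk par ft 1055 := chkA_ok a82 (by decide) c82
theorem a84 : FOk par ft 1056 := chkA_ok a83 (by decide) c83
theorem a85 : FOk par ft 1057 := chkA_ok a84 (by decide) c84
theorem a86 : FOk par ft 1058 := chkA_ok a85 (by decide) c85
theorem a87 : FOk par ft 1060 := chkA_ok a86 (by decide) c86
theorem a88 : FOk par ft 1061 := chkA_ok a87 (by decide) c87
theorem a89 : FOk par ft 1062 := chkA_ok a88 (by decide) c88
theorem a90 : FOk par ft 1063 := chkA_ok a89 (by decide) c89
theorem a91 : FOk par ft 1064 := chkA_ok a90 (by decide) c90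
theorem a92 : FOk par ft 1065 := chkA_ok a91 (by decide) c91
theorem a93 : FOk par ft 1066 := chkA_ok a92 (by decide) c92
theorem a94 : FOk par ft 1067 := chkA_ok a93 (by decide) c93
theorem a95 : FOk par ft 1068 := chkA_ok a94 (by decide) c94
theorem a96 : FOk par ft 1069 := chkA_ok a95 (by decide) c95
theorem a97 : FOk par ft 1070 := chkA_ok a96 (by decide) c96
theorem a98 : FOk par ft 1071 := chkA_ok a97 (by decide) c97
theorem a99 : FOk par ft 1072 := chkA_ok a98 (by decide) c98
theorem a100 : FOk par ft 1073 := chkA_ok a99 (by decide) c99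
theorem a101 : FOk par ft 1074 := chkA_ok a100 (by decide) c100
theorem a102 : FOk par ft 1075 := chkA_ok a101 (by decide) c101
theorem a103 : FOk par ft 1076 := chkA_ok a102 (by decide) c102
theorem a104 : FOk par ft 1077 := chkA_ok a103 (by decide) c103
theorem a105 : FOk par ft 1078 := chkA_ok a104 (by decide) c104
theorem a106 : FOk par ft 1079 := chkA_ok a105 (by decide) c105
theorem a107 : FOk par ft 1080 := chkA_ok a106 (by decide) c106
theorem a108 : FOk par ft 1081 := chkA_ok a107 (by decide) c107
theorem a109 : FOk par ft 1082 := chkA_ok a108 (by decide) c108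
theorem a110 : FOk par ft 1083 := chkA_ok a109 (by decide) c109
theorem a111 : FOk par ft 1084 := chkA_ok a110 (by decide) c110
theorem a112 : FOk par ft 1085 := chkA_ok a111 (by decide) c111
theorem a113 : FOk par ft 1086 := chkA_ok a112 (by decide) c112
theorem a114 : FOk par ft 1087 := chkA_ok a113 (by decide) c113
theorem a115 : FOk par ft 1088 := chkA_ok a114 (by decide) c114
theorem a116 : FOk par ft 1089 := chkA_ok a115 (by decide) c115
theorem a117 : FOk par ft 1090 := chkA_ok a116 (by decide) c116
theorem a118 : FOk par ft 1091 := chkA_ok a117 (by decide) c117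
theorem a119 : FOk par ft 1092 := chkA_ok a118 (by decide) c118
theorem a120 : FOk par ft 1093 := chkA_ok a119 (by decide) c119
theorem a121 : FOk par ft 1094 := chkA_ok a120 (by decide) c120
theorem a122 : FOk par ft 1095 := chkA_ok a121 (by decide) c121
theorem a123 : FOk par ft 1096 := chkA_ok a122 (by decide) c122
theorem a124 : FOk par ft 1097 := chkA_ok a123 (by decide) c123
theorem a125 : FOk par ft 1098 := chkA_ok a124 (by decide) c124
theorem a126 : FOk par ft 1099 := chkA_ok a125 (by decide) c125
theorem a127 : FOk par ft 1101 := chkA_ok a126 (by decide) c126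
theorem a128 : FOk par ft 1102 := chkA_ok a127 (by decide) c127
theorem a129 : FOk par ft 1103 := chkA_ok a128 (by decide) c128
theorem a130 : FOk par ft 1104 := chkA_ok a129 (by decide) c129
theorem a131 : FOk par ft 1105 := chkA_ok a130 (by decide) c130
theorem a132 : FOk par ft 1106 := chkA_ok a131 (by decide) c131
theorem a133 : FOk par ft 1108 := chkA_ok a132 (by decide) c132
theorem a134 : FOk par ft 1109 := chkA_ok a133 (by decide) c133
theorem a135 : FOk par ft 1110 := chkA_ok a134 (by decide) c134
theorem a136 : FOk par ft 1111 := chkA_ok a135 (by decide) c135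
theorem a137 : FOk par ft 1112 := chkA_ok a136 (by decide) c136
theorem a138 : FOk par ft 1113 := chkA_ok a137 (by decide) c137
theorem a139 : FOk par ft 1114 := chkA_ok a138 (by decide) c138
theorem a140 : FOk par ft 1115 := chkA_ok a139 (by decide) c139
theorem a141 : FOk par ft 1116 := chkA_ok a140 (by decide) c140
theorem a142 : FOk par ft 1117 := chkA_ok a141 (by decide) c141
theorem a143 : FOk par ft 1118 := chkA_ok a142 (by decide) c142
theorem a144 : FOk par ft 1119 := chkA_ok a143 (by decide) c143
theorem a145 : FOk par ft 1120 := chkA_ok a144 (by decide) c144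
theorem a146 : FOk par ft 1121 := chkA_ok a145 (by decide) c145
theorem a147 : FOk par ft 1122 := chkA_ok a146 (by decide) c146
theorem a148 : FOk par ft 1123 := chkA_ok a147 (by decide) c147
theorem a149 : FOk par ft 1124 := chkA_ok a148 (by decide) c148
theorem a150 : FOk par ft 1125 := chkA_ok a149 (by decide) c149
theorem a151 : FOk par ft 1126 := chkA_ok a150 (by decide) c150
theorem a152 : FOk par ft 1127 := chkA_ok a151 (by decide) c151
theorem a153 : FOk par ft 1128 := chkA_ok a152 (by decide) c152
theorem a154 : FOk par ft 1129 := chkA_ok a153 (by decide) c153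
theorem a155 : FOk par ft 1130 := chkA_ok a154 (by decide) c154
theorem a156 : FOk par ft 1131 := chkA_ok a155 (by decide) c155
theorem a157 : FOk par ft 1132 := chkA_ok a156 (by decide) c156
theorem a158 : FOk par ft 1133 := chkA_ok a157 (by decide) c157
theorem a159 : FOk par ft 1134 := chkA_ok a158 (by decide) c158
theorem a160 : FOk par ft 1135 := chkA_ok a159 (by decide) c159
theorem a161 : FOk par ft 1136 := chkA_ok a160 (by decide) c160
theorem a162 : FOk par ft 1137 := chkA_ok a161 (by decide) c161
theorem a163 : FOk par ft 1138 := chkA_ok a162 (by decide) c162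
theorem a164 : FOk par ft 1139 := chkA_ok a163 (by decide) c163
theorem a165 : FOk par ft 1140 := chkA_ok a164 (by decide) c164
theorem a166 : FOk par ft 1141 := chkA_ok a165 (by decide) c165
theorem a167 : FOk par ft 1142 := chkA_ok a166 (by decide) c166
theorem a168 : FOk par ft 1143 := chkA_ok a167 (by decide) c167
theorem a169 : FOk par ft 1144 := chkA_ok a168 (by decide) c168
theorem a170 : FOk par ft 1145 := chkA_ok a169 (by decide) c169
theorem a171 : FOk par ft 1146 := chkA_ok a170 (by decide) c170
theorem a172 : FOk par ft 1147 := chkA_ok a171 (by decide) c171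
theorem a173 : FOk par ft 1148 := chkA_ok a172 (by decide) c172
theorem a174 : FOk par ft 1149 := chkA_ok a173 (by decide) c173
theorem a175 : FOk par ft 1150 := chkA_ok a174 (by decide) c174
theorem a176 : FOk par ft 1152 := chkA_ok a175 (by decide) c175
theorem a177 : FOk par ft 1153 := chkA_ok a176 (by decide) c176
theorem a178 : FOk par ft 1154 := chkA_ok a177 (by decide) c177
theorem a179 : FOk par ft 1155 := chkA_ok a178 (by decide) c178
theorem a180 : FOk par ft 1157 := chkA_ok a179 (by decide) c179
theorem a181 : FOk par ft 1158 := chkA_ok a180 (by decide) c180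
theorem a182 : FOk par ft 1159 := chkA_ok a181 (by decide) c181
theorem a183 : FOk par ft 1160 := chkA_ok a182 (by decide) c182
theorem a184 : FOk par ft 1161 := chkA_ok a183 (by decide) c183
theorem a185 : FOk par ft 1162 := chkA_ok a184 (by decide) c184
theorem a186 : FOk par ft 1163 := chkA_ok a185 (by decide) c185
theorem a187 : FOk par ft 1164 := chkA_ok a186 (by decide) c186
theorem a188 : FOk par ft 1165 := chkA_ok a187 (by decide) c187
theorem a189 : FOk par ft 1166 := chkA_ok a188 (by decide) c188
theorem a190 : FOk par ft 1167 := chkA_ok a189 (by decide) c189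
theorem a191 : FOk par ft 1168 := chkA_ok a190 (by decide) c190
theorem a192 : FOk par ft 1169 := chkA_ok a191 (by decide) c191
theorem a193 : FOk par ft 1170 := chkA_ok a192 (by decide) c192
theorem a194 : FOk par ft 1172 := chkA_ok a193 (by decide) c193
theorem a195 : FOk par ft 1173 := chkA_ok a194 (by decide) c194
theorem a196 : FOk par ft 1174 := chkA_ok a195 (by decide) c195
theorem a197 : FOk par ft 1175 := chkA_ok a196 (by decide) c196
theorem a198 : FOk par ft 1177 := chkA_ok a197 (by decide) c197
theorem a199 : FOk par ft 1178 := chkA_ok a198 (by decide) c198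
theorem a200 : FOk par ft 1179 := chkA_ok a199 (by decide) c199
theorem a201 : FOk par ft 1180 := chkA_ok a200 (by decide) c200
theorem a202 : FOk par ft 1181 := chkA_ok a201 (by decide) c201
theorem a203 : FOk par ft 1182 := chkA_ok a202 (by decide) c202
theorem a204 : FOk par ft 1183 := chkA_ok a203 (by decide) c203
theorem a205 : FOk par ft 1185 := chkA_ok a204 (by decide) c204
theorem a206 : FOk par ft 1186 := chkA_ok a205 (by decide) c205
theorem a207 : FOk par ft 1187 := chkA_ok a206 (by decide) c206
theorem a208 : FOk par ft 1188 := chkA_ok a207 (by decide) c207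
theorem a209 : FOk par ft 1189 := chkA_ok a208 (by decide) c208
theorem a210 : FOk par ft 1190 := chkA_ok a209 (by decide) c209
theorem a211 : FOk par ft 1191 := chkA_ok a210 (by decide) c210
theorem a212 : FOk par ft 1192 := chkA_ok a211 (by decide) c211
theorem a213 : FOk par ft 1193 := chkA_ok a212 (by decide) c212
theorem a214 : FOk par ft 1194 := chkA_ok a213 (by decide) c213
theorem a215 : FOk par ft 1195 := chkA_ok a214 (by decide) c214
theorem a216 : FOk par ft 1196 := chkA_ok a215 (by decide) c215
theorem a217 : FOk par ft 1197 := chkA_ok a216 (by decide) c216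
theorem a218 : FOk par ft 1198 := chkA_ok a217 (by decide) c217
theorem a219 : FOk par ft 1199 := chkA_ok a218 (by decide) c218
theorem a220 : FOk par ft 1200 := chkA_ok a219 (by decide) c219
theorem a221 : FOk par ft 1201 := chkA_ok a220 (by decide) c220
theorem a222 : FOk par ft 1202 := chkA_ok a221 (by decide) c221
theorem a223 : FOk par ft 1205 := chkA_ok a222 (by decide) c222
theorem a224 : FOk par ft 1206 := chkA_ok a223 (by decide) c223
theorem a225 : FOk par ft 1207 := chkA_ok a224 (by decide) c224
theorem a226 : FOk par ft 1208 := chkA_ok a225 (by decide) c225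
theorem a227 : FOk par ft 1209 := chkA_ok a226 (by decide) c226
theorem a228 : FOk par ft 1210 := chkA_ok a227 (by decide) c227
theorem a229 : FOk par ft 1211 := chkA_ok a228 (by decide) c228
theorem a230 : FOk par ft 1212 := chkA_ok a229 (by decide) c229
theorem a231 : FOk par ft 1213 := chkA_ok a230 (by decide) c230
theorem a232 : FOk par ft 1214 := chkA_ok a231 (by decide) c231
theorem a233 : FOk par ft 1215 := chkA_ok a232 (by decide) c232
theorem a234 : FOk par ft 1217 := chkA_ok a233 (by decide) c233
theorem a235 : FOk par ft 1218 := chkA_ok a234 (by decide) c234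
theorem a236 : FOk par ft 1219 := chkA_ok a235 (by decide) c235
theorem a237 : FOk par ft 1220 := chkA_ok a236 (by decide) c236
theorem a238 : FOk par ft 1221 := chkA_ok a237 (by decide) c237
theorem a239 : FOk par ft 1222 := chkA_ok a238 (by decide) c238
theorem a240 : FOk par ft 1223 := chkA_ok a239 (by decide) c239
theorem a241 : FOk par ft 1224 := chkA_ok a240 (by decide) c240
theorem a242 : FOk par ft 1225 := chkA_ok a241 (by decide) c241
theorem a243 : FOk par ft 1226 := chkA_ok a242 (by decide) c242
theorem a244 : FOk par ft 1227 := chkA_ok a243 (by decide) c243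
theorem a245 : FOk par ft 1228 := chkA_ok a244 (by decide) c244
theorem a246 : FOk par ft 1229 := chkA_ok a245 (by decide) c245
theorem a247 : FOk par ft 1230 := chkA_ok a246 (by decide) c246
theorem a248 : FOk par ft 1231 := chkA_ok a247 (by decide) c247
theorem a249 : FOk par ft 1232 := chkA_ok a248 (by decide) c248
theorem a250 : FOk par ft 1233 := chkA_ok a249 (by decide) c249
theorem a251 : FOk par ft 1234 := chkA_ok a250 (by decide) c250
theorem a252 : FOk par ft 1236 := chkA_ok a251 (by decide) c251
theorem a253 : FOk par ft 1237 := chkA_ok a252 (by decide) c252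
theorem a254 : FOk par ft 1238 := chkA_ok a253 (by decide) c253
theorem a255 : FOk par ft 1239 := chkA_ok a254 (by decide) c254
theorem a256 : FOk par ft 1240 := chkA_ok a255 (by decide) c255
theorem a257 : FOk par ft 1241 := chkA_ok a256 (by decide) c256
theorem a258 : FOk par ft 1242 := chkA_ok a257 (by decide) c257
theorem a259 : FOk par ft 1243 := chkA_ok a258 (by decide) c258
theorem a260 : FOk par ft 1244 := chkA_ok a259 (by decide) c259
theorem a261 : FOk par ft 1245 := chkA_ok a260 (by decide) c260
theorem a262 : FOk par ft 1246 := chkA_ok a261 (by decide) c261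
theorem a263 : FOk par ft 1247 := chkA_ok a262 (by decide) c262
theorem a264 : FOk par ft 1248 := chkA_ok a263 (by decide) c263
theorem a265 : FOk par ft 1249 := chkA_ok a264 (by decide) c264
theorem a266 : FOk par ft 1250 := chkA_ok a265 (by decide) c265
theorem a267 : FOk par ft 1251 := chkA_ok a266 (by decide) c266
theorem a268 : FOk par ft 1252 := chkA_ok a267 (by decide) c267
theorem a269 : FOk par ft 1253 := chkA_ok a268 (by decide) c268
theorem a270 : FOk par ft 1254 := chkA_ok a269 (by decide) c269
theorem a271 : FOk par ft 1256 := chkA_ok a270 (by decide) c270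
theorem a272 : FOk par ft 1257 := chkA_ok a271 (by decide) c271
theorem a273 : FOk par ft 1258 := chkA_ok a272 (by decide) c272
theorem a274 : FOk par ft 1259 := chkA_ok a273 (by decide) c273
theorem a275 : FOk par ft 1260 := chkA_ok a274 (by decide) c274
theorem a276 : FOk par ft 1261 := chkA_ok a275 (by decide) c275
theorem a277 : FOk par ft 1262 := chkA_ok a276 (by decide) c276
theorem a278 : FOk par ft 1263 := chkA_ok a277 (by decide) c277
theorem a279 : FOk par ft 1264 := chkA_ok a278 (by decide) c278
theorem a280 : FOk par ft 1265 := chkA_ok a279 (by decide) c279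
theorem a281 : FOk par ft 1266 := chkA_ok a280 (by decide) c280
theorem a282 : FOk par ft 1267 := chkA_ok a281 (by decide) c281
theorem a283 : FOk par ft 1268 := chkA_ok a282 (by decide) c282
theorem a284 : FOk par ft 1269 := chkA_ok a283 (by decide) c283
theorem a285 : FOk par ft 1270 := chkA_ok a284 (by decide) c284
theorem a286 : FOk par ft 1271 := chkA_ok a285 (by decide) c285
theorem a287 : FOk par ft 1272 := chkA_ok a286 (by decide) c286
theorem a288 : FOk par ft 1273 := chkA_ok a287 (by decide) c287
theorem a289 : FOk par ft 1274 := chkA_ok a288 (by decide) c288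
theorem a290 : FOk par ft 1276 := chkA_ok a289 (by decide) c289
theorem a291 : FOk par ft 1277 := chkA_ok a290 (by decide) c290
theorem a292 : FOk par ft 1278 := chkA_ok a291 (by decide) c291
theorem a293 : FOk par ft 1279 := chkA_ok a292 (by decide) c292
theorem a294 : FOk par ft 1280 := chkA_ok a293 (by decide) c293
theorem a295 : FOk par ft 1281 := chkA_ok a294 (by decide) c294
theorem a296 : FOk par ft 1282 := chkA_ok a295 (by decide) c295
theorem a297 : FOk par ft 1283 := chkA_ok a296 (by decide) c296
theorem a298 : FOk par ft 1285 := chkA_ok a297 (by decide) c297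
theorem a299 : FOk par ft 1286 := chkA_ok a298 (by decide) c298
theorem a300 : FOk par ft 1287 := chkA_ok a299 (by decide) c299
theorem a301 : FOk par ft 1288 := chkA_ok a300 (by decide) c300
theorem a302 : FOk par ft 1289 := chkA_ok a301 (by decide) c301
theorem a303 : FOk par ft 1290 := chkA_ok a302 (by decide) c302
theorem a304 : FOk par ft 1291 := chkA_ok a303 (by decide) c303
theorem a305 : FOk par ft 1292 := chkA_ok a304 (by decide) c304
theorem a306 : FOk par ft 1293 := chkA_ok a305 (by decide) c305
theorem a307 : FOk par ft 1294 := chkA_ok a306 (by decide) c306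
theorem a308 : FOk par ft 1295 := chkA_ok a307 (by decide) c307
theorem a309 : FOk par ft 1296 := chkA_ok a308 (by decide) c308
theorem a310 : FOk par ft 1298 := chkA_ok a309 (by decide) c309
theorem a311 : FOk par ft 1299 := chkA_ok a310 (by decide) c310
theorem a312 : FOk par ft 1300 := chkA_ok a311 (by decide) c311
theorem a313 : FOk par ft 1301 := chkA_ok a312 (by decide) c312
theorem a314 : FOk par ft 1302 := chkA_ok a313 (by decide) c313
theorem a315 : FOk par ft 1303 := chkA_ok a314 (by decide) c314
theorem a316 : FOk par ft 1304 := chkA_ok a315 (by decide) c315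
theorem a317 : FOk par ft 1305 := chkA_ok a316 (by decide) c316
theorem a318 : FOk par ft 1306 := chkA_ok a317 (by decide) c317
theorem a319 : FOk par ft 1307 := chkA_ok a318 (by decide) c318
theorem a320 : FOk par ft 1308 := chkA_ok a319 (by decide) c319
theorem a321 : FOk par ft 1309 := chkA_ok a320 (by decide) c320
theorem a322 : FOk par ft 1311 := chkA_ok a321 (by decide) c321
theorem a323 : FOk par ft 1312 := chkA_ok a322 (by decide) c322
theorem a324 : FOk par ft 1313 := chkA_ok a323 (by decide) c323
theorem a325 : FOk par ft 1314 := chkA_ok a324 (by decide) c324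
theorem a326 : FOk par ft 1315 := chkA_ok a325 (by decide) c325
theorem a327 : FOk par ft 1316 := chkA_ok a326 (by decide) c326
theorem a328 : FOk par ft 1317 := chkA_ok a327 (by decide) c327
theorem a329 : FOk par ft 1318 := chkA_ok a328 (by decide) c328
theorem a330 : FOk par ft 1319 := chkA_ok a329 (by decide) c329
theorem a331 : FOk par ft 1320 := chkA_ok a330 (by decide) c330
theorem a332 : FOk par ft 1321 := chkA_ok a331 (by decide) c331
theorem a333 : FOk par ft 1322 := chkA_ok a332 (by decide) c332
theorem a334 : FOk par ft 1323 := chkA_ok a333 (by decide) c333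
theorem a335 : FOk par ft 1324 := chkA_ok a334 (by decide) c334
theorem a336 : FOk par ft 1325 := chkA_ok a335 (by decide) c335
theorem a337 : FOk par ft 1326 := chkA_ok a336 (by decide) c336
theorem a338 : FOk par ft 1327 := chkA_ok a337 (by decide) c337
theorem a339 : FOk par ft 1328 := chkA_ok a338 (by decide) c338
theorem a340 : FOk par ft 1329 := chkA_ok a339 (by decide) c339
theorem a341 : FOk par ft 1330 := chkA_ok a340 (by decide) c340
theorem a342 : FOk par ft 1331 := chkA_ok a341 (by decide) c341
theorem a343 : FOk par ft 1332 := chkA_ok a342 (by decide) c342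
theorem a344 : FOk par ft 1333 := chkA_ok a343 (by decide) c343
theorem a345 : FOk par ft 1334 := chkA_ok a344 (by decide) c344
theorem a346 : FOk par ft 1335 := chkA_ok a345 (by decide) c345
theorem a347 : FOk par ft 1336 := chkA_ok a346 (by decide) c346
theorem a348 : FOk par ft 1337 := chkA_ok a347 (by decide) c347
theorem a349 : FOk par ft 1338 := chkA_ok a348 (by decide) c348
theorem a350 : FOk par ft 1339 := chkA_ok a349 (by decide) c349
theorem a351 : FOk par ft 1340 := chkA_ok a350 (by decide) c350
theorem a352 : FOk par ft 1341 := chkA_ok a351 (by decide) c351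
theorem a353 : FOk par ft 1342 := chkA_ok a352 (by decide) c352
theorem a354 : FOk par ft 1343 := chkA_ok a353 (by decide) c353
theorem a355 : FOk par ft 1344 := chkA_ok a354 (by decide) c354
theorem a356 : FOk par ft 1345 := chkA_ok a355 (by decide) c355
theorem a357 : FOk par ft 1346 := chkA_ok a356 (by decide) c356
theorem a358 : FOk par ft 1347 := chkA_ok a357 (by decide) c357
theorem a359 : FOk par ft 1348 := chkA_ok a358 (by decide) c358
theorem a360 : FOk par ft 1349 := chkA_ok a359 (by decide) c359
theorem a361 : FOk par ft 1350 := chkA_ok a360 (by decide) c360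
theorem a362 : FOk par ft 1351 := chkA_ok a361 (by decide) c361
theorem a363 : FOk par ft 1352 := chkA_ok a362 (by decide) c362
theorem a364 : FOk par ft 1353 := chkA_ok a363 (by decide) c363
theorem a365 : FOk par ft 1354 := chkA_ok a364 (by decide) c364
theorem a366 : FOk par ft 1355 := chkA_ok a365 (by decide) c365
theorem a367 : FOk par ft 1356 := chkA_ok a366 (by decide) c366
theorem a368 : FOk par ft 1357 := chkA_ok a367 (by decide) c367
theorem a369 : FOk par ft 1358 := chkA_ok a368 (by decide) c368
theorem a370 : FOk par ft 1359 := chkA_ok a369 (by decide) c369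
theorem a371 : FOk par ft 1360 := chkA_ok a370 (by decide) c370
theorem a372 : FOk par ft 1361 := chkA_ok a371 (by decide) c371
theorem a373 : FOk par ft 1362 := chkA_ok a372 (by decide) c372
theorem a374 : FOk par ft 1363 := chkA_ok a373 (by decide) c373
theorem a375 : FOk par ft 1364 := chkA_ok a374 (by decide) c374
theorem a376 : FOk par ft 1365 := chkA_ok a375 (by decide) c375
theorem a377 : FOk par ft 1366 := chkA_ok a376 (by decide) c376
theorem a378 : FOk par ft 1367 := chkA_ok a377 (by decide) c377
theorem a379 : FOk par ft 1376 := chkA_ok a378 (by decide) c378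
theorem a380 : FOk par ft 1399 := chkA_ok a379 (by decide) c379

theorem all : FOk par ft 1399 := a380

end Pool.Agent.P.MP_8598be_al.Ck.D2
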