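import Pool.Agent.P.MP_8598be_al.Ck.M5
import Pool.Agent.P.MP_8598be_al.Ck.Inst
import Pool.Agent.P.MP_8598be_al.Ck.D3C0

/-!
All facts of a run are correct.
-/

namespace Pool.Agent.P.MP_8598be_al.Ck.D3

theorem a0 : FOk par ft 0 := fOk_zero
theorem a1 : FOk par ft 25 := chkA_ok a0 (by decide) c0
theorem a2 : FOk par ft 27 := chkA_ok a1 (by decide) c1
theorem a3 : FOk par ft 28 := chkA_ok a2 (by decide) c2
theorem a4 : FOk par ft 29 := chkA_ok a3 (by decide) c3
theorem a5 : FOk par ft 31 := chkA_ok a4 (by decide) c4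
theorem a6 : FOk par ft 35 := chkA_ok a5 (by decide) c5

theorem all : FOk par ft 35 := a6

end Pool.Agent.P.MP_8598be_al.Ck.D3
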