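import Pool.Agent.P.MP_8598be_al.Ck.M5
import Pool.Agent.P.MP_8598be_al.Ck.Inst
import Pool.Agent.P.MP_8598be_al.Ck.D4C0
import Pool.Agent.P.MP_8598be_al.Ck.D4C1
import Pool.Agent.P.MP_8598be_al.Ck.D4C2
import Pool.Agent.P.MP_8598be_al.Ck.D4C3
import Pool.Agent.P.MP_8598be_al.Ck.D4C4

/-!
All facts of a run are correct.
-/

namespace Pool.Agent.P.MP_8598be_al.Ck.D4

theorem a0 : FOk par ft 0 := fOk_zero
theorem a1 : FOk par ft 74 := chkA_ok a0 (by decide) c0
theorem a2 : FOk par ft 76 := chkA_ok a1 (by decide) c1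
theorem a3 : FOk par ft 78 := chkA_ok a2 (by decide) c2
theorem a4 : FOk par ft 80 := chkA_ok a3 (by decide) c3
theorem a5 : FOk par ft 81 := chkA_ok a4 (by decide) c4
theorem a6 : FOk par ft 82 := chkA_ok a5 (by decide) c5
theorem a7 : FOk par ft 83 := chkA_ok a6 (by decide) c6
theorem a8 : FOk par ft 84 := chkA_ok a7 (by decide) c7
theorem a9 : FOk par ft 85 := chkA_ok a8 (by decide) c8
theorem a10 : FOk par ft 86 := chkA_ok a9 (by decide) c9
theorem a11 : FOk par ft 87 := chkA_ok a10 (by decide) c10
theorem a12 : FOk par ft 88 := chkA_ok a11 (by decide) c11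
theorem a13 : FOk par ft 92 := chkA_ok a12 (by decide) c12
theorem a14 : FOk par ft 93 := chkA_ok a13 (by decide) c13
theorem a15 : FOk par ft 94 := chkA_ok a14 (by decide) c14
theorem a16 : FOk par ft 95 := chkA_ok a15 (by decide) c15
theorem a17 : FOk par ft 97 := chkA_ok a16 (by decide) c16
theorem a18 : FOk par ft 98 := chkA_ok a17 (by decide) c17
theorem a19 : FOk par ft 102 := chkA_ok a18 (by decide) c18
theorem a20 : FOk par ft 107 := chkA_ok a19 (by decide) c19
theorem a21 : FOk par ft 109 := chkA_ok a20 (by decide) c20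
theorem a22 : FOk par ft 110 := chkA_ok a21 (by decide) c21
theorem a23 : FOk par ft 111 := chkA_ok a22 (by decide) c22
theorem a24 : FOk par ft 112 := chkA_ok a23 (by decide) c23
theorem a25 : FOk par ft 115 := chkA_ok a24 (by decide) c24
theorem a26 : FOk par ft 116 := chkA_ok a25 (by decide) c25
theorem a27 : FOk par ft 117 := chkA_ok a26 (by decide) c26
theorem a28 : FOk par ft 118 := chkA_ok a27 (by decide) c27
theorem a29 : FOk par ft 119 := chkA_ok a28 (by decide) c28
theorem a30 : FOk par ft 120 := chkA_ok a29 (by decide) c29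
theorem a31 : FOk par ft 121 := chkA_ok a30 (by decide) c30
theorem a32 : FOk par ft 122 := chkA_ok a31 (by decide) c31
theorem a33 : FOk par ft 123 := chkA_ok a32 (by decide) c32
theorem a34 : FOk par ft 124 := chkA_ok a33 (by decide) c33
theorem a35 : FOk par ft 125 := chkA_ok a34 (by decide) c34
theorem a36 : FOk par ft 126 := chkA_ok a35 (by decide) c35
theorem a37 : FOk par ft 127 := chkA_ok a36 (by decide) c36
theorem a38 : FOk par ft 128 := chkA_ok a37 (by decide) c37
theorem a39 : FOk par ft 130 := chkA_ok a38 (by decide) c38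
theorem a40 : FOk par ft 132 := chkA_ok a39 (by decide) c39
theorem a41 : FOk par ft 133 := chkA_ok a40 (by decide) c40
theorem a42 : FOk par ft 134 := chkA_ok a41 (by decide) c41
theorem a43 : FOk par ft 135 := chkA_ok a42 (by decide) c42
theorem a44 : FOk par ft 136 := chkA_ok a43 (by decide) c43
theorem a45 : FOk par ft 137 := chkA_ok a44 (by decide) c44
theorem a46 : FOk par ft 138 := chkA_ok a45 (by decide) c45
theorem a47 : FOk par ft 139 := chkA_ok a46 (by decide) c46
theorem a48 : FOk par ft 140 := chkA_ok a47 (by decide) c47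
theorem a49 : FOk par ft 141 := chkA_ok a48 (by decide) c48
theorem a50 : FOk par ft 142 := chkA_ok a49 (by decide) c49
theorem a51 : FOk par ft 143 := chkA_ok a50 (by decide) c50
theorem a52 : FOk par ft 144 := chkA_ok a51 (by decide) c51
theorem a53 : FOk par ft 145 := chkA_ok a52 (by decide) c52
theorem a54 : FOk par ft 147 := chkA_ok a53 (by decide) c53
theorem a55 : FOk par ft 148 := chkA_ok a54 (by decide) c54
theorem a56 : FOk par ft 149 := chkA_ok a55 (by decide) c55
theorem a57 : FOk par ft 150 := chkA_ok a56 (by decide) c56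
theorem a58 : FOk par ft 151 := chkA_ok a57 (by decide) c57
theorem a59 : FOk par ft 152 := chkA_ok a58 (by decide) c58
theorem a60 : FOk par ft 153 := chkA_ok a59 (by decide) c59
theorem a61 : FOk par ft 154 := chkA_ok a60 (by decide) c60
theorem a62 : FOk par ft 155 := chkA_ok a61 (by decide) c61
theorem a63 : FOk par ft 156 := chkA_ok a62 (by decide) c62
theorem a64 : FOk par ft 157 := chkA_ok a63 (by decide) c63
theorem a65 : FOk par ft 158 := chkA_ok a64 (by decide) c64
theorem a66 : FOk par ft 159 := chkA_ok a65 (by decide) c65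
theorem a67 : FOk par ft 160 := chkA_ok a66 (by decide) c66
theorem a68 : FOk par ft 161 := chkA_ok a67 (by decide) c67
theorem a69 : FOk par ft 163 := chkA_ok a68 (by decide) c68
theorem a70 : FOk par ft 164 := chkA_ok a69 (by decide) c69
theorem a71 : FOk par ft 165 := chkA_ok a70 (by decide) c70
theorem a72 : FOk par ft 166 := chkA_ok a71 (by decide) c71
theorem a73 : FOk par ft 167 := chkA_ok a72 (by decide) c72
theorem a74 : FOk par ft 168 := chkA_ok a73 (by decide) c73
theorem a75 : FOk par ft 169 := chkA_ok a74 (by decide) c74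
theorem a76 : FOk par ft 170 := chkA_ok a75 (by decide) c75
theorem a77 : FOk par ft 171 := chkA_ok a76 (by decide) c76
theorem a78 : FOk par ft 172 := chkA_ok a77 (by decide) c77
theorem a79 : FOk par ft 173 := chkA_ok a78 (by decide) c78
theorem a80 : FOk par ft 174 := chkA_ok a79 (by decide) c79
theorem a81 : FOk par ft 175 := chkA_ok a80 (by decide) c80
theorem a82 : FOk par ft 176 := chkA_ok a81 (by decide) c81
theorem a83 : FOk par ft 184 := chkA_ok a82 (by decide) c82
theorem a84 : FOk par ft 208 := chkA_ok a83 (by decide) c83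

theorem all : FOk par ft 208 := a84

end Pool.Agent.P.MP_8598be_al.Ck.D4
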