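import Pool.Agent.P.MP_8598be_al.Ck.M5
import Pool.Agent.P.MP_8598be_al.Ck.Inst
import Pool.Agent.P.MP_8598be_al.Ck.D5C0
import Pool.Agent.P.MP_8598be_al.Ck.D5C1
import Pool.Agent.P.MP_8598be_al.Ck.D5C2
import Pool.Agent.P.MP_8598be_al.Ck.D5C3
import Pool.Agent.P.MP_8598be_al.Ck.D5C4
import Pool.Agent.P.MP_8598be_al.Ck.D5C5
import Pool.Agent.P.MP_8598be_al.Ck.D5C6

/-!
All facts of a run are correct.
-/

namespace Pool.Agent.P.MP_8598be_al.Ck.D5

theorem a0 : FOk par ft 0 := fOk_zero
theorem a1 : FOk par ft 21 := chkA_ok a0 (by decide) c0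
theorem a2 : FOk par ft 22 := chkA_ok a1 (by decide) c1
theorem a3 : FOk par ft 23 := chkA_ok a2 (by decide) c2
theorem a4 : FOk par ft 24 := chkA_ok a3 (by decide) c3
theorem a5 : FOk par ft 25 := chkA_ok a4 (by decide) c4
theorem a6 : FOk par ft 26 := chkA_ok a5 (by decide) c5
theorem a7 : FOk par ft 27 := chkA_ok a6 (by decide) c6
theorem a8 : FOk par ft 28 := chkA_ok a7 (by decide) c7
theorem a9 : FOk par ft 29 := chkA_ok a8 (by decide) c8
theorem a10 : FOk par ft 30 := chkA_ok a9 (by decide) c9
theorem a11 : FOk par ft 31 := chkA_ok a10 (by decide) c10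
theorem a12 : FOk par ft 32 := chkA_ok a11 (by decide) c11
theorem a13 : FOk par ft 33 := chkA_ok a12 (by decide) c12
theorem a14 : FOk par ft 34 := chkA_ok a13 (by decide) c13
theorem a15 : FOk par ft 35 := chkA_ok a14 (by decide) c14
theorem a16 : FOk par ft 36 := chkA_ok a15 (by decide) c15
theorem a17 : FOk par ft 37 := chkA_ok a16 (by decide) c16
theorem a18 : FOk par ft 38 := chkA_ok a17 (by decide) c17
theorem a19 : FOk par ft 39 := chkA_ok a18 (by decide) c18
theorem a20 : FOk par ft 40 := chkA_ok a19 (by decide) c19
theorem a21 : FOk par ft 41 := chkA_ok a20 (by decide) c20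
theorem a22 : FOk par ft 42 := chkA_ok a21 (by decide) c21
theorem a23 : FOk par ft 43 := chkA_ok a22 (by decide) c22
theorem a24 : FOk par ft 44 := chkA_ok a23 (by decide) c23
theorem a25 : FOk par ft 45 := chkA_ok a24 (by decide) c24
theorem a26 : FOk par ft 46 := chkA_ok a25 (by decide) c25
theorem a27 : FOk par ft 47 := chkA_ok a26 (by decide) c26
theorem a28 : FOk par ft 48 := chkA_ok a27 (by decide) c27
theorem a29 : FOk par ft 49 := chkA_ok a28 (by decide) c28
theorem a30 : FOk par ft 50 := chkA_ok a29 (by decide) c29
theorem a31 : FOk par ft 51 := chkA_ok a30 (by decide) c30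
theorem a32 : FOk par ft 52 := chkA_ok a31 (by decide) c31
theorem a33 : FOk par ft 53 := chkA_ok a32 (by decide) c32
theorem a34 : FOk par ft 54 := chkA_ok a33 (by decide) c33
theorem a35 : FOk par ft 55 := chkA_ok a34 (by decide) c34
theorem a36 : FOk par ft 56 := chkA_ok a35 (by decide) c35
theorem a37 : FOk par ft 57 := chkA_ok a36 (by decide) c36
theorem a38 : FOk par ft 58 := chkA_ok a37 (by decide) c37
theorem a39 : FOk par ft 59 := chkA_ok a38 (by decide) c38
theorem a40 : FOk par ft 60 := chkA_ok a39 (by decide) c39
theorem a41 : FOk par ft 61 := chkA_ok a40 (by decide) c40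
theorem a42 : FOk par ft 62 := chkA_ok a41 (by decide) c41
theorem a43 : FOk par ft 63 := chkA_ok a42 (by decide) c42
theorem a44 : FOk par ft 65 := chkA_ok a43 (by decide) c43
theorem a45 : FOk par ft 66 := chkA_ok a44 (by decide) c44
theorem a46 : FOk par ft 67 := chkA_ok a45 (by decide) c45
theorem a47 : FOk par ft 68 := chkA_ok a46 (by decide) c46
theorem a48 : FOk par ft 69 := chkA_ok a47 (by decide) c47
theorem a49 : FOk par ft 71 := chkA_ok a48 (by decide) c48
theorem a50 : FOk par ft 72 := chkA_ok a49 (by decide) c49
theorem a51 : FOk par ft 73 := chkA_ok a50 (by decide) c50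
theorem a52 : FOk par ft 74 := chkA_ok a51 (by decide) c51
theorem a53 : FOk par ft 75 := chkA_ok a52 (by decide) c52
theorem a54 : FOk par ft 76 := chkA_ok a53 (by decide) c53
theorem a55 : FOk par ft 77 := chkA_ok a54 (by decide) c54
theorem a56 : FOk par ft 78 := chkA_ok a55 (by decide) c55
theorem a57 : FOk par ft 79 := chkA_ok a56 (by decide) c56
theorem a58 : FOk par ft 80 := chkA_ok a57 (by decide) c57
theorem a59 : FOk par ft 81 := chkA_ok a58 (by decide) c58
theorem a60 : FOk par ft 82 := chkA_ok a59 (by decide) c59
theorem a61 : FOk par ft 83 := chkA_ok a60 (by decide) c60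
theorem a62 : FOk par ft 84 := chkA_ok a61 (by decide) c61
theorem a63 : FOk par ft 85 := chkA_ok a62 (by decide) c62
theorem a64 : FOk par ft 86 := chkA_ok a63 (by decide) c63
theorem a65 : FOk par ft 87 := chkA_ok a64 (by decide) c64
theorem a66 : FOk par ft 88 := chkA_ok a65 (by decide) c65
theorem a67 : FOk par ft 89 := chkA_ok a66 (by decide) c66
theorem a68 : FOk par ft 90 := chkA_ok a67 (by decide) c67
theorem a69 : FOk par ft 91 := chkA_ok a68 (by decide) c68
theorem a70 : FOk par ft 92 := chkA_ok a69 (by decide) c69
theorem a71 : FOk par ft 93 := chkA_ok a70 (by decide) c70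
theorem a72 : FOk par ft 94 := chkA_ok a71 (by decide) c71
theorem a73 : FOk par ft 95 := chkA_ok a72 (by decide) c72
theorem a74 : FOk par ft 96 := chkA_ok a73 (by decide) c73
theorem a75 : FOk par ft 97 := chkA_ok a74 (by decide) c74
theorem a76 : FOk par ft 98 := chkA_ok a75 (by decide) c75
theorem a77 : FOk par ft 99 := chkA_ok a76 (by decide) c76
theorem a78 : FOk par ft 100 := chkA_ok a77 (by decide) c77
theorem a79 : FOk par ft 101 := chkA_ok a78 (by decide) c78
theorem a80 : FOk par ft 102 := chkA_ok a79 (by decide) c79
theorem a81 : FOk par ft 103 := chkA_ok a80 (by decide) c80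
theorem a82 : FOk par ft 104 := chkA_ok a81 (by decide) c81
theorem a83 : FOk par ft 105 := chkA_ok a82 (by decide) c82
theorem a84 : FOk par ft 106 := chkA_ok a83 (by decide) c83
theorem a85 : FOk par ft 107 := chkA_ok a84 (by decide) c84
theorem a86 : FOk par ft 108 := chkA_ok a85 (by decide) c85
theorem a87 : FOk par ft 109 := chkA_ok a86 (by decide) c86
theorem a88 : FOk par ft 110 := chkA_ok a87 (by decide) c87
theorem a89 : FOk par ft 111 := chkA_ok a88 (by decide) c88
theorem a90 : FOk par ft 112 := chkA_ok a89 (by decide) c89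
theorem a91 : FOk par ft 113 := chkA_ok a90 (by decide) c90
theorem a92 : FOk par ft 114 := chkA_ok a91 (by decide) c91
theorem a93 : FOk par ft 115 := chkA_ok a92 (by decide) c92
theorem a94 : FOk par ft 116 := chkA_ok a93 (by decide) c93
theorem a95 : FOk par ft 117 := chkA_ok a94 (by decide) c94
theorem a96 : FOk par ft 118 := chkA_ok a95 (by decide) c95
theorem a97 : FOk par ft 119 := chkA_ok a96 (by decide) c96
theorem a98 : FOk par ft 120 := chkA_ok a97 (by decide) c97
theorem a99 : FOk par ft 121 := chkA_ok a98 (by decide) c98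
theorem a100 : FOk par ft 122 := chkA_ok a99 (by decide) c99
theorem a101 : FOk par ft 123 := chkA_ok a100 (by decide) c100
theorem a102 : FOk par ft 124 := chkA_ok a101 (by decide) c101
theorem a103 : FOk par ft 125 := chkA_ok a102 (by decide) c102
theorem a104 : FOk par ft 126 := chkA_ok a103 (by decide) c103
theorem a105 : FOk par ft 127 := chkA_ok a104 (by decide) c104
theorem a106 : FOk par ft 128 := chkA_ok a105 (by decide) c105
theorem a107 : FOk par ft 129 := chkA_ok a106 (by decide) c106
theorem a108 : FOk par ft 130 := chkA_ok a107 (by decide) c107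
theorem a109 : FOk par ft 131 := chkA_ok a108 (by decide) c108
theorem a110 : FOk par ft 132 := chkA_ok a109 (by decide) c109
theorem a111 : FOk par ft 133 := chkA_ok a110 (by decide) c110
theorem a112 : FOk par ft 134 := chkA_ok a111 (by decide) c111
theorem a113 : FOk par ft 135 := chkA_ok a112 (by decide) c112
theorem a114 : FOk par ft 136 := chkA_ok a113 (by decide) c113
theorem a115 : FOk par ft 137 := chkA_ok a114 (by decide) c114
theorem a116 : FOk par ft 138 := chkA_ok a115 (by decide) c115
theorem a117 : FOk par ft 139 := chkA_ok a116 (by decide) c116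
theorem a118 : FOk par ft 140 := chkA_ok a117 (by decide) c117
theorem a119 : FOk par ft 141 := chkA_ok a118 (by decide) c118
theorem a120 : FOk par ft 142 := chkA_ok a119 (by decide) c119
theorem a121 : FOk par ft 143 := chkA_ok a120 (by decide) c120
theorem a122 : FOk par ft 144 := chkA_ok a121 (by decide) c121
theorem a123 : FOk par ft 145 := chkA_ok a122 (by decide) c122
theorem a124 : FOk par ft 146 := chkA_ok a123 (by decide) c123
theorem a125 : FOk par ft 147 := chkA_ok a124 (by decide) c124
theorem a126 : FOk par ft 148 := chkA_ok a125 (by decide) c125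
theorem a127 : FOk par ft 149 := chkA_ok a126 (by decide) c126
theorem a128 : FOk par ft 150 := chkA_ok a127 (by decide) c127
theorem a129 : FOk par ft 151 := chkA_ok a128 (by decide) c128
theorem a130 : FOk par ft 152 := chkA_ok a129 (by decide) c129
theorem a131 : FOk par ft 153 := chkA_ok a130 (by decide) c130
theorem a132 : FOk par ft 154 := chkA_ok a131 (by decide) c131
theorem a133 : FOk par ft 155 := chkA_ok a132 (by decide) c132
theorem a134 : FOk par ft 156 := chkA_ok a133 (by decide) c133
theorem a135 : FOk par ft 157 := chkA_ok a134 (by decide) c134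
theorem a136 : FOk par ft 158 := chkA_ok a135 (by decide) c135
theorem a137 : FOk par ft 159 := chkA_ok a136 (by decide) c136
theorem a138 : FOk par ft 160 := chkA_ok a137 (by decide) c137
theorem a139 : FOk par ft 161 := chkA_ok a138 (by decide) c138
theorem a140 : FOk par ft 162 := chkA_ok a139 (by decide) c139
theorem a141 : FOk par ft 163 := chkA_ok a140 (by decide) c140
theorem a142 : FOk par ft 164 := chkA_ok a141 (by decide) c141
theorem a143 : FOk par ft 165 := chkA_ok a142 (by decide) c142
theorem a144 : FOk par ft 166 := chkA_ok a143 (by decide) c143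
theorem a145 : FOk par ft 167 := chkA_ok a144 (by decide) c144
theorem a146 : FOk par ft 168 := chkA_ok a145 (by decide) c145
theorem a147 : FOk par ft 169 := chkA_ok a146 (by decide) c146
theorem a148 : FOk par ft 170 := chkA_ok a147 (by decide) c147
theorem a149 : FOk par ft 171 := chkA_ok a148 (by decide) c148
theorem a150 : FOk par ft 172 := chkA_ok a149 (by decide) c149
theorem a151 : FOk par ft 173 := chkA_ok a150 (by decide) c150
theorem a152 : FOk par ft 174 := chkA_ok a151 (by decide) c151
theorem a153 : FOk par ft 175 := chkA_ok a152 (by decide) c152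
theorem a154 : FOk par ft 176 := chkA_ok a153 (by decide) c153
theorem a155 : FOk par ft 177 := chkA_ok a154 (by decide) c154
theorem a156 : FOk par ft 178 := chkA_ok a155 (by decide) c155
theorem a157 : FOk par ft 179 := chkA_ok a156 (by decide) c156
theorem a158 : FOk par ft 180 := chkA_ok a157 (by decide) c157
theorem a159 : FOk par ft 181 := chkA_ok a158 (by decide) c158
theorem a160 : FOk par ft 182 := chkA_ok a159 (by decide) c159
theorem a161 : FOk par ft 183 := chkA_ok a160 (by decide) c160
theorem a162 : FOk par ft 184 := chkA_ok a161 (by decide) c161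
theorem a163 : FOk par ft 185 := chkA_ok a162 (by decide) c162
theorem a164 : FOk par ft 186 := chkA_ok a163 (by decide) c163
theorem a165 : FOk par ft 187 := chkA_ok a164 (by decide) c164
theorem a166 : FOk par ft 188 := chkA_ok a165 (by decide) c165
theorem a167 : FOk par ft 189 := chkA_ok a166 (by decide) c166
theorem a168 : FOk par ft 190 := chkA_ok a167 (by decide) c167
theorem a169 : FOk par ft 191 := chkA_ok a168 (by decide) c168
theorem a170 : FOk par ft 192 := chkA_ok a169 (by decide) c169
theorem a171 : FOk par ft 193 := chkA_ok a170 (by decide) c170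
theorem a172 : FOk par ft 194 := chkA_ok a171 (by decide) c171
theorem a173 : FOk par ft 196 := chkA_ok a172 (by decide) c172
theorem a174 : FOk par ft 198 := chkA_ok a173 (by decide) c173
theorem a175 : FOk par ft 199 := chkA_ok a174 (by decide) c174
theorem a176 : FOk par ft 200 := chkA_ok a175 (by decide) c175
theorem a177 : FOk par ft 201 := chkA_ok a176 (by decide) c176
theorem a178 : FOk par ft 202 := chkA_ok a177 (by decide) c177
theorem a179 : FOk par ft 203 := chkA_ok a178 (by decide) c178
theorem a180 : FOk par ft 204 := chkA_ok a179 (by decide) c179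
theorem a181 : FOk par ft 205 := chkA_ok a180 (by decide) c180
theorem a182 : FOk par ft 206 := chkA_ok a181 (by decide) c181
theorem a183 : FOk par ft 207 := chkA_ok a182 (by decide) c182
theorem a184 : FOk par ft 208 := chkA_ok a183 (by decide) c183
theorem a185 : FOk par ft 209 := chkA_ok a184 (by decide) c184
theorem a186 : FOk par ft 210 := chkA_ok a185 (by decide) c185
theorem a187 : FOk par ft 211 := chkA_ok a186 (by decide) c186
theorem a188 : FOk par ft 212 := chkA_ok a187 (by decide) c187
theorem a189 : FOk par ft 213 := chkA_ok a188 (by decide) c188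
theorem a190 : FOk par ft 214 := chkA_ok a189 (by decide) c189
theorem a191 : FOk par ft 215 := chkA_ok a190 (by decide) c190
theorem a192 : FOk par ft 216 := chkA_ok a191 (by decide) c191
theorem a193 : FOk par ft 217 := chkA_ok a192 (by decide) c192
theorem a194 : FOk par ft 219 := chkA_ok a193 (by decide) c193
theorem a195 : FOk par ft 221 := chkA_ok a194 (by decide) c194
theorem a196 : FOk par ft 222 := chkA_ok a195 (by decide) c195
theorem a197 : FOk par ft 223 := chkA_ok a196 (by decide) c196
theorem a198 : FOk par ft 224 := chkA_ok a197 (by decide) c197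
theorem a199 : FOk par ft 225 := chkA_ok a198 (by decide) c198
theorem a200 : FOk par ft 226 := chkA_ok a199 (by decide) c199
theorem a201 : FOk par ft 227 := chkA_ok a200 (by decide) c200
theorem a202 : FOk par ft 228 := chkA_ok a201 (by decide) c201
theorem a203 : FOk par ft 229 := chkA_ok a202 (by decide) c202
theorem a204 : FOk par ft 230 := chkA_ok a203 (by decide) c203
theorem a205 : FOk par ft 231 := chkA_ok a204 (by decide) c204
theorem a206 : FOk par ft 232 := chkA_ok a205 (by decide) c205
theorem a207 : FOk par ft 233 := chkA_ok a206 (by decide) c206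
theorem a208 : FOk par ft 235 := chkA_ok a207 (by decide) c207
theorem a209 : FOk par ft 237 := chkA_ok a208 (by decide) c208
theorem a210 : FOk par ft 238 := chkA_ok a209 (by decide) c209
theorem a211 : FOk par ft 239 := chkA_ok a210 (by decide) c210
theorem a212 : FOk par ft 240 := chkA_ok a211 (by decide) c211
theorem a213 : FOk par ft 241 := chkA_ok a212 (by decide) c212
theorem a214 : FOk par ft 242 := chkA_ok a213 (by decide) c213
theorem a215 : FOk par ft 243 := chkA_ok a214 (by decide) c214
theorem a216 : FOk par ft 244 := chkA_ok a215 (by decide) c215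
theorem a217 : FOk par ft 246 := chkA_ok a216 (by decide) c216
theorem a218 : FOk par ft 247 := chkA_ok a217 (by decide) c217
theorem a219 : FOk par ft 248 := chkA_ok a218 (by decide) c218
theorem a220 : FOk par ft 249 := chkA_ok a219 (by decide) c219
theorem a221 : FOk par ft 250 := chkA_ok a220 (by decide) c220
theorem a222 : FOk par ft 251 := chkA_ok a221 (by decide) c221
theorem a223 : FOk par ft 252 := chkA_ok a222 (by decide) c222
theorem a224 : FOk par ft 253 := chkA_ok a223 (by decide) c223
theorem a225 : FOk par ft 254 := chkA_ok a224 (by decide) c224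
theorem a226 : FOk par ft 255 := chkA_ok a225 (by decide) c225
theorem a227 : FOk par ft 256 := chkA_ok a226 (by decide) c226
theorem a228 : FOk par ft 257 := chkA_ok a227 (by decide) c227
theorem a229 : FOk par ft 258 := chkA_ok a228 (by decide) c228
theorem a230 : FOk par ft 259 := chkA_ok a229 (by decide) c229
theorem a231 : FOk par ft 260 := chkA_ok a230 (by decide) c230
theorem a232 : FOk par ft 261 := chkA_ok a231 (by decide) c231
theorem a233 : FOk par ft 263 := chkA_ok a232 (by decide) c232
theorem a234 : FOk par ft 264 := chkA_ok a233 (by decide) c233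
theorem a235 : FOk par ft 265 := chkA_ok a234 (by decide) c234
theorem a236 : FOk par ft 266 := chkA_ok a235 (by decide) c235
theorem a237 : FOk par ft 267 := chkA_ok a236 (by decide) c236
theorem a238 : FOk par ft 268 := chkA_ok a237 (by decide) c237
theorem a239 : FOk par ft 269 := chkA_ok a238 (by decide) c238
theorem a240 : FOk par ft 270 := chkA_ok a239 (by decide) c239
theorem a241 : FOk par ft 271 := chkA_ok a240 (by decide) c240
theorem a242 : FOk par ft 272 := chkA_ok a241 (by decide) c241
theorem a243 : FOk par ft 273 := chkA_ok a242 (by decide) c242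
theorem a244 : FOk par ft 274 := chkA_ok a243 (by decide) c243
theorem a245 : FOk par ft 275 := chkA_ok a244 (by decide) c244
theorem a246 : FOk par ft 277 := chkA_ok a245 (by decide) c245
theorem a247 : FOk par ft 278 := chkA_ok a246 (by decide) c246
theorem a248 : FOk par ft 279 := chkA_ok a247 (by decide) c247
theorem a249 : FOk par ft 280 := chkA_ok a248 (by decide) c248
theorem a250 : FOk par ft 281 := chkA_ok a249 (by decide) c249
theorem a251 : FOk par ft 282 := chkA_ok a250 (by decide) c250
theorem a252 : FOk par ft 284 := chkA_ok a251 (by decide) c251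
theorem a253 : FOk par ft 285 := chkA_ok a252 (by decide) c252
theorem a254 : FOk par ft 286 := chkA_ok a253 (by decide) c253
theorem a255 : FOk par ft 289 := chkA_ok a254 (by decide) c254
theorem a256 : FOk par ft 295 := chkA_ok a255 (by decide) c255

theorem all : FOk par ft 295 := a256

end Pool.Agent.P.MP_8598be_al.Ck.D5
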