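import Pool.Agent.P.MP_8598be_al.Ck.Chk
import Pool.Agent.P.MP_8598be_al.K.SDefs

/-!
The meaning of the data of the checker.
-/

namespace Pool.Agent.P.MP_8598be_al.Ck

open Z K MvPolynomial

/-- The computation `x` succeeds with the result `r`. -/
def Is (x r : Res) : Prop := x = r ∧ r ≠ Res.no

theorem ifb_eq {α : Type} (c : Bool) (x y : α) : ifb c x y = if c = true then x else y := by
  cases c <;> rfl

theorem ifb_true {α : Type} (x y : α) : ifb true x y = x := rfl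

theorem ifb_false {α : Type} (x y : α) : ifb false x y = y := rfl

theorem frc_eq (n : ℕ) (k : ℕ → Res) : frc n k = k n := rfl

theorem fpo_eq (p n b dv : ℕ) (k : Po → Res) : fpo p n b dv k = k ⟨p, n, b, dv⟩ := rfl

theorem sw_zero (x : Res) (y : ℕ → Res) : sw 0 x y = x := rfl

theorem sw_succ (n : ℕ) (x : Res) (y : ℕ → Res) : sw (n + 1) x y = y n := rfl

theorem lc_eq (a b : ℕ) : lc a b = Nat.lcm a b := rfl

theorem p2_eq (i : ℕ) : p2 i = 2 ^ i := by
  change 1 <<< i = _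
  rw [Nat.shiftLeft_eq, one_mul]

theorem ndiv (a b : ℕ) : a.div b = a / b := rfl

theorem nmod (a b : ℕ) : a.mod b = a % b := rfl

theorem nshl (a b : ℕ) : a.shiftLeft b = a <<< b := rfl

theorem nshr (a b : ℕ) : a.shiftRight b = a >>> b := rfl

theorem tb_eq (x i : ℕ) : tb x i = x.testBit i := by
  rw [Nat.testBit_eq_decide_div_mod_eq, ← Nat.shiftRight_eq_div_pow, Bool.eq_iff_iff,
    decide_eq_true_eq]
  exact Nat.beq_eq.to_iff

theorem not_is_no {r : Res} : ¬ Is Res.no r := fun h => h.2 h.1.symm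

theorem is_ok {c c' : ℕ} {t t' : List ℕ} {a a' : List Out} (h : Is (.ok c t a) (.ok c' t' a')) :
    a' = a := by
  cases h.1
  rfl

theorem chk_is {c : Bool} {k r : Res} (h : Is (chk c k) r) : c = true ∧ Is k r := by
  cases c
  · exact (not_is_no h).elim
  · exact ⟨rfl, h⟩

theorem chn_is {c : Bool} {k r : Res} (h : Is (chn c k) r) : c = false ∧ Is k r := by
  cases c
  · exact ⟨rfl, h⟩
  · exact (not_is_no h).elim

theorem ifb_is {c : Bool} {x y r : Res} (h : Is (ifb c x y) r) :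
    (c = true ∧ Is x r) ∨ (c = false ∧ Is y r) := by
  cases c
  · exact .inr ⟨rfl, h⟩
  · exact .inl ⟨rfl, h⟩

theorem sw_is {n : ℕ} {x r : Res} {y : ℕ → Res} (h : Is (sw n x y) r) :
    Is x r ∨ ∃ m, Is (y m) r := by
  cases n
  · exact .inl h
  · exact .inr ⟨_, h⟩

theorem bnd_is {x r : Res} {k : ℕ → List ℕ → List Out → Res} (h : Is (bnd x k) r) :
    ∃ c t a, Is x (.ok c t a) ∧ Is (k c t a) r := by
  cases x
  · exact (not_is_no h).elim
  · exact ⟨_, _, _, ⟨rfl, fun e => by cases e⟩, h⟩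

theorem sml_is {P : Par} {lim b dv : ℕ} {k r : Res} (h : Is (sml P lim b dv k) r) :
    b < P.M ∧ dv ∣ lim ∧ Is k r := by
  obtain ⟨h1, h⟩ := chk_is h
  obtain ⟨h2, h⟩ := chk_is h
  exact ⟨Nat.le_of_ble_eq_true h1, Nat.dvd_of_mod_eq_zero (Nat.eq_of_beq_eq_true h2), h⟩

/-- The radix of a variable. -/
def rad (P : Par) (i : ℕ) : ℕ := (P.S >>> (i * 8)) % 256

/-- The parameters are consistent. -/
structure POK (P : Par) : Prop where
  be : 1 ≤ P.be
  M : P.M = 2 ^ P.be - 1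
  w0 : ww P 0 = 1
  ws : ∀ i, i < 5 → ww P (i + 1) = ww P i * rad P i
  rad : ∀ i, i < 6 → 2 ≤ rad P i
  LIM : P.LIM = ∏ i : Fin 6, pw P i
  phi1 : P.L = 1 → P.phi = ⟨0, 0, 0, 1⟩
  phi : P.L ≠ 1 → P.phi = ⟨∑ e ∈ Finset.range P.L, 2 ^ (P.be * e), 0, P.L, 2 ^ (P.L - 1)⟩
  L : P.L = 1 ∨ P.L.Prime
  Ld : P.L ≤ P.d
  B : 2 ≤ P.B
  Bd : P.Bd = P.B ^ (P.d - 1)
  BL : P.BL = P.B ^ P.L
  BL1 : P.BL1 = P.B ^ (P.L - 1)

/-- The parameters together with the permutation of the letters. -/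
class Cx (P : Par) where
  /-- The permutation. -/
  σ : Equiv.Perm (Fin P.d)
  hσ : ∀ x : Fin P.d, (σ x : ℕ) = if (x : ℕ) < P.L then ((x : ℕ) + 1) % P.L else x
  hL : σ ^ P.L = 1
  ok : POK P

/-- A prime field with a primitive root of unity. -/
structure Pt (L : ℕ) where
  /-- The prime. -/
  p : ℕ
  hp : Fact p.Prime
  /-- The root of unity. -/
  ζ : ZMod p
  hζ : IsPrimitiveRoot ζ L

instance {L : ℕ} (y : Pt L) : Fact y.p.Prime := y.hp

/-- The points of the space of parameters. -/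
abbrev Pt.V {L : ℕ} (y : Pt L) : Type := Fin 6 → ZMod y.p

/-- Large primes. -/
def big (L : ℕ) : Filter (Pt L) := Filter.comap Pt.p Filter.atTop

/-- Congruence modulo `p - 1` for large `p`. -/
def Cg {L : ℕ} (f g : Pt L → ℤ) : Prop := ∀ᶠ y in big L, ((y.p : ℤ) - 1) ∣ f y - g y

/-- Constant modulo `p - 1` for large `p`. -/
def ECF {L : ℕ} (f : Pt L → ℤ) : Prop := ∃ c : ℤ, Cg f fun _ => c

/-- The first coordinate is the root of unity. -/
def Zc {L : ℕ} (y : Pt L) (ρ : y.V) : Prop := L ≠ 1 → ρ 0 = y.ζ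

/-- The symmetry at a prime field. -/
def sy (P : Par) [Cx P] (y : Pt P.L) : Sy (ZMod y.p) (Fin P.d) :=
  ⟨Cx.σ, P.L, y.ζ, Cx.ok.L, Cx.hL, y.hζ⟩

/-- Polynomials with natural coefficients. -/
abbrev Rn : Type := MvPolynomial (Fin 6) ℕ

/-- Polynomials with integer coefficients. -/
abbrev Rz : Type := MvPolynomial (Fin 6) ℤ

noncomputable section

/-- Packing of a polynomial. -/
def kp (P : Par) : Rn →+* ℕ := MvPolynomial.eval fun i => 2 ^ (P.be * ww P i)

/-- The sum of the coefficients. -/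
def l1 : Rn →+* ℕ := MvPolynomial.eval fun _ => 1

/-- The degrees are bounded by the exponents of the primes in `dv`. -/
def Dg (A : Rn) (dv : ℕ) : Prop := ∀ m ∈ A.support, (∏ i : Fin 6, pr i ^ m i) ∣ dv

/-- The inclusion. -/
def toZ : Rn →+* Rz := MvPolynomial.map (Nat.castRingHom ℤ)

/-- Evaluation. -/
def ev {F : Type} [CommRing F] (ρ : Fin 6 → F) : Rz →+* F :=
  MvPolynomial.eval₂Hom (Int.castRingHom F) ρ

/-- The packed polynomial `x` stands for `a`. -/
def Den (P : Par) (x : Po) (a : Rz) : Prop :=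
  ∃ A B : Rn, kp P A = x.p ∧ kp P B = x.n ∧ l1 A + l1 B ≤ x.b ∧ Dg A x.dv ∧ Dg B x.dv ∧
    a = toZ A - toZ B

/-- Unpacking. -/
def dec (P : Par) (n : ℕ) : Rn :=
  Classical.epsilon fun A => kp P A = n ∧ l1 A < 2 ^ P.be ∧ Dg A P.LIM

/-- The value of a pair of numbers. -/
def vz (P : Par) (p n : ℕ) : Rz := toZ (dec P p) - toZ (dec P n)

/-- The value of a packed polynomial. -/
def vp (P : Par) (x : Po) : Rz := vz P x.p x.n

/-- The packed polynomial stands for its value. -/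
def Cn (P : Par) (x : Po) : Prop := Den P x (vp P x)

/-- The packed polynomial stands for its value and uses the allowed variables. -/
def POk (P : Par) (lim : ℕ) (x : Po) : Prop := Cn P x ∧ x.dv ∣ lim

/-- Packing of a vector. -/
def kv (P : Par) (W : ℕ) : Polynomial Rn →+* ℕ := Polynomial.eval₂RingHom (kp P) (2 ^ W)

/-- The sum of all coefficients of a vector. -/
def lv : Polynomial Rn →+* ℕ := Polynomial.eval₂RingHom l1 1

/-- The degrees of a vector are bounded. -/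
def Dgv (A : Polynomial Rn) (dv : ℕ) : Prop := ∀ r, Dg (A.coeff r) dv

/-- The packed vector `x` stands for `a`. -/
def Dev (P : Par) (W : ℕ) (x : Po) (a : Polynomial Rz) : Prop :=
  ∃ A B : Polynomial Rn, kv P W A = x.p ∧ kv P W B = x.n ∧ lv A + lv B ≤ x.b ∧ Dgv A x.dv ∧
    Dgv B x.dv ∧ a = A.map toZ - B.map toZ

/-- The width `W` is large enough for the degree bound `dvm`. -/
def WOk (P : Par) (W dvm : ℕ) : Prop :=
  dvm ∣ P.LIM ∧ ∃ m : Fin 6 → ℕ, dvm = ∏ i : Fin 6, pr i ^ m i ∧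
    W = P.be * (∑ i : Fin 6, m i * ww P i + 1)

/-- Every number below the mask is a packed polynomial. -/
def Msk (P : Par) (m dv b : ℕ) : Prop :=
  ∀ q, q &&& m = q → ∃ Q : Rn, kp P Q = q ∧ 2 * l1 Q ≤ b ∧ Dg Q dv

/-- The region. -/
def InR (P : Par) (G E : List Po) (y : Pt P.L) (ρ : y.V) : Prop :=
  Zc y ρ ∧ (∀ x ∈ G, ev ρ (vp P x) ≠ 0) ∧ ∀ x ∈ E, ev ρ (vp P x) = 0

/-- The property holds on the region for large primes. -/
def Al (P : Par) (G E : List Po) (Q : ∀ y : Pt P.L, y.V → Prop) : Prop :=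
  ∀ᶠ y in big P.L, ∀ ρ, InR P G E y ρ → Q y ρ

open Classical in
/-- The sum over the points with the property `R`. -/
def sS {L : ℕ} (R : ∀ y : Pt L, y.V → Prop) (f : ∀ y : Pt L, y.V → ℤ) (y : Pt L) : ℤ :=
  ∑ ρ : y.V, if R y ρ then f y ρ else 0

/-- The sum over the region. -/
def sm (P : Par) (g : Rg) (f : ∀ y : Pt P.L, y.V → ℤ) : Pt P.L → ℤ := sS (InR P g.G g.E) f

/-- The number of points of the region is constant. -/
def RE (P : Par) (g : Rg) : Prop := ECF (sm P g fun _ _ => 1)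

/-- The region is well formed. -/
structure ROk (P : Par) (g : Rg) : Prop where
  lim : g.lim ∣ P.LIM
  z : P.L ≠ 1 → 2 ∣ g.lim
  G : ∀ x ∈ g.G, POk P g.lim x
  E : ∀ x ∈ g.E, POk P g.lim x

/-- The digits of a multidegree. -/
def dw (P : Par) (w : ℕ) : Fin P.d → ℕ := fun x => w / P.B ^ (x : ℕ) % P.B

/-- The code of a multidegree of total degree `D`. -/
def WD (P : Par) (D w : ℕ) : Prop := w < P.B ^ P.d ∧ tot (dw P w) = D

/-- The terms `t` stand for the terms `l`, with total weight at most `b`. -/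
inductive TD (P : Par) (dv : ℕ) : ℕ → List Tm → Tms Rz → Prop
  | nil (b : ℕ) : TD P dv b [] []
  | cons {b b₁ b₂ : ℕ} {x : Tm} {a : Rz} {t : List Tm} {l : Tms Rz} :
      Den P ⟨x.p, x.n, b₁, dv⟩ a → TD P dv b₂ t l → b₁ + b₂ ≤ b →
        TD P dv b (x :: t) ((x.j, x.l, a) :: l)

/-- The values of terms. -/
def tz (P : Par) (t : List Tm) : Tms Rz := t.map fun x => (x.j, x.l, vz P x.p x.n)

/-- Evaluation of terms. -/
def tev {F : Type} [CommRing F] (ρ : Fin 6 → F) (l : Tms Rz) : Tms F :=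
  l.map fun x => (x.1, x.2.1, ev ρ x.2.2)

/-- The terms are oriented. -/
def Ori (t : List Tm) : Prop := ∀ x ∈ t, x.j < x.l

/-- The terms are well formed. -/
def TOk (P : Par) (lim b dv : ℕ) (t : List Tm) : Prop := TD P dv b t (tz P t) ∧ dv ∣ lim ∧ Ori t

/-- The entry is well formed. -/
def EOk (P : Par) (lim : ℕ) (e : En) : Prop := TOk P lim e.b e.dv e.t

/-- The pending coproduct is well formed. -/
def KOk (P : Par) (lim : ℕ) (a : Kp) : Prop := TOk P lim a.b a.dv a.t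

section

variable (P : Par) {F : Type} [CommRing F] (ρ : Fin 6 → F)

/-- The value of an entry. -/
def fe (e : En) : EnF F (Fin P.d) := ⟨e.i, dw P e.w, tev ρ (tz P e.t)⟩

/-- The value of a pair. -/
def pe (x : Pr) : EnF F (Fin P.d) × EnF F (Fin P.d) := (fe P ρ x.a, fe P ρ x.b)

/-- The value of a pending coproduct. -/
def kz (a : Kp) : Tms F := tev ρ (tz P a.t)

/-- The entries of a state. -/
def ents (s : St) : List En := s.lo.flatten ++ (s.cur ++ s.hi.flatten)

/-- The frame of a state. -/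
def frm (s : St) : List (EnF F (Fin P.d)) := (ents s).map (fe P ρ)

/-- The value of a node. -/
def nd (x : Nd) : (Fin P.d → ℕ) × ℕ := (dw P x.w, x.e)

end

/-- A layer of degree `D`. -/
def Lay (P : Par) (D : ℕ) (l : List En) : Prop := ∀ e ∈ l, WD P D e.w

/-- The layers below degree `D`. -/
def LoOk (P : Par) : ℕ → List (List En) → Prop
  | D, [] => D = 1
  | D, l :: lo => ∃ D', D = D' + 1 ∧ Lay P D' l ∧ LoOk P D' lo

/-- The layers above degree `D`. -/
def HiOk (P : Par) : ℕ → List (List En) → Prop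
  | _, [] => True
  | D, l :: hi => Lay P (D + 1) l ∧ HiOk P (D + 1) hi

/-- The state is well formed. -/
structure SOk (P : Par) (lim : ℕ) (s : St) : Prop where
  lo : LoOk P s.D s.lo
  cur : Lay P s.D s.cur
  hi : HiOk P s.D s.hi
  en : ∀ e ∈ ents s, EOk P lim e
  nd : ((ents s).map En.i).Nodup
  U : ∀ e ∈ ents s, s.U.testBit e.i = true
  N : s.N = (ents s).length

/-- The two pairs are different unordered pairs of indices. -/
def Dif (x x' : Pr) : Prop :=
  ¬ (x.a.i = x'.a.i ∧ x.b.i = x'.b.i) ∧ ¬ (x.a.i = x'.b.i ∧ x.b.i = x'.a.i)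

/-- The list of all pairs of total degree `D`. -/
structure APs (P : Par) (D : ℕ) (l : List En) (prs : List Pr) : Prop where
  mem : ∀ x ∈ prs, x.a ∈ l ∧ x.b ∈ l ∧ x.w = x.a.w + x.b.w ∧
    tot (dw P x.a.w) + tot (dw P x.b.w) = D ∧ x.a.i ≠ x.b.i
  all : ∀ a ∈ l, ∀ b ∈ l, a.i ≠ b.i → tot (dw P a.w) + tot (dw P b.w) = D →
    (⟨a.w + b.w, a, b⟩ : Pr) ∈ prs ∨ (⟨b.w + a.w, b, a⟩ : Pr) ∈ prs
  pw : prs.Pairwise Dif

/-- The list contains the pairs with multidegree `w`. -/
structure PrsOk (P : Par) (l : List En) (prs : List Pr) (w : ℕ) : Prop where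
  mem : ∀ x ∈ prs, x.w = w →
    x.a ∈ l ∧ x.b ∈ l ∧ dw P x.a.w + dw P x.b.w = dw P w ∧ x.a.i ≠ x.b.i
  all : ∀ a ∈ l, ∀ b ∈ l, a.i ≠ b.i → dw P a.w + dw P b.w = dw P w →
    (⟨w, a, b⟩ : Pr) ∈ prs ∨ (⟨w, b, a⟩ : Pr) ∈ prs
  pw : prs.Pairwise Dif

/-- The data for the columns are consistent. -/
def BOk (P : Par) (b : Bn) : Prop := WOk P b.W b.dvm ∧ 0 < b.nr ∧ b.H = b.W * b.nr

/-- The accumulator of a column. -/
def Acu (P : Par) (b : Bn) (acc bd dv : ℕ) (a : Polynomial Rz) : Prop :=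
  ∃ A B : Polynomial Rn, acc = kv P b.W A + kv P b.W B * 2 ^ b.H ∧ lv A + lv B ≤ bd ∧ Dgv A dv ∧
    Dgv B dv ∧ (∀ r, b.nr ≤ r → A.coeff r = 0) ∧ a = A.map toZ - B.map toZ

/-- The sum of the coefficients whose keys are in the row `r`. -/
def rv {F : Type} [Field F] (b : Bn) (l : List (ℕ × F)) (r : ℕ) : F :=
  (l.map fun x => if row b x.1 = r then x.2 else 0).sum

/-- The keys are determined by their rows. -/
def KyOk {F : Type} [Field F] (b : Bn) (l : List (ℕ × F)) : Prop :=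
  b.z = 1 → ∀ x ∈ l, x.2 ≠ 0 → (b.T2 >>> (b.kw * row b x.1)) % 2 ^ b.kw = x.1

/-- The packed vector has the given values. -/
def DvF (P : Par) (W : ℕ) (x : Po) (f : ∀ y : Pt P.L, y.V → ℕ → ZMod y.p) : Prop :=
  ∃ a, Dev P W x a ∧ ∀ y ρ, Zc y ρ → ∀ r, ev ρ (a.coeff r) = f y ρ r

/-- The powers for a substitution. -/
def pwz (u v : Rz) (n : ℕ) : List Rz := (List.range (n + 1)).map fun k => u ^ (n - k) * v ^ k

/-- The substitution. -/
def up {F : Type} [Field F] (i : Fin 6) (u v : Rz) (ρ : Fin 6 → F) : Fin 6 → F :=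
  Function.update ρ i (ev ρ v / ev ρ u)

/-- The polynomial does not depend on the variable. -/
def Ind (i : Fin 6) (a : Rz) : Prop :=
  ∀ (F : Type) [CommRing F] (ρ : Fin 6 → F) (t : F), ev (Function.update ρ i t) a = ev ρ a

/-- The result of solving an equation. -/
structure SubOk (P : Par) (g : Rg) (i : Fin 6) (T : List Po) (g' : Rg) (u v : Rz) (n : ℕ) :
    Prop where
  ok : ROk P g'
  ec : g'.ec = g.ec
  lim : g'.lim * pw P i = g.lim
  np : ¬ pr i ∣ g'.lim
  T : List.Forall₂ (Den P) T (pwz u v n)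
  iu : Ind i u
  iv : Ind i v
  un : Al P g'.G g'.E fun _ ρ => ev ρ u ≠ 0
  reg : ∀ᶠ y in big P.L, ∀ ρ : y.V, (InR P g'.G g'.E y ρ ↔ InR P g.G g.E y (up i u v ρ)) ∧
    (InR P g.G g.E y ρ → up i u v ρ = ρ)

/-- The conditions of an output. -/
def InA (P : Par) {F : Type} [CommRing F] (ρ : Fin 6 → F) : List ℕ → Prop
  | k :: p :: n :: a => (if k = 0 then ev ρ (vz P p n) ≠ 0 else ev ρ (vz P p n) = 0) ∧ InA P ρ a
  | _ => True

/-- The number of points of an output. -/
def nA (P : Par) (a : List ℕ) : Pt P.L → ℤ := sS (fun y ρ => Zc y ρ ∧ InA P ρ a) fun _ _ => 1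

/-- The type is given by the list up to level `j`. -/
def Mt (P : Par) (γ : Ty (Fin P.d)) (j : ℕ) (ty : List ℕ) : Prop :=
  γ 0 = tyL (ty.map (dw P)) ∧ ∀ i, 1 ≤ i → i ≤ j → γ i = 0

open Classical in
/-- The value of a list of outputs. -/
def ov (P : Par) (γ : Ty (Fin P.d)) (j : ℕ) (o : List Out) (y : Pt P.L) : ℤ :=
  (o.map fun x => if Mt P γ j x.ty then ((x.p : ℤ) - x.n) * nA P x.a y else 0).sum

variable (P : Par) [Cx P]

/-- The column belongs to the pair. -/
structure ColOk (b : Bn) (ν : Nd) (c : Cl) (x : Pr) : Prop where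
  ha : c.a = x.a.i
  hb : c.b = x.b.i
  bd : c.x.b < P.M
  dv : c.x.dv ∣ b.dvm
  val : DvF P b.W c.x fun y ρ => rv b (colT (sy P y) (nd P ν) (pe P ρ x))
  key : ∀ (y : Pt P.L) (ρ : y.V), KyOk b (colT (sy P y) (nd P ν) (pe P ρ x))

/-- The nodes are well formed. -/
def TdOk (D : ℕ) (td : List Nd) : Prop :=
  D < P.B ∧ (∀ x ∈ td, WD P D x.w ∧ x.e < P.L) ∧ ∀ y : Pt P.L, TodoOk (sy P y) D (td.map (nd P))

/-- The state, the nodes and the pairs are well formed. -/
def NOk (lim : ℕ) (s : St) (prs : List Pr) (td : List Nd) : Prop :=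
  SOk P lim s ∧ TdOk P s.D td ∧ ∀ x ∈ td, PrsOk P s.lo.flatten prs x.w

/-- The mode and the state are well formed. -/
def MOk (lim : ℕ) (s : St) : Md → Prop
  | .deg => SOk P lim s
  | .todo prs td => NOk P lim s prs td
  | .node prs w e rest => NOk P lim s prs (⟨w, e⟩ :: rest)
  | .pend prs w e rest A pd => NOk P lim s prs (⟨w, e⟩ :: rest) ∧ ∀ a ∈ A ++ pd, KOk P lim a
  | .cnt _ _ _ => True

/-- The frame can be realised. -/
def Gd (s : St) (y : Pt P.L) (ρ : y.V) : Prop := GoodF (sy P y) (frm P ρ s)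

/-- The frame can be realised and the pending coproducts form a basis. -/
def MGd (s : St) : Md → ∀ y : Pt P.L, y.V → Prop
  | .pend _ w e _ A pd => fun y ρ => Gd P s y ρ ∧
      PendOk (sy P y) (frm P ρ s) (nd P ⟨w, e⟩) ((A ++ pd).map (kz P ρ))
  | .cnt _ _ _ => fun _ _ => True
  | _ => Gd P s

open Classical in
/-- The value of a mode and a state. -/
def val (γ : Ty (Fin P.d)) (s : St) : Md → ∀ y : Pt P.L, y.V → ℤ
  | .deg => fun y ρ => vDeg (sy P y) γ (frm P ρ s) s.j s.D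
  | .todo _ td => fun y ρ => vTodo (sy P y) γ (frm P ρ s) s.j s.D (td.map (nd P))
  | .node _ w e rest => fun y ρ =>
      vPend (sy P y) γ (frm P ρ s) s.j s.D (nd P ⟨w, e⟩) (rest.map (nd P)) []
  | .pend _ w e rest A _ => fun y ρ =>
      vPend (sy P y) γ (frm P ρ s) s.j s.D (nd P ⟨w, e⟩) (rest.map (nd P)) (A.map (kz P ρ))
  | .cnt ty p n => fun _ _ => if Mt P γ 0 ty then (p : ℤ) - n else 0

/-- The hypotheses on the type. -/
def BR (γ : Ty (Fin P.d)) (s : St) : Prop := Bud P.lo γ s.j s.N s.r ∧ Reach γ P.m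

/-- The hypotheses on the type in a mode. -/
def MH (γ : Ty (Fin P.d)) (s : St) : Md → Prop
  | .cnt _ _ _ => True
  | _ => BR P γ s

/-- The level. -/
def lev (s : St) : Md → ℕ
  | .cnt _ _ _ => 0
  | _ => s.j

/-- The assumptions of a step. -/
structure Pre (m : Md) (s : St) (g : Rg) : Prop where
  rg : ROk P g
  md : MOk P g.lim s m
  gd : Al P g.G g.E (MGd P s m)
  ec : g.ec = true → RE P g

/-- The conclusion of a step. -/
def Post (m : Md) (s : St) (g : Rg) (o : List Out) : Prop :=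
  ∀ γ, MH P γ s m → ECF fun y => sm P g (val P γ s m) y - ov P γ (lev s m) o y

/-- The computation `x` adds correct outputs to `a`. -/
def Sd (x : Res) (a : List Out) (m : Md) (s : St) (g : Rg) : Prop :=
  Pre P m s g → ∀ c' t' a', Is x (.ok c' t' a') → ∃ o, a' = o ++ a ∧ Post P m s g o

/-- The recursive call is correct. -/
def GoOk (go : Go) : Prop := ∀ m s g c t a, Sd P (go m s g c t a) a m s g

/-- The mode of a fact. -/
def fm : List Nd → Md
  | [] => .deg
  | x :: rest => .node [] x.w x.e rest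

/-- The assumptions of a fact. -/
structure Pre0 (td : List Nd) (s : St) (g : Rg) : Prop where
  rg : ROk P g
  st : SOk P g.lim s
  td : td ≠ [] → TdOk P s.D td
  gd : Al P g.G g.E (Gd P s)
  ec : g.ec = true → RE P g

/-- The fact is correct. -/
def FV (f : Fc) : Prop :=
  (f.k = true → Pre0 P f.td f.st f.rg → Post P (fm f.td) f.st f.rg f.o) ∧
    (f.k = false → ROk P f.rg → RE P f.rg)

omit [Cx P] in
/-- The fact with a given number. -/
def fct (FT : List (List Fc)) (i : ℕ) : Option Fc := (FT.getD (i / 128) [])[i % 128]?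

/-- The facts with small numbers are correct. -/
def FOk (FT : List (List Fc)) (rk : ℕ) : Prop :=
  ∀ i f, i < rk → fct FT i = some f → FV P f

end

end Pool.Agent.P.MP_8598be_al.Ck
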