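import Pool.Agent.P.MP_8598be_al.Ck.T1

/-!
Combinations with fresh variables.
-/

namespace Pool.Agent.P.MP_8598be_al.Ck

open Z K MvPolynomial

variable {P : Par} [Cx P] {r : Res}

theorem tr_I1 {F : Type} [Field F] {t t' t'' : Tms F} (h : TRel 1 t t') (h' : TRel 1 t' t'') :
    TRel 1 t t'' := one_mul (1 : F) ▸ trel_trans h h'

theorem merge_I1 {F : Type} [Field F] (t : Tms F) (a b : ℕ) {u v w : F} (e : u = w + v) :
    TRel 1 ((a, b, v) :: (a, b, w) :: t) ((a, b, u) :: t) := by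
  subst e
  refine ⟨fun i j => ?_, fun x hx => ?_⟩
  · simp only [co, List.map_cons, List.sum_cons]
    split_ifs <;> ring
  · rcases List.mem_cons.1 hx with rfl | hx
    · exact ⟨_, List.mem_cons_self, .inl ⟨rfl, rfl⟩⟩
    · exact ⟨x, List.mem_cons_of_mem _ (List.mem_cons_of_mem _ hx), .inl ⟨rfl, rfl⟩⟩

omit [Cx P] in
theorem addT_I1 {i j p n b b₁ dv : ℕ} {a : Rz} {t : List Tm} {l : Tms Rz} {k : List Tm → Res}
    (hx : Den P ⟨p, n, b₁, dv⟩ a) (hij : i < j) (ht : TD P dv b t l) (ho : Ori t)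
    (h : Is (addT i j p n t k) r) : ∃ t' l', TD P dv (b + b₁) t' l' ∧ Ori t' ∧
      (∀ (F : Type) [Field F] (ρ : Fin 6 → F), TRel 1 ((i, j, ev ρ a) :: tev ρ l) (tev ρ l')) ∧
      Is (k t') r := by
  induction ht generalizing k with
  | nil b =>
    exact ⟨[⟨i, j, p, n⟩], [(i, j, a)], .cons hx (.nil b) (add_comm _ _).le,
      fun x hx => List.mem_singleton.1 hx ▸ hij, fun F _ ρ => trel_refl _, h⟩
  | @cons b b₂ b₃ x a' t l h1 h2 h3 ih =>
    have ho' : Ori t := fun y hy => ho y (List.mem_cons_of_mem _ hy)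
    rcases ifb_is h with ⟨e, h⟩ | ⟨-, h⟩
    · obtain ⟨rfl, rfl⟩ : x.j = i ∧ x.l = j := by simpa [ifb_eq] using e
      exact ⟨⟨x.j, x.l, x.p + p, x.n + n⟩ :: t, (x.j, x.l, a' + a) :: l,
        .cons (b₁ := b₂ + b₁) ((h1.add hx).mono rfl rfl le_rfl (Nat.lcm_dvd dvd_rfl dvd_rfl)) h2
          (by omega), fun y hy => (List.mem_cons.1 hy).elim (fun e => e ▸ hij) (ho' y),
        fun F _ ρ => merge_I1 _ _ _ (map_add (ev ρ) a' a), h⟩
    · obtain ⟨t', l', a1, a2, a3, a4⟩ := ih ho' h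
      exact ⟨x :: t', (x.j, x.l, a') :: l', .cons h1 a1 (by omega),
        fun y hy => (List.mem_cons.1 hy).elim (fun e => e ▸ ho x List.mem_cons_self) (a2 y),
        fun F _ ρ => tr_I1 (trel_perm (.swap _ _ _)) (trel_cons (a3 F ρ) _ _ (one_mul _).symm), a4⟩

omit [Cx P] in
theorem addK_I1 {i : Fin 6} {b b' dv dv' : ℕ} {u t : List Tm} {l l₀ : Tms Rz} {k : List Tm → Res}
    (hu : TD P dv' b' u l₀) (hu' : Ori u) (hd : dv' * pr i ∣ dv) (ht : TD P dv b t l) (ho : Ori t)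
    (h : Is (addK (P.be * ww P i) u k t) r) : ∃ t' l', TD P dv (b + b') t' l' ∧ Ori t' ∧
      (∀ (F : Type) [Field F] (ρ : Fin 6 → F),
        TRel 1 (tev ρ l ++ (tev ρ l₀).map fun x => (x.1, x.2.1, ρ i * x.2.2)) (tev ρ l')) ∧
      Is (k t') r := by
  induction hu generalizing b t l with
  | nil b' =>
    exact ⟨t, l, ht.mono (Nat.le_add_right _ _) dvd_rfl, ho,
      fun F _ ρ => trel_perm (.of_eq (List.append_nil _)), h⟩
  | @cons b' b₁ b₂ x a u l₀ h1 h2 h3 ih =>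
    obtain ⟨t₁, l₁, a1, a2, a3, a4⟩ := addT_I1 (b₁ := b₁) (dv := dv)
      ((h1.shl i).mono rfl rfl le_rfl hd) (hu' x List.mem_cons_self) ht ho h
    obtain ⟨t', l', c1, c2, c3, c4⟩ := ih (fun y hy => hu' y (List.mem_cons_of_mem _ hy)) a1 a2 a4
    refine ⟨t', l', c1.mono (by omega) dvd_rfl, c2, fun F _ ρ => tr_I1 (trel_perm List.perm_middle)
      (tr_I1 (trel_append (t := (x.j, x.l, ρ i * ev ρ a) :: tev ρ l) ?_ (trel_refl _)) (c3 F ρ)),
      c4⟩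
    simpa [ev] using a3 F ρ

theorem cmb_spec {A : List Kp} {k : ℕ → ℕ → ℕ → List Tm → ℕ → Res} {lim lim₀ b dv c : ℕ}
    {t : List Tm} {l : Tms Rz} (hl : lim ∣ P.LIM) (hA : ∀ a ∈ A, KOk P lim₀ a)
    (ht : TD P dv b t l) (ho : Ori t) (h : Is (cmb P A k lim b dv t c) r) :
    ∃ (is : List (Fin 6)) (lim' b' dv' : ℕ) (T : List Tm) (l' : Tms Rz) (c' : ℕ),
      is.length = A.length ∧ is.Nodup ∧ (∀ i ∈ is, ¬ pr (i : ℕ) ∣ lim) ∧ lim ∣ lim' ∧
      lim' ∣ P.LIM ∧ TD P dv' b' T l' ∧ Ori T ∧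
      (∀ (F : Type) [Field F] (ρ : Fin 6 → F),
        TRel 1 (comb (tev ρ l) (A.map (kz P ρ)) (is.map ρ)) (tev ρ l')) ∧
      Is (k lim' b' dv' T c') r := by
  induction A generalizing lim b dv c t l with
  | nil =>
    exact ⟨[], lim, b, dv, t, l, c, rfl, List.nodup_nil, fun _ h => (List.not_mem_nil h).elim, dvd_rfl,
      hl, ht, ho, fun F _ ρ => trel_perm (.of_eq (List.append_nil _)), h⟩
  | cons a A ih =>
    obtain ⟨h1, h⟩ := chn_is h
    obtain ⟨i, hi⟩ : ∃ i : Fin 6, (i : ℕ) = (c.mod 8).mod 6 :=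
      ⟨⟨_, Nat.mod_lt _ (by norm_num)⟩, rfl⟩
    have h2 : ¬ pr i ∣ lim := fun e =>
      Nat.ne_of_beq_eq_false h1 (Nat.mod_eq_zero_of_dvd (hi ▸ e))
    obtain ⟨a1, -, a2⟩ := hA a List.mem_cons_self
    obtain ⟨t₁, l₁, b1, b2, b3, b4⟩ := addK_I1 (i := i) a1 a2 (Nat.dvd_lcm_right dv _)
      (ht.mono le_rfl (Nat.dvd_lcm_left _ _)) ho (k := fun t' => cmb P A k (lim * pw P i) (b + a.b)
        (Nat.lcm dv (a.dv * pr i)) t' (c >>> 3)) (hi ▸ h)
    obtain ⟨is, lim', b', dv', T, l', c', c1, c2, c3, c4, c5, c6, c7, c8, c9⟩ :=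
      ih (fresh_lim hl h2) (fun x hx => hA x (List.mem_cons_of_mem _ hx)) b1 b2 b4
    refine ⟨i :: is, lim', b', dv', T, l', c', congrArg (· + 1) c1, List.nodup_cons.2
      ⟨fun e => c3 i e ((pr_dvd_pw i).mul_left _), c2⟩, fun j hj => (List.mem_cons.1 hj).elim
      (fun e => e ▸ h2) fun e d => c3 j e (d.mul_right _), (Dvd.intro _ rfl).trans c4, c5, c6, c7,
      fun F _ ρ => tr_I1 (trel_perm (.of_eq (List.append_assoc _ _ _).symm))
        (tr_I1 (trel_append (b3 F ρ) (trel_refl _)) (c8 F ρ)), c9⟩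

end Pool.Agent.P.MP_8598be_al.Ck
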