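import Pool.Agent.P.MP_8598be_al.Ck.S0
import Pool.Agent.P.MP_8598be_al.Ck.W1
import Pool.Agent.P.MP_8598be_al.Ck.T1

/-!
Installation of an orbit.
-/

namespace Pool.Agent.P.MP_8598be_al.Ck

open Z K MvPolynomial

variable {P : Par} [Cx P] {r : Res}

theorem trans_I2 {F : Type} [Field F] {t t' t'' : Tms F} (h : TRel 1 t t') (h' : TRel 1 t' t'') :
    TRel 1 t t'' := by
  simpa using trel_trans h h'

theorem ftrans_I2 {F X : Type} [Field F] {fr fr' fr'' : List (EnF F X)} (h : FRel 1 fr fr')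
    (h' : FRel 1 fr' fr'') : FRel 1 fr fr'' := by
  simpa using frel_trans h h'

/-- The transport of a term. -/
def mv_I2 {L : ℕ} (y : Pt L) (t : ℕ) (x : ℕ × ℕ × ZMod y.p) : ℕ × ℕ × ZMod y.p :=
  ((K.pi L)^[t] x.1, (K.pi L)^[t] x.2.1, y.ζ ^ (t * (ep L x.1 + ep L x.2.1)) * x.2.2)

theorem mv_rel_I2 (y : Pt P.L) (t : ℕ) {l l' : Tms (ZMod y.p)} (h : TRel 1 l l') :
    TRel 1 (l.map (mv_I2 y t)) (l'.map (mv_I2 y t)) :=
  trel_map h ((pi_inj (L_pos P)).iterate t) (g := fun a b => y.ζ ^ (t * (ep P.L a + ep P.L b)))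
    fun a b => by rw [add_comm]

theorem root_I2 {L : ℕ} {y : Pt L} {ρ : y.V} (h : Zc y ρ) (n : ℕ) : ρ 0 ^ (n % L) = y.ζ ^ n := by
  have h1 := y.hζ.pow_eq_one
  by_cases hL : L = 1
  · subst hL
    rw [pow_one] at h1
    rw [Nat.mod_one, pow_zero, h1, one_pow]
  · rw [h hL]
    exact (pow_eq_pow_mod n h1).symm

omit [Cx P] in
theorem trn_cons_I2 (t : ℕ) (x : Tm) (T : List Tm) (k : ℕ → List Tm → Res) (mx : ℕ) (R : List Tm) :
    trn P t (x :: T) k mx R = mkT (pit P.L t x.j) (pit P.L t x.l)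
      (x.p <<< (P.be * exT P.L t x)) (x.n <<< (P.be * exT P.L t x)) R
      (trn P t T k (mx + (exT P.L t x - mx))) := rfl

theorem trn_gen_I2 {t b dv : ℕ} {T : List Tm} {l : Tms Rz} {k : ℕ → List Tm → Res}
    (hT : TD P dv b T l) : ∀ (mx c : ℕ) (R : List Tm) (lR : Tms Rz), TD P (dv * p2 mx) c R lR →
      Ori R → Is (trn P t T k mx R) r → ∃ mx' T' l', TD P (dv * p2 mx') (c + b) T' l' ∧ Ori T' ∧
        (∀ (y : Pt P.L) (ρ : y.V), Zc y ρ →
          TRel 1 ((tev ρ l).map (mv_I2 y t) ++ tev ρ lR) (tev ρ l')) ∧ Is (k mx' T') r := by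
  induction hT with
  | nil b =>
    exact fun mx c R lR hR ho h => ⟨mx, R, lR, hR.mono (Nat.le_add_right _ _) dvd_rfl, ho,
      fun y ρ _ => trel_refl _, h⟩
  | @cons b b₁ b₂ x a T l hx _ hb ih =>
    intro mx c R lR hR ho h
    rw [trn_cons_I2] at h
    have h1 : Den P ⟨x.p <<< (P.be * exT P.L t x), x.n <<< (P.be * exT P.L t x), b₁,
        dv * p2 (mx + (exT P.L t x - mx))⟩ (X 0 ^ exT P.L t x * a) :=
      (hx.shz _).mono rfl rfl le_rfl (by
        rw [p2_eq]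
        exact mul_dvd_mul_left _ (pow_dvd_pow 2 (by omega)))
    have h2 : TD P (dv * p2 (mx + (exT P.L t x - mx))) c R lR := hR.mono le_rfl (by
      rw [p2_eq, p2_eq]
      exact mul_dvd_mul_left _ (pow_dvd_pow 2 (by omega)))
    obtain ⟨R', lR', h3, h4, h5, h⟩ := mkT_spec h1 h2 ho h
    obtain ⟨mx', T', l', h6, h7, h8, h⟩ := ih _ _ _ _ h3 h4 h
    refine ⟨mx', T', l', h6.mono (by omega) dvd_rfl, h7, fun y ρ hz => ?_, h⟩
    refine trans_I2 (trans_I2 (trel_perm ?_) (trel_append (trel_refl _) (h5 _ ρ))) (h8 y ρ hz)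
    have e : mv_I2 y t (x.j, x.l, ev ρ a) =
        (pit P.L t x.j, pit P.L t x.l, ev ρ (X 0 ^ exT P.L t x * a)) := by
      have e1 : ev ρ (X 0 : Rz) = ρ 0 := MvPolynomial.eval₂Hom_X' _ _ _
      have e2 : exT P.L t x = t * (ep P.L x.j + ep P.L x.l) % P.L := by
        rw [← epi_eq, ← epi_eq]; rfl
      rw [pit_eq (L_pos P), pit_eq (L_pos P), map_mul, map_pow, e1, e2, root_I2 hz]
      rfl
    rw [← e]
    exact List.perm_middle.symm

theorem trn_spec {t b dv : ℕ} {T : List Tm} {l : Tms Rz} {k : ℕ → List Tm → Res}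
    (hT : TD P dv b T l) (h : Is (trn P t T k 0 []) r) :
    ∃ mx T' l', TD P (dv * p2 mx) b T' l' ∧ Ori T' ∧
      (∀ (y : Pt P.L) (ρ : y.V), Zc y ρ → TRel 1 ((tev ρ l).map fun x =>
        ((K.pi P.L)^[t] x.1, (K.pi P.L)^[t] x.2.1,
          y.ζ ^ (t * (ep P.L x.1 + ep P.L x.2.1)) * x.2.2)) (tev ρ l')) ∧ Is (k mx T') r := by
  obtain ⟨mx, T', l', h1, h2, h3, h⟩ := trn_gen_I2 hT 0 0 [] [] (.nil _) (fun _ hx => by cases hx) h
  refine ⟨mx, T', l', h1.mono (by omega) dvd_rfl, h2, fun y ρ hz => ?_, h⟩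
  have := h3 y ρ hz
  rwa [show tev ρ ([] : Tms Rz) = [] from rfl, List.append_nil] at this

omit [Cx P] in
theorem orbit_succ_I2 (lim b dv i₀ : ℕ) (T : List Tm) (n : ℕ) (k : List En → Res) (t w : ℕ)
    (cur : List En) : orbit P lim b dv i₀ T (n + 1) k t w cur =
      trn P t T (fun mx T' => chk ((lim % (dv * p2 mx)).beq 0) (srtT T' fun T' =>
        orbit P lim b dv i₀ T n k (t + 1) (rot P w)
          (⟨i₀ + t * 2, rot P w, b, dv * p2 mx, T'⟩ :: cur))) 0 [] := rfl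

/-- The entry number `u` of the orbit. -/
structure Orb_I2 (P : Par) (lim w : ℕ) (l : Tms Rz) (ix : ℕ → ℕ) (u : ℕ) (x : En) : Prop where
  hi : x.i = ix u
  hw : x.w = (rot P)^[u] w
  ok : EOk P lim x
  rel : ∀ (y : Pt P.L) (ρ : y.V), Zc y ρ →
    TRel 1 ((tev ρ l).map (mv_I2 y u)) (tev ρ (tz P x.t))

omit [Cx P] in
theorem ori_perm_I2 {T T' : List Tm} (h : Ori T) (p : T.Perm T') : Ori T' :=
  fun x hx => h x (p.mem_iff.2 hx)

theorem tev_perm_I2 {F : Type} [Field F] (ρ : Fin 6 → F) {l l' : Tms Rz} (p : l.Perm l') :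
    TRel 1 (tev ρ l) (tev ρ l') := trel_perm (p.map _)

theorem orbit_I2 {lim b dv i₀ w : ℕ} {T : List Tm} {l : Tms Rz} {k : List En → Res}
    (hl : lim ∣ P.LIM) (hb : b < P.M) (hT : TD P dv b T l) (n : ℕ) : ∀ (t : ℕ) (cur : List En),
      Is (orbit P lim b dv i₀ T n k (t + 1) ((rot P)^[t] w) cur) r →
      ∃ nw, List.Forall₂ (Orb_I2 P lim w l fun u => i₀ + u * 2) (List.range' (t + 1) n) nw ∧
        Is (k (nw.reverse ++ cur)) r := by
  induction n with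
  | zero => exact fun t cur h => ⟨[], .nil, h⟩
  | succ n ih =>
    intro t cur h
    rw [orbit_succ_I2, ← Function.iterate_succ_apply' (rot P)] at h
    obtain ⟨mx, T', l', h1, h2, h3, h⟩ := trn_spec hT h
    obtain ⟨h4, h⟩ := chk_is h
    have hd : dv * p2 mx ∣ lim := Nat.dvd_of_mod_eq_zero (Nat.eq_of_beq_eq_true h4)
    obtain ⟨T'', p, h⟩ := srtT_spec h
    obtain ⟨l'', p', h5⟩ := h1.perm p
    obtain rfl := h5.tz_eq hb (hd.trans hl)
    obtain ⟨nw, h6, h⟩ := ih _ _ h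
    refine ⟨⟨_, _, b, dv * p2 mx, T''⟩ :: nw, .cons ⟨rfl, rfl, ⟨h5, hd, ori_perm_I2 h2 p⟩,
      fun y ρ hz => trans_I2 (h3 y ρ hz) (tev_perm_I2 ρ p')⟩ h6, ?_⟩
    rwa [List.reverse_cons, List.append_assoc]

omit [Cx P] in
theorem inst_eq_I2 (lo : List (List En)) (cur : List En) (hi : List (List En))
    (N U j q D lim w e b dv c : ℕ) (T : List Tm) (k : St → ℕ → Res) :
    inst P ⟨lo, cur, hi, N, U, j, q, D⟩ lim w e b dv T c k =
      chk ((U >>> (c % 256 * P.L * 2) % p2 (P.L * 2)).beq 0) (chk (((j + 1) * orN P w).ble q)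
        (sml P lim b dv (srtT T fun T => orbit P lim b dv (c % 256 * P.L * 2) T (orN P w - 1)
          (fun cur => k ⟨lo, cur, hi, N + orN P w,
            U ||| (p2 (P.L * 2) - 1) <<< (c % 256 * P.L * 2), j, q - (j + 1) * orN P w, D⟩ (c >>> 8))
          1 w (⟨ifb (fxb P w) (c % 256 * P.L * 2 + e * 2 + 1) (c % 256 * P.L * 2), w, b, dv, T⟩ ::
            cur)))) := rfl

omit [Cx P] in
theorem orN_I2 (w : ℕ) : (fxb P w = true ∧ orN P w = 1) ∨ (fxb P w = false ∧ orN P w = P.L) := by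
  unfold fxb orN
  rcases h1 : P.L.beq (nat_lit 1) with _ | _ <;> rcases h2 : (rot P w).beq w with _ | _
  · exact .inr ⟨rfl, rfl⟩
  · exact .inl ⟨rfl, rfl⟩
  · exact .inr ⟨rfl, rfl⟩
  · exact .inr ⟨rfl, (Nat.eq_of_beq_eq_true h1).symm⟩

theorem pi_even_I2 {L g t : ℕ} (h : t < L) :
    K.pi L (g * L * 2 + t * 2) = g * L * 2 + (t + 1) % L * 2 := by
  have h1 : (g * L * 2 + t * 2) / 2 = t + L * g := by
    rw [mul_comm L]
    omega
  rw [K.pi, if_neg (by omega), h1, Nat.add_mul_div_left _ _ (by omega), Nat.add_mul_mod_self_left,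
    Nat.div_eq_of_lt h, Nat.mod_eq_of_lt h]
  ring

theorem ep_odd_I2 {L g e : ℕ} (h : e < L) : ep L (g * L * 2 + e * 2 + 1) = e := by
  have h1 : (g * L * 2 + e * 2 + 1) / 2 = e + L * g := by
    rw [mul_comm L]
    omega
  rw [ep, if_pos (by omega), h1, Nat.add_mul_mod_self_left, Nat.mod_eq_of_lt h]

theorem forall₂_mem_I2 {α β : Type} {R : α → β → Prop} {l : List α} {l' : List β}
    (h : List.Forall₂ R l l') {x : β} (hx : x ∈ l') : ∃ u ∈ l, R u x := by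
  induction h with
  | nil => cases hx
  | cons h _ ih =>
    rcases List.mem_cons.1 hx with rfl | hx
    · exact ⟨_, List.mem_cons_self, h⟩
    · obtain ⟨u, h1, h2⟩ := ih hx
      exact ⟨u, List.mem_cons_of_mem _ h1, h2⟩

/-- The new entries are added to the state. -/
theorem add_I2 {s : St} {lim w i₀ o r' : ℕ} {l : Tms Rz} {ix : ℕ → ℕ} {x : En} {nw : List En}
    (hs : SOk P lim s) (hw : WD P s.D w) (h : List.Forall₂ (Orb_I2 P lim w l ix) (List.range o) (x :: nw))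
    (hU : s.U >>> i₀ % p2 (P.L * 2) = 0) (hx : ∀ u < o, i₀ ≤ ix u ∧ ix u < i₀ + P.L * 2)
    (hi : ∀ u u', u < o → u' < o → ix u = ix u' → u = u') :
    SOk P lim ⟨s.lo, nw.reverse ++ x :: s.cur, s.hi, s.N + o,
      s.U ||| (p2 (P.L * 2) - 1) <<< i₀, s.j, r', s.D⟩ ∧
    (ents s ++ x :: nw).Perm (ents ⟨s.lo, nw.reverse ++ x :: s.cur, s.hi, s.N + o,
      s.U ||| (p2 (P.L * 2) - 1) <<< i₀, s.j, r', s.D⟩) ∧ ∀ u < o, ∀ a ∈ ents s, a.i ≠ ix u := by
  have p : (ents s ++ x :: nw).Perm (ents ⟨s.lo, nw.reverse ++ x :: s.cur, s.hi, s.N + o,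
      s.U ||| (p2 (P.L * 2) - 1) <<< i₀, s.j, r', s.D⟩) := by
    simp only [ents, List.append_assoc]
    refine List.Perm.append_left _ ?_
    rw [← List.append_assoc]
    refine List.perm_append_comm.trans ?_
    refine ((List.reverse_perm (x :: nw)).symm.append_right _).trans ?_
    rw [List.reverse_cons, List.append_assoc]
    rfl
  have fr : ∀ u < o, ∀ a ∈ ents s, a.i ≠ ix u := by
    intro u hu a ha e
    have h1 := hs.U a ha
    obtain ⟨h2, h3⟩ := hx u hu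
    have h4 : (s.U >>> i₀ % p2 (P.L * 2)).testBit (ix u - i₀) = false := by
      rw [hU, Nat.zero_testBit]
    rw [p2_eq, Nat.testBit_mod_two_pow, Nat.testBit_shiftRight, Nat.add_sub_cancel' h2, ← e, h1,
      decide_eq_true (by omega)] at h4
    cases h4
  have hm : ∀ a ∈ x :: nw, ∃ u < o, Orb_I2 P lim w l ix u a := fun a ha => by
    obtain ⟨u, h1, h2⟩ := forall₂_mem_I2 h ha
    exact ⟨u, List.mem_range.1 h1, h2⟩
  refine ⟨⟨hs.lo, fun a ha => ?_, hs.hi, fun a ha => ?_, ?_, fun a ha => ?_, ?_⟩, p, fr⟩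
  · have : a ∈ x :: nw ∨ a ∈ s.cur := by
      simp only [List.mem_append, List.mem_reverse, List.mem_cons] at ha ⊢
      tauto
    rcases this with ha | ha
    · obtain ⟨u, -, h2⟩ := hm a ha
      rw [h2.hw]
      exact (rot_iter hw u).1
    · exact hs.cur a ha
  · rcases List.mem_append.1 (p.mem_iff.2 ha) with ha | ha
    · exact hs.en a ha
    · obtain ⟨u, -, h2⟩ := hm a ha
      exact h2.ok
  · refine (p.map En.i).nodup_iff.1 ?_
    have e : (List.range o).map ix = (x :: nw).map En.i := by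
      rw [← List.forall₂_eq_eq_eq, List.forall₂_map_left_iff, List.forall₂_map_right_iff]
      exact h.imp fun _ _ h => h.hi.symm
    rw [List.map_append, ← e]
    refine List.Nodup.append hs.nd (List.nodup_range.map_on fun u hu u' hu' =>
      hi u u' (List.mem_range.1 hu) (List.mem_range.1 hu')) fun i h1 h2 => ?_
    obtain ⟨a, ha, rfl⟩ := List.mem_map.1 h1
    obtain ⟨u, hu, e⟩ := List.mem_map.1 h2
    exact fr u (List.mem_range.1 hu) a ha e.symm
  · show (s.U ||| (p2 (P.L * 2) - 1) <<< i₀).testBit a.i = true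
    rw [Nat.testBit_lor, Bool.or_eq_true]
    rcases List.mem_append.1 (p.mem_iff.2 ha) with ha | ha
    · exact .inl (hs.U a ha)
    · obtain ⟨u, h1, h2⟩ := hm a ha
      obtain ⟨h3, h4⟩ := hx u h1
      right
      rw [p2_eq, Nat.testBit_shiftLeft, Nat.testBit_two_pow_sub_one, h2.hi, decide_eq_true h3,
        decide_eq_true (by omega)]
      rfl
  · rw [← p.length_eq, List.length_append, ← hs.N, ← h.length_eq, List.length_range]

theorem inst_spec {s : St} {lim w e b dv c : ℕ} {T : List Tm} {l : Tms Rz} {k : St → ℕ → Res}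
    (hl : lim ∣ P.LIM) (hs : SOk P lim s) (hw : WD P s.D w) (he : e < P.L) (hT : TD P dv b T l)
    (ho : Ori T) (h : Is (inst P s lim w e b dv T c k) r) :
    ∃ (s' : St) (c' : ℕ) (ix : ℕ → ℕ), SOk P lim s' ∧ s'.lo = s.lo ∧ s'.j = s.j ∧ s'.D = s.D ∧
      (s.j + 1) * s'.N + s'.r = (s.j + 1) * s.N + s.r ∧
      (∀ (y : Pt P.L) (ρ : y.V), IxOk (sy P y) (frm P ρ s) (nd P ⟨w, e⟩) ix ∧
        (Zc y ρ → ∀ T₀, TRel 1 T₀ (tev ρ l) →
          FRel 1 (install (sy P y) (frm P ρ s) (dw P w) T₀ ix) (frm P ρ s'))) ∧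
      Is (k s' c') r := by
  obtain ⟨lo, cur, hi, N, U, j, q, D⟩ := s
  rw [inst_eq_I2] at h
  generalize c % 256 = g at h
  obtain ⟨h1, h⟩ := chk_is h
  obtain ⟨h2, h⟩ := chk_is h
  obtain ⟨hb, hd, h⟩ := sml_is h
  obtain ⟨T₁, p, h⟩ := srtT_spec h
  obtain ⟨l₁, p₁, hT₁⟩ := hT.perm p
  obtain rfl := hT₁.tz_eq hb (hd.trans hl)
  obtain ⟨nw, h3, h⟩ := orbit_I2 (w := w) hl hb hT₁ _ 0 _ h
  have hL := L_pos P
  have hq : (j + 1) * orN P w ≤ q := Nat.le_of_ble_eq_true h2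
  obtain ⟨ix, hix⟩ : ∃ ix : ℕ → ℕ, ix = fun u =>
    ifb (fxb P w) (g * P.L * 2 + e * 2 + 1) (g * P.L * 2 + u * 2) := ⟨_, rfl⟩
  have hc : (fxb P w = true ∧ orN P w = 1 ∧ ∀ u, ix u = g * P.L * 2 + e * 2 + 1) ∨
      (fxb P w = false ∧ orN P w = P.L ∧ ∀ u, ix u = g * P.L * 2 + u * 2) :=
    (orN_I2 w).imp (fun h => ⟨h.1, h.2, fun u => by rw [hix, h.1]; rfl⟩)
      fun h => ⟨h.1, h.2, fun u => by rw [hix, h.1]; rfl⟩
  have h4 : List.Forall₂ (Orb_I2 P lim w (tz P T₁) ix) (List.range (orN P w))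
      (⟨ifb (fxb P w) (g * P.L * 2 + e * 2 + 1) (g * P.L * 2), w, b, dv, T₁⟩ :: nw) := by
    obtain ⟨n, hn⟩ : ∃ n, orN P w = n + 1 := ⟨orN P w - 1, by rcases hc with h | h <;> omega⟩
    rw [hn, Nat.add_sub_cancel] at h3
    rw [hn, List.range_eq_range', List.range'_succ]
    refine .cons ⟨by rw [hix]; rfl, rfl, ⟨hT₁, hd, ori_perm_I2 ho p⟩, fun y ρ _ => ?_⟩ ?_
    · have : mv_I2 y 0 = id := by
        funext x
        simp [mv_I2]
      rw [this, List.map_id]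
      exact trel_refl _
    · rcases hc with h | h
      · obtain rfl : n = 0 := by omega
        cases h3
        exact .nil
      · rwa [funext h.2.2]
  have hi' : ∀ u u', u < orN P w → u' < orN P w → ix u = ix u' → u = u' := by
    intro u u' hu hu' e
    rcases hc with h | h
    · omega
    · rw [h.2.2, h.2.2] at e
      omega
  obtain ⟨h5, h6, h7⟩ := add_I2 (i₀ := g * P.L * 2) (r' := q - (j + 1) * orN P w) hs hw h4
    (Nat.eq_of_beq_eq_true h1)
    (fun u hu => by rcases hc with h | h <;> rw [h.2.2] <;> omega) hi'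
  refine ⟨_, _, ix, h5, rfl, rfl, rfl, ?_, fun y ρ => ?_, h⟩
  · show (j + 1) * (N + orN P w) + (q - (j + 1) * orN P w) = (j + 1) * N + q
    rw [mul_add]
    omega
  have eo : orb (sy P y) (dw P w) = orN P w := (orN_eq hw.1 y).symm
  have ef := fxb_iff hw.1 y
  refine ⟨⟨fun t ht a ha => ?_, fun t t' ht ht' => hi' t t' (eo ▸ ht) (eo ▸ ht'),
    fun t ht => ?_, fun hf => ?_, fun hf t _ => ?_⟩, fun hz T₀ hT₀ => ?_⟩
  · obtain ⟨a', ha', rfl⟩ := List.mem_map.1 ha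
    exact h7 t (eo ▸ ht) a' ha'
  · change t < orb (sy P y) (dw P w) at ht
    change K.pi P.L (ix t) = ix ((t + 1) % orb (sy P y) (dw P w))
    rw [eo] at ht ⊢
    rcases hc with h | h
    · rw [h.2.2, h.2.2, K.pi, if_pos (by omega)]
    · rw [h.2.2, h.2.2, h.2.1, pi_even_I2 (h.2.1 ▸ ht)]
  · rcases hc with h | h
    · exact (congrArg _ (h.2.2 0)).trans (ep_odd_I2 he)
    · rw [ef.2 hf] at h
      cases h.1
  · rcases hc with h | h
    · exact (hf (ef.1 h.1)).elim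
    · change ep P.L (ix t) = 0
      rw [h.2.2, ep, if_neg (by omega)]
  · refine ftrans_I2 ?_ (frel_perm (h6.map (fe P ρ)))
    rw [List.map_append, install, eo]
    refine frel_append (frel_perm (.refl _)) ⟨_, ?_, .refl _⟩
    rw [List.forall₂_map_left_iff, List.forall₂_map_right_iff]
    refine h4.imp fun u x hx => ⟨hx.hi, ?_, trans_I2
      (mv_rel_I2 y u (trans_I2 hT₀ (tev_perm_I2 ρ p₁))) (hx.rel y ρ hz)⟩
    change dw P x.w = _
    rw [hx.hw]
    exact (rot_iter hw u).2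

end Pool.Agent.P.MP_8598be_al.Ck
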