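import Pool.Agent.P.MP_8598be_al.Ck.S1

/-!
The end of a level and the use of facts.
-/

namespace Pool.Agent.P.MP_8598be_al.Ck

open Z K MvPolynomial

variable {P : Par} [Cx P] {go : Go} {s : St} {g : Rg} {c c' : ℕ} {t t' : List ℕ}
  {a a' : List Out}

theorem pre_cnt (hg : ROk P g) (he : g.ec = true → RE P g) (ty : List ℕ) (p n : ℕ) (s : St) :
    Pre P (.cnt ty p n) s g :=
  ⟨hg, trivial, Al.of_forall fun _ _ _ => trivial, he⟩

/-- A count without outputs shows that the number of points is constant. -/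
theorem re_of_cnt (hgo : GoOk P go) (hg : ROk P g) (he : g.ec = false) {o : List Out}
    (h : Is (go (Md.cnt [] 1 0) st0 g c t []) (.ok c' t' o)) (ho : nil (cancel o) = true) :
    RE P g := by
  obtain ⟨o', e, hp⟩ := hgo _ _ _ _ _ _
    (pre_cnt hg (fun h' => by rw [he] at h'; cases h') [] 1 0 st0) _ _ _ h
  rw [List.append_nil] at e
  subst e
  refine (hp 0 trivial).cg (Cg.of_eq (Filter.Eventually.of_forall fun y => ?_))
  change _ = _ - ov P 0 0 o y
  rw [← ov_cancel, nil_iff.1 ho, ov_nil, sub_zero]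
  congr 1
  funext y ρ
  simp only [val, if_pos (mt_zero (P := P))]
  rfl

theorem ecf_zero {v : ∀ y : Pt P.L, y.V → ℤ} {γ : Ty (Fin P.d)} {j : ℕ}
    (h : Al P g.G g.E fun y ρ => v y ρ = 0) : ECF fun y => sm P g v y - ov P γ j [] y := by
  refine (ecf_const 0).cg (((sS_zero h).sub (Cg.refl _)).trans (Cg.of_eq ?_))
  exact Filter.Eventually.of_forall fun y => by rw [ov_nil, sub_zero]

theorem ecf_congr {v v' : ∀ y : Pt P.L, y.V → ℤ} {f : Pt P.L → ℤ}
    (h : Al P g.G g.E fun y ρ => v y ρ = v' y ρ) (e : ECF fun y => sm P g v' y - f y) :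
    ECF fun y => sm P g v y - f y :=
  e.cg ((sS_eq (Filter.Eventually.mono h fun _ h' ρ => ⟨Iff.rfl, h' ρ⟩)).sub (Cg.refl _))

/-- A leaf: the value is `p` if the type is `ty` and zero otherwise. -/
theorem leaf_spec (hgo : GoOk P go) (hg : ROk P g) (he : g.ec = true → RE P g) {ty : List ℕ}
    {p : ℕ} (h : Is (ifb g.ec (Res.ok c t a) (go (Md.cnt ty p 0) st0 g c t a)) (.ok c' t' a')) :
    ∃ o, a' = o ++ a ∧ ∀ (γ : Ty (Fin P.d)) (v : ∀ y : Pt P.L, y.V → ℤ),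
      (Al P g.G g.E fun y ρ => (Mt P γ 0 ty → ((y.p : ℤ) - 1) ∣ v y ρ - p) ∧
        (¬ Mt P γ 0 ty → v y ρ = 0)) → ECF fun y => sm P g v y - ov P γ 0 o y := by
  have key : ∀ (γ : Ty (Fin P.d)) (v : ∀ y : Pt P.L, y.V → ℤ),
      (Al P g.G g.E fun y ρ => (Mt P γ 0 ty → ((y.p : ℤ) - 1) ∣ v y ρ - p) ∧
        (¬ Mt P γ 0 ty → v y ρ = 0)) → Cg (sm P g v) (sm P g (val P γ st0 (.cnt ty p 0))) :=
    fun γ v hv => sS_cg (Filter.Eventually.mono hv fun y h' ρ => ⟨Iff.rfl, fun hρ => by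
      by_cases hm : Mt P γ 0 ty
      · simpa only [val, if_pos hm, Nat.cast_zero, sub_zero] using (h' ρ hρ).1 hm
      · simp only [val, if_neg hm, (h' ρ hρ).2 hm, sub_zero, dvd_zero]⟩)
  rcases ifb_is h with ⟨e, h⟩ | ⟨e, h⟩
  · refine ⟨[], is_ok h, fun γ v hv => ?_⟩
    classical
    refine ((ecf_const (if Mt P γ 0 ty then (p : ℤ) - (0 : ℕ) else 0)).mul (he e)).cg
      (((key γ v hv).sub (Cg.refl _)).trans (Cg.of_eq (Filter.Eventually.of_forall fun y => ?_)))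
    rw [ov_nil, sub_zero]
    exact sS_const _ (fun _ => if Mt P γ 0 ty then (p : ℤ) - (0 : ℕ) else 0) y
  · obtain ⟨o, e', hp⟩ := hgo _ _ _ _ _ _ (pre_cnt hg he ty p 0 st0) _ _ _ h
    exact ⟨o, e', fun γ v hv => (hp γ trivial).cg ((key γ v hv).sub (Cg.refl _))⟩

theorem lvl1_M1 (hgo : GoOk P go) (hg : ROk P g) (he : g.ec = true → RE P g) {s' : St} {j : ℕ}
    {cur : List En} {hi : List (List En)} (hs : SOk P g.lim s) (hj : s.j = j + 1)
    (e' : s' = ⟨[], cur, hi, s.N, s.U, j, s.r, 1⟩) (hs' : SOk P g.lim s')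
    (p : (ents s).Perm (ents s')) (hd : Al P g.G g.E (Gd P s))
    (h : Is (lvl1 go cur hi s.N s.U j s.r g c t a) (.ok c' t' a')) :
    ∃ o, a' = o ++ a ∧ ∀ γ, BR P γ s →
      ECF fun y => sm P g (fun y ρ => vEnd (sy P y) γ (frm P ρ s) s.j) y - ov P γ s.j o y := by
  have hr : ∀ (y : Pt P.L) (ρ : y.V), FRel 1 (frm P ρ s) (frm P ρ s') := fun y ρ =>
    frel_perm (p.map _)
  have hp : Pre P .deg s' g := ⟨hg, hs', hd.mono fun y ρ _ h' =>
    (kk_of_frel one_ne_zero (hr y ρ) h' 0 0 0).1, he⟩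
  have k1 : ∀ γ, BR P γ s → γ (j + 1) = tyL (((ents s).map En.w).map (dw P)) → ∀ o,
      Post P .deg s' g o → ECF fun y =>
        sm P g (fun y ρ => vEnd (sy P y) γ (frm P ρ s) s.j) y - ov P γ j o y := by
    intro γ hγ e o ho
    have h1 : Bud P.lo γ j s.N s.r := by
      have h2 := hγ.1
      rw [hj, hs.N, ← List.length_map En.w, ← List.length_map (dw P)] at h2
      have h3 := bud_succ h2 e
      rwa [List.length_map, List.length_map, ← hs.N] at h3
    have h2 := ho γ (by subst e'; exact ⟨h1, hγ.2⟩)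
    have h3 : lev s' .deg = j := by subst e'; rfl
    rw [h3] at h2
    refine ecf_congr (hd.mono fun y ρ _ h' => ?_) h2
    rw [hj, (end_succ h').1 (by rw [frm_w]; exact e),
      ← (kk_of_frel one_ne_zero (hr y ρ) h' γ j 1).2.1]
    subst e'
    rfl
  have k2 : ∀ γ, γ (j + 1) ≠ tyL (((ents s).map En.w).map (dw P)) →
      Al P g.G g.E fun y ρ => ((vEnd (sy P y) γ (frm P ρ s) s.j : ℕ) : ℤ) = 0 :=
    fun γ e => hd.mono fun y ρ _ h' => by
      rw [hj, (end_succ h').2 (by rw [frm_w]; exact e), Nat.cast_zero]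
  rcases ifb_is h with ⟨e, h⟩ | ⟨_, h⟩
  · obtain ⟨o, e₁, ho⟩ := hgo _ _ _ _ _ _ (e' ▸ hp) _ _ _ h
    refine ⟨o, e₁, fun γ hγ => ?_⟩
    have h0 : tyL (((ents s).map En.w).map (dw P)) = 0 := by
      have : ents s = [] := List.length_eq_zero_iff.1 (hs.N ▸ Nat.eq_of_beq_eq_true e)
      rw [this]
      rfl
    by_cases e₂ : γ (j + 1) = 0
    · simpa only [hj, ov_succ e₂] using k1 γ hγ (h0 ▸ e₂) o (e' ▸ ho)
    · simpa only [hj, ov_succ_ne e₂, ov_nil] using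
        ecf_zero (γ := γ) (j := 0) (k2 γ (h0 ▸ e₂))
  · obtain ⟨c₁, t₁, o, h₁, h⟩ := bnd_is h
    obtain ⟨e₀, h⟩ := chk_is h
    obtain ⟨o', e₁, ho⟩ := hgo _ _ _ _ _ _ (e' ▸ hp) _ _ _ h₁
    rw [List.append_nil] at e₁
    subst e₁
    refine ⟨[], is_ok h, fun γ hγ => ?_⟩
    by_cases e₂ : γ (j + 1) = tyL (((ents s).map En.w).map (dw P))
    · have := k1 γ hγ e₂ o (e' ▸ ho)
      simpa only [← ov_cancel o, nil_iff.1 e₀, ov_nil] using this
    · exact ecf_zero (k2 γ e₂)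

theorem lvl_spec (hgo : GoOk P go) (hg : ROk P g) (hs : SOk P g.lim s)
    (hd : Al P g.G g.E (Gd P s)) (he : g.ec = true → RE P g)
    (h : Is (lvl P go s g c t a) (.ok c' t' a')) : ∃ o, a' = o ++ a ∧ ∀ γ, BR P γ s →
      ECF fun y => sm P g (fun y ρ => vEnd (sy P y) γ (frm P ρ s) s.j) y - ov P γ s.j o y := by
  obtain ⟨lo, cur, hi, N, U, j, r, D⟩ := s
  cases j with
  | zero =>
    have hm : ∀ γ, Mt P γ 0 (wtsS ⟨lo, cur, hi, N, U, 0, r, D⟩ []) ↔
        γ 0 = tyL (((ents ⟨lo, cur, hi, N, U, 0, r, D⟩).map En.w).map (dw P)) := fun γ => by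
      rw [wtsS_eq, List.append_nil]
      exact ⟨fun h => h.1, fun h => ⟨h, fun i h1 h2 => by omega⟩⟩
    rcases ifb_is h with ⟨_, h⟩ | ⟨e, h⟩
    · obtain ⟨o, e', ho⟩ := leaf_spec hgo hg he h
      refine ⟨o, e', fun γ _ => ho γ _ (hd.mono fun y ρ _ h' => ⟨fun h1 => ?_, fun h1 => ?_⟩)⟩
      · rw [(end_zero h').1 (by rw [frm_w]; exact (hm γ).1 h1)]
        simp
      · rw [(end_zero h').2 (by rw [frm_w]; exact fun h2 => h1 ((hm γ).2 h2)), Nat.cast_zero]
    · refine ⟨[], is_ok h, fun γ hγ => ecf_zero (hd.mono fun y ρ _ h' => ?_)⟩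
      rw [(end_zero h').2 fun h1 => ?_, Nat.cast_zero]
      have h2 := hγ.1
      rw [← hs.len ρ, ← List.length_map EnF.w] at h2
      rcases bud_zero h2 h1 with h3 | h3
      · change r = 0 at h3
        subst h3
        cases e
      · rw [ifb_eq] at e
        split_ifs at e
        exact absurd (Nat.ble_eq_true_of_le h3) (by rw [Bool.not_eq_true]; exact e)
  | succ j =>
    obtain ⟨cur', p, h⟩ := srtK_spec (f := En.i) (l := cur) (t := []) h
    rw [List.append_nil] at p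
    obtain ⟨h1, h2⟩ := hs.level p rfl j
    refine lvl1_M1 (c := c) (t := t) (c' := c') (t' := t') hgo hg he hs rfl rfl h1 h2 hd ?_
    revert h
    dsimp only
    cases rva (ifb (nil hi) (dropN (cur' :: lo)) (cur' :: lo)) hi <;> exact fun h => h

omit [Cx P] in
theorem eqP_M1 {lim lim' : ℕ} {l l' : List Po} (hl : ∀ x ∈ l, POk P lim x)
    (h : eqL (eqP lim') l l' = true) :
    (∀ x ∈ l', POk P lim' x) ∧ l'.map (vp P) = l.map (vp P) := by
  have h1 := eqL_spec h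
  clear h
  induction h1 with
  | nil => exact ⟨fun _ h => (by cases h), rfl⟩
  | @cons x x' l l' e _ ih =>
    obtain ⟨i1, i2⟩ := ih fun z hz => hl z (List.mem_cons_of_mem _ hz)
    simp only [eqP, ifb_eq, Bool.if_false_right, Bool.and_eq_true, decide_eq_true_eq, Nat.beq_eq,
      Nat.ble_eq] at e
    obtain ⟨e1, e2, e3, e4, e5⟩ := e
    have e6 : vp P x' = vp P x := by rw [vp, vp, e1, e2]
    refine ⟨fun z hz => ?_, by rw [List.map_cons, List.map_cons, i2, e6]⟩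
    rcases List.mem_cons.1 hz with rfl | hz
    · refine ⟨?_, Nat.dvd_of_mod_eq_zero e5⟩
      rw [Cn, e6]
      exact (hl x List.mem_cons_self).1.mono e1.symm e2.symm e3 (Nat.dvd_of_mod_eq_zero e4)
    · exact i1 z hz

omit [Cx P] in
theorem eqR_spec {G E : List Po} {lim : ℕ} {g' : Rg} (hG : ∀ x ∈ G, POk P lim x)
    (hE : ∀ x ∈ E, POk P lim x) (h : eqR P G E g' = true) :
    ROk P g' ∧ InR P g'.G g'.E = InR P G E := by
  simp only [eqR, ifb_eq (α := Bool), Bool.if_false_right, Bool.and_eq_true, decide_eq_true_eq,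
    Nat.beq_eq, Bool.if_true_left, Bool.or_eq_true] at h
  obtain ⟨e1, e2, e3, e4⟩ := h
  obtain ⟨a1, a2⟩ := eqP_M1 hG e3
  obtain ⟨b1, b2⟩ := eqP_M1 hE e4
  refine ⟨⟨Nat.dvd_of_mod_eq_zero e1, fun h => Nat.dvd_of_mod_eq_zero (e2.resolve_left h), a1, b1⟩,
    ?_⟩
  funext y ρ
  have k : ∀ (l : List Po) (Q : Rz → Prop), (∀ x ∈ l, Q (vp P x)) ↔ ∀ z ∈ l.map (vp P), Q z :=
    fun l Q => List.forall_mem_map.symm
  rw [InR, InR, k _ fun z => ev ρ z ≠ 0, k _ fun z => ev ρ z = 0, a2, b2,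
    k _ fun z => ev ρ z ≠ 0, k _ fun z => ev ρ z = 0]

/-- Comparison of entries. -/
def RelE (P : Par) (lim : ℕ) (x y : En) : Prop :=
  y.i = x.i ∧ y.w = x.w ∧ y.t = x.t ∧ ∀ l, EOk P l x → EOk P lim y

omit [Cx P] in
theorem eqY_M1 {lim : ℕ} {l l' : List En} (h : eqY lim l l' = true) :
    List.Forall₂ (RelE P lim) l l' := by
  refine (eqL_spec h).imp fun x y e => ?_
  simp only [eqE, ifb_eq, Bool.if_false_right, Bool.and_eq_true, decide_eq_true_eq, Nat.beq_eq,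
    Nat.ble_eq] at e
  obtain ⟨e1, e2, e3, e4, e5, e6⟩ := e
  have e7 := eqL_eq (fun _ _ => eqT_eq) e6
  refine ⟨e1.symm, e2.symm, e7.symm, fun l hx => ⟨?_, Nat.dvd_of_mod_eq_zero e5, e7 ▸ hx.2.2⟩⟩
  rw [← e7]
  exact hx.1.mono e3 (Nat.dvd_of_mod_eq_zero e4)

omit [Cx P] in
theorem lay_M1 {lim D : ℕ} {l l' : List En} (h : List.Forall₂ (RelE P lim) l l') (hl : Lay P D l) :
    Lay P D l' := fun y hy => by
  obtain ⟨x, hx, e⟩ := forall₂_left h hy
  rw [e.2.1]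
  exact hl x hx

omit [Cx P] in
theorem lo_M1 {lim D : ℕ} {l l' : List (List En)}
    (h : List.Forall₂ (List.Forall₂ (RelE P lim)) l l') (hl : LoOk P D l) : LoOk P D l' := by
  induction h generalizing D with
  | nil => exact hl
  | cons e _ ih =>
    obtain ⟨D', e1, e2, e3⟩ := hl
    exact ⟨D', e1, lay_M1 e e2, ih e3⟩

omit [Cx P] in
theorem hi_M1 {lim D : ℕ} {l l' : List (List En)}
    (h : List.Forall₂ (List.Forall₂ (RelE P lim)) l l') (hl : HiOk P D l) : HiOk P D l' := by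
  induction h generalizing D with
  | nil => trivial
  | cons e _ ih => exact ⟨lay_M1 e hl.1, ih hl.2⟩

theorem map_M1 {α β γ : Type} {R : α → β → Prop} {f : α → γ} {f' : β → γ} {l : List α}
    {l' : List β} (h : List.Forall₂ R l l') (e : ∀ x y, R x y → f' y = f x) :
    l'.map f' = l.map f := by
  induction h with
  | nil => rfl
  | cons r _ ih => rw [List.map_cons, List.map_cons, ih, e _ _ r]

theorem memo_spec {FT : List (List Fc)} {rk : ℕ} {td : List Nd} (hF : FOk P FT rk)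
    (hp : Pre0 P td s g) (h : Is (memo P FT rk s td g c t a) (.ok c' t' a')) :
    ∃ o, a' = o ++ a ∧ Post P (fm td) s g o := by
  obtain ⟨f, c₁, h1, h2, h⟩ := look_spec h
  obtain ⟨e1, h⟩ := chk_is h
  obtain ⟨e2, h⟩ := chk_is h
  obtain ⟨e3, h⟩ := chk_is h
  obtain ⟨e4, h⟩ := chk_is h
  obtain ⟨e5, h⟩ := chk_is h
  obtain ⟨e6, h⟩ := chk_is h
  obtain ⟨e7, h⟩ := chk_is h
  obtain ⟨e8, h⟩ := chk_is h
  obtain ⟨e9, h⟩ := chk_is h
  obtain ⟨e10, h⟩ := chk_is h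
  obtain ⟨e11, h⟩ := chk_is h
  obtain ⟨e12, h⟩ := chk_is h
  simp only [ifb_eq, Bool.if_false_right, Bool.and_eq_true, decide_eq_true_eq, Nat.beq_eq,
    Nat.ble_eq, Bool.if_true_left, Bool.or_eq_true, Nat.lor_eq, Nat.sub_eq] at e1 e2 e3 e4 e5 e6 e7
  obtain ⟨r1, r2⟩ := eqR_spec hp.rg.G hp.rg.E e9
  have q1 := (eqL_spec e10).imp fun _ _ => eqY_M1 (P := P)
  have q2 := eqY_M1 (P := P) e11
  have q3 := (eqL_spec e12).imp fun _ _ => eqY_M1 (P := P)
  have q : List.Forall₂ (RelE P f.rg.lim) (ents s) (ents f.st) :=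
    List.rel_append (List.rel_flatten q1) (List.rel_append q2 (List.rel_flatten q3))
  have hfr : ∀ (y : Pt P.L) (ρ : y.V), frm P ρ f.st = frm P ρ s := fun y ρ =>
    map_M1 q fun x z r => by rw [fe, fe, r.1, r.2.1, r.2.2.1]
  have htd : td = f.td := eqL_eq (fun _ _ => eqN_eq) e1.2
  have hsm : ∀ v, sm P f.rg v = sm P g v := fun v => by rw [sm, sm, r2]
  have hs : SOk P f.rg.lim f.st := by
    refine ⟨e3 ▸ lo_M1 q1 hp.st.lo, e3 ▸ lay_M1 q2 hp.st.cur, e3 ▸ hi_M1 q3 hp.st.hi,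
      fun z hz => ?_, ?_, fun z hz => ?_, by rw [← e4, hp.st.N, q.length_eq]⟩
    · obtain ⟨x, hx, r⟩ := forall₂_left q hz
      exact r.2.2.2 _ (hp.st.en x hx)
    · rw [map_M1 q fun x z r => r.1]
      exact hp.st.nd
    · obtain ⟨x, hx, r⟩ := forall₂_left q hz
      rw [← e5, Nat.testBit_or, r.1, hp.st.U x hx, Bool.true_or]
  have hpost := (hF _ f h1 h2).1 e1.1 ⟨r1, hs, fun h => e3 ▸ htd ▸ hp.td (htd ▸ h), by
    rw [Al, r2]
    exact hp.gd.mono fun y ρ _ h => by rw [Gd, hfr]; exact h, fun h => by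
    rw [h] at e8
    rw [RE, hsm]
    exact hp.ec e8⟩
  refine ⟨_, (is_ok h).trans (fout_eq _ _ _), fun γ hγ => ?_⟩
  have hb : BR P γ s := by cases td <;> exact hγ
  have hb' : BR P γ f.st := by
    obtain ⟨⟨m, δ, b1, b2, b3⟩, b4⟩ := hb
    refine ⟨⟨m, δ + (f.st.r - s.r), e2 ▸ b1, by rw [← e2, ← e4]; omega, ?_⟩, b4⟩
    omega
  have hl : lev s (fm td) = s.j := by cases td <;> rfl
  have hl' : lev f.st (fm f.td) = s.j := by rw [e2]; cases f.td <;> rfl
  have hv : val P γ f.st (fm f.td) = val P γ s (fm td) := by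
    rw [← htd]
    funext y ρ
    cases td <;> simp only [fm, val, hfr, e2, e3]
  have := hpost γ (by rw [← htd]; cases td <;> exact hb')
  rw [hl', hv, hsm] at this
  rw [hl]
  refine this.cg (Cg.of_eq (Filter.Eventually.of_forall fun y => ?_))
  rw [ov_filter fun ty hm => ?_]
  have := bud_len hb.1 hm.1 hm.2
  rwa [List.length_map] at this

end Pool.Agent.P.MP_8598be_al.Ck
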