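import Pool.Agent.P.MP_8598be_al.Ck.M1
import Pool.Agent.P.MP_8598be_al.Ck.A2
import Pool.Agent.P.MP_8598be_al.Ck.C4
import Pool.Agent.P.MP_8598be_al.K.Mod

/-!
The steps at the start of a degree and inside a degree.
-/

namespace Pool.Agent.P.MP_8598be_al.Ck

open Z K MvPolynomial

variable {P : Par} [Cx P] {go : Go} {s : St} {g : Rg} {op c : ℕ} {t : List ℕ} {a : List Out}

section

variable {c' : ℕ} {t' : List ℕ} {a' : List Out} {prs : List Pr} {td : List Nd}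

theorem go_M2 {m m' : Md} {s' : St} (hgo : GoOk P go)
    (h : Is (go m' s' g c t a) (.ok c' t' a')) (hp : Pre P m' s' g) (hl : lev s' m' = lev s m)
    (hv : ∀ γ, MH P γ s m → MH P γ s' m' ∧
      Al P g.G g.E fun y ρ => val P γ s m y ρ = val P γ s' m' y ρ) :
    ∃ o, a' = o ++ a ∧ Post P m s g o := by
  obtain ⟨o, e, ho⟩ := hgo _ _ _ _ _ _ hp _ _ _ h
  refine ⟨o, e, fun γ hγ => ?_⟩
  have h1 := ho γ (hv γ hγ).1
  rw [hl] at h1
  exact ecf_congr (hv γ hγ).2 h1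

theorem lvl_M2 {m : Md} (hgo : GoOk P go) (hg : ROk P g) (hs : SOk P g.lim s)
    (hd : Al P g.G g.E (Gd P s)) (he : g.ec = true → RE P g)
    (h : Is (lvl P go s g c t a) (.ok c' t' a')) (hl : lev s m = s.j)
    (hv : ∀ γ, MH P γ s m → BR P γ s ∧ ∀ y ρ, Gd P s y ρ →
      val P γ s m y ρ = vEnd (sy P y) γ (frm P ρ s) s.j) :
    ∃ o, a' = o ++ a ∧ Post P m s g o := by
  obtain ⟨o, e, ho⟩ := lvl_spec hgo hg hs hd he h
  refine ⟨o, e, fun γ hγ => ?_⟩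
  rw [hl]
  exact ecf_congr (hd.mono fun y ρ _ h' => (hv γ hγ).2 y ρ h') (ho γ (hv γ hγ).1)

theorem zero_M2 {m : Md} (h : Is (Res.ok c t a) (.ok c' t' a'))
    (hv : ∀ γ, MH P γ s m → Al P g.G g.E fun y ρ => val P γ s m y ρ = 0) :
    ∃ o, a' = o ++ a ∧ Post P m s g o :=
  ⟨[], is_ok h, fun γ hγ => ecf_zero (hv γ hγ)⟩

omit [Cx P] in
theorem bud_M2 {γ : Ty (Fin P.d)} {lim : ℕ} (hs : SOk P lim s) (h : BR P γ s) {y : Pt P.L}
    (ρ : y.V) : Bud P.lo γ s.j (frm P ρ s).length s.r := by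
  rw [hs.len]
  exact h.1

omit [Cx P] in
theorem frm_M2 {F : Type} [CommRing F] {ρ : Fin 6 → F} {Q : EnF F (Fin P.d) → Prop}
    (h : ∀ e ∈ ents s, Q (fe P ρ e)) : ∀ x ∈ frm P ρ s, Q x :=
  List.forall_mem_map.2 h

theorem cons_M2 {x : Nd} {r : List Nd} {γ : Ty (Fin P.d)} (p : td.Perm (x :: r)) (h : BR P γ s)
    (y : Pt P.L) (ρ : y.V) : val P γ s (.todo prs td) y ρ =
      val P γ s (.todo prs r) y ρ + val P γ s (.node prs x.w x.e r) y ρ := by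
  have h1 := (vTodo_perm (s := sy P y) (γ := γ) (fr := frm P ρ s) (j := s.j) (D := s.D)
    (p.map (nd P))).trans (todo_cons h.1)
  change ((_ : ℕ) : ℤ) = ((_ : ℕ) : ℤ) + ((_ : ℕ) : ℤ)
  rw [h1, Nat.cast_add]

theorem drop_M2 {x : Nd} {r : List Nd} (hgo : GoOk P go) (hp : Pre P (.todo prs td) s g)
    (p : td.Perm (x :: r)) (h : Is (go (.todo prs r) s g c t a) (.ok c' t' a'))
    (hv : ∀ γ, BR P γ s → Al P g.G g.E fun y ρ =>
      vPend (sy P y) γ (frm P ρ s) s.j s.D (nd P x) (r.map (nd P)) [] = 0) :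
    ∃ o, a' = o ++ a ∧ Post P (.todo prs td) s g o := by
  refine go_M2 hgo h ⟨hp.rg, (NOk.perm hp.md p).tail, hp.gd, hp.ec⟩ rfl fun γ hγ =>
    ⟨hγ, (hv γ hγ).mono fun y ρ _ h' => ?_⟩
  have h1 : val P γ s (.node prs x.w x.e r) y ρ = 0 := Nat.cast_eq_zero.2 h'
  rw [cons_M2 p hγ, h1, add_zero]

theorem deg0_M2 (hgo : GoOk P go) (hp : Pre P .deg s g)
    (h : Is (chk ((s.D.add 1).ble P.B) (ifb (s.D.beq 1)
      (mkT1 P P.d (fun _ td => go (Md.todo [] td) s g c t a) 0 [])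
      (mkTd P (allP s) (fun _ _ td prs => go (Md.todo prs td) s g c t a) 0 0 [] [])))
      (.ok c' t' a')) : ∃ o, a' = o ++ a ∧ Post P .deg s g o := by
  obtain ⟨hB, h⟩ := chk_is h
  have hs : SOk P g.lim s := hp.md
  rcases ifb_is h with ⟨e, h⟩ | ⟨e, h⟩
  · have hD : s.D = 1 := Nat.eq_of_beq_eq_true e
    obtain ⟨_, td, hn, hr, h⟩ := mkT1_spec hs hD h
    refine go_M2 hgo h ⟨hp.rg, hn, hp.gd, hp.ec⟩ rfl fun γ hγ =>
      ⟨hγ, Al.of_forall fun y ρ _ => ?_⟩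
    simp only [val, hD]
    exact congrArg Nat.cast (deg_one (hr y))
  · have h1 : s.D ≠ 1 := Nat.ne_of_beq_eq_false e
    have h2 := hs.lo.pos
    have hD : 2 ≤ s.D := by omega
    obtain ⟨_, _, td, prs, hn, hr, h⟩ := mkTd_spec hs hD (Nat.le_of_ble_eq_true hB) h
    exact go_M2 hgo h ⟨hp.rg, hn, hp.gd, hp.ec⟩ rfl fun γ hγ =>
      ⟨hγ, hp.gd.mono fun y ρ _ h' => congrArg Nat.cast
        (deg_start h' hD (frm_M2 fun x hx => frm_M2 fun z hz => hr y x hx z hz))⟩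

theorem deg3_M2 (hgo : GoOk P go) (hp : Pre P .deg s g)
    (h : Is (List.rec (motive := fun _ => Res) Res.no
      (fun l _ _ => chk (nil l) (lvl P go s g c t a)) s.lo) (.ok c' t' a')) :
    ∃ o, a' = o ++ a ∧ Post P .deg s g o := by
  have hs : SOk P g.lim s := hp.md
  cases hl : s.lo with
  | nil =>
    rw [hl] at h
    exact (not_is_no h).elim
  | cons l lo =>
    rw [hl] at h
    obtain ⟨e, h⟩ := chk_is h
    obtain rfl := nil_iff.1 e
    obtain ⟨D, e₁, h1, -⟩ := hs.head hl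
    exact lvl_M2 hgo hp.rg hs hp.gd hp.ec h rfl fun γ hγ => ⟨hγ, fun y ρ h' => congrArg Nat.cast
      (deg_end h' (by omega) (frm_M2 fun x hx e₂ => List.not_mem_nil (hs.mem_head hl hx e₂)))⟩

end

theorem sDeg_ok {FT : List (List Fc)} {rk : ℕ} (hF : FOk P FT rk) (hgo : GoOk P go) :
    Sd P (sDeg P FT rk go s g op c t a) a .deg s g := by
  intro hp c' t' a' h
  have hs : SOk P g.lim s := hp.md
  rcases sw_is h with h | ⟨op, h⟩
  · exact deg0_M2 hgo hp h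
  rcases sw_is h with h | ⟨op, h⟩
  · obtain ⟨e, h⟩ := chk_is h
    exact lvl_M2 hgo hp.rg hs hp.gd hp.ec h rfl fun γ hγ => ⟨hγ, fun y ρ h' => congrArg Nat.cast
      (budget_deg h' (bud_M2 hs hγ ρ) (Nat.lt_succ_of_le (Nat.le_of_ble_eq_true e)))⟩
  rcases sw_is h with h | ⟨op, h⟩
  · exact memo_spec hF ⟨hp.rg, hs, fun e => (e rfl).elim, hp.gd, hp.ec⟩ h
  rcases sw_is h with h | ⟨op, h⟩
  · exact deg3_M2 hgo hp h
  obtain ⟨e₁, h⟩ := chk_is h
  obtain ⟨e₂, h⟩ := chk_is h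
  obtain ⟨e₃, h⟩ := chk_is h
  have h1 : s.r + s.D ≤ P.m := Nat.le_of_ble_eq_true e₃
  have h2 := hs.lo.pos
  exact zero_M2 h fun γ hγ => hp.gd.mono fun y ρ _ h' => Nat.cast_eq_zero.2
    (reach_prune (D₀ := s.D - 1) h' (bud_M2 hs hγ ρ) hγ.2
      (frm_M2 fun x hx => Nat.le_sub_one_of_lt
        (hs.lt_of_cur (nil_iff.1 e₁) (nil_iff.1 e₂) hx)) (by omega) fun J hJ => hJ.1)

section

variable {c' : ℕ} {t' : List ℕ} {a' : List Out} {prs : List Pr} {td : List Nd}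

theorem todo0_M2 {n : ℕ} (hgo : GoOk P go) (hp : Pre P (.todo prs td) s g)
    (h : Is (chk (Nat.ble 2 s.D) (pick td n fun x r => cert P g s.cur prs x.w x.e c fun l c =>
      chk (nil l) (go (Md.todo prs r) s g c t a))) (.ok c' t' a')) :
    ∃ o, a' = o ++ a ∧ Post P (.todo prs td) s g o := by
  obtain ⟨hD, h⟩ := chk_is h
  obtain ⟨x, r, p, h⟩ := pick_spec h
  have hn : NOk P g.lim s prs (x :: r) := NOk.perm hp.md p
  have hx := hn.2.1.2.1 x List.mem_cons_self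
  obtain ⟨l, c₁, -, hl, h⟩ := cert_spec hp.rg hn.1 (Nat.le_of_ble_eq_true hD) hx.1 hx.2
    (hn.2.2 x List.mem_cons_self) h
  obtain ⟨e, h⟩ := chk_is h
  obtain rfl := nil_iff.1 e
  exact drop_M2 hgo hp p h fun γ _ => (hp.gd.and hl).mono fun y ρ _ h' =>
    pend_nil h'.1 (hn.2.1.2.2 y) (h'.2 h'.1)

theorem todo1_M2 {n : ℕ} (hgo : GoOk P go) (hp : Pre P (.todo prs td) s g)
    (h : Is (pick td n fun x r => Nd.rec (motive := fun _ => Res) (fun w e =>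
      bnd (go (Md.node prs w e r) s g c t a) (go (Md.todo prs r) s g)) x) (.ok c' t' a')) :
    ∃ o, a' = o ++ a ∧ Post P (.todo prs td) s g o := by
  obtain ⟨⟨w, e⟩, r, p, h⟩ := pick_spec h
  have hn : NOk P g.lim s prs (⟨w, e⟩ :: r) := NOk.perm hp.md p
  obtain ⟨c₁, t₁, a₁, h₁, h₂⟩ := bnd_is h
  obtain ⟨o₁, e₁, k₁⟩ := hgo (.node prs w e r) s g _ _ _ ⟨hp.rg, hn, hp.gd, hp.ec⟩ _ _ _ h₁
  obtain ⟨o₂, e₂, k₂⟩ := hgo (.todo prs r) s g _ _ _ ⟨hp.rg, hn.tail, hp.gd, hp.ec⟩ _ _ _ h₂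
  refine ⟨o₂ ++ o₁, by rw [e₂, e₁, List.append_assoc], fun γ hγ => ?_⟩
  refine ((k₂ γ hγ).add (k₁ γ hγ)).cg (Cg.of_eq (Filter.Eventually.of_forall fun y => ?_))
  have h1 : sm P g (val P γ s (.todo prs td)) y =
      sm P g (val P γ s (.todo prs r)) y + sm P g (val P γ s (.node prs w e r)) y := by
    refine Eq.trans ?_ (sS_add _ _ _ y)
    congr 2
    funext y ρ
    exact cons_M2 p hγ y ρ
  change _ - ov P γ s.j _ y = _ - ov P γ s.j _ y + (_ - ov P γ s.j _ y)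
  rw [h1, ov_append]
  ring

theorem todo2_M2 (hgo : GoOk P go) (hp : Pre P (.todo prs td) s g)
    (h : Is (chk (nil td) (St.rec (motive := fun _ => Res) (fun lo cur hi N U j r D =>
      frc (D.add 1) fun D => srtK En.i cur (fun cur => List.rec (motive := fun _ => Res)
        (go Md.deg ⟨cur :: lo, [], [], N, U, j, r, D⟩ g c t a)
        (fun cur' hi _ => go Md.deg ⟨cur :: lo, cur', hi, N, U, j, r, D⟩ g c t a) hi) []) s))
      (.ok c' t' a')) : ∃ o, a' = o ++ a ∧ Post P (.todo prs td) s g o := by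
  obtain ⟨e, h⟩ := chk_is h
  obtain rfl := nil_iff.1 e
  have hs : SOk P g.lim s := hp.md.1
  have h1 : ∃ cur, cur.Perm s.cur ∧ Is (go Md.deg
      ⟨cur :: s.lo, s.hi.headD [], s.hi.tail, s.N, s.U, s.j, s.r, s.D + 1⟩ g c t a)
      (.ok c' t' a') := by
    obtain ⟨lo, cur, hi, N, U, j, r, D⟩ := s
    obtain ⟨cur', p, h⟩ := srtK_spec (f := En.i) (l := cur) (t := []) h
    rw [List.append_nil] at p
    exact ⟨cur', p, by cases hi <;> exact h⟩
  obtain ⟨cur, p, h⟩ := h1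
  obtain ⟨hs', p'⟩ := hs.next p
  exact go_M2 hgo h ⟨hp.rg, hs', hp.gd.mono fun y ρ _ h' =>
    (kk_of_frel one_ne_zero (frel_perm (p'.map _)) h' 0 0 0).1, hp.ec⟩ rfl fun γ hγ =>
      ⟨hγ, hp.gd.mono fun y ρ _ h' => congrArg Nat.cast ((todo_nil h').trans
        (kk_of_frel one_ne_zero (frel_perm (p'.map _)) h' γ s.j (s.D + 1)).2.1.symm)⟩

theorem todo4_M2 {n : ℕ} (hgo : GoOk P go) (hp : Pre P (.todo prs td) s g)
    (h : Is (pick td n fun x r => chn (((s.j.add 1).mul (orN P x.w)).ble s.r)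
      (go (Md.todo prs r) s g c t a)) (.ok c' t' a')) :
    ∃ o, a' = o ++ a ∧ Post P (.todo prs td) s g o := by
  obtain ⟨x, r, p, h⟩ := pick_spec h
  have hn : NOk P g.lim s prs (x :: r) := NOk.perm hp.md p
  obtain ⟨e, h⟩ := chn_is h
  have h1 : s.r < (s.j + 1) * orN P x.w := Nat.lt_of_not_le fun h2 => by
    rw [Nat.ble_eq_true_of_le (n := (s.j.add 1).mul (orN P x.w)) h2] at e
    cases e
  refine drop_M2 hgo hp p h fun γ hγ => hp.gd.mono fun y ρ _ h' =>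
    prune h' (bud_M2 hn.1 hγ ρ) ?_ []
  rwa [orN_eq (hn.2.1.2.1 x List.mem_cons_self).1.1 y] at h1

theorem todo5_M2 {n z : ℕ} (hgo : GoOk P go) (hp : Pre P (.todo prs td) s g)
    (h : Is (pick td n fun x r => List.rec (motive := fun _ => Res) Res.no
      (fun l _ _ => frc (P.B.pow z) fun q => chk ((z.add 1).ble P.d)
        (chn (((x.w.div q).mod P.B).beq 0) (chk (deadX P x.w q l)
          (go (Md.todo prs r) s g c t a)))) s.lo) (.ok c' t' a')) :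
    ∃ o, a' = o ++ a ∧ Post P (.todo prs td) s g o := by
  obtain ⟨x, r, p, h⟩ := pick_spec h
  have hn : NOk P g.lim s prs (x :: r) := NOk.perm hp.md p
  have hx := (hn.2.1.2.1 x List.mem_cons_self).1
  cases hl : s.lo with
  | nil =>
    rw [hl] at h
    exact (not_is_no h).elim
  | cons l lo =>
    rw [hl] at h
    obtain ⟨e₁, h⟩ := chk_is h
    obtain ⟨e₂, h⟩ := chn_is h
    obtain ⟨e₃, h⟩ := chk_is h
    obtain ⟨D, e, h1, h2⟩ := hn.1.head hl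
    have h3 := deadX_spec ⟨z, Nat.le_of_ble_eq_true e₁⟩ h2 (e ▸ hx) (e ▸ hn.2.1.1) e₃
    refine drop_M2 hgo hp p h fun γ _ => hp.gd.mono fun y ρ _ h' =>
      node_dead h' (hn.2.1.2.2 y) (by omega) (x := ⟨z, Nat.le_of_ble_eq_true e₁⟩)
        (Nat.ne_of_beq_eq_false e₂) (frm_M2 fun b hb v e₄ => h3 b (hn.1.mem_head hl hb ?_) v e₄)
    have h4 : tot (dw P b.w + one v) = s.D := (congrArg tot e₄).trans hx.2
    rwa [tot_add, tot_one] at h4

theorem ar_M2 {L D n : ℕ} (hL : 0 < L) (h : L ∣ n) (h' : D < n) : (D + L) / L * L ≤ n := by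
  obtain ⟨k, rfl⟩ := h
  rw [Nat.add_div_right _ hL, Nat.mul_comm L k] at *
  exact Nat.mul_le_mul_right _ ((Nat.div_lt_iff_lt_mul hL).2 h')

theorem mod_M2 {X : Type} [Fintype X] [DecidableEq X] {γ : Ty X} {L lo N r e : ℕ}
    (hb : Bud lo γ 0 N r) (h1 : r % L ≠ 0) (h2 : lo ≤ L) (he : L ∣ e)
    (hc : HasCost (fun i α => if i ≤ 0 then γ i α else 0) (N + e)) :
    lo ≤ r ∧ Bud lo γ 0 N ((r - lo) / L * L) := by
  obtain ⟨m, δ, hm, h3, h4⟩ := hb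
  obtain rfl := hm.unique hc
  obtain ⟨k, rfl⟩ := he
  have h5 : L * k + δ = r := by omega
  have h6 : lo ≤ δ := h4.resolve_left fun h7 => h1 (by rw [← h5, h7]; simp)
  rcases Nat.eq_zero_or_pos L with rfl | hL
  · exact ⟨by omega, _, 0, hc, by simp, .inl rfl⟩
  have h7 : k ≤ (r - lo) / L := (Nat.le_div_iff_mul_le hL).2 (by rw [Nat.mul_comm]; omega)
  obtain ⟨u, hu⟩ := Nat.exists_eq_add_of_le h7
  refine ⟨by omega, _, u * L, hc, by rw [hu]; ring, ?_⟩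
  rcases Nat.eq_zero_or_pos u with rfl | h8
  · exact .inl (Nat.zero_mul _)
  · exact .inr (h2.trans (Nat.le_mul_of_pos_left _ h8))

theorem todo7_M2 (hgo : GoOk P go) (hp : Pre P (.todo prs td) s g)
    (h : Is (chk (P.d.beq P.L) (chk (s.j.beq 0) (chk (nil s.hi) (chn ((s.r.mod P.L).beq 0)
      (chk (P.lo.ble P.L) (chk (allF P td)
        (chk (s.r.ble ((((((s.D.add P.L).div P.L).mul P.L).sub s.D).sub 1).mul P.L))
          (ifb (P.lo.ble s.r) (St.rec (motive := fun _ => Res) (fun lo cur hi N U j r D =>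
            frc (((r.sub P.lo).div P.L).mul P.L) fun r =>
              bnd (go (Md.todo prs td) ⟨lo, cur, hi, N, U, j, r, D⟩ g c t []) fun c t o =>
                chk (nil (cancel o)) (Res.ok c t a)) s) (Res.ok c t a)))))))))
      (.ok c' t' a')) : ∃ o, a' = o ++ a ∧ Post P (.todo prs td) s g o := by
  obtain ⟨e₁, h⟩ := chk_is h
  obtain ⟨e₂, h⟩ := chk_is h
  obtain ⟨e₃, h⟩ := chk_is h
  obtain ⟨e₄, h⟩ := chn_is h
  obtain ⟨e₅, h⟩ := chk_is h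
  obtain ⟨e₆, h⟩ := chk_is h
  obtain ⟨e₇, h⟩ := chk_is h
  have hn : NOk P g.lim s prs td := hp.md
  have hj : s.j = 0 := Nat.eq_of_beq_eq_true e₂
  have h4 : s.r % P.L ≠ 0 := Nat.ne_of_beq_eq_false e₄
  have h7 : s.r ≤ ((s.D + P.L) / P.L * P.L - s.D - 1) * P.L := Nat.le_of_ble_eq_true e₇
  have key : ∀ γ, BR P γ s → ¬ (P.lo ≤ s.r ∧ Bud P.lo γ s.j s.N ((s.r - P.lo) / P.L * P.L)) →
      Al P g.G g.E fun y ρ => val P γ s (.todo prs td) y ρ = 0 :=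
    fun γ hγ hb => hp.gd.mono fun y ρ _ h' => Nat.cast_eq_zero.2 (by
      by_contra h0
      have h1 := bud_M2 hn.1 hγ ρ
      have h2 := hγ.1
      rw [hj] at h0 h1 h2 hb
      obtain ⟨e, he, hc⟩ := bud_mod h' h1 (frm_M2 fun x hx => hn.1.le_of_hi (nil_iff.1 e₃) hx)
        (List.forall_mem_map.2 fun x hx h3 => by
          have h5 := (fxb_iff (hn.2.1.2.1 x hx).1.1 y).2 h3
          rw [allF_spec e₆ x hx] at h5
          cases h5)
        (fun β h3 h5 => Nat.lt_succ_of_le (h7.trans (Nat.mul_le_mul_right _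
          (Nat.sub_le_sub_right (Nat.sub_le_sub_right
            (ar_M2 (L_pos P) (fx_dvd (Nat.eq_of_beq_eq_true e₁) y h5) h3) _) _))))
        (fun h3 : P.L = 1 => h4 (by rw [h3, Nat.mod_one])) h0
      rw [hn.1.len] at hc
      exact hb (mod_M2 h2 h4 (Nat.le_of_ble_eq_true e₅) he hc))
  rcases ifb_is h with ⟨_, h⟩ | ⟨e, h⟩
  · obtain ⟨lo, cur, hi, N, U, j, r, D⟩ := s
    obtain ⟨c₁, t₁, o, h₁, h⟩ := bnd_is h
    obtain ⟨e₀, h⟩ := chk_is h
    obtain ⟨o', e, ho⟩ := hgo (.todo prs td) ⟨lo, cur, hi, N, U, j, (r - P.lo) / P.L * P.L, D⟩ g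
      _ _ _ ⟨hp.rg, ⟨⟨hn.1.lo, hn.1.cur, hn.1.hi, hn.1.en, hn.1.nd, hn.1.U, hn.1.N⟩, hn.2⟩,
        hp.gd, hp.ec⟩ _ _ _ h₁
    rw [List.append_nil] at e
    subst e
    refine ⟨[], is_ok h, fun γ hγ => ?_⟩
    by_cases hb : P.lo ≤ r ∧ Bud P.lo γ j N ((r - P.lo) / P.L * P.L)
    · have h1 := ho γ ⟨hb.2, hγ.2⟩
      simp only [← ov_cancel o, nil_iff.1 e₀] at h1
      exact h1
    · exact ecf_zero (key γ hγ hb)
  · refine zero_M2 h fun γ hγ => key γ hγ fun hb => ?_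
    rw [Nat.ble_eq_true_of_le hb.1] at e
    cases e

end

theorem sTodo_ok {prs : List Pr} {td : List Nd} (hgo : GoOk P go) :
    Sd P (sTodo P go prs td s g op c t a) a (.todo prs td) s g := by
  intro hp c' t' a' h
  have hs : SOk P g.lim s := hp.md.1
  rcases sw_is h with h | ⟨op, h⟩
  · exact todo0_M2 hgo hp h
  rcases sw_is h with h | ⟨op, h⟩
  · exact todo1_M2 hgo hp h
  rcases sw_is h with h | ⟨op, h⟩
  · exact todo2_M2 hgo hp h
  rcases sw_is h with h | ⟨op, h⟩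
  · obtain ⟨e, h⟩ := chk_is h
    exact lvl_M2 hgo hp.rg hs hp.gd hp.ec h rfl fun γ hγ => ⟨hγ, fun y ρ h' => congrArg Nat.cast
      (budget_todo h' (bud_M2 hs hγ ρ) (Nat.lt_succ_of_le (Nat.le_of_ble_eq_true e)))⟩
  rcases sw_is h with h | ⟨op, h⟩
  · exact todo4_M2 hgo hp h
  rcases sw_is h with h | ⟨op, h⟩
  · exact todo5_M2 hgo hp h
  rcases sw_is h with h | ⟨op, h⟩
  · obtain ⟨e₁, h⟩ := chk_is h
    obtain ⟨e₂, h⟩ := chk_is h
    exact zero_M2 h fun γ hγ => hp.gd.mono fun y ρ _ h' => Nat.cast_eq_zero.2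
      (reach_prune (D₀ := s.D) h' (bud_M2 hs hγ ρ) hγ.2
        (frm_M2 fun x hx => hs.le_of_hi (nil_iff.1 e₁) hx) (Nat.le_of_ble_eq_true e₂)
        fun J hJ => hJ.1.1)
  exact todo7_M2 hgo hp h

end Pool.Agent.P.MP_8598be_al.Ck
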