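import Pool.Agent.P.MP_8598be_al.Ck.M1
import Pool.Agent.P.MP_8598be_al.Ck.A1
import Pool.Agent.P.MP_8598be_al.Ck.C4
import Pool.Agent.P.MP_8598be_al.Ck.I1
import Pool.Agent.P.MP_8598be_al.Ck.I2
import Pool.Agent.P.MP_8598be_al.K.Mod

/-!
The steps at a node.
-/

namespace Pool.Agent.P.MP_8598be_al.Ck

open Z K MvPolynomial

variable {P : Par} [Cx P] {go : Go} {s : St} {g : Rg} {op c w e : ℕ} {t : List ℕ} {a : List Out}
  {prs : List Pr} {rest : List Nd}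

theorem NOk.todo {lim : ℕ} (h : NOk P lim s prs (⟨w, e⟩ :: rest)) (y : Pt P.L) :
    TodoOk (sy P y) s.D (nd P ⟨w, e⟩ :: rest.map (nd P)) := h.2.1.2.2 y

theorem NOk.wd {lim : ℕ} (h : NOk P lim s prs (⟨w, e⟩ :: rest)) : WD P s.D w ∧ e < P.L :=
  h.2.1.2.1 _ List.mem_cons_self

theorem NOk.inst {lim lim' : ℕ} {s' : St} {td : List Nd} (h : NOk P lim s prs td)
    (hs : SOk P lim' s') (e₁ : s'.lo = s.lo) (e₂ : s'.D = s.D) : NOk P lim' s' prs td :=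
  ⟨hs, e₂ ▸ h.2.1, e₁ ▸ h.2.2⟩

omit [Cx P] in
theorem BR.inst {s' : St} {γ : Ty (Fin P.d)} (h : BR P γ s) (e₁ : s'.j = s.j)
    (e₂ : (s.j + 1) * s'.N + s'.r = (s.j + 1) * s.N + s.r) : BR P γ s' := by
  obtain ⟨⟨m, δ, b1, b2, b3⟩, b4⟩ := h
  exact ⟨⟨m, δ, e₁ ▸ b1, by rw [e₁, e₂, b2], b3⟩, b4⟩

theorem cert_M3 (hgo : GoOk P go) {c' : ℕ} {t' : List ℕ} {a' : List Out}
    (hp : Pre P (.node prs w e rest) s g) {l : List Kp} (hl : ∀ a ∈ l, KOk P g.lim a)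
    (hq : Al P g.G g.E fun y ρ => Gd P s y ρ →
      PendOk (sy P y) (frm P ρ s) (nd P ⟨w, e⟩) (l.map (kz P ρ)))
    (h : Is (ifb (nil l) (Res.ok c t a) (ifb (ifb (s.j.beq 0) (s.r.beq (orN P w)) false)
      (ifb g.ec (Res.ok c t a) (go (Md.cnt (wtsS s (orbW P (orN P w) w)) (len l) 0) st0 g c t a))
      (go (Md.pend prs w e rest [] l) s g c t a))) (.ok c' t' a')) :
    ∃ o, a' = o ++ a ∧ Post P (.node prs w e rest) s g o := by
  have hn : NOk P g.lim s prs (⟨w, e⟩ :: rest) := hp.md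
  have hg : Al P g.G g.E fun y ρ => Gd P s y ρ ∧
      PendOk (sy P y) (frm P ρ s) (nd P ⟨w, e⟩) (l.map (kz P ρ)) :=
    (hp.gd.and hq).mono fun y ρ _ h => ⟨h.1, h.2 h.1⟩
  rcases ifb_is h with ⟨e₁, h⟩ | ⟨_, h⟩
  · refine ⟨[], is_ok h, fun γ _ => ecf_zero (hg.mono fun y ρ _ h' => ?_)⟩
    rw [nil_iff.1 e₁] at h'
    exact congrArg Nat.cast (pend_nil h'.1 (hn.todo y) h'.2)
  rcases ifb_is h with ⟨e₁, h⟩ | ⟨_, h⟩
  · simp only [ifb_eq, Bool.if_false_right, Bool.and_eq_true, decide_eq_true_eq,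
      Nat.beq_eq] at e₁
    obtain ⟨o, e₂, ho⟩ := leaf_spec hgo hp.rg hp.ec h
    refine ⟨o, e₂, fun γ hγ => ?_⟩
    have h1 : lev s (.node prs w e rest) = 0 := e₁.1
    rw [h1]
    refine ho γ _ (hg.mono fun y ρ _ h' => ?_)
    have h2 : Bud P.lo γ 0 (frm P ρ s).length (orb (sy P y) (nd P ⟨w, e⟩).1) := by
      have := hγ.1
      rwa [e₁.1, e₁.2, orN_eq hn.wd.1.1 y, ← hn.1.len ρ] at this
    have h3 := pend_last (A := []) h'.1 h2 (hn.todo y) h'.2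
      (w := (wtsS s (orbW P (orN P w) w)).map (dw P)) (by
        rw [wtsS_eq, List.map_append, frm_w, orbW_eq hn.wd.1, orN_eq hn.wd.1.1 y]
        rfl)
    rw [Nat.card_zmod, List.length_map, ← len_eq] at h3
    simp only [val, e₁.1]
    exact ⟨fun hm => h3.1 hm.1, fun hm => congrArg Nat.cast
      (h3.2 fun h4 => hm ⟨h4, fun i h5 h6 => by omega⟩)⟩
  · exact hgo (.pend prs w e rest [] l) s g _ _ _ ⟨hp.rg, ⟨hn, hl⟩, hg, hp.ec⟩ _ _ _ h

theorem sNode_ok {FT : List (List Fc)} {rk : ℕ} (hF : FOk P FT rk) (hgo : GoOk P go) :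
    Sd P (sNode P FT rk go prs w e rest s g op c t a) a (.node prs w e rest) s g := by
  intro hp c' t' a' h
  have hn : NOk P g.lim s prs (⟨w, e⟩ :: rest) := hp.md
  rcases sw_is h with h | ⟨op, h⟩
  · obtain ⟨hD, h⟩ := chk_is h
    obtain ⟨l, c₁, h1, h2, h⟩ := cert_spec hp.rg hn.1 (Nat.le_of_ble_eq_true hD) hn.wd.1 hn.wd.2
      (hn.2.2 _ List.mem_cons_self) h
    exact cert_M3 hgo hp h1 h2 h
  rcases sw_is h with h | ⟨op, h⟩
  · obtain ⟨hD, h⟩ := chk_is h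
    obtain ⟨h1, h⟩ := chk_is h
    have hD : s.D = 1 := Nat.eq_of_beq_eq_true hD
    obtain ⟨x, hx⟩ := exists_one (hn.wd.1.2.trans hD)
    simp only [ifb_eq, Bool.if_false_right, Bool.and_eq_true, decide_eq_true_eq, Nat.ble_eq,
      Bool.if_true_left, Bool.or_eq_true] at h1
    refine ⟨[], is_ok h, fun γ _ => ecf_zero (hp.gd.mono fun y ρ _ h' => ?_)⟩
    have h2 := hn.todo y
    refine congrArg Nat.cast ?_
    rw [hD] at h2 ⊢
    refine gen_dead h' h2 hx (h1.imp (fun h3 => ?_) fun h3 => ?_)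
    · obtain ⟨z, hz, rfl⟩ := hasW_iff.1 h3
      exact ⟨_, List.mem_map_of_mem (List.mem_append_right _ (List.mem_append_left _ hz)), rfl⟩
    · exact ⟨(fxb_iff hn.wd.1.1 y).1 h3.1, Nat.one_le_iff_ne_zero.1 h3.2⟩
  rcases sw_is h with h | ⟨op, h⟩
  · obtain ⟨hD, h⟩ := chk_is h
    obtain ⟨h1, h⟩ := chn_is h
    obtain ⟨h2, h⟩ := chk_is h
    have hD : s.D = 1 := Nat.eq_of_beq_eq_true hD
    obtain ⟨x, hx⟩ := exists_one (hn.wd.1.2.trans hD)
    obtain ⟨s', c₁, ix, i1, i2, i3, i4, i5, i6, h⟩ := inst_spec hp.rg.lim hn.1 hn.wd.1 hn.wd.2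
      (TD.nil _) (fun _ h => by cases h) h
    have key : ∀ γ, Al P g.G g.E fun y ρ => Gd P s' y ρ ∧
        val P γ s (.node prs w e rest) y ρ = val P γ s' (.todo prs rest) y ρ := fun γ =>
      hp.gd.mono fun y ρ hρ h' => by
        obtain ⟨k1, k2⟩ := gen_new (γ := γ) (j := s.j) h' (hD ▸ hn.todo y) hx (fun b hb e' => by
          obtain ⟨z, hz, rfl⟩ := List.mem_map.1 hb
          have h3 : z.w = w := dw_inj (hn.1.lt hz).1 hn.wd.1.1 e'
          have h4 := hasW_iff.2 ⟨z, hn.1.mem_cur hz (h3 ▸ hn.wd.1.2), h3⟩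
          rw [h1] at h4
          cases h4) (fun _ => Nat.eq_of_beq_eq_true h2) (i6 y ρ).1
        obtain ⟨k3, -, k4, -⟩ := kk_of_frel one_ne_zero
          ((i6 y ρ).2 hρ.1 [] (trel_refl _)) k1 γ s.j 1
        refine ⟨k3, congrArg Nat.cast ?_⟩
        rw [i3, i4, hD, k4]
        exact k2
    obtain ⟨o, e₁, ho⟩ := hgo (.todo prs rest) s' g _ _ _ ⟨hp.rg, hn.tail.inst i1 i2 i4,
      (key 0).mono fun _ _ _ h => h.1, hp.ec⟩ _ _ _ h
    refine ⟨o, e₁, fun γ hγ => ecf_congr ((key γ).mono fun _ _ _ h => h.2) ?_⟩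
    have := ho γ (BR.inst hγ i3 i5)
    rwa [show lev s' (.todo prs rest) = s.j from i3] at this
  · exact memo_spec hF ⟨hp.rg, hn.1, fun _ => hn.2.1, hp.gd, hp.ec⟩ h

theorem more_ok {A pd : List Kp} (hgo : GoOk P go) :
    Sd P (more P go prs w e rest A pd s g c t a) a (.pend prs w e rest A pd) s g := by
  intro hp c' t' a' h
  have hn : NOk P g.lim s prs (⟨w, e⟩ :: rest) := hp.md.1
  rcases ifb_is h with ⟨e₁, h⟩ | ⟨_, h⟩
  · refine ⟨[], is_ok h, fun γ _ => ecf_zero (hp.gd.mono fun y ρ _ h' => ?_)⟩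
    rw [nil_iff.1 e₁] at h'
    have h1 := h'.2
    rw [List.append_nil] at h1
    exact congrArg Nat.cast (pend_nil h'.1 (hn.todo y) h1)
  rcases ifb_is h with ⟨_, h⟩ | ⟨e₁, h⟩
  · exact hgo _ _ _ _ _ _ hp _ _ _ h
  · refine ⟨[], is_ok h, fun γ hγ => ecf_zero (hp.gd.mono fun y ρ _ h' => ?_)⟩
    refine congrArg Nat.cast (prune (r := s.r) (lo := P.lo) h'.1 (hn.1.len ρ ▸ hγ.1) ?_ _)
    refine lt_of_not_ge fun h1 => ?_
    rw [show orb (sy P y) (nd P ⟨w, e⟩).1 = orN P w from (orN_eq hn.wd.1.1 y).symm] at h1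
    exact absurd (Nat.ble_eq_true_of_le h1) (by rw [Bool.not_eq_true]; exact e₁)

theorem sPend_ok {A pd : List Kp} (hgo : GoOk P go) :
    Sd P (sPend P go prs w e rest A pd s g c t a) a (.pend prs w e rest A pd) s g := by
  intro hp c' t' a' h
  have hn : NOk P g.lim s prs (⟨w, e⟩ :: rest) := hp.md.1
  cases pd with
  | nil => exact (not_is_no h).elim
  | cons x pd =>
  have hk : ∀ a ∈ A ++ x :: pd, KOk P g.lim a := hp.md.2
  have hA : ∀ a ∈ A, KOk P g.lim a := fun a ha => hk a (List.mem_append_left _ ha)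
  have hx : KOk P g.lim x := hk x (List.mem_append_right _ List.mem_cons_self)
  obtain ⟨is, lim, b, dv, T, l, c₁, m1, m2, m3, m4, m5, m6, m7, m8, h⟩ :=
    cmb_spec hp.rg.lim hA hx.1 hx.2.2 h
  simp only [frc_eq] at h
  obtain ⟨s', c₂, ix, i1, i2, i3, i4, i5, i6, h⟩ :=
    inst_spec m5 (hn.1.mono m4) hn.wd.1 hn.wd.2 m6 m7 h
  obtain ⟨lim₀, G, E, ec⟩ := g
  obtain ⟨c₄, t₄, a₄, h₁, h₃⟩ := bnd_is h
  obtain ⟨c₃, t₃, a₃, h₁, h₂⟩ := bnd_is h₁
  have hn' : NOk P lim s' prs (⟨w, e⟩ :: rest) := hn.inst i1 i2 i4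
  have hg' : ROk P ⟨lim, G, E, ec⟩ := hp.rg.mono m4 m5 ec
  have hgd : Al P G E fun y ρ => Gd P s y ρ ∧ PendOk (sy P y) (frm P ρ s) (nd P ⟨w, e⟩)
      (A.map (kz P ρ) ++ kz P ρ x :: pd.map (kz P ρ)) := hp.gd.mono fun y ρ _ h' =>
    ⟨h'.1, by simpa only [List.map_append, List.map_cons] using h'.2⟩
  let W : Ty (Fin P.d) → ∀ y : Pt P.L, y.V → List (ZMod y.p) → ℕ := fun γ y ρ ts =>
    vPend (sy P y) γ (install (sy P y) (frm P ρ s) (dw P w)
      (comb (kz P ρ x) (A.map (kz P ρ)) ts) ix) s.j s.D (nd P ⟨w, e⟩) (rest.map (nd P))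
      (A.map (kz P ρ)) + vTodo (sy P y) γ (install (sy P y) (frm P ρ s) (dw P w)
      (comb (kz P ρ x) (A.map (kz P ρ)) ts) ix) s.j s.D (rest.map (nd P))
  have key : ∀ γ, Al P G E fun y ρ => MGd P s' (.pend prs w e rest A pd) y ρ ∧
      (W γ y ρ (is.map ρ) : ℤ) = val P γ s' (.pend prs w e rest A pd) y ρ +
        val P γ s' (.todo prs rest) y ρ := fun γ => hgd.mono fun y ρ hρ h' => by
    obtain ⟨k1, k2⟩ := pend_good h'.1 h'.2 (i6 y ρ).1 (is.map ρ)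
    have k3 := (i6 y ρ).2 hρ.1 _ (m8 _ ρ)
    obtain ⟨k4, -, k5, -⟩ := kk_of_frel one_ne_zero k3 k1 γ s.j s.D
    have k6 : ∀ l : List (Tms (ZMod y.p)), List.Forall₂ (TRel 1) l l := fun l =>
      List.forall₂_same.2 fun _ _ => trel_refl _
    refine ⟨⟨k4, ?_⟩, ?_⟩
    · rw [List.map_append]
      exact k3.pend one_ne_zero k1 (k6 _) k2
    · simp only [val, W, i3, i4, k5, k3.vPend one_ne_zero k1 (k6 _) k2, Nat.cast_add]
      rfl
  obtain ⟨o₁, e₁, q₁⟩ := hgo (.todo prs rest) s' ⟨lim, G, E, ec⟩ _ _ _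
    ⟨hg', hn'.tail, (key 0).mono fun _ _ _ h => h.1.1, hp.ec⟩ _ _ _ h₁
  obtain ⟨o₂, e₂, q₂⟩ := more_ok (s := s') (A := A) (pd := pd) hgo ⟨hg', ⟨hn', fun a ha => by
    have : KOk P lim₀ a := hk a (by
      rcases List.mem_append.1 ha with ha | ha
      · exact List.mem_append_left _ ha
      · exact List.mem_append_right _ (List.mem_cons_of_mem _ ha))
    exact ⟨this.1, this.2.1.trans m4, this.2.2⟩⟩, (key 0).mono fun _ _ _ h => h.1, hp.ec⟩ _ _ _ h₂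
  obtain ⟨o₃, e₃, q₃⟩ := more_ok (s := s) (A := x :: A) (pd := pd) hgo
    ⟨hp.rg, ⟨hn, fun a ha => hk a (List.perm_middle.mem_iff.2 ha)⟩,
    hp.gd.mono fun y ρ _ h' => ⟨h'.1, h'.2.perm (List.perm_middle.map _)⟩, hp.ec⟩ _ _ _ h₃
  refine ⟨o₃ ++ (o₂ ++ o₁), by rw [e₃, e₂, e₁, List.append_assoc, List.append_assoc],
    fun γ hγ => ?_⟩
  have hb : BR P γ s' := BR.inst hγ i3 i5
  have c1 := sS_fresh (R := InR P G E) is m2 (n := fun y ρ => (A.map (kz P ρ)).length)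
    (fun y ρ => by rw [List.length_map, m1]) (W γ) fun y ρ i hi v =>
      ⟨hp.rg.ind (m3 i hi) y ρ v, fun ts => by
        have z1 : kz P (Function.update ρ i v) x = kz P ρ x := TOk.ind hx (m3 i hi) ρ v
        have z2 : A.map (kz P (Function.update ρ i v)) = A.map (kz P ρ) :=
          List.map_congr_left fun a ha => TOk.ind (hA a ha) (m3 i hi) ρ v
        simp only [W, z1, z2, hn.1.ind (m3 i hi) ρ v]⟩
  have c2 := sS_eq (R := InR P G E) (R' := InR P G E) (Filter.Eventually.mono (key γ)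
    fun y h ρ => ⟨Iff.rfl, fun hρ => (h ρ hρ).2⟩)
  have c3 := sS_eq (R := InR P G E) (R' := InR P G E)
    (v := val P γ s (.pend prs w e rest A (x :: pd)))
    (v' := fun y ρ => val P γ s (.pend prs w e rest (x :: A) pd) y ρ +
      ((∑ᶠ t : Fin (A.map (kz P ρ)).length → ZMod y.p, W γ y ρ (List.ofFn t) : ℕ) : ℤ))
    (Filter.Eventually.mono hgd fun y h ρ => ⟨Iff.rfl, fun hρ => by
      have := pend_cons (h ρ hρ).1 hγ.1 (hn.todo y) (h ρ hρ).2 (i6 y ρ).1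
      simp only [val, this, Nat.cast_add, List.map_cons]
      rfl⟩)
  refine (((q₁ γ hb).add (q₂ γ hb)).add (q₃ γ hγ)).cg ?_
  refine (c3.sub (Cg.refl _)).trans (Cg.trans (Cg.of_eq (Filter.Eventually.of_forall fun y => by
    rw [sS_add])) ((((Cg.refl _).add (c1.trans c2)).sub (Cg.refl _)).trans
      (Cg.of_eq (Filter.Eventually.of_forall fun y => ?_))))
  simp only [sS_add, ov_append, lev, i3, sm]
  ring

theorem nod_spec {c' : ℕ} {t' : List ℕ} {a' : List Out} (hgo : GoOk P go)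
    (hp : Pre0 P (⟨w, e⟩ :: rest) s g) (h : Is (nod P go w e rest s g c t a) (.ok c' t' a')) :
    ∃ o, a' = o ++ a ∧ Post P (.node prs w e rest) s g o := by
  obtain ⟨hD, h⟩ := chk_is h
  obtain ⟨prs', hn, h⟩ := nod_prs hp.st (Nat.le_of_ble_eq_true hD) (hp.td (List.cons_ne_nil _ _)) h
  exact hgo (.node prs' w e rest) _ _ _ _ _ ⟨hp.rg, hn, hp.gd, hp.ec⟩ _ _ _ h

end Pool.Agent.P.MP_8598be_al.Ck
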