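import Pool.Agent.P.MP_8598be_al.Ck.U1
import Pool.Agent.P.MP_8598be_al.Ck.S1

/-!
Substitution in a state.
-/

namespace Pool.Agent.P.MP_8598be_al.Ck

open Z K MvPolynomial

variable {P : Par} [Cx P] {r : Res}

theorem mem_U2 {α β : Type} {R : α → β → Prop} {l : List α} {l' : List β}
    (h : List.Forall₂ R l l') : ∀ y ∈ l', ∃ x ∈ l, R x y := by
  induction h with
  | nil => exact fun y hy => absurd hy List.not_mem_nil
  | cons h1 _ ih =>
    refine List.forall_mem_cons.2 ⟨⟨_, List.mem_cons_self, h1⟩, fun y hy => ?_⟩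
    obtain ⟨x, hx, h2⟩ := ih y hy
    exact ⟨x, List.mem_cons_of_mem _ hx, h2⟩

/-- The relation between an entry and the entry after the substitution. -/
def ER_U2 (P : Par) (g' : Rg) (i : Fin 6) (u v : Rz) (n : ℕ) (x x' : En) : Prop :=
  x'.i = x.i ∧ x'.w = x.w ∧ EOk P g'.lim x' ∧
    Al P g'.G g'.E fun _ ρ => TRel (ev ρ u ^ n) (tev (up i u v ρ) (tz P x.t)) (tev ρ (tz P x'.t))

section

variable {g g' : Rg} {i : Fin 6} {T : List Po} {u v : Rz} {n : ℕ}

omit [Cx P] in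
theorem lay_U2 {D : ℕ} {l l' : List En} (h : List.Forall₂ (ER_U2 P g' i u v n) l l')
    (hl : Lay P D l) : Lay P D l' := fun e he => by
  obtain ⟨x, hx, h2⟩ := mem_U2 h e he
  rw [h2.2.1]
  exact hl x hx

omit [Cx P] in
theorem lo_U2 {D : ℕ} {l l' : List (List En)}
    (h : List.Forall₂ (List.Forall₂ (ER_U2 P g' i u v n)) l l') (hl : LoOk P D l) :
    LoOk P D l' := by
  induction h generalizing D with
  | nil => exact hl
  | cons h1 _ ih =>
    obtain ⟨D', e, h2, h3⟩ := hl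
    exact ⟨D', e, lay_U2 h1 h2, ih h3⟩

omit [Cx P] in
theorem hi_U2 {D : ℕ} {l l' : List (List En)}
    (h : List.Forall₂ (List.Forall₂ (ER_U2 P g' i u v n)) l l') (hl : HiOk P D l) :
    HiOk P D l' := by
  induction h generalizing D with
  | nil => exact hl
  | cons h1 _ ih => exact ⟨lay_U2 h1 hl.1, ih hl.2⟩

omit [Cx P] in
theorem idx_U2 {l l' : List En} (h : List.Forall₂ (ER_U2 P g' i u v n) l l') :
    l'.map En.i = l.map En.i := by
  induction h with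
  | nil => rfl
  | cons h1 _ ih => rw [List.map_cons, List.map_cons, h1.1, ih]

omit [Cx P] in
theorem frel_U2 {l l' : List En} (h : List.Forall₂ (ER_U2 P g' i u v n) l l') :
    Al P g'.G g'.E fun _ ρ =>
      FRel (ev ρ u ^ n) (l.map (fe P (up i u v ρ))) (l'.map (fe P ρ)) := by
  induction h with
  | nil => exact Al.of_forall fun _ _ _ => ⟨[], .nil, .refl _⟩
  | cons h1 _ ih =>
    exact (ih.and h1.2.2.2).mono fun _ _ _ h =>
      frel_cons h.1 h1.1 (congrArg (dw P) h1.2.1) h.2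

theorem subT_U2 (hg : ROk P g) (hu : SubOk P g i T g' u v n) {b₀ dv₀ : ℕ} {l : List Tm}
    (hl : ∀ x ∈ l, Den P ⟨x.p, x.n, b₀, dv₀⟩ (vz P x.p x.n)) (ho : Ori l)
    {k : ℕ → ℕ → List Tm → ℕ → Res} {b dv c : ℕ}
    (h : Is (subT P g.lim i (var P i) T g' b₀ dv₀ l k b dv c) r) :
    ∃ b₁ dv' t' c', TD P dv' b₁ t' (tz P t') ∧ dv ∣ dv' ∧ Ori t' ∧
      (Al P g'.G g'.E fun _ ρ =>
        TRel (ev ρ u ^ n) (tev (up i u v ρ) (tz P l)) (tev ρ (tz P t'))) ∧
      Is (k (b + b₁) dv' t' c') r := by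
  induction l generalizing k b dv c with
  | nil =>
    exact ⟨0, dv, [], c, .nil 0, dvd_rfl, ho, Al.of_forall fun _ _ _ =>
      ⟨fun _ _ => (mul_zero _).symm, fun x hx => absurd hx List.not_mem_nil⟩, h⟩
  | cons x l ih =>
    obtain ⟨hx, hl⟩ := List.forall_mem_cons.1 hl
    obtain ⟨ox, ho⟩ := List.forall_mem_cons.1 ho
    obtain ⟨y, a, c₁, hy, ha, h⟩ := sub2_spec hg.lim hu.np hu.T hx h
    obtain ⟨z, c₂, hz, hv, h⟩ := rnm_spec hu.ok.lim hu.ok.lim (fun x hx => (hu.ok.G x hx).1)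
      (fun x hx => (hu.ok.E x hx).1) hy h
    have hw : Al P g'.G g'.E fun _ ρ =>
        ev ρ (vz P z.p z.n) = ev ρ u ^ n * ev (up i u v ρ) (vz P x.p x.n) :=
      (hv.and hu.un).mono fun _ ρ _ h => h.1.trans (ha _ ρ h.2)
    rcases ifb_is h with ⟨e, h⟩ | ⟨-, h⟩
    · obtain ⟨b₁, dv', t', c', h1, h2, h3, h4, h5⟩ := ih hl ho h
      refine ⟨b₁, dv', t', c', h1, h2, h3, (h4.and hw).mono fun _ ρ _ h =>
        trel_drop h.1 (.inr ?_), h5⟩
      rw [← h.2, Nat.eq_of_beq_eq_true e, vz_self, map_zero]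
    · obtain ⟨b₁, dv', t', c', h1, h2, h3, h4, h5⟩ := ih hl ho h
      refine ⟨z.b + b₁, dv', ⟨x.j, x.l, z.p, z.n⟩ :: t', c',
        .cons (hz.1.mono rfl rfl le_rfl ((Nat.dvd_lcm_right dv z.dv).trans h2)) h1 le_rfl,
        (Nat.dvd_lcm_left dv z.dv).trans h2, List.forall_mem_cons.2 ⟨ox, h3⟩,
        (h4.and hw).mono fun _ ρ _ h => trel_cons h.1 _ _ h.2, ?_⟩
      rw [← Nat.add_assoc]
      exact h5

theorem subL_U2 (hg : ROk P g) (hu : SubOk P g i T g' u v n) {o : Bool} (h1 : o = true → u ^ n = 1)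
    {l : List En} (hl : ∀ x ∈ l, EOk P g.lim x) {k : List En → ℕ → Res} {c : ℕ}
    (h : Is (subL P g.lim i (var P i) T g' o l k c) r) :
    ∃ l' c', List.Forall₂ (ER_U2 P g' i u v n) l l' ∧ Is (k l' c') r := by
  induction l generalizing k c with
  | nil => exact ⟨[], c, .nil, h⟩
  | cons x l ih =>
    obtain ⟨hx, hl⟩ := List.forall_mem_cons.1 hl
    rcases ifb_is h with ⟨-, h⟩ | ⟨e, h⟩
    · obtain ⟨b₁, dv', t', c', h2, -, h3, h4, h⟩ :=
        subT_U2 hg hu (fun z hz => hx.1.den hz) hx.2.2 h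
      obtain ⟨-, h5, h⟩ := sml_is h
      obtain ⟨l', c'', h6, h⟩ := ih hl h
      exact ⟨⟨x.i, x.w, 0 + b₁, dv', t'⟩ :: l', c'',
        .cons ⟨rfl, rfl, ⟨h2.mono (Nat.le_add_left _ _) dvd_rfl, h5, h3⟩, h4⟩ h6, h⟩
    · obtain ⟨l', c'', h6, h7⟩ := ih hl h
      cases o
      · exact absurd e.symm Bool.false_ne_true
      have h2 : ¬ pr i ∣ x.dv := fun hd =>
        Nat.ne_of_beq_eq_false e (Nat.mod_eq_zero_of_dvd hd)
      have h3 : EOk P g'.lim x := ⟨hx.1, dvd_of_not (hu.lim ▸ hx.2.1) h2, hx.2.2⟩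
      refine ⟨x :: l', c'', .cons ⟨rfl, rfl, h3, Al.of_forall fun _ ρ _ => ?_⟩ h6, h7⟩
      rw [up, TOk.ind h3 hu.np, ← map_pow, h1 rfl, map_one]
      exact trel_refl _

theorem subLL_U2 (hg : ROk P g) (hu : SubOk P g i T g' u v n) {o : Bool}
    (h1 : o = true → u ^ n = 1) {l : List (List En)} (hl : ∀ x ∈ l.flatten, EOk P g.lim x)
    {k : List (List En) → ℕ → Res} {c : ℕ} (h : Is (subLL P g.lim i (var P i) T g' o l k c) r) :
    ∃ l' c', List.Forall₂ (List.Forall₂ (ER_U2 P g' i u v n)) l l' ∧ Is (k l' c') r := by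
  induction l generalizing k c with
  | nil => exact ⟨[], c, .nil, h⟩
  | cons x l ih =>
    obtain ⟨x', c', h2, h⟩ := subL_U2 hg hu h1 (fun z hz => hl z (List.mem_append_left _ hz)) h
    obtain ⟨l', c'', h3, h⟩ := ih (fun z hz => hl z (List.mem_append_right _ hz)) h
    exact ⟨_, c'', .cons h2 h3, h⟩

theorem one_U2 (hT : List.Forall₂ (Den P) T (pwz u v n)) {d : Po}
    (h : ifb ((nth d T 0).p.beq 1) ((nth d T 0).n.beq 0) false = true) : u ^ n = 1 := by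
  rw [pwz, List.range_succ_eq_map, List.map_cons] at hT
  cases hT with
  | @cons x _ _ _ hx _ =>
    change ifb (x.p.beq 1) (x.n.beq 0) false = true at h
    cases e : x.p.beq 1 <;> rw [e] at h
    · exact absurd h Bool.false_ne_true
    have e1 := Nat.eq_of_beq_eq_true e
    have e2 := Nat.eq_of_beq_eq_true h
    have hM : x.p + x.n ≤ P.M := by
      have := Nat.pow_le_pow_right two_pos (Cx.ok (P := P)).be
      rw [e1, e2, (Cx.ok (P := P)).M]
      omega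
    simpa [e1, e2] using (hx.const hM).1

end

theorem subS_spec {g g' : Rg} {i : Fin 6} {T : List Po} {u v : Rz} {n c : ℕ} {s : St}
    {k : St → ℕ → Res} (hg : ROk P g) (hu : SubOk P g i T g' u v n) (hs : SOk P g.lim s)
    (h : Is (subS P g.lim i (var P i) T g' s c k) r) :
    ∃ s' c', SOk P g'.lim s' ∧ s'.N = s.N ∧ s'.j = s.j ∧ s'.r = s.r ∧ s'.D = s.D ∧
      (Al P g'.G g'.E fun _ ρ => FRel (ev ρ u ^ n) (frm P (up i u v ρ) s) (frm P ρ s')) ∧
      Is (k s' c') r := by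
  obtain ⟨lo, cur, hi, N, U, j, ρ, D⟩ := s
  obtain ⟨o, h1, h⟩ : ∃ o : Bool, (o = true → u ^ n = 1) ∧
      Is (subLL P g.lim i (var P i) T g' o lo (fun lo c => subL P g.lim i (var P i) T g' o cur
        (fun cur c => subLL P g.lim i (var P i) T g' o hi
          (fun hi c => k ⟨lo, cur, hi, N, U, j, ρ, D⟩ c) c) c) c) r := by
    refine ⟨_, one_U2 hu.T (d := ⟨0, 0, 0, 1⟩), ?_⟩
    unfold subS at h
    generalize ifb _ _ false = o at h ⊢
    cases o <;> exact h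
  obtain ⟨lo', c₁, h2, h⟩ := subLL_U2 hg hu h1 (fun z hz => hs.en z (List.mem_append_left _ hz)) h
  obtain ⟨cur', c₂, h3, h⟩ := subL_U2 hg hu h1
    (fun z hz => hs.en z (List.mem_append_right _ (List.mem_append_left _ hz))) h
  obtain ⟨hi', c₃, h4, h⟩ := subLL_U2 hg hu h1
    (fun z hz => hs.en z (List.mem_append_right _ (List.mem_append_right _ hz))) h
  have h5 : List.Forall₂ (ER_U2 P g' i u v n) (ents ⟨lo, cur, hi, N, U, j, ρ, D⟩)
      (ents ⟨lo', cur', hi', N, U, j, ρ, D⟩) :=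
    List.rel_append (List.rel_flatten h2) (List.rel_append h3 (List.rel_flatten h4))
  refine ⟨⟨lo', cur', hi', N, U, j, ρ, D⟩, c₃, ⟨lo_U2 h2 hs.lo, lay_U2 h3 hs.cur, hi_U2 h4 hs.hi, fun e he => ?_,
    idx_U2 h5 ▸ hs.nd, fun e he => ?_, hs.N.trans h5.length_eq⟩, rfl, rfl, rfl, rfl, frel_U2 h5, h⟩
  · obtain ⟨x, -, hx⟩ := mem_U2 h5 e he
    exact hx.2.2.1
  · obtain ⟨x, hx, hx'⟩ := mem_U2 h5 e he
    rw [hx'.1]
    exact hs.U x hx

end Pool.Agent.P.MP_8598be_al.Ck
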