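import Pool.Agent.P.MP_8598be_al.Ck.M3
import Pool.Agent.P.MP_8598be_al.Ck.U2

/-!
The steps that count or change a region.
-/

namespace Pool.Agent.P.MP_8598be_al.Ck

open Z K MvPolynomial

variable {P : Par} [Cx P] {go : Go} {s : St} {g : Rg} {op c : ℕ} {t : List ℕ} {a : List Out}

theorem pre_M4 {ty : List ℕ} {p n : ℕ} (hg : ROk P g) (he : g.ec = true → RE P g) :
    Pre P (.cnt ty p n) s g :=
  ⟨hg, trivial, Al.of_forall fun _ _ _ => trivial, he⟩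

open Classical in
theorem sm_M4 (γ : Ty (Fin P.d)) (ty : List ℕ) (p n : ℕ) (y : Pt P.L) :
    sm P g (val P γ s (.cnt ty p n)) y =
      (if Mt P γ 0 ty then (p : ℤ) - n else 0) * sm P g (fun _ _ => 1) y :=
  sS_const _ (fun _ => if Mt P γ 0 ty then (p : ℤ) - n else 0) y

theorem re_M4 {ty : List ℕ} {p n : ℕ} (h : RE P g) : Post P (.cnt ty p n) s g [] := fun γ _ =>
  ((ecf_const _).mul h).cg (Cg.of_eq (.of_forall fun y => by rw [sm_M4, ov_nil, sub_zero]))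

omit [Cx P] in
theorem rok_M4 {G E : List Po} (h : ROk P g) (hG : ∀ x ∈ G, POk P g.lim x)
    (hE : ∀ x ∈ E, POk P g.lim x) (e : Bool) : ROk P ⟨g.lim, G, E, e⟩ :=
  ⟨h.lim, h.z, hG, hE⟩

theorem sCnt_ok {FT : List (List Fc)} {rk p n : ℕ} {ty : List ℕ} (hF : FOk P FT rk)
    (hgo : GoOk P go) : Sd P (sCnt P FT rk go ty p n s g op c t a) a (.cnt ty p n) s g := by
  intro hp c' t' a' h
  have hg := hp.rg
  unfold sCnt at h
  rcases sw_is h with h | ⟨op, h⟩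
  · obtain ⟨h1, h⟩ := chk_is h
    refine ⟨[], is_ok h, re_M4 ?_⟩
    obtain ⟨l, G, E, e⟩ := g
    cases e
    · cases G with
      | cons => cases h1
      | nil =>
        cases E with
        | cons => cases h1
        | nil => exact re_nil _ _
    · exact hp.ec rfl
  rcases sw_is h with h | ⟨op, h⟩
  · obtain ⟨x, G, q, h⟩ := pick_spec h
    obtain ⟨c₁, t₁, a₁, h₁, h₂⟩ := bnd_is h
    have hG : ∀ z ∈ G, POk P g.lim z := fun z hz => hg.G z (q.mem_iff.2 (.tail _ hz))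
    obtain ⟨o₁, rfl, p₁⟩ := hgo _ _ _ _ _ _ (pre_M4 (rok_M4 hg hG hg.E false) nofun) _ _ _ h₁
    obtain ⟨o₂, rfl, p₂⟩ := hgo _ _ _ _ _ _ (pre_M4 (rok_M4 hg hG (List.forall_mem_cons.2
      ⟨hg.G x (q.mem_iff.2 (.head _)), hg.E⟩) false) nofun) _ _ _ h₂
    refine ⟨o₂ ++ o₁, (List.append_assoc _ _ _).symm, fun γ hγ =>
      ((p₁ γ hγ).add (p₂ γ hγ)).cg (Cg.of_eq (.of_forall fun y => ?_))⟩
    have e : sm P g (fun _ _ => 1) y = sm P ⟨g.lim, x :: G, g.E, false⟩ (fun _ _ => 1) y := by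
      rw [sm, inR_perm q (.refl _)]
      rfl
    rw [ov_append, sm_M4, sm_M4, sm_M4, e,
      sm_split ⟨g.lim, G, g.E, false⟩ x _ g.lim g.lim false false]
    dsimp only [lev]
    split_ifs <;> ring
  rcases sw_is h with h | ⟨op, h⟩
  · obtain ⟨f, c₁, h1, h2, h⟩ := look_spec h
    obtain ⟨h3, h⟩ := chn_is h
    obtain ⟨h4, h⟩ := chk_is h
    obtain ⟨h5, h6⟩ := eqR_spec (lim := g.lim) (fun x hx => hg.G x ((srt_perm _ _).mem_iff.1 hx))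
      (fun x hx => hg.E x ((srt_perm _ _).mem_iff.1 hx)) h4
    have h7 := (hF _ f h1 h2).2 h3 h5
    rw [RE, sm, h6, inR_perm (srt_perm _ _) (srt_perm _ _)] at h7
    exact ⟨[], is_ok h, re_M4 h7⟩
  rcases sw_is h with h | ⟨op, h⟩
  · refine ⟨[_], is_ok h, fun γ _ => (ecf_const 0).cg (Cg.of_eq (.of_forall fun y => ?_))⟩
    have e : nA P (encL 0 (srt kyP g.G) (encL 1 (srt kyP g.E) [])) y = sm P g (fun _ _ => 1) y := by
      rw [nA, sm]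
      congr 1
      funext y ρ
      exact propext (inA_enc _ _ y ρ)
    have e' := mt_perm (P := P) (γ := γ) (j := 0) (srt_perm (fun x => x) ty)
    rw [sm_M4, cons_L1, ov_nil, show nA P _ y = _ from e]
    split_ifs with k k' k'
    · rw [add_zero, sub_self]
    · exact absurd (e'.2 k) k'
    · exact absurd (e'.1 k') k
    · rw [zero_mul, add_zero, sub_self]
  · obtain ⟨h1, h⟩ := chk_is (frc_eq _ _ ▸ h)
    obtain ⟨h2, h⟩ := chk_is (frc_eq _ _ ▸ h)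
    obtain ⟨h3, h⟩ := chk_is h
    obtain ⟨h4, h⟩ := chk_is h
    have e := Nat.eq_of_beq_eq_true h2
    refine hgo _ _ ⟨_, g.G, g.E, g.ec⟩ _ _ _ (pre_M4 ⟨(Dvd.intro _ e).trans hg.lim, fun hL => ?_,
      fun x hx => ⟨(hg.G x hx).1, allD_spec h3 x hx⟩,
      fun x hx => ⟨(hg.E x hx).1, allD_spec h4 x hx⟩⟩ hp.ec) _ _ _ h
    exact two_dvd (P := P) (i := ⟨c % 8 % 6, Nat.mod_lt _ (by decide)⟩) (nz_spec h1 hL)
      ((hg.z hL).trans (dvd_of_eq e.symm))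

omit [Cx P] in
theorem elim_M4 {i : Fin 6} {T : List Po} {g' : Rg} {u v : Rz} {n : ℕ}
    (hu : SubOk P g i T g' u v n) {f f' : ∀ y : Pt P.L, y.V → ℤ}
    (h : Al P g'.G g'.E fun y ρ => f' y ρ = f y (up i u v ρ)) : Cg (sm P g f) (sm P g' f') := by
  refine sS_elim i (fun _ ρ => ev ρ v / ev ρ u) ?_
  filter_upwards [hu.reg, h] with y h1 h2 ρ
  exact ⟨fun z => by rw [hu.iu, hu.iv], (h1 ρ).1, (h1 ρ).2, h2 ρ⟩

theorem solve_ok {m : Md} (hgo : GoOk P go) :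
    Sd P (solve P g c fun i T g' c => aft P go m s g.lim i T g' c t a) a m s g := by
  intro hp c' t' a' h
  obtain ⟨i, T, g', u, v, n, c₁, hu, h⟩ := solve_spec hp.rg h
  have he : g'.ec = true → RE P g' := fun e => (hp.ec (hu.ec.symm.trans e)).cg
    (elim_M4 (f := fun _ _ => 1) (f' := fun _ _ => 1) hu (Al.of_forall fun _ _ _ => rfl)).symm
  cases m with
  | deg => exact (not_is_no h).elim
  | todo => exact (not_is_no h).elim
  | pend => exact (not_is_no h).elim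
  | cnt ty p k =>
    obtain ⟨o, rfl, q⟩ := hgo _ _ _ _ _ _ (pre_M4 hu.ok he) _ _ _ h
    exact ⟨o, rfl, fun γ hγ => (q γ hγ).cg ((elim_M4 (f := val P γ s (.cnt ty p k))
      (f' := val P γ st0 (.cnt ty p k)) hu (Al.of_forall fun _ _ _ => rfl)).sub (Cg.refl _))⟩
  | node prs w e rest =>
    change Is (subS P g.lim i (var P i) T g' s c₁ fun s' c => nod P go w e rest s' g' c t a) _ at h
    have hm : NOk P g.lim s prs (⟨w, e⟩ :: rest) := hp.md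
    obtain ⟨s', c₂, hs, eN, ej, er, eD, hf, h⟩ := subS_spec hp.rg hu hm.1 h
    have hA : Al P g'.G g'.E fun y ρ => ev ρ u ^ n ≠ 0 ∧
        FRel (ev ρ u ^ n) (frm P (up i u v ρ) s) (frm P ρ s') ∧
        GoodF (sy P y) (frm P (up i u v ρ) s) := by
      filter_upwards [hu.reg, hu.un, hf, hp.gd] with y h1 h2 h3 h4 ρ hρ
      exact ⟨pow_ne_zero _ (h2 ρ hρ), h3 ρ hρ, h4 _ ((h1 ρ).1.1 hρ)⟩
    obtain ⟨o, rfl, q⟩ := nod_spec (prs := prs) hgo ⟨hu.ok, hs, fun _ => eD ▸ hm.2.1,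
      hA.mono fun y ρ _ k => (kk_of_frel k.1 k.2.1 k.2.2 0 0 0).1, he⟩ h
    refine ⟨o, rfl, fun γ hγ => ?_⟩
    have h1 := q γ (by
      change Bud _ _ _ _ _ ∧ _
      rw [eN, ej, er]
      exact hγ)
    dsimp only [lev] at h1 ⊢
    rw [ej] at h1
    refine h1.cg ((elim_M4 hu (hA.mono fun y ρ _ k => ?_)).sub (Cg.refl _))
    dsimp only [val]
    rw [ej, eD, (kk_of_frel k.1 k.2.1 k.2.2 γ _ _).2.2.2]

theorem tr_M4 {m : Md} {g' : Rg} {c' : ℕ} {t' : List ℕ} {a' : List Out} (hgo : GoOk P go)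
    (hg : ROk P g') (hm : MOk P g'.lim s m) (hd : Al P g'.G g'.E (MGd P s m))
    (he : g'.ec = true → RE P g) (h1 : Cg (sm P g' fun _ _ => 1) (sm P g fun _ _ => 1))
    (h2 : ∀ γ, Cg (sm P g' (val P γ s m)) (sm P g (val P γ s m)))
    (h : Is (go m s g' c t a) (.ok c' t' a')) : ∃ o, a' = o ++ a ∧ Post P m s g o := by
  obtain ⟨o, rfl, q⟩ := hgo _ _ _ _ _ _ ⟨hg, hm, hd, fun e => (he e).cg h1⟩ _ _ _ h
  exact ⟨o, rfl, fun γ hγ => (q γ hγ).cg ((h2 γ).symm.sub (Cg.refl _))⟩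

theorem same_M4 {m : Md} {G E : List Po} {c' : ℕ} {t' : List ℕ} {a' : List Out} (hgo : GoOk P go)
    (hp : Pre P m s g) (hG : ∀ x ∈ G, POk P g.lim x) (hE : ∀ x ∈ E, POk P g.lim x)
    (e : ∀ᶠ y in big P.L, ∀ ρ, InR P G E y ρ ↔ InR P g.G g.E y ρ)
    (h : Is (go m s ⟨g.lim, G, E, g.ec⟩ c t a) (.ok c' t' a')) :
    ∃ o, a' = o ++ a ∧ Post P m s g o := by
  have k : ∀ f, Cg (sm P ⟨g.lim, G, E, g.ec⟩ f) (sm P g f) := fun f =>
    sS_eq (e.mono fun y h ρ => ⟨h ρ, fun _ => rfl⟩)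
  refine tr_M4 hgo (rok_M4 hp.rg hG hE _) hp.md ?_ hp.ec (k _) (fun _ => k _) h
  filter_upwards [e, hp.gd] with y h1 h2 ρ hρ
  exact h2 ρ ((h1 ρ).1 hρ)

theorem split_M4 {m : Md} {x : Po} {e e' : Bool} {c' : ℕ} {t' : List ℕ} {a' : List Out}
    (hgo : GoOk P go) (hp : Pre P m s g) (hx : POk P g.lim x)
    (he : e = true → RE P ⟨g.lim, x :: g.G, g.E, e⟩)
    (he' : e' = true → RE P ⟨g.lim, g.G, x :: g.E, e'⟩)
    (h : Is (bnd (go m s ⟨g.lim, x :: g.G, g.E, e⟩ c t a) (go m s ⟨g.lim, g.G, x :: g.E, e'⟩))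
      (.ok c' t' a')) : ∃ o, a' = o ++ a ∧ Post P m s g o := by
  obtain ⟨c₁, t₁, a₁, h₁, h₂⟩ := bnd_is h
  obtain ⟨o₁, rfl, p₁⟩ := hgo _ _ _ _ _ _
    ⟨rok_M4 hp.rg (List.forall_mem_cons.2 ⟨hx, hp.rg.G⟩) hp.rg.E _, hp.md,
      hp.gd.sub fun _ _ k => (inR_G.1 k).1, he⟩ _ _ _ h₁
  obtain ⟨o₂, rfl, p₂⟩ := hgo _ _ _ _ _ _
    ⟨rok_M4 hp.rg hp.rg.G (List.forall_mem_cons.2 ⟨hx, hp.rg.E⟩) _, hp.md,
      hp.gd.sub fun _ _ k => (inR_E.1 k).1, he'⟩ _ _ _ h₂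
  refine ⟨o₂ ++ o₁, (List.append_assoc _ _ _).symm, fun γ hγ =>
    ((p₁ γ hγ).add (p₂ γ hγ)).cg (Cg.of_eq (.of_forall fun y => ?_))⟩
  rw [ov_append, sm_split g x _ g.lim g.lim e e']
  ring

omit [Cx P] in
theorem new_M4 {i : Fin 6} {u x : Rz} {z : Po} {l : ℕ} {e : Bool} (hg : ROk P g)
    (hi : ¬ pr i ∣ g.lim) (hu : Ind i u) (hx : Ind i x) (hz : u * X i - x = vp P z)
    (hn : Al P g.G g.E fun _ ρ => ev ρ u ≠ 0) {f : ∀ y : Pt P.L, y.V → ℤ}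
    (hf : ∀ y ρ v, f y (Function.update ρ i v) = f y ρ) :
    Cg (sm P ⟨l, g.G, z :: g.E, e⟩ f) (sm P g f) := by
  refine sS_elim i (fun _ ρ => ev ρ x / ev ρ u) ?_
  filter_upwards [hn] with y h ρ
  have k : ∀ ρ : y.V, ev ρ (vp P z) = ev ρ u * ρ i - ev ρ x := fun ρ => by
    rw [← hz, map_sub, map_mul, ev, eval₂Hom_X']
  refine ⟨fun _ => by rw [hu, hx], ?_, fun k' => ?_, fun _ => (hf _ _ _).symm⟩
  · rw [inR_E, hg.ind hi, k, hu, hx, Function.update_self]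
    exact ⟨fun k' => ⟨k', by rw [mul_div_cancel₀ _ (h ρ k'), sub_self]⟩, fun k' => k'.1⟩
  · obtain ⟨k₁, k₂⟩ := inR_E.1 k'
    rw [k, sub_eq_zero] at k₂
    rw [← k₂, mul_div_cancel_left₀ _ (h ρ k₁), Function.update_eq_self]

theorem sReg_ok {m : Md} (hgo : GoOk P go) : Sd P (sReg P go m s g op c t a) a m s g := by
  intro hp c' t' a' h
  have hg := hp.rg
  have hG : ∀ x ∈ g.G, Cn P x := fun x hx => (hg.G x hx).1
  have hE : ∀ x ∈ g.E, Cn P x := fun x hx => (hg.E x hx).1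
  unfold sReg at h
  rcases sw_is h with h | ⟨op, h⟩
  · obtain ⟨x, b, c₁, hx, h⟩ := rdP_spec h
    obtain ⟨h1, h2, h⟩ := sml_is h
    have hx := (hx.pok h1 h2 hg.lim).1
    rcases ifb_is h with ⟨-, h⟩ | ⟨-, h⟩
    · obtain ⟨c₂, t₂, o, h₁, h⟩ := bnd_is h
      obtain ⟨h3, h⟩ := chk_is h
      have k := re_of_cnt hgo (rok_M4 hg hg.G (List.forall_mem_cons.2 ⟨hx, hg.E⟩) _) rfl h₁ h3
      refine split_M4 (e' := true) hgo hp hx
        (fun e => ((hp.ec e).sub k).cg (Cg.of_eq (.of_forall fun y => ?_))) (fun _ => k) h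
      rw [sm_split g x _ g.lim g.lim g.ec false, add_sub_cancel_right]
    · exact split_M4 (e := false) (e' := false) hgo hp hx nofun nofun h
  rcases sw_is h with h | ⟨op, h⟩
  · exact solve_ok hgo hp _ _ _ h
  rcases sw_is h with h | ⟨op, h⟩
  · obtain ⟨c₁, k, h⟩ := uc_spec hg.lim hG hE (den_zero P) h
    refine ⟨[], is_ok h, fun γ _ => (ecf_const (0 - 0)).cg (Cg.sub (sS_zero ?_) (Cg.refl _))⟩
    filter_upwards [k] with y k ρ hρ
    exact absurd (map_zero _) (k ρ hρ)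
  rcases sw_is h with h | ⟨op, h⟩
  · obtain ⟨x, G, q, h⟩ := pick_spec h
    have hG' : ∀ z ∈ G, POk P g.lim z := fun z hz => hg.G z (q.mem_iff.2 (.tail _ hz))
    obtain ⟨c₁, k, h⟩ := uc_spec hg.lim (fun z hz => (hG' z hz).1) hE
      (hG x (q.mem_iff.2 (.head _))) h
    refine same_M4 hgo hp hG' hg.E ?_ h
    filter_upwards [k] with y k ρ
    rw [inR_perm q (.refl _), inR_G]
    exact ⟨fun k' => ⟨k', k ρ k'⟩, fun k' => k'.1⟩
  rcases sw_is h with h | ⟨op, h⟩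
  · obtain ⟨x, E, q, h⟩ := pick_spec h
    have hE' : ∀ z ∈ E, POk P g.lim z := fun z hz => hg.E z (q.mem_iff.2 (.tail _ hz))
    obtain ⟨c₁, k, h⟩ := zc_spec hg.lim hG (fun z hz => (hE' z hz).1)
      (hE x (q.mem_iff.2 (.head _))) h
    refine same_M4 hgo hp hg.G hE' ?_ h
    filter_upwards [k] with y k ρ
    rw [inR_perm (.refl g.G) q, inR_E]
    exact ⟨fun k' => ⟨k', k ρ k'⟩, fun k' => k'.1⟩
  rcases sw_is h with h | ⟨op, h⟩
  · obtain ⟨x, b, c₁, hx, h⟩ := rdP_spec h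
    obtain ⟨h1, h2, h⟩ := sml_is h
    have hx := (hx.pok h1 h2 hg.lim).1
    obtain ⟨c₂, k, h⟩ := zc_spec hg.lim hG hE hx.1 h
    refine same_M4 hgo hp hg.G (List.forall_mem_cons.2 ⟨hx, hg.E⟩) ?_ h
    filter_upwards [k] with y k ρ
    rw [inR_E]
    exact ⟨fun k' => k'.1, fun k' => ⟨k', k ρ k'⟩⟩
  rcases sw_is h with h | ⟨op, h⟩
  · obtain ⟨x, b, c₁, hx, h⟩ := rdP_spec h
    obtain ⟨h1, h2, h⟩ := sml_is h
    have hx := (hx.pok h1 h2 hg.lim).1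
    obtain ⟨c₂, k, h⟩ := uc_spec hg.lim hG hE hx.1 h
    refine same_M4 hgo hp (List.forall_mem_cons.2 ⟨hx, hg.G⟩) hg.E ?_ h
    filter_upwards [k] with y k ρ
    rw [inR_G]
    exact ⟨fun k' => k'.1, fun k' => ⟨k', k ρ k'⟩⟩
  rcases sw_is h with h | ⟨op, h⟩
  · obtain ⟨h0, h⟩ := chn_is (frc_eq _ _ ▸ h)
    obtain ⟨i, hi⟩ : ∃ i : Fin 6, (c.mod (nat_lit 8)).mod (nat_lit 6) = i :=
      ⟨⟨_, Nat.mod_lt _ (by decide)⟩, rfl⟩
    rw [hi] at h h0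
    have hi : ¬ pr i ∣ g.lim := fun k =>
      Nat.ne_of_beq_eq_false h0 (Nat.mod_eq_zero_of_dvd k)
    obtain ⟨u, b, c₁, hu, h⟩ := rdP_spec h
    obtain ⟨x, d, c₂, hx, h⟩ := rdP_spec h
    obtain ⟨-, h1, h⟩ := sml_is h
    obtain ⟨-, h2, h⟩ := sml_is h
    obtain ⟨c₃, k, h⟩ := uc_spec hg.lim hG hE hu h
    have hl := fresh_lim hg.lim hi
    have hl' : g.lim ∣ g.lim * pw P i := Dvd.intro _ rfl
    change Is (sml P (g.lim * pw P i) (psub (pmul u (var P i)) x).b (psub (pmul u (var P i)) x).dv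
      (go m s ⟨g.lim * pw P i, g.G, psub (pmul u (var P i)) x :: g.E, g.ec⟩ c₃ t a)) _ at h
    obtain ⟨h3, h4, h⟩ := sml_is h
    obtain ⟨h5, h6⟩ := ((hu.mul (den_var P i)).sub hx).pok h3 h4 hl
    have hg' := hg.mono hl' hl g.ec
    have iu := hu.ind fun k => hi (k.trans h1)
    have ix := hx.ind fun k => hi (k.trans h2)
    exact tr_M4 hgo (rok_M4 hg' hg'.G (List.forall_mem_cons.2 ⟨h5, hg'.E⟩) _) (hp.md.mono hl')
      (hp.gd.sub fun _ _ k => (inR_E.1 k).1) hp.ec (new_M4 hg hi iu ix h6 k fun _ _ _ => rfl)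
      (fun γ => new_M4 hg hi iu ix h6 k (hp.md.val_ind hi γ)) h
  · obtain ⟨c₂, t₂, o, h₁, h⟩ := bnd_is h
    obtain ⟨h3, h⟩ := chk_is h
    have k := re_of_cnt hgo (rok_M4 hg hg.G hg.E _) rfl h₁ h3
    exact tr_M4 hgo (rok_M4 hg hg.G hg.E true) hp.md hp.gd (fun _ => k) (Cg.refl _)
      (fun _ => Cg.refl _) h

end Pool.Agent.P.MP_8598be_al.Ck
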