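import Pool.Agent.P.MP_8598be_al.Ck.M2
import Pool.Agent.P.MP_8598be_al.Ck.M4

/-!
Correctness of the checker.
-/

namespace Pool.Agent.P.MP_8598be_al.Ck

open Z K MvPolynomial

variable {P : Par} [Cx P] {FT : List (List Fc)}

theorem step1_M5 {rk : ℕ} {go : Go} (hF : FOk P FT rk) (hgo : GoOk P go) (m : Md) (s : St)
    (g : Rg) (op c : ℕ) (t : List ℕ) (a : List Out) :
    Sd P (step1 P FT rk go m s g op c t a) a m s g := by
  intro hp c' t' a' h
  rcases ifb_is h with ⟨-, h⟩ | ⟨-, h⟩
  · cases m with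
    | deg => exact sDeg_ok hF hgo hp c' t' a' h
    | todo prs td => exact sTodo_ok hgo hp c' t' a' h
    | node prs w e rest => exact sNode_ok hF hgo hp c' t' a' h
    | pend prs w e rest A pd =>
      exact sPend_ok (c := c) (t := t) hgo hp c' t' a' h
    | cnt ty p n => exact sCnt_ok hF hgo hp c' t' a' h
  · exact sReg_ok hgo hp c' t' a' h

theorem step_M5 {rk : ℕ} {go : Go} (hF : FOk P FT rk) (hgo : GoOk P go) :
    GoOk P (step P FT rk go) := by
  intro m s g c t a
  cases c with
  | zero =>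
    cases t with
    | nil => exact fun _ _ _ _ h => (not_is_no h).elim
    | cons c t => exact step1_M5 hF hgo m s g _ _ t a
  | succ c => exact step1_M5 hF hgo m s g _ _ t a

theorem run_ok {rk : ℕ} (hF : FOk P FT rk) (n : ℕ) : GoOk P (run P FT rk n) := by
  induction n with
  | zero => exact fun _ _ _ _ _ _ _ _ _ _ h => (not_is_no h).elim
  | succ n ih => exact step_M5 hF ih

theorem strt_M5 {go : Go} (hgo : GoOk P go) {f : Fc} {c c' : ℕ} {t t' : List ℕ} {o : List Out}
    (h : Is (strt P go f c t) (.ok c' t' o))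
    (ho : ifb f.k (eqL eqO (cancel o) f.o) (nil (cancel o)) = true) : FV P f := by
  obtain ⟨k, st, td, rg, fo⟩ := f
  refine ⟨fun hk hp => ?_, fun hk hg => ?_⟩
  · change k = true at hk
    subst hk
    have e : cancel o = fo := eqL_eq (fun _ _ => eqO_eq) ho
    have key : ∃ o', o = o' ++ [] ∧ Post P (fm td) st rg o' := by
      cases td with
      | nil => exact hgo .deg st rg c t [] ⟨hp.rg, hp.st, hp.gd, hp.ec⟩ _ _ _ h
      | cons x rest => exact nod_spec (w := x.w) (e := x.e) (c := c) (t := t) hgo hp h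
    obtain ⟨o', e', hq⟩ := key
    rw [List.append_nil] at e'
    subst e'
    intro γ hγ
    have h1 := hq γ hγ
    change ECF fun y => sm P rg (val P γ st (fm td)) y - ov P γ (lev st (fm td)) fo y
    rw [← e]
    simpa only [ov_cancel] using h1
  · change k = false at hk
    subst hk
    exact re_of_cnt (g := ⟨rg.lim, rg.G, rg.E, false⟩) (c := c) (t := t) hgo
      ⟨hg.lim, hg.z, hg.G, hg.E⟩ rfl h ho

omit [Cx P] in
theorem chkL_cons_M5 (i : ℕ) (l : List ℕ) (c : ℕ) (t : List ℕ) :
    chkL P FT (i :: l) c t = look FT (i + 1) i fun f _ =>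
      bnd (strt P (run P FT i 1000) f c t) fun c t o =>
        chk (ifb f.k (eqL eqO (cancel o) f.o) (nil (cancel o))) (chkL P FT l c t) := rfl

theorem chkL_M5 {r : Res} (n : ℕ) : ∀ {a c : ℕ} {t : List ℕ}, FOk P FT a → a + n ≤ 16384 →
    Is (chkL P FT (List.range' a n) c t) r → FOk P FT (a + n) := by
  induction n with
  | zero => exact fun hF _ _ => hF
  | succ n ih =>
    intro a c t hF hn h
    rw [List.range'_succ, chkL_cons_M5] at h
    obtain ⟨f, -, -, h2, h⟩ := look_spec h
    rw [Nat.mod_eq_of_lt (by omega)] at h2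
    obtain ⟨c₁, t₁, o, h3, h⟩ := bnd_is h
    obtain ⟨h4, h⟩ := chk_is h
    have hf : FV P f := strt_M5 (run_ok hF 1000) h3 h4
    have hF' : FOk P FT (a + 1) := by
      intro i f' hi hf'
      rcases Nat.lt_succ_iff_lt_or_eq.1 hi with hi | hi
      · exact hF i f' hi hf'
      · subst hi
        rw [h2] at hf'
        cases hf'
        exact hf
    have := ih hF' (by omega) h
    rwa [Nat.add_assoc, Nat.add_comm 1 n] at this

theorem chkA_ok {a n : ℕ} {t : List ℕ} (hF : FOk P FT a) (hn : a + n ≤ 16384)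
    (h : chkA P FT (List.range' a n) t = true) : FOk P FT (a + n) := by
  refine chkL_M5 (c := 0) (t := t) n hF hn ⟨rfl, fun e => ?_⟩
  change Res.rec (motive := fun _ => Bool) false (fun _ _ _ => true)
    (chkL P FT (List.range' a n) 0 t) = true at h
  rw [e] at h
  cases h

theorem fOk_zero : FOk P FT 0 := by
  intro i f hi
  exact absurd hi (Nat.not_lt_zero i)

end Pool.Agent.P.MP_8598be_al.Ck
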