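import Pool.Agent.P.MP_8598be_al.Ck.Top

/-!
From the first fact to statements about types and classes.
-/

namespace Pool.Agent.P.MP_8598be_al.Ck

open Z K

/-- The outputs given by multidegrees, a polynomial and the class. -/
def outs (P : Par) (v : ℕ) (l : List (List ℕ × List ℤ × ℕ)) : List Out :=
  l.map fun x => ⟨x.1, [1, pk P v x.2.1, pk P v (x.2.1.map Neg.neg)], 1, 0⟩

/-- The first fact. -/
def top (P : Par) (v n lim : ℕ) (l : List (List ℕ × List ℤ × ℕ)) : Fc :=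
  ⟨true, ⟨[], [], [], 0, 0, n, n, 1⟩, [], ⟨lim, [], [], true⟩, outs P v l⟩

/-- The type of an output. -/
def oT (P : Par) (ty : List ℕ) : Ty (Fin P.d) := tyOf (ty.map fun w => (dw P w, 1))

/-- The side conditions. -/
def OOk (P : Par) (v lim : ℕ) (l : List (List ℕ × List ℤ × ℕ)) : Prop :=
  lim ∣ P.LIM ∧ (P.L ≠ 1 → 2 ∣ lim ∧ v ≠ 0) ∧ ∀ x ∈ l, (x.2.1.map Int.natAbs).sum < P.M ∧
    pr v ^ (x.2.1.length - 1) ∣ P.LIM ∧ P.m ≤ x.2.2 ∧
    (∀ w ∈ x.1, ∑ y, dw P w y ≤ x.2.2) ∧ ∃ w ∈ x.1, ∑ y, dw P w y = x.2.2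

noncomputable instance (P : Par) (v lim : ℕ) (l : List (List ℕ × List ℤ × ℕ)) :
    Decidable (OOk P v lim l) := by
  unfold OOk
  infer_instance

variable {P : Par} {n lim : ℕ} {l : List (List ℕ × List ℤ × ℕ)}

theorem oT_cost (ty : List ℕ) : HasCost (oT P ty) ty.length := by
  have := hasCost_tyOf (ty.map fun w => (dw P w, 1))
  rwa [List.map_map, show (Prod.snd ∘ fun w => (dw P w, 1)) = fun _ => 1 from rfl,
    List.map_const', List.sum_replicate, smul_eq_mul, mul_one] at this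

theorem oT_cls {ty : List ℕ} {m : ℕ} (h : ∀ w ∈ ty, ∑ y, dw P w y ≤ m)
    (h' : ∃ w ∈ ty, ∑ y, dw P w y = m) (c : ℕ) : Cls (oT P ty) c ↔ m ≤ c := by
  rw [oT, cls_tyOf]
  constructor
  · intro h1
    obtain ⟨w, hw, rfl⟩ := h'
    exact h1 _ (List.mem_map_of_mem hw) Nat.one_pos
  · intro h1 v hv _
    obtain ⟨w, hw, rfl⟩ := List.mem_map.1 hv
    exact (h w hw).trans h1

theorem oT_reach {ty : List ℕ} {m : ℕ} (hm : P.m ≤ m) (h' : ∃ w ∈ ty, ∑ y, dw P w y = m) :
    Reach (oT P ty) P.m := by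
  obtain ⟨w, hw, rfl⟩ := h'
  refine .inr ⟨dw P w, hm, ?_⟩
  rw [oT, tyOf_zero, tyL, Ne, List.count_eq_zero, not_not]
  exact List.mem_map_of_mem hw

variable [Cx P] {v : Fin 6}

open Classical in
theorem ty_all (hf : FV P (top P v n lim l)) (ho : OOk P v lim l)
    (hs : ∀ γ k, HasCost γ k → ¬ Reach γ P.m → EC P.L fun p _ => cntT (ZMod p) {Cx.σ (P := P)} γ)
    (γ : Ty (Fin P.d)) {k : ℕ} (h : HasCost γ k) (hk : k ≤ n) (h' : k = n ∨ P.lo ≤ n - k) :
    EC P.L fun p _ => (cntT (ZMod p) {Cx.σ (P := P)} γ : ℤ) -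
      (l.map fun x => if γ = oT P x.1 then roots x.2.1 p else 0).sum := by
  by_cases hm : Reach γ P.m
  · refine ECF.ec (L_pos P).ne' ((top_spec hf ho.1 (fun e => (ho.2.1 e).1) γ h hk h' hm).cg
      ((Cg.refl _).sub ?_))
    have h1 := ho.2.2
    have h2 : P.L ≠ 1 → v ≠ 0 := fun e e' => (ho.2.1 e).2 (congrArg Fin.val e')
    clear hf ho
    induction l with
    | nil => exact Cg.refl _
    | cons x l ih =>
      obtain ⟨a1, a2, -⟩ := h1 x List.mem_cons_self
      simp only [outs, List.map_cons, List.sum_cons] at ih ⊢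
      refine Cg.add ?_ (ih fun z hz => h1 z (List.mem_cons_of_mem _ hz))
      by_cases e : γ = oT P x.1
      · simpa only [if_pos e, if_pos (show γ = tyOf _ from e), Nat.cast_one, Nat.cast_zero,
          sub_zero, one_mul] using (nA_uni v h2 x.2.1 rfl rfl a1 a2).symm
      · simpa only [if_neg e, if_neg (show ¬ γ = tyOf _ from e)] using Cg.refl _
  · refine (hs γ k h hm).congr (Ev.of_forall fun p _ => ?_)
    rw [List.sum_eq_zero, sub_zero]
    intro z hz
    obtain ⟨x, hx, rfl⟩ := List.mem_map.1 hz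
    obtain ⟨-, -, a1, -, a2⟩ := ho.2.2 x hx
    exact if_neg fun e => hm (by rw [e]; exact oT_reach a1 a2)

theorem small_all (hf : FV P (top P v n lim l)) (ho : OOk P v lim l)
    (hs : ∀ γ k, HasCost γ k → ¬ Reach γ P.m → EC P.L fun p _ => cntT (ZMod p) {Cx.σ (P := P)} γ)
    (hn : ∀ x ∈ l, x.1.length = n) (γ : Ty (Fin P.d)) {k : ℕ} (h : HasCost γ k) (hk : k < n)
    (h' : P.lo ≤ n - k) :
    EC P.L fun p _ => cntT (ZMod p) {Cx.σ (P := P)} γ := by
  refine (ty_all hf ho hs γ h hk.le (.inr h')).congr (Ev.of_forall fun p _ => ?_)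
  rw [List.sum_eq_zero, sub_zero]
  intro z hz
  obtain ⟨x, hx, rfl⟩ := List.mem_map.1 hz
  refine if_neg fun e => hk.ne ?_
  rw [← hn x hx]
  exact h.unique (e ▸ oT_cost x.1)

open Classical in
theorem cls_all (hf : FV P (top P v n lim l)) (ho : OOk P v lim l)
    (hs : ∀ γ k, HasCost γ k → ¬ Reach γ P.m → EC P.L fun p _ => cntT (ZMod p) {Cx.σ (P := P)} γ)
    {l' : List (List ℕ × List ℤ × ℕ)} (hl : l' = l.filter fun x => decide (x.1.length = n))
    (c : ℕ) : EC P.L fun p _ => (cntC (ZMod p) {Cx.σ (P := P)} c n : ℤ) -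
      (l'.map fun x => if x.2.2 ≤ c then roots x.2.1 p else 0).sum := by
  subst hl
  refine (ec_cntC (S := {Cx.σ (P := P)}) (n := n) c ((l.filter fun x =>
    decide (x.1.length = n)).map fun x => (oT P x.1, roots x.2.1)) (fun e he => ?_)
    fun γ h => ?_).congr (Ev.of_forall fun p _ => ?_)
  · obtain ⟨x, hx, rfl⟩ := List.mem_map.1 he
    exact of_decide_eq_true (List.mem_filter.1 hx).2 ▸ oT_cost x.1
  · refine (ty_all hf ho hs γ h le_rfl (.inl rfl)).congr (Ev.of_forall fun p _ => ?_)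
    congr 1
    clear hf ho
    induction l with
    | nil => rfl
    | cons x l ih =>
      rw [List.map_cons, List.sum_cons, ih, List.filter_cons]
      by_cases e : x.1.length = n
      · rw [if_pos (decide_eq_true e)]
        rfl
      · rw [if_neg fun e' => e ((oT_cost x.1).unique (e' ▸ h)),
          if_neg fun e' => e (of_decide_eq_true e'), zero_add]
  · rw [List.map_map]
    refine congrArg _ (congrArg List.sum (List.map_congr_left fun x hx => ?_))
    obtain ⟨-, -, -, a1, a2⟩ := ho.2.2 x (List.mem_filter.1 hx).1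
    exact if_congr (oT_cls a1 a2 c) rfl rfl

end Pool.Agent.P.MP_8598be_al.Ck
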