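import Pool.Agent.P.MP_8598be_al.Ck.Defs

/-!
Packed polynomials: closure properties.
-/

namespace Pool.Agent.P.MP_8598be_al.Ck

open Z K MvPolynomial

variable {P : Par} {x y : Po} {a b : Rz} {A B : Rn} {dv dv' lim : ℕ} {r : Res}

theorem pr_prime (i : Fin 6) : (pr i).Prime := by
  fin_cases i
  exacts [Nat.prime_two, Nat.prime_three, Nat.prime_five, Nat.prime_seven, Nat.prime_eleven,
    (by norm_num : Nat.Prime 13)]

theorem pr_inj {i j : Fin 6} (h : pr i = pr j) : i = j := by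
  revert i j
  decide

theorem pr_zero : pr 0 = 2 := rfl

theorem pw_eq (P : Par) (i : ℕ) : pw P i = pr i ^ (rad P i - 1) := rfl

/-- Divisibility of codes is the order on exponents. -/
theorem code_dvd {m m' : Fin 6 → ℕ} :
    (∏ i : Fin 6, pr i ^ m i) ∣ ∏ i : Fin 6, pr i ^ m' i ↔ ∀ i, m i ≤ m' i := by
  refine ⟨fun h i => ?_, fun h => Finset.prod_dvd_prod_of_dvd _ _ fun i _ => pow_dvd_pow _ (h i)⟩
  have h1 := (Finset.dvd_prod_of_mem (fun i : Fin 6 => pr i ^ m i) (Finset.mem_univ i)).trans h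
  rw [← Finset.mul_prod_erase _ _ (Finset.mem_univ i)] at h1
  refine (Nat.pow_dvd_pow_iff_le_right (pr_prime i).one_lt).1
    (Nat.Coprime.dvd_of_dvd_mul_right (Nat.Coprime.prod_right fun j hj => ?_) h1)
  exact Nat.coprime_pow_primes _ _ (pr_prime i) (pr_prime j)
    fun e => (Finset.mem_erase.1 hj).1 (pr_inj e).symm

theorem Dg.mono (h : Dg A dv) (hd : dv ∣ dv') : Dg A dv' :=
  fun m hm => (h m hm).trans hd

theorem Dg.add (h : Dg A dv) (h' : Dg B dv) : Dg (A + B) dv :=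
  fun m hm => (Finset.mem_union.1 (support_add hm)).elim (h m) (h' m)

theorem Dg.mul (h : Dg A dv) (h' : Dg B dv') : Dg (A * B) (dv * dv') := by
  intro m hm
  obtain ⟨u, hu, v, hv, rfl⟩ := Finset.mem_add.1 (support_mul A B hm)
  simp only [Finsupp.add_apply, pow_add, Finset.prod_mul_distrib]
  exact mul_dvd_mul (h u hu) (h' v hv)

theorem dg_zero (dv : ℕ) : Dg 0 dv :=
  fun _ hm => absurd hm (Finset.notMem_empty _)

theorem dg_C (c dv : ℕ) : Dg (C c) dv := by
  intro m hm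
  rw [Finset.mem_singleton.1 (support_monomial_subset hm)]
  simp

theorem dg_monomial (m : Fin 6 →₀ ℕ) (c : ℕ) : Dg (monomial m c) (∏ i : Fin 6, pr i ^ m i) := by
  intro m' hm
  rw [Finset.mem_singleton.1 (support_monomial_subset hm)]

theorem kp_monomial (P : Par) (m : Fin 6 →₀ ℕ) (c : ℕ) :
    kp P (monomial m c) = c <<< (P.be * ∑ i : Fin 6, m i * ww P i) := by
  rw [kp, eval_monomial, Finsupp.prod_fintype _ _ fun _ => pow_zero _, Nat.shiftLeft_eq,
    Finset.mul_sum, ← Finset.prod_pow_eq_pow_sum]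
  refine congrArg _ (Finset.prod_congr rfl fun i _ => ?_)
  rw [← pow_mul, mul_assoc, mul_comm (m i)]

theorem l1_monomial (m : Fin 6 →₀ ℕ) (c : ℕ) : l1 (monomial m c) = c := by
  simp [l1, eval_monomial]

theorem Den.mono (h : Den P x a) (hp : y.p = x.p) (hn : y.n = x.n) (hb : x.b ≤ y.b)
    (hd : x.dv ∣ y.dv) : Den P y a := by
  obtain ⟨A, B, h1, h2, h3, h4, h5, h6⟩ := h
  exact ⟨A, B, h1.trans hp.symm, h2.trans hn.symm, h3.trans hb, h4.mono hd, h5.mono hd, h6⟩

theorem Den.mul (hx : Den P x a) (hy : Den P y b) : Den P (pmul x y) (a * b) := by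
  obtain ⟨A, B, h1, h2, h3, h4, h5, rfl⟩ := hx
  obtain ⟨A', B', k1, k2, k3, k4, k5, rfl⟩ := hy
  refine ⟨A * A' + B * B', A * B' + B * A', ?_, ?_, le_trans (le_of_eq ?_) (Nat.mul_le_mul h3 k3),
    (h4.mul k4).add (h5.mul k5), (h4.mul k5).add (h5.mul k4), ?_⟩
  · rw [map_add, map_mul, map_mul, h1, h2, k1, k2]
    rfl
  · rw [map_add, map_mul, map_mul, h1, h2, k1, k2]
    rfl
  · simp only [map_add, map_mul]
    ring
  · simp only [map_add, map_mul]
    ring

theorem Den.add (hx : Den P x a) (hy : Den P y b) : Den P (padd x y) (a + b) := by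
  obtain ⟨A, B, h1, h2, h3, h4, h5, rfl⟩ := hx
  obtain ⟨A', B', k1, k2, k3, k4, k5, rfl⟩ := hy
  have d1 := Nat.dvd_lcm_left x.dv y.dv
  have d2 := Nat.dvd_lcm_right x.dv y.dv
  refine ⟨A + A', B + B', ?_, ?_, le_trans (le_of_eq ?_) (Nat.add_le_add h3 k3),
    (h4.mono d1).add (k4.mono d2), (h5.mono d1).add (k5.mono d2), ?_⟩
  · rw [map_add, h1, k1]
    rfl
  · rw [map_add, h2, k2]
    rfl
  · simp only [map_add]
    ring
  · simp only [map_add]
    ring

theorem neg_P0 (h : Den P x a) : Den P ⟨x.n, x.p, x.b, x.dv⟩ (-a) := by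
  obtain ⟨A, B, h1, h2, h3, h4, h5, rfl⟩ := h
  exact ⟨B, A, h2, h1, (add_comm _ _).trans_le h3, h5, h4, neg_sub _ _⟩

theorem Den.sub (hx : Den P x a) (hy : Den P y b) : Den P (psub x y) (a - b) := by
  rw [sub_eq_add_neg]
  exact hx.add (y := ⟨y.n, y.p, y.b, y.dv⟩) (neg_P0 hy)

theorem Den.neg {p n c : ℕ} (h : Den P ⟨p, n, c, dv⟩ a) : Den P ⟨n, p, c, dv⟩ (-a) :=
  neg_P0 h

theorem den_nat (P : Par) (v : ℕ) : Den P ⟨v, 0, v, 1⟩ (v : Rz) :=
  ⟨C v, 0, eval_C v, map_zero _, by simp [l1], dg_C _ _, dg_zero _, by simp [toZ]⟩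

theorem den_one (P : Par) : Den P ⟨1, 0, 1, 1⟩ 1 := by
  simpa using den_nat P 1

theorem den_zero (P : Par) : Den P ⟨0, 0, 0, 1⟩ 0 := by
  simpa using den_nat P 0

theorem den_var (P : Par) (i : Fin 6) : Den P (var P i) (X i) := by
  refine ⟨X i, 0, (eval_X i).trans (p2_eq _).symm, map_zero _, ?_, ?_, dg_zero _, by simp [toZ]⟩
  · rw [map_zero, l1, eval_X]
    exact le_rfl
  · refine (dg_monomial (Finsupp.single i 1) 1).mono (dvd_of_eq ?_)
    rw [Finset.prod_eq_single i (fun j _ hj => by rw [Finsupp.single_eq_of_ne hj, pow_zero])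
      fun h => absurd (Finset.mem_univ i) h, Finsupp.single_eq_same, pow_one]
    rfl

theorem Den.shl {p n c : ℕ} (h : Den P ⟨p, n, c, dv⟩ a) (i : Fin 6) :
    Den P ⟨p <<< (P.be * ww P i), n <<< (P.be * ww P i), c, dv * pr i⟩ (X i * a) := by
  refine ((den_var P i).mul h).mono ?_ ?_ (Nat.one_mul c).le (dvd_of_eq (Nat.mul_comm _ _))
  · change _ = p2 (P.be * ww P i) * p + 0 * n
    rw [p2_eq, zero_mul, add_zero]
    exact (Nat.shiftLeft_eq _ _).trans (Nat.mul_comm _ _)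
  · change _ = p2 (P.be * ww P i) * n + 0 * p
    rw [p2_eq, zero_mul, add_zero]
    exact (Nat.shiftLeft_eq _ _).trans (Nat.mul_comm _ _)

theorem Den.ind (h : Den P x a) {i : Fin 6} (hi : ¬ pr i ∣ x.dv) : Ind i a := by
  obtain ⟨A, B, -, -, -, h4, h5, rfl⟩ := h
  have key : ∀ (F : Type) [CommRing F] (ρ : Fin 6 → F) (t : F) (A : Rn), Dg A x.dv →
      ev (Function.update ρ i t) (toZ A) = ev ρ (toZ A) := by
    intro F _ ρ t A hA
    rw [ev, ev, toZ, eval₂Hom_map_hom, eval₂Hom_map_hom, coe_eval₂Hom, coe_eval₂Hom, eval₂_eq',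
      eval₂_eq']
    refine Finset.sum_congr rfl fun m hm => congrArg _ (Finset.prod_congr rfl fun j _ => ?_)
    by_cases e : j = i
    · have h0 : m j = 0 := by
        by_contra h0
        exact hi (e ▸ (dvd_pow_self (pr j) h0).trans ((Finset.dvd_prod_of_mem
          (fun i : Fin 6 => pr i ^ m i) (Finset.mem_univ j)).trans (hA m hm)))
      rw [h0, pow_zero, pow_zero]
    · rw [Function.update_of_ne e]
  intro F _ ρ t
  rw [map_sub, map_sub, key F ρ t A h4, key F ρ t B h5]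

theorem vz_self (P : Par) (p : ℕ) : vz P p p = 0 :=
  sub_self _

theorem TD.mono {c c' : ℕ} {t : List Tm} {l : Tms Rz} (h : TD P dv c t l) (hc : c ≤ c')
    (hd : dv ∣ dv') : TD P dv' c' t l := by
  induction h generalizing c' with
  | nil b => exact .nil _
  | cons h1 _ h3 ih => exact .cons (h1.mono rfl rfl le_rfl hd) (ih le_rfl) (h3.trans hc)

theorem TD.perm {c : ℕ} {t t' : List Tm} {l : Tms Rz} (h : TD P dv c t l) (p : t.Perm t') :
    ∃ l', l.Perm l' ∧ TD P dv c t' l' := by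
  induction p generalizing c l with
  | nil => exact ⟨l, .refl _, h⟩
  | cons x _ ih =>
    cases h with
    | cons h1 h2 h3 =>
      obtain ⟨l', p', h'⟩ := ih h2
      exact ⟨_, p'.cons _, .cons h1 h' h3⟩
  | swap x y t =>
    cases h with
    | cons h1 h2 h3 =>
      cases h2 with
      | cons h4 h5 h6 => exact ⟨_, .swap _ _ _, .cons h4 (.cons h1 h5 le_rfl) (by omega)⟩
  | trans _ _ ih ih' =>
    obtain ⟨l', p', h'⟩ := ih h
    obtain ⟨l'', p'', h''⟩ := ih' h'
    exact ⟨l'', p'.trans p'', h''⟩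

theorem TD.den {c : ℕ} {t : List Tm} (h : TD P dv c t (tz P t)) {z : Tm} (hz : z ∈ t) :
    Den P ⟨z.p, z.n, c, dv⟩ (vz P z.p z.n) := by
  induction t generalizing c with
  | nil => exact absurd hz List.not_mem_nil
  | cons x t ih =>
    change TD P dv c (x :: t) ((x.j, x.l, vz P x.p x.n) :: tz P t) at h
    generalize hv : vz P x.p x.n = v at h
    generalize hl : tz P t = l at h
    cases h with
    | cons h1 h2 h3 =>
      rcases List.mem_cons.1 hz with rfl | hz
      · exact hv ▸ h1.mono rfl rfl (le_of_add_le_left h3) dvd_rfl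
      · rw [← hl] at h2
        exact (ih h2 hz).mono rfl rfl (le_of_add_le_right h3) dvd_rfl

end Pool.Agent.P.MP_8598be_al.Ck
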