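import Pool.Agent.P.MP_8598be_al.Ck.P0

/-!
Packed polynomials.
-/

namespace Pool.Agent.P.MP_8598be_al.Ck

open Z K MvPolynomial

variable {P : Par} {x y : Po} {a b : Rz} {A B : Rn} {dv dv' lim : ℕ} {r : Res}

variable [Cx P]

omit [Cx P] in
theorem kp_sum_P1 (A : Rn) :
    kp P A = ∑ m ∈ A.support, coeff m A * 2 ^ (P.be * ∑ i : Fin 6, m i * ww P i) := by
  conv_lhs => rw [A.as_sum, map_sum]
  exact Finset.sum_congr rfl fun m _ => (kp_monomial P m _).trans (Nat.shiftLeft_eq _ _)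

theorem l1_sum_P1 (A : Rn) : l1 A = ∑ m ∈ A.support, coeff m A := by
  conv_lhs => rw [A.as_sum, map_sum]
  exact Finset.sum_congr rfl fun m _ => l1_monomial m _

theorem digit_P1 {ι : Type} (s : Finset ι) (f g : ι → ℕ) {c : ℕ} (h : ∑ i ∈ s, f i < c) (k : ℕ) :
    (∑ i ∈ s, f i * c ^ g i) / c ^ k % c = ∑ i ∈ s, if g i = k then f i else 0 := by
  have hc : 0 < c := by omega
  have e : ∑ i ∈ s, f i * c ^ g i = (∑ i ∈ s, if g i < k then f i * c ^ g i else 0) +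
      c ^ k * ((∑ i ∈ s, if g i = k then f i else 0) +
        c * ∑ i ∈ s, if k < g i then f i * c ^ (g i - k - 1) else 0) := by
    rw [mul_add, Finset.mul_sum, Finset.mul_sum, Finset.mul_sum, ← Finset.sum_add_distrib,
      ← Finset.sum_add_distrib]
    refine Finset.sum_congr rfl fun i _ => ?_
    rcases lt_trichotomy (g i) k with h1 | h1 | h1
    · rw [if_pos h1, if_neg h1.ne, if_neg h1.not_gt]
      simp
    · rw [if_neg h1.not_lt, if_pos h1, if_neg h1.not_gt, h1]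
      ring
    · rw [if_neg h1.not_gt, if_neg h1.ne', if_pos h1]
      obtain ⟨d, hd⟩ := Nat.exists_eq_add_of_lt h1
      rw [hd, show k + d + 1 - k - 1 = d by omega]
      ring
  have h1 : (∑ i ∈ s, if g i < k then f i * c ^ g i else 0) < c ^ k := by
    cases k with
    | zero => simp
    | succ k =>
      calc (∑ i ∈ s, if g i < k + 1 then f i * c ^ g i else 0) ≤ ∑ i ∈ s, f i * c ^ k := by
            refine Finset.sum_le_sum fun i _ => ?_
            split_ifs with h2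
            · exact Nat.mul_le_mul_left _ (Nat.pow_le_pow_right hc (by omega))
            · exact Nat.zero_le _
        _ = (∑ i ∈ s, f i) * c ^ k := (Finset.sum_mul _ _ _).symm
        _ < c * c ^ k := Nat.mul_lt_mul_of_pos_right h (Nat.pow_pos hc)
        _ = c ^ (k + 1) := by ring
  have h2 : (∑ i ∈ s, if g i = k then f i else 0) < c := by
    refine lt_of_le_of_lt (Finset.sum_le_sum fun i _ => ?_) h
    split_ifs
    exacts [le_rfl, Nat.zero_le _]
  rw [e, Nat.add_mul_div_left _ _ (Nat.pow_pos hc), Nat.div_eq_of_lt h1, zero_add,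
    Nat.add_mul_mod_self_left, Nat.mod_eq_of_lt h2]

theorem mix_P1 {q u u' v v' : ℕ} (h : u < q) (h' : u' < q) (e : u + q * v = u' + q * v') :
    u = u' ∧ v = v' := by
  have h1 := congrArg (· % q) e
  simp only [Nat.add_mul_mod_self_left, Nat.mod_eq_of_lt h, Nat.mod_eq_of_lt h'] at h1
  subst h1
  exact ⟨rfl, Nat.eq_of_mul_eq_mul_left (by omega) (Nat.add_left_cancel e)⟩

theorem pos_eq_P1 (m : Fin 6 → ℕ) : ∑ i : Fin 6, m i * ww P i =
    m 0 + rad P 0 * (m 1 + rad P 1 * (m 2 + rad P 2 * (m 3 + rad P 3 * (m 4 + rad P 4 * m 5)))) := by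
  have h : POK P := Cx.ok
  have h0 := h.w0
  have h1 : ww P 1 = ww P 0 * rad P 0 := h.ws 0 (by norm_num)
  have h2 : ww P 2 = ww P 1 * rad P 1 := h.ws 1 (by norm_num)
  have h3 : ww P 3 = ww P 2 * rad P 2 := h.ws 2 (by norm_num)
  have h4 : ww P 4 = ww P 3 * rad P 3 := h.ws 3 (by norm_num)
  have h5 : ww P 5 = ww P 4 * rad P 4 := h.ws 4 (by norm_num)
  rw [Fin.sum_univ_six]
  change m 0 * ww P 0 + m 1 * ww P 1 + m 2 * ww P 2 + m 3 * ww P 3 + m 4 * ww P 4 +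
    m 5 * ww P 5 = _
  rw [h5, h4, h3, h2, h1, h0]
  ring

theorem pos_inj_P1 {m m' : Fin 6 → ℕ} (h : ∀ i : Fin 6, m i < rad P i)
    (h' : ∀ i : Fin 6, m' i < rad P i)
    (e : ∑ i : Fin 6, m i * ww P i = ∑ i : Fin 6, m' i * ww P i) : m = m' := by
  rw [pos_eq_P1, pos_eq_P1] at e
  obtain ⟨e0, e⟩ := mix_P1 (h 0) (h' 0) e
  obtain ⟨e1, e⟩ := mix_P1 (h 1) (h' 1) e
  obtain ⟨e2, e⟩ := mix_P1 (h 2) (h' 2) e
  obtain ⟨e3, e⟩ := mix_P1 (h 3) (h' 3) e
  obtain ⟨e4, e5⟩ := mix_P1 (h 4) (h' 4) e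
  funext i
  fin_cases i
  exacts [e0, e1, e2, e3, e4, e5]

theorem box_P1 (h : Dg A P.LIM) {m : Fin 6 →₀ ℕ} (hm : m ∈ A.support) (i : Fin 6) :
    m i < rad P i := by
  have ok : POK P := Cx.ok
  have h1 := h m hm
  rw [ok.LIM] at h1
  have h2 := (code_dvd (m := m) (m' := fun i => rad P i - 1)).1 h1 i
  have h3 := ok.rad i i.2
  change m i ≤ rad P i - 1 at h2
  omega

theorem coeff_kp_P1 (hA : l1 A < 2 ^ P.be) (dA : Dg A P.LIM) {m : Fin 6 →₀ ℕ}
    (hm : ∀ i : Fin 6, m i < rad P i) :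
    kp P A / (2 ^ P.be) ^ (∑ i : Fin 6, m i * ww P i) % 2 ^ P.be = coeff m A := by
  rw [l1_sum_P1] at hA
  rw [kp_sum_P1]
  simp only [pow_mul]
  rw [digit_P1 A.support (fun m => coeff m A) (fun m => ∑ i : Fin 6, m i * ww P i) hA,
    Finset.sum_eq_single m, if_pos rfl]
  · intro m' h1 h2
    exact if_neg fun e => h2 (Finsupp.ext (congrFun (pos_inj_P1 (box_P1 dA h1) hm e)))
  · intro h1
    rw [if_pos rfl]
    exact notMem_support_iff.1 h1

theorem M_lt_P1 : P.M < 2 ^ P.be := by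
  have ok : POK P := Cx.ok
  rw [ok.M]
  exact Nat.sub_lt (Nat.pow_pos (by norm_num)) Nat.one_pos

theorem ww_pos_P1 (i : ℕ) (hi : i < 6) : 0 < ww P i := by
  have ok : POK P := Cx.ok
  induction i with
  | zero => rw [ok.w0]; exact Nat.one_pos
  | succ i ih =>
    rw [ok.ws i (by omega)]
    exact Nat.mul_pos (ih (by omega)) (lt_of_lt_of_le (by norm_num) (ok.rad i (by omega)))

theorem const_P1 (h : kp P A ≤ P.M) : A = C (kp P A) := by
  have e : A = C (coeff 0 A) := by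
    ext m
    rw [coeff_C]
    split_ifs with h0
    · rw [h0]
    · by_contra h1
      have hm : m ∈ A.support := mem_support_iff.2 h1
      obtain ⟨i, hi⟩ : ∃ i, m i ≠ 0 := by
        by_contra h2
        exact h0 (Finsupp.ext fun i => by_contra fun h3 => h2 ⟨i, fun h4 => h3 h4.symm⟩)
      have h2 : 1 ≤ ∑ i : Fin 6, m i * ww P i :=
        le_trans (Nat.mul_pos (Nat.pos_of_ne_zero hi) (ww_pos_P1 i i.2))
          (Finset.single_le_sum (f := fun i : Fin 6 => m i * ww P i) (fun _ _ => Nat.zero_le _)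
            (Finset.mem_univ i))
      have h3 : coeff m A * 2 ^ (P.be * ∑ i : Fin 6, m i * ww P i) ≤ kp P A := by
        rw [kp_sum_P1]
        exact Finset.single_le_sum
          (f := fun m => coeff m A * 2 ^ (P.be * ∑ i : Fin 6, m i * ww P i))
          (fun _ _ => Nat.zero_le _) hm
      have h4 : 2 ^ P.be ≤ 2 ^ (P.be * ∑ i : Fin 6, m i * ww P i) :=
        Nat.pow_le_pow_right (by norm_num) (Nat.le_mul_of_pos_right _ h2)
      have h5 := Nat.le_mul_of_pos_left (2 ^ (P.be * ∑ i : Fin 6, m i * ww P i))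
        (Nat.pos_of_ne_zero h1)
      have h6 : P.M < 2 ^ P.be := M_lt_P1
      omega
  have e' : kp P A = coeff 0 A := by
    conv_lhs => rw [e]
    exact eval_C _
  rw [e']
  exact e

omit [Cx P] in
theorem dg_geom_P1 (n k : ℕ) (h : n ≤ k + 1) :
    Dg (∑ e ∈ Finset.range n, (X 0 : Rn) ^ e) (2 ^ k) := by
  induction n with
  | zero => exact dg_zero _
  | succ n ih =>
    rw [Finset.sum_range_succ]
    refine (ih (by omega)).add ?_
    rw [X_pow_eq_monomial]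
    refine (dg_monomial _ _).mono ?_
    rw [Finset.prod_eq_single 0 (fun j _ hj => by rw [Finsupp.single_eq_of_ne hj, pow_zero])
      fun h => absurd (Finset.mem_univ _) h, Finsupp.single_eq_same]
    exact pow_dvd_pow 2 (by omega)

theorem Den.shz {p n c : ℕ} (h : Den P ⟨p, n, c, dv⟩ a) (e : ℕ) :
    Den P ⟨p <<< (P.be * e), n <<< (P.be * e), c, dv * 2 ^ e⟩ (X 0 ^ e * a) := by
  have h0 : ww P (0 : Fin 6) = 1 := (Cx.ok : POK P).w0
  induction e with
  | zero => simpa using h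
  | succ e ih =>
    have h1 := ih.shl 0
    rw [h0, mul_one, ← Nat.shiftLeft_add, ← Nat.shiftLeft_add, ← mul_assoc, ← pow_succ'] at h1
    rw [mul_add, mul_one, pow_succ 2, ← mul_assoc]
    exact h1

/-- The packed number is below the next power of two. -/
theorem kp_lt {m : Fin 6 → ℕ} (h : l1 A < 2 ^ P.be) (hd : Dg A (∏ i : Fin 6, pr i ^ m i)) :
    kp P A < 2 ^ (P.be * (∑ i : Fin 6, m i * ww P i + 1)) := by
  have _ok : POK P := Cx.ok
  calc kp P A ≤ ∑ m' ∈ A.support, coeff m' A * 2 ^ (P.be * ∑ i : Fin 6, m i * ww P i) := by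
        rw [kp_sum_P1]
        refine Finset.sum_le_sum fun m' hm => Nat.mul_le_mul_left _
          (Nat.pow_le_pow_right (by norm_num) (Nat.mul_le_mul_left _
            (Finset.sum_le_sum fun i _ => Nat.mul_le_mul_right _ ?_)))
        exact code_dvd.1 (hd m' hm) i
    _ = l1 A * 2 ^ (P.be * ∑ i : Fin 6, m i * ww P i) := by rw [l1_sum_P1, Finset.sum_mul]
    _ < 2 ^ P.be * 2 ^ (P.be * ∑ i : Fin 6, m i * ww P i) :=
        Nat.mul_lt_mul_of_pos_right h (Nat.pow_pos (by norm_num))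
    _ = _ := by ring

theorem kp_mod (A : Rn) : kp P A ≡ l1 A [MOD P.M] := by
  have h1 : 2 ^ P.be ≡ 1 [MOD P.M] := by
    rw [(Cx.ok : POK P).M]
    exact ((Nat.modEq_iff_dvd' (Nat.pow_pos (by norm_num))).2 dvd_rfl).symm
  induction A using MvPolynomial.induction_on with
  | C c => rw [kp, l1, eval_C, eval_C]
  | add p q hp hq =>
    rw [map_add, map_add]
    exact hp.add hq
  | mul_X p i hp =>
    rw [map_mul, map_mul]
    refine hp.mul ?_
    rw [kp, l1, eval_X, eval_X, pow_mul]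
    simpa using h1.pow (ww P i)

/-- Uniqueness: mixed radix positions are distinct, and digits in base `2 ^ be` are unique. -/
theorem kp_inj (hA : l1 A < 2 ^ P.be) (hB : l1 B < 2 ^ P.be) (dA : Dg A P.LIM) (dB : Dg B P.LIM)
    (h : kp P A = kp P B) : A = B := by
  ext m
  by_cases hm : ∀ i : Fin 6, m i < rad P i
  · rw [← coeff_kp_P1 hA dA hm, ← coeff_kp_P1 hB dB hm, h]
  · rw [notMem_support_iff.1 fun h1 => hm (box_P1 dA h1),
      notMem_support_iff.1 fun h1 => hm (box_P1 dB h1)]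

theorem dec_kp (hA : l1 A < 2 ^ P.be) (dA : Dg A P.LIM) : dec P (kp P A) = A := by
  obtain ⟨h1, h2, h3⟩ := Classical.epsilon_spec
    (p := fun A' => kp P A' = kp P A ∧ l1 A' < 2 ^ P.be ∧ Dg A' P.LIM) ⟨A, rfl, hA, dA⟩
  exact kp_inj h2 hA h3 dA h1

theorem Den.vp_eq (h : Den P x a) (hb : x.b < P.M) (hd : x.dv ∣ P.LIM) : a = vp P x := by
  obtain ⟨A, B, h1, h2, h3, h4, h5, rfl⟩ := h
  have h6 : P.M < 2 ^ P.be := M_lt_P1
  rw [vp, vz, ← h1, ← h2, dec_kp (by omega) (h4.mono hd), dec_kp (by omega) (h5.mono hd)]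

theorem Den.pok (h : Den P x a) (hb : x.b < P.M) (hd : x.dv ∣ lim) (hl : lim ∣ P.LIM) :
    POk P lim x ∧ a = vp P x := by
  have e := h.vp_eq hb (hd.trans hl)
  refine ⟨⟨?_, hd⟩, e⟩
  rw [Cn, ← e]
  exact h

/-- A polynomial whose packed number is at most `M` is constant. -/
theorem Den.const (h : Den P x a) (hc : x.p + x.n ≤ P.M) :
    a = (((x.p : ℤ) - x.n : ℤ) : Rz) ∧ x.p + x.n ≤ x.b := by
  obtain ⟨A, B, h1, h2, h3, -, -, rfl⟩ := h
  have hA : A = C x.p := h1 ▸ const_P1 (by omega)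
  have hB : B = C x.n := h2 ▸ const_P1 (by omega)
  subst hA hB
  refine ⟨by simp [toZ], ?_⟩
  rwa [l1, eval_C, eval_C] at h3

theorem isz_spec {k : Res} (hl : lim ∣ P.LIM) (hx : Den P x a) (h : Is (isz P lim x k) r) :
    a = 0 ∧ Is k r := by
  obtain ⟨h1, h⟩ := chk_is h
  obtain ⟨h2, h3, h⟩ := sml_is h
  refine ⟨?_, h⟩
  rw [hx.vp_eq h2 (h3.trans hl), vp, Nat.eq_of_beq_eq_true h1, vz_self]

theorem nrm_spec {k : Po → Res} (hx : Den P x a) (hb : x.b < P.M) (h : Is (nrm P x k) r) :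
    ∃ y, Den P y a ∧ y.b ≤ x.b ∧ y.dv ∣ x.dv ∧ Is (k y) r := by
  rcases ifb_is h with ⟨h1, h⟩ | ⟨-, h⟩
  · obtain ⟨h2, h3⟩ := hx.const (Nat.le_of_ble_eq_true h1)
    refine ⟨⟨x.p - x.n, x.n - x.p, (x.p - x.n) + (x.n - x.p), 1⟩, ⟨C (x.p - x.n), C (x.n - x.p),
      eval_C _, eval_C _, ?_, dg_C _ _, dg_C _ _, ?_⟩, ?_, one_dvd _, h⟩
    · rw [l1, eval_C, eval_C]
    · have e : (x.p : ℤ) - x.n = ((x.p - x.n : ℕ) : ℤ) - ((x.n - x.p : ℕ) : ℤ) := by omega
      rw [h2, e]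
      simp [toZ]
    · change x.p - x.n + (x.n - x.p) ≤ x.b
      omega
  · obtain ⟨A, B, h1, h2, h3, h4, h5, h6⟩ := hx
    have e1 : x.p % P.M = l1 A := by
      rw [← h1, kp_mod A, Nat.mod_eq_of_lt (by omega)]
    have e2 : x.n % P.M = l1 B := by
      rw [← h2, kp_mod B, Nat.mod_eq_of_lt (by omega)]
    refine ⟨⟨x.p, x.n, x.p % P.M + x.n % P.M, x.dv⟩, ⟨A, B, h1, h2, ?_, h4, h5, h6⟩, ?_, dvd_rfl, h⟩
    · rw [e1, e2]
    · rw [e1, e2]
      exact h3

theorem phi_spec (P : Par) [Cx P] :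
    ∃ φ, Den P P.phi φ ∧ ∀ (y : Pt P.L) (ρ : y.V), Zc y ρ → ev ρ φ = 0 := by
  have ok : POK P := Cx.ok
  by_cases hL : P.L = 1
  · rw [ok.phi1 hL]
    exact ⟨0, den_zero P, fun _ _ _ => map_zero _⟩
  · have h2 : 1 < P.L := (ok.L.resolve_left hL).one_lt
    have h0 : ww P (0 : Fin 6) = 1 := ok.w0
    rw [ok.phi hL]
    refine ⟨_, ⟨∑ e ∈ Finset.range P.L, (X 0 : Rn) ^ e, 0, ?_, map_zero _, ?_,
      dg_geom_P1 _ _ (by omega), dg_zero _, rfl⟩, fun y ρ hz => ?_⟩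
    · rw [map_sum]
      refine Finset.sum_congr rfl fun e _ => ?_
      rw [map_pow, kp, eval_X, h0, mul_one, pow_mul]
    · simp [l1]
    · rw [map_zero, sub_zero, map_sum, map_sum, ← y.hζ.geom_sum_eq_zero h2]
      refine Finset.sum_congr rfl fun e _ => ?_
      rw [map_pow, map_pow, toZ, map_X, ev, eval₂Hom_X', hz hL]

theorem fresh_lim (hl : lim ∣ P.LIM) {i : Fin 6} (h : ¬ pr i ∣ lim) : lim * pw P i ∣ P.LIM := by
  refine Nat.Coprime.mul_dvd_of_dvd_of_dvd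
    (((pr_prime i).coprime_iff_not_dvd.2 h).symm.pow_right _) hl ?_
  rw [(Cx.ok : POK P).LIM]
  exact Finset.dvd_prod_of_mem (fun i : Fin 6 => pw P i) (Finset.mem_univ i)

theorem pr_dvd_pw (i : Fin 6) : pr i ∣ pw P i := by
  have h := (Cx.ok : POK P).rad i i.2
  rw [pw_eq]
  exact dvd_pow_self _ (by omega)

omit [Cx P] in
theorem dvd_of_not {i : Fin 6} (h : dv ∣ lim * pw P i) (h' : ¬ pr i ∣ dv) : dv ∣ lim := by
  exact (((pr_prime i).coprime_iff_not_dvd.2 h').symm.pow_right _).dvd_of_dvd_mul_right h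

omit [Cx P] in
theorem two_dvd {i : Fin 6} (h0 : (i : ℕ) ≠ 0) (h : 2 ∣ lim * pw P i) : 2 ∣ lim := by
  refine dvd_of_not h fun h1 => h0 ?_
  have h2 : pr i = pr (0 : Fin 6) := (Nat.prime_dvd_prime_iff_eq (pr_prime i) Nat.prime_two).1 h1
  rw [pr_inj h2]
  rfl

theorem TD.tz_eq {c : ℕ} {t : List Tm} {l : Tms Rz} (h : TD P dv c t l) (hc : c < P.M)
    (hd : dv ∣ P.LIM) : l = tz P t := by
  induction h with
  | nil b => rfl
  | cons h1 _ h3 ih =>
    rw [h1.vp_eq (lt_of_le_of_lt (le_of_add_le_left h3) hc) hd,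
      ih (lt_of_le_of_lt (le_of_add_le_right h3) hc)]
    rfl

end Pool.Agent.P.MP_8598be_al.Ck
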