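import Pool.Agent.P.MP_8598be_al.Ck.P1

/-!
Packed vectors.
-/

namespace Pool.Agent.P.MP_8598be_al.Ck

open Z K MvPolynomial

variable {P : Par} {x y u : Po} {a b : Polynomial Rz} {α β : Rz} {W dvm : ℕ} {r : Res}

theorem kv_C_P2 (P : Par) (W : ℕ) (A : Rn) : kv P W (Polynomial.C A) = kp P A :=
  Polynomial.eval₂_C _ _

theorem lv_C_P2 (A : Rn) : lv (Polynomial.C A) = l1 A := Polynomial.eval₂_C _ _

theorem kv_mon_P2 (P : Par) (W i : ℕ) (A : Rn) :
    kv P W (Polynomial.monomial i A) = kp P A * 2 ^ (W * i) := by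
  rw [pow_mul]
  exact Polynomial.eval₂_monomial _ _

theorem lv_mon_P2 (i : ℕ) (A : Rn) : lv (Polynomial.monomial i A) = l1 A := by
  have h : lv (Polynomial.monomial i A) = l1 A * 1 ^ i := Polynomial.eval₂_monomial _ _
  rw [h, one_pow, mul_one]

theorem l1_coeff_P2 (A : Polynomial Rn) (i : ℕ) : l1 (A.coeff i) ≤ lv A := by
  have h := congrArg lv (Polynomial.monomial_add_erase A i)
  rw [map_add, lv_mon_P2] at h
  omega

theorem dgv_mono_P2 {A : Polynomial Rn} {dv dv' : ℕ} (h : Dgv A dv) (hd : dv ∣ dv') :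
    Dgv A dv' := fun r => (h r).mono hd

theorem dgv_add_P2 {A B : Polynomial Rn} {dv : ℕ} (h : Dgv A dv) (h' : Dgv B dv) :
    Dgv (A + B) dv := fun r => by
  rw [Polynomial.coeff_add]
  exact (h r).add (h' r)

theorem dgv_mul_P2 {U : Rn} {A : Polynomial Rn} {dv dv' : ℕ} (h : Dg U dv) (h' : Dgv A dv') :
    Dgv (Polynomial.C U * A) (dv * dv') := fun r => by
  rw [Polynomial.coeff_C_mul]
  exact h.mul (h' r)

theorem dgv_mon_P2 {U : Rn} {dv : ℕ} (h : Dg U dv) (i : ℕ) :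
    Dgv (Polynomial.monomial i U) dv := fun r => by
  rw [Polynomial.coeff_monomial]
  split_ifs
  · exact h
  · exact dg_zero dv

theorem eval_divX_P2 (N : ℕ) (q : Polynomial ℕ) :
    q.eval N = N * q.divX.eval N + q.coeff 0 := by
  have h := congrArg (Polynomial.eval N) (Polynomial.X_mul_divX_add q)
  rw [Polynomial.eval_add, Polynomial.eval_mul, Polynomial.eval_X, Polynomial.eval_C] at h
  exact h.symm

theorem digit_P2 (N i : ℕ) : ∀ q : Polynomial ℕ, (∀ r, q.coeff r < N) →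
    q.eval N / N ^ i % N = q.coeff i := by
  induction i with
  | zero =>
    intro q h
    rw [pow_zero, Nat.div_one, eval_divX_P2, Nat.mul_add_mod, Nat.mod_eq_of_lt (h 0)]
  | succ i ih =>
    intro q h
    have h0 : 0 < N := Nat.zero_lt_of_lt (h 0)
    rw [pow_succ', ← Nat.div_div_eq_div_mul, eval_divX_P2, Nat.mul_add_div h0,
      Nat.div_eq_of_lt (h 0), add_zero, ih _ fun r => by rw [Polynomial.coeff_divX]; exact h _,
      Polynomial.coeff_divX]

theorem bound_P2 (N n : ℕ) : ∀ q : Polynomial ℕ, (∀ r, q.coeff r < N) →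
    (∀ r, n ≤ r → q.coeff r = 0) → q.eval N < N ^ n := by
  induction n with
  | zero =>
    intro q _ h
    have e : q = 0 := Polynomial.ext fun r => h r (Nat.zero_le r)
    rw [e, Polynomial.eval_zero, pow_zero]
    exact Nat.one_pos
  | succ n ih =>
    intro q h h'
    have h1 := ih q.divX (fun r => by rw [Polynomial.coeff_divX]; exact h _)
      fun r hr => by rw [Polynomial.coeff_divX]; exact h' _ (Nat.succ_le_succ hr)
    have h2 := Nat.mul_le_mul_left N (Nat.succ_le_of_lt h1)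
    have h3 := h 0
    rw [eval_divX_P2, pow_succ']
    rw [Nat.mul_succ] at h2
    omega

theorem kv_eval_P2 (P : Par) (W : ℕ) (A : Polynomial Rn) :
    kv P W A = (A.map (kp P)).eval (2 ^ W) := Polynomial.eval₂_eq_eval_map _

theorem Dev.smul (hu : Den P u α) (hx : Dev P W x a) :
    Dev P W (pmul u x) (Polynomial.C α * a) := by
  obtain ⟨U, V, u1, u2, u3, u4, u5, rfl⟩ := hu
  obtain ⟨A, B, x1, x2, x3, x4, x5, rfl⟩ := hx
  refine ⟨Polynomial.C U * A + Polynomial.C V * B, Polynomial.C U * B + Polynomial.C V * A,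
    ?_, ?_, ?_, dgv_add_P2 (dgv_mul_P2 u4 x4) (dgv_mul_P2 u5 x5),
    dgv_add_P2 (dgv_mul_P2 u4 x5) (dgv_mul_P2 u5 x4), ?_⟩
  · rw [map_add, map_mul, map_mul, kv_C_P2, kv_C_P2, u1, u2, x1, x2]
    rfl
  · rw [map_add, map_mul, map_mul, kv_C_P2, kv_C_P2, u1, u2, x1, x2]
    rfl
  · rw [map_add, map_add, map_mul, map_mul, map_mul, map_mul, lv_C_P2, lv_C_P2]
    refine le_trans (le_of_eq ?_) (Nat.mul_le_mul u3 x3)
    ring
  · simp only [Polynomial.map_add, Polynomial.map_mul, Polynomial.map_C, Polynomial.C_sub]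
    ring

theorem Dev.add (hx : Dev P W x a) (hy : Dev P W y b) : Dev P W (padd x y) (a + b) := by
  obtain ⟨A, B, x1, x2, x3, x4, x5, rfl⟩ := hx
  obtain ⟨A', B', y1, y2, y3, y4, y5, rfl⟩ := hy
  refine ⟨A + A', B + B', ?_, ?_, ?_,
    dgv_add_P2 (dgv_mono_P2 x4 (Nat.dvd_lcm_left _ _)) (dgv_mono_P2 y4 (Nat.dvd_lcm_right _ _)),
    dgv_add_P2 (dgv_mono_P2 x5 (Nat.dvd_lcm_left _ _)) (dgv_mono_P2 y5 (Nat.dvd_lcm_right _ _)),
    ?_⟩
  · rw [map_add, x1, y1]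
    rfl
  · rw [map_add, x2, y2]
    rfl
  · rw [map_add, map_add]
    change _ ≤ x.b + y.b
    omega
  · rw [Polynomial.map_add, Polynomial.map_add]
    ring

theorem Dev.sub (hx : Dev P W x a) (hy : Dev P W y b) : Dev P W (psub x y) (a - b) := by
  obtain ⟨A, B, x1, x2, x3, x4, x5, rfl⟩ := hx
  obtain ⟨A', B', y1, y2, y3, y4, y5, rfl⟩ := hy
  refine ⟨A + B', B + A', ?_, ?_, ?_,
    dgv_add_P2 (dgv_mono_P2 x4 (Nat.dvd_lcm_left _ _)) (dgv_mono_P2 y5 (Nat.dvd_lcm_right _ _)),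
    dgv_add_P2 (dgv_mono_P2 x5 (Nat.dvd_lcm_left _ _)) (dgv_mono_P2 y4 (Nat.dvd_lcm_right _ _)),
    ?_⟩
  · rw [map_add, x1, y2]
    rfl
  · rw [map_add, x2, y1]
    rfl
  · rw [map_add, map_add]
    change _ ≤ x.b + y.b
    omega
  · rw [Polynomial.map_add, Polynomial.map_add]
    ring

theorem acu_zero (P : Par) (n : Bn) (dv : ℕ) : Acu P n 0 0 dv 0 := by
  refine ⟨0, 0, ?_, ?_, fun _ => dg_zero dv, fun _ => dg_zero dv, fun _ _ => rfl, ?_⟩
  · rw [map_zero, zero_mul, add_zero]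
  · rw [map_zero, add_zero]
  · rw [sub_self]

theorem Acu.mono {n : Bn} {acc bd bd' dv dv' : ℕ} (h : Acu P n acc bd dv a) (hb : bd ≤ bd')
    (hd : dv ∣ dv') : Acu P n acc bd' dv' a := by
  obtain ⟨A, B, h1, h2, h3, h4, h5, h6⟩ := h
  exact ⟨A, B, h1, h2.trans hb, dgv_mono_P2 h3 hd, dgv_mono_P2 h4 hd, h5, h6⟩

theorem Acu.put_pos {n : Bn} {acc bd dv p q c i : ℕ} (h : Acu P n acc bd dv a)
    (hx : Den P ⟨p, q, c, dv⟩ α) (hi : i < n.nr) :
    Acu P n (acc + p <<< (n.W * i + 0) + q <<< (n.W * i + n.H)) (bd + c) dv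
      (a + Polynomial.monomial i α) := by
  obtain ⟨A, B, rfl, h2, h3, h4, h5, rfl⟩ := h
  obtain ⟨U, V, u1, u2, u3, u4, u5, rfl⟩ := hx
  dsimp only at u1 u2 u3 u4 u5
  refine ⟨A + Polynomial.monomial i U, B + Polynomial.monomial i V, ?_, ?_,
    dgv_add_P2 h3 (dgv_mon_P2 u4 i), dgv_add_P2 h4 (dgv_mon_P2 u5 i), fun r hr => ?_, ?_⟩
  · rw [map_add, map_add, kv_mon_P2, kv_mon_P2, u1, u2, Nat.shiftLeft_eq, Nat.shiftLeft_eq]
    ring
  · rw [map_add, map_add, lv_mon_P2, lv_mon_P2]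
    omega
  · rw [Polynomial.coeff_add, h5 r hr, Polynomial.coeff_monomial, if_neg (by omega), add_zero]
  · rw [Polynomial.map_add, Polynomial.map_add, Polynomial.map_monomial, Polynomial.map_monomial,
      map_sub (Polynomial.monomial i)]
    ring

theorem Acu.put_neg {n : Bn} {acc bd dv p q c i : ℕ} (h : Acu P n acc bd dv a)
    (hx : Den P ⟨p, q, c, dv⟩ α) (hi : i < n.nr) :
    Acu P n (acc + p <<< (n.W * i + n.H) + q <<< (n.W * i + 0)) (bd + c) dv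
      (a - Polynomial.monomial i α) := by
  obtain ⟨A, B, rfl, h2, h3, h4, h5, rfl⟩ := h
  obtain ⟨U, V, u1, u2, u3, u4, u5, rfl⟩ := hx
  dsimp only at u1 u2 u3 u4 u5
  refine ⟨A + Polynomial.monomial i V, B + Polynomial.monomial i U, ?_, ?_,
    dgv_add_P2 h3 (dgv_mon_P2 u5 i), dgv_add_P2 h4 (dgv_mon_P2 u4 i), fun r hr => ?_, ?_⟩
  · rw [map_add, map_add, kv_mon_P2, kv_mon_P2, u1, u2, Nat.shiftLeft_eq, Nat.shiftLeft_eq]
    ring
  · rw [map_add, map_add, lv_mon_P2, lv_mon_P2]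
    omega
  · rw [Polynomial.coeff_add, h5 r hr, Polynomial.coeff_monomial, if_neg (by omega), add_zero]
  · rw [Polynomial.map_add, Polynomial.map_add, Polynomial.map_monomial, Polynomial.map_monomial,
      map_sub (Polynomial.monomial i)]
    ring

variable [Cx P]

theorem coeff_lt_P2 {A : Polynomial Rn} {dv : ℕ} (hW : WOk P W dvm) (h : lv A < P.M)
    (hA : Dgv A dv) (hd : dv ∣ dvm) (i : ℕ) : (A.map (kp P)).coeff i < 2 ^ W := by
  obtain ⟨-, m, e1, e2⟩ := hW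
  have h1 := l1_coeff_P2 A i
  have h2 := (Cx.ok (P := P)).M
  rw [Polynomial.coeff_map, e2]
  exact kp_lt (by omega) (e1 ▸ (hA i).mono hd)

theorem blk_P2 {A : Polynomial Rn} {dv : ℕ} (hW : WOk P W dvm) (h : lv A < P.M)
    (hA : Dgv A dv) (hd : dv ∣ dvm) (i : ℕ) :
    kp P (A.coeff i) = ((kv P W A).shiftRight (W * i)).mod (p2 W) := by
  rw [nmod, nshr, p2_eq, Nat.shiftRight_eq_div_pow, pow_mul, kv_eval_P2,
    digit_P2 _ _ _ (coeff_lt_P2 hW h hA hd), Polynomial.coeff_map]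

theorem kv_mod_P2 (hW : WOk P W dvm) (A : Polynomial Rn) : kv P W A ≡ lv A [MOD P.M] := by
  obtain ⟨-, m, -, e⟩ := hW
  have h1 : 2 ^ P.be ≡ 1 [MOD P.M] := by
    rw [(Cx.ok (P := P)).M]
    exact ((Nat.modEq_iff_dvd' Nat.one_le_two_pow).2 dvd_rfl).symm
  induction A using Polynomial.induction_on' with
  | add p q hp hq =>
    rw [map_add, map_add]
    exact hp.add hq
  | monomial i A =>
    have h2 := (kp_mod (P := P) A).mul (h1.pow ((∑ j : Fin 6, m j * ww P j + 1) * i))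
    rw [one_pow, mul_one, ← pow_mul, ← mul_assoc, ← e] at h2
    rwa [kv_mon_P2, lv_mon_P2]

theorem dev_ent (hW : WOk P W dvm) (h : Dev P W x a) (hb : x.b < P.M) (hd : x.dv ∣ dvm) (i : ℕ) :
    Den P (ent W (W * i) x) (a.coeff i) := by
  obtain ⟨A, B, x1, x2, x3, x4, x5, rfl⟩ := h
  have a1 := l1_coeff_P2 A i
  have a2 := l1_coeff_P2 B i
  refine ⟨A.coeff i, B.coeff i, ?_, ?_, ?_, x4 i, x5 i, ?_⟩
  · rw [blk_P2 hW (by omega) x4 hd i, x1]
    rfl
  · rw [blk_P2 hW (by omega) x5 hd i, x2]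
    rfl
  · change _ ≤ x.b
    omega
  · rw [Polynomial.coeff_sub, Polynomial.coeff_map, Polynomial.coeff_map]

theorem isz_vec {k : Res} (hW : WOk P W dvm) (hx : Dev P W x a) (h : Is (isz P dvm x k) r) :
    a = 0 ∧ Is k r := by
  obtain ⟨h1, h⟩ := chk_is h
  obtain ⟨h2, h3, h⟩ := sml_is h
  have e : x.p = x.n := Nat.eq_of_beq_eq_true h1
  refine ⟨Polynomial.ext fun i => ?_, h⟩
  rw [(dev_ent hW hx h2 h3 i).vp_eq h2 (h3.trans hW.1), Polynomial.coeff_zero]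
  unfold vp ent
  rw [e]
  exact vz_self P _

theorem cop2_spec {s t : Po} {k : Po → Res} (hW : WOk P W dvm) (hs : Den P s α) (hx : Dev P W x a)
    (ht : Den P t β) (hy : Dev P W y b) (h : Is (cop2 P dvm s x t y k) r) :
    ∃ z, Dev P W z (Polynomial.C α * a - Polynomial.C β * b) ∧ z.b < P.M ∧ z.dv ∣ dvm ∧
      Is (k z) r := by
  have hz := (Dev.smul hs hx).sub (Dev.smul ht hy)
  unfold cop2 at h
  generalize psub (pmul s x) (pmul t y) = z at hz h
  obtain ⟨p, n, bd, dv⟩ := z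
  change Is (sml P dvm bd dv (k ⟨p, n, p % P.M + n % P.M, dv⟩)) r at h
  obtain ⟨h1, h2, h⟩ := sml_is h
  obtain ⟨A, B, x1, x2, x3, x4, x5, e⟩ := hz
  dsimp only at x1 x2 x3 x4 x5
  have e1 : p % P.M = lv A := by
    rw [← x1, kv_mod_P2 hW A]
    exact Nat.mod_eq_of_lt (by omega)
  have e2 : n % P.M = lv B := by
    rw [← x2, kv_mod_P2 hW B]
    exact Nat.mod_eq_of_lt (by omega)
  refine ⟨_, ⟨A, B, x1, x2, ?_, x4, x5, e⟩, ?_, h2, h⟩
  · change _ ≤ p % P.M + n % P.M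
    omega
  · change p % P.M + n % P.M < _
    omega

theorem fin_spec {n : Bn} {i j bd dv acc : ℕ} {k : Cl → Res} (hn : BOk P n)
    (ha : Acu P n acc bd dv a) (h : Is (fin P n i j bd dv acc k) r) :
    ∃ z, Dev P n.W z a ∧ z.b < P.M ∧ z.dv ∣ n.dvm ∧ Is (k ⟨i, j, z⟩) r := by
  change Is (sml P n.dvm bd dv (k ⟨i, j, ⟨acc % p2 n.H, acc >>> n.H, bd, dv⟩⟩)) r at h
  obtain ⟨h1, h2, h⟩ := sml_is h
  obtain ⟨A, B, e, x3, x4, x5, x6, e'⟩ := ha
  obtain ⟨hW, -, hH⟩ := hn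
  have l : kv P n.W A < 2 ^ n.H := by
    rw [hH, pow_mul, kv_eval_P2]
    exact bound_P2 _ _ _ (coeff_lt_P2 hW (by omega) x4 h2) fun r hr => by
      rw [Polynomial.coeff_map, x6 r hr, map_zero]
  refine ⟨_, ⟨A, B, ?_, ?_, x3, x4, x5, e'⟩, h1, h2, h⟩
  · change _ = acc % p2 n.H
    rw [p2_eq, e, Nat.add_mul_mod_self_right, Nat.mod_eq_of_lt l]
  · change _ = acc >>> n.H
    rw [Nat.shiftRight_eq_div_pow, e, Nat.add_mul_div_right _ _ (Nat.two_pow_pos _),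
      Nat.div_eq_of_lt l, zero_add]

end Pool.Agent.P.MP_8598be_al.Ck
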