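import Pool.Agent.P.MP_8598be_al.Ck.Defs
import Pool.Agent.P.MP_8598be_al.Z.ECc

/-!
Congruences and regions.
-/

namespace Pool.Agent.P.MP_8598be_al.Ck

open Z K MvPolynomial

variable {L : ℕ} {f g h f' g' : Pt L → ℤ}

theorem gt_R0 (L N : ℕ) : ∀ᶠ y in big L, N < y.p :=
  Filter.tendsto_comap.eventually (Filter.eventually_gt_atTop N)

theorem root_R0 {p : ℕ} [Fact p.Prime] (h : L ∣ p - 1) : ∃ ζ : ZMod p, IsPrimitiveRoot ζ L := by
  obtain ⟨u, hu⟩ := IsCyclic.exists_ofOrder_eq_natCard (α := (ZMod p)ˣ)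
  rw [Nat.card_eq_fintype_card, ZMod.card_units] at hu
  obtain ⟨a, ha⟩ := h
  have h1 : IsPrimitiveRoot u (p - 1) := hu ▸ IsPrimitiveRoot.orderOf u
  have h2 : 0 < p - 1 := Nat.sub_pos_of_lt (Fact.out : p.Prime).one_lt
  exact ⟨_, (IsPrimitiveRoot.coe_units_iff.2 h1).pow h2 (ha.trans (mul_comm _ _))⟩

theorem big_ne {c : ℤ} (hc : c ≠ 0) : ∀ᶠ y in big L, (c : ZMod y.p) ≠ 0 := by
  filter_upwards [gt_R0 L c.natAbs] with y hy h0
  rw [ZMod.intCast_zmod_eq_zero_iff_dvd, Int.natCast_dvd] at h0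
  exact absurd (Nat.le_of_dvd (Int.natAbs_pos.2 hc) h0) (not_le.2 hy)

theorem Cg.refl (f : Pt L → ℤ) : Cg f f :=
  Filter.Eventually.of_forall fun y => by rw [sub_self]; exact dvd_zero _

theorem Cg.of_eq (e : ∀ᶠ y in big L, f y = g y) : Cg f g :=
  e.mono fun y hy => by rw [hy, sub_self]; exact dvd_zero _

theorem Cg.symm (e : Cg f g) : Cg g f :=
  Filter.Eventually.mono e fun _ hy => dvd_sub_comm.1 hy

theorem Cg.trans (e : Cg f g) (e' : Cg g h) : Cg f h :=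
  (Filter.Eventually.and e e').mono fun y hy => by
    rw [← sub_add_sub_cancel (f y) (g y) (h y)]
    exact dvd_add hy.1 hy.2

theorem Cg.add (e : Cg f g) (e' : Cg f' g') :
    Cg (fun y => f y + f' y) fun y => g y + g' y :=
  (Filter.Eventually.and e e').mono fun y hy => by
    rw [add_sub_add_comm]
    exact dvd_add hy.1 hy.2

theorem Cg.sub (e : Cg f g) (e' : Cg f' g') :
    Cg (fun y => f y - f' y) fun y => g y - g' y :=
  (Filter.Eventually.and e e').mono fun y hy => by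
    rw [sub_sub_sub_comm]
    exact dvd_sub hy.1 hy.2

theorem Cg.mul (e : Cg f g) (e' : Cg f' g') :
    Cg (fun y => f y * f' y) fun y => g y * g' y :=
  (Filter.Eventually.and e e').mono fun y hy => by
    rw [show f y * f' y - g y * g' y = (f y - g y) * f' y + g y * (f' y - g' y) by ring]
    exact dvd_add (hy.1.mul_right _) (hy.2.mul_left _)

theorem ECF.cg (e : ECF f) (e' : Cg g f) : ECF g :=
  e.imp fun _ hc => e'.trans hc

theorem ecf_const (c : ℤ) : ECF fun _ : Pt L => c :=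
  ⟨c, Cg.refl _⟩

theorem ECF.add (e : ECF f) (e' : ECF g) : ECF fun y => f y + g y := by
  obtain ⟨c, hc⟩ := e
  obtain ⟨d, hd⟩ := e'
  exact ⟨c + d, hc.add hd⟩

theorem ECF.sub (e : ECF f) (e' : ECF g) : ECF fun y => f y - g y := by
  obtain ⟨c, hc⟩ := e
  obtain ⟨d, hd⟩ := e'
  exact ⟨c - d, hc.sub hd⟩

theorem ECF.mul (e : ECF f) (e' : ECF g) : ECF fun y => f y * g y := by
  obtain ⟨c, hc⟩ := e
  obtain ⟨d, hd⟩ := e'
  exact ⟨c * d, hc.mul hd⟩

/-- For a prime `p` with `L ∣ p - 1` there is a primitive root of unity of order `L`. -/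
theorem ECF.ec {F : PF} (hL : L ≠ 0) (e : ECF fun y : Pt L => F y.p) : EC L F := by
  obtain ⟨c, hc⟩ := e
  obtain ⟨N, hN⟩ := Filter.eventually_atTop.1 (Filter.eventually_comap.1 hc)
  refine ⟨c, N, fun p hp h1 h2 => ?_⟩
  obtain ⟨ζ, hζ⟩ := root_R0 h2
  exact hN p h1.le ⟨p, hp, ζ, hζ⟩ rfl

theorem ev_big {Q : ∀ (p : ℕ) [Fact p.Prime], Prop} (hL : L ≠ 0) (e : Ev L Q) :
    ∀ᶠ y in big L, Q y.p := by
  obtain ⟨N, hN⟩ := e
  filter_upwards [gt_R0 L N] with y hy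
  refine hN y.p hy (y.hζ.dvd_of_pow_eq_one _ (ZMod.pow_card_sub_one_eq_one ?_))
  exact y.hζ.ne_zero hL

variable {P : Par} {G E G' E' : List Po} {Q Q' : ∀ y : Pt P.L, y.V → Prop}

theorem Al.of_forall (e : ∀ y ρ, InR P G E y ρ → Q y ρ) : Al P G E Q :=
  Filter.Eventually.of_forall e

theorem Al.mono (e : Al P G E Q) (e' : ∀ y ρ, InR P G E y ρ → Q y ρ → Q' y ρ) : Al P G E Q' :=
  Filter.Eventually.mono e fun y hy ρ hρ => e' y ρ hρ (hy ρ hρ)

theorem Al.and (e : Al P G E Q) (e' : Al P G E Q') : Al P G E fun y ρ => Q y ρ ∧ Q' y ρ :=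
  (Filter.Eventually.and e e').mono fun _ hy ρ hρ => ⟨hy.1 ρ hρ, hy.2 ρ hρ⟩

theorem Al.sub (e : Al P G E Q) (e' : ∀ y ρ, InR P G' E' y ρ → InR P G E y ρ) : Al P G' E' Q :=
  Filter.Eventually.mono e fun y hy ρ hρ => hy ρ (e' y ρ hρ)

theorem inR_G {x : Po} {y : Pt P.L} {ρ : y.V} :
    InR P (x :: G) E y ρ ↔ InR P G E y ρ ∧ ¬ ev ρ (vp P x) = 0 := by
  simp only [InR, List.forall_mem_cons, ne_eq]
  tauto

theorem inR_E {x : Po} {y : Pt P.L} {ρ : y.V} :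
    InR P G (x :: E) y ρ ↔ InR P G E y ρ ∧ ev ρ (vp P x) = 0 := by
  simp only [InR, List.forall_mem_cons]
  tauto

theorem inR_perm (p : G.Perm G') (p' : E.Perm E') : InR P G E = InR P G' E' := by
  funext y ρ
  simp only [InR, p.mem_iff, p'.mem_iff]

end Pool.Agent.P.MP_8598be_al.Ck
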