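import Pool.Agent.P.MP_8598be_al.Ck.P2
import Pool.Agent.P.MP_8598be_al.Ck.R0
import Pool.Agent.P.MP_8598be_al.Ck.L0

/-!
Reading from the tape.
-/

namespace Pool.Agent.P.MP_8598be_al.Ck

open Z K MvPolynomial

variable {P : Par} {c W : ℕ} {r : Res} {G E : List Po}

theorem rdC_spec {k : ℕ → ℕ → Res} (h : Is (rdC c k) r) : ∃ v c', Is (k v c') r :=
  ⟨_, _, h⟩

theorem rdL_spec {k : ℕ → ℕ → Res} (h : Is (rdL c k) r) : ∃ v c', Is (k v c') r :=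
  ⟨_, _, h⟩

/-- The loop of `rdM`. -/
noncomputable def rdM_P3 (P : Par) (k : ℕ → ℕ → ℕ → Res) (n : ℕ) : ℕ → ℕ → ℕ → Res :=
  Nat.rec (motive := fun _ => ℕ → ℕ → ℕ → Res) k
    (fun _ ih pos dv c => ih (pos + ww P (c % 8 % 6)) (dv * pr (c % 8 % 6)) (c >>> 3)) n

theorem rdM_ind_P3 {k : ℕ → ℕ → ℕ → Res} (n : ℕ) : ∀ (m : Fin 6 →₀ ℕ) (c : ℕ),
    Is (rdM_P3 P k n (∑ i : Fin 6, m i * ww P i) (∏ i : Fin 6, pr i ^ m i) c) r →
      ∃ (m : Fin 6 →₀ ℕ) (c' : ℕ),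
        Is (k (∑ i : Fin 6, m i * ww P i) (∏ i : Fin 6, pr i ^ m i) c') r := by
  induction n with
  | zero => exact fun m c h => ⟨m, c, h⟩
  | succ n ih =>
    intro m c h
    obtain ⟨j, hj⟩ : ∃ j : Fin 6, (j : ℕ) = c % 8 % 6 := ⟨⟨_, Nat.mod_lt _ (by norm_num)⟩, rfl⟩
    refine ih (m + Finsupp.single j 1) (c >>> 3) ?_
    have e1 : ∑ i : Fin 6, (m + Finsupp.single j 1 : Fin 6 →₀ ℕ) i * ww P i =
        ∑ i : Fin 6, m i * ww P i + ww P j := by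
      simp [add_mul, Finset.sum_add_distrib, Finsupp.single_apply]
    have e2 : ∏ i : Fin 6, pr i ^ (m + Finsupp.single j 1 : Fin 6 →₀ ℕ) i =
        (∏ i : Fin 6, pr i ^ m i) * pr j := by
      simp only [Finsupp.add_apply, pow_add, Finset.prod_mul_distrib]
      simp [Finsupp.single_apply]
    rw [e1, e2, hj]
    exact h

theorem rdM_spec {k : ℕ → ℕ → ℕ → Res} (h : Is (rdM P c k) r) : ∃ (m : Fin 6 →₀ ℕ) (c' : ℕ),
    Is (k (∑ i : Fin 6, m i * ww P i) (∏ i : Fin 6, pr i ^ m i) c') r := by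
  refine rdM_ind_P3 (c % 32) 0 (c >>> 5) ?_
  simp only [Finsupp.coe_zero, Pi.zero_apply, zero_mul, Finset.sum_const_zero, pow_zero,
    Finset.prod_const_one]
  exact h

theorem den_mono_P3 (P : Par) (m : Fin 6 →₀ ℕ) (v : ℕ) :
    Den P ⟨v <<< (P.be * ∑ i : Fin 6, m i * ww P i), 0, v, ∏ i : Fin 6, pr i ^ m i⟩
      (toZ (monomial m v)) :=
  ⟨monomial m v, 0, kp_monomial P m v, map_zero _, by simp [l1_monomial], dg_monomial m v,
    dg_zero _, by simp⟩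

theorem rdT_P3 {k : Po → ℕ → Res} (n : ℕ) : ∀ (x : Po) (a : Rz) (c : ℕ), Den P x a →
    Is (rdT P n k x.p x.n x.b x.dv c) r → ∃ x a c', Den P x a ∧ Is (k x c') r := by
  induction n with
  | zero => exact fun x a c hx h => ⟨x, a, c, hx, h⟩
  | succ n ih =>
    intro x a c hx h
    obtain ⟨m, c', h⟩ := rdM_spec h
    obtain ⟨v, c'', h⟩ := rdC_spec h
    rcases ifb_is h with ⟨-, h⟩ | ⟨-, h⟩
    · exact ih _ _ _ (hx.sub (den_mono_P3 P m v)) h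
    · exact ih _ _ _ (hx.add (den_mono_P3 P m v)) h

theorem rdP_spec {k : Po → ℕ → Res} (h : Is (rdP P c k) r) :
    ∃ x a c', Den P x a ∧ Is (k x c') r := by
  rcases sw_is h with h | ⟨_, h⟩
  · exact ⟨_, _, _, den_zero P, h⟩
  rcases sw_is h with h | ⟨_, h⟩
  · obtain ⟨v, c', h⟩ := rdC_spec h
    exact ⟨_, _, _, den_nat P v, h⟩
  rcases sw_is h with h | ⟨_, h⟩
  · obtain ⟨v, c', h⟩ := rdC_spec h
    exact ⟨_, _, _, (den_nat P v).neg, h⟩
  · exact rdT_P3 _ _ _ _ (den_zero P) h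

theorem dev_mono_P3 (P : Par) (W i : ℕ) (m : Fin 6 →₀ ℕ) (v : ℕ) :
    Dev P W ⟨v <<< (W * i + P.be * ∑ i : Fin 6, m i * ww P i), 0, v, ∏ i : Fin 6, pr i ^ m i⟩
      (Polynomial.monomial i (toZ (monomial m v))) := by
  refine ⟨Polynomial.monomial i (monomial m v), 0, ?_, map_zero _, ?_, fun j => ?_,
    fun j => dg_zero _, by simp⟩
  · simp only [kv, Polynomial.coe_eval₂RingHom, Polynomial.eval₂_monomial, kp_monomial,
      Nat.shiftLeft_eq]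
    ring
  · simp [lv, l1_monomial]
  · rw [Polynomial.coeff_monomial]
    split_ifs
    · exact dg_monomial m v
    · exact dg_zero _

/-- The loop of `rdV`. -/
noncomputable def rdV_P3 (P : Par) (W : ℕ) (k : Po → ℕ → Res) (n : ℕ) :
    ℕ → ℕ → ℕ → ℕ → ℕ → Res :=
  Nat.rec (motive := fun _ => ℕ → ℕ → ℕ → ℕ → ℕ → Res) (fun p n b dv c => k ⟨p, n, b, dv⟩ c)
    (fun _ ih p n b dv c => rdM P (c >>> 9) fun pos d c' => rdC c' fun v c'' =>
      ifb (tb c 0) (ih p (n + v <<< (W * ((c >>> 1) % 256) + P.be * pos)) (b + v) (lc dv d) c'')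
        (ih (p + v <<< (W * ((c >>> 1) % 256) + P.be * pos)) n (b + v) (lc dv d) c'')) n

theorem rdV_ind_P3 {k : Po → ℕ → Res} (n : ℕ) : ∀ (x : Po) (a : Polynomial Rz) (c : ℕ),
    Dev P W x a → Is (rdV_P3 P W k n x.p x.n x.b x.dv c) r →
      ∃ x a c', Dev P W x a ∧ Is (k x c') r := by
  induction n with
  | zero => exact fun x a c hx h => ⟨x, a, c, hx, h⟩
  | succ n ih =>
    intro x a c hx h
    obtain ⟨m, c', h⟩ := rdM_spec h
    obtain ⟨v, c'', h⟩ := rdC_spec h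
    rcases ifb_is h with ⟨-, h⟩ | ⟨-, h⟩
    · exact ih _ _ _ (hx.sub (dev_mono_P3 P W _ m v)) h
    · exact ih _ _ _ (hx.add (dev_mono_P3 P W _ m v)) h

theorem rdV_spec {k : Po → ℕ → Res} (h : Is (rdV P W c k) r) :
    ∃ x a c', Dev P W x a ∧ Is (k x c') r :=
  rdV_ind_P3 (c % 1024) ⟨0, 0, 0, 1⟩ 0 (c >>> 10)
    ⟨0, 0, map_zero _, map_zero _, by simp, fun _ => dg_zero _, fun _ => dg_zero _, by simp⟩ h

/-- The loop of `rdU`. -/
noncomputable def rdU_P3 (G : List Po) (k : Po → ℕ → Res) (n : ℕ) : Po → ℕ → Res :=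
  Nat.rec (motive := fun _ => Po → ℕ → Res) k
    (fun _ ih x c => ih (pmul x (nth ⟨1, 0, 1, 1⟩ G (c % 16))) (c >>> 4)) n

theorem rdU_ind_P3 {k : Po → ℕ → Res} (hG : ∀ x ∈ G, Cn P x) (n : ℕ) :
    ∀ (x : Po) (a : Rz) (c : ℕ), Den P x a → (Al P G E fun _ ρ => ev ρ a ≠ 0) →
      Is (rdU_P3 G k n x c) r →
        ∃ u a c', Den P u a ∧ (Al P G E fun _ ρ => ev ρ a ≠ 0) ∧ Is (k u c') r := by
  induction n with
  | zero => exact fun x a c hx ha h => ⟨x, a, c, hx, ha, h⟩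
  | succ n ih =>
    intro x a c hx ha h
    obtain ⟨b, h1, h2⟩ : ∃ b, Den P (nth ⟨1, 0, 1, 1⟩ G (c % 16)) b ∧
        ∀ (y : Pt P.L) (ρ : y.V), InR P G E y ρ → ev ρ b ≠ 0 := by
      rw [nth_eq]
      rcases lt_or_ge (c % 16) G.length with h1 | h1
      · rw [List.getD_eq_getElem _ _ h1]
        exact ⟨_, hG _ (List.getElem_mem h1), fun y ρ hρ => hρ.2.1 _ (List.getElem_mem h1)⟩
      · rw [List.getD_eq_default _ _ h1]
        exact ⟨_, den_one P, fun y ρ _ => by simp⟩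
    exact ih _ _ _ (hx.mul h1) (ha.mono fun y ρ hρ h3 => by
      rw [map_mul]
      exact mul_ne_zero h3 (h2 y ρ hρ)) h

theorem rdU_spec {k : Po → ℕ → Res} (E : List Po) (hG : ∀ x ∈ G, Cn P x) (h : Is (rdU G c k) r) :
    ∃ u a c', Den P u a ∧ (Al P G E fun _ ρ => ev ρ a ≠ 0) ∧ Is (k u c') r := by
  obtain ⟨v, c', h⟩ := rdC_spec h
  obtain ⟨hv, h⟩ := chn_is h
  have h0 : (v : ℤ) ≠ 0 := Int.natCast_ne_zero.2 (Nat.ne_of_beq_eq_false hv)
  refine rdU_ind_P3 hG (c' % 16) _ _ (c' >>> 4) (den_nat P v)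
    ((big_ne h0).mono fun y hy ρ _ => ?_) h
  simpa using hy

theorem subE_spec {k : Po → ℕ → Res} {x : Po} {a : Rz} (hE : ∀ x ∈ E, Cn P x) (hx : Den P x a)
    (h : Is (subE P E k x c) r) : ∃ x' a' c', Den P x' a' ∧
      (∀ (F : Type) [CommRing F] (ρ : Fin 6 → F), (∀ e ∈ E, ev ρ (vp P e) = 0) →
        ev ρ a' = ev ρ a) ∧ Is (k x' c') r := by
  induction E generalizing x a c with
  | nil => exact ⟨x, a, c, hx, fun _ _ _ _ => rfl, h⟩
  | cons e E ih =>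
    have hE' := fun y hy => hE y (List.mem_cons_of_mem e hy)
    rcases ifb_is h with ⟨-, h⟩ | ⟨-, h⟩
    · obtain ⟨q, b, c', hq, h⟩ := rdP_spec h
      obtain ⟨x', a', c'', h1, h2, h3⟩ := ih hE' (hx.sub (hq.mul (hE e List.mem_cons_self))) h
      refine ⟨x', a', c'', h1, fun F _ ρ hρ => ?_, h3⟩
      rw [h2 F ρ fun y hy => hρ y (List.mem_cons_of_mem e hy), map_sub, map_mul,
        hρ e List.mem_cons_self, mul_zero, sub_zero]
    · obtain ⟨x', a', c'', h1, h2, h3⟩ := ih hE' hx h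
      exact ⟨x', a', c'', h1, fun F _ ρ hρ => h2 F ρ fun y hy => hρ y (List.mem_cons_of_mem e hy),
        h3⟩

theorem subV_spec {k : Po → ℕ → Res} {x : Po} {a : Polynomial Rz} (hE : ∀ x ∈ E, Cn P x)
    (hx : Dev P W x a) (h : Is (subV P W E k x c) r) : ∃ x' a' c', Dev P W x' a' ∧
      (∀ (F : Type) [CommRing F] (ρ : Fin 6 → F), (∀ e ∈ E, ev ρ (vp P e) = 0) →
        ∀ i, ev ρ (a'.coeff i) = ev ρ (a.coeff i)) ∧ Is (k x' c') r := by
  induction E generalizing x a c with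
  | nil => exact ⟨x, a, c, hx, fun _ _ _ _ _ => rfl, h⟩
  | cons e E ih =>
    have hE' := fun y hy => hE y (List.mem_cons_of_mem e hy)
    rcases ifb_is h with ⟨-, h⟩ | ⟨-, h⟩
    · obtain ⟨q, b, c', hq, h⟩ := rdV_spec h
      obtain ⟨x', a', c'', h1, h2, h3⟩ :=
        ih hE' (hx.sub (Dev.smul (hE e List.mem_cons_self) hq)) h
      refine ⟨x', a', c'', h1, fun F _ ρ hρ i => ?_, h3⟩
      rw [h2 F ρ (fun y hy => hρ y (List.mem_cons_of_mem e hy)) i, Polynomial.coeff_sub,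
        Polynomial.coeff_C_mul, map_sub, map_mul, hρ e List.mem_cons_self, zero_mul, sub_zero]
    · obtain ⟨x', a', c'', h1, h2, h3⟩ := ih hE' hx h
      exact ⟨x', a', c'', h1, fun F _ ρ hρ => h2 F ρ fun y hy => hρ y (List.mem_cons_of_mem e hy),
        h3⟩

end Pool.Agent.P.MP_8598be_al.Ck
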