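import Pool.Agent.P.MP_8598be_al.Ck.P2

/-!
Masks and the reduction by the cyclotomic polynomial.
-/

namespace Pool.Agent.P.MP_8598be_al.Ck

open Z K MvPolynomial

variable {P : Par} {c W : ℕ} {r : Res}

theorem split_P4 {k n m q : ℕ} (hm : m < 2 ^ k)
    (h : q &&& m * ∑ t ∈ Finset.range n, (2 ^ k) ^ t = q) :
    ∃ f : ℕ → ℕ, (∀ t, f t &&& m = f t) ∧ q = ∑ t ∈ Finset.range n, f t * 2 ^ (k * t) := by
  induction n generalizing q with
  | zero => exact ⟨fun _ => 0, fun _ => Nat.zero_and _, by simpa using h.symm⟩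
  | succ n ih =>
    have e : m * ∑ t ∈ Finset.range (n + 1), (2 ^ k) ^ t =
        m + 2 ^ k * (m * ∑ t ∈ Finset.range n, (2 ^ k) ^ t) := by
      rw [Finset.sum_range_succ', pow_zero, mul_add, mul_one, add_comm, mul_left_comm,
        Finset.mul_sum _ _ (2 ^ k)]
      simp only [pow_succ']
    rw [e] at h
    have h1 := congrArg (· % 2 ^ k) h
    have h2 := congrArg (· / 2 ^ k) h
    simp only [Nat.and_mod_two_pow, Nat.add_mul_mod_self_left, Nat.mod_eq_of_lt hm] at h1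
    simp only [Nat.and_div_two_pow, Nat.add_mul_div_left _ _ (Nat.two_pow_pos k),
      Nat.div_eq_of_lt hm, zero_add] at h2
    obtain ⟨f, hf, hq⟩ := ih h2
    refine ⟨fun t => Nat.rec (q % 2 ^ k) (fun s _ => f s) t, fun t => ?_, ?_⟩
    · cases t with
      | zero => exact h1
      | succ t => exact hf t
    · rw [Finset.sum_range_succ']
      change q = ∑ t ∈ Finset.range n, f t * 2 ^ (k * (t + 1)) + q % 2 ^ k * 2 ^ (k * 0)
      simp only [mul_add, mul_one, pow_add, ← mul_assoc]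
      rw [← Finset.sum_mul, ← hq, mul_zero, pow_zero, mul_one, Nat.div_add_mod']

/-- The blocks of a number below a repeated mask are below the mask. -/
theorem geo_split {k n m q : ℕ} (hm : m >>> k = 0) (h : q &&& geo k n m = q) :
    ∃ f : ℕ → ℕ, (∀ t, f t &&& m = f t) ∧ q = ∑ t ∈ Finset.range n, f t * 2 ^ (k * t) := by
  rw [Nat.shiftRight_eq_div_pow, Nat.div_eq_zero_iff_lt (Nat.two_pow_pos k)] at hm
  rcases Nat.eq_zero_or_pos k with rfl | hk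
  · obtain rfl : m = 0 := by omega
    refine split_P4 hm ?_
    rw [zero_mul]
    rwa [show geo 0 n 0 = 0 from Nat.zero_mul _] at h
  · refine split_P4 hm ?_
    rw [Nat.geomSum_eq (Nat.one_lt_two_pow hk.ne'), ← pow_mul, ← p2_eq (k * n), ← p2_eq k]
    exact h

theorem msk_base (P : Par) (w : ℕ) : Msk P (p2 w - 1) 1 (p2 (w + 1)) := by
  intro q hq
  rw [p2_eq, Nat.and_two_pow_sub_one_eq_mod] at hq
  have h := Nat.mod_lt q (Nat.two_pow_pos w)
  refine ⟨C q, eval_C _, ?_, dg_C _ _⟩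
  rw [l1, eval_C, p2_eq, pow_succ]
  omega

theorem dg_sum_P4 {dv : ℕ} (s : Finset ℕ) {A : ℕ → Rn} (h : ∀ t ∈ s, Dg (A t) dv) :
    Dg (∑ t ∈ s, A t) dv :=
  Finset.sum_induction A (fun B => Dg B dv) (fun _ _ => Dg.add) (dg_zero dv) h

theorem dg_pow_P4 (i : Fin 6) (t : ℕ) : Dg (X i ^ t) (pr i ^ t) := by
  have h := dg_monomial (Finsupp.single i t) 1
  rwa [← X_pow_eq_monomial, Fintype.prod_eq_single i fun j hj => by
    rw [Finsupp.single_eq_of_ne hj, pow_zero], Finsupp.single_eq_same] at h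

theorem sum_le_P4 {n b : ℕ} {g : ℕ → ℕ} (h : ∀ t, 2 * g t ≤ b) :
    2 * ∑ t ∈ Finset.range n, g t ≤ b * n := by
  rw [Finset.mul_sum]
  refine (Finset.sum_le_card_nsmul _ _ b fun t _ => h t).trans ?_
  rw [Finset.card_range, smul_eq_mul, mul_comm]

theorem Msk.step {m dv b : ℕ} (h : Msk P m dv b) (i : Fin 6) (e : ℕ)
    (hm : m >>> (P.be * ww P i) = 0) :
    Msk P (geo (P.be * ww P i) (e + 1) m) (dv * pr i ^ e) (b * (e + 1)) := by
  intro q hq
  obtain ⟨f, hf, rfl⟩ := geo_split hm hq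
  choose Q h1 h2 h3 using fun t => h _ (hf t)
  refine ⟨∑ t ∈ Finset.range (e + 1), Q t * X i ^ t, ?_, ?_, dg_sum_P4 _ fun t ht => ?_⟩
  · rw [map_sum]
    refine Finset.sum_congr rfl fun t _ => ?_
    rw [map_mul, h1, map_pow, kp, eval_X, ← pow_mul]
  · have e1 : l1 (X i) = 1 := eval_X _
    simp only [map_sum, map_mul, map_pow, e1, one_pow, mul_one]
    exact sum_le_P4 h2
  · exact ((h3 t).mul (dg_pow_P4 i t)).mono
      (mul_dvd_mul_left _ (pow_dvd_pow _ (Nat.lt_succ_iff.1 (Finset.mem_range.1 ht))))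

theorem rdK_succ_P4 (n : ℕ) (k : ℕ → ℕ → ℕ → ℕ → Res) (i m dv b : ℕ) :
    rdK P (n + 1) k i m dv b c = chk ((m >>> (P.be * ww P i)).beq 0)
      (rdK P n k (i + 1) (geo (P.be * ww P i) (c % 32 + 1) m) (dv * pr i ^ (c % 32))
        (b * (c % 32 + 1)) (c >>> 5)) := rfl

theorem rdK_spec {n i m dv b : ℕ} {k : ℕ → ℕ → ℕ → ℕ → Res} (hn : i + n ≤ 6) (hm : Msk P m dv b)
    (h : Is (rdK P n k i m dv b c) r) : ∃ m' dv' b' c', Msk P m' dv' b' ∧ Is (k m' dv' b' c') r := by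
  induction n generalizing i m dv b c with
  | zero => exact ⟨m, dv, b, c, hm, h⟩
  | succ n ih =>
    rw [rdK_succ_P4] at h
    obtain ⟨h1, h⟩ := chk_is h
    exact ih (by omega) (hm.step ⟨i, by omega⟩ _ (Nat.eq_of_beq_eq_true h1)) h

theorem dph1_P4 {k : Po → ℕ → Res} {x : Po} {w m dv b : ℕ} (h : Is (dph1 P x w m dv b c k) r) :
    ∃ q o, q &&& m = q ∧ o &&& m = o ∧ Is (k (psub x (pmul P.phi ⟨q, o, b, dv⟩)) c) r := by
  obtain ⟨h1, h⟩ := chk_is h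
  obtain ⟨h2, h⟩ := chk_is h
  exact ⟨_, _, Nat.eq_of_beq_eq_true h1, Nat.eq_of_beq_eq_true h2, h⟩

theorem Msk.vec_P4 {m dv b n q : ℕ} (h : Msk P m dv b) (hm : m >>> W = 0)
    (hq : q &&& geo W n m = q) :
    ∃ A : Polynomial Rn, kv P W A = q ∧ 2 * lv A ≤ b * n ∧ Dgv A dv := by
  obtain ⟨f, hf, rfl⟩ := geo_split hm hq
  choose Q h1 h2 h3 using fun t => h _ (hf t)
  refine ⟨∑ t ∈ Finset.range n, Polynomial.monomial t (Q t), ?_, ?_, fun s => ?_⟩
  · rw [map_sum]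
    refine Finset.sum_congr rfl fun t _ => ?_
    rw [kv, Polynomial.coe_eval₂RingHom, Polynomial.eval₂_monomial, h1, pow_mul]
  · rw [map_sum]
    simp only [lv, Polynomial.coe_eval₂RingHom, Polynomial.eval₂_monomial, one_pow, mul_one]
    exact sum_le_P4 h2
  · rw [Polynomial.finsetSum_coeff]
    refine dg_sum_P4 _ fun t _ => ?_
    rw [Polynomial.coeff_monomial]
    split_ifs
    exacts [h3 t, dg_zero dv]

theorem seven_P4 (a : ℕ) : 0 + a % 7 ≤ 6 := by omega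

variable [Cx P]

theorem dphS_spec {k : Po → ℕ → Res} {x : Po} {a : Rz} (hx : Den P x a)
    (h : Is (dphS P x c k) r) : ∃ x' a' c', Den P x' a' ∧
      (∀ (y : Pt P.L) (ρ : y.V), Zc y ρ → ev ρ a' = ev ρ a) ∧ Is (k x' c') r := by
  rcases ifb_is h with ⟨-, h⟩ | ⟨-, h⟩
  · obtain ⟨m, dv, b, c', hm, h⟩ := rdK_spec (seven_P4 _) (msk_base P _) h
    obtain ⟨q, o, hq, ho, h⟩ := dph1_P4 h
    obtain ⟨φ, h1, h2⟩ := phi_spec P
    obtain ⟨A, a1, a2, a3⟩ := hm q hq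
    obtain ⟨B, b1, b2, b3⟩ := hm o ho
    have h3 : Den P ⟨q, o, b, dv⟩ (toZ A - toZ B) :=
      ⟨A, B, a1, b1, show l1 A + l1 B ≤ b by omega, a3, b3, rfl⟩
    refine ⟨_, _, _, hx.sub (h1.mul h3), fun y ρ hz => ?_, h⟩
    rw [map_sub, map_mul, h2 y ρ hz, zero_mul, sub_zero]
  · exact ⟨x, a, _, hx, fun _ _ _ => rfl, h⟩

theorem dphV_spec {k : Po → ℕ → Res} {x : Po} {a : Polynomial Rz} {nr : ℕ} (hx : Dev P W x a)
    (h : Is (dphV P W nr x c k) r) : ∃ x' a' c', Dev P W x' a' ∧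
      (∀ (y : Pt P.L) (ρ : y.V), Zc y ρ → ∀ i, ev ρ (a'.coeff i) = ev ρ (a.coeff i)) ∧
      Is (k x' c') r := by
  rcases ifb_is h with ⟨-, h⟩ | ⟨-, h⟩
  · obtain ⟨m, dv, b, c', hm, h⟩ := rdK_spec (seven_P4 _) (msk_base P _) h
    obtain ⟨h0, h⟩ := chk_is h
    obtain ⟨q, o, hq, ho, h⟩ := dph1_P4 (m := geo W nr m) h
    obtain ⟨φ, h1, h2⟩ := phi_spec P
    obtain ⟨A, a1, a2, a3⟩ := hm.vec_P4 (Nat.eq_of_beq_eq_true h0) hq
    obtain ⟨B, b1, b2, b3⟩ := hm.vec_P4 (Nat.eq_of_beq_eq_true h0) ho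
    have h3 : Dev P W ⟨q, o, b * nr, dv⟩ (A.map toZ - B.map toZ) :=
      ⟨A, B, a1, b1, show lv A + lv B ≤ b * nr by omega, a3, b3, rfl⟩
    refine ⟨_, _, _, hx.sub (h3.smul h1), fun y ρ hz i => ?_, h⟩
    rw [Polynomial.coeff_sub, Polynomial.coeff_C_mul, map_sub, map_mul, h2 y ρ hz, zero_mul,
      sub_zero]
  · exact ⟨x, a, _, hx, fun _ _ _ _ => rfl, h⟩

end Pool.Agent.P.MP_8598be_al.Ck
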