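import Pool.Agent.P.MP_8598be_al.Ck.P3
import Pool.Agent.P.MP_8598be_al.Ck.P4

/-!
Certificates for zeros and units.
-/

namespace Pool.Agent.P.MP_8598be_al.Ck

open Z K MvPolynomial

variable {P : Par} [Cx P] {c lim lim' : ℕ} {r : Res} {G E : List Po} {x : Po} {a : Rz}

/-- The common end of the certificates. -/
theorem core_P5 {k : ℕ → Res} (G : List Po) (hl : lim ∣ P.LIM) (hE : ∀ x ∈ E, Cn P x)
    (hx : Den P x a)
    (h : Is (subE P E (fun y c₂ => dphS P y c₂ fun y c₃ => isz P lim y (k c₃)) x c) r) :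
    ∃ c', (∀ y ρ, InR P G E y ρ → ev ρ a = 0) ∧ Is (k c') r := by
  obtain ⟨x₁, a₁, c₁, h₁, e₁, h⟩ := subE_spec hE hx h
  obtain ⟨x₂, a₂, c₂, h₂, e₂, h⟩ := dphS_spec h₁ h
  obtain ⟨e₃, h⟩ := isz_spec hl h₂ h
  refine ⟨c₂, fun y ρ hρ => ?_, h⟩
  rw [← e₁ _ ρ hρ.2.2, ← e₂ y ρ hρ.1, e₃, map_zero]

theorem zc_spec {k : ℕ → Res} (hl : lim ∣ P.LIM) (hG : ∀ x ∈ G, Cn P x) (hE : ∀ x ∈ E, Cn P x)
    (hx : Den P x a) (h : Is (zc P lim G E x c k) r) :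
    ∃ c', (Al P G E fun _ ρ => ev ρ a = 0) ∧ Is (k c') r := by
  unfold zc at h
  rcases ifb_is h with ⟨-, h⟩ | ⟨-, h⟩
  · obtain ⟨u, α, c₁, hu, hα, h⟩ := rdU_spec E hG h
    obtain ⟨c₂, e, h⟩ := core_P5 G hl hE (hu.mul hx) h
    refine ⟨c₂, hα.mono fun y ρ hρ h0 => ?_, h⟩
    have := e y ρ hρ
    rw [map_mul] at this
    exact (mul_eq_zero.1 this).resolve_left h0
  · obtain ⟨e, h⟩ := isz_spec hl hx h
    exact ⟨_, Al.of_forall fun y ρ _ => by rw [e, map_zero], h⟩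

theorem zv_spec {k : ℕ → Res} {W nr dvm : ℕ} {a : Polynomial Rz} (hW : WOk P W dvm)
    (hG : ∀ x ∈ G, Cn P x) (hE : ∀ x ∈ E, Cn P x) (hx : Dev P W x a)
    (h : Is (zv P W nr dvm G E x c k) r) :
    ∃ c', (Al P G E fun _ ρ => ∀ i, ev ρ (a.coeff i) = 0) ∧ Is (k c') r := by
  unfold zv at h
  rcases ifb_is h with ⟨-, h⟩ | ⟨-, h⟩
  · obtain ⟨u, α, c₁, hu, hα, h⟩ := rdU_spec E hG h
    obtain ⟨x₁, a₁, c₂, h₁, e₁, h⟩ := subV_spec hE (Dev.smul hu hx) h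
    obtain ⟨x₂, a₂, c₃, h₂, e₂, h⟩ := dphV_spec h₁ h
    obtain ⟨e₃, h⟩ := isz_vec hW h₂ h
    refine ⟨c₃, hα.mono fun y ρ hρ h0 i => ?_, h⟩
    have e := e₂ y ρ hρ.1 i
    rw [e₁ _ ρ hρ.2.2 i, e₃, Polynomial.coeff_zero, map_zero, Polynomial.coeff_C_mul,
      map_mul] at e
    exact (mul_eq_zero.1 e.symm).resolve_left h0
  · obtain ⟨e, h⟩ := isz_vec hW hx h
    exact ⟨_, Al.of_forall fun y ρ _ i => by rw [e, Polynomial.coeff_zero, map_zero], h⟩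

theorem uc_spec {k : ℕ → Res} (hl : lim ∣ P.LIM) (hG : ∀ x ∈ G, Cn P x) (hE : ∀ x ∈ E, Cn P x)
    (hx : Den P x a) (h : Is (uc P lim G E x c k) r) :
    ∃ c', (Al P G E fun _ ρ => ev ρ a ≠ 0) ∧ Is (k c') r := by
  unfold uc at h
  rcases ifb_is h with ⟨-, h⟩ | ⟨-, h⟩
  · obtain ⟨z, β, c₀, hz, h⟩ := rdP_spec h
    obtain ⟨u, α, c₁, hu, hα, h⟩ := rdU_spec E hG h
    obtain ⟨c₂, e, h⟩ := core_P5 G hl hE ((hz.mul hx).sub hu) h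
    refine ⟨c₂, hα.mono fun y ρ hρ h0 h1 => h0 ?_, h⟩
    have := e y ρ hρ
    rw [map_sub, map_mul, h1, mul_zero, zero_sub, neg_eq_zero] at this
    exact this
  · obtain ⟨h1, h⟩ := chk_is h
    obtain ⟨h2, h⟩ := chn_is h
    have e := (hx.const (Nat.le_of_ble_eq_true h1)).1
    have hne : ((x.p : ℤ) - x.n : ℤ) ≠ 0 := by
      intro h0
      have : x.p = x.n := by omega
      rw [this] at h2
      rw [Nat.beq_refl] at h2
      cases h2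
    refine ⟨_, (big_ne hne).mono fun y hy ρ _ => ?_, h⟩
    change ev ρ a ≠ 0
    rw [e, map_intCast]
    exact hy

theorem rnm_spec {k : Po → ℕ → Res} (hl : lim ∣ P.LIM) (hl' : lim' ∣ P.LIM)
    (hG : ∀ x ∈ G, Cn P x) (hE : ∀ x ∈ E, Cn P x) (hx : Den P x a)
    (h : Is (rnm P lim lim' G E x c k) r) :
    ∃ z c', POk P lim' z ∧ (Al P G E fun _ ρ => ev ρ (vp P z) = ev ρ a) ∧ Is (k z c') r := by
  unfold rnm at h
  rcases ifb_is h with ⟨-, h⟩ | ⟨-, h⟩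
  · obtain ⟨z, β, c₀, hz, h⟩ := rdP_spec h
    obtain ⟨hb, hd, h⟩ := sml_is h
    obtain ⟨c₁, e, h⟩ := zc_spec hl hG hE (hx.sub hz) h
    obtain ⟨hp, e'⟩ := hz.pok hb hd hl'
    refine ⟨z, c₁, hp, e.mono fun y ρ _ h0 => ?_, h⟩
    rw [map_sub, sub_eq_zero] at h0
    rw [← e', h0]
  · obtain ⟨hb, hd, h⟩ := sml_is h
    obtain ⟨z, hz, hb', hd', h⟩ := nrm_spec hx hb h
    obtain ⟨hp, e'⟩ := hz.pok (hb'.trans_lt hb) (hd'.trans hd) hl'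
    exact ⟨z, _, hp, Al.of_forall fun y ρ _ => by rw [← e'], h⟩

theorem rns_spec {k : Po → ℕ → Res} (hl : lim ∣ P.LIM) (hG : ∀ x ∈ G, Cn P x) (hx : Den P x a)
    (h : Is (rns P lim G x c k) r) :
    ∃ z c', POk P lim z ∧ (Al P G [] fun _ ρ => ev ρ (vp P z) = 0 ↔ ev ρ a = 0) ∧
      Is (k z c') r := by
  have hE : ∀ x ∈ ([] : List Po), Cn P x := fun _ h => (List.not_mem_nil h).elim
  unfold rns at h
  rcases ifb_is h with ⟨-, h⟩ | ⟨-, h⟩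
  · obtain ⟨z, γ, c₁, hz, h⟩ := rdP_spec h
    obtain ⟨u, α, c₂, hu, h⟩ := rdP_spec h
    obtain ⟨v, β, c₃, hv, h⟩ := rdP_spec h
    obtain ⟨hb, hd, h⟩ := sml_is h
    obtain ⟨c₄, hα, h⟩ := uc_spec hl hG hE hu h
    obtain ⟨c₅, hβ, h⟩ := uc_spec hl hG hE hv h
    obtain ⟨c₆, e, h⟩ := zc_spec hl hG hE ((hu.mul hx).sub (hv.mul hz)) h
    obtain ⟨hp, e'⟩ := hz.pok hb hd hl
    refine ⟨z, c₆, hp, ((hα.and hβ).and e).mono fun y ρ _ h0 => ?_, h⟩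
    obtain ⟨⟨h1, h2⟩, h3⟩ := h0
    rw [map_sub, map_mul, map_mul, sub_eq_zero] at h3
    rw [← e']
    constructor
    · intro h4
      rw [h4, mul_zero] at h3
      exact (mul_eq_zero.1 h3).resolve_left h1
    · intro h4
      rw [h4, mul_zero] at h3
      exact (mul_eq_zero.1 h3.symm).resolve_left h2
  · obtain ⟨hb, hd, h⟩ := sml_is h
    obtain ⟨z, hz, hb', hd', h⟩ := nrm_spec hx hb h
    obtain ⟨hp, e'⟩ := hz.pok (hb'.trans_lt hb) (hd'.trans hd) hl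
    exact ⟨z, _, hp, Al.of_forall fun y ρ _ => by rw [← e'], h⟩

end Pool.Agent.P.MP_8598be_al.Ck
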