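import Pool.Agent.P.MP_8598be_al.Ck.L0

/-!
Layers of well formed states.
-/

namespace Pool.Agent.P.MP_8598be_al.Ck

open Z K MvPolynomial

variable {P : Par} {lim lim' D : ℕ} {s : St} {e : En} {g : Rg} {m : Md}

theorem LoOk.pos {lo : List (List En)} (h : LoOk P D lo) : 1 ≤ D := by
  cases lo with
  | nil => exact le_of_eq (Eq.symm h)
  | cons l lo =>
    obtain ⟨D', rfl, -⟩ := h
    omega

theorem LoOk.mem {lo : List (List En)} (h : LoOk P D lo) (he : e ∈ lo.flatten) :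
    ∃ D', 1 ≤ D' ∧ D' < D ∧ WD P D' e.w := by
  induction lo generalizing D with
  | nil => cases he
  | cons l lo ih =>
    obtain ⟨D', rfl, h1, h2⟩ := h
    rcases List.mem_append.1 (List.flatten_cons ▸ he) with he | he
    · exact ⟨D', h2.pos, by omega, h1 e he⟩
    · obtain ⟨D'', h3, h4, h5⟩ := ih h2 he
      exact ⟨D'', h3, by omega, h5⟩

theorem HiOk.mem {hi : List (List En)} (h : HiOk P D hi) (he : e ∈ hi.flatten) :
    ∃ D', D < D' ∧ WD P D' e.w := by
  induction hi generalizing D with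
  | nil => cases he
  | cons l hi ih =>
    rcases List.mem_append.1 (List.flatten_cons ▸ he) with he | he
    · exact ⟨D + 1, by omega, h.1 e he⟩
    · obtain ⟨D', h3, h4⟩ := ih h.2 he
      exact ⟨D', by omega, h4⟩

theorem SOk.tri_S0 (h : SOk P lim s) (he : e ∈ ents s) : e.w < P.B ^ P.d ∧
    ((e ∈ s.lo.flatten ∧ 1 ≤ tot (dw P e.w) ∧ tot (dw P e.w) < s.D) ∨
      (e ∈ s.cur ∧ tot (dw P e.w) = s.D) ∨ (e ∈ s.hi.flatten ∧ s.D < tot (dw P e.w))) := by
  rcases List.mem_append.1 he with he | he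
  · obtain ⟨D', h1, h2, h3, rfl⟩ := h.lo.mem he
    exact ⟨h3, .inl ⟨he, h1, h2⟩⟩
  rcases List.mem_append.1 he with he | he
  · exact ⟨(h.cur e he).1, .inr (.inl ⟨he, (h.cur e he).2⟩)⟩
  · obtain ⟨D', h1, h3, rfl⟩ := h.hi.mem he
    exact ⟨h3, .inr (.inr ⟨he, h1⟩)⟩

theorem SOk.lt (h : SOk P lim s) (he : e ∈ ents s) : e.w < P.B ^ P.d ∧ 1 ≤ tot (dw P e.w) := by
  have := h.lo.pos
  obtain ⟨h1, h2⟩ := h.tri_S0 he
  exact ⟨h1, by omega⟩

theorem SOk.mem_lo (h : SOk P lim s) (he : e ∈ ents s) (hd : tot (dw P e.w) < s.D) :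
    e ∈ s.lo.flatten := by
  rcases (h.tri_S0 he).2 with h1 | h1 | h1
  · exact h1.1
  · omega
  · omega

theorem SOk.mem_cur (h : SOk P lim s) (he : e ∈ ents s) (hd : tot (dw P e.w) = s.D) :
    e ∈ s.cur := by
  rcases (h.tri_S0 he).2 with h1 | h1 | h1
  · omega
  · exact h1.1
  · omega

theorem SOk.mem_head (h : SOk P lim s) {l : List En} {lo : List (List En)} (hl : s.lo = l :: lo)
    (he : e ∈ ents s) (hd : tot (dw P e.w) + 1 = s.D) : e ∈ l := by
  have h1 := h.mem_lo he (by omega)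
  have h2 := h.lo
  rw [hl] at h1 h2
  obtain ⟨D', h3, -, h4⟩ := h2
  refine (List.mem_append.1 (List.flatten_cons ▸ h1)).resolve_right fun h5 => ?_
  obtain ⟨D'', -, h6, -, h7⟩ := h4.mem h5
  omega

theorem SOk.head (h : SOk P lim s) {l : List En} {lo : List (List En)} (hl : s.lo = l :: lo) :
    ∃ D, s.D = D + 1 ∧ 1 ≤ D ∧ Lay P D l := by
  have h2 := h.lo
  rw [hl] at h2
  obtain ⟨D', h3, h4, h5⟩ := h2
  exact ⟨D', h3, h5.pos, h4⟩

theorem SOk.le_of_hi (h : SOk P lim s) (hi : s.hi = []) (he : e ∈ ents s) :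
    tot (dw P e.w) ≤ s.D := by
  rcases (h.tri_S0 he).2 with h1 | h1 | h1
  · omega
  · omega
  · rw [hi] at h1
    cases h1.1

theorem SOk.lt_of_cur (h : SOk P lim s) (hi : s.hi = []) (hc : s.cur = []) (he : e ∈ ents s) :
    tot (dw P e.w) < s.D := by
  rcases (h.tri_S0 he).2 with h1 | h1 | h1
  · omega
  · rw [hc] at h1
    cases h1.1
  · rw [hi] at h1
    cases h1.1

theorem SOk.mono (h : SOk P lim s) (hl : lim ∣ lim') : SOk P lim' s := by
  exact ⟨h.lo, h.cur, h.hi, fun e he => ⟨(h.en e he).1, (h.en e he).2.1.trans hl, (h.en e he).2.2⟩,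
    h.nd, h.U, h.N⟩

theorem SOk.len {F : Type} [CommRing F] (h : SOk P lim s) (ρ : Fin 6 → F) :
    (frm P ρ s).length = s.N := by
  rw [frm, List.length_map, h.N]

theorem frm_w {F : Type} [CommRing F] (ρ : Fin 6 → F) (s : St) :
    (frm P ρ s).map EnF.w = ((ents s).map En.w).map (dw P) := by
  rw [frm, List.map_map, List.map_map]
  rfl

theorem HiOk.tail_S0 {l : List (List En)} (h : HiOk P D l) : Lay P (D + 1) (l.headD []) ∧
    HiOk P (D + 1) l.tail ∧ l.headD [] ++ l.tail.flatten = l.flatten := by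
  cases l with
  | nil => exact ⟨fun _ he => (nomatch he), trivial, rfl⟩
  | cons x l => exact ⟨h.1, h.2, rfl⟩

theorem SOk.perm_S0 {s' : St} (h : SOk P lim s) (p : (ents s).Perm (ents s'))
    (h1 : LoOk P s'.D s'.lo) (h2 : Lay P s'.D s'.cur) (h3 : HiOk P s'.D s'.hi) (h4 : s'.U = s.U)
    (h5 : s'.N = s.N) : SOk P lim s' :=
  ⟨h1, h2, h3, fun e he => h.en e (p.symm.subset he), (p.map _).nodup h.nd,
    fun e he => h4 ▸ h.U e (p.symm.subset he), h5.trans (h.N.trans p.length_eq)⟩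

theorem LoOk.rev_S0 {lo hi : List (List En)} (h : LoOk P (D + 1) lo) (h' : HiOk P D hi) :
    HiOk P 0 (lo.reverse ++ hi) := by
  induction lo generalizing D hi with
  | nil =>
    obtain rfl : D = 0 := Nat.succ.inj h
    exact h'
  | cons l lo ih =>
    obtain ⟨D', h1, h2, h3⟩ := h
    obtain rfl : D = D' := Nat.succ.inj h1
    obtain ⟨D', rfl⟩ := Nat.exists_eq_add_of_le' h3.pos
    rw [List.reverse_cons, List.append_assoc]
    exact ih h3 ⟨h2, h'⟩

theorem LoOk.drop_S0 {l lo : List (List En)} (h : LoOk P D (l ++ lo)) : ∃ D', LoOk P D' lo := by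
  induction l generalizing D with
  | nil => exact ⟨D, h⟩
  | cons x l ih =>
    obtain ⟨D', -, -, h3⟩ := h
    exact ih h3

/-- The state for the next degree. -/
theorem SOk.next (h : SOk P lim s) {cur : List En} (p : cur.Perm s.cur) :
    SOk P lim ⟨cur :: s.lo, s.hi.headD [], s.hi.tail, s.N, s.U, s.j, s.r, s.D + 1⟩ ∧
      (ents s).Perm (ents ⟨cur :: s.lo, s.hi.headD [], s.hi.tail, s.N, s.U, s.j, s.r, s.D + 1⟩) := by
  obtain ⟨h1, h2, h3⟩ := h.hi.tail_S0
  have q : (ents s).Perm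
      (ents ⟨cur :: s.lo, s.hi.headD [], s.hi.tail, s.N, s.U, s.j, s.r, s.D + 1⟩) := by
    change (s.lo.flatten ++ (s.cur ++ s.hi.flatten)).Perm
      ((cur ++ s.lo.flatten) ++ (s.hi.headD [] ++ s.hi.tail.flatten))
    rw [h3, ← List.append_assoc]
    exact (List.perm_append_comm.trans (p.symm.append_right _)).append_right _
  exact ⟨h.perm_S0 q ⟨s.D, rfl, fun e he => h.cur e (p.subset he), h.lo⟩ h1 h2 rfl rfl, q⟩

/-- The state for the next level. -/
theorem SOk.level (h : SOk P lim s) {cur : List En} (p : cur.Perm s.cur) {l : List (List En)}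
    (hl : l = rva (ifb (nil s.hi) (dropN (cur :: s.lo)) (cur :: s.lo)) s.hi) (j : ℕ) :
    SOk P lim ⟨[], l.headD [], l.tail, s.N, s.U, j, s.r, 1⟩ ∧
      (ents s).Perm (ents ⟨[], l.headD [], l.tail, s.N, s.U, j, s.r, 1⟩) := by
  have h0 : LoOk P (s.D + 1) (cur :: s.lo) := ⟨s.D, rfl, fun e he => h.cur e (p.subset he), h.lo⟩
  obtain ⟨X, hX, h4, h5⟩ : ∃ X : List (List En), l = X.reverse ++ s.hi ∧
      X.flatten = (cur :: s.lo).flatten ∧ HiOk P 0 (X.reverse ++ s.hi) := by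
    refine ⟨_, hl.trans (rva_eq _ _), ?_⟩
    cases hh : nil s.hi
    · exact ⟨rfl, h0.rev_S0 h.hi⟩
    · obtain ⟨n, hn⟩ := dropN_spec (cur :: s.lo)
      rw [ifb_true, nil_iff.1 hh]
      generalize dropN (cur :: s.lo) = Y at hn
      rw [hn] at h0 ⊢
      obtain ⟨D', h6⟩ := h0.drop_S0
      obtain ⟨D'', rfl⟩ := Nat.exists_eq_add_of_le' h6.pos
      exact ⟨by simp, h6.rev_S0 trivial⟩
  obtain ⟨h1, h2, h3⟩ := (hX ▸ h5 : HiOk P 0 l).tail_S0
  have q : (ents s).Perm (ents ⟨[], l.headD [], l.tail, s.N, s.U, j, s.r, 1⟩) := by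
    change (s.lo.flatten ++ (s.cur ++ s.hi.flatten)).Perm (l.headD [] ++ l.tail.flatten)
    rw [h3, hX, List.flatten_append, ← List.append_assoc]
    refine List.Perm.append_right _ (List.Perm.trans ?_ (List.reverse_perm X).symm.flatten)
    rw [h4]
    exact List.perm_append_comm.trans (p.symm.append_right _)
  exact ⟨h.perm_S0 q rfl h1 h2 rfl rfl, q⟩

end Pool.Agent.P.MP_8598be_al.Ck
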