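import Pool.Agent.P.MP_8598be_al.Ck.S1
import Pool.Agent.P.MP_8598be_al.K.TyGlue

/-!
The first fact and the outputs.
-/

namespace Pool.Agent.P.MP_8598be_al.Ck

open Z K MvPolynomial

variable {P : Par} [Cx P]

/-- The packed positive part of a polynomial in one variable. -/
def pk (P : Par) (i : ℕ) (cs : List ℤ) : ℕ :=
  cs.foldr (fun c s => c.toNat + s <<< (P.be * ww P i)) 0

omit [Cx P] in
theorem den_int (c : ℤ) : Den P ⟨c.toNat, (-c).toNat, c.natAbs, 1⟩ (c : Rz) := by
  have h := (den_nat P c.toNat).sub (den_nat P (-c).toNat)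
  have e : ((c.toNat : ℕ) : Rz) - ((-c).toNat : ℕ) = (c : Rz) := by
    conv_rhs => rw [← Int.toNat_sub_toNat_neg c]
    rw [Int.cast_sub, Int.cast_natCast, Int.cast_natCast]
  rw [e] at h
  exact h.mono rfl (Nat.zero_add _).symm (Int.toNat_add_toNat_neg_eq_natAbs c).le
    (Nat.lcm_one_left 1).dvd

omit [Cx P] in
theorem den_pk (i : Fin 6) (cs : List ℤ) :
    Den P ⟨pk P i cs, pk P i (cs.map Neg.neg), (cs.map Int.natAbs).sum, pr i ^ (cs.length - 1)⟩
      (cs.foldr (fun (c : ℤ) s => (c : Rz) + X i * s) 0) := by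
  induction cs with
  | nil => exact den_zero P
  | cons c cs ih =>
    cases cs with
    | nil =>
      simp only [List.foldr_cons, List.foldr_nil, mul_zero, add_zero]
      exact (den_int c).mono (by simp [pk]) (by simp [pk]) (by simp) (one_dvd _)
    | cons d cs =>
      refine ((den_int c).add (ih.shl i)).mono rfl rfl le_rfl ?_
      change Nat.lcm 1 (pr i ^ cs.length * pr i) ∣ pr i ^ (cs.length + 1)
      rw [Nat.lcm_one_left, pow_succ]

theorem nA_uni (i : Fin 6) (hi : P.L ≠ 1 → i ≠ 0) (cs : List ℤ) {p n : ℕ} (hp : p = pk P i cs)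
    (hn : n = pk P i (cs.map Neg.neg)) (hb : (cs.map Int.natAbs).sum < P.M)
    (hd : pr i ^ (cs.length - 1) ∣ P.LIM) : Cg (nA P [1, p, n]) fun y => roots cs y.p := by
  have h1 : _ = vz P p n := hp ▸ hn ▸ (den_pk (P := P) i cs).vp_eq hb hd
  refine (sS_eq (Filter.Eventually.of_forall fun y ρ => ⟨and_congr_right fun _ => ?_,
    fun _ => rfl⟩)).trans (sS_roots i hi cs)
  have h2 : ev ρ (cs.foldr (fun (c : ℤ) s => (c : Rz) + X i * s) 0) =
      cs.foldr (fun c s => (c : ZMod y.p) + ρ i * s) 0 := by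
    clear h1 hp hn hb hd
    induction cs with
    | nil => exact map_zero _
    | cons c cs ih =>
      rw [List.foldr_cons, map_add, map_mul, ih, map_intCast, ev, eval₂Hom_X']
      rfl
  rw [← h2, h1]
  simp [InA]

omit [Cx P] in
theorem tyOf_zero (ty : List ℕ) : tyOf (ty.map fun w => (dw P w, 1)) 0 = tyL (ty.map (dw P)) := by
  funext α
  simp only [tyOf, tyL, List.count, List.countP_map]
  refine List.countP_congr fun w _ => ?_
  simp

omit [Cx P] in
theorem tyOf_pos (ty : List ℕ) {i : ℕ} (hi : 1 ≤ i) :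
    tyOf (ty.map fun w => (dw P w, 1)) i = 0 := by
  funext α
  rw [tyOf, Pi.zero_apply, List.countP_eq_zero]
  intro v hv
  obtain ⟨w, _, rfl⟩ := List.mem_map.1 hv
  simp [hi.not_gt]

open Classical in
theorem top_spec {n lim : ℕ} {o : List Out}
    (hf : FV P ⟨true, ⟨[], [], [], 0, 0, n, n, 1⟩, [], ⟨lim, [], [], true⟩, o⟩) (hl : lim ∣ P.LIM)
    (hz : P.L ≠ 1 → 2 ∣ lim) (γ : Ty (Fin P.d)) {k : ℕ} (h : HasCost γ k) (hk : k ≤ n)
    (h' : k = n ∨ P.lo ≤ n - k) (hm : Reach γ P.m) :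
    ECF fun y : Pt P.L => (cntT (ZMod y.p) {Cx.σ} γ : ℤ) -
      (o.map fun x => if γ = tyOf (x.ty.map fun w => (dw P w, 1)) then
        ((x.p : ℤ) - x.n) * nA P x.a y else 0).sum := by
  by_cases h0 : ∀ i, n < i → γ i = 0
  · have h1 := hf.1 rfl ⟨⟨hl, hz, fun _ hx => (by cases hx), fun _ hx => by cases hx⟩,
      ⟨rfl, fun _ hx => (by cases hx), trivial, fun _ hx => (by cases hx), List.nodup_nil,
        fun _ hx => (by cases hx), rfl⟩, fun e => (e rfl).elim,
      Al.of_forall fun _ _ _ => goodF_nil, fun _ => re_nil _ _⟩ γ ⟨bud_start h hk h' h0, hm⟩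
    have h2 : Cg (sS (InR P [] []) fun _ _ => 1) fun _ => 1 :=
      (sS_eq (Filter.Eventually.of_forall fun y ρ => ⟨by simp [InR], fun _ => rfl⟩)).trans sS_one
    refine h1.cg (Cg.sub ?_ (Cg.of_eq (Filter.Eventually.of_forall fun y => ?_)))
    · refine Cg.symm (Cg.trans (Cg.of_eq (Filter.Eventually.of_forall fun y => ?_))
        (((Cg.refl fun y : Pt P.L => (cntT (ZMod y.p) {Cx.σ} γ : ℤ)).mul h2).trans
          (Cg.of_eq (Filter.Eventually.of_forall fun y => mul_one _))))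
      refine Eq.trans ?_ (sS_const _ (fun y : Pt P.L => (cntT (ZMod y.p) {Cx.σ} γ : ℤ)) y)
      refine congrFun (congrArg (sS _) (funext fun y => funext fun ρ => ?_)) y
      exact congrArg Nat.cast (cnt_start (s := sy P y) h0).symm
    · refine congrArg List.sum (List.map_congr_left fun x _ => if_congr ⟨fun e => ?_, fun e => ?_⟩
        rfl rfl)
      · exact ⟨e ▸ tyOf_zero _, fun i h1 _ => e ▸ tyOf_pos _ h1⟩
      · funext i
        rcases Nat.eq_zero_or_pos i with rfl | hi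
        · rw [e.1, tyOf_zero]
        · rw [tyOf_pos _ hi]
          exact (le_or_gt i n).elim (e.2 i hi) (h0 i)
  · push Not at h0
    obtain ⟨i, h1, h2⟩ := h0
    refine (ecf_const 0).cg (Cg.of_eq (Filter.Eventually.of_forall fun y => ?_))
    have h3 : cntT (ZMod y.p) {Cx.σ} γ = 0 := cnt_high (s := sy P y) h hk h1 h2
    rw [h3, List.sum_eq_zero, Nat.cast_zero, sub_zero]
    intro z hz
    obtain ⟨x, _, rfl⟩ := List.mem_map.1 hz
    exact if_neg fun e => h2 (by rw [e]; exact tyOf_pos _ (by omega))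

end Pool.Agent.P.MP_8598be_al.Ck
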