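import Pool.Agent.P.MP_8598be_al.Ck.P5

/-!
Solving an equation.
-/

namespace Pool.Agent.P.MP_8598be_al.Ck

open Z K MvPolynomial

variable {P : Par} {r : Res}

theorem pwz_succ_U1 (a b : Rz) (n : ℕ) :
    pwz a b (n + 1) = a ^ (n + 1) :: (pwz a b n).map (b * ·) := by
  rw [pwz, List.range_succ_eq_map, List.map_cons, List.map_map, pwz, List.map_map]
  congr 1
  · simp
  · refine List.map_congr_left fun k _ => ?_
    simp only [Function.comp_apply, Nat.succ_eq_add_one, Nat.add_sub_add_right]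
    ring

theorem pwz_head_U1 (a b : Rz) (n : ℕ) : ∃ t, pwz a b n = a ^ n :: t := by
  cases n
  · exact ⟨[], by simp [pwz]⟩
  · exact ⟨_, pwz_succ_U1 a b _⟩

theorem map_U1 (v : Po) (l : List Po) :
    (List.rec [] (fun b _ ih => pmul v b :: ih) l : List Po) = l.map (pmul v) := by
  induction l with
  | nil => rfl
  | cons a t ih => exact congrArg _ ih

theorem pwT_spec {u v : Po} {a b : Rz} (hu : Den P u a) (hv : Den P v b) (n : ℕ) :
    List.Forall₂ (Den P) (pwT u v n) (pwz a b n) := by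
  induction n with
  | zero => exact .cons (by simpa using den_one P) .nil
  | succ n ih =>
    have e : pwT u v (n + 1) = List.rec [] (fun a _ _ => pmul u a ::
      List.rec [] (fun b _ ih => pmul v b :: ih) (pwT u v n)) (pwT u v n) := rfl
    have k : List.Forall₂ (Den P) ((pwT u v n).map (pmul v)) ((pwz a b n).map (b * ·)) :=
      List.rel_map (fun _ _ h => hv.mul h) ih
    rw [e, map_U1, pwz_succ_U1]
    obtain ⟨t, ht⟩ := pwz_head_U1 a b n
    rw [ht] at ih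
    obtain ⟨x, s, h1, -, h2⟩ := List.forall₂_cons_right_iff.1 ih
    rw [h2] at k ⊢
    exact .cons (pow_succ' a n ▸ hu.mul h1) k

theorem sub1_U1 {lim' : ℕ} {i : Fin 6} {R : Rz → Rz → Prop} {k : Po → Po → ℕ → Res}
    (hi : ¬ pr i ∣ lim') (hR : ∀ f a b a' b', Ind i f → R a b → R a' b' → R (a + f * a') (b + f * b'))
    {T : List Po} {l : List Rz} (hT : List.Forall₂ (Den P) T l) : ∀ {q o y : Po} {s a b : Rz} {c : ℕ},
      Den P q s → Den P o a → Den P y b → R a b → (∀ j w, l[j]? = some w → R (s * X i ^ j) w) →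
      Is (sub1 P lim' (var P i) T k q o y c) r →
      ∃ o y a b c, Den P o a ∧ Den P y b ∧ R a b ∧ Is (k o y c) r := by
  induction hT with
  | nil => exact fun _ ho hy h _ e => ⟨_, _, _, _, _, ho, hy, h, e⟩
  | @cons w w' T l hw _ ih =>
    intro q o y s a b c hq ho hy h H e
    have H' : ∀ j w, l[j]? = some w → R (s * X i * X i ^ j) w := fun j w hj => by
      rw [mul_assoc, ← pow_succ']
      exact H (j + 1) w hj
    rcases ifb_is e with ⟨-, e⟩ | ⟨-, e⟩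
    · exact ih (hq.mul (den_var P i)) ho hy h H' e
    · obtain ⟨f, g, c', hf, e⟩ := rdP_spec e
      obtain ⟨h1, e⟩ := chk_is e
      exact ih (hq.mul (den_var P i)) (ho.add (hf.mul hq)) (hy.add (hf.mul hw))
        (hR _ _ _ _ _ (hf.ind fun h2 => hi (h2.trans (Nat.dvd_of_mod_eq_zero
          (Nat.eq_of_beq_eq_true h1)))) h (by simpa using H 0 w' rfl)) H' e

variable [Cx P]

theorem sub2_spec {lim lim' c n : ℕ} {i : Fin 6} {T : List Po} {u v a : Rz} {x : Po}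
    {k : Po → ℕ → Res} (hl : lim ∣ P.LIM) (hi : ¬ pr i ∣ lim')
    (hT : List.Forall₂ (Den P) T (pwz u v n)) (hx : Den P x a)
    (h : Is (sub2 P lim lim' i (var P i) T x c k) r) : ∃ z b c', Den P z b ∧
      (∀ (F : Type) [Field F] (ρ : Fin 6 → F), ev ρ u ≠ 0 →
        ev ρ b = ev ρ u ^ n * ev (up i u v ρ) a) ∧ Is (k z c') r := by
  rcases ifb_is h with ⟨-, h⟩ | ⟨h1, h⟩
  · obtain ⟨o, y, a', b, c', ho, hy, k1, h⟩ := sub1_U1 (R := fun a b => ∀ (F : Type) [Field F]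
        (ρ : Fin 6 → F), ev ρ u ≠ 0 → ev ρ b = ev ρ u ^ n * ev (up i u v ρ) a) hi
      (fun f a b a' b' hf h h' F _ ρ hu => by
        rw [map_add, map_add, map_mul, map_mul, h F ρ hu, h' F ρ hu,
          show ev (up i u v ρ) f = ev ρ f from hf F ρ _]
        ring) hT (den_one P) (den_zero P) (den_zero P) (fun _ _ _ _ => by simp)
      (fun j w hj F _ ρ hu => by
        obtain ⟨m, hm, rfl⟩ : ∃ m, n = m + j ∧ w = u ^ m * v ^ j := by
          rw [pwz, List.getElem?_map, Option.map_eq_some_iff] at hj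
          obtain ⟨j', h1, rfl⟩ := hj
          obtain ⟨h2, rfl⟩ := List.getElem?_eq_some_iff.1 h1
          rw [List.length_range] at h2
          exact ⟨n - j, by omega, by rw [List.getElem_range]⟩
        have e : ev (up i u v ρ) (X i) = ev ρ v / ev ρ u := by simp [ev, up]
        rw [one_mul, map_mul, map_pow, map_pow, map_pow, e, hm, div_pow]
        field_simp
        ring) h
    obtain ⟨h2, h⟩ := isz_spec hl (hx.sub ho) h
    exact ⟨y, b, c', hy, sub_eq_zero.1 h2 ▸ k1, h⟩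
  · obtain ⟨t, ht⟩ := pwz_head_U1 u v n
    rw [ht] at hT
    obtain ⟨w, s, h2, -, rfl⟩ := List.forall₂_cons_right_iff.1 hT
    refine ⟨_, _, _, h2.mul hx, fun F _ ρ _ => ?_, h⟩
    rw [map_mul, map_pow, up, hx.ind fun h3 => Nat.ne_of_beq_eq_false h1 (Nat.mod_eq_zero_of_dvd h3)]

theorem subX_U1 {lim lim' n : ℕ} {i : Fin 6} {T : List Po} {u : Po} {v : Rz} {N : Prop → Prop}
    {tc : Po → ℕ → (ℕ → Res) → Res} {k : List Po → ℕ → Res} (hl : lim ∣ P.LIM) (hl' : lim' ∣ P.LIM)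
    (hi : ¬ pr i ∣ lim') (hu : Cn P u) (hT : List.Forall₂ (Den P) T (pwz (vp P u) v n))
    (htc : ∀ x a c k, Den P x a → Is (tc x c k) r →
      ∃ c', (Al P [u] [] fun _ ρ => N (ev ρ a = 0)) ∧ Is (k c') r) (l : List Po) :
    ∀ (t : List Po) (c : ℕ), (∀ x ∈ l, Cn P x) → (∀ z ∈ t, POk P lim' z) →
      Is (List.rec (motive := fun _ => List Po → ℕ → Res) k (fun x _ ih t c =>
        sub2 P lim lim' i (var P i) T x c fun y c => ifb (tb c 0) (tc y (c >>> 1) (ih t))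
          (rns P lim' [u] y (c >>> 1) fun z c => ih (z :: t) c)) l t c) r →
      ∃ t' c', (∀ z ∈ t', POk P lim' z) ∧ (Al P [u] [] fun _ ρ => (∀ z ∈ t', N (ev ρ (vp P z) = 0)) ↔
        (∀ z ∈ t, N (ev ρ (vp P z) = 0)) ∧ ∀ x ∈ l, N (ev (up i (vp P u) v ρ) (vp P x) = 0)) ∧
        Is (k t' c') r := by
  induction l with
  | nil => exact fun t c _ ht h => ⟨t, c, ht, .of_forall fun _ _ _ => by simp, h⟩
  | cons x l ih =>
    intro t c hx ht h
    rw [List.forall_mem_cons] at hx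
    obtain ⟨y, b, c₁, hy, e, h⟩ := sub2_spec hl hi hT hx.1 h
    have e' : ∀ (y : Pt P.L) (ρ : y.V), InR P [u] [] y ρ →
        (ev ρ b = 0) = (ev (up i (vp P u) v ρ) (vp P x) = 0) := fun y ρ h => by
      have := (inR_G.1 h).2
      rw [e _ ρ this, mul_eq_zero, or_iff_right (pow_ne_zero _ this)]
    rcases ifb_is h with ⟨-, h⟩ | ⟨-, h⟩
    · obtain ⟨c₂, k1, h⟩ := htc _ _ _ _ hy h
      obtain ⟨t', c', k2, k3, h⟩ := ih t c₂ hx.2 ht h
      refine ⟨t', c', k2, (k1.and k3).mono fun y ρ h1 h2 => ?_, h⟩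
      rw [h2.2, List.forall_mem_cons, ← e' y ρ h1, and_iff_right h2.1]
    · obtain ⟨z, c₂, k0, k1, h⟩ := rns_spec hl' (by simpa using hu) hy h
      obtain ⟨t', c', k2, k3, h⟩ := ih (z :: t) c₂ hx.2 (List.forall_mem_cons.2 ⟨k0, ht⟩) h
      refine ⟨t', c', k2, (k1.and k3).mono fun y ρ h1 h2 => ?_, h⟩
      rw [h2.2, List.forall_mem_cons, List.forall_mem_cons, ← e' y ρ h1, propext h2.1]
      tauto

theorem solve_spec {g : Rg} {c : ℕ} {k : ℕ → List Po → Rg → ℕ → Res} (hg : ROk P g)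
    (h : Is (solve P g c k) r) :
    ∃ (i : Fin 6) (T : List Po) (g' : Rg) (u v : Rz) (n c' : ℕ), SubOk P g i T g' u v n ∧
      Is (k i T g' c') r := by
  unfold solve at h
  obtain ⟨q, E, hp, h⟩ := pick_spec h
  rw [frc_eq] at h
  obtain ⟨i, hi⟩ : ∃ i : Fin 6, ((c.shiftRight (nat_lit 4)).mod (nat_lit 8)).mod (nat_lit 6) = i :=
    ⟨⟨_, Nat.mod_lt _ (by norm_num)⟩, rfl⟩
  rw [hi] at h
  obtain ⟨h0, h⟩ := chk_is h
  rw [frc_eq] at h
  generalize g.lim.div (pw P i) = lim at h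
  obtain ⟨h1, h⟩ := chk_is h
  obtain ⟨h2, h⟩ := chn_is h
  obtain ⟨u, a, c₁, hu, h⟩ := rdP_spec h
  obtain ⟨v, b, c₂, hv, h⟩ := rdP_spec h
  obtain ⟨u1, u2, h⟩ := sml_is h
  obtain ⟨-, v2, h⟩ := sml_is h
  have e1 : lim * pw P i = g.lim := Nat.eq_of_beq_eq_true h1
  have e2 : ¬ pr i ∣ lim := fun h => Nat.ne_of_beq_eq_false h2 (Nat.mod_eq_zero_of_dvd h)
  have e3 : lim ∣ P.LIM := (Dvd.intro _ e1).trans hg.lim
  obtain ⟨u3, rfl⟩ := hu.pok u1 u2 e3
  have iu := hu.ind fun h => e2 (h.trans u2)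
  have iv := hv.ind fun h => e2 (h.trans v2)
  have hE := fun x hx => (hg.E x (hp.mem_iff.2 hx)).1
  have hG := fun x hx => (hg.G x hx).1
  rw [List.forall_mem_cons] at hE
  have hd := (hu.mul (den_var P i)).sub hv
  obtain ⟨s, hs, e4, h⟩ : ∃ s : Rz, (s = 1 ∨ s = -1) ∧ vp P q = s * (vp P u * X i - b) ∧ Is _ r := by
    cases ht : tb c (nat_lit 11)
    · rw [ht] at h
      obtain ⟨k, h⟩ := isz_spec hg.lim (hE.1.sub hd) h
      exact ⟨1, .inl rfl, by rw [one_mul, sub_eq_zero.1 k], h⟩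
    · rw [ht] at h
      obtain ⟨k, h⟩ := isz_spec hg.lim (hE.1.add hd) h
      exact ⟨-1, .inr rfl, by rw [neg_one_mul, eq_neg_of_add_eq_zero_left k], h⟩
  have e5 : ∀ (y : Pt P.L) (ρ : y.V), ev ρ (vp P q) = 0 ↔ ev ρ (vp P u) * ρ i = ev ρ b := by
    intro y ρ
    have e : ev ρ (X i) = ρ i := by simp [ev]
    have : ev ρ s ≠ 0 := by rcases hs with rfl | rfl <;> simp
    rw [e4, map_mul, mul_eq_zero, or_iff_right this, map_sub, map_mul, e, sub_eq_zero]
  obtain ⟨c₃, k0, h⟩ := uc_spec hg.lim hG (fun x hx => (hg.E x hx).1) hu h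
  rw [fls_eq] at h
  generalize (c.shiftRight (nat_lit 7)).mod (nat_lit 16) = n at h
  have hT := pwT_spec hu hv n
  have hU : ∀ x ∈ [u], Cn P x := by simpa using u3.1
  obtain ⟨G', c₄, g1, g2, h⟩ := subX_U1 (N := Not) (tc := uc P lim [u] []) hg.lim e3 e2 u3.1 hT
    (fun x a c k hx h => uc_spec e3 hU (by simp) hx h) g.G [] c₃ hG (by simp) h
  obtain ⟨E', c₅, g3, g4, h⟩ := subX_U1 (N := id) (tc := zc P lim [u] []) hg.lim e3 e2 u3.1 hT
    (fun x a c k hx h => zc_spec e3 hU (by simp) hx h) E [] c₄ hE.2 (by simp) h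
  have key : ∀ G, (∀ z ∈ G, POk P lim z) → (Al P G E' fun _ ρ => ev ρ (vp P u) ≠ 0) →
      (∀ y ρ, ev ρ (vp P u) ≠ 0 → (InR P G E' y ρ ↔ InR P G' E' y ρ)) →
      SubOk P g i (pwT u v n) ⟨lim, G, E', g.ec⟩ (vp P u) b n := fun G k1 k2 k3 => by
    refine ⟨⟨e3, fun hL => two_dvd (nz_spec h0 hL) (e1 ▸ hg.z hL), k1, g3⟩, rfl, e1, e2, hT, iu, iv,
      k2, ?_⟩
    filter_upwards [k0, k2, g2, g4] with y k0 k2 g2 g4 ρ
    have z : Zc y (up i (vp P u) b ρ) ↔ Zc y ρ := forall_congr' fun hL => by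
      rw [up, Function.update_of_ne fun h => nz_spec h0 hL (congrArg Fin.val h).symm]
    have w : Zc y ρ → ev ρ (vp P u) ≠ 0 →
        (InR P G' E' y ρ ↔ InR P g.G g.E y (up i (vp P u) b ρ)) := fun hz hu => by
      have m : InR P [u] [] y ρ := ⟨hz, by simpa using hu, by simp⟩
      have : ev (up i (vp P u) b ρ) (vp P q) = 0 := by
        rw [e5, up, iu, iv, Function.update_self, mul_div_cancel₀ _ hu]
      rw [inR_perm (.refl _) hp, inR_E, and_iff_left this]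
      exact and_congr z.symm (and_congr (by simpa using g2 ρ m) (by simpa using g4 ρ m))
    refine ⟨⟨fun h => (w h.1 (k2 ρ h)).1 ((k3 y ρ (k2 ρ h)).1 h), fun h => ?_⟩, fun h => ?_⟩
    · have hu : ev ρ (vp P u) ≠ 0 := iu _ ρ _ ▸ k0 _ h
      exact (k3 y ρ hu).2 ((w (z.1 h.1) hu).2 h)
    · rw [up, ← (e5 y ρ).1 (h.2.2 q (hp.mem_iff.2 List.mem_cons_self)),
        mul_div_cancel_left₀ _ (k0 ρ h), Function.update_eq_self]
  rcases ifb_is h with ⟨-, h⟩ | ⟨-, h⟩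
  · exact ⟨i, _, _, _, _, n, _, key (u :: G') (List.forall_mem_cons.2 ⟨u3, g1⟩)
      (.of_forall fun _ _ h => (inR_G.1 h).2) fun _ _ h => inR_G.trans (and_iff_left h), h⟩
  · obtain ⟨c₆, k1, h⟩ := uc_spec e3 (fun x hx => (g1 x hx).1) (fun x hx => (g3 x hx).1) hu h
    exact ⟨i, _, _, _, _, n, _, key G' g1 k1 fun _ _ _ => .rfl, h⟩

end Pool.Agent.P.MP_8598be_al.Ck
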